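import Pool.Agent.Helper55.CE.R_CB_1_m1_b0
import Pool.Agent.Helper55.CE.R_CB_1_m1_b1
import Pool.Agent.Helper55.TR.Num
import Pool.Agent.Helper81.PC.Sound
import Pool.Agent.Helper55.TR.Cls
import Pool.Agent.Helper11.CT.Clo
import Pool.Agent.Helper25.KG.S1b
import Pool.Agent.Helper55.CB.V_1_m1
import Pool.Agent.Helper55.CB.C_1_m1
import Pool.Agent.Helper25.KW.S1I
import Pool.Agent.Helper55.TR.El
import Pool.Agent.Helper55.TR.Lab

set_option autoImplicit false
set_option linter.all false

namespace Helper55.CD.T_1_m1_41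

open Helper25.KG Helper25.KW Helper55.KE Helper11.CT Helper55.TR.Nm

noncomputable def K : Cls :=
  cT (-1) (kfM (-1) [0,0,0,0,0,0,1,0,0,0,0,-1] [0,0,0,0,0,0,1,1,0,0,0,-1] true)

noncomputable def base : List Con :=
  [(true,[n0,m2,n0,n0,n1]),
  (true,[n1,n1,n0,n0,n0,n0,n0,n0,n0,m1]),
  (true,[n0,n0,m2,n0,n1]),
  (false,[n0,n1,n0,n0,n0,n0,m1,m1,n0,n0,n0,n1]),
  (true,[n0,n0,n0,n1]),
  (false,[n0,m1,n0,n0,n0,n0,n1,n1,n0,n0,n1,m1]),
  (false,[n0,n0,n1,n0,n0,n0,n1,n0,n0,n0,n0,m1]),
  (true,[n1,m2,n1]),
  (false,[n0,n0,n0,n0,n1,n0,n0,n0,n0,n0,m2]),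
  (true,[m1,n1]),
  (false,[n0,n0,n1,n0,n0,n0,m1,n0,n0,n0,n0,n1]),
  (false,[n0,n0,n0,n0,n0,n0,n0,n0,m1,n0,n0,n0,n1]),
  (false,[n0,n0,n0,m1,n0,n0,n0,n0,n1,n1,n0,n0,m1]),
  (true,[n0,n1,n0,m1]),
  (true,[n0,m1,n0,n1,n0,n0,n0,n0,n0,n1]),
  (false,[n0,n0,n0,n0,n0,n0,n0,n0,n0,n0,n0,n0,n1]),
  (false,[n0,n0,n0,n0,n0,n0,n0,n0,n0,n0,n1,n0,m1]),
  (false,[n0,n0,n0,n0,n0,n0,n0,n0,n0,n0,n1,m1]),
  (false,[n0,n0,n0,n0,n0,n0,n0,n0,n0,n0,n0,n1]),
  (false,[n0,n0,n0,n0,n0,n1,n0,n0,n0,n0,n0,n0,m1]),
  (false,[n0,n1,n0,n0,n0,n0,n1,n1,n0,n0,n0,m1]),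
  (true,[n0,m1,n1,n0,n0,n0,n0,n1]),
  (false,[n0,n0,n0,n0,n0,m1,n0,n0,n0,n0,n1]),
  (true,[n0,n0,n0,n0,n0,n1])]

open Helper55.PC in
noncomputable def t0n : Helper55.PC.Ten :=
  (q 7589013529497329180682444407632116054994965184907648376966350094757037945592348685 (i
  21775413351427436243373552308732205072394 (q
  22713720965309397367151725122387919123033166152941539337523614153935216762655635161549265305398865286876213636475504825021103733604365
  (r
  196932496842242512588415657371353955777673959956647299730545788906236773714601133523574199507803409917449550136164089312226878042789432526691133446623827516396356383907455446520618065901856737724011377158330381030108812046498189257503309957536293917804358975990145058686570057396453515488547917353930096307544298683137413747220394837474805219150651337321779168603990104729392557756079649704580727783562630908695840379309516784516470343148809023323023980633210066418509635675204161148293488928)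
  (r
  133084952564304484233011279865380229624238192652368022755116489300533674625490507259965274010222290345081126531432943771208954983229247233535604437419922939306027561069509280305910010480085331486895969336864512093759551201801873851647418812029324541602954254195829275007116694192320099840449258810676507886096693011901034372620037321105319490725810252958241519123405727030026975137523040006208960693622695119509894021166113804928829672793321798297437773741717707336070213512783424071394685114961212584740936249343536837528973216080034))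
  (q 12771547637554566980034867104563863586860605243403 (r
  225967364704648956438365044682116766537053570078986237897684331801448458160605853459272417477553044176867758451433613767517309254079892208044248087827238554939372579431316553811894524578329197485848637645483686627094186357448807657706917033870206085474104968229661604247274421555093820957370777026114560852980995997693346039885650765490174661800934466515387450225417724732986687162377057801086211989153479216572716062051207135833498374399902850932767376909033728)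
  (r
  8721855455315627083753802415549914702310980947769167498307706759588330949722078694931466359307635793199162210373465041925438678470917197528994283556677438441574372045094853724247981572333235490701907941925614383863218764300017197398928275007612683027005541217416162444523997113599371959813684839666335922441424769070825633737692418930543328546781639322258357951638756300703019711166304335493700653897262328644088212086856999439587783206107557199859150647437907530433722733504565189574698707313808231888215121828661929467420185497954443426)))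
  (q
  1488566062280795818386831703187179394673104046459855210703402475114179331835903743456185528087087072473467137248996382099758875859961118733
  (q 1244998352896667139845186282372570283003281716397044948815768358098950637444268045 (r
  93402010616153845281123721993210717124746505959040443435798182372572123744161214906886134144076200177364233868086514598119074594872351034008320309637140254687643229667143764963103492938309393390447220581572842290745841135984041346949788307498152115836234785275103742864053399445988833908044280590665709645441372517006253212796165797363718116650285872467493059028535646874095017042911694220697439883160274563000633906158292447978517639504213519579184861079963662112879885683047408695153201376032835379891304156043437398738191719238925056943945504398290517773377048634728736)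
  (i 21775413351585892568401936886327697866762 (i 324478944413463240949625858162728 (r
  62410399457068487524245279848029166450353188016143178655485730763797779741645618814035294672408303636321533551533607266350059767767689921946445417160699425685988390915266252466905888986799294661795954787481736343914385780538981799888396773984561113571733637755343284247490867257178781357032131556832895399669009993366774303368255470371231801633062838310725292118741032235562133636338836236395090441658013138359821919267218115044427892960278001575798618969205329912940841362086927859898478881029929418874148553863565943040)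
  (q
  13093780957126986891137236892898523997810248343377034015640754027445240429364221275136343787804947167828325900536956063310073813558666758652498618220557
  (r
  151711277078173439571577039765515119562580311007863792687120525008269826474568055511892197164770934571005687776085632909109242064948347525840186101799413194787101553823972240477479028484767991278430748244328364653280831996482688485633480638401626196994402677638769349648215122232605839079189007376500258109788006694680892940776852199991269982183963098978089547238133875444664158912476280139670005843380934047515435368530573712618536589334253900219629999235328)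
  (r
  3994265565266473903785394355929030506614471669939212248917882966274853410608141467892293119885198358889178693611056398477909712916260919662430563489237992601969396007488532556316911334247035639268555443064846570529891057960015934742634686329316369782224862360873176810928783144473771421494630093416455461524020168243420120072521501373002687162245112128159345519040091078510897558998196037782118213516805297920107009445309221694742867142721050626859926892366612377174116808711606275916632391584564778618705023266914249744640)))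
  (q
  115228429683447170035862755202995292203658235062101661588161849446998527406335012357329755650586731770475959909046852864989728223755698129495296411727151556288708621
  (r
  24273189834618808022043613192491321927999102687590358431476261886856568927655307293858900890182729703667127643446186071634496610162961244211264710198513592523315475885653673193897727339952393786104847824769547615494782568912981431642541332185566914423024747942144215901940799047612053367073394042124594523989737941109376025557581251367160364107556871132375321475279461594439259059927693013318733609038219105730244870421580569313256438600387566299956376011339918600546336755112423947358139315764454213954371274630035018971202921214757867679898764955785816690842863793221165344)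
  (r
  391756426738140561861416844777120555383487189602554159788571932832312416734446793248392400147391475418060075223299642396422905358432672303050659417875924823076058247901794195507402418908734043564709650703916747474883438130171588341595437336996526460684901854043314878321545328847362712916582914525595089132402149677406237839519002149642127472823232481934011653177416947296680702943043687014231042599914562484746130182572815116111324206469215697927650171295757791526684646444503279781767628824664343419372350146717999414239721651801205164207816774139641958528269435677635246301440))))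
  (q 7589071425541974798726823343860201883274559099185582520728073730807909426768510989 (q
  1304283902586173453151221300925765283496266683227582193184352243307447177063825421 (r
  1651989518476638056720804984932122661302038620386100939463164102775647397722687474677681764932278724210353800731704390985884195200022625913120635675493929784068768342096510555019990747118185956048564600876805163367318008340161365615490748470378649149272060975968578737418740887298731443816100438760250024474327252428525513633763299654613704992913642438587909674846056632411102058586668213562738172919342140402213323226366684693964299542775697809055507498145366561013660652389514694026439875686048032)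
  (i 324478944413463240949625858162728 (q
  879653290517525212041596198527099961365424504545028539023373 (q
  19901792953495354485948749360582020935328671279826842088537879344900783079437 (r
  29013080516620453886003278553981719877438394344799740759542660568534430867805752288486692518567177002869731550031335791589118804215638197845156120720415582201471625182847456252960816167821051841746417266153852387686024236655704150140942901503075853584797956811935974879377397882812120138883012716837481042936162156011185632286648365318212483859264205570447660950771559137957261232722351318024662379331330631372650232554558071584)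
  (r
  9337562994537502197303348605194424798941903604716729153330234043602148194236004202058782622567578346362013204324441582054811754505351652330106167484151620520857462546853396562054787635062706792443525846491267349126812437685982176191607973698192452475431379014421509512148123321720446465620813037513458858336631689288579399693622417710680146586027809507674383645669015371192644758878601826596701936908181930346827878913890693168600158857329334587278448824059123316217510649332725078256960685818464588957831355383229931954821867196828927919329493490561190952104827190859380037872017696))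
  (q 28950562155355895247590781521892591216325345283719097954496397492920195874828 (i
  324637400738491769642405131845640 (r
  15667067555680952480261932587925103834036578659837091157359169143448951571005136776233841286313098070342092617094603326318487784061297338475422729679833529509464818908023793567146868168743262740597156727067845788676546051949518112771629625458563594479719366754507676228452688429223239074338450914846045383528452492184911043816564036029126991588929771088507518137814946187149021351387309418363409171612707258843336264203209150501518543551704234880833649882716463266)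
  (q
  3743096277261070012183771139979724975886021017068685803996391924177099132977617786057376805994071281437999560773502642809127781377964338215748394109853855991457775629
  (r
  125492627106053725824741563845856879361070156827142359953450759547131303122661536679300794035343723711612263939871392441969910620599418835593034964086294841003356243681681935018464757808194413365285450686044431963132472777128573089436593747347378813580591911559240422014554224964097238268784819368049232832803786358771927962915173067660223500508220731816451979244843622838986778632278841642263427055269798881657281431937019538057732352)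
  (r
  50414719192681181212867228332955837419700672889467156391525020080587037311805549271716978461882020915470913302450068744859682399457025734950796714620223816942688068227172086087611617234611858967872912659166182157041488286786954144666298088991969765225686210844741696640395750383340023491255234356802606943370644525096862907598851658209738877607529158177494910471887484712078825903213497725061487398241885818489785514588595545772696689146678485708947168221768116745040887472477377849257135186176)))
  (r
  1118936193445628334556681914786468893386198993528408269627061832407926912326860943483095460678171850231488081261800005801707392518440319339426919768387170224687930615569681658394740996119556528890940293829293125817105644045080160684554897849054737818830094464249359066909615438043324987064111424716873956286665777207256146453588676690960053061797291754944341707221099332027054875276228429930171917187894379378052283230776128036591882738330117560751220598650853365543737960675947774264238242)))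
  (q
  13093780957126986891137236892898523997810248343377034015640754027445240429364221275136343787804947167828325900536956063310073813558666758652498618220557
  (r
  1914865525889978216572210884768536261419778297283702926731634388431149806254495279033616721777614594271000579976540965272995865447603371447679191863586610407957115957833635706032427413412521172180388494407347357675022340839723036810757257990154016559468886223749893819160869846608197992029451658919160978729153412394289154733484241143653364539433589148667980233185086494950720048262162834397747620777408385080786289648530555674880)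
  (r
  3303979036976587224851552652329984698017447663856968951865790409731317708173820360441715678709544273832266227410441383555416592355432494281588093593855054957374163214891642858507893266777870482176709393586667414515879002222378164462976931241697965717653827376605717780644077165812611169417243535639602270855845523922393537469953657672643636524767104901107985636980989517252712597028361498899029712785874848063298822981528288525657069298848551114717473957116148526268229209693636387555216005053817088))))
  (r
  97675992678235368579492585406948880423967303783981072825740869886551475580419000108888259371200631803454271780623933684601086334845051630456702916570576415257189131846190233598428591224440675068200220118752351066533186427614436933855633578))))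

noncomputable def t0 : Tre := Helper55.PC.toT t0n

theorem ok0 : chk K t0 base = true :=
  Helper55.PC.chkN_sound K t0n base (by decide +kernel)

theorem closed {p a b c J l q : ℤ} {D dl : ℝ} {Cl : ℤ → ℤ → ℤ → ℤ → ℝ → Prop}
    (W : World p a b c J (-1) l q D dl Cl) (g : G0 p a b c J D)
    {N X R : ℤ} {I : ℝ} (hk : KCl p l Cl N X R I) (kz : KF a b D (X + (-1 : ℤ) * I) (X + (-1 : ℤ) * I + R) I)
    {Nu Xu Ru : ℤ} {Iu : ℝ} (hu : KCl p l Cl Nu Xu Ru Iu)
    (hkf : ∀ kf ∈ (kfM (-1) [0,0,0,0,0,0,1,0,0,0,0,-1] [0,0,0,0,0,0,1,1,0,0,0,-1] true), KOk p l Cl (-1)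
      (xv [1, a, b, c, p, J, X, R, Xu, Ru] [D, I, Iu]) N kf)
    (h0 : 1 ≤ -(a : ℝ) + (b : ℝ) + (R : ℝ))
    (h1 : 0 < (J : ℝ) - Iu)
    (h2 : 0 < D - Iu)
    (h3 : 0 < Iu)
    (h4 : 1 ≤ -(a : ℝ) + (c : ℝ) + (Ru : ℝ))
    (h5 : 0 < -(c : ℝ) + (Xu : ℝ) + (Ru : ℝ) - Iu)
    (h6 : 0 < -(Xu : ℝ) + Iu)
    (h7 : 1 ≤ 1 - 2 * (a : ℝ) + (b : ℝ))
    (h8 : 0 < -(a : ℝ) + (X : ℝ) + (R : ℝ) + D - I)
    (h9 : 1 ≤ (c : ℝ))
    (h10 : 1 ≤ 1 + (a : ℝ) - (Ru : ℝ)) : False := by
  have g1 := g.a2
  have g2 := g.b2
  have g3 := g.pa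
  have g4 := g.pb
  have g5 := g.J1
  have g6 := g.JD
  have g7 := g.D2
  have g8 := g.ca
  have g9 := g.ca'
  have k1 := kz.I0
  have k2 := kz.ID
  have k3 := kz.z1
  have k4 := kz.z2
  have k5 := kz.s1
  have k6 := kz.s2
  push_cast at *
  refine (val_T W.toBase hk hu (kfM (-1) [0,0,0,0,0,0,1,0,0,0,0,-1] [0,0,0,0,0,0,1,1,0,0,0,-1] true)).sound W rfl (Nk := N)
    (fun kf _ _ => ⟨_, rfl⟩) hkf ?_ ok0
  · simp only [base, List.forall_mem_cons, List.not_mem_nil, false_imp_iff, implies_true,
      and_true, hld, xv, evg_cons, evg_nil, n0c, n1c, m1c, m2c, List.map_cons, List.map_nil, List.cons_append,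
      List.nil_append, if_true, if_false, Bool.false_eq_true]
    push_cast
    refine ⟨by linarith only [g1, g2, g3, g4, g5, g6, g7, g8, g9, k1, k2, k3, k4, k5, k6], by linarith only [h10], by linarith only [g1, g2, g3, g4, g5, g6, g7, g8, g9, k1, k2, k3, k4, k5, k6], by linarith only [g1, g2, g3, g4, g5, g6, g7, g8, g9, k1, k2, k3, k4, k5, k6], by linarith only [h9], by linarith only [h8], by linarith only [g1, g2, g3, g4, g5, g6, g7, g8, g9, k1, k2, k3, k4, k5, k6], by linarith only [h7], by linarith only [g1, g2, g3, g4, g5, g6, g7, g8, g9, k1, k2, k3, k4, k5, k6], by linarith only [g1, g2, g3, g4, g5, g6, g7, g8, g9, k1, k2, k3, k4, k5, k6], by linarith only [g1, g2, g3, g4, g5, g6, g7, g8, g9, k1, k2, k3, k4, k5, k6], by linarith only [h6], by linarith only [h5], by linarith only [g1, g2, g3, g4, g5, g6, g7, g8, g9, k1, k2, k3, k4, k5, k6], by linarith only [h4], by linarith only [h3], by linarith only [h2], by linarith only [g1, g2, g3, g4, g5, g6, g7, g8, g9, k1, k2, k3, k4, k5, k6], by linarith only [g1, g2, g3, g4,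 g5, g6, g7, g8, g9, k1, k2, k3, k4, k5, k6], by linarith only [h1], by linarith only [g1, g2, g3, g4, g5, g6, g7, g8, g9, k1, k2, k3, k4, k5, k6], by linarith only [h0], by linarith only [g1, g2, g3, g4, g5, g6, g7, g8, g9, k1, k2, k3, k4, k5, k6], by linarith only [g1, g2, g3, g4, g5, g6, g7, g8, g9, k1, k2, k3, k4, k5, k6]⟩

end Helper55.CD.T_1_m1_41

namespace Helper55.CD.TD_1_m1_10

open Helper25.KG Helper25.KW Helper55.KE Helper11.CT Helper55.TR.Nm

noncomputable def K : Cls :=
  cK (-1) []

noncomputable def base : List Con :=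
  [(false,[n0,n1,n0,n0,n0,n0,m1,m1,n0,n1]),
  (true,[n0,n1,n0,m1]),
  (true,[n0,n0,n0,n1]),
  (false,[n0,m1,n0,n1,n0,n0,n1,n1,n0,m1]),
  (true,[n1,n0,n0,m1,n0,n0,n0,n1]),
  (false,[n0,n0,n0,n0,n0,n0,n1,n0,n0,m1]),
  (true,[n1,m2,n1]),
  (true,[n0,m2,n0,n0,n1]),
  (false,[n0,n0,n0,n0,n0,m1,n0,n0,n1,m1]),
  (false,[n0,n0,n0,n0,n0,n0,n0,n0,n0,n1]),
  (true,[n0,n0,n0,n0,n0,n1]),
  (true,[n0,n0,m2,n0,n1]),
  (true,[m1,n0,n1]),
  (true,[m1,n1])]

open Helper55.PC in
noncomputable def t0n : Helper55.PC.Ten :=
  (r
  1017458256970196945490864610488351634931132157213778822891743673764332724101254818097055909644389431683513902564924962903139905940779518002120337291258769895371778923342688992984726011061492780393571984282704803241892818532317545245728906)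

noncomputable def t0 : Tre := Helper55.PC.toT t0n

theorem ok0 : chk K t0 base = true :=
  Helper55.PC.chkN_sound K t0n base (by decide +kernel)

theorem closed {p a b c J l q : ℤ} {D dl : ℝ} {Cl : ℤ → ℤ → ℤ → ℤ → ℝ → Prop}
    (W : World p a b c J (-1) l q D dl Cl) (g : G0 p a b c J D)
    {N X R : ℤ} {I : ℝ} (hk : KCl p l Cl N X R I)
    (hkf : ∀ kf ∈ [], KOk p l Cl (-1)
      (xv [1, a, b, c, p, J, X, R] [D, I]) N kf)
    (h0 : 0 < I)
    (h1 : 0 < -(J : ℝ) + D - I)
    (h2 : 1 ≤ 1 - 2 * (a : ℝ) + (b : ℝ))
    (h3 : 0 < (X : ℝ) - I)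
    (h4 : 1 ≤ 1 - (c : ℝ) + (R : ℝ))
    (h5 : 0 < -(a : ℝ) + (c : ℝ) + (X : ℝ) + (R : ℝ) - I)
    (h6 : 1 ≤ (c : ℝ))
    (h7 : 0 < (a : ℝ) - (X : ℝ) - (R : ℝ) + I) : False := by
  have g1 := g.a2
  have g2 := g.b2
  have g3 := g.pa
  have g4 := g.pb
  have g5 := g.J1
  have g6 := g.JD
  have g7 := g.D2
  have g8 := g.ca
  have g9 := g.ca'
  push_cast at *
  refine (val_K W.toBase hk []).sound W rfl (Nk := N)
    (fun kf _ _ => ⟨_, rfl⟩) hkf ?_ ok0
  · simp only [base, List.forall_mem_cons, List.not_mem_nil, false_imp_iff, implies_true,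
      and_true, hld, xv, evg_cons, evg_nil, n0c, n1c, m1c, m2c, List.map_cons, List.map_nil, List.cons_append,
      List.nil_append, if_true, if_false, Bool.false_eq_true]
    push_cast
    refine ⟨by linarith only [h7], by linarith only [g1, g2, g3, g4, g5, g6, g7, g8, g9], by linarith only [h6], by linarith only [h5], by linarith only [h4], by linarith only [h3], by linarith only [h2], by linarith only [g1, g2, g3, g4, g5, g6, g7, g8, g9], by linarith only [h1], by linarith only [h0], by linarith only [g1, g2, g3, g4, g5, g6, g7, g8, g9], by linarith only [g1, g2, g3, g4, g5, g6, g7, g8, g9], by linarith only [g1, g2, g3, g4, g5, g6, g7, g8, g9], by linarith only [g1, g2, g3, g4, g5, g6, g7, g8, g9]⟩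

end Helper55.CD.TD_1_m1_10

namespace Helper55.CD.TD_1_m1_30

open Helper25.KG Helper25.KW Helper55.KE Helper11.CT Helper55.TR.Nm

noncomputable def K : Cls :=
  cK (-1) []

noncomputable def base : List Con :=
  [(true,[n0,n0,n0,n1]),
  (false,[n0,n1,n0,n0,n0,n0,n1,n1,n1,m1]),
  (true,[n0,m2,n0,n0,n1]),
  (true,[n1,n0,n0,m1,n0,n0,n0,m1]),
  (false,[n0,n0,n0,n0,n0,n0,m1,n0,m1,n1]),
  (true,[n1,m2,n1]),
  (true,[m1,n1]),
  (false,[n0,n0,n0,n0,n0,n0,n0,n0,n1,m1]),
  (true,[n0,n0,m2,n0,n1]),
  (true,[n0,n1,n0,m1]),
  (false,[n0,n0,n0,n0,n0,n0,n0,n0,n0,n1]),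
  (true,[m1,n0,n1]),
  (false,[n0,n0,n0,n0,n1,n0,n0,n0,m2]),
  (false,[n0,m1,n0,n1,n0,n0,m1,m1,n0,n1]),
  (false,[n0,n0,n0,n0,n0,m1,n0,n0,n1]),
  (true,[n0,n0,n0,n0,n0,n1])]

open Helper55.PC in
noncomputable def t0n : Helper55.PC.Ten :=
  (q 50088671517806384775055369861052563752990408714 (q
  28270200088338297780885282492600479743364207333854294223657434016188071946 (r
  66544506036781314977061523360581513560884378550432067799208938247808020042416493362976180533933260199392746186421532852904083439917570373686446998695026946417026846452788156531060989798968248656344205771957501058891898656238338948732418325419403707763718183987955314445381798674916682678748142337235725043293269362804682993539556041160144507987634914824002867197407778287772660690664545780910179355715240835846533693270909180923700598017799428239254248602619676019598809852545350160845985534833140789131479414266414206497897017269952)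
  (q 462799726309366740688960961091136921358129869820741406936662026 (r
  186514501631477319445839791905683746101316046810103902310079014723115822057960989061930266969647163836276415082425393990461211461479010378261066094486675274769202268072914867145548443759317332947508274067899066673852835271940162280771027603131560839268831739864978640550530496854415548891117456839780479152929590296496924417176191445575278923700226447789911246530923505732937337065741130553248353731627820858320090698338894623147809319234251532575615160949273235281658929632382780905906338)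
  (r
  610512214805847150414602881074408113710753641190625381604129339847046458128589488371623711635289414540956598584591468462932337247605849730020825061551008065328481932170650839421995520507369802231724748548860595269145504507500845338484906)))
  (q 411377708869133809045588660724370545778195793025649237422899210 (s
  5226531955336470872107766678121382775082436705385734541830895915211499065162409784581010665376973531102902074711546673505249456108589038598299349240586829184786181743232072461889832250811300515925765132016568709934911057237602755510518941352379396575140179513866194908248279842119194180305183264324688244212389682439052299522404552087137136678282867854403603940169751606747132322279045281832054090385825028183128275033843134019895789347996172801)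
  (r
  610509109769662548996732583115110135488995887682067064586306190241987390530047647599144261111945480882643015359222035637846846749876993570174475218888509369852103778530862690645112738978665837904849564225340694148961899135227418797433002)))

noncomputable def t0 : Tre := Helper55.PC.toT t0n

theorem ok0 : chk K t0 base = true :=
  Helper55.PC.chkN_sound K t0n base (by decide +kernel)

theorem closed {p a b c J l q : ℤ} {D dl : ℝ} {Cl : ℤ → ℤ → ℤ → ℤ → ℝ → Prop}
    (W : World p a b c J (-1) l q D dl Cl) (g : G0 p a b c J D)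
    {N X R : ℤ} {I : ℝ} (hk : KCl p l Cl N X R I)
    (hkf : ∀ kf ∈ [], KOk p l Cl (-1)
      (xv [1, a, b, c, p, J, X, R] [D, I]) N kf)
    (h0 : 0 < -(a : ℝ) + (c : ℝ) - (X : ℝ) - (R : ℝ) + I)
    (h1 : 0 < I)
    (h2 : 0 < D - I)
    (h3 : 1 ≤ 1 - 2 * (a : ℝ) + (b : ℝ))
    (h4 : 0 < -(X : ℝ) - D + I)
    (h5 : 1 ≤ 1 - (c : ℝ) - (R : ℝ))
    (h6 : 0 < (a : ℝ) + (X : ℝ) + (R : ℝ) + D - I)
    (h7 : 1 ≤ (c : ℝ)) : False := by
  have g1 := g.a2
  have g2 := g.b2
  have g3 := g.pa
  have g4 := g.pb
  have g5 := g.J1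
  have g6 := g.JD
  have g7 := g.D2
  have g8 := g.ca
  have g9 := g.ca'
  push_cast at *
  refine (val_K W.toBase hk []).sound W rfl (Nk := N)
    (fun kf _ _ => ⟨_, rfl⟩) hkf ?_ ok0
  · simp only [base, List.forall_mem_cons, List.not_mem_nil, false_imp_iff, implies_true,
      and_true, hld, xv, evg_cons, evg_nil, n0c, n1c, m1c, m2c, List.map_cons, List.map_nil, List.cons_append,
      List.nil_append, if_true, if_false, Bool.false_eq_true]
    push_cast
    refine ⟨by linarith only [h7], by linarith only [h6], by linarith only [g1, g2, g3, g4, g5, g6, g7, g8, g9], by linarith only [h5], by linarith only [h4], by linarith only [h3], by linarith only [g1, g2, g3, g4, g5, g6, g7, g8, g9], by linarith only [h2], by linarith only [g1, g2, g3, g4, g5, g6, g7, g8, g9], by linarith only [g1, g2, g3, g4, g5, g6, g7, g8, g9], by linarith only [h1], by linarith only [g1, g2, g3, g4, g5, g6, g7, g8, g9], by linarith only [g1, g2, g3, g4, g5, g6, g7, g8, g9], by linarith only [h0], by linarith only [g1, g2, g3, g4, g5, g6, g7, g8, g9],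 by linarith only [g1, g2, g3, g4, g5, g6, g7, g8, g9]⟩

end Helper55.CD.TD_1_m1_30

namespace Helper55.CD.TD_1_m1_42

open Helper25.KG Helper25.KW Helper55.KE Helper11.CT Helper55.TR.Nm

noncomputable def K : Cls :=
  cK (-1) []

noncomputable def base : List Con :=
  [(true,[n0,n0,n0,n1]),
  (false,[n0,n0,n0,n0,n0,n0,m1,n0,n0,n1]),
  (true,[n1,m2,n1]),
  (true,[n0,n1,n0,m1]),
  (true,[n0,n0,m2,n0,n1]),
  (false,[n0,n0,n0,n0,n1,n0,n0,n0,m2]),
  (false,[n0,n0,n0,m1,n0,n0,n1,n1,n0,m1]),
  (false,[n0,n0,n0,n0,n0,n0,n0,n0,n0,n1]),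
  (true,[n0,m2,n0,n0,n1]),
  (false,[n0,n0,n0,n0,n0,n0,n1,n0,n1,m1]),
  (true,[n1,n1,n0,n0,n0,n0,n0,m1]),
  (false,[n0,n0,n0,n0,n0,n0,n0,n0,n1,m1]),
  (true,[m1,n1]),
  (false,[n0,n0,n0,n0,n0,m1,n0,n0,n1]),
  (true,[m1,n0,n1]),
  (true,[n1,n1,n0,m1,n0,n0,n0,m1]),
  (false,[n0,n0,n0,n0,n0,n1,n0,n0,n0,m1]),
  (true,[n0,n0,n0,n0,n0,n1])]

open Helper55.PC in
noncomputable def t0n : Helper55.PC.Ten :=
  (q 431377247274762947634570556254046249390546089847439103072917996568586 (r
  3628461246714045172021376018874962834747573380149806145817807022232422234329119988288042008053089330513662872221971593837148049813641186420926387708754356496555251437091909535193871160903450945627012306342425452910368360329181828764229946541495051637408850061834503178955453420009931297525042813182246976259630644976833096912718705518280896687432265228596583673137762314629247534060223517760243778813641894097579297957265285312)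
  (r
  3530838844580709500531009959519903663803767687289413764166555011288787824559583301666147485344557682190022159024134076968204623796981368794544863186377213782512982254846039132391377446586107153531038014851763368935706591788070313910317632407885931126647242700113623596171465585795873845812324614288439824817022482048783685848345740838113892084353081108480470222989985153490650605398745647481123689366627763933016499464320646230253042321628388195700904206033088))

noncomputable def t0 : Tre := Helper55.PC.toT t0n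

theorem ok0 : chk K t0 base = true :=
  Helper55.PC.chkN_sound K t0n base (by decide +kernel)

theorem closed {p a b c J l q : ℤ} {D dl : ℝ} {Cl : ℤ → ℤ → ℤ → ℤ → ℝ → Prop}
    (W : World p a b c J (-1) l q D dl Cl) (g : G0 p a b c J D)
    {N X R : ℤ} {I : ℝ} (hk : KCl p l Cl N X R I)
    (hkf : ∀ kf ∈ [], KOk p l Cl (-1)
      (xv [1, a, b, c, p, J, X, R] [D, I]) N kf)
    (h0 : 0 < (J : ℝ) - I)
    (h1 : 1 ≤ 1 + (a : ℝ) - (c : ℝ) - (R : ℝ))
    (h2 : 0 < D - I)
    (h3 : 1 ≤ 1 + (a : ℝ) - (R : ℝ))
    (h4 : 0 < (X : ℝ) + D - I)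
    (h5 : 0 < I)
    (h6 : 0 < -(c : ℝ) + (X : ℝ) + (R : ℝ) - I)
    (h7 : 1 ≤ 1 - 2 * (a : ℝ) + (b : ℝ))
    (h8 : 0 < -(X : ℝ) + I)
    (h9 : 1 ≤ (c : ℝ)) : False := by
  have g1 := g.a2
  have g2 := g.b2
  have g3 := g.pa
  have g4 := g.pb
  have g5 := g.J1
  have g6 := g.JD
  have g7 := g.D2
  have g8 := g.ca
  have g9 := g.ca'
  push_cast at *
  refine (val_K W.toBase hk []).sound W rfl (Nk := N)
    (fun kf _ _ => ⟨_, rfl⟩) hkf ?_ ok0
  · simp only [base, List.forall_mem_cons, List.not_mem_nil, false_imp_iff, implies_true,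
      and_true, hld, xv, evg_cons, evg_nil, n0c, n1c, m1c, m2c, List.map_cons, List.map_nil, List.cons_append,
      List.nil_append, if_true, if_false, Bool.false_eq_true]
    push_cast
    refine ⟨by linarith only [h9], by linarith only [h8], by linarith only [h7], by linarith only [g1, g2, g3, g4, g5, g6, g7, g8, g9], by linarith only [g1, g2, g3, g4, g5, g6, g7, g8, g9], by linarith only [g1, g2, g3, g4, g5, g6, g7, g8, g9], by linarith only [h6], by linarith only [h5], by linarith only [g1, g2, g3, g4, g5, g6, g7, g8, g9], by linarith only [h4], by linarith only [h3], by linarith only [h2], by linarith only [g1, g2, g3, g4, g5, g6, g7, g8, g9], by linarith only [g1, g2, g3, g4, g5, g6, g7, g8, g9], by linarith only [g1, g2, g3, g4, g5, g6, g7, g8, g9], by linarith only [h1], by linarith only [h0], by linarith only [g1, g2, g3, g4, g5, g6, g7, g8, g9]⟩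

end Helper55.CD.TD_1_m1_42

namespace Helper55.CD

open Helper25.KG Helper25.KW Helper55.KE Helper11.CT

theorem a_V_1_m1 {p a b c J l q : ℤ} {D dl : ℝ} {Cl : ℤ → ℤ → ℤ → ℤ → ℝ → Prop}
    (W : World p a b c J (-1) l q D dl Cl) (hc : -a < c) (hb2 : 2 * a ≤ b) (hA : Aux p a b (-1) D Cl)
    {N X R : ℤ} {I : ℝ} (hK : KGF p a b (-1) D (P1 l p) Cl N X R I)
    (hM : KMin p a b (-1) (P1 l p) Cl N (b + (-1 : ℤ) * (X + (-1 : ℤ) * I)))
    (h0 : 1 ≤ (c : ℝ))
    (h1 : 1 ≤ 1 - 2 * (a : ℝ) + (b : ℝ))
    (h2 : 0 < -(b : ℝ) + (X : ℝ) + D - I)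
    (h3 : 1 ≤ (a : ℝ) - (b : ℝ) - (R : ℝ)) : False := by
  have kz := KF.of hK
  obtain ⟨Ne, Xe, Ie, he⟩ := hA.ecl 1 (by
    intro h
    have h2 := W.ha
    have h3 := W.h2a
    have h1 := Int.le_of_dvd (by omega) h
    omega)
  exact Helper55.CB.V_1_m1.closed W (G0.of W.toBase hc) (KCl.of hK) kz  he
    (kok_M (R := R) hM rfl (by simp [xv] <;> ring) (by simp [xv] <;> ring) (by simp [xv] <;> ring) (by simp [xv] <;> ring) (by simp [xv] <;> ring) (by simp [xv] <;> ring))
    h0 h1 h2 h3

theorem a_C_1_m1 {p a b c J l q : ℤ} {D dl : ℝ} {Cl : ℤ → ℤ → ℤ → ℤ → ℝ → Prop}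
    (W : World p a b c J (-1) l q D dl Cl) (hc : -a < c) (hb2 : 2 * a ≤ b) (hA : Aux p a b (-1) D Cl)
    {N X R : ℤ} {I : ℝ} (hK : KGF p a b (-1) D (P1 l p) Cl N X R I)
    (hM : KMin p a b (-1) (P1 l p) Cl N (b + (-1 : ℤ) * (X + (-1 : ℤ) * I)))
    (h0 : 1 ≤ (c : ℝ))
    (h1 : 1 ≤ 1 - 2 * (a : ℝ) + (b : ℝ))
    (h2 : 0 < -(b : ℝ) + (X : ℝ) + D - I)
    (h3 : 1 ≤ 1 + (a : ℝ) - (b : ℝ) - (R : ℝ))
    (h4 : 1 ≤ 1 - (a : ℝ) + (b : ℝ) + (R : ℝ)) : False := by
  have kz := KF.of hK
  obtain ⟨Ne, Xe, Ie, he⟩ := hA.ecl 1 (by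
    intro h
    have h2 := W.ha
    have h3 := W.h2a
    have h1 := Int.le_of_dvd (by omega) h
    omega)
  exact Helper55.CB.C_1_m1.closed W (G0.of W.toBase hc) (KCl.of hK) kz  he
    (kok_M (R := R) hM rfl (by simp [xv] <;> ring) (by simp [xv] <;> ring) (by simp [xv] <;> ring) (by simp [xv] <;> ring) (by simp [xv] <;> ring) (by simp [xv] <;> ring))
    h0 h1 h2 h3 h4

theorem a_T_1_m1_41 {p a b c J l q : ℤ} {D dl : ℝ} {Cl : ℤ → ℤ → ℤ → ℤ → ℝ → Prop}
    (W : World p a b c J (-1) l q D dl Cl) (hc : -a < c) (hb2 : 2 * a ≤ b) (hA : Aux p a b (-1) D Cl)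
    {N X R : ℤ} {I : ℝ} (hK : KGF p a b (-1) D (P1 l p) Cl N X R I)
    (hM : KMin p a b (-1) (P1 l p) Cl N (a + (-1 : ℤ) * (X + (-1 : ℤ) * I + R)))
    {Nu Xu Ru : ℤ} {Iu : ℝ} (hT : KCl p l Cl Nu Xu Ru Iu)
    (h0 : 1 ≤ (c : ℝ))
    (h1 : 1 ≤ 1 - 2 * (a : ℝ) + (b : ℝ))
    (h2 : 0 < Iu)
    (h3 : 0 < D - Iu)
    (h4 : 0 < (J : ℝ) - Iu)
    (h5 : 0 < -(Xu : ℝ) + Iu)
    (h6 : 1 ≤ 1 + (a : ℝ) - (Ru : ℝ))
    (h7 : 0 < -(c : ℝ) + (Xu : ℝ) + (Ru : ℝ) - Iu)
    (h8 : 1 ≤ -(a : ℝ) + (c : ℝ) + (Ru : ℝ))
    (h9 : 0 < -(a : ℝ) + (X : ℝ) + (R : ℝ) + D - I)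
    (h10 : 1 ≤ -(a : ℝ) + (b : ℝ) + (R : ℝ)) : False := by
  have kz := KF.of hK
  exact Helper55.CD.T_1_m1_41.closed W (G0.of W.toBase hc) (KCl.of hK) kz hT
    (kok_M (R := R) hM rfl (by simp [xv] <;> ring) (by simp [xv] <;> ring) (by simp [xv] <;> ring) (by simp [xv] <;> ring) (by simp [xv] <;> ring) (by simp [xv] <;> ring))
    h10 h4 h3 h2 h8 h7 h5 h1 h9 h0 h6

theorem a_TD_1_m1_10 {p a b c J l q : ℤ} {D dl : ℝ} {Cl : ℤ → ℤ → ℤ → ℤ → ℝ → Prop}
    (W : World p a b c J (-1) l q D dl Cl) (hc : -a < c) (hb2 : 2 * a ≤ b) (hA : Aux p a b (-1) D Cl)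
    {N X R : ℤ} {I : ℝ} (hk : KCl p l Cl N X R I)
    (h0 : 1 ≤ (c : ℝ))
    (h1 : 1 ≤ 1 - 2 * (a : ℝ) + (b : ℝ))
    (h2 : 0 < I)
    (h3 : 0 < D - I)
    (h4 : 0 < -(J : ℝ) + D - I)
    (h5 : 0 < (X : ℝ) - I)
    (h6 : 1 ≤ 1 - (c : ℝ) + (R : ℝ))
    (h7 : 0 < -(a : ℝ) + (c : ℝ) + (X : ℝ) + (R : ℝ) - I)
    (h8 : 0 < (a : ℝ) - (X : ℝ) - (R : ℝ) + I) : False := by
  exact Helper55.CD.TD_1_m1_10.closed W (G0.of W.toBase hc) hk (kok_nil N) h2 h4 h1 h5 h6 h7 h0 h8

theorem a_TD_1_m1_30 {p a b c J l q : ℤ} {D dl : ℝ} {Cl : ℤ → ℤ → ℤ → ℤ → ℝ → Prop}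
    (W : World p a b c J (-1) l q D dl Cl) (hc : -a < c) (hb2 : 2 * a ≤ b) (hA : Aux p a b (-1) D Cl)
    {N X R : ℤ} {I : ℝ} (hk : KCl p l Cl N X R I)
    (h0 : 1 ≤ (c : ℝ))
    (h1 : 1 ≤ 1 - 2 * (a : ℝ) + (b : ℝ))
    (h2 : 0 < I)
    (h3 : 0 < D - I)
    (h4 : 0 < (J : ℝ) - I)
    (h5 : 0 < -(X : ℝ) - D + I)
    (h6 : 1 ≤ 1 - (c : ℝ) - (R : ℝ))
    (h7 : 0 < -(a : ℝ) + (c : ℝ) - (X : ℝ) - (R : ℝ) + I)
    (h8 : 0 < (a : ℝ) + (X : ℝ) + (R : ℝ) + D - I) : False := by
  exact Helper55.CD.TD_1_m1_30.closed W (G0.of W.toBase hc) hk (kok_nil N) h7 h2 h3 h1 h5 h6 h8 h0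

theorem a_TD_1_m1_42 {p a b c J l q : ℤ} {D dl : ℝ} {Cl : ℤ → ℤ → ℤ → ℤ → ℝ → Prop}
    (W : World p a b c J (-1) l q D dl Cl) (hc : -a < c) (hb2 : 2 * a ≤ b) (hA : Aux p a b (-1) D Cl)
    {N X R : ℤ} {I : ℝ} (hk : KCl p l Cl N X R I)
    (h0 : 1 ≤ (c : ℝ))
    (h1 : 1 ≤ 1 - 2 * (a : ℝ) + (b : ℝ))
    (h2 : 0 < I)
    (h3 : 0 < D - I)
    (h4 : 0 < (J : ℝ) - I)
    (h5 : 0 < -(X : ℝ) + I)
    (h6 : 1 ≤ 1 + (a : ℝ) - (R : ℝ))
    (h7 : 0 < -(c : ℝ) + (X : ℝ) + (R : ℝ) - I)
    (h8 : 1 ≤ 1 + (a : ℝ) - (c : ℝ) - (R : ℝ))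
    (h9 : 0 < (X : ℝ) + D - I) : False := by
  exact Helper55.CD.TD_1_m1_42.closed W (G0.of W.toBase hc) hk (kok_nil N) h4 h8 h3 h6 h9 h2 h7 h1 h5 h0

end Helper55.CD

namespace Helper55.CD

open Helper25.KG Helper25.KW Helper55.KE Helper11.CT

theorem a_D_1_m1 {p a b c J l q : ℤ} {D dl : ℝ} {Cl : ℤ → ℤ → ℤ → ℤ → ℝ → Prop}
    (W : World p a b c J (-1) l q D dl Cl) (hc : -a < c) (hb2 : 2 * a ≤ b) (hA : Aux p a b (-1) D Cl)
    {N X R : ℤ} {I : ℝ} (hK : KGF p a b (-1) D (P1 l p) Cl N X R I)
    (hM : KMin p a b (-1) (P1 l p) Cl N (a + (-1 : ℤ) * (X + (-1 : ℤ) * I + R)))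
    {Nu Xu Ru : ℤ} {Iu : ℝ} (hT : KCl p l Cl Nu Xu Ru Iu)
    (t0 : 0 < Iu)
    (t1 : 0 < D - Iu)
    (t2 : 0 < -(J : ℝ) + D - Iu)
    (t3 : 0 < (Xu : ℝ) - Iu)
    (t4 : 1 ≤ 1 + (a : ℝ) + (Ru : ℝ))
    (t5 : 1 ≤ -(a : ℝ) + (c : ℝ) - (Ru : ℝ))
    (t6 : 0 < -(c : ℝ) - (Xu : ℝ) - (Ru : ℝ) + Iu)
    (h0 : 1 ≤ (c : ℝ))
    (h1 : 1 ≤ 1 - 2 * (a : ℝ) + (b : ℝ))
    (h2 : 0 < -(a : ℝ) + (X : ℝ) + (R : ℝ) + D - I)
    (h3 : 1 ≤ -(a : ℝ) + (b : ℝ) + (R : ℝ)) : False := by
  have kz := KF.of hK
  refine Helper55.CD.D1_m1.closed W (G0.of W.toBase hc) (KCl.of hK) kz 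
    (kok_M (R := R) hM rfl (by simp [xv] <;> ring) (by simp [xv] <;> ring) (by simp [xv] <;> ring) (by simp [xv] <;> ring) (by simp [xv] <;> ring) (by simp [xv] <;> ring))
    h3 h2 h1 h0 ?_ ?_ ?_ ?_ ?_ ?_ ?_ ?_ ?_ ?_ ?_ ?_ ?_ ?_ ?_ ?_ ?_ ?_ ?_ ?_ ?_
  · intro q0 q1 q2 q3 q4 q5 q6 q7 q8 q9 q10 q11 q12 q13 q14 q15
    exact l_D1_m1_c0u W hc hb2 hA hK hM h0 h1 h2 h3 q0 q1 q2 q3 q4 q5 q6 q7 q8 q9 q10 q11 q12 q13 q14 q15
  · intro q0 q1 q2 q3 q4 q5
    exact l_D1_m1_c1u W hc hb2 hA hK hM h0 h1 h2 h3 q0 q1 q2 q3 q4 q5
  · intro q0 q1 q2 q3 q4 q5 q6 q7 q8 q9 q10 q11 q12 q13 q14 q15 q16 q17 q18 q19 q20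
    exact l_D1_m1_c2u W hc hb2 hA hK hM h0 h1 h2 h3 q0 q1 q2 q3 q4 q5 q6 q7 q8 q9 q10 q11 q12 q13 q14 q15 q16 q17 q18 q19 q20
  · intro q0 q1 q2 q3 q4 q5 q6 q7 q8 q9 q10 q11 q12 q13 q14 q15 q16 q17 q18 q19 q20
    exact l_D1_m1_c3u W hc hb2 hA hK hM h0 h1 h2 h3 q0 q1 q2 q3 q4 q5 q6 q7 q8 q9 q10 q11 q12 q13 q14 q15 q16 q17 q18 q19 q20
  · intro q0 q1 q2 q3 q4 q5 q6 q7 q8 q9 q10 q11 q12 q13 q14 q15 q16 q17 q18 q19 q20
    exact l_D1_m1_c4u W hc hb2 hA hK hM h0 h1 h2 h3 q0 q1 q2 q3 q4 q5 q6 q7 q8 q9 q10 q11 q12 q13 q14 q15 q16 q17 q18 q19 q20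
  · intro q0 q1 q2 q3 q4 q5 q6 q7 q8 q9 q10 q11 q12 q13 q14 q15 q16 q17 q18
    exact l_D1_m1_c5u W hc hb2 hA hK hM h0 h1 h2 h3 q0 q1 q2 q3 q4 q5 q6 q7 q8 q9 q10 q11 q12 q13 q14 q15 q16 q17 q18
  · intro q0 q1 q2 q3 q4 q5 q6 q7 q8 q9 q10 q11 q12 q13 q14 q15 q16 q17
    exact l_D1_m1_c6u W hc hb2 hA hK hM h0 h1 h2 h3 q0 q1 q2 q3 q4 q5 q6 q7 q8 q9 q10 q11 q12 q13 q14 q15 q16 q17
  · intro q0 q1 q2 q3 q4 q5 q6 q7 q8 q9 q10 q11 q12 q13 q14 q15 q16 q17 q18 q19 q20 q21
    exact l_D1_m1_c7u W hc hb2 hA hK hM hT t0 t1 t2 t3 t4 t5 t6 h0 h1 h2 h3 q0 q1 q2 q3 q4 q5 q6 q7 q8 q9 q10 q11 q12 q13 q14 q15 q16 q17 q18 q19 q20 q21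
  · intro q0 q1 q2 q3 q4 q5 q6 q7 q8 q9 q10 q11 q12 q13 q14 q15 q16 q17 q18 q19 q20
    exact l_D1_m1_c8u W hc hb2 hA hK hM h0 h1 h2 h3 q0 q1 q2 q3 q4 q5 q6 q7 q8 q9 q10 q11 q12 q13 q14 q15 q16 q17 q18 q19 q20
  · intro q0 q1 q2 q3 q4 q5 q6 q7 q8 q9 q10 q11 q12 q13 q14 q15 q16 q17 q18 q19 q20
    exact l_D1_m1_c9u W hc hb2 hA hK hM h0 h1 h2 h3 q0 q1 q2 q3 q4 q5 q6 q7 q8 q9 q10 q11 q12 q13 q14 q15 q16 q17 q18 q19 q20
  · intro q0 q1 q2 q3 q4 q5 q6 q7 q8 q9 q10 q11 q12 q13 q14 q15 q16 q17 q18
    exact l_D1_m1_c10u W hc hb2 hA hK hM h0 h1 h2 h3 q0 q1 q2 q3 q4 q5 q6 q7 q8 q9 q10 q11 q12 q13 q14 q15 q16 q17 q18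
  · intro q0 q1 q2 q3 q4 q5 q6 q7 q8
    exact l_D1_m1_c11u W hc hb2 hA hK hM hT t0 t1 t2 t3 t4 t5 t6 h0 h1 h2 h3 q0 q1 q2 q3 q4 q5 q6 q7 q8
  · intro q0 q1 q2 q3 q4 q5 q6 q7 q8 q9
    exact l_D1_m1_c12u W hc hb2 hA hK hM hT t0 t1 t2 t3 t4 t5 t6 h0 h1 h2 h3 q0 q1 q2 q3 q4 q5 q6 q7 q8 q9
  · intro q0 q1 q2 q3 q4 q5 q6 q7 q8 q9 q10
    exact l_D1_m1_c13u W hc hb2 hA hK hM h0 h1 h2 h3 q0 q1 q2 q3 q4 q5 q6 q7 q8 q9 q10
  · intro q0 q1 q2 q3 q4 q5 q6 q7 q8
    exact cell_1_m1_14 W hc hb2 hA hK hM hT t0 t1 t2 t3 t4 t5 t6 h0 h1 h2 h3 q0 q1 q2 q3 q4 q5 q6 q7 q8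
  · intro q0 q1 q2 q3 q4 q5 q6 q7 q8
    exact cell_1_m1_15 W hc hb2 hA hK hM hT t0 t1 t2 t3 t4 t5 t6 h0 h1 h2 h3 q0 q1 q2 q3 q4 q5 q6 q7 q8
  · intro q0 q1 q2 q3 q4 q5
    exact l_D1_m1_c16u W hc hb2 hA hK hM hT t0 t1 t2 t3 t4 t5 t6 h0 h1 h2 h3 q0 q1 q2 q3 q4 q5
  · intro q0 q1 q2 q3 q4 q5 q6 q7 q8 q9 q10 q11 q12
    exact cell_1_m1_17 W hc hb2 hA hK hM hT t0 t1 t2 t3 t4 t5 t6 h0 h1 h2 h3 q0 q1 q2 q3 q4 q5 q6 q7 q8 q9 q10 q11 q12
  · intro q0 q1 q2 q3 q4 q5 q6 q7 q8 q9 q10
    exact cell_1_m1_18 W hc hb2 hA hK hM hT t0 t1 t2 t3 t4 t5 t6 h0 h1 h2 h3 q0 q1 q2 q3 q4 q5 q6 q7 q8 q9 q10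
  · intro q0 q1 q2 q3 q4 q5 q6 q7 q8 q9 q10 q11
    exact cell_1_m1_19 W hc hb2 hA hK hM hT t0 t1 t2 t3 t4 t5 t6 h0 h1 h2 h3 q0 q1 q2 q3 q4 q5 q6 q7 q8 q9 q10 q11
  · intro q0 q1 q2 q3 q4 q5 q6 q7 q8 q9
    exact cell_1_m1_20 W hc hb2 hA hK hM hT t0 t1 t2 t3 t4 t5 t6 h0 h1 h2 h3 q0 q1 q2 q3 q4 q5 q6 q7 q8 q9

end Helper55.CD

/-!
# The class `2 a ≤ b`, `c > 0`, `ds = -1`
-/

namespace Helper55.CD

open Helper25.KG Helper25.KW Helper55.KE Helper11.CT

theorem cb_1_m1 : CB 1 (-1) := by
  intro p a b c J l q D dl Cl W hc h0 h1 hC _ hA _ _ _ hF _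
  obtain ⟨N, X, R, I, m, hK, hM, hm, hcas⟩ := hC
  have c1 : (1 : ℝ) ≤ c := by exact_mod_cast (by omega : 1 ≤ c)
  have b1 : 1 ≤ 1 - 2 * (a : ℝ) + b := by exact_mod_cast (by omega : 1 ≤ 1 - 2 * a + b)
  rcases hcas with ⟨g, rfl⟩ | ⟨g, rfl⟩ | ⟨g, rfl⟩
  · refine a_V_1_m1 W hc h1 hA hK hM c1 b1 ?_ ?_
    · push_cast at hm
      linarith
    · exact_mod_cast (by omega : 1 ≤ a - b - R)
  · obtain ⟨Nu, Xu, Ru, Iu, hu, i0, iD, h⟩ := Helper55.TR.el_1_m1 W hF h1 (by omega)
    have r1 : 1 ≤ -(a : ℝ) + b + R := by exact_mod_cast (by omega : 1 ≤ -a + b + R)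
    have hm' : 0 < -(a : ℝ) + X + R + D - I := by
      push_cast at hm
      linarith
    rcases h with ⟨g1, g2, g3, g4, g5⟩ | ⟨g1, g2, g3, g4, g5⟩ | ⟨g1, g2, g3, g4, g5⟩ |
      ⟨g1, g2, g3, g4, g5⟩ | ⟨g1, g2, g3, g4, g5, g6⟩
    · refine a_TD_1_m1_10 W hc h1 hA hu c1 b1 i0 ?_ ?_ ?_ ?_ ?_ ?_ <;> linarith
    · refine a_D_1_m1 W hc h1 hA hK hM hu i0 ?_ ?_ ?_ ?_ ?_ ?_ c1 b1 hm' r1 <;> linarith
    · refine a_TD_1_m1_30 W hc h1 hA hu c1 b1 i0 ?_ ?_ ?_ ?_ ?_ ?_ <;> linarith
    · refine a_T_1_m1_41 W hc h1 hA hK hM hu c1 b1 i0 ?_ ?_ ?_ ?_ ?_ ?_ hm' r1 <;> linarith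
    · refine a_TD_1_m1_42 W hc h1 hA hu c1 b1 i0 ?_ ?_ ?_ ?_ ?_ ?_ ?_ <;> linarith
  · refine a_C_1_m1 W hc h1 hA hK hM c1 b1 ?_ ?_ ?_
    · push_cast at hm
      linarith
    · exact_mod_cast (by omega : 1 ≤ 1 + a - b - R)
    · exact_mod_cast (by omega : 1 ≤ 1 - a + b + R)

end Helper55.CD
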