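import Pool.Agent.Helper55.CE.H_1_m1_c19u_31_b0
import Pool.Agent.Helper55.TR.Num
import Pool.Agent.Helper81.PC.Sound
import Pool.Agent.Helper55.TR.Enc2

set_option autoImplicit false
set_option linter.all false

namespace Helper55.CD.D1_m1_c19u_31

open Helper25.KG Helper25.KW Helper55.KE Helper11.CT Helper55.TR.Nm

noncomputable def K : Cls :=
  Helper55.TR.KT (-1)

noncomputable def base : List Con :=
  [(true,[n0,m2,n0,n0,n1]),
  (true,[n1,n1,n0,n0,n0,n0,n0,n0,n0,n1]),
  (true,[n0,n0,n2,n2,m1,n0,n0,m2]),
  (true,[m1,n1]),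
  (false,[n0,n0,m2,n0,n1,n0,m1,n0,n0,n0,n0,n1]),
  (false,[n0,n0,n0,n0,n1,n0,n0,n0,n0,n0,m2]),
  (false,[n0,n0,n1,n0,n0,n0,m1,n0,n0,n0,n0,n1]),
  (false,[n0,n0,n0,n0,n0,n0,n0,n0,n0,n0,n1,n0,m1]),
  (false,[n0,n0,n0,n0,n0,n0,n0,n0,n1,n0,n0,n0,m1]),
  (true,[n1,n0,m2,m2,n1]),
  (false,[n0,n1,n0,n0,n0,n0,n1,n1,n0,n0,n0,m1]),
  (false,[n0,n0,n0,n0,n0,n0,n0,n0,n0,n0,n0,n0,n1]),
  (false,[n0,m1,n0,n1,n0,n0,n1,n1,n0,n0,n0,m1]),
  (false,[n0,n0,n0,n0,n0,n0,n0,n0,n0,n0,n0,n1]),
  (false,[n0,n0,n0,m1,n0,n0,n0,n0,m1,m1,n0,n0,n1]),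
  (false,[n0,n1,n0,n0,n0,n0,m1,m1,n0,n0,n0,n1]),
  (true,[n0,m1,n1,n0,n0,n0,n0,n1]),
  (false,[n0,n0,n0,n0,n0,n0,n1,n0,n0,n0,n1,m1]),
  (true,[n0,n0,n0,n1]),
  (true,[n0,m1,n0,n1,n0,n0,n0,n0,n0,m1]),
  (false,[n0,n0,n1,n0,n0,n0,n1,n0,n0,n0,n0,m1]),
  (true,[n0,n1,n0,m1]),
  (false,[n0,n0,n0,n0,n0,n2,n0,n0,n0,n0,n0,m1]),
  (true,[n0,n0,m2,n0,n1]),
  (true,[n0,n0,m2,m2,n1,n0,n0,n1]),
  (false,[n0,m1,n0,n0,n0,n0,n1,n1,n0,n0,n1,m1]),
  (false,[n0,n0,n0,n0,n0,n0,n0,n0,n0,n0,n1,m1]),
  (true,[n0,n0,n0,n0,n0,n1]),
  (true,[n1,m1,n0,m1,n0,n0,n0,m1]),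
  (false,[n0,n0,n0,n0,n0,n0,n1,n1,n0,n0,n0,m1]),
  (false,[n0,n0,n0,m1,n0,n0,n1,n1,n0,n0,n0,m1]),
  (false,[n0,n0,n0,n0,n0,m1,n0,n0,n0,n0,n1,n0,m1]),
  (true,[n1,m2,n1]),
  (false,[n0,n0,n0,n0,n0,m1,n0,n0,n0,n0,n1]),
  (false,[n0,n0,n1,n0,n0,n0,m1,n0,n0,n0,m1,n1]),
  (false,[n0,n1,n1,m1,n0,n0,m1,n0,n0,n0,m1,n1]),
  (false,[n0,n0,n0,m2,n0,n0,n1,n1,n0,n0,n0,m1]),
  (false,[n0,n0,n0,n0,n0,m1,n0,n0,n0,n0,n0,n1]),
  (true,[n0,n0,m2,m2,n1]),
  (true,[n1,n0,n0,m1,n0,n0,n0,m1]),
  (false,[n0,n0,n1,n0,n0,n0,n0,n0,n0,n0,m1]),
  (false,[n0,n0,n0,n0,n0,m1,n0,n0,n0,n0,n1,m1])]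

noncomputable def l0 : List Con := (false, [n0,n0,n0,n1,n0,n0,n0,n0,n1,n1,n1,n0,m1]) :: base

noncomputable def r0 : List Con := (false, [n0,n0,n0,m1,n0,n0,n0,n0,m1,m1,m1,n0,n1]) :: base

noncomputable def l1 : List Con := (false, [n0,n0,n0,n0,n0,n1,n0,n0,n0,n0,n0,n0,m1]) :: r0

noncomputable def r1 : List Con := (false, [n0,n0,n0,n0,n0,m1,n0,n0,n0,n0,n0,n0,n1]) :: r0

noncomputable def l2 : List Con := (false, [n0,n0,m1,n0,n0,n0,n1,n0,n1,n0,n1,m1,m1]) :: r1

noncomputable def r2 : List Con := (false, [n0,n0,n1,n0,n0,n0,m1,n0,m1,n0,m1,n1,n1]) :: r1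

noncomputable def l3 : List Con := (false, [n0,n0,n0,n0,n0,n2,n0,n0,n0,n0,m1,n0,n1]) :: r2

noncomputable def r3 : List Con := (false, [n0,n0,n0,n0,n0,m2,n0,n0,n0,n0,n1,n0,m1]) :: r2

noncomputable def l4 : List Con := (false, [n0,m1,n0,n1,n0,n0,n0,n0,m1,m1,n0,n0,n1]) :: r3

noncomputable def r4 : List Con := (false, [n0,n1,n0,m1,n0,n0,n0,n0,n1,n1,n0,n0,m1]) :: r3

noncomputable def l5 : List Con := (false, [n0,n0,n2,n0,m1,n0,n1,n0,n0,n0,n1,m1]) :: r4

noncomputable def r5 : List Con := (false, [n0,n0,m2,n0,n1,n0,m1,n0,n0,n0,m1,n1]) :: r4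

noncomputable def l6 : List Con := (false, [n0,n0,n0,n0,n0,n1,n0,n0,n0,n0,m1,n1,n1]) :: r5

noncomputable def r6 : List Con := (false, [n0,n0,n0,n0,n0,m1,n0,n0,n0,n0,n1,m1,m1]) :: r5

noncomputable def l7 : List Con := (false, [n0,m1,n0,n2,n0,n0,n1,n1,n1,n1,n1,m1,m1]) :: r6

noncomputable def r7 : List Con := (false, [n0,n1,n0,m2,n0,n0,m1,m1,m1,m1,m1,n1,n1]) :: r6

noncomputable def l8 : List Con := (false, [n0,n0,m2,n0,n1,n0,m1,n0,m1,n0,m1,n1,n1]) :: r7

noncomputable def r8 : List Con := (false, [n0,n0,n2,n0,m1,n0,n1,n0,n1,n0,n1,m1,m1]) :: r7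

noncomputable def l9 : List Con := (false, [n0,n0,n0,n0,n0,n2,n0,n0,n0,n0,n0,n0,m1]) :: l8

noncomputable def r9 : List Con := (false, [n0,n0,n0,n0,n0,m2,n0,n0,n0,n0,n0,n0,n1]) :: l8

noncomputable def l10 : List Con := (false, [n0,m1,n0,n3,n0,n0,n0,n0,n0,n0,n1]) :: r9

noncomputable def r10 : List Con := (false, [n0,n1,n0,m3,n0,n0,n0,n0,n0,n0,m1]) :: r9

noncomputable def l11 : List Con := (false, [n0,n0,m3,n0,n1,n0,n0,n0,n0,n0,n1]) :: l10

noncomputable def r11 : List Con := (false, [n0,n0,n3,n0,m1,n0,n0,n0,n0,n0,m1]) :: l10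

noncomputable def l12 : List Con := (true, [n0,n0,n3,n3,m1]) :: l11

noncomputable def r12 : List Con := (true, [n1,n0,m3,m3,n1]) :: l11

noncomputable def l13 : List Con := (true, [n1,n0,n3,n3,m1]) :: r12

noncomputable def r13 : List Con := (true, [n0,n0,m3,m3,n1]) :: r12

noncomputable def l14 : List Con := (false, [n0,n0,n0,n1,n0,n0,n1,n1,n2,n2,n1,m1,m2]) :: r13

noncomputable def r14 : List Con := (false, [n0,n0,n0,m1,n0,n0,m1,m1,m2,m2,m1,n1,n2]) :: r13

noncomputable def l15 : List Con := (false, [n0,n0,m1,n0,n0,n0,n1,n0,n2,n0,n1,m1,m2]) :: l14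

noncomputable def r15 : List Con := (false, [n0,n0,n1,n0,n0,n0,m1,n0,m2,n0,m1,n1,n2]) :: l14

noncomputable def l16 : List Con := (true, [n0,n0,m1,n0,n0,n1,n1,n0,n2]) :: l15

noncomputable def r16 : List Con := (true, [n1,n0,n1,n0,n0,m1,m1,n0,m2]) :: l15

noncomputable def l17 : List Con := (true, [n0,n0,m1,m1,n0,n0,n0,m1,n0,m2]) :: r14

noncomputable def r17 : List Con := (true, [n1,n0,n1,n1,n0,n0,n0,n1,n0,n2]) :: r14

noncomputable def l18 : List Con := (false, [n0,m1,n0,m1,n0,n0,n1,n1,n0,n0,n1,m1]) :: r11

noncomputable def r18 : List Con := (false, [n0,n1,n0,n1,n0,n0,m1,m1,n0,n0,m1,n1]) :: r11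

noncomputable def l19 : List Con := (true, [n0,n0,m2,m2,n1,n0,n0,n2,n0,m1]) :: l18

noncomputable def r19 : List Con := (true, [n1,n0,n2,n2,m1,n0,n0,m2,n0,n1]) :: l18

noncomputable def l20 : List Con := (true, [n0,n1,n0,n0,n0,n0,n0,n1,n0,m1]) :: l19

noncomputable def r20 : List Con := (true, [n1,m1,n0,n0,n0,n0,n0,m1,n0,n1]) :: l19

noncomputable def l21 : List Con := (false, [n0,n0,n0,n0,n0,m1,n0,n0,n0,n0,n0,m1,n1]) :: r10

noncomputable def r21 : List Con := (false, [n0,n0,n0,n0,n0,n1,n0,n0,n0,n0,n0,n1,m1]) :: r10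

noncomputable def l22 : List Con := (false, [n0,n0,m1,n0,n0,n0,n2,n0,m1,n0,n0,m2,n1]) :: l21

noncomputable def r22 : List Con := (false, [n0,n0,n1,n0,n0,n0,m2,n0,n1,n0,n0,n2,m1]) :: l21

noncomputable def l23 : List Con := (true, [n1,n0,n0,n0,n0,n0,n0,m1,n0,n2]) :: r21

noncomputable def r23 : List Con := (true, [n0,n0,n0,n0,n0,n0,n0,n1,n0,m2]) :: r21

noncomputable def l24 : List Con := (true, [n1,n0,n0,n0,n0,n0,n0,n1,n0,m2]) :: l23

noncomputable def r24 : List Con := (true, [n0,n0,n0,n0,n0,n0,n0,m1,n0,n2]) :: l23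

noncomputable def l25 : List Con := (false, [n0,n0,m1,n0,n0,n0,n2,n0,m1,n0,n0,m2,n1]) :: r23

noncomputable def r25 : List Con := (false, [n0,n0,n1,n0,n0,n0,m2,n0,n1,n0,n0,n2,m1]) :: r23

noncomputable def l26 : List Con := (false, [n0,n1,n0,n2,n0,n0,m1,m1,n1,n1,n0,n1,m1]) :: r25

noncomputable def r26 : List Con := (false, [n0,m1,n0,m2,n0,n0,n1,n1,m1,m1,n0,m1,n1]) :: r25

noncomputable def l27 : List Con := (false, [n0,n0,n0,n0,n0,n2,n0,n0,n0,n0,n0,n0,m1]) :: r8

noncomputable def r27 : List Con := (false, [n0,n0,n0,n0,n0,m2,n0,n0,n0,n0,n0,n0,n1]) :: r8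

noncomputable def l28 : List Con := (true, [n1,n1,n0,n0,n0,n0,n0,n1,n0,m1]) :: r27

noncomputable def r28 : List Con := (true, [n0,m1,n0,n0,n0,n0,n0,m1,n0,n1]) :: r27

noncomputable def l29 : List Con := (true, [n0,n1,n0,n0,n0,n0,n0,n1,n0,m1]) :: l28

noncomputable def r29 : List Con := (true, [n1,m1,n0,n0,n0,n0,n0,m1,n0,n1]) :: l28

noncomputable def l30 : List Con := (false, [n0,m1,n0,m1,n0,n0,n1,n1,n0,n0,n1,m1]) :: l29

noncomputable def r30 : List Con := (false, [n0,n1,n0,n1,n0,n0,m1,m1,n0,n0,m1,n1]) :: l29

noncomputable def l31 : List Con := (true, [n1,n0,n0,n0,n0,n0,n0,n1,n0,m2]) :: r29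

noncomputable def r31 : List Con := (true, [n0,n0,n0,n0,n0,n0,n0,m1,n0,n2]) :: r29

noncomputable def l32 : List Con := (false, [n0,n0,n0,m2,n0,n0,n1,n1,n1,n1,n1,m1,m1]) :: r31

noncomputable def r32 : List Con := (false, [n0,n0,n0,n2,n0,n0,m1,m1,m1,m1,m1,n1,n1]) :: r31

noncomputable def l33 : List Con := (true, [n0,n0,m2,m2,n1,n0,n0,n1,n0,n1]) :: l32

noncomputable def r33 : List Con := (true, [n1,n0,n2,n2,m1,n0,n0,m1,n0,m1]) :: l32

noncomputable def l34 : List Con := (false, [n0,m1,n0,m1,n0,n0,n1,n1,n0,n0,n1,m1]) :: l33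

noncomputable def r34 : List Con := (false, [n0,n1,n0,n1,n0,n0,m1,m1,n0,n0,m1,n1]) :: l33

noncomputable def l35 : List Con := (true, [n1,n0,m2,m2,n1,n0,n0,n1,n0,n1]) :: r33

noncomputable def r35 : List Con := (true, [n0,n0,n2,n2,m1,n0,n0,m1,n0,m1]) :: r33

noncomputable def l36 : List Con := (true, [n0,n0,m2,n0,n1,n2,m1,n0,m1]) :: l35

noncomputable def r36 : List Con := (true, [n1,n0,n2,n0,m1,m2,n1,n0,n1]) :: l35

noncomputable def l37 : List Con := (false, [n0,n0,n0,n0,n0,m1,n0,n0,n0,n0,n0,m1,n1]) :: r35

noncomputable def r37 : List Con := (false, [n0,n0,n0,n0,n0,n1,n0,n0,n0,n0,n0,n1,m1]) :: r35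

noncomputable def l38 : List Con := (false, [n0,n0,m1,n0,n0,n0,n2,n0,m1,n0,n0,m2,n1]) :: l37

noncomputable def r38 : List Con := (false, [n0,n0,n1,n0,n0,n0,m2,n0,n1,n0,n0,n2,m1]) :: l37

noncomputable def l39 : List Con := (false, [n0,n0,n0,m1,n0,n0,n1,n1,n1,n1,n0,m1,m1]) :: r37

noncomputable def r39 : List Con := (false, [n0,n0,n0,n1,n0,n0,m1,m1,m1,m1,n0,n1,n1]) :: r37

noncomputable def l40 : List Con := (false, [n0,n0,n0,n2,n0,n0,m1,m1,m1,m1,n0,n1,n1]) :: l39

noncomputable def r40 : List Con := (false, [n0,n0,n0,m2,n0,n0,n1,n1,n1,n1,n0,m1,m1]) :: l39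

noncomputable def l41 : List Con := (true, [n1,n0,m2,m2,n1,n0,n0,n2,n0,m1]) :: r28

noncomputable def r41 : List Con := (true, [n0,n0,n2,n2,m1,n0,n0,m2,n0,n1]) :: r28

noncomputable def l42 : List Con := (true, [n1,n0,n2,n2,m1,n0,n0,m2,n0,n1]) :: l41

noncomputable def r42 : List Con := (true, [n0,n0,m2,m2,n1,n0,n0,n2,n0,m1]) :: l41

noncomputable def l43 : List Con := (true, [n1,n0,n1,n1,n0,n0,n0,n1,n0,n2]) :: r41

noncomputable def r43 : List Con := (true, [n0,n0,m1,m1,n0,n0,n0,m1,n0,m2]) :: r41

noncomputable def l44 : List Con := (true, [n0,n0,m1,n0,n0,n1,n1,n0,n2]) :: l43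

noncomputable def r44 : List Con := (true, [n1,n0,n1,n0,n0,m1,m1,n0,m2]) :: l43

noncomputable def l45 : List Con := (false, [n0,m1,n0,n3,n0,n0,n0,n0,n0,n0,n1]) :: l44

noncomputable def r45 : List Con := (false, [n0,n1,n0,m3,n0,n0,n0,n0,n0,n0,m1]) :: l44

noncomputable def l46 : List Con := (true, [n1,n0,m1,m1,n0,n0,n0,m1,n0,m2]) :: r45

noncomputable def r46 : List Con := (true, [n0,n0,n1,n1,n0,n0,n0,n1,n0,n2]) :: r45

noncomputable def l47 : List Con := (false, [n0,n0,n0,m1,n0,n0,m1,m1,m2,m2,m1,n1,n2]) :: r46

noncomputable def r47 : List Con := (false, [n0,n0,n0,n1,n0,n0,n1,n1,n2,n2,n1,m1,m2]) :: r46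

noncomputable def l48 : List Con := (false, [n0,n0,n0,n2,n0,n0,n1,n1,n2,n2,n1,m1,m2]) :: l47

noncomputable def r48 : List Con := (false, [n0,n0,n0,m2,n0,n0,m1,m1,m2,m2,m1,n1,n2]) :: l47

noncomputable def l49 : List Con := (false, [n0,n0,n0,n0,n0,n0,m1,m1,m2,m2,m1,n1,n2]) :: r47

noncomputable def r49 : List Con := (false, [n0,n0,n0,n0,n0,n0,n1,n1,n2,n2,n1,m1,m2]) :: r47

noncomputable def l50 : List Con := (false, [n0,n0,m1,n0,n0,n0,n1,n0,n2,n0,n1,m1,m2]) :: r43

noncomputable def r50 : List Con := (false, [n0,n0,n1,n0,n0,n0,m1,n0,m2,n0,m1,n1,n2]) :: r43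

noncomputable def l51 : List Con := (false, [n0,n0,n0,n1,n0,n0,n1,n1,n2,n2,n1,m1,m2]) :: l50

noncomputable def r51 : List Con := (false, [n0,n0,n0,m1,n0,n0,m1,m1,m2,m2,m1,n1,n2]) :: l50

noncomputable def l52 : List Con := (false, [n0,n0,n0,n0,n0,n0,m1,m1,m2,m2,m1,n1,n2]) :: l51

noncomputable def r52 : List Con := (false, [n0,n0,n0,n0,n0,n0,n1,n1,n2,n2,n1,m1,m2]) :: l51

noncomputable def l53 : List Con := (false, [n0,n0,n0,n2,n0,n0,n1,n1,n2,n2,n1,m1,m2]) :: r51

noncomputable def r53 : List Con := (false, [n0,n0,n0,m2,n0,n0,m1,m1,m2,m2,m1,n1,n2]) :: r51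

open Helper55.PC in
noncomputable def t0n : Helper55.PC.Ten :=
  (s
  3601427193356828348242494387460612642966595159998592085178494001117364676688689781197834229271963175847743367173826618211963359763408244747320877620899469666769409038438139127566233874986586492324933524135489146042937916303079506984179948107106882015055758106218320544624146195888749114595996156030004673215080560575603294433014254528324793090102984479452793686007275182482701549793348266293827544836478194037697549811859841382006978387685971525854613214247450085493114981934049409086877270005444667973304961)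

noncomputable def t0 : Tre := Helper55.PC.toT t0n

theorem ok0 : chk K t0 l0 = true :=
  Helper55.PC.chkN_sound K t0n l0 (by decide +kernel)

open Helper55.PC in
noncomputable def t1n : Helper55.PC.Ten :=
  (r
  410144252082962684254289336691418275944057381885192687524318459208872424272273808502176268542701681655534407675842463229030596395211957693272177878137805364314367508823808309833182172327254643507011553020957534776792095458562907914633195871239351873659007127491210761570456107184213900690693282231788361848466326630974729008354840061269148520909348627228699539259510731023777558653463364083426137850703606946737506090167243428845014697071135342585920840808503580090796333672806156675721098570343129376)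

noncomputable def t1 : Tre := Helper55.PC.toT t1n

theorem ok1 : chk K t1 l1 = true :=
  Helper55.PC.chkN_sound K t1n l1 (by decide +kernel)

open Helper55.PC in
noncomputable def t2n : Helper55.PC.Ten :=
  (r
  1831371585202013182486571419750749838585071490576352167519711472655310044411413235113676909374356972033433289712565073722592439452679574392264330208309006386936873852165970426933640616181659806555197093469666717834363009521263283757539395084768917638775206068099887338902410728881403508033275911763837400290335452123920973172650278959351014884002822792034981756087047590180206755053187868022332779464847818069680872805627973756801715978714066174129173597833544805725575399010435494230928515755446550800795310305229980212232612027564884369107022826257678376689759004212240440834157895634184943184624845247955149142999967342637578161261650689)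

noncomputable def t2 : Tre := Helper55.PC.toT t2n

theorem ok2 : chk K t2 l2 = true :=
  Helper55.PC.chkN_sound K t2n l2 (by decide +kernel)

open Helper55.PC in
noncomputable def t3n : Helper55.PC.Ten :=
  (r
  1569730465226383525916997085834028927694731061821035624587339434385040009486626592823071125041164999728106949887851255281119099774523456950114395636564805002328090535071570574680342025534413685669953313181829512888524405582218248274951162070080868233030193658981716296453327535249397602099764132460771797797312877428649432205434230668979612939951492479183307910391266634447164574618141888000932762453684121942194462035558564828042832553369252900275965775875910786527478309128072013012967379013790358465858272676649485890614858125228451815208321277936488943229877165155592951571450344183904298636403456)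

noncomputable def t3 : Tre := Helper55.PC.toT t3n

theorem ok3 : chk K t3 l3 = true :=
  Helper55.PC.chkN_sound K t3n l3 (by decide +kernel)

open Helper55.PC in
noncomputable def t4n : Helper55.PC.Ten :=
  (r
  197247592297273636006380687587114549561025492113711381784335850879777532042872780006734944182124357004380973019855244476173723829234833240578968273677223185567662359852189597385371972343739809901619223507667497095137964823983160012798815078111303324581567745174849989211475392874021418321859806924924581171666026363886885441154808156978878218231791348646560609788265138231509568979521828866381141031297056207700103596950684328387408037737862963799756771446625353683424852426639830362378074506762775141990347054802124802394023544859971163632129642833136999952481529651686622260358381224458095539681072686706329395457)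

noncomputable def t4 : Tre := Helper55.PC.toT t4n

theorem ok4 : chk K t4 l4 = true :=
  Helper55.PC.chkN_sound K t4n l4 (by decide +kernel)

open Helper55.PC in
noncomputable def t5n : Helper55.PC.Ten :=
  (r
  775619980552557498908862692910555411132161842940918199853581897493825828509468780072540414982483132853233256674178363632135707390229263430940872795664433821900522223761062999059758891724110522131690180194028663009335655514905307942534906613896771812638415268742315274633132263586843131406285995779667332891489709148117325810685799962750343687290328057150520986614487120952943608206882963510865266268379608244680299975900746177332700871141181169707198191670197789467208345853694464163559727141838915581168242342203772962636223000497796584294502047999403407886819833850397893187249189907614100561474351984150059886043328)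

noncomputable def t5 : Tre := Helper55.PC.toT t5n

theorem ok5 : chk K t5 l5 = true :=
  Helper55.PC.chkN_sound K t5n l5 (by decide +kernel)

open Helper55.PC in
noncomputable def t6n : Helper55.PC.Ten :=
  (r
  1395782185475521526321792575883395406292342873516898525389401311039654822081368985617248171011639978274272033978027583555175999515945833529833876837825222124375025958911314587688758699823485425362013031095543931151979435797589521541388182668183101083600600004405169135737693035079903091156315314582744087757218117918138862913826583145817759600837041977583337512051309767554399019540265763721026732319235654937659781212585954328218966683573548572373611722139788892636437365984751866645237824913501032566949906566547002452129912266517861114656)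

noncomputable def t6 : Tre := Helper55.PC.toT t6n

theorem ok6 : chk K t6 l6 = true :=
  Helper55.PC.chkN_sound K t6n l6 (by decide +kernel)

open Helper55.PC in
noncomputable def t7n : Helper55.PC.Ten :=
  (r
  528450020676138271083958927589496771685375810002640824228342866511229804526999959118988355260838930258419487452997387047584214225597533513778080673421015742124483713188110360917442444663071353653568779899912604350028482351675165778166838930234235502942783661619158952461275853783619569845691196888859900891358792422075733677658952390830965543902402861399301319085507521159438942329828949953049331699187496227128740387187930491023892023085271541156393716652459491155273199961589887972320093248524683305992581828732413696779694945459930572764381274201469022105526515553041179002424842915715632567087631509863225851997968822593546862320176893108546599183300454623183662702621713857631381849783505928028669352059896412317584413184190886814297224928156297298123827665939035965981235811107427554613801912394022268429057)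

noncomputable def t7 : Tre := Helper55.PC.toT t7n

theorem ok7 : chk K t7 l7 = true :=
  Helper55.PC.chkN_sound K t7n l7 (by decide +kernel)

open Helper55.PC in
noncomputable def t8n : Helper55.PC.Ten :=
  (r
  120279140397562723134274454379471279975783747621154823911775308478590851356285446595190495463005739392732701787407775666531657830397197389105237593582986333942179452649916608640087655637096859498700500572359064332217720280371236377659706564679261753096460314071025953515678361555541412418026451149458695114013812216793506184509975912047912133090697917332188163783810919324030221644228709566418278546619472504502470851748425485297571343799746315775583628979409360506465530679069347131196374649222128971777570950575362302155871694258295079367477776304321825494781771783784882464)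

noncomputable def t8 : Tre := Helper55.PC.toT t8n

theorem ok8 : chk K t8 l9 = true :=
  Helper55.PC.chkN_sound K t8n l9 (by decide +kernel)

open Helper55.PC in
noncomputable def t9n : Helper55.PC.Ten :=
  (r
  46873595401749287192029333450508016577135991000823030307671881006902921254470137095288426325896980884236634661886593371376170990642535898757317674317990038547060769593748845374334991938482539567869510642758011322709001380615112023370397926353899484857920924541211114129184055069715099477788366615141236314952135223077396604751135066231518267982120631506567041592212376343022616766314277516623192777353)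

noncomputable def t9 : Tre := Helper55.PC.toT t9n

theorem ok9 : chk K t9 l12 = true :=
  Helper55.PC.chkN_sound K t9n l12 (by decide +kernel)

noncomputable def t10 : Tre :=
  (.N [0,3] 1 ⟨0,[(0,0)]⟩ ⟨0,[(1,0)]⟩ (.x (-1) ⟨0,[(1,0),(30,2),(8,2)]⟩ ⟨15,[(0,3),(3,11),(5,11),(3,
  3),(5,4),(13,16),(11,1),(2,11)]⟩))

theorem ok10 : chk K t10 l13 = true := by decide +kernel

open Helper55.PC in
noncomputable def t11n : Helper55.PC.Ten :=
  (r
  2129776710067464873572120957916397474001025410410655157274228543697739688219925972932424188266740912075157713000384962852038229296075495210558108033973739212964783064742904726442376726776956956510108389084338861209712061615061435801836938761100664371704235188546115642025508705361065006083720304224565723990241593202131511674711092703750149999281054505)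

noncomputable def t11 : Tre := Helper55.PC.toT t11n

theorem ok11 : chk K t11 l16 = true :=
  Helper55.PC.chkN_sound K t11n l16 (by decide +kernel)

open Helper55.PC in
noncomputable def t12n : Helper55.PC.Ten :=
  (q
  10658010548823996887565196130011653290611829209919968700718300926783916364555269297737154455470684660774921885102831785697662794066602901895765039816714693411009463364367390908568910126272626163725
  (r
  33594954629899040715910017361735668105218187705228040233670397144275500234334546225463388319570660890200053059874799686958699494587818525240571075197736013551059731400143179529575723538745396070181986306543325522813867825746005001034046570632421866173526251405323250368036498775729733374291017042005982393300150171440717879093821579348555809498417903480596741257661804256007211206733267344363469935997824770008324733603930327333914548920861482844871970588319205933770553835908171883123545938204668922684201)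
  (r
  144290992565432632388788546597463120438905212620618045596930332604459580880891557839249867479993369781330816217345408456122340369759809566190105881215222243809116383523894445204949699279488492374825995318201345983297531131349293930200982199879508165067321259515560256505681458484445469806624047434443592149769939289484450789169276955373447709158972287791802578281759347575002991187021585862190223455121804686291764662412705888160790365270002347287981007511265852064365786312857970827293761842930328239641741377135369))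

noncomputable def t12 : Tre := Helper55.PC.toT t12n

theorem ok12 : chk K t12 l17 = true :=
  Helper55.PC.chkN_sound K t12n l17 (by decide +kernel)

open Helper55.PC in
noncomputable def t13n : Helper55.PC.Ten :=
  (r
  38415108346384678188004664948249099644083497128733746470608329936973103467981921873209198710936945794386530785298836834711880851991510727728405193786663306307706738339978311144108401235117343329864501867692589334850917243514112783382428788193231885525847274796160293159869176814333606984594552220594029884675957965495956336161173548620446230338809741324348740935007979679522476172669046201714608535903108952494718059221624202496473690516969974060998774635724470951750499229651049928438741275685565048865531696365881637607286616798987405822221356724366500997870310465651917500195430394202643071167116309217051176054463898166343741711255747135136349435786170765441659335863090798886264936422000555652021341970805554741866422610236937701879598485154282704256664531248626046264619160836386846828556525300440579386492923413915654905958369997230691792435149103375084567828633483863342222518739119171336047377931735634446026675056509230147450404683825893317857256225)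

noncomputable def t13 : Tre := Helper55.PC.toT t13n

theorem ok13 : chk K t13 l20 = true :=
  Helper55.PC.chkN_sound K t13n l20 (by decide +kernel)

noncomputable def t14 : Tre :=
  (.N [0,0,1,-2] 0 ⟨0,[(0,0)]⟩ ⟨0,[(1,0)]⟩ (.x 0 ⟨7,[(1,4),(0,9),(2,2),(1,1),(2,3),(2,2),(1,2),(0,
  2),(7,3),(1,6),(1,9)]⟩ ⟨5,[(14,0),(2,1),(0,1),(0,2),(0,3),(1,11),(2,11),(14,5)]⟩))

theorem ok14 : chk K t14 l24 = true := by decide +kernel

open Helper55.PC in
noncomputable def t15n : Helper55.PC.Ten :=
  (r
  59409047307150126626560426739207801886425191979074532456834233770032698911259348912094905646467215104905778982494830197302243262954234518581457570007990345739518654526344351584685946217432633850703148752405649816697564966389651208010380208984169028825930938637645812289631129751017315292073262134881895831844539743902319822068456941303530833706555161482461106692142797292422260117843121301747311262303470469597108031626083733095886265878571258504337517817781686764560807619712830587674505443927693399923550732811266475130766184643123616909857923328)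

noncomputable def t15 : Tre := Helper55.PC.toT t15n

theorem ok15 : chk K t15 l25 = true :=
  Helper55.PC.chkN_sound K t15n l25 (by decide +kernel)

open Helper55.PC in
noncomputable def t16n : Helper55.PC.Ten :=
  (r
  29335092819300845866500679859597197252425619014350299074943398366434204985639120621658672258976195320220046804432196007232150331265960690077510220361127721506684727655112576447837678487934728659676192589176373927328662843827433280474505195451487219546036872762610248430299190965495950307017914599503777679977498037009635019031233137783234184289608093513654299299811336738369592289477400956496422929681079662823278071585798073138080232341052858395362607632862309824396413791778659781421749318697797943283380093222635780854534324541429945916734723360822512629779458381249035922594902565868855324421450054073419349331922304674359296314616828339877787731562426593124163948554455890426006690373751980554615679299353051406929224097444804348784471632153016339640514665448823797407932826600284402670101281)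

noncomputable def t16 : Tre := Helper55.PC.toT t16n

theorem ok16 : chk K t16 l26 = true :=
  Helper55.PC.chkN_sound K t16n l26 (by decide +kernel)

open Helper55.PC in
noncomputable def t17n : Helper55.PC.Ten :=
  (r
  59889760250130543558234438708005315917556090535314519909730480693584112523375616859884539226545370349465252138869626370031406765780670245097894125994644535372412824141380248840607920754986200371982628161060783453540585057917414643243339281176729611807480875785039836464537619022265114669962829075961864547985574666305152339914404817692291706573103214614860372685256403272213176041771582353532746902789814482204999874836881903625154752633355602599918337924382556429278192813612070246529212981145059135217269548883048958370665995926864769012528798505861331546207940400583837856546618994360186439017467474683168009038402921704370911702047547678928031946837386428511750214056758941854364443594711328)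

noncomputable def t17 : Tre := Helper55.PC.toT t17n

theorem ok17 : chk K t17 l27 = true :=
  Helper55.PC.chkN_sound K t17n l27 (by decide +kernel)

open Helper55.PC in
noncomputable def t18n : Helper55.PC.Ten :=
  (i 21775413351665120730916345303918503395338 (r
  89820981064295694213453652399006926453821553986499451196058740613986262312061832094953209964356181615609260903158517222407771141162272995355949533918672565283211720618707662523163047482196063739639470424313731382989056505344030167715278882095025520114185163852355718565622605150801495748978707138734631979581831238983348825599866636668078012056706573067707646925328341333044271431043727183273114417521530096911907799751930720381848284099101987719026989750135623729035070662460663391143231226313174193383003763862592506235273474295593220743309824249525463321477090041204228976932765768941724676709127245751912341989011014451844277396532102773451050357851950434719969214916690328750274811527612819266027762019574566209933363145705052527045382923524506015097738569989975079366771203528645584997179742778344968522258481223556380742132513)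
  (r
  54002790107141267816635072339038977000287902433199930251982017281884457114319278969091728093053832928850232231955773840777678282722307331478276806200934726642761297238179429741361211737221476379430434168149877550565850436718089143418742926743614093456452889840659548204821912336829314044629776714513384678556974272443869120384961864384849603567794170454226393783840966408164885690040644953896437726346623732363363213990459436311365425907479111315502450340638205777450299818179207532179313481766145431071057721361915303545199873122748079647674848684406708251097489009219354192504450431307627399591285094294935759915796561011246160402426550661377670245841286669178814820559379389828709306560021404942953715561690194082790517362215983384776641491074180379973414267096024762289784789375933413903585228367677484635387077141861479296914293295032540551398811968313162810989052860279876067747958845004514979649534656436221989455231985487362376470373153))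

noncomputable def t18 : Tre := Helper55.PC.toT t18n

theorem ok18 : chk K t18 l30 = true :=
  Helper55.PC.chkN_sound K t18n l30 (by decide +kernel)

noncomputable def t19 : Tre :=
  (.N [0,0,1,-2] 0 ⟨0,[(0,0)]⟩ ⟨0,[(1,0),(12,0)]⟩ (.x 0 ⟨4,[(1,1),(10,9),(1,7),(0,1),(1,0),(2,9),(4,
  5),(0,4),(9,0)]⟩ ⟨5,[(13,0),(2,1),(0,1),(0,2),(0,3),(1,11),(2,11),(14,5)]⟩))

theorem ok19 : chk K t19 l31 = true := by decide +kernel

open Helper55.PC in
noncomputable def t20n : Helper55.PC.Ten :=
  (r
  64236224502675134118713368658242257010933988792768329227957305473374310650302331661218713787250982777591675344767127126576737070219874538551078728380502816245262029947496847552026906721414097425234944462109078622457726809576002461802727627936303921366529455197831531237411714350632523536238552441154827489281755675621687660081914836143691525351476666241784617267464264704234460272509246303842218783294493471695273761778426786810414036998859685086235364124011896499706065187946968368403941946466775077174265406569026721846334314723476645265858043973278045775062692604898193580550987460053877328774031167110807627540932935114503281026878465271860044065)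

noncomputable def t20 : Tre := Helper55.PC.toT t20n

theorem ok20 : chk K t20 l34 = true :=
  Helper55.PC.chkN_sound K t20n l34 (by decide +kernel)

noncomputable def t21 : Tre :=
  (.N [0,-2,1,1] (-1) ⟨0,[(1,0)]⟩ ⟨0,[(2,0)]⟩ (.x 0 ⟨1,[(7,1),(0,1),(8,0),(2,1),(1,0),(7,1)]⟩ ⟨0,
  [(0,0)]⟩))

theorem ok21 : chk K t21 l36 = true := by decide +kernel

open Helper55.PC in
noncomputable def t22n : Helper55.PC.Ten :=
  (r
  40244870991596192771902964125332678355128214911194540618804619798758504585939835802445331634366792602964165263831057377974625807328370436276390209945536710188798952966210588143011115743842679826288006703748923715856705053262777860571106068545784541298799949663739775546576266343811010107211116451933974108569128179344548800533482759614184133459404045053051659594610951829873815782204256092186779005574912292329603016865751270161419276746636430353020223733929059656448048789589961285278835362884387703243503726935006168671269192663567235047005984097789663870785500537775435904544539767366693670143145284405278864878213039610633423087166288611127777433504855553295236020500458295448913460768046593501893866263855997050953985)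

noncomputable def t22 : Tre := Helper55.PC.toT t22n

theorem ok22 : chk K t22 l38 = true :=
  Helper55.PC.chkN_sound K t22n l38 (by decide +kernel)

open Helper55.PC in
noncomputable def t23n : Helper55.PC.Ten :=
  (q
  21686231508184329145621053677675861753233337584763057793899926750084388561496505629042303520379775627984278907248850845514182278434715001625048296587277
  (r
  1254075509357032152070749236498383814660169975044943090718914095480006079058913395191513070782281808725125297720306976272719201026172882392463526833036691073772636671807488462876999652533342418300304544379110050395875471884073259364306856054476662150752078901710728490356579657531988056893453355278677705013670545372639163688640723591575797271058405483275216110719690692548053817364906899356214316483367134022443492778092209825117887719214842416382300220779698253239239414884604006055717864066539849932412140921097)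
  (r
  68141834323418498733865791609804843446570683989033172405035584393505963071672891853006788039826527058283581761168413050467215296750411429288576882506820319995442958525777559395961607502957142018573946461868768038841370695957675367366791841067092184011923915024712462959942312840690365904055330799945951589355320267875253278579969235914100557900348963347370474277042079586882138657914128522070454598155027216533874926196395962114485593693120682090097970141811387769644106453619925375851354741216055794334509494230318055581452368568131881))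

noncomputable def t23 : Tre := Helper55.PC.toT t23n

theorem ok23 : chk K t23 l40 = true :=
  Helper55.PC.chkN_sound K t23n l40 (by decide +kernel)

open Helper55.PC in
noncomputable def t24n : Helper55.PC.Ten :=
  (r
  648575344245700726764086264426524213447786421705116587858916244146396295269603097314654236234217528410471674851488931053613258427022252233757930729486324228675295447795275363409337668323912255964667769353348125629986363401742882817518240076603528310552757002641386277359541480049981221584233196233570150992417078820682866846948013507406800253345481274651034805761867126771744565898078802905488060230518890468811758903497)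

noncomputable def t24 : Tre := Helper55.PC.toT t24n

theorem ok24 : chk K t24 r32 = true :=
  Helper55.PC.chkN_sound K t24n r32 (by decide +kernel)

noncomputable def t25 : Tre :=
  (.N [0,-2,2,-1] (-1) ⟨0,[(1,0)]⟩ ⟨0,[(0,0)]⟩ (.x 1 ⟨0,[(0,0),(8,0),(2,0),(13,1),(15,0),(0,0)]⟩ ⟨5,
  [(13,0),(2,1),(0,7),(0,2),(0,3),(1,5),(2,5),(10,5),(3,5)]⟩))

theorem ok25 : chk K t25 l42 = true := by decide +kernel

open Helper55.PC in
noncomputable def t26n : Helper55.PC.Ten :=
  (q 12771547637554566980034867104564007684450052866059 (r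
  243381622152735365460329099336486870878902746049546945379422721366928036216701903983819696228487598811405113103849853424959278649056267735878128024344522642076148807970743944007454705718985794786496925760236985120589806753234701455947728377659600668114760773093453597247131299733703342392630789555816072121497877711037428156924893756609846562811434185554568786560035268507158410625965122812429508301533420484967497081999354307273810569)
  (q
  13379646555644258496050417184052332268573267916538187348657201060397504295870084604629011120083136082108633933213644917091370952290404005006882198229513965573247673886545335553324735812206605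
  (r
  648575344396689742271224002812089085059202929361893003236903687120828882309406273800915628642368317763216324198297702169297012157993761419493609980030138645041354453068519856077942439268351971400943971312585875725231049073430140244108634285757662021084101674699197554158575379364386494061786472023978868667748624680224274538269386758268172728419811445530544659304854975467884289473078738895664204552552527561659639406793)
  (q
  128914951762626932960289901204907947078494305309858903942477775422559838561168924990341101263185337385024113363454060158093689491570383499013842473738970100459863679353341089622417954882652638608413615967827001357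
  (r
  12227440729302892713351365686273996677743290880413971934357203314738129633806175214517202103370434172888798785446561831781909625699372869959128863310324898605862088214048781476932179857138882878376922172376173720906985244815313454668316943230193829338457907444900311259777256100610534823232861832639240516306769546199674160802198171410837960940773617798479010820116521595853951754117310826330962246812768511777170884552432503783549386857360652498408347537529179874127091063597184711261583861056835419101515619508574015381129256533427952267110728364822796428041)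
  (q
  128914951762626932960289901204907947078494305311701659032722668660959035133917103159744959943834461871288024476997728405055725597590084833218612158003273053557913297456904548001412465735574664198995788650822893581
  (r
  866960638677438960936095704829972317669401460622933486597098613118305459150837986682400360297849345528784288145775579689717735978180903160027603552298892504427976338558439847184054284873097283231560836485142063402437394996676410524370080900420430873655789561761922733939249398879573165141825451285991710327160151353365634423838035065021429735928738683440574447602639625)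
  (r
  139577046470981392538930648462528870507453078606145749072650431456306095200496816754785444177296502442369787009254080517955055005540779684866021618013616999032525375841488903907056516999947789655559188012276594915238624994489330891608817984060675438104751579965577719442085724283372905498080541260060790660427759789444947303413884658192214633622658741445417)))))

noncomputable def t26 : Tre := Helper55.PC.toT t26n

theorem ok26 : chk K t26 l45 = true :=
  Helper55.PC.chkN_sound K t26n l45 (by decide +kernel)

noncomputable def t27 : Tre :=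
  (.N [0,1,1,2] 0 ⟨0,[(3,0)]⟩ ⟨0,[(0,0)]⟩ (.x 0 ⟨0,[(2,0)]⟩ ⟨1,[(9,1),(3,3),(7,0),(1,1),(9,1),(5,
  0)]⟩))

theorem ok27 : chk K t27 l46 = true := by decide +kernel

open Helper55.PC in
noncomputable def t28n : Helper55.PC.Ten :=
  (r
  174437106458296684716524879031874069344539068173422228566222208332227769507334656075817434884435801853490753345801507348274814385643793927404185422251708435883519612629260951351697576807716016840751447234727172925568043198827077726670836572339030594288522619294322064124022746912394809777565587608577504496782486036852275034243068071927947954369638899904696526340189591830442668523120947873324258352675118714466766098516369188050476376186102863811343162111104776803680715802569197080402265914663748694734182731737984672210492205920831136521)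

noncomputable def t28 : Tre := Helper55.PC.toT t28n

theorem ok28 : chk K t28 l48 = true :=
  Helper55.PC.chkN_sound K t28n l48 (by decide +kernel)

open Helper55.PC in
noncomputable def t29n : Helper55.PC.Ten :=
  (q
  144804397463378726759217292382082931186299829485373861766691300036035148371793402457518239092492509164524907265992301590178624324920551939945298483802504304529796556427074873678973152633421837
  (r
  9080271008596884196591294328285591055236615412254547130526586124519536722615201548984080243117336986205314851109429423218249852404679345289849807243670069758012180548521195655119820959101325415072582953245860491981571201612477034517958062919194523708852084531347057025087406621616257758168474237070587807960425784671860000320879147204907674903305)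
  (r
  378643278431308112387306025731769769721276881052741666385122052132126607388977195238691981626076987307161617552570845272052418388827743124600689381202542941120904283270169776193290869981817784730187338564343303856029572077969375040125034513512961062777226005098765803292635543655977268904963622872765642314300189346482271961974205654892522539888996319665346852552463272387369))

noncomputable def t29 : Tre := Helper55.PC.toT t29n

theorem ok29 : chk K t29 l49 = true :=
  Helper55.PC.chkN_sound K t29n l49 (by decide +kernel)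

open Helper55.PC in
noncomputable def t30n : Helper55.PC.Ten :=
  (r
  672664591768389330012050086284675630433918884719862303755230670867763380162724774867087897918546917089794445907662815160527813060389087680641614270412979816331795851996849816605653115938896070415480415546631302434938529120421739520561046653907630299634865264374947309579377684312955244591087114093807340492716657306828924725126762373194433238731696456178344745)

noncomputable def t30 : Tre := Helper55.PC.toT t30n

theorem ok30 : chk K t30 l52 = true :=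
  Helper55.PC.chkN_sound K t30n l52 (by decide +kernel)

open Helper55.PC in
noncomputable def t31n : Helper55.PC.Ten :=
  (r
  27789095149451061643832254586547188703623881415597617710865805016781144447224585955728992487737988463500063149553643174808723764454996864505794958384117662863195570066994049132482068117027155290079233209693508917241523689317571415950075444947582073857531534952920859101461637713844238347980985982362632039607597757766051535821940212971751240355086939941753262015904638087993913132364013218615250191528244321503921306494815347612221158437998704297568053987436901280751049459277505321)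

noncomputable def t31 : Tre := Helper55.PC.toT t31n

theorem ok31 : chk K t31 l53 = true :=
  Helper55.PC.chkN_sound K t31n l53 (by decide +kernel)

theorem cl0 : Clo K (Helper55.TR.GT (-1) Helper55.TR.BrU) l15 :=
  .i [n0,n0,m1,n0,n0,n1,n1,n0,n2] (e' := [n1,n0,n1,n0,n0,m1,m1,n0,m2]) (by decide +kernel) (by decide +kernel)
  (.t t11 ok11) (.h (Helper55.TR.GT.lJ Helper55.CD.D1_m1_c19u_31_0.g 302013076514588549883663780855293759502724894203052377969616326470757112280666563263001265530952031699125615907953996338934778576055258763528986754584801397525620677673021 (by decide +kernel)))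

theorem cl1 : Clo K (Helper55.TR.GT (-1) Helper55.TR.BrU) l14 :=
  .q [n0,n0,m1,n0,n0,n0,n1,n0,n2,n0,n1,m1,m2] (e' := [n0,n0,n1,n0,n0,n0,m1,n0,m2,n0,m1,n1,n2]) (.p false [0,0,0,1] [1,0,
  -1,-1] (⟨0,[(26,0)]⟩,⟨0,[(22,0)]⟩) .k 2 (⟨2,[(8,1),(13,0),(14,0)]⟩,⟨0,[(26,0),(1,0)]⟩) .k (.r
  (-1) ⟨32,[(0,1),(5,3),(8,21),(0,61),(2,5),(5,5),(5,21),(7,0),(0,1)]⟩ ⟨23,[(3,1),(3,17),(9,2),(0,
  11),(1,0),(2,17),(8,17),(1,29)]⟩)) (by decide +kernel) (by decide +kernel) cl0 (.h (Helper55.TR.GT.lb Helper55.CD.D1_m1_c19u_31_1.g 50461909353016328353500107162719859138682500675648113812741302706599074900778714585668838119825434170984908479483415924812121236516459796027656217991693323342972931 (by decide +kernel)))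

theorem cl2 : Clo K (Helper55.TR.GT (-1) Helper55.TR.BrU) r14 :=
  .i [n0,n0,m1,m1,n0,n0,n0,m1,n0,m2] (e' := [n1,n0,n1,n1,n0,n0,n0,n1,n0,n2]) (by decide +kernel)
  (by decide +kernel) (.t t12 ok12) (.h (Helper55.TR.GT.lb Helper55.CD.D1_m1_c19u_31_2.g 50461888775281754129567446868946971443016533684269527669203205948785055584084218304619727079883569404869986575722748141179265668370692882314876652971675963880376323 (by decide +kernel)))

theorem cl3 : Clo K (Helper55.TR.GT (-1) Helper55.TR.BrU) r13 :=
  .q [n0,n0,n0,n1,n0,n0,n1,n1,n2,n2,n1,m1,m2] (e' := [n0,n0,n0,m1,n0,n0,m1,m1,m2,m2,m1,n1,n2]) (.p false [0,0,0,1] [1,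
  0,-1,-1] (⟨0,[(25,0)]⟩,⟨0,[(21,0)]⟩) .k 2 (⟨2,[(7,1),(13,0),(14,0)]⟩,⟨0,[(25,0),(1,0)]⟩) .k (.r
  (-1) ⟨14,[(14,9),(0,29),(2,3),(5,1),(1,1),(3,9),(7,0)]⟩ ⟨23,[(2,1),(3,17),(9,2),(0,11),(1,0),(2,
  17),(8,17),(1,29)]⟩)) (by decide +kernel) (by decide +kernel) cl1 cl2

theorem cl4 : Clo K (Helper55.TR.GT (-1) Helper55.TR.BrU) r12 :=
  .i [n1,n0,n3,n3,m1] (e' := [n0,n0,m3,m3,n1]) (by decide +kernel) (by decide +kernel) (.t t10 ok10) cl3

theorem cl5 : Clo K (Helper55.TR.GT (-1) Helper55.TR.BrU) l11 :=
  .i [n0,n0,n3,n3,m1] (e' := [n1,n0,m3,m3,n1]) (by decide +kernel) (by decide +kernel) (.t t9 ok9) cl4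

theorem cl6 : Clo K (Helper55.TR.GT (-1) Helper55.TR.BrU) l19 :=
  .i [n0,n1,n0,n0,n0,n0,n0,n1,n0,m1] (e' := [n1,m1,n0,n0,n0,n0,n0,m1,n0,n1]) (by decide +kernel) (by decide +kernel)
  (.t t13 ok13) (.h (Helper55.TR.GT.lJ Helper55.CD.D1_m1_c19u_31_3.g 263883083576496646861233003489764914623269727966177231143401061472097022640194227398152162753282803428112102324332323887599868662562792502411050859763086972161026 (by decide +kernel)))

theorem cl7 : Clo K (Helper55.TR.GT (-1) Helper55.TR.BrU) l18 :=
  .i [n0,n0,m2,m2,n1,n0,n0,n2,n0,m1] (e' := [n1,n0,n2,n2,m1,n0,n0,m2,n0,n1]) (by decide +kernel)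
  (by decide +kernel) cl6 (.h (Helper55.TR.GT.lJ Helper55.CD.D1_m1_c19u_31_4.g 266959038304002668948245872786213696600193431661065942657151839115926507551859687654550368555667844472274951662701136254001675227210649278177829420058160384964683719939985411 (by decide +kernel)))

theorem cl8 : Clo K (Helper55.TR.GT (-1) Helper55.TR.BrU) r11 :=
  .q [n0,m1,n0,m1,n0,n0,n1,n1,n0,n0,n1,m1] (e' := [n0,n1,n0,n1,n0,n0,m1,m1,n0,n0,m1,n1]) (.p false [0,0,1] [1] (⟨0,
  [(25,0)]⟩,⟨0,[(38,0)]⟩) .k 1 (⟨0,[]⟩,⟨0,[]⟩) .k .k) (by decide +kernel) (by decide +kernel) cl7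
  (.h (Helper55.TR.GT.lb Helper55.CD.D1_m1_c19u_31_5.g 294505695988603406634458795536852271799756579146307300139204037164486610087771742152446927688909622542892647749543651559812478143851355597749195881911876377716951535849474 (by decide +kernel)))

theorem cl9 : Clo K (Helper55.TR.GT (-1) Helper55.TR.BrU) l10 :=
  .q [n0,n0,m3,n0,n1,n0,n0,n0,n0,n0,n1] (e' := [n0,n0,n3,n0,m1,n0,n0,n0,n0,n0,m1]) (.pp false [-1,1])
  (by decide +kernel) (by decide +kernel) cl5 cl8

theorem cl10 : Clo K (Helper55.TR.GT (-1) Helper55.TR.BrU) l21 :=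
  .q [n0,n0,m1,n0,n0,n0,n2,n0,m1,n0,n0,m2,n1] (e' := [n0,n0,n1,n0,n0,n0,m2,n0,n1,n0,n0,n2,m1]) (.p false [0,0,1] [0,0,-1,
  1] (⟨0,[(25,0)]⟩,⟨0,[(38,0)]⟩) .k 2 (⟨2,[(0,1),(22,0),(10,0)]⟩,⟨0,[(19,0),(5,0)]⟩) .k (.r (-1)
  ⟨11,[(12,3),(3,2),(1,15),(1,0),(1,18),(3,0),(4,10),(4,4)]⟩ ⟨1,[(13,1),(0,0),(20,0),(4,1)]⟩))
  (by decide +kernel) (by decide +kernel) (.h (Helper55.TR.GT.lJ Helper55.CD.D1_m1_c19u_31_6.g 301713314535646084491698441103364681722424680222918237627660123075045059579543190287586321738207493009421601601757499086127042478609102967947514701721420975418019309000074262 (by decide +kernel))) (.h (Helper55.TR.GT.lJ Helper55.CD.D1_m1_c19u_31_7.g 295089284637296083828564344517990146979799873774879836926838241478842425319307706155950078845908437351119845589655712176717043222258830528245292772964855937662589078530 (by decide +kernel)))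

theorem cl11 : Clo K (Helper55.TR.GT (-1) Helper55.TR.BrU) l23 :=
  .i [n1,n0,n0,n0,n0,n0,n0,n1,n0,m2] (e' := [n0,n0,n0,n0,n0,n0,n0,m1,n0,n2]) (by decide +kernel) (by decide +kernel)
  (.t t14 ok14) (.h (Helper55.TR.GT.lJ Helper55.CD.D1_m1_c19u_31_8.g 74081574625973486088847888933194437100737202026538573739387736669351377229530924000649414203612552974733862746551110738598916642450106814736003600336823391356931 (by decide +kernel)))

theorem cl12 : Clo K (Helper55.TR.GT (-1) Helper55.TR.BrU) r25 :=
  .q [n0,n1,n0,n2,n0,n0,m1,m1,n1,n1,n0,n1,m1] (e' := [n0,m1,n0,m2,n0,n0,n1,n1,m1,m1,n0,m1,n1]) (.p false [0,0,-1,1]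
  [] (⟨0,[(4,0),(31,0)]⟩,⟨0,[(21,0),(5,0)]⟩) .k 0 (⟨0,[]⟩,⟨0,[]⟩) .k (.r 0 ⟨3,[(15,3),(0,0),(1,0),
  (7,0),(15,2)]⟩ ⟨5,[(1,2),(12,4),(2,6),(0,0),(1,1),(3,2)]⟩)) (by decide +kernel)
  (by decide +kernel) (.t t16 ok16) (.h (Helper55.TR.GT.lJ Helper55.CD.D1_m1_c19u_31_9.g 324485711755108534289539931767646820737220286277675203453449627029740441056231919104160458088130899670706713463214611421344427066850999950978984428812721291946311434271567409840130 (by decide +kernel)))

theorem cl13 : Clo K (Helper55.TR.GT (-1) Helper55.TR.BrU) r23 :=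
  .q [n0,n0,m1,n0,n0,n0,n2,n0,m1,n0,n0,m2,n1] (e' := [n0,n0,n1,n0,n0,n0,m2,n0,n1,n0,n0,n2,m1]) (.p false [0,0,1] [0,0,-1,
  1] (⟨0,[(26,0)]⟩,⟨0,[(39,0)]⟩) .k 2 (⟨0,[(3,0),(31,0)]⟩,⟨0,[(20,0),(5,0)]⟩) .k (.r (-1) ⟨3,[(0,1),
  (12,1),(3,1),(1,2),(3,4),(5,0)]⟩ ⟨1,[(14,1),(0,0),(20,0),(4,1)]⟩)) (by decide +kernel)
  (by decide +kernel) (.t t15 ok15) cl12

theorem cl14 : Clo K (Helper55.TR.GT (-1) Helper55.TR.BrU) r21 :=
  .i [n1,n0,n0,n0,n0,n0,n0,m1,n0,n2] (e' := [n0,n0,n0,n0,n0,n0,n0,n1,n0,m2]) (by decide +kernel) (by decide +kernel)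
  cl11 cl13

theorem cl15 : Clo K (Helper55.TR.GT (-1) Helper55.TR.BrU) r10 :=
  .q [n0,n0,n0,n0,n0,m1,n0,n0,n0,n0,n0,m1,n1] (e' := [n0,n0,n0,n0,n0,n1,n0,n0,n0,n0,n0,n1,m1]) (.p true [0,0,-1,1] [] (⟨0,
  [(1,0),(31,0)]⟩,⟨0,[(18,0),(5,0)]⟩) .k 0 (⟨0,[]⟩,⟨0,[]⟩) .k (.r 0 ⟨3,[(12,3),(0,0),(1,0),(7,0),
  (15,2)]⟩ ⟨5,[(11,3),(2,4),(0,1),(1,3),(1,2),(1,5),(3,2),(4,2)]⟩)) (by decide +kernel)
  (by decide +kernel) cl10 cl14

theorem cl16 : Clo K (Helper55.TR.GT (-1) Helper55.TR.BrU) r9 :=
  .q [n0,m1,n0,n3,n0,n0,n0,n0,n0,n0,n1] (e' := [n0,n1,n0,m3,n0,n0,n0,n0,n0,n0,m1]) (.pp false [-1,1])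
  (by decide +kernel) (by decide +kernel) cl9 cl15

theorem cl17 : Clo K (Helper55.TR.GT (-1) Helper55.TR.BrU) l8 :=
  .q [n0,n0,n0,n0,n0,n2,n0,n0,n0,n0,n0,n0,m1] (e' := [n0,n0,n0,n0,n0,m2,n0,n0,n0,n0,n0,n0,n1]) (.p false [0,0,0,1] [] (⟨0,
  [(20,0)]⟩,⟨0,[(16,0)]⟩) .k 0 (⟨0,[]⟩,⟨0,[]⟩) .k .k) (by decide +kernel) (by decide +kernel) (.t
  t8 ok8) cl16

theorem cl18 : Clo K (Helper55.TR.GT (-1) Helper55.TR.BrU) l29 :=
  .q [n0,m1,n0,m1,n0,n0,n1,n1,n0,n0,n1,m1] (e' := [n0,n1,n0,n1,n0,n0,m1,m1,n0,n0,m1,n1]) (.p false [0,0,1] [1] (⟨0,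
  [(25,0)]⟩,⟨0,[(38,0)]⟩) .k 1 (⟨0,[]⟩,⟨0,[]⟩) .k .k) (by decide +kernel) (by decide +kernel) (.t
  t18 ok18) (.h (Helper55.TR.GT.lb Helper55.CD.D1_m1_c19u_31_10.g 143282530263956853038785527215023146481901079590337393888200839752540498447171364395836232003649501637727246662757115135705936722816875893787824868507001049743530081107633153 (by decide +kernel)))

theorem cl19 : Clo K (Helper55.TR.GT (-1) Helper55.TR.BrU) l33 :=
  .q [n0,m1,n0,m1,n0,n0,n1,n1,n0,n0,n1,m1] (e' := [n0,n1,n0,n1,n0,n0,m1,m1,n0,n0,m1,n1]) (.p false [0,0,1] [1] (⟨0,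
  [(28,0)]⟩,⟨0,[(41,0)]⟩) .k 1 (⟨0,[]⟩,⟨0,[]⟩) .k .k) (by decide +kernel) (by decide +kernel) (.t
  t20 ok20) (.h (Helper55.TR.GT.lJ Helper55.CD.D1_m1_c19u_31_11.g 224839630118557817027587643430608321749344791793384926992185913420553758524328649598627638499027936882037416051350600788889295886159039717884532307880052739 (by decide +kernel)))

theorem cl20 : Clo K (Helper55.TR.GT (-1) Helper55.TR.BrU) l35 :=
  .i [n0,n0,m2,n0,n1,n2,m1,n0,m1] (e' := [n1,n0,n2,n0,m1,m2,n1,n0,n1]) (by decide +kernel) (by decide +kernel)
  (.t t21 ok21) (.h (Helper55.TR.GT.lJ Helper55.CD.D1_m1_c19u_31_12.g 328127869937196745119105180852146017351327525127974352995469423855184359606781475435033109843459735701340115722040308062064274747218945308312323590180434129290538730676553120622841858 (by decide +kernel)))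

theorem cl21 : Clo K (Helper55.TR.GT (-1) Helper55.TR.BrU) l37 :=
  .q [n0,n0,m1,n0,n0,n0,n2,n0,m1,n0,n0,m2,n1] (e' := [n0,n0,n1,n0,n0,n0,m2,n0,n1,n0,n0,n2,m1]) (.p false [0,0,1] [0,0,-1,
  1] (⟨0,[(30,0)]⟩,⟨0,[(43,0)]⟩) .k 2 (⟨2,[(0,1),(27,0),(10,0)]⟩,⟨0,[(24,0),(5,0)]⟩) .k (.r (-1) ⟨2,
  [(6,2),(10,1),(3,0),(1,0),(3,1),(5,0)]⟩ ⟨3,[(4,1),(14,2),(6,2)]⟩)) (by decide +kernel)
  (by decide +kernel) (.t t22 ok22) (.h (Helper55.TR.GT.lJ Helper55.CD.D1_m1_c19u_31_13.g 32731025266795453257815365509202309718222401931546261552346463701555191827860149865409532114748708441722529314670891744582310397005848640626638571478887952739849025922897488705538 (by decide +kernel)))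

theorem cl22 : Clo K (Helper55.TR.GT (-1) Helper55.TR.BrU) l39 :=
  .q [n0,n0,n0,n2,n0,n0,m1,m1,m1,m1,n0,n1,n1] (e' := [n0,n0,n0,m2,n0,n0,n1,n1,n1,n1,n0,m1,m1]) (.p true [0,0,1,1] []
  (⟨0,[(29,0),(1,0)]⟩,⟨2,[(11,1),(13,0),(14,0)]⟩) .k 0 (⟨0,[]⟩,⟨0,[]⟩) .k (.r (-1) ⟨2,[(18,1),(0,2),
  (2,0),(1,0),(3,1),(5,0)]⟩ ⟨0,[(2,0),(53,0)]⟩)) (by decide +kernel) (by decide +kernel) (.t t23
  ok23) (.h (Helper55.TR.GT.lJ Helper55.CD.D1_m1_c19u_31_14.g 83389092859962071311544604691508191862475050453444689072707159165242801174284797768413035552721855199516467885828905003706126897581723429642904707214092699163232755785080507474 (by decide +kernel)))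

theorem cl23 : Clo K (Helper55.TR.GT (-1) Helper55.TR.BrU) r37 :=
  .q [n0,n0,n0,m1,n0,n0,n1,n1,n1,n1,n0,m1,m1] (e' := [n0,n0,n0,n1,n0,n0,m1,m1,m1,m1,n0,n1,n1]) (.p false [0,0,1,1] []
  (⟨0,[(28,0),(1,0)]⟩,⟨2,[(10,1),(13,0),(14,0)]⟩) .k 0 (⟨0,[]⟩,⟨0,[]⟩) .k (.r (-1) ⟨2,[(17,1),(0,2),
  (2,0),(1,0),(3,1),(5,0)]⟩ ⟨0,[(1,0),(53,0)]⟩)) (by decide +kernel) (by decide +kernel) cl22 (.h
  (Helper55.TR.GT.lJ Helper55.CD.D1_m1_c19u_31_15.g 92289030581307925245703408629264657538125424081282625341504986887663139111578043593166790507063821993700905117428153934850865547254941316516508726285258704377318738946 (by decide +kernel)))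

theorem cl24 : Clo K (Helper55.TR.GT (-1) Helper55.TR.BrU) r35 :=
  .q [n0,n0,n0,n0,n0,m1,n0,n0,n0,n0,n0,m1,n1] (e' := [n0,n0,n0,n0,n0,n1,n0,n0,n0,n0,n0,n1,m1]) (.p true [0,0,-1,1] [] (⟨0,
  [(6,0),(31,0)]⟩,⟨0,[(23,0),(5,0)]⟩) .k 0 (⟨0,[]⟩,⟨0,[]⟩) .k (.r 0 ⟨3,[(3,1),(14,0),(6,0)]⟩ ⟨0,[(5,
  0),(10,0),(2,0)]⟩)) (by decide +kernel) (by decide +kernel) cl21 cl23

theorem cl25 : Clo K (Helper55.TR.GT (-1) Helper55.TR.BrU) r33 :=
  .i [n1,n0,m2,m2,n1,n0,n0,n1,n0,n1] (e' := [n0,n0,n2,n2,m1,n0,n0,m1,n0,m1]) (by decide +kernel)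
  (by decide +kernel) cl20 cl24

theorem cl26 : Clo K (Helper55.TR.GT (-1) Helper55.TR.BrU) l32 :=
  .i [n0,n0,m2,m2,n1,n0,n0,n1,n0,n1] (e' := [n1,n0,n2,n2,m1,n0,n0,m1,n0,m1]) (by decide +kernel)
  (by decide +kernel) cl19 cl25

theorem cl27 : Clo K (Helper55.TR.GT (-1) Helper55.TR.BrU) r31 :=
  .q [n0,n0,n0,m2,n0,n0,n1,n1,n1,n1,n1,m1,m1] (e' := [n0,n0,n0,n2,n0,n0,m1,m1,m1,m1,m1,n1,n1]) (.p false [0,0,1,1]
  [1] (⟨0,[(24,0),(1,0)]⟩,⟨2,[(6,1),(13,0),(14,0)]⟩) .k 1 (⟨0,[]⟩,⟨0,[]⟩) .k (.r (-1) ⟨2,[(13,1),(0,
  2),(2,0),(1,0),(3,1),(5,0)]⟩ ⟨3,[(2,0),(2,0),(9,1),(5,0),(0,1),(7,0),(1,1)]⟩))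
  (by decide +kernel) (by decide +kernel) cl26 (.t t24 ok24)

theorem cl28 : Clo K (Helper55.TR.GT (-1) Helper55.TR.BrU) r29 :=
  .i [n1,n0,n0,n0,n0,n0,n0,n1,n0,m2] (e' := [n0,n0,n0,n0,n0,n0,n0,m1,n0,n2]) (by decide +kernel) (by decide +kernel)
  (.t t19 ok19) cl27

theorem cl29 : Clo K (Helper55.TR.GT (-1) Helper55.TR.BrU) l28 :=
  .i [n0,n1,n0,n0,n0,n0,n0,n1,n0,m1] (e' := [n1,m1,n0,n0,n0,n0,n0,m1,n0,n1]) (by decide +kernel) (by decide +kernel)
  cl18 cl28

theorem cl30 : Clo K (Helper55.TR.GT (-1) Helper55.TR.BrU) l41 :=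
  .i [n1,n0,n2,n2,m1,n0,n0,m2,n0,n1] (e' := [n0,n0,m2,m2,n1,n0,n0,n2,n0,m1]) (by decide +kernel)
  (by decide +kernel) (.t t25 ok25) (.h (Helper55.TR.GT.lJ Helper55.CD.D1_m1_c19u_31_16.g 294956060676057857301122073041198934822398707390147805654020748116550189694460779208953454768569306150801869497195785129675239989324385894294134939019499265940512574466 (by decide +kernel)))

theorem cl31 : Clo K (Helper55.TR.GT (-1) Helper55.TR.BrU) l47 :=
  .q [n0,n0,n0,n2,n0,n0,n1,n1,n2,n2,n1,m1,m2] (e' := [n0,n0,n0,m2,n0,n0,m1,m1,m2,m2,m1,n1,n2]) (.p false [0,0,0,1] [1,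
  0,-1,-1] (⟨0,[(28,0)]⟩,⟨0,[(24,0)]⟩) .k 2 (⟨2,[(10,1),(13,0),(14,0)]⟩,⟨0,[(28,0),(1,0)]⟩) .k (.r
  (-1) ⟨7,[(4,5),(12,4),(0,3),(2,1),(4,0),(0,1),(10,3)]⟩ ⟨39,[(3,13),(4,1),(0,29),(0,13),(8,4),(0,
  19),(1,6),(1,13),(9,13),(1,49)]⟩)) (by decide +kernel) (by decide +kernel) (.t t28 ok28) (.h
  (Helper55.TR.GT.lJ Helper55.CD.D1_m1_c19u_31_17.g 106572332849239398880627736439393003849150323971718453415676254812332535170720791881583938617353172720352433956544409376950079660258781685391608188591942578691867780880937189436837330952 (by decide +kernel)))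

theorem cl32 : Clo K (Helper55.TR.GT (-1) Helper55.TR.BrU) r47 :=
  .q [n0,n0,n0,n0,n0,n0,m1,m1,m2,m2,m1,n1,n2] (e' := [n0,n0,n0,n0,n0,n0,n1,n1,n2,n2,n1,m1,m2]) (.p true [0,0,0,1] [1,0,
  -1,-1] (⟨0,[(28,0)]⟩,⟨0,[(24,0)]⟩) .k 2 (⟨2,[(10,1),(13,0),(14,0)]⟩,⟨0,[(28,0),(1,0)]⟩) .k (.r
  (-1) ⟨7,[(4,5),(12,4),(0,3),(2,1),(4,0),(0,1),(10,3)]⟩ ⟨39,[(3,13),(4,1),(0,29),(0,13),(8,4),(0,
  19),(1,6),(1,13),(9,13),(1,49)]⟩)) (by decide +kernel) (by decide +kernel) (.t t29 ok29) (.h
  (Helper55.TR.GT.lJ Helper55.CD.D1_m1_c19u_31_18.g 312908059760815487007208975253454349556722704845413275881981630242149813835134991317148587575413099273334674045189588865012862205463991058710505542604710730720753984253240280075 (by decide +kernel)))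

theorem cl33 : Clo K (Helper55.TR.GT (-1) Helper55.TR.BrU) r46 :=
  .q [n0,n0,n0,m1,n0,n0,m1,m1,m2,m2,m1,n1,n2] (e' := [n0,n0,n0,n1,n0,n0,n1,n1,n2,n2,n1,m1,m2]) (.p true [0,0,0,1] [1,
  0,-1,-1] (⟨0,[(27,0)]⟩,⟨0,[(23,0)]⟩) .k 2 (⟨2,[(9,1),(13,0),(14,0)]⟩,⟨0,[(27,0),(1,0)]⟩) .k (.r
  (-1) ⟨7,[(3,5),(12,4),(0,3),(2,1),(4,0),(0,1),(10,3)]⟩ ⟨39,[(2,13),(4,1),(0,29),(0,13),(8,4),(0,
  19),(1,6),(1,13),(9,13),(1,49)]⟩)) (by decide +kernel) (by decide +kernel) cl31 cl32

theorem cl34 : Clo K (Helper55.TR.GT (-1) Helper55.TR.BrU) r45 :=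
  .i [n1,n0,m1,m1,n0,n0,n0,m1,n0,m2] (e' := [n0,n0,n1,n1,n0,n0,n0,n1,n0,n2]) (by decide +kernel)
  (by decide +kernel) (.t t27 ok27) cl33

theorem cl35 : Clo K (Helper55.TR.GT (-1) Helper55.TR.BrU) l44 :=
  .q [n0,m1,n0,n3,n0,n0,n0,n0,n0,n0,n1] (e' := [n0,n1,n0,m3,n0,n0,n0,n0,n0,n0,m1]) (.pp false [-1,1])
  (by decide +kernel) (by decide +kernel) (.t t26 ok26) cl34

theorem cl36 : Clo K (Helper55.TR.GT (-1) Helper55.TR.BrU) l43 :=
  .i [n0,n0,m1,n0,n0,n1,n1,n0,n2] (e' := [n1,n0,n1,n0,n0,m1,m1,n0,m2]) (by decide +kernel) (by decide +kernel)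
  cl35 (.h (Helper55.TR.GT.lJ Helper55.CD.D1_m1_c19u_31_19.g 301043872974338133879225701193207413025325997137924899153967997026794062621934194824672365566692585250049612671353210077538919065183460336181066177434009848568896928246539544578 (by decide +kernel)))

theorem cl37 : Clo K (Helper55.TR.GT (-1) Helper55.TR.BrU) l51 :=
  .q [n0,n0,n0,n0,n0,n0,m1,m1,m2,m2,m1,n1,n2] (e' := [n0,n0,n0,n0,n0,n0,n1,n1,n2,n2,n1,m1,m2]) (.p true [0,0,0,1] [1,0,
  -1,-1] (⟨0,[(26,0)]⟩,⟨0,[(22,0)]⟩) .k 2 (⟨2,[(8,1),(13,0),(14,0)]⟩,⟨0,[(26,0),(1,0)]⟩) .k (.r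
  (-1) ⟨8,[(0,1),(11,3),(2,5),(0,13),(2,1),(5,1),(5,1),(7,0),(0,1)]⟩ ⟨7,[(2,5),(12,0),(1,0),(0,5),
  (2,1),(12,3),(0,1)]⟩)) (by decide +kernel) (by decide +kernel) (.t t30 ok30) (.h (Helper55.TR.GT.lJ Helper55.CD.D1_m1_c19u_31_20.g 328733114505584718263271539173368530894418718141903797336653177929976471580974493364048604303942099961621916306059271419041827920720377969584781143277361514356551625569566982147 (by decide +kernel)))

theorem cl38 : Clo K (Helper55.TR.GT (-1) Helper55.TR.BrU) r51 :=
  .q [n0,n0,n0,n2,n0,n0,n1,n1,n2,n2,n1,m1,m2] (e' := [n0,n0,n0,m2,n0,n0,m1,m1,m2,m2,m1,n1,n2]) (.p false [0,0,0,1] [1,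
  0,-1,-1] (⟨0,[(26,0)]⟩,⟨0,[(22,0)]⟩) .k 2 (⟨2,[(8,1),(13,0),(14,0)]⟩,⟨0,[(26,0),(1,0)]⟩) .k (.r
  (-1) ⟨14,[(15,9),(0,29),(2,3),(5,1),(1,1),(3,9),(7,0)]⟩ ⟨7,[(2,5),(12,0),(1,0),(0,5),(2,1),(12,3),
  (0,1)]⟩)) (by decide +kernel) (by decide +kernel) (.t t31 ok31) (.h (Helper55.TR.GT.lJ Helper55.CD.D1_m1_c19u_31_21.g 321062434428360729395561858336136965864250074953699247097730996878376765334521913018981861049435531253289264653012152245224785519844722032043964849262423271830489629653469184 (by decide +kernel)))

theorem cl39 : Clo K (Helper55.TR.GT (-1) Helper55.TR.BrU) l50 :=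
  .q [n0,n0,n0,n1,n0,n0,n1,n1,n2,n2,n1,m1,m2] (e' := [n0,n0,n0,m1,n0,n0,m1,m1,m2,m2,m1,n1,n2]) (.p false [0,0,0,1] [1,
  0,-1,-1] (⟨0,[(25,0)]⟩,⟨0,[(21,0)]⟩) .k 2 (⟨2,[(7,1),(13,0),(14,0)]⟩,⟨0,[(25,0),(1,0)]⟩) .k (.r
  (-1) ⟨14,[(14,9),(0,29),(2,3),(5,1),(1,1),(3,9),(7,0)]⟩ ⟨7,[(1,5),(12,0),(1,0),(0,5),(2,1),(12,3),
  (0,1)]⟩)) (by decide +kernel) (by decide +kernel) cl37 cl38

theorem cl40 : Clo K (Helper55.TR.GT (-1) Helper55.TR.BrU) r43 :=
  .q [n0,n0,m1,n0,n0,n0,n1,n0,n2,n0,n1,m1,m2] (e' := [n0,n0,n1,n0,n0,n0,m1,n0,m2,n0,m1,n1,n2]) (.p false [0,0,0,1] [1,0,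
  -1,-1] (⟨0,[(24,0)]⟩,⟨0,[(20,0)]⟩) .k 2 (⟨2,[(6,1),(13,0),(14,0)]⟩,⟨0,[(24,0),(1,0)]⟩) .k (.r
  (-1) ⟨14,[(13,9),(0,29),(2,3),(5,1),(1,1),(3,9),(7,0)]⟩ ⟨7,[(0,5),(12,0),(1,0),(0,5),(2,1),(12,3),
  (0,1)]⟩)) (by decide +kernel) (by decide +kernel) cl39 (.h (Helper55.TR.GT.lJ Helper55.CD.D1_m1_c19u_31_22.g 305442173686854185080474755876117059973206350462252975681340727422524704328084419309617666419421726140104573564682540351861793350491160771070391670162271353852132880065499139 (by decide +kernel)))

theorem cl41 : Clo K (Helper55.TR.GT (-1) Helper55.TR.BrU) r41 :=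
  .i [n1,n0,n1,n1,n0,n0,n0,n1,n0,n2] (e' := [n0,n0,m1,m1,n0,n0,n0,m1,n0,m2]) (by decide +kernel)
  (by decide +kernel) cl36 cl40

theorem cl42 : Clo K (Helper55.TR.GT (-1) Helper55.TR.BrU) r28 :=
  .i [n1,n0,m2,m2,n1,n0,n0,n2,n0,m1] (e' := [n0,n0,n2,n2,m1,n0,n0,m2,n0,n1]) (by decide +kernel)
  (by decide +kernel) cl30 cl41

theorem cl43 : Clo K (Helper55.TR.GT (-1) Helper55.TR.BrU) r27 :=
  .i [n1,n1,n0,n0,n0,n0,n0,n1,n0,m1] (e' := [n0,m1,n0,n0,n0,n0,n0,m1,n0,n1]) (by decide +kernel) (by decide +kernel)
  cl29 cl42

theorem cl44 : Clo K (Helper55.TR.GT (-1) Helper55.TR.BrU) r8 :=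
  .q [n0,n0,n0,n0,n0,n2,n0,n0,n0,n0,n0,n0,m1] (e' := [n0,n0,n0,n0,n0,m2,n0,n0,n0,n0,n0,n0,n1]) (.p false [0,0,0,1] [] (⟨0,
  [(20,0)]⟩,⟨0,[(16,0)]⟩) .k 0 (⟨0,[]⟩,⟨0,[]⟩) .k .k) (by decide +kernel) (by decide +kernel) (.t
  t17 ok17) cl43

theorem cl45 : Clo K (Helper55.TR.GT (-1) Helper55.TR.BrU) r7 :=
  .q [n0,n0,m2,n0,n1,n0,m1,n0,m1,n0,m1,n1,n1] (e' := [n0,n0,n2,n0,m1,n0,n1,n0,n1,n0,n1,m1,m1]) (.p true [0,0,1,1] [1]
  (⟨0,[(19,0),(1,0)]⟩,⟨2,[(1,1),(13,0),(14,0)]⟩) .k 1 (⟨0,[]⟩,⟨0,[]⟩) .k (.r (-1) ⟨2,[(8,1),(0,2),
  (2,0),(1,0),(3,1),(5,0)]⟩ ⟨3,[(0,1),(9,0),(5,1),(8,1),(1,1),(3,0)]⟩)) (by decide +kernel)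
  (by decide +kernel) cl17 cl44

theorem cl46 : Clo K (Helper55.TR.GT (-1) Helper55.TR.BrU) r6 :=
  .q [n0,m1,n0,n2,n0,n0,n1,n1,n1,n1,n1,m1,m1] (e' := [n0,n1,n0,m2,n0,n0,m1,m1,m1,m1,m1,n1,n1]) (.p false [0,0,1,1]
  [1] (⟨0,[(18,0),(1,0)]⟩,⟨2,[(0,1),(13,0),(14,0)]⟩) .k 1 (⟨0,[]⟩,⟨0,[]⟩) .k (.r (-1) ⟨2,[(7,1),(0,
  2),(2,0),(1,0),(3,1),(5,0)]⟩ ⟨1,[(9,0),(0,0),(4,0),(0,0),(4,0),(4,0)]⟩)) (by decide +kernel)
  (by decide +kernel) (.t t7 ok7) cl45

theorem cl47 : Clo K (Helper55.TR.GT (-1) Helper55.TR.BrU) r5 :=
  .q [n0,n0,n0,n0,n0,n1,n0,n0,n0,n0,m1,n1,n1] (e' := [n0,n0,n0,n0,n0,m1,n0,n0,n0,n0,n1,m1,m1]) (.p true [0,0,1,1] [1] (⟨0,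
  [(17,0),(1,0)]⟩,⟨0,[(2,0),(25,0)]⟩) .k 1 (⟨0,[]⟩,⟨0,[]⟩) .k (.r (-1) ⟨2,[(6,1),(0,2),(2,0),(1,0),
  (3,1),(5,0)]⟩ ⟨1,[(8,0),(0,0),(4,0),(0,0),(4,0),(4,0)]⟩)) (by decide +kernel) (by decide +kernel)
  (.t t6 ok6) cl46

theorem cl48 : Clo K (Helper55.TR.GT (-1) Helper55.TR.BrU) r4 :=
  .q [n0,n0,n2,n0,m1,n0,n1,n0,n0,n0,n1,m1] (e' := [n0,n0,m2,n0,n1,n0,m1,n0,n0,n0,m1,n1]) (.p false [0,0,1] [1] (⟨0,
  [(18,0)]⟩,⟨0,[(31,0)]⟩) .k 1 (⟨0,[]⟩,⟨0,[]⟩) .k .k) (by decide +kernel) (by decide +kernel) (.t
  t5 ok5) cl47

theorem cl49 : Clo K (Helper55.TR.GT (-1) Helper55.TR.BrU) r3 :=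
  .q [n0,m1,n0,n1,n0,n0,n0,n0,m1,m1,n0,n0,n1] (e' := [n0,n1,n0,m1,n0,n0,n0,n0,n1,n1,n0,n0,m1]) (.p true [0,0,0,1] [] (⟨0,
  [(15,0)]⟩,⟨0,[(11,0)]⟩) .k 0 (⟨0,[]⟩,⟨0,[]⟩) .k .k) (by decide +kernel) (by decide +kernel) (.t
  t4 ok4) cl48

theorem cl50 : Clo K (Helper55.TR.GT (-1) Helper55.TR.BrU) r2 :=
  .q [n0,n0,n0,n0,n0,n2,n0,n0,n0,n0,m1,n0,n1] (e' := [n0,n0,n0,n0,n0,m2,n0,n0,n0,n0,n1,n0,m1]) (.p true [0,0,0,1] [1] (⟨0,
  [(14,0)]⟩,⟨0,[(10,0)]⟩) .k 1 (⟨0,[]⟩,⟨0,[]⟩) .k .k) (by decide +kernel) (by decide +kernel) (.t
  t3 ok3) cl49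

theorem cl51 : Clo K (Helper55.TR.GT (-1) Helper55.TR.BrU) r1 :=
  .q [n0,n0,m1,n0,n0,n0,n1,n0,n1,n0,n1,m1,m1] (e' := [n0,n0,n1,n0,n0,n0,m1,n0,m1,n0,m1,n1,n1]) (.p false [0,0,1] [1,0,0,
  -1] (⟨0,[(15,0)]⟩,⟨0,[(28,0)]⟩) .k 2 (⟨0,[(9,0)]⟩,⟨0,[(13,0)]⟩) .k (.r (-1) ⟨2,[(2,1),(0,2),(2,0),
  (1,0),(3,1),(5,0)]⟩ ⟨1,[(4,0),(0,0),(4,0),(0,0),(4,0),(4,0)]⟩)) (by decide +kernel)
  (by decide +kernel) (.t t2 ok2) cl50

theorem cl52 : Clo K (Helper55.TR.GT (-1) Helper55.TR.BrU) r0 :=
  .q [n0,n0,n0,n0,n0,n1,n0,n0,n0,n0,n0,n0,m1] (e' := [n0,n0,n0,n0,n0,m1,n0,n0,n0,n0,n0,n0,n1]) (.ed true [1,-1,0,1] .k)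
  (by decide +kernel) (by decide +kernel) (.t t1 ok1) cl51

theorem cl53 : Clo K (Helper55.TR.GT (-1) Helper55.TR.BrU) base :=
  .q [n0,n0,n0,n1,n0,n0,n0,n0,n1,n1,n1,n0,m1] (e' := [n0,n0,n0,m1,n0,n0,n0,n0,m1,m1,m1,n0,n1]) (.p false [0,0,0,1] [1]
  (⟨0,[(11,0)]⟩,⟨0,[(7,0)]⟩) .k 1 (⟨0,[]⟩,⟨0,[]⟩) .k .k) (by decide +kernel) (by decide +kernel)
  (.t t0 ok0) cl52

theorem g : Helper55.TR.GT (-1) Helper55.TR.BrU base :=
  Helper55.TR.GT.of cl53

end Helper55.CD.D1_m1_c19u_31
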