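import Pool.Agent.Helper55.CE.H_1_m1_c19u_40_b6
import Pool.Agent.Helper55.CE.H_1_m1_c19u_40_b2
import Pool.Agent.Helper55.CE.H_1_m1_c19u_40_b0
import Pool.Agent.Helper55.CE.H_1_m1_c19u_40_b1
import Pool.Agent.Helper55.CE.H_1_m1_c19u_40_b3
import Pool.Agent.Helper55.TR.Num
import Pool.Agent.Helper81.PX.Sound
import Pool.Agent.Helper81.PC.Sound
import Pool.Agent.Helper55.TR.Enc2

set_option autoImplicit false
set_option linter.all false

namespace Helper55.CD.D1_m1_c19u_40_1_0

open Helper25.KG Helper25.KW Helper55.KE Helper11.CT Helper55.TR.Nm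

noncomputable def K : Cls :=
  Helper55.TR.KH (-1) [0,0,1]

noncomputable def base : List Con :=
  [(true,[n1,n1,n0,n0,n0,n0,n0,n0,n0,n1]),
  (true,[n0,n0,n0,n0,n1,n0,n0,n0,n0,n0,m2]),
  (true,[n0,m2,n0,n0,n1]),
  (false,[n0,m1,n0,n1,n0,n0,n1,n1,n0,n0,n0,n0,m1]),
  (false,[n0,n0,n0,m1,n0,n0,n0,n0,m1,m1,n0,n0,n0,n1]),
  (false,[n0,n0,n0,n0,n0,n0,n0,n0,n1,n0,n0,n0,n0,m1]),
  (true,[n1,n0,n0,n0,m1,n0,n0,m1,n0,n1,m2]),
  (true,[n1,n0,n2,n2,m1,n0,n0,m1]),
  (true,[n0,n1,n0,m1]),
  (true,[n0,n0,m2,m2,n1]),
  (false,[n0,n0,n0,n0,n0,n0,n0,n0,n0,n0,n0,n0,n0,n1]),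
  (false,[n0,m1,n0,n0,n0,n0,n1,n1,n0,n0,n0,n1,m1]),
  (false,[n0,n0,m1,n0,n1,n0,m2,n0,n0,n0,n0,m1,n2]),
  (true,[n0,n0,n0,n0,n1,n0,n0,n0,n0,n0,n2]),
  (true,[n0,n0,n0,n1]),
  (true,[n0,n0,n0,n0,n0,n1]),
  (false,[n0,n0,n0,n0,n1,n0,n0,n0,n0,n0,n0,m2]),
  (true,[n1,n0,n2,n2,m1,n0,n0,n0,n0,m1]),
  (true,[n1,n0,n0,n0,n1,n0,n0,n1,n0,m1,n2]),
  (true,[n1,m2,n1]),
  (true,[n0,n0,m2,n0,n1]),
  (false,[n0,n0,n1,n0,n0,n0,m1,n0,n0,n0,n0,m1,n1]),
  (true,[n0,n0,n0,n0,n0,n1,m1,n0,n1]),
  (false,[n0,n0,n0,n0,n0,n0,n0,n0,n0,n0,n0,n1,n0,m1]),
  (true,[n0,m1,n1,n0,n0,n0,n0,n1]),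
  (true,[n1,n0,n0,m1,n0,n0,n0,m1]),
  (false,[n0,n0,n0,n0,n0,n0,n0,n0,n0,n0,n0,n0,n1]),
  (false,[n0,n0,n1,n0,n0,n0,m1,n0,n0,n0,n0,n0,n1]),
  (true,[n1,n0,n2,n0,m1,m2,m1,n0,n2]),
  (false,[n0,n0,n0,n0,n0,m1,n0,n0,n0,n0,n0,n1,n0,m1]),
  (true,[n0,m1,n0,n1,n0,n0,n0,n0,n0,m1]),
  (true,[n1,m1,n0,m1,n0,n0,n0,m1]),
  (false,[n0,n0,n2,n0,m1,n0,n1,n0,n0,n0,n0,n0,m1]),
  (true,[n1,n0,n2,n0,m1,n0,n1,n0,m1]),
  (false,[n0,n0,n0,n0,n0,m1,n0,n0,n0,n0,n0,n1,m1]),
  (true,[n0,n0,m4,m4,n2,n0,n0,n1]),
  (true,[m1,n1]),
  (false,[n0,n0,n0,m2,n0,n0,n1,n1,n0,n0,n0,n0,m1]),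
  (true,[n0,n0,n2,n0,m1,m3,n0,n0,n1]),
  (false,[n0,n0,n0,n0,n0,n0,n0,n0,n0,n0,n0,n1,n0,n0,m1]),
  (false,[n0,n0,n0,n0,n0,m2,n0,n0,n0,n0,n0,n0,n1]),
  (false,[n0,n0,n0,n0,n0,n0,n0,n0,n0,n0,n0,n1,m1]),
  (false,[n0,n1,n1,m1,n0,n0,m1,n0,n0,n0,n0,m1,n1]),
  (false,[n0,n0,n0,n0,n0,n0,n0,n0,n0,n0,n0,n0,n0,n0,n1]),
  (false,[n0,n0,n0,n0,n0,n0,n1,n0,n0,n0,n0,n1,m1]),
  (false,[n0,n0,n0,n0,n0,m1,n0,n0,n0,n0,n0,n1])]

noncomputable def l0 : List Con := (true, [n1,n0,m3,m3,n1,n0,n0,n0,n0,n1,m1]) :: base

noncomputable def r0 : List Con := (true, [n0,n0,n3,n3,m1,n0,n0,n0,n0,m1,n1]) :: base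

noncomputable def l1 : List Con := (true, [n1,n0,n3,n3,m1,n0,n0,n0,n0,m1,n1]) :: l0

noncomputable def r1 : List Con := (true, [n0,n0,m3,m3,n1,n0,n0,n0,n0,n1,m1]) :: l0

noncomputable def l2 : List Con := (true, [n1,n0,m2,m2,n2,n0,n0,n0,n0,n1,n2]) :: r1

noncomputable def r2 : List Con := (true, [n0,n0,n2,n2,m2,n0,n0,n0,n0,m1,m2]) :: r1

noncomputable def l3 : List Con := (true, [n1,n0,n2,n2,m2,n0,n0,n0,n0,m1,m2]) :: l2

noncomputable def r3 : List Con := (true, [n0,n0,m2,m2,n2,n0,n0,n0,n0,n1,n2]) :: l2

noncomputable def l4 : List Con := (true, [n0,n0,n2,n0,m1,n0,n1,n0,m1]) :: r3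

noncomputable def r4 : List Con := (true, [n1,n0,m2,n0,n1,n0,m1,n0,n1]) :: r3

noncomputable def l5 : List Con := (true, [n1,n0,m1,m1,n0,n0,n0,n1,n0,m1,m1]) :: r4

noncomputable def r5 : List Con := (true, [n0,n0,n1,n1,n0,n0,n0,m1,n0,n1,n1]) :: r4

noncomputable def l6 : List Con := (true, [n1,n0,n1,n1,n0,n0,n0,m1,n0,n1,n1]) :: l5

noncomputable def r6 : List Con := (true, [n0,n0,m1,m1,n0,n0,n0,n1,n0,m1,m1]) :: l5

noncomputable def l7 : List Con := (true, [n1,n0,m3,m3,n1,n0,n0,n1,n0,n0,m1]) :: r6

noncomputable def r7 : List Con := (true, [n0,n0,n3,n3,m1,n0,n0,m1,n0,n0,n1]) :: r6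

noncomputable def l8 : List Con := (true, [n1,n0,n3,n3,m1,n0,n0,m1,n0,n0,n1]) :: l7

noncomputable def r8 : List Con := (true, [n0,n0,m3,m3,n1,n0,n0,n1,n0,n0,m1]) :: l7

noncomputable def l9 : List Con := (true, [n0,n0,m4,n0,n2,m1]) :: r8

noncomputable def r9 : List Con := (true, [n1,n0,n4,n0,m2,n1]) :: r8

noncomputable def l10 : List Con := (true, [n1,n0,n1,n1,n2,n0,n0,n0,n0,n0,n5]) :: l9

noncomputable def r10 : List Con := (true, [n0,n0,m1,m1,m2,n0,n0,n0,n0,n0,m5]) :: l9

noncomputable def l11 : List Con := (true, [n1,n0,m1,m1,m2,n0,n0,n0,n0,n0,m5]) :: l10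

noncomputable def r11 : List Con := (true, [n0,n0,n1,n1,n2,n0,n0,n0,n0,n0,n5]) :: l10

noncomputable def l12 : List Con := (false, [n0,n0,n0,n0,n0,n0,n0,n0,n0,n0,n0,m1,n1,m1,n2]) :: r11

noncomputable def r12 : List Con := (true, [n1,n0,n0,n0,n0,n0,n0,n0,n0,n0,n0,n1,m1,n1,m2]) :: r11

noncomputable def l13 : List Con := (false, [n0,n0,n0,n0,n0,n0,n0,n0,n0,n0,n0,n2,m1,n1,m2]) :: l12

noncomputable def r13 : List Con := (true, [n1,n0,n0,n0,n0,n0,n0,n0,n0,n0,n0,m2,n1,m1,n2]) :: l12

noncomputable def l14 : List Con := (false, [n0,n0,n0,n0,n0,n0,n0,n0,n0,n0,n0,n0,m1,n1,m2]) :: r12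

noncomputable def r14 : List Con := (true, [n1,n0,n0,n0,n0,n0,n0,n0,n0,n0,n0,n0,n1,m1,n2]) :: r12

noncomputable def l15 : List Con := (false, [n0,n0,n0,n0,n0,n0,n0,n0,n0,n0,n0,n1,m1,n1,m2]) :: r14

noncomputable def r15 : List Con := (true, [n1,n0,n0,n0,n0,n0,n0,n0,n0,n0,n0,m1,n1,m1,n2]) :: r14

noncomputable def l16 : List Con := (false, [n0,n0,n0,n0,n0,n0,n0,n0,n0,n0,n0,n0,n1,m1,n2]) :: l15

noncomputable def r16 : List Con := (true, [n1,n0,n0,n0,n0,n0,n0,n0,n0,n0,n0,n0,m1,n1,m2]) :: l15

noncomputable def l17 : List Con := (false, [n0,n0,n0,n0,n0,n0,n0,n0,n0,n0,n0,m1,n1,m1,n2]) :: r10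

noncomputable def r17 : List Con := (true, [n1,n0,n0,n0,n0,n0,n0,n0,n0,n0,n0,n1,m1,n1,m2]) :: r10

noncomputable def l18 : List Con := (false, [n0,n0,n0,n0,n0,n0,n0,n0,n0,n0,n0,n2,m1,n1,m2]) :: l17

noncomputable def r18 : List Con := (true, [n1,n0,n0,n0,n0,n0,n0,n0,n0,n0,n0,m2,n1,m1,n2]) :: l17

noncomputable def l19 : List Con := (false, [n0,n0,n0,n0,n0,n0,n0,n0,n0,n0,n0,n0,n1,m1,n2]) :: r17

noncomputable def r19 : List Con := (true, [n1,n0,n0,n0,n0,n0,n0,n0,n0,n0,n0,n0,m1,n1,m2]) :: r17

noncomputable def l20 : List Con := (true, [n1,n0,m1,m1,m2,n0,n0,n0,n0,n0,m5]) :: r9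

noncomputable def r20 : List Con := (true, [n0,n0,n1,n1,n2,n0,n0,n0,n0,n0,n5]) :: r9

noncomputable def l21 : List Con := (true, [n1,n0,n1,n1,n2,n0,n0,n0,n0,n0,n5]) :: l20

noncomputable def r21 : List Con := (true, [n0,n0,m1,m1,m2,n0,n0,n0,n0,n0,m5]) :: l20

noncomputable def l22 : List Con := (true, [n0,n0,n4,n0,m2,n1]) :: l21

noncomputable def r22 : List Con := (true, [n1,n0,m4,n0,n2,m1]) :: l21

noncomputable def l23 : List Con := (false, [n0,n0,n0,n0,n0,n0,n0,n0,n0,n0,n0,m1,n1,m1,n2]) :: r22

noncomputable def r23 : List Con := (true, [n1,n0,n0,n0,n0,n0,n0,n0,n0,n0,n0,n1,m1,n1,m2]) :: r22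

noncomputable def l24 : List Con := (false, [n0,n0,n0,n0,n0,n0,n0,n0,n0,n0,n0,n2,m1,n1,m2]) :: l23

noncomputable def r24 : List Con := (true, [n1,n0,n0,n0,n0,n0,n0,n0,n0,n0,n0,m2,n1,m1,n2]) :: l23

noncomputable def l25 : List Con := (false, [n0,n0,n0,n0,n0,n0,n0,n0,n0,n0,n0,n0,n1,m1,n2]) :: r23

noncomputable def r25 : List Con := (true, [n1,n0,n0,n0,n0,n0,n0,n0,n0,n0,n0,n0,m1,n1,m2]) :: r23

noncomputable def l26 : List Con := (false, [n0,n0,n0,n0,n0,n0,n0,n0,n0,n0,n0,n1,m1,n1,m2]) :: l25

noncomputable def r26 : List Con := (true, [n1,n0,n0,n0,n0,n0,n0,n0,n0,n0,n0,m1,n1,m1,n2]) :: l25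

noncomputable def l27 : List Con := (false, [n0,n0,n0,n0,n0,n0,n0,n0,n0,n0,n0,m1,n1,m1,n2]) :: r21

noncomputable def r27 : List Con := (true, [n1,n0,n0,n0,n0,n0,n0,n0,n0,n0,n0,n1,m1,n1,m2]) :: r21

noncomputable def l28 : List Con := (false, [n0,n0,n0,n0,n0,n0,n0,n0,n0,n0,n0,n2,m1,n1,m2]) :: l27

noncomputable def r28 : List Con := (true, [n1,n0,n0,n0,n0,n0,n0,n0,n0,n0,n0,m2,n1,m1,n2]) :: l27

noncomputable def l29 : List Con := (false, [n0,n0,n0,n0,n0,n0,n0,n0,n0,n0,n0,n0,n1,m1,n2]) :: r27

noncomputable def r29 : List Con := (true, [n1,n0,n0,n0,n0,n0,n0,n0,n0,n0,n0,n0,m1,n1,m2]) :: r27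

noncomputable def l30 : List Con := (false, [n0,n0,n0,n0,n0,n0,n0,n0,n0,n0,n0,n1,m1,n1,m2]) :: l29

noncomputable def r30 : List Con := (true, [n1,n0,n0,n0,n0,n0,n0,n0,n0,n0,n0,m1,n1,m1,n2]) :: l29

noncomputable def l31 : List Con := (false, [n0,n0,n0,n0,n0,n0,n0,n0,n0,n0,n0,m1,n1,m1,n2]) :: r20

noncomputable def r31 : List Con := (true, [n1,n0,n0,n0,n0,n0,n0,n0,n0,n0,n0,n1,m1,n1,m2]) :: r20

noncomputable def l32 : List Con := (false, [n0,n0,n0,n0,n0,n0,n0,n0,n0,n0,n0,n2,m1,n1,m2]) :: l31

noncomputable def r32 : List Con := (true, [n1,n0,n0,n0,n0,n0,n0,n0,n0,n0,n0,m2,n1,m1,n2]) :: l31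

noncomputable def l33 : List Con := (false, [n0,n0,n0,n0,n0,n0,n0,n0,n0,n0,n0,n0,n1,m1,n2]) :: r31

noncomputable def r33 : List Con := (true, [n1,n0,n0,n0,n0,n0,n0,n0,n0,n0,n0,n0,m1,n1,m2]) :: r31

noncomputable def l34 : List Con := (false, [n0,n0,n0,n0,n0,n0,n0,n0,n0,n0,n0,n1,m1,n1,m2]) :: l33

noncomputable def r34 : List Con := (true, [n1,n0,n0,n0,n0,n0,n0,n0,n0,n0,n0,m1,n1,m1,n2]) :: l33

noncomputable def l35 : List Con := (false, [n0,n0,n0,n0,n0,n0,n0,n0,n0,n0,n0,m1,n1,m1,n2]) :: r7

noncomputable def r35 : List Con := (true, [n1,n0,n0,n0,n0,n0,n0,n0,n0,n0,n0,n1,m1,n1,m2]) :: r7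

noncomputable def l36 : List Con := (false, [n0,n0,n0,n0,n0,n0,n0,n0,n0,n0,n0,n2,m1,n1,m2]) :: l35

noncomputable def r36 : List Con := (true, [n1,n0,n0,n0,n0,n0,n0,n0,n0,n0,n0,m2,n1,m1,n2]) :: l35

noncomputable def l37 : List Con := (false, [n0,n0,n0,n0,n0,n0,n0,n0,n0,n0,n0,n0,n1,m1,n2]) :: r35

noncomputable def r37 : List Con := (true, [n1,n0,n0,n0,n0,n0,n0,n0,n0,n0,n0,n0,m1,n1,m2]) :: r35

noncomputable def l38 : List Con := (false, [n0,n0,n0,n0,n0,n0,n0,n0,n0,n0,n0,n1,m1,n1,m2]) :: l37

noncomputable def r38 : List Con := (true, [n1,n0,n0,n0,n0,n0,n0,n0,n0,n0,n0,m1,n1,m1,n2]) :: l37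

noncomputable def l39 : List Con := (true, [n1,n0,n1,n1,m1,n0,n0,n1,n0,m2,m1]) :: r5

noncomputable def r39 : List Con := (true, [n0,n0,m1,m1,n1,n0,n0,m1,n0,n2,n1]) :: r5

noncomputable def l40 : List Con := (true, [n1,n0,m1,m1,n1,n0,n0,m1,n0,n2,n1]) :: l39

noncomputable def r40 : List Con := (true, [n0,n0,n1,n1,m1,n0,n0,n1,n0,m2,m1]) :: l39

noncomputable def l41 : List Con := (false, [n0,n0,n0,n0,n0,n0,n0,n0,n0,n0,n0,m1,n1,m1,n2]) :: r40

noncomputable def r41 : List Con := (true, [n1,n0,n0,n0,n0,n0,n0,n0,n0,n0,n0,n1,m1,n1,m2]) :: r40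

noncomputable def l42 : List Con := (false, [n0,n0,n0,n0,n0,n0,n0,n0,n0,n0,n0,n2,m1,n1,m2]) :: l41

noncomputable def r42 : List Con := (true, [n1,n0,n0,n0,n0,n0,n0,n0,n0,n0,n0,m2,n1,m1,n2]) :: l41

noncomputable def l43 : List Con := (false, [n0,n0,n0,n0,n0,n0,n0,n0,n0,n0,n0,n0,n1,m1,n2]) :: r41

noncomputable def r43 : List Con := (true, [n1,n0,n0,n0,n0,n0,n0,n0,n0,n0,n0,n0,m1,n1,m2]) :: r41

noncomputable def l44 : List Con := (true, [n1,n0,n0,n0,m1,n0,n0,n1,n0,m2,m2]) :: r39

noncomputable def r44 : List Con := (true, [n0,n0,n0,n0,n1,n0,n0,m1,n0,n2,n2]) :: r39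

noncomputable def l45 : List Con := (false, [n0,n0,n0,n0,n0,n0,n0,n0,n0,n0,n0,m1,n1,m1,n2]) :: l44

noncomputable def r45 : List Con := (true, [n1,n0,n0,n0,n0,n0,n0,n0,n0,n0,n0,n1,m1,n1,m2]) :: l44

noncomputable def l46 : List Con := (true, [n1,n0,n0,n0,n1,n0,n0,m1,n0,n2,n2]) :: l45

noncomputable def r46 : List Con := (true, [n0,n0,n0,n0,m1,n0,n0,n1,n0,m2,m2]) :: l45

noncomputable def l47 : List Con := (false, [n0,n0,n0,n0,n0,n0,n0,n0,n0,n0,n0,n2,m1,n1,m2]) :: r46

noncomputable def r47 : List Con := (true, [n1,n0,n0,n0,n0,n0,n0,n0,n0,n0,n0,m2,n1,m1,n2]) :: r46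

noncomputable def l48 : List Con := (true, [n1,n0,n0,n0,n1,n0,n0,m1,n0,n2,n2]) :: r45

noncomputable def r48 : List Con := (true, [n0,n0,n0,n0,m1,n0,n0,n1,n0,m2,m2]) :: r45

noncomputable def l49 : List Con := (false, [n0,n0,n0,n0,n0,n0,n0,n0,n0,n0,n0,n0,n1,m1,n2]) :: r48

noncomputable def r49 : List Con := (true, [n1,n0,n0,n0,n0,n0,n0,n0,n0,n0,n0,n0,m1,n1,m2]) :: r48

noncomputable def l50 : List Con := (true, [n1,n0,m3,m3,m1,n0,n0,n0,n0,n0,m5]) :: r44

noncomputable def r50 : List Con := (true, [n0,n0,n3,n3,n1,n0,n0,n0,n0,n0,n5]) :: r44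

noncomputable def l51 : List Con := (true, [n1,n0,n3,n3,n1,n0,n0,n0,n0,n0,n5]) :: l50

noncomputable def r51 : List Con := (true, [n0,n0,m3,m3,m1,n0,n0,n0,n0,n0,m5]) :: l50

noncomputable def l52 : List Con := (false, [n0,n0,n0,n0,n0,n0,n0,n0,n0,n0,n0,m1,n1,m1,n2]) :: r51

noncomputable def r52 : List Con := (true, [n1,n0,n0,n0,n0,n0,n0,n0,n0,n0,n0,n1,m1,n1,m2]) :: r51

noncomputable def l53 : List Con := (false, [n0,n0,n0,n0,n0,n0,n0,n0,n0,n0,n0,n2,m1,n1,m2]) :: l52

noncomputable def r53 : List Con := (true, [n1,n0,n0,n0,n0,n0,n0,n0,n0,n0,n0,m2,n1,m1,n2]) :: l52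

noncomputable def l54 : List Con := (false, [n0,n0,n0,n0,n0,n0,n0,n0,n0,n0,n0,n0,n1,m1,n2]) :: r52

noncomputable def r54 : List Con := (true, [n1,n0,n0,n0,n0,n0,n0,n0,n0,n0,n0,n0,m1,n1,m2]) :: r52

noncomputable def l55 : List Con := (false, [n0,n0,n0,n0,n0,n0,n0,n0,n0,n0,n0,n1,m1,n1,m2]) :: l54

noncomputable def r55 : List Con := (true, [n1,n0,n0,n0,n0,n0,n0,n0,n0,n0,n0,m1,n1,m1,n2]) :: l54

noncomputable def l56 : List Con := (false, [n0,n0,n0,n0,n0,n0,n0,n0,n0,n0,n0,m1,n1,m1,n2]) :: r50

noncomputable def r56 : List Con := (true, [n1,n0,n0,n0,n0,n0,n0,n0,n0,n0,n0,n1,m1,n1,m2]) :: r50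

noncomputable def l57 : List Con := (false, [n0,n0,n0,n0,n0,n0,n0,n0,n0,n0,n0,n2,m1,n1,m2]) :: l56

noncomputable def r57 : List Con := (true, [n1,n0,n0,n0,n0,n0,n0,n0,n0,n0,n0,m2,n1,m1,n2]) :: l56

noncomputable def l58 : List Con := (false, [n0,n0,n0,n0,n0,n0,n0,n0,n0,n0,n0,n0,n1,m1,n2]) :: r56

noncomputable def r58 : List Con := (true, [n1,n0,n0,n0,n0,n0,n0,n0,n0,n0,n0,n0,m1,n1,m2]) :: r56

noncomputable def l59 : List Con := (false, [n0,n0,n0,n0,n0,n0,n0,n0,n0,n0,n0,n1,m1,n1,m2]) :: l58

noncomputable def r59 : List Con := (true, [n1,n0,n0,n0,n0,n0,n0,n0,n0,n0,n0,m1,n1,m1,n2]) :: l58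

noncomputable def l60 : List Con := (true, [n0,n0,n2,n0,m1,n0,n1,n0,m1]) :: r2

noncomputable def r60 : List Con := (true, [n1,n0,m2,n0,n1,n0,m1,n0,n1]) :: r2

noncomputable def l61 : List Con := (true, [n1,n0,m3,m3,n1,n0,n0,n1,n0,n0,m1]) :: r60

noncomputable def r61 : List Con := (true, [n0,n0,n3,n3,m1,n0,n0,m1,n0,n0,n1]) :: r60

noncomputable def l62 : List Con := (true, [n1,n0,n3,n3,m1,n0,n0,m1,n0,n0,n1]) :: l61

noncomputable def r62 : List Con := (true, [n0,n0,m3,m3,n1,n0,n0,n1,n0,n0,m1]) :: l61

noncomputable def l63 : List Con := (true, [n1,n0,n1,n1,n3,n0,n0,n0,n0,n0,n7]) :: r62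

noncomputable def r63 : List Con := (true, [n0,n0,m1,m1,m3,n0,n0,n0,n0,n0,m7]) :: r62

noncomputable def l64 : List Con := (true, [n0,n0,m6,n0,n3,m1]) :: l63

noncomputable def r64 : List Con := (true, [n1,n0,n6,n0,m3,n1]) :: l63

noncomputable def l65 : List Con := (true, [n1,n0,m1,m1,m3,n0,n0,n0,n0,n0,m7]) :: l64

noncomputable def r65 : List Con := (true, [n0,n0,n1,n1,n3,n0,n0,n0,n0,n0,n7]) :: l64

noncomputable def l66 : List Con := (false, [n0,n0,n0,n0,n0,n0,n0,n0,n0,n0,n0,m1,n1,m1,n2]) :: r65

noncomputable def r66 : List Con := (true, [n1,n0,n0,n0,n0,n0,n0,n0,n0,n0,n0,n1,m1,n1,m2]) :: r65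

noncomputable def l67 : List Con := (false, [n0,n0,n0,n0,n0,n0,n0,n0,n0,n0,n0,n0,n1,m1,n2]) :: r66

noncomputable def r67 : List Con := (true, [n1,n0,n0,n0,n0,n0,n0,n0,n0,n0,n0,n0,m1,n1,m2]) :: r66

noncomputable def l68 : List Con := (false, [n0,n0,n0,n0,n0,n0,n0,n0,n0,n0,n0,n1,m1,n1,m2]) :: l67

noncomputable def r68 : List Con := (true, [n1,n0,n0,n0,n0,n0,n0,n0,n0,n0,n0,m1,n1,m1,n2]) :: l67

noncomputable def l69 : List Con := (true, [n1,n0,m1,m1,m3,n0,n0,n0,n0,n0,m7]) :: r64

noncomputable def r69 : List Con := (true, [n0,n0,n1,n1,n3,n0,n0,n0,n0,n0,n7]) :: r64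

noncomputable def l70 : List Con := (true, [n0,n0,n6,n0,m3,n1]) :: l69

noncomputable def r70 : List Con := (true, [n1,n0,m6,n0,n3,m1]) :: l69

noncomputable def l71 : List Con := (false, [n0,n0,n0,n0,n0,n0,n0,n0,n0,n0,n0,n1,m1,n1,m2]) :: r70

noncomputable def r71 : List Con := (true, [n1,n0,n0,n0,n0,n0,n0,n0,n0,n0,n0,m1,n1,m1,n2]) :: r70

noncomputable def l72 : List Con := (false, [n0,n0,n0,n0,n0,n0,n0,n0,n0,n0,n0,n0,n1,m1,n2]) :: l71

noncomputable def r72 : List Con := (true, [n1,n0,n0,n0,n0,n0,n0,n0,n0,n0,n0,n0,m1,n1,m2]) :: l71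

noncomputable def l73 : List Con := (false, [n0,n0,n0,n0,n0,n0,n0,n0,n0,n0,n0,m1,n1,m1,n2]) :: r71

noncomputable def r73 : List Con := (true, [n1,n0,n0,n0,n0,n0,n0,n0,n0,n0,n0,n1,m1,n1,m2]) :: r71

noncomputable def l74 : List Con := (false, [n0,n0,n0,n0,n0,n0,n0,n0,n0,n0,n0,m1,n1,m1,n2]) :: r69

noncomputable def r74 : List Con := (true, [n1,n0,n0,n0,n0,n0,n0,n0,n0,n0,n0,n1,m1,n1,m2]) :: r69

noncomputable def l75 : List Con := (false, [n0,n0,n0,n0,n0,n0,n0,n0,n0,n0,n0,n0,n1,m1,n2]) :: r74

noncomputable def r75 : List Con := (true, [n1,n0,n0,n0,n0,n0,n0,n0,n0,n0,n0,n0,m1,n1,m2]) :: r74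

noncomputable def l76 : List Con := (false, [n0,n0,n0,n0,n0,n0,n0,n0,n0,n0,n0,n1,m1,n1,m2]) :: l75

noncomputable def r76 : List Con := (true, [n1,n0,n0,n0,n0,n0,n0,n0,n0,n0,n0,m1,n1,m1,n2]) :: l75

noncomputable def l77 : List Con := (false, [n0,n0,n0,n0,n0,n0,n0,n0,n0,n0,n0,m1,n1,m1,n2]) :: r63

noncomputable def r77 : List Con := (true, [n1,n0,n0,n0,n0,n0,n0,n0,n0,n0,n0,n1,m1,n1,m2]) :: r63

noncomputable def l78 : List Con := (true, [n1,n0,n1,n1,n2,n0,n0,n0,n0,n0,n5]) :: r61

noncomputable def r78 : List Con := (true, [n0,n0,m1,m1,m2,n0,n0,n0,n0,n0,m5]) :: r61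

noncomputable def l79 : List Con := (true, [n1,n0,m1,m1,m2,n0,n0,n0,n0,n0,m5]) :: l78

noncomputable def r79 : List Con := (true, [n0,n0,n1,n1,n2,n0,n0,n0,n0,n0,n5]) :: l78

noncomputable def l80 : List Con := (true, [n0,n0,m4,n0,n2,m1]) :: l79

noncomputable def r80 : List Con := (true, [n1,n0,n4,n0,m2,n1]) :: l79

noncomputable def l81 : List Con := (true, [n0,n0,n4,n0,m2,n1]) :: r80

noncomputable def r81 : List Con := (true, [n1,n0,m4,n0,n2,m1]) :: r80

noncomputable def l82 : List Con := (false, [n0,n0,n0,n0,n0,n0,n0,n0,n0,n0,n0,m1,n1,m1,n2]) :: r81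

noncomputable def r82 : List Con := (true, [n1,n0,n0,n0,n0,n0,n0,n0,n0,n0,n0,n1,m1,n1,m2]) :: r81

noncomputable def l83 : List Con := (false, [n0,n0,n0,n0,n0,n0,n0,n0,n0,n0,n0,n0,m1,n1,m2]) :: r82

noncomputable def r83 : List Con := (true, [n1,n0,n0,n0,n0,n0,n0,n0,n0,n0,n0,n0,n1,m1,n2]) :: r82

noncomputable def l84 : List Con := (false, [n0,n0,n0,n0,n0,n0,n0,n0,n0,n0,n0,n0,n1,m1,n2]) :: r83

noncomputable def r84 : List Con := (true, [n1,n0,n0,n0,n0,n0,n0,n0,n0,n0,n0,n0,m1,n1,m2]) :: r83

noncomputable def l85 : List Con := (false, [n0,n0,n0,n0,n0,n0,n0,n0,n0,n0,n0,n1,m1,n1,m2]) :: l84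

noncomputable def r85 : List Con := (true, [n1,n0,n0,n0,n0,n0,n0,n0,n0,n0,n0,m1,n1,m1,n2]) :: l84

noncomputable def l86 : List Con := (false, [n0,n0,n0,n0,n0,n0,n0,n0,n0,n0,n0,n1,m1,n1,m2]) :: r79

noncomputable def r86 : List Con := (true, [n1,n0,n0,n0,n0,n0,n0,n0,n0,n0,n0,m1,n1,m1,n2]) :: r79

noncomputable def l87 : List Con := (false, [n0,n0,n0,n0,n0,n0,n0,n0,n0,n0,n0,n0,n1,m1,n2]) :: l86

noncomputable def r87 : List Con := (true, [n1,n0,n0,n0,n0,n0,n0,n0,n0,n0,n0,n0,m1,n1,m2]) :: l86

noncomputable def l88 : List Con := (false, [n0,n0,n0,n0,n0,n0,n0,n0,n0,n0,n0,m1,n1,m1,n2]) :: r78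

noncomputable def r88 : List Con := (true, [n1,n0,n0,n0,n0,n0,n0,n0,n0,n0,n0,n1,m1,n1,m2]) :: r78

noncomputable def l89 : List Con := (false, [n0,n0,n0,n0,n0,n0,n0,n0,n0,n0,n0,n0,n1,m1,n2]) :: r88

noncomputable def r89 : List Con := (true, [n1,n0,n0,n0,n0,n0,n0,n0,n0,n0,n0,n0,m1,n1,m2]) :: r88

noncomputable def l90 : List Con := (true, [n0,n0,n2,n0,m1,n0,n1,n0,m1]) :: r0

noncomputable def r90 : List Con := (true, [n1,n0,m2,n0,n1,n0,m1,n0,n1]) :: r0

noncomputable def l91 : List Con := (true, [n1,n0,m3,m3,n2,n0,n0,n0,n0,n1,n1]) :: r90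

noncomputable def r91 : List Con := (true, [n0,n0,n3,n3,m2,n0,n0,n0,n0,m1,m1]) :: r90

noncomputable def l92 : List Con := (true, [n1,n0,n3,n3,m2,n0,n0,n0,n0,m1,m1]) :: l91

noncomputable def r92 : List Con := (true, [n0,n0,m3,m3,n2,n0,n0,n0,n0,n1,n1]) :: l91

noncomputable def l93 : List Con := (true, [n0,n0,n4,n0,m2,m3,n0,n0,n1]) :: l92

noncomputable def r93 : List Con := (true, [n1,n0,m4,n0,n2,n3,n0,n0,m1]) :: l92

noncomputable def l94 : List Con := (true, [n0,n0,m4,n0,n2,n3,n0,n0,m1]) :: r93

noncomputable def r94 : List Con := (true, [n1,n0,n4,n0,m2,m3,n0,n0,n1]) :: r93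

noncomputable def l95 : List Con := (true, [n0,n0,n4,n0,m2,n1]) :: r94

noncomputable def r95 : List Con := (true, [n1,n0,m4,n0,n2,m1]) :: r94

noncomputable def l96 : List Con := (true, [n1,n0,m1,m1,m2,n0,n0,n0,n0,n0,m5]) :: l95

noncomputable def r96 : List Con := (true, [n0,n0,n1,n1,n2,n0,n0,n0,n0,n0,n5]) :: l95

noncomputable def l97 : List Con := (true, [n1,n0,n1,n1,n2,n0,n0,n0,n0,n0,n5]) :: l96

noncomputable def r97 : List Con := (true, [n0,n0,m1,m1,m2,n0,n0,n0,n0,n0,m5]) :: l96

noncomputable def l98 : List Con := (true, [n1,n0,m1,m1,m3,n0,n0,n0,n0,n0,m7]) :: r97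

noncomputable def r98 : List Con := (true, [n0,n0,n1,n1,n3,n0,n0,n0,n0,n0,n7]) :: r97

noncomputable def l99 : List Con := (true, [n0,n0,m6,n0,n3,m1]) :: l98

noncomputable def r99 : List Con := (true, [n1,n0,n6,n0,m3,n1]) :: l98

noncomputable def l100 : List Con := (true, [n1,n0,n1,n1,n3,n0,n0,n0,n0,n0,n7]) :: l99

noncomputable def r100 : List Con := (true, [n0,n0,m1,m1,m3,n0,n0,n0,n0,n0,m7]) :: l99

noncomputable def l101 : List Con := (false, [n0,n0,n0,n0,n0,n0,n0,n0,n0,n0,n0,m1,n1,m1,n2]) :: r100

noncomputable def r101 : List Con := (true, [n1,n0,n0,n0,n0,n0,n0,n0,n0,n0,n0,n1,m1,n1,m2]) :: r100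

noncomputable def l102 : List Con := (true, [n1,n0,n1,n1,n3,n0,n0,n0,n0,n0,n7]) :: r99

noncomputable def r102 : List Con := (true, [n0,n0,m1,m1,m3,n0,n0,n0,n0,n0,m7]) :: r99

noncomputable def l103 : List Con := (true, [n0,n0,n6,n0,m3,n1]) :: l102

noncomputable def r103 : List Con := (true, [n1,n0,m6,n0,n3,m1]) :: l102

noncomputable def l104 : List Con := (false, [n0,n0,n0,n0,n0,n0,n0,n0,n0,n0,n0,m1,n1,m1,n2]) :: r103

noncomputable def r104 : List Con := (true, [n1,n0,n0,n0,n0,n0,n0,n0,n0,n0,n0,n1,m1,n1,m2]) :: r103

noncomputable def l105 : List Con := (false, [n0,n0,n0,n0,n0,n0,n0,n0,n0,n0,n0,n0,n1,m1,n2]) :: r104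

noncomputable def r105 : List Con := (true, [n1,n0,n0,n0,n0,n0,n0,n0,n0,n0,n0,n0,m1,n1,m2]) :: r104

noncomputable def l106 : List Con := (false, [n0,n0,n0,n0,n0,n0,n0,n0,n0,n0,n0,n1,m1,n1,m2]) :: l105

noncomputable def r106 : List Con := (true, [n1,n0,n0,n0,n0,n0,n0,n0,n0,n0,n0,m1,n1,m1,n2]) :: l105

noncomputable def l107 : List Con := (false, [n0,n0,n0,n0,n0,n0,n0,n0,n0,n0,n0,n1,m1,n1,m2]) :: r102

noncomputable def r107 : List Con := (true, [n1,n0,n0,n0,n0,n0,n0,n0,n0,n0,n0,m1,n1,m1,n2]) :: r102

noncomputable def l108 : List Con := (false, [n0,n0,n0,n0,n0,n0,n0,n0,n0,n0,n0,n0,n1,m1,n2]) :: l107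

noncomputable def r108 : List Con := (true, [n1,n0,n0,n0,n0,n0,n0,n0,n0,n0,n0,n0,m1,n1,m2]) :: l107

noncomputable def l109 : List Con := (false, [n0,n0,n0,n0,n0,n0,n0,n0,n0,n0,n0,m1,n1,m1,n2]) :: r107

noncomputable def r109 : List Con := (true, [n1,n0,n0,n0,n0,n0,n0,n0,n0,n0,n0,n1,m1,n1,m2]) :: r107

noncomputable def l110 : List Con := (false, [n0,n0,n0,n0,n0,n0,n0,n0,n0,n0,n0,n1,m1,n1,m2]) :: r98

noncomputable def r110 : List Con := (true, [n1,n0,n0,n0,n0,n0,n0,n0,n0,n0,n0,m1,n1,m1,n2]) :: r98

noncomputable def l111 : List Con := (false, [n0,n0,n0,n0,n0,n0,n0,n0,n0,n0,n0,n0,n1,m1,n2]) :: l110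

noncomputable def r111 : List Con := (true, [n1,n0,n0,n0,n0,n0,n0,n0,n0,n0,n0,n0,m1,n1,m2]) :: l110

noncomputable def l112 : List Con := (false, [n0,n0,n0,n0,n0,n0,n0,n0,n0,n0,n0,m1,n1,m1,n2]) :: r96

noncomputable def r112 : List Con := (true, [n1,n0,n0,n0,n0,n0,n0,n0,n0,n0,n0,n1,m1,n1,m2]) :: r96

noncomputable def l113 : List Con := (true, [n1,n0,m1,m1,m2,n0,n0,n0,n0,n0,m5]) :: r95

noncomputable def r113 : List Con := (true, [n0,n0,n1,n1,n2,n0,n0,n0,n0,n0,n5]) :: r95

noncomputable def l114 : List Con := (true, [n1,n0,n1,n1,n2,n0,n0,n0,n0,n0,n5]) :: l113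

noncomputable def r114 : List Con := (true, [n0,n0,m1,m1,m2,n0,n0,n0,n0,n0,m5]) :: l113

noncomputable def l115 : List Con := (true, [n0,n0,m4,n0,n2,m1]) :: l114

noncomputable def r115 : List Con := (true, [n1,n0,n4,n0,m2,n1]) :: l114

noncomputable def l116 : List Con := (false, [n0,n0,n0,n0,n0,n0,n0,n0,n0,n0,n0,m1,n1,m1,n2]) :: r115

noncomputable def r116 : List Con := (true, [n1,n0,n0,n0,n0,n0,n0,n0,n0,n0,n0,n1,m1,n1,m2]) :: r115

noncomputable def l117 : List Con := (false, [n0,n0,n0,n0,n0,n0,n0,n0,n0,n0,n0,n0,n1,m1,n2]) :: r116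

noncomputable def r117 : List Con := (true, [n1,n0,n0,n0,n0,n0,n0,n0,n0,n0,n0,n0,m1,n1,m2]) :: r116

noncomputable def l118 : List Con := (true, [n1,n0,n1,n1,n3,n0,n0,n0,n0,n0,n7]) :: r114

noncomputable def r118 : List Con := (true, [n0,n0,m1,m1,m3,n0,n0,n0,n0,n0,m7]) :: r114

noncomputable def l119 : List Con := (true, [n1,n0,m1,m1,m3,n0,n0,n0,n0,n0,m7]) :: l118

noncomputable def r119 : List Con := (true, [n0,n0,n1,n1,n3,n0,n0,n0,n0,n0,n7]) :: l118

noncomputable def l120 : List Con := (false, [n0,n0,n0,n0,n0,n0,n0,n0,n0,n0,n0,n1,m1,n1,m2]) :: r119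

noncomputable def r120 : List Con := (true, [n1,n0,n0,n0,n0,n0,n0,n0,n0,n0,n0,m1,n1,m1,n2]) :: r119

noncomputable def l121 : List Con := (false, [n0,n0,n0,n0,n0,n0,n0,n0,n0,n0,n0,n0,n1,m1,n2]) :: l120

noncomputable def r121 : List Con := (true, [n1,n0,n0,n0,n0,n0,n0,n0,n0,n0,n0,n0,m1,n1,m2]) :: l120

noncomputable def l122 : List Con := (false, [n0,n0,n0,n0,n0,n0,n0,n0,n0,n0,n0,n0,m1,n1,m2]) :: r121

noncomputable def r122 : List Con := (true, [n1,n0,n0,n0,n0,n0,n0,n0,n0,n0,n0,n0,n1,m1,n2]) :: r121

noncomputable def l123 : List Con := (false, [n0,n0,n0,n0,n0,n0,n0,n0,n0,n0,n0,m1,n1,m1,n2]) :: r120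

noncomputable def r123 : List Con := (true, [n1,n0,n0,n0,n0,n0,n0,n0,n0,n0,n0,n1,m1,n1,m2]) :: r120

noncomputable def l124 : List Con := (false, [n0,n0,n0,n0,n0,n0,n0,n0,n0,n0,n0,n1,m1,n1,m2]) :: r118

noncomputable def r124 : List Con := (true, [n1,n0,n0,n0,n0,n0,n0,n0,n0,n0,n0,m1,n1,m1,n2]) :: r118

noncomputable def l125 : List Con := (false, [n0,n0,n0,n0,n0,n0,n0,n0,n0,n0,n0,n0,n1,m1,n2]) :: l124

noncomputable def r125 : List Con := (true, [n1,n0,n0,n0,n0,n0,n0,n0,n0,n0,n0,n0,m1,n1,m2]) :: l124

noncomputable def l126 : List Con := (false, [n0,n0,n0,n0,n0,n0,n0,n0,n0,n0,n0,m1,n1,m1,n2]) :: r113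

noncomputable def r126 : List Con := (true, [n1,n0,n0,n0,n0,n0,n0,n0,n0,n0,n0,n1,m1,n1,m2]) :: r113

noncomputable def l127 : List Con := (true, [n1,n0,m1,m1,n0,n0,n0,n1,n0,m1,m1]) :: r92

noncomputable def r127 : List Con := (true, [n0,n0,n1,n1,n0,n0,n0,m1,n0,n1,n1]) :: r92

noncomputable def l128 : List Con := (true, [n1,n0,n1,n1,n0,n0,n0,m1,n0,n1,n1]) :: l127

noncomputable def r128 : List Con := (true, [n0,n0,m1,m1,n0,n0,n0,n1,n0,m1,m1]) :: l127

noncomputable def l129 : List Con := (false, [n0,n0,n0,n0,n0,n0,n0,n0,n0,n0,n0,n1,m1,n1,m2]) :: r128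

noncomputable def r129 : List Con := (true, [n1,n0,n0,n0,n0,n0,n0,n0,n0,n0,n0,m1,n1,m1,n2]) :: r128

noncomputable def l130 : List Con := (false, [n0,n0,n0,n0,n0,n0,n0,n0,n0,n0,n0,n0,n1,m1,n2]) :: l129

noncomputable def r130 : List Con := (true, [n1,n0,n0,n0,n0,n0,n0,n0,n0,n0,n0,n0,m1,n1,m2]) :: l129

noncomputable def l131 : List Con := (false, [n0,n0,n0,n0,n0,n0,n0,n0,n0,n0,n0,m1,n1,m1,n2]) :: r129

noncomputable def r131 : List Con := (true, [n1,n0,n0,n0,n0,n0,n0,n0,n0,n0,n0,n1,m1,n1,m2]) :: r129

noncomputable def l132 : List Con := (true, [n1,n0,n2,n2,m2,n0,n0,n0,n0,m1,m2]) :: r127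

noncomputable def r132 : List Con := (true, [n0,n0,m2,m2,n2,n0,n0,n0,n0,n1,n2]) :: r127

noncomputable def l133 : List Con := (true, [n1,n0,m2,m2,n2,n0,n0,n0,n0,n1,n2]) :: l132

noncomputable def r133 : List Con := (true, [n0,n0,n2,n2,m2,n0,n0,n0,n0,m1,m2]) :: l132

noncomputable def l134 : List Con := (false, [n0,n0,n0,n0,n0,n0,n0,n0,n0,n0,n0,n1,m1,n1,m2]) :: r133

noncomputable def r134 : List Con := (true, [n1,n0,n0,n0,n0,n0,n0,n0,n0,n0,n0,m1,n1,m1,n2]) :: r133

noncomputable def l135 : List Con := (false, [n0,n0,n0,n0,n0,n0,n0,n0,n0,n0,n0,n0,n1,m1,n2]) :: l134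

noncomputable def r135 : List Con := (true, [n1,n0,n0,n0,n0,n0,n0,n0,n0,n0,n0,n0,m1,n1,m2]) :: l134

noncomputable def l136 : List Con := (true, [n1,n0,n1,n1,m1,n0,n0,n1,n0,m2,m1]) :: r132

noncomputable def r136 : List Con := (true, [n0,n0,m1,m1,n1,n0,n0,m1,n0,n2,n1]) :: r132

noncomputable def l137 : List Con := (true, [n1,n0,m1,m1,n1,n0,n0,m1,n0,n2,n1]) :: l136

noncomputable def r137 : List Con := (true, [n0,n0,n1,n1,m1,n0,n0,n1,n0,m2,m1]) :: l136

noncomputable def l138 : List Con := (false, [n0,n0,n0,n0,n0,n0,n0,n0,n0,n0,n0,m1,n1,m1,n2]) :: r137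

noncomputable def r138 : List Con := (true, [n1,n0,n0,n0,n0,n0,n0,n0,n0,n0,n0,n1,m1,n1,m2]) :: r137

noncomputable def l139 : List Con := (false, [n0,n0,n0,n0,n0,n0,n0,n0,n0,n0,n0,n2,m1,n1,m2]) :: l138

noncomputable def r139 : List Con := (true, [n1,n0,n0,n0,n0,n0,n0,n0,n0,n0,n0,m2,n1,m1,n2]) :: l138

noncomputable def l140 : List Con := (false, [n0,n0,n0,n0,n0,n0,n0,n0,n0,n0,n0,n0,n1,m1,n2]) :: r138

noncomputable def r140 : List Con := (true, [n1,n0,n0,n0,n0,n0,n0,n0,n0,n0,n0,n0,m1,n1,m2]) :: r138

noncomputable def l141 : List Con := (false, [n0,n0,n0,n0,n0,n0,n0,n0,n0,n0,n0,n1,m1,n1,m2]) :: l140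

noncomputable def r141 : List Con := (true, [n1,n0,n0,n0,n0,n0,n0,n0,n0,n0,n0,m1,n1,m1,n2]) :: l140

noncomputable def l142 : List Con := (false, [n0,n0,n0,n0,n0,n0,n0,n0,n0,n0,n0,m1,n1,m1,n2]) :: r136

noncomputable def r142 : List Con := (true, [n1,n0,n0,n0,n0,n0,n0,n0,n0,n0,n0,n1,m1,n1,m2]) :: r136

noncomputable def l143 : List Con := (false, [n0,n0,n0,n0,n0,n0,n0,n0,n0,n0,n0,n2,m1,n1,m2]) :: l142

noncomputable def r143 : List Con := (true, [n1,n0,n0,n0,n0,n0,n0,n0,n0,n0,n0,m2,n1,m1,n2]) :: l142

noncomputable def l144 : List Con := (true, [n0,n0,m6,n0,n3,m1]) :: r91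

noncomputable def r144 : List Con := (true, [n1,n0,n6,n0,m3,n1]) :: r91

noncomputable def l145 : List Con := (true, [n1,n0,n1,n1,n3,n0,n0,n0,n0,n0,n7]) :: l144

noncomputable def r145 : List Con := (true, [n0,n0,m1,m1,m3,n0,n0,n0,n0,n0,m7]) :: l144

noncomputable def l146 : List Con := (true, [n1,n0,m1,m1,m3,n0,n0,n0,n0,n0,m7]) :: l145

noncomputable def r146 : List Con := (true, [n0,n0,n1,n1,n3,n0,n0,n0,n0,n0,n7]) :: l145

noncomputable def l147 : List Con := (true, [n1,n0,n1,n1,n2,n0,n0,n0,n0,n0,n5]) :: r146

noncomputable def r147 : List Con := (true, [n0,n0,m1,m1,m2,n0,n0,n0,n0,n0,m5]) :: r146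

noncomputable def l148 : List Con := (true, [n1,n0,m1,m1,m2,n0,n0,n0,n0,n0,m5]) :: l147

noncomputable def r148 : List Con := (true, [n0,n0,n1,n1,n2,n0,n0,n0,n0,n0,n5]) :: l147

noncomputable def l149 : List Con := (true, [n0,n0,m4,n0,n2,m1]) :: l148

noncomputable def r149 : List Con := (true, [n1,n0,n4,n0,m2,n1]) :: l148

noncomputable def l150 : List Con := (true, [n0,n0,n4,n0,m2,n1]) :: r149

noncomputable def r150 : List Con := (true, [n1,n0,m4,n0,n2,m1]) :: r149

noncomputable def l151 : List Con := (false, [n0,n0,n0,n0,n0,n0,n0,n0,n0,n0,n0,m1,n1,m1,n2]) :: r150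

noncomputable def r151 : List Con := (true, [n1,n0,n0,n0,n0,n0,n0,n0,n0,n0,n0,n1,m1,n1,m2]) :: r150

noncomputable def l152 : List Con := (false, [n0,n0,n0,n0,n0,n0,n0,n0,n0,n0,n0,n0,n1,m1,n2]) :: r151

noncomputable def r152 : List Con := (true, [n1,n0,n0,n0,n0,n0,n0,n0,n0,n0,n0,n0,m1,n1,m2]) :: r151

noncomputable def l153 : List Con := (false, [n0,n0,n0,n0,n0,n0,n0,n0,n0,n0,n0,n0,m1,n1,m2]) :: r152

noncomputable def r153 : List Con := (true, [n1,n0,n0,n0,n0,n0,n0,n0,n0,n0,n0,n0,n1,m1,n2]) :: r152

noncomputable def l154 : List Con := (false, [n0,n0,n0,n0,n0,n0,n0,n0,n0,n0,n0,m1,n1,m1,n2]) :: r148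

noncomputable def r154 : List Con := (true, [n1,n0,n0,n0,n0,n0,n0,n0,n0,n0,n0,n1,m1,n1,m2]) :: r148

noncomputable def l155 : List Con := (false, [n0,n0,n0,n0,n0,n0,n0,n0,n0,n0,n0,n1,m1,n1,m2]) :: r147

noncomputable def r155 : List Con := (true, [n1,n0,n0,n0,n0,n0,n0,n0,n0,n0,n0,m1,n1,m1,n2]) :: r147

noncomputable def l156 : List Con := (false, [n0,n0,n0,n0,n0,n0,n0,n0,n0,n0,n0,n0,n1,m1,n2]) :: l155

noncomputable def r156 : List Con := (true, [n1,n0,n0,n0,n0,n0,n0,n0,n0,n0,n0,n0,m1,n1,m2]) :: l155

noncomputable def l157 : List Con := (false, [n0,n0,n0,n0,n0,n0,n0,n0,n0,n0,n0,n1,m1,n1,m2]) :: r145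

noncomputable def r157 : List Con := (true, [n1,n0,n0,n0,n0,n0,n0,n0,n0,n0,n0,m1,n1,m1,n2]) :: r145

noncomputable def l158 : List Con := (false, [n0,n0,n0,n0,n0,n0,n0,n0,n0,n0,n0,n0,n1,m1,n2]) :: l157

noncomputable def r158 : List Con := (true, [n1,n0,n0,n0,n0,n0,n0,n0,n0,n0,n0,n0,m1,n1,m2]) :: l157

noncomputable def l159 : List Con := (false, [n0,n0,n0,n0,n0,n0,n0,n0,n0,n0,n0,m1,n1,m1,n2]) :: r157

noncomputable def r159 : List Con := (true, [n1,n0,n0,n0,n0,n0,n0,n0,n0,n0,n0,n1,m1,n1,m2]) :: r157

noncomputable def l160 : List Con := (true, [n1,n0,n1,n1,n3,n0,n0,n0,n0,n0,n7]) :: r144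

noncomputable def r160 : List Con := (true, [n0,n0,m1,m1,m3,n0,n0,n0,n0,n0,m7]) :: r144

noncomputable def l161 : List Con := (true, [n1,n0,m1,m1,m3,n0,n0,n0,n0,n0,m7]) :: l160

noncomputable def r161 : List Con := (true, [n0,n0,n1,n1,n3,n0,n0,n0,n0,n0,n7]) :: l160

noncomputable def l162 : List Con := (true, [n0,n0,n6,n0,m3,n1]) :: l161

noncomputable def r162 : List Con := (true, [n1,n0,m6,n0,n3,m1]) :: l161

noncomputable def l163 : List Con := (false, [n0,n0,n0,n0,n0,n0,n0,n0,n0,n0,n0,m1,n1,m1,n2]) :: r162

noncomputable def r163 : List Con := (true, [n1,n0,n0,n0,n0,n0,n0,n0,n0,n0,n0,n1,m1,n1,m2]) :: r162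

noncomputable def l164 : List Con := (true, [n1,n0,n1,n1,n2,n0,n0,n0,n0,n0,n5]) :: r161

noncomputable def r164 : List Con := (true, [n0,n0,m1,m1,m2,n0,n0,n0,n0,n0,m5]) :: r161

noncomputable def l165 : List Con := (true, [n1,n0,m1,m1,m2,n0,n0,n0,n0,n0,m5]) :: l164

noncomputable def r165 : List Con := (true, [n0,n0,n1,n1,n2,n0,n0,n0,n0,n0,n5]) :: l164

noncomputable def l166 : List Con := (false, [n0,n0,n0,n0,n0,n0,n0,n0,n0,n0,n0,m1,n1,m1,n2]) :: r165

noncomputable def r166 : List Con := (true, [n1,n0,n0,n0,n0,n0,n0,n0,n0,n0,n0,n1,m1,n1,m2]) :: r165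

noncomputable def l167 : List Con := (false, [n0,n0,n0,n0,n0,n0,n0,n0,n0,n0,n0,m1,n1,m1,n2]) :: r164

noncomputable def r167 : List Con := (true, [n1,n0,n0,n0,n0,n0,n0,n0,n0,n0,n0,n1,m1,n1,m2]) :: r164

noncomputable def l168 : List Con := (false, [n0,n0,n0,n0,n0,n0,n0,n0,n0,n0,n0,m1,n1,m1,n2]) :: r160

noncomputable def r168 : List Con := (true, [n1,n0,n0,n0,n0,n0,n0,n0,n0,n0,n0,n1,m1,n1,m2]) :: r160

noncomputable def l169 : List Con := (false, [n0,n0,n0,n0,n0,n0,n0,n0,n0,n0,n0,n0,m1,n1,m2]) :: r168

noncomputable def r169 : List Con := (true, [n1,n0,n0,n0,n0,n0,n0,n0,n0,n0,n0,n0,n1,m1,n2]) :: r168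

noncomputable def l170 : List Con := (false, [n0,n0,n0,n0,n0,n0,n0,n0,n0,n0,n0,n1,m1,n1,m2]) :: r169

noncomputable def r170 : List Con := (true, [n1,n0,n0,n0,n0,n0,n0,n0,n0,n0,n0,m1,n1,m1,n2]) :: r169

noncomputable def t0 : Tre :=
  (.N [0,-3,0,1,-1] (-1) ⟨0,[(1,0)]⟩ ⟨0,[(0,0)]⟩ (.x 1 ⟨0,[(40,0)]⟩ ⟨3,[(3,0),(10,1),(0,0),(1,11),
  (0,0),(3,6),(12,3),(7,3)]⟩))

theorem ok0 : chk K t0 l1 = true := by decide +kernel

noncomputable def t1 : Tre :=
  (.N [0,-2,0,1,2] (-2) ⟨0,[(1,0)]⟩ ⟨0,[(0,0)]⟩ (.x 2 ⟨0,[(26,0),(10,0),(4,0)]⟩ ⟨3,[(5,0),(10,1),(0,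
  0),(1,7),(0,0),(3,10),(12,3),(7,3)]⟩))

theorem ok1 : chk K t1 l3 = true := by decide +kernel

noncomputable def t2 : Tre :=
  (.N [0,0,1,-1,2] (-1) ⟨0,[(23,0)]⟩ ⟨0,[(11,0)]⟩ (.x 1 ⟨0,[(0,0)]⟩ ⟨19,[(6,8),(10,1),(0,8),(2,0),
  (3,22),(1,11),(5,3),(5,3)]⟩))

theorem ok2 : chk K t2 l4 = true := by decide +kernel

noncomputable def t3 : Tre :=
  (.N [0,-1,1,-1,-1] 0 ⟨0,[(1,0)]⟩ ⟨0,[(0,0)]⟩ (.x (-1) ⟨11,[(8,4),(11,4),(2,1),(3,11),(12,11),(0,
  3),(5,3)]⟩ ⟨0,[(29,0)]⟩))

theorem ok3 : chk K t3 l6 = true := by decide +kernel

noncomputable def t4 : Tre :=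
  (.N [0,-3,1,0,-1] (-1) ⟨0,[(1,0)]⟩ ⟨0,[(0,0)]⟩ (.x 1 ⟨0,[(29,0),(12,0),(4,0)]⟩ ⟨3,[(10,0),(10,1),
  (0,0),(1,11),(0,0),(3,2),(20,3)]⟩))

theorem ok4 : chk K t4 l8 = true := by decide +kernel

noncomputable def t5 : Tre :=
  (.N [0,1,0,0,5] (-2) ⟨0,[(1,0)]⟩ ⟨0,[(0,0)]⟩ (.x 1 ⟨88,[(1,11),(11,29),(20,88),(2,3),(1,57),(4,
  53),(0,88),(3,3)]⟩ ⟨0,[(2,0)]⟩))

theorem ok5 : chk K t5 l11 = true := by decide +kernel

noncomputable def t6 : Tre :=
  (.N [0,0,1,-1,2] (-1) ⟨0,[(32,0)]⟩ ⟨0,[(20,0)]⟩ (.i (-1) ⟨0,[(1,0)]⟩ ⟨0,[(0,0)]⟩))

theorem ok6 : chk K t6 l13 = true := by decide +kernel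

open Helper55.PC in
noncomputable def t7n : Helper55.PC.Ten :=
  (s
  1153114257466698115900975174038277076872650058146308493298391190101301453589083242086434881382445229639529838652452884205425128955387809265155421772555117221973031843709555322724233294773895529472345084156412164138917319022315421363285421508116571581116384996544546458199915407195022083051329771773331810257341026842345222057399937385032652694318631764658857065286315574694998464887365306166280628403325629453747475781187498195648649460137958809908851687645973149632659261665026636660448511419978807100831061120961330964729515577635958314130040496612491271488884671228775199946268692058461763975200928622748548432974829598846611153412662920334370700208092340028033)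

noncomputable def t7 : Tre := Helper55.PC.toT t7n

theorem ok7 : chk K t7 r13 = true :=
  Helper55.PC.chkN_sound K t7n r13 (by decide +kernel)

noncomputable def t8 : Tre :=
  (.N [0,0,1,-1,2] (-1) ⟨0,[(32,0)]⟩ ⟨0,[(20,0)]⟩ (.i 1 ⟨0,[(37,0),(2,0),(16,1)]⟩ ⟨0,[(0,0)]⟩))

theorem ok8 : chk K t8 l14 = true := by decide +kernel

noncomputable def t9 : Tre :=
  (.N [0,0,1,-1,2] (-1) ⟨0,[(34,0)]⟩ ⟨0,[(22,0)]⟩ (.i 0 ⟨0,[(0,0)]⟩ ⟨0,[(1,0)]⟩))

theorem ok9 : chk K t9 l16 = true := by decide +kernel

open Helper55.PC in
noncomputable def t10n : Helper55.PC.Ten :=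
  (s
  1153114257466698115900975174038277076872650058146309479535149196686566035302510631446276645305051757129966307745737856182445726258320041544012561479849482717263390895471158602859564032694772095783092767403521285339562792605672410113859352542193652946667514750601498131532515046830463472643898180547727030121412008375111443508679354850681981912638123090881006123380189332486572361909234160445375148479160733980806245256070655641412780811284064142484274373982680632267070560706996628490600741112409620769554261431702744208565629490325945194056213932071727456887433571464264793235501784067730063255039641430674766865855077999478136470944662566045053208746118211437185)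

noncomputable def t10 : Tre := Helper55.PC.toT t10n

theorem ok10 : chk K t10 r16 = true :=
  Helper55.PC.chkN_sound K t10n r16 (by decide +kernel)

open Helper55.PC in
noncomputable def t11n : Helper55.PC.Ten :=
  (s
  52945721550639975699471926058769343432227690916102746705662257414478308572025104695384253854243641972521318621015006334111659656578599903851027495623000935590679500022465172345062488205313883230521678424868237157415670744994876925175740184648463088156610856403498528444985581281176839337474151589235590141543702789585179368433508081490531381225215935504731653584800587184461034365214192522024433336532766034578193477966556195282287787904116514364233632157655950015686217375997491282581501597021077886719824613317445722471147697599189066109311531174839118077781927558456222495007668876943550778541051458860207064727549477709577565637903637525255601461948331905856419719019496065)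

noncomputable def t11 : Tre := Helper55.PC.toT t11n

theorem ok11 : chk K t11 r15 = true :=
  Helper55.PC.chkN_sound K t11n r15 (by decide +kernel)

noncomputable def t12 : Tre :=
  (.N [0,0,1,-1,2] (-1) ⟨0,[(31,0)]⟩ ⟨0,[(19,0)]⟩ (.i (-1) ⟨0,[(1,0)]⟩ ⟨0,[(0,0)]⟩))

theorem ok12 : chk K t12 l18 = true := by decide +kernel

open Helper55.PC in
noncomputable def t13n : Helper55.PC.Ten :=
  (s
  7532770792498929891362226918823077884216419389822428428858585832901248923081064110898997594261427850558625163315021071583943036890952981175902840546468525347469304137124759648411038621036199441830720599546430428007036700830608000710540946204061298807180699301093570019160711802909468435446109446917152565037193714924266277550222418752386219657033443977323142435700240123712436683695424800830605998218383030300933472636917123743598523001522837356134434598402186983801992235631573888296647257905956569622087427577815643847436371277265522811695987747221874725081803985747188990054757374526164453096378093011585)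

noncomputable def t13 : Tre := Helper55.PC.toT t13n

theorem ok13 : chk K t13 r18 = true :=
  Helper55.PC.chkN_sound K t13n r18 (by decide +kernel)

open Helper55.PC in
noncomputable def t14n : Helper55.PC.Ten :=
  (s
  2118153625090096456613759938509385126464591867006822403233338035110716065001510005275560823743278683860082580940095359973392167991913047642765959986703525561751581922237175348716545621251045508536853233381780704842920834164740981993062288373114658662005836910275513976794994837561526448034519497033499178158333781932196534971340894975900217498255459073453645269491281652649562222341783142991206806467504303518511309088776712343180783843367892821496030398126457019827331261060126211141864748872377626700088378325955459945636801756832236288289139020956338707669155739584070828464034352314663079879322358209446205777654055553)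

noncomputable def t14 : Tre := Helper55.PC.toT t14n

theorem ok14 : chk K t14 l19 = true :=
  Helper55.PC.chkN_sound K t14n l19 (by decide +kernel)

open Helper55.PC in
noncomputable def t15n : Helper55.PC.Ten :=
  (s
  7532770792498929891362226918823077884216419389822428428858585832901248923081064110898997594261427850558625163315021071583943036890952981175902840546468525347469304137124759648411038621036199441830720599546430428007036700830608000710540946204061298807180699301093570019160711802909468435446109446917152565037193714924266277550222418752386219657033443977323142435700240123712436683695424800830605998218383030300933472636917123743598523001522837356134434598402186983801992235631573888296647257905956569622087427577815643847436371277265522811695987747221874725081803985747188990054757374526164453096378093011585)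

noncomputable def t15 : Tre := Helper55.PC.toT t15n

theorem ok15 : chk K t15 r19 = true :=
  Helper55.PC.chkN_sound K t15n r19 (by decide +kernel)

noncomputable def t16 : Tre :=
  (.N [0,1,0,0,5] (-2) ⟨0,[(1,0)]⟩ ⟨0,[(2,0)]⟩ (.x 2 ⟨0,[(0,0)]⟩ ⟨11,[(1,1),(12,4),(7,0),(6,1),(3,
  23),(13,3),(5,3)]⟩))

theorem ok16 : chk K t16 l22 = true := by decide +kernel

noncomputable def t17 : Tre :=
  (.N [0,0,1,-1,2] (-1) ⟨0,[(33,0)]⟩ ⟨0,[(21,0)]⟩ (.i (-1) ⟨0,[(1,0)]⟩ ⟨0,[(0,0)]⟩))

theorem ok17 : chk K t17 l24 = true := by decide +kernel

open Helper55.PC in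
noncomputable def t18n : Helper55.PC.Ten :=
  (s
  75570495977337527723686309005772526509926270996255230668141469118361301606766845539863032049853012724008484044310283671181892575310033768575475595605931863732641013300445712063038826974513925415090962292143383449483245207051068192233430071837429999025441401223559453372896261575218826760128629214384383435677927407399116860563351694906788412552314127576801291771874868494152635629156795977209836794686051907572508635869406258054977886066601648866207542296901271165596297801008187512017731068022480381193955796742062592999265002122146691651295748612449483937575831934653622588803055330001860266535675606939698237010263162071034083222692805400853051560225088309694562945)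

noncomputable def t18 : Tre := Helper55.PC.toT t18n

theorem ok18 : chk K t18 r24 = true :=
  Helper55.PC.chkN_sound K t18n r24 (by decide +kernel)

noncomputable def t19 : Tre :=
  (.N [0,0,1,-1,2] (-1) ⟨0,[(34,0)]⟩ ⟨0,[(22,0)]⟩ (.i 0 ⟨0,[(1,0)]⟩ ⟨0,[(0,0)]⟩))

theorem ok19 : chk K t19 l26 = true := by decide +kernel

open Helper81.PXd in
noncomputable def t20n : Helper81.PXd.Ten :=
  (s
  3209459716930441937865907679506107428718424044654761307539207243686100751443967864939226590702268015752655747206323829465178562045364721009035630114401042962311855732951682475456893276828920835826035936272878889806163770841871458495502153209641677187094442044003278516993516493287744830201018177174631212975189056709171373624484944226669013264969001528018148665332589467622207125605306233493716553451659674231291538979763259221563168271771295530500316584629187139794302467155340151089158912671103355081266039686460707347815396973128802187834547165318874119529962582516427569656074519425156398002850574218255826053973266009690932825554751678240814290222767293356864322501993767309825340750801980834404998262511205770660927616123151934128316903148884900376669035955738362657065542260817105105065732587257692525058205839157199546678053273598446962954566189592507390465127623689217926831420094220653287118204486895254187317648121139251118721)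

noncomputable def t20 : Tre := Helper81.PXd.toT t20n

theorem ok20 : chk K t20 r26 = true :=
  Helper81.PXd.chkN_sound K t20n r26 (by decide +kernel)

open Helper55.PC in
noncomputable def t21n : Helper55.PC.Ten :=
  (s
  75570495977337527723686309005772526509926270996255230668141469118361301606766845539863032049853012724008484044310283671181892575310033768575475595605931863732641013300445712063038826974513925415090962292143383449483245207051068192233430071837429999025441401223559453372896261575218826760128629214384383435677927407399116860563351694906788412552314127576801291771874868494152635629156795977209836794686051907572508635869406258054977886066601648866207542296901271165596297801008187512017731068022480381193955796742062592999265002122146691651295748612449483937575831934653622588803055330001860266535675606939698237010263162071034083222692805400853051560225088309694562945)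

noncomputable def t21 : Tre := Helper55.PC.toT t21n

theorem ok21 : chk K t21 r25 = true :=
  Helper55.PC.chkN_sound K t21n r25 (by decide +kernel)

noncomputable def t22 : Tre :=
  (.N [0,0,1,-1,2] (-1) ⟨0,[(32,0)]⟩ ⟨0,[(20,0)]⟩ (.i (-1) ⟨0,[(1,0)]⟩ ⟨0,[(0,0)]⟩))

theorem ok22 : chk K t22 l28 = true := by decide +kernel

open Helper55.PC in
noncomputable def t23n : Helper55.PC.Ten :=
  (s
  493667666657209869387046904242384243548907779700868500169577028560620539352530810132791980810196920773949027888304918051494876331367667943128927883667104506797224059796896262437042275805395127384847918922269168024842065851867248036008462697511705333112707426439827525356929303004706120516321762491925576301131210251209208790667243036350719822314781487801806708759143303443202196054682124255371710239339723277423755791848353161128191987952040988222834496038388819028831966385514797004727725507369519394652243142002307784979258160601915720106793991184969005654978424184691441557963048247021514038412321193450275457)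

noncomputable def t23 : Tre := Helper55.PC.toT t23n

theorem ok23 : chk K t23 r28 = true :=
  Helper55.PC.chkN_sound K t23n r28 (by decide +kernel)

noncomputable def t24 : Tre :=
  (.N [0,0,1,-1,2] (-1) ⟨0,[(33,0)]⟩ ⟨0,[(21,0)]⟩ (.i 0 ⟨0,[(1,0)]⟩ ⟨0,[(0,0)]⟩))

theorem ok24 : chk K t24 l30 = true := by decide +kernel

open Helper55.PC in
noncomputable def t25n : Helper55.PC.Ten :=
  (s
  11745982167629837422040076117086234714510487566205150807605652949686510014852026214327569447678084904616895850044393930963131956831929520675760711813631582924589028247467919220275888708261791931316184876513803587022834889611804663428022864331686583196879251456014797487796303919998779187589687524006432408255487063093031871081174832133247358045770171797449572028783045219255092195974013976147666478981651016169161834306690874956989055916774657648338869513543469629991609613121490834464776304029772570680857021887990271596323772259411547959505907085132917059151867485291934291708783600108846917343279803996404350144930930381156290448530321396487695630977)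

noncomputable def t25 : Tre := Helper55.PC.toT t25n

theorem ok25 : chk K t25 r30 = true :=
  Helper55.PC.chkN_sound K t25n r30 (by decide +kernel)

open Helper55.PC in
noncomputable def t26n : Helper55.PC.Ten :=
  (s
  493667666657209869387046904242384243548907779700868500169577028560620539352530810132791980810196920773949027888304918051494876331367667943128927883667104506797224059796896262437042275805395127384847918922269168024842065851867248036008462697511705333112707426439827525356929303004706120516321762491925576301131210251209208790667243036350719822314781487801806708759143303443202196054682124255371710239339723277423755791848353161128191987952040988222834496038388819028831966385514797004727725507369519394652243142002307784979258160601915720106793991184969005654978424184691441557963048247021514038412321193450275457)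

noncomputable def t26 : Tre := Helper55.PC.toT t26n

theorem ok26 : chk K t26 r29 = true :=
  Helper55.PC.chkN_sound K t26n r29 (by decide +kernel)

noncomputable def t27 : Tre :=
  (.N [0,0,1,-1,2] (-1) ⟨0,[(31,0)]⟩ ⟨0,[(19,0)]⟩ (.i (-1) ⟨0,[(1,0)]⟩ ⟨0,[(0,0)]⟩))

theorem ok27 : chk K t27 l32 = true := by decide +kernel

open Helper55.PC in
noncomputable def t28n : Helper55.PC.Ten :=
  (s
  138955094975142037521103909693567436651975234881691219573049722435872493173620868371403892935511179719375996477152964535003542099752272021141233122217779057297109464383588156528375878518745349384366144203359346800184864497479744327759231240389342591696669174301561374081985944975033963421593405719644030012463153264463734125903243559946887432092512245758479317066739306326323604206542066791931814509185401828593811181535100640616628118206348116881184438722555386451493965371861523704290343513098315786808084170893165199148241708320492301415970973494787932750439601363524388268625954564644334540886616688286752745834290382635649)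

noncomputable def t28 : Tre := Helper55.PC.toT t28n

theorem ok28 : chk K t28 r32 = true :=
  Helper55.PC.chkN_sound K t28n r32 (by decide +kernel)

noncomputable def t29 : Tre :=
  (.N [0,0,1,-1,2] (-1) ⟨0,[(32,0)]⟩ ⟨0,[(20,0)]⟩ (.i 0 ⟨0,[(1,0)]⟩ ⟨0,[(0,0)]⟩))

theorem ok29 : chk K t29 l34 = true := by decide +kernel

open Helper81.PXd in
noncomputable def t30n : Helper81.PXd.Ten :=
  (s
  4283323369336758047239067798216036794763174750698235603504502064793144087079763758642263626655518786513429954725580334164334695850654406596742680684342993458223557342430573251445012049634957223788748506607319868092887582785725416749272933186926046280260148254298244574515342950648986851776124487982390583189719461949785585617738333330209341338009865264190108675851831351210966936208995686585549472491107909634126950003284641887295975446518419995604772949666879790303393614067940876374357544800655040327293071541070909627758410310049392557750184884923333333875513944003992666137172614831226756337154791569179951800204606132730961962245693357854948831643677879164544260297408294024020223582875635799330242430222469042447235992773744300069408341446406578112651349546390933048358359975389435610228784615866119327714658711939455247290638069059931228837803596085576512396329601)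

noncomputable def t30 : Tre := Helper81.PXd.toT t30n

theorem ok30 : chk K t30 r34 = true :=
  Helper81.PXd.chkN_sound K t30n r34 (by decide +kernel)

open Helper55.PC in
noncomputable def t31n : Helper55.PC.Ten :=
  (s
  138955094975142037521103909693567436651975234881691219573049722435872493173620868371403892935511179719375996477152964535003542099752272021141233122217779057297109464383588156528375878518745349384366144203359346800184864497479744327759231240389342591696669174301561374081985944975033963421593405719644030012463153264463734125903243559946887432092512245758479317066739306326323604206542066791931814509185401828593811181535100640616628118206348116881184438722555386451493965371861523704290343513098315786808084170893165199148241708320492301415970973494787932750439601363524388268625954564644334540886616688286752745834290382635649)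

noncomputable def t31 : Tre := Helper55.PC.toT t31n

theorem ok31 : chk K t31 r33 = true :=
  Helper55.PC.chkN_sound K t31n r33 (by decide +kernel)

noncomputable def t32 : Tre :=
  (.N [0,0,1,-1,2] (-1) ⟨0,[(28,0)]⟩ ⟨0,[(16,0)]⟩ (.i (-1) ⟨0,[(1,0)]⟩ ⟨0,[(0,0)]⟩))

theorem ok32 : chk K t32 l36 = true := by decide +kernel

open Helper55.PC in
noncomputable def t33n : Helper55.PC.Ten :=
  (s
  19739900185918814751397117305855449653275151487579161024913246625637522159285126652041559151504327711962691714884694660449162345033294126766539461121260431448374545188758701726454330309262222953971041247117157496178596742965648039893709184466376531347157427766806178095532688323866163023883755892594324967189031574766490441570707466785090655466823917732449544979982139484236880469691513644596958623838614984029145053275127351057173121655400306207462359336009383215035096436286409472778908005808088167159417392423159278073697044076275362778158352184745145648369860361226899986141944997842966582316769568803837243874577703565823022934849622685435323205188321921)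

noncomputable def t33 : Tre := Helper55.PC.toT t33n

theorem ok33 : chk K t33 r36 = true :=
  Helper55.PC.chkN_sound K t33n r36 (by decide +kernel)

noncomputable def t34 : Tre :=
  (.N [0,0,1,-1,2] (-1) ⟨0,[(29,0)]⟩ ⟨0,[(17,0)]⟩ (.i 0 ⟨0,[(1,0)]⟩ ⟨0,[(0,0)]⟩))

theorem ok34 : chk K t34 l38 = true := by decide +kernel

open Helper55.PC in
noncomputable def t35n : Helper55.PC.Ten :=
  (s
  769784687337788869015382520313743106294568783454331504452825450188286141671608962471918615062641257676099915207251189394048224256244608191602644937756256719589261595752266365545539678715073874253649030836911452184388348874722733223223708254799294192005705873006800725784726835156108731248847898161433312311274857054252682668779052432373494515508705372951207141346044937014574029764393463470911398432031002223229660995872178552045010496943251478323708600931378550729985277013928224421309719228633089459465110353103100544993040690482870499558205572506864138560498162827885397878218262741885045983711913086872620121778792272943891057490470859120912599127949953)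

noncomputable def t35 : Tre := Helper55.PC.toT t35n

theorem ok35 : chk K t35 r38 = true :=
  Helper55.PC.chkN_sound K t35n r38 (by decide +kernel)

open Helper55.PC in
noncomputable def t36n : Helper55.PC.Ten :=
  (s
  19739900185918814751397117305855449653275151487579161024913246625637522159285126652041559151504327711962691714884694660449162345033294126766539461121260431448374545188758701726454330309262222953971041247117157496178596742965648039893709184466376531347157427766806178095532688323866163023883755892594324967189031574766490441570707466785090655466823917732449544979982139484236880469691513644596958623838614984029145053275127351057173121655400306207462359336009383215035096436286409472778908005808088167159417392423159278073697044076275362778158352184745145648369860361226899986141944997842966582316769568803837243874577703565823022934849622685435323205188321921)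

noncomputable def t36 : Tre := Helper55.PC.toT t36n

theorem ok36 : chk K t36 r37 = true :=
  Helper55.PC.chkN_sound K t36n r37 (by decide +kernel)

noncomputable def t37 : Tre :=
  (.N [0,1,1,-2,-1] 1 ⟨0,[(1,0)]⟩ ⟨0,[(0,0)]⟩ (.x (-2) ⟨3,[(9,0),(10,1),(0,0),(1,3),(0,0),(3,10),
  (12,7),(7,3)]⟩ ⟨3,[(30,1),(3,0),(1,2),(3,0)]⟩))

theorem ok37 : chk K t37 l40 = true := by decide +kernel

noncomputable def t38 : Tre :=
  (.N [0,0,1,-1,2] (-1) ⟨0,[(28,0)]⟩ ⟨0,[(16,0)]⟩ (.i (-1) ⟨0,[(1,0)]⟩ ⟨0,[(0,0)]⟩))

theorem ok38 : chk K t38 l42 = true := by decide +kernel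

open Helper55.PC in
noncomputable def t39n : Helper55.PC.Ten :=
  (s
  141788483466071710079779608089664357550404086943975881154940873807451321630753579443654955714685983904534138710848501417157843864132110969138266796749573916294417724760485157944087362738759777188618059935545365563713430951581778193811916483391086889955248572277310699304605349592226578012666127313266088869360397065015014657008399310552834997956770517696667288553478737135168961500247139218759738031903895134930080379513596845893658740223671084190738323687939707114027913076547428679313645737991731809859007643109266746759418343972927801630107115929252938858013394159314506695340944442839542934813131251351068417704307445117224392108787410605443283034131051368678017)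

noncomputable def t39 : Tre := Helper55.PC.toT t39n

theorem ok39 : chk K t39 r42 = true :=
  Helper55.PC.chkN_sound K t39n r42 (by decide +kernel)

open Helper55.PC in
noncomputable def t40n : Helper55.PC.Ten :=
  (s
  2734824588436129140044200712236739896679574888374343513675070875594740863625929532350898564790996108820479130546605406763997382838763127712829687877318839385783103545126655587034185084166412156510018214248516084863208201805018852595733701918634637689785908397572606745177349150810986891674402178481501143367835062946794287287306415243897770548245121112548426661056464112685068455298696546880782386044531760945202669242008424204687904623742812240064371945587197805987225784925954138248115484872738757717053051004298202561065120823209743331836468380154203583440888473192110680281243070283664310617488478957437791331108008636693378495201472938625)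

noncomputable def t40 : Tre := Helper55.PC.toT t40n

theorem ok40 : chk K t40 l43 = true :=
  Helper55.PC.chkN_sound K t40n l43 (by decide +kernel)

open Helper55.PC in
noncomputable def t41n : Helper55.PC.Ten :=
  (s
  141788483466071710079779608089664357550404086943975881154940873807451321630753579443654955714685983904534138710848501417157843864132110969138266796749573916294417724760485157944087362738759777188618059935545365563713430951581778193811916483391086889955248572277310699304605349592226578012666127313266088869360397065015014657008399310552834997956770517696667288553478737135168961500247139218759738031903895134930080379513596845893658740223671084190738323687939707114027913076547428679313645737991731809859007643109266746759418343972927801630107115929252938858013394159314506695340944442839542934813131251351068417704307445117224392108787410605443283034131051368678017)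

noncomputable def t41 : Tre := Helper55.PC.toT t41n

theorem ok41 : chk K t41 r43 = true :=
  Helper55.PC.chkN_sound K t41n r43 (by decide +kernel)

noncomputable def t42 : Tre :=
  (.N [0,0,1,-2,-2] 1 ⟨0,[(2,0)]⟩ ⟨0,[(0,0)]⟩ (.x (-2) ⟨31,[(0,3),(10,7),(2,3),(7,13),(1,3),(1,8),
  (1,3),(1,84),(2,3),(9,59),(7,27)]⟩ ⟨1,[(32,1),(3,0),(1,0),(3,0)]⟩))

theorem ok42 : chk K t42 l46 = true := by decide +kernel

noncomputable def t43 : Tre :=
  (.N [0,0,1,-1,2] (-1) ⟨0,[(29,0)]⟩ ⟨0,[(17,0)]⟩ (.i (-1) ⟨0,[(2,0)]⟩ ⟨0,[(0,0)]⟩))

theorem ok43 : chk K t43 l47 = true := by decide +kernel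

open Helper55.PC in
noncomputable def t44n : Helper55.PC.Ten :=
  (s
  33012703868111528009124940282121386063944693296268777002570481460987880597517744522553496981309093263835626144871756824249642112001572632226875377770209632768196751409547050476454399091107812615154386378999448167812014864630388120756084972471932009507897527349938272061975044361636485652651926462544004524231581218998797330935582174462431565711046849978820663663157186067632628079433151260453186845582156377718563103479571878389861500864409733562001662475912963369524907631012203272275016292161368491071952256490500873356204206058574641239484820320057069192062357787452637596470506531396765880965183574461673745403849745403387257938739129094974191661220481)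

noncomputable def t44 : Tre := Helper55.PC.toT t44n

theorem ok44 : chk K t44 r47 = true :=
  Helper55.PC.chkN_sound K t44n r47 (by decide +kernel)

noncomputable def t45 : Tre :=
  (.N [0,0,1,-2,-2] 1 ⟨0,[(2,0)]⟩ ⟨0,[(0,0)]⟩ (.x (-2) ⟨31,[(0,3),(10,7),(2,3),(7,13),(1,3),(1,8),
  (1,3),(1,84),(2,3),(9,59),(7,27)]⟩ ⟨1,[(32,1),(3,0),(1,0),(3,0)]⟩))

theorem ok45 : chk K t45 l48 = true := by decide +kernel

open Helper55.PC in
noncomputable def t46n : Helper55.PC.Ten :=
  (s
  14200021119180716937307248897639875624702056787351026895168288889590614324032413573840305343944901886327174543555214720727670304288979832305026658309104252202699944371857903811837000998732537938849504623849750437064354863553524691985839756812881263060543086255916885895820487082071659996447953194609213892143673534929502321378195596103448439991658228567341320383875304941220297025690300232812081708843800894376363256690400007267047687647331531547456062363147471122259613632953223991732866942976750406667967177171931053801707723847742537750785059120563461962665110654284921194710068726598150801713009273707523084626072819530083722490171197137588858200602787513085809383818920577)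

noncomputable def t46 : Tre := Helper55.PC.toT t46n

theorem ok46 : chk K t46 l49 = true :=
  Helper55.PC.chkN_sound K t46n l49 (by decide +kernel)

open Helper55.PC in
noncomputable def t47n : Helper55.PC.Ten :=
  (s
  33012703868111528009124940282121386063944693296268777002570481460987880597517744522553496981309093263835626144871756824249642112001572632226875377770209632768196751409547050476454399091107812615154386378999448167812014864630388120756084972471932009507897527349938272061975044361636485652651926462544004524231581218998797330935582174462431565711046849978820663663157186067632628079433151260453186845582156377718563103479571878389861500864409733562001662475912963369524907631012203272275016292161368491071952256490500873356204206058574641239484820320057069192062357787452637596470506531396765880965183574461673745403849745403387257938739129094974191661220481)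

noncomputable def t47 : Tre := Helper55.PC.toT t47n

theorem ok47 : chk K t47 r49 = true :=
  Helper55.PC.chkN_sound K t47n r49 (by decide +kernel)

noncomputable def t48 : Tre :=
  (.N [0,3,0,0,5] (-1) ⟨0,[(0,0)]⟩ ⟨0,[(1,0)]⟩ (.x 1 ⟨0,[(25,1),(6,0),(10,0)]⟩ ⟨3,[(11,0),(11,0),(2,
  1),(3,3),(13,3),(5,3)]⟩))

theorem ok48 : chk K t48 l51 = true := by decide +kernel

noncomputable def t49 : Tre :=
  (.N [0,0,1,-1,2] (-1) ⟨0,[(30,0)]⟩ ⟨0,[(18,0)]⟩ (.i (-1) ⟨0,[(1,0)]⟩ ⟨0,[(0,0)]⟩))

theorem ok49 : chk K t49 l53 = true := by decide +kernel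

open Helper55.PC in
noncomputable def t50n : Helper55.PC.Ten :=
  (s
  3526400710904884583425762135747093181202117157197485992498681136611452828143443542631729162695692559200684424615607957400775897230702376459534363732247182762884932032336206453514745832333672114761240241508036481310198141577202326217831299770078454882247479838285682970206983550180183152683181917801784540953525906519983332531162153999261859655707349398773712847956656366010985133802921991416822193142050784401670567795423967297418118855764697704297386472104463588412765020019161932642920899368286152608813890615549852375270777882449500132666134664787911921664038150193489908018243359692619296429930150778500300933561605685889)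

noncomputable def t50 : Tre := Helper55.PC.toT t50n

theorem ok50 : chk K t50 r53 = true :=
  Helper55.PC.chkN_sound K t50n r53 (by decide +kernel)

noncomputable def t51 : Tre :=
  (.N [0,0,1,-1,2] (-1) ⟨0,[(31,0)]⟩ ⟨0,[(19,0)]⟩ (.i 0 ⟨0,[(1,0)]⟩ ⟨0,[(0,0)]⟩))

theorem ok51 : chk K t51 l55 = true := by decide +kernel

open Helper55.PC in
noncomputable def t52n : Helper55.PC.Ten :=
  (s
  9716048724456987729232271728745482260642562154869974273368500103921367533509869893446104969982127999214226219570598339282805241747668125556023191639777176511647590449793990932021057715529887181541315155760918662571373840285168473410955878790293986455577524525906614563663362432836735127001403056429929492531778866183546510063579739414462773182322585997848728795050612433007576548214577486315985739059877307943633027701150839123404959523135171371945471750556498996119502517305069246521788534477282752698870712396282529575036481867377368552407194844261310936216263634545699161928726794335055842306466616019762547859718566621217409)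

noncomputable def t52 : Tre := Helper55.PC.toT t52n

theorem ok52 : chk K t52 r55 = true :=
  Helper55.PC.chkN_sound K t52n r55 (by decide +kernel)

open Helper55.PC in
noncomputable def t53n : Helper55.PC.Ten :=
  (s
  3526400710904884583425762135747093181202117157197485992498681136611452828143443542631729162695692559200684424615607957400775897230702376459534363732247182762884932032336206453514745832333672114761240241508036481310198141577202326217831299770078454882247479838285682970206983550180183152683181917801784540953525906519983332531162153999261859655707349398773712847956656366010985133802921991416822193142050784401670567795423967297418118855764697704297386472104463588412765020019161932642920899368286152608813890615549852375270777882449500132666134664787911921664038150193489908018243359692619296429930150778500300933561605685889)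

noncomputable def t53 : Tre := Helper55.PC.toT t53n

theorem ok53 : chk K t53 r54 = true :=
  Helper55.PC.chkN_sound K t53n r54 (by decide +kernel)

noncomputable def t54 : Tre :=
  (.N [0,0,1,-1,2] (-1) ⟨0,[(29,0)]⟩ ⟨0,[(17,0)]⟩ (.i (-1) ⟨0,[(1,0)]⟩ ⟨0,[(0,0)]⟩))

theorem ok54 : chk K t54 l57 = true := by decide +kernel

open Helper55.PC in
noncomputable def t55n : Helper55.PC.Ten :=
  (s
  3526400710904884583425762135747093181202117157102514847273667609484006495453523250563517911349578029670123863087296403038504536312303499460421193677674319519169490763730687604500754705392802639453298974060892614138170565698887973517664882035335305383379653691689526618524487630607687932986046802051575440843642890791462741576186109343840254457382493350732846158356982303681786338404891231129127968507474257442049383415579569355640971894205045013279534350646974173048866000229339876213388931383388387307291149674672130592264822402238629950098730608752182821555816274849390948596662950460606364923813120329170347902983100957313)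

noncomputable def t55 : Tre := Helper55.PC.toT t55n

theorem ok55 : chk K t55 r57 = true :=
  Helper55.PC.chkN_sound K t55n r57 (by decide +kernel)

noncomputable def t56 : Tre :=
  (.N [0,0,1,-1,2] (-1) ⟨0,[(30,0)]⟩ ⟨0,[(18,0)]⟩ (.i 0 ⟨0,[(1,0)]⟩ ⟨0,[(0,0)]⟩))

theorem ok56 : chk K t56 l59 = true := by decide +kernel

open Helper55.PC in
noncomputable def t57n : Helper55.PC.Ten :=
  (s
  3526400710904884583425762135747093181202117157197485992498681136611452828143443542631729162695692559200684424615607957400775897230702376459534363732247182762884932032336206453514745832333672114761240241508036481310198141577202326217831299770078454882247479838285682970206983550180183152683181917801784540953525906519983332531162153999261859655707349398773712847956656366010985133802921991416822193142050784401670567795423967297418118855764697704297386472104463588412765020019161932642920899368286152608813890615549852375270777882449500132666134664787911921664038150193489908018243359692619296429930150778500300933561605685889)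

noncomputable def t57 : Tre := Helper55.PC.toT t57n

theorem ok57 : chk K t57 r59 = true :=
  Helper55.PC.chkN_sound K t57n r59 (by decide +kernel)

open Helper55.PC in
noncomputable def t58n : Helper55.PC.Ten :=
  (s
  3526400710904884583425762135747093181202117157102514847273667609484006495453523250563517911349578029670123863087296403038504536312303499460421193677674319519169490763730687604500754705392802639453298974060892614138170565698887973517664882035335305383379653691689526618524487630607687932986046802051575440843642890791462741576186109343840254457382493350732846158356982303681786338404891231129127968507474257442049383415579569355640971894205045013279534350646974173048866000229339876213388931383388387307291149674672130592264822402238629950098730608752182821555816274849390948596662950460606364923813120329170347902983100957313)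

noncomputable def t58 : Tre := Helper55.PC.toT t58n

theorem ok58 : chk K t58 r58 = true :=
  Helper55.PC.chkN_sound K t58n r58 (by decide +kernel)

noncomputable def t59 : Tre :=
  (.N [0,0,1,-1,2] (-1) ⟨0,[(22,0)]⟩ ⟨0,[(10,0)]⟩ (.x 1 ⟨0,[(0,0)]⟩ ⟨19,[(5,8),(10,1),(0,8),(2,0),
  (3,22),(1,11),(5,3),(5,3)]⟩))

theorem ok59 : chk K t59 l60 = true := by decide +kernel

noncomputable def t60 : Tre :=
  (.N [0,-3,1,0,-1] (-1) ⟨0,[(1,0)]⟩ ⟨0,[(0,0)]⟩ (.x 1 ⟨0,[(26,0),(12,0),(4,0)]⟩ ⟨3,[(7,0),(10,1),
  (0,0),(1,11),(0,0),(3,2),(20,3)]⟩))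

theorem ok60 : chk K t60 l62 = true := by decide +kernel

noncomputable def t61 : Tre :=
  (.N [0,1,0,0,7] (-3) ⟨0,[(2,0)]⟩ ⟨0,[(0,0)]⟩ (.x 2 ⟨124,[(2,5),(7,20),(20,124),(2,1),(1,165),(4,
  163),(0,124),(3,1)]⟩ ⟨0,[(1,0)]⟩))

theorem ok61 : chk K t61 l65 = true := by decide +kernel

noncomputable def t62 : Tre :=
  (.N [0,0,1,-1,2] (-1) ⟨0,[(28,0)]⟩ ⟨0,[(16,0)]⟩ (.i (-1) ⟨0,[(0,0)]⟩ ⟨0,[(6,0),(0,0),(2,2),(2,0),
  (0,0),(13,0),(12,1),(7,1)]⟩))

theorem ok62 : chk K t62 l66 = true := by decide +kernel

noncomputable def t63 : Tre :=
  (.N [0,0,1,-1,2] (-1) ⟨0,[(30,0)]⟩ ⟨0,[(18,0)]⟩ (.i 0 ⟨0,[(1,0)]⟩ ⟨0,[(0,0)]⟩))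

theorem ok63 : chk K t63 l68 = true := by decide +kernel

open Helper55.PC in
noncomputable def t64n : Helper55.PC.Ten :=
  (s
  110061372751379410578688683896408860569174242529152328941462104187311287118766343139032241102982562213663691998209987001495215505985802145517924672076425972547242246942867227651742177935435603867033372321717145718161924896406671127893967236450656783812383687624609173236589208919232960202993369704979502709057511989223718195233944124532765781451504344362056394153166322185343743778932143159039459170450505269389613009398136294593977490574056610630634781245572754178236037513695506808299338414780678231759906971639785637274710139500642970147712270238589378393683976854046331111330786279170300724783565069548451368634769762959687977817393384841002599532797445858790738833987242008316954455317372869876913275521)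

noncomputable def t64 : Tre := Helper55.PC.toT t64n

theorem ok64 : chk K t64 r68 = true :=
  Helper55.PC.chkN_sound K t64n r68 (by decide +kernel)

open Helper55.PC in
noncomputable def t65n : Helper55.PC.Ten :=
  (s
  110061372751379410578688683896408860569174242529152317944554781322429067953935633807201756227569809268341723161929487586404332225114848708053569730529211946786217864442873998706169735265959193637224380241519911140813097264531773480512689120122325123118349219983023751200559886965031259619714373444540025659185593499559452388411376777591154870437093623512406682614624743295710191611235647462692754785597980023296023913597166958592735382205507800003116159437377245237250645851631086759964494459195434380425745665453049186737650118517840817821184987691916530092538592544584965413208994488578323330504255014960718118310200531531276956566805001388349690210568647852751207155063577333624591503171987397159041368705)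

noncomputable def t65 : Tre := Helper55.PC.toT t65n

theorem ok65 : chk K t65 r67 = true :=
  Helper55.PC.chkN_sound K t65n r67 (by decide +kernel)

noncomputable def t66 : Tre :=
  (.N [0,1,0,0,7] (-3) ⟨0,[(3,0)]⟩ ⟨0,[(1,0)]⟩ (.x 3 ⟨0,[(0,0)]⟩ ⟨83,[(3,9),(7,34),(7,4),(6,13),(3,
  251),(13,27),(5,27)]⟩))

theorem ok66 : chk K t66 l70 = true := by decide +kernel

noncomputable def t67 : Tre :=
  (.N [0,0,1,-1,2] (-1) ⟨0,[(30,0)]⟩ ⟨0,[(18,0)]⟩ (.i 0 ⟨0,[(0,0)]⟩ ⟨0,[(1,0)]⟩))

theorem ok67 : chk K t67 l72 = true := by decide +kernel

open Helper55.PC in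
noncomputable def t68n : Helper55.PC.Ten :=
  (s
  391016544481386356504119859410227137776325330273840896153099381340609785232071740499633475913234427116919212996140165927379762837005985030551103402249915475450496139050329383215297189983276482565149611839589269542348382895679320618848206529698497809166945557033409932734498273396994273043022708584231569755266368433150472177871260087145409930101142906470052989082556346474630605972462026509664645734569938227446780523040715412016851317762435980304355261447076297445872273737225568228851662546141064550471954217295504172381787149462128579851334494441137590342150824243969406013112195788035246890144127690494774154792342731073855782974302963141488024148015805040026886141418288931567788559958657)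

noncomputable def t68 : Tre := Helper55.PC.toT t68n

theorem ok68 : chk K t68 r72 = true :=
  Helper55.PC.chkN_sound K t68n r72 (by decide +kernel)

noncomputable def t69 : Tre :=
  (.N [0,0,1,-1,2] (-1) ⟨0,[(30,0)]⟩ ⟨0,[(18,0)]⟩ (.i (-1) ⟨0,[(0,0)]⟩ ⟨0,[(8,0),(0,0),(2,2),(2,0),
  (0,0),(13,0),(12,1),(7,1)]⟩))

theorem ok69 : chk K t69 l73 = true := by decide +kernel

open Helper81.PXd in
noncomputable def t70n : Helper81.PXd.Ten :=
  (s
  590924606198451583409993102950115136808742951264659302278912782141661785113934989295513802770797187079274051922111763003757395663527803425958364233201458773596172839113851469274548953631702632136517756645711194973621196801940662746858600118878722730805294707312467810271932836029304421001610993249817209700865609489103877992152655731792313340660906493536754928950283710395269942542891334856988538728538238686126788654579911371517418205828616703793246781529494429387031265207025363513347709514688933480948475921507806890829556752816435034234055163509862148687653596619919113906764614561710488999945995074680120352587389003199115233878953017673029038289996364318288570825727256050369186010839454588774133848461925211658200674338300282124663293516244053834677262067097031381442330447123638460225715634538114014348081444752608319164334417633542747650676891329437346980425249028677289354443102964214433489171611507176975226634881)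

noncomputable def t70 : Tre := Helper81.PXd.toT t70n

theorem ok70 : chk K t70 r73 = true :=
  Helper81.PXd.chkN_sound K t70n r73 (by decide +kernel)

noncomputable def t71 : Tre :=
  (.N [0,0,1,-1,2] (-1) ⟨0,[(28,0)]⟩ ⟨0,[(16,0)]⟩ (.i (-1) ⟨0,[(0,0)]⟩ ⟨0,[(6,0),(0,0),(2,2),(2,0),
  (0,0),(13,0),(12,1),(7,1)]⟩))

theorem ok71 : chk K t71 l74 = true := by decide +kernel

noncomputable def t72 : Tre :=
  (.N [0,0,1,-1,2] (-1) ⟨0,[(30,0)]⟩ ⟨0,[(18,0)]⟩ (.i 0 ⟨0,[(1,0)]⟩ ⟨0,[(0,0)]⟩))

theorem ok72 : chk K t72 l76 = true := by decide +kernel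

open Helper55.PC in
noncomputable def t73n : Helper55.PC.Ten :=
  (s
  2852920573877951154059427051498445947609234899909622399190835983181798369157434027949983244550706390396247147283447863715549905926712314866136933813345502076395378411393840957588971612576535997614476653042440328233166203879175954345491641033475278520891909359390078286359403425224804109824623831198869817289900372507675323162321827638905810681802438218110297126560979321258875966951106406893432008558695598953117746202131942442681834710930169556973664073637897354059489979948705004820101370198622890892486090586553710208243211332963773285731790986513832655715934007324613465964015576040511754220669194947853659780077746913921)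

noncomputable def t73 : Tre := Helper55.PC.toT t73n

theorem ok73 : chk K t73 r76 = true :=
  Helper55.PC.chkN_sound K t73n r76 (by decide +kernel)

open Helper55.PC in
noncomputable def t74n : Helper55.PC.Ten :=
  (s
  2852920573877951154059427051498445947609234899814651253965822456054352036467513735881771993204591860865686585755136309353278570638760393929464319603274444729447339813954825795111207894363845938672108791129134367633774217621487526314631469132363588587000331648971101546293973613858596376641188578649382061157786256442746942898884983311803191990757037108485636917569991294582036564728186995564751781824189476199245859479699514377862539396054321432650881380467672525096666829156225746383358872570130637983755116639180201761828202555685947996874269167492364521159684463596410928541380254003610769864659998672674415637577878995585)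

noncomputable def t74 : Tre := Helper55.PC.toT t74n

theorem ok74 : chk K t74 r75 = true :=
  Helper55.PC.chkN_sound K t74n r75 (by decide +kernel)

noncomputable def t75 : Tre :=
  (.N [0,0,1,-1,2] (-1) ⟨0,[(26,0)]⟩ ⟨0,[(14,0)]⟩ (.i (-1) ⟨0,[(0,0)]⟩ ⟨0,[(4,0),(0,0),(2,2),(2,0),
  (0,0),(13,0),(12,1),(7,1)]⟩))

theorem ok75 : chk K t75 l77 = true := by decide +kernel

open Helper55.PC in
noncomputable def t76n : Helper55.PC.Ten :=
  (s
  22136823781554044472521581113245441935157265342123063288341842532939462940564484501471092937436653140105336446160191268816075491067614662638518225811045645623224628461330860224372045550229627567231553997339386833554533594803491704026156116708583685162165437010723556134626321926348808192453881786064332302690712422337999855957365666530104372867728649385732167264911527811966366078430808719906179372437633939041499522210943511821159337924192563853730457841344771807675074904312155150276098245236872067129785078012772720949913229134892643243786145355174091892440226071169)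

noncomputable def t76 : Tre := Helper55.PC.toT t76n

theorem ok76 : chk K t76 r77 = true :=
  Helper55.PC.chkN_sound K t76n r77 (by decide +kernel)

noncomputable def t77 : Tre :=
  (.N [0,1,0,0,5] (-2) ⟨0,[(2,0)]⟩ ⟨0,[(1,0)]⟩ (.x 1 ⟨88,[(2,11),(6,29),(20,88),(2,3),(1,57),(4,53),
  (0,88),(3,3)]⟩ ⟨0,[(0,0)]⟩))

theorem ok77 : chk K t77 l80 = true := by decide +kernel

noncomputable def t78 : Tre :=
  (.N [0,1,0,0,5] (-2) ⟨0,[(3,0)]⟩ ⟨0,[(2,0)]⟩ (.x 2 ⟨0,[(0,0)]⟩ ⟨11,[(3,1),(6,4),(7,0),(6,1),(3,
  23),(13,3),(5,3)]⟩))

theorem ok78 : chk K t78 l81 = true := by decide +kernel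

noncomputable def t79 : Tre :=
  (.N [0,0,1,-1,2] (-1) ⟨0,[(28,0)]⟩ ⟨0,[(16,0)]⟩ (.i (-1) ⟨0,[(0,0)]⟩ ⟨0,[(6,0),(0,0),(2,2),(2,0),
  (0,0),(13,0),(12,1),(7,1)]⟩))

theorem ok79 : chk K t79 l82 = true := by decide +kernel

noncomputable def t80 : Tre :=
  (.N [0,0,1,-1,2] (-1) ⟨0,[(29,0)]⟩ ⟨0,[(17,0)]⟩ (.i 1 ⟨0,[(34,0),(2,0),(16,1)]⟩ ⟨0,[(0,0)]⟩))

theorem ok80 : chk K t80 l83 = true := by decide +kernel

noncomputable def t81 : Tre :=
  (.N [0,0,1,-1,2] (-1) ⟨0,[(31,0)]⟩ ⟨0,[(19,0)]⟩ (.i 0 ⟨0,[(1,0)]⟩ ⟨0,[(0,0)]⟩))

theorem ok81 : chk K t81 l85 = true := by decide +kernel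

open Helper55.PC in
noncomputable def t82n : Helper55.PC.Ten :=
  (s
  912833814166996615706975816571548647424656116844263012790220267751344994167601202702198137753000360021985554164163071828342662279713301354788282307520744639354810719069763167324006840131492871484666199454376748832344736833017532224128779011032724072110532538453656224032025467669989498326640018957970473124619926055609463777220569765754381009444948757477238514316678765966458901729428648973220029842080066918947094455548281224814347208512663038950399301576690847557875668882416958641027613686956561256594534786438428915137619919939248206883554608385428829401237893787754084349104619887254756501115481074342192436002643622836665176371916670978490536821377)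

noncomputable def t82 : Tre := Helper55.PC.toT t82n

theorem ok82 : chk K t82 r85 = true :=
  Helper55.PC.chkN_sound K t82n r85 (by decide +kernel)

open Helper55.PC in
noncomputable def t83n : Helper55.PC.Ten :=
  (s
  912833814166996615706975816571548647424656116844262897977150686861890814990374309405751281185060788045040229701640671753585422812373218460841941568341532330948634522455975478480836595461604982593030058979645580315939565285134867975923239160655273991590473118290900070383968503796401891226721951875305964713542180363176194600994900618389409108111573828258266651730784655251249003324652187661131309357824308506680333966210572724077334263965062509086638247791742596736575197822056420857738952814624603777540026114657204266744985409926557393462828317554927727154331169559804554607004368296750909030879241856837643321922009411740990110380880018937264655565441)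

noncomputable def t83 : Tre := Helper55.PC.toT t83n

theorem ok83 : chk K t83 r84 = true :=
  Helper55.PC.chkN_sound K t83n r84 (by decide +kernel)

noncomputable def t84 : Tre :=
  (.N [0,0,1,-1,2] (-1) ⟨0,[(27,0)]⟩ ⟨0,[(15,0)]⟩ (.i 0 ⟨0,[(0,0)]⟩ ⟨0,[(1,0)]⟩))

theorem ok84 : chk K t84 l87 = true := by decide +kernel

open Helper55.PC in
noncomputable def t85n : Helper55.PC.Ten :=
  (s
  1070102133311009591812926054432667663630996981828559329471729177236364588787755578773035485576716292740627179506604697464519519427924693938823631106000909531797088781218415110632167274250823755013021909461170675426457181637617565637723403092914305494875340768652322886175043673719804811264101356349184731092561590854107187177595419384136283779436129367932299611225009026316873826403299237805861132324249377414909899786940598277072292877101243062317690724450929903178900601453701933406566418331524969120852878977009687316281172669256564451769417798636530949244123618799005459892485987081014187930234683235208613426125674843711652129986839169)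

noncomputable def t85 : Tre := Helper55.PC.toT t85n

theorem ok85 : chk K t85 r87 = true :=
  Helper55.PC.chkN_sound K t85n r87 (by decide +kernel)

open Helper55.PC in
noncomputable def t86n : Helper55.PC.Ten :=
  (s
  1070102133311009591812926054432667663630996981801827328581334165907464070218289748117134738161112002811136987085806632966412724045386175853625049176191886382698008613804489338808481871827438404846622863618204190810224015955420874156315481436994051874857254962163295629231587881651782306182128759701281572544982235479142170431131045258765337206339320149545515903770965292618679275540775770195963829777049082338895737344801714508974140092418607538936491298056445031020741292570808408440905608876975092060877665594678962376958251844902087717519484003258872855829638734387115675818879959976242800836367452299541007096599089817053528386475917953)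

noncomputable def t86 : Tre := Helper55.PC.toT t86n

theorem ok86 : chk K t86 r86 = true :=
  Helper55.PC.chkN_sound K t86n r86 (by decide +kernel)

noncomputable def t87 : Tre :=
  (.N [0,0,1,-1,2] (-1) ⟨0,[(25,0)]⟩ ⟨0,[(13,0)]⟩ (.i (-1) ⟨0,[(0,0)]⟩ ⟨0,[(3,0),(0,0),(2,2),(2,0),
  (0,0),(13,0),(12,1),(7,1)]⟩))

theorem ok87 : chk K t87 l88 = true := by decide +kernel

open Helper55.PC in
noncomputable def t88n : Helper55.PC.Ten :=
  (s
  885167738126502595153608216738175186266250929277578590209568188600583571908151546904986603493364184849688341617821977054207945857978019715044648404715023303377499674128079148764215680330947759773370992069992783016814521548955828404515617216036199974103810947331161691506041544269476730806868790415274407726699949131729601858391463433721001243908383258040588959877680348852478032474343320354960268664113679937667602140529643116242005606254128147298912787978549224124147568513927121954982953560105270982929274555240909494420976252463927873626469324875642352439258878429348152962956274888914845512273698543768565711489)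

noncomputable def t88 : Tre := Helper55.PC.toT t88n

theorem ok88 : chk K t88 l89 = true :=
  Helper55.PC.chkN_sound K t88n l89 (by decide +kernel)

open Helper55.PC in
noncomputable def t89n : Helper55.PC.Ten :=
  (s
  885167738126502595153608216738175186266250929277578590209568188600583571908151546904986603493364184849688341617821977054207945857978019715044648404715023303377499674128079148764215680330947759773370992069992783016814521548955828404515617216036199974103810947331161691506041544269476730806868790415274407726699949131729601858391463433721001243908383258040588959877680348852478032474343320354960268664113679937667602140529643116242005606254128147298912787978549224124147568513927121954982953560105270982929274555240909494420976252463927873626469324875642352439258878429348152962956274888914845512273698543768565711489)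

noncomputable def t89 : Tre := Helper55.PC.toT t89n

theorem ok89 : chk K t89 r89 = true :=
  Helper55.PC.chkN_sound K t89n r89 (by decide +kernel)

noncomputable def t90 : Tre :=
  (.N [0,0,1,-1,2] (-1) ⟨0,[(20,0)]⟩ ⟨0,[(8,0)]⟩ (.x 1 ⟨0,[(0,0)]⟩ ⟨19,[(3,8),(10,1),(0,8),(2,0),(3,
  22),(1,11),(5,3),(5,3)]⟩))

theorem ok90 : chk K t90 l90 = true := by decide +kernel

noncomputable def t91 : Tre :=
  (.N [0,-3,0,1,1] (-2) ⟨0,[(2,0)]⟩ ⟨0,[(1,0)]⟩ (.x 2 ⟨0,[(0,0)]⟩ ⟨3,[(6,0),(10,1),(0,0),(1,11),(0,
  0),(3,10),(12,3),(7,3)]⟩))

theorem ok91 : chk K t91 l93 = true := by decide +kernel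

noncomputable def t92 : Tre :=
  (.N [0,-3,0,1,1] (-2) ⟨0,[(3,0)]⟩ ⟨0,[(2,0)]⟩ (.x 1 ⟨2,[(7,0),(11,0),(13,1),(4,1),(5,2)]⟩ ⟨0,[(0,
  0)]⟩))

theorem ok92 : chk K t92 l94 = true := by decide +kernel

noncomputable def t93 : Tre :=
  (.N [0,1,0,0,5] (-2) ⟨0,[(0,0)]⟩ ⟨0,[(1,0)]⟩ (.x 2 ⟨0,[(2,0)]⟩ ⟨11,[(0,1),(9,4),(7,0),(6,1),(3,
  23),(13,3),(5,3)]⟩))

theorem ok93 : chk K t93 l97 = true := by decide +kernel

noncomputable def t94 : Tre :=
  (.N [0,1,0,0,7] (-3) ⟨0,[(0,0)]⟩ ⟨0,[(2,0)]⟩ (.x 2 ⟨2343,[(0,305),(4,3119),(0,193),(2,15),(3,
  1078),(0,88),(1,15),(24,15),(1,15),(1,177),(0,177),(2,15),(4,193)]⟩ ⟨0,[(1,0)]⟩))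

theorem ok94 : chk K t94 l100 = true := by decide +kernel

noncomputable def t95 : Tre :=
  (.N [0,0,1,-1,2] (-1) ⟨0,[(31,0)]⟩ ⟨0,[(19,0)]⟩ (.i (-1) ⟨0,[(0,0)]⟩ ⟨2,[(9,0),(1,2),(0,0),(0,4),
  (2,1),(0,2),(26,2),(5,0),(1,5)]⟩))

theorem ok95 : chk K t95 l101 = true := by decide +kernel

open Helper81.PXd in
noncomputable def t96n : Helper81.PXd.Ten :=
  (s
  27691402164484687693931538908010997942172044265650348765893261120766002991715225571181767462706083725779416682514858432109354033465553024296799622018859019749300267200904907688562680466502228816132905433486118765659183501345137256747729723450289255441690115273793655984802521599806773805317704235212128852939056393555540265688969398394345275194206187366899845689916040581248247756773084699335250400946650586415883218510634377456389741570644740324925998277083226098954965958261510403302581647249044570825826436755315951713363404042010985841005821141532042306657457345561187200118824621948566573041102622875595429183218745232849898980474698263922950934729485985815180007592345870358045354771674862151395135120814985279785137114815899924393010747276582788091284797377658635999920100914683387465642893100632034363214047686448922556375612780910943693610935455624771045798912262701189712384362427569722350157927955607768901513089394691689377074480217550845075522177)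

noncomputable def t96 : Tre := Helper81.PXd.toT t96n

theorem ok96 : chk K t96 r101 = true :=
  Helper81.PXd.chkN_sound K t96n r101 (by decide +kernel)

noncomputable def t97 : Tre :=
  (.N [0,1,0,0,7] (-3) ⟨0,[(1,0)]⟩ ⟨0,[(3,0)]⟩ (.x 3 ⟨0,[(0,0)]⟩ ⟨83,[(1,9),(12,34),(7,4),(6,13),(3,
  251),(13,27),(5,27)]⟩))

theorem ok97 : chk K t97 l103 = true := by decide +kernel

noncomputable def t98 : Tre :=
  (.N [0,0,1,-1,2] (-1) ⟨0,[(32,0)]⟩ ⟨0,[(20,0)]⟩ (.i (-1) ⟨0,[(0,0)]⟩ ⟨22,[(2,1),(7,13),(1,22),(1,
  36),(2,14),(0,22),(26,21),(0,0),(4,6),(1,45)]⟩))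

theorem ok98 : chk K t98 l104 = true := by decide +kernel

noncomputable def t99 : Tre :=
  (.N [0,0,1,-1,2] (-1) ⟨0,[(34,0)]⟩ ⟨0,[(22,0)]⟩ (.i 0 ⟨0,[(1,0)]⟩ ⟨0,[(0,0)]⟩))

theorem ok99 : chk K t99 l106 = true := by decide +kernel

open Helper81.PXd in
noncomputable def t100n : Helper81.PXd.Ten :=
  (s
  676630733445483447455696724757721066607390513078101987064526872124284086482398284738880408457330488822936147061414742771182949705751674040161938718407600925052420295931745678103194669744495114550677340865150192608932162751459175653432808443678299413903390545525334617234466988106220834619568067325522487087735304912339078089157586068921276324747019544066581105822122447313485050294791649224085541093285453814908178492077192676279236428251969076642023297925343906479714953224001454371523556367943842802499741758364427151999975629751821543321293931426923670049764687982304146795075008845001186838500774097627820974367416283204974360864697485376624325966208933720921910015628940933923005084485140031860099280168209696741841276789142332550387099182890221284315998952830532605849251433925707434409838120954667598809614839821353966100569456458369514719517035354202300019963305494906089548585734489459311500771409166319899992000518123220704550842007010071685373849091165581644412223603626360147543425694233935114968134738217654184282423937)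

noncomputable def t100 : Tre := Helper81.PXd.toT t100n

theorem ok100 : chk K t100 r106 = true :=
  Helper81.PXd.chkN_sound K t100n r106 (by decide +kernel)

open Helper81.PXd in
noncomputable def t101n : Helper81.PXd.Ten :=
  (s
  676630733445483447455696724757721066607390513078101987064526872124284086482398054596676435897269097105153436824972955573268416386136786784324168425762248261470521179723391791399821184594394201007283598663282501271034065423679748718245895194368543043376501602612497772392748444257398319138339581878122561961374150913448306313165556747170774824608513795841972183650691151820552107802917381740389072130221218402526883102136061416463738172663222292200850128970469440957776373564491737333512140078007497062375092322071506546791967903854708652632539333911926559255099422033285567790935274854293656495510599821802091048182495733181800021955408315781191433497285256003510035592140786815651085343338162806259623949373308263473362943138664618149702626515194596048613586396935068423584766266086202548048417994083459522882032987198721600060433668219538565507874263410482203112092276118275821098077435183049057851888661017796241512036482492767519128231525640495114739042862003928229828648688304944890488834716428663921949667024799436718704951937)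

noncomputable def t101 : Tre := Helper81.PXd.toT t101n

theorem ok101 : chk K t101 r105 = true :=
  Helper81.PXd.chkN_sound K t101n r105 (by decide +kernel)

noncomputable def t102 : Tre :=
  (.N [0,0,1,-1,2] (-1) ⟨0,[(32,0)]⟩ ⟨0,[(20,0)]⟩ (.i 0 ⟨0,[(0,0)]⟩ ⟨0,[(1,0)]⟩))

theorem ok102 : chk K t102 l108 = true := by decide +kernel

open Helper55.PC in
noncomputable def t103n : Helper55.PC.Ten :=
  (s
  151189677481158146498659908871891379363884245535982893462442768019587544511726448234380980487792024038136970646916249014793597449173672056598002840982887537671579589739595304284198557469779692631908048879750921763780430950277618366748828205731097440189365491567977837285624261637385860057659855387058194456861957757886342491094543552820682876231513423304688866247483997057185907092119580576546083714285172872722018649941071473775146722538162033204102404712482487086192740853171668004162273119180306635928578513719850526800816932234672980231596420977179430070099433646565853428656725956668543402196444944142150856091932559106744385078810376286214009389697)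

noncomputable def t103 : Tre := Helper55.PC.toT t103n

theorem ok103 : chk K t103 r108 = true :=
  Helper55.PC.chkN_sound K t103n r108 (by decide +kernel)

noncomputable def t104 : Tre :=
  (.N [0,0,1,-1,2] (-1) ⟨0,[(32,0)]⟩ ⟨0,[(20,0)]⟩ (.i (-1) ⟨0,[(0,0)]⟩ ⟨2,[(10,0),(1,2),(0,0),(0,4),
  (2,1),(0,2),(26,2),(5,0),(1,5)]⟩))

theorem ok104 : chk K t104 l109 = true := by decide +kernel

open Helper55.PC in
noncomputable def t105n : Helper55.PC.Ten :=
  (s
  151189677481158146498659908871891379363884245535982893462442768019587544511726448234380980487792024038136970646916249014793597449173672056598002840982887537671579589739595304284198557469779692631908048879750921763780430950277618366748828205731097440189365491567977837285624261637385860057659855387058194456861957757886342491094543552820682876231513423304688866247483997057185907092119580576546083714285172872722018649941071473775146722538162033204102404712482487086192740853171668004162273119180306635928578513719850526800816932234672980231596420977179430070099433646565853428656725956668543402196444944142150856091932559106744385078810376286214009389697)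

noncomputable def t105 : Tre := Helper55.PC.toT t105n

theorem ok105 : chk K t105 r109 = true :=
  Helper55.PC.chkN_sound K t105n r109 (by decide +kernel)

noncomputable def t106 : Tre :=
  (.N [0,0,1,-1,2] (-1) ⟨0,[(30,0)]⟩ ⟨0,[(18,0)]⟩ (.i 0 ⟨0,[(0,0)]⟩ ⟨0,[(1,0)]⟩))

theorem ok106 : chk K t106 l111 = true := by decide +kernel

open Helper55.PC in
noncomputable def t107n : Helper55.PC.Ten :=
  (s
  7093115471754832126652539679145247185650702762370167014250726819286873763527187715963620578088536489392952110180643930833600600044007152903734008517209119238976363211584433057791029318765474707902380052504494742630919957464324438130823749929876441962521519144522933394043881267406499670969459859709562370159721668220103579880668126528338012642043532755230067014121479905532953844743962486694781971778115303747955625132797876283665592791755128259338646120927952985100277368384432723786399246761320584748509244437421245645435680865745821515254030543353966059260588812968316346438880219764180048142091550230796408240891608520741434697905525094697218789019222657)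

noncomputable def t107 : Tre := Helper55.PC.toT t107n

theorem ok107 : chk K t107 r111 = true :=
  Helper55.PC.chkN_sound K t107n r111 (by decide +kernel)

open Helper55.PC in
noncomputable def t108n : Helper55.PC.Ten :=
  (s
  7093115471754832126652539679145247185650702762370167014250725067378463410599725265139235609575858624281569481137899111764350110622052204976791818472887887664711011247443333700473177679726092470855846833522186237503051592812788628674077601487503516412967876754781691894229137893534839926775471862771359392392190049695449424355640030603087819880754813020256182189590489352100017883344190791433838922143322779715083828038137639649405389851130875703496843536353610498262321791714763879933839085350305736979366546593327563361886883842648876976296693433784825468585211081117168323393181224328227714028915386591709543693146895205418031656317512528717725343285248641)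

noncomputable def t108 : Tre := Helper55.PC.toT t108n

theorem ok108 : chk K t108 r110 = true :=
  Helper55.PC.chkN_sound K t108n r110 (by decide +kernel)

noncomputable def t109 : Tre :=
  (.N [0,0,1,-1,2] (-1) ⟨0,[(27,0)]⟩ ⟨0,[(15,0)]⟩ (.i (-1) ⟨0,[(0,0)]⟩ ⟨4,[(1,0),(3,2),(1,4),(1,6),
  (2,2),(0,4),(1,0),(24,3),(5,1),(1,9)]⟩))

theorem ok109 : chk K t109 l112 = true := by decide +kernel

open Helper55.PC in
noncomputable def t110n : Helper55.PC.Ten :=
  (s
  4981677047115790465534723694193289926766713435121302787027684765795128752733277756541142686022574831111279215988097223765072373367876246713517175919344947126898388857856719750747327878217048186400783086071007041920696946109342399222475484423023610038443881206082900719773436512486997016513487146655363918762164241148075274880729896191526508998145707544111053146827705307242600314505325542177143608475246415133964896108831156371160917610704702264756379605290111232079110983597961137549310553983606040396369321794937926892614130524610654425099472644386081703950657010978503738713452414942276392207144685642650970939142239838631614493543361586803981653495513729)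

noncomputable def t110 : Tre := Helper55.PC.toT t110n

theorem ok110 : chk K t110 r112 = true :=
  Helper55.PC.chkN_sound K t110n r112 (by decide +kernel)

noncomputable def t111 : Tre :=
  (.N [0,1,0,0,5] (-2) ⟨0,[(1,0)]⟩ ⟨0,[(2,0)]⟩ (.x 1 ⟨88,[(1,11),(9,29),(20,88),(2,3),(1,57),(4,53),
  (0,88),(3,3)]⟩ ⟨0,[(0,0)]⟩))

theorem ok111 : chk K t111 l115 = true := by decide +kernel

noncomputable def t112 : Tre :=
  (.N [0,0,1,-1,2] (-1) ⟨0,[(29,0)]⟩ ⟨0,[(17,0)]⟩ (.i (-1) ⟨0,[(0,0)]⟩ ⟨4,[(2,0),(4,2),(1,4),(1,6),
  (2,2),(0,4),(1,0),(24,3),(5,1),(1,9)]⟩))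

theorem ok112 : chk K t112 l116 = true := by decide +kernel

open Helper81.PXd in
noncomputable def t113n : Helper81.PXd.Ten :=
  (s
  39079213143918997163331476414249535290411033406856546023988808896702489321945724509966548213396271043962038047377025715127341929662117852406148557032647706385974383658258675107257989336687355305707711554977005652379435254911930826816512043496638322309761072736613456741868423159070463121338486314466091217856586658779998651055437450309575294754250041590045192894251872929288508507211090424501971012133973567314834927189045483650320959644734717726683521562380513984678850980030491187138700251637764258235854520729935922093582540658031022847213014670985784006561815753699165915348866174928233976718428483159439992983973075976465168341390338104320899344699146798212958546280152781485528488477786329549597910536028387198128266700207303494970731931945528734341204037742783092539864341189031110824070732345032293225400659614980365394861583527707481803042683960553596757016082503860106574970988200363136488898817394930189296529834625)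

noncomputable def t113 : Tre := Helper81.PXd.toT t113n

theorem ok113 : chk K t113 l117 = true :=
  Helper81.PXd.chkN_sound K t113n l117 (by decide +kernel)

open Helper81.PXd in
noncomputable def t114n : Helper81.PXd.Ten :=
  (s
  39079213143918997163331476414249535290411033406856546023988808896702489321945724509966548213396271043962038047377025715127341929662117852406148557032647706385974383658258675107257989336687355305707711554977005652379435254911930826816512043496638322309761072736613456741868423159070463121338486314466091217856586658779998651055437450309575294754250041590045192894251872929288508507211090424501971012133973567314834927189045483650320959644734717726683521562380513984678850980030491187138700251637764258235854520729935922093582540658031022847213014670985784006561815753699165915348866174928233976718428483159439992983973075976465168341390338104320899344699146798212958546280152781485528488477786329549597910536028387198128266700207303494970731931945528734341204037742783092539864341189031110824070732345032293225400659614980365394861583527707481803042683960553596757016082503860106574970988200363136488898817394930189296529834625)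

noncomputable def t114 : Tre := Helper81.PXd.toT t114n

theorem ok114 : chk K t114 r117 = true :=
  Helper81.PXd.chkN_sound K t114n r117 (by decide +kernel)

noncomputable def t115 : Tre :=
  (.N [0,1,0,0,7] (-3) ⟨0,[(1,0)]⟩ ⟨0,[(0,0)]⟩ (.x 2 ⟨124,[(1,5),(10,20),(20,124),(2,1),(1,165),(4,
  163),(0,124),(3,1)]⟩ ⟨7,[(4,10),(1,0),(9,0),(4,0)]⟩))

theorem ok115 : chk K t115 l119 = true := by decide +kernel

noncomputable def t116 : Tre :=
  (.N [0,0,1,-1,2] (-1) ⟨0,[(31,0)]⟩ ⟨0,[(19,0)]⟩ (.i 0 ⟨0,[(0,0)]⟩ ⟨0,[(1,0)]⟩))

theorem ok116 : chk K t116 l121 = true := by decide +kernel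

noncomputable def t117 : Tre :=
  (.N [0,0,1,-1,2] (-1) ⟨0,[(32,0)]⟩ ⟨0,[(20,0)]⟩ (.i 1 ⟨0,[(37,0),(2,0),(16,1)]⟩ ⟨0,[(0,0)]⟩))

theorem ok117 : chk K t117 l122 = true := by decide +kernel

open Helper81.PXd in
noncomputable def t118n : Helper81.PXd.Ten :=
  (s
  21753072128941723348896818410557895978590849380081428703461905442358050682294638536533976758214426532665275612492158597940286559977109814840407877336002990512208829165744802892913886878193445990065542698672642698663115942138097279063335929302213732975481128169569925971891591251679340677135860136252768924734913428520168437207244665876950695014654887940594920314704801825575095799932417741217221726661484092200224261835877709325208275423876595542061292697084190465985509221634575743701129671513693034092931410187844119587165176124119737366750092968900886822980242806884981843144002526961766550748945918232836237301169783515823407644156906747336394115766857652408236628870508773792265371060154194776120136730818317973284904110953648176079512241723093588114536656202158273721614685983257654034298848703169972554370101189996603775998738762260576114810857718800194104218656992328450261488614670932526657658519017812150887930800721450884934278268553064748176261233688570860658459467509138049)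

noncomputable def t118 : Tre := Helper81.PXd.toT t118n

theorem ok118 : chk K t118 r122 = true :=
  Helper81.PXd.chkN_sound K t118n r122 (by decide +kernel)

noncomputable def t119 : Tre :=
  (.N [0,0,1,-1,2] (-1) ⟨0,[(31,0)]⟩ ⟨0,[(19,0)]⟩ (.i (-1) ⟨0,[(0,0)]⟩ ⟨22,[(3,1),(5,13),(1,22),(1,
  36),(2,14),(0,22),(26,21),(0,0),(4,6),(1,45)]⟩))

theorem ok119 : chk K t119 l123 = true := by decide +kernel

open Helper81.PXd in
noncomputable def t120n : Helper81.PXd.Ten :=
  (s
  4790797581873576215542732722001304961751684966448424582343482208030428349814154487459907096178453635140748136902207762299365676153980442236236676221435370884162036831034045941786251263182615522017883215693816507732678621881057964675235424930728177856991579709689154554331318097983409975593973757653955888381452707842953865729650629876707632748553117335142748142686721951399056679309619878083133586103095313593357071564400393183491453674772266302780476952519309626457991949451790636009829706985831788416240301948835469320953966279119315105145708383450381722636293773638568206867152869424493561164931785495740403357422015166020708458327424986189041630491362597377029708833713722552355808720206911213145592074546050519141980718123852355805622831468744110627079006728915935515248907230456834580717550334558153033368627246498316128113386620212007852199604664532571496303123744516872552747540521693112200216780059179323161601316571861000127105)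

noncomputable def t120 : Tre := Helper81.PXd.toT t120n

theorem ok120 : chk K t120 r123 = true :=
  Helper81.PXd.chkN_sound K t120n r123 (by decide +kernel)

noncomputable def t121 : Tre :=
  (.N [0,0,1,-1,2] (-1) ⟨0,[(30,0)]⟩ ⟨0,[(18,0)]⟩ (.i 0 ⟨0,[(0,0)]⟩ ⟨0,[(1,0)]⟩))

theorem ok121 : chk K t121 l125 = true := by decide +kernel

open Helper55.PC in
noncomputable def t122n : Helper55.PC.Ten :=
  (s
  19701508453702865204059724385582355429168907829729227483624065862959594852621421777902568849969175215557049550167850442445678167090624440244725480588198379083057337472539556140476717791698797622815367227543833489816644977467000176234554758403609810230958574383446634183501806055211767020607380791878213398803056215152356021671193409049289064653876090358210708258862455300983861325861730585768278262431756986826610534909112821367561485593429462224362717520417736638426236036071151836815810144687297672008268523296677093915527293534452858816571570480749147192061952077587739909815967456949761363205104057607712559175699465228406124649650943493913286861181979994608660791193971563592894376822565949694742938393150879872057985)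

noncomputable def t122 : Tre := Helper55.PC.toT t122n

theorem ok122 : chk K t122 r125 = true :=
  Helper55.PC.chkN_sound K t122n r125 (by decide +kernel)

open Helper55.PC in
noncomputable def t123n : Helper55.PC.Ten :=
  (s
  19701508453702865204059724385582355429168907829729227483576834505650747270463216925572612156024819495148648064635508286522407804618065346317315232402603983578145541360349679186661670652912439492420526627158275325542890238174576790483164204626265739401054314678145462888609122800290642469027949129981479517254810829174101395074823115412631668854843274180326355244841298913953313659502316037543441626516353863038179672671920509367428676243847776652417065743744921319425208312219040250487500322076485699193468331519699335642912479168483019820731651492661051035087035358811938183560848913471618977993008231804172050729418118072711946735102028188299993415278484851348946927554649396036118266985691908690666847523282791592624769)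

noncomputable def t123 : Tre := Helper55.PC.toT t123n

theorem ok123 : chk K t123 r124 = true :=
  Helper55.PC.chkN_sound K t123n r124 (by decide +kernel)

noncomputable def t124 : Tre :=
  (.N [0,0,1,-1,2] (-1) ⟨0,[(27,0)]⟩ ⟨0,[(15,0)]⟩ (.i (-1) ⟨0,[(0,0)]⟩ ⟨4,[(1,0),(3,2),(1,4),(1,6),
  (2,2),(0,4),(1,0),(24,3),(5,1),(1,9)]⟩))

theorem ok124 : chk K t124 l126 = true := by decide +kernel

open Helper81.PXd in
noncomputable def t125n : Helper81.PXd.Ten :=
  (s
  15699468585167354994048019752081580950511264834284240756497967125905545063059311632943310926640435045646644098780805670175545371641430189094339560535892985673564750660316448950645263014375884959267530177717113348833305979415553329723180464902146566494320437307032597956092635227711419651231113630503357112990055721021289832303971904714332156576694581197418448044738697358140857029246762317259886818197593361604243624495109149080252011121549794397717972760099723932434422121912280329097229037695826436058527604887056824480986584687759078678641066319755058477204733552727947149265467455629069455566114180964553483040295866598349406484787973339054440811490379641845234966313148196576979345885590229145567775318987858042471017924838407935447909423961788736179905005916465037936053841996044791081591609269848558546694844850992411516446684900690445406810811096008452103733484499443612875689471053575675431743857839504457566343783692383818071209063856008462533542050371966301330078010914636417)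

noncomputable def t125 : Tre := Helper81.PXd.toT t125n

theorem ok125 : chk K t125 r126 = true :=
  Helper81.PXd.chkN_sound K t125n r126 (by decide +kernel)

noncomputable def t126 : Tre :=
  (.N [0,-1,1,-1,-1] 0 ⟨0,[(1,0)]⟩ ⟨0,[(0,0)]⟩ (.x (-1) ⟨11,[(7,4),(11,4),(2,1),(3,11),(12,11),(0,
  3),(5,3)]⟩ ⟨0,[(28,0)]⟩))

theorem ok126 : chk K t126 l128 = true := by decide +kernel

noncomputable def t127 : Tre :=
  (.N [0,0,1,-1,2] (-1) ⟨0,[(26,0)]⟩ ⟨0,[(14,0)]⟩ (.i 0 ⟨0,[(0,0)]⟩ ⟨0,[(1,0)]⟩))

theorem ok127 : chk K t127 l130 = true := by decide +kernel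

open Helper55.PC in
noncomputable def t128n : Helper55.PC.Ten :=
  (s
  32353004202046905989638055454311329011276046000555483454110348348890476494915780981115177435265710459575754876629865445164321199373282373709941679624915178912502718340692473644571677736097206050179096862723672060937433429880426939969370541167898806993473868595048459561547436650296379065360371296191282160850813579097597665974597340646899568371495922118246229333273372385050853556723307085302599311323329049378336138751469958754512522780107075312418738305625643925755300806027795623096229308197659869130230570076729794038427924839922435244694657205653894260115910349136073775908274635034872868557626071546275621241473)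

noncomputable def t128 : Tre := Helper55.PC.toT t128n

theorem ok128 : chk K t128 r130 = true :=
  Helper55.PC.chkN_sound K t128n r130 (by decide +kernel)

noncomputable def t129 : Tre :=
  (.N [0,0,1,-1,2] (-1) ⟨0,[(26,0)]⟩ ⟨0,[(14,0)]⟩ (.i (-1) ⟨0,[(0,0)]⟩ ⟨0,[(3,0),(2,0),(0,0),(0,2),
  (2,0),(0,0),(26,1),(7,1)]⟩))

theorem ok129 : chk K t129 l131 = true := by decide +kernel

open Helper55.PC in
noncomputable def t130n : Helper55.PC.Ten :=
  (s
  32353004202046905989638055454311329011276046000555483454110348348890476494915780981115177435265710459575754876629865445164321199373282373709941679624915178912502718340692473644571677736097206050179096862723672060937433429880426939969370541167898806993473868595048459561547436650296379065360371296191282160850813579097597665974597340646899568371495922118246229333273372385050853556723307085302599311323329049378336138751469958754512522780107075312418738305625643925755300806027795623096229308197659869130230570076729794038427924839922435244694657205653894260115910349136073775908274635034872868557626071546275621241473)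

noncomputable def t130 : Tre := Helper55.PC.toT t130n

theorem ok130 : chk K t130 r131 = true :=
  Helper55.PC.chkN_sound K t130n r131 (by decide +kernel)

noncomputable def t131 : Tre :=
  (.N [0,-2,0,1,2] (-2) ⟨0,[(0,0)]⟩ ⟨0,[(1,0)]⟩ (.x 2 ⟨0,[(29,0),(10,0),(4,0)]⟩ ⟨3,[(8,0),(10,1),(0,
  0),(1,7),(0,0),(3,10),(12,3),(7,3)]⟩))

theorem ok131 : chk K t131 l133 = true := by decide +kernel

noncomputable def t132 : Tre :=
  (.N [0,0,1,-1,2] (-1) ⟨0,[(27,0)]⟩ ⟨0,[(15,0)]⟩ (.i 0 ⟨0,[(0,0)]⟩ ⟨0,[(1,0)]⟩))

theorem ok132 : chk K t132 l135 = true := by decide +kernel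

open Helper55.PC in
noncomputable def t133n : Helper55.PC.Ten :=
  (s
  1480340839475028241714951070391836211201517917716400960676250097882445507143142100284325818162867747255416540111278231482367528952879900959379473530550767034609045061038525873213421589785129927696852460735941808453316828651716015978565933454699730343025230289786270883511404906955246236163188629478589455694342159271068831333638745065855794810278926823228363120275660057807463436766155779423882731686250570420594934891213426117448819707923539574979479244967278216723898000389283340933008324597272841339987443550272030824302086950935416817982431366343968756528044838922674522411214133097291988201123112703342150273)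

noncomputable def t133 : Tre := Helper55.PC.toT t133n

theorem ok133 : chk K t133 r135 = true :=
  Helper55.PC.chkN_sound K t133n r135 (by decide +kernel)

open Helper55.PC in
noncomputable def t134n : Helper55.PC.Ten :=
  (s
  1480340839475028241714951070391836116230372692702873833229917407962153438931890754169796287602306218943862177839917313083490529839709846386516229815109498429090196047047398932343946281843862480552985288708365930138964128485298281235416453972862188438613072126592086308009952082150181120088734194648999499487490848441653929196298215109054961724730976356875030002573742962121031821484600137939743993886323421824528631947997510303660929505114567420321651233669216867536766995510574444949703894102764391359596990437083825107138230732761215054068255248775512074757241631331797023197911304659170247645070496605668377217)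

noncomputable def t134 : Tre := Helper55.PC.toT t134n

theorem ok134 : chk K t134 r134 = true :=
  Helper55.PC.chkN_sound K t134n r134 (by decide +kernel)

noncomputable def t135 : Tre :=
  (.N [0,1,1,-2,-1] 1 ⟨0,[(1,0)]⟩ ⟨0,[(0,0)]⟩ (.x (-2) ⟨3,[(9,0),(10,1),(0,0),(1,3),(0,0),(3,10),
  (12,7),(7,3)]⟩ ⟨3,[(30,1),(3,0),(1,2),(3,0)]⟩))

theorem ok135 : chk K t135 l137 = true := by decide +kernel

noncomputable def t136 : Tre :=
  (.N [0,0,1,-1,2] (-1) ⟨0,[(28,0)]⟩ ⟨0,[(16,0)]⟩ (.i (-1) ⟨0,[(1,0)]⟩ ⟨0,[(0,0)]⟩))

theorem ok136 : chk K t136 l139 = true := by decide +kernel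

open Helper55.PC in
noncomputable def t137n : Helper55.PC.Ten :=
  (s
  141788483466071710079779608089068223106606626301223913856392318549327726206669155081830735240510374329635058206770391589138754754792388702603144541104577576933990897352868540340417777079202082004680130701050216289829582808125100904964664513046871019253797354656174889084074585705931003709096010267983633020860096563616793700265151273319642558610834561612207862957828012170820859906330958168012330708206795707117499152557749848604596648819503400100910483842019430487174724948308825893310727988318928032288653409982720242086099971628558160897686757243537622196185811746972216644186784468036518766072285172104804917703597155237849579979932897561650922577720427131437697)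

noncomputable def t137 : Tre := Helper55.PC.toT t137n

theorem ok137 : chk K t137 r139 = true :=
  Helper55.PC.chkN_sound K t137n r139 (by decide +kernel)

noncomputable def t138 : Tre :=
  (.N [0,0,1,-1,2] (-1) ⟨0,[(29,0)]⟩ ⟨0,[(17,0)]⟩ (.i 0 ⟨0,[(1,0)]⟩ ⟨0,[(0,0)]⟩))

theorem ok138 : chk K t138 l141 = true := by decide +kernel

open Helper55.PC in
noncomputable def t139n : Helper55.PC.Ten :=
  (s
  141788483466071710079779608089068232203035161817472868753408570551793651594607227142226183470981669260688833307828643846198229299166568289518314033114293117461747827786075960229552739405158712713889088519199249294683109892547345327314510081709813357689631977937321832762783854640124269041670857431013639968495739947974408823934299595691960766017647024808816543393305124276464437731611280587200925525538716093958619465496895268960159352070279810133517328354492637292789032738209673937744877616516406346319528919735624683457968173359851070500617098539711101606063577302361202582174328818830960251009336366024978093810227171448654400172067380337414113576572308796998273)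

noncomputable def t139 : Tre := Helper55.PC.toT t139n

theorem ok139 : chk K t139 r141 = true :=
  Helper55.PC.chkN_sound K t139n r141 (by decide +kernel)

open Helper55.PC in
noncomputable def t140n : Helper55.PC.Ten :=
  (s
  141788483466071710079779608089068223106606626301223913856392318549327726206669155081830735240510374329635058206770391589138754754792388702603144541104577576933990897352868540340417777079202082004680130701050216289829582808125100904964664513046871019253797354656174889084074585705931003709096010267983633020860096563616793700265151273319642558610834561612207862957828012170820859906330958168012330708206795707117499152557749848604596648819503400100910483842019430487174724948308825893310727988318928032288653409982720242086099971628558160897686757243537622196185811746972216644186784468036518766072285172104804917703597155237849579979932897561650922577720427131437697)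

noncomputable def t140 : Tre := Helper55.PC.toT t140n

theorem ok140 : chk K t140 r140 = true :=
  Helper55.PC.chkN_sound K t140n r140 (by decide +kernel)

noncomputable def t141 : Tre :=
  (.N [0,0,1,-1,2] (-1) ⟨0,[(27,0)]⟩ ⟨0,[(15,0)]⟩ (.i (-1) ⟨0,[(1,0)]⟩ ⟨0,[(0,0)]⟩))

theorem ok141 : chk K t141 l143 = true := by decide +kernel

open Helper55.PC in
noncomputable def t142n : Helper55.PC.Ten :=
  (s
  97015617255835450849031033349199377937302678255462052009247202720023865445590741334156008873229536905961987692384236654042400383911792789316157971562634616861157059113693043662121298040148079353386652368387803358189100546306311802971765289640367079977437220112087019179298463426026557796313413512417460276447007588139181553252579701632456814389158163529491153894733328135702905914588047463067039429066245144713014510932298759190588741215970727224258640898189752901369032963982773228689343768254810105791939469482024530190844658159638127968374526646358893116083662148093129834247364768238944365111420474995659118740097)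

noncomputable def t142 : Tre := Helper55.PC.toT t142n

theorem ok142 : chk K t142 r143 = true :=
  Helper55.PC.chkN_sound K t142n r143 (by decide +kernel)

open Helper55.PC in
noncomputable def t143n : Helper55.PC.Ten :=
  (s
  97015617255835450849031033349199371713273704788975538184924343553407604463298173115194201558412576586535961006568327505853597370031080092828992431427475637529873770132770548465299364258909175937366173382388590596979681988199959138844721002318661933729882022728992938839235251099601810349257967671425501162196105457109832667972747348442236545389244609720229541082343529364122307393658882863021021257304801268411220118927241350311428922097927329702257571448133367330506054427268683156403809154970460623987205588291691699228767571623294587731871066649102396423141407059297114742810395637533733212969150880798209899233921)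

noncomputable def t143 : Tre := Helper55.PC.toT t143n

theorem ok143 : chk K t143 r142 = true :=
  Helper55.PC.chkN_sound K t143n r142 (by decide +kernel)

noncomputable def t144 : Tre :=
  (.N [0,1,0,0,7] (-3) ⟨0,[(1,0)]⟩ ⟨0,[(0,0)]⟩ (.x 2 ⟨124,[(1,5),(5,20),(20,124),(2,1),(1,165),(4,
  163),(0,124),(3,1)]⟩ ⟨0,[(2,0)]⟩))

theorem ok144 : chk K t144 l146 = true := by decide +kernel

noncomputable def t145 : Tre :=
  (.N [0,1,0,0,5] (-2) ⟨0,[(2,0)]⟩ ⟨0,[(1,0)]⟩ (.x 1 ⟨124,[(4,11),(5,41),(20,124),(2,3),(1,81),(4,
  77),(0,124),(3,3)]⟩ ⟨0,[(0,0)]⟩))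

theorem ok145 : chk K t145 l149 = true := by decide +kernel

noncomputable def t146 : Tre :=
  (.N [0,1,0,0,5] (-2) ⟨0,[(3,0)]⟩ ⟨0,[(2,0)]⟩ (.x 2 ⟨0,[(0,0)]⟩ ⟨1258,[(5,169),(0,844),(4,594),(14,
  68),(8,33),(8,137),(0,33),(4,137)]⟩))

theorem ok146 : chk K t146 l150 = true := by decide +kernel

noncomputable def t147 : Tre :=
  (.N [0,0,1,-1,2] (-1) ⟨0,[(29,0)]⟩ ⟨0,[(17,0)]⟩ (.i (-1) ⟨0,[(0,0)]⟩ ⟨4,[(4,0),(3,2),(0,4),(1,6),
  (2,2),(0,4),(1,0),(24,3),(5,1),(1,9)]⟩))

theorem ok147 : chk K t147 l151 = true := by decide +kernel

open Helper55.PC in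
noncomputable def t148n : Helper55.PC.Ten :=
  (s
  7212982124634401051684941587835051086261393920692007609622740133889927457970344798060349717764867510163153613274779951187886717069191068055327916523506204743814970748407121701757810053352309409290677377347855489509711428042887382019346830541124093612274341285770977460771219571777333085910457587058692971217599569700820897979103364849527018300767735625439379556654631533512337310347552360666273657744054624896515548589264408638441236664691568224933009548407688548055323644690869344861546062105413641326072303612217476672272733843222960752909129738031454799009930301674368925753019774107886265545185320936923489810056654518067761432401263987803480347947853738555757730847554460183191301622179068340889595403043457)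

noncomputable def t148 : Tre := Helper55.PC.toT t148n

theorem ok148 : chk K t148 l152 = true :=
  Helper55.PC.chkN_sound K t148n l152 (by decide +kernel)

noncomputable def t149 : Tre :=
  (.N [0,0,1,-1,2] (-1) ⟨0,[(31,0)]⟩ ⟨0,[(19,0)]⟩ (.i 1 ⟨0,[(36,0),(2,0),(16,1)]⟩ ⟨0,[(0,0)]⟩))

theorem ok149 : chk K t149 l153 = true := by decide +kernel

open Helper55.PC in
noncomputable def t150n : Helper55.PC.Ten :=
  (s
  7212982124634401051684941587835051086261393920692008330316058445162848573156690164831192374559917687187774162929258760855282843764349872533037167052717700134457028817932149724220538174010298930034775031038470496298620446250726174752702382118966811032376538905025795701394793496019331506006240450170333400903125229500486458230157975839850996948269452107583268763643093857400517189341851822356996297623986024053669024089247057452270635209129661122471669707452631602466165913921656817731055007639586077641643241365102271348437879464788899202821636766212606997197492495918398577060391330128200876259692153615387265476717512915911098805426051400064663197190703751780509950592645222939756037400660482363912723027198593)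

noncomputable def t150 : Tre := Helper55.PC.toT t150n

theorem ok150 : chk K t150 r153 = true :=
  Helper55.PC.chkN_sound K t150n r153 (by decide +kernel)

noncomputable def t151 : Tre :=
  (.N [0,0,1,-1,2] (-1) ⟨0,[(27,0)]⟩ ⟨0,[(15,0)]⟩ (.i (-1) ⟨0,[(0,0)]⟩ ⟨4,[(1,0),(4,2),(0,4),(1,6),
  (2,2),(0,4),(1,0),(24,3),(5,1),(1,9)]⟩))

theorem ok151 : chk K t151 l154 = true := by decide +kernel

open Helper55.PC in
noncomputable def t152n : Helper55.PC.Ten :=
  (s
  7212982124634401051684941587835051086261393920692005447542785200071164112411308697747821747379716979089291964311343522185698336983714654622200164935871718571888796539832037634369625691378340847058384416276010469142984373419371003819280175807595941351967748428008750428975131693793663860885007535685100461493007332363162702207506751450741015991522373999479079600324605699134172447491967760277652512092088938819608147454813997742571311153128074855177396045914901772720772242653659831259500467640417217343131867160291118496814252846814041967370752390916816878993751538735637264115537239960364183317048218525150118040821916947823034092080977756607765604868725124749293005758558089505916554338948760346239406047232641)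

noncomputable def t152 : Tre := Helper55.PC.toT t152n

theorem ok152 : chk K t152 r154 = true :=
  Helper55.PC.chkN_sound K t152n r154 (by decide +kernel)

noncomputable def t153 : Tre :=
  (.N [0,0,1,-1,2] (-1) ⟨0,[(27,0)]⟩ ⟨0,[(15,0)]⟩ (.i 0 ⟨0,[(0,0)]⟩ ⟨0,[(1,0)]⟩))

theorem ok153 : chk K t153 l156 = true := by decide +kernel

open Helper55.PC in
noncomputable def t154n : Helper55.PC.Ten :=
  (s
  7212982124634401051684941587835051086261393920692005447542785200071164112411308697747821747379716979089291964311343522185698336983714654622200164935871718571888796539832037634369625691378340847058384416276010469142984373419371003819280175807595941351967748428008750428975131693793663860885007535685100461493007332363162724034689098811843671664493243278279337221875310919646568513488690952641533482150915752773355007923924914175719402406523277728724797672101463003874545692510299467454185535410600266508897674880842734441468319982761906256099605241456545938179243021939748759120685935270554924928533332794158533436751493411742424004037121829277321627110238453015576259615686131825148703220836630329867134944936577)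

noncomputable def t154 : Tre := Helper55.PC.toT t154n

theorem ok154 : chk K t154 r156 = true :=
  Helper55.PC.chkN_sound K t154n r156 (by decide +kernel)

open Helper55.PC in
noncomputable def t155n : Helper55.PC.Ten :=
  (s
  7212982124634401051684941587835051086261393920692004726849466888798242997224963330976979090584666802064671414656864712518302210288555850144490914406660223181246738470307009611906897570720351326314286762585395462354075355211532211085924624229753223931865550808753932188351557769551665440789224672573460031807481672563497163783634487821519693016991526796135448014886848595758388634494391490950810842270984353616201532423942265361890003862085184831186137513056519949463703423279511994584676589876427830193326737127957939765303174361195967806187098213275393739991680827695719107813314379250240314214026500115694757770090635013899086631012334417016138777867388439790824039870595369068583967442355216306844007320781441)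

noncomputable def t155 : Tre := Helper55.PC.toT t155n

theorem ok155 : chk K t155 r155 = true :=
  Helper55.PC.chkN_sound K t155n r155 (by decide +kernel)

noncomputable def t156 : Tre :=
  (.N [0,0,1,-1,2] (-1) ⟨0,[(25,0)]⟩ ⟨0,[(13,0)]⟩ (.i 0 ⟨0,[(0,0)]⟩ ⟨0,[(1,0)]⟩))

theorem ok156 : chk K t156 l158 = true := by decide +kernel

open Helper55.PC in
noncomputable def t157n : Helper55.PC.Ten :=
  (s
  922490284265319467133252838767456180746022904868647199921618307609429006138335070330935695984839520471131002028966819528575255564643296510208408750610681481440256626965767241528045734256843797481257497104407403528442152497284095769803982266817543702512864171495918850623625836878932139475855859762312786098426446834255980296589535233164061107984742704771989339057729231180749334302125366024902924663478475230927898987992002986062038600802600809004707715200900311406439799225948152406930488184817588957364048905565906225394996129291312614512630169621274594470992770207001083529800965371954949276666026210849434550860205302326652099943800237041598257547216893772417)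

noncomputable def t157 : Tre := Helper55.PC.toT t157n

theorem ok157 : chk K t157 r158 = true :=
  Helper55.PC.chkN_sound K t157n r158 (by decide +kernel)

noncomputable def t158 : Tre :=
  (.N [0,0,1,-1,2] (-1) ⟨0,[(25,0)]⟩ ⟨0,[(13,0)]⟩ (.i (-1) ⟨0,[(0,0)]⟩ ⟨2,[(4,0),(0,2),(0,0),(0,4),
  (2,1),(0,2),(26,2),(5,0),(1,5)]⟩))

theorem ok158 : chk K t158 l159 = true := by decide +kernel

open Helper55.PC in
noncomputable def t159n : Helper55.PC.Ten :=
  (s
  922490284265319467133252838767456180746022904868647199921618307609429006138335070330935695984839520471131002028966819528575255564643296510208408750610681481440256626965767241528045734256843797481257497104407403528442152497284095769803982266817543702512864171495918850623625836878932139475855859762312786098426446834255980296589535233164061107984742704771989339057729231180749334302125366024902924663478475230927898987992002986062038600802600809004707715200900311406439799225948152406930488184817588957364048905565906225394996129291312614512630169621274594470992770207001083529800965371954949276666026210849434550860205302326652099943800237041598257547216893772417)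

noncomputable def t159 : Tre := Helper55.PC.toT t159n

theorem ok159 : chk K t159 r159 = true :=
  Helper55.PC.chkN_sound K t159n r159 (by decide +kernel)

noncomputable def t160 : Tre :=
  (.N [0,1,0,0,7] (-3) ⟨0,[(2,0)]⟩ ⟨0,[(1,0)]⟩ (.x 3 ⟨0,[(0,0)]⟩ ⟨83,[(2,9),(5,34),(7,4),(6,13),(3,
  251),(13,27),(5,27)]⟩))

theorem ok160 : chk K t160 l162 = true := by decide +kernel

noncomputable def t161 : Tre :=
  (.N [0,0,1,-1,2] (-1) ⟨0,[(26,0)]⟩ ⟨0,[(14,0)]⟩ (.i (-1) ⟨0,[(0,0)]⟩ ⟨7,[(3,0),(1,4),(0,7),(1,11),
  (2,4),(0,7),(1,0),(24,6),(5,2),(1,15)]⟩))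

theorem ok161 : chk K t161 l163 = true := by decide +kernel

open Helper55.PC in
noncomputable def t162n : Helper55.PC.Ten :=
  (s
  7212982124634401051684941587835051086261396967729293922217542220593974778454675305281126740526252866489900395343955469585667086111708658948653645767708183587919626827783388268007550116619944593873932665412169770925805479868498159297387091210983724036561717440588343874877889948927022004268168308117241792457419787805283056121658114621116486245058234848271119233691682337612667424007776401092591758459151778665243609871104485870870602917711610463501487853812008991145293924813648604818128683139194817338606292097897121298551259114767599672755183381236558821788750315622842572203250099104703426879488443224859112409420229691112705052186305236507729714988342516543814026022061537458632419886386629751430297636831873)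

noncomputable def t162 : Tre := Helper55.PC.toT t162n

theorem ok162 : chk K t162 r163 = true :=
  Helper55.PC.chkN_sound K t162n r163 (by decide +kernel)

noncomputable def t163 : Tre :=
  (.N [0,1,0,0,5] (-2) ⟨0,[(1,0)]⟩ ⟨0,[(0,0)]⟩ (.x 2 ⟨2,[(4,1),(18,0)]⟩ ⟨83,[(3,9),(5,34),(7,4),(6,
  13),(3,167),(13,27),(5,27)]⟩))

theorem ok163 : chk K t163 l165 = true := by decide +kernel

noncomputable def t164 : Tre :=
  (.N [0,0,1,-1,2] (-1) ⟨0,[(27,0)]⟩ ⟨0,[(15,0)]⟩ (.i (-1) ⟨0,[(0,0)]⟩ ⟨4,[(1,0),(4,2),(0,4),(1,6),
  (2,2),(0,4),(1,0),(24,3),(5,1),(1,9)]⟩))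

theorem ok164 : chk K t164 l166 = true := by decide +kernel

open Helper55.PC in
noncomputable def t165n : Helper55.PC.Ten :=
  (s
  52627095688947148480043993480136754977196130325696395924806698616417932111394588711841547964589314357393208339699014083408723224613510194412966535231195828590456674095542695419915786468577957008967553770633380040930722756680423226984626841177500346190522093545799135904741457781314369005523836584505162726049684951861690503149473735599868135457008876244794894222030053643341127104459953320027597793664157954577111181921427375294607878403455012018987013116154150144763214906850273452111324562409380166088938745063983587822420830903300622239327818681804496891872065760810716205392752366721046675431986818365743939426972372355432430498896791208577)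

noncomputable def t165 : Tre := Helper55.PC.toT t165n

theorem ok165 : chk K t165 r166 = true :=
  Helper55.PC.chkN_sound K t165n r166 (by decide +kernel)

noncomputable def t166 : Tre :=
  (.N [0,0,1,-1,2] (-1) ⟨0,[(26,0)]⟩ ⟨0,[(14,0)]⟩ (.i (-1) ⟨0,[(0,0)]⟩ ⟨7,[(3,0),(1,4),(0,7),(1,11),
  (2,4),(0,7),(1,0),(24,6),(5,2),(1,15)]⟩))

theorem ok166 : chk K t166 l167 = true := by decide +kernel

open Helper55.PC in
noncomputable def t167n : Helper55.PC.Ten :=
  (s
  52627095688947148480043993480136754977196130323944487514453771153967107726426076033976436581960271612574139089209592128460796282423465873181392269879231687491099356243903656037678739935358974700462425902268728505121266010531980854059077287535110604949022278802425264244997263793317706300319268466787124365845211815490304629463482226368894749332966279313900131924277723187867460490712437363661419671308758299904525770094285182387876888469781679503910554330140585999070015541412908931002926400355550397337263159222568729485256263169507069395717864397587848818459177153996796720342525323547793444491199912204015341250851814769583029149612974801537)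

noncomputable def t167 : Tre := Helper55.PC.toT t167n

theorem ok167 : chk K t167 r167 = true :=
  Helper55.PC.chkN_sound K t167n r167 (by decide +kernel)

noncomputable def t168 : Tre :=
  (.N [0,0,1,-1,2] (-1) ⟨0,[(24,0)]⟩ ⟨0,[(12,0)]⟩ (.i (-1) ⟨0,[(0,0)]⟩ ⟨2,[(3,0),(0,2),(0,0),(0,4),
  (2,1),(0,2),(26,2),(5,0),(1,5)]⟩))

theorem ok168 : chk K t168 l168 = true := by decide +kernel

noncomputable def t169 : Tre :=
  (.N [0,0,1,-1,2] (-1) ⟨0,[(25,0)]⟩ ⟨0,[(13,0)]⟩ (.i 1 ⟨0,[(30,0),(2,0),(16,1)]⟩ ⟨0,[(0,0)]⟩))

theorem ok169 : chk K t169 l169 = true := by decide +kernel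

open Helper55.PC in
noncomputable def t170n : Helper55.PC.Ten :=
  (s
  114940960578902128438152116467248223623145526789846316730571237526145670238981872153805393307173720070875860501375488883424808224010906446028189392990990552207665698616823479875262505790704812835580316286055670828208069529554151848917342832900160868799830436007019549962709790049992228355066445814073804807222245707952258409696699788925857436242835937173921029153055979188141361557070889776356608863313511917937423790570668859640144959791728353692652318931561556373641680811339154746231182872811411492546457940830741616708177568110479912782739300194046539257028799572441018490129897367267960733400302209)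

noncomputable def t170 : Tre := Helper55.PC.toT t170n

theorem ok170 : chk K t170 l170 = true :=
  Helper55.PC.chkN_sound K t170n l170 (by decide +kernel)

open Helper55.PC in
noncomputable def t171n : Helper55.PC.Ten :=
  (s
  114940960578902128438152116467248223623145526789846316730571237526145670238981872153805393307173720070875860501375488883424808224010906446028189392990990552207665698616823479875262505790704812835580316286055670828208069529554151848917342832900160868799830436007019549962709790049992228355066445814073804807222245707952258409696699788925857436242835937173921029153055979188141361557070889776356608863313511917937423790570668859640144959791728353692652318931561556373641680811339154746231182872811411492546457940830741616708177568110479912782739300194046539257028799572441018490129897367267960733400302209)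

noncomputable def t171 : Tre := Helper55.PC.toT t171n

theorem ok171 : chk K t171 r170 = true :=
  Helper55.PC.chkN_sound K t171n r170 (by decide +kernel)

theorem cl0 : Clo K (Helper55.TR.GH (-1) Helper55.TR.BrU [0,0,1]) l12 :=
  .w [n0,n0,n0,n0,n0,n0,n0,n0,n0,n0,n0,n2,m1,n1,m2] (e' := [n1,n0,n0,n0,n0,n0,n0,n0,n0,n0,n0,m2,n1,m1,n2])
  (by decide +kernel) (.t t6 ok6) (.t t7 ok7)

theorem cl1 : Clo K (Helper55.TR.GH (-1) Helper55.TR.BrU [0,0,1]) l15 :=
  .w [n0,n0,n0,n0,n0,n0,n0,n0,n0,n0,n0,n0,n1,m1,n2] (e' := [n1,n0,n0,n0,n0,n0,n0,n0,n0,n0,n0,n0,m1,n1,m2]) (by decide +kernel)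
  (.t t9 ok9) (.t t10 ok10)

theorem cl2 : Clo K (Helper55.TR.GH (-1) Helper55.TR.BrU [0,0,1]) r14 :=
  .w [n0,n0,n0,n0,n0,n0,n0,n0,n0,n0,n0,n1,m1,n1,m2] (e' := [n1,n0,n0,n0,n0,n0,n0,n0,n0,n0,n0,m1,n1,m1,n2])
  (by decide +kernel) cl1 (.t t11 ok11)

theorem cl3 : Clo K (Helper55.TR.GH (-1) Helper55.TR.BrU [0,0,1]) r12 :=
  .w [n0,n0,n0,n0,n0,n0,n0,n0,n0,n0,n0,n0,m1,n1,m2] (e' := [n1,n0,n0,n0,n0,n0,n0,n0,n0,n0,n0,n0,n1,m1,n2]) (by decide +kernel)
  (.t t8 ok8) cl2

theorem cl4 : Clo K (Helper55.TR.GH (-1) Helper55.TR.BrU [0,0,1]) r11 :=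
  .w [n0,n0,n0,n0,n0,n0,n0,n0,n0,n0,n0,m1,n1,m1,n2] (e' := [n1,n0,n0,n0,n0,n0,n0,n0,n0,n0,n0,n1,m1,n1,m2])
  (by decide +kernel) cl0 cl3

theorem cl5 : Clo K (Helper55.TR.GH (-1) Helper55.TR.BrU [0,0,1]) l10 :=
  .i [n1,n0,m1,m1,m2,n0,n0,n0,n0,n0,m5] (e' := [n0,n0,n1,n1,n2,n0,n0,n0,n0,n0,n5]) (by decide +kernel)
  (by decide +kernel) (.t t5 ok5) cl4

theorem cl6 : Clo K (Helper55.TR.GH (-1) Helper55.TR.BrU [0,0,1]) l17 :=
  .w [n0,n0,n0,n0,n0,n0,n0,n0,n0,n0,n0,n2,m1,n1,m2] (e' := [n1,n0,n0,n0,n0,n0,n0,n0,n0,n0,n0,m2,n1,m1,n2])
  (by decide +kernel) (.t t12 ok12) (.t t13 ok13)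

theorem cl7 : Clo K (Helper55.TR.GH (-1) Helper55.TR.BrU [0,0,1]) r17 :=
  .w [n0,n0,n0,n0,n0,n0,n0,n0,n0,n0,n0,n0,n1,m1,n2] (e' := [n1,n0,n0,n0,n0,n0,n0,n0,n0,n0,n0,n0,m1,n1,m2]) (by decide +kernel)
  (.t t14 ok14) (.t t15 ok15)

theorem cl8 : Clo K (Helper55.TR.GH (-1) Helper55.TR.BrU [0,0,1]) r10 :=
  .w [n0,n0,n0,n0,n0,n0,n0,n0,n0,n0,n0,m1,n1,m1,n2] (e' := [n1,n0,n0,n0,n0,n0,n0,n0,n0,n0,n0,n1,m1,n1,m2])
  (by decide +kernel) cl6 cl7

theorem cl9 : Clo K (Helper55.TR.GH (-1) Helper55.TR.BrU [0,0,1]) l9 :=
  .i [n1,n0,n1,n1,n2,n0,n0,n0,n0,n0,n5] (e' := [n0,n0,m1,m1,m2,n0,n0,n0,n0,n0,m5]) (by decide +kernel)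
  (by decide +kernel) cl5 cl8

theorem cl10 : Clo K (Helper55.TR.GH (-1) Helper55.TR.BrU [0,0,1]) l23 :=
  .w [n0,n0,n0,n0,n0,n0,n0,n0,n0,n0,n0,n2,m1,n1,m2] (e' := [n1,n0,n0,n0,n0,n0,n0,n0,n0,n0,n0,m2,n1,m1,n2])
  (by decide +kernel) (.t t17 ok17) (.t t18 ok18)

theorem cl11 : Clo K (Helper55.TR.GH (-1) Helper55.TR.BrU [0,0,1]) l25 :=
  .w [n0,n0,n0,n0,n0,n0,n0,n0,n0,n0,n0,n1,m1,n1,m2] (e' := [n1,n0,n0,n0,n0,n0,n0,n0,n0,n0,n0,m1,n1,m1,n2])
  (by decide +kernel) (.t t19 ok19) (.t t20 ok20)

theorem cl12 : Clo K (Helper55.TR.GH (-1) Helper55.TR.BrU [0,0,1]) r23 :=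
  .w [n0,n0,n0,n0,n0,n0,n0,n0,n0,n0,n0,n0,n1,m1,n2] (e' := [n1,n0,n0,n0,n0,n0,n0,n0,n0,n0,n0,n0,m1,n1,m2]) (by decide +kernel)
  cl11 (.t t21 ok21)

theorem cl13 : Clo K (Helper55.TR.GH (-1) Helper55.TR.BrU [0,0,1]) r22 :=
  .w [n0,n0,n0,n0,n0,n0,n0,n0,n0,n0,n0,m1,n1,m1,n2] (e' := [n1,n0,n0,n0,n0,n0,n0,n0,n0,n0,n0,n1,m1,n1,m2])
  (by decide +kernel) cl10 cl12

theorem cl14 : Clo K (Helper55.TR.GH (-1) Helper55.TR.BrU [0,0,1]) l21 :=
  .i [n0,n0,n4,n0,m2,n1] (e' := [n1,n0,m4,n0,n2,m1]) (by decide +kernel) (by decide +kernel) (.t t16 ok16)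
  cl13

theorem cl15 : Clo K (Helper55.TR.GH (-1) Helper55.TR.BrU [0,0,1]) l27 :=
  .w [n0,n0,n0,n0,n0,n0,n0,n0,n0,n0,n0,n2,m1,n1,m2] (e' := [n1,n0,n0,n0,n0,n0,n0,n0,n0,n0,n0,m2,n1,m1,n2])
  (by decide +kernel) (.t t22 ok22) (.t t23 ok23)

theorem cl16 : Clo K (Helper55.TR.GH (-1) Helper55.TR.BrU [0,0,1]) l29 :=
  .w [n0,n0,n0,n0,n0,n0,n0,n0,n0,n0,n0,n1,m1,n1,m2] (e' := [n1,n0,n0,n0,n0,n0,n0,n0,n0,n0,n0,m1,n1,m1,n2])
  (by decide +kernel) (.t t24 ok24) (.t t25 ok25)

theorem cl17 : Clo K (Helper55.TR.GH (-1) Helper55.TR.BrU [0,0,1]) r27 :=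
  .w [n0,n0,n0,n0,n0,n0,n0,n0,n0,n0,n0,n0,n1,m1,n2] (e' := [n1,n0,n0,n0,n0,n0,n0,n0,n0,n0,n0,n0,m1,n1,m2]) (by decide +kernel)
  cl16 (.t t26 ok26)

theorem cl18 : Clo K (Helper55.TR.GH (-1) Helper55.TR.BrU [0,0,1]) r21 :=
  .w [n0,n0,n0,n0,n0,n0,n0,n0,n0,n0,n0,m1,n1,m1,n2] (e' := [n1,n0,n0,n0,n0,n0,n0,n0,n0,n0,n0,n1,m1,n1,m2])
  (by decide +kernel) cl15 cl17

theorem cl19 : Clo K (Helper55.TR.GH (-1) Helper55.TR.BrU [0,0,1]) l20 :=
  .i [n1,n0,n1,n1,n2,n0,n0,n0,n0,n0,n5] (e' := [n0,n0,m1,m1,m2,n0,n0,n0,n0,n0,m5]) (by decide +kernel)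
  (by decide +kernel) cl14 cl18

theorem cl20 : Clo K (Helper55.TR.GH (-1) Helper55.TR.BrU [0,0,1]) l31 :=
  .w [n0,n0,n0,n0,n0,n0,n0,n0,n0,n0,n0,n2,m1,n1,m2] (e' := [n1,n0,n0,n0,n0,n0,n0,n0,n0,n0,n0,m2,n1,m1,n2])
  (by decide +kernel) (.t t27 ok27) (.t t28 ok28)

theorem cl21 : Clo K (Helper55.TR.GH (-1) Helper55.TR.BrU [0,0,1]) l33 :=
  .w [n0,n0,n0,n0,n0,n0,n0,n0,n0,n0,n0,n1,m1,n1,m2] (e' := [n1,n0,n0,n0,n0,n0,n0,n0,n0,n0,n0,m1,n1,m1,n2])
  (by decide +kernel) (.t t29 ok29) (.t t30 ok30)

theorem cl22 : Clo K (Helper55.TR.GH (-1) Helper55.TR.BrU [0,0,1]) r31 :=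
  .w [n0,n0,n0,n0,n0,n0,n0,n0,n0,n0,n0,n0,n1,m1,n2] (e' := [n1,n0,n0,n0,n0,n0,n0,n0,n0,n0,n0,n0,m1,n1,m2]) (by decide +kernel)
  cl21 (.t t31 ok31)

theorem cl23 : Clo K (Helper55.TR.GH (-1) Helper55.TR.BrU [0,0,1]) r20 :=
  .w [n0,n0,n0,n0,n0,n0,n0,n0,n0,n0,n0,m1,n1,m1,n2] (e' := [n1,n0,n0,n0,n0,n0,n0,n0,n0,n0,n0,n1,m1,n1,m2])
  (by decide +kernel) cl20 cl22

theorem cl24 : Clo K (Helper55.TR.GH (-1) Helper55.TR.BrU [0,0,1]) r9 :=
  .i [n1,n0,m1,m1,m2,n0,n0,n0,n0,n0,m5] (e' := [n0,n0,n1,n1,n2,n0,n0,n0,n0,n0,n5]) (by decide +kernel)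
  (by decide +kernel) cl19 cl23

theorem cl25 : Clo K (Helper55.TR.GH (-1) Helper55.TR.BrU [0,0,1]) r8 :=
  .i [n0,n0,m4,n0,n2,m1] (e' := [n1,n0,n4,n0,m2,n1]) (by decide +kernel) (by decide +kernel) cl9 cl24

theorem cl26 : Clo K (Helper55.TR.GH (-1) Helper55.TR.BrU [0,0,1]) l7 :=
  .i [n1,n0,n3,n3,m1,n0,n0,m1,n0,n0,n1] (e' := [n0,n0,m3,m3,n1,n0,n0,n1,n0,n0,m1]) (by decide +kernel)
  (by decide +kernel) (.t t4 ok4) cl25

theorem cl27 : Clo K (Helper55.TR.GH (-1) Helper55.TR.BrU [0,0,1]) l35 :=
  .w [n0,n0,n0,n0,n0,n0,n0,n0,n0,n0,n0,n2,m1,n1,m2] (e' := [n1,n0,n0,n0,n0,n0,n0,n0,n0,n0,n0,m2,n1,m1,n2])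
  (by decide +kernel) (.t t32 ok32) (.t t33 ok33)

theorem cl28 : Clo K (Helper55.TR.GH (-1) Helper55.TR.BrU [0,0,1]) l37 :=
  .w [n0,n0,n0,n0,n0,n0,n0,n0,n0,n0,n0,n1,m1,n1,m2] (e' := [n1,n0,n0,n0,n0,n0,n0,n0,n0,n0,n0,m1,n1,m1,n2])
  (by decide +kernel) (.t t34 ok34) (.t t35 ok35)

theorem cl29 : Clo K (Helper55.TR.GH (-1) Helper55.TR.BrU [0,0,1]) r35 :=
  .w [n0,n0,n0,n0,n0,n0,n0,n0,n0,n0,n0,n0,n1,m1,n2] (e' := [n1,n0,n0,n0,n0,n0,n0,n0,n0,n0,n0,n0,m1,n1,m2]) (by decide +kernel)
  cl28 (.t t36 ok36)

theorem cl30 : Clo K (Helper55.TR.GH (-1) Helper55.TR.BrU [0,0,1]) r7 :=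
  .w [n0,n0,n0,n0,n0,n0,n0,n0,n0,n0,n0,m1,n1,m1,n2] (e' := [n1,n0,n0,n0,n0,n0,n0,n0,n0,n0,n0,n1,m1,n1,m2])
  (by decide +kernel) cl27 cl29

theorem cl31 : Clo K (Helper55.TR.GH (-1) Helper55.TR.BrU [0,0,1]) r6 :=
  .i [n1,n0,m3,m3,n1,n0,n0,n1,n0,n0,m1] (e' := [n0,n0,n3,n3,m1,n0,n0,m1,n0,n0,n1]) (by decide +kernel)
  (by decide +kernel) cl26 cl30

theorem cl32 : Clo K (Helper55.TR.GH (-1) Helper55.TR.BrU [0,0,1]) l5 :=
  .i [n1,n0,n1,n1,n0,n0,n0,m1,n0,n1,n1] (e' := [n0,n0,m1,m1,n0,n0,n0,n1,n0,m1,m1]) (by decide +kernel)
  (by decide +kernel) (.t t3 ok3) cl31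

theorem cl33 : Clo K (Helper55.TR.GH (-1) Helper55.TR.BrU [0,0,1]) l41 :=
  .w [n0,n0,n0,n0,n0,n0,n0,n0,n0,n0,n0,n2,m1,n1,m2] (e' := [n1,n0,n0,n0,n0,n0,n0,n0,n0,n0,n0,m2,n1,m1,n2])
  (by decide +kernel) (.t t38 ok38) (.t t39 ok39)

theorem cl34 : Clo K (Helper55.TR.GH (-1) Helper55.TR.BrU [0,0,1]) r41 :=
  .w [n0,n0,n0,n0,n0,n0,n0,n0,n0,n0,n0,n0,n1,m1,n2] (e' := [n1,n0,n0,n0,n0,n0,n0,n0,n0,n0,n0,n0,m1,n1,m2]) (by decide +kernel)
  (.t t40 ok40) (.t t41 ok41)

theorem cl35 : Clo K (Helper55.TR.GH (-1) Helper55.TR.BrU [0,0,1]) r40 :=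
  .w [n0,n0,n0,n0,n0,n0,n0,n0,n0,n0,n0,m1,n1,m1,n2] (e' := [n1,n0,n0,n0,n0,n0,n0,n0,n0,n0,n0,n1,m1,n1,m2])
  (by decide +kernel) cl33 cl34

theorem cl36 : Clo K (Helper55.TR.GH (-1) Helper55.TR.BrU [0,0,1]) l39 :=
  .i [n1,n0,m1,m1,n1,n0,n0,m1,n0,n2,n1] (e' := [n0,n0,n1,n1,m1,n0,n0,n1,n0,m2,m1]) (by decide +kernel)
  (by decide +kernel) (.t t37 ok37) cl35

theorem cl37 : Clo K (Helper55.TR.GH (-1) Helper55.TR.BrU [0,0,1]) r46 :=
  .w [n0,n0,n0,n0,n0,n0,n0,n0,n0,n0,n0,n2,m1,n1,m2] (e' := [n1,n0,n0,n0,n0,n0,n0,n0,n0,n0,n0,m2,n1,m1,n2])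
  (by decide +kernel) (.t t43 ok43) (.t t44 ok44)

theorem cl38 : Clo K (Helper55.TR.GH (-1) Helper55.TR.BrU [0,0,1]) l45 :=
  .i [n1,n0,n0,n0,n1,n0,n0,m1,n0,n2,n2] (e' := [n0,n0,n0,n0,m1,n0,n0,n1,n0,m2,m2]) (by decide +kernel)
  (by decide +kernel) (.t t42 ok42) cl37

theorem cl39 : Clo K (Helper55.TR.GH (-1) Helper55.TR.BrU [0,0,1]) r48 :=
  .w [n0,n0,n0,n0,n0,n0,n0,n0,n0,n0,n0,n0,n1,m1,n2] (e' := [n1,n0,n0,n0,n0,n0,n0,n0,n0,n0,n0,n0,m1,n1,m2]) (by decide +kernel)
  (.t t46 ok46) (.t t47 ok47)

theorem cl40 : Clo K (Helper55.TR.GH (-1) Helper55.TR.BrU [0,0,1]) r45 :=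
  .i [n1,n0,n0,n0,n1,n0,n0,m1,n0,n2,n2] (e' := [n0,n0,n0,n0,m1,n0,n0,n1,n0,m2,m2]) (by decide +kernel)
  (by decide +kernel) (.t t45 ok45) cl39

theorem cl41 : Clo K (Helper55.TR.GH (-1) Helper55.TR.BrU [0,0,1]) l44 :=
  .w [n0,n0,n0,n0,n0,n0,n0,n0,n0,n0,n0,m1,n1,m1,n2] (e' := [n1,n0,n0,n0,n0,n0,n0,n0,n0,n0,n0,n1,m1,n1,m2])
  (by decide +kernel) cl38 cl40

theorem cl42 : Clo K (Helper55.TR.GH (-1) Helper55.TR.BrU [0,0,1]) l52 :=
  .w [n0,n0,n0,n0,n0,n0,n0,n0,n0,n0,n0,n2,m1,n1,m2] (e' := [n1,n0,n0,n0,n0,n0,n0,n0,n0,n0,n0,m2,n1,m1,n2])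
  (by decide +kernel) (.t t49 ok49) (.t t50 ok50)

theorem cl43 : Clo K (Helper55.TR.GH (-1) Helper55.TR.BrU [0,0,1]) l54 :=
  .w [n0,n0,n0,n0,n0,n0,n0,n0,n0,n0,n0,n1,m1,n1,m2] (e' := [n1,n0,n0,n0,n0,n0,n0,n0,n0,n0,n0,m1,n1,m1,n2])
  (by decide +kernel) (.t t51 ok51) (.t t52 ok52)

theorem cl44 : Clo K (Helper55.TR.GH (-1) Helper55.TR.BrU [0,0,1]) r52 :=
  .w [n0,n0,n0,n0,n0,n0,n0,n0,n0,n0,n0,n0,n1,m1,n2] (e' := [n1,n0,n0,n0,n0,n0,n0,n0,n0,n0,n0,n0,m1,n1,m2]) (by decide +kernel)
  cl43 (.t t53 ok53)

theorem cl45 : Clo K (Helper55.TR.GH (-1) Helper55.TR.BrU [0,0,1]) r51 :=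
  .w [n0,n0,n0,n0,n0,n0,n0,n0,n0,n0,n0,m1,n1,m1,n2] (e' := [n1,n0,n0,n0,n0,n0,n0,n0,n0,n0,n0,n1,m1,n1,m2])
  (by decide +kernel) cl42 cl44

theorem cl46 : Clo K (Helper55.TR.GH (-1) Helper55.TR.BrU [0,0,1]) l50 :=
  .i [n1,n0,n3,n3,n1,n0,n0,n0,n0,n0,n5] (e' := [n0,n0,m3,m3,m1,n0,n0,n0,n0,n0,m5]) (by decide +kernel)
  (by decide +kernel) (.t t48 ok48) cl45

theorem cl47 : Clo K (Helper55.TR.GH (-1) Helper55.TR.BrU [0,0,1]) l56 :=
  .w [n0,n0,n0,n0,n0,n0,n0,n0,n0,n0,n0,n2,m1,n1,m2] (e' := [n1,n0,n0,n0,n0,n0,n0,n0,n0,n0,n0,m2,n1,m1,n2])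
  (by decide +kernel) (.t t54 ok54) (.t t55 ok55)

theorem cl48 : Clo K (Helper55.TR.GH (-1) Helper55.TR.BrU [0,0,1]) l58 :=
  .w [n0,n0,n0,n0,n0,n0,n0,n0,n0,n0,n0,n1,m1,n1,m2] (e' := [n1,n0,n0,n0,n0,n0,n0,n0,n0,n0,n0,m1,n1,m1,n2])
  (by decide +kernel) (.t t56 ok56) (.t t57 ok57)

theorem cl49 : Clo K (Helper55.TR.GH (-1) Helper55.TR.BrU [0,0,1]) r56 :=
  .w [n0,n0,n0,n0,n0,n0,n0,n0,n0,n0,n0,n0,n1,m1,n2] (e' := [n1,n0,n0,n0,n0,n0,n0,n0,n0,n0,n0,n0,m1,n1,m2]) (by decide +kernel)
  cl48 (.t t58 ok58)

theorem cl50 : Clo K (Helper55.TR.GH (-1) Helper55.TR.BrU [0,0,1]) r50 :=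
  .w [n0,n0,n0,n0,n0,n0,n0,n0,n0,n0,n0,m1,n1,m1,n2] (e' := [n1,n0,n0,n0,n0,n0,n0,n0,n0,n0,n0,n1,m1,n1,m2])
  (by decide +kernel) cl47 cl49

theorem cl51 : Clo K (Helper55.TR.GH (-1) Helper55.TR.BrU [0,0,1]) r44 :=
  .i [n1,n0,m3,m3,m1,n0,n0,n0,n0,n0,m5] (e' := [n0,n0,n3,n3,n1,n0,n0,n0,n0,n0,n5]) (by decide +kernel)
  (by decide +kernel) cl46 cl50

theorem cl52 : Clo K (Helper55.TR.GH (-1) Helper55.TR.BrU [0,0,1]) r39 :=
  .i [n1,n0,n0,n0,m1,n0,n0,n1,n0,m2,m2] (e' := [n0,n0,n0,n0,n1,n0,n0,m1,n0,n2,n2]) (by decide +kernel)
  (by decide +kernel) cl41 cl51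

theorem cl53 : Clo K (Helper55.TR.GH (-1) Helper55.TR.BrU [0,0,1]) r5 :=
  .i [n1,n0,n1,n1,m1,n0,n0,n1,n0,m2,m1] (e' := [n0,n0,m1,m1,n1,n0,n0,m1,n0,n2,n1]) (by decide +kernel)
  (by decide +kernel) cl36 cl52

theorem cl54 : Clo K (Helper55.TR.GH (-1) Helper55.TR.BrU [0,0,1]) r4 :=
  .i [n1,n0,m1,m1,n0,n0,n0,n1,n0,m1,m1] (e' := [n0,n0,n1,n1,n0,n0,n0,m1,n0,n1,n1]) (by decide +kernel)
  (by decide +kernel) cl32 cl53

theorem cl55 : Clo K (Helper55.TR.GH (-1) Helper55.TR.BrU [0,0,1]) r3 :=
  .i [n0,n0,n2,n0,m1,n0,n1,n0,m1] (e' := [n1,n0,m2,n0,n1,n0,m1,n0,n1]) (by decide +kernel) (by decide +kernel)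
  (.t t2 ok2) cl54

theorem cl56 : Clo K (Helper55.TR.GH (-1) Helper55.TR.BrU [0,0,1]) l2 :=
  .i [n1,n0,n2,n2,m2,n0,n0,n0,n0,m1,m2] (e' := [n0,n0,m2,m2,n2,n0,n0,n0,n0,n1,n2]) (by decide +kernel)
  (by decide +kernel) (.t t1 ok1) cl55

theorem cl57 : Clo K (Helper55.TR.GH (-1) Helper55.TR.BrU [0,0,1]) l67 :=
  .w [n0,n0,n0,n0,n0,n0,n0,n0,n0,n0,n0,n1,m1,n1,m2] (e' := [n1,n0,n0,n0,n0,n0,n0,n0,n0,n0,n0,m1,n1,m1,n2])
  (by decide +kernel) (.t t63 ok63) (.t t64 ok64)

theorem cl58 : Clo K (Helper55.TR.GH (-1) Helper55.TR.BrU [0,0,1]) r66 :=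
  .w [n0,n0,n0,n0,n0,n0,n0,n0,n0,n0,n0,n0,n1,m1,n2] (e' := [n1,n0,n0,n0,n0,n0,n0,n0,n0,n0,n0,n0,m1,n1,m2]) (by decide +kernel)
  cl57 (.t t65 ok65)

theorem cl59 : Clo K (Helper55.TR.GH (-1) Helper55.TR.BrU [0,0,1]) r65 :=
  .w [n0,n0,n0,n0,n0,n0,n0,n0,n0,n0,n0,m1,n1,m1,n2] (e' := [n1,n0,n0,n0,n0,n0,n0,n0,n0,n0,n0,n1,m1,n1,m2])
  (by decide +kernel) (.t t62 ok62) cl58

theorem cl60 : Clo K (Helper55.TR.GH (-1) Helper55.TR.BrU [0,0,1]) l64 :=
  .i [n1,n0,m1,m1,m3,n0,n0,n0,n0,n0,m7] (e' := [n0,n0,n1,n1,n3,n0,n0,n0,n0,n0,n7]) (by decide +kernel)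
  (by decide +kernel) (.t t61 ok61) cl59

theorem cl61 : Clo K (Helper55.TR.GH (-1) Helper55.TR.BrU [0,0,1]) l71 :=
  .w [n0,n0,n0,n0,n0,n0,n0,n0,n0,n0,n0,n0,n1,m1,n2] (e' := [n1,n0,n0,n0,n0,n0,n0,n0,n0,n0,n0,n0,m1,n1,m2]) (by decide +kernel)
  (.t t67 ok67) (.t t68 ok68)

theorem cl62 : Clo K (Helper55.TR.GH (-1) Helper55.TR.BrU [0,0,1]) r71 :=
  .w [n0,n0,n0,n0,n0,n0,n0,n0,n0,n0,n0,m1,n1,m1,n2] (e' := [n1,n0,n0,n0,n0,n0,n0,n0,n0,n0,n0,n1,m1,n1,m2])
  (by decide +kernel) (.t t69 ok69) (.t t70 ok70)

theorem cl63 : Clo K (Helper55.TR.GH (-1) Helper55.TR.BrU [0,0,1]) r70 :=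
  .w [n0,n0,n0,n0,n0,n0,n0,n0,n0,n0,n0,n1,m1,n1,m2] (e' := [n1,n0,n0,n0,n0,n0,n0,n0,n0,n0,n0,m1,n1,m1,n2])
  (by decide +kernel) cl61 cl62

theorem cl64 : Clo K (Helper55.TR.GH (-1) Helper55.TR.BrU [0,0,1]) l69 :=
  .i [n0,n0,n6,n0,m3,n1] (e' := [n1,n0,m6,n0,n3,m1]) (by decide +kernel) (by decide +kernel) (.t t66 ok66)
  cl63

theorem cl65 : Clo K (Helper55.TR.GH (-1) Helper55.TR.BrU [0,0,1]) l75 :=
  .w [n0,n0,n0,n0,n0,n0,n0,n0,n0,n0,n0,n1,m1,n1,m2] (e' := [n1,n0,n0,n0,n0,n0,n0,n0,n0,n0,n0,m1,n1,m1,n2])
  (by decide +kernel) (.t t72 ok72) (.t t73 ok73)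

theorem cl66 : Clo K (Helper55.TR.GH (-1) Helper55.TR.BrU [0,0,1]) r74 :=
  .w [n0,n0,n0,n0,n0,n0,n0,n0,n0,n0,n0,n0,n1,m1,n2] (e' := [n1,n0,n0,n0,n0,n0,n0,n0,n0,n0,n0,n0,m1,n1,m2]) (by decide +kernel)
  cl65 (.t t74 ok74)

theorem cl67 : Clo K (Helper55.TR.GH (-1) Helper55.TR.BrU [0,0,1]) r69 :=
  .w [n0,n0,n0,n0,n0,n0,n0,n0,n0,n0,n0,m1,n1,m1,n2] (e' := [n1,n0,n0,n0,n0,n0,n0,n0,n0,n0,n0,n1,m1,n1,m2])
  (by decide +kernel) (.t t71 ok71) cl66

theorem cl68 : Clo K (Helper55.TR.GH (-1) Helper55.TR.BrU [0,0,1]) r64 :=
  .i [n1,n0,m1,m1,m3,n0,n0,n0,n0,n0,m7] (e' := [n0,n0,n1,n1,n3,n0,n0,n0,n0,n0,n7]) (by decide +kernel)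
  (by decide +kernel) cl64 cl67

theorem cl69 : Clo K (Helper55.TR.GH (-1) Helper55.TR.BrU [0,0,1]) l63 :=
  .i [n0,n0,m6,n0,n3,m1] (e' := [n1,n0,n6,n0,m3,n1]) (by decide +kernel) (by decide +kernel) cl60 cl68

theorem cl70 : Clo K (Helper55.TR.GH (-1) Helper55.TR.BrU [0,0,1]) r63 :=
  .w [n0,n0,n0,n0,n0,n0,n0,n0,n0,n0,n0,m1,n1,m1,n2] (e' := [n1,n0,n0,n0,n0,n0,n0,n0,n0,n0,n0,n1,m1,n1,m2])
  (by decide +kernel) (.t t75 ok75) (.t t76 ok76)

theorem cl71 : Clo K (Helper55.TR.GH (-1) Helper55.TR.BrU [0,0,1]) r62 :=
  .i [n1,n0,n1,n1,n3,n0,n0,n0,n0,n0,n7] (e' := [n0,n0,m1,m1,m3,n0,n0,n0,n0,n0,m7]) (by decide +kernel)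
  (by decide +kernel) cl69 cl70

theorem cl72 : Clo K (Helper55.TR.GH (-1) Helper55.TR.BrU [0,0,1]) l61 :=
  .i [n1,n0,n3,n3,m1,n0,n0,m1,n0,n0,n1] (e' := [n0,n0,m3,m3,n1,n0,n0,n1,n0,n0,m1]) (by decide +kernel)
  (by decide +kernel) (.t t60 ok60) cl71

theorem cl73 : Clo K (Helper55.TR.GH (-1) Helper55.TR.BrU [0,0,1]) l84 :=
  .w [n0,n0,n0,n0,n0,n0,n0,n0,n0,n0,n0,n1,m1,n1,m2] (e' := [n1,n0,n0,n0,n0,n0,n0,n0,n0,n0,n0,m1,n1,m1,n2])
  (by decide +kernel) (.t t81 ok81) (.t t82 ok82)

theorem cl74 : Clo K (Helper55.TR.GH (-1) Helper55.TR.BrU [0,0,1]) r83 :=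
  .w [n0,n0,n0,n0,n0,n0,n0,n0,n0,n0,n0,n0,n1,m1,n2] (e' := [n1,n0,n0,n0,n0,n0,n0,n0,n0,n0,n0,n0,m1,n1,m2]) (by decide +kernel)
  cl73 (.t t83 ok83)

theorem cl75 : Clo K (Helper55.TR.GH (-1) Helper55.TR.BrU [0,0,1]) r82 :=
  .w [n0,n0,n0,n0,n0,n0,n0,n0,n0,n0,n0,n0,m1,n1,m2] (e' := [n1,n0,n0,n0,n0,n0,n0,n0,n0,n0,n0,n0,n1,m1,n2]) (by decide +kernel)
  (.t t80 ok80) cl74

theorem cl76 : Clo K (Helper55.TR.GH (-1) Helper55.TR.BrU [0,0,1]) r81 :=
  .w [n0,n0,n0,n0,n0,n0,n0,n0,n0,n0,n0,m1,n1,m1,n2] (e' := [n1,n0,n0,n0,n0,n0,n0,n0,n0,n0,n0,n1,m1,n1,m2])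
  (by decide +kernel) (.t t79 ok79) cl75

theorem cl77 : Clo K (Helper55.TR.GH (-1) Helper55.TR.BrU [0,0,1]) r80 :=
  .i [n0,n0,n4,n0,m2,n1] (e' := [n1,n0,m4,n0,n2,m1]) (by decide +kernel) (by decide +kernel) (.t t78 ok78)
  cl76

theorem cl78 : Clo K (Helper55.TR.GH (-1) Helper55.TR.BrU [0,0,1]) l79 :=
  .i [n0,n0,m4,n0,n2,m1] (e' := [n1,n0,n4,n0,m2,n1]) (by decide +kernel) (by decide +kernel) (.t t77 ok77)
  cl77

theorem cl79 : Clo K (Helper55.TR.GH (-1) Helper55.TR.BrU [0,0,1]) l86 :=
  .w [n0,n0,n0,n0,n0,n0,n0,n0,n0,n0,n0,n0,n1,m1,n2] (e' := [n1,n0,n0,n0,n0,n0,n0,n0,n0,n0,n0,n0,m1,n1,m2]) (by decide +kernel)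
  (.t t84 ok84) (.t t85 ok85)

theorem cl80 : Clo K (Helper55.TR.GH (-1) Helper55.TR.BrU [0,0,1]) r79 :=
  .w [n0,n0,n0,n0,n0,n0,n0,n0,n0,n0,n0,n1,m1,n1,m2] (e' := [n1,n0,n0,n0,n0,n0,n0,n0,n0,n0,n0,m1,n1,m1,n2])
  (by decide +kernel) cl79 (.t t86 ok86)

theorem cl81 : Clo K (Helper55.TR.GH (-1) Helper55.TR.BrU [0,0,1]) l78 :=
  .i [n1,n0,m1,m1,m2,n0,n0,n0,n0,n0,m5] (e' := [n0,n0,n1,n1,n2,n0,n0,n0,n0,n0,n5]) (by decide +kernel)
  (by decide +kernel) cl78 cl80

theorem cl82 : Clo K (Helper55.TR.GH (-1) Helper55.TR.BrU [0,0,1]) r88 :=
  .w [n0,n0,n0,n0,n0,n0,n0,n0,n0,n0,n0,n0,n1,m1,n2] (e' := [n1,n0,n0,n0,n0,n0,n0,n0,n0,n0,n0,n0,m1,n1,m2]) (by decide +kernel)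
  (.t t88 ok88) (.t t89 ok89)

theorem cl83 : Clo K (Helper55.TR.GH (-1) Helper55.TR.BrU [0,0,1]) r78 :=
  .w [n0,n0,n0,n0,n0,n0,n0,n0,n0,n0,n0,m1,n1,m1,n2] (e' := [n1,n0,n0,n0,n0,n0,n0,n0,n0,n0,n0,n1,m1,n1,m2])
  (by decide +kernel) (.t t87 ok87) cl82

theorem cl84 : Clo K (Helper55.TR.GH (-1) Helper55.TR.BrU [0,0,1]) r61 :=
  .i [n1,n0,n1,n1,n2,n0,n0,n0,n0,n0,n5] (e' := [n0,n0,m1,m1,m2,n0,n0,n0,n0,n0,m5]) (by decide +kernel)
  (by decide +kernel) cl81 cl83

theorem cl85 : Clo K (Helper55.TR.GH (-1) Helper55.TR.BrU [0,0,1]) r60 :=
  .i [n1,n0,m3,m3,n1,n0,n0,n1,n0,n0,m1] (e' := [n0,n0,n3,n3,m1,n0,n0,m1,n0,n0,n1]) (by decide +kernel)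
  (by decide +kernel) cl72 cl84

theorem cl86 : Clo K (Helper55.TR.GH (-1) Helper55.TR.BrU [0,0,1]) r2 :=
  .i [n0,n0,n2,n0,m1,n0,n1,n0,m1] (e' := [n1,n0,m2,n0,n1,n0,m1,n0,n1]) (by decide +kernel) (by decide +kernel)
  (.t t59 ok59) cl85

theorem cl87 : Clo K (Helper55.TR.GH (-1) Helper55.TR.BrU [0,0,1]) r1 :=
  .i [n1,n0,m2,m2,n2,n0,n0,n0,n0,n1,n2] (e' := [n0,n0,n2,n2,m2,n0,n0,n0,n0,m1,m2]) (by decide +kernel)
  (by decide +kernel) cl56 cl86

theorem cl88 : Clo K (Helper55.TR.GH (-1) Helper55.TR.BrU [0,0,1]) l0 :=
  .i [n1,n0,n3,n3,m1,n0,n0,n0,n0,m1,n1] (e' := [n0,n0,m3,m3,n1,n0,n0,n0,n0,n1,m1]) (by decide +kernel)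
  (by decide +kernel) (.t t0 ok0) cl87

theorem cl89 : Clo K (Helper55.TR.GH (-1) Helper55.TR.BrU [0,0,1]) r100 :=
  .w [n0,n0,n0,n0,n0,n0,n0,n0,n0,n0,n0,m1,n1,m1,n2] (e' := [n1,n0,n0,n0,n0,n0,n0,n0,n0,n0,n0,n1,m1,n1,m2])
  (by decide +kernel) (.t t95 ok95) (.t t96 ok96)

theorem cl90 : Clo K (Helper55.TR.GH (-1) Helper55.TR.BrU [0,0,1]) l99 :=
  .i [n1,n0,n1,n1,n3,n0,n0,n0,n0,n0,n7] (e' := [n0,n0,m1,m1,m3,n0,n0,n0,n0,n0,m7]) (by decide +kernel)
  (by decide +kernel) (.t t94 ok94) cl89

theorem cl91 : Clo K (Helper55.TR.GH (-1) Helper55.TR.BrU [0,0,1]) l105 :=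
  .w [n0,n0,n0,n0,n0,n0,n0,n0,n0,n0,n0,n1,m1,n1,m2] (e' := [n1,n0,n0,n0,n0,n0,n0,n0,n0,n0,n0,m1,n1,m1,n2])
  (by decide +kernel) (.t t99 ok99) (.t t100 ok100)

theorem cl92 : Clo K (Helper55.TR.GH (-1) Helper55.TR.BrU [0,0,1]) r104 :=
  .w [n0,n0,n0,n0,n0,n0,n0,n0,n0,n0,n0,n0,n1,m1,n2] (e' := [n1,n0,n0,n0,n0,n0,n0,n0,n0,n0,n0,n0,m1,n1,m2]) (by decide +kernel)
  cl91 (.t t101 ok101)

theorem cl93 : Clo K (Helper55.TR.GH (-1) Helper55.TR.BrU [0,0,1]) r103 :=
  .w [n0,n0,n0,n0,n0,n0,n0,n0,n0,n0,n0,m1,n1,m1,n2] (e' := [n1,n0,n0,n0,n0,n0,n0,n0,n0,n0,n0,n1,m1,n1,m2])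
  (by decide +kernel) (.t t98 ok98) cl92

theorem cl94 : Clo K (Helper55.TR.GH (-1) Helper55.TR.BrU [0,0,1]) l102 :=
  .i [n0,n0,n6,n0,m3,n1] (e' := [n1,n0,m6,n0,n3,m1]) (by decide +kernel) (by decide +kernel) (.t t97 ok97)
  cl93

theorem cl95 : Clo K (Helper55.TR.GH (-1) Helper55.TR.BrU [0,0,1]) l107 :=
  .w [n0,n0,n0,n0,n0,n0,n0,n0,n0,n0,n0,n0,n1,m1,n2] (e' := [n1,n0,n0,n0,n0,n0,n0,n0,n0,n0,n0,n0,m1,n1,m2]) (by decide +kernel)
  (.t t102 ok102) (.t t103 ok103)

theorem cl96 : Clo K (Helper55.TR.GH (-1) Helper55.TR.BrU [0,0,1]) r107 :=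
  .w [n0,n0,n0,n0,n0,n0,n0,n0,n0,n0,n0,m1,n1,m1,n2] (e' := [n1,n0,n0,n0,n0,n0,n0,n0,n0,n0,n0,n1,m1,n1,m2])
  (by decide +kernel) (.t t104 ok104) (.t t105 ok105)

theorem cl97 : Clo K (Helper55.TR.GH (-1) Helper55.TR.BrU [0,0,1]) r102 :=
  .w [n0,n0,n0,n0,n0,n0,n0,n0,n0,n0,n0,n1,m1,n1,m2] (e' := [n1,n0,n0,n0,n0,n0,n0,n0,n0,n0,n0,m1,n1,m1,n2])
  (by decide +kernel) cl95 cl96

theorem cl98 : Clo K (Helper55.TR.GH (-1) Helper55.TR.BrU [0,0,1]) r99 :=
  .i [n1,n0,n1,n1,n3,n0,n0,n0,n0,n0,n7] (e' := [n0,n0,m1,m1,m3,n0,n0,n0,n0,n0,m7]) (by decide +kernel)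
  (by decide +kernel) cl94 cl97

theorem cl99 : Clo K (Helper55.TR.GH (-1) Helper55.TR.BrU [0,0,1]) l98 :=
  .i [n0,n0,m6,n0,n3,m1] (e' := [n1,n0,n6,n0,m3,n1]) (by decide +kernel) (by decide +kernel) cl90 cl98

theorem cl100 : Clo K (Helper55.TR.GH (-1) Helper55.TR.BrU [0,0,1]) l110 :=
  .w [n0,n0,n0,n0,n0,n0,n0,n0,n0,n0,n0,n0,n1,m1,n2] (e' := [n1,n0,n0,n0,n0,n0,n0,n0,n0,n0,n0,n0,m1,n1,m2]) (by decide +kernel)
  (.t t106 ok106) (.t t107 ok107)

theorem cl101 : Clo K (Helper55.TR.GH (-1) Helper55.TR.BrU [0,0,1]) r98 :=
  .w [n0,n0,n0,n0,n0,n0,n0,n0,n0,n0,n0,n1,m1,n1,m2] (e' := [n1,n0,n0,n0,n0,n0,n0,n0,n0,n0,n0,m1,n1,m1,n2])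
  (by decide +kernel) cl100 (.t t108 ok108)

theorem cl102 : Clo K (Helper55.TR.GH (-1) Helper55.TR.BrU [0,0,1]) r97 :=
  .i [n1,n0,m1,m1,m3,n0,n0,n0,n0,n0,m7] (e' := [n0,n0,n1,n1,n3,n0,n0,n0,n0,n0,n7]) (by decide +kernel)
  (by decide +kernel) cl99 cl101

theorem cl103 : Clo K (Helper55.TR.GH (-1) Helper55.TR.BrU [0,0,1]) l96 :=
  .i [n1,n0,n1,n1,n2,n0,n0,n0,n0,n0,n5] (e' := [n0,n0,m1,m1,m2,n0,n0,n0,n0,n0,m5]) (by decide +kernel)
  (by decide +kernel) (.t t93 ok93) cl102

theorem cl104 : Clo K (Helper55.TR.GH (-1) Helper55.TR.BrU [0,0,1]) r96 :=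
  .w [n0,n0,n0,n0,n0,n0,n0,n0,n0,n0,n0,m1,n1,m1,n2] (e' := [n1,n0,n0,n0,n0,n0,n0,n0,n0,n0,n0,n1,m1,n1,m2])
  (by decide +kernel) (.t t109 ok109) (.t t110 ok110)

theorem cl105 : Clo K (Helper55.TR.GH (-1) Helper55.TR.BrU [0,0,1]) l95 :=
  .i [n1,n0,m1,m1,m2,n0,n0,n0,n0,n0,m5] (e' := [n0,n0,n1,n1,n2,n0,n0,n0,n0,n0,n5]) (by decide +kernel)
  (by decide +kernel) cl103 cl104

theorem cl106 : Clo K (Helper55.TR.GH (-1) Helper55.TR.BrU [0,0,1]) r116 :=
  .w [n0,n0,n0,n0,n0,n0,n0,n0,n0,n0,n0,n0,n1,m1,n2] (e' := [n1,n0,n0,n0,n0,n0,n0,n0,n0,n0,n0,n0,m1,n1,m2]) (by decide +kernel)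
  (.t t113 ok113) (.t t114 ok114)

theorem cl107 : Clo K (Helper55.TR.GH (-1) Helper55.TR.BrU [0,0,1]) r115 :=
  .w [n0,n0,n0,n0,n0,n0,n0,n0,n0,n0,n0,m1,n1,m1,n2] (e' := [n1,n0,n0,n0,n0,n0,n0,n0,n0,n0,n0,n1,m1,n1,m2])
  (by decide +kernel) (.t t112 ok112) cl106

theorem cl108 : Clo K (Helper55.TR.GH (-1) Helper55.TR.BrU [0,0,1]) l114 :=
  .i [n0,n0,m4,n0,n2,m1] (e' := [n1,n0,n4,n0,m2,n1]) (by decide +kernel) (by decide +kernel) (.t t111 ok111)
  cl107

theorem cl109 : Clo K (Helper55.TR.GH (-1) Helper55.TR.BrU [0,0,1]) r121 :=
  .w [n0,n0,n0,n0,n0,n0,n0,n0,n0,n0,n0,n0,m1,n1,m2] (e' := [n1,n0,n0,n0,n0,n0,n0,n0,n0,n0,n0,n0,n1,m1,n2]) (by decide +kernel)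
  (.t t117 ok117) (.t t118 ok118)

theorem cl110 : Clo K (Helper55.TR.GH (-1) Helper55.TR.BrU [0,0,1]) l120 :=
  .w [n0,n0,n0,n0,n0,n0,n0,n0,n0,n0,n0,n0,n1,m1,n2] (e' := [n1,n0,n0,n0,n0,n0,n0,n0,n0,n0,n0,n0,m1,n1,m2]) (by decide +kernel)
  (.t t116 ok116) cl109

theorem cl111 : Clo K (Helper55.TR.GH (-1) Helper55.TR.BrU [0,0,1]) r120 :=
  .w [n0,n0,n0,n0,n0,n0,n0,n0,n0,n0,n0,m1,n1,m1,n2] (e' := [n1,n0,n0,n0,n0,n0,n0,n0,n0,n0,n0,n1,m1,n1,m2])
  (by decide +kernel) (.t t119 ok119) (.t t120 ok120)

theorem cl112 : Clo K (Helper55.TR.GH (-1) Helper55.TR.BrU [0,0,1]) r119 :=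
  .w [n0,n0,n0,n0,n0,n0,n0,n0,n0,n0,n0,n1,m1,n1,m2] (e' := [n1,n0,n0,n0,n0,n0,n0,n0,n0,n0,n0,m1,n1,m1,n2])
  (by decide +kernel) cl110 cl111

theorem cl113 : Clo K (Helper55.TR.GH (-1) Helper55.TR.BrU [0,0,1]) l118 :=
  .i [n1,n0,m1,m1,m3,n0,n0,n0,n0,n0,m7] (e' := [n0,n0,n1,n1,n3,n0,n0,n0,n0,n0,n7]) (by decide +kernel)
  (by decide +kernel) (.t t115 ok115) cl112

theorem cl114 : Clo K (Helper55.TR.GH (-1) Helper55.TR.BrU [0,0,1]) l124 :=
  .w [n0,n0,n0,n0,n0,n0,n0,n0,n0,n0,n0,n0,n1,m1,n2] (e' := [n1,n0,n0,n0,n0,n0,n0,n0,n0,n0,n0,n0,m1,n1,m2]) (by decide +kernel)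
  (.t t121 ok121) (.t t122 ok122)

theorem cl115 : Clo K (Helper55.TR.GH (-1) Helper55.TR.BrU [0,0,1]) r118 :=
  .w [n0,n0,n0,n0,n0,n0,n0,n0,n0,n0,n0,n1,m1,n1,m2] (e' := [n1,n0,n0,n0,n0,n0,n0,n0,n0,n0,n0,m1,n1,m1,n2])
  (by decide +kernel) cl114 (.t t123 ok123)

theorem cl116 : Clo K (Helper55.TR.GH (-1) Helper55.TR.BrU [0,0,1]) r114 :=
  .i [n1,n0,n1,n1,n3,n0,n0,n0,n0,n0,n7] (e' := [n0,n0,m1,m1,m3,n0,n0,n0,n0,n0,m7]) (by decide +kernel)
  (by decide +kernel) cl113 cl115

theorem cl117 : Clo K (Helper55.TR.GH (-1) Helper55.TR.BrU [0,0,1]) l113 :=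
  .i [n1,n0,n1,n1,n2,n0,n0,n0,n0,n0,n5] (e' := [n0,n0,m1,m1,m2,n0,n0,n0,n0,n0,m5]) (by decide +kernel)
  (by decide +kernel) cl108 cl116

theorem cl118 : Clo K (Helper55.TR.GH (-1) Helper55.TR.BrU [0,0,1]) r113 :=
  .w [n0,n0,n0,n0,n0,n0,n0,n0,n0,n0,n0,m1,n1,m1,n2] (e' := [n1,n0,n0,n0,n0,n0,n0,n0,n0,n0,n0,n1,m1,n1,m2])
  (by decide +kernel) (.t t124 ok124) (.t t125 ok125)

theorem cl119 : Clo K (Helper55.TR.GH (-1) Helper55.TR.BrU [0,0,1]) r95 :=
  .i [n1,n0,m1,m1,m2,n0,n0,n0,n0,n0,m5] (e' := [n0,n0,n1,n1,n2,n0,n0,n0,n0,n0,n5]) (by decide +kernel)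
  (by decide +kernel) cl117 cl118

theorem cl120 : Clo K (Helper55.TR.GH (-1) Helper55.TR.BrU [0,0,1]) r94 :=
  .i [n0,n0,n4,n0,m2,n1] (e' := [n1,n0,m4,n0,n2,m1]) (by decide +kernel) (by decide +kernel) cl105 cl119

theorem cl121 : Clo K (Helper55.TR.GH (-1) Helper55.TR.BrU [0,0,1]) r93 :=
  .i [n0,n0,m4,n0,n2,n3,n0,n0,m1] (e' := [n1,n0,n4,n0,m2,m3,n0,n0,n1]) (by decide +kernel) (by decide +kernel)
  (.t t92 ok92) cl120

theorem cl122 : Clo K (Helper55.TR.GH (-1) Helper55.TR.BrU [0,0,1]) l92 :=
  .i [n0,n0,n4,n0,m2,m3,n0,n0,n1] (e' := [n1,n0,m4,n0,n2,n3,n0,n0,m1]) (by decide +kernel) (by decide +kernel)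
  (.t t91 ok91) cl121

theorem cl123 : Clo K (Helper55.TR.GH (-1) Helper55.TR.BrU [0,0,1]) l129 :=
  .w [n0,n0,n0,n0,n0,n0,n0,n0,n0,n0,n0,n0,n1,m1,n2] (e' := [n1,n0,n0,n0,n0,n0,n0,n0,n0,n0,n0,n0,m1,n1,m2]) (by decide +kernel)
  (.t t127 ok127) (.t t128 ok128)

theorem cl124 : Clo K (Helper55.TR.GH (-1) Helper55.TR.BrU [0,0,1]) r129 :=
  .w [n0,n0,n0,n0,n0,n0,n0,n0,n0,n0,n0,m1,n1,m1,n2] (e' := [n1,n0,n0,n0,n0,n0,n0,n0,n0,n0,n0,n1,m1,n1,m2])
  (by decide +kernel) (.t t129 ok129) (.t t130 ok130)

theorem cl125 : Clo K (Helper55.TR.GH (-1) Helper55.TR.BrU [0,0,1]) r128 :=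
  .w [n0,n0,n0,n0,n0,n0,n0,n0,n0,n0,n0,n1,m1,n1,m2] (e' := [n1,n0,n0,n0,n0,n0,n0,n0,n0,n0,n0,m1,n1,m1,n2])
  (by decide +kernel) cl123 cl124

theorem cl126 : Clo K (Helper55.TR.GH (-1) Helper55.TR.BrU [0,0,1]) l127 :=
  .i [n1,n0,n1,n1,n0,n0,n0,m1,n0,n1,n1] (e' := [n0,n0,m1,m1,n0,n0,n0,n1,n0,m1,m1]) (by decide +kernel)
  (by decide +kernel) (.t t126 ok126) cl125

theorem cl127 : Clo K (Helper55.TR.GH (-1) Helper55.TR.BrU [0,0,1]) l134 :=
  .w [n0,n0,n0,n0,n0,n0,n0,n0,n0,n0,n0,n0,n1,m1,n2] (e' := [n1,n0,n0,n0,n0,n0,n0,n0,n0,n0,n0,n0,m1,n1,m2]) (by decide +kernel)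
  (.t t132 ok132) (.t t133 ok133)

theorem cl128 : Clo K (Helper55.TR.GH (-1) Helper55.TR.BrU [0,0,1]) r133 :=
  .w [n0,n0,n0,n0,n0,n0,n0,n0,n0,n0,n0,n1,m1,n1,m2] (e' := [n1,n0,n0,n0,n0,n0,n0,n0,n0,n0,n0,m1,n1,m1,n2])
  (by decide +kernel) cl127 (.t t134 ok134)

theorem cl129 : Clo K (Helper55.TR.GH (-1) Helper55.TR.BrU [0,0,1]) l132 :=
  .i [n1,n0,m2,m2,n2,n0,n0,n0,n0,n1,n2] (e' := [n0,n0,n2,n2,m2,n0,n0,n0,n0,m1,m2]) (by decide +kernel)
  (by decide +kernel) (.t t131 ok131) cl128

theorem cl130 : Clo K (Helper55.TR.GH (-1) Helper55.TR.BrU [0,0,1]) l138 :=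
  .w [n0,n0,n0,n0,n0,n0,n0,n0,n0,n0,n0,n2,m1,n1,m2] (e' := [n1,n0,n0,n0,n0,n0,n0,n0,n0,n0,n0,m2,n1,m1,n2])
  (by decide +kernel) (.t t136 ok136) (.t t137 ok137)

theorem cl131 : Clo K (Helper55.TR.GH (-1) Helper55.TR.BrU [0,0,1]) l140 :=
  .w [n0,n0,n0,n0,n0,n0,n0,n0,n0,n0,n0,n1,m1,n1,m2] (e' := [n1,n0,n0,n0,n0,n0,n0,n0,n0,n0,n0,m1,n1,m1,n2])
  (by decide +kernel) (.t t138 ok138) (.t t139 ok139)

theorem cl132 : Clo K (Helper55.TR.GH (-1) Helper55.TR.BrU [0,0,1]) r138 :=
  .w [n0,n0,n0,n0,n0,n0,n0,n0,n0,n0,n0,n0,n1,m1,n2] (e' := [n1,n0,n0,n0,n0,n0,n0,n0,n0,n0,n0,n0,m1,n1,m2]) (by decide +kernel)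
  cl131 (.t t140 ok140)

theorem cl133 : Clo K (Helper55.TR.GH (-1) Helper55.TR.BrU [0,0,1]) r137 :=
  .w [n0,n0,n0,n0,n0,n0,n0,n0,n0,n0,n0,m1,n1,m1,n2] (e' := [n1,n0,n0,n0,n0,n0,n0,n0,n0,n0,n0,n1,m1,n1,m2])
  (by decide +kernel) cl130 cl132

theorem cl134 : Clo K (Helper55.TR.GH (-1) Helper55.TR.BrU [0,0,1]) l136 :=
  .i [n1,n0,m1,m1,n1,n0,n0,m1,n0,n2,n1] (e' := [n0,n0,n1,n1,m1,n0,n0,n1,n0,m2,m1]) (by decide +kernel)
  (by decide +kernel) (.t t135 ok135) cl133

theorem cl135 : Clo K (Helper55.TR.GH (-1) Helper55.TR.BrU [0,0,1]) l142 :=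
  .w [n0,n0,n0,n0,n0,n0,n0,n0,n0,n0,n0,n2,m1,n1,m2] (e' := [n1,n0,n0,n0,n0,n0,n0,n0,n0,n0,n0,m2,n1,m1,n2])
  (by decide +kernel) (.t t141 ok141) (.t t142 ok142)

theorem cl136 : Clo K (Helper55.TR.GH (-1) Helper55.TR.BrU [0,0,1]) r136 :=
  .w [n0,n0,n0,n0,n0,n0,n0,n0,n0,n0,n0,m1,n1,m1,n2] (e' := [n1,n0,n0,n0,n0,n0,n0,n0,n0,n0,n0,n1,m1,n1,m2])
  (by decide +kernel) cl135 (.t t143 ok143)

theorem cl137 : Clo K (Helper55.TR.GH (-1) Helper55.TR.BrU [0,0,1]) r132 :=
  .i [n1,n0,n1,n1,m1,n0,n0,n1,n0,m2,m1] (e' := [n0,n0,m1,m1,n1,n0,n0,m1,n0,n2,n1]) (by decide +kernel)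
  (by decide +kernel) cl134 cl136

theorem cl138 : Clo K (Helper55.TR.GH (-1) Helper55.TR.BrU [0,0,1]) r127 :=
  .i [n1,n0,n2,n2,m2,n0,n0,n0,n0,m1,m2] (e' := [n0,n0,m2,m2,n2,n0,n0,n0,n0,n1,n2]) (by decide +kernel)
  (by decide +kernel) cl129 cl137

theorem cl139 : Clo K (Helper55.TR.GH (-1) Helper55.TR.BrU [0,0,1]) r92 :=
  .i [n1,n0,m1,m1,n0,n0,n0,n1,n0,m1,m1] (e' := [n0,n0,n1,n1,n0,n0,n0,m1,n0,n1,n1]) (by decide +kernel)
  (by decide +kernel) cl126 cl138

theorem cl140 : Clo K (Helper55.TR.GH (-1) Helper55.TR.BrU [0,0,1]) l91 :=
  .i [n1,n0,n3,n3,m2,n0,n0,n0,n0,m1,m1] (e' := [n0,n0,m3,m3,n2,n0,n0,n0,n0,n1,n1]) (by decide +kernel)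
  (by decide +kernel) cl122 cl139

theorem cl141 : Clo K (Helper55.TR.GH (-1) Helper55.TR.BrU [0,0,1]) r152 :=
  .w [n0,n0,n0,n0,n0,n0,n0,n0,n0,n0,n0,n0,m1,n1,m2] (e' := [n1,n0,n0,n0,n0,n0,n0,n0,n0,n0,n0,n0,n1,m1,n2]) (by decide +kernel)
  (.t t149 ok149) (.t t150 ok150)

theorem cl142 : Clo K (Helper55.TR.GH (-1) Helper55.TR.BrU [0,0,1]) r151 :=
  .w [n0,n0,n0,n0,n0,n0,n0,n0,n0,n0,n0,n0,n1,m1,n2] (e' := [n1,n0,n0,n0,n0,n0,n0,n0,n0,n0,n0,n0,m1,n1,m2]) (by decide +kernel)
  (.t t148 ok148) cl141

theorem cl143 : Clo K (Helper55.TR.GH (-1) Helper55.TR.BrU [0,0,1]) r150 :=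
  .w [n0,n0,n0,n0,n0,n0,n0,n0,n0,n0,n0,m1,n1,m1,n2] (e' := [n1,n0,n0,n0,n0,n0,n0,n0,n0,n0,n0,n1,m1,n1,m2])
  (by decide +kernel) (.t t147 ok147) cl142

theorem cl144 : Clo K (Helper55.TR.GH (-1) Helper55.TR.BrU [0,0,1]) r149 :=
  .i [n0,n0,n4,n0,m2,n1] (e' := [n1,n0,m4,n0,n2,m1]) (by decide +kernel) (by decide +kernel) (.t t146 ok146)
  cl143

theorem cl145 : Clo K (Helper55.TR.GH (-1) Helper55.TR.BrU [0,0,1]) l148 :=
  .i [n0,n0,m4,n0,n2,m1] (e' := [n1,n0,n4,n0,m2,n1]) (by decide +kernel) (by decide +kernel) (.t t145 ok145)
  cl144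

theorem cl146 : Clo K (Helper55.TR.GH (-1) Helper55.TR.BrU [0,0,1]) r148 :=
  .w [n0,n0,n0,n0,n0,n0,n0,n0,n0,n0,n0,m1,n1,m1,n2] (e' := [n1,n0,n0,n0,n0,n0,n0,n0,n0,n0,n0,n1,m1,n1,m2])
  (by decide +kernel) (.t t151 ok151) (.t t152 ok152)

theorem cl147 : Clo K (Helper55.TR.GH (-1) Helper55.TR.BrU [0,0,1]) l147 :=
  .i [n1,n0,m1,m1,m2,n0,n0,n0,n0,n0,m5] (e' := [n0,n0,n1,n1,n2,n0,n0,n0,n0,n0,n5]) (by decide +kernel)
  (by decide +kernel) cl145 cl146

theorem cl148 : Clo K (Helper55.TR.GH (-1) Helper55.TR.BrU [0,0,1]) l155 :=
  .w [n0,n0,n0,n0,n0,n0,n0,n0,n0,n0,n0,n0,n1,m1,n2] (e' := [n1,n0,n0,n0,n0,n0,n0,n0,n0,n0,n0,n0,m1,n1,m2]) (by decide +kernel)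
  (.t t153 ok153) (.t t154 ok154)

theorem cl149 : Clo K (Helper55.TR.GH (-1) Helper55.TR.BrU [0,0,1]) r147 :=
  .w [n0,n0,n0,n0,n0,n0,n0,n0,n0,n0,n0,n1,m1,n1,m2] (e' := [n1,n0,n0,n0,n0,n0,n0,n0,n0,n0,n0,m1,n1,m1,n2])
  (by decide +kernel) cl148 (.t t155 ok155)

theorem cl150 : Clo K (Helper55.TR.GH (-1) Helper55.TR.BrU [0,0,1]) r146 :=
  .i [n1,n0,n1,n1,n2,n0,n0,n0,n0,n0,n5] (e' := [n0,n0,m1,m1,m2,n0,n0,n0,n0,n0,m5]) (by decide +kernel)
  (by decide +kernel) cl147 cl149

theorem cl151 : Clo K (Helper55.TR.GH (-1) Helper55.TR.BrU [0,0,1]) l145 :=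
  .i [n1,n0,m1,m1,m3,n0,n0,n0,n0,n0,m7] (e' := [n0,n0,n1,n1,n3,n0,n0,n0,n0,n0,n7]) (by decide +kernel)
  (by decide +kernel) (.t t144 ok144) cl150

theorem cl152 : Clo K (Helper55.TR.GH (-1) Helper55.TR.BrU [0,0,1]) l157 :=
  .w [n0,n0,n0,n0,n0,n0,n0,n0,n0,n0,n0,n0,n1,m1,n2] (e' := [n1,n0,n0,n0,n0,n0,n0,n0,n0,n0,n0,n0,m1,n1,m2]) (by decide +kernel)
  (.t t156 ok156) (.t t157 ok157)

theorem cl153 : Clo K (Helper55.TR.GH (-1) Helper55.TR.BrU [0,0,1]) r157 :=
  .w [n0,n0,n0,n0,n0,n0,n0,n0,n0,n0,n0,m1,n1,m1,n2] (e' := [n1,n0,n0,n0,n0,n0,n0,n0,n0,n0,n0,n1,m1,n1,m2])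
  (by decide +kernel) (.t t158 ok158) (.t t159 ok159)

theorem cl154 : Clo K (Helper55.TR.GH (-1) Helper55.TR.BrU [0,0,1]) r145 :=
  .w [n0,n0,n0,n0,n0,n0,n0,n0,n0,n0,n0,n1,m1,n1,m2] (e' := [n1,n0,n0,n0,n0,n0,n0,n0,n0,n0,n0,m1,n1,m1,n2])
  (by decide +kernel) cl152 cl153

theorem cl155 : Clo K (Helper55.TR.GH (-1) Helper55.TR.BrU [0,0,1]) l144 :=
  .i [n1,n0,n1,n1,n3,n0,n0,n0,n0,n0,n7] (e' := [n0,n0,m1,m1,m3,n0,n0,n0,n0,n0,m7]) (by decide +kernel)
  (by decide +kernel) cl151 cl154

theorem cl156 : Clo K (Helper55.TR.GH (-1) Helper55.TR.BrU [0,0,1]) r162 :=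
  .w [n0,n0,n0,n0,n0,n0,n0,n0,n0,n0,n0,m1,n1,m1,n2] (e' := [n1,n0,n0,n0,n0,n0,n0,n0,n0,n0,n0,n1,m1,n1,m2])
  (by decide +kernel) (.t t161 ok161) (.t t162 ok162)

theorem cl157 : Clo K (Helper55.TR.GH (-1) Helper55.TR.BrU [0,0,1]) l161 :=
  .i [n0,n0,n6,n0,m3,n1] (e' := [n1,n0,m6,n0,n3,m1]) (by decide +kernel) (by decide +kernel) (.t t160 ok160)
  cl156

theorem cl158 : Clo K (Helper55.TR.GH (-1) Helper55.TR.BrU [0,0,1]) r165 :=
  .w [n0,n0,n0,n0,n0,n0,n0,n0,n0,n0,n0,m1,n1,m1,n2] (e' := [n1,n0,n0,n0,n0,n0,n0,n0,n0,n0,n0,n1,m1,n1,m2])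
  (by decide +kernel) (.t t164 ok164) (.t t165 ok165)

theorem cl159 : Clo K (Helper55.TR.GH (-1) Helper55.TR.BrU [0,0,1]) l164 :=
  .i [n1,n0,m1,m1,m2,n0,n0,n0,n0,n0,m5] (e' := [n0,n0,n1,n1,n2,n0,n0,n0,n0,n0,n5]) (by decide +kernel)
  (by decide +kernel) (.t t163 ok163) cl158

theorem cl160 : Clo K (Helper55.TR.GH (-1) Helper55.TR.BrU [0,0,1]) r164 :=
  .w [n0,n0,n0,n0,n0,n0,n0,n0,n0,n0,n0,m1,n1,m1,n2] (e' := [n1,n0,n0,n0,n0,n0,n0,n0,n0,n0,n0,n1,m1,n1,m2])
  (by decide +kernel) (.t t166 ok166) (.t t167 ok167)

theorem cl161 : Clo K (Helper55.TR.GH (-1) Helper55.TR.BrU [0,0,1]) r161 :=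
  .i [n1,n0,n1,n1,n2,n0,n0,n0,n0,n0,n5] (e' := [n0,n0,m1,m1,m2,n0,n0,n0,n0,n0,m5]) (by decide +kernel)
  (by decide +kernel) cl159 cl160

theorem cl162 : Clo K (Helper55.TR.GH (-1) Helper55.TR.BrU [0,0,1]) l160 :=
  .i [n1,n0,m1,m1,m3,n0,n0,n0,n0,n0,m7] (e' := [n0,n0,n1,n1,n3,n0,n0,n0,n0,n0,n7]) (by decide +kernel)
  (by decide +kernel) cl157 cl161

theorem cl163 : Clo K (Helper55.TR.GH (-1) Helper55.TR.BrU [0,0,1]) r169 :=
  .w [n0,n0,n0,n0,n0,n0,n0,n0,n0,n0,n0,n1,m1,n1,m2] (e' := [n1,n0,n0,n0,n0,n0,n0,n0,n0,n0,n0,m1,n1,m1,n2])
  (by decide +kernel) (.t t170 ok170) (.t t171 ok171)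

theorem cl164 : Clo K (Helper55.TR.GH (-1) Helper55.TR.BrU [0,0,1]) r168 :=
  .w [n0,n0,n0,n0,n0,n0,n0,n0,n0,n0,n0,n0,m1,n1,m2] (e' := [n1,n0,n0,n0,n0,n0,n0,n0,n0,n0,n0,n0,n1,m1,n2]) (by decide +kernel)
  (.t t169 ok169) cl163

theorem cl165 : Clo K (Helper55.TR.GH (-1) Helper55.TR.BrU [0,0,1]) r160 :=
  .w [n0,n0,n0,n0,n0,n0,n0,n0,n0,n0,n0,m1,n1,m1,n2] (e' := [n1,n0,n0,n0,n0,n0,n0,n0,n0,n0,n0,n1,m1,n1,m2])
  (by decide +kernel) (.t t168 ok168) cl164

theorem cl166 : Clo K (Helper55.TR.GH (-1) Helper55.TR.BrU [0,0,1]) r144 :=
  .i [n1,n0,n1,n1,n3,n0,n0,n0,n0,n0,n7] (e' := [n0,n0,m1,m1,m3,n0,n0,n0,n0,n0,m7]) (by decide +kernel)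
  (by decide +kernel) cl162 cl165

theorem cl167 : Clo K (Helper55.TR.GH (-1) Helper55.TR.BrU [0,0,1]) r91 :=
  .i [n0,n0,m6,n0,n3,m1] (e' := [n1,n0,n6,n0,m3,n1]) (by decide +kernel) (by decide +kernel) cl155 cl166

theorem cl168 : Clo K (Helper55.TR.GH (-1) Helper55.TR.BrU [0,0,1]) r90 :=
  .i [n1,n0,m3,m3,n2,n0,n0,n0,n0,n1,n1] (e' := [n0,n0,n3,n3,m2,n0,n0,n0,n0,m1,m1]) (by decide +kernel)
  (by decide +kernel) cl140 cl167

theorem cl169 : Clo K (Helper55.TR.GH (-1) Helper55.TR.BrU [0,0,1]) r0 :=
  .i [n0,n0,n2,n0,m1,n0,n1,n0,m1] (e' := [n1,n0,m2,n0,n1,n0,m1,n0,n1]) (by decide +kernel) (by decide +kernel)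
  (.t t90 ok90) cl168

theorem cl170 : Clo K (Helper55.TR.GH (-1) Helper55.TR.BrU [0,0,1]) base :=
  .i [n1,n0,m3,m3,n1,n0,n0,n0,n0,n1,m1] (e' := [n0,n0,n3,n3,m1,n0,n0,n0,n0,m1,n1]) (by decide +kernel)
  (by decide +kernel) cl88 cl169

theorem g : Helper55.TR.GH (-1) Helper55.TR.BrU [0,0,1] base :=
  Helper55.TR.GH.of (Or.inl rfl) cl170

end Helper55.CD.D1_m1_c19u_40_1_0

namespace Helper55.CD.D1_m1_c19u_40_1_1

open Helper25.KG Helper25.KW Helper55.KE Helper11.CT Helper55.TR.Nm

noncomputable def K : Cls :=
  Helper55.TR.KH (-1) [0,0,1]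

noncomputable def base : List Con :=
  [(true,[n1,n0,n0,n0,n1,n0,n0,n1,n0,m1,n2]),
  (false,[n0,n0,n0,n0,n0,n0,n0,n0,n1,n0,n0,n0,n0,m1]),
  (true,[n1,n1,n0,n0,n0,n0,n0,n0,n0,n1]),
  (true,[n0,n0,n0,n1]),
  (true,[m1,n1]),
  (true,[n0,n1,n0,m1]),
  (true,[n1,n0,n0,n0,m1,n0,n0,m1,n0,n1,m2]),
  (false,[n0,n0,n0,n0,n0,n0,n0,n0,n0,n0,n0,n1,n0,m1]),
  (false,[n0,n0,n0,n0,n0,n0,n0,n0,n0,n0,n0,n0,n0,n1]),
  (false,[n0,n0,n0,n0,n0,m1,n0,n0,n0,n0,n0,n1,n0,m1]),
  (true,[n0,n0,n0,n0,n1,n0,n0,n0,n0,n0,m2]),
  (true,[n0,m2,n0,n0,n1]),
  (false,[n0,m1,n0,n1,n0,n0,n1,n1,n0,n0,n0,n0,m1]),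
  (false,[n0,n0,n0,m1,n0,n0,n0,n0,m1,m1,n0,n0,n0,n1]),
  (true,[n0,n0,m2,m2,n1]),
  (true,[n1,n0,n2,n2,m1,n0,n0,m1]),
  (false,[n0,n0,n0,n0,n1,n0,n0,n0,n0,n0,n0,m2]),
  (false,[n0,n0,m1,n0,n1,n0,m2,n0,n0,n0,n0,m1,n2]),
  (false,[n0,m1,n0,n0,n0,n0,n1,n1,n0,n0,n0,n1,m1]),
  (true,[n1,n0,n2,n2,m1,n0,n0,n0,n0,m1]),
  (true,[n1,m2,n1]),
  (true,[n1,n0,m2,n0,n1,n3,n0,n0,m1]),
  (true,[n0,n0,n0,n0,n1,n0,n0,n0,n0,n0,n2]),
  (true,[n0,n0,m2,n0,n1]),
  (false,[n0,n0,n0,n0,n0,n0,n0,n0,n0,n0,n0,n0,n1]),
  (true,[n1,n0,n0,m1,n0,n0,n0,m1]),
  (false,[n0,n0,n1,n0,n0,n0,m1,n0,n0,n0,n0,n0,n1]),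
  (false,[n0,n0,n1,n0,n0,n0,m1,n0,n0,n0,n0,m1,n1]),
  (true,[n0,n0,n0,n0,n0,n1,m1,n0,n1]),
  (true,[n1,n0,n2,n0,m1,m2,m1,n0,n2]),
  (false,[n0,n0,n0,n0,n0,m1,n0,n0,n0,n0,n0,n1,m1]),
  (true,[n0,m1,n1,n0,n0,n0,n0,n1]),
  (true,[n1,m1,n0,m1,n0,n0,n0,m1]),
  (true,[n0,m1,n0,n1,n0,n0,n0,n0,n0,m1]),
  (false,[n0,n0,n2,n0,m1,n0,n1,n0,n0,n0,n0,n0,m1]),
  (true,[n0,n0,n0,n0,n0,n1]),
  (true,[n0,n0,m4,m4,n2,n0,n0,n1]),
  (false,[n0,n0,n0,n0,n0,m2,n0,n0,n0,n0,n0,n0,n1]),
  (false,[n0,n0,n0,m2,n0,n0,n1,n1,n0,n0,n0,n0,m1]),
  (true,[n1,n0,n2,n0,m1,n0,n1,n0,m1]),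
  (false,[n0,n0,n0,n0,n0,n0,n0,n0,n0,n0,n0,n1,n0,n0,m1]),
  (false,[n0,n0,n0,n0,n0,n0,n1,n0,n0,n0,n0,n1,m1]),
  (false,[n0,n1,n1,m1,n0,n0,m1,n0,n0,n0,n0,m1,n1]),
  (false,[n0,n0,n1,n0,n0,n0,n1,n0,n0,n0,n0,n0,m1]),
  (false,[n0,n0,n0,n0,n0,n0,n0,n0,n0,n0,n0,n0,n0,n0,n1]),
  (false,[n0,n0,n0,n0,n0,n0,n0,n0,n0,n0,n0,n1,m1]),
  (false,[n0,n1,n0,n0,n0,n0,n1,n1,n0,n0,n0,n0,m1]),
  (false,[n0,n0,n0,n0,n0,m1,n0,n0,n0,n0,n0,n1])]

noncomputable def l0 : List Con := (true, [n0,n0,m2,n0,n1,n3,n0,n0,m1]) :: base

noncomputable def r0 : List Con := (true, [n1,n0,n2,n0,m1,m3,n0,n0,n1]) :: base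

noncomputable def l1 : List Con := (true, [n1,n0,n3,n3,m1,n0,n0,n0,n0,m1,n1]) :: l0

noncomputable def r1 : List Con := (true, [n0,n0,m3,m3,n1,n0,n0,n0,n0,n1,m1]) :: l0

noncomputable def l2 : List Con := (true, [n1,n0,m3,m3,n1,n0,n0,n0,n0,n1,m1]) :: l1

noncomputable def r2 : List Con := (true, [n0,n0,n3,n3,m1,n0,n0,n0,n0,m1,n1]) :: l1

noncomputable def l3 : List Con := (true, [n0,n0,n2,n0,m1,n0,n1,n0,m1]) :: r2

noncomputable def r3 : List Con := (true, [n1,n0,m2,n0,n1,n0,m1,n0,n1]) :: r2

noncomputable def l4 : List Con := (true, [n1,n0,n3,n3,m2,n0,n0,n0,n0,m1,m1]) :: r3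

noncomputable def r4 : List Con := (true, [n0,n0,m3,m3,n2,n0,n0,n0,n0,n1,n1]) :: r3

noncomputable def l5 : List Con := (true, [n1,n0,m3,m3,n2,n0,n0,n0,n0,n1,n1]) :: l4

noncomputable def r5 : List Con := (true, [n0,n0,n3,n3,m2,n0,n0,n0,n0,m1,m1]) :: l4

noncomputable def l6 : List Con := (true, [n0,n0,n6,n0,m3,n1]) :: r5

noncomputable def r6 : List Con := (true, [n1,n0,m6,n0,n3,m1]) :: r5

noncomputable def l7 : List Con := (true, [n1,n0,m1,m1,m3,n0,n0,n0,n0,n0,m7]) :: l6

noncomputable def r7 : List Con := (true, [n0,n0,n1,n1,n3,n0,n0,n0,n0,n0,n7]) :: l6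

noncomputable def l8 : List Con := (true, [n1,n0,n1,n1,n3,n0,n0,n0,n0,n0,n7]) :: l7

noncomputable def r8 : List Con := (true, [n0,n0,m1,m1,m3,n0,n0,n0,n0,n0,m7]) :: l7

noncomputable def l9 : List Con := (false, [n0,n0,n0,n0,n0,n0,n0,n0,n0,n0,n0,m1,n1,m1,n2]) :: r8

noncomputable def r9 : List Con := (true, [n1,n0,n0,n0,n0,n0,n0,n0,n0,n0,n0,n1,m1,n1,m2]) :: r8

noncomputable def l10 : List Con := (false, [n0,n0,n0,n0,n0,n0,n0,n0,n0,n0,n0,n0,n1,m1,n2]) :: r9

noncomputable def r10 : List Con := (true, [n1,n0,n0,n0,n0,n0,n0,n0,n0,n0,n0,n0,m1,n1,m2]) :: r9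

noncomputable def l11 : List Con := (true, [n1,n0,n1,n1,n2,n0,n0,n0,n0,n0,n5]) :: r7

noncomputable def r11 : List Con := (true, [n0,n0,m1,m1,m2,n0,n0,n0,n0,n0,m5]) :: r7

noncomputable def l12 : List Con := (true, [n1,n0,m1,m1,m2,n0,n0,n0,n0,n0,m5]) :: l11

noncomputable def r12 : List Con := (true, [n0,n0,n1,n1,n2,n0,n0,n0,n0,n0,n5]) :: l11

noncomputable def l13 : List Con := (false, [n0,n0,n0,n0,n0,n0,n0,n0,n0,n0,n0,m1,n1,m1,n2]) :: r12

noncomputable def r13 : List Con := (true, [n1,n0,n0,n0,n0,n0,n0,n0,n0,n0,n0,n1,m1,n1,m2]) :: r12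

noncomputable def l14 : List Con := (false, [n0,n0,n0,n0,n0,n0,n0,n0,n0,n0,n0,n0,n1,m1,n2]) :: r13

noncomputable def r14 : List Con := (true, [n1,n0,n0,n0,n0,n0,n0,n0,n0,n0,n0,n0,m1,n1,m2]) :: r13

noncomputable def l15 : List Con := (false, [n0,n0,n0,n0,n0,n0,n0,n0,n0,n0,n0,n1,m1,n1,m2]) :: l14

noncomputable def r15 : List Con := (true, [n1,n0,n0,n0,n0,n0,n0,n0,n0,n0,n0,m1,n1,m1,n2]) :: l14

noncomputable def l16 : List Con := (false, [n0,n0,n0,n0,n0,n0,n0,n0,n0,n0,n0,m1,n1,m1,n2]) :: r11

noncomputable def r16 : List Con := (true, [n1,n0,n0,n0,n0,n0,n0,n0,n0,n0,n0,n1,m1,n1,m2]) :: r11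

noncomputable def l17 : List Con := (false, [n0,n0,n0,n0,n0,n0,n0,n0,n0,n0,n0,n0,n1,m1,n2]) :: r16

noncomputable def r17 : List Con := (true, [n1,n0,n0,n0,n0,n0,n0,n0,n0,n0,n0,n0,m1,n1,m2]) :: r16

noncomputable def l18 : List Con := (false, [n0,n0,n0,n0,n0,n0,n0,n0,n0,n0,n0,n1,m1,n1,m2]) :: l17

noncomputable def r18 : List Con := (true, [n1,n0,n0,n0,n0,n0,n0,n0,n0,n0,n0,m1,n1,m1,n2]) :: l17

noncomputable def l19 : List Con := (true, [n1,n0,n1,n1,n3,n0,n0,n0,n0,n0,n7]) :: r6

noncomputable def r19 : List Con := (true, [n0,n0,m1,m1,m3,n0,n0,n0,n0,n0,m7]) :: r6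

noncomputable def l20 : List Con := (true, [n1,n0,m1,m1,m3,n0,n0,n0,n0,n0,m7]) :: l19

noncomputable def r20 : List Con := (true, [n0,n0,n1,n1,n3,n0,n0,n0,n0,n0,n7]) :: l19

noncomputable def l21 : List Con := (true, [n0,n0,m6,n0,n3,m1]) :: l20

noncomputable def r21 : List Con := (true, [n1,n0,n6,n0,m3,n1]) :: l20

noncomputable def l22 : List Con := (false, [n0,n0,n0,n0,n0,n0,n0,n0,n0,n0,n0,m1,n1,m1,n2]) :: r21

noncomputable def r22 : List Con := (true, [n1,n0,n0,n0,n0,n0,n0,n0,n0,n0,n0,n1,m1,n1,m2]) :: r21

noncomputable def l23 : List Con := (false, [n0,n0,n0,n0,n0,n0,n0,n0,n0,n0,n0,m1,n1,m1,n2]) :: r20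

noncomputable def r23 : List Con := (true, [n1,n0,n0,n0,n0,n0,n0,n0,n0,n0,n0,n1,m1,n1,m2]) :: r20

noncomputable def l24 : List Con := (false, [n0,n0,n0,n0,n0,n0,n0,n0,n0,n0,n0,n0,n1,m1,n2]) :: r23

noncomputable def r24 : List Con := (true, [n1,n0,n0,n0,n0,n0,n0,n0,n0,n0,n0,n0,m1,n1,m2]) :: r23

noncomputable def l25 : List Con := (false, [n0,n0,n0,n0,n0,n0,n0,n0,n0,n0,n0,n1,m1,n1,m2]) :: l24

noncomputable def r25 : List Con := (true, [n1,n0,n0,n0,n0,n0,n0,n0,n0,n0,n0,m1,n1,m1,n2]) :: l24

noncomputable def l26 : List Con := (false, [n0,n0,n0,n0,n0,n0,n0,n0,n0,n0,n0,m1,n1,m1,n2]) :: r19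

noncomputable def r26 : List Con := (true, [n1,n0,n0,n0,n0,n0,n0,n0,n0,n0,n0,n1,m1,n1,m2]) :: r19

noncomputable def l27 : List Con := (true, [n1,n0,m1,m1,n0,n0,n0,n1,n0,m1,m1]) :: r4

noncomputable def r27 : List Con := (true, [n0,n0,n1,n1,n0,n0,n0,m1,n0,n1,n1]) :: r4

noncomputable def l28 : List Con := (true, [n1,n0,n1,n1,n0,n0,n0,m1,n0,n1,n1]) :: l27

noncomputable def r28 : List Con := (true, [n0,n0,m1,m1,n0,n0,n0,n1,n0,m1,m1]) :: l27

noncomputable def l29 : List Con := (true, [n1,n0,n1,n1,n2,n0,n0,n0,n0,n0,n5]) :: r28

noncomputable def r29 : List Con := (true, [n0,n0,m1,m1,m2,n0,n0,n0,n0,n0,m5]) :: r28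

noncomputable def l30 : List Con := (true, [n1,n0,m1,m1,m2,n0,n0,n0,n0,n0,m5]) :: l29

noncomputable def r30 : List Con := (true, [n0,n0,n1,n1,n2,n0,n0,n0,n0,n0,n5]) :: l29

noncomputable def l31 : List Con := (true, [n0,n0,m4,n0,n2,m1]) :: l30

noncomputable def r31 : List Con := (true, [n1,n0,n4,n0,m2,n1]) :: l30

noncomputable def l32 : List Con := (true, [n0,n0,n4,n0,m2,n1]) :: r31

noncomputable def r32 : List Con := (true, [n1,n0,m4,n0,n2,m1]) :: r31

noncomputable def l33 : List Con := (false, [n0,n0,n0,n0,n0,n0,n0,n0,n0,n0,n0,m1,n1,m1,n2]) :: r32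

noncomputable def r33 : List Con := (true, [n1,n0,n0,n0,n0,n0,n0,n0,n0,n0,n0,n1,m1,n1,m2]) :: r32

noncomputable def l34 : List Con := (false, [n0,n0,n0,n0,n0,n0,n0,n0,n0,n0,n0,m1,n1,m1,n2]) :: r30

noncomputable def r34 : List Con := (true, [n1,n0,n0,n0,n0,n0,n0,n0,n0,n0,n0,n1,m1,n1,m2]) :: r30

noncomputable def l35 : List Con := (false, [n0,n0,n0,n0,n0,n0,n0,n0,n0,n0,n0,n0,n1,m1,n2]) :: r34

noncomputable def r35 : List Con := (true, [n1,n0,n0,n0,n0,n0,n0,n0,n0,n0,n0,n0,m1,n1,m2]) :: r34

noncomputable def l36 : List Con := (false, [n0,n0,n0,n0,n0,n0,n0,n0,n0,n0,n0,n1,m1,n1,m2]) :: l35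

noncomputable def r36 : List Con := (true, [n1,n0,n0,n0,n0,n0,n0,n0,n0,n0,n0,m1,n1,m1,n2]) :: l35

noncomputable def l37 : List Con := (true, [n1,n0,n1,n1,n3,n0,n0,n0,n0,n0,n7]) :: r29

noncomputable def r37 : List Con := (true, [n0,n0,m1,m1,m3,n0,n0,n0,n0,n0,m7]) :: r29

noncomputable def l38 : List Con := (true, [n1,n0,m1,m1,m3,n0,n0,n0,n0,n0,m7]) :: l37

noncomputable def r38 : List Con := (true, [n0,n0,n1,n1,n3,n0,n0,n0,n0,n0,n7]) :: l37

noncomputable def l39 : List Con := (true, [n0,n0,m6,n0,n3,m1]) :: l38

noncomputable def r39 : List Con := (true, [n1,n0,n6,n0,m3,n1]) :: l38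

noncomputable def l40 : List Con := (true, [n0,n0,n6,n0,m3,n1]) :: r39

noncomputable def r40 : List Con := (true, [n1,n0,m6,n0,n3,m1]) :: r39

noncomputable def l41 : List Con := (false, [n0,n0,n0,n0,n0,n0,n0,n0,n0,n0,n0,m1,n1,m1,n2]) :: r40

noncomputable def r41 : List Con := (true, [n1,n0,n0,n0,n0,n0,n0,n0,n0,n0,n0,n1,m1,n1,m2]) :: r40

noncomputable def l42 : List Con := (false, [n0,n0,n0,n0,n0,n0,n0,n0,n0,n0,n0,n0,n1,m1,n2]) :: r41

noncomputable def r42 : List Con := (true, [n1,n0,n0,n0,n0,n0,n0,n0,n0,n0,n0,n0,m1,n1,m2]) :: r41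

noncomputable def l43 : List Con := (false, [n0,n0,n0,n0,n0,n0,n0,n0,n0,n0,n0,n1,m1,n1,m2]) :: l42

noncomputable def r43 : List Con := (true, [n1,n0,n0,n0,n0,n0,n0,n0,n0,n0,n0,m1,n1,m1,n2]) :: l42

noncomputable def l44 : List Con := (false, [n0,n0,n0,n0,n0,n0,n0,n0,n0,n0,n0,m1,n1,m1,n2]) :: r38

noncomputable def r44 : List Con := (true, [n1,n0,n0,n0,n0,n0,n0,n0,n0,n0,n0,n1,m1,n1,m2]) :: r38

noncomputable def l45 : List Con := (false, [n0,n0,n0,n0,n0,n0,n0,n0,n0,n0,n0,n0,m1,n1,m2]) :: r44

noncomputable def r45 : List Con := (true, [n1,n0,n0,n0,n0,n0,n0,n0,n0,n0,n0,n0,n1,m1,n2]) :: r44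

noncomputable def l46 : List Con := (false, [n0,n0,n0,n0,n0,n0,n0,n0,n0,n0,n0,n0,n1,m1,n2]) :: r45

noncomputable def r46 : List Con := (true, [n1,n0,n0,n0,n0,n0,n0,n0,n0,n0,n0,n0,m1,n1,m2]) :: r45

noncomputable def l47 : List Con := (false, [n0,n0,n0,n0,n0,n0,n0,n0,n0,n0,n0,n1,m1,n1,m2]) :: l46

noncomputable def r47 : List Con := (true, [n1,n0,n0,n0,n0,n0,n0,n0,n0,n0,n0,m1,n1,m1,n2]) :: l46

noncomputable def l48 : List Con := (false, [n0,n0,n0,n0,n0,n0,n0,n0,n0,n0,n0,n1,m1,n1,m2]) :: r37

noncomputable def r48 : List Con := (true, [n1,n0,n0,n0,n0,n0,n0,n0,n0,n0,n0,m1,n1,m1,n2]) :: r37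

noncomputable def l49 : List Con := (false, [n0,n0,n0,n0,n0,n0,n0,n0,n0,n0,n0,n0,n1,m1,n2]) :: l48

noncomputable def r49 : List Con := (true, [n1,n0,n0,n0,n0,n0,n0,n0,n0,n0,n0,n0,m1,n1,m2]) :: l48

noncomputable def l50 : List Con := (false, [n0,n0,n0,n0,n0,n0,n0,n0,n0,n0,n0,m1,n1,m1,n2]) :: r48

noncomputable def r50 : List Con := (true, [n1,n0,n0,n0,n0,n0,n0,n0,n0,n0,n0,n1,m1,n1,m2]) :: r48

noncomputable def l51 : List Con := (true, [n1,n0,m3,m3,m2,n0,n0,n0,n0,n0,m7]) :: r27

noncomputable def r51 : List Con := (true, [n0,n0,n3,n3,n2,n0,n0,n0,n0,n0,n7]) :: r27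

noncomputable def l52 : List Con := (true, [n1,n0,n3,n3,n2,n0,n0,n0,n0,n0,n7]) :: l51

noncomputable def r52 : List Con := (true, [n0,n0,m3,m3,m2,n0,n0,n0,n0,n0,m7]) :: l51

noncomputable def l53 : List Con := (true, [n1,n0,n2,n2,m2,n0,n0,n0,n0,m1,m2]) :: r52

noncomputable def r53 : List Con := (true, [n0,n0,m2,m2,n2,n0,n0,n0,n0,n1,n2]) :: r52

noncomputable def l54 : List Con := (true, [n1,n0,m2,m2,n2,n0,n0,n0,n0,n1,n2]) :: l53

noncomputable def r54 : List Con := (true, [n0,n0,n2,n2,m2,n0,n0,n0,n0,m1,m2]) :: l53

noncomputable def l55 : List Con := (true, [n0,n0,n4,n0,m2,m2,n0,n0,n1]) :: l54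

noncomputable def r55 : List Con := (true, [n1,n0,m4,n0,n2,n2,n0,n0,m1]) :: l54

noncomputable def l56 : List Con := (false, [n0,n0,n0,n0,n0,n0,n0,n0,n0,n0,n0,n1,m1,n1,m2]) :: r55

noncomputable def r56 : List Con := (true, [n1,n0,n0,n0,n0,n0,n0,n0,n0,n0,n0,m1,n1,m1,n2]) :: r55

noncomputable def l57 : List Con := (false, [n0,n0,n0,n0,n0,n0,n0,n0,n0,n0,n0,n0,n1,m1,n2]) :: l56

noncomputable def r57 : List Con := (true, [n1,n0,n0,n0,n0,n0,n0,n0,n0,n0,n0,n0,m1,n1,m2]) :: l56

noncomputable def l58 : List Con := (false, [n0,n0,n0,n0,n0,n0,n0,n0,n0,n0,n0,n0,m1,n1,m2]) :: r57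

noncomputable def r58 : List Con := (true, [n1,n0,n0,n0,n0,n0,n0,n0,n0,n0,n0,n0,n1,m1,n2]) :: r57

noncomputable def l59 : List Con := (false, [n0,n0,n0,n0,n0,n0,n0,n0,n0,n0,n0,m1,n1,m1,n2]) :: r56

noncomputable def r59 : List Con := (true, [n1,n0,n0,n0,n0,n0,n0,n0,n0,n0,n0,n1,m1,n1,m2]) :: r56

noncomputable def l60 : List Con := (false, [n0,n0,n0,n0,n0,n0,n0,n0,n0,n0,n0,m1,n1,m1,n2]) :: r54

noncomputable def r60 : List Con := (true, [n1,n0,n0,n0,n0,n0,n0,n0,n0,n0,n0,n1,m1,n1,m2]) :: r54

noncomputable def l61 : List Con := (false, [n0,n0,n0,n0,n0,n0,n0,n0,n0,n0,n0,n0,n1,m1,n2]) :: r60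

noncomputable def r61 : List Con := (true, [n1,n0,n0,n0,n0,n0,n0,n0,n0,n0,n0,n0,m1,n1,m2]) :: r60

noncomputable def l62 : List Con := (false, [n0,n0,n0,n0,n0,n0,n0,n0,n0,n0,n0,n0,m1,n1,m2]) :: r61

noncomputable def r62 : List Con := (true, [n1,n0,n0,n0,n0,n0,n0,n0,n0,n0,n0,n0,n1,m1,n2]) :: r61

noncomputable def l63 : List Con := (false, [n0,n0,n0,n0,n0,n0,n0,n0,n0,n0,n0,n1,m1,n1,m2]) :: r53

noncomputable def r63 : List Con := (true, [n1,n0,n0,n0,n0,n0,n0,n0,n0,n0,n0,m1,n1,m1,n2]) :: r53

noncomputable def l64 : List Con := (false, [n0,n0,n0,n0,n0,n0,n0,n0,n0,n0,n0,n0,n1,m1,n2]) :: l63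

noncomputable def r64 : List Con := (true, [n1,n0,n0,n0,n0,n0,n0,n0,n0,n0,n0,n0,m1,n1,m2]) :: l63

noncomputable def l65 : List Con := (false, [n0,n0,n0,n0,n0,n0,n0,n0,n0,n0,n0,m1,n1,m1,n2]) :: r63

noncomputable def r65 : List Con := (true, [n1,n0,n0,n0,n0,n0,n0,n0,n0,n0,n0,n1,m1,n1,m2]) :: r63

noncomputable def l66 : List Con := (false, [n0,n0,n0,n0,n0,n0,n0,n0,n0,n0,n0,n2,m1,n1,m2]) :: l65

noncomputable def r66 : List Con := (true, [n1,n0,n0,n0,n0,n0,n0,n0,n0,n0,n0,m2,n1,m1,n2]) :: l65

noncomputable def l67 : List Con := (true, [n1,n0,n0,n0,m1,n0,n0,n1,n0,m2,m2]) :: r51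

noncomputable def r67 : List Con := (true, [n0,n0,n0,n0,n1,n0,n0,m1,n0,n2,n2]) :: r51

noncomputable def l68 : List Con := (true, [n1,n0,n0,n0,n1,n0,n0,m1,n0,n2,n2]) :: l67

noncomputable def r68 : List Con := (true, [n0,n0,n0,n0,m1,n0,n0,n1,n0,m2,m2]) :: l67

noncomputable def l69 : List Con := (true, [n1,n0,n3,n3,n1,n0,n0,n0,n0,n0,n5]) :: r68

noncomputable def r69 : List Con := (true, [n0,n0,m3,m3,m1,n0,n0,n0,n0,n0,m5]) :: r68

noncomputable def l70 : List Con := (true, [n1,n0,m3,m3,m1,n0,n0,n0,n0,n0,m5]) :: l69

noncomputable def r70 : List Con := (true, [n0,n0,n3,n3,n1,n0,n0,n0,n0,n0,n5]) :: l69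

noncomputable def l71 : List Con := (false, [n0,n0,n0,n0,n0,n0,n0,n0,n0,n0,n0,n1,m1,n1,m2]) :: r70

noncomputable def r71 : List Con := (true, [n1,n0,n0,n0,n0,n0,n0,n0,n0,n0,n0,m1,n1,m1,n2]) :: r70

noncomputable def l72 : List Con := (false, [n0,n0,n0,n0,n0,n0,n0,n0,n0,n0,n0,n0,n1,m1,n2]) :: l71

noncomputable def r72 : List Con := (true, [n1,n0,n0,n0,n0,n0,n0,n0,n0,n0,n0,n0,m1,n1,m2]) :: l71

noncomputable def l73 : List Con := (false, [n0,n0,n0,n0,n0,n0,n0,n0,n0,n0,n0,m1,n1,m1,n2]) :: r71

noncomputable def r73 : List Con := (true, [n1,n0,n0,n0,n0,n0,n0,n0,n0,n0,n0,n1,m1,n1,m2]) :: r71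

noncomputable def l74 : List Con := (false, [n0,n0,n0,n0,n0,n0,n0,n0,n0,n0,n0,n1,m1,n1,m2]) :: r69

noncomputable def r74 : List Con := (true, [n1,n0,n0,n0,n0,n0,n0,n0,n0,n0,n0,m1,n1,m1,n2]) :: r69

noncomputable def l75 : List Con := (false, [n0,n0,n0,n0,n0,n0,n0,n0,n0,n0,n0,n0,n1,m1,n2]) :: l74

noncomputable def r75 : List Con := (true, [n1,n0,n0,n0,n0,n0,n0,n0,n0,n0,n0,n0,m1,n1,m2]) :: l74

noncomputable def l76 : List Con := (false, [n0,n0,n0,n0,n0,n0,n0,n0,n0,n0,n0,m1,n1,m1,n2]) :: r67

noncomputable def r76 : List Con := (true, [n1,n0,n0,n0,n0,n0,n0,n0,n0,n0,n0,n1,m1,n1,m2]) :: r67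

noncomputable def l77 : List Con := (false, [n0,n0,n0,n0,n0,n0,n0,n0,n0,n0,n0,n0,m1,n1,m2]) :: r76

noncomputable def r77 : List Con := (true, [n1,n0,n0,n0,n0,n0,n0,n0,n0,n0,n0,n0,n1,m1,n2]) :: r76

noncomputable def l78 : List Con := (false, [n0,n0,n0,n0,n0,n0,n0,n0,n0,n0,n0,n0,n1,m1,n2]) :: r77

noncomputable def r78 : List Con := (true, [n1,n0,n0,n0,n0,n0,n0,n0,n0,n0,n0,n0,m1,n1,m2]) :: r77

noncomputable def l79 : List Con := (false, [n0,n0,n0,n0,n0,n0,n0,n0,n0,n0,n0,n1,m1,n1,m2]) :: l78

noncomputable def r79 : List Con := (true, [n1,n0,n0,n0,n0,n0,n0,n0,n0,n0,n0,m1,n1,m1,n2]) :: l78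

noncomputable def l80 : List Con := (true, [n1,n0,m3,m3,n1,n0,n0,n1,n0,n0,m1]) :: r1

noncomputable def r80 : List Con := (true, [n0,n0,n3,n3,m1,n0,n0,m1,n0,n0,n1]) :: r1

noncomputable def l81 : List Con := (true, [n1,n0,n3,n3,m1,n0,n0,m1,n0,n0,n1]) :: l80

noncomputable def r81 : List Con := (true, [n0,n0,m3,m3,n1,n0,n0,n1,n0,n0,m1]) :: l80

noncomputable def l82 : List Con := (true, [n0,n0,n2,n0,m1,m3,n1]) :: l81

noncomputable def r82 : List Con := (true, [n1,n0,m2,n0,n1,n3,m1]) :: l81

noncomputable def l83 : List Con := (true, [n0,n0,m2,n0,n1,n3,m1]) :: r82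

noncomputable def r83 : List Con := (true, [n1,n0,n2,n0,m1,m3,n1]) :: r82

noncomputable def l84 : List Con := (true, [n0,n0,n2,n0,m1,n0,n1,n0,m1]) :: r83

noncomputable def r84 : List Con := (true, [n1,n0,m2,n0,n1,n0,m1,n0,n1]) :: r83

noncomputable def l85 : List Con := (true, [n0,n0,n4,n0,m2,m2,n0,n0,n1]) :: r84

noncomputable def r85 : List Con := (true, [n1,n0,m4,n0,n2,n2,n0,n0,m1]) :: r84

noncomputable def l86 : List Con := (true, [n1,n0,m2,m2,n2,n0,n0,n0,n0,n1,n2]) :: l85

noncomputable def r86 : List Con := (true, [n0,n0,n2,n2,m2,n0,n0,n0,n0,m1,m2]) :: l85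

noncomputable def l87 : List Con := (true, [n1,n0,n2,n2,m2,n0,n0,n0,n0,m1,m2]) :: l86

noncomputable def r87 : List Con := (true, [n0,n0,m2,m2,n2,n0,n0,n0,n0,n1,n2]) :: l86

noncomputable def l88 : List Con := (false, [n0,n0,n0,n0,n0,n0,n0,n0,n0,n0,n0,m1,n1,m1,n2]) :: r87

noncomputable def r88 : List Con := (true, [n1,n0,n0,n0,n0,n0,n0,n0,n0,n0,n0,n1,m1,n1,m2]) :: r87

noncomputable def l89 : List Con := (false, [n0,n0,n0,n0,n0,n0,n0,n0,n0,n0,n0,n2,m1,n1,m2]) :: l88

noncomputable def r89 : List Con := (true, [n1,n0,n0,n0,n0,n0,n0,n0,n0,n0,n0,m2,n1,m1,n2]) :: l88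

noncomputable def l90 : List Con := (true, [n1,n0,n1,n1,n3,n0,n0,n0,n0,n0,n7]) :: r86

noncomputable def r90 : List Con := (true, [n0,n0,m1,m1,m3,n0,n0,n0,n0,n0,m7]) :: r86

noncomputable def l91 : List Con := (true, [n1,n0,m1,m1,m3,n0,n0,n0,n0,n0,m7]) :: l90

noncomputable def r91 : List Con := (true, [n0,n0,n1,n1,n3,n0,n0,n0,n0,n0,n7]) :: l90

noncomputable def l92 : List Con := (true, [n0,n0,m6,n0,n3,m1]) :: l91

noncomputable def r92 : List Con := (true, [n1,n0,n6,n0,m3,n1]) :: l91

noncomputable def l93 : List Con := (true, [n0,n0,n6,n0,m3,n1]) :: r92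

noncomputable def r93 : List Con := (true, [n1,n0,m6,n0,n3,m1]) :: r92

noncomputable def l94 : List Con := (false, [n0,n0,n0,n0,n0,n0,n0,n0,n0,n0,n0,n1,m1,n1,m2]) :: r93

noncomputable def r94 : List Con := (true, [n1,n0,n0,n0,n0,n0,n0,n0,n0,n0,n0,m1,n1,m1,n2]) :: r93

noncomputable def l95 : List Con := (false, [n0,n0,n0,n0,n0,n0,n0,n0,n0,n0,n0,n0,n1,m1,n2]) :: l94

noncomputable def r95 : List Con := (true, [n1,n0,n0,n0,n0,n0,n0,n0,n0,n0,n0,n0,m1,n1,m2]) :: l94

noncomputable def l96 : List Con := (false, [n0,n0,n0,n0,n0,n0,n0,n0,n0,n0,n0,m1,n1,m1,n2]) :: r94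

noncomputable def r96 : List Con := (true, [n1,n0,n0,n0,n0,n0,n0,n0,n0,n0,n0,n1,m1,n1,m2]) :: r94

noncomputable def l97 : List Con := (false, [n0,n0,n0,n0,n0,n0,n0,n0,n0,n0,n0,m1,n1,m1,n2]) :: r91

noncomputable def r97 : List Con := (true, [n1,n0,n0,n0,n0,n0,n0,n0,n0,n0,n0,n1,m1,n1,m2]) :: r91

noncomputable def l98 : List Con := (false, [n0,n0,n0,n0,n0,n0,n0,n0,n0,n0,n0,n0,m1,n1,m2]) :: r97

noncomputable def r98 : List Con := (true, [n1,n0,n0,n0,n0,n0,n0,n0,n0,n0,n0,n0,n1,m1,n2]) :: r97

noncomputable def l99 : List Con := (false, [n0,n0,n0,n0,n0,n0,n0,n0,n0,n0,n0,n1,m1,n1,m2]) :: r98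

noncomputable def r99 : List Con := (true, [n1,n0,n0,n0,n0,n0,n0,n0,n0,n0,n0,m1,n1,m1,n2]) :: r98

noncomputable def l100 : List Con := (false, [n0,n0,n0,n0,n0,n0,n0,n0,n0,n0,n0,n0,n1,m1,n2]) :: l99

noncomputable def r100 : List Con := (true, [n1,n0,n0,n0,n0,n0,n0,n0,n0,n0,n0,n0,m1,n1,m2]) :: l99

noncomputable def l101 : List Con := (false, [n0,n0,n0,n0,n0,n0,n0,n0,n0,n0,n0,m1,n1,m1,n2]) :: r90

noncomputable def r101 : List Con := (true, [n1,n0,n0,n0,n0,n0,n0,n0,n0,n0,n0,n1,m1,n1,m2]) :: r90

noncomputable def l102 : List Con := (false, [n0,n0,n0,n0,n0,n0,n0,n0,n0,n0,n0,m1,n1,m1,n2]) :: r85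

noncomputable def r102 : List Con := (true, [n1,n0,n0,n0,n0,n0,n0,n0,n0,n0,n0,n1,m1,n1,m2]) :: r85

noncomputable def l103 : List Con := (false, [n0,n0,n0,n0,n0,n0,n0,n0,n0,n0,n0,n2,m1,n1,m2]) :: l102

noncomputable def r103 : List Con := (true, [n1,n0,n0,n0,n0,n0,n0,n0,n0,n0,n0,m2,n1,m1,n2]) :: l102

noncomputable def l104 : List Con := (true, [n0,n0,n2,n0,m1,n0,n1,n0,m1]) :: r81

noncomputable def r104 : List Con := (true, [n1,n0,m2,n0,n1,n0,m1,n0,n1]) :: r81

noncomputable def l105 : List Con := (true, [n1,n0,m1,m1,m3,n0,n0,n0,n0,n0,m7]) :: r104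

noncomputable def r105 : List Con := (true, [n0,n0,n1,n1,n3,n0,n0,n0,n0,n0,n7]) :: r104

noncomputable def l106 : List Con := (true, [n1,n0,n1,n1,n3,n0,n0,n0,n0,n0,n7]) :: l105

noncomputable def r106 : List Con := (true, [n0,n0,m1,m1,m3,n0,n0,n0,n0,n0,m7]) :: l105

noncomputable def l107 : List Con := (true, [n0,n0,m6,n0,n3,m1]) :: l106

noncomputable def r107 : List Con := (true, [n1,n0,n6,n0,m3,n1]) :: l106

noncomputable def l108 : List Con := (true, [n0,n0,n6,n0,m3,n1]) :: r107

noncomputable def r108 : List Con := (true, [n1,n0,m6,n0,n3,m1]) :: r107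

noncomputable def l109 : List Con := (true, [n1,n0,m2,m2,n2,n0,n0,n0,n0,n1,n2]) :: r108

noncomputable def r109 : List Con := (true, [n0,n0,n2,n2,m2,n0,n0,n0,n0,m1,m2]) :: r108

noncomputable def l110 : List Con := (true, [n1,n0,n2,n2,m2,n0,n0,n0,n0,m1,m2]) :: l109

noncomputable def r110 : List Con := (true, [n0,n0,m2,m2,n2,n0,n0,n0,n0,n1,n2]) :: l109

noncomputable def l111 : List Con := (true, [n0,n0,n4,n0,m2,m2,n0,n0,n1]) :: l110

noncomputable def r111 : List Con := (true, [n1,n0,m4,n0,n2,n2,n0,n0,m1]) :: l110

noncomputable def l112 : List Con := (false, [n0,n0,n0,n0,n0,n0,n0,n0,n0,n0,n0,m1,n1,m1,n2]) :: r111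

noncomputable def r112 : List Con := (true, [n1,n0,n0,n0,n0,n0,n0,n0,n0,n0,n0,n1,m1,n1,m2]) :: r111

noncomputable def l113 : List Con := (false, [n0,n0,n0,n0,n0,n0,n0,n0,n0,n0,n0,n0,n1,m1,n2]) :: r112

noncomputable def r113 : List Con := (true, [n1,n0,n0,n0,n0,n0,n0,n0,n0,n0,n0,n0,m1,n1,m2]) :: r112

noncomputable def l114 : List Con := (false, [n0,n0,n0,n0,n0,n0,n0,n0,n0,n0,n0,n1,m1,n1,m2]) :: l113

noncomputable def r114 : List Con := (true, [n1,n0,n0,n0,n0,n0,n0,n0,n0,n0,n0,m1,n1,m1,n2]) :: l113

noncomputable def l115 : List Con := (false, [n0,n0,n0,n0,n0,n0,n0,n0,n0,n0,n0,m1,n1,m1,n2]) :: r110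

noncomputable def r115 : List Con := (true, [n1,n0,n0,n0,n0,n0,n0,n0,n0,n0,n0,n1,m1,n1,m2]) :: r110

noncomputable def l116 : List Con := (false, [n0,n0,n0,n0,n0,n0,n0,n0,n0,n0,n0,n2,m1,n1,m2]) :: l115

noncomputable def r116 : List Con := (true, [n1,n0,n0,n0,n0,n0,n0,n0,n0,n0,n0,m2,n1,m1,n2]) :: l115

noncomputable def l117 : List Con := (false, [n0,n0,n0,n0,n0,n0,n0,n0,n0,n0,n0,n0,m1,n1,m2]) :: r115

noncomputable def r117 : List Con := (true, [n1,n0,n0,n0,n0,n0,n0,n0,n0,n0,n0,n0,n1,m1,n2]) :: r115

noncomputable def l118 : List Con := (false, [n0,n0,n0,n0,n0,n0,n0,n0,n0,n0,n0,n1,m1,n1,m2]) :: r117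

noncomputable def r118 : List Con := (true, [n1,n0,n0,n0,n0,n0,n0,n0,n0,n0,n0,m1,n1,m1,n2]) :: r117

noncomputable def l119 : List Con := (false, [n0,n0,n0,n0,n0,n0,n0,n0,n0,n0,n0,n0,n1,m1,n2]) :: l118

noncomputable def r119 : List Con := (true, [n1,n0,n0,n0,n0,n0,n0,n0,n0,n0,n0,n0,m1,n1,m2]) :: l118

noncomputable def l120 : List Con := (false, [n0,n0,n0,n0,n0,n0,n0,n0,n0,n0,n0,n1,m1,n1,m2]) :: r109

noncomputable def r120 : List Con := (true, [n1,n0,n0,n0,n0,n0,n0,n0,n0,n0,n0,m1,n1,m1,n2]) :: r109

noncomputable def l121 : List Con := (false, [n0,n0,n0,n0,n0,n0,n0,n0,n0,n0,n0,n0,n1,m1,n2]) :: l120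

noncomputable def r121 : List Con := (true, [n1,n0,n0,n0,n0,n0,n0,n0,n0,n0,n0,n0,m1,n1,m2]) :: l120

noncomputable def l122 : List Con := (false, [n0,n0,n0,n0,n0,n0,n0,n0,n0,n0,n0,m1,n1,m1,n2]) :: r106

noncomputable def r122 : List Con := (true, [n1,n0,n0,n0,n0,n0,n0,n0,n0,n0,n0,n1,m1,n1,m2]) :: r106

noncomputable def l123 : List Con := (true, [n1,n0,n2,n2,m2,n0,n0,n0,n0,m1,m2]) :: l122

noncomputable def r123 : List Con := (true, [n0,n0,m2,m2,n2,n0,n0,n0,n0,n1,n2]) :: l122

noncomputable def l124 : List Con := (false, [n0,n0,n0,n0,n0,n0,n0,n0,n0,n0,n0,n2,m1,n1,m2]) :: r123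

noncomputable def r124 : List Con := (true, [n1,n0,n0,n0,n0,n0,n0,n0,n0,n0,n0,m2,n1,m1,n2]) :: r123

noncomputable def l125 : List Con := (true, [n0,n0,n4,n0,m2,m2,n0,n0,n1]) :: r105

noncomputable def r125 : List Con := (true, [n1,n0,m4,n0,n2,n2,n0,n0,m1]) :: r105

noncomputable def l126 : List Con := (true, [n0,n0,n4,n0,m2,n1]) :: l125

noncomputable def r126 : List Con := (true, [n1,n0,m4,n0,n2,m1]) :: l125

noncomputable def l127 : List Con := (true, [n1,n0,m2,m2,n2,n0,n0,n0,n0,n1,n2]) :: l126

noncomputable def r127 : List Con := (true, [n0,n0,n2,n2,m2,n0,n0,n0,n0,m1,m2]) :: l126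

noncomputable def l128 : List Con := (true, [n1,n0,n2,n2,m2,n0,n0,n0,n0,m1,m2]) :: l127

noncomputable def r128 : List Con := (true, [n0,n0,m2,m2,n2,n0,n0,n0,n0,n1,n2]) :: l127

noncomputable def l129 : List Con := (true, [n1,n0,n1,n1,n2,n0,n0,n0,n0,n0,n5]) :: r128

noncomputable def r129 : List Con := (true, [n0,n0,m1,m1,m2,n0,n0,n0,n0,n0,m5]) :: r128

noncomputable def l130 : List Con := (true, [n1,n0,m1,m1,m2,n0,n0,n0,n0,n0,m5]) :: l129

noncomputable def r130 : List Con := (true, [n0,n0,n1,n1,n2,n0,n0,n0,n0,n0,n5]) :: l129

noncomputable def l131 : List Con := (false, [n0,n0,n0,n0,n0,n0,n0,n0,n0,n0,n0,m1,n1,m1,n2]) :: r130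

noncomputable def r131 : List Con := (true, [n1,n0,n0,n0,n0,n0,n0,n0,n0,n0,n0,n1,m1,n1,m2]) :: r130

noncomputable def l132 : List Con := (false, [n0,n0,n0,n0,n0,n0,n0,n0,n0,n0,n0,n2,m1,n1,m2]) :: l131

noncomputable def r132 : List Con := (true, [n1,n0,n0,n0,n0,n0,n0,n0,n0,n0,n0,m2,n1,m1,n2]) :: l131

noncomputable def l133 : List Con := (false, [n0,n0,n0,n0,n0,n0,n0,n0,n0,n0,n0,n0,n1,m1,n2]) :: r131

noncomputable def r133 : List Con := (true, [n1,n0,n0,n0,n0,n0,n0,n0,n0,n0,n0,n0,m1,n1,m2]) :: r131

noncomputable def l134 : List Con := (false, [n0,n0,n0,n0,n0,n0,n0,n0,n0,n0,n0,n1,m1,n1,m2]) :: l133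

noncomputable def r134 : List Con := (true, [n1,n0,n0,n0,n0,n0,n0,n0,n0,n0,n0,m1,n1,m1,n2]) :: l133

noncomputable def l135 : List Con := (false, [n0,n0,n0,n0,n0,n0,n0,n0,n0,n0,n0,m1,n1,m1,n2]) :: r129

noncomputable def r135 : List Con := (true, [n1,n0,n0,n0,n0,n0,n0,n0,n0,n0,n0,n1,m1,n1,m2]) :: r129

noncomputable def l136 : List Con := (false, [n0,n0,n0,n0,n0,n0,n0,n0,n0,n0,n0,n2,m1,n1,m2]) :: l135

noncomputable def r136 : List Con := (true, [n1,n0,n0,n0,n0,n0,n0,n0,n0,n0,n0,m2,n1,m1,n2]) :: l135

noncomputable def l137 : List Con := (false, [n0,n0,n0,n0,n0,n0,n0,n0,n0,n0,n0,n0,n1,m1,n2]) :: r135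

noncomputable def r137 : List Con := (true, [n1,n0,n0,n0,n0,n0,n0,n0,n0,n0,n0,n0,m1,n1,m2]) :: r135

noncomputable def l138 : List Con := (false, [n0,n0,n0,n0,n0,n0,n0,n0,n0,n0,n0,n1,m1,n1,m2]) :: l137

noncomputable def r138 : List Con := (true, [n1,n0,n0,n0,n0,n0,n0,n0,n0,n0,n0,m1,n1,m1,n2]) :: l137

noncomputable def l139 : List Con := (false, [n0,n0,n0,n0,n0,n0,n0,n0,n0,n0,n0,m1,n1,m1,n2]) :: r127

noncomputable def r139 : List Con := (true, [n1,n0,n0,n0,n0,n0,n0,n0,n0,n0,n0,n1,m1,n1,m2]) :: r127

noncomputable def l140 : List Con := (true, [n1,n0,m2,m2,n2,n0,n0,n0,n0,n1,n2]) :: r126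

noncomputable def r140 : List Con := (true, [n0,n0,n2,n2,m2,n0,n0,n0,n0,m1,m2]) :: r126

noncomputable def l141 : List Con := (true, [n1,n0,n2,n2,m2,n0,n0,n0,n0,m1,m2]) :: l140

noncomputable def r141 : List Con := (true, [n0,n0,m2,m2,n2,n0,n0,n0,n0,n1,n2]) :: l140

noncomputable def l142 : List Con := (true, [n1,n0,n1,n1,n2,n0,n0,n0,n0,n0,n5]) :: r141

noncomputable def r142 : List Con := (true, [n0,n0,m1,m1,m2,n0,n0,n0,n0,n0,m5]) :: r141

noncomputable def l143 : List Con := (true, [n1,n0,m1,m1,m2,n0,n0,n0,n0,n0,m5]) :: l142

noncomputable def r143 : List Con := (true, [n0,n0,n1,n1,n2,n0,n0,n0,n0,n0,n5]) :: l142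

noncomputable def l144 : List Con := (true, [n0,n0,m4,n0,n2,m1]) :: l143

noncomputable def r144 : List Con := (true, [n1,n0,n4,n0,m2,n1]) :: l143

noncomputable def l145 : List Con := (false, [n0,n0,n0,n0,n0,n0,n0,n0,n0,n0,n0,m1,n1,m1,n2]) :: r144

noncomputable def r145 : List Con := (true, [n1,n0,n0,n0,n0,n0,n0,n0,n0,n0,n0,n1,m1,n1,m2]) :: r144

noncomputable def l146 : List Con := (false, [n0,n0,n0,n0,n0,n0,n0,n0,n0,n0,n0,n2,m1,n1,m2]) :: l145

noncomputable def r146 : List Con := (true, [n1,n0,n0,n0,n0,n0,n0,n0,n0,n0,n0,m2,n1,m1,n2]) :: l145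

noncomputable def l147 : List Con := (false, [n0,n0,n0,n0,n0,n0,n0,n0,n0,n0,n0,m1,n1,m1,n2]) :: r143

noncomputable def r147 : List Con := (true, [n1,n0,n0,n0,n0,n0,n0,n0,n0,n0,n0,n1,m1,n1,m2]) :: r143

noncomputable def l148 : List Con := (false, [n0,n0,n0,n0,n0,n0,n0,n0,n0,n0,n0,n2,m1,n1,m2]) :: l147

noncomputable def r148 : List Con := (true, [n1,n0,n0,n0,n0,n0,n0,n0,n0,n0,n0,m2,n1,m1,n2]) :: l147

noncomputable def l149 : List Con := (false, [n0,n0,n0,n0,n0,n0,n0,n0,n0,n0,n0,n0,n1,m1,n2]) :: r147

noncomputable def r149 : List Con := (true, [n1,n0,n0,n0,n0,n0,n0,n0,n0,n0,n0,n0,m1,n1,m2]) :: r147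

noncomputable def l150 : List Con := (false, [n0,n0,n0,n0,n0,n0,n0,n0,n0,n0,n0,n1,m1,n1,m2]) :: l149

noncomputable def r150 : List Con := (true, [n1,n0,n0,n0,n0,n0,n0,n0,n0,n0,n0,m1,n1,m1,n2]) :: l149

noncomputable def l151 : List Con := (false, [n0,n0,n0,n0,n0,n0,n0,n0,n0,n0,n0,n1,m1,n1,m2]) :: r142

noncomputable def r151 : List Con := (true, [n1,n0,n0,n0,n0,n0,n0,n0,n0,n0,n0,m1,n1,m1,n2]) :: r142

noncomputable def l152 : List Con := (false, [n0,n0,n0,n0,n0,n0,n0,n0,n0,n0,n0,n0,n1,m1,n2]) :: l151

noncomputable def r152 : List Con := (true, [n1,n0,n0,n0,n0,n0,n0,n0,n0,n0,n0,n0,m1,n1,m2]) :: l151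

noncomputable def l153 : List Con := (false, [n0,n0,n0,n0,n0,n0,n0,n0,n0,n0,n0,m1,n1,m1,n2]) :: r151

noncomputable def r153 : List Con := (true, [n1,n0,n0,n0,n0,n0,n0,n0,n0,n0,n0,n1,m1,n1,m2]) :: r151

noncomputable def l154 : List Con := (false, [n0,n0,n0,n0,n0,n0,n0,n0,n0,n0,n0,n2,m1,n1,m2]) :: l153

noncomputable def r154 : List Con := (true, [n1,n0,n0,n0,n0,n0,n0,n0,n0,n0,n0,m2,n1,m1,n2]) :: l153

noncomputable def l155 : List Con := (false, [n0,n0,n0,n0,n0,n0,n0,n0,n0,n0,n0,m1,n1,m1,n2]) :: r140

noncomputable def r155 : List Con := (true, [n1,n0,n0,n0,n0,n0,n0,n0,n0,n0,n0,n1,m1,n1,m2]) :: r140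

noncomputable def l156 : List Con := (true, [n1,n0,n1,n1,n2,n0,n0,n0,n0,n0,n5]) :: r125

noncomputable def r156 : List Con := (true, [n0,n0,m1,m1,m2,n0,n0,n0,n0,n0,m5]) :: r125

noncomputable def l157 : List Con := (true, [n0,n0,m4,n0,n2,m1]) :: l156

noncomputable def r157 : List Con := (true, [n1,n0,n4,n0,m2,n1]) :: l156

noncomputable def l158 : List Con := (true, [n1,n0,m1,m1,m2,n0,n0,n0,n0,n0,m5]) :: l157

noncomputable def r158 : List Con := (true, [n0,n0,n1,n1,n2,n0,n0,n0,n0,n0,n5]) :: l157

noncomputable def l159 : List Con := (false, [n0,n0,n0,n0,n0,n0,n0,n0,n0,n0,n0,m1,n1,m1,n2]) :: r158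

noncomputable def r159 : List Con := (true, [n1,n0,n0,n0,n0,n0,n0,n0,n0,n0,n0,n1,m1,n1,m2]) :: r158

noncomputable def l160 : List Con := (false, [n0,n0,n0,n0,n0,n0,n0,n0,n0,n0,n0,n2,m1,n1,m2]) :: l159

noncomputable def r160 : List Con := (true, [n1,n0,n0,n0,n0,n0,n0,n0,n0,n0,n0,m2,n1,m1,n2]) :: l159

noncomputable def l161 : List Con := (false, [n0,n0,n0,n0,n0,n0,n0,n0,n0,n0,n0,n0,n1,m1,n2]) :: r159

noncomputable def r161 : List Con := (true, [n1,n0,n0,n0,n0,n0,n0,n0,n0,n0,n0,n0,m1,n1,m2]) :: r159

noncomputable def l162 : List Con := (true, [n1,n0,m1,m1,m2,n0,n0,n0,n0,n0,m5]) :: r157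

noncomputable def r162 : List Con := (true, [n0,n0,n1,n1,n2,n0,n0,n0,n0,n0,n5]) :: r157

noncomputable def l163 : List Con := (true, [n0,n0,n4,n0,m2,n1]) :: l162

noncomputable def r163 : List Con := (true, [n1,n0,m4,n0,n2,m1]) :: l162

noncomputable def l164 : List Con := (false, [n0,n0,n0,n0,n0,n0,n0,n0,n0,n0,n0,m1,n1,m1,n2]) :: r163

noncomputable def r164 : List Con := (true, [n1,n0,n0,n0,n0,n0,n0,n0,n0,n0,n0,n1,m1,n1,m2]) :: r163

noncomputable def l165 : List Con := (false, [n0,n0,n0,n0,n0,n0,n0,n0,n0,n0,n0,n2,m1,n1,m2]) :: l164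

noncomputable def r165 : List Con := (true, [n1,n0,n0,n0,n0,n0,n0,n0,n0,n0,n0,m2,n1,m1,n2]) :: l164

noncomputable def l166 : List Con := (false, [n0,n0,n0,n0,n0,n0,n0,n0,n0,n0,n0,m1,n1,m1,n2]) :: r162

noncomputable def r166 : List Con := (true, [n1,n0,n0,n0,n0,n0,n0,n0,n0,n0,n0,n1,m1,n1,m2]) :: r162

noncomputable def l167 : List Con := (false, [n0,n0,n0,n0,n0,n0,n0,n0,n0,n0,n0,n2,m1,n1,m2]) :: l166

noncomputable def r167 : List Con := (true, [n1,n0,n0,n0,n0,n0,n0,n0,n0,n0,n0,m2,n1,m1,n2]) :: l166

noncomputable def l168 : List Con := (false, [n0,n0,n0,n0,n0,n0,n0,n0,n0,n0,n0,n0,n1,m1,n2]) :: r166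

noncomputable def r168 : List Con := (true, [n1,n0,n0,n0,n0,n0,n0,n0,n0,n0,n0,n0,m1,n1,m2]) :: r166

noncomputable def l169 : List Con := (false, [n0,n0,n0,n0,n0,n0,n0,n0,n0,n0,n0,n1,m1,n1,m2]) :: l168

noncomputable def r169 : List Con := (true, [n1,n0,n0,n0,n0,n0,n0,n0,n0,n0,n0,m1,n1,m1,n2]) :: l168

noncomputable def l170 : List Con := (false, [n0,n0,n0,n0,n0,n0,n0,n0,n0,n0,n0,m1,n1,m1,n2]) :: r156

noncomputable def r170 : List Con := (true, [n1,n0,n0,n0,n0,n0,n0,n0,n0,n0,n0,n1,m1,n1,m2]) :: r156

noncomputable def l171 : List Con := (false, [n0,n0,n0,n0,n0,n0,n0,n0,n0,n0,n0,n2,m1,n1,m2]) :: l170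

noncomputable def r171 : List Con := (true, [n1,n0,n0,n0,n0,n0,n0,n0,n0,n0,n0,m2,n1,m1,n2]) :: l170

noncomputable def l172 : List Con := (false, [n0,n0,n0,n0,n0,n0,n0,n0,n0,n0,n0,n0,m1,n1,m2]) :: r170

noncomputable def r172 : List Con := (true, [n1,n0,n0,n0,n0,n0,n0,n0,n0,n0,n0,n0,n1,m1,n2]) :: r170

noncomputable def l173 : List Con := (true, [n0,n0,n2,n0,m1,n0,n1,n0,m1]) :: r80

noncomputable def r173 : List Con := (true, [n1,n0,m2,n0,n1,n0,m1,n0,n1]) :: r80

noncomputable def l174 : List Con := (true, [n1,n0,m1,m1,n1,n0,n0,m1,n0,n2,n1]) :: r173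

noncomputable def r174 : List Con := (true, [n0,n0,n1,n1,m1,n0,n0,n1,n0,m2,m1]) :: r173

noncomputable def l175 : List Con := (true, [n1,n0,n1,n1,m1,n0,n0,n1,n0,m2,m1]) :: l174

noncomputable def r175 : List Con := (true, [n0,n0,m1,m1,n1,n0,n0,m1,n0,n2,n1]) :: l174

noncomputable def l176 : List Con := (false, [n0,n0,n0,n0,n0,n0,n0,n0,n0,n0,n0,m1,n1,m1,n2]) :: r175

noncomputable def r176 : List Con := (true, [n1,n0,n0,n0,n0,n0,n0,n0,n0,n0,n0,n1,m1,n1,m2]) :: r175

noncomputable def l177 : List Con := (false, [n0,n0,n0,n0,n0,n0,n0,n0,n0,n0,n0,n2,m1,n1,m2]) :: l176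

noncomputable def r177 : List Con := (true, [n1,n0,n0,n0,n0,n0,n0,n0,n0,n0,n0,m2,n1,m1,n2]) :: l176

noncomputable def l178 : List Con := (false, [n0,n0,n0,n0,n0,n0,n0,n0,n0,n0,n0,n0,n1,m1,n2]) :: r176

noncomputable def r178 : List Con := (true, [n1,n0,n0,n0,n0,n0,n0,n0,n0,n0,n0,n0,m1,n1,m2]) :: r176

noncomputable def l179 : List Con := (true, [n1,n0,n1,n1,n0,n0,n0,m1,n0,n1,n1]) :: r174

noncomputable def r179 : List Con := (true, [n0,n0,m1,m1,n0,n0,n0,n1,n0,m1,m1]) :: r174

noncomputable def l180 : List Con := (true, [n1,n0,m1,m1,n0,n0,n0,n1,n0,m1,m1]) :: l179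

noncomputable def r180 : List Con := (true, [n0,n0,n1,n1,n0,n0,n0,m1,n0,n1,n1]) :: l179

noncomputable def l181 : List Con := (false, [n0,n0,n0,n0,n0,n0,n0,n0,n0,n0,n0,n1,m1,n1,m2]) :: r180

noncomputable def r181 : List Con := (true, [n1,n0,n0,n0,n0,n0,n0,n0,n0,n0,n0,m1,n1,m1,n2]) :: r180

noncomputable def l182 : List Con := (false, [n0,n0,n0,n0,n0,n0,n0,n0,n0,n0,n0,n0,n1,m1,n2]) :: l181

noncomputable def r182 : List Con := (true, [n1,n0,n0,n0,n0,n0,n0,n0,n0,n0,n0,n0,m1,n1,m2]) :: l181

noncomputable def l183 : List Con := (false, [n0,n0,n0,n0,n0,n0,n0,n0,n0,n0,n0,m1,n1,m1,n2]) :: r181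

noncomputable def r183 : List Con := (true, [n1,n0,n0,n0,n0,n0,n0,n0,n0,n0,n0,n1,m1,n1,m2]) :: r181

noncomputable def l184 : List Con := (false, [n0,n0,n0,n0,n0,n0,n0,n0,n0,n0,n0,n2,m1,n1,m2]) :: l183

noncomputable def r184 : List Con := (true, [n1,n0,n0,n0,n0,n0,n0,n0,n0,n0,n0,m2,n1,m1,n2]) :: l183

noncomputable def l185 : List Con := (false, [n0,n0,n0,n0,n0,n0,n0,n0,n0,n0,n0,m1,n1,m1,n2]) :: r179

noncomputable def r185 : List Con := (true, [n1,n0,n0,n0,n0,n0,n0,n0,n0,n0,n0,n1,m1,n1,m2]) :: r179

noncomputable def l186 : List Con := (true, [n1,n0,n2,n2,m2,n0,n0,n0,n0,m1,m2]) :: l185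

noncomputable def r186 : List Con := (true, [n0,n0,m2,m2,n2,n0,n0,n0,n0,n1,n2]) :: l185

noncomputable def l187 : List Con := (false, [n0,n0,n0,n0,n0,n0,n0,n0,n0,n0,n0,n2,m1,n1,m2]) :: r186

noncomputable def r187 : List Con := (true, [n1,n0,n0,n0,n0,n0,n0,n0,n0,n0,n0,m2,n1,m1,n2]) :: r186

noncomputable def l188 : List Con := (true, [n1,n0,n2,n2,m2,n0,n0,n0,n0,m1,m2]) :: r0

noncomputable def r188 : List Con := (true, [n0,n0,m2,m2,n2,n0,n0,n0,n0,n1,n2]) :: r0

noncomputable def l189 : List Con := (true, [n1,n0,m2,m2,n2,n0,n0,n0,n0,n1,n2]) :: l188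

noncomputable def r189 : List Con := (true, [n0,n0,n2,n2,m2,n0,n0,n0,n0,m1,m2]) :: l188

noncomputable def l190 : List Con := (true, [n1,n0,n1,n1,n2,n0,n0,n0,n0,n0,n5]) :: r189

noncomputable def r190 : List Con := (true, [n0,n0,m1,m1,m2,n0,n0,n0,n0,n0,m5]) :: r189

noncomputable def l191 : List Con := (true, [n1,n0,m1,m1,m2,n0,n0,n0,n0,n0,m5]) :: l190

noncomputable def r191 : List Con := (true, [n0,n0,n1,n1,n2,n0,n0,n0,n0,n0,n5]) :: l190

noncomputable def l192 : List Con := (true, [n0,n0,m4,n0,n2,m1]) :: l191

noncomputable def r192 : List Con := (true, [n1,n0,n4,n0,m2,n1]) :: l191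

noncomputable def l193 : List Con := (true, [n0,n0,n2,n0,m1,n0,n1,n0,m1]) :: r192

noncomputable def r193 : List Con := (true, [n1,n0,m2,n0,n1,n0,m1,n0,n1]) :: r192

noncomputable def l194 : List Con := (true, [n0,n0,n4,n0,m2,n1]) :: r193

noncomputable def r194 : List Con := (true, [n1,n0,m4,n0,n2,m1]) :: r193

noncomputable def l195 : List Con := (true, [n1,n0,m3,m3,n2,n0,n0,n0,n0,n1,n1]) :: r194

noncomputable def r195 : List Con := (true, [n0,n0,n3,n3,m2,n0,n0,n0,n0,m1,m1]) :: r194

noncomputable def l196 : List Con := (true, [n1,n0,n3,n3,m2,n0,n0,n0,n0,m1,m1]) :: l195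

noncomputable def r196 : List Con := (true, [n0,n0,m3,m3,n2,n0,n0,n0,n0,n1,n1]) :: l195

noncomputable def l197 : List Con := (false, [n0,n0,n0,n0,n0,n0,n0,n0,n0,n0,n0,m1,n1,m1,n2]) :: r196

noncomputable def r197 : List Con := (true, [n1,n0,n0,n0,n0,n0,n0,n0,n0,n0,n0,n1,m1,n1,m2]) :: r196

noncomputable def l198 : List Con := (false, [n0,n0,n0,n0,n0,n0,n0,n0,n0,n0,n0,m1,n1,m1,n2]) :: r195

noncomputable def r198 : List Con := (true, [n1,n0,n0,n0,n0,n0,n0,n0,n0,n0,n0,n1,m1,n1,m2]) :: r195

noncomputable def l199 : List Con := (false, [n0,n0,n0,n0,n0,n0,n0,n0,n0,n0,n0,n0,n1,m1,n2]) :: r198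

noncomputable def r199 : List Con := (true, [n1,n0,n0,n0,n0,n0,n0,n0,n0,n0,n0,n0,m1,n1,m2]) :: r198

noncomputable def l200 : List Con := (false, [n0,n0,n0,n0,n0,n0,n0,n0,n0,n0,n0,n1,m1,n1,m2]) :: l199

noncomputable def r200 : List Con := (true, [n1,n0,n0,n0,n0,n0,n0,n0,n0,n0,n0,m1,n1,m1,n2]) :: l199

noncomputable def l201 : List Con := (false, [n0,n0,n0,n0,n0,n0,n0,n0,n0,n0,n0,n0,m1,n1,m2]) :: r199

noncomputable def r201 : List Con := (true, [n1,n0,n0,n0,n0,n0,n0,n0,n0,n0,n0,n0,n1,m1,n2]) :: r199

noncomputable def l202 : List Con := (true, [n0,n0,n2,n0,m1,n0,n1,n0,m1]) :: r191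

noncomputable def r202 : List Con := (true, [n1,n0,m2,n0,n1,n0,m1,n0,n1]) :: r191

noncomputable def l203 : List Con := (true, [n1,n0,n3,n3,n2,n0,n0,n0,n0,n0,n7]) :: r202

noncomputable def r203 : List Con := (true, [n0,n0,m3,m3,m2,n0,n0,n0,n0,n0,m7]) :: r202

noncomputable def l204 : List Con := (true, [n1,n0,m3,m3,m2,n0,n0,n0,n0,n0,m7]) :: l203

noncomputable def r204 : List Con := (true, [n0,n0,n3,n3,n2,n0,n0,n0,n0,n0,n7]) :: l203

noncomputable def l205 : List Con := (false, [n0,n0,n0,n0,n0,n0,n0,n0,n0,n0,n0,m1,n1,m1,n2]) :: r204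

noncomputable def r205 : List Con := (true, [n1,n0,n0,n0,n0,n0,n0,n0,n0,n0,n0,n1,m1,n1,m2]) :: r204

noncomputable def l206 : List Con := (true, [n1,n0,n3,n3,m2,n0,n0,n0,n0,m1,m1]) :: r203

noncomputable def r206 : List Con := (true, [n0,n0,m3,m3,n2,n0,n0,n0,n0,n1,n1]) :: r203

noncomputable def l207 : List Con := (true, [n1,n0,m3,m3,n2,n0,n0,n0,n0,n1,n1]) :: l206

noncomputable def r207 : List Con := (true, [n0,n0,n3,n3,m2,n0,n0,n0,n0,m1,m1]) :: l206

noncomputable def l208 : List Con := (false, [n0,n0,n0,n0,n0,n0,n0,n0,n0,n0,n0,m1,n1,m1,n2]) :: r207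

noncomputable def r208 : List Con := (true, [n1,n0,n0,n0,n0,n0,n0,n0,n0,n0,n0,n1,m1,n1,m2]) :: r207

noncomputable def l209 : List Con := (false, [n0,n0,n0,n0,n0,n0,n0,n0,n0,n0,n0,n0,n1,m1,n2]) :: r208

noncomputable def r209 : List Con := (true, [n1,n0,n0,n0,n0,n0,n0,n0,n0,n0,n0,n0,m1,n1,m2]) :: r208

noncomputable def l210 : List Con := (false, [n0,n0,n0,n0,n0,n0,n0,n0,n0,n0,n0,n1,m1,n1,m2]) :: l209

noncomputable def r210 : List Con := (true, [n1,n0,n0,n0,n0,n0,n0,n0,n0,n0,n0,m1,n1,m1,n2]) :: l209

noncomputable def l211 : List Con := (true, [n1,n0,m1,m1,n0,n0,n0,n1,n0,m1,m1]) :: r206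

noncomputable def r211 : List Con := (true, [n0,n0,n1,n1,n0,n0,n0,m1,n0,n1,n1]) :: r206

noncomputable def l212 : List Con := (true, [n1,n0,n1,n1,n0,n0,n0,m1,n0,n1,n1]) :: l211

noncomputable def r212 : List Con := (true, [n0,n0,m1,m1,n0,n0,n0,n1,n0,m1,m1]) :: l211

noncomputable def l213 : List Con := (false, [n0,n0,n0,n0,n0,n0,n0,n0,n0,n0,n0,m1,n1,m1,n2]) :: r212

noncomputable def r213 : List Con := (true, [n1,n0,n0,n0,n0,n0,n0,n0,n0,n0,n0,n1,m1,n1,m2]) :: r212

noncomputable def l214 : List Con := (false, [n0,n0,n0,n0,n0,n0,n0,n0,n0,n0,n0,n0,n1,m1,n2]) :: r213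

noncomputable def r214 : List Con := (true, [n1,n0,n0,n0,n0,n0,n0,n0,n0,n0,n0,n0,m1,n1,m2]) :: r213

noncomputable def l215 : List Con := (false, [n0,n0,n0,n0,n0,n0,n0,n0,n0,n0,n0,n1,m1,n1,m2]) :: l214

noncomputable def r215 : List Con := (true, [n1,n0,n0,n0,n0,n0,n0,n0,n0,n0,n0,m1,n1,m1,n2]) :: l214

noncomputable def l216 : List Con := (false, [n0,n0,n0,n0,n0,n0,n0,n0,n0,n0,n0,n1,m1,n1,m2]) :: r211

noncomputable def r216 : List Con := (true, [n1,n0,n0,n0,n0,n0,n0,n0,n0,n0,n0,m1,n1,m1,n2]) :: r211

noncomputable def l217 : List Con := (false, [n0,n0,n0,n0,n0,n0,n0,n0,n0,n0,n0,n0,n1,m1,n2]) :: l216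

noncomputable def r217 : List Con := (true, [n1,n0,n0,n0,n0,n0,n0,n0,n0,n0,n0,n0,m1,n1,m2]) :: l216

noncomputable def l218 : List Con := (true, [n0,n0,n2,n0,m1,n0,n1,n0,m1]) :: r190

noncomputable def r218 : List Con := (true, [n1,n0,m2,n0,n1,n0,m1,n0,n1]) :: r190

noncomputable def l219 : List Con := (true, [n1,n0,m3,m3,n1,n0,n0,n1,n0,n0,m1]) :: r218

noncomputable def r219 : List Con := (true, [n0,n0,n3,n3,m1,n0,n0,m1,n0,n0,n1]) :: r218

noncomputable def l220 : List Con := (true, [n1,n0,n3,n3,m1,n0,n0,m1,n0,n0,n1]) :: l219

noncomputable def r220 : List Con := (true, [n0,n0,m3,m3,n1,n0,n0,n1,n0,n0,m1]) :: l219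

noncomputable def l221 : List Con := (false, [n0,n0,n0,n0,n0,n0,n0,n0,n0,n0,n0,m1,n1,m1,n2]) :: r220

noncomputable def r221 : List Con := (true, [n1,n0,n0,n0,n0,n0,n0,n0,n0,n0,n0,n1,m1,n1,m2]) :: r220

noncomputable def l222 : List Con := (true, [n1,n0,n1,n1,n3,n0,n0,n0,n0,n0,n7]) :: r219

noncomputable def r222 : List Con := (true, [n0,n0,m1,m1,m3,n0,n0,n0,n0,n0,m7]) :: r219

noncomputable def l223 : List Con := (true, [n1,n0,m1,m1,m3,n0,n0,n0,n0,n0,m7]) :: l222

noncomputable def r223 : List Con := (true, [n0,n0,n1,n1,n3,n0,n0,n0,n0,n0,n7]) :: l222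

noncomputable def l224 : List Con := (true, [n0,n0,n6,n0,m3,n1]) :: l223

noncomputable def r224 : List Con := (true, [n1,n0,m6,n0,n3,m1]) :: l223

noncomputable def l225 : List Con := (true, [n0,n0,m6,n0,n3,m1]) :: r224

noncomputable def r225 : List Con := (true, [n1,n0,n6,n0,m3,n1]) :: r224

noncomputable def l226 : List Con := (true, [n1,n0,m3,m3,n2,n0,n0,n0,n0,n1,n1]) :: r225

noncomputable def r226 : List Con := (true, [n0,n0,n3,n3,m2,n0,n0,n0,n0,m1,m1]) :: r225

noncomputable def l227 : List Con := (true, [n1,n0,n3,n3,m2,n0,n0,n0,n0,m1,m1]) :: l226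

noncomputable def r227 : List Con := (true, [n0,n0,m3,m3,n2,n0,n0,n0,n0,n1,n1]) :: l226

noncomputable def l228 : List Con := (false, [n0,n0,n0,n0,n0,n0,n0,n0,n0,n0,n0,m1,n1,m1,n2]) :: r227

noncomputable def r228 : List Con := (true, [n1,n0,n0,n0,n0,n0,n0,n0,n0,n0,n0,n1,m1,n1,m2]) :: r227

noncomputable def l229 : List Con := (false, [n0,n0,n0,n0,n0,n0,n0,n0,n0,n0,n0,n0,n1,m1,n2]) :: r228

noncomputable def r229 : List Con := (true, [n1,n0,n0,n0,n0,n0,n0,n0,n0,n0,n0,n0,m1,n1,m2]) :: r228

noncomputable def l230 : List Con := (false, [n0,n0,n0,n0,n0,n0,n0,n0,n0,n0,n0,n1,m1,n1,m2]) :: l229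

noncomputable def r230 : List Con := (true, [n1,n0,n0,n0,n0,n0,n0,n0,n0,n0,n0,m1,n1,m1,n2]) :: l229

noncomputable def l231 : List Con := (false, [n0,n0,n0,n0,n0,n0,n0,n0,n0,n0,n0,m1,n1,m1,n2]) :: r226

noncomputable def r231 : List Con := (true, [n1,n0,n0,n0,n0,n0,n0,n0,n0,n0,n0,n1,m1,n1,m2]) :: r226

noncomputable def l232 : List Con := (true, [n1,n0,m3,m3,n2,n0,n0,n0,n0,n1,n1]) :: r223

noncomputable def r232 : List Con := (true, [n0,n0,n3,n3,m2,n0,n0,n0,n0,m1,m1]) :: r223

noncomputable def l233 : List Con := (true, [n1,n0,n3,n3,m2,n0,n0,n0,n0,m1,m1]) :: l232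

noncomputable def r233 : List Con := (true, [n0,n0,m3,m3,n2,n0,n0,n0,n0,n1,n1]) :: l232

noncomputable def l234 : List Con := (false, [n0,n0,n0,n0,n0,n0,n0,n0,n0,n0,n0,m1,n1,m1,n2]) :: r233

noncomputable def r234 : List Con := (true, [n1,n0,n0,n0,n0,n0,n0,n0,n0,n0,n0,n1,m1,n1,m2]) :: r233

noncomputable def l235 : List Con := (false, [n0,n0,n0,n0,n0,n0,n0,n0,n0,n0,n0,n0,n1,m1,n2]) :: r234

noncomputable def r235 : List Con := (true, [n1,n0,n0,n0,n0,n0,n0,n0,n0,n0,n0,n0,m1,n1,m2]) :: r234

noncomputable def l236 : List Con := (false, [n0,n0,n0,n0,n0,n0,n0,n0,n0,n0,n0,n1,m1,n1,m2]) :: l235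

noncomputable def r236 : List Con := (true, [n1,n0,n0,n0,n0,n0,n0,n0,n0,n0,n0,m1,n1,m1,n2]) :: l235

noncomputable def l237 : List Con := (false, [n0,n0,n0,n0,n0,n0,n0,n0,n0,n0,n0,m1,n1,m1,n2]) :: r232

noncomputable def r237 : List Con := (true, [n1,n0,n0,n0,n0,n0,n0,n0,n0,n0,n0,n1,m1,n1,m2]) :: r232

noncomputable def l238 : List Con := (true, [n1,n0,m3,m3,n2,n0,n0,n0,n0,n1,n1]) :: r222

noncomputable def r238 : List Con := (true, [n0,n0,n3,n3,m2,n0,n0,n0,n0,m1,m1]) :: r222

noncomputable def l239 : List Con := (true, [n1,n0,n3,n3,m2,n0,n0,n0,n0,m1,m1]) :: l238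

noncomputable def r239 : List Con := (true, [n0,n0,m3,m3,n2,n0,n0,n0,n0,n1,n1]) :: l238

noncomputable def l240 : List Con := (false, [n0,n0,n0,n0,n0,n0,n0,n0,n0,n0,n0,m1,n1,m1,n2]) :: r239

noncomputable def r240 : List Con := (true, [n1,n0,n0,n0,n0,n0,n0,n0,n0,n0,n0,n1,m1,n1,m2]) :: r239

noncomputable def l241 : List Con := (false, [n0,n0,n0,n0,n0,n0,n0,n0,n0,n0,n0,n0,n1,m1,n2]) :: r240

noncomputable def r241 : List Con := (true, [n1,n0,n0,n0,n0,n0,n0,n0,n0,n0,n0,n0,m1,n1,m2]) :: r240

noncomputable def l242 : List Con := (false, [n0,n0,n0,n0,n0,n0,n0,n0,n0,n0,n0,n1,m1,n1,m2]) :: l241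

noncomputable def r242 : List Con := (true, [n1,n0,n0,n0,n0,n0,n0,n0,n0,n0,n0,m1,n1,m1,n2]) :: l241

noncomputable def l243 : List Con := (false, [n0,n0,n0,n0,n0,n0,n0,n0,n0,n0,n0,n1,m1,n1,m2]) :: r238

noncomputable def r243 : List Con := (true, [n1,n0,n0,n0,n0,n0,n0,n0,n0,n0,n0,m1,n1,m1,n2]) :: r238

noncomputable def l244 : List Con := (false, [n0,n0,n0,n0,n0,n0,n0,n0,n0,n0,n0,n0,n1,m1,n2]) :: l243

noncomputable def r244 : List Con := (true, [n1,n0,n0,n0,n0,n0,n0,n0,n0,n0,n0,n0,m1,n1,m2]) :: l243

noncomputable def l245 : List Con := (true, [n1,n0,n0,n0,n1,n0,n0,m1,n0,n2,n2]) :: r188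

noncomputable def r245 : List Con := (true, [n0,n0,n0,n0,m1,n0,n0,n1,n0,m2,m2]) :: r188

noncomputable def l246 : List Con := (true, [n1,n0,n0,n0,m1,n0,n0,n1,n0,m2,m2]) :: l245

noncomputable def r246 : List Con := (true, [n0,n0,n0,n0,n1,n0,n0,m1,n0,n2,n2]) :: l245

noncomputable def l247 : List Con := (true, [n0,n0,n2,n0,m1,n0,n1,n0,m1]) :: r246

noncomputable def r247 : List Con := (true, [n1,n0,m2,n0,n1,n0,m1,n0,n1]) :: r246

noncomputable def l248 : List Con := (false, [n0,n0,n0,n0,n0,n0,n0,n0,n0,n0,n0,m1,n1,m1,n2]) :: r247

noncomputable def r248 : List Con := (true, [n1,n0,n0,n0,n0,n0,n0,n0,n0,n0,n0,n1,m1,n1,m2]) :: r247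

noncomputable def l249 : List Con := (false, [n0,n0,n0,n0,n0,n0,n0,n0,n0,n0,n0,n2,m1,n1,m2]) :: l248

noncomputable def r249 : List Con := (true, [n1,n0,n0,n0,n0,n0,n0,n0,n0,n0,n0,m2,n1,m1,n2]) :: l248

noncomputable def l250 : List Con := (false, [n0,n0,n0,n0,n0,n0,n0,n0,n0,n0,n0,n0,n1,m1,n2]) :: r248

noncomputable def r250 : List Con := (true, [n1,n0,n0,n0,n0,n0,n0,n0,n0,n0,n0,n0,m1,n1,m2]) :: r248

noncomputable def l251 : List Con := (false, [n0,n0,n0,n0,n0,n0,n0,n0,n0,n0,n0,n1,m1,n1,m2]) :: l250

noncomputable def r251 : List Con := (true, [n1,n0,n0,n0,n0,n0,n0,n0,n0,n0,n0,m1,n1,m1,n2]) :: l250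

noncomputable def l252 : List Con := (true, [n1,n0,n1,n1,m1,n0,n0,n1,n0,m2,m1]) :: r245

noncomputable def r252 : List Con := (true, [n0,n0,m1,m1,n1,n0,n0,m1,n0,n2,n1]) :: r245

noncomputable def l253 : List Con := (true, [n1,n0,m1,m1,n1,n0,n0,m1,n0,n2,n1]) :: l252

noncomputable def r253 : List Con := (true, [n0,n0,n1,n1,m1,n0,n0,n1,n0,m2,m1]) :: l252

noncomputable def l254 : List Con := (true, [n0,n0,n2,n0,m1,n0,n1,n0,m1]) :: r253

noncomputable def r254 : List Con := (true, [n1,n0,m2,n0,n1,n0,m1,n0,n1]) :: r253

noncomputable def l255 : List Con := (true, [n1,n0,m1,m1,n0,n0,n0,n1,n0,m1,m1]) :: r254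

noncomputable def r255 : List Con := (true, [n0,n0,n1,n1,n0,n0,n0,m1,n0,n1,n1]) :: r254

noncomputable def l256 : List Con := (true, [n1,n0,n1,n1,n0,n0,n0,m1,n0,n1,n1]) :: l255

noncomputable def r256 : List Con := (true, [n0,n0,m1,m1,n0,n0,n0,n1,n0,m1,m1]) :: l255

noncomputable def l257 : List Con := (true, [n1,n0,m3,m3,n1,n0,n0,n1,n0,n0,m1]) :: r256

noncomputable def r257 : List Con := (true, [n0,n0,n3,n3,m1,n0,n0,m1,n0,n0,n1]) :: r256

noncomputable def l258 : List Con := (true, [n1,n0,n3,n3,m1,n0,n0,m1,n0,n0,n1]) :: l257

noncomputable def r258 : List Con := (true, [n0,n0,m3,m3,n1,n0,n0,n1,n0,n0,m1]) :: l257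

noncomputable def l259 : List Con := (true, [n0,n0,m4,n0,n2,m1]) :: r258

noncomputable def r259 : List Con := (true, [n1,n0,n4,n0,m2,n1]) :: r258

noncomputable def l260 : List Con := (true, [n1,n0,n1,n1,n2,n0,n0,n0,n0,n0,n5]) :: l259

noncomputable def r260 : List Con := (true, [n0,n0,m1,m1,m2,n0,n0,n0,n0,n0,m5]) :: l259

noncomputable def l261 : List Con := (true, [n1,n0,m1,m1,m2,n0,n0,n0,n0,n0,m5]) :: l260

noncomputable def r261 : List Con := (true, [n0,n0,n1,n1,n2,n0,n0,n0,n0,n0,n5]) :: l260

noncomputable def l262 : List Con := (false, [n0,n0,n0,n0,n0,n0,n0,n0,n0,n0,n0,m1,n1,m1,n2]) :: r261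

noncomputable def r262 : List Con := (true, [n1,n0,n0,n0,n0,n0,n0,n0,n0,n0,n0,n1,m1,n1,m2]) :: r261

noncomputable def l263 : List Con := (false, [n0,n0,n0,n0,n0,n0,n0,n0,n0,n0,n0,n2,m1,n1,m2]) :: l262

noncomputable def r263 : List Con := (true, [n1,n0,n0,n0,n0,n0,n0,n0,n0,n0,n0,m2,n1,m1,n2]) :: l262

noncomputable def l264 : List Con := (false, [n0,n0,n0,n0,n0,n0,n0,n0,n0,n0,n0,n0,n1,m1,n2]) :: r262

noncomputable def r264 : List Con := (true, [n1,n0,n0,n0,n0,n0,n0,n0,n0,n0,n0,n0,m1,n1,m2]) :: r262

noncomputable def l265 : List Con := (false, [n0,n0,n0,n0,n0,n0,n0,n0,n0,n0,n0,n1,m1,n1,m2]) :: l264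

noncomputable def r265 : List Con := (true, [n1,n0,n0,n0,n0,n0,n0,n0,n0,n0,n0,m1,n1,m1,n2]) :: l264

noncomputable def l266 : List Con := (false, [n0,n0,n0,n0,n0,n0,n0,n0,n0,n0,n0,m1,n1,m1,n2]) :: r260

noncomputable def r266 : List Con := (true, [n1,n0,n0,n0,n0,n0,n0,n0,n0,n0,n0,n1,m1,n1,m2]) :: r260

noncomputable def l267 : List Con := (false, [n0,n0,n0,n0,n0,n0,n0,n0,n0,n0,n0,n2,m1,n1,m2]) :: l266

noncomputable def r267 : List Con := (true, [n1,n0,n0,n0,n0,n0,n0,n0,n0,n0,n0,m2,n1,m1,n2]) :: l266

noncomputable def l268 : List Con := (false, [n0,n0,n0,n0,n0,n0,n0,n0,n0,n0,n0,n0,m1,n1,m2]) :: r266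

noncomputable def r268 : List Con := (true, [n1,n0,n0,n0,n0,n0,n0,n0,n0,n0,n0,n0,n1,m1,n2]) :: r266

noncomputable def l269 : List Con := (false, [n0,n0,n0,n0,n0,n0,n0,n0,n0,n0,n0,n1,m1,n1,m2]) :: r268

noncomputable def r269 : List Con := (true, [n1,n0,n0,n0,n0,n0,n0,n0,n0,n0,n0,m1,n1,m1,n2]) :: r268

noncomputable def l270 : List Con := (false, [n0,n0,n0,n0,n0,n0,n0,n0,n0,n0,n0,n0,n1,m1,n2]) :: l269

noncomputable def r270 : List Con := (true, [n1,n0,n0,n0,n0,n0,n0,n0,n0,n0,n0,n0,m1,n1,m2]) :: l269

noncomputable def l271 : List Con := (true, [n1,n0,n1,n1,n2,n0,n0,n0,n0,n0,n5]) :: r259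

noncomputable def r271 : List Con := (true, [n0,n0,m1,m1,m2,n0,n0,n0,n0,n0,m5]) :: r259

noncomputable def l272 : List Con := (true, [n0,n0,n4,n0,m2,n1]) :: l271

noncomputable def r272 : List Con := (true, [n1,n0,m4,n0,n2,m1]) :: l271

noncomputable def l273 : List Con := (true, [n1,n0,m1,m1,m2,n0,n0,n0,n0,n0,m5]) :: l272

noncomputable def r273 : List Con := (true, [n0,n0,n1,n1,n2,n0,n0,n0,n0,n0,n5]) :: l272

noncomputable def l274 : List Con := (false, [n0,n0,n0,n0,n0,n0,n0,n0,n0,n0,n0,m1,n1,m1,n2]) :: r273

noncomputable def r274 : List Con := (true, [n1,n0,n0,n0,n0,n0,n0,n0,n0,n0,n0,n1,m1,n1,m2]) :: r273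

noncomputable def l275 : List Con := (false, [n0,n0,n0,n0,n0,n0,n0,n0,n0,n0,n0,n2,m1,n1,m2]) :: l274

noncomputable def r275 : List Con := (true, [n1,n0,n0,n0,n0,n0,n0,n0,n0,n0,n0,m2,n1,m1,n2]) :: l274

noncomputable def l276 : List Con := (false, [n0,n0,n0,n0,n0,n0,n0,n0,n0,n0,n0,n0,n1,m1,n2]) :: r274

noncomputable def r276 : List Con := (true, [n1,n0,n0,n0,n0,n0,n0,n0,n0,n0,n0,n0,m1,n1,m2]) :: r274

noncomputable def l277 : List Con := (false, [n0,n0,n0,n0,n0,n0,n0,n0,n0,n0,n0,n1,m1,n1,m2]) :: l276

noncomputable def r277 : List Con := (true, [n1,n0,n0,n0,n0,n0,n0,n0,n0,n0,n0,m1,n1,m1,n2]) :: l276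

noncomputable def l278 : List Con := (false, [n0,n0,n0,n0,n0,n0,n0,n0,n0,n0,n0,m1,n1,m1,n2]) :: r272

noncomputable def r278 : List Con := (true, [n1,n0,n0,n0,n0,n0,n0,n0,n0,n0,n0,n1,m1,n1,m2]) :: r272

noncomputable def l279 : List Con := (false, [n0,n0,n0,n0,n0,n0,n0,n0,n0,n0,n0,n2,m1,n1,m2]) :: l278

noncomputable def r279 : List Con := (true, [n1,n0,n0,n0,n0,n0,n0,n0,n0,n0,n0,m2,n1,m1,n2]) :: l278

noncomputable def l280 : List Con := (false, [n0,n0,n0,n0,n0,n0,n0,n0,n0,n0,n0,n1,m1,n1,m2]) :: r271

noncomputable def r280 : List Con := (true, [n1,n0,n0,n0,n0,n0,n0,n0,n0,n0,n0,m1,n1,m1,n2]) :: r271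

noncomputable def l281 : List Con := (false, [n0,n0,n0,n0,n0,n0,n0,n0,n0,n0,n0,n0,n1,m1,n2]) :: l280

noncomputable def r281 : List Con := (true, [n1,n0,n0,n0,n0,n0,n0,n0,n0,n0,n0,n0,m1,n1,m2]) :: l280

noncomputable def l282 : List Con := (false, [n0,n0,n0,n0,n0,n0,n0,n0,n0,n0,n0,n1,m1,n1,m2]) :: r257

noncomputable def r282 : List Con := (true, [n1,n0,n0,n0,n0,n0,n0,n0,n0,n0,n0,m1,n1,m1,n2]) :: r257

noncomputable def l283 : List Con := (false, [n0,n0,n0,n0,n0,n0,n0,n0,n0,n0,n0,n0,n1,m1,n2]) :: l282

noncomputable def r283 : List Con := (true, [n1,n0,n0,n0,n0,n0,n0,n0,n0,n0,n0,n0,m1,n1,m2]) :: l282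

noncomputable def l284 : List Con := (true, [n1,n0,m3,m3,m2,n0,n0,n0,n0,n0,m7]) :: r255

noncomputable def r284 : List Con := (true, [n0,n0,n3,n3,n2,n0,n0,n0,n0,n0,n7]) :: r255

noncomputable def l285 : List Con := (true, [n1,n0,n3,n3,n2,n0,n0,n0,n0,n0,n7]) :: l284

noncomputable def r285 : List Con := (true, [n0,n0,m3,m3,m2,n0,n0,n0,n0,n0,m7]) :: l284

noncomputable def l286 : List Con := (false, [n0,n0,n0,n0,n0,n0,n0,n0,n0,n0,n0,m1,n1,m1,n2]) :: r285

noncomputable def r286 : List Con := (true, [n1,n0,n0,n0,n0,n0,n0,n0,n0,n0,n0,n1,m1,n1,m2]) :: r285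

noncomputable def l287 : List Con := (false, [n0,n0,n0,n0,n0,n0,n0,n0,n0,n0,n0,n2,m1,n1,m2]) :: l286

noncomputable def r287 : List Con := (true, [n1,n0,n0,n0,n0,n0,n0,n0,n0,n0,n0,m2,n1,m1,n2]) :: l286

noncomputable def l288 : List Con := (false, [n0,n0,n0,n0,n0,n0,n0,n0,n0,n0,n0,n1,m1,n1,m2]) :: r284

noncomputable def r288 : List Con := (true, [n1,n0,n0,n0,n0,n0,n0,n0,n0,n0,n0,m1,n1,m1,n2]) :: r284

noncomputable def l289 : List Con := (false, [n0,n0,n0,n0,n0,n0,n0,n0,n0,n0,n0,n0,n1,m1,n2]) :: l288

noncomputable def r289 : List Con := (true, [n1,n0,n0,n0,n0,n0,n0,n0,n0,n0,n0,n0,m1,n1,m2]) :: l288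

noncomputable def l290 : List Con := (true, [n0,n0,n2,n0,m1,n0,n1,n0,m1]) :: r252

noncomputable def r290 : List Con := (true, [n1,n0,m2,n0,n1,n0,m1,n0,n1]) :: r252

noncomputable def l291 : List Con := (true, [n1,n0,n3,n3,n1,n0,n0,n0,n0,n0,n5]) :: r290

noncomputable def r291 : List Con := (true, [n0,n0,m3,m3,m1,n0,n0,n0,n0,n0,m5]) :: r290

noncomputable def l292 : List Con := (true, [n1,n0,m3,m3,m1,n0,n0,n0,n0,n0,m5]) :: l291

noncomputable def r292 : List Con := (true, [n0,n0,n3,n3,n1,n0,n0,n0,n0,n0,n5]) :: l291

noncomputable def l293 : List Con := (false, [n0,n0,n0,n0,n0,n0,n0,n0,n0,n0,n0,n1,m1,n1,m2]) :: r292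

noncomputable def r293 : List Con := (true, [n1,n0,n0,n0,n0,n0,n0,n0,n0,n0,n0,m1,n1,m1,n2]) :: r292

noncomputable def l294 : List Con := (false, [n0,n0,n0,n0,n0,n0,n0,n0,n0,n0,n0,n0,n1,m1,n2]) :: l293

noncomputable def r294 : List Con := (true, [n1,n0,n0,n0,n0,n0,n0,n0,n0,n0,n0,n0,m1,n1,m2]) :: l293

noncomputable def l295 : List Con := (false, [n0,n0,n0,n0,n0,n0,n0,n0,n0,n0,n0,n1,m1,n1,m2]) :: r291

noncomputable def r295 : List Con := (true, [n1,n0,n0,n0,n0,n0,n0,n0,n0,n0,n0,m1,n1,m1,n2]) :: r291

noncomputable def l296 : List Con := (false, [n0,n0,n0,n0,n0,n0,n0,n0,n0,n0,n0,n0,n1,m1,n2]) :: l295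

noncomputable def r296 : List Con := (true, [n1,n0,n0,n0,n0,n0,n0,n0,n0,n0,n0,n0,m1,n1,m2]) :: l295

noncomputable def t0 : Tre :=
  (.N [0,-3,0,1,-1] (-1) ⟨0,[(0,0)]⟩ ⟨0,[(1,0)]⟩ (.x 0 ⟨59,[(13,18),(5,9),(5,18),(6,35),(0,19),(6,
  43),(1,11),(3,23)]⟩ ⟨0,[(2,0)]⟩))

theorem ok0 : chk K t0 l2 = true := by decide +kernel

noncomputable def t1 : Tre :=
  (.N [0,0,1,-1,2] (-1) ⟨0,[(4,0)]⟩ ⟨0,[(10,0)]⟩ (.x 1 ⟨0,[(0,0)]⟩ ⟨19,[(14,8),(5,0),(0,1),(4,8),(0,
  22),(4,11),(0,3),(0,3)]⟩))

theorem ok1 : chk K t1 l3 = true := by decide +kernel

noncomputable def t2 : Tre :=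
  (.N [0,-3,0,1,1] (-2) ⟨0,[(0,0)]⟩ ⟨0,[(1,0)]⟩ (.x 1 ⟨11,[(16,4),(5,1),(5,4),(6,11),(0,3),(6,3),(1,
  11)]⟩ ⟨0,[(27,0),(1,0)]⟩))

theorem ok2 : chk K t2 l5 = true := by decide +kernel

noncomputable def t3 : Tre :=
  (.N [0,1,0,0,7] (-3) ⟨0,[(0,0)]⟩ ⟨0,[(1,0)]⟩ (.x 3 ⟨0,[(2,0)]⟩ ⟨83,[(0,9),(18,34),(3,4),(1,13),(6,
  251),(6,27),(6,27)]⟩))

theorem ok3 : chk K t3 l8 = true := by decide +kernel

noncomputable def t4 : Tre :=
  (.N [0,0,1,-1,2] (-1) ⟨0,[(10,0)]⟩ ⟨0,[(16,0)]⟩ (.i (-1) ⟨0,[(0,0)]⟩ ⟨2,[(5,0),(0,2),(0,0),(4,4),
  (9,1),(0,2),(18,2),(5,0),(1,5)]⟩))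

theorem ok4 : chk K t4 l9 = true := by decide +kernel

open Helper55.PC in
noncomputable def t5n : Helper55.PC.Ten :=
  (s
  15056241510883061300656817817634408356376824376085156799444864410446953296075139701855071012292541666118124722453247003641949270948268042134069163868345704735150869561582738632148163015340440281782589829748438191859172694186966858015672240024665877797799618923014472518421385914812043177556608330528364987710885262535282334044926849362258271035874494589457014477206988792355880982089633235020176880076735443787526849147147464239350749358845207728747956155727698035027836607453549984853200437004853539987721327186046749043218300195573798942127575018208443596261276309815976267547903909613524825883213879575169)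

noncomputable def t5 : Tre := Helper55.PC.toT t5n

theorem ok5 : chk K t5 l10 = true :=
  Helper55.PC.chkN_sound K t5n l10 (by decide +kernel)

open Helper55.PC in
noncomputable def t6n : Helper55.PC.Ten :=
  (s
  15056241510883061300656817817634408356376824376085156799444864410446953296075139701855071012292541666118124722453247003641949270948268042134069163868345704735150869561582738632148163015340440281782589829748438191859172694186966858015672240024665877797799618923014472518421385914812043177556608330528364987710885262535282334044926849362258271035874494589457014477206988792355880982089633235020176880076735443787526849147147464239350749358845207728747956155727698035027836607453549984853200437004853539987721327186046749043218300195573798942127575018208443596261276309815976267547903909613524825883213879575169)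

noncomputable def t6 : Tre := Helper55.PC.toT t6n

theorem ok6 : chk K t6 r10 = true :=
  Helper55.PC.chkN_sound K t6n r10 (by decide +kernel)

noncomputable def t7 : Tre :=
  (.N [0,1,0,0,5] (-2) ⟨0,[(1,0)]⟩ ⟨0,[(0,0)]⟩ (.x 2 ⟨2,[(3,1),(41,0)]⟩ ⟨83,[(2,9),(17,34),(3,4),(1,
  13),(6,167),(6,27),(6,27)]⟩))

theorem ok7 : chk K t7 l12 = true := by decide +kernel

noncomputable def t8 : Tre :=
  (.N [0,0,1,-1,2] (-1) ⟨0,[(11,0)]⟩ ⟨0,[(17,0)]⟩ (.i (-1) ⟨0,[(0,0)]⟩ ⟨4,[(1,0),(4,2),(0,4),(5,6),
  (3,0),(5,2),(0,4),(18,3),(5,1),(1,9)]⟩))

theorem ok8 : chk K t8 l13 = true := by decide +kernel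

noncomputable def t9 : Tre :=
  (.N [0,0,1,-1,2] (-1) ⟨0,[(13,0)]⟩ ⟨0,[(19,0)]⟩ (.i 0 ⟨0,[(1,0)]⟩ ⟨0,[(0,0)]⟩))

theorem ok9 : chk K t9 l15 = true := by decide +kernel

open Helper55.PC in
noncomputable def t10n : Helper55.PC.Ten :=
  (s
  226532772023203190209823788926077155167533859647957456394445119805185979236472415620710523509496718423589834056233449339910100830162764321019239708558952221502089078066844457488834332525892645504003124203838441384405906130075931218324773776528712842564443335266030760425408521251470920818593586414966045011763242267124549113170734530026636675977321467717613561840421922712684340167747201246832969707482335739539063308683064927965400087662568991692044722196150505605579409692863690281627487139212225754417343686098231628779693839602691651748390685769294430941959759228745517122879125278957330574024901833104330386575177215160651575151158760800939924259457)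

noncomputable def t10 : Tre := Helper55.PC.toT t10n

theorem ok10 : chk K t10 r15 = true :=
  Helper55.PC.chkN_sound K t10n r15 (by decide +kernel)

open Helper55.PC in
noncomputable def t11n : Helper55.PC.Ten :=
  (s
  226532772023203190209823788926077155167533859647957456394445093073185088841461086720191954043666062522842418451943519849717680032098266214223857170040867022920159269043695358408666918600120821818600700818488274985360063163591314985159091579837231434642787415012410742339602032224213977362801518392460963039166594363966001533815359565009890211603196096771040465031203535928976886124013503052282107184014725842236516108387988913802957948778800893539260039560627124406153015207991532122318604245687260093607889136221171653566311508877752328827566331292560181008164381570652102637994713389173256967997797061717236519344241547554322048566132102677196413338241)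

noncomputable def t11 : Tre := Helper55.PC.toT t11n

theorem ok11 : chk K t11 r14 = true :=
  Helper55.PC.chkN_sound K t11n r14 (by decide +kernel)

noncomputable def t12 : Tre :=
  (.N [0,0,1,-1,2] (-1) ⟨0,[(10,0)]⟩ ⟨0,[(16,0)]⟩ (.i (-1) ⟨0,[(0,0)]⟩ ⟨7,[(2,0),(2,4),(0,7),(5,11),
  (3,0),(5,4),(0,7),(18,6),(5,2),(1,15)]⟩))

theorem ok12 : chk K t12 l16 = true := by decide +kernel

noncomputable def t13 : Tre :=
  (.N [0,0,1,-1,2] (-1) ⟨0,[(12,0)]⟩ ⟨0,[(18,0)]⟩ (.i 0 ⟨0,[(1,0)]⟩ ⟨0,[(0,0)]⟩))

theorem ok13 : chk K t13 l18 = true := by decide +kernel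

open Helper55.PC in
noncomputable def t14n : Helper55.PC.Ten :=
  (s
  226532772023203190209823788926077155167533859647957456394445093073185088841461086720191954043666062522842418451943519849717680032098266214223857170040867022920159269043695358408666918600120821818600700818488274985360063163591314985159091579837231434642787415012410742339602032224213977362801518392460963039166594363966001533815359565009890211603196096771040465031203535928976886124013503052282107184014725842236516108387988913802957948778800893539260039560627124406153015207991532122318604245687260093607889136221171653566311508877752328827566331292560181008164381570652102637994713389173256967997797061717236519344241547554322048566132102677196413338241)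

noncomputable def t14 : Tre := Helper55.PC.toT t14n

theorem ok14 : chk K t14 r18 = true :=
  Helper55.PC.chkN_sound K t14n r18 (by decide +kernel)

open Helper55.PC in
noncomputable def t15n : Helper55.PC.Ten :=
  (s
  226532772023203190209823788926077155167533859647957456394445066341184198446449757819673384577835406622095002847653590359525259234033768107428474631522781824338229460020546259328499504674348998133198277433138108586314220197106698751993409383145750026721131494758790724253795543196957033907009450369955881066569946460807453954459984599993143747229070725824467368221985149145269432080279804857731244660547115944933968908092912899640515809895032795386475356925103743206726620723119373963009721352162294432798434586344111678352929178152813005906741976815825931074369003912558688153110301499389183361970692290330142652113305879947992521981105444553452902417025)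

noncomputable def t15 : Tre := Helper55.PC.toT t15n

theorem ok15 : chk K t15 r17 = true :=
  Helper55.PC.chkN_sound K t15n r17 (by decide +kernel)

noncomputable def t16 : Tre :=
  (.N [0,1,0,0,7] (-3) ⟨0,[(2,0)]⟩ ⟨0,[(1,0)]⟩ (.x 2 ⟨124,[(2,5),(17,20),(14,1),(0,165),(1,124),(5,
  163),(3,1),(0,124)]⟩ ⟨0,[(0,0)]⟩))

theorem ok16 : chk K t16 l21 = true := by decide +kernel

noncomputable def t17 : Tre :=
  (.N [0,0,1,-1,2] (-1) ⟨0,[(11,0)]⟩ ⟨0,[(17,0)]⟩ (.i (-1) ⟨0,[(0,0)]⟩ ⟨7,[(3,0),(2,4),(0,7),(5,11),
  (3,0),(5,4),(0,7),(18,6),(5,2),(1,15)]⟩))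

theorem ok17 : chk K t17 l22 = true := by decide +kernel

open Helper81.PXd in
noncomputable def t18n : Helper81.PXd.Ten :=
  (s
  2880110437972287271608253951951197067854781203889497796468834872291218305981074446997876676789331914359013523541073904648034465695285620090853294960891603834261944255208634965255422051618440419516873495668893685302156920742312775906174608161609525679048508801075671170314839330459480893028279977973287310470316439625394102807524546582182402760837490266967753143298078181401436068551010103649125997744357673376460434825538314885271173775597275432859883718043162980745413300581997920591232798987347448482847251247001043819798032618796160962363637083863210594136425509123030224157025330288751380046968127578985021516063803500964072837236820972280660601986476989343714360115560011806188234180225818897127075111749451520058701043477783762881141449196619672831680326591513319791626518109020930751097775289802143600556671348240119974068080102998897636055504030799697326409847831707761611726851642325586060463339617025558334654702500099662254668778182324085810069001223547561723566235685376581746898599060705082835205238851749544577)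

noncomputable def t18 : Tre := Helper81.PXd.toT t18n

theorem ok18 : chk K t18 r22 = true :=
  Helper81.PXd.chkN_sound K t18n r22 (by decide +kernel)

noncomputable def t19 : Tre :=
  (.N [0,0,1,-1,2] (-1) ⟨0,[(10,0)]⟩ ⟨0,[(16,0)]⟩ (.i (-1) ⟨0,[(0,0)]⟩ ⟨7,[(2,0),(2,4),(0,7),(5,11),
  (3,0),(5,4),(0,7),(18,6),(5,2),(1,15)]⟩))

theorem ok19 : chk K t19 l23 = true := by decide +kernel

noncomputable def t20 : Tre :=
  (.N [0,0,1,-1,2] (-1) ⟨0,[(12,0)]⟩ ⟨0,[(18,0)]⟩ (.i 0 ⟨0,[(1,0)]⟩ ⟨0,[(0,0)]⟩))

theorem ok20 : chk K t20 l25 = true := by decide +kernel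

open Helper81.PXd in
noncomputable def t21n : Helper81.PXd.Ten :=
  (s
  12080058730428916392455585983684713666491580222598536165720419980190546105649874619544954697025593723506378094284207640475402871218486513327316631113000161110359326045752485172684162882892344668735042772245714797735675309076592380421285033020427850520624819571223736734054755711926038028780572272133195985816044122877320762974040757578335480767897477001312837051378998001497711399942043365443133123299701665646778808586079585640914291602960075052524593514967008394630810954579502519070828506673836843023208609794584784031429655517849846622444026744927193960721536177563575293163012100100219952434024481492040947703764420574988063035411742196788211573944204393638965409178478462794001948619536253709920467072573699525940286689032387933643886458555789881596758269887675761322146702164659023703763153722279311121247824618568194895764420487783957186308800958428980551150267106143647452589060058537827926470927678709134500777964199930700683661575950400678253100687550997655088832849619809291320348919087144231533873114102862527442453121)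

noncomputable def t21 : Tre := Helper81.PXd.toT t21n

theorem ok21 : chk K t21 r25 = true :=
  Helper81.PXd.chkN_sound K t21n r25 (by decide +kernel)

open Helper81.PXd in
noncomputable def t22n : Helper81.PXd.Ten :=
  (s
  12080058730428916392455585983684713666491580222598536165720419980190546105649644477340982136964202005723667857842420442560869551603599257489546338467647497528460209837398598469310677732791431125341300570378023459837577981297165445234371783710671479993735876658386891892336211863103522547552086824733270859454890123986548986982011435827833980629391728776703914879947702508564768908067775881746664160235466253265483418644948325825416036014213290611351424560092542872692231295069785481059412216737491102898559173501664178823421929620736955933689429229930083166056270228544996289023278109392689609443850205666311021518843870551813724126122572601355319105020526676227090985690324344522082207472559028109445136277672266257461953038554673532959413790860164645894345713992211579057661534325154137342343026851071235193665971995935828855628632248953007974666029014708883643279237729513379002080760752127574277588179530185476020813928569477515261051094580824107618294458389344240505257934298394034265757941281873038515405400684645061864981121)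

noncomputable def t22 : Tre := Helper81.PXd.toT t22n

theorem ok22 : chk K t22 r24 = true :=
  Helper81.PXd.chkN_sound K t22n r24 (by decide +kernel)

noncomputable def t23 : Tre :=
  (.N [0,0,1,-1,2] (-1) ⟨0,[(9,0)]⟩ ⟨0,[(15,0)]⟩ (.i (-1) ⟨0,[(0,0)]⟩ ⟨2,[(4,0),(0,2),(0,0),(4,4),
  (9,1),(0,2),(18,2),(5,0),(1,5)]⟩))

theorem ok23 : chk K t23 l26 = true := by decide +kernel

open Helper81.PXd in
noncomputable def t24n : Helper81.PXd.Ten :=
  (s
  23164897411703650139156320619244306864698366183993315985127036227213259058232227661508919059892658910878292581324808750349254560434370308804066212575504558384639537243091139526872805499880675242380348847598860627261016643704590050146024086442643898080869397997222179363308438097125398249967095451223210586102295654853211547800756155435217344351426358219572285453892923537408369579030462297560769810160270645535667308388544262707899326743177532950269321862506602312615806052196721632694967056592067733881083637414476550962353274571022026953819641930909487400410614470326090223125788871649961754760114049039978635602205988624187900155146887478190651686164468274887962325948077845755377638097100782549490118584059556262985954432704872005872309012119133234231656594104128011566006078143951513094645564196146803110307071005542843317112220515443230844109055033198811367227032537759370268810267949509706847275104054316217325781349839251495191169)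

noncomputable def t24 : Tre := Helper81.PXd.toT t24n

theorem ok24 : chk K t24 r26 = true :=
  Helper81.PXd.chkN_sound K t24n r26 (by decide +kernel)

noncomputable def t25 : Tre :=
  (.N [0,-1,1,-1,-1] 0 ⟨0,[(1,0)]⟩ ⟨0,[(0,0)]⟩ (.x (-1) ⟨11,[(17,4),(5,1),(5,4),(0,11),(6,3),(6,3),
  (1,11)]⟩ ⟨0,[(35,0)]⟩))

theorem ok25 : chk K t25 l28 = true := by decide +kernel

noncomputable def t26 : Tre :=
  (.N [0,1,0,0,5] (-2) ⟨0,[(2,0)]⟩ ⟨0,[(1,0)]⟩ (.x 1 ⟨88,[(2,11),(17,29),(14,3),(0,57),(1,88),(5,
  53),(3,3),(0,88)]⟩ ⟨0,[(0,0)]⟩))

theorem ok26 : chk K t26 l31 = true := by decide +kernel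

noncomputable def t27 : Tre :=
  (.N [0,1,0,0,5] (-2) ⟨0,[(3,0)]⟩ ⟨0,[(2,0)]⟩ (.x 2 ⟨0,[(0,0)]⟩ ⟨11,[(3,1),(17,4),(3,0),(1,1),(6,
  23),(6,3),(6,3)]⟩))

theorem ok27 : chk K t27 l32 = true := by decide +kernel

noncomputable def t28 : Tre :=
  (.N [0,0,1,-1,2] (-1) ⟨0,[(12,0)]⟩ ⟨0,[(18,0)]⟩ (.i (-1) ⟨0,[(0,0)]⟩ ⟨3,[(3,0),(4,3),(0,2),(2,0),
  (1,7),(9,2),(0,3),(18,4),(5,0),(1,7)]⟩))

theorem ok28 : chk K t28 l33 = true := by decide +kernel

open Helper81.PXd in
noncomputable def t29n : Helper81.PXd.Ten :=
  (s
  885111757096545094723935470762032529172060183591542237251203062890787434045882366804064272075816186220034772054759105642878835022626409634437565104790262358110385680660416488431310871605715459090280408072132745639595098698058601470152977217442836075224714737058125383660007546554277635685397981456114307920691565368587341182883430505234066371113627752274661270063221391639920357615060986878673079104102186469175340414648925253608671444053009210333975169825204709521987375958427071747350615719718538605436927525285092235061781492287445253460431209465562508531128771543542939676720137987041183285645226796939158113609151477903738826792592947958689364400414735080178505402595517815776860315647103767828928675938514004430123312521576638080003634231985730862428187724898568194796960042233309628026132810276569501979475166193510796008510605622251487690324061476222361302847903444855505044422627929548550366572446167880294867728125297913727030866935024714369)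

noncomputable def t29 : Tre := Helper81.PXd.toT t29n

theorem ok29 : chk K t29 r33 = true :=
  Helper81.PXd.chkN_sound K t29n r33 (by decide +kernel)

noncomputable def t30 : Tre :=
  (.N [0,0,1,-1,2] (-1) ⟨0,[(10,0)]⟩ ⟨0,[(16,0)]⟩ (.i (-1) ⟨0,[(0,0)]⟩ ⟨0,[(3,0),(2,0),(0,0),(4,2),
  (9,0),(0,0),(18,1),(7,1)]⟩))

theorem ok30 : chk K t30 l34 = true := by decide +kernel

noncomputable def t31 : Tre :=
  (.N [0,0,1,-1,2] (-1) ⟨0,[(12,0)]⟩ ⟨0,[(18,0)]⟩ (.i 0 ⟨0,[(1,0)]⟩ ⟨0,[(0,0)]⟩))

theorem ok31 : chk K t31 l36 = true := by decide +kernel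

open Helper55.PC in
noncomputable def t32n : Helper55.PC.Ten :=
  (s
  12842630424478051815400894768928519961928297314760451459794278617906220410961456292370648598875851972622961312273096217559532636508079135233556915115126039938463140361460373940363000343481802375330000544308852239044663092638480232141252151928210611779789712319587361002816602064294490380042268371378416690323573213529811168867445966072304750772159915589638628032120975386015804667188764544917486573816583327182749392635315353317756637390420637740268466211986088320554626245590123243876124949113782574049203567768142737140435394267629730108096234907338974524857410497474953610495884111141103700088680860923469163705150697996782921819233561563707311012403658177501781166430511065727617)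

noncomputable def t32 : Tre := Helper55.PC.toT t32n

theorem ok32 : chk K t32 r36 = true :=
  Helper55.PC.chkN_sound K t32n r36 (by decide +kernel)

open Helper55.PC in
noncomputable def t33n : Helper55.PC.Ten :=
  (s
  12842630424478051815400894768928519961928297314760451459794276499978909535286524285387503458190262596731687456949321423798845772583289170766317035122553400838507230468689606851879520128204308705211406633188500283496344589598278327067492327831067083734575415024959630781354593439746281745160383385799022261885104002424125907414505060004472575547005610001538892196956947202214130687036964249715607447550421990970650873489655948454646830429261418090195722469767051670920563687963732602428468442086533270836672054821549378401397426025905881365588114415013928834253399669969264489493030271165987229705465520660367928043498261167138067446150941950949893612620253865025253048059070403052161)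

noncomputable def t33 : Tre := Helper55.PC.toT t33n

theorem ok33 : chk K t33 r35 = true :=
  Helper55.PC.chkN_sound K t33n r35 (by decide +kernel)

noncomputable def t34 : Tre :=
  (.N [0,1,0,0,7] (-3) ⟨0,[(2,0)]⟩ ⟨0,[(1,0)]⟩ (.x 2 ⟨124,[(2,5),(18,20),(14,1),(0,165),(1,124),(5,
  163),(3,1),(0,124)]⟩ ⟨0,[(0,0)]⟩))

theorem ok34 : chk K t34 l39 = true := by decide +kernel

noncomputable def t35 : Tre :=
  (.N [0,1,0,0,7] (-3) ⟨0,[(3,0)]⟩ ⟨0,[(2,0)]⟩ (.x 3 ⟨0,[(0,0)]⟩ ⟨83,[(3,9),(18,34),(3,4),(1,13),(6,
  251),(6,27),(6,27)]⟩))

theorem ok35 : chk K t35 l40 = true := by decide +kernel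

noncomputable def t36 : Tre :=
  (.N [0,0,1,-1,2] (-1) ⟨0,[(13,0)]⟩ ⟨0,[(19,0)]⟩ (.i (-1) ⟨0,[(0,0)]⟩ ⟨6,[(3,0),(5,6),(0,4),(2,0),
  (1,12),(9,4),(0,6),(18,7),(5,1),(1,13)]⟩))

theorem ok36 : chk K t36 l41 = true := by decide +kernel

noncomputable def t37 : Tre :=
  (.N [0,0,1,-1,2] (-1) ⟨0,[(15,0)]⟩ ⟨0,[(21,0)]⟩ (.i 0 ⟨0,[(1,0)]⟩ ⟨0,[(0,0)]⟩))

theorem ok37 : chk K t37 l43 = true := by decide +kernel

open Helper81.PXd in
noncomputable def t38n : Helper81.PXd.Ten :=
  (s
  891351007182411773615573474638694471084024377568719813883270936401088762472469106406963048689375703053606852825564295418581648861826015378150361630669374970028727580280396156331411307606793536281519352413986508290521627312437986147529696459009764885257082093044207138171956276941936889763680159470037942251834959004062155357481245918773980513964820437606400538961151031698175683373796800028262831312237553663109297235374475381792880870098864679321084663340948500241856580646805694779141823816315281044799076664025168036668486738755445891838897782223060483377088229194543932549247506109886858673035635153963841763880213628015414866630631864069123067251200407796587419008549973655255346930971022051679267213264033218675020972780797911098384299005306417371578828268552149629267508814986161976976071330347744967239104765781084482382278948307887039796399962739217398600935309417255276753748542281667294544627261243970815322467501653769682039775427838826906324784751949977637871654119745826686472632995759116929773068386229574743264606062725673243387101825)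

noncomputable def t38 : Tre := Helper81.PXd.toT t38n

theorem ok38 : chk K t38 r43 = true :=
  Helper81.PXd.chkN_sound K t38n r43 (by decide +kernel)

open Helper81.PXd in
noncomputable def t39n : Helper81.PXd.Ten :=
  (s
  891351007182411773615573474638694471084024377568719813883270936401088762472452124909614083580816292182603987591481477067444818180324795074121515448954854638398874102941071520785100750373845091088359160272450025805770484247689669866542011649866879976495366044723178405712980259525836950507252116554445880067720125274274673837408594586202108463656068949193072546171158821273292639596950707767202862244278818403586819736499839798608519852224054135015979523551652362341474603152996140120390162592098683109295935190532030034278329871153157372127849291922776802488199101027982112785445108838349506586812499297198366227016426951302686179968555888908216151296202222860085060232180368708671835666259241727022781534459559166134567820225015164397763350487332293492129158238346630941016624897077902687515909431111532034105151748876645913025161515621798777364092576812774904120322353477336941254373418929124345373137810872936170509603089725497694023609975834677961732450719859793248965572096450028744384604742837821955408849502756063792908942060549366010304529025)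

noncomputable def t39 : Tre := Helper81.PXd.toT t39n

theorem ok39 : chk K t39 r42 = true :=
  Helper81.PXd.chkN_sound K t39n r42 (by decide +kernel)

noncomputable def t40 : Tre :=
  (.N [0,0,1,-1,2] (-1) ⟨0,[(11,0)]⟩ ⟨0,[(17,0)]⟩ (.i (-1) ⟨0,[(0,0)]⟩ ⟨3,[(3,0),(3,3),(0,2),(2,0),
  (1,7),(9,2),(0,3),(18,4),(5,0),(1,7)]⟩))

theorem ok40 : chk K t40 l44 = true := by decide +kernel

noncomputable def t41 : Tre :=
  (.N [0,0,1,-1,2] (-1) ⟨0,[(12,0)]⟩ ⟨0,[(18,0)]⟩ (.i 1 ⟨0,[(19,0),(16,0),(19,1)]⟩ ⟨0,[(0,0)]⟩))

theorem ok41 : chk K t41 l45 = true := by decide +kernel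

noncomputable def t42 : Tre :=
  (.N [0,0,1,-1,2] (-1) ⟨0,[(14,0)]⟩ ⟨0,[(20,0)]⟩ (.i 0 ⟨0,[(1,0)]⟩ ⟨0,[(0,0)]⟩))

theorem ok42 : chk K t42 l47 = true := by decide +kernel

open Helper55.PC in
noncomputable def t43n : Helper55.PC.Ten :=
  (s
  17947775276661136060602626757245493142545932379402446343575410369850587701802187796275962043018309074046597994403529577342417801818921107733124865308395524037860810600321211168137510487962690193874919606790054018086368226351434187759028807328122033861281034476228186608956027858574322418595686190339617785895691809843024980200103392808997975222587381485881232627406939888149243268805849011106116971825930098266307572074678756613350195705765781355397605410758162706618721417270656668598568455542782173570710356659407575917066057508740427931632749422819232025127019433281605362986625895833272459955156790350797746741080543299013295908167652759416610785283215574158328113505876541702785)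

noncomputable def t43 : Tre := Helper55.PC.toT t43n

theorem ok43 : chk K t43 r47 = true :=
  Helper55.PC.chkN_sound K t43n r47 (by decide +kernel)

open Helper55.PC in
noncomputable def t44n : Helper55.PC.Ten :=
  (s
  17947775276661136060602626757245493142545932379402446343575408251923276826127255789292816902332719698155324139079754783581730937894131143265884985315822884937904900707550444079654030272685196523756325695669702062538049723311232282685268983230978505816066737181600456387494019234026113783713801204760223357457222598737339718747162486741165799997433075897781496792242911704347569288654048715904237845559768762054209052929019351750240388744606561705324861668539126056984658859644266027150911948515532870358178843712814217178028089267016579189124628930494186334523008605775916241983772055858155989571941450087696511079428106469368441535085033146659193385499811261681799995134435879027329)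

noncomputable def t44 : Tre := Helper55.PC.toT t44n

theorem ok44 : chk K t44 r46 = true :=
  Helper55.PC.chkN_sound K t44n r46 (by decide +kernel)

noncomputable def t45 : Tre :=
  (.N [0,0,1,-1,2] (-1) ⟨0,[(11,0)]⟩ ⟨0,[(17,0)]⟩ (.i 0 ⟨0,[(0,0)]⟩ ⟨0,[(1,0)]⟩))

theorem ok45 : chk K t45 l49 = true := by decide +kernel

open Helper55.PC in
noncomputable def t46n : Helper55.PC.Ten :=
  (s
  64666064889920376366684255846169875975716247790035857406508699609762054673235078378812497504294511217316073834708231172284417363802751993451126749229516123201254176844612014997876251370233275225485796904323355426403467840745248261994494472672591454574012582262011200122752871963295333918028399093429547469724753762144270623499540964741999733279857908370384468792655033600887862733590486658613811433853802652552736503689613531333297035420761165013663413807401565595015246595416701395860971525563426884168832798455551609776796531589581855558750402860809535903210131334409437873695961263584922684412265687353202060558977)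

noncomputable def t46 : Tre := Helper55.PC.toT t46n

theorem ok46 : chk K t46 r49 = true :=
  Helper55.PC.chkN_sound K t46n r49 (by decide +kernel)

noncomputable def t47 : Tre :=
  (.N [0,0,1,-1,2] (-1) ⟨0,[(11,0)]⟩ ⟨0,[(17,0)]⟩ (.i (-1) ⟨0,[(0,0)]⟩ ⟨6,[(2,0),(4,6),(0,4),(2,0),
  (1,12),(9,4),(0,6),(18,7),(5,1),(1,13)]⟩))

theorem ok47 : chk K t47 l50 = true := by decide +kernel

open Helper55.PC in
noncomputable def t48n : Helper55.PC.Ten :=
  (s
  64666064889920376366684255846169875975716247790035857406508699609762054673235078378812497504294511217316073834708231172284417363802751993451126749229516123201254176844612014997876251370233275225485796904323355426403467840745248261994494472672591454574012582262011200122752871963295333918028399093429547469724753762144270623499540964741999733279857908370384468792655033600887862733590486658613811433853802652552736503689613531333297035420761165013663413807401565595015246595416701395860971525563426884168832798455551609776796531589581855558750402860809535903210131334409437873695961263584922684412265687353202060558977)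

noncomputable def t48 : Tre := Helper55.PC.toT t48n

theorem ok48 : chk K t48 r50 = true :=
  Helper55.PC.chkN_sound K t48n r50 (by decide +kernel)

noncomputable def t49 : Tre :=
  (.N [0,3,0,0,7] (-2) ⟨0,[(0,0)]⟩ ⟨0,[(1,0)]⟩ (.x 2 ⟨0,[(36,1),(6,0),(3,1)]⟩ ⟨27,[(0,1),(17,6),(3,
  2),(1,13),(6,55),(6,27),(6,27)]⟩))

theorem ok49 : chk K t49 l52 = true := by decide +kernel

noncomputable def t50 : Tre :=
  (.N [0,-2,0,1,2] (-2) ⟨0,[(1,0)]⟩ ⟨0,[(2,0)]⟩ (.x 2 ⟨0,[(0,0)]⟩ ⟨11,[(21,4),(5,1),(4,11),(0,4),(0,
  11),(6,3),(6,3)]⟩))

theorem ok50 : chk K t50 l55 = true := by decide +kernel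

noncomputable def t51 : Tre :=
  (.N [0,0,1,-1,2] (-1) ⟨0,[(13,0)]⟩ ⟨0,[(19,0)]⟩ (.i 0 ⟨0,[(0,0)]⟩ ⟨0,[(1,0)]⟩))

theorem ok51 : chk K t51 l57 = true := by decide +kernel

noncomputable def t52 : Tre :=
  (.N [0,0,1,-1,2] (-1) ⟨0,[(14,0)]⟩ ⟨0,[(20,0)]⟩ (.i 1 ⟨0,[(21,0),(16,0),(19,1)]⟩ ⟨0,[(0,0)]⟩))

theorem ok52 : chk K t52 l58 = true := by decide +kernel

open Helper55.PC in
noncomputable def t53n : Helper55.PC.Ten :=
  (s
  270653306138143638517517601651687492409631572175617078785817022090918102782105486383523015499239338643376378780265260586984099633065163009559474046325756907175184638211941755497201261404493951403834638774295870060862452914006207479066097339853520047422975830064905792817785541937182400657232603982408912015097551633308446670663164073957155055710962071995787543846666269558215497622761070612596171774780233550466863260135132852426498041807891656940439266100610663279563660691906769998279298995129597309095915257112397302093386520246666117706184974979483435406554585702604593033924198543163968595285921623380156486940394939794713048161190529)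

noncomputable def t53 : Tre := Helper55.PC.toT t53n

theorem ok53 : chk K t53 r58 = true :=
  Helper55.PC.chkN_sound K t53n r58 (by decide +kernel)

noncomputable def t54 : Tre :=
  (.N [0,0,1,-1,2] (-1) ⟨0,[(13,0)]⟩ ⟨0,[(19,0)]⟩ (.i (-1) ⟨0,[(0,0)]⟩ ⟨0,[(4,0),(4,0),(3,0),(1,2),
  (9,0),(0,0),(18,1),(7,1)]⟩))

theorem ok54 : chk K t54 l59 = true := by decide +kernel

open Helper55.PC in
noncomputable def t55n : Helper55.PC.Ten :=
  (s
  270653306138143638517517601651687492409631572175617078779592993117451616268281163524356399238257046075157416972950443626664673606379347100411285243311876194478697472671806596517869978115513028908637816840514631157446432435020208266304887921295413694758848785777584087671537986739799306576892540770082487267650496187467454711548913171826125706825682239642597323577666356004406236009948680813824591176259304385866817241963371408550196247415886599531560106281492619882041659622456713612708436016592883219023629722499112952611581786365475784875222897892947091866318082242607336537231256288075172580194484654249451275788252670200515598941684353)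

noncomputable def t55 : Tre := Helper55.PC.toT t55n

theorem ok55 : chk K t55 r59 = true :=
  Helper55.PC.chkN_sound K t55n r59 (by decide +kernel)

noncomputable def t56 : Tre :=
  (.N [0,0,1,-1,2] (-1) ⟨0,[(11,0)]⟩ ⟨0,[(17,0)]⟩ (.i (-1) ⟨0,[(0,0)]⟩ ⟨0,[(1,0),(5,0),(3,0),(1,2),
  (9,0),(0,0),(18,1),(7,1)]⟩))

theorem ok56 : chk K t56 l60 = true := by decide +kernel

open Helper55.PC in
noncomputable def t57n : Helper55.PC.Ten :=
  (s
  161616590911018599943826074013301754600010040201391091903981642483778924000170650033691855564973437672112972667758047608157790671573137424695830572880672282646684680538288115540127607291522171571195982237411424144348622053698641718276768330999279515323404277090134362503209712971864774768147496797971589019748841961607187422238991732580512315482201430979277420223275973133899040553735742282002721663896420164062553268917255224650764173630943476999278643689709230706662973132475459410861768552220460407861535627583541930162449506467224567897496405075202456322040042738649245658351525589152195916918309806348338182750849)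

noncomputable def t57 : Tre := Helper55.PC.toT t57n

theorem ok57 : chk K t57 l61 = true :=
  Helper55.PC.chkN_sound K t57n l61 (by decide +kernel)

noncomputable def t58 : Tre :=
  (.N [0,0,1,-1,2] (-1) ⟨0,[(13,0)]⟩ ⟨0,[(19,0)]⟩ (.i 1 ⟨0,[(20,0),(16,0),(19,1)]⟩ ⟨0,[(0,0)]⟩))

theorem ok58 : chk K t58 l62 = true := by decide +kernel

open Helper55.PC in
noncomputable def t59n : Helper55.PC.Ten :=
  (s
  161616590911018599943826074013301760824039013667877605728304501650395184982463218252653662879790397991538999353573956756346593685453850121182996113015831261977967969519210610736949541072761074987216461223410636905558040611804994382403812618320984661570959474473228442843272925298289522215202942638963548133999744092636536307518824085770732584482114984788539033035665771905479639074664906882048739835657864040364347660922312633529923992748986874521279713139765616277525951669189549483147303165504809889666269508773874761124526593003568108133999865072458953014982297827445260749788494719857407069060579400545787402257025)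

noncomputable def t59 : Tre := Helper55.PC.toT t59n

theorem ok59 : chk K t59 r62 = true :=
  Helper55.PC.chkN_sound K t59n r62 (by decide +kernel)

noncomputable def t60 : Tre :=
  (.N [0,0,1,-1,2] (-1) ⟨0,[(11,0)]⟩ ⟨0,[(17,0)]⟩ (.i 0 ⟨0,[(0,0)]⟩ ⟨0,[(1,0)]⟩))

theorem ok60 : chk K t60 l64 = true := by decide +kernel

open Helper55.PC in
noncomputable def t61n : Helper55.PC.Ten :=
  (s
  161616590911018599943826074013301748375981066734904578079658783317162663017878081814730048250156477352686945981942138459968987657692424728208665032745513303315401391557365620343305673510283268155175503251412211383139203495592289054149724043677574369075849079707040282163146500645440027321092050956979629905497939830577838536959159379390292046482287877170015807410886174362318442032806577681956703492134976287760758876912197815771604354512900079477277574239652845135799994595761369338576233938936110926056801746393209099200372419930881027660992945077945959629097787649853230566914556458446984764776040212150888963244673)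

noncomputable def t61 : Tre := Helper55.PC.toT t61n

theorem ok61 : chk K t61 r64 = true :=
  Helper55.PC.chkN_sound K t61n r64 (by decide +kernel)

noncomputable def t62 : Tre :=
  (.N [0,0,1,-1,2] (-1) ⟨0,[(12,0)]⟩ ⟨0,[(18,0)]⟩ (.i (-1) ⟨0,[(1,0)]⟩ ⟨0,[(0,0)]⟩))

theorem ok62 : chk K t62 l66 = true := by decide +kernel

open Helper55.PC in
noncomputable def t63n : Helper55.PC.Ten :=
  (s
  161616590911018599943826074013301754600010040201391091903981642483778924000170650033691855564973437672112972667758047608157790671573137424695830572880672282646684680538288115540127607291522171571195982237411424144348622053698641718276768330999279515323404277090134362503209712971864774768147496797971589019748841961607187422238991732580512315482201430979277420223275973133899040553735742282002721663896420164062553268917255224650764173630943476999278643689709230706662973132475459410861768552220460407861535627583541930162449506467224567897496405075202456322040042738649245658351525589152195916918309806348338182750849)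

noncomputable def t63 : Tre := Helper55.PC.toT t63n

theorem ok63 : chk K t63 r66 = true :=
  Helper55.PC.chkN_sound K t63n r66 (by decide +kernel)

open Helper55.PC in
noncomputable def t64n : Helper55.PC.Ten :=
  (s
  112122432265650529220426508546384284255374669394348198079161930086020326082573674611090716119759269256839455835118742683910118542487049823795261073359103638713482393842622954971792820625269857907459172517705963745848138235092424929998535233646317750997494758628567838517948123953528450688979793751122791771138419610837757635938283781732347718127478247472781670038405015415340050627841817397937443253444232966455345888835855486516012420209117602124631722854764807768594892834554705760943976559789183551178796063229033961247786308478337626683252841600089889098095199654747640172617127033441687933289089)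

noncomputable def t64 : Tre := Helper55.PC.toT t64n

theorem ok64 : chk K t64 r65 = true :=
  Helper55.PC.chkN_sound K t64n r65 (by decide +kernel)

noncomputable def t65 : Tre :=
  (.N [0,0,1,-2,-2] 1 ⟨0,[(1,0)]⟩ ⟨0,[(0,0)]⟩ (.x (-2) ⟨121,[(2,7),(1,5),(13,5),(0,30),(2,5),(2,59),
  (4,115),(1,130),(6,113),(6,113),(1,121)]⟩ ⟨1,[(33,0),(3,1),(0,0),(4,0)]⟩))

theorem ok65 : chk K t65 l68 = true := by decide +kernel

noncomputable def t66 : Tre :=
  (.N [0,3,0,0,5] (-1) ⟨0,[(1,0)]⟩ ⟨0,[(0,0)]⟩ (.x 1 ⟨0,[(39,0),(6,1),(3,0)]⟩ ⟨27,[(4,1),(16,6),(3,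
  2),(1,13),(6,27),(6,27),(6,27)]⟩))

theorem ok66 : chk K t66 l70 = true := by decide +kernel

noncomputable def t67 : Tre :=
  (.N [0,0,1,-1,2] (-1) ⟨0,[(13,0)]⟩ ⟨0,[(19,0)]⟩ (.i 0 ⟨0,[(0,0)]⟩ ⟨0,[(1,0)]⟩))

theorem ok67 : chk K t67 l72 = true := by decide +kernel

open Helper55.PC in
noncomputable def t68n : Helper55.PC.Ten :=
  (s
  1014483783274834111146670526358914937592378291794070425328351228296069888381084830682122233989167436399913038598351352530885901936765595693466262652317555976825410675850208579517188059446438412647360338187095780386672185134464684910278542310487666088668676673741689063991019316591365426974798746569028027741294816423598833421125839460568428092499460042879371707665529706942475238976486019680721712896749838011106078313922618655201725674909728147810993457743849695834765674535054028212574217391882636379714366433728320622274551600727586766398245218245890599895678923566782974870761406200912814466384167381069845363714223932313567933695837567303980236428101830957161727776522881)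

noncomputable def t68 : Tre := Helper55.PC.toT t68n

theorem ok68 : chk K t68 r72 = true :=
  Helper55.PC.chkN_sound K t68n r72 (by decide +kernel)

noncomputable def t69 : Tre :=
  (.N [0,0,1,-1,2] (-1) ⟨0,[(13,0)]⟩ ⟨0,[(19,0)]⟩ (.i (-1) ⟨0,[(0,0)]⟩ ⟨2,[(3,0),(5,2),(0,0),(4,0),
  (3,2),(5,0),(0,2),(24,1),(1,5)]⟩))

theorem ok69 : chk K t69 l73 = true := by decide +kernel

open Helper55.PC in
noncomputable def t70n : Helper55.PC.Ten :=
  (s
  1014483783274834111146670526358914937592378291794070425328351228296069888381084830682122233989167436399913038598351352530885901936765595693466262652317555976825410675850208579517188059446438412647360338187095780386672185134464684910278542310487666088668676673741689063991019316591365426974798746569028027741294816423598833421125839460568428092499460042879371707665529706942475238976486019680721712896749838011106078313922618655201725674909728147810993457743849695834765674535054028212574217391882636379714366433728320622274551600727586766398245218245890599895678923566782974870761406200912814466384167381069845363714223932313567933695837567303980236428101830957161727776522881)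

noncomputable def t70 : Tre := Helper55.PC.toT t70n

theorem ok70 : chk K t70 r73 = true :=
  Helper55.PC.chkN_sound K t70n r73 (by decide +kernel)

noncomputable def t71 : Tre :=
  (.N [0,0,1,-1,2] (-1) ⟨0,[(12,0)]⟩ ⟨0,[(18,0)]⟩ (.i 0 ⟨0,[(0,0)]⟩ ⟨0,[(1,0)]⟩))

theorem ok71 : chk K t71 l75 = true := by decide +kernel

open Helper55.PC in
noncomputable def t72n : Helper55.PC.Ten :=
  (s
  1014483783274834111146670526358914898523515221350606693805300611288873788779302365312155332632602342547169832859320910234747475984507610975504024225447839931456833990389489517893244290385447866265338790667000082785367426050834460032729376521777094677984167358898284502885054178031598397852095692197530244044209065332762813598116767956665344646820377142611107946260135842559268394258597181009752366446406198285968929220348572033684731677013078498783248485498783124598355646305356893164746599026291342966385210262128969577502966990625763920561734129512302679112095624878759660029766172746468406323936202686462394595192440845799477941861509524118874637987107099903196573075505793)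

noncomputable def t72 : Tre := Helper55.PC.toT t72n

theorem ok72 : chk K t72 r75 = true :=
  Helper55.PC.chkN_sound K t72n r75 (by decide +kernel)

open Helper81.PXd in
noncomputable def t73n : Helper81.PXd.Ten :=
  (i 178471309095298242110842906528931613948117035 (i
  178384175541718707761867344408996116403716139 (n
  12194702416143566596764605774266987136606612824712778316789073193650846879286711824595983929494616238063988982256139440873823560959096855867781)
  (s
  30140694999747511988212761377607195032443400653943473881303297329335760548418687393058329819350015197167726829469564806377086449116116844585280482330668157789929750186118812118963291185903234475125085530575088714604251128779192900663297349523308615838950487418936596649416168286326155210979330046434480959417007259388862910349864211248842765814787981323641708093294604977211344972714637539902468600739571184964862948666078430757371143270269233247736496030541217909485188387191276677418458400299480238913703938315948815077597474461398576441334424765553763378012803024020073258350379292868212901990834166290772493618229697919063597696746319141990837999527457905254843672162905538463628735941919534586819561922121789480094966799026256206166364518943704556461253955007080131648807723954994922737777553224239770638668312976932475319457830617533947933135193434745302897323340864963667151134668151450151483867777))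
  (i 2659429586849722215294995849619308553 (i 178514859921352218322665241271889826444083243 (s
  83688127753569448084943931110165944069516809857526835036111521059121341627999480837948043425157181392026301712795475832244993646910463210383009699319718550178500694724981236943137032460561966030787042657422587760045239053792271790720297732304457460633256111305121207173219808546379873579567712952193896919839488418182088331705891343102951075464387487797934050623004987741668760515839403685610234882166053952254302512352009661531700537229341276511078063129441635416332343444764036267376672193869111429749774072953700550555865266709996882688975158674757110153187122713246473468442164631809923387667759844811543234436326054778810514932093027986249327879938717828358046832548494190035315390954214414388386124675047732106487561717966371839148976581028736736992511702562307393691861701821336955545673232111485103520088735947935221267728530507361349893358209)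
  (s
  682924239185825130274073424465094601003204342571960419514483247616001685589085478203376510285001035298958483132528247931395339609812380848687976099343071238085661104571906651554470895061714719561767125311802848715523015692256234039768537941114993494501243939054662544774235984549653428900456960643277406990615192198576981854724396892556674730303923817970809661831106050176629946963635439644335849685784943625580302253397313307352117439500403879808753549095462967147780804870370771122636508553635113877116563733822361998006807088069534452948550372432664705916936149793111190556982853681076266094058290194368890086844397995201466151712636448726498116749220977608793947799800550076760190439021834374828031854605302440317261786654187387593564856107730809826738020752206420221136052649929153702976575193684708987402335265032937286464857712630308260841402433399036050567017335277737706699883137))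
  (s
  455641507122663880370523735729554524776769044702471850224240673858259274601148308694479414891588159306249582572251821241900838440640015490938041574815301756669040620086465615753392596299009084656202289315136872043037692914136736630819376090451929627692660326592129314078152374578732695523268985949167155344449041162516740076594795367698568001185001374340492500149484931494567887821201677274119962688184807849376731065575008193095704710362935817729878897573917422984742735240173339484610340924285367465351722435582989948058330200721388119982414910367763811375314707474809028871094246318817272064826661598486241169509120859981623346612675745078734130265461802749527928001044860202878392715969669388570568639680311479079456532605029016024408110585914029437098353807473233554981156029133918613302010065692253833067818023517655368166190473219268866798676211525434793988087075420135152605214016129)))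

noncomputable def t73 : Tre := Helper81.PXd.toT t73n

theorem ok73 : chk K t73 r74 = true :=
  Helper81.PXd.chkN_sound K t73n r74 (by decide +kernel)

noncomputable def t74 : Tre :=
  (.N [0,0,1,-1,2] (-1) ⟨0,[(9,0)]⟩ ⟨0,[(15,0)]⟩ (.i (-1) ⟨0,[(0,0)]⟩ ⟨2,[(1,0),(3,2),(0,1),(4,0),
  (3,1),(5,0),(0,2),(24,1),(1,5)]⟩))

theorem ok74 : chk K t74 l76 = true := by decide +kernel

noncomputable def t75 : Tre :=
  (.N [0,0,1,-1,2] (-1) ⟨0,[(10,0)]⟩ ⟨0,[(16,0)]⟩ (.i 1 ⟨0,[(17,0),(16,0),(19,1)]⟩ ⟨0,[(0,0)]⟩))

theorem ok75 : chk K t75 l77 = true := by decide +kernel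

noncomputable def t76 : Tre :=
  (.N [0,0,1,-1,2] (-1) ⟨0,[(12,0)]⟩ ⟨0,[(18,0)]⟩ (.i 0 ⟨0,[(1,0)]⟩ ⟨0,[(0,0)]⟩))

theorem ok76 : chk K t76 l79 = true := by decide +kernel

open Helper55.PC in
noncomputable def t77n : Helper55.PC.Ten :=
  (s
  496006561978548598771730637888390917525295064345689253952776571041472963961898709073506617601957273990459378978673055867240691138997611102139806170897342294859959241073968546267733465684127605774695912561483344556552491405036777282815564609044884916108379819464126132978715280612815776922864690784282527487678733312777428492450182224818122715397280213652807836169093117627189429850275647155043298901330372039400109301550339287167914323937292100452987402133312642550918773511070125409792176094990689610967455133939140155444100380466556192382416286651962501505595962005793693930377859918891153178467612363064827478669517498497601883631256193)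

noncomputable def t77 : Tre := Helper55.PC.toT t77n

theorem ok77 : chk K t77 r79 = true :=
  Helper55.PC.chkN_sound K t77n r79 (by decide +kernel)

open Helper55.PC in
noncomputable def t78n : Helper55.PC.Ten :=
  (s
  496006561978548598771730637888390917525295064318957253062381559712572445392432878417605870186352984060969186557874991369133895756459093016941224241088319145760879073660042774444048063260742255608296866718516859940319325722840085801407642953124631296090294012975098876035259488544793271840892094136379368940099377937812411745985808099447176142300470995266024128715049383928994878987752179545145996354130076963385946859411455519069761539254656577071787975738827770392759464628176600444131366640440812550992241751608415216121179556112079458132482491274304408091111077593903909856771832814119766084600381427397221149142932471839478140120334977)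

noncomputable def t78 : Tre := Helper55.PC.toT t78n

theorem ok78 : chk K t78 r78 = true :=
  Helper55.PC.chkN_sound K t78n r78 (by decide +kernel)

noncomputable def t79 : Tre :=
  (.N [0,-3,1,0,-1] (-1) ⟨0,[(2,0)]⟩ ⟨0,[(1,0)]⟩ (.x 1 ⟨0,[(0,0)]⟩ ⟨19,[(15,8),(5,0),(0,1),(3,15),
  (0,8),(0,2),(4,15),(1,3)]⟩))

theorem ok79 : chk K t79 l82 = true := by decide +kernel

noncomputable def t80 : Tre :=
  (.N [0,-3,1,0,-1] (-1) ⟨0,[(3,0)]⟩ ⟨0,[(2,0)]⟩ (.x 0 ⟨59,[(16,12),(5,9),(5,12),(6,11),(0,19),(6,
  67),(1,23),(3,47)]⟩ ⟨0,[(0,0)]⟩))

theorem ok80 : chk K t80 l83 = true := by decide +kernel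

noncomputable def t81 : Tre :=
  (.N [0,0,1,-1,2] (-1) ⟨0,[(7,0)]⟩ ⟨0,[(13,0)]⟩ (.x 1 ⟨0,[(0,0)]⟩ ⟨31,[(2,11),(14,14),(5,0),(0,1),
  (4,14),(0,34),(5,15),(0,3)]⟩))

theorem ok81 : chk K t81 l84 = true := by decide +kernel

noncomputable def t82 : Tre :=
  (.N [0,-2,0,1,2] (-2) ⟨0,[(1,0)]⟩ ⟨0,[(0,0)]⟩ (.x 2 ⟨0,[(2,0)]⟩ ⟨11,[(20,4),(5,1),(4,11),(0,4),(0,
  11),(6,3),(6,3)]⟩))

theorem ok82 : chk K t82 l87 = true := by decide +kernel

noncomputable def t83 : Tre :=
  (.N [0,0,1,-1,2] (-1) ⟨0,[(12,0)]⟩ ⟨0,[(18,0)]⟩ (.i (-1) ⟨0,[(1,0)]⟩ ⟨0,[(0,0)]⟩))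

theorem ok83 : chk K t83 l89 = true := by decide +kernel

open Helper55.PC in
noncomputable def t84n : Helper55.PC.Ten :=
  (s
  70246888842647202292959415182488747050080793073371996356189187680943604509815010295083382785084105488030121054149930490640518286992422590272650290603977508625023275262682883092553636175619815512824710969682767534008779993799262348705132970018651252463186013614092769190953055875926490494842771372632473385909596305833497331685823237496340968035359341195668862365568680106627037982164566267672096263549259038777217000716993568347636260628958475018119510922962115525488895143925805035833604132374861792328534022083426679730664695263602602254027966141083968995343694783727283725046746938298905136077068177980821997501581498081298642356775437730433)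

noncomputable def t84 : Tre := Helper55.PC.toT t84n

theorem ok84 : chk K t84 r89 = true :=
  Helper55.PC.chkN_sound K t84n r89 (by decide +kernel)

open Helper55.PC in
noncomputable def t85n : Helper55.PC.Ten :=
  (s
  8883254285037555522933600741316967977943525294060420483199927163576006382854926358191983991481041836308252812889823503803619487506681015676478172624250583079948884832553801843033869700723936162937132876729427915080999102326737925230754225334564115568665575466976077493492698282282252396179001569183615392461994476039517854625242157984018879218136842724410393483497822387434648582522610593955954929762505587611934241005215785085643871215130517465923964389122802596134647582589428437180168175405614592387720739981825497385644276806502162202534628070109989102101910829469896499867222833146582588186225050422299944872450283304649345)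

noncomputable def t85 : Tre := Helper55.PC.toT t85n

theorem ok85 : chk K t85 r88 = true :=
  Helper55.PC.chkN_sound K t85n r88 (by decide +kernel)

noncomputable def t86 : Tre :=
  (.N [0,1,0,0,7] (-3) ⟨0,[(2,0)]⟩ ⟨0,[(1,0)]⟩ (.x 2 ⟨646,[(2,83),(1,880),(2,802),(14,293),(9,37),
  (5,1),(5,1),(5,1),(0,880),(2,77),(2,77)]⟩ ⟨0,[(0,0)]⟩))

theorem ok86 : chk K t86 l92 = true := by decide +kernel

noncomputable def t87 : Tre :=
  (.N [0,1,0,0,7] (-3) ⟨0,[(3,0)]⟩ ⟨0,[(2,0)]⟩ (.x 3 ⟨0,[(0,0)]⟩ ⟨83,[(3,9),(19,34),(3,4),(1,13),(6,
  251),(6,27),(6,27)]⟩))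

theorem ok87 : chk K t87 l93 = true := by decide +kernel

noncomputable def t88 : Tre :=
  (.N [0,0,1,-1,2] (-1) ⟨0,[(15,0)]⟩ ⟨0,[(21,0)]⟩ (.i 0 ⟨0,[(0,0)]⟩ ⟨0,[(1,0)]⟩))

theorem ok88 : chk K t88 l95 = true := by decide +kernel

open Helper81.PXd in
noncomputable def t89n : Helper81.PXd.Ten :=
  (s
  7346820549744636858637055825603593069441610635645218073753008742825612836324199686584509334684572870270868909126891877982554894568883914181693753226896055331336909586629977446245349834021184171075662844913412165573098174788071050738021412559612897230767028634642394031929090477853478363798484572661982513170707792322586960170870661969188196744044192069319808135779456759437936847163615648212375563031744841126665274502793093231391819751376303886986079818506460606183372211361606658690955441377375383509893401238543281233182913190155351911608516872062996061211276003778826678898728103759182123999424499862152645956950389024355328865521051063853569107892156881965820714596211081579137012730414113855885993983859371963769072798754886325161538081644335778175097839990531637773612792719630868936876115198978926058354300444768734179699181791833426680134713500755616346122962010191065499688219862600527595324421348494961182613189223133447376429901124173324511587025269805883801723144469675830527217250323888376399399089722248722514047946642048563743459633760567937)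

noncomputable def t89 : Tre := Helper81.PXd.toT t89n

theorem ok89 : chk K t89 r95 = true :=
  Helper81.PXd.chkN_sound K t89n r95 (by decide +kernel)

noncomputable def t90 : Tre :=
  (.N [0,0,1,-1,2] (-1) ⟨0,[(15,0)]⟩ ⟨0,[(21,0)]⟩ (.i (-1) ⟨0,[(0,0)]⟩ ⟨5,[(4,2),(3,5),(2,4),(3,7),
  (1,13),(9,4),(0,5),(18,8),(5,0),(1,11)]⟩))

theorem ok90 : chk K t90 l96 = true := by decide +kernel

open Helper81.PXd in
noncomputable def t91n : Helper81.PXd.Ten :=
  (s
  7346820549744636858637055825603593069441610635645218073753008742825612836324199686584509334684572870270868909126891877982554894568883914181693753226896055331336909586629977446245349834021184171075662844913412165573098174788071050738021412559612897230767028634642394031929090477853478363798484572661982513170707792322586960170870661969188196744044192069319808135779456759437936847163615648212375563031744841126665274502793093231391819751376303886986079818506460606183372211361606658690955441377375383509893401238543281233182913190155351911608516872062996061211276003778826678898728103759182123999424499862152645956950389024355328865521051063853569107892156881965820714596211081579137012730414113855885993983859371963769072798754886325161538081644335778175097839990531637773612792719630868936876115198978926058354300444768734179699181791833426680134713500755616346122962010191065499688219862600527595324421348494961182613189223133447376429901124173324511587025269805883801723144469675830527217250323888376399399089722248722514047946642048563743459633760567937)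

noncomputable def t91 : Tre := Helper81.PXd.toT t91n

theorem ok91 : chk K t91 r96 = true :=
  Helper81.PXd.chkN_sound K t91n r96 (by decide +kernel)

noncomputable def t92 : Tre :=
  (.N [0,0,1,-1,2] (-1) ⟨0,[(12,0)]⟩ ⟨0,[(18,0)]⟩ (.i (-1) ⟨0,[(0,0)]⟩ ⟨0,[(3,0),(1,0),(6,0),(1,2),
  (9,0),(0,0),(18,1),(7,1)]⟩))

theorem ok92 : chk K t92 l97 = true := by decide +kernel

noncomputable def t93 : Tre :=
  (.N [0,0,1,-1,2] (-1) ⟨0,[(13,0)]⟩ ⟨0,[(19,0)]⟩ (.i 1 ⟨0,[(20,0),(16,0),(19,1)]⟩ ⟨0,[(0,0)]⟩))

theorem ok93 : chk K t93 l98 = true := by decide +kernel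

noncomputable def t94 : Tre :=
  (.N [0,0,1,-1,2] (-1) ⟨0,[(15,0)]⟩ ⟨0,[(21,0)]⟩ (.i 0 ⟨0,[(0,0)]⟩ ⟨0,[(1,0)]⟩))

theorem ok94 : chk K t94 l100 = true := by decide +kernel

open Helper81.PXd in
noncomputable def t95n : Helper81.PXd.Ten :=
  (s
  55697908636900308838109225186007411205696936067404640933767196303127672081858850038807585542856064335110392570030903408661207391513418662859347704237307499173079227944416852714603087090743043878823886612967647953664667333921795849204976648564668005062618567090814601497882094857295446125105302690626023668793413541165894362153249688182267403786754641557705829873877241374109034554156875651486578105097512620535684537220540448996600747238486948899101334070881611144233645717168650779186691311157306716187950333827953198066973295497788517081313600150912308962982714759405211317137930126338773285581581131574929402510648511339600169306886615515165738584636321544588896037058763935977430271552884993806068896009114457390564195538181944545031355170950515037017135624654062996509148793983884737115956292657730923945823106003233235962378682677203763044426158477420043419626549927740033)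

noncomputable def t95 : Tre := Helper81.PXd.toT t95n

theorem ok95 : chk K t95 r100 = true :=
  Helper81.PXd.chkN_sound K t95n r100 (by decide +kernel)

open Helper81.PXd in
noncomputable def t96n : Helper81.PXd.Ten :=
  (s
  55697908636900308838109225186007411205696936067404640933767196303127672081858850038545671636933101271546418480204229413891901490212070235544974392478686347489541246569269794817353726522592142368389571147806239450734014652276477285844271058351179477004442200104345013938278375666998142153556492616642819048276667303502035207964978287404290010356336475635678846468305366918159536452427645270444200904184119935234589360714681350680690089615974249554925444422500770228357149162707990305871219614699233687110918938352515521828755931677232580066020454948457104921371145929931823562733023229470969518456303407496526009636770814755175737777002921639934305628711479261121445408910139463638251624514069379568015118014584256918702134628354370323974290753742524263774013724501257143121813594234048100909951772236650023698166276853142025815533005678118988597476041286002280102440510105322113)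

noncomputable def t96 : Tre := Helper81.PXd.toT t96n

theorem ok96 : chk K t96 r99 = true :=
  Helper81.PXd.chkN_sound K t96n r99 (by decide +kernel)

noncomputable def t97 : Tre :=
  (.N [0,0,1,-1,2] (-1) ⟨0,[(11,0)]⟩ ⟨0,[(17,0)]⟩ (.i (-1) ⟨0,[(0,0)]⟩ ⟨5,[(1,2),(2,5),(2,4),(3,7),
  (1,13),(9,4),(0,5),(18,8),(5,0),(1,11)]⟩))

theorem ok97 : chk K t97 l101 = true := by decide +kernel

open Helper55.PC in
noncomputable def t98n : Helper55.PC.Ten :=
  (s
  249567082884451005117509990265349795812997488558593759777399091095569726815485343971343259168453989083769258323906753313796880882045479344740948889553921130198441537167585814378800389488615681208185016191171552904810808214194361105886611178513767238082446772790209596182772416436945147419493289637240388960881004080437011896780249128610408113150643128736817284503959651072511618937562910874656859072011622227299553561057228267184813860911160990471019366494518862206598956207507800797455070822625196967012770171074172816405847467122550349181206545761807509007947537781560643543883228452922059324117099875875796353877776122982171265)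

noncomputable def t98 : Tre := Helper55.PC.toT t98n

theorem ok98 : chk K t98 r101 = true :=
  Helper55.PC.chkN_sound K t98n r101 (by decide +kernel)

noncomputable def t99 : Tre :=
  (.N [0,0,1,-1,2] (-1) ⟨0,[(10,0)]⟩ ⟨0,[(16,0)]⟩ (.i (-1) ⟨0,[(1,0)]⟩ ⟨0,[(0,0)]⟩))

theorem ok99 : chk K t99 l103 = true := by decide +kernel

open Helper81.PXd in
noncomputable def t100n : Helper81.PXd.Ten :=
  (s
  41989857057409888229652547134517266779841903591816446127998109173503327187758821024249577943458555601451365104523824779769640725379209356578917853769086472656679565066446254258004453393670615964402032034176687100782562230868759796589518081466927360988962380309108182608113649242831483160059719220068665843430336371971590598738335401044734900890704086652175163499838630753354816078453143603296639839338181221020143900411778285637018280158359713470924969963066513973684128245069431178470042889994845231554698619035108405342949567313245712505265312717431315948840522786239896458088941696158612374602578702260765288553840391472923395854895152702310281540431109104374628840674329089228490344515335257828779034092816377965593711087622250249127897670274972257738734812154822247893937615416934284927766170164416199038155824466808703026081190380161)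

noncomputable def t100 : Tre := Helper81.PXd.toT t100n

theorem ok100 : chk K t100 r103 = true :=
  Helper81.PXd.chkN_sound K t100n r103 (by decide +kernel)

open Helper81.PXd in
noncomputable def t101n : Helper81.PXd.Ten :=
  (s
  908696411887669064397021248572495861699997943321925517229502981068793987019880402351309287323895268000560938915946762575422508748045928035698392003930420944754091733865285935836720284293884776819048277143742535187009223561039828991266500651293967170642276248508673378734791314997829263709120132918305789315850321939562711102454536625950971830436033487822924380789399027541917061652849500278912436557360050631509706865804177154629262722137754445791123405603587674591514207722594604124978849349190417758741153066028708740342413573053854221555283517812009959712847298942563936348417732414149733793599251572078090034278196038045650449668623004677121043023732341677162874016903570301058544129338950714847496354506887285042865233580653681014441170359843806484385504445837866039247489)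

noncomputable def t101 : Tre := Helper81.PXd.toT t101n

theorem ok101 : chk K t101 r102 = true :=
  Helper81.PXd.chkN_sound K t101n r102 (by decide +kernel)

noncomputable def t102 : Tre :=
  (.N [0,0,1,-1,2] (-1) ⟨0,[(5,0)]⟩ ⟨0,[(11,0)]⟩ (.x 1 ⟨0,[(0,0)]⟩ ⟨19,[(15,8),(5,0),(0,1),(4,8),(0,
  22),(4,11),(0,3),(0,3)]⟩))

theorem ok102 : chk K t102 l104 = true := by decide +kernel

noncomputable def t103 : Tre :=
  (.N [0,1,0,0,7] (-3) ⟨0,[(1,0)]⟩ ⟨0,[(2,0)]⟩ (.x 2 ⟨124,[(1,5),(16,20),(14,1),(0,165),(1,124),(5,
  163),(3,1),(0,124)]⟩ ⟨0,[(0,0)]⟩))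

theorem ok103 : chk K t103 l107 = true := by decide +kernel

noncomputable def t104 : Tre :=
  (.N [0,1,0,0,7] (-3) ⟨0,[(2,0)]⟩ ⟨0,[(3,0)]⟩ (.x 3 ⟨0,[(0,0)]⟩ ⟨83,[(2,9),(16,34),(3,4),(1,13),(6,
  251),(6,27),(6,27)]⟩))

theorem ok104 : chk K t104 l108 = true := by decide +kernel

noncomputable def t105 : Tre :=
  (.N [0,-2,0,1,2] (-2) ⟨0,[(2,0)]⟩ ⟨0,[(1,0)]⟩ (.x 2 ⟨0,[(0,0)]⟩ ⟨2530,[(2,101),(0,1050),(1,305),
  (15,101),(0,1172),(2,101),(2,117),(0,133),(3,2160),(8,267),(8,267)]⟩))

theorem ok105 : chk K t105 l111 = true := by decide +kernel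

noncomputable def t106 : Tre :=
  (.N [0,0,1,-1,2] (-1) ⟨0,[(13,0)]⟩ ⟨0,[(19,0)]⟩ (.i (-1) ⟨0,[(0,0)]⟩ ⟨0,[(2,0),(5,0),(4,0),(1,2),
  (9,0),(0,0),(18,1),(7,1)]⟩))

theorem ok106 : chk K t106 l112 = true := by decide +kernel

noncomputable def t107 : Tre :=
  (.N [0,0,1,-1,2] (-1) ⟨0,[(15,0)]⟩ ⟨0,[(21,0)]⟩ (.i 0 ⟨0,[(1,0)]⟩ ⟨0,[(0,0)]⟩))

theorem ok107 : chk K t107 l114 = true := by decide +kernel

open Helper81.PXd in
noncomputable def t108n : Helper81.PXd.Ten :=
  (s
  142743371197329657735983225671650790491875735897515308319032207890755608587485872646655956807955914220046598710228267479992807201799180451710116293961933545149951760509709515695890947171581745976604307918448321758220528524288040889198738394765438850557097943151122250529049247217391043194326186855569407926140372624710922813342280926186441201316545144654595283136757907920708529748693629888383923736083167307554084904040254785380001966109988553928844868410011031128708916159517084451158506131943221598507395234958861695705807373969687919276333394597866266990019687986776635349798398720751924222688324736710335999777412567844934402791422478531785802004761298986210728644526930300942280655537294891391981292951107021034084470115317182052757817069101048122285550250890634775740410576281259086064485623044002898027099504307907715420510021284693901376303326702060118830969046780870342661329280953328061692351625844055338639490565354265215729571299230734060670712798152632763080741968826607249193511682689)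

noncomputable def t108 : Tre := Helper81.PXd.toT t108n

theorem ok108 : chk K t108 r114 = true :=
  Helper81.PXd.chkN_sound K t108n r114 (by decide +kernel)

open Helper81.PXd in
noncomputable def t109n : Helper81.PXd.Ten :=
  (s
  142743371197329657735983225671650790491875735897515308319032207890755608587485695351551117596560213306141652298772170974065316211743531508937718065350477901939662596986091786961977669203697564780438610450565843489000770221200312556228389424434937308399895881645576859025924076162545572369715552283572528234153216915541358050611559749919500413278879169034515434427434644909899458876236698667961215677946777707529487654302406431094136674983509924991999114297944061109036974802769476501318173637475929141686349171740517053267524308474080698588291865013724752796739038550378556411674624153505075648875735613810868439926782731438603697255849760489941484146789499298192572371626924857012669239459698096022572591789220301485697543314952654249707764902445786732218473311861910180407521395297794588032977475505486306190662651015856336847518459857685166574640221135989784464807962031355082134050241962486283625164748547083891745260530475857751629411537905315933632125991606789165406459981773368447949983449729)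

noncomputable def t109 : Tre := Helper81.PXd.toT t109n

theorem ok109 : chk K t109 r113 = true :=
  Helper81.PXd.chkN_sound K t109n r113 (by decide +kernel)

noncomputable def t110 : Tre :=
  (.N [0,0,1,-1,2] (-1) ⟨0,[(13,0)]⟩ ⟨0,[(19,0)]⟩ (.i (-1) ⟨0,[(1,0)]⟩ ⟨0,[(0,0)]⟩))

theorem ok110 : chk K t110 l116 = true := by decide +kernel

open Helper81.PXd in
noncomputable def t111n : Helper81.PXd.Ten :=
  (s
  27910914798791566138899355779284549309503286268041723047763347476525893663087445140290511452736004261096836159465687768079013881990402399027785216534735263337259435422178420845037347264403497867685078398483677095563099724000293736499738910664171337455234419587895419840809160063773846357905501684242628410825286302081521571584579906048223413321983692651669967768619143820220371721441825609206150015189026588777944132361877402328045141543710471432298274554050043088914919090264072052080264281561202701156361798712226149994169610114339309217385561121084321992293176727658188111480679586795971682321675711248297382408382490706743112205752126092198864771808177524967102221708173347908924453636401745699433676973763440277995436887147104362324209211085969148227561784222559153255350559213113105422453601184822206759916601062283124769022645842504697127466536290185874650828013543334351159383034994686445481165565282053101520435757518000439937428456603541928465752903242731252142323395927056182601569010305)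

noncomputable def t111 : Tre := Helper81.PXd.toT t111n

theorem ok111 : chk K t111 r116 = true :=
  Helper81.PXd.chkN_sound K t111n r116 (by decide +kernel)

noncomputable def t112 : Tre :=
  (.N [0,0,1,-1,2] (-1) ⟨0,[(13,0)]⟩ ⟨0,[(19,0)]⟩ (.i 1 ⟨0,[(20,0),(16,0),(19,1)]⟩ ⟨0,[(0,0)]⟩))

theorem ok112 : chk K t112 l117 = true := by decide +kernel

noncomputable def t113 : Tre :=
  (.N [0,0,1,-1,2] (-1) ⟨0,[(15,0)]⟩ ⟨0,[(21,0)]⟩ (.i 0 ⟨0,[(0,0)]⟩ ⟨0,[(1,0)]⟩))

theorem ok113 : chk K t113 l119 = true := by decide +kernel

open Helper81.PXd in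
noncomputable def t114n : Helper81.PXd.Ten :=
  (s
  27910914798791566138899355779284549309503286268041723047763347476525893663087799730500189875527406088906728982377880779933995862101700284572581673757646549757837762469413878312863903200171860260016473334248633634002616330175750402440436851325174421769638542598986202847059502173464788007126770828236387794799597720420651097046022258582104989397315643891829665187265669841838513466355688050051566131461805788827138631837574110899775723796667729305989782778183983128258801803759287951760929270495787614798453925148915434870735741105553750593468620289367350378854475600454345987728228721289668829946853957047232502109642163519404523276897562175887500487751776901003414767508184235768147285791595336438251079297536879374769290487876159968424313544396491928361715662280008343921128921180042101485469896261855390432790307646385881915005768696522166730792747422326543383150183042364872213941112976370001615539319875995995308895827274815368137747979254378182542926516334418447490887370033533785088625476225)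

noncomputable def t114 : Tre := Helper81.PXd.toT t114n

theorem ok114 : chk K t114 r119 = true :=
  Helper81.PXd.chkN_sound K t114n r119 (by decide +kernel)

open Helper81.PXd in
noncomputable def t115n : Helper81.PXd.Ten :=
  (s
  6107188484535575293345419662319865154958016266239622224814214761978334814748524443714695673077813883950808125841277403962953865222802639187900885867665673964775533238026892637174331280025370652961296861325182915652614498495508857567743161765709867123059151763096427170514329725188563202264729255857246040057472828335038673748287580938767356665146062527507910275658818529166882571355871241186332155743446599094765025610121605988434452978392219992219668674881679388466219754051682984034177981093388825058505013881137538021881549950719100487598057904123112004442802900099655271457441603914507408139216137962867649217834876117051802688451987635561597199448499694668952484309228543837650549846888911888867694282698078410230496564170418445650303456366552896572593291052607980411250153572627194384610006861823367400697396763379609974491174371810456761680722620520063846873929284096646417683741069951936805336848044033716931759363538409143549957983848284027407416408480622192277568887489173632809939501697)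

noncomputable def t115 : Tre := Helper81.PXd.toT t115n

theorem ok115 : chk K t115 r118 = true :=
  Helper81.PXd.chkN_sound K t115n r118 (by decide +kernel)

noncomputable def t116 : Tre :=
  (.N [0,0,1,-1,2] (-1) ⟨0,[(12,0)]⟩ ⟨0,[(18,0)]⟩ (.i 0 ⟨0,[(0,0)]⟩ ⟨0,[(1,0)]⟩))

theorem ok116 : chk K t116 l121 = true := by decide +kernel

open Helper81.PXd in
noncomputable def t117n : Helper81.PXd.Ten :=
  (s
  27910914798791566138899355779284549309503286268041723047763347476525893663087267845185672241340303347191889748009591262151522891934753456255386987923279620126970271898560692111124069296519316671519380930601198826343341420912565403529389940333669795298032358082350028337683989008928375533294867112245748718838130592911956808853858729781282625284317717031590119059295880809411300848984894388783441957052636988753346882624029048042179850417231842495452520441983073069242977733516464102239931787093910244335315735493881507555886544618732088529344031536942807799012527291260109173356905019549123108509086588348829822557752654300412406670179408050354546913836377836948945948808167903979313037558804950330024975811876720729608510086782576559274157044430707758160484845193834557922461378229648607390945453646305614923479747770231746196031084415495962325803430724115540284666928793819090632103996003844667413978687985081654626205722639592975837268695278123801427166096696887654468041408873817381358040777345)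

noncomputable def t117 : Tre := Helper81.PXd.toT t117n

theorem ok117 : chk K t117 r121 = true :=
  Helper81.PXd.chkN_sound K t117n r121 (by decide +kernel)

open Helper81.PXd in
noncomputable def t118n : Helper81.PXd.Ten :=
  (s
  27910914798791566138899355779284549309503286268041723047763347476525893663087090550080833029944602433286943336553494756224031901879104513482988759311823976916681108374942963377210791328635135475353683462718720557123583117824837070559040970003168253140830296576804636834558817954082904708684232540248869026850974883742392046123137553514341837246651741411510270349972617798602229976527963168360733898916247388728749632886180693756314559290753213558606766329916103049571036376768856152399599292626617787514269672275536865117603479123124867841302501952801293605731877854862030235233130452302274534696497465449362262707122817894081701134606690008510229055864578148930789675908162460049701621481208154960616274649990001181221583286418048756224104877775446368093407906165109962589572197246184109359437306107789023087042894478180367623039522988487227524140325158045205918505844044303830104824957013002889346791810688110207731975687761185511737108933952705674388579290151044056793759421820578580114512544385)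

noncomputable def t118 : Tre := Helper81.PXd.toT t118n

theorem ok118 : chk K t118 r120 = true :=
  Helper81.PXd.chkN_sound K t118n r120 (by decide +kernel)

noncomputable def t119 : Tre :=
  (.N [0,0,1,-1,2] (-1) ⟨0,[(9,0)]⟩ ⟨0,[(15,0)]⟩ (.i (-1) ⟨0,[(1,0)]⟩ ⟨0,[(0,0),(3,0),(4,0),(1,2),
  (9,0),(0,0),(18,1),(7,1)]⟩))

theorem ok119 : chk K t119 l123 = true := by decide +kernel

noncomputable def t120 : Tre :=
  (.N [0,0,1,-1,2] (-1) ⟨0,[(10,0)]⟩ ⟨0,[(16,0)]⟩ (.i (-1) ⟨0,[(2,0)]⟩ ⟨0,[(0,0)]⟩))

theorem ok120 : chk K t120 l124 = true := by decide +kernel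

open Helper55.PC in
noncomputable def t121n : Helper55.PC.Ten :=
  (s
  44246317101647653451264339982248061474048552122526400530452524618718357833840323089881604329422399619393995066171630511068894789424135987631829029374924282231718171685931679523260928957111039046730648899183797604953922457837386204797344015161225217033973615298806104973692898442462244179955500464191908672300868302009415881091497086545730906627733843981035358650294997839379643350624219977948977862051945016561709230208405455055871100835689797046366560247804117943971921179252400997083818558962518603821310128597989854974686195252374486216875087607688702980538862928513)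

noncomputable def t121 : Tre := Helper55.PC.toT t121n

theorem ok121 : chk K t121 r124 = true :=
  Helper55.PC.chkN_sound K t121n r124 (by decide +kernel)

open Helper55.PC in
noncomputable def t122n : Helper55.PC.Ten :=
  (s
  5027743748807020173618428122787902915577171349015664622322203104946211196318156001488318216934349882726528549686110693044623889734844127471990855517846697951832432069265026788867331595289564301405765024663856671753425630081030026803508522188341513956300076662922843151921378201159790515551808142534823442575314788128128487931977616029368590304866958684752220187374135829051761227829445487983238462572784054629305842197834544548003429722385299828704553677241002240320180231354571265097971613644635929058299272979367598026216914005273707214306562923385848449)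

noncomputable def t122 : Tre := Helper55.PC.toT t122n

theorem ok122 : chk K t122 r122 = true :=
  Helper55.PC.chkN_sound K t122n r122 (by decide +kernel)

noncomputable def t123 : Tre :=
  (.N [0,-2,0,1,2] (-2) ⟨0,[(1,0)]⟩ ⟨0,[(0,0)]⟩ (.x 2 ⟨0,[(3,0)]⟩ ⟨273,[(1,9),(2,29),(14,9),(0,114),
  (2,9),(2,43),(4,263),(1,288),(6,77),(6,77)]⟩))

theorem ok123 : chk K t123 l128 = true := by decide +kernel

noncomputable def t124 : Tre :=
  (.N [0,1,0,0,5] (-2) ⟨0,[(1,0)]⟩ ⟨0,[(0,0)]⟩ (.x 2 ⟨0,[(4,0)]⟩ ⟨83,[(6,9),(15,34),(3,4),(1,13),(6,
  167),(6,27),(6,27)]⟩))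

theorem ok124 : chk K t124 l130 = true := by decide +kernel

noncomputable def t125 : Tre :=
  (.N [0,0,1,-1,2] (-1) ⟨0,[(14,0)]⟩ ⟨0,[(20,0)]⟩ (.i (-1) ⟨0,[(1,0)]⟩ ⟨0,[(0,0)]⟩))

theorem ok125 : chk K t125 l132 = true := by decide +kernel

open Helper55.PC in
noncomputable def t126n : Helper55.PC.Ten :=
  (s
  804806077863429401765755915669150351616898787369640389467453840602624248571393297733231165537816768598333839017498295509108048737644687687562568085123278481236372329123960253462279356246932603195951062098213829004130851965217440804596123762790454891495873743166256642282161721545397338686906035002055801446207554522817989998857752221725923301725028385233067288674149551735407657432822738462265549077075596491871251414076871701441703268558650622018901094897448643531890663209098351061397432871370772346675217549322362506990798114642118457165993044637763137137861542723028585772644167028470194464615423111895813642295001949940641379208135297)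

noncomputable def t126 : Tre := Helper55.PC.toT t126n

theorem ok126 : chk K t126 r132 = true :=
  Helper55.PC.chkN_sound K t126n r132 (by decide +kernel)

noncomputable def t127 : Tre :=
  (.N [0,0,1,-1,2] (-1) ⟨0,[(15,0)]⟩ ⟨0,[(21,0)]⟩ (.i 0 ⟨0,[(1,0)]⟩ ⟨0,[(0,0)]⟩))

theorem ok127 : chk K t127 l134 = true := by decide +kernel

open Helper81.PXd in
noncomputable def t128n : Helper81.PXd.Ten :=
  (s
  83688124691268629316499165100580228000964134275265149435745048357428255853973374622342257535734501239199728006940503750177359820410682827120673027638415392866249901477129326912681127226794585771721605854268782445701845390459293250904462226157288362617322424985816929263237773027954280796563656937271277923342680208888198379865884144873144034132365880370613121674583925170000513749078383264935057420974398679556129111683824778373241478697861473827424065612811891066283631483015092955367903955527095693594308050266486898174309094901675893285219872338330011779282341226672783312237633301428844169932132285341560511752970880463164413647978918602637960643236542400334663923297060457389508502293937970313115944833687092278151960935687298709211701122851867427102876896032413183367516409171871261248966206674415969947794156865279913144330373992766042448855681)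

noncomputable def t128 : Tre := Helper81.PXd.toT t128n

theorem ok128 : chk K t128 r134 = true :=
  Helper81.PXd.chkN_sound K t128n r134 (by decide +kernel)

open Helper55.PC in
noncomputable def t129n : Helper55.PC.Ten :=
  (s
  804806077863429401765755915669150351616898787369640389467453840602624248571393297733231165537816768598333839017498295509108048737644687687562568085123278481236372329123960253462279356246932603195951062098213829004130851965217440804596123762790454891495873743166256642282161721545397338686906035002055801446207554522817989998857752221725923301725028385233067288674149551735407657432822738462265549077075596491871251414076871701441703268558650622018901094897448643531890663209098351061397432871370772346675217549322362506990798114642118457165993044637763137137861542723028585772644167028470194464615423111895813642295001949940641379208135297)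

noncomputable def t129 : Tre := Helper55.PC.toT t129n

theorem ok129 : chk K t129 r133 = true :=
  Helper55.PC.chkN_sound K t129n r133 (by decide +kernel)

noncomputable def t130 : Tre :=
  (.N [0,0,1,-1,2] (-1) ⟨0,[(13,0)]⟩ ⟨0,[(19,0)]⟩ (.i (-1) ⟨0,[(1,0)]⟩ ⟨0,[(0,0)]⟩))

theorem ok130 : chk K t130 l136 = true := by decide +kernel

open Helper55.PC in
noncomputable def t131n : Helper55.PC.Ten :=
  (s
  804806077863429401765755915669150351616898787369640389467453745631479023557866170286898475617524700387082492902968764948546520426090325416227280133202341808622162258066613305423681917231770125432232849408154886636268938659256841412609866074362424031323972631476322750704451302568657273257094668794322618010955005035061857884741687293345659864880701282614376243273039927207276330042127062678868874338866150232486138078306278380737888226573162967316833659093202284446531064689411507958481818259527118996144671631911400034939860194359808371175506099616732889735432875196262037127800454012156132596113400535845484149930879004363768756928774785)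

noncomputable def t131 : Tre := Helper55.PC.toT t131n

theorem ok131 : chk K t131 r136 = true :=
  Helper55.PC.chkN_sound K t131n r136 (by decide +kernel)

noncomputable def t132 : Tre :=
  (.N [0,0,1,-1,2] (-1) ⟨0,[(14,0)]⟩ ⟨0,[(20,0)]⟩ (.i 0 ⟨0,[(1,0)]⟩ ⟨0,[(0,0)]⟩))

theorem ok132 : chk K t132 l138 = true := by decide +kernel

open Helper81.PXd in
noncomputable def t133n : Helper81.PXd.Ten :=
  (s
  83688124691268629316499165100499169573217237633723755866512003694262809835691379901143965309470917826493600099264510760778515549251110495085673224959476378573127511327205058769566351895915139338355047490892801965140743026638842172085087362125451687645372035167413438695379363544269738399854716347361114607176967394768167073139964900292554373333337725286969573286559176295207547189740173778781529396506812749684006247418183201193110806377964156300637939295121377011462220860108737500774276628817714485156069455448419919212390255752333701716779308506310558819288948814513854628257154363747891533634861239559119610266594001028628219781422169311991330892710211655934717617287356001509709756735518471783060857055213350930476970275687817719237488256575850494297100440476447974112072390374322308805290795725384222541450270093468038455708789396501412407411329)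

noncomputable def t133 : Tre := Helper81.PXd.toT t133n

theorem ok133 : chk K t133 r138 = true :=
  Helper81.PXd.chkN_sound K t133n r138 (by decide +kernel)

open Helper55.PC in
noncomputable def t134n : Helper55.PC.Ten :=
  (s
  804806077863429401765755915669150351616898787369640389467453745631479023557866170286898475617524700387082492902968764948546520426090325416227280133202341808622162258066613305423681917231770125432232849408154886636268938659256841412609866074362424031323972631476322750704451302568657273257094668794322618010955005035061857884741687293345659864880701282614376243273039927207276330042127062678868874338866150232486138078306278380737888226573162967316833659093202284446531064689411507958481818259527118996144671631911400034939860194359808371175506099616732889735432875196262037127800454012156132596113400535845484149930879004363768756928774785)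

noncomputable def t134 : Tre := Helper55.PC.toT t134n

theorem ok134 : chk K t134 r137 = true :=
  Helper55.PC.chkN_sound K t134n r137 (by decide +kernel)

noncomputable def t135 : Tre :=
  (.N [0,0,1,-1,2] (-1) ⟨0,[(10,0)]⟩ ⟨0,[(16,0)]⟩ (.i (-1) ⟨0,[(0,0)]⟩ ⟨0,[(1,0),(3,0),(4,0),(1,2),
  (9,0),(0,0),(18,1),(7,1)]⟩))

theorem ok135 : chk K t135 l139 = true := by decide +kernel

open Helper55.PC in
noncomputable def t136n : Helper55.PC.Ten :=
  (s
  804806077863429401765755915669150351616898787369640389467453460718043348517284787947900405856648495753328454559380173266861935491427238602221416277439531790779532044894572461307889600186282692141078211337978059532683198741375043236651093009078331450808269296406521075971320045638437076967660570171123067705197356571793461542393492508204869554347719974758303107069711053226649357078047032160662205580632164191805934559938016765077720929288968509430889031548829316098451554014924619489029440821751808768651786155152673842018018073834469126149174266140866317169975810791858368379169269404543864690147289832892416122342053466631341257325019777)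

noncomputable def t136 : Tre := Helper55.PC.toT t136n

theorem ok136 : chk K t136 r139 = true :=
  Helper55.PC.chkN_sound K t136n r139 (by decide +kernel)

noncomputable def t137 : Tre :=
  (.N [0,-2,0,1,2] (-2) ⟨0,[(1,0)]⟩ ⟨0,[(0,0)]⟩ (.x 2 ⟨0,[(3,0)]⟩ ⟨1794,[(1,73),(0,1050),(1,221),
  (14,73),(0,850),(2,73),(2,64),(0,55),(3,1608),(8,111),(8,111)]⟩))

theorem ok137 : chk K t137 l141 = true := by decide +kernel

noncomputable def t138 : Tre :=
  (.N [0,1,0,0,5] (-2) ⟨0,[(2,0)]⟩ ⟨0,[(1,0)]⟩ (.x 1 ⟨124,[(6,124),(0,11),(15,41),(10,124),(3,3),(0,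
  81),(7,77),(3,3)]⟩ ⟨0,[(0,0)]⟩))

theorem ok138 : chk K t138 l144 = true := by decide +kernel

noncomputable def t139 : Tre :=
  (.N [0,0,1,-1,2] (-1) ⟨0,[(15,0)]⟩ ⟨0,[(21,0)]⟩ (.i (-1) ⟨0,[(1,0)]⟩ ⟨0,[(0,0)]⟩))

theorem ok139 : chk K t139 l146 = true := by decide +kernel

open Helper81.PXd in
noncomputable def t140n : Helper81.PXd.Ten :=
  (s
  5126423057682855368594298653262657341775050768860565044337708383722740614113147790951642537502615540551438954140403145425187361130437488460490075141046178993213205479496171766587531245985493293886433046385135701278217492790298632992764297420774062035139849906608786049325491153884073788086303300708387774098105740075775588152222616639090491353629811984139472023558857582287921893598396019619807693399334383264100232449404901552624993882184435303687918163654295786551486185639418776463746570655136007167827243867900005592452690600101776755165344025752370005380602596265712352624935866585935444251625193070703653601936085804338331339230677070355534869663269350647915379596380685284918476767836503903736967870108477092684345065979909824561347194633144960982503943177192662315291731543167440609564997606416383177175395999617182692955876236402666949315213730918567444443210470045389220620010207156073832054365329672923689657804787982183630836038811172156614902401)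

noncomputable def t140 : Tre := Helper81.PXd.toT t140n

theorem ok140 : chk K t140 r146 = true :=
  Helper81.PXd.chkN_sound K t140n r146 (by decide +kernel)

open Helper81.PXd in
noncomputable def t141n : Helper81.PXd.Ten :=
  (s
  380140678523547564275952583413476162300595337710270111743047541420455278458392216910196862041812557066586328920525076827444134773697560212809455085260327628913510019045681970260724174166048347589154822802020141149500477458272973871859226857424205203069936136825093298597446781289963077911853465260859378518491520536640976900756191229716574888027040351690456251403644289313584937821661457469857166714597718623869602808658923224858812504706140275198270350576427932376688496594288720852228348679318822734678434418517357607217091395859787542812827884398041276658165518893300439397693668672660236781489778633556510155058945794692638584223839855043706392566082100125227507533521611432056749716921560080563240298463673025458648567926564674038908445491358501981769295583886014443257442409222714432250903366997388480767442911323545417590483543308050195104629465941843320399545210954283611134206843112784414042125205748252916755780504431396975217264861499097729)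

noncomputable def t141 : Tre := Helper81.PXd.toT t141n

theorem ok141 : chk K t141 r145 = true :=
  Helper81.PXd.chkN_sound K t141n r145 (by decide +kernel)

noncomputable def t142 : Tre :=
  (.N [0,0,1,-1,2] (-1) ⟨0,[(14,0)]⟩ ⟨0,[(20,0)]⟩ (.i (-1) ⟨0,[(1,0)]⟩ ⟨0,[(0,0)]⟩))

theorem ok142 : chk K t142 l148 = true := by decide +kernel

open Helper81.PXd in
noncomputable def t143n : Helper81.PXd.Ten :=
  (s
  1222234501286233751438688910785354934161913578238621960720469566279111054924277121301604259826716189456126208421089210859363874420789538625449122295839468721404454362414744484889486174240581651397552672890625313277700503784765006677903356764734252564209369145757228985853124792132136330017910823063970475722050569876730813135600699268173561911220200177573474136085923347172783420760475404484496347271767716006017501656284089755264824316904192413230555183607003802878201163443131604620605034006987187461959115594325164441581410855890241481451875519459826089115627132602743169103001312853784556740817738195136402095227046099600612447642181157860588047715394213023974857812678302700948186401375039384317703392191798529982500509094619730064134683653303510431190841993942585469066675009361762690278349505594115735082289548677593781207025292127384280198191078551437709009943645282557452067945844560926788148968881799723129975098761318086573216296872937783937)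

noncomputable def t143 : Tre := Helper81.PXd.toT t143n

theorem ok143 : chk K t143 r148 = true :=
  Helper81.PXd.chkN_sound K t143n r148 (by decide +kernel)

noncomputable def t144 : Tre :=
  (.N [0,0,1,-1,2] (-1) ⟨0,[(15,0)]⟩ ⟨0,[(21,0)]⟩ (.i 0 ⟨0,[(1,0)]⟩ ⟨0,[(0,0)]⟩))

theorem ok144 : chk K t144 l150 = true := by decide +kernel

open Helper81.PXd in
noncomputable def t145n : Helper81.PXd.Ten :=
  (s
  292849726339272825230666389694091503629562132528124534204332280021692911006408026812047314030677954302790995671035412366629214228162891644780619147207290863108972780696455492975122281974417203050846261610016417512774450399168797505763494144653412146500983539106158437472193949501481485067039827232735889746727120947997518624882667038352290752371749950764318959567996972910722073949389128723101193639352947318136565007102023351146296987831570852489075071957499827108890387440354098222253364729264022174404714514942263293609700003445401592678801032152769349984106432758007122673407872315655175441233172531022228964621334979847352704865979603449163029764217073286109315857194458992086226355843377209922592872060785940496309707629310112638440638254276884680001799010880398638335640795023419733696486804778493708117011136701505274392471589861527706909196387584899662384807091966922162771943267816196463458027306713261015681)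

noncomputable def t145 : Tre := Helper81.PXd.toT t145n

theorem ok145 : chk K t145 r150 = true :=
  Helper81.PXd.chkN_sound K t145n r150 (by decide +kernel)

open Helper81.PXd in
noncomputable def t146n : Helper81.PXd.Ten :=
  (s
  1222234501286233751438688910785354934161913578238621960720469566279111054924277121301604259826716189456126208421089210859363874420789538625449122295839468721404454362414744484889486174240581651397552672890625313277700503784765006677903356764734252564209369145757228985853124792132136330017910823063970475722050569876730813135600699268173561911220200177573474136085923347172783420760475404484496347271767716006017501656284089755264824316904192413230555183607003802878201163443131604620605034006987187461959115594325164441581410855890241481451875519459826089115627132602743169103001312853784556740817738195136402095227046099600612447642181157860588047715394213023974857812678302700948186401375039384317703392191798529982500509094619730064134683653303510431190841993942585469066675009361762690278349505594115735082289548677593781207025292127384280198191078551437709009943645282557452067945844560926788148968881799723129975098761318086573216296872937783937)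

noncomputable def t146 : Tre := Helper81.PXd.toT t146n

theorem ok146 : chk K t146 r149 = true :=
  Helper81.PXd.chkN_sound K t146n r149 (by decide +kernel)

noncomputable def t147 : Tre :=
  (.N [0,0,1,-1,2] (-1) ⟨0,[(13,0)]⟩ ⟨0,[(19,0)]⟩ (.i 0 ⟨0,[(0,0)]⟩ ⟨0,[(1,0)]⟩))

theorem ok147 : chk K t147 l152 = true := by decide +kernel

open Helper81.PXd in
noncomputable def t148n : Helper81.PXd.Ten :=
  (s
  1222234501286233751438688910785354934161913578238621960720469566279111054924269357446662275627578377735552074153521818519439532934854746239009245811178959617354863076374781879737923524651156394882270928823124629660989564624455304180514627543146564221145481535063617486771087241743541261432786839707522265984462129306012993994613288413883303519088559174756355902233260745210095458559198487023164371324515519614075780362723438306433645720174640959706125761290245369476547202925414971223733765756861411435060326715402173601094397292043801961711098012586902639079796450779723667471088104993961845975186041333924889696515983452663764928686482696799528250368991517114931147847045275966863230537632145438897780689532551266775900867115660731044412304038798002151938032365703232518958951704929934568919544698357738215385853330019444164996489658616699620623245271257159891146878205720691893225393268628803798057750485458745377699278409943675999017777807315960449)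

noncomputable def t148 : Tre := Helper81.PXd.toT t148n

theorem ok148 : chk K t148 r152 = true :=
  Helper81.PXd.chkN_sound K t148n r152 (by decide +kernel)

noncomputable def t149 : Tre :=
  (.N [0,0,1,-1,2] (-1) ⟨0,[(14,0)]⟩ ⟨0,[(20,0)]⟩ (.i (-1) ⟨0,[(1,0)]⟩ ⟨0,[(0,0)]⟩))

theorem ok149 : chk K t149 l154 = true := by decide +kernel

open Helper81.PXd in
noncomputable def t150n : Helper81.PXd.Ten :=
  (s
  1222234501286233751438688910785354934161913578238621960720469566279111054924277121301604259826716189456126208421089210859363874420789538625449122295839468721404454362414744484889486174240581651397552672890625313277700503784765006677903356764734252564209369145757228985853124792132136330017910823063970475722050569876730813135600699268173561911220200177573474136085923347172783420760475404484496347271767716006017501656284089755264824316904192413230555183607003802878201163443131604620605034006987187461959115594325164441583267693926985631441805625786054315915116080733719899568377360205962743870548526343677238060066397071564842228393193554903446035453415050445627040931037019302443366202103108883712897077253981067820706260986920029111230287255051068124448362763144384415433651640170214789154396580330336234587876991274452255872300950732269127947481074279427322110832996062523996910494124539865544589850195234064347918901216998918956911183748641325697)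

noncomputable def t150 : Tre := Helper81.PXd.toT t150n

theorem ok150 : chk K t150 r154 = true :=
  Helper81.PXd.chkN_sound K t150n r154 (by decide +kernel)

open Helper81.PXd in
noncomputable def t151n : Helper81.PXd.Ten :=
  (s
  292849726339272825230666389694091503629562132528124534204332279811253201132416157906840604031190901318543043394996256023374502342382753709178994632775469128007369446949658488773493779602363105693244869396266256101463347089634237117912270709856568109888945680852191361276534742174586617693764033412871092447415477561313051639233832450277505586675399621093184091244216147862209552676139494950110385682291077484377545298486630952406605809959336579095283514181980624131369166764094506584738982913595925293647045913315527498848232043688137238027495292196457502446021010692923458703739512383610348352192190067870384182613152468467375547010496846609559599597724348016765156451213422206776423486903428669425715823053776220255733280473831922630977014995052095539401719355568633090987238785816224212954243474335951668141098861228711754031765300639353145572374978425989813418349658359981131258304060303271457709539182000441655937)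

noncomputable def t151 : Tre := Helper81.PXd.toT t151n

theorem ok151 : chk K t151 r153 = true :=
  Helper81.PXd.chkN_sound K t151n r153 (by decide +kernel)

noncomputable def t152 : Tre :=
  (.N [0,0,1,-1,2] (-1) ⟨0,[(10,0)]⟩ ⟨0,[(16,0)]⟩ (.i (-1) ⟨0,[(0,0)]⟩ ⟨0,[(1,0),(3,0),(4,0),(1,2),
  (9,0),(0,0),(18,1),(7,1)]⟩))

theorem ok152 : chk K t152 l155 = true := by decide +kernel

open Helper81.PXd in
noncomputable def t153n : Helper81.PXd.Ten :=
  (s
  1222234501286233751438688910785354934161913578238621960720469566279111054924246065881836323030164942573829671350819641499666508477050369079689616357197432305206089218254894064283235575882880625336425696620622578810856747143526196688348439878383499191953818702982782989524974590577756055677414889638177636771696807593859536571651055851012528342693638003314551616898161642475992975799909524940459706984315161549127165008368402798348543833033385972661363720925229769283005008542891771301790895350696629172872719729161683480326698806712761556398997401803453285495075272016318862450699349905834675563469758929164784244266400723035981075996927644748659698220000309200592421584121488228486646590938031975715005263625990544282064977732558608458199678561210967304608842008457554829808249915314382369342983194059853493357080967453010073070149967065618304396900537746786983091485727893778538016897654718563209958736313123258584041652130560298564156523639871636097)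

noncomputable def t153 : Tre := Helper81.PXd.toT t153n

theorem ok153 : chk K t153 r155 = true :=
  Helper81.PXd.chkN_sound K t153n r155 (by decide +kernel)

noncomputable def t154 : Tre :=
  (.N [0,1,0,0,5] (-2) ⟨0,[(2,0)]⟩ ⟨0,[(0,0)]⟩ (.x 1 ⟨124,[(4,11),(15,41),(14,3),(0,81),(1,124),(5,
  77),(3,3),(0,124)]⟩ ⟨0,[(1,0)]⟩))

theorem ok154 : chk K t154 l158 = true := by decide +kernel

noncomputable def t155 : Tre :=
  (.N [0,0,1,-1,2] (-1) ⟨0,[(12,0)]⟩ ⟨0,[(18,0)]⟩ (.i (-1) ⟨0,[(1,0)]⟩ ⟨0,[(0,0)]⟩))

theorem ok155 : chk K t155 l160 = true := by decide +kernel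

open Helper81.PXd in
noncomputable def t156n : Helper81.PXd.Ten :=
  (s
  6383903232376161841342650105094887767778029320317239414925603943940104249794267006781570678269914470942060440855808276396472726278007907399277709793541494951624984854816611303573500894517120649907328671784838076374069801371853184868438843274057871219611170261843220399639918119218575561512621909139265582456537313248413396711497153706213660950575908871328203600455580522247450053161979478281946874075697782844596624667315644107111370088246435842864246743079377745733257305691462433102401101348628558949701392157310979280850306621797939772997742019162169576377303694646910074020338715595514979800471094083280910823310455212068085251220525000330069201756152999068915272050244720705038848701100484333366534156919690441383342326934909240180796260317054219658081234883080663888398744342847630241486110486577643741723725054199690722819293336563868332858303272977025)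

noncomputable def t156 : Tre := Helper81.PXd.toT t156n

theorem ok156 : chk K t156 r160 = true :=
  Helper81.PXd.chkN_sound K t156n r160 (by decide +kernel)

open Helper81.PXd in
noncomputable def t157n : Helper81.PXd.Ten :=
  (s
  225603222903777815360632321647432588349264377001503969721743507518019283702954590031580446949354338164265669304425172658480655518008407594002659400470717523539490292822597767487283533709014404999181896597381086204720517124690555722406091062719476501076610982667708498419856033113756850455469973136636155208770768105383920576337597680864365729929084005586386009366266477216060991967584187404093449106014057745778939803133834236641628959978420903990299973945836566818338926153521383314660172926554557873628687962779622933450357101878105869281715651170071468580175534423032655535407964707126737848723670568223997670358928317615456870081586410949876381877249188613992605540909781061693908952333814081429653363774121909268910542432306509358303061973940390831103180777961997147340860222845209273613746028108786329309151358739682690622375053867472863525608924729108227793938288680894249042561)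

noncomputable def t157 : Tre := Helper81.PXd.toT t157n

theorem ok157 : chk K t157 l161 = true :=
  Helper81.PXd.chkN_sound K t157n l161 (by decide +kernel)

open Helper81.PXd in
noncomputable def t158n : Helper81.PXd.Ten :=
  (s
  6383903232376161841342650105094887767778029320317239414925603943940104249794267006781570678269914470942060440855808276396472726278007907399277709793541494951624984854816611303573500894517120649907328671784838076374069801371853184868438843274057871219611170261843220399639918119218575561512621909139265582456537313248413396711497153706213660950575908871328203600455580522247450053161979478281946874075697782844596624667315644107111370088246435842864246743079377745733257305691462433102401101348628558949701392157310979280850306621797939772997742019162169576377303694646910074020338715595514979800471094083280910823310455212068085251220525000330069201756152999068915272050244720705038848701100484333366534156919690441383342326934909240180796260317054219658081234883080663888398744342847630241486110486577643741723725054199690722819293336563868332858303272977025)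

noncomputable def t158 : Tre := Helper81.PXd.toT t158n

theorem ok158 : chk K t158 r161 = true :=
  Helper81.PXd.chkN_sound K t158n r161 (by decide +kernel)

noncomputable def t159 : Tre :=
  (.N [0,1,0,0,5] (-2) ⟨0,[(3,0)]⟩ ⟨0,[(1,0)]⟩ (.x 2 ⟨0,[(0,0)]⟩ ⟨83,[(5,9),(15,34),(3,4),(1,13),(6,
  167),(6,27),(6,27)]⟩))

theorem ok159 : chk K t159 l163 = true := by decide +kernel

noncomputable def t160 : Tre :=
  (.N [0,0,1,-1,2] (-1) ⟨0,[(13,0)]⟩ ⟨0,[(19,0)]⟩ (.i (-1) ⟨0,[(1,0)]⟩ ⟨0,[(0,0)]⟩))

theorem ok160 : chk K t160 l165 = true := by decide +kernel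

open Helper81.PXd in
noncomputable def t161n : Helper81.PXd.Ten :=
  (s
  26776030863168265115790842706399908143942459490323878546980120324483755539156842684277694430448235912844347613722575798354697503126548844145684057857463834021843183526778589319134133442933590147294600843822931002584779191109061534856634156163682924075491702983587036961930287794459394332425446366972214838653427501206393095000941584573041043745963374069881087777597761894344736372504291830588505099169570098414673829732487874542738339743764436487591012660121094891894060014406678657017685617553469939235364415595931559781911527556145714385461801793653544064134754518192033118621240739187954622297131425521796723464062776398474836620180030828110388430027075850082802143410725749306160777396858314492434191413190160663824997740659274635793023687134599965062490785872295038364300535203442645152314862588861405921659308748425210502337446800417799334683197201968685646465)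

noncomputable def t161 : Tre := Helper81.PXd.toT t161n

theorem ok161 : chk K t161 r165 = true :=
  Helper81.PXd.chkN_sound K t161n r165 (by decide +kernel)

open Helper81.PXd in
noncomputable def t162n : Helper81.PXd.Ten :=
  (s
  292849726389654505930394945855558944912051848658824494355111226341859708978064526178504360003288924999832261371803075263153254620582383576316507063214922916905335300844593615450119345243444714974653165170877805802648598568293593112164377675134168277357926085450415137367573403977106890402796362059210496962389468560045540944881914930342050983924230671367297947490544404942799292275626250915399037454891443700047562291241911398379813186617875460514097665484092140603240848306426338428455495913170310633421274148900847380627030261263500722745373471748479221005603018839359154567974660214990067062167727927853342931233014605392911814346086917101710294226150801809749448729957294232170937762211397884005869098021733116485948589843748686652931843583185940556636572961955394117239786809450669753187430949714197294685392464371803631172160988250584607004444522195830300028957291867400548361867439300176333650345370442114531969)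

noncomputable def t162 : Tre := Helper81.PXd.toT t162n

theorem ok162 : chk K t162 r164 = true :=
  Helper81.PXd.chkN_sound K t162n r164 (by decide +kernel)

noncomputable def t163 : Tre :=
  (.N [0,0,1,-1,2] (-1) ⟨0,[(12,0)]⟩ ⟨0,[(18,0)]⟩ (.i (-1) ⟨0,[(1,0)]⟩ ⟨0,[(0,0)]⟩))

theorem ok163 : chk K t163 l167 = true := by decide +kernel

open Helper81.PXd in
noncomputable def t164n : Helper81.PXd.Ten :=
  (s
  46370514561795297879349839580426458069884441176647388143905955024521175771966311725352651150789252066786922080611687422172270369961000937379650020705258121975297360744008397321240786402703225743022251663822561152655937577302224625759998479115938994960023527036584082263421821003589156978536254284060375788085882855103855022079536193320285385969156222562933889527143762982254544888001272887609674665840908133718494530710056847319590996105056835248368557049799392034689723404417367798238958589676521856393654155471251094579599048092028290130113485513421911374458463455433107300392623817609678796941785398993001967236757735901490583538067123302410693985217251649004307297210406222268860835506142116927718778561857114740179967930272220389435256676648961002426363279677080951955755474348347364667527682374002108608427889496969872960700355183233)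

noncomputable def t164 : Tre := Helper81.PXd.toT t164n

theorem ok164 : chk K t164 r167 = true :=
  Helper81.PXd.chkN_sound K t164n r167 (by decide +kernel)

noncomputable def t165 : Tre :=
  (.N [0,0,1,-1,2] (-1) ⟨0,[(13,0)]⟩ ⟨0,[(19,0)]⟩ (.i 0 ⟨0,[(1,0)]⟩ ⟨0,[(0,0)]⟩))

theorem ok165 : chk K t165 l169 = true := by decide +kernel

open Helper81.PXd in
noncomputable def t166n : Helper81.PXd.Ten :=
  (s
  83688124691268629316499165100418111145442031661073717494702841864685637788248177285630483129165521658039271024374704179085490390877080049077577781939655738054309184601318759761710982406707137283844366342696752505855865284521096439559684054084442238244311850334095452304048067948368703333042060621341864659708532719874688916569199229738364261388875133909382706652391452977015854716856901692310141571679320002329989351968061185582599647823976925862831881567187729668687348840695370683801917776822621238221790167090559386510103952527990914815942555843157004616186998080351488857428423581669067569698921052572194152428107344307860963698860548147392924438365180548972224457985732940556555764477868908419884576810353664779066163112457922945398820424221539923412098442015200992441571098011926020678538807832239738922697678472229051782308243038874922558423681)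

noncomputable def t166 : Tre := Helper81.PXd.toT t166n

theorem ok166 : chk K t166 r169 = true :=
  Helper81.PXd.chkN_sound K t166n r169 (by decide +kernel)

open Helper81.PXd in
noncomputable def t167n : Helper81.PXd.Ten :=
  (s
  46370514561795297879349839580426458069884441176647388143905955024521175771966311725352651150789252066786922080611687422172270369961000937379650020705258121975297360744008397321240786402703225743022251663822561152655937577302224625759998479115938994960023527036584082263421821003589156978536254284060375788085882855103855022079536193320285385969156222562933889527143762982254544888001272887609674665840908133718494530710056847319590996105056835248368557049799392034689723404417367798238958589676521856393654155471251094579599048092028290130113485513421911374458463455433107300392623817609678796941785398993001967236757735901490583538067123302410693985217251649004307297210406222268860835506142116927718778561857114740179967930272220389435256676648961002426363279677080951955755474348347364667527682374002108608427889496969872960700355183233)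

noncomputable def t167 : Tre := Helper81.PXd.toT t167n

theorem ok167 : chk K t167 r168 = true :=
  Helper81.PXd.chkN_sound K t167n r168 (by decide +kernel)

noncomputable def t168 : Tre :=
  (.N [0,0,1,-1,2] (-1) ⟨0,[(10,0)]⟩ ⟨0,[(16,0)]⟩ (.i (-1) ⟨0,[(1,0)]⟩ ⟨0,[(0,0)]⟩))

theorem ok168 : chk K t168 l171 = true := by decide +kernel

open Helper81.PXd in
noncomputable def t169n : Helper81.PXd.Ten :=
  (s
  15233312744935183591353759456846634472671417428064309341338695243209132786082373684730766859898401146489610802492322147583857395481948742363353520802153992577344866347613643833294835026709752959089434960711591722564366361786749843222923628574353492367361148074901567521155880021900663485184123456618856392053039174552497529824403398532186237641989556324176794651727717440925925943877557243653253371693535496893050745186092166017313720609197249823144953806949173661794868368972160999612699949622136228567707421348434867048052391125856486961523351049280453768491951641997944138294281611288472458299934083085255158443023137132301860447976156772434483602849331092517461277281555960544544595287553111749770411411573040297554806936477736940074515134134110210061095964658791258533972966513901418039139020959834741442858796482166953450930817)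

noncomputable def t169 : Tre := Helper81.PXd.toT t169n

theorem ok169 : chk K t169 r171 = true :=
  Helper81.PXd.chkN_sound K t169n r171 (by decide +kernel)

noncomputable def t170 : Tre :=
  (.N [0,0,1,-1,2] (-1) ⟨0,[(10,0)]⟩ ⟨0,[(16,0)]⟩ (.i 1 ⟨0,[(17,0),(16,0),(19,1)]⟩ ⟨0,[(0,0)]⟩))

theorem ok170 : chk K t170 l172 = true := by decide +kernel

open Helper81.PXd in
noncomputable def t171n : Helper81.PXd.Ten :=
  (s
  64470986133010820361584181472780041357658464174640511850244127586002545409603256387550997368882995201875797067255766715818674014667953684458828377596378900643547874119815683962606708657234374038467663460818425351369400715427390917482330109087256210912852879251478781955440806157268132203171223040799393736684598984847765489993912691586020327235403129048739930389847915278546461913847416746798654776434862014290870770899173064259743783080749830755949601554842288435106957387112525378877397198752184871927749948576596744744701002247085381993198624266301177000405461160579140400229625039093383884133081765593388721766918497918577333208230695044282419849443408482623786130357918527865027885303663357196352312458737024089584804752218500123048228831793608317867180434035789337293856187473180024013777296480145274045593551489)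

noncomputable def t171 : Tre := Helper81.PXd.toT t171n

theorem ok171 : chk K t171 r172 = true :=
  Helper81.PXd.chkN_sound K t171n r172 (by decide +kernel)

noncomputable def t172 : Tre :=
  (.N [0,0,1,-1,2] (-1) ⟨0,[(4,0)]⟩ ⟨0,[(10,0)]⟩ (.x 1 ⟨0,[(0,0)]⟩ ⟨19,[(14,8),(5,0),(0,1),(4,8),(0,
  22),(4,11),(0,3),(0,3)]⟩))

theorem ok172 : chk K t172 l173 = true := by decide +kernel

noncomputable def t173 : Tre :=
  (.N [0,1,1,-2,-1] 1 ⟨0,[(0,0)]⟩ ⟨0,[(1,0)]⟩ (.x (-2) ⟨2,[(16,0),(5,0),(4,2),(0,0),(0,2),(6,1),(6,
  1),(1,2)]⟩ ⟨3,[(30,0),(3,1),(0,2),(4,0)]⟩))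

theorem ok173 : chk K t173 l175 = true := by decide +kernel

noncomputable def t174 : Tre :=
  (.N [0,0,1,-1,2] (-1) ⟨0,[(8,0)]⟩ ⟨0,[(14,0)]⟩ (.i (-1) ⟨0,[(1,0)]⟩ ⟨0,[(0,0)]⟩))

theorem ok174 : chk K t174 l177 = true := by decide +kernel

open Helper55.PC in
noncomputable def t175n : Helper55.PC.Ten :=
  (s
  10591704901944514965918585586455493533932491604550584710352257273618908597617366595474689248070044666832507887514272547486876156613000385415379049751128748958100425486034818824696162631987817192618309286507679697193146989066326423530298517237499158680372996731007266487868622095958405066862457896198246301920987135805941305109897025216191988363094236884888796928825126286224954862280724658599270971156708675262989581065988485126708362144130434787264879511233154514082106842973845403071618436060259403343570831588580977464352085637115423174829994945290481329860891370584285348760302883299960024260636400880542482990648787585)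

noncomputable def t175 : Tre := Helper55.PC.toT t175n

theorem ok175 : chk K t175 r177 = true :=
  Helper55.PC.chkN_sound K t175n r177 (by decide +kernel)

open Helper55.PC in
noncomputable def t176n : Helper55.PC.Ten :=
  (s
  38153286636288156749002126615278859007492598588019020931015460731912500523555801273523716372014675349909542022576663921687948538435616312911840330991822010119313413579734837824533033525911161716707413184270212179046039990689704681351918644678367939259271320757564508043447073768280331403866701781112911590825030584565330281981256013466188366796882250858486896751260770269190643875726038706159360357489598090363377676287666821715477112178926616857606540035921989156631241266379050433010968072421571952400255127683400401140225102678925652011543407870130216887361671423103929169053023217841806469015160091872893648556198720081899911484801665)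

noncomputable def t176 : Tre := Helper55.PC.toT t176n

theorem ok176 : chk K t176 l178 = true :=
  Helper55.PC.chkN_sound K t176n l178 (by decide +kernel)

open Helper55.PC in
noncomputable def t177n : Helper55.PC.Ten :=
  (s
  10591704901944514965918585586455493533932491604550584710352257273618908597617366595474689248070044666832507887514272547486876156613000385415379049751128748958100425486034818824696162631987817192618309286507679697193146989066326423530298517237499158680372996731007266487868622095958405066862457896198246301920987135805941305109897025216191988363094236884888796928825126286224954862280724658599270971156708675262989581065988485126708362144130434787264879511233154514082106842973845403071618436060259403343570831588580977464352085637115423174829994945290481329860891370584285348760302883299960024260636400880542482990648787585)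

noncomputable def t177 : Tre := Helper55.PC.toT t177n

theorem ok177 : chk K t177 r178 = true :=
  Helper55.PC.chkN_sound K t177n r178 (by decide +kernel)

noncomputable def t178 : Tre :=
  (.N [0,-1,1,-1,-1] 0 ⟨0,[(0,0)]⟩ ⟨0,[(1,0)]⟩ (.x (-1) ⟨11,[(17,4),(5,1),(5,4),(0,11),(6,3),(6,3),
  (1,11)]⟩ ⟨0,[(35,0)]⟩))

theorem ok178 : chk K t178 l180 = true := by decide +kernel

noncomputable def t179 : Tre :=
  (.N [0,0,1,-1,2] (-1) ⟨0,[(9,0)]⟩ ⟨0,[(15,0)]⟩ (.i 0 ⟨0,[(0,0)]⟩ ⟨0,[(1,0)]⟩))

theorem ok179 : chk K t179 l182 = true := by decide +kernel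

open Helper55.PC in
noncomputable def t180n : Helper55.PC.Ten :=
  (s
  236202912236292406717937096571893235495559697395349462376331102096208708987958785375197949252072438962651762122071611150556010235395070260598838582784355312688951259958518064995538593867828296322593158252700470382614374549354493210986617107348477076697993508856180833347549594106555946715937291268113666556600922256661283709366816964425835818490267251750953503241457548892150540917272950124095668298407126367615689489990635600623538576482421884572510909214376647094856621708114992434639208713437196349988004626064278416184718561701495537797581202664291688949610336628791893162126227429215743591328526344069862943196946033983876377201184254839771237379380716701221505)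

noncomputable def t180 : Tre := Helper55.PC.toT t180n

theorem ok180 : chk K t180 r182 = true :=
  Helper55.PC.chkN_sound K t180n r182 (by decide +kernel)

noncomputable def t181 : Tre :=
  (.N [0,0,1,-1,2] (-1) ⟨0,[(10,0)]⟩ ⟨0,[(16,0)]⟩ (.i (-1) ⟨0,[(1,0)]⟩ ⟨0,[(0,0)]⟩))

theorem ok181 : chk K t181 l184 = true := by decide +kernel

open Helper55.PC in
noncomputable def t182n : Helper55.PC.Ten :=
  (s
  236202912236292406717937096571893244591988232911598417273347354098674634375896857435593397482543733893705537223129863407615484779769249847514008074794070853216708190391725484884673556193784927031802116070849503387467901633776737633336462676011419415133828132137327777026258863040749212048512138431143673504236565641018898833035965286798154025897079714947562183676934660997794118742553272543284263115739046754456809802929781020979101279733198294605117753726849853900470929498015840479073358341634674664018880135817182857556586763432788447400511543960465168359488102184180879100113771780010185076265577537990036119303576050194681197393318737615534428378232598366782081)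

noncomputable def t182 : Tre := Helper55.PC.toT t182n

theorem ok182 : chk K t182 r184 = true :=
  Helper55.PC.chkN_sound K t182n r184 (by decide +kernel)

open Helper55.PC in
noncomputable def t183n : Helper55.PC.Ten :=
  (s
  38153286636288158866928868428491949033915779468465415267451291431624359710039596856443875650488333557054345818367817470635809871315382919729937038345049502273293309041599242061033701530796513855627597840049834006279612588747358828544360715965641827478096030518678441186906684267760154390047662944978055896580507352586326290908056289433964170010087730763409195582718190382381107260747995005936967666406175026138435236557121979395154011667475271631736329757255873568039830226965094078730775112557947962650507776348157506054639344495436728329077517034248693305316268501295780611227787612294124559380215115949203996455219420326058153076589185)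

noncomputable def t183 : Tre := Helper55.PC.toT t183n

theorem ok183 : chk K t183 r183 = true :=
  Helper55.PC.chkN_sound K t183n r183 (by decide +kernel)

noncomputable def t184 : Tre :=
  (.N [0,0,1,-1,2] (-1) ⟨0,[(8,0)]⟩ ⟨0,[(14,0)]⟩ (.i (-1) ⟨0,[(1,0)]⟩ ⟨0,[(0,0),(3,0),(3,0),(1,2),
  (9,0),(0,0),(18,1),(7,1)]⟩))

theorem ok184 : chk K t184 l186 = true := by decide +kernel

noncomputable def t185 : Tre :=
  (.N [0,0,1,-1,2] (-1) ⟨0,[(9,0)]⟩ ⟨0,[(15,0)]⟩ (.i (-1) ⟨0,[(2,0)]⟩ ⟨0,[(0,0)]⟩))

theorem ok185 : chk K t185 l187 = true := by decide +kernel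

open Helper55.PC in
noncomputable def t186n : Helper55.PC.Ten :=
  (s
  364536846864009850645547662150782205996329258516454447038736163094149237339804038273736097796179341422313499991075375104579634269882532037931717179258092701718574448561839027514769283557468615263582221701945545242061627286827828407110475468492706050996458757726735470581921342729201775219672016483822598187365776119666668232607408293004743241395150404872540850828108905850110007550449615583311755520418095868982753760353176286933697929371354626240755590809937343618825032804107415902214712986684082359649932844943908371697951300514516873451459259414767983996123966777097755226539484362886109038008442404341334808987988506257274778179721433441435877490236335393765243697836851841)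

noncomputable def t186 : Tre := Helper55.PC.toT t186n

theorem ok186 : chk K t186 r187 = true :=
  Helper55.PC.chkN_sound K t186n r187 (by decide +kernel)

open Helper55.PC in
noncomputable def t187n : Helper55.PC.Ten :=
  (i 178514859921352218322665241271889826444083243 (s
  703803914150490388418238229307087329812119180021732902162412915593489932876279012490779267924799526352260671839049395716808600281361173658962048040963656984570487464072786957644954762025034823064180961904843702886756053382118739270213909343754297478650234630314657291627959195793850508624388042512580253670347220653438911937282943424024431696569185002253678453034895065657271319751172604254288402150024799281216985153757282698374511263031109124574044524220307088016612491564188047973696154198315041826286294499248053172403908528860381175184676718537515269402652916681791606221090695854022860107286585390593790404381449122817051009870288412344875953991713409)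
  (s
  1295095042280571287014182012423128064413650614409895988299652153354252439425413846274361621572615989168342204564974535765486946663514589458278782439983156009063981388628263181829261243960056915419386123992500352790316999611410991675832537688836172751170139395927456600978776043169156875327587002882394259545575075917228447937900154746795568407948792962028737355930719532006600663705506124086789156869315111512290600401164349468258905805312143822815635402434399947160499333565615724651220221594181084590118198087534316857019098188039375225264930404308127339247294526243160058755283562108087687416057576829652160885457688966802250692232632386338656006039378439701121))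

noncomputable def t187 : Tre := Helper55.PC.toT t187n

theorem ok187 : chk K t187 r185 = true :=
  Helper55.PC.chkN_sound K t187n r185 (by decide +kernel)

noncomputable def t188 : Tre :=
  (.N [0,-2,0,1,2] (-2) ⟨0,[(0,0)]⟩ ⟨0,[(1,0)]⟩ (.x 2 ⟨0,[(2,0),(28,0),(10,0)]⟩ ⟨11,[(13,4),(5,1),
  (4,11),(0,4),(0,11),(6,3),(6,3)]⟩))

theorem ok188 : chk K t188 l189 = true := by decide +kernel

noncomputable def t189 : Tre :=
  (.N [0,1,0,0,5] (-2) ⟨0,[(2,0)]⟩ ⟨0,[(1,0)]⟩ (.x 1 ⟨88,[(2,11),(13,29),(14,3),(0,57),(1,88),(5,
  53),(3,3),(0,88)]⟩ ⟨0,[(0,0)]⟩))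

theorem ok189 : chk K t189 l192 = true := by decide +kernel

noncomputable def t190 : Tre :=
  (.N [0,0,1,-1,2] (-1) ⟨0,[(7,0)]⟩ ⟨0,[(13,0)]⟩ (.x 1 ⟨0,[(0,0)]⟩ ⟨99,[(3,17),(13,44),(3,8),(1,4),
  (0,9),(5,114),(4,59),(0,19),(0,19)]⟩))

theorem ok190 : chk K t190 l193 = true := by decide +kernel

noncomputable def t191 : Tre :=
  (.N [0,1,0,0,5] (-2) ⟨0,[(4,0)]⟩ ⟨0,[(3,0)]⟩ (.x 2 ⟨0,[(0,0)]⟩ ⟨11,[(4,1),(13,4),(3,0),(1,1),(6,
  23),(6,3),(6,3)]⟩))

theorem ok191 : chk K t191 l194 = true := by decide +kernel

noncomputable def t192 : Tre :=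
  (.N [0,-3,0,1,1] (-2) ⟨0,[(1,0)]⟩ ⟨0,[(0,0)]⟩ (.x 1 ⟨1537,[(1,19),(2,551),(1,277),(2,1675),(9,19),
  (0,704),(0,58),(1,19),(16,117),(1,19),(5,19),(0,117),(2,137)]⟩ ⟨6,[(2,2),(8,0),(6,0),(12,7)]⟩))

theorem ok192 : chk K t192 l196 = true := by decide +kernel

noncomputable def t193 : Tre :=
  (.N [0,0,1,-1,2] (-1) ⟨0,[(11,0)]⟩ ⟨0,[(17,0)]⟩ (.i (-1) ⟨0,[(0,0)]⟩ ⟨0,[(4,0),(3,0),(2,0),(1,2),
  (9,0),(0,0),(18,1),(7,1)]⟩))

theorem ok193 : chk K t193 l197 = true := by decide +kernel

open Helper81.PXd in
noncomputable def t194n : Helper81.PXd.Ten :=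
  (s
  96480520080285140841080385536871631104428346497980832512212665305485136852238689536571279949490975387793840993670420836032659281142634445298661666885230999684384670494041008090812140478943264600550198494664789714200408005030929449205626059710664706568213157559385535284867463505204219137452124533851978671789660743784512784392228207899580248248898854941450524765240057064381446813640447952767712451992432792350657738750083212871641846114236476321517977472319276172627932464879116302248062353968423237403128186932233570037282016145974286732806234731251566233477125070071528961008238835835314249134743805118836185757160360394108639670684103967699821656116652927984771390641795820552500350132171777056371912411118980005246252854262259217718142147140423099091022834695740918537522933671704568951858047505212232696872263809154297237110601505632682625)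

noncomputable def t194 : Tre := Helper81.PXd.toT t194n

theorem ok194 : chk K t194 r197 = true :=
  Helper81.PXd.chkN_sound K t194n r197 (by decide +kernel)

noncomputable def t195 : Tre :=
  (.N [0,0,1,-1,2] (-1) ⟨0,[(10,0)]⟩ ⟨0,[(16,0)]⟩ (.i (-1) ⟨0,[(0,0)]⟩ ⟨4,[(1,2),(1,4),(2,0),(5,6),
  (3,0),(5,2),(0,4),(18,3),(5,1),(1,9)]⟩))

theorem ok195 : chk K t195 l198 = true := by decide +kernel

noncomputable def t196 : Tre :=
  (.N [0,0,1,-1,2] (-1) ⟨0,[(12,0)]⟩ ⟨0,[(18,0)]⟩ (.i 0 ⟨0,[(1,0)]⟩ ⟨0,[(0,0)]⟩))

theorem ok196 : chk K t196 l200 = true := by decide +kernel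

open Helper81.PXd in
noncomputable def t197n : Helper81.PXd.Ten :=
  (s
  29859274704615526931712448378327202196353703122821279515691281325562427399837143372855263857089397820733966690402982946337305387194074441893806785263345282868157575908484425676191912590965184417433411681883413124759127044615025855537526334570864974810513009910175946011693719674804121609619972471260613150508038841509677045140550438558273759952312504310419571821401973095024947504619271217051789806341712703429390053476033135479948915914512998518933572577238765848762007469936660842021216083659750087628425227447498274572997449152558416879639688009652384867715693815348939521722145672925323231905266895725068473247086449887080363383353518402862180299523194634472899124338796629474335696579878810215657535344421536547609268531797637662762690201694185707863743655240366393733275563907010525500236198183001439912537143209064966814237793095611461546673897391174603050851500673)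

noncomputable def t197 : Tre := Helper81.PXd.toT t197n

theorem ok197 : chk K t197 r200 = true :=
  Helper81.PXd.chkN_sound K t197n r200 (by decide +kernel)

noncomputable def t198 : Tre :=
  (.N [0,0,1,-1,2] (-1) ⟨0,[(12,0)]⟩ ⟨0,[(18,0)]⟩ (.i 1 ⟨0,[(19,0),(16,0),(19,1)]⟩ ⟨0,[(0,0)]⟩))

theorem ok198 : chk K t198 l201 = true := by decide +kernel

open Helper81.PXd in
noncomputable def t199n : Helper81.PXd.Ten :=
  (s
  29859274704615526931712448378327202196353703122821279515691281325562427399837143372855263857089397820733966690402982946337305387194074441893806785263345282868157575908484425676191912590965184417433411681883413124759127044615025855537526334570864974810513009910175946011693719674804121609619972471260613150508038841509677045140550438558273759952312504310419571821401973095024947504619271217051789806341712703429390053476033135479948915914512998518933572577238765848762007469936660842021216083659750087628425227447498274572997449152558416879639688009652384867715693815348939521722145672925323231905266895725068473247086449887080363383353518402862180299523194634472899124338796629474335696579878810215657535344421536547609268531797637662762690201694185707863743655240366393733275563907010525500236198183001439912537143209064966814237793095611461546673897391174603050851500673)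

noncomputable def t199 : Tre := Helper81.PXd.toT t199n

theorem ok199 : chk K t199 r201 = true :=
  Helper81.PXd.chkN_sound K t199n r201 (by decide +kernel)

noncomputable def t200 : Tre :=
  (.N [0,0,1,-1,2] (-1) ⟨0,[(6,0)]⟩ ⟨0,[(12,0)]⟩ (.x 1 ⟨0,[(0,0)]⟩ ⟨99,[(1,17),(14,44),(3,8),(1,4),
  (0,9),(5,114),(4,59),(0,19),(0,19)]⟩))

theorem ok200 : chk K t200 l202 = true := by decide +kernel

noncomputable def t201 : Tre :=
  (.N [0,3,0,0,7] (-2) ⟨0,[(1,0)]⟩ ⟨0,[(0,0)]⟩ (.x 2 ⟨0,[(36,1),(6,0),(3,1)]⟩ ⟨19,[(3,1),(14,4),(3,
  0),(1,9),(6,39),(6,19),(6,19)]⟩))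

theorem ok201 : chk K t201 l204 = true := by decide +kernel

noncomputable def t202 : Tre :=
  (.N [0,0,1,-1,2] (-1) ⟨0,[(9,0)]⟩ ⟨0,[(15,0)]⟩ (.i (-1) ⟨0,[(0,0)]⟩ ⟨0,[(3,0),(2,0),(2,0),(1,2),
  (9,0),(0,0),(18,1),(7,1)]⟩))

theorem ok202 : chk K t202 l205 = true := by decide +kernel

open Helper55.PC in
noncomputable def t203n : Helper55.PC.Ten :=
  (s
  7104110862977973436148604241228783537889730405103030718234907607450258542075850797774109457522068881569330940095215716383353002573613629103339632271899017140578147739066178368007120429647779207488208359138033438060598027051244418379644868119468343340140401282569083796352287508154692905639977096838674350131953759992010068516362603467109091395238827432280384492346731623804083187177894035614826351206976276992095403121657948177761837441702975663067529328222331317473303830479589634910075393948546808067442066217669573984078275689214111426432826804501546237087977957989779858675213396824995849392402394857478703341284947098042814735231667766418865006092223105)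

noncomputable def t203 : Tre := Helper55.PC.toT t203n

theorem ok203 : chk K t203 r205 = true :=
  Helper55.PC.chkN_sound K t203n r205 (by decide +kernel)

noncomputable def t204 : Tre :=
  (.N [0,-3,0,1,1] (-2) ⟨0,[(0,0)]⟩ ⟨0,[(1,0)]⟩ (.x 1 ⟨66,[(4,11),(3,39),(10,29),(9,3),(5,0),(2,35),
  (0,8),(1,0),(5,0),(0,44),(2,8)]⟩ ⟨0,[(30,0),(1,0)]⟩))

theorem ok204 : chk K t204 l207 = true := by decide +kernel

noncomputable def t205 : Tre :=
  (.N [0,0,1,-1,2] (-1) ⟨0,[(10,0)]⟩ ⟨0,[(16,0)]⟩ (.i (-1) ⟨0,[(0,0)]⟩ ⟨4,[(2,2),(1,4),(0,0),(6,6),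
  (3,0),(5,2),(0,4),(18,3),(5,1),(1,9)]⟩))

theorem ok205 : chk K t205 l208 = true := by decide +kernel

noncomputable def t206 : Tre :=
  (.N [0,0,1,-1,2] (-1) ⟨0,[(12,0)]⟩ ⟨0,[(18,0)]⟩ (.i 0 ⟨0,[(1,0)]⟩ ⟨0,[(0,0)]⟩))

theorem ok206 : chk K t206 l210 = true := by decide +kernel

open Helper55.PC in
noncomputable def t207n : Helper55.PC.Ten :=
  (s
  10623174901311904724112932600764856924895693076851978445171822848532133899860506684829024918763800846657724168006986335552843460151255227224293345820272612565451057786562973324766241190837633820220711427084702504524484271120681340203115997216483090138848599317499904753610490531357073399504723344347933486257647533031942897436972589325327538605675720190076568826858250473680846637373445843088361090982082372244378442314172752282509985790593749033395902276517377979137934503805539371128523682842929590515003035789569018193199965731391326282822237709755271033454812502455732172939338435530636690470758407525431131718601564807083917725172893205807252639625249409)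

noncomputable def t207 : Tre := Helper55.PC.toT t207n

theorem ok207 : chk K t207 r210 = true :=
  Helper55.PC.chkN_sound K t207n r210 (by decide +kernel)

open Helper55.PC in
noncomputable def t208n : Helper55.PC.Ten :=
  (s
  10623174901311904724112932600764856924895693076851978445171821096623723546933044234004639950251122981546341538964241516483592970729300279297351155775951380991185705822421873967448389551798251583174178208102393999396615906469145530746369848774110164589294956927758663253795747157485413655310735347409730508490115914507288741911944493400077345844387000455102684002327259920247910675973674147827418041347289848211506645219512515648249782849969496477554099691943035492299978927135870527275963521431914742745860337945475335909651168708294381743864900600186130442779434770604584149893639440094684356357582243886344267170856851491760514683584880639827759193891275393)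

noncomputable def t208 : Tre := Helper55.PC.toT t208n

theorem ok208 : chk K t208 r209 = true :=
  Helper55.PC.chkN_sound K t208n r209 (by decide +kernel)

noncomputable def t209 : Tre :=
  (.N [0,-1,1,-1,-1] 0 ⟨0,[(1,0)]⟩ ⟨0,[(0,0)]⟩ (.x (-1) ⟨257,[(2,9),(2,39),(13,9),(0,104),(2,9),(2,
  47),(6,252),(6,75),(6,85),(1,247),(1,9)]⟩ ⟨0,[(38,0)]⟩))

theorem ok209 : chk K t209 l212 = true := by decide +kernel

noncomputable def t210 : Tre :=
  (.N [0,0,1,-1,2] (-1) ⟨0,[(11,0)]⟩ ⟨0,[(17,0)]⟩ (.i (-1) ⟨0,[(0,0)]⟩ ⟨0,[(5,0),(2,0),(2,0),(1,2),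
  (9,0),(0,0),(18,1),(7,1)]⟩))

theorem ok210 : chk K t210 l213 = true := by decide +kernel

noncomputable def t211 : Tre :=
  (.N [0,0,1,-1,2] (-1) ⟨0,[(13,0)]⟩ ⟨0,[(19,0)]⟩ (.i 0 ⟨0,[(1,0)]⟩ ⟨0,[(0,0)]⟩))

theorem ok211 : chk K t211 l215 = true := by decide +kernel

open Helper55.PC in
noncomputable def t212n : Helper55.PC.Ten :=
  (s
  696200390332376987999465150923725663429964141484571259382780697014471508150712345274181870372551308854500183051451180949313549079229902038711372078422022280484159654022967674507568173191281962948188543530469745627709361220186103891506016525960390153498114605307860972968468122522416536701055788131749436448799124183170775255232960360280464482281845132829221670776162224794415435286978232576308074587007494690250752272498410293326476076078525774253513596171689343219313867189667190590702992147163589355773952387461332343597753994426429286571450422832098493648837358704801136240635545295962760821752842885096625461562994677961458516017839529833339140484344711217793)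

noncomputable def t212 : Tre := Helper55.PC.toT t212n

theorem ok212 : chk K t212 r215 = true :=
  Helper55.PC.chkN_sound K t212n r215 (by decide +kernel)

open Helper55.PC in
noncomputable def t213n : Helper55.PC.Ten :=
  (s
  696200390332376987999465150923725663429964141484571259382780582201401927261258166096954977076104452286560611074505856486791149004472662571371288711677386048033105547901257509304617277626259890871123127260984663315937611005695488191081881243380942238909082762428492767323200003169265888258079687203153176621716487434008407452374151687149081240282790027645719018570228522864320857859939208650230731167687052895097058565256710116487516886043275348555939148554536883751621662744345097813857004180306612556647147483236364257567590203035450128970687641124687144613472163533427098167895542604778712531566315443060812759897307400164682532379256828623235481221999258239617)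

noncomputable def t213 : Tre := Helper55.PC.toT t213n

theorem ok213 : chk K t213 r214 = true :=
  Helper55.PC.chkN_sound K t213n r214 (by decide +kernel)

noncomputable def t214 : Tre :=
  (.N [0,0,1,-1,2] (-1) ⟨0,[(11,0)]⟩ ⟨0,[(17,0)]⟩ (.i 0 ⟨0,[(0,0)]⟩ ⟨0,[(1,0)]⟩))

theorem ok214 : chk K t214 l217 = true := by decide +kernel

open Helper55.PC in
noncomputable def t215n : Helper55.PC.Ten :=
  (s
  694137972453835732806440425004462123287068554312410035973118945960653406192591744066908252949703204563318393242910750463114261167603122103883848826369202480233818200865647964142008540449143114943468370388190430218201357238340075511867665512929078841353977793797169545399933870705399538668439720584917588451472078213551496432352324300672059551717363342367466818701701867553207265731821759747307737327146658283107025031829503425683004802386443121189981981373410394360669494525796712977154114723714381333915904482915763921617404941823795305209674899323614892303564093947509827160014534122935823563416117183386141446065724540846721)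

noncomputable def t215 : Tre := Helper55.PC.toT t215n

theorem ok215 : chk K t215 r217 = true :=
  Helper55.PC.chkN_sound K t215n r217 (by decide +kernel)

open Helper55.PC in
noncomputable def t216n : Helper55.PC.Ten :=
  (s
  694137972453835732806440425004462096555067663917398707072600376494822750291844328462618323459510783765253895136115367924596175969021192294860699727289035066308046377180245540756658374050097271976983754155024748021509875830418419591614045494926534539384500563813740773473996935619835396540072805369997115793200182803200439514024727669204890247773011232409566688422993255989254316726298300057754066370303474037589072027320072560464078990433754891176194330081976699804185311027161543087203757114083536935632053815750505189771560215519498172850465775831835062656605315839641786605106168871396462533902941147339670801714843860599425)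

noncomputable def t216 : Tre := Helper55.PC.toT t216n

theorem ok216 : chk K t216 r216 = true :=
  Helper55.PC.chkN_sound K t216n r216 (by decide +kernel)

noncomputable def t217 : Tre :=
  (.N [0,0,1,-1,2] (-1) ⟨0,[(5,0)]⟩ ⟨0,[(11,0)]⟩ (.x 1 ⟨0,[(0,0)]⟩ ⟨19,[(15,8),(5,0),(0,1),(4,8),(0,
  22),(4,11),(0,3),(0,3)]⟩))

theorem ok217 : chk K t217 l218 = true := by decide +kernel

noncomputable def t218 : Tre :=
  (.N [0,-3,1,0,-1] (-1) ⟨0,[(1,0)]⟩ ⟨0,[(0,0)]⟩ (.x 1 ⟨0,[(6,0),(23,0),(15,0)]⟩ ⟨37,[(2,5),(14,16),
  (5,1),(0,3),(3,29),(0,16),(5,23),(16,7)]⟩))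

theorem ok218 : chk K t218 l220 = true := by decide +kernel

noncomputable def t219 : Tre :=
  (.N [0,0,1,-1,2] (-1) ⟨0,[(8,0)]⟩ ⟨0,[(14,0)]⟩ (.i (-1) ⟨0,[(0,0)]⟩ ⟨0,[(3,0),(1,0),(2,0),(1,2),
  (9,0),(0,0),(18,1),(7,1)]⟩))

theorem ok219 : chk K t219 l221 = true := by decide +kernel

open Helper55.PC in
noncomputable def t220n : Helper55.PC.Ten :=
  (s
  190036484920022179278025077877141043895363120418986599052843713990816670129076264572544314003251389813230644069916082187475167617529261532464307441829096713578418948202889932416864734190967716373838028342981515161803593800370958712433071415867233455328307701817576967865079277576473981115935434700504612817457208765954546761266152783957069266532834764014180512637069996338856467518104317286315299597786348594447465649527415511905111887535267777283369275351802151765350853442419758350752045452027927582213982014254621513852283980767152315825038735107118076340044211424226851160705)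

noncomputable def t220 : Tre := Helper55.PC.toT t220n

theorem ok220 : chk K t220 r221 = true :=
  Helper55.PC.chkN_sound K t220n r221 (by decide +kernel)

noncomputable def t221 : Tre :=
  (.N [0,1,0,0,7] (-3) ⟨0,[(2,0)]⟩ ⟨0,[(1,0)]⟩ (.x 3 ⟨0,[(0,0)]⟩ ⟨83,[(2,9),(16,34),(3,4),(1,13),(6,
  251),(6,27),(6,27)]⟩))

theorem ok221 : chk K t221 l224 = true := by decide +kernel

noncomputable def t222 : Tre :=
  (.N [0,1,0,0,7] (-3) ⟨0,[(3,0)]⟩ ⟨0,[(2,0)]⟩ (.x 2 ⟨124,[(3,5),(16,20),(14,1),(0,165),(1,124),(5,
  163),(3,1),(0,124)]⟩ ⟨0,[(0,0)]⟩))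

theorem ok222 : chk K t222 l225 = true := by decide +kernel

noncomputable def t223 : Tre :=
  (.N [0,-3,0,1,1] (-2) ⟨0,[(1,0)]⟩ ⟨0,[(0,0)]⟩ (.x 1 ⟨1026,[(2,271),(2,137),(5,1094),(10,482),(0,
  26),(18,67),(1,13),(3,13),(2,67),(2,67)]⟩ ⟨9,[(3,2),(9,0),(6,0),(12,10)]⟩))

theorem ok223 : chk K t223 l227 = true := by decide +kernel

noncomputable def t224 : Tre :=
  (.N [0,0,1,-1,2] (-1) ⟨0,[(13,0)]⟩ ⟨0,[(19,0)]⟩ (.i (-1) ⟨0,[(0,0)]⟩ ⟨5,[(5,2),(1,4),(0,5),(4,7),
  (1,13),(9,4),(0,5),(18,8),(5,0),(1,11)]⟩))

theorem ok224 : chk K t224 l228 = true := by decide +kernel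

noncomputable def t225 : Tre :=
  (.N [0,0,1,-1,2] (-1) ⟨0,[(15,0)]⟩ ⟨0,[(21,0)]⟩ (.i 0 ⟨0,[(1,0)]⟩ ⟨0,[(0,0)]⟩))

theorem ok225 : chk K t225 l230 = true := by decide +kernel

open Helper81.PXd in
noncomputable def t226n : Helper81.PXd.Ten :=
  (s
  23738857510370860338937181350520947841083451892792643661816659042227191824136950665932036510063784883209353919873478040975814976915289834305478809084392449475209188353273985771431857902265160795235114972016984958944565669958502840849760249779951377573427158133306305912662577844413844949800769825365319275054194182082746188156557839855617655194790584144583023634144101034914311913731870029347595009527619156395354073494340844303143073073901690458926185821849691554582410808468376297821465182504165518633623716185913889113370858272852873696515172646898871094185960157156454633073149812322858136688018054037587872150362735523471214195070416255699415553114997977758741974078380034221586537443380946772417584175226868174144786191753395313655275734776318785348660229224743300115113795674177729935267632001870105099226557944587713019881260188984142288239050424418667437094833415683404820806123793363007752189215359840116813608604804823237261627995271171572896423642575521906927716360432287516098123892542699059639710242836075436345131649)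

noncomputable def t226 : Tre := Helper81.PXd.toT t226n

theorem ok226 : chk K t226 r230 = true :=
  Helper81.PXd.chkN_sound K t226n r230 (by decide +kernel)

open Helper81.PXd in
noncomputable def t227n : Helper81.PXd.Ten :=
  (s
  23738857510370860338937181350520947841083451892792643661816659042227191824136720523728063950002393165426643683431690843061281657300402578467708516439039785893310072144920099068058372752164247251841372770149293621046468342179075905662847000470195007046538215220469461070944033995591329468572284377965394148693040183191974412164528518105116155056284835919974101462712805541981369421857602545651126046463383744014058683553209584487644817485154906017753016866975226032643831148958659259810048892567819778508974279892993283905363132375739983007760575131901760299520694208137875628933415821615327793697843778211857945965442185500296875285781246660266523084191320260346867550590225915949666796296403721171942253380325434905666452541275680912970803067080693549646247673329279117850628627834672843573847505130662029171644705321955346979745471950153193076596278480698570529223804039053136370297824486952754103306467211316458333644569174370051839017513901595002261617413413868492344141445110872259043532914737427866621242529417857970767659649)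

noncomputable def t227 : Tre := Helper81.PXd.toT t227n

theorem ok227 : chk K t227 r229 = true :=
  Helper81.PXd.chkN_sound K t227n r229 (by decide +kernel)

noncomputable def t228 : Tre :=
  (.N [0,0,1,-1,2] (-1) ⟨0,[(12,0)]⟩ ⟨0,[(18,0)]⟩ (.i (-1) ⟨0,[(0,0)]⟩ ⟨13,[(1,7),(3,0),(0,0),(0,
  13),(6,21),(9,8),(0,13),(18,12),(5,4),(1,27)]⟩))

theorem ok228 : chk K t228 l231 = true := by decide +kernel

open Helper81.PXd in
noncomputable def t229n : Helper81.PXd.Ten :=
  (s
  23738857510370860338937181350520947841083451892792643661816659042227191824136260239320118829879609729861223210548116447232215018070628066792167931148334458729511839728212325661311402451962420165053888366413910945250273686620222035289020501850682265992760329394795771387506946297946298506115313483165543895970732185410430860180469874604113154779273339470756257119850214556115484438109067578258188120334912919251467903670947064856648306307661337135406678957226294988766671829939225183787216312695128298259675407307152073489347680581514201630251380101907538710190162310100717620653947840200267107717495226560398093595601085453948197467202907469400738146343964825523118703613917679405827314002449269970991591790522568368709785240320252111601857731689443078241422561538350753321658292155663070851007251388245877316481000076690614899473895472491294653310734593258376713481745285792599469281225874132246805540970914269141373716497913463680993796551162441860992004955090561663176991614468041744934350959126885480584307102581423039612715649)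

noncomputable def t229 : Tre := Helper81.PXd.toT t229n

theorem ok229 : chk K t229 r231 = true :=
  Helper81.PXd.chkN_sound K t229n r231 (by decide +kernel)

noncomputable def t230 : Tre :=
  (.N [0,-3,0,1,1] (-2) ⟨0,[(1,0)]⟩ ⟨0,[(0,0)]⟩ (.x 1 ⟨1160,[(2,147),(1,3),(4,680),(10,519),(9,77),
  (8,639),(0,159),(0,3),(7,799),(2,159)]⟩ ⟨0,[(31,0),(1,0)]⟩))

theorem ok230 : chk K t230 l233 = true := by decide +kernel

noncomputable def t231 : Tre :=
  (.N [0,0,1,-1,2] (-1) ⟨0,[(11,0)]⟩ ⟨0,[(17,0)]⟩ (.i (-1) ⟨0,[(0,0)]⟩ ⟨0,[(6,0),(1,0),(2,0),(1,2),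
  (9,0),(0,0),(18,1),(7,1)]⟩))

theorem ok231 : chk K t231 l234 = true := by decide +kernel

noncomputable def t232 : Tre :=
  (.N [0,0,1,-1,2] (-1) ⟨0,[(13,0)]⟩ ⟨0,[(19,0)]⟩ (.i 0 ⟨0,[(1,0)]⟩ ⟨0,[(0,0)]⟩))

theorem ok232 : chk K t232 l236 = true := by decide +kernel

open Helper55.PC in
noncomputable def t233n : Helper55.PC.Ten :=
  (s
  301708090224917023914156899264075040468113480407876052795567518365532261365559135500413304540045271765457889130486607591414168204274104166542946074620873972554149707024899869358072895803693529151893160160609277093772842551089048502647534097517977605499071211788355313451096510943620961801053062969128558665031470181380510157898743814819034811430612756071532754019757502797454561991074937225408512353994504055898639371529967386068283860729536560623948066928865550553227435348667380348680191936695346261457464148568627301608634043970218296558421598103650458939762349289469899705086903959523974197262102903686228123389305507482304152447553240864063090590337)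

noncomputable def t233 : Tre := Helper55.PC.toT t233n

theorem ok233 : chk K t233 r236 = true :=
  Helper55.PC.chkN_sound K t233n r236 (by decide +kernel)

open Helper55.PC in
noncomputable def t234n : Helper55.PC.Ten :=
  (s
  301708090224917023914156899264075040468113480407876052795567491633531370970547806599894735074214615864710473526196678101221747406209606059747563536102788773972219898001750770277905481877921705466490736775259110694726999584604432269481851900826496197577415291534735295365290021916364018345260994946623476692434822278221962578543368849802288347056487385124959657210539116013747107947341239030857649830526894158596092171234891371905841721845768462471163384293342169353801040863795222189371309043170380600648009598691567326395251713245278973637597243626916209005966971631376485220202492069739900591234998132299134256158369839875974625862526582740319579669121)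

noncomputable def t234 : Tre := Helper55.PC.toT t234n

theorem ok234 : chk K t234 r235 = true :=
  Helper55.PC.chkN_sound K t234n r235 (by decide +kernel)

noncomputable def t235 : Tre :=
  (.N [0,0,1,-1,2] (-1) ⟨0,[(10,0)]⟩ ⟨0,[(16,0)]⟩ (.i (-1) ⟨0,[(0,0)]⟩ ⟨13,[(1,7),(0,0),(1,0),(0,
  13),(6,21),(9,8),(0,13),(18,12),(5,4),(1,27)]⟩))

theorem ok235 : chk K t235 l237 = true := by decide +kernel

open Helper55.PC in
noncomputable def t236n : Helper55.PC.Ten :=
  (s
  19772741400980162079238186550170421852118285052010564996010307627878291222070896151681931420798373335086900334927335857903167459169442846877731943813389901942512699307160539766297110382272712415358870487338764068233891915473564454299269794185061528711961591559875221623241159704025447676848994980958365880451538021829901634944208184000605954780494163500193924665825917906593172623676962105304325592660284686870374289441229276654186969701890441518022192671804731614738435008242896672193555422791609785302217636441849188108424694721959385064079532803496642781920679989180364241226572014848817722278127266500104733116106779234954820888351802997749687318492480129)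

noncomputable def t236 : Tre := Helper55.PC.toT t236n

theorem ok236 : chk K t236 r237 = true :=
  Helper55.PC.chkN_sound K t236n r237 (by decide +kernel)

noncomputable def t237 : Tre :=
  (.N [0,-3,0,1,1] (-2) ⟨0,[(1,0)]⟩ ⟨0,[(0,0)]⟩ (.x 1 ⟨85,[(3,3),(4,49),(10,36),(0,3),(10,34),(6,
  47),(0,11),(0,3),(7,59),(2,11)]⟩ ⟨0,[(30,0),(1,0)]⟩))

theorem ok237 : chk K t237 l239 = true := by decide +kernel

noncomputable def t238 : Tre :=
  (.N [0,0,1,-1,2] (-1) ⟨0,[(10,0)]⟩ ⟨0,[(16,0)]⟩ (.i (-1) ⟨0,[(0,0)]⟩ ⟨5,[(3,2),(0,4),(0,5),(4,7),
  (1,13),(9,4),(0,5),(18,8),(5,0),(1,11)]⟩))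

theorem ok238 : chk K t238 l240 = true := by decide +kernel

noncomputable def t239 : Tre :=
  (.N [0,0,1,-1,2] (-1) ⟨0,[(12,0)]⟩ ⟨0,[(18,0)]⟩ (.i 0 ⟨0,[(1,0)]⟩ ⟨0,[(0,0)]⟩))

theorem ok239 : chk K t239 l242 = true := by decide +kernel

open Helper55.PC in
noncomputable def t240n : Helper55.PC.Ten :=
  (s
  249567082884451005117509990265349795812997488558593759780297358326052325996036148368168669630459899928253530773231599077330045833059112122534315755664429890129113533228229990111393648840611148050915599423943983340337330268366632802244654947362331648642809534811446867827360250245913399447085067917066262021027009648522284534737642086017001674164866246237632492058080098070331482623419998368487052212661595676809010149215101582382996249968910464141708594171996540943141080285229492338770393199651121053466609607527180842550897976486056561328583375246387345863471332009456181303473163538455950511497963986368773267019576195480027777)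

noncomputable def t240 : Tre := Helper55.PC.toT t240n

theorem ok240 : chk K t240 r242 = true :=
  Helper55.PC.chkN_sound K t240n r242 (by decide +kernel)

open Helper55.PC in
noncomputable def t241n : Helper55.PC.Ten :=
  (s
  249567082884451005117509990265349795812997488558593759780297336213859454711009458505724443484647573768168295489863906919573152796275820566742008647285228133066408631816276674171344030935709407446107291968679181263188417993187536298228835238929166394939835120682860963750502500193576514517386737448861572118345423956101142853315326728841791738554355036956037868083457165197096984422553936058348964881091374195338048615746324627755891219357491913497708781759957942914787513661799828709302661844445477789501454512315758484356054138888328017598235118044591494436206168378135988831198062641361259333586174496049288176592663131597046401)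

noncomputable def t241 : Tre := Helper55.PC.toT t241n

theorem ok241 : chk K t241 r241 = true :=
  Helper55.PC.chkN_sound K t241n r241 (by decide +kernel)

noncomputable def t242 : Tre :=
  (.N [0,0,1,-1,2] (-1) ⟨0,[(10,0)]⟩ ⟨0,[(16,0)]⟩ (.i 0 ⟨0,[(0,0)]⟩ ⟨0,[(1,0)]⟩))

theorem ok242 : chk K t242 l244 = true := by decide +kernel

open Helper55.PC in
noncomputable def t243n : Helper55.PC.Ten :=
  (s
  249567082884451005117509990265349795812997488558593759780297314101666583425982758941249226316565189489714522159270784919786650025610515926495273331174847215282809815063288693678895118297587040466320546391549833732588017630069976972874286767178323425106760126843476199070937960501264102062123670600574352838225474006593475874538726888650246514859944839868791868133616328773800636901821704392557825859998338185992019677002461450383296960068862469234812105800023221562450673392756927690714326223889135624316843590145684860716129828884729628614141489038343782926728472585343413854842417172488002732157147641295289518249905118270980737)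

noncomputable def t243 : Tre := Helper55.PC.toT t243n

theorem ok243 : chk K t243 r244 = true :=
  Helper55.PC.chkN_sound K t243n r244 (by decide +kernel)

open Helper55.PC in
noncomputable def t244n : Helper55.PC.Ten :=
  (s
  249567082884451005117509990265349795812997488558593759780297291989473712140956069078805000170752863329629286875903092762029756988827224370702966222795645458220104913651335377738845500392685299861512238936285031655439105354890880468858467058745158171403785712714890294994080210448927217132425340132369662935543888314172334193116411531475036579249433630587197244158993395900566138700955642082419738528428116704521058143533684495756191929457443918590812293387984623534097106769327264061246594868683492360351688494934262502521285991287001084883793231836547931499463308954023221382567316275393311554245358150975804427822992054387999361)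

noncomputable def t244 : Tre := Helper55.PC.toT t244n

theorem ok244 : chk K t244 r243 = true :=
  Helper55.PC.chkN_sound K t244n r243 (by decide +kernel)

noncomputable def t245 : Tre :=
  (.N [0,0,1,-2,-2] 1 ⟨0,[(0,0)]⟩ ⟨0,[(1,0)]⟩ (.x (-2) ⟨3,[(14,0),(5,1),(4,3),(0,0),(0,3),(6,3),(6,
  3),(1,3)]⟩ ⟨1,[(28,0),(3,1),(0,0),(4,0)]⟩))

theorem ok245 : chk K t245 l246 = true := by decide +kernel

noncomputable def t246 : Tre :=
  (.N [0,0,1,-1,2] (-1) ⟨0,[(5,0)]⟩ ⟨0,[(11,0)]⟩ (.x 1 ⟨0,[(0,0)]⟩ ⟨19,[(15,8),(5,0),(0,1),(4,8),(0,
  22),(4,11),(0,3),(0,3)]⟩))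

theorem ok246 : chk K t246 l247 = true := by decide +kernel

noncomputable def t247 : Tre :=
  (.N [0,0,1,-1,2] (-1) ⟨0,[(7,0)]⟩ ⟨0,[(13,0)]⟩ (.i (-1) ⟨0,[(1,0)]⟩ ⟨0,[(0,0)]⟩))

theorem ok247 : chk K t247 l249 = true := by decide +kernel

open Helper55.PC in
noncomputable def t248n : Helper55.PC.Ten :=
  (s
  1762169297515998063274376185519510746947298346766933605894856564948272583578476852313786445389148795280774826002513379748570297921541927776886334008107190730247701275766735561170378243751610751322259391928818950448321522269189271038680855325109065403996439468913566198575232019168419818319125768539561314662465585599105911419865660548580976676846295971691271121824529753941932700725396931726094611447886157274965954762094814155846086170620013122323049654868428044422720606366102356358454215535728586903147386288488598588306786729305250447716017998218239163032041437865641814852375193738557951037900848373286573857006481834625)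

noncomputable def t248 : Tre := Helper55.PC.toT t248n

theorem ok248 : chk K t248 r249 = true :=
  Helper55.PC.chkN_sound K t248n r249 (by decide +kernel)

noncomputable def t249 : Tre :=
  (.N [0,0,1,-1,2] (-1) ⟨0,[(8,0)]⟩ ⟨0,[(14,0)]⟩ (.i 0 ⟨0,[(1,0)]⟩ ⟨0,[(0,0)]⟩))

theorem ok249 : chk K t249 l251 = true := by decide +kernel

open Helper55.PC in
noncomputable def t250n : Helper55.PC.Ten :=
  (s
  8883254285037554043578317458684412671785767962754872450586161393270084324596871362155333266058022559872085460592825054436816030893762344165970198794214177086495261340804231728608156203429334644937147473473214347764764849017283352226291856546531524431873820199554130607624618186900807622064870972650846423346265571507755731105700686727442815787265403112664819537869256413724005475388065168812092722680230887693632834518128936141449343644313022709135238677509479768360073316893537516923491560207247052746245100802469285747625342173657458655693937464825706924063564500980650583550354869386995433795377561146799866429662883371549313)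

noncomputable def t250 : Tre := Helper55.PC.toT t250n

theorem ok250 : chk K t250 r251 = true :=
  Helper55.PC.chkN_sound K t250n r251 (by decide +kernel)

open Helper55.PC in
noncomputable def t251n : Helper55.PC.Ten :=
  (s
  1762169297515998063274376185519510746947298346766933605894856564948272583578476852313786445389148795280774826002513379748570297921541927776886334008107190730247701275766735561170378243751610751322259391928818950448321522269189271038680855325109065403996439468913566198575232019168419818319125768539561314662465585599105911419865660548580976676846295971691271121824529753941932700725396931726094611447886157274965954762094814155846086170620013122323049654868428044422720606366102356358454215535728586903147386288488598588306786729305250447716017998218239163032041437865641814852375193738557951037900848373286573857006481834625)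

noncomputable def t251 : Tre := Helper55.PC.toT t251n

theorem ok251 : chk K t251 r250 = true :=
  Helper55.PC.chkN_sound K t251n r250 (by decide +kernel)

noncomputable def t252 : Tre :=
  (.N [0,1,1,-2,-1] 1 ⟨0,[(1,0)]⟩ ⟨0,[(0,0)]⟩ (.x (-2) ⟨2,[(15,0),(5,0),(4,2),(0,0),(0,2),(6,1),(6,
  1),(1,2)]⟩ ⟨3,[(29,0),(3,1),(0,2),(4,0)]⟩))

theorem ok252 : chk K t252 l253 = true := by decide +kernel

noncomputable def t253 : Tre :=
  (.N [0,0,1,-1,2] (-1) ⟨0,[(6,0)]⟩ ⟨0,[(12,0)]⟩ (.x 1 ⟨0,[(0,0)]⟩ ⟨19,[(16,8),(5,0),(0,1),(4,8),(0,
  22),(4,11),(0,3),(0,3)]⟩))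

theorem ok253 : chk K t253 l254 = true := by decide +kernel

noncomputable def t254 : Tre :=
  (.N [0,-1,1,-1,-1] 0 ⟨0,[(1,0)]⟩ ⟨0,[(0,0)]⟩ (.x (-1) ⟨11,[(18,4),(5,1),(5,4),(0,11),(6,3),(6,3),
  (1,11)]⟩ ⟨0,[(36,0)]⟩))

theorem ok254 : chk K t254 l256 = true := by decide +kernel

noncomputable def t255 : Tre :=
  (.N [0,-3,1,0,-1] (-1) ⟨0,[(1,0)]⟩ ⟨0,[(0,0)]⟩ (.x 1 ⟨0,[(9,0),(23,0),(15,0)]⟩ ⟨37,[(4,5),(15,16),
  (5,1),(0,3),(3,29),(0,16),(5,23),(16,7)]⟩))

theorem ok255 : chk K t255 l258 = true := by decide +kernel

noncomputable def t256 : Tre :=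
  (.N [0,1,0,0,5] (-2) ⟨0,[(1,0)]⟩ ⟨0,[(0,0)]⟩ (.x 1 ⟨88,[(1,11),(21,29),(14,3),(0,57),(1,88),(5,
  53),(3,3),(0,88)]⟩ ⟨0,[(2,0)]⟩))

theorem ok256 : chk K t256 l261 = true := by decide +kernel

noncomputable def t257 : Tre :=
  (.N [0,0,1,-1,2] (-1) ⟨0,[(15,0)]⟩ ⟨0,[(21,0)]⟩ (.i (-1) ⟨0,[(1,0)]⟩ ⟨0,[(0,0)]⟩))

theorem ok257 : chk K t257 l263 = true := by decide +kernel

open Helper81.PXd in
noncomputable def t258n : Helper81.PXd.Ten :=
  (s
  50312778347264673739342439987583050490915194563487047915441682067786397951570605175288033744270930500971117306382484898130090145051074964310692945460676653997219386918667367934122689822919244766898673948477592821024457073570129253849872037291701384920574652655973432231796317442036250670832024162622173499193227683060929508317427179726886577734881474225103730372764693407824943168666245008849080100435211970501302179758912943090392010478417423425676193173194823193580139032566992167496622962562487105964845275589404718791539317279294862115778901117245624992307032338383535354580468907569850895004306265363151583495818438404939844133222093641316247110281768302965209796555954027711041320779887569949091755790918699563491197642765160838304960956327785361614880950240890574706304116483625898582920862901316277689668004737887725544350807315075032351377956412708278286546361436039009748880918470431624612784664915933282873166711935764930757249)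

noncomputable def t258 : Tre := Helper81.PXd.toT t258n

theorem ok258 : chk K t258 r263 = true :=
  Helper81.PXd.chkN_sound K t258n r263 (by decide +kernel)

noncomputable def t259 : Tre :=
  (.N [0,0,1,-1,2] (-1) ⟨0,[(16,0)]⟩ ⟨0,[(22,0)]⟩ (.i 0 ⟨0,[(1,0)]⟩ ⟨0,[(0,0)]⟩))

theorem ok259 : chk K t259 l265 = true := by decide +kernel

open Helper81.PXd in
noncomputable def t260n : Helper81.PXd.Ten :=
  (s
  30219585802445268984135258079842829259807908334432853991952743860401645514275651273140770786155670078677328138598198491756815079160233321736549938456689085627848419254050121596929533989002220028477917175665154736332326035518294272928952948475342181068846037009302448660617057000199357858994001473900764604826532320088822056185301793977919971385900712678977817120185055490730208948923036616680591472637777175739377910324158874144470021692158528076018869197837375610639750225606186374373535304493676158327666880383465739880611059686707985155911490321382943552349726697155639890100340354735123883252935163183964362440298776138213126015993230965353891614354177733128491047083932226044992821325593348505152076157090628325403528869129421160088381415437402536040573442704322103570117581386152577903451530772737888511930902345110472320947509980283750321670972947664616689032142284420721883958724136527027719876038420739011444793850537735262392458150529)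

noncomputable def t260 : Tre := Helper81.PXd.toT t260n

theorem ok260 : chk K t260 r265 = true :=
  Helper81.PXd.chkN_sound K t260n r265 (by decide +kernel)

open Helper81.PXd in
noncomputable def t261n : Helper81.PXd.Ten :=
  (s
  50312778347264673739342439987583050490915194563487047915441682067786397951570605175288033744270930500971117306382484898130090145051074964310692945460676653997219386918667367934122689822919244766898673948477592821024457073570129253849872037291701384920574652655973432231796317442036250670832024162622173499193227683060929508317427179726886577734881474225103730372764693407824943168666245008849080100435211970501302179758912943090392010478417423425676193173194823193580139032566992167496622962562487105964845275589404718791539317279294862115778901117245624992307032338383535354580468907569850895004306265363151583495818438404939844133222093641316247110281768302965209796555954027711041320779887569949091755790918699563491197642765160838304960956327785361614880950240890574706304116483625898582920862901316277689668004737887725544350807315075032351377956412708278286546361436039009748880918470431624612784664915933282873166711935764930757249)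

noncomputable def t261 : Tre := Helper81.PXd.toT t261n

theorem ok261 : chk K t261 r264 = true :=
  Helper81.PXd.chkN_sound K t261n r264 (by decide +kernel)

noncomputable def t262 : Tre :=
  (.N [0,0,1,-1,2] (-1) ⟨0,[(14,0)]⟩ ⟨0,[(20,0)]⟩ (.i (-1) ⟨0,[(1,0)]⟩ ⟨0,[(0,0)]⟩))

theorem ok262 : chk K t262 l267 = true := by decide +kernel

open Helper55.PC in
noncomputable def t263n : Helper55.PC.Ten :=
  (s
  25525478200163740968806153718405517625601874464650919277961797337986577116958009742783483415450377836727209649045668335781792508021492776092565032005438702013945643970425101908129823756819714876169266200148717418072586054844758982905780495474390916416961482168748584606510269713766809582345384870892945440297491208533083676359976749789728572075150759829817843153197531610632418248980931236050023480378270125542473901406154050454025926823781256868856953078737502226702971058221757000998904699485464022058204766808546949667797212501196666901301420065554495206260498705392114734932442522941553599039152700752882734818834940021022799273672933705496936693068319356410037346411029747204737)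

noncomputable def t263 : Tre := Helper55.PC.toT t263n

theorem ok263 : chk K t263 r267 = true :=
  Helper55.PC.chkN_sound K t263n r267 (by decide +kernel)

noncomputable def t264 : Tre :=
  (.N [0,0,1,-1,2] (-1) ⟨0,[(14,0)]⟩ ⟨0,[(20,0)]⟩ (.i 1 ⟨0,[(21,0),(16,0),(19,1)]⟩ ⟨0,[(0,0)]⟩))

theorem ok264 : chk K t264 l268 = true := by decide +kernel

noncomputable def t265 : Tre :=
  (.N [0,0,1,-1,2] (-1) ⟨0,[(16,0)]⟩ ⟨0,[(22,0)]⟩ (.i 0 ⟨0,[(0,0)]⟩ ⟨0,[(1,0)]⟩))

theorem ok265 : chk K t265 l270 = true := by decide +kernel

open Helper55.PC in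
noncomputable def t266n : Helper55.PC.Ten :=
  (s
  3343022929019403559670711504912152759930506070605942910835057957932771456410639780687685969406631589164033909110251183154923554290979969034026428569431820437052780935335561169978954346011917363992280885172856946425651803932132092901294175602842802741393969743905069950744326216098538496398326483843797694931298254594570095961331945064588482735842057806387089564126365444173229164827756065622526673221855120659376885524822343415078942712525446256520422562177073748169434842854838170999752742721917314528435501409131976828573077483507038771492416017904161353212773840327651006892283386674002354175426222212393641991646253886649523125211393066222277531703526224616126223065517904303981584394439487408556737153)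

noncomputable def t266 : Tre := Helper55.PC.toT t266n

theorem ok266 : chk K t266 r270 = true :=
  Helper55.PC.chkN_sound K t266n r270 (by decide +kernel)

open Helper55.PC in
noncomputable def t267n : Helper55.PC.Ten :=
  (s
  3343022929019403559670711504912152759930458839248656057067535241176843860195077794566799453354040279161518956004424924094420896061059340264543365705099670265131733413955823627789801821255295480736090550444302174890648363569714043427132359378234373368075002499650598043912478171378071744761422273753355507163182268080953531047866782322477994647710231785652926669895820954311760622425451282988520699577260442789992137505931269186115820310935401634303657757677113330709789944935406947614803947795293739331021330338135670739635008374338537049262519836076664801288731689232065831167350128639517979641285408601120580022114135977880492314785448078260702000011725655302083168757698599925755825789845681736554381953)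

noncomputable def t267 : Tre := Helper55.PC.toT t267n

theorem ok267 : chk K t267 r269 = true :=
  Helper55.PC.chkN_sound K t267n r269 (by decide +kernel)

noncomputable def t268 : Tre :=
  (.N [0,1,0,0,5] (-2) ⟨0,[(2,0)]⟩ ⟨0,[(0,0)]⟩ (.x 2 ⟨0,[(1,0)]⟩ ⟨11,[(2,1),(21,4),(3,0),(1,1),(6,
  23),(6,3),(6,3)]⟩))

theorem ok268 : chk K t268 l273 = true := by decide +kernel

noncomputable def t269 : Tre :=
  (.N [0,0,1,-1,2] (-1) ⟨0,[(16,0)]⟩ ⟨0,[(22,0)]⟩ (.i (-1) ⟨0,[(1,0)]⟩ ⟨0,[(0,0)]⟩))

theorem ok269 : chk K t269 l275 = true := by decide +kernel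

open Helper55.PC in
noncomputable def t270n : Helper55.PC.Ten :=
  (s
  12842630424478051815400894768928519961928297314760451460349480554629881236714037012896635356554316783939183657934159621053168464139634265134468817265790198084829787949954288138372829818075078761247957104991685190415991615112639614253541903400444882549603881643599589123395593746293871313763584828250936650412217863281134279196055229583213771614129148947527963502920067298470059598821527650226589014871840651747966787862202117904663313788871149907788076480568440224707922479442807221639097177313274953757203382928043412599263997469741119143923341420493324443307703816064876436925901598524692717369581900502844538978232217998813280085952803020208114734986646483595032844952252034581121)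

noncomputable def t270 : Tre := Helper55.PC.toT t270n

theorem ok270 : chk K t270 r275 = true :=
  Helper55.PC.chkN_sound K t270n r275 (by decide +kernel)

noncomputable def t271 : Tre :=
  (.N [0,0,1,-1,2] (-1) ⟨0,[(17,0)]⟩ ⟨0,[(23,0)]⟩ (.i 0 ⟨0,[(1,0)]⟩ ⟨0,[(0,0)]⟩))

theorem ok271 : chk K t271 l277 = true := by decide +kernel

open Helper81.PXd in
noncomputable def t272n : Helper81.PXd.Ten :=
  (s
  23300474510676013236678252609469060404361530768404050678571151383097097225427739095859406635575234748391735380394148036172995480860603724368563967405529375105558629303682280650274824984120389872157582299233748923453745413907170762685768605909984518299237547711980883137312965528122286619389785775056204261278805064790659126745148759958649407654799581700933499358283925098639584160766875248664385712803225079182844584410862022908063803053123552705007807961950888281145669348209961587269439360228870744719355590417135005317668848656536833451490802364968818091899006728029232143536456548762653243555712045358429732805732983976565725061660305680130368222968776176196007924584700410106777153044468033985147625990257903158515875537087756201112533939282533385351031280112498510558277691454037212013254997405452820702587076454495912916370069138743478401056526336889431482424678969066186081566254338194221681518058668673)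

noncomputable def t272 : Tre := Helper81.PXd.toT t272n

theorem ok272 : chk K t272 r277 = true :=
  Helper81.PXd.chkN_sound K t272n r277 (by decide +kernel)

open Helper55.PC in
noncomputable def t273n : Helper55.PC.Ten :=
  (s
  12842630424478051815400894768928519961928297314760451460349480554629881236714037012896635356554316783939183657934159621053168464139634265134468817265790198084829787949954288138372829818075078761247957104991685190415991615112639614253541903400444882549603881643599589123395593746293871313763584828250936650412217863281134279196055229583213771614129148947527963502920067298470059598821527650226589014871840651747966787862202117904663313788871149907788076480568440224707922479442807221639097177313274953757203382928043412599263997469741119143923341420493324443307703816064876436925901598524692717369581900502844538978232217998813280085952803020208114734986646483595032844952252034581121)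

noncomputable def t273 : Tre := Helper55.PC.toT t273n

theorem ok273 : chk K t273 r276 = true :=
  Helper55.PC.chkN_sound K t273n r276 (by decide +kernel)

noncomputable def t274 : Tre :=
  (.N [0,0,1,-1,2] (-1) ⟨0,[(15,0)]⟩ ⟨0,[(21,0)]⟩ (.i (-1) ⟨0,[(1,0)]⟩ ⟨0,[(0,0)]⟩))

theorem ok274 : chk K t274 l279 = true := by decide +kernel

open Helper81.PXd in
noncomputable def t275n : Helper81.PXd.Ten :=
  (s
  211027087473045610123618953409679539006247564218411979019928708895950339117719821313125753124593044071248016667538580756602621543786588024660835990651805215258123866521829883595167137000717950036664530299016721741258711817212906853235696877246742907785712795215368543783894076979794554983263039369409549458448307496444089082092224606226742140066158996904030195245479497107195181028262414970419241608032460143679243080487661135089193706011391037868946724089542985058912270077568358927925523612492230099862375169593507908323262444429584613670803363160326430957369368819838086309797799586258456233640473281631871101947496573596179896374370671691169071235284755375945276826660793175658301038549273428213037914323093409446592384584664873325752891675028815889871457629073311611272244345059135234946323460079167555442472992563197713215712799472374101964982615817877745950678410779334789669394471538008133624782683402395162845536967642901008193627882113)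

noncomputable def t275 : Tre := Helper81.PXd.toT t275n

theorem ok275 : chk K t275 r279 = true :=
  Helper81.PXd.chkN_sound K t275n r279 (by decide +kernel)

open Helper81.PXd in
noncomputable def t276n : Helper81.PXd.Ten :=
  (s
  690093345777116693002418578660018253548981775096837891839618690053954202140582563788123572378917767439881407841454184720169695410783072318962349071272125857663235305516276184715686615007238885709946631157719039893446219558600216120808340213406493039249881836364343747576691492213443865747014325675700993094389661671963963479458635961123551229150002858069141225288456951514694051236836509258552621489626019032682789291082616801245577105831725243308880430674448397012192867082131616184404936143984536627528937813713754786790950426580497712384218379989915835480361408316398550089809364853311770282850903042420646961205626381008298967804752838002940597276497481988101475146847825843014255620870885107484778214713495841322742842528942936981085195081342817146723776588638890515513372219010902646634414266355575884924278797762714082091895451948430373346074430452009688896654153809458203602132918699664468755793270464720695029212378984741165614662426389355882935927559141555170734751375051642110593)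

noncomputable def t276 : Tre := Helper81.PXd.toT t276n

theorem ok276 : chk K t276 r278 = true :=
  Helper81.PXd.chkN_sound K t276n r278 (by decide +kernel)

noncomputable def t277 : Tre :=
  (.N [0,0,1,-1,2] (-1) ⟨0,[(14,0)]⟩ ⟨0,[(20,0)]⟩ (.i 0 ⟨0,[(0,0)]⟩ ⟨0,[(1,0)]⟩))

theorem ok277 : chk K t277 l281 = true := by decide +kernel

open Helper55.PC in
noncomputable def t278n : Helper55.PC.Ten :=
  (s
  4237955228625821785911458599877257354432279274130699074566806507651762158326696978502884284351570551769261013957806785150012561273378214230463717871194142281919680463144898280347933396693572490997450537244804281988050651434356777218729484806314600699040238540278725657679449869659057890988071025752230391204065904359319577520144488267979766756435823689540154919721503520872085770144939480264378598401040641411878815297655732664526817720150236863689089240120769511301441298533305232450015168825933037979339404375737327921801721741550572849796963173471771797683784135979203961025412123970097820611329723828822890011249607297)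

noncomputable def t278 : Tre := Helper55.PC.toT t278n

theorem ok278 : chk K t278 r281 = true :=
  Helper55.PC.chkN_sound K t278n r281 (by decide +kernel)

open Helper55.PC in
noncomputable def t279n : Helper55.PC.Ten :=
  (s
  10739195467384194698525042566727154855009439282742982189316069834755824065734077165060777764227121208288570205186062389360311389244094434896905307778236059880772229354625697250216197218862171326496096722070092032164234309243665634399568683072371881799041371563065554966927400483453381320148841601099480868371203808580338482374218620923631856443888231154136993501864866297183958966258596405369034551799665809992779277816058417006060157434724243486536950838514268382782275407796058177300319245500122833199658981395018493240838078367264732964372586458722961329208109095082766327369143856732621473122556595675733700926875592698287626379049753944805451235969)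

noncomputable def t279 : Tre := Helper55.PC.toT t279n

theorem ok279 : chk K t279 r280 = true :=
  Helper55.PC.chkN_sound K t279n r280 (by decide +kernel)

noncomputable def t280 : Tre :=
  (.N [0,0,1,-1,2] (-1) ⟨0,[(11,0)]⟩ ⟨0,[(17,0)]⟩ (.i 0 ⟨0,[(0,0)]⟩ ⟨0,[(1,0)]⟩))

theorem ok280 : chk K t280 l283 = true := by decide +kernel

open Helper55.PC in
noncomputable def t281n : Helper55.PC.Ten :=
  (s
  23903777604208053573358842811966417912204856208829489398526172765822575735358450416207287069725387213983980656095625311135093730419418660649005632933954609171057991749945177690013894979275295788538563022403708545442776953566979328111266664792872240479870441938276734363181241877373834239526981443736714134543434749756359796277202442790643325885338366869595283178213136335549273105581303229716325700983181781482528307281347025303387348964398498405320250862519488414206538503785939116079153936487100694052292089890119258438543991636500642234209500150526457850263087540564807199073215896122511328089455199658703316420737311383822888506795258926508982961299403344878894462561553986093697)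

noncomputable def t281 : Tre := Helper55.PC.toT t281n

theorem ok281 : chk K t281 r283 = true :=
  Helper55.PC.chkN_sound K t281n r283 (by decide +kernel)

open Helper55.PC in
noncomputable def t282n : Helper55.PC.Ten :=
  (s
  198103190344377838876599816516342812235706166530317825717261118466076590456500454175696939008575895951266285923043299929289235283055321328971064633014382006318272314323784837612293772341918039317502516026259185381923904751881856052589257286821955235221844185690712344984496815191850507435745792325734985986436104071179529806900923225815270244754045615403238028793930147832827177396658569816184497724474993342295681245461974272386861674758435054596503330120991087282652494967019495991626594763391705441597963655874871788090723046900773805123954433246157997288350769329779543916485425790961033798142322869646566376952917353326957904481474153833502819550787950560354189181569)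

noncomputable def t282 : Tre := Helper55.PC.toT t282n

theorem ok282 : chk K t282 r282 = true :=
  Helper55.PC.chkN_sound K t282n r282 (by decide +kernel)

noncomputable def t283 : Tre :=
  (.N [0,3,0,0,7] (-2) ⟨0,[(0,0)]⟩ ⟨0,[(1,0)]⟩ (.x 2 ⟨0,[(37,1),(6,0),(3,1)]⟩ ⟨27,[(0,1),(18,6),(3,
  2),(1,13),(6,55),(6,27),(6,27)]⟩))

theorem ok283 : chk K t283 l285 = true := by decide +kernel

noncomputable def t284 : Tre :=
  (.N [0,0,1,-1,2] (-1) ⟨0,[(11,0)]⟩ ⟨0,[(17,0)]⟩ (.i (-1) ⟨0,[(1,0)]⟩ ⟨0,[(0,0)]⟩))

theorem ok284 : chk K t284 l287 = true := by decide +kernel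

open Helper55.PC in
noncomputable def t285n : Helper55.PC.Ten :=
  (s
  54995276088894439562674867122409225834630608658270763974664520284186197541691290889189969013410933406861412673152032690746304775757438959799764069556964551472264896131905761976899093740624257626144324762652501349291605376108771215347647710941293445298178121619673906512467894449076879369538439359182691718725222119584264910362026245308431260368336294517650014867536874618774762082055909057166512927453932892546179017587292052799660539876935727461906596350895055935986835399816208934826922825767870900170311070504430818780602428111658318942895074057959249270962676135208132191920237098658102406710835581147350311857364625401123361015400454407225175406805633)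

noncomputable def t285 : Tre := Helper55.PC.toT t285n

theorem ok285 : chk K t285 r287 = true :=
  Helper55.PC.chkN_sound K t285n r287 (by decide +kernel)

open Helper55.PC in
noncomputable def t286n : Helper55.PC.Ten :=
  (s
  2500413792995780918303526229025207296815423398524278950365402148614509407842620502273090112823584242204884390531175382288464182758533233512872879689942584435070047939150082554417975923071512401845872237485164245482203419986915607015956531130056352842523761857779426047872612528857501027314298320475612377858624027552598514667179960892460626209151868566737841262559353006290460782125984252996667257539967825441882281143759796284218563035809876034348974519865827621247698145699748966227408790139980509218354962784922454037123762936122111736321729790094515652330805109011601660357667704024661226842829738894687777681320177726280203177101209109121)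

noncomputable def t286 : Tre := Helper55.PC.toT t286n

theorem ok286 : chk K t286 r286 = true :=
  Helper55.PC.chkN_sound K t286n r286 (by decide +kernel)

noncomputable def t287 : Tre :=
  (.N [0,0,1,-1,2] (-1) ⟨0,[(10,0)]⟩ ⟨0,[(16,0)]⟩ (.i 0 ⟨0,[(0,0)]⟩ ⟨0,[(1,0)]⟩))

theorem ok287 : chk K t287 l289 = true := by decide +kernel

open Helper55.PC in
noncomputable def t288n : Helper55.PC.Ten :=
  (s
  1014483783274834111146670526361475198325918323972146057038500423728392147660539953943796456515609633440932768372070640968562676717120721218287158745375556863353716048852677444159433907276006459565254526631398722185310120388320593179604207113026927270422675718687073424211791039394715374302098420029143173580346157970472079844586734302528852963300607518930871593124673413526941940809803207235678268959817342553237202775656631701174413176648298019773192494961434050055874734024970682385521256820414013370534281944299038580914655480232151489300381389617181313545193221433779596186276326119330026967148419395478108180200657482359447401619890535736355139218205571660478160791667329)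

noncomputable def t288 : Tre := Helper55.PC.toT t288n

theorem ok288 : chk K t288 r289 = true :=
  Helper55.PC.chkN_sound K t288n r289 (by decide +kernel)

open Helper55.PC in
noncomputable def t289n : Helper55.PC.Ten :=
  (s
  1014483783274834111146670526361475159257055253528682319161636573397306486764969821571106669538474351045286229495696896287892143466873265498840609030645244873628940110067068081200318246829038349653633380098341158347609250553738223133661249970111022451336065762646644472593736975546017017781356870728927007798813770160732817508781452833394756862086639887244776073177283956095739267509712364641705463011626377657019486356767636013144347933964311064307828506241559267196246337713076728373443779707499836206882150240974326612493235090995465322054802446520615432091312720315748524191271491182431688616789785088473967308107627714101817400960673582218356024290787056777509054486413953)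

noncomputable def t289 : Tre := Helper55.PC.toT t289n

theorem ok289 : chk K t289 r288 = true :=
  Helper55.PC.chkN_sound K t289n r288 (by decide +kernel)

noncomputable def t290 : Tre :=
  (.N [0,0,1,-1,2] (-1) ⟨0,[(5,0)]⟩ ⟨0,[(11,0)]⟩ (.x 1 ⟨0,[(0,0)]⟩ ⟨19,[(15,8),(5,0),(0,1),(4,8),(0,
  22),(4,11),(0,3),(0,3)]⟩))

theorem ok290 : chk K t290 l290 = true := by decide +kernel

noncomputable def t291 : Tre :=
  (.N [0,3,0,0,5] (-1) ⟨0,[(1,0)]⟩ ⟨0,[(0,0)]⟩ (.x 1 ⟨0,[(35,0),(6,1),(3,0)]⟩ ⟨3,[(17,0),(5,1),(5,
  0),(0,3),(6,3),(6,3)]⟩))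

theorem ok291 : chk K t291 l292 = true := by decide +kernel

noncomputable def t292 : Tre :=
  (.N [0,0,1,-1,2] (-1) ⟨0,[(9,0)]⟩ ⟨0,[(15,0)]⟩ (.i 0 ⟨0,[(0,0)]⟩ ⟨0,[(1,0)]⟩))

theorem ok292 : chk K t292 l294 = true := by decide +kernel

open Helper55.PC in
noncomputable def t293n : Helper55.PC.Ten :=
  (s
  27205999792123450356179531075010947474729180764076502972636242624275566521808361437709425577305493070613075591744090690987888043076669186143373108906018314919088023882046839427760961336617991128253942793422558505582894402473478644851969572485562945831583614851793160052842746085229542909456603690257662498624532651300712825850760821461336717698414801937966612336024092400787713455533597264564232944991156872864838585291514479797282702980991337199412752015083634296606675801040189805953431935112745177772160057626417254746510620627256367889577857973995550733400057645250420710566253099310371054333697136916455136036649932643115827805832207851445035811735996102161203841)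

noncomputable def t293 : Tre := Helper55.PC.toT t293n

theorem ok293 : chk K t293 r294 = true :=
  Helper55.PC.chkN_sound K t293n r294 (by decide +kernel)

open Helper55.PC in
noncomputable def t294n : Helper55.PC.Ten :=
  (s
  27205999792123450356179531075010947474729180761958575661760567692268583376667675848333534303450169295819314904880165901023420231618609721900976656538033818458306953749986178463216200720077782795402610559481622786594856515975487549600152502936724541667199795216787518225382449089751393105098568776828184896962386333599074188414095579834315153108325473548579839996945788002267752094846319489414224412333091924730789867240022760584568536900605969427374391724225488492504990873548553319468513736291751192087078840823971641087501397832913573863548842705113597718309490188027769726335339706822993546121822155623998900079676896759694287344023674074116637209365855964169765505)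

noncomputable def t294 : Tre := Helper55.PC.toT t294n

theorem ok294 : chk K t294 r293 = true :=
  Helper55.PC.chkN_sound K t294n r293 (by decide +kernel)

noncomputable def t295 : Tre :=
  (.N [0,0,1,-1,2] (-1) ⟨0,[(8,0)]⟩ ⟨0,[(14,0)]⟩ (.i 0 ⟨0,[(0,0)]⟩ ⟨0,[(1,0)]⟩))

theorem ok295 : chk K t295 l296 = true := by decide +kernel

open Helper55.PC in
noncomputable def t296n : Helper55.PC.Ten :=
  (s
  10244168519511491554085802504463392166612867105503941249624358008592875322749018219622464231451663604039324710702387013049300796185221459061784126368792236649816148658037953589657479825306132187646720514966078216083233806306083553482596411366040495758643187117692350816949883629172375569687547055094830197763004699779629703939252355563845147692170236750375698470889752344701687427392985871133590965569110791368824610978185984677751081414547265669186332138709123434143980495844589451806876094055921018553943007770497483028195025967625836356355061595405601444520582043295832398685851102610260239618598871853178229413830885389799127894963697344316033)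

noncomputable def t296 : Tre := Helper55.PC.toT t296n

theorem ok296 : chk K t296 r296 = true :=
  Helper55.PC.chkN_sound K t296n r296 (by decide +kernel)

open Helper55.PC in
noncomputable def t297n : Helper55.PC.Ten :=
  (i 178122849317747314073091941532421841706156075 (s
  850846723762365700979433387449575570073889704011248326532433475053114131151251831057604516902249129088344980958092983611725878058050593350470982947451931338133835124452240190704633813881168914156389796310845714333198228227506052651668516992340796427756292539503942937147709275500171017329521371861760623890459958182009262294823352510133288291815831735939524923090425388875860378022841764082896245417317739096983952784929663108771539108467007309738711364316316822403427641434859900664592376949192217887902778757464237977239035987200407076079653611320292462659502896450219752096487011535136734763684743928744058418406060910823148694170054774083482686276298660333440069596147511984769)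
  (s
  724910999145464216701911815308545740909742927071289757403328397723288343340714952599167729164782657068352142623881972126777439514980367242007546328027630997081780105536077183431030902343896727020073433114498974237085934685591590227522419994075265235521598857606230136966160336173445039830131221181821541322868976707197536977513095148999688232139004504763464651996417606223624892815727367686821132212925452963700957013583769802834255758237709728612916865609683537805928284389573394541295732167304134732625411209811367756442100505673724513081126692686531380135750634021303297757968027369639414778436138289504838281804374557363639536878873721251410300405630372613465043552211040920887362177))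

noncomputable def t297 : Tre := Helper55.PC.toT t297n

theorem ok297 : chk K t297 r295 = true :=
  Helper55.PC.chkN_sound K t297n r295 (by decide +kernel)

theorem cl0 : Clo K (Helper55.TR.GH (-1) Helper55.TR.BrU [0,0,1]) r9 :=
  .w [n0,n0,n0,n0,n0,n0,n0,n0,n0,n0,n0,n0,n1,m1,n2] (e' := [n1,n0,n0,n0,n0,n0,n0,n0,n0,n0,n0,n0,m1,n1,m2]) (by decide +kernel)
  (.t t5 ok5) (.t t6 ok6)

theorem cl1 : Clo K (Helper55.TR.GH (-1) Helper55.TR.BrU [0,0,1]) r8 :=
  .w [n0,n0,n0,n0,n0,n0,n0,n0,n0,n0,n0,m1,n1,m1,n2] (e' := [n1,n0,n0,n0,n0,n0,n0,n0,n0,n0,n0,n1,m1,n1,m2])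
  (by decide +kernel) (.t t4 ok4) cl0

theorem cl2 : Clo K (Helper55.TR.GH (-1) Helper55.TR.BrU [0,0,1]) l7 :=
  .i [n1,n0,n1,n1,n3,n0,n0,n0,n0,n0,n7] (e' := [n0,n0,m1,m1,m3,n0,n0,n0,n0,n0,m7]) (by decide +kernel)
  (by decide +kernel) (.t t3 ok3) cl1

theorem cl3 : Clo K (Helper55.TR.GH (-1) Helper55.TR.BrU [0,0,1]) l14 :=
  .w [n0,n0,n0,n0,n0,n0,n0,n0,n0,n0,n0,n1,m1,n1,m2] (e' := [n1,n0,n0,n0,n0,n0,n0,n0,n0,n0,n0,m1,n1,m1,n2])
  (by decide +kernel) (.t t9 ok9) (.t t10 ok10)

theorem cl4 : Clo K (Helper55.TR.GH (-1) Helper55.TR.BrU [0,0,1]) r13 :=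
  .w [n0,n0,n0,n0,n0,n0,n0,n0,n0,n0,n0,n0,n1,m1,n2] (e' := [n1,n0,n0,n0,n0,n0,n0,n0,n0,n0,n0,n0,m1,n1,m2]) (by decide +kernel)
  cl3 (.t t11 ok11)

theorem cl5 : Clo K (Helper55.TR.GH (-1) Helper55.TR.BrU [0,0,1]) r12 :=
  .w [n0,n0,n0,n0,n0,n0,n0,n0,n0,n0,n0,m1,n1,m1,n2] (e' := [n1,n0,n0,n0,n0,n0,n0,n0,n0,n0,n0,n1,m1,n1,m2])
  (by decide +kernel) (.t t8 ok8) cl4

theorem cl6 : Clo K (Helper55.TR.GH (-1) Helper55.TR.BrU [0,0,1]) l11 :=
  .i [n1,n0,m1,m1,m2,n0,n0,n0,n0,n0,m5] (e' := [n0,n0,n1,n1,n2,n0,n0,n0,n0,n0,n5]) (by decide +kernel)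
  (by decide +kernel) (.t t7 ok7) cl5

theorem cl7 : Clo K (Helper55.TR.GH (-1) Helper55.TR.BrU [0,0,1]) l17 :=
  .w [n0,n0,n0,n0,n0,n0,n0,n0,n0,n0,n0,n1,m1,n1,m2] (e' := [n1,n0,n0,n0,n0,n0,n0,n0,n0,n0,n0,m1,n1,m1,n2])
  (by decide +kernel) (.t t13 ok13) (.t t14 ok14)

theorem cl8 : Clo K (Helper55.TR.GH (-1) Helper55.TR.BrU [0,0,1]) r16 :=
  .w [n0,n0,n0,n0,n0,n0,n0,n0,n0,n0,n0,n0,n1,m1,n2] (e' := [n1,n0,n0,n0,n0,n0,n0,n0,n0,n0,n0,n0,m1,n1,m2]) (by decide +kernel)
  cl7 (.t t15 ok15)

theorem cl9 : Clo K (Helper55.TR.GH (-1) Helper55.TR.BrU [0,0,1]) r11 :=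
  .w [n0,n0,n0,n0,n0,n0,n0,n0,n0,n0,n0,m1,n1,m1,n2] (e' := [n1,n0,n0,n0,n0,n0,n0,n0,n0,n0,n0,n1,m1,n1,m2])
  (by decide +kernel) (.t t12 ok12) cl8

theorem cl10 : Clo K (Helper55.TR.GH (-1) Helper55.TR.BrU [0,0,1]) r7 :=
  .i [n1,n0,n1,n1,n2,n0,n0,n0,n0,n0,n5] (e' := [n0,n0,m1,m1,m2,n0,n0,n0,n0,n0,m5]) (by decide +kernel)
  (by decide +kernel) cl6 cl9

theorem cl11 : Clo K (Helper55.TR.GH (-1) Helper55.TR.BrU [0,0,1]) l6 :=
  .i [n1,n0,m1,m1,m3,n0,n0,n0,n0,n0,m7] (e' := [n0,n0,n1,n1,n3,n0,n0,n0,n0,n0,n7]) (by decide +kernel)
  (by decide +kernel) cl2 cl10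

theorem cl12 : Clo K (Helper55.TR.GH (-1) Helper55.TR.BrU [0,0,1]) r21 :=
  .w [n0,n0,n0,n0,n0,n0,n0,n0,n0,n0,n0,m1,n1,m1,n2] (e' := [n1,n0,n0,n0,n0,n0,n0,n0,n0,n0,n0,n1,m1,n1,m2])
  (by decide +kernel) (.t t17 ok17) (.t t18 ok18)

theorem cl13 : Clo K (Helper55.TR.GH (-1) Helper55.TR.BrU [0,0,1]) l20 :=
  .i [n0,n0,m6,n0,n3,m1] (e' := [n1,n0,n6,n0,m3,n1]) (by decide +kernel) (by decide +kernel) (.t t16 ok16)
  cl12

theorem cl14 : Clo K (Helper55.TR.GH (-1) Helper55.TR.BrU [0,0,1]) l24 :=
  .w [n0,n0,n0,n0,n0,n0,n0,n0,n0,n0,n0,n1,m1,n1,m2] (e' := [n1,n0,n0,n0,n0,n0,n0,n0,n0,n0,n0,m1,n1,m1,n2])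
  (by decide +kernel) (.t t20 ok20) (.t t21 ok21)

theorem cl15 : Clo K (Helper55.TR.GH (-1) Helper55.TR.BrU [0,0,1]) r23 :=
  .w [n0,n0,n0,n0,n0,n0,n0,n0,n0,n0,n0,n0,n1,m1,n2] (e' := [n1,n0,n0,n0,n0,n0,n0,n0,n0,n0,n0,n0,m1,n1,m2]) (by decide +kernel)
  cl14 (.t t22 ok22)

theorem cl16 : Clo K (Helper55.TR.GH (-1) Helper55.TR.BrU [0,0,1]) r20 :=
  .w [n0,n0,n0,n0,n0,n0,n0,n0,n0,n0,n0,m1,n1,m1,n2] (e' := [n1,n0,n0,n0,n0,n0,n0,n0,n0,n0,n0,n1,m1,n1,m2])
  (by decide +kernel) (.t t19 ok19) cl15

theorem cl17 : Clo K (Helper55.TR.GH (-1) Helper55.TR.BrU [0,0,1]) l19 :=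
  .i [n1,n0,m1,m1,m3,n0,n0,n0,n0,n0,m7] (e' := [n0,n0,n1,n1,n3,n0,n0,n0,n0,n0,n7]) (by decide +kernel)
  (by decide +kernel) cl13 cl16

theorem cl18 : Clo K (Helper55.TR.GH (-1) Helper55.TR.BrU [0,0,1]) r19 :=
  .w [n0,n0,n0,n0,n0,n0,n0,n0,n0,n0,n0,m1,n1,m1,n2] (e' := [n1,n0,n0,n0,n0,n0,n0,n0,n0,n0,n0,n1,m1,n1,m2])
  (by decide +kernel) (.t t23 ok23) (.t t24 ok24)

theorem cl19 : Clo K (Helper55.TR.GH (-1) Helper55.TR.BrU [0,0,1]) r6 :=
  .i [n1,n0,n1,n1,n3,n0,n0,n0,n0,n0,n7] (e' := [n0,n0,m1,m1,m3,n0,n0,n0,n0,n0,m7]) (by decide +kernel)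
  (by decide +kernel) cl17 cl18

theorem cl20 : Clo K (Helper55.TR.GH (-1) Helper55.TR.BrU [0,0,1]) r5 :=
  .i [n0,n0,n6,n0,m3,n1] (e' := [n1,n0,m6,n0,n3,m1]) (by decide +kernel) (by decide +kernel) cl11 cl19

theorem cl21 : Clo K (Helper55.TR.GH (-1) Helper55.TR.BrU [0,0,1]) l4 :=
  .i [n1,n0,m3,m3,n2,n0,n0,n0,n0,n1,n1] (e' := [n0,n0,n3,n3,m2,n0,n0,n0,n0,m1,m1]) (by decide +kernel)
  (by decide +kernel) (.t t2 ok2) cl20

theorem cl22 : Clo K (Helper55.TR.GH (-1) Helper55.TR.BrU [0,0,1]) r32 :=
  .w [n0,n0,n0,n0,n0,n0,n0,n0,n0,n0,n0,m1,n1,m1,n2] (e' := [n1,n0,n0,n0,n0,n0,n0,n0,n0,n0,n0,n1,m1,n1,m2])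
  (by decide +kernel) (.t t28 ok28) (.t t29 ok29)

theorem cl23 : Clo K (Helper55.TR.GH (-1) Helper55.TR.BrU [0,0,1]) r31 :=
  .i [n0,n0,n4,n0,m2,n1] (e' := [n1,n0,m4,n0,n2,m1]) (by decide +kernel) (by decide +kernel) (.t t27 ok27)
  cl22

theorem cl24 : Clo K (Helper55.TR.GH (-1) Helper55.TR.BrU [0,0,1]) l30 :=
  .i [n0,n0,m4,n0,n2,m1] (e' := [n1,n0,n4,n0,m2,n1]) (by decide +kernel) (by decide +kernel) (.t t26 ok26)
  cl23

theorem cl25 : Clo K (Helper55.TR.GH (-1) Helper55.TR.BrU [0,0,1]) l35 :=
  .w [n0,n0,n0,n0,n0,n0,n0,n0,n0,n0,n0,n1,m1,n1,m2] (e' := [n1,n0,n0,n0,n0,n0,n0,n0,n0,n0,n0,m1,n1,m1,n2])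
  (by decide +kernel) (.t t31 ok31) (.t t32 ok32)

theorem cl26 : Clo K (Helper55.TR.GH (-1) Helper55.TR.BrU [0,0,1]) r34 :=
  .w [n0,n0,n0,n0,n0,n0,n0,n0,n0,n0,n0,n0,n1,m1,n2] (e' := [n1,n0,n0,n0,n0,n0,n0,n0,n0,n0,n0,n0,m1,n1,m2]) (by decide +kernel)
  cl25 (.t t33 ok33)

theorem cl27 : Clo K (Helper55.TR.GH (-1) Helper55.TR.BrU [0,0,1]) r30 :=
  .w [n0,n0,n0,n0,n0,n0,n0,n0,n0,n0,n0,m1,n1,m1,n2] (e' := [n1,n0,n0,n0,n0,n0,n0,n0,n0,n0,n0,n1,m1,n1,m2])
  (by decide +kernel) (.t t30 ok30) cl26

theorem cl28 : Clo K (Helper55.TR.GH (-1) Helper55.TR.BrU [0,0,1]) l29 :=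
  .i [n1,n0,m1,m1,m2,n0,n0,n0,n0,n0,m5] (e' := [n0,n0,n1,n1,n2,n0,n0,n0,n0,n0,n5]) (by decide +kernel)
  (by decide +kernel) cl24 cl27

theorem cl29 : Clo K (Helper55.TR.GH (-1) Helper55.TR.BrU [0,0,1]) l42 :=
  .w [n0,n0,n0,n0,n0,n0,n0,n0,n0,n0,n0,n1,m1,n1,m2] (e' := [n1,n0,n0,n0,n0,n0,n0,n0,n0,n0,n0,m1,n1,m1,n2])
  (by decide +kernel) (.t t37 ok37) (.t t38 ok38)

theorem cl30 : Clo K (Helper55.TR.GH (-1) Helper55.TR.BrU [0,0,1]) r41 :=
  .w [n0,n0,n0,n0,n0,n0,n0,n0,n0,n0,n0,n0,n1,m1,n2] (e' := [n1,n0,n0,n0,n0,n0,n0,n0,n0,n0,n0,n0,m1,n1,m2]) (by decide +kernel)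
  cl29 (.t t39 ok39)

theorem cl31 : Clo K (Helper55.TR.GH (-1) Helper55.TR.BrU [0,0,1]) r40 :=
  .w [n0,n0,n0,n0,n0,n0,n0,n0,n0,n0,n0,m1,n1,m1,n2] (e' := [n1,n0,n0,n0,n0,n0,n0,n0,n0,n0,n0,n1,m1,n1,m2])
  (by decide +kernel) (.t t36 ok36) cl30

theorem cl32 : Clo K (Helper55.TR.GH (-1) Helper55.TR.BrU [0,0,1]) r39 :=
  .i [n0,n0,n6,n0,m3,n1] (e' := [n1,n0,m6,n0,n3,m1]) (by decide +kernel) (by decide +kernel) (.t t35 ok35)
  cl31

theorem cl33 : Clo K (Helper55.TR.GH (-1) Helper55.TR.BrU [0,0,1]) l38 :=
  .i [n0,n0,m6,n0,n3,m1] (e' := [n1,n0,n6,n0,m3,n1]) (by decide +kernel) (by decide +kernel) (.t t34 ok34)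
  cl32

theorem cl34 : Clo K (Helper55.TR.GH (-1) Helper55.TR.BrU [0,0,1]) l46 :=
  .w [n0,n0,n0,n0,n0,n0,n0,n0,n0,n0,n0,n1,m1,n1,m2] (e' := [n1,n0,n0,n0,n0,n0,n0,n0,n0,n0,n0,m1,n1,m1,n2])
  (by decide +kernel) (.t t42 ok42) (.t t43 ok43)

theorem cl35 : Clo K (Helper55.TR.GH (-1) Helper55.TR.BrU [0,0,1]) r45 :=
  .w [n0,n0,n0,n0,n0,n0,n0,n0,n0,n0,n0,n0,n1,m1,n2] (e' := [n1,n0,n0,n0,n0,n0,n0,n0,n0,n0,n0,n0,m1,n1,m2]) (by decide +kernel)
  cl34 (.t t44 ok44)

theorem cl36 : Clo K (Helper55.TR.GH (-1) Helper55.TR.BrU [0,0,1]) r44 :=
  .w [n0,n0,n0,n0,n0,n0,n0,n0,n0,n0,n0,n0,m1,n1,m2] (e' := [n1,n0,n0,n0,n0,n0,n0,n0,n0,n0,n0,n0,n1,m1,n2]) (by decide +kernel)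
  (.t t41 ok41) cl35

theorem cl37 : Clo K (Helper55.TR.GH (-1) Helper55.TR.BrU [0,0,1]) r38 :=
  .w [n0,n0,n0,n0,n0,n0,n0,n0,n0,n0,n0,m1,n1,m1,n2] (e' := [n1,n0,n0,n0,n0,n0,n0,n0,n0,n0,n0,n1,m1,n1,m2])
  (by decide +kernel) (.t t40 ok40) cl36

theorem cl38 : Clo K (Helper55.TR.GH (-1) Helper55.TR.BrU [0,0,1]) l37 :=
  .i [n1,n0,m1,m1,m3,n0,n0,n0,n0,n0,m7] (e' := [n0,n0,n1,n1,n3,n0,n0,n0,n0,n0,n7]) (by decide +kernel)
  (by decide +kernel) cl33 cl37

theorem cl39 : Clo K (Helper55.TR.GH (-1) Helper55.TR.BrU [0,0,1]) l48 :=
  .w [n0,n0,n0,n0,n0,n0,n0,n0,n0,n0,n0,n0,n1,m1,n2] (e' := [n1,n0,n0,n0,n0,n0,n0,n0,n0,n0,n0,n0,m1,n1,m2]) (by decide +kernel)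
  (.t t45 ok45) (.t t46 ok46)

theorem cl40 : Clo K (Helper55.TR.GH (-1) Helper55.TR.BrU [0,0,1]) r48 :=
  .w [n0,n0,n0,n0,n0,n0,n0,n0,n0,n0,n0,m1,n1,m1,n2] (e' := [n1,n0,n0,n0,n0,n0,n0,n0,n0,n0,n0,n1,m1,n1,m2])
  (by decide +kernel) (.t t47 ok47) (.t t48 ok48)

theorem cl41 : Clo K (Helper55.TR.GH (-1) Helper55.TR.BrU [0,0,1]) r37 :=
  .w [n0,n0,n0,n0,n0,n0,n0,n0,n0,n0,n0,n1,m1,n1,m2] (e' := [n1,n0,n0,n0,n0,n0,n0,n0,n0,n0,n0,m1,n1,m1,n2])
  (by decide +kernel) cl39 cl40

theorem cl42 : Clo K (Helper55.TR.GH (-1) Helper55.TR.BrU [0,0,1]) r29 :=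
  .i [n1,n0,n1,n1,n3,n0,n0,n0,n0,n0,n7] (e' := [n0,n0,m1,m1,m3,n0,n0,n0,n0,n0,m7]) (by decide +kernel)
  (by decide +kernel) cl38 cl41

theorem cl43 : Clo K (Helper55.TR.GH (-1) Helper55.TR.BrU [0,0,1]) r28 :=
  .i [n1,n0,n1,n1,n2,n0,n0,n0,n0,n0,n5] (e' := [n0,n0,m1,m1,m2,n0,n0,n0,n0,n0,m5]) (by decide +kernel)
  (by decide +kernel) cl28 cl42

theorem cl44 : Clo K (Helper55.TR.GH (-1) Helper55.TR.BrU [0,0,1]) l27 :=
  .i [n1,n0,n1,n1,n0,n0,n0,m1,n0,n1,n1] (e' := [n0,n0,m1,m1,n0,n0,n0,n1,n0,m1,m1]) (by decide +kernel)
  (by decide +kernel) (.t t25 ok25) cl43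

theorem cl45 : Clo K (Helper55.TR.GH (-1) Helper55.TR.BrU [0,0,1]) r57 :=
  .w [n0,n0,n0,n0,n0,n0,n0,n0,n0,n0,n0,n0,m1,n1,m2] (e' := [n1,n0,n0,n0,n0,n0,n0,n0,n0,n0,n0,n0,n1,m1,n2]) (by decide +kernel)
  (.t t52 ok52) (.t t53 ok53)

theorem cl46 : Clo K (Helper55.TR.GH (-1) Helper55.TR.BrU [0,0,1]) l56 :=
  .w [n0,n0,n0,n0,n0,n0,n0,n0,n0,n0,n0,n0,n1,m1,n2] (e' := [n1,n0,n0,n0,n0,n0,n0,n0,n0,n0,n0,n0,m1,n1,m2]) (by decide +kernel)
  (.t t51 ok51) cl45

theorem cl47 : Clo K (Helper55.TR.GH (-1) Helper55.TR.BrU [0,0,1]) r56 :=
  .w [n0,n0,n0,n0,n0,n0,n0,n0,n0,n0,n0,m1,n1,m1,n2] (e' := [n1,n0,n0,n0,n0,n0,n0,n0,n0,n0,n0,n1,m1,n1,m2])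
  (by decide +kernel) (.t t54 ok54) (.t t55 ok55)

theorem cl48 : Clo K (Helper55.TR.GH (-1) Helper55.TR.BrU [0,0,1]) r55 :=
  .w [n0,n0,n0,n0,n0,n0,n0,n0,n0,n0,n0,n1,m1,n1,m2] (e' := [n1,n0,n0,n0,n0,n0,n0,n0,n0,n0,n0,m1,n1,m1,n2])
  (by decide +kernel) cl46 cl47

theorem cl49 : Clo K (Helper55.TR.GH (-1) Helper55.TR.BrU [0,0,1]) l54 :=
  .i [n0,n0,n4,n0,m2,m2,n0,n0,n1] (e' := [n1,n0,m4,n0,n2,n2,n0,n0,m1]) (by decide +kernel) (by decide +kernel)
  (.t t50 ok50) cl48

theorem cl50 : Clo K (Helper55.TR.GH (-1) Helper55.TR.BrU [0,0,1]) r61 :=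
  .w [n0,n0,n0,n0,n0,n0,n0,n0,n0,n0,n0,n0,m1,n1,m2] (e' := [n1,n0,n0,n0,n0,n0,n0,n0,n0,n0,n0,n0,n1,m1,n2]) (by decide +kernel)
  (.t t58 ok58) (.t t59 ok59)

theorem cl51 : Clo K (Helper55.TR.GH (-1) Helper55.TR.BrU [0,0,1]) r60 :=
  .w [n0,n0,n0,n0,n0,n0,n0,n0,n0,n0,n0,n0,n1,m1,n2] (e' := [n1,n0,n0,n0,n0,n0,n0,n0,n0,n0,n0,n0,m1,n1,m2]) (by decide +kernel)
  (.t t57 ok57) cl50

theorem cl52 : Clo K (Helper55.TR.GH (-1) Helper55.TR.BrU [0,0,1]) r54 :=
  .w [n0,n0,n0,n0,n0,n0,n0,n0,n0,n0,n0,m1,n1,m1,n2] (e' := [n1,n0,n0,n0,n0,n0,n0,n0,n0,n0,n0,n1,m1,n1,m2])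
  (by decide +kernel) (.t t56 ok56) cl51

theorem cl53 : Clo K (Helper55.TR.GH (-1) Helper55.TR.BrU [0,0,1]) l53 :=
  .i [n1,n0,m2,m2,n2,n0,n0,n0,n0,n1,n2] (e' := [n0,n0,n2,n2,m2,n0,n0,n0,n0,m1,m2]) (by decide +kernel)
  (by decide +kernel) cl49 cl52

theorem cl54 : Clo K (Helper55.TR.GH (-1) Helper55.TR.BrU [0,0,1]) l63 :=
  .w [n0,n0,n0,n0,n0,n0,n0,n0,n0,n0,n0,n0,n1,m1,n2] (e' := [n1,n0,n0,n0,n0,n0,n0,n0,n0,n0,n0,n0,m1,n1,m2]) (by decide +kernel)
  (.t t60 ok60) (.t t61 ok61)

theorem cl55 : Clo K (Helper55.TR.GH (-1) Helper55.TR.BrU [0,0,1]) l65 :=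
  .w [n0,n0,n0,n0,n0,n0,n0,n0,n0,n0,n0,n2,m1,n1,m2] (e' := [n1,n0,n0,n0,n0,n0,n0,n0,n0,n0,n0,m2,n1,m1,n2])
  (by decide +kernel) (.t t62 ok62) (.t t63 ok63)

theorem cl56 : Clo K (Helper55.TR.GH (-1) Helper55.TR.BrU [0,0,1]) r63 :=
  .w [n0,n0,n0,n0,n0,n0,n0,n0,n0,n0,n0,m1,n1,m1,n2] (e' := [n1,n0,n0,n0,n0,n0,n0,n0,n0,n0,n0,n1,m1,n1,m2])
  (by decide +kernel) cl55 (.t t64 ok64)

theorem cl57 : Clo K (Helper55.TR.GH (-1) Helper55.TR.BrU [0,0,1]) r53 :=
  .w [n0,n0,n0,n0,n0,n0,n0,n0,n0,n0,n0,n1,m1,n1,m2] (e' := [n1,n0,n0,n0,n0,n0,n0,n0,n0,n0,n0,m1,n1,m1,n2])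
  (by decide +kernel) cl54 cl56

theorem cl58 : Clo K (Helper55.TR.GH (-1) Helper55.TR.BrU [0,0,1]) r52 :=
  .i [n1,n0,n2,n2,m2,n0,n0,n0,n0,m1,m2] (e' := [n0,n0,m2,m2,n2,n0,n0,n0,n0,n1,n2]) (by decide +kernel)
  (by decide +kernel) cl53 cl57

theorem cl59 : Clo K (Helper55.TR.GH (-1) Helper55.TR.BrU [0,0,1]) l51 :=
  .i [n1,n0,n3,n3,n2,n0,n0,n0,n0,n0,n7] (e' := [n0,n0,m3,m3,m2,n0,n0,n0,n0,n0,m7]) (by decide +kernel)
  (by decide +kernel) (.t t49 ok49) cl58

theorem cl60 : Clo K (Helper55.TR.GH (-1) Helper55.TR.BrU [0,0,1]) l71 :=
  .w [n0,n0,n0,n0,n0,n0,n0,n0,n0,n0,n0,n0,n1,m1,n2] (e' := [n1,n0,n0,n0,n0,n0,n0,n0,n0,n0,n0,n0,m1,n1,m2]) (by decide +kernel)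
  (.t t67 ok67) (.t t68 ok68)

theorem cl61 : Clo K (Helper55.TR.GH (-1) Helper55.TR.BrU [0,0,1]) r71 :=
  .w [n0,n0,n0,n0,n0,n0,n0,n0,n0,n0,n0,m1,n1,m1,n2] (e' := [n1,n0,n0,n0,n0,n0,n0,n0,n0,n0,n0,n1,m1,n1,m2])
  (by decide +kernel) (.t t69 ok69) (.t t70 ok70)

theorem cl62 : Clo K (Helper55.TR.GH (-1) Helper55.TR.BrU [0,0,1]) r70 :=
  .w [n0,n0,n0,n0,n0,n0,n0,n0,n0,n0,n0,n1,m1,n1,m2] (e' := [n1,n0,n0,n0,n0,n0,n0,n0,n0,n0,n0,m1,n1,m1,n2])
  (by decide +kernel) cl60 cl61

theorem cl63 : Clo K (Helper55.TR.GH (-1) Helper55.TR.BrU [0,0,1]) l69 :=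
  .i [n1,n0,m3,m3,m1,n0,n0,n0,n0,n0,m5] (e' := [n0,n0,n3,n3,n1,n0,n0,n0,n0,n0,n5]) (by decide +kernel)
  (by decide +kernel) (.t t66 ok66) cl62

theorem cl64 : Clo K (Helper55.TR.GH (-1) Helper55.TR.BrU [0,0,1]) l74 :=
  .w [n0,n0,n0,n0,n0,n0,n0,n0,n0,n0,n0,n0,n1,m1,n2] (e' := [n1,n0,n0,n0,n0,n0,n0,n0,n0,n0,n0,n0,m1,n1,m2]) (by decide +kernel)
  (.t t71 ok71) (.t t72 ok72)

theorem cl65 : Clo K (Helper55.TR.GH (-1) Helper55.TR.BrU [0,0,1]) r69 :=
  .w [n0,n0,n0,n0,n0,n0,n0,n0,n0,n0,n0,n1,m1,n1,m2] (e' := [n1,n0,n0,n0,n0,n0,n0,n0,n0,n0,n0,m1,n1,m1,n2])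
  (by decide +kernel) cl64 (.t t73 ok73)

theorem cl66 : Clo K (Helper55.TR.GH (-1) Helper55.TR.BrU [0,0,1]) r68 :=
  .i [n1,n0,n3,n3,n1,n0,n0,n0,n0,n0,n5] (e' := [n0,n0,m3,m3,m1,n0,n0,n0,n0,n0,m5]) (by decide +kernel)
  (by decide +kernel) cl63 cl65

theorem cl67 : Clo K (Helper55.TR.GH (-1) Helper55.TR.BrU [0,0,1]) l67 :=
  .i [n1,n0,n0,n0,n1,n0,n0,m1,n0,n2,n2] (e' := [n0,n0,n0,n0,m1,n0,n0,n1,n0,m2,m2]) (by decide +kernel)
  (by decide +kernel) (.t t65 ok65) cl66

theorem cl68 : Clo K (Helper55.TR.GH (-1) Helper55.TR.BrU [0,0,1]) l78 :=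
  .w [n0,n0,n0,n0,n0,n0,n0,n0,n0,n0,n0,n1,m1,n1,m2] (e' := [n1,n0,n0,n0,n0,n0,n0,n0,n0,n0,n0,m1,n1,m1,n2])
  (by decide +kernel) (.t t76 ok76) (.t t77 ok77)

theorem cl69 : Clo K (Helper55.TR.GH (-1) Helper55.TR.BrU [0,0,1]) r77 :=
  .w [n0,n0,n0,n0,n0,n0,n0,n0,n0,n0,n0,n0,n1,m1,n2] (e' := [n1,n0,n0,n0,n0,n0,n0,n0,n0,n0,n0,n0,m1,n1,m2]) (by decide +kernel)
  cl68 (.t t78 ok78)

theorem cl70 : Clo K (Helper55.TR.GH (-1) Helper55.TR.BrU [0,0,1]) r76 :=
  .w [n0,n0,n0,n0,n0,n0,n0,n0,n0,n0,n0,n0,m1,n1,m2] (e' := [n1,n0,n0,n0,n0,n0,n0,n0,n0,n0,n0,n0,n1,m1,n2]) (by decide +kernel)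
  (.t t75 ok75) cl69

theorem cl71 : Clo K (Helper55.TR.GH (-1) Helper55.TR.BrU [0,0,1]) r67 :=
  .w [n0,n0,n0,n0,n0,n0,n0,n0,n0,n0,n0,m1,n1,m1,n2] (e' := [n1,n0,n0,n0,n0,n0,n0,n0,n0,n0,n0,n1,m1,n1,m2])
  (by decide +kernel) (.t t74 ok74) cl70

theorem cl72 : Clo K (Helper55.TR.GH (-1) Helper55.TR.BrU [0,0,1]) r51 :=
  .i [n1,n0,n0,n0,m1,n0,n0,n1,n0,m2,m2] (e' := [n0,n0,n0,n0,n1,n0,n0,m1,n0,n2,n2]) (by decide +kernel)
  (by decide +kernel) cl67 cl71

theorem cl73 : Clo K (Helper55.TR.GH (-1) Helper55.TR.BrU [0,0,1]) r27 :=
  .i [n1,n0,m3,m3,m2,n0,n0,n0,n0,n0,m7] (e' := [n0,n0,n3,n3,n2,n0,n0,n0,n0,n0,n7]) (by decide +kernel)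
  (by decide +kernel) cl59 cl72

theorem cl74 : Clo K (Helper55.TR.GH (-1) Helper55.TR.BrU [0,0,1]) r4 :=
  .i [n1,n0,m1,m1,n0,n0,n0,n1,n0,m1,m1] (e' := [n0,n0,n1,n1,n0,n0,n0,m1,n0,n1,n1]) (by decide +kernel)
  (by decide +kernel) cl44 cl73

theorem cl75 : Clo K (Helper55.TR.GH (-1) Helper55.TR.BrU [0,0,1]) r3 :=
  .i [n1,n0,n3,n3,m2,n0,n0,n0,n0,m1,m1] (e' := [n0,n0,m3,m3,n2,n0,n0,n0,n0,n1,n1]) (by decide +kernel)
  (by decide +kernel) cl21 cl74

theorem cl76 : Clo K (Helper55.TR.GH (-1) Helper55.TR.BrU [0,0,1]) r2 :=
  .i [n0,n0,n2,n0,m1,n0,n1,n0,m1] (e' := [n1,n0,m2,n0,n1,n0,m1,n0,n1]) (by decide +kernel) (by decide +kernel)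
  (.t t1 ok1) cl75

theorem cl77 : Clo K (Helper55.TR.GH (-1) Helper55.TR.BrU [0,0,1]) l1 :=
  .i [n1,n0,m3,m3,n1,n0,n0,n0,n0,n1,m1] (e' := [n0,n0,n3,n3,m1,n0,n0,n0,n0,m1,n1]) (by decide +kernel)
  (by decide +kernel) (.t t0 ok0) cl76

theorem cl78 : Clo K (Helper55.TR.GH (-1) Helper55.TR.BrU [0,0,1]) l88 :=
  .w [n0,n0,n0,n0,n0,n0,n0,n0,n0,n0,n0,n2,m1,n1,m2] (e' := [n1,n0,n0,n0,n0,n0,n0,n0,n0,n0,n0,m2,n1,m1,n2])
  (by decide +kernel) (.t t83 ok83) (.t t84 ok84)

theorem cl79 : Clo K (Helper55.TR.GH (-1) Helper55.TR.BrU [0,0,1]) r87 :=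
  .w [n0,n0,n0,n0,n0,n0,n0,n0,n0,n0,n0,m1,n1,m1,n2] (e' := [n1,n0,n0,n0,n0,n0,n0,n0,n0,n0,n0,n1,m1,n1,m2])
  (by decide +kernel) cl78 (.t t85 ok85)

theorem cl80 : Clo K (Helper55.TR.GH (-1) Helper55.TR.BrU [0,0,1]) l86 :=
  .i [n1,n0,n2,n2,m2,n0,n0,n0,n0,m1,m2] (e' := [n0,n0,m2,m2,n2,n0,n0,n0,n0,n1,n2]) (by decide +kernel)
  (by decide +kernel) (.t t82 ok82) cl79

theorem cl81 : Clo K (Helper55.TR.GH (-1) Helper55.TR.BrU [0,0,1]) l94 :=
  .w [n0,n0,n0,n0,n0,n0,n0,n0,n0,n0,n0,n0,n1,m1,n2] (e' := [n1,n0,n0,n0,n0,n0,n0,n0,n0,n0,n0,n0,m1,n1,m2]) (by decide +kernel)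
  (.t t88 ok88) (.t t89 ok89)

theorem cl82 : Clo K (Helper55.TR.GH (-1) Helper55.TR.BrU [0,0,1]) r94 :=
  .w [n0,n0,n0,n0,n0,n0,n0,n0,n0,n0,n0,m1,n1,m1,n2] (e' := [n1,n0,n0,n0,n0,n0,n0,n0,n0,n0,n0,n1,m1,n1,m2])
  (by decide +kernel) (.t t90 ok90) (.t t91 ok91)

theorem cl83 : Clo K (Helper55.TR.GH (-1) Helper55.TR.BrU [0,0,1]) r93 :=
  .w [n0,n0,n0,n0,n0,n0,n0,n0,n0,n0,n0,n1,m1,n1,m2] (e' := [n1,n0,n0,n0,n0,n0,n0,n0,n0,n0,n0,m1,n1,m1,n2])
  (by decide +kernel) cl81 cl82

theorem cl84 : Clo K (Helper55.TR.GH (-1) Helper55.TR.BrU [0,0,1]) r92 :=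
  .i [n0,n0,n6,n0,m3,n1] (e' := [n1,n0,m6,n0,n3,m1]) (by decide +kernel) (by decide +kernel) (.t t87 ok87)
  cl83

theorem cl85 : Clo K (Helper55.TR.GH (-1) Helper55.TR.BrU [0,0,1]) l91 :=
  .i [n0,n0,m6,n0,n3,m1] (e' := [n1,n0,n6,n0,m3,n1]) (by decide +kernel) (by decide +kernel) (.t t86 ok86)
  cl84

theorem cl86 : Clo K (Helper55.TR.GH (-1) Helper55.TR.BrU [0,0,1]) l99 :=
  .w [n0,n0,n0,n0,n0,n0,n0,n0,n0,n0,n0,n0,n1,m1,n2] (e' := [n1,n0,n0,n0,n0,n0,n0,n0,n0,n0,n0,n0,m1,n1,m2]) (by decide +kernel)
  (.t t94 ok94) (.t t95 ok95)

theorem cl87 : Clo K (Helper55.TR.GH (-1) Helper55.TR.BrU [0,0,1]) r98 :=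
  .w [n0,n0,n0,n0,n0,n0,n0,n0,n0,n0,n0,n1,m1,n1,m2] (e' := [n1,n0,n0,n0,n0,n0,n0,n0,n0,n0,n0,m1,n1,m1,n2])
  (by decide +kernel) cl86 (.t t96 ok96)

theorem cl88 : Clo K (Helper55.TR.GH (-1) Helper55.TR.BrU [0,0,1]) r97 :=
  .w [n0,n0,n0,n0,n0,n0,n0,n0,n0,n0,n0,n0,m1,n1,m2] (e' := [n1,n0,n0,n0,n0,n0,n0,n0,n0,n0,n0,n0,n1,m1,n2]) (by decide +kernel)
  (.t t93 ok93) cl87

theorem cl89 : Clo K (Helper55.TR.GH (-1) Helper55.TR.BrU [0,0,1]) r91 :=
  .w [n0,n0,n0,n0,n0,n0,n0,n0,n0,n0,n0,m1,n1,m1,n2] (e' := [n1,n0,n0,n0,n0,n0,n0,n0,n0,n0,n0,n1,m1,n1,m2])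
  (by decide +kernel) (.t t92 ok92) cl88

theorem cl90 : Clo K (Helper55.TR.GH (-1) Helper55.TR.BrU [0,0,1]) l90 :=
  .i [n1,n0,m1,m1,m3,n0,n0,n0,n0,n0,m7] (e' := [n0,n0,n1,n1,n3,n0,n0,n0,n0,n0,n7]) (by decide +kernel)
  (by decide +kernel) cl85 cl89

theorem cl91 : Clo K (Helper55.TR.GH (-1) Helper55.TR.BrU [0,0,1]) r90 :=
  .w [n0,n0,n0,n0,n0,n0,n0,n0,n0,n0,n0,m1,n1,m1,n2] (e' := [n1,n0,n0,n0,n0,n0,n0,n0,n0,n0,n0,n1,m1,n1,m2])
  (by decide +kernel) (.t t97 ok97) (.t t98 ok98)

theorem cl92 : Clo K (Helper55.TR.GH (-1) Helper55.TR.BrU [0,0,1]) r86 :=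
  .i [n1,n0,n1,n1,n3,n0,n0,n0,n0,n0,n7] (e' := [n0,n0,m1,m1,m3,n0,n0,n0,n0,n0,m7]) (by decide +kernel)
  (by decide +kernel) cl90 cl91

theorem cl93 : Clo K (Helper55.TR.GH (-1) Helper55.TR.BrU [0,0,1]) l85 :=
  .i [n1,n0,m2,m2,n2,n0,n0,n0,n0,n1,n2] (e' := [n0,n0,n2,n2,m2,n0,n0,n0,n0,m1,m2]) (by decide +kernel)
  (by decide +kernel) cl80 cl92

theorem cl94 : Clo K (Helper55.TR.GH (-1) Helper55.TR.BrU [0,0,1]) l102 :=
  .w [n0,n0,n0,n0,n0,n0,n0,n0,n0,n0,n0,n2,m1,n1,m2] (e' := [n1,n0,n0,n0,n0,n0,n0,n0,n0,n0,n0,m2,n1,m1,n2])
  (by decide +kernel) (.t t99 ok99) (.t t100 ok100)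

theorem cl95 : Clo K (Helper55.TR.GH (-1) Helper55.TR.BrU [0,0,1]) r85 :=
  .w [n0,n0,n0,n0,n0,n0,n0,n0,n0,n0,n0,m1,n1,m1,n2] (e' := [n1,n0,n0,n0,n0,n0,n0,n0,n0,n0,n0,n1,m1,n1,m2])
  (by decide +kernel) cl94 (.t t101 ok101)

theorem cl96 : Clo K (Helper55.TR.GH (-1) Helper55.TR.BrU [0,0,1]) r84 :=
  .i [n0,n0,n4,n0,m2,m2,n0,n0,n1] (e' := [n1,n0,m4,n0,n2,n2,n0,n0,m1]) (by decide +kernel) (by decide +kernel)
  cl93 cl95

theorem cl97 : Clo K (Helper55.TR.GH (-1) Helper55.TR.BrU [0,0,1]) r83 :=
  .i [n0,n0,n2,n0,m1,n0,n1,n0,m1] (e' := [n1,n0,m2,n0,n1,n0,m1,n0,n1]) (by decide +kernel) (by decide +kernel)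
  (.t t81 ok81) cl96

theorem cl98 : Clo K (Helper55.TR.GH (-1) Helper55.TR.BrU [0,0,1]) r82 :=
  .i [n0,n0,m2,n0,n1,n3,m1] (e' := [n1,n0,n2,n0,m1,m3,n1]) (by decide +kernel) (by decide +kernel) (.t t80
  ok80) cl97

theorem cl99 : Clo K (Helper55.TR.GH (-1) Helper55.TR.BrU [0,0,1]) l81 :=
  .i [n0,n0,n2,n0,m1,m3,n1] (e' := [n1,n0,m2,n0,n1,n3,m1]) (by decide +kernel) (by decide +kernel) (.t t79
  ok79) cl98

theorem cl100 : Clo K (Helper55.TR.GH (-1) Helper55.TR.BrU [0,0,1]) l113 :=
  .w [n0,n0,n0,n0,n0,n0,n0,n0,n0,n0,n0,n1,m1,n1,m2] (e' := [n1,n0,n0,n0,n0,n0,n0,n0,n0,n0,n0,m1,n1,m1,n2])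
  (by decide +kernel) (.t t107 ok107) (.t t108 ok108)

theorem cl101 : Clo K (Helper55.TR.GH (-1) Helper55.TR.BrU [0,0,1]) r112 :=
  .w [n0,n0,n0,n0,n0,n0,n0,n0,n0,n0,n0,n0,n1,m1,n2] (e' := [n1,n0,n0,n0,n0,n0,n0,n0,n0,n0,n0,n0,m1,n1,m2]) (by decide +kernel)
  cl100 (.t t109 ok109)

theorem cl102 : Clo K (Helper55.TR.GH (-1) Helper55.TR.BrU [0,0,1]) r111 :=
  .w [n0,n0,n0,n0,n0,n0,n0,n0,n0,n0,n0,m1,n1,m1,n2] (e' := [n1,n0,n0,n0,n0,n0,n0,n0,n0,n0,n0,n1,m1,n1,m2])
  (by decide +kernel) (.t t106 ok106) cl101

theorem cl103 : Clo K (Helper55.TR.GH (-1) Helper55.TR.BrU [0,0,1]) l110 :=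
  .i [n0,n0,n4,n0,m2,m2,n0,n0,n1] (e' := [n1,n0,m4,n0,n2,n2,n0,n0,m1]) (by decide +kernel) (by decide +kernel)
  (.t t105 ok105) cl102

theorem cl104 : Clo K (Helper55.TR.GH (-1) Helper55.TR.BrU [0,0,1]) l115 :=
  .w [n0,n0,n0,n0,n0,n0,n0,n0,n0,n0,n0,n2,m1,n1,m2] (e' := [n1,n0,n0,n0,n0,n0,n0,n0,n0,n0,n0,m2,n1,m1,n2])
  (by decide +kernel) (.t t110 ok110) (.t t111 ok111)

theorem cl105 : Clo K (Helper55.TR.GH (-1) Helper55.TR.BrU [0,0,1]) l118 :=
  .w [n0,n0,n0,n0,n0,n0,n0,n0,n0,n0,n0,n0,n1,m1,n2] (e' := [n1,n0,n0,n0,n0,n0,n0,n0,n0,n0,n0,n0,m1,n1,m2]) (by decide +kernel)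
  (.t t113 ok113) (.t t114 ok114)

theorem cl106 : Clo K (Helper55.TR.GH (-1) Helper55.TR.BrU [0,0,1]) r117 :=
  .w [n0,n0,n0,n0,n0,n0,n0,n0,n0,n0,n0,n1,m1,n1,m2] (e' := [n1,n0,n0,n0,n0,n0,n0,n0,n0,n0,n0,m1,n1,m1,n2])
  (by decide +kernel) cl105 (.t t115 ok115)

theorem cl107 : Clo K (Helper55.TR.GH (-1) Helper55.TR.BrU [0,0,1]) r115 :=
  .w [n0,n0,n0,n0,n0,n0,n0,n0,n0,n0,n0,n0,m1,n1,m2] (e' := [n1,n0,n0,n0,n0,n0,n0,n0,n0,n0,n0,n0,n1,m1,n2]) (by decide +kernel)
  (.t t112 ok112) cl106

theorem cl108 : Clo K (Helper55.TR.GH (-1) Helper55.TR.BrU [0,0,1]) r110 :=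
  .w [n0,n0,n0,n0,n0,n0,n0,n0,n0,n0,n0,m1,n1,m1,n2] (e' := [n1,n0,n0,n0,n0,n0,n0,n0,n0,n0,n0,n1,m1,n1,m2])
  (by decide +kernel) cl104 cl107

theorem cl109 : Clo K (Helper55.TR.GH (-1) Helper55.TR.BrU [0,0,1]) l109 :=
  .i [n1,n0,n2,n2,m2,n0,n0,n0,n0,m1,m2] (e' := [n0,n0,m2,m2,n2,n0,n0,n0,n0,n1,n2]) (by decide +kernel)
  (by decide +kernel) cl103 cl108

theorem cl110 : Clo K (Helper55.TR.GH (-1) Helper55.TR.BrU [0,0,1]) l120 :=
  .w [n0,n0,n0,n0,n0,n0,n0,n0,n0,n0,n0,n0,n1,m1,n2] (e' := [n1,n0,n0,n0,n0,n0,n0,n0,n0,n0,n0,n0,m1,n1,m2]) (by decide +kernel)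
  (.t t116 ok116) (.t t117 ok117)

theorem cl111 : Clo K (Helper55.TR.GH (-1) Helper55.TR.BrU [0,0,1]) r109 :=
  .w [n0,n0,n0,n0,n0,n0,n0,n0,n0,n0,n0,n1,m1,n1,m2] (e' := [n1,n0,n0,n0,n0,n0,n0,n0,n0,n0,n0,m1,n1,m1,n2])
  (by decide +kernel) cl110 (.t t118 ok118)

theorem cl112 : Clo K (Helper55.TR.GH (-1) Helper55.TR.BrU [0,0,1]) r108 :=
  .i [n1,n0,m2,m2,n2,n0,n0,n0,n0,n1,n2] (e' := [n0,n0,n2,n2,m2,n0,n0,n0,n0,m1,m2]) (by decide +kernel)
  (by decide +kernel) cl109 cl111

theorem cl113 : Clo K (Helper55.TR.GH (-1) Helper55.TR.BrU [0,0,1]) r107 :=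
  .i [n0,n0,n6,n0,m3,n1] (e' := [n1,n0,m6,n0,n3,m1]) (by decide +kernel) (by decide +kernel) (.t t104 ok104)
  cl112

theorem cl114 : Clo K (Helper55.TR.GH (-1) Helper55.TR.BrU [0,0,1]) l106 :=
  .i [n0,n0,m6,n0,n3,m1] (e' := [n1,n0,n6,n0,m3,n1]) (by decide +kernel) (by decide +kernel) (.t t103 ok103)
  cl113

theorem cl115 : Clo K (Helper55.TR.GH (-1) Helper55.TR.BrU [0,0,1]) r123 :=
  .w [n0,n0,n0,n0,n0,n0,n0,n0,n0,n0,n0,n2,m1,n1,m2] (e' := [n1,n0,n0,n0,n0,n0,n0,n0,n0,n0,n0,m2,n1,m1,n2])
  (by decide +kernel) (.t t120 ok120) (.t t121 ok121)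

theorem cl116 : Clo K (Helper55.TR.GH (-1) Helper55.TR.BrU [0,0,1]) l122 :=
  .i [n1,n0,n2,n2,m2,n0,n0,n0,n0,m1,m2] (e' := [n0,n0,m2,m2,n2,n0,n0,n0,n0,n1,n2]) (by decide +kernel)
  (by decide +kernel) (.t t119 ok119) cl115

theorem cl117 : Clo K (Helper55.TR.GH (-1) Helper55.TR.BrU [0,0,1]) r106 :=
  .w [n0,n0,n0,n0,n0,n0,n0,n0,n0,n0,n0,m1,n1,m1,n2] (e' := [n1,n0,n0,n0,n0,n0,n0,n0,n0,n0,n0,n1,m1,n1,m2])
  (by decide +kernel) cl116 (.t t122 ok122)

theorem cl118 : Clo K (Helper55.TR.GH (-1) Helper55.TR.BrU [0,0,1]) l105 :=
  .i [n1,n0,n1,n1,n3,n0,n0,n0,n0,n0,n7] (e' := [n0,n0,m1,m1,m3,n0,n0,n0,n0,n0,m7]) (by decide +kernel)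
  (by decide +kernel) cl114 cl117

theorem cl119 : Clo K (Helper55.TR.GH (-1) Helper55.TR.BrU [0,0,1]) l131 :=
  .w [n0,n0,n0,n0,n0,n0,n0,n0,n0,n0,n0,n2,m1,n1,m2] (e' := [n1,n0,n0,n0,n0,n0,n0,n0,n0,n0,n0,m2,n1,m1,n2])
  (by decide +kernel) (.t t125 ok125) (.t t126 ok126)

theorem cl120 : Clo K (Helper55.TR.GH (-1) Helper55.TR.BrU [0,0,1]) l133 :=
  .w [n0,n0,n0,n0,n0,n0,n0,n0,n0,n0,n0,n1,m1,n1,m2] (e' := [n1,n0,n0,n0,n0,n0,n0,n0,n0,n0,n0,m1,n1,m1,n2])
  (by decide +kernel) (.t t127 ok127) (.t t128 ok128)

theorem cl121 : Clo K (Helper55.TR.GH (-1) Helper55.TR.BrU [0,0,1]) r131 :=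
  .w [n0,n0,n0,n0,n0,n0,n0,n0,n0,n0,n0,n0,n1,m1,n2] (e' := [n1,n0,n0,n0,n0,n0,n0,n0,n0,n0,n0,n0,m1,n1,m2]) (by decide +kernel)
  cl120 (.t t129 ok129)

theorem cl122 : Clo K (Helper55.TR.GH (-1) Helper55.TR.BrU [0,0,1]) r130 :=
  .w [n0,n0,n0,n0,n0,n0,n0,n0,n0,n0,n0,m1,n1,m1,n2] (e' := [n1,n0,n0,n0,n0,n0,n0,n0,n0,n0,n0,n1,m1,n1,m2])
  (by decide +kernel) cl119 cl121

theorem cl123 : Clo K (Helper55.TR.GH (-1) Helper55.TR.BrU [0,0,1]) l129 :=
  .i [n1,n0,m1,m1,m2,n0,n0,n0,n0,n0,m5] (e' := [n0,n0,n1,n1,n2,n0,n0,n0,n0,n0,n5]) (by decide +kernel)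
  (by decide +kernel) (.t t124 ok124) cl122

theorem cl124 : Clo K (Helper55.TR.GH (-1) Helper55.TR.BrU [0,0,1]) l135 :=
  .w [n0,n0,n0,n0,n0,n0,n0,n0,n0,n0,n0,n2,m1,n1,m2] (e' := [n1,n0,n0,n0,n0,n0,n0,n0,n0,n0,n0,m2,n1,m1,n2])
  (by decide +kernel) (.t t130 ok130) (.t t131 ok131)

theorem cl125 : Clo K (Helper55.TR.GH (-1) Helper55.TR.BrU [0,0,1]) l137 :=
  .w [n0,n0,n0,n0,n0,n0,n0,n0,n0,n0,n0,n1,m1,n1,m2] (e' := [n1,n0,n0,n0,n0,n0,n0,n0,n0,n0,n0,m1,n1,m1,n2])
  (by decide +kernel) (.t t132 ok132) (.t t133 ok133)

theorem cl126 : Clo K (Helper55.TR.GH (-1) Helper55.TR.BrU [0,0,1]) r135 :=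
  .w [n0,n0,n0,n0,n0,n0,n0,n0,n0,n0,n0,n0,n1,m1,n2] (e' := [n1,n0,n0,n0,n0,n0,n0,n0,n0,n0,n0,n0,m1,n1,m2]) (by decide +kernel)
  cl125 (.t t134 ok134)

theorem cl127 : Clo K (Helper55.TR.GH (-1) Helper55.TR.BrU [0,0,1]) r129 :=
  .w [n0,n0,n0,n0,n0,n0,n0,n0,n0,n0,n0,m1,n1,m1,n2] (e' := [n1,n0,n0,n0,n0,n0,n0,n0,n0,n0,n0,n1,m1,n1,m2])
  (by decide +kernel) cl124 cl126

theorem cl128 : Clo K (Helper55.TR.GH (-1) Helper55.TR.BrU [0,0,1]) r128 :=
  .i [n1,n0,n1,n1,n2,n0,n0,n0,n0,n0,n5] (e' := [n0,n0,m1,m1,m2,n0,n0,n0,n0,n0,m5]) (by decide +kernel)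
  (by decide +kernel) cl123 cl127

theorem cl129 : Clo K (Helper55.TR.GH (-1) Helper55.TR.BrU [0,0,1]) l127 :=
  .i [n1,n0,n2,n2,m2,n0,n0,n0,n0,m1,m2] (e' := [n0,n0,m2,m2,n2,n0,n0,n0,n0,n1,n2]) (by decide +kernel)
  (by decide +kernel) (.t t123 ok123) cl128

theorem cl130 : Clo K (Helper55.TR.GH (-1) Helper55.TR.BrU [0,0,1]) r127 :=
  .w [n0,n0,n0,n0,n0,n0,n0,n0,n0,n0,n0,m1,n1,m1,n2] (e' := [n1,n0,n0,n0,n0,n0,n0,n0,n0,n0,n0,n1,m1,n1,m2])
  (by decide +kernel) (.t t135 ok135) (.t t136 ok136)

theorem cl131 : Clo K (Helper55.TR.GH (-1) Helper55.TR.BrU [0,0,1]) l126 :=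
  .i [n1,n0,m2,m2,n2,n0,n0,n0,n0,n1,n2] (e' := [n0,n0,n2,n2,m2,n0,n0,n0,n0,m1,m2]) (by decide +kernel)
  (by decide +kernel) cl129 cl130

theorem cl132 : Clo K (Helper55.TR.GH (-1) Helper55.TR.BrU [0,0,1]) l145 :=
  .w [n0,n0,n0,n0,n0,n0,n0,n0,n0,n0,n0,n2,m1,n1,m2] (e' := [n1,n0,n0,n0,n0,n0,n0,n0,n0,n0,n0,m2,n1,m1,n2])
  (by decide +kernel) (.t t139 ok139) (.t t140 ok140)

theorem cl133 : Clo K (Helper55.TR.GH (-1) Helper55.TR.BrU [0,0,1]) r144 :=
  .w [n0,n0,n0,n0,n0,n0,n0,n0,n0,n0,n0,m1,n1,m1,n2] (e' := [n1,n0,n0,n0,n0,n0,n0,n0,n0,n0,n0,n1,m1,n1,m2])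
  (by decide +kernel) cl132 (.t t141 ok141)

theorem cl134 : Clo K (Helper55.TR.GH (-1) Helper55.TR.BrU [0,0,1]) l143 :=
  .i [n0,n0,m4,n0,n2,m1] (e' := [n1,n0,n4,n0,m2,n1]) (by decide +kernel) (by decide +kernel) (.t t138 ok138)
  cl133

theorem cl135 : Clo K (Helper55.TR.GH (-1) Helper55.TR.BrU [0,0,1]) l147 :=
  .w [n0,n0,n0,n0,n0,n0,n0,n0,n0,n0,n0,n2,m1,n1,m2] (e' := [n1,n0,n0,n0,n0,n0,n0,n0,n0,n0,n0,m2,n1,m1,n2])
  (by decide +kernel) (.t t142 ok142) (.t t143 ok143)

theorem cl136 : Clo K (Helper55.TR.GH (-1) Helper55.TR.BrU [0,0,1]) l149 :=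
  .w [n0,n0,n0,n0,n0,n0,n0,n0,n0,n0,n0,n1,m1,n1,m2] (e' := [n1,n0,n0,n0,n0,n0,n0,n0,n0,n0,n0,m1,n1,m1,n2])
  (by decide +kernel) (.t t144 ok144) (.t t145 ok145)

theorem cl137 : Clo K (Helper55.TR.GH (-1) Helper55.TR.BrU [0,0,1]) r147 :=
  .w [n0,n0,n0,n0,n0,n0,n0,n0,n0,n0,n0,n0,n1,m1,n2] (e' := [n1,n0,n0,n0,n0,n0,n0,n0,n0,n0,n0,n0,m1,n1,m2]) (by decide +kernel)
  cl136 (.t t146 ok146)

theorem cl138 : Clo K (Helper55.TR.GH (-1) Helper55.TR.BrU [0,0,1]) r143 :=
  .w [n0,n0,n0,n0,n0,n0,n0,n0,n0,n0,n0,m1,n1,m1,n2] (e' := [n1,n0,n0,n0,n0,n0,n0,n0,n0,n0,n0,n1,m1,n1,m2])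
  (by decide +kernel) cl135 cl137

theorem cl139 : Clo K (Helper55.TR.GH (-1) Helper55.TR.BrU [0,0,1]) l142 :=
  .i [n1,n0,m1,m1,m2,n0,n0,n0,n0,n0,m5] (e' := [n0,n0,n1,n1,n2,n0,n0,n0,n0,n0,n5]) (by decide +kernel)
  (by decide +kernel) cl134 cl138

theorem cl140 : Clo K (Helper55.TR.GH (-1) Helper55.TR.BrU [0,0,1]) l151 :=
  .w [n0,n0,n0,n0,n0,n0,n0,n0,n0,n0,n0,n0,n1,m1,n2] (e' := [n1,n0,n0,n0,n0,n0,n0,n0,n0,n0,n0,n0,m1,n1,m2]) (by decide +kernel)
  (.t t147 ok147) (.t t148 ok148)

theorem cl141 : Clo K (Helper55.TR.GH (-1) Helper55.TR.BrU [0,0,1]) l153 :=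
  .w [n0,n0,n0,n0,n0,n0,n0,n0,n0,n0,n0,n2,m1,n1,m2] (e' := [n1,n0,n0,n0,n0,n0,n0,n0,n0,n0,n0,m2,n1,m1,n2])
  (by decide +kernel) (.t t149 ok149) (.t t150 ok150)

theorem cl142 : Clo K (Helper55.TR.GH (-1) Helper55.TR.BrU [0,0,1]) r151 :=
  .w [n0,n0,n0,n0,n0,n0,n0,n0,n0,n0,n0,m1,n1,m1,n2] (e' := [n1,n0,n0,n0,n0,n0,n0,n0,n0,n0,n0,n1,m1,n1,m2])
  (by decide +kernel) cl141 (.t t151 ok151)

theorem cl143 : Clo K (Helper55.TR.GH (-1) Helper55.TR.BrU [0,0,1]) r142 :=
  .w [n0,n0,n0,n0,n0,n0,n0,n0,n0,n0,n0,n1,m1,n1,m2] (e' := [n1,n0,n0,n0,n0,n0,n0,n0,n0,n0,n0,m1,n1,m1,n2])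
  (by decide +kernel) cl140 cl142

theorem cl144 : Clo K (Helper55.TR.GH (-1) Helper55.TR.BrU [0,0,1]) r141 :=
  .i [n1,n0,n1,n1,n2,n0,n0,n0,n0,n0,n5] (e' := [n0,n0,m1,m1,m2,n0,n0,n0,n0,n0,m5]) (by decide +kernel)
  (by decide +kernel) cl139 cl143

theorem cl145 : Clo K (Helper55.TR.GH (-1) Helper55.TR.BrU [0,0,1]) l140 :=
  .i [n1,n0,n2,n2,m2,n0,n0,n0,n0,m1,m2] (e' := [n0,n0,m2,m2,n2,n0,n0,n0,n0,n1,n2]) (by decide +kernel)
  (by decide +kernel) (.t t137 ok137) cl144

theorem cl146 : Clo K (Helper55.TR.GH (-1) Helper55.TR.BrU [0,0,1]) r140 :=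
  .w [n0,n0,n0,n0,n0,n0,n0,n0,n0,n0,n0,m1,n1,m1,n2] (e' := [n1,n0,n0,n0,n0,n0,n0,n0,n0,n0,n0,n1,m1,n1,m2])
  (by decide +kernel) (.t t152 ok152) (.t t153 ok153)

theorem cl147 : Clo K (Helper55.TR.GH (-1) Helper55.TR.BrU [0,0,1]) r126 :=
  .i [n1,n0,m2,m2,n2,n0,n0,n0,n0,n1,n2] (e' := [n0,n0,n2,n2,m2,n0,n0,n0,n0,m1,m2]) (by decide +kernel)
  (by decide +kernel) cl145 cl146

theorem cl148 : Clo K (Helper55.TR.GH (-1) Helper55.TR.BrU [0,0,1]) l125 :=
  .i [n0,n0,n4,n0,m2,n1] (e' := [n1,n0,m4,n0,n2,m1]) (by decide +kernel) (by decide +kernel) cl131 cl147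

theorem cl149 : Clo K (Helper55.TR.GH (-1) Helper55.TR.BrU [0,0,1]) l159 :=
  .w [n0,n0,n0,n0,n0,n0,n0,n0,n0,n0,n0,n2,m1,n1,m2] (e' := [n1,n0,n0,n0,n0,n0,n0,n0,n0,n0,n0,m2,n1,m1,n2])
  (by decide +kernel) (.t t155 ok155) (.t t156 ok156)

theorem cl150 : Clo K (Helper55.TR.GH (-1) Helper55.TR.BrU [0,0,1]) r159 :=
  .w [n0,n0,n0,n0,n0,n0,n0,n0,n0,n0,n0,n0,n1,m1,n2] (e' := [n1,n0,n0,n0,n0,n0,n0,n0,n0,n0,n0,n0,m1,n1,m2]) (by decide +kernel)
  (.t t157 ok157) (.t t158 ok158)

theorem cl151 : Clo K (Helper55.TR.GH (-1) Helper55.TR.BrU [0,0,1]) r158 :=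
  .w [n0,n0,n0,n0,n0,n0,n0,n0,n0,n0,n0,m1,n1,m1,n2] (e' := [n1,n0,n0,n0,n0,n0,n0,n0,n0,n0,n0,n1,m1,n1,m2])
  (by decide +kernel) cl149 cl150

theorem cl152 : Clo K (Helper55.TR.GH (-1) Helper55.TR.BrU [0,0,1]) l157 :=
  .i [n1,n0,m1,m1,m2,n0,n0,n0,n0,n0,m5] (e' := [n0,n0,n1,n1,n2,n0,n0,n0,n0,n0,n5]) (by decide +kernel)
  (by decide +kernel) (.t t154 ok154) cl151

theorem cl153 : Clo K (Helper55.TR.GH (-1) Helper55.TR.BrU [0,0,1]) l164 :=
  .w [n0,n0,n0,n0,n0,n0,n0,n0,n0,n0,n0,n2,m1,n1,m2] (e' := [n1,n0,n0,n0,n0,n0,n0,n0,n0,n0,n0,m2,n1,m1,n2])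
  (by decide +kernel) (.t t160 ok160) (.t t161 ok161)

theorem cl154 : Clo K (Helper55.TR.GH (-1) Helper55.TR.BrU [0,0,1]) r163 :=
  .w [n0,n0,n0,n0,n0,n0,n0,n0,n0,n0,n0,m1,n1,m1,n2] (e' := [n1,n0,n0,n0,n0,n0,n0,n0,n0,n0,n0,n1,m1,n1,m2])
  (by decide +kernel) cl153 (.t t162 ok162)

theorem cl155 : Clo K (Helper55.TR.GH (-1) Helper55.TR.BrU [0,0,1]) l162 :=
  .i [n0,n0,n4,n0,m2,n1] (e' := [n1,n0,m4,n0,n2,m1]) (by decide +kernel) (by decide +kernel) (.t t159 ok159)
  cl154

theorem cl156 : Clo K (Helper55.TR.GH (-1) Helper55.TR.BrU [0,0,1]) l166 :=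
  .w [n0,n0,n0,n0,n0,n0,n0,n0,n0,n0,n0,n2,m1,n1,m2] (e' := [n1,n0,n0,n0,n0,n0,n0,n0,n0,n0,n0,m2,n1,m1,n2])
  (by decide +kernel) (.t t163 ok163) (.t t164 ok164)

theorem cl157 : Clo K (Helper55.TR.GH (-1) Helper55.TR.BrU [0,0,1]) l168 :=
  .w [n0,n0,n0,n0,n0,n0,n0,n0,n0,n0,n0,n1,m1,n1,m2] (e' := [n1,n0,n0,n0,n0,n0,n0,n0,n0,n0,n0,m1,n1,m1,n2])
  (by decide +kernel) (.t t165 ok165) (.t t166 ok166)

theorem cl158 : Clo K (Helper55.TR.GH (-1) Helper55.TR.BrU [0,0,1]) r166 :=
  .w [n0,n0,n0,n0,n0,n0,n0,n0,n0,n0,n0,n0,n1,m1,n2] (e' := [n1,n0,n0,n0,n0,n0,n0,n0,n0,n0,n0,n0,m1,n1,m2]) (by decide +kernel)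
  cl157 (.t t167 ok167)

theorem cl159 : Clo K (Helper55.TR.GH (-1) Helper55.TR.BrU [0,0,1]) r162 :=
  .w [n0,n0,n0,n0,n0,n0,n0,n0,n0,n0,n0,m1,n1,m1,n2] (e' := [n1,n0,n0,n0,n0,n0,n0,n0,n0,n0,n0,n1,m1,n1,m2])
  (by decide +kernel) cl156 cl158

theorem cl160 : Clo K (Helper55.TR.GH (-1) Helper55.TR.BrU [0,0,1]) r157 :=
  .i [n1,n0,m1,m1,m2,n0,n0,n0,n0,n0,m5] (e' := [n0,n0,n1,n1,n2,n0,n0,n0,n0,n0,n5]) (by decide +kernel)
  (by decide +kernel) cl155 cl159

theorem cl161 : Clo K (Helper55.TR.GH (-1) Helper55.TR.BrU [0,0,1]) l156 :=
  .i [n0,n0,m4,n0,n2,m1] (e' := [n1,n0,n4,n0,m2,n1]) (by decide +kernel) (by decide +kernel) cl152 cl160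

theorem cl162 : Clo K (Helper55.TR.GH (-1) Helper55.TR.BrU [0,0,1]) l170 :=
  .w [n0,n0,n0,n0,n0,n0,n0,n0,n0,n0,n0,n2,m1,n1,m2] (e' := [n1,n0,n0,n0,n0,n0,n0,n0,n0,n0,n0,m2,n1,m1,n2])
  (by decide +kernel) (.t t168 ok168) (.t t169 ok169)

theorem cl163 : Clo K (Helper55.TR.GH (-1) Helper55.TR.BrU [0,0,1]) r170 :=
  .w [n0,n0,n0,n0,n0,n0,n0,n0,n0,n0,n0,n0,m1,n1,m2] (e' := [n1,n0,n0,n0,n0,n0,n0,n0,n0,n0,n0,n0,n1,m1,n2]) (by decide +kernel)
  (.t t170 ok170) (.t t171 ok171)

theorem cl164 : Clo K (Helper55.TR.GH (-1) Helper55.TR.BrU [0,0,1]) r156 :=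
  .w [n0,n0,n0,n0,n0,n0,n0,n0,n0,n0,n0,m1,n1,m1,n2] (e' := [n1,n0,n0,n0,n0,n0,n0,n0,n0,n0,n0,n1,m1,n1,m2])
  (by decide +kernel) cl162 cl163

theorem cl165 : Clo K (Helper55.TR.GH (-1) Helper55.TR.BrU [0,0,1]) r125 :=
  .i [n1,n0,n1,n1,n2,n0,n0,n0,n0,n0,n5] (e' := [n0,n0,m1,m1,m2,n0,n0,n0,n0,n0,m5]) (by decide +kernel)
  (by decide +kernel) cl161 cl164

theorem cl166 : Clo K (Helper55.TR.GH (-1) Helper55.TR.BrU [0,0,1]) r105 :=
  .i [n0,n0,n4,n0,m2,m2,n0,n0,n1] (e' := [n1,n0,m4,n0,n2,n2,n0,n0,m1]) (by decide +kernel) (by decide +kernel)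
  cl148 cl165

theorem cl167 : Clo K (Helper55.TR.GH (-1) Helper55.TR.BrU [0,0,1]) r104 :=
  .i [n1,n0,m1,m1,m3,n0,n0,n0,n0,n0,m7] (e' := [n0,n0,n1,n1,n3,n0,n0,n0,n0,n0,n7]) (by decide +kernel)
  (by decide +kernel) cl118 cl166

theorem cl168 : Clo K (Helper55.TR.GH (-1) Helper55.TR.BrU [0,0,1]) r81 :=
  .i [n0,n0,n2,n0,m1,n0,n1,n0,m1] (e' := [n1,n0,m2,n0,n1,n0,m1,n0,n1]) (by decide +kernel) (by decide +kernel)
  (.t t102 ok102) cl167

theorem cl169 : Clo K (Helper55.TR.GH (-1) Helper55.TR.BrU [0,0,1]) l80 :=
  .i [n1,n0,n3,n3,m1,n0,n0,m1,n0,n0,n1] (e' := [n0,n0,m3,m3,n1,n0,n0,n1,n0,n0,m1]) (by decide +kernel)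
  (by decide +kernel) cl99 cl168

theorem cl170 : Clo K (Helper55.TR.GH (-1) Helper55.TR.BrU [0,0,1]) l176 :=
  .w [n0,n0,n0,n0,n0,n0,n0,n0,n0,n0,n0,n2,m1,n1,m2] (e' := [n1,n0,n0,n0,n0,n0,n0,n0,n0,n0,n0,m2,n1,m1,n2])
  (by decide +kernel) (.t t174 ok174) (.t t175 ok175)

theorem cl171 : Clo K (Helper55.TR.GH (-1) Helper55.TR.BrU [0,0,1]) r176 :=
  .w [n0,n0,n0,n0,n0,n0,n0,n0,n0,n0,n0,n0,n1,m1,n2] (e' := [n1,n0,n0,n0,n0,n0,n0,n0,n0,n0,n0,n0,m1,n1,m2]) (by decide +kernel)
  (.t t176 ok176) (.t t177 ok177)

theorem cl172 : Clo K (Helper55.TR.GH (-1) Helper55.TR.BrU [0,0,1]) r175 :=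
  .w [n0,n0,n0,n0,n0,n0,n0,n0,n0,n0,n0,m1,n1,m1,n2] (e' := [n1,n0,n0,n0,n0,n0,n0,n0,n0,n0,n0,n1,m1,n1,m2])
  (by decide +kernel) cl170 cl171

theorem cl173 : Clo K (Helper55.TR.GH (-1) Helper55.TR.BrU [0,0,1]) l174 :=
  .i [n1,n0,n1,n1,m1,n0,n0,n1,n0,m2,m1] (e' := [n0,n0,m1,m1,n1,n0,n0,m1,n0,n2,n1]) (by decide +kernel)
  (by decide +kernel) (.t t173 ok173) cl172

theorem cl174 : Clo K (Helper55.TR.GH (-1) Helper55.TR.BrU [0,0,1]) l181 :=
  .w [n0,n0,n0,n0,n0,n0,n0,n0,n0,n0,n0,n0,n1,m1,n2] (e' := [n1,n0,n0,n0,n0,n0,n0,n0,n0,n0,n0,n0,m1,n1,m2]) (by decide +kernel)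
  (.t t179 ok179) (.t t180 ok180)

theorem cl175 : Clo K (Helper55.TR.GH (-1) Helper55.TR.BrU [0,0,1]) l183 :=
  .w [n0,n0,n0,n0,n0,n0,n0,n0,n0,n0,n0,n2,m1,n1,m2] (e' := [n1,n0,n0,n0,n0,n0,n0,n0,n0,n0,n0,m2,n1,m1,n2])
  (by decide +kernel) (.t t181 ok181) (.t t182 ok182)

theorem cl176 : Clo K (Helper55.TR.GH (-1) Helper55.TR.BrU [0,0,1]) r181 :=
  .w [n0,n0,n0,n0,n0,n0,n0,n0,n0,n0,n0,m1,n1,m1,n2] (e' := [n1,n0,n0,n0,n0,n0,n0,n0,n0,n0,n0,n1,m1,n1,m2])
  (by decide +kernel) cl175 (.t t183 ok183)

theorem cl177 : Clo K (Helper55.TR.GH (-1) Helper55.TR.BrU [0,0,1]) r180 :=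
  .w [n0,n0,n0,n0,n0,n0,n0,n0,n0,n0,n0,n1,m1,n1,m2] (e' := [n1,n0,n0,n0,n0,n0,n0,n0,n0,n0,n0,m1,n1,m1,n2])
  (by decide +kernel) cl174 cl176

theorem cl178 : Clo K (Helper55.TR.GH (-1) Helper55.TR.BrU [0,0,1]) l179 :=
  .i [n1,n0,m1,m1,n0,n0,n0,n1,n0,m1,m1] (e' := [n0,n0,n1,n1,n0,n0,n0,m1,n0,n1,n1]) (by decide +kernel)
  (by decide +kernel) (.t t178 ok178) cl177

theorem cl179 : Clo K (Helper55.TR.GH (-1) Helper55.TR.BrU [0,0,1]) r186 :=
  .w [n0,n0,n0,n0,n0,n0,n0,n0,n0,n0,n0,n2,m1,n1,m2] (e' := [n1,n0,n0,n0,n0,n0,n0,n0,n0,n0,n0,m2,n1,m1,n2])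
  (by decide +kernel) (.t t185 ok185) (.t t186 ok186)

theorem cl180 : Clo K (Helper55.TR.GH (-1) Helper55.TR.BrU [0,0,1]) l185 :=
  .i [n1,n0,n2,n2,m2,n0,n0,n0,n0,m1,m2] (e' := [n0,n0,m2,m2,n2,n0,n0,n0,n0,n1,n2]) (by decide +kernel)
  (by decide +kernel) (.t t184 ok184) cl179

theorem cl181 : Clo K (Helper55.TR.GH (-1) Helper55.TR.BrU [0,0,1]) r179 :=
  .w [n0,n0,n0,n0,n0,n0,n0,n0,n0,n0,n0,m1,n1,m1,n2] (e' := [n1,n0,n0,n0,n0,n0,n0,n0,n0,n0,n0,n1,m1,n1,m2])
  (by decide +kernel) cl180 (.t t187 ok187)

theorem cl182 : Clo K (Helper55.TR.GH (-1) Helper55.TR.BrU [0,0,1]) r174 :=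
  .i [n1,n0,n1,n1,n0,n0,n0,m1,n0,n1,n1] (e' := [n0,n0,m1,m1,n0,n0,n0,n1,n0,m1,m1]) (by decide +kernel)
  (by decide +kernel) cl178 cl181

theorem cl183 : Clo K (Helper55.TR.GH (-1) Helper55.TR.BrU [0,0,1]) r173 :=
  .i [n1,n0,m1,m1,n1,n0,n0,m1,n0,n2,n1] (e' := [n0,n0,n1,n1,m1,n0,n0,n1,n0,m2,m1]) (by decide +kernel)
  (by decide +kernel) cl173 cl182

theorem cl184 : Clo K (Helper55.TR.GH (-1) Helper55.TR.BrU [0,0,1]) r80 :=
  .i [n0,n0,n2,n0,m1,n0,n1,n0,m1] (e' := [n1,n0,m2,n0,n1,n0,m1,n0,n1]) (by decide +kernel) (by decide +kernel)
  (.t t172 ok172) cl183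

theorem cl185 : Clo K (Helper55.TR.GH (-1) Helper55.TR.BrU [0,0,1]) r1 :=
  .i [n1,n0,m3,m3,n1,n0,n0,n1,n0,n0,m1] (e' := [n0,n0,n3,n3,m1,n0,n0,m1,n0,n0,n1]) (by decide +kernel)
  (by decide +kernel) cl169 cl184

theorem cl186 : Clo K (Helper55.TR.GH (-1) Helper55.TR.BrU [0,0,1]) l0 :=
  .i [n1,n0,n3,n3,m1,n0,n0,n0,n0,m1,n1] (e' := [n0,n0,m3,m3,n1,n0,n0,n0,n0,n1,m1]) (by decide +kernel)
  (by decide +kernel) cl77 cl185

theorem cl187 : Clo K (Helper55.TR.GH (-1) Helper55.TR.BrU [0,0,1]) r196 :=
  .w [n0,n0,n0,n0,n0,n0,n0,n0,n0,n0,n0,m1,n1,m1,n2] (e' := [n1,n0,n0,n0,n0,n0,n0,n0,n0,n0,n0,n1,m1,n1,m2])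
  (by decide +kernel) (.t t193 ok193) (.t t194 ok194)

theorem cl188 : Clo K (Helper55.TR.GH (-1) Helper55.TR.BrU [0,0,1]) l195 :=
  .i [n1,n0,n3,n3,m2,n0,n0,n0,n0,m1,m1] (e' := [n0,n0,m3,m3,n2,n0,n0,n0,n0,n1,n1]) (by decide +kernel)
  (by decide +kernel) (.t t192 ok192) cl187

theorem cl189 : Clo K (Helper55.TR.GH (-1) Helper55.TR.BrU [0,0,1]) l199 :=
  .w [n0,n0,n0,n0,n0,n0,n0,n0,n0,n0,n0,n1,m1,n1,m2] (e' := [n1,n0,n0,n0,n0,n0,n0,n0,n0,n0,n0,m1,n1,m1,n2])
  (by decide +kernel) (.t t196 ok196) (.t t197 ok197)

theorem cl190 : Clo K (Helper55.TR.GH (-1) Helper55.TR.BrU [0,0,1]) r199 :=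
  .w [n0,n0,n0,n0,n0,n0,n0,n0,n0,n0,n0,n0,m1,n1,m2] (e' := [n1,n0,n0,n0,n0,n0,n0,n0,n0,n0,n0,n0,n1,m1,n2]) (by decide +kernel)
  (.t t198 ok198) (.t t199 ok199)

theorem cl191 : Clo K (Helper55.TR.GH (-1) Helper55.TR.BrU [0,0,1]) r198 :=
  .w [n0,n0,n0,n0,n0,n0,n0,n0,n0,n0,n0,n0,n1,m1,n2] (e' := [n1,n0,n0,n0,n0,n0,n0,n0,n0,n0,n0,n0,m1,n1,m2]) (by decide +kernel)
  cl189 cl190

theorem cl192 : Clo K (Helper55.TR.GH (-1) Helper55.TR.BrU [0,0,1]) r195 :=
  .w [n0,n0,n0,n0,n0,n0,n0,n0,n0,n0,n0,m1,n1,m1,n2] (e' := [n1,n0,n0,n0,n0,n0,n0,n0,n0,n0,n0,n1,m1,n1,m2])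
  (by decide +kernel) (.t t195 ok195) cl191

theorem cl193 : Clo K (Helper55.TR.GH (-1) Helper55.TR.BrU [0,0,1]) r194 :=
  .i [n1,n0,m3,m3,n2,n0,n0,n0,n0,n1,n1] (e' := [n0,n0,n3,n3,m2,n0,n0,n0,n0,m1,m1]) (by decide +kernel)
  (by decide +kernel) cl188 cl192

theorem cl194 : Clo K (Helper55.TR.GH (-1) Helper55.TR.BrU [0,0,1]) r193 :=
  .i [n0,n0,n4,n0,m2,n1] (e' := [n1,n0,m4,n0,n2,m1]) (by decide +kernel) (by decide +kernel) (.t t191 ok191)
  cl193

theorem cl195 : Clo K (Helper55.TR.GH (-1) Helper55.TR.BrU [0,0,1]) r192 :=
  .i [n0,n0,n2,n0,m1,n0,n1,n0,m1] (e' := [n1,n0,m2,n0,n1,n0,m1,n0,n1]) (by decide +kernel) (by decide +kernel)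
  (.t t190 ok190) cl194

theorem cl196 : Clo K (Helper55.TR.GH (-1) Helper55.TR.BrU [0,0,1]) l191 :=
  .i [n0,n0,m4,n0,n2,m1] (e' := [n1,n0,n4,n0,m2,n1]) (by decide +kernel) (by decide +kernel) (.t t189 ok189)
  cl195

theorem cl197 : Clo K (Helper55.TR.GH (-1) Helper55.TR.BrU [0,0,1]) r204 :=
  .w [n0,n0,n0,n0,n0,n0,n0,n0,n0,n0,n0,m1,n1,m1,n2] (e' := [n1,n0,n0,n0,n0,n0,n0,n0,n0,n0,n0,n1,m1,n1,m2])
  (by decide +kernel) (.t t202 ok202) (.t t203 ok203)

theorem cl198 : Clo K (Helper55.TR.GH (-1) Helper55.TR.BrU [0,0,1]) l203 :=
  .i [n1,n0,m3,m3,m2,n0,n0,n0,n0,n0,m7] (e' := [n0,n0,n3,n3,n2,n0,n0,n0,n0,n0,n7]) (by decide +kernel)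
  (by decide +kernel) (.t t201 ok201) cl197

theorem cl199 : Clo K (Helper55.TR.GH (-1) Helper55.TR.BrU [0,0,1]) l209 :=
  .w [n0,n0,n0,n0,n0,n0,n0,n0,n0,n0,n0,n1,m1,n1,m2] (e' := [n1,n0,n0,n0,n0,n0,n0,n0,n0,n0,n0,m1,n1,m1,n2])
  (by decide +kernel) (.t t206 ok206) (.t t207 ok207)

theorem cl200 : Clo K (Helper55.TR.GH (-1) Helper55.TR.BrU [0,0,1]) r208 :=
  .w [n0,n0,n0,n0,n0,n0,n0,n0,n0,n0,n0,n0,n1,m1,n2] (e' := [n1,n0,n0,n0,n0,n0,n0,n0,n0,n0,n0,n0,m1,n1,m2]) (by decide +kernel)
  cl199 (.t t208 ok208)

theorem cl201 : Clo K (Helper55.TR.GH (-1) Helper55.TR.BrU [0,0,1]) r207 :=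
  .w [n0,n0,n0,n0,n0,n0,n0,n0,n0,n0,n0,m1,n1,m1,n2] (e' := [n1,n0,n0,n0,n0,n0,n0,n0,n0,n0,n0,n1,m1,n1,m2])
  (by decide +kernel) (.t t205 ok205) cl200

theorem cl202 : Clo K (Helper55.TR.GH (-1) Helper55.TR.BrU [0,0,1]) l206 :=
  .i [n1,n0,m3,m3,n2,n0,n0,n0,n0,n1,n1] (e' := [n0,n0,n3,n3,m2,n0,n0,n0,n0,m1,m1]) (by decide +kernel)
  (by decide +kernel) (.t t204 ok204) cl201

theorem cl203 : Clo K (Helper55.TR.GH (-1) Helper55.TR.BrU [0,0,1]) l214 :=
  .w [n0,n0,n0,n0,n0,n0,n0,n0,n0,n0,n0,n1,m1,n1,m2] (e' := [n1,n0,n0,n0,n0,n0,n0,n0,n0,n0,n0,m1,n1,m1,n2])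
  (by decide +kernel) (.t t211 ok211) (.t t212 ok212)

theorem cl204 : Clo K (Helper55.TR.GH (-1) Helper55.TR.BrU [0,0,1]) r213 :=
  .w [n0,n0,n0,n0,n0,n0,n0,n0,n0,n0,n0,n0,n1,m1,n2] (e' := [n1,n0,n0,n0,n0,n0,n0,n0,n0,n0,n0,n0,m1,n1,m2]) (by decide +kernel)
  cl203 (.t t213 ok213)

theorem cl205 : Clo K (Helper55.TR.GH (-1) Helper55.TR.BrU [0,0,1]) r212 :=
  .w [n0,n0,n0,n0,n0,n0,n0,n0,n0,n0,n0,m1,n1,m1,n2] (e' := [n1,n0,n0,n0,n0,n0,n0,n0,n0,n0,n0,n1,m1,n1,m2])
  (by decide +kernel) (.t t210 ok210) cl204

theorem cl206 : Clo K (Helper55.TR.GH (-1) Helper55.TR.BrU [0,0,1]) l211 :=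
  .i [n1,n0,n1,n1,n0,n0,n0,m1,n0,n1,n1] (e' := [n0,n0,m1,m1,n0,n0,n0,n1,n0,m1,m1]) (by decide +kernel)
  (by decide +kernel) (.t t209 ok209) cl205

theorem cl207 : Clo K (Helper55.TR.GH (-1) Helper55.TR.BrU [0,0,1]) l216 :=
  .w [n0,n0,n0,n0,n0,n0,n0,n0,n0,n0,n0,n0,n1,m1,n2] (e' := [n1,n0,n0,n0,n0,n0,n0,n0,n0,n0,n0,n0,m1,n1,m2]) (by decide +kernel)
  (.t t214 ok214) (.t t215 ok215)

theorem cl208 : Clo K (Helper55.TR.GH (-1) Helper55.TR.BrU [0,0,1]) r211 :=
  .w [n0,n0,n0,n0,n0,n0,n0,n0,n0,n0,n0,n1,m1,n1,m2] (e' := [n1,n0,n0,n0,n0,n0,n0,n0,n0,n0,n0,m1,n1,m1,n2])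
  (by decide +kernel) cl207 (.t t216 ok216)

theorem cl209 : Clo K (Helper55.TR.GH (-1) Helper55.TR.BrU [0,0,1]) r206 :=
  .i [n1,n0,m1,m1,n0,n0,n0,n1,n0,m1,m1] (e' := [n0,n0,n1,n1,n0,n0,n0,m1,n0,n1,n1]) (by decide +kernel)
  (by decide +kernel) cl206 cl208

theorem cl210 : Clo K (Helper55.TR.GH (-1) Helper55.TR.BrU [0,0,1]) r203 :=
  .i [n1,n0,n3,n3,m2,n0,n0,n0,n0,m1,m1] (e' := [n0,n0,m3,m3,n2,n0,n0,n0,n0,n1,n1]) (by decide +kernel)
  (by decide +kernel) cl202 cl209

theorem cl211 : Clo K (Helper55.TR.GH (-1) Helper55.TR.BrU [0,0,1]) r202 :=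
  .i [n1,n0,n3,n3,n2,n0,n0,n0,n0,n0,n7] (e' := [n0,n0,m3,m3,m2,n0,n0,n0,n0,n0,m7]) (by decide +kernel)
  (by decide +kernel) cl198 cl210

theorem cl212 : Clo K (Helper55.TR.GH (-1) Helper55.TR.BrU [0,0,1]) r191 :=
  .i [n0,n0,n2,n0,m1,n0,n1,n0,m1] (e' := [n1,n0,m2,n0,n1,n0,m1,n0,n1]) (by decide +kernel) (by decide +kernel)
  (.t t200 ok200) cl211

theorem cl213 : Clo K (Helper55.TR.GH (-1) Helper55.TR.BrU [0,0,1]) l190 :=
  .i [n1,n0,m1,m1,m2,n0,n0,n0,n0,n0,m5] (e' := [n0,n0,n1,n1,n2,n0,n0,n0,n0,n0,n5]) (by decide +kernel)
  (by decide +kernel) cl196 cl212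

theorem cl214 : Clo K (Helper55.TR.GH (-1) Helper55.TR.BrU [0,0,1]) r220 :=
  .w [n0,n0,n0,n0,n0,n0,n0,n0,n0,n0,n0,m1,n1,m1,n2] (e' := [n1,n0,n0,n0,n0,n0,n0,n0,n0,n0,n0,n1,m1,n1,m2])
  (by decide +kernel) (.t t219 ok219) (.t t220 ok220)

theorem cl215 : Clo K (Helper55.TR.GH (-1) Helper55.TR.BrU [0,0,1]) l219 :=
  .i [n1,n0,n3,n3,m1,n0,n0,m1,n0,n0,n1] (e' := [n0,n0,m3,m3,n1,n0,n0,n1,n0,n0,m1]) (by decide +kernel)
  (by decide +kernel) (.t t218 ok218) cl214

theorem cl216 : Clo K (Helper55.TR.GH (-1) Helper55.TR.BrU [0,0,1]) l229 :=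
  .w [n0,n0,n0,n0,n0,n0,n0,n0,n0,n0,n0,n1,m1,n1,m2] (e' := [n1,n0,n0,n0,n0,n0,n0,n0,n0,n0,n0,m1,n1,m1,n2])
  (by decide +kernel) (.t t225 ok225) (.t t226 ok226)

theorem cl217 : Clo K (Helper55.TR.GH (-1) Helper55.TR.BrU [0,0,1]) r228 :=
  .w [n0,n0,n0,n0,n0,n0,n0,n0,n0,n0,n0,n0,n1,m1,n2] (e' := [n1,n0,n0,n0,n0,n0,n0,n0,n0,n0,n0,n0,m1,n1,m2]) (by decide +kernel)
  cl216 (.t t227 ok227)

theorem cl218 : Clo K (Helper55.TR.GH (-1) Helper55.TR.BrU [0,0,1]) r227 :=
  .w [n0,n0,n0,n0,n0,n0,n0,n0,n0,n0,n0,m1,n1,m1,n2] (e' := [n1,n0,n0,n0,n0,n0,n0,n0,n0,n0,n0,n1,m1,n1,m2])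
  (by decide +kernel) (.t t224 ok224) cl217

theorem cl219 : Clo K (Helper55.TR.GH (-1) Helper55.TR.BrU [0,0,1]) l226 :=
  .i [n1,n0,n3,n3,m2,n0,n0,n0,n0,m1,m1] (e' := [n0,n0,m3,m3,n2,n0,n0,n0,n0,n1,n1]) (by decide +kernel)
  (by decide +kernel) (.t t223 ok223) cl218

theorem cl220 : Clo K (Helper55.TR.GH (-1) Helper55.TR.BrU [0,0,1]) r226 :=
  .w [n0,n0,n0,n0,n0,n0,n0,n0,n0,n0,n0,m1,n1,m1,n2] (e' := [n1,n0,n0,n0,n0,n0,n0,n0,n0,n0,n0,n1,m1,n1,m2])
  (by decide +kernel) (.t t228 ok228) (.t t229 ok229)

theorem cl221 : Clo K (Helper55.TR.GH (-1) Helper55.TR.BrU [0,0,1]) r225 :=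
  .i [n1,n0,m3,m3,n2,n0,n0,n0,n0,n1,n1] (e' := [n0,n0,n3,n3,m2,n0,n0,n0,n0,m1,m1]) (by decide +kernel)
  (by decide +kernel) cl219 cl220

theorem cl222 : Clo K (Helper55.TR.GH (-1) Helper55.TR.BrU [0,0,1]) r224 :=
  .i [n0,n0,m6,n0,n3,m1] (e' := [n1,n0,n6,n0,m3,n1]) (by decide +kernel) (by decide +kernel) (.t t222 ok222)
  cl221

theorem cl223 : Clo K (Helper55.TR.GH (-1) Helper55.TR.BrU [0,0,1]) l223 :=
  .i [n0,n0,n6,n0,m3,n1] (e' := [n1,n0,m6,n0,n3,m1]) (by decide +kernel) (by decide +kernel) (.t t221 ok221)
  cl222

theorem cl224 : Clo K (Helper55.TR.GH (-1) Helper55.TR.BrU [0,0,1]) l235 :=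
  .w [n0,n0,n0,n0,n0,n0,n0,n0,n0,n0,n0,n1,m1,n1,m2] (e' := [n1,n0,n0,n0,n0,n0,n0,n0,n0,n0,n0,m1,n1,m1,n2])
  (by decide +kernel) (.t t232 ok232) (.t t233 ok233)

theorem cl225 : Clo K (Helper55.TR.GH (-1) Helper55.TR.BrU [0,0,1]) r234 :=
  .w [n0,n0,n0,n0,n0,n0,n0,n0,n0,n0,n0,n0,n1,m1,n2] (e' := [n1,n0,n0,n0,n0,n0,n0,n0,n0,n0,n0,n0,m1,n1,m2]) (by decide +kernel)
  cl224 (.t t234 ok234)

theorem cl226 : Clo K (Helper55.TR.GH (-1) Helper55.TR.BrU [0,0,1]) r233 :=
  .w [n0,n0,n0,n0,n0,n0,n0,n0,n0,n0,n0,m1,n1,m1,n2] (e' := [n1,n0,n0,n0,n0,n0,n0,n0,n0,n0,n0,n1,m1,n1,m2])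
  (by decide +kernel) (.t t231 ok231) cl225

theorem cl227 : Clo K (Helper55.TR.GH (-1) Helper55.TR.BrU [0,0,1]) l232 :=
  .i [n1,n0,n3,n3,m2,n0,n0,n0,n0,m1,m1] (e' := [n0,n0,m3,m3,n2,n0,n0,n0,n0,n1,n1]) (by decide +kernel)
  (by decide +kernel) (.t t230 ok230) cl226

theorem cl228 : Clo K (Helper55.TR.GH (-1) Helper55.TR.BrU [0,0,1]) r232 :=
  .w [n0,n0,n0,n0,n0,n0,n0,n0,n0,n0,n0,m1,n1,m1,n2] (e' := [n1,n0,n0,n0,n0,n0,n0,n0,n0,n0,n0,n1,m1,n1,m2])
  (by decide +kernel) (.t t235 ok235) (.t t236 ok236)

theorem cl229 : Clo K (Helper55.TR.GH (-1) Helper55.TR.BrU [0,0,1]) r223 :=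
  .i [n1,n0,m3,m3,n2,n0,n0,n0,n0,n1,n1] (e' := [n0,n0,n3,n3,m2,n0,n0,n0,n0,m1,m1]) (by decide +kernel)
  (by decide +kernel) cl227 cl228

theorem cl230 : Clo K (Helper55.TR.GH (-1) Helper55.TR.BrU [0,0,1]) l222 :=
  .i [n1,n0,m1,m1,m3,n0,n0,n0,n0,n0,m7] (e' := [n0,n0,n1,n1,n3,n0,n0,n0,n0,n0,n7]) (by decide +kernel)
  (by decide +kernel) cl223 cl229

theorem cl231 : Clo K (Helper55.TR.GH (-1) Helper55.TR.BrU [0,0,1]) l241 :=
  .w [n0,n0,n0,n0,n0,n0,n0,n0,n0,n0,n0,n1,m1,n1,m2] (e' := [n1,n0,n0,n0,n0,n0,n0,n0,n0,n0,n0,m1,n1,m1,n2])
  (by decide +kernel) (.t t239 ok239) (.t t240 ok240)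

theorem cl232 : Clo K (Helper55.TR.GH (-1) Helper55.TR.BrU [0,0,1]) r240 :=
  .w [n0,n0,n0,n0,n0,n0,n0,n0,n0,n0,n0,n0,n1,m1,n2] (e' := [n1,n0,n0,n0,n0,n0,n0,n0,n0,n0,n0,n0,m1,n1,m2]) (by decide +kernel)
  cl231 (.t t241 ok241)

theorem cl233 : Clo K (Helper55.TR.GH (-1) Helper55.TR.BrU [0,0,1]) r239 :=
  .w [n0,n0,n0,n0,n0,n0,n0,n0,n0,n0,n0,m1,n1,m1,n2] (e' := [n1,n0,n0,n0,n0,n0,n0,n0,n0,n0,n0,n1,m1,n1,m2])
  (by decide +kernel) (.t t238 ok238) cl232

theorem cl234 : Clo K (Helper55.TR.GH (-1) Helper55.TR.BrU [0,0,1]) l238 :=
  .i [n1,n0,n3,n3,m2,n0,n0,n0,n0,m1,m1] (e' := [n0,n0,m3,m3,n2,n0,n0,n0,n0,n1,n1]) (by decide +kernel)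
  (by decide +kernel) (.t t237 ok237) cl233

theorem cl235 : Clo K (Helper55.TR.GH (-1) Helper55.TR.BrU [0,0,1]) l243 :=
  .w [n0,n0,n0,n0,n0,n0,n0,n0,n0,n0,n0,n0,n1,m1,n2] (e' := [n1,n0,n0,n0,n0,n0,n0,n0,n0,n0,n0,n0,m1,n1,m2]) (by decide +kernel)
  (.t t242 ok242) (.t t243 ok243)

theorem cl236 : Clo K (Helper55.TR.GH (-1) Helper55.TR.BrU [0,0,1]) r238 :=
  .w [n0,n0,n0,n0,n0,n0,n0,n0,n0,n0,n0,n1,m1,n1,m2] (e' := [n1,n0,n0,n0,n0,n0,n0,n0,n0,n0,n0,m1,n1,m1,n2])
  (by decide +kernel) cl235 (.t t244 ok244)

theorem cl237 : Clo K (Helper55.TR.GH (-1) Helper55.TR.BrU [0,0,1]) r222 :=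
  .i [n1,n0,m3,m3,n2,n0,n0,n0,n0,n1,n1] (e' := [n0,n0,n3,n3,m2,n0,n0,n0,n0,m1,m1]) (by decide +kernel)
  (by decide +kernel) cl234 cl236

theorem cl238 : Clo K (Helper55.TR.GH (-1) Helper55.TR.BrU [0,0,1]) r219 :=
  .i [n1,n0,n1,n1,n3,n0,n0,n0,n0,n0,n7] (e' := [n0,n0,m1,m1,m3,n0,n0,n0,n0,n0,m7]) (by decide +kernel)
  (by decide +kernel) cl230 cl237

theorem cl239 : Clo K (Helper55.TR.GH (-1) Helper55.TR.BrU [0,0,1]) r218 :=
  .i [n1,n0,m3,m3,n1,n0,n0,n1,n0,n0,m1] (e' := [n0,n0,n3,n3,m1,n0,n0,m1,n0,n0,n1]) (by decide +kernel)
  (by decide +kernel) cl215 cl238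

theorem cl240 : Clo K (Helper55.TR.GH (-1) Helper55.TR.BrU [0,0,1]) r190 :=
  .i [n0,n0,n2,n0,m1,n0,n1,n0,m1] (e' := [n1,n0,m2,n0,n1,n0,m1,n0,n1]) (by decide +kernel) (by decide +kernel)
  (.t t217 ok217) cl239

theorem cl241 : Clo K (Helper55.TR.GH (-1) Helper55.TR.BrU [0,0,1]) r189 :=
  .i [n1,n0,n1,n1,n2,n0,n0,n0,n0,n0,n5] (e' := [n0,n0,m1,m1,m2,n0,n0,n0,n0,n0,m5]) (by decide +kernel)
  (by decide +kernel) cl213 cl240

theorem cl242 : Clo K (Helper55.TR.GH (-1) Helper55.TR.BrU [0,0,1]) l188 :=
  .i [n1,n0,m2,m2,n2,n0,n0,n0,n0,n1,n2] (e' := [n0,n0,n2,n2,m2,n0,n0,n0,n0,m1,m2]) (by decide +kernel)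
  (by decide +kernel) (.t t188 ok188) cl241

theorem cl243 : Clo K (Helper55.TR.GH (-1) Helper55.TR.BrU [0,0,1]) l248 :=
  .w [n0,n0,n0,n0,n0,n0,n0,n0,n0,n0,n0,n2,m1,n1,m2] (e' := [n1,n0,n0,n0,n0,n0,n0,n0,n0,n0,n0,m2,n1,m1,n2])
  (by decide +kernel) (.t t247 ok247) (.t t248 ok248)

theorem cl244 : Clo K (Helper55.TR.GH (-1) Helper55.TR.BrU [0,0,1]) l250 :=
  .w [n0,n0,n0,n0,n0,n0,n0,n0,n0,n0,n0,n1,m1,n1,m2] (e' := [n1,n0,n0,n0,n0,n0,n0,n0,n0,n0,n0,m1,n1,m1,n2])
  (by decide +kernel) (.t t249 ok249) (.t t250 ok250)

theorem cl245 : Clo K (Helper55.TR.GH (-1) Helper55.TR.BrU [0,0,1]) r248 :=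
  .w [n0,n0,n0,n0,n0,n0,n0,n0,n0,n0,n0,n0,n1,m1,n2] (e' := [n1,n0,n0,n0,n0,n0,n0,n0,n0,n0,n0,n0,m1,n1,m2]) (by decide +kernel)
  cl244 (.t t251 ok251)

theorem cl246 : Clo K (Helper55.TR.GH (-1) Helper55.TR.BrU [0,0,1]) r247 :=
  .w [n0,n0,n0,n0,n0,n0,n0,n0,n0,n0,n0,m1,n1,m1,n2] (e' := [n1,n0,n0,n0,n0,n0,n0,n0,n0,n0,n0,n1,m1,n1,m2])
  (by decide +kernel) cl243 cl245

theorem cl247 : Clo K (Helper55.TR.GH (-1) Helper55.TR.BrU [0,0,1]) r246 :=
  .i [n0,n0,n2,n0,m1,n0,n1,n0,m1] (e' := [n1,n0,m2,n0,n1,n0,m1,n0,n1]) (by decide +kernel) (by decide +kernel)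
  (.t t246 ok246) cl246

theorem cl248 : Clo K (Helper55.TR.GH (-1) Helper55.TR.BrU [0,0,1]) l245 :=
  .i [n1,n0,n0,n0,m1,n0,n0,n1,n0,m2,m2] (e' := [n0,n0,n0,n0,n1,n0,n0,m1,n0,n2,n2]) (by decide +kernel)
  (by decide +kernel) (.t t245 ok245) cl247

theorem cl249 : Clo K (Helper55.TR.GH (-1) Helper55.TR.BrU [0,0,1]) l262 :=
  .w [n0,n0,n0,n0,n0,n0,n0,n0,n0,n0,n0,n2,m1,n1,m2] (e' := [n1,n0,n0,n0,n0,n0,n0,n0,n0,n0,n0,m2,n1,m1,n2])
  (by decide +kernel) (.t t257 ok257) (.t t258 ok258)

theorem cl250 : Clo K (Helper55.TR.GH (-1) Helper55.TR.BrU [0,0,1]) l264 :=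
  .w [n0,n0,n0,n0,n0,n0,n0,n0,n0,n0,n0,n1,m1,n1,m2] (e' := [n1,n0,n0,n0,n0,n0,n0,n0,n0,n0,n0,m1,n1,m1,n2])
  (by decide +kernel) (.t t259 ok259) (.t t260 ok260)

theorem cl251 : Clo K (Helper55.TR.GH (-1) Helper55.TR.BrU [0,0,1]) r262 :=
  .w [n0,n0,n0,n0,n0,n0,n0,n0,n0,n0,n0,n0,n1,m1,n2] (e' := [n1,n0,n0,n0,n0,n0,n0,n0,n0,n0,n0,n0,m1,n1,m2]) (by decide +kernel)
  cl250 (.t t261 ok261)

theorem cl252 : Clo K (Helper55.TR.GH (-1) Helper55.TR.BrU [0,0,1]) r261 :=
  .w [n0,n0,n0,n0,n0,n0,n0,n0,n0,n0,n0,m1,n1,m1,n2] (e' := [n1,n0,n0,n0,n0,n0,n0,n0,n0,n0,n0,n1,m1,n1,m2])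
  (by decide +kernel) cl249 cl251

theorem cl253 : Clo K (Helper55.TR.GH (-1) Helper55.TR.BrU [0,0,1]) l260 :=
  .i [n1,n0,m1,m1,m2,n0,n0,n0,n0,n0,m5] (e' := [n0,n0,n1,n1,n2,n0,n0,n0,n0,n0,n5]) (by decide +kernel)
  (by decide +kernel) (.t t256 ok256) cl252

theorem cl254 : Clo K (Helper55.TR.GH (-1) Helper55.TR.BrU [0,0,1]) l266 :=
  .w [n0,n0,n0,n0,n0,n0,n0,n0,n0,n0,n0,n2,m1,n1,m2] (e' := [n1,n0,n0,n0,n0,n0,n0,n0,n0,n0,n0,m2,n1,m1,n2])
  (by decide +kernel) (.t t262 ok262) (.t t263 ok263)

theorem cl255 : Clo K (Helper55.TR.GH (-1) Helper55.TR.BrU [0,0,1]) l269 :=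
  .w [n0,n0,n0,n0,n0,n0,n0,n0,n0,n0,n0,n0,n1,m1,n2] (e' := [n1,n0,n0,n0,n0,n0,n0,n0,n0,n0,n0,n0,m1,n1,m2]) (by decide +kernel)
  (.t t265 ok265) (.t t266 ok266)

theorem cl256 : Clo K (Helper55.TR.GH (-1) Helper55.TR.BrU [0,0,1]) r268 :=
  .w [n0,n0,n0,n0,n0,n0,n0,n0,n0,n0,n0,n1,m1,n1,m2] (e' := [n1,n0,n0,n0,n0,n0,n0,n0,n0,n0,n0,m1,n1,m1,n2])
  (by decide +kernel) cl255 (.t t267 ok267)

theorem cl257 : Clo K (Helper55.TR.GH (-1) Helper55.TR.BrU [0,0,1]) r266 :=
  .w [n0,n0,n0,n0,n0,n0,n0,n0,n0,n0,n0,n0,m1,n1,m2] (e' := [n1,n0,n0,n0,n0,n0,n0,n0,n0,n0,n0,n0,n1,m1,n2]) (by decide +kernel)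
  (.t t264 ok264) cl256

theorem cl258 : Clo K (Helper55.TR.GH (-1) Helper55.TR.BrU [0,0,1]) r260 :=
  .w [n0,n0,n0,n0,n0,n0,n0,n0,n0,n0,n0,m1,n1,m1,n2] (e' := [n1,n0,n0,n0,n0,n0,n0,n0,n0,n0,n0,n1,m1,n1,m2])
  (by decide +kernel) cl254 cl257

theorem cl259 : Clo K (Helper55.TR.GH (-1) Helper55.TR.BrU [0,0,1]) l259 :=
  .i [n1,n0,n1,n1,n2,n0,n0,n0,n0,n0,n5] (e' := [n0,n0,m1,m1,m2,n0,n0,n0,n0,n0,m5]) (by decide +kernel)
  (by decide +kernel) cl253 cl258

theorem cl260 : Clo K (Helper55.TR.GH (-1) Helper55.TR.BrU [0,0,1]) l274 :=
  .w [n0,n0,n0,n0,n0,n0,n0,n0,n0,n0,n0,n2,m1,n1,m2] (e' := [n1,n0,n0,n0,n0,n0,n0,n0,n0,n0,n0,m2,n1,m1,n2])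
  (by decide +kernel) (.t t269 ok269) (.t t270 ok270)

theorem cl261 : Clo K (Helper55.TR.GH (-1) Helper55.TR.BrU [0,0,1]) l276 :=
  .w [n0,n0,n0,n0,n0,n0,n0,n0,n0,n0,n0,n1,m1,n1,m2] (e' := [n1,n0,n0,n0,n0,n0,n0,n0,n0,n0,n0,m1,n1,m1,n2])
  (by decide +kernel) (.t t271 ok271) (.t t272 ok272)

theorem cl262 : Clo K (Helper55.TR.GH (-1) Helper55.TR.BrU [0,0,1]) r274 :=
  .w [n0,n0,n0,n0,n0,n0,n0,n0,n0,n0,n0,n0,n1,m1,n2] (e' := [n1,n0,n0,n0,n0,n0,n0,n0,n0,n0,n0,n0,m1,n1,m2]) (by decide +kernel)
  cl261 (.t t273 ok273)

theorem cl263 : Clo K (Helper55.TR.GH (-1) Helper55.TR.BrU [0,0,1]) r273 :=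
  .w [n0,n0,n0,n0,n0,n0,n0,n0,n0,n0,n0,m1,n1,m1,n2] (e' := [n1,n0,n0,n0,n0,n0,n0,n0,n0,n0,n0,n1,m1,n1,m2])
  (by decide +kernel) cl260 cl262

theorem cl264 : Clo K (Helper55.TR.GH (-1) Helper55.TR.BrU [0,0,1]) l272 :=
  .i [n1,n0,m1,m1,m2,n0,n0,n0,n0,n0,m5] (e' := [n0,n0,n1,n1,n2,n0,n0,n0,n0,n0,n5]) (by decide +kernel)
  (by decide +kernel) (.t t268 ok268) cl263

theorem cl265 : Clo K (Helper55.TR.GH (-1) Helper55.TR.BrU [0,0,1]) l278 :=
  .w [n0,n0,n0,n0,n0,n0,n0,n0,n0,n0,n0,n2,m1,n1,m2] (e' := [n1,n0,n0,n0,n0,n0,n0,n0,n0,n0,n0,m2,n1,m1,n2])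
  (by decide +kernel) (.t t274 ok274) (.t t275 ok275)

theorem cl266 : Clo K (Helper55.TR.GH (-1) Helper55.TR.BrU [0,0,1]) r272 :=
  .w [n0,n0,n0,n0,n0,n0,n0,n0,n0,n0,n0,m1,n1,m1,n2] (e' := [n1,n0,n0,n0,n0,n0,n0,n0,n0,n0,n0,n1,m1,n1,m2])
  (by decide +kernel) cl265 (.t t276 ok276)

theorem cl267 : Clo K (Helper55.TR.GH (-1) Helper55.TR.BrU [0,0,1]) l271 :=
  .i [n0,n0,n4,n0,m2,n1] (e' := [n1,n0,m4,n0,n2,m1]) (by decide +kernel) (by decide +kernel) cl264 cl266

theorem cl268 : Clo K (Helper55.TR.GH (-1) Helper55.TR.BrU [0,0,1]) l280 :=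
  .w [n0,n0,n0,n0,n0,n0,n0,n0,n0,n0,n0,n0,n1,m1,n2] (e' := [n1,n0,n0,n0,n0,n0,n0,n0,n0,n0,n0,n0,m1,n1,m2]) (by decide +kernel)
  (.t t277 ok277) (.t t278 ok278)

theorem cl269 : Clo K (Helper55.TR.GH (-1) Helper55.TR.BrU [0,0,1]) r271 :=
  .w [n0,n0,n0,n0,n0,n0,n0,n0,n0,n0,n0,n1,m1,n1,m2] (e' := [n1,n0,n0,n0,n0,n0,n0,n0,n0,n0,n0,m1,n1,m1,n2])
  (by decide +kernel) cl268 (.t t279 ok279)

theorem cl270 : Clo K (Helper55.TR.GH (-1) Helper55.TR.BrU [0,0,1]) r259 :=
  .i [n1,n0,n1,n1,n2,n0,n0,n0,n0,n0,n5] (e' := [n0,n0,m1,m1,m2,n0,n0,n0,n0,n0,m5]) (by decide +kernel)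
  (by decide +kernel) cl267 cl269

theorem cl271 : Clo K (Helper55.TR.GH (-1) Helper55.TR.BrU [0,0,1]) r258 :=
  .i [n0,n0,m4,n0,n2,m1] (e' := [n1,n0,n4,n0,m2,n1]) (by decide +kernel) (by decide +kernel) cl259 cl270

theorem cl272 : Clo K (Helper55.TR.GH (-1) Helper55.TR.BrU [0,0,1]) l257 :=
  .i [n1,n0,n3,n3,m1,n0,n0,m1,n0,n0,n1] (e' := [n0,n0,m3,m3,n1,n0,n0,n1,n0,n0,m1]) (by decide +kernel)
  (by decide +kernel) (.t t255 ok255) cl271

theorem cl273 : Clo K (Helper55.TR.GH (-1) Helper55.TR.BrU [0,0,1]) l282 :=
  .w [n0,n0,n0,n0,n0,n0,n0,n0,n0,n0,n0,n0,n1,m1,n2] (e' := [n1,n0,n0,n0,n0,n0,n0,n0,n0,n0,n0,n0,m1,n1,m2]) (by decide +kernel)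
  (.t t280 ok280) (.t t281 ok281)

theorem cl274 : Clo K (Helper55.TR.GH (-1) Helper55.TR.BrU [0,0,1]) r257 :=
  .w [n0,n0,n0,n0,n0,n0,n0,n0,n0,n0,n0,n1,m1,n1,m2] (e' := [n1,n0,n0,n0,n0,n0,n0,n0,n0,n0,n0,m1,n1,m1,n2])
  (by decide +kernel) cl273 (.t t282 ok282)

theorem cl275 : Clo K (Helper55.TR.GH (-1) Helper55.TR.BrU [0,0,1]) r256 :=
  .i [n1,n0,m3,m3,n1,n0,n0,n1,n0,n0,m1] (e' := [n0,n0,n3,n3,m1,n0,n0,m1,n0,n0,n1]) (by decide +kernel)
  (by decide +kernel) cl272 cl274

theorem cl276 : Clo K (Helper55.TR.GH (-1) Helper55.TR.BrU [0,0,1]) l255 :=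
  .i [n1,n0,n1,n1,n0,n0,n0,m1,n0,n1,n1] (e' := [n0,n0,m1,m1,n0,n0,n0,n1,n0,m1,m1]) (by decide +kernel)
  (by decide +kernel) (.t t254 ok254) cl275

theorem cl277 : Clo K (Helper55.TR.GH (-1) Helper55.TR.BrU [0,0,1]) l286 :=
  .w [n0,n0,n0,n0,n0,n0,n0,n0,n0,n0,n0,n2,m1,n1,m2] (e' := [n1,n0,n0,n0,n0,n0,n0,n0,n0,n0,n0,m2,n1,m1,n2])
  (by decide +kernel) (.t t284 ok284) (.t t285 ok285)

theorem cl278 : Clo K (Helper55.TR.GH (-1) Helper55.TR.BrU [0,0,1]) r285 :=
  .w [n0,n0,n0,n0,n0,n0,n0,n0,n0,n0,n0,m1,n1,m1,n2] (e' := [n1,n0,n0,n0,n0,n0,n0,n0,n0,n0,n0,n1,m1,n1,m2])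
  (by decide +kernel) cl277 (.t t286 ok286)

theorem cl279 : Clo K (Helper55.TR.GH (-1) Helper55.TR.BrU [0,0,1]) l284 :=
  .i [n1,n0,n3,n3,n2,n0,n0,n0,n0,n0,n7] (e' := [n0,n0,m3,m3,m2,n0,n0,n0,n0,n0,m7]) (by decide +kernel)
  (by decide +kernel) (.t t283 ok283) cl278

theorem cl280 : Clo K (Helper55.TR.GH (-1) Helper55.TR.BrU [0,0,1]) l288 :=
  .w [n0,n0,n0,n0,n0,n0,n0,n0,n0,n0,n0,n0,n1,m1,n2] (e' := [n1,n0,n0,n0,n0,n0,n0,n0,n0,n0,n0,n0,m1,n1,m2]) (by decide +kernel)
  (.t t287 ok287) (.t t288 ok288)

theorem cl281 : Clo K (Helper55.TR.GH (-1) Helper55.TR.BrU [0,0,1]) r284 :=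
  .w [n0,n0,n0,n0,n0,n0,n0,n0,n0,n0,n0,n1,m1,n1,m2] (e' := [n1,n0,n0,n0,n0,n0,n0,n0,n0,n0,n0,m1,n1,m1,n2])
  (by decide +kernel) cl280 (.t t289 ok289)

theorem cl282 : Clo K (Helper55.TR.GH (-1) Helper55.TR.BrU [0,0,1]) r255 :=
  .i [n1,n0,m3,m3,m2,n0,n0,n0,n0,n0,m7] (e' := [n0,n0,n3,n3,n2,n0,n0,n0,n0,n0,n7]) (by decide +kernel)
  (by decide +kernel) cl279 cl281

theorem cl283 : Clo K (Helper55.TR.GH (-1) Helper55.TR.BrU [0,0,1]) r254 :=
  .i [n1,n0,m1,m1,n0,n0,n0,n1,n0,m1,m1] (e' := [n0,n0,n1,n1,n0,n0,n0,m1,n0,n1,n1]) (by decide +kernel)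
  (by decide +kernel) cl276 cl282

theorem cl284 : Clo K (Helper55.TR.GH (-1) Helper55.TR.BrU [0,0,1]) r253 :=
  .i [n0,n0,n2,n0,m1,n0,n1,n0,m1] (e' := [n1,n0,m2,n0,n1,n0,m1,n0,n1]) (by decide +kernel) (by decide +kernel)
  (.t t253 ok253) cl283

theorem cl285 : Clo K (Helper55.TR.GH (-1) Helper55.TR.BrU [0,0,1]) l252 :=
  .i [n1,n0,m1,m1,n1,n0,n0,m1,n0,n2,n1] (e' := [n0,n0,n1,n1,m1,n0,n0,n1,n0,m2,m1]) (by decide +kernel)
  (by decide +kernel) (.t t252 ok252) cl284

theorem cl286 : Clo K (Helper55.TR.GH (-1) Helper55.TR.BrU [0,0,1]) l293 :=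
  .w [n0,n0,n0,n0,n0,n0,n0,n0,n0,n0,n0,n0,n1,m1,n2] (e' := [n1,n0,n0,n0,n0,n0,n0,n0,n0,n0,n0,n0,m1,n1,m2]) (by decide +kernel)
  (.t t292 ok292) (.t t293 ok293)

theorem cl287 : Clo K (Helper55.TR.GH (-1) Helper55.TR.BrU [0,0,1]) r292 :=
  .w [n0,n0,n0,n0,n0,n0,n0,n0,n0,n0,n0,n1,m1,n1,m2] (e' := [n1,n0,n0,n0,n0,n0,n0,n0,n0,n0,n0,m1,n1,m1,n2])
  (by decide +kernel) cl286 (.t t294 ok294)

theorem cl288 : Clo K (Helper55.TR.GH (-1) Helper55.TR.BrU [0,0,1]) l291 :=
  .i [n1,n0,m3,m3,m1,n0,n0,n0,n0,n0,m5] (e' := [n0,n0,n3,n3,n1,n0,n0,n0,n0,n0,n5]) (by decide +kernel)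
  (by decide +kernel) (.t t291 ok291) cl287

theorem cl289 : Clo K (Helper55.TR.GH (-1) Helper55.TR.BrU [0,0,1]) l295 :=
  .w [n0,n0,n0,n0,n0,n0,n0,n0,n0,n0,n0,n0,n1,m1,n2] (e' := [n1,n0,n0,n0,n0,n0,n0,n0,n0,n0,n0,n0,m1,n1,m2]) (by decide +kernel)
  (.t t295 ok295) (.t t296 ok296)

theorem cl290 : Clo K (Helper55.TR.GH (-1) Helper55.TR.BrU [0,0,1]) r291 :=
  .w [n0,n0,n0,n0,n0,n0,n0,n0,n0,n0,n0,n1,m1,n1,m2] (e' := [n1,n0,n0,n0,n0,n0,n0,n0,n0,n0,n0,m1,n1,m1,n2])
  (by decide +kernel) cl289 (.t t297 ok297)

theorem cl291 : Clo K (Helper55.TR.GH (-1) Helper55.TR.BrU [0,0,1]) r290 :=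
  .i [n1,n0,n3,n3,n1,n0,n0,n0,n0,n0,n5] (e' := [n0,n0,m3,m3,m1,n0,n0,n0,n0,n0,m5]) (by decide +kernel)
  (by decide +kernel) cl288 cl290

theorem cl292 : Clo K (Helper55.TR.GH (-1) Helper55.TR.BrU [0,0,1]) r252 :=
  .i [n0,n0,n2,n0,m1,n0,n1,n0,m1] (e' := [n1,n0,m2,n0,n1,n0,m1,n0,n1]) (by decide +kernel) (by decide +kernel)
  (.t t290 ok290) cl291

theorem cl293 : Clo K (Helper55.TR.GH (-1) Helper55.TR.BrU [0,0,1]) r245 :=
  .i [n1,n0,n1,n1,m1,n0,n0,n1,n0,m2,m1] (e' := [n0,n0,m1,m1,n1,n0,n0,m1,n0,n2,n1]) (by decide +kernel)
  (by decide +kernel) cl285 cl292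

theorem cl294 : Clo K (Helper55.TR.GH (-1) Helper55.TR.BrU [0,0,1]) r188 :=
  .i [n1,n0,n0,n0,n1,n0,n0,m1,n0,n2,n2] (e' := [n0,n0,n0,n0,m1,n0,n0,n1,n0,m2,m2]) (by decide +kernel)
  (by decide +kernel) cl248 cl293

theorem cl295 : Clo K (Helper55.TR.GH (-1) Helper55.TR.BrU [0,0,1]) r0 :=
  .i [n1,n0,n2,n2,m2,n0,n0,n0,n0,m1,m2] (e' := [n0,n0,m2,m2,n2,n0,n0,n0,n0,n1,n2]) (by decide +kernel)
  (by decide +kernel) cl242 cl294

theorem cl296 : Clo K (Helper55.TR.GH (-1) Helper55.TR.BrU [0,0,1]) base :=
  .i [n0,n0,m2,n0,n1,n3,n0,n0,m1] (e' := [n1,n0,n2,n0,m1,m3,n0,n0,n1]) (by decide +kernel) (by decide +kernel)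
  cl186 cl295

theorem g : Helper55.TR.GH (-1) Helper55.TR.BrU [0,0,1] base :=
  Helper55.TR.GH.of (Or.inl rfl) cl296

end Helper55.CD.D1_m1_c19u_40_1_1

namespace Helper55.CD.D1_m1_c19u_40_1_2

open Helper25.KG Helper25.KW Helper55.KE Helper11.CT Helper55.TR.Nm

noncomputable def K : Cls :=
  Helper55.TR.KH (-1) [0,0,1]

noncomputable def base : List Con :=
  [(true,[n0,n0,n0,n0,n1,n0,n0,n0,n0,n0,m2]),
  (true,[n1,n1,n0,n0,n0,n0,n0,n0,n0,n1]),
  (true,[n1,n0,n0,n0,m1,n0,n0,m1,n0,n1,m2]),
  (false,[n0,m1,n0,n1,n0,n0,n1,n1,n0,n0,n0,n0,m1]),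
  (true,[n0,m2,n0,n0,n1]),
  (false,[n0,n0,n0,m1,n0,n0,n0,n0,m1,m1,n0,n0,n0,n1]),
  (true,[n0,n0,m2,m2,n1]),
  (false,[n0,n0,n0,n0,n0,n0,n0,n0,n1,n0,n0,n0,n0,m1]),
  (true,[n0,n0,n0,n1]),
  (true,[n0,n0,n0,n0,n1,n0,n0,n0,n0,n0,n2]),
  (true,[n0,n0,m2,n0,n1]),
  (false,[n0,n0,n1,n0,n0,n0,m1,n0,n0,n0,n0,n0,n1]),
  (false,[n0,n0,n0,n0,n1,n0,n0,n0,n0,n0,n0,m2]),
  (true,[n1,n0,n2,n2,m1,n0,n0,m1]),
  (true,[n1,n0,n0,n0,n1,n0,n0,n1,n0,m1,n2]),
  (true,[n1,n0,n2,n2,m1,n0,n0,n0,n0,m1]),
  (true,[n0,n1,n0,m1]),
  (false,[n0,n0,n0,n0,n0,n0,n0,n0,n0,n0,n0,n0,n0,n1]),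
  (false,[n0,n0,m1,n0,n1,n0,m2,n0,n0,n0,n0,m1,n2]),
  (false,[n0,n0,n0,n0,n0,n0,n0,n0,n0,n0,n0,n1,n0,m1]),
  (true,[n1,m2,n1]),
  (false,[n0,m1,n0,n0,n0,n0,n1,n1,n0,n0,n0,n1,m1]),
  (true,[n0,n0,n0,n0,n0,n1]),
  (false,[n0,n0,n2,n0,m1,n0,n1,n0,n0,n0,n0,n0,m1]),
  (false,[n0,n0,n0,m2,n0,n0,n1,n1,n0,n0,n0,n0,m1]),
  (true,[m1,n1]),
  (true,[n1,n0,n0,m1,n0,n0,n0,m1]),
  (true,[n1,n0,n2,n0,m1,m2,m1,n0,n2]),
  (true,[n1,m1,n0,m1,n0,n0,n0,m1]),
  (false,[n0,n0,n0,n0,n0,n0,n0,n0,n0,n0,n0,n0,n1]),
  (true,[n0,m1,n1,n0,n0,n0,n0,n1]),
  (false,[n0,n0,n1,n0,n0,n0,m1,n0,n0,n0,n0,m1,n1]),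
  (false,[n0,n0,n0,n0,n0,m1,n0,n0,n0,n0,n0,n1,n0,m1]),
  (true,[n0,m1,n0,n1,n0,n0,n0,n0,n0,m1]),
  (true,[n0,n0,m4,m4,n2,n0,n0,n1]),
  (true,[n1,n0,n2,n0,m1,n0,n1,n0,m1]),
  (true,[n1,n0,n0,n0,n0,m1,n1,n0,m1]),
  (false,[n0,n0,n0,n0,n0,m1,n0,n0,n0,n0,n0,n1,m1]),
  (false,[n0,n0,n0,n0,n0,n0,n0,n0,n0,n0,n0,n1,m1]),
  (false,[n0,n0,n0,n0,n0,n0,n0,n0,n0,n0,n0,n1,n0,n0,m1]),
  (false,[n0,n0,n0,n0,n0,n0,n0,n0,n0,n0,n0,n0,n0,n0,n1]),
  (false,[n0,n1,n1,m1,n0,n0,m1,n0,n0,n0,n0,m1,n1]),
  (false,[n0,n0,n0,n0,n0,m2,n0,n0,n0,n0,n0,n0,n1]),
  (false,[n0,n0,n0,n0,n0,n0,n1,n0,n0,n0,n0,n1,m1]),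
  (false,[n0,n0,n1,n0,n0,n0,n0,n0,n0,n0,n0,m1]),
  (false,[n0,n0,n1,n0,n0,n0,n1,n0,n0,n0,n0,n0,m1]),
  (false,[n0,n0,n0,n0,n0,m1,n0,n0,n0,n0,n0,n1])]

noncomputable def l0 : List Con := (true, [n0,n0,n2,n0,m1,n0,n1,n0,m1]) :: base

noncomputable def r0 : List Con := (true, [n1,n0,m2,n0,n1,n0,m1,n0,n1]) :: base

noncomputable def l1 : List Con := (true, [n1,n0,n3,n3,m1,n0,n0,n0,n0,m1,n1]) :: r0

noncomputable def r1 : List Con := (true, [n0,n0,m3,m3,n1,n0,n0,n0,n0,n1,m1]) :: r0

noncomputable def l2 : List Con := (true, [n1,n0,m3,m3,n1,n0,n0,n0,n0,n1,m1]) :: l1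

noncomputable def r2 : List Con := (true, [n0,n0,n3,n3,m1,n0,n0,n0,n0,m1,n1]) :: l1

noncomputable def l3 : List Con := (true, [n0,n0,n2,n0,m1,m3,n0,n0,n1]) :: l2

noncomputable def r3 : List Con := (true, [n1,n0,m2,n0,n1,n3,n0,n0,m1]) :: l2

noncomputable def l4 : List Con := (true, [n1,n0,m1,m1,n1,n0,n0,m1,n0,n2,n1]) :: r3

noncomputable def r4 : List Con := (true, [n0,n0,n1,n1,m1,n0,n0,n1,n0,m2,m1]) :: r3

noncomputable def l5 : List Con := (true, [n1,n0,n1,n1,m1,n0,n0,n1,n0,m2,m1]) :: l4

noncomputable def r5 : List Con := (true, [n0,n0,m1,m1,n1,n0,n0,m1,n0,n2,n1]) :: l4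

noncomputable def l6 : List Con := (true, [n1,n0,n0,n0,m1,n0,n0,n1,n0,m2,m2]) :: r5

noncomputable def r6 : List Con := (true, [n0,n0,n0,n0,n1,n0,n0,m1,n0,n2,n2]) :: r5

noncomputable def l7 : List Con := (true, [n1,n0,n0,n0,n1,n0,n0,m1,n0,n2,n2]) :: l6

noncomputable def r7 : List Con := (true, [n0,n0,n0,n0,m1,n0,n0,n1,n0,m2,m2]) :: l6

noncomputable def l8 : List Con := (false, [n0,n0,n0,n0,n0,n0,n0,n0,n0,n0,n0,n1,m1,n1,m2]) :: r7

noncomputable def r8 : List Con := (true, [n1,n0,n0,n0,n0,n0,n0,n0,n0,n0,n0,m1,n1,m1,n2]) :: r7

noncomputable def l9 : List Con := (false, [n0,n0,n0,n0,n0,n0,n0,n0,n0,n0,n0,n0,n1,m1,n2]) :: l8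

noncomputable def r9 : List Con := (true, [n1,n0,n0,n0,n0,n0,n0,n0,n0,n0,n0,n0,m1,n1,m2]) :: l8

noncomputable def l10 : List Con := (false, [n0,n0,n0,n0,n0,n0,n0,n0,n0,n0,n0,n1,m1,n1,m2]) :: r6

noncomputable def r10 : List Con := (true, [n1,n0,n0,n0,n0,n0,n0,n0,n0,n0,n0,m1,n1,m1,n2]) :: r6

noncomputable def l11 : List Con := (false, [n0,n0,n0,n0,n0,n0,n0,n0,n0,n0,n0,n0,n1,m1,n2]) :: l10

noncomputable def r11 : List Con := (true, [n1,n0,n0,n0,n0,n0,n0,n0,n0,n0,n0,n0,m1,n1,m2]) :: l10

noncomputable def l12 : List Con := (true, [n1,n0,m1,m1,m2,n0,n0,n0,n0,n0,m5]) :: r4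

noncomputable def r12 : List Con := (true, [n0,n0,n1,n1,n2,n0,n0,n0,n0,n0,n5]) :: r4

noncomputable def l13 : List Con := (true, [n1,n0,n1,n1,n2,n0,n0,n0,n0,n0,n5]) :: l12

noncomputable def r13 : List Con := (true, [n0,n0,m1,m1,m2,n0,n0,n0,n0,n0,m5]) :: l12

noncomputable def l14 : List Con := (true, [n1,n0,m1,m1,m3,n0,n0,n0,n0,n0,m7]) :: r13

noncomputable def r14 : List Con := (true, [n0,n0,n1,n1,n3,n0,n0,n0,n0,n0,n7]) :: r13

noncomputable def l15 : List Con := (true, [n1,n0,n1,n1,n3,n0,n0,n0,n0,n0,n7]) :: l14

noncomputable def r15 : List Con := (true, [n0,n0,m1,m1,m3,n0,n0,n0,n0,n0,m7]) :: l14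

noncomputable def l16 : List Con := (false, [n0,n0,n0,n0,n0,n0,n0,n0,n0,n0,n0,m1,n1,m1,n2]) :: r15

noncomputable def r16 : List Con := (true, [n1,n0,n0,n0,n0,n0,n0,n0,n0,n0,n0,n1,m1,n1,m2]) :: r15

noncomputable def l17 : List Con := (false, [n0,n0,n0,n0,n0,n0,n0,n0,n0,n0,n0,n1,m1,n1,m2]) :: r14

noncomputable def r17 : List Con := (true, [n1,n0,n0,n0,n0,n0,n0,n0,n0,n0,n0,m1,n1,m1,n2]) :: r14

noncomputable def l18 : List Con := (false, [n0,n0,n0,n0,n0,n0,n0,n0,n0,n0,n0,n0,n1,m1,n2]) :: l17

noncomputable def r18 : List Con := (true, [n1,n0,n0,n0,n0,n0,n0,n0,n0,n0,n0,n0,m1,n1,m2]) :: l17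

noncomputable def l19 : List Con := (false, [n0,n0,n0,n0,n0,n0,n0,n0,n0,n0,n0,m1,n1,m1,n2]) :: r12

noncomputable def r19 : List Con := (true, [n1,n0,n0,n0,n0,n0,n0,n0,n0,n0,n0,n1,m1,n1,m2]) :: r12

noncomputable def l20 : List Con := (false, [n0,n0,n0,n0,n0,n0,n0,n0,n0,n0,n0,n2,m1,n1,m2]) :: l19

noncomputable def r20 : List Con := (true, [n1,n0,n0,n0,n0,n0,n0,n0,n0,n0,n0,m2,n1,m1,n2]) :: l19

noncomputable def l21 : List Con := (false, [n0,n0,n0,n0,n0,n0,n0,n0,n0,n0,n0,n0,m1,n1,m2]) :: r19

noncomputable def r21 : List Con := (true, [n1,n0,n0,n0,n0,n0,n0,n0,n0,n0,n0,n0,n1,m1,n2]) :: r19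

noncomputable def l22 : List Con := (true, [n1,n0,m1,m1,m2,n0,n0,n0,n0,n0,m5]) :: r2

noncomputable def r22 : List Con := (true, [n0,n0,n1,n1,n2,n0,n0,n0,n0,n0,n5]) :: r2

noncomputable def l23 : List Con := (true, [n1,n0,n1,n1,n2,n0,n0,n0,n0,n0,n5]) :: l22

noncomputable def r23 : List Con := (true, [n0,n0,m1,m1,m2,n0,n0,n0,n0,n0,m5]) :: l22

noncomputable def l24 : List Con := (true, [n1,n0,n1,n1,n3,n0,n0,n0,n0,n0,n7]) :: r23

noncomputable def r24 : List Con := (true, [n0,n0,m1,m1,m3,n0,n0,n0,n0,n0,m7]) :: r23

noncomputable def l25 : List Con := (true, [n1,n0,m1,m1,m3,n0,n0,n0,n0,n0,m7]) :: l24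

noncomputable def r25 : List Con := (true, [n0,n0,n1,n1,n3,n0,n0,n0,n0,n0,n7]) :: l24

noncomputable def l26 : List Con := (true, [n1,n0,m3,m3,n2,n0,n0,n0,n0,n1,n1]) :: r25

noncomputable def r26 : List Con := (true, [n0,n0,n3,n3,m2,n0,n0,n0,n0,m1,m1]) :: r25

noncomputable def l27 : List Con := (true, [n1,n0,n3,n3,m2,n0,n0,n0,n0,m1,m1]) :: l26

noncomputable def r27 : List Con := (true, [n0,n0,m3,m3,n2,n0,n0,n0,n0,n1,n1]) :: l26

noncomputable def l28 : List Con := (true, [n0,n0,n4,n0,m2,m3,n0,n0,n1]) :: l27

noncomputable def r28 : List Con := (true, [n1,n0,m4,n0,n2,n3,n0,n0,m1]) :: l27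

noncomputable def l29 : List Con := (true, [n0,n0,m4,n0,n2,n3,n0,n0,m1]) :: r28

noncomputable def r29 : List Con := (true, [n1,n0,n4,n0,m2,m3,n0,n0,n1]) :: r28

noncomputable def l30 : List Con := (true, [n0,n0,m1,n0,n0,n1,n2,n0,n2]) :: r29

noncomputable def r30 : List Con := (true, [n1,n0,n1,n0,n0,m1,m2,n0,m2]) :: r29

noncomputable def l31 : List Con := (true, [n1,n0,n1,n1,n0,n0,n0,n2,n0,n2]) :: l30

noncomputable def r31 : List Con := (true, [n0,n0,m1,m1,n0,n0,n0,m2,n0,m2]) :: l30

noncomputable def l32 : List Con := (true, [n1,n0,m1,m1,n0,n0,n0,m2,n0,m2]) :: l31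

noncomputable def r32 : List Con := (true, [n0,n0,n1,n1,n0,n0,n0,n2,n0,n2]) :: l31

noncomputable def l33 : List Con := (false, [n0,n0,n0,n0,n0,n0,n0,n0,n0,n0,n0,n1,m1,n1,m2]) :: r32

noncomputable def r33 : List Con := (true, [n1,n0,n0,n0,n0,n0,n0,n0,n0,n0,n0,m1,n1,m1,n2]) :: r32

noncomputable def l34 : List Con := (false, [n0,n0,n0,n0,n0,n0,n0,n0,n0,n0,n0,n0,m1,n1,m2]) :: l33

noncomputable def r34 : List Con := (true, [n1,n0,n0,n0,n0,n0,n0,n0,n0,n0,n0,n0,n1,m1,n2]) :: l33

noncomputable def l35 : List Con := (false, [n0,n0,n0,n0,n0,n0,n0,n0,n0,n0,n0,n0,n1,m1,n2]) :: r34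

noncomputable def r35 : List Con := (true, [n1,n0,n0,n0,n0,n0,n0,n0,n0,n0,n0,n0,m1,n1,m2]) :: r34

noncomputable def l36 : List Con := (false, [n0,n0,n0,n0,n0,n0,n0,n0,n0,n0,n0,m1,n1,m1,n2]) :: r33

noncomputable def r36 : List Con := (true, [n1,n0,n0,n0,n0,n0,n0,n0,n0,n0,n0,n1,m1,n1,m2]) :: r33

noncomputable def l37 : List Con := (false, [n0,n0,n0,n0,n0,n0,n0,n0,n0,n0,n0,n0,m1,n1,m2]) :: r31

noncomputable def r37 : List Con := (true, [n1,n0,n0,n0,n0,n0,n0,n0,n0,n0,n0,n0,n1,m1,n2]) :: r31

noncomputable def l38 : List Con := (false, [n0,n0,n0,n0,n0,n0,n0,n0,n0,n0,n0,n1,m1,n1,m2]) :: r37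

noncomputable def r38 : List Con := (true, [n1,n0,n0,n0,n0,n0,n0,n0,n0,n0,n0,m1,n1,m1,n2]) :: r37

noncomputable def l39 : List Con := (false, [n0,n0,n0,n0,n0,n0,n0,n0,n0,n0,n0,m1,n1,m1,n2]) :: r38

noncomputable def r39 : List Con := (true, [n1,n0,n0,n0,n0,n0,n0,n0,n0,n0,n0,n1,m1,n1,m2]) :: r38

noncomputable def l40 : List Con := (false, [n0,n0,n0,n0,n0,n0,n0,n0,n0,n0,n0,n1,m1,n1,m2]) :: r30

noncomputable def r40 : List Con := (true, [n1,n0,n0,n0,n0,n0,n0,n0,n0,n0,n0,m1,n1,m1,n2]) :: r30

noncomputable def l41 : List Con := (false, [n0,n0,n0,n0,n0,n0,n0,n0,n0,n0,n0,n0,n1,m1,n2]) :: l40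

noncomputable def r41 : List Con := (true, [n1,n0,n0,n0,n0,n0,n0,n0,n0,n0,n0,n0,m1,n1,m2]) :: l40

noncomputable def l42 : List Con := (false, [n0,n0,n0,n0,n0,n0,n0,n0,n0,n0,n0,m1,n1,m1,n2]) :: r40

noncomputable def r42 : List Con := (true, [n1,n0,n0,n0,n0,n0,n0,n0,n0,n0,n0,n1,m1,n1,m2]) :: r40

noncomputable def l43 : List Con := (true, [n1,n0,n1,n1,n0,n0,n0,n2,n0,n2]) :: r27

noncomputable def r43 : List Con := (true, [n0,n0,m1,m1,n0,n0,n0,m2,n0,m2]) :: r27

noncomputable def l44 : List Con := (true, [n1,n0,m1,m1,n0,n0,n0,m2,n0,m2]) :: l43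

noncomputable def r44 : List Con := (true, [n0,n0,n1,n1,n0,n0,n0,n2,n0,n2]) :: l43

noncomputable def l45 : List Con := (false, [n0,n0,n0,n0,n0,n0,n0,n0,n0,n0,n0,m1,n1,m1,n2]) :: r44

noncomputable def r45 : List Con := (true, [n1,n0,n0,n0,n0,n0,n0,n0,n0,n0,n0,n1,m1,n1,m2]) :: r44

noncomputable def l46 : List Con := (false, [n0,n0,n0,n0,n0,n0,n0,n0,n0,n0,n0,n0,n1,m1,n2]) :: r45

noncomputable def r46 : List Con := (true, [n1,n0,n0,n0,n0,n0,n0,n0,n0,n0,n0,n0,m1,n1,m2]) :: r45

noncomputable def l47 : List Con := (false, [n0,n0,n0,n0,n0,n0,n0,n0,n0,n0,n0,n1,m1,n1,m2]) :: l46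

noncomputable def r47 : List Con := (true, [n1,n0,n0,n0,n0,n0,n0,n0,n0,n0,n0,m1,n1,m1,n2]) :: l46

noncomputable def l48 : List Con := (false, [n0,n0,n0,n0,n0,n0,n0,n0,n0,n0,n0,n1,m1,n1,m2]) :: r43

noncomputable def r48 : List Con := (true, [n1,n0,n0,n0,n0,n0,n0,n0,n0,n0,n0,m1,n1,m1,n2]) :: r43

noncomputable def l49 : List Con := (false, [n0,n0,n0,n0,n0,n0,n0,n0,n0,n0,n0,n0,n1,m1,n2]) :: l48

noncomputable def r49 : List Con := (true, [n1,n0,n0,n0,n0,n0,n0,n0,n0,n0,n0,n0,m1,n1,m2]) :: l48

noncomputable def l50 : List Con := (false, [n0,n0,n0,n0,n0,n0,n0,n0,n0,n0,n0,n0,m1,n1,m2]) :: r49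

noncomputable def r50 : List Con := (true, [n1,n0,n0,n0,n0,n0,n0,n0,n0,n0,n0,n0,n1,m1,n2]) :: r49

noncomputable def l51 : List Con := (false, [n0,n0,n0,n0,n0,n0,n0,n0,n0,n0,n0,n1,m1,n1,m2]) :: r26

noncomputable def r51 : List Con := (true, [n1,n0,n0,n0,n0,n0,n0,n0,n0,n0,n0,m1,n1,m1,n2]) :: r26

noncomputable def l52 : List Con := (false, [n0,n0,n0,n0,n0,n0,n0,n0,n0,n0,n0,n0,n1,m1,n2]) :: l51

noncomputable def r52 : List Con := (true, [n1,n0,n0,n0,n0,n0,n0,n0,n0,n0,n0,n0,m1,n1,m2]) :: l51

noncomputable def l53 : List Con := (true, [n0,n0,n1,n0,n1,n0,m2,n0,m2]) :: r24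

noncomputable def r53 : List Con := (true, [n1,n0,m1,n0,m1,n0,n2,n0,n2]) :: r24

noncomputable def l54 : List Con := (true, [n1,n0,n0,n0,n0,n0,n0,m2,n0,m2,n1]) :: l53

noncomputable def r54 : List Con := (true, [n0,n0,n0,n0,n0,n0,n0,n2,n0,n2,m1]) :: l53

noncomputable def l55 : List Con := (true, [n1,n0,n0,n0,n0,n0,n0,n2,n0,n2,m1]) :: l54

noncomputable def r55 : List Con := (true, [n0,n0,n0,n0,n0,n0,n0,m2,n0,m2,n1]) :: l54

noncomputable def l56 : List Con := (true, [n1,n0,n0,n0,m1,n0,n0,m2,n0,m2,m1]) :: r55

noncomputable def r56 : List Con := (true, [n0,n0,n0,n0,n1,n0,n0,n2,n0,n2,n1]) :: r55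

noncomputable def l57 : List Con := (true, [n1,n0,n0,n0,n1,n0,n0,n2,n0,n2,n1]) :: l56

noncomputable def r57 : List Con := (true, [n0,n0,n0,n0,m1,n0,n0,m2,n0,m2,m1]) :: l56

noncomputable def l58 : List Con := (false, [n0,n0,n0,n0,n0,n0,n0,n0,n0,n0,n0,n0,m1,n1,m2]) :: r57

noncomputable def r58 : List Con := (true, [n1,n0,n0,n0,n0,n0,n0,n0,n0,n0,n0,n0,n1,m1,n2]) :: r57

noncomputable def l59 : List Con := (false, [n0,n0,n0,n0,n0,n0,n0,n0,n0,n0,n0,n1,m1,n1,m2]) :: r58

noncomputable def r59 : List Con := (true, [n1,n0,n0,n0,n0,n0,n0,n0,n0,n0,n0,m1,n1,m1,n2]) :: r58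

noncomputable def l60 : List Con := (false, [n0,n0,n0,n0,n0,n0,n0,n0,n0,n0,n0,n0,n1,m1,n2]) :: l59

noncomputable def r60 : List Con := (true, [n1,n0,n0,n0,n0,n0,n0,n0,n0,n0,n0,n0,m1,n1,m2]) :: l59

noncomputable def l61 : List Con := (false, [n0,n0,n0,n0,n0,n0,n0,n0,n0,n0,n0,n0,m1,n1,m2]) :: r56

noncomputable def r61 : List Con := (true, [n1,n0,n0,n0,n0,n0,n0,n0,n0,n0,n0,n0,n1,m1,n2]) :: r56

noncomputable def l62 : List Con := (false, [n0,n0,n0,n0,n0,n0,n0,n0,n0,n0,n0,n1,m1,n1,m2]) :: r61

noncomputable def r62 : List Con := (true, [n1,n0,n0,n0,n0,n0,n0,n0,n0,n0,n0,m1,n1,m1,n2]) :: r61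

noncomputable def l63 : List Con := (true, [n1,n0,m3,m3,n2,n0,n0,n0,n0,n1,n1]) :: r54

noncomputable def r63 : List Con := (true, [n0,n0,n3,n3,m2,n0,n0,n0,n0,m1,m1]) :: r54

noncomputable def l64 : List Con := (true, [n0,n0,m4,n0,n2,n3,n0,n0,m1]) :: l63

noncomputable def r64 : List Con := (true, [n1,n0,n4,n0,m2,m3,n0,n0,n1]) :: l63

noncomputable def l65 : List Con := (true, [n1,n0,n3,n3,m2,n0,n0,n0,n0,m1,m1]) :: l64

noncomputable def r65 : List Con := (true, [n0,n0,m3,m3,n2,n0,n0,n0,n0,n1,n1]) :: l64

noncomputable def l66 : List Con := (false, [n0,n0,n0,n0,n0,n0,n0,n0,n0,n0,n0,n1,m1,n1,m2]) :: r65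

noncomputable def r66 : List Con := (true, [n1,n0,n0,n0,n0,n0,n0,n0,n0,n0,n0,m1,n1,m1,n2]) :: r65

noncomputable def l67 : List Con := (false, [n0,n0,n0,n0,n0,n0,n0,n0,n0,n0,n0,n0,n1,m1,n2]) :: l66

noncomputable def r67 : List Con := (true, [n1,n0,n0,n0,n0,n0,n0,n0,n0,n0,n0,n0,m1,n1,m2]) :: l66

noncomputable def l68 : List Con := (false, [n0,n0,n0,n0,n0,n0,n0,n0,n0,n0,n0,n0,m1,n1,m2]) :: r67

noncomputable def r68 : List Con := (true, [n1,n0,n0,n0,n0,n0,n0,n0,n0,n0,n0,n0,n1,m1,n2]) :: r67

noncomputable def l69 : List Con := (false, [n0,n0,n0,n0,n0,n0,n0,n0,n0,n0,n0,m1,n1,m1,n2]) :: r66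

noncomputable def r69 : List Con := (true, [n1,n0,n0,n0,n0,n0,n0,n0,n0,n0,n0,n1,m1,n1,m2]) :: r66

noncomputable def l70 : List Con := (true, [n1,n0,n3,n3,m2,n0,n0,n0,n0,m1,m1]) :: r64

noncomputable def r70 : List Con := (true, [n0,n0,m3,m3,n2,n0,n0,n0,n0,n1,n1]) :: r64

noncomputable def l71 : List Con := (true, [n0,n0,n4,n0,m2,m3,n0,n0,n1]) :: l70

noncomputable def r71 : List Con := (true, [n1,n0,m4,n0,n2,n3,n0,n0,m1]) :: l70

noncomputable def l72 : List Con := (false, [n0,n0,n0,n0,n0,n0,n0,n0,n0,n0,n0,m1,n1,m1,n2]) :: r71

noncomputable def r72 : List Con := (true, [n1,n0,n0,n0,n0,n0,n0,n0,n0,n0,n0,n1,m1,n1,m2]) :: r71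

noncomputable def l73 : List Con := (false, [n0,n0,n0,n0,n0,n0,n0,n0,n0,n0,n0,n0,m1,n1,m2]) :: r72

noncomputable def r73 : List Con := (true, [n1,n0,n0,n0,n0,n0,n0,n0,n0,n0,n0,n0,n1,m1,n2]) :: r72

noncomputable def l74 : List Con := (false, [n0,n0,n0,n0,n0,n0,n0,n0,n0,n0,n0,n0,n1,m1,n2]) :: r73

noncomputable def r74 : List Con := (true, [n1,n0,n0,n0,n0,n0,n0,n0,n0,n0,n0,n0,m1,n1,m2]) :: r73

noncomputable def l75 : List Con := (false, [n0,n0,n0,n0,n0,n0,n0,n0,n0,n0,n0,n1,m1,n1,m2]) :: l74

noncomputable def r75 : List Con := (true, [n1,n0,n0,n0,n0,n0,n0,n0,n0,n0,n0,m1,n1,m1,n2]) :: l74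

noncomputable def l76 : List Con := (false, [n0,n0,n0,n0,n0,n0,n0,n0,n0,n0,n0,m1,n1,m1,n2]) :: r70

noncomputable def r76 : List Con := (true, [n1,n0,n0,n0,n0,n0,n0,n0,n0,n0,n0,n1,m1,n1,m2]) :: r70

noncomputable def l77 : List Con := (false, [n0,n0,n0,n0,n0,n0,n0,n0,n0,n0,n0,n0,n1,m1,n2]) :: r76

noncomputable def r77 : List Con := (true, [n1,n0,n0,n0,n0,n0,n0,n0,n0,n0,n0,n0,m1,n1,m2]) :: r76

noncomputable def l78 : List Con := (false, [n0,n0,n0,n0,n0,n0,n0,n0,n0,n0,n0,n1,m1,n1,m2]) :: l77

noncomputable def r78 : List Con := (true, [n1,n0,n0,n0,n0,n0,n0,n0,n0,n0,n0,m1,n1,m1,n2]) :: l77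

noncomputable def l79 : List Con := (false, [n0,n0,n0,n0,n0,n0,n0,n0,n0,n0,n0,m1,n1,m1,n2]) :: r63

noncomputable def r79 : List Con := (true, [n1,n0,n0,n0,n0,n0,n0,n0,n0,n0,n0,n1,m1,n1,m2]) :: r63

noncomputable def l80 : List Con := (true, [n1,n0,n1,n1,n0,n0,n0,n2,n0,n2]) :: r79

noncomputable def r80 : List Con := (true, [n0,n0,m1,m1,n0,n0,n0,m2,n0,m2]) :: r79

noncomputable def l81 : List Con := (false, [n0,n0,n0,n0,n0,n0,n0,n0,n0,n0,n0,n0,m1,n1,m2]) :: r80

noncomputable def r81 : List Con := (true, [n1,n0,n0,n0,n0,n0,n0,n0,n0,n0,n0,n0,n1,m1,n2]) :: r80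

noncomputable def l82 : List Con := (true, [n1,n0,m3,m3,n2,n0,n0,n0,n0,n1,n1]) :: r53

noncomputable def r82 : List Con := (true, [n0,n0,n3,n3,m2,n0,n0,n0,n0,m1,m1]) :: r53

noncomputable def l83 : List Con := (true, [n1,n0,n3,n3,m2,n0,n0,n0,n0,m1,m1]) :: l82

noncomputable def r83 : List Con := (true, [n0,n0,m3,m3,n2,n0,n0,n0,n0,n1,n1]) :: l82

noncomputable def l84 : List Con := (false, [n0,n0,n0,n0,n0,n0,n0,n0,n0,n0,n0,m1,n1,m1,n2]) :: r83

noncomputable def r84 : List Con := (true, [n1,n0,n0,n0,n0,n0,n0,n0,n0,n0,n0,n1,m1,n1,m2]) :: r83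

noncomputable def l85 : List Con := (false, [n0,n0,n0,n0,n0,n0,n0,n0,n0,n0,n0,n0,n1,m1,n2]) :: r84

noncomputable def r85 : List Con := (true, [n1,n0,n0,n0,n0,n0,n0,n0,n0,n0,n0,n0,m1,n1,m2]) :: r84

noncomputable def l86 : List Con := (false, [n0,n0,n0,n0,n0,n0,n0,n0,n0,n0,n0,m1,n1,m1,n2]) :: r82

noncomputable def r86 : List Con := (true, [n1,n0,n0,n0,n0,n0,n0,n0,n0,n0,n0,n1,m1,n1,m2]) :: r82

noncomputable def l87 : List Con := (true, [n1,n0,m1,m1,n0,n0,n0,n1,n0,m1,m1]) :: r22

noncomputable def r87 : List Con := (true, [n0,n0,n1,n1,n0,n0,n0,m1,n0,n1,n1]) :: r22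

noncomputable def l88 : List Con := (true, [n1,n0,n1,n1,n0,n0,n0,m1,n0,n1,n1]) :: l87

noncomputable def r88 : List Con := (true, [n0,n0,m1,m1,n0,n0,n0,n1,n0,m1,m1]) :: l87

noncomputable def l89 : List Con := (true, [n0,n0,n0,n0,n0,m1,n1,n0,m1]) :: l88

noncomputable def r89 : List Con := (true, [n1,n0,n0,n0,n0,n1,m1,n0,n1]) :: l88

noncomputable def l90 : List Con := (false, [n0,n0,n0,n0,n0,n0,n0,n0,n0,n0,n0,m1,n1,m1,n2]) :: r89

noncomputable def r90 : List Con := (true, [n1,n0,n0,n0,n0,n0,n0,n0,n0,n0,n0,n1,m1,n1,m2]) :: r89

noncomputable def l91 : List Con := (false, [n0,n0,n0,n0,n0,n0,n0,n0,n0,n0,n0,n0,n1,m1,n2]) :: r90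

noncomputable def r91 : List Con := (true, [n1,n0,n0,n0,n0,n0,n0,n0,n0,n0,n0,n0,m1,n1,m2]) :: r90

noncomputable def l92 : List Con := (false, [n0,n0,n0,n0,n0,n0,n0,n0,n0,n0,n0,n1,m1,n1,m2]) :: r88

noncomputable def r92 : List Con := (true, [n1,n0,n0,n0,n0,n0,n0,n0,n0,n0,n0,m1,n1,m1,n2]) :: r88

noncomputable def l93 : List Con := (false, [n0,n0,n0,n0,n0,n0,n0,n0,n0,n0,n0,n0,n1,m1,n2]) :: l92

noncomputable def r93 : List Con := (true, [n1,n0,n0,n0,n0,n0,n0,n0,n0,n0,n0,n0,m1,n1,m2]) :: l92

noncomputable def l94 : List Con := (false, [n0,n0,n0,n0,n0,n0,n0,n0,n0,n0,n0,m1,n1,m1,n2]) :: r92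

noncomputable def r94 : List Con := (true, [n1,n0,n0,n0,n0,n0,n0,n0,n0,n0,n0,n1,m1,n1,m2]) :: r92

noncomputable def l95 : List Con := (true, [n1,n0,n2,n2,m2,n0,n0,n0,n0,m1,m2]) :: r87

noncomputable def r95 : List Con := (true, [n0,n0,m2,m2,n2,n0,n0,n0,n0,n1,n2]) :: r87

noncomputable def l96 : List Con := (true, [n1,n0,n3,n3,n2,n0,n0,n0,n0,n0,n7]) :: l95

noncomputable def r96 : List Con := (true, [n0,n0,m3,m3,m2,n0,n0,n0,n0,n0,m7]) :: l95

noncomputable def l97 : List Con := (true, [n1,n0,m3,m3,m2,n0,n0,n0,n0,n0,m7]) :: l96

noncomputable def r97 : List Con := (true, [n0,n0,n3,n3,n2,n0,n0,n0,n0,n0,n7]) :: l96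

noncomputable def l98 : List Con := (true, [n0,n0,m4,n0,n2,m3]) :: l97

noncomputable def r98 : List Con := (true, [n1,n0,n4,n0,m2,n3]) :: l97

noncomputable def l99 : List Con := (true, [n0,n0,n4,n0,m2,n3]) :: r98

noncomputable def r99 : List Con := (true, [n1,n0,m4,n0,n2,m3]) :: r98

noncomputable def l100 : List Con := (true, [n0,n0,n4,n0,m2,m2,n0,n0,n1]) :: r99

noncomputable def r100 : List Con := (true, [n1,n0,m4,n0,n2,n2,n0,n0,m1]) :: r99

noncomputable def l101 : List Con := (true, [n1,n0,m2,m2,n2,n0,n0,n0,n0,n1,n2]) :: l100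

noncomputable def r101 : List Con := (true, [n0,n0,n2,n2,m2,n0,n0,n0,n0,m1,m2]) :: l100

noncomputable def l102 : List Con := (false, [n0,n0,n0,n0,n0,n0,n0,n0,n0,n0,n0,m1,n1,m1,n2]) :: r101

noncomputable def r102 : List Con := (true, [n1,n0,n0,n0,n0,n0,n0,n0,n0,n0,n0,n1,m1,n1,m2]) :: r101

noncomputable def l103 : List Con := (false, [n0,n0,n0,n0,n0,n0,n0,n0,n0,n0,n0,m1,n1,m1,n2]) :: r100

noncomputable def r103 : List Con := (true, [n1,n0,n0,n0,n0,n0,n0,n0,n0,n0,n0,n1,m1,n1,m2]) :: r100

noncomputable def l104 : List Con := (false, [n0,n0,n0,n0,n0,n0,n0,n0,n0,n0,n0,n0,m1,n1,m2]) :: r103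

noncomputable def r104 : List Con := (true, [n1,n0,n0,n0,n0,n0,n0,n0,n0,n0,n0,n0,n1,m1,n2]) :: r103

noncomputable def l105 : List Con := (true, [n0,n0,n4,n0,m2,m2,n0,n0,n1]) :: r97

noncomputable def r105 : List Con := (true, [n1,n0,m4,n0,n2,n2,n0,n0,m1]) :: r97

noncomputable def l106 : List Con := (true, [n1,n0,m2,m2,n2,n0,n0,n0,n0,n1,n2]) :: l105

noncomputable def r106 : List Con := (true, [n0,n0,n2,n2,m2,n0,n0,n0,n0,m1,m2]) :: l105

noncomputable def l107 : List Con := (false, [n0,n0,n0,n0,n0,n0,n0,n0,n0,n0,n0,m1,n1,m1,n2]) :: r106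

noncomputable def r107 : List Con := (true, [n1,n0,n0,n0,n0,n0,n0,n0,n0,n0,n0,n1,m1,n1,m2]) :: r106

noncomputable def l108 : List Con := (false, [n0,n0,n0,n0,n0,n0,n0,n0,n0,n0,n0,n0,n1,m1,n2]) :: r107

noncomputable def r108 : List Con := (true, [n1,n0,n0,n0,n0,n0,n0,n0,n0,n0,n0,n0,m1,n1,m2]) :: r107

noncomputable def l109 : List Con := (false, [n0,n0,n0,n0,n0,n0,n0,n0,n0,n0,n0,n1,m1,n1,m2]) :: l108

noncomputable def r109 : List Con := (true, [n1,n0,n0,n0,n0,n0,n0,n0,n0,n0,n0,m1,n1,m1,n2]) :: l108

noncomputable def l110 : List Con := (false, [n0,n0,n0,n0,n0,n0,n0,n0,n0,n0,n0,m1,n1,m1,n2]) :: r105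

noncomputable def r110 : List Con := (true, [n1,n0,n0,n0,n0,n0,n0,n0,n0,n0,n0,n1,m1,n1,m2]) :: r105

noncomputable def l111 : List Con := (true, [n1,n0,m2,m2,n2,n0,n0,n0,n0,n1,n2]) :: r96

noncomputable def r111 : List Con := (true, [n0,n0,n2,n2,m2,n0,n0,n0,n0,m1,m2]) :: r96

noncomputable def l112 : List Con := (true, [n0,n0,n4,n0,m2,m2,n0,n0,n1]) :: l111

noncomputable def r112 : List Con := (true, [n1,n0,m4,n0,n2,n2,n0,n0,m1]) :: l111

noncomputable def l113 : List Con := (false, [n0,n0,n0,n0,n0,n0,n0,n0,n0,n0,n0,m1,n1,m1,n2]) :: r112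

noncomputable def r113 : List Con := (true, [n1,n0,n0,n0,n0,n0,n0,n0,n0,n0,n0,n1,m1,n1,m2]) :: r112

noncomputable def l114 : List Con := (false, [n0,n0,n0,n0,n0,n0,n0,n0,n0,n0,n0,n1,m1,n1,m2]) :: r111

noncomputable def r114 : List Con := (true, [n1,n0,n0,n0,n0,n0,n0,n0,n0,n0,n0,m1,n1,m1,n2]) :: r111

noncomputable def l115 : List Con := (false, [n0,n0,n0,n0,n0,n0,n0,n0,n0,n0,n0,n0,m1,n1,m2]) :: l114

noncomputable def r115 : List Con := (true, [n1,n0,n0,n0,n0,n0,n0,n0,n0,n0,n0,n0,n1,m1,n2]) :: l114

noncomputable def l116 : List Con := (false, [n0,n0,n0,n0,n0,n0,n0,n0,n0,n0,n0,n0,n1,m1,n2]) :: r115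

noncomputable def r116 : List Con := (true, [n1,n0,n0,n0,n0,n0,n0,n0,n0,n0,n0,n0,m1,n1,m2]) :: r115

noncomputable def l117 : List Con := (false, [n0,n0,n0,n0,n0,n0,n0,n0,n0,n0,n0,n0,n1,m1,n2]) :: r95

noncomputable def r117 : List Con := (true, [n1,n0,n0,n0,n0,n0,n0,n0,n0,n0,n0,n0,m1,n1,m2]) :: r95

noncomputable def l118 : List Con := (false, [n0,n0,n0,n0,n0,n0,n0,n0,n0,n0,n0,n1,m1,n1,m2]) :: l117

noncomputable def r118 : List Con := (true, [n1,n0,n0,n0,n0,n0,n0,n0,n0,n0,n0,m1,n1,m1,n2]) :: l117

noncomputable def l119 : List Con := (false, [n0,n0,n0,n0,n0,n0,n0,n0,n0,n0,n0,m1,n1,m1,n2]) :: r118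

noncomputable def r119 : List Con := (true, [n1,n0,n0,n0,n0,n0,n0,n0,n0,n0,n0,n1,m1,n1,m2]) :: r118

noncomputable def l120 : List Con := (false, [n0,n0,n0,n0,n0,n0,n0,n0,n0,n0,n0,n2,m1,n1,m2]) :: l119

noncomputable def r120 : List Con := (true, [n1,n0,n0,n0,n0,n0,n0,n0,n0,n0,n0,m2,n1,m1,n2]) :: l119

noncomputable def l121 : List Con := (true, [n1,n0,n2,n2,m2,n0,n0,n0,n0,m1,m2]) :: r1

noncomputable def r121 : List Con := (true, [n0,n0,m2,m2,n2,n0,n0,n0,n0,n1,n2]) :: r1

noncomputable def l122 : List Con := (true, [n1,n0,m3,m3,n1,n0,n0,n1,n0,n0,m1]) :: l121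

noncomputable def r122 : List Con := (true, [n0,n0,n3,n3,m1,n0,n0,m1,n0,n0,n1]) :: l121

noncomputable def l123 : List Con := (true, [n1,n0,n3,n3,m1,n0,n0,m1,n0,n0,n1]) :: l122

noncomputable def r123 : List Con := (true, [n0,n0,m3,m3,n1,n0,n0,n1,n0,n0,m1]) :: l122

noncomputable def l124 : List Con := (true, [n1,n0,n1,n1,n3,n0,n0,n0,n0,n0,n7]) :: r123

noncomputable def r124 : List Con := (true, [n0,n0,m1,m1,m3,n0,n0,n0,n0,n0,m7]) :: r123

noncomputable def l125 : List Con := (true, [n1,n0,m1,m1,m3,n0,n0,n0,n0,n0,m7]) :: l124

noncomputable def r125 : List Con := (true, [n0,n0,n1,n1,n3,n0,n0,n0,n0,n0,n7]) :: l124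

noncomputable def l126 : List Con := (true, [n1,n0,m2,m2,n2,n0,n0,n0,n0,n1,n2]) :: r125

noncomputable def r126 : List Con := (true, [n0,n0,n2,n2,m2,n0,n0,n0,n0,m1,m2]) :: r125

noncomputable def l127 : List Con := (true, [n0,n0,n4,n0,m2,m2,n0,n0,n1]) :: l126

noncomputable def r127 : List Con := (true, [n1,n0,m4,n0,n2,n2,n0,n0,m1]) :: l126

noncomputable def l128 : List Con := (false, [n0,n0,n0,n0,n0,n0,n0,n0,n0,n0,n0,n1,m1,n1,m2]) :: r127

noncomputable def r128 : List Con := (true, [n1,n0,n0,n0,n0,n0,n0,n0,n0,n0,n0,m1,n1,m1,n2]) :: r127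

noncomputable def l129 : List Con := (false, [n0,n0,n0,n0,n0,n0,n0,n0,n0,n0,n0,n0,n1,m1,n2]) :: l128

noncomputable def r129 : List Con := (true, [n1,n0,n0,n0,n0,n0,n0,n0,n0,n0,n0,n0,m1,n1,m2]) :: l128

noncomputable def l130 : List Con := (false, [n0,n0,n0,n0,n0,n0,n0,n0,n0,n0,n0,n1,m1,n1,m2]) :: r126

noncomputable def r130 : List Con := (true, [n1,n0,n0,n0,n0,n0,n0,n0,n0,n0,n0,m1,n1,m1,n2]) :: r126

noncomputable def l131 : List Con := (false, [n0,n0,n0,n0,n0,n0,n0,n0,n0,n0,n0,n0,n1,m1,n2]) :: l130

noncomputable def r131 : List Con := (true, [n1,n0,n0,n0,n0,n0,n0,n0,n0,n0,n0,n0,m1,n1,m2]) :: l130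

noncomputable def l132 : List Con := (true, [n0,n0,n4,n0,m2,m2,n0,n0,n1]) :: r124

noncomputable def r132 : List Con := (true, [n1,n0,m4,n0,n2,n2,n0,n0,m1]) :: r124

noncomputable def l133 : List Con := (true, [n1,n0,m2,m2,n2,n0,n0,n0,n0,n1,n2]) :: l132

noncomputable def r133 : List Con := (true, [n0,n0,n2,n2,m2,n0,n0,n0,n0,m1,m2]) :: l132

noncomputable def l134 : List Con := (false, [n0,n0,n0,n0,n0,n0,n0,n0,n0,n0,n0,n1,m1,n1,m2]) :: r133

noncomputable def r134 : List Con := (true, [n1,n0,n0,n0,n0,n0,n0,n0,n0,n0,n0,m1,n1,m1,n2]) :: r133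

noncomputable def l135 : List Con := (false, [n0,n0,n0,n0,n0,n0,n0,n0,n0,n0,n0,n0,n1,m1,n2]) :: l134

noncomputable def r135 : List Con := (true, [n1,n0,n0,n0,n0,n0,n0,n0,n0,n0,n0,n0,m1,n1,m2]) :: l134

noncomputable def l136 : List Con := (false, [n0,n0,n0,n0,n0,n0,n0,n0,n0,n0,n0,n1,m1,n1,m2]) :: r132

noncomputable def r136 : List Con := (true, [n1,n0,n0,n0,n0,n0,n0,n0,n0,n0,n0,m1,n1,m1,n2]) :: r132

noncomputable def l137 : List Con := (false, [n0,n0,n0,n0,n0,n0,n0,n0,n0,n0,n0,n0,n1,m1,n2]) :: l136

noncomputable def r137 : List Con := (true, [n1,n0,n0,n0,n0,n0,n0,n0,n0,n0,n0,n0,m1,n1,m2]) :: l136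

noncomputable def l138 : List Con := (true, [n0,n0,n4,n0,m2,m2,n0,n0,n1]) :: r122

noncomputable def r138 : List Con := (true, [n1,n0,m4,n0,n2,n2,n0,n0,m1]) :: r122

noncomputable def l139 : List Con := (true, [n1,n0,m2,m2,n2,n0,n0,n0,n0,n1,n2]) :: l138

noncomputable def r139 : List Con := (true, [n0,n0,n2,n2,m2,n0,n0,n0,n0,m1,m2]) :: l138

noncomputable def l140 : List Con := (true, [n1,n0,n1,n1,n2,n0,n0,n0,n0,n0,n5]) :: r139

noncomputable def r140 : List Con := (true, [n0,n0,m1,m1,m2,n0,n0,n0,n0,n0,m5]) :: r139

noncomputable def l141 : List Con := (true, [n1,n0,m1,m1,m2,n0,n0,n0,n0,n0,m5]) :: l140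

noncomputable def r141 : List Con := (true, [n0,n0,n1,n1,n2,n0,n0,n0,n0,n0,n5]) :: l140

noncomputable def l142 : List Con := (false, [n0,n0,n0,n0,n0,n0,n0,n0,n0,n0,n0,n1,m1,n1,m2]) :: r141

noncomputable def r142 : List Con := (true, [n1,n0,n0,n0,n0,n0,n0,n0,n0,n0,n0,m1,n1,m1,n2]) :: r141

noncomputable def l143 : List Con := (true, [n1,n0,m1,m1,n0,n0,n0,m2,n0,m2]) :: l142

noncomputable def r143 : List Con := (true, [n0,n0,n1,n1,n0,n0,n0,n2,n0,n2]) :: l142

noncomputable def l144 : List Con := (true, [n1,n0,n1,n1,n0,n0,n0,n2,n0,n2]) :: l143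

noncomputable def r144 : List Con := (true, [n0,n0,m1,m1,n0,n0,n0,m2,n0,m2]) :: l143

noncomputable def l145 : List Con := (false, [n0,n0,n0,n0,n0,n0,n0,n0,n0,n0,n0,n0,n1,m1,n2]) :: r144

noncomputable def r145 : List Con := (true, [n1,n0,n0,n0,n0,n0,n0,n0,n0,n0,n0,n0,m1,n1,m2]) :: r144

noncomputable def l146 : List Con := (false, [n0,n0,n0,n0,n0,n0,n0,n0,n0,n0,n0,n0,n1,m1,n2]) :: r143

noncomputable def r146 : List Con := (true, [n1,n0,n0,n0,n0,n0,n0,n0,n0,n0,n0,n0,m1,n1,m2]) :: r143

noncomputable def l147 : List Con := (false, [n0,n0,n0,n0,n0,n0,n0,n0,n0,n0,n0,n0,m1,n1,m2]) :: r146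

noncomputable def r147 : List Con := (true, [n1,n0,n0,n0,n0,n0,n0,n0,n0,n0,n0,n0,n1,m1,n2]) :: r146

noncomputable def l148 : List Con := (false, [n0,n0,n0,n0,n0,n0,n0,n0,n0,n0,n0,m1,n1,m1,n2]) :: r140

noncomputable def r148 : List Con := (true, [n1,n0,n0,n0,n0,n0,n0,n0,n0,n0,n0,n1,m1,n1,m2]) :: r140

noncomputable def l149 : List Con := (false, [n0,n0,n0,n0,n0,n0,n0,n0,n0,n0,n0,n0,n1,m1,n2]) :: r148

noncomputable def r149 : List Con := (true, [n1,n0,n0,n0,n0,n0,n0,n0,n0,n0,n0,n0,m1,n1,m2]) :: r148

noncomputable def l150 : List Con := (false, [n0,n0,n0,n0,n0,n0,n0,n0,n0,n0,n0,n1,m1,n1,m2]) :: r138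

noncomputable def r150 : List Con := (true, [n1,n0,n0,n0,n0,n0,n0,n0,n0,n0,n0,m1,n1,m1,n2]) :: r138

noncomputable def l151 : List Con := (false, [n0,n0,n0,n0,n0,n0,n0,n0,n0,n0,n0,n0,m1,n1,m2]) :: l150

noncomputable def r151 : List Con := (true, [n1,n0,n0,n0,n0,n0,n0,n0,n0,n0,n0,n0,n1,m1,n2]) :: l150

noncomputable def l152 : List Con := (false, [n0,n0,n0,n0,n0,n0,n0,n0,n0,n0,n0,n0,n1,m1,n2]) :: r151

noncomputable def r152 : List Con := (true, [n1,n0,n0,n0,n0,n0,n0,n0,n0,n0,n0,n0,m1,n1,m2]) :: r151

noncomputable def l153 : List Con := (false, [n0,n0,n0,n0,n0,n0,n0,n0,n0,n0,n0,m1,n1,m1,n2]) :: r150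

noncomputable def r153 : List Con := (true, [n1,n0,n0,n0,n0,n0,n0,n0,n0,n0,n0,n1,m1,n1,m2]) :: r150

noncomputable def l154 : List Con := (true, [n1,n0,m1,m1,n0,n0,n0,n1,n0,m1,m1]) :: r121

noncomputable def r154 : List Con := (true, [n0,n0,n1,n1,n0,n0,n0,m1,n0,n1,n1]) :: r121

noncomputable def l155 : List Con := (true, [n1,n0,n1,n1,n0,n0,n0,m1,n0,n1,n1]) :: l154

noncomputable def r155 : List Con := (true, [n0,n0,m1,m1,n0,n0,n0,n1,n0,m1,m1]) :: l154

noncomputable def l156 : List Con := (true, [n0,n0,n0,n0,n0,m1,n1,n0,m1]) :: l155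

noncomputable def r156 : List Con := (true, [n1,n0,n0,n0,n0,n1,m1,n0,n1]) :: l155

noncomputable def l157 : List Con := (false, [n0,n0,n0,n0,n0,n0,n0,n0,n0,n0,n0,n1,m1,n1,m2]) :: r156

noncomputable def r157 : List Con := (true, [n1,n0,n0,n0,n0,n0,n0,n0,n0,n0,n0,m1,n1,m1,n2]) :: r156

noncomputable def l158 : List Con := (false, [n0,n0,n0,n0,n0,n0,n0,n0,n0,n0,n0,n0,n1,m1,n2]) :: l157

noncomputable def r158 : List Con := (true, [n1,n0,n0,n0,n0,n0,n0,n0,n0,n0,n0,n0,m1,n1,m2]) :: l157

noncomputable def l159 : List Con := (true, [n1,n0,n3,n3,m1,n0,n0,m1,n0,n0,n1]) :: r155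

noncomputable def r159 : List Con := (true, [n0,n0,m3,m3,n1,n0,n0,n1,n0,n0,m1]) :: r155

noncomputable def l160 : List Con := (true, [n1,n0,m3,m3,n1,n0,n0,n1,n0,n0,m1]) :: l159

noncomputable def r160 : List Con := (true, [n0,n0,n3,n3,m1,n0,n0,m1,n0,n0,n1]) :: l159

noncomputable def l161 : List Con := (false, [n0,n0,n0,n0,n0,n0,n0,n0,n0,n0,n0,n1,m1,n1,m2]) :: r160

noncomputable def r161 : List Con := (true, [n1,n0,n0,n0,n0,n0,n0,n0,n0,n0,n0,m1,n1,m1,n2]) :: r160

noncomputable def l162 : List Con := (false, [n0,n0,n0,n0,n0,n0,n0,n0,n0,n0,n0,n0,n1,m1,n2]) :: l161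

noncomputable def r162 : List Con := (true, [n1,n0,n0,n0,n0,n0,n0,n0,n0,n0,n0,n0,m1,n1,m2]) :: l161

noncomputable def l163 : List Con := (false, [n0,n0,n0,n0,n0,n0,n0,n0,n0,n0,n0,m1,n1,m1,n2]) :: r161

noncomputable def r163 : List Con := (true, [n1,n0,n0,n0,n0,n0,n0,n0,n0,n0,n0,n1,m1,n1,m2]) :: r161

noncomputable def l164 : List Con := (false, [n0,n0,n0,n0,n0,n0,n0,n0,n0,n0,n0,n2,m1,n1,m2]) :: l163

noncomputable def r164 : List Con := (true, [n1,n0,n0,n0,n0,n0,n0,n0,n0,n0,n0,m2,n1,m1,n2]) :: l163

noncomputable def l165 : List Con := (true, [n1,n0,n1,n1,n2,n0,n0,n0,n0,n0,n5]) :: r159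

noncomputable def r165 : List Con := (true, [n0,n0,m1,m1,m2,n0,n0,n0,n0,n0,m5]) :: r159

noncomputable def l166 : List Con := (true, [n1,n0,m1,m1,m2,n0,n0,n0,n0,n0,m5]) :: l165

noncomputable def r166 : List Con := (true, [n0,n0,n1,n1,n2,n0,n0,n0,n0,n0,n5]) :: l165

noncomputable def l167 : List Con := (false, [n0,n0,n0,n0,n0,n0,n0,n0,n0,n0,n0,m1,n1,m1,n2]) :: r166

noncomputable def r167 : List Con := (true, [n1,n0,n0,n0,n0,n0,n0,n0,n0,n0,n0,n1,m1,n1,m2]) :: r166

noncomputable def l168 : List Con := (false, [n0,n0,n0,n0,n0,n0,n0,n0,n0,n0,n0,n2,m1,n1,m2]) :: l167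

noncomputable def r168 : List Con := (true, [n1,n0,n0,n0,n0,n0,n0,n0,n0,n0,n0,m2,n1,m1,n2]) :: l167

noncomputable def l169 : List Con := (false, [n0,n0,n0,n0,n0,n0,n0,n0,n0,n0,n0,m1,n1,m1,n2]) :: r165

noncomputable def r169 : List Con := (true, [n1,n0,n0,n0,n0,n0,n0,n0,n0,n0,n0,n1,m1,n1,m2]) :: r165

noncomputable def l170 : List Con := (false, [n0,n0,n0,n0,n0,n0,n0,n0,n0,n0,n0,n2,m1,n1,m2]) :: l169

noncomputable def r170 : List Con := (true, [n1,n0,n0,n0,n0,n0,n0,n0,n0,n0,n0,m2,n1,m1,n2]) :: l169

noncomputable def l171 : List Con := (false, [n0,n0,n0,n0,n0,n0,n0,n0,n0,n0,n0,n0,n1,m1,n2]) :: r169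

noncomputable def r171 : List Con := (true, [n1,n0,n0,n0,n0,n0,n0,n0,n0,n0,n0,n0,m1,n1,m2]) :: r169

noncomputable def l172 : List Con := (true, [n1,n0,n1,n1,m1,n0,n0,n1,n0,m2,m1]) :: r154

noncomputable def r172 : List Con := (true, [n0,n0,m1,m1,n1,n0,n0,m1,n0,n2,n1]) :: r154

noncomputable def l173 : List Con := (true, [n1,n0,m1,m1,n1,n0,n0,m1,n0,n2,n1]) :: l172

noncomputable def r173 : List Con := (true, [n0,n0,n1,n1,m1,n0,n0,n1,n0,m2,m1]) :: l172

noncomputable def l174 : List Con := (false, [n0,n0,n0,n0,n0,n0,n0,n0,n0,n0,n0,n1,m1,n1,m2]) :: r173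

noncomputable def r174 : List Con := (true, [n1,n0,n0,n0,n0,n0,n0,n0,n0,n0,n0,m1,n1,m1,n2]) :: r173

noncomputable def l175 : List Con := (false, [n0,n0,n0,n0,n0,n0,n0,n0,n0,n0,n0,n0,n1,m1,n2]) :: l174

noncomputable def r175 : List Con := (true, [n1,n0,n0,n0,n0,n0,n0,n0,n0,n0,n0,n0,m1,n1,m2]) :: l174

noncomputable def l176 : List Con := (false, [n0,n0,n0,n0,n0,n0,n0,n0,n0,n0,n0,m1,n1,m1,n2]) :: r174

noncomputable def r176 : List Con := (true, [n1,n0,n0,n0,n0,n0,n0,n0,n0,n0,n0,n1,m1,n1,m2]) :: r174

noncomputable def l177 : List Con := (false, [n0,n0,n0,n0,n0,n0,n0,n0,n0,n0,n0,n2,m1,n1,m2]) :: l176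

noncomputable def r177 : List Con := (true, [n1,n0,n0,n0,n0,n0,n0,n0,n0,n0,n0,m2,n1,m1,n2]) :: l176

noncomputable def l178 : List Con := (true, [n1,n0,n0,n0,n1,n0,n0,m1,n0,n2,n2]) :: r172

noncomputable def r178 : List Con := (true, [n0,n0,n0,n0,m1,n0,n0,n1,n0,m2,m2]) :: r172

noncomputable def l179 : List Con := (true, [n1,n0,n0,n0,m1,n0,n0,n1,n0,m2,m2]) :: l178

noncomputable def r179 : List Con := (true, [n0,n0,n0,n0,n1,n0,n0,m1,n0,n2,n2]) :: l178

noncomputable def l180 : List Con := (true, [n1,n0,n3,n3,n1,n0,n0,n0,n0,n0,n5]) :: r179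

noncomputable def r180 : List Con := (true, [n0,n0,m3,m3,m1,n0,n0,n0,n0,n0,m5]) :: r179

noncomputable def l181 : List Con := (true, [n1,n0,m3,m3,m1,n0,n0,n0,n0,n0,m5]) :: l180

noncomputable def r181 : List Con := (true, [n0,n0,n3,n3,n1,n0,n0,n0,n0,n0,n5]) :: l180

noncomputable def l182 : List Con := (true, [n0,n0,m2,n0,n1,m3]) :: l181

noncomputable def r182 : List Con := (true, [n1,n0,n2,n0,m1,n3]) :: l181

noncomputable def l183 : List Con := (true, [n0,n0,n2,n0,m1,n3]) :: r182

noncomputable def r183 : List Con := (true, [n1,n0,m2,n0,n1,m3]) :: r182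

noncomputable def l184 : List Con := (false, [n0,n0,n0,n0,n0,n0,n0,n0,n0,n0,n0,n1,m1,n1,m2]) :: r183

noncomputable def r184 : List Con := (true, [n1,n0,n0,n0,n0,n0,n0,n0,n0,n0,n0,m1,n1,m1,n2]) :: r183

noncomputable def l185 : List Con := (false, [n0,n0,n0,n0,n0,n0,n0,n0,n0,n0,n0,n0,n1,m1,n2]) :: l184

noncomputable def r185 : List Con := (true, [n1,n0,n0,n0,n0,n0,n0,n0,n0,n0,n0,n0,m1,n1,m2]) :: l184

noncomputable def l186 : List Con := (false, [n0,n0,n0,n0,n0,n0,n0,n0,n0,n0,n0,m1,n1,m1,n2]) :: r181

noncomputable def r186 : List Con := (true, [n1,n0,n0,n0,n0,n0,n0,n0,n0,n0,n0,n1,m1,n1,m2]) :: r181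

noncomputable def l187 : List Con := (false, [n0,n0,n0,n0,n0,n0,n0,n0,n0,n0,n0,n2,m1,n1,m2]) :: l186

noncomputable def r187 : List Con := (true, [n1,n0,n0,n0,n0,n0,n0,n0,n0,n0,n0,m2,n1,m1,n2]) :: l186

noncomputable def l188 : List Con := (false, [n0,n0,n0,n0,n0,n0,n0,n0,n0,n0,n0,n0,n1,m1,n2]) :: r186

noncomputable def r188 : List Con := (true, [n1,n0,n0,n0,n0,n0,n0,n0,n0,n0,n0,n0,m1,n1,m2]) :: r186

noncomputable def l189 : List Con := (false, [n0,n0,n0,n0,n0,n0,n0,n0,n0,n0,n0,n1,m1,n1,m2]) :: l188

noncomputable def r189 : List Con := (true, [n1,n0,n0,n0,n0,n0,n0,n0,n0,n0,n0,m1,n1,m1,n2]) :: l188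

noncomputable def l190 : List Con := (false, [n0,n0,n0,n0,n0,n0,n0,n0,n0,n0,n0,m1,n1,m1,n2]) :: r180

noncomputable def r190 : List Con := (true, [n1,n0,n0,n0,n0,n0,n0,n0,n0,n0,n0,n1,m1,n1,m2]) :: r180

noncomputable def l191 : List Con := (false, [n0,n0,n0,n0,n0,n0,n0,n0,n0,n0,n0,n2,m1,n1,m2]) :: l190

noncomputable def r191 : List Con := (true, [n1,n0,n0,n0,n0,n0,n0,n0,n0,n0,n0,m2,n1,m1,n2]) :: l190

noncomputable def l192 : List Con := (false, [n0,n0,n0,n0,n0,n0,n0,n0,n0,n0,n0,n1,m1,n1,m2]) :: r178

noncomputable def r192 : List Con := (true, [n1,n0,n0,n0,n0,n0,n0,n0,n0,n0,n0,m1,n1,m1,n2]) :: r178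

noncomputable def l193 : List Con := (false, [n0,n0,n0,n0,n0,n0,n0,n0,n0,n0,n0,n0,n1,m1,n2]) :: l192

noncomputable def r193 : List Con := (true, [n1,n0,n0,n0,n0,n0,n0,n0,n0,n0,n0,n0,m1,n1,m2]) :: l192

noncomputable def l194 : List Con := (false, [n0,n0,n0,n0,n0,n0,n0,n0,n0,n0,n0,m1,n1,m1,n2]) :: r192

noncomputable def r194 : List Con := (true, [n1,n0,n0,n0,n0,n0,n0,n0,n0,n0,n0,n1,m1,n1,m2]) :: r192

noncomputable def l195 : List Con := (false, [n0,n0,n0,n0,n0,n0,n0,n0,n0,n0,n0,n2,m1,n1,m2]) :: l194

noncomputable def r195 : List Con := (true, [n1,n0,n0,n0,n0,n0,n0,n0,n0,n0,n0,m2,n1,m1,n2]) :: l194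

noncomputable def t0 : Tre :=
  (.N [0,0,1,-1,2] (-1) ⟨0,[(15,0)]⟩ ⟨0,[(3,0)]⟩ (.x 1 ⟨0,[(0,0)]⟩ ⟨7,[(1,2),(8,2),(0,10),(1,0),(5,
  1),(3,7),(4,3),(10,3)]⟩))

theorem ok0 : chk K t0 l0 = true := by decide +kernel

noncomputable def t1 : Tre :=
  (.N [0,-3,0,1,-1] (-1) ⟨0,[(1,0)]⟩ ⟨0,[(2,0)]⟩ (.x 1 ⟨0,[(0,0)]⟩ ⟨3,[(4,0),(8,0),(0,6),(1,0),(5,
  1),(3,11),(12,3),(2,3)]⟩))

theorem ok1 : chk K t1 l3 = true := by decide +kernel

noncomputable def t2 : Tre :=
  (.N [0,1,1,-2,-1] 1 ⟨0,[(0,0)]⟩ ⟨0,[(1,0)]⟩ (.x (-2) ⟨19,[(2,15),(3,8),(8,8),(0,2),(1,0),(5,1),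
  (17,23),(0,3)]⟩ ⟨0,[(28,0),(4,0)]⟩))

theorem ok2 : chk K t2 l5 = true := by decide +kernel

noncomputable def t3 : Tre :=
  (.N [0,0,1,-2,-2] 1 ⟨0,[(1,0)]⟩ ⟨0,[(0,0)]⟩ (.x (-2) ⟨9,[(4,5),(3,3),(8,3),(0,2),(1,0),(5,1),(17,
  13),(0,3)]⟩ ⟨0,[(30,1),(4,0)]⟩))

theorem ok3 : chk K t3 l7 = true := by decide +kernel

noncomputable def t4 : Tre :=
  (.N [0,0,1,-1,2] (-1) ⟨0,[(24,0)]⟩ ⟨0,[(12,0)]⟩ (.i 0 ⟨0,[(0,0)]⟩ ⟨0,[(1,0)]⟩))

theorem ok4 : chk K t4 l9 = true := by decide +kernel

open Helper55.PC in
noncomputable def t5n : Helper55.PC.Ten :=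
  (s
  75726318777349069105606525182909806259932577052500296169420299818657792665082736378208500042277879921422858353276047985064840624540790397181277012380003849224617870268741969714133180344384259082437000415458030168058353995700795869439289551677006660060496076759043845096588642092724745005467179594093849934761865910110232642551648692917840244874293471212354702676985669191546650231540633638910626856099598440619249474512698863937896427871933914216002399240918276114213417924576826833787089537104736403525810145325121707014771299562039317923238734482618686164497305551358780319562935407099220668337563675106448191553423556963726377236928336338671870494378170082772664866099281133568641)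

noncomputable def t5 : Tre := Helper55.PC.toT t5n

theorem ok5 : chk K t5 r9 = true :=
  Helper55.PC.chkN_sound K t5n r9 (by decide +kernel)

open Helper55.PC in
noncomputable def t6n : Helper55.PC.Ten :=
  (s
  75726318777349069105606525182909806259932577052500296169420297700730481789407804371225354901592290545531584497952273191304153760616000432713465554320539606828165502284245508933063048283723294537676383875249697316726120054765076881401403053685911408243426527920639680712769007087082917545170184115944045576726952480632630980405330991279202808209051844190790112587657279804774311153236235118949266168821823290610716816447750729889178376380214701501836318855550504075853127066431022732102162045468249918607611324331136021933554497116425658914015940139824660135482036669405765228995478184448236437424171187728939979678442264507490420263892452917131408685844392754374062495959143142130305)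

noncomputable def t6 : Tre := Helper55.PC.toT t6n

theorem ok6 : chk K t6 r8 = true :=
  Helper55.PC.chkN_sound K t6n r8 (by decide +kernel)

noncomputable def t7 : Tre :=
  (.N [0,0,1,-1,2] (-1) ⟨0,[(23,0)]⟩ ⟨0,[(11,0)]⟩ (.i 0 ⟨0,[(0,0)]⟩ ⟨0,[(1,0)]⟩))

theorem ok7 : chk K t7 l11 = true := by decide +kernel

open Helper55.PC in
noncomputable def t8n : Helper55.PC.Ten :=
  (s
  1106459448847496759999700601119747158671785354711838633358388897776922991590080131464909373164620587259451065468940770381517530196102527499397767597679607469909159149054166495955446880159532491667130437958280444332901320101458576705690049264702243410221845646124437958186723757754331106627403101634363610142349380833065226721705991433696219284941722862401859228711561095286928206413459993192269602844228938493800597829650921917639579107731706857639721723071911309254506265558921736456504424284823710091733189824659767031918939446530210333595088438309016313276317895881650394605771412024718838032305268157588975810629556417492230573174817409)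

noncomputable def t8 : Tre := Helper55.PC.toT t8n

theorem ok8 : chk K t8 r11 = true :=
  Helper55.PC.chkN_sound K t8n r11 (by decide +kernel)

open Helper55.PC in
noncomputable def t9n : Helper55.PC.Ten :=
  (s
  1106459448847496759999700601119747158671785354711838633358388802805777766576553004018576683244328519048199719354411239820956001884548165228036849198802608356739104576190922780514178274640683477676003497088805136391633872957591404678114170950349543243804110902974939090360577161597979424131483529139143913007233630623965116838690262913105264308897067440796660903855513054420238606739397663993474204813468650799575963253123962296455199263333765080492760163419220291402384808069506372557484634462767280559765204926894465509177998568808427327639608227438833745872261860152550286383896067925759416451896036144657469693599107087539199994670088833)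

noncomputable def t9 : Tre := Helper55.PC.toT t9n

theorem ok9 : chk K t9 r10 = true :=
  Helper55.PC.chkN_sound K t9n r10 (by decide +kernel)

noncomputable def t10 : Tre :=
  (.N [0,1,0,0,5] (-2) ⟨0,[(0,0)]⟩ ⟨0,[(1,0)]⟩ (.x 1 ⟨88,[(0,5),(6,14),(10,117),(10,88),(0,115),(0,
  1),(1,1)]⟩ ⟨0,[(6,0),(10,0),(25,0)]⟩))

theorem ok10 : chk K t10 l13 = true := by decide +kernel

noncomputable def t11 : Tre :=
  (.N [0,1,0,0,7] (-3) ⟨0,[(0,0)]⟩ ⟨0,[(1,0)]⟩ (.x 2 ⟨0,[(20,1),(10,0),(0,1)]⟩ ⟨0,[(8,0),(10,1),(25,
  0)]⟩))

theorem ok11 : chk K t11 l15 = true := by decide +kernel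

noncomputable def t12 : Tre :=
  (.N [0,0,1,-1,2] (-1) ⟨0,[(24,0)]⟩ ⟨0,[(12,0)]⟩ (.i (-1) ⟨0,[(0,0)]⟩ ⟨6,[(1,0),(6,4),(0,6),(1,12),
  (1,4),(1,6),(8,0),(9,1),(3,7),(10,13)]⟩))

theorem ok12 : chk K t12 l16 = true := by decide +kernel

open Helper55.PC in
noncomputable def t13n : Helper55.PC.Ten :=
  (s
  4962800025678611517198251622050368623021962975777077681771375682568951791472812227405577776063597821282253284425337836009925327827718381678457477697494068398083507770228166016767523659652744367939287723878040751386428706885975297448473503797309480511315983135499080996956113403092975243575775341974024214280845565409237111025728754965458917559892674748888561172101278518938551333620852952476177297633873100437173248427089731606493598467467977969856194409601814916128320521653465137297945336352173492421901755447175094978714539882399572981473794741352425160259958478824607056748398049717631333441332301124807128854282286887316320423654485247025486333966434245325482228540264582159394669185)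

noncomputable def t13 : Tre := Helper55.PC.toT t13n

theorem ok13 : chk K t13 r16 = true :=
  Helper55.PC.chkN_sound K t13n r16 (by decide +kernel)

noncomputable def t14 : Tre :=
  (.N [0,0,1,-1,2] (-1) ⟨0,[(24,0)]⟩ ⟨0,[(12,0)]⟩ (.i 0 ⟨0,[(0,0)]⟩ ⟨0,[(1,0)]⟩))

theorem ok14 : chk K t14 l18 = true := by decide +kernel

open Helper81.PXd in
noncomputable def t15n : Helper81.PXd.Ten :=
  (s
  11936927665315687377065947867560962917777485597537945676110986563134893004158775743519798835726841055733427127472880777445391961397563071049668141559798152731669497757566976048604442715338529152296079669549242744189801615981796565390367971174209789845580243181372166113138260306189359656815666275739263919324047355146756500835788034993145556377750053809930154049566005417135684708408761766464146396042148510822781740323679753435133022000304738507524016096820645287126848027947406555692156928681064634125571560281647159969839720851022620159077103042858947356991551267945083657188428809089712491342977787752248566330240088221838727039968977427153881748293390919222723366945735307647292783130897174737760126538077879029653571112962251298867118495386680031381557219567589468059160556456425489785154216875604161704925043145052688850582454300697806522912668670510467036705116983404884922676144315342311687387251659997559664818520705)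

noncomputable def t15 : Tre := Helper81.PXd.toT t15n

theorem ok15 : chk K t15 r18 = true :=
  Helper81.PXd.chkN_sound K t15n r18 (by decide +kernel)

open Helper81.PXd in
noncomputable def t16n : Helper81.PXd.Ten :=
  (s
  11936927665315687377065947867560962917777485597537945676110986563134893004158775743513817779440182577779094048760993361576808777742935282464024586215059388762523168409604895421551848563937791022843309310227932161816413728897549257523376476978007573097781466571464977439242866910980547857897485521146602478945133443715388875752680084822341596219814981309450741316322139825292077633793168858321716436891186780264235850746528825017581130222292262988260062658219717568472999432734688823843889047684699212569130988018098362207580492317135977736556441162643393096757330433557868168839548235643805008315278463704245501156225285166546484937835913742209884002450220370501281387105264148085105160734813232869229299656922246874990649893914542572306856535702051097466450249955317225637951698447189387252877212635100328803131763443999568885982604029364685480170487400339693993169797779415593945184234091122118432507434959685555096657068673)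

noncomputable def t16 : Tre := Helper81.PXd.toT t16n

theorem ok16 : chk K t16 r17 = true :=
  Helper81.PXd.chkN_sound K t16n r17 (by decide +kernel)

noncomputable def t17 : Tre :=
  (.N [0,0,1,-1,2] (-1) ⟨0,[(22,0)]⟩ ⟨0,[(10,0)]⟩ (.i (-1) ⟨0,[(1,0)]⟩ ⟨0,[(0,0)]⟩))

theorem ok17 : chk K t17 l20 = true := by decide +kernel

open Helper55.PC in
noncomputable def t18n : Helper55.PC.Ten :=
  (s
  2997850131078215019466069003465221403436318566169205986022181510458336971114494111227567193176157717027514624836956642559896732587421689418827122457044464669270174827893112400288827091690767040312949669131534316100529575249992667409973056357178657073837335469633295155228572122041379177560801172402498570667335864881011298914041515485188132607695069165212650721784096992294971366873411805901594766391623676653019438463613193157204025105094677074486772103958493429679796853295297160724057116473134440391994278945184659794186372217293004160904090230249330843502562435263911493915979049601877918924518590914624885972362855371228946905516025274085067254748963786206074501588811987905143848554519025102619265)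

noncomputable def t18 : Tre := Helper55.PC.toT t18n

theorem ok18 : chk K t18 r20 = true :=
  Helper55.PC.chkN_sound K t18n r20 (by decide +kernel)

noncomputable def t19 : Tre :=
  (.N [0,0,1,-1,2] (-1) ⟨0,[(22,0)]⟩ ⟨0,[(10,0)]⟩ (.i 1 ⟨0,[(27,0),(9,0),(10,1)]⟩ ⟨0,[(0,0)]⟩))

theorem ok19 : chk K t19 l21 = true := by decide +kernel

open Helper55.PC in
noncomputable def t20n : Helper55.PC.Ten :=
  (s
  2997850131078215019466069003465221403436318566169205986022181510458336971114494111227567193176157717027514624836956642559896732587421689418827122457044464669270174827893112400288827091690767040312949669131534316100529575249992667409973056357178657073837335469633295155228572122041379177560801172402498570667335864881011298914041515485188132607695069165212650721784096992294971366873411805901594766391623676653019438463613193157204025105094677074486772103958493429679796853295297160724057116473134440391994278945184659794186372217293004160904090230249330843502562435263911493915979049601877918924518590914624885972362855371228946905516025274085067254748963786206074501588811987905143848554519025102619265)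

noncomputable def t20 : Tre := Helper55.PC.toT t20n

theorem ok20 : chk K t20 r21 = true :=
  Helper55.PC.chkN_sound K t20n r21 (by decide +kernel)

noncomputable def t21 : Tre :=
  (.N [0,1,0,0,5] (-2) ⟨0,[(0,0)]⟩ ⟨0,[(1,0)]⟩ (.x 1 ⟨88,[(0,5),(4,14),(10,117),(10,88),(0,115),(0,
  1),(1,1)]⟩ ⟨0,[(4,0),(10,0),(25,0)]⟩))

theorem ok21 : chk K t21 l23 = true := by decide +kernel

noncomputable def t22 : Tre :=
  (.N [0,1,0,0,7] (-3) ⟨0,[(1,0)]⟩ ⟨0,[(0,0)]⟩ (.x 2 ⟨0,[(18,1),(10,0),(0,1)]⟩ ⟨0,[(6,0),(10,1),(25,
  0)]⟩))

theorem ok22 : chk K t22 l25 = true := by decide +kernel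

noncomputable def t23 : Tre :=
  (.N [0,-3,0,1,1] (-2) ⟨0,[(2,0)]⟩ ⟨0,[(1,0)]⟩ (.x 2 ⟨0,[(0,0)]⟩ ⟨231,[(2,3),(1,15),(5,57),(4,3),
  (4,636),(1,58),(5,113),(0,3),(2,695),(12,227),(2,227)]⟩))

theorem ok23 : chk K t23 l28 = true := by decide +kernel

noncomputable def t24 : Tre :=
  (.N [0,-3,0,1,1] (-2) ⟨0,[(3,0)]⟩ ⟨0,[(2,0)]⟩ (.x 1 ⟨2267,[(5,269),(5,944),(11,362),(11,79),(1,
  49),(0,2217),(0,29),(6,2167),(1,755),(3,29),(0,805)]⟩ ⟨0,[(0,0)]⟩))

theorem ok24 : chk K t24 l29 = true := by decide +kernel

noncomputable def t25 : Tre :=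
  (.N [0,1,2,2] 0 ⟨0,[(1,0)]⟩ ⟨0,[(0,0)]⟩ (.x 0 ⟨0,[(2,0)]⟩ ⟨146,[(0,30),(3,115),(1,4),(3,0),(4,56),
  (1,56),(14,61),(5,4),(6,409),(3,154),(0,22),(0,471)]⟩))

theorem ok25 : chk K t25 l32 = true := by decide +kernel

noncomputable def t26 : Tre :=
  (.N [0,0,1,-1,2] (-1) ⟨0,[(30,0)]⟩ ⟨0,[(18,0)]⟩ (.i 1 ⟨0,[(35,0),(9,0),(10,1)]⟩ ⟨0,[(0,0)]⟩))

theorem ok26 : chk K t26 l34 = true := by decide +kernel

noncomputable def t27 : Tre :=
  (.N [0,0,1,-1,2] (-1) ⟨0,[(31,0)]⟩ ⟨0,[(19,0)]⟩ (.i 0 ⟨0,[(0,0)]⟩ ⟨0,[(2,0)]⟩))

theorem ok27 : chk K t27 l35 = true := by decide +kernel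

open Helper81.PXd in
noncomputable def t28n : Helper81.PXd.Ten :=
  (s
  83537647804540212642056636053110111076251398805137808378709206039782141441489207854626840781495779859061131593408187872527807667806410807282717897354497398275736902977923007384819663303046098142152582806922277012890381363082225797914354359855910828614505365352344434380759598950508216497442615638017691708201146343187448274071174050069688675483437843921150929970125892966555654350550090483409333258075269453006785399345706560397724882007975235932966773752332800265564626023743205005050723309690260398365412245745077163552415092449293449508289729884512084225524343114462415329624117659556049548337792735140294537162627057991203668733075832504784995972806490579400590388151276768566902985564675323103028501989162849021558146398104236914096808349077801951604375945244475052100840059566813786422550158553460809980047514161875280842574076517836155320795777)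

noncomputable def t28 : Tre := Helper81.PXd.toT t28n

theorem ok28 : chk K t28 r35 = true :=
  Helper81.PXd.chkN_sound K t28n r35 (by decide +kernel)

noncomputable def t29 : Tre :=
  (.N [0,0,1,-1,2] (-1) ⟨0,[(30,0)]⟩ ⟨0,[(18,0)]⟩ (.i (-1) ⟨0,[(0,0)]⟩ ⟨7,[(7,4),(2,0),(4,7),(1,11),
  (0,0),(0,4),(1,7),(18,2),(3,6),(10,15)]⟩))

theorem ok29 : chk K t29 l36 = true := by decide +kernel

open Helper81.PXd in
noncomputable def t30n : Helper81.PXd.Ten :=
  (s
  83537647804540212642056636053029052648504502163596414809476161376616695423207213133428548555232196446355003685732194883128963396646838475247718094675558383982614512827998739241704887972166628646605347675638995354888888847267737244000893678226310833104539616905579389952098228829907522643186411978506027057491311663739874315399982961100377599865504624599573432739976847478094298864438998590279702821777734576346785357050081538377817445246836013466295319077359249680048994218463970162466715582114624209561815454968222625056569015925907861250802333143091659393261700290476749489392818575099622889718853092013378606634496910005794911206878874164479975548790394344233186500738434075947386390116262483627513153846884936056859309676952338488156424740511739863767033264077111322332001516395912538107022856577703983384558379081340566120331254638742476422120065)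

noncomputable def t30 : Tre := Helper81.PXd.toT t30n

theorem ok30 : chk K t30 r36 = true :=
  Helper81.PXd.chkN_sound K t30n r36 (by decide +kernel)

noncomputable def t31 : Tre :=
  (.N [0,0,1,-1,2] (-1) ⟨0,[(28,0)]⟩ ⟨0,[(16,0)]⟩ (.i 1 ⟨0,[(33,0),(9,0),(10,1)]⟩ ⟨0,[(0,0)]⟩))

theorem ok31 : chk K t31 l37 = true := by decide +kernel

open Helper81.PXd in
noncomputable def t32n : Helper81.PXd.Ten :=
  (s
  5968463832657988167599791295953605554184073429429306172483679487545574697678859257132207279944457115797381981634778695383596847935722522085222461322857843404624429646269339013429795368854409763471701296298607203258578205416774226863528029672821468158363438543314411178537761529510240376314737281371062687709291305593009935996801125181351742020366111606021673057447648492283492782064428855198779867211151032970494863476284254750109653199100144120490910195492384868973678890799305188683238760159012983077747897192027064728975529937815019115766244699314474841184617805199617151541244527019765899788430327344544189801289147217693982809682483814619321744056861628290742654606027928219531738879634062672982977718650820230893228431641367922875551393146056103532377537602900687111596876258843984961675285421910914832639341191961050821012865237637310915652793463329610547198290309194501819287153734155478089402312813233912482475541121)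

noncomputable def t32 : Tre := Helper81.PXd.toT t32n

theorem ok32 : chk K t32 l38 = true :=
  Helper81.PXd.chkN_sound K t32n l38 (by decide +kernel)

noncomputable def t33 : Tre :=
  (.N [0,0,1,-1,2] (-1) ⟨0,[(30,0)]⟩ ⟨0,[(18,0)]⟩ (.i (-1) ⟨0,[(0,0)]⟩ ⟨7,[(7,4),(2,0),(4,7),(1,11),
  (0,0),(0,4),(1,7),(18,2),(3,6),(10,15)]⟩))

theorem ok33 : chk K t33 l39 = true := by decide +kernel

open Helper81.PXd in
noncomputable def t34n : Helper81.PXd.Ten :=
  (s
  5968463832657988167599791295953605554184073429429306172483679487545574697678859257135197808087786354774548520990722403317888439763036416378044238995227225389197594320250379326956092444554778828198067046105846499542733703442203417578773113696878925205689486663066143222650072927397176257738937348710962483813980672650981409109891153466603270683070036345087703341051838712233365919892806134887519551620731358046044270007650366713372764245646107905794945552911041503741742313937392260452025587417579048678802781098583299494788212025151848606810238810833007213897057758707756336021869042342280201802488299521880754317965879873890122453517277093262469269803698334059447002997752868440765064321341515838143214764427294957778878394068557226806528437300422607088775650424048540388445297459005454598828708492362294243592712398383003571712603069260060327042930469195822976498678304513760037992681160123177863440143639457396869401936513)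

noncomputable def t34 : Tre := Helper81.PXd.toT t34n

theorem ok34 : chk K t34 r39 = true :=
  Helper81.PXd.chkN_sound K t34n r39 (by decide +kernel)

noncomputable def t35 : Tre :=
  (.N [0,0,1,-1,2] (-1) ⟨0,[(28,0)]⟩ ⟨0,[(16,0)]⟩ (.i 0 ⟨0,[(0,0)]⟩ ⟨0,[(1,0)]⟩))

theorem ok35 : chk K t35 l41 = true := by decide +kernel

open Helper81.PXd in
noncomputable def t36n : Helper81.PXd.Ten :=
  (s
  872173738344085412273378871865324400500988976911273253927497821596010715925413290337507783699270869845380522388443694744918773424593051643989412858419536826025528914190274436441984509738675537936611820731182126343755067642097870802490421809078628062846533578231291268732604711603084091288152457102170532777586905002263716945928132938107792793762069613431205634323196070954427412765056155158693810590696428033522089234518113564261573510990236768943301908251329834910110485113398326260491978671716593793721405314343007791312473219799997783490605893846409525933166033026069500248494927075425257544188507151092570886816380605395009335054588289426093211318314981468014638566972798084013582891246053034238842373430155150802090715121979085267349623864359431283805940027006627235169632417357004209898128001)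

noncomputable def t36 : Tre := Helper81.PXd.toT t36n

theorem ok36 : chk K t36 r41 = true :=
  Helper81.PXd.chkN_sound K t36n r41 (by decide +kernel)

noncomputable def t37 : Tre :=
  (.N [0,0,1,-1,2] (-1) ⟨0,[(28,0)]⟩ ⟨0,[(16,0)]⟩ (.i (-1) ⟨0,[(0,0)]⟩ ⟨7,[(5,4),(2,0),(4,7),(1,11),
  (0,0),(0,4),(1,7),(18,2),(3,6),(10,15)]⟩))

theorem ok37 : chk K t37 l42 = true := by decide +kernel

open Helper81.PXd in
noncomputable def t38n : Helper81.PXd.Ten :=
  (s
  872173738344085412273378871865324400500988976911273253927497821596010715925413290337507783699270869845380522388443694744918773424593051643989412858419536826025528914190274436441984509738675537936611820731182126343755067642097870802490421809078628062846533578231291268732604711603084091288152457102170532777586905002263716945928132938107792793762069613431205634323196070954427412765056155158693810590696428033522089234518113564261573510990236768943301908251329834910110485113398326260491978671716593793721405314343007791312473219799997783490605893846409525933166033026069500248494927075425257544188507151092570886816380605395009335054588289426093211318314981468014638566972798084013582891246053034238842373430155150802090715121979085267349623864359431283805940027006627235169632417357004209898128001)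

noncomputable def t38 : Tre := Helper81.PXd.toT t38n

theorem ok38 : chk K t38 r42 = true :=
  Helper81.PXd.chkN_sound K t38n r42 (by decide +kernel)

noncomputable def t39 : Tre :=
  (.N [0,1,2,2] 0 ⟨0,[(1,0)]⟩ ⟨0,[(0,0)]⟩ (.x 0 ⟨16,[(0,16),(1,1),(9,30),(0,0),(0,30),(3,29),(9,29),
  (4,20),(0,0),(0,3),(2,1),(1,35)]⟩ ⟨92,[(0,92),(1,14),(4,2),(4,170),(1,170),(8,22),(5,231),(5,14),
  (6,93),(3,185),(1,92),(0,278)]⟩))

theorem ok39 : chk K t39 l44 = true := by decide +kernel

noncomputable def t40 : Tre :=
  (.N [0,0,1,-1,2] (-1) ⟨0,[(26,0)]⟩ ⟨0,[(14,0)]⟩ (.i (-1) ⟨0,[(0,0)]⟩ ⟨3,[(8,0),(0,2),(1,3),(1,7),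
  (1,2),(1,3),(8,0),(9,0),(3,4),(10,7)]⟩))

theorem ok40 : chk K t40 l45 = true := by decide +kernel

noncomputable def t41 : Tre :=
  (.N [0,0,1,-1,2] (-1) ⟨0,[(28,0)]⟩ ⟨0,[(16,0)]⟩ (.i 0 ⟨0,[(1,0)]⟩ ⟨0,[(0,0)]⟩))

theorem ok41 : chk K t41 l47 = true := by decide +kernel

open Helper55.PC in
noncomputable def t42n : Helper55.PC.Ten :=
  (s
  115763263585435725451070605602779511711034454557414491655221201456830485835264807994592349877434969788204485346866818469871721288491873790526029650598464030188102440268775931730801368537351311589570090660879350676898075703217374483052126519116024560139370124715212021226735730185629608990757550726346167191608851147301886920545447233318623222913123542853424752854700032171480164804825808522029054536900402418629330348747147161549286126014709693607187390152057487521404172918970728418035707649949624588488623463252327822141864496630898410105069820045561083174417221746276557692321049908385177291042941424108825182817344076339217025)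

noncomputable def t42 : Tre := Helper55.PC.toT t42n

theorem ok42 : chk K t42 r47 = true :=
  Helper55.PC.chkN_sound K t42n r47 (by decide +kernel)

open Helper55.PC in
noncomputable def t43n : Helper55.PC.Ten :=
  (s
  115763263585435725451063081213454962356584442261747253598570712794863266789247454530901770927843107621986420800555181291734136149772703818484833583509043126283163567088727566926660142931924571321964544190829515689966498317281085303801656620114945986660560159937142208435448324632014361236064866744079722084079149971319636362820654285196654393608832609775390361191369599386346042110717463341048765293937819901444492183879199889169479669836384608369811856609012521537503511266531718302351579352885609889896673507796603089072589062210092349024927963302854337341477504426520809787695813688469813282264090675987241671518522296205574785)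

noncomputable def t43 : Tre := Helper55.PC.toT t43n

theorem ok43 : chk K t43 r46 = true :=
  Helper55.PC.chkN_sound K t43n r46 (by decide +kernel)

noncomputable def t44 : Tre :=
  (.N [0,0,1,-1,2] (-1) ⟨0,[(26,0)]⟩ ⟨0,[(14,0)]⟩ (.i 0 ⟨0,[(0,0)]⟩ ⟨0,[(1,0)]⟩))

theorem ok44 : chk K t44 l49 = true := by decide +kernel

noncomputable def t45 : Tre :=
  (.N [0,0,1,-1,2] (-1) ⟨0,[(27,0)]⟩ ⟨0,[(15,0)]⟩ (.i 1 ⟨0,[(32,0),(9,0),(10,1)]⟩ ⟨0,[(0,0)]⟩))

theorem ok45 : chk K t45 l50 = true := by decide +kernel

open Helper55.PC in
noncomputable def t46n : Helper55.PC.Ten :=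
  (s
  1050986933944140511003334892756611572826816625429332585839206170143797144024436112888293909036405478148580343253874190458391665149678134892556734846616481469436909786138527892662531415305272213075783037488175502698510894733134847975527217785074101671752776146453249287769942874054854243174292186738869118992517143999910106094122156981697543833307591290325922976168251062877416676439124939111111365432931637933342219359214240288675376599780081193387199867263552254571709546594416703429923019166858877460930803247214322379267196129429384630424615362238442963229802393618981317381643752696461153393178754540707429841600300740768043122141158179457)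

noncomputable def t46 : Tre := Helper55.PC.toT t46n

theorem ok46 : chk K t46 r50 = true :=
  Helper55.PC.chkN_sound K t46n r50 (by decide +kernel)

open Helper55.PC in
noncomputable def t47n : Helper55.PC.Ten :=
  (s
  1050986933944140511003334892756488293232123208806023584386994141823635537786765196038345589887299032638467273522557420931621801624875549865275063417916858462094808863924863995246007391858896521305299626787692676225669344847935014981726296016643222935480165557316439005869959964549148432751422613237473253519276601954180239074115036709090653696796523180129292631936109448744575311394942369896783993547716235738541868675070065371753013163595790039938704786413076966964944580551965185783766951941536297170822928199261125711986467167761360046501635843326166336337003836235547159355324103703725951201976595075194895143750077518565437648261776147073)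

noncomputable def t47 : Tre := Helper55.PC.toT t47n

theorem ok47 : chk K t47 r48 = true :=
  Helper55.PC.chkN_sound K t47n r48 (by decide +kernel)

noncomputable def t48 : Tre :=
  (.N [0,0,1,-1,2] (-1) ⟨0,[(24,0)]⟩ ⟨0,[(12,0)]⟩ (.i 0 ⟨0,[(0,0)]⟩ ⟨0,[(1,0)]⟩))

theorem ok48 : chk K t48 l52 = true := by decide +kernel

open Helper55.PC in
noncomputable def t49n : Helper55.PC.Ten :=
  (s
  26953235172069567593522488150159203050014191627210364543977018168419974309204936525336549646048418767627656777280730406682687881905376137171328649849317653865778189905146875188891701045901555775981170896144117790727075329377375300664404961840886049403177194168695225504125316308119297383108874598421840784863513218068021089360591263038249726075559797624120760843549272457039699718452196010258214047555832057192768451730331815565525218000988638280120822264650783538161982011790359327825043418606237356646411351092857950628882353987730093656916360186705463617071357316673857626192480186412295533664104503763421501347332737)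

noncomputable def t49 : Tre := Helper55.PC.toT t49n

theorem ok49 : chk K t49 r52 = true :=
  Helper55.PC.chkN_sound K t49n r52 (by decide +kernel)

open Helper55.PC in
noncomputable def t50n : Helper55.PC.Ten :=
  (s
  26953235172069567593520736241749665918476971117565012856379327864152004617540640913505520944871583970555883091227583524227939260801079996702686016308477759426083701515775696457400618796700967098800825945910246371589727753245049956648883684574766983413921456521883330360976161402022970699959051642417610719225683028443803329143543913814814472171672057067951661460743701522950340549285176780869081577535024654047400203182359000675557079238629462931469178542288340468695345199497598422369113963320644214610973902430199126260377156086359717563692895105004577532901715960334828180239373150314547895692803458271952091124597377)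

noncomputable def t50 : Tre := Helper55.PC.toT t50n

theorem ok50 : chk K t50 r51 = true :=
  Helper55.PC.chkN_sound K t50n r51 (by decide +kernel)

noncomputable def t51 : Tre :=
  (.N [0,0,2,2,-1] 0 ⟨0,[(0,0)]⟩ ⟨0,[(1,0)]⟩ (.x 0 ⟨114,[(1,114),(1,6),(6,196),(0,32),(0,196),(3,
  221),(9,221),(4,7),(1,36),(2,3),(1,233),(4,28)]⟩ ⟨0,[(2,0)]⟩))

theorem ok51 : chk K t51 l55 = true := by decide +kernel

noncomputable def t52 : Tre :=
  (.N [0,0,2,2,1] (-1) ⟨0,[(0,0)]⟩ ⟨0,[(1,0)]⟩ (.x 1 ⟨19,[(1,1),(0,17),(9,31),(0,7),(0,31),(3,21),
  (9,21),(4,17),(0,0),(0,15),(2,8),(1,48)]⟩ ⟨0,[(4,0),(16,0)]⟩))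

theorem ok52 : chk K t52 l57 = true := by decide +kernel

noncomputable def t53 : Tre :=
  (.N [0,0,1,-1,2] (-1) ⟨0,[(26,0)]⟩ ⟨0,[(14,0)]⟩ (.i 1 ⟨0,[(31,0),(9,0),(10,1)]⟩ ⟨0,[(0,0)]⟩))

theorem ok53 : chk K t53 l58 = true := by decide +kernel

noncomputable def t54 : Tre :=
  (.N [0,0,1,-1,2] (-1) ⟨0,[(28,0)]⟩ ⟨0,[(16,0)]⟩ (.i 0 ⟨0,[(0,0)]⟩ ⟨0,[(1,0)]⟩))

theorem ok54 : chk K t54 l60 = true := by decide +kernel

open Helper55.PC in
noncomputable def t55n : Helper55.PC.Ten :=
  (s
  28663412461576982781213036618608196039847246200819405281908105172484333377079131904137578342689268082103569016891627352785771572970007456050465134447690960053834615791432080049186431427938555133149287856145696016259676541140636468940719120346692395852315296264693657065268416166708976565281896359604629231875915973683088344555783389965595193137216517161350728411635250291547253525303201196890196666554558385899631719336837736282361499396737147481222469285835928280861854022919570427793902171036112889806026210904001658005792654697958132444009708180592435458637145064947155151990988172605504002407386859548307358337)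

noncomputable def t55 : Tre := Helper55.PC.toT t55n

theorem ok55 : chk K t55 r60 = true :=
  Helper55.PC.chkN_sound K t55n r60 (by decide +kernel)

open Helper55.PC in
noncomputable def t56n : Helper55.PC.Ten :=
  (s
  28663412461576982781213036618607418036225562890005177241550709345451710590508104533911663990569228153850233289902983829185394837881009319987726805642058577271554527904751818911481578721904585446165520399392192805294833261348524670828323247387026474392084754340512424353623224653314391051473022726146984663143440645318833823791781049313588003906281805083801847024597087389115261082780475403738033328387891123913163550786739636011273173460082871797203058345385683088950011238773943826307686298135948644849449649271810807353940821521060047544403363502222687492109932654031012598622978962961722956267194426135730455169)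

noncomputable def t56 : Tre := Helper55.PC.toT t56n

theorem ok56 : chk K t56 r59 = true :=
  Helper55.PC.chkN_sound K t56n r59 (by decide +kernel)

noncomputable def t57 : Tre :=
  (.N [0,0,1,-1,2] (-1) ⟨0,[(25,0)]⟩ ⟨0,[(13,0)]⟩ (.i 1 ⟨0,[(30,0),(9,0),(10,1)]⟩ ⟨0,[(0,0)]⟩))

theorem ok57 : chk K t57 l61 = true := by decide +kernel

open Helper55.PC in
noncomputable def t58n : Helper55.PC.Ten :=
  (s
  123108419114231997631665115485765944028478036515347368958322605735484675740062206459858733518383087586686945111779194062007286015622708076015108285471199288413772857820307531322151639760932265778197118493638237760064133208232482060815396663354574136128983445743213446803618667638717664392017174845852824233225294803076813229069628559504810368666884584985848189567613865260776945110111016581168054322570005379217304862613794979053800108642489420397928888727794468708765420238735165550931554484068615079026809635787667616014562393016172361607712954546752793957439667528268369002139772583059863415098545938310611651283471303297)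

noncomputable def t58 : Tre := Helper55.PC.toT t58n

theorem ok58 : chk K t58 l62 = true :=
  Helper55.PC.chkN_sound K t58n l62 (by decide +kernel)

open Helper55.PC in
noncomputable def t59n : Helper55.PC.Ten :=
  (s
  123108419114231997631665115485765944028478036515347368958322605735484675740062206459858733518383087586686945111779194062007286015622708076015108285471199288413772857820307531322151639760932265778197118493638237760064133208232482060815396663354574136128983445743213446803618667638717664392017174845852824233225294803076813229069628559504810368666884584985848189567613865260776945110111016581168054322570005379217304862613794979053800108642489420397928888727794468708765420238735165550931554484068615079026809635787667616014562393016172361607712954546752793957439667528268369002139772583059863415098545938310611651283471303297)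

noncomputable def t59 : Tre := Helper55.PC.toT t59n

theorem ok59 : chk K t59 r62 = true :=
  Helper55.PC.chkN_sound K t59n r62 (by decide +kernel)

noncomputable def t60 : Tre :=
  (.N [0,-3,0,1,1] (-2) ⟨0,[(2,0)]⟩ ⟨0,[(0,0)]⟩ (.x 1 ⟨39,[(4,4),(6,10),(8,10),(17,38),(7,27),(6,
  20),(2,20)]⟩ ⟨0,[(1,0)]⟩))

theorem ok60 : chk K t60 l65 = true := by decide +kernel

noncomputable def t61 : Tre :=
  (.N [0,0,1,-1,2] (-1) ⟨0,[(27,0)]⟩ ⟨0,[(15,0)]⟩ (.i 0 ⟨0,[(0,0)]⟩ ⟨0,[(1,0)]⟩))

theorem ok61 : chk K t61 l67 = true := by decide +kernel

noncomputable def t62 : Tre :=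
  (.N [0,0,1,-1,2] (-1) ⟨0,[(28,0)]⟩ ⟨0,[(16,0)]⟩ (.i 1 ⟨0,[(33,0),(9,0),(10,1)]⟩ ⟨0,[(0,0)]⟩))

theorem ok62 : chk K t62 l68 = true := by decide +kernel

open Helper55.PC in
noncomputable def t63n : Helper55.PC.Ten :=
  (s
  92745281144613575727149539207925748922838791392671480786191735392229330100997560749751621009591151929117079834995619798038081411105372496018989474086717179644966225723933683648315646302963169032520132858522751664116226941310787129200154325767216088085844735415148514704696616634575802948897678599717305557512970631318432132185148756990385466089111466385921086472653179701472500474166705793061199660877533903621573868299193806572274106863174225370613398515753523127181366752672759728527608599401568231633609292692012195004892566822641631995790114367518870521334716547260744321)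

noncomputable def t63 : Tre := Helper55.PC.toT t63n

theorem ok63 : chk K t63 r68 = true :=
  Helper55.PC.chkN_sound K t63n r68 (by decide +kernel)

noncomputable def t64 : Tre :=
  (.N [0,0,1,-1,2] (-1) ⟨0,[(27,0)]⟩ ⟨0,[(15,0)]⟩ (.i (-1) ⟨0,[(0,0)]⟩ ⟨6,[(7,0),(2,4),(1,6),(1,12),
  (1,4),(1,6),(8,0),(9,1),(3,7),(10,13)]⟩))

theorem ok64 : chk K t64 l69 = true := by decide +kernel

open Helper55.PC in
noncomputable def t65n : Helper55.PC.Ten :=
  (s
  92745281144613570578753442785534155229627806169982056211185991454802463840890866588737970443772312257819812173029102767121002404071859724902212094552791758252902886494616718082031565067864547539079860723766992221923409043860461135140311758559901830356261012567039844082451333499191396259201430914263015107501267814602662508459383821193107314762659606937230744098126865454530739391728462830728738781273758895043888822667181482215502820406349861022655707041087266920861101616742889738465722931935057035306268431790190929167348194024401994465110071175555558655743601815506125441)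

noncomputable def t65 : Tre := Helper55.PC.toT t65n

theorem ok65 : chk K t65 r69 = true :=
  Helper55.PC.chkN_sound K t65n r69 (by decide +kernel)

noncomputable def t66 : Tre :=
  (.N [0,-3,0,1,1] (-2) ⟨0,[(3,0)]⟩ ⟨0,[(1,0)]⟩ (.x 2 ⟨0,[(0,0)]⟩ ⟨15,[(5,3),(6,4),(8,4),(0,41),(11,
  47),(12,7)]⟩))

theorem ok66 : chk K t66 l71 = true := by decide +kernel

noncomputable def t67 : Tre :=
  (.N [0,0,1,-1,2] (-1) ⟨0,[(27,0)]⟩ ⟨0,[(15,0)]⟩ (.i (-1) ⟨0,[(0,0)]⟩ ⟨2,[(2,0),(7,0),(1,2),(1,4),
  (1,1),(1,2),(18,0),(3,2),(10,5)]⟩))

theorem ok67 : chk K t67 l72 = true := by decide +kernel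

noncomputable def t68 : Tre :=
  (.N [0,0,1,-1,2] (-1) ⟨0,[(28,0)]⟩ ⟨0,[(16,0)]⟩ (.i 1 ⟨0,[(33,0),(9,0),(10,1)]⟩ ⟨0,[(0,0)]⟩))

theorem ok68 : chk K t68 l73 = true := by decide +kernel

noncomputable def t69 : Tre :=
  (.N [0,0,1,-1,2] (-1) ⟨0,[(30,0)]⟩ ⟨0,[(18,0)]⟩ (.i 0 ⟨0,[(1,0)]⟩ ⟨0,[(0,0)]⟩))

theorem ok69 : chk K t69 l75 = true := by decide +kernel

open Helper55.PC in
noncomputable def t70n : Helper55.PC.Ten :=
  (s
  92745281144613586023941732052708936309260761838050329936203223267083062621210949071778922141228831271711615168801142916014106343459769399256642070010444960186638243392336595102236506146211834259931118057716980841884043874836151228105058004264819217725236378700235654894025070178770185412865391241579454040165918109044395596801807428446060683651515500707755176604946311655835704417014212866526007105518242397579882379696367866088130929030516383926864720592009991152871685968624112061278690839371447277561831175085797032722208293150109051174721592291120731357129881563090125441)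

noncomputable def t70 : Tre := Helper55.PC.toT t70n

theorem ok70 : chk K t70 r75 = true :=
  Helper55.PC.chkN_sound K t70n r75 (by decide +kernel)

open Helper55.PC in
noncomputable def t71n : Helper55.PC.Ten :=
  (s
  92745281144613580875545635630317342616049776615360905361197479329656196361104254910765271575409991600414347506834625885097027336426256628139864690476519538794574904163019629535952424911113212766490845922961221399691225977385825234045215437057504959995652655852126984271779787043385778723169143556125163590154215292328625973076042492648782532325063641259064834230419997408893943334575969904193546225914467389002197334064355541731359642573692019578907029117343734946551420832694242071216805171904936081234490314183975766884663920351869413644041549099157419491538766831335506561)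

noncomputable def t71 : Tre := Helper55.PC.toT t71n

theorem ok71 : chk K t71 r74 = true :=
  Helper55.PC.chkN_sound K t71n r74 (by decide +kernel)

noncomputable def t72 : Tre :=
  (.N [0,0,1,-1,2] (-1) ⟨0,[(26,0)]⟩ ⟨0,[(14,0)]⟩ (.i (-1) ⟨0,[(0,0)]⟩ ⟨6,[(6,0),(2,4),(1,6),(1,12),
  (1,4),(1,6),(8,0),(9,1),(3,7),(10,13)]⟩))

theorem ok72 : chk K t72 l76 = true := by decide +kernel

noncomputable def t73 : Tre :=
  (.N [0,0,1,-1,2] (-1) ⟨0,[(28,0)]⟩ ⟨0,[(16,0)]⟩ (.i 0 ⟨0,[(1,0)]⟩ ⟨0,[(0,0)]⟩))

theorem ok73 : chk K t73 l78 = true := by decide +kernel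

open Helper55.PC in
noncomputable def t74n : Helper55.PC.Ten :=
  (s
  1415180681527917110094444873167812330975933706553214733676021353030843049636802174109195901098680800192179956123339402348855704433934076945271706145422737842002562237694667715037474853712427612834255883354118330245632491970285585258698349381195442759706513316877398645979036677320452351572639835841793375271269576017544725500925876670289741424540031160875648839431450010961400420194332710848081960122098493550002257906306477323260119106846989866276347152272146316330098205340385338191060195728501331846806390977844908335330412292573714929679878762761471881096210563465857)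

noncomputable def t74 : Tre := Helper55.PC.toT t74n

theorem ok74 : chk K t74 r78 = true :=
  Helper55.PC.chkN_sound K t74n r78 (by decide +kernel)

open Helper55.PC in
noncomputable def t75n : Helper55.PC.Ten :=
  (s
  1415180681527917031536154827660128101038021944732392215136504996563758298353435869162088195931767353059348113061468651021523971246415790024810996775721891260308582651271196518813814310074509190189712445875637435509691029770466078777958542207635408118936748648487073290789546166277273503885628399815469131861018026092041755019094400222287685002631283330740995965960167499141239425893606170712588595390225728003814238179662603016327429942253171021096582522545928872018652716960190669797840676957326431238900315902385872488408911280800480781107716024298852953159720743469697)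

noncomputable def t75 : Tre := Helper55.PC.toT t75n

theorem ok75 : chk K t75 r77 = true :=
  Helper55.PC.chkN_sound K t75n r77 (by decide +kernel)

noncomputable def t76 : Tre :=
  (.N [0,0,1,-1,2] (-1) ⟨0,[(24,0)]⟩ ⟨0,[(12,0)]⟩ (.i (-1) ⟨0,[(0,0)]⟩ ⟨2,[(1,0),(5,0),(1,2),(1,4),
  (1,1),(1,2),(18,0),(3,2),(10,5)]⟩))

theorem ok76 : chk K t76 l79 = true := by decide +kernel

open Helper55.PC in
noncomputable def t77n : Helper55.PC.Ten :=
  (s
  481561031931106371448182445264136863122877401950078657307466845396041412174873333274621250274262243883146291536883617111813495377824583329160640270352422328903754673669081569355174337760659250555946190683284876585007331404823792030721364910319921819992319643637344381383837338648211587001695688494112142927121536316507527978770711942851129718518233084075337186342424997357235328039613319741502554656892215046556676820682980416274638990373035677772561062844819289240642828616348327853340515049212472833929262273721670996910234783629358413070694141635249851825358343887403202518237986957084436911223527579845249)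

noncomputable def t77 : Tre := Helper55.PC.toT t77n

theorem ok77 : chk K t77 l80 = true :=
  Helper55.PC.chkN_sound K t77n l80 (by decide +kernel)

noncomputable def t78 : Tre :=
  (.N [0,0,1,-1,2] (-1) ⟨0,[(26,0)]⟩ ⟨0,[(14,0)]⟩ (.i 1 ⟨0,[(31,0),(9,0),(10,1)]⟩ ⟨0,[(0,0)]⟩))

theorem ok78 : chk K t78 l81 = true := by decide +kernel

open Helper55.PC in
noncomputable def t79n : Helper55.PC.Ten :=
  (s
  34651939403064129485848649730321801747685681364186611827057700284098721153858389524525429374414643264508657286855963631821315185853479262392168559961282881299283074456320965533669742386499254552833204508777103623989550849148234651180065484719610640962890620018206015972672681530391894356366454289041237043569129988782867892048784182737924278642803033828325950889829545454569947228809727064165492645929051137589467091454848695129961907477498938103591912695111596729660981298613995942129723031776551976853710197334380449138078363765130382534042721232702645697308487571122970296656877796837749008332224682689528078300612239155076811782619777)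

noncomputable def t79 : Tre := Helper55.PC.toT t79n

theorem ok79 : chk K t79 r81 = true :=
  Helper55.PC.chkN_sound K t79n r81 (by decide +kernel)

noncomputable def t80 : Tre :=
  (.N [0,-3,0,1,1] (-2) ⟨0,[(1,0)]⟩ ⟨0,[(0,0)]⟩ (.x 2 ⟨0,[(2,0),(37,2),(3,0),(1,2)]⟩ ⟨3,[(9,0),(8,
  0),(0,10),(1,0),(5,1),(3,11),(12,3),(2,3)]⟩))

theorem ok80 : chk K t80 l83 = true := by decide +kernel

noncomputable def t81 : Tre :=
  (.N [0,0,1,-1,2] (-1) ⟨0,[(24,0)]⟩ ⟨0,[(12,0)]⟩ (.i (-1) ⟨0,[(0,0)]⟩ ⟨6,[(4,0),(2,4),(1,6),(1,12),
  (1,4),(1,6),(8,0),(9,1),(3,7),(10,13)]⟩))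

theorem ok81 : chk K t81 l84 = true := by decide +kernel

open Helper55.PC in
noncomputable def t82n : Helper55.PC.Ten :=
  (s
  18678355100031826812422680616622356296619583317908310401754949991060752397008959688933304181384374163119289759996378416263543916453177508819897670971201704169432529290370673655346011321430604497566529553492997059250219356641660193774275213261825552682906205288647500174840814703492211547119235365079113026858300585668245335967225151075709244409151035150334697055947448918545765400820706391443708238719688151362705281291734287067151009973527472544959433573611663422527451237669532997092829702929265877677578181544746412689272497358052576660351206510471365348045103177732994209179239041)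

noncomputable def t82 : Tre := Helper55.PC.toT t82n

theorem ok82 : chk K t82 l85 = true :=
  Helper55.PC.chkN_sound K t82n l85 (by decide +kernel)

open Helper55.PC in
noncomputable def t83n : Helper55.PC.Ten :=
  (s
  18678355100031826812422680616622356296619583317908310401754949991060752397008959688933304181384374163119289759996378416263543916453177508819897670971201704169432529290370673655346011321430604497566529553492997059250219356641660193774275213261825552682906205288647500174840814703492211547119235365079113026858300585668245335967225151075709244409151035150334697055947448918545765400820706391443708238719688151362705281291734287067151009973527472544959433573611663422527451237669532997092829702929265877677578181544746412689272497358052576660351206510471365348045103177732994209179239041)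

noncomputable def t83 : Tre := Helper55.PC.toT t83n

theorem ok83 : chk K t83 r85 = true :=
  Helper55.PC.chkN_sound K t83n r85 (by decide +kernel)

noncomputable def t84 : Tre :=
  (.N [0,0,1,-1,2] (-1) ⟨0,[(23,0)]⟩ ⟨0,[(11,0)]⟩ (.i (-1) ⟨0,[(0,0)]⟩ ⟨2,[(1,0),(4,0),(1,2),(1,4),
  (1,1),(1,2),(18,0),(3,2),(10,5)]⟩))

theorem ok84 : chk K t84 l86 = true := by decide +kernel

open Helper55.PC in
noncomputable def t85n : Helper55.PC.Ten :=
  (s
  18678355100031826811747870043157847425322667580078629471491786439020199081951587388392217411672615973750296556081052601345510058538927144501856167163741001884245969880704669645182028050343254857692326055039022590383968512446135449986495983885289135794730499720537585377606456036061073737906952604181451968853060563006263552642872733865361192290356775032021924099031775294662419881254875188526022224555272003209180468170960468677320903120420324846023722752672406039032519244499176372485985049903704695097580196915891057297238172870959418493494868191316617909505962533837154426784055937)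

noncomputable def t85 : Tre := Helper55.PC.toT t85n

theorem ok85 : chk K t85 r86 = true :=
  Helper55.PC.chkN_sound K t85n r86 (by decide +kernel)

noncomputable def t86 : Tre :=
  (.N [0,-1,1,-1,-1] 0 ⟨0,[(2,0)]⟩ ⟨0,[(1,0)]⟩ (.x 0 ⟨0,[(0,0)]⟩ ⟨39,[(3,5),(2,19),(0,14),(3,2),(6,
  3),(10,59),(4,9),(10,9),(2,5),(2,3)]⟩))

theorem ok86 : chk K t86 l89 = true := by decide +kernel

noncomputable def t87 : Tre :=
  (.N [0,0,1,-1,2] (-1) ⟨0,[(22,0)]⟩ ⟨0,[(10,0)]⟩ (.i (-1) ⟨0,[(0,0)]⟩ ⟨0,[(3,0),(1,0),(1,0),(1,2),
  (1,0),(1,0),(22,1),(10,1)]⟩))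

theorem ok87 : chk K t87 l90 = true := by decide +kernel

open Helper55.PC in
noncomputable def t88n : Helper55.PC.Ten :=
  (s
  176673813506190806188437015361715653351210470562170214176327069911835306283826651429161589744353174843042348248641292633143282085587334421507370005251302713700177835450756378792037355293253829432360842041719653201388057837467459750276245926984082690104744607872363384850948091675662875227406644269637230773965369748152891941468218457679822401010532080334887154348564307031698207434258869152779749608766030631152178081597265986849991262368466195885166920964643903303399799851544995336803965467651264458674794986487721152128725936008064100608829936580332653052947444930061141432126414415671373020678551769779517477667210240757629549861082813460120193)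

noncomputable def t88 : Tre := Helper55.PC.toT t88n

theorem ok88 : chk K t88 l91 = true :=
  Helper55.PC.chkN_sound K t88n l91 (by decide +kernel)

open Helper55.PC in
noncomputable def t89n : Helper55.PC.Ten :=
  (s
  176673813506190806188437015361715653351210470562170214176327069911835306283826651429161589744353174843042348248641292633143282085587334421507370005251302713700177835450756378792037355293253829432360842041719653201388057837467459750276245926984082690104744607872363384850948091675662875227406644269637230773965369748152891941468218457679822401010532080334887154348564307031698207434258869152779749608766030631152178081597265986849991262368466195885166920964643903303399799851544995336803965467651264458674794986487721152128725936008064100608829936580332653052947444930061141432126414415671373020678551769779517477667210240757629549861082813460120193)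

noncomputable def t89 : Tre := Helper55.PC.toT t89n

theorem ok89 : chk K t89 r91 = true :=
  Helper55.PC.chkN_sound K t89n r91 (by decide +kernel)

noncomputable def t90 : Tre :=
  (.N [0,0,1,-1,2] (-1) ⟨0,[(22,0)]⟩ ⟨0,[(10,0)]⟩ (.i 0 ⟨0,[(0,0)]⟩ ⟨0,[(1,0)]⟩))

theorem ok90 : chk K t90 l93 = true := by decide +kernel

open Helper55.PC in
noncomputable def t91n : Helper55.PC.Ten :=
  (s
  416574110030077576362234807179761664263896286505872947729367524281132535685056894491259942813344436286455121346671951413876047989513866769638041559240599090706330429673618071477460800187067475548260580940048241699031835621628695087155147873037822997006823215763772773043127455242619319263480008920954255464782889966378347017684343095590065300033971293033666201587870795525035930092245760910990832304218057339538378334578951211239941408854266057232994639551951418263271675886273895591338292225130491733760389202251940799499625365610742816777633477996931556364115203006979446183222885661263671798328876722691312034808890842258993656817370336727638963766098247287425)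

noncomputable def t91 : Tre := Helper55.PC.toT t91n

theorem ok91 : chk K t91 r93 = true :=
  Helper55.PC.chkN_sound K t91n r93 (by decide +kernel)

noncomputable def t92 : Tre :=
  (.N [0,0,1,-1,2] (-1) ⟨0,[(22,0)]⟩ ⟨0,[(10,0)]⟩ (.i (-1) ⟨0,[(0,0)]⟩ ⟨0,[(2,0),(2,0),(1,0),(1,2),
  (1,0),(1,0),(22,1),(10,1)]⟩))

theorem ok92 : chk K t92 l94 = true := by decide +kernel

open Helper55.PC in
noncomputable def t93n : Helper55.PC.Ten :=
  (s
  416574110030077576362234807179761664263896286505872947729367524281132535685056894491259942813344436286455121346671951413876047989513866769638041559240599090706330429673618071477460800187067475548260580940048241699031835621628695087155147873037822997006823215763772773043127455242619319263480008920954255464782889966378347017684343095590065300033971293033666201587870795525035930092245760910990832304218057339538378334578951211239941408854266057232994639551951418263271675886273895591338292225130491733760389202251940799499625365610742816777633477996931556364115203006979446183222885661263671798328876722691312034808890842258993656817370336727638963766098247287425)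

noncomputable def t93 : Tre := Helper55.PC.toT t93n

theorem ok93 : chk K t93 r94 = true :=
  Helper55.PC.chkN_sound K t93n r94 (by decide +kernel)

noncomputable def t94 : Tre :=
  (.N [0,3,0,0,7] (-2) ⟨0,[(2,0)]⟩ ⟨0,[(1,0)]⟩ (.x 1 ⟨88,[(5,5),(3,14),(10,117),(10,266),(0,115),(0,
  1),(1,1)]⟩ ⟨0,[(0,0)]⟩))

theorem ok94 : chk K t94 l98 = true := by decide +kernel

noncomputable def t95 : Tre :=
  (.N [0,3,0,0,7] (-2) ⟨0,[(3,0)]⟩ ⟨0,[(2,0)]⟩ (.x 2 ⟨0,[(0,0)]⟩ ⟨19,[(6,1),(3,4),(5,0),(3,39),(1,
  9),(24,19),(4,19)]⟩))

theorem ok95 : chk K t95 l99 = true := by decide +kernel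

noncomputable def t96 : Tre :=
  (.N [0,-2,0,1,2] (-2) ⟨0,[(0,0)]⟩ ⟨0,[(6,0)]⟩ (.x 2 ⟨0,[(1,0)]⟩ ⟨71,[(0,3),(4,3),(6,17),(4,3),(4,
  196),(1,18),(5,33),(0,3),(2,143),(12,67),(2,67)]⟩))

theorem ok96 : chk K t96 l101 = true := by decide +kernel

noncomputable def t97 : Tre :=
  (.N [0,0,1,-1,2] (-1) ⟨0,[(27,0)]⟩ ⟨0,[(15,0)]⟩ (.i (-1) ⟨0,[(0,0)]⟩ ⟨0,[(7,0),(4,0),(1,2),(1,0),
  (1,0),(8,0),(13,1),(10,1)]⟩))

theorem ok97 : chk K t97 l102 = true := by decide +kernel

open Helper55.PC in
noncomputable def t98n : Helper55.PC.Ten :=
  (s
  2695828453158429049506180043970998211833664769618324612524695198914247049385697108440034028770599951225526672036204114192260161564429348148436927924746885122016244317968088632735765445382714790787288641412378244647462864872019579731154488587062864760326351370008804252926140061927558047848781247613275080728646956036050119058771146114629478433003138661939894808737713295797073295561266402847773218479827958748618236514274141167956290349438293697603936507892486792216056034945525548980999666579272788126167289935364231851383358655898490860524416289797471136576550385302172518378525721320846715655085214974011943755840340211019936073351800291969)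

noncomputable def t98 : Tre := Helper55.PC.toT t98n

theorem ok98 : chk K t98 r102 = true :=
  Helper55.PC.chkN_sound K t98n r102 (by decide +kernel)

noncomputable def t99 : Tre :=
  (.N [0,0,1,-1,2] (-1) ⟨0,[(26,0)]⟩ ⟨0,[(14,0)]⟩ (.i (-1) ⟨0,[(0,0)]⟩ ⟨0,[(6,0),(4,0),(1,2),(1,0),
  (1,0),(8,0),(13,1),(10,1)]⟩))

theorem ok99 : chk K t99 l103 = true := by decide +kernel

noncomputable def t100 : Tre :=
  (.N [0,0,1,-1,2] (-1) ⟨0,[(27,0)]⟩ ⟨0,[(15,0)]⟩ (.i 1 ⟨0,[(32,0),(9,0),(10,1)]⟩ ⟨0,[(0,0)]⟩))

theorem ok100 : chk K t100 l104 = true := by decide +kernel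

open Helper81.PXd in
noncomputable def t101n : Helper81.PXd.Ten :=
  (s
  1395771035853363407941716002390369184874354111256459574326399930116269790062583705117730052719357768189005706732576555585078616605743613998439949978695237409913354564780806083064017547697865307558947300982148527688108199899142857224250899868415834887605643215192261535249608481268634780462073451363499103823351195256573094949598401621709963633622640710607250661193136070488754330128845870510563309680483471358793123268904034789291812621832423146057987333782531631695883905772520795876607036439801737609301664192122771116636330837354611774345890664672696177828473760991111761319101357611154738979354788332568946215171676541345633422076734779713392884449990458640031144235970534939137429731387411265685736038885378173823785889819357131984231188890678442921079227435442445748307926249440112705522065714770803233499301466407892261888471355236461261684458094621436969809565556985716601116576544135006883982692622271105)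

noncomputable def t101 : Tre := Helper81.PXd.toT t101n

theorem ok101 : chk K t101 r104 = true :=
  Helper81.PXd.chkN_sound K t101n r104 (by decide +kernel)

noncomputable def t102 : Tre :=
  (.N [0,-2,0,1,2] (-2) ⟨0,[(0,0)]⟩ ⟨0,[(4,0)]⟩ (.x 2 ⟨0,[(1,0)]⟩ ⟨71,[(0,3),(1,3),(7,17),(4,3),(4,
  196),(1,18),(5,33),(0,3),(2,143),(12,67),(2,67)]⟩))

theorem ok102 : chk K t102 l106 = true := by decide +kernel

noncomputable def t103 : Tre :=
  (.N [0,0,1,-1,2] (-1) ⟨0,[(25,0)]⟩ ⟨0,[(13,0)]⟩ (.i (-1) ⟨0,[(0,0)]⟩ ⟨0,[(5,0),(4,0),(1,2),(1,0),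
  (1,0),(8,0),(13,1),(10,1)]⟩))

theorem ok103 : chk K t103 l107 = true := by decide +kernel

noncomputable def t104 : Tre :=
  (.N [0,0,1,-1,2] (-1) ⟨0,[(27,0)]⟩ ⟨0,[(15,0)]⟩ (.i 0 ⟨0,[(1,0)]⟩ ⟨0,[(0,0)]⟩))

theorem ok104 : chk K t104 l109 = true := by decide +kernel

open Helper55.PC in
noncomputable def t105n : Helper55.PC.Ten :=
  (s
  4349236642290838687122950836183297120318760720359119651431276296776493303269377475921210712868786690469722058228407632684103023262729934523778024302420246795318137559542143544851783037627115048091695457969833366261127052414228138354265545045098401739517067539646258297671284127525778434761375437166102688855633535890320399277340601834932172455857912896895747759529669262350329812504320047907404677049338620068129459755229012611837361114216956781219281989806418023336208768068590146119744820093805237436955761134817784828876585317447693722413339167117330673113434285982236388438857035909733088575810990871937665)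

noncomputable def t105 : Tre := Helper55.PC.toT t105n

theorem ok105 : chk K t105 r109 = true :=
  Helper55.PC.chkN_sound K t105n r109 (by decide +kernel)

open Helper55.PC in
noncomputable def t106n : Helper55.PC.Ten :=
  (s
  4349236642290838687122542938220681962948952307819032247795388331154142335858356795629858687361574354045036582333890627616695995642386847940130542940760987311405139390920768829349605531116077530592890982096162697992102531600634768103897632067264518220632538767838418313024453507742714954652021026715715134218590929171068840731196767791434345513154044742375431935697595167014510127888151425197394482976395416375832551796397684538234255496335755631563324607628306474159508331035735123777403915062460191610812810534926016930648723227587039866413161472469761138666336921986444250312296192150985267251187514793263745)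

noncomputable def t106 : Tre := Helper55.PC.toT t106n

theorem ok106 : chk K t106 r108 = true :=
  Helper55.PC.chkN_sound K t106n r108 (by decide +kernel)

noncomputable def t107 : Tre :=
  (.N [0,0,1,-1,2] (-1) ⟨0,[(24,0)]⟩ ⟨0,[(12,0)]⟩ (.i (-1) ⟨0,[(0,0)]⟩ ⟨0,[(4,0),(4,0),(1,2),(1,0),
  (1,0),(8,0),(13,1),(10,1)]⟩))

theorem ok107 : chk K t107 l110 = true := by decide +kernel

open Helper55.PC in
noncomputable def t108n : Helper55.PC.Ten :=
  (s
  5257904472479429924078596923333305315425677478849308904379802809630453171426215624728497260653476683423973091249590753168210346642876759905613692286671421940277124784711624749318083720533526544532260166086314226076079640703151201124000403631754543524001126432197972104259350234832947527319366102313075524040650785853971641184589341976475050078910668865732220181715826375327029563832776852806641501583154814353327024787616721584915290341601123256448365901393581583695865054520756016446832168415036419347869596232669765629639377510599017498797502085513298722243925943023792223312431248714916843344806115487800518910370184931621360108161)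

noncomputable def t108 : Tre := Helper55.PC.toT t108n

theorem ok108 : chk K t108 r110 = true :=
  Helper55.PC.chkN_sound K t108n r110 (by decide +kernel)

noncomputable def t109 : Tre :=
  (.N [0,-2,0,1,2] (-2) ⟨0,[(1,0)]⟩ ⟨0,[(3,0)]⟩ (.x 2 ⟨0,[(0,0)]⟩ ⟨135,[(1,3),(3,11),(3,33),(4,3),
  (4,372),(1,34),(5,65),(0,3),(2,271),(12,131),(2,131)]⟩))

theorem ok109 : chk K t109 l112 = true := by decide +kernel

noncomputable def t110 : Tre :=
  (.N [0,0,1,-1,2] (-1) ⟨0,[(24,0)]⟩ ⟨0,[(12,0)]⟩ (.i (-1) ⟨0,[(0,0)]⟩ ⟨0,[(4,0),(4,0),(1,2),(1,0),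
  (1,0),(8,0),(13,1),(10,1)]⟩))

theorem ok110 : chk K t110 l113 = true := by decide +kernel

open Helper55.PC in
noncomputable def t111n : Helper55.PC.Ten :=
  (s
  204047335983917099137188366465024478254339409523400255211102546313728658836438388949236542508051410893944469416694145916902937885677506114064351722572116384541676855977977225778355847994880794666802855599576658977502883919812810344452769833424363462625538655717349437392265374375843248490869526348169818859155851593362568968734669038380250896248970192366609116690031655821027067711429202975564248559648838010719166698282671013589065532009593576471937311645013385783969048947076623862902367898107258351861764964433386152533765331511200010683598929257766245092661939572639709028884070130145298888556100821145172466377436768667308921514362286933403241546369)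

noncomputable def t111 : Tre := Helper55.PC.toT t111n

theorem ok111 : chk K t111 r113 = true :=
  Helper55.PC.chkN_sound K t111n r113 (by decide +kernel)

noncomputable def t112 : Tre :=
  (.N [0,0,1,-1,2] (-1) ⟨0,[(24,0)]⟩ ⟨0,[(12,0)]⟩ (.i 1 ⟨0,[(29,0),(9,0),(10,1)]⟩ ⟨0,[(0,0)]⟩))

theorem ok112 : chk K t112 l115 = true := by decide +kernel

noncomputable def t113 : Tre :=
  (.N [0,0,1,-1,2] (-1) ⟨0,[(25,0)]⟩ ⟨0,[(13,0)]⟩ (.i 0 ⟨0,[(0,0)]⟩ ⟨0,[(2,0)]⟩))

theorem ok113 : chk K t113 l116 = true := by decide +kernel

open Helper55.PC in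
noncomputable def t114n : Helper55.PC.Ten :=
  (s
  4349236642290838687122135040258066805579143895278944844159500365531791368447336115338506661854362017620351106439373622549288968020708522312823970261048052863192100169433576947943134794392006621972636383273209260493949593755734413602861871659155026720186458061280291501049406946094772253818389229893521152244079535169754513980164916667943337934116995361300888492749017327949624148221883060846866170949522455451077549833010572552590406664423084222179264047749937103467443194474706395522433562363483594198068355481394023184806430828259504269252370333934419621964643588785914375816857030065128968172008452356309633)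

noncomputable def t114 : Tre := Helper55.PC.toT t114n

theorem ok114 : chk K t114 r116 = true :=
  Helper55.PC.chkN_sound K t114n r116 (by decide +kernel)

open Helper55.PC in
noncomputable def t115n : Helper55.PC.Ten :=
  (s
  4349236642290838687121319244332836490839527070198770036887724434287089433625294754755802610839937344770980154650339612414474912780022349145529007537729533895366103832190827516938779781369931586975027431525867923955900552128547673102126045703487259682417400517664611531755745706528645293599680408992746042969994321731251396887877248580947684048709259052260256845084869137277984778989545815426845782803636048066483733915347916405384195428660681922867349283393714005114042320408996350837751752300793502545782454281610487388350706648538196557252014944639280553070448860794330099563735342547633325522761500198961793)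

noncomputable def t115 : Tre := Helper55.PC.toT t115n

theorem ok115 : chk K t115 r114 = true :=
  Helper55.PC.chkN_sound K t115n r114 (by decide +kernel)

noncomputable def t116 : Tre :=
  (.N [0,0,1,-1,2] (-1) ⟨0,[(22,0)]⟩ ⟨0,[(10,0)]⟩ (.i 0 ⟨0,[(1,0)]⟩ ⟨0,[(0,0)]⟩))

theorem ok116 : chk K t116 l118 = true := by decide +kernel

noncomputable def t117 : Tre :=
  (.N [0,0,1,-1,2] (-1) ⟨0,[(24,0)]⟩ ⟨0,[(12,0)]⟩ (.i (-1) ⟨0,[(1,0)]⟩ ⟨0,[(0,0)]⟩))

theorem ok117 : chk K t117 l120 = true := by decide +kernel

open Helper55.PC in
noncomputable def t118n : Helper55.PC.Ten :=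
  (s
  627671473929292766728014695451361636924673054706959706644301357779156318306743662802741864555419079377998101214504726476648993715853533564680139881369023620100683937945461598311938670091708717468867223268726545009826777936339229693630374472424186688198496149129345608256354194498560451389085591649144056857171775880725738659236147454390998094084314967576344231765543616364623268434807805824701305699385403654943760659814345291843118707074356140064840247848767147007057264634422106491331770803650361979203839402306764664374670377621764086401102580433581349613442054343374241645632996578690174018510035915073717234469819919662482195073)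

noncomputable def t118 : Tre := Helper55.PC.toT t118n

theorem ok118 : chk K t118 r120 = true :=
  Helper55.PC.chkN_sound K t118n r120 (by decide +kernel)

open Helper55.PC in
noncomputable def t119n : Helper55.PC.Ten :=
  (s
  4349236642290838687121319244284020562814068387178584878722038221657321603799157363008786489868881762711264789242981154364532688889394153551396577438859231471055831959992868860505071924230907381760631927777260766815526198035302244492983115492900266956310226343808981266390691138586644245911224734823240685197536796483481568096591083277046352633734175523227742199297076113051595688623945445418631420023761191528979966840990601958132527586087619524874068149118395223968527561969849460225937747225398394160071095410925178903700832326122840814674404025009529691442912662116402067091760976104616332680484420271997569)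

noncomputable def t119 : Tre := Helper55.PC.toT t119n

theorem ok119 : chk K t119 r119 = true :=
  Helper55.PC.chkN_sound K t119n r119 (by decide +kernel)

open Helper55.PC in
noncomputable def t120n : Helper55.PC.Ten :=
  (s
  4349236642290838687120503448358790248074451562098410071450262290412619668977116002426082438854457089861893837453947144229718633648707980384101614715540712503229835622750119429500716911208832346763022976029919430277477156408115503992247289537232499918541168800193301297097029899020517285692515913922465575923451583044978451004303415190050698748326439214187110551632927922379956319391608199998611031877874784144386150923327945810926316350325217225562153384762172125615126687904139415541255937162708302507785194211141643107245108146401533102674048635714390622548717934124817790838639288587120690031237468114649729)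

noncomputable def t120 : Tre := Helper55.PC.toT t120n

theorem ok120 : chk K t120 r117 = true :=
  Helper55.PC.chkN_sound K t120n r117 (by decide +kernel)

noncomputable def t121 : Tre :=
  (.N [0,-3,1,0,-1] (-1) ⟨0,[(1,0)]⟩ ⟨0,[(0,0)]⟩ (.x 1 ⟨1,[(28,0),(3,0),(8,1),(5,0)]⟩ ⟨3,[(5,0),(8,
  0),(0,2),(1,0),(5,1),(3,11),(15,3)]⟩))

theorem ok121 : chk K t121 l123 = true := by decide +kernel

noncomputable def t122 : Tre :=
  (.N [0,1,0,0,7] (-3) ⟨0,[(1,0)]⟩ ⟨0,[(0,0)]⟩ (.x 2 ⟨0,[(18,1),(10,0),(0,1)]⟩ ⟨0,[(6,0),(10,1),(25,
  0)]⟩))

theorem ok122 : chk K t122 l125 = true := by decide +kernel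

noncomputable def t123 : Tre :=
  (.N [0,-2,0,1,2] (-2) ⟨0,[(1,0)]⟩ ⟨0,[(6,0)]⟩ (.x 2 ⟨0,[(0,0)]⟩ ⟨183,[(1,3),(1,11),(5,45),(4,3),
  (4,504),(1,46),(5,89),(0,3),(2,367),(12,179),(2,179)]⟩))

theorem ok123 : chk K t123 l127 = true := by decide +kernel

noncomputable def t124 : Tre :=
  (.N [0,0,1,-1,2] (-1) ⟨0,[(25,0)]⟩ ⟨0,[(13,0)]⟩ (.i 0 ⟨0,[(0,0)]⟩ ⟨0,[(1,0)]⟩))

theorem ok124 : chk K t124 l129 = true := by decide +kernel

open Helper55.PC in
noncomputable def t125n : Helper55.PC.Ten :=
  (s
  1766407220236751181809204596478360956538153345800976218952480094466077098040965997345845000620192567535123349540217953452587212896419383265676959310692317678215014568493797513131549148083985562161432938908637438121281337182994147501479013520145945549642959366234003077826252605608402627117844624270832340093163333414390619407936254385235899090861911749335144840856820923683462216085239462754447940457799653091582987774859104486422590804140886076596143314747390458315904797452875607813256039000912520023055319472500821446721441878167350989373266326343059250759735254190263071486771326183502202884924482844466491306566342410881)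

noncomputable def t125 : Tre := Helper55.PC.toT t125n

theorem ok125 : chk K t125 r129 = true :=
  Helper55.PC.chkN_sound K t125n r129 (by decide +kernel)

open Helper55.PC in
noncomputable def t126n : Helper55.PC.Ten :=
  (s
  1766407220236751181809089783408833531085730062480858450754077862685571436328054720128886703659867522274227589251038919364032807264119326955248667220856441548031634438286365381187212734804497528158749154197527163185238596821333918813717438124473028465351462708283321220218392719326710133594910940818860285495141233490928140600292059474666415206771308481687483382070707099537583942041782278433060384126848078537980452154314329976781551829766471062126995314898748704627243022055772462498885188844819701047851029528876920638021618979233220189705623415574018934802890152873418519261763115160977822381496192102895717776634607043201)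

noncomputable def t126 : Tre := Helper55.PC.toT t126n

theorem ok126 : chk K t126 r128 = true :=
  Helper55.PC.chkN_sound K t126n r128 (by decide +kernel)

noncomputable def t127 : Tre :=
  (.N [0,0,1,-1,2] (-1) ⟨0,[(24,0)]⟩ ⟨0,[(12,0)]⟩ (.i 0 ⟨0,[(0,0)]⟩ ⟨0,[(1,0)]⟩))

theorem ok127 : chk K t127 l131 = true := by decide +kernel

open Helper55.PC in
noncomputable def t128n : Helper55.PC.Ten :=
  (s
  27017869201036834252961204674086048834412424760950091614101731100878273684739603192461032060000196139018927490678730694321483012732175497499006987072642388150044666802151350892118157067570783323055151099553410903111970083987259800251254289308386558190418062038360646928195857643362375448195431739521575039425834431712996678780573395630363677889646870492214190996093681981911825238736321344176858481809462238369420136160577935094774449009922461081297546852760110234483397822219659918024740189739029287257390478504208089837460707883441432908748982685479250736396033441069337563549967134302979778842770867369792414470374017)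

noncomputable def t128 : Tre := Helper55.PC.toT t128n

theorem ok128 : chk K t128 r131 = true :=
  Helper55.PC.chkN_sound K t128n r131 (by decide +kernel)

open Helper55.PC in
noncomputable def t129n : Helper55.PC.Ten :=
  (s
  6275539093667074943315409180184282809141318108319540707482799856027589323357828174136933159286059432326788802451357134670936330408109351227800553063981114202855312825853486506502941933975671282364477864108496422080591864840993929908972100009027160795718917338453418117965296019115578822560179219485432958244647997509001229897602829714297812876277403951874898785105143103541214007653492930929728757671688135720308298561978272461276954233600718787118149253419219756370800033476956756876425985928228592595438387779857510286568214393166681189573972541507098072683323198608859422315473386847368400034633306023658113)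

noncomputable def t129 : Tre := Helper55.PC.toT t129n

theorem ok129 : chk K t129 r130 = true :=
  Helper55.PC.chkN_sound K t129n r130 (by decide +kernel)

noncomputable def t130 : Tre :=
  (.N [0,-2,0,1,2] (-2) ⟨0,[(0,0)]⟩ ⟨0,[(5,0)]⟩ (.x 2 ⟨0,[(1,0)]⟩ ⟨3,[(8,0),(8,0),(0,10),(1,0),(5,
  1),(3,7),(12,3),(2,3)]⟩))

theorem ok130 : chk K t130 l133 = true := by decide +kernel

noncomputable def t131 : Tre :=
  (.N [0,0,1,-1,2] (-1) ⟨0,[(24,0)]⟩ ⟨0,[(12,0)]⟩ (.i 0 ⟨0,[(0,0)]⟩ ⟨0,[(1,0)]⟩))

theorem ok131 : chk K t131 l135 = true := by decide +kernel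

open Helper55.PC in
noncomputable def t132n : Helper55.PC.Ten :=
  (s
  66358847661376169967032280289807395451255307334527555941663392609912394959724402228204884092733061059783933663591873221780255634858005362054710338464451807799742785975903720698048844628868959341152660396403490666612805650921548198147416606246295262810047914887290156588358869775017943362711554931043780102472449817850035196401705367543363685518927164631239290384336652871687422018540129198857662012021493638707748730900768761109584291187911232846878471105812078956200914554567193455890187614297254367340125046923599632044841123275267763996372011909613424571069517267585)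

noncomputable def t132 : Tre := Helper55.PC.toT t132n

theorem ok132 : chk K t132 r135 = true :=
  Helper55.PC.chkN_sound K t132n r135 (by decide +kernel)

open Helper55.PC in
noncomputable def t133n : Helper55.PC.Ten :=
  (s
  66358847661376169965833575912334109948612122238666548922096618095950045848324760514430726529413874366093383216313315391749618962574171890273988222346236660642112674255715879372921605928834960002732849400214201517599010004908192605862265704711566536086922819243487640876222753461780591714965302113154436641652179080524151165374446056353258963339947127427866218218100157386533834323421631598633710362391815298322100913224085643850434835315580499883970254896242610054555679936499586366283568666179757493570050098968740897369286524340370575879878929000868979942746879951489)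

noncomputable def t133 : Tre := Helper55.PC.toT t133n

theorem ok133 : chk K t133 r134 = true :=
  Helper55.PC.chkN_sound K t133n r134 (by decide +kernel)

noncomputable def t134 : Tre :=
  (.N [0,0,1,-1,2] (-1) ⟨0,[(23,0)]⟩ ⟨0,[(11,0)]⟩ (.i 0 ⟨0,[(0,0)]⟩ ⟨0,[(1,0)]⟩))

theorem ok134 : chk K t134 l137 = true := by decide +kernel

open Helper55.PC in
noncomputable def t135n : Helper55.PC.Ten :=
  (s
  1710848465318926223176918772744521702103629037644016698749413736671133232193629826001441340734542849199795675709683870713317067912386736640198247980683612376473176046877544615654707910597449483193561424101498223987514250617119471295563245496357039354037283005255646593556209817500934135286979851497074968624397586301923742899719858366542827151714647387241546171189070765640110311311703366369031414279128323969360010279995634038503475133250554280196590331944492300347595366684056139679486030988247344782439022285116815636067581118490107191445690651399378076096121770277882133535391844875363156609)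

noncomputable def t135 : Tre := Helper55.PC.toT t135n

theorem ok135 : chk K t135 r137 = true :=
  Helper55.PC.chkN_sound K t135n r137 (by decide +kernel)

open Helper55.PC in
noncomputable def t136n : Helper55.PC.Ten :=
  (s
  127921966671170066119501999754765205210565697412493597198013177771165126519028768467087660176448526226855181029033302376904173189782717055299717468329233905137360486326622641818012110874334290581931881176852034861138099982736843012770584297564893364878637183328017092585340908135960192897114146562854865792365595822028656573038512828540991925408665286768144157344905130496660494702381621302388309736231732905924583647826511905176770662379279456627629074241799005689580206303042662534101876734570432618073075671674186682324269886961763680410370694819296952416105313629399944799300271422092545350409972299596417)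

noncomputable def t136 : Tre := Helper55.PC.toT t136n

theorem ok136 : chk K t136 r136 = true :=
  Helper55.PC.chkN_sound K t136n r136 (by decide +kernel)

noncomputable def t137 : Tre :=
  (.N [0,-2,0,1,2] (-2) ⟨0,[(0,0)]⟩ ⟨0,[(3,0)]⟩ (.x 2 ⟨0,[(1,0)]⟩ ⟨3,[(6,0),(8,0),(0,10),(1,0),(5,
  1),(3,7),(12,3),(2,3)]⟩))

theorem ok137 : chk K t137 l139 = true := by decide +kernel

noncomputable def t138 : Tre :=
  (.N [0,1,0,0,5] (-2) ⟨0,[(1,0)]⟩ ⟨0,[(0,0)]⟩ (.x 1 ⟨88,[(1,5),(6,14),(10,117),(10,88),(0,115),(0,
  1),(1,1)]⟩ ⟨0,[(7,0),(10,0),(25,0)]⟩))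

theorem ok138 : chk K t138 l141 = true := by decide +kernel

noncomputable def t139 : Tre :=
  (.N [0,1,2,2] 0 ⟨0,[(0,0)]⟩ ⟨0,[(1,0)]⟩ (.x 0 ⟨57,[(1,57),(1,1),(5,9),(2,105),(1,105),(3,101),(9,
  101),(4,71),(0,6),(0,9),(2,6),(1,122)]⟩ ⟨86,[(1,86),(1,2),(5,14),(2,158),(1,158),(8,21),(5,217),
  (5,14),(6,85),(3,173),(1,86),(0,260)]⟩))

theorem ok139 : chk K t139 l144 = true := by decide +kernel

noncomputable def t140 : Tre :=
  (.N [0,0,1,-1,2] (-1) ⟨0,[(26,0)]⟩ ⟨0,[(14,0)]⟩ (.i 0 ⟨0,[(0,0)]⟩ ⟨0,[(3,0)]⟩))

theorem ok140 : chk K t140 l145 = true := by decide +kernel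

open Helper55.PC in
noncomputable def t141n : Helper55.PC.Ten :=
  (s
  1050662621961305505792407040808980242215895250246027786861995773960193600281900116568467244246719655647327889947057134156947396300680838874905168341257137279254392574136032261652434445668836930429409302931306751924290316454605939762587402723765666640127391514467561925807311827350220612204952671737408531197954344183671637037350913002072471804387611841128328449205605388696000815215478220168377243033354054128313383778985283352906481561759119315800371398240520907093616010479949837002025252626412030278559089306112485014311602358528325524322318215947310986181180319117410522963895246517661640276159863917516740363205056200142728014350110425729)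

noncomputable def t141 : Tre := Helper55.PC.toT t141n

theorem ok141 : chk K t141 r145 = true :=
  Helper55.PC.chkN_sound K t141n r145 (by decide +kernel)

noncomputable def t142 : Tre :=
  (.N [0,0,1,-1,2] (-1) ⟨0,[(25,0)]⟩ ⟨0,[(13,0)]⟩ (.i 0 ⟨0,[(0,0)]⟩ ⟨0,[(2,0)]⟩))

theorem ok142 : chk K t142 l146 = true := by decide +kernel

noncomputable def t143 : Tre :=
  (.N [0,0,1,-1,2] (-1) ⟨0,[(26,0)]⟩ ⟨0,[(14,0)]⟩ (.i 1 ⟨0,[(31,0),(9,0),(10,1)]⟩ ⟨0,[(0,0)]⟩))

theorem ok143 : chk K t143 l147 = true := by decide +kernel

open Helper55.PC in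
noncomputable def t144n : Helper55.PC.Ten :=
  (s
  80229255256338959554224166441466736926552506794377846255654486094020418031130326974834849519228157307967232049619011376947663363994212892813955491896955492944661828001363804953152247897141599474057370718051754041471744465237873512372760463588034608743890825379963200896801833473165920381179701801356913099431081722802025653019824913073174728816400239518943695882074521834354020927711260958343669402241843300164728452991262055665087660732458984071253575402630408648633998409667774264494195732533031454067274595391464509730471129811590753610704820922355946592666599581901333911808480444725695212167848232390025205444470295315350145)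

noncomputable def t144 : Tre := Helper55.PC.toT t144n

theorem ok144 : chk K t144 r147 = true :=
  Helper55.PC.chkN_sound K t144n r147 (by decide +kernel)

open Helper55.PC in
noncomputable def t145n : Helper55.PC.Ten :=
  (s
  18679829141204003140842913015161894462816992287378788945661629575332338198339162995140949735369367583115349536751973082872011073294510457619796559560479889745914545711373471736243053000413256929276862823385713148916435549083309959442732977994109936197132250531447056707869453896516252422488224470573076146757765417224873057441106805559476063138384410198840833585266401506324816023903823592347376967110977724528275633902736045754940615083266757393588858845410731188061353445419263165631722656244706968366943586563374070564134360494585594785629263707372232103208596640870191054099063614799407357528685843930499536483517057)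

noncomputable def t145 : Tre := Helper55.PC.toT t145n

theorem ok145 : chk K t145 r142 = true :=
  Helper55.PC.chkN_sound K t145n r142 (by decide +kernel)

noncomputable def t146 : Tre :=
  (.N [0,0,1,-1,2] (-1) ⟨0,[(22,0)]⟩ ⟨0,[(10,0)]⟩ (.i (-1) ⟨0,[(0,0)]⟩ ⟨0,[(2,0),(4,0),(1,2),(1,0),
  (1,0),(8,0),(13,1),(10,1)]⟩))

theorem ok146 : chk K t146 l148 = true := by decide +kernel

open Helper55.PC in
noncomputable def t147n : Helper55.PC.Ten :=
  (s
  398337949374440643744770138804606683090835087471704598412836537469390914694969568287389620899434552162600909784586909947131490144396341080082340915827152015548281536365154755028086245916701485175878586921157065335993548835551009053514834362167943328669443129078621995246846774807095198702173090239751149959402075525649058576976392374511717054857245676980458356110184822649404899643568372770127738754703385883878831806619465818488880027771686576824408458807476765050567384058191081015560639146782483179707845521793021312969349543953466556974337092193160625985607878991922055854462861953)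

noncomputable def t147 : Tre := Helper55.PC.toT t147n

theorem ok147 : chk K t147 l149 = true :=
  Helper55.PC.chkN_sound K t147n l149 (by decide +kernel)

open Helper55.PC in
noncomputable def t148n : Helper55.PC.Ten :=
  (s
  398337949374440643744770138804606683090835087471704598412836537469390914694969568287389620899434552162600909784586909947131490144396341080082340915827152015548281536365154755028086245916701485175878586921157065335993548835551009053514834362167943328669443129078621995246846774807095198702173090239751149959402075525649058576976392374511717054857245676980458356110184822649404899643568372770127738754703385883878831806619465818488880027771686576824408458807476765050567384058191081015560639146782483179707845521793021312969349543953466556974337092193160625985607878991922055854462861953)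

noncomputable def t148 : Tre := Helper55.PC.toT t148n

theorem ok148 : chk K t148 r149 = true :=
  Helper55.PC.chkN_sound K t148n r149 (by decide +kernel)

noncomputable def t149 : Tre :=
  (.N [0,0,1,-1,2] (-1) ⟨0,[(21,0)]⟩ ⟨0,[(9,0)]⟩ (.i 1 ⟨0,[(26,0),(9,0),(10,1)]⟩ ⟨0,[(0,0)]⟩))

theorem ok149 : chk K t149 l151 = true := by decide +kernel

noncomputable def t150 : Tre :=
  (.N [0,0,1,-1,2] (-1) ⟨0,[(22,0)]⟩ ⟨0,[(10,0)]⟩ (.i 0 ⟨0,[(0,0)]⟩ ⟨0,[(2,0)]⟩))

theorem ok150 : chk K t150 l152 = true := by decide +kernel

open Helper55.PC in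
noncomputable def t151n : Helper55.PC.Ten :=
  (s
  112122165023141142738097244498429531425885991871139059129612750042551553090604528652999973595621539138038535044711600760488860651059513249596047387866820067096632663418690384314424202578900992021552138308538106430879207621441402042946598030996151133481222580621302606084562766419689932515656990243522477808998704171991168688694207075684592814294860977310100741327547397668015140246048299859963203389726579285064704666966296011619404946691542959248400995621750973706246348896459965525705589318627739310118770486621512937838956864533181194780263271995453535705178338317356669522741448231455883581719169)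

noncomputable def t151 : Tre := Helper55.PC.toT t151n

theorem ok151 : chk K t151 r152 = true :=
  Helper55.PC.chkN_sound K t151n r152 (by decide +kernel)

noncomputable def t152 : Tre :=
  (.N [0,0,1,-1,2] (-1) ⟨0,[(21,0)]⟩ ⟨0,[(9,0)]⟩ (.i (-1) ⟨0,[(0,0)]⟩ ⟨0,[(4,0),(1,0),(1,2),(1,0),
  (1,0),(8,0),(13,1),(10,1)]⟩))

theorem ok152 : chk K t152 l153 = true := by decide +kernel

open Helper55.PC in
noncomputable def t153n : Helper55.PC.Ten :=
  (s
  142525397330170734784002588980445623058517075265685449433509900135758959578743418000405374038551767033398927249416134679497425837051133899074992203963258834765007764969674515463788196186445087599631268118663696802959270704235417647465020614357041631653393865503464318845200004173832840991814278821225235732527448491524456590634435278432721860608556357611895223008001030939062698480214977653087094642320593626823332098808608764161157574759129564570052447695972312689500044745300800101993245314312026809759436192799630518784144902899372244144974462871685354224136649129852672621740768139827905007310001660777776048336332834292899937539213830914689)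

noncomputable def t153 : Tre := Helper55.PC.toT t153n

theorem ok153 : chk K t153 r153 = true :=
  Helper55.PC.chkN_sound K t153n r153 (by decide +kernel)

noncomputable def t154 : Tre :=
  (.N [0,-1,1,-1,-1] 0 ⟨0,[(2,0)]⟩ ⟨0,[(1,0)]⟩ (.x 0 ⟨0,[(0,0)]⟩ ⟨13,[(5,5),(0,4),(8,4),(1,3),(0,1),
  (9,21),(4,3),(10,3)]⟩))

theorem ok154 : chk K t154 l156 = true := by decide +kernel

noncomputable def t155 : Tre :=
  (.N [0,0,1,-1,2] (-1) ⟨0,[(22,0)]⟩ ⟨0,[(10,0)]⟩ (.i 0 ⟨0,[(0,0)]⟩ ⟨0,[(1,0)]⟩))

theorem ok155 : chk K t155 l158 = true := by decide +kernel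

open Helper55.PC in
noncomputable def t156n : Helper55.PC.Ten :=
  (s
  176673813506190806188437015361683336345139159325243360244787495113308221945620539140660647023583854308499460680921220793477461862543410874577425060577737922099278142729829641751128252148854900217279788606979914843962259611082152558619436684476404078047520965056168033250238170605490244360429115670772983545056982667026350870440139975243711063575158712995532948308687544101292877479923069262077283013554013505981583855101200518795038223142829620997653918464424549726580333876723236890636036520638105040347219701596109625905849042732114430921661599296535525065064199690765538403054237858512025513335064857900632926211655619747340347914981208352621185)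

noncomputable def t156 : Tre := Helper55.PC.toT t156n

theorem ok156 : chk K t156 r158 = true :=
  Helper55.PC.chkN_sound K t156n r158 (by decide +kernel)

open Helper55.PC in
noncomputable def t157n : Helper55.PC.Ten :=
  (s
  2500407833288672874432670682798176216717616990504482580246403894570757372705443870905987253754226745797554190549183374046365278377772995617985272850806783610606054753621313376073618442568242880096270253156166372923637905689104482332884963619441696947522257565992181187307905298847046352580901098500983965517351869953587389362058109980821050928505304503935962085853709122815077402766929903309651386746119888998868838654430894684886426711118591381234604852109994300801482529849456814310150708085118661807597784222278395296686494124993435980591528658068342652564070028937171385621944336488943614816494107695800604522016724049523080794868930314881)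

noncomputable def t157 : Tre := Helper55.PC.toT t157n

theorem ok157 : chk K t157 r157 = true :=
  Helper55.PC.chkN_sound K t157n r157 (by decide +kernel)

noncomputable def t158 : Tre :=
  (.N [0,-3,1,0,-1] (-1) ⟨0,[(0,0)]⟩ ⟨0,[(1,0)]⟩ (.x 1 ⟨1,[(30,0),(3,0),(8,1),(5,0)]⟩ ⟨3,[(7,0),(8,
  0),(0,2),(1,0),(5,1),(3,11),(15,3)]⟩))

theorem ok158 : chk K t158 l160 = true := by decide +kernel

noncomputable def t159 : Tre :=
  (.N [0,0,1,-1,2] (-1) ⟨0,[(23,0)]⟩ ⟨0,[(11,0)]⟩ (.i 0 ⟨0,[(0,0)]⟩ ⟨0,[(1,0)]⟩))

theorem ok159 : chk K t159 l162 = true := by decide +kernel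

open Helper55.PC in
noncomputable def t160n : Helper55.PC.Ten :=
  (s
  703802236642071105714119870540206679446471176250367140161465826203772535644049655419981393043090747200415790166073020895893542744584187369375130759446180250796174446231684166001449338202834945327823265549027254556980508277607387136184252991450970304175802610488804355661472721439041324844902338239375346147998844140592946050700069987058172089610325883618208946466066535487114325394749347075026390454625686655150422838433936161932800297687338490004841799417258435420512153948312262526287804445353460885633691871472955946291119734078061602847597985864342977240208149979021845242145332195415598596657331491514946827669883137402592771645245046618402434021589633)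

noncomputable def t160 : Tre := Helper55.PC.toT t160n

theorem ok160 : chk K t160 r162 = true :=
  Helper55.PC.chkN_sound K t160n r162 (by decide +kernel)

noncomputable def t161 : Tre :=
  (.N [0,0,1,-1,2] (-1) ⟨0,[(24,0)]⟩ ⟨0,[(12,0)]⟩ (.i (-1) ⟨0,[(1,0)]⟩ ⟨0,[(0,0)]⟩))

theorem ok161 : chk K t161 l164 = true := by decide +kernel

open Helper55.PC in
noncomputable def t162n : Helper55.PC.Ten :=
  (s
  9204862642376718281159489721663974528365276256729313112181658295332972239584037672012472253092132237002894073592377508782766975382750814367230948197036377929430509205739140260436750184249742614636048377324680241199065609737013517845313692442463350161317822896167228610376685332462312122754519108018629965369614733703090188633800987390638574332660497591551695778378855532067135762540579190781787608299985246466187037714920561538488913009100162733597031844454774725229997447930678146906404736188060365541696218539569496020385616094899000310327137964807654983037688155649383377504002081574343843864238460708621176856268072598854322212633304087976189951661310593)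

noncomputable def t162 : Tre := Helper55.PC.toT t162n

theorem ok162 : chk K t162 r164 = true :=
  Helper55.PC.chkN_sound K t162n r164 (by decide +kernel)

open Helper55.PC in
noncomputable def t163n : Helper55.PC.Ten :=
  (s
  703802236642071105714119870540206679446471176250367140161465826203772535644049655419981393043090747200415790166073020895893542744584187369375130759446180250796174446231684166001449338202834945327823265549027254556980508277607387136184252991450970304175802610488804355661472721439041324844902338239375346147998844140592946050700069987058172089610325883618208946466066535487114325394749347075026390454625686655150422838433936161932800297687338490004841799417258435420512153948312262526287804445353460885633691871472955946291119734078061602847597985864342977240208149979021845242145332195415598596657331491514946827669883137402592771645245046618402434021589633)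

noncomputable def t163 : Tre := Helper55.PC.toT t163n

theorem ok163 : chk K t163 r163 = true :=
  Helper55.PC.chkN_sound K t163n r163 (by decide +kernel)

noncomputable def t164 : Tre :=
  (.N [0,1,0,0,5] (-2) ⟨0,[(1,0)]⟩ ⟨0,[(0,0)]⟩ (.x 1 ⟨88,[(1,5),(6,14),(10,117),(10,88),(0,115),(0,
  1),(1,1)]⟩ ⟨0,[(7,0),(10,0),(25,0)]⟩))

theorem ok164 : chk K t164 l166 = true := by decide +kernel

noncomputable def t165 : Tre :=
  (.N [0,0,1,-1,2] (-1) ⟨0,[(24,0)]⟩ ⟨0,[(12,0)]⟩ (.i (-1) ⟨0,[(1,0)]⟩ ⟨0,[(0,0)]⟩))

theorem ok165 : chk K t165 l168 = true := by decide +kernel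

open Helper55.PC in
noncomputable def t166n : Helper55.PC.Ten :=
  (s
  6355914883628612348765212180368851079533285113913036904322122383049347456589916623618744287464984411238065324452314116659606620982862871742788171000437438610279012202961964325805184652463703064781037417937197210656481034642035277128455254460405094632765531938506727278017950197739917240031854804930177032517951953335114567548188621375471930717189399949798389759496493746890991274779662095230269243909330588203009674029367293395443044710724807114662708194344572341116372389163309802170212149476021421847354566017204298699032184166701604064629122150545712054964389631810228038031717043072601639693847421522157547916700418689)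

noncomputable def t166 : Tre := Helper55.PC.toT t166n

theorem ok166 : chk K t166 r168 = true :=
  Helper55.PC.chkN_sound K t166n r168 (by decide +kernel)

open Helper55.PC in
noncomputable def t167n : Helper55.PC.Ten :=
  (s
  80229255256338959554201593272592593931778523605574272507497267409646050205533481966271853671485793877229698383920006798823756445670030092247835241214983375360829594925806104065509876846342974764576553641150358640350069407896474791682057149468998380301867981052205124412282353220710938674429089243664586045362390503523688322512686031102300622410973144762402556800532322909589230812666498042390154587982714643991468473243923619901074312310558661598391208908302146419542416832981277742771809051725553662332868908222422839191890602558114996247945981029747846072661883189574929984457506198552633389689062698650474670898330210405450369)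

noncomputable def t167 : Tre := Helper55.PC.toT t167n

theorem ok167 : chk K t167 r167 = true :=
  Helper55.PC.chkN_sound K t167n r167 (by decide +kernel)

noncomputable def t168 : Tre :=
  (.N [0,0,1,-1,2] (-1) ⟨0,[(23,0)]⟩ ⟨0,[(11,0)]⟩ (.i (-1) ⟨0,[(1,0)]⟩ ⟨0,[(0,0)]⟩))

theorem ok168 : chk K t168 l170 = true := by decide +kernel

open Helper55.PC in
noncomputable def t169n : Helper55.PC.Ten :=
  (s
  5257489566774821173041106153178468401644742947807080979220825559919021079485071293865945354723888640315473507954683147963475237541902242384206873561658088265533732537282527977099234239889200625456333618245732664180804133894939130168846896237071210041380261882788365004886923011636148560667866199180028711480579591097563697297320134400601142704898565451676760905079401575551834117632733950429520422400996676035085409807743305536397088816252826684159124326806612443738257310573677885553992190968516632202906190639246137445829525292176128257895518325090576726737559276321358188056622202336074336830081)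

noncomputable def t169 : Tre := Helper55.PC.toT t169n

theorem ok169 : chk K t169 r170 = true :=
  Helper55.PC.chkN_sound K t169n r170 (by decide +kernel)

open Helper55.PC in
noncomputable def t170n : Helper55.PC.Ten :=
  (s
  7348038206956578338381663351171667568654325479902687661355832086233597213781073907976834890067456713485728562646220410232656309063049580744718175860609044397840525163374405907597969750559992602839021960890050401075539561656565567471200273607941189862294458569586226579733831735941101194758885331534551345531885518887879317796130148818680996013687101524780823785079585926352623487948166800004479148451113259008157202134190440449692235262886441157041602486085622405874751629910905927266183028632391539291410413076766077402961052710464269206713436301825538617281050730298970560674309968081238062788781277825)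

noncomputable def t170 : Tre := Helper55.PC.toT t170n

theorem ok170 : chk K t170 l171 = true :=
  Helper55.PC.chkN_sound K t170n l171 (by decide +kernel)

open Helper55.PC in
noncomputable def t171n : Helper55.PC.Ten :=
  (s
  7348038206956578338381663351171667568654325479902687661355832086233597213781073907976834890067456713485728562646220410232656309063049580744718175860609044397840525163374405907597969750559992602839021960890050401075539561656565567471200273607941189862294458569586226579733831735941101194758885331534551345531885518887879317796130148818680996013687101524780823785079585926352623487948166800004479148451113259008157202134190440449692235262886441157041602486085622405874751629910905927266183028632391539291410413076766077402961052710464269206713436301825538617281050730298970560674309968081238062788781277825)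

noncomputable def t171 : Tre := Helper55.PC.toT t171n

theorem ok171 : chk K t171 r171 = true :=
  Helper55.PC.chkN_sound K t171n r171 (by decide +kernel)

noncomputable def t172 : Tre :=
  (.N [0,1,1,-2,-1] 1 ⟨0,[(1,0)]⟩ ⟨0,[(0,0)]⟩ (.x (-2) ⟨3,[(6,0),(8,0),(0,10),(1,0),(5,1),(3,3),(12,
  7),(2,3)]⟩ ⟨0,[(28,0),(4,0)]⟩))

theorem ok172 : chk K t172 l173 = true := by decide +kernel

noncomputable def t173 : Tre :=
  (.N [0,0,1,-1,2] (-1) ⟨0,[(22,0)]⟩ ⟨0,[(10,0)]⟩ (.i 0 ⟨0,[(0,0)]⟩ ⟨0,[(1,0)]⟩))

theorem ok173 : chk K t173 l175 = true := by decide +kernel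

open Helper55.PC in
noncomputable def t174n : Helper55.PC.Ten :=
  (s
  163866727762406474595248037148255611656945650172867378376156084171611732137098326591184100138017329565766453522767141873815882430537429765638535951695681633119508875992367544959150100780010444491576847534101982662859955569707961594771722610179746426339276848017780475196826348758470712892596312292479378609877297738746735685908537742730345568886658490251707002605699415586678893291399714941609424752401085124333604169135352945916669294977092954206579393935144079321261392150301123664591354159953091506756374955542615081442989699751209547957630158948151054657234577803835540501441957394723401189532856148192457666182294221419349070404577791858180737)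

noncomputable def t174 : Tre := Helper55.PC.toT t174n

theorem ok174 : chk K t174 r175 = true :=
  Helper55.PC.chkN_sound K t174n r175 (by decide +kernel)

noncomputable def t175 : Tre :=
  (.N [0,0,1,-1,2] (-1) ⟨0,[(23,0)]⟩ ⟨0,[(11,0)]⟩ (.i (-1) ⟨0,[(1,0)]⟩ ⟨0,[(0,0)]⟩))

theorem ok175 : chk K t175 l177 = true := by decide +kernel

open Helper55.PC in
noncomputable def t176n : Helper55.PC.Ten :=
  (s
  3259056622274991792741842546791694195444291580300597646720713147225236359295637808386219249212983254443152148372564571142321224689695465481622268198168189693390966470876135111119983096831462181356556806574004440865298223207253718664800679398966359245111844603760659079632970517071219100656715262624296229736157757694943944938094535726745028204686840653043123510280629718400549688963766533743465202978125569580156124017871773380163779440446960299453043197925047317333203081820158819287205345075057297684997851222338913703950093229123268222166463562705704352423297333494183903103557362851842745849593874874116602423618954736001577927627863797618880756890680733436215937)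

noncomputable def t176 : Tre := Helper55.PC.toT t176n

theorem ok176 : chk K t176 r177 = true :=
  Helper55.PC.chkN_sound K t176n r177 (by decide +kernel)

open Helper55.PC in
noncomputable def t177n : Helper55.PC.Ten :=
  (s
  163866727762406474595248037148255611656945650172867378376156084171611732137098326591184100138017329565766453522767141873815882430537429765638535951695681633119508875992367544959150100780010444491576847534101982662859955569707961594771722610179746426339276848017780475196826348758470712892596312292479378609877297738746735685908537742730345568886658490251707002605699415586678893291399714941609424752401085124333604169135352945916669294977092954206579393935144079321261392150301123664591354159953091506756374955542615081442989699751209547957630158948151054657234577803835540501441957394723401189532856148192457666182294221419349070404577791858180737)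

noncomputable def t177 : Tre := Helper55.PC.toT t177n

theorem ok177 : chk K t177 r176 = true :=
  Helper55.PC.chkN_sound K t177n r176 (by decide +kernel)

noncomputable def t178 : Tre :=
  (.N [0,0,1,-2,-2] 1 ⟨0,[(0,0)]⟩ ⟨0,[(1,0)]⟩ (.x (-2) ⟨31,[(1,3),(5,7),(4,3),(2,3),(1,24),(1,8),(1,
  3),(3,13),(0,3),(2,59),(13,59),(1,27)]⟩ ⟨0,[(29,1),(4,0)]⟩))

theorem ok178 : chk K t178 l179 = true := by decide +kernel

noncomputable def t179 : Tre :=
  (.N [0,3,0,0,5] (-1) ⟨0,[(2,0)]⟩ ⟨0,[(1,0)]⟩ (.x 0 ⟨28,[(2,3),(7,9),(10,17),(10,86),(0,13),(0,3),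
  (1,3)]⟩ ⟨0,[(0,0)]⟩))

theorem ok179 : chk K t179 l182 = true := by decide +kernel

noncomputable def t180 : Tre :=
  (.N [0,3,0,0,5] (-1) ⟨0,[(3,0)]⟩ ⟨0,[(2,0)]⟩ (.x 1 ⟨0,[(0,0)]⟩ ⟨3,[(11,0),(8,0),(0,3),(1,1),(24,
  3),(4,3)]⟩))

theorem ok180 : chk K t180 l183 = true := by decide +kernel

noncomputable def t181 : Tre :=
  (.N [0,0,1,-1,2] (-1) ⟨0,[(27,0)]⟩ ⟨0,[(15,0)]⟩ (.i 0 ⟨0,[(0,0)]⟩ ⟨0,[(1,0)]⟩))

theorem ok181 : chk K t181 l185 = true := by decide +kernel

open Helper55.PC in
noncomputable def t182n : Helper55.PC.Ten :=
  (s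
  2143134165276320618369716318270071115107186865248655455012335408986958274201447260876734718028214493831261446271096049895815886206077884975346191400037784820561465855852489519601542769053074980507636679822478972380361838629014796935637625688585459846736436195080895864200671685658922009528898478357368018567780535658523831238552201051446459118974512409445586701096870119097787624649323367840700942457151004578284887810684235745886447179228047687407491879091037075646719723096362078295743942266470750410842852715647308805220116927272297610392344290154390632467755949640473219828950065654913718440896781737474976913673970865134552016829695870534419073)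

noncomputable def t182 : Tre := Helper55.PC.toT t182n

theorem ok182 : chk K t182 r185 = true :=
  Helper55.PC.chkN_sound K t182n r185 (by decide +kernel)

open Helper55.PC in
noncomputable def t183n : Helper55.PC.Ten :=
  (s
  703802236642071222920697365562377656779358659121145555587817648061810056491062501109552972613254592129470290492887421628004057452884487497767818645254958730712264035087084216368659983739863020315306581120249040506513294323787637004165882937682758606227042793689422660950037502003117668795543971350163773006077577369794747468606459579892495799584266593365654612717821222346547571016068186973351132455405726841767467668179753924657809240033864138679526460520555330412434219724922424307154349707240480823951996837129892690553409706311501241932125936633534382244410484282777113513062698022837486935770549296002549247298124271379184537599463476612395218953568897)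

noncomputable def t183 : Tre := Helper55.PC.toT t183n

theorem ok183 : chk K t183 r184 = true :=
  Helper55.PC.chkN_sound K t183n r184 (by decide +kernel)

noncomputable def t184 : Tre :=
  (.N [0,0,1,-1,2] (-1) ⟨0,[(25,0)]⟩ ⟨0,[(13,0)]⟩ (.i (-1) ⟨0,[(1,0)]⟩ ⟨0,[(0,0)]⟩))

theorem ok184 : chk K t184 l187 = true := by decide +kernel

open Helper55.PC in
noncomputable def t185n : Helper55.PC.Ten :=
  (s
  1772759031616588542571521285162160244213928268324551874242808118427848753555127970453393426573553018183581620780620789525960168411939419648161866274567392895195609457266237173849592512422446759597519521532292443288276438416251513639267138362415511867156818103698949271327107682998763129625735622252745849906544572629609645638965645953163594685247625824340356061751585888149642877238208322477233764563656400093963202059012283880442291261712826293076535387318044606056162552253289456956136743859180735432985148738267784367509935931154003011724227250311379057038042777189829184586752325408953429788333708353720769733009047814785)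

noncomputable def t185 : Tre := Helper55.PC.toT t185n

theorem ok185 : chk K t185 r187 = true :=
  Helper55.PC.chkN_sound K t185n r187 (by decide +kernel)

noncomputable def t186 : Tre :=
  (.N [0,0,1,-1,2] (-1) ⟨0,[(26,0)]⟩ ⟨0,[(14,0)]⟩ (.i 0 ⟨0,[(1,0)]⟩ ⟨0,[(0,0)]⟩))

theorem ok186 : chk K t186 l189 = true := by decide +kernel

open Helper55.PC in
noncomputable def t187n : Helper55.PC.Ten :=
  (s
  31559583788636988911136703113718894717120813136453776330951047091076880683326352699391239389041058124796833057871994557466149246597001011602019754915234339506268917797471975370223427158688541369061245652367503974787961877766524766522610886713836147542163420886824871029190447295791630540237796630332728683162672301443187711046621838773005973451385139730272267312052869922292541635592205311869382195325561664342213370877322365058782640004088858106948546917329277876848347240654958776532225135829939840309071550741950162163076628999341888444519618705096066333269233744517030697858428197197412578269496645072182051457)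

noncomputable def t187 : Tre := Helper55.PC.toT t187n

theorem ok187 : chk K t187 r189 = true :=
  Helper55.PC.chkN_sound K t187n r189 (by decide +kernel)

open Helper55.PC in
noncomputable def t188n : Helper55.PC.Ten :=
  (s
  31559583788636987159228293576587357496611167784766178640646779121385216387714521670690062554243986351110779910989539808845044950456532368968478915020794645017879546481732176031865998483249887628790645727651889538213062243590850949691032543266762643422918901294978485490029653859852268814157713134569957417098617161248529709151242198441472312466487483068497837504579816479937411550637318644963447418188532322426917265599172099142559586583946288916313567276276171630794900905020766416241886530915589466012909654840613376814772644711215493461719360888132859946250211286738156778634165148238347063445663560544048644737)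

noncomputable def t188 : Tre := Helper55.PC.toT t188n

theorem ok188 : chk K t188 r188 = true :=
  Helper55.PC.chkN_sound K t188n r188 (by decide +kernel)

noncomputable def t189 : Tre :=
  (.N [0,0,1,-1,2] (-1) ⟨0,[(24,0)]⟩ ⟨0,[(12,0)]⟩ (.i (-1) ⟨0,[(1,0)]⟩ ⟨0,[(0,0)]⟩))

theorem ok189 : chk K t189 l191 = true := by decide +kernel

open Helper55.PC in
noncomputable def t190n : Helper55.PC.Ten :=
  (s
  1772759031616588542571521285162160244213928268229580729017794591300402420865207678385182175227438488653021059252309235163688807493540542649048696219994529651480168188660718324835601385481577284289578254085148576116248862537937160939100720627672362368288991957102792919644611763426267909928600506502536749796661556901089054683989601297741989486922769776299489372151881075031513297678785184855706593493359872549415991761759766797979575781227589299171109116666338570807513140661996378584983037995683778146628028413126693180455099238182352436681177696714402717489757455028661893061913580681824408975375340502692748408369114514049)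

noncomputable def t190 : Tre := Helper55.PC.toT t190n

theorem ok190 : chk K t190 r191 = true :=
  Helper55.PC.chkN_sound K t190n r191 (by decide +kernel)

open Helper55.PC in
noncomputable def t191n : Helper55.PC.Ten :=
  (s
  2068288883172113360841046392984324214331269256406039478929866305175675718630824975616423289464412097985817714178433372101203483569395799405454769208158798219909582281130152909547185185251169412595675685075069217345586002345296089319202872123235738267446795443325220579685699878123834268843871184030558773901427138943989429394504608499525549457191218036404976214975034792032806592887360409511629806889498937288108010502348642919141816793724922408088874913292912941771779851726544322517567305521261528927932692322986770514911784552993489321883131957203360189151560547618726079252283295426740915254065620282819118357283457)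

noncomputable def t191 : Tre := Helper55.PC.toT t191n

theorem ok191 : chk K t191 r190 = true :=
  Helper55.PC.chkN_sound K t191n r190 (by decide +kernel)

noncomputable def t192 : Tre :=
  (.N [0,0,1,-1,2] (-1) ⟨0,[(22,0)]⟩ ⟨0,[(10,0)]⟩ (.i 0 ⟨0,[(0,0)]⟩ ⟨0,[(1,0)]⟩))

theorem ok192 : chk K t192 l193 = true := by decide +kernel

open Helper55.PC in
noncomputable def t193n : Helper55.PC.Ten :=
  (s
  758808251068692606115211394334140742744287253540090446319360494432684600797411924303933931743379672875650779640187117942902600473623269077720793354184392337777179967393950930557619187442596352539967714779034342222991099987799980209715618118998840481108513935459365666643109508348795439024554523545068762212897217306048147212527281577654285773697188107208823403873709915983370769322540257794781490350008265493381822925044450271707468030044100488293281343958272553106077175554203587711275271909514468140450488191511445700676041357645990700899829496675238386768268637132720272220287201785815001784001897777441839829712527943548956530705881410799374862811923073)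

noncomputable def t193 : Tre := Helper55.PC.toT t193n

theorem ok193 : chk K t193 r193 = true :=
  Helper55.PC.chkN_sound K t193n r193 (by decide +kernel)

noncomputable def t194 : Tre :=
  (.N [0,0,1,-1,2] (-1) ⟨0,[(23,0)]⟩ ⟨0,[(11,0)]⟩ (.i (-1) ⟨0,[(1,0)]⟩ ⟨0,[(0,0)]⟩))

theorem ok194 : chk K t194 l195 = true := by decide +kernel

open Helper55.PC in
noncomputable def t195n : Helper55.PC.Ten :=
  (s
  758808251068692606115211394334140744862214564415765378326343639573370190173303198159257706537140359739575569604654929400962064716019721445705289814965462469837840931938711547097827520293928586480903433767072228720982195239617049758554022283382660116114155762919662662121259312706830352454032125207215079914535854742713388839548846167743614163083960446287127802393671276670648544472548790452846438484056983544873542137758616352092835802082460779151427148059957480597713662039121786532269257594595684942896101850520668495018835383675005969781782511765805843990919621363633664707664709997689983076458133734414875713134068405357490308034280013169515000803361409)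

noncomputable def t195 : Tre := Helper55.PC.toT t195n

theorem ok195 : chk K t195 r195 = true :=
  Helper55.PC.chkN_sound K t195n r195 (by decide +kernel)

open Helper55.PC in
noncomputable def t196n : Helper55.PC.Ten :=
  (s
  758808251068692606115211394334140742744287253540090446319360494432684600797411924303933931743379672875650779640187117942902600473623269077720793354184392337777179967393950930557619187442596352539967714779034342222991099987799980209715618118998840481108513935459365666643109508348795439024554523545068762212897217306048147212527281577654285773697188107208823403873709915983370769322540257794781490350008265493381822925044450271707468030044100488293281343958272553106077175554203587711275271909514468140450488191511445700676041357645990700899829496675238386768268637132720272220287201785815001784001897777441839829712527943548956530705881410799374862811923073)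

noncomputable def t196 : Tre := Helper55.PC.toT t196n

theorem ok196 : chk K t196 r194 = true :=
  Helper55.PC.chkN_sound K t196n r194 (by decide +kernel)

theorem cl0 : Clo K (Helper55.TR.GH (-1) Helper55.TR.BrU [0,0,1]) l8 :=
  .w [n0,n0,n0,n0,n0,n0,n0,n0,n0,n0,n0,n0,n1,m1,n2] (e' := [n1,n0,n0,n0,n0,n0,n0,n0,n0,n0,n0,n0,m1,n1,m2]) (by decide +kernel)
  (.t t4 ok4) (.t t5 ok5)

theorem cl1 : Clo K (Helper55.TR.GH (-1) Helper55.TR.BrU [0,0,1]) r7 :=
  .w [n0,n0,n0,n0,n0,n0,n0,n0,n0,n0,n0,n1,m1,n1,m2] (e' := [n1,n0,n0,n0,n0,n0,n0,n0,n0,n0,n0,m1,n1,m1,n2])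
  (by decide +kernel) cl0 (.t t6 ok6)

theorem cl2 : Clo K (Helper55.TR.GH (-1) Helper55.TR.BrU [0,0,1]) l6 :=
  .i [n1,n0,n0,n0,n1,n0,n0,m1,n0,n2,n2] (e' := [n0,n0,n0,n0,m1,n0,n0,n1,n0,m2,m2]) (by decide +kernel)
  (by decide +kernel) (.t t3 ok3) cl1

theorem cl3 : Clo K (Helper55.TR.GH (-1) Helper55.TR.BrU [0,0,1]) l10 :=
  .w [n0,n0,n0,n0,n0,n0,n0,n0,n0,n0,n0,n0,n1,m1,n2] (e' := [n1,n0,n0,n0,n0,n0,n0,n0,n0,n0,n0,n0,m1,n1,m2]) (by decide +kernel)
  (.t t7 ok7) (.t t8 ok8)

theorem cl4 : Clo K (Helper55.TR.GH (-1) Helper55.TR.BrU [0,0,1]) r6 :=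
  .w [n0,n0,n0,n0,n0,n0,n0,n0,n0,n0,n0,n1,m1,n1,m2] (e' := [n1,n0,n0,n0,n0,n0,n0,n0,n0,n0,n0,m1,n1,m1,n2])
  (by decide +kernel) cl3 (.t t9 ok9)

theorem cl5 : Clo K (Helper55.TR.GH (-1) Helper55.TR.BrU [0,0,1]) r5 :=
  .i [n1,n0,n0,n0,m1,n0,n0,n1,n0,m2,m2] (e' := [n0,n0,n0,n0,n1,n0,n0,m1,n0,n2,n2]) (by decide +kernel)
  (by decide +kernel) cl2 cl4

theorem cl6 : Clo K (Helper55.TR.GH (-1) Helper55.TR.BrU [0,0,1]) l4 :=
  .i [n1,n0,n1,n1,m1,n0,n0,n1,n0,m2,m1] (e' := [n0,n0,m1,m1,n1,n0,n0,m1,n0,n2,n1]) (by decide +kernel)
  (by decide +kernel) (.t t2 ok2) cl5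

theorem cl7 : Clo K (Helper55.TR.GH (-1) Helper55.TR.BrU [0,0,1]) r15 :=
  .w [n0,n0,n0,n0,n0,n0,n0,n0,n0,n0,n0,m1,n1,m1,n2] (e' := [n1,n0,n0,n0,n0,n0,n0,n0,n0,n0,n0,n1,m1,n1,m2])
  (by decide +kernel) (.t t12 ok12) (.t t13 ok13)

theorem cl8 : Clo K (Helper55.TR.GH (-1) Helper55.TR.BrU [0,0,1]) l14 :=
  .i [n1,n0,n1,n1,n3,n0,n0,n0,n0,n0,n7] (e' := [n0,n0,m1,m1,m3,n0,n0,n0,n0,n0,m7]) (by decide +kernel)
  (by decide +kernel) (.t t11 ok11) cl7

theorem cl9 : Clo K (Helper55.TR.GH (-1) Helper55.TR.BrU [0,0,1]) l17 :=
  .w [n0,n0,n0,n0,n0,n0,n0,n0,n0,n0,n0,n0,n1,m1,n2] (e' := [n1,n0,n0,n0,n0,n0,n0,n0,n0,n0,n0,n0,m1,n1,m2]) (by decide +kernel)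
  (.t t14 ok14) (.t t15 ok15)

theorem cl10 : Clo K (Helper55.TR.GH (-1) Helper55.TR.BrU [0,0,1]) r14 :=
  .w [n0,n0,n0,n0,n0,n0,n0,n0,n0,n0,n0,n1,m1,n1,m2] (e' := [n1,n0,n0,n0,n0,n0,n0,n0,n0,n0,n0,m1,n1,m1,n2])
  (by decide +kernel) cl9 (.t t16 ok16)

theorem cl11 : Clo K (Helper55.TR.GH (-1) Helper55.TR.BrU [0,0,1]) r13 :=
  .i [n1,n0,m1,m1,m3,n0,n0,n0,n0,n0,m7] (e' := [n0,n0,n1,n1,n3,n0,n0,n0,n0,n0,n7]) (by decide +kernel)
  (by decide +kernel) cl8 cl10

theorem cl12 : Clo K (Helper55.TR.GH (-1) Helper55.TR.BrU [0,0,1]) l12 :=
  .i [n1,n0,n1,n1,n2,n0,n0,n0,n0,n0,n5] (e' := [n0,n0,m1,m1,m2,n0,n0,n0,n0,n0,m5]) (by decide +kernel)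
  (by decide +kernel) (.t t10 ok10) cl11

theorem cl13 : Clo K (Helper55.TR.GH (-1) Helper55.TR.BrU [0,0,1]) l19 :=
  .w [n0,n0,n0,n0,n0,n0,n0,n0,n0,n0,n0,n2,m1,n1,m2] (e' := [n1,n0,n0,n0,n0,n0,n0,n0,n0,n0,n0,m2,n1,m1,n2])
  (by decide +kernel) (.t t17 ok17) (.t t18 ok18)

theorem cl14 : Clo K (Helper55.TR.GH (-1) Helper55.TR.BrU [0,0,1]) r19 :=
  .w [n0,n0,n0,n0,n0,n0,n0,n0,n0,n0,n0,n0,m1,n1,m2] (e' := [n1,n0,n0,n0,n0,n0,n0,n0,n0,n0,n0,n0,n1,m1,n2]) (by decide +kernel)
  (.t t19 ok19) (.t t20 ok20)

theorem cl15 : Clo K (Helper55.TR.GH (-1) Helper55.TR.BrU [0,0,1]) r12 :=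
  .w [n0,n0,n0,n0,n0,n0,n0,n0,n0,n0,n0,m1,n1,m1,n2] (e' := [n1,n0,n0,n0,n0,n0,n0,n0,n0,n0,n0,n1,m1,n1,m2])
  (by decide +kernel) cl13 cl14

theorem cl16 : Clo K (Helper55.TR.GH (-1) Helper55.TR.BrU [0,0,1]) r4 :=
  .i [n1,n0,m1,m1,m2,n0,n0,n0,n0,n0,m5] (e' := [n0,n0,n1,n1,n2,n0,n0,n0,n0,n0,n5]) (by decide +kernel)
  (by decide +kernel) cl12 cl15

theorem cl17 : Clo K (Helper55.TR.GH (-1) Helper55.TR.BrU [0,0,1]) r3 :=
  .i [n1,n0,m1,m1,n1,n0,n0,m1,n0,n2,n1] (e' := [n0,n0,n1,n1,m1,n0,n0,n1,n0,m2,m1]) (by decide +kernel)
  (by decide +kernel) cl6 cl16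

theorem cl18 : Clo K (Helper55.TR.GH (-1) Helper55.TR.BrU [0,0,1]) l2 :=
  .i [n0,n0,n2,n0,m1,m3,n0,n0,n1] (e' := [n1,n0,m2,n0,n1,n3,n0,n0,m1]) (by decide +kernel) (by decide +kernel)
  (.t t1 ok1) cl17

theorem cl19 : Clo K (Helper55.TR.GH (-1) Helper55.TR.BrU [0,0,1]) r34 :=
  .w [n0,n0,n0,n0,n0,n0,n0,n0,n0,n0,n0,n0,n1,m1,n2] (e' := [n1,n0,n0,n0,n0,n0,n0,n0,n0,n0,n0,n0,m1,n1,m2]) (by decide +kernel)
  (.t t27 ok27) (.t t28 ok28)

theorem cl20 : Clo K (Helper55.TR.GH (-1) Helper55.TR.BrU [0,0,1]) l33 :=
  .w [n0,n0,n0,n0,n0,n0,n0,n0,n0,n0,n0,n0,m1,n1,m2] (e' := [n1,n0,n0,n0,n0,n0,n0,n0,n0,n0,n0,n0,n1,m1,n2]) (by decide +kernel)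
  (.t t26 ok26) cl19

theorem cl21 : Clo K (Helper55.TR.GH (-1) Helper55.TR.BrU [0,0,1]) r33 :=
  .w [n0,n0,n0,n0,n0,n0,n0,n0,n0,n0,n0,m1,n1,m1,n2] (e' := [n1,n0,n0,n0,n0,n0,n0,n0,n0,n0,n0,n1,m1,n1,m2])
  (by decide +kernel) (.t t29 ok29) (.t t30 ok30)

theorem cl22 : Clo K (Helper55.TR.GH (-1) Helper55.TR.BrU [0,0,1]) r32 :=
  .w [n0,n0,n0,n0,n0,n0,n0,n0,n0,n0,n0,n1,m1,n1,m2] (e' := [n1,n0,n0,n0,n0,n0,n0,n0,n0,n0,n0,m1,n1,m1,n2])
  (by decide +kernel) cl20 cl21

theorem cl23 : Clo K (Helper55.TR.GH (-1) Helper55.TR.BrU [0,0,1]) l31 :=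
  .i [n1,n0,m1,m1,n0,n0,n0,m2,n0,m2] (e' := [n0,n0,n1,n1,n0,n0,n0,n2,n0,n2]) (by decide +kernel)
  (by decide +kernel) (.t t25 ok25) cl22

theorem cl24 : Clo K (Helper55.TR.GH (-1) Helper55.TR.BrU [0,0,1]) r38 :=
  .w [n0,n0,n0,n0,n0,n0,n0,n0,n0,n0,n0,m1,n1,m1,n2] (e' := [n1,n0,n0,n0,n0,n0,n0,n0,n0,n0,n0,n1,m1,n1,m2])
  (by decide +kernel) (.t t33 ok33) (.t t34 ok34)

theorem cl25 : Clo K (Helper55.TR.GH (-1) Helper55.TR.BrU [0,0,1]) r37 :=
  .w [n0,n0,n0,n0,n0,n0,n0,n0,n0,n0,n0,n1,m1,n1,m2] (e' := [n1,n0,n0,n0,n0,n0,n0,n0,n0,n0,n0,m1,n1,m1,n2])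
  (by decide +kernel) (.t t32 ok32) cl24

theorem cl26 : Clo K (Helper55.TR.GH (-1) Helper55.TR.BrU [0,0,1]) r31 :=
  .w [n0,n0,n0,n0,n0,n0,n0,n0,n0,n0,n0,n0,m1,n1,m2] (e' := [n1,n0,n0,n0,n0,n0,n0,n0,n0,n0,n0,n0,n1,m1,n2]) (by decide +kernel)
  (.t t31 ok31) cl25

theorem cl27 : Clo K (Helper55.TR.GH (-1) Helper55.TR.BrU [0,0,1]) l30 :=
  .i [n1,n0,n1,n1,n0,n0,n0,n2,n0,n2] (e' := [n0,n0,m1,m1,n0,n0,n0,m2,n0,m2]) (by decide +kernel)
  (by decide +kernel) cl23 cl26

theorem cl28 : Clo K (Helper55.TR.GH (-1) Helper55.TR.BrU [0,0,1]) l40 :=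
  .w [n0,n0,n0,n0,n0,n0,n0,n0,n0,n0,n0,n0,n1,m1,n2] (e' := [n1,n0,n0,n0,n0,n0,n0,n0,n0,n0,n0,n0,m1,n1,m2]) (by decide +kernel)
  (.t t35 ok35) (.t t36 ok36)

theorem cl29 : Clo K (Helper55.TR.GH (-1) Helper55.TR.BrU [0,0,1]) r40 :=
  .w [n0,n0,n0,n0,n0,n0,n0,n0,n0,n0,n0,m1,n1,m1,n2] (e' := [n1,n0,n0,n0,n0,n0,n0,n0,n0,n0,n0,n1,m1,n1,m2])
  (by decide +kernel) (.t t37 ok37) (.t t38 ok38)

theorem cl30 : Clo K (Helper55.TR.GH (-1) Helper55.TR.BrU [0,0,1]) r30 :=
  .w [n0,n0,n0,n0,n0,n0,n0,n0,n0,n0,n0,n1,m1,n1,m2] (e' := [n1,n0,n0,n0,n0,n0,n0,n0,n0,n0,n0,m1,n1,m1,n2])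
  (by decide +kernel) cl28 cl29

theorem cl31 : Clo K (Helper55.TR.GH (-1) Helper55.TR.BrU [0,0,1]) r29 :=
  .i [n0,n0,m1,n0,n0,n1,n2,n0,n2] (e' := [n1,n0,n1,n0,n0,m1,m2,n0,m2]) (by decide +kernel) (by decide +kernel)
  cl27 cl30

theorem cl32 : Clo K (Helper55.TR.GH (-1) Helper55.TR.BrU [0,0,1]) r28 :=
  .i [n0,n0,m4,n0,n2,n3,n0,n0,m1] (e' := [n1,n0,n4,n0,m2,m3,n0,n0,n1]) (by decide +kernel) (by decide +kernel)
  (.t t24 ok24) cl31

theorem cl33 : Clo K (Helper55.TR.GH (-1) Helper55.TR.BrU [0,0,1]) l27 :=
  .i [n0,n0,n4,n0,m2,m3,n0,n0,n1] (e' := [n1,n0,m4,n0,n2,n3,n0,n0,m1]) (by decide +kernel) (by decide +kernel)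
  (.t t23 ok23) cl32

theorem cl34 : Clo K (Helper55.TR.GH (-1) Helper55.TR.BrU [0,0,1]) l46 :=
  .w [n0,n0,n0,n0,n0,n0,n0,n0,n0,n0,n0,n1,m1,n1,m2] (e' := [n1,n0,n0,n0,n0,n0,n0,n0,n0,n0,n0,m1,n1,m1,n2])
  (by decide +kernel) (.t t41 ok41) (.t t42 ok42)

theorem cl35 : Clo K (Helper55.TR.GH (-1) Helper55.TR.BrU [0,0,1]) r45 :=
  .w [n0,n0,n0,n0,n0,n0,n0,n0,n0,n0,n0,n0,n1,m1,n2] (e' := [n1,n0,n0,n0,n0,n0,n0,n0,n0,n0,n0,n0,m1,n1,m2]) (by decide +kernel)
  cl34 (.t t43 ok43)

theorem cl36 : Clo K (Helper55.TR.GH (-1) Helper55.TR.BrU [0,0,1]) r44 :=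
  .w [n0,n0,n0,n0,n0,n0,n0,n0,n0,n0,n0,m1,n1,m1,n2] (e' := [n1,n0,n0,n0,n0,n0,n0,n0,n0,n0,n0,n1,m1,n1,m2])
  (by decide +kernel) (.t t40 ok40) cl35

theorem cl37 : Clo K (Helper55.TR.GH (-1) Helper55.TR.BrU [0,0,1]) l43 :=
  .i [n1,n0,m1,m1,n0,n0,n0,m2,n0,m2] (e' := [n0,n0,n1,n1,n0,n0,n0,n2,n0,n2]) (by decide +kernel)
  (by decide +kernel) (.t t39 ok39) cl36

theorem cl38 : Clo K (Helper55.TR.GH (-1) Helper55.TR.BrU [0,0,1]) r49 :=
  .w [n0,n0,n0,n0,n0,n0,n0,n0,n0,n0,n0,n0,m1,n1,m2] (e' := [n1,n0,n0,n0,n0,n0,n0,n0,n0,n0,n0,n0,n1,m1,n2]) (by decide +kernel)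
  (.t t45 ok45) (.t t46 ok46)

theorem cl39 : Clo K (Helper55.TR.GH (-1) Helper55.TR.BrU [0,0,1]) l48 :=
  .w [n0,n0,n0,n0,n0,n0,n0,n0,n0,n0,n0,n0,n1,m1,n2] (e' := [n1,n0,n0,n0,n0,n0,n0,n0,n0,n0,n0,n0,m1,n1,m2]) (by decide +kernel)
  (.t t44 ok44) cl38

theorem cl40 : Clo K (Helper55.TR.GH (-1) Helper55.TR.BrU [0,0,1]) r43 :=
  .w [n0,n0,n0,n0,n0,n0,n0,n0,n0,n0,n0,n1,m1,n1,m2] (e' := [n1,n0,n0,n0,n0,n0,n0,n0,n0,n0,n0,m1,n1,m1,n2])
  (by decide +kernel) cl39 (.t t47 ok47)

theorem cl41 : Clo K (Helper55.TR.GH (-1) Helper55.TR.BrU [0,0,1]) r27 :=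
  .i [n1,n0,n1,n1,n0,n0,n0,n2,n0,n2] (e' := [n0,n0,m1,m1,n0,n0,n0,m2,n0,m2]) (by decide +kernel)
  (by decide +kernel) cl37 cl40

theorem cl42 : Clo K (Helper55.TR.GH (-1) Helper55.TR.BrU [0,0,1]) l26 :=
  .i [n1,n0,n3,n3,m2,n0,n0,n0,n0,m1,m1] (e' := [n0,n0,m3,m3,n2,n0,n0,n0,n0,n1,n1]) (by decide +kernel)
  (by decide +kernel) cl33 cl41

theorem cl43 : Clo K (Helper55.TR.GH (-1) Helper55.TR.BrU [0,0,1]) l51 :=
  .w [n0,n0,n0,n0,n0,n0,n0,n0,n0,n0,n0,n0,n1,m1,n2] (e' := [n1,n0,n0,n0,n0,n0,n0,n0,n0,n0,n0,n0,m1,n1,m2]) (by decide +kernel)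
  (.t t48 ok48) (.t t49 ok49)

theorem cl44 : Clo K (Helper55.TR.GH (-1) Helper55.TR.BrU [0,0,1]) r26 :=
  .w [n0,n0,n0,n0,n0,n0,n0,n0,n0,n0,n0,n1,m1,n1,m2] (e' := [n1,n0,n0,n0,n0,n0,n0,n0,n0,n0,n0,m1,n1,m1,n2])
  (by decide +kernel) cl43 (.t t50 ok50)

theorem cl45 : Clo K (Helper55.TR.GH (-1) Helper55.TR.BrU [0,0,1]) r25 :=
  .i [n1,n0,m3,m3,n2,n0,n0,n0,n0,n1,n1] (e' := [n0,n0,n3,n3,m2,n0,n0,n0,n0,m1,m1]) (by decide +kernel)
  (by decide +kernel) cl42 cl44

theorem cl46 : Clo K (Helper55.TR.GH (-1) Helper55.TR.BrU [0,0,1]) l24 :=
  .i [n1,n0,m1,m1,m3,n0,n0,n0,n0,n0,m7] (e' := [n0,n0,n1,n1,n3,n0,n0,n0,n0,n0,n7]) (by decide +kernel)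
  (by decide +kernel) (.t t22 ok22) cl45

theorem cl47 : Clo K (Helper55.TR.GH (-1) Helper55.TR.BrU [0,0,1]) l59 :=
  .w [n0,n0,n0,n0,n0,n0,n0,n0,n0,n0,n0,n0,n1,m1,n2] (e' := [n1,n0,n0,n0,n0,n0,n0,n0,n0,n0,n0,n0,m1,n1,m2]) (by decide +kernel)
  (.t t54 ok54) (.t t55 ok55)

theorem cl48 : Clo K (Helper55.TR.GH (-1) Helper55.TR.BrU [0,0,1]) r58 :=
  .w [n0,n0,n0,n0,n0,n0,n0,n0,n0,n0,n0,n1,m1,n1,m2] (e' := [n1,n0,n0,n0,n0,n0,n0,n0,n0,n0,n0,m1,n1,m1,n2])
  (by decide +kernel) cl47 (.t t56 ok56)

theorem cl49 : Clo K (Helper55.TR.GH (-1) Helper55.TR.BrU [0,0,1]) r57 :=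
  .w [n0,n0,n0,n0,n0,n0,n0,n0,n0,n0,n0,n0,m1,n1,m2] (e' := [n1,n0,n0,n0,n0,n0,n0,n0,n0,n0,n0,n0,n1,m1,n2]) (by decide +kernel)
  (.t t53 ok53) cl48

theorem cl50 : Clo K (Helper55.TR.GH (-1) Helper55.TR.BrU [0,0,1]) l56 :=
  .i [n1,n0,n0,n0,n1,n0,n0,n2,n0,n2,n1] (e' := [n0,n0,n0,n0,m1,n0,n0,m2,n0,m2,m1]) (by decide +kernel)
  (by decide +kernel) (.t t52 ok52) cl49

theorem cl51 : Clo K (Helper55.TR.GH (-1) Helper55.TR.BrU [0,0,1]) r61 :=
  .w [n0,n0,n0,n0,n0,n0,n0,n0,n0,n0,n0,n1,m1,n1,m2] (e' := [n1,n0,n0,n0,n0,n0,n0,n0,n0,n0,n0,m1,n1,m1,n2])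
  (by decide +kernel) (.t t58 ok58) (.t t59 ok59)

theorem cl52 : Clo K (Helper55.TR.GH (-1) Helper55.TR.BrU [0,0,1]) r56 :=
  .w [n0,n0,n0,n0,n0,n0,n0,n0,n0,n0,n0,n0,m1,n1,m2] (e' := [n1,n0,n0,n0,n0,n0,n0,n0,n0,n0,n0,n0,n1,m1,n2]) (by decide +kernel)
  (.t t57 ok57) cl51

theorem cl53 : Clo K (Helper55.TR.GH (-1) Helper55.TR.BrU [0,0,1]) r55 :=
  .i [n1,n0,n0,n0,m1,n0,n0,m2,n0,m2,m1] (e' := [n0,n0,n0,n0,n1,n0,n0,n2,n0,n2,n1]) (by decide +kernel)
  (by decide +kernel) cl50 cl52

theorem cl54 : Clo K (Helper55.TR.GH (-1) Helper55.TR.BrU [0,0,1]) l54 :=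
  .i [n1,n0,n0,n0,n0,n0,n0,n2,n0,n2,m1] (e' := [n0,n0,n0,n0,n0,n0,n0,m2,n0,m2,n1]) (by decide +kernel)
  (by decide +kernel) (.t t51 ok51) cl53

theorem cl55 : Clo K (Helper55.TR.GH (-1) Helper55.TR.BrU [0,0,1]) r67 :=
  .w [n0,n0,n0,n0,n0,n0,n0,n0,n0,n0,n0,n0,m1,n1,m2] (e' := [n1,n0,n0,n0,n0,n0,n0,n0,n0,n0,n0,n0,n1,m1,n2]) (by decide +kernel)
  (.t t62 ok62) (.t t63 ok63)

theorem cl56 : Clo K (Helper55.TR.GH (-1) Helper55.TR.BrU [0,0,1]) l66 :=
  .w [n0,n0,n0,n0,n0,n0,n0,n0,n0,n0,n0,n0,n1,m1,n2] (e' := [n1,n0,n0,n0,n0,n0,n0,n0,n0,n0,n0,n0,m1,n1,m2]) (by decide +kernel)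
  (.t t61 ok61) cl55

theorem cl57 : Clo K (Helper55.TR.GH (-1) Helper55.TR.BrU [0,0,1]) r66 :=
  .w [n0,n0,n0,n0,n0,n0,n0,n0,n0,n0,n0,m1,n1,m1,n2] (e' := [n1,n0,n0,n0,n0,n0,n0,n0,n0,n0,n0,n1,m1,n1,m2])
  (by decide +kernel) (.t t64 ok64) (.t t65 ok65)

theorem cl58 : Clo K (Helper55.TR.GH (-1) Helper55.TR.BrU [0,0,1]) r65 :=
  .w [n0,n0,n0,n0,n0,n0,n0,n0,n0,n0,n0,n1,m1,n1,m2] (e' := [n1,n0,n0,n0,n0,n0,n0,n0,n0,n0,n0,m1,n1,m1,n2])
  (by decide +kernel) cl56 cl57

theorem cl59 : Clo K (Helper55.TR.GH (-1) Helper55.TR.BrU [0,0,1]) l64 :=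
  .i [n1,n0,n3,n3,m2,n0,n0,n0,n0,m1,m1] (e' := [n0,n0,m3,m3,n2,n0,n0,n0,n0,n1,n1]) (by decide +kernel)
  (by decide +kernel) (.t t60 ok60) cl58

theorem cl60 : Clo K (Helper55.TR.GH (-1) Helper55.TR.BrU [0,0,1]) l74 :=
  .w [n0,n0,n0,n0,n0,n0,n0,n0,n0,n0,n0,n1,m1,n1,m2] (e' := [n1,n0,n0,n0,n0,n0,n0,n0,n0,n0,n0,m1,n1,m1,n2])
  (by decide +kernel) (.t t69 ok69) (.t t70 ok70)

theorem cl61 : Clo K (Helper55.TR.GH (-1) Helper55.TR.BrU [0,0,1]) r73 :=
  .w [n0,n0,n0,n0,n0,n0,n0,n0,n0,n0,n0,n0,n1,m1,n2] (e' := [n1,n0,n0,n0,n0,n0,n0,n0,n0,n0,n0,n0,m1,n1,m2]) (by decide +kernel)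
  cl60 (.t t71 ok71)

theorem cl62 : Clo K (Helper55.TR.GH (-1) Helper55.TR.BrU [0,0,1]) r72 :=
  .w [n0,n0,n0,n0,n0,n0,n0,n0,n0,n0,n0,n0,m1,n1,m2] (e' := [n1,n0,n0,n0,n0,n0,n0,n0,n0,n0,n0,n0,n1,m1,n2]) (by decide +kernel)
  (.t t68 ok68) cl61

theorem cl63 : Clo K (Helper55.TR.GH (-1) Helper55.TR.BrU [0,0,1]) r71 :=
  .w [n0,n0,n0,n0,n0,n0,n0,n0,n0,n0,n0,m1,n1,m1,n2] (e' := [n1,n0,n0,n0,n0,n0,n0,n0,n0,n0,n0,n1,m1,n1,m2])
  (by decide +kernel) (.t t67 ok67) cl62

theorem cl64 : Clo K (Helper55.TR.GH (-1) Helper55.TR.BrU [0,0,1]) l70 :=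
  .i [n0,n0,n4,n0,m2,m3,n0,n0,n1] (e' := [n1,n0,m4,n0,n2,n3,n0,n0,m1]) (by decide +kernel) (by decide +kernel)
  (.t t66 ok66) cl63

theorem cl65 : Clo K (Helper55.TR.GH (-1) Helper55.TR.BrU [0,0,1]) l77 :=
  .w [n0,n0,n0,n0,n0,n0,n0,n0,n0,n0,n0,n1,m1,n1,m2] (e' := [n1,n0,n0,n0,n0,n0,n0,n0,n0,n0,n0,m1,n1,m1,n2])
  (by decide +kernel) (.t t73 ok73) (.t t74 ok74)

theorem cl66 : Clo K (Helper55.TR.GH (-1) Helper55.TR.BrU [0,0,1]) r76 :=
  .w [n0,n0,n0,n0,n0,n0,n0,n0,n0,n0,n0,n0,n1,m1,n2] (e' := [n1,n0,n0,n0,n0,n0,n0,n0,n0,n0,n0,n0,m1,n1,m2]) (by decide +kernel)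
  cl65 (.t t75 ok75)

theorem cl67 : Clo K (Helper55.TR.GH (-1) Helper55.TR.BrU [0,0,1]) r70 :=
  .w [n0,n0,n0,n0,n0,n0,n0,n0,n0,n0,n0,m1,n1,m1,n2] (e' := [n1,n0,n0,n0,n0,n0,n0,n0,n0,n0,n0,n1,m1,n1,m2])
  (by decide +kernel) (.t t72 ok72) cl66

theorem cl68 : Clo K (Helper55.TR.GH (-1) Helper55.TR.BrU [0,0,1]) r64 :=
  .i [n1,n0,n3,n3,m2,n0,n0,n0,n0,m1,m1] (e' := [n0,n0,m3,m3,n2,n0,n0,n0,n0,n1,n1]) (by decide +kernel)
  (by decide +kernel) cl64 cl67

theorem cl69 : Clo K (Helper55.TR.GH (-1) Helper55.TR.BrU [0,0,1]) l63 :=
  .i [n0,n0,m4,n0,n2,n3,n0,n0,m1] (e' := [n1,n0,n4,n0,m2,m3,n0,n0,n1]) (by decide +kernel) (by decide +kernel)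
  cl59 cl68

theorem cl70 : Clo K (Helper55.TR.GH (-1) Helper55.TR.BrU [0,0,1]) r80 :=
  .w [n0,n0,n0,n0,n0,n0,n0,n0,n0,n0,n0,n0,m1,n1,m2] (e' := [n1,n0,n0,n0,n0,n0,n0,n0,n0,n0,n0,n0,n1,m1,n2]) (by decide +kernel)
  (.t t78 ok78) (.t t79 ok79)

theorem cl71 : Clo K (Helper55.TR.GH (-1) Helper55.TR.BrU [0,0,1]) r79 :=
  .i [n1,n0,n1,n1,n0,n0,n0,n2,n0,n2] (e' := [n0,n0,m1,m1,n0,n0,n0,m2,n0,m2]) (by decide +kernel)
  (by decide +kernel) (.t t77 ok77) cl70

theorem cl72 : Clo K (Helper55.TR.GH (-1) Helper55.TR.BrU [0,0,1]) r63 :=
  .w [n0,n0,n0,n0,n0,n0,n0,n0,n0,n0,n0,m1,n1,m1,n2] (e' := [n1,n0,n0,n0,n0,n0,n0,n0,n0,n0,n0,n1,m1,n1,m2])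
  (by decide +kernel) (.t t76 ok76) cl71

theorem cl73 : Clo K (Helper55.TR.GH (-1) Helper55.TR.BrU [0,0,1]) r54 :=
  .i [n1,n0,m3,m3,n2,n0,n0,n0,n0,n1,n1] (e' := [n0,n0,n3,n3,m2,n0,n0,n0,n0,m1,m1]) (by decide +kernel)
  (by decide +kernel) cl69 cl72

theorem cl74 : Clo K (Helper55.TR.GH (-1) Helper55.TR.BrU [0,0,1]) l53 :=
  .i [n1,n0,n0,n0,n0,n0,n0,m2,n0,m2,n1] (e' := [n0,n0,n0,n0,n0,n0,n0,n2,n0,n2,m1]) (by decide +kernel)
  (by decide +kernel) cl54 cl73

theorem cl75 : Clo K (Helper55.TR.GH (-1) Helper55.TR.BrU [0,0,1]) r84 :=
  .w [n0,n0,n0,n0,n0,n0,n0,n0,n0,n0,n0,n0,n1,m1,n2] (e' := [n1,n0,n0,n0,n0,n0,n0,n0,n0,n0,n0,n0,m1,n1,m2]) (by decide +kernel)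
  (.t t82 ok82) (.t t83 ok83)

theorem cl76 : Clo K (Helper55.TR.GH (-1) Helper55.TR.BrU [0,0,1]) r83 :=
  .w [n0,n0,n0,n0,n0,n0,n0,n0,n0,n0,n0,m1,n1,m1,n2] (e' := [n1,n0,n0,n0,n0,n0,n0,n0,n0,n0,n0,n1,m1,n1,m2])
  (by decide +kernel) (.t t81 ok81) cl75

theorem cl77 : Clo K (Helper55.TR.GH (-1) Helper55.TR.BrU [0,0,1]) l82 :=
  .i [n1,n0,n3,n3,m2,n0,n0,n0,n0,m1,m1] (e' := [n0,n0,m3,m3,n2,n0,n0,n0,n0,n1,n1]) (by decide +kernel)
  (by decide +kernel) (.t t80 ok80) cl76

theorem cl78 : Clo K (Helper55.TR.GH (-1) Helper55.TR.BrU [0,0,1]) r82 :=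
  .w [n0,n0,n0,n0,n0,n0,n0,n0,n0,n0,n0,m1,n1,m1,n2] (e' := [n1,n0,n0,n0,n0,n0,n0,n0,n0,n0,n0,n1,m1,n1,m2])
  (by decide +kernel) (.t t84 ok84) (.t t85 ok85)

theorem cl79 : Clo K (Helper55.TR.GH (-1) Helper55.TR.BrU [0,0,1]) r53 :=
  .i [n1,n0,m3,m3,n2,n0,n0,n0,n0,n1,n1] (e' := [n0,n0,n3,n3,m2,n0,n0,n0,n0,m1,m1]) (by decide +kernel)
  (by decide +kernel) cl77 cl78

theorem cl80 : Clo K (Helper55.TR.GH (-1) Helper55.TR.BrU [0,0,1]) r24 :=
  .i [n0,n0,n1,n0,n1,n0,m2,n0,m2] (e' := [n1,n0,m1,n0,m1,n0,n2,n0,n2]) (by decide +kernel) (by decide +kernel)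
  cl74 cl79

theorem cl81 : Clo K (Helper55.TR.GH (-1) Helper55.TR.BrU [0,0,1]) r23 :=
  .i [n1,n0,n1,n1,n3,n0,n0,n0,n0,n0,n7] (e' := [n0,n0,m1,m1,m3,n0,n0,n0,n0,n0,m7]) (by decide +kernel)
  (by decide +kernel) cl46 cl80

theorem cl82 : Clo K (Helper55.TR.GH (-1) Helper55.TR.BrU [0,0,1]) l22 :=
  .i [n1,n0,n1,n1,n2,n0,n0,n0,n0,n0,n5] (e' := [n0,n0,m1,m1,m2,n0,n0,n0,n0,n0,m5]) (by decide +kernel)
  (by decide +kernel) (.t t21 ok21) cl81

theorem cl83 : Clo K (Helper55.TR.GH (-1) Helper55.TR.BrU [0,0,1]) r90 :=
  .w [n0,n0,n0,n0,n0,n0,n0,n0,n0,n0,n0,n0,n1,m1,n2] (e' := [n1,n0,n0,n0,n0,n0,n0,n0,n0,n0,n0,n0,m1,n1,m2]) (by decide +kernel)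
  (.t t88 ok88) (.t t89 ok89)

theorem cl84 : Clo K (Helper55.TR.GH (-1) Helper55.TR.BrU [0,0,1]) r89 :=
  .w [n0,n0,n0,n0,n0,n0,n0,n0,n0,n0,n0,m1,n1,m1,n2] (e' := [n1,n0,n0,n0,n0,n0,n0,n0,n0,n0,n0,n1,m1,n1,m2])
  (by decide +kernel) (.t t87 ok87) cl83

theorem cl85 : Clo K (Helper55.TR.GH (-1) Helper55.TR.BrU [0,0,1]) l88 :=
  .i [n0,n0,n0,n0,n0,m1,n1,n0,m1] (e' := [n1,n0,n0,n0,n0,n1,m1,n0,n1]) (by decide +kernel) (by decide +kernel) (.t
  t86 ok86) cl84

theorem cl86 : Clo K (Helper55.TR.GH (-1) Helper55.TR.BrU [0,0,1]) l92 :=
  .w [n0,n0,n0,n0,n0,n0,n0,n0,n0,n0,n0,n0,n1,m1,n2] (e' := [n1,n0,n0,n0,n0,n0,n0,n0,n0,n0,n0,n0,m1,n1,m2]) (by decide +kernel)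
  (.t t90 ok90) (.t t91 ok91)

theorem cl87 : Clo K (Helper55.TR.GH (-1) Helper55.TR.BrU [0,0,1]) r92 :=
  .w [n0,n0,n0,n0,n0,n0,n0,n0,n0,n0,n0,m1,n1,m1,n2] (e' := [n1,n0,n0,n0,n0,n0,n0,n0,n0,n0,n0,n1,m1,n1,m2])
  (by decide +kernel) (.t t92 ok92) (.t t93 ok93)

theorem cl88 : Clo K (Helper55.TR.GH (-1) Helper55.TR.BrU [0,0,1]) r88 :=
  .w [n0,n0,n0,n0,n0,n0,n0,n0,n0,n0,n0,n1,m1,n1,m2] (e' := [n1,n0,n0,n0,n0,n0,n0,n0,n0,n0,n0,m1,n1,m1,n2])
  (by decide +kernel) cl86 cl87

theorem cl89 : Clo K (Helper55.TR.GH (-1) Helper55.TR.BrU [0,0,1]) l87 :=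
  .i [n1,n0,n1,n1,n0,n0,n0,m1,n0,n1,n1] (e' := [n0,n0,m1,m1,n0,n0,n0,n1,n0,m1,m1]) (by decide +kernel)
  (by decide +kernel) cl85 cl88

theorem cl90 : Clo K (Helper55.TR.GH (-1) Helper55.TR.BrU [0,0,1]) r101 :=
  .w [n0,n0,n0,n0,n0,n0,n0,n0,n0,n0,n0,m1,n1,m1,n2] (e' := [n1,n0,n0,n0,n0,n0,n0,n0,n0,n0,n0,n1,m1,n1,m2])
  (by decide +kernel) (.t t97 ok97) (.t t98 ok98)

theorem cl91 : Clo K (Helper55.TR.GH (-1) Helper55.TR.BrU [0,0,1]) l100 :=
  .i [n1,n0,m2,m2,n2,n0,n0,n0,n0,n1,n2] (e' := [n0,n0,n2,n2,m2,n0,n0,n0,n0,m1,m2]) (by decide +kernel)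
  (by decide +kernel) (.t t96 ok96) cl90

theorem cl92 : Clo K (Helper55.TR.GH (-1) Helper55.TR.BrU [0,0,1]) r103 :=
  .w [n0,n0,n0,n0,n0,n0,n0,n0,n0,n0,n0,n0,m1,n1,m2] (e' := [n1,n0,n0,n0,n0,n0,n0,n0,n0,n0,n0,n0,n1,m1,n2]) (by decide +kernel)
  (.t t100 ok100) (.t t101 ok101)

theorem cl93 : Clo K (Helper55.TR.GH (-1) Helper55.TR.BrU [0,0,1]) r100 :=
  .w [n0,n0,n0,n0,n0,n0,n0,n0,n0,n0,n0,m1,n1,m1,n2] (e' := [n1,n0,n0,n0,n0,n0,n0,n0,n0,n0,n0,n1,m1,n1,m2])
  (by decide +kernel) (.t t99 ok99) cl92

theorem cl94 : Clo K (Helper55.TR.GH (-1) Helper55.TR.BrU [0,0,1]) r99 :=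
  .i [n0,n0,n4,n0,m2,m2,n0,n0,n1] (e' := [n1,n0,m4,n0,n2,n2,n0,n0,m1]) (by decide +kernel) (by decide +kernel)
  cl91 cl93

theorem cl95 : Clo K (Helper55.TR.GH (-1) Helper55.TR.BrU [0,0,1]) r98 :=
  .i [n0,n0,n4,n0,m2,n3] (e' := [n1,n0,m4,n0,n2,m3]) (by decide +kernel) (by decide +kernel) (.t t95 ok95)
  cl94

theorem cl96 : Clo K (Helper55.TR.GH (-1) Helper55.TR.BrU [0,0,1]) l97 :=
  .i [n0,n0,m4,n0,n2,m3] (e' := [n1,n0,n4,n0,m2,n3]) (by decide +kernel) (by decide +kernel) (.t t94 ok94)
  cl95

theorem cl97 : Clo K (Helper55.TR.GH (-1) Helper55.TR.BrU [0,0,1]) l108 :=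
  .w [n0,n0,n0,n0,n0,n0,n0,n0,n0,n0,n0,n1,m1,n1,m2] (e' := [n1,n0,n0,n0,n0,n0,n0,n0,n0,n0,n0,m1,n1,m1,n2])
  (by decide +kernel) (.t t104 ok104) (.t t105 ok105)

theorem cl98 : Clo K (Helper55.TR.GH (-1) Helper55.TR.BrU [0,0,1]) r107 :=
  .w [n0,n0,n0,n0,n0,n0,n0,n0,n0,n0,n0,n0,n1,m1,n2] (e' := [n1,n0,n0,n0,n0,n0,n0,n0,n0,n0,n0,n0,m1,n1,m2]) (by decide +kernel)
  cl97 (.t t106 ok106)

theorem cl99 : Clo K (Helper55.TR.GH (-1) Helper55.TR.BrU [0,0,1]) r106 :=
  .w [n0,n0,n0,n0,n0,n0,n0,n0,n0,n0,n0,m1,n1,m1,n2] (e' := [n1,n0,n0,n0,n0,n0,n0,n0,n0,n0,n0,n1,m1,n1,m2])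
  (by decide +kernel) (.t t103 ok103) cl98

theorem cl100 : Clo K (Helper55.TR.GH (-1) Helper55.TR.BrU [0,0,1]) l105 :=
  .i [n1,n0,m2,m2,n2,n0,n0,n0,n0,n1,n2] (e' := [n0,n0,n2,n2,m2,n0,n0,n0,n0,m1,m2]) (by decide +kernel)
  (by decide +kernel) (.t t102 ok102) cl99

theorem cl101 : Clo K (Helper55.TR.GH (-1) Helper55.TR.BrU [0,0,1]) r105 :=
  .w [n0,n0,n0,n0,n0,n0,n0,n0,n0,n0,n0,m1,n1,m1,n2] (e' := [n1,n0,n0,n0,n0,n0,n0,n0,n0,n0,n0,n1,m1,n1,m2])
  (by decide +kernel) (.t t107 ok107) (.t t108 ok108)

theorem cl102 : Clo K (Helper55.TR.GH (-1) Helper55.TR.BrU [0,0,1]) r97 :=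
  .i [n0,n0,n4,n0,m2,m2,n0,n0,n1] (e' := [n1,n0,m4,n0,n2,n2,n0,n0,m1]) (by decide +kernel) (by decide +kernel)
  cl100 cl101

theorem cl103 : Clo K (Helper55.TR.GH (-1) Helper55.TR.BrU [0,0,1]) l96 :=
  .i [n1,n0,m3,m3,m2,n0,n0,n0,n0,n0,m7] (e' := [n0,n0,n3,n3,n2,n0,n0,n0,n0,n0,n7]) (by decide +kernel)
  (by decide +kernel) cl96 cl102

theorem cl104 : Clo K (Helper55.TR.GH (-1) Helper55.TR.BrU [0,0,1]) r112 :=
  .w [n0,n0,n0,n0,n0,n0,n0,n0,n0,n0,n0,m1,n1,m1,n2] (e' := [n1,n0,n0,n0,n0,n0,n0,n0,n0,n0,n0,n1,m1,n1,m2])
  (by decide +kernel) (.t t110 ok110) (.t t111 ok111)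

theorem cl105 : Clo K (Helper55.TR.GH (-1) Helper55.TR.BrU [0,0,1]) l111 :=
  .i [n0,n0,n4,n0,m2,m2,n0,n0,n1] (e' := [n1,n0,m4,n0,n2,n2,n0,n0,m1]) (by decide +kernel) (by decide +kernel)
  (.t t109 ok109) cl104

theorem cl106 : Clo K (Helper55.TR.GH (-1) Helper55.TR.BrU [0,0,1]) r115 :=
  .w [n0,n0,n0,n0,n0,n0,n0,n0,n0,n0,n0,n0,n1,m1,n2] (e' := [n1,n0,n0,n0,n0,n0,n0,n0,n0,n0,n0,n0,m1,n1,m2]) (by decide +kernel)
  (.t t113 ok113) (.t t114 ok114)

theorem cl107 : Clo K (Helper55.TR.GH (-1) Helper55.TR.BrU [0,0,1]) l114 :=
  .w [n0,n0,n0,n0,n0,n0,n0,n0,n0,n0,n0,n0,m1,n1,m2] (e' := [n1,n0,n0,n0,n0,n0,n0,n0,n0,n0,n0,n0,n1,m1,n2]) (by decide +kernel)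
  (.t t112 ok112) cl106

theorem cl108 : Clo K (Helper55.TR.GH (-1) Helper55.TR.BrU [0,0,1]) r111 :=
  .w [n0,n0,n0,n0,n0,n0,n0,n0,n0,n0,n0,n1,m1,n1,m2] (e' := [n1,n0,n0,n0,n0,n0,n0,n0,n0,n0,n0,m1,n1,m1,n2])
  (by decide +kernel) cl107 (.t t115 ok115)

theorem cl109 : Clo K (Helper55.TR.GH (-1) Helper55.TR.BrU [0,0,1]) r96 :=
  .i [n1,n0,m2,m2,n2,n0,n0,n0,n0,n1,n2] (e' := [n0,n0,n2,n2,m2,n0,n0,n0,n0,m1,m2]) (by decide +kernel)
  (by decide +kernel) cl105 cl108

theorem cl110 : Clo K (Helper55.TR.GH (-1) Helper55.TR.BrU [0,0,1]) l95 :=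
  .i [n1,n0,n3,n3,n2,n0,n0,n0,n0,n0,n7] (e' := [n0,n0,m3,m3,m2,n0,n0,n0,n0,n0,m7]) (by decide +kernel)
  (by decide +kernel) cl103 cl109

theorem cl111 : Clo K (Helper55.TR.GH (-1) Helper55.TR.BrU [0,0,1]) l119 :=
  .w [n0,n0,n0,n0,n0,n0,n0,n0,n0,n0,n0,n2,m1,n1,m2] (e' := [n1,n0,n0,n0,n0,n0,n0,n0,n0,n0,n0,m2,n1,m1,n2])
  (by decide +kernel) (.t t117 ok117) (.t t118 ok118)

theorem cl112 : Clo K (Helper55.TR.GH (-1) Helper55.TR.BrU [0,0,1]) r118 :=
  .w [n0,n0,n0,n0,n0,n0,n0,n0,n0,n0,n0,m1,n1,m1,n2] (e' := [n1,n0,n0,n0,n0,n0,n0,n0,n0,n0,n0,n1,m1,n1,m2])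
  (by decide +kernel) cl111 (.t t119 ok119)

theorem cl113 : Clo K (Helper55.TR.GH (-1) Helper55.TR.BrU [0,0,1]) l117 :=
  .w [n0,n0,n0,n0,n0,n0,n0,n0,n0,n0,n0,n1,m1,n1,m2] (e' := [n1,n0,n0,n0,n0,n0,n0,n0,n0,n0,n0,m1,n1,m1,n2])
  (by decide +kernel) (.t t116 ok116) cl112

theorem cl114 : Clo K (Helper55.TR.GH (-1) Helper55.TR.BrU [0,0,1]) r95 :=
  .w [n0,n0,n0,n0,n0,n0,n0,n0,n0,n0,n0,n0,n1,m1,n2] (e' := [n1,n0,n0,n0,n0,n0,n0,n0,n0,n0,n0,n0,m1,n1,m2]) (by decide +kernel)
  cl113 (.t t120 ok120)

theorem cl115 : Clo K (Helper55.TR.GH (-1) Helper55.TR.BrU [0,0,1]) r87 :=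
  .i [n1,n0,n2,n2,m2,n0,n0,n0,n0,m1,m2] (e' := [n0,n0,m2,m2,n2,n0,n0,n0,n0,n1,n2]) (by decide +kernel)
  (by decide +kernel) cl110 cl114

theorem cl116 : Clo K (Helper55.TR.GH (-1) Helper55.TR.BrU [0,0,1]) r22 :=
  .i [n1,n0,m1,m1,n0,n0,n0,n1,n0,m1,m1] (e' := [n0,n0,n1,n1,n0,n0,n0,m1,n0,n1,n1]) (by decide +kernel)
  (by decide +kernel) cl89 cl115

theorem cl117 : Clo K (Helper55.TR.GH (-1) Helper55.TR.BrU [0,0,1]) r2 :=
  .i [n1,n0,m1,m1,m2,n0,n0,n0,n0,n0,m5] (e' := [n0,n0,n1,n1,n2,n0,n0,n0,n0,n0,n5]) (by decide +kernel)
  (by decide +kernel) cl82 cl116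

theorem cl118 : Clo K (Helper55.TR.GH (-1) Helper55.TR.BrU [0,0,1]) l1 :=
  .i [n1,n0,m3,m3,n1,n0,n0,n0,n0,n1,m1] (e' := [n0,n0,n3,n3,m1,n0,n0,n0,n0,m1,n1]) (by decide +kernel)
  (by decide +kernel) cl18 cl117

theorem cl119 : Clo K (Helper55.TR.GH (-1) Helper55.TR.BrU [0,0,1]) l128 :=
  .w [n0,n0,n0,n0,n0,n0,n0,n0,n0,n0,n0,n0,n1,m1,n2] (e' := [n1,n0,n0,n0,n0,n0,n0,n0,n0,n0,n0,n0,m1,n1,m2]) (by decide +kernel)
  (.t t124 ok124) (.t t125 ok125)

theorem cl120 : Clo K (Helper55.TR.GH (-1) Helper55.TR.BrU [0,0,1]) r127 :=
  .w [n0,n0,n0,n0,n0,n0,n0,n0,n0,n0,n0,n1,m1,n1,m2] (e' := [n1,n0,n0,n0,n0,n0,n0,n0,n0,n0,n0,m1,n1,m1,n2])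
  (by decide +kernel) cl119 (.t t126 ok126)

theorem cl121 : Clo K (Helper55.TR.GH (-1) Helper55.TR.BrU [0,0,1]) l126 :=
  .i [n0,n0,n4,n0,m2,m2,n0,n0,n1] (e' := [n1,n0,m4,n0,n2,n2,n0,n0,m1]) (by decide +kernel) (by decide +kernel)
  (.t t123 ok123) cl120

theorem cl122 : Clo K (Helper55.TR.GH (-1) Helper55.TR.BrU [0,0,1]) l130 :=
  .w [n0,n0,n0,n0,n0,n0,n0,n0,n0,n0,n0,n0,n1,m1,n2] (e' := [n1,n0,n0,n0,n0,n0,n0,n0,n0,n0,n0,n0,m1,n1,m2]) (by decide +kernel)
  (.t t127 ok127) (.t t128 ok128)

theorem cl123 : Clo K (Helper55.TR.GH (-1) Helper55.TR.BrU [0,0,1]) r126 :=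
  .w [n0,n0,n0,n0,n0,n0,n0,n0,n0,n0,n0,n1,m1,n1,m2] (e' := [n1,n0,n0,n0,n0,n0,n0,n0,n0,n0,n0,m1,n1,m1,n2])
  (by decide +kernel) cl122 (.t t129 ok129)

theorem cl124 : Clo K (Helper55.TR.GH (-1) Helper55.TR.BrU [0,0,1]) r125 :=
  .i [n1,n0,m2,m2,n2,n0,n0,n0,n0,n1,n2] (e' := [n0,n0,n2,n2,m2,n0,n0,n0,n0,m1,m2]) (by decide +kernel)
  (by decide +kernel) cl121 cl123

theorem cl125 : Clo K (Helper55.TR.GH (-1) Helper55.TR.BrU [0,0,1]) l124 :=
  .i [n1,n0,m1,m1,m3,n0,n0,n0,n0,n0,m7] (e' := [n0,n0,n1,n1,n3,n0,n0,n0,n0,n0,n7]) (by decide +kernel)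
  (by decide +kernel) (.t t122 ok122) cl124

theorem cl126 : Clo K (Helper55.TR.GH (-1) Helper55.TR.BrU [0,0,1]) l134 :=
  .w [n0,n0,n0,n0,n0,n0,n0,n0,n0,n0,n0,n0,n1,m1,n2] (e' := [n1,n0,n0,n0,n0,n0,n0,n0,n0,n0,n0,n0,m1,n1,m2]) (by decide +kernel)
  (.t t131 ok131) (.t t132 ok132)

theorem cl127 : Clo K (Helper55.TR.GH (-1) Helper55.TR.BrU [0,0,1]) r133 :=
  .w [n0,n0,n0,n0,n0,n0,n0,n0,n0,n0,n0,n1,m1,n1,m2] (e' := [n1,n0,n0,n0,n0,n0,n0,n0,n0,n0,n0,m1,n1,m1,n2])
  (by decide +kernel) cl126 (.t t133 ok133)

theorem cl128 : Clo K (Helper55.TR.GH (-1) Helper55.TR.BrU [0,0,1]) l132 :=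
  .i [n1,n0,m2,m2,n2,n0,n0,n0,n0,n1,n2] (e' := [n0,n0,n2,n2,m2,n0,n0,n0,n0,m1,m2]) (by decide +kernel)
  (by decide +kernel) (.t t130 ok130) cl127

theorem cl129 : Clo K (Helper55.TR.GH (-1) Helper55.TR.BrU [0,0,1]) l136 :=
  .w [n0,n0,n0,n0,n0,n0,n0,n0,n0,n0,n0,n0,n1,m1,n2] (e' := [n1,n0,n0,n0,n0,n0,n0,n0,n0,n0,n0,n0,m1,n1,m2]) (by decide +kernel)
  (.t t134 ok134) (.t t135 ok135)

theorem cl130 : Clo K (Helper55.TR.GH (-1) Helper55.TR.BrU [0,0,1]) r132 :=
  .w [n0,n0,n0,n0,n0,n0,n0,n0,n0,n0,n0,n1,m1,n1,m2] (e' := [n1,n0,n0,n0,n0,n0,n0,n0,n0,n0,n0,m1,n1,m1,n2])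
  (by decide +kernel) cl129 (.t t136 ok136)

theorem cl131 : Clo K (Helper55.TR.GH (-1) Helper55.TR.BrU [0,0,1]) r124 :=
  .i [n0,n0,n4,n0,m2,m2,n0,n0,n1] (e' := [n1,n0,m4,n0,n2,n2,n0,n0,m1]) (by decide +kernel) (by decide +kernel)
  cl128 cl130

theorem cl132 : Clo K (Helper55.TR.GH (-1) Helper55.TR.BrU [0,0,1]) r123 :=
  .i [n1,n0,n1,n1,n3,n0,n0,n0,n0,n0,n7] (e' := [n0,n0,m1,m1,m3,n0,n0,n0,n0,n0,m7]) (by decide +kernel)
  (by decide +kernel) cl125 cl131

theorem cl133 : Clo K (Helper55.TR.GH (-1) Helper55.TR.BrU [0,0,1]) l122 :=
  .i [n1,n0,n3,n3,m1,n0,n0,m1,n0,n0,n1] (e' := [n0,n0,m3,m3,n1,n0,n0,n1,n0,n0,m1]) (by decide +kernel)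
  (by decide +kernel) (.t t121 ok121) cl132

theorem cl134 : Clo K (Helper55.TR.GH (-1) Helper55.TR.BrU [0,0,1]) r144 :=
  .w [n0,n0,n0,n0,n0,n0,n0,n0,n0,n0,n0,n0,n1,m1,n2] (e' := [n1,n0,n0,n0,n0,n0,n0,n0,n0,n0,n0,n0,m1,n1,m2]) (by decide +kernel)
  (.t t140 ok140) (.t t141 ok141)

theorem cl135 : Clo K (Helper55.TR.GH (-1) Helper55.TR.BrU [0,0,1]) l143 :=
  .i [n1,n0,n1,n1,n0,n0,n0,n2,n0,n2] (e' := [n0,n0,m1,m1,n0,n0,n0,m2,n0,m2]) (by decide +kernel)
  (by decide +kernel) (.t t139 ok139) cl134

theorem cl136 : Clo K (Helper55.TR.GH (-1) Helper55.TR.BrU [0,0,1]) r146 :=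
  .w [n0,n0,n0,n0,n0,n0,n0,n0,n0,n0,n0,n0,m1,n1,m2] (e' := [n1,n0,n0,n0,n0,n0,n0,n0,n0,n0,n0,n0,n1,m1,n2]) (by decide +kernel)
  (.t t143 ok143) (.t t144 ok144)

theorem cl137 : Clo K (Helper55.TR.GH (-1) Helper55.TR.BrU [0,0,1]) r143 :=
  .w [n0,n0,n0,n0,n0,n0,n0,n0,n0,n0,n0,n0,n1,m1,n2] (e' := [n1,n0,n0,n0,n0,n0,n0,n0,n0,n0,n0,n0,m1,n1,m2]) (by decide +kernel)
  (.t t142 ok142) cl136

theorem cl138 : Clo K (Helper55.TR.GH (-1) Helper55.TR.BrU [0,0,1]) l142 :=
  .i [n1,n0,m1,m1,n0,n0,n0,m2,n0,m2] (e' := [n0,n0,n1,n1,n0,n0,n0,n2,n0,n2]) (by decide +kernel)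
  (by decide +kernel) cl135 cl137

theorem cl139 : Clo K (Helper55.TR.GH (-1) Helper55.TR.BrU [0,0,1]) r141 :=
  .w [n0,n0,n0,n0,n0,n0,n0,n0,n0,n0,n0,n1,m1,n1,m2] (e' := [n1,n0,n0,n0,n0,n0,n0,n0,n0,n0,n0,m1,n1,m1,n2])
  (by decide +kernel) cl138 (.t t145 ok145)

theorem cl140 : Clo K (Helper55.TR.GH (-1) Helper55.TR.BrU [0,0,1]) l140 :=
  .i [n1,n0,m1,m1,m2,n0,n0,n0,n0,n0,m5] (e' := [n0,n0,n1,n1,n2,n0,n0,n0,n0,n0,n5]) (by decide +kernel)
  (by decide +kernel) (.t t138 ok138) cl139

theorem cl141 : Clo K (Helper55.TR.GH (-1) Helper55.TR.BrU [0,0,1]) r148 :=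
  .w [n0,n0,n0,n0,n0,n0,n0,n0,n0,n0,n0,n0,n1,m1,n2] (e' := [n1,n0,n0,n0,n0,n0,n0,n0,n0,n0,n0,n0,m1,n1,m2]) (by decide +kernel)
  (.t t147 ok147) (.t t148 ok148)

theorem cl142 : Clo K (Helper55.TR.GH (-1) Helper55.TR.BrU [0,0,1]) r140 :=
  .w [n0,n0,n0,n0,n0,n0,n0,n0,n0,n0,n0,m1,n1,m1,n2] (e' := [n1,n0,n0,n0,n0,n0,n0,n0,n0,n0,n0,n1,m1,n1,m2])
  (by decide +kernel) (.t t146 ok146) cl141

theorem cl143 : Clo K (Helper55.TR.GH (-1) Helper55.TR.BrU [0,0,1]) r139 :=
  .i [n1,n0,n1,n1,n2,n0,n0,n0,n0,n0,n5] (e' := [n0,n0,m1,m1,m2,n0,n0,n0,n0,n0,m5]) (by decide +kernel)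
  (by decide +kernel) cl140 cl142

theorem cl144 : Clo K (Helper55.TR.GH (-1) Helper55.TR.BrU [0,0,1]) l138 :=
  .i [n1,n0,m2,m2,n2,n0,n0,n0,n0,n1,n2] (e' := [n0,n0,n2,n2,m2,n0,n0,n0,n0,m1,m2]) (by decide +kernel)
  (by decide +kernel) (.t t137 ok137) cl143

theorem cl145 : Clo K (Helper55.TR.GH (-1) Helper55.TR.BrU [0,0,1]) r151 :=
  .w [n0,n0,n0,n0,n0,n0,n0,n0,n0,n0,n0,n0,n1,m1,n2] (e' := [n1,n0,n0,n0,n0,n0,n0,n0,n0,n0,n0,n0,m1,n1,m2]) (by decide +kernel)
  (.t t150 ok150) (.t t151 ok151)

theorem cl146 : Clo K (Helper55.TR.GH (-1) Helper55.TR.BrU [0,0,1]) l150 :=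
  .w [n0,n0,n0,n0,n0,n0,n0,n0,n0,n0,n0,n0,m1,n1,m2] (e' := [n1,n0,n0,n0,n0,n0,n0,n0,n0,n0,n0,n0,n1,m1,n2]) (by decide +kernel)
  (.t t149 ok149) cl145

theorem cl147 : Clo K (Helper55.TR.GH (-1) Helper55.TR.BrU [0,0,1]) r150 :=
  .w [n0,n0,n0,n0,n0,n0,n0,n0,n0,n0,n0,m1,n1,m1,n2] (e' := [n1,n0,n0,n0,n0,n0,n0,n0,n0,n0,n0,n1,m1,n1,m2])
  (by decide +kernel) (.t t152 ok152) (.t t153 ok153)

theorem cl148 : Clo K (Helper55.TR.GH (-1) Helper55.TR.BrU [0,0,1]) r138 :=
  .w [n0,n0,n0,n0,n0,n0,n0,n0,n0,n0,n0,n1,m1,n1,m2] (e' := [n1,n0,n0,n0,n0,n0,n0,n0,n0,n0,n0,m1,n1,m1,n2])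
  (by decide +kernel) cl146 cl147

theorem cl149 : Clo K (Helper55.TR.GH (-1) Helper55.TR.BrU [0,0,1]) r122 :=
  .i [n0,n0,n4,n0,m2,m2,n0,n0,n1] (e' := [n1,n0,m4,n0,n2,n2,n0,n0,m1]) (by decide +kernel) (by decide +kernel)
  cl144 cl148

theorem cl150 : Clo K (Helper55.TR.GH (-1) Helper55.TR.BrU [0,0,1]) l121 :=
  .i [n1,n0,m3,m3,n1,n0,n0,n1,n0,n0,m1] (e' := [n0,n0,n3,n3,m1,n0,n0,m1,n0,n0,n1]) (by decide +kernel)
  (by decide +kernel) cl133 cl149

theorem cl151 : Clo K (Helper55.TR.GH (-1) Helper55.TR.BrU [0,0,1]) l157 :=
  .w [n0,n0,n0,n0,n0,n0,n0,n0,n0,n0,n0,n0,n1,m1,n2] (e' := [n1,n0,n0,n0,n0,n0,n0,n0,n0,n0,n0,n0,m1,n1,m2]) (by decide +kernel)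
  (.t t155 ok155) (.t t156 ok156)

theorem cl152 : Clo K (Helper55.TR.GH (-1) Helper55.TR.BrU [0,0,1]) r156 :=
  .w [n0,n0,n0,n0,n0,n0,n0,n0,n0,n0,n0,n1,m1,n1,m2] (e' := [n1,n0,n0,n0,n0,n0,n0,n0,n0,n0,n0,m1,n1,m1,n2])
  (by decide +kernel) cl151 (.t t157 ok157)

theorem cl153 : Clo K (Helper55.TR.GH (-1) Helper55.TR.BrU [0,0,1]) l155 :=
  .i [n0,n0,n0,n0,n0,m1,n1,n0,m1] (e' := [n1,n0,n0,n0,n0,n1,m1,n0,n1]) (by decide +kernel) (by decide +kernel) (.t
  t154 ok154) cl152

theorem cl154 : Clo K (Helper55.TR.GH (-1) Helper55.TR.BrU [0,0,1]) l161 :=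
  .w [n0,n0,n0,n0,n0,n0,n0,n0,n0,n0,n0,n0,n1,m1,n2] (e' := [n1,n0,n0,n0,n0,n0,n0,n0,n0,n0,n0,n0,m1,n1,m2]) (by decide +kernel)
  (.t t159 ok159) (.t t160 ok160)

theorem cl155 : Clo K (Helper55.TR.GH (-1) Helper55.TR.BrU [0,0,1]) l163 :=
  .w [n0,n0,n0,n0,n0,n0,n0,n0,n0,n0,n0,n2,m1,n1,m2] (e' := [n1,n0,n0,n0,n0,n0,n0,n0,n0,n0,n0,m2,n1,m1,n2])
  (by decide +kernel) (.t t161 ok161) (.t t162 ok162)

theorem cl156 : Clo K (Helper55.TR.GH (-1) Helper55.TR.BrU [0,0,1]) r161 :=
  .w [n0,n0,n0,n0,n0,n0,n0,n0,n0,n0,n0,m1,n1,m1,n2] (e' := [n1,n0,n0,n0,n0,n0,n0,n0,n0,n0,n0,n1,m1,n1,m2])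
  (by decide +kernel) cl155 (.t t163 ok163)

theorem cl157 : Clo K (Helper55.TR.GH (-1) Helper55.TR.BrU [0,0,1]) r160 :=
  .w [n0,n0,n0,n0,n0,n0,n0,n0,n0,n0,n0,n1,m1,n1,m2] (e' := [n1,n0,n0,n0,n0,n0,n0,n0,n0,n0,n0,m1,n1,m1,n2])
  (by decide +kernel) cl154 cl156

theorem cl158 : Clo K (Helper55.TR.GH (-1) Helper55.TR.BrU [0,0,1]) l159 :=
  .i [n1,n0,m3,m3,n1,n0,n0,n1,n0,n0,m1] (e' := [n0,n0,n3,n3,m1,n0,n0,m1,n0,n0,n1]) (by decide +kernel)
  (by decide +kernel) (.t t158 ok158) cl157

theorem cl159 : Clo K (Helper55.TR.GH (-1) Helper55.TR.BrU [0,0,1]) l167 :=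
  .w [n0,n0,n0,n0,n0,n0,n0,n0,n0,n0,n0,n2,m1,n1,m2] (e' := [n1,n0,n0,n0,n0,n0,n0,n0,n0,n0,n0,m2,n1,m1,n2])
  (by decide +kernel) (.t t165 ok165) (.t t166 ok166)

theorem cl160 : Clo K (Helper55.TR.GH (-1) Helper55.TR.BrU [0,0,1]) r166 :=
  .w [n0,n0,n0,n0,n0,n0,n0,n0,n0,n0,n0,m1,n1,m1,n2] (e' := [n1,n0,n0,n0,n0,n0,n0,n0,n0,n0,n0,n1,m1,n1,m2])
  (by decide +kernel) cl159 (.t t167 ok167)

theorem cl161 : Clo K (Helper55.TR.GH (-1) Helper55.TR.BrU [0,0,1]) l165 :=
  .i [n1,n0,m1,m1,m2,n0,n0,n0,n0,n0,m5] (e' := [n0,n0,n1,n1,n2,n0,n0,n0,n0,n0,n5]) (by decide +kernel)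
  (by decide +kernel) (.t t164 ok164) cl160

theorem cl162 : Clo K (Helper55.TR.GH (-1) Helper55.TR.BrU [0,0,1]) l169 :=
  .w [n0,n0,n0,n0,n0,n0,n0,n0,n0,n0,n0,n2,m1,n1,m2] (e' := [n1,n0,n0,n0,n0,n0,n0,n0,n0,n0,n0,m2,n1,m1,n2])
  (by decide +kernel) (.t t168 ok168) (.t t169 ok169)

theorem cl163 : Clo K (Helper55.TR.GH (-1) Helper55.TR.BrU [0,0,1]) r169 :=
  .w [n0,n0,n0,n0,n0,n0,n0,n0,n0,n0,n0,n0,n1,m1,n2] (e' := [n1,n0,n0,n0,n0,n0,n0,n0,n0,n0,n0,n0,m1,n1,m2]) (by decide +kernel)
  (.t t170 ok170) (.t t171 ok171)

theorem cl164 : Clo K (Helper55.TR.GH (-1) Helper55.TR.BrU [0,0,1]) r165 :=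
  .w [n0,n0,n0,n0,n0,n0,n0,n0,n0,n0,n0,m1,n1,m1,n2] (e' := [n1,n0,n0,n0,n0,n0,n0,n0,n0,n0,n0,n1,m1,n1,m2])
  (by decide +kernel) cl162 cl163

theorem cl165 : Clo K (Helper55.TR.GH (-1) Helper55.TR.BrU [0,0,1]) r159 :=
  .i [n1,n0,n1,n1,n2,n0,n0,n0,n0,n0,n5] (e' := [n0,n0,m1,m1,m2,n0,n0,n0,n0,n0,m5]) (by decide +kernel)
  (by decide +kernel) cl161 cl164

theorem cl166 : Clo K (Helper55.TR.GH (-1) Helper55.TR.BrU [0,0,1]) r155 :=
  .i [n1,n0,n3,n3,m1,n0,n0,m1,n0,n0,n1] (e' := [n0,n0,m3,m3,n1,n0,n0,n1,n0,n0,m1]) (by decide +kernel)
  (by decide +kernel) cl158 cl165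

theorem cl167 : Clo K (Helper55.TR.GH (-1) Helper55.TR.BrU [0,0,1]) l154 :=
  .i [n1,n0,n1,n1,n0,n0,n0,m1,n0,n1,n1] (e' := [n0,n0,m1,m1,n0,n0,n0,n1,n0,m1,m1]) (by decide +kernel)
  (by decide +kernel) cl153 cl166

theorem cl168 : Clo K (Helper55.TR.GH (-1) Helper55.TR.BrU [0,0,1]) l174 :=
  .w [n0,n0,n0,n0,n0,n0,n0,n0,n0,n0,n0,n0,n1,m1,n2] (e' := [n1,n0,n0,n0,n0,n0,n0,n0,n0,n0,n0,n0,m1,n1,m2]) (by decide +kernel)
  (.t t173 ok173) (.t t174 ok174)

theorem cl169 : Clo K (Helper55.TR.GH (-1) Helper55.TR.BrU [0,0,1]) l176 :=
  .w [n0,n0,n0,n0,n0,n0,n0,n0,n0,n0,n0,n2,m1,n1,m2] (e' := [n1,n0,n0,n0,n0,n0,n0,n0,n0,n0,n0,m2,n1,m1,n2])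
  (by decide +kernel) (.t t175 ok175) (.t t176 ok176)

theorem cl170 : Clo K (Helper55.TR.GH (-1) Helper55.TR.BrU [0,0,1]) r174 :=
  .w [n0,n0,n0,n0,n0,n0,n0,n0,n0,n0,n0,m1,n1,m1,n2] (e' := [n1,n0,n0,n0,n0,n0,n0,n0,n0,n0,n0,n1,m1,n1,m2])
  (by decide +kernel) cl169 (.t t177 ok177)

theorem cl171 : Clo K (Helper55.TR.GH (-1) Helper55.TR.BrU [0,0,1]) r173 :=
  .w [n0,n0,n0,n0,n0,n0,n0,n0,n0,n0,n0,n1,m1,n1,m2] (e' := [n1,n0,n0,n0,n0,n0,n0,n0,n0,n0,n0,m1,n1,m1,n2])
  (by decide +kernel) cl168 cl170

theorem cl172 : Clo K (Helper55.TR.GH (-1) Helper55.TR.BrU [0,0,1]) l172 :=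
  .i [n1,n0,m1,m1,n1,n0,n0,m1,n0,n2,n1] (e' := [n0,n0,n1,n1,m1,n0,n0,n1,n0,m2,m1]) (by decide +kernel)
  (by decide +kernel) (.t t172 ok172) cl171

theorem cl173 : Clo K (Helper55.TR.GH (-1) Helper55.TR.BrU [0,0,1]) l184 :=
  .w [n0,n0,n0,n0,n0,n0,n0,n0,n0,n0,n0,n0,n1,m1,n2] (e' := [n1,n0,n0,n0,n0,n0,n0,n0,n0,n0,n0,n0,m1,n1,m2]) (by decide +kernel)
  (.t t181 ok181) (.t t182 ok182)

theorem cl174 : Clo K (Helper55.TR.GH (-1) Helper55.TR.BrU [0,0,1]) r183 :=
  .w [n0,n0,n0,n0,n0,n0,n0,n0,n0,n0,n0,n1,m1,n1,m2] (e' := [n1,n0,n0,n0,n0,n0,n0,n0,n0,n0,n0,m1,n1,m1,n2])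
  (by decide +kernel) cl173 (.t t183 ok183)

theorem cl175 : Clo K (Helper55.TR.GH (-1) Helper55.TR.BrU [0,0,1]) r182 :=
  .i [n0,n0,n2,n0,m1,n3] (e' := [n1,n0,m2,n0,n1,m3]) (by decide +kernel) (by decide +kernel) (.t t180 ok180)
  cl174

theorem cl176 : Clo K (Helper55.TR.GH (-1) Helper55.TR.BrU [0,0,1]) l181 :=
  .i [n0,n0,m2,n0,n1,m3] (e' := [n1,n0,n2,n0,m1,n3]) (by decide +kernel) (by decide +kernel) (.t t179 ok179)
  cl175

theorem cl177 : Clo K (Helper55.TR.GH (-1) Helper55.TR.BrU [0,0,1]) l186 :=
  .w [n0,n0,n0,n0,n0,n0,n0,n0,n0,n0,n0,n2,m1,n1,m2] (e' := [n1,n0,n0,n0,n0,n0,n0,n0,n0,n0,n0,m2,n1,m1,n2])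
  (by decide +kernel) (.t t184 ok184) (.t t185 ok185)

theorem cl178 : Clo K (Helper55.TR.GH (-1) Helper55.TR.BrU [0,0,1]) l188 :=
  .w [n0,n0,n0,n0,n0,n0,n0,n0,n0,n0,n0,n1,m1,n1,m2] (e' := [n1,n0,n0,n0,n0,n0,n0,n0,n0,n0,n0,m1,n1,m1,n2])
  (by decide +kernel) (.t t186 ok186) (.t t187 ok187)

theorem cl179 : Clo K (Helper55.TR.GH (-1) Helper55.TR.BrU [0,0,1]) r186 :=
  .w [n0,n0,n0,n0,n0,n0,n0,n0,n0,n0,n0,n0,n1,m1,n2] (e' := [n1,n0,n0,n0,n0,n0,n0,n0,n0,n0,n0,n0,m1,n1,m2]) (by decide +kernel)
  cl178 (.t t188 ok188)

theorem cl180 : Clo K (Helper55.TR.GH (-1) Helper55.TR.BrU [0,0,1]) r181 :=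
  .w [n0,n0,n0,n0,n0,n0,n0,n0,n0,n0,n0,m1,n1,m1,n2] (e' := [n1,n0,n0,n0,n0,n0,n0,n0,n0,n0,n0,n1,m1,n1,m2])
  (by decide +kernel) cl177 cl179

theorem cl181 : Clo K (Helper55.TR.GH (-1) Helper55.TR.BrU [0,0,1]) l180 :=
  .i [n1,n0,m3,m3,m1,n0,n0,n0,n0,n0,m5] (e' := [n0,n0,n3,n3,n1,n0,n0,n0,n0,n0,n5]) (by decide +kernel)
  (by decide +kernel) cl176 cl180

theorem cl182 : Clo K (Helper55.TR.GH (-1) Helper55.TR.BrU [0,0,1]) l190 :=
  .w [n0,n0,n0,n0,n0,n0,n0,n0,n0,n0,n0,n2,m1,n1,m2] (e' := [n1,n0,n0,n0,n0,n0,n0,n0,n0,n0,n0,m2,n1,m1,n2])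
  (by decide +kernel) (.t t189 ok189) (.t t190 ok190)

theorem cl183 : Clo K (Helper55.TR.GH (-1) Helper55.TR.BrU [0,0,1]) r180 :=
  .w [n0,n0,n0,n0,n0,n0,n0,n0,n0,n0,n0,m1,n1,m1,n2] (e' := [n1,n0,n0,n0,n0,n0,n0,n0,n0,n0,n0,n1,m1,n1,m2])
  (by decide +kernel) cl182 (.t t191 ok191)

theorem cl184 : Clo K (Helper55.TR.GH (-1) Helper55.TR.BrU [0,0,1]) r179 :=
  .i [n1,n0,n3,n3,n1,n0,n0,n0,n0,n0,n5] (e' := [n0,n0,m3,m3,m1,n0,n0,n0,n0,n0,m5]) (by decide +kernel)
  (by decide +kernel) cl181 cl183

theorem cl185 : Clo K (Helper55.TR.GH (-1) Helper55.TR.BrU [0,0,1]) l178 :=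
  .i [n1,n0,n0,n0,m1,n0,n0,n1,n0,m2,m2] (e' := [n0,n0,n0,n0,n1,n0,n0,m1,n0,n2,n2]) (by decide +kernel)
  (by decide +kernel) (.t t178 ok178) cl184

theorem cl186 : Clo K (Helper55.TR.GH (-1) Helper55.TR.BrU [0,0,1]) l192 :=
  .w [n0,n0,n0,n0,n0,n0,n0,n0,n0,n0,n0,n0,n1,m1,n2] (e' := [n1,n0,n0,n0,n0,n0,n0,n0,n0,n0,n0,n0,m1,n1,m2]) (by decide +kernel)
  (.t t192 ok192) (.t t193 ok193)

theorem cl187 : Clo K (Helper55.TR.GH (-1) Helper55.TR.BrU [0,0,1]) l194 :=
  .w [n0,n0,n0,n0,n0,n0,n0,n0,n0,n0,n0,n2,m1,n1,m2] (e' := [n1,n0,n0,n0,n0,n0,n0,n0,n0,n0,n0,m2,n1,m1,n2])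
  (by decide +kernel) (.t t194 ok194) (.t t195 ok195)

theorem cl188 : Clo K (Helper55.TR.GH (-1) Helper55.TR.BrU [0,0,1]) r192 :=
  .w [n0,n0,n0,n0,n0,n0,n0,n0,n0,n0,n0,m1,n1,m1,n2] (e' := [n1,n0,n0,n0,n0,n0,n0,n0,n0,n0,n0,n1,m1,n1,m2])
  (by decide +kernel) cl187 (.t t196 ok196)

theorem cl189 : Clo K (Helper55.TR.GH (-1) Helper55.TR.BrU [0,0,1]) r178 :=
  .w [n0,n0,n0,n0,n0,n0,n0,n0,n0,n0,n0,n1,m1,n1,m2] (e' := [n1,n0,n0,n0,n0,n0,n0,n0,n0,n0,n0,m1,n1,m1,n2])
  (by decide +kernel) cl186 cl188

theorem cl190 : Clo K (Helper55.TR.GH (-1) Helper55.TR.BrU [0,0,1]) r172 :=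
  .i [n1,n0,n0,n0,n1,n0,n0,m1,n0,n2,n2] (e' := [n0,n0,n0,n0,m1,n0,n0,n1,n0,m2,m2]) (by decide +kernel)
  (by decide +kernel) cl185 cl189

theorem cl191 : Clo K (Helper55.TR.GH (-1) Helper55.TR.BrU [0,0,1]) r154 :=
  .i [n1,n0,n1,n1,m1,n0,n0,n1,n0,m2,m1] (e' := [n0,n0,m1,m1,n1,n0,n0,m1,n0,n2,n1]) (by decide +kernel)
  (by decide +kernel) cl172 cl190

theorem cl192 : Clo K (Helper55.TR.GH (-1) Helper55.TR.BrU [0,0,1]) r121 :=
  .i [n1,n0,m1,m1,n0,n0,n0,n1,n0,m1,m1] (e' := [n0,n0,n1,n1,n0,n0,n0,m1,n0,n1,n1]) (by decide +kernel)
  (by decide +kernel) cl167 cl191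

theorem cl193 : Clo K (Helper55.TR.GH (-1) Helper55.TR.BrU [0,0,1]) r1 :=
  .i [n1,n0,n2,n2,m2,n0,n0,n0,n0,m1,m2] (e' := [n0,n0,m2,m2,n2,n0,n0,n0,n0,n1,n2]) (by decide +kernel)
  (by decide +kernel) cl150 cl192

theorem cl194 : Clo K (Helper55.TR.GH (-1) Helper55.TR.BrU [0,0,1]) r0 :=
  .i [n1,n0,n3,n3,m1,n0,n0,n0,n0,m1,n1] (e' := [n0,n0,m3,m3,n1,n0,n0,n0,n0,n1,m1]) (by decide +kernel)
  (by decide +kernel) cl118 cl193

theorem cl195 : Clo K (Helper55.TR.GH (-1) Helper55.TR.BrU [0,0,1]) base :=
  .i [n0,n0,n2,n0,m1,n0,n1,n0,m1] (e' := [n1,n0,m2,n0,n1,n0,m1,n0,n1]) (by decide +kernel) (by decide +kernel)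
  (.t t0 ok0) cl194

theorem g : Helper55.TR.GH (-1) Helper55.TR.BrU [0,0,1] base :=
  Helper55.TR.GH.of (Or.inl rfl) cl195

end Helper55.CD.D1_m1_c19u_40_1_2

namespace Helper55.CD.D1_m1_c19u_40_1

open Helper25.KG Helper25.KW Helper55.KE Helper11.CT Helper55.TR.Nm

noncomputable def K : Cls :=
  Helper55.TR.KH (-1) [0,0,1]

noncomputable def base : List Con :=
  [(true,[n1,n1,n0,n0,n0,n0,n0,n0,n0,n1]),
  (true,[n0,n0,n0,n0,n1,n0,n0,n0,n0,n0,m2]),
  (true,[n0,n0,n0,n0,n1,n0,n0,n0,n0,n0,n2]),
  (true,[n0,m2,n0,n0,n1]),
  (true,[n0,n0,n0,n1]),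
  (true,[n0,n0,m2,m2,n1]),
  (false,[n0,n0,n0,m1,n0,n0,n0,n0,m1,m1,n0,n0,n0,n1]),
  (false,[n0,n0,n1,n0,n0,n0,m1,n0,n0,n0,n0,n0,n1]),
  (false,[n0,n0,n0,n0,n0,n0,n0,n0,n1,n0,n0,n0,n0,m1]),
  (true,[n0,n0,m2,n0,n1]),
  (false,[n0,n0,n0,n0,n1,n0,n0,n0,n0,n0,n0,m2]),
  (true,[n1,n0,n2,n2,m1,n0,n0,n0,n0,m1]),
  (true,[n1,m2,n1]),
  (false,[n0,n0,n2,n0,m1,n0,n1,n0,n0,n0,n0,n0,m1]),
  (false,[n0,n0,n0,n0,n0,n0,n0,n0,n0,n0,n0,n1,n0,m1]),
  (false,[n0,m1,n0,n1,n0,n0,n1,n1,n0,n0,n0,n0,m1]),
  (true,[n0,n0,n0,n0,n0,n1]),
  (true,[m1,n1]),
  (true,[n1,n0,n2,n0,m1,m2,m1,n0,n2]),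
  (true,[n1,n0,n0,m1,n0,n0,n0,m1]),
  (true,[n1,n0,n2,n2,m1,n0,n0,m1]),
  (true,[n0,n1,n0,m1]),
  (false,[n0,n0,n0,n0,n0,n0,n0,n0,n0,n0,n0,n0,n0,n1]),
  (false,[n0,n0,n0,n0,n0,n0,n0,n0,n0,n0,n0,n0,n1]),
  (true,[n0,n0,m4,m4,n2,n0,n0,n1]),
  (false,[n0,n0,n1,n0,n0,n0,m1,n0,n0,n0,n0,m1,n1]),
  (false,[n0,m1,n0,n0,n0,n0,n1,n1,n0,n0,n0,n1,m1]),
  (true,[n0,m1,n0,n1,n0,n0,n0,n0,n0,m1]),
  (false,[n0,n0,n0,n0,n0,m1,n0,n0,n0,n0,n0,n1,n0,m1]),
  (false,[n0,n0,m1,n0,n1,n0,m2,n0,n0,n0,n0,m1,n2]),
  (false,[n0,n0,n0,m2,n0,n0,n1,n1,n0,n0,n0,n0,m1]),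
  (true,[n0,m1,n1,n0,n0,n0,n0,n1]),
  (false,[n0,n0,n0,n0,n0,n0,n0,n0,n0,n0,n0,n1,m1]),
  (false,[n0,n0,n0,n0,n0,m2,n0,n0,n0,n0,n0,n0,n1]),
  (true,[n1,m1,n0,m1,n0,n0,n0,m1]),
  (true,[n0,n1,m2,m1,n1,n0,n0,n1]),
  (false,[n0,n0,n1,n0,n0,n0,n1,n0,n0,n0,n0,n0,m1]),
  (false,[n0,n0,n0,n0,n0,m1,n0,n0,n0,n0,n0,n1,m1]),
  (false,[n0,n0,n0,n0,n0,n0,n1,n0,n0,n0,n0,n1,m1]),
  (false,[n0,n0,n1,n0,n0,n0,n0,n0,n0,n0,n0,m1]),
  (false,[n0,n1,n1,m1,n0,n0,m1,n0,n0,n0,n0,m1,n1])]

noncomputable def l0 : List Con := (true, [n1,n0,m2,m2,n1,n0,n0,n0,n0,n1]) :: base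

noncomputable def r0 : List Con := (true, [n0,n0,n2,n2,m1,n0,n0,n0,n0,m1]) :: base

noncomputable def l1 : List Con := (true, [n1,n0,n0,n0,m1,n0,n0,m1,n0,n1,m2]) :: r0

noncomputable def r1 : List Con := (true, [n0,n0,n0,n0,n1,n0,n0,n1,n0,m1,n2]) :: r0

noncomputable def l2 : List Con := (true, [n1,n0,n0,n0,n1,n0,n0,n1,n0,m1,n2]) :: l1

noncomputable def r2 : List Con := (true, [n0,n0,n0,n0,m1,n0,n0,m1,n0,n1,m2]) :: l1

noncomputable def l3 : List Con := (true, [n0,n0,m2,n0,n1,n0,m1,n0,n1]) :: l2

noncomputable def r3 : List Con := (true, [n1,n0,n2,n0,m1,n0,n1,n0,m1]) :: l2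

noncomputable def l4 : List Con := (true, [n0,n0,n0,n0,n0,n1,m1,n0,n1]) :: r3

noncomputable def r4 : List Con := (true, [n1,n0,n0,n0,n0,m1,n1,n0,m1]) :: r3

noncomputable def l5 : List Con := (true, [n0,n0,n2,n0,m1,m3,n0,n0,n1]) :: l4

noncomputable def r5 : List Con := (true, [n1,n0,m2,n0,n1,n3,n0,n0,m1]) :: l4

noncomputable def t0 : Tre :=
  (.N [0,-2,0,1] (-1) ⟨0,[(0,0)]⟩ ⟨0,[(12,0)]⟩ (.x 1 ⟨1,[(14,0),(4,0),(14,0)]⟩ ⟨1,[(1,1),(2,0),(0,
  1),(1,1),(2,1),(0,0),(3,1),(1,3)]⟩))

theorem ok0 : chk K t0 l0 = true := by decide +kernel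

noncomputable def t1 : Tre :=
  (.N [0,0,1,-1,2] (-1) ⟨0,[(1,0)]⟩ ⟨0,[(2,0)]⟩ (.x 0 ⟨21,[(4,21),(2,6),(2,21),(3,10),(2,9),(0,21),
  (0,5),(4,7),(2,21),(7,1),(4,5)]⟩ ⟨0,[(0,0)]⟩))

theorem ok1 : chk K t1 l3 = true := by decide +kernel

open Helper55.PC in
noncomputable def t2n : Helper55.PC.Ten :=
  (i 178514859921352218322665241271889826444083243 (s
  1170664724818138745802774016824981614426059870823322500532651491810560091664599612131173838180231291703604108362477897068945823499106800895839148899456967118643762586348384132385776626396199920888097843122514988415479429771434195298499415560409626658588638676843792977720920483364745352393787160821115224420704818914044918119999378023989142161030446886253692895772780337854281200847687003771539559216032109823002861693804292096379298273660641828457392847582746414253704953069747156095436855758114641410150970599304871123305878911435366326422471297)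
  (s
  5027966707674745460813371668214932027103081084629270382395037924952231003901306294606572679416658417145779114885211829451995389270583856238429962005361157755573009900687163399303117489729030514782508927987131607235463807752642897653347208031766686101427073306600183223588974204549785677903445036666342353083440068255856198766263404519397840540913003148703829256875103971576323412610760476266420852850293537789608549920132965843984303157671588967466477521106646455751227392052809152409057396338949416885264285664456196754752772941868363767395547845164532353))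

noncomputable def t2 : Tre := Helper55.PC.toT t2n

theorem ok2 : chk K t2 r2 = true :=
  Helper55.PC.chkN_sound K t2n r2 (by decide +kernel)

open Helper55.PC in
noncomputable def t3n : Helper55.PC.Ten :=
  (i 178471303778386258971179414625508185342083115 (i 2658131512644761095824631343907733513 (i
  178384180858630690901530836312419545009750059 (n
  89855184255703208789390801247464571389879683584761014492048445727990219561381765) (i
  178340635349488697829371993472884761119817771 (i 178384175541718707761867344553111304479572011
  (i 178471309095298242110842906384816425872261163 (n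
  30365317509905194211711118608840398565346293480828052964427946741006896872124199301) (s
  21594952574839828754135355602179132093563776563096518230185996612247273338310304793818661428651574758777149798415795655571256237982390770533234483612368777299789683379694399215175136661521468896440680574290602483575353445218132609471900580813037290820758661407035213866176143970998437589458294443326185725623256925524273988444756576974395983414429864446638196541037824694068782434815272404987685603420762797977149402482361003515653879707106346090975187880470916481539617642571590069710893167397772185888418440870578236090988244348190727549580541376635024679566836353))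
  (i 178514849287528252043338257465042969232015403 (n
  41979388619742130585594014325342239667823022911078079529677076200746926201262009069827885764229)
  (s
  5027966707674746577193810511887802764206141364550338645974639014398509948120989090255149972776783341257169330123764382575465421653909322464194727039981814403608065127968503095048117601379045036922027448115249989500600543289889583204368554033229591311259213651202608222765677699314177447779783756031903743533455297642459752966155287190100764295464203035995902998796864105175691337615835646134046951657450505134628086110314948592257521817271411487482887981738974844900354677945299929775565326568939927419689058196162424792132417337358801216754664746358145665)))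
  (i 178471287827650468008513968308498649065848875 (i
  178384196809366481864196282629429081285984299 (n
  1989475078721697272638056448327574126779798376407006331892069978591690774018505666343301) (s
  6078438773070761619439732461973652024558907059650614151749085131359442177439531203903040637537822373828817540631025087315799293281590687941032275590838692199934567584343709017636653132035151705010662596818872711633875764641980106576979801324883473148608150709665408440445704416500080659176696337673633456692573212660713192162756401354667052134120431345939178540487397343878892898727571283461675614477817896000214718786954728910899752070162492195202441867226960579075927150781048284003547344002974814631132970299171792188738938789305453653652787076507526940864604780610981838455425))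
  (s
  8883648219258562258661174199832206267341698604007598582652870967592293310506228193401882345945514198486531879832587592636884303476488847216308201920837344103957945664731880326443495520434432358735121593031482676515152638223887867739591793622340238581438230673135494920267024881842625307235639713979689539385372426039369680881470496525706623643138984636153574006870412762705873657689337520233166865102117513085098818713433217124817722880317859937546531090504384514992431857448966159481467267067140337394928818137601468037633693846237740428741223635194056541773342660269934730001194536024047900394262994407170650495092812149686913))))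
  (s
  235752787091632835443938153369230014622165429627683018612340996420244840284942350475696556918920027923449629716082773685825418652249533188989339867410133185773226959096735439788183251038357868580341607013973004405082825807196562088587056138756967492800976732340421919893578144901237201895551263608076025576192971613564247021342878652590427589020253123759531913383480257512269685174074294635381251106222744086333996685039905955034372393065471271007525172451326682028852114412600313735366370584193388412038415667547534997947471394756485239551191374235697793))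
  (s
  272566621382287396309170763900854489551197868326150851967809790249064009004289664504284770307642945637796906469994383271024811651287268347167366919887433661400507690631000190044882943202505716927796386341223912621812583230475888656284209715217349464711535735470356771437925356182247913216943473597157002451617596312814754067631094283575266237112845431551886910662231245069226459434951170482063457126958150878714142073623941153929818764643754621733275848981501102202275872872453012334420944884015887378430438639326870239092721251991421569))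

noncomputable def t3 : Tre := Helper55.PC.toT t3n

theorem ok3 : chk K t3 r1 = true :=
  Helper55.PC.chkN_sound K t3n r1 (by decide +kernel)

theorem cl0 : Clo K (Helper55.TR.GH (-1) Helper55.TR.BrU [0,0,1]) l4 :=
  .i [n0,n0,n2,n0,m1,m3,n0,n0,n1] (e' := [n1,n0,m2,n0,n1,n3,n0,n0,m1]) (by decide +kernel) (by decide +kernel)
  (.h (Helper55.TR.GH.sub Helper55.CD.D1_m1_c19u_40_1_0.g 32179649027671808044254858430931101666726180820807282750035034573802641309253821365303341440273794111769927967934947075270300853413612567 (by decide +kernel))) (.h (Helper55.TR.GH.sub Helper55.CD.D1_m1_c19u_40_1_1.g 33588037323825557710398917979690079031994319355364489742076104057048592485391999828868667455061277892491333141222489295394309868099091127359517 (by decide +kernel)))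

theorem cl1 : Clo K (Helper55.TR.GH (-1) Helper55.TR.BrU [0,0,1]) r3 :=
  .i [n0,n0,n0,n0,n0,n1,m1,n0,n1] (e' := [n1,n0,n0,n0,n0,m1,n1,n0,m1]) (by decide +kernel) (by decide +kernel) cl0
  (.h (Helper55.TR.GH.sub Helper55.CD.D1_m1_c19u_40_1_2.g 32795162176669145971711093831618648273005063226398241774354984177956830878443014412845875908778015454338260304826247500915395502263166327811 (by decide +kernel)))

theorem cl2 : Clo K (Helper55.TR.GH (-1) Helper55.TR.BrU [0,0,1]) l2 :=
  .i [n0,n0,m2,n0,n1,n0,m1,n0,n1] (e' := [n1,n0,n2,n0,m1,n0,n1,n0,m1]) (by decide +kernel) (by decide +kernel)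
  (.t t1 ok1) cl1

theorem cl3 : Clo K (Helper55.TR.GH (-1) Helper55.TR.BrU [0,0,1]) l1 :=
  .i [n1,n0,n0,n0,n1,n0,n0,n1,n0,m1,n2] (e' := [n0,n0,n0,n0,m1,n0,n0,m1,n0,n1,m2]) (by decide +kernel)
  (by decide +kernel) cl2 (.t t2 ok2)

theorem cl4 : Clo K (Helper55.TR.GH (-1) Helper55.TR.BrU [0,0,1]) r0 :=
  .i [n1,n0,n0,n0,m1,n0,n0,m1,n0,n1,m2] (e' := [n0,n0,n0,n0,n1,n0,n0,n1,n0,m1,n2]) (by decide +kernel)
  (by decide +kernel) cl3 (.t t3 ok3)

theorem cl5 : Clo K (Helper55.TR.GH (-1) Helper55.TR.BrU [0,0,1]) base :=
  .i [n1,n0,m2,m2,n1,n0,n0,n0,n0,n1] (e' := [n0,n0,n2,n2,m1,n0,n0,n0,n0,m1]) (by decide +kernel)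
  (by decide +kernel) (.t t0 ok0) cl4

theorem g : Helper55.TR.GH (-1) Helper55.TR.BrU [0,0,1] base :=
  Helper55.TR.GH.of (Or.inl rfl) cl5

end Helper55.CD.D1_m1_c19u_40_1

namespace Helper55.CD.D1_m1_c19u_40_3_1

open Helper25.KG Helper25.KW Helper55.KE Helper11.CT Helper55.TR.Nm

noncomputable def K : Cls :=
  Helper55.TR.KH (-1) [0,0,1]

noncomputable def base : List Con :=
  [(true,[n0,n0,n0,n0,n1,n0,n0,n0,n0,n0,n2]),
  (false,[n0,n0,n0,n0,n0,n0,n0,n0,n0,n0,n0,n0,n0,n0,n1]),
  (false,[n0,n0,n0,n0,n0,n0,n0,n0,n0,n0,n0,n1,n0,m1]),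
  (true,[n0,n0,n0,n0,n0,n1]),
  (false,[n0,n0,n0,n0,n0,n0,n0,n0,n0,n0,n0,n1,n0,n0,m1]),
  (true,[m1,n1]),
  (true,[n0,n1,n0,m1]),
  (false,[n0,n0,n0,n0,n0,m1,n0,n0,n0,n0,n0,n0,n1]),
  (false,[n0,n0,n0,n0,n0,m1,n0,n0,n0,n0,n0,n1]),
  (false,[n0,n0,n0,m1,n0,n0,n1,n1,n0,n0,n0,n0,m1]),
  (true,[n0,n0,n0,n1]),
  (false,[n0,n1,n0,m1,n0,n0,n0,n0,n1,n1,n0,n0,n0,m1]),
  (false,[n0,n0,n0,n0,n0,n0,n0,n0,n0,n0,n0,n0,n0,n1]),
  (false,[n0,n0,n0,n0,n0,n0,n0,n0,n1,n0,n0,n0,n0,m1]),
  (false,[n0,n0,n0,n0,n0,m1,n0,n0,n0,n0,n0,n0,n0,n1]),
  (true,[n0,m2,n0,n0,n1]),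
  (true,[n0,n0,n2,n2,m1,n0,n0,m1]),
  (true,[n0,n1,m2,m1,n1,n0,n0,n1]),
  (true,[n0,n0,m2,n0,n1]),
  (true,[n1,n1,n0,n0,n0,n0,n0,n0,n0,n1]),
  (false,[n0,n0,n1,n0,n0,n0,n0,n0,n0,n0,n0,m1]),
  (true,[n1,n0,n2,n2,m1,n0,n0,m1]),
  (false,[n0,n0,n0,n0,n0,m2,n0,n0,n0,n0,n0,n0,n1]),
  (false,[n0,n0,n1,n0,n0,n0,n1,n0,n0,n0,n0,n0,m1]),
  (true,[n0,n0,m2,m2,n1]),
  (false,[n0,n0,n2,n0,m1,n0,n1,n0,n0,n0,n0,n0,m1]),
  (false,[n0,n0,n0,m1,n0,n0,n0,n0,m1,m1,n0,m1,n0,n1]),
  (false,[n0,n0,n0,n0,n0,n0,n1,n1,n1,n1,n0,n0,m1,m1]),
  (false,[n0,n0,n0,n0,n0,n0,n0,n0,n0,n0,n0,n0,n1]),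
  (false,[n0,n0,n0,n0,n0,n0,n0,n0,n0,n0,n0,n1,m1]),
  (false,[n0,n0,n0,n0,n0,n0,n0,n0,n0,n0,n0,n0,m1,n1]),
  (false,[n0,m1,n0,n1,n0,n0,n1,n1,n0,n0,n0,n0,m1]),
  (false,[n0,m1,n0,n0,n0,n0,n1,n1,n0,n0,n0,n1,m1]),
  (false,[n0,n1,n0,m2,n0,n0,m1,m1,m1,m1,n0,m1,n1,n1]),
  (false,[n0,n0,n0,n0,n0,n0,n0,n0,n0,n0,n0,n1,m1,m1]),
  (false,[n0,n0,n0,n0,n0,m2,n0,n0,n0,n0,n0,n0,n0,n1]),
  (true,[n0,m1,n1,n0,n0,n0,n0,n1]),
  (false,[n0,n1,n0,n0,n0,n0,m1,m1,n0,n0,n0,n0,n1]),
  (false,[n0,n0,m1,n0,n1,n0,m2,n0,n0,n0,n0,m1,n2]),
  (false,[n0,n0,n0,m1,n0,n0,n1,n1,n1,n1,n0,n1,m1,m1]),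
  (true,[n0,n0,m2,m2,n1,n0,n0,n0,n0,n1]),
  (false,[n0,n0,n0,n0,n0,n0,n1,n1,n0,n0,n0,n0,m1]),
  (true,[n0,n0,n0,n0,n1,n0,n0,n0,n0,n0,m2]),
  (false,[n0,n0,n0,n0,n1,n0,n0,n0,n0,n0,n0,m2]),
  (false,[n0,n0,m1,n0,n0,n0,n2,n0,m1,n0,n0,n0,m2,n1]),
  (true,[n0,m1,n0,n1,n0,n0,n0,n0,n0,m1]),
  (false,[n0,n0,n0,n0,n0,m1,n0,n0,n0,n0,n0,n1,m1,m1]),
  (false,[n0,n0,n1,n0,n0,n0,m1,n0,n0,n0,n0,n0,n1]),
  (false,[n0,n0,n0,m1,n0,n0,n0,n0,m1,m1,n0,n0,n0,n1]),
  (true,[n1,m2,n1]),
  (true,[n0,n0,m4,m4,n2,n0,n0,n1]),
  (false,[n0,n1,n0,n0,n0,n0,n1,n1,n0,n0,n0,n0,m1]),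
  (false,[n0,n0,n0,n0,n0,n0,n1,n0,n0,n0,n0,n1,m1]),
  (true,[n1,m1,n0,m1,n0,n0,n0,m1]),
  (false,[n0,n0,n1,n0,n0,n0,m1,n0,n0,n0,n0,m1,n1]),
  (false,[n0,n0,n0,m2,n0,n0,n1,n1,n0,n0,n0,n0,m1]),
  (false,[n0,n0,n0,n0,n0,m1,n0,n0,n0,n0,n0,n0,m1,n1]),
  (true,[n1,n0,n0,m1,n0,n0,n0,m1]),
  (false,[n0,n1,n1,m1,n0,n0,m1,n0,n0,n0,n0,m1,n1]),
  (false,[n0,n0,n0,n0,n0,m1,n0,n0,n0,n0,n0,n1,m1])]

noncomputable def l0 : List Con := (true, [n0,n0,n1,n1,n0,n0,n0,n2,n0,m1]) :: base

noncomputable def r0 : List Con := (true, [n1,n0,m1,m1,n0,n0,n0,m2,n0,n1]) :: base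

open Helper55.PC in
noncomputable def t0n : Helper55.PC.Ten :=
  (i 21775413351585892568401936903917736951818 (r
  291598825714662971170345402321692386572334055238464456843760925962543715278721145991406904248318739607323562070880140162150918751421938232540888628828525538814644719769904585341627200804144791508223812333011911483242297188100737161636213422814332391020834276144534690699005538103495914050210940371992401813119396028450466794937907228908973071558194433361878606562648289797679751500394568322121703964577647859570833783326497716699756419702089229185010004757299450526751301346695595852373104782852831525287684774200385169012660863232171152788528599379260641877454798304836791592994142743294836093944877972648062704525952725629303298163349705516239517601410198394684639517372083640809520237696318117016538381251176571137)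
  (q
  4399221358501031611861618787546562163941022066706809100351946820838090698110518095996943827561820801143528062160502935020955803536927437554222985265440398187342508771656052567798427684310728812597778710542
  (r
  10365980293109891988879035541501970288651921377549073586352188009450095366497305486420889093630385513542369693761077401577416257559693451269364402826018166699821963444951621856077358834323922101826297708737592467340109799747218437518180728419945357620799976185658403962811917656997697437989743552827623546616254561098137465850886118255559885808063413542581846962665293737447333784159967700290488312157720099549629207984335231751193035320129419166616608442720842211406323068797312574097178129882695041016357233288685192091569424142772199911363328319475969984031719159522778574309197202108992726140341904080843662098145693891451597290237340462990970100235557038378989422203301774386093376607929028051508632837578556892217759780771312611511382085970633195748922445518381747222835923563689330534296190132206678732250265286051857317919500343974302757870530142989215491235019353682912473365446824997251614406935792120140338823567995851972943909159268100797138592864012370960673)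
  (i 178384186175542594813031813663292598253649931 (q
  50314407781173424768139878159586278214950100568148783934301214720924282360766585622524532450804523165462260174121577570623305594463989866302334839093619160238404971822624748087672846
  (r
  7092734821049134945715276948614694798684792835701198185692043072184084070715094411348446392434329532034357218501929178173670493134922587077405334755906030584324387189427200768364543002583472193913042833868011670531091374028355911067701035343129494284364387136707790570331677688049230002387551816430016985144470842730496781676628739691731100542794712102560917512107154900029992167487878713410965912360333053704357793874459514857081476778550157304932094648071529529852018012422437055596441520625129622177490730364188602093014849057331818908033314644538349602205043321147599375567652911626980581242230293802805935470594739305851591371999640936189159765344037676211236285555435013920003062392462496293377518353833477605508432957084942815818994432817693511403301419639377595110698641197555789337923701581224589055401875081815100725415608109310285996412129899227877077281506416015027700649059030712353787884980226959747284459809)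
  (q 16296847301214160979676116925191557146972807226615343032735793321711512124369569012743274511
  (q 1888938932356206977386839289703719937176097862246380659889366005579791 (r
  321455656439525981823663150746519838646405349797446408177762650073331098501644358563567766009937991688944909952710985122243973747416740158228811856092425306979609813956149766145706237043118698462636700890078323259251805723065429312591996430688175277062972161057063417301342579209669792220142266758019993200261216437823267720405543412802064074952608160179878980029607553133739314014991680604625151102946114987467929801673300707540371143934105242250850902937433959082867726096344678799946542632493841220617272845305019712937179423321745424333576361583582967817966822672743337695818469176162329667258537482898955776441977120066383295987945988352405811991656224050267011763052341514993795037763669451042202433)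
  (r
  210484560032579274197546637491791493147696444463427161166883494243924269286479156079091186470227558391268497749810225015047418218595372574029877828954467740312127930822860293802875713410182994556235626943814979236688060415633353753141102939403224767844158239869637952965667202913407201311621989381921482113937529585529685202444872167161628566912969912653750498793516077706238057975637335551756055930476640264574150064275935318240303279584277928629559013795064074165103522938583112017424580360999337325978224282169497393341910048456638687824212548466817427291385883322057107082336535847143470699780497508339942468540347084957833313501373913724936507997693628741244644762432))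
  (q
  1053928934455375151489835631409119573424942984504603068953219943234790384929145346922022275389203566157916524489400013731489297172732613047454043569612170235696200857014500852765392128902332547087
  (q 21369417107269744359259417318157393885164433655990009950636686515651894087662390607887 (k
  1445895152581712272251343274990511858065378256109815591724845377178036245079832024479167104785932205450217267133017349204825607159586485960353861801771061935585145902673188992529524457982038264130575706563517298654779049001)
  (q 1888938932356206977386839289703719937176097862246380659889366005579791 (r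
  1124060185500158473942183646671332328203183441583664758064740791255848131387659438703948952592119804833050483077668858778694139242937702617739262294966984639242767170318730341163847349772904867995700869014076947970111502393962911726619140414865310611737486996879692894938297151747592207120528493933518753421742031484276775071066382804722407720813137183839187964852480264673832111765510291945338323578976857293751860673042246847826046569922571439571519817399650286323969528707246166850925410575085119666212154461171813751196700926319502745148641715292529921706391409799507574766526750120364795489745262086983054307887395964331809308868699949540692049825222984753384276307309341415569879579126425991680670958466807414859448052512837654328261454533658163484718376597605666669188203919899370305)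
  (r
  5899450830967925269017956035397692894424526020407412936120352823518876344702989209702775759134430560465884337732990227404600125066062070677250631184888128616320581753784034022456770971254280077487518657161236716782568531589571642737292941331731429397271819195947759609828598435280161078071603283990553384000923794907497379089689214812680577234404787138730460659286542067766792087419425898554239379760282293447317610405973470711297420231540027370567110723963360487265850123430571223382089990796114728902732208804579432933155087202004295342012332856364502558872228927358177723036290741617670416483857248200281106383202340802143854140794198556026348352)))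
  (q
  21060335058531777574685661704559251442416207530446726681663220614824599833176037882492541572454549717512401455902672461305685594951603196250570555656069766412434774491812250049699435265535246729230
  (q
  321355210243709984965296351693103812292729412734296722459674013366470968535317193977716922365489133770310545178444677577939593707121081324756387531233525582063917284522116870163023779845767182
  (i 21775413351585892568402080966324959445002 (q
  38987347340069839602684071380992612242444567682677928522662300120793163369409366589596876487775883649182717847153144721774533030796550522856605844381553433532872857881894141795365962045849614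
  (r
  5917932222587873195794780809733762844158483737080183094104164242721930876845735717869979702454406193462265249191888621332433538329395313229246235849243968292513508083287552020318515975598924832113467977383317115571016305341636211575352019988985800701155787396196392636450126807684984132603235006410863804079228750428288700329309133896895728512011307663508099451909410389796359628855076649016636678594395065912820242587374481714584024762999672092735407783835450686864162817159643084553208317747166928666658534413736152319952306137845973547324682800830045681839636634800399912065689789247293085039291092888223228713)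
  (q 237178383813533643662968488584205632091516480303914984595284242371108339665731597 (s
  31069750355322906019517094462268638206409527862356232533586578391610071456201440854185378813985272573627044981491751210747104734173570525857091774151615303465924204650073428591077231827409276949435238402901324322646371898308162475600720538210624739124478955920810587318104842978981375765528230866330005032894201191231154892481362040544283744553025104790229807950583416203070649596482085693883691737720986900523223154724610604013040066051422753978640622553951462065783702017)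
  (q 1888938925928847119209339141459764951670457402167951540467340297764879 (q
  95550220115682688894864726606933915754452085141608330146921968007153839024165759349324691294425019101345818883600670922654223187376192225295
  (q 16297406789855382521849325691660425355134189787577659906383411534954605708367725917332963343
  (r
  33532599118892322636833345037580563534435995961572753083221745237637876612918590275506374828651617495339389155866187207397621716042761915194017232859529877788445336420128262990836123271607044241368570690697741601375468568349872399124246017209178275545277728436276233401288249490708857721273274548132976347065639744144914855622917785663637605962472122197797473075046779459433846175865123095437057827510219170829580048639266444467763221318384211244086896770638990872004429086202277224443246097132771566836487514461187632005814300532760203353295384579423769408367216919549312213262335261115345007375823639844825080672)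
  (r
  279781969881522862194295072817068324973647230834526693126663718349851755652687032197857644115317915959376290842208533404264105385917015191913013788260164677396873554766631840198085818919094016165754777020955236903407262003592140027103706052807199011587199966975863203850101574713033170810319319429519853390092895579905071041538382811269812992701295615975536134729767516939384796372980340294816072751140780400572124757851151918025234532890418069184881165033788044219887453535460264166432915229111421480005125370578488586991494108667673511291785060847170631651183711412793135066657662445129549158541040667519922739904293938114518723195098994324614146418523948004625860806302501657537504899281245930972109873984))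
  (q
  21088792490818886386063674080773819387283001397457518744637866297040776001421449469301678863576106124821217022708004634901048133048858894401113041475959458234383
  (r
  11684240243813274984094143643222113855178857985988960008079339475934779622781180558363349850582338862154233404411885817947706124840999966568428606925278406052488247656262508947902183201639402291907152883455839249037060621843907839902398500200648914315300569551088884162756545084602006303980639886567779748797872060832758361533577313951863538233135412563481015792569193506925303810617212152570609201756773509841825404473902160478359963747872416818667292428428294443976464663997335584357949633671588039046265162685536863115873540408395700208899767116025517637769452830600825836135777275506587842251857687380243599481354893602246676830075416328619216051905344)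
  (r
  907994732042342972568454916401832811797358964829278694425126811262818838362418720170946572857826592989047285132441750854269746449492395264703678776245471621340276726272591133974160628998083024055747899271400351877077776874053461261016293371968681001793680707409231829232370857615693305787329309330660204533516821413620849280430859502914203392856695227119955768074578755495751074765697456625184350224678047252449484778906303750069496475891069767124178001489442082185384351547651510564824653535175245077504037703712987622711321027773857773383451427682300444935426657756987833074759949733146895379304374334096102345349020611266234007003262000644369386777964844331779045609174641935311533788410549392919353747047194234557667733228113714690377709343562816771575784256)))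
  (q
  352819711651949744578416606453010630800869511455772797687898930122643003303485660001347452450557324857436942735655609483374144951015391277493555736863297372876132853039036972066308046237999556613276346469105904254991
  (r
  4198527397369008619747775135234868359109435274240331878438407000385508308085372357305170886010323376854902897175797314711657790098196574145768435738090019401438949751554487488510876185468561101242415093262935280609879431883154642230228175293025047518026908202337297789219358757344293389930469528315120169486054501185540220888937283891582639092178601888968171592300990028763371366611673026554323723103053394019233599571081498006414722260149023512834648759374788855157687123841811508551157936671816030656684565434600881309901532961060093266778898572012592996519617531251505169252388767061239002957745158938935039650237854794937028238717338035131643770864654228625570456740922574347176811209516380776076707378110582964947606106920201298637455455082966884784100971243653369296445840124215520989286149465320057844670444365516386224791097713473)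
  (i 178384186175542515584869299110777411558572043 (r
  6686045361213816585037706329753962697089699661771912240764512989263457799627738566260714869347786904136734991090611118186129099195678186037450243117398643228715907435694615925842869294013502032869600690538029956630974773844226941355912173548978940235212003635389402763686889153986055676723244114644934374387984866123947891145392299717118296075808971174628826769436230330202756120921029060171808081812396783982134506678887452045281517473775401251285305717164848331771605669676414240350292047897383846401886890042763195909346906639303788377566803668034979566577441438499657572769471777724240205339306876778961250281270793640459141367348324660475529801048235868168184014834628460658079407420551758326838600545)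
  (s
  3861336354458617402736621099580655197524390238547711797374129252320493174339804262497155648728400609243275085504916668548079040648326972345518558100066612475775584456548751434641560097696412943560874459393663300151115110724439255032881370223895212344037823440353185345452482925331258399440642620056347347334674401445632759455773567409997971170553195146007420451560125603640604234476789322704583060690643620975031496096912724021576261574995477372387571189334922667133187417095535500291003825559506564673926709171294942214121833709255489081705664097551880553153))))))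
  (i 21775413351585892568402080983917145489418 (r
  159547137100781310174450088748915694796098788293975080316777003992324101930666741085323168116667564461600919796765599824545126143160964014127071189745819174476082832037005505600863112404518986713033100391758462139973229479240374433474861777009962172291257960998111092554308356852304249908169969520428023286525480416455414140369546680035816610980203788372368848748393053960786236453390493349317224899179144773385415946894937908455995471985361794414417840357465828468149483813761579584882204471400725615402542926669601978643552454059862124086200574035748549857718060627450721816814739476998775445463213636928827840333366052409448021076975186494718284194294989556064010906128951812905)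
  (q 16297220293641642007791589436170802619080395600590220948500872130540241180368357874655428623
  (r
  535221373937635291730884352728114352643758843218020362832859215929587289592748760748387604502720017796021230810780025070220374298632961165853885417392810485985881664181532243997849475731714724542048924612745955387227080008807929454479658944529320406720478958387242989800378275697598485926169820051587042810031309216156088386143770852163211357362908994399971003407228717189119101227449153742419176811419885839273554377283183162854716634373399765641)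
  (q
  783740565038794588910434597665694666094967495632467116155479896686775202845770877619654143421118521709248516327722987371877146315696028956532897770699716264575299456877070030757369631259767629766230188467265776779279
  (q 1888938925928847119209339141459764951670457402167951540467340297764879 (r
  53884047369447262239733186023718737821245899479179494921524013820470823802274068764583448667070939480782813126090907501958415330658056206317666733804460296516142665248937829066366200252465228462499817789998532034105821862128946646066524801260118982680816119634984628973547223804556549007310393516637251106140781113109980611621627862854963090185153221399072332506766175049244780290622198528390022505499297069691366943460735054012224973129198589760567733611881758425221268610565389834161392972729042279234414044869692959347090464266858726174162869110288004808872455537161904347728824972290475003805080533916217883860518758053146757827340427556770273679816223956372563685548864)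
  (i 178471298461474355059678437418715133654728747 (s
  5039279073238790112105251016138629028065884503367557834394231212534860653970717785342874905131582580004195602871985865619500878861692467885432603535618667936692456554281572236452467455388511277602669357847504613051597766969131756568514301294958246998765026441232428587803788211254863152597630281590862849514168419718711559281900412465635267739460780055670408282098278881717274598379040595078193651044908295963616811700952120613191400417443464393132936039437105905089210589788034828201279458698104778261185)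
  (r
  145430914147984394757914431362765332088012535870542683269454056573192696357150510506354733359993022430357856576285782688383624241743177432202829457436528441278438242595634665288988042483182222968926824367769194497108500261742441307664248515871487783245090075553508034396417324756713019910375353064433682376106474243049446415899202282196967009588590178610217905438898406030255218566183587808953523753182408052105983011039381574897479555637530117230690517889264766054089397756312266602142625154769079781248441450229832803003344585807885374919200747929761422234231762996528205216833799656003091296196014950768405714930044967134769690577703846640834935643112769410026356325399568079313877773164221136013850370507607853722963608899869891336197813589526795494837630443177035208639914817)))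
  (q 1888938932356206977386839289703719937176097862246380659889366005579791 (i
  178471298461474355059678437418715133654466603 (s
  321799306166320196457278411845046668547974252571943330348320179414302532150973914432255881191382787000743234081019789663505940270615968818271427363086926031905271834779313156584375253903417711491664510316369587867040330514793540876534314192178866784226529493309298852776246110799111347817490949723362579800621919947262310811854871388079982164634140300577736285285166573695379624521740430882158076040666111984363834836050254546975716235806080658033242494522334857122127843617744443959419986108280858332659719391170421109572407367229707228315804599519842140865)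
  (s
  36081995280601337869894325970783352163762737244066329295009984502578200307884380501280555124061138376583613909590161427844749470443125625672550880029515853563558643781795400513031404759592806578701011091799144803501600005794902217748432430680606990900821131857625031359589532379746329300505855766418075055922152421586470824471102038783922078487901235676017185196067570720951229149661482143877293848631257106465505513989686260662164578180331922991726613183950370510850064985060328965602870000385793795990214511952577))
  (q
  783740565038794588910434597665694666094975410205314255500569832767447831555852001822825382200161035719241351802115110253334349240838593346105437417220076486183128332487002655174340836355271756326036790432084139573263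
  (r
  63615054814709506489247149333338785656007035591223258857207845678484492595339970534490604224875900435049916169834715773914652815418235114990592672631581193918618974193399413168208970511206318053448540526299166333171507024068980414091696823275099129395924162519016895551403877512214715759299109342458331806559041226282662538010998456303539721847326500117674351668860944082144452151914146136044042486087229567780036220560280400600540291569725217285983852483603961164876715360866374031123696926384217041176677164052135774728874585392040553866505780003843699926644158361450807023275552424167745973248946504128574436636696203034555939269205125903215059618542797091236321861877236618083206691480150848)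
  (r
  765738368618546789357593797802346583140045327804474013378791503880765360829371737502444965667355154996817158287603922817198995831457431455445569462240523849777510093190888639060129599919719227444066119456579846796736871384625078015697389928344285498563399008502964034518296478946650795864081132130341658544838462848111442275752400679391674395425604168191832266670841767543137390177150873653235729014386081422786004165179468059208259878269164136092459499396298994462426072566410374974689435268133361673746311072143958420095751149695678084792525766389570911406222197185153569071673636699811631211033962588845124917094463714645968399116439677486160488438587204416)))))))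
  (q 25254754893530453895431413113442224233632765522777452775381587741440700234517649948687 (q
  1888938932356206977386839289703719937176097862246380659889366005579791 (r
  11522224100714499592050508928103614286418339618692202121355161030658488410599170096806744938930318340862879394934739548097021173640034917732110053332810596514360877829844405495662857402531162164872892852036128765184293223185469080931886905808947330299829471742969874652612309809546390266938161503023559058458364701299115091264358212700268144743906672384404835263930550908761172283744281352983367028384232262159752817519379667792897510473648739273237634253646483641501536985812197864878739510904053372608217469768663188744257317449769794369685717954814802706609573553049783501390339268295323529919724806175889405088110431258373602030311798899333044507607876772636902026028691671682405931434327280002563946675648855597386791627931278489451367835762442471085943052588594463139766790503039123022698885680017449793)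
  (r
  231443204143957078311816405764243443261106592069874970079848337060798963550761909056596740532083775322553942431626753846360114532036509288978040906549001809268090885918136149815049027600641271361108569674831897660102807137792239235852509306327926374369399266752036982881230122391814764346979178721317066973841987685795965372809272040436761671771855752154583346494819002985877516870311581219928447870279511551520918876979471909044095367778491087579236239248454411488891029443924923763484963720749519176900756817203849391985605581387063938489054496454300269030293011219290775834557039389645840701245711715429813828949558608390056412769651697232255113768737764781872160032814100769940288))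
  (q 1888938925928847119209339141459764951670457402167951540467340297764879 (q
  16297220293641642007791589436170802619080395600590220948500872130540241180368340282469646351 (r
  2250429055180302109729782571493961459843221722652278456857917964861255575170231154219492343951938744961589957746109289500704563838396867745267171381512319813374977545672131114154824171686409049591255308329411576483703636964639444011997079726937006393834972477749991518111953866076889702953962303296195699366662387818474734029809006414722060164083095752579409491727169544458267158838500432173932684065573184361316237116768191446527652220687674871717222334438607712676510039710861960193762740329893535225511399305577616674184888149879224578107523831416166768071304765928224030412781009385609637303570396624564120534867256128)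
  (r
  119131723497105174071239688852491787136580660941048809596424444058091287545086637597285791725399919592359404275212030735349055878912657742675060857052553054061037534066634409391400327631139356528369025577620531175829238176870054745255470650770963188049602248432941756225228163781300953502031400875346332524314537799949899252616766419461734412938524944844653286175246187063874480884043038503810941271435182169035736044631427275587722122090625512901650761818485227870989011975952926936276288819297111376665624423136250140806560877531843997264730452386939131381167170329941272387689234566116884592468832))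
  (i 178384186175542594813031813519195004511322123 (s
  615146371227066562543761917089303228152862719790728155207720770262190296765904189585980142680015982707734943335811140625508833489921719200447410385549919158945872611837917857135488957001641201992919420296674546189923569419395255212503539499034971400169612283129120797695084337642582697446360662170890192163786687282433930304713535635734107302766419074556368418794969449657798356487214646283943326282448419880089974235634329623304066890995288822659766198971237496993169244610493668736836738792926741185)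
  (q 31082761572921518199689397164152725914701108880244886604737975690332200215318739681295 (r
  15870530177453704511288004493646133900099770743677468601465486135034430074984043962367093166936166225659447354241097649677152375093305970138987711443149884719106833801573193689997439214968487508549001354445513068388199129146593732741610691843887009919372080732702082881576964657019335760278697400676137865341710143422966066261966396287247973435863166766363577836542852180726856088199632101086114309092197794746980987071215162690498772606506254752758549570390515612132193958784787845052423472904013260847613837467488806067003522)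
  (s
  5039279073141016224274082088576591040637830195437376542629228626400277392331131966286382232466212930365660818779567723423551176573047276416612571108938050952730233581629513691501006934068807339880721850450910022299941228680003429371176777256164038499173551437058723862928463835525183405219485358669535529643384516698588698795953149862378115337955020185950688163878514428023724542892904402257154577475969311045481036018006592342826869148889028227913069959281091929555413397218290359754344938677566660674241))))))
  (q 23312086000400099127345418429872057006609984403621641498929458425143533574250620125199 (q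
  237176574562138468099081646830071287998734803596946032800707921453468181535260685 (i
  324637400738491913722404540645384 (s
  5983816257395227494244948790434326673145589743270704059917690349111683407511392667183303081041481690931846439826475150797086719519629573309336262573562317445851498472416533267790258281124231361334607591404941723002605724074519301355661023603715371028609084574813863825712730667744484673085201825308296675001300669458759575761506339523482769670742685774700246181016782923288813677384032810889423834045815097126392729602007520753241631490561)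
  (q 1888938932356206977386839289703719937176097862246380659889366005579791 (r
  4827801735833544896123235809581877099680749892927682142735980522684668739704720729871819157201810897112924835157820117158672209558849633055269282244648715553331732533308358912409361867944606054111847695497268871653348987766112475974468765773829819717894390490216664058796344895404961568785615393206688699701391403595954070699472639621176201554197695871214315493952540641439968150442719022196259150656151868567484020644859643823768863248502031725731155412098266982456413124944828408242698720474960098072037254148847134822559932116618790290513731494591592436119413328407302371263100679055858997026481436390789599711786164873602705878155733705882216566003229881242797456806271220120840704222775322640940101470793866834761829983848186724485168564204763622533444300362752856624128132550686596244426728257)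
  (r
  386626409688318837249829587162498868226441773839024690423895668463600540507962631564212995836667972467894945258949811610494124020257431467220186787333373565477280356661605185034131273381950485261851352594614294215837615291130432839725514481354895854398366412420126685464040391183127624904656297840496275056484936774311787670482677707688687691109911539747759184295831378131987691609290068610988121680645649865287895004004025774962929841943235111685314506601150545070929592920959585036664631184183733096705313611553810588195144052223671467819999796671706149086337468014434813712763852949949237662904685301551431763106920931529672790172286198803175322166080)))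
  (q 16297158128237061836439010684340928373729130871594364406397059782278793997902201442028093455
  (r
  1865281346118986506350683892752895267106109030299443601993394324651074530481976999221162661512732265087077843307919219366392754747491243329662870907981503978353741079128572166216283653686524222412170767621450181948188473083297590698652161213363955130006534078428539865071849791250651508740422674727364663304543144329482894754724650562675076712927216737066382810653863985755771345258696735592552696267788983285997940297970407207457615347285618931150842873933558283056134263681143632403045397044314765251564084159404594769193004354292042258828863183515130221286987075630387958093880329141107999240309523225639016368904010077009411743038975588447603387865800072949632235739626882925384445189602707009550864342233611697341568393667425)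
  (q 1888938925928847119209339141459764951670457402167951540467340297764879 (r
  386626409688318837254486887510089580618044094542578952738864238422200581800128659211525881315086162562212157726658310053742351919503517237980405986809008324665601466548281308026731978032388633672654090739321386827857951425278430237886188529374092866677580147161295985820338332502940537761504527906221362513117641654639369499631782271836107154911521354125521519369250899305223150989576780438372824816656603647062692355772672163096579905863741282487861255768990305978071549544426043838458286288072501094457750910120577312152371493686139078293109849813806363367150351974858079649843154782275831950852099870005227855214115108698538010016012693585153969365824)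
  (r
  180586836499242907348893066441101417434322777817358365327505485258466888009401016008565622865216081749321275834191570824226005919759339110922050859120904772652723912504865882453874753264407697085885900068516503405732964382585933893163795498794089509262985921101766629722713142182939909620866516273977422121650788171237056938400058026595183671005557528658962006706211771581362632872752262465428378840017790399952668810098780917221372745529745779856214592642135291111375377329189208818855386444657605203942513707292049330169552692535973035515301057037443066606322473393228934728842147333429100578866536732943200))))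
  (i 21775413351585892568402080966324959445034 (i 21786047175393715570356494587621296701482 (n
  150227641501768050410270666812003187355804159380170607520538962636326218410825124752713663927728925765938820)
  (q 29140092679791163431603402480582558687678327761089075328285846374035033555051709857807 (q
  1888938932356206977386839289703719937176097862246380659889366005579791 (i
  178384186175542594813031813519195004511322155 (s
  508837152171249717255642920701685561376004017770172739056043152220020185715960896183393876712858387290058394865374132037302719113609986811131771932023649803265596588242222187668706555610079959292149865946136546325441518002426467936476379162837745050071234202923118053114271072328758801669599800702320871610941396393193630375499814762829345462140413512324944274273607398087430570318907926977817521194302651125094499628040411437514429042219166432512597501927517794197424097460929)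
  (s
  11347447678116993173962833457326853601613523567560746598949527472385840179962392040816434741342106793687988169173296282926510894810268147821675360329140461940093395773167958086323799978345157943156529115988923246107820364349028009619748996206423318925395709564427786262653880780162442402508224550909185598114575792968166036265429553138561694150915753183354770080240860511982537824796634334432341385490307741366952017494483512988961761850723710221651843194658410046590665203664076724934692748255603720821815998252999246529))
  (q 16297344624450802350496746939830551109782925058581846920422565066816484199034597372378349583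
  (r
  523939453134648589759530876721829536365768294722710525565706683561733812755854764725144454322154236633644639947769984847210306420674562491684623704909919002196641814681509496024574723955308075857320369635366233982870385579810352096934830530743609427992330376765732339536025433597918002233193767166168162436802296232989848054940626514961168726129741867750268899691358064213688993994173907053765860876281282675855337622001288447622237758463288562218747312886996689060490715360166848646509755873658428109544635135378407201151976576896079537837969072160021700251237463966809946948643957776801064563128665150903821120)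
  (r
  350096669936424753777409850849016274598278561581495791101212903971351725159870218569519115088962947682350630304351887520165695511961456550695393361990469933645581539092561772925453613033865974204046741588798450999844885176148593625679320613961417930060760339433895948745545374089101030297119278646050024078673712933357535796450981130530779296045822110626214738337907171302081721004288155903957892853758766748791263100091731289185787919446641889603069575477948823901862669664005414357927717492932489530216520124383336698712326132709992156601499776657865195135840)))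
  (q 1888938932356206977386839289703719937176097862246380659889366005579791 (s
  63604644020789174675663576360701421588378512328129748878750726455634828897469582820536167792798931007336758496006619486290775359231863517530401205414379216381380835237286720683743328658385091239871721152958511684708684817405635940742348220310994668675485892609935998498715025127219602617987000656427155062434102520347585794154861988534285686370841926690574340810132177250639806489244778865332515026389087176102812169136849807065100109082572152481660472285097013542325066924737)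
  (r
  28402814666972656856116612000754487474710237525499887658254513897262019609302797889797519853504926950515557842718513945309202918104061998699517621503409076327768819129539124626550852350513270147295200012575886729279563826874076205637361862649387017860051565891465446137315798824546461026295119237873708735953341953744235880881058847883408034741167616974117599692130079450279534247846745694851030142006689616608549528416741084954798435058386857612008701035079185907581214729879403826101596876771608743983131258114772217601102556091250159281052344682834858701152855923092863910828061213612843840))))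
  (i 178384186175542594813031813519177412325539883 (i
  178384186175542594813031813519195004511322123 (q
  1888938932356206977386839289703719937176097862246380659889366005579791 (s
  508837152166313397405308610885611372196619721551171222136968145028136091976656223442694158991768216440531011583179704351275679929996354214049952562659158193588697180786118146752334112146511964445665189123286305255320927070323904485509203505631500526667052971466111855949456196189598201001896977050327352634390855988511054435765202481591544161575806032236479359580887149595175366720931491998067798038109585821247328534352101799915589056377075009830658512489940709936567877108417)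
  (q
  11958931961651528761450723230982889802474539992061099992466869666242226205259203057169188135191718148630370270161694665500033998052525874575581541269651734785139596413051170386157129756330667064101646624234799119
  (r
  168707469928552043004671465460217357090482429292505141933639859315444686429664855758345159987453145668631413007977687174897908091484552975681798118083710813286748533747212008175061798751264903441178054351987395315665537809074594435725657879991127829906742405706256807558190886718219106209147110890885682677193698292450533641054525174833143091937600276430397091357598664858558435139013558086940806181049399209496025912190720552304643781155862142674576975712332946942297064207343434176751400263452412609053578096643714804783085576140321070179615069002843211394458464)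
  (r
  541824950454409595585937264941435383995858846587124080511762597634170927302944704735389435918212170478221474589968147532555607690767771405127718430421112673870667822686971960938310725468732664535854529134791599807917383357025003410653925091542236889507070053046803188257260228323452702631514109107058873386051588469097935613630083890668830326554114852637023658329818869773199600395179351525566517341609148585265220141208632199256311961713017824868984981521103102597171908775084337068055692672933817754785024528906767291527950615848010609286850151719776)))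
  (q 16297282459046222179144168188000676864431660329585990378318752718555037016568458531936796687
  (s
  344442055704106933132992192127952324023370378162152285177558830984604953580140544221753888389449410261057632305046846211050716728427200028139753889777186231944575153189713538114777336739687007378937998749620249879068794565174974035751557550666255466774455326496055412814760311949389637352571272817349844446339458894380461438331516099714179884109301204221088994337212330630815493294743400565502170482618078932330542054556955740460391064290353751463675334748017021489938024424013784703343950060120624028805125528612800000548507337619884562821750561348501881423022327651145816977648069001933495818007872193)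
  (q 1888938925928847119209339141459764951670457402167951540467340297764879 (r
  464361448894835791126368887299897572735528913717878997970444583208905163139253712639405528357358441544892299537161531149511633965298009098051824414056134677199595813748744462475872495638494977653108348334715762130236461658963709256411863776597220382992727507328107798416697704965127393006327689746633097854673448207943554819108850717476412683093435561685674706296165530193368792015798249606978256307122937073572106379888648593020909734089668896966256149184634673557753324257638824727386266396428865029516328171642583695286971981307717927316831492606580065645835722171200)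
  (r
  37144557807186157581693263367940615085322369739487491137639889931518685644243806666036891108095445424112411706088413227929055578679975242194266861852751984443324229168965640255455727428402038699667376263227499234754930183446521784802273606595118305367016817390227239869390198990635462045663017037522319137063311580896223852114550539103640337925376858018055664482226102337585275109504137078993831679295161618296919013319591352153001452105968526208398567036778159969826001462906585559039472455389698595562422098552622757210841934356587842439373190035917753643968663222017289518739901537970573999279349979261036501749715749055110440793163223602088878863651608774588802261824))))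
  (r
  42404605995438812124116267142198496321517311359428828228710009372175810827236222868198684485514585978543332505812267459218345409082965849425148638349322374752965101997907028196930633596631868871381813620725225644741066676814151655874199722796587994375534133099657950951643694145920482625011814133775564927444498484178176025657896553105784160262742489721292070336865422904904749074522018729022524738740671867867813607692122550042271583438453411240814155098716462363696052298377))))))))
  (i 178384186175542594813031813663327784772960267 (i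
  178384191492454577952695305278538433708556299 (q
  1888938932356206977386839289703719937176097862246380659889366005579791 (r
  3993463996614827863722089332327187789278036906584176712005755873862884672569290502014834968687238644094177204807120272015536479685729276139590240329041466721451115185692653807199325445260010936348244151888717580515453431639735734899832302237032739147261811294635572729904617282806011917158420199126140472304524378451849711513512772559687619479794733728806698082786059726413385105224228619177035226618464952283776925221641331098938947202446136276227738799429553755240932017003049767112236530799535816591698671422963666458025588456300369459740709589655106598532386938964916107575129696187946345563286233093329082009719998091461228445420314806007944942957495962916578423964202659749122498450835952943422962813763669113669334668226421392972310580958986132247447900472358333588289)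
  (r
  25337948382056329546494693252312098280872839579678766960676565435366081369226174971453860043618885642395617437561593861157163021169179715986624383565857240797954893754342171514704515614833918251617924926301368531298521201029864149570052596353643138431774174250905848025962626293040561560403383502856118565927658017117291926638158190931690130397382113739554191653891943306576233050102651846980120832060070675028952426365091457022164812146022678143500968070902416828870807343885073170010960552894474515158334018199692313953474733757881421695803705022156094880836141014728194748077592748509106940159197873704235932477473485262729085537944262498789545070146364224))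
  (i 178384191492454577952695305278538433708556331 (n
  3853345644281347208866020682678359893540237190725049929110602141211426927981898478529761699340619653)
  (q 1888938932356206977386839289703719937176097862246380659889366005579791 (r
  3303315995013768748346355192267182032021826758074690373755894912274946095955836931612398280497446347516518384522423535389176419221813227372350684908651138668056539455888845979819409065974477373356527715878444372518775632932927355130474527579102271692144942091525996839563826597960412413366241898525472613982009555118267102708478900353627468985487208363322475779684286093732847294005781358671917675736782451471349108459412514220250235037091804134761729805661323191901445933402910105701899421590524232281579996825811582729568387706176600739546787876162786815591108781756022532448199066776176035497071897439537109079737601305261835460237480589692558460934119130896680609194543059001856276763545451966662497658217113060435143512915416050400169813642322753)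
  (r
  5899450830815312522649001555216029237539473184327597224748494317430908012664613447959330257825393703526373300663698001544491486631442655945600269461724247675464079510064853423118342885537199779022354146382757709912403764948068287259092939069673124219088923545209095976444868135606561400498356586752673503599527910910862167833743208072824218428938110612125479206534484387618237145001139729384900362203465183631384591111181660000054189811498850733443090851763647704940086750091236375843103867672613453271950015184431629532532111198870238540745969473675564246459377050675375066768478464594114525314784880521327945005162607116637111129853380910068802368))))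
  (q 1888938932356206977386839289703719937176097862246380659889366005579791 (r
  298464407087219153417179356715827354389659251342018369372648494727010599027805327267310760215522867711182829199361999713507104882375224087794913897932061873184100896313334890255175207554212397042435265309430841185906627274832056074071839614993560151561016770223443465976849030895914043117666485946195886533616069769464942859083281809157185788932662498978776282662715679902194737431328359217891686676123290995042984773303777707540488663244820306696945109167943966842410505074257186887052421402364436655950255944013172662326186520495810409188198992887657622438920626498558487574240154960701812896213059245744198395064731754573065138608477377510814975354638313151880129799959313034439135974411042902052451143481328612067859077471150913)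
  (r
  784856705235840981260650443760631826126298158954708919267578576321890011669487290774826662524380742636881154706664047143263865353108672656119916428973672184677300484755602785927175895761406510977973805768276450171006737480155480843760415428325137363349244442293530927337394812586498413986285608082512551785028694348824122103088505169778919638652031945712520536653191447140660200189969501161337384767867297170540209757919112551288323649514233896347270621620889955347811855092129464924116239220237610447297072905684074157612547613309956486091397155083377643209064119895521393328399388873005916999656288))))))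

noncomputable def t0 : Tre := Helper55.PC.toT t0n

theorem ok0 : chk K t0 l0 = true :=
  Helper55.PC.chkN_sound K t0n l0 (by decide +kernel)

open Helper55.PC in
noncomputable def t1n : Helper55.PC.Ten :=
  (q
  14162246758416238764587559121639685083861026742357018494303400221361065832476131180219834898167303656690735245585016693011594452816433584041466891838151283709483461164035522335030799531197350412302
  (r
  108225553797036401856782221975667756220073456099445432388021264129818819625923530911052606664828758717606081980601893986044180428056530571969033351736943799264284777008852119359056640264672486057792000218415173986740769114670636512811320888752243796089749749828792907360599497078980236726302498840015482056943660733387880997411876303231464284762532563194267614282897631756489318347518116519298173229832998051792186454247753827122609160397559823834226758726736126776843965209665757475671554167985764870877224945081832808184141268759742840595529284898484439759607503369048753144619152972122937762899735697691128859717027358293626499269983725710304167483761766483865335694215193684533583563210854805370966405106323790244290677262386738767119589006248066161874332718929016317595138599066928660901999140192918519158829375739825672284664300376143908248928677452063373472818183901486275560352240431709060171419104330230522145)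
  (q 16296660805000420465618380669701934410919013039627904074853253917297147596370183377880219663
  (i 178471293144562371920014945803486890385604651 (q
  1888938932356206977386839289703719937176097862246380659889366005579791 (r
  1642815801396968225158441878602519531155613670382195737264874670134156736913394218631125551717627863038957072378166681611150425145760394420040745268003515499232804424783005710766419222957831987140925938476012783325333458812528078594925447817578365703743076202670532974683257836724529109499591749852507907163051676333113200246337808751289868803846970317603373204469100163025464638753994275092343112708785463743101316817042586363047729471554090477816592282481177837943290503306152578462167196407442480449052547402988078330356632987288869549190596691620873233582026203417119574789609277910569442508454177142144150863677542869316048918823892333839686907537165818296407530413685940238557988799416039524666339932868544764368569710166042567378687051098188318411241762428508396839152231428670787475255346411984637002984015013155318545701016970049)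
  (i 178471303778386417427504443298280968319533099 (i
  178384180858630532445205807639646764179783691 (r
  945093916304952835594308030808877534489755906054440353829049622053250091901127758767987922658371815190529611020539765317278718767583477359943942688597154913461048193868465734415780104744441469604838440065099146354509057112600600277722243354080948996672469738318288215767577137999994679383393633592796176348101760416110102924989395144209142050562161611631861698374664802793561924914047091613584333994691758246206793992256296499542434629731561951873450919744105029678181993037350079644032431604301878809859707119936165444327933130608976089690793193191031421658686552800708010149954761708846466711250774300094243514435778499324518731375957413476574202962752)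
  (r
  37031453046981228119330235864944653818024264906836709943716436941060851508392002220931679508653144098921220788807621876303397489350378948227525321078322295733435300475050727901266906565572445567520129541815429406000085662106894097080095269999341128724311813461186658138486030132734801203553075336028739302900573211481193913482416782576820558255118917303154873802783928866182644127665137103045120951930303523921156628193258539297344304836848280487968889286902343703698022920057980380795616481899656573445219565264915739025418533429596705642458499767864609490574048424490714960333888419441124772919497218561325626425140517305915251030076932267726943733605849871021687233884901755620736015608852407860613882688))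
  (r
  86588325694839544154652577534515109475460928946118432333047423936606993657278452941823973239423674110948578505408630193064862469435401517001607093360484949712030813440371498118269211806129808678787320321210675458762233061919100395677922818799107601425308101144435925865975705360007763767597270682813636572191091516223864838924885110836279475097738418737600778205636887860223163208435989062606458682252918008278560009178613681417632874387295974356953706308427462305176673830499767577952155208787742108767831483775938261764280839652673096497954223347203252871667623632368088906833779919134207006356893310286010496299355036355293664346057572614972920329299831079507941452730586962680148448910756957039910840301558196033502654604939371328)))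
  (q 1888938932356206977386839289703719937176097862246380659889366005579791 (r
  44998663522108869055199775369654206518572092760626408182918775245750843994432911156187736882495869912909227064984082705124810682830451753636658567247760846601586144841072492827784995327964695555551892247901316537988753680736663521326834754957123774982193990801938950563141530312630455703477283930578477887081946177189866985511998568259144802896215796439958508079361345106994218909961073376370789402746467751842602344616586931631640986767263244141932321803800719984179419000505056906223841773666868534073642356280287615136691706399197542429077996726136958117953117775094089273731653996927357563600721739677481045066958094638006637461405995768888503566465875685864812789569801390131325392231345580611117329268287614547836532743523074174026318784675396204146806965411126929412481230912966623764388864258745153)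
  (r
  307623529120489337723585441375871273913211115602627761162518353497218215635080915286137934280230239668100666400333980481809426859659993429848504343755002959624207690896961575658397681674275349225133821678105543667228555380994633979956428646588326612377716421607279814428304421991972430139757191623929756248256825318690123918201242523382956675016994504560950670358291616292884771963263449320783427835725290384538622880664821318862134068183637654803330524367706988101205711416401069362740113258289705559165143585715972306504560898612410406089940833990673472503148713459626539312726356910012230172792310520552867931956209723353134665595618409046760397106532631284545042020602260476222638001416988757021787910325485076489024)))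
  (q 104624518246890568843411511443910482309215752889958412 (q
  1888938925928847119209339141459764951670457402167951540467340297764879 (r
  7994681596903207241203779246842216968696947122595087993545442445640749040975895984783848242287847322024292718915845014802496442521375128229417934556600713955566193536086166166561464319286504512290771629491496312201420691617472776201552733592171463111935928233320302645331772589158830578286383580084492417344626453006483515349501516007398369405777251034647949625428531660895577824167014256644114100365515375590792199359401237126500441569836376888759871749717695811094319763966901710887996261404397391586067138396606169129082323419210885829415743784954559744612685756460393890891966670499684193528298019758912)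
  (s
  17940418078724883611939947482339289129645066213926737250923788118441770897601747584087749475505442642700724192223188490003003721749483195664040787596947878566679552578089768366515903056973753614871964847413791278046610186762372657108696612420683146654445233935148394537935201437923108616108108588314869436812788722909393960985428877797176259155384201084749953649529460773315905611630199397359941602421025042016572958161477140106428110269749131055537636090423383310358984886894117828158409792589931764580685324492808631970940665686878057461936086179044356080367407447261389027783239406913173581661733569))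
  (i 178384191492454577952695305134423245632700427 (q
  1888938932356206977386839289703719937176097862246380659889366005579791 (r
  3303315994842861950291388442405426646009457369606324743902598177662840426332230724592079029621000138553929404037222054594907940947749927117543849005155135712882392701209190977808931922693405112452950740901958034885247198607295284771026473508202567963644250529595442722319468377667500652511745572556030633492261589049783572546555140124728064311924821931745279374602175547933722805649344803082422674289799951624554306078855592674066537274073558900908643029208375559703431113346756313623775955401379506671133665497263998900811122762255018882418735785254995631272893336365400671922337898052289351822898080094008049059970991422848437628817948354877443551394052581557687770952670380549755879536462407528869467382646582257473163358855263592522797941558354753)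
  (r
  1136192900991952428014003733048172471100736538339465974843733022117160350293520803885781779613397445520648672534083731388877908472621304331536871881644900302886107922459824462745369352172427920710542139155269164414538480767056210159249543025318577400098517606521940290479528688282922400124702384205586672169766136558815417519552405369203073794337356341658543082638481744625839033784237683704855597875289372291795187561461918149553659462847980925800421844476076485197506090490689602015607112463073963487783028000790321898887519554180811934704944103458902739164440038530840743514811520044120833179177867610984284431168))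
  (q
  18937389455708509410261631862985506685628929874995737954562156657674113446770156507725971209380920610026618259548465221494842463757325685263953594025574016378961175099164830011364682381000719
  (i 178471293144562371920014945803504484719132683 (q
  16296971632023321322381274428857733782171231106662973634124778158101205352783904855661084687 (q
  7123025831651396318964771756031519954279963788229640977190262484615262431814582061322986674550014646797626870202021275075306571532038452230832721435426831
  (q 16297095962832481665086431932517482272873760564654599606046471094377448371450144353383743503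
  (q 1888938932356206977386839289703719937176097862246380659889366005579791 (s
  180211971776501938446770105633746823856564612485374668740187504632122577280563349168840499760628863556675017150667262659307482662420146316160870654251767582247057054349363239357777314983392399176346433767780366042181860543887159970076776309872089320692380455344746746025451866314739617020504728767438575255968530601332416383170570223093535820801182922504569689582095778979168054202007178601211356478431791274315416310788394173766669196561206302095804374211136429996926846370497)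
  (r
  4245543729628094758074843812359985428751917842223391972440993669881414200081791066422038255821677770323602643302905736652991840731282367158677678659974780517319521350485490845856069877766848515993869190056540314749743683693085545823005910202202238734580111700107603402110370019879233621977266134095821660640619654152401960019013899240979559504973196377408187914154327252650162991976255437658796030038082674751844031578216340206203618242951336566030700377958351116324657400292441816289883670399455606031388217830366764598110694681431565406553123862497760201282594170741600))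
  (r
  117450868793558794361307696793644444302178211555928397168154313561763049802075043925785944015753948907600022158563943785364950374240038305306203372738946792301045758548445976468247843018630752589225656837850543717609596656150137781721422378950328175869267166556951578262274151445849761530218459568181905544684688050183167156489764679205042354966519946))
  (q 25254754893530453895431413113442224233632765522777452775381587741440700252109835993103 (s
  318406993371237488968867237962914578472173331188503373101346563822809529387568726609613297122609001632697394134522601844419633433915215084960796202415389046331319393951351506014673092424604874139440442229469890863135992526765462413086114738843698996514021192733437996882715562099157373550138848025337539610627784179282647995442357799135439791510115039473251356956219060965860744841423444448832191867991552983879182955109922913149317942669985612389033886692870960060488741421260132753478799000384146230173938920068240529016756031667124728293932139201)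
  (s
  7459555651876441950316833554386462905012630895751225351934707873769564358766167928408802129353290538013924275871508233006857182442587664457249670573704556985223798228499820632523131415236799980489618070332710824600642534254152201834278295594070895216097121187465036078707696458615628057439214879508893875177882770865539844644853347359465147373123909399806659165113063624379270238797666889695183277635929871494003629281475720870540443376429791888382107354123501913242010481742866344724923073)))
  (q 23312086000400099127345418429872057006609984403621641498929458425143533591842806431759 (r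
  2397481947081796999068202266903351937372645980641810731213158690223452065406758992687346006194075735885019410085935526821048272591253962401374779877199064029226412299206868995782056128227684838140506936344568289226277508176001963161552103295328939116301684101090596024760524063088231832178331112426655473074266374550913463766583261366000859559293463386175182455623522853539204139866502686641277930059670581245561497370918066275794850238557307447892639667794290383399148256800319181228033715528337083012480865532083698133894369253099354542657996873858)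
  (q 1888938932356206977386839289703719937176097862246380659889366005579791 (s
  1889713631919782377783680705414167478585604860072415879551331942661169168328249885982845927354140503872930096205730533242534039586192569524349182433214323125863266041028861848806252829688215863146546911052877761099703688998748168605145779975955169134559295278576061759020209719464776296002117828268379623296353921371161853651455927220718036335733940116930008593916116562644407555798445081422084019043301647574791704818778063948636810968960085121519905411700219038473455556555439947742465161488763584512705)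
  (r
  1861406862014720039722458284080409582102251302979000556174840186165596633217966729148108800341665536408922814951366348687408027553775212105907514121483455290624991361493702229623051555512193682787187123639988409036855205435208985132329416019020854814607664980347635076531406060521513542763609558150449240984949217237766758141998842874857712282113641010290030700600661356387608068901536576159358276872710325998666842618614602992747792388607929231058334892810804270113742281078096831697665417016232965763533913431636434546405933762919845107230217465800411992714607663104552988562819418740727377830720))))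
  (n 13659538862788694466896502578825362424234913774350409032111307153417433079596238376837)) (q
  1888938932356206977386839289703719937176097862246380659889366005579791 (s
  330254193318146510735315783246838307173493224804764651682145155448486947846962097311788052480294964311208096278107586009461233171066989982610261014820263117085418904730957981083723800598074025356945636495967118685835852596255042271868903255029227799419083666624423482681883721891825939084928464511900985084674049716121286570781872644180113699591402945502557894669673193197540838884202558465602022499134455996014268659230095725731983822336124544107609482225703794729455443040194764735824738444153677191163413185)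
  (r
  2720449176573491418756112373249861701298893625801023065184539730205249204410985933034839723171928327093297419593242010017139218747921279617249926815639445548953982550420027564753315538069633543622079478944360217340545306957279291145888129312386315890039303530937192371757286934190013212833281416286012652501794280160716155413864645042886917328205373762608866750519450575278636903570085848021618380983123574631542083003372199677137367796686830386847847732077823943794327740840219137979127146855277086980301429580556752437307724783169730190195929789035732660177726169352495899065121658904714522905379243169523675950557816743014144495527756868887360)))))))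

noncomputable def t1 : Tre := Helper55.PC.toT t1n

theorem ok1 : chk K t1 r0 = true :=
  Helper55.PC.chkN_sound K t1n r0 (by decide +kernel)

noncomputable def t2 : Tre :=
  .I [n0,n0,n1,n1,n0,n0,n0,n2,n0,m1] t0 t1

theorem ok2 : chk K t2 base = true :=
  chk_I (e' := [n1,n0,m1,m1,n0,n0,n0,m2,n0,n1]) (by decide +kernel) (by decide +kernel) ok0 ok1

theorem g : Helper55.TR.GH (-1) Helper55.TR.BrU [0,0,1] base :=
  Helper55.TR.GH.of (Or.inl rfl) (.t t2 ok2)

end Helper55.CD.D1_m1_c19u_40_3_1

namespace Helper55.CD.D1_m1_c19u_40_3

open Helper25.KG Helper25.KW Helper55.KE Helper11.CT Helper55.TR.Nm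

noncomputable def K : Cls :=
  Helper55.TR.KH (-1) [0,0,1]

noncomputable def base : List Con :=
  [(true,[n0,n0,n0,n0,n1,n0,n0,n0,n0,n0,m2]),
  (true,[n0,n0,n0,n0,n1,n0,n0,n0,n0,n0,n2]),
  (true,[n1,n1,n0,n0,n0,n0,n0,n0,n0,n1]),
  (false,[n0,n0,n0,n0,n0,n0,n0,n0,n1,n0,n0,n0,n0,m1]),
  (true,[n0,m2,n0,n0,n1]),
  (true,[n1,n0,n2,n2,m1,n0,n0,m1]),
  (true,[n0,n0,m2,n0,n1]),
  (true,[n0,m1,n0,n1,n0,n0,n0,n0,n0,m1]),
  (false,[n0,n0,n1,n0,n0,n0,m1,n0,n0,n0,n0,n0,n1]),
  (false,[n0,m1,n0,n1,n0,n0,n1,n1,n0,n0,n0,n0,m1]),
  (false,[n0,n0,n0,m1,n0,n0,n0,n0,m1,m1,n0,n0,n0,n1]),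
  (true,[n1,n0,n0,m1,n0,n0,n0,m1]),
  (false,[n0,n1,n0,n0,n0,n0,m1,m1,n0,n0,n0,n0,n1]),
  (false,[n0,m1,n0,n0,n0,n0,n1,n1,n0,n0,n0,n1,m1]),
  (false,[n0,n0,n0,n0,n1,n0,n0,n0,n0,n0,n0,m2]),
  (true,[n0,n0,m2,m2,n1,n0,n0,n0,n0,n1]),
  (false,[n0,n0,m1,n0,n1,n0,m2,n0,n0,n0,n0,m1,n2]),
  (false,[n0,n0,n0,n0,n0,n0,n1,n0,n0,n0,n0,n1,m1]),
  (true,[n0,m1,n1,n0,n0,n0,n0,n1]),
  (false,[n0,n0,n0,n0,n0,n0,n0,n0,n0,n0,n0,n0,n1]),
  (true,[n0,n1,m2,m1,n1,n0,n0,n1]),
  (true,[m1,n1]),
  (false,[n0,n0,n2,n0,m1,n0,n1,n0,n0,n0,n0,n0,m1]),
  (false,[n0,n0,n0,n0,n0,n0,n0,n0,n0,n0,n0,n0,n0,n1]),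
  (false,[n0,n1,n0,n0,n0,n0,n1,n1,n0,n0,n0,n0,m1]),
  (true,[n0,n0,n0,n1]),
  (false,[n0,n0,n0,n0,n0,n0,n0,n0,n0,n0,n0,n1,m1,m1]),
  (false,[n0,n0,n0,n0,n0,n0,n0,n0,n0,n0,n0,n1,m1]),
  (false,[n0,n0,n0,m1,n0,n0,n0,n0,m1,m1,n0,m1,n0,n1]),
  (false,[n0,n0,n0,n0,n0,n0,n0,n0,n0,n0,n0,n1,n0,m1]),
  (true,[n0,n0,m4,m4,n2,n0,n0,n1]),
  (false,[n0,n0,n0,n0,n0,n0,n1,n1,n0,n0,n0,n0,m1]),
  (true,[n0,n0,m2,m2,n1]),
  (false,[n0,n0,n0,m2,n0,n0,n1,n1,n0,n0,n0,n0,m1]),
  (false,[n0,n0,n0,n0,n0,m1,n0,n0,n0,n0,n0,n0,n0,n1]),
  (false,[n0,n0,n1,n0,n0,n0,n1,n0,n0,n0,n0,n0,m1]),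
  (true,[n0,n0,n0,n0,n0,n1]),
  (true,[n0,n1,n0,m1]),
  (false,[n0,n1,n1,m1,n0,n0,m1,n0,n0,n0,n0,m1,n1]),
  (false,[n0,n0,n0,n0,n0,m1,n0,n0,n0,n0,n0,n1,n0,m1]),
  (false,[n0,n0,n0,n0,n0,m2,n0,n0,n0,n0,n0,n0,n1]),
  (true,[n1,m1,n0,m1,n0,n0,n0,m1]),
  (false,[n0,n0,n0,n0,n0,m1,n0,n0,n0,n0,n0,n1,m1]),
  (true,[n1,m2,n1]),
  (true,[n0,n0,n2,n2,m1,n0,n0,m1]),
  (false,[n0,n0,n0,n0,n0,m1,n0,n0,n0,n0,n0,n0,n1]),
  (false,[n0,n0,n0,m1,n0,n0,n1,n1,n0,n0,n0,n0,m1]),
  (false,[n0,n0,n1,n0,n0,n0,m1,n0,n0,n0,n0,m1,n1]),
  (false,[n0,n0,n1,n0,n0,n0,n0,n0,n0,n0,n0,m1])]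

noncomputable def l0 : List Con := (false, [n0,m1,n0,n2,n0,n0,n1,n1,n1,n1,n0,n1,m1,m1]) :: base

noncomputable def r0 : List Con := (false, [n0,n1,n0,m2,n0,n0,m1,m1,m1,m1,n0,m1,n1,n1]) :: base

noncomputable def l1 : List Con := (false, [n0,n0,n0,n0,n0,n0,m1,m1,m1,m1,n0,n0,n1,n1]) :: r0

noncomputable def r1 : List Con := (false, [n0,n0,n0,n0,n0,n0,n1,n1,n1,n1,n0,n0,m1,m1]) :: r0

noncomputable def l2 : List Con := (false, [n0,n0,n0,m1,n0,n0,n1,n1,n1,n1,n0,n1,m1,m1]) :: r1

noncomputable def r2 : List Con := (false, [n0,n0,n0,n1,n0,n0,m1,m1,m1,m1,n0,m1,n1,n1]) :: r1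

noncomputable def l3 : List Con := (false, [n0,n0,n0,n0,n0,n1,n0,n0,n0,n0,n0,m1,n1,n1]) :: l2

noncomputable def r3 : List Con := (false, [n0,n0,n0,n0,n0,m1,n0,n0,n0,n0,n0,n1,m1,m1]) :: l2

noncomputable def l4 : List Con := (false, [n0,n0,n0,n0,n0,n2,n0,n0,n0,n0,n0,n0,n0,m1]) :: r3

noncomputable def r4 : List Con := (false, [n0,n0,n0,n0,n0,m2,n0,n0,n0,n0,n0,n0,n0,n1]) :: r3

noncomputable def l5 : List Con := (false, [n0,m1,n0,n1,n0,n0,n0,n0,m1,m1,n0,n0,n0,n1]) :: r4

noncomputable def r5 : List Con := (false, [n0,n1,n0,m1,n0,n0,n0,n0,n1,n1,n0,n0,n0,m1]) :: r4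

noncomputable def l6 : List Con := (false, [n0,n0,n0,n0,n0,n0,n0,n0,n0,n0,n0,n0,m1,n1]) :: r5

noncomputable def r6 : List Con := (false, [n0,n0,n0,n0,n0,n0,n0,n0,n0,n0,n0,n0,n1,m1]) :: r5

noncomputable def l7 : List Con := (false, [n0,n0,m1,n0,n0,n0,n2,n0,m1,n0,n0,n0,m2,n1]) :: l6

noncomputable def r7 : List Con := (false, [n0,n0,n1,n0,n0,n0,m2,n0,n1,n0,n0,n0,n2,m1]) :: l6

noncomputable def l8 : List Con := (false, [n0,n0,n0,n0,n0,n1,n0,n0,n0,n0,n0,n0,n1,m1]) :: l7

noncomputable def r8 : List Con := (false, [n0,n0,n0,n0,n0,m1,n0,n0,n0,n0,n0,n0,m1,n1]) :: l7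

open Helper55.PC in
noncomputable def t0n : Helper55.PC.Ten :=
  (q
  4146220042567531238566249757728324405396704171137769015463731090650530830864597890733264775012055431253911419568299700642351040650367794049813032870105944442970177550
  (r
  572893234136347392262679564035931156972688683096296067286359943760887938135712480671709392470901329716616690148454524999799706349634357748427318321085511781573602286178753739344603100486577476180662832997062701006027673925444635326603258256185071692012492706438878130332655885596885500784931061617233739561504266307663966976699772988274586927738101014379161579606416105921989290642217810095161638495275944355769138912872437667174177854410328517825697694772586063597613934798936174018445011262161427095533240037406901244604637542900139965198609651762340421462468772777238635366317936883813216236625890240472422433511683968149832191768691967921067127146326419868471451108889329403448310718652837738807901608222382733384735214596364016629454648590221677812492903821675821770444490010899030360994311348730094613375061321914038367055893011455587510099247157054981689326480863593490369517327072092929)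
  (r
  2651645948638888180657534367608020374458458327153408463661725252546034069397580723631749910432396512118199262313547589922703133239741528129153234212334245657313015143861044738254748575859661830665194491125925864383767731921474535373926826138886976013709946535209900979385027906109027049045642176280777940656282817370523610565088266235057169083753758686922549281123290234872998171460542052518995178556094447146926081908200980019210415476019124177061910915998613581557245922409398007121060553))

noncomputable def t0 : Tre := Helper55.PC.toT t0n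

theorem ok0 : chk K t0 l0 = true :=
  Helper55.PC.chkN_sound K t0n l0 (by decide +kernel)

open Helper55.PC in
noncomputable def t1n : Helper55.PC.Ten :=
  (r
  343095879359965006789546273360871143151064131127917124432038738971931072086845321871678559858963242447580927518298000597546166355354401807791398184781200982818633989494814538311274190299376992542648884127254164554840756893297472821821107005842223839620525153069180078700184480853676900213954560838444356224458521988579378193388663043286303540066862156032077479631034935398581316867353427080548507247127448963919368744683166683381950943028501251462810386473561368415003777093234166032703213516986486618621915947900485125433253257557204051898122316539196891993446833566535943031237797610784151072052210046481171808099054734178221629036966347421262081)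

noncomputable def t1 : Tre := Helper55.PC.toT t1n

theorem ok1 : chk K t1 l1 = true :=
  Helper55.PC.chkN_sound K t1n l1 (by decide +kernel)

open Helper55.PC in
noncomputable def t2n : Helper55.PC.Ten :=
  (q 244553118718809784567458604255915879204900121665472041820204916333375393906950158 (r
  11610624267780706609370248630957617215163626602503505302997381481287621812466740343974318444478325996042328338556189450933245463991572938844703448016439010863908375463752013214953421046594428824652267164349537815704361961497377493469146112716079486783784419515202664696591643008919418016925294218490448977705598485077933338657322473498378328143387568368395629040280818055354521782406230939285869986160392423245072655511735733289929515393132021663166507565101990242322815721508462851248480630025279320287895523751897989577493655646111087132057427235580748294036198647402582041109117006943084172686779904638200567372712324826800707601011489166450658863522749621024)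
  (r
  642893655654627638871311936652490603924807985643043835257495149028823752857544865771809969748551326225506258997357179588470082990045405983920306382526421580336626835068267912565649576247352060635485615724259432831397699669079897193702544967397473676937025455572268843706570027912644411224913203633035591210471615330265055163079597639545959226432319288603885822810324765078572341535588084202479066445495969656496362927826135170012890789142082060876072343652983286910292164484596217400342234597579347920159751172204502899031014607960520605571847831743198877959180502108896564015455483143859890281866728830617914849301832263399633268324746503048712114372164681328716748925802841194707301884454844806058484512))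

noncomputable def t2 : Tre := Helper55.PC.toT t2n

theorem ok2 : chk K t2 l3 = true :=
  Helper55.PC.chkN_sound K t2n l3 (by decide +kernel)

open Helper55.PC in
noncomputable def t3n : Helper55.PC.Ten :=
  (r
  668302479927271209510757204940221808323196551801757700180905475757424202590319112193337102803896599591920486983996140145446614378704900824034541524792069975676736613472622452199402721427955140914337812403791201565420789414129361007139339952068537919992556873812298342670725613300145590250377512164210566431337233098053009583143592174556937955765716387948919469153941823154425374744292152654329397414185448755420100300220011331077246852579709335664289847279250651066798565806493141065955328288303258191047249264465444222261454514078526386137344450618364780162640946380674116215188810493492124510792735588950935286209673246416638488176432133428854434693469835258164770032345308959087882122445726871491630785466283304756104956637005979312416)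

noncomputable def t3 : Tre := Helper55.PC.toT t3n

theorem ok3 : chk K t3 l4 = true :=
  Helper55.PC.chkN_sound K t3n l4 (by decide +kernel)

open Helper55.PC in
noncomputable def t4n : Helper55.PC.Ten :=
  (r
  29078284882828833697040720843200090055942171768615624047406476704520857703722115154823075463015126575102215011313895756970921580891004001533250871473667222923271937616331132906348434348568049937608551464374374867463753209979306754558750609923648827898804079991917594125844694120485931365720051782446512784298111578265209713099710410008075185051007762139593014846572293129248161692331631334151645465052041667158482328220090917468895607115661982700893531796208216857209975543572584588440853526072067115819209807369005787665530021793912753284800199826205413730836126974642115380202494448282192482766619983248966947026488886190292139957361839561525335866487958975841186687746816823360984662848787845289046005421456572150238154758057870821802764430437623115345619941740453611281588481)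

noncomputable def t4 : Tre := Helper55.PC.toT t4n

theorem ok4 : chk K t4 l5 = true :=
  Helper55.PC.chkN_sound K t4n l5 (by decide +kernel)

open Helper55.PC in
noncomputable def t5n : Helper55.PC.Ten :=
  (r
  5679879411306844210846108400988454768117710602926097205987450051701303512359153434473999257752357574804158568099846450186134022340270702718245473602507128454885629508970219606742038012422515020917515020358196074755583823912416008829851725566915553214369756299348550983350070025626737738839946324532359983164227926700210536417582273902480900598817732399271706228308459048011277410353185331403649841084228394592770239949976769619465220310806554724878162495909123904967570812487051644881621233371294328780266035016853615811405663027623273245258753876161951209431022183449959117110178884998459472726389706003730471998681701439066526172963654504778866114665340524594160555368070206768488232948224002010262461154398394657035302999409621878419268611318093827813344366345600925601898785)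

noncomputable def t5 : Tre := Helper55.PC.toT t5n

theorem ok5 : chk K t5 r2 = true :=
  Helper55.PC.chkN_sound K t5n r2 (by decide +kernel)

theorem cl0 : Clo K (Helper55.TR.GH (-1) Helper55.TR.BrU [0,0,1]) l7 :=
  .q [n0,n0,n0,n0,n0,n1,n0,n0,n0,n0,n0,n0,n1,m1] (e' := [n0,n0,n0,n0,n0,m1,n0,n0,n0,n0,n0,n0,m1,n1]) (.p false [0,0,-1,1] []
  (⟨0,[(1,0)]⟩,⟨0,[(27,0),(9,0)]⟩) .k 0 (⟨0,[]⟩,⟨0,[]⟩) .k (.r 0 ⟨0,[(13,0),(9,0)]⟩ ⟨5,[(8,1),(0,1),
  (1,0),(3,4),(0,3),(1,0),(9,1),(3,2),(8,0)]⟩)) (by decide +kernel) (by decide +kernel) (.h
  (Helper55.TR.GH.sub Helper55.CD.D1_m1_c19u_40_3_0.g 226725478311892956254580333291008891619075162145358724002117748616600522589125162789231636471426774809072662890673812471614710847854195552500080867790366115878071275882499 (by decide +kernel))) (.h (Helper55.TR.GH.sub Helper55.CD.D1_m1_c19u_40_3_1.g 312313179701642118848986421879158792965181423821609313400253733230291505127210533787626363118469724725121668613389784951979389962390078854147426378050554089110468549151627092688898 (by decide +kernel)))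

theorem cl1 : Clo K (Helper55.TR.GH (-1) Helper55.TR.BrU [0,0,1]) l6 :=
  .q [n0,n0,m1,n0,n0,n0,n2,n0,m1,n0,n0,n0,m2,n1] (e' := [n0,n0,n1,n0,n0,n0,m2,n0,n1,n0,n0,n0,n2,m1]) (.p false [0,0,1] [0,
  0,-1,1] (⟨0,[(26,0)]⟩,⟨0,[(34,0)]⟩) .k 2 (⟨0,[(0,0)]⟩,⟨0,[(26,0),(9,0)]⟩) .k (.r (-1) ⟨11,[(7,1),
  (0,1),(5,11),(0,10),(9,4),(1,7),(3,8),(8,1)]⟩ ⟨2,[(12,3),(0,0),(4,1),(3,2)]⟩))
  (by decide +kernel) (by decide +kernel) cl0 (.h (Helper55.TR.GH.sub Helper55.CD.D1_m1_c19u_40_3_2.g 308292596014123976138951435336211275993931152692517308849172682560897128195881654766422236895285892161702142302167532617178824767841272187323645228130314185745243735823519138709505 (by decide +kernel)))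

theorem cl2 : Clo K (Helper55.TR.GH (-1) Helper55.TR.BrU [0,0,1]) r5 :=
  .q [n0,n0,n0,n0,n0,n0,n0,n0,n0,n0,n0,n0,m1,n1] (e' := [n0,n0,n0,n0,n0,n0,n0,n0,n0,n0,n0,n0,n1,m1]) (.ed false [1,0,-1,1]
  (.r 0 ⟨0,[(11,0),(9,0)]⟩ ⟨5,[(6,1),(0,1),(1,0),(3,4),(0,3),(1,0),(9,1),(3,2),(8,0)]⟩))
  (by decide +kernel) (by decide +kernel) cl1 (.h (Helper55.TR.GH.sub Helper55.CD.D1_m1_c19u_40_3_3.g 290812822027972452313405625900512364573767934443036136859571532532178226072626750331450329409125775760862911551064005819967115056624312452328191483026198893330041553289220 (by decide +kernel)))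

theorem cl3 : Clo K (Helper55.TR.GH (-1) Helper55.TR.BrU [0,0,1]) r4 :=
  .q [n0,m1,n0,n1,n0,n0,n0,n0,m1,m1,n0,n0,n0,n1] (e' := [n0,n1,n0,m1,n0,n0,n0,n0,n1,n1,n0,n0,n0,m1]) (.p true [0,0,0,1] []
  (⟨0,[(28,0)]⟩,⟨0,[(34,0)]⟩) .k 0 (⟨0,[]⟩,⟨0,[]⟩) .k .k) (by decide +kernel) (by decide +kernel)
  (.t t4 ok4) cl2

theorem cl4 : Clo K (Helper55.TR.GH (-1) Helper55.TR.BrU [0,0,1]) r3 :=
  .q [n0,n0,n0,n0,n0,n2,n0,n0,n0,n0,n0,n0,n0,m1] (e' := [n0,n0,n0,n0,n0,m2,n0,n0,n0,n0,n0,n0,n0,n1]) (.p false [0,0,0,1] []
  (⟨0,[(27,0)]⟩,⟨0,[(33,0)]⟩) .k 0 (⟨0,[]⟩,⟨0,[]⟩) .k .k) (by decide +kernel) (by decide +kernel)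
  (.t t3 ok3) cl3

theorem cl5 : Clo K (Helper55.TR.GH (-1) Helper55.TR.BrU [0,0,1]) l2 :=
  .q [n0,n0,n0,n0,n0,n1,n0,n0,n0,n0,n0,m1,n1,n1] (e' := [n0,n0,n0,n0,n0,m1,n0,n0,n0,n0,n0,n1,m1,m1]) (.p true [0,0,1,1] [1]
  (⟨0,[(22,0),(3,0)]⟩,⟨0,[(29,0)]⟩) .k 1 (⟨0,[]⟩,⟨0,[]⟩) .k (.r (-1) ⟨11,[(3,2),(0,2),(0,11),(1,1),
  (4,1),(3,1),(2,1),(1,5),(1,1)]⟩ ⟨5,[(2,2),(3,2),(1,1),(0,1),(0,2),(3,0),(5,2)]⟩))
  (by decide +kernel) (by decide +kernel) (.t t2 ok2) cl4

theorem cl6 : Clo K (Helper55.TR.GH (-1) Helper55.TR.BrU [0,0,1]) r1 :=
  .q [n0,n0,n0,m1,n0,n0,n1,n1,n1,n1,n0,n1,m1,m1] (e' := [n0,n0,n0,n1,n0,n0,m1,m1,m1,m1,n0,m1,n1,n1]) (.p false [0,0,1,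
  1] [1] (⟨0,[(21,0),(3,0)]⟩,⟨0,[(28,0)]⟩) .k 1 (⟨0,[]⟩,⟨0,[]⟩) .k (.r (-1) ⟨11,[(2,2),(0,2),(0,11),
  (1,1),(4,1),(3,1),(2,1),(1,5),(1,1)]⟩ ⟨5,[(1,2),(3,2),(1,1),(0,1),(0,2),(3,0),(5,2)]⟩))
  (by decide +kernel) (by decide +kernel) cl5 (.t t5 ok5)

theorem cl7 : Clo K (Helper55.TR.GH (-1) Helper55.TR.BrU [0,0,1]) r0 :=
  .q [n0,n0,n0,n0,n0,n0,m1,m1,m1,m1,n0,n0,n1,n1] (e' := [n0,n0,n0,n0,n0,n0,n1,n1,n1,n1,n0,n0,m1,m1]) (.p true [0,0,1,1]
  [] (⟨0,[(20,0),(3,0)]⟩,⟨0,[(27,0)]⟩) .k 0 (⟨0,[]⟩,⟨0,[]⟩) .k (.r (-1) ⟨11,[(1,2),(0,2),(0,11),(1,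
  1),(4,1),(3,1),(2,1),(1,5),(1,1)]⟩ ⟨5,[(0,2),(3,2),(1,1),(0,1),(0,2),(3,0),(5,2)]⟩))
  (by decide +kernel) (by decide +kernel) (.t t1 ok1) cl6

theorem cl8 : Clo K (Helper55.TR.GH (-1) Helper55.TR.BrU [0,0,1]) base :=
  .q [n0,m1,n0,n2,n0,n0,n1,n1,n1,n1,n0,n1,m1,m1] (e' := [n0,n1,n0,m2,n0,n0,m1,m1,m1,m1,n0,m1,n1,n1]) (.p false [0,0,1,
  1] [1] (⟨0,[(19,0),(3,0)]⟩,⟨0,[(26,0)]⟩) .k 1 (⟨0,[]⟩,⟨0,[]⟩) .k (.r (-1) ⟨11,[(0,2),(0,2),(0,11),
  (1,1),(4,1),(3,1),(2,1),(1,5),(1,1)]⟩ ⟨0,[(7,0),(3,0),(9,0)]⟩)) (by decide +kernel)
  (by decide +kernel) (.t t0 ok0) cl7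

theorem g : Helper55.TR.GH (-1) Helper55.TR.BrU [0,0,1] base :=
  Helper55.TR.GH.of (Or.inl rfl) cl8

end Helper55.CD.D1_m1_c19u_40_3

namespace Helper55.CD.D1_m1_c19u_40_0

open Helper25.KG Helper25.KW Helper55.KE Helper11.CT Helper55.TR.Nm

noncomputable def K : Cls :=
  Helper55.TR.KH (-1) [0,0,1]

noncomputable def base : List Con :=
  [(true,[n1,n1,n0,n0,n0,n0,n0,n0,n0,n1]),
  (true,[n0,n0,n0,n0,n1,n0,n0,n0,n0,n0,n2]),
  (true,[n0,n0,n0,n0,n1,n0,n0,n0,n0,n0,m2]),
  (true,[n0,n0,m2,n0,n1]),
  (true,[n0,m2,n0,n0,n1]),
  (true,[n0,m1,n1,n0,n0,n0,n0,n1]),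
  (false,[n0,n0,n0,n0,n0,n0,n0,n0,n1,n0,n0,n0,n0,m1]),
  (false,[n0,n0,m1,n0,n1,n0,m2,n0,n0,n0,n0,m1,n2]),
  (false,[n0,n0,n0,n0,n0,n0,n0,n0,n0,n0,n0,n0,n0,n1]),
  (true,[n1,n0,n2,n2,m1,n0,n0,n0,n0,m1]),
  (false,[n0,m1,n0,n1,n0,n0,n1,n1,n0,n0,n0,n0,m1]),
  (false,[n0,n1,n0,n0,n0,n0,m1,m1,n0,n0,n0,n0,n1]),
  (true,[n1,n0,n2,n2,m1,n0,n0,m1]),
  (false,[n0,n0,n0,n0,n1,n0,n0,n0,n0,n0,n0,m2]),
  (true,[n0,n0,m2,n0,n1,n2,n1,n0,m2]),
  (false,[n0,n0,n0,n0,n0,m2,n0,n0,n0,n0,n0,n0,n1]),
  (true,[n1,m1,n0,m1,n0,n0,n0,m1]),
  (false,[n0,n0,n0,n0,n0,m1,n0,n0,n0,n0,n0,n1,m1]),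
  (false,[n0,n0,n1,n0,n0,n0,m1,n0,n0,n0,n0,n0,n1]),
  (false,[n0,n0,n0,m1,n0,n0,n0,n0,m1,m1,n0,n0,n0,n1]),
  (true,[n1,n0,n0,m1,n0,n0,n0,m1]),
  (false,[n0,n0,n0,m1,n0,n0,n0,n0,m1,m1,n0,m1,n0,n1]),
  (false,[n0,m1,n0,n0,n0,n0,n1,n1,n0,n0,n0,n1,m1]),
  (true,[n0,n0,m4,m4,n2,n0,n0,n1]),
  (true,[n0,n1,m2,m1,n1,n0,n0,n1]),
  (false,[n0,n0,n0,n0,n0,n0,n1,n0,n0,n0,n0,n1,m1]),
  (false,[n0,n0,n0,n0,n0,n0,n0,n0,n0,n0,n0,n0,n1]),
  (false,[n0,n0,n2,n0,m1,n0,n1,n0,n0,n0,n0,n0,m1]),
  (false,[n0,n0,n0,n0,n0,n0,n0,n0,n0,n0,n0,n1,m1]),
  (true,[n0,m1,n0,n1,n0,n0,n0,n0,n0,m1]),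
  (false,[n0,n0,n0,m2,n0,n0,n1,n1,n0,n0,n0,n0,m1]),
  (true,[n0,n0,m2,m2,n1]),
  (true,[n1,m2,n1]),
  (false,[n0,n1,n1,m1,n0,n0,m1,n0,n0,n0,n0,m1,n1]),
  (true,[m1,n1]),
  (false,[n0,n0,n0,n0,n0,n0,n1,n1,n0,n0,n0,n0,m1]),
  (false,[n0,n0,n0,n0,n0,n0,n0,n0,n0,n0,n0,n1,n0,m1]),
  (true,[n0,n0,n0,n1]),
  (false,[n0,n1,n0,n0,n0,n0,n1,n1,n0,n0,n0,n0,m1]),
  (true,[n0,n0,n0,n0,n0,n1]),
  (false,[n0,n0,n1,n0,n0,n0,n0,n0,n0,n0,n0,m1]),
  (true,[n0,n1,n0,m1]),
  (false,[n0,n0,n0,n0,n0,m2,n0,n0,n0,n0,n0,n1,n0,m1]),
  (false,[n0,n0,n0,n0,n0,m1,n0,n0,n0,n0,n0,n1,n0,m1]),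
  (true,[n0,n0,m2,n0,n1,n2,n0,n0,m1]),
  (false,[n0,n0,n1,n0,n0,n0,m1,n0,n0,n0,n0,m1,n1]),
  (true,[n0,n0,n2,n2,m1,n0,n0,n0,n0,m1]),
  (false,[n0,n0,n1,n0,n0,n0,n1,n0,n0,n0,n0,n0,m1]),
  (true,[n0,n0,n2,n2,m1,n0,n0,m1]),
  (false,[n0,n0,n0,n0,n0,m1,n0,n0,n0,n0,n0,n0,n1]),
  (false,[n0,n0,n0,m1,n0,n0,n1,n1,n0,n0,n0,n0,m1])]

noncomputable def l0 : List Con := (false, [n0,m1,n0,n2,n0,n0,n1,n1,n1,n1,n0,n1,m1,m1]) :: base

noncomputable def r0 : List Con := (false, [n0,n1,n0,m2,n0,n0,m1,m1,m1,m1,n0,m1,n1,n1]) :: base

noncomputable def l1 : List Con := (true, [n1,n0,m2,m2,n2,n0,n0,n0,n0,n1,m2]) :: r0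

noncomputable def r1 : List Con := (true, [n0,n0,n2,n2,m2,n0,n0,n0,n0,m1,n2]) :: r0

noncomputable def l2 : List Con := (true, [n1,n0,n2,n2,m2,n0,n0,n0,n0,m1,m2]) :: l1

noncomputable def r2 : List Con := (true, [n0,n0,m2,m2,n2,n0,n0,n0,n0,n1,n2]) :: l1

noncomputable def l3 : List Con := (true, [n1,n0,m1,m1,n0,n0,n0,m2,n0,m1]) :: r2

noncomputable def r3 : List Con := (true, [n0,n0,n1,n1,n0,n0,n0,n2,n0,n1]) :: r2

noncomputable def l4 : List Con := (false, [n0,n0,n0,n0,n0,m1,n0,n0,n0,n0,n0,n0,n0,n1]) :: r3

noncomputable def r4 : List Con := (false, [n0,n0,n0,n0,n0,n1,n0,n0,n0,n0,n0,n0,n0,m1]) :: r3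

noncomputable def l5 : List Con := (false, [n0,n0,m1,n0,n0,n0,n2,n0,n0,n0,n0,n1,m2]) :: l4

noncomputable def r5 : List Con := (false, [n0,n0,n1,n0,n0,n0,m2,n0,n0,n0,n0,m1,n2]) :: l4

noncomputable def l6 : List Con := (false, [n0,n0,n0,m1,n0,n0,n1,n1,n1,n1,n0,n1,m1,m1]) :: l5

noncomputable def r6 : List Con := (false, [n0,n0,n0,n1,n0,n0,m1,m1,m1,m1,n0,m1,n1,n1]) :: l5

noncomputable def l7 : List Con := (false, [n0,n0,n0,n0,n0,n1,n0,n0,n0,n0,n0,n0,m1,n1]) :: r5

noncomputable def r7 : List Con := (false, [n0,n0,n0,n0,n0,m1,n0,n0,n0,n0,n0,n0,n1,m1]) :: r5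

noncomputable def l8 : List Con := (false, [n0,n0,n0,n0,n0,n0,n0,n0,n0,n0,n0,n0,n1,m1]) :: l7

noncomputable def r8 : List Con := (false, [n0,n0,n0,n0,n0,n0,n0,n0,n0,n0,n0,n0,m1,n1]) :: l7

open Helper81.PXd in
noncomputable def t0n : Helper81.PXd.Ten :=
  (i 21770096439602752904910177578085020467242 (i 21791364087376855233848397975861235679274 (n
  16687928864762831297632271401342822151032200423108826407886494625111742926530485938066204275332)
  (r
  3941487214524861727120380621881331580155618713640133470500620231083689672909529939234880321172085457610854026448265075789351764283343816244523934484033682708874801263669239629750186996142678377962062119516921213786406883010731515920282834826196566644101698505792397247471499971497414586789663351409559064425360654854246144964610171977897203057461884330246118529541706295696735502743063301376888192258517594242011596918956840625709563145110288828526227484806599136496172305371147058307862996958903257713985666493420763696875719796731589348997748193313830179081927365084512164447225203508366704903842504387854866153211636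756952609826866274723931062827469076228260302127406651602840710373068021562988098084430903676586654921971176756379276001758537598972237550103649736083150863164687352011348755253263508870881896922473221410155686182661157165578687238956610752292683183967310395554385602122493255080562379625774780487650213529098858231902358730717887130568225637732575181861571816094977125331057208160085911102245861177159837750767844496301426463792035549317972090546409931579899754820445612781138021384399033917672304648962391894006111120773371085105710130650095444828892843613012045112721932011027530977568560566246772302707591997538085127193227177230491284836112311450005847723408204705322664109106175981015085413026899556351557503416871239889553054085960537422548662672371199019640421700359214588673))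
  (i 178340624715664731550045009666037903907749931 (r
  5116342920483156942109802283568920161598544323014714739831872118578513650995612320033208336314534380006266793493313947574323100802203502374940529060173230509765012972146866165806834123300144685127712531113057263301868972656825060962240111502265281126505158560576746022964658655246722116603192649984780470374635860160434392140358100976079532809533988504147652771199108561693254178861775658456118897551265623135859229986093673314335702375564929272609851682639410273716620077128844681639776699532609714814979600988022731470194410322511991953020764367037008540688650545622632565748463025330233081464617402324327639416432064233521063129076179485349662916589588881565234844626768161837966987938304143919860618581335957113645823961513324554424602873109102937650195129080980631013792381777834121580426625594047207451748103131919431119617566384308235054058877297834048877110687731835958199711998739409717331482063424806264568774290451936297351735349948489564106113987499291796636725013234385844746699102343607980543911565428066677005587376394201823970529508713092818924533587839544331635257712295288251402100264652495917698716420598046484082837074529244271569517540474622340840255077068931378337003759952443387756880919522960705697201287658472492494982392149118482322535457748153260813863094224256666354771953063323113101247002267412682827699026834785687350611654226179343118779568033399545009964141783033711498403179463720303943210999126156033)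
  (i 178471303778386338199341928889863373219561515 (r
  60791484599431648527559952244927040155511514268643843813656854277763379356931202144067666604256436622492430960999730619575837171608711026483624306250625978337265470176623816207719476850620975763008953706201915007193094555204798002862543569830699504530657273238063864205377979862514085418206951384754820721229586063663675748458399129912434343819476587929809791200084738273140959105316910893090298707477900979327436603436791187579649042825409523678898264725890098379823152428277053559445209707485985330115777890987790323561579037954798098270656045962267400302264250235516679932174839456288415680100494947898126835168049980638314582563610038582393151937528129933579193153659398866156007685743992814960326123842908534891932312936036328189154342922651299071909476061014708664981459123628577560133214963340913640224317115302820532549186102867325544854364521905240472837661478467889016790466369548758536235006808882154232061848647097523948537583632443379754269430691653512241653892091600457111989196580400652393865783342519127933680197225307105620439398424536948925157075086835086024551190495102501002447405748128995176994617262917285529171947403977987489338318845349158768475155291049798595666801586868158115435518426447689802497)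
  (i 178384186175542515584869298966697412149772331 (i 39609249686284679549779312647 (i
  178471298461474434287840951971230318202060843 (n
  133499317099023079396958724578316415465148921380014149836425448800437516872750060252851272297861)
  (i 178471293144562451148177460211922077671882795 (i
  178384191492454498724532790726005652679950379 (i 2658131512644761095680516160126844937 (n
  288367136089429791809024906264937645621609672913556902255217992084142616164106417980107196832535596117893)
  (r
  900077316323581922584095759303788775599593243628805399863680773360516169104658725214929135647703959483246350924335410726874890104921912085119155034411677948591077058162726406510738944766823369263921468659272691414455970055333555981373371903046433481855916021838446719844452110795162477100424281122676994953139152011176817092739442772785437000648481645780238782805322396520711142695419426334591065078006825841980679130369109382743729926806297134001671142423628440004805962878310949717605915376320494342617722575167862727912027514652842340223193620476598712592532211801171229716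64711380251950188060491140528255073934638861646650501212945643284410160038429749863114309133531899775389903265681457647374113628970060112076458630283814782217119472336419797583879423673162935895237191889311762657336884574220988775591518052128661563152387707861998679341310838906380278965969527253140258027727930374933193658192521434646826599946534268099998116837682500458458927518274066463980413254893805345560186638852359496456879526631179282234205229725926147161143270611433261990123848072871780687147840718089430105475760466821374649443713768854547609843593898477024291084015947242186548275347742816237527088414878865904462644838392462937638729400370362987583195510643228495594017860866850315530778661310757436307027092506980003204341076437930213605226614753583936631158047998955227274981198104296463604898641115198596927183096650350160887987863310309465519976834392833))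
  (r
  21459512925771970365678609821432317058860422778462243514537111315475816815034264688951356293735787745928063699497366151772367554854689299476467481613827264536459693914651626999499755981435614938558472959749180597361780063329820780620154677577165085142990790994916490814132482261674263232775720984918922192328649398168746317951680012616434004547644707445980137729664733675770558002673672432744341527047530002444218566107451945272584468156707420995514335564906753857728968218728605149775146398444842873902481911585918563418176916408475997257137695745876680340146688492804711872258582194561291494023347350248922724540685657789154216005075063364794372866669288345772732335979068713595128431830484092369537267106690426568378471815598082661481698048552980367130483206362516699795238584289820620267194047943826897382014636185804569454282215838758285248547067795341021756528401390258858630066522911975550854074000996391007399640011740722520459344764559010001310451367036348722654421379542439425239093285996059161048819568636447486413131971707305836857372754194821929224758383877415351842741896638162555314316960854226840709689628059127722775902368401777201785593967482342922273918277119493650595410430372096225297067863465071541550228731359710481086044994308545513612322668045496041905403035154728981523020157268262566040267453970597479397627233700868492242949757230829605523028357984764008694643318932686923441790673668982138811732794087508868850433))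
  (r
  290830597012870784432985176710592611086027197390066742517742307883393405989538636314141242502352794277692474699706645146563026401837609655414500387321875263016454183111661164931806293829487273260612210724087761613794149984845589998551267534116984813235489303408376784404786685234967182794729502513468736069834974657323916594253489799868943344541541520080940028416503465092176095125169881651734175793793637469300537901191848305269557947613902384280625171427832899640580349428059155404808462067482120169325783180675668669529324956979123753453696072235345418754351984767153240503673096849525784541652589562715943380021945106851166515554409209434938326540260640659135560022255593915754688807133502038547277684200863241059475546389771373576863934409916835627269701946799821000986311890616845410739768038568080900601855144810220742637781299713568157317489194887937102978216708707477393402561147777350445756359891544265616329653900299186153791989476727724361699211228337412127641267504282344030740397676173693492699458260788779840715382395712650870079327796317315200470302792039310595961065872160913971562543661235534365202482379565889451494146907840619817955636968886624075642801864255730108679617096226114171516943737067420226857364793069613996442649631625478805103342796595550836043352182882687339698138280029681008951530299573384851436152035863750016289660385397677121994073813670841211163206724577240493227802770406434398977)))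
  (r
  90007688713393736795360295762754779997108053716939587328884024547627070750864288523230977338653570098614339861494268746376445967055944715359860279759799413321508854096719159670612795128848825674857721172288349461018174194718845084351649233558008006270975731213326509211882932137214732803290745412398304399581989886476415275852677650436240236481581180230567949471397191731397915204879439486272220626198588729687438234954693397386697157656422730926498809017839107205216854930909037613371201998112182418803056635562894284356079359470596006605172931850333635052446138195082480553935139933019245165083847828195344609630911259835855020444631665938549960077880296548668407755607785625887594044809066808239818137041509758055138627550573415662303315861166900709844937447073463070101838263576931544329354885537719163401076342663226326205730786911878132480960163744712875697573239126369157549706263291091722583895791791116264506930306611470737995651361729801704884003215772027911590052886154942898734813391761130356458999419374642787165609708964176556856141268111007149501731307057967483873960841133050636114127212205204094910350362628721170550907278525184114035041275995616714060629546300522637746794069718405698469648421767467288187226069259696865635685452755448841288596432598933101252240340443023825423447504016501858442319031798659577919936975690891386513213579528457484940874814196235835691332173896743723079687987018075109098920000995783548502534251265))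
  (r
  939724005281441406859025531853634281841779917038769787590618816930944911039720777395579962841861768487245724427561075225928338263824813412203480641219180808225650098376582461191771474848140660159372078446468190036111010129367654363944569884698144426381958610080557496778734969136292472118729717904919004585627415301007678145237572298435728201499189572325775502412744044743854869911748392345593676464270054240256105926521222094109521806205582725838375550431596164382781248509842380255778079507057461523212703951287468336506544971756239351925901171397855408594024629419175784501556934006825486648220966734128235309424411550254806432488400374962309120920765165303907908009243316197880355555392640314247625765944309599650884837814835160290413920045175118759309914020082606083054591344919704251328338484600959772830223862434039340582666652292623541144185690720909283908461158453677730400813281718792446880576476972084636331586831522467341431642897345867557000064272967939577734570793650821702977342685388998500799733493358359475206090735631692973040072132434925709895480393849926280900737023819551008285168631356152359292124910676908355708796754694852713183796777215631461213532657217715300182297376158523201639663109125116561594085244217143685641170635298187355641136380544488865552832170546346434080658974399169749807418245616987131505845113615494909829266344627927123082420664177218741580853404417)))))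

noncomputable def t0 : Tre := Helper81.PXd.toT t0n

theorem ok0 : chk K t0 l0 = true :=
  Helper81.PXd.chkN_sound K t0n l0 (by decide +kernel)

open Helper55.PC in
noncomputable def t1n : Helper55.PC.Ten :=
  (i 21786047175631400057899431697995670880298 (n
  293568260313963578967710977057796110053701889181582360757625260665420220596900621357339678954879100664566148)
  (q
  19701665414942652895649651224349080809843569015466651069340416777742494865994920618685009212998759680796272567123982
  (r
  422412359702948629684936049345705652953479215075441154688221856465971815435642207486328893482930827428465955711942346382349676985079378742861028339996588489546383522843151681359615543841286131362701192148603477762814998450289081961820516201262290126019273004890948267084424101456933456405914229597559376130639498476387367650409601321060759645177222974522905004211266599324043373444228423215720751619714737120273227658733060819863621092407711476129959425330517723333101008969091411869315282452894554650631020622684644975160273308934359006995307305631127671433307020538912981465973063764874894870178195417254986383013070583498560314729077846578536108353681484566466944258783492135543755694109330377167034969289705978840334603529445930314991187294785605591383747538994704306035251953004068867840014352438860651601961126676884505018047322681167921925840871657112201566896002793627105528984397889233987871674387735727165976481469798321974389195218624799405439936324381086955121174403740702592614860953756417)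
  (q
  104752020932516861821175155946959620409152051023426858451057099930540427144524691312778868789883449265482491713590710276565226506078566362608932032217102
  (q
  3273500654141151931911723665650070140361911931991666272673023817754181335089881842196197290053961033716724305870193059890964770684517520263235498016782
  (r
  236940303245805752105417527657653690442375219537524181681713402715005157557397511006453999840686095552726362981221364578428627791389911317197175934439497351807098600463477997766699553551921283067518374599943179442125745616316303137186284165781586485280969022129506947587950224685088570935852081031724345606122904488883247963506215513751174243410080124243266631529602039761161952132836880716197982181965186762591757939262767470170359664279719332404832675864211147800809450015296889699826325604786950808714948919330769397032516406557539698485666548886610938037632037507279486647644232402767668564936835354558701665371143047808690069775759710541522701677598162772747034897036353792)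
  (r
  1056440278194455942725501418096997141270067596178976828043131819649811624070000724921471576530008956942099445240638366729685658359221704727520420854503965660459084537655595790263851471546807270543608463718604304206306602532278020878425881140935629834485646441672898249089232270727463711538946395820232039097522509925716748279557417113401715596085073216276259440727785359502394242981396719747988108345139811173112804378723894743765070815304128697528971221067306177056433154977221527833399125490169991115395356891115022186119821146078775813101682368577260934983694363249178034837571560095049600760812263864127106201905928064155817061780308291851158477280221019902686431077537073567418504302371434817391508814973472756674432401172126510305101378344473211115289821672097747795168881778640776083025886147006069534709123493557896290278873042002541886828192001))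
  (q 318660055789281671557800651936867605057330753819863286604609444887916406906945550 (s
  102029066285540253067253253499840503660824446891284895469962852129325754073319393068298525236642087800202280600647996960376588757881281550505438103952491691355296199164149082798247249216614465487304609589415278868263686930012994688363738927926992756587956650967279393246283873545128411947251558073671023777849793762087288480482454665722358339176971255439852661442418895723483625446288596888894292141801674359256252805567707770265101612662707875910437465518769966986858773836700429262521199720249504877023536691475063886522212553092234058902934784936345143852274808004784620743457410549524430572310372311436919234634928164548675247714226896896254368644424207742399324886139521)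
  (q
  3273500654141151931911723707957652142937822269501243218750513389993722842818747472645959846456318854589232151203940025036263201680870850172684211453966
  (r
  90415749648769126875494980744568057591688075864232498244112609572495307280968353534317500509161132069803212785996195204020107045636861979488778033565658553330058789733457989885335938156347373194848296918892646297570211379344299082370064138528926402272169565922525357909978347822295428510955134553709324408883624174175259245392458497303245017156031758346822406504034298262052470671875466156952429356288454063371570674964595141364666266937910523962819030753273709518754287788971875613039829881456399292986141938072641715919669152581666699244192534284604317747949654728312883310497479878519521690543777538462373416608732879210857987974919294686685019938934522380882616087891083701543970074789753067246232760202762555254058729709874498826813147680125909417308970435398062012611961088)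
  (r
  1135426737610776674272668317270831164905946605131828488989310303930391720839628113575825397024349247121153869655727987969956854115549132902520988603384469996203669845704645563544790922388292976940853472164084843581152881136603142256613668819418017416906120019927881847107906260675002490728643805565577226738542408670266749933312909014665955727694559259607111441220473823875069268293816802718074855329670520186034078700200327525920234381906297637011992674269769163807505192571049557079793748566592626365107165337985268313974437485655100393626013861612937068014493210826872562845206317245285314304063540996629288618135887628092451499389685761788724366028757726424303536011842355239567562266401284313719411205935336247993310509156515308405645366682815784795442554157175975976984313477222975210534414218168513039608214039648365542106125431184775745141244316336596176341699331617810762681871224873809388340007935414592986819992822425903532089601))))))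

noncomputable def t1 : Tre := Helper55.PC.toT t1n

theorem ok1 : chk K t1 l3 = true :=
  Helper55.PC.chkN_sound K t1n l3 (by decide +kernel)

open Helper55.PC in
noncomputable def t2n : Helper55.PC.Ten :=
  (r
  43695561151460924074105222142666138243308131824016564500891375520680511316843193069747748011781200160030505873673193101318412273436358102852394327933209964395296808294299588445157879183854666346804639437229744708698568253863847580086026546840532565329022359540187656311012448374610104916245222722569380980912651518353448813569714887920813525156129510174426885950595142742324055435152374968377297894873536744134197950549311379246336256190902787202150851875028146073962787886559498658759282840073962219962205428035784652619225151981066499421613841728891936655577807064217914383674710239866834712534148735440036196526698471864230074287608368019543617706005732581832532014032192513117618807510675425822104903518202452575111017873118506409936730525656017819878840962089272050061822963632475088771072367920427256627007666266401)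

noncomputable def t2 : Tre := Helper55.PC.toT t2n

theorem ok2 : chk K t2 r6 = true :=
  Helper55.PC.chkN_sound K t2n r6 (by decide +kernel)

open Helper55.PC in
noncomputable def t3n : Helper55.PC.Ten :=
  (r
  26120914289069096091066193835005883780630436405223074305338312606245060215303727769055004780723989131442106969065606161390444265298066573865234725449328403077779477932712731905337244741144711064253100616617474348559406020969001516801867644716614662942704671290882548930239095942679861023649636425268969673859635917702311616916810297352572467299588438977015543014794058443629046337201349748306081740932882068141948421386525938036455245323126959818849599014260853594395580056026829018046828789219350775971206025456196439338243446444935134108772152323336907925465755676915033551857921401552150575515632342219892964536473819665408288)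

noncomputable def t3 : Tre := Helper55.PC.toT t3n

theorem ok3 : chk K t3 r4 = true :=
  Helper55.PC.chkN_sound K t3n r4 (by decide +kernel)

theorem cl0 : Clo K (Helper55.TR.GH (-1) Helper55.TR.BrU [0,0,1]) l5 :=
  .q [n0,n0,n0,m1,n0,n0,n1,n1,n1,n1,n0,n1,m1,m1] (e' := [n0,n0,n0,n1,n0,n0,m1,m1,m1,m1,n0,m1,n1,n1]) (.p false [0,0,1]
  [1,0,0,-1] (⟨0,[(32,0)]⟩,⟨0,[(34,0)]⟩) .k 2 (⟨0,[(42,0)]⟩,⟨0,[(14,0)]⟩) .k (.r (-1) ⟨13,[(2,7),(0,
  0),(0,4),(2,3),(10,1)]⟩ ⟨79,[(0,23),(4,19),(1,4),(0,4),(3,19),(2,11),(1,27),(1,1),(6,31),(8,
  47)]⟩)) (by decide +kernel) (by decide +kernel) (.h (Helper55.TR.GH.sub Helper55.CD.D1_m1_c19u_40_0_1.g 275805449770432791813712326180969768594756932146756974834048466498719062523591755555402893834189791590300973429011314045427926824266803082637652606154877240178016366150658 (by decide +kernel))) (.t t2 ok2)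

theorem cl1 : Clo K (Helper55.TR.GH (-1) Helper55.TR.BrU [0,0,1]) l7 :=
  .q [n0,n0,n0,n0,n0,n0,n0,n0,n0,n0,n0,n0,n1,m1] (e' := [n0,n0,n0,n0,n0,n0,n0,n0,n0,n0,n0,n0,m1,n1]) (.ed true [1,0,-1,1] (.r
  0 ⟨0,[(7,0),(15,0),(20,0)]⟩ ⟨6,[(8,2),(0,2),(2,1),(3,6),(13,2),(0,1)]⟩)) (by decide +kernel)
  (by decide +kernel) (.h (Helper55.TR.GH.sub Helper55.CD.D1_m1_c19u_40_0_2.g 324934693260625512863986913861053018726936013686173228345905287043280069100508048285140461670539266138235910865450533433787975923938851441118002744577293049058549063053505591 (by decide +kernel))) (.h (Helper55.TR.GH.sub Helper55.CD.D1_m1_c19u_40_0_3.g 324934693066184574240200651109858727061517591354451057111357811359109405362410027952977248021814534009142072045662166711295055300567861002313262452763658080611902327484344324 (by decide +kernel)))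

theorem cl2 : Clo K (Helper55.TR.GH (-1) Helper55.TR.BrU [0,0,1]) r5 :=
  .q [n0,n0,n0,n0,n0,n1,n0,n0,n0,n0,n0,n0,m1,n1] (e' := [n0,n0,n0,n0,n0,m1,n0,n0,n0,n0,n0,n0,n1,m1]) (.p false [0,0,1] [0,0,
  0,1] (⟨0,[(32,0)]⟩,⟨0,[(34,0)]⟩) .k 2 (⟨0,[(14,0)]⟩,⟨0,[(42,0)]⟩) .k (.r (-1) ⟨6,[(7,2),(0,2),(2,
  1),(3,6),(13,2),(0,1)]⟩ ⟨0,[(6,0),(15,0),(20,0)]⟩)) (by decide +kernel) (by decide +kernel) cl1
  (.h (Helper55.TR.GH.sub Helper55.CD.D1_m1_c19u_40_0_4.g 243506633708781077637167005477474708922713290989248694761086457861974276814704451942359023572551512643874726867062103094895593549178242189611454027565912751692633364503 (by decide +kernel)))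

theorem cl3 : Clo K (Helper55.TR.GH (-1) Helper55.TR.BrU [0,0,1]) l4 :=
  .q [n0,n0,m1,n0,n0,n0,n2,n0,n0,n0,n0,n1,m2] (e' := [n0,n0,n1,n0,n0,n0,m2,n0,n0,n0,n0,m1,n2]) (.p false [0,0,1] [1,0,-1]
  (⟨0,[(31,0)]⟩,⟨0,[(33,0)]⟩) .k 2 (⟨0,[(33,0)]⟩,⟨0,[(31,0)]⟩) .k (.r (-1) ⟨3,[(1,0),(4,0),(0,0),(2,
  2),(3,0),(14,2)]⟩ ⟨2,[(8,1),(8,1),(7,3)]⟩)) (by decide +kernel) (by decide +kernel) cl0 cl2

theorem cl4 : Clo K (Helper55.TR.GH (-1) Helper55.TR.BrU [0,0,1]) r3 :=
  .q [n0,n0,n0,n0,n0,m1,n0,n0,n0,n0,n0,n0,n0,n1] (e' := [n0,n0,n0,n0,n0,n1,n0,n0,n0,n0,n0,n0,n0,m1]) (.ed false [1,-1,0,1]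
  .k) (by decide +kernel) (by decide +kernel) cl3 (.t t3 ok3)

theorem cl5 : Clo K (Helper55.TR.GH (-1) Helper55.TR.BrU [0,0,1]) r2 :=
  .i [n1,n0,m1,m1,n0,n0,n0,m2,n0,m1] (e' := [n0,n0,n1,n1,n0,n0,n0,n2,n0,n1]) (by decide +kernel)
  (by decide +kernel) (.t t1 ok1) cl4

theorem cl6 : Clo K (Helper55.TR.GH (-1) Helper55.TR.BrU [0,0,1]) l1 :=
  .i [n1,n0,n2,n2,m2,n0,n0,n0,n0,m1,m2] (e' := [n0,n0,m2,m2,n2,n0,n0,n0,n0,n1,n2]) (by decide +kernel)
  (by decide +kernel) (.h (Helper55.TR.GH.sub Helper55.CD.D1_m1_c19u_40_0_0.g 298426909682355017201091745662333415184870302597733179644740614338255710873172307089764999692920136019454261720219730374071263755668009643220663216690952762786594573787140 (by decide +kernel))) cl5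

theorem cl7 : Clo K (Helper55.TR.GH (-1) Helper55.TR.BrU [0,0,1]) r0 :=
  .i [n1,n0,m2,m2,n2,n0,n0,n0,n0,n1,m2] (e' := [n0,n0,n2,n2,m2,n0,n0,n0,n0,m1,n2]) (by decide +kernel)
  (by decide +kernel) cl6 (.h (Helper55.TR.GH.sub Helper55.CD.D1_m1_c19u_40_0_5.g 258205344188120330864287254173574999474660328545437688136118028879892573845976221753415011738255613307231625597065498967050667871169568862802314838440997151732765035521 (by decide +kernel)))

theorem cl8 : Clo K (Helper55.TR.GH (-1) Helper55.TR.BrU [0,0,1]) base :=
  .q [n0,m1,n0,n2,n0,n0,n1,n1,n1,n1,n0,n1,m1,m1] (e' := [n0,n1,n0,m2,n0,n0,m1,m1,m1,m1,n0,m1,n1,n1]) (.p false [0,0,1]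
  [1,0,0,-1] (⟨0,[(26,0)]⟩,⟨0,[(28,0)]⟩) .k 2 (⟨0,[(36,0)]⟩,⟨0,[(8,0)]⟩) .k (.r (-1) ⟨11,[(0,11),(0,
  2),(0,2),(1,1),(0,5),(1,1),(2,1),(11,1),(1,1)]⟩ ⟨1,[(3,0),(5,1),(10,1),(10,0)]⟩))
  (by decide +kernel) (by decide +kernel) (.t t0 ok0) cl7

theorem g : Helper55.TR.GH (-1) Helper55.TR.BrU [0,0,1] base :=
  Helper55.TR.GH.of (Or.inl rfl) cl8

end Helper55.CD.D1_m1_c19u_40_0
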