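import Pool.Agent.Helper55.CE.H_1_m1_c19u_41_b0
import Pool.Agent.Helper55.CE.H_1_m1_c19u_41_b2
import Pool.Agent.Helper55.CE.H_1_m1_c19u_41_b1
import Pool.Agent.Helper55.TR.Num
import Pool.Agent.Helper81.PC.Sound
import Pool.Agent.Helper55.TR.Enc2

set_option autoImplicit false
set_option linter.all false

namespace Helper55.CD.D1_m1_c19u_41

open Helper25.KG Helper25.KW Helper55.KE Helper11.CT Helper55.TR.Nm

noncomputable def K : Cls :=
  Helper55.TR.KT (-1)

noncomputable def base : List Con :=
  [(true,[n0,m2,n0,n0,n1]),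
  (true,[n0,n0,m2,n0,n1]),
  (true,[n1,n1,n0,n0,n0,n0,n0,n0,n0,n1]),
  (false,[n0,n0,n0,n0,n1,n0,n0,n0,n0,n0,m2]),
  (false,[n0,n0,n0,n0,n0,n0,n0,n0,n1,n0,n0,n0,m1]),
  (false,[n0,n1,n0,n0,n0,n0,m1,m1,n0,n0,n0,n1]),
  (true,[m1,n1]),
  (false,[n0,n0,n1,n0,n0,n0,m1,n0,n0,n0,n0,n1]),
  (true,[n0,m1,n0,n1,n0,n0,n0,n0,n0,m1]),
  (true,[n0,n0,n0,n1]),
  (true,[n0,n0,n2,n2,m1,n0,n0,m1]),
  (false,[n0,n0,n0,n0,n0,n0,n0,n0,n0,n0,n1,m1]),
  (false,[n0,n0,n0,m1,n0,n0,n0,n0,m1,m1,n0,n0,n1]),
  (false,[n0,n0,n0,n0,n0,n0,n0,n0,n0,n0,n1,n0,m1]),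
  (true,[n1,n0,n0,m1,n0,n0,n0,m1]),
  (true,[n1,n0,m2,m2,n1]),
  (false,[n0,n0,n1,n0,n0,n0,n1,n0,n0,n0,n0,m1]),
  (true,[n0,m1,n1,n0,n0,n0,n0,n1]),
  (false,[n0,n0,n0,n0,n0,n0,n1,n0,n0,n0,n1,m1]),
  (false,[n0,n1,n0,n0,n0,n0,n1,n1,n0,n0,n0,m1]),
  (false,[n0,m1,n0,n1,n0,n0,n1,n1,n0,n0,n0,m1]),
  (true,[n1,m1,n0,m1,n0,n0,n0,m1]),
  (false,[n0,m1,n0,n0,n0,n0,n1,n1,n0,n0,n1,m1]),
  (false,[n0,n0,n0,n0,n0,n0,n0,n0,n0,n0,n0,n1]),
  (true,[n0,n1,n0,m1]),
  (false,[n0,n0,n0,n0,n0,n0,n0,n0,n0,n0,n0,n0,n1]),
  (false,[n0,n0,n1,n0,n0,n0,m1,n0,n0,n0,m1,n1]),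
  (false,[n0,n0,n0,n0,n0,n0,n1,n1,n0,n0,n0,m1]),
  (true,[n0,n0,n0,n0,n0,n1]),
  (false,[n0,n0,n2,n0,m1,n0,n1,n0,n0,n0,n0,m1]),
  (true,[n1,m1,n2,n1,m1,n0,n0,m1]),
  (false,[n0,n0,n0,m2,n0,n0,n1,n1,n0,n0,n0,m1]),
  (true,[n1,m2,n1]),
  (false,[n0,n1,n1,m1,n0,n0,m1,n0,n0,n0,m1,n1]),
  (false,[n0,n0,n0,n0,n0,m1,n0,n0,n0,n0,n1,n0,m1]),
  (false,[n0,n0,n0,n0,n0,m1,n0,n0,n0,n0,n1]),
  (false,[n0,n0,n0,n0,n0,m2,n0,n0,n0,n0,n0,n1]),
  (false,[n0,n0,n0,n0,n0,m1,n0,n0,n0,n0,n0,n1]),
  (false,[n0,n0,n1,n0,n0,n0,n0,n0,n0,n0,m1]),
  (false,[n0,n0,n0,m1,n0,n0,n1,n1,n0,n0,n0,m1]),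
  (false,[n0,n0,n0,n0,n0,m1,n0,n0,n0,n0,n1,m1]),
  (true,[n1,n0,n2,n2,m1,n0,n0,m1]),
  (true,[n0,n0,m2,m2,n1])]

noncomputable def l0 : List Con := (false, [n0,n0,n0,n1,n0,n0,n0,n0,n1,n1,n1,n0,m1]) :: base

noncomputable def r0 : List Con := (false, [n0,n0,n0,m1,n0,n0,n0,n0,m1,m1,m1,n0,n1]) :: base

noncomputable def l1 : List Con := (false, [n0,n0,m1,n0,n0,n0,n1,n0,n1,n0,n1,m1,m1]) :: r0

noncomputable def r1 : List Con := (false, [n0,n0,n1,n0,n0,n0,m1,n0,m1,n0,m1,n1,n1]) :: r0

noncomputable def l2 : List Con := (false, [n0,n0,n0,n0,n0,n1,n0,n0,n0,n0,n0,n0,m1]) :: r1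

noncomputable def r2 : List Con := (false, [n0,n0,n0,n0,n0,m1,n0,n0,n0,n0,n0,n0,n1]) :: r1

noncomputable def l3 : List Con := (false, [n0,n0,n0,n0,n0,n2,n0,n0,n0,n0,m1,n0,n1]) :: r2

noncomputable def r3 : List Con := (false, [n0,n0,n0,n0,n0,m2,n0,n0,n0,n0,n1,n0,m1]) :: r2

noncomputable def l4 : List Con := (false, [n0,m1,n0,n2,n0,n0,n1,n1,n1,n1,n1,m1,m1]) :: r3

noncomputable def r4 : List Con := (false, [n0,n1,n0,m2,n0,n0,m1,m1,m1,m1,m1,n1,n1]) :: r3

noncomputable def l5 : List Con := (false, [n0,n0,n0,n0,n0,n0,n0,n0,n0,n0,m1,n1,n1]) :: r4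

noncomputable def r5 : List Con := (false, [n0,n0,n0,n0,n0,n0,n0,n0,n0,n0,n1,m1,m1]) :: r4

noncomputable def l6 : List Con := (false, [n0,n0,n0,n0,n0,n1,n0,n0,n0,n0,n1,m1,m1]) :: l5

noncomputable def r6 : List Con := (false, [n0,n0,n0,n0,n0,m1,n0,n0,n0,n0,m1,n1,n1]) :: l5

noncomputable def l7 : List Con := (false, [n0,n1,m1,n0,n0,n0,n0,m1,n1,n0,n1,n0,m1]) :: r6

noncomputable def r7 : List Con := (false, [n0,m1,n1,n0,n0,n0,n0,n1,m1,n0,m1,n0,n1]) :: r6

noncomputable def l8 : List Con := (false, [n0,n0,n2,n0,m1,n0,n0,n0,n1,n0,n1,n0,m1]) :: r7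

noncomputable def r8 : List Con := (false, [n0,n0,m2,n0,n1,n0,n0,n0,m1,n0,m1,n0,n1]) :: r7

noncomputable def l9 : List Con := (false, [n0,n0,m2,n0,n1,n0,n0,n0,m1,n0,n0,n0,n1]) :: l8

noncomputable def r9 : List Con := (false, [n0,n0,n2,n0,m1,n0,n0,n0,n1,n0,n0,n0,m1]) :: l8

noncomputable def l10 : List Con := (false, [n0,m1,n1,m1,n0,n0,n0,n1,m1,n0,m1,n0,n1]) :: r9

noncomputable def r10 : List Con := (false, [n0,n1,m1,n1,n0,n0,n0,m1,n1,n0,n1,n0,m1]) :: r9

noncomputable def l11 : List Con := (false, [n0,n0,n0,n2,n0,n0,n0,n0,n1,n1,n1,n0,m1]) :: l10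

noncomputable def r11 : List Con := (false, [n0,n0,n0,m2,n0,n0,n0,n0,m1,m1,m1,n0,n1]) :: l10

noncomputable def l12 : List Con := (false, [n0,m1,n0,n0,n0,n0,n1,n1,n1,n1,n2,m1,m1]) :: l11

noncomputable def r12 : List Con := (false, [n0,n1,n0,n0,n0,n0,m1,m1,m1,m1,m2,n1,n1]) :: l11

noncomputable def l13 : List Con := (false, [n0,n0,n0,n0,n0,n0,n0,n0,n0,n0,n0,n1,m1]) :: r12

noncomputable def r13 : List Con := (false, [n0,n0,n0,n0,n0,n0,n0,n0,n0,n0,n0,m1,n1]) :: r12

noncomputable def l14 : List Con := (true, [n1,n1,n0,n0,n0,n0,n0,n1,n0,m1]) :: l13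

noncomputable def r14 : List Con := (true, [n0,m1,n0,n0,n0,n0,n0,m1,n0,n1]) :: l13

noncomputable def l15 : List Con := (false, [n0,n0,m1,n0,n0,n0,n2,n0,m1,n0,n1,m2,n1]) :: l14

noncomputable def r15 : List Con := (false, [n0,n0,n1,n0,n0,n0,m2,n0,n1,n0,m1,n2,m1]) :: l14

noncomputable def l16 : List Con := (false, [n0,m1,n0,m1,n0,n0,n1,n1,n0,n0,n1,m1]) :: r15

noncomputable def r16 : List Con := (false, [n0,n1,n0,n1,n0,n0,m1,m1,n0,n0,m1,n1]) :: r15

noncomputable def l17 : List Con := (false, [n0,m1,n0,n1,n0,n0,n1,n1,n1,n1,n2,m1,m1]) :: r14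

noncomputable def r17 : List Con := (false, [n0,n1,n0,m1,n0,n0,m1,m1,m1,m1,m2,n1,n1]) :: r14

noncomputable def l18 : List Con := (false, [n0,m1,n0,m1,n0,n0,n1,n1,n0,n0,n1,m1]) :: l17

noncomputable def r18 : List Con := (false, [n0,n1,n0,n1,n0,n0,m1,m1,n0,n0,m1,n1]) :: l17

noncomputable def l19 : List Con := (false, [n0,n0,n0,n0,n0,n0,n0,n0,n0,n0,n0,n1,m1]) :: r11

noncomputable def r19 : List Con := (false, [n0,n0,n0,n0,n0,n0,n0,n0,n0,n0,n0,m1,n1]) :: r11

noncomputable def l20 : List Con := (false, [n0,n0,n0,n0,m1,n0,n2,n0,n2,n0,n3,m2,m2]) :: l19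

noncomputable def r20 : List Con := (false, [n0,n0,n0,n0,n1,n0,m2,n0,m2,n0,m3,n2,n2]) :: l19

noncomputable def l21 : List Con := (false, [n0,m1,n0,n1,n0,n0,n1,n1,n1,n1,n2,m1,m1]) :: r20

noncomputable def r21 : List Con := (false, [n0,n1,n0,m1,n0,n0,m1,m1,m1,m1,m2,n1,n1]) :: r20

noncomputable def l22 : List Con := (false, [n0,n0,m1,n0,n0,n0,n1,n0,n1,n0,n2,m1,m1]) :: l21

noncomputable def r22 : List Con := (false, [n0,n0,n1,n0,n0,n0,m1,n0,m1,n0,m2,n1,n1]) :: l21

noncomputable def l23 : List Con := (false, [n0,m1,n0,n0,n0,n0,n1,n1,n1,n1,n2,m1,m1]) :: r22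

noncomputable def r23 : List Con := (false, [n0,n1,n0,n0,n0,n0,m1,m1,m1,m1,m2,n1,n1]) :: r22

noncomputable def l24 : List Con := (false, [n0,n0,m1,n0,n0,n0,n1,n0,n2,n0,n2,m1,m2]) :: l23

noncomputable def r24 : List Con := (false, [n0,n0,n1,n0,n0,n0,m1,n0,m2,n0,m2,n1,n2]) :: l23

noncomputable def l25 : List Con := (false, [n0,n0,m1,n0,n0,n0,n2,n0,m1,n0,n1,m2,n1]) :: r23

noncomputable def r25 : List Con := (false, [n0,n0,n1,n0,n0,n0,m2,n0,n1,n0,m1,n2,m1]) :: r23

noncomputable def l26 : List Con := (true, [n1,n1,n0,n0,n0,n0,n0,n1,n0,m1]) :: l25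

noncomputable def r26 : List Con := (true, [n0,m1,n0,n0,n0,n0,n0,m1,n0,n1]) :: l25

noncomputable def l27 : List Con := (true, [n1,n1,n0,n0,n0,n0,n0,n1,n0,m1]) :: r21

noncomputable def r27 : List Con := (true, [n0,m1,n0,n0,n0,n0,n0,m1,n0,n1]) :: r21

noncomputable def l28 : List Con := (false, [n0,n0,m1,n0,n0,n0,n2,n0,m1,n0,n1,m2,n1]) :: l27

noncomputable def r28 : List Con := (false, [n0,n0,n1,n0,n0,n0,m2,n0,n1,n0,m1,n2,m1]) :: l27

noncomputable def l29 : List Con := (false, [n0,n0,m1,n0,n0,n0,n1,n0,n1,n0,n2,m1,m1]) :: r27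

noncomputable def r29 : List Con := (false, [n0,n0,n1,n0,n0,n0,m1,n0,m1,n0,m2,n1,n1]) :: r27

noncomputable def l30 : List Con := (true, [n1,n0,m1,m1,n0,n0,n0,m1,n0,m2]) :: r29

noncomputable def r30 : List Con := (true, [n0,n0,n1,n1,n0,n0,n0,n1,n0,n2]) :: r29

noncomputable def l31 : List Con := (true, [n1,n0,n1,n1,n0,n0,n0,n1,n0,n2]) :: l30

noncomputable def r31 : List Con := (true, [n0,n0,m1,m1,n0,n0,n0,m1,n0,m2]) :: l30

noncomputable def l32 : List Con := (true, [n0,n0,m1,n0,n0,n1,n1,n0,n2]) :: l31

noncomputable def r32 : List Con := (true, [n1,n0,n1,n0,n0,m1,m1,n0,m2]) :: l31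

noncomputable def l33 : List Con := (true, [n1,n0,m2,m2,n1,n0,n0,n1,n0,m2]) :: r30

noncomputable def r33 : List Con := (true, [n0,n0,n2,n2,m1,n0,n0,m1,n0,n2]) :: r30

noncomputable def l34 : List Con := (true, [n1,n0,n2,n2,m1,n0,n0,m1,n0,n2]) :: l33

noncomputable def r34 : List Con := (true, [n0,n0,m2,m2,n1,n0,n0,n1,n0,m2]) :: l33

noncomputable def l35 : List Con := (true, [n1,n0,m1,m1,n1,n0,n0,n2]) :: r33

noncomputable def r35 : List Con := (true, [n0,n0,n1,n1,m1,n0,n0,m2]) :: r33

noncomputable def l36 : List Con := (true, [n1,n0,n1,n1,m1,n0,n0,m2]) :: l35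

noncomputable def r36 : List Con := (true, [n0,n0,m1,m1,n1,n0,n0,n2]) :: l35

noncomputable def l37 : List Con := (true, [n1,n0,m1,m2,n1,n0,n0,n1,n0,n2]) :: r19

noncomputable def r37 : List Con := (true, [n0,n0,n1,n2,m1,n0,n0,m1,n0,m2]) :: r19

noncomputable def l38 : List Con := (false, [n0,n0,m1,n0,n0,n0,n1,n0,n1,n0,n2,m1,m1]) :: l37

noncomputable def r38 : List Con := (false, [n0,n0,n1,n0,n0,n0,m1,n0,m1,n0,m2,n1,n1]) :: l37

noncomputable def l39 : List Con := (false, [n0,m1,n0,n0,n0,n0,n1,n1,n1,n1,n2,m1,m1]) :: r38

noncomputable def r39 : List Con := (false, [n0,n1,n0,n0,n0,n0,m1,m1,m1,m1,m2,n1,n1]) :: r38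

noncomputable def l40 : List Con := (false, [n0,n0,m1,n0,n0,n0,n1,n0,n2,n0,n2,m1,m2]) :: l39

noncomputable def r40 : List Con := (false, [n0,n0,n1,n0,n0,n0,m1,n0,m2,n0,m2,n1,n2]) :: l39

noncomputable def l41 : List Con := (true, [n0,n0,m1,m1,n1,n0,n0,n2,n0,m1]) :: r39

noncomputable def r41 : List Con := (true, [n1,n0,n1,n1,m1,n0,n0,m2,n0,n1]) :: r39

noncomputable def l42 : List Con := (false, [n0,n0,n1,n0,m1,n0,n2,n0,m1,n0,n0,m2,n1]) :: l41

noncomputable def r42 : List Con := (false, [n0,n0,m1,n0,n1,n0,m2,n0,n1,n0,n0,n2,m1]) :: l41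

noncomputable def l43 : List Con := (true, [n0,n1,n0,n0,n0,n0,n0,n1,n0,m1]) :: l42

noncomputable def r43 : List Con := (true, [n1,m1,n0,n0,n0,n0,n0,m1,n0,n1]) :: l42

noncomputable def l44 : List Con := (false, [n0,m1,n0,n0,n0,n0,n1,n1,n1,n1,n2,m1,m1]) :: r37

noncomputable def r44 : List Con := (false, [n0,n1,n0,n0,n0,n0,m1,m1,m1,m1,m2,n1,n1]) :: r37

noncomputable def l45 : List Con := (true, [n0,n0,m1,m1,n1,n0,n0,n2,n0,m1]) :: r44

noncomputable def r45 : List Con := (true, [n1,n0,n1,n1,m1,n0,n0,m2,n0,n1]) :: r44

noncomputable def l46 : List Con := (true, [n0,n1,n0,n0,n0,n0,n0,n1,n0,m1]) :: l45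

noncomputable def r46 : List Con := (true, [n1,m1,n0,n0,n0,n0,n0,m1,n0,n1]) :: l45

noncomputable def l47 : List Con := (false, [n0,n0,m1,n0,n0,n0,n1,n0,n1,n0,n2,m1,m1]) :: r10

noncomputable def r47 : List Con := (false, [n0,n0,n1,n0,n0,n0,m1,n0,m1,n0,m2,n1,n1]) :: r10

noncomputable def l48 : List Con := (false, [n0,n0,n0,n0,n0,n0,n0,n0,n0,n0,n0,n1,m1]) :: r47

noncomputable def r48 : List Con := (false, [n0,n0,n0,n0,n0,n0,n0,n0,n0,n0,n0,m1,n1]) :: r47

noncomputable def l49 : List Con := (true, [n0,n0,n1,n1,n0,n0,n0,n2,n0,m1]) :: l48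

noncomputable def r49 : List Con := (true, [n1,n0,m1,m1,n0,n0,n0,m2,n0,n1]) :: l48

noncomputable def l50 : List Con := (true, [n0,n1,n0,n1,n0,n0,n0,n1,n0,m1]) :: l49

noncomputable def r50 : List Con := (true, [n1,m1,n0,m1,n0,n0,n0,m1,n0,n1]) :: l49

noncomputable def l51 : List Con := (true, [n0,n0,n2,n2,m1,n0,n0,n0,n0,m1]) :: r8

noncomputable def r51 : List Con := (true, [n1,n0,m2,m2,n1,n0,n0,n0,n0,n1]) :: r8

noncomputable def l52 : List Con := (false, [n0,n0,n0,n1,n0,n0,m1,m1,m1,m1,m1,n1,n1]) :: l51

noncomputable def r52 : List Con := (false, [n0,n0,n0,m1,n0,n0,n1,n1,n1,n1,n1,m1,m1]) :: l51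

noncomputable def l53 : List Con := (false, [n0,m1,n0,n1,n0,n0,n0,n0,m1,m1,n0,n0,n1]) :: r52

noncomputable def r53 : List Con := (false, [n0,n1,n0,m1,n0,n0,n0,n0,n1,n1,n0,n0,m1]) :: r52

noncomputable def l54 : List Con := (false, [n0,m1,n0,n2,n0,n0,n0,n0,m1,m1,n0,n0,n1]) :: r53

noncomputable def r54 : List Con := (false, [n0,n1,n0,m2,n0,n0,n0,n0,n1,n1,n0,n0,m1]) :: r53

noncomputable def l55 : List Con := (true, [n1,n0,n2,n2,m1,n0,n0,n0,n0,m1]) :: r51

noncomputable def r55 : List Con := (true, [n0,n0,m2,m2,n1,n0,n0,n0,n0,n1]) :: r51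

noncomputable def l56 : List Con := (true, [n1,n0,m1,m1,n0,n0,n0,m1,n0,m2]) :: r55

noncomputable def r56 : List Con := (true, [n0,n0,n1,n1,n0,n0,n0,n1,n0,n2]) :: r55

noncomputable def l57 : List Con := (false, [n0,n0,m1,n0,n0,n0,n1,n0,n1,n0,n2,m1,m1]) :: l56

noncomputable def r57 : List Con := (false, [n0,n0,n1,n0,n0,n0,m1,n0,m1,n0,m2,n1,n1]) :: l56

noncomputable def l58 : List Con := (false, [n0,n0,n1,n0,n0,n0,m1,n0,m1,n0,m2,n1,n1]) :: r56

noncomputable def r58 : List Con := (false, [n0,n0,m1,n0,n0,n0,n1,n0,n1,n0,n2,m1,m1]) :: r56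

noncomputable def l59 : List Con := (false, [n0,n0,n0,n1,n0,n0,m1,m1,m1,m1,m1,n1,n1]) :: l58

noncomputable def r59 : List Con := (false, [n0,n0,n0,m1,n0,n0,n1,n1,n1,n1,n1,m1,m1]) :: l58

noncomputable def l60 : List Con := (false, [n0,m1,n0,n1,n0,n0,n0,n0,m1,m1,n0,n0,n1]) :: r5

noncomputable def r60 : List Con := (false, [n0,n1,n0,m1,n0,n0,n0,n0,n1,n1,n0,n0,m1]) :: r5

noncomputable def l61 : List Con := (false, [n0,n0,n0,n0,n0,n1,n0,n0,n0,n0,m1,n1,n1]) :: r60

noncomputable def r61 : List Con := (false, [n0,n0,n0,n0,n0,m1,n0,n0,n0,n0,n1,m1,m1]) :: r60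

noncomputable def l62 : List Con := (false, [n0,m1,n0,n2,n0,n0,n0,n0,m1,m1,n0,n0,n1]) :: r61

noncomputable def r62 : List Con := (false, [n0,n1,n0,m2,n0,n0,n0,n0,n1,n1,n0,n0,m1]) :: r61

noncomputable def l63 : List Con := (true, [n0,n0,n2,n2,m1,n0,n0,n0,n0,m1]) :: l62

noncomputable def r63 : List Con := (true, [n1,n0,m2,m2,n1,n0,n0,n0,n0,n1]) :: l62

noncomputable def l64 : List Con := (true, [n1,n0,n2,n2,m1,n0,n0,n0,n0,m1]) :: r63

noncomputable def r64 : List Con := (true, [n0,n0,m2,m2,n1,n0,n0,n0,n0,n1]) :: r63

noncomputable def l65 : List Con := (false, [n0,n0,n0,n0,n0,n2,n0,n0,n0,n0,n0,n0,m1]) :: r64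

noncomputable def r65 : List Con := (false, [n0,n0,n0,n0,n0,m2,n0,n0,n0,n0,n0,n0,n1]) :: r64

noncomputable def l66 : List Con := (false, [n0,n0,n0,n0,n0,n0,n0,n0,n0,n0,n0,m1,n1]) :: r62

noncomputable def r66 : List Con := (false, [n0,n0,n0,n0,n0,n0,n0,n0,n0,n0,n0,n1,m1]) :: r62

noncomputable def l67 : List Con := (false, [n0,n0,m2,n0,n1,n0,n0,n0,m1,n0,n0,n0,n1]) :: l66

noncomputable def r67 : List Con := (false, [n0,n0,n2,n0,m1,n0,n0,n0,n1,n0,n0,n0,m1]) :: l66

noncomputable def l68 : List Con := (false, [n0,n0,n2,n0,m1,n0,n0,n0,n1,n0,n1,n0,m1]) :: l67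

noncomputable def r68 : List Con := (false, [n0,n0,m2,n0,n1,n0,n0,n0,m1,n0,m1,n0,n1]) :: l67

noncomputable def l69 : List Con := (false, [n0,n0,n0,n0,n0,n2,n0,n0,n0,n0,n0,n0,m1]) :: r66

noncomputable def r69 : List Con := (false, [n0,n0,n0,n0,n0,m2,n0,n0,n0,n0,n0,n0,n1]) :: r66

noncomputable def l70 : List Con := (true, [n1,n1,n0,n0,n0,n0,n0,n1,n0,m1]) :: r69

noncomputable def r70 : List Con := (true, [n0,m1,n0,n0,n0,n0,n0,m1,n0,n1]) :: r69

noncomputable def l71 : List Con := (false, [n0,n0,m1,n0,n0,n0,n2,n0,m1,n0,n1,m2,n1]) :: l70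

noncomputable def r71 : List Con := (false, [n0,n0,n1,n0,n0,n0,m2,n0,n1,n0,m1,n2,m1]) :: l70

open Helper55.PC in
noncomputable def t0n : Helper55.PC.Ten :=
  (s
  2934566300029979289633709851821000599912666651448046302888242276254007652243093637678577912886086812134925600269886414636504564284074410328138544015335930513219386434650652672836899012758103782580280155101543058738999946747037748964063504257946782530200072714940445583490772815223314532394220946494842922253284946794479477967201886710750628195864520914047709259908265223709418902813728009131384178997282335316687501293888163090072264236757900926948457021587900014933212939162571768449)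

noncomputable def t0 : Tre := Helper55.PC.toT t0n

theorem ok0 : chk K t0 l0 = true :=
  Helper55.PC.chkN_sound K t0n l0 (by decide +kernel)

open Helper55.PC in
noncomputable def t1n : Helper55.PC.Ten :=
  (r
  1878046242748878163370398618314118856858212051424494347429924828940725167795634769249945157666839659553981328018729997652654132315466952336316983216366847261562491896388211566842623525451903522727191798285615279325807944502989813584367647208495432713201743004960468741339506833855292874960438711286692168071035677195522859465863892895708445333959422644362894466193524672040793867091894786630799816031185901673702452007423287089250001585698381166586158500474388065522706722137510268579104483854201228307755089622295172809705206963351450170189710495902867742886262434475369486888739852128185165226976001)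

noncomputable def t1 : Tre := Helper55.PC.toT t1n

theorem ok1 : chk K t1 l1 = true :=
  Helper55.PC.chkN_sound K t1n l1 (by decide +kernel)

open Helper55.PC in
noncomputable def t2n : Helper55.PC.Ten :=
  (r
  763893648374878228258208396239057150623507381879502600055927870772170239445623133892242038368093100231431237158114421531284773186356642167167639878593497562308152338008603032106658500835763839031241177450641825109236536997268757081185296978884707939019692107460581275367244465573025259164166658065024318052488935599176407365249814357770375611415185506546184746834748815320151005186249669559395865572986672033839308910333314272953247169266448457132903806640845764099892484730249477030186066208)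

noncomputable def t2 : Tre := Helper55.PC.toT t2n

theorem ok2 : chk K t2 l2 = true :=
  Helper55.PC.chkN_sound K t2n l2 (by decide +kernel)

open Helper55.PC in
noncomputable def t3n : Helper55.PC.Ten :=
  (r
  271105037234045583919793557755971983142989771204508893851803716158959557665554355879978485144345088595831171607640121286855079903941481119128627230673184006177853007497199199443019267737956554093299452987418274059984920221414144497985956232718234582182621614227391333155945100833670888071653809356463363087470529021568326418819639506981202549347546729238227975081466178502273897438976935433966154281271268913435303487596750000323374689198187206778846015839475636833798998615311181102392056722922508325665390572886530789405473713367726296185819439431256339321692465110963614299085163210224856475481724927107656361061168440064)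

noncomputable def t3 : Tre := Helper55.PC.toT t3n

theorem ok3 : chk K t3 l3 = true :=
  Helper55.PC.chkN_sound K t3n l3 (by decide +kernel)

open Helper55.PC in
noncomputable def t4n : Helper55.PC.Ten :=
  (r
  4092592117375180244127513737370628822663170081354810321381976701274330788813227461039424429991342647638975609275738534091291852988306749384124729349577671293558163587372062038372209176641111270326243923885802368428821508176453657565341187927295452412131992745701802009432040997136603622909933044315064936502689759900781904990310102739396653794563023464626889596842739587897649065387744019318905118711526599692208625927801090834547724718008854569128198014797975007570027611495549565085897454364990621712233386763696007702237846803366525120214081392751361143404381445937513933701141959273536751398915585127165778825416254323097257005085264043490430915968005936428054063456028812569269908805382980544943249236821632753355555391988662982935166387164369735384718220713091330673382690202971642520321)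

noncomputable def t4 : Tre := Helper55.PC.toT t4n

theorem ok4 : chk K t4 l4 = true :=
  Helper55.PC.chkN_sound K t4n l4 (by decide +kernel)

open Helper55.PC in
noncomputable def t5n : Helper55.PC.Ten :=
  (r
  206339822905189289220759303588991983505873373673419154018536365901551807532394787755400518683878699929841634816101682580822002812555481837172560635491714858889417659184872712313806856171068664218869683521532095690953414204565358071789497536626865574933026341809031132070047429554967147961423439697632481955291865325301190324381829333195137520128635947561908319213500257427966040023038606525449235125669890476926929713602636092121609468164673230803821908618020829981218711403774273488207839784925107694245724414583825923188153798070464732931694228204282311335604623577009342278480180289280)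

noncomputable def t5 : Tre := Helper55.PC.toT t5n

theorem ok5 : chk K t5 l6 = true :=
  Helper55.PC.chkN_sound K t5n l6 (by decide +kernel)

noncomputable def t6 : Tre :=
  (.K ⟨1,[-1,0,1,1],0,0,(⟨0,[(2,0)]⟩,⟨0,[(19,0),(1,0)]⟩),.k,(.r (-1) ⟨1,[(9,0),(0,1),(12,0),(1,1)]⟩
  ⟨0,[(13,0),(2,0),(7,0)]⟩),(.r 0 ⟨0,[(10,0),(4,0),(12,0)]⟩ ⟨1,[(0,1),(7,0),(2,0),(8,1)]⟩),.k,.k,
  [⟨0,[(0,0)]⟩,⟨1,[(12,1),(2,0),(8,0),(1,1)]⟩,⟨0,[(6,0)]⟩,⟨0,[(7,0),(5,0),(3,0)]⟩,⟨3,[(0,0),(9,3),
  (1,2),(2,0),(11,1),(2,2)]⟩]⟩)

theorem ok6 : chk K t6 l7 = true := by decide +kernel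

open Helper55.PC in
noncomputable def t7n : Helper55.PC.Ten :=
  (s
  456800272324861407548543094742273658628197898452105551276511812777258705359348608422969683607936455339002530370375770824195021471294916766795258132123033448251233826690219061944397628175763673055328755178796067068688563034309332487958788314649172581730156368406256694908189913471904489069916453444927032188613962721819899717569101239598907041876778468529004162027909772584252060037642624534761518962797237721753644883272893549133695177859489184500570532770973147512007499088034278938757672377254529)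

noncomputable def t7 : Tre := Helper55.PC.toT t7n

theorem ok7 : chk K t7 l9 = true :=
  Helper55.PC.chkN_sound K t7n l9 (by decide +kernel)

open Helper55.PC in
noncomputable def t8n : Helper55.PC.Ten :=
  (r
  295995158919631867377382033556245341667828949828129109680024597268185264627088231285221053544425532280002874804318550983894350138592660830004565667184307042976538592126365687472937489818385745518431800732514316985902088411610418489075244045617109441413610811330370050238204950786371776521914054106533184565650480926422450880222212048296264644221807596781099864299703657191617558464517088003419585136272110263898184755083644639987099344019201107287118812783871485477218065240316419712142231758274860556409092615911005729814487543307775032455551221416365393985871194483773989165440772706417677938815986765132993815092614938700823988461129383686879213835649015546198290700236367282481655494926130048874106248097023385793)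

noncomputable def t8 : Tre := Helper55.PC.toT t8n

theorem ok8 : chk K t8 l12 = true :=
  Helper55.PC.chkN_sound K t8n l12 (by decide +kernel)

open Helper55.PC in
noncomputable def t9n : Helper55.PC.Ten :=
  (r
  707464007422349483692064147399058403388977998768258161531241247910951785341811411618679018936931804718625102840309974872567548684041087062070202692617649684769375731360017861471889038217023261321233357032405666666265536742588295641490168385887129810023694999478111113554706854823856246793754752594830086931507532812818321016142175776764609187636076919543549053585801126047151252413650602048108904739354137814841377497403386474530916616351978301956471035994113754088655065218542192067524416473300618722949752849083058093698733835144883378967230131316504932846666044173086267765377707382807026914143713792253897013893752669017317338912619781488868712951708803987579465978737860233738624901716608191880774981530008352041649000633541144487208201556242664772423342893080983085276318292548947473097763745178369)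

noncomputable def t9 : Tre := Helper55.PC.toT t9n

theorem ok9 : chk K t9 l15 = true :=
  Helper55.PC.chkN_sound K t9n l15 (by decide +kernel)

open Helper55.PC in
noncomputable def t10n : Helper55.PC.Ten :=
  (r
  1920563582203573449793953525277980628507684500558193825789436443024864941301151900667594490589129498743677728629355176731098220677453172604928427960067211882273870651062222653557017909637710946900150095206117727464972015262692581557833138989383783250750031303445345534360935988896452979401415064000921036731736118408595327577812121625049540180884525732266550790856145867983033590005193670301981972398345696098889175973619754867523072331620154132180023199119036211632455291334001739523420823884928985936437415868465336233686885396591283767894853549831991253704773580208130291807797161106652497249183702935725817303434931949356738102987459304692855007042830860959480555724344733606645253599585446483020452617255359917533913460756801564743818528025761046720767161540702316466442369508641)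

noncomputable def t10 : Tre := Helper55.PC.toT t10n

theorem ok10 : chk K t10 l16 = true :=
  Helper55.PC.chkN_sound K t10n l16 (by decide +kernel)

open Helper55.PC in
noncomputable def t11n : Helper55.PC.Ten :=
  (r
  295564695000562724572910044564400360867052045535501148732964352208407463886135230329901574939486211696586271816358293427823242339537260779791414136673673262471042976591452333310427196133638263953112282500917237391301727975301288657987872451035970074148384087249709767785643750274851976030913456801919182251068838163138760263746948750396800616550826859735687586942552759253536777762989163870734870943413387072178246398000171301916150228699188410764799154124266041209720783398751775300491904182481097351339528168596653298783003280293764145193020660814559769739146190786988644860176230660109468429284390992346667370125919718380075856089908726859412450354059879498004006107235077418167632994912112809092920965224523464152755983828212402439496817615854125709010209)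

noncomputable def t11 : Tre := Helper55.PC.toT t11n

theorem ok11 : chk K t11 l18 = true :=
  Helper55.PC.chkN_sound K t11n l18 (by decide +kernel)

open Helper55.PC in
noncomputable def t12n : Helper55.PC.Ten :=
  (i 324716628901006033962408637235240 (i 21775413351585892568401936903917736951818 (r
  9508471813279036020367561740212271071770840730163595445064835300941686580492149171911072514086020026500606646922451065290562669477096438223658816333567875205503693287431798919845593395971700657448722918229053915879501628082851543669887815517067912147163929439820600131126444760761155914716673335111040364512455875049979457329746034906912414492069576116851739087450473227314597986028603882508876757992643052870183402966877780455447461307220137927233402228534735979962080564874592853137238129099333561328087990756213961492879777231553580868609394453966186578908276456317612435861127075608138065490628034687944372513804481132206449745202732805058216822925134515273718248018089905418269429870550830736713453157109978187423181530655646033498842338548125501229015236698697572564659201676706820480206160992617112321)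
  (r
  9942162194891847594852201465485477449815767784318692638275172911858848134634059705973142702762761368705404311187965107985470116093997055276487359086276377000757388386081552037464457447965174866938505308569560781946024130492133348156518655330595090976772436399096985589899061793746771334982976069359340142996222740377318633100285385920198666864755126482300232940719810390312250396777850600724563615786663451193630509312609211701003694593994755498448222639427826596973410189739442282055773071555187967722884678286753196218165170017908376546221213308487487128433345670654218815235690441441593640307499121181041044396285301040153989979516095688633152867221737721146252481698238999435693284722517222154428870654494281567767867682243678856454914869362403385597578770479049584415412830416542347789441518516640224194975034058213171906803362153558703746934309461108174643362))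
  (i 2660078623966714017368571712706314249 (q
  1087256830081021602936267183448526824945049775770612761303237354429620781541238430001168638406302519473428036409720510409690526292419683627370652635183690213051857903943693
  (r
  713887292395103585379742325131358469949967911805268404773093203163720636226686981075124914462486706907073273518763524841786716994934176081187483862579197274889805548074705940945450201909126738148103586714274046450644268146616458422305013718334727932212947615681311837868724503054806102568702805935754950249367369795301451481993255397954018433335685330861225168977577394177019005430502245560366223474627757499788490475580513766132354982601224385056424474882015362198813894795647210373384349331145089689369034266740936201477396615690576902549382716025915609023914955742565395592923306171050907124840098255196787987073107249347944080141533352329448873683381876976843633143541647575569069107187415722106306068085606435210781507873316000959407970011333057376898147539330362815261060278050455262956465785342746772207204159489627748858779551952467119470761069571961181009551209275074221847652235283548155181139488652438174815077619475745)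
  (s
  12263612821584866305597239883328359844603899496929244328974282094347568971396679659137983351716380061366704944970629817789666755202122018847713218447940781525302468851209064297189213226264576912360140061752711099082584561715776931161697134957132402362253913637585810345983927203195841149481222630090654605082893867219189011856828119610228279590912965537479972150712662844427405476591940122951240747460908388078762647902483680726736297074534347672337561513626454864526892189608536755478885792972713446037112964779698918911641044799812112754346784350861081403466299066270935774754173984200976373908097))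
  (q
  241559404669763803388706193493169667804296855480714630618577634419701833520310572153450877171120947426789484297903996823259807849271324881564501399567019568964951103897613
  (r
  136535354182865118311571801330028507054478444517359060456267909475502960539260950900383080922525662764853990640493713439386333628424700934666639762444382120829297261068835192517920820456994077984277593287981990510984469484254193153877937795744324802533584468385204453663191554292185152868522224176314517391224125910040182013334134947645550671559010518834583892161516936169708003524261290499081779606575857252446154795888354360802937431071696176264369069867055933656644434634038753960887305532399528864133519726805273633554616813532919850849941497228846805913368232174280110605255504227814296198512111200092718060576854383701836271734501525174782825568434628796894979671827636521914111965044815279411057503002786)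
  (s
  8391104401347604304336621721106284516300290853648115396211794293053248872551411694609817250868751233321399422667925873857743596116462989058635783066302058732999717666917643388583192805343206093718235616519627760011419401382190435245574336156641890207175438385693522429880223375109538263873568565076653636633278895347213503587991565323916918899788291825025521587634056055179026678011689591808594951849687652856655631684377641468513376653075420290336039563492115062819369821594272065221091489025970057055809572261771101587730133633087656775446445425281))))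

noncomputable def t12 : Tre := Helper55.PC.toT t12n

theorem ok12 : chk K t12 l20 = true :=
  Helper55.PC.chkN_sound K t12n l20 (by decide +kernel)

open Helper55.PC in
noncomputable def t13n : Helper55.PC.Ten :=
  (r
  118474933405582806384576799595353580615982547530784606844634753598191896616180551777311677374727741756695934319035117561849544732211469365963797254805153383947852137774827961787608684513343269848652081849831159040854993879790928828781344939792000640332181417392550749028946872414584452600230970393261857136796029940562688848585019164154974006094911699114180361026481190742872049858596374968089691534032258584667009648446532412177083467667490054253973554527707576587098769829491649498993705181297961001551537195915413342752607839770568994083313361669582830460744179204236027101329553444701149522537491446603269249082632069111636351088038598761210782289368581868064362759297779662496116718479851932710343919107937472302345110038590256811511972302587210942219106044791881286923365242499869780668161650240223843878679255147495524598055227228778427807580078650925155509609729)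

noncomputable def t13 : Tre := Helper55.PC.toT t13n

theorem ok13 : chk K t13 l22 = true :=
  Helper55.PC.chkN_sound K t13n l22 (by decide +kernel)

open Helper55.PC in
noncomputable def t14n : Helper55.PC.Ten :=
  (r
  72547733888933688394668469255094219553298776317615916419344636739626495453995433156857755477471383072097044836502999393227978668497923974508028886158644545677693212694398708703738423771354730463469900152970185144895837866625065536974889332427052767875686613592623527885366870638195534759427418632504867282315273378880261958391882557118580863851616125394408889397924188418485232744433278996492158170318456708875229022009248222202253784122921706838900090362442547495843086982824462787111651988152255500049829720670881039131564497888649938562148698906426186837641721476158371599649433360019336975025208993000588994141070051255562237634678205995653082679494784762096395009)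

noncomputable def t14 : Tre := Helper55.PC.toT t14n

theorem ok14 : chk K t14 l24 = true :=
  Helper55.PC.chkN_sound K t14n l24 (by decide +kernel)

open Helper55.PC in
noncomputable def t15n : Helper55.PC.Ten :=
  (r
  3106645898776092121788572069743861167877356158326143604994189109194219497553316209252566211368684617572438062804067077127728536606875669214235649564334421695208597863788562101432163645546974681200051251000182549154936687642098875267672519711106010301777950850673297280046245293924452295500462211966838530584495450167248862293619108605051586724860833343710341054932914590897081906051596755798721059845513648353747237811132381440852973822442376839014332683984192154464295985257376954175664247159048177449189744640313531302460464628156380847467674846986839893657226893788638492589194324686869980580827387124008081555507102395276784202175823828984894123681429418542312580209143902457622119806659339147433783026383517141910118734778022306493916741257681747949999203931154227957236842475279885057)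

noncomputable def t15 : Tre := Helper55.PC.toT t15n

theorem ok15 : chk K t15 l26 = true :=
  Helper55.PC.chkN_sound K t15n l26 (by decide +kernel)

open Helper55.PC in
noncomputable def t16n : Helper55.PC.Ten :=
  (r
  1037087874925200602130244158113860055913127396055556834453472451666202755126770171562990919598018284742426000246767593591530314285681482786633801856479456546094234023580436932830889530079520745766170160168427584201882342612901060246008445444138123782943378007307315484796665788820870065427617309547880067437793232575124904686811651998226199943944653773486464654624060560427999419234080965565538179477066504585268663817109869184833733061925026232041332150278402928585744990762039031096398643981686612463425798846879952220847224240790101873282050020514668033734562625209124417341851369224130903553837161665393689488071744098227674489024786682031304710324841190016634412460817078234797501089707190001924288968380185611494321262901863169)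

noncomputable def t16 : Tre := Helper55.PC.toT t16n

theorem ok16 : chk K t16 l28 = true :=
  Helper55.PC.chkN_sound K t16n l28 (by decide +kernel)

open Helper55.PC in
noncomputable def t17n : Helper55.PC.Ten :=
  (s
  10144222765871430054583210808200546630568034804412469280346829105328357516451261682667190208750939114742226368182622007579311438563978025525115117505411775642912283218878431970472001782857020457487857904074131767419662684211674092520740197524493354571002410746630524549361256755119647099283435095426438690830368254075879065466753115721709598660032965752392013414259968288921248181994861705584644951507520729830809690536768335921096248064445959641291098679068999383332541207375060060541911801022568072756520341187998819086484317989681505023438600080708521306021727742725194369)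

noncomputable def t17 : Tre := Helper55.PC.toT t17n

theorem ok17 : chk K t17 l29 = true :=
  Helper55.PC.chkN_sound K t17n l29 (by decide +kernel)

noncomputable def t18 : Tre :=
  (.N [0,1,1,2] 0 ⟨0,[(1,0)]⟩ ⟨0,[(2,0)]⟩ (.x 0 ⟨0,[(0,0)]⟩ ⟨1,[(6,1),(9,0),(14,1),(1,2),(2,1)]⟩))

theorem ok18 : chk K t18 l32 = true := by decide +kernel

noncomputable def t19 : Tre :=
  (.N [0,-2,1,-2] (-1) ⟨0,[(1,0)]⟩ ⟨0,[(0,0)]⟩ (.x 1 ⟨1,[(0,1),(6,1),(0,0),(7,1),(2,0),(12,1),(6,0),
  (0,0)]⟩ ⟨1,[(21,2),(1,0),(0,3),(2,1),(3,1),(13,3),(2,3)]⟩))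

theorem ok19 : chk K t19 l34 = true := by decide +kernel

noncomputable def t20 : Tre :=
  (.N [0,-1,2] (-1) ⟨0,[(1,0)]⟩ ⟨0,[(0,0)]⟩ (.x 1 ⟨1,[(0,1),(43,2),(3,2),(3,0),(4,0)]⟩ ⟨5,[(7,1),
  (14,6),(1,2),(0,3),(2,7),(3,11),(16,5)]⟩))

theorem ok20 : chk K t20 l36 = true := by decide +kernel

open Helper55.PC in
noncomputable def t21n : Helper55.PC.Ten :=
  (r
  26648993465824779927627297131419875372547120186196174614121004003229303933934405824971855147336678869847782330782691701706962376730466621096071034775137430079878170247859997504267075948194099205473702672047959230939793367036065013429618796789491516129159940959736516779601489142554872044134220281166257636194990382078669306582308419234154003492297870936592877084222981678257435316111934072082934441015735695100526517921655951262480862087551338607380255356224939114117351943210705103181019469778918432293361478694652734448055468297717044981173133036792480098917169377480900163785338731839734360909390073344012745834880566197056419122019702722963614451510890360425854904105954776342878941545173852911110628249423082421337940266072090035734692130048367273668001462760439208870536487990311204517458343446015324958877815817109767122223084872993)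

noncomputable def t21 : Tre := Helper55.PC.toT t21n

theorem ok21 : chk K t21 l38 = true :=
  Helper55.PC.chkN_sound K t21n l38 (by decide +kernel)

open Helper55.PC in
noncomputable def t22n : Helper55.PC.Ten :=
  (r
  376689370736096249545477860832862937609457396002584681887097410071322239354224975282958681417942601065800336107262516465366876572777118058798431511731180960038125709412232293306623580137810564478183311700845131564909386676375642955916959877361680243336154805697414385130990813873186314841664937720566566065124312206828331414385772080614941102489033114389590439428041213547537241184635470232073185930142009536405922249785698609734786190978452288385467763879531710888293871674511710793279460353832485154477915372312750220195247745681361611047418074117281943503281765755400308162540205101384548112487674076860196994882097150761087972732438176781281764967595880597636483972669358841956424263904176841696001)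

noncomputable def t22 : Tre := Helper55.PC.toT t22n

theorem ok22 : chk K t22 l40 = true :=
  Helper55.PC.chkN_sound K t22n l40 (by decide +kernel)

open Helper55.PC in
noncomputable def t23n : Helper55.PC.Ten :=
  (r
  37949511596229798527747766659973646529827825350383918367352959027059645114779360249428215872276173700498358379574866879355359383357512710773744017970413751781070189904781728927671687807263961153324978166872605110220627763391092714641928531534084191199492403019310367918798525797810197710625284091903772722603059300350619950072199641626833255854051334181774613134689277826363431551124690700325289711114788622704006182454252620673733132921784610751334525065214446968794898246627273214195069909564786791982206759423374208665304994027891665691282677812096420997618696321177319605990787533140576947471311009559140064490317254574149729255933755361002574355143756452817934635771032140007405899361199013417837337480484142307015926561)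

noncomputable def t23 : Tre := Helper55.PC.toT t23n

theorem ok23 : chk K t23 l43 = true :=
  Helper55.PC.chkN_sound K t23n l43 (by decide +kernel)

open Helper55.PC in
noncomputable def t24n : Helper55.PC.Ten :=
  (r
  1706700444936022878653136734288500857934763968498585663327477519412375067596970014178255955210261684395046228170354899377419282835342607252057590848540862474766798538604879586827498182494573482292406915834510492004158866893830278921223554367107314750887623549579172819832108220203279897064557340659747370982064170333410441933437012452765700940061720398413815254845218148196781152536417589497604523989839248518613347153180580751827794350310415450151558075940566904322740897075623228100229778630600518330651725837250005942205399080159523020915292716946917059677090765607355895329717424293240244173265029030027201458597021145389678452371446943357492869997987761982494250173578101416098)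

noncomputable def t24 : Tre := Helper55.PC.toT t24n

theorem ok24 : chk K t24 l44 = true :=
  Helper55.PC.chkN_sound K t24n l44 (by decide +kernel)

open Helper55.PC in
noncomputable def t25n : Helper55.PC.Ten :=
  (r
  197045129798157551780856737317711556750960223682883767155127055128380840758503564943825540363209268777534110184976724971456671397702644831923204824610650872401431520837825230033997179267526460874181358387587880289792983235611790594555853784727363944291120988201424540035812044384532686395112984192986004643924332908569138347939466804300718723714440037656502516133611222075995824776209529038412132268154349445098555860440177124175456488414427892499932077036194246146787105941535867913320285072300682669575254720522620514925707191153655880243740234194886746940994330136851256666860225048319634396084113427852435952997149778338071304488843348211792904628932281870631335745469727152569876350708725754599697611937439422450923316379397481012402701560709706121224993)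

noncomputable def t25 : Tre := Helper55.PC.toT t25n

theorem ok25 : chk K t25 l46 = true :=
  Helper55.PC.chkN_sound K t25n l46 (by decide +kernel)

open Helper55.PC in
noncomputable def t26n : Helper55.PC.Ten :=
  (s
  105910050266453800042836795860373509818787225063670865177759827622740080511902426647748640512493483881348956535889505972803321990422744821423883209966232051999667358155673365448058307874527833257476368329446691961518649748002369755507291807719018468911404664825001765648547573710976383056055463385953363692503712794109879725842687912434965680450742446646945115951011511598890463572113098305365837457181021550756721384544822490767130406801768582430263065135414293110381261846882319553264051366981203231329814014470214648449)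

noncomputable def t26 : Tre := Helper55.PC.toT t26n

theorem ok26 : chk K t26 l47 = true :=
  Helper55.PC.chkN_sound K t26n l47 (by decide +kernel)

open Helper55.PC in
noncomputable def t27n : Helper55.PC.Ten :=
  (r
  28001433883619514504412306534861632667015768630055992941471322225060378129071807025228583002143263617211451043890413229289214026168216091630616746641608512100185164630570649786208956745968989532161330310137613036329709427531709144228001078226151349797147240430162154596150280966313012379953609333286462887317973590874980808766977995952129434829952047469061756893080807533285861997001766635897680573386348429549197443573446811307594980861171576163309362234241711205114417097053007757586566117909999261539877234024435911949905613353615731482165871750811191002878799693242120910685352431107249502665426360291577982654657915241191737363934703669896604678510092506511785505586383711148556599498106225764185978187632856232589137372266656021233603977985)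

noncomputable def t27 : Tre := Helper55.PC.toT t27n

theorem ok27 : chk K t27 l50 = true :=
  Helper55.PC.chkN_sound K t27n l50 (by decide +kernel)

open Helper55.PC in
noncomputable def t28n : Helper55.PC.Ten :=
  (r
  258359626863455395740120922731451145416534593622969679038797644080965632312625778101909882057309433707087309755493563134579759220443510700941689452903944062429408828775924828946182180063732291366479271297410909484980665697019256126470831034793493196778962725945186806472473598539068542627610875700171197954683458339908593202448063493290283018075885545539493808290583355004330585862767095763764941381516589811591693545023575829075982631780050950399271795050188427647782656375869497926610720305302874719293476694491970229120372827576794672498220650083879632776049714018024468047005194887932223708222202145)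

noncomputable def t28 : Tre := Helper55.PC.toT t28n

theorem ok28 : chk K t28 l52 = true :=
  Helper55.PC.chkN_sound K t28n l52 (by decide +kernel)

open Helper55.PC in
noncomputable def t29n : Helper55.PC.Ten :=
  (s
  15528477551670121091789689406595048925597942006903569827229741009793967597214295726201457226817355890490742131445352981006459124127189698875954974688491214493852804076809250058693160170190278851712484411068935371890794034614203413550146392288086148882197703084493215210817863400964429660613798493835975516788602200831010424082225662819252526687655617893431115208439553531752097419932475549371803112420890110151145347469665372501986452449238481691370805457766860697178735233)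

noncomputable def t29 : Tre := Helper55.PC.toT t29n

theorem ok29 : chk K t29 l53 = true :=
  Helper55.PC.chkN_sound K t29n l53 (by decide +kernel)

open Helper55.PC in
noncomputable def t30n : Helper55.PC.Ten :=
  (r
  1033681095976891147511692153141564659845094085110279141069775059571479144257177201291292869826185958741509858217998513043625837046979518752432304746415175272245294192293351039389162525783259427957426357222504352855440323657709868759340988738025776618794857667802126416082071457887654892327022046277882385539337)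

noncomputable def t30 : Tre := Helper55.PC.toT t30n

theorem ok30 : chk K t30 l54 = true :=
  Helper55.PC.chkN_sound K t30n l54 (by decide +kernel)

noncomputable def t31 : Tre :=
  (.N [0,-2,0,1] (-1) ⟨0,[(1,0)]⟩ ⟨0,[(0,0)]⟩ (.x 0 ⟨17,[(7,5),(0,23),(2,0),(2,0),(0,17),(2,10),(2,
  1),(5,14),(0,1),(15,3)]⟩ ⟨0,[(2,0),(21,0),(14,1)]⟩))

theorem ok31 : chk K t31 l55 = true := by decide +kernel

open Helper55.PC in
noncomputable def t32n : Helper55.PC.Ten :=
  (s
  549917020637982023337964890154597147244229010586316602234816392382859227649109034166713017463517665765359832608671510134879570600914808486328501660141122249821525371351243641648643969646949918123369231661631177376617413203878763125015374015779417866508246344529841438581003753461210913617743572007918987032684553774624816763571138109518945964881156487389566293276312714356929592319617840266193958654568836093934887647297549640875574416459755536624429110709887838931960051663103852920607298136302864898446853509754950443162757246444265027620416876641780353)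

noncomputable def t32 : Tre := Helper55.PC.toT t32n

theorem ok32 : chk K t32 l57 = true :=
  Helper55.PC.chkN_sound K t32n l57 (by decide +kernel)

open Helper55.PC in
noncomputable def t33n : Helper55.PC.Ten :=
  (r
  3942255048575674373547194587087666218496740055743599302169900174107254887970830332099505370943495494396722703595696276008464696679984558494828642335385312958249309131014980307586433337305880959164193074139517344161003437649145713812087868115208746064650592826593489077805899577380595888112200574472508940289700824086628864815837733287315518653829092206507621634313113203773625000664707663466082798161848843314698647868060460922717722518799520414712583179553167519746202146650562765569358520938725917459957583458607420511738154494435618417431387716354281256791013703421178545795814094994620016763169)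

noncomputable def t33 : Tre := Helper55.PC.toT t33n

theorem ok33 : chk K t33 l59 = true :=
  Helper55.PC.chkN_sound K t33n l59 (by decide +kernel)

open Helper55.PC in
noncomputable def t34n : Helper55.PC.Ten :=
  (r
  68987895644499657216806980566172765205851794635741581069712747237205138097521584377220237344993238770903295903647337368682632680670305202815599407872794707612581275635814558452562630206274750471307952632210357780413279383504189475078051274968313673979759155563653792279969795554220229259570258535974413225569809155902046192335179482680152838265785342020459229049425233269970531825649891181032469120656476268441692441807964753027249797487467259133690795236954288847807060921180089663942407660458236626786630107751506277798006412151169576772394681018042143481520203523334933367682322944805495219317599668357789522854667296667440203273975473741347656248277144795854000366131000185632436331259492102679762820246593709073451771516388343916223286621240032532323590363649994189042621581432770786772328571985700947582779868040930735059637591213830441805089)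

noncomputable def t34 : Tre := Helper55.PC.toT t34n

theorem ok34 : chk K t34 r58 = true :=
  Helper55.PC.chkN_sound K t34n r58 (by decide +kernel)

open Helper55.PC in
noncomputable def t35n : Helper55.PC.Ten :=
  (r
  10797381047120277680115964407451492233694617921171784343283813676408733444200513258333675290042459595940492292553418957139753601236914870767294994372924301362792230568251807408777894082624660862133408976905351865089681833571953606360749213093952904423116915674809683384238979186399659844366814524804590224168860396448020172084118686298086584678702181747167231920912530757341672846985404883852153367179887288253631287258890572250303264227606521043306026487969433553197516893005578523738747767781208016994675177843446855854268415360733157791890654169555103127121436929)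

noncomputable def t35 : Tre := Helper55.PC.toT t35n

theorem ok35 : chk K t35 l60 = true :=
  Helper55.PC.chkN_sound K t35n l60 (by decide +kernel)

open Helper55.PC in
noncomputable def t36n : Helper55.PC.Ten :=
  (r
  4138938264653425626756692896537943915355502588093278189255184100766744435067723535700840048665194062141420949670549989520283235241441267354715570195296810580552942194467718567658892096658097894146678426990501321840141482352936733147916440806713769206118813461918287673830521673674141095322642664687176489030938336808912416064388144182249268373612529799329053041512348964899535164941452644325586297108695688479292292079187959226161912469265760483512069219680290650124069307807619365636971156776540268364833568)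

noncomputable def t36 : Tre := Helper55.PC.toT t36n

theorem ok36 : chk K t36 l61 = true :=
  Helper55.PC.chkN_sound K t36n l61 (by decide +kernel)

open Helper55.PC in
noncomputable def t37n : Helper55.PC.Ten :=
  (r
  1033677667170276053945244558799168874643878577486922416976291389508020387899025965007020329426178780769566090747633649760402127936250168829312072882206937431194877948569133866587209407561819106206011708859004940716686617790728956345237368901447560513896019585095301492968806136783139754514318612592480294805769)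

noncomputable def t37 : Tre := Helper55.PC.toT t37n

theorem ok37 : chk K t37 l63 = true :=
  Helper55.PC.chkN_sound K t37n l63 (by decide +kernel)

noncomputable def t38 : Tre :=
  (.N [0,-2,0,1] (-1) ⟨0,[(1,0)]⟩ ⟨0,[(0,0)]⟩ (.x 0 ⟨2,[(0,0),(3,0),(2,0),(0,3),(2,0),(3,1),(2,0),
  (8,1),(16,0)]⟩ ⟨0,[(1,0),(8,0),(9,2),(3,0),(14,1)]⟩))

theorem ok38 : chk K t38 l64 = true := by decide +kernel

open Helper55.PC in
noncomputable def t39n : Helper55.PC.Ten :=
  (r
  189335841163007260612341308041062049223034419038144578755580048176469857761098163338332895814742240493141605435305932598486753341314761571377344071724374556921454608812172608855186185636087864440878815583015864831219794381623782774638521828693832141676206753377589072268738285443386523327635142090374876665560823603368135766485852928544759645821298329360444639328609591152905499297727723993302408826236250294061139601786865420669746977444458714396041177936950762148103632973410941388269522228402540748408721487329724451019125805711712971719320932159033802955662408540448)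

noncomputable def t39 : Tre := Helper55.PC.toT t39n

theorem ok39 : chk K t39 l65 = true :=
  Helper55.PC.chkN_sound K t39n l65 (by decide +kernel)

open Helper55.PC in
noncomputable def t40n : Helper55.PC.Ten :=
  (s
  24763207910569828301033012062706564076278607041369074037396678848877295084087018564376620732582332627101075069223253377610941152886436995674996393802233927077736676432745954286656168424911584646217884302786287680347349505257662328315073219354959749040984614569421439444821707528270504513352932812934317356213462805700399057626509252948655398349234194380895921130264397280982489951298633913928361868201778734826633603577886882188054613614926221897987388837415742385881606922437249)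

noncomputable def t40 : Tre := Helper55.PC.toT t40n

theorem ok40 : chk K t40 l68 = true :=
  Helper55.PC.chkN_sound K t40n l68 (by decide +kernel)

open Helper55.PC in
noncomputable def t41n : Helper55.PC.Ten :=
  (q
  998962585474490972879209495371503727787338004639151103673408470747220946204999473002444456644869184678700523329457123995974080644372631017131737101
  (r
  2078482225594792173839880808552162242536421028246565893197570071985955353748978601661347416764607368397868081146007282836273428086734292214669916002412200248953957754859813283800499228887021347798192947821972328951243281596400749802713138889968735772315278413635728661999747851188487616711592782997162429394407274361702964023142298647548410763559477022990395517245772643701351799843585353083840250632206192219088350184708673310301930905935581267214569119919601234684276312438342933908402344471440075067178871453614975759690346989602225448757576033211271058727837828592003790682718713332005122698551441157946671259443488)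
  (q 7589274061698409701535486099386126939953592252993644093684423328859004464944775181 (k
  5297385423228674078400915584904750010420036788273591160241078345551600390241155740780581812294575647904940046179061921904309618342034311305458308690854183796677125408788390557957599711124006784971777239977057)
  (r
  9820984964638663013770890855984822857374295235927942168059711433041334679284142645780829094768209675635228506802327047318916229049477677400285350819370959208642366409929375655021699686039613503996800020553652707928680839778172485372082560357262113188631503566817662174528733334612856350335255519289381368830424800671117252721882280744668655262645510097966221562848233102505643941212823190143022956508197245522409344769440919434390409485522272880431848802043362250305136864115160675893196907587667343854040483756139414841669051327291346121530424764391712)))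

noncomputable def t41 : Tre := Helper55.PC.toT t41n

theorem ok41 : chk K t41 l69 = true :=
  Helper55.PC.chkN_sound K t41n l69 (by decide +kernel)

open Helper55.PC in
noncomputable def t42n : Helper55.PC.Ten :=
  (r
  21706293348564988535664123929518062949187119604067012423535349601920603811163772475740866458348747369652827418421495693550615266882025549763524030007937082515972601638884108826971742883396834396099789258732501486670405463407197673842225548093278915727945117469737905641326611014236498054799762659135557029292937751228245654063919289922762022397265713618378097140005679109842667138932487127191622761977601047987011819657149253779468688193568427369482404195875705516167820356282000006951302256914093447035096719878444472308406851689326316644186999901332520363624589335081176796379021426971884366842139797278895409470588926236905672766825707123739687387844236693358342641314706671494680825464666612325197458741928705)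

noncomputable def t42 : Tre := Helper55.PC.toT t42n

theorem ok42 : chk K t42 l71 = true :=
  Helper55.PC.chkN_sound K t42n l71 (by decide +kernel)

theorem cl0 : Clo K (Helper55.TR.GT (-1) Helper55.TR.BrU) r15 :=
  .q [n0,m1,n0,m1,n0,n0,n1,n1,n0,n0,n1,m1] (e' := [n0,n1,n0,n1,n0,n0,m1,m1,n0,n0,m1,n1]) (.p false [0,0,1] [1] (⟨0,
  [(39,0)]⟩,⟨0,[(27,0)]⟩) .k 1 (⟨0,[]⟩,⟨0,[]⟩) .k .k) (by decide +kernel) (by decide +kernel) (.t
  t10 ok10) (.h (Helper55.TR.GT.lJ Helper55.CD.D1_m1_c19u_41_0.g 49135297554220211289758694779218337777236679797550336042839261055082403486893051630171888994780585395467893500190445228040494163638940365311406292836156124323115100539906 (by decide +kernel)))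

theorem cl1 : Clo K (Helper55.TR.GT (-1) Helper55.TR.BrU) l14 :=
  .q [n0,n0,m1,n0,n0,n0,n2,n0,m1,n0,n1,m2,n1] (e' := [n0,n0,n1,n0,n0,n0,m2,n0,n1,n0,m1,n2,m1]) (.p false [0,0,1] [1,0,
  -1,1] (⟨0,[(38,0)]⟩,⟨0,[(26,0)]⟩) .k 2 (⟨0,[(26,0),(13,0)]⟩,⟨0,[(1,0)]⟩) .k (.r (-1) ⟨1,[(0,1),
  (14,0),(0,0),(5,0),(9,0),(1,0)]⟩ ⟨2,[(16,1),(0,2),(7,1),(3,0),(6,2)]⟩)) (by decide +kernel)
  (by decide +kernel) (.t t9 ok9) cl0

theorem cl2 : Clo K (Helper55.TR.GT (-1) Helper55.TR.BrU) l17 :=
  .q [n0,m1,n0,m1,n0,n0,n1,n1,n0,n0,n1,m1] (e' := [n0,n1,n0,n1,n0,n0,m1,m1,n0,n0,m1,n1]) (.p false [0,0,1] [1] (⟨0,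
  [(39,0)]⟩,⟨0,[(27,0)]⟩) .k 1 (⟨0,[]⟩,⟨0,[]⟩) .k .k) (by decide +kernel) (by decide +kernel) (.t
  t11 ok11) (.h (Helper55.TR.GT.lJ Helper55.CD.D1_m1_c19u_41_1.g 279764464109613237236832423671126808656749524313359013810041943754060045147552056643717721762475374383746068467839062299078568178653344803566264744545585833892088479447714514351107 (by decide +kernel)))

theorem cl3 : Clo K (Helper55.TR.GT (-1) Helper55.TR.BrU) r14 :=
  .q [n0,m1,n0,n1,n0,n0,n1,n1,n1,n1,n2,m1,m1] (e' := [n0,n1,n0,m1,n0,n0,m1,m1,m1,m1,m2,n1,n1]) (.p false [-1,0,1,1]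
  [1] (⟨0,[(9,0)]⟩,⟨0,[(26,0),(1,0)]⟩) .k 1 (⟨0,[]⟩,⟨0,[]⟩) .k (.r (-1) ⟨1,[(15,0),(0,0),(0,1),(4,
  0),(9,0),(1,0)]⟩ ⟨7,[(2,1),(7,0),(8,2),(0,1),(2,4),(5,2),(3,4)]⟩)) (by decide +kernel)
  (by decide +kernel) cl2 (.h (Helper55.TR.GT.lb Helper55.CD.D1_m1_c19u_41_2.g 279744642855103597630561171384546340047703058242227936071609635851300067533307184117911345640701874316414530827526967822393639074523126851284767838803935902175705686371034409752579 (by decide +kernel)))

theorem cl4 : Clo K (Helper55.TR.GT (-1) Helper55.TR.BrU) l13 :=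
  .i [n1,n1,n0,n0,n0,n0,n0,n1,n0,m1] (e' := [n0,m1,n0,n0,n0,n0,n0,m1,n0,n1]) (by decide +kernel) (by decide +kernel)
  cl1 cl3

theorem cl5 : Clo K (Helper55.TR.GT (-1) Helper55.TR.BrU) r12 :=
  .q [n0,n0,n0,n0,n0,n0,n0,n0,n0,n0,n0,n1,m1] (e' := [n0,n0,n0,n0,n0,n0,n0,n0,n0,n0,n0,m1,n1]) (.ed true [1,0,-1,1] (.r 0
  ⟨1,[(14,0),(0,1),(18,0),(8,0)]⟩ ⟨1,[(13,0),(5,1),(0,1),(0,1),(6,0),(3,1)]⟩)) (by decide +kernel)
  (by decide +kernel) cl4 (.h (Helper55.TR.GT.lJ Helper55.CD.D1_m1_c19u_41_3.g 259222440980487764340800320257521416618956512568483777567894245590942008996383216379114734458718079012628416605742198253061743000516612960398036499323674161819744252723202051 (by decide +kernel)))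

theorem cl6 : Clo K (Helper55.TR.GT (-1) Helper55.TR.BrU) l11 :=
  .q [n0,m1,n0,n0,n0,n0,n1,n1,n1,n1,n2,m1,m1] (e' := [n0,n1,n0,n0,n0,n0,m1,m1,m1,m1,m2,n1,n1]) (.p false [-1,0,1,1]
  [1] (⟨0,[(6,0)]⟩,⟨0,[(23,0),(1,0)]⟩) .k 1 (⟨0,[]⟩,⟨0,[]⟩) .k (.r (-1) ⟨1,[(12,0),(0,0),(0,1),(4,
  0),(9,0),(1,0)]⟩ ⟨0,[(18,0),(1,0),(5,0)]⟩)) (by decide +kernel) (by decide +kernel) (.t t8 ok8)
  cl5

theorem cl7 : Clo K (Helper55.TR.GT (-1) Helper55.TR.BrU) l23 :=
  .q [n0,n0,m1,n0,n0,n0,n1,n0,n2,n0,n2,m1,m2] (e' := [n0,n0,n1,n0,n0,n0,m1,n0,m2,n0,m2,n1,n2]) (.p false [0,0,0,1] [2,0,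
  -1,-1] (⟨0,[(42,0)]⟩,⟨0,[(30,0)]⟩) .k 2 (⟨0,[(28,0),(1,0)]⟩,⟨0,[(11,0)]⟩) .k (.r (-1) ⟨9,[(0,7),
  (2,3),(13,2),(0,0),(0,11),(0,1),(3,1),(11,1)]⟩ ⟨1,[(12,0),(8,0),(1,1),(1,2),(5,0),(3,0)]⟩))
  (by decide +kernel) (by decide +kernel) (.t t14 ok14) (.h (Helper55.TR.GT.lb Helper55.CD.D1_m1_c19u_41_4.g 150096187507515677468352862137268450917089556665980562425641679770911387569788528320464050659176359093475222821545693631999767226474604987644537898672529015718397764119008950408211 (by decide +kernel)))

theorem cl8 : Clo K (Helper55.TR.GT (-1) Helper55.TR.BrU) l25 :=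
  .i [n1,n1,n0,n0,n0,n0,n0,n1,n0,m1] (e' := [n0,m1,n0,n0,n0,n0,n0,m1,n0,n1]) (by decide +kernel) (by decide +kernel)
  (.t t15 ok15) (.h (Helper55.TR.GT.lb Helper55.CD.D1_m1_c19u_41_5.g 243841233181325043430165938991069246322341944014954566075780767858884478478003505020010415398786344857008314244236415168297956819199687777100782245230487273473 (by decide +kernel)))

theorem cl9 : Clo K (Helper55.TR.GT (-1) Helper55.TR.BrU) r23 :=
  .q [n0,n0,m1,n0,n0,n0,n2,n0,m1,n0,n1,m2,n1] (e' := [n0,n0,n1,n0,n0,n0,m2,n0,n1,n0,m1,n2,m1]) (.p false [0,0,1] [1,0,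
  -1,1] (⟨0,[(40,0)]⟩,⟨0,[(28,0)]⟩) .k 2 (⟨0,[(28,0),(13,0)]⟩,⟨0,[(4,0)]⟩) .k (.r (-1) ⟨1,[(18,0),
  (5,2),(0,1),(6,0),(1,0),(1,2)]⟩ ⟨2,[(18,1),(0,2),(7,1),(3,0),(6,2)]⟩)) (by decide +kernel)
  (by decide +kernel) cl8 (.h (Helper55.TR.GT.lJ Helper55.CD.D1_m1_c19u_41_6.g 158589508138990978267801618733225789592116259059075768949527569798889067234789913901897054273926081919748553782455138598731839432692707073554717931030152687798046730903097397 (by decide +kernel)))

theorem cl10 : Clo K (Helper55.TR.GT (-1) Helper55.TR.BrU) r22 :=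
  .q [n0,m1,n0,n0,n0,n0,n1,n1,n1,n1,n2,m1,m1] (e' := [n0,n1,n0,n0,n0,n0,m1,m1,m1,m1,m2,n1,n1]) (.p false [-1,0,1,1]
  [1] (⟨0,[(10,0)]⟩,⟨0,[(27,0),(1,0)]⟩) .k 1 (⟨0,[]⟩,⟨0,[]⟩) .k (.r (-1) ⟨9,[(1,3),(0,1),(13,3),(0,
  0),(0,5),(0,0),(3,5),(7,1),(3,5)]⟩ ⟨0,[(22,0),(1,0),(5,0)]⟩)) (by decide +kernel)
  (by decide +kernel) cl7 cl9

theorem cl11 : Clo K (Helper55.TR.GT (-1) Helper55.TR.BrU) l21 :=
  .q [n0,n0,m1,n0,n0,n0,n1,n0,n1,n0,n2,m1,m1] (e' := [n0,n0,n1,n0,n0,n0,m1,n0,m1,n0,m2,n1,n1]) (.p false [-1,0,1,1] [1]
  (⟨0,[(9,0)]⟩,⟨0,[(26,0),(1,0)]⟩) .k 1 (⟨0,[]⟩,⟨0,[]⟩) .k (.r (-1) ⟨9,[(0,3),(0,1),(13,3),(0,0),(0,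
  5),(0,0),(3,5),(7,1),(3,5)]⟩ ⟨0,[(21,0),(1,0),(5,0)]⟩)) (by decide +kernel) (by decide +kernel)
  (.t t13 ok13) cl10

theorem cl12 : Clo K (Helper55.TR.GT (-1) Helper55.TR.BrU) l27 :=
  .q [n0,n0,m1,n0,n0,n0,n2,n0,m1,n0,n1,m2,n1] (e' := [n0,n0,n1,n0,n0,n0,m2,n0,n1,n0,m1,n2,m1]) (.p false [0,0,1] [1,0,
  -1,1] (⟨0,[(39,0)]⟩,⟨0,[(27,0)]⟩) .k 2 (⟨0,[(27,0),(13,0)]⟩,⟨0,[(3,0)]⟩) .k (.r (-1) ⟨1,[(0,1),
  (15,0),(0,0),(5,0),(9,0),(1,0)]⟩ ⟨2,[(17,1),(0,2),(7,1),(3,0),(6,2)]⟩)) (by decide +kernel)
  (by decide +kernel) (.t t16 ok16) (.h (Helper55.TR.GT.lJ Helper55.CD.D1_m1_c19u_41_7.g 77536210053907102154228820689286743347075861500964918919088758417207676958212397262712792864429429498503976369370154300382652480553480036281460777431722436230425610243 (by decide +kernel)))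

theorem cl13 : Clo K (Helper55.TR.GT (-1) Helper55.TR.BrU) l31 :=
  .i [n0,n0,m1,n0,n0,n1,n1,n0,n2] (e' := [n1,n0,n1,n0,n0,m1,m1,n0,m2]) (by decide +kernel) (by decide +kernel)
  (.t t18 ok18) (.h (Helper55.TR.GT.lJ Helper55.CD.D1_m1_c19u_41_8.g 320975187408258779735172088972527477796599003049900777002404216845132085679609603093459407543986411211521789664917542217648884783523335401132070237881446578235550217211469214705662457195529216 (by decide +kernel)))

theorem cl14 : Clo K (Helper55.TR.GT (-1) Helper55.TR.BrU) l30 :=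
  .i [n1,n0,n1,n1,n0,n0,n0,n1,n0,n2] (e' := [n0,n0,m1,m1,n0,n0,n0,m1,n0,m2]) (by decide +kernel)
  (by decide +kernel) cl13 (.h (Helper55.TR.GT.lb Helper55.CD.D1_m1_c19u_41_9.g 35207208310130475465623849671419627104805325540344196885571754959601002744350226913152414111085558597267253163588529628900741872620465926191837085697 (by decide +kernel)))

theorem cl15 : Clo K (Helper55.TR.GT (-1) Helper55.TR.BrU) l33 :=
  .i [n1,n0,n2,n2,m1,n0,n0,m1,n0,n2] (e' := [n0,n0,m2,m2,n1,n0,n0,n1,n0,m2]) (by decide +kernel)
  (by decide +kernel) (.t t19 ok19) (.h (Helper55.TR.GT.lJ Helper55.CD.D1_m1_c19u_41_10.g 68284590426671590345614265248372127187957027181201550797029070728399007348657880227398242928560564795436254757456211322722471340999816320886414825772377115488685916421625188811370682370 (by decide +kernel)))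

theorem cl16 : Clo K (Helper55.TR.GT (-1) Helper55.TR.BrU) l35 :=
  .i [n1,n0,n1,n1,m1,n0,n0,m2] (e' := [n0,n0,m1,m1,n1,n0,n0,n2]) (by decide +kernel) (by decide +kernel) (.t
  t20 ok20) (.h (Helper55.TR.GT.lJ Helper55.CD.D1_m1_c19u_41_11.g 270781987325186298223874604397909516354626799822424394317331472074959517650795217887621228285708318269303477289267552619973529298154920002265764466281129503099906 (by decide +kernel)))

theorem cl17 : Clo K (Helper55.TR.GT (-1) Helper55.TR.BrU) r33 :=
  .i [n1,n0,m1,m1,n1,n0,n0,n2] (e' := [n0,n0,n1,n1,m1,n0,n0,m2]) (by decide +kernel) (by decide +kernel) cl16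
  (.h (Helper55.TR.GT.lJ Helper55.CD.D1_m1_c19u_41_12.g 182831971753904477232313014784523526759270352250871216649881123005107050395287616619323820996643766817097227949681783230494921036524212952781788442052437778123676395909998304670614817847 (by decide +kernel)))

theorem cl18 : Clo K (Helper55.TR.GT (-1) Helper55.TR.BrU) r30 :=
  .i [n1,n0,m2,m2,n1,n0,n0,n1,n0,m2] (e' := [n0,n0,n2,n2,m1,n0,n0,m1,n0,n2]) (by decide +kernel)
  (by decide +kernel) cl15 cl17

theorem cl19 : Clo K (Helper55.TR.GT (-1) Helper55.TR.BrU) r29 :=
  .i [n1,n0,m1,m1,n0,n0,n0,m1,n0,m2] (e' := [n0,n0,n1,n1,n0,n0,n0,n1,n0,n2]) (by decide +kernel)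
  (by decide +kernel) cl14 cl18

theorem cl20 : Clo K (Helper55.TR.GT (-1) Helper55.TR.BrU) r27 :=
  .q [n0,n0,m1,n0,n0,n0,n1,n0,n1,n0,n2,m1,m1] (e' := [n0,n0,n1,n0,n0,n0,m1,n0,m1,n0,m2,n1,n1]) (.p false [-1,0,1,1] [1]
  (⟨0,[(10,0)]⟩,⟨0,[(27,0),(1,0)]⟩) .k 1 (⟨0,[]⟩,⟨0,[]⟩) .k (.r (-1) ⟨1,[(16,0),(0,0),(0,1),(4,0),
  (9,0),(1,0)]⟩ ⟨2,[(1,0),(18,0),(0,0),(2,1),(5,0),(3,1)]⟩)) (by decide +kernel)
  (by decide +kernel) (.t t17 ok17) cl19

theorem cl21 : Clo K (Helper55.TR.GT (-1) Helper55.TR.BrU) r21 :=
  .i [n1,n1,n0,n0,n0,n0,n0,n1,n0,m1] (e' := [n0,m1,n0,n0,n0,n0,n0,m1,n0,n1]) (by decide +kernel) (by decide +kernel)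
  cl12 cl20

theorem cl22 : Clo K (Helper55.TR.GT (-1) Helper55.TR.BrU) r20 :=
  .q [n0,m1,n0,n1,n0,n0,n1,n1,n1,n1,n2,m1,m1] (e' := [n0,n1,n0,m1,n0,n0,m1,m1,m1,m1,m2,n1,n1]) (.p false [-1,0,1,1]
  [1] (⟨0,[(8,0)]⟩,⟨0,[(25,0),(1,0)]⟩) .k 1 (⟨0,[]⟩,⟨0,[]⟩) .k (.r (-1) ⟨1,[(14,0),(0,0),(0,1),(4,
  0),(9,0),(1,0)]⟩ ⟨0,[(20,0),(1,0),(5,0)]⟩)) (by decide +kernel) (by decide +kernel) cl11 cl21

theorem cl23 : Clo K (Helper55.TR.GT (-1) Helper55.TR.BrU) l19 :=
  .q [n0,n0,n0,n0,m1,n0,n2,n0,n2,n0,n3,m2,m2] (e' := [n0,n0,n0,n0,n1,n0,m2,n0,m2,n0,m3,n2,n2]) (.p false [-1,0,1,1] [2,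
  0,-1,-1] (⟨0,[(7,0)]⟩,⟨0,[(24,0),(1,0)]⟩) .k 2 (⟨0,[(24,0),(1,0)]⟩,⟨0,[(7,0)]⟩) .k (.r (-1) ⟨0,
  [(14,0),(0,1),(14,1)]⟩ ⟨0,[(19,1),(1,1),(5,1)]⟩)) (by decide +kernel) (by decide +kernel) (.t t12
  ok12) cl22

theorem cl24 : Clo K (Helper55.TR.GT (-1) Helper55.TR.BrU) l39 :=
  .q [n0,n0,m1,n0,n0,n0,n1,n0,n2,n0,n2,m1,m2] (e' := [n0,n0,n1,n0,n0,n0,m1,n0,m2,n0,m2,n1,n2]) (.p false [0,0,0,1] [2,0,
  -1,-1] (⟨0,[(41,0)]⟩,⟨0,[(29,0)]⟩) .k 2 (⟨0,[(27,0),(1,0)]⟩,⟨0,[(10,0)]⟩) .k (.r (-1) ⟨3,[(2,1),
  (13,1),(1,3),(4,1),(1,2),(9,0),(0,0)]⟩ ⟨1,[(11,0),(8,0),(1,1),(1,2),(5,0),(3,0)]⟩))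
  (by decide +kernel) (by decide +kernel) (.t t22 ok22) (.h (Helper55.TR.GT.lb Helper55.CD.D1_m1_c19u_41_13.g 245561965835683136337973360232625815745643305943723309230513053542749738927446543500064800461929787431850383056149175120824375042646752867367959493739257397244737435521043 (by decide +kernel)))

theorem cl25 : Clo K (Helper55.TR.GT (-1) Helper55.TR.BrU) l42 :=
  .i [n0,n1,n0,n0,n0,n0,n0,n1,n0,m1] (e' := [n1,m1,n0,n0,n0,n0,n0,m1,n0,n1]) (by decide +kernel) (by decide +kernel)
  (.t t23 ok23) (.h (Helper55.TR.GT.lJ Helper55.CD.D1_m1_c19u_41_14.g 51356074624871979222998458005598716777846731339503517953440608434729405144530200462763823759107669728965409610143653246628047806724766119200238340099 (by decide +kernel)))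

theorem cl26 : Clo K (Helper55.TR.GT (-1) Helper55.TR.BrU) l41 :=
  .q [n0,n0,n1,n0,m1,n0,n2,n0,m1,n0,n0,m2,n1] (e' := [n0,n0,m1,n0,n1,n0,m2,n0,n1,n0,n0,n2,m1]) (.p false [0,0,1] [0,0,
  -1,1] (⟨0,[(40,0)]⟩,⟨0,[(28,0)]⟩) .k 2 (⟨0,[(4,0)]⟩,⟨0,[(30,0),(9,0)]⟩) .k (.r (-1) ⟨2,[(0,3),(16,
  0),(1,0),(3,0),(3,1)]⟩ ⟨2,[(18,1),(0,2),(7,1),(3,0),(6,2)]⟩)) (by decide +kernel)
  (by decide +kernel) cl25 (.h (Helper55.TR.GT.lJ Helper55.CD.D1_m1_c19u_41_15.g 166246955254918911743290822896005191449345679339377920505139010019039785918486488137553661523502828255641784650847806807170605533348913941187059592196006849834013884897296387 (by decide +kernel)))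

theorem cl27 : Clo K (Helper55.TR.GT (-1) Helper55.TR.BrU) r39 :=
  .i [n0,n0,m1,m1,n1,n0,n0,n2,n0,m1] (e' := [n1,n0,n1,n1,m1,n0,n0,m2,n0,n1]) (by decide +kernel)
  (by decide +kernel) cl26 (.h (Helper55.TR.GT.lJ Helper55.CD.D1_m1_c19u_41_16.g 55119727770824752538243003956225566306478535687562390694566677899179079542068913991228066248288717450858855102266915639428686320849591432754977820452036020227 (by decide +kernel)))

theorem cl28 : Clo K (Helper55.TR.GT (-1) Helper55.TR.BrU) r38 :=
  .q [n0,m1,n0,n0,n0,n0,n1,n1,n1,n1,n2,m1,m1] (e' := [n0,n1,n0,n0,n0,n0,m1,m1,m1,m1,m2,n1,n1]) (.p false [-1,0,1,1]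
  [1] (⟨0,[(9,0)]⟩,⟨0,[(26,0),(1,0)]⟩) .k 1 (⟨0,[]⟩,⟨0,[]⟩) .k (.r (-1) ⟨5,[(1,1),(13,2),(0,0),(0,
  1),(4,3),(1,3),(9,3)]⟩ ⟨0,[(21,0),(1,0),(5,0)]⟩)) (by decide +kernel) (by decide +kernel) cl24
  cl27

theorem cl29 : Clo K (Helper55.TR.GT (-1) Helper55.TR.BrU) l37 :=
  .q [n0,n0,m1,n0,n0,n0,n1,n0,n1,n0,n2,m1,m1] (e' := [n0,n0,n1,n0,n0,n0,m1,n0,m1,n0,m2,n1,n1]) (.p false [-1,0,1,1] [1]
  (⟨0,[(8,0)]⟩,⟨0,[(25,0),(1,0)]⟩) .k 1 (⟨0,[]⟩,⟨0,[]⟩) .k (.r (-1) ⟨5,[(0,1),(13,2),(0,0),(0,1),(4,
  3),(1,3),(9,3)]⟩ ⟨0,[(20,0),(1,0),(5,0)]⟩)) (by decide +kernel) (by decide +kernel) (.t t21 ok21)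
  cl28

theorem cl30 : Clo K (Helper55.TR.GT (-1) Helper55.TR.BrU) l45 :=
  .i [n0,n1,n0,n0,n0,n0,n0,n1,n0,m1] (e' := [n1,m1,n0,n0,n0,n0,n0,m1,n0,n1]) (by decide +kernel) (by decide +kernel)
  (.t t25 ok25) (.h (Helper55.TR.GT.lJ Helper55.CD.D1_m1_c19u_41_17.g 47969447009931997007465439254749135236046016111254896809218800515087910085892441588684923665483073021950483661087683154576251356602830343064840367991968084839751486466 (by decide +kernel)))

theorem cl31 : Clo K (Helper55.TR.GT (-1) Helper55.TR.BrU) r44 :=
  .i [n0,n0,m1,m1,n1,n0,n0,n2,n0,m1] (e' := [n1,n0,n1,n1,m1,n0,n0,m2,n0,n1]) (by decide +kernel)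
  (by decide +kernel) cl30 (.h (Helper55.TR.GT.lJ Helper55.CD.D1_m1_c19u_41_18.g 228175010533147624600902893283411992154416463759067962171564112365306103042454214709517632973135076388761829430274943448707127357340955900999668715274374146 (by decide +kernel)))

theorem cl32 : Clo K (Helper55.TR.GT (-1) Helper55.TR.BrU) r37 :=
  .q [n0,m1,n0,n0,n0,n0,n1,n1,n1,n1,n2,m1,m1] (e' := [n0,n1,n0,n0,n0,n0,m1,m1,m1,m1,m2,n1,n1]) (.p false [-1,0,1,1]
  [1] (⟨0,[(8,0)]⟩,⟨0,[(25,0),(1,0)]⟩) .k 1 (⟨0,[]⟩,⟨0,[]⟩) .k (.r (-1) ⟨1,[(14,0),(0,0),(0,1),(4,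
  0),(9,0),(1,0)]⟩ ⟨7,[(0,3),(13,0),(4,1),(8,1),(0,2),(0,1)]⟩)) (by decide +kernel)
  (by decide +kernel) (.t t24 ok24) cl31

theorem cl33 : Clo K (Helper55.TR.GT (-1) Helper55.TR.BrU) r19 :=
  .i [n1,n0,m1,m2,n1,n0,n0,n1,n0,n2] (e' := [n0,n0,n1,n2,m1,n0,n0,m1,n0,m2]) (by decide +kernel)
  (by decide +kernel) cl29 cl32

theorem cl34 : Clo K (Helper55.TR.GT (-1) Helper55.TR.BrU) r11 :=
  .q [n0,n0,n0,n0,n0,n0,n0,n0,n0,n0,n0,n1,m1] (e' := [n0,n0,n0,n0,n0,n0,n0,n0,n0,n0,n0,m1,n1]) (.ed true [1,0,-1,1] (.r 0
  ⟨1,[(13,0),(0,1),(18,0),(8,0)]⟩ ⟨1,[(12,0),(5,1),(0,1),(0,1),(6,0),(3,1)]⟩)) (by decide +kernel)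
  (by decide +kernel) cl23 cl33

theorem cl35 : Clo K (Helper55.TR.GT (-1) Helper55.TR.BrU) l10 :=
  .q [n0,n0,n0,n2,n0,n0,n0,n0,n1,n1,n1,n0,m1] (e' := [n0,n0,n0,m2,n0,n0,n0,n0,m1,m1,m1,n0,n1]) (.p false [0,0,0,1] [1]
  (⟨0,[(36,0)]⟩,⟨0,[(24,0)]⟩) .k 1 (⟨0,[]⟩,⟨0,[]⟩) .k .k) (by decide +kernel) (by decide +kernel)
  cl6 cl34

theorem cl36 : Clo K (Helper55.TR.GT (-1) Helper55.TR.BrU) l49 :=
  .i [n0,n1,n0,n1,n0,n0,n0,n1,n0,m1] (e' := [n1,m1,n0,m1,n0,n0,n0,m1,n0,n1]) (by decide +kernel)
  (by decide +kernel) (.t t27 ok27) (.h (Helper55.TR.GT.lJ Helper55.CD.D1_m1_c19u_41_19.g 143871794137491059212486888546101761370767691021521899788197021871450261412056569178822314767090119383871898978293573151423805862310586608629325079527487337825275218946 (by decide +kernel)))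

theorem cl37 : Clo K (Helper55.TR.GT (-1) Helper55.TR.BrU) l48 :=
  .i [n0,n0,n1,n1,n0,n0,n0,n2,n0,m1] (e' := [n1,n0,m1,m1,n0,n0,n0,m2,n0,n1]) (by decide +kernel)
  (by decide +kernel) cl36 (.h (Helper55.TR.GT.lJ Helper55.CD.D1_m1_c19u_41_20.g 247203322921700214470324155683008988150899017648208775952063225422669308152453275365660687137589051759865183345293515506214723381198928358813174226403918351362 (by decide +kernel)))

theorem cl38 : Clo K (Helper55.TR.GT (-1) Helper55.TR.BrU) r47 :=
  .q [n0,n0,n0,n0,n0,n0,n0,n0,n0,n0,n0,n1,m1] (e' := [n0,n0,n0,n0,n0,n0,n0,n0,n0,n0,n0,m1,n1]) (.ed true [1,0,-1,1] (.r 0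
  ⟨1,[(13,0),(0,1),(18,0),(8,0)]⟩ ⟨7,[(1,1),(10,2),(0,0),(1,0),(3,9),(0,5),(3,1),(2,2),(3,9)]⟩))
  (by decide +kernel) (by decide +kernel) cl37 (.h (Helper55.TR.GT.lJ Helper55.CD.D1_m1_c19u_41_21.g 132912426074871550372344827184094552856796955087350353841452380424068608968526548587132869639755749575884766872774049113628757520587457835462262306581180373833639529474 (by decide +kernel)))

theorem cl39 : Clo K (Helper55.TR.GT (-1) Helper55.TR.BrU) r10 :=
  .q [n0,n0,m1,n0,n0,n0,n1,n0,n1,n0,n2,m1,m1] (e' := [n0,n0,n1,n0,n0,n0,m1,n0,m1,n0,m2,n1,n1]) (.p false [-1,0,1,1] [1]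
  (⟨0,[(5,0)]⟩,⟨0,[(22,0),(1,0)]⟩) .k 1 (⟨0,[]⟩,⟨0,[]⟩) .k (.r (-1) ⟨1,[(11,0),(0,0),(0,1),(4,0),(9,
  0),(1,0)]⟩ ⟨2,[(0,0),(5,0),(12,1),(5,0),(1,0)]⟩)) (by decide +kernel) (by decide +kernel) (.t t26
  ok26) cl38

theorem cl40 : Clo K (Helper55.TR.GT (-1) Helper55.TR.BrU) r9 :=
  .q [n0,m1,n1,m1,n0,n0,n0,n1,m1,n0,m1,n0,n1] (e' := [n0,n1,m1,n1,n0,n0,n0,m1,n1,n0,n1,n0,m1]) (.p true [0,0,0,1] [1]
  (⟨0,[(35,0)]⟩,⟨0,[(23,0)]⟩) .k 1 (⟨0,[]⟩,⟨0,[]⟩) .k .k) (by decide +kernel) (by decide +kernel)
  cl35 cl39

theorem cl41 : Clo K (Helper55.TR.GT (-1) Helper55.TR.BrU) l8 :=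
  .q [n0,n0,m2,n0,n1,n0,n0,n0,m1,n0,n0,n0,n1] (e' := [n0,n0,n2,n0,m1,n0,n0,n0,n1,n0,n0,n0,m1]) (.p true [0,0,0,1] [] (⟨0,
  [(34,0)]⟩,⟨0,[(22,0)]⟩) .k 0 (⟨0,[]⟩,⟨0,[]⟩) .k .k) (by decide +kernel) (by decide +kernel) (.t
  t7 ok7) cl40

theorem cl42 : Clo K (Helper55.TR.GT (-1) Helper55.TR.BrU) r53 :=
  .q [n0,m1,n0,n2,n0,n0,n0,n0,m1,m1,n0,n0,n1] (e' := [n0,n1,n0,m2,n0,n0,n0,n0,n1,n1,n0,n0,m1]) (.p true [0,0,0,1] [] (⟨0,
  [(37,0)]⟩,⟨0,[(25,0)]⟩) .k 0 (⟨0,[]⟩,⟨0,[]⟩) .k .k) (by decide +kernel) (by decide +kernel) (.t
  t30 ok30) (.h (Helper55.TR.GT.lb Helper55.CD.D1_m1_c19u_41_22.g 194030971876334920359712451181408367041709187689183287570677946019412797835597899741218917993774212367289389441251383412286294013895515529024232705305728295429751728886297665584 (by decide +kernel)))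

theorem cl43 : Clo K (Helper55.TR.GT (-1) Helper55.TR.BrU) r52 :=
  .q [n0,m1,n0,n1,n0,n0,n0,n0,m1,m1,n0,n0,n1] (e' := [n0,n1,n0,m1,n0,n0,n0,n0,n1,n1,n0,n0,m1]) (.p true [0,0,0,1] [] (⟨0,
  [(36,0)]⟩,⟨0,[(24,0)]⟩) .k 0 (⟨0,[]⟩,⟨0,[]⟩) .k .k) (by decide +kernel) (by decide +kernel) (.t
  t29 ok29) cl42

theorem cl44 : Clo K (Helper55.TR.GT (-1) Helper55.TR.BrU) l51 :=
  .q [n0,n0,n0,n1,n0,n0,m1,m1,m1,m1,m1,n1,n1] (e' := [n0,n0,n0,m1,n0,n0,n1,n1,n1,n1,n1,m1,m1]) (.p true [-1,0,1,1] []
  (⟨0,[(4,0)]⟩,⟨0,[(21,0),(1,0)]⟩) .k 0 (⟨0,[]⟩,⟨0,[]⟩) .k (.r (-1) ⟨1,[(10,0),(0,0),(0,1),(4,0),(9,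
  0),(1,0)]⟩ ⟨3,[(0,1),(4,0),(5,1),(2,0),(3,0),(5,2),(3,0)]⟩)) (by decide +kernel)
  (by decide +kernel) (.t t28 ok28) cl43

theorem cl45 : Clo K (Helper55.TR.GT (-1) Helper55.TR.BrU) l56 :=
  .q [n0,n0,m1,n0,n0,n0,n1,n0,n1,n0,n2,m1,m1] (e' := [n0,n0,n1,n0,n0,n0,m1,n0,m1,n0,m2,n1,n1]) (.p false [-1,0,1,1] [1]
  (⟨0,[(6,0)]⟩,⟨0,[(23,0),(1,0)]⟩) .k 1 (⟨0,[]⟩,⟨0,[]⟩) .k (.r (-1) ⟨1,[(12,0),(0,0),(0,1),(4,0),(9,
  0),(1,0)]⟩ ⟨7,[(0,3),(11,0),(2,0),(1,1),(4,1),(7,1)]⟩)) (by decide +kernel) (by decide +kernel)
  (.t t32 ok32) (.h (Helper55.TR.GT.lJ Helper55.CD.D1_m1_c19u_41_23.g 129684873333107509550966320653889804481948482162439457545469818472127595137338039535641590616425955240243967261540951441249641036812338800083971071388430556427454467 (by decide +kernel)))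

theorem cl46 : Clo K (Helper55.TR.GT (-1) Helper55.TR.BrU) l58 :=
  .q [n0,n0,n0,n1,n0,n0,m1,m1,m1,m1,m1,n1,n1] (e' := [n0,n0,n0,m1,n0,n0,n1,n1,n1,n1,n1,m1,m1]) (.p true [-1,0,1,1] []
  (⟨0,[(7,0)]⟩,⟨0,[(24,0),(1,0)]⟩) .k 0 (⟨0,[]⟩,⟨0,[]⟩) .k (.r (-1) ⟨3,[(1,1),(11,1),(0,0),(4,1),(0,
  1),(7,0),(3,1)]⟩ ⟨0,[(19,0),(1,0),(5,0)]⟩)) (by decide +kernel) (by decide +kernel) (.t t33 ok33)
  (.h (Helper55.TR.GT.lb Helper55.CD.D1_m1_c19u_41_24.g 320180168653026105773041166534655089941214037805302913357054609603114563795408338597040300693489973724282448982206867861827286123287749942411838692917426052627413723014578504211458 (by decide +kernel)))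

theorem cl47 : Clo K (Helper55.TR.GT (-1) Helper55.TR.BrU) r56 :=
  .q [n0,n0,n1,n0,n0,n0,m1,n0,m1,n0,m2,n1,n1] (e' := [n0,n0,m1,n0,n0,n0,n1,n0,n1,n0,n2,m1,m1]) (.p true [-1,0,1,1] [1]
  (⟨0,[(6,0)]⟩,⟨0,[(23,0),(1,0)]⟩) .k 1 (⟨0,[]⟩,⟨0,[]⟩) .k (.r (-1) ⟨3,[(0,1),(11,1),(0,0),(4,1),(0,
  1),(7,0),(3,1)]⟩ ⟨0,[(18,0),(1,0),(5,0)]⟩)) (by decide +kernel) (by decide +kernel) cl46 (.t t34
  ok34)

theorem cl48 : Clo K (Helper55.TR.GT (-1) Helper55.TR.BrU) r55 :=
  .i [n1,n0,m1,m1,n0,n0,n0,m1,n0,m2] (e' := [n0,n0,n1,n1,n0,n0,n0,n1,n0,n2]) (by decide +kernel)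
  (by decide +kernel) cl45 cl47

theorem cl49 : Clo K (Helper55.TR.GT (-1) Helper55.TR.BrU) r51 :=
  .i [n1,n0,n2,n2,m1,n0,n0,n0,n0,m1] (e' := [n0,n0,m2,m2,n1,n0,n0,n0,n0,n1]) (by decide +kernel)
  (by decide +kernel) (.t t31 ok31) cl48

theorem cl50 : Clo K (Helper55.TR.GT (-1) Helper55.TR.BrU) r8 :=
  .i [n0,n0,n2,n2,m1,n0,n0,n0,n0,m1] (e' := [n1,n0,m2,m2,n1,n0,n0,n0,n0,n1]) (by decide +kernel)
  (by decide +kernel) cl44 cl49

theorem cl51 : Clo K (Helper55.TR.GT (-1) Helper55.TR.BrU) r7 :=
  .q [n0,n0,n2,n0,m1,n0,n0,n0,n1,n0,n1,n0,m1] (e' := [n0,n0,m2,n0,n1,n0,n0,n0,m1,n0,m1,n0,n1]) (.p false [0,0,0,1] [1]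
  (⟨0,[(33,0)]⟩,⟨0,[(21,0)]⟩) .k 1 (⟨0,[]⟩,⟨0,[]⟩) .k .k) (by decide +kernel) (by decide +kernel)
  cl41 cl50

theorem cl52 : Clo K (Helper55.TR.GT (-1) Helper55.TR.BrU) r6 :=
  .q [n0,n1,m1,n0,n0,n0,n0,m1,n1,n0,n1,n0,m1] (e' := [n0,m1,n1,n0,n0,n0,n0,n1,m1,n0,m1,n0,n1]) (.p false [0,0,0,1] [1]
  (⟨0,[(32,0)]⟩,⟨0,[(20,0)]⟩) .k 1 (⟨0,[]⟩,⟨0,[]⟩) .k .k) (by decide +kernel) (by decide +kernel)
  (.t t6 ok6) cl51

theorem cl53 : Clo K (Helper55.TR.GT (-1) Helper55.TR.BrU) l5 :=
  .q [n0,n0,n0,n0,n0,n1,n0,n0,n0,n0,n1,m1,m1] (e' := [n0,n0,n0,n0,n0,m1,n0,n0,n0,n0,m1,n1,n1]) (.p false [-1,0,1,1] []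
  (⟨0,[(0,0)]⟩,⟨0,[(17,0),(1,0)]⟩) .k 0 (⟨0,[]⟩,⟨0,[]⟩) .k (.r (-1) ⟨1,[(6,0),(0,0),(0,1),(4,0),(9,
  0),(1,0)]⟩ ⟨0,[(12,0),(1,0),(5,0)]⟩)) (by decide +kernel) (by decide +kernel) (.t t5 ok5) cl52

theorem cl54 : Clo K (Helper55.TR.GT (-1) Helper55.TR.BrU) r64 :=
  .q [n0,n0,n0,n0,n0,n2,n0,n0,n0,n0,n0,n0,m1] (e' := [n0,n0,n0,n0,n0,m2,n0,n0,n0,n0,n0,n0,n1]) (.p false [0,0,0,1] [] (⟨0,
  [(36,0)]⟩,⟨0,[(24,0)]⟩) .k 0 (⟨0,[]⟩,⟨0,[]⟩) .k .k) (by decide +kernel) (by decide +kernel) (.t
  t39 ok39) (.h (Helper55.TR.GT.lJ Helper55.CD.D1_m1_c19u_41_25.g 102950428424984776434363015838697216946268375843639520142854469972625421370818517994176020420084395034 (by decide +kernel)))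

theorem cl55 : Clo K (Helper55.TR.GT (-1) Helper55.TR.BrU) r63 :=
  .i [n1,n0,n2,n2,m1,n0,n0,n0,n0,m1] (e' := [n0,n0,m2,m2,n1,n0,n0,n0,n0,n1]) (by decide +kernel)
  (by decide +kernel) (.t t38 ok38) cl54

theorem cl56 : Clo K (Helper55.TR.GT (-1) Helper55.TR.BrU) l62 :=
  .i [n0,n0,n2,n2,m1,n0,n0,n0,n0,m1] (e' := [n1,n0,m2,m2,n1,n0,n0,n0,n0,n1]) (by decide +kernel)
  (by decide +kernel) (.t t37 ok37) cl55

theorem cl57 : Clo K (Helper55.TR.GT (-1) Helper55.TR.BrU) l67 :=
  .q [n0,n0,n2,n0,m1,n0,n0,n0,n1,n0,n1,n0,m1] (e' := [n0,n0,m2,n0,n1,n0,n0,n0,m1,n0,m1,n0,n1]) (.p false [0,0,0,1] [1]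
  (⟨0,[(36,0)]⟩,⟨0,[(24,0)]⟩) .k 1 (⟨0,[]⟩,⟨0,[]⟩) .k .k) (by decide +kernel) (by decide +kernel)
  (.t t40 ok40) (.h (Helper55.TR.GT.lJ Helper55.CD.D1_m1_c19u_41_26.g 72318576878890118327016650563642564462250187156040575651582830848637048971210058849823713213106325475145644141317650542654946523121333555680750405185720814594 (by decide +kernel)))

theorem cl58 : Clo K (Helper55.TR.GT (-1) Helper55.TR.BrU) l66 :=
  .q [n0,n0,m2,n0,n1,n0,n0,n0,m1,n0,n0,n0,n1] (e' := [n0,n0,n2,n0,m1,n0,n0,n0,n1,n0,n0,n0,m1]) (.p true [0,0,0,1] [] (⟨0,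
  [(35,0)]⟩,⟨0,[(23,0)]⟩) .k 0 (⟨0,[]⟩,⟨0,[]⟩) .k .k) (by decide +kernel) (by decide +kernel) cl57
  (.h (Helper55.TR.GT.lb Helper55.CD.D1_m1_c19u_41_27.g 273794107194422716000346549975492061636342350774105783214202963067659165396208136709878619880350282036909808193830270159581454810896659312285195929760440850743035916 (by decide +kernel)))

theorem cl59 : Clo K (Helper55.TR.GT (-1) Helper55.TR.BrU) l70 :=
  .q [n0,n0,m1,n0,n0,n0,n2,n0,m1,n0,n1,m2,n1] (e' := [n0,n0,n1,n0,n0,n0,m2,n0,n1,n0,m1,n2,m1]) (.p false [0,0,1] [1,0,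
  -1,1] (⟨0,[(35,0)]⟩,⟨0,[(23,0)]⟩) .k 2 (⟨0,[(23,0),(13,0)]⟩,⟨0,[(2,0)]⟩) .k (.r (-1) ⟨3,[(0,5),
  (11,2),(0,0),(0,1),(14,1)]⟩ ⟨2,[(13,1),(0,2),(7,1),(3,0),(6,2)]⟩)) (by decide +kernel)
  (by decide +kernel) (.t t42 ok42) (.h (Helper55.TR.GT.l1 Helper55.CD.D1_m1_c19u_41_28.g 301558733088512034334905237670421177300836669135908526209652329724300119832957407056790174581752126895857056198633216278127333335743967243498981866422160018887574339020932099 (by decide +kernel)))

theorem cl60 : Clo K (Helper55.TR.GT (-1) Helper55.TR.BrU) r69 :=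
  .i [n1,n1,n0,n0,n0,n0,n0,n1,n0,m1] (e' := [n0,m1,n0,n0,n0,n0,n0,m1,n0,n1]) (by decide +kernel) (by decide +kernel)
  cl59 (.h (Helper55.TR.GT.lJ Helper55.CD.D1_m1_c19u_41_29.g 177160234517560435910733378048478224499015286273069357369246345393547868148078627087822914885992924774823048773385901529746012527029188439706347025003112489003138434051 (by decide +kernel)))

theorem cl61 : Clo K (Helper55.TR.GT (-1) Helper55.TR.BrU) r66 :=
  .q [n0,n0,n0,n0,n0,n2,n0,n0,n0,n0,n0,n0,m1] (e' := [n0,n0,n0,n0,n0,m2,n0,n0,n0,n0,n0,n0,n1]) (.p false [0,0,0,1] [] (⟨0,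
  [(35,0)]⟩,⟨0,[(23,0)]⟩) .k 0 (⟨0,[]⟩,⟨0,[]⟩) .k .k) (by decide +kernel) (by decide +kernel) (.t
  t41 ok41) cl60

theorem cl62 : Clo K (Helper55.TR.GT (-1) Helper55.TR.BrU) r62 :=
  .q [n0,n0,n0,n0,n0,n0,n0,n0,n0,n0,n0,m1,n1] (e' := [n0,n0,n0,n0,n0,n0,n0,n0,n0,n0,n0,n1,m1]) (.ed false [1,0,-1,1] (.r 0
  ⟨1,[(10,0),(0,1),(18,0),(8,0)]⟩ ⟨1,[(9,0),(5,1),(0,1),(0,1),(6,0),(3,1)]⟩)) (by decide +kernel)
  (by decide +kernel) cl58 cl61

theorem cl63 : Clo K (Helper55.TR.GT (-1) Helper55.TR.BrU) r61 :=
  .q [n0,m1,n0,n2,n0,n0,n0,n0,m1,m1,n0,n0,n1] (e' := [n0,n1,n0,m2,n0,n0,n0,n0,n1,n1,n0,n0,m1]) (.p true [0,0,0,1] [] (⟨0,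
  [(33,0)]⟩,⟨0,[(21,0)]⟩) .k 0 (⟨0,[]⟩,⟨0,[]⟩) .k .k) (by decide +kernel) (by decide +kernel) cl56
  cl62

theorem cl64 : Clo K (Helper55.TR.GT (-1) Helper55.TR.BrU) r60 :=
  .q [n0,n0,n0,n0,n0,n1,n0,n0,n0,n0,m1,n1,n1] (e' := [n0,n0,n0,n0,n0,m1,n0,n0,n0,n0,n1,m1,m1]) (.p true [0,0,1,1] [1] (⟨0,
  [(30,0),(1,0)]⟩,⟨0,[(1,0)]⟩) .k 1 (⟨0,[]⟩,⟨0,[]⟩) .k (.r (-1) ⟨1,[(7,0),(0,0),(0,1),(4,0),(9,0),
  (1,0)]⟩ ⟨0,[(13,0),(1,0),(5,0)]⟩)) (by decide +kernel) (by decide +kernel) (.t t36 ok36) cl63

theorem cl65 : Clo K (Helper55.TR.GT (-1) Helper55.TR.BrU) r5 :=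
  .q [n0,m1,n0,n1,n0,n0,n0,n0,m1,m1,n0,n0,n1] (e' := [n0,n1,n0,m1,n0,n0,n0,n0,n1,n1,n0,n0,m1]) (.p true [0,0,0,1] [] (⟨0,
  [(31,0)]⟩,⟨0,[(19,0)]⟩) .k 0 (⟨0,[]⟩,⟨0,[]⟩) .k .k) (by decide +kernel) (by decide +kernel) (.t
  t35 ok35) cl64

theorem cl66 : Clo K (Helper55.TR.GT (-1) Helper55.TR.BrU) r4 :=
  .q [n0,n0,n0,n0,n0,n0,n0,n0,n0,n0,m1,n1,n1] (e' := [n0,n0,n0,n0,n0,n0,n0,n0,n0,n0,n1,m1,m1]) (.ed false [0,0,1,1] (.r
  (-1) ⟨1,[(5,0),(0,0),(0,1),(4,0),(9,0),(1,0)]⟩ ⟨0,[(11,0),(1,0),(5,0)]⟩)) (by decide +kernel)
  (by decide +kernel) cl53 cl65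

theorem cl67 : Clo K (Helper55.TR.GT (-1) Helper55.TR.BrU) r3 :=
  .q [n0,m1,n0,n2,n0,n0,n1,n1,n1,n1,n1,m1,m1] (e' := [n0,n1,n0,m2,n0,n0,m1,m1,m1,m1,m1,n1,n1]) (.p false [0,0,1] [1,
  0,0,-1] (⟨0,[(27,0)]⟩,⟨0,[(15,0)]⟩) .k 2 (⟨0,[(17,0)]⟩,⟨0,[(29,0)]⟩) .k (.r (-1) ⟨1,[(4,0),(0,0),
  (0,1),(4,0),(9,0),(1,0)]⟩ ⟨0,[(10,0),(1,0),(5,0)]⟩)) (by decide +kernel) (by decide +kernel) (.t
  t4 ok4) cl66

theorem cl68 : Clo K (Helper55.TR.GT (-1) Helper55.TR.BrU) r2 :=
  .q [n0,n0,n0,n0,n0,n2,n0,n0,n0,n0,m1,n0,n1] (e' := [n0,n0,n0,n0,n0,m2,n0,n0,n0,n0,n1,n0,m1]) (.p true [0,0,0,1] [1] (⟨0,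
  [(28,0)]⟩,⟨0,[(16,0)]⟩) .k 1 (⟨0,[]⟩,⟨0,[]⟩) .k .k) (by decide +kernel) (by decide +kernel) (.t
  t3 ok3) cl67

theorem cl69 : Clo K (Helper55.TR.GT (-1) Helper55.TR.BrU) r1 :=
  .q [n0,n0,n0,n0,n0,n1,n0,n0,n0,n0,n0,n0,m1] (e' := [n0,n0,n0,n0,n0,m1,n0,n0,n0,n0,n0,n0,n1]) (.ed true [1,-1,0,1] .k)
  (by decide +kernel) (by decide +kernel) (.t t2 ok2) cl68

theorem cl70 : Clo K (Helper55.TR.GT (-1) Helper55.TR.BrU) r0 :=
  .q [n0,n0,m1,n0,n0,n0,n1,n0,n1,n0,n1,m1,m1] (e' := [n0,n0,n1,n0,n0,n0,m1,n0,m1,n0,m1,n1,n1]) (.p false [0,0,1] [1,0,0,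
  -1] (⟨0,[(24,0)]⟩,⟨0,[(12,0)]⟩) .k 2 (⟨0,[(14,0)]⟩,⟨0,[(26,0)]⟩) .k (.r (-1) ⟨1,[(1,0),(0,0),(0,
  1),(4,0),(9,0),(1,0)]⟩ ⟨0,[(7,0),(1,0),(5,0)]⟩)) (by decide +kernel) (by decide +kernel) (.t t1
  ok1) cl69

theorem cl71 : Clo K (Helper55.TR.GT (-1) Helper55.TR.BrU) base :=
  .q [n0,n0,n0,n1,n0,n0,n0,n0,n1,n1,n1,n0,m1] (e' := [n0,n0,n0,m1,n0,n0,n0,n0,m1,m1,m1,n0,n1]) (.p false [0,0,0,1] [1]
  (⟨0,[(25,0)]⟩,⟨0,[(13,0)]⟩) .k 1 (⟨0,[]⟩,⟨0,[]⟩) .k .k) (by decide +kernel) (by decide +kernel)
  (.t t0 ok0) cl70

theorem g : Helper55.TR.GT (-1) Helper55.TR.BrU base :=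
  Helper55.TR.GT.of cl71

end Helper55.CD.D1_m1_c19u_41
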