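import Pool.Agent.Helper55.CE.H_m1_1_c0u_100_b0
import Pool.Agent.Helper55.CE.H_m1_1_c0u_100_b1
import Pool.Agent.Helper55.TR.Num
import Pool.Agent.Helper81.PC.Sound
import Pool.Agent.Helper55.TR.Enc2

set_option autoImplicit false
set_option linter.all false

namespace Helper55.CD.Dm1_1_c0u_100

open Helper25.KG Helper25.KW Helper55.KE Helper11.CT Helper55.TR.Nm

noncomputable def K : Cls :=
  Helper55.TR.KT 1

noncomputable def base : List Con :=
  [(false,[n0,m1,n0,n0,n0,n0,m1,m1,n0,n0,n1,m1]),
  (false,[n0,n0,n0,n0,n0,n0,n0,n0,n0,n0,n1,m1]),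
  (true,[n0,m2,n0,n0,n1]),
  (true,[m1,n1]),
  (false,[n0,n0,n0,n0,n0,n0,n0,n0,n0,n0,n0,n1]),
  (false,[n0,n0,n1,n0,n0,n0,n1,n0,n0,n0,n0,n1]),
  (false,[n0,n0,n0,n0,n0,n0,n1,n0,n0,n0,m1,n1]),
  (false,[n0,n0,n0,n0,n0,n0,n0,n0,n0,n0,n1,n0,m1]),
  (true,[n0,n0,n0,m1]),
  (false,[n0,n1,n0,n0,n0,n0,n1,n1,n0,n0,n0,n1]),
  (false,[n0,n0,n0,n0,n0,n0,m1,m1,n0,n0,n0,m1]),
  (true,[n1,n1,n0,n0,n0,n0,n0,n0,n0,n1]),
  (true,[n0,n0,m1,m2,n1,n0,n0,n2]),
  (false,[n0,n0,n0,n0,n0,n0,n0,n0,n1,n0,n0,n0,n1]),
  (false,[n0,n0,n2,n0,m1,n0,n2,n0,n0,n0,m1,n2]),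
  (false,[n0,m1,n0,n2,n0,n0,m1,m1,n0,n0,n1,m1]),
  (false,[n0,n0,n0,n0,n1,n0,n0,n0,n0,n0,m2]),
  (false,[n0,n0,n0,n1,n0,n0,n0,n0,m1,m1,n0,n0,m1]),
  (false,[n0,n1,n0,n0,n0,n0,m1,m1,n0,n0,n0,m1]),
  (false,[n0,n0,n1,n0,n0,n0,m1,n0,n0,n0,n0,m1]),
  (true,[n0,m1,m2,m2,n1]),
  (false,[n0,m1,n0,m1,n0,n0,m1,m1,n0,n0,n0,m1]),
  (true,[n0,n0,m2,n0,n1]),
  (true,[n0,n1,n0,n1]),
  (true,[n0,m1,n0,m1,n0,n0,n0,n0,n0,m1]),
  (true,[n0,m1,n1,n0,n0,n0,n0,m1]),
  (true,[n1,n0,m2,m1,n1,n0,n0,n1]),
  (true,[n0,n0,n0,n0,n0,n0,n0,m1]),
  (true,[n0,n0,n0,m1,n0,n0,n0,m1]),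
  (false,[n0,n0,n0,n0,n0,n0,n1,n0,n0,n0,n0,n1]),
  (false,[n0,n0,n0,n0,n0,n0,n0,n0,n0,n0,n0,n0,n1]),
  (true,[n0,n0,n1,n1,n0,n0,n0,n1]),
  (false,[n0,n0,m2,n0,n1,n0,n0,n0,n0,n0,m1]),
  (false,[n0,n0,n0,n2,n0,n0,m1,m1,n0,n0,n0,m1]),
  (false,[n0,n0,m2,n0,n1,n0,m1,n0,n0,n0,n0,m1]),
  (true,[n1,m2,n1]),
  (false,[n0,m1,m1,n1,n1,n0,m1,n0,n0,n0,n0,m1]),
  (true,[n0,n0,n0,n0,n0,n1]),
  (false,[n0,n0,n0,n0,n0,m1,n0,n0,n0,n0,n1,m1]),
  (true,[n1,m1,n1,n1,n0,n0,n0,n1]),
  (true,[n0,n0,n1,n0,n0,n0,n0,n1]),
  (false,[n0,n0,n0,n0,n0,m1,n0,n0,n0,n0,n1]),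
  (false,[n0,n0,n0,n0,n0,m2,n0,n0,n0,n0,n0,n1]),
  (false,[n0,n0,n0,n0,n0,m1,n0,n0,n0,n0,n0,n1]),
  (false,[n0,n0,n0,n0,n0,m1,n0,n0,n0,n0,n1,n0,m1]),
  (false,[n0,n0,n0,n0,n0,m2,n0,n0,n0,n0,n1]),
  (false,[n0,n0,n0,n1,n0,n0,m1,m1,n0,n0,n0,m1])]

noncomputable def l0 : List Con := (false, [n0,m1,n0,n0,n0,n0,n0,n0,m1,m1,n1,n0,m1]) :: base

noncomputable def r0 : List Con := (false, [n0,n1,n0,n0,n0,n0,n0,n0,n1,n1,m1,n0,n1]) :: base

noncomputable def l1 : List Con := (false, [n0,n0,n0,n0,n0,n2,n0,n0,n0,n0,m1,n0,n1]) :: r0

noncomputable def r1 : List Con := (false, [n0,n0,n0,n0,n0,m2,n0,n0,n0,n0,n1,n0,m1]) :: r0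

noncomputable def l2 : List Con := (true, [n1,n0,m1,m1,n0,n0,n0,m1,n0,m1]) :: r1

noncomputable def r2 : List Con := (true, [n0,n0,n1,n1,n0,n0,n0,n1,n0,n1]) :: r1

noncomputable def l3 : List Con := (false, [n0,n0,n0,n0,n0,n0,n0,n0,m1,n0,n1,n0,m1]) :: r2

noncomputable def r3 : List Con := (false, [n0,n0,n0,n0,n0,n0,n0,n0,n1,n0,m1,n0,n1]) :: r2

noncomputable def l4 : List Con := (false, [n0,n0,n0,n0,n0,n1,n0,n0,n0,n0,n0,n0,m1]) :: r3

noncomputable def r4 : List Con := (false, [n0,n0,n0,n0,n0,m1,n0,n0,n0,n0,n0,n0,n1]) :: r3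

noncomputable def l5 : List Con := (false, [n0,n0,n0,n0,n0,n2,n0,n0,n0,n0,n0,n0,m1]) :: r4

noncomputable def r5 : List Con := (false, [n0,n0,n0,n0,n0,m2,n0,n0,n0,n0,n0,n0,n1]) :: r4

noncomputable def l6 : List Con := (false, [n0,m1,n0,m2,n0,n0,m1,m1,n1,n1,n0,m1,n1]) :: r5

noncomputable def r6 : List Con := (false, [n0,n1,n0,n2,n0,n0,n1,n1,m1,m1,n0,n1,m1]) :: r5

noncomputable def l7 : List Con := (false, [n0,n0,n0,n0,n0,n0,n0,n0,n0,n0,m1,n1,n1]) :: r6

noncomputable def r7 : List Con := (false, [n0,n0,n0,n0,n0,n0,n0,n0,n0,n0,n1,m1,m1]) :: r6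

noncomputable def l8 : List Con := (true, [n0,n1,m1,m2,n0,n0,n0,m1]) :: l7

noncomputable def r8 : List Con := (true, [n1,m1,n1,n2,n0,n0,n0,n1]) :: l7

noncomputable def l9 : List Con := (false, [n0,n0,n1,n0,n0,n0,m2,n0,m1,n0,n2,m2,m1]) :: l8

noncomputable def r9 : List Con := (false, [n0,n0,m1,n0,n0,n0,n2,n0,n1,n0,m2,n2,n1]) :: l8

noncomputable def l10 : List Con := (false, [n0,m1,n0,m1,n0,n0,n0,n0,m1,m1,n1,n0,m1]) :: r9

noncomputable def r10 : List Con := (false, [n0,n1,n0,n1,n0,n0,n0,n0,n1,n1,m1,n0,n1]) :: r9

noncomputable def l11 : List Con := (false, [n0,n0,n0,m2,n0,n0,n0,n0,n1,n1,n0,n0,n1]) :: r8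

noncomputable def r11 : List Con := (false, [n0,n0,n0,n2,n0,n0,n0,n0,m1,m1,n0,n0,m1]) :: r8

noncomputable def l12 : List Con := (false, [n0,n0,n0,n0,n0,n0,n0,n0,n0,n0,n0,n1,m1]) :: l11

noncomputable def r12 : List Con := (false, [n0,n0,n0,n0,n0,n0,n0,n0,n0,n0,n0,m1,n1]) :: l11

noncomputable def l13 : List Con := (false, [n0,m1,n0,m1,n0,n0,n0,n0,m1,m1,n1,n0,m1]) :: r12

noncomputable def r13 : List Con := (false, [n0,n1,n0,n1,n0,n0,n0,n0,n1,n1,m1,n0,n1]) :: r12

noncomputable def l14 : List Con := (true, [n1,n0,m3,m3,n1,n0,n0,m1,n0,n1]) :: r13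

noncomputable def r14 : List Con := (true, [n0,n0,n3,n3,m1,n0,n0,n1,n0,m1]) :: r13

noncomputable def l15 : List Con := (false, [n0,n0,n0,n0,n0,n1,n0,n0,n0,n0,n0,n1,m1]) :: l14

noncomputable def r15 : List Con := (false, [n0,n0,n0,n0,n0,m1,n0,n0,n0,n0,n0,m1,n1]) :: l14

noncomputable def l16 : List Con := (true, [n0,n0,m1,m1,n0,n0,n0,m2,n0,m1]) :: r15

noncomputable def r16 : List Con := (true, [n1,n0,n1,n1,n0,n0,n0,n2,n0,n1]) :: r15

noncomputable def l17 : List Con := (false, [n0,n0,n1,n0,n0,n0,m2,n0,m1,n0,n2,m2,m1]) :: l16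

noncomputable def r17 : List Con := (false, [n0,n0,m1,n0,n0,n0,n2,n0,n1,n0,m2,n2,n1]) :: l16

noncomputable def l18 : List Con := (true, [n0,n1,m1,m1,n0,n0,n0,m1,n0,m1]) :: l17

noncomputable def r18 : List Con := (true, [n1,m1,n1,n1,n0,n0,n0,n1,n0,n1]) :: l17

noncomputable def l19 : List Con := (false, [n0,n0,n0,m1,n0,n0,m1,m1,n2,n2,m1,m1,n2]) :: r14

noncomputable def r19 : List Con := (false, [n0,n0,n0,n1,n0,n0,n1,n1,m2,m2,n1,n1,m2]) :: r14

noncomputable def l20 : List Con := (false, [n0,n0,n0,n0,n0,n0,n1,n1,m2,m2,n1,n1,m2]) :: l19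

noncomputable def r20 : List Con := (false, [n0,n0,n0,n0,n0,n0,m1,m1,n2,n2,m1,m1,n2]) :: l19

noncomputable def l21 : List Con := (true, [n0,n1,n0,n0,n0,n0,n0,n1,n0,m2]) :: l20

noncomputable def r21 : List Con := (true, [n1,m1,n0,n0,n0,n0,n0,m1,n0,n2]) :: l20

noncomputable def l22 : List Con := (false, [n0,n0,n0,n0,n0,n1,n0,n0,n0,n0,n0,n1,m1]) :: r20

noncomputable def r22 : List Con := (false, [n0,n0,n0,n0,n0,m1,n0,n0,n0,n0,n0,m1,n1]) :: r20

noncomputable def l23 : List Con := (true, [n0,n0,m1,m1,n0,n0,n0,m2,n0,m1]) :: r22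

noncomputable def r23 : List Con := (true, [n1,n0,n1,n1,n0,n0,n0,n2,n0,n1]) :: r22

noncomputable def l24 : List Con := (true, [n0,n1,m1,m1,n0,n0,n0,m1,n0,m1]) :: l23

noncomputable def r24 : List Con := (true, [n1,m1,n1,n1,n0,n0,n0,n1,n0,n1]) :: l23

noncomputable def l25 : List Con := (false, [n0,n0,n0,n0,n0,m1,n0,n0,n0,n0,n0,m1,n1]) :: r19

noncomputable def r25 : List Con := (false, [n0,n0,n0,n0,n0,n1,n0,n0,n0,n0,n0,n1,m1]) :: r19

noncomputable def l26 : List Con := (true, [n1,n1,m1,n0,n0,n0,n0,m1,n0,m1]) :: l25

noncomputable def r26 : List Con := (true, [n0,m1,n1,n0,n0,n0,n0,n1,n0,n1]) :: l25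

noncomputable def l27 : List Con := (true, [n1,n1,m1,n0,n0,n0,n0,m1,n0,m1]) :: r11

noncomputable def r27 : List Con := (true, [n0,m1,n1,n0,n0,n0,n0,n1,n0,n1]) :: r11

noncomputable def l28 : List Con := (false, [n0,n0,n1,n0,n0,n0,m2,n0,m1,n0,n2,m2,m1]) :: l27

noncomputable def r28 : List Con := (false, [n0,n0,m1,n0,n0,n0,n2,n0,n1,n0,m2,n2,n1]) :: l27

noncomputable def l29 : List Con := (false, [n0,m1,n0,m1,n0,n0,n0,n0,m1,m1,n1,n0,m1]) :: r28

noncomputable def r29 : List Con := (false, [n0,n1,n0,n1,n0,n0,n0,n0,n1,n1,m1,n0,n1]) :: r28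

noncomputable def l30 : List Con := (false, [n0,n0,n0,n0,n0,n0,n0,n0,n0,n0,n0,n1,m1]) :: r29

noncomputable def r30 : List Con := (false, [n0,n0,n0,n0,n0,n0,n0,n0,n0,n0,n0,m1,n1]) :: r29

noncomputable def l31 : List Con := (false, [n0,m1,n0,n0,n0,n0,m1,m1,n1,n1,n1,m1,n1]) :: l30

noncomputable def r31 : List Con := (false, [n0,n1,n0,n0,n0,n0,n1,n1,m1,m1,m1,n1,m1]) :: l30

noncomputable def l32 : List Con := (false, [n0,n0,n1,n0,n0,n0,m2,n0,n0,n0,n2,m2]) :: l31

noncomputable def r32 : List Con := (false, [n0,n0,m1,n0,n0,n0,n2,n0,n0,n0,m2,n2]) :: l31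

noncomputable def l33 : List Con := (false, [n0,n0,n0,n0,n0,n1,n0,n0,n0,n0,n0,n1,m1]) :: r30

noncomputable def r33 : List Con := (false, [n0,n0,n0,n0,n0,m1,n0,n0,n0,n0,n0,m1,n1]) :: r30

noncomputable def l34 : List Con := (false, [n0,n0,n0,n0,n0,n1,n0,n0,n0,n0,n0,m1,n1]) :: r27

noncomputable def r34 : List Con := (false, [n0,n0,n0,n0,n0,m1,n0,n0,n0,n0,n0,n1,m1]) :: r27

noncomputable def l35 : List Con := (false, [n0,n0,n0,n0,n0,n0,n0,n0,n0,n0,n0,n1,m1]) :: l34

noncomputable def r35 : List Con := (false, [n0,n0,n0,n0,n0,n0,n0,n0,n0,n0,n0,m1,n1]) :: l34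

noncomputable def l36 : List Con := (false, [n0,m1,n0,m1,n0,n0,n0,n0,m1,m1,n1,n0,m1]) :: r35

noncomputable def r36 : List Con := (false, [n0,n1,n0,n1,n0,n0,n0,n0,n1,n1,m1,n0,n1]) :: r35

noncomputable def l37 : List Con := (false, [n0,n0,n0,n0,n0,n1,n0,n0,n0,n0,n0,n1,m1]) :: r36

noncomputable def r37 : List Con := (false, [n0,n0,n0,n0,n0,m1,n0,n0,n0,n0,n0,m1,n1]) :: r36

noncomputable def l38 : List Con := (true, [n1,n0,n1,n1,n0,n0,n0,n1,n0,n2]) :: r37

noncomputable def r38 : List Con := (true, [n0,n0,m1,m1,n0,n0,n0,m1,n0,m2]) :: r37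

noncomputable def l39 : List Con := (true, [n0,n1,m1,m1,n0,n0,n0,m1,n0,m1]) :: r34

noncomputable def r39 : List Con := (true, [n1,m1,n1,n1,n0,n0,n0,n1,n0,n1]) :: r34

noncomputable def l40 : List Con := (false, [n0,n0,n1,n0,n0,n0,m2,n0,m1,n0,n2,m2,m1]) :: l39

noncomputable def r40 : List Con := (false, [n0,n0,m1,n0,n0,n0,n2,n0,n1,n0,m2,n2,n1]) :: l39

noncomputable def l41 : List Con := (true, [n1,n0,m1,m1,n0,n0,n0,m1,n0,m2]) :: r39

noncomputable def r41 : List Con := (true, [n0,n0,n1,n1,n0,n0,n0,n1,n0,n2]) :: r39

noncomputable def l42 : List Con := (true, [n0,n1,m1,m2,n0,n0,n0,m1]) :: r7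

noncomputable def r42 : List Con := (true, [n1,m1,n1,n2,n0,n0,n0,n1]) :: r7

noncomputable def l43 : List Con := (false, [n0,n0,n1,n0,n0,n0,m2,n0,n0,n0,n1,m2]) :: l42

noncomputable def r43 : List Con := (false, [n0,n0,m1,n0,n0,n0,n2,n0,n0,n0,m1,n2]) :: l42

noncomputable def l44 : List Con := (false, [n0,n0,n0,n0,n0,n0,n0,n0,n0,n0,n0,m1,n1]) :: r42

noncomputable def r44 : List Con := (false, [n0,n0,n0,n0,n0,n0,n0,n0,n0,n0,n0,n1,m1]) :: r42

noncomputable def l45 : List Con := (false, [n0,m1,n0,m1,n0,n0,n0,n0,m1,m1,n1,n0,m1]) :: l44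

noncomputable def r45 : List Con := (false, [n0,n1,n0,n1,n0,n0,n0,n0,n1,n1,m1,n0,n1]) :: l44

noncomputable def l46 : List Con := (false, [n0,n0,n0,n0,n0,n1,n0,n0,n0,n0,n0,n1,m1]) :: r45

noncomputable def r46 : List Con := (false, [n0,n0,n0,n0,n0,m1,n0,n0,n0,n0,n0,m1,n1]) :: r45

noncomputable def l47 : List Con := (false, [n0,n0,n0,m2,n0,n0,n0,n0,n1,n1,n0,n0,n1]) :: r44

noncomputable def r47 : List Con := (false, [n0,n0,n0,n2,n0,n0,n0,n0,m1,m1,n0,n0,m1]) :: r44

noncomputable def l48 : List Con := (false, [n0,n0,n0,n0,n0,n1,n0,n0,n0,n0,n0,m1,n1]) :: r47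

noncomputable def r48 : List Con := (false, [n0,n0,n0,n0,n0,m1,n0,n0,n0,n0,n0,n1,m1]) :: r47

noncomputable def l49 : List Con := (false, [n0,n1,n0,m2,n0,n0,n1,n1,n1,n1,n0,n1,n1]) :: r48

noncomputable def r49 : List Con := (false, [n0,m1,n0,n2,n0,n0,m1,m1,m1,m1,n0,m1,m1]) :: r48

noncomputable def l50 : List Con := (true, [n0,n0,n2,n1,m1,n0,n0,m1,n0,m1]) :: l49

noncomputable def r50 : List Con := (true, [n1,n0,m2,m1,n1,n0,n0,n1,n0,n1]) :: l49

noncomputable def l51 : List Con := (false, [n0,m1,n0,n0,n0,n0,m1,m1,n1,n1,n1,m1,n1]) :: r49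

noncomputable def r51 : List Con := (false, [n0,n1,n0,n0,n0,n0,n1,n1,m1,m1,m1,n1,m1]) :: r49

noncomputable def l52 : List Con := (false, [n0,n0,m2,n0,n1,n0,m2,n0,n1,n0,n1,m2,n1]) :: l51

noncomputable def r52 : List Con := (false, [n0,n0,n2,n0,m1,n0,n2,n0,m1,n0,m1,n2,m1]) :: l51

noncomputable def l53 : List Con := (true, [n0,n1,n2,n1,m1,n0,n0,m1]) :: l52

noncomputable def r53 : List Con := (true, [n1,m1,m2,m1,n1,n0,n0,n1]) :: l52

noncomputable def l54 : List Con := (false, [n0,n0,n0,n0,n0,n1,n0,n0,n0,n0,m1,n1,n1]) :: r52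

noncomputable def r54 : List Con := (false, [n0,n0,n0,n0,n0,m1,n0,n0,n0,n0,n1,m1,m1]) :: r52

noncomputable def l55 : List Con := (false, [n0,n0,n1,n0,n0,n0,m2,n0,n0,n0,n1,m2]) :: l54

noncomputable def r55 : List Con := (false, [n0,n0,m1,n0,n0,n0,n2,n0,n0,n0,m1,n2]) :: l54

noncomputable def l56 : List Con := (true, [n0,n1,m1,n0,n0,n0,n0,m1,n0,m1]) :: l55

noncomputable def r56 : List Con := (true, [n1,m1,n1,n0,n0,n0,n0,n1,n0,n1]) :: l55

noncomputable def l57 : List Con := (true, [n1,n0,n1,n1,m1,n0,n0,m2,n0,m2]) :: r56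

noncomputable def r57 : List Con := (true, [n0,n0,m1,m1,n1,n0,n0,n2,n0,n2]) :: r56

noncomputable def l58 : List Con := (true, [n1,n0,n3,n3,m1,n0,n0,n0,n0,n1]) :: r54

noncomputable def r58 : List Con := (true, [n0,n0,m3,m3,n1,n0,n0,n0,n0,m1]) :: r54

noncomputable def l59 : List Con := (true, [n1,n0,m3,m3,n1,n0,n0,n0,n0,m1]) :: l58

noncomputable def r59 : List Con := (true, [n0,n0,n3,n3,m1,n0,n0,n0,n0,n1]) :: l58

noncomputable def l60 : List Con := (false, [n0,n0,n0,n0,n0,n1,n0,n0,n0,n0,m1,n1,n1]) :: r51

noncomputable def r60 : List Con := (false, [n0,n0,n0,n0,n0,m1,n0,n0,n0,n0,n1,m1,m1]) :: r51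

noncomputable def l61 : List Con := (false, [n0,n0,n1,n0,n0,n0,m2,n0,m1,n0,n1,m2,m1]) :: l60

noncomputable def r61 : List Con := (false, [n0,n0,m1,n0,n0,n0,n2,n0,n1,n0,m1,n2,n1]) :: l60

noncomputable def l62 : List Con := (true, [n0,n1,m1,n0,n0,n0,n0,m1,n0,m1]) :: l61

noncomputable def r62 : List Con := (true, [n1,m1,n1,n0,n0,n0,n0,n1,n0,n1]) :: l61

open Helper55.PC in
noncomputable def t0n : Helper55.PC.Ten :=
  (r
  14462830807933020120235781775875326901724176892893233609844976204097918625979654805030584870037809159579857754546547367319137540451686062943674425159343369315009210551565323910130509888833915628101164623846743565978278934224275831327940148981592616828667068880491933727118079807306861493195426792549376181749445636516663430042783913430152680077776494489529616482327670507744746741524238231220397394066126631734189189061889738365311618128663492989693673392742621314)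

noncomputable def t0 : Tre := Helper55.PC.toT t0n

theorem ok0 : chk K t0 l0 = true :=
  Helper55.PC.chkN_sound K t0n l0 (by decide +kernel)

open Helper55.PC in
noncomputable def t1n : Helper55.PC.Ten :=
  (r
  476043881829838657652511817322493515007442078858358527757362328340144543732919076915407320841005812894574983588010073256669291913522007775368678548025295849555529586061919421037819658571524900667638524256923717740209006885145878080781464071765614714252266830120696628465845689952860309951769909023147896848188510116121960967752084725364993968753858478276300648686167790177482909228100632584272568017491092713608460517315156480648099650036102078302305634318813307759286350419648149098986088842976959663765940833513666780930258388251322524659556215893408816657314692122570115305593430464052179247168396350801235495486939774978063181075196043679262891493309640853721500229612785212773521737295654876912983104194667020287896971369482056062360762129811657507241864856855296)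

noncomputable def t1 : Tre := Helper55.PC.toT t1n

theorem ok1 : chk K t1 l1 = true :=
  Helper55.PC.chkN_sound K t1n l1 (by decide +kernel)

noncomputable def t2 : Tre :=
  (.N [0,1,1,1] 0 ⟨0,[(14,0),(27,0)]⟩ ⟨0,[(0,0)]⟩ (.x (-1) ⟨1,[(9,0),(0,1),(5,1),(2,0),(12,0),(2,0),
  (5,1)]⟩ ⟨0,[(7,0),(6,0),(5,0),(3,0),(8,0),(6,0),(2,0)]⟩))

theorem ok2 : chk K t2 l2 = true := by decide +kernel

open Helper55.PC in
noncomputable def t3n : Helper55.PC.Ten :=
  (r
  101433583913054218867933470022731889887799351057615921384747823359200934918222647037581552884805957546774602598625371568757459668475512774174734031510368035715238864498352475327459681504925713495801297564171800277671179228093417677708045078852395608923195402922482750218378)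

noncomputable def t3 : Tre := Helper55.PC.toT t3n

theorem ok3 : chk K t3 l3 = true :=
  Helper55.PC.chkN_sound K t3n l3 (by decide +kernel)

open Helper55.PC in
noncomputable def t4n : Helper55.PC.Ten :=
  (r
  63390260318359653325835779314899133509020495889923855812441024268262753811668402184001736774498048452638630428802791203657733667389614510710339587737846874443794289698807193289368735094005170180835569823424864457349661919291049283191637946566601760367637991205738360310097978980370373341428447471930268068462928274296155281068656092879738077144701538050227055132625837412048133036772005923925799574967650204246813100963353357851558530592216206087740682794837074330964793238851565658283586702850389092025247644656971594657885544126126339715466247143151630557472)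

noncomputable def t4 : Tre := Helper55.PC.toT t4n

theorem ok4 : chk K t4 l4 = true :=
  Helper55.PC.chkN_sound K t4n l4 (by decide +kernel)

open Helper55.PC in
noncomputable def t5n : Helper55.PC.Ten :=
  (r
  272325078760869648529186196960875169590785742482151118900372241159748270892835409000600825165490138604393832543312331015644412365851548725515509614159258551964400075179541079876939483388567357730670468077322192106451145632262364539455487265560359456178874482819213545433895107343261264951927404299588834038145635631493997745651628654251211782217257725528259086509705085949254597200324006987022713885368647101481302441725134872611175092608179666298449362219519100261169570477502219266018659576252316939798107533579466656840873918928755297610780081558028424405761166643138290168440512259016485566379349898846289757218725824699057073191254345679640488740335098365779392486567750681223456)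

noncomputable def t5 : Tre := Helper55.PC.toT t5n

theorem ok5 : chk K t5 l5 = true :=
  Helper55.PC.chkN_sound K t5n l5 (by decide +kernel)

open Helper55.PC in
noncomputable def t6n : Helper55.PC.Ten :=
  (r
  263102621332502745232826483369666914842136879260354314212823033382872711397371358305579881871324040823057172093621460626498759711051476267988890238973317549637560182403448549990415437876010368222124449107692960543053757682932916876392887542837840625997802469774121709429150707105528275142321020710423342277731621122464023849447020027937533862386270298925501248446022801233504336220206732233415988849548556806357581203657043487102587060324438867355281310626429761351445349689923785054671316428624469740214921987208908018509540497956109562263348494565725202620696858731530034027895610513296191358430629922961866016646653248383224499451148222970859090250441423100125332066437071189591475222989322300843007411056496068432693140444709681114167096191844321219830044104419798049476748921050416168259668041605752061378269274897170979262664545197262591259220107553)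

noncomputable def t6 : Tre := Helper55.PC.toT t6n

theorem ok6 : chk K t6 l6 = true :=
  Helper55.PC.chkN_sound K t6n l6 (by decide +kernel)

open Helper55.PC in
noncomputable def t7n : Helper55.PC.Ten :=
  (r
  22829148512830065674751465499145460256723215125826771047415178990866804245307657726375139324154274296324107092087931825184597974456404129779148796095690725802397019602267189670553890471881203275264162294088619970399372839613721147158317311929484044035260095310247645210037857487913520702462540362537154568456079592979904481074708992503335893114169266804400104233390648880319409679281005305218987439772841388542936263477875380806323227079532062736183114241700408089351872342496172589984125518105554104645196999044104009658703513212337730788370069773525321169285750700584011627233112807329593794054856813979422668982340917309008083244422778250778154681883008592939951486099961542383291817147348935591430177259754686868685658211750691924244689189162624599902451942440537234820166972749617549580558409204289617017544638297789436578223629601)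

noncomputable def t7 : Tre := Helper55.PC.toT t7n

theorem ok7 : chk K t7 l9 = true :=
  Helper55.PC.chkN_sound K t7n l9 (by decide +kernel)

open Helper55.PC in
noncomputable def t8n : Helper55.PC.Ten :=
  (r
  1350943846740147002496178953216961405300165401238354595737608002035393964788700732896067543092443034128433544416014851354069019809929516228959558396676517516398335102668472889502136409440480289902252974796461040041164300958966634733824314528692080774830106279466978044611383739258403871917734692467036074374494690648204533834334246913322302818127865631893366356418091747927037173488657245048083887308646873586599052418714350129162928830217186338791849798662861741964339717604785976773751985956574478563973481220555592312542776754122456365402730839263598975630818822947591661131583334739831362010298372100746914557791009387332766847757744460434143230785233620738978095030009053698184259251065462137423654010457143485864465086075922419234173559151759727687175871094528795818031024976727599903857545673145641590527472839694802861332291785180407378849767223989302952706412645943338068653296059424348965125544269176592730020378810067633129804200217057268872031010318467340007998715933710530817828129)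

noncomputable def t8 : Tre := Helper55.PC.toT t8n

theorem ok8 : chk K t8 l10 = true :=
  Helper55.PC.chkN_sound K t8n l10 (by decide +kernel)

open Helper55.PC in
noncomputable def t9n : Helper55.PC.Ten :=
  (r
  5359713111540293838026375836221596006594803396986074829757832884662408296292034543942552753330225738450030326461773177820737919755579557300819864338538226466536065893954157449292430805452174217112997445468210639035523138000679408104614872191727230596808079430652328439662673210052213218184562104418506069744489310784852860636995443260048604283823816737710953132774971147587313540941445267503133578653430410988849647653526815955472838641039032722631241078781223500147326297352416450714123278583050147015855174410773729536186848958077976411819907162683498658010682000684468796166567845550353285290986430601211029677088658270721486426571180818440510959037530625097980333008825409095292663609216319265635439916401495371808137797186976166157879524358523968769761407349761701525117089865953)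

noncomputable def t9 : Tre := Helper55.PC.toT t9n

theorem ok9 : chk K t9 l12 = true :=
  Helper55.PC.chkN_sound K t9n l12 (by decide +kernel)

open Helper55.PC in
noncomputable def t10n : Helper55.PC.Ten :=
  (r
  43871571917004972175988045251337517227424019184487614507636755328294457456774450337355789255495102262408016598176528433756507048424164244508658151637386205989100114006209139497217582856729645775686142247400705045856168001877210381472424139038115903078244320670373981387650008104886049502132006683022534903549644033036363050020086507219831365963591786686610230022999346424379668594975905473111108089083686813563790545189409816785673567467956217544545075382760532494771703599066286152651605619951296332469006559576722708632114718812557866034852561422892464693789181354810781310380747144457643648372595803636090041552464820491651904782445326737214001897336670940628546049286437091733539330703167295531214561968456701231208599029263027331966044503037953181014724129945275581685773518503874022898043765572510497)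

noncomputable def t10 : Tre := Helper55.PC.toT t10n

theorem ok10 : chk K t10 l13 = true :=
  Helper55.PC.chkN_sound K t10n l13 (by decide +kernel)

open Helper55.PC in
noncomputable def t11n : Helper55.PC.Ten :=
  (r
  253575287832316336910013726936890342419785952704557451462610061787926053190049698889477535549416958372976866070572091533798044752918962319176776353030959302221927231988331604823106959852724504091339911303710602133821464554788276216771889744114642904472369466281839775844960465193764540915109060121422641666597016528578296635031402524258848195048490287031785318360781564574388209122612355476219062845619377085226393115776735277508248469140930835200802008595999892773091594230653918664996698514557893614317061569658382425987513424163909717658733332367665599082730020569719645739591852193338545151048905307211725305362568612430799163470140044221328827058630043490379808789766400)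

noncomputable def t11 : Tre := Helper55.PC.toT t11n

theorem ok11 : chk K t11 l15 = true :=
  Helper55.PC.chkN_sound K t11n l15 (by decide +kernel)

open Helper55.PC in
noncomputable def t12n : Helper55.PC.Ten :=
  (r
  846780180787458784275143680734286641566049384607161372581451668092659232524140294195568661650144111230773296594519428049888222979697602222449520682744870650268730558025303291847285161889407813718908590732574267288194272391748163491058764551314274744075353694043337129834318256935803727658631881672730987005951003806316107707468989159290615755810412087801134008399187079822821385359045109899405232672896203152278635640119580499601200685182240300667613789748332773646423051609988677687736257935543524995017921667328794710099635546136007181826021620723527110002149082065776364943460960811395932136873279235325972393932415089086375377435623540546543851030176832838040818328030095937495611945797357650979848720254130569601611650329595742880100969127422838659064447333311777)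

noncomputable def t12 : Tre := Helper55.PC.toT t12n

theorem ok12 : chk K t12 l18 = true :=
  Helper55.PC.chkN_sound K t12n l18 (by decide +kernel)

open Helper55.PC in
noncomputable def t13n : Helper55.PC.Ten :=
  (r
  196603282184123477104195978705186651607812957647401358683924344748808372475791879236274916137645008710707154781672553629730146697676843280051311224108106923908316034882374786991267745473946511000887802909710241416587626602183198386715063959330801901309535064961914275715965562607062233475185264989794915469220122502043468517184276140149494095849322647199332644145881233693831400539616393728325242243562873129)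

noncomputable def t13 : Tre := Helper55.PC.toT t13n

theorem ok13 : chk K t13 l21 = true :=
  Helper55.PC.chkN_sound K t13n l21 (by decide +kernel)

open Helper55.PC in
noncomputable def t14n : Helper55.PC.Ten :=
  (r
  355001533798442133662336104766713549087001467436358945599220455432762085004143713460356768531779212410525169670094282478339284328452151922156600369692160699624847355588404718713401774777711373760709652826016545696184574343273407227228365982594380653906817180230191711718048262198027875236012356436605908938220063677051476710302868592841008170400021023368983476215040699604328894373062436713374760877125301338268846143591214173284382695969007921289627448228853738156766677905237695621044042435208767926543167576618456356995933158951182161963931454960796523326356553985688209788451073052860750592119762026669540693546301357471237104217626073397164475625032637706055800839741696)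

noncomputable def t14 : Tre := Helper55.PC.toT t14n

theorem ok14 : chk K t14 l22 = true :=
  Helper55.PC.chkN_sound K t14n l22 (by decide +kernel)

open Helper55.PC in
noncomputable def t15n : Helper55.PC.Ten :=
  (r
  37970936542661022814075479912175673096038330301349620983627107482956688213248170645112670072086068088958668307976279870292570293959743251529054441700460002310123762960073713508807234620231761236614069602696827300224172735876248769499556043312205328282733601610375376255097091745671320506110175428099751875207631990765076045891824887924892806944348077312479069242500740145410898485855529305938751334579611761639785862287574466883131887482429830363611347793310021357409585026636103098887410810365387111105727339421441428728530834717102651857510427539084160540311447865202141909785359723150667485340343162248444226014122006164677966410850735991229830945779233349702053651282086202146610590079288999356527839211777760784404981025)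

noncomputable def t15 : Tre := Helper55.PC.toT t15n

theorem ok15 : chk K t15 l24 = true :=
  Helper55.PC.chkN_sound K t15n l24 (by decide +kernel)

open Helper55.PC in
noncomputable def t16n : Helper55.PC.Ten :=
  (r
  6425834045972949794457285602422558411594591521052113482693960945559540906181998033054661459316590981963959678712133845461483476231623773460313653418761619797737814971152522521096583720385229691684573398811926527242501576236919623632526541430288242066174741270786002831617048302800784287201394919459881017863241576503032486485405853294335008321665031023237392314510340338533344284104943073687409702465851660146380008714823480487673247820417681017387642838030235439172427766623865564202211531812661398838579392270332528102414586646479410506279341814615699314358701397378620760688001896498699088400022690372621855071324338126657776708504836538094848199859759905421579368545332965051692706597497713136803989803719615857134169794430754887216060815147145764793939222899156013770890086626259886619900138084429197643431955359443630003920650109696706527110433)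

noncomputable def t16 : Tre := Helper55.PC.toT t16n

theorem ok16 : chk K t16 l26 = true :=
  Helper55.PC.chkN_sound K t16n l26 (by decide +kernel)

open Helper55.PC in
noncomputable def t17n : Helper55.PC.Ten :=
  (r
  148238017671122850453423744200392251512219504921193065869308658590205075024595201654172934898703359766053763887633076974904804956477705132450233015437567325968468532239202530280204970053911215159004688893788377568474483290496354883090543637701679064735304183800167994395365564114434071630816439661783476645605262663982352893558676259952546148064215660923650179210357873664564078353560792174097332151115063819823153756141596015824184624556440559814576291315835502513227267178466236760621169756679420930911081218591969663796064610433934449482091817393575232992818501715549218086293100913849866442841186388973093961897521351785032636774597048658374234393980001286885832565439855875203420190285603729131272848971503089456259328)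

noncomputable def t17 : Tre := Helper55.PC.toT t17n

theorem ok17 : chk K t17 r25 = true :=
  Helper55.PC.chkN_sound K t17n r25 (by decide +kernel)

open Helper55.PC in
noncomputable def t18n : Helper55.PC.Ten :=
  (r
  118535716106192582057855205605978565035673436370660448863138640661875648573391780871344202411361170616642295519728385100731444361095148547331678074445545888531532764318240211110231169553138938259275616817324349604995608451867414077127724829921183496847277432271109834428702582791843906372731030911096426336440620782367612478124579009511659219067722960262728972724784230586472839624092871925525802102544390903328078996145190665202059162422052153009973689802117473442644741707055219278596623958509601836350626142971784708940003393353151940188084968429015495451253663793507423049579265284944329490262819382743435205559732428057933339979229824692513756126027840955270817649701570933315866420336254358930668815963551963113453813223080081678568437477121371005921475286882348017182506747066425490943169835055809989784596325383859824212262562489014032690991276204854704567231777)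

noncomputable def t18 : Tre := Helper55.PC.toT t18n

theorem ok18 : chk K t18 l28 = true :=
  Helper55.PC.chkN_sound K t18n l28 (by decide +kernel)

open Helper55.PC in
noncomputable def t19n : Helper55.PC.Ten :=
  (r
  924353289954115830054052465216343938692959419925269395586344271792955943491652879270206375153587153802746148559993385287865584858680561274280087449868583572537505090679939346576974303657841570291303726884046932804354599539155213638190651156662680999407965690201800216038655567327555564527693899173234310235797507871102256600390408819786019652708401846080077496724633069622027254342810433281443805016256899631273607567055183348046081378154439862626419600959252844352051917431163705543418206174503884365099829462958544775343783701704655925879868337968645884783440497779159728156226409200455879726912088561627814921559790698504998598234211422002361423295445475863521802274668924372343139457865520571542192881268708331631275217665313293474564927264652458319775681480443784617907262292769043622954705397952107032379550480060117996828121866153035729690826383716529564982186455575363322763785611747072978873115740910815959945093364847649300157277414689)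

noncomputable def t19 : Tre := Helper55.PC.toT t19n

theorem ok19 : chk K t19 l29 = true :=
  Helper55.PC.chkN_sound K t19n l29 (by decide +kernel)

open Helper55.PC in
noncomputable def t20n : Helper55.PC.Ten :=
  (r
  4262827143368753250171778787611186231140680979266369889928453425798716425118208530748412119860275624215096633104378445500771844662933148454515432141645213740250279731035252486088067085018800032626773531241389769030932089968133810082829382793534669834621987401772607551145706299515003299290404737594914726905367810788614881353251476432913709861707510826622304319825504367214425116142053399304480734721093342228486672706358534072755201604637895408154169255724171077534614790046064837902000897259030587163142538471024347679108762914117292055865216288424261751869145074484877044505989233068649059861935788258540129309705468200638458773538712255857277790657554234986719776144176023860375780342872725924021936242731444509675640299881626282012598524522184321918129258252385703506305693773407069296752663075747689900736036407046584788147998421455635709695828414881746041359489270996220534229837969004828168005166189240363930128095056128005867570697473581050942146108728609)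

noncomputable def t20 : Tre := Helper55.PC.toT t20n

theorem ok20 : chk K t20 l32 = true :=
  Helper55.PC.chkN_sound K t20n l32 (by decide +kernel)

open Helper55.PC in
noncomputable def t21n : Helper55.PC.Ten :=
  (r
  242901906320659963806521280654644330557536547024190371063505214958318634353632377297991221080676267166276649258843094236517506624328404050400023383158285695084605892079974257782389857071901112106679980267811226428991730152717932365899153520830260449724996428365451494126424429879031445014550038545159747484320415884156183049182050827084737318762835423100510961221079855020807027530969504041323027780190954095784354961087353812986672082369363006088681300582064416910070396547267997581206063564080109025294604779117248000400479948451919363370149563101523524379440072392549772893987708275013425750910504906102822525183306210484480)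

noncomputable def t21 : Tre := Helper55.PC.toT t21n

theorem ok21 : chk K t21 l33 = true :=
  Helper55.PC.chkN_sound K t21n l33 (by decide +kernel)

open Helper55.PC in
noncomputable def t22n : Helper55.PC.Ten :=
  (r
  17259809754261167960996593046399967930940956899805956172169316476055352368868124233681815642702373801010175218141052675828742415247892340715906832540440326110549481163367581519333062085965947746675635983006229262918249415359238345881904930205541353174470148494477511069352426067753413936850421587987103488852898532538451884795528862884947974921699934751708643415078714260879148628964653712495675186660631434515427977082202866084713564783513544561020983611252038724603806541131621554269771709380460291290689009237454230518205955153320009216026989666946558593863364724016093900514416562477746366808516188238493642537589286161632449917554670099706487695525395171367986908657821434095789336328500384748072984598290720)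

noncomputable def t22 : Tre := Helper55.PC.toT t22n

theorem ok22 : chk K t22 l35 = true :=
  Helper55.PC.chkN_sound K t22n l35 (by decide +kernel)

open Helper55.PC in
noncomputable def t23n : Helper55.PC.Ten :=
  (r
  53037476037547384055413695722735533190048092359463304456509142080128797929864836732379966762236766120757706765471758692007370446992125353419209453505543247558084693690142350635558105054350812864106810028821470839984373982746324499868297133555438354203962972823424982759388763107483640226677753486444099754370082039913449383012704075645894739401042233489927841197848178870784728220964267735289213169226787147085343782281527650382864004145330640311530791502785244135877293122512829366295577756463719533026070228820846866761094348048244214308570928083452775255453472277470386906103331174263632001057231032058411065292158960907072389653016714909569897848887954825962467368428579228987551185005957645428190258540696906208230671157950549502257328146513183345242396345769129595946981953443182963448395412136564908813841394963523306267425)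

noncomputable def t23 : Tre := Helper55.PC.toT t23n

theorem ok23 : chk K t23 l36 = true :=
  Helper55.PC.chkN_sound K t23n l36 (by decide +kernel)

open Helper55.PC in
noncomputable def t24n : Helper55.PC.Ten :=
  (r
  1043255743783290233685552571939734870256432915793663764595859637371428537696233159301605141036610345042516802655193728541288779882953853360342036148300114251813010259532394853697237920845929597044220178388174539014170347260380605024276770006049223398731111853546420903547329015745885292493114659761696696225468256738857701579327993229408416081459134948095306926643539629843147472022616715934521323870762232677733682856105107088442736424421863807219167324768170193858713745854940896658569392998919127996003630799650657027054535699095972284138533704515596883986343664599662086165451402107817603074663838364706874976468428474131370739507456)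

noncomputable def t24 : Tre := Helper55.PC.toT t24n

theorem ok24 : chk K t24 l37 = true :=
  Helper55.PC.chkN_sound K t24n l37 (by decide +kernel)

open Helper55.PC in
noncomputable def t25n : Helper55.PC.Ten :=
  (r
  6425834045972949794109142301158589717594831415129686324747051602387920871678772430407997768148940286401323558919025640378913037877036264435665087134896625087422793210615440181895826619352915822509935095386322737751098981797674634262934303261612104420301986933916176533812947082953155983828388294353996453156348622804603745090665221135013502496403282266710600852476861496260168270311230741278498671736699652078391932696186877637068732433428754292041669293664864606392138374062097804775337875355707888547858273902328197818148637273310078243352249324533452680311693259501402849822647310895996847663856378147833291485674895019306843346069003338026489241702478323351018375138376609141655775888442967151300794334553156876532290366166448238314768586289085727610580539860600476409345406377669757812686638006310646905797981130620389715471192004583666828977441)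

noncomputable def t25 : Tre := Helper55.PC.toT t25n

theorem ok25 : chk K t25 l40 = true :=
  Helper55.PC.chkN_sound K t25n l40 (by decide +kernel)

noncomputable def t26 : Tre :=
  (.N [0,1,1,2] 0 ⟨0,[(1,0),(23,0)]⟩ ⟨0,[(0,0)]⟩ (.x (-1) ⟨1,[(10,2),(10,3),(5,0),(2,0),(12,1),(2,
  0),(5,1)]⟩ ⟨2,[(3,1),(14,2),(3,3),(2,3),(5,5),(1,0),(1,1),(8,5),(6,2)]⟩))

theorem ok26 : chk K t26 l41 = true := by decide +kernel

open Helper55.PC in
noncomputable def t27n : Helper55.PC.Ten :=
  (r
  1078894457536387640394950654368500832855923706392634181030452002544038325923067465243329742136980554116552786072869016422435980298787159646395618366223746009855867988472243445970753647158398421594399705789634431298807094158784026967141728054272449038359921852454561546522939362758379485422269469131444663388159802841554991200868029901385691771777294018464885864507369315209722035216922535245391330330020909297896881401610287562325212935889660989444410134417611911217610444512017953407657229634014471350217576322356276067908632633009345107612478646810258581296051115730270750386912019575765813245119942292457690400857608594913503372217479538442601084909762414575599689457040734924022478074780918300886376573035233)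

noncomputable def t27 : Tre := Helper55.PC.toT t27n

theorem ok27 : chk K t27 l43 = true :=
  Helper55.PC.chkN_sound K t27n l43 (by decide +kernel)

open Helper55.PC in
noncomputable def t28n : Helper55.PC.Ten :=
  (r
  188426966607648381765127653888501284994004489369076532074202172421106273387277481609123907465317730372725010679087339341705317171986707939213503923160715583971839542690947175749185543707680698180918376692848424513295345097343540267183548796664721039183633881263910430301640584401011988557654614932669172010561996718885880573208073880977011954369899377580795388396297244199472432658200624300229039088819814016707329852216815165078226075412056633018154997977672858746432858136028084898442717961600879194295564380473051113112872326784842479656587577359737426795517834234274831266211154622323030045883146866516839027027834689153342718662650663902928980613150315370191052147331230973647133447480979116702526419282510847116875054974210082067569655568992477278225920615093336696080149369897783278616533176208137077612356385)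

noncomputable def t28 : Tre := Helper55.PC.toT t28n

theorem ok28 : chk K t28 l45 = true :=
  Helper55.PC.chkN_sound K t28n l45 (by decide +kernel)

open Helper55.PC in
noncomputable def t29n : Helper55.PC.Ten :=
  (r
  242901906320659963806521194544842184987835382617777546682643794474359811914893638146230351146388021433795334590416936893746452339308941838605383059611518676730142194874583671515017375532411537457573528988785589372961587313377543361350029764401182794601973814520098473296023106625571620514310222377090874551249063730145919599869854516619852811625673626372142137096266613619237819399309353175320908633805346688788760783266974998049348609553329342466867893909646262654252813231719015242963786741408414440384338828399652353284274224234175233621554429992511984858353786181488553267326411140937838726648518394637632921597503877161216)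

noncomputable def t29 : Tre := Helper55.PC.toT t29n

theorem ok29 : chk K t29 l46 = true :=
  Helper55.PC.chkN_sound K t29n l46 (by decide +kernel)

open Helper55.PC in
noncomputable def t30n : Helper55.PC.Ten :=
  (r
  5359713111540293838026375836221596006594803396986074829757832884662408296292034543942552753330225738450030534184309665241738619605343412582400701728425200921415213056516151583699996618356946160022068941738477440292273596811303197412047743114886303304655468270372661724545448986790252498100159646026026900555140731129474332838298900817231762143947483430988739010182961469710570539011385346786976382962069632245141878540924028999853853872566606813646349690050588365170183996642017595248880053547980839265057728516409179460091698345516773770306431682367748535535087134749169363292871145080784873864400204855144373680095051771444336688383999367255022623147176172882213374253592089360888572776607865490934538046397380710663595003324151873790895681846029447300292881628265640576339451568353)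

noncomputable def t30 : Tre := Helper55.PC.toT t30n

theorem ok30 : chk K t30 l47 = true :=
  Helper55.PC.chkN_sound K t30n l47 (by decide +kernel)

open Helper55.PC in
noncomputable def t31n : Helper55.PC.Ten :=
  (r
  1131138892055259903491872721874593486235549880368333127206491727164430969476165739852262448246929762501394152449414039208306503269629594573619882673009523116478193606496966446107288934073172344892460255403332859684663700588444205210319097083552049191975251366003169547553206249565009812914674343598639983440318011880610250870574443171760851877204492979346523703984573045302014759338103297987367867849370378809969298186998093476080341103007631818265552135516170505355717986541451246991487722423995136577785996537368993355411251158686727999816136397146956154977337677983955206611076070906230048514394852773937042607817018029557515887840686842808999729384086386562235283766219519952846224473163797947095714896312445706528)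

noncomputable def t31 : Tre := Helper55.PC.toT t31n

theorem ok31 : chk K t31 l48 = true :=
  Helper55.PC.chkN_sound K t31n l48 (by decide +kernel)

open Helper55.PC in
noncomputable def t32n : Helper55.PC.Ten :=
  (i 21775413351427436243373264131139053944842 (r
  6561594874026972270377152061726910625698878429633107161826306200929914237035794834006392410285795095578097162629993817810519544918059732141306233929394950803724051988743286040166624915312982757410436503396528863474660729556438906276122605910077222729363126713542973226962876164807194566793664266117476696124976374800686434328428834451433632967399022058981885051890590066202203465239003196437322094697590566359537104604938593130080127576879338654601533243315806390139770008068552217210514656587443609865)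
  (r
  2699283567126711932882194296091409185076690155541670431727748054444888716223465836394727865294179629253056260949806373539696463047765404537223854593263637570687907467565263380513098519390514079694430234371229437550975976844455198773560650618566699770977459496767943468515523115384382061661481478651052028179871181120722791209230883235073321909247997912936389597698774529982435252152910351194544174237566456974600583239153031050674002583508468980076073732967357003217735997402030497945947735102719169059431691691890650046707850966998779434849042799612821057869455625))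

noncomputable def t32 : Tre := Helper55.PC.toT t32n

theorem ok32 : chk K t32 l50 = true :=
  Helper55.PC.chkN_sound K t32n l50 (by decide +kernel)

open Helper55.PC in
noncomputable def t33n : Helper55.PC.Ten :=
  (r
  3180076929049948080470278253144066598205734205552805427692871618530080673007604474456063224966242019766527484937670663684607255614094627126624573989601430405176956151980467422911741828849242823760429070364646905210856803282487461487658572261255788488698431590154693974028741607792310715390855768252502187823862943038213883039409453982016458217958198011244165639714485199108122678381607515104911970724503068178195357370683256061386449834382109650154914424237442630175471769874706767369893792365743194133000144481687093881836561403436069532340763547758726429827623682128309438551039912521566658937668114047484341168465471505310345030798306515692007990237553662532141491009777119772726878238518946286197785923742653630172063438357585921753013265232321313209826423436118295570188153846054191750179462579157812027540574496130487507140788572332285291367786694596489813423927537586397377)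

noncomputable def t33 : Tre := Helper55.PC.toT t33n

theorem ok33 : chk K t33 l53 = true :=
  Helper55.PC.chkN_sound K t33n l53 (by decide +kernel)

open Helper55.PC in
noncomputable def t34n : Helper55.PC.Ten :=
  (r
  2314381453351424706668676523279254858578686057511670856899765902511756796561447350589456637192828204884347304880986488662283228478070910557458593041402063246774685247224839736469589980417087658375346374888564981501024931161549524109681517691336196360270258631648665291282152155720082437584177963641208429886085086242479305854698292438041955608564511965119482769588327378687321441060534325459936280574815062388852978189192268514214825967789937328666200658712567776576673007257878273903590565697984104398759723606951000643522480640159861704372185265225010149926177015906578488023872632799055971244098911903049999975450514794204819838689617859829977320379627544810079192254214304528449067286737558741043651360)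

noncomputable def t34 : Tre := Helper55.PC.toT t34n

theorem ok34 : chk K t34 l56 = true :=
  Helper55.PC.chkN_sound K t34n l56 (by decide +kernel)

noncomputable def t35 : Tre :=
  (.N [0,-1,2,2] (-1) ⟨0,[(1,0),(28,0),(14,0)]⟩ ⟨0,[(0,0)]⟩ (.x 0 ⟨1,[(11,3),(3,0),(16,2),(0,0),(1,
  0),(12,1),(7,1)]⟩ ⟨4,[(1,0),(0,1),(0,6),(9,2),(5,4),(10,8),(0,1),(4,9),(2,1),(0,0),(4,0),(15,
  2)]⟩))

theorem ok35 : chk K t35 l57 = true := by decide +kernel

noncomputable def t36 : Tre :=
  (.N [0,3,0,1] 1 ⟨0,[(1,0)]⟩ ⟨0,[(0,0)]⟩ (.x (-2) ⟨3,[(12,0),(3,4),(14,3),(2,1),(5,4),(9,0)]⟩ ⟨0,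
  [(1,0),(24,3),(8,0),(12,0),(6,2)]⟩))

theorem ok36 : chk K t36 l59 = true := by decide +kernel

open Helper55.PC in
noncomputable def t37n : Helper55.PC.Ten :=
  (r
  120294717806428168580394609475218499839676763823408177472546239194169741646955794400653028892259859593653890081077344061756520945524796679283966836448730016917092724110848044093162706389492044226606332200736369645748346477445481582443817835866620503207992807268805057638210707413483960520491772064665432374580598934519690196979931181715367596903312405992682517325516770077082295833889350342178223016867625990565196504039123255250985068254484114910946082144302067667364786949631248980558994486472776698832059863018402436580765008754948592988426098645698782355228215122203521736152209329382761248)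

noncomputable def t37 : Tre := Helper55.PC.toT t37n

theorem ok37 : chk K t37 l62 = true :=
  Helper55.PC.chkN_sound K t37n l62 (by decide +kernel)

theorem cl0 : Clo K (Helper55.TR.GT 1 Helper55.TR.BrU) r9 :=
  .q [n0,m1,n0,m1,n0,n0,n0,n0,m1,m1,n1,n0,m1] (e' := [n0,n1,n0,n1,n0,n0,n0,n0,n1,n1,m1,n0,n1]) (.p false [0,0,0,1] [1]
  (⟨0,[(40,0)]⟩,⟨0,[(17,0)]⟩) .k 1 (⟨0,[]⟩,⟨0,[]⟩) .k .k) (by decide +kernel) (by decide +kernel)
  (.t t8 ok8) (.h (Helper55.TR.GT.lJ Helper55.CD.Dm1_1_c0u_100_0.g 332079022590072589223647934624391477597039704450812314320238254804942705042239431401342480745201379023309132725003572712138538888718744036784804272702358986252049222865230825168831490 (by decide +kernel)))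

theorem cl1 : Clo K (Helper55.TR.GT 1 Helper55.TR.BrU) l8 :=
  .q [n0,n0,n1,n0,n0,n0,m2,n0,m1,n0,n2,m2,m1] (e' := [n0,n0,m1,n0,n0,n0,n2,n0,n1,n0,m2,n2,n1]) (.p false [0,0,1] [2,0,
  -1,-1] (⟨0,[(13,0)]⟩,⟨0,[(10,0)]⟩) .k 2 (⟨0,[(10,0),(5,0)]⟩,⟨0,[(1,0)]⟩) .k (.r (-1) ⟨9,[(6,7),(4,
  2),(8,1),(0,5),(9,0),(0,3)]⟩ ⟨2,[(2,0),(19,0),(4,0),(5,1),(2,5)]⟩)) (by decide +kernel)
  (by decide +kernel) (.t t7 ok7) cl0

theorem cl2 : Clo K (Helper55.TR.GT 1 Helper55.TR.BrU) l17 :=
  .i [n0,n1,m1,m1,n0,n0,n0,m1,n0,m1] (e' := [n1,m1,n1,n1,n0,n0,n0,n1,n0,n1]) (by decide +kernel)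
  (by decide +kernel) (.t t12 ok12) (.h (Helper55.TR.GT.lJ Helper55.CD.Dm1_1_c0u_100_1.g 324089366233103822985229643018220579425079940021882646156008362019699096221519236224145045249104618943231166177084084969904219056103743868021505901538131283759858110539888071941821630095754789890 (by decide +kernel)))

theorem cl3 : Clo K (Helper55.TR.GT 1 Helper55.TR.BrU) l16 :=
  .q [n0,n0,n1,n0,n0,n0,m2,n0,m1,n0,n2,m2,m1] (e' := [n0,n0,m1,n0,n0,n0,n2,n0,n1,n0,m2,n2,n1]) (.p false [0,0,1] [2,0,
  -1,-1] (⟨0,[(19,0)]⟩,⟨0,[(16,0)]⟩) .k 2 (⟨0,[(16,0),(5,0)]⟩,⟨0,[(7,0)]⟩) .k (.r (-1) ⟨9,[(12,7),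
  (4,2),(8,1),(0,5),(9,0),(0,3)]⟩ ⟨2,[(0,1),(7,0),(19,0),(4,0),(6,1)]⟩)) (by decide +kernel)
  (by decide +kernel) cl2 (.h (Helper55.TR.GT.lJ Helper55.CD.Dm1_1_c0u_100_2.g 356588873565705568519466311969485174052603149443433976444856248707499431661693339856126219788501471563080341402792468928778570278633219140306388454855148787273288408905811823420638066189034499 (by decide +kernel)))

theorem cl4 : Clo K (Helper55.TR.GT 1 Helper55.TR.BrU) r15 :=
  .i [n0,n0,m1,m1,n0,n0,n0,m2,n0,m1] (e' := [n1,n0,n1,n1,n0,n0,n0,n2,n0,n1]) (by decide +kernel)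
  (by decide +kernel) cl3 (.h (Helper55.TR.GT.lJ Helper55.CD.Dm1_1_c0u_100_3.g 305001031112629758749839243381927402674413335554475934480274365407132749739178205954568009571461880572000259038108130493056831841151107590825894118348161321574462806875253507074 (by decide +kernel)))

theorem cl5 : Clo K (Helper55.TR.GT 1 Helper55.TR.BrU) l14 :=
  .q [n0,n0,n0,n0,n0,n1,n0,n0,n0,n0,n0,n1,m1] (e' := [n0,n0,n0,n0,n0,m1,n0,n0,n0,n0,n0,m1,n1]) (.p false [0,0,-1,1] [] (⟨0,
  [(2,0)]⟩,⟨0,[(17,0),(2,0)]⟩) .k 0 (⟨0,[]⟩,⟨0,[]⟩) .k (.r 0 ⟨10,[(0,2),(23,7),(2,2),(0,2),(5,0),(3,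
  1),(7,1),(1,0)]⟩ ⟨11,[(6,7),(8,5),(2,2),(6,5),(0,7),(4,7),(0,2),(4,3)]⟩)) (by decide +kernel)
  (by decide +kernel) (.t t11 ok11) cl4

theorem cl6 : Clo K (Helper55.TR.GT 1 Helper55.TR.BrU) l20 :=
  .i [n0,n1,n0,n0,n0,n0,n0,n1,n0,m2] (e' := [n1,m1,n0,n0,n0,n0,n0,m1,n0,n2]) (by decide +kernel) (by decide +kernel)
  (.t t13 ok13) (.h (Helper55.TR.GT.lJ Helper55.CD.Dm1_1_c0u_100_4.g 151826738697402484730315239782701084197429098550659828956855035943791707548347051857105070767369570769353712766225546862270472272882354315781067803388537215805362646249143572433928430815283225 (by decide +kernel)))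

theorem cl7 : Clo K (Helper55.TR.GT 1 Helper55.TR.BrU) l23 :=
  .i [n0,n1,m1,m1,n0,n0,n0,m1,n0,m1] (e' := [n1,m1,n1,n1,n0,n0,n0,n1,n0,n1]) (by decide +kernel)
  (by decide +kernel) (.t t15 ok15) (.h (Helper55.TR.GT.lJ Helper55.CD.Dm1_1_c0u_100_5.g 339529024441867857711465163919138628297244646346861532855704282927710994470862128424800425324530125580913709844806427166212985001128824752433564183727197777209140959555974962772702400623619 (by decide +kernel)))

theorem cl8 : Clo K (Helper55.TR.GT 1 Helper55.TR.BrU) r22 :=
  .i [n0,n0,m1,m1,n0,n0,n0,m2,n0,m1] (e' := [n1,n0,n1,n1,n0,n0,n0,n2,n0,n1]) (by decide +kernel)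
  (by decide +kernel) cl7 (.h (Helper55.TR.GT.lb Helper55.CD.Dm1_1_c0u_100_6.g 49113429272686179140547687281186365325684897748619103862294793876317641448805922523842972459364013292688628414530918056184526591535441678488780283868670887732054814909440 (by decide +kernel)))

theorem cl9 : Clo K (Helper55.TR.GT 1 Helper55.TR.BrU) r20 :=
  .q [n0,n0,n0,n0,n0,n1,n0,n0,n0,n0,n0,n1,m1] (e' := [n0,n0,n0,n0,n0,m1,n0,n0,n0,n0,n0,m1,n1]) (.p false [0,0,-1,1] [] (⟨0,
  [(4,0)]⟩,⟨0,[(19,0),(2,0)]⟩) .k 0 (⟨0,[]⟩,⟨0,[]⟩) .k (.r 0 ⟨6,[(21,0),(4,6),(2,1),(0,2),(4,1),(0,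
  1),(5,1)]⟩ ⟨27,[(2,2),(5,15),(8,14),(2,6),(6,15),(0,15),(4,22),(5,8)]⟩)) (by decide +kernel)
  (by decide +kernel) (.t t14 ok14) cl8

theorem cl10 : Clo K (Helper55.TR.GT 1 Helper55.TR.BrU) l19 :=
  .q [n0,n0,n0,n0,n0,n0,n1,n1,m2,m2,n1,n1,m2] (e' := [n0,n0,n0,n0,n0,n0,m1,m1,n2,n2,m1,m1,n2]) (.p false [0,0,0,1] [1,
  0,1,-1] (⟨0,[(44,0)]⟩,⟨0,[(21,0)]⟩) .k 2 (⟨0,[(18,0),(2,0)]⟩,⟨0,[(3,0)]⟩) .k (.r 0 ⟨0,[(25,1),(2,
  0),(0,0),(5,0),(4,0)]⟩ ⟨83,[(1,8),(5,75),(8,44),(2,20),(6,47),(0,75),(4,96),(5,82)]⟩))
  (by decide +kernel) (by decide +kernel) cl6 cl9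

theorem cl11 : Clo K (Helper55.TR.GT 1 Helper55.TR.BrU) l25 :=
  .i [n1,n1,m1,n0,n0,n0,n0,m1,n0,m1] (e' := [n0,m1,n1,n0,n0,n0,n0,n1,n0,n1]) (by decide +kernel)
  (by decide +kernel) (.t t16 ok16) (.h (Helper55.TR.GT.lJ Helper55.CD.Dm1_1_c0u_100_7.g 300356705317897304075867191013430039760648451247552831487935005810926496298052580251785873932947614155071992665233881717710338236155526843596397291584001835036016697202156307145256363640834 (by decide +kernel)))

theorem cl12 : Clo K (Helper55.TR.GT 1 Helper55.TR.BrU) r19 :=
  .q [n0,n0,n0,n0,n0,m1,n0,n0,n0,n0,n0,m1,n1] (e' := [n0,n0,n0,n0,n0,n1,n0,n0,n0,n0,n0,n1,m1]) (.p true [0,0,-1,1] [] (⟨0,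
  [(3,0)]⟩,⟨0,[(18,0),(2,0)]⟩) .k 0 (⟨0,[]⟩,⟨0,[]⟩) .k (.r 0 ⟨6,[(20,0),(4,6),(2,1),(0,2),(4,1),(0,
  1),(5,1)]⟩ ⟨49,[(0,17),(0,5),(5,7),(8,20),(2,7),(6,25),(0,43),(2,8),(1,33)]⟩))
  (by decide +kernel) (by decide +kernel) cl11 (.t t17 ok17)

theorem cl13 : Clo K (Helper55.TR.GT 1 Helper55.TR.BrU) r14 :=
  .q [n0,n0,n0,m1,n0,n0,m1,m1,n2,n2,m1,m1,n2] (e' := [n0,n0,n0,n1,n0,n0,n1,n1,m2,m2,n1,n1,m2]) (.p true [0,0,0,1] [1,
  0,1,-1] (⟨0,[(43,0)]⟩,⟨0,[(20,0)]⟩) .k 2 (⟨0,[(17,0),(2,0)]⟩,⟨0,[(2,0)]⟩) .k (.r 0 ⟨0,[(24,1),(2,
  0),(0,0),(5,0),(4,0)]⟩ ⟨83,[(0,8),(5,75),(8,44),(2,20),(6,47),(0,75),(4,96),(5,82)]⟩))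
  (by decide +kernel) (by decide +kernel) cl10 cl12

theorem cl14 : Clo K (Helper55.TR.GT 1 Helper55.TR.BrU) r13 :=
  .i [n1,n0,m3,m3,n1,n0,n0,m1,n0,n1] (e' := [n0,n0,n3,n3,m1,n0,n0,n1,n0,m1]) (by decide +kernel)
  (by decide +kernel) cl5 cl13

theorem cl15 : Clo K (Helper55.TR.GT 1 Helper55.TR.BrU) r12 :=
  .q [n0,m1,n0,m1,n0,n0,n0,n0,m1,m1,n1,n0,m1] (e' := [n0,n1,n0,n1,n0,n0,n0,n0,n1,n1,m1,n0,n1]) (.p false [0,0,0,1] [1]
  (⟨0,[(41,0)]⟩,⟨0,[(18,0)]⟩) .k 1 (⟨0,[]⟩,⟨0,[]⟩) .k .k) (by decide +kernel) (by decide +kernel)
  (.t t10 ok10) cl14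

theorem cl16 : Clo K (Helper55.TR.GT 1 Helper55.TR.BrU) l11 :=
  .q [n0,n0,n0,n0,n0,n0,n0,n0,n0,n0,n0,n1,m1] (e' := [n0,n0,n0,n0,n0,n0,n0,n0,n0,n0,n0,m1,n1]) (.ed true [1,0,-1,1] (.r 0
  ⟨6,[(16,0),(4,6),(2,1),(0,2),(4,1),(0,1),(5,1)]⟩ ⟨11,[(3,7),(8,5),(2,2),(6,5),(0,7),(4,7),(0,2),
  (4,3)]⟩)) (by decide +kernel) (by decide +kernel) (.t t9 ok9) cl15

theorem cl17 : Clo K (Helper55.TR.GT 1 Helper55.TR.BrU) l31 :=
  .q [n0,n0,n1,n0,n0,n0,m2,n0,n0,n0,n2,m2] (e' := [n0,n0,m1,n0,n0,n0,n2,n0,n0,n0,m2,n2]) (.p true [1,0,-1,1] [-1,0,1,1]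
  (⟨0,[(16,0),(28,0)]⟩,⟨0,[(1,0)]⟩) .k 2 (⟨0,[(7,0)]⟩,⟨0,[(16,0),(5,0)]⟩) .k (.r 0 ⟨0,[(42,1)]⟩ ⟨2,
  [(17,0),(9,1),(10,1),(7,1)]⟩)) (by decide +kernel) (by decide +kernel) (.t t20 ok20) (.h (Helper55.TR.GT.lJ Helper55.CD.Dm1_1_c0u_100_8.g 361261995648551925561854232913184397515793895208051667554951170722236118330172927707633465188181778540764643588862930523497659911143786960858487189953620881256046491092162116821658465747345408 (by decide +kernel)))

theorem cl18 : Clo K (Helper55.TR.GT 1 Helper55.TR.BrU) l30 :=
  .q [n0,m1,n0,n0,n0,n0,m1,m1,n1,n1,n1,m1,n1] (e' := [n0,n1,n0,n0,n0,n0,n1,n1,m1,m1,m1,n1,m1]) (.p true [1,0,-1,1] []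
  (⟨0,[(15,0),(28,0)]⟩,⟨0,[(0,0)]⟩) .k 0 (⟨0,[]⟩,⟨0,[]⟩) .k (.r 0 ⟨6,[(20,0),(4,6),(2,1),(0,2),(4,
  1),(0,1),(5,1)]⟩ ⟨3,[(3,1),(3,1),(8,1),(2,0),(6,1),(0,1),(5,2)]⟩)) (by decide +kernel)
  (by decide +kernel) cl17 (.h (Helper55.TR.GT.lJ Helper55.CD.Dm1_1_c0u_100_9.g 340256236840590087972718092136409981400786452665864800855787559654505450266833368261983755849197740794140269981140401614708628564318622464868252093778926792871709169738743039132538244114 (by decide +kernel)))

theorem cl19 : Clo K (Helper55.TR.GT 1 Helper55.TR.BrU) r30 :=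
  .q [n0,n0,n0,n0,n0,n1,n0,n0,n0,n0,n0,n1,m1] (e' := [n0,n0,n0,n0,n0,m1,n0,n0,n0,n0,n0,m1,n1]) (.p false [0,0,-1,1] [] (⟨0,
  [(0,0)]⟩,⟨0,[(18,0),(2,0)]⟩) .k 0 (⟨0,[]⟩,⟨0,[]⟩) .k (.r 0 ⟨6,[(20,0),(4,6),(2,1),(0,2),(4,1),(0,
  1),(5,1)]⟩ ⟨3,[(3,1),(3,1),(8,1),(2,0),(6,1),(0,1),(5,2)]⟩)) (by decide +kernel)
  (by decide +kernel) (.t t21 ok21) (.h (Helper55.TR.GT.lJ Helper55.CD.Dm1_1_c0u_100_10.g 51498891447258780883810127383105996768055681223998389803425204598694562467040491414082229302032469213583215870450822393152754475360208816964825596362345575744932250905862998065 (by decide +kernel)))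

theorem cl20 : Clo K (Helper55.TR.GT 1 Helper55.TR.BrU) r29 :=
  .q [n0,n0,n0,n0,n0,n0,n0,n0,n0,n0,n0,n1,m1] (e' := [n0,n0,n0,n0,n0,n0,n0,n0,n0,n0,n0,m1,n1]) (.ed true [1,0,-1,1] (.r 0
  ⟨6,[(19,0),(4,6),(2,1),(0,2),(4,1),(0,1),(5,1)]⟩ ⟨3,[(2,1),(3,1),(8,1),(2,0),(6,1),(0,1),(5,
  2)]⟩)) (by decide +kernel) (by decide +kernel) cl18 cl19

theorem cl21 : Clo K (Helper55.TR.GT 1 Helper55.TR.BrU) r28 :=
  .q [n0,m1,n0,m1,n0,n0,n0,n0,m1,m1,n1,n0,m1] (e' := [n0,n1,n0,n1,n0,n0,n0,n0,n1,n1,m1,n0,n1]) (.p false [0,0,0,1] [1]
  (⟨0,[(42,0)]⟩,⟨0,[(19,0)]⟩) .k 1 (⟨0,[]⟩,⟨0,[]⟩) .k .k) (by decide +kernel) (by decide +kernel)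
  (.t t19 ok19) cl20

theorem cl22 : Clo K (Helper55.TR.GT 1 Helper55.TR.BrU) l27 :=
  .q [n0,n0,n1,n0,n0,n0,m2,n0,m1,n0,n2,m2,m1] (e' := [n0,n0,m1,n0,n0,n0,n2,n0,n1,n0,m2,n2,n1]) (.p false [0,0,1] [2,0,
  -1,-1] (⟨0,[(15,0)]⟩,⟨0,[(12,0)]⟩) .k 2 (⟨0,[(12,0),(5,0)]⟩,⟨0,[(3,0)]⟩) .k (.r (-1) ⟨9,[(8,7),(4,
  2),(8,1),(0,5),(9,0),(0,3)]⟩ ⟨0,[(0,0),(35,0)]⟩)) (by decide +kernel) (by decide +kernel) (.t t18
  ok18) cl21

theorem cl23 : Clo K (Helper55.TR.GT 1 Helper55.TR.BrU) r37 :=
  .i [n1,n0,n1,n1,n0,n0,n0,n1,n0,n2] (e' := [n0,n0,m1,m1,n0,n0,n0,m1,n0,m2]) (by decide +kernel)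
  (by decide +kernel) (.h (Helper55.TR.GT.lJ Helper55.CD.Dm1_1_c0u_100_11.g 151657310109408740132070109088102421552826359285325121690482336152126611683262150122384085006916321402289821518773214166016680199728153993867448915963457390800746271583296845056168369323025426 (by decide +kernel))) (.h (Helper55.TR.GT.lJ Helper55.CD.Dm1_1_c0u_100_12.g 104719498933105779920232068593364905743778795258466604837544136483121237446770361577484260258353044897662910312205342767861375544394860051397522423528640339941145382141101563993126688799746 (by decide +kernel)))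

theorem cl24 : Clo K (Helper55.TR.GT 1 Helper55.TR.BrU) r36 :=
  .q [n0,n0,n0,n0,n0,n1,n0,n0,n0,n0,n0,n1,m1] (e' := [n0,n0,n0,n0,n0,m1,n0,n0,n0,n0,n0,m1,n1]) (.p false [0,0,-1,1] [] (⟨0,
  [(1,0)]⟩,⟨0,[(18,0),(2,0)]⟩) .k 0 (⟨0,[]⟩,⟨0,[]⟩) .k (.r 0 ⟨6,[(20,0),(4,6),(2,1),(0,2),(4,1),(0,
  1),(5,1)]⟩ ⟨11,[(7,7),(8,5),(2,2),(6,5),(0,7),(4,7),(0,2),(4,3)]⟩)) (by decide +kernel)
  (by decide +kernel) (.t t24 ok24) cl23

theorem cl25 : Clo K (Helper55.TR.GT 1 Helper55.TR.BrU) r35 :=
  .q [n0,m1,n0,m1,n0,n0,n0,n0,m1,m1,n1,n0,m1] (e' := [n0,n1,n0,n1,n0,n0,n0,n0,n1,n1,m1,n0,n1]) (.p false [0,0,0,1] [1]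
  (⟨0,[(43,0)]⟩,⟨0,[(20,0)]⟩) .k 1 (⟨0,[]⟩,⟨0,[]⟩) .k .k) (by decide +kernel) (by decide +kernel)
  (.t t23 ok23) cl24

theorem cl26 : Clo K (Helper55.TR.GT 1 Helper55.TR.BrU) l34 :=
  .q [n0,n0,n0,n0,n0,n0,n0,n0,n0,n0,n0,n1,m1] (e' := [n0,n0,n0,n0,n0,n0,n0,n0,n0,n0,n0,m1,n1]) (.ed true [1,0,-1,1] (.r 0
  ⟨6,[(18,0),(4,6),(2,1),(0,2),(4,1),(0,1),(5,1)]⟩ ⟨11,[(5,7),(8,5),(2,2),(6,5),(0,7),(4,7),(0,2),
  (4,3)]⟩)) (by decide +kernel) (by decide +kernel) (.t t22 ok22) cl25

theorem cl27 : Clo K (Helper55.TR.GT 1 Helper55.TR.BrU) l39 :=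
  .q [n0,n0,n1,n0,n0,n0,m2,n0,m1,n0,n2,m2,m1] (e' := [n0,n0,m1,n0,n0,n0,n2,n0,n1,n0,m2,n2,n1]) (.p false [0,0,1] [2,0,
  -1,-1] (⟨0,[(17,0)]⟩,⟨0,[(14,0)]⟩) .k 2 (⟨0,[(14,0),(5,0)]⟩,⟨0,[(5,0)]⟩) .k (.r (-1) ⟨9,[(10,7),
  (4,2),(8,1),(0,5),(9,0),(0,3)]⟩ ⟨5,[(0,5),(17,0),(8,0),(0,2),(0,0),(8,2)]⟩)) (by decide +kernel)
  (by decide +kernel) (.t t25 ok25) (.h (Helper55.TR.GT.lb Helper55.CD.Dm1_1_c0u_100_13.g 50690373103894671608499912006109911188890826309957920744243192231235404619992625920414237774548767005874218547521384903566722328084690557756624573978953656499701763 (by decide +kernel)))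

theorem cl28 : Clo K (Helper55.TR.GT 1 Helper55.TR.BrU) r39 :=
  .i [n1,n0,m1,m1,n0,n0,n0,m1,n0,m2] (e' := [n0,n0,n1,n1,n0,n0,n0,n1,n0,n2]) (by decide +kernel)
  (by decide +kernel) (.t t26 ok26) (.h (Helper55.TR.GT.lJ Helper55.CD.Dm1_1_c0u_100_14.g 352315966188323278417151770216812740259342229568562900518067741141475919869678757717272137785130572324129592796557399565034993703783933804674856164025835896409458403014708966580177561774476336 (by decide +kernel)))

theorem cl29 : Clo K (Helper55.TR.GT 1 Helper55.TR.BrU) r34 :=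
  .i [n0,n1,m1,m1,n0,n0,n0,m1,n0,m1] (e' := [n1,m1,n1,n1,n0,n0,n0,n1,n0,n1]) (by decide +kernel)
  (by decide +kernel) cl27 cl28

theorem cl30 : Clo K (Helper55.TR.GT 1 Helper55.TR.BrU) r27 :=
  .q [n0,n0,n0,n0,n0,n1,n0,n0,n0,n0,n0,m1,n1] (e' := [n0,n0,n0,n0,n0,m1,n0,n0,n0,n0,n0,n1,m1]) (.p false [0,0,1] [0,0,0,1]
  (⟨0,[(15,0)]⟩,⟨0,[(12,0)]⟩) .k 2 (⟨0,[(41,0)]⟩,⟨0,[(18,0)]⟩) .k (.r (-1) ⟨11,[(4,7),(8,5),(2,2),
  (6,5),(0,7),(4,7),(0,2),(4,3)]⟩ ⟨6,[(17,0),(4,6),(2,1),(0,2),(4,1),(0,1),(5,1)]⟩))
  (by decide +kernel) (by decide +kernel) cl26 cl29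

theorem cl31 : Clo K (Helper55.TR.GT 1 Helper55.TR.BrU) r11 :=
  .i [n1,n1,m1,n0,n0,n0,n0,m1,n0,m1] (e' := [n0,m1,n1,n0,n0,n0,n0,n1,n0,n1]) (by decide +kernel)
  (by decide +kernel) cl22 cl30

theorem cl32 : Clo K (Helper55.TR.GT 1 Helper55.TR.BrU) r8 :=
  .q [n0,n0,n0,m2,n0,n0,n0,n0,n1,n1,n0,n0,n1] (e' := [n0,n0,n0,n2,n0,n0,n0,n0,m1,m1,n0,n0,m1]) (.p true [0,0,0,1] [] (⟨0,
  [(39,0)]⟩,⟨0,[(16,0)]⟩) .k 0 (⟨0,[]⟩,⟨0,[]⟩) .k .k) (by decide +kernel) (by decide +kernel) cl16
  cl31

theorem cl33 : Clo K (Helper55.TR.GT 1 Helper55.TR.BrU) l7 :=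
  .i [n0,n1,m1,m2,n0,n0,n0,m1] (e' := [n1,m1,n1,n2,n0,n0,n0,n1]) (by decide +kernel) (by decide +kernel) cl1
  cl32

theorem cl34 : Clo K (Helper55.TR.GT 1 Helper55.TR.BrU) l42 :=
  .q [n0,n0,n1,n0,n0,n0,m2,n0,n0,n0,n1,m2] (e' := [n0,n0,m1,n0,n0,n0,n2,n0,n0,n0,m1,n2]) (.p false [0,0,1] [1,0,-1] (⟨0,
  [(13,0)]⟩,⟨0,[(10,0)]⟩) .k 2 (⟨0,[(10,0)]⟩,⟨0,[(13,0)]⟩) .k (.r (-1) ⟨2,[(11,0),(9,1),(10,1),(7,
  1)]⟩ ⟨0,[(36,1)]⟩)) (by decide +kernel) (by decide +kernel) (.t t27 ok27) (.h (Helper55.TR.GT.lJ Helper55.CD.Dm1_1_c0u_100_15.g 64863997935333513447722422202398474016750781946153667757705851712951960598685197575667381594073146034541426905141035475379568368857300312566499422554574315258702679642649667840000 (by decide +kernel)))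

theorem cl35 : Clo K (Helper55.TR.GT 1 Helper55.TR.BrU) r45 :=
  .q [n0,n0,n0,n0,n0,n1,n0,n0,n0,n0,n0,n1,m1] (e' := [n0,n0,n0,n0,n0,m1,n0,n0,n0,n0,n0,m1,n1]) (.p false [0,0,-1,1] [] (⟨0,
  [(1,0)]⟩,⟨0,[(15,0),(2,0)]⟩) .k 0 (⟨0,[]⟩,⟨0,[]⟩) .k (.r 0 ⟨6,[(17,0),(4,6),(2,1),(0,2),(4,1),(0,
  1),(5,1)]⟩ ⟨11,[(4,7),(8,5),(2,2),(6,5),(0,7),(4,7),(0,2),(4,3)]⟩)) (by decide +kernel)
  (by decide +kernel) (.t t29 ok29) (.h (Helper55.TR.GT.lJ Helper55.CD.Dm1_1_c0u_100_16.g 323048377894920004863528123391466684224689078587611502546659116410768454630932072187461596959379353486439488411893839178237539837575237046109935163238862135950833286450279275215710064641 (by decide +kernel)))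

theorem cl36 : Clo K (Helper55.TR.GT 1 Helper55.TR.BrU) l44 :=
  .q [n0,m1,n0,m1,n0,n0,n0,n0,m1,m1,n1,n0,m1] (e' := [n0,n1,n0,n1,n0,n0,n0,n0,n1,n1,m1,n0,n1]) (.p false [0,0,0,1] [1]
  (⟨0,[(40,0)]⟩,⟨0,[(17,0)]⟩) .k 1 (⟨0,[]⟩,⟨0,[]⟩) .k .k) (by decide +kernel) (by decide +kernel)
  (.t t28 ok28) cl35

theorem cl37 : Clo K (Helper55.TR.GT 1 Helper55.TR.BrU) l49 :=
  .i [n0,n0,n2,n1,m1,n0,n0,m1,n0,m1] (e' := [n1,n0,m2,m1,n1,n0,n0,n1,n0,n1]) (by decide +kernel)
  (by decide +kernel) (.t t32 ok32) (.h (Helper55.TR.GT.lJ Helper55.CD.Dm1_1_c0u_100_17.g 340568589119591018932699988232700372416897594935165872302998792519179560410981054170657132302465955181322771236235307679132424349154718180040963743454127092117924330639780369527775271 (by decide +kernel)))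

theorem cl38 : Clo K (Helper55.TR.GT 1 Helper55.TR.BrU) l52 :=
  .i [n0,n1,n2,n1,m1,n0,n0,m1] (e' := [n1,m1,m2,m1,n1,n0,n0,n1]) (by decide +kernel) (by decide +kernel) (.t
  t33 ok33) (.h (Helper55.TR.GT.lJ Helper55.CD.Dm1_1_c0u_100_18.g 286624878585614548211916204885789019941358205702736172240153057206299547553817418698054481709638932632794502658206657050379364877654990004362844555396426953143406797376950492124455938 (by decide +kernel)))

theorem cl39 : Clo K (Helper55.TR.GT 1 Helper55.TR.BrU) r56 :=
  .i [n1,n0,n1,n1,m1,n0,n0,m2,n0,m2] (e' := [n0,n0,m1,m1,n1,n0,n0,n2,n0,n2]) (by decide +kernel)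
  (by decide +kernel) (.t t35 ok35) (.h (Helper55.TR.GT.lJ Helper55.CD.Dm1_1_c0u_100_19.g 387004914037506701673608944782279102579072238670924314620413523472787007229155779830592583797280140123319653030624159665684021278380549325266665156970737654314292645418335237273085292562 (by decide +kernel)))

theorem cl40 : Clo K (Helper55.TR.GT 1 Helper55.TR.BrU) l55 :=
  .i [n0,n1,m1,n0,n0,n0,n0,m1,n0,m1] (e' := [n1,m1,n1,n0,n0,n0,n0,n1,n0,n1]) (by decide +kernel)
  (by decide +kernel) (.t t34 ok34) cl39

theorem cl41 : Clo K (Helper55.TR.GT 1 Helper55.TR.BrU) l54 :=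
  .q [n0,n0,n1,n0,n0,n0,m2,n0,n0,n0,n1,m2] (e' := [n0,n0,m1,n0,n0,n0,n2,n0,n0,n0,m1,n2]) (.p false [0,0,1] [1,0,-1] (⟨0,
  [(20,0)]⟩,⟨0,[(17,0)]⟩) .k 2 (⟨0,[(17,0)]⟩,⟨0,[(20,0)]⟩) .k (.r (-1) ⟨2,[(18,0),(9,1),(10,1),(7,
  1)]⟩ ⟨0,[(43,1)]⟩)) (by decide +kernel) (by decide +kernel) cl40 (.h (Helper55.TR.GT.lJ Helper55.CD.Dm1_1_c0u_100_20.g 336443382995212048740619077327263894502814851026630594756217798191896615759475039656410657781461144075086979690650774962962563305831136028495724944857294271646622884188161960841322498 (by decide +kernel)))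

theorem cl42 : Clo K (Helper55.TR.GT 1 Helper55.TR.BrU) l58 :=
  .i [n1,n0,m3,m3,n1,n0,n0,n0,n0,m1] (e' := [n0,n0,n3,n3,m1,n0,n0,n0,n0,n1]) (by decide +kernel)
  (by decide +kernel) (.t t36 ok36) (.h (Helper55.TR.GT.lJ Helper55.CD.Dm1_1_c0u_100_21.g 340223247389503951707475185624893943336424579703538790030504246727471986336188077109666519578014893156901348876712692160660164221110723373897353178259492855384212116995951564845495618560 (by decide +kernel)))

theorem cl43 : Clo K (Helper55.TR.GT 1 Helper55.TR.BrU) r54 :=
  .i [n1,n0,n3,n3,m1,n0,n0,n0,n0,n1] (e' := [n0,n0,m3,m3,n1,n0,n0,n0,n0,m1]) (by decide +kernel)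
  (by decide +kernel) cl42 (.h (Helper55.TR.GT.lJ Helper55.CD.Dm1_1_c0u_100_22.g 383487164442323189942940092233323182318028855585266169606580047243608494087674996272228390880920266302934122066229971918535987226458304823617425818483814441504502313154025089413306627547317602912275 (by decide +kernel)))

theorem cl44 : Clo K (Helper55.TR.GT 1 Helper55.TR.BrU) r52 :=
  .q [n0,n0,n0,n0,n0,n1,n0,n0,n0,n0,m1,n1,n1] (e' := [n0,n0,n0,n0,n0,m1,n0,n0,n0,n0,n1,m1,m1]) (.p true [0,0,1,1] [1] (⟨0,
  [(19,0),(25,0)]⟩,⟨0,[(7,0)]⟩) .k 1 (⟨0,[]⟩,⟨0,[]⟩) .k (.r (-1) ⟨2,[(17,1),(8,2),(0,0),(10,0),(7,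
  0)]⟩ ⟨2,[(8,0),(19,0),(4,0),(5,1),(2,2)]⟩)) (by decide +kernel) (by decide +kernel) cl41 cl43

theorem cl45 : Clo K (Helper55.TR.GT 1 Helper55.TR.BrU) l51 :=
  .q [n0,n0,m2,n0,n1,n0,m2,n0,n1,n0,n1,m2,n1] (e' := [n0,n0,n2,n0,m1,n0,n2,n0,m1,n0,m1,n2,m1]) (.p false [0,0,1] [1,0,
  -1,1] (⟨0,[(18,0)]⟩,⟨0,[(15,0)]⟩) .k 2 (⟨0,[(15,0),(28,0)]⟩,⟨0,[(4,0)]⟩) .k (.r (-1) ⟨8,[(7,6),(8,
  2),(9,5),(0,6),(4,0),(0,5),(4,1)]⟩ ⟨2,[(0,0),(0,0),(23,2),(2,0),(5,0),(6,3)]⟩))
  (by decide +kernel) (by decide +kernel) cl38 cl44

theorem cl46 : Clo K (Helper55.TR.GT 1 Helper55.TR.BrU) l61 :=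
  .i [n0,n1,m1,n0,n0,n0,n0,m1,n0,m1] (e' := [n1,m1,n1,n0,n0,n0,n0,n1,n0,n1]) (by decide +kernel)
  (by decide +kernel) (.t t37 ok37) (.h (Helper55.TR.GT.lJ Helper55.CD.Dm1_1_c0u_100_23.g 360802751044317355226313559946269463242879164742493289114675067244833394868623779206160708127645716363536030616753345644071084371696076247827828269175277803465038027887096753375469631076252587010 (by decide +kernel)))

theorem cl47 : Clo K (Helper55.TR.GT 1 Helper55.TR.BrU) l60 :=
  .q [n0,n0,n1,n0,n0,n0,m2,n0,m1,n0,n1,m2,m1] (e' := [n0,n0,m1,n0,n0,n0,n2,n0,n1,n0,m1,n2,n1]) (.p false [0,0,1] [1,0,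
  -1,-1] (⟨0,[(19,0)]⟩,⟨0,[(16,0)]⟩) .k 2 (⟨0,[(7,0)]⟩,⟨0,[(19,0),(25,0)]⟩) .k (.r (-1) ⟨9,[(12,7),
  (4,2),(8,1),(0,5),(9,0),(0,3)]⟩ ⟨2,[(8,0),(19,0),(4,0),(5,1),(2,5)]⟩)) (by decide +kernel)
  (by decide +kernel) cl46 (.h (Helper55.TR.GT.lJ Helper55.CD.Dm1_1_c0u_100_24.g 134031092140429055782100596003720271581157728784816863265427556258739516492474799897497115300888597619327023293035310215402008189342448598433767390412533327501458563356125039987292210902074372 (by decide +kernel)))

theorem cl48 : Clo K (Helper55.TR.GT 1 Helper55.TR.BrU) r51 :=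
  .q [n0,n0,n0,n0,n0,n1,n0,n0,n0,n0,m1,n1,n1] (e' := [n0,n0,n0,n0,n0,m1,n0,n0,n0,n0,n1,m1,m1]) (.p true [0,0,1,1] [1] (⟨0,
  [(18,0),(25,0)]⟩,⟨0,[(6,0)]⟩) .k 1 (⟨0,[]⟩,⟨0,[]⟩) .k (.r (-1) ⟨2,[(16,1),(8,2),(0,0),(10,0),(7,
  0)]⟩ ⟨2,[(7,0),(19,0),(4,0),(5,1),(2,2)]⟩)) (by decide +kernel) (by decide +kernel) cl47 (.h
  (Helper55.TR.GT.lJ Helper55.CD.Dm1_1_c0u_100_25.g 132663115836800583835844356369027437574861137744901959351581991265969021829325269959020653753341227993160506119609114205570574089569786317570197933703220124023902380488384414350363661815703942195 (by decide +kernel)))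

theorem cl49 : Clo K (Helper55.TR.GT 1 Helper55.TR.BrU) r49 :=
  .q [n0,m1,n0,n0,n0,n0,m1,m1,n1,n1,n1,m1,n1] (e' := [n0,n1,n0,n0,n0,n0,n1,n1,m1,m1,m1,n1,m1]) (.p true [1,0,-1,1] []
  (⟨0,[(14,0),(28,0)]⟩,⟨0,[(3,0)]⟩) .k 0 (⟨0,[]⟩,⟨0,[]⟩) .k (.r 0 ⟨6,[(19,0),(4,6),(2,1),(0,2),(4,
  1),(0,1),(5,1)]⟩ ⟨11,[(6,7),(8,5),(2,2),(6,5),(0,7),(4,7),(0,2),(4,3)]⟩)) (by decide +kernel)
  (by decide +kernel) cl45 cl48

theorem cl50 : Clo K (Helper55.TR.GT 1 Helper55.TR.BrU) r48 :=
  .q [n0,n1,n0,m2,n0,n0,n1,n1,n1,n1,n0,n1,n1] (e' := [n0,m1,n0,n2,n0,n0,m1,m1,m1,m1,n0,m1,m1]) (.p true [0,0,1,1] []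
  (⟨0,[(16,0),(25,0)]⟩,⟨0,[(4,0)]⟩) .k 0 (⟨0,[]⟩,⟨0,[]⟩) .k (.r (-1) ⟨2,[(14,1),(8,2),(0,0),(10,0),
  (7,0)]⟩ ⟨2,[(5,0),(19,0),(4,0),(5,1),(2,2)]⟩)) (by decide +kernel) (by decide +kernel) cl37 cl49

theorem cl51 : Clo K (Helper55.TR.GT 1 Helper55.TR.BrU) r47 :=
  .q [n0,n0,n0,n0,n0,n1,n0,n0,n0,n0,n0,m1,n1] (e' := [n0,n0,n0,n0,n0,m1,n0,n0,n0,n0,n0,n1,m1]) (.p true [1,0,-1,1] [1] (⟨0,
  [(12,0),(28,0)]⟩,⟨0,[(1,0)]⟩) .k 1 (⟨0,[]⟩,⟨0,[]⟩) .k (.r 0 ⟨6,[(17,0),(4,6),(2,1),(0,2),(4,1),(0,
  1),(5,1)]⟩ ⟨11,[(4,7),(8,5),(2,2),(6,5),(0,7),(4,7),(0,2),(4,3)]⟩)) (by decide +kernel)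
  (by decide +kernel) (.t t31 ok31) cl50

theorem cl52 : Clo K (Helper55.TR.GT 1 Helper55.TR.BrU) r44 :=
  .q [n0,n0,n0,m2,n0,n0,n0,n0,n1,n1,n0,n0,n1] (e' := [n0,n0,n0,n2,n0,n0,n0,n0,m1,m1,n0,n0,m1]) (.p true [0,0,0,1] [] (⟨0,
  [(40,0)]⟩,⟨0,[(17,0)]⟩) .k 0 (⟨0,[]⟩,⟨0,[]⟩) .k .k) (by decide +kernel) (by decide +kernel) (.t
  t30 ok30) cl51

theorem cl53 : Clo K (Helper55.TR.GT 1 Helper55.TR.BrU) r42 :=
  .q [n0,n0,n0,n0,n0,n0,n0,n0,n0,n0,n0,m1,n1] (e' := [n0,n0,n0,n0,n0,n0,n0,n0,n0,n0,n0,n1,m1]) (.ed false [1,0,-1,1] (.r 0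
  ⟨6,[(15,0),(4,6),(2,1),(0,2),(4,1),(0,1),(5,1)]⟩ ⟨11,[(2,7),(8,5),(2,2),(6,5),(0,7),(4,7),(0,2),
  (4,3)]⟩)) (by decide +kernel) (by decide +kernel) cl36 cl52

theorem cl54 : Clo K (Helper55.TR.GT 1 Helper55.TR.BrU) r7 :=
  .i [n0,n1,m1,m2,n0,n0,n0,m1] (e' := [n1,m1,n1,n2,n0,n0,n0,n1]) (by decide +kernel) (by decide +kernel) cl34
  cl53

theorem cl55 : Clo K (Helper55.TR.GT 1 Helper55.TR.BrU) r6 :=
  .q [n0,n0,n0,n0,n0,n0,n0,n0,n0,n0,m1,n1,n1] (e' := [n0,n0,n0,n0,n0,n0,n0,n0,n0,n0,n1,m1,m1]) (.ed false [0,0,1,1] (.r
  (-1) ⟨2,[(9,1),(8,2),(0,0),(10,0),(7,0)]⟩ ⟨2,[(0,0),(19,0),(4,0),(5,1),(2,2)]⟩))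
  (by decide +kernel) (by decide +kernel) cl33 cl54

theorem cl56 : Clo K (Helper55.TR.GT 1 Helper55.TR.BrU) r5 :=
  .q [n0,m1,n0,m2,n0,n0,m1,m1,n1,n1,n0,m1,n1] (e' := [n0,n1,n0,n2,n0,n0,n1,n1,m1,m1,n0,n1,m1]) (.p false [0,0,1] [0,0,
  0,1] (⟨0,[(10,0)]⟩,⟨0,[(7,0)]⟩) .k 2 (⟨0,[(36,0)]⟩,⟨0,[(13,0)]⟩) .k (.r (-1) ⟨5,[(8,1),(2,2),(6,
  3),(0,5),(3,5),(0,1),(0,0),(3,1)]⟩ ⟨6,[(12,0),(4,6),(2,1),(0,2),(4,1),(0,1),(5,1)]⟩))
  (by decide +kernel) (by decide +kernel) (.t t6 ok6) cl55

theorem cl57 : Clo K (Helper55.TR.GT 1 Helper55.TR.BrU) r4 :=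
  .q [n0,n0,n0,n0,n0,n2,n0,n0,n0,n0,n0,n0,m1] (e' := [n0,n0,n0,n0,n0,m2,n0,n0,n0,n0,n0,n0,n1]) (.p false [0,0,0,1] [] (⟨0,
  [(35,0)]⟩,⟨0,[(12,0)]⟩) .k 0 (⟨0,[]⟩,⟨0,[]⟩) .k .k) (by decide +kernel) (by decide +kernel) (.t
  t5 ok5) cl56

theorem cl58 : Clo K (Helper55.TR.GT 1 Helper55.TR.BrU) r3 :=
  .q [n0,n0,n0,n0,n0,n1,n0,n0,n0,n0,n0,n0,m1] (e' := [n0,n0,n0,n0,n0,m1,n0,n0,n0,n0,n0,n0,n1]) (.ed true [1,-1,0,1] .k)
  (by decide +kernel) (by decide +kernel) (.t t4 ok4) cl57

theorem cl59 : Clo K (Helper55.TR.GT 1 Helper55.TR.BrU) r2 :=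
  .q [n0,n0,n0,n0,n0,n0,n0,n0,m1,n0,n1,n0,m1] (e' := [n0,n0,n0,n0,n0,n0,n0,n0,n1,n0,m1,n0,n1]) (.p false [0,0,0,1] [1] (⟨0,
  [(33,0)]⟩,⟨0,[(10,0)]⟩) .k 1 (⟨0,[]⟩,⟨0,[]⟩) .k .k) (by decide +kernel) (by decide +kernel) (.t
  t3 ok3) cl58

theorem cl60 : Clo K (Helper55.TR.GT 1 Helper55.TR.BrU) r1 :=
  .i [n1,n0,m1,m1,n0,n0,n0,m1,n0,m1] (e' := [n0,n0,n1,n1,n0,n0,n0,n1,n0,n1]) (by decide +kernel)
  (by decide +kernel) (.t t2 ok2) cl59

theorem cl61 : Clo K (Helper55.TR.GT 1 Helper55.TR.BrU) r0 :=
  .q [n0,n0,n0,n0,n0,n2,n0,n0,n0,n0,m1,n0,n1] (e' := [n0,n0,n0,n0,n0,m2,n0,n0,n0,n0,n1,n0,m1]) (.p true [0,0,0,1] [1] (⟨0,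
  [(31,0)]⟩,⟨0,[(8,0)]⟩) .k 1 (⟨0,[]⟩,⟨0,[]⟩) .k .k) (by decide +kernel) (by decide +kernel) (.t t1
  ok1) cl60

theorem cl62 : Clo K (Helper55.TR.GT 1 Helper55.TR.BrU) base :=
  .q [n0,m1,n0,n0,n0,n0,n0,n0,m1,m1,n1,n0,m1] (e' := [n0,n1,n0,n0,n0,n0,n0,n0,n1,n1,m1,n0,n1]) (.p false [0,0,0,1] [1]
  (⟨0,[(30,0)]⟩,⟨0,[(7,0)]⟩) .k 1 (⟨0,[]⟩,⟨0,[]⟩) .k .k) (by decide +kernel) (by decide +kernel)
  (.t t0 ok0) cl61

theorem g : Helper55.TR.GT 1 Helper55.TR.BrU base :=
  Helper55.TR.GT.of cl62

end Helper55.CD.Dm1_1_c0u_100
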