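import Pool.Agent.Helper55.TR.Num
import Pool.Agent.Helper81.PX.Sound
import Pool.Agent.Helper81.PC.Sound
import Pool.Agent.Helper55.TR.Enc2

set_option autoImplicit false
set_option linter.all false

namespace Helper55.CD.Dm1_1_c0u_27_1_3_0_0

open Helper25.KG Helper25.KW Helper55.KE Helper11.CT Helper55.TR.Nm

noncomputable def K : Cls :=
  Helper55.TR.KH 1 [0,0,0,0,0,1]

noncomputable def base : List Con :=
  [(false,[n0,n0,n0,n0,n0,n0,n0,n0,n0,n0,n0,n0,n0,n1]),
  (true,[m1,n1]),
  (false,[n0,n0,n0,n0,n0,n0,n0,n0,n0,n0,n0,n0,n0,n0,n1]),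
  (true,[n1,n0,n0,n0,n0,n0,n0,n0,n0,n0,m1]),
  (false,[n0,n1,n0,n0,n0,n1,n0,n0,n0,n0,n1,m1,n0,n0,n1]),
  (true,[n0,n0,n0,m1]),
  (true,[n0,m2,n0,n0,n1]),
  (false,[n0,n0,n0,n0,n0,m1,n0,n0,n0,n0,n0,n1,n0,n0,m1]),
  (false,[n0,n0,n0,n0,n0,m2,n0,n0,n0,n0,n0,n1,n0,m1]),
  (true,[n0,n0,n0,n0,n1,n0,n0,n0,n0,n0,m2]),
  (false,[n0,n0,n0,n0,n0,n0,n0,n0,n0,n0,n0,n1,n0,n0,m1]),
  (true,[n0,n0,n0,n0,n0,n0,n0,n0,n0,n0,m1]),
  (false,[n0,n0,n2,n0,m1,n0,n1,n0,n0,n0,n0,m1,n1]),
  (true,[n0,n1,n0,n1]),
  (false,[n0,n1,n0,n0,n0,m1,n0,n0,n0,n0,m1,n0,n0,n0,m1]),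
  (true,[n0,n0,n0,n0,n1,n0,n0,n0,n0,n0,n2]),
  (true,[n1,m1,n2,n0,m1,n0,n0,m1]),
  (true,[n0,n0,n0,n0,n0,n0,n0,n0,n0,m1,m1]),
  (true,[n0,n0,n0,n0,n0,n1]),
  (false,[n0,n0,n0,n0,n0,m1,n0,n0,n0,n0,n0,n1]),
  (true,[n1,n1,n0,n0,n0,n0,n0,n0,n0,n1]),
  (false,[n0,n0,n0,n0,n0,n0,n1,n0,m1,n0,n0,n0,n1,m1]),
  (true,[n0,m1,n0,m1,n0,n0,n0,n0,n0,m1]),
  (false,[n0,n0,n0,n0,n0,n0,n0,n0,n0,n0,n0,n1,n0,m1]),
  (false,[n0,n0,n0,n0,n0,m1,n0,n0,n0,n0,n0,n1,n0,m1]),
  (false,[n0,n0,m2,n0,n1,n0,m1,n0,n1,n0,n0,n0,m1,n1]),
  (false,[n0,n0,n0,n0,n0,n0,n0,n0,n1,n0,n0,m1,n0,n1]),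
  (false,[n0,n0,n0,n0,n0,m1,n0,n0,n0,n0,n0,n0,n1]),
  (false,[n0,n0,n0,n1,n0,n0,m1,m1,n1,n1,n0,n0,m1,n1]),
  (false,[n0,n0,n0,n1,n0,n0,m1,m1,n0,n0,n0,n0,m1]),
  (false,[n0,n0,n0,n2,n0,n0,m1,m1,n1,n1,n0,n0,m1,n1]),
  (true,[n1,n1,n0,n0,n0,n0,n0,n1,n0,m2]),
  (false,[n0,n0,n0,n0,n0,m1,n0,n0,n0,n0,n0,n0,n0,n1]),
  (false,[n0,n0,n0,n0,n0,m2,n0,n0,n0,n0,n0,n0,n0,n1]),
  (true,[n0,n0,m2,m2,n1,n0,n0,n0,n0,n1]),
  (false,[n0,n1,n0,n2,n0,n0,n1,n1,m1,m1,n0,n0,n1,m1]),
  (false,[n0,n0,n0,n0,n0,m2,n0,n0,n0,n0,n0,n1]),
  (false,[n0,m1,n0,n1,n0,n0,n0,n0,m2,m2,n0,n1,n0,m2]),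
  (false,[n0,n0,m2,n0,n1,n0,n0,n0,n0,n0,n0,m1]),
  (false,[n0,n0,n0,n0,n0,n0,n0,n0,n0,n0,n0,n0,n1]),
  (false,[n0,n0,n0,n0,n0,n0,n0,n0,n0,n0,n0,n1,m1]),
  (false,[n0,n0,n0,n0,n0,n0,m1,m1,n0,n0,n0,n0,m1]),
  (true,[n0,n0,n0,n0,n0,n0,n0,m1]),
  (false,[n0,n0,n1,n0,n0,n0,m2,n0,n0,n0,n0,n2,m2]),
  (true,[n0,n0,m2,n0,n1]),
  (false,[n0,n0,n0,n0,n0,n1,n0,n0,n0,n0,n0,m1,n1]),
  (true,[n0,n0,n0,m1,n0,n0,n0,m1]),
  (true,[n0,n0,n3,n3,m1,n0,n0,n1,n0,n1]),
  (false,[n0,n0,n0,n0,n1,n0,n0,n0,n0,n0,n0,m2]),
  (true,[n1,n0,m1,m1,n1,n0,n0,n2,n0,n0,n1]),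
  (false,[n0,n0,n1,n0,n0,n0,m1,n0,n0,n0,n0,n0,m1]),
  (true,[n1,m1,n1,n2,n0,n0,n0,n1]),
  (true,[n0,n0,n1,n1,n0,n0,n0,n1,n0,n2]),
  (false,[n0,n0,n0,n0,n0,n0,n1,n0,n0,n0,n0,n0,n1]),
  (true,[n1,m2,n1]),
  (true,[n0,n0,n1,n0,n0,n0,n0,n1]),
  (true,[n0,n0,n2,n0,m1,n2,n1]),
  (true,[n0,m1,n1,n0,n0,n0,n0,m1]),
  (false,[n0,n0,n0,m1,n0,n1,n0,n0,m1,m1,n1,n0,n0,m1,n1]),
  (false,[n0,n0,m2,n0,n1,n0,n0,n0,m1,n0,n0,n1,n0,m1]),
  (false,[n0,n0,n1,n0,n0,n0,n1,n0,n0,n0,n0,n0,n1]),
  (false,[n0,n1,n0,n0,n0,n0,m1,m1,n0,n0,n0,n0,m1]),
  (false,[n0,n1,n0,n0,n0,n0,n1,n1,n0,n0,n0,n0,n1]),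
  (false,[n0,n0,n0,n2,n0,n0,m1,m1,n0,n0,n0,n0,m1]),
  (false,[n0,n0,n0,n0,n0,n0,n0,n0,n1,n0,n0,n0,n0,n1]),
  (false,[n0,n0,n0,n2,n0,n0,n0,n0,m1,m1,n0,n0,n0,m1]),
  (false,[n0,n0,n0,n0,n0,n0,n1,n0,n0,n0,n0,m1,n1]),
  (false,[n0,n0,n2,n0,m1,n0,n1,n0,n0,n0,n0,n0,n1]),
  (false,[n0,n0,m2,n0,n1,n0,n0,n0,m1,n0,n0,n0,n0,m1]),
  (true,[n1,n0,n1,n1,n0,n0,n0,n2]),
  (false,[n0,m1,n0,n0,n0,n0,m1,m1,n0,n0,n0,n1,m1]),
  (false,[n0,n0,n0,n1,n0,n0,n0,n0,m1,m1,n0,n0,n0,m1]),
  (true,[n0,m1,n1,n1,n0,n0,n0,n1]),
  (false,[n0,m1,m1,n1,n1,n0,m1,n0,n0,n0,n0,n0,m1]),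
  (true,[n1,m1,n1,n1,n0,n0,n0,n1,n0,n1]),
  (false,[n0,n1,n0,n0,n0,n0,n0,n0,n1,n1,n0,m1,n0,n1])]

noncomputable def l0 : List Con := (true, [n0,n1,n0,n0,n0,n0,n0,n0,n0,n1]) :: base

noncomputable def r0 : List Con := (true, [n1,m1,n0,n0,n0,n0,n0,n0,n0,m1]) :: base

noncomputable def l1 : List Con := (false, [n0,n0,m2,n0,n1,n0,n0,n0,m2,n0,n0,n1,n0,m2]) :: r0

noncomputable def r1 : List Con := (false, [n0,n0,n2,n0,m1,n0,n0,n0,n2,n0,n0,m1,n0,n2]) :: r0

noncomputable def l2 : List Con := (true, [n1,n0,n0,n0,n0,n0,n0,m1,n0,n2]) :: r1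

noncomputable def r2 : List Con := (true, [n0,n0,n0,n0,n0,n0,n0,n1,n0,m2]) :: r1

noncomputable def l3 : List Con := (true, [n1,n0,n0,n0,n0,n0,n0,n1,n0,m2]) :: l2

noncomputable def r3 : List Con := (true, [n0,n0,n0,n0,n0,n0,n0,m1,n0,n2]) :: l2

noncomputable def l4 : List Con := (true, [n1,n0,n1,n1,n0,n0,n0,n0,n0,n0,n5]) :: l3

noncomputable def r4 : List Con := (true, [n0,n0,m1,m1,n0,n0,n0,n0,n0,n0,m5]) :: l3

noncomputable def l5 : List Con := (true, [n0,n0,n0,n0,n0,n0,n1,n0,m2]) :: l4

noncomputable def r5 : List Con := (true, [n1,n0,n0,n0,n0,n0,m1,n0,n2]) :: l4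

noncomputable def l6 : List Con := (true, [n1,n0,m1,m1,n1,n0,n0,n2,n0,n1,n1]) :: r5

noncomputable def r6 : List Con := (true, [n0,n0,n1,n1,m1,n0,n0,m2,n0,m1,m1]) :: r5

noncomputable def l7 : List Con := (true, [n0,n0,n0,n0,n0,n0,m1,n0,n2]) :: l6

noncomputable def r7 : List Con := (true, [n1,n0,n0,n0,n0,n0,n1,n0,m2]) :: l6

noncomputable def l8 : List Con := (true, [n1,n0,n1,n1,m1,n0,n0,m2,n0,m1,m1]) :: r7

noncomputable def r8 : List Con := (true, [n0,n0,m1,m1,n1,n0,n0,n2,n0,n1,n1]) :: r7

noncomputable def l9 : List Con := (true, [n1,n0,m1,m1,n0,n0,n0,m1,n0,m2,m1]) :: r8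

noncomputable def r9 : List Con := (true, [n0,n0,n1,n1,n0,n0,n0,n1,n0,n2,n1]) :: r8

noncomputable def l10 : List Con := (true, [n1,n0,n1,n1,n0,n0,n0,n1,n0,n2,n1]) :: l9

noncomputable def r10 : List Con := (true, [n0,n0,m1,m1,n0,n0,n0,m1,n0,m2,m1]) :: l9

noncomputable def l11 : List Con := (true, [n1,n0,n1,n1,m1,n0,n0,m2,n0,m2]) :: r10

noncomputable def r11 : List Con := (true, [n0,n0,m1,m1,n1,n0,n0,n2,n0,n2]) :: r10

noncomputable def l12 : List Con := (true, [n1,n0,m1,m1,n1,n0,n0,n2,n0,n2]) :: l11

noncomputable def r12 : List Con := (true, [n0,n0,n1,n1,m1,n0,n0,m2,n0,m2]) :: l11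

noncomputable def l13 : List Con := (true, [n1,n0,m2,m2,n1,n0,n0,n0,n0,n2,m1]) :: r12

noncomputable def r13 : List Con := (true, [n0,n0,n2,n2,m1,n0,n0,n0,n0,m2,n1]) :: r12

noncomputable def l14 : List Con := (true, [n1,n0,n2,n2,m1,n0,n0,n0,n0,m2,n1]) :: l13

noncomputable def r14 : List Con := (true, [n0,n0,m2,m2,n1,n0,n0,n0,n0,n2,m1]) :: l13

noncomputable def l15 : List Con := (true, [n1,n0,m1,m1,n0,n0,n0,n0,n0,n0,m5]) :: r14

noncomputable def r15 : List Con := (true, [n0,n0,n1,n1,n0,n0,n0,n0,n0,n0,n5]) :: r14

noncomputable def l16 : List Con := (true, [n1,n0,n1,n1,n0,n0,n0,n1,n0,n1,n2]) :: r15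

noncomputable def r16 : List Con := (true, [n0,n0,m1,m1,n0,n0,n0,m1,n0,m1,m2]) :: r15

noncomputable def l17 : List Con := (true, [n1,n0,m1,m1,n0,n0,n0,m1,n0,m1,m2]) :: l16

noncomputable def r17 : List Con := (true, [n0,n0,n1,n1,n0,n0,n0,n1,n0,n1,n2]) :: l16

noncomputable def l18 : List Con := (false, [n0,n0,n0,n0,n0,n0,n0,n0,n0,n0,n0,n0,n1,m2]) :: r17

noncomputable def r18 : List Con := (true, [n1,n0,n0,n0,n0,n0,n0,n0,n0,n0,n0,n0,m1,n2]) :: r17

noncomputable def l19 : List Con := (false, [n0,n0,n0,n0,n0,n0,n0,n0,n0,n0,n0,n0,m1,n2]) :: r18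

noncomputable def r19 : List Con := (true, [n1,n0,n0,n0,n0,n0,n0,n0,n0,n0,n0,n0,n1,m2]) :: r18

noncomputable def l20 : List Con := (false, [n0,n0,n0,n0,n0,n0,n0,n0,n0,n0,n0,n0,n1,m2]) :: r16

noncomputable def r20 : List Con := (true, [n1,n0,n0,n0,n0,n0,n0,n0,n0,n0,n0,n0,m1,n2]) :: r16

noncomputable def l21 : List Con := (false, [n0,n0,n0,n0,n0,n0,n0,n0,n0,n0,n0,n0,m1,n2]) :: r20

noncomputable def r21 : List Con := (true, [n1,n0,n0,n0,n0,n0,n0,n0,n0,n0,n0,n0,n1,m2]) :: r20

noncomputable def l22 : List Con := (true, [n1,n0,n0,n0,n0,n0,n0,n0,n0,n1,m2]) :: r13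

noncomputable def r22 : List Con := (true, [n0,n0,n0,n0,n0,n0,n0,n0,n0,m1,n2]) :: r13

noncomputable def l23 : List Con := (true, [n1,n0,n0,n0,n0,n0,n0,n0,n0,m1,n2]) :: l22

noncomputable def r23 : List Con := (true, [n0,n0,n0,n0,n0,n0,n0,n0,n0,n1,m2]) :: l22

noncomputable def l24 : List Con := (true, [n1,n0,n1,n1,n0,n0,n0,n2,n0,n1,m1]) :: r23

noncomputable def r24 : List Con := (true, [n0,n0,m1,m1,n0,n0,n0,m2,n0,m1,n1]) :: r23

noncomputable def l25 : List Con := (true, [n1,n0,m1,m1,n0,n0,n0,m2,n0,m1,n1]) :: l24

noncomputable def r25 : List Con := (true, [n0,n0,n1,n1,n0,n0,n0,n2,n0,n1,m1]) :: l24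

noncomputable def l26 : List Con := (true, [n1,n0,n2,n2,m1,n0,n0,n0,n0,n0,m2]) :: r25

noncomputable def r26 : List Con := (true, [n0,n0,m2,m2,n1,n0,n0,n0,n0,n0,n2]) :: r25

noncomputable def l27 : List Con := (true, [n1,n0,m2,m2,n1,n0,n0,n0,n0,n0,n2]) :: l26

noncomputable def r27 : List Con := (true, [n0,n0,n2,n2,m1,n0,n0,n0,n0,n0,m2]) :: l26

noncomputable def l28 : List Con := (true, [n1,n0,m1,m1,n1,n0,n0,n0,n0,n0,n7]) :: r27

noncomputable def r28 : List Con := (true, [n0,n0,n1,n1,m1,n0,n0,n0,n0,n0,m7]) :: r27

noncomputable def l29 : List Con := (true, [n1,n0,n1,n1,m1,n0,n0,n0,n0,n0,m7]) :: l28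

noncomputable def r29 : List Con := (true, [n0,n0,m1,m1,n1,n0,n0,n0,n0,n0,n7]) :: l28

noncomputable def l30 : List Con := (true, [n1,n0,n3,n3,m1,n0,n0,n0,n0,n0,n5]) :: r29

noncomputable def r30 : List Con := (true, [n0,n0,m3,m3,n1,n0,n0,n0,n0,n0,m5]) :: r29

noncomputable def l31 : List Con := (true, [n1,n0,m3,m3,n1,n0,n0,n0,n0,n0,m5]) :: l30

noncomputable def r31 : List Con := (true, [n0,n0,n3,n3,m1,n0,n0,n0,n0,n0,n5]) :: l30

noncomputable def l32 : List Con := (true, [n1,n0,n1,n1,n0,n0,n0,n0,n0,n0,n7]) :: r31

noncomputable def r32 : List Con := (true, [n0,n0,m1,m1,n0,n0,n0,n0,n0,n0,m7]) :: r31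

noncomputable def l33 : List Con := (true, [n1,n0,n1,n1,n0,n0,n0,n0,n0,n0,n8]) :: l32

noncomputable def r33 : List Con := (true, [n0,n0,m1,m1,n0,n0,n0,n0,n0,n0,m8]) :: l32

noncomputable def l34 : List Con := (true, [n1,n0,m1,m1,n0,n0,n0,n0,n0,n0,m8]) :: l33

noncomputable def r34 : List Con := (true, [n0,n0,n1,n1,n0,n0,n0,n0,n0,n0,n8]) :: l33

noncomputable def l35 : List Con := (false, [n0,n0,n0,n0,n0,n0,n0,n0,n0,n0,n0,n0,m1,n2]) :: r34

noncomputable def r35 : List Con := (true, [n1,n0,n0,n0,n0,n0,n0,n0,n0,n0,n0,n0,n1,m2]) :: r34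

noncomputable def l36 : List Con := (false, [n0,n0,n0,n0,n0,n0,n0,n0,n0,n0,n0,n0,n1,m2]) :: r35

noncomputable def r36 : List Con := (true, [n1,n0,n0,n0,n0,n0,n0,n0,n0,n0,n0,n0,m1,n2]) :: r35

noncomputable def l37 : List Con := (true, [n1,n0,m1,m1,n0,n0,n0,n0,n0,n0,m7]) :: r33

noncomputable def r37 : List Con := (true, [n0,n0,n1,n1,n0,n0,n0,n0,n0,n0,n7]) :: r33

noncomputable def l38 : List Con := (false, [n0,n0,n0,n0,n0,n0,n0,n0,n0,n0,n0,n0,m1,n2]) :: r37

noncomputable def r38 : List Con := (true, [n1,n0,n0,n0,n0,n0,n0,n0,n0,n0,n0,n0,n1,m2]) :: r37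

noncomputable def l39 : List Con := (false, [n0,n0,n0,n0,n0,n0,n0,n0,n0,n0,n0,n0,n1,m2]) :: r38

noncomputable def r39 : List Con := (true, [n1,n0,n0,n0,n0,n0,n0,n0,n0,n0,n0,n0,m1,n2]) :: r38

noncomputable def l40 : List Con := (false, [n0,n0,n0,n0,n0,n0,n0,n0,n0,n0,n0,n0,n1,m2]) :: r32

noncomputable def r40 : List Con := (true, [n1,n0,n0,n0,n0,n0,n0,n0,n0,n0,n0,n0,m1,n2]) :: r32

noncomputable def l41 : List Con := (false, [n0,n0,n0,n0,n0,n0,n0,n0,n0,n0,n0,n0,m1,n2]) :: r40

noncomputable def r41 : List Con := (true, [n1,n0,n0,n0,n0,n0,n0,n0,n0,n0,n0,n0,n1,m2]) :: r40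

noncomputable def l42 : List Con := (true, [n1,n0,m1,m1,n0,n0,n0,n0,n0,n0,m6]) :: r30

noncomputable def r42 : List Con := (true, [n0,n0,n1,n1,n0,n0,n0,n0,n0,n0,n6]) :: r30

noncomputable def l43 : List Con := (true, [n1,n0,n1,n1,n0,n0,n0,n0,n0,n0,n6]) :: l42

noncomputable def r43 : List Con := (true, [n0,n0,m1,m1,n0,n0,n0,n0,n0,n0,m6]) :: l42

noncomputable def l44 : List Con := (false, [n0,n0,n0,n0,n0,n0,n0,n0,n0,n0,n0,n0,n1,m2]) :: r43

noncomputable def r44 : List Con := (true, [n1,n0,n0,n0,n0,n0,n0,n0,n0,n0,n0,n0,m1,n2]) :: r43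

noncomputable def l45 : List Con := (false, [n0,n0,n0,n0,n0,n0,n0,n0,n0,n0,n0,n0,m1,n2]) :: r44

noncomputable def r45 : List Con := (true, [n1,n0,n0,n0,n0,n0,n0,n0,n0,n0,n0,n0,n1,m2]) :: r44

noncomputable def l46 : List Con := (false, [n0,n0,n0,n0,n0,n0,n0,n0,n0,n0,n0,n0,m1,n2]) :: r42

noncomputable def r46 : List Con := (true, [n1,n0,n0,n0,n0,n0,n0,n0,n0,n0,n0,n0,n1,m2]) :: r42

noncomputable def l47 : List Con := (false, [n0,n0,n0,n0,n0,n0,n0,n0,n0,n0,n0,n0,m1,n2]) :: r28

noncomputable def r47 : List Con := (true, [n1,n0,n0,n0,n0,n0,n0,n0,n0,n0,n0,n0,n1,m2]) :: r28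

noncomputable def l48 : List Con := (false, [n0,n0,n0,n0,n0,n0,n0,n0,n0,n0,n0,n0,n1,m2]) :: r47

noncomputable def r48 : List Con := (true, [n1,n0,n0,n0,n0,n0,n0,n0,n0,n0,n0,n0,m1,n2]) :: r47

noncomputable def l49 : List Con := (false, [n0,n0,n0,n0,n0,n0,n0,n0,n0,n0,n0,n0,n1,m2]) :: r26

noncomputable def r49 : List Con := (true, [n1,n0,n0,n0,n0,n0,n0,n0,n0,n0,n0,n0,m1,n2]) :: r26

noncomputable def l50 : List Con := (false, [n0,n0,n0,n0,n0,n0,n0,n0,n0,n0,n0,n0,m1,n2]) :: r24

noncomputable def r50 : List Con := (true, [n1,n0,n0,n0,n0,n0,n0,n0,n0,n0,n0,n0,n1,m2]) :: r24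

noncomputable def l51 : List Con := (false, [n0,n0,n0,n0,n0,n0,n0,n0,n0,n0,n0,n0,n1,m2]) :: r50

noncomputable def r51 : List Con := (true, [n1,n0,n0,n0,n0,n0,n0,n0,n0,n0,n0,n0,m1,n2]) :: r50

noncomputable def l52 : List Con := (true, [n1,n0,m2,m2,n1,n0,n0,n1,n0,n0,m2]) :: r22

noncomputable def r52 : List Con := (true, [n0,n0,n2,n2,m1,n0,n0,m1,n0,n0,n2]) :: r22

noncomputable def l53 : List Con := (true, [n1,n0,n2,n2,m1,n0,n0,m1,n0,n0,n2]) :: l52

noncomputable def r53 : List Con := (true, [n0,n0,m2,m2,n1,n0,n0,n1,n0,n0,m2]) :: l52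

noncomputable def l54 : List Con := (true, [n1,n0,n3,n3,m1,n0,n0,n0,n0,n0,n7]) :: r53

noncomputable def r54 : List Con := (true, [n0,n0,m3,m3,n1,n0,n0,n0,n0,n0,m7]) :: r53

noncomputable def l55 : List Con := (true, [n1,n0,m3,m3,n1,n0,n0,n0,n0,n0,m7]) :: l54

noncomputable def r55 : List Con := (true, [n0,n0,n3,n3,m1,n0,n0,n0,n0,n0,n7]) :: l54

noncomputable def l56 : List Con := (false, [n0,n0,n0,n0,n0,n0,n0,n0,n0,n0,n0,n0,n1,m2]) :: r55

noncomputable def r56 : List Con := (true, [n1,n0,n0,n0,n0,n0,n0,n0,n0,n0,n0,n0,m1,n2]) :: r55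

noncomputable def l57 : List Con := (false, [n0,n0,n0,n0,n0,n0,n0,n0,n0,n0,n0,n0,m1,n2]) :: r56

noncomputable def r57 : List Con := (true, [n1,n0,n0,n0,n0,n0,n0,n0,n0,n0,n0,n0,n1,m2]) :: r56

noncomputable def l58 : List Con := (false, [n0,n0,n0,n0,n0,n0,n0,n0,n0,n0,n0,n0,m1,n2]) :: r54

noncomputable def r58 : List Con := (true, [n1,n0,n0,n0,n0,n0,n0,n0,n0,n0,n0,n0,n1,m2]) :: r54

noncomputable def l59 : List Con := (false, [n0,n0,n0,n0,n0,n0,n0,n0,n0,n0,n0,n0,n1,m2]) :: r58

noncomputable def r59 : List Con := (true, [n1,n0,n0,n0,n0,n0,n0,n0,n0,n0,n0,n0,m1,n2]) :: r58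

noncomputable def l60 : List Con := (true, [n1,n0,m2,m2,n1,n0,n0,n0,n0,n0,n5]) :: r52

noncomputable def r60 : List Con := (true, [n0,n0,n2,n2,m1,n0,n0,n0,n0,n0,m5]) :: r52

noncomputable def l61 : List Con := (true, [n1,n0,n2,n2,m1,n0,n0,n0,n0,n0,m5]) :: l60

noncomputable def r61 : List Con := (true, [n0,n0,m2,m2,n1,n0,n0,n0,n0,n0,n5]) :: l60

noncomputable def l62 : List Con := (true, [n0,n0,m2,n0,n1,m7]) :: l61

noncomputable def r62 : List Con := (true, [n1,n0,n2,n0,m1,n7]) :: l61

noncomputable def l63 : List Con := (true, [n0,n0,n2,n0,m1,n7]) :: r62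

noncomputable def r63 : List Con := (true, [n1,n0,m2,n0,n1,m7]) :: r62

noncomputable def l64 : List Con := (false, [n0,n0,n0,n0,n0,n0,n0,n0,n0,n0,n0,n0,m1,n2]) :: r63

noncomputable def r64 : List Con := (true, [n1,n0,n0,n0,n0,n0,n0,n0,n0,n0,n0,n0,n1,m2]) :: r63

noncomputable def l65 : List Con := (true, [n0,n0,m2,n0,n1,m9]) :: r61

noncomputable def r65 : List Con := (true, [n1,n0,n2,n0,m1,n9]) :: r61

noncomputable def l66 : List Con := (true, [n1,n0,m2,m2,n1,n0,n0,n0,n0,n0,n7]) :: l65

noncomputable def r66 : List Con := (true, [n0,n0,n2,n2,m1,n0,n0,n0,n0,n0,m7]) :: l65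

noncomputable def l67 : List Con := (true, [n1,n0,n2,n2,m1,n0,n0,n0,n0,n0,m7]) :: l66

noncomputable def r67 : List Con := (true, [n0,n0,m2,m2,n1,n0,n0,n0,n0,n0,n7]) :: l66

noncomputable def l68 : List Con := (false, [n0,n0,n0,n0,n0,n0,n0,n0,n0,n0,n0,n0,m1,n2]) :: r67

noncomputable def r68 : List Con := (true, [n1,n0,n0,n0,n0,n0,n0,n0,n0,n0,n0,n0,n1,m2]) :: r67

noncomputable def l69 : List Con := (false, [n0,n0,n0,n0,n0,n0,n0,n0,n0,n0,n0,n0,n1,m2]) :: r68

noncomputable def r69 : List Con := (true, [n1,n0,n0,n0,n0,n0,n0,n0,n0,n0,n0,n0,m1,n2]) :: r68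

noncomputable def l70 : List Con := (false, [n0,n0,n0,n0,n0,n0,n0,n0,n0,n0,n0,n0,n1,m2]) :: r66

noncomputable def r70 : List Con := (true, [n1,n0,n0,n0,n0,n0,n0,n0,n0,n0,n0,n0,m1,n2]) :: r66

noncomputable def l71 : List Con := (false, [n0,n0,n0,n0,n0,n0,n0,n0,n0,n0,n0,n0,m1,n2]) :: r70

noncomputable def r71 : List Con := (true, [n1,n0,n0,n0,n0,n0,n0,n0,n0,n0,n0,n0,n1,m2]) :: r70

noncomputable def l72 : List Con := (false, [n0,n0,n0,n0,n0,n0,n0,n0,n0,n0,n0,n0,n1,m2]) :: r65

noncomputable def r72 : List Con := (true, [n1,n0,n0,n0,n0,n0,n0,n0,n0,n0,n0,n0,m1,n2]) :: r65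

noncomputable def l73 : List Con := (false, [n0,n0,n0,n0,n0,n0,n0,n0,n0,n0,n0,n0,m1,n2]) :: r72

noncomputable def r73 : List Con := (true, [n1,n0,n0,n0,n0,n0,n0,n0,n0,n0,n0,n0,n1,m2]) :: r72

noncomputable def l74 : List Con := (true, [n1,n0,n3,n3,m1,n0,n0,n0,n0,n0,n8]) :: r60

noncomputable def r74 : List Con := (true, [n0,n0,m3,m3,n1,n0,n0,n0,n0,n0,m8]) :: r60

noncomputable def l75 : List Con := (true, [n1,n0,m3,m3,n1,n0,n0,n0,n0,n0,m8]) :: l74

noncomputable def r75 : List Con := (true, [n0,n0,n3,n3,m1,n0,n0,n0,n0,n0,n8]) :: l74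

noncomputable def l76 : List Con := (true, [n1,n0,m2,m2,n1,n0,n0,n0,n0,n0,n3]) :: r75

noncomputable def r76 : List Con := (true, [n0,n0,n2,n2,m1,n0,n0,n0,n0,n0,m3]) :: r75

noncomputable def l77 : List Con := (true, [n1,n0,n2,n2,m1,n0,n0,n0,n0,n0,m3]) :: l76

noncomputable def r77 : List Con := (true, [n0,n0,m2,m2,n1,n0,n0,n0,n0,n0,n3]) :: l76

noncomputable def l78 : List Con := (true, [n0,n0,m2,n0,n1,m5]) :: l77

noncomputable def r78 : List Con := (true, [n1,n0,n2,n0,m1,n5]) :: l77

noncomputable def l79 : List Con := (true, [n0,n0,n2,n0,m1,n5]) :: r78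

noncomputable def r79 : List Con := (true, [n1,n0,m2,n0,n1,m5]) :: r78

noncomputable def l80 : List Con := (false, [n0,n0,n0,n0,n0,n0,n0,n0,n0,n0,n0,n0,m1,n2]) :: r79

noncomputable def r80 : List Con := (true, [n1,n0,n0,n0,n0,n0,n0,n0,n0,n0,n0,n0,n1,m2]) :: r79

noncomputable def l81 : List Con := (false, [n0,n0,n0,n0,n0,n0,n0,n0,n0,n0,n0,n0,m1,n2]) :: r77

noncomputable def r81 : List Con := (true, [n1,n0,n0,n0,n0,n0,n0,n0,n0,n0,n0,n0,n1,m2]) :: r77

noncomputable def l82 : List Con := (false, [n0,n0,n0,n0,n0,n0,n0,n0,n0,n0,n0,n0,n1,m2]) :: r81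

noncomputable def r82 : List Con := (true, [n1,n0,n0,n0,n0,n0,n0,n0,n0,n0,n0,n0,m1,n2]) :: r81

noncomputable def l83 : List Con := (false, [n0,n0,n0,n0,n0,n0,n0,n0,n0,n0,n0,n0,n1,m2]) :: r76

noncomputable def r83 : List Con := (true, [n1,n0,n0,n0,n0,n0,n0,n0,n0,n0,n0,n0,m1,n2]) :: r76

noncomputable def l84 : List Con := (false, [n0,n0,n0,n0,n0,n0,n0,n0,n0,n0,n0,n0,m1,n2]) :: r83

noncomputable def r84 : List Con := (true, [n1,n0,n0,n0,n0,n0,n0,n0,n0,n0,n0,n0,n1,m2]) :: r83

noncomputable def l85 : List Con := (false, [n0,n0,n0,n0,n0,n0,n0,n0,n0,n0,n0,n0,n1,m2]) :: r74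

noncomputable def r85 : List Con := (true, [n1,n0,n0,n0,n0,n0,n0,n0,n0,n0,n0,n0,m1,n2]) :: r74

noncomputable def l86 : List Con := (false, [n0,n0,n0,n0,n0,n0,n0,n0,n0,n0,n0,n0,m1,n2]) :: r85

noncomputable def r86 : List Con := (true, [n1,n0,n0,n0,n0,n0,n0,n0,n0,n0,n0,n0,n1,m2]) :: r85

noncomputable def l87 : List Con := (true, [n1,n0,n1,n1,n0,n0,n0,n1,n0,n1,n2]) :: r11

noncomputable def r87 : List Con := (true, [n0,n0,m1,m1,n0,n0,n0,m1,n0,m1,m2]) :: r11

noncomputable def l88 : List Con := (true, [n1,n0,m1,m1,n0,n0,n0,m1,n0,m1,m2]) :: l87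

noncomputable def r88 : List Con := (true, [n0,n0,n1,n1,n0,n0,n0,n1,n0,n1,n2]) :: l87

noncomputable def l89 : List Con := (false, [n0,n0,n0,n0,n0,n0,n0,n0,n0,n0,n0,n0,n1,m2]) :: r88

noncomputable def r89 : List Con := (true, [n1,n0,n0,n0,n0,n0,n0,n0,n0,n0,n0,n0,m1,n2]) :: r88

noncomputable def l90 : List Con := (true, [n1,n0,m1,m1,n0,n0,n0,n0,n0,n0,m5]) :: r87

noncomputable def r90 : List Con := (true, [n0,n0,n1,n1,n0,n0,n0,n0,n0,n0,n5]) :: r87

noncomputable def l91 : List Con := (false, [n0,n0,n0,n0,n0,n0,n0,n0,n0,n0,n0,n0,n1,m2]) :: r90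

noncomputable def r91 : List Con := (true, [n1,n0,n0,n0,n0,n0,n0,n0,n0,n0,n0,n0,m1,n2]) :: r90

noncomputable def l92 : List Con := (false, [n0,n0,n0,n0,n0,n0,n0,n0,n0,n0,n0,n0,m1,n2]) :: r91

noncomputable def r92 : List Con := (true, [n1,n0,n0,n0,n0,n0,n0,n0,n0,n0,n0,n0,n1,m2]) :: r91

noncomputable def l93 : List Con := (true, [n1,n0,m2,m2,n1,n0,n0,n0,n0,n1,n1]) :: r9

noncomputable def r93 : List Con := (true, [n0,n0,n2,n2,m1,n0,n0,n0,n0,m1,m1]) :: r9

noncomputable def l94 : List Con := (true, [n0,n0,n2,n0,m1,n4,n0,n0,n1]) :: l93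

noncomputable def r94 : List Con := (true, [n1,n0,m2,n0,n1,m4,n0,n0,m1]) :: l93

noncomputable def l95 : List Con := (false, [n0,n0,n0,n0,n0,n0,n0,n0,n0,n0,n0,n0,n1,m2]) :: l94

noncomputable def r95 : List Con := (true, [n1,n0,n0,n0,n0,n0,n0,n0,n0,n0,n0,n0,m1,n2]) :: l94

noncomputable def l96 : List Con := (true, [n1,n0,n2,n2,m1,n0,n0,n0,n0,m1,m1]) :: r94

noncomputable def r96 : List Con := (true, [n0,n0,m2,m2,n1,n0,n0,n0,n0,n1,n1]) :: r94

noncomputable def l97 : List Con := (true, [n1,n0,m2,m2,n1,n0,n0,n0,n0,n1,n2]) :: r96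

noncomputable def r97 : List Con := (true, [n0,n0,n2,n2,m1,n0,n0,n0,n0,m1,m2]) :: r96

noncomputable def l98 : List Con := (true, [n1,n0,n2,n2,m1,n0,n0,n0,n0,m1,m2]) :: l97

noncomputable def r98 : List Con := (true, [n0,n0,m2,m2,n1,n0,n0,n0,n0,n1,n2]) :: l97

noncomputable def l99 : List Con := (true, [n0,n0,m2,n0,n1,m4,n0,n0,m1]) :: l98

noncomputable def r99 : List Con := (true, [n1,n0,n2,n0,m1,n4,n0,n0,n1]) :: l98

noncomputable def l100 : List Con := (false, [n0,n0,n0,n0,n0,n0,n0,n0,n0,n0,n0,n0,n1,m2]) :: r99

noncomputable def r100 : List Con := (true, [n1,n0,n0,n0,n0,n0,n0,n0,n0,n0,n0,n0,m1,n2]) :: r99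

noncomputable def l101 : List Con := (false, [n0,n0,n0,n0,n0,n0,n0,n0,n0,n0,n0,n0,m1,n2]) :: r100

noncomputable def r101 : List Con := (true, [n1,n0,n0,n0,n0,n0,n0,n0,n0,n0,n0,n0,n1,m2]) :: r100

noncomputable def l102 : List Con := (false, [n0,n0,n0,n0,n0,n0,n0,n0,n0,n0,n0,n0,n1,m2]) :: r98

noncomputable def r102 : List Con := (true, [n1,n0,n0,n0,n0,n0,n0,n0,n0,n0,n0,n0,m1,n2]) :: r98

noncomputable def l103 : List Con := (true, [n1,n0,m1,m1,n1,n0,n0,n2,n0,n2]) :: r97

noncomputable def r103 : List Con := (true, [n0,n0,n1,n1,m1,n0,n0,m2,n0,m2]) :: r97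

noncomputable def l104 : List Con := (true, [n1,n0,n1,n1,m1,n0,n0,m2,n0,m2]) :: l103

noncomputable def r104 : List Con := (true, [n0,n0,m1,m1,n1,n0,n0,n2,n0,n2]) :: l103

noncomputable def l105 : List Con := (true, [n1,n0,n1,n1,n0,n0,n0,n2,n0,n1,m1]) :: r104

noncomputable def r105 : List Con := (true, [n0,n0,m1,m1,n0,n0,n0,m2,n0,m1,n1]) :: r104

noncomputable def l106 : List Con := (true, [n1,n0,m1,m1,n0,n0,n0,m2,n0,m1,n1]) :: l105

noncomputable def r106 : List Con := (true, [n0,n0,n1,n1,n0,n0,n0,n2,n0,n1,m1]) :: l105

noncomputable def l107 : List Con := (false, [n0,n0,n0,n0,n0,n0,n0,n0,n0,n0,n0,n0,n1,m2]) :: r106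

noncomputable def r107 : List Con := (true, [n1,n0,n0,n0,n0,n0,n0,n0,n0,n0,n0,n0,m1,n2]) :: r106

noncomputable def l108 : List Con := (false, [n0,n0,n0,n0,n0,n0,n0,n0,n0,n0,n0,n0,m1,n2]) :: r107

noncomputable def r108 : List Con := (true, [n1,n0,n0,n0,n0,n0,n0,n0,n0,n0,n0,n0,n1,m2]) :: r107

noncomputable def l109 : List Con := (false, [n0,n0,n0,n0,n0,n0,n0,n0,n0,n0,n0,n0,n1,m2]) :: r105

noncomputable def r109 : List Con := (true, [n1,n0,n0,n0,n0,n0,n0,n0,n0,n0,n0,n0,m1,n2]) :: r105

noncomputable def l110 : List Con := (false, [n0,n0,n0,n0,n0,n0,n0,n0,n0,n0,n0,n0,m1,n2]) :: r109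

noncomputable def r110 : List Con := (true, [n1,n0,n0,n0,n0,n0,n0,n0,n0,n0,n0,n0,n1,m2]) :: r109

noncomputable def l111 : List Con := (true, [n1,n0,n1,n1,n0,n0,n0,n2,n0,n0,n2]) :: r103

noncomputable def r111 : List Con := (true, [n0,n0,m1,m1,n0,n0,n0,m2,n0,n0,m2]) :: r103

noncomputable def l112 : List Con := (true, [n1,n0,m1,m1,n0,n0,n0,m2,n0,n0,m2]) :: l111

noncomputable def r112 : List Con := (true, [n0,n0,n1,n1,n0,n0,n0,n2,n0,n0,n2]) :: l111

noncomputable def l113 : List Con := (false, [n0,n0,n0,n0,n0,n0,n0,n0,n0,n0,n0,n0,m1,n2]) :: r112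

noncomputable def r113 : List Con := (true, [n1,n0,n0,n0,n0,n0,n0,n0,n0,n0,n0,n0,n1,m2]) :: r112

noncomputable def l114 : List Con := (false, [n0,n0,n0,n0,n0,n0,n0,n0,n0,n0,n0,n0,n1,m2]) :: r113

noncomputable def r114 : List Con := (true, [n1,n0,n0,n0,n0,n0,n0,n0,n0,n0,n0,n0,m1,n2]) :: r113

noncomputable def l115 : List Con := (false, [n0,n0,n0,n0,n0,n0,n0,n0,n0,n0,n0,n0,n1,m2]) :: r111

noncomputable def r115 : List Con := (true, [n1,n0,n0,n0,n0,n0,n0,n0,n0,n0,n0,n0,m1,n2]) :: r111

noncomputable def l116 : List Con := (true, [n1,n0,m1,m1,n0,n0,n0,m2,n0,m1,m1]) :: r93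

noncomputable def r116 : List Con := (true, [n0,n0,n1,n1,n0,n0,n0,n2,n0,n1,n1]) :: r93

noncomputable def l117 : List Con := (true, [n1,n0,n1,n1,m1,n0,n0,m2,n0,m2]) :: l116

noncomputable def r117 : List Con := (true, [n0,n0,m1,m1,n1,n0,n0,n2,n0,n2]) :: l116

noncomputable def l118 : List Con := (true, [n1,n0,m1,m1,n1,n0,n0,n2,n0,n2]) :: l117

noncomputable def r118 : List Con := (true, [n0,n0,n1,n1,m1,n0,n0,m2,n0,m2]) :: l117

noncomputable def l119 : List Con := (false, [n0,n0,n0,n0,n0,n0,n0,n0,n0,n0,n0,n0,m1,n2]) :: r118

noncomputable def r119 : List Con := (true, [n1,n0,n0,n0,n0,n0,n0,n0,n0,n0,n0,n0,n1,m2]) :: r118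

noncomputable def l120 : List Con := (false, [n0,n0,n0,n0,n0,n0,n0,n0,n0,n0,n0,n0,m1,n2]) :: r117

noncomputable def r120 : List Con := (true, [n1,n0,n0,n0,n0,n0,n0,n0,n0,n0,n0,n0,n1,m2]) :: r117

noncomputable def l121 : List Con := (true, [n1,n0,n0,n0,n0,n0,n0,n0,n0,n1,m2]) :: r116

noncomputable def r121 : List Con := (true, [n0,n0,n0,n0,n0,n0,n0,n0,n0,m1,n2]) :: r116

noncomputable def l122 : List Con := (true, [n1,n0,n0,n0,n0,n0,n0,n0,n0,m1,n2]) :: l121

noncomputable def r122 : List Con := (true, [n0,n0,n0,n0,n0,n0,n0,n0,n0,n1,m2]) :: l121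

noncomputable def l123 : List Con := (false, [n0,n0,n0,n0,n0,n0,n0,n0,n0,n0,n0,n0,n1,m2]) :: r122

noncomputable def r123 : List Con := (true, [n1,n0,n0,n0,n0,n0,n0,n0,n0,n0,n0,n0,m1,n2]) :: r122

noncomputable def l124 : List Con := (false, [n0,n0,n0,n0,n0,n0,n0,n0,n0,n0,n0,n0,m1,n2]) :: r123

noncomputable def r124 : List Con := (true, [n1,n0,n0,n0,n0,n0,n0,n0,n0,n0,n0,n0,n1,m2]) :: r123

noncomputable def l125 : List Con := (false, [n0,n0,n0,n0,n0,n0,n0,n0,n0,n0,n0,n0,m1,n2]) :: r121

noncomputable def r125 : List Con := (true, [n1,n0,n0,n0,n0,n0,n0,n0,n0,n0,n0,n0,n1,m2]) :: r121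

noncomputable def l126 : List Con := (true, [n1,n0,m3,m3,n1,n0,n0,n0,n0,n0,m4]) :: r6

noncomputable def r126 : List Con := (true, [n0,n0,n3,n3,m1,n0,n0,n0,n0,n0,n4]) :: r6

noncomputable def l127 : List Con := (true, [n1,n0,n3,n3,m1,n0,n0,n0,n0,n0,n4]) :: l126

noncomputable def r127 : List Con := (true, [n0,n0,m3,m3,n1,n0,n0,n0,n0,n0,m4]) :: l126

noncomputable def l128 : List Con := (true, [n1,n0,m1,m1,n0,n0,n0,m2,n0,m1,n1]) :: r127

noncomputable def r128 : List Con := (true, [n0,n0,n1,n1,n0,n0,n0,n2,n0,n1,m1]) :: r127

noncomputable def l129 : List Con := (true, [n1,n0,n1,n1,n0,n0,n0,n2,n0,n1,m1]) :: l128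

noncomputable def r129 : List Con := (true, [n0,n0,m1,m1,n0,n0,n0,m2,n0,m1,n1]) :: l128

noncomputable def l130 : List Con := (true, [n0,n0,n0,n0,n0,n0,m1,n0,n2]) :: r129

noncomputable def r130 : List Con := (true, [n1,n0,n0,n0,n0,n0,n1,n0,m2]) :: r129

noncomputable def l131 : List Con := (true, [n1,n0,m1,m1,n0,n0,n0,n0,n0,n0,m5]) :: r130

noncomputable def r131 : List Con := (true, [n0,n0,n1,n1,n0,n0,n0,n0,n0,n0,n5]) :: r130

noncomputable def l132 : List Con := (true, [n1,n0,m3,m3,n2,n0,n0,n0,n0,n0,n8]) :: r131

noncomputable def r132 : List Con := (true, [n0,n0,n3,n3,m2,n0,n0,n0,n0,n0,m8]) :: r131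

noncomputable def l133 : List Con := (true, [n1,n0,n3,n3,m2,n0,n0,n0,n0,n0,m8]) :: l132

noncomputable def r133 : List Con := (true, [n0,n0,m3,m3,n2,n0,n0,n0,n0,n0,n8]) :: l132

noncomputable def l134 : List Con := (false, [n0,n0,n0,n0,n0,n0,n0,n0,n0,n0,n0,n0,n1,m2]) :: r133

noncomputable def r134 : List Con := (true, [n1,n0,n0,n0,n0,n0,n0,n0,n0,n0,n0,n0,m1,n2]) :: r133

noncomputable def l135 : List Con := (false, [n0,n0,n0,n0,n0,n0,n0,n0,n0,n0,n0,n0,n1,m2]) :: r132

noncomputable def r135 : List Con := (true, [n1,n0,n0,n0,n0,n0,n0,n0,n0,n0,n0,n0,m1,n2]) :: r132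

noncomputable def l136 : List Con := (false, [n0,n0,n0,n0,n0,n0,n0,n0,n0,n0,n0,n0,m1,n2]) :: r135

noncomputable def r136 : List Con := (true, [n1,n0,n0,n0,n0,n0,n0,n0,n0,n0,n0,n0,n1,m2]) :: r135

noncomputable def l137 : List Con := (false, [n0,n0,n0,n0,n0,n0,n0,n0,n0,n0,n0,n0,m1,n2]) :: r128

noncomputable def r137 : List Con := (true, [n1,n0,n0,n0,n0,n0,n0,n0,n0,n0,n0,n0,n1,m2]) :: r128

noncomputable def l138 : List Con := (true, [n1,n0,n1,n1,m1,n0,n0,n0,n0,n0,m7]) :: r126

noncomputable def r138 : List Con := (true, [n0,n0,m1,m1,n1,n0,n0,n0,n0,n0,n7]) :: r126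

noncomputable def l139 : List Con := (true, [n1,n0,m1,m1,n1,n0,n0,n0,n0,n0,n7]) :: l138

noncomputable def r139 : List Con := (true, [n0,n0,n1,n1,m1,n0,n0,n0,n0,n0,m7]) :: l138

noncomputable def l140 : List Con := (true, [n0,n0,n0,n0,n0,n0,m1,n0,n2]) :: r139

noncomputable def r140 : List Con := (true, [n1,n0,n0,n0,n0,n0,n1,n0,m2]) :: r139

noncomputable def l141 : List Con := (true, [n1,n0,n1,n1,m1,n0,n0,m2,n0,n0,m2]) :: r140

noncomputable def r141 : List Con := (true, [n0,n0,m1,m1,n1,n0,n0,n2,n0,n0,n2]) :: r140

noncomputable def l142 : List Con := (true, [n1,n0,m1,m1,n1,n0,n0,n2,n0,n0,n2]) :: l141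

noncomputable def r142 : List Con := (true, [n0,n0,n1,n1,m1,n0,n0,m2,n0,n0,m2]) :: l141

noncomputable def l143 : List Con := (false, [n0,n0,n0,n0,n0,n0,n0,n0,n0,n0,n0,n0,m1,n2]) :: r142

noncomputable def r143 : List Con := (true, [n1,n0,n0,n0,n0,n0,n0,n0,n0,n0,n0,n0,n1,m2]) :: r142

noncomputable def l144 : List Con := (false, [n0,n0,n0,n0,n0,n0,n0,n0,n0,n0,n0,n0,n1,m2]) :: r143

noncomputable def r144 : List Con := (true, [n1,n0,n0,n0,n0,n0,n0,n0,n0,n0,n0,n0,m1,n2]) :: r143

noncomputable def l145 : List Con := (true, [n1,n0,m2,m2,n1,n0,n0,n0,n0,n2,m1]) :: r141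

noncomputable def r145 : List Con := (true, [n0,n0,n2,n2,m1,n0,n0,n0,n0,m2,n1]) :: r141

noncomputable def l146 : List Con := (true, [n1,n0,n2,n2,m1,n0,n0,n0,n0,m2,n1]) :: l145

noncomputable def r146 : List Con := (true, [n0,n0,m2,m2,n1,n0,n0,n0,n0,n2,m1]) :: l145

noncomputable def l147 : List Con := (false, [n0,n0,n0,n0,n0,n0,n0,n0,n0,n0,n0,n0,m1,n2]) :: r146

noncomputable def r147 : List Con := (true, [n1,n0,n0,n0,n0,n0,n0,n0,n0,n0,n0,n0,n1,m2]) :: r146

noncomputable def l148 : List Con := (false, [n0,n0,n0,n0,n0,n0,n0,n0,n0,n0,n0,n0,n1,m2]) :: r147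

noncomputable def r148 : List Con := (true, [n1,n0,n0,n0,n0,n0,n0,n0,n0,n0,n0,n0,m1,n2]) :: r147

noncomputable def l149 : List Con := (true, [n1,n0,n1,n1,n0,n0,n0,n1,n0,n1,n2]) :: r145

noncomputable def r149 : List Con := (true, [n0,n0,m1,m1,n0,n0,n0,m1,n0,m1,m2]) :: r145

noncomputable def l150 : List Con := (true, [n1,n0,m1,m1,n0,n0,n0,m1,n0,m1,m2]) :: l149

noncomputable def r150 : List Con := (true, [n0,n0,n1,n1,n0,n0,n0,n1,n0,n1,n2]) :: l149

noncomputable def l151 : List Con := (false, [n0,n0,n0,n0,n0,n0,n0,n0,n0,n0,n0,n0,m1,n2]) :: r150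

noncomputable def r151 : List Con := (true, [n1,n0,n0,n0,n0,n0,n0,n0,n0,n0,n0,n0,n1,m2]) :: r150

noncomputable def l152 : List Con := (false, [n0,n0,n0,n0,n0,n0,n0,n0,n0,n0,n0,n0,n1,m2]) :: r149

noncomputable def r152 : List Con := (true, [n1,n0,n0,n0,n0,n0,n0,n0,n0,n0,n0,n0,m1,n2]) :: r149

noncomputable def l153 : List Con := (false, [n0,n0,n0,n0,n0,n0,n0,n0,n0,n0,n0,n0,m1,n2]) :: r152

noncomputable def r153 : List Con := (true, [n1,n0,n0,n0,n0,n0,n0,n0,n0,n0,n0,n0,n1,m2]) :: r152

noncomputable def l154 : List Con := (true, [n1,n0,n1,n1,n0,n0,n0,n1,n0,n1,n2]) :: r138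

noncomputable def r154 : List Con := (true, [n0,n0,m1,m1,n0,n0,n0,m1,n0,m1,m2]) :: r138

noncomputable def l155 : List Con := (true, [n1,n0,m1,m1,n0,n0,n0,m1,n0,m1,m2]) :: l154

noncomputable def r155 : List Con := (true, [n0,n0,n1,n1,n0,n0,n0,n1,n0,n1,n2]) :: l154

noncomputable def l156 : List Con := (true, [n1,n0,m1,m1,n0,n0,n0,m2,n0,m1,n1]) :: r155

noncomputable def r156 : List Con := (true, [n0,n0,n1,n1,n0,n0,n0,n2,n0,n1,m1]) :: r155

noncomputable def l157 : List Con := (true, [n1,n0,n1,n1,n0,n0,n0,n2,n0,n1,m1]) :: l156

noncomputable def r157 : List Con := (true, [n0,n0,m1,m1,n0,n0,n0,m2,n0,m1,n1]) :: l156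

noncomputable def l158 : List Con := (true, [n1,n0,n0,n0,n0,n0,n0,n0,n0,n1,m2]) :: r157

noncomputable def r158 : List Con := (true, [n0,n0,n0,n0,n0,n0,n0,n0,n0,m1,n2]) :: r157

noncomputable def l159 : List Con := (true, [n1,n0,n0,n0,n0,n0,n0,n0,n0,m1,n2]) :: l158

noncomputable def r159 : List Con := (true, [n0,n0,n0,n0,n0,n0,n0,n0,n0,n1,m2]) :: l158

noncomputable def l160 : List Con := (false, [n0,n0,n0,n0,n0,n0,n0,n0,n0,n0,n0,n0,n1,m2]) :: r159

noncomputable def r160 : List Con := (true, [n1,n0,n0,n0,n0,n0,n0,n0,n0,n0,n0,n0,m1,n2]) :: r159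

noncomputable def l161 : List Con := (false, [n0,n0,n0,n0,n0,n0,n0,n0,n0,n0,n0,n0,m1,n2]) :: r158

noncomputable def r161 : List Con := (true, [n1,n0,n0,n0,n0,n0,n0,n0,n0,n0,n0,n0,n1,m2]) :: r158

noncomputable def l162 : List Con := (true, [n1,n0,n3,n3,m1,n0,n0,n0,n0,n0,n5]) :: r156

noncomputable def r162 : List Con := (true, [n0,n0,m3,m3,n1,n0,n0,n0,n0,n0,m5]) :: r156

noncomputable def l163 : List Con := (true, [n1,n0,m3,m3,n1,n0,n0,n0,n0,n0,m5]) :: l162

noncomputable def r163 : List Con := (true, [n0,n0,n3,n3,m1,n0,n0,n0,n0,n0,n5]) :: l162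

noncomputable def l164 : List Con := (true, [n0,n0,n0,n0,n0,n0,m1,n0,n2]) :: r163

noncomputable def r164 : List Con := (true, [n1,n0,n0,n0,n0,n0,n1,n0,m2]) :: r163

noncomputable def l165 : List Con := (true, [n1,n0,n1,n1,n0,n0,n0,n0,n0,n0,n8]) :: r164

noncomputable def r165 : List Con := (true, [n0,n0,m1,m1,n0,n0,n0,n0,n0,n0,m8]) :: r164

noncomputable def l166 : List Con := (true, [n1,n0,m1,m1,n0,n0,n0,n0,n0,n0,m8]) :: l165

noncomputable def r166 : List Con := (true, [n0,n0,n1,n1,n0,n0,n0,n0,n0,n0,n8]) :: l165

noncomputable def l167 : List Con := (false, [n0,n0,n0,n0,n0,n0,n0,n0,n0,n0,n0,n0,m1,n2]) :: r166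

noncomputable def r167 : List Con := (true, [n1,n0,n0,n0,n0,n0,n0,n0,n0,n0,n0,n0,n1,m2]) :: r166

noncomputable def l168 : List Con := (false, [n0,n0,n0,n0,n0,n0,n0,n0,n0,n0,n0,n0,n1,m2]) :: r167

noncomputable def r168 : List Con := (true, [n1,n0,n0,n0,n0,n0,n0,n0,n0,n0,n0,n0,m1,n2]) :: r167

noncomputable def l169 : List Con := (true, [n1,n0,n1,n1,n0,n0,n0,n0,n0,n0,n7]) :: r165

noncomputable def r169 : List Con := (true, [n0,n0,m1,m1,n0,n0,n0,n0,n0,n0,m7]) :: r165

noncomputable def l170 : List Con := (true, [n1,n0,m1,m1,n0,n0,n0,n0,n0,n0,m7]) :: l169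

noncomputable def r170 : List Con := (true, [n0,n0,n1,n1,n0,n0,n0,n0,n0,n0,n7]) :: l169

noncomputable def l171 : List Con := (false, [n0,n0,n0,n0,n0,n0,n0,n0,n0,n0,n0,n0,n1,m2]) :: r170

noncomputable def r171 : List Con := (true, [n1,n0,n0,n0,n0,n0,n0,n0,n0,n0,n0,n0,m1,n2]) :: r170

noncomputable def l172 : List Con := (false, [n0,n0,n0,n0,n0,n0,n0,n0,n0,n0,n0,n0,m1,n2]) :: r171

noncomputable def r172 : List Con := (true, [n1,n0,n0,n0,n0,n0,n0,n0,n0,n0,n0,n0,n1,m2]) :: r171

noncomputable def l173 : List Con := (true, [n1,n0,m4,m4,n2,n0,n0,n0,n0,n0,n3]) :: r169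

noncomputable def r173 : List Con := (true, [n0,n0,n4,n4,m2,n0,n0,n0,n0,n0,m3]) :: r169

noncomputable def l174 : List Con := (true, [n1,n0,n4,n4,m2,n0,n0,n0,n0,n0,m3]) :: l173

noncomputable def r174 : List Con := (true, [n0,n0,m4,m4,n2,n0,n0,n0,n0,n0,n3]) :: l173

noncomputable def l175 : List Con := (false, [n0,n0,n0,n0,n0,n0,n0,n0,n0,n0,n0,n0,m1,n2]) :: r174

noncomputable def r175 : List Con := (true, [n1,n0,n0,n0,n0,n0,n0,n0,n0,n0,n0,n0,n1,m2]) :: r174

noncomputable def l176 : List Con := (false, [n0,n0,n0,n0,n0,n0,n0,n0,n0,n0,n0,n0,n1,m2]) :: r175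

noncomputable def r176 : List Con := (true, [n1,n0,n0,n0,n0,n0,n0,n0,n0,n0,n0,n0,m1,n2]) :: r175

noncomputable def l177 : List Con := (true, [n1,n0,m1,m1,n1,n0,n0,n0,n0,n0,n8]) :: r173

noncomputable def r177 : List Con := (true, [n0,n0,n1,n1,m1,n0,n0,n0,n0,n0,m8]) :: r173

noncomputable def l178 : List Con := (true, [n1,n0,n1,n1,m1,n0,n0,n0,n0,n0,m8]) :: l177

noncomputable def r178 : List Con := (true, [n0,n0,m1,m1,n1,n0,n0,n0,n0,n0,n8]) :: l177

noncomputable def l179 : List Con := (false, [n0,n0,n0,n0,n0,n0,n0,n0,n0,n0,n0,n0,n1,m2]) :: r178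

noncomputable def r179 : List Con := (true, [n1,n0,n0,n0,n0,n0,n0,n0,n0,n0,n0,n0,m1,n2]) :: r178

noncomputable def l180 : List Con := (false, [n0,n0,n0,n0,n0,n0,n0,n0,n0,n0,n0,n0,m1,n2]) :: r179

noncomputable def r180 : List Con := (true, [n1,n0,n0,n0,n0,n0,n0,n0,n0,n0,n0,n0,n1,m2]) :: r179

noncomputable def l181 : List Con := (false, [n0,n0,n0,n0,n0,n0,n0,n0,n0,n0,n0,n0,m1,n2]) :: r177

noncomputable def r181 : List Con := (true, [n1,n0,n0,n0,n0,n0,n0,n0,n0,n0,n0,n0,n1,m2]) :: r177

noncomputable def l182 : List Con := (false, [n0,n0,n0,n0,n0,n0,n0,n0,n0,n0,n0,n0,n1,m2]) :: r181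

noncomputable def r182 : List Con := (true, [n1,n0,n0,n0,n0,n0,n0,n0,n0,n0,n0,n0,m1,n2]) :: r181

noncomputable def l183 : List Con := (true, [n0,n0,n0,n0,n0,n0,m1,n0,n2]) :: r162

noncomputable def r183 : List Con := (true, [n1,n0,n0,n0,n0,n0,n1,n0,m2]) :: r162

noncomputable def l184 : List Con := (true, [n1,n0,n4,n4,m2,n0,n0,n0,n0,n0,m3]) :: r183

noncomputable def r184 : List Con := (true, [n0,n0,m4,m4,n2,n0,n0,n0,n0,n0,n3]) :: r183

noncomputable def l185 : List Con := (true, [n1,n0,m4,m4,n2,n0,n0,n0,n0,n0,n3]) :: l184

noncomputable def r185 : List Con := (true, [n0,n0,n4,n4,m2,n0,n0,n0,n0,n0,m3]) :: l184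

noncomputable def l186 : List Con := (false, [n0,n0,n0,n0,n0,n0,n0,n0,n0,n0,n0,n0,m1,n2]) :: r185

noncomputable def r186 : List Con := (true, [n1,n0,n0,n0,n0,n0,n0,n0,n0,n0,n0,n0,n1,m2]) :: r185

noncomputable def l187 : List Con := (false, [n0,n0,n0,n0,n0,n0,n0,n0,n0,n0,n0,n0,n1,m2]) :: r186

noncomputable def r187 : List Con := (true, [n1,n0,n0,n0,n0,n0,n0,n0,n0,n0,n0,n0,m1,n2]) :: r186

noncomputable def l188 : List Con := (false, [n0,n0,n0,n0,n0,n0,n0,n0,n0,n0,n0,n0,m1,n2]) :: r184

noncomputable def r188 : List Con := (true, [n1,n0,n0,n0,n0,n0,n0,n0,n0,n0,n0,n0,n1,m2]) :: r184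

noncomputable def l189 : List Con := (true, [n1,n0,m1,m1,n1,n0,n0,n2,n0,n0,n2]) :: r154

noncomputable def r189 : List Con := (true, [n0,n0,n1,n1,m1,n0,n0,m2,n0,n0,m2]) :: r154

noncomputable def l190 : List Con := (true, [n1,n0,n1,n1,m1,n0,n0,m2,n0,n0,m2]) :: l189

noncomputable def r190 : List Con := (true, [n0,n0,m1,m1,n1,n0,n0,n2,n0,n0,n2]) :: l189

noncomputable def l191 : List Con := (true, [n0,n0,n0,n0,n0,n0,m1,n0,n2]) :: r190

noncomputable def r191 : List Con := (true, [n1,n0,n0,n0,n0,n0,n1,n0,m2]) :: r190

noncomputable def l192 : List Con := (true, [n1,n0,n1,n1,n0,n0,n0,n0,n0,n0,n6]) :: r191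

noncomputable def r192 : List Con := (true, [n0,n0,m1,m1,n0,n0,n0,n0,n0,n0,m6]) :: r191

noncomputable def l193 : List Con := (true, [n1,n0,n4,n4,m2,n0,n0,n0,n0,n0,m3]) :: l192

noncomputable def r193 : List Con := (true, [n0,n0,m4,m4,n2,n0,n0,n0,n0,n0,n3]) :: l192

noncomputable def l194 : List Con := (true, [n1,n0,m4,m4,n2,n0,n0,n0,n0,n0,n3]) :: l193

noncomputable def r194 : List Con := (true, [n0,n0,n4,n4,m2,n0,n0,n0,n0,n0,m3]) :: l193

noncomputable def l195 : List Con := (true, [n1,n0,m1,m1,n0,n0,n0,n0,n0,n0,m6]) :: r194

noncomputable def r195 : List Con := (true, [n0,n0,n1,n1,n0,n0,n0,n0,n0,n0,n6]) :: r194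

noncomputable def l196 : List Con := (false, [n0,n0,n0,n0,n0,n0,n0,n0,n0,n0,n0,n0,m1,n2]) :: r195

noncomputable def r196 : List Con := (true, [n1,n0,n0,n0,n0,n0,n0,n0,n0,n0,n0,n0,n1,m2]) :: r195

noncomputable def l197 : List Con := (false, [n0,n0,n0,n0,n0,n0,n0,n0,n0,n0,n0,n0,n1,m2]) :: r196

noncomputable def r197 : List Con := (true, [n1,n0,n0,n0,n0,n0,n0,n0,n0,n0,n0,n0,m1,n2]) :: r196

noncomputable def l198 : List Con := (true, [n1,n0,n1,n1,n0,n0,n0,n2,n0,n1,m1]) :: r193

noncomputable def r198 : List Con := (true, [n0,n0,m1,m1,n0,n0,n0,m2,n0,m1,n1]) :: r193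

noncomputable def l199 : List Con := (true, [n1,n0,m1,m1,n0,n0,n0,m2,n0,m1,n1]) :: l198

noncomputable def r199 : List Con := (true, [n0,n0,n1,n1,n0,n0,n0,n2,n0,n1,m1]) :: l198

noncomputable def l200 : List Con := (true, [n1,n0,m1,m1,n0,n0,n0,n0,n0,n0,m6]) :: r199

noncomputable def r200 : List Con := (true, [n0,n0,n1,n1,n0,n0,n0,n0,n0,n0,n6]) :: r199

noncomputable def l201 : List Con := (false, [n0,n0,n0,n0,n0,n0,n0,n0,n0,n0,n0,n0,n1,m2]) :: r200

noncomputable def r201 : List Con := (true, [n1,n0,n0,n0,n0,n0,n0,n0,n0,n0,n0,n0,m1,n2]) :: r200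

noncomputable def l202 : List Con := (false, [n0,n0,n0,n0,n0,n0,n0,n0,n0,n0,n0,n0,m1,n2]) :: r201

noncomputable def r202 : List Con := (true, [n1,n0,n0,n0,n0,n0,n0,n0,n0,n0,n0,n0,n1,m2]) :: r201

noncomputable def l203 : List Con := (true, [n1,n0,n1,n1,n0,n0,n0,n0,n0,n0,n7]) :: r198

noncomputable def r203 : List Con := (true, [n0,n0,m1,m1,n0,n0,n0,n0,n0,n0,m7]) :: r198

noncomputable def l204 : List Con := (true, [n1,n0,m1,m1,n0,n0,n0,n0,n0,n0,m7]) :: l203

noncomputable def r204 : List Con := (true, [n0,n0,n1,n1,n0,n0,n0,n0,n0,n0,n7]) :: l203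

noncomputable def l205 : List Con := (false, [n0,n0,n0,n0,n0,n0,n0,n0,n0,n0,n0,n0,m1,n2]) :: r204

noncomputable def r205 : List Con := (true, [n1,n0,n0,n0,n0,n0,n0,n0,n0,n0,n0,n0,n1,m2]) :: r204

noncomputable def l206 : List Con := (false, [n0,n0,n0,n0,n0,n0,n0,n0,n0,n0,n0,n0,n1,m2]) :: r205

noncomputable def r206 : List Con := (true, [n1,n0,n0,n0,n0,n0,n0,n0,n0,n0,n0,n0,m1,n2]) :: r205

noncomputable def l207 : List Con := (true, [n1,n0,n3,n3,m1,n0,n0,n0,n0,n0,n5]) :: r203

noncomputable def r207 : List Con := (true, [n0,n0,m3,m3,n1,n0,n0,n0,n0,n0,m5]) :: r203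

noncomputable def l208 : List Con := (true, [n1,n0,m3,m3,n1,n0,n0,n0,n0,n0,m5]) :: l207

noncomputable def r208 : List Con := (true, [n0,n0,n3,n3,m1,n0,n0,n0,n0,n0,n5]) :: l207

noncomputable def l209 : List Con := (false, [n0,n0,n0,n0,n0,n0,n0,n0,n0,n0,n0,n0,n1,m2]) :: r208

noncomputable def r209 : List Con := (true, [n1,n0,n0,n0,n0,n0,n0,n0,n0,n0,n0,n0,m1,n2]) :: r208

noncomputable def l210 : List Con := (false, [n0,n0,n0,n0,n0,n0,n0,n0,n0,n0,n0,n0,m1,n2]) :: r209

noncomputable def r210 : List Con := (true, [n1,n0,n0,n0,n0,n0,n0,n0,n0,n0,n0,n0,n1,m2]) :: r209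

noncomputable def l211 : List Con := (false, [n0,n0,n0,n0,n0,n0,n0,n0,n0,n0,n0,n0,n1,m2]) :: r207

noncomputable def r211 : List Con := (true, [n1,n0,n0,n0,n0,n0,n0,n0,n0,n0,n0,n0,m1,n2]) :: r207

noncomputable def l212 : List Con := (false, [n0,n0,n0,n0,n0,n0,n0,n0,n0,n0,n0,n0,m1,n2]) :: r211

noncomputable def r212 : List Con := (true, [n1,n0,n0,n0,n0,n0,n0,n0,n0,n0,n0,n0,n1,m2]) :: r211

noncomputable def l213 : List Con := (false, [n0,n0,n0,n0,n0,n0,n0,n0,n0,n0,n0,n0,n1,m2]) :: r192

noncomputable def r213 : List Con := (true, [n1,n0,n0,n0,n0,n0,n0,n0,n0,n0,n0,n0,m1,n2]) :: r192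

noncomputable def l214 : List Con := (false, [n0,n0,n0,n0,n0,n0,n0,n0,n0,n0,n0,n0,m1,n2]) :: r213

noncomputable def r214 : List Con := (true, [n1,n0,n0,n0,n0,n0,n0,n0,n0,n0,n0,n0,n1,m2]) :: r213

noncomputable def l215 : List Con := (true, [n1,n0,n1,n1,n0,n0,n0,n2,n0,n1,m1]) :: r189

noncomputable def r215 : List Con := (true, [n0,n0,m1,m1,n0,n0,n0,m2,n0,m1,n1]) :: r189

noncomputable def l216 : List Con := (true, [n1,n0,m1,m1,n0,n0,n0,m2,n0,m1,n1]) :: l215

noncomputable def r216 : List Con := (true, [n0,n0,n1,n1,n0,n0,n0,n2,n0,n1,m1]) :: l215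

noncomputable def l217 : List Con := (false, [n0,n0,n0,n0,n0,n0,n0,n0,n0,n0,n0,n0,m1,n2]) :: r216

noncomputable def r217 : List Con := (true, [n1,n0,n0,n0,n0,n0,n0,n0,n0,n0,n0,n0,n1,m2]) :: r216

noncomputable def l218 : List Con := (false, [n0,n0,n0,n0,n0,n0,n0,n0,n0,n0,n0,n0,m1,n2]) :: r215

noncomputable def r218 : List Con := (true, [n1,n0,n0,n0,n0,n0,n0,n0,n0,n0,n0,n0,n1,m2]) :: r215

noncomputable def l219 : List Con := (true, [n1,n0,m2,m2,n1,n0,n0,n1,n0,n0,m1]) :: r4

noncomputable def r219 : List Con := (true, [n0,n0,n2,n2,m1,n0,n0,m1,n0,n0,n1]) :: r4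

noncomputable def l220 : List Con := (true, [n1,n0,n2,n2,m1,n0,n0,m1,n0,n0,n1]) :: l219

noncomputable def r220 : List Con := (true, [n0,n0,m2,m2,n1,n0,n0,n1,n0,n0,m1]) :: l219

noncomputable def l221 : List Con := (true, [n0,n0,n0,n0,n0,n0,m1,n0,n2]) :: r220

noncomputable def r221 : List Con := (true, [n1,n0,n0,n0,n0,n0,n1,n0,m2]) :: r220

noncomputable def l222 : List Con := (true, [n0,n0,n0,n0,n0,n0,n1,n0,m2]) :: r221

noncomputable def r222 : List Con := (true, [n1,n0,n0,n0,n0,n0,m1,n0,n2]) :: r221

noncomputable def l223 : List Con := (false, [n0,n0,n0,n0,n0,n0,n0,n0,n0,n0,n0,n0,m1,n2]) :: r222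

noncomputable def r223 : List Con := (true, [n1,n0,n0,n0,n0,n0,n0,n0,n0,n0,n0,n0,n1,m2]) :: r222

noncomputable def l224 : List Con := (true, [n0,n0,n0,n0,n0,n0,n1,n0,m2]) :: r219

noncomputable def r224 : List Con := (true, [n1,n0,n0,n0,n0,n0,m1,n0,n2]) :: r219

noncomputable def l225 : List Con := (true, [n0,n0,n0,n0,n0,n0,m1,n0,n2]) :: r224

noncomputable def r225 : List Con := (true, [n1,n0,n0,n0,n0,n0,n1,n0,m2]) :: r224

noncomputable def l226 : List Con := (true, [n1,n0,n1,n1,n0,n0,n0,n2,n0,n1,m1]) :: r225

noncomputable def r226 : List Con := (true, [n0,n0,m1,m1,n0,n0,n0,m2,n0,m1,n1]) :: r225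

noncomputable def l227 : List Con := (true, [n1,n0,m1,m1,n0,n0,n0,m2,n0,m1,n1]) :: l226

noncomputable def r227 : List Con := (true, [n0,n0,n1,n1,n0,n0,n0,n2,n0,n1,m1]) :: l226

noncomputable def l228 : List Con := (true, [n1,n0,m1,m1,n1,n0,n0,n0,n0,n0,n6]) :: r227

noncomputable def r228 : List Con := (true, [n0,n0,n1,n1,m1,n0,n0,n0,n0,n0,m6]) :: r227

noncomputable def l229 : List Con := (true, [n1,n0,n1,n1,m1,n0,n0,n0,n0,n0,m6]) :: l228

noncomputable def r229 : List Con := (true, [n0,n0,m1,m1,n1,n0,n0,n0,n0,n0,n6]) :: l228

noncomputable def l230 : List Con := (false, [n0,n0,n0,n0,n0,n0,n0,n0,n0,n0,n0,n0,n1,m2]) :: r229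

noncomputable def r230 : List Con := (true, [n1,n0,n0,n0,n0,n0,n0,n0,n0,n0,n0,n0,m1,n2]) :: r229

noncomputable def l231 : List Con := (false, [n0,n0,n0,n0,n0,n0,n0,n0,n0,n0,n0,n0,m1,n2]) :: r230

noncomputable def r231 : List Con := (true, [n1,n0,n0,n0,n0,n0,n0,n0,n0,n0,n0,n0,n1,m2]) :: r230

noncomputable def l232 : List Con := (true, [n1,n0,m3,m3,n2,n0,n0,n0,n0,n0,n7]) :: r228

noncomputable def r232 : List Con := (true, [n0,n0,n3,n3,m2,n0,n0,n0,n0,n0,m7]) :: r228

noncomputable def l233 : List Con := (true, [n1,n0,n3,n3,m2,n0,n0,n0,n0,n0,m7]) :: l232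

noncomputable def r233 : List Con := (true, [n0,n0,m3,m3,n2,n0,n0,n0,n0,n0,n7]) :: l232

noncomputable def l234 : List Con := (false, [n0,n0,n0,n0,n0,n0,n0,n0,n0,n0,n0,n0,m1,n2]) :: r233

noncomputable def r234 : List Con := (true, [n1,n0,n0,n0,n0,n0,n0,n0,n0,n0,n0,n0,n1,m2]) :: r233

noncomputable def l235 : List Con := (false, [n0,n0,n0,n0,n0,n0,n0,n0,n0,n0,n0,n0,n1,m2]) :: r234

noncomputable def r235 : List Con := (true, [n1,n0,n0,n0,n0,n0,n0,n0,n0,n0,n0,n0,m1,n2]) :: r234

noncomputable def l236 : List Con := (false, [n0,n0,n0,n0,n0,n0,n0,n0,n0,n0,n0,n0,n1,m2]) :: r232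

noncomputable def r236 : List Con := (true, [n1,n0,n0,n0,n0,n0,n0,n0,n0,n0,n0,n0,m1,n2]) :: r232

noncomputable def l237 : List Con := (false, [n0,n0,n0,n0,n0,n0,n0,n0,n0,n0,n0,n0,m1,n2]) :: r236

noncomputable def r237 : List Con := (true, [n1,n0,n0,n0,n0,n0,n0,n0,n0,n0,n0,n0,n1,m2]) :: r236

noncomputable def l238 : List Con := (false, [n0,n0,n0,n0,n0,n0,n0,n0,n0,n0,n0,n0,m1,n2]) :: r226

noncomputable def r238 : List Con := (true, [n1,n0,n0,n0,n0,n0,n0,n0,n0,n0,n0,n0,n1,m2]) :: r226

noncomputable def l239 : List Con := (false, [n0,n0,n0,n0,n0,n0,n0,n0,n0,n0,n0,n0,n1,m2]) :: r238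

noncomputable def r239 : List Con := (true, [n1,n0,n0,n0,n0,n0,n0,n0,n0,n0,n0,n0,m1,n2]) :: r238

open Helper55.PC in
noncomputable def t0n : Helper55.PC.Ten :=
  (q
  5511269272996482463964946226218695264573331415413159329055150470606231370831682455138194604792124591757277981789764299681198839808659474500757411533217778004262996913809767417380878
  (i 21770096439523524742395913222899290472458 (i 21770096439523524742395913240491476516874 (q
  64308983952930938356352648751767956843004566071437638541487652060178212383168725978611426854406142262005611873760537872677735587447304715859944237138507124407106362533447335950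
  (r
  951034275893177584317602564020699106914946709777982457521947855393290813787155465430371397834890385524727160464568764473697616298734173682950233655218696418420841708702301852304637304301501811545009564193242206476455690767911250659502877088950627078341753581647591550251404753126242240220011749161427253264879407939075639112504617003176752481208834724480253079138193677694019260405794488374370525612520285727430360809240582691234057)
  (s
  2274115808115118983126418213176493379559203969497496159293175749884008701237185343655378192796392202820607069014863884303510125755248909546875018461789615084179476999668344293528265639222188184799663538674486640301069724122850858849094826492613904508516497433506943945463197698416753832493512357242039771318895092368316594923287594979898160405590543714863048033678008612668110696271483150725636947333764940340873690921164801977842997873659144822085796918026792851691588405243324417582461356764792345422052160635051136214146426970592759142386784274172229675464965392042367721949213953188773229804839367957535735982381474597087216321))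
  (s
  463298618912837617178702932844576349267055486084014837037016382889667492734497079735492882528050591670772041895642999041005390716342148287181055929491058917608237426216954356662736130823120095669325861545017182043453394049234024660726228575475045693115829428006383523702971007993592679274656483099423932996990432078773714555896170928772701645959106833681716476529405128406699238029883100972640854936950147184593933399217511764302261514610813583887223015950527354938816095464869887463371547609629481777626734793200836857981831823067099764628591603509085871527755628516052480314575218162915343776185086069536696955078443713))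
  (s
  1410830174388849670039668925807855046646314467122443817670857003299129496699864731752365726331075829820430954273683813642759461222580243505028068568864686871374123361792731022233659711631978601600320717488471826398147394326729293968662590333337528341891043598178979296617027905855817532940205112199002608877051611455789025252589722943927869640356006448414645509920042787440624883122457904086490532621280863244516168651048691990682748074578441844241378999832551769677857118705721046869804075601915211618859968244588136485445092351579889722547205332068030166666455807078636019072456771174736737663970494644929))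
  (i 324478944413462952789627040301096 (q
  237181097690626407008798751215407148230688995364368253811480882105094507350327309 (r
  574651577989343138820814082103004116301006979694369140430381933001696853357557188700589013001855661633832493812311935611717391980158724139077273244261378498210838434541849543150736302038738396761330505685966507058771259979771951264830698538194013908179675132759787562565294339392405160220770918953737500262832592214179499980740493751155250518330505697538919671158341263822420873051541698517425467799692780575557398625425242991821593609519569595292131405052662934606882506752637289614939409337124189664447684534903174159158523309088135316756342847367638637402351279137328257720847676663287037288613750283987315843205566453937835148502213687107947790040751138245936094174576507684317401527383582654949533457154517170228965151399607546457546863543597057922959996625665)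
  (i 324637400738492057784811763400744 (i 39609241422143334527900188679 (n
  3289692139682319607224731392583530766776031954020933880654979) (s
  47193766340693037923850092189195341991675377923407482114674218639499173595941850776459286268349225949649192079052122628884009149281643439152652937307242332571156609968083921412794985255904935248821698710388479727652853475584381407321388749126418144442161663120192258689771890752939883073397158166724760886709931056629889967524895628298242769560006551270348120807387936415243515853183286728444862779018043544589368962505725755894835962027430110084950833495468392582564925493142195773240860721171804438015210225147993978427676987498391826025898501869074255208240312527115027865470335078652556572090171340108241921398844888139377227591786348600718525121))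
  (q
  727558983369078770751204795082524760884284674293875156782522662763896949386663926874667777461994137815101590142198867390823700415637685596637755104058071503208462
  (r
  18834014183192971991238790470373575324994367121184785253681337921338618562236735101182800160344364760903852803090660427594184414895823824761976661592970752560474813316771870466127115941204624505127365358600035647221402993374465870304137552929581490635109126657577291891365000715014136015027997760260855462344312006870761273786466354071124826668128938810479540227017757333351927290875954098929021847298318396784505071855181153223690078830894288796646544094011689)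
  (s
  1750514083850036157851469265724260872308409436123498392575045058542580950444216569794447631042573386169371705985728370077293894975155455464660191687239365177313127589203356238284784767431301294178163825522660717426215107351708116646179981576404851909117903566353889679169004075167959759698217199081606497683613317221920883030566387656042269856847401108767480709494239465884615289779144309410052925203271414467274892011875401803112957486822395524551462526990904858143332926315421647057528456536430714587330185129332908307811418177197321890331485987231143376840538172697229158052266689))))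
  (i 21791364087376855233848253895861826879530 (q
  237182002316323994790742172092474320277079833717852729708769042563914586415562765 (i
  2659429586840050809170424367564324873 (r
  2983761583146147877874153522033389226772819487909555467767481700867204866684717769976389690177269775895730782186231966477897802782765180029218485497615310275959674594306076395344317516106048630370618904008791655904527407257526318211624274416540202809960137913139129155371453160502087622108557674766308652228463366589165654525891852158583125506005116703773907501445219116344220022546426716128485138315068010837775400893393360271571437521782864833923755259147314639740552621759930643146133858798162969607475606128199506910365864824480447016881256473239814967813639415975072581072750780925200598219758364274681198603046030162024571863957572616472747273685572270472049477779695491935955233434540443693919076012637417859994904536916737221049493932172027799492342587372949598892419753452576030635677983489)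
  (i 2658131512644764637455378312360755209 (r
  55040686301263432912070161893340205790912029938287980874153149687100797080599537965682121952238124891335952324464740736769931739280442431319635811697065092001774393061768767539362795344640193047225262256088942226987918645919636714136187579257010539409180074141273206912053424274532010581571636653438189650027095207363235067086219090695498358852915972583684898461824194173480132591767877028159130706953224860091061867021701604715168152473079522639459956891711076928502956551896279631035590653546777015625574128080163476826687592146284358007459264755041523577461573054264736394047299969076899539870027741255517768779757074613190673606367216458348056586211476762697285295556401169184555368478272292452662569743390548562635775048870425510783716011075869459481980342623047007674336530909277634379825971008475145518830592769)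
  (q
  9468116849263842930049375402908683644241951237580293016774898300463124683322704587260787877837040655903456262361913955299172921668930897790557316928545973636624904271531934424022648092753934
  (r
  3437297728743564862284867635913497710314759821218001784140986427461857261606446634652054385742554922221691458075028574151032899494614838303833459680219684575378885559334590081006430683810676862114042007133857422205711828084254349544287241902569289057728128115328361202420627492821881731879726383319317942476594795781239793388538506214371070780510597545810214218911113418010921012366814870486492061479160054418867040462331910427916885592578025163048286761988291263952331049)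
  (q
  9468116849328679110813140917885440017112125630564862489153775102455768695177090172080281801254080482915423645576761885460801792791561989118015935430165628265527916147975575233062565180473358
  (q
  727558983369078820699181018667243575643904179384327221397778924937464634848930444622402874720644746897185781719735349268301570472670346440914782896977601506705422
  (r
  163110311445084958288016431981114131745022291413395945375061225773307669496138223669565272214230698458329001189075179067421366813959042788904489732891024605550058317792266828937198464523046129917544632123603972058678018355147561034993106126116520471812072696868523729952022202784623274136036625777970561745403326875233420767605408634487305872226060183530652026516026587713008723829513)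
  (r
  2039517432281507800886075146221987577495692316560616333700546962918735586479291195841552058513450315314015930026154395832882194868973705279366005470632465785858854911534518833983808690286706150002288435101788139612928083838799004904717230875219049235535724963898916863978618544493745444975547998393760059320641229219738551950910835323856178304351909031540769416273726087930864383269081354290927921941412315691603637480522434205765081738967289008652726151942465285923498173093686031418584038258179408111500929268644424324532548993104008528028473487989932661609980590641847295626322167194409))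
  (i 21770096439602752904910321658084429266986 (n
  359977661093413104026453833411812630645330675438189477661126788) (i
  21786047175393715570356494587621296701450 (r
  2983761583146147877883240486059174123790233725364192724950354586760007153670766306519471247982510984981111443654352248149536984054556648149904897212766719001314618984563585226045464983544322864891978490688679657956301176467031813140145060783309850481978328830865480787061645439348064056838431948051375895340431725380257902240991685570138935397399762945121458026233297397786257860199403789959345605657197439825608320713660989055281957911953656729194030782365438206955819189702820599431560934044630790898525770939134261934634992436950538443102861728575455646949448840486120562407211880814574869817355907338113975613210377821721671238885303569858433715747089951123484094991920909542007606069304268980104964199553877921704711520557492850224359012866028735430932153677608900389288365941309822285165896449)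
  (r
  29013274182095527429920952389390138711910220857700724077001453093175041375729515491878137101261114578224043507595285273560500541927979092500740187765737209815399126452159738134570434407704407396358164181945120919381975137865449160317151790372081189976179085101331137971266909562966948247684378139628581933549636530914655414929486426123010357516621622702390598356027008075187714915674962447402181153065009149651378253476940489513)))))))
  (i 21791364087376855233848253895861826879498 (q
  11101669057755718738375830305108730188385620683523922381565309397590857100723747428862231475037194020223804805064946286438512830817116340030048946126342717454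
  (r
  66901650748291778563284801391841389098503318199302081119510690179200035747423919234036991883819164997557974551801785708956453080154515731966069346542298134841355798399824512591140396997410821629461209809611099834006862553341785160743361219563610289674487943511474443883001908657116863209824089926933213445802479797496350720771641671528011155807964481899512507423125609975418470337191865030863527298146813926831244392357511690561070231987270459689)
  (s
  186295424864757197615730581241593908201371949475465114920986902614518854876457986418582090453311543711835285890826914141237732538139942158137245581065712007090833066813650575903618661983927433040661554083249661604920184034126138944996465051205659522030011194712299362604539498792222122831289938051049117506490817543386764173512932253285025993506044180727183658112719714473931038298138599201655036912156737799449484287463887260211077915698981963316453874896277830276114335673591847853806557517740530959768624063063846505597724342718077949628655891102237893301605160571135732684916242479395596054523462955581302283219997584354371661988545))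
  (i 2660078623947370023663116930647195657 (n
  442217265914820980285494343429200845965671033327661352135666745822818436) (i
  2657482475537445422962685749277884425 (n
  41743147787962080184851370521133093565124986651383953932404612690529461584146564) (n
  2005515173198743444671675719340643818981773809188443634978664580))))) (i
  178471303778386496655666957706716153458589739 (q
  15096314472346787612258410100523931449551137349360533015036012177716503952257001889072080960591391275711132935076572012078881885167192499712479674098814264113597054582798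
  (q
  8498343004764146489125476459837385252686691058300140718594931726584947649227323966016252858349845713919886479311510411708549098388358450407582975020294969455672567531227612293275713550
  (q
  12747446947298283278642182112257134271323436000116396192915915044054254097248783075163182420876052168157430210039665747127613388471938521583738904541857642554488931997482927725853409294
  (r
  698475175930172556508716543679783447317285762159500136081328721734361756002569405854526276110526199825781077257308668435701232441024207343133429292387793318062045773508074867149839678099920791772279986396901818178237675659454582785495280772107184321907770983231939044549851927106585773039274129238359366580162807405613438620324791368359023104212221977488036105126089876869554553304653190406409)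
  (r
  2213552352631174744092425205395372722912797498276078160160846803743526720720460779861833105925306440076658314200823960279431348976550726189892115220940126089192191612365037621135480491904568017021321795832550086596261495212120605440152309432794019908119963535103099152702456760331631878320609472893706730756392021992806960817138267560663769752532349845235543670258275379450861598622045759770161834453748255882602960501613353))
  (r
  9415570402744139759864394541398360440547628698401828874589686748151526727046480987627581732344706004819784377141591851329549598341992122262361858961811675805305631858475250441776941373916210344289618963551861790437468297731195994711644662022156721896991173456918603777639727156410809372842189322705305837183522806929651502666375769371695916755594010827766969817871240244304486917444972651507412619494504181594982122710480550290716129341818479142991013221769513))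
  (r
  16459694935370090363303663751753858651561606839820656997130922123034629281154313804779282821764789320872404861933457579123436396149550423686118117254931805843684295216672984428903755878785218333688210934386031549244421469300774060927762454691064061346205474284823951067022480312913586021050726687834678270622786598505724571383496480216805701977522001993329376624463937319993544286261229946775500538823223084061606058025567536012482815521754385812160461833160022320514070109881106539061095814563788589965201326960262281313657023148231329647823020032995287299007570745637938145318235691643551370783139698041129))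
  (q 237182906942021582572685592969541492323470672071337205606057203022734665480798221 (r
  574651577989343138821514116347837265082407306394664119643685385886836624202383842690084021076504602377307080973977048158474395930328027266019805080189346907377816943891321511853812113274629547437519307974368129114275008737394217332037546630498559017663531657278294151588218349245833542139028816147288229755085653049381956594527579315857870785956817426686301126963162301999801568707374903054005607535850570651280701372799861044715484133261201389477553353451089940186233765980696128068089385994076237140205318556770677248409951765424422582862346696457633082882256369475298748075227995823669430821313135286510571861129610765925542747823047914933413343318051463649971212085597283371368179470796456898703291183370087940391243026720780665707769594043337483949460829774593)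
  (q
  30192164171632953021224628424477007013307547661238160806509972019866234231370001669585474290396864529204302726855794483583273736120803246038819553773385925531074438496270
  (q
  12747446947298283278642182112257134271323436000122210813984849687312573181202633218859333041795564300613551726177764281764638722078528112710268017744511067497871475125003024900408082446
  (r
  617058821914239943369372569487779724382676734677251915625274807288870749657555186143125145647463055922698015508763738402279706522133231092648080081941269271431165917290502810518477431549579364753249887759347111733542101124085656117229160568315720807454593120583484462713346281830327909924459364360932342257796632675391157097648388595409260946606129286126492017745009993215337974367613754804865896825560339768231203301111285196656029223682536734758845628688009273641)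
  (r
  349242922845600963996615879074420221617598674634813075302085949353296953141158458157120366395818367231348898470153998861228785740098913071942905001881494995291755007359154502633367172544325021919757067885970277776750654662418641097893946808408224767805290721596976098735621847529250329913190871485840259879539532839157909926110978988648576209429348708984624481325936069546039332662480076022025))
  (r
  3170021935150818897975912171900628844471593679583079386283939618445561888491267116932335571388859636755884871560929945178799870788735115023872166685520484376966220157290637216193728714602377521000353217279483369489387640978930925554759132313604900531244492704223748714104437074836765040857358929543565201900934475241813850552494022954407144907090488554066356263937612491642062241325157226210603661260919664355242849033681429440998530904563385692571719757539906966376335872848118994684334644839770765378562097413308217033860107471399477844932603907970676589806583716237271337)))))))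

noncomputable def t0 : Tre := Helper55.PC.toT t0n

theorem ok0 : chk K t0 l0 = true :=
  Helper55.PC.chkN_sound K t0n l0 (by decide +kernel)

open Helper55.PC in
noncomputable def t1n : Helper55.PC.Ten :=
  (i 21791364087376855233848109815862418341930 (q
  260098548768054537532844465890960283962434319546146024957020014801246443488098669691500060219511651376140839325262060885980278486298813489214864389836122794360846
  (i 21770096439523524742395913240491476516874 (r
  133803302306505855631414423633387154743856243440039169173667799368150997284215159384835402733277775448862264178535753197284834940879741001707260170626760773862428676247022122483568791338549679457142198822888520459079240039914151318439117775600396919940403367098556280464558612006432643521069379840231401518723276330673667168801103781860981260595759518777422332127932126752022195479564940488267208386344019923633327476162676370567772900466555625737)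
  (n
  1767307129589113606351577873988329593661796239276453932010066074734228821608387811519481759844931341956))
  (s
  1989852416512604640341096884266739671074988480430061867891873884753063001610538934202270386651963533602288458421793000766419428925195832525658109843104373151098337884666470657643578643111572307933321284492279064225911153285872428674389266891948823436923779669539361215154931275646237104670081647885470532109646818735267967211467745871356622966909700542792034733254578799836717638119690907781093537363797235330118179348651539665303821274870856788224140397825143313448696077461710708377819744779662615389375901550376071259381724001118231750661849669683111624433658609563555550176280600724349591994074560407766498727068868017004741313))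
  (q
  17045818492063222197026266068969779991049384400307207333876537702243180285926749028720937665270243196950221417954794938021197364469502682526903203206818087460221091854
  (i 21770096439523524742395913222899290472458 (i 21770096439523524742395913240491476516874 (r
  17537598747567739746683203086294436229336784255402613423834296710005432443933070801705845118640369066768009066810494271804409642955792990311362235925147901229730697956385795683552286081686983044939878491609391518442709692045178161601950841620282717653711344559935665852654540676788155288996719936782346388871575925606574850409237493715278853664278164537543800492100634793791239495724810161444258174950680673572440134398903319451886520669253733697462537)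
  (r
  1679768242383922397971934084006441989135011966080668706004789994768420638288440016384386680604107870375026632758613847814678946302536131183574033450751330270490598510688402706714894696192567736067576048754053194846699383234146770520745762361596930495109637473016151549867396329135227743631332985612685270766510298826354062661568057095308450845016022569142657210940302934004120201168447353278723434783323021363882210498066148874230083402275374376194714909038018984488155560615543787189816704132129195565321))
  (s
  640106694126537764744510967592504219479327740087601078669590305480551864617335442041865954497034758820141572287929994093455478545717010892586023975721933138060584765529968503181922865246640183309757498294882101596500356727603828118881413878358080832931230848623073033253949947975793463185167433846058032176100791753766882749498704386023031125965459896951983226934675119135672445866420691892003819613476025778076238056215348683388931528016727837785665476009042175243588182853223647939028734102363529742398882530499988937966624363953609919560458839322787653757377444314882522220457595719520004854991264510602945569896636914039663876870084282548929))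
  (s
  1989852416512604640341096884266739671074988480430061867891873884753063001610538934202270386651963533602288458421793000766419428925195832525658109843104373151098337884666470657643578643111572307933321284492279064225911153285872428674389266891948823436923779669539361215154931275646237104670081647885470532109646818735267967211467745871356622966909700542792034733254578799836717638119690907781093537363797235330118179348651539665313619041494452700480003521714345757464043644049652071961729969315275600528984405061094102252855362090451267411095096469173411866149498769204671523258271596718860358569422133722490234908214866089069249217)))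

noncomputable def t1 : Tre := Helper55.PC.toT t1n

theorem ok1 : chk K t1 l1 = true :=
  Helper55.PC.chkN_sound K t1n l1 (by decide +kernel)

noncomputable def t2 : Tre :=
  (.N [0,0,1,-2] 0 ⟨0,[(2,0)]⟩ ⟨0,[(3,0)]⟩ (.x 0 ⟨0,[(0,0)]⟩ ⟨55,[(4,35),(10,2),(5,2),(7,111),(1,
  39),(13,55),(3,7),(4,45)]⟩))

theorem ok2 : chk K t2 l5 = true := by decide +kernel

noncomputable def t3 : Tre :=
  (.N [0,0,1,-2] 0 ⟨0,[(4,0)]⟩ ⟨0,[(5,0)]⟩ (.x (-1) ⟨4,[(8,8),(20,7),(11,0),(6,3),(2,1),(4,3),(7,0),
  (11,1)]⟩ ⟨0,[(0,0)]⟩))

theorem ok3 : chk K t3 l7 = true := by decide +kernel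

noncomputable def t4 : Tre :=
  (.N [0,-1,2,1,1] (-1) ⟨0,[(2,0)]⟩ ⟨0,[(0,0)]⟩ (.x 0 ⟨3,[(3,1),(14,0),(5,0),(22,1),(1,5),(12,1),(2,
  3),(9,3)]⟩ ⟨10,[(23,0),(12,10),(5,10),(0,2),(2,0),(3,11),(1,4),(1,10),(12,0),(9,7),(0,5)]⟩))

theorem ok4 : chk K t4 l8 = true := by decide +kernel

noncomputable def t5 : Tre :=
  (.N [0,1,1,2,1] 0 ⟨0,[(0,0)]⟩ ⟨0,[(1,0)]⟩ (.x (-1) ⟨3,[(5,3),(14,0),(5,0),(22,1),(1,7),(12,1),(12,
  5)]⟩ ⟨1,[(3,1),(12,0),(21,1),(13,1),(1,0),(1,1),(23,0)]⟩))

theorem ok5 : chk K t5 l10 = true := by decide +kernel

noncomputable def t6 : Tre :=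
  (.N [0,-1,2,2] (-1) ⟨0,[(0,0)]⟩ ⟨0,[(1,0)]⟩ (.x 0 ⟨3,[(7,3),(14,0),(5,0),(24,9),(15,1),(9,9)]⟩
  ⟨44,[(0,30),(1,1),(2,15),(17,1),(9,13),(4,13),(7,57),(3,34),(1,36),(1,38),(1,15),(1,68),(12,1),(2,
  20)]⟩))

theorem ok6 : chk K t6 l12 = true := by decide +kernel

noncomputable def t7 : Tre :=
  (.N [0,-2,0,2,-1] (-1) ⟨0,[(1,0)]⟩ ⟨0,[(0,0)]⟩ (.x 1 ⟨1,[(9,1),(17,0),(27,0),(15,0)]⟩ ⟨143,[(7,
  107),(16,18),(5,18),(9,43),(7,71),(5,107),(3,31),(4,89),(10,115)]⟩))

theorem ok7 : chk K t7 l14 = true := by decide +kernel

noncomputable def t8 : Tre :=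
  (.N [0,1,0,0,5] 0 ⟨0,[(11,0)]⟩ ⟨0,[(0,0)]⟩ (.x (-1) ⟨3,[(25,0),(5,0),(2,15),(25,1)]⟩ ⟨2,[(24,2),
  (3,0),(20,2),(14,0),(1,0)]⟩))

theorem ok8 : chk K t8 l15 = true := by decide +kernel

noncomputable def t9 : Tre :=
  (.N [0,1,1,1,2] 0 ⟨0,[(1,0)]⟩ ⟨0,[(0,0)]⟩ (.x (-1) ⟨3,[(12,1),(14,0),(5,0),(22,3),(1,3),(12,3),(2,
  1)]⟩ ⟨40,[(3,2),(6,15),(0,2),(18,5),(1,2),(12,39),(5,8),(3,2),(3,23),(1,9),(1,16),(4,18),(7,2),
  (10,8)]⟩))

theorem ok9 : chk K t9 l17 = true := by decide +kernel

noncomputable def t10 : Tre :=
  (.N [0,0,1,-2] 0 ⟨0,[(15,0)]⟩ ⟨0,[(16,0)]⟩ (.i 0 ⟨0,[(0,0)]⟩ ⟨0,[(19,1),(39,0)]⟩))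

theorem ok10 : chk K t10 l18 = true := by decide +kernel

noncomputable def t11 : Tre :=
  (.N [0,0,1,-2] 0 ⟨0,[(16,0)]⟩ ⟨0,[(17,0)]⟩ (.i 1 ⟨1,[(28,0),(14,2),(21,1)]⟩ ⟨0,[(0,0)]⟩))

theorem ok11 : chk K t11 l19 = true := by decide +kernel

open Helper55.PC in
noncomputable def t12n : Helper55.PC.Ten :=
  (r
  9948488205280908454918760815386603376070496582231294582923125595385692497293689071876967119076641006318099631583524230148915309061673223717978095488191746589533490789375712690368065535860121653817713275357010678145609835135853970094823500835635446111266165005942096822765593561459644450742811014288784895805460921634811240276106)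

noncomputable def t12 : Tre := Helper55.PC.toT t12n

theorem ok12 : chk K t12 r19 = true :=
  Helper55.PC.chkN_sound K t12n r19 (by decide +kernel)

noncomputable def t13 : Tre :=
  (.N [0,0,1,-2] 0 ⟨0,[(14,0)]⟩ ⟨0,[(15,0)]⟩ (.i 0 ⟨0,[(0,0)]⟩ ⟨0,[(18,1),(39,0)]⟩))

theorem ok13 : chk K t13 l20 = true := by decide +kernel

noncomputable def t14 : Tre :=
  (.N [0,0,1,-2] 0 ⟨0,[(15,0)]⟩ ⟨0,[(16,0)]⟩ (.i 1 ⟨1,[(27,0),(14,2),(21,1)]⟩ ⟨0,[(0,0)]⟩))

theorem ok14 : chk K t14 l21 = true := by decide +kernel

open Helper55.PC in
noncomputable def t15n : Helper55.PC.Ten :=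
  (r
  175870675198514046543209461256001061281065847994557875429529075088004504623976654666110888593342660645990636361839792273615304876322235696282334755105816034317093226099114732146824951319998506305021161708468802223532629001641624146671697994604309250209613460474093296982653224447518498366441865303735924502405014796031025079217411689145077552930954)

noncomputable def t15 : Tre := Helper55.PC.toT t15n

theorem ok15 : chk K t15 r21 = true :=
  Helper55.PC.chkN_sound K t15n r21 (by decide +kernel)

noncomputable def t16 : Tre :=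
  (.N [0,0,0,1,-2] 0 ⟨0,[(1,0)]⟩ ⟨0,[(0,0)]⟩ (.x 0 ⟨0,[(24,0),(17,0)]⟩ ⟨17,[(8,8),(16,7),(5,7),(2,
  26),(6,0),(17,3),(1,8),(13,0)]⟩))

theorem ok16 : chk K t16 l23 = true := by decide +kernel

noncomputable def t17 : Tre :=
  (.N [0,1,2,1,-1] 0 ⟨0,[(1,0)]⟩ ⟨0,[(0,0)]⟩ (.x (-1) ⟨3,[(26,3),(0,0),(5,0),(10,1),(11,1),(1,7),
  (23,1),(1,7)]⟩ ⟨24,[(1,5),(8,9),(0,0),(2,10),(10,4),(8,0),(3,19),(12,4),(7,4),(1,17),(1,59),(12,
  4),(11,18)]⟩))

theorem ok17 : chk K t17 l25 = true := by decide +kernel

noncomputable def t18 : Tre :=
  (.N [0,-2,0,0,2] (-1) ⟨0,[(0,0)]⟩ ⟨0,[(1,0)]⟩ (.x 0 ⟨4,[(29,1),(5,1),(2,7),(24,1),(1,3),(10,3)]⟩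
  ⟨0,[(28,0),(24,0),(4,0)]⟩))

theorem ok18 : chk K t18 l27 = true := by decide +kernel

noncomputable def t19 : Tre :=
  (.N [0,-1,0,0,7] (-1) ⟨0,[(1,0)]⟩ ⟨0,[(0,0)]⟩ (.x 0 ⟨4,[(31,0),(5,0),(2,33),(24,0),(1,1),(10,1)]⟩
  ⟨2,[(30,5),(3,0),(20,5),(4,2),(9,0),(1,0)]⟩))

theorem ok19 : chk K t19 l29 = true := by decide +kernel

noncomputable def t20 : Tre :=
  (.N [0,3,0,0,5] 1 ⟨0,[(1,0)]⟩ ⟨0,[(0,0)]⟩ (.x (-2) ⟨3,[(33,0),(5,0),(2,7),(25,5)]⟩ ⟨0,[(36,0),(23,
  0),(13,0)]⟩))

theorem ok20 : chk K t20 l31 = true := by decide +kernel

noncomputable def t21 : Tre :=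
  (.N [0,1,0,0,8] 0 ⟨0,[(1,0)]⟩ ⟨0,[(0,0)]⟩ (.x (-1) ⟨3,[(36,0),(5,0),(2,27),(25,1)]⟩ ⟨11,[(35,20),
  (3,9),(20,20),(4,8),(9,0),(1,9)]⟩))

theorem ok21 : chk K t21 l34 = true := by decide +kernel

noncomputable def t22 : Tre :=
  (.N [0,0,1,-2] 0 ⟨0,[(24,0)]⟩ ⟨0,[(25,0)]⟩ (.i 1 ⟨1,[(36,0),(14,2),(21,1)]⟩ ⟨0,[(0,0)]⟩))

theorem ok22 : chk K t22 l35 = true := by decide +kernel

noncomputable def t23 : Tre :=
  (.N [0,0,1,-2] 0 ⟨0,[(25,0)]⟩ ⟨0,[(26,0)]⟩ (.i 0 ⟨0,[(0,0)]⟩ ⟨0,[(29,1),(39,0)]⟩))

theorem ok23 : chk K t23 l36 = true := by decide +kernel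

open Helper55.PC in
noncomputable def t24n : Helper55.PC.Ten :=
  (s
  6224034907170776614169181170297917483328341365269957299889407647616807707295597091715782461427630890129191065851644961253522460461639317478629154462878536118734467337726888309776698377453107299802699281790289450382234869778765616755766084144358793927555821551919355774595870279504743786763144172969426628266212200206197866099027842016419469684535881491112727912107667421977738250597909987892350373366992687889943695904047755892160379667570007735476257582608123151484341194287480888010182840191154943277413473285344506751956891951172224879970282611256629076133212857838550721630307009)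

noncomputable def t24 : Tre := Helper55.PC.toT t24n

theorem ok24 : chk K t24 r36 = true :=
  Helper55.PC.chkN_sound K t24n r36 (by decide +kernel)

noncomputable def t25 : Tre :=
  (.N [0,1,0,0,7] 0 ⟨0,[(2,0)]⟩ ⟨0,[(0,0)]⟩ (.x (-1) ⟨3,[(36,0),(5,0),(2,23),(25,1)]⟩ ⟨5,[(35,8),(3,
  3),(20,8),(4,2),(9,0),(1,3)]⟩))

theorem ok25 : chk K t25 l37 = true := by decide +kernel

noncomputable def t26 : Tre :=
  (.N [0,0,1,-2] 0 ⟨0,[(24,0)]⟩ ⟨0,[(25,0)]⟩ (.i 1 ⟨1,[(36,0),(14,2),(21,1)]⟩ ⟨0,[(0,0)]⟩))

theorem ok26 : chk K t26 l38 = true := by decide +kernel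

noncomputable def t27 : Tre :=
  (.N [0,0,1,-2] 0 ⟨0,[(25,0)]⟩ ⟨0,[(26,0)]⟩ (.i 0 ⟨0,[(0,0)]⟩ ⟨0,[(29,1),(39,0)]⟩))

theorem ok27 : chk K t27 l39 = true := by decide +kernel

open Helper55.PC in
noncomputable def t28n : Helper55.PC.Ten :=
  (s
  26732026425255463738464741458947851102759197464342559836048407442793204225318041002785097652484248952197296476770915785172011975226848424769434647760130923786925626289031924802961423054235723065535341984765350325417362485759350578265862200315595585500559472597076284850832179653704204975919908343839331580534374036072541094965896234449110397478337648068188824442520921524062888259328589551669525550125108406598990003965908183430270428729506423291801203460162927076946090156882610914110110509572183350569546338071541892184208549596139912504662157163212493132792433949166430896817136246662890177)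

noncomputable def t28 : Tre := Helper55.PC.toT t28n

theorem ok28 : chk K t28 r39 = true :=
  Helper55.PC.chkN_sound K t28n r39 (by decide +kernel)

noncomputable def t29 : Tre :=
  (.N [0,0,1,-2] 0 ⟨0,[(22,0)]⟩ ⟨0,[(23,0)]⟩ (.i 0 ⟨0,[(0,0)]⟩ ⟨0,[(26,1),(39,0)]⟩))

theorem ok29 : chk K t29 l40 = true := by decide +kernel

noncomputable def t30 : Tre :=
  (.N [0,0,1,-2] 0 ⟨0,[(23,0)]⟩ ⟨0,[(24,0)]⟩ (.i 1 ⟨1,[(35,0),(14,2),(21,1)]⟩ ⟨0,[(0,0)]⟩))

theorem ok30 : chk K t30 l41 = true := by decide +kernel

open Helper55.PC in
noncomputable def t31n : Helper55.PC.Ten :=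
  (s
  382404729392805534466802847686642835774645130866009842121242933832965275584979455506756094167120547959014184249696320578516342056696159235858473890390968832272684757508680067362759341519016168675201566895342189009687528214484988901997951233819873036134302887766890349225419399896856119164406943942581707318476563985134712721426955339514715126895729909169855147314080659122462463479137762840352831505529225267589937147852092640376467151729677844550152106709202841774827801525195679054913593857074963149058247776534758801805794878213180587819436825602062868041983755097976097344284009693889)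

noncomputable def t31 : Tre := Helper55.PC.toT t31n

theorem ok31 : chk K t31 r41 = true :=
  Helper55.PC.chkN_sound K t31n r41 (by decide +kernel)

noncomputable def t32 : Tre :=
  (.N [0,1,0,0,6] 0 ⟨0,[(0,0)]⟩ ⟨0,[(1,0)]⟩ (.x (-1) ⟨3,[(34,0),(5,0),(2,19),(25,1)]⟩ ⟨3,[(33,4),(3,
  1),(20,4),(4,0),(9,0),(1,1)]⟩))

theorem ok32 : chk K t32 l43 = true := by decide +kernel

noncomputable def t33 : Tre :=
  (.N [0,0,1,-2] 0 ⟨0,[(22,0)]⟩ ⟨0,[(23,0)]⟩ (.i 0 ⟨0,[(0,0)]⟩ ⟨0,[(26,1),(39,0)]⟩))

theorem ok33 : chk K t33 l44 = true := by decide +kernel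

noncomputable def t34 : Tre :=
  (.N [0,0,1,-2] 0 ⟨0,[(23,0)]⟩ ⟨0,[(24,0)]⟩ (.i 1 ⟨1,[(35,0),(14,2),(21,1)]⟩ ⟨0,[(0,0)]⟩))

theorem ok34 : chk K t34 l45 = true := by decide +kernel

open Helper55.PC in
noncomputable def t35n : Helper55.PC.Ten :=
  (s
  7054122168677392779508205522984769934076594991629189423673519117219883268539782276217365578405792317734884743226737545248257568380582984560486434246663774302016965003139488119551583658700085814073917356649357172417959754204665512625554469146095076629183660034296105336748300527269841008942398673909754891994400637626463652157328554891394171638277066772709797519633178684514554945040856785431813323454008122604963996871955663998154536157364966748693473104484628855603662927864469334899287359385008028342627339821572885612773196556890073798439399701015722629916282985750386422309281191330611515457262618411713)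

noncomputable def t35 : Tre := Helper55.PC.toT t35n

theorem ok35 : chk K t35 r45 = true :=
  Helper55.PC.chkN_sound K t35n r45 (by decide +kernel)

noncomputable def t36 : Tre :=
  (.N [0,0,1,-2] 0 ⟨0,[(21,0)]⟩ ⟨0,[(22,0)]⟩ (.i 1 ⟨1,[(33,0),(14,2),(21,1)]⟩ ⟨0,[(0,0)]⟩))

theorem ok36 : chk K t36 l46 = true := by decide +kernel

open Helper55.PC in
noncomputable def t37n : Helper55.PC.Ten :=
  (s
  100461545347486027078710140248388524685629134117618835115099311486250816263743643674539468358267362943844134013185411635222739324910622183894991941054014227990767551465083413051103012266441515308971711454379958844876293591620584997126926580903844650981776427918577506673754389031536564816803856065700778157129285356607965531272963588778098614745078135912148710204180625045066734152801271868649248405417127667060061767254291264522658570723022878108066378173990025751848065700398485256763948424264201039050374399468800733328722846861980830816273317498641556483093173950062578592081662036813718690986984129)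

noncomputable def t37 : Tre := Helper55.PC.toT t37n

theorem ok37 : chk K t37 r46 = true :=
  Helper55.PC.chkN_sound K t37n r46 (by decide +kernel)

noncomputable def t38 : Tre :=
  (.N [0,0,1,-2] 0 ⟨0,[(18,0)]⟩ ⟨0,[(19,0)]⟩ (.i 1 ⟨1,[(30,0),(14,2),(21,1)]⟩ ⟨0,[(0,0)]⟩))

theorem ok38 : chk K t38 l47 = true := by decide +kernel

noncomputable def t39 : Tre :=
  (.N [0,0,1,-2] 0 ⟨0,[(19,0)]⟩ ⟨0,[(20,0)]⟩ (.i 0 ⟨0,[(0,0)]⟩ ⟨0,[(23,1),(39,0)]⟩))

theorem ok39 : chk K t39 l48 = true := by decide +kernel

open Helper55.PC in
noncomputable def t40n : Helper55.PC.Ten :=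
  (q 1888932446754652666960548513080531808592814297214611787378977635696655 (s
  35728821461157618171505090617146029909256588725573651773762701922746350447887042128631073664327403694616779382921746784497007134543290387763985096038553691858346015900571861564986674442965269053033079070848604609677580718260506894443596288842681222081572780468425674793914288595290790890042711745399834190812617531848118554346306841175684503649539366680470400457521268757563866582088257946133873012932698646707987127309116574755092445908411652265789556762914601858387849190056513586217274695683925657810607069343037730190034099004174009234433386883149234973695631653402214146979653132519625424065509151253201277081051028974338273806165300128127709287631666330877165941483379884737)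
  (r
  5910748872752586146936515024220330031591116033968088746154387580388588973671597541327385883545192837825386269332956391058933689754816973061734577208362865541641828610010999654612997403655555739231300432300137242070362920634637450677939743326753530485894164831739941878180278878207477514386362958748903150720675742839842936362927867424216881320943747712156584872152829472812409409003741930775761350374560895718489088138))

noncomputable def t40 : Tre := Helper55.PC.toT t40n

theorem ok40 : chk K t40 r48 = true :=
  Helper55.PC.chkN_sound K t40n r48 (by decide +kernel)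

noncomputable def t41 : Tre :=
  (.N [0,0,1,-2] 0 ⟨0,[(16,0)]⟩ ⟨0,[(17,0)]⟩ (.i 0 ⟨0,[(0,0)]⟩ ⟨0,[(20,1),(39,0)]⟩))

theorem ok41 : chk K t41 l49 = true := by decide +kernel

open Helper55.PC in
noncomputable def t42n : Helper55.PC.Ten :=
  (s
  1259185841991579850053112516056871216981224404275716638627682943396105555174378068177688233657017483890892499828573723620862897774193692391392787901405950737778669591068159012308129824545392019590670876132484970633618663617459750761682777314473990508433449709720875733715576063092028495542988288851239060447832775104038426639249719476924608235751890145947230915851687498952971192008287891593837310351152459314286998789034769669765316777905245697280902783853293794453877269884823829735060621911276403271901555696471963169459369580354620369496599054435192742813143570382311864845869760739781513315009)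

noncomputable def t42 : Tre := Helper55.PC.toT t42n

theorem ok42 : chk K t42 r49 = true :=
  Helper55.PC.chkN_sound K t42n r49 (by decide +kernel)

noncomputable def t43 : Tre :=
  (.N [0,0,1,-2] 0 ⟨0,[(14,0)]⟩ ⟨0,[(15,0)]⟩ (.i 1 ⟨1,[(26,0),(14,2),(21,1)]⟩ ⟨0,[(0,0)]⟩))

theorem ok43 : chk K t43 l50 = true := by decide +kernel

noncomputable def t44 : Tre :=
  (.N [0,0,1,-2] 0 ⟨0,[(15,0)]⟩ ⟨0,[(16,0)]⟩ (.i 0 ⟨0,[(0,0)]⟩ ⟨0,[(19,1),(39,0)]⟩))

theorem ok44 : chk K t44 l51 = true := by decide +kernel

open Helper55.PC in
noncomputable def t45n : Helper55.PC.Ten :=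
  (s
  1204438702561877561663335751795211717629075733458550325943471476555132805956839390455528338673138678086037057517582825838628471522246837699563710769135895167048561672472965372742126956125576258946726299239158458868079963569341037925060005790020447143158535734929476191457967545577555274818771957999304115172569030874300838527029624057665913198914690398543012724317731357923727988851518933737267327573108388830144025223345307749605440517424226996977326711734974303185761842504915868266436949929981546605071294588774740582463913105191933478009362189028046419153879398135209218390606524614042102792897)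

noncomputable def t45 : Tre := Helper55.PC.toT t45n

theorem ok45 : chk K t45 r51 = true :=
  Helper55.PC.chkN_sound K t45n r51 (by decide +kernel)

noncomputable def t46 : Tre :=
  (.N [0,-2,1,0,-2] (-1) ⟨0,[(1,0)]⟩ ⟨0,[(0,0)]⟩ (.x 1 ⟨0,[(29,0),(27,0)]⟩ ⟨35,[(26,6),(5,6),(9,19),
  (13,35),(3,7),(4,17),(10,19)]⟩))

theorem ok46 : chk K t46 l53 = true := by decide +kernel

noncomputable def t47 : Tre :=
  (.N [0,3,0,0,7] 1 ⟨0,[(1,0)]⟩ ⟨0,[(0,0)]⟩ (.x (-2) ⟨3,[(28,0),(5,0),(2,15),(25,5)]⟩ ⟨0,[(27,0),(3,
  0),(20,0),(16,0)]⟩))

theorem ok47 : chk K t47 l55 = true := by decide +kernel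

noncomputable def t48 : Tre :=
  (.N [0,0,1,-2] 0 ⟨0,[(16,0)]⟩ ⟨0,[(17,0)]⟩ (.i 0 ⟨0,[(0,0)]⟩ ⟨0,[(20,1),(39,0)]⟩))

theorem ok48 : chk K t48 l56 = true := by decide +kernel

noncomputable def t49 : Tre :=
  (.N [0,0,1,-2] 0 ⟨0,[(17,0)]⟩ ⟨0,[(18,0)]⟩ (.i 1 ⟨1,[(29,0),(14,2),(21,1)]⟩ ⟨0,[(0,0)]⟩))

theorem ok49 : chk K t49 l57 = true := by decide +kernel

open Helper55.PC in
noncomputable def t50n : Helper55.PC.Ten :=
  (s
  24237785381846974457719774865751162903560984946097509684750300701339685854954157807876716689873617560355771310105752162649277551861236856027128349749373778912790351447669155255788181059749845227821981781839059582549793326700409196897386485318967398773086863991731427410006005980790768209799921863364617135833376850873228464705035171218253125632239589536137870766603906714772118857747879111393023363560662523805245421682514759376800201843572629696235597476475602350482560809961220075671058612150649147470812630172592533900996658774181196986585539516303047330831527137485035133795561652701617055167024388590236293137089)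

noncomputable def t50 : Tre := Helper55.PC.toT t50n

theorem ok50 : chk K t50 r57 = true :=
  Helper55.PC.chkN_sound K t50n r57 (by decide +kernel)

noncomputable def t51 : Tre :=
  (.N [0,0,1,-2] 0 ⟨0,[(15,0)]⟩ ⟨0,[(16,0)]⟩ (.i 1 ⟨1,[(27,0),(14,2),(21,1)]⟩ ⟨0,[(0,0)]⟩))

theorem ok51 : chk K t51 l58 = true := by decide +kernel

noncomputable def t52 : Tre :=
  (.N [0,0,1,-2] 0 ⟨0,[(16,0)]⟩ ⟨0,[(17,0)]⟩ (.i 0 ⟨0,[(0,0)]⟩ ⟨0,[(20,1),(39,0)]⟩))

theorem ok52 : chk K t52 l59 = true := by decide +kernel

open Helper55.PC in
noncomputable def t53n : Helper55.PC.Ten :=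
  (s
  1259185840563759207060724910682971549816370391738935696520204571821936592402477530896842248304427744747581265013689962177583811599615643867672000721172593602157223023056139459089979936392226323010509196381700202616694734105203025431149536270910852153746236301053756611696069818434856016829266533886128250881717815884144439120506226171319968769418561463522237606667720314915590322186502930430733075905454780562339304341382800774146278140417688038612881295687798548504937655947165353958388748993386164725868638793069651933276450042828330384772973101548370113113879478591832228667496349734746983498433)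

noncomputable def t53 : Tre := Helper55.PC.toT t53n

theorem ok53 : chk K t53 r59 = true :=
  Helper55.PC.chkN_sound K t53n r59 (by decide +kernel)

noncomputable def t54 : Tre :=
  (.N [0,-2,0,0,5] (-1) ⟨0,[(2,0)]⟩ ⟨0,[(1,0)]⟩ (.x 0 ⟨4,[(28,1),(5,1),(2,22),(24,1),(1,3),(10,3)]⟩
  ⟨0,[(0,0)]⟩))

theorem ok54 : chk K t54 l62 = true := by decide +kernel

noncomputable def t55 : Tre :=
  (.N [0,-2,0,0,5] (-1) ⟨0,[(3,0)]⟩ ⟨0,[(2,0)]⟩ (.x 1 ⟨0,[(0,0)]⟩ ⟨15,[(28,27),(0,4),(5,4),(17,27),
  (4,15),(9,5)]⟩))

theorem ok55 : chk K t55 l63 = true := by decide +kernel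

noncomputable def t56 : Tre :=
  (.N [0,0,1,-2] 0 ⟨0,[(17,0)]⟩ ⟨0,[(18,0)]⟩ (.i 1 ⟨1,[(29,0),(14,2),(21,1)]⟩ ⟨0,[(0,0)]⟩))

theorem ok56 : chk K t56 l64 = true := by decide +kernel

open Helper55.PC in
noncomputable def t57n : Helper55.PC.Ten :=
  (s
  104100495526343189365004284150322457311673148676086897660269179839282201839807223298169041446248834287472612130480058125615241144733998479722873959451826364573086283456394764838917990770875794299251332418842905185392123250873661983849767920281142965299058253737159130286378763033548903281655351390377234381695380730471281465666169424971172175188096079013126989398478572351280713806775929839073732260365483387537372547004589986593127698263183537121758118518599945409073774228418956881876021968164108075692143354320000749675150894853763143898877095332381511605835530810362306405157560729568447234200332251359308654501134559347393)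

noncomputable def t57 : Tre := Helper55.PC.toT t57n

theorem ok57 : chk K t57 r64 = true :=
  Helper55.PC.chkN_sound K t57n r64 (by decide +kernel)

noncomputable def t58 : Tre :=
  (.N [0,-2,0,0,7] (-1) ⟨0,[(1,0)]⟩ ⟨0,[(0,0)]⟩ (.x 0 ⟨4,[(30,1),(5,1),(2,32),(24,1),(1,3),(10,3)]⟩
  ⟨0,[(2,0)]⟩))

theorem ok58 : chk K t58 l67 = true := by decide +kernel

noncomputable def t59 : Tre :=
  (.N [0,0,1,-2] 0 ⟨0,[(18,0)]⟩ ⟨0,[(19,0)]⟩ (.i 1 ⟨1,[(30,0),(14,2),(21,1)]⟩ ⟨0,[(0,0)]⟩))

theorem ok59 : chk K t59 l68 = true := by decide +kernel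

noncomputable def t60 : Tre :=
  (.N [0,0,1,-2] 0 ⟨0,[(19,0)]⟩ ⟨0,[(20,0)]⟩ (.i 0 ⟨0,[(0,0)]⟩ ⟨0,[(23,1),(39,0)]⟩))

theorem ok60 : chk K t60 l69 = true := by decide +kernel

open Helper55.PC in
noncomputable def t61n : Helper55.PC.Ten :=
  (s
  93285728502018367321118654551312643192546284951864087321146213619091275085414494820426866062372487461782424235372738700842199483442352272061360922550230475670010026114417486700797762742082064206615030116754891424093963007422046808485216964161327269091958233157322485954148501597854144016479731321337710623374841747068754869160976185314644610800905969575515336443444340349839334318721017888900232274734946800041101825333916413076329301196322100701150544892558129952107764182094845748846259350199245644816363640580584830127699725507761883869655742700389159341270081126609427682902901853375851082164470465)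

noncomputable def t61 : Tre := Helper55.PC.toT t61n

theorem ok61 : chk K t61 r69 = true :=
  Helper55.PC.chkN_sound K t61n r69 (by decide +kernel)

noncomputable def t62 : Tre :=
  (.N [0,0,1,-2] 0 ⟨0,[(17,0)]⟩ ⟨0,[(18,0)]⟩ (.i 0 ⟨0,[(0,0)]⟩ ⟨0,[(21,1),(39,0)]⟩))

theorem ok62 : chk K t62 l70 = true := by decide +kernel

noncomputable def t63 : Tre :=
  (.N [0,0,1,-2] 0 ⟨0,[(18,0)]⟩ ⟨0,[(19,0)]⟩ (.i 1 ⟨1,[(30,0),(14,2),(21,1)]⟩ ⟨0,[(0,0)]⟩))

theorem ok63 : chk K t63 l71 = true := by decide +kernel

open Helper55.PC in
noncomputable def t64n : Helper55.PC.Ten :=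
  (s
  1654632730972240581455957868211254075161191993143041376713413376611474441533274597874060310810765453365767610448217939453000115762706937443948341712666339123206429590727556199758140479465354480855386943241278213086086454604239373525684495520470751873865634775530807716372808032817723477311745345785426541975695461256019208601740635772602036228378982316603042534686762299676901315683114336605961097683423085416900831151594019680937491438666969372622972866324166442457360759753686261777931580245996537571760765289409286766301851782887255641581292767375977866899082130866992683346886170616155861660277048817095467301323408065)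

noncomputable def t64 : Tre := Helper55.PC.toT t64n

theorem ok64 : chk K t64 r71 = true :=
  Helper55.PC.chkN_sound K t64n r71 (by decide +kernel)

noncomputable def t65 : Tre :=
  (.N [0,0,1,-2] 0 ⟨0,[(16,0)]⟩ ⟨0,[(17,0)]⟩ (.i 0 ⟨0,[(0,0)]⟩ ⟨0,[(20,1),(39,0)]⟩))

theorem ok65 : chk K t65 l72 = true := by decide +kernel

noncomputable def t66 : Tre :=
  (.N [0,0,1,-2] 0 ⟨0,[(17,0)]⟩ ⟨0,[(18,0)]⟩ (.i 1 ⟨1,[(29,0),(14,2),(21,1)]⟩ ⟨0,[(0,0)]⟩))

theorem ok66 : chk K t66 l73 = true := by decide +kernel

open Helper55.PC in
noncomputable def t67n : Helper55.PC.Ten :=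
  (s
  24237785378085260597291470348376270500022255689627475651242815538828621276178024136282958978834585592894162135898847564903058203947898864882975741610761493416669653688200993676356854922364341408292704984579190888062458960354793981472045744162164510888092699847487433508331121865504809170950663846829788524250213233731592167496748543778343072213957491829938754258431034378606726318097542459731576532811570177559962899557548705188768885643468113669968971590233306801385284320520112792388029727392259582358737310046149856922994166733172788831196157699487071537967625222277318790223700799156995915899523878729520314843841)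

noncomputable def t67 : Tre := Helper55.PC.toT t67n

theorem ok67 : chk K t67 r73 = true :=
  Helper55.PC.chkN_sound K t67n r73 (by decide +kernel)

noncomputable def t68 : Tre :=
  (.N [0,3,0,0,8] 1 ⟨0,[(1,0)]⟩ ⟨0,[(0,0)]⟩ (.x (-2) ⟨3,[(28,0),(5,0),(2,19),(25,5)]⟩ ⟨155,[(0,0),
  (11,7),(2,3),(11,194),(3,179),(20,194),(4,14),(2,41),(8,137),(18,10)]⟩))

theorem ok68 : chk K t68 l75 = true := by decide +kernel

noncomputable def t69 : Tre :=
  (.N [0,-2,0,0,3] (-1) ⟨0,[(2,0)]⟩ ⟨0,[(1,0)]⟩ (.x 0 ⟨4,[(31,1),(5,1),(2,12),(24,1),(1,3),(10,3)]⟩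
  ⟨0,[(0,0)]⟩))

theorem ok69 : chk K t69 l78 = true := by decide +kernel

noncomputable def t70 : Tre :=
  (.N [0,-2,0,0,3] (-1) ⟨0,[(3,0)]⟩ ⟨0,[(2,0)]⟩ (.x 1 ⟨0,[(0,0)]⟩ ⟨15,[(31,19),(0,6),(5,6),(17,19),
  (4,15),(9,1)]⟩))

theorem ok70 : chk K t70 l79 = true := by decide +kernel

noncomputable def t71 : Tre :=
  (.N [0,0,1,-2] 0 ⟨0,[(20,0)]⟩ ⟨0,[(21,0)]⟩ (.i 1 ⟨1,[(32,0),(14,2),(21,1)]⟩ ⟨0,[(0,0)]⟩))

theorem ok71 : chk K t71 l80 = true := by decide +kernel

open Helper55.PC in
noncomputable def t72n : Helper55.PC.Ten :=
  (s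
  117113040918307842483660792745976359379520293269825763309584244740588956126090558228183294913380679098259793101751458239737126514758792654803951660328324556853019545134810197307626750776887277158375584559030533975988516849565959697198051071983339601427120477633636074973709112555673059792833183203008404666143221118894717992861416083905745899733303885355114528535127472728651431908830272328909788334222878638690334908915108225185147256360284116224751781665026154342395312178268407804907330348275004693139416706756961631625150671788357981744697497246833369463424535681160365042787263744776978855601343677275299889380809084240577)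

noncomputable def t72 : Tre := Helper55.PC.toT t72n

theorem ok72 : chk K t72 r80 = true :=
  Helper55.PC.chkN_sound K t72n r80 (by decide +kernel)

noncomputable def t73 : Tre :=
  (.N [0,0,1,-2] 0 ⟨0,[(18,0)]⟩ ⟨0,[(19,0)]⟩ (.i 1 ⟨1,[(30,0),(14,2),(21,1)]⟩ ⟨0,[(0,0)]⟩))

theorem ok73 : chk K t73 l81 = true := by decide +kernel

noncomputable def t74 : Tre :=
  (.N [0,0,1,-2] 0 ⟨0,[(19,0)]⟩ ⟨0,[(20,0)]⟩ (.i 0 ⟨0,[(0,0)]⟩ ⟨0,[(23,1),(39,0)]⟩))

theorem ok74 : chk K t74 l82 = true := by decide +kernel

open Helper55.PC in
noncomputable def t75n : Helper55.PC.Ten :=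
  (s
  1720817961378879430628658132447361815390257866986458511848090058962868933480319642424035220400720592976294648636130095092800156211157349036621703195601324339949418978827286247850915602379641989769738535310075828520607935691953104430045357717946901026553877471088560980431973986130937552241800144066994894860675773037589423350261863240791068714214323914622279004055020549702333195664946158896137110858078901544847248527512601748580843598382179574211566530370006610747160042867832319519821277187473949925282464066892756599600831992795309090938700094927436952281127087426993232631853134347469987861538548124383801059555934913)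

noncomputable def t75 : Tre := Helper55.PC.toT t75n

theorem ok75 : chk K t75 r82 = true :=
  Helper55.PC.chkN_sound K t75n r82 (by decide +kernel)

noncomputable def t76 : Tre :=
  (.N [0,0,1,-2] 0 ⟨0,[(17,0)]⟩ ⟨0,[(18,0)]⟩ (.i 0 ⟨0,[(0,0)]⟩ ⟨0,[(21,1),(39,0)]⟩))

theorem ok76 : chk K t76 l83 = true := by decide +kernel

noncomputable def t77 : Tre :=
  (.N [0,0,1,-2] 0 ⟨0,[(18,0)]⟩ ⟨0,[(19,0)]⟩ (.i 1 ⟨1,[(30,0),(14,2),(21,1)]⟩ ⟨0,[(0,0)]⟩))

theorem ok77 : chk K t77 l84 = true := by decide +kernel

open Helper55.PC in
noncomputable def t78n : Helper55.PC.Ten :=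
  (s
  108438010640836036648781651331830007443515669824049934672270303198257104472000352604351759776668617456219857457848491293628758244971742872514931145697531506253435727478497458154385339647964014658265592561475732294867339134650918412557936261787881313787306949574579781009327410175943449131819244036364416782948092191641884837874171214216211079764151898926189045889531314825656206172358438425149842223617923698033476322508113127733905093650797157368845540550039138694073693430582083274364735892423553605451821384652879151876898427635046139280601686137817117666473115258709491204446203916022572466780669902632323158517383328432833)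

noncomputable def t78 : Tre := Helper55.PC.toT t78n

theorem ok78 : chk K t78 r84 = true :=
  Helper55.PC.chkN_sound K t78n r84 (by decide +kernel)

noncomputable def t79 : Tre :=
  (.N [0,0,1,-2] 0 ⟨0,[(15,0)]⟩ ⟨0,[(16,0)]⟩ (.i 0 ⟨0,[(0,0)]⟩ ⟨0,[(19,1),(39,0)]⟩))

theorem ok79 : chk K t79 l85 = true := by decide +kernel

noncomputable def t80 : Tre :=
  (.N [0,0,1,-2] 0 ⟨0,[(16,0)]⟩ ⟨0,[(17,0)]⟩ (.i 1 ⟨1,[(28,0),(14,2),(21,1)]⟩ ⟨0,[(0,0)]⟩))

theorem ok80 : chk K t80 l86 = true := by decide +kernel

open Helper55.PC in
noncomputable def t81n : Helper55.PC.Ten :=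
  (s
  23227878942118505479462940693629376664372290703143719674985314667673276069468743747858760212065819968590992489423146938039188982415977963526583244263041921583477314537148387579737514409431092157359585685358671430199704645669537684509134296112566965665564024995611040285333315794773221810494461397624670291162849717128622526065319713422932911319613340936317324415965438885417984982803637927733527975226490269283618787975743606187523470283169803019537412223575225916780350501145336531293727153524039740562699782349563129071770565188885948234373027167606236581449174289329966966493559720123482130147265284070873496552129)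

noncomputable def t81 : Tre := Helper55.PC.toT t81n

theorem ok81 : chk K t81 r86 = true :=
  Helper55.PC.chkN_sound K t81n r86 (by decide +kernel)

noncomputable def t82 : Tre :=
  (.N [0,1,1,1,2] 0 ⟨0,[(1,0)]⟩ ⟨0,[(0,0)]⟩ (.x (-1) ⟨3,[(8,1),(14,0),(5,0),(22,3),(1,3),(12,3),(2,
  1)]⟩ ⟨13,[(2,2),(3,3),(19,2),(14,9),(5,5),(3,2),(3,2),(1,3),(1,7),(4,6),(10,2)]⟩))

theorem ok82 : chk K t82 l88 = true := by decide +kernel

noncomputable def t83 : Tre :=
  (.N [0,0,1,-2] 0 ⟨0,[(11,0)]⟩ ⟨0,[(12,0)]⟩ (.i 0 ⟨0,[(0,0)]⟩ ⟨0,[(15,1),(39,0)]⟩))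

theorem ok83 : chk K t83 l89 = true := by decide +kernel

open Helper55.PC in
noncomputable def t84n : Helper55.PC.Ten :=
  (i 178601966890371995429648373123906525424910379 (r
  543320240697337976456045546792006444773855198456022506581813906723710152571967883824721265321643736310627115853881419152912896340700898476525972260135586458334230627731754317299934921388700571700573596361557396851466502503147104783516199205226929971204672355127610064198700504499860380658386542362706370626134339092520193676272230538)
  (r
  184882298051543651851072285991920667677552136139737462922377334878770402826799883661497135124115326569282930887513240485613980832009315110390007227920234471095331444872418673725471024549863874598043136010415992122865297660925378783637976346052994268070172697780032620613864060603274595088147463714253031637253222782753365716863017049979640490705356041643555220271261311114))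

noncomputable def t84 : Tre := Helper55.PC.toT t84n

theorem ok84 : chk K t84 r89 = true :=
  Helper55.PC.chkN_sound K t84n r89 (by decide +kernel)

noncomputable def t85 : Tre :=
  (.N [0,1,0,0,5] 0 ⟨0,[(9,0)]⟩ ⟨0,[(0,0)]⟩ (.x (-1) ⟨3,[(23,0),(5,0),(2,15),(25,1)]⟩ ⟨2,[(22,2),(3,
  0),(20,2),(14,0),(1,0)]⟩))

theorem ok85 : chk K t85 l90 = true := by decide +kernel

noncomputable def t86 : Tre :=
  (.N [0,0,1,-2] 0 ⟨0,[(11,0)]⟩ ⟨0,[(12,0)]⟩ (.i 0 ⟨0,[(0,0)]⟩ ⟨0,[(15,1),(39,0)]⟩))

theorem ok86 : chk K t86 l91 = true := by decide +kernel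

noncomputable def t87 : Tre :=
  (.N [0,0,1,-2] 0 ⟨0,[(12,0)]⟩ ⟨0,[(13,0)]⟩ (.i 1 ⟨1,[(24,0),(14,2),(21,1)]⟩ ⟨0,[(0,0)]⟩))

theorem ok87 : chk K t87 l92 = true := by decide +kernel

open Helper55.PC in
noncomputable def t88n : Helper55.PC.Ten :=
  (r
  2821079989591848767487544618514030861864159238257536775340271019959471870437208813695750360778854651794487940779242930660969424554372145055273836004446076282049787045659657392529203297317250494936159980546106145614814011798909372850435301226318098951792703594515018916092393031411177266662759052396449187468230336490569235611555464428257035983499313560497547400470666)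

noncomputable def t88 : Tre := Helper55.PC.toT t88n

theorem ok88 : chk K t88 r92 = true :=
  Helper55.PC.chkN_sound K t88n r92 (by decide +kernel)

noncomputable def t89 : Tre :=
  (.N [0,0,1,-2] 0 ⟨0,[(9,0)]⟩ ⟨0,[(10,0)]⟩ (.i 0 ⟨0,[(0,0)]⟩ ⟨0,[(13,1),(39,0)]⟩))

theorem ok89 : chk K t89 l95 = true := by decide +kernel

open Helper55.PC in
noncomputable def t90n : Helper55.PC.Ten :=
  (i 178340630032576556233383473040768551092355115 (i
  178514854604440393639326777897159179259478059 (n
  1290144643767890642281372451540828113139653423961232566922743912696314009645577725949734368869241221)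
  (s
  114107331842703847453189245589015757534903085465418370542844413863789745935990900031522772747871769774176286030679501907104850628863811321499787793640467796295802668683572602572603714437199343787709808899788740571073365495056805594583690848212488007203961014672297381768666093893598255642954036216623372589437954899831841190585110631231957251466568657993951801470175695829772741047906249282642259166797702578997854100125762730236501988263803042313871810585511474893181885931223150703500616023678327121911790221116609166097709828523936952588527840733135242071144067633610213462438224680009816317209560584853855951044567590788968309581254466774654405099962915209941055511200449))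
  (s
  25091703603348239666018085726828274158196049386813828388157996413055827198919876987029540276942408500617595269056716499701109667503788106916615441523505480473009615548672233450498229102487774343257147546489002740160537058674681977206780968254916538838671025454197506475532575545241936567555387582710583563859563327581838395204236742475425158150742447349926694335229251559518051749903325183705140392760972322286346963121412034631141709590580289564095361464072351009126660441170705538745047693390634664090636544742021074774730715125433734231222199407342416918678206865067656480191413789965455013336851174707209810470324697935489349535927231643667241611815620185162433))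

noncomputable def t90 : Tre := Helper55.PC.toT t90n

theorem ok90 : chk K t90 r95 = true :=
  Helper55.PC.chkN_sound K t90n r95 (by decide +kernel)

noncomputable def t91 : Tre :=
  (.N [0,-2,0,1,1] (-1) ⟨0,[(2,0)]⟩ ⟨0,[(0,0)]⟩ (.x 0 ⟨19,[(7,9),(14,8),(5,8),(2,15),(24,3),(1,7),
  (10,17)]⟩ ⟨8,[(1,6),(3,0),(32,0),(19,0),(13,0)]⟩))

theorem ok91 : chk K t91 l96 = true := by decide +kernel

noncomputable def t92 : Tre :=
  (.N [0,-2,0,1,2] (-1) ⟨0,[(2,0)]⟩ ⟨0,[(1,0)]⟩ (.x 0 ⟨19,[(10,9),(14,8),(5,8),(2,35),(24,3),(1,7),
  (10,17)]⟩ ⟨0,[(0,0)]⟩))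

theorem ok92 : chk K t92 l99 = true := by decide +kernel

noncomputable def t93 : Tre :=
  (.N [0,0,1,-2] 0 ⟨0,[(13,0)]⟩ ⟨0,[(14,0)]⟩ (.i 0 ⟨0,[(0,0)]⟩ ⟨0,[(17,1),(39,0)]⟩))

theorem ok93 : chk K t93 l100 = true := by decide +kernel

noncomputable def t94 : Tre :=
  (.N [0,0,1,-2] 0 ⟨0,[(14,0)]⟩ ⟨0,[(15,0)]⟩ (.i 1 ⟨1,[(26,0),(14,2),(21,1)]⟩ ⟨0,[(0,0)]⟩))

theorem ok94 : chk K t94 l101 = true := by decide +kernel

open Helper55.PC in
noncomputable def t95n : Helper55.PC.Ten :=
  (s
  7216730915057706310467318526366919397078148435817798563945539885501976891737882295303373699832513468669287123816099727967644742712136553227129304875392360039716228863948133520845833853751570630096496670955123219719550946897901351093846784865363689473918088653473371153888057053061269068074190120142188665214428290119379849217502216836321621269084031436077956387273310394155754636271688346228366254232997337938423534453614445141960851104224334270186370725329624012788216425138929466137659452715737191705095240142801253283194659555334240175593557059524214800717138360508761970109910095821349552110532442697271916700379479643331640954324905176209088582779585)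

noncomputable def t95 : Tre := Helper55.PC.toT t95n

theorem ok95 : chk K t95 r101 = true :=
  Helper55.PC.chkN_sound K t95n r101 (by decide +kernel)

noncomputable def t96 : Tre :=
  (.N [0,0,1,-2] 0 ⟨0,[(12,0)]⟩ ⟨0,[(13,0)]⟩ (.i 0 ⟨0,[(0,0)]⟩ ⟨0,[(16,1),(39,0)]⟩))

theorem ok96 : chk K t96 l102 = true := by decide +kernel

open Helper55.PC in
noncomputable def t97n : Helper55.PC.Ten :=
  (s
  15872151015681789357031580936051418975953120270389988600755635447539879915882366686683345441066443660916556514120524426328602820578320879347333031619740045504547445777413575991428573106373790134599338288268515894454602808814713968726400107186102161661483679811553522320460672557794267588165900069378120044832170921910821245228138189077133817629661061791526347478959591961806023864645455142545430825374767394903321952513965689312092926525373445544195035569437346275106421597739210831150562249288135093435600631612543059067193064881038410945268685216938121658838713861883794690199757967894512321)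

noncomputable def t97 : Tre := Helper55.PC.toT t97n

theorem ok97 : chk K t97 r102 = true :=
  Helper55.PC.chkN_sound K t97n r102 (by decide +kernel)

noncomputable def t98 : Tre :=
  (.N [0,-1,2,2] (-1) ⟨0,[(1,0)]⟩ ⟨0,[(0,0)]⟩ (.x 0 ⟨3,[(10,3),(14,0),(5,0),(24,9),(15,1),(9,9)]⟩
  ⟨9,[(1,1),(2,7),(3,3),(3,3),(3,2),(19,7),(12,0),(3,1),(3,1),(1,7),(1,23),(24,5)]⟩))

theorem ok98 : chk K t98 l104 = true := by decide +kernel

noncomputable def t99 : Tre :=
  (.N [0,1,2,1,-1] 0 ⟨0,[(1,0)]⟩ ⟨0,[(0,0)]⟩ (.x (-1) ⟨3,[(26,3),(0,0),(5,0),(10,1),(11,1),(1,7),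
  (23,1),(1,7)]⟩ ⟨109,[(2,19),(7,43),(3,63),(19,16),(3,106),(12,21),(3,10),(3,10),(1,86),(1,263),(1,
  2),(22,78)]⟩))

theorem ok99 : chk K t99 l106 = true := by decide +kernel

noncomputable def t100 : Tre :=
  (.N [0,0,1,-2] 0 ⟨0,[(15,0)]⟩ ⟨0,[(16,0)]⟩ (.i 0 ⟨0,[(0,0)]⟩ ⟨0,[(19,1),(39,0)]⟩))

theorem ok100 : chk K t100 l107 = true := by decide +kernel

noncomputable def t101 : Tre :=
  (.N [0,0,1,-2] 0 ⟨0,[(16,0)]⟩ ⟨0,[(17,0)]⟩ (.i 1 ⟨1,[(28,0),(14,2),(21,1)]⟩ ⟨0,[(0,0)]⟩))

theorem ok101 : chk K t101 l108 = true := by decide +kernel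

open Helper55.PC in
noncomputable def t102n : Helper55.PC.Ten :=
  (s
  1259185840155864745462228035943665033951051438440281468022597066084061848873307025994174457008556928419406845929972894816495127302820628537732022062712333541993996657008096016072518010938079861204457088780089481691801186115539144784150543961583765640206064380112741490389921359010526795196958111434637353336948503350984550811606825749658701122647988186565950287592778899033222898623408150054126481653592691564962510999609471906870767755184597490983790711739795662367009219083538347966489155586928272883304515825216837962322753167447412420509884928911029612911119878993434564723526866638796514919105)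

noncomputable def t102 : Tre := Helper55.PC.toT t102n

theorem ok102 : chk K t102 r108 = true :=
  Helper55.PC.chkN_sound K t102n r108 (by decide +kernel)

noncomputable def t103 : Tre :=
  (.N [0,0,1,-2] 0 ⟨0,[(14,0)]⟩ ⟨0,[(15,0)]⟩ (.i 0 ⟨0,[(0,0)]⟩ ⟨0,[(18,1),(39,0)]⟩))

theorem ok103 : chk K t103 l109 = true := by decide +kernel

noncomputable def t104 : Tre :=
  (.N [0,0,1,-2] 0 ⟨0,[(15,0)]⟩ ⟨0,[(16,0)]⟩ (.i 1 ⟨1,[(27,0),(14,2),(21,1)]⟩ ⟨0,[(0,0)]⟩))

theorem ok104 : chk K t104 l110 = true := by decide +kernel

open Helper55.PC in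
noncomputable def t105n : Helper55.PC.Ten :=
  (s
  78934094811095207881168371829650995126475840056186099019125459725530360631759074163176759864012157952290335019004002823112158913654968088398277055062673254191244631838544641768585685017007684552009702461171690391041489430265079815820685306873159421731286646603996500298075434304728516116716491391063295902364735316310272363426627497490577786784313065557452329644639795741756594314493935848529865128903400850349031727297106212192792494470742256073066906399312709941178465942145002424364594519255316098508019785914707313093286791109827556018652936567616056596473904034042998569954818668596029943905780417)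

noncomputable def t105 : Tre := Helper55.PC.toT t105n

theorem ok105 : chk K t105 r110 = true :=
  Helper55.PC.chkN_sound K t105n r110 (by decide +kernel)

noncomputable def t106 : Tre :=
  (.N [0,1,2,0,2] 0 ⟨0,[(1,0)]⟩ ⟨0,[(0,0)]⟩ (.x (-1) ⟨3,[(26,0),(5,0),(22,3),(1,5),(12,3),(2,1),(9,
  1)]⟩ ⟨3,[(22,2),(21,5),(13,5),(1,0),(1,1),(23,2)]⟩))

theorem ok106 : chk K t106 l112 = true := by decide +kernel

noncomputable def t107 : Tre :=
  (.N [0,0,1,-2] 0 ⟨0,[(14,0)]⟩ ⟨0,[(15,0)]⟩ (.i 1 ⟨1,[(26,0),(14,2),(21,1)]⟩ ⟨0,[(0,0)]⟩))

theorem ok107 : chk K t107 l113 = true := by decide +kernel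

noncomputable def t108 : Tre :=
  (.N [0,0,1,-2] 0 ⟨0,[(15,0)]⟩ ⟨0,[(16,0)]⟩ (.i 0 ⟨0,[(0,0)]⟩ ⟨0,[(19,1),(39,0)]⟩))

theorem ok108 : chk K t108 l114 = true := by decide +kernel

open Helper55.PC in
noncomputable def t109n : Helper55.PC.Ten :=
  (s
  18378276175793500963621557908506893533748291161875063614865947876587752187128907438758347118948093300279946156526003116565995473707001257881958357786351530392207312377346363336893006304799030270455823817197353393784958217117923111277183236849831964448317579351180240750560384897544022643791453345934565816936155505333321775334109797772074805019565977037251365596801478855197524770980225285569274044624433472929960760344805260479203954587506778923124714845362170381943789898106674253900000328968841244785177808577690815619766638441695230735483840397586969450782693709672387705655803026714133185)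

noncomputable def t109 : Tre := Helper55.PC.toT t109n

theorem ok109 : chk K t109 r114 = true :=
  Helper55.PC.chkN_sound K t109n r114 (by decide +kernel)

noncomputable def t110 : Tre :=
  (.N [0,0,1,-2] 0 ⟨0,[(13,0)]⟩ ⟨0,[(14,0)]⟩ (.i 0 ⟨0,[(0,0)]⟩ ⟨0,[(17,1),(39,0)]⟩))

theorem ok110 : chk K t110 l115 = true := by decide +kernel

open Helper55.PC in
noncomputable def t111n : Helper55.PC.Ten :=
  (s
  71758277965631117104713128708201156711047726093042934799519099583308199780828915600520744060027139701346906385239564618047542993241762805627622902472970220403922056554087477088250152643133554054510262663452399512480739994440947731339711916875810457426480330628004986499222784204607443792401266297232754499023922874989691212765126774430361998137607342723780085828659501507765462079358284282331684084569993872182727523647241064358311113834170908647595589474967263167349170008486097894898468029735393233820407603241851657620518594639957533922145439429976956228443209301144719713681099653850719206805340865)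

noncomputable def t111 : Tre := Helper55.PC.toT t111n

theorem ok111 : chk K t111 r115 = true :=
  Helper55.PC.chkN_sound K t111n r115 (by decide +kernel)

noncomputable def t112 : Tre :=
  (.N [0,-1,2,2] (-1) ⟨0,[(0,0)]⟩ ⟨0,[(1,0)]⟩ (.x 0 ⟨3,[(8,3),(14,0),(5,0),(24,9),(15,1),(9,9)]⟩
  ⟨12,[(0,6),(5,3),(27,5),(4,3),(7,17),(0,1),(2,10),(1,6),(1,8),(1,5),(1,22),(15,4)]⟩))

theorem ok112 : chk K t112 l118 = true := by decide +kernel

noncomputable def t113 : Tre :=
  (.N [0,0,1,-2] 0 ⟨0,[(11,0)]⟩ ⟨0,[(12,0)]⟩ (.i 1 ⟨1,[(23,0),(14,2),(21,1)]⟩ ⟨0,[(0,0)]⟩))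

theorem ok113 : chk K t113 l119 = true := by decide +kernel

open Helper55.PC in
noncomputable def t114n : Helper55.PC.Ten :=
  (s
  985450151446216987880998271402315500752709674159472635739792440456777994133778574973552980485713008530193410659922366559207129271696547030016514190280188813656211720044167185898108683248122670076015642452495402152152730583194321303058621468609102208136126791993252642442168624165082435642469975954804726320375259769582489005570887252160653659460380175729635282076186888179931632802531713784977267931603889768373391998101730357225910984452513752474673924749085257453396639116473924024998874051357911265486758737403080479664458258683274778532784678970770964578809731742984197849069133849396648084161)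

noncomputable def t114 : Tre := Helper55.PC.toT t114n

theorem ok114 : chk K t114 r119 = true :=
  Helper55.PC.chkN_sound K t114n r119 (by decide +kernel)

noncomputable def t115 : Tre :=
  (.N [0,0,1,-2] 0 ⟨0,[(10,0)]⟩ ⟨0,[(11,0)]⟩ (.i 1 ⟨1,[(22,0),(14,2),(21,1)]⟩ ⟨0,[(0,0)]⟩))

theorem ok115 : chk K t115 l120 = true := by decide +kernel

open Helper55.PC in
noncomputable def t116n : Helper55.PC.Ten :=
  (s
  261969609012196713462628296291481806403673238212098864530875260526339851588932997164698137191260767688114111523499530352000482284319963118395937716522047453313764151696827030428257911453659723826341831732819406720574755565916560768064381184967027944083739480567755876970241796263775907978550509255943597941526402928925832567379998116892364822295885184008618774606774117394263819134022975214297430220232240951133695904001556422704658769351291674516203738514454910880355261076704745528097606315134904180002326032535739964207688056912863995002977621282501924911951166840680692043366754875520584082623589431750165185)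

noncomputable def t116 : Tre := Helper55.PC.toT t116n

theorem ok116 : chk K t116 r120 = true :=
  Helper55.PC.chkN_sound K t116n r120 (by decide +kernel)

noncomputable def t117 : Tre :=
  (.N [0,0,0,1,-2] 0 ⟨0,[(1,0)]⟩ ⟨0,[(0,0)]⟩ (.x 0 ⟨0,[(22,0),(17,0)]⟩ ⟨17,[(6,8),(16,7),(5,7),(2,
  26),(6,0),(17,3),(1,8),(13,0)]⟩))

theorem ok117 : chk K t117 l122 = true := by decide +kernel

noncomputable def t118 : Tre :=
  (.N [0,0,1,-2] 0 ⟨0,[(11,0)]⟩ ⟨0,[(12,0)]⟩ (.i 0 ⟨0,[(0,0)]⟩ ⟨0,[(15,1),(39,0)]⟩))

theorem ok118 : chk K t118 l123 = true := by decide +kernel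

noncomputable def t119 : Tre :=
  (.N [0,0,1,-2] 0 ⟨0,[(12,0)]⟩ ⟨0,[(13,0)]⟩ (.i 1 ⟨1,[(24,0),(14,2),(21,1)]⟩ ⟨0,[(0,0)]⟩))

theorem ok119 : chk K t119 l124 = true := by decide +kernel

open Helper55.PC in
noncomputable def t120n : Helper55.PC.Ten :=
  (s
  1257521360121382575893065243325369960676221978737475741753839666601425142728520197999987940177234873917994439652059450744236527924929659534926250858508449483039317591025100629384560660128538453618934091047230379548689858196908047068513935680524149488158225296587601105389710649780245380210752802541122355933187771134406249116106100554534584325470385434953276089015588262659067921040213452870284765392787331104619080354093352274870840515764284299795591494443298518258848238136438140829499881398493701468837856788083465780519700197695963001541658175990692855633996142264873761952446477912344697670932959922538232370808488641)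

noncomputable def t120 : Tre := Helper55.PC.toT t120n

theorem ok120 : chk K t120 r124 = true :=
  Helper55.PC.chkN_sound K t120n r124 (by decide +kernel)

noncomputable def t121 : Tre :=
  (.N [0,0,1,-2] 0 ⟨0,[(10,0)]⟩ ⟨0,[(11,0)]⟩ (.i 1 ⟨1,[(22,0),(14,2),(21,1)]⟩ ⟨0,[(0,0)]⟩))

theorem ok121 : chk K t121 l125 = true := by decide +kernel

open Helper55.PC in
noncomputable def t122n : Helper55.PC.Ten :=
  (s
  60994552710794200075764711087118749099648267241692186345775618406480301397711047880879893695692948932220459113190059069107933024926948501959103920648158813924911818700839448539698525149463974223460036791296955288153844999469847777287536385456900293958620886782547184049541712598065543693184888941734685078909858085043505423102174569020774145134175163471277797982749579729905956008352776155957614804697627635419776439823598203560192965197467564717582236832359373095591779606010688605868009630504656964920476942415032369635641061854590884063084982853191330541040233256197427132206411907152911591812367041)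

noncomputable def t122 : Tre := Helper55.PC.toT t122n

theorem ok122 : chk K t122 r125 = true :=
  Helper55.PC.chkN_sound K t122n r125 (by decide +kernel)

noncomputable def t123 : Tre :=
  (.N [0,3,0,0,4] 1 ⟨0,[(0,0)]⟩ ⟨0,[(1,0)]⟩ (.x (-2) ⟨3,[(18,0),(5,0),(2,3),(25,5)]⟩ ⟨19,[(18,0),(2,
  21),(2,0),(20,9),(6,5),(6,9)]⟩))

theorem ok123 : chk K t123 l127 = true := by decide +kernel

noncomputable def t124 : Tre :=
  (.N [0,1,2,1,-1] 0 ⟨0,[(0,0)]⟩ ⟨0,[(1,0)]⟩ (.x (-1) ⟨3,[(19,3),(0,0),(5,0),(10,1),(11,1),(1,7),
  (23,1),(1,7)]⟩ ⟨65,[(0,33),(2,1),(7,44),(9,41),(5,1),(3,27),(12,20),(3,11),(3,53),(1,31),(1,131),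
  (6,1),(5,41),(11,13)]⟩))

theorem ok124 : chk K t124 l129 = true := by decide +kernel

noncomputable def t125 : Tre :=
  (.N [0,0,1,-2] 0 ⟨0,[(8,0)]⟩ ⟨0,[(9,0)]⟩ (.x (-1) ⟨4,[(12,8),(20,7),(11,0),(6,3),(2,1),(4,3),(7,
  0),(11,1)]⟩ ⟨0,[(0,0)]⟩))

theorem ok125 : chk K t125 l130 = true := by decide +kernel

noncomputable def t126 : Tre :=
  (.N [0,1,0,0,5] 0 ⟨0,[(8,0)]⟩ ⟨0,[(0,0)]⟩ (.x (-1) ⟨3,[(22,0),(5,0),(2,15),(25,1)]⟩ ⟨2,[(21,2),(3,
  0),(20,2),(14,0),(1,0)]⟩))

theorem ok126 : chk K t126 l131 = true := by decide +kernel

noncomputable def t127 : Tre :=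
  (.N [0,-3,0,0,8] (-2) ⟨0,[(1,0)]⟩ ⟨0,[(0,0)]⟩ (.x 1 ⟨9,[(24,0),(5,0),(2,73),(24,5),(1,11),(10,
  11)]⟩ ⟨11,[(23,32),(3,1),(20,32),(4,20),(9,4),(1,1)]⟩))

theorem ok127 : chk K t127 l133 = true := by decide +kernel

noncomputable def t128 : Tre :=
  (.N [0,0,1,-2] 0 ⟨0,[(12,0)]⟩ ⟨0,[(13,0)]⟩ (.i 0 ⟨0,[(0,0)]⟩ ⟨0,[(16,1),(39,0)]⟩))

theorem ok128 : chk K t128 l134 = true := by decide +kernel

open Helper55.PC in
noncomputable def t129n : Helper55.PC.Ten :=
  (s
  68170369542899071718819512075698134014652660415842892002137527595437685144882805053223466691092242114477461309381363407885566827954195833245842137627249253844461744539567852748700654611685538514180133653140789890995636887889237384004897211174318157389899735777013057363899544420232630617323767824485803858439765397471405534268184981038811401565475349412083190470730728583304038803858384206939224898344877194243164255785369019103526347629261513996482536557399957710345124696245580535042677672714506672060208299878370894674451470863908418133881188166910109257229570106391239572198777139583256195926852289)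

noncomputable def t129 : Tre := Helper55.PC.toT t129n

theorem ok129 : chk K t129 r134 = true :=
  Helper55.PC.chkN_sound K t129n r134 (by decide +kernel)

noncomputable def t130 : Tre :=
  (.N [0,0,1,-2] 0 ⟨0,[(11,0)]⟩ ⟨0,[(12,0)]⟩ (.i 0 ⟨0,[(0,0)]⟩ ⟨0,[(15,1),(39,0)]⟩))

theorem ok130 : chk K t130 l135 = true := by decide +kernel

noncomputable def t131 : Tre :=
  (.N [0,0,1,-2] 0 ⟨0,[(12,0)]⟩ ⟨0,[(13,0)]⟩ (.i 1 ⟨1,[(24,0),(14,2),(21,1)]⟩ ⟨0,[(0,0)]⟩))

theorem ok131 : chk K t131 l136 = true := by decide +kernel

open Helper55.PC in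
noncomputable def t132n : Helper55.PC.Ten :=
  (s
  292789507742985982061088312091800561959205351603576376386668870968276140032988622996047863661975214556338486149748003804735320709326459231960861087898802607643281594350221464613509031402771511845023540330716191803504732006249179392643699127267675932838693526819882024495915173765313875056718806612659186553409461772322897402845130349221187307100301567860389108444226284389087622519281953872863691718824102316960467693933618629342658496157549670728060962671097565863249460223028036888241758134054175834506026124480329955482575418563563930030850420024746874768855297823753658740334833993537878885550860894641062593)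

noncomputable def t132 : Tre := Helper55.PC.toT t132n

theorem ok132 : chk K t132 r136 = true :=
  Helper55.PC.chkN_sound K t132n r136 (by decide +kernel)

noncomputable def t133 : Tre :=
  (.N [0,0,1,-2] 0 ⟨0,[(7,0)]⟩ ⟨0,[(8,0)]⟩ (.i 1 ⟨1,[(19,0),(14,2),(21,1)]⟩ ⟨0,[(0,0)]⟩))

theorem ok133 : chk K t133 l137 = true := by decide +kernel

open Helper55.PC in
noncomputable def t134n : Helper55.PC.Ten :=
  (q 16297593286068978295795515301905768627456723114680195164499187128417273109895943224190435343
  (r
  122344891569157893990771651209642131099112880555219416428161978089628833126780493913672924163550487930599546592269722332704430711619005286005410708792689029569647958247143527454481234229585760401797056476612568197083641710638803775171090181795050551898014059407130140558799514433758417793893930336527341398305750911435240603088072012329581646995594)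
  (s
  5001465000739829214144737451912654468811926869293687757998813488371788628249780652447155995840149596689126414959419547995838122285066069630396799062488654923734846958104234149871712139366335863733681059040463496433717107583240922511489865948080056998007982687267853493842648424250621917487953842382844429250821008793950956544959264808247228948813903319403882177897649120901532636366012491548073529476134469273289539252054083814773806325525837200223852419207931421863560774395696614328665834571868858600770262963843706949325784405688140731458784452116792949020293389042165422371264282253030485004990284485303401385770373097316674708436557281474495253170260619747077489674719327956411719262836920086683403863073281162926982473652440540347237840927966104654537108724431377493713224385))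

noncomputable def t134 : Tre := Helper55.PC.toT t134n

theorem ok134 : chk K t134 r137 = true :=
  Helper55.PC.chkN_sound K t134n r137 (by decide +kernel)

noncomputable def t135 : Tre :=
  (.N [0,-1,0,0,7] (-1) ⟨0,[(0,0)]⟩ ⟨0,[(1,0)]⟩ (.x 0 ⟨4,[(19,0),(5,0),(2,33),(24,0),(1,1),(10,1)]⟩
  ⟨2,[(18,5),(3,0),(20,5),(4,2),(9,0),(1,0)]⟩))

theorem ok135 : chk K t135 l139 = true := by decide +kernel

noncomputable def t136 : Tre :=
  (.N [0,0,1,-2] 0 ⟨0,[(7,0)]⟩ ⟨0,[(8,0)]⟩ (.x (-1) ⟨4,[(11,8),(20,7),(11,0),(6,3),(2,1),(4,3),(7,
  0),(11,1)]⟩ ⟨0,[(0,0)]⟩))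

theorem ok136 : chk K t136 l140 = true := by decide +kernel

noncomputable def t137 : Tre :=
  (.N [0,-1,2,0,2] (-1) ⟨0,[(0,0)]⟩ ⟨0,[(1,0)]⟩ (.x 0 ⟨3,[(22,0),(5,0),(22,1),(1,1),(3,1),(8,1),(2,
  5)]⟩ ⟨7,[(3,0),(17,1),(18,15),(1,5),(3,1),(4,1),(2,7),(7,6),(0,1)]⟩))

theorem ok137 : chk K t137 l142 = true := by decide +kernel

noncomputable def t138 : Tre :=
  (.N [0,0,1,-2] 0 ⟨0,[(10,0)]⟩ ⟨0,[(11,0)]⟩ (.i 1 ⟨1,[(22,0),(14,2),(21,1)]⟩ ⟨0,[(0,0)]⟩))

theorem ok138 : chk K t138 l143 = true := by decide +kernel

noncomputable def t139 : Tre :=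
  (.N [0,0,1,-2] 0 ⟨0,[(11,0)]⟩ ⟨0,[(12,0)]⟩ (.i 0 ⟨0,[(0,0)]⟩ ⟨0,[(15,1),(39,0)]⟩))

theorem ok139 : chk K t139 l144 = true := by decide +kernel

open Helper55.PC in
noncomputable def t140n : Helper55.PC.Ten :=
  (s
  335331309921256237365961149398759453483991877758825951820513999832904586620501772941707174520006207427363020719765554451051840701424970411050816121171235097714164462745166343964979502883782390492264385051283520306270893938672000115080511916051404163596958328295388328684356718099732882173768749376432227288140076529562727425064826825846900910614692884643578827435184274403295258654726965088504297013906344124408523252549625951061095993524060133745979564940249284325424382518074161594369752062371884231611646380597248081187518967946795178666439997285375349939374470634374211683631953736783798116063094726148433878292107919355600748675777)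

noncomputable def t140 : Tre := Helper55.PC.toT t140n

theorem ok140 : chk K t140 r144 = true :=
  Helper55.PC.chkN_sound K t140n r144 (by decide +kernel)

noncomputable def t141 : Tre :=
  (.N [0,-2,0,2,-1] (-1) ⟨0,[(1,0)]⟩ ⟨0,[(0,0)]⟩ (.x 1 ⟨1,[(8,1),(17,0),(27,0),(15,0)]⟩ ⟨143,[(3,
  107),(19,18),(5,18),(9,43),(7,71),(5,107),(3,31),(4,89),(10,115)]⟩))

theorem ok141 : chk K t141 l146 = true := by decide +kernel

noncomputable def t142 : Tre :=
  (.N [0,0,1,-2] 0 ⟨0,[(11,0)]⟩ ⟨0,[(12,0)]⟩ (.i 1 ⟨1,[(23,0),(14,2),(21,1)]⟩ ⟨0,[(0,0)]⟩))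

theorem ok142 : chk K t142 l147 = true := by decide +kernel

noncomputable def t143 : Tre :=
  (.N [0,0,1,-2] 0 ⟨0,[(12,0)]⟩ ⟨0,[(13,0)]⟩ (.i 0 ⟨0,[(0,0)]⟩ ⟨0,[(16,1),(39,0)]⟩))

theorem ok143 : chk K t143 l148 = true := by decide +kernel

open Helper55.PC in
noncomputable def t144n : Helper55.PC.Ten :=
  (r
  43046264340286942710222843897201849318620675224784824159202991417700007287486707967324213945693708801883480606926042486656451280444864391037482352101756114760329950578207166224288480506469935874940707920772731028048934426501389236788395874938039824920728378414509060052195002392257746738903825162201600141760036306034969824309076895502939149387086353468551356554)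

noncomputable def t144 : Tre := Helper55.PC.toT t144n

theorem ok144 : chk K t144 r148 = true :=
  Helper55.PC.chkN_sound K t144n r148 (by decide +kernel)

noncomputable def t145 : Tre :=
  (.N [0,1,1,1,2] 0 ⟨0,[(1,0)]⟩ ⟨0,[(0,0)]⟩ (.x (-1) ⟨3,[(9,1),(14,0),(5,0),(22,3),(1,3),(12,3),(2,
  1)]⟩ ⟨91,[(3,20),(0,45),(0,5),(21,14),(14,114),(13,71),(1,18),(1,22),(4,42),(18,14)]⟩))

theorem ok145 : chk K t145 l150 = true := by decide +kernel

noncomputable def t146 : Tre :=
  (.N [0,0,1,-2] 0 ⟨0,[(12,0)]⟩ ⟨0,[(13,0)]⟩ (.i 1 ⟨1,[(24,0),(14,2),(21,1)]⟩ ⟨0,[(0,0)]⟩))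

theorem ok146 : chk K t146 l151 = true := by decide +kernel

open Helper55.PC in
noncomputable def t147n : Helper55.PC.Ten :=
  (s
  353960795553318617334739968010159680377414403134528965036152183373617120106353760070020015241381813715669901237748124151661039821061264637578434248583425883414389059664355998046156434595588580830205390865429689329190313138638381435961229496717675014119932685079322941530792905857256323381298349647863017502318852131852752637632216025326359015189872468562539897837176573829132251864182755847958998072112838645974518079221575342786402370490228747963798720839680274820521949061788068035121058499371121968642723293169616496927374288423128700470543327414106452407843242834002591181374552152408061539195802570401195352330828859587101098771137)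

noncomputable def t147 : Tre := Helper55.PC.toT t147n

theorem ok147 : chk K t147 r151 = true :=
  Helper55.PC.chkN_sound K t147n r151 (by decide +kernel)

noncomputable def t148 : Tre :=
  (.N [0,0,1,-2] 0 ⟨0,[(11,0)]⟩ ⟨0,[(12,0)]⟩ (.i 0 ⟨0,[(0,0)]⟩ ⟨0,[(15,1),(39,0)]⟩))

theorem ok148 : chk K t148 l152 = true := by decide +kernel

noncomputable def t149 : Tre :=
  (.N [0,0,1,-2] 0 ⟨0,[(12,0)]⟩ ⟨0,[(13,0)]⟩ (.i 1 ⟨1,[(24,0),(14,2),(21,1)]⟩ ⟨0,[(0,0)]⟩))

theorem ok149 : chk K t149 l153 = true := by decide +kernel

open Helper55.PC in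
noncomputable def t150n : Helper55.PC.Ten :=
  (q 1888932446754652666960548513080531808592814297214611787378977635696655 (s
  10056769188678526851297612566370341336205834900988437060734586890124430888756504850112546103103032569993351171436085955907502731332477903752409855429269525134052477307496955215469611766535896171180457380102453719465999678796257138802235609604507918745517892077705869951838617263941805275718554771256326224776734346439615188795378465575253413344351431951326620597721222099030731337868280154535940128422737447792140195731799647984635866352065406273216091164847251119283069732230079487043389578314239814242870717116919331237893895442377693050032470160856145546333878322836786138344654423200624595921010885698477667227137252461392615446346001699777797615911546498923035765567635096518740019562676929)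
  (r
  15380277834160369946259568331908414832530576916900513768200979995866222794406489128039964847155636269267828688061819285688418922368246183930443439131299653076314286421199633166917146069304838353154142208658568879975460853810371015931266624529807873402979126641758096917800394392530315692152688106793418224475956656601097276349370864017127693453600661450566914125585756516501921195664629481962581287050))

noncomputable def t150 : Tre := Helper55.PC.toT t150n

theorem ok150 : chk K t150 r153 = true :=
  Helper55.PC.chkN_sound K t150n r153 (by decide +kernel)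

noncomputable def t151 : Tre :=
  (.N [0,1,1,1,2] 0 ⟨0,[(1,0)]⟩ ⟨0,[(0,0)]⟩ (.x (-1) ⟨3,[(5,1),(14,0),(5,0),(22,3),(1,3),(12,3),(2,
  1)]⟩ ⟨9,[(8,1),(14,0),(1,2),(6,0),(11,9),(0,0),(2,2),(5,3),(1,9),(4,3),(1,1),(5,2)]⟩))

theorem ok151 : chk K t151 l155 = true := by decide +kernel

noncomputable def t152 : Tre :=
  (.N [0,1,2,1,-1] 0 ⟨0,[(0,0)]⟩ ⟨0,[(1,0)]⟩ (.x (-1) ⟨3,[(21,3),(0,0),(5,0),(10,1),(11,1),(1,7),
  (23,1),(1,7)]⟩ ⟨3,[(0,1),(12,2),(4,0),(4,1),(9,1),(12,0),(3,0),(3,2),(1,1),(1,7),(12,1),(11,0)]⟩))

theorem ok152 : chk K t152 l157 = true := by decide +kernel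

noncomputable def t153 : Tre :=
  (.N [0,0,0,1,-2] 0 ⟨0,[(1,0)]⟩ ⟨0,[(0,0)]⟩ (.x 0 ⟨0,[(23,0),(17,0)]⟩ ⟨59,[(15,59),(8,8),(5,8),(5,
  7),(21,23),(1,39),(2,29),(7,39),(2,51)]⟩))

theorem ok153 : chk K t153 l159 = true := by decide +kernel

noncomputable def t154 : Tre :=
  (.N [0,0,1,-2] 0 ⟨0,[(12,0)]⟩ ⟨0,[(13,0)]⟩ (.i 0 ⟨0,[(0,0)]⟩ ⟨0,[(16,1),(39,0)]⟩))

theorem ok154 : chk K t154 l160 = true := by decide +kernel

open Helper55.PC in
noncomputable def t155n : Helper55.PC.Ten :=
  (q 50509450499701937394716673687976660688604278955696534389656795079513590993106510151695 (s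
  977740370404938612296506589352007989112008823473094813179640888812695313653611557770829190374681117926488462775321677814161257979484897320053697065785945791564585824621814771817455279972676622155121576421521140657096929164908724876956470654939095217243287401108498322451813283448160565255006587841583289054716304287249689553646113304970165006907222128551572556864248000459126177100870537459816169430634926726552369850643435646534050651302141355909218858813342009898165200805685522579455506121409)
  (s
  157546421654532992049143004704182039260710082892806665135032084114770086598151185635151727184366270579648408998058067498770116030771604902345401455400754457096188014281984377066665005604256596347730158017919105850538339071655208339565361694443420540850354246033293298858313206401150260316317598137513681707449698676786078017753530215757582040029893814593184163009633289307698169185415121708557627408976271961743933062455216557927819523470681465132517645216532657731082478300404425351598605787099641457272898852747231471867434399031549332373236999622514843145898018363010782472892945675641220580261295098896183223911105))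

noncomputable def t155 : Tre := Helper55.PC.toT t155n

theorem ok155 : chk K t155 r160 = true :=
  Helper55.PC.chkN_sound K t155n r160 (by decide +kernel)

noncomputable def t156 : Tre :=
  (.N [0,0,1,-2] 0 ⟨0,[(11,0)]⟩ ⟨0,[(12,0)]⟩ (.i 1 ⟨1,[(23,0),(14,2),(21,1)]⟩ ⟨0,[(0,0)]⟩))

theorem ok156 : chk K t156 l161 = true := by decide +kernel

open Helper55.PC in
noncomputable def t157n : Helper55.PC.Ten :=
  (s
  12438129637138068466737371504294589171777718610793517052952338416695271286318575906876952562966166020741078009427952226622197499282327671485682716127492712024753860641705851014678242799536882764447949030661306064762824913995073638999999172756020720835179571893520051518803325673704519351002300704695790945081918783965854577483817092319648023153257656590457278382514258176090585649447540231106227650683645533032179163839596016174787839242762782285100661018433696891963565156433574463948922076777836901957865366192370569894966650046905352413417434928508194980723994657473)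

noncomputable def t157 : Tre := Helper55.PC.toT t157n

theorem ok157 : chk K t157 r161 = true :=
  Helper55.PC.chkN_sound K t157n r161 (by decide +kernel)

noncomputable def t158 : Tre :=
  (.N [0,3,0,0,5] 1 ⟨0,[(1,0)]⟩ ⟨0,[(0,0)]⟩ (.x (-2) ⟨3,[(23,0),(5,0),(2,7),(25,5)]⟩ ⟨0,[(26,0),(23,
  0),(13,0)]⟩))

theorem ok158 : chk K t158 l163 = true := by decide +kernel

noncomputable def t159 : Tre :=
  (.N [0,0,1,-2] 0 ⟨0,[(11,0)]⟩ ⟨0,[(12,0)]⟩ (.x (-1) ⟨4,[(15,8),(20,7),(11,0),(6,3),(2,1),(4,3),(7,
  0),(11,1)]⟩ ⟨0,[(0,0)]⟩))

theorem ok159 : chk K t159 l164 = true := by decide +kernel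

noncomputable def t160 : Tre :=
  (.N [0,1,0,0,8] 0 ⟨0,[(1,0)]⟩ ⟨0,[(0,0)]⟩ (.x (-1) ⟨3,[(26,0),(5,0),(2,27),(25,1)]⟩ ⟨11,[(25,20),
  (3,9),(20,20),(4,8),(9,0),(1,9)]⟩))

theorem ok160 : chk K t160 l166 = true := by decide +kernel

noncomputable def t161 : Tre :=
  (.N [0,0,1,-2] 0 ⟨0,[(14,0)]⟩ ⟨0,[(15,0)]⟩ (.i 1 ⟨1,[(26,0),(14,2),(21,1)]⟩ ⟨0,[(0,0)]⟩))

theorem ok161 : chk K t161 l167 = true := by decide +kernel

noncomputable def t162 : Tre :=
  (.N [0,0,1,-2] 0 ⟨0,[(15,0)]⟩ ⟨0,[(16,0)]⟩ (.i 0 ⟨0,[(0,0)]⟩ ⟨0,[(19,1),(39,0)]⟩))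

theorem ok162 : chk K t162 l168 = true := by decide +kernel

open Helper55.PC in
noncomputable def t163n : Helper55.PC.Ten :=
  (s
  996288343598980367226420736519149369316438232675951418400051085023175513096545355443803352935256800194840014693672186164949501284602010087583852189474602531963861578446533817562584554755841812124662897571866165157418927276814265127848814343864580949718366892232976858106109182971959467474733692844300277414235859322811658338166428556597612427623059093537032341073634560392175581982903702675750094020348104891437261015346305819745688590903016538864711493875310872658181286269498823943435703736664074147771988980303534723988025047970801324561574962340061918783394618715144897)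

noncomputable def t163 : Tre := Helper55.PC.toT t163n

theorem ok163 : chk K t163 r168 = true :=
  Helper55.PC.chkN_sound K t163n r168 (by decide +kernel)

noncomputable def t164 : Tre :=
  (.N [0,1,0,0,7] 0 ⟨0,[(1,0)]⟩ ⟨0,[(0,0)]⟩ (.x (-1) ⟨3,[(27,0),(5,0),(2,23),(25,1)]⟩ ⟨5,[(26,8),(3,
  3),(20,8),(4,2),(9,0),(1,3)]⟩))

theorem ok164 : chk K t164 l170 = true := by decide +kernel

noncomputable def t165 : Tre :=
  (.N [0,0,1,-2] 0 ⟨0,[(15,0)]⟩ ⟨0,[(16,0)]⟩ (.i 0 ⟨0,[(0,0)]⟩ ⟨0,[(19,1),(39,0)]⟩))

theorem ok165 : chk K t165 l171 = true := by decide +kernel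

noncomputable def t166 : Tre :=
  (.N [0,0,1,-2] 0 ⟨0,[(16,0)]⟩ ⟨0,[(17,0)]⟩ (.i 1 ⟨1,[(28,0),(14,2),(21,1)]⟩ ⟨0,[(0,0)]⟩))

theorem ok166 : chk K t166 l172 = true := by decide +kernel

open Helper55.PC in
noncomputable def t167n : Helper55.PC.Ten :=
  (s
  19213651128538710360921435022843461916167873457155122300169241257022897972986553779252974998584391656910757471634772088633459613801692625259558856615319638293397494681923353534202131159466751620500157160152120409289822803246407105774723624064731755640691172181795019574187101079731708177212923870437048451103784335163587363566413687778921892577864893636759794269046338056619742119993062492939766208111583734723821723680110441724288549821685493032558224826952006961657823700639279249668049324045468658057303812249408432626458935090999530541900464490628285930380329093915442936576834068164903617)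

noncomputable def t167 : Tre := Helper55.PC.toT t167n

theorem ok167 : chk K t167 r172 = true :=
  Helper55.PC.chkN_sound K t167n r172 (by decide +kernel)

noncomputable def t168 : Tre :=
  (.N [0,-4,0,0,3] (-2) ⟨0,[(1,0)]⟩ ⟨0,[(0,0)]⟩ (.x 1 ⟨9,[(28,2),(5,2),(2,21),(24,7),(1,15),(10,
  15)]⟩ ⟨1,[(27,2),(24,2),(2,0),(1,3)]⟩))

theorem ok168 : chk K t168 l174 = true := by decide +kernel

noncomputable def t169 : Tre :=
  (.N [0,0,1,-2] 0 ⟨0,[(16,0)]⟩ ⟨0,[(17,0)]⟩ (.i 1 ⟨1,[(28,0),(14,2),(21,1)]⟩ ⟨0,[(0,0)]⟩))

theorem ok169 : chk K t169 l175 = true := by decide +kernel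

noncomputable def t170 : Tre :=
  (.N [0,0,1,-2] 0 ⟨0,[(17,0)]⟩ ⟨0,[(18,0)]⟩ (.i 0 ⟨0,[(0,0)]⟩ ⟨0,[(21,1),(39,0)]⟩))

theorem ok170 : chk K t170 l176 = true := by decide +kernel

open Helper55.PC in
noncomputable def t171n : Helper55.PC.Ten :=
  (s
  71228449559408653413766262329592652406009381287055321091268238585031513107665934400494608479110317756586433449800531885232768681115860988988718775803461850449419395030527873596278029617654823582852905956919865238558499288959256806622516514272199631072000357864831032299113274804731222545763615346201146861924590812443321281462097835084903585798732395052393334766845197684163477174825619830216844915434387901035240914355785581128536625149589991129797990829526837937046184072305858397381609448840896589593714819799752848873375677478457693515565061615989942379972917441625324520129)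

noncomputable def t171 : Tre := Helper55.PC.toT t171n

theorem ok171 : chk K t171 r176 = true :=
  Helper55.PC.chkN_sound K t171n r176 (by decide +kernel)

noncomputable def t172 : Tre :=
  (.N [0,-1,0,0,8] (-1) ⟨0,[(1,0)]⟩ ⟨0,[(0,0)]⟩ (.x 0 ⟨4,[(29,0),(5,0),(2,38),(24,0),(1,1),(10,1)]⟩
  ⟨3,[(28,8),(3,1),(20,8),(4,4),(9,0),(1,1)]⟩))

theorem ok172 : chk K t172 l178 = true := by decide +kernel

noncomputable def t173 : Tre :=
  (.N [0,0,1,-2] 0 ⟨0,[(17,0)]⟩ ⟨0,[(18,0)]⟩ (.i 0 ⟨0,[(0,0)]⟩ ⟨0,[(21,1),(39,0)]⟩))

theorem ok173 : chk K t173 l179 = true := by decide +kernel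

noncomputable def t174 : Tre :=
  (.N [0,0,1,-2] 0 ⟨0,[(18,0)]⟩ ⟨0,[(19,0)]⟩ (.i 1 ⟨1,[(30,0),(14,2),(21,1)]⟩ ⟨0,[(0,0)]⟩))

theorem ok174 : chk K t174 l180 = true := by decide +kernel

open Helper55.PC in
noncomputable def t175n : Helper55.PC.Ten :=
  (s
  318670672734169443327711787098020437920305254426762685000064638497738447081138768789980277404080821250512639109516780202095316021651067720248870466722050267926566214769619804033742393454548660711147800966861250918253380326812064336534908555438433897591828468228955557255798693345618275389823357575697716664908024468410183625080803528841641248065614347472686369059123341165000923110219302703632540889747992245480300121566942592378988768203903263857363148071296197102499149997166545954710235838837148848147615327200769187307091891565956774433547395097289452123548680009237025286984708391617)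

noncomputable def t175 : Tre := Helper55.PC.toT t175n

theorem ok175 : chk K t175 r180 = true :=
  Helper55.PC.chkN_sound K t175n r180 (by decide +kernel)

noncomputable def t176 : Tre :=
  (.N [0,0,1,-2] 0 ⟨0,[(16,0)]⟩ ⟨0,[(17,0)]⟩ (.i 1 ⟨1,[(28,0),(14,2),(21,1)]⟩ ⟨0,[(0,0)]⟩))

theorem ok176 : chk K t176 l181 = true := by decide +kernel

noncomputable def t177 : Tre :=
  (.N [0,0,1,-2] 0 ⟨0,[(17,0)]⟩ ⟨0,[(18,0)]⟩ (.i 0 ⟨0,[(0,0)]⟩ ⟨0,[(21,1),(39,0)]⟩))

theorem ok177 : chk K t177 l182 = true := by decide +kernel

open Helper55.PC in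
noncomputable def t178n : Helper55.PC.Ten :=
  (s
  20049026155974552654289063904963552392877373092778647393895550717983388225385275457076379381286866314952257040543878860577574525744891807658296457744637058359514392893207273649913713125231404927901934909311064843003833968600627591470243339176365223910407829473187634135259432958205198223251131404096270177308120570569459931479232617442709792444818669424769996579386981718897677284511282467186130465430923669815475162270870932320323675816451296269446921412284255699294283371348711766975499386072002633310742719736981293619668859112458522390155338984037858683578375530385369928536562416848208577)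

noncomputable def t178 : Tre := Helper55.PC.toT t178n

theorem ok178 : chk K t178 r182 = true :=
  Helper55.PC.chkN_sound K t178n r182 (by decide +kernel)

noncomputable def t179 : Tre :=
  (.N [0,0,1,-2] 0 ⟨0,[(10,0)]⟩ ⟨0,[(11,0)]⟩ (.x (-1) ⟨4,[(14,8),(20,7),(11,0),(6,3),(2,1),(4,3),(7,
  0),(11,1)]⟩ ⟨0,[(0,0)]⟩))

theorem ok179 : chk K t179 l183 = true := by decide +kernel

noncomputable def t180 : Tre :=
  (.N [0,-4,0,0,3] (-2) ⟨0,[(0,0)]⟩ ⟨0,[(1,0)]⟩ (.x 1 ⟨9,[(25,2),(5,2),(2,21),(24,7),(1,15),(10,
  15)]⟩ ⟨1,[(24,2),(24,2),(2,0),(1,3)]⟩))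

theorem ok180 : chk K t180 l185 = true := by decide +kernel

noncomputable def t181 : Tre :=
  (.N [0,0,1,-2] 0 ⟨0,[(13,0)]⟩ ⟨0,[(14,0)]⟩ (.i 1 ⟨1,[(25,0),(14,2),(21,1)]⟩ ⟨0,[(0,0)]⟩))

theorem ok181 : chk K t181 l186 = true := by decide +kernel

noncomputable def t182 : Tre :=
  (.N [0,0,1,-2] 0 ⟨0,[(14,0)]⟩ ⟨0,[(15,0)]⟩ (.i 0 ⟨0,[(0,0)]⟩ ⟨0,[(18,1),(39,0)]⟩))

theorem ok182 : chk K t182 l187 = true := by decide +kernel

open Helper55.PC in
noncomputable def t183n : Helper55.PC.Ten :=
  (s
  323609406416340137881655674927654914516611974503553816913891259775712443494309936821652237937427925059261144257428647032510235241831718510432666907377647254680186835115425271841002159871263429315212461587674638925409845179102169812489345517153380779305032536175072348338123201707573562273838681179219370158951851470752843607623988687853014525707543901096521259811483688292732421558555130344837275544301139291295093470775404359651583740623781322515993301359801205839910940024845619142350323014701929698090611033716657125465108773021472095247381745528945037549231189100832577340072307814871322757474439531680760513)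

noncomputable def t183 : Tre := Helper55.PC.toT t183n

theorem ok183 : chk K t183 r187 = true :=
  Helper55.PC.chkN_sound K t183n r187 (by decide +kernel)

noncomputable def t184 : Tre :=
  (.N [0,0,1,-2] 0 ⟨0,[(12,0)]⟩ ⟨0,[(13,0)]⟩ (.i 1 ⟨1,[(24,0),(14,2),(21,1)]⟩ ⟨0,[(0,0)]⟩))

theorem ok184 : chk K t184 l188 = true := by decide +kernel

open Helper55.PC in
noncomputable def t185n : Helper55.PC.Ten :=
  (q 50509450499701937394716673687976660688604278955696534389656795079513590993106510151695 (s
  808767878509381292814808167358890571917430675170655496017641475978729993415603195194588059503321624219503572331045169780429942300920221325405327419231261799670546204682006309290513195445924889742996938199762362555318192890259723283555125192985672597703751903275570700771999728780504377520690703843830671483725751077415873262347105193071849729360509687829985374964247893240143685245754671880984701332250798368530726722140965660692316167271186877084770367750206078183277249)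
  (s
  3890024043207798032280651008822766711479764616157533607322182234684827045798909014489091177769945438549824144083074666392720964378130525588804098748215827379383227547886749619678115057609936694337602704421851233841279295965114761773909544199864087333842670570526849865627142013380902358926150353699775642779454172224194449842721568815849098794222185751603819115545425049313579898004939337737625320652680469162171436379800274672433415653066314888954047744172204165209155226984801593316763073930972694349139988425632800369731672574775673281702961721779548975256373716970983338219143873))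

noncomputable def t185 : Tre := Helper55.PC.toT t185n

theorem ok185 : chk K t185 r188 = true :=
  Helper55.PC.chkN_sound K t185n r188 (by decide +kernel)

noncomputable def t186 : Tre :=
  (.N [0,-1,2,0,2] (-1) ⟨0,[(1,0)]⟩ ⟨0,[(0,0)]⟩ (.x 0 ⟨3,[(21,0),(5,0),(22,1),(1,1),(3,1),(8,1),(2,
  5)]⟩ ⟨32,[(2,2),(3,10),(32,54),(5,21),(0,2),(3,1),(2,38),(1,0),(5,5),(0,13),(17,21),(0,14)]⟩))

theorem ok186 : chk K t186 l190 = true := by decide +kernel

noncomputable def t187 : Tre :=
  (.N [0,0,1,-2] 0 ⟨0,[(9,0)]⟩ ⟨0,[(10,0)]⟩ (.x (-1) ⟨4,[(13,8),(20,7),(11,0),(6,3),(2,1),(4,3),(7,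
  0),(11,1)]⟩ ⟨0,[(0,0)]⟩))

theorem ok187 : chk K t187 l191 = true := by decide +kernel

noncomputable def t188 : Tre :=
  (.N [0,-4,0,0,3] (-2) ⟨0,[(0,0)]⟩ ⟨0,[(1,0)]⟩ (.x 1 ⟨9,[(25,2),(5,2),(2,21),(24,7),(1,15),(10,
  15)]⟩ ⟨1,[(24,2),(24,2),(2,0),(1,3)]⟩))

theorem ok188 : chk K t188 l194 = true := by decide +kernel

noncomputable def t189 : Tre :=
  (.N [0,1,0,0,6] 0 ⟨0,[(3,0)]⟩ ⟨0,[(0,0)]⟩ (.x (-1) ⟨3,[(26,0),(5,0),(2,19),(25,1)]⟩ ⟨3,[(25,4),(3,
  1),(20,4),(4,0),(9,0),(1,1)]⟩))

theorem ok189 : chk K t189 l195 = true := by decide +kernel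

noncomputable def t190 : Tre :=
  (.N [0,0,1,-2] 0 ⟨0,[(14,0)]⟩ ⟨0,[(15,0)]⟩ (.i 1 ⟨1,[(26,0),(14,2),(21,1)]⟩ ⟨0,[(0,0)]⟩))

theorem ok190 : chk K t190 l196 = true := by decide +kernel

noncomputable def t191 : Tre :=
  (.N [0,0,1,-2] 0 ⟨0,[(15,0)]⟩ ⟨0,[(16,0)]⟩ (.i 0 ⟨0,[(0,0)]⟩ ⟨0,[(19,1),(39,0)]⟩))

theorem ok191 : chk K t191 l197 = true := by decide +kernel

open Helper55.PC in
noncomputable def t192n : Helper55.PC.Ten :=
  (s
  339019355753003857500341161614007276281397769921790549301748336179112182920495495773020313198035079560314228878110024338370677765513331355079254210234053246814130885923340960591240240074865076243541362293212623411382915542651893212519110864234355948763009992156261117675845910655106619378780532488404107494760728552200392425011559297514420526693953870359926100787289394215866452083177127531214648577459807068345279156866749805592130682008894688558078446759187244726848991237885732224510767650248626772660982982858788273863722780785536097469309165593228848076938548036623510628107454586699331681334208810443604673)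

noncomputable def t192 : Tre := Helper55.PC.toT t192n

theorem ok192 : chk K t192 r197 = true :=
  Helper55.PC.chkN_sound K t192n r197 (by decide +kernel)

noncomputable def t193 : Tre :=
  (.N [0,1,2,1,-1] 0 ⟨0,[(1,0)]⟩ ⟨0,[(0,0)]⟩ (.x (-1) ⟨3,[(25,3),(0,0),(5,0),(10,1),(11,1),(1,7),
  (23,1),(1,7)]⟩ ⟨2,[(1,0),(2,0),(8,0),(13,0),(9,1),(12,0),(7,0),(1,1),(1,6),(12,0),(11,1)]⟩))

theorem ok193 : chk K t193 l199 = true := by decide +kernel

noncomputable def t194 : Tre :=
  (.N [0,1,0,0,6] 0 ⟨0,[(4,0)]⟩ ⟨0,[(0,0)]⟩ (.x (-1) ⟨3,[(27,0),(5,0),(2,19),(25,1)]⟩ ⟨3,[(26,4),(3,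
  1),(20,4),(4,0),(9,0),(1,1)]⟩))

theorem ok194 : chk K t194 l200 = true := by decide +kernel

noncomputable def t195 : Tre :=
  (.N [0,0,1,-2] 0 ⟨0,[(15,0)]⟩ ⟨0,[(16,0)]⟩ (.i 0 ⟨0,[(0,0)]⟩ ⟨0,[(19,1),(39,0)]⟩))

theorem ok195 : chk K t195 l201 = true := by decide +kernel

noncomputable def t196 : Tre :=
  (.N [0,0,1,-2] 0 ⟨0,[(16,0)]⟩ ⟨0,[(17,0)]⟩ (.i 1 ⟨1,[(28,0),(14,2),(21,1)]⟩ ⟨0,[(0,0)]⟩))

theorem ok196 : chk K t196 l202 = true := by decide +kernel

open Helper55.PC in
noncomputable def t197n : Helper55.PC.Ten :=
  (s
  99762980654241602344937100058854266058673787709021951363911967614656495259136153369483981528579087459879491938218446730378745272363505848814680068289233690306503558003460217962026222785012451766596953252235427753199137863492182994369883680572210951447782829263693561961311833160946243145774500196985120443761624267075241812816031395959625086980621565344902950486375037194467816978593514850557169125965637349476661183505074810058139193601660697449412305020003528338756816316007302872070470160919882760895236786926349567862935982136888685413084199006915069993606878606846437468919030062803517284678197570414320270499844822401729)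

noncomputable def t197 : Tre := Helper55.PC.toT t197n

theorem ok197 : chk K t197 r202 = true :=
  Helper55.PC.chkN_sound K t197n r202 (by decide +kernel)

noncomputable def t198 : Tre :=
  (.N [0,1,0,0,7] 0 ⟨0,[(1,0)]⟩ ⟨0,[(0,0)]⟩ (.x (-1) ⟨3,[(27,0),(5,0),(2,23),(25,1)]⟩ ⟨5,[(26,8),(3,
  3),(20,8),(4,2),(9,0),(1,3)]⟩))

theorem ok198 : chk K t198 l204 = true := by decide +kernel

noncomputable def t199 : Tre :=
  (.N [0,0,1,-2] 0 ⟨0,[(15,0)]⟩ ⟨0,[(16,0)]⟩ (.i 1 ⟨1,[(27,0),(14,2),(21,1)]⟩ ⟨0,[(0,0)]⟩))

theorem ok199 : chk K t199 l205 = true := by decide +kernel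

noncomputable def t200 : Tre :=
  (.N [0,0,1,-2] 0 ⟨0,[(16,0)]⟩ ⟨0,[(17,0)]⟩ (.i 0 ⟨0,[(0,0)]⟩ ⟨0,[(20,1),(39,0)]⟩))

theorem ok200 : chk K t200 l206 = true := by decide +kernel

open Helper55.PC in
noncomputable def t201n : Helper55.PC.Ten :=
  (s
  5408162010939728155069280518885364149897058401273889221863514260445841847311056278169514140631185333343691183455908768830250192074590572479011246859987655675646524490485053310686646220824530080375136651301013645934361785969478173621535612060750688359692034304551068543260903163520930442243036161220728109336900327922003898599985017315874198073638279973301949648485596899742362916121429885727691649171258790079159434908057932030446257466139518006291582838627415914881165288799602166871501369757530980059556642013505055312119622950547865106662144680048182519186466931459373594243307829394135748009646751744705)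

noncomputable def t201 : Tre := Helper55.PC.toT t201n

theorem ok201 : chk K t201 r206 = true :=
  Helper55.PC.chkN_sound K t201n r206 (by decide +kernel)

noncomputable def t202 : Tre :=
  (.N [0,3,0,0,5] 1 ⟨0,[(1,0)]⟩ ⟨0,[(0,0)]⟩ (.x (-2) ⟨3,[(28,0),(5,0),(2,7),(25,5)]⟩ ⟨0,[(31,0),(23,
  0),(13,0)]⟩))

theorem ok202 : chk K t202 l208 = true := by decide +kernel

noncomputable def t203 : Tre :=
  (.N [0,0,1,-2] 0 ⟨0,[(16,0)]⟩ ⟨0,[(17,0)]⟩ (.i 0 ⟨0,[(0,0)]⟩ ⟨0,[(20,1),(39,0)]⟩))

theorem ok203 : chk K t203 l209 = true := by decide +kernel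

noncomputable def t204 : Tre :=
  (.N [0,0,1,-2] 0 ⟨0,[(17,0)]⟩ ⟨0,[(18,0)]⟩ (.i 1 ⟨1,[(29,0),(14,2),(21,1)]⟩ ⟨0,[(0,0)]⟩))

theorem ok204 : chk K t204 l210 = true := by decide +kernel

open Helper55.PC in
noncomputable def t205n : Helper55.PC.Ten :=
  (s
  305923862162244100995731954263322087221589926849570812662775690853154583156086411629845565828831172395367410502087944669337777866840674433838974210761110500154835198159682389073342425445104878450182355848066730668508525009745344611256148728172625608968763549025346045288131708919711427558242996453536481985400853030206409085777678995501010391861930991333302705270116559988780841393819539425785082183938640371524715371695553014419759424726698336098376935649604445147466787918158243506480404900262713086632017330936719195333051217178795713443615084883361502263732667650499749920585475424961)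

noncomputable def t205 : Tre := Helper55.PC.toT t205n

theorem ok205 : chk K t205 r210 = true :=
  Helper55.PC.chkN_sound K t205n r210 (by decide +kernel)

noncomputable def t206 : Tre :=
  (.N [0,0,1,-2] 0 ⟨0,[(15,0)]⟩ ⟨0,[(16,0)]⟩ (.i 0 ⟨0,[(0,0)]⟩ ⟨0,[(19,1),(39,0)]⟩))

theorem ok206 : chk K t206 l211 = true := by decide +kernel

noncomputable def t207 : Tre :=
  (.N [0,0,1,-2] 0 ⟨0,[(16,0)]⟩ ⟨0,[(17,0)]⟩ (.i 1 ⟨1,[(28,0),(14,2),(21,1)]⟩ ⟨0,[(0,0)]⟩))

theorem ok207 : chk K t207 l212 = true := by decide +kernel

open Helper55.PC in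
noncomputable def t208n : Helper55.PC.Ten :=
  (s
  293177050070722741700277623180948822996160409400013536385811889619396274664401343523887675597343104562307088450419340836045529374355406543634535731845752812100022001406342203865570824096376519431492828493896301601493519964915990174466602321977345175136387686529555868812290187329178851813845849552919154499002380458518598716536843871129250984075476722326885226211380071017596879603326320788154675577203325879558516400581140369930018787723845858753578556696646020510459875165903011632705852626818928142042037862724640690892393128103185117687367316514017413369070262693074660658862753841857)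

noncomputable def t208 : Tre := Helper55.PC.toT t208n

theorem ok208 : chk K t208 r212 = true :=
  Helper55.PC.chkN_sound K t208n r212 (by decide +kernel)

noncomputable def t209 : Tre :=
  (.N [0,0,1,-2] 0 ⟨0,[(11,0)]⟩ ⟨0,[(12,0)]⟩ (.i 0 ⟨0,[(0,0)]⟩ ⟨0,[(15,1),(39,0)]⟩))

theorem ok209 : chk K t209 l213 = true := by decide +kernel

noncomputable def t210 : Tre :=
  (.N [0,0,1,-2] 0 ⟨0,[(12,0)]⟩ ⟨0,[(13,0)]⟩ (.i 1 ⟨1,[(24,0),(14,2),(21,1)]⟩ ⟨0,[(0,0)]⟩))

theorem ok210 : chk K t210 l214 = true := by decide +kernel

open Helper55.PC in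
noncomputable def t211n : Helper55.PC.Ten :=
  (q 50509450499701937394716673687976660688604278955696534389656795079513590993106510151695 (s
  332707807491070753844893757446328973346247118587399207086112272125329023385482321437687893168529494525833129978036303351134013470515722198763085762765035944558520060177699482250909578837353128647116326704841221856174527125374831802987334448650106900751311226455557741527966067652628085158693746330493326234039790993769502306284910011184169810069329081664550185196220266018172043789344357998253899832547336378866369165935305964717750032741969154722477645304584297125363336940853867448769193798987226317641282977032258608010890442703553)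
  (s
  1600263072796873946714972993383279488693576586489846935930200417161058694504863702979640831452866499656674359188135266781656953517192485746217250938103923886379433569626379031502947502879680865943654629747422272110484720292771623499892706808197002762259339903081472927206214956317393262395170479556867938168455065295250899616840694428028216926944438364714904782422083916417298720504530954818944004592878483879470979516068357498366091320381272362789521370393658221303769132319164695196807530159080493343633545129819326843233212021804023615794036445069995462592877566345006179429885327217283710555342194076508595641907849897131798270234612458324673))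

noncomputable def t211 : Tre := Helper55.PC.toT t211n

theorem ok211 : chk K t211 r214 = true :=
  Helper55.PC.chkN_sound K t211n r214 (by decide +kernel)

noncomputable def t212 : Tre :=
  (.N [0,1,2,1,-1] 0 ⟨0,[(1,0)]⟩ ⟨0,[(0,0)]⟩ (.x (-1) ⟨3,[(21,3),(0,0),(5,0),(10,1),(11,1),(1,7),
  (23,1),(1,7)]⟩ ⟨3,[(1,1),(11,2),(4,0),(4,1),(9,1),(12,0),(3,0),(3,2),(1,1),(1,7),(12,1),(11,0)]⟩))

theorem ok212 : chk K t212 l216 = true := by decide +kernel

noncomputable def t213 : Tre :=
  (.N [0,0,1,-2] 0 ⟨0,[(10,0)]⟩ ⟨0,[(11,0)]⟩ (.i 1 ⟨1,[(22,0),(14,2),(21,1)]⟩ ⟨0,[(0,0)]⟩))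

theorem ok213 : chk K t213 l217 = true := by decide +kernel

open Helper55.PC in
noncomputable def t214n : Helper55.PC.Ten :=
  (q 46624112713441227858544684320836326234558716717384911836752536446919257672572450504719 (s
  1286072455144552283065079735776882878683105725802396012754740932017293947640878314475620284318128232136451347508374430997846211374463171514846819700764725308648152519333633712592600927931778623598599136238069114075036243386897369532708404603953068404798058670119249086890043799650231264217078533008669417888982103247398177756972708467169009451945261113955096104740122946822940125664325934112658028596249423324821238274868500111844050448407943480695971856904043586038593362884486130028617786391569934003093467031222171179655121082397341181280961)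
  (s
  7478138101191883971685801465835799645232281141745763939018773671908023230965115765774945532436934328690185916097371902612958840552211618777421703702260487069906132643740744345984719424758480289394155276415121656070250986157524853645178917007048319870727655807795683018854241697642093050882947857653138642594355667203630389177309848074238068214697573889087246291202699413228852868204326534174061951534250530238697151636529959865091888849657661946861897232968877852507923652431929167999647834138983561993801074387604024151868348664742540780223741567336241448885352036105408630119313499084918312850458877363524862382326608806590000731472425488708660688255980339144682146915349955265))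

noncomputable def t214 : Tre := Helper55.PC.toT t214n

theorem ok214 : chk K t214 r217 = true :=
  Helper55.PC.chkN_sound K t214n r217 (by decide +kernel)

noncomputable def t215 : Tre :=
  (.N [0,0,1,-2] 0 ⟨0,[(9,0)]⟩ ⟨0,[(10,0)]⟩ (.i 1 ⟨1,[(21,0),(14,2),(21,1)]⟩ ⟨0,[(0,0)]⟩))

theorem ok215 : chk K t215 l218 = true := by decide +kernel

open Helper55.PC in
noncomputable def t216n : Helper55.PC.Ten :=
  (q 44681443820310873090458689637266159007535935598229100560300407130622091012305420681231 (s
  45052912066072759158372360518022340361036333889622936755601170407601069764105047651455372886489600879252540584811129177542305793483589091721035701029132835790362857250726191617353233520139760843603780027168495602197202018622266743600357745087898967046013139068637335348612872882451726913893459597478643655916982279842826200546355115019196079033528423349935371937669927752838523666388768105510680379531010041963044758269542098943596073998513964445509870895900584595004909945537)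
  (s
  14201401013717787788255425042025217569486431516773529388585128788598482468934763198428895865189708312780192662723384121295069624037322506826443284751199351572391798621181907933701698965112656722164946263915951598861819808390524500094590699212224871795738770435428230361797641673459998692503364179184558067578545937233160110234888398180914537536813443540091820234839816699104358802792655382265587361201760395234644658213172144406118597246369426940069958665343636128218609008586969145866339142221251931445761414819862188506755398964061155795487398180758831048531941383084548893287116975100658369))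

noncomputable def t216 : Tre := Helper55.PC.toT t216n

theorem ok216 : chk K t216 r218 = true :=
  Helper55.PC.chkN_sound K t216n r218 (by decide +kernel)

noncomputable def t217 : Tre :=
  (.N [0,-2,1,0,-1] (-1) ⟨0,[(1,0)]⟩ ⟨0,[(0,0)]⟩ (.x 1 ⟨1,[(19,0),(27,0),(15,0)]⟩ ⟨35,[(16,6),(5,6),
  (9,19),(1,35),(15,7),(4,17),(10,19)]⟩))

theorem ok217 : chk K t217 l220 = true := by decide +kernel

noncomputable def t218 : Tre :=
  (.N [0,0,1,-2] 0 ⟨0,[(4,0)]⟩ ⟨0,[(5,0)]⟩ (.x (-1) ⟨4,[(8,8),(20,7),(11,0),(6,3),(2,1),(4,3),(7,0),
  (11,1)]⟩ ⟨0,[(0,0)]⟩))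

theorem ok218 : chk K t218 l221 = true := by decide +kernel

noncomputable def t219 : Tre :=
  (.N [0,0,1,-2] 0 ⟨0,[(5,0)]⟩ ⟨0,[(6,0)]⟩ (.x 0 ⟨0,[(0,0)]⟩ ⟨55,[(7,35),(10,2),(5,2),(7,111),(1,
  39),(13,55),(3,7),(4,45)]⟩))

theorem ok219 : chk K t219 l222 = true := by decide +kernel

noncomputable def t220 : Tre :=
  (.N [0,0,1,-2] 0 ⟨0,[(6,0)]⟩ ⟨0,[(7,0)]⟩ (.i 1 ⟨1,[(18,0),(14,2),(21,1)]⟩ ⟨0,[(0,0)]⟩))

theorem ok220 : chk K t220 l223 = true := by decide +kernel

open Helper81.PXd in
noncomputable def t221n : Helper81.PXd.Ten :=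
  (r
  348545646177223586307921809348266921256016405992453297605146416376738762542500369576258803367803920109752361434157737550358794113212934582634571895855237057112544048058353202973037406977341430623285683615801523539371186206867722208545655624472719917915014067793787136367646144676605562161757288033067576137916326143423816145113708763068891813020438836627614485323916854863127414048386041247594594463712334279716910680580190274388042177756221110462222383879960798820800387521993011495285835510538962172718950304710070426111189194204700333871615867969429793914809069058789081215245508746)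

noncomputable def t221 : Tre := Helper81.PXd.toT t221n

theorem ok221 : chk K t221 r223 = true :=
  Helper81.PXd.chkN_sound K t221n r223 (by decide +kernel)

noncomputable def t222 : Tre :=
  (.N [0,0,1,-2] 0 ⟨0,[(3,0)]⟩ ⟨0,[(4,0)]⟩ (.x 0 ⟨0,[(0,0)]⟩ ⟨55,[(5,35),(10,2),(5,2),(7,111),(1,
  39),(13,55),(3,7),(4,45)]⟩))

theorem ok222 : chk K t222 l224 = true := by decide +kernel

noncomputable def t223 : Tre :=
  (.N [0,0,1,-2] 0 ⟨0,[(4,0)]⟩ ⟨0,[(5,0)]⟩ (.x (-1) ⟨4,[(8,8),(20,7),(11,0),(6,3),(2,1),(4,3),(7,0),
  (11,1)]⟩ ⟨0,[(0,0)]⟩))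

theorem ok223 : chk K t223 l225 = true := by decide +kernel

noncomputable def t224 : Tre :=
  (.N [0,1,2,1,-1] 0 ⟨0,[(1,0)]⟩ ⟨0,[(0,0)]⟩ (.x (-1) ⟨3,[(18,3),(0,0),(5,0),(10,1),(11,1),(1,7),
  (23,1),(1,7)]⟩ ⟨2,[(1,0),(0,0),(3,0),(13,0),(9,1),(12,0),(7,0),(1,1),(1,6),(12,0),(11,1)]⟩))

theorem ok224 : chk K t224 l227 = true := by decide +kernel

noncomputable def t225 : Tre :=
  (.N [0,-1,0,0,6] (-1) ⟨0,[(1,0)]⟩ ⟨0,[(0,0)]⟩ (.x 0 ⟨4,[(21,0),(5,0),(2,28),(24,0),(1,1),(10,1)]⟩
  ⟨11,[(20,20),(3,1),(20,20),(4,8),(9,4),(1,1)]⟩))

theorem ok225 : chk K t225 l229 = true := by decide +kernel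

noncomputable def t226 : Tre :=
  (.N [0,0,1,-2] 0 ⟨0,[(9,0)]⟩ ⟨0,[(10,0)]⟩ (.i 0 ⟨0,[(0,0)]⟩ ⟨0,[(13,1),(39,0)]⟩))

theorem ok226 : chk K t226 l230 = true := by decide +kernel

noncomputable def t227 : Tre :=
  (.N [0,0,1,-2] 0 ⟨0,[(10,0)]⟩ ⟨0,[(11,0)]⟩ (.i 1 ⟨1,[(22,0),(14,2),(21,1)]⟩ ⟨0,[(0,0)]⟩))

theorem ok227 : chk K t227 l231 = true := by decide +kernel

open Helper55.PC in
noncomputable def t228n : Helper55.PC.Ten :=
  (s
  60994552684062326667510975954472311098395181994667735215851407847746402207867906390196248972895233491348087656486254841281116325037933972161827248299828633246614820929223786383045238665170254363782882357182733034766865465862785783875652343883273108951698409946149449613882614128278993564061268594304353978485740550213192028505827654329411966443340636954811056107976855549134989358705190157085088336136482533045375149058120971898767561508449906916714964728624652476729858109157528970261144825127051705600682279909451125855018864159089080203215978190886501324993678890586442245638024563112681125499110081)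

noncomputable def t228 : Tre := Helper55.PC.toT t228n

theorem ok228 : chk K t228 r231 = true :=
  Helper55.PC.chkN_sound K t228n r231 (by decide +kernel)

noncomputable def t229 : Tre :=
  (.N [0,-3,0,0,7] (-2) ⟨0,[(1,0)]⟩ ⟨0,[(0,0)]⟩ (.x 1 ⟨9,[(22,0),(5,0),(2,63),(24,5),(1,11),(10,
  11)]⟩ ⟨1,[(21,4),(24,4),(4,2),(9,0)]⟩))

theorem ok229 : chk K t229 l233 = true := by decide +kernel

noncomputable def t230 : Tre :=
  (.N [0,0,1,-2] 0 ⟨0,[(10,0)]⟩ ⟨0,[(11,0)]⟩ (.i 1 ⟨1,[(22,0),(14,2),(21,1)]⟩ ⟨0,[(0,0)]⟩))

theorem ok230 : chk K t230 l234 = true := by decide +kernel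

noncomputable def t231 : Tre :=
  (.N [0,0,1,-2] 0 ⟨0,[(11,0)]⟩ ⟨0,[(12,0)]⟩ (.i 0 ⟨0,[(0,0)]⟩ ⟨0,[(15,1),(39,0)]⟩))

theorem ok231 : chk K t231 l235 = true := by decide +kernel

open Helper55.PC in
noncomputable def t232n : Helper55.PC.Ten :=
  (s
  3501022231822354050345574240034686513850536389664045962285427637790823066930809715315095290243163460435223510535328074398631707187363565872526527877319498113947680949866658376482660833157126323457679552950747353141860741776321880391711959566633714189700901138744559269519308473056386939646868386915377863548426157050750772294743322700864093217475529746777258074894968729219011695090388139211723044980864042277081417103526956150968965573152559752063599314006470077811406554195022088467246278741677577463756934455507623478047322720431334550519070718485788157503172213343785899583865537)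

noncomputable def t232 : Tre := Helper55.PC.toT t232n

theorem ok232 : chk K t232 r235 = true :=
  Helper55.PC.chkN_sound K t232n r235 (by decide +kernel)

noncomputable def t233 : Tre :=
  (.N [0,0,1,-2] 0 ⟨0,[(9,0)]⟩ ⟨0,[(10,0)]⟩ (.i 0 ⟨0,[(0,0)]⟩ ⟨0,[(13,1),(39,0)]⟩))

theorem ok233 : chk K t233 l236 = true := by decide +kernel

noncomputable def t234 : Tre :=
  (.N [0,0,1,-2] 0 ⟨0,[(10,0)]⟩ ⟨0,[(11,0)]⟩ (.i 1 ⟨1,[(22,0),(14,2),(21,1)]⟩ ⟨0,[(0,0)]⟩))

theorem ok234 : chk K t234 l237 = true := by decide +kernel

open Helper55.PC in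
noncomputable def t235n : Helper55.PC.Ten :=
  (r
  54461131152767434504781490750797769401571988494168336537575588979774164401071656461628777642721105338969714150412096440677679263718536110108904541241781601696734861034320015730094886450886697501677608451523914559481046475385350743191053353122411051572285042007173233189953825561489380132287592946624558810158668031241055432068155553079230776044133031711989527119891681951850703409239862382336591152476543663923050458007652126352294820916700412106611714136158481593977847011520069427604452691061916608279389775538726622577088537969134221587255064159852269898104417832420311928615089980018268208213573992264079976743588877344079394354662198685201618212154754682816580610808280132320966394531896931802060406729207023447989974004493720676244168415929429632362876818023563460260433811276846211498520747959829898465091757810017)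

noncomputable def t235 : Tre := Helper55.PC.toT t235n

theorem ok235 : chk K t235 r237 = true :=
  Helper55.PC.chkN_sound K t235n r237 (by decide +kernel)

noncomputable def t236 : Tre :=
  (.N [0,0,1,-2] 0 ⟨0,[(6,0)]⟩ ⟨0,[(7,0)]⟩ (.i 1 ⟨1,[(18,0),(14,2),(21,1)]⟩ ⟨0,[(0,0)]⟩))

theorem ok236 : chk K t236 l238 = true := by decide +kernel

noncomputable def t237 : Tre :=
  (.N [0,0,1,-2] 0 ⟨0,[(7,0)]⟩ ⟨0,[(8,0)]⟩ (.i 0 ⟨0,[(0,0)]⟩ ⟨0,[(11,1),(39,0)]⟩))

theorem ok237 : chk K t237 l239 = true := by decide +kernel

open Helper55.PC in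
noncomputable def t238n : Helper55.PC.Ten :=
  (s
  766461599973542999602663793204112295850078326129702515900997049369498845736017487717571987613970184902830974479755891002304463952037897855399608869782000810971507959655119772688832045385577425533765216377711076966904638905074785097062316379045098956334024019720232165411508032271786273544923666623381171629491090384707484433457031084964775420113000097994587397950992591936667078641190820173097410896228085034235616360730636283963904989994660431183298252698795077365607884975491277592356332084379596102148505621210321778634055967172754461112699655446964202292827483673688602655105806925193297265345)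

noncomputable def t238 : Tre := Helper55.PC.toT t238n

theorem ok238 : chk K t238 r239 = true :=
  Helper55.PC.chkN_sound K t238n r239 (by decide +kernel)

open Helper55.PC in
noncomputable def t239n : Helper55.PC.Ten :=
  (q
  11101669057755718357303009221613584756061735168287026525053485616681474398141216502077546893383203982607607272386611148559233308955786607461133856350148886542
  (q
  707272558731608273804771705084950299471663348849979873661547662047131814663782324480149328495553702072183687560450139447247646843316712438074648277406318606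
  (r
  93901001854204386980973717651978999656758822345150821992775132002737459497343786402003227186422038924482486496058252880218853219519176115973985305190105308815133516170801579578326064972461166781278717865086335330222323447889981519049002010093332056721496985723426588084772989712817201365595447552286329952168286506237007370620916710811239587933225479333771375523431692515342927169997455398295992615900310354460579027291844917409212901785068633728583145572423735806718961970403398157039670453446724869807380367095453001931619060400503240093621594569764127059843945416153364988475905611190384376890534387354560293402964968073011705543500351785475758494452275022116179108249430183063628583754643224375946115027745341644205922819395487374029624093356438133370765923671867576128518764613408618617443978906235374779624873437612501531307253039415626711396813627270184006851138586198981644378753)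
  (q
  11101669057755718738375830482559590612117771696542430166722666417522829924776008239772924634372957718999111187574675612883300007239276887018572487573396127758
  (q
  11101669057755718928912241113032593540145789960670131987557256817943507688093404108620613504867834587587229891193024177144772443399409339598978203303874265102
  (r
  3010090263204120655099387512546619268397639180083055445083985273034120956905661845863446895678948623528710034690092933642590957821705522040210396362307152850832295158914608564715857158304768881855309724522278287917757555883417994153865162660954669933168706123492254917792112247213940272563190539586358536210090880077842734855137732541885051840554957184250646262381231922276133295626859756111513835021065)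
  (s
  9189150796195003524517960348423823124508869816197523332170199674344873333325624032812254839938034746128101616058378968752193370710545835541750081207963038833580459558425186325743842087737027524028329138040351027667326777043281426165478448769377231972504869285126574990103556193634274636763496101503353146570132050423989656756707941887025552850847814506886753740607666480791843979210677813797169653749931535827343587896718877252671441445032115128336635780753563177193518885231513075460376642650088437666603122496259704010212292440855630132071254491420808118501043177558284187629947485068198593))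
  (i 21775413351585892568402080966324959445034 (i 21786047175393715570356494587621296701482 (i
  2659429586840050809170424367564324873 (n
  443019449387117679647855114768022381767747101097147379421964010264604292) (r
  103075856049020418406746677117284389744944760869627270774579575151926668528369951860917670493629130060229404013043908473846480248655481354013789748829304275350230475633100865406070853508645497200611560111163681611629669335732878224094949976512745406513910541016390755206934896696674865756236614678938322916309583773580015379497902746304595696230125895752352904481940899529265494240230573578804987663792683364918057))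
  (r
  29013274180828946208723638671676393674782755120437104638320603260567225269618546577756829962384830070911939370013495744730814935586662632242200255313573405451128801444882669975579405732241343893459930138904569293627602240729300485934752430704765765427270710591441362582915863394879531779665685301537449885959439652728576016290956422697420107833715942705987352416832705861186541532740492819156310597451090246064096743318922470185))
  (i 324637400738492057784811763400744 (i 324478944413462952789627040301096 (i
  39609241422143334527900188679 (n 3289692139682319607224731392786354862811958362450185126816899)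
  (q
  11101669057755719691057883634924605252257863017180939270895618419626218741362987584011368986847342061939704705666418434233197483588143807796465612149326217230
  (r
  3000660384006837347048895523011208207116566244698608409736841089838394608351710120553187223930765546717663756196190244914840555562887914538061755938423432147514941838756450385380068426069132242057592839003315963815231520640142529574946985268193465055945978190207490416826058760119192987375399765253317088559302791482034463791952817158396565407693889038099795109612653628793113567124202957052636637176617)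
  (r
  91455124666232695581954233970672826090576903600451625023087651514925107029929192070685984039315199458516522141334266478540763762782650265169643950477841666799584628064638050641423160357670920645793172733697488450777647350312270969358799799159695956890642307097748419033962233161099215295544243221517392936014238045216211535012666610323452864825940351179182803792416359440903891137443186602620073275191027893975434280720827122099476237675128968204011743640276086085713478359799273480710119015710180257101411100316108630005086179560894453575312169)))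
  (q
  11101669057755719500521473004451602324229844753053237450061028019205540978045591715163680116352465194136319494096702534191870869238888309757364987210512859150
  (r
  324913872398130009042911211392164544014602797990692616804890892952184320628570648306537085653726633226021792901456932785948664732578844132526279718046373028745902333480065825557788362269433565916780405247393317992831648537340048750318719504534428698982929902094760221960655675669749282065753160621265384235167443640164768587500096632114212353062681225536512239595426858441136931186522368671731227426994385231767581472490756288615499549799713068609131942454799984174812827384579909104026463164374287622864565662440648446720595977001)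
  (r
  3000660383308372840865776843096710443591731732296118537476881457380202717042556754085790026913010148948537787918624636814451922297906896926404772594097473554823854875563006419969142603909599487780014830418039214373104301600621804665909686886696892267419708840985719056526288944343150644315863119190273437597368698736562003327853751310757036854085064127962783797137653459706228226458492311596657426047785)))
  (s
  8292093411344612223540329209351778145646035285179440532678968523349466334528862236113480990993563959765872286559816873427477748679273192635619246346789597767261722268957712319726241924479749541331201192852987506634705430833359203130559406818446029004137328889070513593454049250502223656541717077476891277812073548191238218052289686747977209342891422599813940504379039420529937309090681382921112674557736055747773129847626549230807758259926347244533278701491691621901147840217058293089147629245018065489767714408949684103392347875066743344299965382969260716657124311745)))))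
  (q
  11101669057755718547839419852086587684089753432414728345888076017102152161458612370925235763878080851195725976004959712831339569002970224510505690969325830158
  (r
  3628018594591116910086352094066583566080591866575245972290880093878748484708374040810246161666818326393930035253792030104712287541691354580278332730980261124458147164252672032529424861451341410553352599201360486090378320946165833164984774560111325109236905495015176129672411182463236683573242475921833546147602972877610934663557878988858291265170939549729322905066014437906022715616567975136591101518786401291932879062458179881)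
  (s
  2558379199717633325911739542086247088045507861083095416255358636189227256862275464093571386011166264683233914439316366310122434338977255544586515913464955636893863457874652669695036668923047331849351687620422744445505875100274754969705669090074199843429376362287901732154790283771044485069242692784297841549740383439618624778095707400356528974944096824720155257434434694353417320947975373763536466093149554746219271983278559178552348093763133522509070180525662596145109313188169888584929143323062452847162875764626950807669320817282460317093025372100178130788083921238686826398656612030891456378894688492392262205203798455021994689)))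

noncomputable def t239 : Tre := Helper55.PC.toT t239n

theorem ok239 : chk K t239 r3 = true :=
  Helper55.PC.chkN_sound K t239n r3 (by decide +kernel)

open Helper55.PC in
noncomputable def t240n : Helper55.PC.Ten :=
  (q
  464773060622203292191776570855885706001607271039145592917694399540043599597736389801201691079838890666851641182448669180521779659543766158600590932759351943355301902
  (q
  15096314472346787612258410100523931449462411919148666937066877536549270322712597516903194531496553092383836643420404920173572372733280923916385531429973386870717251977230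
  (q
  8498343004764146489125476459837385252686691058294326008800566871460550596138832655086472693025961412577335868335228549775232107829943461922908763696553750494321565490491317928138506254
  (r
  98303143573790540883546888116642052269008303562920233507559112275545103774960570198040046745957848566655541479080480084777203660138657987843524286953137061806662761785128401270136745124529499309540230708595227822575883100312350650426426867023979930196364318430704352862270710373024364253627493824180879287158822676098783730707653788756150871533562434764376438692116782904428879498458697069920274474424606985)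
  (r
  196619780002842439956487411186963022789293121501782450284664635954058346271455120816734946230082179612352254476833453031058605735024300902948831742266598529817151017092687920772560444134748521557342474228980730589447526399672405594658298878555644887800334833729996520652048901696746514109853564090028132203982774567372273577282158081478083302216040408720941849745296636953259233002236331247175902583442383657))
  (r
  70693851449551364591137148866621721849729358549966691397112074944405183118549275070499460461334410193411755317457996074717888226928636928995262897983826252699039219533643154844061307872191353149682903794023005041647911556170361060484451397760806611723847612103403383064303015294681455778892861984256416660310889884275205796817835819805851215809873868973624762413468172117187892718940011713647556740102217304964688083842110501239338509147984204586115845887358771472139181858666106060184312358999763349425129003260912414809891631878011236553453297737103213278790372481084076995326532176484171121683285562235430604366121))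
  (q
  15096314472346787612258410100523931449462411919148666937066877536549270322712597516903194531496553092383836643420404920173572372733280923916385531429973386870717251977230
  (r
  5303163766904392158948373658486335979374078068244959284418909051625476473731507011249610990385730650808563831057122198763563669698073481803191392277711862715304037486571913267290344776846206934277079422229624122473493704514384480254571064861503817429554229563183749809116153752351201321875312138758533933159042174349943768068609728158418094590630817031574036780140999071861663737540318399726168809525262810460193054117117372075484762095886199227966150222241325558711753908521)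
  (r
  1304071385274715029817914382406119458320493654773280008232594036108145153152771962095255218174220540160288279798285106311964123949580877810857812874757609654218586578309592499605493168318615880535818670854069247429915596509308470741802765957667038411072780614305036309090153202317796833990667299778554032450952922295578714038276983818309880172528593669698660791176023264867590900399293404947265208159963572465592051350758685386971069580093388502655785464694978942193323827520011253484948459982263844370602626330357706741327678364080993973292448681073007648964616195807048650623185275253277677861605228849633071207732580061204404861395241)))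

noncomputable def t240 : Tre := Helper55.PC.toT t240n

theorem ok240 : chk K t240 r2 = true :=
  Helper55.PC.chkN_sound K t240n r2 (by decide +kernel)

theorem cl0 : Clo K (Helper55.TR.GH 1 Helper55.TR.BrU [0,0,0,0,0,1]) r18 :=
  .w [n0,n0,n0,n0,n0,n0,n0,n0,n0,n0,n0,n0,m1,n2] (e' := [n1,n0,n0,n0,n0,n0,n0,n0,n0,n0,n0,n0,n1,m2]) (by decide +kernel) (.t
  t11 ok11) (.t t12 ok12)

theorem cl1 : Clo K (Helper55.TR.GH 1 Helper55.TR.BrU [0,0,0,0,0,1]) r17 :=
  .w [n0,n0,n0,n0,n0,n0,n0,n0,n0,n0,n0,n0,n1,m2] (e' := [n1,n0,n0,n0,n0,n0,n0,n0,n0,n0,n0,n0,m1,n2]) (by decide +kernel) (.t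
  t10 ok10) cl0

theorem cl2 : Clo K (Helper55.TR.GH 1 Helper55.TR.BrU [0,0,0,0,0,1]) l16 :=
  .i [n1,n0,m1,m1,n0,n0,n0,m1,n0,m1,m2] (e' := [n0,n0,n1,n1,n0,n0,n0,n1,n0,n1,n2]) (by decide +kernel)
  (by decide +kernel) (.t t9 ok9) cl1

theorem cl3 : Clo K (Helper55.TR.GH 1 Helper55.TR.BrU [0,0,0,0,0,1]) r20 :=
  .w [n0,n0,n0,n0,n0,n0,n0,n0,n0,n0,n0,n0,m1,n2] (e' := [n1,n0,n0,n0,n0,n0,n0,n0,n0,n0,n0,n0,n1,m2]) (by decide +kernel) (.t
  t14 ok14) (.t t15 ok15)

theorem cl4 : Clo K (Helper55.TR.GH 1 Helper55.TR.BrU [0,0,0,0,0,1]) r16 :=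
  .w [n0,n0,n0,n0,n0,n0,n0,n0,n0,n0,n0,n0,n1,m2] (e' := [n1,n0,n0,n0,n0,n0,n0,n0,n0,n0,n0,n0,m1,n2]) (by decide +kernel) (.t
  t13 ok13) cl3

theorem cl5 : Clo K (Helper55.TR.GH 1 Helper55.TR.BrU [0,0,0,0,0,1]) r15 :=
  .i [n1,n0,n1,n1,n0,n0,n0,n1,n0,n1,n2] (e' := [n0,n0,m1,m1,n0,n0,n0,m1,n0,m1,m2]) (by decide +kernel)
  (by decide +kernel) cl2 cl4

theorem cl6 : Clo K (Helper55.TR.GH 1 Helper55.TR.BrU [0,0,0,0,0,1]) r14 :=
  .i [n1,n0,m1,m1,n0,n0,n0,n0,n0,n0,m5] (e' := [n0,n0,n1,n1,n0,n0,n0,n0,n0,n0,n5]) (by decide +kernel)
  (by decide +kernel) (.t t8 ok8) cl5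

theorem cl7 : Clo K (Helper55.TR.GH 1 Helper55.TR.BrU [0,0,0,0,0,1]) l13 :=
  .i [n1,n0,n2,n2,m1,n0,n0,n0,n0,m2,n1] (e' := [n0,n0,m2,m2,n1,n0,n0,n0,n0,n2,m1]) (by decide +kernel)
  (by decide +kernel) (.t t7 ok7) cl6

theorem cl8 : Clo K (Helper55.TR.GH 1 Helper55.TR.BrU [0,0,0,0,0,1]) r35 :=
  .w [n0,n0,n0,n0,n0,n0,n0,n0,n0,n0,n0,n0,n1,m2] (e' := [n1,n0,n0,n0,n0,n0,n0,n0,n0,n0,n0,n0,m1,n2]) (by decide +kernel) (.t
  t23 ok23) (.t t24 ok24)

theorem cl9 : Clo K (Helper55.TR.GH 1 Helper55.TR.BrU [0,0,0,0,0,1]) r34 :=
  .w [n0,n0,n0,n0,n0,n0,n0,n0,n0,n0,n0,n0,m1,n2] (e' := [n1,n0,n0,n0,n0,n0,n0,n0,n0,n0,n0,n0,n1,m2]) (by decide +kernel) (.t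
  t22 ok22) cl8

theorem cl10 : Clo K (Helper55.TR.GH 1 Helper55.TR.BrU [0,0,0,0,0,1]) l33 :=
  .i [n1,n0,m1,m1,n0,n0,n0,n0,n0,n0,m8] (e' := [n0,n0,n1,n1,n0,n0,n0,n0,n0,n0,n8]) (by decide +kernel)
  (by decide +kernel) (.t t21 ok21) cl9

theorem cl11 : Clo K (Helper55.TR.GH 1 Helper55.TR.BrU [0,0,0,0,0,1]) r38 :=
  .w [n0,n0,n0,n0,n0,n0,n0,n0,n0,n0,n0,n0,n1,m2] (e' := [n1,n0,n0,n0,n0,n0,n0,n0,n0,n0,n0,n0,m1,n2]) (by decide +kernel) (.t
  t27 ok27) (.t t28 ok28)

theorem cl12 : Clo K (Helper55.TR.GH 1 Helper55.TR.BrU [0,0,0,0,0,1]) r37 :=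
  .w [n0,n0,n0,n0,n0,n0,n0,n0,n0,n0,n0,n0,m1,n2] (e' := [n1,n0,n0,n0,n0,n0,n0,n0,n0,n0,n0,n0,n1,m2]) (by decide +kernel) (.t
  t26 ok26) cl11

theorem cl13 : Clo K (Helper55.TR.GH 1 Helper55.TR.BrU [0,0,0,0,0,1]) r33 :=
  .i [n1,n0,m1,m1,n0,n0,n0,n0,n0,n0,m7] (e' := [n0,n0,n1,n1,n0,n0,n0,n0,n0,n0,n7]) (by decide +kernel)
  (by decide +kernel) (.t t25 ok25) cl12

theorem cl14 : Clo K (Helper55.TR.GH 1 Helper55.TR.BrU [0,0,0,0,0,1]) l32 :=
  .i [n1,n0,n1,n1,n0,n0,n0,n0,n0,n0,n8] (e' := [n0,n0,m1,m1,n0,n0,n0,n0,n0,n0,m8]) (by decide +kernel)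
  (by decide +kernel) cl10 cl13

theorem cl15 : Clo K (Helper55.TR.GH 1 Helper55.TR.BrU [0,0,0,0,0,1]) r40 :=
  .w [n0,n0,n0,n0,n0,n0,n0,n0,n0,n0,n0,n0,m1,n2] (e' := [n1,n0,n0,n0,n0,n0,n0,n0,n0,n0,n0,n0,n1,m2]) (by decide +kernel) (.t
  t30 ok30) (.t t31 ok31)

theorem cl16 : Clo K (Helper55.TR.GH 1 Helper55.TR.BrU [0,0,0,0,0,1]) r32 :=
  .w [n0,n0,n0,n0,n0,n0,n0,n0,n0,n0,n0,n0,n1,m2] (e' := [n1,n0,n0,n0,n0,n0,n0,n0,n0,n0,n0,n0,m1,n2]) (by decide +kernel) (.t
  t29 ok29) cl15

theorem cl17 : Clo K (Helper55.TR.GH 1 Helper55.TR.BrU [0,0,0,0,0,1]) r31 :=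
  .i [n1,n0,n1,n1,n0,n0,n0,n0,n0,n0,n7] (e' := [n0,n0,m1,m1,n0,n0,n0,n0,n0,n0,m7]) (by decide +kernel)
  (by decide +kernel) cl14 cl16

theorem cl18 : Clo K (Helper55.TR.GH 1 Helper55.TR.BrU [0,0,0,0,0,1]) l30 :=
  .i [n1,n0,m3,m3,n1,n0,n0,n0,n0,n0,m5] (e' := [n0,n0,n3,n3,m1,n0,n0,n0,n0,n0,n5]) (by decide +kernel)
  (by decide +kernel) (.t t20 ok20) cl17

theorem cl19 : Clo K (Helper55.TR.GH 1 Helper55.TR.BrU [0,0,0,0,0,1]) r44 :=
  .w [n0,n0,n0,n0,n0,n0,n0,n0,n0,n0,n0,n0,m1,n2] (e' := [n1,n0,n0,n0,n0,n0,n0,n0,n0,n0,n0,n0,n1,m2]) (by decide +kernel) (.t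
  t34 ok34) (.t t35 ok35)

theorem cl20 : Clo K (Helper55.TR.GH 1 Helper55.TR.BrU [0,0,0,0,0,1]) r43 :=
  .w [n0,n0,n0,n0,n0,n0,n0,n0,n0,n0,n0,n0,n1,m2] (e' := [n1,n0,n0,n0,n0,n0,n0,n0,n0,n0,n0,n0,m1,n2]) (by decide +kernel) (.t
  t33 ok33) cl19

theorem cl21 : Clo K (Helper55.TR.GH 1 Helper55.TR.BrU [0,0,0,0,0,1]) l42 :=
  .i [n1,n0,n1,n1,n0,n0,n0,n0,n0,n0,n6] (e' := [n0,n0,m1,m1,n0,n0,n0,n0,n0,n0,m6]) (by decide +kernel)
  (by decide +kernel) (.t t32 ok32) cl20

theorem cl22 : Clo K (Helper55.TR.GH 1 Helper55.TR.BrU [0,0,0,0,0,1]) r42 :=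
  .w [n0,n0,n0,n0,n0,n0,n0,n0,n0,n0,n0,n0,m1,n2] (e' := [n1,n0,n0,n0,n0,n0,n0,n0,n0,n0,n0,n0,n1,m2]) (by decide +kernel) (.t
  t36 ok36) (.t t37 ok37)

theorem cl23 : Clo K (Helper55.TR.GH 1 Helper55.TR.BrU [0,0,0,0,0,1]) r30 :=
  .i [n1,n0,m1,m1,n0,n0,n0,n0,n0,n0,m6] (e' := [n0,n0,n1,n1,n0,n0,n0,n0,n0,n0,n6]) (by decide +kernel)
  (by decide +kernel) cl21 cl22

theorem cl24 : Clo K (Helper55.TR.GH 1 Helper55.TR.BrU [0,0,0,0,0,1]) r29 :=
  .i [n1,n0,n3,n3,m1,n0,n0,n0,n0,n0,n5] (e' := [n0,n0,m3,m3,n1,n0,n0,n0,n0,n0,m5]) (by decide +kernel)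
  (by decide +kernel) cl18 cl23

theorem cl25 : Clo K (Helper55.TR.GH 1 Helper55.TR.BrU [0,0,0,0,0,1]) l28 :=
  .i [n1,n0,n1,n1,m1,n0,n0,n0,n0,n0,m7] (e' := [n0,n0,m1,m1,n1,n0,n0,n0,n0,n0,n7]) (by decide +kernel)
  (by decide +kernel) (.t t19 ok19) cl24

theorem cl26 : Clo K (Helper55.TR.GH 1 Helper55.TR.BrU [0,0,0,0,0,1]) r47 :=
  .w [n0,n0,n0,n0,n0,n0,n0,n0,n0,n0,n0,n0,n1,m2] (e' := [n1,n0,n0,n0,n0,n0,n0,n0,n0,n0,n0,n0,m1,n2]) (by decide +kernel) (.t
  t39 ok39) (.t t40 ok40)

theorem cl27 : Clo K (Helper55.TR.GH 1 Helper55.TR.BrU [0,0,0,0,0,1]) r28 :=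
  .w [n0,n0,n0,n0,n0,n0,n0,n0,n0,n0,n0,n0,m1,n2] (e' := [n1,n0,n0,n0,n0,n0,n0,n0,n0,n0,n0,n0,n1,m2]) (by decide +kernel) (.t
  t38 ok38) cl26

theorem cl28 : Clo K (Helper55.TR.GH 1 Helper55.TR.BrU [0,0,0,0,0,1]) r27 :=
  .i [n1,n0,m1,m1,n1,n0,n0,n0,n0,n0,n7] (e' := [n0,n0,n1,n1,m1,n0,n0,n0,n0,n0,m7]) (by decide +kernel)
  (by decide +kernel) cl25 cl27

theorem cl29 : Clo K (Helper55.TR.GH 1 Helper55.TR.BrU [0,0,0,0,0,1]) l26 :=
  .i [n1,n0,m2,m2,n1,n0,n0,n0,n0,n0,n2] (e' := [n0,n0,n2,n2,m1,n0,n0,n0,n0,n0,m2]) (by decide +kernel)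
  (by decide +kernel) (.t t18 ok18) cl28

theorem cl30 : Clo K (Helper55.TR.GH 1 Helper55.TR.BrU [0,0,0,0,0,1]) r26 :=
  .w [n0,n0,n0,n0,n0,n0,n0,n0,n0,n0,n0,n0,n1,m2] (e' := [n1,n0,n0,n0,n0,n0,n0,n0,n0,n0,n0,n0,m1,n2]) (by decide +kernel) (.t
  t41 ok41) (.t t42 ok42)

theorem cl31 : Clo K (Helper55.TR.GH 1 Helper55.TR.BrU [0,0,0,0,0,1]) r25 :=
  .i [n1,n0,n2,n2,m1,n0,n0,n0,n0,n0,m2] (e' := [n0,n0,m2,m2,n1,n0,n0,n0,n0,n0,n2]) (by decide +kernel)
  (by decide +kernel) cl29 cl30

theorem cl32 : Clo K (Helper55.TR.GH 1 Helper55.TR.BrU [0,0,0,0,0,1]) l24 :=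
  .i [n1,n0,m1,m1,n0,n0,n0,m2,n0,m1,n1] (e' := [n0,n0,n1,n1,n0,n0,n0,n2,n0,n1,m1]) (by decide +kernel)
  (by decide +kernel) (.t t17 ok17) cl31

theorem cl33 : Clo K (Helper55.TR.GH 1 Helper55.TR.BrU [0,0,0,0,0,1]) r50 :=
  .w [n0,n0,n0,n0,n0,n0,n0,n0,n0,n0,n0,n0,n1,m2] (e' := [n1,n0,n0,n0,n0,n0,n0,n0,n0,n0,n0,n0,m1,n2]) (by decide +kernel) (.t
  t44 ok44) (.t t45 ok45)

theorem cl34 : Clo K (Helper55.TR.GH 1 Helper55.TR.BrU [0,0,0,0,0,1]) r24 :=
  .w [n0,n0,n0,n0,n0,n0,n0,n0,n0,n0,n0,n0,m1,n2] (e' := [n1,n0,n0,n0,n0,n0,n0,n0,n0,n0,n0,n0,n1,m2]) (by decide +kernel) (.t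
  t43 ok43) cl33

theorem cl35 : Clo K (Helper55.TR.GH 1 Helper55.TR.BrU [0,0,0,0,0,1]) r23 :=
  .i [n1,n0,n1,n1,n0,n0,n0,n2,n0,n1,m1] (e' := [n0,n0,m1,m1,n0,n0,n0,m2,n0,m1,n1]) (by decide +kernel)
  (by decide +kernel) cl32 cl34

theorem cl36 : Clo K (Helper55.TR.GH 1 Helper55.TR.BrU [0,0,0,0,0,1]) l22 :=
  .i [n1,n0,n0,n0,n0,n0,n0,n0,n0,m1,n2] (e' := [n0,n0,n0,n0,n0,n0,n0,n0,n0,n1,m2]) (by decide +kernel)
  (by decide +kernel) (.t t16 ok16) cl35

theorem cl37 : Clo K (Helper55.TR.GH 1 Helper55.TR.BrU [0,0,0,0,0,1]) r56 :=
  .w [n0,n0,n0,n0,n0,n0,n0,n0,n0,n0,n0,n0,m1,n2] (e' := [n1,n0,n0,n0,n0,n0,n0,n0,n0,n0,n0,n0,n1,m2]) (by decide +kernel) (.t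
  t49 ok49) (.t t50 ok50)

theorem cl38 : Clo K (Helper55.TR.GH 1 Helper55.TR.BrU [0,0,0,0,0,1]) r55 :=
  .w [n0,n0,n0,n0,n0,n0,n0,n0,n0,n0,n0,n0,n1,m2] (e' := [n1,n0,n0,n0,n0,n0,n0,n0,n0,n0,n0,n0,m1,n2]) (by decide +kernel) (.t
  t48 ok48) cl37

theorem cl39 : Clo K (Helper55.TR.GH 1 Helper55.TR.BrU [0,0,0,0,0,1]) l54 :=
  .i [n1,n0,m3,m3,n1,n0,n0,n0,n0,n0,m7] (e' := [n0,n0,n3,n3,m1,n0,n0,n0,n0,n0,n7]) (by decide +kernel)
  (by decide +kernel) (.t t47 ok47) cl38

theorem cl40 : Clo K (Helper55.TR.GH 1 Helper55.TR.BrU [0,0,0,0,0,1]) r58 :=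
  .w [n0,n0,n0,n0,n0,n0,n0,n0,n0,n0,n0,n0,n1,m2] (e' := [n1,n0,n0,n0,n0,n0,n0,n0,n0,n0,n0,n0,m1,n2]) (by decide +kernel) (.t
  t52 ok52) (.t t53 ok53)

theorem cl41 : Clo K (Helper55.TR.GH 1 Helper55.TR.BrU [0,0,0,0,0,1]) r54 :=
  .w [n0,n0,n0,n0,n0,n0,n0,n0,n0,n0,n0,n0,m1,n2] (e' := [n1,n0,n0,n0,n0,n0,n0,n0,n0,n0,n0,n0,n1,m2]) (by decide +kernel) (.t
  t51 ok51) cl40

theorem cl42 : Clo K (Helper55.TR.GH 1 Helper55.TR.BrU [0,0,0,0,0,1]) r53 :=
  .i [n1,n0,n3,n3,m1,n0,n0,n0,n0,n0,n7] (e' := [n0,n0,m3,m3,n1,n0,n0,n0,n0,n0,m7]) (by decide +kernel)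
  (by decide +kernel) cl39 cl41

theorem cl43 : Clo K (Helper55.TR.GH 1 Helper55.TR.BrU [0,0,0,0,0,1]) l52 :=
  .i [n1,n0,n2,n2,m1,n0,n0,m1,n0,n0,n2] (e' := [n0,n0,m2,m2,n1,n0,n0,n1,n0,n0,m2]) (by decide +kernel)
  (by decide +kernel) (.t t46 ok46) cl42

theorem cl44 : Clo K (Helper55.TR.GH 1 Helper55.TR.BrU [0,0,0,0,0,1]) r63 :=
  .w [n0,n0,n0,n0,n0,n0,n0,n0,n0,n0,n0,n0,m1,n2] (e' := [n1,n0,n0,n0,n0,n0,n0,n0,n0,n0,n0,n0,n1,m2]) (by decide +kernel) (.t
  t56 ok56) (.t t57 ok57)

theorem cl45 : Clo K (Helper55.TR.GH 1 Helper55.TR.BrU [0,0,0,0,0,1]) r62 :=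
  .i [n0,n0,n2,n0,m1,n7] (e' := [n1,n0,m2,n0,n1,m7]) (by decide +kernel) (by decide +kernel) (.t t55 ok55)
  cl44

theorem cl46 : Clo K (Helper55.TR.GH 1 Helper55.TR.BrU [0,0,0,0,0,1]) l61 :=
  .i [n0,n0,m2,n0,n1,m7] (e' := [n1,n0,n2,n0,m1,n7]) (by decide +kernel) (by decide +kernel) (.t t54 ok54)
  cl45

theorem cl47 : Clo K (Helper55.TR.GH 1 Helper55.TR.BrU [0,0,0,0,0,1]) r68 :=
  .w [n0,n0,n0,n0,n0,n0,n0,n0,n0,n0,n0,n0,n1,m2] (e' := [n1,n0,n0,n0,n0,n0,n0,n0,n0,n0,n0,n0,m1,n2]) (by decide +kernel) (.t
  t60 ok60) (.t t61 ok61)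

theorem cl48 : Clo K (Helper55.TR.GH 1 Helper55.TR.BrU [0,0,0,0,0,1]) r67 :=
  .w [n0,n0,n0,n0,n0,n0,n0,n0,n0,n0,n0,n0,m1,n2] (e' := [n1,n0,n0,n0,n0,n0,n0,n0,n0,n0,n0,n0,n1,m2]) (by decide +kernel) (.t
  t59 ok59) cl47

theorem cl49 : Clo K (Helper55.TR.GH 1 Helper55.TR.BrU [0,0,0,0,0,1]) l66 :=
  .i [n1,n0,n2,n2,m1,n0,n0,n0,n0,n0,m7] (e' := [n0,n0,m2,m2,n1,n0,n0,n0,n0,n0,n7]) (by decide +kernel)
  (by decide +kernel) (.t t58 ok58) cl48

theorem cl50 : Clo K (Helper55.TR.GH 1 Helper55.TR.BrU [0,0,0,0,0,1]) r70 :=
  .w [n0,n0,n0,n0,n0,n0,n0,n0,n0,n0,n0,n0,m1,n2] (e' := [n1,n0,n0,n0,n0,n0,n0,n0,n0,n0,n0,n0,n1,m2]) (by decide +kernel) (.t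
  t63 ok63) (.t t64 ok64)

theorem cl51 : Clo K (Helper55.TR.GH 1 Helper55.TR.BrU [0,0,0,0,0,1]) r66 :=
  .w [n0,n0,n0,n0,n0,n0,n0,n0,n0,n0,n0,n0,n1,m2] (e' := [n1,n0,n0,n0,n0,n0,n0,n0,n0,n0,n0,n0,m1,n2]) (by decide +kernel) (.t
  t62 ok62) cl50

theorem cl52 : Clo K (Helper55.TR.GH 1 Helper55.TR.BrU [0,0,0,0,0,1]) l65 :=
  .i [n1,n0,m2,m2,n1,n0,n0,n0,n0,n0,n7] (e' := [n0,n0,n2,n2,m1,n0,n0,n0,n0,n0,m7]) (by decide +kernel)
  (by decide +kernel) cl49 cl51

theorem cl53 : Clo K (Helper55.TR.GH 1 Helper55.TR.BrU [0,0,0,0,0,1]) r72 :=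
  .w [n0,n0,n0,n0,n0,n0,n0,n0,n0,n0,n0,n0,m1,n2] (e' := [n1,n0,n0,n0,n0,n0,n0,n0,n0,n0,n0,n0,n1,m2]) (by decide +kernel) (.t
  t66 ok66) (.t t67 ok67)

theorem cl54 : Clo K (Helper55.TR.GH 1 Helper55.TR.BrU [0,0,0,0,0,1]) r65 :=
  .w [n0,n0,n0,n0,n0,n0,n0,n0,n0,n0,n0,n0,n1,m2] (e' := [n1,n0,n0,n0,n0,n0,n0,n0,n0,n0,n0,n0,m1,n2]) (by decide +kernel) (.t
  t65 ok65) cl53

theorem cl55 : Clo K (Helper55.TR.GH 1 Helper55.TR.BrU [0,0,0,0,0,1]) r61 :=
  .i [n0,n0,m2,n0,n1,m9] (e' := [n1,n0,n2,n0,m1,n9]) (by decide +kernel) (by decide +kernel) cl52 cl54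

theorem cl56 : Clo K (Helper55.TR.GH 1 Helper55.TR.BrU [0,0,0,0,0,1]) l60 :=
  .i [n1,n0,n2,n2,m1,n0,n0,n0,n0,n0,m5] (e' := [n0,n0,m2,m2,n1,n0,n0,n0,n0,n0,n5]) (by decide +kernel)
  (by decide +kernel) cl46 cl55

theorem cl57 : Clo K (Helper55.TR.GH 1 Helper55.TR.BrU [0,0,0,0,0,1]) r79 :=
  .w [n0,n0,n0,n0,n0,n0,n0,n0,n0,n0,n0,n0,m1,n2] (e' := [n1,n0,n0,n0,n0,n0,n0,n0,n0,n0,n0,n0,n1,m2]) (by decide +kernel) (.t
  t71 ok71) (.t t72 ok72)

theorem cl58 : Clo K (Helper55.TR.GH 1 Helper55.TR.BrU [0,0,0,0,0,1]) r78 :=
  .i [n0,n0,n2,n0,m1,n5] (e' := [n1,n0,m2,n0,n1,m5]) (by decide +kernel) (by decide +kernel) (.t t70 ok70)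
  cl57

theorem cl59 : Clo K (Helper55.TR.GH 1 Helper55.TR.BrU [0,0,0,0,0,1]) l77 :=
  .i [n0,n0,m2,n0,n1,m5] (e' := [n1,n0,n2,n0,m1,n5]) (by decide +kernel) (by decide +kernel) (.t t69 ok69)
  cl58

theorem cl60 : Clo K (Helper55.TR.GH 1 Helper55.TR.BrU [0,0,0,0,0,1]) r81 :=
  .w [n0,n0,n0,n0,n0,n0,n0,n0,n0,n0,n0,n0,n1,m2] (e' := [n1,n0,n0,n0,n0,n0,n0,n0,n0,n0,n0,n0,m1,n2]) (by decide +kernel) (.t
  t74 ok74) (.t t75 ok75)

theorem cl61 : Clo K (Helper55.TR.GH 1 Helper55.TR.BrU [0,0,0,0,0,1]) r77 :=
  .w [n0,n0,n0,n0,n0,n0,n0,n0,n0,n0,n0,n0,m1,n2] (e' := [n1,n0,n0,n0,n0,n0,n0,n0,n0,n0,n0,n0,n1,m2]) (by decide +kernel) (.t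
  t73 ok73) cl60

theorem cl62 : Clo K (Helper55.TR.GH 1 Helper55.TR.BrU [0,0,0,0,0,1]) l76 :=
  .i [n1,n0,n2,n2,m1,n0,n0,n0,n0,n0,m3] (e' := [n0,n0,m2,m2,n1,n0,n0,n0,n0,n0,n3]) (by decide +kernel)
  (by decide +kernel) cl59 cl61

theorem cl63 : Clo K (Helper55.TR.GH 1 Helper55.TR.BrU [0,0,0,0,0,1]) r83 :=
  .w [n0,n0,n0,n0,n0,n0,n0,n0,n0,n0,n0,n0,m1,n2] (e' := [n1,n0,n0,n0,n0,n0,n0,n0,n0,n0,n0,n0,n1,m2]) (by decide +kernel) (.t
  t77 ok77) (.t t78 ok78)

theorem cl64 : Clo K (Helper55.TR.GH 1 Helper55.TR.BrU [0,0,0,0,0,1]) r76 :=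
  .w [n0,n0,n0,n0,n0,n0,n0,n0,n0,n0,n0,n0,n1,m2] (e' := [n1,n0,n0,n0,n0,n0,n0,n0,n0,n0,n0,n0,m1,n2]) (by decide +kernel) (.t
  t76 ok76) cl63

theorem cl65 : Clo K (Helper55.TR.GH 1 Helper55.TR.BrU [0,0,0,0,0,1]) r75 :=
  .i [n1,n0,m2,m2,n1,n0,n0,n0,n0,n0,n3] (e' := [n0,n0,n2,n2,m1,n0,n0,n0,n0,n0,m3]) (by decide +kernel)
  (by decide +kernel) cl62 cl64

theorem cl66 : Clo K (Helper55.TR.GH 1 Helper55.TR.BrU [0,0,0,0,0,1]) l74 :=
  .i [n1,n0,m3,m3,n1,n0,n0,n0,n0,n0,m8] (e' := [n0,n0,n3,n3,m1,n0,n0,n0,n0,n0,n8]) (by decide +kernel)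
  (by decide +kernel) (.t t68 ok68) cl65

theorem cl67 : Clo K (Helper55.TR.GH 1 Helper55.TR.BrU [0,0,0,0,0,1]) r85 :=
  .w [n0,n0,n0,n0,n0,n0,n0,n0,n0,n0,n0,n0,m1,n2] (e' := [n1,n0,n0,n0,n0,n0,n0,n0,n0,n0,n0,n0,n1,m2]) (by decide +kernel) (.t
  t80 ok80) (.t t81 ok81)

theorem cl68 : Clo K (Helper55.TR.GH 1 Helper55.TR.BrU [0,0,0,0,0,1]) r74 :=
  .w [n0,n0,n0,n0,n0,n0,n0,n0,n0,n0,n0,n0,n1,m2] (e' := [n1,n0,n0,n0,n0,n0,n0,n0,n0,n0,n0,n0,m1,n2]) (by decide +kernel) (.t
  t79 ok79) cl67

theorem cl69 : Clo K (Helper55.TR.GH 1 Helper55.TR.BrU [0,0,0,0,0,1]) r60 :=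
  .i [n1,n0,n3,n3,m1,n0,n0,n0,n0,n0,n8] (e' := [n0,n0,m3,m3,n1,n0,n0,n0,n0,n0,m8]) (by decide +kernel)
  (by decide +kernel) cl66 cl68

theorem cl70 : Clo K (Helper55.TR.GH 1 Helper55.TR.BrU [0,0,0,0,0,1]) r52 :=
  .i [n1,n0,m2,m2,n1,n0,n0,n0,n0,n0,n5] (e' := [n0,n0,n2,n2,m1,n0,n0,n0,n0,n0,m5]) (by decide +kernel)
  (by decide +kernel) cl56 cl69

theorem cl71 : Clo K (Helper55.TR.GH 1 Helper55.TR.BrU [0,0,0,0,0,1]) r22 :=
  .i [n1,n0,m2,m2,n1,n0,n0,n1,n0,n0,m2] (e' := [n0,n0,n2,n2,m1,n0,n0,m1,n0,n0,n2]) (by decide +kernel)
  (by decide +kernel) cl43 cl70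

theorem cl72 : Clo K (Helper55.TR.GH 1 Helper55.TR.BrU [0,0,0,0,0,1]) r13 :=
  .i [n1,n0,n0,n0,n0,n0,n0,n0,n0,n1,m2] (e' := [n0,n0,n0,n0,n0,n0,n0,n0,n0,m1,n2]) (by decide +kernel)
  (by decide +kernel) cl36 cl71

theorem cl73 : Clo K (Helper55.TR.GH 1 Helper55.TR.BrU [0,0,0,0,0,1]) r12 :=
  .i [n1,n0,m2,m2,n1,n0,n0,n0,n0,n2,m1] (e' := [n0,n0,n2,n2,m1,n0,n0,n0,n0,m2,n1]) (by decide +kernel)
  (by decide +kernel) cl7 cl72

theorem cl74 : Clo K (Helper55.TR.GH 1 Helper55.TR.BrU [0,0,0,0,0,1]) l11 :=
  .i [n1,n0,m1,m1,n1,n0,n0,n2,n0,n2] (e' := [n0,n0,n1,n1,m1,n0,n0,m2,n0,m2]) (by decide +kernel)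
  (by decide +kernel) (.t t6 ok6) cl73

theorem cl75 : Clo K (Helper55.TR.GH 1 Helper55.TR.BrU [0,0,0,0,0,1]) r88 :=
  .w [n0,n0,n0,n0,n0,n0,n0,n0,n0,n0,n0,n0,n1,m2] (e' := [n1,n0,n0,n0,n0,n0,n0,n0,n0,n0,n0,n0,m1,n2]) (by decide +kernel) (.t
  t83 ok83) (.t t84 ok84)

theorem cl76 : Clo K (Helper55.TR.GH 1 Helper55.TR.BrU [0,0,0,0,0,1]) l87 :=
  .i [n1,n0,m1,m1,n0,n0,n0,m1,n0,m1,m2] (e' := [n0,n0,n1,n1,n0,n0,n0,n1,n0,n1,n2]) (by decide +kernel)
  (by decide +kernel) (.t t82 ok82) cl75

theorem cl77 : Clo K (Helper55.TR.GH 1 Helper55.TR.BrU [0,0,0,0,0,1]) r91 :=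
  .w [n0,n0,n0,n0,n0,n0,n0,n0,n0,n0,n0,n0,m1,n2] (e' := [n1,n0,n0,n0,n0,n0,n0,n0,n0,n0,n0,n0,n1,m2]) (by decide +kernel) (.t
  t87 ok87) (.t t88 ok88)

theorem cl78 : Clo K (Helper55.TR.GH 1 Helper55.TR.BrU [0,0,0,0,0,1]) r90 :=
  .w [n0,n0,n0,n0,n0,n0,n0,n0,n0,n0,n0,n0,n1,m2] (e' := [n1,n0,n0,n0,n0,n0,n0,n0,n0,n0,n0,n0,m1,n2]) (by decide +kernel) (.t
  t86 ok86) cl77

theorem cl79 : Clo K (Helper55.TR.GH 1 Helper55.TR.BrU [0,0,0,0,0,1]) r87 :=
  .i [n1,n0,m1,m1,n0,n0,n0,n0,n0,n0,m5] (e' := [n0,n0,n1,n1,n0,n0,n0,n0,n0,n0,n5]) (by decide +kernel)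
  (by decide +kernel) (.t t85 ok85) cl78

theorem cl80 : Clo K (Helper55.TR.GH 1 Helper55.TR.BrU [0,0,0,0,0,1]) r11 :=
  .i [n1,n0,n1,n1,n0,n0,n0,n1,n0,n1,n2] (e' := [n0,n0,m1,m1,n0,n0,n0,m1,n0,m1,m2]) (by decide +kernel)
  (by decide +kernel) cl76 cl79

theorem cl81 : Clo K (Helper55.TR.GH 1 Helper55.TR.BrU [0,0,0,0,0,1]) r10 :=
  .i [n1,n0,n1,n1,m1,n0,n0,m2,n0,m2] (e' := [n0,n0,m1,m1,n1,n0,n0,n2,n0,n2]) (by decide +kernel)
  (by decide +kernel) cl74 cl80

theorem cl82 : Clo K (Helper55.TR.GH 1 Helper55.TR.BrU [0,0,0,0,0,1]) l9 :=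
  .i [n1,n0,n1,n1,n0,n0,n0,n1,n0,n2,n1] (e' := [n0,n0,m1,m1,n0,n0,n0,m1,n0,m2,m1]) (by decide +kernel)
  (by decide +kernel) (.t t5 ok5) cl81

theorem cl83 : Clo K (Helper55.TR.GH 1 Helper55.TR.BrU [0,0,0,0,0,1]) l94 :=
  .w [n0,n0,n0,n0,n0,n0,n0,n0,n0,n0,n0,n0,n1,m2] (e' := [n1,n0,n0,n0,n0,n0,n0,n0,n0,n0,n0,n0,m1,n2]) (by decide +kernel) (.t
  t89 ok89) (.t t90 ok90)

theorem cl84 : Clo K (Helper55.TR.GH 1 Helper55.TR.BrU [0,0,0,0,0,1]) r100 :=
  .w [n0,n0,n0,n0,n0,n0,n0,n0,n0,n0,n0,n0,m1,n2] (e' := [n1,n0,n0,n0,n0,n0,n0,n0,n0,n0,n0,n0,n1,m2]) (by decide +kernel) (.t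
  t94 ok94) (.t t95 ok95)

theorem cl85 : Clo K (Helper55.TR.GH 1 Helper55.TR.BrU [0,0,0,0,0,1]) r99 :=
  .w [n0,n0,n0,n0,n0,n0,n0,n0,n0,n0,n0,n0,n1,m2] (e' := [n1,n0,n0,n0,n0,n0,n0,n0,n0,n0,n0,n0,m1,n2]) (by decide +kernel) (.t
  t93 ok93) cl84

theorem cl86 : Clo K (Helper55.TR.GH 1 Helper55.TR.BrU [0,0,0,0,0,1]) l98 :=
  .i [n0,n0,m2,n0,n1,m4,n0,n0,m1] (e' := [n1,n0,n2,n0,m1,n4,n0,n0,n1]) (by decide +kernel) (by decide +kernel)
  (.t t92 ok92) cl85

theorem cl87 : Clo K (Helper55.TR.GH 1 Helper55.TR.BrU [0,0,0,0,0,1]) r98 :=
  .w [n0,n0,n0,n0,n0,n0,n0,n0,n0,n0,n0,n0,n1,m2] (e' := [n1,n0,n0,n0,n0,n0,n0,n0,n0,n0,n0,n0,m1,n2]) (by decide +kernel) (.t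
  t96 ok96) (.t t97 ok97)

theorem cl88 : Clo K (Helper55.TR.GH 1 Helper55.TR.BrU [0,0,0,0,0,1]) l97 :=
  .i [n1,n0,n2,n2,m1,n0,n0,n0,n0,m1,m2] (e' := [n0,n0,m2,m2,n1,n0,n0,n0,n0,n1,n2]) (by decide +kernel)
  (by decide +kernel) cl86 cl87

theorem cl89 : Clo K (Helper55.TR.GH 1 Helper55.TR.BrU [0,0,0,0,0,1]) r107 :=
  .w [n0,n0,n0,n0,n0,n0,n0,n0,n0,n0,n0,n0,m1,n2] (e' := [n1,n0,n0,n0,n0,n0,n0,n0,n0,n0,n0,n0,n1,m2]) (by decide +kernel) (.t
  t101 ok101) (.t t102 ok102)

theorem cl90 : Clo K (Helper55.TR.GH 1 Helper55.TR.BrU [0,0,0,0,0,1]) r106 :=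
  .w [n0,n0,n0,n0,n0,n0,n0,n0,n0,n0,n0,n0,n1,m2] (e' := [n1,n0,n0,n0,n0,n0,n0,n0,n0,n0,n0,n0,m1,n2]) (by decide +kernel) (.t
  t100 ok100) cl89

theorem cl91 : Clo K (Helper55.TR.GH 1 Helper55.TR.BrU [0,0,0,0,0,1]) l105 :=
  .i [n1,n0,m1,m1,n0,n0,n0,m2,n0,m1,n1] (e' := [n0,n0,n1,n1,n0,n0,n0,n2,n0,n1,m1]) (by decide +kernel)
  (by decide +kernel) (.t t99 ok99) cl90

theorem cl92 : Clo K (Helper55.TR.GH 1 Helper55.TR.BrU [0,0,0,0,0,1]) r109 :=
  .w [n0,n0,n0,n0,n0,n0,n0,n0,n0,n0,n0,n0,m1,n2] (e' := [n1,n0,n0,n0,n0,n0,n0,n0,n0,n0,n0,n0,n1,m2]) (by decide +kernel) (.t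
  t104 ok104) (.t t105 ok105)

theorem cl93 : Clo K (Helper55.TR.GH 1 Helper55.TR.BrU [0,0,0,0,0,1]) r105 :=
  .w [n0,n0,n0,n0,n0,n0,n0,n0,n0,n0,n0,n0,n1,m2] (e' := [n1,n0,n0,n0,n0,n0,n0,n0,n0,n0,n0,n0,m1,n2]) (by decide +kernel) (.t
  t103 ok103) cl92

theorem cl94 : Clo K (Helper55.TR.GH 1 Helper55.TR.BrU [0,0,0,0,0,1]) r104 :=
  .i [n1,n0,n1,n1,n0,n0,n0,n2,n0,n1,m1] (e' := [n0,n0,m1,m1,n0,n0,n0,m2,n0,m1,n1]) (by decide +kernel)
  (by decide +kernel) cl91 cl93

theorem cl95 : Clo K (Helper55.TR.GH 1 Helper55.TR.BrU [0,0,0,0,0,1]) l103 :=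
  .i [n1,n0,n1,n1,m1,n0,n0,m2,n0,m2] (e' := [n0,n0,m1,m1,n1,n0,n0,n2,n0,n2]) (by decide +kernel)
  (by decide +kernel) (.t t98 ok98) cl94

theorem cl96 : Clo K (Helper55.TR.GH 1 Helper55.TR.BrU [0,0,0,0,0,1]) r113 :=
  .w [n0,n0,n0,n0,n0,n0,n0,n0,n0,n0,n0,n0,n1,m2] (e' := [n1,n0,n0,n0,n0,n0,n0,n0,n0,n0,n0,n0,m1,n2]) (by decide +kernel) (.t
  t108 ok108) (.t t109 ok109)

theorem cl97 : Clo K (Helper55.TR.GH 1 Helper55.TR.BrU [0,0,0,0,0,1]) r112 :=
  .w [n0,n0,n0,n0,n0,n0,n0,n0,n0,n0,n0,n0,m1,n2] (e' := [n1,n0,n0,n0,n0,n0,n0,n0,n0,n0,n0,n0,n1,m2]) (by decide +kernel) (.t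
  t107 ok107) cl96

theorem cl98 : Clo K (Helper55.TR.GH 1 Helper55.TR.BrU [0,0,0,0,0,1]) l111 :=
  .i [n1,n0,m1,m1,n0,n0,n0,m2,n0,n0,m2] (e' := [n0,n0,n1,n1,n0,n0,n0,n2,n0,n0,n2]) (by decide +kernel)
  (by decide +kernel) (.t t106 ok106) cl97

theorem cl99 : Clo K (Helper55.TR.GH 1 Helper55.TR.BrU [0,0,0,0,0,1]) r111 :=
  .w [n0,n0,n0,n0,n0,n0,n0,n0,n0,n0,n0,n0,n1,m2] (e' := [n1,n0,n0,n0,n0,n0,n0,n0,n0,n0,n0,n0,m1,n2]) (by decide +kernel) (.t
  t110 ok110) (.t t111 ok111)

theorem cl100 : Clo K (Helper55.TR.GH 1 Helper55.TR.BrU [0,0,0,0,0,1]) r103 :=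
  .i [n1,n0,n1,n1,n0,n0,n0,n2,n0,n0,n2] (e' := [n0,n0,m1,m1,n0,n0,n0,m2,n0,n0,m2]) (by decide +kernel)
  (by decide +kernel) cl98 cl99

theorem cl101 : Clo K (Helper55.TR.GH 1 Helper55.TR.BrU [0,0,0,0,0,1]) r97 :=
  .i [n1,n0,m1,m1,n1,n0,n0,n2,n0,n2] (e' := [n0,n0,n1,n1,m1,n0,n0,m2,n0,m2]) (by decide +kernel)
  (by decide +kernel) cl95 cl100

theorem cl102 : Clo K (Helper55.TR.GH 1 Helper55.TR.BrU [0,0,0,0,0,1]) r96 :=
  .i [n1,n0,m2,m2,n1,n0,n0,n0,n0,n1,n2] (e' := [n0,n0,n2,n2,m1,n0,n0,n0,n0,m1,m2]) (by decide +kernel)
  (by decide +kernel) cl88 cl101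

theorem cl103 : Clo K (Helper55.TR.GH 1 Helper55.TR.BrU [0,0,0,0,0,1]) r94 :=
  .i [n1,n0,n2,n2,m1,n0,n0,n0,n0,m1,m1] (e' := [n0,n0,m2,m2,n1,n0,n0,n0,n0,n1,n1]) (by decide +kernel)
  (by decide +kernel) (.t t91 ok91) cl102

theorem cl104 : Clo K (Helper55.TR.GH 1 Helper55.TR.BrU [0,0,0,0,0,1]) l93 :=
  .i [n0,n0,n2,n0,m1,n4,n0,n0,n1] (e' := [n1,n0,m2,n0,n1,m4,n0,n0,m1]) (by decide +kernel) (by decide +kernel)
  cl83 cl103

theorem cl105 : Clo K (Helper55.TR.GH 1 Helper55.TR.BrU [0,0,0,0,0,1]) r118 :=
  .w [n0,n0,n0,n0,n0,n0,n0,n0,n0,n0,n0,n0,m1,n2] (e' := [n1,n0,n0,n0,n0,n0,n0,n0,n0,n0,n0,n0,n1,m2]) (by decide +kernel) (.t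
  t113 ok113) (.t t114 ok114)

theorem cl106 : Clo K (Helper55.TR.GH 1 Helper55.TR.BrU [0,0,0,0,0,1]) l117 :=
  .i [n1,n0,m1,m1,n1,n0,n0,n2,n0,n2] (e' := [n0,n0,n1,n1,m1,n0,n0,m2,n0,m2]) (by decide +kernel)
  (by decide +kernel) (.t t112 ok112) cl105

theorem cl107 : Clo K (Helper55.TR.GH 1 Helper55.TR.BrU [0,0,0,0,0,1]) r117 :=
  .w [n0,n0,n0,n0,n0,n0,n0,n0,n0,n0,n0,n0,m1,n2] (e' := [n1,n0,n0,n0,n0,n0,n0,n0,n0,n0,n0,n0,n1,m2]) (by decide +kernel) (.t
  t115 ok115) (.t t116 ok116)

theorem cl108 : Clo K (Helper55.TR.GH 1 Helper55.TR.BrU [0,0,0,0,0,1]) l116 :=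
  .i [n1,n0,n1,n1,m1,n0,n0,m2,n0,m2] (e' := [n0,n0,m1,m1,n1,n0,n0,n2,n0,n2]) (by decide +kernel)
  (by decide +kernel) cl106 cl107

theorem cl109 : Clo K (Helper55.TR.GH 1 Helper55.TR.BrU [0,0,0,0,0,1]) r123 :=
  .w [n0,n0,n0,n0,n0,n0,n0,n0,n0,n0,n0,n0,m1,n2] (e' := [n1,n0,n0,n0,n0,n0,n0,n0,n0,n0,n0,n0,n1,m2]) (by decide +kernel) (.t
  t119 ok119) (.t t120 ok120)

theorem cl110 : Clo K (Helper55.TR.GH 1 Helper55.TR.BrU [0,0,0,0,0,1]) r122 :=
  .w [n0,n0,n0,n0,n0,n0,n0,n0,n0,n0,n0,n0,n1,m2] (e' := [n1,n0,n0,n0,n0,n0,n0,n0,n0,n0,n0,n0,m1,n2]) (by decide +kernel) (.t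
  t118 ok118) cl109

theorem cl111 : Clo K (Helper55.TR.GH 1 Helper55.TR.BrU [0,0,0,0,0,1]) l121 :=
  .i [n1,n0,n0,n0,n0,n0,n0,n0,n0,m1,n2] (e' := [n0,n0,n0,n0,n0,n0,n0,n0,n0,n1,m2]) (by decide +kernel)
  (by decide +kernel) (.t t117 ok117) cl110

theorem cl112 : Clo K (Helper55.TR.GH 1 Helper55.TR.BrU [0,0,0,0,0,1]) r121 :=
  .w [n0,n0,n0,n0,n0,n0,n0,n0,n0,n0,n0,n0,m1,n2] (e' := [n1,n0,n0,n0,n0,n0,n0,n0,n0,n0,n0,n0,n1,m2]) (by decide +kernel) (.t
  t121 ok121) (.t t122 ok122)

theorem cl113 : Clo K (Helper55.TR.GH 1 Helper55.TR.BrU [0,0,0,0,0,1]) r116 :=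
  .i [n1,n0,n0,n0,n0,n0,n0,n0,n0,n1,m2] (e' := [n0,n0,n0,n0,n0,n0,n0,n0,n0,m1,n2]) (by decide +kernel)
  (by decide +kernel) cl111 cl112

theorem cl114 : Clo K (Helper55.TR.GH 1 Helper55.TR.BrU [0,0,0,0,0,1]) r93 :=
  .i [n1,n0,m1,m1,n0,n0,n0,m2,n0,m1,m1] (e' := [n0,n0,n1,n1,n0,n0,n0,n2,n0,n1,n1]) (by decide +kernel)
  (by decide +kernel) cl108 cl113

theorem cl115 : Clo K (Helper55.TR.GH 1 Helper55.TR.BrU [0,0,0,0,0,1]) r9 :=
  .i [n1,n0,m2,m2,n1,n0,n0,n0,n0,n1,n1] (e' := [n0,n0,n2,n2,m1,n0,n0,n0,n0,m1,m1]) (by decide +kernel)
  (by decide +kernel) cl104 cl114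

theorem cl116 : Clo K (Helper55.TR.GH 1 Helper55.TR.BrU [0,0,0,0,0,1]) r8 :=
  .i [n1,n0,m1,m1,n0,n0,n0,m1,n0,m2,m1] (e' := [n0,n0,n1,n1,n0,n0,n0,n1,n0,n2,n1]) (by decide +kernel)
  (by decide +kernel) cl82 cl115

theorem cl117 : Clo K (Helper55.TR.GH 1 Helper55.TR.BrU [0,0,0,0,0,1]) r7 :=
  .i [n1,n0,n1,n1,m1,n0,n0,m2,n0,m1,m1] (e' := [n0,n0,m1,m1,n1,n0,n0,n2,n0,n1,n1]) (by decide +kernel)
  (by decide +kernel) (.t t4 ok4) cl116

theorem cl118 : Clo K (Helper55.TR.GH 1 Helper55.TR.BrU [0,0,0,0,0,1]) l6 :=
  .i [n0,n0,n0,n0,n0,n0,m1,n0,n2] (e' := [n1,n0,n0,n0,n0,n0,n1,n0,m2]) (by decide +kernel) (by decide +kernel) (.t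
  t3 ok3) cl117

theorem cl119 : Clo K (Helper55.TR.GH 1 Helper55.TR.BrU [0,0,0,0,0,1]) r133 :=
  .w [n0,n0,n0,n0,n0,n0,n0,n0,n0,n0,n0,n0,n1,m2] (e' := [n1,n0,n0,n0,n0,n0,n0,n0,n0,n0,n0,n0,m1,n2]) (by decide +kernel) (.t
  t128 ok128) (.t t129 ok129)

theorem cl120 : Clo K (Helper55.TR.GH 1 Helper55.TR.BrU [0,0,0,0,0,1]) l132 :=
  .i [n1,n0,n3,n3,m2,n0,n0,n0,n0,n0,m8] (e' := [n0,n0,m3,m3,n2,n0,n0,n0,n0,n0,n8]) (by decide +kernel)
  (by decide +kernel) (.t t127 ok127) cl119

theorem cl121 : Clo K (Helper55.TR.GH 1 Helper55.TR.BrU [0,0,0,0,0,1]) r135 :=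
  .w [n0,n0,n0,n0,n0,n0,n0,n0,n0,n0,n0,n0,m1,n2] (e' := [n1,n0,n0,n0,n0,n0,n0,n0,n0,n0,n0,n0,n1,m2]) (by decide +kernel) (.t
  t131 ok131) (.t t132 ok132)

theorem cl122 : Clo K (Helper55.TR.GH 1 Helper55.TR.BrU [0,0,0,0,0,1]) r132 :=
  .w [n0,n0,n0,n0,n0,n0,n0,n0,n0,n0,n0,n0,n1,m2] (e' := [n1,n0,n0,n0,n0,n0,n0,n0,n0,n0,n0,n0,m1,n2]) (by decide +kernel) (.t
  t130 ok130) cl121

theorem cl123 : Clo K (Helper55.TR.GH 1 Helper55.TR.BrU [0,0,0,0,0,1]) r131 :=
  .i [n1,n0,m3,m3,n2,n0,n0,n0,n0,n0,n8] (e' := [n0,n0,n3,n3,m2,n0,n0,n0,n0,n0,m8]) (by decide +kernel)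
  (by decide +kernel) cl120 cl122

theorem cl124 : Clo K (Helper55.TR.GH 1 Helper55.TR.BrU [0,0,0,0,0,1]) r130 :=
  .i [n1,n0,m1,m1,n0,n0,n0,n0,n0,n0,m5] (e' := [n0,n0,n1,n1,n0,n0,n0,n0,n0,n0,n5]) (by decide +kernel)
  (by decide +kernel) (.t t126 ok126) cl123

theorem cl125 : Clo K (Helper55.TR.GH 1 Helper55.TR.BrU [0,0,0,0,0,1]) r129 :=
  .i [n0,n0,n0,n0,n0,n0,m1,n0,n2] (e' := [n1,n0,n0,n0,n0,n0,n1,n0,m2]) (by decide +kernel) (by decide +kernel) (.t
  t125 ok125) cl124

theorem cl126 : Clo K (Helper55.TR.GH 1 Helper55.TR.BrU [0,0,0,0,0,1]) l128 :=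
  .i [n1,n0,n1,n1,n0,n0,n0,n2,n0,n1,m1] (e' := [n0,n0,m1,m1,n0,n0,n0,m2,n0,m1,n1]) (by decide +kernel)
  (by decide +kernel) (.t t124 ok124) cl125

theorem cl127 : Clo K (Helper55.TR.GH 1 Helper55.TR.BrU [0,0,0,0,0,1]) r128 :=
  .w [n0,n0,n0,n0,n0,n0,n0,n0,n0,n0,n0,n0,m1,n2] (e' := [n1,n0,n0,n0,n0,n0,n0,n0,n0,n0,n0,n0,n1,m2]) (by decide +kernel) (.t
  t133 ok133) (.t t134 ok134)

theorem cl128 : Clo K (Helper55.TR.GH 1 Helper55.TR.BrU [0,0,0,0,0,1]) r127 :=
  .i [n1,n0,m1,m1,n0,n0,n0,m2,n0,m1,n1] (e' := [n0,n0,n1,n1,n0,n0,n0,n2,n0,n1,m1]) (by decide +kernel)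
  (by decide +kernel) cl126 cl127

theorem cl129 : Clo K (Helper55.TR.GH 1 Helper55.TR.BrU [0,0,0,0,0,1]) l126 :=
  .i [n1,n0,n3,n3,m1,n0,n0,n0,n0,n0,n4] (e' := [n0,n0,m3,m3,n1,n0,n0,n0,n0,n0,m4]) (by decide +kernel)
  (by decide +kernel) (.t t123 ok123) cl128

theorem cl130 : Clo K (Helper55.TR.GH 1 Helper55.TR.BrU [0,0,0,0,0,1]) r143 :=
  .w [n0,n0,n0,n0,n0,n0,n0,n0,n0,n0,n0,n0,n1,m2] (e' := [n1,n0,n0,n0,n0,n0,n0,n0,n0,n0,n0,n0,m1,n2]) (by decide +kernel) (.t
  t139 ok139) (.t t140 ok140)

theorem cl131 : Clo K (Helper55.TR.GH 1 Helper55.TR.BrU [0,0,0,0,0,1]) r142 :=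
  .w [n0,n0,n0,n0,n0,n0,n0,n0,n0,n0,n0,n0,m1,n2] (e' := [n1,n0,n0,n0,n0,n0,n0,n0,n0,n0,n0,n0,n1,m2]) (by decide +kernel) (.t
  t138 ok138) cl130

theorem cl132 : Clo K (Helper55.TR.GH 1 Helper55.TR.BrU [0,0,0,0,0,1]) l141 :=
  .i [n1,n0,m1,m1,n1,n0,n0,n2,n0,n0,n2] (e' := [n0,n0,n1,n1,m1,n0,n0,m2,n0,n0,m2]) (by decide +kernel)
  (by decide +kernel) (.t t137 ok137) cl131

theorem cl133 : Clo K (Helper55.TR.GH 1 Helper55.TR.BrU [0,0,0,0,0,1]) r147 :=
  .w [n0,n0,n0,n0,n0,n0,n0,n0,n0,n0,n0,n0,n1,m2] (e' := [n1,n0,n0,n0,n0,n0,n0,n0,n0,n0,n0,n0,m1,n2]) (by decide +kernel) (.t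
  t143 ok143) (.t t144 ok144)

theorem cl134 : Clo K (Helper55.TR.GH 1 Helper55.TR.BrU [0,0,0,0,0,1]) r146 :=
  .w [n0,n0,n0,n0,n0,n0,n0,n0,n0,n0,n0,n0,m1,n2] (e' := [n1,n0,n0,n0,n0,n0,n0,n0,n0,n0,n0,n0,n1,m2]) (by decide +kernel) (.t
  t142 ok142) cl133

theorem cl135 : Clo K (Helper55.TR.GH 1 Helper55.TR.BrU [0,0,0,0,0,1]) l145 :=
  .i [n1,n0,n2,n2,m1,n0,n0,n0,n0,m2,n1] (e' := [n0,n0,m2,m2,n1,n0,n0,n0,n0,n2,m1]) (by decide +kernel)
  (by decide +kernel) (.t t141 ok141) cl134

theorem cl136 : Clo K (Helper55.TR.GH 1 Helper55.TR.BrU [0,0,0,0,0,1]) r150 :=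
  .w [n0,n0,n0,n0,n0,n0,n0,n0,n0,n0,n0,n0,m1,n2] (e' := [n1,n0,n0,n0,n0,n0,n0,n0,n0,n0,n0,n0,n1,m2]) (by decide +kernel) (.t
  t146 ok146) (.t t147 ok147)

theorem cl137 : Clo K (Helper55.TR.GH 1 Helper55.TR.BrU [0,0,0,0,0,1]) l149 :=
  .i [n1,n0,m1,m1,n0,n0,n0,m1,n0,m1,m2] (e' := [n0,n0,n1,n1,n0,n0,n0,n1,n0,n1,n2]) (by decide +kernel)
  (by decide +kernel) (.t t145 ok145) cl136

theorem cl138 : Clo K (Helper55.TR.GH 1 Helper55.TR.BrU [0,0,0,0,0,1]) r152 :=
  .w [n0,n0,n0,n0,n0,n0,n0,n0,n0,n0,n0,n0,m1,n2] (e' := [n1,n0,n0,n0,n0,n0,n0,n0,n0,n0,n0,n0,n1,m2]) (by decide +kernel) (.t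
  t149 ok149) (.t t150 ok150)

theorem cl139 : Clo K (Helper55.TR.GH 1 Helper55.TR.BrU [0,0,0,0,0,1]) r149 :=
  .w [n0,n0,n0,n0,n0,n0,n0,n0,n0,n0,n0,n0,n1,m2] (e' := [n1,n0,n0,n0,n0,n0,n0,n0,n0,n0,n0,n0,m1,n2]) (by decide +kernel) (.t
  t148 ok148) cl138

theorem cl140 : Clo K (Helper55.TR.GH 1 Helper55.TR.BrU [0,0,0,0,0,1]) r145 :=
  .i [n1,n0,n1,n1,n0,n0,n0,n1,n0,n1,n2] (e' := [n0,n0,m1,m1,n0,n0,n0,m1,n0,m1,m2]) (by decide +kernel)
  (by decide +kernel) cl137 cl139

theorem cl141 : Clo K (Helper55.TR.GH 1 Helper55.TR.BrU [0,0,0,0,0,1]) r141 :=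
  .i [n1,n0,m2,m2,n1,n0,n0,n0,n0,n2,m1] (e' := [n0,n0,n2,n2,m1,n0,n0,n0,n0,m2,n1]) (by decide +kernel)
  (by decide +kernel) cl135 cl140

theorem cl142 : Clo K (Helper55.TR.GH 1 Helper55.TR.BrU [0,0,0,0,0,1]) r140 :=
  .i [n1,n0,n1,n1,m1,n0,n0,m2,n0,n0,m2] (e' := [n0,n0,m1,m1,n1,n0,n0,n2,n0,n0,n2]) (by decide +kernel)
  (by decide +kernel) cl132 cl141

theorem cl143 : Clo K (Helper55.TR.GH 1 Helper55.TR.BrU [0,0,0,0,0,1]) r139 :=
  .i [n0,n0,n0,n0,n0,n0,m1,n0,n2] (e' := [n1,n0,n0,n0,n0,n0,n1,n0,m2]) (by decide +kernel) (by decide +kernel) (.t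
  t136 ok136) cl142

theorem cl144 : Clo K (Helper55.TR.GH 1 Helper55.TR.BrU [0,0,0,0,0,1]) l138 :=
  .i [n1,n0,m1,m1,n1,n0,n0,n0,n0,n0,n7] (e' := [n0,n0,n1,n1,m1,n0,n0,n0,n0,n0,m7]) (by decide +kernel)
  (by decide +kernel) (.t t135 ok135) cl143

theorem cl145 : Clo K (Helper55.TR.GH 1 Helper55.TR.BrU [0,0,0,0,0,1]) r159 :=
  .w [n0,n0,n0,n0,n0,n0,n0,n0,n0,n0,n0,n0,n1,m2] (e' := [n1,n0,n0,n0,n0,n0,n0,n0,n0,n0,n0,n0,m1,n2]) (by decide +kernel) (.t
  t154 ok154) (.t t155 ok155)

theorem cl146 : Clo K (Helper55.TR.GH 1 Helper55.TR.BrU [0,0,0,0,0,1]) l158 :=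
  .i [n1,n0,n0,n0,n0,n0,n0,n0,n0,m1,n2] (e' := [n0,n0,n0,n0,n0,n0,n0,n0,n0,n1,m2]) (by decide +kernel)
  (by decide +kernel) (.t t153 ok153) cl145

theorem cl147 : Clo K (Helper55.TR.GH 1 Helper55.TR.BrU [0,0,0,0,0,1]) r158 :=
  .w [n0,n0,n0,n0,n0,n0,n0,n0,n0,n0,n0,n0,m1,n2] (e' := [n1,n0,n0,n0,n0,n0,n0,n0,n0,n0,n0,n0,n1,m2]) (by decide +kernel) (.t
  t156 ok156) (.t t157 ok157)

theorem cl148 : Clo K (Helper55.TR.GH 1 Helper55.TR.BrU [0,0,0,0,0,1]) r157 :=
  .i [n1,n0,n0,n0,n0,n0,n0,n0,n0,n1,m2] (e' := [n0,n0,n0,n0,n0,n0,n0,n0,n0,m1,n2]) (by decide +kernel)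
  (by decide +kernel) cl146 cl147

theorem cl149 : Clo K (Helper55.TR.GH 1 Helper55.TR.BrU [0,0,0,0,0,1]) l156 :=
  .i [n1,n0,n1,n1,n0,n0,n0,n2,n0,n1,m1] (e' := [n0,n0,m1,m1,n0,n0,n0,m2,n0,m1,n1]) (by decide +kernel)
  (by decide +kernel) (.t t152 ok152) cl148

theorem cl150 : Clo K (Helper55.TR.GH 1 Helper55.TR.BrU [0,0,0,0,0,1]) r167 :=
  .w [n0,n0,n0,n0,n0,n0,n0,n0,n0,n0,n0,n0,n1,m2] (e' := [n1,n0,n0,n0,n0,n0,n0,n0,n0,n0,n0,n0,m1,n2]) (by decide +kernel) (.t
  t162 ok162) (.t t163 ok163)

theorem cl151 : Clo K (Helper55.TR.GH 1 Helper55.TR.BrU [0,0,0,0,0,1]) r166 :=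
  .w [n0,n0,n0,n0,n0,n0,n0,n0,n0,n0,n0,n0,m1,n2] (e' := [n1,n0,n0,n0,n0,n0,n0,n0,n0,n0,n0,n0,n1,m2]) (by decide +kernel) (.t
  t161 ok161) cl150

theorem cl152 : Clo K (Helper55.TR.GH 1 Helper55.TR.BrU [0,0,0,0,0,1]) l165 :=
  .i [n1,n0,m1,m1,n0,n0,n0,n0,n0,n0,m8] (e' := [n0,n0,n1,n1,n0,n0,n0,n0,n0,n0,n8]) (by decide +kernel)
  (by decide +kernel) (.t t160 ok160) cl151

theorem cl153 : Clo K (Helper55.TR.GH 1 Helper55.TR.BrU [0,0,0,0,0,1]) r171 :=
  .w [n0,n0,n0,n0,n0,n0,n0,n0,n0,n0,n0,n0,m1,n2] (e' := [n1,n0,n0,n0,n0,n0,n0,n0,n0,n0,n0,n0,n1,m2]) (by decide +kernel) (.t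
  t166 ok166) (.t t167 ok167)

theorem cl154 : Clo K (Helper55.TR.GH 1 Helper55.TR.BrU [0,0,0,0,0,1]) r170 :=
  .w [n0,n0,n0,n0,n0,n0,n0,n0,n0,n0,n0,n0,n1,m2] (e' := [n1,n0,n0,n0,n0,n0,n0,n0,n0,n0,n0,n0,m1,n2]) (by decide +kernel) (.t
  t165 ok165) cl153

theorem cl155 : Clo K (Helper55.TR.GH 1 Helper55.TR.BrU [0,0,0,0,0,1]) l169 :=
  .i [n1,n0,m1,m1,n0,n0,n0,n0,n0,n0,m7] (e' := [n0,n0,n1,n1,n0,n0,n0,n0,n0,n0,n7]) (by decide +kernel)
  (by decide +kernel) (.t t164 ok164) cl154

theorem cl156 : Clo K (Helper55.TR.GH 1 Helper55.TR.BrU [0,0,0,0,0,1]) r175 :=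
  .w [n0,n0,n0,n0,n0,n0,n0,n0,n0,n0,n0,n0,n1,m2] (e' := [n1,n0,n0,n0,n0,n0,n0,n0,n0,n0,n0,n0,m1,n2]) (by decide +kernel) (.t
  t170 ok170) (.t t171 ok171)

theorem cl157 : Clo K (Helper55.TR.GH 1 Helper55.TR.BrU [0,0,0,0,0,1]) r174 :=
  .w [n0,n0,n0,n0,n0,n0,n0,n0,n0,n0,n0,n0,m1,n2] (e' := [n1,n0,n0,n0,n0,n0,n0,n0,n0,n0,n0,n0,n1,m2]) (by decide +kernel) (.t
  t169 ok169) cl156

theorem cl158 : Clo K (Helper55.TR.GH 1 Helper55.TR.BrU [0,0,0,0,0,1]) l173 :=
  .i [n1,n0,n4,n4,m2,n0,n0,n0,n0,n0,m3] (e' := [n0,n0,m4,m4,n2,n0,n0,n0,n0,n0,n3]) (by decide +kernel)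
  (by decide +kernel) (.t t168 ok168) cl157

theorem cl159 : Clo K (Helper55.TR.GH 1 Helper55.TR.BrU [0,0,0,0,0,1]) r179 :=
  .w [n0,n0,n0,n0,n0,n0,n0,n0,n0,n0,n0,n0,m1,n2] (e' := [n1,n0,n0,n0,n0,n0,n0,n0,n0,n0,n0,n0,n1,m2]) (by decide +kernel) (.t
  t174 ok174) (.t t175 ok175)

theorem cl160 : Clo K (Helper55.TR.GH 1 Helper55.TR.BrU [0,0,0,0,0,1]) r178 :=
  .w [n0,n0,n0,n0,n0,n0,n0,n0,n0,n0,n0,n0,n1,m2] (e' := [n1,n0,n0,n0,n0,n0,n0,n0,n0,n0,n0,n0,m1,n2]) (by decide +kernel) (.t
  t173 ok173) cl159

theorem cl161 : Clo K (Helper55.TR.GH 1 Helper55.TR.BrU [0,0,0,0,0,1]) l177 :=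
  .i [n1,n0,n1,n1,m1,n0,n0,n0,n0,n0,m8] (e' := [n0,n0,m1,m1,n1,n0,n0,n0,n0,n0,n8]) (by decide +kernel)
  (by decide +kernel) (.t t172 ok172) cl160

theorem cl162 : Clo K (Helper55.TR.GH 1 Helper55.TR.BrU [0,0,0,0,0,1]) r181 :=
  .w [n0,n0,n0,n0,n0,n0,n0,n0,n0,n0,n0,n0,n1,m2] (e' := [n1,n0,n0,n0,n0,n0,n0,n0,n0,n0,n0,n0,m1,n2]) (by decide +kernel) (.t
  t177 ok177) (.t t178 ok178)

theorem cl163 : Clo K (Helper55.TR.GH 1 Helper55.TR.BrU [0,0,0,0,0,1]) r177 :=
  .w [n0,n0,n0,n0,n0,n0,n0,n0,n0,n0,n0,n0,m1,n2] (e' := [n1,n0,n0,n0,n0,n0,n0,n0,n0,n0,n0,n0,n1,m2]) (by decide +kernel) (.t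
  t176 ok176) cl162

theorem cl164 : Clo K (Helper55.TR.GH 1 Helper55.TR.BrU [0,0,0,0,0,1]) r173 :=
  .i [n1,n0,m1,m1,n1,n0,n0,n0,n0,n0,n8] (e' := [n0,n0,n1,n1,m1,n0,n0,n0,n0,n0,m8]) (by decide +kernel)
  (by decide +kernel) cl161 cl163

theorem cl165 : Clo K (Helper55.TR.GH 1 Helper55.TR.BrU [0,0,0,0,0,1]) r169 :=
  .i [n1,n0,m4,m4,n2,n0,n0,n0,n0,n0,n3] (e' := [n0,n0,n4,n4,m2,n0,n0,n0,n0,n0,m3]) (by decide +kernel)
  (by decide +kernel) cl158 cl164

theorem cl166 : Clo K (Helper55.TR.GH 1 Helper55.TR.BrU [0,0,0,0,0,1]) r165 :=
  .i [n1,n0,n1,n1,n0,n0,n0,n0,n0,n0,n7] (e' := [n0,n0,m1,m1,n0,n0,n0,n0,n0,n0,m7]) (by decide +kernel)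
  (by decide +kernel) cl155 cl165

theorem cl167 : Clo K (Helper55.TR.GH 1 Helper55.TR.BrU [0,0,0,0,0,1]) r164 :=
  .i [n1,n0,n1,n1,n0,n0,n0,n0,n0,n0,n8] (e' := [n0,n0,m1,m1,n0,n0,n0,n0,n0,n0,m8]) (by decide +kernel)
  (by decide +kernel) cl152 cl166

theorem cl168 : Clo K (Helper55.TR.GH 1 Helper55.TR.BrU [0,0,0,0,0,1]) r163 :=
  .i [n0,n0,n0,n0,n0,n0,m1,n0,n2] (e' := [n1,n0,n0,n0,n0,n0,n1,n0,m2]) (by decide +kernel) (by decide +kernel) (.t
  t159 ok159) cl167

theorem cl169 : Clo K (Helper55.TR.GH 1 Helper55.TR.BrU [0,0,0,0,0,1]) l162 :=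
  .i [n1,n0,m3,m3,n1,n0,n0,n0,n0,n0,m5] (e' := [n0,n0,n3,n3,m1,n0,n0,n0,n0,n0,n5]) (by decide +kernel)
  (by decide +kernel) (.t t158 ok158) cl168

theorem cl170 : Clo K (Helper55.TR.GH 1 Helper55.TR.BrU [0,0,0,0,0,1]) r186 :=
  .w [n0,n0,n0,n0,n0,n0,n0,n0,n0,n0,n0,n0,n1,m2] (e' := [n1,n0,n0,n0,n0,n0,n0,n0,n0,n0,n0,n0,m1,n2]) (by decide +kernel) (.t
  t182 ok182) (.t t183 ok183)

theorem cl171 : Clo K (Helper55.TR.GH 1 Helper55.TR.BrU [0,0,0,0,0,1]) r185 :=
  .w [n0,n0,n0,n0,n0,n0,n0,n0,n0,n0,n0,n0,m1,n2] (e' := [n1,n0,n0,n0,n0,n0,n0,n0,n0,n0,n0,n0,n1,m2]) (by decide +kernel) (.t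
  t181 ok181) cl170

theorem cl172 : Clo K (Helper55.TR.GH 1 Helper55.TR.BrU [0,0,0,0,0,1]) l184 :=
  .i [n1,n0,m4,m4,n2,n0,n0,n0,n0,n0,n3] (e' := [n0,n0,n4,n4,m2,n0,n0,n0,n0,n0,m3]) (by decide +kernel)
  (by decide +kernel) (.t t180 ok180) cl171

theorem cl173 : Clo K (Helper55.TR.GH 1 Helper55.TR.BrU [0,0,0,0,0,1]) r184 :=
  .w [n0,n0,n0,n0,n0,n0,n0,n0,n0,n0,n0,n0,m1,n2] (e' := [n1,n0,n0,n0,n0,n0,n0,n0,n0,n0,n0,n0,n1,m2]) (by decide +kernel) (.t
  t184 ok184) (.t t185 ok185)

theorem cl174 : Clo K (Helper55.TR.GH 1 Helper55.TR.BrU [0,0,0,0,0,1]) r183 :=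
  .i [n1,n0,n4,n4,m2,n0,n0,n0,n0,n0,m3] (e' := [n0,n0,m4,m4,n2,n0,n0,n0,n0,n0,n3]) (by decide +kernel)
  (by decide +kernel) cl172 cl173

theorem cl175 : Clo K (Helper55.TR.GH 1 Helper55.TR.BrU [0,0,0,0,0,1]) r162 :=
  .i [n0,n0,n0,n0,n0,n0,m1,n0,n2] (e' := [n1,n0,n0,n0,n0,n0,n1,n0,m2]) (by decide +kernel) (by decide +kernel) (.t
  t179 ok179) cl174

theorem cl176 : Clo K (Helper55.TR.GH 1 Helper55.TR.BrU [0,0,0,0,0,1]) r156 :=
  .i [n1,n0,n3,n3,m1,n0,n0,n0,n0,n0,n5] (e' := [n0,n0,m3,m3,n1,n0,n0,n0,n0,n0,m5]) (by decide +kernel)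
  (by decide +kernel) cl169 cl175

theorem cl177 : Clo K (Helper55.TR.GH 1 Helper55.TR.BrU [0,0,0,0,0,1]) r155 :=
  .i [n1,n0,m1,m1,n0,n0,n0,m2,n0,m1,n1] (e' := [n0,n0,n1,n1,n0,n0,n0,n2,n0,n1,m1]) (by decide +kernel)
  (by decide +kernel) cl149 cl176

theorem cl178 : Clo K (Helper55.TR.GH 1 Helper55.TR.BrU [0,0,0,0,0,1]) l154 :=
  .i [n1,n0,m1,m1,n0,n0,n0,m1,n0,m1,m2] (e' := [n0,n0,n1,n1,n0,n0,n0,n1,n0,n1,n2]) (by decide +kernel)
  (by decide +kernel) (.t t151 ok151) cl177

theorem cl179 : Clo K (Helper55.TR.GH 1 Helper55.TR.BrU [0,0,0,0,0,1]) r196 :=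
  .w [n0,n0,n0,n0,n0,n0,n0,n0,n0,n0,n0,n0,n1,m2] (e' := [n1,n0,n0,n0,n0,n0,n0,n0,n0,n0,n0,n0,m1,n2]) (by decide +kernel) (.t
  t191 ok191) (.t t192 ok192)

theorem cl180 : Clo K (Helper55.TR.GH 1 Helper55.TR.BrU [0,0,0,0,0,1]) r195 :=
  .w [n0,n0,n0,n0,n0,n0,n0,n0,n0,n0,n0,n0,m1,n2] (e' := [n1,n0,n0,n0,n0,n0,n0,n0,n0,n0,n0,n0,n1,m2]) (by decide +kernel) (.t
  t190 ok190) cl179

theorem cl181 : Clo K (Helper55.TR.GH 1 Helper55.TR.BrU [0,0,0,0,0,1]) r194 :=
  .i [n1,n0,m1,m1,n0,n0,n0,n0,n0,n0,m6] (e' := [n0,n0,n1,n1,n0,n0,n0,n0,n0,n0,n6]) (by decide +kernel)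
  (by decide +kernel) (.t t189 ok189) cl180

theorem cl182 : Clo K (Helper55.TR.GH 1 Helper55.TR.BrU [0,0,0,0,0,1]) l193 :=
  .i [n1,n0,m4,m4,n2,n0,n0,n0,n0,n0,n3] (e' := [n0,n0,n4,n4,m2,n0,n0,n0,n0,n0,m3]) (by decide +kernel)
  (by decide +kernel) (.t t188 ok188) cl181

theorem cl183 : Clo K (Helper55.TR.GH 1 Helper55.TR.BrU [0,0,0,0,0,1]) r201 :=
  .w [n0,n0,n0,n0,n0,n0,n0,n0,n0,n0,n0,n0,m1,n2] (e' := [n1,n0,n0,n0,n0,n0,n0,n0,n0,n0,n0,n0,n1,m2]) (by decide +kernel) (.t
  t196 ok196) (.t t197 ok197)

theorem cl184 : Clo K (Helper55.TR.GH 1 Helper55.TR.BrU [0,0,0,0,0,1]) r200 :=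
  .w [n0,n0,n0,n0,n0,n0,n0,n0,n0,n0,n0,n0,n1,m2] (e' := [n1,n0,n0,n0,n0,n0,n0,n0,n0,n0,n0,n0,m1,n2]) (by decide +kernel) (.t
  t195 ok195) cl183

theorem cl185 : Clo K (Helper55.TR.GH 1 Helper55.TR.BrU [0,0,0,0,0,1]) r199 :=
  .i [n1,n0,m1,m1,n0,n0,n0,n0,n0,n0,m6] (e' := [n0,n0,n1,n1,n0,n0,n0,n0,n0,n0,n6]) (by decide +kernel)
  (by decide +kernel) (.t t194 ok194) cl184

theorem cl186 : Clo K (Helper55.TR.GH 1 Helper55.TR.BrU [0,0,0,0,0,1]) l198 :=
  .i [n1,n0,m1,m1,n0,n0,n0,m2,n0,m1,n1] (e' := [n0,n0,n1,n1,n0,n0,n0,n2,n0,n1,m1]) (by decide +kernel)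
  (by decide +kernel) (.t t193 ok193) cl185

theorem cl187 : Clo K (Helper55.TR.GH 1 Helper55.TR.BrU [0,0,0,0,0,1]) r205 :=
  .w [n0,n0,n0,n0,n0,n0,n0,n0,n0,n0,n0,n0,n1,m2] (e' := [n1,n0,n0,n0,n0,n0,n0,n0,n0,n0,n0,n0,m1,n2]) (by decide +kernel) (.t
  t200 ok200) (.t t201 ok201)

theorem cl188 : Clo K (Helper55.TR.GH 1 Helper55.TR.BrU [0,0,0,0,0,1]) r204 :=
  .w [n0,n0,n0,n0,n0,n0,n0,n0,n0,n0,n0,n0,m1,n2] (e' := [n1,n0,n0,n0,n0,n0,n0,n0,n0,n0,n0,n0,n1,m2]) (by decide +kernel) (.t
  t199 ok199) cl187

theorem cl189 : Clo K (Helper55.TR.GH 1 Helper55.TR.BrU [0,0,0,0,0,1]) l203 :=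
  .i [n1,n0,m1,m1,n0,n0,n0,n0,n0,n0,m7] (e' := [n0,n0,n1,n1,n0,n0,n0,n0,n0,n0,n7]) (by decide +kernel)
  (by decide +kernel) (.t t198 ok198) cl188

theorem cl190 : Clo K (Helper55.TR.GH 1 Helper55.TR.BrU [0,0,0,0,0,1]) r209 :=
  .w [n0,n0,n0,n0,n0,n0,n0,n0,n0,n0,n0,n0,m1,n2] (e' := [n1,n0,n0,n0,n0,n0,n0,n0,n0,n0,n0,n0,n1,m2]) (by decide +kernel) (.t
  t204 ok204) (.t t205 ok205)

theorem cl191 : Clo K (Helper55.TR.GH 1 Helper55.TR.BrU [0,0,0,0,0,1]) r208 :=
  .w [n0,n0,n0,n0,n0,n0,n0,n0,n0,n0,n0,n0,n1,m2] (e' := [n1,n0,n0,n0,n0,n0,n0,n0,n0,n0,n0,n0,m1,n2]) (by decide +kernel) (.t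
  t203 ok203) cl190

theorem cl192 : Clo K (Helper55.TR.GH 1 Helper55.TR.BrU [0,0,0,0,0,1]) l207 :=
  .i [n1,n0,m3,m3,n1,n0,n0,n0,n0,n0,m5] (e' := [n0,n0,n3,n3,m1,n0,n0,n0,n0,n0,n5]) (by decide +kernel)
  (by decide +kernel) (.t t202 ok202) cl191

theorem cl193 : Clo K (Helper55.TR.GH 1 Helper55.TR.BrU [0,0,0,0,0,1]) r211 :=
  .w [n0,n0,n0,n0,n0,n0,n0,n0,n0,n0,n0,n0,m1,n2] (e' := [n1,n0,n0,n0,n0,n0,n0,n0,n0,n0,n0,n0,n1,m2]) (by decide +kernel) (.t
  t207 ok207) (.t t208 ok208)

theorem cl194 : Clo K (Helper55.TR.GH 1 Helper55.TR.BrU [0,0,0,0,0,1]) r207 :=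
  .w [n0,n0,n0,n0,n0,n0,n0,n0,n0,n0,n0,n0,n1,m2] (e' := [n1,n0,n0,n0,n0,n0,n0,n0,n0,n0,n0,n0,m1,n2]) (by decide +kernel) (.t
  t206 ok206) cl193

theorem cl195 : Clo K (Helper55.TR.GH 1 Helper55.TR.BrU [0,0,0,0,0,1]) r203 :=
  .i [n1,n0,n3,n3,m1,n0,n0,n0,n0,n0,n5] (e' := [n0,n0,m3,m3,n1,n0,n0,n0,n0,n0,m5]) (by decide +kernel)
  (by decide +kernel) cl192 cl194

theorem cl196 : Clo K (Helper55.TR.GH 1 Helper55.TR.BrU [0,0,0,0,0,1]) r198 :=
  .i [n1,n0,n1,n1,n0,n0,n0,n0,n0,n0,n7] (e' := [n0,n0,m1,m1,n0,n0,n0,n0,n0,n0,m7]) (by decide +kernel)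
  (by decide +kernel) cl189 cl195

theorem cl197 : Clo K (Helper55.TR.GH 1 Helper55.TR.BrU [0,0,0,0,0,1]) r193 :=
  .i [n1,n0,n1,n1,n0,n0,n0,n2,n0,n1,m1] (e' := [n0,n0,m1,m1,n0,n0,n0,m2,n0,m1,n1]) (by decide +kernel)
  (by decide +kernel) cl186 cl196

theorem cl198 : Clo K (Helper55.TR.GH 1 Helper55.TR.BrU [0,0,0,0,0,1]) l192 :=
  .i [n1,n0,n4,n4,m2,n0,n0,n0,n0,n0,m3] (e' := [n0,n0,m4,m4,n2,n0,n0,n0,n0,n0,n3]) (by decide +kernel)
  (by decide +kernel) cl182 cl197

theorem cl199 : Clo K (Helper55.TR.GH 1 Helper55.TR.BrU [0,0,0,0,0,1]) r213 :=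
  .w [n0,n0,n0,n0,n0,n0,n0,n0,n0,n0,n0,n0,m1,n2] (e' := [n1,n0,n0,n0,n0,n0,n0,n0,n0,n0,n0,n0,n1,m2]) (by decide +kernel) (.t
  t210 ok210) (.t t211 ok211)

theorem cl200 : Clo K (Helper55.TR.GH 1 Helper55.TR.BrU [0,0,0,0,0,1]) r192 :=
  .w [n0,n0,n0,n0,n0,n0,n0,n0,n0,n0,n0,n0,n1,m2] (e' := [n1,n0,n0,n0,n0,n0,n0,n0,n0,n0,n0,n0,m1,n2]) (by decide +kernel) (.t
  t209 ok209) cl199

theorem cl201 : Clo K (Helper55.TR.GH 1 Helper55.TR.BrU [0,0,0,0,0,1]) r191 :=
  .i [n1,n0,n1,n1,n0,n0,n0,n0,n0,n0,n6] (e' := [n0,n0,m1,m1,n0,n0,n0,n0,n0,n0,m6]) (by decide +kernel)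
  (by decide +kernel) cl198 cl200

theorem cl202 : Clo K (Helper55.TR.GH 1 Helper55.TR.BrU [0,0,0,0,0,1]) r190 :=
  .i [n0,n0,n0,n0,n0,n0,m1,n0,n2] (e' := [n1,n0,n0,n0,n0,n0,n1,n0,m2]) (by decide +kernel) (by decide +kernel) (.t
  t187 ok187) cl201

theorem cl203 : Clo K (Helper55.TR.GH 1 Helper55.TR.BrU [0,0,0,0,0,1]) l189 :=
  .i [n1,n0,n1,n1,m1,n0,n0,m2,n0,n0,m2] (e' := [n0,n0,m1,m1,n1,n0,n0,n2,n0,n0,n2]) (by decide +kernel)
  (by decide +kernel) (.t t186 ok186) cl202

theorem cl204 : Clo K (Helper55.TR.GH 1 Helper55.TR.BrU [0,0,0,0,0,1]) r216 :=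
  .w [n0,n0,n0,n0,n0,n0,n0,n0,n0,n0,n0,n0,m1,n2] (e' := [n1,n0,n0,n0,n0,n0,n0,n0,n0,n0,n0,n0,n1,m2]) (by decide +kernel) (.t
  t213 ok213) (.t t214 ok214)

theorem cl205 : Clo K (Helper55.TR.GH 1 Helper55.TR.BrU [0,0,0,0,0,1]) l215 :=
  .i [n1,n0,m1,m1,n0,n0,n0,m2,n0,m1,n1] (e' := [n0,n0,n1,n1,n0,n0,n0,n2,n0,n1,m1]) (by decide +kernel)
  (by decide +kernel) (.t t212 ok212) cl204

theorem cl206 : Clo K (Helper55.TR.GH 1 Helper55.TR.BrU [0,0,0,0,0,1]) r215 :=
  .w [n0,n0,n0,n0,n0,n0,n0,n0,n0,n0,n0,n0,m1,n2] (e' := [n1,n0,n0,n0,n0,n0,n0,n0,n0,n0,n0,n0,n1,m2]) (by decide +kernel) (.t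
  t215 ok215) (.t t216 ok216)

theorem cl207 : Clo K (Helper55.TR.GH 1 Helper55.TR.BrU [0,0,0,0,0,1]) r189 :=
  .i [n1,n0,n1,n1,n0,n0,n0,n2,n0,n1,m1] (e' := [n0,n0,m1,m1,n0,n0,n0,m2,n0,m1,n1]) (by decide +kernel)
  (by decide +kernel) cl205 cl206

theorem cl208 : Clo K (Helper55.TR.GH 1 Helper55.TR.BrU [0,0,0,0,0,1]) r154 :=
  .i [n1,n0,m1,m1,n1,n0,n0,n2,n0,n0,n2] (e' := [n0,n0,n1,n1,m1,n0,n0,m2,n0,n0,m2]) (by decide +kernel)
  (by decide +kernel) cl203 cl207

theorem cl209 : Clo K (Helper55.TR.GH 1 Helper55.TR.BrU [0,0,0,0,0,1]) r138 :=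
  .i [n1,n0,n1,n1,n0,n0,n0,n1,n0,n1,n2] (e' := [n0,n0,m1,m1,n0,n0,n0,m1,n0,m1,m2]) (by decide +kernel)
  (by decide +kernel) cl178 cl208

theorem cl210 : Clo K (Helper55.TR.GH 1 Helper55.TR.BrU [0,0,0,0,0,1]) r126 :=
  .i [n1,n0,n1,n1,m1,n0,n0,n0,n0,n0,m7] (e' := [n0,n0,m1,m1,n1,n0,n0,n0,n0,n0,n7]) (by decide +kernel)
  (by decide +kernel) cl144 cl209

theorem cl211 : Clo K (Helper55.TR.GH 1 Helper55.TR.BrU [0,0,0,0,0,1]) r6 :=
  .i [n1,n0,m3,m3,n1,n0,n0,n0,n0,n0,m4] (e' := [n0,n0,n3,n3,m1,n0,n0,n0,n0,n0,n4]) (by decide +kernel)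
  (by decide +kernel) cl129 cl210

theorem cl212 : Clo K (Helper55.TR.GH 1 Helper55.TR.BrU [0,0,0,0,0,1]) r5 :=
  .i [n1,n0,m1,m1,n1,n0,n0,n2,n0,n1,n1] (e' := [n0,n0,n1,n1,m1,n0,n0,m2,n0,m1,m1]) (by decide +kernel)
  (by decide +kernel) cl118 cl211

theorem cl213 : Clo K (Helper55.TR.GH 1 Helper55.TR.BrU [0,0,0,0,0,1]) l4 :=
  .i [n0,n0,n0,n0,n0,n0,n1,n0,m2] (e' := [n1,n0,n0,n0,n0,n0,m1,n0,n2]) (by decide +kernel) (by decide +kernel) (.t
  t2 ok2) cl212

theorem cl214 : Clo K (Helper55.TR.GH 1 Helper55.TR.BrU [0,0,0,0,0,1]) r222 :=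
  .w [n0,n0,n0,n0,n0,n0,n0,n0,n0,n0,n0,n0,m1,n2] (e' := [n1,n0,n0,n0,n0,n0,n0,n0,n0,n0,n0,n0,n1,m2]) (by decide +kernel) (.t
  t220 ok220) (.t t221 ok221)

theorem cl215 : Clo K (Helper55.TR.GH 1 Helper55.TR.BrU [0,0,0,0,0,1]) r221 :=
  .i [n0,n0,n0,n0,n0,n0,n1,n0,m2] (e' := [n1,n0,n0,n0,n0,n0,m1,n0,n2]) (by decide +kernel) (by decide +kernel) (.t
  t219 ok219) cl214

theorem cl216 : Clo K (Helper55.TR.GH 1 Helper55.TR.BrU [0,0,0,0,0,1]) r220 :=
  .i [n0,n0,n0,n0,n0,n0,m1,n0,n2] (e' := [n1,n0,n0,n0,n0,n0,n1,n0,m2]) (by decide +kernel) (by decide +kernel) (.t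
  t218 ok218) cl215

theorem cl217 : Clo K (Helper55.TR.GH 1 Helper55.TR.BrU [0,0,0,0,0,1]) l219 :=
  .i [n1,n0,n2,n2,m1,n0,n0,m1,n0,n0,n1] (e' := [n0,n0,m2,m2,n1,n0,n0,n1,n0,n0,m1]) (by decide +kernel)
  (by decide +kernel) (.t t217 ok217) cl216

theorem cl218 : Clo K (Helper55.TR.GH 1 Helper55.TR.BrU [0,0,0,0,0,1]) r230 :=
  .w [n0,n0,n0,n0,n0,n0,n0,n0,n0,n0,n0,n0,m1,n2] (e' := [n1,n0,n0,n0,n0,n0,n0,n0,n0,n0,n0,n0,n1,m2]) (by decide +kernel) (.t
  t227 ok227) (.t t228 ok228)

theorem cl219 : Clo K (Helper55.TR.GH 1 Helper55.TR.BrU [0,0,0,0,0,1]) r229 :=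
  .w [n0,n0,n0,n0,n0,n0,n0,n0,n0,n0,n0,n0,n1,m2] (e' := [n1,n0,n0,n0,n0,n0,n0,n0,n0,n0,n0,n0,m1,n2]) (by decide +kernel) (.t
  t226 ok226) cl218

theorem cl220 : Clo K (Helper55.TR.GH 1 Helper55.TR.BrU [0,0,0,0,0,1]) l228 :=
  .i [n1,n0,n1,n1,m1,n0,n0,n0,n0,n0,m6] (e' := [n0,n0,m1,m1,n1,n0,n0,n0,n0,n0,n6]) (by decide +kernel)
  (by decide +kernel) (.t t225 ok225) cl219

theorem cl221 : Clo K (Helper55.TR.GH 1 Helper55.TR.BrU [0,0,0,0,0,1]) r234 :=
  .w [n0,n0,n0,n0,n0,n0,n0,n0,n0,n0,n0,n0,n1,m2] (e' := [n1,n0,n0,n0,n0,n0,n0,n0,n0,n0,n0,n0,m1,n2]) (by decide +kernel) (.t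
  t231 ok231) (.t t232 ok232)

theorem cl222 : Clo K (Helper55.TR.GH 1 Helper55.TR.BrU [0,0,0,0,0,1]) r233 :=
  .w [n0,n0,n0,n0,n0,n0,n0,n0,n0,n0,n0,n0,m1,n2] (e' := [n1,n0,n0,n0,n0,n0,n0,n0,n0,n0,n0,n0,n1,m2]) (by decide +kernel) (.t
  t230 ok230) cl221

theorem cl223 : Clo K (Helper55.TR.GH 1 Helper55.TR.BrU [0,0,0,0,0,1]) l232 :=
  .i [n1,n0,n3,n3,m2,n0,n0,n0,n0,n0,m7] (e' := [n0,n0,m3,m3,n2,n0,n0,n0,n0,n0,n7]) (by decide +kernel)
  (by decide +kernel) (.t t229 ok229) cl222

theorem cl224 : Clo K (Helper55.TR.GH 1 Helper55.TR.BrU [0,0,0,0,0,1]) r236 :=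
  .w [n0,n0,n0,n0,n0,n0,n0,n0,n0,n0,n0,n0,m1,n2] (e' := [n1,n0,n0,n0,n0,n0,n0,n0,n0,n0,n0,n0,n1,m2]) (by decide +kernel) (.t
  t234 ok234) (.t t235 ok235)

theorem cl225 : Clo K (Helper55.TR.GH 1 Helper55.TR.BrU [0,0,0,0,0,1]) r232 :=
  .w [n0,n0,n0,n0,n0,n0,n0,n0,n0,n0,n0,n0,n1,m2] (e' := [n1,n0,n0,n0,n0,n0,n0,n0,n0,n0,n0,n0,m1,n2]) (by decide +kernel) (.t
  t233 ok233) cl224

theorem cl226 : Clo K (Helper55.TR.GH 1 Helper55.TR.BrU [0,0,0,0,0,1]) r228 :=
  .i [n1,n0,m3,m3,n2,n0,n0,n0,n0,n0,n7] (e' := [n0,n0,n3,n3,m2,n0,n0,n0,n0,n0,m7]) (by decide +kernel)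
  (by decide +kernel) cl223 cl225

theorem cl227 : Clo K (Helper55.TR.GH 1 Helper55.TR.BrU [0,0,0,0,0,1]) r227 :=
  .i [n1,n0,m1,m1,n1,n0,n0,n0,n0,n0,n6] (e' := [n0,n0,n1,n1,m1,n0,n0,n0,n0,n0,m6]) (by decide +kernel)
  (by decide +kernel) cl220 cl226

theorem cl228 : Clo K (Helper55.TR.GH 1 Helper55.TR.BrU [0,0,0,0,0,1]) l226 :=
  .i [n1,n0,m1,m1,n0,n0,n0,m2,n0,m1,n1] (e' := [n0,n0,n1,n1,n0,n0,n0,n2,n0,n1,m1]) (by decide +kernel)
  (by decide +kernel) (.t t224 ok224) cl227

theorem cl229 : Clo K (Helper55.TR.GH 1 Helper55.TR.BrU [0,0,0,0,0,1]) r238 :=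
  .w [n0,n0,n0,n0,n0,n0,n0,n0,n0,n0,n0,n0,n1,m2] (e' := [n1,n0,n0,n0,n0,n0,n0,n0,n0,n0,n0,n0,m1,n2]) (by decide +kernel) (.t
  t237 ok237) (.t t238 ok238)

theorem cl230 : Clo K (Helper55.TR.GH 1 Helper55.TR.BrU [0,0,0,0,0,1]) r226 :=
  .w [n0,n0,n0,n0,n0,n0,n0,n0,n0,n0,n0,n0,m1,n2] (e' := [n1,n0,n0,n0,n0,n0,n0,n0,n0,n0,n0,n0,n1,m2]) (by decide +kernel) (.t
  t236 ok236) cl229

theorem cl231 : Clo K (Helper55.TR.GH 1 Helper55.TR.BrU [0,0,0,0,0,1]) r225 :=
  .i [n1,n0,n1,n1,n0,n0,n0,n2,n0,n1,m1] (e' := [n0,n0,m1,m1,n0,n0,n0,m2,n0,m1,n1]) (by decide +kernel)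
  (by decide +kernel) cl228 cl230

theorem cl232 : Clo K (Helper55.TR.GH 1 Helper55.TR.BrU [0,0,0,0,0,1]) r224 :=
  .i [n0,n0,n0,n0,n0,n0,m1,n0,n2] (e' := [n1,n0,n0,n0,n0,n0,n1,n0,m2]) (by decide +kernel) (by decide +kernel) (.t
  t223 ok223) cl231

theorem cl233 : Clo K (Helper55.TR.GH 1 Helper55.TR.BrU [0,0,0,0,0,1]) r219 :=
  .i [n0,n0,n0,n0,n0,n0,n1,n0,m2] (e' := [n1,n0,n0,n0,n0,n0,m1,n0,n2]) (by decide +kernel) (by decide +kernel) (.t
  t222 ok222) cl232

theorem cl234 : Clo K (Helper55.TR.GH 1 Helper55.TR.BrU [0,0,0,0,0,1]) r4 :=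
  .i [n1,n0,m2,m2,n1,n0,n0,n1,n0,n0,m1] (e' := [n0,n0,n2,n2,m1,n0,n0,m1,n0,n0,n1]) (by decide +kernel)
  (by decide +kernel) cl217 cl233

theorem cl235 : Clo K (Helper55.TR.GH 1 Helper55.TR.BrU [0,0,0,0,0,1]) l3 :=
  .i [n1,n0,n1,n1,n0,n0,n0,n0,n0,n0,n5] (e' := [n0,n0,m1,m1,n0,n0,n0,n0,n0,n0,m5]) (by decide +kernel)
  (by decide +kernel) cl213 cl234

theorem cl236 : Clo K (Helper55.TR.GH 1 Helper55.TR.BrU [0,0,0,0,0,1]) l2 :=
  .i [n1,n0,n0,n0,n0,n0,n0,n1,n0,m2] (e' := [n0,n0,n0,n0,n0,n0,n0,m1,n0,n2]) (by decide +kernel) (by decide +kernel)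
  cl235 (.t t239 ok239)

theorem cl237 : Clo K (Helper55.TR.GH 1 Helper55.TR.BrU [0,0,0,0,0,1]) r1 :=
  .i [n1,n0,n0,n0,n0,n0,n0,m1,n0,n2] (e' := [n0,n0,n0,n0,n0,n0,n0,n1,n0,m2]) (by decide +kernel) (by decide +kernel)
  cl236 (.t t240 ok240)

theorem cl238 : Clo K (Helper55.TR.GH 1 Helper55.TR.BrU [0,0,0,0,0,1]) r0 :=
  .q [n0,n0,m2,n0,n1,n0,n0,n0,m2,n0,n0,n1,n0,m2] (e' := [n0,n0,n2,n0,m1,n0,n0,n0,n2,n0,n0,m1,n0,n2]) (.p false [0,0,0,1]
  [1,0,0,-1] (⟨0,[(1,0)]⟩,⟨0,[(24,0)]⟩) .k 2 (⟨0,[(24,0)]⟩,⟨0,[(1,0)]⟩) .k (.r (-1) ⟨33,[(10,10),(5,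
  10),(5,7),(8,7),(3,11),(11,15),(5,23)]⟩ ⟨2,[(0,1),(31,1),(10,1)]⟩)) (by decide +kernel)
  (by decide +kernel) (.t t1 ok1) cl237

theorem cl239 : Clo K (Helper55.TR.GH 1 Helper55.TR.BrU [0,0,0,0,0,1]) base :=
  .i [n0,n1,n0,n0,n0,n0,n0,n0,n0,n1] (e' := [n1,m1,n0,n0,n0,n0,n0,n0,n0,m1]) (by decide +kernel) (by decide +kernel)
  (.t t0 ok0) cl238

theorem g : Helper55.TR.GH 1 Helper55.TR.BrU [0,0,0,0,0,1] base :=
  Helper55.TR.GH.of (Or.inr (Or.inr (Or.inl rfl))) cl239

end Helper55.CD.Dm1_1_c0u_27_1_3_0_0

namespace Helper55.CD.Dm1_1_c0u_27_1_3_0_1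

open Helper25.KG Helper25.KW Helper55.KE Helper11.CT Helper55.TR.Nm

noncomputable def K : Cls :=
  Helper55.TR.KH 1 [0,0,0,0,0,1]

noncomputable def base : List Con :=
  [(true,[n0,m2,n0,n0,n1]),
  (false,[n0,n0,n0,n0,n0,m1,n0,n0,n0,n0,n0,n1,n0,n0,m1]),
  (false,[n0,n0,n0,n0,n0,n0,n0,n0,n0,n0,n0,n0,n0,n1]),
  (false,[n0,n1,n0,n0,n0,m1,n0,n0,n0,n0,m1,n0,n0,n0,m1]),
  (false,[n0,n0,n0,n0,n0,n0,n0,n0,n0,n0,n0,n0,n0,n0,n1]),
  (true,[n0,n1,n0,n1]),
  (true,[n1,n0,n0,n0,n0,n0,n0,n0,n0,n0,m1]),
  (true,[n0,n0,n0,m1]),
  (false,[n0,n0,n0,n0,n0,n0,n0,n0,n0,n0,n0,n1,n0,m1]),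
  (false,[n0,n0,n0,n0,n0,m1,n0,n0,n0,n0,n0,n1,n0,m1]),
  (true,[n1,n1,n0,n0,n0,n0,n0,n1,n0,m2]),
  (false,[n0,n0,n0,n0,n0,m1,n0,n0,n0,n0,n0,n0,n0,n1]),
  (false,[n0,n1,n0,m1,n0,n0,n0,n0,n2,n2,n0,m1,n0,n2]),
  (false,[n0,n1,n0,n0,n0,n1,n0,n0,n0,n0,n1,m1,n0,n0,n1]),
  (true,[m1,n1]),
  (false,[n0,n0,n0,n0,n0,n0,n0,n0,n0,n0,n0,n1,m1]),
  (true,[n0,n0,n0,n0,n1,n0,n0,n0,n0,n0,n2]),
  (false,[n0,n1,n0,n0,n0,n0,m1,m1,n0,n0,n0,n0,m1]),
  (false,[n0,n0,n0,n0,n0,m2,n0,n0,n0,n0,n0,n1,n0,m1]),
  (false,[n0,n0,n0,n0,n0,n0,n0,n0,n1,n0,n0,n0,n0,n1]),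
  (false,[n0,n0,n0,n0,n0,n0,n0,n0,n0,n0,n0,n1,n0,n0,m1]),
  (true,[n1,n1,n0,n0,n0,n0,n0,n0,n0,n1]),
  (true,[n0,m1,n0,m1,n0,n0,n0,n0,n0,m1]),
  (false,[n0,n0,n0,n0,n0,n0,n1,n0,m1,n0,n0,n0,n1,m1]),
  (false,[n0,n0,n0,m1,n0,n1,n0,n0,m1,m1,n1,n0,n0,m1,n1]),
  (true,[n0,n0,n0,n0,n0,n0,n0,n0,n0,n0,m1]),
  (true,[n0,n0,m2,n0,n1]),
  (false,[n0,n0,n0,n0,n0,n0,n0,n0,n0,n0,n0,n0,n1]),
  (false,[n0,n0,n0,n0,n0,n0,n0,n0,n1,n0,n0,m1,n0,n1]),
  (true,[n0,n0,n0,n0,n1,n0,n0,n0,n0,n0,m2]),
  (true,[n1,n0,m1,m1,n1,n0,n0,n2,n0,n0,n1]),
  (true,[n0,n0,n0,m1,n0,n0,n0,m1]),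
  (true,[n0,n0,n0,n0,n0,n0,n0,m1]),
  (false,[n0,n0,n2,n0,m1,n0,n1,n0,n0,n0,n0,m1,n1]),
  (true,[n0,m1,n1,n0,n0,n0,n0,m1]),
  (false,[n0,n1,n0,n2,n0,n0,n1,n1,m1,m1,n0,n0,n1,m1]),
  (true,[n0,n0,n1,n1,n0,n0,n0,n1,n0,n2]),
  (true,[n0,n0,n3,n3,m1,n0,n0,n1,n0,n1]),
  (true,[n0,n0,n0,n0,n0,n1]),
  (false,[n0,n0,n0,n0,n0,m1,n0,n0,n0,n0,n0,n0,n1]),
  (true,[n0,n0,m2,m2,n1,n0,n0,n0,n0,n1]),
  (false,[n0,n0,n0,n2,n0,n0,m1,m1,n1,n1,n0,n0,m1,n1]),
  (false,[n0,n0,n1,n0,n0,n0,m2,n0,n0,n0,n0,n2,m2]),
  (true,[n1,m1,n2,n0,m1,n0,n0,m1]),
  (false,[n0,n0,n0,n2,n0,n0,n0,n0,m1,m1,n0,n0,n0,m1]),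
  (false,[n0,n0,n0,n0,n0,n1,n0,n0,n0,n0,n0,m1,n1]),
  (false,[n0,n0,n0,n2,n0,n0,m1,m1,n0,n0,n0,n0,m1]),
  (false,[n0,n0,n2,n0,m1,n0,n1,n0,n0,n0,n0,n0,n1]),
  (false,[n0,n0,n0,n0,n1,n0,n0,n0,n0,n0,n0,m2]),
  (true,[n1,m1,n1,n2,n0,n0,n0,n1]),
  (false,[n0,n0,n1,n0,n0,n0,m1,n0,n0,n0,n0,n0,m1]),
  (false,[n0,n0,m2,n0,n1,n0,n0,n0,n0,n0,n0,m1]),
  (false,[n0,n0,n1,n0,n0,n0,n1,n0,n0,n0,n0,n0,n1]),
  (false,[n0,m1,n0,n0,n0,n0,m1,m1,n0,n0,n0,n1,m1]),
  (false,[n0,n0,n0,n0,n0,n0,n1,n0,n0,n0,n0,n0,n1]),
  (false,[n0,n0,m2,n0,n1,n0,m1,n0,n1,n0,n0,n0,m1,n1]),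
  (false,[n0,n0,m2,n0,n1,n0,n0,n0,m1,n0,n0,n1,n0,m1]),
  (false,[n0,n1,n0,n0,n0,n0,n1,n1,n0,n0,n0,n0,n1]),
  (true,[n0,n0,n2,n0,m1,n2,n1]),
  (false,[n0,n0,n0,n0,n0,m2,n0,n0,n0,n0,n0,n0,n0,n1]),
  (false,[n0,n0,m2,n0,n1,n0,n0,n0,m1,n0,n0,n0,n0,m1]),
  (true,[n1,m2,n1]),
  (false,[n0,n0,n0,n0,n0,n0,m1,m1,n0,n0,n0,n0,m1]),
  (false,[n0,n0,n0,n0,n0,n0,n1,n0,n0,n0,n0,m1,n1]),
  (true,[n1,n0,n1,n1,n0,n0,n0,n2]),
  (false,[n0,n0,n0,n1,n0,n0,n0,n0,m1,m1,n0,n0,n0,m1]),
  (false,[n0,n0,n0,n0,n0,m1,n0,n0,n0,n0,n0,n1]),
  (false,[n0,n0,n0,n0,n0,m2,n0,n0,n0,n0,n0,n1]),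
  (false,[n0,n0,n0,n1,n0,n0,m1,m1,n0,n0,n0,n0,m1]),
  (true,[n0,n0,n1,n0,n0,n0,n0,n1]),
  (true,[n0,n0,n0,n0,n0,n0,n0,n0,n0,m1,m1]),
  (false,[n0,n0,n0,n1,n0,n0,m1,m1,n1,n1,n0,n0,m1,n1]),
  (true,[n0,m1,n1,n1,n0,n0,n0,n1]),
  (false,[n0,n1,n0,n0,n0,n0,n0,n0,n1,n1,n0,m1,n0,n1]),
  (false,[n0,m1,m1,n1,n1,n0,m1,n0,n0,n0,n0,n0,m1])]

noncomputable def l0 : List Con := (true, [n1,n0,m2,m2,n1,n0,n0,n0,n0,n1,n1]) :: base

noncomputable def r0 : List Con := (true, [n0,n0,n2,n2,m1,n0,n0,n0,n0,m1,m1]) :: base

noncomputable def l1 : List Con := (true, [n1,n0,n2,n2,m1,n0,n0,n0,n0,m1,m1]) :: l0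

noncomputable def r1 : List Con := (true, [n0,n0,m2,m2,n1,n0,n0,n0,n0,n1,n1]) :: l0

noncomputable def l2 : List Con := (true, [n1,n0,n2,n2,m1,n0,n0,n0,n0,m1,m2]) :: r1

noncomputable def r2 : List Con := (true, [n0,n0,m2,m2,n1,n0,n0,n0,n0,n1,n2]) :: r1

noncomputable def l3 : List Con := (true, [n1,n0,m2,m2,n1,n0,n0,n0,n0,n1,n2]) :: l2

noncomputable def r3 : List Con := (true, [n0,n0,n2,n2,m1,n0,n0,n0,n0,m1,m2]) :: l2

noncomputable def l4 : List Con := (true, [n1,n0,n0,n0,n0,n0,n0,m1,n0,n2,n2]) :: r3

noncomputable def r4 : List Con := (true, [n0,n0,n0,n0,n0,n0,n0,n1,n0,m2,m2]) :: r3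

noncomputable def l5 : List Con := (true, [n1,n0,m2,m2,n1,n0,n0,n0,n0,n0,n7]) :: l4

noncomputable def r5 : List Con := (true, [n0,n0,n2,n2,m1,n0,n0,n0,n0,n0,m7]) :: l4

noncomputable def l6 : List Con := (true, [n1,n0,n0,n0,n0,n0,n0,n1,n0,m2,m2]) :: r5

noncomputable def r6 : List Con := (true, [n0,n0,n0,n0,n0,n0,n0,m1,n0,n2,n2]) :: r5

noncomputable def l7 : List Con := (true, [n0,n0,n0,n0,n0,m2,n1,n0,m2]) :: l6

noncomputable def r7 : List Con := (true, [n1,n0,n0,n0,n0,n2,m1,n0,n2]) :: l6

noncomputable def l8 : List Con := (true, [n1,n0,n1,n1,n0,n0,n0,n2,n0,n0,n2]) :: r7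

noncomputable def r8 : List Con := (true, [n0,n0,m1,m1,n0,n0,n0,m2,n0,n0,m2]) :: r7

noncomputable def l9 : List Con := (true, [n1,n0,m1,m1,n0,n0,n0,m2,n0,n0,m2]) :: l8

noncomputable def r9 : List Con := (true, [n0,n0,n1,n1,n0,n0,n0,n2,n0,n0,n2]) :: l8

noncomputable def l10 : List Con := (false, [n0,n0,n0,n0,n0,n0,n0,n0,n0,n0,n0,m1,m1,n2,n2]) :: r9

noncomputable def r10 : List Con := (true, [n1,n0,n0,n0,n0,n0,n0,n0,n0,n0,n0,n1,n1,m2,m2]) :: r9

noncomputable def l11 : List Con := (false, [n0,n0,n0,n0,n0,n0,n0,n0,n0,n0,n0,n2,n1,m2,m2]) :: l10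

noncomputable def r11 : List Con := (true, [n1,n0,n0,n0,n0,n0,n0,n0,n0,n0,n0,m2,m1,n2,n2]) :: l10

noncomputable def l12 : List Con := (false, [n0,n0,n0,n0,n0,n0,n0,n0,n0,n0,n0,n0,m1,n2,n2]) :: r10

noncomputable def r12 : List Con := (true, [n1,n0,n0,n0,n0,n0,n0,n0,n0,n0,n0,n0,n1,m2,m2]) :: r10

noncomputable def l13 : List Con := (false, [n0,n0,n0,n0,n0,n0,n0,n0,n0,n0,n0,n1,n1,m2,m2]) :: l12

noncomputable def r13 : List Con := (true, [n1,n0,n0,n0,n0,n0,n0,n0,n0,n0,n0,m1,m1,n2,n2]) :: l12

noncomputable def l14 : List Con := (true, [n1,n0,m1,m1,n0,n0,n0,m2,n0,n0,m1]) :: r8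

noncomputable def r14 : List Con := (true, [n0,n0,n1,n1,n0,n0,n0,n2,n0,n0,n1]) :: r8

noncomputable def l15 : List Con := (true, [n1,n0,n1,n1,n0,n0,n0,n2,n0,n0,n1]) :: l14

noncomputable def r15 : List Con := (true, [n0,n0,m1,m1,n0,n0,n0,m2,n0,n0,m1]) :: l14

noncomputable def l16 : List Con := (false, [n0,n0,n0,n0,n0,n0,n0,n0,n0,n0,n0,m1,m1,n2,n2]) :: r15

noncomputable def r16 : List Con := (true, [n1,n0,n0,n0,n0,n0,n0,n0,n0,n0,n0,n1,n1,m2,m2]) :: r15

noncomputable def l17 : List Con := (false, [n0,n0,n0,n0,n0,n0,n0,n0,n0,n0,n0,n2,n1,m2,m2]) :: l16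

noncomputable def r17 : List Con := (true, [n1,n0,n0,n0,n0,n0,n0,n0,n0,n0,n0,m2,m1,n2,n2]) :: l16

noncomputable def l18 : List Con := (false, [n0,n0,n0,n0,n0,n0,n0,n0,n0,n0,n0,m1,m1,n2,n2]) :: r14

noncomputable def r18 : List Con := (true, [n1,n0,n0,n0,n0,n0,n0,n0,n0,n0,n0,n1,n1,m2,m2]) :: r14

noncomputable def l19 : List Con := (false, [n0,n0,n0,n0,n0,n0,n0,n0,n0,n0,n0,n2,n1,m2,m2]) :: l18

noncomputable def r19 : List Con := (true, [n1,n0,n0,n0,n0,n0,n0,n0,n0,n0,n0,m2,m1,n2,n2]) :: l18

noncomputable def l20 : List Con := (true, [n1,n0,n0,n0,n0,n0,n0,n1,n0,m2,m1]) :: r4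

noncomputable def r20 : List Con := (true, [n0,n0,n0,n0,n0,n0,n0,m1,n0,n2,n1]) :: r4

noncomputable def l21 : List Con := (true, [n0,n0,n0,n0,n0,m1,n1,n0,m2]) :: l20

noncomputable def r21 : List Con := (true, [n1,n0,n0,n0,n0,n1,m1,n0,n2]) :: l20

noncomputable def l22 : List Con := (true, [n1,n0,n0,n0,n0,n0,n0,m1,n0,n2,n1]) :: r21

noncomputable def r22 : List Con := (true, [n0,n0,n0,n0,n0,n0,n0,n1,n0,m2,m1]) :: r21

noncomputable def l23 : List Con := (true, [n0,n0,n0,n0,n0,n1,m1,n0,n2]) :: l22

noncomputable def r23 : List Con := (true, [n1,n0,n0,n0,n0,m1,n1,n0,m2]) :: l22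

noncomputable def l24 : List Con := (true, [n1,n0,m1,m1,n0,n0,n0,m2,n0,n0,m2]) :: r23

noncomputable def r24 : List Con := (true, [n0,n0,n1,n1,n0,n0,n0,n2,n0,n0,n2]) :: r23

noncomputable def l25 : List Con := (true, [n0,n0,n2,n1,m1,n0,n0,m1,n0,n1]) :: l24

noncomputable def r25 : List Con := (true, [n1,n0,m2,m1,n1,n0,n0,n1,n0,m1]) :: l24

noncomputable def l26 : List Con := (true, [n1,n0,n2,n2,m1,n0,n0,n0,n0,n0,m3]) :: l25

noncomputable def r26 : List Con := (true, [n0,n0,m2,m2,n1,n0,n0,n0,n0,n0,n3]) :: l25

noncomputable def l27 : List Con := (false, [n0,n0,n0,m2,n0,n0,n1,n1,m2,m2,n0,n0,n1,m2]) :: l26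

noncomputable def r27 : List Con := (false, [n0,n0,n0,n2,n0,n0,m1,m1,n2,n2,n0,n0,m1,n2]) :: l26

noncomputable def l28 : List Con := (true, [n1,n0,m2,m2,n1,n0,n0,n0,n0,n0,n3]) :: r27

noncomputable def r28 : List Con := (true, [n0,n0,n2,n2,m1,n0,n0,n0,n0,n0,m3]) :: r27

noncomputable def l29 : List Con := (true, [n1,n0,n1,n1,n0,n0,n0,n2,n0,n0,n2]) :: r28

noncomputable def r29 : List Con := (true, [n0,n0,m1,m1,n0,n0,n0,m2,n0,n0,m2]) :: r28

noncomputable def l30 : List Con := (false, [n0,m1,n0,n1,n0,n0,m1,m1,n0,n0,n0,n1,m1]) :: r29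

noncomputable def r30 : List Con := (false, [n0,n1,n0,m1,n0,n0,n1,n1,n0,n0,n0,m1,n1]) :: r29

noncomputable def l31 : List Con := (false, [n0,n0,n0,n0,n0,n0,n0,n0,n0,n0,n0,n0,m1,n2,n1]) :: l30

noncomputable def r31 : List Con := (true, [n1,n0,n0,n0,n0,n0,n0,n0,n0,n0,n0,n0,n1,m2,m1]) :: l30

noncomputable def l32 : List Con := (false, [n0,n0,n0,n0,n0,n0,n0,n0,n0,n0,n0,n1,n1,m2,m1]) :: l31

noncomputable def r32 : List Con := (true, [n1,n0,n0,n0,n0,n0,n0,n0,n0,n0,n0,m1,m1,n2,n1]) :: l31

noncomputable def l33 : List Con := (false, [n0,n0,n0,n0,n0,n0,n0,n0,n0,n0,n0,n0,m1,n2,n1]) :: r30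

noncomputable def r33 : List Con := (true, [n1,n0,n0,n0,n0,n0,n0,n0,n0,n0,n0,n0,n1,m2,m1]) :: r30

noncomputable def l34 : List Con := (false, [n0,n0,n0,n0,n0,n0,n0,n0,n0,n0,n0,n1,n1,m2,m1]) :: l33

noncomputable def r34 : List Con := (true, [n1,n0,n0,n0,n0,n0,n0,n0,n0,n0,n0,m1,m1,n2,n1]) :: l33

noncomputable def l35 : List Con := (false, [n0,n0,n0,n0,n0,n0,n0,n0,n0,n0,n0,n1,n1,m2,m1]) :: r26

noncomputable def r35 : List Con := (true, [n1,n0,n0,n0,n0,n0,n0,n0,n0,n0,n0,m1,m1,n2,n1]) :: r26

noncomputable def l36 : List Con := (false, [n0,n0,n0,n0,n0,n0,n0,n0,n0,n0,n0,n0,m1,n2,n1]) :: l35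

noncomputable def r36 : List Con := (true, [n1,n0,n0,n0,n0,n0,n0,n0,n0,n0,n0,n0,n1,m2,m1]) :: l35

noncomputable def l37 : List Con := (true, [n1,n0,m2,m2,n1,n0,n0,n0,n0,n0,n7]) :: r25

noncomputable def r37 : List Con := (true, [n0,n0,n2,n2,m1,n0,n0,n0,n0,n0,m7]) :: r25

noncomputable def l38 : List Con := (true, [n1,n0,n2,n2,m1,n0,n0,n0,n0,n0,m7]) :: l37

noncomputable def r38 : List Con := (true, [n0,n0,m2,m2,n1,n0,n0,n0,n0,n0,n7]) :: l37

noncomputable def l39 : List Con := (true, [n0,n0,m2,n0,n1,m9]) :: l38

noncomputable def r39 : List Con := (true, [n1,n0,n2,n0,m1,n9]) :: l38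

noncomputable def l40 : List Con := (false, [n0,n0,n0,n0,n0,n0,n0,n0,n0,n0,n0,n1,n1,m2,m1]) :: r39

noncomputable def r40 : List Con := (true, [n1,n0,n0,n0,n0,n0,n0,n0,n0,n0,n0,m1,m1,n2,n1]) :: r39

noncomputable def l41 : List Con := (false, [n0,n0,n0,n0,n0,n0,n0,n0,n0,n0,n0,n0,m1,n2,n1]) :: l40

noncomputable def r41 : List Con := (true, [n1,n0,n0,n0,n0,n0,n0,n0,n0,n0,n0,n0,n1,m2,m1]) :: l40

noncomputable def l42 : List Con := (false, [n0,n0,n0,n0,n0,n0,m1,m1,n2,n2,n0,n0,m1,n2]) :: r38

noncomputable def r42 : List Con := (false, [n0,n0,n0,n0,n0,n0,n1,n1,m2,m2,n0,n0,n1,m2]) :: r38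

noncomputable def l43 : List Con := (false, [n0,n0,n0,m1,n0,n0,n1,n1,m2,m2,n0,n0,n1,m2]) :: l42

noncomputable def r43 : List Con := (false, [n0,n0,n0,n1,n0,n0,m1,m1,n2,n2,n0,n0,m1,n2]) :: l42

noncomputable def l44 : List Con := (true, [n1,n0,n1,n1,n0,n0,n0,n2,n0,n0,n2]) :: r43

noncomputable def r44 : List Con := (true, [n0,n0,m1,m1,n0,n0,n0,m2,n0,n0,m2]) :: r43

noncomputable def l45 : List Con := (true, [n1,n0,m1,m1,n0,n0,n0,m2,n0,n0,m1]) :: r44

noncomputable def r45 : List Con := (true, [n0,n0,n1,n1,n0,n0,n0,n2,n0,n0,n1]) :: r44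

noncomputable def l46 : List Con := (true, [n1,n0,n1,n1,n0,n0,n0,n2,n0,n0,n1]) :: l45

noncomputable def r46 : List Con := (true, [n0,n0,m1,m1,n0,n0,n0,m2,n0,n0,m1]) :: l45

noncomputable def l47 : List Con := (false, [n0,n0,n0,n0,n0,n0,n0,n0,n0,n0,n0,n1,n1,m2,m1]) :: r46

noncomputable def r47 : List Con := (true, [n1,n0,n0,n0,n0,n0,n0,n0,n0,n0,n0,m1,m1,n2,n1]) :: r46

noncomputable def l48 : List Con := (false, [n0,n0,n0,n0,n0,n0,n0,n0,n0,n0,n0,n0,m1,n2,n1]) :: l47

noncomputable def r48 : List Con := (true, [n1,n0,n0,n0,n0,n0,n0,n0,n0,n0,n0,n0,n1,m2,m1]) :: l47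

noncomputable def l49 : List Con := (false, [n0,n0,n0,n0,n0,n0,n0,n0,n0,n0,n0,n1,n1,m2,m1]) :: r45

noncomputable def r49 : List Con := (true, [n1,n0,n0,n0,n0,n0,n0,n0,n0,n0,n0,m1,m1,n2,n1]) :: r45

noncomputable def l50 : List Con := (false, [n0,n0,n0,n0,n0,n0,n0,n0,n0,n0,n0,n0,m1,n2,n1]) :: l49

noncomputable def r50 : List Con := (true, [n1,n0,n0,n0,n0,n0,n0,n0,n0,n0,n0,n0,n1,m2,m1]) :: l49

noncomputable def l51 : List Con := (true, [n1,n1,n0,m1,n0,n0,n0,n1,n0,m1]) :: r37

noncomputable def r51 : List Con := (true, [n0,m1,n0,n1,n0,n0,n0,m1,n0,n1]) :: r37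

noncomputable def l52 : List Con := (false, [n0,n0,n0,n0,n0,n0,m1,m1,n2,n2,n0,n0,m1,n2]) :: l51

noncomputable def r52 : List Con := (false, [n0,n0,n0,n0,n0,n0,n1,n1,m2,m2,n0,n0,n1,m2]) :: l51

noncomputable def l53 : List Con := (false, [n0,n0,n0,m1,n0,n0,n1,n1,m2,m2,n0,n0,n1,m2]) :: l52

noncomputable def r53 : List Con := (false, [n0,n0,n0,n1,n0,n0,m1,m1,n2,n2,n0,n0,m1,n2]) :: l52

noncomputable def l54 : List Con := (false, [n0,n0,n0,m2,n0,n0,n1,n1,m2,m2,n0,n0,n1,m2]) :: r53

noncomputable def r54 : List Con := (false, [n0,n0,n0,n2,n0,n0,m1,m1,n2,n2,n0,n0,m1,n2]) :: r53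

noncomputable def l55 : List Con := (true, [n1,n0,n1,n1,n0,n0,n0,n2,n0,n0,n2]) :: l54

noncomputable def r55 : List Con := (true, [n0,n0,m1,m1,n0,n0,n0,m2,n0,n0,m2]) :: l54

noncomputable def l56 : List Con := (true, [n1,n0,n1,n1,n0,n0,n0,n2,n0,n0,n1]) :: r55

noncomputable def r56 : List Con := (true, [n0,n0,m1,m1,n0,n0,n0,m2,n0,n0,m1]) :: r55

noncomputable def l57 : List Con := (true, [n1,n0,m1,m1,n0,n0,n0,m2,n0,n0,m1]) :: l56

noncomputable def r57 : List Con := (true, [n0,n0,n1,n1,n0,n0,n0,n2,n0,n0,n1]) :: l56

noncomputable def l58 : List Con := (false, [n0,n0,n0,n0,n0,n0,n0,n0,n0,n0,n0,n0,n1,m2,m1]) :: r57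

noncomputable def r58 : List Con := (true, [n1,n0,n0,n0,n0,n0,n0,n0,n0,n0,n0,n0,m1,n2,n1]) :: r57

noncomputable def l59 : List Con := (false, [n0,n0,n0,n0,n0,n0,n0,n0,n0,n0,n0,n1,n1,m2,m1]) :: r58

noncomputable def r59 : List Con := (true, [n1,n0,n0,n0,n0,n0,n0,n0,n0,n0,n0,m1,m1,n2,n1]) :: r58

noncomputable def l60 : List Con := (false, [n0,n0,n0,n0,n0,n0,n0,n0,n0,n0,n0,n0,m1,n2,n1]) :: l59

noncomputable def r60 : List Con := (true, [n1,n0,n0,n0,n0,n0,n0,n0,n0,n0,n0,n0,n1,m2,m1]) :: l59

noncomputable def l61 : List Con := (false, [n0,n0,n0,n0,n0,n0,n0,n0,n0,n0,n0,n0,m1,n2,n1]) :: r56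

noncomputable def r61 : List Con := (true, [n1,n0,n0,n0,n0,n0,n0,n0,n0,n0,n0,n0,n1,m2,m1]) :: r56

noncomputable def l62 : List Con := (false, [n0,n0,n0,n0,n0,n0,n0,n0,n0,n0,n0,n1,n1,m2,m1]) :: l61

noncomputable def r62 : List Con := (true, [n1,n0,n0,n0,n0,n0,n0,n0,n0,n0,n0,m1,m1,n2,n1]) :: l61

noncomputable def l63 : List Con := (true, [n1,n0,n1,n1,n0,n0,n0,n2,n0,n0,n2]) :: r54

noncomputable def r63 : List Con := (true, [n0,n0,m1,m1,n0,n0,n0,m2,n0,n0,m2]) :: r54

noncomputable def l64 : List Con := (true, [n1,n0,m1,m1,n0,n0,n0,m2,n0,n0,m1]) :: r63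

noncomputable def r64 : List Con := (true, [n0,n0,n1,n1,n0,n0,n0,n2,n0,n0,n1]) :: r63

noncomputable def l65 : List Con := (true, [n1,n0,n1,n1,n0,n0,n0,n2,n0,n0,n1]) :: l64

noncomputable def r65 : List Con := (true, [n0,n0,m1,m1,n0,n0,n0,m2,n0,n0,m1]) :: l64

noncomputable def l66 : List Con := (false, [n0,n0,n0,n0,n0,n0,n0,n0,n0,n0,n0,n1,n1,m2,m1]) :: r65

noncomputable def r66 : List Con := (true, [n1,n0,n0,n0,n0,n0,n0,n0,n0,n0,n0,m1,m1,n2,n1]) :: r65

noncomputable def l67 : List Con := (false, [n0,n0,n0,n0,n0,n0,n0,n0,n0,n0,n0,m1,m1,n2,n1]) :: r66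

noncomputable def r67 : List Con := (true, [n1,n0,n0,n0,n0,n0,n0,n0,n0,n0,n0,n1,n1,m2,m1]) :: r66

noncomputable def l68 : List Con := (false, [n0,n0,n0,n0,n0,n0,n0,n0,n0,n0,n0,n1,n1,m2,m1]) :: r64

noncomputable def r68 : List Con := (true, [n1,n0,n0,n0,n0,n0,n0,n0,n0,n0,n0,m1,m1,n2,n1]) :: r64

noncomputable def l69 : List Con := (false, [n0,n0,n0,n0,n0,n0,n0,n0,n0,n0,n0,m1,m1,n2,n1]) :: r68

noncomputable def r69 : List Con := (true, [n1,n0,n0,n0,n0,n0,n0,n0,n0,n0,n0,n1,n1,m2,m1]) :: r68

noncomputable def l70 : List Con := (false, [n0,n0,n0,n0,n0,n0,m1,m1,n2,n2,n0,n0,m1,n2]) :: r51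

noncomputable def r70 : List Con := (false, [n0,n0,n0,n0,n0,n0,n1,n1,m2,m2,n0,n0,n1,m2]) :: r51

noncomputable def l71 : List Con := (false, [n0,n0,n0,m1,n0,n0,n1,n1,m2,m2,n0,n0,n1,m2]) :: l70

noncomputable def r71 : List Con := (false, [n0,n0,n0,n1,n0,n0,m1,m1,n2,n2,n0,n0,m1,n2]) :: l70

noncomputable def l72 : List Con := (true, [n1,n0,m1,m1,n1,n0,n0,n2,n0,n2]) :: r71

noncomputable def r72 : List Con := (true, [n0,n0,n1,n1,m1,n0,n0,m2,n0,m2]) :: r71

noncomputable def l73 : List Con := (true, [n1,n0,n1,n1,m1,n0,n0,m2,n0,m2]) :: l72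

noncomputable def r73 : List Con := (true, [n0,n0,m1,m1,n1,n0,n0,n2,n0,n2]) :: l72

noncomputable def l74 : List Con := (true, [n1,n0,n1,n1,n0,n0,n0,n2,n0,n0,n2]) :: r73

noncomputable def r74 : List Con := (true, [n0,n0,m1,m1,n0,n0,n0,m2,n0,n0,m2]) :: r73

noncomputable def l75 : List Con := (false, [n0,n0,n0,n0,n0,n0,n0,n0,n0,n0,n0,n1,n1,m2,m1]) :: r74

noncomputable def r75 : List Con := (true, [n1,n0,n0,n0,n0,n0,n0,n0,n0,n0,n0,m1,m1,n2,n1]) :: r74

noncomputable def l76 : List Con := (false, [n0,n0,n0,n0,n0,n0,n0,n0,n0,n0,n0,n0,m1,n2,n1]) :: l75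

noncomputable def r76 : List Con := (true, [n1,n0,n0,n0,n0,n0,n0,n0,n0,n0,n0,n0,n1,m2,m1]) :: l75

noncomputable def l77 : List Con := (true, [n0,n0,m2,n0,n1,m7]) :: r72

noncomputable def r77 : List Con := (true, [n1,n0,n2,n0,m1,n7]) :: r72

noncomputable def l78 : List Con := (true, [n1,n0,n1,n1,n0,n0,n0,n2,n0,n0,n2]) :: l77

noncomputable def r78 : List Con := (true, [n0,n0,m1,m1,n0,n0,n0,m2,n0,n0,m2]) :: l77

noncomputable def l79 : List Con := (true, [n1,n0,n1,n1,n0,n0,n0,n2,n0,n0,n1]) :: r78

noncomputable def r79 : List Con := (true, [n0,n0,m1,m1,n0,n0,n0,m2,n0,n0,m1]) :: r78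

noncomputable def l80 : List Con := (true, [n1,n0,m1,m1,n0,n0,n0,m2,n0,n0,m1]) :: l79

noncomputable def r80 : List Con := (true, [n0,n0,n1,n1,n0,n0,n0,n2,n0,n0,n1]) :: l79

noncomputable def l81 : List Con := (false, [n0,n0,n0,n0,n0,n0,n0,n0,n0,n0,n0,n0,m1,n2,n1]) :: r80

noncomputable def r81 : List Con := (true, [n1,n0,n0,n0,n0,n0,n0,n0,n0,n0,n0,n0,n1,m2,m1]) :: r80

noncomputable def l82 : List Con := (false, [n0,n0,n0,n0,n0,n0,n0,n0,n0,n0,n0,n1,n1,m2,m1]) :: l81

noncomputable def r82 : List Con := (true, [n1,n0,n0,n0,n0,n0,n0,n0,n0,n0,n0,m1,m1,n2,n1]) :: l81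

noncomputable def l83 : List Con := (false, [n0,n0,n0,n0,n0,n0,n0,n0,n0,n0,n0,n0,n1,m2,m1]) :: r81

noncomputable def r83 : List Con := (true, [n1,n0,n0,n0,n0,n0,n0,n0,n0,n0,n0,n0,m1,n2,n1]) :: r81

noncomputable def l84 : List Con := (true, [n1,n0,m2,m2,n1,n0,n0,n0,n0,n0,n3]) :: r79

noncomputable def r84 : List Con := (true, [n0,n0,n2,n2,m1,n0,n0,n0,n0,n0,m3]) :: r79

noncomputable def l85 : List Con := (true, [n1,n0,n2,n2,m1,n0,n0,n0,n0,n0,m3]) :: l84

noncomputable def r85 : List Con := (true, [n0,n0,m2,m2,n1,n0,n0,n0,n0,n0,n3]) :: l84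

noncomputable def l86 : List Con := (true, [n1,n0,n2,n2,m1,n0,n0,n0,n0,n0,m5]) :: r85

noncomputable def r86 : List Con := (true, [n0,n0,m2,m2,n1,n0,n0,n0,n0,n0,n5]) :: r85

noncomputable def l87 : List Con := (false, [n0,n0,n0,n0,n0,n0,n0,n0,n0,n0,n0,n1,n1,m2,m1]) :: l86

noncomputable def r87 : List Con := (true, [n1,n0,n0,n0,n0,n0,n0,n0,n0,n0,n0,m1,m1,n2,n1]) :: l86

noncomputable def l88 : List Con := (false, [n0,n0,n0,n0,n0,n0,n0,n0,n0,n0,n0,n0,m1,n2,n1]) :: l87

noncomputable def r88 : List Con := (true, [n1,n0,n0,n0,n0,n0,n0,n0,n0,n0,n0,n0,n1,m2,m1]) :: l87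

noncomputable def l89 : List Con := (false, [n0,n0,n0,n0,n0,n0,n0,n0,n0,n0,n0,n0,m1,n2,n1]) :: r86

noncomputable def r89 : List Con := (true, [n1,n0,n0,n0,n0,n0,n0,n0,n0,n0,n0,n0,n1,m2,m1]) :: r86

noncomputable def l90 : List Con := (false, [n0,n0,n0,n0,n0,n0,n0,n0,n0,n0,n0,n1,n1,m2,m1]) :: l89

noncomputable def r90 : List Con := (true, [n1,n0,n0,n0,n0,n0,n0,n0,n0,n0,n0,m1,m1,n2,n1]) :: l89

noncomputable def l91 : List Con := (false, [n0,n0,n0,n0,n0,n0,n0,n0,n0,n0,n0,n0,m1,n2,n1]) :: r84

noncomputable def r91 : List Con := (true, [n1,n0,n0,n0,n0,n0,n0,n0,n0,n0,n0,n0,n1,m2,m1]) :: r84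

noncomputable def l92 : List Con := (false, [n0,n0,n0,n0,n0,n0,n0,n0,n0,n0,n0,n1,n1,m2,m1]) :: r77

noncomputable def r92 : List Con := (true, [n1,n0,n0,n0,n0,n0,n0,n0,n0,n0,n0,m1,m1,n2,n1]) :: r77

noncomputable def l93 : List Con := (false, [n0,n0,n0,n0,n0,n0,n0,n0,n0,n0,n0,n0,m1,n2,n1]) :: l92

noncomputable def r93 : List Con := (true, [n1,n0,n0,n0,n0,n0,n0,n0,n0,n0,n0,n0,n1,m2,m1]) :: l92

noncomputable def l94 : List Con := (true, [n0,n1,n0,n0,n0,n0,n0,n0,n0,n1]) :: r24

noncomputable def r94 : List Con := (true, [n1,m1,n0,n0,n0,n0,n0,n0,n0,m1]) :: r24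

noncomputable def l95 : List Con := (false, [n0,n0,n0,n0,n0,n0,n0,n0,n0,n0,n0,n1,n1,m2,m1]) :: l94

noncomputable def r95 : List Con := (true, [n1,n0,n0,n0,n0,n0,n0,n0,n0,n0,n0,m1,m1,n2,n1]) :: l94

noncomputable def l96 : List Con := (false, [n0,n0,n0,n0,n0,n0,n0,n0,n0,n0,n0,n0,m1,n2,n1]) :: l95

noncomputable def r96 : List Con := (true, [n1,n0,n0,n0,n0,n0,n0,n0,n0,n0,n0,n0,n1,m2,m1]) :: l95

noncomputable def l97 : List Con := (true, [n1,n0,n4,n4,m2,n0,n0,n0,n0,n0,m7]) :: r94

noncomputable def r97 : List Con := (true, [n0,n0,m4,m4,n2,n0,n0,n0,n0,n0,n7]) :: r94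

noncomputable def l98 : List Con := (false, [n0,n0,n0,n1,n0,n0,m1,m1,n2,n2,n0,n0,m1,n2]) :: l97

noncomputable def r98 : List Con := (false, [n0,n0,n0,m1,n0,n0,n1,n1,m2,m2,n0,n0,n1,m2]) :: l97

noncomputable def l99 : List Con := (false, [n0,n0,n0,m2,n0,n0,n1,n1,m2,m2,n0,n0,n1,m2]) :: l98

noncomputable def r99 : List Con := (false, [n0,n0,n0,n2,n0,n0,m1,m1,n2,n2,n0,n0,m1,n2]) :: l98

noncomputable def l100 : List Con := (true, [n0,n1,n2,n1,m1,n0,n0,m1,n0,n2]) :: l99

noncomputable def r100 : List Con := (true, [n1,m1,m2,m1,n1,n0,n0,n1,n0,m2]) :: l99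

noncomputable def l101 : List Con := (true, [n1,n0,m4,m4,n2,n0,n0,n0,n0,n0,n7]) :: r100

noncomputable def r101 : List Con := (true, [n0,n0,n4,n4,m2,n0,n0,n0,n0,n0,m7]) :: r100

noncomputable def l102 : List Con := (false, [n0,n0,n0,n0,n0,n0,n0,n0,n0,n0,n0,n0,m1,n2,n1]) :: r101

noncomputable def r102 : List Con := (true, [n1,n0,n0,n0,n0,n0,n0,n0,n0,n0,n0,n0,n1,m2,m1]) :: r101

noncomputable def l103 : List Con := (false, [n0,n0,n0,n0,n0,n0,n0,n0,n0,n0,n0,n0,n1,m2,m1]) :: r102

noncomputable def r103 : List Con := (true, [n1,n0,n0,n0,n0,n0,n0,n0,n0,n0,n0,n0,m1,n2,n1]) :: r102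

noncomputable def l104 : List Con := (true, [n1,n0,m4,m4,n2,n0,n0,n0,n0,n0,n7]) :: r99

noncomputable def r104 : List Con := (true, [n0,n0,n4,n4,m2,n0,n0,n0,n0,n0,m7]) :: r99

noncomputable def l105 : List Con := (false, [n0,n0,n0,n0,n0,n0,n0,n0,n0,n0,n0,n0,m1,n2,n1]) :: r104

noncomputable def r105 : List Con := (true, [n1,n0,n0,n0,n0,n0,n0,n0,n0,n0,n0,n0,n1,m2,m1]) :: r104

noncomputable def l106 : List Con := (false, [n0,n0,n0,n0,n0,n0,n0,n0,n0,n0,n0,n1,n1,m2,m1]) :: l105

noncomputable def r106 : List Con := (true, [n1,n0,n0,n0,n0,n0,n0,n0,n0,n0,n0,m1,m1,n2,n1]) :: l105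

noncomputable def l107 : List Con := (true, [n1,n0,m2,m2,n1,n0,n0,n0,n0,n0,n7]) :: r97

noncomputable def r107 : List Con := (true, [n0,n0,n2,n2,m1,n0,n0,n0,n0,n0,m7]) :: r97

noncomputable def l108 : List Con := (true, [n1,n0,n2,n2,m1,n0,n0,n0,n0,n0,m7]) :: l107

noncomputable def r108 : List Con := (true, [n0,n0,m2,m2,n1,n0,n0,n0,n0,n0,n7]) :: l107

noncomputable def l109 : List Con := (true, [n0,n0,m2,n0,n1,m9]) :: l108

noncomputable def r109 : List Con := (true, [n1,n0,n2,n0,m1,n9]) :: l108

noncomputable def l110 : List Con := (false, [n0,n0,n0,n0,n0,n0,n0,n0,n0,n0,n0,n1,n1,m2,m1]) :: r109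

noncomputable def r110 : List Con := (true, [n1,n0,n0,n0,n0,n0,n0,n0,n0,n0,n0,m1,m1,n2,n1]) :: r109

noncomputable def l111 : List Con := (false, [n0,n0,n0,n0,n0,n0,n0,n0,n0,n0,n0,n0,m1,n2,n1]) :: l110

noncomputable def r111 : List Con := (true, [n1,n0,n0,n0,n0,n0,n0,n0,n0,n0,n0,n0,n1,m2,m1]) :: l110

noncomputable def l112 : List Con := (true, [n0,n0,n2,n0,m1,n9]) :: r111

noncomputable def r112 : List Con := (true, [n1,n0,m2,n0,n1,m9]) :: r111

noncomputable def l113 : List Con := (false, [n0,n0,n0,n0,n0,n0,n0,n0,n0,n0,n0,n0,n1,m2,m1]) :: r112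

noncomputable def r113 : List Con := (true, [n1,n0,n0,n0,n0,n0,n0,n0,n0,n0,n0,n0,m1,n2,n1]) :: r112

noncomputable def l114 : List Con := (false, [n0,n0,n0,n0,n0,n0,m1,m1,n2,n2,n0,n0,m1,n2]) :: r108

noncomputable def r114 : List Con := (false, [n0,n0,n0,n0,n0,n0,n1,n1,m2,m2,n0,n0,n1,m2]) :: r108

noncomputable def l115 : List Con := (false, [n0,n0,n0,n0,n0,n0,m1,n0,n2,n0,n0,n0,m1,n2]) :: l114

noncomputable def r115 : List Con := (false, [n0,n0,n0,n0,n0,n0,n1,n0,m2,n0,n0,n0,n1,m2]) :: l114

noncomputable def l116 : List Con := (false, [n0,n0,n0,n0,n0,n0,n0,n0,n0,n0,n0,m1,m1,n2,n1]) :: l115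

noncomputable def r116 : List Con := (true, [n1,n0,n0,n0,n0,n0,n0,n0,n0,n0,n0,n1,n1,m2,m1]) :: l115

noncomputable def l117 : List Con := (false, [n0,n0,n0,n0,n0,n0,n0,n0,n0,n0,n0,n1,n1,m2,m1]) :: r116

noncomputable def r117 : List Con := (true, [n1,n0,n0,n0,n0,n0,n0,n0,n0,n0,n0,m1,m1,n2,n1]) :: r116

noncomputable def l118 : List Con := (false, [n0,n0,n0,n0,n0,n0,n0,n0,n0,n0,n0,n0,m1,n2,n1]) :: r115

noncomputable def r118 : List Con := (true, [n1,n0,n0,n0,n0,n0,n0,n0,n0,n0,n0,n0,n1,m2,m1]) :: r115

noncomputable def l119 : List Con := (true, [n1,n0,n3,n3,m1,n0,n0,n2]) :: r107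

noncomputable def r119 : List Con := (true, [n0,n0,m3,m3,n1,n0,n0,m2]) :: r107

noncomputable def l120 : List Con := (false, [n0,n0,n0,n0,n0,n0,n0,n0,n0,n0,n0,n1,n1,m2,m1]) :: l119

noncomputable def r120 : List Con := (true, [n1,n0,n0,n0,n0,n0,n0,n0,n0,n0,n0,m1,m1,n2,n1]) :: l119

noncomputable def l121 : List Con := (false, [n0,n0,n0,n0,n0,n0,n0,n0,n0,n0,n0,n0,m1,n2,n1]) :: l120

noncomputable def r121 : List Con := (true, [n1,n0,n0,n0,n0,n0,n0,n0,n0,n0,n0,n0,n1,m2,m1]) :: l120

noncomputable def l122 : List Con := (true, [n1,n1,n0,m1,n0,n0,n0,n1,n0,m1]) :: r119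

noncomputable def r122 : List Con := (true, [n0,m1,n0,n1,n0,n0,n0,m1,n0,n1]) :: r119

noncomputable def l123 : List Con := (false, [n0,n0,n0,m1,n0,n0,n1,n1,m2,m2,n0,n0,n1,m2]) :: l122

noncomputable def r123 : List Con := (false, [n0,n0,n0,n1,n0,n0,m1,m1,n2,n2,n0,n0,m1,n2]) :: l122

noncomputable def l124 : List Con := (true, [n1,n0,n1,n1,n0,n0,n0,n2,n0,n1,n1]) :: l123

noncomputable def r124 : List Con := (true, [n0,n0,m1,m1,n0,n0,n0,m2,n0,m1,m1]) :: l123

noncomputable def l125 : List Con := (true, [n1,n0,m1,m1,n0,n0,n0,m2,n0,m1,m1]) :: l124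

noncomputable def r125 : List Con := (true, [n0,n0,n1,n1,n0,n0,n0,n2,n0,n1,n1]) :: l124

noncomputable def l126 : List Con := (false, [n0,n0,n0,n0,n0,n0,n0,n0,n0,n0,n0,n0,n1,m2,m1]) :: r125

noncomputable def r126 : List Con := (true, [n1,n0,n0,n0,n0,n0,n0,n0,n0,n0,n0,n0,m1,n2,n1]) :: r125

noncomputable def l127 : List Con := (false, [n0,n0,n0,n0,n0,n0,n0,n0,n0,n0,n0,n1,n1,m2,m1]) :: r126

noncomputable def r127 : List Con := (true, [n1,n0,n0,n0,n0,n0,n0,n0,n0,n0,n0,m1,m1,n2,n1]) :: r126

noncomputable def l128 : List Con := (false, [n0,n0,n0,n0,n0,n0,n0,n0,n0,n0,n0,n0,m1,n2,n1]) :: l127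

noncomputable def r128 : List Con := (true, [n1,n0,n0,n0,n0,n0,n0,n0,n0,n0,n0,n0,n1,m2,m1]) :: l127

noncomputable def l129 : List Con := (true, [n1,n0,n1,n1,n0,n0,n0,n2,n0,n1,m1]) :: r124

noncomputable def r129 : List Con := (true, [n0,n0,m1,m1,n0,n0,n0,m2,n0,m1,n1]) :: r124

noncomputable def l130 : List Con := (false, [n0,n0,n0,n0,n0,n0,n0,n0,n0,n0,n0,n1,n1,m2,m1]) :: l129

noncomputable def r130 : List Con := (true, [n1,n0,n0,n0,n0,n0,n0,n0,n0,n0,n0,m1,m1,n2,n1]) :: l129

noncomputable def l131 : List Con := (false, [n0,n0,n0,n0,n0,n0,n0,n0,n0,n0,n0,n0,m1,n2,n1]) :: l130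

noncomputable def r131 : List Con := (true, [n1,n0,n0,n0,n0,n0,n0,n0,n0,n0,n0,n0,n1,m2,m1]) :: l130

noncomputable def l132 : List Con := (false, [n0,n0,n0,n0,n0,n0,n0,n0,n0,n0,n0,n0,m1,n2,n1]) :: r129

noncomputable def r132 : List Con := (true, [n1,n0,n0,n0,n0,n0,n0,n0,n0,n0,n0,n0,n1,m2,m1]) :: r129

noncomputable def l133 : List Con := (false, [n0,n0,n0,n0,n0,n0,n0,n0,n0,n0,n0,n1,n1,m2,m1]) :: l132

noncomputable def r133 : List Con := (true, [n1,n0,n0,n0,n0,n0,n0,n0,n0,n0,n0,m1,m1,n2,n1]) :: l132

noncomputable def l134 : List Con := (false, [n0,n0,n0,n0,n0,n0,n0,n0,n0,n0,n0,n0,n1,m2,m1]) :: r132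

noncomputable def r134 : List Con := (true, [n1,n0,n0,n0,n0,n0,n0,n0,n0,n0,n0,n0,m1,n2,n1]) :: r132

noncomputable def l135 : List Con := (true, [n1,n0,n1,n1,n0,n0,n0,n2,n0,n1,n1]) :: r123

noncomputable def r135 : List Con := (true, [n0,n0,m1,m1,n0,n0,n0,m2,n0,m1,m1]) :: r123

noncomputable def l136 : List Con := (true, [n1,n0,m1,m1,n0,n0,n0,m2,n0,m1,m1]) :: l135

noncomputable def r136 : List Con := (true, [n0,n0,n1,n1,n0,n0,n0,n2,n0,n1,n1]) :: l135

noncomputable def l137 : List Con := (false, [n0,n0,n0,n0,n0,n0,n0,n0,n0,n0,n0,n1,n1,m2,m1]) :: r136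

noncomputable def r137 : List Con := (true, [n1,n0,n0,n0,n0,n0,n0,n0,n0,n0,n0,m1,m1,n2,n1]) :: r136

noncomputable def l138 : List Con := (false, [n0,n0,n0,n0,n0,n0,n0,n0,n0,n0,n0,n1,n1,m2,m1]) :: r135

noncomputable def r138 : List Con := (true, [n1,n0,n0,n0,n0,n0,n0,n0,n0,n0,n0,m1,m1,n2,n1]) :: r135

noncomputable def l139 : List Con := (false, [n0,n0,n0,n0,n0,n0,n0,n0,n0,n0,n0,m1,m1,n2,n1]) :: r138

noncomputable def r139 : List Con := (true, [n1,n0,n0,n0,n0,n0,n0,n0,n0,n0,n0,n1,n1,m2,m1]) :: r138

noncomputable def l140 : List Con := (false, [n0,n0,n0,m1,n0,n0,n1,n1,m2,m2,n0,n0,n1,m2]) :: r122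

noncomputable def r140 : List Con := (false, [n0,n0,n0,n1,n0,n0,m1,m1,n2,n2,n0,n0,m1,n2]) :: r122

noncomputable def l141 : List Con := (true, [n0,n0,m2,n0,n1,m7]) :: l140

noncomputable def r141 : List Con := (true, [n1,n0,n2,n0,m1,n7]) :: l140

noncomputable def l142 : List Con := (true, [n1,n0,n1,n1,n0,n0,n0,n2,n0,n1]) :: l141

noncomputable def r142 : List Con := (true, [n0,n0,m1,m1,n0,n0,n0,m2,n0,m1]) :: l141

noncomputable def l143 : List Con := (false, [n0,n0,n0,n0,n0,n0,n0,n0,n0,n0,n0,n0,m1,n2,n1]) :: l142

noncomputable def r143 : List Con := (true, [n1,n0,n0,n0,n0,n0,n0,n0,n0,n0,n0,n0,n1,m2,m1]) :: l142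

noncomputable def l144 : List Con := (true, [n1,n0,n1,n1,n0,n0,n0,n2,n0,n1,m1]) :: r142

noncomputable def r144 : List Con := (true, [n0,n0,m1,m1,n0,n0,n0,m2,n0,m1,n1]) :: r142

noncomputable def l145 : List Con := (true, [n1,n0,m1,m1,n0,n0,n0,m2,n0,m1,n1]) :: l144

noncomputable def r145 : List Con := (true, [n0,n0,n1,n1,n0,n0,n0,n2,n0,n1,m1]) :: l144

noncomputable def l146 : List Con := (false, [n0,n0,n0,n0,n0,n0,n0,n0,n0,n0,n0,n0,m1,n2,n1]) :: r145

noncomputable def r146 : List Con := (true, [n1,n0,n0,n0,n0,n0,n0,n0,n0,n0,n0,n0,n1,m2,m1]) :: r145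

noncomputable def l147 : List Con := (false, [n0,n0,n0,n0,n0,n0,n0,n0,n0,n0,n0,n0,n1,m2,m1]) :: r146

noncomputable def r147 : List Con := (true, [n1,n0,n0,n0,n0,n0,n0,n0,n0,n0,n0,n0,m1,n2,n1]) :: r146

noncomputable def l148 : List Con := (true, [n1,n0,m1,m1,n1,n0,n0,n2,n0,n2]) :: r144

noncomputable def r148 : List Con := (true, [n0,n0,n1,n1,m1,n0,n0,m2,n0,m2]) :: r144

noncomputable def l149 : List Con := (true, [n1,n0,n1,n1,m1,n0,n0,m2,n0,m2]) :: l148

noncomputable def r149 : List Con := (true, [n0,n0,m1,m1,n1,n0,n0,n2,n0,n2]) :: l148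

noncomputable def l150 : List Con := (false, [n0,n0,n0,n0,n0,n0,n0,n0,n0,n0,n0,n0,m1,n2,n1]) :: r149

noncomputable def r150 : List Con := (true, [n1,n0,n0,n0,n0,n0,n0,n0,n0,n0,n0,n0,n1,m2,m1]) :: r149

noncomputable def l151 : List Con := (false, [n0,n0,n0,n0,n0,n0,n0,n0,n0,n0,n0,n0,n1,m2,m1]) :: r150

noncomputable def r151 : List Con := (true, [n1,n0,n0,n0,n0,n0,n0,n0,n0,n0,n0,n0,m1,n2,n1]) :: r150

noncomputable def l152 : List Con := (false, [n0,n0,n0,n0,n0,n0,n0,n0,n0,n0,n0,n0,n1,m2,m1]) :: r148

noncomputable def r152 : List Con := (true, [n1,n0,n0,n0,n0,n0,n0,n0,n0,n0,n0,n0,m1,n2,n1]) :: r148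

noncomputable def l153 : List Con := (false, [n0,n0,n0,n0,n0,n0,n0,n0,n0,n0,n0,n0,m1,n2,n1]) :: r152

noncomputable def r153 : List Con := (true, [n1,n0,n0,n0,n0,n0,n0,n0,n0,n0,n0,n0,n1,m2,m1]) :: r152

noncomputable def l154 : List Con := (false, [n0,n0,n0,n0,n0,n0,n0,n0,n0,n0,n0,n0,m1,n2,n1]) :: r141

noncomputable def r154 : List Con := (true, [n1,n0,n0,n0,n0,n0,n0,n0,n0,n0,n0,n0,n1,m2,m1]) :: r141

noncomputable def l155 : List Con := (true, [n0,n0,m2,n0,n1,m7]) :: r140

noncomputable def r155 : List Con := (true, [n1,n0,n2,n0,m1,n7]) :: r140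

noncomputable def l156 : List Con := (true, [n1,n0,n1,n1,n0,n0,n0,n2,n0,n1,n1]) :: l155

noncomputable def r156 : List Con := (true, [n0,n0,m1,m1,n0,n0,n0,m2,n0,m1,m1]) :: l155

noncomputable def l157 : List Con := (true, [n1,n0,m1,m1,n0,n0,n0,m2,n0,m1,m1]) :: l156

noncomputable def r157 : List Con := (true, [n0,n0,n1,n1,n0,n0,n0,n2,n0,n1,n1]) :: l156

noncomputable def l158 : List Con := (false, [n0,n0,n0,n0,n0,n0,n0,n0,n0,n0,n0,n0,n1,m2,m1]) :: r157

noncomputable def r158 : List Con := (true, [n1,n0,n0,n0,n0,n0,n0,n0,n0,n0,n0,n0,m1,n2,n1]) :: r157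

noncomputable def l159 : List Con := (false, [n0,n0,n0,n0,n0,n0,n0,n0,n0,n0,n0,n1,n1,m2,m1]) :: r158

noncomputable def r159 : List Con := (true, [n1,n0,n0,n0,n0,n0,n0,n0,n0,n0,n0,m1,m1,n2,n1]) :: r158

noncomputable def l160 : List Con := (false, [n0,n0,n0,n0,n0,n0,n0,n0,n0,n0,n0,n0,m1,n2,n1]) :: l159

noncomputable def r160 : List Con := (true, [n1,n0,n0,n0,n0,n0,n0,n0,n0,n0,n0,n0,n1,m2,m1]) :: l159

noncomputable def l161 : List Con := (true, [n1,n0,m2,m2,n1,n0,n0,n0,n0,n0,n5]) :: r156

noncomputable def r161 : List Con := (true, [n0,n0,n2,n2,m1,n0,n0,n0,n0,n0,m5]) :: r156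

noncomputable def l162 : List Con := (true, [n1,n0,m1,m1,n1,n0,n0,n2,n0,n2]) :: l161

noncomputable def r162 : List Con := (true, [n0,n0,n1,n1,m1,n0,n0,m2,n0,m2]) :: l161

noncomputable def l163 : List Con := (false, [n0,n0,n0,n0,n0,n0,n0,n0,n0,n0,n0,n1,n1,m2,m1]) :: l162

noncomputable def r163 : List Con := (true, [n1,n0,n0,n0,n0,n0,n0,n0,n0,n0,n0,m1,m1,n2,n1]) :: l162

noncomputable def l164 : List Con := (false, [n0,n0,n0,n0,n0,n0,n0,n0,n0,n0,n0,n0,m1,n2,n1]) :: l163

noncomputable def r164 : List Con := (true, [n1,n0,n0,n0,n0,n0,n0,n0,n0,n0,n0,n0,n1,m2,m1]) :: l163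

noncomputable def l165 : List Con := (true, [n1,n0,n2,n2,m1,n0,n0,n0,n0,n0,m5]) :: r162

noncomputable def r165 : List Con := (true, [n0,n0,m2,m2,n1,n0,n0,n0,n0,n0,n5]) :: r162

noncomputable def l166 : List Con := (false, [n0,n0,n0,n0,n0,n0,n0,n0,n0,n0,n0,n0,m1,n2,n1]) :: r165

noncomputable def r166 : List Con := (true, [n1,n0,n0,n0,n0,n0,n0,n0,n0,n0,n0,n0,n1,m2,m1]) :: r165

noncomputable def l167 : List Con := (false, [n0,n0,n0,n0,n0,n0,n0,n0,n0,n0,n0,n1,n1,m2,m1]) :: l166

noncomputable def r167 : List Con := (true, [n1,n0,n0,n0,n0,n0,n0,n0,n0,n0,n0,m1,m1,n2,n1]) :: l166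

noncomputable def l168 : List Con := (false, [n0,n0,n0,n0,n0,n0,n0,n0,n0,n0,n0,n0,n1,m2,m1]) :: r166

noncomputable def r168 : List Con := (true, [n1,n0,n0,n0,n0,n0,n0,n0,n0,n0,n0,n0,m1,n2,n1]) :: r166

noncomputable def l169 : List Con := (false, [n0,n0,n0,n0,n0,n0,n0,n0,n0,n0,n0,n1,n1,m2,m1]) :: r161

noncomputable def r169 : List Con := (true, [n1,n0,n0,n0,n0,n0,n0,n0,n0,n0,n0,m1,m1,n2,n1]) :: r161

noncomputable def l170 : List Con := (false, [n0,n0,n0,n0,n0,n0,n0,n0,n0,n0,n0,n0,m1,n2,n1]) :: l169

noncomputable def r170 : List Con := (true, [n1,n0,n0,n0,n0,n0,n0,n0,n0,n0,n0,n0,n1,m2,m1]) :: l169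

noncomputable def l171 : List Con := (false, [n0,n0,n0,n0,n0,n0,n0,n0,n0,n0,n0,n0,n1,m2,m1]) :: r170

noncomputable def r171 : List Con := (true, [n1,n0,n0,n0,n0,n0,n0,n0,n0,n0,n0,n0,m1,n2,n1]) :: r170

noncomputable def l172 : List Con := (false, [n0,n0,n0,n0,n0,n0,n0,n0,n0,n0,n0,n0,m1,n2,n1]) :: r155

noncomputable def r172 : List Con := (true, [n1,n0,n0,n0,n0,n0,n0,n0,n0,n0,n0,n0,n1,m2,m1]) :: r155

noncomputable def l173 : List Con := (false, [n0,n0,n0,n0,n0,n0,n0,n0,n0,n0,n0,n1,n1,m2,m1]) :: l172

noncomputable def r173 : List Con := (true, [n1,n0,n0,n0,n0,n0,n0,n0,n0,n0,n0,m1,m1,n2,n1]) :: l172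

noncomputable def l174 : List Con := (true, [n1,n0,n2,n2,m1,n0,n0,m1,n0,n1,m1]) :: r22

noncomputable def r174 : List Con := (true, [n0,n0,m2,m2,n1,n0,n0,n1,n0,m1,n1]) :: r22

noncomputable def l175 : List Con := (true, [n1,n0,n0,n0,n0,n0,n0,m1,n0,n2]) :: r174

noncomputable def r175 : List Con := (true, [n0,n0,n0,n0,n0,n0,n0,n1,n0,m2]) :: r174

noncomputable def l176 : List Con := (true, [n1,n0,n0,n0,n0,n0,n0,n1,n0,m2]) :: l175

noncomputable def r176 : List Con := (true, [n0,n0,n0,n0,n0,n0,n0,m1,n0,n2]) :: l175

noncomputable def l177 : List Con := (true, [n0,n0,n0,n0,n0,n0,n1,n0,m2]) :: l176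

noncomputable def r177 : List Con := (true, [n1,n0,n0,n0,n0,n0,m1,n0,n2]) :: l176

noncomputable def l178 : List Con := (true, [n1,n0,n1,n1,n0,n0,n0,n2,n0,n1]) :: r177

noncomputable def r178 : List Con := (true, [n0,n0,m1,m1,n0,n0,n0,m2,n0,m1]) :: r177

noncomputable def l179 : List Con := (true, [n1,n0,m1,m1,n0,n0,n0,m2,n0,m1]) :: l178

noncomputable def r179 : List Con := (true, [n0,n0,n1,n1,n0,n0,n0,n2,n0,n1]) :: l178

noncomputable def l180 : List Con := (true, [n0,n0,n0,n0,n0,n0,m1,n0,n2]) :: r179

noncomputable def r180 : List Con := (true, [n1,n0,n0,n0,n0,n0,n1,n0,m2]) :: r179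

noncomputable def l181 : List Con := (true, [n1,m1,m2,m2,n1,n0,n0,n1,n0,m2]) :: r180

noncomputable def r181 : List Con := (true, [n0,n1,n2,n2,m1,n0,n0,m1,n0,n2]) :: r180

noncomputable def l182 : List Con := (false, [n0,n0,n0,n0,n0,n0,n0,n0,n0,n0,n0,n0,m1,n2]) :: l181

noncomputable def r182 : List Con := (true, [n1,n0,n0,n0,n0,n0,n0,n0,n0,n0,n0,n0,n1,m2]) :: l181

noncomputable def l183 : List Con := (false, [n0,n0,n0,n0,n0,n0,n0,n0,n0,n0,n0,n0,n1,m2]) :: r182

noncomputable def r183 : List Con := (true, [n1,n0,n0,n0,n0,n0,n0,n0,n0,n0,n0,n0,m1,n2]) :: r182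

noncomputable def l184 : List Con := (false, [n0,n0,n0,n0,n0,n0,n0,n0,n0,n0,n0,n0,n1,m2]) :: r181

noncomputable def r184 : List Con := (true, [n1,n0,n0,n0,n0,n0,n0,n0,n0,n0,n0,n0,m1,n2]) :: r181

noncomputable def l185 : List Con := (true, [n0,n0,n0,n0,n0,n0,m1,n0,n2]) :: r178

noncomputable def r185 : List Con := (true, [n1,n0,n0,n0,n0,n0,n1,n0,m2]) :: r178

noncomputable def l186 : List Con := (true, [n0,n1,n0,n0,n0,n0,n0,n0,n0,n1]) :: r185

noncomputable def r186 : List Con := (true, [n1,m1,n0,n0,n0,n0,n0,n0,n0,m1]) :: r185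

noncomputable def l187 : List Con := (false, [n0,m1,n0,n1,n0,n0,m1,m1,n0,n0,n0,n1,m1]) :: l186

noncomputable def r187 : List Con := (false, [n0,n1,n0,m1,n0,n0,n1,n1,n0,n0,n0,m1,n1]) :: l186

noncomputable def l188 : List Con := (true, [n1,n0,n1,n1,n0,n0,n0,n2,n0,n0,n2]) :: r187

noncomputable def r188 : List Con := (true, [n0,n0,m1,m1,n0,n0,n0,m2,n0,n0,m2]) :: r187

noncomputable def l189 : List Con := (true, [n1,n0,m1,m1,n0,n0,n0,m2,n0,n0,m2]) :: l188

noncomputable def r189 : List Con := (true, [n0,n0,n1,n1,n0,n0,n0,n2,n0,n0,n2]) :: l188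

noncomputable def l190 : List Con := (true, [n1,n0,n1,n1,n0,n0,n0,n2,n0,n1,m1]) :: r189

noncomputable def r190 : List Con := (true, [n0,n0,m1,m1,n0,n0,n0,m2,n0,m1,n1]) :: r189

noncomputable def l191 : List Con := (true, [n1,n0,m1,m1,n0,n0,n0,m2,n0,m1,n1]) :: l190

noncomputable def r191 : List Con := (true, [n0,n0,n1,n1,n0,n0,n0,n2,n0,n1,m1]) :: l190

noncomputable def l192 : List Con := (false, [n0,n0,n0,n0,n0,n0,n0,n0,n0,n0,n0,n0,n1,m2]) :: r191

noncomputable def r192 : List Con := (true, [n1,n0,n0,n0,n0,n0,n0,n0,n0,n0,n0,n0,m1,n2]) :: r191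

noncomputable def l193 : List Con := (false, [n0,n0,n0,n0,n0,n0,n0,n0,n0,n0,n0,n0,m1,n2]) :: r192

noncomputable def r193 : List Con := (true, [n1,n0,n0,n0,n0,n0,n0,n0,n0,n0,n0,n0,n1,m2]) :: r192

noncomputable def l194 : List Con := (true, [n1,n0,m1,m1,n1,n0,n0,n2,n0,n2]) :: r190

noncomputable def r194 : List Con := (true, [n0,n0,n1,n1,m1,n0,n0,m2,n0,m2]) :: r190

noncomputable def l195 : List Con := (true, [n1,n0,n1,n1,m1,n0,n0,m2,n0,m2]) :: l194

noncomputable def r195 : List Con := (true, [n0,n0,m1,m1,n1,n0,n0,n2,n0,n2]) :: l194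

noncomputable def l196 : List Con := (true, [n1,n0,m2,m2,n1,n0,n0,n1,n0,n0,m2]) :: r195

noncomputable def r196 : List Con := (true, [n0,n0,n2,n2,m1,n0,n0,m1,n0,n0,n2]) :: r195

noncomputable def l197 : List Con := (true, [n1,n0,n2,n2,m1,n0,n0,m1,n0,n0,n2]) :: l196

noncomputable def r197 : List Con := (true, [n0,n0,m2,m2,n1,n0,n0,n1,n0,n0,m2]) :: l196

noncomputable def l198 : List Con := (false, [n0,n0,n0,n0,n0,n0,n0,n0,n0,n0,n0,n0,m1,n2]) :: r197

noncomputable def r198 : List Con := (true, [n1,n0,n0,n0,n0,n0,n0,n0,n0,n0,n0,n0,n1,m2]) :: r197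

noncomputable def l199 : List Con := (false, [n0,n0,n0,n0,n0,n0,n0,n0,n0,n0,n0,n0,n1,m2]) :: r198

noncomputable def r199 : List Con := (true, [n1,n0,n0,n0,n0,n0,n0,n0,n0,n0,n0,n0,m1,n2]) :: r198

noncomputable def l200 : List Con := (false, [n0,n0,n0,n0,n0,n0,n0,n0,n0,n0,n0,n0,m1,n2]) :: r196

noncomputable def r200 : List Con := (true, [n1,n0,n0,n0,n0,n0,n0,n0,n0,n0,n0,n0,n1,m2]) :: r196

noncomputable def l201 : List Con := (false, [n0,n0,n0,n0,n0,n0,n0,n0,n0,n0,n0,n0,n1,m2]) :: r200

noncomputable def r201 : List Con := (true, [n1,n0,n0,n0,n0,n0,n0,n0,n0,n0,n0,n0,m1,n2]) :: r200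

noncomputable def l202 : List Con := (false, [n0,n0,n0,n0,n0,n0,n0,n0,n0,n0,n0,n0,m1,n2]) :: r194

noncomputable def r202 : List Con := (true, [n1,n0,n0,n0,n0,n0,n0,n0,n0,n0,n0,n0,n1,m2]) :: r194

noncomputable def l203 : List Con := (false, [n0,n0,n0,n0,n0,n0,n0,n0,n0,n0,n0,n0,n1,m2]) :: r202

noncomputable def r203 : List Con := (true, [n1,n0,n0,n0,n0,n0,n0,n0,n0,n0,n0,n0,m1,n2]) :: r202

noncomputable def l204 : List Con := (false, [n0,n0,n0,n0,n0,n0,n0,n0,n0,n0,n0,n0,m1,n2]) :: r188

noncomputable def r204 : List Con := (true, [n1,n0,n0,n0,n0,n0,n0,n0,n0,n0,n0,n0,n1,m2]) :: r188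

noncomputable def l205 : List Con := (false, [n0,n0,n0,n0,n0,n0,n0,n0,n0,n0,n0,n0,m1,n2]) :: r186

noncomputable def r205 : List Con := (true, [n1,n0,n0,n0,n0,n0,n0,n0,n0,n0,n0,n0,n1,m2]) :: r186

open Helper55.PC in
noncomputable def t0n : Helper55.PC.Ten :=
  (i 2658131512635087328228588059468365833 (n
  14190421877780111585201698470927652533532437511264216101256940011320118917) (s
  9089188782627940521931264130017484373508910528806456676723865361220198766403651208603731537682417122125342971800815180709200661163503245548722492550759530960828101856091006278266059924190886188225654255159674637857496139350240550749348452814502981870439474593772450619717116367249509701625049668093664298535462726249073145205351377700489630794237021961769093940812724503036244922506104320710365513523918350045150679210446417302153528040666512297512094028942729118267370305838874122898722953981122544435932312200055678350915732240965948072214414340454069142151289368660315153024405747500206788750021181188626506056385))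

noncomputable def t0 : Tre := Helper55.PC.toT t0n

theorem ok0 : chk K t0 l1 = true :=
  Helper55.PC.chkN_sound K t0n l1 (by decide +kernel)

open Helper55.PC in
noncomputable def t1n : Helper55.PC.Ten :=
  (i 2658131512635086147636967342057062409 (n
  14397475742604120196115547046356278840205692285812594069215494618992742021) (s
  204924910574894055713532438250744981236215446238472542964152714362385428636322483431904706527859909870222113443046992409608896301394332598785962210814972462223854073705010983153133575696761689122008365666649134628205654828631397990807597932027451379988669420962939805146191499984954054936113539094455893505577646368537433229718249672321971242245623147660754929368639001746349231532771817535032153410690327640426914668239056650251845167547431532040803680637052570243346033090863721358663242678179113048771714947885260674144610887589491612701110899187586908147103595762394788990180065988661873794383200416430057822598403077653764995285697))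

noncomputable def t1 : Tre := Helper55.PC.toT t1n

theorem ok1 : chk K t1 l3 = true :=
  Helper55.PC.chkN_sound K t1n l3 (by decide +kernel)

open Helper55.PC in
noncomputable def t2n : Helper55.PC.Ten :=
  (i 178122849317747314073091941676625001449652267 (i 4825668465863993688457222 (n
  3301253493327414342988210918943519619800790239501020722733649541) (s
  381179163774282835642251269690917820882949455654345468081852928980105138835449555531234769291986957477672707396154347378721013201682193390716561153897741354720665948706647797311898110952143584491785100260183180233597353643721395710444288045218062711050603449838254048412805469842247848005145162779171583837276272532987376057781245553277378259310303009976017614818550883499883513736874803184709096959671952545646369724837179929502432857689302132309084115190358523679595168229603645213458885920588359671829234043869475885980874560053744406721010567535472090248955882739039618465841262369622193414432798766499355920818757070190532063771055863609550290958309821317943944226449680187261633))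
  (s
  242183881960477049160159650970945394196051959822357578625893834435873410616591181643510043919034640763570296519299340792531867714830118402233174954682307198792205865648273722344946067849286392182743519700808155229894139920523357212659507355879969662164816533029646410140307628837629611764581244149966506659038810205146581875836888071398131705616539645193956379098868465053118576549960232035127471203799760273434155538543168587566727589553317925014809208666262369630163583361794366255527648101399055509377845287282182964217437268527357489278423652584118934813512238570449759206856323119598149085181628691411919990240980127212769641497281))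

noncomputable def t2 : Tre := Helper55.PC.toT t2n

theorem ok2 : chk K t2 l5 = true :=
  Helper55.PC.chkN_sound K t2n l5 (by decide +kernel)

noncomputable def t3 : Tre :=
  (.N [0,0,1,-2,-2] 0 ⟨0,[(1,0)]⟩ ⟨0,[(3,0)]⟩ (.x 0 ⟨0,[(0,0)]⟩ ⟨14,[(16,29),(7,5),(11,21),(0,5),
  (12,5),(2,19),(9,7),(2,4)]⟩))

theorem ok3 : chk K t3 l7 = true := by decide +kernel

noncomputable def t4 : Tre :=
  (.N [0,1,2,0,2] 0 ⟨0,[(1,0)]⟩ ⟨0,[(0,0)]⟩ (.x (-1) ⟨3,[(25,5),(0,0),(12,0),(21,3),(2,3),(3,1),(4,
  1)]⟩ ⟨3,[(17,2),(31,5),(2,0),(2,1),(16,5),(1,2)]⟩))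

theorem ok4 : chk K t4 l9 = true := by decide +kernel

noncomputable def t5 : Tre :=
  (.N [0,0,1,-2,-2] 0 ⟨0,[(5,0)]⟩ ⟨0,[(7,0)]⟩ (.i 2 ⟨0,[(0,0)]⟩ ⟨0,[(1,0)]⟩))

theorem ok5 : chk K t5 l11 = true := by decide +kernel

open Helper55.PC in
noncomputable def t6n : Helper55.PC.Ten :=
  (s
  94387372652880986332845963807458523396117528878590944009889048839459159451012104019524910830006112167438598977309831304469475144160728882571835018186975214282879997192104281146896883913721286095273840096783653457068159400575452953772819787757138282173226654094136687767674487567356053574793767563801860474321210524520209690655230531699333448043448416576243699387330523231465127839348303874018440824185449650019209201156542324133735923353718123966226012011386578461418620326079479136303498185137753425747610345975287509758230713847456553913854699895759500074857159555370998248904604154799330347550852557001307744945585867355074538793228952690794431169)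

noncomputable def t6 : Tre := Helper55.PC.toT t6n

theorem ok6 : chk K t6 r11 = true :=
  Helper55.PC.chkN_sound K t6n r11 (by decide +kernel)

noncomputable def t7 : Tre :=
  (.N [0,0,1,-2,-2] 0 ⟨0,[(6,0)]⟩ ⟨0,[(8,0)]⟩ (.i 1 ⟨0,[(0,0)]⟩ ⟨0,[(1,0)]⟩))

theorem ok7 : chk K t7 l13 = true := by decide +kernel

open Helper55.PC in
noncomputable def t8n : Helper55.PC.Ten :=
  (s
  99631106687297208047997047883213063708485269125045234588279533940433884246632599198751689758216044224666165156593610774997163682196183542297595826286630646156824573122713027628743292685387265299773121373910376387256334804062910799754319746337193469421115221589740781926948078382015350030801533195159837103497389965909785012634086796175760394196883654716819004964133054171168564835588194621681797844539960989493992465659928587287548296670786041898962642712576791132563305461677139979091516345866680926436894687185803408640776372292739734740976492939356711297445069917590788904883643996080995389766076695616665667830291660682544463207938626669343933121)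

noncomputable def t8 : Tre := Helper55.PC.toT t8n

theorem ok8 : chk K t8 r13 = true :=
  Helper55.PC.chkN_sound K t8n r13 (by decide +kernel)

open Helper55.PC in
noncomputable def t9n : Helper55.PC.Ten :=
  (q
  5067594072270737604791280363056600842815436266107155199679770153743376498621016083449779563064481213414292868274281498726204033047997756785606989342652803297946238990
  (q
  5067597587047139591663454433789810061214193719924106842186780930942297146023498151936107344653200559375316673601818328522548446196811054432599409231703776093393780750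
  (r
  321784578509740011301934381450567273981391248788264757983800709454489298134696606228946570644632419920776575597562079168686207410924241670429883160775000504951630636456908386566059522786629293424421978019453061087563972739630272955458234678644846024668458172199587589829148062790888595901244829504002805766395742414168189003443668330360109714820806018809078391475156961370030308879762774608695259395775864270427044173001402142149731692046451162952337117827631927818863347386352458555026589894743502756232031573768011132757390935566605523018922861717973361449)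
  (q
  5067601101823541578535628504523019279612951173741058484693791708141217793425980220422435126241919905336340478144621666270260195114844706381663710110483486431919603726
  (r
  27669876761693926879821745298482045808026396991903790966006238501612298432890145767156771972140521601099533833419845507355516369981804455730854249276367825685894313447514816374499832188229928692275177574243208824208827958100854969301461910984893137181352250945278923397644988465664699438106175632945610812756097344100081255921243743174088589685839712243700036609496718376141508145561985462953458334785063767565735920149257)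
  (r
  128155510208543127042008040611983839908976722557004097486535022727110583166796426016899226800496498175302578331274347404393476897176402653885255458172189353022857357608155214049381610696260548365524667988977411428639710050436020562883681049701269698065806856389276942689847918562770043506663284383192033059896373481000040586254902273353357376295856564220106986669174890584189388973610427349717195942850954679877336203508598848151306345534417726855861043608658585859440964993561250758951892763457888553)))
  (q 64108132744377415193986374258994644714720752548957839283219165041127658614481148313615 (s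
  64077192925301229924303053122661402180715099924892793650817436671491702180802169070395753061323738185861397074254782050251844935097142713476801829409278578120315746517106380505958079539190332619568952476923580111089745700761430003353750649982069587375159479436851901884550415227164585941168560236070540533902857948996512829697156713122644463908341335049788618025696952969398998610593337720133368709453000899231224774922236473949035083405938766894809012662308647269317122177587923795400709716376027841)
  (n
  657884528544850247035747615754758367079199492979335899209783284408616894173790013665415791501783173)))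

noncomputable def t9 : Tre := Helper55.PC.toT t9n

theorem ok9 : chk K t9 r12 = true :=
  Helper55.PC.chkN_sound K t9n r12 (by decide +kernel)

noncomputable def t10 : Tre :=
  (.N [0,1,2,0,1] 0 ⟨0,[(0,0)]⟩ ⟨0,[(1,0)]⟩ (.x (-1) ⟨3,[(26,7),(0,0),(12,0),(21,1),(2,1),(8,5)]⟩
  ⟨1,[(18,0),(31,1),(2,0),(2,1),(16,1),(1,0)]⟩))

theorem ok10 : chk K t10 l15 = true := by decide +kernel

noncomputable def t11 : Tre :=
  (.N [0,0,1,-2,-2] 0 ⟨0,[(6,0)]⟩ ⟨0,[(8,0)]⟩ (.i 2 ⟨0,[(0,0)]⟩ ⟨0,[(1,0)]⟩))

theorem ok11 : chk K t11 l17 = true := by decide +kernel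

open Helper55.PC in
noncomputable def t12n : Helper55.PC.Ten :=
  (q
  212288150615842148643510622278926387932267926387046962675142977749074073826540864705790891795278402876415068405334297767766235597568503832398020701814592946607836211576846
  (r
  3456976587840556326642011578138308969600444086404459949921716554370686678761149457784678889074706926402439672399655614027805218478780964363432695591223937140385173576472796439851211125091690687959774905083108286526326801270925291354503859477312137091170011469619384911457566393933401936805407888543542599090275240534292864672426739561696617086768190423046492616720053986253696340437988141818646624886394100591045376361575901755548319939320860914255640622557537471711676019895796825470229441772925176470971863761026820735779884815136212482875297951800843180589200281941034594917047966717037006911594828823657334315332176298953754372700598607615475939799862347116589085883677030558912247273125600512015779734631705061474115925933440469565612925141585860111781943812421498626738135755253259268852694189647077665)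
  (s
  126785902776451095959941216168342440047381573019406609382676571312891152418140240264896632216606448733449139943581023559744567606924650633709569793082214436164465531653391425076030174188155829412508405318081443346051387658645050945668466148704229576312396883886553281409721851316235695041548773185764410967802812376442883537291291125424566746953672269233229910193945545710344810782690303507746379244494940062066861794087117816880211489176087605115030061626018363178341289913213883474682172095310283211791572091264405898583458732836007924784843053745157435805442819200692545870675061361142906344370711011801103138943785456680192158855446675116270713067276158871047614034346689))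

noncomputable def t12 : Tre := Helper55.PC.toT t12n

theorem ok12 : chk K t12 r17 = true :=
  Helper55.PC.chkN_sound K t12n r17 (by decide +kernel)

open Helper55.PC in
noncomputable def t13n : Helper55.PC.Ten :=
  (s
  114107331845655582068288140017359440913978003631717930352484452741420356253336248964081119158067708310988907967571382277601905027300815679334186270865250731416782641246805234679508119229643097811728940705169842087893313469288745739007482532694301428024434771117621269218742599360237677026826549024925135047597431529355200930996747882521066171943298337049866926911371735431011583227049909064770932655284941001786916625842641254301840401246483503326750811839695935000872643765645857397397205326602443714257348537878234792306940883611912699408337252763256066501318040725818052193134111171548342771571957286470332508329909114172382379415507530977171584645223232855325391692235457)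

noncomputable def t13 : Tre := Helper55.PC.toT t13n

theorem ok13 : chk K t13 r16 = true :=
  Helper55.PC.chkN_sound K t13n r16 (by decide +kernel)

noncomputable def t14 : Tre :=
  (.N [0,0,1,-2,-2] 0 ⟨0,[(5,0)]⟩ ⟨0,[(7,0)]⟩ (.i 2 ⟨0,[(0,0)]⟩ ⟨0,[(1,0)]⟩))

theorem ok14 : chk K t14 l19 = true := by decide +kernel

open Helper55.PC in
noncomputable def t15n : Helper55.PC.Ten :=
  (s
  32118358573771000687043647902792264646811967478929669433637370388339620229726095290665683220888280219606368723892496985477229798985235857202502244143340937774824271841963900814505923223905379395828609921885443275154139795078176813014471875414965444121322618972328453989532641900940993097762583156931385318430034210223672303565747000511390805457174384832535225252272703329590502344165310972335188888192879129392335393058111298324356825152044732735989755183439347394829626010830421816898519145074207752753826671487902599143917188527204947226378901656491559846284888637569433407346391628885334048307278028152991906670755628684209581763480851783761551926426928262860474971055758562621440131777)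

noncomputable def t15 : Tre := Helper55.PC.toT t15n

theorem ok15 : chk K t15 r19 = true :=
  Helper55.PC.chkN_sound K t15n r19 (by decide +kernel)

open Helper55.PC in
noncomputable def t16n : Helper55.PC.Ten :=
  (q
  5067590557495176876834533350691083519114609938864409064667355802244238139820732848609609251954742411263769145231311547461962843889716255617650090920269118985992273934
  (q
  5067594072271578863706707421424292737513367392681360707174366579443158787223214917095937033543461757224792950558848377258307257038529553264642510809320091781439815694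
  (r
  21088474127394535124995108913571578304820163379655640475411679630902534951949283204254681013583181480658511552412174651509475732230535844475985537482221526506302911542120752027347895940274526057970103484959619477151154191123291783380591590284129886814581387172291741361025158161048705903824933363691433932419780725713275529687044664278916672009287363075379632272278541226994139306355805426848767961909143301543319680682811175652780273090142415328010755399576274533522584845505994319011482992650587620908879219447013156832017855312183072220744354036980603550950185)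
  (q
  5067597587047980850578881492157501955912124846498312349681377356642079434625696985582264815132181103185816755101651715006019005956563205213706811688099802119965638670
  (r
  27669876761693926879821745297783581301853442153182869755159495316247691226488377871493470400205098360420309091337217585330308384246827754253767325601830741884995061122042216451276423022876920161776676251235143430811213859801392661688197456254871147688901109230095375937056821872806072873911060616191744001966264382653119969582763730393476446532869367575714295152673323789551939253953676795535689881695605752567615692481289)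
  (r
  550423515180041899539091113221840642564962734621759751442688150132306689886033721906513047382841547021428949490454204153731931450366922428501003783471850486156549208896055435499576139114216211648110821545360660069859264388028220453982886451157681003702608854100210897602272221799154378233175240062567589723767683722476480091467633507014471777116990932598182333415097343119583391481787113061084220652839336814567373030061891494644571992563893289249642429656081191725449818590462777971430447216046773134279581993)))
  (s
  7478138099836884226427331544177668319738462446008266283580421094862275369051721725807690492984435638675685933115048618022457819268997718547328625029484796855835944907732765093767898155348387073728436912470982465853143960061730255592392908695855121986722650302318779607982261406554679458347044046698504940250660014614629752992226309125476917012865997987833327617463726159436852767681746207803759844098308497030117217551176799929329540385641674091193498208443544085283291511943104180123865081642935968120215814007401241846588293480066980364005055904235526131058367210719532707512203013259786648573071950140643862944340998902109904490163038233948742055040344232329134221681646109377))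

noncomputable def t16 : Tre := Helper55.PC.toT t16n

theorem ok16 : chk K t16 r18 = true :=
  Helper55.PC.chkN_sound K t16n r18 (by decide +kernel)

open Helper55.PC in
noncomputable def t17n : Helper55.PC.Ten :=
  (s
  1257490608500164754320609277962372513449663182915503899131089545991246883875433607376863824941530169032914997767238319210551420802540847277950427332325772422191362636163381830394849352865550943893873466157818533486725854011976222447857571903097479173829638100529469648071743493549449279529296152121993704368371277130170490314569370861236491328077430700138859176556915989142938731746651287360061192307800261967668379410420959937396074204903992377944371954242965356979972772958803347562116836370932731179070182571627383136296631548575032261921469367959356953150705138043233676133091621271497301153883265112986849313097730410127669434694619913718263696568074394609229234881)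

noncomputable def t17 : Tre := Helper55.PC.toT t17n

theorem ok17 : chk K t17 r6 = true :=
  Helper55.PC.chkN_sound K t17n r6 (by decide +kernel)

open Helper55.PC in
noncomputable def t18n : Helper55.PC.Ten :=
  (i 178471309095298242110842906384834020205789227 (n
  63634317122042288820096931667856573006996567536907591080787411976683401349) (q
  2852792942987763170653747952200403599570069489805499008043291109732817498135738999226232512465767833736022310048799405458417576339315961197369004608409503880413751845476589407174670
  (q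
  186960703147822946409438274304356989905181715628397092862882886526645712005731072151015878102555985240307060351931699861475577573450619684677858986280657857575907279313560883568207593486
  (q
  154650322584391425064801430289772083892201029518961630258301584738722625482770031307697845590314268602031380814837585476955220708012188092409977578256506076397582
  (r
  45783649936447274980794867431434320694981179448887153695444630386341330560682777483283322324671854268823975178321359250563220644222176238693194402744970434003878045139676734503242102910087781712419400160092035603242573125550625580576384238218422002451977810908782193037677025578826506517747400710906246848750600206552077861999981125638464208154227292544310868723039904358627814228025224793208136489)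
  (i 178471293144562451148177460211904483338354731 (i
  178384191492454498724532790726023247013478443 (i 2659429586840049628578803650153021449 (n
  219299705961027456158212775672632948166292314367433385999068594843269) (s
  86750435005746659690640355868640251594877187829041598936457695826278148445512540141497004234304814670508648363733581355219804115775762186473806587991409539224063119368743009606337405522813745112938164055577323195305298383308250469084644347336641169013291306506812852645762703518133666523253382466618876692944999818307357739573094476374808763434341507796502840270899172347118108403957450167586054086769281678539517312571690740260200720231668383358571890261745299342878356569650437916417686949651329559726445012532281170894990182188456216202976337890611927091009773055941631135815675097613424727063297507531988022768580242178753))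
  (s
  82412919875093059489448318989524136658289427070566344245886073128357224073768056990083085738268901807167751792182160452680398916705131419378153323636291927061607940748827078460098302972639960716191399657546938432186780602322990764214311182658612723562120542604781946271637404919548222758341535378632440114487091545719300009688847229928888950941571164720746320069037043515926571357935256113875083267955151371484880134631903365602536146062511206456184926077718393240437138664178365216996255856834412659601375919068612931004221465004285713356298608280832287052667526686632720042784305396168605452373163833735872034033374761845441))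
  (s
  18178346740184225907608932375537236621999569775557864819493715285890805465640400964456882151363647762645700764989186904891625446647987852870137444529955814336229293171528529068696155658164097697103434446358010148276875510718979152376105360916841144089580434136463571280421555682614699810675954660502883914599718132285163063243568990535517843922389963207578148455010401490080276756904811681990554922990086094673071262961531561331505505018269293823859908065582660343561137475083403119731324531790787183369594228298834125232872506306604244767069906416945853634424111889030240345061227977948590771197166612118895007367873)))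
  (q
  643696716884877381721236366659468993048582103421399549461776074728335077665262297179587782361441160144747701247785036078672635278072398776310701811543703566
  (r
  700670729389129423215579798472953704508599368437810588743961225083218895343496540965125994481777578957308532462428426441509894506975718026155722868667187488005775473140426590748094458304809716848138464181480694897174701428920996265698146583127385087493253513255035556637536287479324177787558006474256211454416928847689352064614202994955688872271628626367204391300307736513280392682663368205065)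
  (s
  179246880321807735565853993485149768129991231971862316010050298281200357427987615761184248550474439510348109116634420452876609348743436738047775381489211650473783418574475435562717520590226823635510629853147683125231834550291222047222094201605143402529125316519360710560728055968113177059367761750083499882937269706135951023698343676271110820473840140425643668198317388194073077140194312252500682058508769902260251518272259501696982970675343760900140268146978509889394203038557609867188566338457286411215291095080679208957533494129538743918012635579947857417863873)))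
  (i 21791364087376855233848253895861826879530 (r
  24681806388470580628403516262393425065081637402659025503565356898632386172188256219004793713844383604166195001956232612465057143866877547515836873974480479321738522558019411126995459634203750150303233760242229932958742577581135187411173135369993307278274140397972816469930362497905907561149645506565443053482838268215461086777672376122322026713990490375026727010136063995427117916307787700503235909364843699755368315025550587245984595485224905140275220327267884605737)
  (q
  31225491760087793796854162293914531976432812523078421079149067222269495710794211990397121715229595329451346512058595099067501687889336451759531421985542016519670562160654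
  (r
  20416319515470249397494609904397926280467829013787116815992616400760695239785019188136273407794755173465346239957452569336521030518203843173905638258091440872431394823724615162492182587769217690296103176713079591359219160947298300674104819323479094662953727941165163619228981740551026441422896229035250849059163459311231238049913690308242242353478208729431611228994073988324507080745871011373364070762713564450687162496893176956886739272868105)
  (r
  550422885276573079977732912101473367676485759361217719782477595621504231569290869459190642522776993485249168029070641154464150371682986098407569228252327706565931940683969683131588646119342099661757586353951309299298314778798757447199165791415299460756863810226383800593601205231791193895731987978032198504581415934458575174677164314631143822250055784972968675022194550363451735729084339149516896168517058575331920202390541210200055167548789218821882381945681334974965286155877028882863091338165810808920219945)))))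

noncomputable def t18 : Tre := Helper55.PC.toT t18n

theorem ok18 : chk K t18 l21 = true :=
  Helper55.PC.chkN_sound K t18n l21 (by decide +kernel)

noncomputable def t19 : Tre :=
  (.N [0,0,1,-2,-1] 0 ⟨0,[(3,0)]⟩ ⟨0,[(1,0)]⟩ (.x (-1) ⟨9,[(11,12),(12,7),(7,15),(18,3),(5,7),(9,1),
  (0,6),(0,3)]⟩ ⟨0,[(0,0)]⟩))

theorem ok19 : chk K t19 l23 = true := by decide +kernel

open Helper55.PC in
noncomputable def t20n : Helper55.PC.Ten :=
  (q
  42185308040222367060791562190451736324246822791727313881351356780520802364803223602044662147756290962437773277347116380177039044281429800133931120557505833467918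
  (r
  25494400880753733308440672927372948629544547476742846547168177488346776019980678902969236511160520042902479308807873942679006098878860098732108131392499147879332521518078944831846575199090507704885035829630199131583470619707638880172669553180069262616553174232605296846346054753839985551312946085076569193193934737745267700857966943211989128953509465454840042038788519612193971094217208913099264855357284950837510383350720241247554310569893799471906484659436927109520223822539178478682434576097798953241875031282752764798861748438418305631977490728701568261920447235225204305645552263977)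
  (q
  42185308041040714712765597658043759178665588657750609034029356607436029578996143480240668969804404777175416408540147563642840637829828256939243346046125581926414
  (r
  27669876761693926879821745298482045808026396991903790966006238501612298432890145767156771972140521601099533833419845485410685248367227874173007255341213237895741430597103746350012825794279102046426557427770481618970756306351972896393981979211101476759873180604802405399443356990940093744005437622834548329358121296321325229029392523804118366437282342975434461236578497915499291354656776868637096155759022916486893855318793)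
  (r
  550423725147886870450997752597510418089554640207598094442663722971556687276878762832265722435819176225448248837301576105612469989104204141364779529455049207993165923456987352282698316618370548767175133016561674283713062477509216756724974914346781509308710334684013071525632807288616581438982821536476262937307211015652662775021662215194106626066002505196146780508147808621346013197216143300915008574673602663354456094860551517310145575997035863497865260748274972433418038583155798183817935388733179077826191657)))

noncomputable def t20 : Tre := Helper55.PC.toT t20n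

theorem ok20 : chk K t20 l27 = true :=
  Helper55.PC.chkN_sound K t20n l27 (by decide +kernel)

noncomputable def t21 : Tre :=
  (.N [0,-2,0,0,3] (-1) ⟨0,[(0,0)]⟩ ⟨0,[(2,0)]⟩ (.x 0 ⟨4,[(30,1),(12,1),(8,12),(3,1),(2,3),(12,3)]⟩
  ⟨3,[(2,0),(10,2),(18,4),(9,2),(15,0),(6,1),(7,4),(5,1)]⟩))

theorem ok21 : chk K t21 l28 = true := by decide +kernel

noncomputable def t22 : Tre :=
  (.N [0,1,2,0,2] 0 ⟨0,[(0,0)]⟩ ⟨0,[(5,0)]⟩ (.x (-1) ⟨3,[(30,5),(0,0),(12,0),(21,3),(2,3),(3,1),(4,
  1)]⟩ ⟨3,[(22,2),(31,5),(2,0),(2,1),(16,5),(1,2)]⟩))

theorem ok22 : chk K t22 l29 = true := by decide +kernel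

noncomputable def t23 : Tre :=
  (.N [0,0,1,-2,-1] 0 ⟨0,[(12,0)]⟩ ⟨0,[(10,0)]⟩ (.i 1 ⟨0,[(0,0)]⟩ ⟨0,[(1,0)]⟩))

theorem ok23 : chk K t23 l32 = true := by decide +kernel

open Helper55.PC in
noncomputable def t24n : Helper55.PC.Ten :=
  (r
  685982815630259754977654289409448332441235779800436884102126334310231375578059345300347244017086163801562175925284777983687468929109074651892155022294960638774306886484492116914338784920742231925148453430417450243374901851095664197118155153283366346129326375704374310222306987070148948940684185952651355257333982291704684624120632779028295845114964663769182528497177574953094347031884684838501624182259022734832649626929509282629180405714264873)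

noncomputable def t24 : Tre := Helper55.PC.toT t24n

theorem ok24 : chk K t24 r32 = true :=
  Helper55.PC.chkN_sound K t24n r32 (by decide +kernel)

open Helper55.PC in
noncomputable def t25n : Helper55.PC.Ten :=
  (s
  462551825665065823838969072241382590582061523946082552174527207810662869305747516206172780108689409456217469106326350654133607549879570780862224896140775876199752074135251709907203858947704190720321426349938199654738216844082605692609684561830108355116806155243119509783576239769228055592751989640057725951275489898362496684537592033134983136261140758848465857334802095225580793866356504607921100765083500695082919765468994218215885151847490688564307103897528089550466431568572827422164801385051456392334575781922000827590859177190737405942581923884836061889)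

noncomputable def t25 : Tre := Helper55.PC.toT t25n

theorem ok25 : chk K t25 r31 = true :=
  Helper55.PC.chkN_sound K t25n r31 (by decide +kernel)

noncomputable def t26 : Tre :=
  (.N [0,0,1,-2,-1] 0 ⟨0,[(12,0)]⟩ ⟨0,[(10,0)]⟩ (.i 1 ⟨0,[(0,0)]⟩ ⟨0,[(1,0)]⟩))

theorem ok26 : chk K t26 l34 = true := by decide +kernel

open Helper55.PC in
noncomputable def t27n : Helper55.PC.Ten :=
  (r
  10467267082345067776941659576322841569783020940634127325096385929487104805601421938853922518118676127916528824508235042248690343482379460339996107815965372513798815565601570930977498697164815784324901409034569114690675429928386959727367826599687363426406527762164265755435345493848871343095312998538948244014978915178828603258908002785034453370580051422937190684684342260564781696185013279753477076010824955904153302691220132820847159419689)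

noncomputable def t27 : Tre := Helper55.PC.toT t27n

theorem ok27 : chk K t27 r34 = true :=
  Helper55.PC.chkN_sound K t27n r34 (by decide +kernel)

open Helper55.PC in
noncomputable def t28n : Helper55.PC.Ten :=
  (s
  107696239292869768999276932385140701798270811314248142804607564411285377707177799229394399104820206169778235323365855402650563303235332684932311723688345407014885922204242557402924061843403571225316666694035328207926377834774926241400440182063161907654722832105220914571983594327330243586244719808169506039798644875639134999223499769916260749114749802085470066904168259733028099522089623381622190262551209102479396647534160008321474020954397151404993965712042894633577116993420157482339670117731897922443929227137732762878793500008559771294488330945)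

noncomputable def t28 : Tre := Helper55.PC.toT t28n

theorem ok28 : chk K t28 r33 = true :=
  Helper55.PC.chkN_sound K t28n r33 (by decide +kernel)

noncomputable def t29 : Tre :=
  (.N [0,0,1,-2,-1] 0 ⟨0,[(8,0)]⟩ ⟨0,[(6,0)]⟩ (.i 1 ⟨0,[(1,0)]⟩ ⟨0,[(0,0)]⟩))

theorem ok29 : chk K t29 l36 = true := by decide +kernel

open Helper55.PC in
noncomputable def t30n : Helper55.PC.Ten :=
  (q
  42185308041040714712765597658043759178665588657750608956050543641946019948208890153525938818522309433139213197085214523787677886656491368601927061389947797897230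
  (r
  128155510208540213121471941671484575701713315509734396009710215736598005616250018793897636092285379564027223933323510160905302355119123102334765857452694277006506879258952234512219718213755737856884431311213290479489317841435430980240579378053205601360022162835608564311112974526219152898092289602428109766561280925709274323623303119793848882136841618202865839794779808542881195885769400255140636943432308625524038413972057999408698773221149011249279710305063005970820610550147824867363344722906325289)
  (q
  42185308041859062364739633125635782033084354523773904108728543468861247162401810031721945640570423247876856328278245707253479480204889825407239286878567546355726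
  (r
  3009357867990776930622273280748174488397547503141759014268374486301956766696226638074071696354878937184342258279517351416381375197564192707140036115736631270667107690930614623651741455212559853522759571296174789870219553308087137304664357987803024684124583527420659848325276963279675369660853804884089345504899454110318556622314925213110073012226395960777632286185609712408136850181792810955020823700233)
  (q
  42185308042677410016713668593227804887503120389797199261406543295776474376594729909917952462618537062614499459471276890719281073753288282212551512367187294814222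
  (r
  2287044892766809099602955364791291520253945285724653855760607997708814922500151737901933014598430101129918265553886609788649909602742859502178408193477193795528400239771831482729358495259217735267173563044815434879745228243530963017501731810211288332983315118814348264883988419843908884309441597667048832324911178432577795220897565281296775034436442535161917190943864696293164373531810610787427166997698649449069308788392984085458529112071188104635728345471378292012813106173133593354095041522612728210698305054386788624073582360924739734856489)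
  (s
  5838224830492407468238513337696549011837752278100502360526226686381276111550522605909596559511966662266705973943596800570100041301752859989711698462271398946816720767078280081757727906951610208936554504391724821398838544980107759082965307416246929427700536408453372871619159232215603588221252638005028667633999954175864530505076068924459882916652039436804018014038704609606683113765647000360340150773436642864846343144116944734197498196064917935167596764048713304395720145376827266619497572714128744590402009342854862709086749377))))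

noncomputable def t30 : Tre := Helper55.PC.toT t30n

theorem ok30 : chk K t30 r36 = true :=
  Helper55.PC.chkN_sound K t30n r36 (by decide +kernel)

open Helper55.PC in
noncomputable def t31n : Helper55.PC.Ten :=
  (s
  120446617331716607398599868273078825369412076001244523481624934960518529590691957352241331835431435753160392355728719365876022497806408870829418319088132806852066991142360975652235413750906737567611335507673925509068671684031161459939748634524957920726435714830464867284060241971578140231978870702215923786671642472977674935001212830605306422727391114922818728708087489490523556808132861544176128464161440892771231813902510690315038953374018215120362581750515412681775833807716602804541136322903144100973835131343511661924718148912406724910228719958902169343170440342631916693331355672061939019250224179190563823207936713551758461710799326695948509232299525318485127640122049)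

noncomputable def t31 : Tre := Helper55.PC.toT t31n

theorem ok31 : chk K t31 r35 = true :=
  Helper55.PC.chkN_sound K t31n r35 (by decide +kernel)

noncomputable def t32 : Tre :=
  (.N [0,-2,0,0,7] (-1) ⟨0,[(2,0)]⟩ ⟨0,[(1,0)]⟩ (.x 0 ⟨4,[(30,1),(12,1),(8,32),(3,1),(2,3),(12,3)]⟩
  ⟨0,[(0,0)]⟩))

theorem ok32 : chk K t32 l39 = true := by decide +kernel

noncomputable def t33 : Tre :=
  (.N [0,0,1,-2,-1] 0 ⟨0,[(10,0)]⟩ ⟨0,[(8,0)]⟩ (.i 1 ⟨0,[(1,0)]⟩ ⟨0,[(0,0)]⟩))

theorem ok33 : chk K t33 l41 = true := by decide +kernel

open Helper55.PC in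
noncomputable def t34n : Helper55.PC.Ten :=
  (i 4846918826806539530141702 (n
  242317583634648540082155513090562649153440062606793414178268350804790917) (q
  181184518418500025380982720727475398895411878237193732216068008552821800267805886998053321682228524178087960365593860825838440425284884541455288579155309554923138541813774
  (q
  181184518422014801782969592901546132104630276994647549167710515563598999188453289480121808010010112897433921389399188362668236769698033354752935571575198605860749617266702
  (r
  2192233492825152677398194030076335284288271117316265172321322844307456618946652162592146094039210747823124034528756231694085758746821599238373496802828225350949044558373629735372174226526612860274574169415593413829275465493618351431370647992877643901090766497644595121832945264577465922792701278330123123443755811489476016379913225462313080745512635143532265110251031961549785356055187045781446058752632665567366981748756265724884685095447167412478729)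
  (r
  106007915189673566185872322457625813459872594654130696369516106987841395395580457053947808850585346567820720456424086411975187296260455967811013241401527641717658150641332864123407911254892176369424175376679425838908565965720530577907294110345893563960888391612278491828762274949794724419237349351490496529130791211268789152517411742925448180777063508011693671040664326038537649715009881476832499833667962227514554392284283975758562318958711648789546761194470164191475321282857))
  (s
  6092060356990767134911896858856302018206430222459530086189317966911175493907356590951747823133653834492559663476598137557208974328971142896441338775502721427958754999695841349178531590161701559665316683993756589796751504584626907944666030924487424567460283451947198123233542556913434997120246537653987394346277142812174234992472037992001873437164988221409753034611678167139166158432386584121995740162891158747260686748888577364495935252529043379045270714172583740421770225004885250602846105397566974127186058867964620461088703169)))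

noncomputable def t34 : Tre := Helper55.PC.toT t34n

theorem ok34 : chk K t34 r41 = true :=
  Helper55.PC.chkN_sound K t34n r41 (by decide +kernel)

open Helper81.PXd in
noncomputable def t35n : Helper81.PXd.Ten :=
  (k
  599352206324042490982355747447157577704335582865867903439678129425727026341639392864298438974556761860331217721496767668033416347449018809663269071604662500470606546982520108588743045232200230251462355653123468381361198260746122081291730864189730548199809415964563494922198083490660242319614739858909978240622421893277197760595127557058419200649081423081550206237200844228722198892765424711328227385954965064686343890185915947391978248130713951901877577999307576279535059614273685649927931135150656212316250216564050278793698004775046298389735113768)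

noncomputable def t35 : Tre := Helper81.PXd.toT t35n

theorem ok35 : chk K t35 r40 = true :=
  Helper81.PXd.chkN_sound K t35n r40 (by decide +kernel)

open Helper55.PC in
noncomputable def t36n : Helper55.PC.Ten :=
  (r
  12925093624980672146653914012265468503021971591356250225654585198113874218099069942101444868885013460673395397010441939540080496187816215683536579737858598451735627706936433573206724590238420547235975474455305190125411220547926439048997237313301808461323152768760618874824392848796915977466391719342873086495002101381389252226746140037607749113610475377627899585843982490896283804740678040559029932683818908787465)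

noncomputable def t36 : Tre := Helper55.PC.toT t36n

theorem ok36 : chk K t36 l43 = true :=
  Helper55.PC.chkN_sound K t36n l43 (by decide +kernel)

noncomputable def t37 : Tre :=
  (.N [0,1,2,0,2] 0 ⟨0,[(0,0)]⟩ ⟨0,[(6,0)]⟩ (.x (-1) ⟨3,[(31,5),(0,0),(12,0),(21,3),(2,3),(3,1),(4,
  1)]⟩ ⟨3,[(23,2),(31,5),(2,0),(2,1),(16,5),(1,2)]⟩))

theorem ok37 : chk K t37 l44 = true := by decide +kernel

noncomputable def t38 : Tre :=
  (.N [0,1,2,0,1] 0 ⟨0,[(0,0)]⟩ ⟨0,[(1,0)]⟩ (.x (-1) ⟨3,[(33,7),(0,0),(12,0),(21,1),(2,1),(8,5)]⟩
  ⟨1,[(25,0),(31,1),(2,0),(2,1),(16,1),(1,0)]⟩))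

theorem ok38 : chk K t38 l46 = true := by decide +kernel

noncomputable def t39 : Tre :=
  (.N [0,0,1,-2,-1] 0 ⟨0,[(14,0)]⟩ ⟨0,[(12,0)]⟩ (.i 1 ⟨0,[(1,0)]⟩ ⟨0,[(0,0)]⟩))

theorem ok39 : chk K t39 l48 = true := by decide +kernel

open Helper55.PC in
noncomputable def t40n : Helper55.PC.Ten :=
  (s
  5459169867465470144310163466837237323145008891542407911758181864323110467264530517128359133368823439443319840631415444529006911184878344211944975247881707623440283407564032121336056835530377555454709641051015662957292197512815504995037083313326354171736714797703266461697298869949371122235503263468710327213723033277093535848742014010230821963158833310779766538844394763856169539426293045650845329126928590950827516948953114099835908814244539713986462057381080323590691400011679321325959389854293501674177)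

noncomputable def t40 : Tre := Helper55.PC.toT t40n

theorem ok40 : chk K t40 r48 = true :=
  Helper55.PC.chkN_sound K t40n r48 (by decide +kernel)

open Helper55.PC in
noncomputable def t41n : Helper55.PC.Ten :=
  (s
  2418248446172872684430927078518494953623033319186109790739676315093246604588210307679219399674174504630795011251256460675101353232767818965100399298293153842504049461393155233318947638250712956870927609907394152263602336399659230789245765323291818725309451964699097136560239209333047379556754725010518940394876812808505237538157464249940411025153483552312124745899863658148546765369010723758291698408410619778507630165962523989185195676836508540653451915969553576249090780649692509094583369931599966345014510863581210843063639565374383538276995043881150920583197035430376763716356461536938399865899985689165497258869786350322671831703297585894747625872894212521000436417)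

noncomputable def t41 : Tre := Helper55.PC.toT t41n

theorem ok41 : chk K t41 r47 = true :=
  Helper55.PC.chkN_sound K t41n r47 (by decide +kernel)

noncomputable def t42 : Tre :=
  (.N [0,0,1,-2,-1] 0 ⟨0,[(13,0)]⟩ ⟨0,[(11,0)]⟩ (.i 1 ⟨0,[(1,0)]⟩ ⟨0,[(0,0)]⟩))

theorem ok42 : chk K t42 l50 = true := by decide +kernel

open Helper55.PC in
noncomputable def t43n : Helper55.PC.Ten :=
  (s
  7671717380707117955012290515171552728231571179548224115382846279781256728045602679685847305151969524938821772140574382227230791972961523970397096160994662659049479860104103036868095729562344190292763739658248666360421720155666219677177166105642316979008092215652974078065681145245813006334325846362916784662683255419703415128670896285489797342450962750896178450634085143689350315146033360043113536765241108083184926309168604355709119473478281083400404437977608386835413546063869300685486211416493599628217795212074336065243133061576536978018327623369409)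

noncomputable def t43 : Tre := Helper55.PC.toT t43n

theorem ok43 : chk K t43 r50 = true :=
  Helper55.PC.chkN_sound K t43n r50 (by decide +kernel)

open Helper55.PC in
noncomputable def t44n : Helper55.PC.Ten :=
  (s
  2321518626449396168544403162378777904151517225502350151709647096876772177896948447949417285856805719418886755706174970902356399913109236897738697195516198226793829507049660038543806160547635533465149005556284169587760381061908727034376063321686072299802622329225470907369470305843321549740686854610400790916793662397832145365363853147148419056141331810095672502967677020600971163726472496823779014028895429214368407545395133543368721855645577935520915990766126585524739891775461970765894682291611142950212246861537537749086516986892988809957580365531892892595705752032850855773309689623224821087096907224435268575955397748823993134474804899578698749152434273375208080065)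

noncomputable def t44 : Tre := Helper55.PC.toT t44n

theorem ok44 : chk K t44 r49 = true :=
  Helper55.PC.chkN_sound K t44n r49 (by decide +kernel)

open Helper55.PC in
noncomputable def t45n : Helper55.PC.Ten :=
  (r
  24681844049602251269537717930734914924977270767593861062536458637326714177819152758781409266257992069742898566334914982800306926016349118807986232977772327377125648967257650515938063447099969612066927986824372849264804604214185984800461568417151703138351751232090744997641825221403362206260938347638861706663759084763651099006613406749521218098597045918569187314695487159712549426792011711424390713044048774886077128651289627830981259371828551820224637124881955430697)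

noncomputable def t45 : Tre := Helper55.PC.toT t45n

theorem ok45 : chk K t45 r42 = true :=
  Helper55.PC.chkN_sound K t45n r42 (by decide +kernel)

open Helper55.PC in
noncomputable def t46n : Helper55.PC.Ten :=
  (r
  847058935806733329803110908707829743814047930211123214788498895543590860757340647725560290927248242158691640738476322949698715398164723511036253289700301108132946097401786111009634132636841481226731717867910276761827195087180492555548589934745329733188319469552615731653450076858318593293353627309498867261521858042805804429446426322126517880769542818529948898127276881901758086669056372774561775606513915574949782281)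

noncomputable def t46 : Tre := Helper55.PC.toT t46n

theorem ok46 : chk K t46 l53 = true :=
  Helper55.PC.chkN_sound K t46n l53 (by decide +kernel)

noncomputable def t47 : Tre :=
  (.N [0,1,2,0,2] 0 ⟨0,[(0,0)]⟩ ⟨0,[(7,0)]⟩ (.x (-1) ⟨3,[(32,5),(0,0),(12,0),(21,3),(2,3),(3,1),(4,
  1)]⟩ ⟨9,[(1,2),(8,2),(42,2),(2,8),(2,3),(2,7),(13,5),(2,11),(1,2)]⟩))

theorem ok47 : chk K t47 l55 = true := by decide +kernel

noncomputable def t48 : Tre :=
  (.N [0,1,2,0,1] 0 ⟨0,[(1,0)]⟩ ⟨0,[(0,0)]⟩ (.x (-1) ⟨3,[(34,7),(0,0),(12,0),(21,1),(2,1),(8,5)]⟩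
  ⟨4,[(3,0),(8,0),(42,0),(2,2),(2,2),(2,5),(13,1),(2,3),(1,0)]⟩))

theorem ok48 : chk K t48 l57 = true := by decide +kernel

noncomputable def t49 : Tre :=
  (.N [0,0,1,-2,-1] 0 ⟨0,[(14,0)]⟩ ⟨0,[(12,0)]⟩ (.i 0 ⟨0,[(0,0)]⟩ ⟨0,[(22,1),(1,0),(10,0)]⟩))

theorem ok49 : chk K t49 l58 = true := by decide +kernel

noncomputable def t50 : Tre :=
  (.N [0,0,1,-2,-1] 0 ⟨0,[(16,0)]⟩ ⟨0,[(14,0)]⟩ (.i 1 ⟨0,[(1,0)]⟩ ⟨0,[(0,0)]⟩))

theorem ok50 : chk K t50 l60 = true := by decide +kernel

open Helper55.PC in
noncomputable def t51n : Helper55.PC.Ten :=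
  (r
  43055120124824595799953367242355639798897819847321027543886954866743303685110596787642766117135420257991544533077664587319338757572732568817091852525309120632018303832970774001514439072237572275821405927433359887436513066058275222814947369248612574264121100314512571156292674079493835495142582290953401910574344633302871803890504111612897761050924310694248904213443717166476286285907732781346439625191376117225086047878734105467654743794243769648184342263527378724514612588653325404891318369039795827703566166983286979710445863482252795809780198966360382969921037316154269720712931066780404260358316841)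

noncomputable def t51 : Tre := Helper55.PC.toT t51n

theorem ok51 : chk K t51 r60 = true :=
  Helper55.PC.chkN_sound K t51n r60 (by decide +kernel)

open Helper55.PC in
noncomputable def t52n : Helper55.PC.Ten :=
  (r
  35879303279360454036252832840312579904445997307749723502751621777102680086704380272494352004897840999960844935966759122798323673862963547113041090574901775095191511391368903341169246264046883377717192326929561699793381088362834288242100429227186399332330554544495011302971650236969039739749924351913451719831347788232827402807352467168188786197136553621240987083392675087629718277060985054509846949767187853656869129587371465879734069089959062368219620915274895870430228513244042057436269475843048998343604392131397795028311418747588371868166064845079459482064289124051101771442954850809677958372123433)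

noncomputable def t52 : Tre := Helper55.PC.toT t52n

theorem ok52 : chk K t52 r59 = true :=
  Helper55.PC.chkN_sound K t52n r59 (by decide +kernel)

noncomputable def t53 : Tre :=
  (.N [0,0,1,-2,-1] 0 ⟨0,[(14,0)]⟩ ⟨0,[(12,0)]⟩ (.i 1 ⟨0,[(0,0)]⟩ ⟨0,[(1,0)]⟩))

theorem ok53 : chk K t53 l62 = true := by decide +kernel

open Helper55.PC in
noncomputable def t54n : Helper55.PC.Ten :=
  (r
  529485868269279309894266477348105540422303358336057111067425547251013327548016567267559837215914235593351287367537304656482348403143042858375912916583616515492669034574326089899330059898215234797802825041939899288136944841064212810551432468346374146438812862931380776692421489499368021189383034670504189006543361915567656713585702868015829777947351059242409615633159810703697311658408863583799553208258731393652944557590386506719871219298480881200787305342526649567308753980820629046273351562685255254145288870097103348960106175278794258662434077680294218607106592546547401101087399488887756882393715533187159224863679273)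

noncomputable def t54 : Tre := Helper55.PC.toT t54n

theorem ok54 : chk K t54 r62 = true :=
  Helper55.PC.chkN_sound K t54n r62 (by decide +kernel)

open Helper55.PC in
noncomputable def t55n : Helper55.PC.Ten :=
  (r
  6059500296038642630643810634793065214515792060401600191782125101611167456293334704389865852705027281711278719849006004004293971560701681311814418131836417638968510397746918804017282872707302964809634123425969470244195425540756006353285722628690976835460069715242463343036586540335412617326229951644451060789904873759300429916104929496568338808341540519983992035206100956837183716046953751853611629199317012576383168365037122894378499016383146098388076603133051991673381060783363009042396389841800824854193295905769739575164853433806616458610340843430529181030641195888085384280888502021061029622543952992343913915177)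

noncomputable def t55 : Tre := Helper55.PC.toT t55n

theorem ok55 : chk K t55 r61 = true :=
  Helper55.PC.chkN_sound K t55n r61 (by decide +kernel)

noncomputable def t56 : Tre :=
  (.N [0,1,2,0,2] 0 ⟨0,[(0,0)]⟩ ⟨0,[(7,0)]⟩ (.x (-1) ⟨3,[(32,5),(0,0),(12,0),(21,3),(2,3),(3,1),(4,
  1)]⟩ ⟨7,[(4,2),(34,2),(13,2),(2,11),(2,1),(2,3),(16,11),(1,2)]⟩))

theorem ok56 : chk K t56 l63 = true := by decide +kernel

noncomputable def t57 : Tre :=
  (.N [0,1,2,0,1] 0 ⟨0,[(0,0)]⟩ ⟨0,[(1,0)]⟩ (.x (-1) ⟨3,[(34,7),(0,0),(12,0),(21,1),(2,1),(8,5)]⟩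
  ⟨3,[(6,0),(34,0),(13,0),(2,3),(2,1),(2,3),(16,3),(1,0)]⟩))

theorem ok57 : chk K t57 l65 = true := by decide +kernel

noncomputable def t58 : Tre :=
  (.N [0,0,1,-2,-1] 0 ⟨0,[(14,0)]⟩ ⟨0,[(12,0)]⟩ (.i 1 ⟨0,[(0,0)]⟩ ⟨0,[(4,0),(2,0),(3,0),(12,0),(17,
  0),(15,0)]⟩))

theorem ok58 : chk K t58 l66 = true := by decide +kernel

noncomputable def t59 : Tre :=
  (.N [0,0,1,-2,-1] 0 ⟨0,[(15,0)]⟩ ⟨0,[(13,0)]⟩ (.i 2 ⟨1,[(29,2),(9,0),(1,1),(24,1)]⟩ ⟨0,[(0,0)]⟩))

theorem ok59 : chk K t59 l67 = true := by decide +kernel

open Helper55.PC in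
noncomputable def t60n : Helper55.PC.Ten :=
  (k
  14154813205358025938707479321412376319748391066940288097197558734845746715694730178342003918157280586616914362662027411977054123739341088278164999304728909677121405234971501725251535791145620908562392022211835285011453680550351333960049272815121588973328808868149150651266205005378121148905294120007797648618291431240822754698410233721320356275301890600108948756203116997709487879702481961)

noncomputable def t60 : Tre := Helper55.PC.toT t60n

theorem ok60 : chk K t60 r67 = true :=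
  Helper55.PC.chkN_sound K t60n r67 (by decide +kernel)

noncomputable def t61 : Tre :=
  (.N [0,0,1,-2,-1] 0 ⟨0,[(13,0)]⟩ ⟨0,[(11,0)]⟩ (.i 1 ⟨0,[(0,0)]⟩ ⟨0,[(3,0),(2,0),(3,0),(12,0),(17,
  0),(15,0)]⟩))

theorem ok61 : chk K t61 l68 = true := by decide +kernel

noncomputable def t62 : Tre :=
  (.N [0,0,1,-2,-1] 0 ⟨0,[(14,0)]⟩ ⟨0,[(12,0)]⟩ (.i 2 ⟨1,[(28,2),(9,0),(1,1),(24,1)]⟩ ⟨0,[(0,0)]⟩))

theorem ok62 : chk K t62 l69 = true := by decide +kernel

open Helper55.PC in
noncomputable def t63n : Helper55.PC.Ten :=
  (k
  11708587057781737010282720592820569666212914030727317662567674596094027076263643131051942254418116129842386025009458564939607650394970321174934967987836447643613908702557135647007981272642962719018395676424768417243708036379010268555816811384647408126600294242177915995350011294975485046451334052350733438971761419977278582638769375904663707195492183371453352152105)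

noncomputable def t63 : Tre := Helper55.PC.toT t63n

theorem ok63 : chk K t63 r69 = true :=
  Helper55.PC.chkN_sound K t63n r69 (by decide +kernel)

open Helper55.PC in
noncomputable def t64n : Helper55.PC.Ten :=
  (r
  43609043712357568656802138582367122618301332727972611891614416093405205005391568775995789618143332443635539396077852516293384058887727335107158486577968596129086601826109808592228896072490035353829868918920163884095576010364531477248671569257074405174361822021915523405536100364729001938388894271490617703763866785778209828856644902586120732936316337832567792636242252701784778026027824706593360710646838860185655893105625683612798786034340404577917421118450282628395399135812605443965360257179180414428181842484828391962169067207150281001)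

noncomputable def t64 : Tre := Helper55.PC.toT t64n

theorem ok64 : chk K t64 r52 = true :=
  Helper55.PC.chkN_sound K t64n r52 (by decide +kernel)

open Helper55.PC in
noncomputable def t65n : Helper55.PC.Ten :=
  (r
  3638090427074483028097543471960970368817394165633264582942986313291842889357267873912738232808776715345069039120337095984228450468758739749238775002405652565492369549463898709517396637115453473373407864245393947714786641426475145229673089213871044343328893913191090958257002685011175592112442883865351362635252875029579638260671961553155317563559308470013571085301330067367608246362094703237116046266694093540866286311830725385)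

noncomputable def t65 : Tre := Helper55.PC.toT t65n

theorem ok65 : chk K t65 l71 = true :=
  Helper55.PC.chkN_sound K t65n l71 (by decide +kernel)

noncomputable def t66 : Tre :=
  (.N [0,-1,2,2] (-1) ⟨0,[(1,0)]⟩ ⟨0,[(0,0)]⟩ (.x 0 ⟨19,[(10,17),(21,52),(2,3),(9,3),(19,4),(3,9),
  (5,4),(4,42)]⟩ ⟨1,[(1,0),(4,0),(1,0),(29,0),(5,1),(14,0),(2,2),(7,0),(5,1),(2,1),(2,1)]⟩))

theorem ok66 : chk K t66 l73 = true := by decide +kernel

noncomputable def t67 : Tre :=
  (.N [0,1,2,0,2] 0 ⟨0,[(0,0)]⟩ ⟨0,[(8,0)]⟩ (.x (-1) ⟨3,[(33,5),(0,0),(12,0),(21,3),(2,3),(3,1),(4,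
  1)]⟩ ⟨19,[(0,2),(1,5),(9,5),(38,5),(5,29),(2,7),(2,9),(16,29),(1,2)]⟩))

theorem ok67 : chk K t67 l74 = true := by decide +kernel

noncomputable def t68 : Tre :=
  (.N [0,0,1,-2,-1] 0 ⟨0,[(14,0)]⟩ ⟨0,[(12,0)]⟩ (.i 1 ⟨0,[(1,0)]⟩ ⟨0,[(0,0)]⟩))

theorem ok68 : chk K t68 l76 = true := by decide +kernel

open Helper55.PC in
noncomputable def t69n : Helper55.PC.Ten :=
  (s
  1857659243924616113537428661889177126035932068164564801272036626009723898071918461514630706051050086512617808144893547633340590826962290869191879803310471098554241612868692954281241458000915698613929960047282898478154665230289563129004889467490210502345416817615113840646711956632850383092101088670536089224865932417701431260662824373638701873521159410519457873570600044151148973418434117362940825938389154017895806574911202923714379705085304771566440514427957919249675810481707825386020036942765691935351567148883355822463918401090560780665537)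

noncomputable def t69 : Tre := Helper55.PC.toT t69n

theorem ok69 : chk K t69 r76 = true :=
  Helper55.PC.chkN_sound K t69n r76 (by decide +kernel)

open Helper55.PC in
noncomputable def t70n : Helper55.PC.Ten :=
  (s
  10386297987206730847771133831759956676135682718148051268886335654060383484446713664808949129400110557098274634020723260577327206214753918788026628449181475971956801548121119832684601694519633164190750554780298882999034916245795372614444836396635066930846793805879124640670721783959397148361156201718447270793862310904243870635367210114143201406526708809113417867941387342067216832575705930310376209595605544530926295867031186421297228687066256639474225672737833134308331406370419763853634914936069136377015682713937080039165353792706872257209103252778342108194175986115638700413628880186523212397796445756598169613583057641030396906685655071227110920069629350375056596498035770049)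

noncomputable def t70 : Tre := Helper55.PC.toT t70n

theorem ok70 : chk K t70 r75 = true :=
  Helper55.PC.chkN_sound K t70n r75 (by decide +kernel)

noncomputable def t71 : Tre :=
  (.N [0,1,2,0,2] 0 ⟨0,[(0,0)]⟩ ⟨0,[(8,0)]⟩ (.x (-1) ⟨23,[(1,1),(31,28),(0,5),(12,5),(21,28),(2,28),
  (3,18)]⟩ ⟨13,[(0,6),(0,1),(4,1),(18,10),(31,13),(2,6),(2,13),(16,13)]⟩))

theorem ok71 : chk K t71 l78 = true := by decide +kernel

noncomputable def t72 : Tre :=
  (.N [0,1,2,0,1] 0 ⟨0,[(1,0)]⟩ ⟨0,[(0,0)]⟩ (.x (-1) ⟨7,[(3,1),(31,8),(0,1),(12,1),(21,8),(2,8),(3,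
  6)]⟩ ⟨1,[(27,0),(31,1),(2,0),(2,1),(16,1),(1,0)]⟩))

theorem ok72 : chk K t72 l80 = true := by decide +kernel

noncomputable def t73 : Tre :=
  (.N [0,0,1,-2,-1] 0 ⟨0,[(16,0)]⟩ ⟨0,[(14,0)]⟩ (.i 1 ⟨0,[(0,0)]⟩ ⟨0,[(1,0)]⟩))

theorem ok73 : chk K t73 l82 = true := by decide +kernel

open Helper55.PC in
noncomputable def t74n : Helper55.PC.Ten :=
  (s
  34185292435944539107018178123166251696256543598804057719334385275848763264896148467969157488836228412754963001350328445631986920244413843088142470868663369402551574440341565688767162781357381417211980799878458105534108688419195905003302837890130891935204806291766662937567700035528714818835037234323165131746154289768073488019876208571823556046520546429924678351328547919346207127060185839926351077420256734077440468599552633184847168523234082397946984690475179547973926481406496008072132967574556192007144113392761020390249652631543542505590058980075779221979034770400101538165588593111751917330488807739651014123223124547133442340525441729)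

noncomputable def t74 : Tre := Helper55.PC.toT t74n

theorem ok74 : chk K t74 r82 = true :=
  Helper55.PC.chkN_sound K t74n r82 (by decide +kernel)

noncomputable def t75 : Tre :=
  (.N [0,0,1,-2,-1] 0 ⟨0,[(16,0)]⟩ ⟨0,[(14,0)]⟩ (.i 0 ⟨0,[(0,0)]⟩ ⟨0,[(24,1),(1,0),(10,0)]⟩))

theorem ok75 : chk K t75 l83 = true := by decide +kernel

open Helper55.PC in
noncomputable def t76n : Helper55.PC.Ten :=
  (s
  108450354874781723819883576598824922409005383004162476630486742147108181452651648509255137815383021121288872813264291470975437555773634800371326291000720871381723966670785069326186989482470211981240805435533047875751864005657366653422566703249472559170394287206074930392238216777493396520655551671900563512556902208567044119317628263237188035045179920961807956004788677102111978871772182782244422887144208204958880677973134116228570216603925453596437967464378195491456072006128366103080617580392861364638284839953143434314433)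

noncomputable def t76 : Tre := Helper55.PC.toT t76n

theorem ok76 : chk K t76 r83 = true :=
  Helper55.PC.chkN_sound K t76n r83 (by decide +kernel)

noncomputable def t77 : Tre :=
  (.N [0,-2,0,0,3] (-1) ⟨0,[(1,0)]⟩ ⟨0,[(0,0)]⟩ (.x 0 ⟨4,[(37,1),(12,1),(8,12),(3,1),(2,3),(12,3)]⟩
  ⟨6,[(4,4),(42,1)]⟩))

theorem ok77 : chk K t77 l85 = true := by decide +kernel

noncomputable def t78 : Tre :=
  (.N [0,0,1,-2,-1] 0 ⟨0,[(18,0)]⟩ ⟨0,[(16,0)]⟩ (.i 1 ⟨0,[(1,0)]⟩ ⟨0,[(0,0)]⟩))

theorem ok78 : chk K t78 l88 = true := by decide +kernel

open Helper55.PC in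
noncomputable def t79n : Helper55.PC.Ten :=
  (s
  1773022466270767637963509259138680840939928123782102561929525466664308603213762906585526207950219408582167379197189346584140347089216961620862406398557240193426688153576597862483523497558070073320652790951944673361990361550111442242167563258010913028494191038815024703387051429018840243739723355148714819489347966456075304305325722152148374636271599212420186790556356755406209325936125716672658122763893064858622736211383250718958690541420300106273550115467490464500717115640490233957091581393566431288701120491258118849)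

noncomputable def t79 : Tre := Helper55.PC.toT t79n

theorem ok79 : chk K t79 r88 = true :=
  Helper55.PC.chkN_sound K t79n r88 (by decide +kernel)

open Helper55.PC in
noncomputable def t80n : Helper55.PC.Ten :=
  (s
  152068447060765543593104951370067861860829899703198611694760213911030093906977727284703562476673583591844571804752323365749264056406319215800829044989493148397878844990638830481796447960717698892712445724613110713091032270685078923284628123272714715355523653728756638871406613802544200054226636165614687570809678809483043678907623591527465410117347741549688260263195644376220812661693494234501017539493054994529017732932838400975815522386472766976950606392076200594301855450126089362379253841488500181911835667112877087333818428161972995937367373462942955772157150838285550448144428353643329470056839326486389884551556212283133670855312093291446534849)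

noncomputable def t80 : Tre := Helper55.PC.toT t80n

theorem ok80 : chk K t80 r87 = true :=
  Helper55.PC.chkN_sound K t80n r87 (by decide +kernel)

noncomputable def t81 : Tre :=
  (.N [0,0,1,-2,-1] 0 ⟨0,[(18,0)]⟩ ⟨0,[(16,0)]⟩ (.i 1 ⟨0,[(0,0)]⟩ ⟨0,[(1,0)]⟩))

theorem ok81 : chk K t81 l90 = true := by decide +kernel

open Helper55.PC in
noncomputable def t82n : Helper55.PC.Ten :=
  (s
  157312181095181765453230365163236057353900978601322797689597022748897672923081153404476913542600046253621559653801960766495793827514985323954075711161409755465855028987113008684634096055319636537002137074784218563084925981393334371322575022176824406279169259808161594008009483189016429879053415071655051483965139062222392308681960117583261593107879825875920018424871961645360118423491824724722650716899492571599079885584479176998574459555093840568214116199116250870538025645345528229715073876717875332252205721399277164941349521457982938714559663349755916047502549940513486832486044818979160597102718541520012924201438855546639864345795764949428994753)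

noncomputable def t82 : Tre := Helper55.PC.toT t82n

theorem ok82 : chk K t82 r90 = true :=
  Helper55.PC.chkN_sound K t82n r90 (by decide +kernel)

open Helper55.PC in
noncomputable def t83n : Helper55.PC.Ten :=
  (s
  1713921777529165281230622248884105758673435306734820189730870324472343390833480228828648737316012800691365415614364100522601488867104169322794816252888148897761251663324563195102133147514885422825735887535291766066986607263613917795289787304203001066240957428111967399830151873257835640415695896446089816753194354003084031305572183377752183740753227220561864532110193955208710125293869129872362505781798904300678904320949423837977668164548580814735117869638692659955953176748094100181676960360112841743086927152552084161)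

noncomputable def t83 : Tre := Helper55.PC.toT t83n

theorem ok83 : chk K t83 r89 = true :=
  Helper55.PC.chkN_sound K t83n r89 (by decide +kernel)

noncomputable def t84 : Tre :=
  (.N [0,0,1,-2,-1] 0 ⟨0,[(15,0)]⟩ ⟨0,[(13,0)]⟩ (.i 1 ⟨0,[(1,0),(8,0),(2,0),(0,0),(5,0),(1,1),(22,
  0),(8,0),(10,0)]⟩ ⟨0,[(0,0)]⟩))

theorem ok84 : chk K t84 l91 = true := by decide +kernel

open Helper55.PC in
noncomputable def t85n : Helper55.PC.Ten :=
  (k
  601271138945537572362131727741596075396017008952730037888290400753938312959157734662073773976833398173955577382558002058393885314664925791310699101933269889685347101805402700736523826516048299554257990536554750966540401436287345082687609197982075119600449365697720277253963344594948693093239437603574098402377400647450466438789933371251463742098382606219362026057296109878281132559878217084505549523335675829916149018775307180241601427886598605373475945)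

noncomputable def t85 : Tre := Helper55.PC.toT t85n

theorem ok85 : chk K t85 r91 = true :=
  Helper55.PC.chkN_sound K t85n r91 (by decide +kernel)

noncomputable def t86 : Tre :=
  (.N [0,0,1,-2,-1] 0 ⟨0,[(13,0)]⟩ ⟨0,[(11,0)]⟩ (.i 1 ⟨0,[(1,0)]⟩ ⟨0,[(0,0)]⟩))

theorem ok86 : chk K t86 l93 = true := by decide +kernel

open Helper55.PC in
noncomputable def t87n : Helper55.PC.Ten :=
  (k
  65279363847623310557711531842272340869787772538383647893197759399002302323899288591119837780852395781108733637222459659288166357517783013911139227810759008819643934036208710671122489801878806433476584727745547196988867633094474813444064510002604174662040807790983596627752961732953256421991904052315921370351321216422784452973915536248530917712809458267765861001130656828995071580111408169)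

noncomputable def t87 : Tre := Helper55.PC.toT t87n

theorem ok87 : chk K t87 r93 = true :=
  Helper55.PC.chkN_sound K t87n r93 (by decide +kernel)

open Helper55.PC in
noncomputable def t88n : Helper55.PC.Ten :=
  (k
  6143770546483610344479238167713745268492439727426197435133902901430599551924642772692176598189258545867130710112365687678170270355541027746311760376646492535631785348165904578875757388030252721834341360292678422364998686272118247555186748258638948934811073795596360293536859321831109758592376295516115957584966891572472489747837007581649899248248245808819317317103480247921937334650648378757416743200719912)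

noncomputable def t88 : Tre := Helper55.PC.toT t88n

theorem ok88 : chk K t88 r92 = true :=
  Helper55.PC.chkN_sound K t88n r92 (by decide +kernel)

open Helper55.PC in
noncomputable def t89n : Helper55.PC.Ten :=
  (r
  10153521716677948985435566534839366240962718782940090608693290523580556038159776659681412768117928049442251072283334218965234248639952236578603854071807255067184241913750257480942852812001955545002098409207575927510758864312556450545944173181679659796497277454919071931919425892609191103844039979284881587255090666506521552356425283002539641031198222599483217029804467047124103819648101870827257734711741143785714924677824987340142657581635708499376063921892918385450435427336709670090144302081985287995064732795154241782316015913)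

noncomputable def t89 : Tre := Helper55.PC.toT t89n

theorem ok89 : chk K t89 r70 = true :=
  Helper55.PC.chkN_sound K t89n r70 (by decide +kernel)

noncomputable def t90 : Tre :=
  (.N [0,0,1,-2,-1] 0 ⟨0,[(7,0)]⟩ ⟨0,[(5,0)]⟩ (.i 1 ⟨0,[(1,0)]⟩ ⟨0,[(0,0)]⟩))

theorem ok90 : chk K t90 l96 = true := by decide +kernel

open Helper55.PC in
noncomputable def t91n : Helper55.PC.Ten :=
  (s
  100168642442999531592277865918310667849251334736498893870693552872268289130932628216790623769330915921956255511444306741423717441500080168180122571911988495542501832265457207286026011052740053987994099615723646535274764948270718397251924787344222159068724373892674539579484356847692237175115592384129999046149001337940547642751928490343920382944626266223536865672152293821100083404005551724352590161702636874520188802524419566294918215495264772341543528701417548248271549031216381359057967067217902876197206639117013002471321141369608112159974364875275485775397569)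

noncomputable def t91 : Tre := Helper55.PC.toT t91n

theorem ok91 : chk K t91 r96 = true :=
  Helper55.PC.chkN_sound K t91n r96 (by decide +kernel)

open Helper55.PC in
noncomputable def t92n : Helper55.PC.Ten :=
  (s
  64582461121830995081470420784118987789666625245238637445388417595960126027564743951561191264558373470967825244987590255944189176233251191910289337734084165050167645359836851232816325634948906208566045310182122215296765346985734673195602088636608389281854054115422407191381754933806605314720414763916413525608436327225404444218215208057976264784846901580321184292954571161343741584664492364880637466100687241208495671733538583399199191922909619410245775277406784633703679139618128850236689357915460675495089911670067777321532098210766496065746523857985564489644181171968314526099418864708825708091146945)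

noncomputable def t92 : Tre := Helper55.PC.toT t92n

theorem ok92 : chk K t92 r95 = true :=
  Helper55.PC.chkN_sound K t92n r95 (by decide +kernel)

open Helper55.PC in
noncomputable def t93n : Helper55.PC.Ten :=
  (r
  1382054240412947893524188548338077870233484916912830400742568574473114966116564827613834224747196201105080103537795516600380961211942562018585338794482428683455973385122369160322985994537986190887821483951194872331485129426895097511637634858828206058352259833219330068173565686846114175939435123164227986756812628540335238012623380122031388603648879590709794325667038719529021868448221281428499700000796210970112435709392462620722026520337274465273890817052635514937810772882160430433282721216314808084229350968471672403009629817401599100243721285155224274502217360169)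

noncomputable def t93 : Tre := Helper55.PC.toT t93n

theorem ok93 : chk K t93 l100 = true :=
  Helper55.PC.chkN_sound K t93n l100 (by decide +kernel)

noncomputable def t94 : Tre :=
  (.N [0,-4,0,0,7] (-2) ⟨0,[(0,0)]⟩ ⟨0,[(4,0)]⟩ (.x 1 ⟨9,[(32,2),(12,2),(8,61),(3,7),(2,15),(12,
  15)]⟩ ⟨7,[(4,2),(10,20),(18,21),(9,20),(15,8),(6,0),(7,21),(5,11)]⟩))

theorem ok94 : chk K t94 l101 = true := by decide +kernel

noncomputable def t95 : Tre :=
  (.N [0,0,1,-2,-1] 0 ⟨0,[(11,0)]⟩ ⟨0,[(9,0)]⟩ (.i 1 ⟨46,[(1,6),(0,9),(0,28),(5,48),(0,42),(7,30),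
  (16,7),(1,15),(12,3),(1,9),(8,9),(0,3),(14,7)]⟩ ⟨0,[(0,0)]⟩))

theorem ok95 : chk K t95 l102 = true := by decide +kernel

noncomputable def t96 : Tre :=
  (.N [0,0,1,-2,-1] 0 ⟨0,[(12,0)]⟩ ⟨0,[(10,0)]⟩ (.i 0 ⟨0,[(0,0)]⟩ ⟨0,[(20,1),(1,0),(10,0)]⟩))

theorem ok96 : chk K t96 l103 = true := by decide +kernel

open Helper55.PC in
noncomputable def t97n : Helper55.PC.Ten :=
  (s
  705412396304166259692111418517467428999277627654494418063965985754677848469927366884308006676925788087711267844264579856760829166135272772710898362348587932045061372799113993526137725656958846102866824671274739530378715658990479580000325289523799180055681648088002382183566070067168205938783391980601214072917788491102909613601391128121291375658255542094436179977357938134333333982998357248996639795781390971939735514043409122358745375832834558356019286582144512765952376947521232522344130825345831182956997772765946152996422643758516535580003457140871417276512460073890110063000656136872097451854439383745)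

noncomputable def t97 : Tre := Helper55.PC.toT t97n

theorem ok97 : chk K t97 r103 = true :=
  Helper55.PC.chkN_sound K t97n r103 (by decide +kernel)

noncomputable def t98 : Tre :=
  (.N [0,-4,0,0,7] (-2) ⟨0,[(0,0)]⟩ ⟨0,[(3,0)]⟩ (.x 1 ⟨9,[(31,2),(12,2),(8,61),(3,7),(2,15),(12,
  15)]⟩ ⟨7,[(3,2),(10,20),(18,21),(9,20),(15,8),(6,0),(7,21),(5,11)]⟩))

theorem ok98 : chk K t98 l104 = true := by decide +kernel

noncomputable def t99 : Tre :=
  (.N [0,0,1,-2,-1] 0 ⟨0,[(11,0)]⟩ ⟨0,[(9,0)]⟩ (.i 1 ⟨0,[(0,0)]⟩ ⟨0,[(1,0)]⟩))

theorem ok99 : chk K t99 l106 = true := by decide +kernel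

open Helper55.PC in
noncomputable def t100n : Helper55.PC.Ten :=
  (s
  9555395162686110145538183641155149267469215905709880570136812766338576657823303395860804096125831362148108006068276669368365560752040968745090214272995782541215087451112785613223224411720435343965162694711552513313226040260933415057462642657118213434938484138231268375136323636808707004106212817085025287626573619905584215842054012379070001449317719564375151696823772823828903136056066161402489024836306467356705512028755420700563915142876435567438715386634266908237417845563389480497125022109753894315720043972341633743407162024326590739944659646681951924851928946925728941918814211064238561653991874284108668850889694047832166032755158026421826585631517402664001103260069921473)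

noncomputable def t100 : Tre := Helper55.PC.toT t100n

theorem ok100 : chk K t100 r106 = true :=
  Helper55.PC.chkN_sound K t100n r106 (by decide +kernel)

open Helper55.PC in
noncomputable def t101n : Helper55.PC.Ten :=
  (s
  28995807046101612218247280132309092071765195753233153314390994526643673896423009342222815723075188960880788210832295780383525153482398481444180216365158862708208760092942408922193440765029054808106557111696255156448398329521531951540553783314009725553322333181484174515419708745822053662545420979206321525272965665393086583917134403756555408857706346206824392581563674082445217871980644982201341118246689052817648763730790053260663363673159230587698924123981555734892768323219516993770867125416756394744666629288826492050439164173650792102921873492167898508034753)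

noncomputable def t101 : Tre := Helper55.PC.toT t101n

theorem ok101 : chk K t101 r105 = true :=
  Helper55.PC.chkN_sound K t101n r105 (by decide +kernel)

open Helper55.PC in
noncomputable def t102n : Helper55.PC.Ten :=
  (q
  181184518404440919769765835639607088586393485268336557868872141484790449029492532739403613009256842072147436535372369040790542083712847545116992881296866094788148054851598
  (r
  6442395216248446814674359117118544248364270234755908547704921876137907220385285607651326884042904701196742085854503180765300238094567794418977936301684007271536687643446578063548819757767366888340480201724686004558259494940752434031665302964741630172624748786121589932974585459504570767371704476019527638013414795449465127275815924643326639063196214292586980315027054091745769882638409311134607591047665486668553)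
  (r
  665421199224197436728592936822219247579531433526969387259396726000214363719851732544608396909993092914300522880345529272953775354293303664614488894301763338946733724172039565982374947696592780504432417470099416874177660577027356301854568089710573218985907797772852319976091546554990507874276221530500675975484661559220716616799795395745269529917460130381045282934827152235825333530062830440731801221949001895587671158127591118914519280380457181465649254080839786642702262178910739209697931110054269454417382956462812983418301786104105))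

noncomputable def t102 : Tre := Helper55.PC.toT t102n

theorem ok102 : chk K t102 r98 = true :=
  Helper55.PC.chkN_sound K t102n r98 (by decide +kernel)

noncomputable def t103 : Tre :=
  (.N [0,-2,0,0,7] (-1) ⟨0,[(2,0)]⟩ ⟨0,[(1,0)]⟩ (.x 0 ⟨4,[(31,1),(12,1),(8,32),(3,1),(2,3),(12,3)]⟩
  ⟨0,[(0,0)]⟩))

theorem ok103 : chk K t103 l109 = true := by decide +kernel

noncomputable def t104 : Tre :=
  (.N [0,0,1,-2,-1] 0 ⟨0,[(11,0)]⟩ ⟨0,[(9,0)]⟩ (.i 1 ⟨0,[(1,0)]⟩ ⟨0,[(0,0)]⟩))

theorem ok104 : chk K t104 l111 = true := by decide +kernel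

noncomputable def t105 : Tre :=
  (.N [0,-2,0,0,7] (-1) ⟨0,[(5,0)]⟩ ⟨0,[(4,0)]⟩ (.x 1 ⟨0,[(0,0)]⟩ ⟨15,[(34,2),(1,35),(10,2),(18,9),
  (2,15),(7,35)]⟩))

theorem ok105 : chk K t105 l112 = true := by decide +kernel

noncomputable def t106 : Tre :=
  (.N [0,0,1,-2,-1] 0 ⟨0,[(13,0)]⟩ ⟨0,[(11,0)]⟩ (.i 0 ⟨0,[(0,0)]⟩ ⟨0,[(21,1),(1,0),(10,0)]⟩))

theorem ok106 : chk K t106 l113 = true := by decide +kernel

open Helper55.PC in
noncomputable def t107n : Helper55.PC.Ten :=
  (q
  11874108599535506408255643594157008878558834663969526548187860054860626027791862635744893680450568355831168388561489164572888132150210831767974327369800424462923458900358463502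
  (q
  11874108599765850794536255248956908450158171644938019895769315239563876024039368885199158160753453849935969462380882105755739390465193306324390678362279826949886186135763419150
  (r
  33450828286941551184263185602466978261850635349331799361681693526729244975760263875225309682290830269464340209645881897973207164400931244566981643099029891630768323143023706867696108584220850356034744116007997084451188717066805190249847426350266110501014644442553460382512059806311509958447320999185200453541467428424305306842431087714653974019542341009516766108982832764171996692916674266989764729412637684458469255397635669966936110899466085129)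
  (r
  455300876219424234527297674084813311899815200666589529307215100467653324673718036601210264711022282710612663004580390326057942078091286194474579936780949653073148767282526662073564154427786311905593776874416409720498153603947539695623007368484094493480809597214594407079746787172177779925612802340040891877167216586690514795574233713642786103481243166774197916859726936499021024879197174646732612871024464517716613009403248931573221714031721098901641920145032936496773142022374572695849))
  (k
  76797218993416165567091366833901924065147198475504227920246300860618266169846684490388222949041953366233389069390965275545453573819451905469336318296448940621962676757174274014611213395866324682996036936562819177183741725763242842599858923069368181741514106815323727842824171037169822747546899601043448693683068356485388051013680355403407047349753358660547737563631137938371254035330531276141703925897137193))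

noncomputable def t107 : Tre := Helper55.PC.toT t107n

theorem ok107 : chk K t107 r113 = true :=
  Helper55.PC.chkN_sound K t107n r113 (by decide +kernel)

open Helper55.PC in
noncomputable def t108n : Helper55.PC.Ten :=
  (i 4846918826806539530141702 (n
  242317583634648540082155513090562649153440062606491182723223956022759045) (s
  145803759237589870356586774281523092172308554174887002683135627934501521975175583930706635004007895354250173382242092383859871262295405759121225885016642011303960822190347082583793582906449090349646822883528401942186923196983985398090205165938441685674490736694029900807934246684682315904904522824998098848695604343913720635351649485546123665821223093553074604427795192823848749388891177221871382367713572137755720912244706156432008178874436098838039660454353201257872127509545424880600350693894512306289688801745724724528989878404841815076066162292917551413700622028926348691657910700934543060107361847588028363858303154170198235153659343185469616959025025576278323748668097))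

noncomputable def t108 : Tre := Helper55.PC.toT t108n

theorem ok108 : chk K t108 r110 = true :=
  Helper55.PC.chkN_sound K t108n r110 (by decide +kernel)

noncomputable def t109 : Tre :=
  (.N [0,0,1,-2,-1] 0 ⟨0,[(11,0)]⟩ ⟨0,[(9,0)]⟩ (.i 2 ⟨1,[(25,2),(9,0),(1,1),(24,1)]⟩ ⟨0,[(0,0)]⟩))

theorem ok109 : chk K t109 l116 = true := by decide +kernel

noncomputable def t110 : Tre :=
  (.N [0,0,1,-2,-1] 0 ⟨0,[(12,0)]⟩ ⟨0,[(10,0)]⟩ (.i 1 ⟨0,[(0,0)]⟩ ⟨0,[(2,0),(6,0),(12,0),(33,0)]⟩))

theorem ok110 : chk K t110 l117 = true := by decide +kernel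

open Helper55.PC in
noncomputable def t111n : Helper55.PC.Ten :=
  (s
  447108223913161772741701106707602999245371549592754912299181634070060270034261246447643172413649564545150598469161590218791415289565908330164101922841719673162738908509167869638116839055905763573605686453192706320637419642218620361201881448752493618492096591845436333052555337965008862775161621140733833825122314982975314926563728334826379248804993180412222658840219011882051452850273663818389969292817291986649832151172002127226567101884121429416128701076575570274521759476197134391076693020633194263663845543276135640214418789167664530895251545949929398540281729116739158537643772277077375790164668521009152850168926203915214313751233)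

noncomputable def t111 : Tre := Helper55.PC.toT t111n

theorem ok111 : chk K t111 r117 = true :=
  Helper55.PC.chkN_sound K t111n r117 (by decide +kernel)

noncomputable def t112 : Tre :=
  (.N [0,0,1,-2,-1] 0 ⟨0,[(11,0)]⟩ ⟨0,[(9,0)]⟩ (.i 1 ⟨0,[(1,0),(8,0),(7,0)]⟩ ⟨0,[(0,0)]⟩))

theorem ok112 : chk K t112 l118 = true := by decide +kernel

open Helper55.PC in
noncomputable def t113n : Helper55.PC.Ten :=
  (q
  42185308043495757668687343554668368868959393499177030921677518628168464643250527236682136408230736545737317671060545798927507720116922731362331634881716602142734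
  (r
  10691386862016745349358875503838469576217287961365984099469409452558318493978221757639717498168199108117502302482977439960029904068856701452651089815465231313909373554399453262305240313680226177985048173986985299089826870756236048025448602930695372378162867067839966811821464683351678271263387746661019125790900767350530416095919410520007577193318425110591449973085468094901925723035149065)
  (s
  5039234216827827230979816724345806259832384663909731024532246421719521126938107753623737727635962685017145868537714944459216887989341477347852375920840050852492032308533481351797918458582339828532820143528808233708919571648967142629930591485831292080288309852163047084044760346005007103740087064326895740060049280749523513237288005716882031543483873303938623684733992628058532313684925691314184120767944387750968405715370815906842133375402473746599505268092128580367840969911705408683004922403814883984065))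

noncomputable def t113 : Tre := Helper55.PC.toT t113n

theorem ok113 : chk K t113 r118 = true :=
  Helper55.PC.chkN_sound K t113n r118 (by decide +kernel)

open Helper55.PC in
noncomputable def t114n : Helper55.PC.Ten :=
  (r
  106007753436346084949017665583061621176303476635614776621820765896556550755171848456642622057558781197539821519284012377806999053545670545170954972681804465993667835385362989787714770271829291273314242067164774486913160675717641573614749325285659011231660087687402407197199874832138712798119189765081085013769758654049725785811164718231363982369119182202906475792876372071446116254915543810144250426916412367799843683730357397419988164084914527249307162407296838546707892674857)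

noncomputable def t114 : Tre := Helper55.PC.toT t114n

theorem ok114 : chk K t114 r114 = true :=
  Helper55.PC.chkN_sound K t114n r114 (by decide +kernel)

noncomputable def t115 : Tre :=
  (.N [0,0,1,-2,-1] 0 ⟨0,[(10,0)]⟩ ⟨0,[(8,0)]⟩ (.i 1 ⟨0,[(1,0)]⟩ ⟨0,[(0,0)]⟩))

theorem ok115 : chk K t115 l121 = true := by decide +kernel

open Helper55.PC in
noncomputable def t116n : Helper55.PC.Ten :=
  (s
  6822426584873416618620501453821762866935885602301338491508011069497096532583093826065036662393356376828760666903449604871205467650573302764706412846167892198195164269064919150507700011244457590092157059916238688075234300504482367270358496108602006868394912470328641167468033272274581122741239401301544900278444210806665000665025747428955270896484813516144565988891812288475748694825675746270728807801570226150004473339623761777807607540167346827279303929218957612876678686976073405635887405852881709881409617100524899545629764753077321876743529127528009894642339610129255459477021522535464182309041065032941492666540801240289247937)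

noncomputable def t116 : Tre := Helper55.PC.toT t116n

theorem ok116 : chk K t116 r121 = true :=
  Helper55.PC.chkN_sound K t116n r121 (by decide +kernel)

open Helper55.PC in
noncomputable def t117n : Helper55.PC.Ten :=
  (s
  571768333791743009189170938369706313541991993420810834487532438566146865325425524254572028767756209645992986051269863678724649355530616530249021627125231909203661565192628575063411517917045816229000644961310954599406622269230782436676871578696961619514804979060897400558005716680144971456755555513263026428156629770063282633345446716181956665643974714988337880442200173042363822597209451445648040758712003080932092913801374166597854171941509034648426631723225469204525045313542603853546268845034096195880329560167763628453099536576031504174752285850215534157363215148712598073233569756398528088788666008134323083912793876424230535655914303055058117203899390302979529729716280913560257)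

noncomputable def t117 : Tre := Helper55.PC.toT t117n

theorem ok117 : chk K t117 r120 = true :=
  Helper55.PC.chkN_sound K t117n r120 (by decide +kernel)

noncomputable def t118 : Tre :=
  (.N [0,1,2,1,1] 0 ⟨0,[(1,0)]⟩ ⟨0,[(0,0)]⟩ (.x (-1) ⟨19,[(11,7),(21,47),(0,4),(1,3),(9,3),(0,4),
  (21,9),(2,9),(8,37)]⟩ ⟨66,[(1,30),(0,1),(0,30),(1,4),(3,30),(7,3),(39,61),(2,35),(2,102),(7,30),
  (5,4),(0,0),(1,63)]⟩))

theorem ok118 : chk K t118 l125 = true := by decide +kernel

noncomputable def t119 : Tre :=
  (.N [0,0,1,-2,-1] 0 ⟨0,[(13,0)]⟩ ⟨0,[(11,0)]⟩ (.i 0 ⟨0,[(0,0)]⟩ ⟨0,[(21,1),(1,0),(10,0)]⟩))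

theorem ok119 : chk K t119 l126 = true := by decide +kernel

noncomputable def t120 : Tre :=
  (.N [0,0,1,-2,-1] 0 ⟨0,[(15,0)]⟩ ⟨0,[(13,0)]⟩ (.i 1 ⟨0,[(1,0)]⟩ ⟨0,[(0,0)]⟩))

theorem ok120 : chk K t120 l128 = true := by decide +kernel

open Helper55.PC in
noncomputable def t121n : Helper55.PC.Ten :=
  (s
  2258827481051336624938153941282711953782854830464174381530770387263909145980332273868105262046035184263151263861697570883587539625393607516450968060332608466736695346513459546499638366917744516749697853656791873589984654539100895100390376307392145831730615007753593977374717691654293918229699296328703574045886459292124053642464113132693302849297990932058524671577795660041310600184571203802557235836691274156530285605252452330912023821324752439005423877993274772027106343792022196610579531876182390860384500136194746494467771517388956835896827701911356904030463398910997389706206097865700966046106771293449774247272845741347760136782529)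

noncomputable def t121 : Tre := Helper55.PC.toT t121n

theorem ok121 : chk K t121 r128 = true :=
  Helper55.PC.chkN_sound K t121n r128 (by decide +kernel)

open Helper55.PC in
noncomputable def t122n : Helper55.PC.Ten :=
  (r
  5271998025273007560151315049915627336664151485422059274734914548105234031386067219463852692392833459959644477507314432015465008135901454444816621146493014101919429198164616275845285912057456576676669634546522224962175484510527497876670437711856989839074595389451171143888276663956375100472316788008444858542289329713404839706053064323130232396021816515042878572540251716315115229720233699713446509884886852797087164982302757897053886754641207423634716861484720431805919795648149016064927931147555550460006339230345719416011366949617699345280402759013730942722857)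

noncomputable def t122 : Tre := Helper55.PC.toT t122n

theorem ok122 : chk K t122 r127 = true :=
  Helper55.PC.chkN_sound K t122n r127 (by decide +kernel)

noncomputable def t123 : Tre :=
  (.N [0,0,1,-2,-1] 0 ⟨0,[(14,0)]⟩ ⟨0,[(12,0)]⟩ (.i 1 ⟨0,[(1,0)]⟩ ⟨0,[(0,0)]⟩))

theorem ok123 : chk K t123 l131 = true := by decide +kernel

open Helper55.PC in
noncomputable def t124n : Helper55.PC.Ten :=
  (q
  181184518429044354586943337494720760083339566743532385637503390559170772665351135129237263809448199031687219106173524929062260023916081020299363366661352819795355840413710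
  (r
  491503710420569953117982992320319469727763602821369559137533596834648427752177424823298544718341866583638640970310848615263799297089262249946668340658196478377306422125897992799412563384649535019347471950259224196278025576360561203087576181466442024313916325958134204296504883461933051849504493038332515344228214187307970037923581168491991697337025263143035196711420283427010332698119092386540553098095764233)
  (r
  36072651813999494314205995114567106890597737804679824218649460035839690769063013282181023192482749910844398981762791620213429459108672238069952981668066120385930423362851634538641297077638141379722690715452713854506258475417524198362778442378530377769864217485444704253175454042762762981959281104115209742830321240489174986479654012009026200210461991840362692074824190315739032523195433056949216471251144494053097761976680058259621821740394433396569643818755926184806905337157633989303779566485802161693852340330793))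

noncomputable def t124 : Tre := Helper55.PC.toT t124n

theorem ok124 : chk K t124 r131 = true :=
  Helper55.PC.chkN_sound K t124n r131 (by decide +kernel)

open Helper55.PC in
noncomputable def t125n : Helper55.PC.Ten :=
  (r
  1112955115720731094502814715399890351518809610837172328400387000904370946546586834502960983829806389935620267604924557890193490757151540826826321396366081361143801727555760493819287236809379719971270229289266211886992791125357374928204839712549918099257487718772138985240920444327969589504197426522412792911520220067143161733429642205935324004295600913141305686827394286596658972441910523087585138875943510511845361484036146189225435971597544958998916039835898940441429829649858816776586386280735962236719293992142792771583062541229604048445991582602289367296094121622914736937)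

noncomputable def t125 : Tre := Helper55.PC.toT t125n

theorem ok125 : chk K t125 r130 = true :=
  Helper55.PC.chkN_sound K t125n r130 (by decide +kernel)

noncomputable def t126 : Tre :=
  (.N [0,0,1,-2,-1] 0 ⟨0,[(14,0)]⟩ ⟨0,[(12,0)]⟩ (.i 1 ⟨0,[(0,0)]⟩ ⟨0,[(1,0)]⟩))

theorem ok126 : chk K t126 l133 = true := by decide +kernel

open Helper55.PC in
noncomputable def t127n : Helper55.PC.Ten :=
  (r
  15263113729338161671209871455244470481350901134133088003589263867862701853939220423853384825210488791241520879060388071358675069139053329840638079052751613187741582726074057040338599203252107123755440794603148368167622605605029578704813711132164901381509269216846270956050155383698286456180837745006077333775542235132538570567535758110483608651383283207286289939998525861075792242207566390393732823424158680693537747937292610771381883860633423398855684167387394252499575902238516554728862557867819751150463735191827967594018927191886946474)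

noncomputable def t127 : Tre := Helper55.PC.toT t127n

theorem ok127 : chk K t127 r133 = true :=
  Helper55.PC.chkN_sound K t127n r133 (by decide +kernel)

noncomputable def t128 : Tre :=
  (.N [0,0,1,-2,-1] 0 ⟨0,[(14,0)]⟩ ⟨0,[(12,0)]⟩ (.i 0 ⟨0,[(0,0)]⟩ ⟨0,[(22,1),(1,0),(10,0)]⟩))

theorem ok128 : chk K t128 l134 = true := by decide +kernel

open Helper55.PC in
noncomputable def t129n : Helper55.PC.Ten :=
  (q
  11874108599765850822209918566054019732821741846104053811912094610905774823928704172095343127478402302111495985314010465853022983522540297525730276643300517313853323181528580110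
  (r
  32211187166122472447540133384704456768078715474501275427637401802155519361166699713219693426661252568425341974630291774849928350734041749001685383064408981313327506432403700417048941514467081848440805327380248707796102157463160347179387049643979527303555852946156893225973327549722522668428899112927167982425949917908633690071759356314581816319117552285405889149879186284281395639433024522859780962893052751651593)
  (r
  2364057309282270859375804095828269917182213344767496959993411012908789974241313638461015535942549498157098531668806311622307313032145943794152438606598381265612336225507844721124396045280093233461506258727909055168922155444962865863903047999719366837525821357126104137936106556146500434785683446439294385706127932816698571913930605331023541056992837097250009387815678136532273235440135900820223850659915005562263814928894955478764065773861748214339879585728599130804249265363768129287919917910770656102189610527673819433))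

noncomputable def t129 : Tre := Helper55.PC.toT t129n

theorem ok129 : chk K t129 r134 = true :=
  Helper55.PC.chkN_sound K t129n r134 (by decide +kernel)

noncomputable def t130 : Tre :=
  (.N [0,1,2,1,1] 0 ⟨0,[(1,0)]⟩ ⟨0,[(0,0)]⟩ (.x (-1) ⟨19,[(11,7),(21,47),(0,4),(1,3),(0,3),(9,4),
  (21,9),(2,5),(8,41)]⟩ ⟨99,[(1,47),(1,46),(1,5),(3,49),(3,2),(26,0),(16,99),(0,5),(1,51),(2,149),
  (7,45),(8,99)]⟩))

theorem ok130 : chk K t130 l136 = true := by decide +kernel

noncomputable def t131 : Tre :=
  (.N [0,0,1,-2,-1] 0 ⟨0,[(13,0)]⟩ ⟨0,[(11,0)]⟩ (.i 1 ⟨0,[(0,0)]⟩ ⟨0,[(3,0),(0,0),(3,0),(1,0),(12,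
  0),(33,0)]⟩))

theorem ok131 : chk K t131 l137 = true := by decide +kernel

open Helper55.PC in
noncomputable def t132n : Helper55.PC.Ten :=
  (r
  3762445816521772113092461891128607642680388220350155092537244869052931787324332309504841241471694938994852269243607559311811009037001668928422924487204249205293304154377042218116156814496077511094592221145298073587467690002762381317409042650518167617650553940306580778978242286572167145053409623800218033582925882102407183792724785904450469758962803155282804375631848935591986908865058207271459632679809489930974510521939167856727261460878958997098015369033781744146010561182312216878435866164963747834791158635477000458988490262634600983595514361413630323269262732305383608590367396947603427694606840750889)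

noncomputable def t132 : Tre := Helper55.PC.toT t132n

theorem ok132 : chk K t132 r137 = true :=
  Helper55.PC.chkN_sound K t132n r137 (by decide +kernel)

noncomputable def t133 : Tre :=
  (.N [0,0,1,-2,-1] 0 ⟨0,[(12,0)]⟩ ⟨0,[(10,0)]⟩ (.i 1 ⟨0,[(0,0)]⟩ ⟨0,[(2,0),(0,0),(3,0),(1,0),(12,
  0),(33,0)]⟩))

theorem ok133 : chk K t133 l138 = true := by decide +kernel

noncomputable def t134 : Tre :=
  (.N [0,0,1,-2,-1] 0 ⟨0,[(13,0)]⟩ ⟨0,[(11,0)]⟩ (.i 2 ⟨1,[(27,2),(9,0),(1,1),(24,1)]⟩ ⟨0,[(0,0)]⟩))

theorem ok134 : chk K t134 l139 = true := by decide +kernel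

open Helper55.PC in
noncomputable def t135n : Helper55.PC.Ten :=
  (r
  57410367073391298112372770555551264078985415959932786446185987381789120289983097984387836326167220138471256549737664011825806354045138236301694092584395187568619719214439739155857141380328783796125573114862541759361830833842296169924204812090772615763841092821829627159724714260841689771792567614960358256958233026878011805292774524221660689439994238991097456364692395778826087374922870329294013992794141558367867566770341895576647408258823569306112723176049350559265347693162796864605842982452825275333721630121901560356009397125722796027959454854490467501663797645673982448942860301433763341244031785)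

noncomputable def t135 : Tre := Helper55.PC.toT t135n

theorem ok135 : chk K t135 r139 = true :=
  Helper55.PC.chkN_sound K t135n r139 (by decide +kernel)

noncomputable def t136 : Tre :=
  (.N [0,0,1,-2,-1] 0 ⟨0,[(13,0)]⟩ ⟨0,[(11,0)]⟩ (.i 1 ⟨0,[(3,0),(0,0),(7,0),(7,0),(19,0)]⟩ ⟨0,[(0,
  0)]⟩))

theorem ok136 : chk K t136 l143 = true := by decide +kernel

open Helper55.PC in
noncomputable def t137n : Helper55.PC.Ten :=
  (q
  181184518425529578184956465320650026874121167986078568685860883548393556246964932762563496261948171084641529271338873045319602502245691908001198173075668320714879204982798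
  (r
  5999810342016182217753180462408954874979137289360205347665530064506617159009925688608028063093958332364015116952993670587129007669736848976304203219591986454669256325630299364490892026618198056501524817847766125880399232604166559002696130141162808653245858660637871783706204245988851975267205549788011302129714496697364430487025641304519702418821022697855569126372909467942156490558996914763807169192713)
  (r
  8398815536300673666414987179847668864189615239465232132157404435893168785400435271067251437151687922449164253950858261695613048011394025600481339779417878482980365416225853625988054233014391030986302520719228793297466587076021980789118171212531489229657744611321521174893151676461715617161573712999804877485468376663502547446528944443442629447102210683933421905273603755473313649151899497238229122336241989613747238891919897349486143113099041151864876290211604108298777906365137603225164594223143738155305))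

noncomputable def t137 : Tre := Helper55.PC.toT t137n

theorem ok137 : chk K t137 r143 = true :=
  Helper55.PC.chkN_sound K t137n r143 (by decide +kernel)

noncomputable def t138 : Tre :=
  (.N [0,1,2,1,-1] 0 ⟨0,[(1,0)]⟩ ⟨0,[(0,0)]⟩ (.x (-1) ⟨7,[(3,5),(9,3),(21,8),(0,1),(12,1),(21,8),(2,
  8),(3,10)]⟩ ⟨7,[(1,1),(2,3),(5,0),(11,7),(18,5),(20,4),(2,15),(7,5),(8,2),(5,0)]⟩))

theorem ok138 : chk K t138 l145 = true := by decide +kernel

noncomputable def t139 : Tre :=
  (.N [0,0,1,-2,-1] 0 ⟨0,[(15,0)]⟩ ⟨0,[(13,0)]⟩ (.i 1 ⟨0,[(5,0),(0,0),(7,0),(7,0),(19,0)]⟩ ⟨0,[(0,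
  0)]⟩))

theorem ok139 : chk K t139 l146 = true := by decide +kernel

noncomputable def t140 : Tre :=
  (.N [0,0,1,-2,-1] 0 ⟨0,[(16,0)]⟩ ⟨0,[(14,0)]⟩ (.i 0 ⟨0,[(0,0)]⟩ ⟨0,[(24,1),(1,0),(10,0)]⟩))

theorem ok140 : chk K t140 l147 = true := by decide +kernel

open Helper55.PC in
noncomputable def t141n : Helper55.PC.Ten :=
  (s
  28510411063044084817746251044550132092263604426146639241535176706189549446640439193630587555512383280303716582677604908944336275025265116391787994901134045292396500582793260623890058881925390056825672601745240067642199232844433558040345596606657694330621908433151801023461202769499320012775088004493802173357622618729241965085864121967352079365982900296668698125785569480502629590259815200500939455773722385781421877954653366508428380704539210018379983948905165435153279576496301696111260410369489854640935782697863143729406249649675278213759440566797411136900582303364680779589718314325976096061792722092737)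

noncomputable def t141 : Tre := Helper55.PC.toT t141n

theorem ok141 : chk K t141 r147 = true :=
  Helper55.PC.chkN_sound K t141n r147 (by decide +kernel)

noncomputable def t142 : Tre :=
  (.N [0,-1,2,2] (-1) ⟨0,[(1,0)]⟩ ⟨0,[(0,0)]⟩ (.x 0 ⟨23,[(4,13),(9,23),(21,22),(0,5),(12,5),(21,22),
  (2,22),(3,48)]⟩ ⟨3,[(1,1),(3,2),(6,1),(29,1),(5,3),(14,1),(2,5),(7,1),(1,1),(3,3),(8,4)]⟩))

theorem ok142 : chk K t142 l149 = true := by decide +kernel

noncomputable def t143 : Tre :=
  (.N [0,0,1,-2,-1] 0 ⟨0,[(16,0)]⟩ ⟨0,[(14,0)]⟩ (.i 1 ⟨0,[(6,0),(0,0),(7,0),(7,0),(19,0)]⟩ ⟨0,[(0,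
  0)]⟩))

theorem ok143 : chk K t143 l150 = true := by decide +kernel

noncomputable def t144 : Tre :=
  (.N [0,0,1,-2,-1] 0 ⟨0,[(17,0)]⟩ ⟨0,[(15,0)]⟩ (.i 0 ⟨0,[(0,0)]⟩ ⟨0,[(25,1),(1,0),(10,0)]⟩))

theorem ok144 : chk K t144 l151 = true := by decide +kernel

open Helper55.PC in
noncomputable def t145n : Helper55.PC.Ten :=
  (q
  11874108600456883935795111858888279933721539493971311231188763658901274959064516401642048230707132403107116753790451746667517664009588871806683708908126579102456050493425844238
  (r
  786404131790877044868414247293104378657376542055620089841081467591285627570240949992651713939261231468563199989954674174684797318933286168514873284040092510974018797375413148921071136381033646854436820181514159499924003367620469010109053492291187129632738776731399371669121158175963647976701035139683899515441359896840219238103401035362711990609399976224913996831288076019005807753279068170886531014163964681)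
  (r
  29838632371051654147412592507705660704989337698503262972534060056118244642549837273049524109520779760973520923296188461647269575586618012123111801528786958651415509956788617183155488777755244311728075462064208861870496581922185194840311873281344025128086166036433913404200068735380071853808649797672005350085422833289502479363762591601626994560221774858972961870752379218869960508764573093151093353060331554251640628019005597148810745180871095546918492103944303759619439713540383201846108457))

noncomputable def t145 : Tre := Helper55.PC.toT t145n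

theorem ok145 : chk K t145 r151 = true :=
  Helper55.PC.chkN_sound K t145n r151 (by decide +kernel)

noncomputable def t146 : Tre :=
  (.N [0,0,1,-2,-1] 0 ⟨0,[(15,0)]⟩ ⟨0,[(13,0)]⟩ (.i 0 ⟨0,[(0,0)]⟩ ⟨0,[(23,1),(1,0),(10,0)]⟩))

theorem ok146 : chk K t146 l152 = true := by decide +kernel

noncomputable def t147 : Tre :=
  (.N [0,0,1,-2,-1] 0 ⟨0,[(16,0)]⟩ ⟨0,[(14,0)]⟩ (.i 1 ⟨0,[(6,0),(0,0),(7,0),(7,0),(19,0)]⟩ ⟨0,[(0,
  0)]⟩))

theorem ok147 : chk K t147 l153 = true := by decide +kernel

open Helper55.PC in
noncomputable def t148n : Helper55.PC.Ten :=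
  (q
  11874108600226539594771141875653818876020415808041040507236393135067319328674754068213707887097576240206903297600728899991952441803111538678929247069158622841910813763429335054
  (r
  2444636461365313865602125171160192798371950229179903129852996249399191734393570580349278522605905748161405432529749110077003042886344835052332985210968940913345766086344770590816836994473490560160995341704850562417285781064297186704743015358084806420085095574778315976864400369121470016170068134278921768256754716203607486378874876791977331576242313890971435497635563061537532322614240979723017)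
  (r
  29838620988673422905808326564199395225523969343584098326707624916274669686106202038667944375781359380062748706096687528384391161376008346719194510184816705171767631731102622335383020531779771272631519269056306164843386676564450182921327099932698933170192398990689338099451509413971050600759578187250235654939292130384027660461655077289187398088151081812017304629742441501193514770247217136769697164409298977064046329497001480585604850013801780007892802363867798409623932984713252968318902569))

noncomputable def t148 : Tre := Helper55.PC.toT t148n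

theorem ok148 : chk K t148 r153 = true :=
  Helper55.PC.chkN_sound K t148n r153 (by decide +kernel)

noncomputable def t149 : Tre :=
  (.N [0,0,1,-2,-1] 0 ⟨0,[(12,0)]⟩ ⟨0,[(10,0)]⟩ (.i 1 ⟨0,[(2,0),(0,0),(7,0),(7,0),(19,0)]⟩ ⟨0,[(0,
  0)]⟩))

theorem ok149 : chk K t149 l154 = true := by decide +kernel

open Helper55.PC in
noncomputable def t150n : Helper55.PC.Ten :=
  (q
  181184518422014801782969593146579293664902769228624751734218376537616339828578730395889728714448143137595839436503436428084896347911072016057335051370973550442314392010766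
  (r
  2364055505672354293292723750609899466147493347655005625515016138033083455579581766563523245546564642342298791996345253966468629892115876684191829945421686835628951858454497359454407966081385929427038187460294990507302157048001221009954567909028105772968226176252982893172175026420357080736311152572018194973542870879264032388878495845544824607532494993533615364299433332604842008657231860285670131626512299832408480005889724020697655852608207325170333799346838397567996453419995256244750679542321852217738646933408588073)
  (r
  1531226154563344903488560236317907118582812394564416905709262377909926488117383667463412908267097512088310471208258620131799075596173735147490614585049385925432015980129859663811330177774518284141122842477898104496223816893546793452454986124002832943262520735361424153395841873170775337043481958694362286159943403536245462917320697346147119961993322951542063645744368624258293291072877149342426703214762705296365313388047859540555848306926345))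

noncomputable def t150 : Tre := Helper55.PC.toT t150n

theorem ok150 : chk K t150 r154 = true :=
  Helper55.PC.chkN_sound K t150n r154 (by decide +kernel)

noncomputable def t151 : Tre :=
  (.N [0,1,2,1,1] 0 ⟨0,[(1,0)]⟩ ⟨0,[(0,0)]⟩ (.x (-1) ⟨23,[(2,9),(9,11),(21,30),(0,5),(12,5),(21,30),
  (2,30),(3,28)]⟩ ⟨1,[(1,0),(8,0),(2,0),(12,0),(13,0),(17,1),(2,0),(2,2),(7,0),(8,1)]⟩))

theorem ok151 : chk K t151 l157 = true := by decide +kernel

noncomputable def t152 : Tre :=
  (.N [0,0,1,-2,-1] 0 ⟨0,[(14,0)]⟩ ⟨0,[(12,0)]⟩ (.i 0 ⟨0,[(0,0)]⟩ ⟨0,[(22,1),(1,0),(10,0)]⟩))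

theorem ok152 : chk K t152 l158 = true := by decide +kernel

noncomputable def t153 : Tre :=
  (.N [0,0,1,-2,-1] 0 ⟨0,[(16,0)]⟩ ⟨0,[(14,0)]⟩ (.i 1 ⟨0,[(1,0)]⟩ ⟨0,[(0,0)]⟩))

theorem ok153 : chk K t153 l160 = true := by decide +kernel

open Helper55.PC in
noncomputable def t154n : Helper55.PC.Ten :=
  (s
  131108434154492890028463750353131502174427179671993978007009128630237948550575677194734644173691913719232163975181911973741840535740553756896551011651470536802509584691113258226093973530887621981474072130714374542216933756070340025933760881619470450296548026341175758222335809291373432894814289898842516425019759265996880657321348000437947154053654873173214155662069201347905027556482116528429234080452648003789067971169424281473479694292578581754264684487012528345726897259211880190269987696889173096100568186164946720032907113905578053945992938177)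

noncomputable def t154 : Tre := Helper55.PC.toT t154n

theorem ok154 : chk K t154 r160 = true :=
  Helper55.PC.chkN_sound K t154n r160 (by decide +kernel)

open Helper55.PC in
noncomputable def t155n : Helper55.PC.Ten :=
  (s
  206920833700083985145732570493088932488581154674813489773369791949974103569838521063739159734029948397381696643913794380822183948071502495553980190874038274602597517534936177316805306108253372089592069840048930101323760729067751573143407141021610029536123483947030059719877566928888525057270356796119488211746014115887271584406757174896772450929779238139236721445012045797786386828183800970657171258804392272007839839749075411093534413489205169325172644004726588091801487365075106153436109111050987669468951405918828401977408510806493303892814548181082124257363563238638144662021713995703155783750932495173386481219734161706554108944808922824437077473714309949525835480616697814501854287071345115841)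

noncomputable def t155 : Tre := Helper55.PC.toT t155n

theorem ok155 : chk K t155 r159 = true :=
  Helper55.PC.chkN_sound K t155n r159 (by decide +kernel)

noncomputable def t156 : Tre :=
  (.N [0,0,1,-2,-1] 0 ⟨0,[(16,0)]⟩ ⟨0,[(14,0)]⟩ (.i 1 ⟨0,[(1,0)]⟩ ⟨0,[(0,0)]⟩))

theorem ok156 : chk K t156 l164 = true := by decide +kernel

open Helper55.PC in
noncomputable def t157n : Helper55.PC.Ten :=
  (s
  30526061112641564111333233029331609630807373571994689816562912971866177734303725837366623365045624197891488458032887391938271885989391527257998110454302903555846345562055682959944636040645628890076242205531910018065477495966691266654979083778989692250704500266452566109202600725486441308037690858377481697905432250305810213149387556000308334798191913360686077890173533599498441765075910204556019405292316687403584540047720609175801345670979324932430944871872011610857151823322116831538019561650684174019101965459562575261309857097233466049)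

noncomputable def t157 : Tre := Helper55.PC.toT t157n

theorem ok157 : chk K t157 r164 = true :=
  Helper55.PC.chkN_sound K t157n r164 (by decide +kernel)

open Helper55.PC in
noncomputable def t158n : Helper55.PC.Ten :=
  (s
  206920832875713035405865016029944147590893645873582285348268073581168771505093113096389799407803627110916691936559249276791330534938218519714366906479559310238677747562164575674486204336059517188395822059908644175553794130766140028004535829637242070289516287572418778418316057874551098977692268137472539983454684370815878331131573207822717828038677449333758602029347320531977633500153413646196582118113087229305066004629253202241843085395799417870918392729108342274077568946858465613847637756282937921431072500673396073362828102548903814302191585174806848225625479868329796278721332973282737726661013289224262350584865226457142035602411440756920515034970121337618263411427843946435453265936586375873)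

noncomputable def t158 : Tre := Helper55.PC.toT t158n

theorem ok158 : chk K t158 r163 = true :=
  Helper55.PC.chkN_sound K t158n r163 (by decide +kernel)

noncomputable def t159 : Tre :=
  (.N [0,-2,0,0,5] (-1) ⟨0,[(2,0)]⟩ ⟨0,[(0,0)]⟩ (.x 0 ⟨4,[(37,1),(12,1),(8,22),(3,1),(2,3),(12,3)]⟩
  ⟨0,[(4,0)]⟩))

theorem ok159 : chk K t159 l165 = true := by decide +kernel

noncomputable def t160 : Tre :=
  (.N [0,0,1,-2,-1] 0 ⟨0,[(17,0)]⟩ ⟨0,[(15,0)]⟩ (.i 1 ⟨0,[(0,0)]⟩ ⟨0,[(1,0)]⟩))

theorem ok160 : chk K t160 l167 = true := by decide +kernel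

open Helper55.PC in
noncomputable def t161n : Helper55.PC.Ten :=
  (s
  653129006879495335081150055099732516197014899203752685277823439792910521951162202684649036048150853909257058796632530408983935374205283015805111473316439819206732994309352436233818735854973623755668814451785979373571636850172396849603803319897303538436918753206499521426399376257316975266394785860862846739646481103644215989075064269939905430204109204864939616786316483676099391820006219968678699160960734556767806424068431530845564688865060285593078936689960433351955475868974727508554596258939099519775212944613058784989979612902121553467772151184439577525998339516130024980447767986916570462898120987057607589538573551056015793483808007423111393283738174145)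

noncomputable def t161 : Tre := Helper55.PC.toT t161n

theorem ok161 : chk K t161 r167 = true :=
  Helper55.PC.chkN_sound K t161n r167 (by decide +kernel)

noncomputable def t162 : Tre :=
  (.N [0,0,1,-2,-1] 0 ⟨0,[(17,0)]⟩ ⟨0,[(15,0)]⟩ (.i 0 ⟨0,[(0,0)]⟩ ⟨0,[(25,1),(1,0),(10,0)]⟩))

theorem ok162 : chk K t162 l168 = true := by decide +kernel

open Helper55.PC in
noncomputable def t163n : Helper55.PC.Ten :=
  (s
  10758461364045640585862561120332115013376227178705297422823396943310685026568522089271410680492976499196769648139581309075185380712613765610665471612856174508219584161896699344760014592275456549297973392458618236793758523107523972852072607230082253289545384348518197460412806302256267516796466940067295155209026114455808127440463926754021998316168267938179761916076977077364567422378661298118182994044879120995069839513938155139096221926069362355854875197760724378086989222968460999529005913318181963418718169375103463267315991020977163474938055944605264073454486220985871631041)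

noncomputable def t163 : Tre := Helper55.PC.toT t163n

theorem ok163 : chk K t163 r168 = true :=
  Helper55.PC.chkN_sound K t163n r168 (by decide +kernel)

noncomputable def t164 : Tre :=
  (.N [0,0,1,-2,-1] 0 ⟨0,[(15,0)]⟩ ⟨0,[(13,0)]⟩ (.i 1 ⟨0,[(1,0)]⟩ ⟨0,[(0,0)]⟩))

theorem ok164 : chk K t164 l170 = true := by decide +kernel

noncomputable def t165 : Tre :=
  (.N [0,0,1,-2,-1] 0 ⟨0,[(16,0)]⟩ ⟨0,[(14,0)]⟩ (.i 0 ⟨0,[(0,0)]⟩ ⟨0,[(24,1),(1,0),(10,0)]⟩))

theorem ok165 : chk K t165 l171 = true := by decide +kernel

open Helper55.PC in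
noncomputable def t166n : Helper55.PC.Ten :=
  (s
  131108434154492890028463750353131502174427179671993978007009128630237948550575677194734644173691913719232163975181911973741840535740553756896551011651470536802509584691113258226093973530887621981474072130714374542216933756070340025933760881619467707276369434465047697478758069165644716423551199190054866964797030713022838755415582697478740645144967688919712130448116520114846517954886521804634867396469148582308118338444308773175656403305145098444392028624754524273379401250493169589010198008146569879846016672333080992419558071955611740377801818817)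

noncomputable def t166 : Tre := Helper55.PC.toT t166n

theorem ok166 : chk K t166 r171 = true :=
  Helper55.PC.chkN_sound K t166n r171 (by decide +kernel)

open Helper55.PC in
noncomputable def t167n : Helper55.PC.Ten :=
  (s
  199257107823056895876242906956882448092041409111855534771514572397519148851627200985558781674706550543800520730876305334729875938169670666924563764150138795111745179633431964100565173558192414866353935166854323649178841909831303307978713121867668582793837351169123226647894905735482898733291743718956329477011362052629872811817494123360289006922058631798474450305630153379555450676155670020281742742191453223101694228788150161376196955670577334505760786418458123063415700577830903113015615634404295097240074236966568350824604396536338834699625152321247352884514686658875897972262078173783546057039360969454416054149068915441565463755588747699598415051515317013314764998946573462310705011511933272769)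

noncomputable def t167 : Tre := Helper55.PC.toT t167n

theorem ok167 : chk K t167 r169 = true :=
  Helper55.PC.chkN_sound K t167n r169 (by decide +kernel)

noncomputable def t168 : Tre :=
  (.N [0,0,1,-2,-1] 0 ⟨0,[(13,0)]⟩ ⟨0,[(11,0)]⟩ (.i 1 ⟨0,[(0,0)]⟩ ⟨0,[(1,0)]⟩))

theorem ok168 : chk K t168 l173 = true := by decide +kernel

open Helper55.PC in
noncomputable def t169n : Helper55.PC.Ten :=
  (k
  111225080144907548185999388904580981677146884700435356987418213215372491241383977099443216031211089209976839879590131254552974096775868330737296319664810145323285371374830561742470941261312281186659973984798392978445888729852537849347475196573341528307667599772899020381107133654123612932637270644004987955849882263885668877720663569804157013663202415788798507644981459510905504004509765864948552743351933978368301676210258218273232424041)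

noncomputable def t169 : Tre := Helper55.PC.toT t169n

theorem ok169 : chk K t169 r173 = true :=
  Helper55.PC.chkN_sound K t169n r173 (by decide +kernel)

open Helper55.PC in
noncomputable def t170n : Helper55.PC.Ten :=
  (k
  83550038412472604696428441707794271354289777772423717445497962889384777490045407022519097010008485592483932558698642022430376422662939744756391135663787938244393119739740258608418523798503791438333644541529427682895745032048445923282085746470108590967533425118705098157068245409489696369059566700335711054567713178531640739530465446398754899451531457046392967889142794524174807374942392566275463132919555551169577)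

noncomputable def t170 : Tre := Helper55.PC.toT t170n

theorem ok170 : chk K t170 r172 = true :=
  Helper55.PC.chkN_sound K t170n r172 (by decide +kernel)

open Helper55.PC in
noncomputable def t171n : Helper55.PC.Ten :=
  (q
  643696716872390387554860656500131734875774518351642099885139940999503959859973650402142658081993230449812427815707605142140134656844419879745355987527270414
  (q
  643696716884877381756124714151088335661025152709277659689429370007312756584904232195605047858766110244424808961226682558055735431691926082034661216890257422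
  (r
  4406209067575594323073201718492194133203121158394379350742869561502241965665509226435668810711255568736354612037924666154027270565618823448109749612761627383149255447728416477535926013161597493370766612739312205971201472732337797500141270453057260810160609909152631294402837285728862889465176424209931594614165594151884725129814089633422496347975165393454972800543184592752146482899467804639905195900660864902921671181484635421424928948824494670357289)
  (s
  17168440300455749753644747014923930816611718748141041692519287516482960276836317658250976527621288802587883232412701157760244914927489563167758005421156227294518049692035470980870589465500407529450347758447083980452500025011370644058736284696205182308192483922300430824808174080088461089993976355706170161481721799679728735040896444832218113076234325271254321280506460852294817550611689859715084496658937545333754753943502518230141151400706253446817861494823214395498590392095151750596253282990133743055403759646119230256821453075979999471136663500358673586026778262367019787335134927284762953615530736298795457315521))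
  (q
  643696716884877381756124714151088335661025152709226055848078746839622023302214421722011447194474480488679006352397606221548422271890411533106603491319742478
  (q
  643696716897364375922500335584995381967757231269729612846036370602466729081372663044109991806040560403594342505294041814980599889548475195791531899464318990
  (r
  10689759972472894864831517030962977742570196969751651669059298761262007583829663625451839425369593632471182267251013955746985758976876333482012747941878189540992071566402162120326360804217209873170205319510610180557084494830204579140549455920082180710105183454769099936849869324703724224989008344972111168491733958594746260507292220587683024856867548014448666560992413627887490603942159113)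
  (s
  189790795527280868468761247866556077585348374913471801497192408997698209715719318728236680089484450713608002726321105436061793408935865487170698713622252532434216435090150043401835332605916478776480539417117261670570706034426159015581837116315391193575143720081966557871068172061709418146384020528489959307071868863769265154564258071592797120821912946128761515338296879111003314148069455724296787130430720534072897162860016814630321425210724722913458606500881685737022725360177341879002616233812381888363008560966985913631910732328276706643752004237637465184142017))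
  (r
  8398786701607865600246169397434892501271558468799553835334548129317713874194125042786944286967598810285887416774808684217164849932115115019785242022917478983503710116969378287753282061395773445966629257293554655102558695911291098485535027422940980234647772740058896044167931913772851935262094993530693326865413088764008517661401436804624507493330559335073848937239359290601886882970911673899003652107412686341596127442374305339855318372577664232761592705665317148410933068458067541512413224852678288613673)))

noncomputable def t171 : Tre := Helper55.PC.toT t171n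

theorem ok171 : chk K t171 l174 = true :=
  Helper55.PC.chkN_sound K t171n l174 (by decide +kernel)

noncomputable def t172 : Tre :=
  (.N [0,0,1,-2] 0 ⟨0,[(1,0)]⟩ ⟨0,[(2,0)]⟩ (.x 0 ⟨0,[(0,0)]⟩ ⟨15,[(5,15),(22,6),(1,3),(10,6),(18,1),
  (10,3)]⟩))

theorem ok172 : chk K t172 l177 = true := by decide +kernel

noncomputable def t173 : Tre :=
  (.N [0,1,2,1] 0 ⟨0,[(1,0)]⟩ ⟨0,[(0,0)]⟩ (.x (-1) ⟨3,[(2,0),(26,8),(0,0),(1,1),(0,1),(9,0),(21,1),
  (11,8)]⟩ ⟨9,[(1,5),(14,4),(0,7),(17,3),(2,7),(17,3),(2,19),(7,11),(5,4),(5,1)]⟩))

theorem ok173 : chk K t173 l179 = true := by decide +kernel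

noncomputable def t174 : Tre :=
  (.N [0,0,1,-2] 0 ⟨0,[(4,0)]⟩ ⟨0,[(5,0)]⟩ (.x (-1) ⟨4,[(17,8),(12,3),(7,7),(18,1),(5,3),(9,0),(0,
  0),(0,1)]⟩ ⟨0,[(0,0)]⟩))

theorem ok174 : chk K t174 l180 = true := by decide +kernel

noncomputable def t175 : Tre :=
  (.N [0,0,1,-2] 0 ⟨0,[(6,0)]⟩ ⟨0,[(7,0)]⟩ (.i 1 ⟨1,[(25,2),(9,0),(26,1)]⟩ ⟨0,[(0,0)]⟩))

theorem ok175 : chk K t175 l182 = true := by decide +kernel

noncomputable def t176 : Tre :=
  (.N [0,0,1,-2] 0 ⟨0,[(7,0)]⟩ ⟨0,[(8,0)]⟩ (.i 0 ⟨0,[(0,0)]⟩ ⟨0,[(20,1),(12,0)]⟩))

theorem ok176 : chk K t176 l183 = true := by decide +kernel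

open Helper55.PC in
noncomputable def t177n : Helper55.PC.Ten :=
  (s
  104100495528361060495408503385104711341228230862942617698744186617961845932490472747152678218448466123872234649939264965377424912058285254856419645411879987873883833848406734191293815723508882699925221647698863936537151909002323545290088012500089241539370745871212456033652612908878325663324608723449559502861455351559644115632263297976183927272321583963159062098199038129832628095903023393816504111833414958867681973617468188598191051036788885391821920048702993691805988522750789937444648790816822738262161675434589865998063638406276715582734363685648884689629302570767784642821278280859362405603362357329907862870316802900673)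

noncomputable def t177 : Tre := Helper55.PC.toT t177n

theorem ok177 : chk K t177 r183 = true :=
  Helper55.PC.chkN_sound K t177n r183 (by decide +kernel)

noncomputable def t178 : Tre :=
  (.N [0,0,1,-2] 0 ⟨0,[(6,0)]⟩ ⟨0,[(7,0)]⟩ (.i 0 ⟨0,[(0,0)]⟩ ⟨0,[(19,1),(12,0)]⟩))

theorem ok178 : chk K t178 l184 = true := by decide +kernel

open Helper55.PC in
noncomputable def t179n : Helper55.PC.Ten :=
  (i 178471303778386496655666957562636154049789995 (s
  5643299170433330077536880164224903903511975877931994288540510903656919626161665842331088123334991168927542390406155350543537325451843810985892563868023766341269191831463686440372020977674199290394843501986753430625742756664054376741708758425722963658294599134291112341486658741761566351858605649215240293266046162902651699501183757447214062309889339849230310278984260453195729445652046960779928584146555482858283347106664509966382596457807867835979667347821941175479109521785404399852022049932687951445643905693312501499745745361527161340600637381224538086143097446948582941980528812987407879010378180461249)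
  (s
  24237785378555082831394044539217071454326675940058803581340281902337876598464900801692315893817801522992605960448101387679908636970977591084414079182753336586496754048486876289004605413586213702639459581211238126097770622404712261978077789630963532997528321402653911362436401996636385186238887274055889617195116299642254433939691379572307053640575992680033774250471454252185233282695420844340692841381845931767328060838601607241875334990050713928593688716754176080126220194437680901343953852987363840136620432336427378999522778701844516483000204822383785508969521271526876519898374308378101091269733868201754288456385))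

noncomputable def t179 : Tre := Helper55.PC.toT t179n

theorem ok179 : chk K t179 r184 = true :=
  Helper55.PC.chkN_sound K t179n r184 (by decide +kernel)

noncomputable def t180 : Tre :=
  (.N [0,0,1,-2] 0 ⟨0,[(3,0)]⟩ ⟨0,[(4,0)]⟩ (.x (-1) ⟨4,[(16,8),(12,3),(7,7),(18,1),(5,3),(9,0),(0,
  0),(0,1)]⟩ ⟨0,[(0,0)]⟩))

theorem ok180 : chk K t180 l185 = true := by decide +kernel

noncomputable def t181 : Tre :=
  (.N [0,0,1,-2] 0 ⟨0,[(5,0)]⟩ ⟨0,[(6,0)]⟩ (.i 1 ⟨1,[(24,2),(9,0),(26,1)]⟩ ⟨0,[(0,0),(1,0),(2,0),
  (22,0)]⟩))

theorem ok181 : chk K t181 l187 = true := by decide +kernel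

noncomputable def t182 : Tre :=
  (.N [0,1,2,0,2] 0 ⟨0,[(1,0)]⟩ ⟨0,[(0,0)]⟩ (.x (-1) ⟨3,[(33,5),(0,0),(12,0),(21,3),(2,3),(3,1),(4,
  1)]⟩ ⟨3,[(25,2),(31,5),(2,0),(2,1),(16,5),(1,2)]⟩))

theorem ok182 : chk K t182 l189 = true := by decide +kernel

noncomputable def t183 : Tre :=
  (.N [0,1,2,1,-1] 0 ⟨0,[(1,0)]⟩ ⟨0,[(0,0)]⟩ (.x (-1) ⟨3,[(35,7),(0,0),(1,3),(0,1),(8,1),(0,0),(21,
  1),(11,7)]⟩ ⟨39,[(1,9),(0,0),(3,15),(2,15),(11,7),(5,2),(13,29),(2,7),(17,28),(2,95),(7,29),(5,7),
  (2,7)]⟩))

theorem ok183 : chk K t183 l191 = true := by decide +kernel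

noncomputable def t184 : Tre :=
  (.N [0,0,1,-2] 0 ⟨0,[(10,0)]⟩ ⟨0,[(11,0)]⟩ (.i 0 ⟨0,[(0,0)]⟩ ⟨0,[(23,1),(12,0)]⟩))

theorem ok184 : chk K t184 l192 = true := by decide +kernel

noncomputable def t185 : Tre :=
  (.N [0,0,1,-2] 0 ⟨0,[(11,0)]⟩ ⟨0,[(12,0)]⟩ (.i 1 ⟨1,[(30,2),(9,0),(26,1)]⟩ ⟨0,[(0,0)]⟩))

theorem ok185 : chk K t185 l193 = true := by decide +kernel

open Helper55.PC in
noncomputable def t186n : Helper55.PC.Ten :=
  (s
  431479051744348713846791353230456388244324884903988806843196228154612219838514340956980720941893106316775773929305106209677576923301927818630421969498806690536025271526683672796255689911375716354623096242727373350726442459042004024125312337781871830570086086666544230697733155592603519060844767667343648456096408722217415450866827331561543285112207908554910200071751391569873513692946803191428839420026454377799347526438620694043279920100564481251695953916588486716476056330224250582573881343914943966722294467759177912596568853797810737015767535776368182266682834415742064409855875603827973834118229308300329665)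

noncomputable def t186 : Tre := Helper55.PC.toT t186n

theorem ok186 : chk K t186 r193 = true :=
  Helper55.PC.chkN_sound K t186n r193 (by decide +kernel)

noncomputable def t187 : Tre :=
  (.N [0,-1,2,2] (-1) ⟨0,[(1,0)]⟩ ⟨0,[(0,0)]⟩ (.x 0 ⟨3,[(9,3),(26,9),(0,0),(12,0),(28,1),(4,9)]⟩
  ⟨14,[(1,7),(5,5),(4,2),(2,2),(26,6),(5,14),(14,6),(2,20),(7,6),(5,17),(0,3),(1,14),(2,13)]⟩))

theorem ok187 : chk K t187 l195 = true := by decide +kernel

noncomputable def t188 : Tre :=
  (.N [0,-2,1,0,-2] (-1) ⟨0,[(1,0)]⟩ ⟨0,[(0,0)]⟩ (.x 1 ⟨0,[(38,0),(17,0)]⟩ ⟨35,[(39,6),(10,35),(1,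
  6),(12,7),(5,17),(6,19),(0,19)]⟩))

theorem ok188 : chk K t188 l197 = true := by decide +kernel

noncomputable def t189 : Tre :=
  (.N [0,0,1,-2] 0 ⟨0,[(13,0)]⟩ ⟨0,[(14,0)]⟩ (.i 1 ⟨1,[(32,2),(9,0),(26,1)]⟩ ⟨0,[(0,0)]⟩))

theorem ok189 : chk K t189 l198 = true := by decide +kernel

noncomputable def t190 : Tre :=
  (.N [0,0,1,-2] 0 ⟨0,[(14,0)]⟩ ⟨0,[(15,0)]⟩ (.i 0 ⟨0,[(0,0)]⟩ ⟨0,[(27,1),(12,0)]⟩))

theorem ok190 : chk K t190 l199 = true := by decide +kernel

open Helper55.PC in
noncomputable def t191n : Helper55.PC.Ten :=
  (s
  120070023086890679972422998277721286587050816733714686010844095354181978562159580773599515965916511118293700248781854333757849855380672926776289187794049608051186824132521476320800022534030306093351107598417268704601552296527370098335023593499990264439359890953752275621426850601127645202473503170206963153156478899424989247165904408759339765523597628361766198163944915035795407810461271385118214991353955329298629353874096720110696922041837427878480961065239968397582513957207627788578935872486855322650773125916742481085121)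

noncomputable def t191 : Tre := Helper55.PC.toT t191n

theorem ok191 : chk K t191 r199 = true :=
  Helper55.PC.chkN_sound K t191n r199 (by decide +kernel)

noncomputable def t192 : Tre :=
  (.N [0,0,1,-2] 0 ⟨0,[(12,0)]⟩ ⟨0,[(13,0)]⟩ (.i 1 ⟨1,[(31,2),(9,0),(26,1)]⟩ ⟨0,[(0,0)]⟩))

theorem ok192 : chk K t192 l200 = true := by decide +kernel

noncomputable def t193 : Tre :=
  (.N [0,0,1,-2] 0 ⟨0,[(13,0)]⟩ ⟨0,[(14,0)]⟩ (.i 0 ⟨0,[(0,0)]⟩ ⟨0,[(26,1),(12,0)]⟩))

theorem ok193 : chk K t193 l201 = true := by decide +kernel

open Helper55.PC in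
noncomputable def t194n : Helper55.PC.Ten :=
  (s
  25061276319032507003502071276412377013722400333228222217584600608528458516049913067950847520295807018257568674760620866473841391714642234173005260808888884613268685428603841493650034663992896410144308229574673970828474669092524094758252865167132076671681091140968257445824408171826381895349078766644986268703098892665708436136250641177366707113559172441166168425720321481689296193296356765050001829232183197656093272276802368120144484916720931388438976260218635366176856044523585542377613288634662181140384658866700250553107214810233998751753540118650526212480013818676542249170179480129372865)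

noncomputable def t194 : Tre := Helper55.PC.toT t194n

theorem ok194 : chk K t194 r201 = true :=
  Helper55.PC.chkN_sound K t194n r201 (by decide +kernel)

noncomputable def t195 : Tre :=
  (.N [0,0,1,-2] 0 ⟨0,[(10,0)]⟩ ⟨0,[(11,0)]⟩ (.i 1 ⟨1,[(29,2),(9,0),(26,1)]⟩ ⟨0,[(0,0)]⟩))

theorem ok195 : chk K t195 l202 = true := by decide +kernel

noncomputable def t196 : Tre :=
  (.N [0,0,1,-2] 0 ⟨0,[(11,0)]⟩ ⟨0,[(12,0)]⟩ (.i 0 ⟨0,[(0,0)]⟩ ⟨0,[(24,1),(12,0)]⟩))

theorem ok196 : chk K t196 l203 = true := by decide +kernel

open Helper55.PC in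
noncomputable def t197n : Helper55.PC.Ten :=
  (s
  6583847835454654982683173468353231289370218027627516912244863573114410167568795336886759044768267308859822747378314836713916869161965970811701670660523042030604259804332956090136593443873971703121275301890459786655901127636580567954249458890362162751132232335620422786644325395272390967982788621197817126334049149002168921992557595876481304362368128244587549573388435723359226167832222696573902854592799341046403807949110788014367592661306293549926895998831402516993573162296898987638907446688270238954626637136079093610777331940279632128811429750476300577446911774355639575646679689217132778636234154050241)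

noncomputable def t197 : Tre := Helper55.PC.toT t197n

theorem ok197 : chk K t197 r203 = true :=
  Helper55.PC.chkN_sound K t197n r203 (by decide +kernel)

noncomputable def t198 : Tre :=
  (.N [0,0,1,-2] 0 ⟨0,[(7,0)]⟩ ⟨0,[(8,0)]⟩ (.i 1 ⟨1,[(26,2),(9,0),(26,1)]⟩ ⟨0,[(0,0)]⟩))

theorem ok198 : chk K t198 l204 = true := by decide +kernel

open Helper55.PC in
noncomputable def t199n : Helper55.PC.Ten :=
  (s
  125849776878912934440220809593478697700634319257324576158593789263911028833611221293130364299220749660143467566988891151316302311117589565361651964404910242897841463067463097891904683757600820475584426956166496537328191563653635535794044959099528537892939181123568746024388352112286817913781699963529745653649618636934634325058680150254834681877630538364184744556682023853620098180678928814478052480234218801071549962835963110188587347662515345160589128862594909758743669062608643434070608401259246569102314967764256074634355146372258902529589262794569984219403023042752512505422139622668078871315749635952759056724528200277275824526625152544254460609)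

noncomputable def t199 : Tre := Helper55.PC.toT t199n

theorem ok199 : chk K t199 r204 = true :=
  Helper55.PC.chkN_sound K t199n r204 (by decide +kernel)

noncomputable def t200 : Tre :=
  (.N [0,0,1,-2] 0 ⟨0,[(5,0)]⟩ ⟨0,[(6,0)]⟩ (.i 1 ⟨1,[(24,2),(9,0),(26,1)]⟩ ⟨0,[(0,0)]⟩))

theorem ok200 : chk K t200 l205 = true := by decide +kernel

open Helper55.PC in
noncomputable def t201n : Helper55.PC.Ten :=
  (s
  95425465267053860093024429626872481468052709345992108317600941222119997189001506444324841226376640397190441506836423160298614513917023720665113116701644763548973476608574871898815610623161313906431692851638091032784551543525735622101199670241363769196053942451316319590838316146575214881724419107731376397947289806238299882289747369454171216724901765607864252536554138053512219876755684761526215992191882163472414325313203492192537828857947445080420637830803368945250473514528258682315887249871656353242574037009710982685640737753720861570486216640060847274171329543938276295825308253706377910519752542506586336692044498469569)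

noncomputable def t201 : Tre := Helper55.PC.toT t201n

theorem ok201 : chk K t201 r205 = true :=
  Helper55.PC.chkN_sound K t201n r205 (by decide +kernel)

open Helper55.PC in
noncomputable def t202n : Helper55.PC.Ten :=
  (s
  73737889613785859087064245231291906785113905553615834864742827732515375330279090687255248746197076080485958649079318647601588518563869885186846794926056702736697583508995216167620097872292391922697870861486158773403050629834265814128978814594550088331400712263064266175054517743960030745974813773349947981062340343142851810787273722130873842754638255387452433546204683105853268218750085938133741131481218444717910083032560918039626688902281141679217350754149597700037728582399025535629886302166530165323876601338150839921333924000994347372837746571816768853016073501173356658242444384534509464331588710489955289014426332562113)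

noncomputable def t202 : Tre := Helper55.PC.toT t202n

theorem ok202 : chk K t202 r176 = true :=
  Helper55.PC.chkN_sound K t202n r176 (by decide +kernel)

open Helper55.PC in
noncomputable def t203n : Helper55.PC.Ten :=
  (q
  31225491760087793796854162293914531976432812523078421079149067222269495710794211990397121715229595329451346512057810365575453055225116305937720545031000711446471083425806
  (q
  989352831384178224035806938240882674672501917942800649943409342573452337155467807297628170253116504391903464346868272119596432948427328087897740245972227054560189638959562766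
  (r
  3932041610843271260777178949492454474061264385777929381319682176894870178040166850661337674301805057213827548995651296796547930797219685181221488190565809463749735015025694981292463134273258350900991384170032109118032297896208279103820982369722247352947984964675683014521113591622011698256318769431328028974914275615253400279142968752118281279090606001485580001760436991084101026124302041277286527967024128265)
  (r
  87687458073433844948036922723732006232457893160053508862947565685260239123389572563779340967646487057326223094970271961069365091425688631956981959843053418369177710339326747585353700711772576886489692219288659941665604162236668992714327385219177983798206826290657546820376440122503275525537796524747226238941964396495034265657596147307323117601135451102359653385504855110979616366650244967057361922559077460010629553521845165231939446161112531038642473))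
  (q
  4249235021720981558922197700752526595514283726094105478887028430615838669097706426827258853335865287736972525384356135784459944438337400872519210084314117150079343022921626978921611278
  (r
  10660161928926105220564844631239026365238888926696423903335521406276853475451296711876378313811846299932028143927013545880102664168429394781036060694176289031337562092242364564408923585641702670737752845183078183496651440145968948260530587522911939548357948130464217384873483444566117134502510720701368307072909603535473522763293671261018890447083728815809542749788243678276084406455378729)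
  (s
  78075404744439459288256282110408021721701666312091089555314450430436299702023573838669167242232988943826855220630739550140993717634500652282500059281174314899152762128911147313859200422466176319444635259516545225279350812572559775723422985723912824503967859921371150440568531338948358591310498766221321055605071058630964997193700804394489569114307302326839094767918162394993176772629077003231278700102960803882163210258976242405221314541757603743636589430762334262419857172207828341768652217354157762997631605368009661932640928432101779384450652283075313930262009210190960086389122045454009295228452529843200218433135626420929)))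

noncomputable def t203 : Tre := Helper55.PC.toT t203n

theorem ok203 : chk K t203 r175 = true :=
  Helper55.PC.chkN_sound K t203n r175 (by decide +kernel)

open Helper55.PC in
noncomputable def t204n : Helper55.PC.Ten :=
  (q
  16366965527237120218009609126320570157254781901729029817026436582517655030257411759533209922107626985878930514399291484788586965855501727321165779828750
  (q
  16366978014231321482067260082921355407889139537288834106455444391314379960839205221922986694987421598260076033476696766565474762197235050507506444009486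
  (q
  16366990501225522746124911039522140658523497172848638395884452200111104891420998684312763467868000944133270185218343461811947537822447611040008356626446
  (r
  22887985609004768202632217523203129969508260470005969020520274107457046923362801961069630218129331170457242307925858713910321899479705844111613342396132162150438710304373433631317248733948945502812915754292050048347358705529690686105075472674147746701579199866211833625853963264236973277077665321798695425890671701689725948317290065735639317085321101925053445929017248690165847229100543978229736201)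
  (r
  33450825389707313316800655176382470515500640385747122431505634934814701502537675777822837244599135196667970019533621203397470918463525902703689084086365167765898690051651628166421074627892623870584186851747884398577143656829080441199026953983592901733310528588432890133729948827172548726331287429814465413119807458637915233591281631928278335136895316285151483333383190949734456484731792768505584529928138008965920318042467406060904533517119267625))
  (q
  16366990501225522746124911039522140658523497172848638395884452200111104891420998684312763467868000944133270185218332827988060486657978644885935285731342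
  (i 21791364087376855233848109798270232297482 (r
  90574306488824649040540182769338686774785057074691194140818556293979965685303006646377336432464785148788873516588447247951902518461723882936972662155600495174966011816373647862790338244412983085506372686106659737043505695346184732437348879244797847996983123241967473238475990604026203298751813643344582641755088700630310211251145085527842605542484592267415078136447435237518898392538630604616974579351826562684674038840093582967939086690788040857550801394425233548886227961332469221995309873191322275962468167497067507644525373687282800250992444580156325403644923088200489)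
  (i 178384196809366561092358796893749080496406571 (i
  178471287827650388780351454044178649855426603 (i 2657482475527772835958263182249820169 (n
  18008071024728526063191121426831881760500517009757327483966351368989885440278957650128327536152197)
  (s
  3695523137514889469822260019947594214927160532507182833586838165312085809678949739005927257849707874273229567764146834707932584021494743824014775218267539944680849081738927533866664883731255863018109593262238118352521575086035263217866681817325880448338318066992975942085563746727339014219160274322164666878342017188091301174913190323673555959257268880353293770830853234298561950787798876183971705374895591624814550187370296879809897784010649611489755349093845478494791364224004733675430228199532721075588140804887005800039669375211714808504427753304820292460014323426512961935508161))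
  (s
  53421359750938257383739041855504916504845347652901812125607213954798056243643280985500998220641079742658657247128976506385414339067110780361327151970834469660795788335376056198356227844977048450187618278928116866301004917211971638256427180310579926757545735200939907297166621581374833410850193028898759440758828389304568287100062533634381388224576714781109794894211308702871624211628545161162772078073376343160200424979690961015752752791626298043564686153275050237018145470860497633900103463818175777452319210732864271765504760939358773451869827593839795051938266707463936934593))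
  (i 178645523033337875552971685361800196240048171 (i
  178209961603679074319738565576127534111785003 (i 4828029649105428511064070 (n
  3301253493327414228808395502715959384347584409710873635899707013) (s
  71758278065874514298786388952615262896936023970469053730463457630500332849924419253592287789547936545366384968391159040903169099118011770406978557768646181245846668481820511635753220293371939410707056963411188637492893239776069473665280979949567062703165550803279822309592832419080831949789896686779956104063756202214988398285551344401648379948352134486679355725478296981160197745913682197675224897471319221545596170672588335032159943750758152366374831550747868666129429310314869632468591141955742559207870458596214053040465098225771888717179939811084493466661139240897768765492694407477554164070875841))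
  (s
  13129135621567468637558700614597662937161211641924902378750832804596684763369101944703646041764043848624112986184653788396407946655664390756407810346161812440535530456236286093501109377704094015395768811517756917131355608060297808112292294822113951457056372999839676128094765135539527382176293254912624621272025986401858554345836176168912131393032307612372466086301863299034111338310869474724928902192775883881849283697819057251700008720977286495878029467880234792348030884911040114800781164486524634039103933757876761897130388706675640644448896580500855944577584988865))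
  (s
  15036775989801918692483185294425614312081689398339668932449190542842083689331741266852415489462833589066916775798819291009767480179093109021432479605218232850722327145642998265088600876284790949738480808630755547547861535692735112888158152962486679919965252069180516025333446145214327900158377701990830518294058681333430199282167809770505427889172936931815420758032168073681636427784659797110465232931200038134745836790411402887911980718376775209192940052456666279898131550986433989924987525003346078951239499026321728663949183158544866148960120964205553274227748713688036418286057338663076545))))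
  (s
  279442853103143575588647712696463457393101631405021732999560946098286731994401355495184106572358515691681943495012540398324056648213177125659833192355266712864185995125092780150622946238413485091164601369995761160568435047955871910872857582609653760675375959513192198814079556243504951389209697900809916676392627327977316597309805784464541338470939121176436194317705547994502143806389706477579709999948387321569395469943891710035002313719047880805270190243244333162942917118433951107550490194753746922584458714965830668876106691624486154988719579643272103892129396484482634082298020535202922468131214602263199638935977814267608876188353)))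
  (i 21770096439602752904910321658084429529098 (r
  5746676483635032854004859910024889207046837483738380390823860229065754391598927668025413449480787691761937784902876353989933724772901163202624787257820605573078653418729261884434217172763266541794605182596506662392824995589717147845963873961655898198192044310245656275534694021846226039350405283118959502364286469763718029385252379333025277672183519508146635684836322347853346031966234496429445509199630948566469178625723848337755651086264338567376849346857)
  (s
  147615134705388336857132230340930839763919803147033859548623966131706800564792506860026953933444405900568428287574365503321057168166150490679005385090089004592484369027451612045364084543157858212600901161238816119635476866805978602832045342413022148482845000701214218465699499558096085313758773242865530385987915016606196250967221344871130101463136249184986836175416498727432901296067284518586702530476249438265792984094329303987224711496822266833967802749756388613415598295198782920599671159270422630842700086498464847980298187730815736307992243695151595272536769)))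

noncomputable def t204 : Tre := Helper55.PC.toT t204n

theorem ok204 : chk K t204 r20 = true :=
  Helper55.PC.chkN_sound K t204n r20 (by decide +kernel)

open Helper55.PC in
noncomputable def t205n : Helper55.PC.Ten :=
  (i 178384186175542436356706784990519817423421483 (i
  178471298461474513516003465947407912928411691 (n
  130529447924436463362570428111166550950061919966083715083520353893922359934666398347766681989)
  (q
  181151348819839145483888120939599598363552553950658630790838477604746557563548623232853389258358761694973891390835557025335256515899988088492137614101217687218111465521166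
  (q
  181151348819839199115119840709987996659741272204255006786270894615487302087338802492078395981641507085798380350106219610860047406942333858949460932675348621422859842093070
  (q
  181151348819839252746351560480376394955929990457851382781703311626228046611128981751303402704924252476622869309375312729400741032656218070115388395011459013190655305449486
  (q
  181151348819839306377583280250764793252118708711447758777135728636968791134919161010528409428206997867447358268645190581433483291034343694750900836631048642304612017242126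
  (r
  6442395216248446814674359115980181627461661879207541202480249582156824292119215357040260811102090469761545465326418008438575844695832105053952204170907564100096260043608517950460916971352685397790312011589728186605141028552306304102137550895448207399061127800176603584678347416954595388946258588732246057522310320979828668221264966302272724678782370258773049785869540956702347827693959499593272287771191964607241)
  (r
  422208774357032258881625898081757609856837703795850764780749500437519732984119724420509123656269632116428222765952797519192462189605741519394093024849073057519757008650698906025876577240982142541952360953956949869316728889369238595961684537894458339061521689060714571381795994551168541231604407581452653664944197977497051037370429421913491975943153592608754628427565528178501271360238572633973683599883189665789125417))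
  (i 21791364087376855233848109798270232297482 (r
  1167017305548404339477299322813705414901478086352627297085126454785840460956137939311723388666871123548195271297647877129209807163417007438177628384531519790541621618589533463742662265419305862675551600756860071341583780231597970283729913842260072758591288476700343147980606241752770843874656430112903533735863635138245059123809074601857884149788171466958814160939993034885431581652258134800332471036248227340328523846095349046522894919870681049919450795136262496732591258200293187311647558210982111057715101746321579533670839298620663150037996753006715704459822190708290306999313193)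
  (s
  679287946933581727805862554551129696582666416217478283936659250369261740316624592255547775799969230311685678947296883814149195375686965595973819345199784915704272069290193552858469181892235928223284952254412417803820033917267030523964375601493864550743730868080769297625468016570571245683236436424994329203471221760284379422659403056330817068237763776863655088210674509628243116390168475108508273202276359806481209589476556191234466673653785425864554539858677720605183214331098672767460793041231970673198169047015271023883205132303451162196713088749444834185496026552468161)))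
  (i 21770096439602752904910321658084429529098 (r
  59998101975690531715602611792346822490720503857339576929310298322355561550061808510476510044498814225045435676760730602141147914839679883580141509783263907966672440885637317299052441753629842532589585385511636875785699953722463917992978460012709850323843519827069669068372484742318317202515326520623498311648817948171921782355148487228935867194813598778245269435898467939249726414145446318767410195472681)
  (s
  634002175954277501781214353661836886983851915283268306165997256337492337086578145989671416822642283977090827305253183004714519925419988651680674949773028406653215897356743240811832949793773020507300920957085303726501252617486217845695722682690916483391094948239605595383729566836514635186463444256324067202934236675928484178987371761010646271661561452751364065813835024558046466960540837061821807963390236694217083088567578348483445732695066045543077167664779673452732102499295244748310114774551470268475953406417990042024627844981064915621150771183218993656691723095507649)))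
  (s
  4123850733382390694384431097843483900426440916547064471043897379319327438968574395653618604863391140312988300405450357050449064218331040007523229966297758590948891816582356746261510565985814030891121314214670189209209867578438159421792952307675223730641201041799187405134862887758457509603315217092616845360971039669871640586448740219007187397676631325035915222016581540792457209232206197082974073291430944002265386918673515671494497192711262019886914827641151712323431346252003262596037697861186384844461728288934792668221862560357103043160899411252538790111419841384547488896716345518234027529631397469615249559553646228874420620764759571663454309712577)))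
  (s
  1945014989995429287017072744137596646032622000935416476917596089021615086639841710617897975184836576814247645191139279415069970095209046870266882129412724289958018107346130242922145222121094403053824501246839884820891985021923031744290333553666219548492850047095969959728196400637341111111453883590085551184188927014988998247735180656117479839573311191377655210032466672830966540992736088955469062150092531891900434634442263900930597582497194753104674949571934814919949436053752480522165042134417305429232285236695721306032770480088650437254964659265225499090603564829024558290830017))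

noncomputable def t205 : Tre := Helper55.PC.toT t205n

theorem ok205 : chk K t205 r2 = true :=
  Helper55.PC.chkN_sound K t205n r2 (by decide +kernel)

open Helper55.PC in
noncomputable def t206n : Helper55.PC.Ten :=
  (s
  107870115710006534027143759289411510661822639068188635601425320776435980053642037905760502474940478546290709024777888281958612025795084627440851048784795484579553449968031160013045158979240506788932508534817845187511370360336662813027490921084404900843913167538787465556391567865695667091504279918623964796103456038249009192375820085244289350414112722154130250270205671667773020563085760110365200959076832199424130193611785245009957129128423702537388539756306477000667063859708258704417094667519074240227612277551662082887103107343710512384940359825809754616245353159669496479745685866780383420015514467475391169)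

noncomputable def t206 : Tre := Helper55.PC.toT t206n

theorem ok206 : chk K t206 r0 = true :=
  Helper55.PC.chkN_sound K t206n r0 (by decide +kernel)

theorem cl0 : Clo K (Helper55.TR.GH 1 Helper55.TR.BrU [0,0,0,0,0,1]) l10 :=
  .w [n0,n0,n0,n0,n0,n0,n0,n0,n0,n0,n0,n2,n1,m2,m2] (e' := [n1,n0,n0,n0,n0,n0,n0,n0,n0,n0,n0,m2,m1,n2,n2])
  (by decide +kernel) (.t t5 ok5) (.t t6 ok6)

theorem cl1 : Clo K (Helper55.TR.GH 1 Helper55.TR.BrU [0,0,0,0,0,1]) l12 :=
  .w [n0,n0,n0,n0,n0,n0,n0,n0,n0,n0,n0,n1,n1,m2,m2] (e' := [n1,n0,n0,n0,n0,n0,n0,n0,n0,n0,n0,m1,m1,n2,n2])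
  (by decide +kernel) (.t t7 ok7) (.t t8 ok8)

theorem cl2 : Clo K (Helper55.TR.GH 1 Helper55.TR.BrU [0,0,0,0,0,1]) r10 :=
  .w [n0,n0,n0,n0,n0,n0,n0,n0,n0,n0,n0,n0,m1,n2,n2] (e' := [n1,n0,n0,n0,n0,n0,n0,n0,n0,n0,n0,n0,n1,m2,m2]) (by decide +kernel)
  cl1 (.t t9 ok9)

theorem cl3 : Clo K (Helper55.TR.GH 1 Helper55.TR.BrU [0,0,0,0,0,1]) r9 :=
  .w [n0,n0,n0,n0,n0,n0,n0,n0,n0,n0,n0,m1,m1,n2,n2] (e' := [n1,n0,n0,n0,n0,n0,n0,n0,n0,n0,n0,n1,n1,m2,m2])
  (by decide +kernel) cl0 cl2

theorem cl4 : Clo K (Helper55.TR.GH 1 Helper55.TR.BrU [0,0,0,0,0,1]) l8 :=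
  .i [n1,n0,m1,m1,n0,n0,n0,m2,n0,n0,m2] (e' := [n0,n0,n1,n1,n0,n0,n0,n2,n0,n0,n2]) (by decide +kernel)
  (by decide +kernel) (.t t4 ok4) cl3

theorem cl5 : Clo K (Helper55.TR.GH 1 Helper55.TR.BrU [0,0,0,0,0,1]) l16 :=
  .w [n0,n0,n0,n0,n0,n0,n0,n0,n0,n0,n0,n2,n1,m2,m2] (e' := [n1,n0,n0,n0,n0,n0,n0,n0,n0,n0,n0,m2,m1,n2,n2])
  (by decide +kernel) (.t t11 ok11) (.t t12 ok12)

theorem cl6 : Clo K (Helper55.TR.GH 1 Helper55.TR.BrU [0,0,0,0,0,1]) r15 :=
  .w [n0,n0,n0,n0,n0,n0,n0,n0,n0,n0,n0,m1,m1,n2,n2] (e' := [n1,n0,n0,n0,n0,n0,n0,n0,n0,n0,n0,n1,n1,m2,m2])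
  (by decide +kernel) cl5 (.t t13 ok13)

theorem cl7 : Clo K (Helper55.TR.GH 1 Helper55.TR.BrU [0,0,0,0,0,1]) l14 :=
  .i [n1,n0,n1,n1,n0,n0,n0,n2,n0,n0,n1] (e' := [n0,n0,m1,m1,n0,n0,n0,m2,n0,n0,m1]) (by decide +kernel)
  (by decide +kernel) (.t t10 ok10) cl6

theorem cl8 : Clo K (Helper55.TR.GH 1 Helper55.TR.BrU [0,0,0,0,0,1]) l18 :=
  .w [n0,n0,n0,n0,n0,n0,n0,n0,n0,n0,n0,n2,n1,m2,m2] (e' := [n1,n0,n0,n0,n0,n0,n0,n0,n0,n0,n0,m2,m1,n2,n2])
  (by decide +kernel) (.t t14 ok14) (.t t15 ok15)

theorem cl9 : Clo K (Helper55.TR.GH 1 Helper55.TR.BrU [0,0,0,0,0,1]) r14 :=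
  .w [n0,n0,n0,n0,n0,n0,n0,n0,n0,n0,n0,m1,m1,n2,n2] (e' := [n1,n0,n0,n0,n0,n0,n0,n0,n0,n0,n0,n1,n1,m2,m2])
  (by decide +kernel) cl8 (.t t16 ok16)

theorem cl10 : Clo K (Helper55.TR.GH 1 Helper55.TR.BrU [0,0,0,0,0,1]) r8 :=
  .i [n1,n0,m1,m1,n0,n0,n0,m2,n0,n0,m1] (e' := [n0,n0,n1,n1,n0,n0,n0,n2,n0,n0,n1]) (by decide +kernel)
  (by decide +kernel) cl7 cl9

theorem cl11 : Clo K (Helper55.TR.GH 1 Helper55.TR.BrU [0,0,0,0,0,1]) r7 :=
  .i [n1,n0,n1,n1,n0,n0,n0,n2,n0,n0,n2] (e' := [n0,n0,m1,m1,n0,n0,n0,m2,n0,n0,m2]) (by decide +kernel)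
  (by decide +kernel) cl4 cl10

theorem cl12 : Clo K (Helper55.TR.GH 1 Helper55.TR.BrU [0,0,0,0,0,1]) l6 :=
  .i [n0,n0,n0,n0,n0,m2,n1,n0,m2] (e' := [n1,n0,n0,n0,n0,n2,m1,n0,n2]) (by decide +kernel) (by decide +kernel) (.t
  t3 ok3) cl11

theorem cl13 : Clo K (Helper55.TR.GH 1 Helper55.TR.BrU [0,0,0,0,0,1]) r5 :=
  .i [n1,n0,n0,n0,n0,n0,n0,n1,n0,m2,m2] (e' := [n0,n0,n0,n0,n0,n0,n0,m1,n0,n2,n2]) (by decide +kernel)
  (by decide +kernel) cl12 (.t t17 ok17)

theorem cl14 : Clo K (Helper55.TR.GH 1 Helper55.TR.BrU [0,0,0,0,0,1]) l4 :=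
  .i [n1,n0,m2,m2,n1,n0,n0,n0,n0,n0,n7] (e' := [n0,n0,n2,n2,m1,n0,n0,n0,n0,n0,m7]) (by decide +kernel)
  (by decide +kernel) (.t t2 ok2) cl13

theorem cl15 : Clo K (Helper55.TR.GH 1 Helper55.TR.BrU [0,0,0,0,0,1]) l31 :=
  .w [n0,n0,n0,n0,n0,n0,n0,n0,n0,n0,n0,n1,n1,m2,m1] (e' := [n1,n0,n0,n0,n0,n0,n0,n0,n0,n0,n0,m1,m1,n2,n1])
  (by decide +kernel) (.t t23 ok23) (.t t24 ok24)

theorem cl16 : Clo K (Helper55.TR.GH 1 Helper55.TR.BrU [0,0,0,0,0,1]) l30 :=
  .w [n0,n0,n0,n0,n0,n0,n0,n0,n0,n0,n0,n0,m1,n2,n1] (e' := [n1,n0,n0,n0,n0,n0,n0,n0,n0,n0,n0,n0,n1,m2,m1]) (by decide +kernel)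
  cl15 (.t t25 ok25)

theorem cl17 : Clo K (Helper55.TR.GH 1 Helper55.TR.BrU [0,0,0,0,0,1]) l33 :=
  .w [n0,n0,n0,n0,n0,n0,n0,n0,n0,n0,n0,n1,n1,m2,m1] (e' := [n1,n0,n0,n0,n0,n0,n0,n0,n0,n0,n0,m1,m1,n2,n1])
  (by decide +kernel) (.t t26 ok26) (.t t27 ok27)

theorem cl18 : Clo K (Helper55.TR.GH 1 Helper55.TR.BrU [0,0,0,0,0,1]) r30 :=
  .w [n0,n0,n0,n0,n0,n0,n0,n0,n0,n0,n0,n0,m1,n2,n1] (e' := [n1,n0,n0,n0,n0,n0,n0,n0,n0,n0,n0,n0,n1,m2,m1]) (by decide +kernel)
  cl17 (.t t28 ok28)

theorem cl19 : Clo K (Helper55.TR.GH 1 Helper55.TR.BrU [0,0,0,0,0,1]) r29 :=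
  .q [n0,m1,n0,n1,n0,n0,m1,m1,n0,n0,n0,n1,m1] (e' := [n0,n1,n0,m1,n0,n0,n1,n1,n0,n0,n0,m1,n1]) (.p false [0,0,1] [1]
  (⟨0,[(42,0)]⟩,⟨0,[(30,0)]⟩) .k 1 (⟨0,[]⟩,⟨0,[]⟩) .k .k) (by decide +kernel) (by decide +kernel)
  cl16 cl18

theorem cl20 : Clo K (Helper55.TR.GH 1 Helper55.TR.BrU [0,0,0,0,0,1]) r28 :=
  .i [n1,n0,n1,n1,n0,n0,n0,n2,n0,n0,n2] (e' := [n0,n0,m1,m1,n0,n0,n0,m2,n0,n0,m2]) (by decide +kernel)
  (by decide +kernel) (.t t22 ok22) cl19

theorem cl21 : Clo K (Helper55.TR.GH 1 Helper55.TR.BrU [0,0,0,0,0,1]) r27 :=
  .i [n1,n0,m2,m2,n1,n0,n0,n0,n0,n0,n3] (e' := [n0,n0,n2,n2,m1,n0,n0,n0,n0,n0,m3]) (by decide +kernel)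
  (by decide +kernel) (.t t21 ok21) cl20

theorem cl22 : Clo K (Helper55.TR.GH 1 Helper55.TR.BrU [0,0,0,0,0,1]) l26 :=
  .q [n0,n0,n0,m2,n0,n0,n1,n1,m2,m2,n0,n0,n1,m2] (e' := [n0,n0,n0,n2,n0,n0,m1,m1,n2,n2,n0,n0,m1,n2]) (.p false [0,0,0,1]
  [0,0,1,-1] (⟨0,[(14,0)]⟩,⟨0,[(20,0)]⟩) .k 2 (⟨1,[(20,0),(9,0),(26,1)]⟩,⟨0,[(14,0),(12,0)]⟩) .k
  (.r 0 ⟨2,[(2,0),(1,1),(43,0)]⟩ ⟨3,[(6,3),(21,2),(12,0)]⟩)) (by decide +kernel)
  (by decide +kernel) (.t t20 ok20) cl21

theorem cl23 : Clo K (Helper55.TR.GH 1 Helper55.TR.BrU [0,0,0,0,0,1]) l35 :=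
  .w [n0,n0,n0,n0,n0,n0,n0,n0,n0,n0,n0,n0,m1,n2,n1] (e' := [n1,n0,n0,n0,n0,n0,n0,n0,n0,n0,n0,n0,n1,m2,m1]) (by decide +kernel)
  (.t t29 ok29) (.t t30 ok30)

theorem cl24 : Clo K (Helper55.TR.GH 1 Helper55.TR.BrU [0,0,0,0,0,1]) r26 :=
  .w [n0,n0,n0,n0,n0,n0,n0,n0,n0,n0,n0,n1,n1,m2,m1] (e' := [n1,n0,n0,n0,n0,n0,n0,n0,n0,n0,n0,m1,m1,n2,n1])
  (by decide +kernel) cl23 (.t t31 ok31)

theorem cl25 : Clo K (Helper55.TR.GH 1 Helper55.TR.BrU [0,0,0,0,0,1]) l25 :=
  .i [n1,n0,n2,n2,m1,n0,n0,n0,n0,n0,m3] (e' := [n0,n0,m2,m2,n1,n0,n0,n0,n0,n0,n3]) (by decide +kernel)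
  (by decide +kernel) cl22 cl24

theorem cl26 : Clo K (Helper55.TR.GH 1 Helper55.TR.BrU [0,0,0,0,0,1]) l40 :=
  .w [n0,n0,n0,n0,n0,n0,n0,n0,n0,n0,n0,n0,m1,n2,n1] (e' := [n1,n0,n0,n0,n0,n0,n0,n0,n0,n0,n0,n0,n1,m2,m1]) (by decide +kernel)
  (.t t33 ok33) (.t t34 ok34)

theorem cl27 : Clo K (Helper55.TR.GH 1 Helper55.TR.BrU [0,0,0,0,0,1]) r39 :=
  .w [n0,n0,n0,n0,n0,n0,n0,n0,n0,n0,n0,n1,n1,m2,m1] (e' := [n1,n0,n0,n0,n0,n0,n0,n0,n0,n0,n0,m1,m1,n2,n1])
  (by decide +kernel) cl26 (.t t35 ok35)

theorem cl28 : Clo K (Helper55.TR.GH 1 Helper55.TR.BrU [0,0,0,0,0,1]) l38 :=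
  .i [n0,n0,m2,n0,n1,m9] (e' := [n1,n0,n2,n0,m1,n9]) (by decide +kernel) (by decide +kernel) (.t t32 ok32)
  cl27

theorem cl29 : Clo K (Helper55.TR.GH 1 Helper55.TR.BrU [0,0,0,0,0,1]) l47 :=
  .w [n0,n0,n0,n0,n0,n0,n0,n0,n0,n0,n0,n0,m1,n2,n1] (e' := [n1,n0,n0,n0,n0,n0,n0,n0,n0,n0,n0,n0,n1,m2,m1]) (by decide +kernel)
  (.t t39 ok39) (.t t40 ok40)

theorem cl30 : Clo K (Helper55.TR.GH 1 Helper55.TR.BrU [0,0,0,0,0,1]) r46 :=
  .w [n0,n0,n0,n0,n0,n0,n0,n0,n0,n0,n0,n1,n1,m2,m1] (e' := [n1,n0,n0,n0,n0,n0,n0,n0,n0,n0,n0,m1,m1,n2,n1])
  (by decide +kernel) cl29 (.t t41 ok41)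

theorem cl31 : Clo K (Helper55.TR.GH 1 Helper55.TR.BrU [0,0,0,0,0,1]) l45 :=
  .i [n1,n0,n1,n1,n0,n0,n0,n2,n0,n0,n1] (e' := [n0,n0,m1,m1,n0,n0,n0,m2,n0,n0,m1]) (by decide +kernel)
  (by decide +kernel) (.t t38 ok38) cl30

theorem cl32 : Clo K (Helper55.TR.GH 1 Helper55.TR.BrU [0,0,0,0,0,1]) l49 :=
  .w [n0,n0,n0,n0,n0,n0,n0,n0,n0,n0,n0,n0,m1,n2,n1] (e' := [n1,n0,n0,n0,n0,n0,n0,n0,n0,n0,n0,n0,n1,m2,m1]) (by decide +kernel)
  (.t t42 ok42) (.t t43 ok43)

theorem cl33 : Clo K (Helper55.TR.GH 1 Helper55.TR.BrU [0,0,0,0,0,1]) r45 :=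
  .w [n0,n0,n0,n0,n0,n0,n0,n0,n0,n0,n0,n1,n1,m2,m1] (e' := [n1,n0,n0,n0,n0,n0,n0,n0,n0,n0,n0,m1,m1,n2,n1])
  (by decide +kernel) cl32 (.t t44 ok44)

theorem cl34 : Clo K (Helper55.TR.GH 1 Helper55.TR.BrU [0,0,0,0,0,1]) r44 :=
  .i [n1,n0,m1,m1,n0,n0,n0,m2,n0,n0,m1] (e' := [n0,n0,n1,n1,n0,n0,n0,n2,n0,n0,n1]) (by decide +kernel)
  (by decide +kernel) cl31 cl33

theorem cl35 : Clo K (Helper55.TR.GH 1 Helper55.TR.BrU [0,0,0,0,0,1]) r43 :=
  .i [n1,n0,n1,n1,n0,n0,n0,n2,n0,n0,n2] (e' := [n0,n0,m1,m1,n0,n0,n0,m2,n0,n0,m2]) (by decide +kernel)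
  (by decide +kernel) (.t t37 ok37) cl34

theorem cl36 : Clo K (Helper55.TR.GH 1 Helper55.TR.BrU [0,0,0,0,0,1]) l42 :=
  .q [n0,n0,n0,m1,n0,n0,n1,n1,m2,m2,n0,n0,n1,m2] (e' := [n0,n0,n0,n1,n0,n0,m1,m1,n2,n2,n0,n0,m1,n2]) (.p false [0,0,0,1]
  [0,0,1,-1] (⟨0,[(16,0)]⟩,⟨0,[(22,0)]⟩) .k 2 (⟨1,[(22,0),(9,0),(26,1)]⟩,⟨0,[(16,0),(12,0)]⟩) .k
  (.r 0 ⟨2,[(4,0),(1,1),(43,0)]⟩ ⟨3,[(8,3),(21,2),(12,0)]⟩)) (by decide +kernel)
  (by decide +kernel) (.t t36 ok36) cl35

theorem cl37 : Clo K (Helper55.TR.GH 1 Helper55.TR.BrU [0,0,0,0,0,1]) r38 :=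
  .q [n0,n0,n0,n0,n0,n0,m1,m1,n2,n2,n0,n0,m1,n2] (e' := [n0,n0,n0,n0,n0,n0,n1,n1,m2,m2,n0,n0,n1,m2]) (.p true [0,0,0,1]
  [0,0,1,-1] (⟨0,[(15,0)]⟩,⟨0,[(21,0)]⟩) .k 2 (⟨1,[(21,0),(9,0),(26,1)]⟩,⟨0,[(15,0),(12,0)]⟩) .k
  (.r 0 ⟨2,[(3,0),(1,1),(43,0)]⟩ ⟨3,[(7,3),(21,2),(12,0)]⟩)) (by decide +kernel)
  (by decide +kernel) cl36 (.t t45 ok45)

theorem cl38 : Clo K (Helper55.TR.GH 1 Helper55.TR.BrU [0,0,0,0,0,1]) l37 :=
  .i [n1,n0,n2,n2,m1,n0,n0,n0,n0,n0,m7] (e' := [n0,n0,m2,m2,n1,n0,n0,n0,n0,n0,n7]) (by decide +kernel)
  (by decide +kernel) cl28 cl37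

theorem cl39 : Clo K (Helper55.TR.GH 1 Helper55.TR.BrU [0,0,0,0,0,1]) l59 :=
  .w [n0,n0,n0,n0,n0,n0,n0,n0,n0,n0,n0,n0,m1,n2,n1] (e' := [n1,n0,n0,n0,n0,n0,n0,n0,n0,n0,n0,n0,n1,m2,m1]) (by decide +kernel)
  (.t t50 ok50) (.t t51 ok51)

theorem cl40 : Clo K (Helper55.TR.GH 1 Helper55.TR.BrU [0,0,0,0,0,1]) r58 :=
  .w [n0,n0,n0,n0,n0,n0,n0,n0,n0,n0,n0,n1,n1,m2,m1] (e' := [n1,n0,n0,n0,n0,n0,n0,n0,n0,n0,n0,m1,m1,n2,n1])
  (by decide +kernel) cl39 (.t t52 ok52)

theorem cl41 : Clo K (Helper55.TR.GH 1 Helper55.TR.BrU [0,0,0,0,0,1]) r57 :=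
  .w [n0,n0,n0,n0,n0,n0,n0,n0,n0,n0,n0,n0,n1,m2,m1] (e' := [n1,n0,n0,n0,n0,n0,n0,n0,n0,n0,n0,n0,m1,n2,n1]) (by decide +kernel)
  (.t t49 ok49) cl40

theorem cl42 : Clo K (Helper55.TR.GH 1 Helper55.TR.BrU [0,0,0,0,0,1]) l56 :=
  .i [n1,n0,m1,m1,n0,n0,n0,m2,n0,n0,m1] (e' := [n0,n0,n1,n1,n0,n0,n0,n2,n0,n0,n1]) (by decide +kernel)
  (by decide +kernel) (.t t48 ok48) cl41

theorem cl43 : Clo K (Helper55.TR.GH 1 Helper55.TR.BrU [0,0,0,0,0,1]) l61 :=
  .w [n0,n0,n0,n0,n0,n0,n0,n0,n0,n0,n0,n1,n1,m2,m1] (e' := [n1,n0,n0,n0,n0,n0,n0,n0,n0,n0,n0,m1,m1,n2,n1])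
  (by decide +kernel) (.t t53 ok53) (.t t54 ok54)

theorem cl44 : Clo K (Helper55.TR.GH 1 Helper55.TR.BrU [0,0,0,0,0,1]) r56 :=
  .w [n0,n0,n0,n0,n0,n0,n0,n0,n0,n0,n0,n0,m1,n2,n1] (e' := [n1,n0,n0,n0,n0,n0,n0,n0,n0,n0,n0,n0,n1,m2,m1]) (by decide +kernel)
  cl43 (.t t55 ok55)

theorem cl45 : Clo K (Helper55.TR.GH 1 Helper55.TR.BrU [0,0,0,0,0,1]) r55 :=
  .i [n1,n0,n1,n1,n0,n0,n0,n2,n0,n0,n1] (e' := [n0,n0,m1,m1,n0,n0,n0,m2,n0,n0,m1]) (by decide +kernel)
  (by decide +kernel) cl42 cl44

theorem cl46 : Clo K (Helper55.TR.GH 1 Helper55.TR.BrU [0,0,0,0,0,1]) l54 :=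
  .i [n1,n0,n1,n1,n0,n0,n0,n2,n0,n0,n2] (e' := [n0,n0,m1,m1,n0,n0,n0,m2,n0,n0,m2]) (by decide +kernel)
  (by decide +kernel) (.t t47 ok47) cl45

theorem cl47 : Clo K (Helper55.TR.GH 1 Helper55.TR.BrU [0,0,0,0,0,1]) r66 :=
  .w [n0,n0,n0,n0,n0,n0,n0,n0,n0,n0,n0,m1,m1,n2,n1] (e' := [n1,n0,n0,n0,n0,n0,n0,n0,n0,n0,n0,n1,n1,m2,m1])
  (by decide +kernel) (.t t59 ok59) (.t t60 ok60)

theorem cl48 : Clo K (Helper55.TR.GH 1 Helper55.TR.BrU [0,0,0,0,0,1]) r65 :=
  .w [n0,n0,n0,n0,n0,n0,n0,n0,n0,n0,n0,n1,n1,m2,m1] (e' := [n1,n0,n0,n0,n0,n0,n0,n0,n0,n0,n0,m1,m1,n2,n1])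
  (by decide +kernel) (.t t58 ok58) cl47

theorem cl49 : Clo K (Helper55.TR.GH 1 Helper55.TR.BrU [0,0,0,0,0,1]) l64 :=
  .i [n1,n0,n1,n1,n0,n0,n0,n2,n0,n0,n1] (e' := [n0,n0,m1,m1,n0,n0,n0,m2,n0,n0,m1]) (by decide +kernel)
  (by decide +kernel) (.t t57 ok57) cl48

theorem cl50 : Clo K (Helper55.TR.GH 1 Helper55.TR.BrU [0,0,0,0,0,1]) r68 :=
  .w [n0,n0,n0,n0,n0,n0,n0,n0,n0,n0,n0,m1,m1,n2,n1] (e' := [n1,n0,n0,n0,n0,n0,n0,n0,n0,n0,n0,n1,n1,m2,m1])
  (by decide +kernel) (.t t62 ok62) (.t t63 ok63)

theorem cl51 : Clo K (Helper55.TR.GH 1 Helper55.TR.BrU [0,0,0,0,0,1]) r64 :=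
  .w [n0,n0,n0,n0,n0,n0,n0,n0,n0,n0,n0,n1,n1,m2,m1] (e' := [n1,n0,n0,n0,n0,n0,n0,n0,n0,n0,n0,m1,m1,n2,n1])
  (by decide +kernel) (.t t61 ok61) cl50

theorem cl52 : Clo K (Helper55.TR.GH 1 Helper55.TR.BrU [0,0,0,0,0,1]) r63 :=
  .i [n1,n0,m1,m1,n0,n0,n0,m2,n0,n0,m1] (e' := [n0,n0,n1,n1,n0,n0,n0,n2,n0,n0,n1]) (by decide +kernel)
  (by decide +kernel) cl49 cl51

theorem cl53 : Clo K (Helper55.TR.GH 1 Helper55.TR.BrU [0,0,0,0,0,1]) r54 :=
  .i [n1,n0,n1,n1,n0,n0,n0,n2,n0,n0,n2] (e' := [n0,n0,m1,m1,n0,n0,n0,m2,n0,n0,m2]) (by decide +kernel)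
  (by decide +kernel) (.t t56 ok56) cl52

theorem cl54 : Clo K (Helper55.TR.GH 1 Helper55.TR.BrU [0,0,0,0,0,1]) r53 :=
  .q [n0,n0,n0,m2,n0,n0,n1,n1,m2,m2,n0,n0,n1,m2] (e' := [n0,n0,n0,n2,n0,n0,m1,m1,n2,n2,n0,n0,m1,n2]) (.p false [0,0,0,1]
  [0,0,1,-1] (⟨0,[(17,0)]⟩,⟨0,[(23,0)]⟩) .k 2 (⟨1,[(23,0),(9,0),(26,1)]⟩,⟨0,[(17,0),(12,0)]⟩) .k
  (.r 0 ⟨72,[(3,8),(1,1),(1,68),(36,0),(10,7)]⟩ ⟨3,[(9,3),(21,2),(12,0)]⟩)) (by decide +kernel)
  (by decide +kernel) cl46 cl53

theorem cl55 : Clo K (Helper55.TR.GH 1 Helper55.TR.BrU [0,0,0,0,0,1]) l52 :=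
  .q [n0,n0,n0,m1,n0,n0,n1,n1,m2,m2,n0,n0,n1,m2] (e' := [n0,n0,n0,n1,n0,n0,m1,m1,n2,n2,n0,n0,m1,n2]) (.p false [0,0,0,1]
  [0,0,1,-1] (⟨0,[(16,0)]⟩,⟨0,[(22,0)]⟩) .k 2 (⟨1,[(22,0),(9,0),(26,1)]⟩,⟨0,[(16,0),(12,0)]⟩) .k
  (.r 0 ⟨72,[(2,8),(1,1),(1,68),(36,0),(10,7)]⟩ ⟨3,[(8,3),(21,2),(12,0)]⟩)) (by decide +kernel)
  (by decide +kernel) (.t t46 ok46) cl54

theorem cl56 : Clo K (Helper55.TR.GH 1 Helper55.TR.BrU [0,0,0,0,0,1]) l51 :=
  .q [n0,n0,n0,n0,n0,n0,m1,m1,n2,n2,n0,n0,m1,n2] (e' := [n0,n0,n0,n0,n0,n0,n1,n1,m2,m2,n0,n0,n1,m2]) (.p true [0,0,0,1]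
  [0,0,1,-1] (⟨0,[(15,0)]⟩,⟨0,[(21,0)]⟩) .k 2 (⟨1,[(21,0),(9,0),(26,1)]⟩,⟨0,[(15,0),(12,0)]⟩) .k
  (.r 0 ⟨72,[(1,8),(1,1),(1,68),(36,0),(10,7)]⟩ ⟨3,[(7,3),(21,2),(12,0)]⟩)) (by decide +kernel)
  (by decide +kernel) cl55 (.t t64 ok64)

theorem cl57 : Clo K (Helper55.TR.GH 1 Helper55.TR.BrU [0,0,0,0,0,1]) l75 :=
  .w [n0,n0,n0,n0,n0,n0,n0,n0,n0,n0,n0,n0,m1,n2,n1] (e' := [n1,n0,n0,n0,n0,n0,n0,n0,n0,n0,n0,n0,n1,m2,m1]) (by decide +kernel)
  (.t t68 ok68) (.t t69 ok69)

theorem cl58 : Clo K (Helper55.TR.GH 1 Helper55.TR.BrU [0,0,0,0,0,1]) r74 :=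
  .w [n0,n0,n0,n0,n0,n0,n0,n0,n0,n0,n0,n1,n1,m2,m1] (e' := [n1,n0,n0,n0,n0,n0,n0,n0,n0,n0,n0,m1,m1,n2,n1])
  (by decide +kernel) cl57 (.t t70 ok70)

theorem cl59 : Clo K (Helper55.TR.GH 1 Helper55.TR.BrU [0,0,0,0,0,1]) r73 :=
  .i [n1,n0,n1,n1,n0,n0,n0,n2,n0,n0,n2] (e' := [n0,n0,m1,m1,n0,n0,n0,m2,n0,n0,m2]) (by decide +kernel)
  (by decide +kernel) (.t t67 ok67) cl58

theorem cl60 : Clo K (Helper55.TR.GH 1 Helper55.TR.BrU [0,0,0,0,0,1]) l72 :=
  .i [n1,n0,n1,n1,m1,n0,n0,m2,n0,m2] (e' := [n0,n0,m1,m1,n1,n0,n0,n2,n0,n2]) (by decide +kernel)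
  (by decide +kernel) (.t t66 ok66) cl59

theorem cl61 : Clo K (Helper55.TR.GH 1 Helper55.TR.BrU [0,0,0,0,0,1]) l81 :=
  .w [n0,n0,n0,n0,n0,n0,n0,n0,n0,n0,n0,n1,n1,m2,m1] (e' := [n1,n0,n0,n0,n0,n0,n0,n0,n0,n0,n0,m1,m1,n2,n1])
  (by decide +kernel) (.t t73 ok73) (.t t74 ok74)

theorem cl62 : Clo K (Helper55.TR.GH 1 Helper55.TR.BrU [0,0,0,0,0,1]) r81 :=
  .w [n0,n0,n0,n0,n0,n0,n0,n0,n0,n0,n0,n0,n1,m2,m1] (e' := [n1,n0,n0,n0,n0,n0,n0,n0,n0,n0,n0,n0,m1,n2,n1]) (by decide +kernel)
  (.t t75 ok75) (.t t76 ok76)

theorem cl63 : Clo K (Helper55.TR.GH 1 Helper55.TR.BrU [0,0,0,0,0,1]) r80 :=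
  .w [n0,n0,n0,n0,n0,n0,n0,n0,n0,n0,n0,n0,m1,n2,n1] (e' := [n1,n0,n0,n0,n0,n0,n0,n0,n0,n0,n0,n0,n1,m2,m1]) (by decide +kernel)
  cl61 cl62

theorem cl64 : Clo K (Helper55.TR.GH 1 Helper55.TR.BrU [0,0,0,0,0,1]) l79 :=
  .i [n1,n0,m1,m1,n0,n0,n0,m2,n0,n0,m1] (e' := [n0,n0,n1,n1,n0,n0,n0,n2,n0,n0,n1]) (by decide +kernel)
  (by decide +kernel) (.t t72 ok72) cl63

theorem cl65 : Clo K (Helper55.TR.GH 1 Helper55.TR.BrU [0,0,0,0,0,1]) l87 :=
  .w [n0,n0,n0,n0,n0,n0,n0,n0,n0,n0,n0,n0,m1,n2,n1] (e' := [n1,n0,n0,n0,n0,n0,n0,n0,n0,n0,n0,n0,n1,m2,m1]) (by decide +kernel)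
  (.t t78 ok78) (.t t79 ok79)

theorem cl66 : Clo K (Helper55.TR.GH 1 Helper55.TR.BrU [0,0,0,0,0,1]) l86 :=
  .w [n0,n0,n0,n0,n0,n0,n0,n0,n0,n0,n0,n1,n1,m2,m1] (e' := [n1,n0,n0,n0,n0,n0,n0,n0,n0,n0,n0,m1,m1,n2,n1])
  (by decide +kernel) cl65 (.t t80 ok80)

theorem cl67 : Clo K (Helper55.TR.GH 1 Helper55.TR.BrU [0,0,0,0,0,1]) l89 :=
  .w [n0,n0,n0,n0,n0,n0,n0,n0,n0,n0,n0,n1,n1,m2,m1] (e' := [n1,n0,n0,n0,n0,n0,n0,n0,n0,n0,n0,m1,m1,n2,n1])
  (by decide +kernel) (.t t81 ok81) (.t t82 ok82)

theorem cl68 : Clo K (Helper55.TR.GH 1 Helper55.TR.BrU [0,0,0,0,0,1]) r86 :=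
  .w [n0,n0,n0,n0,n0,n0,n0,n0,n0,n0,n0,n0,m1,n2,n1] (e' := [n1,n0,n0,n0,n0,n0,n0,n0,n0,n0,n0,n0,n1,m2,m1]) (by decide +kernel)
  cl67 (.t t83 ok83)

theorem cl69 : Clo K (Helper55.TR.GH 1 Helper55.TR.BrU [0,0,0,0,0,1]) r85 :=
  .i [n1,n0,n2,n2,m1,n0,n0,n0,n0,n0,m5] (e' := [n0,n0,m2,m2,n1,n0,n0,n0,n0,n0,n5]) (by decide +kernel)
  (by decide +kernel) cl66 cl68

theorem cl70 : Clo K (Helper55.TR.GH 1 Helper55.TR.BrU [0,0,0,0,0,1]) l84 :=
  .i [n1,n0,n2,n2,m1,n0,n0,n0,n0,n0,m3] (e' := [n0,n0,m2,m2,n1,n0,n0,n0,n0,n0,n3]) (by decide +kernel)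
  (by decide +kernel) (.t t77 ok77) cl69

theorem cl71 : Clo K (Helper55.TR.GH 1 Helper55.TR.BrU [0,0,0,0,0,1]) r84 :=
  .w [n0,n0,n0,n0,n0,n0,n0,n0,n0,n0,n0,n0,m1,n2,n1] (e' := [n1,n0,n0,n0,n0,n0,n0,n0,n0,n0,n0,n0,n1,m2,m1]) (by decide +kernel)
  (.t t84 ok84) (.t t85 ok85)

theorem cl72 : Clo K (Helper55.TR.GH 1 Helper55.TR.BrU [0,0,0,0,0,1]) r79 :=
  .i [n1,n0,m2,m2,n1,n0,n0,n0,n0,n0,n3] (e' := [n0,n0,n2,n2,m1,n0,n0,n0,n0,n0,m3]) (by decide +kernel)
  (by decide +kernel) cl70 cl71

theorem cl73 : Clo K (Helper55.TR.GH 1 Helper55.TR.BrU [0,0,0,0,0,1]) r78 :=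
  .i [n1,n0,n1,n1,n0,n0,n0,n2,n0,n0,n1] (e' := [n0,n0,m1,m1,n0,n0,n0,m2,n0,n0,m1]) (by decide +kernel)
  (by decide +kernel) cl64 cl72

theorem cl74 : Clo K (Helper55.TR.GH 1 Helper55.TR.BrU [0,0,0,0,0,1]) l77 :=
  .i [n1,n0,n1,n1,n0,n0,n0,n2,n0,n0,n2] (e' := [n0,n0,m1,m1,n0,n0,n0,m2,n0,n0,m2]) (by decide +kernel)
  (by decide +kernel) (.t t71 ok71) cl73

theorem cl75 : Clo K (Helper55.TR.GH 1 Helper55.TR.BrU [0,0,0,0,0,1]) l92 :=
  .w [n0,n0,n0,n0,n0,n0,n0,n0,n0,n0,n0,n0,m1,n2,n1] (e' := [n1,n0,n0,n0,n0,n0,n0,n0,n0,n0,n0,n0,n1,m2,m1]) (by decide +kernel)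
  (.t t86 ok86) (.t t87 ok87)

theorem cl76 : Clo K (Helper55.TR.GH 1 Helper55.TR.BrU [0,0,0,0,0,1]) r77 :=
  .w [n0,n0,n0,n0,n0,n0,n0,n0,n0,n0,n0,n1,n1,m2,m1] (e' := [n1,n0,n0,n0,n0,n0,n0,n0,n0,n0,n0,m1,m1,n2,n1])
  (by decide +kernel) cl75 (.t t88 ok88)

theorem cl77 : Clo K (Helper55.TR.GH 1 Helper55.TR.BrU [0,0,0,0,0,1]) r72 :=
  .i [n0,n0,m2,n0,n1,m7] (e' := [n1,n0,n2,n0,m1,n7]) (by decide +kernel) (by decide +kernel) cl74 cl76

theorem cl78 : Clo K (Helper55.TR.GH 1 Helper55.TR.BrU [0,0,0,0,0,1]) r71 :=
  .i [n1,n0,m1,m1,n1,n0,n0,n2,n0,n2] (e' := [n0,n0,n1,n1,m1,n0,n0,m2,n0,m2]) (by decide +kernel)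
  (by decide +kernel) cl60 cl77

theorem cl79 : Clo K (Helper55.TR.GH 1 Helper55.TR.BrU [0,0,0,0,0,1]) l70 :=
  .q [n0,n0,n0,m1,n0,n0,n1,n1,m2,m2,n0,n0,n1,m2] (e' := [n0,n0,n0,n1,n0,n0,m1,m1,n2,n2,n0,n0,m1,n2]) (.p false [0,0,0,1]
  [0,0,1,-1] (⟨0,[(16,0)]⟩,⟨0,[(22,0)]⟩) .k 2 (⟨1,[(22,0),(9,0),(26,1)]⟩,⟨0,[(16,0),(12,0)]⟩) .k
  (.r 0 ⟨72,[(2,8),(1,1),(1,68),(36,0),(10,7)]⟩ ⟨3,[(8,3),(21,2),(12,0)]⟩)) (by decide +kernel)
  (by decide +kernel) (.t t65 ok65) cl78

theorem cl80 : Clo K (Helper55.TR.GH 1 Helper55.TR.BrU [0,0,0,0,0,1]) r51 :=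
  .q [n0,n0,n0,n0,n0,n0,m1,m1,n2,n2,n0,n0,m1,n2] (e' := [n0,n0,n0,n0,n0,n0,n1,n1,m2,m2,n0,n0,n1,m2]) (.p true [0,0,0,1]
  [0,0,1,-1] (⟨0,[(15,0)]⟩,⟨0,[(21,0)]⟩) .k 2 (⟨1,[(21,0),(9,0),(26,1)]⟩,⟨0,[(15,0),(12,0)]⟩) .k
  (.r 0 ⟨72,[(1,8),(1,1),(1,68),(36,0),(10,7)]⟩ ⟨3,[(7,3),(21,2),(12,0)]⟩)) (by decide +kernel)
  (by decide +kernel) cl79 (.t t89 ok89)

theorem cl81 : Clo K (Helper55.TR.GH 1 Helper55.TR.BrU [0,0,0,0,0,1]) r37 :=
  .i [n1,n1,n0,m1,n0,n0,n0,n1,n0,m1] (e' := [n0,m1,n0,n1,n0,n0,n0,m1,n0,n1]) (by decide +kernel)
  (by decide +kernel) cl56 cl80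

theorem cl82 : Clo K (Helper55.TR.GH 1 Helper55.TR.BrU [0,0,0,0,0,1]) r25 :=
  .i [n1,n0,m2,m2,n1,n0,n0,n0,n0,n0,n7] (e' := [n0,n0,n2,n2,m1,n0,n0,n0,n0,n0,m7]) (by decide +kernel)
  (by decide +kernel) cl38 cl81

theorem cl83 : Clo K (Helper55.TR.GH 1 Helper55.TR.BrU [0,0,0,0,0,1]) l24 :=
  .i [n0,n0,n2,n1,m1,n0,n0,m1,n0,n1] (e' := [n1,n0,m2,m1,n1,n0,n0,n1,n0,m1]) (by decide +kernel)
  (by decide +kernel) cl25 cl82

theorem cl84 : Clo K (Helper55.TR.GH 1 Helper55.TR.BrU [0,0,0,0,0,1]) l95 :=
  .w [n0,n0,n0,n0,n0,n0,n0,n0,n0,n0,n0,n0,m1,n2,n1] (e' := [n1,n0,n0,n0,n0,n0,n0,n0,n0,n0,n0,n0,n1,m2,m1]) (by decide +kernel)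
  (.t t90 ok90) (.t t91 ok91)

theorem cl85 : Clo K (Helper55.TR.GH 1 Helper55.TR.BrU [0,0,0,0,0,1]) l94 :=
  .w [n0,n0,n0,n0,n0,n0,n0,n0,n0,n0,n0,n1,n1,m2,m1] (e' := [n1,n0,n0,n0,n0,n0,n0,n0,n0,n0,n0,m1,m1,n2,n1])
  (by decide +kernel) cl84 (.t t92 ok92)

theorem cl86 : Clo K (Helper55.TR.GH 1 Helper55.TR.BrU [0,0,0,0,0,1]) r102 :=
  .w [n0,n0,n0,n0,n0,n0,n0,n0,n0,n0,n0,n0,n1,m2,m1] (e' := [n1,n0,n0,n0,n0,n0,n0,n0,n0,n0,n0,n0,m1,n2,n1]) (by decide +kernel)
  (.t t96 ok96) (.t t97 ok97)

theorem cl87 : Clo K (Helper55.TR.GH 1 Helper55.TR.BrU [0,0,0,0,0,1]) r101 :=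
  .w [n0,n0,n0,n0,n0,n0,n0,n0,n0,n0,n0,n0,m1,n2,n1] (e' := [n1,n0,n0,n0,n0,n0,n0,n0,n0,n0,n0,n0,n1,m2,m1]) (by decide +kernel)
  (.t t95 ok95) cl86

theorem cl88 : Clo K (Helper55.TR.GH 1 Helper55.TR.BrU [0,0,0,0,0,1]) r100 :=
  .i [n1,n0,m4,m4,n2,n0,n0,n0,n0,n0,n7] (e' := [n0,n0,n4,n4,m2,n0,n0,n0,n0,n0,m7]) (by decide +kernel)
  (by decide +kernel) (.t t94 ok94) cl87

theorem cl89 : Clo K (Helper55.TR.GH 1 Helper55.TR.BrU [0,0,0,0,0,1]) l99 :=
  .i [n0,n1,n2,n1,m1,n0,n0,m1,n0,n2] (e' := [n1,m1,m2,m1,n1,n0,n0,n1,n0,m2]) (by decide +kernel)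
  (by decide +kernel) (.t t93 ok93) cl88

theorem cl90 : Clo K (Helper55.TR.GH 1 Helper55.TR.BrU [0,0,0,0,0,1]) l105 :=
  .w [n0,n0,n0,n0,n0,n0,n0,n0,n0,n0,n0,n1,n1,m2,m1] (e' := [n1,n0,n0,n0,n0,n0,n0,n0,n0,n0,n0,m1,m1,n2,n1])
  (by decide +kernel) (.t t99 ok99) (.t t100 ok100)

theorem cl91 : Clo K (Helper55.TR.GH 1 Helper55.TR.BrU [0,0,0,0,0,1]) r104 :=
  .w [n0,n0,n0,n0,n0,n0,n0,n0,n0,n0,n0,n0,m1,n2,n1] (e' := [n1,n0,n0,n0,n0,n0,n0,n0,n0,n0,n0,n0,n1,m2,m1]) (by decide +kernel)
  cl90 (.t t101 ok101)

theorem cl92 : Clo K (Helper55.TR.GH 1 Helper55.TR.BrU [0,0,0,0,0,1]) r99 :=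
  .i [n1,n0,m4,m4,n2,n0,n0,n0,n0,n0,n7] (e' := [n0,n0,n4,n4,m2,n0,n0,n0,n0,n0,m7]) (by decide +kernel)
  (by decide +kernel) (.t t98 ok98) cl91

theorem cl93 : Clo K (Helper55.TR.GH 1 Helper55.TR.BrU [0,0,0,0,0,1]) l98 :=
  .q [n0,n0,n0,m2,n0,n0,n1,n1,m2,m2,n0,n0,n1,m2] (e' := [n0,n0,n0,n2,n0,n0,m1,m1,n2,n2,n0,n0,m1,n2]) (.p false [0,0,0,1]
  [0,0,1,-1] (⟨0,[(15,0)]⟩,⟨0,[(21,0)]⟩) .k 2 (⟨1,[(21,0),(9,0),(26,1)]⟩,⟨0,[(15,0),(12,0)]⟩) .k
  (.r 0 ⟨86,[(0,0),(0,10),(3,76),(38,8),(8,17),(10,1),(2,0),(1,1)]⟩ ⟨3,[(7,3),(21,2),(12,0)]⟩))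
  (by decide +kernel) (by decide +kernel) cl89 cl92

theorem cl94 : Clo K (Helper55.TR.GH 1 Helper55.TR.BrU [0,0,0,0,0,1]) l97 :=
  .q [n0,n0,n0,n1,n0,n0,m1,m1,n2,n2,n0,n0,m1,n2] (e' := [n0,n0,n0,m1,n0,n0,n1,n1,m2,m2,n0,n0,n1,m2]) (.p true [0,0,0,1]
  [0,0,1,-1] (⟨0,[(14,0)]⟩,⟨0,[(20,0)]⟩) .k 2 (⟨1,[(20,0),(9,0),(26,1)]⟩,⟨0,[(14,0),(12,0)]⟩) .k
  (.r 0 ⟨38,[(0,4),(3,34),(33,1),(4,3),(8,7)]⟩ ⟨3,[(6,3),(21,2),(12,0)]⟩)) (by decide +kernel)
  (by decide +kernel) cl93 (.t t102 ok102)

theorem cl95 : Clo K (Helper55.TR.GH 1 Helper55.TR.BrU [0,0,0,0,0,1]) r112 :=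
  .w [n0,n0,n0,n0,n0,n0,n0,n0,n0,n0,n0,n0,n1,m2,m1] (e' := [n1,n0,n0,n0,n0,n0,n0,n0,n0,n0,n0,n0,m1,n2,n1]) (by decide +kernel)
  (.t t106 ok106) (.t t107 ok107)

theorem cl96 : Clo K (Helper55.TR.GH 1 Helper55.TR.BrU [0,0,0,0,0,1]) r111 :=
  .i [n0,n0,n2,n0,m1,n9] (e' := [n1,n0,m2,n0,n1,m9]) (by decide +kernel) (by decide +kernel) (.t t105 ok105)
  cl95

theorem cl97 : Clo K (Helper55.TR.GH 1 Helper55.TR.BrU [0,0,0,0,0,1]) l110 :=
  .w [n0,n0,n0,n0,n0,n0,n0,n0,n0,n0,n0,n0,m1,n2,n1] (e' := [n1,n0,n0,n0,n0,n0,n0,n0,n0,n0,n0,n0,n1,m2,m1]) (by decide +kernel)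
  (.t t104 ok104) cl96

theorem cl98 : Clo K (Helper55.TR.GH 1 Helper55.TR.BrU [0,0,0,0,0,1]) r109 :=
  .w [n0,n0,n0,n0,n0,n0,n0,n0,n0,n0,n0,n1,n1,m2,m1] (e' := [n1,n0,n0,n0,n0,n0,n0,n0,n0,n0,n0,m1,m1,n2,n1])
  (by decide +kernel) cl97 (.t t108 ok108)

theorem cl99 : Clo K (Helper55.TR.GH 1 Helper55.TR.BrU [0,0,0,0,0,1]) l108 :=
  .i [n0,n0,m2,n0,n1,m9] (e' := [n1,n0,n2,n0,m1,n9]) (by decide +kernel) (by decide +kernel) (.t t103 ok103)
  cl98

theorem cl100 : Clo K (Helper55.TR.GH 1 Helper55.TR.BrU [0,0,0,0,0,1]) r116 :=
  .w [n0,n0,n0,n0,n0,n0,n0,n0,n0,n0,n0,n1,n1,m2,m1] (e' := [n1,n0,n0,n0,n0,n0,n0,n0,n0,n0,n0,m1,m1,n2,n1])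
  (by decide +kernel) (.t t110 ok110) (.t t111 ok111)

theorem cl101 : Clo K (Helper55.TR.GH 1 Helper55.TR.BrU [0,0,0,0,0,1]) l115 :=
  .w [n0,n0,n0,n0,n0,n0,n0,n0,n0,n0,n0,m1,m1,n2,n1] (e' := [n1,n0,n0,n0,n0,n0,n0,n0,n0,n0,n0,n1,n1,m2,m1])
  (by decide +kernel) (.t t109 ok109) cl100

theorem cl102 : Clo K (Helper55.TR.GH 1 Helper55.TR.BrU [0,0,0,0,0,1]) r115 :=
  .w [n0,n0,n0,n0,n0,n0,n0,n0,n0,n0,n0,n0,m1,n2,n1] (e' := [n1,n0,n0,n0,n0,n0,n0,n0,n0,n0,n0,n0,n1,m2,m1]) (by decide +kernel)
  (.t t112 ok112) (.t t113 ok113)

theorem cl103 : Clo K (Helper55.TR.GH 1 Helper55.TR.BrU [0,0,0,0,0,1]) l114 :=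
  .q [n0,n0,n0,n0,n0,n0,m1,n0,n2,n0,n0,n0,m1,n2] (e' := [n0,n0,n0,n0,n0,n0,n1,n0,m2,n0,n0,n0,n1,m2]) (.p true [0,0,0,1] [0,
  0,1,-1] (⟨0,[(17,0)]⟩,⟨0,[(23,0)]⟩) .k 2 (⟨1,[(23,0),(9,0),(26,1)]⟩,⟨0,[(17,0),(12,0)]⟩) .k (.r 0
  ⟨1,[(7,1),(3,0),(43,0)]⟩ ⟨3,[(9,3),(21,2),(12,0)]⟩)) (by decide +kernel) (by decide +kernel)
  cl101 cl102

theorem cl104 : Clo K (Helper55.TR.GH 1 Helper55.TR.BrU [0,0,0,0,0,1]) r108 :=
  .q [n0,n0,n0,n0,n0,n0,m1,m1,n2,n2,n0,n0,m1,n2] (e' := [n0,n0,n0,n0,n0,n0,n1,n1,m2,m2,n0,n0,n1,m2]) (.p true [0,0,0,1]
  [0,0,1,-1] (⟨0,[(16,0)]⟩,⟨0,[(22,0)]⟩) .k 2 (⟨1,[(22,0),(9,0),(26,1)]⟩,⟨0,[(16,0),(12,0)]⟩) .k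
  (.r 0 ⟨1,[(6,1),(3,0),(43,0)]⟩ ⟨3,[(8,3),(21,2),(12,0)]⟩)) (by decide +kernel)
  (by decide +kernel) cl103 (.t t114 ok114)

theorem cl105 : Clo K (Helper55.TR.GH 1 Helper55.TR.BrU [0,0,0,0,0,1]) l107 :=
  .i [n1,n0,n2,n2,m1,n0,n0,n0,n0,n0,m7] (e' := [n0,n0,m2,m2,n1,n0,n0,n0,n0,n0,n7]) (by decide +kernel)
  (by decide +kernel) cl99 cl104

theorem cl106 : Clo K (Helper55.TR.GH 1 Helper55.TR.BrU [0,0,0,0,0,1]) l120 :=
  .w [n0,n0,n0,n0,n0,n0,n0,n0,n0,n0,n0,n0,m1,n2,n1] (e' := [n1,n0,n0,n0,n0,n0,n0,n0,n0,n0,n0,n0,n1,m2,m1]) (by decide +kernel)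
  (.t t115 ok115) (.t t116 ok116)

theorem cl107 : Clo K (Helper55.TR.GH 1 Helper55.TR.BrU [0,0,0,0,0,1]) l119 :=
  .w [n0,n0,n0,n0,n0,n0,n0,n0,n0,n0,n0,n1,n1,m2,m1] (e' := [n1,n0,n0,n0,n0,n0,n0,n0,n0,n0,n0,m1,m1,n2,n1])
  (by decide +kernel) cl106 (.t t117 ok117)

theorem cl108 : Clo K (Helper55.TR.GH 1 Helper55.TR.BrU [0,0,0,0,0,1]) l127 :=
  .w [n0,n0,n0,n0,n0,n0,n0,n0,n0,n0,n0,n0,m1,n2,n1] (e' := [n1,n0,n0,n0,n0,n0,n0,n0,n0,n0,n0,n0,n1,m2,m1]) (by decide +kernel)
  (.t t120 ok120) (.t t121 ok121)

theorem cl109 : Clo K (Helper55.TR.GH 1 Helper55.TR.BrU [0,0,0,0,0,1]) r126 :=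
  .w [n0,n0,n0,n0,n0,n0,n0,n0,n0,n0,n0,n1,n1,m2,m1] (e' := [n1,n0,n0,n0,n0,n0,n0,n0,n0,n0,n0,m1,m1,n2,n1])
  (by decide +kernel) cl108 (.t t122 ok122)

theorem cl110 : Clo K (Helper55.TR.GH 1 Helper55.TR.BrU [0,0,0,0,0,1]) r125 :=
  .w [n0,n0,n0,n0,n0,n0,n0,n0,n0,n0,n0,n0,n1,m2,m1] (e' := [n1,n0,n0,n0,n0,n0,n0,n0,n0,n0,n0,n0,m1,n2,n1]) (by decide +kernel)
  (.t t119 ok119) cl109

theorem cl111 : Clo K (Helper55.TR.GH 1 Helper55.TR.BrU [0,0,0,0,0,1]) l124 :=
  .i [n1,n0,m1,m1,n0,n0,n0,m2,n0,m1,m1] (e' := [n0,n0,n1,n1,n0,n0,n0,n2,n0,n1,n1]) (by decide +kernel)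
  (by decide +kernel) (.t t118 ok118) cl110

theorem cl112 : Clo K (Helper55.TR.GH 1 Helper55.TR.BrU [0,0,0,0,0,1]) l130 :=
  .w [n0,n0,n0,n0,n0,n0,n0,n0,n0,n0,n0,n0,m1,n2,n1] (e' := [n1,n0,n0,n0,n0,n0,n0,n0,n0,n0,n0,n0,n1,m2,m1]) (by decide +kernel)
  (.t t123 ok123) (.t t124 ok124)

theorem cl113 : Clo K (Helper55.TR.GH 1 Helper55.TR.BrU [0,0,0,0,0,1]) l129 :=
  .w [n0,n0,n0,n0,n0,n0,n0,n0,n0,n0,n0,n1,n1,m2,m1] (e' := [n1,n0,n0,n0,n0,n0,n0,n0,n0,n0,n0,m1,m1,n2,n1])
  (by decide +kernel) cl112 (.t t125 ok125)

theorem cl114 : Clo K (Helper55.TR.GH 1 Helper55.TR.BrU [0,0,0,0,0,1]) l132 :=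
  .w [n0,n0,n0,n0,n0,n0,n0,n0,n0,n0,n0,n1,n1,m2,m1] (e' := [n1,n0,n0,n0,n0,n0,n0,n0,n0,n0,n0,m1,m1,n2,n1])
  (by decide +kernel) (.t t126 ok126) (.t t127 ok127)

theorem cl115 : Clo K (Helper55.TR.GH 1 Helper55.TR.BrU [0,0,0,0,0,1]) r132 :=
  .w [n0,n0,n0,n0,n0,n0,n0,n0,n0,n0,n0,n0,n1,m2,m1] (e' := [n1,n0,n0,n0,n0,n0,n0,n0,n0,n0,n0,n0,m1,n2,n1]) (by decide +kernel)
  (.t t128 ok128) (.t t129 ok129)

theorem cl116 : Clo K (Helper55.TR.GH 1 Helper55.TR.BrU [0,0,0,0,0,1]) r129 :=
  .w [n0,n0,n0,n0,n0,n0,n0,n0,n0,n0,n0,n0,m1,n2,n1] (e' := [n1,n0,n0,n0,n0,n0,n0,n0,n0,n0,n0,n0,n1,m2,m1]) (by decide +kernel)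
  cl114 cl115

theorem cl117 : Clo K (Helper55.TR.GH 1 Helper55.TR.BrU [0,0,0,0,0,1]) r124 :=
  .i [n1,n0,n1,n1,n0,n0,n0,n2,n0,n1,m1] (e' := [n0,n0,m1,m1,n0,n0,n0,m2,n0,m1,n1]) (by decide +kernel)
  (by decide +kernel) cl113 cl116

theorem cl118 : Clo K (Helper55.TR.GH 1 Helper55.TR.BrU [0,0,0,0,0,1]) l123 :=
  .i [n1,n0,n1,n1,n0,n0,n0,n2,n0,n1,n1] (e' := [n0,n0,m1,m1,n0,n0,n0,m2,n0,m1,m1]) (by decide +kernel)
  (by decide +kernel) cl111 cl117

theorem cl119 : Clo K (Helper55.TR.GH 1 Helper55.TR.BrU [0,0,0,0,0,1]) r136 :=
  .w [n0,n0,n0,n0,n0,n0,n0,n0,n0,n0,n0,n1,n1,m2,m1] (e' := [n1,n0,n0,n0,n0,n0,n0,n0,n0,n0,n0,m1,m1,n2,n1])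
  (by decide +kernel) (.t t131 ok131) (.t t132 ok132)

theorem cl120 : Clo K (Helper55.TR.GH 1 Helper55.TR.BrU [0,0,0,0,0,1]) l135 :=
  .i [n1,n0,m1,m1,n0,n0,n0,m2,n0,m1,m1] (e' := [n0,n0,n1,n1,n0,n0,n0,n2,n0,n1,n1]) (by decide +kernel)
  (by decide +kernel) (.t t130 ok130) cl119

theorem cl121 : Clo K (Helper55.TR.GH 1 Helper55.TR.BrU [0,0,0,0,0,1]) r138 :=
  .w [n0,n0,n0,n0,n0,n0,n0,n0,n0,n0,n0,m1,m1,n2,n1] (e' := [n1,n0,n0,n0,n0,n0,n0,n0,n0,n0,n0,n1,n1,m2,m1])
  (by decide +kernel) (.t t134 ok134) (.t t135 ok135)

theorem cl122 : Clo K (Helper55.TR.GH 1 Helper55.TR.BrU [0,0,0,0,0,1]) r135 :=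
  .w [n0,n0,n0,n0,n0,n0,n0,n0,n0,n0,n0,n1,n1,m2,m1] (e' := [n1,n0,n0,n0,n0,n0,n0,n0,n0,n0,n0,m1,m1,n2,n1])
  (by decide +kernel) (.t t133 ok133) cl121

theorem cl123 : Clo K (Helper55.TR.GH 1 Helper55.TR.BrU [0,0,0,0,0,1]) r123 :=
  .i [n1,n0,n1,n1,n0,n0,n0,n2,n0,n1,n1] (e' := [n0,n0,m1,m1,n0,n0,n0,m2,n0,m1,m1]) (by decide +kernel)
  (by decide +kernel) cl120 cl122

theorem cl124 : Clo K (Helper55.TR.GH 1 Helper55.TR.BrU [0,0,0,0,0,1]) l122 :=
  .q [n0,n0,n0,m1,n0,n0,n1,n1,m2,m2,n0,n0,n1,m2] (e' := [n0,n0,n0,n1,n0,n0,m1,m1,n2,n2,n0,n0,m1,n2]) (.p false [0,0,0,1]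
  [0,0,1,-1] (⟨0,[(17,0)]⟩,⟨0,[(23,0)]⟩) .k 2 (⟨1,[(23,0),(9,0),(26,1)]⟩,⟨0,[(17,0),(12,0)]⟩) .k
  (.r 0 ⟨82,[(1,1),(0,10),(4,78),(36,0),(10,7)]⟩ ⟨3,[(9,3),(21,2),(12,0)]⟩)) (by decide +kernel)
  (by decide +kernel) cl118 cl123

theorem cl125 : Clo K (Helper55.TR.GH 1 Helper55.TR.BrU [0,0,0,0,0,1]) l142 :=
  .w [n0,n0,n0,n0,n0,n0,n0,n0,n0,n0,n0,n0,m1,n2,n1] (e' := [n1,n0,n0,n0,n0,n0,n0,n0,n0,n0,n0,n0,n1,m2,m1]) (by decide +kernel)
  (.t t136 ok136) (.t t137 ok137)

theorem cl126 : Clo K (Helper55.TR.GH 1 Helper55.TR.BrU [0,0,0,0,0,1]) r146 :=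
  .w [n0,n0,n0,n0,n0,n0,n0,n0,n0,n0,n0,n0,n1,m2,m1] (e' := [n1,n0,n0,n0,n0,n0,n0,n0,n0,n0,n0,n0,m1,n2,n1]) (by decide +kernel)
  (.t t140 ok140) (.t t141 ok141)

theorem cl127 : Clo K (Helper55.TR.GH 1 Helper55.TR.BrU [0,0,0,0,0,1]) r145 :=
  .w [n0,n0,n0,n0,n0,n0,n0,n0,n0,n0,n0,n0,m1,n2,n1] (e' := [n1,n0,n0,n0,n0,n0,n0,n0,n0,n0,n0,n0,n1,m2,m1]) (by decide +kernel)
  (.t t139 ok139) cl126

theorem cl128 : Clo K (Helper55.TR.GH 1 Helper55.TR.BrU [0,0,0,0,0,1]) l144 :=
  .i [n1,n0,m1,m1,n0,n0,n0,m2,n0,m1,n1] (e' := [n0,n0,n1,n1,n0,n0,n0,n2,n0,n1,m1]) (by decide +kernel)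
  (by decide +kernel) (.t t138 ok138) cl127

theorem cl129 : Clo K (Helper55.TR.GH 1 Helper55.TR.BrU [0,0,0,0,0,1]) r150 :=
  .w [n0,n0,n0,n0,n0,n0,n0,n0,n0,n0,n0,n0,n1,m2,m1] (e' := [n1,n0,n0,n0,n0,n0,n0,n0,n0,n0,n0,n0,m1,n2,n1]) (by decide +kernel)
  (.t t144 ok144) (.t t145 ok145)

theorem cl130 : Clo K (Helper55.TR.GH 1 Helper55.TR.BrU [0,0,0,0,0,1]) r149 :=
  .w [n0,n0,n0,n0,n0,n0,n0,n0,n0,n0,n0,n0,m1,n2,n1] (e' := [n1,n0,n0,n0,n0,n0,n0,n0,n0,n0,n0,n0,n1,m2,m1]) (by decide +kernel)
  (.t t143 ok143) cl129

theorem cl131 : Clo K (Helper55.TR.GH 1 Helper55.TR.BrU [0,0,0,0,0,1]) l148 :=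
  .i [n1,n0,n1,n1,m1,n0,n0,m2,n0,m2] (e' := [n0,n0,m1,m1,n1,n0,n0,n2,n0,n2]) (by decide +kernel)
  (by decide +kernel) (.t t142 ok142) cl130

theorem cl132 : Clo K (Helper55.TR.GH 1 Helper55.TR.BrU [0,0,0,0,0,1]) r152 :=
  .w [n0,n0,n0,n0,n0,n0,n0,n0,n0,n0,n0,n0,m1,n2,n1] (e' := [n1,n0,n0,n0,n0,n0,n0,n0,n0,n0,n0,n0,n1,m2,m1]) (by decide +kernel)
  (.t t147 ok147) (.t t148 ok148)

theorem cl133 : Clo K (Helper55.TR.GH 1 Helper55.TR.BrU [0,0,0,0,0,1]) r148 :=
  .w [n0,n0,n0,n0,n0,n0,n0,n0,n0,n0,n0,n0,n1,m2,m1] (e' := [n1,n0,n0,n0,n0,n0,n0,n0,n0,n0,n0,n0,m1,n2,n1]) (by decide +kernel)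
  (.t t146 ok146) cl132

theorem cl134 : Clo K (Helper55.TR.GH 1 Helper55.TR.BrU [0,0,0,0,0,1]) r144 :=
  .i [n1,n0,m1,m1,n1,n0,n0,n2,n0,n2] (e' := [n0,n0,n1,n1,m1,n0,n0,m2,n0,m2]) (by decide +kernel)
  (by decide +kernel) cl131 cl133

theorem cl135 : Clo K (Helper55.TR.GH 1 Helper55.TR.BrU [0,0,0,0,0,1]) r142 :=
  .i [n1,n0,n1,n1,n0,n0,n0,n2,n0,n1,m1] (e' := [n0,n0,m1,m1,n0,n0,n0,m2,n0,m1,n1]) (by decide +kernel)
  (by decide +kernel) cl128 cl134

theorem cl136 : Clo K (Helper55.TR.GH 1 Helper55.TR.BrU [0,0,0,0,0,1]) l141 :=
  .i [n1,n0,n1,n1,n0,n0,n0,n2,n0,n1] (e' := [n0,n0,m1,m1,n0,n0,n0,m2,n0,m1]) (by decide +kernel)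
  (by decide +kernel) cl125 cl135

theorem cl137 : Clo K (Helper55.TR.GH 1 Helper55.TR.BrU [0,0,0,0,0,1]) r141 :=
  .w [n0,n0,n0,n0,n0,n0,n0,n0,n0,n0,n0,n0,m1,n2,n1] (e' := [n1,n0,n0,n0,n0,n0,n0,n0,n0,n0,n0,n0,n1,m2,m1]) (by decide +kernel)
  (.t t149 ok149) (.t t150 ok150)

theorem cl138 : Clo K (Helper55.TR.GH 1 Helper55.TR.BrU [0,0,0,0,0,1]) l140 :=
  .i [n0,n0,m2,n0,n1,m7] (e' := [n1,n0,n2,n0,m1,n7]) (by decide +kernel) (by decide +kernel) cl136 cl137

theorem cl139 : Clo K (Helper55.TR.GH 1 Helper55.TR.BrU [0,0,0,0,0,1]) l159 :=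
  .w [n0,n0,n0,n0,n0,n0,n0,n0,n0,n0,n0,n0,m1,n2,n1] (e' := [n1,n0,n0,n0,n0,n0,n0,n0,n0,n0,n0,n0,n1,m2,m1]) (by decide +kernel)
  (.t t153 ok153) (.t t154 ok154)

theorem cl140 : Clo K (Helper55.TR.GH 1 Helper55.TR.BrU [0,0,0,0,0,1]) r158 :=
  .w [n0,n0,n0,n0,n0,n0,n0,n0,n0,n0,n0,n1,n1,m2,m1] (e' := [n1,n0,n0,n0,n0,n0,n0,n0,n0,n0,n0,m1,m1,n2,n1])
  (by decide +kernel) cl139 (.t t155 ok155)

theorem cl141 : Clo K (Helper55.TR.GH 1 Helper55.TR.BrU [0,0,0,0,0,1]) r157 :=
  .w [n0,n0,n0,n0,n0,n0,n0,n0,n0,n0,n0,n0,n1,m2,m1] (e' := [n1,n0,n0,n0,n0,n0,n0,n0,n0,n0,n0,n0,m1,n2,n1]) (by decide +kernel)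
  (.t t152 ok152) cl140

theorem cl142 : Clo K (Helper55.TR.GH 1 Helper55.TR.BrU [0,0,0,0,0,1]) l156 :=
  .i [n1,n0,m1,m1,n0,n0,n0,m2,n0,m1,m1] (e' := [n0,n0,n1,n1,n0,n0,n0,n2,n0,n1,n1]) (by decide +kernel)
  (by decide +kernel) (.t t151 ok151) cl141

theorem cl143 : Clo K (Helper55.TR.GH 1 Helper55.TR.BrU [0,0,0,0,0,1]) l163 :=
  .w [n0,n0,n0,n0,n0,n0,n0,n0,n0,n0,n0,n0,m1,n2,n1] (e' := [n1,n0,n0,n0,n0,n0,n0,n0,n0,n0,n0,n0,n1,m2,m1]) (by decide +kernel)
  (.t t156 ok156) (.t t157 ok157)

theorem cl144 : Clo K (Helper55.TR.GH 1 Helper55.TR.BrU [0,0,0,0,0,1]) l162 :=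
  .w [n0,n0,n0,n0,n0,n0,n0,n0,n0,n0,n0,n1,n1,m2,m1] (e' := [n1,n0,n0,n0,n0,n0,n0,n0,n0,n0,n0,m1,m1,n2,n1])
  (by decide +kernel) cl143 (.t t158 ok158)

theorem cl145 : Clo K (Helper55.TR.GH 1 Helper55.TR.BrU [0,0,0,0,0,1]) l166 :=
  .w [n0,n0,n0,n0,n0,n0,n0,n0,n0,n0,n0,n1,n1,m2,m1] (e' := [n1,n0,n0,n0,n0,n0,n0,n0,n0,n0,n0,m1,m1,n2,n1])
  (by decide +kernel) (.t t160 ok160) (.t t161 ok161)

theorem cl146 : Clo K (Helper55.TR.GH 1 Helper55.TR.BrU [0,0,0,0,0,1]) r166 :=
  .w [n0,n0,n0,n0,n0,n0,n0,n0,n0,n0,n0,n0,n1,m2,m1] (e' := [n1,n0,n0,n0,n0,n0,n0,n0,n0,n0,n0,n0,m1,n2,n1]) (by decide +kernel)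
  (.t t162 ok162) (.t t163 ok163)

theorem cl147 : Clo K (Helper55.TR.GH 1 Helper55.TR.BrU [0,0,0,0,0,1]) r165 :=
  .w [n0,n0,n0,n0,n0,n0,n0,n0,n0,n0,n0,n0,m1,n2,n1] (e' := [n1,n0,n0,n0,n0,n0,n0,n0,n0,n0,n0,n0,n1,m2,m1]) (by decide +kernel)
  cl145 cl146

theorem cl148 : Clo K (Helper55.TR.GH 1 Helper55.TR.BrU [0,0,0,0,0,1]) r162 :=
  .i [n1,n0,n2,n2,m1,n0,n0,n0,n0,n0,m5] (e' := [n0,n0,m2,m2,n1,n0,n0,n0,n0,n0,n5]) (by decide +kernel)
  (by decide +kernel) (.t t159 ok159) cl147

theorem cl149 : Clo K (Helper55.TR.GH 1 Helper55.TR.BrU [0,0,0,0,0,1]) l161 :=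
  .i [n1,n0,m1,m1,n1,n0,n0,n2,n0,n2] (e' := [n0,n0,n1,n1,m1,n0,n0,m2,n0,m2]) (by decide +kernel)
  (by decide +kernel) cl144 cl148

theorem cl150 : Clo K (Helper55.TR.GH 1 Helper55.TR.BrU [0,0,0,0,0,1]) r170 :=
  .w [n0,n0,n0,n0,n0,n0,n0,n0,n0,n0,n0,n0,n1,m2,m1] (e' := [n1,n0,n0,n0,n0,n0,n0,n0,n0,n0,n0,n0,m1,n2,n1]) (by decide +kernel)
  (.t t165 ok165) (.t t166 ok166)

theorem cl151 : Clo K (Helper55.TR.GH 1 Helper55.TR.BrU [0,0,0,0,0,1]) l169 :=
  .w [n0,n0,n0,n0,n0,n0,n0,n0,n0,n0,n0,n0,m1,n2,n1] (e' := [n1,n0,n0,n0,n0,n0,n0,n0,n0,n0,n0,n0,n1,m2,m1]) (by decide +kernel)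
  (.t t164 ok164) cl150

theorem cl152 : Clo K (Helper55.TR.GH 1 Helper55.TR.BrU [0,0,0,0,0,1]) r161 :=
  .w [n0,n0,n0,n0,n0,n0,n0,n0,n0,n0,n0,n1,n1,m2,m1] (e' := [n1,n0,n0,n0,n0,n0,n0,n0,n0,n0,n0,m1,m1,n2,n1])
  (by decide +kernel) cl151 (.t t167 ok167)

theorem cl153 : Clo K (Helper55.TR.GH 1 Helper55.TR.BrU [0,0,0,0,0,1]) r156 :=
  .i [n1,n0,m2,m2,n1,n0,n0,n0,n0,n0,n5] (e' := [n0,n0,n2,n2,m1,n0,n0,n0,n0,n0,m5]) (by decide +kernel)
  (by decide +kernel) cl149 cl152

theorem cl154 : Clo K (Helper55.TR.GH 1 Helper55.TR.BrU [0,0,0,0,0,1]) l155 :=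
  .i [n1,n0,n1,n1,n0,n0,n0,n2,n0,n1,n1] (e' := [n0,n0,m1,m1,n0,n0,n0,m2,n0,m1,m1]) (by decide +kernel)
  (by decide +kernel) cl142 cl153

theorem cl155 : Clo K (Helper55.TR.GH 1 Helper55.TR.BrU [0,0,0,0,0,1]) l172 :=
  .w [n0,n0,n0,n0,n0,n0,n0,n0,n0,n0,n0,n1,n1,m2,m1] (e' := [n1,n0,n0,n0,n0,n0,n0,n0,n0,n0,n0,m1,m1,n2,n1])
  (by decide +kernel) (.t t168 ok168) (.t t169 ok169)

theorem cl156 : Clo K (Helper55.TR.GH 1 Helper55.TR.BrU [0,0,0,0,0,1]) r155 :=
  .w [n0,n0,n0,n0,n0,n0,n0,n0,n0,n0,n0,n0,m1,n2,n1] (e' := [n1,n0,n0,n0,n0,n0,n0,n0,n0,n0,n0,n0,n1,m2,m1]) (by decide +kernel)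
  cl155 (.t t170 ok170)

theorem cl157 : Clo K (Helper55.TR.GH 1 Helper55.TR.BrU [0,0,0,0,0,1]) r140 :=
  .i [n0,n0,m2,n0,n1,m7] (e' := [n1,n0,n2,n0,m1,n7]) (by decide +kernel) (by decide +kernel) cl154 cl156

theorem cl158 : Clo K (Helper55.TR.GH 1 Helper55.TR.BrU [0,0,0,0,0,1]) r122 :=
  .q [n0,n0,n0,m1,n0,n0,n1,n1,m2,m2,n0,n0,n1,m2] (e' := [n0,n0,n0,n1,n0,n0,m1,m1,n2,n2,n0,n0,m1,n2]) (.p false [0,0,0,1]
  [0,0,1,-1] (⟨0,[(17,0)]⟩,⟨0,[(23,0)]⟩) .k 2 (⟨1,[(23,0),(9,0),(26,1)]⟩,⟨0,[(17,0),(12,0)]⟩) .k
  (.r 0 ⟨82,[(1,1),(0,10),(4,78),(36,0),(10,7)]⟩ ⟨3,[(9,3),(21,2),(12,0)]⟩)) (by decide +kernel)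
  (by decide +kernel) cl138 cl157

theorem cl159 : Clo K (Helper55.TR.GH 1 Helper55.TR.BrU [0,0,0,0,0,1]) r119 :=
  .i [n1,n1,n0,m1,n0,n0,n0,n1,n0,m1] (e' := [n0,m1,n0,n1,n0,n0,n0,m1,n0,n1]) (by decide +kernel)
  (by decide +kernel) cl124 cl158

theorem cl160 : Clo K (Helper55.TR.GH 1 Helper55.TR.BrU [0,0,0,0,0,1]) r107 :=
  .i [n1,n0,n3,n3,m1,n0,n0,n2] (e' := [n0,n0,m3,m3,n1,n0,n0,m2]) (by decide +kernel) (by decide +kernel) cl107
  cl159

theorem cl161 : Clo K (Helper55.TR.GH 1 Helper55.TR.BrU [0,0,0,0,0,1]) r97 :=
  .i [n1,n0,m2,m2,n1,n0,n0,n0,n0,n0,n7] (e' := [n0,n0,n2,n2,m1,n0,n0,n0,n0,n0,m7]) (by decide +kernel)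
  (by decide +kernel) cl105 cl160

theorem cl162 : Clo K (Helper55.TR.GH 1 Helper55.TR.BrU [0,0,0,0,0,1]) r94 :=
  .i [n1,n0,n4,n4,m2,n0,n0,n0,n0,n0,m7] (e' := [n0,n0,m4,m4,n2,n0,n0,n0,n0,n0,n7]) (by decide +kernel)
  (by decide +kernel) cl94 cl161

theorem cl163 : Clo K (Helper55.TR.GH 1 Helper55.TR.BrU [0,0,0,0,0,1]) r24 :=
  .i [n0,n1,n0,n0,n0,n0,n0,n0,n0,n1] (e' := [n1,m1,n0,n0,n0,n0,n0,n0,n0,m1]) (by decide +kernel) (by decide +kernel)
  cl85 cl162

theorem cl164 : Clo K (Helper55.TR.GH 1 Helper55.TR.BrU [0,0,0,0,0,1]) r23 :=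
  .i [n1,n0,m1,m1,n0,n0,n0,m2,n0,n0,m2] (e' := [n0,n0,n1,n1,n0,n0,n0,n2,n0,n0,n2]) (by decide +kernel)
  (by decide +kernel) cl83 cl163

theorem cl165 : Clo K (Helper55.TR.GH 1 Helper55.TR.BrU [0,0,0,0,0,1]) l22 :=
  .i [n0,n0,n0,n0,n0,n1,m1,n0,n2] (e' := [n1,n0,n0,n0,n0,m1,n1,n0,m2]) (by decide +kernel) (by decide +kernel) (.t
  t19 ok19) cl164

theorem cl166 : Clo K (Helper55.TR.GH 1 Helper55.TR.BrU [0,0,0,0,0,1]) r182 :=
  .w [n0,n0,n0,n0,n0,n0,n0,n0,n0,n0,n0,n0,n1,m2] (e' := [n1,n0,n0,n0,n0,n0,n0,n0,n0,n0,n0,n0,m1,n2]) (by decide +kernel) (.t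
  t176 ok176) (.t t177 ok177)

theorem cl167 : Clo K (Helper55.TR.GH 1 Helper55.TR.BrU [0,0,0,0,0,1]) l181 :=
  .w [n0,n0,n0,n0,n0,n0,n0,n0,n0,n0,n0,n0,m1,n2] (e' := [n1,n0,n0,n0,n0,n0,n0,n0,n0,n0,n0,n0,n1,m2]) (by decide +kernel) (.t
  t175 ok175) cl166

theorem cl168 : Clo K (Helper55.TR.GH 1 Helper55.TR.BrU [0,0,0,0,0,1]) r181 :=
  .w [n0,n0,n0,n0,n0,n0,n0,n0,n0,n0,n0,n0,n1,m2] (e' := [n1,n0,n0,n0,n0,n0,n0,n0,n0,n0,n0,n0,m1,n2]) (by decide +kernel) (.t
  t178 ok178) (.t t179 ok179)

theorem cl169 : Clo K (Helper55.TR.GH 1 Helper55.TR.BrU [0,0,0,0,0,1]) r180 :=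
  .i [n1,m1,m2,m2,n1,n0,n0,n1,n0,m2] (e' := [n0,n1,n2,n2,m1,n0,n0,m1,n0,n2]) (by decide +kernel)
  (by decide +kernel) cl167 cl168

theorem cl170 : Clo K (Helper55.TR.GH 1 Helper55.TR.BrU [0,0,0,0,0,1]) r179 :=
  .i [n0,n0,n0,n0,n0,n0,m1,n0,n2] (e' := [n1,n0,n0,n0,n0,n0,n1,n0,m2]) (by decide +kernel) (by decide +kernel) (.t
  t174 ok174) cl169

theorem cl171 : Clo K (Helper55.TR.GH 1 Helper55.TR.BrU [0,0,0,0,0,1]) l178 :=
  .i [n1,n0,m1,m1,n0,n0,n0,m2,n0,m1] (e' := [n0,n0,n1,n1,n0,n0,n0,n2,n0,n1]) (by decide +kernel)
  (by decide +kernel) (.t t173 ok173) cl170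

theorem cl172 : Clo K (Helper55.TR.GH 1 Helper55.TR.BrU [0,0,0,0,0,1]) r192 :=
  .w [n0,n0,n0,n0,n0,n0,n0,n0,n0,n0,n0,n0,m1,n2] (e' := [n1,n0,n0,n0,n0,n0,n0,n0,n0,n0,n0,n0,n1,m2]) (by decide +kernel) (.t
  t185 ok185) (.t t186 ok186)

theorem cl173 : Clo K (Helper55.TR.GH 1 Helper55.TR.BrU [0,0,0,0,0,1]) r191 :=
  .w [n0,n0,n0,n0,n0,n0,n0,n0,n0,n0,n0,n0,n1,m2] (e' := [n1,n0,n0,n0,n0,n0,n0,n0,n0,n0,n0,n0,m1,n2]) (by decide +kernel) (.t
  t184 ok184) cl172

theorem cl174 : Clo K (Helper55.TR.GH 1 Helper55.TR.BrU [0,0,0,0,0,1]) l190 :=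
  .i [n1,n0,m1,m1,n0,n0,n0,m2,n0,m1,n1] (e' := [n0,n0,n1,n1,n0,n0,n0,n2,n0,n1,m1]) (by decide +kernel)
  (by decide +kernel) (.t t183 ok183) cl173

theorem cl175 : Clo K (Helper55.TR.GH 1 Helper55.TR.BrU [0,0,0,0,0,1]) r198 :=
  .w [n0,n0,n0,n0,n0,n0,n0,n0,n0,n0,n0,n0,n1,m2] (e' := [n1,n0,n0,n0,n0,n0,n0,n0,n0,n0,n0,n0,m1,n2]) (by decide +kernel) (.t
  t190 ok190) (.t t191 ok191)

theorem cl176 : Clo K (Helper55.TR.GH 1 Helper55.TR.BrU [0,0,0,0,0,1]) r197 :=
  .w [n0,n0,n0,n0,n0,n0,n0,n0,n0,n0,n0,n0,m1,n2] (e' := [n1,n0,n0,n0,n0,n0,n0,n0,n0,n0,n0,n0,n1,m2]) (by decide +kernel) (.t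
  t189 ok189) cl175

theorem cl177 : Clo K (Helper55.TR.GH 1 Helper55.TR.BrU [0,0,0,0,0,1]) l196 :=
  .i [n1,n0,n2,n2,m1,n0,n0,m1,n0,n0,n2] (e' := [n0,n0,m2,m2,n1,n0,n0,n1,n0,n0,m2]) (by decide +kernel)
  (by decide +kernel) (.t t188 ok188) cl176

theorem cl178 : Clo K (Helper55.TR.GH 1 Helper55.TR.BrU [0,0,0,0,0,1]) r200 :=
  .w [n0,n0,n0,n0,n0,n0,n0,n0,n0,n0,n0,n0,n1,m2] (e' := [n1,n0,n0,n0,n0,n0,n0,n0,n0,n0,n0,n0,m1,n2]) (by decide +kernel) (.t
  t193 ok193) (.t t194 ok194)

theorem cl179 : Clo K (Helper55.TR.GH 1 Helper55.TR.BrU [0,0,0,0,0,1]) r196 :=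
  .w [n0,n0,n0,n0,n0,n0,n0,n0,n0,n0,n0,n0,m1,n2] (e' := [n1,n0,n0,n0,n0,n0,n0,n0,n0,n0,n0,n0,n1,m2]) (by decide +kernel) (.t
  t192 ok192) cl178

theorem cl180 : Clo K (Helper55.TR.GH 1 Helper55.TR.BrU [0,0,0,0,0,1]) r195 :=
  .i [n1,n0,m2,m2,n1,n0,n0,n1,n0,n0,m2] (e' := [n0,n0,n2,n2,m1,n0,n0,m1,n0,n0,n2]) (by decide +kernel)
  (by decide +kernel) cl177 cl179

theorem cl181 : Clo K (Helper55.TR.GH 1 Helper55.TR.BrU [0,0,0,0,0,1]) l194 :=
  .i [n1,n0,n1,n1,m1,n0,n0,m2,n0,m2] (e' := [n0,n0,m1,m1,n1,n0,n0,n2,n0,n2]) (by decide +kernel)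
  (by decide +kernel) (.t t187 ok187) cl180

theorem cl182 : Clo K (Helper55.TR.GH 1 Helper55.TR.BrU [0,0,0,0,0,1]) r202 :=
  .w [n0,n0,n0,n0,n0,n0,n0,n0,n0,n0,n0,n0,n1,m2] (e' := [n1,n0,n0,n0,n0,n0,n0,n0,n0,n0,n0,n0,m1,n2]) (by decide +kernel) (.t
  t196 ok196) (.t t197 ok197)

theorem cl183 : Clo K (Helper55.TR.GH 1 Helper55.TR.BrU [0,0,0,0,0,1]) r194 :=
  .w [n0,n0,n0,n0,n0,n0,n0,n0,n0,n0,n0,n0,m1,n2] (e' := [n1,n0,n0,n0,n0,n0,n0,n0,n0,n0,n0,n0,n1,m2]) (by decide +kernel) (.t
  t195 ok195) cl182

theorem cl184 : Clo K (Helper55.TR.GH 1 Helper55.TR.BrU [0,0,0,0,0,1]) r190 :=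
  .i [n1,n0,m1,m1,n1,n0,n0,n2,n0,n2] (e' := [n0,n0,n1,n1,m1,n0,n0,m2,n0,m2]) (by decide +kernel)
  (by decide +kernel) cl181 cl183

theorem cl185 : Clo K (Helper55.TR.GH 1 Helper55.TR.BrU [0,0,0,0,0,1]) r189 :=
  .i [n1,n0,n1,n1,n0,n0,n0,n2,n0,n1,m1] (e' := [n0,n0,m1,m1,n0,n0,n0,m2,n0,m1,n1]) (by decide +kernel)
  (by decide +kernel) cl174 cl184

theorem cl186 : Clo K (Helper55.TR.GH 1 Helper55.TR.BrU [0,0,0,0,0,1]) l188 :=
  .i [n1,n0,m1,m1,n0,n0,n0,m2,n0,n0,m2] (e' := [n0,n0,n1,n1,n0,n0,n0,n2,n0,n0,n2]) (by decide +kernel)
  (by decide +kernel) (.t t182 ok182) cl185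

theorem cl187 : Clo K (Helper55.TR.GH 1 Helper55.TR.BrU [0,0,0,0,0,1]) r188 :=
  .w [n0,n0,n0,n0,n0,n0,n0,n0,n0,n0,n0,n0,m1,n2] (e' := [n1,n0,n0,n0,n0,n0,n0,n0,n0,n0,n0,n0,n1,m2]) (by decide +kernel) (.t
  t198 ok198) (.t t199 ok199)

theorem cl188 : Clo K (Helper55.TR.GH 1 Helper55.TR.BrU [0,0,0,0,0,1]) r187 :=
  .i [n1,n0,n1,n1,n0,n0,n0,n2,n0,n0,n2] (e' := [n0,n0,m1,m1,n0,n0,n0,m2,n0,n0,m2]) (by decide +kernel)
  (by decide +kernel) cl186 cl187

theorem cl189 : Clo K (Helper55.TR.GH 1 Helper55.TR.BrU [0,0,0,0,0,1]) l186 :=
  .q [n0,m1,n0,n1,n0,n0,m1,m1,n0,n0,n0,n1,m1] (e' := [n0,n1,n0,m1,n0,n0,n1,n1,n0,n0,n0,m1,n1]) (.p false [0,0,1] [1]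
  (⟨0,[(42,0)]⟩,⟨0,[(30,0)]⟩) .k 1 (⟨0,[]⟩,⟨0,[]⟩) .k .k) (by decide +kernel) (by decide +kernel)
  (.t t181 ok181) cl188

theorem cl190 : Clo K (Helper55.TR.GH 1 Helper55.TR.BrU [0,0,0,0,0,1]) r186 :=
  .w [n0,n0,n0,n0,n0,n0,n0,n0,n0,n0,n0,n0,m1,n2] (e' := [n1,n0,n0,n0,n0,n0,n0,n0,n0,n0,n0,n0,n1,m2]) (by decide +kernel) (.t
  t200 ok200) (.t t201 ok201)

theorem cl191 : Clo K (Helper55.TR.GH 1 Helper55.TR.BrU [0,0,0,0,0,1]) r185 :=
  .i [n0,n1,n0,n0,n0,n0,n0,n0,n0,n1] (e' := [n1,m1,n0,n0,n0,n0,n0,n0,n0,m1]) (by decide +kernel) (by decide +kernel)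
  cl189 cl190

theorem cl192 : Clo K (Helper55.TR.GH 1 Helper55.TR.BrU [0,0,0,0,0,1]) r178 :=
  .i [n0,n0,n0,n0,n0,n0,m1,n0,n2] (e' := [n1,n0,n0,n0,n0,n0,n1,n0,m2]) (by decide +kernel) (by decide +kernel) (.t
  t180 ok180) cl191

theorem cl193 : Clo K (Helper55.TR.GH 1 Helper55.TR.BrU [0,0,0,0,0,1]) r177 :=
  .i [n1,n0,n1,n1,n0,n0,n0,n2,n0,n1] (e' := [n0,n0,m1,m1,n0,n0,n0,m2,n0,m1]) (by decide +kernel)
  (by decide +kernel) cl171 cl192

theorem cl194 : Clo K (Helper55.TR.GH 1 Helper55.TR.BrU [0,0,0,0,0,1]) l176 :=
  .i [n0,n0,n0,n0,n0,n0,n1,n0,m2] (e' := [n1,n0,n0,n0,n0,n0,m1,n0,n2]) (by decide +kernel) (by decide +kernel) (.t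
  t172 ok172) cl193

theorem cl195 : Clo K (Helper55.TR.GH 1 Helper55.TR.BrU [0,0,0,0,0,1]) l175 :=
  .i [n1,n0,n0,n0,n0,n0,n0,n1,n0,m2] (e' := [n0,n0,n0,n0,n0,n0,n0,m1,n0,n2]) (by decide +kernel) (by decide +kernel)
  cl194 (.t t202 ok202)

theorem cl196 : Clo K (Helper55.TR.GH 1 Helper55.TR.BrU [0,0,0,0,0,1]) r174 :=
  .i [n1,n0,n0,n0,n0,n0,n0,m1,n0,n2] (e' := [n0,n0,n0,n0,n0,n0,n0,n1,n0,m2]) (by decide +kernel) (by decide +kernel)
  cl195 (.t t203 ok203)

theorem cl197 : Clo K (Helper55.TR.GH 1 Helper55.TR.BrU [0,0,0,0,0,1]) r22 :=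
  .i [n1,n0,n2,n2,m1,n0,n0,m1,n0,n1,m1] (e' := [n0,n0,m2,m2,n1,n0,n0,n1,n0,m1,n1]) (by decide +kernel)
  (by decide +kernel) (.t t171 ok171) cl196

theorem cl198 : Clo K (Helper55.TR.GH 1 Helper55.TR.BrU [0,0,0,0,0,1]) r21 :=
  .i [n1,n0,n0,n0,n0,n0,n0,m1,n0,n2,n1] (e' := [n0,n0,n0,n0,n0,n0,n0,n1,n0,m2,m1]) (by decide +kernel)
  (by decide +kernel) cl165 cl197

theorem cl199 : Clo K (Helper55.TR.GH 1 Helper55.TR.BrU [0,0,0,0,0,1]) l20 :=
  .i [n0,n0,n0,n0,n0,m1,n1,n0,m2] (e' := [n1,n0,n0,n0,n0,n1,m1,n0,n2]) (by decide +kernel) (by decide +kernel) (.t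
  t18 ok18) cl198

theorem cl200 : Clo K (Helper55.TR.GH 1 Helper55.TR.BrU [0,0,0,0,0,1]) r4 :=
  .i [n1,n0,n0,n0,n0,n0,n0,n1,n0,m2,m1] (e' := [n0,n0,n0,n0,n0,n0,n0,m1,n0,n2,n1]) (by decide +kernel)
  (by decide +kernel) cl199 (.t t204 ok204)

theorem cl201 : Clo K (Helper55.TR.GH 1 Helper55.TR.BrU [0,0,0,0,0,1]) r3 :=
  .i [n1,n0,n0,n0,n0,n0,n0,m1,n0,n2,n2] (e' := [n0,n0,n0,n0,n0,n0,n0,n1,n0,m2,m2]) (by decide +kernel)
  (by decide +kernel) cl14 cl200

theorem cl202 : Clo K (Helper55.TR.GH 1 Helper55.TR.BrU [0,0,0,0,0,1]) l2 :=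
  .i [n1,n0,m2,m2,n1,n0,n0,n0,n0,n1,n2] (e' := [n0,n0,n2,n2,m1,n0,n0,n0,n0,m1,m2]) (by decide +kernel)
  (by decide +kernel) (.t t1 ok1) cl201

theorem cl203 : Clo K (Helper55.TR.GH 1 Helper55.TR.BrU [0,0,0,0,0,1]) r1 :=
  .i [n1,n0,n2,n2,m1,n0,n0,n0,n0,m1,m2] (e' := [n0,n0,m2,m2,n1,n0,n0,n0,n0,n1,n2]) (by decide +kernel)
  (by decide +kernel) cl202 (.t t205 ok205)

theorem cl204 : Clo K (Helper55.TR.GH 1 Helper55.TR.BrU [0,0,0,0,0,1]) l0 :=
  .i [n1,n0,n2,n2,m1,n0,n0,n0,n0,m1,m1] (e' := [n0,n0,m2,m2,n1,n0,n0,n0,n0,n1,n1]) (by decide +kernel)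
  (by decide +kernel) (.t t0 ok0) cl203

theorem cl205 : Clo K (Helper55.TR.GH 1 Helper55.TR.BrU [0,0,0,0,0,1]) base :=
  .i [n1,n0,m2,m2,n1,n0,n0,n0,n0,n1,n1] (e' := [n0,n0,n2,n2,m1,n0,n0,n0,n0,m1,m1]) (by decide +kernel)
  (by decide +kernel) cl204 (.t t206 ok206)

theorem g : Helper55.TR.GH 1 Helper55.TR.BrU [0,0,0,0,0,1] base :=
  Helper55.TR.GH.of (Or.inr (Or.inr (Or.inl rfl))) cl205

end Helper55.CD.Dm1_1_c0u_27_1_3_0_1

namespace Helper55.CD.Dm1_1_c0u_27_1_3_0_2

open Helper25.KG Helper25.KW Helper55.KE Helper11.CT Helper55.TR.Nm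

noncomputable def K : Cls :=
  Helper55.TR.KH 1 [0,0,0,0,0,1]

noncomputable def base : List Con :=
  [(true,[n0,n0,n0,n0,n1,n0,n0,n0,n0,n0,n2]),
  (false,[n0,n0,n0,n0,n0,n0,n0,n0,n0,n0,n0,n1,n0,m1]),
  (false,[n0,n0,n0,n0,n0,n0,n0,n0,n0,n0,n0,n0,n0,n0,n1]),
  (false,[n0,n0,n0,n0,n0,n0,n0,n0,n0,n0,n0,n1,n0,n0,m1]),
  (false,[n0,m1,n0,n0,n0,m1,n0,n0,n0,n0,m1,n1,n0,n0,m1]),
  (false,[n0,n0,n0,n0,n0,m1,n0,n0,n0,n0,n0,n1,n0,m1]),
  (true,[n0,m1,n0,m1,n0,n0,n0,n0,n0,m1]),
  (false,[n0,n0,n0,m1,n0,n1,n0,n0,m1,m1,n1,n0,n0,m1,n1]),
  (false,[n0,n0,n0,n0,n0,n0,n0,n0,n0,n0,n0,n0,n0,n1]),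
  (true,[n1,n1,n0,n0,n0,n0,n0,n0,n0,n1]),
  (false,[n0,n0,n0,n0,n0,m1,n0,n0,n0,n0,n0,n1,n0,n0,m1]),
  (true,[n0,n1,n0,n1]),
  (true,[n0,n0,n0,m1]),
  (false,[n0,n0,n0,n0,n0,m2,n0,n0,n0,n0,n0,n0,n0,n1]),
  (false,[n0,n0,n0,n2,n0,n0,m1,m1,n1,n1,n0,n0,m1,n1]),
  (true,[m1,n1]),
  (false,[n0,n0,n0,n0,n0,n0,n0,n0,n1,n0,n0,m1,n0,n1]),
  (false,[n0,n0,n0,n0,n0,m1,n0,n0,n0,n0,n0,n0,n0,n1]),
  (true,[n1,n1,n0,n0,n0,n0,n0,n1,n0,m2]),
  (false,[n0,n0,n0,n0,n0,m1,n0,n0,n0,n0,n0,n0,n1]),
  (false,[n0,n0,n0,n1,n0,n0,m1,m1,n0,n0,n0,n0,m1]),
  (false,[n0,n0,m2,n0,n1,n0,m1,n0,n1,n0,n0,n0,m1,n1]),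
  (false,[n0,n0,n0,n1,n0,n0,m1,m1,n1,n1,n0,n0,m1,n1]),
  (false,[n0,n0,n0,n0,n0,n0,n1,n0,m1,n0,n0,n0,n1,m1]),
  (true,[n0,n0,n0,n0,n0,n1]),
  (false,[n0,n0,n1,n0,n0,n0,m1,n0,n0,n0,n0,n0,m1]),
  (false,[n0,n1,n0,n0,n0,m1,n0,n0,n0,n0,m1,n0,n0,n0,m1]),
  (true,[n1,n0,n0,n0,n0,n0,n0,n0,n0,n0,m1]),
  (true,[n0,n0,m2,m2,n1,n0,n0,n0,n0,n1]),
  (true,[n0,m2,n0,n0,n1]),
  (false,[n0,n1,n0,n0,n0,n0,m1,m1,n0,n0,n0,n0,m1]),
  (false,[n0,n0,m2,n0,n1,n0,n0,n0,m1,n0,n0,n0,n0,m1]),
  (false,[n0,n0,n2,n0,m1,n0,n1,n0,n0,n0,n0,m1,n1]),
  (true,[n0,n0,n1,n1,n0,n0,n0,n1,n0,n2]),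
  (false,[n0,n0,n0,n2,n0,n0,n0,n0,m1,m1,n0,n0,n0,m1]),
  (false,[n0,n0,n0,n1,n0,n0,n0,n0,m1,m1,n0,n0,n0,m1]),
  (true,[n0,n0,n0,n0,n1,n0,n0,n0,n0,n0,m2]),
  (false,[n0,n1,n0,n0,n0,n0,n0,n0,n1,n1,n0,m1,n0,n1]),
  (true,[n0,n0,n0,n0,n0,n0,n0,m1]),
  (false,[n0,n0,m2,n0,n1,n0,n0,n0,n0,n0,n0,m1]),
  (false,[n0,n0,n0,n0,n0,m2,n0,n0,n0,n0,n0,n1]),
  (false,[n0,n0,n0,n0,n0,m1,n0,n0,n0,n0,n0,n1]),
  (true,[n0,n0,n0,n0,n0,n0,n0,n0,n0,m1,m1]),
  (true,[n0,m1,n1,n0,n0,n0,n0,m1]),
  (false,[n0,n0,n0,n0,n0,n0,n0,n0,n0,n0,n0,n0,n1]),
  (true,[n0,n0,m2,n0,n1]),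
  (false,[n0,m1,n0,n0,n0,n0,m1,m1,n0,n0,n0,n1,m1]),
  (false,[n0,n1,n0,n2,n0,n0,n1,n1,m1,m1,n0,n0,n1,m1]),
  (false,[n0,n0,n0,n0,n0,n0,n0,n0,n0,n0,n0,n1,m1]),
  (false,[n0,n0,n1,n0,n0,n0,m2,n0,n0,n0,n0,n2,m2]),
  (false,[n0,n0,n0,n0,n0,n1,n0,n0,n0,n0,n0,m1,n1]),
  (false,[n0,n1,n0,n0,n0,n0,n1,n1,n0,n0,n0,n0,n1]),
  (false,[n0,n0,n0,n0,n0,m2,n0,n0,n0,n0,n0,n1,n0,m1]),
  (false,[n0,n0,n0,n0,n1,n0,n0,n0,n0,n0,n0,m2]),
  (true,[n0,n0,n3,n3,m1,n0,n0,n1,n0,n1]),
  (false,[n0,n0,n0,n0,n0,n0,n0,n0,n1,n0,n0,n0,n0,n1]),
  (true,[n0,n0,n0,m1,n0,n0,n0,m1]),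
  (false,[n0,n0,m2,n0,n1,n0,n0,n0,m1,n0,n0,n1,n0,m1]),
  (true,[n1,n0,m1,m1,n1,n0,n0,n2,n0,n0,n1]),
  (false,[n0,n0,n1,n0,n0,n0,n1,n0,n0,n0,n0,n0,n1]),
  (false,[n0,n0,n0,n2,n0,n0,m1,m1,n0,n0,n0,n0,m1]),
  (true,[n0,n0,n2,n0,m1,n2,n1]),
  (false,[n0,n0,n0,n0,n0,n0,n1,n0,n0,n0,n0,n0,n1]),
  (false,[n0,n0,n2,n0,m1,n0,n1,n0,n0,n0,n0,n0,n1]),
  (true,[n1,m1,n2,n0,m1,n0,n0,m1]),
  (true,[n1,n0,n1,n1,n0,n0,n0,n2]),
  (true,[n0,n0,n1,n0,n0,n0,n0,n1]),
  (false,[n0,n0,n0,n0,n0,n0,m1,m1,n0,n0,n0,n0,m1]),
  (false,[n0,n0,n0,n0,n0,n0,n1,n0,n0,n0,n0,m1,n1]),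
  (true,[n1,m1,n1,n2,n0,n0,n0,n1]),
  (false,[n0,m1,m1,n1,n1,n0,m1,n0,n0,n0,n0,n0,m1]),
  (true,[n1,m2,n1]),
  (true,[n1,m1,n1,n1,n0,n0,n0,n1,n0,n1]),
  (true,[n0,m1,n1,n1,n0,n0,n0,n1]),
  (true,[n0,n0,n1,n1,n0,n0,n0,n2])]

noncomputable def l0 : List Con := (false, [n0,n1,n0,m2,n0,n0,n0,n0,n2,n2,n0,m1,n0,n2]) :: base

noncomputable def r0 : List Con := (false, [n0,m1,n0,n2,n0,n0,n0,n0,m2,m2,n0,n1,n0,m2]) :: base

noncomputable def l1 : List Con := (true, [n0,n0,n2,n2,m1,n0,n0,n0,n0,m2]) :: l0

noncomputable def r1 : List Con := (true, [n1,n0,m2,m2,n1,n0,n0,n0,n0,n2]) :: l0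

noncomputable def l2 : List Con := (false, [n0,n0,m2,n0,n1,n0,n0,n0,m2,n0,n0,n1,n0,m2]) :: l1

noncomputable def r2 : List Con := (false, [n0,n0,n2,n0,m1,n0,n0,n0,n2,n0,n0,m1,n0,n2]) :: l1

noncomputable def l3 : List Con := (true, [n1,n1,n2,n2,m1,n0,n0,m1,n0,n2]) :: r2

noncomputable def r3 : List Con := (true, [n0,m1,m2,m2,n1,n0,n0,n1,n0,m2]) :: r2

noncomputable def l4 : List Con := (true, [n0,n0,n0,n0,n0,n0,n1,n0,m2]) :: r3

noncomputable def r4 : List Con := (true, [n1,n0,n0,n0,n0,n0,m1,n0,n2]) :: r3

noncomputable def l5 : List Con := (true, [n1,n0,n0,n0,n0,n0,n0,n0,n0,n1,m1]) :: r4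

noncomputable def r5 : List Con := (true, [n0,n0,n0,n0,n0,n0,n0,n0,n0,m1,n1]) :: r4

noncomputable def l6 : List Con := (true, [n1,n0,n0,n0,n0,n0,n0,n0,n0,m1,n1]) :: l5

noncomputable def r6 : List Con := (true, [n0,n0,n0,n0,n0,n0,n0,n0,n0,n1,m1]) :: l5

noncomputable def l7 : List Con := (true, [n0,n1,n0,n0,n0,n0,n0,n1,n0,m1]) :: r6

noncomputable def r7 : List Con := (true, [n1,m1,n0,n0,n0,n0,n0,m1,n0,n1]) :: r6

noncomputable def l8 : List Con := (true, [n1,n0,n0,n0,n0,n0,n0,n1,n0,m2]) :: r7

noncomputable def r8 : List Con := (true, [n0,n0,n0,n0,n0,n0,n0,m1,n0,n2]) :: r7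

noncomputable def l9 : List Con := (true, [n0,n0,n0,n0,n0,n0,m1,n0,n2]) :: l8

noncomputable def r9 : List Con := (true, [n1,n0,n0,n0,n0,n0,n1,n0,m2]) :: l8

noncomputable def l10 : List Con := (true, [n1,n0,n1,n1,m1,n0,n0,m1,n0,m2,m1]) :: r9

noncomputable def r10 : List Con := (true, [n0,n0,m1,m1,n1,n0,n0,n1,n0,n2,n1]) :: r9

noncomputable def l11 : List Con := (true, [n1,n0,m3,m3,n1,n0,n0,m1,n0,n0,m1]) :: r10

noncomputable def r11 : List Con := (true, [n0,n0,n3,n3,m1,n0,n0,n1,n0,n0,n1]) :: r10

noncomputable def l12 : List Con := (true, [n1,n0,n3,n3,m1,n0,n0,n1,n0,n0,n1]) :: l11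

noncomputable def r12 : List Con := (true, [n0,n0,m3,m3,n1,n0,n0,m1,n0,n0,m1]) :: l11

noncomputable def l13 : List Con := (true, [n1,n0,m1,m1,n0,n0,n0,m1,n0,m1,m1]) :: r12

noncomputable def r13 : List Con := (true, [n0,n0,n1,n1,n0,n0,n0,n1,n0,n1,n1]) :: r12

noncomputable def l14 : List Con := (true, [n1,n0,n1,n1,n0,n0,n0,n1,n0,n1,n1]) :: l13

noncomputable def r14 : List Con := (true, [n0,n0,m1,m1,n0,n0,n0,m1,n0,m1,m1]) :: l13

noncomputable def l15 : List Con := (false, [n0,n0,n0,n0,n0,n0,n0,n0,n0,n0,n0,n0,n1,m2]) :: r14

noncomputable def r15 : List Con := (true, [n1,n0,n0,n0,n0,n0,n0,n0,n0,n0,n0,n0,m1,n2]) :: r14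

noncomputable def l16 : List Con := (true, [n1,n0,m2,m2,n1,n0,n0,n0,n0,n0,n1]) :: r13

noncomputable def r16 : List Con := (true, [n0,n0,n2,n2,m1,n0,n0,n0,n0,n0,m1]) :: r13

noncomputable def l17 : List Con := (true, [n1,n0,n2,n2,m1,n0,n0,n0,n0,n0,m1]) :: l16

noncomputable def r17 : List Con := (true, [n0,n0,m2,m2,n1,n0,n0,n0,n0,n0,n1]) :: l16

noncomputable def l18 : List Con := (true, [n1,n0,n1,n1,n0,n0,n0,n0,n0,n2,n2]) :: r17

noncomputable def r18 : List Con := (true, [n0,n0,m1,m1,n0,n0,n0,n0,n0,m2,m2]) :: r17

noncomputable def l19 : List Con := (true, [n1,n0,m1,m1,n0,n0,n0,n0,n0,m2,m2]) :: l18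

noncomputable def r19 : List Con := (true, [n0,n0,n1,n1,n0,n0,n0,n0,n0,n2,n2]) :: l18

noncomputable def l20 : List Con := (true, [n1,n0,n2,n2,m1,n0,n0,n0,n0,n1,m2]) :: r19

noncomputable def r20 : List Con := (true, [n0,n0,m2,m2,n1,n0,n0,n0,n0,m1,n2]) :: r19

noncomputable def l21 : List Con := (true, [n1,n0,m2,m2,n1,n0,n0,n0,n0,m1,n2]) :: l20

noncomputable def r21 : List Con := (true, [n0,n0,n2,n2,m1,n0,n0,n0,n0,n1,m2]) :: l20

noncomputable def l22 : List Con := (false, [n0,n0,n0,n0,n0,n0,n0,n0,n0,n0,n0,n0,m1,n2]) :: r21

noncomputable def r22 : List Con := (true, [n1,n0,n0,n0,n0,n0,n0,n0,n0,n0,n0,n0,n1,m2]) :: r21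

noncomputable def l23 : List Con := (false, [n0,n0,n0,n0,n0,n0,n0,n0,n0,n0,n0,n0,n1,m2]) :: r22

noncomputable def r23 : List Con := (true, [n1,n0,n0,n0,n0,n0,n0,n0,n0,n0,n0,n0,m1,n2]) :: r22

noncomputable def l24 : List Con := (false, [n0,n0,n0,n0,n0,n0,n0,n0,n0,n0,n0,n0,n1,m2]) :: r20

noncomputable def r24 : List Con := (true, [n1,n0,n0,n0,n0,n0,n0,n0,n0,n0,n0,n0,m1,n2]) :: r20

noncomputable def l25 : List Con := (false, [n0,n0,n0,n0,n0,n0,n0,n0,n0,n0,n0,n0,m1,n2]) :: r18

noncomputable def r25 : List Con := (true, [n1,n0,n0,n0,n0,n0,n0,n0,n0,n0,n0,n0,n1,m2]) :: r18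

noncomputable def l26 : List Con := (true, [n1,n0,m1,m1,n1,n0,n0,n1,n0,n1,n2]) :: r16

noncomputable def r26 : List Con := (true, [n0,n0,n1,n1,m1,n0,n0,m1,n0,m1,m2]) :: r16

noncomputable def l27 : List Con := (true, [n1,n0,n1,n1,m1,n0,n0,m1,n0,m1,m2]) :: l26

noncomputable def r27 : List Con := (true, [n0,n0,m1,m1,n1,n0,n0,n1,n0,n1,n2]) :: l26

noncomputable def l28 : List Con := (false, [n0,n0,n0,n0,n0,n0,n0,n0,n0,n0,n0,n0,n1,m2]) :: r27

noncomputable def r28 : List Con := (true, [n1,n0,n0,n0,n0,n0,n0,n0,n0,n0,n0,n0,m1,n2]) :: r27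

noncomputable def l29 : List Con := (false, [n0,n0,n0,n0,n0,n0,n0,n0,n0,n0,n0,n0,n1,m2]) :: r26

noncomputable def r29 : List Con := (true, [n1,n0,n0,n0,n0,n0,n0,n0,n0,n0,n0,n0,m1,n2]) :: r26

noncomputable def l30 : List Con := (false, [n0,n0,n0,n0,n0,n0,n0,n0,n0,n0,n0,n0,m1,n2]) :: r29

noncomputable def r30 : List Con := (true, [n1,n0,n0,n0,n0,n0,n0,n0,n0,n0,n0,n0,n1,m2]) :: r29

noncomputable def l31 : List Con := (true, [n1,n0,m2,m2,n1,n0,n0,n0,n0,m1,n2]) :: r11

noncomputable def r31 : List Con := (true, [n0,n0,n2,n2,m1,n0,n0,n0,n0,n1,m2]) :: r11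

noncomputable def l32 : List Con := (true, [n1,n0,n2,n2,m1,n0,n0,n0,n0,n1,m2]) :: l31

noncomputable def r32 : List Con := (true, [n0,n0,m2,m2,n1,n0,n0,n0,n0,m1,n2]) :: l31

noncomputable def l33 : List Con := (true, [n1,n0,n4,n4,m1,n0,n0,n0,n0,n0,n7]) :: r32

noncomputable def r33 : List Con := (true, [n0,n0,m4,m4,n1,n0,n0,n0,n0,n0,m7]) :: r32

noncomputable def l34 : List Con := (true, [n1,n0,m4,m4,n1,n0,n0,n0,n0,n0,m7]) :: l33

noncomputable def r34 : List Con := (true, [n0,n0,n4,n4,m1,n0,n0,n0,n0,n0,n7]) :: l33

noncomputable def l35 : List Con := (false, [n0,n0,n0,n0,n0,n0,n0,n0,n0,n0,n0,n0,n1,m2]) :: r34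

noncomputable def r35 : List Con := (true, [n1,n0,n0,n0,n0,n0,n0,n0,n0,n0,n0,n0,m1,n2]) :: r34

noncomputable def l36 : List Con := (false, [n0,n0,n0,n0,n0,n0,n0,n0,n0,n0,n0,n0,m1,n2]) :: r35

noncomputable def r36 : List Con := (true, [n1,n0,n0,n0,n0,n0,n0,n0,n0,n0,n0,n0,n1,m2]) :: r35

noncomputable def l37 : List Con := (false, [n0,n0,n0,n0,n0,n0,n0,n0,n0,n0,n0,n0,m1,n2]) :: r33

noncomputable def r37 : List Con := (true, [n1,n0,n0,n0,n0,n0,n0,n0,n0,n0,n0,n0,n1,m2]) :: r33

noncomputable def l38 : List Con := (true, [n1,n0,n1,n1,m1,n0,n0,m1,n0,m1,m2]) :: r31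

noncomputable def r38 : List Con := (true, [n0,n0,m1,m1,n1,n0,n0,n1,n0,n1,n2]) :: r31

noncomputable def l39 : List Con := (true, [n1,n0,m1,m1,n1,n0,n0,n1,n0,n1,n2]) :: l38

noncomputable def r39 : List Con := (true, [n0,n0,n1,n1,m1,n0,n0,m1,n0,m1,m2]) :: l38

noncomputable def l40 : List Con := (false, [n0,n0,n0,n0,n0,n0,n0,n0,n0,n0,n0,n0,m1,n2]) :: r39

noncomputable def r40 : List Con := (true, [n1,n0,n0,n0,n0,n0,n0,n0,n0,n0,n0,n0,n1,m2]) :: r39

noncomputable def l41 : List Con := (false, [n0,n0,n0,n0,n0,n0,n0,n0,n0,n0,n0,n0,n1,m2]) :: r40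

noncomputable def r41 : List Con := (true, [n1,n0,n0,n0,n0,n0,n0,n0,n0,n0,n0,n0,m1,n2]) :: r40

noncomputable def l42 : List Con := (true, [n1,n0,m2,m2,n1,n0,n0,n0,n0,n0,n1]) :: r38

noncomputable def r42 : List Con := (true, [n0,n0,n2,n2,m1,n0,n0,n0,n0,n0,m1]) :: r38

noncomputable def l43 : List Con := (true, [n1,n0,n2,n2,m1,n0,n0,n0,n0,n0,m1]) :: l42

noncomputable def r43 : List Con := (true, [n0,n0,m2,m2,n1,n0,n0,n0,n0,n0,n1]) :: l42

noncomputable def l44 : List Con := (false, [n0,n0,n0,n0,n0,n0,n0,n0,n0,n0,n0,n0,n1,m2]) :: r43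

noncomputable def r44 : List Con := (true, [n1,n0,n0,n0,n0,n0,n0,n0,n0,n0,n0,n0,m1,n2]) :: r43

noncomputable def l45 : List Con := (false, [n0,n0,n0,n0,n0,n0,n0,n0,n0,n0,n0,n0,m1,n2]) :: r44

noncomputable def r45 : List Con := (true, [n1,n0,n0,n0,n0,n0,n0,n0,n0,n0,n0,n0,n1,m2]) :: r44

noncomputable def l46 : List Con := (true, [n1,n0,m1,m1,n0,n0,n0,n0,n0,m2,m2]) :: r42

noncomputable def r46 : List Con := (true, [n0,n0,n1,n1,n0,n0,n0,n0,n0,n2,n2]) :: r42

noncomputable def l47 : List Con := (true, [n1,n0,n1,n1,n0,n0,n0,n0,n0,n2,n2]) :: l46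

noncomputable def r47 : List Con := (true, [n0,n0,m1,m1,n0,n0,n0,n0,n0,m2,m2]) :: l46

noncomputable def l48 : List Con := (false, [n0,n0,n0,n0,n0,n0,n0,n0,n0,n0,n0,n0,n1,m2]) :: r47

noncomputable def r48 : List Con := (true, [n1,n0,n0,n0,n0,n0,n0,n0,n0,n0,n0,n0,m1,n2]) :: r47

noncomputable def l49 : List Con := (true, [n1,n0,m1,m1,n1,n0,n0,n0,n0,n0,n6]) :: r46

noncomputable def r49 : List Con := (true, [n0,n0,n1,n1,m1,n0,n0,n0,n0,n0,m6]) :: r46

noncomputable def l50 : List Con := (true, [n1,n0,n1,n1,m1,n0,n0,n0,n0,n0,m6]) :: l49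

noncomputable def r50 : List Con := (true, [n0,n0,m1,m1,n1,n0,n0,n0,n0,n0,n6]) :: l49

noncomputable def l51 : List Con := (true, [n1,n0,m3,m3,n2,n0,n0,n0,n0,n0,n7]) :: r50

noncomputable def r51 : List Con := (true, [n0,n0,n3,n3,m2,n0,n0,n0,n0,n0,m7]) :: r50

noncomputable def l52 : List Con := (true, [n1,n0,n3,n3,m2,n0,n0,n0,n0,n0,m7]) :: l51

noncomputable def r52 : List Con := (true, [n0,n0,m3,m3,n2,n0,n0,n0,n0,n0,n7]) :: l51

noncomputable def l53 : List Con := (false, [n0,n0,n0,n0,n0,n0,n0,n0,n0,n0,n0,n0,n1,m2]) :: r52

noncomputable def r53 : List Con := (true, [n1,n0,n0,n0,n0,n0,n0,n0,n0,n0,n0,n0,m1,n2]) :: r52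

noncomputable def l54 : List Con := (false, [n0,n0,n0,n0,n0,n0,n0,n0,n0,n0,n0,n0,m1,n2]) :: r53

noncomputable def r54 : List Con := (true, [n1,n0,n0,n0,n0,n0,n0,n0,n0,n0,n0,n0,n1,m2]) :: r53

noncomputable def l55 : List Con := (false, [n0,n0,n0,n0,n0,n0,n0,n0,n0,n0,n0,n0,n1,m2]) :: r51

noncomputable def r55 : List Con := (true, [n1,n0,n0,n0,n0,n0,n0,n0,n0,n0,n0,n0,m1,n2]) :: r51

noncomputable def l56 : List Con := (false, [n0,n0,n0,n0,n0,n0,n0,n0,n0,n0,n0,n0,m1,n2]) :: r49

noncomputable def r56 : List Con := (true, [n1,n0,n0,n0,n0,n0,n0,n0,n0,n0,n0,n0,n1,m2]) :: r49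

noncomputable def l57 : List Con := (true, [n1,n0,n1,n1,n0,n0,n0,n2,n0,n1,m1]) :: r5

noncomputable def r57 : List Con := (true, [n0,n0,m1,m1,n0,n0,n0,m2,n0,m1,n1]) :: r5

noncomputable def l58 : List Con := (true, [n1,n0,m1,m1,n0,n0,n0,m2,n0,m1,n1]) :: l57

noncomputable def r58 : List Con := (true, [n0,n0,n1,n1,n0,n0,n0,n2,n0,n1,m1]) :: l57

noncomputable def l59 : List Con := (true, [n1,n0,m2,m2,n1,n0,n0,n0,n0,n2,m1]) :: r58

noncomputable def r59 : List Con := (true, [n0,n0,n2,n2,m1,n0,n0,n0,n0,m2,n1]) :: r58

noncomputable def l60 : List Con := (true, [n1,n0,n2,n2,m1,n0,n0,n0,n0,m2,n1]) :: l59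

noncomputable def r60 : List Con := (true, [n0,n0,m2,m2,n1,n0,n0,n0,n0,n2,m1]) :: l59

noncomputable def l61 : List Con := (true, [n1,m1,n0,n0,n0,n0,n0,m1,n0,n1]) :: r60

noncomputable def r61 : List Con := (true, [n0,n1,n0,n0,n0,n0,n0,n1,n0,m1]) :: r60

noncomputable def l62 : List Con := (true, [n1,n0,n2,n2,m1,n0,n0,m1,n0,n0,n1]) :: l61

noncomputable def r62 : List Con := (true, [n0,n0,m2,m2,n1,n0,n0,n1,n0,n0,m1]) :: l61

noncomputable def l63 : List Con := (true, [n1,n0,m1,m1,n1,n0,n0,n2,n0,n1,n1]) :: r62

noncomputable def r63 : List Con := (true, [n0,n0,n1,n1,m1,n0,n0,m2,n0,m1,m1]) :: r62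

noncomputable def l64 : List Con := (true, [n0,m1,n0,n0,n0,n0,n0,m1,n0,n1]) :: l63

noncomputable def r64 : List Con := (true, [n1,n1,n0,n0,n0,n0,n0,n1,n0,m1]) :: l63

noncomputable def l65 : List Con := (true, [n1,n0,n0,n0,n0,n0,n0,n1,n0,m2]) :: r64

noncomputable def r65 : List Con := (true, [n0,n0,n0,n0,n0,n0,n0,m1,n0,n2]) :: r64

noncomputable def l66 : List Con := (true, [n0,n0,n0,n0,n0,n0,m1,n0,n2]) :: l65

noncomputable def r66 : List Con := (true, [n1,n0,n0,n0,n0,n0,n1,n0,m2]) :: l65

noncomputable def l67 : List Con := (true, [n1,n0,m3,m3,n2,n0,n0,n0,n0,n0,n8]) :: r66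

noncomputable def r67 : List Con := (true, [n0,n0,n3,n3,m2,n0,n0,n0,n0,n0,m8]) :: r66

noncomputable def l68 : List Con := (false, [n0,n0,n0,n0,n0,n0,n0,n0,n0,n0,n0,n0,n1,m2]) :: l67

noncomputable def r68 : List Con := (true, [n1,n0,n0,n0,n0,n0,n0,n0,n0,n0,n0,n0,m1,n2]) :: l67

noncomputable def l69 : List Con := (true, [n1,n0,n1,n1,n0,n0,n0,n1,n0,n2,n1]) :: r67

noncomputable def r69 : List Con := (true, [n0,n0,m1,m1,n0,n0,n0,m1,n0,m2,m1]) :: r67

noncomputable def l70 : List Con := (true, [n1,n0,m1,m1,n0,n0,n0,m1,n0,m2,m1]) :: l69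

noncomputable def r70 : List Con := (true, [n0,n0,n1,n1,n0,n0,n0,n1,n0,n2,n1]) :: l69

noncomputable def l71 : List Con := (false, [n0,n0,n0,n0,n0,n0,n0,n0,n0,n0,n0,n0,n1,m2]) :: r70

noncomputable def r71 : List Con := (true, [n1,n0,n0,n0,n0,n0,n0,n0,n0,n0,n0,n0,m1,n2]) :: r70

noncomputable def l72 : List Con := (true, [n1,n0,n3,n3,m1,n0,n0,n2]) :: r71

noncomputable def r72 : List Con := (true, [n0,n0,m3,m3,n1,n0,n0,m2]) :: r71

noncomputable def l73 : List Con := (true, [n1,n0,m3,m3,n1,n0,n0,m2]) :: l72

noncomputable def r73 : List Con := (true, [n0,n0,n3,n3,m1,n0,n0,n2]) :: l72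

noncomputable def l74 : List Con := (false, [n0,n0,n0,n0,n0,n0,n0,n0,n0,n0,n0,n0,m1,n2]) :: r73

noncomputable def r74 : List Con := (true, [n1,n0,n0,n0,n0,n0,n0,n0,n0,n0,n0,n0,n1,m2]) :: r73

noncomputable def l75 : List Con := (true, [n1,n0,n1,n1,m1,n0,n0,m2,n0,m1,m1]) :: r69

noncomputable def r75 : List Con := (true, [n0,n0,m1,m1,n1,n0,n0,n2,n0,n1,n1]) :: r69

noncomputable def l76 : List Con := (true, [n1,n0,n1,n1,n0,n0,n0,n1,n0,n1,n2]) :: r75

noncomputable def r76 : List Con := (true, [n0,n0,m1,m1,n0,n0,n0,m1,n0,m1,m2]) :: r75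

noncomputable def l77 : List Con := (true, [n1,n0,m1,m1,n0,n0,n0,m1,n0,m1,m2]) :: l76

noncomputable def r77 : List Con := (true, [n0,n0,n1,n1,n0,n0,n0,n1,n0,n1,n2]) :: l76

noncomputable def l78 : List Con := (true, [n1,n0,m1,m1,n1,n0,n0,n2,n0,n2]) :: r77

noncomputable def r78 : List Con := (true, [n0,n0,n1,n1,m1,n0,n0,m2,n0,m2]) :: r77

noncomputable def l79 : List Con := (true, [n1,n0,n1,n1,m1,n0,n0,m2,n0,m2]) :: l78

noncomputable def r79 : List Con := (true, [n0,n0,m1,m1,n1,n0,n0,n2,n0,n2]) :: l78

noncomputable def l80 : List Con := (false, [n0,n0,n0,n0,n0,n0,n0,n0,n0,n0,n0,n0,n1,m2]) :: r79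

noncomputable def r80 : List Con := (true, [n1,n0,n0,n0,n0,n0,n0,n0,n0,n0,n0,n0,m1,n2]) :: r79

noncomputable def l81 : List Con := (false, [n0,n0,n0,n0,n0,n0,n0,n0,n0,n0,n0,n0,m1,n2]) :: r80

noncomputable def r81 : List Con := (true, [n1,n0,n0,n0,n0,n0,n0,n0,n0,n0,n0,n0,n1,m2]) :: r80

noncomputable def l82 : List Con := (false, [n0,n0,n0,n0,n0,n0,n0,n0,n0,n0,n0,n0,m1,n2]) :: r78

noncomputable def r82 : List Con := (true, [n1,n0,n0,n0,n0,n0,n0,n0,n0,n0,n0,n0,n1,m2]) :: r78

noncomputable def l83 : List Con := (false, [n0,n0,n0,n0,n0,n0,n0,n0,n0,n0,n0,n0,n1,m2]) :: r82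

noncomputable def r83 : List Con := (true, [n1,n0,n0,n0,n0,n0,n0,n0,n0,n0,n0,n0,m1,n2]) :: r82

noncomputable def l84 : List Con := (true, [n1,n0,m1,m1,n1,n0,n0,n2,n0,n2]) :: r76

noncomputable def r84 : List Con := (true, [n0,n0,n1,n1,m1,n0,n0,m2,n0,m2]) :: r76

noncomputable def l85 : List Con := (true, [n1,n0,n1,n1,m1,n0,n0,m2,n0,m2]) :: l84

noncomputable def r85 : List Con := (true, [n0,n0,m1,m1,n1,n0,n0,n2,n0,n2]) :: l84

noncomputable def l86 : List Con := (false, [n0,n0,n0,n0,n0,n0,n0,n0,n0,n0,n0,n0,m1,n2]) :: r85

noncomputable def r86 : List Con := (true, [n1,n0,n0,n0,n0,n0,n0,n0,n0,n0,n0,n0,n1,m2]) :: r85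

noncomputable def l87 : List Con := (false, [n0,n0,n0,n0,n0,n0,n0,n0,n0,n0,n0,n0,n1,m2]) :: r86

noncomputable def r87 : List Con := (true, [n1,n0,n0,n0,n0,n0,n0,n0,n0,n0,n0,n0,m1,n2]) :: r86

noncomputable def l88 : List Con := (false, [n0,n0,n0,n0,n0,n0,n0,n0,n0,n0,n0,n0,m1,n2]) :: r84

noncomputable def r88 : List Con := (true, [n1,n0,n0,n0,n0,n0,n0,n0,n0,n0,n0,n0,n1,m2]) :: r84

noncomputable def l89 : List Con := (false, [n0,n0,n0,n0,n0,n0,n0,n0,n0,n0,n0,n0,n1,m2]) :: r88

noncomputable def r89 : List Con := (true, [n1,n0,n0,n0,n0,n0,n0,n0,n0,n0,n0,n0,m1,n2]) :: r88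

noncomputable def l90 : List Con := (true, [n1,n0,n0,n0,n0,n0,n0,n1,n0,m2]) :: r63

noncomputable def r90 : List Con := (true, [n0,n0,n0,n0,n0,n0,n0,m1,n0,n2]) :: r63

noncomputable def l91 : List Con := (false, [n0,n0,n0,n0,n0,n0,n0,n0,n0,n0,n0,n0,n1,m2]) :: l90

noncomputable def r91 : List Con := (true, [n1,n0,n0,n0,n0,n0,n0,n0,n0,n0,n0,n0,m1,n2]) :: l90

noncomputable def l92 : List Con := (true, [n0,n1,n0,n0,n0,n0,n0,n1,n0,m1]) :: r59

noncomputable def r92 : List Con := (true, [n1,m1,n0,n0,n0,n0,n0,m1,n0,n1]) :: r59

noncomputable def l93 : List Con := (true, [n1,n0,n0,n0,n0,n0,n0,n1,n0,m2]) :: r92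

noncomputable def r93 : List Con := (true, [n0,n0,n0,n0,n0,n0,n0,m1,n0,n2]) :: r92

noncomputable def l94 : List Con := (true, [n0,n0,n0,n0,n0,n0,m1,n0,n2]) :: l93

noncomputable def r94 : List Con := (true, [n1,n0,n0,n0,n0,n0,n1,n0,m2]) :: l93

noncomputable def l95 : List Con := (true, [n1,n0,m3,m3,n1,n0,n0,n0,n0,n0,m5]) :: r94

noncomputable def r95 : List Con := (true, [n0,n0,n3,n3,m1,n0,n0,n0,n0,n0,n5]) :: r94

noncomputable def l96 : List Con := (true, [n1,n0,n3,n3,m1,n0,n0,n0,n0,n0,n5]) :: l95

noncomputable def r96 : List Con := (true, [n0,n0,m3,m3,n1,n0,n0,n0,n0,n0,m5]) :: l95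

noncomputable def l97 : List Con := (true, [n1,n0,m1,m1,n1,n0,n0,n2,n0,n0,n2]) :: r96

noncomputable def r97 : List Con := (true, [n0,n0,n1,n1,m1,n0,n0,m2,n0,n0,m2]) :: r96

noncomputable def l98 : List Con := (true, [n1,n0,n1,n1,m1,n0,n0,m2,n0,n0,m2]) :: l97

noncomputable def r98 : List Con := (true, [n0,n0,m1,m1,n1,n0,n0,n2,n0,n0,n2]) :: l97

noncomputable def l99 : List Con := (false, [n0,n0,n0,n0,n0,n0,n0,n0,n0,n0,n0,n0,n1,m2]) :: r98

noncomputable def r99 : List Con := (true, [n1,n0,n0,n0,n0,n0,n0,n0,n0,n0,n0,n0,m1,n2]) :: r98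

noncomputable def l100 : List Con := (true, [n1,n0,n3,n3,m1,n0,n0,n0,n0,n0,n4]) :: r97

noncomputable def r100 : List Con := (true, [n0,n0,m3,m3,n1,n0,n0,n0,n0,n0,m4]) :: r97

noncomputable def l101 : List Con := (true, [n1,n0,m3,m3,n1,n0,n0,n0,n0,n0,m4]) :: l100

noncomputable def r101 : List Con := (true, [n0,n0,n3,n3,m1,n0,n0,n0,n0,n0,n4]) :: l100

noncomputable def l102 : List Con := (false, [n0,n0,n0,n0,n0,n0,n0,n0,n0,n0,n0,n0,n1,m2]) :: r101

noncomputable def r102 : List Con := (true, [n1,n0,n0,n0,n0,n0,n0,n0,n0,n0,n0,n0,m1,n2]) :: r101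

noncomputable def l103 : List Con := (false, [n0,n0,n0,n0,n0,n0,n0,n0,n0,n0,n0,n0,m1,n2]) :: r100

noncomputable def r103 : List Con := (true, [n1,n0,n0,n0,n0,n0,n0,n0,n0,n0,n0,n0,n1,m2]) :: r100

noncomputable def l104 : List Con := (false, [n0,n0,n0,n0,n0,n0,n0,n0,n0,n0,n0,n0,n1,m2]) :: r103

noncomputable def r104 : List Con := (true, [n1,n0,n0,n0,n0,n0,n0,n0,n0,n0,n0,n0,m1,n2]) :: r103

noncomputable def l105 : List Con := (false, [n0,n0,n0,n0,n0,n0,n0,n0,n0,n0,n0,n0,m1,n2]) :: r95

noncomputable def r105 : List Con := (true, [n1,n0,n0,n0,n0,n0,n0,n0,n0,n0,n0,n0,n1,m2]) :: r95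

noncomputable def l106 : List Con := (false, [n0,n0,n0,n0,n0,n0,n0,n0,n0,n0,n0,n0,n1,m2]) :: r105

noncomputable def r106 : List Con := (true, [n1,n0,n0,n0,n0,n0,n0,n0,n0,n0,n0,n0,m1,n2]) :: r105

noncomputable def l107 : List Con := (true, [n1,n0,n1,n1,m1,n0,n0,n0,n0,n0,m7]) :: r57

noncomputable def r107 : List Con := (true, [n0,n0,m1,m1,n1,n0,n0,n0,n0,n0,n7]) :: r57

noncomputable def l108 : List Con := (true, [n1,n0,m1,m1,n1,n0,n0,n0,n0,n0,n7]) :: l107

noncomputable def r108 : List Con := (true, [n0,n0,n1,n1,m1,n0,n0,n0,n0,n0,m7]) :: l107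

noncomputable def l109 : List Con := (true, [n1,m1,n0,n0,n0,n0,n0,m1,n0,n1]) :: r108

noncomputable def r109 : List Con := (true, [n0,n1,n0,n0,n0,n0,n0,n1,n0,m1]) :: r108

noncomputable def l110 : List Con := (true, [n1,n0,n0,n0,n0,n0,n0,n1,n0,m2]) :: l109

noncomputable def r110 : List Con := (true, [n0,n0,n0,n0,n0,n0,n0,m1,n0,n2]) :: l109

noncomputable def l111 : List Con := (true, [n0,n0,n0,n0,n0,n0,m1,n0,n2]) :: l110

noncomputable def r111 : List Con := (true, [n1,n0,n0,n0,n0,n0,n1,n0,m2]) :: l110

noncomputable def l112 : List Con := (true, [n1,n0,m3,m3,n2,n0,n0,n0,n0,n0,n8]) :: r111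

noncomputable def r112 : List Con := (true, [n0,n0,n3,n3,m2,n0,n0,n0,n0,n0,m8]) :: r111

noncomputable def l113 : List Con := (true, [n1,n0,n3,n3,m2,n0,n0,n0,n0,n0,m8]) :: l112

noncomputable def r113 : List Con := (true, [n0,n0,m3,m3,n2,n0,n0,n0,n0,n0,n8]) :: l112

noncomputable def l114 : List Con := (false, [n0,n0,n0,n0,n0,n0,n0,n0,n0,n0,n0,n0,n1,m2]) :: r113

noncomputable def r114 : List Con := (true, [n1,n0,n0,n0,n0,n0,n0,n0,n0,n0,n0,n0,m1,n2]) :: r113

noncomputable def l115 : List Con := (false, [n0,n0,n0,n0,n0,n0,n0,n0,n0,n0,n0,n0,m1,n2]) :: r114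

noncomputable def r115 : List Con := (true, [n1,n0,n0,n0,n0,n0,n0,n0,n0,n0,n0,n0,n1,m2]) :: r114

noncomputable def l116 : List Con := (false, [n0,n0,n0,n0,n0,n0,n0,n0,n0,n0,n0,n0,m1,n2]) :: r112

noncomputable def r116 : List Con := (true, [n1,n0,n0,n0,n0,n0,n0,n0,n0,n0,n0,n0,n1,m2]) :: r112

noncomputable def l117 : List Con := (false, [n0,n0,n0,n0,n0,n0,n0,n0,n0,n0,n0,n0,n1,m2]) :: r116

noncomputable def r117 : List Con := (true, [n1,n0,n0,n0,n0,n0,n0,n0,n0,n0,n0,n0,m1,n2]) :: r116

noncomputable def l118 : List Con := (true, [n1,n0,n1,n1,m1,n0,n0,m2,n0,n0,m2]) :: r107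

noncomputable def r118 : List Con := (true, [n0,n0,m1,m1,n1,n0,n0,n2,n0,n0,n2]) :: r107

noncomputable def l119 : List Con := (true, [n0,n1,n0,n0,n0,n0,n0,n1,n0,m1]) :: l118

noncomputable def r119 : List Con := (true, [n1,m1,n0,n0,n0,n0,n0,m1,n0,n1]) :: l118

noncomputable def l120 : List Con := (true, [n1,n0,m1,m1,n1,n0,n0,n2,n0,n0,n2]) :: r119

noncomputable def r120 : List Con := (true, [n0,n0,n1,n1,m1,n0,n0,m2,n0,n0,m2]) :: r119

noncomputable def l121 : List Con := (true, [n0,m1,n0,n0,n0,n0,n0,m1,n0,n1]) :: r120

noncomputable def r121 : List Con := (true, [n1,n1,n0,n0,n0,n0,n0,n1,n0,m1]) :: r120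

noncomputable def l122 : List Con := (true, [n0,n0,n0,n0,n0,n0,m1,n0,n2]) :: r121

noncomputable def r122 : List Con := (true, [n1,n0,n0,n0,n0,n0,n1,n0,m2]) :: r121

noncomputable def l123 : List Con := (false, [n0,n0,n0,n0,n0,n0,n0,n0,n0,n0,n0,n0,n1,m2]) :: r122

noncomputable def r123 : List Con := (true, [n1,n0,n0,n0,n0,n0,n0,n0,n0,n0,n0,n0,m1,n2]) :: r122

noncomputable def l124 : List Con := (true, [n0,n1,n0,n0,n0,n0,n0,n1,n0,m1]) :: r118

noncomputable def r124 : List Con := (true, [n1,m1,n0,n0,n0,n0,n0,m1,n0,n1]) :: r118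

noncomputable def l125 : List Con := (true, [n0,n0,n0,n0,n0,n0,m1,n0,n2]) :: r124

noncomputable def r125 : List Con := (true, [n1,n0,n0,n0,n0,n0,n1,n0,m2]) :: r124

noncomputable def l126 : List Con := (true, [n1,n0,m1,m1,n0,n0,n0,m1,n0,m1,m2]) :: r125

noncomputable def r126 : List Con := (true, [n0,n0,n1,n1,n0,n0,n0,n1,n0,n1,n2]) :: r125

noncomputable def l127 : List Con := (true, [n1,n0,n1,n1,n0,n0,n0,n1,n0,n1,n2]) :: l126

noncomputable def r127 : List Con := (true, [n0,n0,m1,m1,n0,n0,n0,m1,n0,m1,m2]) :: l126

noncomputable def l128 : List Con := (true, [n0,m1,n0,n0,n0,n0,n0,m1,n0,n1]) :: r127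

noncomputable def r128 : List Con := (true, [n1,n1,n0,n0,n0,n0,n0,n1,n0,m1]) :: r127

noncomputable def l129 : List Con := (true, [n1,n0,n0,n0,n0,n0,n0,n1,n0,m2]) :: r128

noncomputable def r129 : List Con := (true, [n0,n0,n0,n0,n0,n0,n0,m1,n0,n2]) :: r128

noncomputable def l130 : List Con := (false, [n0,n0,n0,n0,n0,n0,n0,n0,n0,n0,n0,n0,m1,n2]) :: l129

noncomputable def r130 : List Con := (true, [n1,n0,n0,n0,n0,n0,n0,n0,n0,n0,n0,n0,n1,m2]) :: l129

noncomputable def l131 : List Con := (true, [n1,n0,n0,n0,n0,n0,n0,n1,n0,m2]) :: r126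

noncomputable def r131 : List Con := (true, [n0,n0,n0,n0,n0,n0,n0,m1,n0,n2]) :: r126

noncomputable def l132 : List Con := (false, [n0,n0,n0,n0,n0,n0,n0,n0,n0,n0,n0,n0,n1,m2]) :: l131

noncomputable def r132 : List Con := (true, [n1,n0,n0,n0,n0,n0,n0,n0,n0,n0,n0,n0,m1,n2]) :: l131

noncomputable def l133 : List Con := (true, [n1,n0,m2,m2,n1,n0,n0,n1,n0,m1]) :: r0

noncomputable def r133 : List Con := (true, [n0,n0,n2,n2,m1,n0,n0,m1,n0,n1]) :: r0

noncomputable def l134 : List Con := (true, [n1,n0,n3,n3,m1,n0,n0,n0,n0,n0,n7]) :: l133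

noncomputable def r134 : List Con := (true, [n0,n0,m3,m3,n1,n0,n0,n0,n0,n0,m7]) :: l133

open Helper55.PC in
noncomputable def t0n : Helper55.PC.Ten :=
  (r
  323511594031357363816706398256081792315278229013769044176637604853786053409015407945265037316822499001708181363907520234402041759630317176330744396937892563909997288388039031905829797693352616184642813424936759946200154863540132659293692851837060688220100090385318704023893069104064357599189711125054106397115366495226837727371937856802733915830570106679121257134884179040732913186597236592637647526362295304663952090711465529152910678402429682319976739072464643839762697)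

noncomputable def t0 : Tre := Helper55.PC.toT t0n

theorem ok0 : chk K t0 l2 = true :=
  Helper55.PC.chkN_sound K t0n l2 (by decide +kernel)

open Helper55.PC in
noncomputable def t1n : Helper55.PC.Ten :=
  (i 178471287827650388780351454044178649855426603 (q
  12243055845718051392900967621320637955836126334762365091731463550890304944490616870951214842404239601484422819926499108791301095106972096297028187960428545188750059750349996046
  (r
  12958991125294856678251998071691764250766565148018311065528807672628212023195974476779614371225260761957807017535917521819317211778855750439782436925102326581650699537723463503361235229224579715332660344926046129953640137976816883272948008935692141354795171011950743103683978950916783978193186003327912034801807601599289900917071213641662666960478150539700136564695102995966940450109361274514788230668153818227660838603216277365386525550796882778794770802605652251967915666022250698396070281693776010344321004708887548166120656375476078855774599591337330586493080065607432411500071675808210970972147527155168706023921647563404612034836544810278171054534056158629036304631243229897832969769228074412647686379910540121499365456783032236057806622014955383551819776856088406722904606251753621024341868647530357377)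
  (i 178122849317747314073091941532527407707324459 (i
  178732635319269635799618309405400322644508715 (n
  124130201002678345284664181481550835397199392157893142799999190319063765950270853) (i
  21775413351585892568401936886325550907402 (r
  2369342307301343096451870172828168606077081970448727160679187244839139292525914410678232261173115083299049718705926477249267297537064391145381435902912034923004111385036357838143011992389172271053779424646092915190149820928895918042194103877015931681230306120813890625163060204756342581791339011838351013935216740881776950556904458764879402564431342799237857224645560961360793746434293263970469617255211356616935259430417537749276542197774976078702606840188177100409394351065943155757836744413997786615018858294933262561509000784065347112659597864001821334222489235666751113762470375511361184805950388792218627190628121224884864494666323146050447899982350467405950214991037821479399330565473743987887504748011438127864454837256620789498163109794359908466267933552953189701471213173365922051007795016878293858222498662503565672052858243933812125727157525037661512232329505)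
  (q
  1382326422346351754398568258915207863776302830336383615530267146618660286482334057581610179292603468482554897204500235324858420543333980936316559354979804290763325454
  (q
  1382326422346352572746220232950675455799157249102249638825419824618487201709548250501488375299425516596369634062897936307409222124781707523896410125900237303219093518
  (r
  162635107136116130398000025151512366716331565526647113338977109612519384166634180131417576285448525198968126647597760638897062889746469920511309577006462566512330664424947233048166679882710005807097142278527056632013687923060480651658756218927332607072082390548390481661282259592751082786431701731416244743000074545113509079038358551855818684062627578283422854135049748890013407650569)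
  (r
  1234164700848169862262935695666680618598491027725311233462666619754830876174214345217450571273574180683440983497205889472550906841683414812609697789986893580377598894831344709547279983208229818249475892147071647053474175385591531866697183274101135821531353570748867240293224057232796569941626187042717089979751367657855044286968242492971186372295059258728838657818934700048407449186004074039598202818333496931844257747509492686562659491220472081862610677457593049897))
  (r
  3702258718891224370408625899078812808008218155669123628349572271258411331724468957282330247999028900399800801056292051370445393353197760923805270260094602560835510129168047115064270487240692974821482713190293222032199756343192792098111168465308709265984738325188480448663786357953422870053431464006166497220384678262911863225687391082623418136107085825240473976443814863002591379424664158289050588847381992636929245896217218511564879802915704811433572668793130590505))))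
  (i 21775413351585892568402080966324959445034 (i 2659429586840050809170424367564324873 (i
  21786047175393715570356494587621296701482 (n
  14474461082494521333600089633952787450911497271551692633357633318087036907140) (r
  2883280257062328447346714523317604066716838968323113976648490887923672000066737406520645031924235824504537175487184149350125165315154141397917316094489187099211123391734897076276220989182965100419430596704451709847813524501243585530797704400189070445187656037606367395495238987498221675970574759023661346514519831784105510151612875566997335154220293128899687980895052855315449966584804467069161027945864539505972478443232301852775464097950132453440329269860813221050513155994678346453661420695374180835405632101089622639765927587959559424350536347102427088027699947766979250830641909032276911642405650603695514683607169707800133514321628043473110568681433723938633736880782563266429382954599478801406374590299328036642828064944649462423178667800132639998621578662594784412360892177728896353792434945))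
  (q
  72236128582876456400865612722147599509859341801408459611681878450543975249196706410010183119647081510856989651513434850473332036807701171981710441816697603742627270606115940205592707086
  (i 21775413351585892568402080966324959445002 (r
  53187132994808259843451769783120262822254776624464111284000525387017188372909840046168649660692312567107461454368726123395056280819495651278464387770152615331030700425545545738902814553862958524711125207048256694550114382690985601069313026272575906216256510156769686546649292935710607462411341932570954041028383491157070774519597391363591260214832019961290247237813060259099188399044616346877863321017345780398233932325845722102052140707769841991563332681676023073446770135051415327065500490726679237698452635512146667292091743577319501180414331353680537619163777650151929485053282126208576045457021862398833501941850417373461903453256711104932000727622433156417126349116274473351948349848222504183680037412262562592011201071634215453402876314780890283422139949251769786645710498365095217325204590787963488955579769601)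
  (q
  21092627294103292710783002845346558562679717485985772600581717058626060077633403475575598333096316622413494748465695190888713780659091246567632885552373001486350
  (r
  3000088199089500488832243769120402224373184105296066383668846603547006220151288199740439430061013586793302159189644549587534244715203827069945960635381892849783742209320285770398525596270410346765210162060515398437706911860565997081125748588388918853787671188597092964716423075703374661531051930930306658324100793312931978409572274380082494726009837703689233380664520281781622588269005584913504036725513)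
  (r
  66904202501013561563574532762946784755455566740814773697193609794941044326562262905876061669088257054717741390968960195284437424270341813774396831764297325561923507746367204470097570922796415966556409561568069249469841961808174177000991303206417504503729890837704983101986851375865400335504821376283359514588682730236740037747682054531432286659493998060218340362471744530216092527504538261094221209473152176836390455031850849382317054700768469801)))
  (q
  72236128583865778006758030858389609593937930561548985096812156022066305442702936477669940132732719283988390926310008863473688249547465045379817216347997762646300557577354536974511374350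
  (r
  1259813359817987927274638642262579357670987774933621228413016009873300087027545459251022854867711179499751825985174318312094455637265041965406934229918942043624044937416160375645463695753499235685216339825387424143122987611926244028050035993311296163457009314199621706417282093209214444482599067287299039697519865765867817464759166011665334149914190266087122877006119946030464556357495638914753038604501620637044889670196485713339298548578979785608614283188422223521934796267687567613085912553492268196137)
  (r
  160073314186929428789560179394106839301228524532731825705157334320181752665114235415544164269796171919719956362564677918337394886923518653901951358642006425335029589311901382373533795327774723664616607184122221558849907240593992992613635017568438757240842834739415601177656479368834704393995275638138570755932066412966182126239442349150255007232968641300266254858923499611912790552196364668981499855341681724417597964114310676499965717101723197621582396511232265))))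
  (q
  21092627294103255249800381609310398888947586776830838143471215738476278114845860319281803650323075227771721675564781780988449683409975956003967745502651829321742
  (i 324637400738492057784811763400744 (i 324478944413462952789627040301096 (i
  39609241422143334527900188679 (n 3289692138933859499362486050243098698900337010001387298892931)
  (q
  21092627294103305197777186665541002715350727779368268685710432896192309350032760041608977499882182319293254325565509755290773783278507976892400818013536461651982
  (r
  3000088199438732742569216873102397978245161593116660175585417633900372215865201872461024051179445107789638599231142361014788586030693942034739285727275037685052682510703359133069734497086769600477311067588884433101375542227623468727138080244598125510160766666418550993533250850925292434910586845449652146036869141326570333139012683204662920029867768146990223487095775400788255179510115988857585813168905)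
  (r
  80882217853616225924200188784515957198927425053058233713487290444533006692040186894575540585373136190598036755382538081688965335468887043901483049301581667083021499817800961310760030833503799045912222033509935664798120883304843278474438827604951632875945243589404459100018318519035426313175826780556605177490600016423783421314439867879966558625785164184807240105462842703462523023477633728622983377233667427201472586730401032933403473701493000715183511334672391702061865)))
  (q
  21092627294103292710782985401483351758749942528733911050150628606763301541236035111027184037492405546412674979692315603549137721855922252431657223617515433885710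
  (r
  3000088199089500489482739531287075072596965511149640229376148617312185636099955042285786253343136892981136154333729717976197083013339664874731343723399436523417856223236810448888002091749182388556581963682976511416897183864339758048702211912921644050717277076370670426765992842774178026192596366417931355817616045018587553193175061335641889472015981848760655100436374478513462711538555949129655979877129)
  (r
  287351361706814653752459201768111749961522650892047655339377012295303213957426593012866619572657050451736672553502160215113187240568751371267647010180297971613720982935600466369319102405152263965078792482658183879994271465660525731989787448792410312448506713855145659536313954210387344475766885110720921826108674286589646143419257589885918324709963662778674291132638402600195240432151279830432543328223026273206802813549563961551973773992639506762694927145)))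
  (q
  21092627294103280223788784137425700802149157278099553414590824317334293732439310180445390575102628773532095633819121451807501660433336527970913629221494406119438
  (r
  196613780192642219140465438849220750013154553310912202877624621513048002155951437388876903580095524252721722781618475823110919290616898369272112855090714074269812649870639875011790090168670301496007253018349967096703800148037209120457775092940482975581718936685069413161233081892840154867101983789495839174367095237461023603326187399655660688590900709571479930496609744112865510984020040964511644003330171657)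
  (r
  1234164700848169862196037107651003337324242831595954488540683322626394712499690281123764599546221362048539319137529174188251932799848320959944765256893180925146749764679637054452617871817849419611462957030561707063357379667885414395647021569393665835305676203304222646988565814250566387113549106724447790806887260127246000654272860714643752647149710704981787014975055962461835537070555486113907381459917744479124221882904067480102317124951557833059821266253600006953)))
  (r
  1259813359817986435363508405930901469473062849048298625595133967085175972857461007210381067884474465787914285388489519439777271087699597961075186276283104021697812536832478918807207431236398833022419187191344719935814587608379729668474929071806586850125786563300040837739507353070166816831034289830751883519457008477227050130644767205110101659030063091606794506314810713302008265861013532233717149386597593140460774234922789436375191663504656044176297628676979321972004210542920048766713539758829911417129)))))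
  (i 178384191492454577952695305134440839966228523 (i
  178471293144562371920014945803486890385604651 (n
  10415331836637539270078576583547207937469524869219194717367233971613545435078706615314262417398435973)
  (i 21786047175393715570356638667620705239082 (q
  186814206630219290052810177227185475849743433053154392082288650628281776987701938436929756320599782522675602865058120741868838072579011673414488840934396011570225511006222
  (r
  5686420813354112121307718431166192713553926084178924316684924128387480980538891021248178222301927807990061528865702973382612793687848616575544568788356171240169546354072858593811124819463129651409779858166205784537750982870590163099208549011148399804828962936621840178584950246687561429396366500135547198660554965491010861313044089259863425907797907470398395439068968462957005717369456632314494645072467126292830517543562530274717479876565934046337957540201222972508934339001972477287897429818600821962917698527440306796719674434152889195310388052578120304099547609328870592318080183255021877648416626489583140944505738964885031402395627299807267966855661232193477636199185460609905508926223962021551488058081771815696517864598983897285810559526330544961650579969680155441346412916412549127066318738452568431220514753662965045529898284423795572262970307166451751077536385)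
  (q
  1382326422346351754398568258909393242707368187078064531576417002922509665562821925125488663154504933845529563597910644198329307351314379879985180696425826004907458574
  (q
  1382326422346352572746220232944860834730222605843930554871569680922336580790036118045366859161326981959344300456308345180880108932762106467565031467346259017363226638
  (r
  45778760674246006814934601270522221104266906256077420040157896648968209130530348233066731082921228065527992600177755822848308482340523024773337050348674584616161419627735417789017190460831884718707697803780538957028957884984561099555744790162427362528718969947186653123710297812116156190249909315076450528076592736800941934848427497919369383347522796491577481695927366447123090644184855380620485385)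
  (r
  18832289829497152635201563274800258057381915596466562541296004561016599164058330025585142122577241340211659493207431762658349353058971458262952634446242328022693329156431142954096681320503617563443089438899202326065182955271664002349420863137036573692769236229612971851766243203407469748673371067146250844953670856016135336764702725050568917723244159629395273794911809407825622740574373374360465411156559355335237490052469426811724075198487654044013192454349609))
  (r
  5410857179482135456312642927014968190172027452594008665484448810759026392126771951031923235670902749938256139580569880322882305638998872022337759224884640034046160767614448361919706172426160397210708821234860284742699231163520268020200374547643367340366262954579457935843325810038990641668824260661236428377081747744931312646028224846714333624724704095665936210515664509937058281443767297173008658080195252786577828514885392439215648164892649326934814827273906178455277692505129684685475241842223844743750892134697)))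
  (r
  58629217592401497882729367495442876910033757216845787209039941887129468319038365425924193924668798006446217925271359705323000875433248529148576063527405865965480427156605831960777534749296314111522956296822001330494962039908825995845569478721671636338564582285901779188507615191539794041152081944682921415116430229430461763543040398943554150823321971390155277441371581833182681539336234180601871347430043953628050916623075024597459903339005353915270430561517390300856800031998182468840826455361543211009525629432242431058974810390189847423176655379677753259382614522084208388380635183433192623261596217863142316631241100801994834876858089698174899264389143872698033166273081178863707242584079551099424769777948457916815860615023070284200527596634832625953)))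
  (i 178384186175542674041194327927630191797600299 (r
  671315998086316615190988974674596379960492769283608271249197191491597296373333531408232015860637488411236614576264910777900862977413958679619165964118115358475724705526889800743001726370019071130152796973521343809712265322044260099191373463288758342463798942772663853635969756100078384112288690749722799274368531668137620487560809585637839178357749360109928312906193673359734022298852256571737528088767860782547049594615174994757810994644034660426763927494183889075228708165063662620101358776255184825371249944265748053403063529098820799346127826314214853555003372190882061294465220215170689062062681254001397864324071067017258715264769368628739257518731396546299577680169865341696120195763044582804778795319761046281541345561512962527419608143079871158175920511614650352545182072172716801)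
  (q
  186814206630219290052810176446748299747893722004554140606145033256115847624021441359270312490308407870848234066069023261902671423708973916852024409278599250216079543107598
  (r
  301839379688583993513522756006200293051120214932465212056527438678559924369923002935253968650528186668431297578610581091253877089567141845854742277002906095499085045807531590385947294885449732484174413591642193040184117250431873353283827151198935402204976154356546172781259156435938581359820801287910612705907231381433084702019102991873594622244489431976483584898231787726986360455753110104207934586530132720899297549741256925947930084279196057946195677819985164029165337777995768769096363127878772843361359852653676455249036981891623354970042143485271988447682620918724512787219031650560266000014939420512307554770371192653355687654027882651562838069959445958210924674109895405078541312713525977973038776794924955591620596262881907639440286538679247951381373830172610304177852896462641475518958054544301507460720377480745451747340180516300270868882049)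
  (q
  21092627294103255249800183909266115914085223436261601860130450226536137150745489884353081863016376265386356971536266818293949622503215570354334738389536019185678
  (q
  21092627294103267736794385173323766870686008686895959495690254515965144959542214814934875325406153038266151583917412337371365538103990417860537027712357568217102
  (r
  698523123809706426201149956795776395672793805272107923361259544273167790852267854713528361564409131426960184170767377271280487140759458280118894433232768933828632090743268128853533112770704227321613713275753239292601577581043242926797665997327001207803590677304884832510154326526511410183323967798058248108817639400262993412782315068396178967873276234465489754415244964897700613810482208580361)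
  (r
  1020892689161382948135456631440106024502295205667102574336266546887597363008310999082396454460476942500379753990870300442390703172374438162249846015428480642897601077861178664984551247929050247148554662107706245449607205940858473947654316052405692197321299607551843790944086745579708522621687858976117958410961040098303821726416817569929979953661675738572966581452200499017607786876277545488759793178706723826417257642931668436613418413466409))
  (r
  4475756156160977764683325140747532591493974681811702345140467567877266123081842178558470272946684311896287455539113127743343009548860880656004383211447660610766137649063624896823145498450863616843051923975418613066416437787205392462105097979987231095894673060168635855397941219234738593706561488099530364864197551988763877923074432644101127657893589304759082477613827725159530534636025577852451643403734663493470373120429406552395374194583481506512689163941919534948811322633611021073522985))))))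

noncomputable def t1 : Tre := Helper55.PC.toT t1n

theorem ok1 : chk K t1 l3 = true :=
  Helper55.PC.chkN_sound K t1n l3 (by decide +kernel)

open Helper55.PC in
noncomputable def t2n : Helper55.PC.Ten :=
  (i 21770096439602752904910321658084429266986 (i 21791364087376855233848253895861826879530 (n
  41728673997642957695263975522728790585762417605419815586571273921647072450850948) (r
  524072740792712420896364057368245498403056772003750465538910526804915710266388942343645817241161471194812733302315007505349067547508093894090832572343074296844718823299314423525542539362532546605962396146833138281938961824374884987799721669617531965161097036294878794691925914146545816511069643955557363494687345298805434876766353487531184536319912143209152388671456867017690340707880677942361900929924976494802831233049855958884176538911905908852556689289087314737821957993146043509751392232299490828939658904953627357362337526099398619314484643630769980315324945967185266080966453252488630237381241460606810495914538808357437279438833673534390210102645867599531986947300087513506318510442325467449832271358210631087518362796313227042000545721370191725918728506761989413407328484080805412314571941619818188615847143004115730582169933186951581263579354535026977))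
  (q
  321847950654651340878475579327372552910527053491527730815058031142435995540894274945182282767719388288834614236557352032436419030439383850136269508462116878
  (q
  321847950654651531414886209800375480938545317619229551649648431563113758858290143792871153262596256092219825806273252084396857266746046358203048520346370062
  (r
  6444360695554118594493699865951698810112982492195995913729847027964968349125686285734213701495338217315631968570829490168306127473087131387006735601829619571548781904102679229246574681307141072342409457920900568225257788547498227792119709745482836091737988055079307156916376252823514375901744711192140926790314645725176947840233753158788389047716144987911541998094490792909748567202416452145044189378061395043081)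
  (r
  7790754035765064576488771243360609664029762645280465493950923542336156212073533856683969026664662972620021016114733102276090515285851507598898887236216314503934929726250371935795787633840175455192368598085735249403477034946703241967522176894804531371459946080868788801178395040915851157554865953487885396267251746322862231073066622378336302028098973011339717951653838981434859646277406989532506031011235810416032642509685355747465241385))
  (r
  242631227401254849341651693908560898608988781976992438905008644152672567095833554297502659976051623173102731818584580368819430120226861947621850561386211230252183167400508410688383233174449611592917929545184269719089179664751912645987921309942073629053202380677505444075450630739773187571647026784825344867992399394661169227645973372326391331140366036800910020217473018954273484844313527527027499249264202025191581413903686098264724072466895056375201228740318360357839145)))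

noncomputable def t2 : Tre := Helper55.PC.toT t2n

theorem ok2 : chk K t2 l4 = true :=
  Helper55.PC.chkN_sound K t2n l4 (by decide +kernel)

noncomputable def t3 : Tre :=
  (.N [0,0,0,1,-1] 0 ⟨0,[(1,0)]⟩ ⟨0,[(0,0)]⟩ (.x 0 ⟨3,[(2,0),(1,0),(41,0),(8,0),(3,1),(15,0)]⟩ ⟨59,
  [(7,8),(7,59),(14,27),(12,8),(12,23),(0,19),(2,29),(3,31),(3,19)]⟩))

theorem ok3 : chk K t3 l6 = true := by decide +kernel

open Helper55.PC in
noncomputable def t4n : Helper55.PC.Ten :=
  (r
  304420302323381147538531895964997818078083442973074102666496960377853238170814478819510830423546036051810360209810515173076855551100735070403400130621818015207916561966750764332568354006422132389359704835453580387956748486102239764412653711532477196011735933856746623011592736682886854903249813699477527305763994263578660549810465926631923678031823088823601511579985915279893128075233578329009546919580885136495117728786177275030790008418804882627375191210792076103693171065549841893421687609013187312712013329034807777904012455389849382360591571588196375286473443039117352310633542241017195829371551083784826415928336829482463734398205930067752474369173729107909540003878366950968538568530310423181221571541492975775492858887545928403799448557512368169110055169758226714707671184692207905)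

noncomputable def t4 : Tre := Helper55.PC.toT t4n

theorem ok4 : chk K t4 l7 = true :=
  Helper55.PC.chkN_sound K t4n l7 (by decide +kernel)

noncomputable def t5 : Tre :=
  (.N [0,0,1,-2] 0 ⟨0,[(1,0)]⟩ ⟨0,[(2,0),(16,0)]⟩ (.x (-1) ⟨4,[(18,8),(4,0),(9,7),(7,1),(16,3),(0,
  1),(3,3),(7,0)]⟩ ⟨0,[(0,0)]⟩))

theorem ok5 : chk K t5 l9 = true := by decide +kernel

noncomputable def t6 : Tre :=
  (.N [0,-1,1,2,1] (-1) ⟨0,[(3,0),(16,0),(48,0)]⟩ ⟨0,[(0,0)]⟩ (.x 0 ⟨3,[(6,3),(4,0),(35,0),(2,1),(8,
  3),(12,3),(0,1),(5,1)]⟩ ⟨58,[(1,30),(5,0),(10,0),(5,55),(5,47),(5,28),(0,0),(1,2),(2,54),(17,20),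
  (0,41),(14,8),(1,18)]⟩))

theorem ok6 : chk K t6 l10 = true := by decide +kernel

noncomputable def t7 : Tre :=
  (.N [0,3,1,0,1] 1 ⟨0,[(0,0)]⟩ ⟨0,[(1,0)]⟩ (.x (-2) ⟨3,[(13,0),(35,0),(2,5),(0,3),(7,3),(13,1),(5,
  1)]⟩ ⟨2,[(45,1),(16,2),(0,3),(10,0)]⟩))

theorem ok7 : chk K t7 l12 = true := by decide +kernel

noncomputable def t8 : Tre :=
  (.N [0,1,1,1,1] 0 ⟨0,[(0,0)]⟩ ⟨0,[(1,0)]⟩ (.x (-1) ⟨3,[(10,1),(4,0),(35,0),(2,1),(8,5),(13,1),(5,
  3)]⟩ ⟨7,[(5,3),(21,0),(6,5),(5,3),(23,2),(0,5),(14,0),(1,1)]⟩))

theorem ok8 : chk K t8 l14 = true := by decide +kernel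

noncomputable def t9 : Tre :=
  (.N [0,0,1,-2] 0 ⟨0,[(7,0)]⟩ ⟨0,[(8,0),(16,0)]⟩ (.i 0 ⟨0,[(0,0)]⟩ ⟨0,[(24,1),(39,0)]⟩))

theorem ok9 : chk K t9 l15 = true := by decide +kernel

open Helper55.PC in
noncomputable def t10n : Helper55.PC.Ten :=
  (r
  1894640756330039016724154753758371947711782757132907071862216608063442617554855000905677649099158963681252447070237862147525548693843006964109879022054966175459539133727323600631415698068804069612238158114188510424484230587237943971751861808637053344963917315122755829876489900229570624910102763944017455837891734655245996480929367222861369368250499223364355798362063859117909448065925841911526533965688742647975740589019436722257325267094364298)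

noncomputable def t10 : Tre := Helper55.PC.toT t10n

theorem ok10 : chk K t10 r15 = true :=
  Helper55.PC.chkN_sound K t10n r15 (by decide +kernel)

noncomputable def t11 : Tre :=
  (.N [0,-2,0,0,1] (-1) ⟨0,[(1,0)]⟩ ⟨0,[(0,0)]⟩ (.x 0 ⟨4,[(16,1),(23,2),(11,1),(12,1),(0,3),(10,
  3)]⟩ ⟨1,[(29,0),(25,1),(0,0),(11,0)]⟩))

theorem ok11 : chk K t11 l17 = true := by decide +kernel

noncomputable def t12 : Tre :=
  (.N [0,1,0,2,2] 0 ⟨0,[(1,0)]⟩ ⟨0,[(0,0)]⟩ (.x (-1) ⟨3,[(13,3),(4,0),(35,0),(2,1),(5,1),(2,1),(12,
  1),(0,1)]⟩ ⟨0,[(8,0),(28,0),(5,0)]⟩))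

theorem ok12 : chk K t12 l19 = true := by decide +kernel

noncomputable def t13 : Tre :=
  (.N [0,2,0,1,-2] 1 ⟨0,[(1,0)]⟩ ⟨0,[(0,0)]⟩ (.x (-1) ⟨1,[(17,0),(41,2),(0,1),(11,1)]⟩ ⟨19,[(10,9),
  (9,6),(23,27),(11,6),(12,11),(0,23),(10,13)]⟩))

theorem ok13 : chk K t13 l21 = true := by decide +kernel

noncomputable def t14 : Tre :=
  (.N [0,0,1,-2] 0 ⟨0,[(12,0)]⟩ ⟨0,[(13,0),(16,0)]⟩ (.i 1 ⟨1,[(22,2),(48,1),(1,0)]⟩ ⟨0,[(0,0)]⟩))

theorem ok14 : chk K t14 l22 = true := by decide +kernel

noncomputable def t15 : Tre :=
  (.N [0,0,1,-2] 0 ⟨0,[(13,0)]⟩ ⟨0,[(14,0),(16,0)]⟩ (.i 0 ⟨0,[(0,0)]⟩ ⟨0,[(30,1),(39,0)]⟩))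

theorem ok15 : chk K t15 l23 = true := by decide +kernel

open Helper55.PC in
noncomputable def t16n : Helper55.PC.Ten :=
  (r
  2769029309196991019001506947803991191813024890542038489563517400286252213840536659127050480942122220587652066118248245435379085114316623270622083352871240157155109661716778440588750868913396345580994719809623445297029994243948884922735721159656003846277298524734867308640874862807409135461378997591891317307077151061925126433161108811038370542691696977682016082789888639202356474126628884326914371740351797283237185111166750360668199183712844470665756053585210255347793037325351581091898351754)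

noncomputable def t16 : Tre := Helper55.PC.toT t16n

theorem ok16 : chk K t16 r23 = true :=
  Helper55.PC.chkN_sound K t16n r23 (by decide +kernel)

noncomputable def t17 : Tre :=
  (.N [0,0,1,-2] 0 ⟨0,[(11,0)]⟩ ⟨0,[(12,0),(16,0)]⟩ (.i 0 ⟨0,[(0,0)]⟩ ⟨0,[(28,1),(39,0)]⟩))

theorem ok17 : chk K t17 l24 = true := by decide +kernel

open Helper81.PXd in
noncomputable def t18n : Helper81.PXd.Ten :=
  (i 178645523033337875552971685361817790573576235 (r
  12701338892956998839366236757099530881046568270949122674032281538327451374309592759434623968081380140391901068194736123686301610549745643432128412431117992885653232587289768057119256776564201860422638100094255251547497189153928534430510470509053628857699268564698470447184553291221071426137591137526291015562160176767580960836167039210518993594015023708304685324996972896845408406482386926416350303231600254164473638495669619859468817292558762746760897211861597539279363961970146696538995387465756209559447571963671689088836435714042278244192409706382303033129294695683539622629329670228658828894346)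
  (r
  2049876925492420049591105719249382544065130752631547374973430226456139450246138569096870517452252931970998772911887604927997169976528594295893738366931386705535281129410368645877859597683308797946630381880074197977721519858438470193093441974358393807213085783187297890069821914717859555392531085788334420131528186157429935534735311802004567230570314267762931715640979694928306633891242330791368306759589148182891969100126552062178197098242874085676952330442638407527946538717725333974452450856473686232831095506548322079383500609803050438455817429074136402905069186484281958077063329044320437805157021271167105021370314547839392441199087997061430403203164797602689348507753622121697170539319980262075454625460087709834))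

noncomputable def t18 : Tre := Helper81.PXd.toT t18n

theorem ok18 : chk K t18 r24 = true :=
  Helper81.PXd.chkN_sound K t18n r24 (by decide +kernel)

noncomputable def t19 : Tre :=
  (.N [0,0,1,-2] 0 ⟨0,[(9,0)]⟩ ⟨0,[(10,0),(16,0)]⟩ (.i 1 ⟨1,[(19,2),(48,1),(1,0)]⟩ ⟨0,[(0,0)]⟩))

theorem ok19 : chk K t19 l25 = true := by decide +kernel

open Helper55.PC in
noncomputable def t20n : Helper55.PC.Ten :=
  (r
  26759876201383132449898879509665574996582330573422742676876707854024934301384491207650704888524037920862058168695927748773834742980739243956982554402020701454482841136100677668247160071545455697327344600282105937189914634965000154210891922042035387766150824547722037789145154925892447746718144468706469239254673330977534854448749789919550822008018871246964770879967227100119922127865966995430440678937420394455311308334932035637980352196839368565545)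

noncomputable def t20 : Tre := Helper55.PC.toT t20n

theorem ok20 : chk K t20 r25 = true :=
  Helper55.PC.chkN_sound K t20n r25 (by decide +kernel)

noncomputable def t21 : Tre :=
  (.N [0,-1,1,1,2] (-1) ⟨0,[(1,0)]⟩ ⟨0,[(0,0)]⟩ (.x 0 ⟨3,[(12,1),(4,0),(35,0),(8,3),(15,5)]⟩ ⟨0,
  [(30,0),(5,0),(5,0),(5,0)]⟩))

theorem ok21 : chk K t21 l27 = true := by decide +kernel

noncomputable def t22 : Tre :=
  (.N [0,0,1,-2] 0 ⟨0,[(9,0)]⟩ ⟨0,[(10,0),(16,0)]⟩ (.i 0 ⟨0,[(0,0)]⟩ ⟨0,[(26,1),(39,0)]⟩))

theorem ok22 : chk K t22 l28 = true := by decide +kernel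

open Helper55.PC in
noncomputable def t23n : Helper55.PC.Ten :=
  (r
  1199954349648652889074135844301020927296730997474346202943312122152031398742636852337895332289509669371343051115439709325632633512315588497743280992960701917720754776673077390481035251142549617669111925103115091983667930416341213629657663294686486568824803196588967745877359613062434117794895875413810896667164429782611309105495031091526573450871171267281452222327686947674245012343516724670232836480181033)

noncomputable def t23 : Tre := Helper55.PC.toT t23n

theorem ok23 : chk K t23 r28 = true :=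
  Helper55.PC.chkN_sound K t23n r28 (by decide +kernel)

noncomputable def t24 : Tre :=
  (.N [0,0,1,-2] 0 ⟨0,[(8,0)]⟩ ⟨0,[(9,0),(16,0)]⟩ (.i 0 ⟨0,[(0,0)]⟩ ⟨0,[(25,1),(39,0)]⟩))

theorem ok24 : chk K t24 l29 = true := by decide +kernel

noncomputable def t25 : Tre :=
  (.N [0,0,1,-2] 0 ⟨0,[(9,0)]⟩ ⟨0,[(10,0),(16,0)]⟩ (.i 1 ⟨1,[(19,2),(48,1),(1,0)]⟩ ⟨0,[(0,0)]⟩))

theorem ok25 : chk K t25 l30 = true := by decide +kernel

open Helper55.PC in
noncomputable def t26n : Helper55.PC.Ten :=
  (r
  42251945212084023029929834911698380989853545953471756709597148706811370246947541186572836400374103971252172484570399926464343969716155099967219829855141022198198311438172463436066276806892402924508981171637306358895548270023486882046958406400955933635307696788945231317636053277403789983287527058491841289254263529669603825060560089144222098440653737678556722981383344058735058980235801951095312484799653599268830344631228697389392181051564934534484079129596520463752576096644621910433930)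

noncomputable def t26 : Tre := Helper55.PC.toT t26n

theorem ok26 : chk K t26 r30 = true :=
  Helper55.PC.chkN_sound K t26n r30 (by decide +kernel)

noncomputable def t27 : Tre :=
  (.N [0,2,0,1,-2] 1 ⟨0,[(0,0)]⟩ ⟨0,[(1,0)]⟩ (.x (-1) ⟨1,[(11,0),(41,2),(0,1),(11,1)]⟩ ⟨19,[(4,9),
  (9,6),(23,27),(11,6),(12,11),(0,23),(10,13)]⟩))

theorem ok27 : chk K t27 l32 = true := by decide +kernel

noncomputable def t28 : Tre :=
  (.N [0,4,0,0,7] 1 ⟨0,[(1,0)]⟩ ⟨0,[(0,0)]⟩ (.x (-2) ⟨0,[(40,2),(20,1)]⟩ ⟨5,[(16,0),(12,0),(11,7),
  (6,7),(3,0),(3,6),(11,0)]⟩))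

theorem ok28 : chk K t28 l34 = true := by decide +kernel

noncomputable def t29 : Tre :=
  (.N [0,0,1,-2] 0 ⟨0,[(8,0)]⟩ ⟨0,[(9,0),(16,0)]⟩ (.i 0 ⟨0,[(0,0)]⟩ ⟨0,[(25,1),(39,0)]⟩))

theorem ok29 : chk K t29 l35 = true := by decide +kernel

noncomputable def t30 : Tre :=
  (.N [0,0,1,-2] 0 ⟨0,[(9,0)]⟩ ⟨0,[(10,0),(16,0)]⟩ (.i 1 ⟨1,[(19,2),(48,1),(1,0)]⟩ ⟨0,[(0,0)]⟩))

theorem ok30 : chk K t30 l36 = true := by decide +kernel

open Helper55.PC in
noncomputable def t31n : Helper55.PC.Ten :=
  (r
  533294523957651168590582754864441367940819669948357809961517503854495273697803483182295185180550102018576732190358298571779747732284863012000618400196190360087431868666632298240276305726780462068351839751772027043690829426452960046201520769740051920789834669774808502306869571309196730004029204933821264041163789124306458122190046911121674552309302539827409036229451441369111193546720445038823670958048995362406877951199659846079112612631098563901935468699786)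

noncomputable def t31 : Tre := Helper55.PC.toT t31n

theorem ok31 : chk K t31 r36 = true :=
  Helper55.PC.chkN_sound K t31n r36 (by decide +kernel)

noncomputable def t32 : Tre :=
  (.N [0,0,1,-2] 0 ⟨0,[(7,0)]⟩ ⟨0,[(8,0),(16,0)]⟩ (.i 1 ⟨1,[(17,2),(48,1),(1,0)]⟩ ⟨0,[(0,0)]⟩))

theorem ok32 : chk K t32 l37 = true := by decide +kernel

open Helper55.PC in
noncomputable def t33n : Helper55.PC.Ten :=
  (i 178601966890371995429648373267986524833710123 (r
  320630845358120557056533199468446688261310274851706992213208501482557153300039753025964938387158609938236092845202831885303146468714874358055570784474394679401117958492784745306356513844006785194180892037402268923178540068002034601824644041964742087351965576345256142964541527751898250191866410474305370909158874385473049872043133490360519797320583820522514458934589740597687321783799685975110474939545169972033942052095677340294161219076211540773249551246899044000150721584107542505697302140276028847725191757794384521900438497179417979582658434497202678686087121756298)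
  (r
  5981298736347813227856270371856022155611644905867108822700813659708042949539174831923809610325140157635683094287247110481962923469246471530101040528657430862162051054945330997120923448798783961052424168983303200090754386997304325921738468394936557434025069178714741367811415788158937567264267051819056923796143155258982776230809370535048792769192437991172835429519415982816322259904755889846731896033245213689863717977312044420822873678633))

noncomputable def t33 : Tre := Helper55.PC.toT t33n

theorem ok33 : chk K t33 r37 = true :=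
  Helper55.PC.chkN_sound K t33n r37 (by decide +kernel)

noncomputable def t34 : Tre :=
  (.N [0,-1,1,1,2] (-1) ⟨0,[(0,0)]⟩ ⟨0,[(1,0)]⟩ (.x 0 ⟨3,[(10,1),(4,0),(35,0),(8,3),(15,5)]⟩ ⟨0,
  [(28,0),(5,0),(5,0),(5,0)]⟩))

theorem ok34 : chk K t34 l39 = true := by decide +kernel

noncomputable def t35 : Tre :=
  (.N [0,0,1,-2] 0 ⟨0,[(7,0)]⟩ ⟨0,[(8,0),(16,0)]⟩ (.i 1 ⟨1,[(17,2),(48,1),(1,0)]⟩ ⟨0,[(0,0)]⟩))

theorem ok35 : chk K t35 l40 = true := by decide +kernel

noncomputable def t36 : Tre :=
  (.N [0,0,1,-2] 0 ⟨0,[(8,0)]⟩ ⟨0,[(9,0),(16,0)]⟩ (.i 0 ⟨0,[(0,0)]⟩ ⟨0,[(25,1),(39,0)]⟩))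

theorem ok36 : chk K t36 l41 = true := by decide +kernel

open Helper55.PC in
noncomputable def t37n : Helper55.PC.Ten :=
  (r
  4892438436250392292895506223747744667766747197485776831352797363473343201396065595028609792010103826444633939615551593871913787766438256905489048897032385944023520363295794921322348288003462354252436266299076751665689200570505170727890090799968946885677902112296719327130001900143052213289503923236849701562302007066609754113139984506489183515106294447329060822871896382881207312787668041374543329527523575935489064365186272733207509930016132692865582296785009233796799060879751950141355160766257666706998064022489922807956180848924491309580391931724343117286760586)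

noncomputable def t37 : Tre := Helper55.PC.toT t37n

theorem ok37 : chk K t37 r41 = true :=
  Helper55.PC.chkN_sound K t37n r41 (by decide +kernel)

noncomputable def t38 : Tre :=
  (.N [0,-2,0,0,1] (-1) ⟨0,[(1,0)]⟩ ⟨0,[(0,0)]⟩ (.x 0 ⟨4,[(16,1),(23,2),(11,1),(12,1),(0,3),(10,
  3)]⟩ ⟨1,[(29,0),(25,1),(0,0),(11,0)]⟩))

theorem ok38 : chk K t38 l43 = true := by decide +kernel

noncomputable def t39 : Tre :=
  (.N [0,0,1,-2] 0 ⟨0,[(8,0)]⟩ ⟨0,[(9,0),(16,0)]⟩ (.i 0 ⟨0,[(0,0)]⟩ ⟨0,[(25,1),(39,0)]⟩))

theorem ok39 : chk K t39 l44 = true := by decide +kernel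

noncomputable def t40 : Tre :=
  (.N [0,0,1,-2] 0 ⟨0,[(9,0)]⟩ ⟨0,[(10,0),(16,0)]⟩ (.i 1 ⟨1,[(19,2),(48,1),(1,0)]⟩ ⟨0,[(0,0)]⟩))

theorem ok40 : chk K t40 l45 = true := by decide +kernel

open Helper55.PC in
noncomputable def t41n : Helper55.PC.Ten :=
  (r
  8137428649256151864480327680426656615307917327092862090477256833717274073757987719456408465279389984414317812963230874203182185856397445861828881242161544252400852284455645663955273359272989108297748415502905496053868144827757319816808093194070189461236446283908261238884211919650786212392754943986060111155095389170482356227479438874936301918456481410685327241741559435684349080980865142107402390342566701998761464344197537806921808696042047377146405002)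

noncomputable def t41 : Tre := Helper55.PC.toT t41n

theorem ok41 : chk K t41 r45 = true :=
  Helper55.PC.chkN_sound K t41n r45 (by decide +kernel)

noncomputable def t42 : Tre :=
  (.N [0,1,0,2,2] 0 ⟨0,[(0,0)]⟩ ⟨0,[(1,0)]⟩ (.x (-1) ⟨3,[(12,3),(4,0),(35,0),(2,1),(5,1),(2,1),(12,
  1),(0,1)]⟩ ⟨0,[(7,0),(28,0),(5,0)]⟩))

theorem ok42 : chk K t42 l47 = true := by decide +kernel

noncomputable def t43 : Tre :=
  (.N [0,0,1,-2] 0 ⟨0,[(9,0)]⟩ ⟨0,[(10,0),(16,0)]⟩ (.i 0 ⟨0,[(0,0)]⟩ ⟨0,[(26,1),(39,0)]⟩))

theorem ok43 : chk K t43 l48 = true := by decide +kernel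

open Helper55.PC in
noncomputable def t44n : Helper55.PC.Ten :=
  (r
  51079467495831084453706554738731156676049998675389482597762684086434251302882405232884567504817944722405513209149961360158453616003241214788323172491182701408659460038297606945986253341779537527188299200847477123032878756292008472215663136684732264220267966736992167807034083880904628774735071218212372153992309941815274072997609966717194916434317378573303841947524530691065571983112843330025955658404529467451039633030794994281709529885031172076217793097738338238758085890810271621468179811716851336241866367114)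

noncomputable def t44 : Tre := Helper55.PC.toT t44n

theorem ok44 : chk K t44 r48 = true :=
  Helper55.PC.chkN_sound K t44n r48 (by decide +kernel)

noncomputable def t45 : Tre :=
  (.N [0,-1,0,0,6] (-1) ⟨0,[(1,0)]⟩ ⟨0,[(0,0)]⟩ (.x 0 ⟨4,[(18,0),(23,28),(11,0),(12,0),(0,1),(10,
  1)]⟩ ⟨11,[(31,20),(11,1),(6,1),(6,8),(12,20),(0,4)]⟩))

theorem ok45 : chk K t45 l50 = true := by decide +kernel

noncomputable def t46 : Tre :=
  (.N [0,-3,0,0,7] (-2) ⟨0,[(1,0)]⟩ ⟨0,[(0,0)]⟩ (.x 1 ⟨9,[(20,0),(23,63),(11,0),(12,5),(0,11),(10,
  11)]⟩ ⟨1,[(33,4),(25,2),(12,4),(0,0)]⟩))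

theorem ok46 : chk K t46 l52 = true := by decide +kernel

noncomputable def t47 : Tre :=
  (.N [0,0,1,-2] 0 ⟨0,[(12,0)]⟩ ⟨0,[(13,0),(16,0)]⟩ (.i 0 ⟨0,[(0,0)]⟩ ⟨0,[(29,1),(39,0)]⟩))

theorem ok47 : chk K t47 l53 = true := by decide +kernel

noncomputable def t48 : Tre :=
  (.N [0,0,1,-2] 0 ⟨0,[(13,0)]⟩ ⟨0,[(14,0),(16,0)]⟩ (.i 1 ⟨1,[(23,2),(48,1),(1,0)]⟩ ⟨0,[(0,0)]⟩))

theorem ok48 : chk K t48 l54 = true := by decide +kernel

open Helper55.PC in
noncomputable def t49n : Helper55.PC.Ten :=
  (r
  51079574999357647690292367307341600844570672625208520045626013486966784435063277304805270166081732346732929351740476931787670332478520551178186695889822621469477094387372519726713076198435502158604318883958234309734340274696984632542677181905216000790036847007890816770209141949796466473531099066573936059026381164496287616517281519789620510029607055572848376524403656703565310512694050242918817457201040610329196109557166236229991223703676813609520916889853337113434038182180588341656240255389433992502724812938)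

noncomputable def t49 : Tre := Helper55.PC.toT t49n

theorem ok49 : chk K t49 r54 = true :=
  Helper55.PC.chkN_sound K t49n r54 (by decide +kernel)

noncomputable def t50 : Tre :=
  (.N [0,0,1,-2] 0 ⟨0,[(11,0)]⟩ ⟨0,[(12,0),(16,0)]⟩ (.i 0 ⟨0,[(0,0)]⟩ ⟨0,[(28,1),(39,0)]⟩))

theorem ok50 : chk K t50 l55 = true := by decide +kernel

open Helper55.PC in
noncomputable def t51n : Helper55.PC.Ten :=
  (r
  219384873253785613616737933302636214585207986672772097512911771760507041734807448500273957997580427884144218428451406784644034356348842645433827907498301255215976499739213508163911953000690720890789049016120742925608048778281115537003575239216497226261828551478022073375791312561469436121626893547959196748831782222228532067620273853239586564371672870369091093952641860042353865573248341262616683631651375113421581823077663881230707773790681561811790938977946526741695115921269413804917649864096804879661212653671867506826)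

noncomputable def t51 : Tre := Helper55.PC.toT t51n

theorem ok51 : chk K t51 r55 = true :=
  Helper55.PC.chkN_sound K t51n r55 (by decide +kernel)

noncomputable def t52 : Tre :=
  (.N [0,0,1,-2] 0 ⟨0,[(9,0)]⟩ ⟨0,[(10,0),(16,0)]⟩ (.i 1 ⟨1,[(19,2),(48,1),(1,0)]⟩ ⟨0,[(0,0)]⟩))

theorem ok52 : chk K t52 l56 = true := by decide +kernel

open Helper55.PC in
noncomputable def t53n : Helper55.PC.Ten :=
  (r
  95070178223661842941889970538460286052543657646535647558817413178588976453742402853714571251175894796135266693224850976109435625448561144678281901884215719001591857277931350015940744557062995501294453269258945075220318017007480090752332154761539951916921818992551531691610764885909110414376475845471168816772792819275401395228755798748361771585408665899470594418424306310690691916829955955530439106405168024415205913252771455505277737)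

noncomputable def t53 : Tre := Helper55.PC.toT t53n

theorem ok53 : chk K t53 r56 = true :=
  Helper55.PC.chkN_sound K t53n r56 (by decide +kernel)

open Helper55.PC in
noncomputable def t54n : Helper55.PC.Ten :=
  (q
  321847950654651912487707204570090701396355326346871515582793702506510049414690665122209155248704443928397421205427394620576056124505863693237738472854388750
  (r
  68294619082046209943387834372148409413032909737664126573997293298720469902864580720838056045548619003719841784311680868314652754046292035015671961231605954213956082659675632320788448257943949771272488157472196558664579359666165859261227869962401405715093000950775513105277534563307753598928461203106394184440193622580555981870672548761970773823204862151489593437203279335775744065620403381511103363694556794285176945187255776685874779961185524561470403827708779029351019013229867442473)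
  (q
  321847950654652103024117835043093629424373590474573336417384102927187812732086533969898025743581312516516124823775958903316140058740645211575709572916183054
  (r
  6444360695554118594493715852535539888852351377936180521247760420352290218825140896356181167163978100459134304515768410241478704667818421967512319982071054150223112525418476162248106839370999267331312585655729114077065871738341829496678037044055917915716559679433638444158420992580370791349377705063025307738401904914969349317885426304340907227962030228960461457360019611483082817535036106782680033435477900272393)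
  (r
  7790754035765064576488790569954603577306910286471492760407152912056744377884999097522781408107661824718897627140798518462325361739170079925009406900182806229357914452613427197207211903886051882265970762390292067373330585029400229182424833982133737503688367755024152586625762792565079697117908451708767682709817871209890192188489504983330621945143572481453529027391106054229842301057220724756575482941039069732644704711084468390806692649)))

noncomputable def t54 : Tre := Helper55.PC.toT t54n

theorem ok54 : chk K t54 r8 = true :=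
  Helper55.PC.chkN_sound K t54n r8 (by decide +kernel)

noncomputable def t55 : Tre :=
  (.N [0,1,2,1,-1] 0 ⟨0,[(1,0)]⟩ ⟨0,[(0,0)]⟩ (.x (-1) ⟨3,[(5,1),(2,0),(35,0),(2,3),(8,7),(3,3),(9,
  1),(5,5)]⟩ ⟨3,[(1,1),(9,1),(0,0),(2,2),(0,2),(0,1),(3,0),(21,0),(10,0),(2,1),(0,7),(16,2)]⟩))

theorem ok55 : chk K t55 l58 = true := by decide +kernel

noncomputable def t56 : Tre :=
  (.N [0,-2,0,2,-1] (-1) ⟨0,[(1,0)]⟩ ⟨0,[(0,0)]⟩ (.x 1 ⟨1,[(5,1),(36,0),(15,0),(12,0)]⟩ ⟨9,[(18,14),
  (4,4),(9,7),(7,3),(17,3),(3,7),(3,7)]⟩))

theorem ok56 : chk K t56 l60 = true := by decide +kernel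

open Helper55.PC in
noncomputable def t57n : Helper55.PC.Ten :=
  (i 178384186175542674041194327927630191797600299 (n
  37002276876540406566975911481754505225374552054168858285247536430229371234530160160389) (q
  21092627294103317684771196043731812480673077630984797618610274431752265774801440006750910540601557745873960190806968201138659616721617930282886692855291148632078
  (q
  21092627294103330171765397307789463437273862881619155254170078721181273583598164937332704002991334518753754803188113720216075532322392777789088982178112697663502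
  (r
  1241138723599983218500599640689399241303181577670611026332278518819679922551221226167729367752729946368970312013960143220993507551004699638546129770857384965347254089996529644406483558103947256422114621429043658724452049810107606020879279405078932308747190723908586305790826626880115242793360977538471066144391853174197054353608274290498198515175360596698608624478202980341129993)
  (r
  1813926276696162432545986105396085293422555661464930661774404787957949284172193336242787376169030719891879481588379602147764798618572910940999724827826816173742260299711157134010612095053044037608448429342328828532946680748246585522519901655620188562700838094435068192014948526796628070857749828776997954666203527223765848081804058903310879142882002242550729679229388939070365817227722256673748747925904203148104007519417148201))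
  (r
  293323155450166707192858214667089374772378018486089915774111763439003833823611918507729606794703325145570562706269816812896816617076289105857207797140628376194469673332283326266231628044552593876201140524389469186795969905567925891202988849392372285781245109434817511309920284076908879291585661615633616059690455111399911429227964202633675020351901623354505383947265417741781411121546793256216641473215361398259228114721949874500826933438647352682951798281562899716481686942752755819812076396841)))

noncomputable def t57 : Tre := Helper55.PC.toT t57n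

theorem ok57 : chk K t57 l62 = true :=
  Helper55.PC.chkN_sound K t57n l62 (by decide +kernel)

open Helper55.PC in
noncomputable def t58n : Helper55.PC.Ten :=
  (i 21786047175472943732870903005214249713674 (r
  12383594409285173714964597446220613281464436394705620317693062788143622455208226896102918448332510084769043958438922321370321898269365590403169852160448914854022222068051341060732977776334584192853082442099927067403881144254020580963888774597463463154020146301669189854030218132713977219366835342673757113182772902807262991315885271139465221851478855919702343738769617670056885416495422228258316993502937107415507495176581721002057845774471984881812589905339808931365129928355706327464450166980093854374236361389132439385890211504596305461803810457918333617565345583025830548283508473445635952708877747324963964236441138697477384542305802958137850506422895382319182251483620762537368347048083665912714038712696008597051505561727828186684806972321000331312732250685955617875244333445244755379616137587447833345)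
  (q
  21092627294103342658759714865954276260765269948556265716562800914718025376872508775940911021087541553453071053184191525797088995071129863042078332885066609459214
  (q
  21092627294103355145753916130011927217366055199190623352122605204147033185669233706522704483477318326332865665565337044874504910671904710548280622207888158490638
  (r
  349344159336080647070192619596665712114195337827058613982324294700359055810707203266495068990271645515243578725890438942235678640378939674907022862652982669081331180880440294169110985374387708161962484826934374272564376985033640710772722245042272810762658601786812681259117223912048178091750916908389419020576105833070641245594159558170343766792485146131667535505901280750659129877013134058249)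
  (r
  1813898581068221818095863897398568505348142086638410433523762341382605812655487081657570758800335050638820814827515285158341815720956309182498548711139948578011466021262929145395849697535803172995816574739173935625864858955773025100230526277968301201457460049135500305857615353067456783949692457269045084944678771234097485868118279312649082719681959179910906782680978034760300125610243205262415957310778690382125808286238516009))
  (r
  82563128349031901236590295979902524537556586158262584383454103440792194304210380307625999740689079863020017651578841807588251077075155260172941893829199772786270559123262754156599501349148952346610175142271878179096901520494399898997824445420938626847898871542665332009408697744961595470740958593193236590071850505423375390959884447374379289347892941084243559701321098062331825176566231886138068634819405945359408356035696376724910714270837527732055122220533117974035696262145358258221592702879218646730940713)))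

noncomputable def t58 : Tre := Helper55.PC.toT t58n

theorem ok58 : chk K t58 l64 = true :=
  Helper55.PC.chkN_sound K t58n l64 (by decide +kernel)

noncomputable def t59 : Tre :=
  (.N [0,0,1,-2] 0 ⟨0,[(1,0)]⟩ ⟨0,[(5,0),(19,0)]⟩ (.x (-1) ⟨4,[(24,8),(4,0),(9,7),(7,1),(16,3),(0,
  1),(3,3),(7,0)]⟩ ⟨0,[(0,0)]⟩))

theorem ok59 : chk K t59 l66 = true := by decide +kernel

noncomputable def t60 : Tre :=
  (.N [0,0,1,-2] 0 ⟨0,[(3,0)]⟩ ⟨0,[(7,0),(19,0)]⟩ (.i 0 ⟨0,[(0,0)]⟩ ⟨0,[(26,1),(39,0)]⟩))

theorem ok60 : chk K t60 l68 = true := by decide +kernel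

open Helper55.PC in
noncomputable def t61n : Helper55.PC.Ten :=
  (r
  596765180711268781517365233750628504128316331505192560979840780350422019312063365022335141019582374957299138814836161516302976631932927105144439969493945531771856481252271084997421775591627369432120739811639921831232950775768987793464925510130495383299565717589951939027161446076992390179508686668892338251655803201416502340609661861137795185728665527426991151398045441318819326484520619400400452587815090946699296880908071983295533597449254791291996773608102547293637683488322609561041380137)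

noncomputable def t61 : Tre := Helper55.PC.toT t61n

theorem ok61 : chk K t61 r68 = true :=
  Helper55.PC.chkN_sound K t61n r68 (by decide +kernel)

noncomputable def t62 : Tre :=
  (.N [0,1,1,2,1] 0 ⟨0,[(1,0)]⟩ ⟨0,[(0,0)]⟩ (.x (-1) ⟨3,[(14,3),(4,0),(35,0),(2,1),(8,7),(13,1),(5,
  5)]⟩ ⟨48,[(2,1),(0,40),(2,15),(19,2),(5,15),(5,28),(6,2),(5,8),(2,12),(13,34),(0,60),(13,2),(2,
  28)]⟩))

theorem ok62 : chk K t62 l70 = true := by decide +kernel

noncomputable def t63 : Tre :=
  (.N [0,0,1,-2] 0 ⟨0,[(5,0)]⟩ ⟨0,[(9,0),(19,0)]⟩ (.i 0 ⟨0,[(0,0)]⟩ ⟨0,[(28,1),(39,0)]⟩))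

theorem ok63 : chk K t63 l71 = true := by decide +kernel

noncomputable def t64 : Tre :=
  (.N [0,3,2] 1 ⟨0,[(1,0)]⟩ ⟨0,[(0,0)]⟩ (.x (-2) ⟨3,[(2,2),(19,0),(35,0),(2,5),(8,4),(3,5),(9,2),(5,
  4)]⟩ ⟨58,[(1,28),(3,6),(13,1),(1,25),(3,55),(3,55),(1,3),(36,16),(2,36),(0,118),(10,0),(2,12),(2,
  27)]⟩))

theorem ok64 : chk K t64 l73 = true := by decide +kernel

noncomputable def t65 : Tre :=
  (.N [0,0,1,-2] 0 ⟨0,[(8,0)]⟩ ⟨0,[(12,0),(19,0)]⟩ (.i 1 ⟨1,[(24,2),(48,1),(1,0)]⟩ ⟨0,[(0,0)]⟩))

theorem ok65 : chk K t65 l74 = true := by decide +kernel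

open Helper55.PC in
noncomputable def t66n : Helper55.PC.Ten :=
  (r
  26562295540544586085320783283134066232340268374695624026791280927183764740405231560928261676007469984611293268517753554346792949656088047365852527533313539911796857138182628622845732626808664376717145385021572253808352006323396984209513601397834656072715308692245416027197669800787366163926322365730495546340868635062885253691896655513825259296129909166285513607453288426616900491925568433928520518577718064215859670957695785)

noncomputable def t66 : Tre := Helper55.PC.toT t66n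

theorem ok66 : chk K t66 r74 = true :=
  Helper55.PC.chkN_sound K t66n r74 (by decide +kernel)

open Helper55.PC in
noncomputable def t67n : Helper55.PC.Ten :=
  (r
  1624734278586732799324671114158366518125260882362712501726611219963947856854492198888888209241023205258459219262987657733583295699053780011966596582960603539715941460641857071588234709187226428777697527671349752169441858581283839894323842240907517658740983523825477555661761661764164193572987674448558111085207499229987529707892289104539751049105036063210907729528508842797618911598000276465008106793068712513035865382880287138601)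

noncomputable def t67 : Tre := Helper55.PC.toT t67n

theorem ok67 : chk K t67 r72 = true :=
  Helper55.PC.chkN_sound K t67n r72 (by decide +kernel)

noncomputable def t68 : Tre :=
  (.N [0,-1,2,1,1] (-1) ⟨0,[(6,0)]⟩ ⟨0,[(0,0)]⟩ (.x 0 ⟨3,[(14,1),(4,0),(35,0),(2,1),(8,5),(12,3),(0,
  1),(5,3)]⟩ ⟨25,[(2,0),(3,9),(0,1),(24,25),(5,25),(0,0),(4,3),(5,15),(3,9),(13,12),(0,25),(16,
  20)]⟩))

theorem ok68 : chk K t68 l75 = true := by decide +kernel

noncomputable def t69 : Tre :=
  (.N [0,1,1,1,2] 0 ⟨0,[(1,0)]⟩ ⟨0,[(0,0)]⟩ (.x (-1) ⟨3,[(16,1),(4,0),(35,0),(2,3),(8,3),(12,1),(0,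
  3)]⟩ ⟨195,[(4,5),(0,73),(2,47),(19,8),(5,47),(5,184),(5,97),(0,8),(5,26),(2,38),(13,55),(0,84),
  (13,8),(2,86)]⟩))

theorem ok69 : chk K t69 l77 = true := by decide +kernel

noncomputable def t70 : Tre :=
  (.N [0,-1,2,2] (-1) ⟨0,[(1,0)]⟩ ⟨0,[(0,0)]⟩ (.x 0 ⟨3,[(18,3),(4,0),(35,0),(11,9),(12,1),(6,9)]⟩
  ⟨8,[(1,3),(5,4),(1,4),(26,7),(5,7),(0,0),(10,4),(3,2),(10,4),(2,4),(0,14),(16,6)]⟩))

theorem ok70 : chk K t70 l79 = true := by decide +kernel

noncomputable def t71 : Tre :=
  (.N [0,0,1,-2] 0 ⟨0,[(9,0)]⟩ ⟨0,[(13,0),(19,0)]⟩ (.i 0 ⟨0,[(0,0)]⟩ ⟨0,[(32,1),(39,0)]⟩))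

theorem ok71 : chk K t71 l80 = true := by decide +kernel

noncomputable def t72 : Tre :=
  (.N [0,0,1,-2] 0 ⟨0,[(10,0)]⟩ ⟨0,[(14,0),(19,0)]⟩ (.i 1 ⟨1,[(26,2),(48,1),(1,0)]⟩ ⟨0,[(0,0)]⟩))

theorem ok72 : chk K t72 l81 = true := by decide +kernel

open Helper55.PC in
noncomputable def t73n : Helper55.PC.Ten :=
  (r
  6596817039307464327359634354510055981822004687813566740694836989933215968917009485848494755646694418457460170253348759101368662858983558210595586713031838009365963107336426220298716658552912845147231961313636675473649553894811181758456348451315028786072811121916718956371995192953858321408055293916462339523862543899694552669451774064480216012290063822170426591969326303961334584103891260818584631530520826089841449)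

noncomputable def t73 : Tre := Helper55.PC.toT t73n

theorem ok73 : chk K t73 r81 = true :=
  Helper55.PC.chkN_sound K t73n r81 (by decide +kernel)

noncomputable def t74 : Tre :=
  (.N [0,0,1,-2] 0 ⟨0,[(8,0)]⟩ ⟨0,[(12,0),(19,0)]⟩ (.i 1 ⟨1,[(24,2),(48,1),(1,0)]⟩ ⟨0,[(0,0)]⟩))

theorem ok74 : chk K t74 l82 = true := by decide +kernel

noncomputable def t75 : Tre :=
  (.N [0,0,1,-2] 0 ⟨0,[(9,0)]⟩ ⟨0,[(13,0),(19,0)]⟩ (.i 0 ⟨0,[(0,0)]⟩ ⟨0,[(32,1),(39,0)]⟩))

theorem ok75 : chk K t75 l83 = true := by decide +kernel

open Helper55.PC in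
noncomputable def t76n : Helper55.PC.Ten :=
  (r
  6390666703468385601883876471113509821869011635535092084303201543376952515334177428596481444735802567630594774877383561034262270522715250827940701782730876348009700738192537002325017684582967422757553708686615991303041663272332714206902232471412274792547984279735822034688387054123109545253213787442645431464331400918389069468673760577335176287073339078734824481006108346526217813407796797175931917969633251791479593)

noncomputable def t76 : Tre := Helper55.PC.toT t76n

theorem ok76 : chk K t76 r83 = true :=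
  Helper55.PC.chkN_sound K t76n r83 (by decide +kernel)

noncomputable def t77 : Tre :=
  (.N [0,-1,2,2] (-1) ⟨0,[(1,0)]⟩ ⟨0,[(0,0)]⟩ (.x 0 ⟨3,[(17,3),(4,0),(35,0),(11,9),(12,1),(6,9)]⟩
  ⟨8,[(1,3),(4,4),(1,4),(26,7),(5,7),(0,0),(10,4),(3,2),(10,4),(2,4),(0,14),(16,6)]⟩))

theorem ok77 : chk K t77 l85 = true := by decide +kernel

noncomputable def t78 : Tre :=
  (.N [0,0,1,-2] 0 ⟨0,[(8,0)]⟩ ⟨0,[(12,0),(19,0)]⟩ (.i 1 ⟨1,[(24,2),(48,1),(1,0)]⟩ ⟨0,[(0,0)]⟩))

theorem ok78 : chk K t78 l86 = true := by decide +kernel

noncomputable def t79 : Tre :=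
  (.N [0,0,1,-2] 0 ⟨0,[(9,0)]⟩ ⟨0,[(13,0),(19,0)]⟩ (.i 0 ⟨0,[(0,0)]⟩ ⟨0,[(32,1),(39,0)]⟩))

theorem ok79 : chk K t79 l87 = true := by decide +kernel

open Helper55.PC in
noncomputable def t80n : Helper55.PC.Ten :=
  (r
  21012940474062161113865508419464170387714138896566477629836000005357554859386606227173753327848213053849010258793519923729084821622277416446150926895837509574707175014251761999090228798827356431148284760157487944462763970036725476734670446707771989397507980491563675806219072125228115974628042585310253573017837086132257533095629381409043691955875642997661925250974289963236238026872652893028240222360745057743899271090600555089022431221598791888067770182308339798787074551712825009020674706167802389789641395662588258365581343525865602928457805083319310033945938424769568906)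

noncomputable def t80 : Tre := Helper55.PC.toT t80n

theorem ok80 : chk K t80 r87 = true :=
  Helper55.PC.chkN_sound K t80n r87 (by decide +kernel)

noncomputable def t81 : Tre :=
  (.N [0,0,1,-2] 0 ⟨0,[(7,0)]⟩ ⟨0,[(11,0),(19,0)]⟩ (.i 1 ⟨1,[(23,2),(48,1),(1,0)]⟩ ⟨0,[(0,0)]⟩))

theorem ok81 : chk K t81 l88 = true := by decide +kernel

noncomputable def t82 : Tre :=
  (.N [0,0,1,-2] 0 ⟨0,[(8,0)]⟩ ⟨0,[(12,0),(19,0)]⟩ (.i 0 ⟨0,[(0,0)]⟩ ⟨0,[(31,1),(39,0)]⟩))

theorem ok82 : chk K t82 l89 = true := by decide +kernel

open Helper55.PC in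
noncomputable def t83n : Helper55.PC.Ten :=
  (r
  6184516367629306876408118587716963661916018583256617427911566096820689061751345371344468133824910716803729379501418362967155878186446943445285816852429914686653438369048647784351318710613022000367875456059595307132433772649854246655348894525678867138192237378646511637817755832309730989887099022733296127273278495819822262848913618986708632793208417845796664815989159682446749664449970424327633623783494464408134441)

noncomputable def t83 : Tre := Helper55.PC.toT t83n

theorem ok83 : chk K t83 r89 = true :=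
  Helper55.PC.chkN_sound K t83n r89 (by decide +kernel)

open Helper55.PC in
noncomputable def t84n : Helper55.PC.Ten :=
  (r
  811571243206913144583919858235514112014053303563427533140332562883780441224526357863000863429919380915424064860253213253325415924981143332662139431187180083873200345451812687756196431549863309662819610925460820289380754669831492794049414732019365521261864308026192026273724375545543211048424921017467346169546204958376787398877857129395992779258518301553612799307232584560457820729379333032125404941742374562654612445559137848636918702525081354259263938703741125837528603133750240486348087941538372368489410933882288339627654970221006348975804032929885653076217997485224739551652718176051627234143164008293033886687350257970031977283679432256847954206821124940811730004966700625357811447405046306956072226780173388711187052878498822174000093613104590132671911794947817516293890385329815757704385341854746017014529)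

noncomputable def t84 : Tre := Helper55.PC.toT t84n

theorem ok84 : chk K t84 r65 = true :=
  Helper55.PC.chkN_sound K t84n r65 (by decide +kernel)

noncomputable def t85 : Tre :=
  (.N [0,0,1,-2] 0 ⟨0,[(1,0)]⟩ ⟨0,[(4,0),(19,0)]⟩ (.i 0 ⟨0,[(0,0)]⟩ ⟨0,[(23,1),(39,0)]⟩))

theorem ok85 : chk K t85 l91 = true := by decide +kernel

open Helper55.PC in
noncomputable def t86n : Helper55.PC.Ten :=
  (r
  245859847287654556741872949004003604059651093513099556018383553963245414620872394035239928783655313913408882392097143756846653942430490821004416384541003271745891618950708587915974757946954237655800529395613047393926959715417123165964195653341192955763537425378263756588253654797462782922648036606270714393092036287761907640122327111528279154098496016303142488281242864951509335111661261594829609)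

noncomputable def t86 : Tre := Helper55.PC.toT t86n

theorem ok86 : chk K t86 r91 = true :=
  Helper55.PC.chkN_sound K t86n r91 (by decide +kernel)

open Helper55.PC in
noncomputable def t87n : Helper55.PC.Ten :=
  (i 21786047175472943732870903005214249713674 (r
  10243469209080758898788284703491311783432115430984596859947937357105820371461467545601012324243179424455073148344723903071540771569016077148513974095556973402504226162792642709143374785009360943082971828948902843107927650512370977787388615339266803711303965863573472402081407599600846911952643347581809514403769455332983374700822610127971752095081794331970725876819419936857988436713317763562023017985664409536063580633736203834885998583575771586805825394813516646328893005632539008756453674574261854486906846641451374546198912279237033289874086805299592427502796538727443686190263108545583669908023075280199952961348136920648975327534134263668894969392322668443346518971888563008858940104542892523205676586916879156858779716050959777694142568957716448099448666945943452341142827574017)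
  (q
  321847950654653055706170543780957210234087378566812977696943555200644569188413850931609479878556407341743448568246467821660766522941931175168551193344606222
  (q
  321847950654653246242581174253960138262105642694514798531533955621322332505809719779298350373433275929862152186595032083133202683074383755574284516008787982
  (r
  1813898581068221818095863897398568505348142025654435111124040352394022160007149809803185553467455890629400980082057267423650262675715881726776554772309319424877925809621904324449852756048786936193573522215309029151666691677633030898992052933471813713887636845628313599013890349436446469459407959452751804613859901976429620963971286198645890099433592585139067542392612943385596303511943328712689511394934392290675898225264960297)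
  (r
  5330568837525644639132577813669825929476857571824014495579899516301865475627246143592759231418939903491875896085974715305109842535079035566818586161086771683980273145758671481025499640062713704803412326512672063505481143376279409034090551916823599839878077242615392696205722188794687907327683663065722684864311987137230262177946583578131285287226414208947842742598083302493259504363512585))
  (r
  1042093186676734200643632782019356164635118403728743857525196133207300740850129878030892479008610585744153631233264492415956866954338414888558646533661336497796817370962330865089045281527127123861229899625495959935818218718407168302513274824346826031222972834124263782851768960590950542185990038507116333935641149777372424027699291369087791745117556044099450459249917665734562630536640231970335530739282117343700948062585047252211488400536051385189531086193151917372878901278417193)))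

noncomputable def t87 : Tre := Helper55.PC.toT t87n

theorem ok87 : chk K t87 r90 = true :=
  Helper55.PC.chkN_sound K t87n r90 (by decide +kernel)

open Helper55.PC in
noncomputable def t88n : Helper55.PC.Ten :=
  (r
  963427030545945927840114082689079539575361056297073683896804303991425440440938257859284542336724345316789233532054111795470222398953198687150991805864163166599215818983528533282321784899636237371414374544287043442783122497143590618107450394338072471933855200063877086879593300927283042313234864030671926767205655128425926596184870457285847822020370230080987646492837988274224198272059141457445387431770216389531659300493216564522870502629273721997961515575526687594483047155368551999834408471242608304976667188827948530878654508245634660023336817585537556149474131160789942696754415018541790800253873733232933428579517077799852631013925913053602171537553066563317928629489991023104037870917025586622349180475695152730229465957399477203716174562713889)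

noncomputable def t88 : Tre := Helper55.PC.toT t88n

theorem ok88 : chk K t88 r61 = true :=
  Helper55.PC.chkN_sound K t88n r61 (by decide +kernel)

open Helper55.PC in
noncomputable def t89n : Helper55.PC.Ten :=
  (r
  320031587647650889981886902322949310525082272990183597785605665683947949686290837982340115639140186643544124960963381831544027131659758474421406073143385597423261653630163546834052290835373961095172966483777142521183474322641777530613747125925433969324563192429410797223608450036710052185492055919576816815436283591232971195993100942314376318889824535324468566747217934506812741568288108777686929210120847513556683388895017470066653110362020456768819018528306494446279780581938391575015578804533262905499023046311037864152319417167538083773358358495488543193173756321719433260729339093553178051437206535228762717086257476620198107580625829628644125378858765419766172458442850326410066616884472119937771476464908079559368207720223257591449023655136255748757988905819264162824629080996176161)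

noncomputable def t89 : Tre := Helper55.PC.toT t89n

theorem ok89 : chk K t89 l92 = true :=
  Helper55.PC.chkN_sound K t89n l92 (by decide +kernel)

noncomputable def t90 : Tre :=
  (.N [0,0,1,-2] 0 ⟨0,[(1,0)]⟩ ⟨0,[(2,0),(18,0)]⟩ (.x (-1) ⟨4,[(20,8),(4,0),(9,7),(7,1),(16,3),(0,
  1),(3,3),(7,0)]⟩ ⟨0,[(0,0)]⟩))

theorem ok90 : chk K t90 l94 = true := by decide +kernel

noncomputable def t91 : Tre :=
  (.N [0,3,0,0,5] 1 ⟨0,[(0,0)]⟩ ⟨0,[(1,0)]⟩ (.x (-2) ⟨3,[(14,0),(23,7),(11,0),(8,5)]⟩ ⟨0,[(39,0),(6,
  0),(7,0)]⟩))

theorem ok91 : chk K t91 l96 = true := by decide +kernel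

noncomputable def t92 : Tre :=
  (.N [0,-1,2,0,2] (-1) ⟨0,[(1,0)]⟩ ⟨0,[(0,0)]⟩ (.x 0 ⟨3,[(16,0),(35,0),(2,1),(5,1),(2,1),(12,5),(0,
  1)]⟩ ⟨104,[(1,61),(1,21),(4,13),(2,6),(17,34),(5,202),(0,99),(4,50),(9,13),(3,20),(12,20),(14,
  51)]⟩))

theorem ok92 : chk K t92 l98 = true := by decide +kernel

noncomputable def t93 : Tre :=
  (.N [0,0,1,-2] 0 ⟨0,[(6,0)]⟩ ⟨0,[(7,0),(18,0)]⟩ (.i 0 ⟨0,[(0,0)]⟩ ⟨0,[(25,1),(39,0)]⟩))

theorem ok93 : chk K t93 l99 = true := by decide +kernel

open Helper55.PC in
noncomputable def t94n : Helper55.PC.Ten :=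
  (r
  25689482460219984294758877435655373978994394194570008188648564038516226526886445119906809536260065517672721308349703024236745716925848873799295153573744811044377476549718445796259562484972701003902458943722824951159018132002480321973762279479430391112651018598329239192268639396578831144202085379880205348699460593745865623556428891246772950880262366292144943002770363991493288084268110074700148160700264360412112378896108686621686697309788088574761)

noncomputable def t94 : Tre := Helper55.PC.toT t94n

theorem ok94 : chk K t94 r99 = true :=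
  Helper55.PC.chkN_sound K t94n r99 (by decide +kernel)

noncomputable def t95 : Tre :=
  (.N [0,3,0,0,4] 1 ⟨0,[(1,0)]⟩ ⟨0,[(0,0)]⟩ (.x (-2) ⟨3,[(17,0),(23,3),(11,0),(8,5)]⟩ ⟨19,[(17,0),
  (24,9),(6,21),(3,0),(3,9),(8,5)]⟩))

theorem ok95 : chk K t95 l101 = true := by decide +kernel

noncomputable def t96 : Tre :=
  (.N [0,0,1,-2] 0 ⟨0,[(7,0)]⟩ ⟨0,[(8,0),(18,0)]⟩ (.i 0 ⟨0,[(0,0)]⟩ ⟨0,[(26,1),(39,0)]⟩))

theorem ok96 : chk K t96 l102 = true := by decide +kernel

open Helper55.PC in
noncomputable def t97n : Helper55.PC.Ten :=
  (r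
  337757122621204938688386116533238684853961207834853756460788364736120328844956625431161367789838970719884042574903061431958360521183758532103682614212683310447597435826643227137838250787539405651995733327991327480255458313227352625757038282025945514604363292492790253712015165070752337322425611703524025458364760129571971728294223200590990256210715321309189561205448150218142402290533053448775878518451287264450029298473)

noncomputable def t97 : Tre := Helper55.PC.toT t97n

theorem ok97 : chk K t97 r102 = true :=
  Helper55.PC.chkN_sound K t97n r102 (by decide +kernel)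

noncomputable def t98 : Tre :=
  (.N [0,0,1,-2] 0 ⟨0,[(6,0)]⟩ ⟨0,[(7,0),(18,0)]⟩ (.i 1 ⟨1,[(18,2),(48,1),(1,0)]⟩ ⟨0,[(0,0)]⟩))

theorem ok98 : chk K t98 l103 = true := by decide +kernel

noncomputable def t99 : Tre :=
  (.N [0,0,1,-2] 0 ⟨0,[(7,0)]⟩ ⟨0,[(8,0),(18,0)]⟩ (.i 0 ⟨0,[(0,0)]⟩ ⟨0,[(26,1),(39,0)]⟩))

theorem ok99 : chk K t99 l104 = true := by decide +kernel

open Helper55.PC in
noncomputable def t100n : Helper55.PC.Ten :=
  (r
  337757122621204938688386116533238684853931430501533321830288884142134525792404163893371967481741104501600503997246332745373343773212610778156344506865524935735349535626488609932588044966324338677424116686744626609903646302043611626003146066930736108297073275952048422041602869078932831036872724857029755532331561747583460288661152721386938270300361246932166364933345358268889219709083715591402262983139789358626649678633)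

noncomputable def t100 : Tre := Helper55.PC.toT t100n

theorem ok100 : chk K t100 r104 = true :=
  Helper55.PC.chkN_sound K t100n r104 (by decide +kernel)

noncomputable def t101 : Tre :=
  (.N [0,0,1,-2] 0 ⟨0,[(3,0)]⟩ ⟨0,[(4,0),(18,0)]⟩ (.i 1 ⟨1,[(15,2),(48,1),(1,0)]⟩ ⟨0,[(0,0)]⟩))

theorem ok101 : chk K t101 l105 = true := by decide +kernel

noncomputable def t102 : Tre :=
  (.N [0,0,1,-2] 0 ⟨0,[(4,0)]⟩ ⟨0,[(5,0),(18,0)]⟩ (.i 0 ⟨0,[(0,0)]⟩ ⟨0,[(23,1),(39,0)]⟩))

theorem ok102 : chk K t102 l106 = true := by decide +kernel

open Helper55.PC in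
noncomputable def t103n : Helper55.PC.Ten :=
  (r
  4535313680916677072602055520544594382290483895441087576639435210253899588424449365307712743940329013623297278866218605206906440764066662200511512437971517226326810139986216809366659801716237567408907112888739870000132195221428759409890447512455906000261684144908908222527482100970143861377629781833524560243995356540362365808576528470272801904467158040182465202290279097938072104851725984726739101825867198515913513)

noncomputable def t103 : Tre := Helper55.PC.toT t103n

theorem ok103 : chk K t103 r106 = true :=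
  Helper55.PC.chkN_sound K t103n r106 (by decide +kernel)

open Helper55.PC in
noncomputable def t104n : Helper55.PC.Ten :=
  (q
  321847950654652293560528288065236133720240841583767372094617483415892751997221591906893736902694482329328445932395196730635223683763715272424037929411805198
  (q
  321847950654652484096938918538239061748259105711469192929207883836570515314617460754582607397571350132713657502111096782595661920070377780490816941296058382
  (r
  6444360695554118594493726510258117150974632220811234638385679648104854216649666783268295856725759416760136321276933631306981233199682435144456639452543251544399012065428670558016825439930924886234121517214646373286759076323247751856983827838423702755863895993553155742170899602669877822241606371281124679895004628965905946359949410206215639779659305145112701969611177297844021811880094857654567706903049083822857)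
  (r
  7790754035765064576488803454350599519491675380605505347722520472170920414789574377920994768962703174712993843782383891818291357809867940954357682393318791654329610301698302245580533753043799193987094375201981825309737337495533457714253754134200757562319946053904951894449807266539075891305276677520730370933433150409735850483117110108107074059762902993622350716153617360836566530491613391814002110531804651463089771339817041799623746345))
  (r
  1042093186676731732483707614881985190997278539947994031752349041663180547882503627158145785763287410984769018534982778010603233439707421119658081679566988486310137693989504108269692218361825384758622266430877617359516600578450880067169222332638726473536027303994110489947697094313499812233759477076256724241927533279345660745789813095024822702123636744795696280755745951733742072524593574931571331409604817681282723911713151440532428215530733142430151826344369000828267254656540969))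

noncomputable def t104 : Tre := Helper55.PC.toT t104n

theorem ok104 : chk K t104 r93 = true :=
  Helper55.PC.chkN_sound K t104n r93 (by decide +kernel)

noncomputable def t105 : Tre :=
  (.N [0,-1,0,0,7] (-1) ⟨0,[(0,0)]⟩ ⟨0,[(1,0)]⟩ (.x 0 ⟨4,[(9,0),(23,33),(11,0),(12,0),(0,1),(10,
  1)]⟩ ⟨2,[(22,5),(11,0),(6,0),(6,2),(12,5),(0,0)]⟩))

theorem ok105 : chk K t105 l108 = true := by decide +kernel

noncomputable def t106 : Tre :=
  (.N [0,0,1,-2] 0 ⟨0,[(1,0)]⟩ ⟨0,[(2,0),(18,0)]⟩ (.x (-1) ⟨4,[(20,8),(4,0),(9,7),(7,1),(16,3),(0,
  1),(3,3),(7,0)]⟩ ⟨0,[(0,0)]⟩))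

theorem ok106 : chk K t106 l111 = true := by decide +kernel

noncomputable def t107 : Tre :=
  (.N [0,-3,0,0,8] (-2) ⟨0,[(1,0)]⟩ ⟨0,[(0,0)]⟩ (.x 1 ⟨9,[(14,0),(23,73),(11,0),(12,5),(0,11),(10,
  11)]⟩ ⟨11,[(27,32),(11,1),(6,1),(6,20),(12,32),(0,4)]⟩))

theorem ok107 : chk K t107 l113 = true := by decide +kernel

noncomputable def t108 : Tre :=
  (.N [0,0,1,-2] 0 ⟨0,[(4,0)]⟩ ⟨0,[(5,0),(18,0)]⟩ (.i 0 ⟨0,[(0,0)]⟩ ⟨0,[(23,1),(39,0)]⟩))

theorem ok108 : chk K t108 l114 = true := by decide +kernel

noncomputable def t109 : Tre :=
  (.N [0,0,1,-2] 0 ⟨0,[(5,0)]⟩ ⟨0,[(6,0),(18,0)]⟩ (.i 1 ⟨1,[(17,2),(48,1),(1,0)]⟩ ⟨0,[(0,0)]⟩))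

theorem ok109 : chk K t109 l115 = true := by decide +kernel

open Helper55.PC in
noncomputable def t110n : Helper55.PC.Ten :=
  (s
  19285021464816869653220948423770593117427978388606154384935964807854894213474508029523727763852341915454884749358347479071172423134698453784433978063585372403496407479857234593252366264005507985172884167173346635252355874550315413596158454586568526909874763817589700891469199693443949338888434870465440274912677542408370169609219464105914716999586694537875082317492956813382234018003069593583930981867651641094596159820748220782698042261401712721545096021260245782456015114041797111564445408850836459770911399597364212007088979755345156935221585793396908396016996471208989880942934639182404969758196417)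

noncomputable def t110 : Tre := Helper55.PC.toT t110n

theorem ok110 : chk K t110 r115 = true :=
  Helper55.PC.chkN_sound K t110n r115 (by decide +kernel)

noncomputable def t111 : Tre :=
  (.N [0,0,1,-2] 0 ⟨0,[(3,0)]⟩ ⟨0,[(4,0),(18,0)]⟩ (.i 1 ⟨1,[(15,2),(48,1),(1,0)]⟩ ⟨0,[(0,0)]⟩))

theorem ok111 : chk K t111 l116 = true := by decide +kernel

noncomputable def t112 : Tre :=
  (.N [0,0,1,-2] 0 ⟨0,[(4,0)]⟩ ⟨0,[(5,0),(18,0)]⟩ (.i 0 ⟨0,[(0,0)]⟩ ⟨0,[(23,1),(39,0)]⟩))

theorem ok112 : chk K t112 l117 = true := by decide +kernel

open Helper55.PC in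
noncomputable def t113n : Helper55.PC.Ten :=
  (r
  23548694977893687984478873287634971943837394943775417669507637886779952698609264151435625616411381939825452370106372316221477828128166716746180881111893148765776572558610907952728126089397179045664810983795444605166763692810322843631789224473026568692934062394027907045626374562548341247697455161413703901693593224574444411587785431716731094417108730385223493058405970509063913125995493209063624432770789666571512358580210776603572991538593542710057)

noncomputable def t113 : Tre := Helper55.PC.toT t113n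

theorem ok113 : chk K t113 r117 = true :=
  Helper55.PC.chkN_sound K t113n r117 (by decide +kernel)

open Helper55.PC in
noncomputable def t114n : Helper55.PC.Ten :=
  (q
  321847950654652293560528288065236133720240841583767372094617483415892751997221591906893736902694482329328445932395196730635223683763715272424037929411805198
  (q
  321847950654652484096938918538239061748259105711469192929207883836570515314617460754582607397571350132713657502111096782595661920070377780490816941296058382
  (r
  6444360695554118594493726510258117150974632220811234638385679648104854216649666783268295856725759416760136321276933631306981233199682435144456639452543251544399012065428670558016825439930924886234121517214646373286759076323247751856983827838423702755863895993553155742170899602669877822241606371281124679895004628965905946359949410206215639779659305145112701969611177297844021811880094857654567706903049083822857)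
  (r
  617247126854255293763466459941780256653632672918750489833044023757095048331637834916414115921936139678233293281851248451107875571687524396109084459930333551899931922149466112115391471200091856940813750282652407879721402143289430444139818578271910507365685380744081132495943412869448437211275758234041780672045267641262525180767413527482382020375690990638503001718727833630163367216905405663071566152612650064221889181578646606732156664052625599128041006624456057641))
  (r
  200699847306263533575195666789446566737781757980642722156960900191252869805605565499037849586826469130221414474547632387335203273801869699361462441088498674151384667920403865556055994932439123111519786632973027967091753812432184517080212605341191387235269120068401908381008007279825530289054260586362413290584716672367457146364621747507302806170744004554279967331545818357691284375891906862497896561726688419895413821276721568975250207143551574313))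

noncomputable def t114 : Tre := Helper55.PC.toT t114n

theorem ok114 : chk K t114 r110 = true :=
  Helper55.PC.chkN_sound K t114n r110 (by decide +kernel)

open Helper55.PC in
noncomputable def t115n : Helper55.PC.Ten :=
  (r
  1374525202633618143697498277847813718970976950202182681524794353664865916068872608678585422218965239193358026240275001620042177714615348846898791606486625059662511113047486890610129404729299118386691511231089759266094591903972957520941491906855000040033413012297770973238227162580490415502470893818813624572482762454853044459112635565505331941933836700272117166676657099849864317815070816494355139222603641325021043318510894948091220905172998628951607613941705873381868886217131380697889058888157062070077185975927985981820564869601481469460720136309845779731055798469131003568864046263231526175634757969159652378748382333206440648616823438843149041939371328503885471636442037297088534162567391992387394089518738810984179240175749469331534467778709263263207335995720092576320158890491580837693481249)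

noncomputable def t115 : Tre := Helper55.PC.toT t115n

theorem ok115 : chk K t115 r109 = true :=
  Helper55.PC.chkN_sound K t115n r109 (by decide +kernel)

open Helper55.PC in
noncomputable def t116n : Helper55.PC.Ten :=
  (r
  264723924706701828339747687242107390062620382360133046025359071218354222923534600124826738832970248180109593832188657198455735530588497162303280110792897238428033830280736208445490222907196814088066757610074516527877338330334856347369906078584866880082735038571704511765089170693686188880620826758087826538330343801379200901992240221411599292572173011273219540537075815951266010546052116006273086137464952677867681485246859570182130807425624164679387909554266074488263234804379321160891432646384355625609082609234665481311265194055909264397250242359430050176372201754290781119641194042007381459592882375087000136961751726733759840784384695205493347047899885159252977358930339181913544717339282225725648280377975734072134956308817590357608748398680016601917029605665)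

noncomputable def t116 : Tre := Helper55.PC.toT t116n

theorem ok116 : chk K t116 l119 = true :=
  Helper55.PC.chkN_sound K t116n l119 (by decide +kernel)

noncomputable def t117 : Tre :=
  (.N [0,-1,2,0,2] (-1) ⟨0,[(0,0)]⟩ ⟨0,[(2,0)]⟩ (.x 0 ⟨3,[(11,0),(35,0),(2,1),(5,1),(2,1),(12,5),(0,
  1)]⟩ ⟨32,[(6,10),(0,2),(16,21),(5,54),(5,13),(2,5),(1,2),(0,21),(7,1),(9,0),(15,17),(1,35)]⟩))

theorem ok117 : chk K t117 l120 = true := by decide +kernel

open Helper55.PC in
noncomputable def t118n : Helper55.PC.Ten :=
  (q
  21092627294103305197777099444539185521676397558485285109595995745189162926217421741163254436848937184144119836382356012345796771601260026902530441740431814426638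
  (q
  21092627294103317684771300708596836478277182809119642745155800034618170735014146671745047899238713957023914448763501531423212687202034874408732731063253363458062
  (r
  1241138723599983218500598614388045759434207926471606046060056911327534577946016551922234377688667232980260622762328425722018676473216712361312921481683590061398534681581182479366439872649977581945565035162195545967483289124633005393448384381059309940702458514409731553721688036664503675902440950646817874981355313413652485689958416634110564963931435137964818873257730091977548553)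
  (r
  510574856487899272084770645380208885142916820347552836645858340114249381630966811320952628581130715071622764254571154984062848117476307006881390610655405489664867997312403507804596869838042652573499266298445796551935490904333122974039700036517389926417012853860481685171606831843942569693212788038699218823443862040526409570551443401297880902677035330981161143617557366792257132994009283172654508362721494673161121955129082133739729276117801))
  (r
  82563128349031754575758549227553253465769469322676890530689216109121579269771602133731736254139784678384072152968961666138923622645891820192534525582426840540473516766800187820918435661133594310835550547537863385493948076405519004800976780303509367866454367739611724385997770508460039897417833539992189389619899195994581574048949985052117705936712406027744883251276929448082974778599166298631194247548989002012085556871778302708614486445597935763762526953084204531010591857459634016039516183872367560673730857))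

noncomputable def t118 : Tre := Helper55.PC.toT t118n

theorem ok118 : chk K t118 l121 = true :=
  Helper55.PC.chkN_sound K t118n l121 (by decide +kernel)

open Helper55.PC in
noncomputable def t119n : Helper55.PC.Ten :=
  (i 21770096439602752904910321658084429266986 (n
  948597746147700269303290212673527649648653513998443074421264883964554248497803396) (r
  459333045505389310765356151070968064187920699511732058339082058798264885029634386203861104193601166384312669344361527186985072803582943961386350027284336832959790414481478183368851013034905400976773098248643262942807066627559606843242345755769308139192874246660869357339997110376751163144509924309606518215338403355259856346461238304919961659869837009893924162771297556979387570146810947382650154701518538763702729307992437049493366519833427115549030167334362621179542965843395334398023539519571378141404223944917273094544381221307616350148915360808376819317304399221134862014392963143734947178789832799039681816683361208431835211088349466532361391360390756980302295501822555470780780576128777046849980948361726863777567627008571462478209793))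

noncomputable def t119 : Tre := Helper55.PC.toT t119n

theorem ok119 : chk K t119 l122 = true :=
  Helper55.PC.chkN_sound K t119n l122 (by decide +kernel)

open Helper55.PC in
noncomputable def t120n : Helper55.PC.Ten :=
  (i 21770096439602752904910321658084429266986 (n
  466948128949031942774167294955829952495302852059213956) (r
  188958654926836757125314292087106525901251776042261052210892681703851661019450436210598260846323713427460972678597696496638716743335852754380199397523804951518342238528299348817163976777117917215311010234395018858638127177326144535982407711865207704729975820614530486447123767788785636290391356731612080521471791173339833959047466013183957712990561530713732478135083838592793260761941951011053605196012235871494616860397537393731530679395142038506331367038511025527880224791833157632250019256223328586219897921560279193253292150770703729630607913350978447867590536414446757542346652550785530914554088310395645744690578744760826049263256199774749215744434364096301948087591104245056145050771385153102605310824966745228785294042824611403314959543658493710843887671881947276500188971406820850637055509930753))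

noncomputable def t120 : Tre := Helper55.PC.toT t120n

theorem ok120 : chk K t120 l123 = true :=
  Helper55.PC.chkN_sound K t120n l123 (by decide +kernel)

open Helper55.PC in
noncomputable def t121n : Helper55.PC.Ten :=
  (r
  283716048983005485277269041948134488299214019805044861505160001640089399016386237077100190106316271158442701791809311863269805660613891607637630776631417715182470964112096795801193202427828578916150099105577570960480604983903970115063182793388109008842953067127796625543819220158593334368783173277833561416198619184028430763899280471740995166471834647502121983579981584912308893635974341451034612110755006430669426664233)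

noncomputable def t121 : Tre := Helper55.PC.toT t121n

theorem ok121 : chk K t121 r123 = true :=
  Helper55.PC.chkN_sound K t121n r123 (by decide +kernel)

open Helper55.PC in
noncomputable def t122n : Helper55.PC.Ten :=
  (r
  1374525202633618143697498277847813718970976950202182681524794353664865916068872608678585422218965239193358026240275001620042177714615348846898791606486625059662511113047486890610129404729299118386691511231089759266094591903972957520941491906855000040033413012297770973238227162580490415502470893818813624572482762454853044459112635565505331941933836700272117166676657099849864317815070816494355139222603641325021043318510894948091220905172998628951607613941705873381868886217131380697889058888157062070077185975927985981820564869601481469460720136309845779731055798469131003568864046263231526175634757969159652378748382333206440648616823438843149041939371328503885471636442037297088534162567391992387394089518738810984179240175749469331534467778709263263207335995720092576320158890491580837693481249)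

noncomputable def t122 : Tre := Helper55.PC.toT t122n

theorem ok122 : chk K t122 l124 = true :=
  Helper55.PC.chkN_sound K t122n l124 (by decide +kernel)

open Helper55.PC in
noncomputable def t123n : Helper55.PC.Ten :=
  (i 21770096439602752904910321658084429266986 (n
  948597746147700269303290212673527649648653343857259613952014262811319054032842884) (q
  321847950654652484096938829812808849882183599202215300350529373870584103288487055299236027729689500352693720222930101439495338916500462546610399525424201742
  (r
  15901080118968694298151991373692748022563758940020469485405896218097085512152255094548508597373379474107150142642633061438205323279108060941345456518140419438858148660659292338943803185531922932905473878485150279087191661658190575234374632185006639326894900278466191116854828416146808699332074770200875667181887294118912405337437089158483322217002275047343190496017049489137232363454032971199896160625642830690276763528191987966181898024651288825725804933766420623371914191145)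
  (q
  321847950654652674633349460285811777910201863329917121185119774291261866605882924146924898224566368940812423841278665722235422850735244064948370625485996046
  (r
  6444360695554118594493731839119390893369341215105323756041259992436221739339529194876630460302230820125836916139430894924683768103775604221982262292499233333933250622214070959510257294545269555666339821231976597113966644403791543935596507899820437914192104442517947595311135002488188859153294701116415559601215894858936180591431280613815854036130306438996271778994317188900520015106537114423249986581578943570697)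
  (r
  510574856487899272084770645380208885142916820347814760839698176942923661661489232751388256988188587794863777992927743162891077308558293573661454593211713918363798497970611048122776484372840225802496203293591439430027869082378156928281186746012355971254436975684104935045909351277992332834196154122997744994846228618024137554528137285917563941783149605117945537466483522466451142391149511416740867047965948508283698726689846821055146840302377))))

noncomputable def t123 : Tre := Helper55.PC.toT t123n

theorem ok123 : chk K t123 l125 = true :=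
  Helper55.PC.chkN_sound K t123n l125 (by decide +kernel)

noncomputable def t124 : Tre :=
  (.N [0,1,1,1,2] 0 ⟨0,[(0,0)]⟩ ⟨0,[(1,0)]⟩ (.x (-1) ⟨3,[(8,1),(4,0),(35,0),(2,3),(8,3),(12,1),(0,
  3)]⟩ ⟨7,[(2,3),(22,2),(6,9),(5,3),(23,0),(0,1),(14,2),(1,5)]⟩))

theorem ok124 : chk K t124 l127 = true := by decide +kernel

open Helper55.PC in
noncomputable def t125n : Helper55.PC.Ten :=
  (i 21786047175472943732870903005214249713674 (r
  188958654926836757125314292087106525901251776042261052210892681703851660998660688722273535893690870280239485526083733983431117727394831438266482746061445862669831880934682379502635238830949932041408965437154785659150187290072512594862689763103376164272237802419690658839469128080736095899659195165967989557626829695130132446067033085766461676719828523350158227193864881861199331537774075415037941279246842371989012656510158675288616698169663547476102758403809044315981230143595283368210946917989527951151356072345010510736252040699037153661689894309538487670049931452262989555373546885126775631500503227849778054438338117876440807314199417141638640818283261754966202205452151539283005012838291595513535142671566264731436114350373915455498936439172467897806221544874008251791212090100132838970457753658113)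
  (q
  21092627294103342658759714865954276260765269948556265716562800914718025376872508775940911021087541553453071053184191525797088995071129863042078332885066609459214
  (q
  21092627294103355145753916130011927217366055199190623352122605204147033185669233706522704483477318326332865665565337044874504910671904710548280622207888158490638
  (r
  22894968394219427645785983662929836497084863835395032147738254992279262405463850815918510693727570442191207446007499528014937047902885603002746117813310025904198128168649843491639551520497399665082097887309725897387374100761846456050501357707008259112045717257724636755935111177073307626678544894756632450005803444138693698400734056966479870862299935499722497022342188811651896415561298262031082249)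
  (r
  510574856487899272084771911967872870243447968160909923759923565950440045704482564332770833957103750624350799827604824518661826024381434306379703519694045407610084262621352661228454651641297209456082840496168101387540063144274739440811222951728198720361744421413689997962710320394905078667514000158763062165581391113477205488086530058401228638561902538689799714590745457448880380736087714642065576361078534762435143461698145309586944174596905))
  (r
  82563128349031901236590295979902524537556586158262584383454103440792194304210380307625888196086934244764563312280646056239183911127700046354167863917379842071337772531510324869395402746852314603244265855870142943142297734934540361998919803209412378690590882010033399352135703211101027833545722289387274131617953192485157440176759670415192310288907891565260933462518600847202881220945415800033960923113269580570770406471888661240269774741227261895819070188189886730870274400520490408920461232626257857813422377)))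

noncomputable def t125 : Tre := Helper55.PC.toT t125n

theorem ok125 : chk K t125 l128 = true :=
  Helper55.PC.chkN_sound K t125n l128 (by decide +kernel)

noncomputable def t126 : Tre :=
  (.N [0,0,1,-2] 0 ⟨0,[(1,0)]⟩ ⟨0,[(6,0),(18,0)]⟩ (.i 1 ⟨1,[(17,2),(48,1),(1,0)]⟩ ⟨0,[(0,0)]⟩))

theorem ok126 : chk K t126 l130 = true := by decide +kernel

open Helper55.PC in
noncomputable def t127n : Helper55.PC.Ten :=
  (r
  20364432887126767172506588233117636137882270115645953911535989089311913568134443859000431659845464085628295767295775362536018720647626830177695947437888330927690412486537121186432276576681449896941976817961441965219519445989204475267932541792897548567872180169857805994281628627028294003236067611677224699595033062335182787085495567411112245217645879114750955977378031583871931149686804639233915269447472313053732441361228585)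

noncomputable def t127 : Tre := Helper55.PC.toT t127n

theorem ok127 : chk K t127 r130 = true :=
  Helper55.PC.chkN_sound K t127n r130 (by decide +kernel)

open Helper55.PC in
noncomputable def t128n : Helper55.PC.Ten :=
  (r
  36392113177472960568040195651531518391522423282625442410946225482980126640560554369589185072585073783749945791808709422264760914664169280930670245714217785400378651813265067862521941082078200177762700245513507580964276348014357770098802149165064286181653234726689323101798416370439917568837594405785177065037964892547058860100661122777975631477099065497037570798101755721836158911539072331690612678034440613606747996198750733082179184844007756509418335721333083838967383115600020566959518338773352970138763864593481869611142998278570019296170909936048921452392192415270533302996419276282579577052244440344105978618441061845068459695023563563475538580453797895046837497377505237443669638639155656613331594697306452701352064113248678423814770900221357435990290439493395201)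

noncomputable def t128 : Tre := Helper55.PC.toT t128n

theorem ok128 : chk K t128 r129 = true :=
  Helper55.PC.chkN_sound K t128n r129 (by decide +kernel)

noncomputable def t129 : Tre :=
  (.N [0,0,1,-2] 0 ⟨0,[(1,0)]⟩ ⟨0,[(4,0),(18,0)]⟩ (.i 0 ⟨0,[(0,0)]⟩ ⟨0,[(22,1),(39,0)]⟩))

theorem ok129 : chk K t129 l132 = true := by decide +kernel

open Helper55.PC in
noncomputable def t130n : Helper55.PC.Ten :=
  (r
  18593614986150247483131103933112941825177290001943420043602165867484898853937888433084838058807543146639700904628015062271249983773992000398140496616028326567212351778086411466704878911152946820530444137286904440358170530547486941406095328393098643343012012423992292503066229819123861388721607997462008749539636334897426434487902025581574303898998661264204500071424688841985745482242366447984894413369317226914668606541538089)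

noncomputable def t130 : Tre := Helper55.PC.toT t130n

theorem ok130 : chk K t130 r132 = true :=
  Helper55.PC.chkN_sound K t130n r132 (by decide +kernel)

open Helper55.PC in
noncomputable def t131n : Helper55.PC.Ten :=
  (q
  321847950654652674633349371560381566044126356820663228606441264325275454579752518691578318556684519160792486562097670379135099847165328831067953209614139406
  (r
  15901080118968703713434909033976298184451270627416518320293771170581674871312206307899740307252339271008325186972172246974826914539344482446441960730807745106558439450872116509225799950222870309527743150824044312865463702497027763671351633666068049442486636500075648458889256314655017438993303229820941246276302928165099930328230627029509921765744754335762114727608692466109748556315237851458926939474605720896518672009484103917187468462708831272589830997168564256598114181417)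
  (q
  321847950654652865169760002033384494072144620948365049441031664745953217897148387539267189051561387748911190180446234661875183781400110349405924309675933710
  (r
  6444360695554118594493737167980684487319292112257330128248012696160808563659258982281928718817927896537938062359375287762451275490320556647436600992828704333539104129959067089524924190876041423757096060067491796334155329137261836217014253732268144426367472222019853507973601420978991312735205271822474071276038721541879236106846789448866704367925783097899181683388018234136529521687307968953747391535676674810633)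
  (r
  510574856487899272084771067576096880176427202952267123211053252221653883019328919071346200797637460331736791439733175591578612191689081768938124113094887506869451655209122160279187108706465962871623018976019872076487122831928623603976011012556840983210384934697959019579411704237915487429636801368844512037793818802981166651399173982450654094167556902134955623859401397069677039526313917021876945660897126355150296411960385224499876503757609)))

noncomputable def t131 : Tre := Helper55.PC.toT t131n

theorem ok131 : chk K t131 r131 = true :=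
  Helper55.PC.chkN_sound K t131n r131 (by decide +kernel)

open Helper55.PC in
noncomputable def t132n : Helper55.PC.Ten :=
  (r
  18730329150676013190171094694551985735016308967141282870021927891505268194259498345376754310079698604923500474121316453429548277827492052520565020604418754178593449244678168121983315540016726391767717684741214995335403093253809307290350071805214501672128235892277830146156614066585070483932596487741917926303609959934466786739887622748241705823298679514988943649768653538841094963567667188097317511355718351349566778229671784642997587772215386165203699811590647783647231051320658640308077880431391274715918484653303714523538289594492285612529557769)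

noncomputable def t132 : Tre := Helper55.PC.toT t132n

theorem ok132 : chk K t132 r1 = true :=
  Helper55.PC.chkN_sound K t132n r1 (by decide +kernel)

open Helper55.PC in
noncomputable def t133n : Helper55.PC.Ten :=
  (i 2657482475527772835958263182249820169 (r
  11774363825099058277938850473522760750473899064405169814232544052230446643084768824844114057243622261665473209768053422137504439740853508498147911122244391968700427669894265109550638003915538439235289738352720198423354297945877072703393908283946102167860548095669075326949825632805198729173586715492965587768370963367529027940800947841735845863242352647222988768361712664010964924881210014082752688508882348908998962516710878749844939070697134891817)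
  (i 21791364087376855233848253895861826879498 (i 2659429586840050809170424367564324873 (i
  21786047175393715570356494587621296701482 (n
  14474461082494521333600089633952787450911493377329048732236911933408929525380) (r
  3489094099166920116021962998330910644311660130341226727689501736410693337706394434747318801149955338026747515476226574018029257955313111929634192010702627218396020149075105003285229732958931943571551382552588375865264981008198685370993803615101438750968362985969005490400259822357810281392968877414590320632781711602368888799381217986710186705052124825618797934581791252001223066793243542267508978504226766789372772831345706137744448955177))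
  (q
  321847950654651340878475668052802764776602560000781623393736541108422407567024680400528862435601238068854551515738347364902918146958134615050550443449122830
  (r
  238179257755038624742570262305243266323424241599428736429734167121155154615917332359546189385383311572428484861809294972785716441869425726988599373501715370281093681588377608936199054724263178596795142261392734273911385382387818966953740742976771667180674568332612576508622364452656155070961821000527283137469190651201014124280025548326071404080926407800543826564835930163874994609972921721982690199673769136257131672225546745684265)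
  (r
  189144170116156441807814161424202144328394034289133991178669047496322638505500928049940563164746102804148975895914431499542297411663449353564061455789700366644678003433491951103218063202890792278266139393227136419476057131027126617716725451532432100185525537963470144925917807602167232013656651436511824359371239913950000172490635445646364702724614677127474003608187746377605132494980832272460266421940667119891663561513)))
  (i 21786047175393715570356638667620705239082 (i 2657482475537445422962685749277884425 (n
  51722104153815746653013091372559279475785115231494468660044127693429878215591668544581764) (n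
  8613645670473654497209017607450747275631037241030469192645336776840982660)) (r
  139944625857577964708526220803786568496752617176795687344578168818612915002631647210140317173588463060269071097013725369475560911630626319861205998514998235674011713105075320982977331939224515006152166788338607787357449877089849189222865995539688031064208387318021295830661241676482524608889221803330948455018783896419300206463613325384899202041821566335322407751988903088393964287734399016935299464473315978019584900386514389790049030898411799721726024523603025295966259402861577146079490576784370985033352094380723048835348792249293436570459958892190901649941621048919186458507981084114375113323705702947955262013588746583278438993655496289185712150100498129246853513810681431217330736051705943670857661648376882871157757122295205042103897845278008807352124966812683357667468033))))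

noncomputable def t133 : Tre := Helper55.PC.toT t133n

theorem ok133 : chk K t133 l134 = true :=
  Helper55.PC.chkN_sound K t133n l134 (by decide +kernel)

open Helper55.PC in
noncomputable def t134n : Helper55.PC.Ten :=
  (i 178384186175542515584869299398937410376171563 (i
  178471298461474434287840951538990319975661611 (n
  19898757529765100095002785413265048707214817376280273095945927906644018109389963681477509) (i
  21786047175393715570356638667620705239082 (i 2657482475527771655366642464838516745 (r
  18116412330236803658735026208854906583672573168447852370711904308909743612338978990850257757260198747474445776085737049865826863555635093924227111045507547774322566974671121449619594198010358882020011628374441149894237745792985558958025809709839510867555299421645013071834753387364844732545558987847680831595031260290556870445062323233192526624553705780231928160112705064758718138831914032448432714293157752095150436537861047197758334952814184080751319257409824647320707881)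
  (i 21791364087376855233848253895861826879498 (q
  321847950654651721951296662822517985234412568728423587326881812051818698123425201729866864421709425905032146914892489911715940891769116419051359284655947790
  (r
  1022972122643445272486155695583161398189325040826095724283350969700368470646352188269839302643268946853949750032697418337321489844749935594062502572413083332962260633824677851008621007354494509593091250526460959890731858707748366185620100509212646946781158590527753843853024265886062811798364404091863618266216382656848582604445392215138751806581801007059675067071241745604280464534689220851781677489955459955877731475843734458270481098481961)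
  (i 178471298461474355059678437562795130915782699 (r
  11892815234327241666703912829177493439662634240885635804028924888261954135470910635327508651959267920620300162371822169682992201986399896877081145053119658745025468934446367709421452050924104059088416304522664227665624258686526789486845800540314704653675840067478897991800376320475046461558362450894916172672651509334652565407802736191756116484707024285656327044788179622317455864266835606067282331770038399519953731532430049660153309849295544909068331320732774534978069242714638116297581884238008705162)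
  (i 178471303778386417427504443298298560505839659 (i
  178384180858630532445205807639629169845993515 (n
  223897558661250180007819628396825322808720325535861451151687067079619382785476916050480839851119554985756956204823097579902423464659005829)
  (r
  3916862673399440896174781870354955902433095008215647514096719438952497386231534325267596993768970607621167581449048040322557846784308336351959530348986293597876740381399192814118398102789776137631869669411809259248529185450418224589573560059966274010204241025433324162920347334772102364763189701877578030350260269701850141222751336374290574221653966827303266539873286971123384156895232218405771340923478427247584041))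
  (r
  3710712337560362170699023986958409742478814597021187641916740977749040236911664136159872631466823616340373125943686935504013961132644709443257750188549601983267263791517254292796215069191078649342553943455280777817324446917161024835202728020335162006772675172252333354427002925627625996809221377484558154663208808823468720659837482159886834447161522958753143075684936062347537011827808274419145658071908350448378665))))
  (i 2657482475537445422962685749277884425 (n
  23872002913014823376996299539910331159745834768672947585345426562142217651641190918533252) (n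
  8613652410460321284868966274215669403137970961887361576390708314030878852)))) (r
  3015306830511702943409543248110088024279242135721858315436331786144354176127346840030578685536117351818074631561831373258935815872037692432866536579819233118244532681003039832644862239533940463171396025658742028754174291696574645927100968217093154201946315492266377137458847989555097177689956697339999464182078382300769112955206847906532186159617974199021789577009252907062862956385945701092716651419996794435220021090038192474695520695299329779949907620655326272318518484446105679048157408921890910239500720854545844777496511960205606394931820711391952059903800297836653388758265692700701813056455196898088431983357530356066346706231338935364405226367063463801748980721572849277152860646977166814350960457673249990561589224157881819425)))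
  (i 178514849287528252043338257753238156716671019 (i
  178340635349488697829371993184689573635162155 (n
  4971342239188919557821731861831967887188453564000975133568772436976446483781323102760603781) (k
  222366322331407206146297585967710967064057045180489363209241405167853578669388001537026086095249720063193709755296066904534755908392411061830186820507242863234547936210420701802334551744840720287660828587458597281130388459693692033122458957519701628900483851367318469660006508965516192090314080595934047489953591670639657))
  (i 21770096439602752904910321658084429529098 (i 2658131512644764637455378312360755209 (i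
  21786047175393715570356494587621296701482 (n
  215689806474814032930584053816461546276688883431328613596400801689220) (r
  296179793717694576668514315738408479368865119945006568309230617250529629571524797554952297732716269757114639151481621837871052509868098731270676267371435515528523564389532337008230158590915556420683371962351920082987343889220706506377903264775761500795097378897637936062365632280370974826358499434297470897782838568931622273209891417256558446632035958288902102247686589020184750555351353890319973387589602405394162708544203289760244633702271781496496422342047496938281))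
  (i 21786047175393715570356638667620705239050 (q
  21092627294103255249800271129824305956700223279612039166781993984989453642500697532771528193151281991287376094525073288926484447506691803544921848225612093849614
  (r
  5311574938770265297031021947463675284304393616479240320038717150647779603916241845973191353636930417806252075698228933759055802217427889246769696911104320586886374952448481342845877961355481461282792072779498479154100409163039264520781102519249829954105918431852503703863388724460581518876861370611048470821114269087500119417082481247895749629003147531886460023008508870692866709137390793071003063921792176324994214348135445786313383561615478574338508153356295556612999094569)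
  (r
  14166570233708948259692393183101206043409961049113052593498507975527095975010099163211824363620134267277530532340036354203102621481438540120181446391199703378977536898549794380431269505565842786407753534155373145598551903807779189793976970732049578780253392410780445885123809426896475392941647217570786252329560384057732366476350873157170691072674726167057020193248140736139259614657285952596562471987649736349441476849312553))
  (i 178122849317747314073091941532527407707324459 (i 21786047175393715570356638667620705239082
  (r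
  3504562001721283445223266103561863582527108903633978289490220934113224368902104343579535106367362027210768121129948287676487236755602606767562073792215114457629212466568385229013632597546487068868552584587972121835734770813815482423733142645719537772209248816292643471524656389948780034246742769172317179481685044917447897678644845415302626450072719909101380675917352266812682513244785523038291847141552384005907241)
  (r
  17348947129970955858394556573849938591063692270898562260245148162168900131416325717956701744709762215420357734918814412266333454646967696849810569802246622121931905670594020413788374772819734921648523111122455242364629628529302656577788730261128086573956369429593025955321232505497338234877911413606936502623026429731660786278068278334070854877539462799118356032142352528628240893119422631596463160563271147287286783230298998409632015996712949816797868185830530719026722434569447707704069199902493098630783816281101339648154629857674066111835392846583429378855007016121433531671937980030293720586771641136639181590225530850445766496617792284827912292868755648961895511277099889353469081162772311592759761184202067140753266227002928702309990643605096841084205163203518753))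
  (i 178384191492454736409020333663133621387657259 (i
  178645523033337875552971685217737791164776491 (i 21786047175393715570356638667620705239082 (i
  178471293144562213463689917274794108964175915 (n
  17745735888836605616297934528732354488560256073681714122137315169064550334307859493855204923256418284484949011118508585494570902901125)
  (i 178253517746644954443061877814021204926922795 (i
  178601966890371995429648373123906525424910379 (n
  9956446247156882862247489599771013004149222777973078718311695443618453213667135722373) (i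
  2657482475537445422962685749277884425 (q
  30223026776383132651443541492472693658266527195787007462987623460585751349041249582277615283622453859987945559762636351759248591125113224675141703689410925631192504074254
  (r
  1234287107427745631318724744492846026891182772532278159008074776766378876359943925113113077513135366628076459816563513319928885651881647456705316395066095999434272987934150511843781746580709042942387201840288311575331570619734576477524027838410145831513431846823301730279521678262673163676173824651009367059172475896199585193486842357673169731549457193311731875889400018648244997195646091598696826662533849221952298338877720842812896840027789859348014215273740771625)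
  (r
  31056678638697084836862306082629221786100617573954333901398857177017696893554863762657684626605564512885876636515381515869123191577406900722358501100007241213143655305767482157511764014019319458746857684858363995246334568261850178626064299229090903200071429317302642998844502098372975467649715311471224970796125036867362973683300789425704946301816063991057562409518124999940654802478278599622440350350273348826043920982862047234349136399122150295710460177628484271905973033))
  (i 21770096439602752904910321658084429266986 (n
  8613679370406988435508760941269782811936664923477926497106043813450363012) (r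
  71403612298262489364754013357103390241767336489594992530758737202076272186059977751539976778553383736578826882789066792472776484131908814573769316350380247856063847583829001933052831301432758922020766244319246178565285650336705390594061162629126726800078425006714718712567514192019363700444413589313904969156689259407327278733958031189854651079049225655810944694703193732476826572349266234651022921150911184886008631303159809503228579911605176653816220150000877501339742273878903160502463037639466071422130067925562359716895011082883238961202774263477739762381251354848919508879196979417979434580235592728785036609189488997400691042234579199027793488566154185859215048153304666777967937765462928834895389485511839059565073165928570415867711601405691052297962425438489342244089724243702054788482900164694994133432875877055438905530574200304335679104005938517154996993))))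
  (i 21791364087376855233848253895861826879498 (q
  321847950654653055706170455055526998368011872057559085118265045234658157162283445476262900210674557561723511289065472489194267406423180410254235073985511438
  (r
  10659511505125937675376860707404175630342624377263287936629559467065070267276524513746689392677419004216390553992847497308249166764971187858473381673368478853805617196567990505659404130144895439698093796598591754450441334267429533799878075691112199614151334845146799253083188293760404243943389233129508541881014473118154606159987958254512078763353288358877469375199299128738181769851052329)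
  (r
  5732078272629723916672839634503511004482140793676784254536117598721427369556820390967760396597751106205902171998358287535142813454059943676857972242471775473840470344933720944786242764282748727333439949532131075430374947935139119428497450239574156503554924051283043112555799333540431164984632482281486781736647404050211937002649372357041359690113276609651365497448735032117074982948748104572935580465683936070918241927111253797799245128489))
  (i 2657482475537445422962685749277884425 (n
  64503792563250121204048822603907855256204646066904537025826000315759124219743056004) (n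
  8613676000413655041678786607892896849412238988600248368957870476313112708))))) (r
  9171411000202229495176714464268765438763880567499209559140213063361796596311762522878301395868944365894222490632600248901674889588432348175246139516809945121677119388348804624479175489329867171168725071949700376943430424726253867544912765390298357063516316311588039059202048797951313978632462295634105988341174739365562493898022667837460607298480323111453704163614619044446219179364974623376086587976610670547131484330079039131955721513649206135607838850174657411844680793265533080796168440495276855251913471304446457950294523793072499384431182348412404290242119746831047168212818703007162959050442211511598955497318794000960884945222244138934055620955526449818970366119579004782422851567739370322508270375479663918906191692391345482487564798019239574989049292789897269599510197969665))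
  (q
  316149080644437759347064400964602671367929766811170272937546345024157383709591856843461917093363385972683026246236041100704671937360344130123432807256242784847433140348554482355929103
  (i 21786047175393715570356638667620705239082 (i 2657482475537445422962685749277884425 (q
  30223026776383132651443541492472693658089076335363275307049354178251284089952440837939842425432777493333352976450302167948629566257290073082953418351729171145432898863118
  (r
  1234287107427736862653197008382281696332465376401242253518395315518701613874530843104061306584616791295730806561961146348035978143723302031185312546354442884534927536303088097904795080693546898942829168653050318008730554832367563417199439155507910884703467011348806554763551652392405773133056877579243164944932360296472357959648774657196180814782661986393378553864965129313643215653282995801860494503126774319880431522341471105310226049747755937442493174467375931689)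
  (q
  989351828919194519374661527620081232834183574206612934797637242860408318943846965526475712973826707574067346353332663826665314076305696041519063667968593241714797809110220814
  (r
  265064086509105102737259099330206258183722015999463270511091331339644495875398490924744765978283072787855510810950909612356291993351800188919170181416181620814725730220484797927467305882163250470368151920031852552687717143034408801316664398549722555737784424621440492588354993347720347394657639359175823205877636247585524510019049725605353750988151109571382610458433988440162976627271311452539999167355395246436167004641581274372858412094378238899737812982959287288544457455876565020484750139699452926575195857573110169314198445540497534566447156587572406875832701175131449514532842399311466547081792803194233885604717353)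
  (i 21770096439602752904910321658084429266986 (n
  64503792563250121204048822603907855438892350988479176992609422022468142989963833476) (r
  124167241938504626096757417480045152899334226450122536700013090770005967751825861342317245406713736077351638637130873399118043519935567583158763476303378570180682430959087511762027113485716967748199487392539695021620626136768289275029499423206151285188347852983795439714689127320648898447861127433673360805696139959581014676697394608095023407656513947491320973685185727268908771176050510861107062369487125948899464998420378838961726139716259120177290))))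
  (i 21786047175472943732870903005214249713674 (r
  16624949010615816657584165160288754693197065519382112601745882485199180841457235723560646714449831748550482364015948318105032855377542188948652462568861301292072395046323798743518647464117662957309091687961003497984006793080169669717718343392615411507606023717217890678452661571896719933022834109889018018175315369839699647105057248957232810058591100500180173985034845800545150985275490994592224160770646877798644177134092409428573807830637820966851387114130925348566433265322607664481710232403553492549434490078522736241156018509646976866716648231573184461985023158675975757605571882746905861260418560011725214302461689324118488474335725955895600071234778669938773577145252015363316043475184090136918981969502944468750675072554910711821424293770068317190335240863854313964915909380583818303274952009378813300145189416726455895229333810739738178920189797121)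
  (n 564505649507226199513419761221950549814786864135536291890490157593200042848388))) (r
  9171411000202229495183171140547400253057330742199330791361202761972660029428311671430725644992131206644661300336929097366129240675079782371053546567592726069254790121142081829112554146926430115731411464736130399905796361780774909721946367520409193948437813517909259495594657387679145065993130470463339542892456375199340314786135566544665568968623121657024363547860739893203592593492447324368401441124359678526113221994538263273068283946457673308410868643450030101000836992739990602451964016584179187019523678823874168695512391675165084806138079933853247071541033752883145922047624839178126008629667363912538354187077731551283395819412609135131963133609868154381099382555458757155378770215753666166792544113787741736868683655360702695711109564655304686718883549621828617587061371446017))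
  (i 178384196809366561092358796893749080496406571 (i
  178471287827650388780351454044178649855426603 (i 2657482475527772835958263182249820169 (n
  926407402447374468960844651603249847704663317289498237636690260235116176084613) (r
  13251560589843188232501548216919340441847667361344961062437088112488236890547617828084033446859966652334140119153678993663227166738137847539170493972516623104802864363932335739928852510330793342912183098052852232003083973630925723596718996269187310101701337743767020340476829288479162476809426783564630131308336226599365768955442788588281298400373782651184493267153194759309880850764895121426919481888928437294787249589598635889623969509057070149868820939925189953104476643625))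
  (r
  79858968279930805882354403073097056613487009960300303260405257868377488272195052129765623214895986230622143113872224050970567454655813993733897802487080090187831101166835161859721763207258590445062018084446703447272814793162659329354355047575256197752467006645615148636554587059449136761409901084408300789771011303390679753657533897023011328531009560909722150234701551130454224429227866412945110865207333322878527017140569645470982953))
  (r
  1160524990753144021873024157817935932216102089201559346193056022958662713136880728154245775903200554329401162025804425601932696966737073635876345745009771039171498354331357960512296145990612650524764860078612173312240697904144007521774260283926302791413346763840399520166682332898528907989948986516124976610227463380960235348427568022348424173493252938813455812464988280167008791677858473012404275426832183181603422631805956924201))))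
  (i 178558410747406115306325061606377662986715179 (i 21786047175393715570356638667620705239082
  (i 2657482475537445422962685749277884425 (q
  30223026776383132651443541492472693658000350905151409229080219537084050460408036465770955996337939310006056684794135076043320053823378497286859275682888293902553096257550
  (r
  55347348101580865145181922403556409032780704935047094961414683279530114612013068996342245482601125997206633175207575761964529242318352717105001376436731506114531194900742824784973916062327640600355592240472585183584464262767416787672420499691353278755487527962361869777809348780853846790445624312247387057086366782616385467944138779918920752856007632489015117293514827516679370383268993852088014613291301480486252707062057)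
  (r
  501282868376143554137696752057463251173342769044093984027531113668121907122554750809202829446286845683606079134496337475065739792823236696566013008651076163627794784731679895468163618169363974529435066579288063860068850268128531182010094095854202737125630354676914467702571945387015028508600725596158727796635460418067500623999587837363704485009290838525582191820212202856968317974833618248695266901674515584158971718862483124757145293182085122234037518383155951862846904110539010925081666345))
  (i 21770096439602752904910321658084429266986 (n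
  8613669260426988254018837941122399620676264342192587921487979910595752068) (r
  1089532658359718160470688215908851682508669996468744588660471924802343636276899623826810020252278461574682751303445086829307716534077752841802913265733460404984927154160645475393282751330354877259038093022983183318174150061839817041426620141464601017391057955948343460019797132653358709911656037000042727594938282585470409930180231129929109255334149040808697540752456727787778708556076147417654643157289517328442875211055412582918567477690331576641172816712120609135741631510473414671975855654727658107705783839103583165240855943546796203390690425297061680425439438137263063766442276244494201825343103822136568812407285555689418443216415885562164817657339334442840972678650603961637116742326917805134670815554519323508914234634723747332066688847672922249075605339890045608689379239712524544517853877123611771092513418716398796827772152231373674212065935796478721)))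
  (r
  32583397314319844522773601853304958235795682837118681473285921382518625209143303759440974102414011788843367343172136237385771034817577305668954116169717690712989458217455308924424515764912224628604149168070411585763021383139081571425477554793388974003163926112918548476697285900126826603826700842832036900998911916986443093989842008818755950772676548759097380977669296496741160604850942201649724376349073851244434404733448687434865412787224358300318314012239704928214510352656693017420587921476361833279409641878882547384671013674572184376086228211511238629882198017587944637243905746242872543340035139254725049914069289917112238146477926120527572856898996528563406310727016071764656724260946642693682381314831062073502232497830559770887182603731387552321623507483763457))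
  (i 2659429586840050809170424367564324873 (i 21786047175393715570356638667620705239082 (i
  21791364087376855233848253895861826879498 (r
  745488496577738586183900938170522464581308723935521141536841445042245591405915603368150583679072387910914416627270835879565147654680276219639992896558985898312763798722336622216428566508821881454067609527816602454491877101625261461026334624584370253003409963327721422467664555720678290127388610607012811167647942088692152415710453893509053806290048481979873851271238941884643274247127357558469652017153578144914123931925575165769796266529995390621771029572931866286658975818017704144830990072352328601350797469362566612055321115257410386944074322180804525079505103873478139228740378624520037521741328866639047385992579218005488972129637121413466773404156093266412822811085587089121453161596503601976949047966157889237033736186392366499758775236638242076488430683042931832926852186084520869940916194209029192688385)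
  (i 2657482475537445422962685749277884425 (n
  64503792563250121204048822603907855073516941400541672250984347356400505421620195460) (n
  8613672630420321647848812274510435785658772128790762751994906906854043780))) (r
  2135385526391265330645994083152012958437514198524721616730373995837909176346918491514102938815981896278602373864718037044193884514989280693943972365835850608827264542025998660622293629433801341184189858412122707183724280235346195188156478067170864842180167976609591391051647027220866054928458332977881228126194920181890598551140545153612487903042720383201796818928332413718108683030031945276513954265755032079072504001614823678836289937991976187305355085490219025505901646058661136609348971113037421984470165809861672524289673959743074189710102325639137743682559072331279996796031813549928575567813236073117289744043096853497515248058710666809662406204761005081203360232896504280907068749570022928838240513723656579441259296276270437071034266886939021749859502296286717813505))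
  (q
  72236323091418746400569011771878904810671081963209345051326902769343523266265884699884429336228264994988976969978410718137471817507190506266697978723142638650896618737071954514199838734
  (q
  72236323092408068006461429908120914894749670723349870536457180340865853459772114767544186349313902768120378244774984731137828031816421363762070081705368265063374979259886763794216648718
  (r
  644335101246600622135151872207715075531218210388379393453865606385001879784677949119913641120834416062934816994832245778599583551513080866296059039980950795279429933407528071411725999046218112127248351054515992535100276436269175226089319031365657821796773068532244331906519665146540169210541087172970456591647549638614218525580929645080128258493004437681235892092683159803397026990709007747541409365983308595250885092213260705031601300034364230196991546644047128597060938566659054763579211314285862812914008364947590067757898305758257132152875140331079983401)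
  (r
  1473137949850372658255552263856112987423972948246019994096308266686279074790106308755816691251495169887700537258785029607807296732461276899759758262058998121013952751087019251214859159615114386311276355236889270778939435509901061284189210452664949510283499857593265142004447989603509569919682406624738865485489210171863923067552618740225875269267595035438715200836268953308418163707222026359546967567157665564803619299910170266361219883298358485730992937))
  (r
  1020978365588372799698826893936182194306041145786877580234268116764675823494836771037807162158072682779298282415635559290713203189965138800749665192709112783736930683064328988522922650067965990787161636097916015472829499592460190287780064020353836925199715769856879922313827498494040573812411174987610287210169788331972449595459507308776325184161199058692136265778448509155073484723199764686112350355590451754219245275523279513300889938174249))))))))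
  (i 21770096439523524742395913240491476516906 (n
  6388039265392752767964292328556978652716589506238004224410625911595869357329936216819699613700826705189971562116)
  (r
  14985545048588502743358856695553363803214509487913718852237597889697181423926616575112297256859963346638057003222191476236358698377322175459963683810038329853289122963856866967997762818259985089950785983059728014692423401098405919995274708437413492195445728842903513931035754262117188273846190072575997148498444934276285145245422656965320351648438387289250043820359897099124608082112085096406971291071845987058918421520722825893480371349916542575401)))))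

noncomputable def t134 : Tre := Helper55.PC.toT t134n

theorem ok134 : chk K t134 r134 = true :=
  Helper55.PC.chkN_sound K t134n r134 (by decide +kernel)

open Helper55.PC in
noncomputable def t136n : Helper55.PC.Ten :=
  (q
  21092627294103180327835139137238079541483325358520969229250213098176714189270774006694214284776592438486606062778857695859481197268123620967554855256810527522830
  (q
  21092627294103192814829340401295730498084110609155326864810017387605721998067498937276007747166369211366400675160003214936886479045011417309288178443151191703566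
  (r
  3009128768145225655858113224713661029895027069414914261003359978363282015080448396780688273103391736593082164155868598990251570276298294425610169218422685793918752209663978054571598065351945789558984229785575899339717669939135671466816388224168079724180185632751388966157822120528923302317323511478657023978257037382618709734541967502994815703739597364720970492853486239516802318574455552510906895442697)
  (r
  41830943402896736569933359520665996003861927254126604666745299526691491909978793702450146450162925458372747039528398838175882908145678217410551177842257685881831457358245978530808249276935334170456202505881943860821772396653845654499078832969082972165235402014934688239775557133818945791848842803525680936387683382177665754127334377995302210765972091923594975591534419532155996243296729568117147137378182720551494125631182783853634345))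
  (q
  21092627294103192814829340401295730498084110609155326864810017387605721998067498937276007747166369211367185408652051847601117258690709345428298449635239369244686
  (i 21770096439602752904910321658084429529098 (r
  1499986936162001498417218553312897924594074716311293280681370061954652517725776930372976614525483733625337912903268129710096904076156017314478211411902880189753065245036478932524018157427179516235533126040386181944514808157695059304546864686776005005771449510826564905114027507465002220388954207204285605050210643897539699606882510283420366533685550808444854729305727478041846888685890842486879922954537)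
  (r
  2990653171730741493655101523625888342051553316266658388390253767008307997295188666698331779939334056209157591804641748792004023400036038208028920430541396081015928507287678802298228740170120688069343485720072060245222526442065535002072761118924921819100815473476386608945921694893471826481592542022398070618849490495524227814284653102556956141052572085942109310411862720147767165806320973142704478503727466121346868786639350425598413775657))
  (r
  9739525481267649036253682433089470261652389433430750703933049758349825282955111303506870053617938451696726591289213560947406299405817851500358850005787397355938270898809245691497552454949426089315052692165165699620060614263120747199634251544041605084074986181699240524070726651065717071528333131760012475088577095578132057802559805188388310807978243853403861867905444668470574985331043492049853692566208342754197446211150633)))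

noncomputable def t136 : Tre := Helper55.PC.toT t136n

theorem ok136 : chk K t136 r133 = true :=
  Helper55.PC.chkN_sound K t136n r133 (by decide +kernel)

theorem cl0 : Clo K (Helper55.TR.GH 1 Helper55.TR.BrU [0,0,0,0,0,1]) r14 :=
  .w [n0,n0,n0,n0,n0,n0,n0,n0,n0,n0,n0,n0,n1,m2] (e' := [n1,n0,n0,n0,n0,n0,n0,n0,n0,n0,n0,n0,m1,n2]) (by decide +kernel) (.t
  t9 ok9) (.t t10 ok10)

theorem cl1 : Clo K (Helper55.TR.GH 1 Helper55.TR.BrU [0,0,0,0,0,1]) l13 :=
  .i [n1,n0,n1,n1,n0,n0,n0,n1,n0,n1,n1] (e' := [n0,n0,m1,m1,n0,n0,n0,m1,n0,m1,m1]) (by decide +kernel)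
  (by decide +kernel) (.t t8 ok8) cl0

theorem cl2 : Clo K (Helper55.TR.GH 1 Helper55.TR.BrU [0,0,0,0,0,1]) r22 :=
  .w [n0,n0,n0,n0,n0,n0,n0,n0,n0,n0,n0,n0,n1,m2] (e' := [n1,n0,n0,n0,n0,n0,n0,n0,n0,n0,n0,n0,m1,n2]) (by decide +kernel) (.t
  t15 ok15) (.t t16 ok16)

theorem cl3 : Clo K (Helper55.TR.GH 1 Helper55.TR.BrU [0,0,0,0,0,1]) r21 :=
  .w [n0,n0,n0,n0,n0,n0,n0,n0,n0,n0,n0,n0,m1,n2] (e' := [n1,n0,n0,n0,n0,n0,n0,n0,n0,n0,n0,n0,n1,m2]) (by decide +kernel) (.t
  t14 ok14) cl2

theorem cl4 : Clo K (Helper55.TR.GH 1 Helper55.TR.BrU [0,0,0,0,0,1]) l20 :=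
  .i [n1,n0,m2,m2,n1,n0,n0,n0,n0,m1,n2] (e' := [n0,n0,n2,n2,m1,n0,n0,n0,n0,n1,m2]) (by decide +kernel)
  (by decide +kernel) (.t t13 ok13) cl3

theorem cl5 : Clo K (Helper55.TR.GH 1 Helper55.TR.BrU [0,0,0,0,0,1]) r20 :=
  .w [n0,n0,n0,n0,n0,n0,n0,n0,n0,n0,n0,n0,n1,m2] (e' := [n1,n0,n0,n0,n0,n0,n0,n0,n0,n0,n0,n0,m1,n2]) (by decide +kernel) (.t
  t17 ok17) (.t t18 ok18)

theorem cl6 : Clo K (Helper55.TR.GH 1 Helper55.TR.BrU [0,0,0,0,0,1]) r19 :=
  .i [n1,n0,n2,n2,m1,n0,n0,n0,n0,n1,m2] (e' := [n0,n0,m2,m2,n1,n0,n0,n0,n0,m1,n2]) (by decide +kernel)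
  (by decide +kernel) cl4 cl5

theorem cl7 : Clo K (Helper55.TR.GH 1 Helper55.TR.BrU [0,0,0,0,0,1]) l18 :=
  .i [n1,n0,m1,m1,n0,n0,n0,n0,n0,m2,m2] (e' := [n0,n0,n1,n1,n0,n0,n0,n0,n0,n2,n2]) (by decide +kernel)
  (by decide +kernel) (.t t12 ok12) cl6

theorem cl8 : Clo K (Helper55.TR.GH 1 Helper55.TR.BrU [0,0,0,0,0,1]) r18 :=
  .w [n0,n0,n0,n0,n0,n0,n0,n0,n0,n0,n0,n0,m1,n2] (e' := [n1,n0,n0,n0,n0,n0,n0,n0,n0,n0,n0,n0,n1,m2]) (by decide +kernel) (.t
  t19 ok19) (.t t20 ok20)

theorem cl9 : Clo K (Helper55.TR.GH 1 Helper55.TR.BrU [0,0,0,0,0,1]) r17 :=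
  .i [n1,n0,n1,n1,n0,n0,n0,n0,n0,n2,n2] (e' := [n0,n0,m1,m1,n0,n0,n0,n0,n0,m2,m2]) (by decide +kernel)
  (by decide +kernel) cl7 cl8

theorem cl10 : Clo K (Helper55.TR.GH 1 Helper55.TR.BrU [0,0,0,0,0,1]) l16 :=
  .i [n1,n0,n2,n2,m1,n0,n0,n0,n0,n0,m1] (e' := [n0,n0,m2,m2,n1,n0,n0,n0,n0,n0,n1]) (by decide +kernel)
  (by decide +kernel) (.t t11 ok11) cl9

theorem cl11 : Clo K (Helper55.TR.GH 1 Helper55.TR.BrU [0,0,0,0,0,1]) r27 :=
  .w [n0,n0,n0,n0,n0,n0,n0,n0,n0,n0,n0,n0,n1,m2] (e' := [n1,n0,n0,n0,n0,n0,n0,n0,n0,n0,n0,n0,m1,n2]) (by decide +kernel) (.t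
  t22 ok22) (.t t23 ok23)

theorem cl12 : Clo K (Helper55.TR.GH 1 Helper55.TR.BrU [0,0,0,0,0,1]) l26 :=
  .i [n1,n0,n1,n1,m1,n0,n0,m1,n0,m1,m2] (e' := [n0,n0,m1,m1,n1,n0,n0,n1,n0,n1,n2]) (by decide +kernel)
  (by decide +kernel) (.t t21 ok21) cl11

theorem cl13 : Clo K (Helper55.TR.GH 1 Helper55.TR.BrU [0,0,0,0,0,1]) r29 :=
  .w [n0,n0,n0,n0,n0,n0,n0,n0,n0,n0,n0,n0,m1,n2] (e' := [n1,n0,n0,n0,n0,n0,n0,n0,n0,n0,n0,n0,n1,m2]) (by decide +kernel) (.t
  t25 ok25) (.t t26 ok26)

theorem cl14 : Clo K (Helper55.TR.GH 1 Helper55.TR.BrU [0,0,0,0,0,1]) r26 :=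
  .w [n0,n0,n0,n0,n0,n0,n0,n0,n0,n0,n0,n0,n1,m2] (e' := [n1,n0,n0,n0,n0,n0,n0,n0,n0,n0,n0,n0,m1,n2]) (by decide +kernel) (.t
  t24 ok24) cl13

theorem cl15 : Clo K (Helper55.TR.GH 1 Helper55.TR.BrU [0,0,0,0,0,1]) r16 :=
  .i [n1,n0,m1,m1,n1,n0,n0,n1,n0,n1,n2] (e' := [n0,n0,n1,n1,m1,n0,n0,m1,n0,m1,m2]) (by decide +kernel)
  (by decide +kernel) cl12 cl14

theorem cl16 : Clo K (Helper55.TR.GH 1 Helper55.TR.BrU [0,0,0,0,0,1]) r13 :=
  .i [n1,n0,m2,m2,n1,n0,n0,n0,n0,n0,n1] (e' := [n0,n0,n2,n2,m1,n0,n0,n0,n0,n0,m1]) (by decide +kernel)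
  (by decide +kernel) cl10 cl15

theorem cl17 : Clo K (Helper55.TR.GH 1 Helper55.TR.BrU [0,0,0,0,0,1]) r12 :=
  .i [n1,n0,m1,m1,n0,n0,n0,m1,n0,m1,m1] (e' := [n0,n0,n1,n1,n0,n0,n0,n1,n0,n1,n1]) (by decide +kernel)
  (by decide +kernel) cl1 cl16

theorem cl18 : Clo K (Helper55.TR.GH 1 Helper55.TR.BrU [0,0,0,0,0,1]) l11 :=
  .i [n1,n0,n3,n3,m1,n0,n0,n1,n0,n0,n1] (e' := [n0,n0,m3,m3,n1,n0,n0,m1,n0,n0,m1]) (by decide +kernel)
  (by decide +kernel) (.t t7 ok7) cl17

theorem cl19 : Clo K (Helper55.TR.GH 1 Helper55.TR.BrU [0,0,0,0,0,1]) r35 :=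
  .w [n0,n0,n0,n0,n0,n0,n0,n0,n0,n0,n0,n0,m1,n2] (e' := [n1,n0,n0,n0,n0,n0,n0,n0,n0,n0,n0,n0,n1,m2]) (by decide +kernel) (.t
  t30 ok30) (.t t31 ok31)

theorem cl20 : Clo K (Helper55.TR.GH 1 Helper55.TR.BrU [0,0,0,0,0,1]) r34 :=
  .w [n0,n0,n0,n0,n0,n0,n0,n0,n0,n0,n0,n0,n1,m2] (e' := [n1,n0,n0,n0,n0,n0,n0,n0,n0,n0,n0,n0,m1,n2]) (by decide +kernel) (.t
  t29 ok29) cl19

theorem cl21 : Clo K (Helper55.TR.GH 1 Helper55.TR.BrU [0,0,0,0,0,1]) l33 :=
  .i [n1,n0,m4,m4,n1,n0,n0,n0,n0,n0,m7] (e' := [n0,n0,n4,n4,m1,n0,n0,n0,n0,n0,n7]) (by decide +kernel)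
  (by decide +kernel) (.t t28 ok28) cl20

theorem cl22 : Clo K (Helper55.TR.GH 1 Helper55.TR.BrU [0,0,0,0,0,1]) r33 :=
  .w [n0,n0,n0,n0,n0,n0,n0,n0,n0,n0,n0,n0,m1,n2] (e' := [n1,n0,n0,n0,n0,n0,n0,n0,n0,n0,n0,n0,n1,m2]) (by decide +kernel) (.t
  t32 ok32) (.t t33 ok33)

theorem cl23 : Clo K (Helper55.TR.GH 1 Helper55.TR.BrU [0,0,0,0,0,1]) r32 :=
  .i [n1,n0,n4,n4,m1,n0,n0,n0,n0,n0,n7] (e' := [n0,n0,m4,m4,n1,n0,n0,n0,n0,n0,m7]) (by decide +kernel)
  (by decide +kernel) cl21 cl22

theorem cl24 : Clo K (Helper55.TR.GH 1 Helper55.TR.BrU [0,0,0,0,0,1]) l31 :=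
  .i [n1,n0,n2,n2,m1,n0,n0,n0,n0,n1,m2] (e' := [n0,n0,m2,m2,n1,n0,n0,n0,n0,m1,n2]) (by decide +kernel)
  (by decide +kernel) (.t t27 ok27) cl23

theorem cl25 : Clo K (Helper55.TR.GH 1 Helper55.TR.BrU [0,0,0,0,0,1]) r40 :=
  .w [n0,n0,n0,n0,n0,n0,n0,n0,n0,n0,n0,n0,n1,m2] (e' := [n1,n0,n0,n0,n0,n0,n0,n0,n0,n0,n0,n0,m1,n2]) (by decide +kernel) (.t
  t36 ok36) (.t t37 ok37)

theorem cl26 : Clo K (Helper55.TR.GH 1 Helper55.TR.BrU [0,0,0,0,0,1]) r39 :=
  .w [n0,n0,n0,n0,n0,n0,n0,n0,n0,n0,n0,n0,m1,n2] (e' := [n1,n0,n0,n0,n0,n0,n0,n0,n0,n0,n0,n0,n1,m2]) (by decide +kernel) (.t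
  t35 ok35) cl25

theorem cl27 : Clo K (Helper55.TR.GH 1 Helper55.TR.BrU [0,0,0,0,0,1]) l38 :=
  .i [n1,n0,m1,m1,n1,n0,n0,n1,n0,n1,n2] (e' := [n0,n0,n1,n1,m1,n0,n0,m1,n0,m1,m2]) (by decide +kernel)
  (by decide +kernel) (.t t34 ok34) cl26

theorem cl28 : Clo K (Helper55.TR.GH 1 Helper55.TR.BrU [0,0,0,0,0,1]) r44 :=
  .w [n0,n0,n0,n0,n0,n0,n0,n0,n0,n0,n0,n0,m1,n2] (e' := [n1,n0,n0,n0,n0,n0,n0,n0,n0,n0,n0,n0,n1,m2]) (by decide +kernel) (.t
  t40 ok40) (.t t41 ok41)

theorem cl29 : Clo K (Helper55.TR.GH 1 Helper55.TR.BrU [0,0,0,0,0,1]) r43 :=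
  .w [n0,n0,n0,n0,n0,n0,n0,n0,n0,n0,n0,n0,n1,m2] (e' := [n1,n0,n0,n0,n0,n0,n0,n0,n0,n0,n0,n0,m1,n2]) (by decide +kernel) (.t
  t39 ok39) cl28

theorem cl30 : Clo K (Helper55.TR.GH 1 Helper55.TR.BrU [0,0,0,0,0,1]) l42 :=
  .i [n1,n0,n2,n2,m1,n0,n0,n0,n0,n0,m1] (e' := [n0,n0,m2,m2,n1,n0,n0,n0,n0,n0,n1]) (by decide +kernel)
  (by decide +kernel) (.t t38 ok38) cl29

theorem cl31 : Clo K (Helper55.TR.GH 1 Helper55.TR.BrU [0,0,0,0,0,1]) r47 :=
  .w [n0,n0,n0,n0,n0,n0,n0,n0,n0,n0,n0,n0,n1,m2] (e' := [n1,n0,n0,n0,n0,n0,n0,n0,n0,n0,n0,n0,m1,n2]) (by decide +kernel) (.t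
  t43 ok43) (.t t44 ok44)

theorem cl32 : Clo K (Helper55.TR.GH 1 Helper55.TR.BrU [0,0,0,0,0,1]) l46 :=
  .i [n1,n0,n1,n1,n0,n0,n0,n0,n0,n2,n2] (e' := [n0,n0,m1,m1,n0,n0,n0,n0,n0,m2,m2]) (by decide +kernel)
  (by decide +kernel) (.t t42 ok42) cl31

theorem cl33 : Clo K (Helper55.TR.GH 1 Helper55.TR.BrU [0,0,0,0,0,1]) r53 :=
  .w [n0,n0,n0,n0,n0,n0,n0,n0,n0,n0,n0,n0,m1,n2] (e' := [n1,n0,n0,n0,n0,n0,n0,n0,n0,n0,n0,n0,n1,m2]) (by decide +kernel) (.t
  t48 ok48) (.t t49 ok49)

theorem cl34 : Clo K (Helper55.TR.GH 1 Helper55.TR.BrU [0,0,0,0,0,1]) r52 :=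
  .w [n0,n0,n0,n0,n0,n0,n0,n0,n0,n0,n0,n0,n1,m2] (e' := [n1,n0,n0,n0,n0,n0,n0,n0,n0,n0,n0,n0,m1,n2]) (by decide +kernel) (.t
  t47 ok47) cl33

theorem cl35 : Clo K (Helper55.TR.GH 1 Helper55.TR.BrU [0,0,0,0,0,1]) l51 :=
  .i [n1,n0,n3,n3,m2,n0,n0,n0,n0,n0,m7] (e' := [n0,n0,m3,m3,n2,n0,n0,n0,n0,n0,n7]) (by decide +kernel)
  (by decide +kernel) (.t t46 ok46) cl34

theorem cl36 : Clo K (Helper55.TR.GH 1 Helper55.TR.BrU [0,0,0,0,0,1]) r51 :=
  .w [n0,n0,n0,n0,n0,n0,n0,n0,n0,n0,n0,n0,n1,m2] (e' := [n1,n0,n0,n0,n0,n0,n0,n0,n0,n0,n0,n0,m1,n2]) (by decide +kernel) (.t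
  t50 ok50) (.t t51 ok51)

theorem cl37 : Clo K (Helper55.TR.GH 1 Helper55.TR.BrU [0,0,0,0,0,1]) r50 :=
  .i [n1,n0,m3,m3,n2,n0,n0,n0,n0,n0,n7] (e' := [n0,n0,n3,n3,m2,n0,n0,n0,n0,n0,m7]) (by decide +kernel)
  (by decide +kernel) cl35 cl36

theorem cl38 : Clo K (Helper55.TR.GH 1 Helper55.TR.BrU [0,0,0,0,0,1]) l49 :=
  .i [n1,n0,n1,n1,m1,n0,n0,n0,n0,n0,m6] (e' := [n0,n0,m1,m1,n1,n0,n0,n0,n0,n0,n6]) (by decide +kernel)
  (by decide +kernel) (.t t45 ok45) cl37

theorem cl39 : Clo K (Helper55.TR.GH 1 Helper55.TR.BrU [0,0,0,0,0,1]) r49 :=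
  .w [n0,n0,n0,n0,n0,n0,n0,n0,n0,n0,n0,n0,m1,n2] (e' := [n1,n0,n0,n0,n0,n0,n0,n0,n0,n0,n0,n0,n1,m2]) (by decide +kernel) (.t
  t52 ok52) (.t t53 ok53)

theorem cl40 : Clo K (Helper55.TR.GH 1 Helper55.TR.BrU [0,0,0,0,0,1]) r46 :=
  .i [n1,n0,m1,m1,n1,n0,n0,n0,n0,n0,n6] (e' := [n0,n0,n1,n1,m1,n0,n0,n0,n0,n0,m6]) (by decide +kernel)
  (by decide +kernel) cl38 cl39

theorem cl41 : Clo K (Helper55.TR.GH 1 Helper55.TR.BrU [0,0,0,0,0,1]) r42 :=
  .i [n1,n0,m1,m1,n0,n0,n0,n0,n0,m2,m2] (e' := [n0,n0,n1,n1,n0,n0,n0,n0,n0,n2,n2]) (by decide +kernel)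
  (by decide +kernel) cl32 cl40

theorem cl42 : Clo K (Helper55.TR.GH 1 Helper55.TR.BrU [0,0,0,0,0,1]) r38 :=
  .i [n1,n0,m2,m2,n1,n0,n0,n0,n0,n0,n1] (e' := [n0,n0,n2,n2,m1,n0,n0,n0,n0,n0,m1]) (by decide +kernel)
  (by decide +kernel) cl30 cl41

theorem cl43 : Clo K (Helper55.TR.GH 1 Helper55.TR.BrU [0,0,0,0,0,1]) r31 :=
  .i [n1,n0,n1,n1,m1,n0,n0,m1,n0,m1,m2] (e' := [n0,n0,m1,m1,n1,n0,n0,n1,n0,n1,n2]) (by decide +kernel)
  (by decide +kernel) cl27 cl42

theorem cl44 : Clo K (Helper55.TR.GH 1 Helper55.TR.BrU [0,0,0,0,0,1]) r11 :=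
  .i [n1,n0,m2,m2,n1,n0,n0,n0,n0,m1,n2] (e' := [n0,n0,n2,n2,m1,n0,n0,n0,n0,n1,m2]) (by decide +kernel)
  (by decide +kernel) cl24 cl43

theorem cl45 : Clo K (Helper55.TR.GH 1 Helper55.TR.BrU [0,0,0,0,0,1]) r10 :=
  .i [n1,n0,m3,m3,n1,n0,n0,m1,n0,n0,m1] (e' := [n0,n0,n3,n3,m1,n0,n0,n1,n0,n0,n1]) (by decide +kernel)
  (by decide +kernel) cl18 cl44

theorem cl46 : Clo K (Helper55.TR.GH 1 Helper55.TR.BrU [0,0,0,0,0,1]) r9 :=
  .i [n1,n0,n1,n1,m1,n0,n0,m1,n0,m2,m1] (e' := [n0,n0,m1,m1,n1,n0,n0,n1,n0,n2,n1]) (by decide +kernel)
  (by decide +kernel) (.t t6 ok6) cl45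

theorem cl47 : Clo K (Helper55.TR.GH 1 Helper55.TR.BrU [0,0,0,0,0,1]) l8 :=
  .i [n0,n0,n0,n0,n0,n0,m1,n0,n2] (e' := [n1,n0,n0,n0,n0,n0,n1,n0,m2]) (by decide +kernel) (by decide +kernel) (.t
  t5 ok5) cl46

theorem cl48 : Clo K (Helper55.TR.GH 1 Helper55.TR.BrU [0,0,0,0,0,1]) r7 :=
  .i [n1,n0,n0,n0,n0,n0,n0,n1,n0,m2] (e' := [n0,n0,n0,n0,n0,n0,n0,m1,n0,n2]) (by decide +kernel) (by decide +kernel)
  cl47 (.t t54 ok54)

theorem cl49 : Clo K (Helper55.TR.GH 1 Helper55.TR.BrU [0,0,0,0,0,1]) r6 :=
  .i [n0,n1,n0,n0,n0,n0,n0,n1,n0,m1] (e' := [n1,m1,n0,n0,n0,n0,n0,m1,n0,n1]) (by decide +kernel) (by decide +kernel)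
  (.t t4 ok4) cl48

theorem cl50 : Clo K (Helper55.TR.GH 1 Helper55.TR.BrU [0,0,0,0,0,1]) l5 :=
  .i [n1,n0,n0,n0,n0,n0,n0,n0,n0,m1,n1] (e' := [n0,n0,n0,n0,n0,n0,n0,n0,n0,n1,m1]) (by decide +kernel)
  (by decide +kernel) (.t t3 ok3) cl49

theorem cl51 : Clo K (Helper55.TR.GH 1 Helper55.TR.BrU [0,0,0,0,0,1]) l67 :=
  .w [n0,n0,n0,n0,n0,n0,n0,n0,n0,n0,n0,n0,n1,m2] (e' := [n1,n0,n0,n0,n0,n0,n0,n0,n0,n0,n0,n0,m1,n2]) (by decide +kernel) (.t
  t60 ok60) (.t t61 ok61)

theorem cl52 : Clo K (Helper55.TR.GH 1 Helper55.TR.BrU [0,0,0,0,0,1]) r73 :=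
  .w [n0,n0,n0,n0,n0,n0,n0,n0,n0,n0,n0,n0,m1,n2] (e' := [n1,n0,n0,n0,n0,n0,n0,n0,n0,n0,n0,n0,n1,m2]) (by decide +kernel) (.t
  t65 ok65) (.t t66 ok66)

theorem cl53 : Clo K (Helper55.TR.GH 1 Helper55.TR.BrU [0,0,0,0,0,1]) l72 :=
  .i [n1,n0,m3,m3,n1,n0,n0,m2] (e' := [n0,n0,n3,n3,m1,n0,n0,n2]) (by decide +kernel) (by decide +kernel) (.t
  t64 ok64) cl52

theorem cl54 : Clo K (Helper55.TR.GH 1 Helper55.TR.BrU [0,0,0,0,0,1]) r71 :=
  .i [n1,n0,n3,n3,m1,n0,n0,n2] (e' := [n0,n0,m3,m3,n1,n0,n0,m2]) (by decide +kernel) (by decide +kernel) cl53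
  (.t t67 ok67)

theorem cl55 : Clo K (Helper55.TR.GH 1 Helper55.TR.BrU [0,0,0,0,0,1]) r70 :=
  .w [n0,n0,n0,n0,n0,n0,n0,n0,n0,n0,n0,n0,n1,m2] (e' := [n1,n0,n0,n0,n0,n0,n0,n0,n0,n0,n0,n0,m1,n2]) (by decide +kernel) (.t
  t63 ok63) cl54

theorem cl56 : Clo K (Helper55.TR.GH 1 Helper55.TR.BrU [0,0,0,0,0,1]) l69 :=
  .i [n1,n0,m1,m1,n0,n0,n0,m1,n0,m2,m1] (e' := [n0,n0,n1,n1,n0,n0,n0,n1,n0,n2,n1]) (by decide +kernel)
  (by decide +kernel) (.t t62 ok62) cl55

theorem cl57 : Clo K (Helper55.TR.GH 1 Helper55.TR.BrU [0,0,0,0,0,1]) r80 :=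
  .w [n0,n0,n0,n0,n0,n0,n0,n0,n0,n0,n0,n0,m1,n2] (e' := [n1,n0,n0,n0,n0,n0,n0,n0,n0,n0,n0,n0,n1,m2]) (by decide +kernel) (.t
  t72 ok72) (.t t73 ok73)

theorem cl58 : Clo K (Helper55.TR.GH 1 Helper55.TR.BrU [0,0,0,0,0,1]) r79 :=
  .w [n0,n0,n0,n0,n0,n0,n0,n0,n0,n0,n0,n0,n1,m2] (e' := [n1,n0,n0,n0,n0,n0,n0,n0,n0,n0,n0,n0,m1,n2]) (by decide +kernel) (.t
  t71 ok71) cl57

theorem cl59 : Clo K (Helper55.TR.GH 1 Helper55.TR.BrU [0,0,0,0,0,1]) l78 :=
  .i [n1,n0,n1,n1,m1,n0,n0,m2,n0,m2] (e' := [n0,n0,m1,m1,n1,n0,n0,n2,n0,n2]) (by decide +kernel)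
  (by decide +kernel) (.t t70 ok70) cl58

theorem cl60 : Clo K (Helper55.TR.GH 1 Helper55.TR.BrU [0,0,0,0,0,1]) r82 :=
  .w [n0,n0,n0,n0,n0,n0,n0,n0,n0,n0,n0,n0,n1,m2] (e' := [n1,n0,n0,n0,n0,n0,n0,n0,n0,n0,n0,n0,m1,n2]) (by decide +kernel) (.t
  t75 ok75) (.t t76 ok76)

theorem cl61 : Clo K (Helper55.TR.GH 1 Helper55.TR.BrU [0,0,0,0,0,1]) r78 :=
  .w [n0,n0,n0,n0,n0,n0,n0,n0,n0,n0,n0,n0,m1,n2] (e' := [n1,n0,n0,n0,n0,n0,n0,n0,n0,n0,n0,n0,n1,m2]) (by decide +kernel) (.t
  t74 ok74) cl60

theorem cl62 : Clo K (Helper55.TR.GH 1 Helper55.TR.BrU [0,0,0,0,0,1]) r77 :=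
  .i [n1,n0,m1,m1,n1,n0,n0,n2,n0,n2] (e' := [n0,n0,n1,n1,m1,n0,n0,m2,n0,m2]) (by decide +kernel)
  (by decide +kernel) cl59 cl61

theorem cl63 : Clo K (Helper55.TR.GH 1 Helper55.TR.BrU [0,0,0,0,0,1]) l76 :=
  .i [n1,n0,m1,m1,n0,n0,n0,m1,n0,m1,m2] (e' := [n0,n0,n1,n1,n0,n0,n0,n1,n0,n1,n2]) (by decide +kernel)
  (by decide +kernel) (.t t69 ok69) cl62

theorem cl64 : Clo K (Helper55.TR.GH 1 Helper55.TR.BrU [0,0,0,0,0,1]) r86 :=
  .w [n0,n0,n0,n0,n0,n0,n0,n0,n0,n0,n0,n0,n1,m2] (e' := [n1,n0,n0,n0,n0,n0,n0,n0,n0,n0,n0,n0,m1,n2]) (by decide +kernel) (.t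
  t79 ok79) (.t t80 ok80)

theorem cl65 : Clo K (Helper55.TR.GH 1 Helper55.TR.BrU [0,0,0,0,0,1]) r85 :=
  .w [n0,n0,n0,n0,n0,n0,n0,n0,n0,n0,n0,n0,m1,n2] (e' := [n1,n0,n0,n0,n0,n0,n0,n0,n0,n0,n0,n0,n1,m2]) (by decide +kernel) (.t
  t78 ok78) cl64

theorem cl66 : Clo K (Helper55.TR.GH 1 Helper55.TR.BrU [0,0,0,0,0,1]) l84 :=
  .i [n1,n0,n1,n1,m1,n0,n0,m2,n0,m2] (e' := [n0,n0,m1,m1,n1,n0,n0,n2,n0,n2]) (by decide +kernel)
  (by decide +kernel) (.t t77 ok77) cl65

theorem cl67 : Clo K (Helper55.TR.GH 1 Helper55.TR.BrU [0,0,0,0,0,1]) r88 :=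
  .w [n0,n0,n0,n0,n0,n0,n0,n0,n0,n0,n0,n0,n1,m2] (e' := [n1,n0,n0,n0,n0,n0,n0,n0,n0,n0,n0,n0,m1,n2]) (by decide +kernel) (.t
  t82 ok82) (.t t83 ok83)

theorem cl68 : Clo K (Helper55.TR.GH 1 Helper55.TR.BrU [0,0,0,0,0,1]) r84 :=
  .w [n0,n0,n0,n0,n0,n0,n0,n0,n0,n0,n0,n0,m1,n2] (e' := [n1,n0,n0,n0,n0,n0,n0,n0,n0,n0,n0,n0,n1,m2]) (by decide +kernel) (.t
  t81 ok81) cl67

theorem cl69 : Clo K (Helper55.TR.GH 1 Helper55.TR.BrU [0,0,0,0,0,1]) r76 :=
  .i [n1,n0,m1,m1,n1,n0,n0,n2,n0,n2] (e' := [n0,n0,n1,n1,m1,n0,n0,m2,n0,m2]) (by decide +kernel)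
  (by decide +kernel) cl66 cl68

theorem cl70 : Clo K (Helper55.TR.GH 1 Helper55.TR.BrU [0,0,0,0,0,1]) r75 :=
  .i [n1,n0,n1,n1,n0,n0,n0,n1,n0,n1,n2] (e' := [n0,n0,m1,m1,n0,n0,n0,m1,n0,m1,m2]) (by decide +kernel)
  (by decide +kernel) cl63 cl69

theorem cl71 : Clo K (Helper55.TR.GH 1 Helper55.TR.BrU [0,0,0,0,0,1]) r69 :=
  .i [n1,n0,n1,n1,m1,n0,n0,m2,n0,m1,m1] (e' := [n0,n0,m1,m1,n1,n0,n0,n2,n0,n1,n1]) (by decide +kernel)
  (by decide +kernel) (.t t68 ok68) cl70

theorem cl72 : Clo K (Helper55.TR.GH 1 Helper55.TR.BrU [0,0,0,0,0,1]) r67 :=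
  .i [n1,n0,n1,n1,n0,n0,n0,n1,n0,n2,n1] (e' := [n0,n0,m1,m1,n0,n0,n0,m1,n0,m2,m1]) (by decide +kernel)
  (by decide +kernel) cl56 cl71

theorem cl73 : Clo K (Helper55.TR.GH 1 Helper55.TR.BrU [0,0,0,0,0,1]) r66 :=
  .i [n1,n0,m3,m3,n2,n0,n0,n0,n0,n0,n8] (e' := [n0,n0,n3,n3,m2,n0,n0,n0,n0,n0,m8]) (by decide +kernel)
  (by decide +kernel) cl51 cl72

theorem cl74 : Clo K (Helper55.TR.GH 1 Helper55.TR.BrU [0,0,0,0,0,1]) l65 :=
  .i [n0,n0,n0,n0,n0,n0,m1,n0,n2] (e' := [n1,n0,n0,n0,n0,n0,n1,n0,m2]) (by decide +kernel) (by decide +kernel) (.t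
  t59 ok59) cl73

theorem cl75 : Clo K (Helper55.TR.GH 1 Helper55.TR.BrU [0,0,0,0,0,1]) r64 :=
  .i [n1,n0,n0,n0,n0,n0,n0,n1,n0,m2] (e' := [n0,n0,n0,n0,n0,n0,n0,m1,n0,n2]) (by decide +kernel) (by decide +kernel)
  cl74 (.t t84 ok84)

theorem cl76 : Clo K (Helper55.TR.GH 1 Helper55.TR.BrU [0,0,0,0,0,1]) l63 :=
  .i [n0,m1,n0,n0,n0,n0,n0,m1,n0,n1] (e' := [n1,n1,n0,n0,n0,n0,n0,n1,n0,m1]) (by decide +kernel) (by decide +kernel)
  (.t t58 ok58) cl75

theorem cl77 : Clo K (Helper55.TR.GH 1 Helper55.TR.BrU [0,0,0,0,0,1]) l90 :=
  .w [n0,n0,n0,n0,n0,n0,n0,n0,n0,n0,n0,n0,n1,m2] (e' := [n1,n0,n0,n0,n0,n0,n0,n0,n0,n0,n0,n0,m1,n2]) (by decide +kernel) (.t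
  t85 ok85) (.t t86 ok86)

theorem cl78 : Clo K (Helper55.TR.GH 1 Helper55.TR.BrU [0,0,0,0,0,1]) r63 :=
  .i [n1,n0,n0,n0,n0,n0,n0,n1,n0,m2] (e' := [n0,n0,n0,n0,n0,n0,n0,m1,n0,n2]) (by decide +kernel) (by decide +kernel)
  cl77 (.t t87 ok87)

theorem cl79 : Clo K (Helper55.TR.GH 1 Helper55.TR.BrU [0,0,0,0,0,1]) r62 :=
  .i [n1,n0,m1,m1,n1,n0,n0,n2,n0,n1,n1] (e' := [n0,n0,n1,n1,m1,n0,n0,m2,n0,m1,m1]) (by decide +kernel)
  (by decide +kernel) cl76 cl78

theorem cl80 : Clo K (Helper55.TR.GH 1 Helper55.TR.BrU [0,0,0,0,0,1]) l61 :=
  .i [n1,n0,n2,n2,m1,n0,n0,m1,n0,n0,n1] (e' := [n0,n0,m2,m2,n1,n0,n0,n1,n0,n0,m1]) (by decide +kernel)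
  (by decide +kernel) (.t t57 ok57) cl79

theorem cl81 : Clo K (Helper55.TR.GH 1 Helper55.TR.BrU [0,0,0,0,0,1]) r60 :=
  .i [n1,m1,n0,n0,n0,n0,n0,m1,n0,n1] (e' := [n0,n1,n0,n0,n0,n0,n0,n1,n0,m1]) (by decide +kernel) (by decide +kernel)
  cl80 (.t t88 ok88)

theorem cl82 : Clo K (Helper55.TR.GH 1 Helper55.TR.BrU [0,0,0,0,0,1]) l59 :=
  .i [n1,n0,n2,n2,m1,n0,n0,n0,n0,m2,n1] (e' := [n0,n0,m2,m2,n1,n0,n0,n0,n0,n2,m1]) (by decide +kernel)
  (by decide +kernel) (.t t56 ok56) cl81

theorem cl83 : Clo K (Helper55.TR.GH 1 Helper55.TR.BrU [0,0,0,0,0,1]) r98 :=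
  .w [n0,n0,n0,n0,n0,n0,n0,n0,n0,n0,n0,n0,n1,m2] (e' := [n1,n0,n0,n0,n0,n0,n0,n0,n0,n0,n0,n0,m1,n2]) (by decide +kernel) (.t
  t93 ok93) (.t t94 ok94)

theorem cl84 : Clo K (Helper55.TR.GH 1 Helper55.TR.BrU [0,0,0,0,0,1]) l97 :=
  .i [n1,n0,n1,n1,m1,n0,n0,m2,n0,n0,m2] (e' := [n0,n0,m1,m1,n1,n0,n0,n2,n0,n0,n2]) (by decide +kernel)
  (by decide +kernel) (.t t92 ok92) cl83

theorem cl85 : Clo K (Helper55.TR.GH 1 Helper55.TR.BrU [0,0,0,0,0,1]) r101 :=
  .w [n0,n0,n0,n0,n0,n0,n0,n0,n0,n0,n0,n0,n1,m2] (e' := [n1,n0,n0,n0,n0,n0,n0,n0,n0,n0,n0,n0,m1,n2]) (by decide +kernel) (.t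
  t96 ok96) (.t t97 ok97)

theorem cl86 : Clo K (Helper55.TR.GH 1 Helper55.TR.BrU [0,0,0,0,0,1]) l100 :=
  .i [n1,n0,m3,m3,n1,n0,n0,n0,n0,n0,m4] (e' := [n0,n0,n3,n3,m1,n0,n0,n0,n0,n0,n4]) (by decide +kernel)
  (by decide +kernel) (.t t95 ok95) cl85

theorem cl87 : Clo K (Helper55.TR.GH 1 Helper55.TR.BrU [0,0,0,0,0,1]) r103 :=
  .w [n0,n0,n0,n0,n0,n0,n0,n0,n0,n0,n0,n0,n1,m2] (e' := [n1,n0,n0,n0,n0,n0,n0,n0,n0,n0,n0,n0,m1,n2]) (by decide +kernel) (.t
  t99 ok99) (.t t100 ok100)

theorem cl88 : Clo K (Helper55.TR.GH 1 Helper55.TR.BrU [0,0,0,0,0,1]) r100 :=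
  .w [n0,n0,n0,n0,n0,n0,n0,n0,n0,n0,n0,n0,m1,n2] (e' := [n1,n0,n0,n0,n0,n0,n0,n0,n0,n0,n0,n0,n1,m2]) (by decide +kernel) (.t
  t98 ok98) cl87

theorem cl89 : Clo K (Helper55.TR.GH 1 Helper55.TR.BrU [0,0,0,0,0,1]) r97 :=
  .i [n1,n0,n3,n3,m1,n0,n0,n0,n0,n0,n4] (e' := [n0,n0,m3,m3,n1,n0,n0,n0,n0,n0,m4]) (by decide +kernel)
  (by decide +kernel) cl86 cl88

theorem cl90 : Clo K (Helper55.TR.GH 1 Helper55.TR.BrU [0,0,0,0,0,1]) r96 :=
  .i [n1,n0,m1,m1,n1,n0,n0,n2,n0,n0,n2] (e' := [n0,n0,n1,n1,m1,n0,n0,m2,n0,n0,m2]) (by decide +kernel)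
  (by decide +kernel) cl84 cl89

theorem cl91 : Clo K (Helper55.TR.GH 1 Helper55.TR.BrU [0,0,0,0,0,1]) l95 :=
  .i [n1,n0,n3,n3,m1,n0,n0,n0,n0,n0,n5] (e' := [n0,n0,m3,m3,n1,n0,n0,n0,n0,n0,m5]) (by decide +kernel)
  (by decide +kernel) (.t t91 ok91) cl90

theorem cl92 : Clo K (Helper55.TR.GH 1 Helper55.TR.BrU [0,0,0,0,0,1]) r105 :=
  .w [n0,n0,n0,n0,n0,n0,n0,n0,n0,n0,n0,n0,n1,m2] (e' := [n1,n0,n0,n0,n0,n0,n0,n0,n0,n0,n0,n0,m1,n2]) (by decide +kernel) (.t
  t102 ok102) (.t t103 ok103)

theorem cl93 : Clo K (Helper55.TR.GH 1 Helper55.TR.BrU [0,0,0,0,0,1]) r95 :=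
  .w [n0,n0,n0,n0,n0,n0,n0,n0,n0,n0,n0,n0,m1,n2] (e' := [n1,n0,n0,n0,n0,n0,n0,n0,n0,n0,n0,n0,n1,m2]) (by decide +kernel) (.t
  t101 ok101) cl92

theorem cl94 : Clo K (Helper55.TR.GH 1 Helper55.TR.BrU [0,0,0,0,0,1]) r94 :=
  .i [n1,n0,m3,m3,n1,n0,n0,n0,n0,n0,m5] (e' := [n0,n0,n3,n3,m1,n0,n0,n0,n0,n0,n5]) (by decide +kernel)
  (by decide +kernel) cl91 cl93

theorem cl95 : Clo K (Helper55.TR.GH 1 Helper55.TR.BrU [0,0,0,0,0,1]) l93 :=
  .i [n0,n0,n0,n0,n0,n0,m1,n0,n2] (e' := [n1,n0,n0,n0,n0,n0,n1,n0,m2]) (by decide +kernel) (by decide +kernel) (.t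
  t90 ok90) cl94

theorem cl96 : Clo K (Helper55.TR.GH 1 Helper55.TR.BrU [0,0,0,0,0,1]) r92 :=
  .i [n1,n0,n0,n0,n0,n0,n0,n1,n0,m2] (e' := [n0,n0,n0,n0,n0,n0,n0,m1,n0,n2]) (by decide +kernel) (by decide +kernel)
  cl95 (.t t104 ok104)

theorem cl97 : Clo K (Helper55.TR.GH 1 Helper55.TR.BrU [0,0,0,0,0,1]) r59 :=
  .i [n0,n1,n0,n0,n0,n0,n0,n1,n0,m1] (e' := [n1,m1,n0,n0,n0,n0,n0,m1,n0,n1]) (by decide +kernel) (by decide +kernel)
  (.t t89 ok89) cl96

theorem cl98 : Clo K (Helper55.TR.GH 1 Helper55.TR.BrU [0,0,0,0,0,1]) r58 :=
  .i [n1,n0,m2,m2,n1,n0,n0,n0,n0,n2,m1] (e' := [n0,n0,n2,n2,m1,n0,n0,n0,n0,m2,n1]) (by decide +kernel)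
  (by decide +kernel) cl82 cl97

theorem cl99 : Clo K (Helper55.TR.GH 1 Helper55.TR.BrU [0,0,0,0,0,1]) l57 :=
  .i [n1,n0,m1,m1,n0,n0,n0,m2,n0,m1,n1] (e' := [n0,n0,n1,n1,n0,n0,n0,n2,n0,n1,m1]) (by decide +kernel)
  (by decide +kernel) (.t t55 ok55) cl98

theorem cl100 : Clo K (Helper55.TR.GH 1 Helper55.TR.BrU [0,0,0,0,0,1]) r114 :=
  .w [n0,n0,n0,n0,n0,n0,n0,n0,n0,n0,n0,n0,m1,n2] (e' := [n1,n0,n0,n0,n0,n0,n0,n0,n0,n0,n0,n0,n1,m2]) (by decide +kernel) (.t
  t109 ok109) (.t t110 ok110)

theorem cl101 : Clo K (Helper55.TR.GH 1 Helper55.TR.BrU [0,0,0,0,0,1]) r113 :=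
  .w [n0,n0,n0,n0,n0,n0,n0,n0,n0,n0,n0,n0,n1,m2] (e' := [n1,n0,n0,n0,n0,n0,n0,n0,n0,n0,n0,n0,m1,n2]) (by decide +kernel) (.t
  t108 ok108) cl100

theorem cl102 : Clo K (Helper55.TR.GH 1 Helper55.TR.BrU [0,0,0,0,0,1]) l112 :=
  .i [n1,n0,n3,n3,m2,n0,n0,n0,n0,n0,m8] (e' := [n0,n0,m3,m3,n2,n0,n0,n0,n0,n0,n8]) (by decide +kernel)
  (by decide +kernel) (.t t107 ok107) cl101

theorem cl103 : Clo K (Helper55.TR.GH 1 Helper55.TR.BrU [0,0,0,0,0,1]) r116 :=
  .w [n0,n0,n0,n0,n0,n0,n0,n0,n0,n0,n0,n0,n1,m2] (e' := [n1,n0,n0,n0,n0,n0,n0,n0,n0,n0,n0,n0,m1,n2]) (by decide +kernel) (.t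
  t112 ok112) (.t t113 ok113)

theorem cl104 : Clo K (Helper55.TR.GH 1 Helper55.TR.BrU [0,0,0,0,0,1]) r112 :=
  .w [n0,n0,n0,n0,n0,n0,n0,n0,n0,n0,n0,n0,m1,n2] (e' := [n1,n0,n0,n0,n0,n0,n0,n0,n0,n0,n0,n0,n1,m2]) (by decide +kernel) (.t
  t111 ok111) cl103

theorem cl105 : Clo K (Helper55.TR.GH 1 Helper55.TR.BrU [0,0,0,0,0,1]) r111 :=
  .i [n1,n0,m3,m3,n2,n0,n0,n0,n0,n0,n8] (e' := [n0,n0,n3,n3,m2,n0,n0,n0,n0,n0,m8]) (by decide +kernel)
  (by decide +kernel) cl102 cl104

theorem cl106 : Clo K (Helper55.TR.GH 1 Helper55.TR.BrU [0,0,0,0,0,1]) l110 :=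
  .i [n0,n0,n0,n0,n0,n0,m1,n0,n2] (e' := [n1,n0,n0,n0,n0,n0,n1,n0,m2]) (by decide +kernel) (by decide +kernel) (.t
  t106 ok106) cl105

theorem cl107 : Clo K (Helper55.TR.GH 1 Helper55.TR.BrU [0,0,0,0,0,1]) l109 :=
  .i [n1,n0,n0,n0,n0,n0,n0,n1,n0,m2] (e' := [n0,n0,n0,n0,n0,n0,n0,m1,n0,n2]) (by decide +kernel) (by decide +kernel)
  cl106 (.t t114 ok114)

theorem cl108 : Clo K (Helper55.TR.GH 1 Helper55.TR.BrU [0,0,0,0,0,1]) r108 :=
  .i [n1,m1,n0,n0,n0,n0,n0,m1,n0,n1] (e' := [n0,n1,n0,n0,n0,n0,n0,n1,n0,m1]) (by decide +kernel) (by decide +kernel)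
  cl107 (.t t115 ok115)

theorem cl109 : Clo K (Helper55.TR.GH 1 Helper55.TR.BrU [0,0,0,0,0,1]) l107 :=
  .i [n1,n0,m1,m1,n1,n0,n0,n0,n0,n0,n7] (e' := [n0,n0,n1,n1,m1,n0,n0,n0,n0,n0,m7]) (by decide +kernel)
  (by decide +kernel) (.t t105 ok105) cl108

theorem cl110 : Clo K (Helper55.TR.GH 1 Helper55.TR.BrU [0,0,0,0,0,1]) r122 :=
  .w [n0,n0,n0,n0,n0,n0,n0,n0,n0,n0,n0,n0,n1,m2] (e' := [n1,n0,n0,n0,n0,n0,n0,n0,n0,n0,n0,n0,m1,n2]) (by decide +kernel) (.t
  t120 ok120) (.t t121 ok121)

theorem cl111 : Clo K (Helper55.TR.GH 1 Helper55.TR.BrU [0,0,0,0,0,1]) r121 :=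
  .i [n0,n0,n0,n0,n0,n0,m1,n0,n2] (e' := [n1,n0,n0,n0,n0,n0,n1,n0,m2]) (by decide +kernel) (by decide +kernel) (.t
  t119 ok119) cl110

theorem cl112 : Clo K (Helper55.TR.GH 1 Helper55.TR.BrU [0,0,0,0,0,1]) r120 :=
  .i [n0,m1,n0,n0,n0,n0,n0,m1,n0,n1] (e' := [n1,n1,n0,n0,n0,n0,n0,n1,n0,m1]) (by decide +kernel) (by decide +kernel)
  (.t t118 ok118) cl111

theorem cl113 : Clo K (Helper55.TR.GH 1 Helper55.TR.BrU [0,0,0,0,0,1]) r119 :=
  .i [n1,n0,m1,m1,n1,n0,n0,n2,n0,n0,n2] (e' := [n0,n0,n1,n1,m1,n0,n0,m2,n0,n0,m2]) (by decide +kernel)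
  (by decide +kernel) (.t t117 ok117) cl112

theorem cl114 : Clo K (Helper55.TR.GH 1 Helper55.TR.BrU [0,0,0,0,0,1]) l118 :=
  .i [n0,n1,n0,n0,n0,n0,n0,n1,n0,m1] (e' := [n1,m1,n0,n0,n0,n0,n0,m1,n0,n1]) (by decide +kernel) (by decide +kernel)
  (.t t116 ok116) cl113

theorem cl115 : Clo K (Helper55.TR.GH 1 Helper55.TR.BrU [0,0,0,0,0,1]) l129 :=
  .w [n0,n0,n0,n0,n0,n0,n0,n0,n0,n0,n0,n0,m1,n2] (e' := [n1,n0,n0,n0,n0,n0,n0,n0,n0,n0,n0,n0,n1,m2]) (by decide +kernel) (.t
  t126 ok126) (.t t127 ok127)

theorem cl116 : Clo K (Helper55.TR.GH 1 Helper55.TR.BrU [0,0,0,0,0,1]) r128 :=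
  .i [n1,n0,n0,n0,n0,n0,n0,n1,n0,m2] (e' := [n0,n0,n0,n0,n0,n0,n0,m1,n0,n2]) (by decide +kernel) (by decide +kernel)
  cl115 (.t t128 ok128)

theorem cl117 : Clo K (Helper55.TR.GH 1 Helper55.TR.BrU [0,0,0,0,0,1]) r127 :=
  .i [n0,m1,n0,n0,n0,n0,n0,m1,n0,n1] (e' := [n1,n1,n0,n0,n0,n0,n0,n1,n0,m1]) (by decide +kernel) (by decide +kernel)
  (.t t125 ok125) cl116

theorem cl118 : Clo K (Helper55.TR.GH 1 Helper55.TR.BrU [0,0,0,0,0,1]) l126 :=
  .i [n1,n0,n1,n1,n0,n0,n0,n1,n0,n1,n2] (e' := [n0,n0,m1,m1,n0,n0,n0,m1,n0,m1,m2]) (by decide +kernel)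
  (by decide +kernel) (.t t124 ok124) cl117

theorem cl119 : Clo K (Helper55.TR.GH 1 Helper55.TR.BrU [0,0,0,0,0,1]) l131 :=
  .w [n0,n0,n0,n0,n0,n0,n0,n0,n0,n0,n0,n0,n1,m2] (e' := [n1,n0,n0,n0,n0,n0,n0,n0,n0,n0,n0,n0,m1,n2]) (by decide +kernel) (.t
  t129 ok129) (.t t130 ok130)

theorem cl120 : Clo K (Helper55.TR.GH 1 Helper55.TR.BrU [0,0,0,0,0,1]) r126 :=
  .i [n1,n0,n0,n0,n0,n0,n0,n1,n0,m2] (e' := [n0,n0,n0,n0,n0,n0,n0,m1,n0,n2]) (by decide +kernel) (by decide +kernel)
  cl119 (.t t131 ok131)

theorem cl121 : Clo K (Helper55.TR.GH 1 Helper55.TR.BrU [0,0,0,0,0,1]) r125 :=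
  .i [n1,n0,m1,m1,n0,n0,n0,m1,n0,m1,m2] (e' := [n0,n0,n1,n1,n0,n0,n0,n1,n0,n1,n2]) (by decide +kernel)
  (by decide +kernel) cl118 cl120

theorem cl122 : Clo K (Helper55.TR.GH 1 Helper55.TR.BrU [0,0,0,0,0,1]) r124 :=
  .i [n0,n0,n0,n0,n0,n0,m1,n0,n2] (e' := [n1,n0,n0,n0,n0,n0,n1,n0,m2]) (by decide +kernel) (by decide +kernel) (.t
  t123 ok123) cl121

theorem cl123 : Clo K (Helper55.TR.GH 1 Helper55.TR.BrU [0,0,0,0,0,1]) r118 :=
  .i [n0,n1,n0,n0,n0,n0,n0,n1,n0,m1] (e' := [n1,m1,n0,n0,n0,n0,n0,m1,n0,n1]) (by decide +kernel) (by decide +kernel)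
  (.t t122 ok122) cl122

theorem cl124 : Clo K (Helper55.TR.GH 1 Helper55.TR.BrU [0,0,0,0,0,1]) r107 :=
  .i [n1,n0,n1,n1,m1,n0,n0,m2,n0,n0,m2] (e' := [n0,n0,m1,m1,n1,n0,n0,n2,n0,n0,n2]) (by decide +kernel)
  (by decide +kernel) cl114 cl123

theorem cl125 : Clo K (Helper55.TR.GH 1 Helper55.TR.BrU [0,0,0,0,0,1]) r57 :=
  .i [n1,n0,n1,n1,m1,n0,n0,n0,n0,n0,m7] (e' := [n0,n0,m1,m1,n1,n0,n0,n0,n0,n0,n7]) (by decide +kernel)
  (by decide +kernel) cl109 cl124

theorem cl126 : Clo K (Helper55.TR.GH 1 Helper55.TR.BrU [0,0,0,0,0,1]) r5 :=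
  .i [n1,n0,n1,n1,n0,n0,n0,n2,n0,n1,m1] (e' := [n0,n0,m1,m1,n0,n0,n0,m2,n0,m1,n1]) (by decide +kernel)
  (by decide +kernel) cl99 cl125

theorem cl127 : Clo K (Helper55.TR.GH 1 Helper55.TR.BrU [0,0,0,0,0,1]) r4 :=
  .i [n1,n0,n0,n0,n0,n0,n0,n0,n0,n1,m1] (e' := [n0,n0,n0,n0,n0,n0,n0,n0,n0,m1,n1]) (by decide +kernel)
  (by decide +kernel) cl50 cl126

theorem cl128 : Clo K (Helper55.TR.GH 1 Helper55.TR.BrU [0,0,0,0,0,1]) r3 :=
  .i [n0,n0,n0,n0,n0,n0,n1,n0,m2] (e' := [n1,n0,n0,n0,n0,n0,m1,n0,n2]) (by decide +kernel) (by decide +kernel) (.t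
  t2 ok2) cl127

theorem cl129 : Clo K (Helper55.TR.GH 1 Helper55.TR.BrU [0,0,0,0,0,1]) r2 :=
  .i [n1,n1,n2,n2,m1,n0,n0,m1,n0,n2] (e' := [n0,m1,m2,m2,n1,n0,n0,n1,n0,m2]) (by decide +kernel)
  (by decide +kernel) (.t t1 ok1) cl128

theorem cl130 : Clo K (Helper55.TR.GH 1 Helper55.TR.BrU [0,0,0,0,0,1]) l1 :=
  .q [n0,n0,m2,n0,n1,n0,n0,n0,m2,n0,n0,n1,n0,m2] (e' := [n0,n0,n2,n0,m1,n0,n0,n0,n2,n0,n0,m1,n0,n2]) (.p false [0,0,0,1]
  [1,0,0,-1] (⟨0,[(10,0)]⟩,⟨0,[(3,0)]⟩) .k 2 (⟨0,[(3,0)]⟩,⟨0,[(10,0)]⟩) .k (.r (-1) ⟨33,[(2,10),(13,
  7),(8,7),(4,11),(4,23),(2,10),(19,15)]⟩ ⟨4,[(0,1),(7,1),(11,1),(26,1),(10,1)]⟩))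
  (by decide +kernel) (by decide +kernel) (.t t0 ok0) cl129

theorem cl131 : Clo K (Helper55.TR.GH 1 Helper55.TR.BrU [0,0,0,0,0,1]) l0 :=
  .i [n0,n0,n2,n2,m1,n0,n0,n0,n0,m2] (e' := [n1,n0,m2,m2,n1,n0,n0,n0,n0,n2]) (by decide +kernel)
  (by decide +kernel) cl130 (.t t132 ok132)

noncomputable def t135 : Tre :=
  .I [n1,n0,n3,n3,m1,n0,n0,n0,n0,n0,n7] t133 t134

theorem ok135 : chk K t135 l133 = true :=
  chk_I (e' := [n0,n0,m3,m3,n1,n0,n0,n0,n0,n0,m7]) (by decide +kernel) (by decide +kernel) ok133 ok134

noncomputable def t137 : Tre :=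
  .I [n1,n0,m2,m2,n1,n0,n0,n1,n0,m1] t135 t136

theorem ok137 : chk K t137 r0 = true :=
  chk_I (e' := [n0,n0,n2,n2,m1,n0,n0,m1,n0,n1]) (by decide +kernel) (by decide +kernel) ok135 ok136

theorem cl132 : Clo K (Helper55.TR.GH 1 Helper55.TR.BrU [0,0,0,0,0,1]) base :=
  .q [n0,n1,n0,m2,n0,n0,n0,n0,n2,n2,n0,m1,n0,n2] (e' := [n0,m1,n0,n2,n0,n0,n0,n0,m2,m2,n0,n1,n0,m2]) (.p true [0,0,0,1]
  [1,0,0,-1] (⟨0,[(8,0)]⟩,⟨0,[(1,0)]⟩) .k 2 (⟨0,[(1,0)]⟩,⟨0,[(8,0)]⟩) .k (.r (-1) ⟨33,[(0,10),(13,
  7),(8,7),(4,11),(4,23),(2,10),(19,15)]⟩ ⟨6,[(6,3),(11,3),(15,1),(3,3),(16,1)]⟩))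
  (by decide +kernel) (by decide +kernel) cl131 (.t t137 ok137)

theorem g : Helper55.TR.GH 1 Helper55.TR.BrU [0,0,0,0,0,1] base :=
  Helper55.TR.GH.of (Or.inr (Or.inr (Or.inl rfl))) cl132

end Helper55.CD.Dm1_1_c0u_27_1_3_0_2

namespace Helper55.CD.Dm1_1_c0u_27_1_3_0

open Helper25.KG Helper25.KW Helper55.KE Helper11.CT Helper55.TR.Nm

noncomputable def K : Cls :=
  Helper55.TR.KH 1 [0,0,0,0,0,1]

noncomputable def base : List Con :=
  [(false,[n0,n0,n0,n0,n0,n0,n0,n0,n0,n0,n0,n1,n0,m1]),
  (false,[n0,n0,n0,n0,n0,n0,n0,n0,n0,n0,n0,n0,n0,n1]),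
  (true,[n1,n0,n0,n0,n0,n0,n0,n0,n0,n0,m1]),
  (false,[n0,n0,n0,n2,n0,n0,n0,n0,m1,m1,n0,n0,n0,m1]),
  (true,[n1,n1,n0,n0,n0,n0,n0,n1,n0,m2]),
  (true,[n0,n0,m2,m2,n1,n0,n0,n0,n0,n1]),
  (true,[n0,n0,n1,n1,n0,n0,n0,n1,n0,n2]),
  (false,[n0,n0,n0,n2,n0,n0,m1,m1,n1,n1,n0,n0,m1,n1]),
  (false,[n0,n0,n0,n0,n0,n0,n1,n0,m1,n0,n0,n0,n1,m1]),
  (true,[n0,n0,n0,n0,n0,n0,n0,m1]),
  (true,[n0,n0,n0,m1,n0,n0,n0,m1]),
  (true,[n0,n0,n0,n0,n1,n0,n0,n0,n0,n0,m2]),
  (true,[n0,n0,n0,n0,n1,n0,n0,n0,n0,n0,n2]),
  (false,[n0,n0,n0,n0,n0,n0,n0,n0,n0,n0,n0,n1,n0,n0,m1]),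
  (false,[n0,n0,n0,n0,n0,n0,n0,n0,n0,n0,n0,n0,n0,n0,n1]),
  (true,[n0,m1,n0,m1,n0,n0,n0,n0,n0,m1]),
  (false,[n0,n0,n0,n0,n0,n0,n0,n0,n1,n0,n0,n0,n0,n1]),
  (false,[n0,n0,n0,n0,n0,m1,n0,n0,n0,n0,n0,n1,n0,n0,m1]),
  (false,[n0,n0,n0,m1,n0,n1,n0,n0,m1,m1,n1,n0,n0,m1,n1]),
  (false,[n0,n1,n0,n0,n0,m1,n0,n0,n0,n0,m1,n0,n0,n0,m1]),
  (true,[n1,n0,m1,m1,n1,n0,n0,n2,n0,n0,n1]),
  (true,[n0,n0,n0,n0,n0,n0,n0,n0,n0,m1,m1]),
  (true,[n0,n0,n3,n3,m1,n0,n0,n1,n0,n1]),
  (false,[n0,n1,n0,n2,n0,n0,n1,n1,m1,m1,n0,n0,n1,m1]),
  (false,[n0,n0,n0,n0,n0,m2,n0,n0,n0,n0,n0,n0,n0,n1]),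
  (false,[n0,n0,m2,n0,n1,n0,n0,n0,m1,n0,n0,n0,n0,m1]),
  (false,[n0,n0,m2,n0,n1,n0,n0,n0,m1,n0,n0,n1,n0,m1]),
  (false,[n0,n0,n0,n0,n0,m2,n0,n0,n0,n0,n0,n1,n0,m1]),
  (false,[n0,n0,m2,n0,n1,n0,m1,n0,n1,n0,n0,n0,m1,n1]),
  (false,[n0,n0,n0,n1,n0,n0,m1,m1,n1,n1,n0,n0,m1,n1]),
  (true,[n1,m1,n1,n1,n0,n0,n0,n1,n0,n1]),
  (false,[n0,n0,n0,n0,n0,m1,n0,n0,n0,n0,n0,n0,n0,n1]),
  (false,[n0,n0,n0,n0,n0,n0,n0,n0,n1,n0,n0,m1,n0,n1]),
  (false,[n0,n1,n0,n0,n0,n0,n0,n0,n1,n1,n0,m1,n0,n1]),
  (false,[n0,n0,n2,n0,m1,n0,n1,n0,n0,n0,n0,m1,n1]),
  (true,[n0,n0,n1,n1,n0,n0,n0,n2]),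
  (true,[n1,n0,n1,n1,n0,n0,n0,n2]),
  (true,[n1,m1,n1,n2,n0,n0,n0,n1]),
  (true,[n1,m1,n2,n0,m1,n0,n0,m1]),
  (false,[n0,n0,n0,n2,n0,n0,m1,m1,n0,n0,n0,n0,m1]),
  (true,[n0,n0,n2,n0,m1,n2,n1]),
  (true,[n0,m1,n1,n1,n0,n0,n0,n1]),
  (false,[n0,n0,n1,n0,n0,n0,m2,n0,n0,n0,n0,n2,m2]),
  (false,[n0,n0,n0,n0,n0,n1,n0,n0,n0,n0,n0,m1,n1]),
  (false,[n0,n0,n0,n0,n0,m2,n0,n0,n0,n0,n0,n1]),
  (false,[n0,n0,n2,n0,m1,n0,n1,n0,n0,n0,n0,n0,n1]),
  (false,[n0,n0,n0,n1,n0,n0,m1,m1,n0,n0,n0,n0,m1]),
  (false,[n0,n0,n0,n0,n0,n0,m1,m1,n0,n0,n0,n0,m1]),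
  (false,[n0,n0,n0,n0,n0,n0,n1,n0,n0,n0,n0,m1,n1]),
  (true,[n0,n0,n1,n0,n0,n0,n0,n1]),
  (false,[n0,n0,n0,n0,n0,m1,n0,n0,n0,n0,n0,n0,n1]),
  (false,[n0,m1,m1,n1,n1,n0,m1,n0,n0,n0,n0,n0,m1]),
  (false,[n0,n0,n0,n0,n0,n0,n1,n0,n0,n0,n0,n0,n1]),
  (false,[n0,n0,m2,n0,n1,n0,n0,n0,n0,n0,n0,m1]),
  (true,[n0,m1,n1,n0,n0,n0,n0,m1]),
  (false,[n0,m1,n0,n0,n0,n0,m1,m1,n0,n0,n0,n1,m1]),
  (true,[n1,m2,n1]),
  (true,[n0,n0,n0,m1])]

noncomputable def l0 : List Con := (false, [n0,n1,n0,n0,n0,n1,n0,n0,n0,n0,n1,m1,n0,n0,n1]) :: base

noncomputable def r0 : List Con := (false, [n0,m1,n0,n0,n0,m1,n0,n0,n0,n0,m1,n1,n0,n0,m1]) :: base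

noncomputable def l1 : List Con := (true, [n1,n0,n0,n0,n0,n0,n0,n0,n0,n0,n1]) :: l0

noncomputable def r1 : List Con := (true, [n0,n0,n0,n0,n0,n0,n0,n0,n0,n0,m1]) :: l0

noncomputable def l2 : List Con := (false, [n0,m1,n0,n1,n0,n0,n0,n0,m2,m2,n0,n1,n0,m2]) :: r1

noncomputable def r2 : List Con := (false, [n0,n1,n0,m1,n0,n0,n0,n0,n2,n2,n0,m1,n0,n2]) :: r1

noncomputable def t0 : Tre :=
  (.N [0,0,0,0,1] 0 ⟨0,[(0,0)]⟩ ⟨0,[(4,0)]⟩ .k)

theorem ok0 : chk K t0 l1 = true := by decide +kernel

theorem cl0 : Clo K (Helper55.TR.GH 1 Helper55.TR.BrU [0,0,0,0,0,1]) r1 :=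
  .q [n0,m1,n0,n1,n0,n0,n0,n0,m2,m2,n0,n1,n0,m2] (e' := [n0,n1,n0,m1,n0,n0,n0,n0,n2,n2,n0,m1,n0,n2]) (.p false [0,0,0,1]
  [1,0,0,-1] (⟨0,[(3,0)]⟩,⟨0,[(2,0)]⟩) .k 2 (⟨0,[(2,0)]⟩,⟨0,[(3,0)]⟩) .k (.r (-1) ⟨33,[(7,11),(0,
  23),(0,7),(0,7),(1,15),(0,10),(0,10)]⟩ ⟨6,[(5,1),(0,3),(4,3),(5,3),(0,1)]⟩)) (by decide +kernel)
  (by decide +kernel) (.h (Helper55.TR.GH.sub Helper55.CD.Dm1_1_c0u_27_1_3_0_0.g 367529647818159840623224628175891336810784556719936148691918922582436766565658778802406528772727102809411030923659978829819361036849329875032991734889363712140527877188575587626302425739919438908738343128060279153896221461975059 (by decide +kernel))) (.h (Helper55.TR.GH.sub Helper55.CD.Dm1_1_c0u_27_1_3_0_1.g 463037011133965990119719296468626621354822050254056488126624052062832603898002132077595860199222992276502387641750481771214006135898849771469653677237494757926946444185269879546658815371349704119348718367245241134418958006278 (by decide +kernel)))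

theorem cl1 : Clo K (Helper55.TR.GH 1 Helper55.TR.BrU [0,0,0,0,0,1]) l0 :=
  .i [n1,n0,n0,n0,n0,n0,n0,n0,n0,n0,n1] (e' := [n0,n0,n0,n0,n0,n0,n0,n0,n0,n0,m1]) (by decide +kernel)
  (by decide +kernel) (.t t0 ok0) cl0

theorem cl2 : Clo K (Helper55.TR.GH 1 Helper55.TR.BrU [0,0,0,0,0,1]) base :=
  .q [n0,n1,n0,n0,n0,n1,n0,n0,n0,n0,n1,m1,n0,n0,n1] (e' := [n0,m1,n0,n0,n0,m1,n0,n0,n0,n0,m1,n1,n0,n0,m1]) (.p true [0,0,0,0,
  1] [1] (⟨0,[(14,0)]⟩,⟨0,[(13,0)]⟩) .k 1 (⟨0,[]⟩,⟨0,[]⟩) .k .k) (by decide +kernel)
  (by decide +kernel) cl1 (.h (Helper55.TR.GH.sub Helper55.CD.Dm1_1_c0u_27_1_3_0_2.g 358966377158978029565282251229254996679261821299989056787089639336079098179053359843868160966347166570339388866384292860185282257582922506561027061331297518802382530187768019297163802183390412196411474143464367208038364368898 (by decide +kernel)))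

theorem g : Helper55.TR.GH 1 Helper55.TR.BrU [0,0,0,0,0,1] base :=
  Helper55.TR.GH.of (Or.inr (Or.inr (Or.inl rfl))) cl2

end Helper55.CD.Dm1_1_c0u_27_1_3_0
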