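import Pool.Agent.Helper55.TR.Num
import Pool.Agent.Helper81.PC.Sound
import Pool.Agent.Helper55.TR.Enc2
import Pool.Agent.Helper81.PX.Sound

set_option autoImplicit false
set_option linter.all false

namespace Helper55.CD.Dm1_1_c0u_27_1_3_1_0

open Helper25.KG Helper25.KW Helper55.KE Helper11.CT Helper55.TR.Nm

noncomputable def K : Cls :=
  Helper55.TR.KH 1 [0,0,0,0,0,1]

noncomputable def base : List Con :=
  [(false,[n0,n1,n0,n0,n0,n0,n1,n1,n0,n0,n0,n0,n1]),
  (true,[n0,n0,n0,n0,n1,n0,n0,n0,n0,n0,n2]),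
  (false,[n0,m1,n0,n0,n0,n0,m1,m1,n0,n0,n0,n1,m1]),
  (false,[n0,n0,n0,n0,n0,n1,n0,n0,n0,n0,n0,m1,n0,n0,n1]),
  (false,[n0,n0,n0,n0,n0,n0,m1,m1,n0,n0,n0,n0,m1]),
  (false,[n0,n0,n0,n0,n0,n0,n0,n0,n0,n0,n0,n1,m1]),
  (true,[n0,m2,n0,n0,n1]),
  (false,[n0,n0,n0,n0,n0,n0,n0,n0,n0,n0,n0,n0,n0,n0,n1]),
  (false,[n0,n0,n0,n0,n0,n0,n0,n0,n0,n0,n0,n1,n0,n0,m1]),
  (true,[m1,n1]),
  (false,[n0,n0,n0,m1,n0,n1,n0,n0,m1,m1,n1,n0,n0,m1,n1]),
  (false,[n0,n0,n0,n0,n0,n0,n0,n0,n0,n0,n0,n0,n1]),
  (false,[n0,n0,n0,n0,n0,m2,n0,n0,n0,n0,n0,n1,n0,m1]),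
  (true,[n0,n0,n0,n0,n0,n1]),
  (true,[n1,m1,n1,n1,n0,n0,n0,n1,n0,n1]),
  (true,[n0,n0,n0,n0,n1,n0,n0,n0,n0,n0,m2]),
  (false,[n0,n0,n1,n0,n0,n0,m2,n0,n0,n0,n0,n2,m2]),
  (false,[n0,n0,n0,n2,n0,n0,m1,m1,n1,n1,n0,n0,m1,n1]),
  (true,[n0,n0,n0,m1]),
  (false,[n0,n0,n0,n0,n0,n0,n0,n0,n0,n0,n0,n1,n0,m1]),
  (false,[n0,n0,n0,n0,n0,n0,n0,n0,n0,n0,n0,n0,n0,n1]),
  (false,[n0,n0,n0,n0,n0,n0,n1,n0,m1,n0,n0,n0,n1,m1]),
  (false,[n0,n0,n0,n0,n0,m1,n0,n0,n0,n0,n0,n0,n0,n1]),
  (false,[n0,n0,n0,n0,n0,m2,n0,n0,n0,n0,n0,n0,n0,n1]),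
  (true,[n0,n0,m2,m2,n1,n0,n0,n0,n0,n1]),
  (true,[n1,n1,n0,n0,n0,n0,n0,n1,n0,m2]),
  (false,[n0,n0,n0,n0,n0,n0,n0,n0,n1,n0,n0,m1,n0,n1]),
  (false,[n0,n1,n0,n0,n0,n0,m1,m1,n0,n0,n0,n0,m1]),
  (false,[n0,n0,n0,n0,n0,m1,n0,n0,n0,n0,n0,n0,n1]),
  (true,[n0,n1,n0,n1]),
  (false,[n0,n0,n0,n1,n0,n0,m1,m1,n0,n0,n0,n0,m1]),
  (false,[n0,n0,n0,n0,n0,m1,n0,n0,n0,n0,n0,n1]),
  (true,[n1,n0,n0,n0,n0,n0,n0,n0,n0,n0,m1]),
  (false,[n0,n0,m2,n0,n1,n0,m1,n0,n1,n0,n0,n0,m1,n1]),
  (false,[n0,n0,n0,n0,n0,m1,n0,n0,n0,n0,n0,n1,n0,m1]),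
  (false,[n0,n0,n0,n1,n0,n0,m1,m1,n1,n1,n0,n0,m1,n1]),
  (false,[n0,n0,n0,n1,n0,m1,n0,n0,n0,n0,m1,n1,n0,n0,m1]),
  (false,[n0,n0,m2,n0,n1,n0,n0,n0,n0,n0,n0,m1]),
  (true,[n0,m1,n1,n0,n0,n0,n0,m1]),
  (false,[n0,n0,n2,n0,m1,n0,n1,n0,n0,n0,n0,m1,n1]),
  (true,[n1,n1,n0,n0,n0,n0,n0,n0,n0,n1]),
  (true,[n0,m1,n0,m1,n0,n0,n0,n0,n0,m1]),
  (true,[n1,n1,n2,n2,m1,n0,n0,m1,n0,n2]),
  (true,[n0,n0,n0,n0,n0,n0,n0,m1]),
  (true,[n0,n0,m2,n0,n1]),
  (false,[n0,n1,n0,n0,n0,m1,n0,n0,n0,n0,m1,n0,n0,n0,m1]),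
  (false,[n0,n1,n0,n2,n0,n0,n1,n1,m1,m1,n0,n0,n1,m1]),
  (false,[n0,n0,n0,n0,n1,n0,n0,n0,n0,n0,n0,m2]),
  (false,[n0,n0,n2,n0,m1,n0,n0,n0,n2,n0,n0,m1,n0,n2]),
  (true,[n1,n0,m1,m1,n1,n0,n0,n2,n0,n0,n1]),
  (false,[n0,n0,n0,n0,n0,n1,n0,n0,n0,n0,n0,m1,n1]),
  (true,[n0,n0,n0,m1,n0,n0,n0,m1]),
  (false,[n0,n0,n0,n2,n0,n0,n0,n0,m1,m1,n0,n0,n0,m1]),
  (false,[n0,n0,n0,n0,n0,n0,n1,n0,n0,n0,n0,m1,n1]),
  (true,[n1,m1,n2,n0,m1,n0,n0,m1]),
  (false,[n0,n0,m2,n0,n1,n0,n0,n0,m1,n0,n0,n1,n0,m1]),
  (false,[n0,n0,n2,n0,m1,n0,n1,n0,n0,n0,n0,n0,n1]),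
  (true,[n0,n0,n3,n3,m1,n0,n0,n1,n0,n1]),
  (true,[n1,m1,n1,n2,n0,n0,n0,n1]),
  (false,[n0,n0,n0,n0,n0,m2,n0,n0,n0,n0,n0,n1]),
  (false,[n0,n1,n0,m2,n0,n0,n0,n0,n2,n2,n0,m1,n0,n2]),
  (true,[n1,m2,n1]),
  (false,[n0,n0,n0,n2,n0,n0,m1,m1,n0,n0,n0,n0,m1]),
  (false,[n0,n0,n0,n0,n0,n0,n1,n0,n0,n0,n0,n0,n1]),
  (true,[n1,n0,n1,n1,n0,n0,n0,n2]),
  (false,[n0,n0,n0,n0,n0,n0,n0,n0,n1,n0,n0,n0,n0,n1]),
  (true,[n0,n0,n1,n0,n0,n0,n0,n1]),
  (false,[n0,n0,n1,n0,n0,n0,n1,n0,n0,n0,n0,n0,n1]),
  (false,[n0,n0,n1,n0,n0,n0,m1,n0,n0,n0,n0,n0,m1]),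
  (true,[n0,n0,n2,n0,m1,n2,n1]),
  (false,[n0,n0,m2,n0,n1,n0,n0,n0,m1,n0,n0,n0,n0,m1]),
  (false,[n0,n1,n0,n0,n0,n0,n0,n0,n1,n1,n0,m1,n0,n1]),
  (true,[n0,n0,n1,n1,n0,n0,n0,n1,n0,n2]),
  (true,[n0,n0,n0,n0,n0,n0,n0,n0,n0,m1,m1]),
  (false,[n0,n0,n0,n1,n0,n0,n0,n0,m1,m1,n0,n0,n0,m1])]

noncomputable def l0 : List Con := (true, [n1,n0,m2,m2,n1,n0,n0,n1,n0,m1]) :: base

noncomputable def r0 : List Con := (true, [n0,n0,n2,n2,m1,n0,n0,m1,n0,n1]) :: base

noncomputable def l1 : List Con := (true, [n0,n0,m2,n0,n1,m2,m1,n0,n1]) :: l0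

noncomputable def r1 : List Con := (true, [n1,n0,n2,n0,m1,n2,n1,n0,m1]) :: l0

noncomputable def l2 : List Con := (true, [n1,n0,n2,n2,m1,n0,n0,m1,n0,n1]) :: l1

noncomputable def r2 : List Con := (true, [n0,n0,m2,m2,n1,n0,n0,n1,n0,m1]) :: l1

noncomputable def l3 : List Con := (true, [n1,m1,n0,n0,n0,n0,n0,m1,n0,n1]) :: r2

noncomputable def r3 : List Con := (true, [n0,n1,n0,n0,n0,n0,n0,n1,n0,m1]) :: r2

noncomputable def l4 : List Con := (true, [n0,n0,n0,n0,n0,n0,n1,n0,m2]) :: r3

noncomputable def r4 : List Con := (true, [n1,n0,n0,n0,n0,n0,m1,n0,n2]) :: r3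

noncomputable def l5 : List Con := (true, [n1,n0,m2,m2,n1,n0,n0,n0,n0,n2,m1]) :: r4

noncomputable def r5 : List Con := (true, [n0,n0,n2,n2,m1,n0,n0,n0,n0,m2,n1]) :: r4

noncomputable def l6 : List Con := (true, [n1,n0,n0,n0,n0,n0,n0,m1,n0,n2]) :: l5

noncomputable def r6 : List Con := (true, [n0,n0,n0,n0,n0,n0,n0,n1,n0,m2]) :: l5

noncomputable def l7 : List Con := (true, [n1,n0,n2,n2,m1,n0,n0,n0,n0,m2,n1]) :: l6

noncomputable def r7 : List Con := (true, [n0,n0,m2,m2,n1,n0,n0,n0,n0,n2,m1]) :: l6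

noncomputable def l8 : List Con := (true, [n1,n0,n2,n2,m1,n0,n0,n0,n0,n0,m1]) :: r7

noncomputable def r8 : List Con := (true, [n0,n0,m2,m2,n1,n0,n0,n0,n0,n0,n1]) :: r7

noncomputable def l9 : List Con := (true, [n1,n0,m2,m2,n1,n0,n0,n0,n0,n0,n1]) :: l8

noncomputable def r9 : List Con := (true, [n0,n0,n2,n2,m1,n0,n0,n0,n0,n0,m1]) :: l8

noncomputable def l10 : List Con := (true, [n1,n0,n0,n0,n0,n0,n0,n1,n0,m2]) :: r9

noncomputable def r10 : List Con := (true, [n0,n0,n0,n0,n0,n0,n0,m1,n0,n2]) :: r9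

noncomputable def l11 : List Con := (true, [n0,n0,n0,n0,n0,n0,m1,n0,n2]) :: l10

noncomputable def r11 : List Con := (true, [n1,n0,n0,n0,n0,n0,n1,n0,m2]) :: l10

noncomputable def l12 : List Con := (false, [n0,n0,n0,n0,n0,n0,n0,n0,n0,n0,n0,n0,n1,m2]) :: r11

noncomputable def r12 : List Con := (true, [n1,n0,n0,n0,n0,n0,n0,n0,n0,n0,n0,n0,m1,n2]) :: r11

noncomputable def l13 : List Con := (true, [n1,n0,n0,n0,n0,n0,n0,n1,n0,m1,m1]) :: r8

noncomputable def r13 : List Con := (true, [n0,n0,n0,n0,n0,n0,n0,m1,n0,n1,n1]) :: r8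

noncomputable def l14 : List Con := (true, [n1,n0,n0,n0,n0,n0,n0,m1,n0,n1,n1]) :: l13

noncomputable def r14 : List Con := (true, [n0,n0,n0,n0,n0,n0,n0,n1,n0,m1,m1]) :: l13

noncomputable def l15 : List Con := (false, [n0,m1,n0,n1,n0,n0,m1,m1,n0,n0,n0,n1,m1]) :: r14

noncomputable def r15 : List Con := (false, [n0,n1,n0,m1,n0,n0,n1,n1,n0,n0,n0,m1,n1]) :: r14

noncomputable def l16 : List Con := (true, [n1,n0,n0,n0,n0,n0,n0,n1,n0,m2]) :: r15

noncomputable def r16 : List Con := (true, [n0,n0,n0,n0,n0,n0,n0,m1,n0,n2]) :: r15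

noncomputable def l17 : List Con := (true, [n0,n0,n0,n0,n0,n0,m1,n0,n2]) :: l16

noncomputable def r17 : List Con := (true, [n1,n0,n0,n0,n0,n0,n1,n0,m2]) :: l16

noncomputable def l18 : List Con := (true, [n1,n0,m2,m2,n1,n0,n0,n0,n0,m1,n2]) :: r17

noncomputable def r18 : List Con := (true, [n0,n0,n2,n2,m1,n0,n0,n0,n0,n1,m2]) :: r17

noncomputable def l19 : List Con := (true, [n1,n0,n2,n2,m1,n0,n0,n0,n0,n1,m2]) :: l18

noncomputable def r19 : List Con := (true, [n0,n0,m2,m2,n1,n0,n0,n0,n0,m1,n2]) :: l18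

noncomputable def l20 : List Con := (true, [n1,n0,m3,m3,n1,n0,n0,m1,n0,n0,m1]) :: r19

noncomputable def r20 : List Con := (true, [n0,n0,n3,n3,m1,n0,n0,n1,n0,n0,n1]) :: r19

noncomputable def l21 : List Con := (true, [n1,n0,n3,n3,m1,n0,n0,n1,n0,n0,n1]) :: l20

noncomputable def r21 : List Con := (true, [n0,n0,m3,m3,n1,n0,n0,m1,n0,n0,m1]) :: l20

noncomputable def l22 : List Con := (true, [n1,n0,n1,n1,m1,n0,n0,n0,n0,n0,m5]) :: r21

noncomputable def r22 : List Con := (true, [n0,n0,m1,m1,n1,n0,n0,n0,n0,n0,n5]) :: r21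

noncomputable def l23 : List Con := (true, [n1,n0,m1,m1,n1,n0,n0,n0,n0,n0,n5]) :: l22

noncomputable def r23 : List Con := (true, [n0,n0,n1,n1,m1,n0,n0,n0,n0,n0,m5]) :: l22

noncomputable def l24 : List Con := (false, [n0,n0,n0,n0,n0,n0,n0,n0,n0,n0,n0,n0,m1,n2]) :: r23

noncomputable def r24 : List Con := (true, [n1,n0,n0,n0,n0,n0,n0,n0,n0,n0,n0,n0,n1,m2]) :: r23

noncomputable def l25 : List Con := (false, [n0,n0,n0,n0,n0,n0,n0,n0,n0,n0,n0,n0,n1,m2]) :: r24

noncomputable def r25 : List Con := (true, [n1,n0,n0,n0,n0,n0,n0,n0,n0,n0,n0,n0,m1,n2]) :: r24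

noncomputable def l26 : List Con := (false, [n0,n0,n0,n0,n0,n0,n0,n0,n0,n0,n0,n0,m1,n2]) :: r22

noncomputable def r26 : List Con := (true, [n1,n0,n0,n0,n0,n0,n0,n0,n0,n0,n0,n0,n1,m2]) :: r22

noncomputable def l27 : List Con := (false, [n0,n0,n0,n0,n0,n0,n0,n0,n0,n0,n0,n0,n1,m2]) :: r26

noncomputable def r27 : List Con := (true, [n1,n0,n0,n0,n0,n0,n0,n0,n0,n0,n0,n0,m1,n2]) :: r26

noncomputable def l28 : List Con := (true, [n1,n0,n4,n4,m1,n0,n0,n0,n0,n0,n7]) :: r20

noncomputable def r28 : List Con := (true, [n0,n0,m4,m4,n1,n0,n0,n0,n0,n0,m7]) :: r20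

noncomputable def l29 : List Con := (true, [n1,n0,m4,m4,n1,n0,n0,n0,n0,n0,m7]) :: l28

noncomputable def r29 : List Con := (true, [n0,n0,n4,n4,m1,n0,n0,n0,n0,n0,n7]) :: l28

noncomputable def l30 : List Con := (true, [n1,n0,m1,m1,n1,n0,n0,n2,n0,n2]) :: r29

noncomputable def r30 : List Con := (true, [n0,n0,n1,n1,m1,n0,n0,m2,n0,m2]) :: r29

noncomputable def l31 : List Con := (true, [n1,n0,n1,n1,m1,n0,n0,m2,n0,m2]) :: l30

noncomputable def r31 : List Con := (true, [n0,n0,m1,m1,n1,n0,n0,n2,n0,n2]) :: l30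

noncomputable def l32 : List Con := (false, [n0,n0,n0,n0,n0,n0,n0,n0,n0,n0,n0,n0,m1,n2]) :: r31

noncomputable def r32 : List Con := (true, [n1,n0,n0,n0,n0,n0,n0,n0,n0,n0,n0,n0,n1,m2]) :: r31

noncomputable def l33 : List Con := (false, [n0,n0,n0,n0,n0,n0,n0,n0,n0,n0,n0,n0,n1,m2]) :: r32

noncomputable def r33 : List Con := (true, [n1,n0,n0,n0,n0,n0,n0,n0,n0,n0,n0,n0,m1,n2]) :: r32

noncomputable def l34 : List Con := (false, [n0,n0,n0,n0,n0,n0,n0,n0,n0,n0,n0,n0,m1,n2]) :: r30

noncomputable def r34 : List Con := (true, [n1,n0,n0,n0,n0,n0,n0,n0,n0,n0,n0,n0,n1,m2]) :: r30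

noncomputable def l35 : List Con := (false, [n0,n0,n0,n0,n0,n0,n0,n0,n0,n0,n0,n0,n1,m2]) :: r34

noncomputable def r35 : List Con := (true, [n1,n0,n0,n0,n0,n0,n0,n0,n0,n0,n0,n0,m1,n2]) :: r34

noncomputable def l36 : List Con := (true, [n1,n0,m1,m1,n0,n0,n0,n0,n0,n0,m4]) :: r28

noncomputable def r36 : List Con := (true, [n0,n0,n1,n1,n0,n0,n0,n0,n0,n0,n4]) :: r28

noncomputable def l37 : List Con := (true, [n1,n0,n1,n1,n0,n0,n0,n0,n0,n0,n4]) :: l36

noncomputable def r37 : List Con := (true, [n0,n0,m1,m1,n0,n0,n0,n0,n0,n0,m4]) :: l36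

noncomputable def l38 : List Con := (false, [n0,n0,n0,n0,n0,n0,n0,n0,n0,n0,n0,n0,m1,n2]) :: r37

noncomputable def r38 : List Con := (true, [n1,n0,n0,n0,n0,n0,n0,n0,n0,n0,n0,n0,n1,m2]) :: r37

noncomputable def l39 : List Con := (false, [n0,n0,n0,n0,n0,n0,n0,n0,n0,n0,n0,n0,n1,m2]) :: r38

noncomputable def r39 : List Con := (true, [n1,n0,n0,n0,n0,n0,n0,n0,n0,n0,n0,n0,m1,n2]) :: r38

noncomputable def l40 : List Con := (false, [n0,n0,n0,n0,n0,n0,n0,n0,n0,n0,n0,n0,m1,n2]) :: r36

noncomputable def r40 : List Con := (true, [n1,n0,n0,n0,n0,n0,n0,n0,n0,n0,n0,n0,n1,m2]) :: r36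

noncomputable def l41 : List Con := (false, [n0,n0,n0,n0,n0,n0,n0,n0,n0,n0,n0,n0,n1,m2]) :: r40

noncomputable def r41 : List Con := (true, [n1,n0,n0,n0,n0,n0,n0,n0,n0,n0,n0,n0,m1,n2]) :: r40

noncomputable def l42 : List Con := (true, [n1,n0,n3,n3,m1,n0,n0,n1,n0,n0,n1]) :: r18

noncomputable def r42 : List Con := (true, [n0,n0,m3,m3,n1,n0,n0,m1,n0,n0,m1]) :: r18

noncomputable def l43 : List Con := (true, [n1,n0,m3,m3,n1,n0,n0,m1,n0,n0,m1]) :: l42

noncomputable def r43 : List Con := (true, [n0,n0,n3,n3,m1,n0,n0,n1,n0,n0,n1]) :: l42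

noncomputable def l44 : List Con := (false, [n0,n0,n0,n0,n0,n0,n0,n0,n0,n0,n0,n0,n1,m2]) :: r43

noncomputable def r44 : List Con := (true, [n1,n0,n0,n0,n0,n0,n0,n0,n0,n0,n0,n0,m1,n2]) :: r43

noncomputable def l45 : List Con := (false, [n0,n0,n0,n0,n0,n0,n0,n0,n0,n0,n0,n0,m1,n2]) :: r44

noncomputable def r45 : List Con := (true, [n1,n0,n0,n0,n0,n0,n0,n0,n0,n0,n0,n0,n1,m2]) :: r44

noncomputable def l46 : List Con := (true, [n1,n0,n1,n1,n0,n0,n0,n0,n0,n2,n2]) :: r42

noncomputable def r46 : List Con := (true, [n0,n0,m1,m1,n0,n0,n0,n0,n0,m2,m2]) :: r42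

noncomputable def l47 : List Con := (true, [n1,n0,m1,m1,n0,n0,n0,n0,n0,m2,m2]) :: l46

noncomputable def r47 : List Con := (true, [n0,n0,n1,n1,n0,n0,n0,n0,n0,n2,n2]) :: l46

noncomputable def l48 : List Con := (false, [n0,n0,n0,n0,n0,n0,n0,n0,n0,n0,n0,n0,m1,n2]) :: r47

noncomputable def r48 : List Con := (true, [n1,n0,n0,n0,n0,n0,n0,n0,n0,n0,n0,n0,n1,m2]) :: r47

noncomputable def l49 : List Con := (false, [n0,n0,n0,n0,n0,n0,n0,n0,n0,n0,n0,n0,n1,m2]) :: r48

noncomputable def r49 : List Con := (true, [n1,n0,n0,n0,n0,n0,n0,n0,n0,n0,n0,n0,m1,n2]) :: r48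

noncomputable def l50 : List Con := (false, [n0,n0,n0,n0,n0,n0,n0,n0,n0,n0,n0,n0,n1,m2]) :: r46

noncomputable def r50 : List Con := (true, [n1,n0,n0,n0,n0,n0,n0,n0,n0,n0,n0,n0,m1,n2]) :: r46

noncomputable def l51 : List Con := (false, [n0,n0,n0,n0,n0,n0,n0,n0,n0,n0,n0,n0,m1,n2]) :: r50

noncomputable def r51 : List Con := (true, [n1,n0,n0,n0,n0,n0,n0,n0,n0,n0,n0,n0,n1,m2]) :: r50

noncomputable def l52 : List Con := (true, [n1,n0,n2,n2,m1,n0,n0,m1,n0,n0,n1]) :: r13

noncomputable def r52 : List Con := (true, [n0,n0,m2,m2,n1,n0,n0,n1,n0,n0,m1]) :: r13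

noncomputable def l53 : List Con := (true, [n1,n0,n0,n0,n0,n0,n0,n1,n0,n0,m2]) :: r52

noncomputable def r53 : List Con := (true, [n0,n0,n0,n0,n0,n0,n0,m1,n0,n0,n2]) :: r52

noncomputable def l54 : List Con := (true, [n1,n0,n0,n0,n0,n0,n0,n0,n0,n1,m1]) :: r53

noncomputable def r54 : List Con := (true, [n0,n0,n0,n0,n0,n0,n0,n0,n0,m1,n1]) :: r53

noncomputable def l55 : List Con := (true, [n1,n0,n0,n0,n0,n0,n0,n1,n0,m2]) :: r54

noncomputable def r55 : List Con := (true, [n0,n0,n0,n0,n0,n0,n0,m1,n0,n2]) :: r54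

noncomputable def l56 : List Con := (true, [n0,n0,n0,n0,n0,n0,m1,n0,n2]) :: l55

noncomputable def r56 : List Con := (true, [n1,n0,n0,n0,n0,n0,n1,n0,m2]) :: l55

noncomputable def l57 : List Con := (true, [n1,n0,n3,n3,m1,n0,n0,n2]) :: r56

noncomputable def r57 : List Con := (true, [n0,n0,m3,m3,n1,n0,n0,m2]) :: r56

noncomputable def l58 : List Con := (true, [n1,n0,m3,m3,n1,n0,n0,m2]) :: l57

noncomputable def r58 : List Con := (true, [n0,n0,n3,n3,m1,n0,n0,n2]) :: l57

noncomputable def l59 : List Con := (true, [n1,n0,m1,m1,n1,n0,n0,n0,n0,n0,n7]) :: r58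

noncomputable def r59 : List Con := (true, [n0,n0,n1,n1,m1,n0,n0,n0,n0,n0,m7]) :: r58

noncomputable def l60 : List Con := (true, [n1,n0,n1,n1,m1,n0,n0,n0,n0,n0,m7]) :: l59

noncomputable def r60 : List Con := (true, [n0,n0,m1,m1,n1,n0,n0,n0,n0,n0,n7]) :: l59

noncomputable def l61 : List Con := (false, [n0,n0,n0,n0,n0,n0,n0,n0,n0,n0,n0,n0,m1,n2]) :: r60

noncomputable def r61 : List Con := (true, [n1,n0,n0,n0,n0,n0,n0,n0,n0,n0,n0,n0,n1,m2]) :: r60

noncomputable def l62 : List Con := (false, [n0,n0,n0,n0,n0,n0,n0,n0,n0,n0,n0,n0,n1,m2]) :: r61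

noncomputable def r62 : List Con := (true, [n1,n0,n0,n0,n0,n0,n0,n0,n0,n0,n0,n0,m1,n2]) :: r61

noncomputable def l63 : List Con := (false, [n0,n0,n0,n0,n0,n0,n0,n0,n0,n0,n0,n0,n1,m2]) :: r59

noncomputable def r63 : List Con := (true, [n1,n0,n0,n0,n0,n0,n0,n0,n0,n0,n0,n0,m1,n2]) :: r59

noncomputable def l64 : List Con := (false, [n0,n0,n0,n0,n0,n0,n0,n0,n0,n0,n0,n0,m1,n2]) :: r63

noncomputable def r64 : List Con := (true, [n1,n0,n0,n0,n0,n0,n0,n0,n0,n0,n0,n0,n1,m2]) :: r63

noncomputable def l65 : List Con := (true, [n1,n0,n1,n1,m1,n0,n0,m2,n0,m2]) :: r57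

noncomputable def r65 : List Con := (true, [n0,n0,m1,m1,n1,n0,n0,n2,n0,n2]) :: r57

noncomputable def l66 : List Con := (true, [n1,n0,m1,m1,n1,n0,n0,n2,n0,n2]) :: l65

noncomputable def r66 : List Con := (true, [n0,n0,n1,n1,m1,n0,n0,m2,n0,m2]) :: l65

noncomputable def l67 : List Con := (true, [n1,n0,n1,n1,n0,n0,n0,n0,n0,n0,n5]) :: r66

noncomputable def r67 : List Con := (true, [n0,n0,m1,m1,n0,n0,n0,n0,n0,n0,m5]) :: r66

noncomputable def l68 : List Con := (true, [n1,n0,m1,m1,n0,n0,n0,n0,n0,n0,m5]) :: l67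

noncomputable def r68 : List Con := (true, [n0,n0,n1,n1,n0,n0,n0,n0,n0,n0,n5]) :: l67

noncomputable def l69 : List Con := (true, [n1,n0,m1,m1,n1,n0,n0,n2,n0,n0,n2]) :: r68

noncomputable def r69 : List Con := (true, [n0,n0,n1,n1,m1,n0,n0,m2,n0,n0,m2]) :: r68

noncomputable def l70 : List Con := (true, [n1,n0,n1,n1,m1,n0,n0,m2,n0,n0,m2]) :: l69

noncomputable def r70 : List Con := (true, [n0,n0,m1,m1,n1,n0,n0,n2,n0,n0,n2]) :: l69

noncomputable def l71 : List Con := (true, [n1,n0,m1,m1,n1,n0,n0,n2,n0,n1,n1]) :: r70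

noncomputable def r71 : List Con := (true, [n0,n0,n1,n1,m1,n0,n0,m2,n0,m1,m1]) :: r70

noncomputable def l72 : List Con := (true, [n1,n0,n1,n1,m1,n0,n0,m2,n0,m1,m1]) :: l71

noncomputable def r72 : List Con := (true, [n0,n0,m1,m1,n1,n0,n0,n2,n0,n1,n1]) :: l71

noncomputable def l73 : List Con := (true, [n1,n0,n1,n1,n0,n0,n0,n1,n0,n1,n2]) :: r72

noncomputable def r73 : List Con := (true, [n0,n0,m1,m1,n0,n0,n0,m1,n0,m1,m2]) :: r72

noncomputable def l74 : List Con := (true, [n1,n0,m1,m1,n0,n0,n0,m1,n0,m1,m2]) :: l73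

noncomputable def r74 : List Con := (true, [n0,n0,n1,n1,n0,n0,n0,n1,n0,n1,n2]) :: l73

noncomputable def l75 : List Con := (false, [n0,n0,n0,n0,n0,n0,n0,n0,n0,n0,n0,n0,m1,n2]) :: r74

noncomputable def r75 : List Con := (true, [n1,n0,n0,n0,n0,n0,n0,n0,n0,n0,n0,n0,n1,m2]) :: r74

noncomputable def l76 : List Con := (false, [n0,n0,n0,n0,n0,n0,n0,n0,n0,n0,n0,n0,n1,m2]) :: r75

noncomputable def r76 : List Con := (true, [n1,n0,n0,n0,n0,n0,n0,n0,n0,n0,n0,n0,m1,n2]) :: r75

noncomputable def l77 : List Con := (false, [n0,n0,n0,n0,n0,n0,n0,n0,n0,n0,n0,n0,n1,m2]) :: r73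

noncomputable def r77 : List Con := (true, [n1,n0,n0,n0,n0,n0,n0,n0,n0,n0,n0,n0,m1,n2]) :: r73

noncomputable def l78 : List Con := (false, [n0,n0,n0,n0,n0,n0,n0,n0,n0,n0,n0,n0,m1,n2]) :: r77

noncomputable def r78 : List Con := (true, [n1,n0,n0,n0,n0,n0,n0,n0,n0,n0,n0,n0,n1,m2]) :: r77

noncomputable def l79 : List Con := (true, [n1,n0,n3,n3,m1,n0,n0,n0,n0,n0,n4]) :: r71

noncomputable def r79 : List Con := (true, [n0,n0,m3,m3,n1,n0,n0,n0,n0,n0,m4]) :: r71

noncomputable def l80 : List Con := (true, [n1,n0,m3,m3,n1,n0,n0,n0,n0,n0,m4]) :: l79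

noncomputable def r80 : List Con := (true, [n0,n0,n3,n3,m1,n0,n0,n0,n0,n0,n4]) :: l79

noncomputable def l81 : List Con := (false, [n0,n0,n0,n0,n0,n0,n0,n0,n0,n0,n0,n0,m1,n2]) :: r80

noncomputable def r81 : List Con := (true, [n1,n0,n0,n0,n0,n0,n0,n0,n0,n0,n0,n0,n1,m2]) :: r80

noncomputable def l82 : List Con := (false, [n0,n0,n0,n0,n0,n0,n0,n0,n0,n0,n0,n0,n1,m2]) :: r81

noncomputable def r82 : List Con := (true, [n1,n0,n0,n0,n0,n0,n0,n0,n0,n0,n0,n0,m1,n2]) :: r81

noncomputable def l83 : List Con := (false, [n0,n0,n0,n0,n0,n0,n0,n0,n0,n0,n0,n0,m1,n2]) :: r79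

noncomputable def r83 : List Con := (true, [n1,n0,n0,n0,n0,n0,n0,n0,n0,n0,n0,n0,n1,m2]) :: r79

noncomputable def l84 : List Con := (false, [n0,n0,n0,n0,n0,n0,n0,n0,n0,n0,n0,n0,m1,n2]) :: r69

noncomputable def r84 : List Con := (true, [n1,n0,n0,n0,n0,n0,n0,n0,n0,n0,n0,n0,n1,m2]) :: r69

noncomputable def l85 : List Con := (false, [n0,n0,n0,n0,n0,n0,n0,n0,n0,n0,n0,n0,n1,m2]) :: r84

noncomputable def r85 : List Con := (true, [n1,n0,n0,n0,n0,n0,n0,n0,n0,n0,n0,n0,m1,n2]) :: r84

noncomputable def l86 : List Con := (true, [n1,n0,m3,m3,n2,n0,n0,n0,n0,n0,n7]) :: r67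

noncomputable def r86 : List Con := (true, [n0,n0,n3,n3,m2,n0,n0,n0,n0,n0,m7]) :: r67

noncomputable def l87 : List Con := (true, [n1,n0,n3,n3,m2,n0,n0,n0,n0,n0,m7]) :: l86

noncomputable def r87 : List Con := (true, [n0,n0,m3,m3,n2,n0,n0,n0,n0,n0,n7]) :: l86

noncomputable def l88 : List Con := (false, [n0,n0,n0,n0,n0,n0,n0,n0,n0,n0,n0,n0,n1,m2]) :: r87

noncomputable def r88 : List Con := (true, [n1,n0,n0,n0,n0,n0,n0,n0,n0,n0,n0,n0,m1,n2]) :: r87

noncomputable def l89 : List Con := (false, [n0,n0,n0,n0,n0,n0,n0,n0,n0,n0,n0,n0,m1,n2]) :: r88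

noncomputable def r89 : List Con := (true, [n1,n0,n0,n0,n0,n0,n0,n0,n0,n0,n0,n0,n1,m2]) :: r88

noncomputable def l90 : List Con := (false, [n0,n0,n0,n0,n0,n0,n0,n0,n0,n0,n0,n0,m1,n2]) :: r86

noncomputable def r90 : List Con := (true, [n1,n0,n0,n0,n0,n0,n0,n0,n0,n0,n0,n0,n1,m2]) :: r86

noncomputable def l91 : List Con := (false, [n0,n0,n0,n0,n0,n0,n0,n0,n0,n0,n0,n0,n1,m2]) :: r90

noncomputable def r91 : List Con := (true, [n1,n0,n0,n0,n0,n0,n0,n0,n0,n0,n0,n0,m1,n2]) :: r90

noncomputable def l92 : List Con := (true, [n1,n0,n1,n1,n0,n0,n0,n1,n0,n2,n1]) :: r65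

noncomputable def r92 : List Con := (true, [n0,n0,m1,m1,n0,n0,n0,m1,n0,m2,m1]) :: r65

noncomputable def l93 : List Con := (true, [n1,n0,m1,m1,n0,n0,n0,m1,n0,m2,m1]) :: l92

noncomputable def r93 : List Con := (true, [n0,n0,n1,n1,n0,n0,n0,n1,n0,n2,n1]) :: l92

noncomputable def l94 : List Con := (true, [n1,n0,n1,n1,n0,n0,n0,n2,n0,n1]) :: r93

noncomputable def r94 : List Con := (true, [n0,n0,m1,m1,n0,n0,n0,m2,n0,m1]) :: r93

noncomputable def l95 : List Con := (true, [n1,n0,m1,m1,n0,n0,n0,m2,n0,m1]) :: l94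

noncomputable def r95 : List Con := (true, [n0,n0,n1,n1,n0,n0,n0,n2,n0,n1]) :: l94

noncomputable def l96 : List Con := (false, [n0,n0,n0,n0,n0,n0,n0,n0,n0,n0,n0,n0,m1,n2]) :: r95

noncomputable def r96 : List Con := (true, [n1,n0,n0,n0,n0,n0,n0,n0,n0,n0,n0,n0,n1,m2]) :: r95

noncomputable def l97 : List Con := (false, [n0,n0,n0,n0,n0,n0,n0,n0,n0,n0,n0,n0,n1,m2]) :: r96

noncomputable def r97 : List Con := (true, [n1,n0,n0,n0,n0,n0,n0,n0,n0,n0,n0,n0,m1,n2]) :: r96

noncomputable def l98 : List Con := (false, [n0,n0,n0,n0,n0,n0,n0,n0,n0,n0,n0,n0,m1,n2]) :: r94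

noncomputable def r98 : List Con := (true, [n1,n0,n0,n0,n0,n0,n0,n0,n0,n0,n0,n0,n1,m2]) :: r94

noncomputable def l99 : List Con := (false, [n0,n0,n0,n0,n0,n0,n0,n0,n0,n0,n0,n0,n1,m2]) :: r98

noncomputable def r99 : List Con := (true, [n1,n0,n0,n0,n0,n0,n0,n0,n0,n0,n0,n0,m1,n2]) :: r98

noncomputable def l100 : List Con := (false, [n0,n0,n0,n0,n0,n0,n0,n0,n0,n0,n0,n0,m1,n2]) :: r92

noncomputable def r100 : List Con := (true, [n1,n0,n0,n0,n0,n0,n0,n0,n0,n0,n0,n0,n1,m2]) :: r92

noncomputable def l101 : List Con := (true, [n1,n0,n0,n0,n0,n0,n0,n1,n0,m2]) :: r5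

noncomputable def r101 : List Con := (true, [n0,n0,n0,n0,n0,n0,n0,m1,n0,n2]) :: r5

noncomputable def l102 : List Con := (true, [n1,n0,n0,n0,n0,n0,n0,m1,n0,n2]) :: l101

noncomputable def r102 : List Con := (true, [n0,n0,n0,n0,n0,n0,n0,n1,n0,m2]) :: l101

noncomputable def l103 : List Con := (false, [n0,n0,n0,n0,n0,n0,n0,n0,n0,n0,n0,n0,m1,n2]) :: l102

noncomputable def r103 : List Con := (true, [n1,n0,n0,n0,n0,n0,n0,n0,n0,n0,n0,n0,n1,m2]) :: l102

noncomputable def t0 : Tre :=
  (.N [0,-2,1,-1] (-1) ⟨0,[(2,0)]⟩ ⟨0,[(0,0)]⟩ (.x 0 ⟨19,[(4,2),(13,2),(0,7),(3,19),(0,15),(25,9),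
  (7,3),(13,19)]⟩ ⟨0,[(1,0)]⟩))

theorem ok0 : chk K t0 l2 = true := by decide +kernel

open Helper55.PC in
noncomputable def t1n : Helper55.PC.Ten :=
  (q
  46299249764261086360937258056072871228452322458499504483707568928513198478315499158741072723226160972981589171845425496168864380501151213730836570413456447739298709518
  (q
  46299249764261087179284910030108338820475176877265370507002721606513025393542713351660950919232983021095403908703823197151415182082598940318416421184376880751754477582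
  (q
  46299249764261087997632562004143806412498031296031236530297874284512852308769927544580829115239805069209218646346954390182598647873558664829822062027636250482804129806
  (r
  579695813551177653297583554288771434935911853620536122777873497039712256249777231077836007205067166884412195370811786895193288352078540358153892664263104523547125330446306168412619401397672688031695247755365740556554665829888251853406700891128789648779171311959161476479700240294253086035954903314602132524696026322715166880139585047368614079435236192912139114441351945)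
  (r
  38489595113389155714184552657116328224382998055634134311116887487578762788113401957480109261455035512496956771795109269580204320637068291643207278738373759596380604265007405410727351862099276329228095543592012156189200688343005088534274643443005396582284582264754898859043097013925207833072732429602779728820022093085775406499489301314244712675333236958541351730164711201715296840171677008014597288380534043565601680326227370934835996289491724546002913187840282921874822139637528192648606178780719931620179694545767707272998059793324503964352569437601537680967229721050629591683747761804231315742655627223372163869490199234872472966114964754923530209222464))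
  (q
  46299249764261087997632562004143806412498031296031236530297874284512852308769927544580829115239805069209218646346954390182598647873558664829822062027636250482804129806
  (r
  66933295485490367598379312354717601645461236952358363311144948518987805902697086762802904373204696085643462989629721676523424268748080675205685246329926165917169851802329770753585542927926945753222615606973108273646802639014643655380126784823799898591546960812401199038385859028252133503374008766013039770423500771579459667770753137171954404532489525892103862890599776832295820198282457218825044936117166520088088816622976403945521261805528425257)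
  (r
  38489595113389155714184552657116328224382998055634134311116887487578762788113401957480109261455035512496956771795109269580204320637068291643207278738373759596380604265007405410727351862099276329228095543592012156189200688343005088534274643443005396582284582264754898859043097013925207833072732429602779728820022093085775406499489301314244712675333236958541351730164711201715296840171677008014597288380534043565601680326227370934835996289491724546002913187840282921874822139637528192648606178780719931620179694545767707272998059793324503964352569437601537680967229721050629591683747761804231315742655627223372163869490199234872472966114964754923530209222464)))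
  (q
  46299249764261087179284910030108338820475176877265370507002721606513025393542713351660950919232983021095403909488556689200047846302744762129293375725681936359047168014
  (r
  237972540386573835514783658867390794314203052101144761010352860549788875481480372737930005769430574312839429028113697171249422839934496155486639984371492715280566866818838068833571288504919445648579945026583128445415940926592988070875787948400963500125201686607347635673194996262218287277124905704727670495525922492632689559352565384502294864795578155358651451677461951691900542468605800433372153806009374629862330998638133507268905)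
  (r
  530431250017022538078189981418032275320456215400887459755405799849043264760766482414937325677748938177478045408235914288216609031325131312752163297552203612091117997845146660118941528442102694368578920621393463453342988406662535506101710187938282338861522636039758357848171928249235660038357223359600199391822553485230664341656491482063706801002426695462688925099272320546602834310677682939400420312961133690140018369027777278522498723759704689100027537379017443009259532887836344491041540209478002604928639856397275724441417027634943239145394740510741304675455220608484420080662709855087735530191835151350188937838731289671087735425569271656546320157449811927872)))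

noncomputable def t1 : Tre := Helper55.PC.toT t1n

theorem ok1 : chk K t1 l3 = true :=
  Helper55.PC.chkN_sound K t1n l3 (by decide +kernel)

open Helper55.PC in
noncomputable def t2n : Helper55.PC.Ten :=
  (i 21770096439602752904910321658084429266986 (i 21791364087376855233848253895861826879530 (n
  6739680407483444866175704909932830468494554688835372548252319084101187265491679981700) (q
  237153054294004134512719423627552356497348149178454430058219123256787177035399181 (r
  82288787007140897933064722519648197897462481051112414594111048734212940101624007288996314490403312100461150080572609427372085746811561694668720220985309454687091291700047564198179510273826452668388082315739446795399360916611481293941169933763349296208328851283554699096516266461957463480815110044344074721234607766599909381122383990462527851230910559339995705168437172339747417286534295142064036531432311175737882039768467308549180132782260897602972500543226944838612894049354529165148732494615451363431417339209671189475833323604221175376440639746806061287075645032327395047366691052691659015897885554388190151929495163515585492790669345012587221836809384730929115537282742272833020640951852996046576952065)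
  (r
  530431250017022579044862125294764420496720274524321691965323101352192556878526086636187103766954824197538891859443903012426195242168959659846390590937207271115509156565402836469627361683685157066756719763623355460155509070639046896939435369746007656777009138739459043587918064308698906760674187602879300718293741636362952502981843042487874466549294896918888336468189363396841916671664695646324041845272366161551760120881069780517431330170410135743001559896198419405938043522154650145440439329500510884743752207092799839240819522073151990708172308612661990632379080224183606213394357355043380010669481357021625364298580396392027848883583824107999021927604892738368)))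
  (q
  10779884123304180800363550783546286751482242495123836306536958461986324913852396834565248119544454571387917143793070137420037926024227276032103060825329238030
  (q
  10779884123304180990899961414019289679510260759251538127371548862407002677169792703412936990039331439191302355362786037471998364260533938540169839837213491214
  (r
  234470140417310508683083633280906017491619996378521114298728102620416232981810405363742051997604920810806232134858684992150523665448711239445311417845579987788607667076348555384612577139569181953810147028009124180794982929859504578688852812133442203900900828739521495662024511660784086244215215257256939189157174897078682091262800811344673484324109296135553696798069500411236742846897988361)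
  (q
  10779884123304181181436372044492292607538279023379239948206139262827680440487188572260625860534208307779421058981134601733470800420666391120575555567691628558
  (r
  3001484322772292729993381569554789192187572920040252517877367843013066027514756896172667155486970474397881647328953265438305212874688412829751170769634726722802175842536255302446566369847747308413054642959531352160408099324648970958269001425221743007926426470186990207219255113180464561831334986489237561104204812861390216555960334551834620499594174801613508928213318779393821922009975288694705402159913)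
  (r
  587305893144740392665588303748497624161255425494949210348509084404954074280163604369812887822069990442162046944151570586671074526583714387174349428743858182429797747890756795636628780556298442822866035256244857072794287640424723014330735962543835599486666519283164061152603881144007973171409419586377570600535268069605064399917651981598751891451959653817652347592980107238486723641453516105709495105866347646183661445226396149320075197169714619419732124836924174762459448097439557493524834918533182477329577444044626529693062896003429163598171315852398226718243750691424361244070466822927569518528688036001552923197723632084349200854112332529925381952)))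
  (q
  10779884123304180990899961414019289679510260759251538127371548862407002677169792703412936990039331439976035847411418701692144186071410893081474895444506181646
  (r
  12900517263950981330799673812584700560409848017498289329057805335472069968869119916935426095431154317577960254761428645676960193784955214461361436048086743946492907819012061971072541135507079345098952365709750885224977804015489895467169348564896971260515941188428207335793367604796883266593431927854872010092127822553860202159577253557995709789443509000457522578694314016980033166301682506926952513182016739746089)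
  (r
  338335610427509161522581108167795463175347831083425025449174497685569132279394554215038600510214077597267755495046030452213670061799100173678169965907502023886263193574901444088455518644590266337387851979146919566052654102266181340669992406195987705020080958835548037455198873516142477188152283388308976008984188013882186757305225813448311854903424213132435958624187288642645994667368622196352725723643628922996766522402042755255419202214205971390247853589837262627212819343697708932164436002102653533196184843537433144882287625047718008339462849513678837296197789662470448865577))))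

noncomputable def t2 : Tre := Helper55.PC.toT t2n

theorem ok2 : chk K t2 l4 = true :=
  Helper55.PC.chkN_sound K t2n l4 (by decide +kernel)

noncomputable def t3 : Tre :=
  (.N [0,-2,0,2,-1] (-1) ⟨0,[(2,0)]⟩ ⟨0,[(0,0)]⟩ (.x 1 ⟨1,[(3,1),(9,0),(33,0),(29,0)]⟩ ⟨9,[(24,3),
  (3,14),(0,7),(1,4),(23,7),(7,7),(14,3)]⟩))

theorem ok3 : chk K t3 l7 = true := by decide +kernel

noncomputable def t4 : Tre :=
  (.N [0,-2,0,0,1] (-1) ⟨0,[(0,0)]⟩ ⟨0,[(1,0)]⟩ (.x 0 ⟨4,[(11,1),(11,2),(1,1),(0,1),(33,3),(18,3)]⟩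
  ⟨1,[(22,0),(10,0),(13,1),(21,0)]⟩))

theorem ok4 : chk K t4 l9 = true := by decide +kernel

noncomputable def t5 : Tre :=
  (.N [0,0,1,-2] 0 ⟨0,[(1,0)]⟩ ⟨0,[(5,0)]⟩ (.x (-1) ⟨4,[(17,3),(10,1),(3,8),(0,7),(1,0),(23,3),(21,
  0),(0,1)]⟩ ⟨0,[(0,0)]⟩))

theorem ok5 : chk K t5 l11 = true := by decide +kernel

noncomputable def t6 : Tre :=
  (.N [0,0,1,-2] 0 ⟨0,[(2,0)]⟩ ⟨0,[(6,0)]⟩ (.i 0 ⟨0,[(0,0)]⟩ ⟨0,[(18,0),(14,1)]⟩))

theorem ok6 : chk K t6 l12 = true := by decide +kernel

open Helper55.PC in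
noncomputable def t7n : Helper55.PC.Ten :=
  (r
  9784729517761862648983765544336968981575309453703354475368130728293005908941961260214779229050928050350021444272404199357989777096119192449637322387149055670843016981821034458952769465592960837422239904769614303438734957377051082151629987781137513725576789500511079754438367259144340220752537145474185405310878978248472425772965806033037038028112468259834475608333983707307693743018094505959029375477967259232386842925777344996207608327732463916072493451116258154178588393141570542429545699983651519703604504230954730564010995741355653508100622941275851587431441179727893350599668938130459929742215568936186257780167896129751502027042707591884885321647200433484752759551381370839872)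

noncomputable def t7 : Tre := Helper55.PC.toT t7n

theorem ok7 : chk K t7 r12 = true :=
  Helper55.PC.chkN_sound K t7n r12 (by decide +kernel)

open Helper55.PC in
noncomputable def t8n : Helper55.PC.Ten :=
  (q 237156672796794485640493107135821044682911502592392333647371765092067493296341005 (r
  754916876449517713042530886244755344005979842374735743372752424313805751069775483962726512277845692031426764381154843452419065120932217228277310437597058603220379378225954914196463838311429848293208360539894119280354528154195974996720215822402639836221251697246258089515114461032704637525700651009243556240951856146430148602831893684723609791480286929339804547537011680250948642287860125849581881492449457931586880129933708844238914951546780218004477481380620136650395809660183391118408598050466486648349845955016470297625102883286370326386300672817416256561931954927615580914965267687444700988399040008427667005117743954389942619715054133155960818755212230587014323242171093422961114440029499138190381252087321050639946507739649050914195768576250350451976711749657005026273118956593861549237933984544460621751041)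
  (q
  10779884123304181943582014122757153260319974547343777768651108314680459433626120020374648444174306534016529679107256546390342990724735224503762681457641914382
  (q
  10779884123304182134118424753230156188347992811471479589485698715101137196943515889222337314669183402604648382725605110651815426884867677084168414780306096142
  (r
  168100373115972211265145119158738790941102443626618605655897654414905630411721274974537263179994488688987260983784552961444566057126987198653810892664922802347182936423856297991791270363777731199933345688564730432285503540052174073323308765153332439181761471095470313925215246724792822639556447534158396605205256969584591129134761189305046354368492686554826075847959889703807073506299917490766864814269921431620878992427603303074216180483178108836581744531651730085721228949050946352409257929015958862720353467221042824457506965926897639924520243954654365694727299964404186120552628971602521654899156163199266748852064871804676357742811125110811731458635355679554155229675425634458466200593216)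
  (r
  3577737858415712489457646001259219264978711872163683976181298703819816773995949182715139228025237594067113279338933659226593874713884275241736032344207640174800333630807579929781018428516353530900631436498637118288894413600190393234549554940815023388432865707553476186475364065495069232887539871198812175878724335013397134109507179662738451314421769060239276942745435182455489030267657))
  (q
  706470485904862880341585084627691515959574056892588949255151402223420274838406391889907808602791144570351266563127040485769618890729211025628235403769614673510414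
  (r
  1235624073866794795620859485158925195137085040263162018795134072187042085802852854409034192233197104745264955358364124128057944435947860628938363191337037623776638786009295556892611407080427853484343682435067481185294540090672277831340733011101263014216155501652319825295658271852746107873853644488180481263273005085967148234455390929169123979737691150930851157470420072309003465549994769458486590303882733287052539873738631751267933631383221435970646366422531580201)
  (r
  6390989251664842071784507762275690660716927492210364755098464425938108067321204667185191271003413016460085205283626778342011142289152047647908171406866161557575908003474834546169459774432696924094783458148711723407883344571337093831251220858814504730683489636213635407380769695082438993436658430471571818091475173598621004195320387355658808014621867265495599155772349382393631244214984510975172290723673043420309376253942123179087129597085447777870040780573218185387791921006435196524692109360542617180521265943670389782860844473464110526479304634290729221321192957129832050694320729014378179737149737))))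

noncomputable def t8 : Tre := Helper55.PC.toT t8n

theorem ok8 : chk K t8 r10 = true :=
  Helper55.PC.chkN_sound K t8n r10 (by decide +kernel)

noncomputable def t9 : Tre :=
  (.N [0,0,1,-1,-1] 0 ⟨0,[(1,0)]⟩ ⟨0,[(0,0)]⟩ (.x 0 ⟨1,[(16,0),(17,1),(15,0),(29,0),(0,1)]⟩ ⟨17,[(6,
  8),(5,7),(11,8),(1,7),(0,3),(16,0),(16,8),(4,0)]⟩))

theorem ok9 : chk K t9 l14 = true := by decide +kernel

open Helper55.PC in
noncomputable def t10n : Helper55.PC.Ten :=
  (r
  3242343295549151172490382813491120454026913051434724994428220399932510942141402717682482853225489712609465757236157731340139616781298158028218814748318815526626969772127872867394867526790858341936106786186134735821033793968365501413087595233974982819509706246959080169624858162345439194161016232065397414307327014015955561467325872033729377124965864135914491682447793664984510761081355088745977021110863385578850738785548703441338181298346566649149426514952899882737956264926511394216805024508162232166996932682227759888231729374100048205956499852219328895642942931292028767697085053633028177191836724219582534828996437295374587130658327175782226852478692522048663760862022480822313597673663361697634940663902921687490415341952767145232913790246213420403199094474136514234327003272382917999405146955833983538749011489202945)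

noncomputable def t10 : Tre := Helper55.PC.toT t10n

theorem ok10 : chk K t10 l15 = true :=
  Helper55.PC.chkN_sound K t10n l15 (by decide +kernel)

noncomputable def t11 : Tre :=
  (.N [0,0,1,-2] 0 ⟨0,[(1,0)]⟩ ⟨0,[(7,0)]⟩ (.x (-1) ⟨4,[(19,3),(10,1),(3,8),(0,7),(1,0),(23,3),(21,
  0),(0,1)]⟩ ⟨0,[(0,0)]⟩))

theorem ok11 : chk K t11 l17 = true := by decide +kernel

noncomputable def t12 : Tre :=
  (.N [0,2,0,1,-2] 1 ⟨0,[(0,0)]⟩ ⟨0,[(1,0)]⟩ (.x (-1) ⟨1,[(28,1),(24,2),(10,0),(10,1)]⟩ ⟨19,[(2,9),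
  (14,6),(11,27),(1,6),(0,11),(33,23),(18,13)]⟩))

theorem ok12 : chk K t12 l19 = true := by decide +kernel

noncomputable def t13 : Tre :=
  (.N [0,3,1,0,1] 1 ⟨0,[(0,0)]⟩ ⟨0,[(1,0)]⟩ (.x (-2) ⟨3,[(19,0),(3,3),(9,0),(21,5),(15,1),(5,3),(3,
  1)]⟩ ⟨2,[(34,2),(22,1),(10,3),(18,0)]⟩))

theorem ok13 : chk K t13 l21 = true := by decide +kernel

noncomputable def t14 : Tre :=
  (.N [0,-1,0,0,5] (-1) ⟨0,[(0,0)]⟩ ⟨0,[(1,0)]⟩ (.x 0 ⟨4,[(21,0),(11,23),(1,0),(0,0),(33,1),(18,
  1)]⟩ ⟨1,[(32,2),(10,2),(13,0),(9,0)]⟩))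

theorem ok14 : chk K t14 l23 = true := by decide +kernel

noncomputable def t15 : Tre :=
  (.N [0,0,1,-2] 0 ⟨0,[(8,0)]⟩ ⟨0,[(14,0)]⟩ (.i 1 ⟨1,[(33,0),(6,2),(30,1)]⟩ ⟨0,[(0,0)]⟩))

theorem ok15 : chk K t15 l24 = true := by decide +kernel

noncomputable def t16 : Tre :=
  (.N [0,0,1,-2] 0 ⟨0,[(9,0)]⟩ ⟨0,[(15,0)]⟩ (.i 0 ⟨0,[(0,0)]⟩ ⟨0,[(27,0),(14,1)]⟩))

theorem ok16 : chk K t16 l25 = true := by decide +kernel

open Helper55.PC in
noncomputable def t17n : Helper55.PC.Ten :=
  (r
  597212494980582644631425573577351123718568919203495684338944793630146420107553874282155314650201485334130115784752411039543968182124752993962458329173170402466146948722963958051447761203343091187306315010609539083097853707084294921743256192592667380615773529576954498707855649917721445145005891955315907348093753800842059918340868247905553668009282938310360280606292037316660424222649725195569997697451224574391858305881064042362373837074473107710084466682013874488095292225921729770690213207009533263777329645477751716506312198986366872007018031114970689768264478000674909915813455601812431510018634962292355993043154444998190475071396399668234475414813975215997463210110493504)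

noncomputable def t17 : Tre := Helper55.PC.toT t17n

theorem ok17 : chk K t17 r25 = true :=
  Helper55.PC.chkN_sound K t17n r25 (by decide +kernel)

noncomputable def t18 : Tre :=
  (.N [0,0,1,-2] 0 ⟨0,[(7,0)]⟩ ⟨0,[(13,0)]⟩ (.i 1 ⟨1,[(32,0),(6,2),(30,1)]⟩ ⟨0,[(0,0)]⟩))

theorem ok18 : chk K t18 l26 = true := by decide +kernel

noncomputable def t19 : Tre :=
  (.N [0,0,1,-2] 0 ⟨0,[(8,0)]⟩ ⟨0,[(14,0)]⟩ (.i 0 ⟨0,[(0,0)]⟩ ⟨0,[(26,0),(14,1)]⟩))

theorem ok19 : chk K t19 l27 = true := by decide +kernel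

open Helper55.PC in
noncomputable def t20n : Helper55.PC.Ten :=
  (r
  115018942724531585939571063554499456979736285643617181719554771839070920547844314023494061552082453892417674234567515791508827340028397266877583983152455298976397672362634316399531504330150101154956083784691894845446361370737638014431500990280440315874257346871594059364242015482276768382343561780591655199575211938662557109508478453079736456858633973333255883434285622417085637975964748978375800999249257917371817348620120137489323320417284232530976638441662972604808477122520241102891375412740284713713604291350951608573019268509555178986135707685104794639721791284737298646482043811638240510225313316420826071667650956583138020918151444964160)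

noncomputable def t20 : Tre := Helper55.PC.toT t20n

theorem ok20 : chk K t20 r27 = true :=
  Helper55.PC.chkN_sound K t20n r27 (by decide +kernel)

noncomputable def t21 : Tre :=
  (.N [0,4,0,0,7] 1 ⟨0,[(1,0)]⟩ ⟨0,[(0,0)]⟩ (.x (-2) ⟨0,[(32,2),(30,1)]⟩ ⟨5,[(20,0),(10,0),(2,0),(7,
  0),(15,7),(19,6),(8,7)]⟩))

theorem ok21 : chk K t21 l29 = true := by decide +kernel

noncomputable def t22 : Tre :=
  (.N [0,-1,2,2] (-1) ⟨0,[(1,0)]⟩ ⟨0,[(0,0)]⟩ (.x 0 ⟨3,[(16,3),(5,0),(3,9),(9,0),(37,9),(15,1)]⟩ ⟨8,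
  [(1,3),(5,9),(9,4),(1,4),(3,4),(1,6),(11,4),(6,2),(4,7),(1,0),(19,14),(23,2)]⟩))

theorem ok22 : chk K t22 l31 = true := by decide +kernel

noncomputable def t23 : Tre :=
  (.N [0,0,1,-2] 0 ⟨0,[(9,0)]⟩ ⟨0,[(15,0)]⟩ (.i 1 ⟨1,[(34,0),(6,2),(30,1)]⟩ ⟨0,[(0,0)]⟩))

theorem ok23 : chk K t23 l32 = true := by decide +kernel

noncomputable def t24 : Tre :=
  (.N [0,0,1,-2] 0 ⟨0,[(10,0)]⟩ ⟨0,[(16,0)]⟩ (.i 0 ⟨0,[(0,0)]⟩ ⟨0,[(28,0),(14,1)]⟩))

theorem ok24 : chk K t24 l33 = true := by decide +kernel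

open Helper55.PC in
noncomputable def t25n : Helper55.PC.Ten :=
  (r
  494002597422360336682765745132912427399918494365395866261036616421302187787439016426799784146748027806578040863334284904481035097159804859753535433388840193621918820448136172343905368822750146769355062078846375501826500113051805821762427264403086306246930876803908931188871449651180422911634189383835796147548068123954750835446937725030252922330453394284847679391777125352138854446673393349963375422081967691379349403249382446549943138087057512257286193733212106370478088447378333331136976371137654849220799761244777840240230499186018695777469196227460768981253554416599926006331617591594588048198442365952124204693989191850679356692049747942094946968384)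

noncomputable def t25 : Tre := Helper55.PC.toT t25n

theorem ok25 : chk K t25 r33 = true :=
  Helper55.PC.chkN_sound K t25n r33 (by decide +kernel)

noncomputable def t26 : Tre :=
  (.N [0,0,1,-2] 0 ⟨0,[(8,0)]⟩ ⟨0,[(14,0)]⟩ (.i 1 ⟨1,[(33,0),(6,2),(30,1)]⟩ ⟨0,[(0,0)]⟩))

theorem ok26 : chk K t26 l34 = true := by decide +kernel

noncomputable def t27 : Tre :=
  (.N [0,0,1,-2] 0 ⟨0,[(9,0)]⟩ ⟨0,[(15,0)]⟩ (.i 0 ⟨0,[(0,0)]⟩ ⟨0,[(27,0),(14,1)]⟩))

theorem ok27 : chk K t27 l35 = true := by decide +kernel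

open Helper55.PC in
noncomputable def t28n : Helper55.PC.Ten :=
  (r
  32374954224671805774631970459342842321888994239368183523617894099040634003955746461871613665824241042414572071290968001496539263351924109313791483729191003417855524272560609273799760633508021825066368227391705327762057435071646477395314591044622616700965249833089784066675169749461501493860836109912192780451943924351105485547701568598614062269696861300781421663808856707487798985221355258001086708292368636803890162025745210438288525548625473295052792853056052006814220021503511578367736969269511350654889568677955812351019276471742155788974533915094917779309468025360184885112707636781531221663659075358591270366035494627896119479488159515581258858592740160)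

noncomputable def t28 : Tre := Helper55.PC.toT t28n

theorem ok28 : chk K t28 r35 = true :=
  Helper55.PC.chkN_sound K t28n r35 (by decide +kernel)

noncomputable def t29 : Tre :=
  (.N [0,1,0,0,4] 0 ⟨0,[(0,0)]⟩ ⟨0,[(1,0)]⟩ (.x (-1) ⟨3,[(21,0),(11,11),(1,0),(28,1)]⟩ ⟨47,[(21,2),
  (10,35),(2,2),(7,35),(15,15),(7,9),(20,15)]⟩))

theorem ok29 : chk K t29 l37 = true := by decide +kernel

noncomputable def t30 : Tre :=
  (.N [0,0,1,-2] 0 ⟨0,[(8,0)]⟩ ⟨0,[(14,0)]⟩ (.i 1 ⟨1,[(33,0),(6,2),(30,1)]⟩ ⟨0,[(0,0)]⟩))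

theorem ok30 : chk K t30 l38 = true := by decide +kernel

noncomputable def t31 : Tre :=
  (.N [0,0,1,-2] 0 ⟨0,[(9,0)]⟩ ⟨0,[(15,0)]⟩ (.i 0 ⟨0,[(0,0)]⟩ ⟨0,[(27,0),(14,1)]⟩))

theorem ok31 : chk K t31 l39 = true := by decide +kernel

open Helper55.PC in
noncomputable def t32n : Helper55.PC.Ten :=
  (r
  1451743156403803204436631610758085635606005334514741053199737940919559342474908151763792579100082280294725498079275419785141113346440214236548119442047416680224349740464529144725236767567519919883187910680641756204119165957226219097144058835912013706839241805544564422389371198823292638582853598996592006829692126897251886830580033337391839761522145927272996861646566817290769868170170796099143651451895981396061160165163873549048300158501679973681272625698487105405227442705096718492408671140010835193057397336604335093212882555758666871385128539752593362971444190942728621239064858781255382523706061026820536673088)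

noncomputable def t32 : Tre := Helper55.PC.toT t32n

theorem ok32 : chk K t32 r39 = true :=
  Helper55.PC.chkN_sound K t32n r39 (by decide +kernel)

noncomputable def t33 : Tre :=
  (.N [0,0,1,-2] 0 ⟨0,[(7,0)]⟩ ⟨0,[(13,0)]⟩ (.i 1 ⟨1,[(32,0),(6,2),(30,1)]⟩ ⟨0,[(0,0)]⟩))

theorem ok33 : chk K t33 l40 = true := by decide +kernel

noncomputable def t34 : Tre :=
  (.N [0,0,1,-2] 0 ⟨0,[(8,0)]⟩ ⟨0,[(14,0)]⟩ (.i 0 ⟨0,[(0,0)]⟩ ⟨0,[(26,0),(14,1)]⟩))

theorem ok34 : chk K t34 l41 = true := by decide +kernel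

open Helper55.PC in
noncomputable def t35n : Helper55.PC.Ten :=
  (r
  1755049785225396513970534008005178791420055332666435416312425379119810889098013874288119615893688837036084343532073768776907145000491529091381684321880240148844614136187465313467391960744894506286291526958508090659410405576734129191314847264392983747156557283309970246157189074940399564040748634940182913671643404128126201271490035938243478691598923280699523730404373407621228325239241262699137667606236577852809603568746079688965678884347232086430175135929694709682083144712562154660370393743774213100449043016791791390523860720480828892591581640396131350257176234490818471334779742427621171410827856276087137535687651570552631036593054528)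

noncomputable def t35 : Tre := Helper55.PC.toT t35n

theorem ok35 : chk K t35 r41 = true :=
  Helper55.PC.chkN_sound K t35n r41 (by decide +kernel)

noncomputable def t36 : Tre :=
  (.N [0,3,1,0,1] 1 ⟨0,[(1,0)]⟩ ⟨0,[(0,0)]⟩ (.x (-2) ⟨3,[(18,0),(3,3),(9,0),(21,5),(15,1),(5,3),(3,
  1)]⟩ ⟨2,[(33,2),(22,1),(10,3),(18,0)]⟩))

theorem ok36 : chk K t36 l43 = true := by decide +kernel

noncomputable def t37 : Tre :=
  (.N [0,0,1,-2] 0 ⟨0,[(5,0)]⟩ ⟨0,[(11,0)]⟩ (.i 0 ⟨0,[(0,0)]⟩ ⟨0,[(23,0),(14,1)]⟩))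

theorem ok37 : chk K t37 l44 = true := by decide +kernel

noncomputable def t38 : Tre :=
  (.N [0,0,1,-2] 0 ⟨0,[(6,0)]⟩ ⟨0,[(12,0)]⟩ (.i 1 ⟨1,[(31,0),(6,2),(30,1)]⟩ ⟨0,[(0,0)]⟩))

theorem ok38 : chk K t38 l45 = true := by decide +kernel

open Helper55.PC in
noncomputable def t39n : Helper55.PC.Ten :=
  (r
  408629371138614690495483783285461853612931577726532897942454268767057746988251131513251618431232414720318815167207067283124515167778594795795285103046446464106302520817830066592847986081611887962044418784641440749041399958040578133233939332233535934564309912730620324858547057296153607997601435241884144188408571139699354292481001935767082313049688374476316795156645587331888637749015848581744638613707702575972501815869313707055828546318570646746919708205919791003973593162150111008582715099078769785023353633443543951940632386333571519121165079345451910948411129545013905065318239675974981262579956564509828152947523495181689664)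

noncomputable def t39 : Tre := Helper55.PC.toT t39n

theorem ok39 : chk K t39 r45 = true :=
  Helper55.PC.chkN_sound K t39n r45 (by decide +kernel)

noncomputable def t40 : Tre :=
  (.N [0,1,0,2,2] 0 ⟨0,[(1,0)]⟩ ⟨0,[(0,0)]⟩ (.x (-1) ⟨3,[(13,3),(5,0),(3,1),(9,0),(21,1),(6,1),(18,
  1),(5,1)]⟩ ⟨0,[(4,0),(41,0),(39,0)]⟩))

theorem ok40 : chk K t40 l47 = true := by decide +kernel

noncomputable def t41 : Tre :=
  (.N [0,0,1,-2] 0 ⟨0,[(6,0)]⟩ ⟨0,[(12,0)]⟩ (.i 1 ⟨1,[(31,0),(6,2),(30,1)]⟩ ⟨0,[(0,0)]⟩))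

theorem ok41 : chk K t41 l48 = true := by decide +kernel

noncomputable def t42 : Tre :=
  (.N [0,0,1,-2] 0 ⟨0,[(7,0)]⟩ ⟨0,[(13,0)]⟩ (.i 0 ⟨0,[(0,0)]⟩ ⟨0,[(25,0),(14,1)]⟩))

theorem ok42 : chk K t42 l49 = true := by decide +kernel

open Helper55.PC in
noncomputable def t43n : Helper55.PC.Ten :=
  (r
  139049369604462431396137276462910322594709831940198459541001706898286987821584076184757419813373813601739429108585499828638438823794284725067683764218870340326912892191215089238530999367413039523900652124828936404833078929846821679233554268075812000290669050097310878749494098097190916410674958488833942154552108974779448579618785484512435135278563219359287607864415678004403609261390810558292682358783365784483851979240437369665692895496067348216116554897515322960386193877975892639669725929758499376236757220379753466151344247921686888946940757191717820143274175923702307102294569464781767932385459002350275458599157230053874383601602537548584889267944977742822646592)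

noncomputable def t43 : Tre := Helper55.PC.toT t43n

theorem ok43 : chk K t43 r49 = true :=
  Helper55.PC.chkN_sound K t43n r49 (by decide +kernel)

noncomputable def t44 : Tre :=
  (.N [0,0,1,-2] 0 ⟨0,[(5,0)]⟩ ⟨0,[(11,0)]⟩ (.i 0 ⟨0,[(0,0)]⟩ ⟨0,[(23,0),(14,1)]⟩))

theorem ok44 : chk K t44 l50 = true := by decide +kernel

noncomputable def t45 : Tre :=
  (.N [0,0,1,-2] 0 ⟨0,[(6,0)]⟩ ⟨0,[(12,0)]⟩ (.i 1 ⟨1,[(31,0),(6,2),(30,1)]⟩ ⟨0,[(0,0)]⟩))

theorem ok45 : chk K t45 l51 = true := by decide +kernel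

open Helper55.PC in
noncomputable def t46n : Helper55.PC.Ten :=
  (r
  39138918071047459664355661253271240287918375913286805802806919840167122143674199085867759908384259380371285784462016713329296794534839783127440678499622035884703519038040677867379688554325460515457700568452451990754389756734947114895919252728868170758504405729073091538885616011203568057894139901644634460727330933511287563036102992767184516154765908338527290741694070762629614882270202784230337436782175608578885199719793720744069358987639999302931270695659170090874554367332257951806294205285904438654246601601889370945880625910041355349930725167791009926103277026939082164561060980942644608675932064559911209028194671755110467713738589135226124829629650066075150625216773583283008)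

noncomputable def t46 : Tre := Helper55.PC.toT t46n

theorem ok46 : chk K t46 r51 = true :=
  Helper55.PC.chkN_sound K t46n r51 (by decide +kernel)

open Helper55.PC in
noncomputable def t47n : Helper55.PC.Ten :=
  (r
  168100373115972204773716802591435679118529522658942134228805436154684489137761910298885690898535316378809533824194650206142531866311430958158155008330721964319471515523727939318536166925434602989113989543704898392482564573339810168234464991318549417317489778018907583799632689459164728286034623939467603601706611816941483248943393262923390939408713412734143792981917715161544273091627542972288823873694301132231660093780699549368941684895681154121267446886970036636820162290365884268573820508304481309832421858896391410242970864853747572308462771500772163771873693191134324657666671924326239219614582942713131603382026670971057658471427037218739100759881500300314499563944155513794803766928192)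

noncomputable def t47 : Tre := Helper55.PC.toT t47n

theorem ok47 : chk K t47 r16 = true :=
  Helper55.PC.chkN_sound K t47n r16 (by decide +kernel)

open Helper55.PC in
noncomputable def t48n : Helper55.PC.Ten :=
  (q
  706470485904862855367596682099484722609910019378666280558892401417228370471481064931616419958958168738292847314100332932931142308649057437931094157484117417132046
  (q
  706470485904862867854590883363542373566510804629300638194452205706657378280277789862198213421347945511174211393465575717337009149717341090510848023089818808483854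
  (q
  706470485904862880341585084627600024523111589879934995830012009996086386089074514792780006883737722284054006005846721236414425065318115938017050312412640357515278
  (r
  162626438986977753594504216042233426742337887002190488125738697961288279061342997328372043551574096686774750220931909725102755120307482735684761533970380756879598767037296879642484052308783876020121287449947742269993949494986617682608229682600460482773993655905967610793025377801171885541060415067293734062233751497308781353009228393424825751071881469575169572196297145283922865955593)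
  (r
  2481482292762059898259527114734388103624245551364765427207462064725202982317196081398941099358322984798361960612521050499348097996628150298078090356614814586874332217587630168829144821854200908124017846890907933964622394042560349662887889220418184478330554205942236150266272304829189650311013582599271723356197054755257299252084595423542970305644085285272893727801037509917680425))
  (q
  46299249764261093726066120106154395207146641154371419880778545703754747950881086917594204363842983999148912018923458443923891487902058384483803830254157237217877164046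
  (r
  12885380197305709401775251239070823955648318341836141209805381095393411691365046298665737126567246686373046383337866754587001336785003859865513007614279650068846696955623514877475595665596492487958005206220500854001918992134477394638438393978301441383939303200649739317219564322952820168637825920539211416414517546771565993016726356266635775811272234841925866072470972995806807949781834570798632514323037297058089)
  (r
  78775024473845064786053134296547388350657104662709894490472275434175817318338521423088063319012842574998703988184594641105122360973820694905464824973012743130423756661387775582085435855514583015491455417035879265303522104102891302808127515138761481609305402226457559778058338797728845765003052470364399312701500700906257794769711643584993005676848878374761571237462102145640036312740680534307553113254866994984044333734317743504478999801476766750716255888912844613816239195096804661423628319821977717688832135091748152403191008414584915068173207011950483323441002045737)))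
  (r
  5613094757239112678873213651853473619250971926838670363074222669183192691328868956691716086947265879773972832060447193936648543390112701232617331685936200476878188165671499431095285573880974464329637647911735834498106546553712502036201046428870732267379668030218437483674286466273343667238470012164298357273155499211132884156392099993989261237713889401096544632942691352807137237565392915459798435088167716574445549519657688567111832652217413598412688551740179982829575194244018154862882725449759190937001347822074784681073460293107541844732650964986134214955609938284612928999250378989632938634152013355226167166700480164201312627484919019790364365627096402242564435662367693954554653380468544))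

noncomputable def t48 : Tre := Helper55.PC.toT t48n

theorem ok48 : chk K t48 l52 = true :=
  Helper55.PC.chkN_sound K t48n l52 (by decide +kernel)

open Helper55.PC in
noncomputable def t49n : Helper55.PC.Ten :=
  (i 178514854604440155954839235104128804294098987 (n
  581132402743588466372062177497982939006204287054565848865492401286752476442615032352846833827065989)
  (q 237158482048189661204379948889955388775693179299361285441948086009707651426811917 (r
  13925758416788466646425121944370710700917393453663574063005893506562213455775230881990406068118035377340523671185227457309778359799102550824015432535732345332767454729859945675899408364308174319466162082922554519059541679231696726037574235301154154741079650874868746159199211658760818364228715179984262902520054658939485004553858541845299890218767116038394600273038133877967106190874657240683364597693130621288955505005360261897866371492626310456181968557248502612495174114872093772626672681228831434712991769217014321602053170496137473345746319214118712548167892581954877968086965860860305754576339854325438088460154598854278561478087555144367873313678557964779528396813609928193939778627650435366080907858815136233300997456509872874744643346672670503471947284265106503945363707893512478234241185834073712999523903818655793785611009)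
  (q
  706470485904862892828579658032907063970016604233345973616108245992872133831894051585532870140283677352971768321663322473110952670329643982094897081808752191078414
  (q
  46299249764261095362761448442885879557430797237222134982972195959952118170710791743447374044177343995840305970790177370815424670107748403845915247962561147787070799886
  (r
  55407299750154437365136022570976337357249641914638310488411500441544461649948572180451560723175103998183971952229988605720093061007484367599290678443275498189480016520762215040887130606674836437537785465470466719674467950399745390962114160575159106981584806955452199353964429515797105349409699529868654547933970201381698687698999774499946734295929895992072351225114559803957761703847409789891632039793314527733728181231913)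
  (r
  22173210050549830804114583388212587839537327670906872716418662297477303411238427073227987379015779021752218595654096059493656948020334375474389542387836373327139927947302923180335103022023770066147007163681959841272856001401033730995049576258526058765948186400582300085385623713590895585185406726718485778000671744584305740876685232352848525196599810972042961850488869787880244309108102541113799036461667531883388060713619164103049704985425471794746138917760830853948159790769763876830997112971566184101142864487306317374891308190961954972861091928682057660657046703564387003645813033))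
  (r
  3100904561565424940928377424788890497497556016915607483840992819213999460384724002292407435803047703907330553853981707200248302138045364411000033065776523749552795775407269966825599149429537896550435407023418469614228918777942649365563221503828582528894401961395853835831209756289897514836052154119499622398895699782021944384594284365636537490291597543564072177046764755795465286917133555123856200100838799876255760880641179203941748472153340959035826985814640101840163684791728761968696202251335000555569824731687806385675377391512377831322243955883872954095128712844531002445767247205101073829589312192663873919378078012913624799547289272758712464928760599976073226557306491545645068524513526874983418271376192))))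

noncomputable def t49 : Tre := Helper55.PC.toT t49n

theorem ok49 : chk K t49 l53 = true :=
  Helper55.PC.chkN_sound K t49n l53 (by decide +kernel)

open Helper55.PC in
noncomputable def t50n : Helper55.PC.Ten :=
  (i 178471293144562371920014945803486890385604651 (n
  45100469948372402641991091025508713657192919932415150192546879836958955107925365899432724954113995958842167429)
  (r
  6836564008159946491562454706791120782324979620861725676912877847393363551601962439070479324571857167363945109616069991219412928159006640309598621284841874299610380534244336533517084985714301546588334558937005940432197274651347968998399781486446872290645859523097061486117319069897849007084662390194414238004022962376746892882740444918053289130093616029495507212871931549906616802213340051917211825992187299156467537872974368227539591389864844267426284424674076920255578397966353528795907728051391204421470218452914557951433524298726158806445441341412362643135678050721987085910345446903863182044989811017168107103712473763543479010991976962182821983773561322443595167497317159302317015585838026769736591089269520596703205849454682192484785984))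

noncomputable def t50 : Tre := Helper55.PC.toT t50n

theorem ok50 : chk K t50 l54 = true :=
  Helper55.PC.chkN_sound K t50n l54 (by decide +kernel)

noncomputable def t51 : Tre :=
  (.N [0,0,1,-2] 0 ⟨0,[(1,0)]⟩ ⟨0,[(8,0)]⟩ (.x (-1) ⟨4,[(20,3),(10,1),(3,8),(0,7),(1,0),(23,3),(21,
  0),(0,1)]⟩ ⟨0,[(0,0)]⟩))

theorem ok51 : chk K t51 l56 = true := by decide +kernel

noncomputable def t52 : Tre :=
  (.N [0,3,2] 1 ⟨0,[(1,0)]⟩ ⟨0,[(0,0)]⟩ (.x (-2) ⟨3,[(18,0),(3,7),(9,0),(21,5),(15,7),(5,5)]⟩ ⟨2,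
  [(1,0),(11,1),(5,2),(13,1),(1,4),(23,0),(7,6),(18,0)]⟩))

theorem ok52 : chk K t52 l58 = true := by decide +kernel

noncomputable def t53 : Tre :=
  (.N [0,-1,0,0,7] (-1) ⟨0,[(1,0)]⟩ ⟨0,[(0,0)]⟩ (.x 0 ⟨4,[(20,0),(11,33),(1,0),(0,0),(33,1),(18,
  1)]⟩ ⟨2,[(31,5),(10,5),(13,2),(1,0),(7,0),(20,0)]⟩))

theorem ok53 : chk K t53 l60 = true := by decide +kernel

noncomputable def t54 : Tre :=
  (.N [0,0,1,-2] 0 ⟨0,[(6,0)]⟩ ⟨0,[(13,0)]⟩ (.i 1 ⟨1,[(32,0),(6,2),(30,1)]⟩ ⟨0,[(0,0)]⟩))

theorem ok54 : chk K t54 l61 = true := by decide +kernel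

noncomputable def t55 : Tre :=
  (.N [0,0,1,-2] 0 ⟨0,[(7,0)]⟩ ⟨0,[(14,0)]⟩ (.i 0 ⟨0,[(0,0)]⟩ ⟨0,[(26,0),(14,1)]⟩))

theorem ok55 : chk K t55 l62 = true := by decide +kernel

open Helper55.PC in
noncomputable def t56n : Helper55.PC.Ten :=
  (r
  23785359874519910782985816591837204279388460255063607804594563863582620905056255510132581533682365892093296506369941274283347037174038239678867486582548504155303123695757577305799440984651938336147724018844999717740266767527020853942363137737794059233374327700636567046402550942923772259296463402740198660403613669364690697536981535828388260017047439416787128374108534762693437578795501629427750742411248569371699294072759218821610664087895091752526132479317226905033409901717777078135030162590486965083930066091130926703715457136765324987694472809876095700511933906622045462165260631008516031960587035340107000072905536)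

noncomputable def t56 : Tre := Helper55.PC.toT t56n

theorem ok56 : chk K t56 r62 = true :=
  Helper55.PC.chkN_sound K t56n r62 (by decide +kernel)

noncomputable def t57 : Tre :=
  (.N [0,0,1,-2] 0 ⟨0,[(5,0)]⟩ ⟨0,[(12,0)]⟩ (.i 0 ⟨0,[(0,0)]⟩ ⟨0,[(24,0),(14,1)]⟩))

theorem ok57 : chk K t57 l63 = true := by decide +kernel

noncomputable def t58 : Tre :=
  (.N [0,0,1,-2] 0 ⟨0,[(6,0)]⟩ ⟨0,[(13,0)]⟩ (.i 1 ⟨1,[(32,0),(6,2),(30,1)]⟩ ⟨0,[(0,0)]⟩))

theorem ok58 : chk K t58 l64 = true := by decide +kernel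

open Helper55.PC in
noncomputable def t59n : Helper55.PC.Ten :=
  (r
  362935789100950773078630842582386966926076534002535725836990315534029497881782724860584862588295659434093608207104918802860458297411898400525221704591713684473348925112299265629947100197503801007067660141663950161243066790041104737254958926411712200927092979737770302149071094794266507515521743744349836067182632691703517447199476143429489966520146838183524301382810995283388285178963030264781753127203433702518058125630212403190103446609121577752033779852642725644678956175594915732385665581662527154703696423389307812311060212075355383691787090038237507430709076734554545242563590764833177635054731595981183525696)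

noncomputable def t59 : Tre := Helper55.PC.toT t59n

theorem ok59 : chk K t59 r64 = true :=
  Helper55.PC.chkN_sound K t59n r64 (by decide +kernel)

noncomputable def t60 : Tre :=
  (.N [0,-1,2,2] (-1) ⟨0,[(0,0)]⟩ ⟨0,[(1,0)]⟩ (.x 0 ⟨3,[(13,3),(5,0),(3,9),(9,0),(37,9),(15,1)]⟩ ⟨8,
  [(0,3),(2,9),(10,4),(1,4),(3,4),(1,6),(11,4),(6,2),(4,7),(1,0),(19,14),(23,2)]⟩))

theorem ok60 : chk K t60 l66 = true := by decide +kernel

noncomputable def t61 : Tre :=
  (.N [0,1,0,0,5] 0 ⟨0,[(1,0)]⟩ ⟨0,[(0,0)]⟩ (.x (-1) ⟨3,[(21,0),(11,15),(1,0),(28,1)]⟩ ⟨2,[(32,2),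
  (10,2),(15,0),(7,0),(20,0)]⟩))

theorem ok61 : chk K t61 l68 = true := by decide +kernel

noncomputable def t62 : Tre :=
  (.N [0,-1,2,0,2] (-1) ⟨0,[(1,0)]⟩ ⟨0,[(0,0)]⟩ (.x 0 ⟨3,[(23,0),(3,1),(9,0),(21,1),(6,1),(18,1),(5,
  5)]⟩ ⟨42,[(1,2),(5,16),(3,5),(8,33),(5,41),(11,1),(11,64),(21,3),(13,14),(3,22)]⟩))

theorem ok62 : chk K t62 l70 = true := by decide +kernel

noncomputable def t63 : Tre :=
  (.N [0,-1,2,1,1] (-1) ⟨0,[(1,0)]⟩ ⟨0,[(0,0)]⟩ (.x 0 ⟨3,[(19,1),(5,0),(3,5),(9,0),(21,1),(15,3),(9,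
  1),(5,3)]⟩ ⟨24,[(1,3),(7,18),(3,3),(8,16),(5,27),(11,10),(6,3),(4,29),(21,21),(13,7),(3,1),(5,
  3)]⟩))

theorem ok63 : chk K t63 l72 = true := by decide +kernel

noncomputable def t64 : Tre :=
  (.N [0,1,1,1,2] 0 ⟨0,[(1,0)]⟩ ⟨0,[(0,0)]⟩ (.x (-1) ⟨3,[(21,1),(5,0),(3,3),(9,0),(21,3),(25,3),(5,
  1)]⟩ ⟨42,[(2,2),(8,19),(3,2),(14,29),(5,2),(5,7),(6,2),(4,49),(10,2),(5,2),(4,12),(3,2),(9,11),(3,
  19)]⟩))

theorem ok64 : chk K t64 l74 = true := by decide +kernel

noncomputable def t65 : Tre :=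
  (.N [0,0,1,-2] 0 ⟨0,[(13,0)]⟩ ⟨0,[(20,0)]⟩ (.i 1 ⟨1,[(39,0),(6,2),(30,1)]⟩ ⟨0,[(0,0)]⟩))

theorem ok65 : chk K t65 l75 = true := by decide +kernel

noncomputable def t66 : Tre :=
  (.N [0,0,1,-2] 0 ⟨0,[(14,0)]⟩ ⟨0,[(21,0)]⟩ (.i 0 ⟨0,[(0,0)]⟩ ⟨0,[(33,0),(14,1)]⟩))

theorem ok66 : chk K t66 l76 = true := by decide +kernel

open Helper55.PC in
noncomputable def t67n : Helper55.PC.Ten :=
  (r
  84502573381399476248948455237141902403565870153237047531808805158715882219045573081041603681995158179140684722325188794846115293673388029772077070983492830433868014077207866260012368343838838545121775151700983152613661466154771844167652043112779626496125563073018980745838945772988699710104043454941417023733641556589549676292467778135488584419073110827956400850154571893004913547624035414461799466928011345930190686873731934715196065235770170796574089377808180565496915090187392245674831282253505384169040218780770474641826270443841543193293715285268043445657106203186241180294475128666218106556701221696)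

noncomputable def t67 : Tre := Helper55.PC.toT t67n

theorem ok67 : chk K t67 r76 = true :=
  Helper55.PC.chkN_sound K t67n r76 (by decide +kernel)

noncomputable def t68 : Tre :=
  (.N [0,0,1,-2] 0 ⟨0,[(12,0)]⟩ ⟨0,[(19,0)]⟩ (.i 0 ⟨0,[(0,0)]⟩ ⟨0,[(31,0),(14,1)]⟩))

theorem ok68 : chk K t68 l77 = true := by decide +kernel

noncomputable def t69 : Tre :=
  (.N [0,0,1,-2] 0 ⟨0,[(13,0)]⟩ ⟨0,[(20,0)]⟩ (.i 1 ⟨1,[(39,0),(6,2),(30,1)]⟩ ⟨0,[(0,0)]⟩))

theorem ok69 : chk K t69 l78 = true := by decide +kernel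

open Helper55.PC in
noncomputable def t70n : Helper55.PC.Ten :=
  (r
  23785359874519916294012606436880685306377800468164434078091325874109644087079337753774799618264239900499099987081834159067794082499733228462648126354200837223745559345175836538446942830741168503167009322331455075596359456284521434274161417309659119430461421791692043283817606333615079865611579177230635476709322292627755267100831926949430805248556638365037811397573220543197248565207022933953589022915482550155711785293886715198742104374401670924483469252660019574468416000874795099131866530208618299337252749512444224942806927777499315871562620470674538144028164795841333380841672433512689152575478586286717510292349760)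

noncomputable def t70 : Tre := Helper55.PC.toT t70n

theorem ok70 : chk K t70 r78 = true :=
  Helper55.PC.chkN_sound K t70n r78 (by decide +kernel)

noncomputable def t71 : Tre :=
  (.N [0,3,0,0,4] 1 ⟨0,[(1,0)]⟩ ⟨0,[(0,0)]⟩ (.x (-2) ⟨3,[(26,0),(11,3),(1,0),(28,5)]⟩ ⟨19,[(26,0),
  (13,0),(0,5),(22,21),(19,9),(8,9)]⟩))

theorem ok71 : chk K t71 l80 = true := by decide +kernel

noncomputable def t72 : Tre :=
  (.N [0,0,1,-2] 0 ⟨0,[(12,0)]⟩ ⟨0,[(19,0)]⟩ (.i 1 ⟨1,[(38,0),(6,2),(30,1)]⟩ ⟨0,[(0,0)]⟩))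

theorem ok72 : chk K t72 l81 = true := by decide +kernel

noncomputable def t73 : Tre :=
  (.N [0,0,1,-2] 0 ⟨0,[(13,0)]⟩ ⟨0,[(20,0)]⟩ (.i 0 ⟨0,[(0,0)]⟩ ⟨0,[(32,0),(14,1)]⟩))

theorem ok73 : chk K t73 l82 = true := by decide +kernel

open Helper55.PC in
noncomputable def t74n : Helper55.PC.Ten :=
  (r
  1289406942465201919338451451353194334964989463104369513367978307357430939538623691785240874108707342117135067419473574154946745348532535588629620894353928737284470642012065171263626333269279508158752614134861418305933786435785753632180070607552226226633813515342635317500440969039367705027410477730774323722198514595269112219157264043234453581767484274951890845215656250379456838277110846167614912844930241245172887793515453845644471720333300165980673644592171918811162005402146423085889806134242737813801046030338784172335182638347359657668636983825535126476666568934650306926117415238899028858250048)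

noncomputable def t74 : Tre := Helper55.PC.toT t74n

theorem ok74 : chk K t74 r82 = true :=
  Helper55.PC.chkN_sound K t74n r82 (by decide +kernel)

noncomputable def t75 : Tre :=
  (.N [0,0,1,-2] 0 ⟨0,[(11,0)]⟩ ⟨0,[(18,0)]⟩ (.i 1 ⟨1,[(37,0),(6,2),(30,1)]⟩ ⟨0,[(0,0)]⟩))

theorem ok75 : chk K t75 l83 = true := by decide +kernel

open Helper55.PC in
noncomputable def t76n : Helper55.PC.Ten :=
  (r
  23785359874519914457003493998073446533844678583873259642382837783522237506643866421023434385049118327853741833654599232696365059158978170068868533640734224072456378526806202186139979403902412579270707520945383558257981205329857462793981974928322276268101414962685905843055106716380804503991137591394104425653960962785228389252177008775692229709467674809923416655583531082722352025163175008937212291001935904486539546936824681250914128594467389835515521230512765312279727877374095631277415699724339971187652058882040139043903350219117644905297184510054364276612286365327903331859539225709303104966957527154552540968002368)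

noncomputable def t76 : Tre := Helper55.PC.toT t76n

theorem ok76 : chk K t76 r83 = true :=
  Helper55.PC.chkN_sound K t76n r83 (by decide +kernel)

noncomputable def t77 : Tre :=
  (.N [0,0,1,-2] 0 ⟨0,[(8,0)]⟩ ⟨0,[(15,0)]⟩ (.i 1 ⟨1,[(34,0),(6,2),(30,1)]⟩ ⟨0,[(0,0)]⟩))

theorem ok77 : chk K t77 l84 = true := by decide +kernel

noncomputable def t78 : Tre :=
  (.N [0,0,1,-2] 0 ⟨0,[(9,0)]⟩ ⟨0,[(16,0)]⟩ (.i 0 ⟨0,[(0,0)]⟩ ⟨0,[(28,0),(14,1)]⟩))

theorem ok78 : chk K t78 l85 = true := by decide +kernel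

open Helper55.PC in
noncomputable def t79n : Helper55.PC.Ten :=
  (r
  362935789100950815124426823535356965074564665471354494090065831709148723460466462578114194267544349879082158507326506975700565181761895059090076973122492835714006854885854913797401616610609160213266564934905811600523953921834961932421638891241052619066408083664672460325274037186755064087460269091939069400102287531994431514269218215483958772480001014443192480466577396955320127549554103352369628686026299143862683854236429323697443890611054160720899991893665347093673479868278609597445630828786542948721513589316511762956428548779449301600809397507719914232546460834215655621321254502167798313027345564415910224704)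

noncomputable def t79 : Tre := Helper55.PC.toT t79n

theorem ok79 : chk K t79 r85 = true :=
  Helper55.PC.chkN_sound K t79n r85 (by decide +kernel)

noncomputable def t80 : Tre :=
  (.N [0,-3,0,0,7] (-2) ⟨0,[(1,0)]⟩ ⟨0,[(0,0)]⟩ (.x 1 ⟨9,[(22,0),(11,63),(1,0),(0,5),(33,11),(18,
  11)]⟩ ⟨1,[(33,4),(10,4),(13,2),(9,0)]⟩))

theorem ok80 : chk K t80 l87 = true := by decide +kernel

noncomputable def t81 : Tre :=
  (.N [0,0,1,-2] 0 ⟨0,[(8,0)]⟩ ⟨0,[(15,0)]⟩ (.i 0 ⟨0,[(0,0)]⟩ ⟨0,[(27,0),(14,1)]⟩))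

theorem ok81 : chk K t81 l88 = true := by decide +kernel

noncomputable def t82 : Tre :=
  (.N [0,0,1,-2] 0 ⟨0,[(9,0)]⟩ ⟨0,[(16,0)]⟩ (.i 1 ⟨1,[(35,0),(6,2),(30,1)]⟩ ⟨0,[(0,0)]⟩))

theorem ok82 : chk K t82 l89 = true := by decide +kernel

open Helper55.PC in
noncomputable def t83n : Helper55.PC.Ten :=
  (r
  362935789100950815124423482017222728559892701475662802710151467568355627804399182314144440454495461825658873059627411224515641139490135045370044058541329753006971569129621402598182173645064017847161766439661724294329348266910580909430601023677142670703660170389715062126764874316597300854634537741025540795787392160728982974067848634323284934800367394192588292835358345088766101105636259057665773258885209430236365834057282898963353191116040686970605026906772291617464800450272065074336078901874124267555106884858236465080443524768000691957290632637702170072681519817141234692971971493360103574621208853034458948416)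

noncomputable def t83 : Tre := Helper55.PC.toT t83n

theorem ok83 : chk K t83 r89 = true :=
  Helper55.PC.chkN_sound K t83n r89 (by decide +kernel)

noncomputable def t84 : Tre :=
  (.N [0,0,1,-2] 0 ⟨0,[(7,0)]⟩ ⟨0,[(14,0)]⟩ (.i 1 ⟨1,[(33,0),(6,2),(30,1)]⟩ ⟨0,[(0,0)]⟩))

theorem ok84 : chk K t84 l90 = true := by decide +kernel

noncomputable def t85 : Tre :=
  (.N [0,0,1,-2] 0 ⟨0,[(8,0)]⟩ ⟨0,[(15,0)]⟩ (.i 0 ⟨0,[(0,0)]⟩ ⟨0,[(27,0),(14,1)]⟩))

theorem ok85 : chk K t85 l91 = true := by decide +kernel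

open Helper55.PC in
noncomputable def t86n : Helper55.PC.Ten :=
  (r
  1558797344736536933268883752407571741695856263110070958718750847042514750459944111805730032892643280088957142055430030880329220348444554144034577621729480100066069702312329031768733598332024946379791413765624030280990046604342531228465371049454492533522037147149615926603249510923072850159576479997487909897393664152680161564626365483257362211803141577823956737348830544196296764335113918464426420552062366629895076350045372766072556722802546528994420664672944811332838418964956757985792806209852407942150908526698617124182685320398536159825021496740384432938610468618767988038868492047357994472282550535125986942285118710592)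

noncomputable def t86 : Tre := Helper55.PC.toT t86n

theorem ok86 : chk K t86 r91 = true :=
  Helper55.PC.chkN_sound K t86n r91 (by decide +kernel)

noncomputable def t87 : Tre :=
  (.N [0,1,1,2,1] 0 ⟨0,[(1,0)]⟩ ⟨0,[(0,0)]⟩ (.x (-1) ⟨3,[(14,3),(5,0),(3,7),(9,0),(21,1),(15,5),(9,
  1)]⟩ ⟨7,[(2,1),(1,5),(18,2),(5,0),(5,5),(6,3),(4,2),(10,0),(5,0),(4,10),(3,0),(19,2)]⟩))

theorem ok87 : chk K t87 l93 = true := by decide +kernel

noncomputable def t88 : Tre :=
  (.N [0,1,2,1] 0 ⟨0,[(1,0)]⟩ ⟨0,[(0,0)]⟩ (.x (-1) ⟨3,[(16,0),(5,0),(3,8),(6,1),(2,0),(21,2),(10,0),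
  (4,6),(9,1)]⟩ ⟨11,[(1,4),(4,5),(10,5),(5,6),(1,8),(11,6),(1,4),(9,8),(11,0),(9,20)]⟩))

theorem ok88 : chk K t88 l95 = true := by decide +kernel

noncomputable def t89 : Tre :=
  (.N [0,0,1,-2] 0 ⟨0,[(8,0)]⟩ ⟨0,[(15,0)]⟩ (.i 1 ⟨1,[(34,0),(6,2),(30,1)]⟩ ⟨0,[(0,0)]⟩))

theorem ok89 : chk K t89 l96 = true := by decide +kernel

noncomputable def t90 : Tre :=
  (.N [0,0,1,-2] 0 ⟨0,[(9,0)]⟩ ⟨0,[(16,0)]⟩ (.i 0 ⟨0,[(0,0)]⟩ ⟨0,[(28,0),(14,1)]⟩))

theorem ok90 : chk K t90 l97 = true := by decide +kernel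

open Helper55.PC in
noncomputable def t91n : Helper55.PC.Ten :=
  (r
  6694983616735064123222038661504340299076475738134141699489222307743771431948198675933527211168240075227352899366706906447051287086459669413686738362717166416444374627860664965235694769420337895587245224250110819675663161890029032702711434772129585537149792325192737644881859683741660448686799515286722991161218918859852893349389264231620222482781881232232099290729181315545927395770655445944342060692815968422423888975229358869295030976277189735945332133827305738879981728923792726060028055421057990314528839236406340960892391629561503000467604672362257782217815698696234542593306422826801063487968971583186819206138625378283073839936)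

noncomputable def t91 : Tre := Helper55.PC.toT t91n

theorem ok91 : chk K t91 r97 = true :=
  Helper55.PC.chkN_sound K t91n r97 (by decide +kernel)

noncomputable def t92 : Tre :=
  (.N [0,0,1,-2] 0 ⟨0,[(7,0)]⟩ ⟨0,[(14,0)]⟩ (.i 1 ⟨1,[(33,0),(6,2),(30,1)]⟩ ⟨0,[(0,0)]⟩))

theorem ok92 : chk K t92 l98 = true := by decide +kernel

noncomputable def t93 : Tre :=
  (.N [0,0,1,-2] 0 ⟨0,[(8,0)]⟩ ⟨0,[(15,0)]⟩ (.i 0 ⟨0,[(0,0)]⟩ ⟨0,[(27,0),(14,1)]⟩))

theorem ok93 : chk K t93 l99 = true := by decide +kernel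

open Helper55.PC in
noncomputable def t94n : Helper55.PC.Ten :=
  (r
  5537960649123394792315209231530459070199357054456154112354052355167207901089711128171195869969676835214603521448246791011375550611875532581630130912236183249554492044496814997134256935609730541542430919454972234493759396671714978411903626385475592050234315689570564439503817449843384857500355451511665840404652045068730222839641760282425935322224592311323020449960296640958455109038933590728407189765510394674488953681243939503034557022298214380687951516865082727197796023952015042459180913660037491878646285115594179466521805423541510172494595773144453247208018846142301097813532723407931333711409274970972992)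

noncomputable def t94 : Tre := Helper55.PC.toT t94n

theorem ok94 : chk K t94 r99 = true :=
  Helper55.PC.chkN_sound K t94n r99 (by decide +kernel)

noncomputable def t95 : Tre :=
  (.N [0,0,1,-2] 0 ⟨0,[(5,0)]⟩ ⟨0,[(12,0)]⟩ (.i 1 ⟨1,[(31,0),(6,2),(30,1)]⟩ ⟨0,[(0,0)]⟩))

theorem ok95 : chk K t95 l100 = true := by decide +kernel

open Helper55.PC in
noncomputable def t96n : Helper55.PC.Ten :=
  (i 178514859921352297550827755248049826836906027 (r
  362935789100950773078620817737594299306848558594704809385765432203318869848789513883424206915341980341221236884420244928586577789559478954488094831398228805254736502840953733728647786544857593542348343334159810537183585423867383616717072894214970299306529510675577297132234755910113295270516498676098937896718538145013949232486260490678201710674635236862305453336435586633755585653884180516259261107622315437515869443212704354141443551086609997013046464841469021697389284873874622034536511198155364131221220983549084448374864291195614636053741836798663749642347484008557733220934757055483443990209583238048664265536)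
  (r
  1884470357598725431262573353741023373773054616140407168589621576097470927301122059945827789354982082582462520735857300059550004403912141399527062010359331694646801941689938826752794932405218057154413718180161514869371260977520303737948893222391512658756595140806331337280684614439428340919317394697138660838124870978371495485160954142562405387112189434356382397789936820340336511944127159891899520949815256687954415891478130121929910378900898660967125339166577661720410279991179181779520816835958928377461553020514117783939684584977488289958116086994327528416622124912418050491485876050848795608145083943859268464707224094358969922010539828550312768))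

noncomputable def t96 : Tre := Helper55.PC.toT t96n

theorem ok96 : chk K t96 r100 = true :=
  Helper55.PC.chkN_sound K t96n r100 (by decide +kernel)

open Helper55.PC in
noncomputable def t97n : Helper55.PC.Ten :=
  (r
  6836564008159946491562454706791120782324979620861725676912877847393363551601962439070479324571857167363945109616069991219412928159006640309598621284841874299610380534244336533517084985714301546588334558937005940432197274651347968998399781486446872290645859523097061486117319069897849007084662390194414238004022962376746892882740444918053289130093616029495507212871931549906616802213340051917211825992187299156467537872974368227539591389864844267426284424674076920255578397966353528795907728051391204421470218452914557951433524298726158806445441341412362643135678050721987085910345446903863182044989811017168107103712473763543479010991976962182821983773561322443595167497317159302317015585838026769736591089269520596703205849454682192484785984)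

noncomputable def t97 : Tre := Helper55.PC.toT t97n

theorem ok97 : chk K t97 r55 = true :=
  Helper55.PC.chkN_sound K t97n r55 (by decide +kernel)

open Helper55.PC in
noncomputable def t98n : Helper55.PC.Ten :=
  (q
  7036417748936652106614751012941789323342588235093845377820862104478951420533068823167659083331448479494935251264337783560973033408419028329813623046017231486990
  (q
  230351422698360591452006186344535301688882046911371194594777673413460107486172880915587145625785870630847100942045947428971593875870866959320115621489375606053404686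
  (r
  1021367765670353034941221340718134764899471433495022602443498534031645476099245511907647818683728892063778930537203790255578889984151915463154171812237014176585222860080966516145032141876591175482016346535131543612121538987437765519179013501344235858089505627917584439601932940208524642207074143912851990374347298485638105082544316862463442513531655124707141918258591336037382114675201944457269733467761434188464782405474463489965742610457385)
  (r
  641252033676041331512463923883756014204570594947428512889850097469217046168186371377162339165137951979843050554731961046437758097555884256729980711381553676068750131540452809343589213381624568607665534446274477512617578144734564143856903015395902450158111664135135745953486336464267317525087135204609919696850093905367720481974841302456061715963295377395352035384700701267398717159924127412024584056537703209070535299897048894385000419686715439667617809466542142230477247339553568936139172717253253890605721589229383356179118396315431490323234883527963281923078808473034762455478551112695942859213419766027770175458043721804269865184584212841898464363183077848751575713259311273154454336))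
  (q
  230351422698360591452006186344535301688882046911371194594777673413460107486172880915587145625785870630847100942045947428971593886504690846371280090455512086938255374
  (q
  460695808978972246251905757938057661588440751234507295344086932716984503835455022763080350775525337653365662973111695170529566248602716437984177378242130474766041102
  (r
  1235624073866772874023940072703510617845264848863623741061538372350854929367234377563499146294823654215951658614968791870586069056009392966260899927762949336293993156171430838406615039674123347569860724659539586385742293132159216310072087551754176910851146494048348485084228064266103191781853165700562348904590061860995771159843111575030955245776901367655692638639938045872662394988416016862473483213647754360391220202716350374429016232789278105507557727951271502121)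
  (r
  7545140279359033699968645309198783885572456784408092176345124709245857357588793589263730351558105129154709672744996376221207367694924779538273153774326868091186428302122743924616056205543465949443431572388126874268498499833499234401339429303852576403146376911168911750744113091170314455307114285757991156806697606445920071639473138672701317473423681183809177410827890077665197725770473261427967798126645433947148955214411949257070687983430291333518014326740470825912447505411293096506156439504856616594912326825069308930715690788468882624400811112168163103543137396899052637678398833298376896215800577555970992101289877801))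
  (r
  718366349693419928717300383993691427524529517957168334416643494761434863364339079588059166381945585264951979166358669853976368721389413989854955729403469217206790655417787828299315862063496539322130811161410111121032400858643827196460137510556244399414364614741758692268989445605398719697708674285171272832099389817903782141897621855026721695517509749974133370965343441718756296123169880479139265159503506316341203834440946308581302432752094655400045191433)))

noncomputable def t98 : Tre := Helper55.PC.toT t98n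

theorem ok98 : chk K t98 r6 = true :=
  Helper55.PC.chkN_sound K t98n r6 (by decide +kernel)

noncomputable def t99 : Tre :=
  (.N [0,0,1,-2] 0 ⟨0,[(2,0)]⟩ ⟨0,[(1,0)]⟩ (.i 1 ⟨1,[(21,0),(6,2),(30,1)]⟩ ⟨0,[(0,0)]⟩))

theorem ok99 : chk K t99 l103 = true := by decide +kernel

open Helper55.PC in
noncomputable def t100n : Helper55.PC.Ten :=
  (r
  31837916263053352967232122343565604077607389480459384358322133686770181346904610702597004837851603356101086393309286157240810056632646573084030639733547852003819853726449950095328272543060987746455232225424681793143936810111653188875144823067981606080839461366675241708564787916896104208464263824730585227847798284879249913722241440135442684844938863476391042455760757160416312083763194740929098227852019876829856440919017587804873138460153551559829941431392627589060964058285731331126746550492505810011538896824119552985193698785522912073316500188473986106142929023345558261970497931141736359559225715328187448419253294085750153024)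

noncomputable def t100 : Tre := Helper55.PC.toT t100n

theorem ok100 : chk K t100 r103 = true :=
  Helper55.PC.chkN_sound K t100n r103 (by decide +kernel)

open Helper55.PC in
noncomputable def t101n : Helper55.PC.Ten :=
  (q
  463880210237900902850012197032677180742404195612449001183592123152006260152088529516342330344860252109463286430026398423270788665240607009044680849226881205841035278
  (q
  4249233755385220184617061859199319052886658477622570468050706761923489434626368758721474864124673855187870608950194319321782792591517357102707511097007270810070185001079409723903705102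
  (r
  5303325517763337903822355898665137877105424390688865203301705335041072693715909707396150943747191724661082387017460915451868465044708165580718108265120086332023939729019469110016573418232696661407131754052260775527790039795959567152444028015459612499229681926001374613740085116542051906416086052205857509573937130942810718715700434431650523139194653553318249781135126217315544024410540111556904621969175767292043855566282877350950204709095846092615250573910296888504823849769)
  (r
  31837950963174398195787176452668465979840637236288740285881560927411939747158241750828500219367055433908604794082170451177206381049858963391420996728682511271505557843681061707361763956419079363437967228455201820095885777274807256259646777188666527511023818977351240567742684083448290764138967958322772315154101630198620122260850777315026528333547026071335846067346407278982049684699308631032195934338313939743251466781369350813692233408522299484796050846894460882655684089944680703227655736877841766245121672024077933290756850624402198528571843222420299158468434541713929238131080335443558150186209413214197624076093117552847511360))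
  (q
  15096313579496403309869068336150108240937152716073240240475143434272882285373151869042909672135818113745279255065652497902815121742265353109461873190951922179794526142478
  (r
  2552149956945798831216656589904093021881264757467301005948159723066380845431067998716662639244088474205087459730657553277873279163855774960675800548390309515246294659112223334471682996374235973523189736350411566624965595303779471013398703619419151255123145119563983127280703360484291796777491456413061066093864549533915641849923826529321125096738779450994665472134813957606360288652305325758736834616170041415651004425363885352733782244073737)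
  (q
  30192163278782568718835286660103183804693563027950868031949103185829382230992766063955584950886913631866018008829438853892669887228366147005447449352726613074625695973390
  (r
  1235624073866777258356703876959327588730158670342683207881306660388559352349399707168876310895967168355312528458594111398571578801959872914486349581855000619368443889155375094733802873517135101693738410188216713031272553052461168759823823457928523762086980854783125162083974288198357236879486704721234383417533255407809145235468910474090591000064884674208222323997025835643808475715480803868953177497705239092266112060994265740556293087051016013947954740744297914665)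
  (r
  1202010516515408812671748609207575090098067633570040428270663608215520846482072228774136281162874091181344776417669400070716012652485025046958897463461440904183875942607134445085606796475425305268885217882302302660575958992760813954076860850024853472986639763240261184385939469135811129455697375408825744714201173839019174755562988511782100768582988061589490496759060304506451659495901559729880380464922062905407009805290370742335499121331996257426777926452848665589267341774315017335189979827187895946103899824721299292692884029306898022470542509986411418111697193))))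

noncomputable def t101 : Tre := Helper55.PC.toT t101n

theorem ok101 : chk K t101 r102 = true :=
  Helper55.PC.chkN_sound K t101n r102 (by decide +kernel)

open Helper55.PC in
noncomputable def t102n : Helper55.PC.Ten :=
  (r
  31837846862811262510122014125359880273140893968800672503203279205486664546397348606134014074820699200486049591763517569368017407798221792469249925743278533468448445491987726871261289716344804512489762219363641739240038875785345054106140914826611763220470746145323243990208995583791731097114855557546211053235191594240509496645022765776274997867722538286501435232589456923284836881890966960722902814879431751003066389194314061787234948563416055709897722600388961001871523994967832586924928177721833897544373346424202792374067395107764339162805814120581360001491917986608816309649333122538092778305258319556167097105573647151555436352)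

noncomputable def t102 : Tre := Helper55.PC.toT t102n

theorem ok102 : chk K t102 r101 = true :=
  Helper55.PC.chkN_sound K t102n r101 (by decide +kernel)

open Helper55.PC in
noncomputable def t103n : Helper55.PC.Ten :=
  (q
  195460337424908714297189285183785053523807155430772207021558955632673084289464980237012044158216976397322640066389056163021247092644302829755315322865417775570593465362887092560826859534
  (q
  195460337425898035903081703320027063607885744190912732506689233204195414482971210304671801171302614170454041341185630176021603305384066703153422097386084110587215587865159552848860676110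
  (q
  195460337426887357508974121456269073691964332951053257991819510775717744676477440372331558184388251943585442615982204189021959518908564068600161536148163915188816993846669359298142928910
  (r
  22887988188121103057067648450504733157712169811942781636572937292975801707927396171503955897909945726290657452026995696115410911339998745105716574773466981016337149789903867634335214428080802159207269520252603495018801773143377373164507797623282776489127417075992390938478227499463232075086683405600552672259530120886170470951502475014427225375015189608559455061646506973774463517565766772577280777)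
  (r
  118841206035941457359727359329499953119416633962169470390970883587311033653406757546229649358820895598240158606213645024698455806986615526082755754793194265378414956136719498037467990174046705003442788794808497727933010867741437520065781101711438695210125448556917985278331122857155857150144083382754322951705672417521628490232286058592212088955041613889049866457661591459729137329530577599230012779422521154596287209021301189780265))
  (r
  3049449925917936285819838912082641131258577560212939938179899667980182782365037719476713394960604853394941224613000426283079155568270400921648420315770712765351380468628032264892963496100103790194805792061513907193912675522080637977301040998903220341431520860491860117740818238249713192535668798705304986093431475063173154561724950156238176348712350220154986578956459889559211097179080296518366734547055638465292604127443486538257730505020546744289505707141234807434302924528211092537613509810324576486667703720045681607737680689737203681120220780671581892467950458022488575379933599157660220922523448410075105478077840520856151891066154277921777022044769082511233119492477128536252224))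
  (q
  195460337425898035903081703320027063607885744190912732506689233204195414482971210304671801171302614170454041341185630176021603306168800195202054761616863756285143706875430744937038217230
  (q
  195460337426887357508974121456269073691964332951053257991819510775717744676477440372331558184388251943585442615982204189021959518908564068600161536148163915188816993846669359298142928910
  (r
  33450826495626686214692875306773320750877237718820823019488967988815631270306990101945119681816507910839825274053080502745623636437281149870624048690287404802759021172967334402057613573598781626740270497780760547181839552783128130834688435856689468040659758362480418751392630185218582135676801335424267145389595320824644447234962221407190273510231073923058365208237405103352245253687045487586670978497925627636751354104190322032878096491825340713)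
  (r
  27669876632803372701913860410400792003490739440530983228586107741495548536818460050058927757850846442503426476737487018131895526810670438382506078957801222248818508221323485329788863428211288997908551770922174167413695490753722958598727557871220940553274279276419771543538804127483098671528237670822167602090224047906306866622302914096036553558800749129736535793870987970871496600857087436256174002384352353861064980701449))
  (r
  710005389041718162088617429156471307216812288438188829035474841478323280430640494329089623633912963186144182601245219419495937313947454309474774709849318667629589435790672959967740694084228898909596212222593349216951214597113579040696155512450081375760846040326138054426018669793781170746234431561386442299334210126579454889287843324489321028099567028795601746051304343739127004134825614232020024117027510006509115907478384646323055517232268214315687927183204317252218265353085347634681272636917193956616538671558970975741075323592801032423780860481462175855612303417062433769995948136154051561430091668842095802007939051362073894965301227275854242267797957194894077942062912)))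

noncomputable def t103 : Tre := Helper55.PC.toT t103n

theorem ok103 : chk K t103 r1 = true :=
  Helper55.PC.chkN_sound K t103n r1 (by decide +kernel)

open Helper55.PC in
noncomputable def t104n : Helper55.PC.Ten :=
  (q
  706470485904862730497654797383410943372833564308377985031018191548917433215612686472128094593371787786020144197858157480519875833263866011797633929826338055782414
  (q 16296909466618799047073314335125571322312470721621174395442196270491751376733921111678779407
  (r
  587302052519226904221949277075590577378615158636908264687360836053621642155313139655764968135845165256588844273704424267646207909588993267424095274212742601039174841056593956214871949176371452179040369532310647008091876150867705851264430332129983063521383556805142467555773851508609168086169766918681379659239775648700634404199224913764382793628902350226116448741732543856796892875740634936551361731595811410530531987549801847917226890619768499433075782159496621843169331841112575517430402339671703806413084965352259732898828952707409327894176185094372048236573660145869319140876552124891603330651148026351485278593684844934176184625609881019765514048)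
  (r
  775226140391355875994926194360167425672785032156639850588433335177006343191853025306277827216765232370245911411578171020091979686751468241174458057790002130444747527648542624520587495754923888875029714822529995944372203872312699101536118628474278414319728296535828609397554193089115137051468697245488127840504039033219472768080316448867677374769873357198434580683324807192204363222870216867256918499464984200453099422727519791878449754143379630589776421425586012200030262081849743651483238368336982224490468074746115199113678457402044982644661133247496230810563444305709040537802508627058219326361672390943541421547024966313400140993875880846481375082720906954238601548099885883870346900093029831641814775636800))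
  (q
  706470485904862742984648998647468594329434349559012342666577995838346441024409411402709888055761564558900723543731351632261511894686451736258377524204766897504270
  (q
  706470485904862755471643199911526245286035134809646700302137800127775448833206136333291681518151341331780518156112497151338927810287226583764579813527588446535694
  (r
  196603301043340565078986624879229199329192485725390806574067006199747151873815477943249091307575219999097197918262752794379714403667729308046147359593312068704569554140873069581451854731162644541156964808364642907260099577691311435390819602230601158569508466351028619171199821628860180536971593367043001151292735300228487852396534918379039493327342151923368902551419719392736754813623715730147189119196078857)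
  (r
  15576516769961694985949897246847189135947048748116884875300397930598252339434055620666163476324283239171559244014565519334344853329793220882712051419224625852049043498966731138847020956868747095158220793138563309321400989605379356395387777821190252883773651900358400046791346611057921100889777570170336105425229331842184064572053259094251174287651199045987757528690729987014696995412923060528192089374542599578861759625331530161071596329))
  (q
  706470485904862755471643199911526245286035134809646700302137800127775448833206136333291681518151341331781302889604545784003147956109037460719121118583195739226126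
  (r
  3626912090944443724064249996336001031092331146582813544756275799512955208852625398019893270046653303435597897365630491128595169668981583580392670244032663190506290476821214464803588288657709825934425492460923955725497079976596766298611560682499925245751467277607463083498521126389899533468072632724313547795376604221275266087962852566244239766544923007571606999520839592068104726481347417401103274524589897437890876401466482985)
  (r
  123500649355589993556849297134272459919127454682156577581842643806812521578205232750255662256372085470487620199004520192147966353536409982520903810745461932814007340517230233699627769756862467221556508997735180277300224000330305447329071817062463555129334359458014556000896136196850450580968364521674984784533784787259311485188289039735187028207741376649939686604647736484801691194304905585530787170438278033291122907357583287343591109392602061183687135441798840522387947246045591793331945205795571551118801937519391732797945252408810394345645306535347460930924564726287832929253205789758212621014940578088398072216495080560071725049611186955650808947520))))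

noncomputable def t104 : Tre := Helper55.PC.toT t104n

theorem ok104 : chk K t104 r0 = true :=
  Helper55.PC.chkN_sound K t104n r0 (by decide +kernel)

theorem cl0 : Clo K (Helper55.TR.GH 1 Helper55.TR.BrU [0,0,0,0,0,1]) r11 :=
  .w [n0,n0,n0,n0,n0,n0,n0,n0,n0,n0,n0,n0,n1,m2] (e' := [n1,n0,n0,n0,n0,n0,n0,n0,n0,n0,n0,n0,m1,n2]) (by decide +kernel) (.t
  t6 ok6) (.t t7 ok7)

theorem cl1 : Clo K (Helper55.TR.GH 1 Helper55.TR.BrU [0,0,0,0,0,1]) l10 :=
  .i [n0,n0,n0,n0,n0,n0,m1,n0,n2] (e' := [n1,n0,n0,n0,n0,n0,n1,n0,m2]) (by decide +kernel) (by decide +kernel) (.t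
  t5 ok5) cl0

theorem cl2 : Clo K (Helper55.TR.GH 1 Helper55.TR.BrU [0,0,0,0,0,1]) r9 :=
  .i [n1,n0,n0,n0,n0,n0,n0,n1,n0,m2] (e' := [n0,n0,n0,n0,n0,n0,n0,m1,n0,n2]) (by decide +kernel) (by decide +kernel)
  cl1 (.t t8 ok8)

theorem cl3 : Clo K (Helper55.TR.GH 1 Helper55.TR.BrU [0,0,0,0,0,1]) l8 :=
  .i [n1,n0,m2,m2,n1,n0,n0,n0,n0,n0,n1] (e' := [n0,n0,n2,n2,m1,n0,n0,n0,n0,n0,m1]) (by decide +kernel)
  (by decide +kernel) (.t t4 ok4) cl2

theorem cl4 : Clo K (Helper55.TR.GH 1 Helper55.TR.BrU [0,0,0,0,0,1]) r24 :=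
  .w [n0,n0,n0,n0,n0,n0,n0,n0,n0,n0,n0,n0,n1,m2] (e' := [n1,n0,n0,n0,n0,n0,n0,n0,n0,n0,n0,n0,m1,n2]) (by decide +kernel) (.t
  t16 ok16) (.t t17 ok17)

theorem cl5 : Clo K (Helper55.TR.GH 1 Helper55.TR.BrU [0,0,0,0,0,1]) r23 :=
  .w [n0,n0,n0,n0,n0,n0,n0,n0,n0,n0,n0,n0,m1,n2] (e' := [n1,n0,n0,n0,n0,n0,n0,n0,n0,n0,n0,n0,n1,m2]) (by decide +kernel) (.t
  t15 ok15) cl4

theorem cl6 : Clo K (Helper55.TR.GH 1 Helper55.TR.BrU [0,0,0,0,0,1]) l22 :=
  .i [n1,n0,m1,m1,n1,n0,n0,n0,n0,n0,n5] (e' := [n0,n0,n1,n1,m1,n0,n0,n0,n0,n0,m5]) (by decide +kernel)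
  (by decide +kernel) (.t t14 ok14) cl5

theorem cl7 : Clo K (Helper55.TR.GH 1 Helper55.TR.BrU [0,0,0,0,0,1]) r26 :=
  .w [n0,n0,n0,n0,n0,n0,n0,n0,n0,n0,n0,n0,n1,m2] (e' := [n1,n0,n0,n0,n0,n0,n0,n0,n0,n0,n0,n0,m1,n2]) (by decide +kernel) (.t
  t19 ok19) (.t t20 ok20)

theorem cl8 : Clo K (Helper55.TR.GH 1 Helper55.TR.BrU [0,0,0,0,0,1]) r22 :=
  .w [n0,n0,n0,n0,n0,n0,n0,n0,n0,n0,n0,n0,m1,n2] (e' := [n1,n0,n0,n0,n0,n0,n0,n0,n0,n0,n0,n0,n1,m2]) (by decide +kernel) (.t
  t18 ok18) cl7

theorem cl9 : Clo K (Helper55.TR.GH 1 Helper55.TR.BrU [0,0,0,0,0,1]) r21 :=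
  .i [n1,n0,n1,n1,m1,n0,n0,n0,n0,n0,m5] (e' := [n0,n0,m1,m1,n1,n0,n0,n0,n0,n0,n5]) (by decide +kernel)
  (by decide +kernel) cl6 cl8

theorem cl10 : Clo K (Helper55.TR.GH 1 Helper55.TR.BrU [0,0,0,0,0,1]) l20 :=
  .i [n1,n0,n3,n3,m1,n0,n0,n1,n0,n0,n1] (e' := [n0,n0,m3,m3,n1,n0,n0,m1,n0,n0,m1]) (by decide +kernel)
  (by decide +kernel) (.t t13 ok13) cl9

theorem cl11 : Clo K (Helper55.TR.GH 1 Helper55.TR.BrU [0,0,0,0,0,1]) r32 :=
  .w [n0,n0,n0,n0,n0,n0,n0,n0,n0,n0,n0,n0,n1,m2] (e' := [n1,n0,n0,n0,n0,n0,n0,n0,n0,n0,n0,n0,m1,n2]) (by decide +kernel) (.t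
  t24 ok24) (.t t25 ok25)

theorem cl12 : Clo K (Helper55.TR.GH 1 Helper55.TR.BrU [0,0,0,0,0,1]) r31 :=
  .w [n0,n0,n0,n0,n0,n0,n0,n0,n0,n0,n0,n0,m1,n2] (e' := [n1,n0,n0,n0,n0,n0,n0,n0,n0,n0,n0,n0,n1,m2]) (by decide +kernel) (.t
  t23 ok23) cl11

theorem cl13 : Clo K (Helper55.TR.GH 1 Helper55.TR.BrU [0,0,0,0,0,1]) l30 :=
  .i [n1,n0,n1,n1,m1,n0,n0,m2,n0,m2] (e' := [n0,n0,m1,m1,n1,n0,n0,n2,n0,n2]) (by decide +kernel)
  (by decide +kernel) (.t t22 ok22) cl12

theorem cl14 : Clo K (Helper55.TR.GH 1 Helper55.TR.BrU [0,0,0,0,0,1]) r34 :=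
  .w [n0,n0,n0,n0,n0,n0,n0,n0,n0,n0,n0,n0,n1,m2] (e' := [n1,n0,n0,n0,n0,n0,n0,n0,n0,n0,n0,n0,m1,n2]) (by decide +kernel) (.t
  t27 ok27) (.t t28 ok28)

theorem cl15 : Clo K (Helper55.TR.GH 1 Helper55.TR.BrU [0,0,0,0,0,1]) r30 :=
  .w [n0,n0,n0,n0,n0,n0,n0,n0,n0,n0,n0,n0,m1,n2] (e' := [n1,n0,n0,n0,n0,n0,n0,n0,n0,n0,n0,n0,n1,m2]) (by decide +kernel) (.t
  t26 ok26) cl14

theorem cl16 : Clo K (Helper55.TR.GH 1 Helper55.TR.BrU [0,0,0,0,0,1]) r29 :=
  .i [n1,n0,m1,m1,n1,n0,n0,n2,n0,n2] (e' := [n0,n0,n1,n1,m1,n0,n0,m2,n0,m2]) (by decide +kernel)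
  (by decide +kernel) cl13 cl15

theorem cl17 : Clo K (Helper55.TR.GH 1 Helper55.TR.BrU [0,0,0,0,0,1]) l28 :=
  .i [n1,n0,m4,m4,n1,n0,n0,n0,n0,n0,m7] (e' := [n0,n0,n4,n4,m1,n0,n0,n0,n0,n0,n7]) (by decide +kernel)
  (by decide +kernel) (.t t21 ok21) cl16

theorem cl18 : Clo K (Helper55.TR.GH 1 Helper55.TR.BrU [0,0,0,0,0,1]) r38 :=
  .w [n0,n0,n0,n0,n0,n0,n0,n0,n0,n0,n0,n0,n1,m2] (e' := [n1,n0,n0,n0,n0,n0,n0,n0,n0,n0,n0,n0,m1,n2]) (by decide +kernel) (.t
  t31 ok31) (.t t32 ok32)

theorem cl19 : Clo K (Helper55.TR.GH 1 Helper55.TR.BrU [0,0,0,0,0,1]) r37 :=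
  .w [n0,n0,n0,n0,n0,n0,n0,n0,n0,n0,n0,n0,m1,n2] (e' := [n1,n0,n0,n0,n0,n0,n0,n0,n0,n0,n0,n0,n1,m2]) (by decide +kernel) (.t
  t30 ok30) cl18

theorem cl20 : Clo K (Helper55.TR.GH 1 Helper55.TR.BrU [0,0,0,0,0,1]) l36 :=
  .i [n1,n0,n1,n1,n0,n0,n0,n0,n0,n0,n4] (e' := [n0,n0,m1,m1,n0,n0,n0,n0,n0,n0,m4]) (by decide +kernel)
  (by decide +kernel) (.t t29 ok29) cl19

theorem cl21 : Clo K (Helper55.TR.GH 1 Helper55.TR.BrU [0,0,0,0,0,1]) r40 :=
  .w [n0,n0,n0,n0,n0,n0,n0,n0,n0,n0,n0,n0,n1,m2] (e' := [n1,n0,n0,n0,n0,n0,n0,n0,n0,n0,n0,n0,m1,n2]) (by decide +kernel) (.t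
  t34 ok34) (.t t35 ok35)

theorem cl22 : Clo K (Helper55.TR.GH 1 Helper55.TR.BrU [0,0,0,0,0,1]) r36 :=
  .w [n0,n0,n0,n0,n0,n0,n0,n0,n0,n0,n0,n0,m1,n2] (e' := [n1,n0,n0,n0,n0,n0,n0,n0,n0,n0,n0,n0,n1,m2]) (by decide +kernel) (.t
  t33 ok33) cl21

theorem cl23 : Clo K (Helper55.TR.GH 1 Helper55.TR.BrU [0,0,0,0,0,1]) r28 :=
  .i [n1,n0,m1,m1,n0,n0,n0,n0,n0,n0,m4] (e' := [n0,n0,n1,n1,n0,n0,n0,n0,n0,n0,n4]) (by decide +kernel)
  (by decide +kernel) cl20 cl22

theorem cl24 : Clo K (Helper55.TR.GH 1 Helper55.TR.BrU [0,0,0,0,0,1]) r20 :=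
  .i [n1,n0,n4,n4,m1,n0,n0,n0,n0,n0,n7] (e' := [n0,n0,m4,m4,n1,n0,n0,n0,n0,n0,m7]) (by decide +kernel)
  (by decide +kernel) cl17 cl23

theorem cl25 : Clo K (Helper55.TR.GH 1 Helper55.TR.BrU [0,0,0,0,0,1]) r19 :=
  .i [n1,n0,m3,m3,n1,n0,n0,m1,n0,n0,m1] (e' := [n0,n0,n3,n3,m1,n0,n0,n1,n0,n0,n1]) (by decide +kernel)
  (by decide +kernel) cl10 cl24

theorem cl26 : Clo K (Helper55.TR.GH 1 Helper55.TR.BrU [0,0,0,0,0,1]) l18 :=
  .i [n1,n0,n2,n2,m1,n0,n0,n0,n0,n1,m2] (e' := [n0,n0,m2,m2,n1,n0,n0,n0,n0,m1,n2]) (by decide +kernel)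
  (by decide +kernel) (.t t12 ok12) cl25

theorem cl27 : Clo K (Helper55.TR.GH 1 Helper55.TR.BrU [0,0,0,0,0,1]) r44 :=
  .w [n0,n0,n0,n0,n0,n0,n0,n0,n0,n0,n0,n0,m1,n2] (e' := [n1,n0,n0,n0,n0,n0,n0,n0,n0,n0,n0,n0,n1,m2]) (by decide +kernel) (.t
  t38 ok38) (.t t39 ok39)

theorem cl28 : Clo K (Helper55.TR.GH 1 Helper55.TR.BrU [0,0,0,0,0,1]) r43 :=
  .w [n0,n0,n0,n0,n0,n0,n0,n0,n0,n0,n0,n0,n1,m2] (e' := [n1,n0,n0,n0,n0,n0,n0,n0,n0,n0,n0,n0,m1,n2]) (by decide +kernel) (.t
  t37 ok37) cl27

theorem cl29 : Clo K (Helper55.TR.GH 1 Helper55.TR.BrU [0,0,0,0,0,1]) l42 :=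
  .i [n1,n0,m3,m3,n1,n0,n0,m1,n0,n0,m1] (e' := [n0,n0,n3,n3,m1,n0,n0,n1,n0,n0,n1]) (by decide +kernel)
  (by decide +kernel) (.t t36 ok36) cl28

theorem cl30 : Clo K (Helper55.TR.GH 1 Helper55.TR.BrU [0,0,0,0,0,1]) r48 :=
  .w [n0,n0,n0,n0,n0,n0,n0,n0,n0,n0,n0,n0,n1,m2] (e' := [n1,n0,n0,n0,n0,n0,n0,n0,n0,n0,n0,n0,m1,n2]) (by decide +kernel) (.t
  t42 ok42) (.t t43 ok43)

theorem cl31 : Clo K (Helper55.TR.GH 1 Helper55.TR.BrU [0,0,0,0,0,1]) r47 :=
  .w [n0,n0,n0,n0,n0,n0,n0,n0,n0,n0,n0,n0,m1,n2] (e' := [n1,n0,n0,n0,n0,n0,n0,n0,n0,n0,n0,n0,n1,m2]) (by decide +kernel) (.t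
  t41 ok41) cl30

theorem cl32 : Clo K (Helper55.TR.GH 1 Helper55.TR.BrU [0,0,0,0,0,1]) l46 :=
  .i [n1,n0,m1,m1,n0,n0,n0,n0,n0,m2,m2] (e' := [n0,n0,n1,n1,n0,n0,n0,n0,n0,n2,n2]) (by decide +kernel)
  (by decide +kernel) (.t t40 ok40) cl31

theorem cl33 : Clo K (Helper55.TR.GH 1 Helper55.TR.BrU [0,0,0,0,0,1]) r50 :=
  .w [n0,n0,n0,n0,n0,n0,n0,n0,n0,n0,n0,n0,m1,n2] (e' := [n1,n0,n0,n0,n0,n0,n0,n0,n0,n0,n0,n0,n1,m2]) (by decide +kernel) (.t
  t45 ok45) (.t t46 ok46)

theorem cl34 : Clo K (Helper55.TR.GH 1 Helper55.TR.BrU [0,0,0,0,0,1]) r46 :=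
  .w [n0,n0,n0,n0,n0,n0,n0,n0,n0,n0,n0,n0,n1,m2] (e' := [n1,n0,n0,n0,n0,n0,n0,n0,n0,n0,n0,n0,m1,n2]) (by decide +kernel) (.t
  t44 ok44) cl33

theorem cl35 : Clo K (Helper55.TR.GH 1 Helper55.TR.BrU [0,0,0,0,0,1]) r42 :=
  .i [n1,n0,n1,n1,n0,n0,n0,n0,n0,n2,n2] (e' := [n0,n0,m1,m1,n0,n0,n0,n0,n0,m2,m2]) (by decide +kernel)
  (by decide +kernel) cl32 cl34

theorem cl36 : Clo K (Helper55.TR.GH 1 Helper55.TR.BrU [0,0,0,0,0,1]) r18 :=
  .i [n1,n0,n3,n3,m1,n0,n0,n1,n0,n0,n1] (e' := [n0,n0,m3,m3,n1,n0,n0,m1,n0,n0,m1]) (by decide +kernel)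
  (by decide +kernel) cl29 cl35

theorem cl37 : Clo K (Helper55.TR.GH 1 Helper55.TR.BrU [0,0,0,0,0,1]) r17 :=
  .i [n1,n0,m2,m2,n1,n0,n0,n0,n0,m1,n2] (e' := [n0,n0,n2,n2,m1,n0,n0,n0,n0,n1,m2]) (by decide +kernel)
  (by decide +kernel) cl26 cl36

theorem cl38 : Clo K (Helper55.TR.GH 1 Helper55.TR.BrU [0,0,0,0,0,1]) l16 :=
  .i [n0,n0,n0,n0,n0,n0,m1,n0,n2] (e' := [n1,n0,n0,n0,n0,n0,n1,n0,m2]) (by decide +kernel) (by decide +kernel) (.t
  t11 ok11) cl37

theorem cl39 : Clo K (Helper55.TR.GH 1 Helper55.TR.BrU [0,0,0,0,0,1]) r15 :=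
  .i [n1,n0,n0,n0,n0,n0,n0,n1,n0,m2] (e' := [n0,n0,n0,n0,n0,n0,n0,m1,n0,n2]) (by decide +kernel) (by decide +kernel)
  cl38 (.t t47 ok47)

theorem cl40 : Clo K (Helper55.TR.GH 1 Helper55.TR.BrU [0,0,0,0,0,1]) r14 :=
  .q [n0,m1,n0,n1,n0,n0,m1,m1,n0,n0,n0,n1,m1] (e' := [n0,n1,n0,m1,n0,n0,n1,n1,n0,n0,n0,m1,n1]) (.p false [0,0,1] [1]
  (⟨0,[(22,0)]⟩,⟨0,[(16,0)]⟩) .k 1 (⟨0,[]⟩,⟨0,[]⟩) .k .k) (by decide +kernel) (by decide +kernel)
  (.t t10 ok10) cl39

theorem cl41 : Clo K (Helper55.TR.GH 1 Helper55.TR.BrU [0,0,0,0,0,1]) l13 :=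
  .i [n1,n0,n0,n0,n0,n0,n0,m1,n0,n1,n1] (e' := [n0,n0,n0,n0,n0,n0,n0,n1,n0,m1,m1]) (by decide +kernel)
  (by decide +kernel) (.t t9 ok9) cl40

theorem cl42 : Clo K (Helper55.TR.GH 1 Helper55.TR.BrU [0,0,0,0,0,1]) r61 :=
  .w [n0,n0,n0,n0,n0,n0,n0,n0,n0,n0,n0,n0,n1,m2] (e' := [n1,n0,n0,n0,n0,n0,n0,n0,n0,n0,n0,n0,m1,n2]) (by decide +kernel) (.t
  t55 ok55) (.t t56 ok56)

theorem cl43 : Clo K (Helper55.TR.GH 1 Helper55.TR.BrU [0,0,0,0,0,1]) r60 :=
  .w [n0,n0,n0,n0,n0,n0,n0,n0,n0,n0,n0,n0,m1,n2] (e' := [n1,n0,n0,n0,n0,n0,n0,n0,n0,n0,n0,n0,n1,m2]) (by decide +kernel) (.t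
  t54 ok54) cl42

theorem cl44 : Clo K (Helper55.TR.GH 1 Helper55.TR.BrU [0,0,0,0,0,1]) l59 :=
  .i [n1,n0,n1,n1,m1,n0,n0,n0,n0,n0,m7] (e' := [n0,n0,m1,m1,n1,n0,n0,n0,n0,n0,n7]) (by decide +kernel)
  (by decide +kernel) (.t t53 ok53) cl43

theorem cl45 : Clo K (Helper55.TR.GH 1 Helper55.TR.BrU [0,0,0,0,0,1]) r63 :=
  .w [n0,n0,n0,n0,n0,n0,n0,n0,n0,n0,n0,n0,m1,n2] (e' := [n1,n0,n0,n0,n0,n0,n0,n0,n0,n0,n0,n0,n1,m2]) (by decide +kernel) (.t
  t58 ok58) (.t t59 ok59)

theorem cl46 : Clo K (Helper55.TR.GH 1 Helper55.TR.BrU [0,0,0,0,0,1]) r59 :=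
  .w [n0,n0,n0,n0,n0,n0,n0,n0,n0,n0,n0,n0,n1,m2] (e' := [n1,n0,n0,n0,n0,n0,n0,n0,n0,n0,n0,n0,m1,n2]) (by decide +kernel) (.t
  t57 ok57) cl45

theorem cl47 : Clo K (Helper55.TR.GH 1 Helper55.TR.BrU [0,0,0,0,0,1]) r58 :=
  .i [n1,n0,m1,m1,n1,n0,n0,n0,n0,n0,n7] (e' := [n0,n0,n1,n1,m1,n0,n0,n0,n0,n0,m7]) (by decide +kernel)
  (by decide +kernel) cl44 cl46

theorem cl48 : Clo K (Helper55.TR.GH 1 Helper55.TR.BrU [0,0,0,0,0,1]) l57 :=
  .i [n1,n0,m3,m3,n1,n0,n0,m2] (e' := [n0,n0,n3,n3,m1,n0,n0,n2]) (by decide +kernel) (by decide +kernel) (.t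
  t52 ok52) cl47

theorem cl49 : Clo K (Helper55.TR.GH 1 Helper55.TR.BrU [0,0,0,0,0,1]) r75 :=
  .w [n0,n0,n0,n0,n0,n0,n0,n0,n0,n0,n0,n0,n1,m2] (e' := [n1,n0,n0,n0,n0,n0,n0,n0,n0,n0,n0,n0,m1,n2]) (by decide +kernel) (.t
  t66 ok66) (.t t67 ok67)

theorem cl50 : Clo K (Helper55.TR.GH 1 Helper55.TR.BrU [0,0,0,0,0,1]) r74 :=
  .w [n0,n0,n0,n0,n0,n0,n0,n0,n0,n0,n0,n0,m1,n2] (e' := [n1,n0,n0,n0,n0,n0,n0,n0,n0,n0,n0,n0,n1,m2]) (by decide +kernel) (.t
  t65 ok65) cl49

theorem cl51 : Clo K (Helper55.TR.GH 1 Helper55.TR.BrU [0,0,0,0,0,1]) l73 :=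
  .i [n1,n0,m1,m1,n0,n0,n0,m1,n0,m1,m2] (e' := [n0,n0,n1,n1,n0,n0,n0,n1,n0,n1,n2]) (by decide +kernel)
  (by decide +kernel) (.t t64 ok64) cl50

theorem cl52 : Clo K (Helper55.TR.GH 1 Helper55.TR.BrU [0,0,0,0,0,1]) r77 :=
  .w [n0,n0,n0,n0,n0,n0,n0,n0,n0,n0,n0,n0,m1,n2] (e' := [n1,n0,n0,n0,n0,n0,n0,n0,n0,n0,n0,n0,n1,m2]) (by decide +kernel) (.t
  t69 ok69) (.t t70 ok70)

theorem cl53 : Clo K (Helper55.TR.GH 1 Helper55.TR.BrU [0,0,0,0,0,1]) r73 :=
  .w [n0,n0,n0,n0,n0,n0,n0,n0,n0,n0,n0,n0,n1,m2] (e' := [n1,n0,n0,n0,n0,n0,n0,n0,n0,n0,n0,n0,m1,n2]) (by decide +kernel) (.t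
  t68 ok68) cl52

theorem cl54 : Clo K (Helper55.TR.GH 1 Helper55.TR.BrU [0,0,0,0,0,1]) r72 :=
  .i [n1,n0,n1,n1,n0,n0,n0,n1,n0,n1,n2] (e' := [n0,n0,m1,m1,n0,n0,n0,m1,n0,m1,m2]) (by decide +kernel)
  (by decide +kernel) cl51 cl53

theorem cl55 : Clo K (Helper55.TR.GH 1 Helper55.TR.BrU [0,0,0,0,0,1]) l71 :=
  .i [n1,n0,n1,n1,m1,n0,n0,m2,n0,m1,m1] (e' := [n0,n0,m1,m1,n1,n0,n0,n2,n0,n1,n1]) (by decide +kernel)
  (by decide +kernel) (.t t63 ok63) cl54

theorem cl56 : Clo K (Helper55.TR.GH 1 Helper55.TR.BrU [0,0,0,0,0,1]) r81 :=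
  .w [n0,n0,n0,n0,n0,n0,n0,n0,n0,n0,n0,n0,n1,m2] (e' := [n1,n0,n0,n0,n0,n0,n0,n0,n0,n0,n0,n0,m1,n2]) (by decide +kernel) (.t
  t73 ok73) (.t t74 ok74)

theorem cl57 : Clo K (Helper55.TR.GH 1 Helper55.TR.BrU [0,0,0,0,0,1]) r80 :=
  .w [n0,n0,n0,n0,n0,n0,n0,n0,n0,n0,n0,n0,m1,n2] (e' := [n1,n0,n0,n0,n0,n0,n0,n0,n0,n0,n0,n0,n1,m2]) (by decide +kernel) (.t
  t72 ok72) cl56

theorem cl58 : Clo K (Helper55.TR.GH 1 Helper55.TR.BrU [0,0,0,0,0,1]) l79 :=
  .i [n1,n0,m3,m3,n1,n0,n0,n0,n0,n0,m4] (e' := [n0,n0,n3,n3,m1,n0,n0,n0,n0,n0,n4]) (by decide +kernel)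
  (by decide +kernel) (.t t71 ok71) cl57

theorem cl59 : Clo K (Helper55.TR.GH 1 Helper55.TR.BrU [0,0,0,0,0,1]) r79 :=
  .w [n0,n0,n0,n0,n0,n0,n0,n0,n0,n0,n0,n0,m1,n2] (e' := [n1,n0,n0,n0,n0,n0,n0,n0,n0,n0,n0,n0,n1,m2]) (by decide +kernel) (.t
  t75 ok75) (.t t76 ok76)

theorem cl60 : Clo K (Helper55.TR.GH 1 Helper55.TR.BrU [0,0,0,0,0,1]) r71 :=
  .i [n1,n0,n3,n3,m1,n0,n0,n0,n0,n0,n4] (e' := [n0,n0,m3,m3,n1,n0,n0,n0,n0,n0,m4]) (by decide +kernel)
  (by decide +kernel) cl58 cl59

theorem cl61 : Clo K (Helper55.TR.GH 1 Helper55.TR.BrU [0,0,0,0,0,1]) r70 :=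
  .i [n1,n0,m1,m1,n1,n0,n0,n2,n0,n1,n1] (e' := [n0,n0,n1,n1,m1,n0,n0,m2,n0,m1,m1]) (by decide +kernel)
  (by decide +kernel) cl55 cl60

theorem cl62 : Clo K (Helper55.TR.GH 1 Helper55.TR.BrU [0,0,0,0,0,1]) l69 :=
  .i [n1,n0,n1,n1,m1,n0,n0,m2,n0,n0,m2] (e' := [n0,n0,m1,m1,n1,n0,n0,n2,n0,n0,n2]) (by decide +kernel)
  (by decide +kernel) (.t t62 ok62) cl61

theorem cl63 : Clo K (Helper55.TR.GH 1 Helper55.TR.BrU [0,0,0,0,0,1]) r84 :=
  .w [n0,n0,n0,n0,n0,n0,n0,n0,n0,n0,n0,n0,n1,m2] (e' := [n1,n0,n0,n0,n0,n0,n0,n0,n0,n0,n0,n0,m1,n2]) (by decide +kernel) (.t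
  t78 ok78) (.t t79 ok79)

theorem cl64 : Clo K (Helper55.TR.GH 1 Helper55.TR.BrU [0,0,0,0,0,1]) r69 :=
  .w [n0,n0,n0,n0,n0,n0,n0,n0,n0,n0,n0,n0,m1,n2] (e' := [n1,n0,n0,n0,n0,n0,n0,n0,n0,n0,n0,n0,n1,m2]) (by decide +kernel) (.t
  t77 ok77) cl63

theorem cl65 : Clo K (Helper55.TR.GH 1 Helper55.TR.BrU [0,0,0,0,0,1]) r68 :=
  .i [n1,n0,m1,m1,n1,n0,n0,n2,n0,n0,n2] (e' := [n0,n0,n1,n1,m1,n0,n0,m2,n0,n0,m2]) (by decide +kernel)
  (by decide +kernel) cl62 cl64

theorem cl66 : Clo K (Helper55.TR.GH 1 Helper55.TR.BrU [0,0,0,0,0,1]) l67 :=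
  .i [n1,n0,m1,m1,n0,n0,n0,n0,n0,n0,m5] (e' := [n0,n0,n1,n1,n0,n0,n0,n0,n0,n0,n5]) (by decide +kernel)
  (by decide +kernel) (.t t61 ok61) cl65

theorem cl67 : Clo K (Helper55.TR.GH 1 Helper55.TR.BrU [0,0,0,0,0,1]) r88 :=
  .w [n0,n0,n0,n0,n0,n0,n0,n0,n0,n0,n0,n0,m1,n2] (e' := [n1,n0,n0,n0,n0,n0,n0,n0,n0,n0,n0,n0,n1,m2]) (by decide +kernel) (.t
  t82 ok82) (.t t83 ok83)

theorem cl68 : Clo K (Helper55.TR.GH 1 Helper55.TR.BrU [0,0,0,0,0,1]) r87 :=
  .w [n0,n0,n0,n0,n0,n0,n0,n0,n0,n0,n0,n0,n1,m2] (e' := [n1,n0,n0,n0,n0,n0,n0,n0,n0,n0,n0,n0,m1,n2]) (by decide +kernel) (.t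
  t81 ok81) cl67

theorem cl69 : Clo K (Helper55.TR.GH 1 Helper55.TR.BrU [0,0,0,0,0,1]) l86 :=
  .i [n1,n0,n3,n3,m2,n0,n0,n0,n0,n0,m7] (e' := [n0,n0,m3,m3,n2,n0,n0,n0,n0,n0,n7]) (by decide +kernel)
  (by decide +kernel) (.t t80 ok80) cl68

theorem cl70 : Clo K (Helper55.TR.GH 1 Helper55.TR.BrU [0,0,0,0,0,1]) r90 :=
  .w [n0,n0,n0,n0,n0,n0,n0,n0,n0,n0,n0,n0,n1,m2] (e' := [n1,n0,n0,n0,n0,n0,n0,n0,n0,n0,n0,n0,m1,n2]) (by decide +kernel) (.t
  t85 ok85) (.t t86 ok86)

theorem cl71 : Clo K (Helper55.TR.GH 1 Helper55.TR.BrU [0,0,0,0,0,1]) r86 :=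
  .w [n0,n0,n0,n0,n0,n0,n0,n0,n0,n0,n0,n0,m1,n2] (e' := [n1,n0,n0,n0,n0,n0,n0,n0,n0,n0,n0,n0,n1,m2]) (by decide +kernel) (.t
  t84 ok84) cl70

theorem cl72 : Clo K (Helper55.TR.GH 1 Helper55.TR.BrU [0,0,0,0,0,1]) r67 :=
  .i [n1,n0,m3,m3,n2,n0,n0,n0,n0,n0,n7] (e' := [n0,n0,n3,n3,m2,n0,n0,n0,n0,n0,m7]) (by decide +kernel)
  (by decide +kernel) cl69 cl71

theorem cl73 : Clo K (Helper55.TR.GH 1 Helper55.TR.BrU [0,0,0,0,0,1]) r66 :=
  .i [n1,n0,n1,n1,n0,n0,n0,n0,n0,n0,n5] (e' := [n0,n0,m1,m1,n0,n0,n0,n0,n0,n0,m5]) (by decide +kernel)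
  (by decide +kernel) cl66 cl72

theorem cl74 : Clo K (Helper55.TR.GH 1 Helper55.TR.BrU [0,0,0,0,0,1]) l65 :=
  .i [n1,n0,m1,m1,n1,n0,n0,n2,n0,n2] (e' := [n0,n0,n1,n1,m1,n0,n0,m2,n0,m2]) (by decide +kernel)
  (by decide +kernel) (.t t60 ok60) cl73

theorem cl75 : Clo K (Helper55.TR.GH 1 Helper55.TR.BrU [0,0,0,0,0,1]) r96 :=
  .w [n0,n0,n0,n0,n0,n0,n0,n0,n0,n0,n0,n0,n1,m2] (e' := [n1,n0,n0,n0,n0,n0,n0,n0,n0,n0,n0,n0,m1,n2]) (by decide +kernel) (.t
  t90 ok90) (.t t91 ok91)

theorem cl76 : Clo K (Helper55.TR.GH 1 Helper55.TR.BrU [0,0,0,0,0,1]) r95 :=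
  .w [n0,n0,n0,n0,n0,n0,n0,n0,n0,n0,n0,n0,m1,n2] (e' := [n1,n0,n0,n0,n0,n0,n0,n0,n0,n0,n0,n0,n1,m2]) (by decide +kernel) (.t
  t89 ok89) cl75

theorem cl77 : Clo K (Helper55.TR.GH 1 Helper55.TR.BrU [0,0,0,0,0,1]) l94 :=
  .i [n1,n0,m1,m1,n0,n0,n0,m2,n0,m1] (e' := [n0,n0,n1,n1,n0,n0,n0,n2,n0,n1]) (by decide +kernel)
  (by decide +kernel) (.t t88 ok88) cl76

theorem cl78 : Clo K (Helper55.TR.GH 1 Helper55.TR.BrU [0,0,0,0,0,1]) r98 :=
  .w [n0,n0,n0,n0,n0,n0,n0,n0,n0,n0,n0,n0,n1,m2] (e' := [n1,n0,n0,n0,n0,n0,n0,n0,n0,n0,n0,n0,m1,n2]) (by decide +kernel) (.t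
  t93 ok93) (.t t94 ok94)

theorem cl79 : Clo K (Helper55.TR.GH 1 Helper55.TR.BrU [0,0,0,0,0,1]) r94 :=
  .w [n0,n0,n0,n0,n0,n0,n0,n0,n0,n0,n0,n0,m1,n2] (e' := [n1,n0,n0,n0,n0,n0,n0,n0,n0,n0,n0,n0,n1,m2]) (by decide +kernel) (.t
  t92 ok92) cl78

theorem cl80 : Clo K (Helper55.TR.GH 1 Helper55.TR.BrU [0,0,0,0,0,1]) r93 :=
  .i [n1,n0,n1,n1,n0,n0,n0,n2,n0,n1] (e' := [n0,n0,m1,m1,n0,n0,n0,m2,n0,m1]) (by decide +kernel)
  (by decide +kernel) cl77 cl79

theorem cl81 : Clo K (Helper55.TR.GH 1 Helper55.TR.BrU [0,0,0,0,0,1]) l92 :=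
  .i [n1,n0,m1,m1,n0,n0,n0,m1,n0,m2,m1] (e' := [n0,n0,n1,n1,n0,n0,n0,n1,n0,n2,n1]) (by decide +kernel)
  (by decide +kernel) (.t t87 ok87) cl80

theorem cl82 : Clo K (Helper55.TR.GH 1 Helper55.TR.BrU [0,0,0,0,0,1]) r92 :=
  .w [n0,n0,n0,n0,n0,n0,n0,n0,n0,n0,n0,n0,m1,n2] (e' := [n1,n0,n0,n0,n0,n0,n0,n0,n0,n0,n0,n0,n1,m2]) (by decide +kernel) (.t
  t95 ok95) (.t t96 ok96)

theorem cl83 : Clo K (Helper55.TR.GH 1 Helper55.TR.BrU [0,0,0,0,0,1]) r65 :=
  .i [n1,n0,n1,n1,n0,n0,n0,n1,n0,n2,n1] (e' := [n0,n0,m1,m1,n0,n0,n0,m1,n0,m2,m1]) (by decide +kernel)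
  (by decide +kernel) cl81 cl82

theorem cl84 : Clo K (Helper55.TR.GH 1 Helper55.TR.BrU [0,0,0,0,0,1]) r57 :=
  .i [n1,n0,n1,n1,m1,n0,n0,m2,n0,m2] (e' := [n0,n0,m1,m1,n1,n0,n0,n2,n0,n2]) (by decide +kernel)
  (by decide +kernel) cl74 cl83

theorem cl85 : Clo K (Helper55.TR.GH 1 Helper55.TR.BrU [0,0,0,0,0,1]) r56 :=
  .i [n1,n0,n3,n3,m1,n0,n0,n2] (e' := [n0,n0,m3,m3,n1,n0,n0,m2]) (by decide +kernel) (by decide +kernel) cl48
  cl84

theorem cl86 : Clo K (Helper55.TR.GH 1 Helper55.TR.BrU [0,0,0,0,0,1]) l55 :=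
  .i [n0,n0,n0,n0,n0,n0,m1,n0,n2] (e' := [n1,n0,n0,n0,n0,n0,n1,n0,m2]) (by decide +kernel) (by decide +kernel) (.t
  t51 ok51) cl85

theorem cl87 : Clo K (Helper55.TR.GH 1 Helper55.TR.BrU [0,0,0,0,0,1]) r54 :=
  .i [n1,n0,n0,n0,n0,n0,n0,n1,n0,m2] (e' := [n0,n0,n0,n0,n0,n0,n0,m1,n0,n2]) (by decide +kernel) (by decide +kernel)
  cl86 (.t t97 ok97)

theorem cl88 : Clo K (Helper55.TR.GH 1 Helper55.TR.BrU [0,0,0,0,0,1]) r53 :=
  .i [n1,n0,n0,n0,n0,n0,n0,n0,n0,n1,m1] (e' := [n0,n0,n0,n0,n0,n0,n0,n0,n0,m1,n1]) (by decide +kernel)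
  (by decide +kernel) (.t t50 ok50) cl87

theorem cl89 : Clo K (Helper55.TR.GH 1 Helper55.TR.BrU [0,0,0,0,0,1]) r52 :=
  .i [n1,n0,n0,n0,n0,n0,n0,n1,n0,n0,m2] (e' := [n0,n0,n0,n0,n0,n0,n0,m1,n0,n0,n2]) (by decide +kernel)
  (by decide +kernel) (.t t49 ok49) cl88

theorem cl90 : Clo K (Helper55.TR.GH 1 Helper55.TR.BrU [0,0,0,0,0,1]) r13 :=
  .i [n1,n0,n2,n2,m1,n0,n0,m1,n0,n0,n1] (e' := [n0,n0,m2,m2,n1,n0,n0,n1,n0,n0,m1]) (by decide +kernel)
  (by decide +kernel) (.t t48 ok48) cl89

theorem cl91 : Clo K (Helper55.TR.GH 1 Helper55.TR.BrU [0,0,0,0,0,1]) r8 :=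
  .i [n1,n0,n0,n0,n0,n0,n0,n1,n0,m1,m1] (e' := [n0,n0,n0,n0,n0,n0,n0,m1,n0,n1,n1]) (by decide +kernel)
  (by decide +kernel) cl41 cl90

theorem cl92 : Clo K (Helper55.TR.GH 1 Helper55.TR.BrU [0,0,0,0,0,1]) r7 :=
  .i [n1,n0,n2,n2,m1,n0,n0,n0,n0,n0,m1] (e' := [n0,n0,m2,m2,n1,n0,n0,n0,n0,n0,n1]) (by decide +kernel)
  (by decide +kernel) cl3 cl91

theorem cl93 : Clo K (Helper55.TR.GH 1 Helper55.TR.BrU [0,0,0,0,0,1]) l6 :=
  .i [n1,n0,n2,n2,m1,n0,n0,n0,n0,m2,n1] (e' := [n0,n0,m2,m2,n1,n0,n0,n0,n0,n2,m1]) (by decide +kernel)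
  (by decide +kernel) (.t t3 ok3) cl92

theorem cl94 : Clo K (Helper55.TR.GH 1 Helper55.TR.BrU [0,0,0,0,0,1]) l5 :=
  .i [n1,n0,n0,n0,n0,n0,n0,m1,n0,n2] (e' := [n0,n0,n0,n0,n0,n0,n0,n1,n0,m2]) (by decide +kernel) (by decide +kernel)
  cl93 (.t t98 ok98)

theorem cl95 : Clo K (Helper55.TR.GH 1 Helper55.TR.BrU [0,0,0,0,0,1]) l102 :=
  .w [n0,n0,n0,n0,n0,n0,n0,n0,n0,n0,n0,n0,m1,n2] (e' := [n1,n0,n0,n0,n0,n0,n0,n0,n0,n0,n0,n0,n1,m2]) (by decide +kernel) (.t
  t99 ok99) (.t t100 ok100)

theorem cl96 : Clo K (Helper55.TR.GH 1 Helper55.TR.BrU [0,0,0,0,0,1]) l101 :=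
  .i [n1,n0,n0,n0,n0,n0,n0,m1,n0,n2] (e' := [n0,n0,n0,n0,n0,n0,n0,n1,n0,m2]) (by decide +kernel) (by decide +kernel)
  cl95 (.t t101 ok101)

theorem cl97 : Clo K (Helper55.TR.GH 1 Helper55.TR.BrU [0,0,0,0,0,1]) r5 :=
  .i [n1,n0,n0,n0,n0,n0,n0,n1,n0,m2] (e' := [n0,n0,n0,n0,n0,n0,n0,m1,n0,n2]) (by decide +kernel) (by decide +kernel)
  cl96 (.t t102 ok102)

theorem cl98 : Clo K (Helper55.TR.GH 1 Helper55.TR.BrU [0,0,0,0,0,1]) r4 :=
  .i [n1,n0,m2,m2,n1,n0,n0,n0,n0,n2,m1] (e' := [n0,n0,n2,n2,m1,n0,n0,n0,n0,m2,n1]) (by decide +kernel)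
  (by decide +kernel) cl94 cl97

theorem cl99 : Clo K (Helper55.TR.GH 1 Helper55.TR.BrU [0,0,0,0,0,1]) r3 :=
  .i [n0,n0,n0,n0,n0,n0,n1,n0,m2] (e' := [n1,n0,n0,n0,n0,n0,m1,n0,n2]) (by decide +kernel) (by decide +kernel) (.t
  t2 ok2) cl98

theorem cl100 : Clo K (Helper55.TR.GH 1 Helper55.TR.BrU [0,0,0,0,0,1]) r2 :=
  .i [n1,m1,n0,n0,n0,n0,n0,m1,n0,n1] (e' := [n0,n1,n0,n0,n0,n0,n0,n1,n0,m1]) (by decide +kernel) (by decide +kernel)
  (.t t1 ok1) cl99

theorem cl101 : Clo K (Helper55.TR.GH 1 Helper55.TR.BrU [0,0,0,0,0,1]) l1 :=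
  .i [n1,n0,n2,n2,m1,n0,n0,m1,n0,n1] (e' := [n0,n0,m2,m2,n1,n0,n0,n1,n0,m1]) (by decide +kernel)
  (by decide +kernel) (.t t0 ok0) cl100

theorem cl102 : Clo K (Helper55.TR.GH 1 Helper55.TR.BrU [0,0,0,0,0,1]) l0 :=
  .i [n0,n0,m2,n0,n1,m2,m1,n0,n1] (e' := [n1,n0,n2,n0,m1,n2,n1,n0,m1]) (by decide +kernel) (by decide +kernel)
  cl101 (.t t103 ok103)

theorem cl103 : Clo K (Helper55.TR.GH 1 Helper55.TR.BrU [0,0,0,0,0,1]) base :=
  .i [n1,n0,m2,m2,n1,n0,n0,n1,n0,m1] (e' := [n0,n0,n2,n2,m1,n0,n0,m1,n0,n1]) (by decide +kernel)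
  (by decide +kernel) cl102 (.t t104 ok104)

theorem g : Helper55.TR.GH 1 Helper55.TR.BrU [0,0,0,0,0,1] base :=
  Helper55.TR.GH.of (Or.inr (Or.inr (Or.inl rfl))) cl103

end Helper55.CD.Dm1_1_c0u_27_1_3_1_0

namespace Helper55.CD.Dm1_1_c0u_27_1_3_1_1

open Helper25.KG Helper25.KW Helper55.KE Helper11.CT Helper55.TR.Nm

noncomputable def K : Cls :=
  Helper55.TR.KH 1 [0,0,0,0,0,1]

noncomputable def base : List Con :=
  [(true,[n0,n0,n0,n0,n1,n0,n0,n0,n0,n0,n2]),
  (false,[n0,n0,n0,n0,n0,n0,n0,n0,n0,n0,n0,n0,n1]),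
  (false,[n0,n0,n0,n0,n0,n0,n0,n0,n0,n0,n0,n1,m1]),
  (false,[n0,m1,n0,n0,n0,n0,m1,m1,n0,n0,n0,n1,m1]),
  (false,[n0,n1,n0,n0,n0,n0,n1,n1,n0,n0,n0,n0,n1]),
  (false,[n0,n0,n0,n0,n0,n0,n0,n0,n0,n0,n0,n1,n0,n0,m1]),
  (false,[n0,n0,n0,n0,n0,n1,n0,n0,n0,n0,n0,m1,n0,n0,n1]),
  (true,[n0,n0,n0,n0,n0,n1]),
  (false,[n0,n0,n0,n0,n0,n0,m1,m1,n0,n0,n0,n0,m1]),
  (false,[n0,n0,n0,n0,n0,n1,n0,n0,n0,n0,n0,m1,n1]),
  (true,[m1,n1]),
  (false,[n0,n0,n0,n0,n0,n0,n0,n0,n0,n0,n0,n0,n0,n0,n1]),
  (false,[n0,n0,n0,n0,n0,m1,n0,n0,n0,n0,n0,n1]),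
  (true,[n0,n0,n0,m1]),
  (true,[n1,n0,n0,n0,n0,n0,n0,m1,n0,n2]),
  (false,[n0,n0,n0,m1,n0,n1,n0,n0,m1,m1,n1,n0,n0,m1,n1]),
  (false,[n0,n0,n2,n0,m1,n0,n1,n0,n0,n0,n0,n0,n1]),
  (true,[n0,m2,n0,n0,n1]),
  (false,[n0,n0,n0,n1,n0,m1,n0,n0,n0,n0,m1,n1,n0,n0,m1]),
  (true,[n1,m1,n1,n1,n0,n0,n0,n1,n0,n1]),
  (true,[n0,n0,m2,n0,n1]),
  (true,[n1,n0,n0,n0,n0,n0,n0,n0,n0,n0,m1]),
  (true,[n0,n0,n0,n0,n1,n0,n0,n0,n0,n0,m2]),
  (false,[n0,n1,n0,n0,n0,m1,n0,n0,n0,n0,m1,n0,n0,n0,m1]),
  (true,[n1,n0,n1,n1,n0,n0,n0,n2]),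
  (true,[n0,m1,n1,n0,n0,n0,n0,m1]),
  (false,[n0,n1,n0,n0,n0,n0,n0,n0,n1,n1,n0,m1,n0,n1]),
  (false,[n0,n0,n0,n0,n0,n0,n0,n0,n0,n0,n0,n1,n0,m1]),
  (false,[n0,n0,n0,n0,n0,n0,n0,n0,n0,n0,n0,n0,n0,n1]),
  (true,[n1,n1,n0,n0,n0,n0,n0,n0,n0,n1]),
  (true,[n0,n0,m2,n0,n1,m9]),
  (false,[n0,n0,n0,n0,n0,m1,n0,n0,n0,n0,n0,n0,n0,n1]),
  (false,[n0,n0,n1,n0,n0,n0,m1,n0,n0,n0,n0,n0,m1]),
  (false,[n0,n0,n2,n0,m1,n0,n1,n0,n0,n0,n0,m1,n1]),
  (false,[n0,n0,n1,n0,n0,n0,m2,n0,n0,n0,n0,n2,m2]),
  (false,[n0,n0,n0,n0,n1,n0,n0,n0,n0,n0,n0,m2]),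
  (false,[n0,n1,n0,n2,n0,n0,n1,n1,m1,m1,n0,n0,n1,m1]),
  (true,[n0,m1,m2,m2,n1,n0,n0,n1,n0,m2]),
  (false,[n0,n0,m2,n0,n1,n0,n0,n0,n0,n0,n0,m1]),
  (false,[n0,n0,n0,n0,n0,n0,n1,n0,n0,n0,n0,m1,n1]),
  (false,[n0,n0,n0,n2,n0,n0,m1,m1,n1,n1,n0,n0,m1,n1]),
  (true,[n1,n0,m1,m1,n1,n0,n0,n2,n0,n0,n1]),
  (false,[n0,n0,m2,n0,n1,n0,m1,n0,n1,n0,n0,n0,m1,n1]),
  (true,[n1,n1,n0,n0,n0,n0,n0,n1,n0,m2]),
  (false,[n0,n0,m2,n0,n1,n0,n0,n0,m1,n0,n0,n1,n0,m1]),
  (true,[n0,n0,m2,m2,n1,n0,n0,n0,n0,n1]),
  (false,[n0,n0,n1,n0,n0,n0,n1,n0,n0,n0,n0,n0,n1]),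
  (false,[n0,n0,n0,n0,n0,m2,n0,n0,n0,n0,n0,n1,n0,m1]),
  (false,[n0,n0,n0,n1,n0,n0,m1,m1,n1,n1,n0,n0,m1,n1]),
  (true,[n0,n0,n1,n0,n0,n0,n0,n1]),
  (true,[n1,m2,n1]),
  (true,[n0,n0,n3,n3,m1,n0,n0,n1,n0,n1]),
  (false,[n0,n0,n0,n0,n0,n0,n1,n0,n0,n0,n0,n0,n1]),
  (true,[n0,n0,n2,n0,m1,n2,n1]),
  (true,[n0,n0,n0,m1,n0,n0,n0,m1]),
  (false,[n0,n0,n0,n2,n0,n0,n0,n0,m1,m1,n0,n0,n0,m1]),
  (true,[n1,m1,n1,n2,n0,n0,n0,n1]),
  (false,[n0,n0,n2,n0,m1,n0,n0,n0,n2,n0,n0,m1,n0,n2]),
  (false,[n0,n1,n0,m2,n0,n0,n0,n0,n2,n2,n0,m1,n0,n2]),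
  (true,[n1,m1,n2,n0,m1,n0,n0,m1]),
  (false,[n0,n0,n0,n2,n0,n0,m1,m1,n0,n0,n0,n0,m1]),
  (false,[n0,n1,n0,n0,n0,n0,m1,m1,n0,n0,n0,n0,m1]),
  (false,[n0,n0,n0,n0,n0,m2,n0,n0,n0,n0,n0,n1]),
  (false,[n0,n0,n0,n0,n0,m2,n0,n0,n0,n0,n0,n0,n0,n1]),
  (false,[n0,n0,n0,n0,n0,m1,n0,n0,n0,n0,n0,n0,n1]),
  (false,[n0,n0,m2,n0,n1,n0,n0,n0,m1,n0,n0,n0,n0,m1]),
  (true,[n0,n1,n0,n1]),
  (false,[n0,n0,n0,n0,n0,n0,n1,n0,m1,n0,n0,n0,n1,m1]),
  (false,[n0,n0,n0,n1,n0,n0,n0,n0,m1,m1,n0,n0,n0,m1]),
  (true,[n0,n0,n1,n1,n0,n0,n0,n1,n0,n2]),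
  (true,[n0,n0,n0,n0,n0,n0,n0,n0,n0,m1,m1]),
  (true,[n0,m1,n1,n1,n0,n0,n0,n1]),
  (true,[n0,n0,n0,n0,n0,n0,n0,m1]),
  (false,[n0,n0,n0,n0,n0,n0,n0,n0,n1,n0,n0,n0,n0,n1]),
  (false,[n0,n0,n0,n1,n0,n0,m1,m1,n0,n0,n0,n0,m1])]

noncomputable def l0 : List Con := (true, [n1,n0,n0,n0,n0,n0,n0,n1,n0,m2]) :: base

noncomputable def r0 : List Con := (true, [n0,n0,n0,n0,n0,n0,n0,m1,n0,n2]) :: base

noncomputable def l1 : List Con := (true, [n0,n0,n0,n0,n0,n0,n1,n0,m2]) :: l0

noncomputable def r1 : List Con := (true, [n1,n0,n0,n0,n0,n0,m1,n0,n2]) :: l0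

noncomputable def l2 : List Con := (true, [n0,n0,n0,n0,n0,n0,m1,n0,n2]) :: r1

noncomputable def r2 : List Con := (true, [n1,n0,n0,n0,n0,n0,n1,n0,m2]) :: r1

noncomputable def l3 : List Con := (true, [n1,n0,n0,n0,n0,n0,n0,n0,n0,n1,m1]) :: r2

noncomputable def r3 : List Con := (true, [n0,n0,n0,n0,n0,n0,n0,n0,n0,m1,n1]) :: r2

noncomputable def l4 : List Con := (true, [n1,n0,n0,n0,n0,n0,n0,n0,n0,m1,n1]) :: l3

noncomputable def r4 : List Con := (true, [n0,n0,n0,n0,n0,n0,n0,n0,n0,n1,m1]) :: l3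

noncomputable def l5 : List Con := (true, [n1,n0,n1,n1,m1,n0,n0,m1,n0,m2,m1]) :: r4

noncomputable def r5 : List Con := (true, [n0,n0,m1,m1,n1,n0,n0,n1,n0,n2,n1]) :: r4

noncomputable def l6 : List Con := (true, [n1,n0,m2,m2,n1,n0,n0,n0,n0,n0,n1]) :: r5

noncomputable def r6 : List Con := (true, [n0,n0,n2,n2,m1,n0,n0,n0,n0,n0,m1]) :: r5

noncomputable def l7 : List Con := (true, [n1,n0,n2,n2,m1,n0,n0,n0,n0,n0,m1]) :: l6

noncomputable def r7 : List Con := (true, [n0,n0,m2,m2,n1,n0,n0,n0,n0,n0,n1]) :: l6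

noncomputable def l8 : List Con := (true, [n1,n0,m2,m2,n1,n0,n0,n0,n0,m1,n2]) :: r7

noncomputable def r8 : List Con := (true, [n0,n0,n2,n2,m1,n0,n0,n0,n0,n1,m2]) :: r7

noncomputable def l9 : List Con := (true, [n1,n0,n2,n2,m1,n0,n0,n0,n0,n1,m2]) :: l8

noncomputable def r9 : List Con := (true, [n0,n0,m2,m2,n1,n0,n0,n0,n0,m1,n2]) :: l8

noncomputable def l10 : List Con := (true, [n1,n0,n3,n3,m1,n0,n0,n1,n0,n0,n1]) :: r9

noncomputable def r10 : List Con := (true, [n0,n0,m3,m3,n1,n0,n0,m1,n0,n0,m1]) :: r9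

noncomputable def l11 : List Con := (true, [n1,n0,m3,m3,n1,n0,n0,m1,n0,n0,m1]) :: l10

noncomputable def r11 : List Con := (true, [n0,n0,n3,n3,m1,n0,n0,n1,n0,n0,n1]) :: l10

noncomputable def l12 : List Con := (true, [n1,n0,n4,n4,m1,n0,n0,n0,n0,n0,n7]) :: r11

noncomputable def r12 : List Con := (true, [n0,n0,m4,m4,n1,n0,n0,n0,n0,n0,m7]) :: r11

noncomputable def l13 : List Con := (true, [n1,n0,m4,m4,n1,n0,n0,n0,n0,n0,m7]) :: l12

noncomputable def r13 : List Con := (true, [n0,n0,n4,n4,m1,n0,n0,n0,n0,n0,n7]) :: l12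

noncomputable def l14 : List Con := (false, [n0,n0,n0,n0,n0,n0,n0,n0,n0,n0,n0,n0,m1,n2]) :: r13

noncomputable def r14 : List Con := (true, [n1,n0,n0,n0,n0,n0,n0,n0,n0,n0,n0,n0,n1,m2]) :: r13

noncomputable def l15 : List Con := (false, [n0,n0,n0,n0,n0,n0,n0,n0,n0,n0,n0,n0,n1,m2]) :: r14

noncomputable def r15 : List Con := (true, [n1,n0,n0,n0,n0,n0,n0,n0,n0,n0,n0,n0,m1,n2]) :: r14

noncomputable def l16 : List Con := (true, [n1,n0,n1,n1,n0,n0,n0,n0,n0,n0,n4]) :: r12

noncomputable def r16 : List Con := (true, [n0,n0,m1,m1,n0,n0,n0,n0,n0,n0,m4]) :: r12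

noncomputable def l17 : List Con := (true, [n1,n0,m1,m1,n0,n0,n0,n0,n0,n0,m4]) :: l16

noncomputable def r17 : List Con := (true, [n0,n0,n1,n1,n0,n0,n0,n0,n0,n0,n4]) :: l16

noncomputable def l18 : List Con := (false, [n0,n0,n0,n0,n0,n0,n0,n0,n0,n0,n0,n0,n1,m2]) :: r17

noncomputable def r18 : List Con := (true, [n1,n0,n0,n0,n0,n0,n0,n0,n0,n0,n0,n0,m1,n2]) :: r17

noncomputable def l19 : List Con := (false, [n0,n0,n0,n0,n0,n0,n0,n0,n0,n0,n0,n0,m1,n2]) :: r18

noncomputable def r19 : List Con := (true, [n1,n0,n0,n0,n0,n0,n0,n0,n0,n0,n0,n0,n1,m2]) :: r18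

noncomputable def l20 : List Con := (false, [n0,n0,n0,n0,n0,n0,n0,n0,n0,n0,n0,n0,m1,n2]) :: r16

noncomputable def r20 : List Con := (true, [n1,n0,n0,n0,n0,n0,n0,n0,n0,n0,n0,n0,n1,m2]) :: r16

noncomputable def l21 : List Con := (false, [n0,n0,n0,n0,n0,n0,n0,n0,n0,n0,n0,n0,n1,m2]) :: r20

noncomputable def r21 : List Con := (true, [n1,n0,n0,n0,n0,n0,n0,n0,n0,n0,n0,n0,m1,n2]) :: r20

noncomputable def l22 : List Con := (true, [n1,n0,m1,m1,n1,n0,n0,n0,n0,n0,n5]) :: r10

noncomputable def r22 : List Con := (true, [n0,n0,n1,n1,m1,n0,n0,n0,n0,n0,m5]) :: r10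

noncomputable def l23 : List Con := (true, [n1,n0,n1,n1,m1,n0,n0,n0,n0,n0,m5]) :: l22

noncomputable def r23 : List Con := (true, [n0,n0,m1,m1,n1,n0,n0,n0,n0,n0,n5]) :: l22

noncomputable def l24 : List Con := (false, [n0,n0,n0,n0,n0,n0,n0,n0,n0,n0,n0,n0,n1,m2]) :: r23

noncomputable def r24 : List Con := (true, [n1,n0,n0,n0,n0,n0,n0,n0,n0,n0,n0,n0,m1,n2]) :: r23

noncomputable def l25 : List Con := (false, [n0,n0,n0,n0,n0,n0,n0,n0,n0,n0,n0,n0,n1,m2]) :: r22

noncomputable def r25 : List Con := (true, [n1,n0,n0,n0,n0,n0,n0,n0,n0,n0,n0,n0,m1,n2]) :: r22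

noncomputable def l26 : List Con := (true, [n1,n0,n1,n1,n0,n0,n0,n0,n0,n2,n2]) :: r8

noncomputable def r26 : List Con := (true, [n0,n0,m1,m1,n0,n0,n0,n0,n0,m2,m2]) :: r8

noncomputable def l27 : List Con := (true, [n1,n0,m1,m1,n0,n0,n0,n0,n0,m2,m2]) :: l26

noncomputable def r27 : List Con := (true, [n0,n0,n1,n1,n0,n0,n0,n0,n0,n2,n2]) :: l26

noncomputable def l28 : List Con := (true, [n1,n0,n1,n1,n0,n0,n0,n1,n0,n2,n1]) :: r27

noncomputable def r28 : List Con := (true, [n0,n0,m1,m1,n0,n0,n0,m1,n0,m2,m1]) :: r27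

noncomputable def l29 : List Con := (true, [n1,n0,m1,m1,n0,n0,n0,m1,n0,m2,m1]) :: l28

noncomputable def r29 : List Con := (true, [n0,n0,n1,n1,n0,n0,n0,n1,n0,n2,n1]) :: l28

noncomputable def l30 : List Con := (true, [n1,n0,n3,n3,m1,n0,n0,n2]) :: r29

noncomputable def r30 : List Con := (true, [n0,n0,m3,m3,n1,n0,n0,m2]) :: r29

noncomputable def l31 : List Con := (true, [n1,n0,m3,m3,n1,n0,n0,m2]) :: l30

noncomputable def r31 : List Con := (true, [n0,n0,n3,n3,m1,n0,n0,n2]) :: l30

noncomputable def l32 : List Con := (true, [n1,n0,n1,n1,n0,n0,n0,n1,n0,n1,n2]) :: r31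

noncomputable def r32 : List Con := (true, [n0,n0,m1,m1,n0,n0,n0,m1,n0,m1,m2]) :: r31

noncomputable def l33 : List Con := (true, [n1,n0,m1,m1,n0,n0,n0,m1,n0,m1,m2]) :: l32

noncomputable def r33 : List Con := (true, [n0,n0,n1,n1,n0,n0,n0,n1,n0,n1,n2]) :: l32

noncomputable def l34 : List Con := (false, [n0,n0,n0,n0,n0,n0,n0,n0,n0,n0,n0,n0,n1,m2]) :: r33

noncomputable def r34 : List Con := (true, [n1,n0,n0,n0,n0,n0,n0,n0,n0,n0,n0,n0,m1,n2]) :: r33

noncomputable def l35 : List Con := (false, [n0,n0,n0,n0,n0,n0,n0,n0,n0,n0,n0,n0,m1,n2]) :: r34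

noncomputable def r35 : List Con := (true, [n1,n0,n0,n0,n0,n0,n0,n0,n0,n0,n0,n0,n1,m2]) :: r34

noncomputable def l36 : List Con := (false, [n0,n0,n0,n0,n0,n0,n0,n0,n0,n0,n0,n0,n1,m2]) :: r32

noncomputable def r36 : List Con := (true, [n1,n0,n0,n0,n0,n0,n0,n0,n0,n0,n0,n0,m1,n2]) :: r32

noncomputable def l37 : List Con := (false, [n0,n0,n0,n0,n0,n0,n0,n0,n0,n0,n0,n0,m1,n2]) :: r36

noncomputable def r37 : List Con := (true, [n1,n0,n0,n0,n0,n0,n0,n0,n0,n0,n0,n0,n1,m2]) :: r36

noncomputable def l38 : List Con := (false, [n0,n0,n0,n0,n0,n0,n0,n0,n0,n0,n0,n0,m1,n2]) :: r30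

noncomputable def r38 : List Con := (true, [n1,n0,n0,n0,n0,n0,n0,n0,n0,n0,n0,n0,n1,m2]) :: r30

noncomputable def l39 : List Con := (false, [n0,n0,n0,n0,n0,n0,n0,n0,n0,n0,n0,n0,n1,m2]) :: r38

noncomputable def r39 : List Con := (true, [n1,n0,n0,n0,n0,n0,n0,n0,n0,n0,n0,n0,m1,n2]) :: r38

noncomputable def l40 : List Con := (true, [n1,n0,m1,m1,n1,n0,n0,n0,n0,n0,n5]) :: r28

noncomputable def r40 : List Con := (true, [n0,n0,n1,n1,m1,n0,n0,n0,n0,n0,m5]) :: r28

noncomputable def l41 : List Con := (true, [n1,n0,n1,n1,m1,n0,n0,n0,n0,n0,m5]) :: l40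

noncomputable def r41 : List Con := (true, [n0,n0,m1,m1,n1,n0,n0,n0,n0,n0,n5]) :: l40

noncomputable def l42 : List Con := (true, [n1,n0,m1,m1,n1,n0,n0,n2,n0,n0,n2]) :: r41

noncomputable def r42 : List Con := (true, [n0,n0,n1,n1,m1,n0,n0,m2,n0,n0,m2]) :: r41

noncomputable def l43 : List Con := (true, [n1,n0,n1,n1,m1,n0,n0,m2,n0,n0,m2]) :: l42

noncomputable def r43 : List Con := (true, [n0,n0,m1,m1,n1,n0,n0,n2,n0,n0,n2]) :: l42

noncomputable def l44 : List Con := (false, [n0,n0,n0,n0,n0,n0,n0,n0,n0,n0,n0,n0,n1,m2]) :: r43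

noncomputable def r44 : List Con := (true, [n1,n0,n0,n0,n0,n0,n0,n0,n0,n0,n0,n0,m1,n2]) :: r43

noncomputable def l45 : List Con := (true, [n1,n0,n4,n4,m1,n0,n0,n0,n0,n0,n7]) :: r42

noncomputable def r45 : List Con := (true, [n0,n0,m4,m4,n1,n0,n0,n0,n0,n0,m7]) :: r42

noncomputable def l46 : List Con := (true, [n1,n0,m4,m4,n1,n0,n0,n0,n0,n0,m7]) :: l45

noncomputable def r46 : List Con := (true, [n0,n0,n4,n4,m1,n0,n0,n0,n0,n0,n7]) :: l45

noncomputable def l47 : List Con := (true, [n1,n0,m1,m1,n1,n0,n0,n2,n0,n2]) :: r46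

noncomputable def r47 : List Con := (true, [n0,n0,n1,n1,m1,n0,n0,m2,n0,m2]) :: r46

noncomputable def l48 : List Con := (true, [n1,n0,n1,n1,m1,n0,n0,m2,n0,m2]) :: l47

noncomputable def r48 : List Con := (true, [n0,n0,m1,m1,n1,n0,n0,n2,n0,n2]) :: l47

noncomputable def l49 : List Con := (true, [n1,n0,m1,m1,n1,n0,n0,n2,n0,n1,n1]) :: r48

noncomputable def r49 : List Con := (true, [n0,n0,n1,n1,m1,n0,n0,m2,n0,m1,m1]) :: r48

noncomputable def l50 : List Con := (true, [n1,n0,n1,n1,m1,n0,n0,m2,n0,m1,m1]) :: l49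

noncomputable def r50 : List Con := (true, [n0,n0,m1,m1,n1,n0,n0,n2,n0,n1,n1]) :: l49

noncomputable def l51 : List Con := (true, [n1,n0,n1,n1,n0,n0,n0,n2,n0,n1]) :: r50

noncomputable def r51 : List Con := (true, [n0,n0,m1,m1,n0,n0,n0,m2,n0,m1]) :: r50

noncomputable def l52 : List Con := (true, [n1,n0,m1,m1,n0,n0,n0,m2,n0,m1]) :: l51

noncomputable def r52 : List Con := (true, [n0,n0,n1,n1,n0,n0,n0,n2,n0,n1]) :: l51

noncomputable def l53 : List Con := (false, [n0,n0,n0,n0,n0,n0,n0,n0,n0,n0,n0,n0,m1,n2]) :: r52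

noncomputable def r53 : List Con := (true, [n1,n0,n0,n0,n0,n0,n0,n0,n0,n0,n0,n0,n1,m2]) :: r52

noncomputable def l54 : List Con := (false, [n0,n0,n0,n0,n0,n0,n0,n0,n0,n0,n0,n0,n1,m2]) :: r53

noncomputable def r54 : List Con := (true, [n1,n0,n0,n0,n0,n0,n0,n0,n0,n0,n0,n0,m1,n2]) :: r53

noncomputable def l55 : List Con := (false, [n0,n0,n0,n0,n0,n0,n0,n0,n0,n0,n0,n0,m1,n2]) :: r51

noncomputable def r55 : List Con := (true, [n1,n0,n0,n0,n0,n0,n0,n0,n0,n0,n0,n0,n1,m2]) :: r51

noncomputable def l56 : List Con := (false, [n0,n0,n0,n0,n0,n0,n0,n0,n0,n0,n0,n0,n1,m2]) :: r55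

noncomputable def r56 : List Con := (true, [n1,n0,n0,n0,n0,n0,n0,n0,n0,n0,n0,n0,m1,n2]) :: r55

noncomputable def l57 : List Con := (false, [n0,n0,n0,n0,n0,n0,n0,n0,n0,n0,n0,n0,n1,m2]) :: r49

noncomputable def r57 : List Con := (true, [n1,n0,n0,n0,n0,n0,n0,n0,n0,n0,n0,n0,m1,n2]) :: r49

noncomputable def l58 : List Con := (false, [n0,n0,n0,n0,n0,n0,n0,n0,n0,n0,n0,n0,m1,n2]) :: r57

noncomputable def r58 : List Con := (true, [n1,n0,n0,n0,n0,n0,n0,n0,n0,n0,n0,n0,n1,m2]) :: r57

noncomputable def l59 : List Con := (false, [n0,n0,n0,n0,n0,n0,n0,n0,n0,n0,n0,n0,n1,m2]) :: r47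

noncomputable def r59 : List Con := (true, [n1,n0,n0,n0,n0,n0,n0,n0,n0,n0,n0,n0,m1,n2]) :: r47

noncomputable def l60 : List Con := (false, [n0,n0,n0,n0,n0,n0,n0,n0,n0,n0,n0,n0,m1,n2]) :: r59

noncomputable def r60 : List Con := (true, [n1,n0,n0,n0,n0,n0,n0,n0,n0,n0,n0,n0,n1,m2]) :: r59

noncomputable def l61 : List Con := (true, [n1,n0,n1,n1,n0,n0,n0,n0,n0,n0,n4]) :: r45

noncomputable def r61 : List Con := (true, [n0,n0,m1,m1,n0,n0,n0,n0,n0,n0,m4]) :: r45

noncomputable def l62 : List Con := (true, [n1,n0,m1,m1,n0,n0,n0,n0,n0,n0,m4]) :: l61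

noncomputable def r62 : List Con := (true, [n0,n0,n1,n1,n0,n0,n0,n0,n0,n0,n4]) :: l61

noncomputable def l63 : List Con := (false, [n0,n0,n0,n0,n0,n0,n0,n0,n0,n0,n0,n0,m1,n2]) :: r62

noncomputable def r63 : List Con := (true, [n1,n0,n0,n0,n0,n0,n0,n0,n0,n0,n0,n0,n1,m2]) :: r62

noncomputable def l64 : List Con := (false, [n0,n0,n0,n0,n0,n0,n0,n0,n0,n0,n0,n0,n1,m2]) :: r63

noncomputable def r64 : List Con := (true, [n1,n0,n0,n0,n0,n0,n0,n0,n0,n0,n0,n0,m1,n2]) :: r63

noncomputable def l65 : List Con := (false, [n0,n0,n0,n0,n0,n0,n0,n0,n0,n0,n0,n0,n1,m2]) :: r61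

noncomputable def r65 : List Con := (true, [n1,n0,n0,n0,n0,n0,n0,n0,n0,n0,n0,n0,m1,n2]) :: r61

noncomputable def l66 : List Con := (false, [n0,n0,n0,n0,n0,n0,n0,n0,n0,n0,n0,n0,m1,n2]) :: r65

noncomputable def r66 : List Con := (true, [n1,n0,n0,n0,n0,n0,n0,n0,n0,n0,n0,n0,n1,m2]) :: r65

noncomputable def l67 : List Con := (true, [n1,n0,n3,n3,m1,n0,n0,n1,n0,n0,n1]) :: r40

noncomputable def r67 : List Con := (true, [n0,n0,m3,m3,n1,n0,n0,m1,n0,n0,m1]) :: r40

noncomputable def l68 : List Con := (true, [n1,n0,m3,m3,n1,n0,n0,m1,n0,n0,m1]) :: l67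

noncomputable def r68 : List Con := (true, [n0,n0,n3,n3,m1,n0,n0,n1,n0,n0,n1]) :: l67

noncomputable def l69 : List Con := (false, [n0,n0,n0,n0,n0,n0,n0,n0,n0,n0,n0,n0,m1,n2]) :: r68

noncomputable def r69 : List Con := (true, [n1,n0,n0,n0,n0,n0,n0,n0,n0,n0,n0,n0,n1,m2]) :: r68

noncomputable def l70 : List Con := (false, [n0,n0,n0,n0,n0,n0,n0,n0,n0,n0,n0,n0,n1,m2]) :: r69

noncomputable def r70 : List Con := (true, [n1,n0,n0,n0,n0,n0,n0,n0,n0,n0,n0,n0,m1,n2]) :: r69

noncomputable def l71 : List Con := (false, [n0,n0,n0,n0,n0,n0,n0,n0,n0,n0,n0,n0,m1,n2]) :: r67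

noncomputable def r71 : List Con := (true, [n1,n0,n0,n0,n0,n0,n0,n0,n0,n0,n0,n0,n1,m2]) :: r67

noncomputable def l72 : List Con := (false, [n0,n0,n0,n0,n0,n0,n0,n0,n0,n0,n0,n0,n1,m2]) :: r71

noncomputable def r72 : List Con := (true, [n1,n0,n0,n0,n0,n0,n0,n0,n0,n0,n0,n0,m1,n2]) :: r71

noncomputable def l73 : List Con := (false, [n0,n0,n0,n0,n0,n0,n0,n0,n0,n0,n0,n0,m1,n2]) :: r26

noncomputable def r73 : List Con := (true, [n1,n0,n0,n0,n0,n0,n0,n0,n0,n0,n0,n0,n1,m2]) :: r26

noncomputable def l74 : List Con := (false, [n0,n0,n0,n0,n0,n0,n0,n0,n0,n0,n0,n0,n1,m2]) :: r73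

noncomputable def r74 : List Con := (true, [n1,n0,n0,n0,n0,n0,n0,n0,n0,n0,n0,n0,m1,n2]) :: r73

noncomputable def l75 : List Con := (true, [n1,n0,n1,n1,n0,n0,n0,n1,n0,n1,n1]) :: r6

noncomputable def r75 : List Con := (true, [n0,n0,m1,m1,n0,n0,n0,m1,n0,m1,m1]) :: r6

noncomputable def l76 : List Con := (true, [n1,n0,m1,m1,n0,n0,n0,m1,n0,m1,m1]) :: l75

noncomputable def r76 : List Con := (true, [n0,n0,n1,n1,n0,n0,n0,n1,n0,n1,n1]) :: l75

noncomputable def l77 : List Con := (true, [n1,n0,n3,n3,m1,n0,n0,n0,n0,n0,n4]) :: r76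

noncomputable def r77 : List Con := (true, [n0,n0,m3,m3,n1,n0,n0,n0,n0,n0,m4]) :: r76

noncomputable def l78 : List Con := (true, [n1,n0,m3,m3,n1,n0,n0,n0,n0,n0,m4]) :: l77

noncomputable def r78 : List Con := (true, [n0,n0,n3,n3,m1,n0,n0,n0,n0,n0,n4]) :: l77

noncomputable def l79 : List Con := (false, [n0,n0,n0,n0,n0,n0,n0,n0,n0,n0,n0,n0,n1,m2]) :: r78

noncomputable def r79 : List Con := (true, [n1,n0,n0,n0,n0,n0,n0,n0,n0,n0,n0,n0,m1,n2]) :: r78

noncomputable def l80 : List Con := (false, [n0,n0,n0,n0,n0,n0,n0,n0,n0,n0,n0,n0,m1,n2]) :: r79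

noncomputable def r80 : List Con := (true, [n1,n0,n0,n0,n0,n0,n0,n0,n0,n0,n0,n0,n1,m2]) :: r79

noncomputable def l81 : List Con := (true, [n1,n0,n1,n1,n0,n0,n0,n1,n0,n1,n2]) :: r77

noncomputable def r81 : List Con := (true, [n0,n0,m1,m1,n0,n0,n0,m1,n0,m1,m2]) :: r77

noncomputable def l82 : List Con := (true, [n1,n0,m1,m1,n0,n0,n0,m1,n0,m1,m2]) :: l81

noncomputable def r82 : List Con := (true, [n0,n0,n1,n1,n0,n0,n0,n1,n0,n1,n2]) :: l81

noncomputable def l83 : List Con := (false, [n0,n0,n0,n0,n0,n0,n0,n0,n0,n0,n0,n0,n1,m2]) :: r82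

noncomputable def r83 : List Con := (true, [n1,n0,n0,n0,n0,n0,n0,n0,n0,n0,n0,n0,m1,n2]) :: r82

noncomputable def l84 : List Con := (true, [n1,n0,m1,m1,n1,n0,n0,n1,n0,n1,n2]) :: r81

noncomputable def r84 : List Con := (true, [n0,n0,n1,n1,m1,n0,n0,m1,n0,m1,m2]) :: r81

noncomputable def l85 : List Con := (true, [n1,n0,n1,n1,m1,n0,n0,m1,n0,m1,m2]) :: l84

noncomputable def r85 : List Con := (true, [n0,n0,m1,m1,n1,n0,n0,n1,n0,n1,n2]) :: l84

noncomputable def l86 : List Con := (true, [n1,n0,m1,m1,n0,n0,n0,n0,n0,m2,m2]) :: r85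

noncomputable def r86 : List Con := (true, [n0,n0,n1,n1,n0,n0,n0,n0,n0,n2,n2]) :: r85

noncomputable def l87 : List Con := (true, [n1,n0,n1,n1,n0,n0,n0,n0,n0,n2,n2]) :: l86

noncomputable def r87 : List Con := (true, [n0,n0,m1,m1,n0,n0,n0,n0,n0,m2,m2]) :: l86

noncomputable def l88 : List Con := (false, [n0,n0,n0,n0,n0,n0,n0,n0,n0,n0,n0,n0,n1,m2]) :: r87

noncomputable def r88 : List Con := (true, [n1,n0,n0,n0,n0,n0,n0,n0,n0,n0,n0,n0,m1,n2]) :: r87

noncomputable def l89 : List Con := (true, [n1,n0,m1,m1,n1,n0,n0,n2,n0,n0,n2]) :: r86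

noncomputable def r89 : List Con := (true, [n0,n0,n1,n1,m1,n0,n0,m2,n0,n0,m2]) :: r86

noncomputable def l90 : List Con := (true, [n1,n0,n1,n1,m1,n0,n0,m2,n0,n0,m2]) :: l89

noncomputable def r90 : List Con := (true, [n0,n0,m1,m1,n1,n0,n0,n2,n0,n0,n2]) :: l89

noncomputable def l91 : List Con := (false, [n0,n0,n0,n0,n0,n0,n0,n0,n0,n0,n0,n0,n1,m2]) :: r90

noncomputable def r91 : List Con := (true, [n1,n0,n0,n0,n0,n0,n0,n0,n0,n0,n0,n0,m1,n2]) :: r90

noncomputable def l92 : List Con := (false, [n0,n0,n0,n0,n0,n0,n0,n0,n0,n0,n0,n0,n1,m2]) :: r89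

noncomputable def r92 : List Con := (true, [n1,n0,n0,n0,n0,n0,n0,n0,n0,n0,n0,n0,m1,n2]) :: r89

noncomputable def l93 : List Con := (true, [n1,n0,n3,n3,m1,n0,n0,n1,n0,n0,n1]) :: r84

noncomputable def r93 : List Con := (true, [n0,n0,m3,m3,n1,n0,n0,m1,n0,n0,m1]) :: r84

noncomputable def l94 : List Con := (true, [n1,n0,m3,m3,n1,n0,n0,m1,n0,n0,m1]) :: l93

noncomputable def r94 : List Con := (true, [n0,n0,n3,n3,m1,n0,n0,n1,n0,n0,n1]) :: l93

noncomputable def l95 : List Con := (false, [n0,n0,n0,n0,n0,n0,n0,n0,n0,n0,n0,n0,n1,m2]) :: r94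

noncomputable def r95 : List Con := (true, [n1,n0,n0,n0,n0,n0,n0,n0,n0,n0,n0,n0,m1,n2]) :: r94

noncomputable def l96 : List Con := (false, [n0,n0,n0,n0,n0,n0,n0,n0,n0,n0,n0,n0,m1,n2]) :: r95

noncomputable def r96 : List Con := (true, [n1,n0,n0,n0,n0,n0,n0,n0,n0,n0,n0,n0,n1,m2]) :: r95

noncomputable def l97 : List Con := (false, [n0,n0,n0,n0,n0,n0,n0,n0,n0,n0,n0,n0,n1,m2]) :: r93

noncomputable def r97 : List Con := (true, [n1,n0,n0,n0,n0,n0,n0,n0,n0,n0,n0,n0,m1,n2]) :: r93

noncomputable def l98 : List Con := (false, [n0,n0,n0,n0,n0,n0,n0,n0,n0,n0,n0,n0,n1,m2]) :: r75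

noncomputable def r98 : List Con := (true, [n1,n0,n0,n0,n0,n0,n0,n0,n0,n0,n0,n0,m1,n2]) :: r75

noncomputable def l99 : List Con := (true, [n1,n0,m2,m2,n1,n0,n0,n0,n0,n2,m1]) :: r3

noncomputable def r99 : List Con := (true, [n0,n0,n2,n2,m1,n0,n0,n0,n0,m2,n1]) :: r3

noncomputable def l100 : List Con := (true, [n1,n0,n2,n2,m1,n0,n0,n0,n0,m2,n1]) :: l99

noncomputable def r100 : List Con := (true, [n0,n0,m2,m2,n1,n0,n0,n0,n0,n2,m1]) :: l99

noncomputable def l101 : List Con := (true, [n1,n0,m3,m3,n2,n0,n0,n0,n0,n0,n7]) :: r100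

noncomputable def r101 : List Con := (true, [n0,n0,n3,n3,m2,n0,n0,n0,n0,n0,m7]) :: r100

noncomputable def l102 : List Con := (true, [n1,n0,n3,n3,m2,n0,n0,n0,n0,n0,m7]) :: l101

noncomputable def r102 : List Con := (true, [n0,n0,m3,m3,n2,n0,n0,n0,n0,n0,n7]) :: l101

noncomputable def l103 : List Con := (true, [n1,n0,m4,m4,n2,n0,n0,n0,n0,n0,n3]) :: r102

noncomputable def r103 : List Con := (true, [n0,n0,n4,n4,m2,n0,n0,n0,n0,n0,m3]) :: r102

noncomputable def l104 : List Con := (true, [n1,n0,m1,m1,n1,n0,n0,n2,n0,n2]) :: l103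

noncomputable def r104 : List Con := (true, [n0,n0,n1,n1,m1,n0,n0,m2,n0,m2]) :: l103

noncomputable def l105 : List Con := (true, [n1,n0,n4,n4,m2,n0,n0,n0,n0,n0,m3]) :: l104

noncomputable def r105 : List Con := (true, [n0,n0,m4,m4,n2,n0,n0,n0,n0,n0,n3]) :: l104

noncomputable def l106 : List Con := (false, [n0,n0,n0,n0,n0,n0,n0,n0,n0,n0,n0,n0,n1,m2]) :: r105

noncomputable def r106 : List Con := (true, [n1,n0,n0,n0,n0,n0,n0,n0,n0,n0,n0,n0,m1,n2]) :: r105

noncomputable def l107 : List Con := (false, [n0,n0,n0,n0,n0,n0,n0,n0,n0,n0,n0,n0,m1,n2]) :: r104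

noncomputable def r107 : List Con := (true, [n1,n0,n0,n0,n0,n0,n0,n0,n0,n0,n0,n0,n1,m2]) :: r104

noncomputable def l108 : List Con := (true, [n1,n0,m1,m1,n1,n0,n0,n0,n0,n0,n6]) :: r103

noncomputable def r108 : List Con := (true, [n0,n0,n1,n1,m1,n0,n0,n0,n0,n0,m6]) :: r103

noncomputable def l109 : List Con := (true, [n1,n0,n1,n1,m1,n0,n0,n0,n0,n0,m6]) :: l108

noncomputable def r109 : List Con := (true, [n0,n0,m1,m1,n1,n0,n0,n0,n0,n0,n6]) :: l108

noncomputable def l110 : List Con := (true, [n1,n0,m1,m1,n1,n0,n0,n2,n0,n1,n1]) :: r109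

noncomputable def r110 : List Con := (true, [n0,n0,n1,n1,m1,n0,n0,m2,n0,m1,m1]) :: r109

noncomputable def l111 : List Con := (true, [n1,n0,n1,n1,m1,n0,n0,m2,n0,m1,m1]) :: l110

noncomputable def r111 : List Con := (true, [n0,n0,m1,m1,n1,n0,n0,n2,n0,n1,n1]) :: l110

noncomputable def l112 : List Con := (true, [n1,n0,m1,m1,n0,n0,n0,n0,n0,n0,m6]) :: r111

noncomputable def r112 : List Con := (true, [n0,n0,n1,n1,n0,n0,n0,n0,n0,n0,n6]) :: r111

noncomputable def l113 : List Con := (true, [n1,n0,n1,n1,n0,n0,n0,n0,n0,n0,n5]) :: l112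

noncomputable def r113 : List Con := (true, [n0,n0,m1,m1,n0,n0,n0,n0,n0,n0,m5]) :: l112

noncomputable def l114 : List Con := (true, [n1,n0,m1,m1,n0,n0,n0,n0,n0,n0,m5]) :: l113

noncomputable def r114 : List Con := (true, [n0,n0,n1,n1,n0,n0,n0,n0,n0,n0,n5]) :: l113

noncomputable def l115 : List Con := (true, [n1,n0,n1,n1,n0,n0,n0,n0,n0,n0,n6]) :: r114

noncomputable def r115 : List Con := (true, [n0,n0,m1,m1,n0,n0,n0,n0,n0,n0,m6]) :: r114

noncomputable def l116 : List Con := (true, [n1,n0,n1,n1,n0,n0,n0,n1,n0,n1,n2]) :: r115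

noncomputable def r116 : List Con := (true, [n0,n0,m1,m1,n0,n0,n0,m1,n0,m1,m2]) :: r115

noncomputable def l117 : List Con := (true, [n1,n0,m1,m1,n0,n0,n0,m1,n0,m1,m2]) :: l116

noncomputable def r117 : List Con := (true, [n0,n0,n1,n1,n0,n0,n0,n1,n0,n1,n2]) :: l116

noncomputable def l118 : List Con := (true, [n1,n0,m3,m3,n1,n0,n0,n0,n0,n0,m4]) :: r117

noncomputable def r118 : List Con := (true, [n0,n0,n3,n3,m1,n0,n0,n0,n0,n0,n4]) :: r117

noncomputable def l119 : List Con := (false, [n0,n0,n0,n0,n0,n0,n0,n0,n0,n0,n0,n0,m1,n2]) :: l118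

noncomputable def r119 : List Con := (true, [n1,n0,n0,n0,n0,n0,n0,n0,n0,n0,n0,n0,n1,m2]) :: l118

noncomputable def l120 : List Con := (false, [n0,n0,n0,n0,n0,n0,n0,n0,n0,n0,n0,n0,m1,n2]) :: r118

noncomputable def r120 : List Con := (true, [n1,n0,n0,n0,n0,n0,n0,n0,n0,n0,n0,n0,n1,m2]) :: r118

noncomputable def l121 : List Con := (false, [n0,n0,n0,n0,n0,n0,n0,n0,n0,n0,n0,n0,n1,m2]) :: r120

noncomputable def r121 : List Con := (true, [n1,n0,n0,n0,n0,n0,n0,n0,n0,n0,n0,n0,m1,n2]) :: r120

noncomputable def l122 : List Con := (true, [n1,n0,m1,m1,n1,n0,n0,n2,n0,n2]) :: r116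

noncomputable def r122 : List Con := (true, [n0,n0,n1,n1,m1,n0,n0,m2,n0,m2]) :: r116

noncomputable def l123 : List Con := (true, [n1,n0,n1,n1,m1,n0,n0,m2,n0,m2]) :: l122

noncomputable def r123 : List Con := (true, [n0,n0,m1,m1,n1,n0,n0,n2,n0,n2]) :: l122

noncomputable def l124 : List Con := (false, [n0,n0,n0,n0,n0,n0,n0,n0,n0,n0,n0,n0,m1,n2]) :: r123

noncomputable def r124 : List Con := (true, [n1,n0,n0,n0,n0,n0,n0,n0,n0,n0,n0,n0,n1,m2]) :: r123

noncomputable def l125 : List Con := (false, [n0,n0,n0,n0,n0,n0,n0,n0,n0,n0,n0,n0,m1,n2]) :: r122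

noncomputable def r125 : List Con := (true, [n1,n0,n0,n0,n0,n0,n0,n0,n0,n0,n0,n0,n1,m2]) :: r122

noncomputable def l126 : List Con := (true, [n1,n0,n1,n1,m1,n0,n0,m2,n0,m2]) :: r113

noncomputable def r126 : List Con := (true, [n0,n0,m1,m1,n1,n0,n0,n2,n0,n2]) :: r113

noncomputable def l127 : List Con := (true, [n1,n0,m1,m1,n1,n0,n0,n2,n0,n2]) :: l126

noncomputable def r127 : List Con := (true, [n0,n0,n1,n1,m1,n0,n0,m2,n0,m2]) :: l126

noncomputable def l128 : List Con := (false, [n0,n0,n0,n0,n0,n0,n0,n0,n0,n0,n0,n0,m1,n2]) :: r127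

noncomputable def r128 : List Con := (true, [n1,n0,n0,n0,n0,n0,n0,n0,n0,n0,n0,n0,n1,m2]) :: r127

noncomputable def l129 : List Con := (false, [n0,n0,n0,n0,n0,n0,n0,n0,n0,n0,n0,n0,n1,m2]) :: r128

noncomputable def r129 : List Con := (true, [n1,n0,n0,n0,n0,n0,n0,n0,n0,n0,n0,n0,m1,n2]) :: r128

noncomputable def l130 : List Con := (false, [n0,n0,n0,n0,n0,n0,n0,n0,n0,n0,n0,n0,n1,m2]) :: r126

noncomputable def r130 : List Con := (true, [n1,n0,n0,n0,n0,n0,n0,n0,n0,n0,n0,n0,m1,n2]) :: r126

noncomputable def l131 : List Con := (false, [n0,n0,n0,n0,n0,n0,n0,n0,n0,n0,n0,n0,m1,n2]) :: r130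

noncomputable def r131 : List Con := (true, [n1,n0,n0,n0,n0,n0,n0,n0,n0,n0,n0,n0,n1,m2]) :: r130

noncomputable def l132 : List Con := (true, [n1,n0,m1,m1,n0,n0,n0,n0,n0,n0,m7]) :: r112

noncomputable def r132 : List Con := (true, [n0,n0,n1,n1,n0,n0,n0,n0,n0,n0,n7]) :: r112

noncomputable def l133 : List Con := (true, [n1,n0,m1,m1,n0,n0,n0,m2,n0,m1,m1]) :: l132

noncomputable def r133 : List Con := (true, [n0,n0,n1,n1,n0,n0,n0,n2,n0,n1,n1]) :: l132

noncomputable def l134 : List Con := (true, [n1,n0,n1,n1,n0,n0,n0,n2,n0,n1,n1]) :: l133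

noncomputable def r134 : List Con := (true, [n0,n0,m1,m1,n0,n0,n0,m2,n0,m1,m1]) :: l133

noncomputable def l135 : List Con := (false, [n0,n0,n0,n0,n0,n0,n0,n0,n0,n0,n0,n0,n1,m2]) :: r134

noncomputable def r135 : List Con := (true, [n1,n0,n0,n0,n0,n0,n0,n0,n0,n0,n0,n0,m1,n2]) :: r134

noncomputable def l136 : List Con := (true, [n1,n0,n1,n1,n0,n0,n0,n0,n0,n0,n7]) :: r133

noncomputable def r136 : List Con := (true, [n0,n0,m1,m1,n0,n0,n0,n0,n0,n0,m7]) :: r133

noncomputable def l137 : List Con := (true, [n1,n0,n1,n1,n0,n0,n0,n2,n0,n2]) :: r136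

noncomputable def r137 : List Con := (true, [n0,n0,m1,m1,n0,n0,n0,m2,n0,m2]) :: r136

noncomputable def l138 : List Con := (true, [n1,n0,m1,m1,n0,n0,n0,m2,n0,m2]) :: l137

noncomputable def r138 : List Con := (true, [n0,n0,n1,n1,n0,n0,n0,n2,n0,n2]) :: l137

noncomputable def l139 : List Con := (false, [n0,n0,n0,n0,n0,n0,n0,n0,n0,n0,n0,n0,n1,m2]) :: r138

noncomputable def r139 : List Con := (true, [n1,n0,n0,n0,n0,n0,n0,n0,n0,n0,n0,n0,m1,n2]) :: r138

noncomputable def l140 : List Con := (false, [n0,n0,n0,n0,n0,n0,n0,n0,n0,n0,n0,n0,m1,n2]) :: r139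

noncomputable def r140 : List Con := (true, [n1,n0,n0,n0,n0,n0,n0,n0,n0,n0,n0,n0,n1,m2]) :: r139

noncomputable def l141 : List Con := (false, [n0,n0,n0,n0,n0,n0,n0,n0,n0,n0,n0,n0,m1,n2]) :: r137

noncomputable def r141 : List Con := (true, [n1,n0,n0,n0,n0,n0,n0,n0,n0,n0,n0,n0,n1,m2]) :: r137

noncomputable def l142 : List Con := (false, [n0,n0,n0,n0,n0,n0,n0,n0,n0,n0,n0,n0,n1,m2]) :: r141

noncomputable def r142 : List Con := (true, [n1,n0,n0,n0,n0,n0,n0,n0,n0,n0,n0,n0,m1,n2]) :: r141

noncomputable def l143 : List Con := (false, [n0,n0,n0,n0,n0,n0,n0,n0,n0,n0,n0,n0,n1,m2]) :: r132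

noncomputable def r143 : List Con := (true, [n1,n0,n0,n0,n0,n0,n0,n0,n0,n0,n0,n0,m1,n2]) :: r132

noncomputable def l144 : List Con := (false, [n0,n0,n0,n0,n0,n0,n0,n0,n0,n0,n0,n0,m1,n2]) :: r143

noncomputable def r144 : List Con := (true, [n1,n0,n0,n0,n0,n0,n0,n0,n0,n0,n0,n0,n1,m2]) :: r143

noncomputable def l145 : List Con := (true, [n1,n0,n1,n1,n0,n0,n0,n0,n0,n0,n5]) :: r110

noncomputable def r145 : List Con := (true, [n0,n0,m1,m1,n0,n0,n0,n0,n0,n0,m5]) :: r110

noncomputable def l146 : List Con := (true, [n1,n0,m1,m1,n0,n0,n0,n0,n0,n0,m5]) :: l145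

noncomputable def r146 : List Con := (true, [n0,n0,n1,n1,n0,n0,n0,n0,n0,n0,n5]) :: l145

noncomputable def l147 : List Con := (true, [n1,n0,m1,m1,n1,n0,n0,n2,n0,n0,n2]) :: r146

noncomputable def r147 : List Con := (true, [n0,n0,n1,n1,m1,n0,n0,m2,n0,n0,m2]) :: r146

noncomputable def l148 : List Con := (true, [n1,n0,n1,n1,m1,n0,n0,m2,n0,n0,m2]) :: l147

noncomputable def r148 : List Con := (true, [n0,n0,m1,m1,n1,n0,n0,n2,n0,n0,n2]) :: l147

noncomputable def l149 : List Con := (true, [n1,n0,m3,m3,n2,n0,n0,n0,n0,n0,n8]) :: r148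

noncomputable def r149 : List Con := (true, [n0,n0,n3,n3,m2,n0,n0,n0,n0,n0,m8]) :: r148

noncomputable def l150 : List Con := (true, [n1,n0,n3,n3,m2,n0,n0,n0,n0,n0,m8]) :: l149

noncomputable def r150 : List Con := (true, [n0,n0,m3,m3,n2,n0,n0,n0,n0,n0,n8]) :: l149

noncomputable def l151 : List Con := (true, [n1,n0,m1,m1,n1,n0,n0,n0,n0,n0,n7]) :: r150

noncomputable def r151 : List Con := (true, [n0,n0,n1,n1,m1,n0,n0,n0,n0,n0,m7]) :: r150

noncomputable def l152 : List Con := (true, [n1,n0,n1,n1,m1,n0,n0,n0,n0,n0,m7]) :: l151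

noncomputable def r152 : List Con := (true, [n0,n0,m1,m1,n1,n0,n0,n0,n0,n0,n7]) :: l151

noncomputable def l153 : List Con := (false, [n0,n0,n0,n0,n0,n0,n0,n0,n0,n0,n0,n0,m1,n2]) :: r152

noncomputable def r153 : List Con := (true, [n1,n0,n0,n0,n0,n0,n0,n0,n0,n0,n0,n0,n1,m2]) :: r152

noncomputable def l154 : List Con := (false, [n0,n0,n0,n0,n0,n0,n0,n0,n0,n0,n0,n0,n1,m2]) :: r153

noncomputable def r154 : List Con := (true, [n1,n0,n0,n0,n0,n0,n0,n0,n0,n0,n0,n0,m1,n2]) :: r153

noncomputable def l155 : List Con := (true, [n1,n0,m3,m3,n1,n0,n0,n0,n0,n0,m4]) :: r151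

noncomputable def r155 : List Con := (true, [n0,n0,n3,n3,m1,n0,n0,n0,n0,n0,n4]) :: r151

noncomputable def l156 : List Con := (true, [n1,n0,n3,n3,m1,n0,n0,n0,n0,n0,n4]) :: l155

noncomputable def r156 : List Con := (true, [n0,n0,m3,m3,n1,n0,n0,n0,n0,n0,m4]) :: l155

noncomputable def l157 : List Con := (false, [n0,n0,n0,n0,n0,n0,n0,n0,n0,n0,n0,n0,m1,n2]) :: r156

noncomputable def r157 : List Con := (true, [n1,n0,n0,n0,n0,n0,n0,n0,n0,n0,n0,n0,n1,m2]) :: r156

noncomputable def l158 : List Con := (false, [n0,n0,n0,n0,n0,n0,n0,n0,n0,n0,n0,n0,m1,n2]) :: r155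

noncomputable def r158 : List Con := (true, [n1,n0,n0,n0,n0,n0,n0,n0,n0,n0,n0,n0,n1,m2]) :: r155

noncomputable def l159 : List Con := (false, [n0,n0,n0,n0,n0,n0,n0,n0,n0,n0,n0,n0,n1,m2]) :: r158

noncomputable def r159 : List Con := (true, [n1,n0,n0,n0,n0,n0,n0,n0,n0,n0,n0,n0,m1,n2]) :: r158

noncomputable def l160 : List Con := (false, [n0,n0,n0,n0,n0,n0,n0,n0,n0,n0,n0,n0,m1,n2]) :: r149

noncomputable def r160 : List Con := (true, [n1,n0,n0,n0,n0,n0,n0,n0,n0,n0,n0,n0,n1,m2]) :: r149

noncomputable def l161 : List Con := (false, [n0,n0,n0,n0,n0,n0,n0,n0,n0,n0,n0,n0,n1,m2]) :: r160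

noncomputable def r161 : List Con := (true, [n1,n0,n0,n0,n0,n0,n0,n0,n0,n0,n0,n0,m1,n2]) :: r160

noncomputable def l162 : List Con := (false, [n0,n0,n0,n0,n0,n0,n0,n0,n0,n0,n0,n0,m1,n2]) :: r147

noncomputable def r162 : List Con := (true, [n1,n0,n0,n0,n0,n0,n0,n0,n0,n0,n0,n0,n1,m2]) :: r147

noncomputable def l163 : List Con := (false, [n0,n0,n0,n0,n0,n0,n0,n0,n0,n0,n0,n0,n1,m2]) :: r162

noncomputable def r163 : List Con := (true, [n1,n0,n0,n0,n0,n0,n0,n0,n0,n0,n0,n0,m1,n2]) :: r162

noncomputable def l164 : List Con := (true, [n1,n0,m1,m1,n1,n0,n0,n2,n0,n0,n2]) :: r145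

noncomputable def r164 : List Con := (true, [n0,n0,n1,n1,m1,n0,n0,m2,n0,n0,m2]) :: r145

noncomputable def l165 : List Con := (true, [n1,n0,n1,n1,m1,n0,n0,m2,n0,n0,m2]) :: l164

noncomputable def r165 : List Con := (true, [n0,n0,m1,m1,n1,n0,n0,n2,n0,n0,n2]) :: l164

noncomputable def l166 : List Con := (false, [n0,n0,n0,n0,n0,n0,n0,n0,n0,n0,n0,n0,n1,m2]) :: r165

noncomputable def r166 : List Con := (true, [n1,n0,n0,n0,n0,n0,n0,n0,n0,n0,n0,n0,m1,n2]) :: r165

noncomputable def l167 : List Con := (false, [n0,n0,n0,n0,n0,n0,n0,n0,n0,n0,n0,n0,m1,n2]) :: r166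

noncomputable def r167 : List Con := (true, [n1,n0,n0,n0,n0,n0,n0,n0,n0,n0,n0,n0,n1,m2]) :: r166

noncomputable def l168 : List Con := (false, [n0,n0,n0,n0,n0,n0,n0,n0,n0,n0,n0,n0,n1,m2]) :: r164

noncomputable def r168 : List Con := (true, [n1,n0,n0,n0,n0,n0,n0,n0,n0,n0,n0,n0,m1,n2]) :: r164

noncomputable def l169 : List Con := (false, [n0,n0,n0,n0,n0,n0,n0,n0,n0,n0,n0,n0,m1,n2]) :: r168

noncomputable def r169 : List Con := (true, [n1,n0,n0,n0,n0,n0,n0,n0,n0,n0,n0,n0,n1,m2]) :: r168

noncomputable def l170 : List Con := (false, [n0,n0,n0,n0,n0,n0,n0,n0,n0,n0,n0,n0,n1,m2]) :: r108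

noncomputable def r170 : List Con := (true, [n1,n0,n0,n0,n0,n0,n0,n0,n0,n0,n0,n0,m1,n2]) :: r108

noncomputable def l171 : List Con := (false, [n0,n0,n0,n0,n0,n0,n0,n0,n0,n0,n0,n0,m1,n2]) :: r170

noncomputable def r171 : List Con := (true, [n1,n0,n0,n0,n0,n0,n0,n0,n0,n0,n0,n0,n1,m2]) :: r170

noncomputable def l172 : List Con := (false, [n0,n0,n0,n0,n0,n0,n0,n0,n0,n0,n0,n0,n1,m2]) :: r101

noncomputable def r172 : List Con := (true, [n1,n0,n0,n0,n0,n0,n0,n0,n0,n0,n0,n0,m1,n2]) :: r101

noncomputable def l173 : List Con := (false, [n0,n0,n0,n0,n0,n0,n0,n0,n0,n0,n0,n0,m1,n2]) :: r172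

noncomputable def r173 : List Con := (true, [n1,n0,n0,n0,n0,n0,n0,n0,n0,n0,n0,n0,n1,m2]) :: r172

noncomputable def l174 : List Con := (true, [n1,n0,m1,m1,n0,n0,n0,n0,n0,n0,m5]) :: r99

noncomputable def r174 : List Con := (true, [n0,n0,n1,n1,n0,n0,n0,n0,n0,n0,n5]) :: r99

noncomputable def l175 : List Con := (true, [n1,n0,n1,n1,n0,n0,n0,n0,n0,n0,n5]) :: l174

noncomputable def r175 : List Con := (true, [n0,n0,m1,m1,n0,n0,n0,n0,n0,n0,m5]) :: l174

noncomputable def l176 : List Con := (true, [n1,n0,n1,n1,n0,n0,n0,n2,n0,n1,m1]) :: r175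

noncomputable def r176 : List Con := (true, [n0,n0,m1,m1,n0,n0,n0,m2,n0,m1,n1]) :: r175

noncomputable def l177 : List Con := (true, [n1,n0,m1,m1,n0,n0,n0,m2,n0,m1,n1]) :: l176

noncomputable def r177 : List Con := (true, [n0,n0,n1,n1,n0,n0,n0,n2,n0,n1,m1]) :: l176

noncomputable def l178 : List Con := (false, [n0,n0,n0,n0,n0,n0,n0,n0,n0,n0,n0,n0,n1,m2]) :: r177

noncomputable def r178 : List Con := (true, [n1,n0,n0,n0,n0,n0,n0,n0,n0,n0,n0,n0,m1,n2]) :: r177

noncomputable def l179 : List Con := (false, [n0,n0,n0,n0,n0,n0,n0,n0,n0,n0,n0,n0,m1,n2]) :: r178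

noncomputable def r179 : List Con := (true, [n1,n0,n0,n0,n0,n0,n0,n0,n0,n0,n0,n0,n1,m2]) :: r178

noncomputable def l180 : List Con := (false, [n0,n0,n0,n0,n0,n0,n0,n0,n0,n0,n0,n0,n1,m2]) :: r176

noncomputable def r180 : List Con := (true, [n1,n0,n0,n0,n0,n0,n0,n0,n0,n0,n0,n0,m1,n2]) :: r176

noncomputable def l181 : List Con := (false, [n0,n0,n0,n0,n0,n0,n0,n0,n0,n0,n0,n0,m1,n2]) :: r180

noncomputable def r181 : List Con := (true, [n1,n0,n0,n0,n0,n0,n0,n0,n0,n0,n0,n0,n1,m2]) :: r180

noncomputable def l182 : List Con := (true, [n1,n0,m1,m1,n1,n0,n0,n0,n0,n0,n7]) :: r174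

noncomputable def r182 : List Con := (true, [n0,n0,n1,n1,m1,n0,n0,n0,n0,n0,m7]) :: r174

noncomputable def l183 : List Con := (true, [n1,n0,n1,n1,m1,n0,n0,n0,n0,n0,m7]) :: l182

noncomputable def r183 : List Con := (true, [n0,n0,m1,m1,n1,n0,n0,n0,n0,n0,n7]) :: l182

noncomputable def l184 : List Con := (true, [n1,n0,n1,n1,n0,n0,n0,n1,n0,n1,n2]) :: r183

noncomputable def r184 : List Con := (true, [n0,n0,m1,m1,n0,n0,n0,m1,n0,m1,m2]) :: r183

noncomputable def l185 : List Con := (true, [n1,n0,m1,m1,n0,n0,n0,m1,n0,m1,m2]) :: l184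

noncomputable def r185 : List Con := (true, [n0,n0,n1,n1,n0,n0,n0,n1,n0,n1,n2]) :: l184

noncomputable def l186 : List Con := (true, [n1,n0,n1,n1,n0,n0,n0,n1,n0,n2,n1]) :: r185

noncomputable def r186 : List Con := (true, [n0,n0,m1,m1,n0,n0,n0,m1,n0,m2,m1]) :: r185

noncomputable def l187 : List Con := (true, [n1,n0,m1,m1,n0,n0,n0,m1,n0,m2,m1]) :: l186

noncomputable def r187 : List Con := (true, [n0,n0,n1,n1,n0,n0,n0,n1,n0,n2,n1]) :: l186

noncomputable def l188 : List Con := (true, [n1,n0,n1,n1,n0,n0,n0,n2,n0,n0,n2]) :: r187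

noncomputable def r188 : List Con := (true, [n0,n0,m1,m1,n0,n0,n0,m2,n0,n0,m2]) :: r187

noncomputable def l189 : List Con := (false, [n0,n0,n0,n0,n0,n0,n0,n0,n0,n0,n0,n0,m1,n2]) :: l188

noncomputable def r189 : List Con := (true, [n1,n0,n0,n0,n0,n0,n0,n0,n0,n0,n0,n0,n1,m2]) :: l188

noncomputable def l190 : List Con := (false, [n0,n0,n0,n0,n0,n0,n0,n0,n0,n0,n0,n0,n1,m2]) :: r188

noncomputable def r190 : List Con := (true, [n1,n0,n0,n0,n0,n0,n0,n0,n0,n0,n0,n0,m1,n2]) :: r188

noncomputable def l191 : List Con := (true, [n1,n0,m1,m1,n1,n0,n0,n2,n0,n1,n1]) :: r186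

noncomputable def r191 : List Con := (true, [n0,n0,n1,n1,m1,n0,n0,m2,n0,m1,m1]) :: r186

noncomputable def l192 : List Con := (true, [n1,n0,n1,n1,m1,n0,n0,m2,n0,m1,m1]) :: l191

noncomputable def r192 : List Con := (true, [n0,n0,m1,m1,n1,n0,n0,n2,n0,n1,n1]) :: l191

noncomputable def l193 : List Con := (true, [n1,n0,m4,m4,n2,n0,n0,n0,n0,n0,n3]) :: r192

noncomputable def r193 : List Con := (true, [n0,n0,n4,n4,m2,n0,n0,n0,n0,n0,m3]) :: r192

noncomputable def l194 : List Con := (true, [n1,n0,n4,n4,m2,n0,n0,n0,n0,n0,m3]) :: l193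

noncomputable def r194 : List Con := (true, [n0,n0,m4,m4,n2,n0,n0,n0,n0,n0,n3]) :: l193

noncomputable def l195 : List Con := (true, [n1,n0,n0,n0,n0,n0,n0,n0,n0,m1,n2]) :: r194

noncomputable def r195 : List Con := (true, [n0,n0,n0,n0,n0,n0,n0,n0,n0,n1,m2]) :: r194

noncomputable def l196 : List Con := (true, [n1,n0,n0,n0,n0,n0,n0,n0,n0,n1,m2]) :: l195

noncomputable def r196 : List Con := (true, [n0,n0,n0,n0,n0,n0,n0,n0,n0,m1,n2]) :: l195

noncomputable def l197 : List Con := (true, [n1,n0,m2,m2,n1,n0,n0,n0,n0,n0,n5]) :: r196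

noncomputable def r197 : List Con := (true, [n0,n0,n2,n2,m1,n0,n0,n0,n0,n0,m5]) :: r196

noncomputable def l198 : List Con := (true, [n1,n0,n2,n2,m1,n0,n0,n0,n0,n0,m5]) :: l197

noncomputable def r198 : List Con := (true, [n0,n0,m2,m2,n1,n0,n0,n0,n0,n0,n5]) :: l197

noncomputable def l199 : List Con := (false, [n0,n0,n0,n0,n0,n0,n0,n0,n0,n0,n0,n0,n1,m2]) :: r198

noncomputable def r199 : List Con := (true, [n1,n0,n0,n0,n0,n0,n0,n0,n0,n0,n0,n0,m1,n2]) :: r198

noncomputable def l200 : List Con := (false, [n0,n0,n0,n0,n0,n0,n0,n0,n0,n0,n0,n0,m1,n2]) :: r199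

noncomputable def r200 : List Con := (true, [n1,n0,n0,n0,n0,n0,n0,n0,n0,n0,n0,n0,n1,m2]) :: r199

noncomputable def l201 : List Con := (true, [n1,n0,m4,m4,n2,n0,n0,n0,n0,n0,n5]) :: r197

noncomputable def r201 : List Con := (true, [n0,n0,n4,n4,m2,n0,n0,n0,n0,n0,m5]) :: r197

noncomputable def l202 : List Con := (true, [n1,n0,m2,m2,n1,n0,n0,n1,n0,n0,m2]) :: l201

noncomputable def r202 : List Con := (true, [n0,n0,n2,n2,m1,n0,n0,m1,n0,n0,n2]) :: l201

noncomputable def l203 : List Con := (false, [n0,n0,n0,n0,n0,n0,n0,n0,n0,n0,n0,n0,m1,n2]) :: l202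

noncomputable def r203 : List Con := (true, [n1,n0,n0,n0,n0,n0,n0,n0,n0,n0,n0,n0,n1,m2]) :: l202

noncomputable def l204 : List Con := (false, [n0,n0,n0,n0,n0,n0,n0,n0,n0,n0,n0,n0,m1,n2]) :: r202

noncomputable def r204 : List Con := (true, [n1,n0,n0,n0,n0,n0,n0,n0,n0,n0,n0,n0,n1,m2]) :: r202

noncomputable def l205 : List Con := (false, [n0,n0,n0,n0,n0,n0,n0,n0,n0,n0,n0,n0,n1,m2]) :: r204

noncomputable def r205 : List Con := (true, [n1,n0,n0,n0,n0,n0,n0,n0,n0,n0,n0,n0,m1,n2]) :: r204

noncomputable def l206 : List Con := (true, [n1,n0,n3,n3,m1,n0,n0,n0,n0,n0,n7]) :: r201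

noncomputable def r206 : List Con := (true, [n0,n0,m3,m3,n1,n0,n0,n0,n0,n0,m7]) :: r201

noncomputable def l207 : List Con := (true, [n1,n0,m3,m3,n1,n0,n0,n0,n0,n0,m7]) :: l206

noncomputable def r207 : List Con := (true, [n0,n0,n3,n3,m1,n0,n0,n0,n0,n0,n7]) :: l206

noncomputable def l208 : List Con := (true, [n1,n0,m2,m2,n1,n0,n0,n1,n0,n0,m2]) :: r207

noncomputable def r208 : List Con := (true, [n0,n0,n2,n2,m1,n0,n0,m1,n0,n0,n2]) :: r207

noncomputable def l209 : List Con := (true, [n1,n0,n2,n2,m1,n0,n0,m1,n0,n0,n2]) :: l208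

noncomputable def r209 : List Con := (true, [n0,n0,m2,m2,n1,n0,n0,n1,n0,n0,m2]) :: l208

noncomputable def l210 : List Con := (false, [n0,n0,n0,n0,n0,n0,n0,n0,n0,n0,n0,n0,n1,m2]) :: r209

noncomputable def r210 : List Con := (true, [n1,n0,n0,n0,n0,n0,n0,n0,n0,n0,n0,n0,m1,n2]) :: r209

noncomputable def l211 : List Con := (false, [n0,n0,n0,n0,n0,n0,n0,n0,n0,n0,n0,n0,m1,n2]) :: r210

noncomputable def r211 : List Con := (true, [n1,n0,n0,n0,n0,n0,n0,n0,n0,n0,n0,n0,n1,m2]) :: r210

noncomputable def l212 : List Con := (false, [n0,n0,n0,n0,n0,n0,n0,n0,n0,n0,n0,n0,m1,n2]) :: r208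

noncomputable def r212 : List Con := (true, [n1,n0,n0,n0,n0,n0,n0,n0,n0,n0,n0,n0,n1,m2]) :: r208

noncomputable def l213 : List Con := (false, [n0,n0,n0,n0,n0,n0,n0,n0,n0,n0,n0,n0,m1,n2]) :: r206

noncomputable def r213 : List Con := (true, [n1,n0,n0,n0,n0,n0,n0,n0,n0,n0,n0,n0,n1,m2]) :: r206

noncomputable def l214 : List Con := (false, [n0,n0,n0,n0,n0,n0,n0,n0,n0,n0,n0,n0,m1,n2]) :: r195

noncomputable def r214 : List Con := (true, [n1,n0,n0,n0,n0,n0,n0,n0,n0,n0,n0,n0,n1,m2]) :: r195

noncomputable def l215 : List Con := (true, [n1,n0,n1,n1,n0,n0,n0,n0,n0,n0,n6]) :: r193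

noncomputable def r215 : List Con := (true, [n0,n0,m1,m1,n0,n0,n0,n0,n0,n0,m6]) :: r193

noncomputable def l216 : List Con := (true, [n1,n0,m1,m1,n0,n0,n0,n0,n0,n0,m6]) :: l215

noncomputable def r216 : List Con := (true, [n0,n0,n1,n1,n0,n0,n0,n0,n0,n0,n6]) :: l215

noncomputable def l217 : List Con := (false, [n0,n0,n0,n0,n0,n0,n0,n0,n0,n0,n0,n0,n1,m2]) :: r216

noncomputable def r217 : List Con := (true, [n1,n0,n0,n0,n0,n0,n0,n0,n0,n0,n0,n0,m1,n2]) :: r216

noncomputable def l218 : List Con := (false, [n0,n0,n0,n0,n0,n0,n0,n0,n0,n0,n0,n0,m1,n2]) :: r217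

noncomputable def r218 : List Con := (true, [n1,n0,n0,n0,n0,n0,n0,n0,n0,n0,n0,n0,n1,m2]) :: r217

noncomputable def l219 : List Con := (false, [n0,n0,n0,n0,n0,n0,n0,n0,n0,n0,n0,n0,m1,n2]) :: r215

noncomputable def r219 : List Con := (true, [n1,n0,n0,n0,n0,n0,n0,n0,n0,n0,n0,n0,n1,m2]) :: r215

noncomputable def l220 : List Con := (false, [n0,n0,n0,n0,n0,n0,n0,n0,n0,n0,n0,n0,n1,m2]) :: r219

noncomputable def r220 : List Con := (true, [n1,n0,n0,n0,n0,n0,n0,n0,n0,n0,n0,n0,m1,n2]) :: r219

noncomputable def l221 : List Con := (true, [n1,n0,m3,m3,n1,n0,n0,n0,n0,n0,m5]) :: r191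

noncomputable def r221 : List Con := (true, [n0,n0,n3,n3,m1,n0,n0,n0,n0,n0,n5]) :: r191

noncomputable def l222 : List Con := (true, [n1,n0,n3,n3,m1,n0,n0,n0,n0,n0,n5]) :: l221

noncomputable def r222 : List Con := (true, [n0,n0,m3,m3,n1,n0,n0,n0,n0,n0,m5]) :: l221

noncomputable def l223 : List Con := (true, [n1,n0,n1,n1,n0,n0,n0,n0,n0,n0,n6]) :: r222

noncomputable def r223 : List Con := (true, [n0,n0,m1,m1,n0,n0,n0,n0,n0,n0,m6]) :: r222

noncomputable def l224 : List Con := (true, [n1,n0,m1,m1,n0,n0,n0,n0,n0,n0,m6]) :: l223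

noncomputable def r224 : List Con := (true, [n0,n0,n1,n1,n0,n0,n0,n0,n0,n0,n6]) :: l223

noncomputable def l225 : List Con := (true, [n1,n0,n1,n1,n0,n0,n0,n0,n0,n0,n7]) :: r224

noncomputable def r225 : List Con := (true, [n0,n0,m1,m1,n0,n0,n0,n0,n0,n0,m7]) :: r224

noncomputable def l226 : List Con := (true, [n1,n0,m1,m1,n0,n0,n0,n0,n0,n0,m7]) :: l225

noncomputable def r226 : List Con := (true, [n0,n0,n1,n1,n0,n0,n0,n0,n0,n0,n7]) :: l225

noncomputable def l227 : List Con := (false, [n0,n0,n0,n0,n0,n0,n0,n0,n0,n0,n0,n0,n1,m2]) :: r226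

noncomputable def r227 : List Con := (true, [n1,n0,n0,n0,n0,n0,n0,n0,n0,n0,n0,n0,m1,n2]) :: r226

noncomputable def l228 : List Con := (false, [n0,n0,n0,n0,n0,n0,n0,n0,n0,n0,n0,n0,m1,n2]) :: r227

noncomputable def r228 : List Con := (true, [n1,n0,n0,n0,n0,n0,n0,n0,n0,n0,n0,n0,n1,m2]) :: r227

noncomputable def l229 : List Con := (true, [n1,n0,n1,n1,n0,n0,n0,n2,n0,n1,m1]) :: r225

noncomputable def r229 : List Con := (true, [n0,n0,m1,m1,n0,n0,n0,m2,n0,m1,n1]) :: r225

noncomputable def l230 : List Con := (true, [n1,n0,m1,m1,n0,n0,n0,m2,n0,m1,n1]) :: l229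

noncomputable def r230 : List Con := (true, [n0,n0,n1,n1,n0,n0,n0,n2,n0,n1,m1]) :: l229

noncomputable def l231 : List Con := (true, [n1,n0,m4,m4,n2,n0,n0,n0,n0,n0,n3]) :: r230

noncomputable def r231 : List Con := (true, [n0,n0,n4,n4,m2,n0,n0,n0,n0,n0,m3]) :: r230

noncomputable def l232 : List Con := (true, [n1,n0,n1,n1,m1,n0,n0,n0,n0,n0,m8]) :: l231

noncomputable def r232 : List Con := (true, [n0,n0,m1,m1,n1,n0,n0,n0,n0,n0,n8]) :: l231

noncomputable def l233 : List Con := (false, [n0,n0,n0,n0,n0,n0,n0,n0,n0,n0,n0,n0,m1,n2]) :: l232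

noncomputable def r233 : List Con := (true, [n1,n0,n0,n0,n0,n0,n0,n0,n0,n0,n0,n0,n1,m2]) :: l232

noncomputable def l234 : List Con := (false, [n0,n0,n0,n0,n0,n0,n0,n0,n0,n0,n0,n0,m1,n2]) :: r232

noncomputable def r234 : List Con := (true, [n1,n0,n0,n0,n0,n0,n0,n0,n0,n0,n0,n0,n1,m2]) :: r232

noncomputable def l235 : List Con := (false, [n0,n0,n0,n0,n0,n0,n0,n0,n0,n0,n0,n0,m1,n2]) :: r231

noncomputable def r235 : List Con := (true, [n1,n0,n0,n0,n0,n0,n0,n0,n0,n0,n0,n0,n1,m2]) :: r231

noncomputable def l236 : List Con := (false, [n0,n0,n0,n0,n0,n0,n0,n0,n0,n0,n0,n0,n1,m2]) :: r235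

noncomputable def r236 : List Con := (true, [n1,n0,n0,n0,n0,n0,n0,n0,n0,n0,n0,n0,m1,n2]) :: r235

noncomputable def l237 : List Con := (true, [n1,n0,m2,m2,n1,n0,n0,n0,n0,n0,n2]) :: r229

noncomputable def r237 : List Con := (true, [n0,n0,n2,n2,m1,n0,n0,n0,n0,n0,m2]) :: r229

noncomputable def l238 : List Con := (true, [n1,n0,n2,n2,m1,n0,n0,n0,n0,n0,m2]) :: l237

noncomputable def r238 : List Con := (true, [n0,n0,m2,m2,n1,n0,n0,n0,n0,n0,n2]) :: l237

noncomputable def l239 : List Con := (false, [n0,n0,n0,n0,n0,n0,n0,n0,n0,n0,n0,n0,m1,n2]) :: r238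

noncomputable def r239 : List Con := (true, [n1,n0,n0,n0,n0,n0,n0,n0,n0,n0,n0,n0,n1,m2]) :: r238

noncomputable def l240 : List Con := (false, [n0,n0,n0,n0,n0,n0,n0,n0,n0,n0,n0,n0,m1,n2]) :: r237

noncomputable def r240 : List Con := (true, [n1,n0,n0,n0,n0,n0,n0,n0,n0,n0,n0,n0,n1,m2]) :: r237

noncomputable def l241 : List Con := (false, [n0,n0,n0,n0,n0,n0,n0,n0,n0,n0,n0,n0,n1,m2]) :: r223

noncomputable def r241 : List Con := (true, [n1,n0,n0,n0,n0,n0,n0,n0,n0,n0,n0,n0,m1,n2]) :: r223

noncomputable def l242 : List Con := (false, [n0,n0,n0,n0,n0,n0,n0,n0,n0,n0,n0,n0,m1,n2]) :: r241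

noncomputable def r242 : List Con := (true, [n1,n0,n0,n0,n0,n0,n0,n0,n0,n0,n0,n0,n1,m2]) :: r241

noncomputable def l243 : List Con := (true, [n1,n0,n1,n1,n0,n0,n0,n2,n0,n1,m1]) :: r221

noncomputable def r243 : List Con := (true, [n0,n0,m1,m1,n0,n0,n0,m2,n0,m1,n1]) :: r221

noncomputable def l244 : List Con := (true, [n1,n0,m1,m1,n0,n0,n0,m2,n0,m1,n1]) :: l243

noncomputable def r244 : List Con := (true, [n0,n0,n1,n1,n0,n0,n0,n2,n0,n1,m1]) :: l243

noncomputable def l245 : List Con := (true, [n1,n0,n1,n1,n0,n0,n0,n0,n0,n0,n7]) :: r244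

noncomputable def r245 : List Con := (true, [n0,n0,m1,m1,n0,n0,n0,n0,n0,n0,m7]) :: r244

noncomputable def l246 : List Con := (true, [n1,n0,m1,m1,n0,n0,n0,n0,n0,n0,m7]) :: l245

noncomputable def r246 : List Con := (true, [n0,n0,n1,n1,n0,n0,n0,n0,n0,n0,n7]) :: l245

noncomputable def l247 : List Con := (false, [n0,n0,n0,n0,n0,n0,n0,n0,n0,n0,n0,n0,m1,n2]) :: r246

noncomputable def r247 : List Con := (true, [n1,n0,n0,n0,n0,n0,n0,n0,n0,n0,n0,n0,n1,m2]) :: r246

noncomputable def l248 : List Con := (false, [n0,n0,n0,n0,n0,n0,n0,n0,n0,n0,n0,n0,n1,m2]) :: r247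

noncomputable def r248 : List Con := (true, [n1,n0,n0,n0,n0,n0,n0,n0,n0,n0,n0,n0,m1,n2]) :: r247

noncomputable def l249 : List Con := (true, [n1,n0,m1,m1,n1,n0,n0,n0,n0,n0,n8]) :: r245

noncomputable def r249 : List Con := (true, [n0,n0,n1,n1,m1,n0,n0,n0,n0,n0,m8]) :: r245

noncomputable def l250 : List Con := (true, [n1,n0,n1,n1,m1,n0,n0,n0,n0,n0,m8]) :: l249

noncomputable def r250 : List Con := (true, [n0,n0,m1,m1,n1,n0,n0,n0,n0,n0,n8]) :: l249

noncomputable def l251 : List Con := (false, [n0,n0,n0,n0,n0,n0,n0,n0,n0,n0,n0,n0,n1,m2]) :: r250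

noncomputable def r251 : List Con := (true, [n1,n0,n0,n0,n0,n0,n0,n0,n0,n0,n0,n0,m1,n2]) :: r250

noncomputable def l252 : List Con := (false, [n0,n0,n0,n0,n0,n0,n0,n0,n0,n0,n0,n0,m1,n2]) :: r251

noncomputable def r252 : List Con := (true, [n1,n0,n0,n0,n0,n0,n0,n0,n0,n0,n0,n0,n1,m2]) :: r251

noncomputable def l253 : List Con := (false, [n0,n0,n0,n0,n0,n0,n0,n0,n0,n0,n0,n0,m1,n2]) :: r249

noncomputable def r253 : List Con := (true, [n1,n0,n0,n0,n0,n0,n0,n0,n0,n0,n0,n0,n1,m2]) :: r249

noncomputable def l254 : List Con := (false, [n0,n0,n0,n0,n0,n0,n0,n0,n0,n0,n0,n0,n1,m2]) :: r253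

noncomputable def r254 : List Con := (true, [n1,n0,n0,n0,n0,n0,n0,n0,n0,n0,n0,n0,m1,n2]) :: r253

noncomputable def l255 : List Con := (true, [n1,n0,n0,n0,n0,n0,n0,n0,n0,n1,m2]) :: r243

noncomputable def r255 : List Con := (true, [n0,n0,n0,n0,n0,n0,n0,n0,n0,m1,n2]) :: r243

noncomputable def l256 : List Con := (true, [n1,n0,n0,n0,n0,n0,n0,n0,n0,m1,n2]) :: l255

noncomputable def r256 : List Con := (true, [n0,n0,n0,n0,n0,n0,n0,n0,n0,n1,m2]) :: l255

noncomputable def l257 : List Con := (false, [n0,n0,n0,n0,n0,n0,n0,n0,n0,n0,n0,n0,m1,n2]) :: r256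

noncomputable def r257 : List Con := (true, [n1,n0,n0,n0,n0,n0,n0,n0,n0,n0,n0,n0,n1,m2]) :: r256

noncomputable def l258 : List Con := (false, [n0,n0,n0,n0,n0,n0,n0,n0,n0,n0,n0,n0,m1,n2]) :: r255

noncomputable def r258 : List Con := (true, [n1,n0,n0,n0,n0,n0,n0,n0,n0,n0,n0,n0,n1,m2]) :: r255

noncomputable def l259 : List Con := (true, [n1,n0,m1,m1,n1,n0,n0,n2,n0,n0,n2]) :: r184

noncomputable def r259 : List Con := (true, [n0,n0,n1,n1,m1,n0,n0,m2,n0,n0,m2]) :: r184

noncomputable def l260 : List Con := (true, [n1,n0,n1,n1,m1,n0,n0,m2,n0,n0,m2]) :: l259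

noncomputable def r260 : List Con := (true, [n0,n0,m1,m1,n1,n0,n0,n2,n0,n0,n2]) :: l259

noncomputable def l261 : List Con := (true, [n1,n0,n1,n1,n0,n0,n0,n2,n0,n1,m1]) :: r260

noncomputable def r261 : List Con := (true, [n0,n0,m1,m1,n0,n0,n0,m2,n0,m1,n1]) :: r260

noncomputable def l262 : List Con := (true, [n1,n0,m1,m1,n0,n0,n0,n0,n0,n0,m6]) :: l261

noncomputable def r262 : List Con := (true, [n0,n0,n1,n1,n0,n0,n0,n0,n0,n0,n6]) :: l261

noncomputable def l263 : List Con := (true, [n1,n0,m1,m1,n0,n0,n0,m2,n0,m1,n1]) :: l262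

noncomputable def r263 : List Con := (true, [n0,n0,n1,n1,n0,n0,n0,n2,n0,n1,m1]) :: l262

noncomputable def l264 : List Con := (true, [n1,n0,n1,n1,n0,n0,n0,n0,n0,n0,n6]) :: r263

noncomputable def r264 : List Con := (true, [n0,n0,m1,m1,n0,n0,n0,n0,n0,n0,m6]) :: r263

noncomputable def l265 : List Con := (true, [n1,n0,m4,m4,n2,n0,n0,n0,n0,n0,n3]) :: r264

noncomputable def r265 : List Con := (true, [n0,n0,n4,n4,m2,n0,n0,n0,n0,n0,m3]) :: r264

noncomputable def l266 : List Con := (true, [n1,n0,n4,n4,m2,n0,n0,n0,n0,n0,m3]) :: l265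

noncomputable def r266 : List Con := (true, [n0,n0,m4,m4,n2,n0,n0,n0,n0,n0,n3]) :: l265

noncomputable def l267 : List Con := (false, [n0,n0,n0,n0,n0,n0,n0,n0,n0,n0,n0,n0,m1,n2]) :: r266

noncomputable def r267 : List Con := (true, [n1,n0,n0,n0,n0,n0,n0,n0,n0,n0,n0,n0,n1,m2]) :: r266

noncomputable def l268 : List Con := (false, [n0,n0,n0,n0,n0,n0,n0,n0,n0,n0,n0,n0,n1,m2]) :: r267

noncomputable def r268 : List Con := (true, [n1,n0,n0,n0,n0,n0,n0,n0,n0,n0,n0,n0,m1,n2]) :: r267

noncomputable def l269 : List Con := (false, [n0,n0,n0,n0,n0,n0,n0,n0,n0,n0,n0,n0,m1,n2]) :: r265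

noncomputable def r269 : List Con := (true, [n1,n0,n0,n0,n0,n0,n0,n0,n0,n0,n0,n0,n1,m2]) :: r265

noncomputable def l270 : List Con := (false, [n0,n0,n0,n0,n0,n0,n0,n0,n0,n0,n0,n0,n1,m2]) :: r269

noncomputable def r270 : List Con := (true, [n1,n0,n0,n0,n0,n0,n0,n0,n0,n0,n0,n0,m1,n2]) :: r269

noncomputable def l271 : List Con := (true, [n1,n0,m1,m1,n0,n0,n0,m2,n0,m1,n1]) :: r262

noncomputable def r271 : List Con := (true, [n0,n0,n1,n1,n0,n0,n0,n2,n0,n1,m1]) :: r262

noncomputable def l272 : List Con := (true, [n1,n0,n4,n4,m2,n0,n0,n0,n0,n0,m3]) :: r271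

noncomputable def r272 : List Con := (true, [n0,n0,m4,m4,n2,n0,n0,n0,n0,n0,n3]) :: r271

noncomputable def l273 : List Con := (true, [n1,n0,m4,m4,n2,n0,n0,n0,n0,n0,n3]) :: l272

noncomputable def r273 : List Con := (true, [n0,n0,n4,n4,m2,n0,n0,n0,n0,n0,m3]) :: l272

noncomputable def l274 : List Con := (false, [n0,n0,n0,n0,n0,n0,n0,n0,n0,n0,n0,n0,m1,n2]) :: r273

noncomputable def r274 : List Con := (true, [n1,n0,n0,n0,n0,n0,n0,n0,n0,n0,n0,n0,n1,m2]) :: r273

noncomputable def l275 : List Con := (false, [n0,n0,n0,n0,n0,n0,n0,n0,n0,n0,n0,n0,n1,m2]) :: r274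

noncomputable def r275 : List Con := (true, [n1,n0,n0,n0,n0,n0,n0,n0,n0,n0,n0,n0,m1,n2]) :: r274

noncomputable def l276 : List Con := (false, [n0,n0,n0,n0,n0,n0,n0,n0,n0,n0,n0,n0,m1,n2]) :: r272

noncomputable def r276 : List Con := (true, [n1,n0,n0,n0,n0,n0,n0,n0,n0,n0,n0,n0,n1,m2]) :: r272

noncomputable def l277 : List Con := (false, [n0,n0,n0,n0,n0,n0,n0,n0,n0,n0,n0,n0,n1,m2]) :: r276

noncomputable def r277 : List Con := (true, [n1,n0,n0,n0,n0,n0,n0,n0,n0,n0,n0,n0,m1,n2]) :: r276

noncomputable def l278 : List Con := (true, [n1,n0,m1,m1,n0,n0,n0,n0,n0,n0,m6]) :: r261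

noncomputable def r278 : List Con := (true, [n0,n0,n1,n1,n0,n0,n0,n0,n0,n0,n6]) :: r261

noncomputable def l279 : List Con := (true, [n1,n0,n1,n1,n0,n0,n0,n0,n0,n0,n6]) :: l278

noncomputable def r279 : List Con := (true, [n0,n0,m1,m1,n0,n0,n0,n0,n0,n0,m6]) :: l278

noncomputable def l280 : List Con := (false, [n0,n0,n0,n0,n0,n0,n0,n0,n0,n0,n0,n0,m1,n2]) :: r279

noncomputable def r280 : List Con := (true, [n1,n0,n0,n0,n0,n0,n0,n0,n0,n0,n0,n0,n1,m2]) :: r279

noncomputable def l281 : List Con := (false, [n0,n0,n0,n0,n0,n0,n0,n0,n0,n0,n0,n0,n1,m2]) :: r280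

noncomputable def r281 : List Con := (true, [n1,n0,n0,n0,n0,n0,n0,n0,n0,n0,n0,n0,m1,n2]) :: r280

noncomputable def l282 : List Con := (true, [n1,n0,n3,n3,m1,n0,n0,n0,n0,n0,n5]) :: r278

noncomputable def r282 : List Con := (true, [n0,n0,m3,m3,n1,n0,n0,n0,n0,n0,m5]) :: r278

noncomputable def l283 : List Con := (true, [n1,n0,m3,m3,n1,n0,n0,n0,n0,n0,m5]) :: l282

noncomputable def r283 : List Con := (true, [n0,n0,n3,n3,m1,n0,n0,n0,n0,n0,n5]) :: l282

noncomputable def l284 : List Con := (true, [n1,n0,n1,n1,n0,n0,n0,n0,n0,n0,n7]) :: r283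

noncomputable def r284 : List Con := (true, [n0,n0,m1,m1,n0,n0,n0,n0,n0,n0,m7]) :: r283

noncomputable def l285 : List Con := (true, [n1,n0,m1,m1,n0,n0,n0,n0,n0,n0,m7]) :: l284

noncomputable def r285 : List Con := (true, [n0,n0,n1,n1,n0,n0,n0,n0,n0,n0,n7]) :: l284

noncomputable def l286 : List Con := (false, [n0,n0,n0,n0,n0,n0,n0,n0,n0,n0,n0,n0,n1,m2]) :: r285

noncomputable def r286 : List Con := (true, [n1,n0,n0,n0,n0,n0,n0,n0,n0,n0,n0,n0,m1,n2]) :: r285

noncomputable def l287 : List Con := (false, [n0,n0,n0,n0,n0,n0,n0,n0,n0,n0,n0,n0,m1,n2]) :: r286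

noncomputable def r287 : List Con := (true, [n1,n0,n0,n0,n0,n0,n0,n0,n0,n0,n0,n0,n1,m2]) :: r286

noncomputable def l288 : List Con := (false, [n0,n0,n0,n0,n0,n0,n0,n0,n0,n0,n0,n0,m1,n2]) :: r284

noncomputable def r288 : List Con := (true, [n1,n0,n0,n0,n0,n0,n0,n0,n0,n0,n0,n0,n1,m2]) :: r284

noncomputable def l289 : List Con := (false, [n0,n0,n0,n0,n0,n0,n0,n0,n0,n0,n0,n0,n1,m2]) :: r288

noncomputable def r289 : List Con := (true, [n1,n0,n0,n0,n0,n0,n0,n0,n0,n0,n0,n0,m1,n2]) :: r288

noncomputable def l290 : List Con := (false, [n0,n0,n0,n0,n0,n0,n0,n0,n0,n0,n0,n0,n1,m2]) :: r282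

noncomputable def r290 : List Con := (true, [n1,n0,n0,n0,n0,n0,n0,n0,n0,n0,n0,n0,m1,n2]) :: r282

noncomputable def l291 : List Con := (false, [n0,n0,n0,n0,n0,n0,n0,n0,n0,n0,n0,n0,m1,n2]) :: r290

noncomputable def r291 : List Con := (true, [n1,n0,n0,n0,n0,n0,n0,n0,n0,n0,n0,n0,n1,m2]) :: r290

noncomputable def l292 : List Con := (true, [n1,n0,n1,n1,n0,n0,n0,n2,n0,n1,m1]) :: r259

noncomputable def r292 : List Con := (true, [n0,n0,m1,m1,n0,n0,n0,m2,n0,m1,n1]) :: r259

noncomputable def l293 : List Con := (true, [n1,n0,m1,m1,n0,n0,n0,m2,n0,m1,n1]) :: l292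

noncomputable def r293 : List Con := (true, [n0,n0,n1,n1,n0,n0,n0,n2,n0,n1,m1]) :: l292

noncomputable def l294 : List Con := (false, [n0,n0,n0,n0,n0,n0,n0,n0,n0,n0,n0,n0,m1,n2]) :: r293

noncomputable def r294 : List Con := (true, [n1,n0,n0,n0,n0,n0,n0,n0,n0,n0,n0,n0,n1,m2]) :: r293

noncomputable def l295 : List Con := (false, [n0,n0,n0,n0,n0,n0,n0,n0,n0,n0,n0,n0,m1,n2]) :: r292

noncomputable def r295 : List Con := (true, [n1,n0,n0,n0,n0,n0,n0,n0,n0,n0,n0,n0,n1,m2]) :: r292

noncomputable def l296 : List Con := (true, [n1,n0,n3,n3,m1,n0,n0,n0,n0,n0,n4]) :: r182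

noncomputable def r296 : List Con := (true, [n0,n0,m3,m3,n1,n0,n0,n0,n0,n0,m4]) :: r182

noncomputable def l297 : List Con := (true, [n1,n0,m3,m3,n1,n0,n0,n0,n0,n0,m4]) :: l296

noncomputable def r297 : List Con := (true, [n0,n0,n3,n3,m1,n0,n0,n0,n0,n0,n4]) :: l296

noncomputable def l298 : List Con := (true, [n1,n0,n1,n1,n0,n0,n0,n1,n0,n1,n2]) :: r297

noncomputable def r298 : List Con := (true, [n0,n0,m1,m1,n0,n0,n0,m1,n0,m1,m2]) :: r297

noncomputable def l299 : List Con := (true, [n1,n0,m1,m1,n0,n0,n0,m1,n0,m1,m2]) :: l298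

noncomputable def r299 : List Con := (true, [n0,n0,n1,n1,n0,n0,n0,n1,n0,n1,n2]) :: l298

noncomputable def l300 : List Con := (true, [n1,n0,n1,n1,n0,n0,n0,n1,n0,n2,n1]) :: r299

noncomputable def r300 : List Con := (true, [n0,n0,m1,m1,n0,n0,n0,m1,n0,m2,m1]) :: r299

noncomputable def l301 : List Con := (true, [n1,n0,m1,m1,n0,n0,n0,m1,n0,m2,m1]) :: l300

noncomputable def r301 : List Con := (true, [n0,n0,n1,n1,n0,n0,n0,n1,n0,n2,n1]) :: l300

noncomputable def l302 : List Con := (true, [n1,n0,m1,m1,n1,n0,n0,n2,n0,n2]) :: r301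

noncomputable def r302 : List Con := (true, [n0,n0,n1,n1,m1,n0,n0,m2,n0,m2]) :: r301

noncomputable def l303 : List Con := (true, [n1,n0,n1,n1,m1,n0,n0,m2,n0,m2]) :: l302

noncomputable def r303 : List Con := (true, [n0,n0,m1,m1,n1,n0,n0,n2,n0,n2]) :: l302

noncomputable def l304 : List Con := (false, [n0,n0,n0,n0,n0,n0,n0,n0,n0,n0,n0,n0,n1,m2]) :: r303

noncomputable def r304 : List Con := (true, [n1,n0,n0,n0,n0,n0,n0,n0,n0,n0,n0,n0,m1,n2]) :: r303

noncomputable def l305 : List Con := (true, [n1,n0,n1,n1,n0,n0,n0,n2,n0,n1]) :: r304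

noncomputable def r305 : List Con := (true, [n0,n0,m1,m1,n0,n0,n0,m2,n0,m1]) :: r304

noncomputable def l306 : List Con := (true, [n1,n0,m1,m1,n0,n0,n0,m2,n0,m1]) :: l305

noncomputable def r306 : List Con := (true, [n0,n0,n1,n1,n0,n0,n0,n2,n0,n1]) :: l305

noncomputable def l307 : List Con := (false, [n0,n0,n0,n0,n0,n0,n0,n0,n0,n0,n0,n0,m1,n2]) :: r306

noncomputable def r307 : List Con := (true, [n1,n0,n0,n0,n0,n0,n0,n0,n0,n0,n0,n0,n1,m2]) :: r306

noncomputable def l308 : List Con := (false, [n0,n0,n0,n0,n0,n0,n0,n0,n0,n0,n0,n0,m1,n2]) :: r305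

noncomputable def r308 : List Con := (true, [n1,n0,n0,n0,n0,n0,n0,n0,n0,n0,n0,n0,n1,m2]) :: r305

noncomputable def l309 : List Con := (false, [n0,n0,n0,n0,n0,n0,n0,n0,n0,n0,n0,n0,n1,m2]) :: r302

noncomputable def r309 : List Con := (true, [n1,n0,n0,n0,n0,n0,n0,n0,n0,n0,n0,n0,m1,n2]) :: r302

noncomputable def l310 : List Con := (false, [n0,n0,n0,n0,n0,n0,n0,n0,n0,n0,n0,n0,m1,n2]) :: r309

noncomputable def r310 : List Con := (true, [n1,n0,n0,n0,n0,n0,n0,n0,n0,n0,n0,n0,n1,m2]) :: r309

noncomputable def l311 : List Con := (true, [n1,n0,m3,m3,n2,n0,n0,n0,n0,n0,n8]) :: r300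

noncomputable def r311 : List Con := (true, [n0,n0,n3,n3,m2,n0,n0,n0,n0,n0,m8]) :: r300

noncomputable def l312 : List Con := (true, [n1,n0,n3,n3,m2,n0,n0,n0,n0,n0,m8]) :: l311

noncomputable def r312 : List Con := (true, [n0,n0,m3,m3,n2,n0,n0,n0,n0,n0,n8]) :: l311

noncomputable def l313 : List Con := (true, [n1,n0,m1,m1,n1,n0,n0,n2,n0,n1,n1]) :: r312

noncomputable def r313 : List Con := (true, [n0,n0,n1,n1,m1,n0,n0,m2,n0,m1,m1]) :: r312

noncomputable def l314 : List Con := (true, [n1,n0,n1,n1,m1,n0,n0,m2,n0,m1,m1]) :: l313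

noncomputable def r314 : List Con := (true, [n0,n0,m1,m1,n1,n0,n0,n2,n0,n1,n1]) :: l313

noncomputable def l315 : List Con := (false, [n0,n0,n0,n0,n0,n0,n0,n0,n0,n0,n0,n0,n1,m2]) :: r314

noncomputable def r315 : List Con := (true, [n1,n0,n0,n0,n0,n0,n0,n0,n0,n0,n0,n0,m1,n2]) :: r314

noncomputable def l316 : List Con := (false, [n0,n0,n0,n0,n0,n0,n0,n0,n0,n0,n0,n0,m1,n2]) :: r315

noncomputable def r316 : List Con := (true, [n1,n0,n0,n0,n0,n0,n0,n0,n0,n0,n0,n0,n1,m2]) :: r315

noncomputable def l317 : List Con := (false, [n0,n0,n0,n0,n0,n0,n0,n0,n0,n0,n0,n0,m1,n2]) :: r313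

noncomputable def r317 : List Con := (true, [n1,n0,n0,n0,n0,n0,n0,n0,n0,n0,n0,n0,n1,m2]) :: r313

noncomputable def l318 : List Con := (false, [n0,n0,n0,n0,n0,n0,n0,n0,n0,n0,n0,n0,n1,m2]) :: r317

noncomputable def r318 : List Con := (true, [n1,n0,n0,n0,n0,n0,n0,n0,n0,n0,n0,n0,m1,n2]) :: r317

noncomputable def l319 : List Con := (true, [n1,n0,m1,m1,n1,n0,n0,n2,n0,n1,n1]) :: r311

noncomputable def r319 : List Con := (true, [n0,n0,n1,n1,m1,n0,n0,m2,n0,m1,m1]) :: r311

noncomputable def l320 : List Con := (true, [n1,n0,n1,n1,m1,n0,n0,m2,n0,m1,m1]) :: l319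

noncomputable def r320 : List Con := (true, [n0,n0,m1,m1,n1,n0,n0,n2,n0,n1,n1]) :: l319

noncomputable def l321 : List Con := (false, [n0,n0,n0,n0,n0,n0,n0,n0,n0,n0,n0,n0,n1,m2]) :: r320

noncomputable def r321 : List Con := (true, [n1,n0,n0,n0,n0,n0,n0,n0,n0,n0,n0,n0,m1,n2]) :: r320

noncomputable def l322 : List Con := (false, [n0,n0,n0,n0,n0,n0,n0,n0,n0,n0,n0,n0,m1,n2]) :: r321

noncomputable def r322 : List Con := (true, [n1,n0,n0,n0,n0,n0,n0,n0,n0,n0,n0,n0,n1,m2]) :: r321

noncomputable def l323 : List Con := (false, [n0,n0,n0,n0,n0,n0,n0,n0,n0,n0,n0,n0,m1,n2]) :: r319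

noncomputable def r323 : List Con := (true, [n1,n0,n0,n0,n0,n0,n0,n0,n0,n0,n0,n0,n1,m2]) :: r319

noncomputable def l324 : List Con := (false, [n0,n0,n0,n0,n0,n0,n0,n0,n0,n0,n0,n0,n1,m2]) :: r323

noncomputable def r324 : List Con := (true, [n1,n0,n0,n0,n0,n0,n0,n0,n0,n0,n0,n0,m1,n2]) :: r323

noncomputable def l325 : List Con := (true, [n1,n0,m1,m1,n1,n0,n0,n2,n0,n0,n2]) :: r298

noncomputable def r325 : List Con := (true, [n0,n0,n1,n1,m1,n0,n0,m2,n0,n0,m2]) :: r298

noncomputable def l326 : List Con := (true, [n1,n0,n1,n1,m1,n0,n0,m2,n0,n0,m2]) :: l325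

noncomputable def r326 : List Con := (true, [n0,n0,m1,m1,n1,n0,n0,n2,n0,n0,n2]) :: l325

noncomputable def l327 : List Con := (false, [n0,n0,n0,n0,n0,n0,n0,n0,n0,n0,n0,n0,m1,n2]) :: r326

noncomputable def r327 : List Con := (true, [n1,n0,n0,n0,n0,n0,n0,n0,n0,n0,n0,n0,n1,m2]) :: r326

noncomputable def l328 : List Con := (true, [n1,n0,n1,n1,n0,n0,n0,n2,n0,n1,m1]) :: r325

noncomputable def r328 : List Con := (true, [n0,n0,m1,m1,n0,n0,n0,m2,n0,m1,n1]) :: r325

noncomputable def l329 : List Con := (true, [n1,n0,m1,m1,n0,n0,n0,m2,n0,m1,n1]) :: l328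

noncomputable def r329 : List Con := (true, [n0,n0,n1,n1,n0,n0,n0,n2,n0,n1,m1]) :: l328

noncomputable def l330 : List Con := (true, [n1,n0,m3,m3,n2,n0,n0,n0,n0,n0,n8]) :: r329

noncomputable def r330 : List Con := (true, [n0,n0,n3,n3,m2,n0,n0,n0,n0,n0,m8]) :: r329

noncomputable def l331 : List Con := (true, [n1,n0,n3,n3,m2,n0,n0,n0,n0,n0,m8]) :: l330

noncomputable def r331 : List Con := (true, [n0,n0,m3,m3,n2,n0,n0,n0,n0,n0,n8]) :: l330

noncomputable def l332 : List Con := (false, [n0,n0,n0,n0,n0,n0,n0,n0,n0,n0,n0,n0,m1,n2]) :: r331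

noncomputable def r332 : List Con := (true, [n1,n0,n0,n0,n0,n0,n0,n0,n0,n0,n0,n0,n1,m2]) :: r331

noncomputable def l333 : List Con := (false, [n0,n0,n0,n0,n0,n0,n0,n0,n0,n0,n0,n0,n1,m2]) :: r332

noncomputable def r333 : List Con := (true, [n1,n0,n0,n0,n0,n0,n0,n0,n0,n0,n0,n0,m1,n2]) :: r332

noncomputable def l334 : List Con := (false, [n0,n0,n0,n0,n0,n0,n0,n0,n0,n0,n0,n0,n1,m2]) :: r330

noncomputable def r334 : List Con := (true, [n1,n0,n0,n0,n0,n0,n0,n0,n0,n0,n0,n0,m1,n2]) :: r330

noncomputable def l335 : List Con := (false, [n0,n0,n0,n0,n0,n0,n0,n0,n0,n0,n0,n0,m1,n2]) :: r334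

noncomputable def r335 : List Con := (true, [n1,n0,n0,n0,n0,n0,n0,n0,n0,n0,n0,n0,n1,m2]) :: r334

noncomputable def l336 : List Con := (false, [n0,n0,n0,n0,n0,n0,n0,n0,n0,n0,n0,n0,m1,n2]) :: r328

noncomputable def r336 : List Con := (true, [n1,n0,n0,n0,n0,n0,n0,n0,n0,n0,n0,n0,n1,m2]) :: r328

noncomputable def l337 : List Con := (false, [n0,n0,n0,n0,n0,n0,n0,n0,n0,n0,n0,n0,m1,n2]) :: r296

noncomputable def r337 : List Con := (true, [n1,n0,n0,n0,n0,n0,n0,n0,n0,n0,n0,n0,n1,m2]) :: r296

noncomputable def t0 : Tre :=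
  (.N [0,0,1,-2] 0 ⟨0,[(1,0)]⟩ ⟨0,[(16,0)]⟩ (.x 0 ⟨0,[(0,0)]⟩ ⟨55,[(2,2),(0,55),(20,2),(4,111),(6,
  7),(0,45),(6,39),(14,35)]⟩))

theorem ok0 : chk K t0 l1 = true := by decide +kernel

noncomputable def t1 : Tre :=
  (.N [0,0,1,-2] 0 ⟨0,[(2,0)]⟩ ⟨0,[(17,0)]⟩ (.x (-1) ⟨4,[(5,3),(25,8),(5,1),(0,3),(17,0),(9,0),(1,
  1),(1,7)]⟩ ⟨0,[(0,0)]⟩))

theorem ok1 : chk K t1 l2 = true := by decide +kernel

noncomputable def t2 : Tre :=
  (.N [0,0,0,1,-1] 0 ⟨0,[(1,0)]⟩ ⟨0,[(0,0)]⟩ (.x 0 ⟨31,[(3,15),(3,4),(27,5),(7,4),(13,4),(0,10)]⟩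
  ⟨17,[(2,8),(2,7),(6,8),(1,8),(12,7),(11,3),(7,0),(1,0)]⟩))

theorem ok2 : chk K t2 l4 = true := by decide +kernel

noncomputable def t3 : Tre :=
  (.N [0,-1,1,2,1] (-1) ⟨0,[(20,0),(26,0)]⟩ ⟨0,[(0,0)]⟩ (.x 0 ⟨31,[(4,31),(1,7),(1,22),(19,7),(7,1),
  (7,22),(13,22),(0,40)]⟩ ⟨14,[(3,14),(3,5),(7,23),(20,5),(3,12),(0,0),(6,3),(22,3)]⟩))

theorem ok3 : chk K t3 l5 = true := by decide +kernel

noncomputable def t4 : Tre :=
  (.N [0,-2,0,0,1] (-1) ⟨0,[(1,0)]⟩ ⟨0,[(0,0)]⟩ (.x 0 ⟨4,[(8,1),(6,2),(1,3),(12,1),(11,1),(18,3)]⟩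
  ⟨2,[(28,1),(9,0)]⟩))

theorem ok4 : chk K t4 l7 = true := by decide +kernel

noncomputable def t5 : Tre :=
  (.N [0,2,0,1,-2] 1 ⟨0,[(0,0)]⟩ ⟨0,[(1,0)]⟩ (.x (-1) ⟨17,[(8,8),(3,8),(17,0),(9,7),(7,8),(13,8)]⟩
  ⟨19,[(7,9),(2,6),(6,27),(1,23),(12,6),(11,11),(18,13)]⟩))

theorem ok5 : chk K t5 l9 = true := by decide +kernel

noncomputable def t6 : Tre :=
  (.N [0,3,1,0,1] 1 ⟨0,[(1,0)]⟩ ⟨0,[(0,0)]⟩ (.x (-2) ⟨35,[(12,8),(1,35),(17,9),(1,8),(7,7),(7,35),
  (13,35)]⟩ ⟨2,[(21,3),(23,1),(0,2),(18,0)]⟩))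

theorem ok6 : chk K t6 l11 = true := by decide +kernel

noncomputable def t7 : Tre :=
  (.N [0,4,0,0,7] 1 ⟨0,[(1,0)]⟩ ⟨0,[(0,0)]⟩ (.x (-2) ⟨0,[(21,2),(12,1)]⟩ ⟨14,[(14,3),(21,3),(7,4),
  (2,27),(0,13)]⟩))

theorem ok7 : chk K t7 l13 = true := by decide +kernel

noncomputable def t8 : Tre :=
  (.N [0,0,1,-2] 0 ⟨0,[(14,0)]⟩ ⟨0,[(29,0)]⟩ (.i 1 ⟨1,[(24,1),(17,2),(19,0)]⟩ ⟨0,[(0,0)]⟩))

theorem ok8 : chk K t8 l14 = true := by decide +kernel

noncomputable def t9 : Tre :=
  (.N [0,0,1,-2] 0 ⟨0,[(15,0)]⟩ ⟨0,[(30,0)]⟩ (.i 0 ⟨0,[(0,0)]⟩ ⟨0,[(18,0),(25,1)]⟩))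

theorem ok9 : chk K t9 l15 = true := by decide +kernel

open Helper55.PC in
noncomputable def t10n : Helper55.PC.Ten :=
  (r
  14031734831685853530211430581647338357530392601443940906532225196468609447151109276389800394938290423961049467933123251279876529479956946042397255768221907954832074644419075260073071639774672679735737967257973428946142444839629754038697848264930321680159165971012369702517949116764883712907826721057896382871900798097358691208929965916745377422264305746722292967927763344571694845013047989849778641988319063204462375234624545062495205064540747411002555364206727545880396945360213062102742116912212746919903388867049621802719287029536942772537260953551671460031075784196293189948322538823552698950464)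

noncomputable def t10 : Tre := Helper55.PC.toT t10n

theorem ok10 : chk K t10 r15 = true :=
  Helper55.PC.chkN_sound K t10n r15 (by decide +kernel)

noncomputable def t11 : Tre :=
  (.N [0,1,0,0,4] 0 ⟨0,[(1,0)]⟩ ⟨0,[(0,0)]⟩ (.x (-1) ⟨3,[(15,0),(6,11),(12,1),(1,0)]⟩ ⟨5,[(15,0),
  (21,0),(7,1),(2,3),(0,1)]⟩))

theorem ok11 : chk K t11 l17 = true := by decide +kernel

noncomputable def t12 : Tre :=
  (.N [0,0,1,-2] 0 ⟨0,[(15,0)]⟩ ⟨0,[(30,0)]⟩ (.i 0 ⟨0,[(0,0)]⟩ ⟨0,[(18,0),(25,1)]⟩))

theorem ok12 : chk K t12 l18 = true := by decide +kernel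

noncomputable def t13 : Tre :=
  (.N [0,0,1,-2] 0 ⟨0,[(16,0)]⟩ ⟨0,[(31,0)]⟩ (.i 1 ⟨1,[(26,1),(17,2),(19,0)]⟩ ⟨0,[(0,0)]⟩))

theorem ok13 : chk K t13 l19 = true := by decide +kernel

open Helper55.PC in
noncomputable def t14n : Helper55.PC.Ten :=
  (r
  258839821350265829836036238299174193080439978843635503298740872052940582626480192035318771994848616158570784881084128707761905421019847976446366853746398120730438927814895476188803818521354234632772310804163744388600392669142261380691024729994336062612520661694556585859945450843736729676815994679831932009079645464055828983182199266459589400315738160437225952256654341485839860288869221193807017109704967691887725687263001419460235710855843625368463630844547322244657225731647848651092762020896468472467540073809205240100971804051446848772259877913399342171694451715792662864634037137684608195542276339838542101619520)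

noncomputable def t14 : Tre := Helper55.PC.toT t14n

theorem ok14 : chk K t14 r19 = true :=
  Helper55.PC.chkN_sound K t14n r19 (by decide +kernel)

noncomputable def t15 : Tre :=
  (.N [0,0,1,-2] 0 ⟨0,[(14,0)]⟩ ⟨0,[(29,0)]⟩ (.i 1 ⟨1,[(24,1),(17,2),(19,0)]⟩ ⟨0,[(0,0)]⟩))

theorem ok15 : chk K t15 l20 = true := by decide +kernel

noncomputable def t16 : Tre :=
  (.N [0,0,1,-2] 0 ⟨0,[(15,0)]⟩ ⟨0,[(30,0)]⟩ (.i 0 ⟨0,[(0,0)]⟩ ⟨0,[(18,0),(25,1)]⟩))

theorem ok16 : chk K t16 l21 = true := by decide +kernel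

open Helper55.PC in
noncomputable def t17n : Helper55.PC.Ten :=
  (r
  3949582234958876210502319624260785016080917564571129516583321599275162158111827866951762229175449235293992659848181148376402549427176441759616660374184178193764599273845119982562481138441574537948194249563685035477950507808997395106253250271324568772104054740528673558870714073956178722358919468039277803413759272401008612548906409487896757649030909469974112984272550511760141660325131611443770543370387322008409965794289201428100325782048726647269805923147414385971676105442676574090077503363605785432434243462163539611231265220384800024011989099710789973043524428289181331388468090287824811741130383152596132672)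

noncomputable def t17 : Tre := Helper55.PC.toT t17n

theorem ok17 : chk K t17 r21 = true :=
  Helper55.PC.chkN_sound K t17n r21 (by decide +kernel)

noncomputable def t18 : Tre :=
  (.N [0,-1,0,0,5] (-1) ⟨0,[(1,0)]⟩ ⟨0,[(0,0)]⟩ (.x 0 ⟨4,[(13,0),(6,23),(1,1),(12,0),(11,0),(18,
  1)]⟩ ⟨29,[(13,6),(21,6),(7,19),(2,3),(0,1)]⟩))

theorem ok18 : chk K t18 l23 = true := by decide +kernel

noncomputable def t19 : Tre :=
  (.N [0,0,1,-2] 0 ⟨0,[(13,0)]⟩ ⟨0,[(28,0)]⟩ (.i 0 ⟨0,[(0,0)]⟩ ⟨0,[(16,0),(25,1)]⟩))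

theorem ok19 : chk K t19 l24 = true := by decide +kernel

open Helper55.PC in
noncomputable def t20n : Helper55.PC.Ten :=
  (r
  5772320903165403529890676591305018766595772942892424651954823034165743952938248932392379059316805380413154347693145997418855553263542156600553900794080833994985557738816190759991568995559426175933594267026067889261089780820527376383833990722822544112853487821506313410076269314333259721819476010568348476750551075111954637460386634355894869814548013192641194132544926457542114301682935540043303040959653736653907971553693037682450418628486156221307819775501884102163661375477885496367611675957148109823115696001439379806950897232168461941201385777854869900290230977184442048870367952699883819907978332166656077592328973076920185288198133656235915009619774415680)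

noncomputable def t20 : Tre := Helper55.PC.toT t20n

theorem ok20 : chk K t20 r24 = true :=
  Helper55.PC.chkN_sound K t20n r24 (by decide +kernel)

noncomputable def t21 : Tre :=
  (.N [0,0,1,-2] 0 ⟨0,[(12,0)]⟩ ⟨0,[(27,0)]⟩ (.i 0 ⟨0,[(0,0)]⟩ ⟨0,[(15,0),(25,1)]⟩))

theorem ok21 : chk K t21 l25 = true := by decide +kernel

open Helper55.PC in
noncomputable def t22n : Helper55.PC.Ten :=
  (r
  1343973191260682196951146389576361090522573423635856142676189686870636122195589731177003904678630162792895677254831583840420079611463107598009729136352748441980200315934630579010625748696615975445356109283489348528372755657688063391883697702678762889253716887190930339218270599910336626885050225232695532223379803456494430023677447497081082234432590030644384457728085172819973447495920311293112639834811006014913442193607279557093918868749117763763944901883642250028449790331028247081354984824729795669551088864441640843288877287824405782854162984413351612984679313990408424324908969323574200356112818202453752018248669017849798514168024519201970725696)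

noncomputable def t22 : Tre := Helper55.PC.toT t22n

theorem ok22 : chk K t22 r25 = true :=
  Helper55.PC.chkN_sound K t22n r25 (by decide +kernel)

noncomputable def t23 : Tre :=
  (.N [0,1,0,2,2] 0 ⟨0,[(1,0)]⟩ ⟨0,[(0,0)]⟩ (.x (-1) ⟨3,[(9,3),(1,0),(1,1),(17,1),(1,0),(15,1),(13,
  1),(0,1)]⟩ ⟨0,[(8,0),(34,0),(31,0)]⟩))

theorem ok23 : chk K t23 l27 = true := by decide +kernel

noncomputable def t24 : Tre :=
  (.N [0,1,1,2,1] 0 ⟨0,[(1,0)]⟩ ⟨0,[(0,0)]⟩ (.x (-1) ⟨31,[(11,31),(1,7),(1,36),(19,7),(7,5),(7,36),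
  (13,36),(0,26)]⟩ ⟨33,[(1,1),(2,3),(5,29),(7,5),(2,5),(0,63),(3,4),(1,7),(7,1),(0,2),(5,5),(3,28),
  (24,1),(3,7)]⟩))

theorem ok24 : chk K t24 l29 = true := by decide +kernel

noncomputable def t25 : Tre :=
  (.N [0,3,2] 1 ⟨0,[(1,0)]⟩ ⟨0,[(0,0)]⟩ (.x (-2) ⟨31,[(15,7),(1,48),(19,7),(7,13),(7,48),(13,48),(0,
  14)]⟩ ⟨26,[(1,8),(4,11),(7,0),(3,6),(1,23),(2,11),(0,54),(3,12),(1,23),(18,17),(18,0),(3,4),(0,
  6)]⟩))

theorem ok25 : chk K t25 l31 = true := by decide +kernel

noncomputable def t26 : Tre :=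
  (.N [0,1,1,1,2] 0 ⟨0,[(1,0)]⟩ ⟨0,[(0,0)]⟩ (.x (-1) ⟨3,[(15,1),(1,0),(1,3),(19,0),(15,3),(13,3),(0,
  1)]⟩ ⟨13,[(14,6),(11,16),(20,2),(1,3),(0,2),(0,9),(29,3)]⟩))

theorem ok26 : chk K t26 l33 = true := by decide +kernel

noncomputable def t27 : Tre :=
  (.N [0,0,1,-2] 0 ⟨0,[(17,0)]⟩ ⟨0,[(32,0)]⟩ (.i 0 ⟨0,[(0,0)]⟩ ⟨0,[(20,0),(25,1)]⟩))

theorem ok27 : chk K t27 l34 = true := by decide +kernel

noncomputable def t28 : Tre :=
  (.N [0,0,1,-2] 0 ⟨0,[(18,0)]⟩ ⟨0,[(33,0)]⟩ (.i 1 ⟨1,[(28,1),(17,2),(19,0)]⟩ ⟨0,[(0,0)]⟩))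

theorem ok28 : chk K t28 l35 = true := by decide +kernel

open Helper55.PC in
noncomputable def t29n : Helper55.PC.Ten :=
  (r
  4774751940533089153863518693259039029323443486339375789721844163263436988760321195126558205715353913186851119070660410493464912771094363241741667456148631674859033501620130471648190137642929334041955553405012622670735859330912340366319007675634158730337649197357421984614962493027317548975138560709032860511507180851462200043122371911209525284970262555445048429439199776387235390088607189727663824975444253758203568397600479489378622942923274207147775369689810923512338751866376536671073193918312270389255565008587595967369518888361481089071317786429616997361960176144468586214691184699225134018191107137877837896520254705492996070318912)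

noncomputable def t29 : Tre := Helper55.PC.toT t29n

theorem ok29 : chk K t29 r35 = true :=
  Helper55.PC.chkN_sound K t29n r35 (by decide +kernel)

noncomputable def t30 : Tre :=
  (.N [0,0,1,-2] 0 ⟨0,[(16,0)]⟩ ⟨0,[(31,0)]⟩ (.i 0 ⟨0,[(0,0)]⟩ ⟨0,[(19,0),(25,1)]⟩))

theorem ok30 : chk K t30 l36 = true := by decide +kernel

noncomputable def t31 : Tre :=
  (.N [0,0,1,-2] 0 ⟨0,[(17,0)]⟩ ⟨0,[(32,0)]⟩ (.i 1 ⟨1,[(27,1),(17,2),(19,0)]⟩ ⟨0,[(0,0)]⟩))

theorem ok31 : chk K t31 l37 = true := by decide +kernel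

open Helper55.PC in
noncomputable def t32n : Helper55.PC.Ten :=
  (r
  20507403431102081950267874591877547342212548277597864927039725127220282468364495608906998800861583536087095746824499346290098127759581272850816086789616054143607944653412750416482589589887232925605776889258835877891663022559356722383614267854633253860440825958080288920274835312273558295945946074107526272588854200983023596560563259596195573740555361611659661227181901488102482469295116147479942694581758827357547118576082596542042877717842832082651141235343840134806956166948781184165001408479446479444867556846612827485212451828562134256726117105853255791344301223596704099703473100976385011914953202110031065926421052965622702789077369117483840)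

noncomputable def t32 : Tre := Helper55.PC.toT t32n

theorem ok32 : chk K t32 r37 = true :=
  Helper55.PC.chkN_sound K t32n r37 (by decide +kernel)

noncomputable def t33 : Tre :=
  (.N [0,0,1,-2] 0 ⟨0,[(14,0)]⟩ ⟨0,[(29,0)]⟩ (.i 1 ⟨1,[(24,1),(17,2),(19,0)]⟩ ⟨0,[(0,0)]⟩))

theorem ok33 : chk K t33 l38 = true := by decide +kernel

noncomputable def t34 : Tre :=
  (.N [0,0,1,-2] 0 ⟨0,[(15,0)]⟩ ⟨0,[(30,0)]⟩ (.i 0 ⟨0,[(0,0)]⟩ ⟨0,[(18,0),(25,1)]⟩))

theorem ok34 : chk K t34 l39 = true := by decide +kernel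

open Helper55.PC in
noncomputable def t35n : Helper55.PC.Ten :=
  (r
  1343973191260696504396111813382516601780574307806734662585561130310759507986277243005999005919410908289760615020266867031248754385096394017734541492847666011405374282857487038381012094296356208385642560242075980267453918970945226651633005875944252110648343220261710076976415365667142968765000215235263778617221392481318709809943316561023224359546693212057710742910496778997952830882652258029927643271853673649258943251841113422367105981871935357165894367179223049717109123341914327837494958930624755592464469169023882076210999513225291617156714512832582582729681984229586037016316926333941573922096344027803207223278550786782758426663590403002398417728)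

noncomputable def t35 : Tre := Helper55.PC.toT t35n

theorem ok35 : chk K t35 r39 = true :=
  Helper55.PC.chkN_sound K t35n r39 (by decide +kernel)

noncomputable def t36 : Tre :=
  (.N [0,-1,0,0,5] (-1) ⟨0,[(1,0)]⟩ ⟨0,[(0,0)]⟩ (.x 0 ⟨4,[(14,0),(6,23),(1,1),(12,0),(11,0),(18,
  1)]⟩ ⟨29,[(14,6),(21,6),(7,19),(2,3),(0,1)]⟩))

theorem ok36 : chk K t36 l41 = true := by decide +kernel

noncomputable def t37 : Tre :=
  (.N [0,-1,2,0,2] (-1) ⟨0,[(1,0)]⟩ ⟨0,[(0,0)]⟩ (.x 0 ⟨3,[(16,0),(1,1),(17,1),(1,0),(15,1),(13,1),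
  (0,5)]⟩ ⟨74,[(17,23),(7,125),(20,38),(3,66),(0,3),(6,15),(22,15)]⟩))

theorem ok37 : chk K t37 l43 = true := by decide +kernel

noncomputable def t38 : Tre :=
  (.N [0,0,1,-2] 0 ⟨0,[(16,0)]⟩ ⟨0,[(31,0)]⟩ (.i 0 ⟨0,[(0,0)]⟩ ⟨0,[(19,0),(25,1)]⟩))

theorem ok38 : chk K t38 l44 = true := by decide +kernel

open Helper55.PC in
noncomputable def t39n : Helper55.PC.Ten :=
  (r
  5772320903165464979898892406403236530939046558745431970554458267657387629114042897102496551965645796098582236540489301025339761017772127522508644474354475615074360075520513651320643907375035812865824514513474908536848975013127666146118008764571005521485746066061472621143899485434405220662638713062166102908639285263781465223856505373913734046847985801684183964656517815496776405396116152664322531876168564236432906298862067835094109080012878199574724953090192173640428161407650112852082337021821369828218199988336085361099023654843183799952858374360379006511527710039445441849484905717440158257091525108072497111175925581201815836847884346358871808887482491712)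

noncomputable def t39 : Tre := Helper55.PC.toT t39n

theorem ok39 : chk K t39 r44 = true :=
  Helper55.PC.chkN_sound K t39n r44 (by decide +kernel)

noncomputable def t40 : Tre :=
  (.N [0,4,0,0,7] 1 ⟨0,[(1,0)]⟩ ⟨0,[(0,0)]⟩ (.x (-2) ⟨0,[(24,2),(12,1)]⟩ ⟨14,[(17,3),(21,3),(7,4),
  (2,27),(0,13)]⟩))

theorem ok40 : chk K t40 l46 = true := by decide +kernel

noncomputable def t41 : Tre :=
  (.N [0,-1,2,2] (-1) ⟨0,[(1,0)]⟩ ⟨0,[(0,0)]⟩ (.x 0 ⟨31,[(17,31),(1,7),(1,34),(19,7),(7,9),(7,34),
  (13,34),(0,60)]⟩ ⟨13,[(1,11),(14,8),(1,6),(1,30),(1,1),(4,28),(0,5),(19,1),(4,1),(7,1),(20,9),(4,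
  11)]⟩))

theorem ok41 : chk K t41 l48 = true := by decide +kernel

noncomputable def t42 : Tre :=
  (.N [0,-1,2,1,1] (-1) ⟨0,[(1,0)]⟩ ⟨0,[(0,0)]⟩ (.x 0 ⟨15,[(19,7),(1,3),(1,14),(19,3),(7,1),(7,14),
  (13,14),(0,24)]⟩ ⟨62,[(3,11),(14,3),(10,27),(0,101),(20,9),(3,50),(2,1),(5,1),(19,54),(0,27),(0,
  38),(2,15)]⟩))

theorem ok42 : chk K t42 l50 = true := by decide +kernel

noncomputable def t43 : Tre :=
  (.N [0,1,2,1] 0 ⟨0,[(1,0)]⟩ ⟨0,[(0,0)]⟩ (.x (-1) ⟨15,[(21,7),(1,3),(1,20),(19,3),(7,5),(7,20),(13,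
  20),(0,18)]⟩ ⟨25,[(1,4),(3,4),(8,4),(5,7),(1,7),(3,5),(1,9),(2,21),(0,47),(5,9),(13,5),(4,15),(28,
  9),(0,11)]⟩))

theorem ok43 : chk K t43 l52 = true := by decide +kernel

noncomputable def t44 : Tre :=
  (.N [0,0,1,-2] 0 ⟨0,[(23,0)]⟩ ⟨0,[(38,0)]⟩ (.i 1 ⟨1,[(33,1),(17,2),(19,0)]⟩ ⟨0,[(0,0)]⟩))

theorem ok44 : chk K t44 l53 = true := by decide +kernel

noncomputable def t45 : Tre :=
  (.N [0,0,1,-2] 0 ⟨0,[(24,0)]⟩ ⟨0,[(39,0)]⟩ (.i 0 ⟨0,[(0,0)]⟩ ⟨0,[(27,0),(25,1)]⟩))

theorem ok45 : chk K t45 l54 = true := by decide +kernel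

open Helper55.PC in
noncomputable def t46n : Helper55.PC.Ten :=
  (r
  312918143174783193221702468391679157127001956682089167143260477071855320737544793378055831640712312130217865083876565225896995520546625643149524875155958401654731326451683034808802708753289851894922934466472678853799279760960745757671015428669603252843262149678174490159918875135686711324964399735165584269619689032683671329066795920315759745947634087281943194832733960670398530895519132650953243012383684342233229645798720522892399104941200912365431795936109023765498464881945774051202288511235954707911400124264193507757101987626103404765620395349951007553205191753730127507431445386885048997371679094790530942102983904970741604058981999424)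

noncomputable def t46 : Tre := Helper55.PC.toT t46n

theorem ok46 : chk K t46 r54 = true :=
  Helper55.PC.chkN_sound K t46n r54 (by decide +kernel)

noncomputable def t47 : Tre :=
  (.N [0,0,1,-2] 0 ⟨0,[(22,0)]⟩ ⟨0,[(37,0)]⟩ (.i 1 ⟨1,[(32,1),(17,2),(19,0)]⟩ ⟨0,[(0,0)]⟩))

theorem ok47 : chk K t47 l55 = true := by decide +kernel

noncomputable def t48 : Tre :=
  (.N [0,0,1,-2] 0 ⟨0,[(23,0)]⟩ ⟨0,[(38,0)]⟩ (.i 0 ⟨0,[(0,0)]⟩ ⟨0,[(26,0),(25,1)]⟩))

theorem ok48 : chk K t48 l56 = true := by decide +kernel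

open Helper55.PC in
noncomputable def t49n : Helper55.PC.Ten :=
  (r
  312918143174782082817829021077917546025939568600349903155207655597968655361779943570658042266687102329393107586996439508036353553871779046426037031582248665592889158547537828187808411619085508377781267548948831728723172192191060029214132162589092912879664066476717216896191203174579149241368626698961402021281643018546988138192358805923824347869877780057814204563969972009098108979874739940372217704162820024409797737445770431102272171273349582792506224662386920616530991094500869829464962327739534591554382548940391413046301504123118512188332058995729041539426292320754929769024207859698291009750844317446385763960326240476451373756323210048)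

noncomputable def t49 : Tre := Helper55.PC.toT t49n

theorem ok49 : chk K t49 r56 = true :=
  Helper55.PC.chkN_sound K t49n r56 (by decide +kernel)

noncomputable def t50 : Tre :=
  (.N [0,0,1,-2] 0 ⟨0,[(20,0)]⟩ ⟨0,[(35,0)]⟩ (.i 0 ⟨0,[(0,0)]⟩ ⟨0,[(23,0),(25,1)]⟩))

theorem ok50 : chk K t50 l57 = true := by decide +kernel

noncomputable def t51 : Tre :=
  (.N [0,0,1,-2] 0 ⟨0,[(21,0)]⟩ ⟨0,[(36,0)]⟩ (.i 1 ⟨1,[(31,1),(17,2),(19,0)]⟩ ⟨0,[(0,0)]⟩))

theorem ok51 : chk K t51 l58 = true := by decide +kernel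

open Helper55.PC in
noncomputable def t52n : Helper55.PC.Ten :=
  (r
  312918143174779862010082126450394323823814792436871375179102012650195324610250243955862463518636682727743592593236188072315069620522085852979061344434829193469204822739247414945819817350676821343497933713901137478570957054651688572300365630428072232952467900073802670368735859252364025074177080626553037524605550990273621756443484577139953551714365165609556224026441994686497265148585954519210167087721091388762933920739870247522018303937646923646655082114942714318596043519604151581618351909133523482302523826480558623225915492636403896937051969118508762719683467237558958663094656607177517824032884533082036122290175019807104996829408011072)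

noncomputable def t52 : Tre := Helper55.PC.toT t52n

theorem ok52 : chk K t52 r58 = true :=
  Helper55.PC.chkN_sound K t52n r58 (by decide +kernel)

noncomputable def t53 : Tre :=
  (.N [0,0,1,-2] 0 ⟨0,[(18,0)]⟩ ⟨0,[(33,0)]⟩ (.i 0 ⟨0,[(0,0)]⟩ ⟨0,[(21,0),(25,1)]⟩))

theorem ok53 : chk K t53 l59 = true := by decide +kernel

noncomputable def t54 : Tre :=
  (.N [0,0,1,-2] 0 ⟨0,[(19,0)]⟩ ⟨0,[(34,0)]⟩ (.i 1 ⟨1,[(29,1),(17,2),(19,0)]⟩ ⟨0,[(0,0)]⟩))

theorem ok54 : chk K t54 l60 = true := by decide +kernel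

open Helper55.PC in
noncomputable def t55n : Helper55.PC.Ten :=
  (r
  88078627062462256318778699907583826086373044004056601309819337511968945970499917076771644364440761982872766874192139687895927774461186093007553859467351741283138509698921642872024031627969950801003299335399086531743000450004532905205203043858518946256620877095219135720694665936365863950401057893842780088801993676112206924209794821238620494422459564368692811710518903255008767678986144695822027940369175043291829111818979178746304471398020513639086207522993574217176822956553628851479712227079175728216727937409097804616124063572468553637037396383587089657775258218698352756289895413024143706543286608236104818574976995035933910567993364713027921311441728)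

noncomputable def t55 : Tre := Helper55.PC.toT t55n

theorem ok55 : chk K t55 r60 = true :=
  Helper55.PC.chkN_sound K t55n r60 (by decide +kernel)

noncomputable def t56 : Tre :=
  (.N [0,1,0,0,4] 0 ⟨0,[(1,0)]⟩ ⟨0,[(0,0)]⟩ (.x (-1) ⟨3,[(18,0),(6,11),(12,1),(1,0)]⟩ ⟨5,[(18,0),
  (21,0),(7,1),(2,3),(0,1)]⟩))

theorem ok56 : chk K t56 l62 = true := by decide +kernel

noncomputable def t57 : Tre :=
  (.N [0,0,1,-2] 0 ⟨0,[(18,0)]⟩ ⟨0,[(33,0)]⟩ (.i 1 ⟨1,[(28,1),(17,2),(19,0)]⟩ ⟨0,[(0,0)]⟩))

theorem ok57 : chk K t57 l63 = true := by decide +kernel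

noncomputable def t58 : Tre :=
  (.N [0,0,1,-2] 0 ⟨0,[(19,0)]⟩ ⟨0,[(34,0)]⟩ (.i 0 ⟨0,[(0,0)]⟩ ⟨0,[(22,0),(25,1)]⟩))

theorem ok58 : chk K t58 l64 = true := by decide +kernel

open Helper55.PC in
noncomputable def t59n : Helper55.PC.Ten :=
  (r
  16963326532011202009665253217129138007925455490320973815896929683618002100903169901163371937603359692591516347945471712421917304599411711502460471209067600065745991189602574785650497703071138162218124831805404120455706853903083416859417598070363216173453638104300103331552348260608708229747393036178531618205243383779184609228967460321807156848288242526019503671818377114809416273012796149639000591425907961708379034931184524701023767544948641969771714729776503595443116524869672737237702254234311089148516862325145331556717973291424618532367532131664503008938371807783307109807251880483253627894118797678635441113125888832)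

noncomputable def t59 : Tre := Helper55.PC.toT t59n

theorem ok59 : chk K t59 r64 = true :=
  Helper55.PC.chkN_sound K t59n r64 (by decide +kernel)

noncomputable def t60 : Tre :=
  (.N [0,0,1,-2] 0 ⟨0,[(17,0)]⟩ ⟨0,[(32,0)]⟩ (.i 0 ⟨0,[(0,0)]⟩ ⟨0,[(20,0),(25,1)]⟩))

theorem ok60 : chk K t60 l65 = true := by decide +kernel

noncomputable def t61 : Tre :=
  (.N [0,0,1,-2] 0 ⟨0,[(18,0)]⟩ ⟨0,[(33,0)]⟩ (.i 1 ⟨1,[(28,1),(17,2),(19,0)]⟩ ⟨0,[(0,0)]⟩))

theorem ok61 : chk K t61 l66 = true := by decide +kernel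

open Helper55.PC in
noncomputable def t62n : Helper55.PC.Ten :=
  (r
  312918143174776530787599561081424381825741192320737331755210779083632606495396409843814118569761434054613474939414800662099716523366440189410781918406156725443561619562176870589935788860567016835773599147950907239349345277110671138247082487030360226840702650855583818881176800566817160202979792795986221550441325520397380328301708791904018205759553793797799382305561655293748783998434296105725633826520534678788225575873605313656221956251813010641539826672038532555395054973875913453398331843790480896554043571341321643270211042998495961678442120913538387982774850329952898627710873863282291373149704114975758857158289063460669556492800893760)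

noncomputable def t62 : Tre := Helper55.PC.toT t62n

theorem ok62 : chk K t62 r66 = true :=
  Helper55.PC.chkN_sound K t62n r66 (by decide +kernel)

noncomputable def t63 : Tre :=
  (.N [0,3,1,0,1] 1 ⟨0,[(1,0)]⟩ ⟨0,[(0,0)]⟩ (.x (-2) ⟨35,[(15,8),(1,35),(17,9),(1,8),(7,7),(7,35),
  (13,35)]⟩ ⟨2,[(24,3),(23,1),(0,2),(18,0)]⟩))

theorem ok63 : chk K t63 l68 = true := by decide +kernel

noncomputable def t64 : Tre :=
  (.N [0,0,1,-2] 0 ⟨0,[(15,0)]⟩ ⟨0,[(30,0)]⟩ (.i 1 ⟨1,[(25,1),(17,2),(19,0)]⟩ ⟨0,[(0,0)]⟩))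

theorem ok64 : chk K t64 l69 = true := by decide +kernel

noncomputable def t65 : Tre :=
  (.N [0,0,1,-2] 0 ⟨0,[(16,0)]⟩ ⟨0,[(31,0)]⟩ (.i 0 ⟨0,[(0,0)]⟩ ⟨0,[(19,0),(25,1)]⟩))

theorem ok65 : chk K t65 l70 = true := by decide +kernel

open Helper55.PC in
noncomputable def t66n : Helper55.PC.Ten :=
  (r
  1111708567601874300052076685765815823087679206424346384412592163445900183011918208383493802652755486871918671165307581824492125137925358025728923934859195006333094826690280811889259121909135515378867644718230742777942201726724161001551757096052903653165783703938496975137297121178905235114026303410512283040083013085549161340753197653998851998029854584551593459383826780300668521035022317334398549888334554177674636019576326989203652972796229400865052639233163641090258213221081486297503909585391999516001824716166037293097104265225525753233726424769295461729698370334750508459324908924812938508038265861786040106427322980377408)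

noncomputable def t66 : Tre := Helper55.PC.toT t66n

theorem ok66 : chk K t66 r70 = true :=
  Helper55.PC.chkN_sound K t66n r70 (by decide +kernel)

noncomputable def t67 : Tre :=
  (.N [0,0,1,-2] 0 ⟨0,[(14,0)]⟩ ⟨0,[(29,0)]⟩ (.i 1 ⟨1,[(24,1),(17,2),(19,0)]⟩ ⟨0,[(0,0)]⟩))

theorem ok67 : chk K t67 l71 = true := by decide +kernel

noncomputable def t68 : Tre :=
  (.N [0,0,1,-2] 0 ⟨0,[(15,0)]⟩ ⟨0,[(30,0)]⟩ (.i 0 ⟨0,[(0,0)]⟩ ⟨0,[(18,0),(25,1)]⟩))

theorem ok68 : chk K t68 l72 = true := by decide +kernel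

open Helper55.PC in
noncomputable def t69n : Helper55.PC.Ten :=
  (r
  312918143174773199575979219140139548522553943983915881855776796655440588478529183893929935507339171201400602008278217872429814744995998688446018261101019105735554891372445746879328995546408977449322715458012181396468989311471867061134661984616949248766252457471250627837250998501546871384379803370801912024922805461923312646561008766729520184753575011667090550283232773044393757017214298021180357661133811475088491178801267517717217821890462490211427683614487651353001719941528352354855031789116679475171998467078159568855477840270518843341228426541865931835265549288895852242256574944586779660421680821399456052997958865059093061462051267392)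

noncomputable def t69 : Tre := Helper55.PC.toT t69n

theorem ok69 : chk K t69 r72 = true :=
  Helper55.PC.chkN_sound K t69n r72 (by decide +kernel)

noncomputable def t70 : Tre :=
  (.N [0,0,1,-2] 0 ⟨0,[(10,0)]⟩ ⟨0,[(25,0)]⟩ (.i 1 ⟨1,[(20,1),(17,2),(19,0)]⟩ ⟨0,[(0,0)]⟩))

theorem ok70 : chk K t70 l73 = true := by decide +kernel

noncomputable def t71 : Tre :=
  (.N [0,0,1,-2] 0 ⟨0,[(11,0)]⟩ ⟨0,[(26,0)]⟩ (.i 0 ⟨0,[(0,0)]⟩ ⟨0,[(14,0),(25,1)]⟩))

theorem ok71 : chk K t71 l74 = true := by decide +kernel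

open Helper55.PC in
noncomputable def t72n : Helper55.PC.Ten :=
  (r
  88078627062459755908485911782422997899885923243058569939499911679656700167150669697341120245380104036501030917440787105501054327428569199942137174481596749283665007539673175985607822551506565931461987027995446779271295875149704438653513125828379704166358973315649827656779536235746291814895944859401980445429185197987560677357058780207413232400777622127121270920848593378128338763275760602088842735827658020114171838611438633123043918785587695555882601652564875015321475049751252556867277437614149837748940624367437951448899996312945291866680796112269095874881635622928865927978306954156581085544083514028774554107260880514647989785853332298850349965648704)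

noncomputable def t72 : Tre := Helper55.PC.toT t72n

theorem ok72 : chk K t72 r74 = true :=
  Helper55.PC.chkN_sound K t72n r74 (by decide +kernel)

noncomputable def t73 : Tre :=
  (.N [0,1,1,1,1] 0 ⟨0,[(1,0)]⟩ ⟨0,[(0,0)]⟩ (.x (-1) ⟨15,[(7,7),(1,3),(1,14),(19,3),(7,1),(7,14),
  (13,14),(0,8)]⟩ ⟨13,[(6,6),(11,14),(20,0),(1,5),(0,0),(0,7),(29,5)]⟩))

theorem ok73 : chk K t73 l76 = true := by decide +kernel

noncomputable def t74 : Tre :=
  (.N [0,3,0,0,4] 1 ⟨0,[(1,0)]⟩ ⟨0,[(0,0)]⟩ (.x (-2) ⟨3,[(11,0),(6,3),(12,5),(1,0)]⟩ ⟨44,[(11,3),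
  (21,3),(7,4),(2,57),(0,28)]⟩))

theorem ok74 : chk K t74 l78 = true := by decide +kernel

noncomputable def t75 : Tre :=
  (.N [0,0,1,-2] 0 ⟨0,[(11,0)]⟩ ⟨0,[(26,0)]⟩ (.i 0 ⟨0,[(0,0)]⟩ ⟨0,[(14,0),(25,1)]⟩))

theorem ok75 : chk K t75 l79 = true := by decide +kernel

noncomputable def t76 : Tre :=
  (.N [0,0,1,-2] 0 ⟨0,[(12,0)]⟩ ⟨0,[(27,0)]⟩ (.i 1 ⟨1,[(22,1),(17,2),(19,0)]⟩ ⟨0,[(0,0)]⟩))

theorem ok76 : chk K t76 l80 = true := by decide +kernel

open Helper55.PC in
noncomputable def t77n : Helper55.PC.Ten :=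
  (r
  214107281977626100975282851332324688485392710361153858562960942729359196892180505924205271837935874271760000243607427174152636719915971510966144688134010559066889799037276559027250242375819868619413670048191518396480800866962488259825736890803890928891824532081958469530205057439836994452939742093017859063414079755635864661532523100168222966639255414697408060391898690151358867445760244080010993174912796903146414825303877895143856474116402389110392963456299570273574464467208871209697421337104215945254836805657699492400974473086643811973338421818008715187638790068193793411758956043355562816)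

noncomputable def t77 : Tre := Helper55.PC.toT t77n

theorem ok77 : chk K t77 r80 = true :=
  Helper55.PC.chkN_sound K t77n r80 (by decide +kernel)

noncomputable def t78 : Tre :=
  (.N [0,1,1,1,2] 0 ⟨0,[(1,0)]⟩ ⟨0,[(0,0)]⟩ (.x (-1) ⟨3,[(10,1),(1,0),(1,3),(19,0),(15,3),(13,3),(0,
  1)]⟩ ⟨13,[(9,6),(11,16),(20,2),(1,3),(0,2),(0,9),(29,3)]⟩))

theorem ok78 : chk K t78 l82 = true := by decide +kernel

noncomputable def t79 : Tre :=
  (.N [0,0,1,-2] 0 ⟨0,[(12,0)]⟩ ⟨0,[(27,0)]⟩ (.i 0 ⟨0,[(0,0)]⟩ ⟨0,[(15,0),(25,1)]⟩))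

theorem ok79 : chk K t79 l83 = true := by decide +kernel

open Helper55.PC in
noncomputable def t80n : Helper55.PC.Ten :=
  (r
  20507403431101718093126623376104142616616415765927980692690882673196962313775478075820982432230074505506831012799554196783753656180772515838771501714366889068301396422342385543985378245492797476888368366752461983159984674952515615720881617777691084122356929557251817456437840899944807232782895020826336791883252405186033181861656113347153308573147686613739159242006796188174112815445730502035527855776548093041382182585558903005246435164998395616209148886201550056496968804449090138892005996748981998384164368891488732217166255966226753835303575244752849893587230111811811898585775029098569517025905815542586241301215616438540194507180498988835648)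

noncomputable def t80 : Tre := Helper55.PC.toT t80n

theorem ok80 : chk K t80 r83 = true :=
  Helper55.PC.chkN_sound K t80n r83 (by decide +kernel)

noncomputable def t81 : Tre :=
  (.N [0,-1,1,1,2] (-1) ⟨0,[(1,0)]⟩ ⟨0,[(0,0)]⟩ (.x 0 ⟨3,[(11,1),(1,0),(19,3),(1,0),(30,5)]⟩ ⟨149,
  [(10,74),(3,80),(7,143),(20,65),(3,97),(0,25),(6,28),(22,28)]⟩))

theorem ok81 : chk K t81 l85 = true := by decide +kernel

noncomputable def t82 : Tre :=
  (.N [0,1,0,2,2] 0 ⟨0,[(0,0)]⟩ ⟨0,[(1,0)]⟩ (.x (-1) ⟨3,[(13,3),(1,0),(1,1),(17,1),(1,0),(15,1),(13,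
  1),(0,1)]⟩ ⟨0,[(12,0),(34,0),(31,0)]⟩))

theorem ok82 : chk K t82 l87 = true := by decide +kernel

noncomputable def t83 : Tre :=
  (.N [0,0,1,-2] 0 ⟨0,[(15,0)]⟩ ⟨0,[(30,0)]⟩ (.i 0 ⟨0,[(0,0)]⟩ ⟨0,[(18,0),(25,1)]⟩))

theorem ok83 : chk K t83 l88 = true := by decide +kernel

open Helper55.PC in
noncomputable def t84n : Helper55.PC.Ten :=
  (i 178471298461474434287840951538990319975661611 (r
  1111708567601874300052076685765815823087679206424346384412592163445900183011918208383493802652755486871918671165307581824492125137925358025728923934859195006333094826690280811889259121909135515378867644718230742777942201726724161001551757096052903653030075872125923202227329725542769553735711896284407644758065010578275729495834084098455118489922442844717832791332500364670739083605523182650681064212395259360319660176504776465877471670190775097530995793713846203993214605366399447667547182623728024484733178032510167669844208581615125211135489502838815661264286191463929953549732342465341717553140812450621343358056587533230912)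
  (r
  312918143174774309979852666453901159623616360096189698488921457464837927817484925877224663194813258819138226318657078802319782004452812522100939480202731645638223800769022788116197926651128323911473010021325090010762441300018135086838802152088086241319525231832564901306300860243302880546612656329174204348384873852147355238737507742186102983099796527152645320821397056496246387563563309352994998883580702812933958747264062999644723258534226849405611131237814531635565614473924830144222273808358152905006474771193534955425463599985367196200335240069076330477086186851288223874319273950613970062375083433343019789011203105063747814268841763648))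

noncomputable def t84 : Tre := Helper55.PC.toT t84n

theorem ok84 : chk K t84 r88 = true :=
  Helper55.PC.chkN_sound K t84n r88 (by decide +kernel)

noncomputable def t85 : Tre :=
  (.N [0,-1,2,0,2] (-1) ⟨0,[(1,0)]⟩ ⟨0,[(0,0)]⟩ (.x 0 ⟨3,[(16,0),(1,1),(17,1),(1,0),(15,1),(13,1),
  (0,5)]⟩ ⟨74,[(17,23),(7,125),(20,38),(3,66),(0,3),(6,15),(22,15)]⟩))

theorem ok85 : chk K t85 l90 = true := by decide +kernel

noncomputable def t86 : Tre :=
  (.N [0,0,1,-2] 0 ⟨0,[(16,0)]⟩ ⟨0,[(31,0)]⟩ (.i 0 ⟨0,[(0,0)]⟩ ⟨0,[(19,0),(25,1)]⟩))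

theorem ok86 : chk K t86 l91 = true := by decide +kernel

open Helper55.PC in
noncomputable def t87n : Helper55.PC.Ten :=
  (r
  312918143174774309979852666453901159623616360096189698488921457464837927817484925879879353262599859950150544572554188906407988144893100495230733766287944541287016895284051144078153256822046513530121245175417440418820046297357777924142883559607906805937524617917927385267687073211207730893399793988679839268406858152479614031698514132410065010357513988443283105946555416723270087811290736656653008440064152179145700758079171305553569592034292150617362096539444953570772046253703100700473434194790040077848627199049157900231291577478981926200714275654234067480434340326119128309575723296829323674043440732060997594219920210293488916464708887360)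

noncomputable def t87 : Tre := Helper55.PC.toT t87n

theorem ok87 : chk K t87 r91 = true :=
  Helper55.PC.chkN_sound K t87n r91 (by decide +kernel)

noncomputable def t88 : Tre :=
  (.N [0,0,1,-2] 0 ⟨0,[(15,0)]⟩ ⟨0,[(30,0)]⟩ (.i 0 ⟨0,[(0,0)]⟩ ⟨0,[(18,0),(25,1)]⟩))

theorem ok88 : chk K t88 l92 = true := by decide +kernel

open Helper55.PC in
noncomputable def t89n : Helper55.PC.Ten :=
  (i 21786047175631400057899431697995670880298 (r
  5772320903165464979898892406403236530939046558745431970554458267657387629114042897053526163690167703828688525924765857927963238555317324870272899184963198145882489445860445007889731100795263982507546494765105322963238982340601895822190022485623321844819343482374680383940533157686647839057107093231793610914555010428107712082438335297277087117531964878008101651425781906628663776168218582978243925784034365666592653261923711333343075862935029045744427449974457835976722996329791568875151961657293578547273817627762445982811127697997099589792469006038317708973095888167456680797595284551274114289775155977231841347058469259678038505938817387698683832713617875776)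
  (i 178732635319269635799618308973177918751637547 (r
  919583773929370623323338157116756901199753372735079404516075313494326828088331755138732044029299188081656568615334956726618777325103129714092765043722942018461951247467864476973970937099129346189505650064175582174537764219123247362614521265188371023466078663491047063726929745974916339913186656862867191916488075562347160234353841524405014317488245026740466154513959684888086852047821738142292636604469571343769521969141040681876115485534809998359813876990061849678992360292894647685679403554881547735821531959942069995781848787355461901151275315071068662998357692199484301583463662667525983459113968448)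
  (i 21786047175472943732870903005214249713674 (r
  4774751940533089153863518693259039029323443486339375789721844163263436988760321195126558205715353913186851119070660410493464912771094363241741667456148631674859033501620130471648190137642929334041955553405012622670735859330912340366319007675634158734751932538689938642596081551617693484542538342340586026154968258118249495163117349308638642854581138314665891570964222750093486870278103731682989697857751947089862560375313621388088144049834857898270909427588542904683611146138314683549926075366224881916242602863658359110587857865808716073357379845797306915602410632009176250270082389552788088928774635569222954859787845656885087497888576)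
  (r
  88078627062461943764816837816396815600096063781444857527987901153337861326567162172866173806850320222560292227363776116954066397346508337149336213870515557553310810097604591468635648157030576378736083678046624940460283152577487825232351333529009608024389011838418217931993361182123226948133908109096279326870507732191229002011986179946774631576089445901171144006235634774597232050718727633982983396108842266910451416172679677789082350615591487324727243386537263206362262388447174194565303825310906878529401775069255184686574288267169883587122541086148511146192573589676473396309260820977344754219536053614780993969706402107582342430960461050289775481987904))))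

noncomputable def t89 : Tre := Helper55.PC.toT t89n

theorem ok89 : chk K t89 r92 = true :=
  Helper55.PC.chkN_sound K t89n r92 (by decide +kernel)

noncomputable def t90 : Tre :=
  (.N [0,3,1,0,1] 1 ⟨0,[(1,0)]⟩ ⟨0,[(0,0)]⟩ (.x (-2) ⟨35,[(14,8),(1,35),(17,9),(1,8),(7,7),(7,35),
  (13,35)]⟩ ⟨2,[(23,3),(23,1),(0,2),(18,0)]⟩))

theorem ok90 : chk K t90 l94 = true := by decide +kernel

noncomputable def t91 : Tre :=
  (.N [0,0,1,-2] 0 ⟨0,[(14,0)]⟩ ⟨0,[(29,0)]⟩ (.i 0 ⟨0,[(0,0)]⟩ ⟨0,[(17,0),(25,1)]⟩))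

theorem ok91 : chk K t91 l95 = true := by decide +kernel

noncomputable def t92 : Tre :=
  (.N [0,0,1,-2] 0 ⟨0,[(15,0)]⟩ ⟨0,[(30,0)]⟩ (.i 1 ⟨1,[(25,1),(17,2),(19,0)]⟩ ⟨0,[(0,0)]⟩))

theorem ok92 : chk K t92 l96 = true := by decide +kernel

open Helper81.PXd in
noncomputable def t93n : Helper81.PXd.Ten :=
  (r
  43520703035458861703488325689028237278317989920880997012360857414226110208086914019351974390391158910397586303833890718098959087065388055762103739147844655538655427919163686458620077176561401501399644703465911816025153038983374129568246803741094311507830247997112601787541968194387528333233003962332113551276176712481865576895698359068076221205482394677083908162887953523086162517512937412677068937896825688519447488362109619577735040332661629199273764740071423525376947737646639198469223293397690169117492929996722289333252291734834655832222854699598665362076894869349482325281750949007217554714353783584045500499824199324294108048388984549855381355133346677898256577319383311309286456960551874088128470595131679988650258088087527311187493555106077441275748461232620093712556711970750386982722221250082693006219931876300622668608)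

noncomputable def t93 : Tre := Helper81.PXd.toT t93n

theorem ok93 : chk K t93 r96 = true :=
  Helper81.PXd.chkN_sound K t93n r96 (by decide +kernel)

noncomputable def t94 : Tre :=
  (.N [0,0,1,-2] 0 ⟨0,[(13,0)]⟩ ⟨0,[(28,0)]⟩ (.i 0 ⟨0,[(0,0)]⟩ ⟨0,[(16,0),(25,1)]⟩))

theorem ok94 : chk K t94 l97 = true := by decide +kernel

open Helper55.PC in
noncomputable def t95n : Helper55.PC.Ten :=
  (r
  20507403431101790864554873619258823561735642268261957539560651164001626344693281582438185705956376311622883959604543226685022550496534267241180418729416722083362706068556458518484820514371684566631850071253736762106320344473883837053428147793079518069546798566283606435330813969184879819462873026916942757956377077083107154627717411858342092704967831261173327422324783053079091319948379546763457105979341433807496901109558905130627758975029705583320622906549927338432584233640518206616125918852874839746622853220356036107772252738963719868207993160607774807922060162612984107110989820435120931671098261131245972896124890891781269660668198723527488)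

noncomputable def t95 : Tre := Helper55.PC.toT t95n

theorem ok95 : chk K t95 r97 = true :=
  Helper55.PC.chkN_sound K t95n r97 (by decide +kernel)

noncomputable def t96 : Tre :=
  (.N [0,0,1,-2] 0 ⟨0,[(8,0)]⟩ ⟨0,[(23,0)]⟩ (.i 0 ⟨0,[(0,0)]⟩ ⟨0,[(11,0),(25,1)]⟩))

theorem ok96 : chk K t96 l98 = true := by decide +kernel

open Helper55.PC in
noncomputable def t97n : Helper55.PC.Ten :=
  (r
  1624763891784885938633487460141614127751328140194660367197798683481394716602911505145910976458682550912560640933923241696697995595885796122806814686005055632403733800530807425405749544277196695546667462728146600814267498815504419799487217174997408912161436422811951671217134954635542456001959077749583828417812956533788828332180137641640766252656065482926322530506005645289098272422198835495552403161307449422716407575030739123439466440532044534915728069896397552008060028987315804746009249103613534247825223120139110884079630750517647299158034601562449419003730374379385485568823048527471048816684425488460126487428756581187497308821576978949642682799064381806156170660160320)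

noncomputable def t97 : Tre := Helper55.PC.toT t97n

theorem ok97 : chk K t97 r98 = true :=
  Helper55.PC.chkN_sound K t97n r98 (by decide +kernel)

noncomputable def t98 : Tre :=
  (.N [0,-2,0,2,-1] (-1) ⟨0,[(1,0)]⟩ ⟨0,[(0,0)]⟩ (.x 1 ⟨1,[(4,1),(3,0),(30,0),(19,0)]⟩ ⟨323,[(3,
  323),(2,60),(0,323),(20,60),(7,35),(3,79),(0,161),(6,163),(1,163)]⟩))

theorem ok98 : chk K t98 l100 = true := by decide +kernel

noncomputable def t99 : Tre :=
  (.N [0,-3,0,0,7] (-2) ⟨0,[(1,0)]⟩ ⟨0,[(0,0)]⟩ (.x 1 ⟨9,[(8,0),(6,63),(1,11),(12,0),(11,5),(18,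
  11)]⟩ ⟨35,[(8,8),(19,13),(1,8),(7,39)]⟩))

theorem ok99 : chk K t99 l102 = true := by decide +kernel

noncomputable def t100 : Tre :=
  (.N [0,-4,0,0,3] (-2) ⟨0,[(2,0)]⟩ ⟨0,[(0,0)]⟩ (.x 1 ⟨9,[(11,2),(6,21),(1,15),(12,2),(11,7),(18,
  15)]⟩ ⟨8,[(31,10),(9,6)]⟩))

theorem ok100 : chk K t100 l105 = true := by decide +kernel

noncomputable def t101 : Tre :=
  (.N [0,0,1,-2] 0 ⟨0,[(11,0)]⟩ ⟨0,[(26,0)]⟩ (.i 0 ⟨0,[(0,0)]⟩ ⟨0,[(14,0),(25,1)]⟩))

theorem ok101 : chk K t101 l106 = true := by decide +kernel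

open Helper55.PC in
noncomputable def t102n : Helper55.PC.Ten :=
  (r
  328324145195129575142420306161646905695024491209447823879132089162441663142296070047066844753879483383384048371402959565006429386725239047628176620436561797315994661797396756148638715704357220623313180509487749365419996692676606249096638932230890121138962401852971158387475287088399892494092579803449802271194053841054733261172893265232948723381395004262663045679719721931505790378092753192908569479071658051891944902914161457900294034187397668862369522631785745563621052346032031392329782702700647058102466337894244207063752528085661866333998964423419446104304507625498287769552406785920273340779610343747820355401029088014474441649941420863358515079947077221370753188952702371030376931136)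

noncomputable def t102 : Tre := Helper55.PC.toT t102n

theorem ok102 : chk K t102 r106 = true :=
  Helper55.PC.chkN_sound K t102n r106 (by decide +kernel)

noncomputable def t103 : Tre :=
  (.N [0,0,1,-2] 0 ⟨0,[(10,0)]⟩ ⟨0,[(25,0)]⟩ (.i 1 ⟨1,[(20,1),(17,2),(19,0)]⟩ ⟨0,[(0,0)]⟩))

theorem ok103 : chk K t103 l107 = true := by decide +kernel

open Helper55.PC in
noncomputable def t104n : Helper55.PC.Ten :=
  (r
  6499055567139589878906300283698802914087274268300753226866638600492398003596635105949023230504857064408409016050568126592991644390791834327453177644690673125637448394272397135363600586454208574432265408877174570526765689328557568371312368443537746610914643076049080044678687924959273351706399851499568131550859782512163589109598511747545647913267857473746894894351448339635373035197748887645403564613613823804771407240675465272550749949078713100914842176557237597222858209627922913972257758351008608016043683717051955718276239943819710896796585461161112322879290618891210039482223097658866832615039109747659002918283257636335498866502484269752514467300065180387577326207247168)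

noncomputable def t104 : Tre := Helper55.PC.toT t104n

theorem ok104 : chk K t104 r107 = true :=
  Helper55.PC.chkN_sound K t104n r107 (by decide +kernel)

noncomputable def t105 : Tre :=
  (.N [0,-1,0,0,6] (-1) ⟨0,[(1,0)]⟩ ⟨0,[(0,0)]⟩ (.x 0 ⟨4,[(11,0),(6,28),(1,1),(12,0),(11,0),(18,
  1)]⟩ ⟨8,[(11,1),(21,1),(7,6),(2,1),(0,0)]⟩))

theorem ok105 : chk K t105 l109 = true := by decide +kernel

noncomputable def t106 : Tre :=
  (.N [0,-1,2,1,1] (-1) ⟨0,[(1,0)]⟩ ⟨0,[(0,0)]⟩ (.x 0 ⟨15,[(11,7),(1,3),(1,14),(19,3),(7,1),(7,14),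
  (13,14),(0,24)]⟩ ⟨12,[(1,1),(6,1),(12,3),(0,21),(20,1),(3,10),(28,12),(0,3),(0,6),(2,5)]⟩))

theorem ok106 : chk K t106 l111 = true := by decide +kernel

noncomputable def t107 : Tre :=
  (.N [0,1,0,0,5] 0 ⟨0,[(1,0)]⟩ ⟨0,[(0,0)]⟩ (.x (-1) ⟨3,[(16,0),(6,15),(12,1),(1,0)]⟩ ⟨44,[(16,6),
  (21,6),(7,19),(2,33),(0,16)]⟩))

theorem ok107 : chk K t107 l114 = true := by decide +kernel

noncomputable def t108 : Tre :=
  (.N [0,1,0,0,6] 0 ⟨0,[(0,0)]⟩ ⟨0,[(3,0)]⟩ (.x (-1) ⟨3,[(17,0),(6,19),(12,1),(1,0)]⟩ ⟨89,[(17,12),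
  (21,12),(7,49),(2,75),(0,37)]⟩))

theorem ok108 : chk K t108 l115 = true := by decide +kernel

noncomputable def t109 : Tre :=
  (.N [0,1,1,1,2] 0 ⟨0,[(1,0)]⟩ ⟨0,[(0,0)]⟩ (.x (-1) ⟨3,[(17,1),(1,0),(1,3),(19,0),(15,3),(13,3),(0,
  1)]⟩ ⟨13,[(16,6),(11,16),(20,2),(1,3),(0,2),(0,9),(29,3)]⟩))

theorem ok109 : chk K t109 l117 = true := by decide +kernel

noncomputable def t110 : Tre :=
  (.N [0,0,1,-2] 0 ⟨0,[(20,0)]⟩ ⟨0,[(35,0)]⟩ (.i 1 ⟨1,[(30,1),(17,2),(19,0)]⟩ ⟨0,[(0,0)]⟩))

theorem ok110 : chk K t110 l119 = true := by decide +kernel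

open Helper55.PC in
noncomputable def t111n : Helper55.PC.Ten :=
  (r
  3949582234958946286895604953044142900691516200580387222513002438285315214373841103028272876655313902067636449192710308316282655877177029012492566681027960594650394158246859231440098596842998438576755191595226442562331404452414389321443938955198296306616063037614955072736616019120804495704278246652398721513869472510961267600223960525642812803897901724204231676710596740513574115923130117090142963081815037556607512450662136151337916459248651243498903513442836858744398094493057029970940620705430142597954012745804943504548188440803193281063341676529160106858154060195279308131978619951331974067358753079230210880)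

noncomputable def t111 : Tre := Helper55.PC.toT t111n

theorem ok111 : chk K t111 r119 = true :=
  Helper55.PC.chkN_sound K t111n r119 (by decide +kernel)

noncomputable def t112 : Tre :=
  (.N [0,0,1,-2] 0 ⟨0,[(20,0)]⟩ ⟨0,[(35,0)]⟩ (.i 1 ⟨1,[(30,1),(17,2),(19,0)]⟩ ⟨0,[(0,0)]⟩))

theorem ok112 : chk K t112 l120 = true := by decide +kernel

noncomputable def t113 : Tre :=
  (.N [0,0,1,-2] 0 ⟨0,[(21,0)]⟩ ⟨0,[(36,0)]⟩ (.i 0 ⟨0,[(0,0)]⟩ ⟨0,[(24,0),(25,1)]⟩))

theorem ok113 : chk K t113 l121 = true := by decide +kernel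

open Helper55.PC in
noncomputable def t114n : Helper55.PC.Ten :=
  (r
  3949582234958960302162881250096440664768679014081168745595713541931002922931962542692382097410404013758875017055831100164556091527083854069891052650154278471573644954409781626383342704871351631051647292198361407842986622477442386161162846003736833296719255756718023554849315120143260383950967434599810099268357988608660741707957391503982129161906972481969229194380210115414093604319047379075050073846517244975178684851729398677917663158990025378583487704353460146495038601292462048466838255234778073890160270221404911660500389927150003264331317505175513168000824743913143316042430435480742187609390893807127765824)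

noncomputable def t114 : Tre := Helper55.PC.toT t114n

theorem ok114 : chk K t114 r121 = true :=
  Helper55.PC.chkN_sound K t114n r121 (by decide +kernel)

noncomputable def t115 : Tre :=
  (.N [0,-1,2,2] (-1) ⟨0,[(1,0)]⟩ ⟨0,[(0,0)]⟩ (.x 0 ⟨31,[(18,31),(1,7),(1,34),(19,7),(7,9),(7,34),
  (13,34),(0,60)]⟩ ⟨39,[(3,5),(3,35),(9,20),(1,4),(1,64),(1,15),(4,60),(0,35),(19,15),(4,9),(7,3),
  (20,37),(4,41)]⟩))

theorem ok115 : chk K t115 l123 = true := by decide +kernel

noncomputable def t116 : Tre :=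
  (.N [0,0,1,-2] 0 ⟨0,[(20,0)]⟩ ⟨0,[(35,0)]⟩ (.i 1 ⟨1,[(30,1),(17,2),(19,0)]⟩ ⟨0,[(0,0)]⟩))

theorem ok116 : chk K t116 l124 = true := by decide +kernel

open Helper55.PC in
noncomputable def t117n : Helper55.PC.Ten :=
  (q 237163005176674651369930333674063707302872228294678735865717672928692926045618189 (r
  514908230662589908686619074710729667190947245290880299421027640286338840442325037956846293429905980115541152156912498221152453969195034252842432502886559304233137441323973797896010269236103463434024018753412014458098836597028034955762088023981179340704012040322398359239709167732737713969154001326356604277116595819955980535991794051482407644624245727863768363482662619468439835978359534475099066036917151556017933734777250364751219952891362772590141421550663763461814412088580460779949611811154380513720554679223385100818374308322507008737522309263260519400736556550053347070038616671101050355199930975984307612608070769543655495853217342132543775573575975069411575283239645034098424661074872130404098880)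
  (r
  291427730745430907238021763027595472789759356594304054189480047452725527976013540458141627736831286877362443992383049317299576979897824916498902244769008925888138790488006221110661789342865826587763788809803064806402197645216173126029825250904634726161298270742153071506979796220963719321900716766848741153099882791291441250528425259523938470184923423946540575065701215516954944706363737616095207914266311277097262100445931963727864118641355378178442210711882956451813112236899595613037041165353074391266231224253831965235930713120763538860377393614891762771985178451390754513535814081591238384313925859462356140713759314508089926464))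

noncomputable def t117 : Tre := Helper55.PC.toT t117n

theorem ok117 : chk K t117 r124 = true :=
  Helper55.PC.chkN_sound K t117n r124 (by decide +kernel)

noncomputable def t118 : Tre :=
  (.N [0,0,1,-2] 0 ⟨0,[(19,0)]⟩ ⟨0,[(34,0)]⟩ (.i 1 ⟨1,[(29,1),(17,2),(19,0)]⟩ ⟨0,[(0,0)]⟩))

theorem ok118 : chk K t118 l125 = true := by decide +kernel

open Helper55.PC in
noncomputable def t119n : Helper55.PC.Ten :=
  (i 178601966890371995429648373123906525424910379 (r
  3949582234958946286895604953044142900691516200580387222513002438285315214373841103028272876655313902067636449192710308316282655877177029012492566681027960594650394158246859231440098596842998438576755191595226442562331404452414389321443938955198296306616063037614955072713164007191662182646017824109754752548198944788724114893101980613333522032291886318113638474314254996455094261863884873914293328168702978262006409473487463068906528570981336175747872993810756263393126431781110170883589307412090378517869017694592738640825173111271922310926208050182427051553734662601600896376082472220648333029577277691524293440)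
  (i 21775413351585892568401936886325550907402 (r
  3949582234958960302162881250096440664768679014081168744945889282357169200650067229835997924768793748627537072209568991691044214794148271024657514044876188311252823312574413760807735493739041797790920011562301064584602517528407644338344670955485654397780984293094009068276249124891481740754575846186717049132107209760802484221963086586110322266302060810726205177275003268097116899048015852236741224397323314019007295481306422888209661780414023849754154050792401516649818416426822185853179145750480937851572157670706198327879619454746113022305733050358827226439242456726812888341410595829294147641808468494910759744)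
  (r
  16963326532011322399951853034295809501185975770600143248999959757360951507930500692346926530405837511724516610167689277568730638630866196225848432423403905165968344915173492669041590489427597279889046495412024938896851637943777583389589920529691957435627902509528447601773921084957533625522053621723476035628025649488458652448887461806560121981787954039472297246582021434770237233300161619046372008401500943649974656477619665659606361338099365774458109288299287399311769556704835365789462344725935361253442370070845610057302021684048396252191979281985939849476578753070619668765343113566990413355900122142324249165943808832)))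

noncomputable def t119 : Tre := Helper55.PC.toT t119n

theorem ok119 : chk K t119 r125 = true :=
  Helper55.PC.chkN_sound K t119n r125 (by decide +kernel)

noncomputable def t120 : Tre :=
  (.N [0,-1,2,2] (-1) ⟨0,[(0,0)]⟩ ⟨0,[(1,0)]⟩ (.x 0 ⟨31,[(15,31),(1,7),(1,34),(19,7),(7,9),(7,34),
  (13,34),(0,60)]⟩ ⟨3,[(2,0),(1,3),(9,1),(3,6),(3,0),(2,4),(0,2),(5,0),(18,0),(28,3),(4,2),(5,2)]⟩))

theorem ok120 : chk K t120 l127 = true := by decide +kernel

noncomputable def t121 : Tre :=
  (.N [0,0,1,-2] 0 ⟨0,[(17,0)]⟩ ⟨0,[(32,0)]⟩ (.i 1 ⟨1,[(27,1),(17,2),(19,0)]⟩ ⟨0,[(0,0)]⟩))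

theorem ok121 : chk K t121 l128 = true := by decide +kernel

noncomputable def t122 : Tre :=
  (.N [0,0,1,-2] 0 ⟨0,[(18,0)]⟩ ⟨0,[(33,0)]⟩ (.i 0 ⟨0,[(0,0)]⟩ ⟨0,[(21,0),(25,1)]⟩))

theorem ok122 : chk K t122 l129 = true := by decide +kernel

open Helper55.PC in
noncomputable def t123n : Helper55.PC.Ten :=
  (r
  919583773929373886507039078375715368500074154338504051148865015003606847768250084137934968027835853614760515784163826256927693729881833337687621892754391320482118032890788207065488795886606727460951560617028370023355075835254797893834908031221808195742055767922580423469898633467307578748173618917431040789459187696490658111263675013758815248461455227478941738780804279155163901576281488551138876929395034816270617855485297029758799292904809767491925729751994964911930847103829859378409247428558807486490805004706527505011704548164486936694291953502899173468753509242710591879261173381087802097525859136)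

noncomputable def t123 : Tre := Helper55.PC.toT t123n

theorem ok123 : chk K t123 r129 = true :=
  Helper55.PC.chkN_sound K t123n r129 (by decide +kernel)

noncomputable def t124 : Tre :=
  (.N [0,0,1,-2] 0 ⟨0,[(16,0)]⟩ ⟨0,[(31,0)]⟩ (.i 0 ⟨0,[(0,0)]⟩ ⟨0,[(19,0),(25,1)]⟩))

theorem ok124 : chk K t124 l130 = true := by decide +kernel

noncomputable def t125 : Tre :=
  (.N [0,0,1,-2] 0 ⟨0,[(17,0)]⟩ ⟨0,[(32,0)]⟩ (.i 1 ⟨1,[(27,1),(17,2),(19,0)]⟩ ⟨0,[(0,0)]⟩))

theorem ok125 : chk K t125 l131 = true := by decide +kernel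

open Helper55.PC in
noncomputable def t126n : Helper55.PC.Ten :=
  (r
  214107281977629899821090082897980907279940641656303639643843125899864087833168859439275675768620371861916012233525731272892448185863845067647617972026430402770156037625841596498806158064994963253870740145868046443461336858391100446301927450443440499142376871885050706962752745921123008803851825528732634732680639293882379792312465669552229153894324516190278473448459313018835538593871215943679912856457956393980201924721788294880158518053660025788540086944885436061513276004601270381256286919809560405559320153511153066169423073497290504129814488549694245927941402747273147184865733751660094272)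

noncomputable def t126 : Tre := Helper55.PC.toT t126n

theorem ok126 : chk K t126 r131 = true :=
  Helper55.PC.chkN_sound K t126n r131 (by decide +kernel)

noncomputable def t127 : Tre :=
  (.N [0,1,2,1,1] 0 ⟨0,[(0,0)]⟩ ⟨0,[(1,0)]⟩ (.x (-1) ⟨7,[(15,3),(1,1),(1,10),(19,1),(7,1),(7,10),
  (13,10),(0,8)]⟩ ⟨72,[(0,40),(1,7),(11,28),(1,12),(5,14),(2,94),(0,94),(3,17),(1,14),(18,39),(28,
  14),(0,79)]⟩))

theorem ok127 : chk K t127 l134 = true := by decide +kernel

noncomputable def t128 : Tre :=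
  (.N [0,0,1,-2] 0 ⟨0,[(17,0)]⟩ ⟨0,[(32,0)]⟩ (.i 0 ⟨0,[(0,0)]⟩ ⟨0,[(20,0),(25,1)]⟩))

theorem ok128 : chk K t128 l135 = true := by decide +kernel

open Helper55.PC in
noncomputable def t129n : Helper55.PC.Ten :=
  (r
  92415031122345136207892955611478345698931717729594535852198996860640638204089590531967449025217987497483676979109219495886134629730682280283071027975279108227358718613228940991781276658494774755506259391482768076735301878831070272694585414682199679861616224601303819408258515553161837088133566258273510753050000559210445440202230865219082690217320354738180164127720620307172619117106771656259164897369782336225548300166733083517959829814621441782874802098557587390164295008590222389066117931556362846395411383796285888953661875296659535879612050335760408704667485304317907998496429117058072037409229311483948775336864125609012335708183869432705788940776028427438198941052447525323480317605367990274252608)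

noncomputable def t129 : Tre := Helper55.PC.toT t129n

theorem ok129 : chk K t129 r135 = true :=
  Helper55.PC.chkN_sound K t129n r135 (by decide +kernel)

noncomputable def t130 : Tre :=
  (.N [0,1,0,0,7] 0 ⟨0,[(0,0)]⟩ ⟨0,[(2,0)]⟩ (.x (-1) ⟨3,[(17,0),(6,23),(12,1),(1,0)]⟩ ⟨14,[(17,1),
  (21,1),(7,9),(2,13),(0,6)]⟩))

theorem ok130 : chk K t130 l136 = true := by decide +kernel

noncomputable def t131 : Tre :=
  (.N [0,1,2,2] 0 ⟨0,[(1,0)]⟩ ⟨0,[(0,0)]⟩ (.x (-1) ⟨31,[(17,31),(1,7),(1,48),(19,7),(7,13),(7,48),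
  (13,48),(0,46)]⟩ ⟨19,[(1,15),(2,1),(11,12),(1,8),(1,26),(3,13),(2,40),(0,25),(5,13),(12,3),(5,5),
  (28,9)]⟩))

theorem ok131 : chk K t131 l138 = true := by decide +kernel

noncomputable def t132 : Tre :=
  (.N [0,0,1,-2] 0 ⟨0,[(19,0)]⟩ ⟨0,[(34,0)]⟩ (.i 0 ⟨0,[(0,0)]⟩ ⟨0,[(22,0),(25,1)]⟩))

theorem ok132 : chk K t132 l139 = true := by decide +kernel

noncomputable def t133 : Tre :=
  (.N [0,0,1,-2] 0 ⟨0,[(20,0)]⟩ ⟨0,[(35,0)]⟩ (.i 1 ⟨1,[(30,1),(17,2),(19,0)]⟩ ⟨0,[(0,0)]⟩))

theorem ok133 : chk K t133 l140 = true := by decide +kernel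

open Helper55.PC in
noncomputable def t134n : Helper55.PC.Ten :=
  (r
  3949582234958946286975801644016298740636488584425104170526919890498659457478117190456564486184756464345279258180046521886362259015611863674472496421251311384407113042688556682462978775470716005598760877497390423670125181606841194978323714686068834541248059360405240679195253025217902503070224196137167010248097356330701503504390760221027858433676987002831446999085018951641583012192929392440305682184247201732504068018808838758517608022725228235661715272124461756430288222952531601872632560604691087036069777902531019077599111380327158643797490945849944810490056418963355807130486757110170179482483635918760846144)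

noncomputable def t134 : Tre := Helper55.PC.toT t134n

theorem ok134 : chk K t134 r140 = true :=
  Helper55.PC.chkN_sound K t134n r140 (by decide +kernel)

noncomputable def t135 : Tre :=
  (.N [0,0,1,-2] 0 ⟨0,[(18,0)]⟩ ⟨0,[(33,0)]⟩ (.i 1 ⟨1,[(28,1),(17,2),(19,0)]⟩ ⟨0,[(0,0)]⟩))

theorem ok135 : chk K t135 l141 = true := by decide +kernel

noncomputable def t136 : Tre :=
  (.N [0,0,1,-2] 0 ⟨0,[(19,0)]⟩ ⟨0,[(34,0)]⟩ (.i 0 ⟨0,[(0,0)]⟩ ⟨0,[(22,0),(25,1)]⟩))

theorem ok136 : chk K t136 l142 = true := by decide +kernel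

open Helper55.PC in
noncomputable def t137n : Helper55.PC.Ten :=
  (r
  2060924061573696400926084711853277098973852770990589931914579525951700670762015461389597782955195247757573877618427828618015924354298174828469297006621121776119809181244938597690842806594749681265545362888537045546587886111103773081742313998010303568143300074666382071563580111167630557161962829369444185847057518498668801212822623200472958347996891167460459061617042328493131679935585424960573835700715660029209125135641816270346901463891881889402978646205122447688931188733586816365322191669514145786501975942935033010700683015776823486805877143626426793227032980848048260156941691755034459292342362375437907340437598441069777353347252279715253508890327619482013423510625358872641116469594702323799495507909068859085718976182199117787214846910272)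

noncomputable def t137 : Tre := Helper55.PC.toT t137n

theorem ok137 : chk K t137 r142 = true :=
  Helper55.PC.chkN_sound K t137n r142 (by decide +kernel)

noncomputable def t138 : Tre :=
  (.N [0,0,1,-2] 0 ⟨0,[(15,0)]⟩ ⟨0,[(30,0)]⟩ (.i 0 ⟨0,[(0,0)]⟩ ⟨0,[(18,0),(25,1)]⟩))

theorem ok138 : chk K t138 l143 = true := by decide +kernel

noncomputable def t139 : Tre :=
  (.N [0,0,1,-2] 0 ⟨0,[(16,0)]⟩ ⟨0,[(31,0)]⟩ (.i 1 ⟨1,[(26,1),(17,2),(19,0)]⟩ ⟨0,[(0,0)]⟩))

theorem ok139 : chk K t139 l144 = true := by decide +kernel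

open Helper55.PC in
noncomputable def t140n : Helper55.PC.Ten :=
  (r
  258839821350265829836042660662487094299336128179184200528175163093247952708445185569076128686175539694275080194362881145783716006518741296247007509113721953035606467691245571429688433746543911214054372852899704759313149818090823905105346287048580131584213079182557647147212058895102417875635796631426556249893142244510846999155686696204614047522833889065312646942078903480376697772287462459261076587379325721203927430315604866885814792083027761979145640351559436808910627812332402525703400390219944090005595255597956316836227527575471423412237534147077345195443842975116252158719411023252271265885293534554389091722048)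

noncomputable def t140 : Tre := Helper55.PC.toT t140n

theorem ok140 : chk K t140 r144 = true :=
  Helper55.PC.chkN_sound K t140n r144 (by decide +kernel)

noncomputable def t141 : Tre :=
  (.N [0,1,0,0,5] 0 ⟨0,[(1,0)]⟩ ⟨0,[(0,0)]⟩ (.x (-1) ⟨3,[(14,0),(6,15),(12,1),(1,0)]⟩ ⟨44,[(14,6),
  (21,6),(7,19),(2,33),(0,16)]⟩))

theorem ok141 : chk K t141 l146 = true := by decide +kernel

noncomputable def t142 : Tre :=
  (.N [0,-1,2,0,2] (-1) ⟨0,[(1,0)]⟩ ⟨0,[(0,0)]⟩ (.x 0 ⟨3,[(16,0),(1,1),(17,1),(1,0),(15,1),(13,1),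
  (0,5)]⟩ ⟨74,[(17,23),(7,125),(20,38),(3,66),(0,3),(6,15),(22,15)]⟩))

theorem ok142 : chk K t142 l148 = true := by decide +kernel

noncomputable def t143 : Tre :=
  (.N [0,-3,0,0,8] (-2) ⟨0,[(1,0)]⟩ ⟨0,[(0,0)]⟩ (.x 1 ⟨9,[(18,0),(6,73),(1,11),(12,0),(11,5),(18,
  11)]⟩ ⟨35,[(18,8),(19,9),(1,8),(7,43)]⟩))

theorem ok143 : chk K t143 l150 = true := by decide +kernel

noncomputable def t144 : Tre :=
  (.N [0,-1,0,0,7] (-1) ⟨0,[(1,0)]⟩ ⟨0,[(0,0)]⟩ (.x 0 ⟨4,[(20,0),(6,33),(1,1),(12,0),(11,0),(18,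
  1)]⟩ ⟨89,[(20,18),(21,18),(7,79),(2,27),(0,13)]⟩))

theorem ok144 : chk K t144 l152 = true := by decide +kernel

noncomputable def t145 : Tre :=
  (.N [0,0,1,-2] 0 ⟨0,[(20,0)]⟩ ⟨0,[(35,0)]⟩ (.i 1 ⟨1,[(30,1),(17,2),(19,0)]⟩ ⟨0,[(0,0)]⟩))

theorem ok145 : chk K t145 l153 = true := by decide +kernel

noncomputable def t146 : Tre :=
  (.N [0,0,1,-2] 0 ⟨0,[(21,0)]⟩ ⟨0,[(36,0)]⟩ (.i 0 ⟨0,[(0,0)]⟩ ⟨0,[(24,0),(25,1)]⟩))

theorem ok146 : chk K t146 l154 = true := by decide +kernel

open Helper55.PC in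
noncomputable def t147n : Helper55.PC.Ten :=
  (r
  88078627062462881420289461588768073056998439857391761775198767844356071004638422053572678221463333899317136958786428091845297676095329698721040674557289076930533966763207013101466352484016211745742785357567581349239162503898714754781510870018077535734273262947826017488794212340403927660829341660563841448870318079865914836995357603532386184100978136205069206929215414059925278300245340833146473811763806460936133076483647868222703834372191961391883202301637674148706124878269749806269710468271803498303616858548449575337038080618794630334020913811383142789351606070444015606398011746508567624027217669868316620419016469155359720839895325300545319608787776)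

noncomputable def t147 : Tre := Helper55.PC.toT t147n

theorem ok147 : chk K t147 r154 = true :=
  Helper55.PC.chkN_sound K t147n r154 (by decide +kernel)

noncomputable def t148 : Tre :=
  (.N [0,3,0,0,4] 1 ⟨0,[(0,0)]⟩ ⟨0,[(1,0)]⟩ (.x (-2) ⟨3,[(21,0),(6,3),(12,5),(1,0)]⟩ ⟨44,[(21,3),
  (21,3),(7,4),(2,57),(0,28)]⟩))

theorem ok148 : chk K t148 l156 = true := by decide +kernel

noncomputable def t149 : Tre :=
  (.N [0,0,1,-2] 0 ⟨0,[(21,0)]⟩ ⟨0,[(36,0)]⟩ (.i 1 ⟨1,[(31,1),(17,2),(19,0)]⟩ ⟨0,[(0,0)]⟩))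

theorem ok149 : chk K t149 l157 = true := by decide +kernel

open Helper55.PC in
noncomputable def t150n : Helper55.PC.Ten :=
  (r
  72856932686357726810738247285166978230951840611136600042599948114429757588741300351141588607239674496383506328885249188759914855550606298716100608771024970274508357282858278337452788571658244548352042664203062903688569912740283138081873509588271512336231902187432535659783506392788905218637119993388447059486333074983676883753471657020126842867931901946600719984644887782152083016722486684006500429612610020107393483497116907785564430100145436319266756382795216322298816390690416036297190008470234836426064014988021192104071295994402720517300766485884795796923812274044091788185446561013242653128408704187683578623528380341139284800)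

noncomputable def t150 : Tre := Helper55.PC.toT t150n

theorem ok150 : chk K t150 r157 = true :=
  Helper55.PC.chkN_sound K t150n r157 (by decide +kernel)

noncomputable def t151 : Tre :=
  (.N [0,0,1,-2] 0 ⟨0,[(20,0)]⟩ ⟨0,[(35,0)]⟩ (.i 1 ⟨1,[(30,1),(17,2),(19,0)]⟩ ⟨0,[(0,0)]⟩))

theorem ok151 : chk K t151 l158 = true := by decide +kernel

noncomputable def t152 : Tre :=
  (.N [0,0,1,-2] 0 ⟨0,[(21,0)]⟩ ⟨0,[(36,0)]⟩ (.i 0 ⟨0,[(0,0)]⟩ ⟨0,[(24,0),(25,1)]⟩))

theorem ok152 : chk K t152 l159 = true := by decide +kernel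

open Helper55.PC in
noncomputable def t153n : Helper55.PC.Ten :=
  (r
  5772320903165567396760090154681504435863449754494026499699426449447719469359983627702939039921821050425647887731027351427173428500583527135382121647786496945719474045793534810617698876392486452968999181193549011303737753855506170169361096377504729381881332560548725882145617499940711803180111735066711913193036876078570873410835166658605497639164159533114477752739691540625286760096275503844945731776471654677360188978659073961476458613178961457725597875697528663234326248251554055276380001977350951976863401077258078140636706991503599687846277284551975843762175763750707604313537607422894362682077294635134380736199795702286562146113049832162511069083911594816)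

noncomputable def t153 : Tre := Helper55.PC.toT t153n

theorem ok153 : chk K t153 r159 = true :=
  Helper55.PC.chkN_sound K t153n r159 (by decide +kernel)

noncomputable def t154 : Tre :=
  (.N [0,0,1,-2] 0 ⟨0,[(17,0)]⟩ ⟨0,[(32,0)]⟩ (.i 1 ⟨1,[(27,1),(17,2),(19,0)]⟩ ⟨0,[(0,0)]⟩))

theorem ok154 : chk K t154 l160 = true := by decide +kernel

noncomputable def t155 : Tre :=
  (.N [0,0,1,-2] 0 ⟨0,[(18,0)]⟩ ⟨0,[(33,0)]⟩ (.i 0 ⟨0,[(0,0)]⟩ ⟨0,[(21,0),(25,1)]⟩))

theorem ok155 : chk K t155 l161 = true := by decide +kernel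

open Helper55.PC in
noncomputable def t156n : Helper55.PC.Ten :=
  (r
  72856932686356951201359729292723651040399311069728962888859565708286717890018834452488344303828596035134623152841655112361820053100971559050519281360195450931248956501147610410173891632893541345487700676117994358740706719011836035471748230725767601452081454697239192471855678076802838365867041847644993151938868516508248506108631807034726955404564541553801455428028573986840290652930717920293118693788662929970448057962174562322367810350034278160312082079222296355490255181761571105414363063399025023609791837011507277670593174372265886578441982788884428095946086274657625562426101114677649625010586378509572914455547053725718946624)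

noncomputable def t156 : Tre := Helper55.PC.toT t156n

theorem ok156 : chk K t156 r161 = true :=
  Helper55.PC.chkN_sound K t156n r161 (by decide +kernel)

noncomputable def t157 : Tre :=
  (.N [0,0,1,-2] 0 ⟨0,[(15,0)]⟩ ⟨0,[(30,0)]⟩ (.i 1 ⟨1,[(25,1),(17,2),(19,0)]⟩ ⟨0,[(0,0)]⟩))

theorem ok157 : chk K t157 l162 = true := by decide +kernel

noncomputable def t158 : Tre :=
  (.N [0,0,1,-2] 0 ⟨0,[(16,0)]⟩ ⟨0,[(31,0)]⟩ (.i 0 ⟨0,[(0,0)]⟩ ⟨0,[(19,0),(25,1)]⟩))

theorem ok158 : chk K t158 l163 = true := by decide +kernel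

open Helper55.PC in
noncomputable def t159n : Helper55.PC.Ten :=
  (r
  378294822709851912928104118149504674134859392255971734395972290591269699484136455839299134527117117253059418671458171794662791228275937472998835029409822094137217490529782486490231414538136771820699543326572367168583747739839126845218088599472528133479101649788976858025969103625233821633684321610597152608091719186271401180444911896774308720002831084559053601154299635272877507020852993714557331046428489315488823667514032378344075203609602239265476434159372295964653657016745251459169969199966535872260171294262562867505286251471725500742925175106933667677138562864244698496258037761673116651101693833258359446061891728273310187909078282762042851714900844110684992)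

noncomputable def t159 : Tre := Helper55.PC.toT t159n

theorem ok159 : chk K t159 r163 = true :=
  Helper55.PC.chkN_sound K t159n r163 (by decide +kernel)

noncomputable def t160 : Tre :=
  (.N [0,-1,2,0,2] (-1) ⟨0,[(1,0)]⟩ ⟨0,[(0,0)]⟩ (.x 0 ⟨3,[(15,0),(1,1),(17,1),(1,0),(15,1),(13,1),
  (0,5)]⟩ ⟨74,[(16,23),(7,125),(20,38),(3,66),(0,3),(6,15),(22,15)]⟩))

theorem ok160 : chk K t160 l165 = true := by decide +kernel

noncomputable def t161 : Tre :=
  (.N [0,0,1,-2] 0 ⟨0,[(15,0)]⟩ ⟨0,[(30,0)]⟩ (.i 0 ⟨0,[(0,0)]⟩ ⟨0,[(18,0),(25,1)]⟩))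

theorem ok161 : chk K t161 l166 = true := by decide +kernel

noncomputable def t162 : Tre :=
  (.N [0,0,1,-2] 0 ⟨0,[(16,0)]⟩ ⟨0,[(31,0)]⟩ (.i 1 ⟨1,[(26,1),(17,2),(19,0)]⟩ ⟨0,[(0,0)]⟩))

theorem ok162 : chk K t162 l167 = true := by decide +kernel

open Helper55.PC in
noncomputable def t163n : Helper55.PC.Ten :=
  (r
  3267017852441850891905649361951441398941513906818751273005167988064012293166674632102433054728291241435169051448830266570849076377592664195926780254783201455181094356344149087818797344965556433608773494511662178206907378226825828902282397127243560430612301721528898457974848866802834478916760327365530472508124082050379078003717340620837875036171670003057344068936153436096668805364590866983272335845520520308253469987687695638723448079541710831890072505616045977237029037473759477841692340994618681288309707224716682438571260423898986681819621096202425162691022347927915628803044510278464)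

noncomputable def t163 : Tre := Helper55.PC.toT t163n

theorem ok163 : chk K t163 r167 = true :=
  Helper55.PC.chkN_sound K t163n r167 (by decide +kernel)

noncomputable def t164 : Tre :=
  (.N [0,0,1,-2] 0 ⟨0,[(14,0)]⟩ ⟨0,[(29,0)]⟩ (.i 0 ⟨0,[(0,0)]⟩ ⟨0,[(17,0),(25,1)]⟩))

theorem ok164 : chk K t164 l168 = true := by decide +kernel

noncomputable def t165 : Tre :=
  (.N [0,0,1,-2] 0 ⟨0,[(15,0)]⟩ ⟨0,[(30,0)]⟩ (.i 1 ⟨1,[(25,1),(17,2),(19,0)]⟩ ⟨0,[(0,0)]⟩))

theorem ok165 : chk K t165 l169 = true := by decide +kernel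

open Helper55.PC in
noncomputable def t166n : Helper55.PC.Ten :=
  (r
  92415031122345136207892955611376917131485353618461311242990972841510347628229031872658987195146174780358745377922016706437340294464240724816484438526053595956585134687676333837512039638940694333777523921728441139238878458839882607607980549396627867842069923891454113759038411769472922417044718649675889879203061434470017791675549755614895104010129448789331521541615087742935170339700419099095894557318148583434014710916631406191424313347986679805528139634241257747684556271012433125433230663195926037595751990010307100198995893028324471461563135542235330401949713367456384029655655125975776109967414434513692244021828253427479822894507273204589971814231944660807394730658847589429651045235367584974790464)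

noncomputable def t166 : Tre := Helper55.PC.toT t166n

theorem ok166 : chk K t166 r169 = true :=
  Helper55.PC.chkN_sound K t166n r169 (by decide +kernel)

noncomputable def t167 : Tre :=
  (.N [0,0,1,-2] 0 ⟨0,[(10,0)]⟩ ⟨0,[(25,0)]⟩ (.i 0 ⟨0,[(0,0)]⟩ ⟨0,[(13,0),(25,1)]⟩))

theorem ok167 : chk K t167 l170 = true := by decide +kernel

noncomputable def t168 : Tre :=
  (.N [0,0,1,-2] 0 ⟨0,[(11,0)]⟩ ⟨0,[(26,0)]⟩ (.i 1 ⟨1,[(21,1),(17,2),(19,0)]⟩ ⟨0,[(0,0)]⟩))

theorem ok168 : chk K t168 l171 = true := by decide +kernel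

open Helper55.PC in
noncomputable def t169n : Helper55.PC.Ten :=
  (r
  3949582234958820149433214436051593959772264895387660321030568442363324057985885427474062802171013661903963811273655403236171034949862027158319421752026439884603914663030548750392976240595292557777497935776123421949400412169209172039452864022855258933351534269682266810898143094877610119925288576100520330385756655966429658530624847703932793606306991794925367092490030325522428614162727312875274036020682456460661275687126797299418087953309453240601651238526662215990431356936881198467889422719780228455966337775470876843114757664784739724100913286036965433310136460148564870421096070366521274082329970088947753792)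

noncomputable def t169 : Tre := Helper55.PC.toT t169n

theorem ok169 : chk K t169 r171 = true :=
  Helper55.PC.chkN_sound K t169n r171 (by decide +kernel)

noncomputable def t170 : Tre :=
  (.N [0,0,1,-2] 0 ⟨0,[(7,0)]⟩ ⟨0,[(22,0)]⟩ (.i 0 ⟨0,[(0,0)]⟩ ⟨0,[(10,0),(25,1)]⟩))

theorem ok170 : chk K t170 l172 = true := by decide +kernel

noncomputable def t171 : Tre :=
  (.N [0,0,1,-2] 0 ⟨0,[(8,0)]⟩ ⟨0,[(23,0)]⟩ (.i 1 ⟨1,[(18,1),(17,2),(19,0)]⟩ ⟨0,[(0,0)]⟩))

theorem ok171 : chk K t171 l173 = true := by decide +kernel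

open Helper55.PC in
noncomputable def t172n : Helper55.PC.Ten :=
  (r
  72856932686354365839824333773881260029766017384361281391178297575018185448329660578367030642698648822781916669482875467091809010319016373916894599653089262176508206314501924957438948986440327068388148563639684835545445185072717927677016894407335273105436473817263268389314140331397874129437819371335266898463668187515305891878120835689556148202893197742042161934409864452126726031560566281145789554322382436213716179421489126819331337460741497607256907916460045647673217709503295927241785596668525229363786045117824367277448898282751684703119744389932758577653134513267919032163709466654571013453989442079271927386068083464546296640)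

noncomputable def t172 : Tre := Helper55.PC.toT t172n

theorem ok172 : chk K t172 r173 = true :=
  Helper55.PC.chkN_sound K t172n r173 (by decide +kernel)

noncomputable def t173 : Tre :=
  (.N [0,1,0,0,5] 0 ⟨0,[(0,0)]⟩ ⟨0,[(1,0)]⟩ (.x (-1) ⟨3,[(7,0),(6,15),(12,1),(1,0)]⟩ ⟨44,[(7,6),(21,
  6),(7,19),(2,33),(0,16)]⟩))

theorem ok173 : chk K t173 l175 = true := by decide +kernel

noncomputable def t174 : Tre :=
  (.N [0,1,2,1,-1] 0 ⟨0,[(1,0)]⟩ ⟨0,[(0,0)]⟩ (.x (-1) ⟨3,[(7,1),(1,0),(1,4),(19,0),(7,1),(7,4),(13,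
  4),(0,4)]⟩ ⟨2,[(1,0),(4,0),(1,0),(3,1),(1,0),(2,0),(0,6),(5,0),(13,1),(4,1),(28,0)]⟩))

theorem ok174 : chk K t174 l177 = true := by decide +kernel

noncomputable def t175 : Tre :=
  (.N [0,0,1,-2] 0 ⟨0,[(9,0)]⟩ ⟨0,[(24,0)]⟩ (.i 0 ⟨0,[(0,0)]⟩ ⟨0,[(12,0),(25,1)]⟩))

theorem ok175 : chk K t175 l178 = true := by decide +kernel

noncomputable def t176 : Tre :=
  (.N [0,0,1,-2] 0 ⟨0,[(10,0)]⟩ ⟨0,[(25,0)]⟩ (.i 1 ⟨1,[(20,1),(17,2),(19,0)]⟩ ⟨0,[(0,0)]⟩))

theorem ok176 : chk K t176 l179 = true := by decide +kernel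

open Helper55.PC in
noncomputable def t177n : Helper55.PC.Ten :=
  (r
  312918143174767647556611982571331493017241863422546798690053492608453891783750473977456297069968733112712480456383913222979978447711929520171412165592456406222210344389560540694984340022812245138571242641447638325001729368740526932613961147261264285743415986185413031783144809919569843030372558458425661437166873980154276882215720925455590452591685336289078900371539365928531105415669609871437615870058898498442789661187642299298901029947003681896930404097569068515875265120426030014267123412831956354256151937111672414152630302390114250194191385024039618332583495349472088383712742909717966329741029026761283657363276525887890805150689010496)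

noncomputable def t177 : Tre := Helper55.PC.toT t177n

theorem ok177 : chk K t177 r179 = true :=
  Helper55.PC.chkN_sound K t177n r179 (by decide +kernel)

noncomputable def t178 : Tre :=
  (.N [0,0,1,-2] 0 ⟨0,[(8,0)]⟩ ⟨0,[(23,0)]⟩ (.i 0 ⟨0,[(0,0)]⟩ ⟨0,[(11,0),(25,1)]⟩))

theorem ok178 : chk K t178 l180 = true := by decide +kernel

noncomputable def t179 : Tre :=
  (.N [0,0,1,-2] 0 ⟨0,[(9,0)]⟩ ⟨0,[(24,0)]⟩ (.i 1 ⟨1,[(19,1),(17,2),(19,0)]⟩ ⟨0,[(0,0)]⟩))

theorem ok179 : chk K t179 l181 = true := by decide +kernel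

open Helper55.PC in
noncomputable def t180n : Helper55.PC.Ten :=
  (r
  88078627062459130806677075772716192842683025946376773485646200401462082693031671847191104942102899411912670543177075959371622307452015160740080306084762804063766206808835628704742729521356848660812245127980824447503013795884623471059559352199628303087549510622513033461110252474923186203043078777577975938106125475967354132834317200557331156124353018197666327647958612226774933618898415697218415397696781266512684083066787099044027391347667433618507150880483654754283885617571869247734339939577576982425578963967610378352798905396090855784897934806520741560729913611840042387497650505207901873082897056039956322002149337117383203604630215126146758228583232)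

noncomputable def t180 : Tre := Helper55.PC.toT t180n

theorem ok180 : chk K t180 r181 = true :=
  Helper55.PC.chkN_sound K t180n r181 (by decide +kernel)

noncomputable def t181 : Tre :=
  (.N [0,-1,0,0,7] (-1) ⟨0,[(1,0)]⟩ ⟨0,[(0,0)]⟩ (.x 0 ⟨4,[(8,0),(6,33),(1,1),(12,0),(11,0),(18,1)]⟩
  ⟨89,[(8,18),(21,18),(7,79),(2,27),(0,13)]⟩))

theorem ok181 : chk K t181 l183 = true := by decide +kernel

noncomputable def t182 : Tre :=
  (.N [0,1,1,1,2] 0 ⟨0,[(1,0)]⟩ ⟨0,[(0,0)]⟩ (.x (-1) ⟨3,[(8,1),(1,0),(1,3),(19,0),(15,3),(13,3),(0,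
  1)]⟩ ⟨13,[(7,6),(11,16),(20,2),(1,3),(0,2),(0,9),(29,3)]⟩))

theorem ok182 : chk K t182 l185 = true := by decide +kernel

noncomputable def t183 : Tre :=
  (.N [0,1,1,2,1] 0 ⟨0,[(1,0)]⟩ ⟨0,[(0,0)]⟩ (.x (-1) ⟨31,[(10,31),(1,7),(1,36),(19,7),(7,5),(7,36),
  (13,36),(0,26)]⟩ ⟨1,[(9,1),(10,1),(0,1),(3,0),(10,0),(9,0),(29,1)]⟩))

theorem ok183 : chk K t183 l187 = true := by decide +kernel

noncomputable def t184 : Tre :=
  (.N [0,0,1,-2] 0 ⟨0,[(13,0)]⟩ ⟨0,[(28,0)]⟩ (.i 1 ⟨1,[(23,1),(17,2),(19,0)]⟩ ⟨0,[(0,0)]⟩))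

theorem ok184 : chk K t184 l189 = true := by decide +kernel

open Helper55.PC in
noncomputable def t185n : Helper55.PC.Ten :=
  (q
  156089094712303820545218248668652481225868693487337949617217983116015374438638366105672921168232226370390870702135784075634558975928297428496023567
  (k
  32294233016787475614790024373560238161741172690560386757070715502549129505413808574318365059136229668511737222374310372597625576294392419994134553189852934071093312591450911057839716937969524105512538417118186309616068735673136266681083296510125689377905588074284008)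
  (r
  4643279312073673965184899107457531492133830204700206817038567043591235417776502215215913152369849160810561933074436523527912856801979709176321979527439154609861490182714967620916043424549608737159827455135361187315968971944813152745031649888513030972362083941601668674566554967049347423616683840894843326902220746312095351338830578018743746760537108399385702696330238521842268061013080157072031459091024869507860161002751260503464205105914321186283772126559216305124757470002478813657245294448257260163982188776791374547124551736373736300474640170509066205617308578823049452915829632118277745070173840873404661619412504431457810013203110967737195524371899499457368317760))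

noncomputable def t185 : Tre := Helper55.PC.toT t185n

theorem ok185 : chk K t185 r189 = true :=
  Helper55.PC.chkN_sound K t185n r189 (by decide +kernel)

noncomputable def t186 : Tre :=
  (.N [0,0,1,-2] 0 ⟨0,[(13,0)]⟩ ⟨0,[(28,0)]⟩ (.i 0 ⟨0,[(0,0)]⟩ ⟨0,[(16,0),(25,1)]⟩))

theorem ok186 : chk K t186 l190 = true := by decide +kernel

open Helper55.PC in
noncomputable def t187n : Helper55.PC.Ten :=
  (q
  418262105878614726377813046598282308194499675836533698275531163988143329376155711911584713531203696827472779016544313014181551771844971267752493246691466996482063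
  (k
  38981258024176125574281497040953771618372294979118444580357747222231061890502032294736468592179427329215261828318035666386179852886699721578446023334042388847554871244475854074394424441021360812581710985554670868151711624237639359243683644804777652497463090168382155557623034564358605734888)
  (q 38853437153584568546532170889153229706215601964913463439109591762349719372787657867279 (s
  150554838008237373928187678627100660328843143743794362098546615492986321523131092753291209757112546772411681591382208956999513332799349284407594942406921525386947630461042204630009110685795659268998809912062385522243400009194192641710561501506079315535811411718881939215939570376711061289113638953534195324672810527686454096692859983719214341638040546205874618809065931220010854943732564552837056814596532641923746450754658301231322585844127556706082712103580296624479810595590154348708126987255693381096843327686086619759469631938743131383761408691579120243125812657936984759920567952107692360385)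
  (r
  23089283612661777986236632398581274174698454166366750904702043392587662101401960202324971139757877704776948741269713055836818616141877449449887929573843580888339508559108520320579599574246781487045278766586836073146374127975299860782606158974237512309443231438013184248468736320838868278121752401566761747803904842720982961927535061552496908091265258620526580936222834762004605865980177860659113241229364516927962392625550047061154751499862298995445016632456334525568743831572810775548266085493579000184339951591146404346649110158794038487662234404424220215955557837919644967208117793032193948047435930254708386229576708573121307225225935633832597425876071883584)))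

noncomputable def t187 : Tre := Helper55.PC.toT t187n

theorem ok187 : chk K t187 r190 = true :=
  Helper55.PC.chkN_sound K t187n r190 (by decide +kernel)

noncomputable def t188 : Tre :=
  (.N [0,-1,2,1,1] (-1) ⟨0,[(1,0)]⟩ ⟨0,[(0,0)]⟩ (.x 0 ⟨15,[(11,7),(1,3),(1,14),(19,3),(7,1),(7,14),
  (13,14),(0,24)]⟩ ⟨27,[(10,4),(1,3),(3,8),(5,60),(14,1),(4,9),(0,8),(3,25),(2,0),(25,17),(1,17)]⟩))

theorem ok188 : chk K t188 l192 = true := by decide +kernel

noncomputable def t189 : Tre :=
  (.N [0,-4,0,0,3] (-2) ⟨0,[(1,0)]⟩ ⟨0,[(0,0)]⟩ (.x 1 ⟨9,[(15,2),(6,21),(1,15),(12,2),(11,7),(18,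
  15)]⟩ ⟨8,[(35,10),(9,6)]⟩))

theorem ok189 : chk K t189 l194 = true := by decide +kernel

noncomputable def t190 : Tre :=
  (.N [0,0,0,1,-2] 0 ⟨0,[(0,0)]⟩ ⟨0,[(1,0)]⟩ (.x 0 ⟨31,[(15,15),(3,2),(27,9),(7,2),(13,2),(0,12)]⟩
  ⟨17,[(14,8),(2,7),(6,26),(1,8),(12,7),(11,3),(7,0),(1,0)]⟩))

theorem ok190 : chk K t190 l196 = true := by decide +kernel

noncomputable def t191 : Tre :=
  (.N [0,-2,0,0,5] (-1) ⟨0,[(1,0)]⟩ ⟨0,[(0,0)]⟩ (.x 0 ⟨4,[(19,1),(6,22),(1,3),(12,1),(11,1),(18,
  3)]⟩ ⟨8,[(39,1),(9,6)]⟩))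

theorem ok191 : chk K t191 l198 = true := by decide +kernel

noncomputable def t192 : Tre :=
  (.N [0,0,1,-2] 0 ⟨0,[(19,0)]⟩ ⟨0,[(34,0)]⟩ (.i 0 ⟨0,[(0,0)]⟩ ⟨0,[(22,0),(25,1)]⟩))

theorem ok192 : chk K t192 l199 = true := by decide +kernel

noncomputable def t193 : Tre :=
  (.N [0,0,1,-2] 0 ⟨0,[(20,0)]⟩ ⟨0,[(35,0)]⟩ (.i 1 ⟨1,[(30,1),(17,2),(19,0)]⟩ ⟨0,[(0,0)]⟩))

theorem ok193 : chk K t193 l200 = true := by decide +kernel

open Helper55.PC in
noncomputable def t194n : Helper55.PC.Ten :=
  (r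
  6786263860239395185602655708523934395757332885242170287016695997048759307099034512402929567781622310577370186804651468779720850824258616601537811355217043232728637807712822824601891451187422550721483043822250521370103600406572466583664585590503015543626304410572611103939515059944254094812045294913915527863029730122287874174111284047875830469073290328404476972136185601525851556965505537207449696291608381469999867666733608729633908160442646229540359153052674220534055822735218491913597806054755482747429656135806958834835288311880008632067779781006657604596000886541637681129566542143109947065476638632373565445884857194484421597893778189717020270267105894681402427864812338947831288427984161056645718758610826452800)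

noncomputable def t194 : Tre := Helper55.PC.toT t194n

theorem ok194 : chk K t194 r200 = true :=
  Helper55.PC.chkN_sound K t194n r200 (by decide +kernel)

noncomputable def t195 : Tre :=
  (.N [0,0,1,-2] 0 ⟨0,[(20,0)]⟩ ⟨0,[(35,0)]⟩ (.i 1 ⟨1,[(30,1),(17,2),(19,0)]⟩ ⟨0,[(0,0)]⟩))

theorem ok195 : chk K t195 l203 = true := by decide +kernel

open Helper55.PC in
noncomputable def t196n : Helper55.PC.Ten :=
  (r
  537663215983725649367966360139023959681780635275371494711419633398669807304576892605233486675010316941385160427889733645522079634228631519395875355881032179588616251695407562348876046399482830657754894737085211372965012960795823999475962385823599229978362076957380449853585643509123513195196833892305504078407122058398407919172575091961382796338289359070731590258312843816173981655612191029809973556976778219624987304653057525344243483159847645663525618014585301658040501338857709358646039643482103944436080143203298837347760222622978580327038046156357358000408330751988808577411282753530995329321333296714618039775264984173935863488627161433735550998364388068162130352755420997555323001853783481360000870868555019231827976318754842688352871014208)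

noncomputable def t196 : Tre := Helper55.PC.toT t196n

theorem ok196 : chk K t196 r203 = true :=
  Helper55.PC.chkN_sound K t196n r203 (by decide +kernel)

noncomputable def t197 : Tre :=
  (.N [0,0,1,-2] 0 ⟨0,[(20,0)]⟩ ⟨0,[(35,0)]⟩ (.i 1 ⟨1,[(30,1),(17,2),(19,0)]⟩ ⟨0,[(0,0)]⟩))

theorem ok197 : chk K t197 l204 = true := by decide +kernel

noncomputable def t198 : Tre :=
  (.N [0,0,1,-2] 0 ⟨0,[(21,0)]⟩ ⟨0,[(36,0)]⟩ (.i 0 ⟨0,[(0,0)]⟩ ⟨0,[(24,0),(25,1)]⟩))

theorem ok198 : chk K t198 l205 = true := by decide +kernel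

open Helper55.PC in
noncomputable def t199n : Helper55.PC.Ten :=
  (r
  444745719310968239555615151340950902784532954787082123422400042265334861952258326113206471926737364610998783725395119186037354402273450248052260573500283307720343124030738020498829602971345818718974905574205453317533640554340900273420889031966013214797803700612771185604026070803078440235731463149303281948550914389968422838059588944991218728632102396497177724932931183693640780344048538819935372561280886385068425603623324271305059993597031294145750786997324189156377460459095201745047078503925367152895482682787031965168638950336159746889491511888727346184290977963272180909792485770128467628938880314433196866162690567764266631226761853868215973182361773559491452779731621551804528404693946668984435676820571197880426304)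

noncomputable def t199 : Tre := Helper55.PC.toT t199n

theorem ok199 : chk K t199 r205 = true :=
  Helper55.PC.chkN_sound K t199n r205 (by decide +kernel)

noncomputable def t200 : Tre :=
  (.N [0,3,0,0,7] 1 ⟨0,[(1,0)]⟩ ⟨0,[(0,0)]⟩ (.x (-2) ⟨3,[(21,0),(6,15),(12,5),(1,0)]⟩ ⟨17,[(21,0),
  (21,0),(7,7),(2,27),(0,13)]⟩))

theorem ok200 : chk K t200 l207 = true := by decide +kernel

noncomputable def t201 : Tre :=
  (.N [0,-2,1,0,-2] (-1) ⟨0,[(1,0)]⟩ ⟨0,[(0,0)]⟩ (.x 1 ⟨0,[(25,0),(30,0)]⟩ ⟨35,[(23,6),(0,35),(20,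
  6),(11,7),(0,17),(6,19),(1,19)]⟩))

theorem ok201 : chk K t201 l209 = true := by decide +kernel

noncomputable def t202 : Tre :=
  (.N [0,0,1,-2] 0 ⟨0,[(23,0)]⟩ ⟨0,[(38,0)]⟩ (.i 0 ⟨0,[(0,0)]⟩ ⟨0,[(26,0),(25,1)]⟩))

theorem ok202 : chk K t202 l210 = true := by decide +kernel

noncomputable def t203 : Tre :=
  (.N [0,0,1,-2] 0 ⟨0,[(24,0)]⟩ ⟨0,[(39,0)]⟩ (.i 1 ⟨1,[(34,1),(17,2),(19,0)]⟩ ⟨0,[(0,0)]⟩))

theorem ok203 : chk K t203 l211 = true := by decide +kernel

open Helper55.PC in
noncomputable def t204n : Helper55.PC.Ten :=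
  (r
  29147077817789707031117409276548213470466809216803528894042708539708340827514885048782730772122190427324385670875811726642777985531115136575989106545434348419878779225646655871122783433544597636621945013346718286608542097015116058268636149147266096896595234781917431534694556656989057863611947334216478409913711447204110329100655825838513887173514629276983000001466134887550418244243796631102632329736703347121696755195489165595317972637495763674845103055240459239045298361294388476347694703842566935253270761649829991685004121337721522708100286352876048816367693337981585470873628303639759435196890197662813958785373598571621714924461093796590305541406363161024641738210963564214497266188908749391039348426794560097238728859456)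

noncomputable def t204 : Tre := Helper55.PC.toT t204n

theorem ok204 : chk K t204 r211 = true :=
  Helper55.PC.chkN_sound K t204n r211 (by decide +kernel)

noncomputable def t205 : Tre :=
  (.N [0,0,1,-2] 0 ⟨0,[(22,0)]⟩ ⟨0,[(37,0)]⟩ (.i 1 ⟨1,[(32,1),(17,2),(19,0)]⟩ ⟨0,[(0,0)]⟩))

theorem ok205 : chk K t205 l212 = true := by decide +kernel

open Helper55.PC in
noncomputable def t206n : Helper55.PC.Ten :=
  (r
  1580058218583557576506758331078391822930176650199503906843552754210983245124830625704158221720299797667049670083232370082722166859413049872195739247704659896032034682971842032246988366486820301140407346411331116136715381418346498066859893077398494252345512970365848982780887944902253513989784404062432904237036833506031509859199146001945218624135163599068822427780868140351468959772737166140231483901489113928412121858142148368658761987237132420811021300791347000071423446653254314842164744878873708522089938037499484445840381282871135027479718241895962038296117343715647266043559277176193301537737381748119547957964374724052180876962888007882633603282319858154389072094807084292550016609852126758078427455296)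

noncomputable def t206 : Tre := Helper55.PC.toT t206n

theorem ok206 : chk K t206 r212 = true :=
  Helper55.PC.chkN_sound K t206n r212 (by decide +kernel)

noncomputable def t207 : Tre :=
  (.N [0,0,1,-2] 0 ⟨0,[(20,0)]⟩ ⟨0,[(35,0)]⟩ (.i 1 ⟨1,[(30,1),(17,2),(19,0)]⟩ ⟨0,[(0,0)]⟩))

theorem ok207 : chk K t207 l213 = true := by decide +kernel

open Helper55.PC in
noncomputable def t208n : Helper55.PC.Ten :=
  (r
  6786263860239395185602655708523934395757332885242170287016695997048759307099034512402929567781622310577370186804651468779720850824258616601537811356836775889702792207284365894615729149821926384580839807324114644288341459672978136609982384911458929979746146635231467656366653271132982759420786602421183573733153996177460177968635104636374078306045718494888217896029163390965415415729294961705686201011921868489344124528152570882949639256214668597294747407176189392470463555049520234756854695350921858220575635354776566521017230985798636837998630419619065322659822554526517376829672277317069267572607712305622092000437610242145354321346350200414334910507831362988011858112035343145921535439447805190411340109196382461760)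

noncomputable def t208 : Tre := Helper55.PC.toT t208n

theorem ok208 : chk K t208 r213 = true :=
  Helper55.PC.chkN_sound K t208n r213 (by decide +kernel)

noncomputable def t209 : Tre :=
  (.N [0,0,1,-2] 0 ⟨0,[(16,0)]⟩ ⟨0,[(31,0)]⟩ (.i 1 ⟨1,[(26,1),(17,2),(19,0)]⟩ ⟨0,[(0,0)]⟩))

theorem ok209 : chk K t209 l214 = true := by decide +kernel

open Helper55.PC in
noncomputable def t210n : Helper55.PC.Ten :=
  (r
  2791678630539450633498546091122307449930192925892778129066610435422324656297031997576196532817954953301858436364433191332037680605735303024450052330008841569837743742314638832045237750453462869494531098498560055508642966867259271443425947389451484672049345468890816769767718781300743512120435002094976136911444908603333360880721682524664403683037199124603635628999252152282168087948156190693097971102827442698948852520494417606846563199456398336313318810914454807823019715121171367878021973303047617363187609322165212109274366694368436568098933613090480184687445801393613657040246964325294600592432989793211593159108144815593998051957998157492823581760949826208012383055464790685256008065392602793206287424032976591146602746822778833669163120561760631192269926608964238838631522112)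

noncomputable def t210 : Tre := Helper55.PC.toT t210n

theorem ok210 : chk K t210 r214 = true :=
  Helper55.PC.chkN_sound K t210n r214 (by decide +kernel)

noncomputable def t211 : Tre :=
  (.N [0,1,0,0,6] 0 ⟨0,[(1,0)]⟩ ⟨0,[(0,0)]⟩ (.x (-1) ⟨3,[(16,0),(6,19),(12,1),(1,0)]⟩ ⟨89,[(16,12),
  (21,12),(7,49),(2,75),(0,37)]⟩))

theorem ok211 : chk K t211 l216 = true := by decide +kernel

noncomputable def t212 : Tre :=
  (.N [0,0,1,-2] 0 ⟨0,[(16,0)]⟩ ⟨0,[(31,0)]⟩ (.i 0 ⟨0,[(0,0)]⟩ ⟨0,[(19,0),(25,1)]⟩))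

theorem ok212 : chk K t212 l217 = true := by decide +kernel

noncomputable def t213 : Tre :=
  (.N [0,0,1,-2] 0 ⟨0,[(17,0)]⟩ ⟨0,[(32,0)]⟩ (.i 1 ⟨1,[(27,1),(17,2),(19,0)]⟩ ⟨0,[(0,0)]⟩))

theorem ok213 : chk K t213 l218 = true := by decide +kernel

open Helper55.PC in
noncomputable def t214n : Helper55.PC.Ten :=
  (r
  72856932686356692664448203758078117718246963442951020306605669176253341534200102280115594523650298254418629385445751762720274217520953051663428518556388402167306522917301312146951464082640679611616062620715974522288430589249888181018657623675873314836360818497492017336361081527347169745266685735209783241132259092890629268929106052000319074538379578368205572179479892132069845625847233329209828378597483806687385622651252464013818406991317952437733255522411743984951982409499681438365738270675424741226303092647844928272279548919119661615707600922117987137473695271283961217959286650055762002638712344898692961062302129782259983168)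

noncomputable def t214 : Tre := Helper55.PC.toT t214n

theorem ok214 : chk K t214 r218 = true :=
  Helper55.PC.chkN_sound K t214n r218 (by decide +kernel)

noncomputable def t215 : Tre :=
  (.N [0,0,1,-2] 0 ⟨0,[(15,0)]⟩ ⟨0,[(30,0)]⟩ (.i 1 ⟨1,[(25,1),(17,2),(19,0)]⟩ ⟨0,[(0,0)]⟩))

theorem ok215 : chk K t215 l219 = true := by decide +kernel

noncomputable def t216 : Tre :=
  (.N [0,0,1,-2] 0 ⟨0,[(16,0)]⟩ ⟨0,[(31,0)]⟩ (.i 0 ⟨0,[(0,0)]⟩ ⟨0,[(19,0),(25,1)]⟩))

theorem ok216 : chk K t216 l220 = true := by decide +kernel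

open Helper55.PC in
noncomputable def t217n : Helper55.PC.Ten :=
  (r
  1111708567601874300060569239887994317458610409019066113426260134240445511495569435804220232253388164781098502226240701933493345420557100561700975688062136288872750352260377455790819837843813252028295300401643803582721796739660956056270793507394672008038165024469099979353399875045585982133185821755885951185808652988618396321132261446137204009458054122154269476478683791440048142897512750554177931435051170395340815477644266081016390007671470795626824493369114980371828416903288927566888483626092226625120811991600652741867374259162580881771049200472205658941078550602090026022419310799750749777432460436202189806243068648891200)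

noncomputable def t217 : Tre := Helper55.PC.toT t217n

theorem ok217 : chk K t217 r220 = true :=
  Helper55.PC.chkN_sound K t217n r220 (by decide +kernel)

noncomputable def t218 : Tre :=
  (.N [0,3,0,0,5] 1 ⟨0,[(0,0)]⟩ ⟨0,[(1,0)]⟩ (.x (-2) ⟨3,[(14,0),(6,7),(12,5),(1,0)]⟩ ⟨89,[(14,6),
  (21,6),(7,19),(2,123),(0,61)]⟩))

theorem ok218 : chk K t218 l222 = true := by decide +kernel

noncomputable def t219 : Tre :=
  (.N [0,1,0,0,6] 0 ⟨0,[(1,0)]⟩ ⟨0,[(0,0)]⟩ (.x (-1) ⟨3,[(16,0),(6,19),(12,1),(1,0)]⟩ ⟨89,[(16,12),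
  (21,12),(7,49),(2,75),(0,37)]⟩))

theorem ok219 : chk K t219 l224 = true := by decide +kernel

noncomputable def t220 : Tre :=
  (.N [0,1,0,0,7] 0 ⟨0,[(1,0)]⟩ ⟨0,[(0,0)]⟩ (.x (-1) ⟨3,[(18,0),(6,23),(12,1),(1,0)]⟩ ⟨14,[(18,1),
  (21,1),(7,9),(2,13),(0,6)]⟩))

theorem ok220 : chk K t220 l226 = true := by decide +kernel

noncomputable def t221 : Tre :=
  (.N [0,0,1,-2] 0 ⟨0,[(18,0)]⟩ ⟨0,[(33,0)]⟩ (.i 0 ⟨0,[(0,0)]⟩ ⟨0,[(21,0),(25,1)]⟩))

theorem ok221 : chk K t221 l227 = true := by decide +kernel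

noncomputable def t222 : Tre :=
  (.N [0,0,1,-2] 0 ⟨0,[(19,0)]⟩ ⟨0,[(34,0)]⟩ (.i 1 ⟨1,[(29,1),(17,2),(19,0)]⟩ ⟨0,[(0,0)]⟩))

theorem ok222 : chk K t222 l228 = true := by decide +kernel

open Helper55.PC in
noncomputable def t223n : Helper55.PC.Ten :=
  (r
  1343973191260715580989432391940911229784987505508016346730729915127962942900513212022684898367648542905851643142881197348043386097023131041357616227425221614504485418956168643203152570785921733059546396560445514358546534775041664798523792535671721585458463929199553207155552138230915801184438777724894948186521248733387221924130604274053345117323840188999287535482736448342521237788499528480539039923741715305706103535388958452248841204167238527811194081569592932893792354897277057765728052021097716114446394904200212545093869821810703136387361702619833394729877483374846099991542831397149880379009637857921167257781857983868409486639038793707468104512)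

noncomputable def t223 : Tre := Helper55.PC.toT t223n

theorem ok223 : chk K t223 r228 = true :=
  Helper55.PC.chkN_sound K t223n r228 (by decide +kernel)

noncomputable def t224 : Tre :=
  (.N [0,1,2,1,-1] 0 ⟨0,[(1,0)]⟩ ⟨0,[(0,0)]⟩ (.x (-1) ⟨3,[(17,1),(1,0),(1,4),(19,0),(7,1),(7,4),(13,
  4),(0,4)]⟩ ⟨2,[(1,0),(14,0),(1,0),(3,1),(1,0),(2,0),(0,6),(5,0),(13,1),(4,1),(28,0)]⟩))

theorem ok224 : chk K t224 l230 = true := by decide +kernel

noncomputable def t225 : Tre :=
  (.N [0,0,1,-2] 0 ⟨0,[(21,0)]⟩ ⟨0,[(36,0)]⟩ (.i 1 ⟨1,[(31,1),(17,2),(19,0)]⟩ ⟨0,[(0,0)]⟩))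

theorem ok225 : chk K t225 l233 = true := by decide +kernel

open Helper55.PC in
noncomputable def t226n : Helper55.PC.Ten :=
  (r
  312918143174779862000021926281936255817358402765739249898914527775750023203167304042542667074775568746672930691154585074460497627103869938539775260728256263429645707953864474733021272871077734319671638334358551178302462735073021822959595523830992551315673639908349165536455428123363208367500584743754903977095052639192633341200789643734545552633711315206480303656573484025110930039082216133935476677778427667468142498449595851474218218668370794430159205215567651551097502421963020700938912586058148297517677532385116584945771962050053423578951565285775079562642060833323874013605583009905864080526743877863242720150749986297265306646618579776)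

noncomputable def t226 : Tre := Helper55.PC.toT t226n

theorem ok226 : chk K t226 r233 = true :=
  Helper55.PC.chkN_sound K t226n r233 (by decide +kernel)

noncomputable def t227 : Tre :=
  (.N [0,0,1,-2] 0 ⟨0,[(21,0)]⟩ ⟨0,[(36,0)]⟩ (.i 1 ⟨1,[(31,1),(17,2),(19,0)]⟩ ⟨0,[(0,0)]⟩))

theorem ok227 : chk K t227 l234 = true := by decide +kernel

open Helper55.PC in
noncomputable def t228n : Helper55.PC.Ten :=
  (r
  88078627062462881417755841309169358883536508616025442063444161507893573814114368518829463815505645031047819829377998479376879593212918142144732511601802201958808886478675312364391281344746022055232569088724820980449367965263288133321081795657210373021395848764826589811701603339568652842962030476348873298493019532081944857449372115875618124856480584427332682201557294777382855259564140487078701036533013509085443236586286530344948394274391892266670095647544614760032580459707976814813266028447902824429958091338566263946978755548363788711959867318536034206661109252448749522253825230789601459067434240875535238301899290661166450877926605928821691229938496)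

noncomputable def t228 : Tre := Helper55.PC.toT t228n

theorem ok228 : chk K t228 r234 = true :=
  Helper55.PC.chkN_sound K t228n r234 (by decide +kernel)

noncomputable def t229 : Tre :=
  (.N [0,0,1,-2] 0 ⟨0,[(20,0)]⟩ ⟨0,[(35,0)]⟩ (.i 1 ⟨1,[(30,1),(17,2),(19,0)]⟩ ⟨0,[(0,0)]⟩))

theorem ok229 : chk K t229 l235 = true := by decide +kernel

noncomputable def t230 : Tre :=
  (.N [0,0,1,-2] 0 ⟨0,[(21,0)]⟩ ⟨0,[(36,0)]⟩ (.i 0 ⟨0,[(0,0)]⟩ ⟨0,[(24,0),(25,1)]⟩))

theorem ok230 : chk K t230 l236 = true := by decide +kernel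

open Helper55.PC in
noncomputable def t231n : Helper55.PC.Ten :=
  (r
  312918143174779862000021926281936255817358402765739249898914527775750023203167304042542667074775568746672930691154585074460497627103869938539775260728256263429645707953864474733021272871077734319671638334358551178302462735073021822959595523830992551315673639908349165535558745694407220734258558562960820851558825055788586873321920252893118120567086889838841927544082725349417212487007610458929640650326206702095202724230141859267471066122319668090566102229713769398366183714298409950108007153250497960184184276190431835495274257583367820145118928694411355148617504097565343790383870755439680531213463841043828657509031475452493861316899119936)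

noncomputable def t231 : Tre := Helper55.PC.toT t231n

theorem ok231 : chk K t231 r236 = true :=
  Helper55.PC.chkN_sound K t231n r236 (by decide +kernel)

noncomputable def t232 : Tre :=
  (.N [0,-2,0,0,2] (-1) ⟨0,[(1,0)]⟩ ⟨0,[(0,0)]⟩ (.x 0 ⟨4,[(20,1),(6,7),(1,3),(12,1),(11,1),(18,3)]⟩
  ⟨8,[(40,4),(9,3)]⟩))

theorem ok232 : chk K t232 l238 = true := by decide +kernel

noncomputable def t233 : Tre :=
  (.N [0,0,1,-2] 0 ⟨0,[(20,0)]⟩ ⟨0,[(35,0)]⟩ (.i 1 ⟨1,[(30,1),(17,2),(19,0)]⟩ ⟨0,[(0,0)]⟩))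

theorem ok233 : chk K t233 l239 = true := by decide +kernel

open Helper55.PC in
noncomputable def t234n : Helper55.PC.Ten :=
  (r
  2211514011137040220787162851634296098417188468797143511966480370113525483337276698231298644563860895650624465348088568925073506087740368744308047082614170196746023955794158497508877622854871155114638611512960025653601248588017336758937755205416875891387981519634774137401654186930357342480396230475616821202371993507495329930239754860821426718378386818209908726765186360470843241658689136466128859310912974850792734961989303597591187778224949445453141816960850477869004234137371698778686212051413946200409582457579826596373782249108466460673458225422085929154993248011084480423951660046394444650665197878545675549581181904595678718712339703719616250840964506782039061970723190355670399831808518442192132439095386944)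

noncomputable def t234 : Tre := Helper55.PC.toT t234n

theorem ok234 : chk K t234 r239 = true :=
  Helper55.PC.chkN_sound K t234n r239 (by decide +kernel)

noncomputable def t235 : Tre :=
  (.N [0,0,1,-2] 0 ⟨0,[(19,0)]⟩ ⟨0,[(34,0)]⟩ (.i 1 ⟨1,[(29,1),(17,2),(19,0)]⟩ ⟨0,[(0,0)]⟩))

theorem ok235 : chk K t235 l240 = true := by decide +kernel

open Helper55.PC in
noncomputable def t236n : Helper55.PC.Ten :=
  (r
  1343973191260715580992843708793068753453577073656185400323814396794390479930033572660958539322507878358597931574521695394097601487429548583577302653612439630972681223204525945249878351865742536402220346485429785044140335205709598581665264356431185612853428859938548166906083566103898488026261391980252135895187069336706751445699478538576173258131288604376418856992876764902923266306981128640757428882740723357335217432667234602653963140438215302769410318250831871134779683133503002467072025583730432830741969295296245907248942051444762060389593055354678133524120703261283898087314093984493891066379054569955179204553885008898007067636161835431140533056)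

noncomputable def t236 : Tre := Helper55.PC.toT t236n

theorem ok236 : chk K t236 r240 = true :=
  Helper55.PC.chkN_sound K t236n r240 (by decide +kernel)

noncomputable def t237 : Tre :=
  (.N [0,0,1,-2] 0 ⟨0,[(15,0)]⟩ ⟨0,[(30,0)]⟩ (.i 0 ⟨0,[(0,0)]⟩ ⟨0,[(18,0),(25,1)]⟩))

theorem ok237 : chk K t237 l241 = true := by decide +kernel

noncomputable def t238 : Tre :=
  (.N [0,0,1,-2] 0 ⟨0,[(16,0)]⟩ ⟨0,[(31,0)]⟩ (.i 1 ⟨1,[(26,1),(17,2),(19,0)]⟩ ⟨0,[(0,0)]⟩))

theorem ok238 : chk K t238 l242 = true := by decide +kernel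

open Helper55.PC in
noncomputable def t239n : Helper55.PC.Ten :=
  (r
  312918143174774309982243107927655336936641235539858056650923296958138500536301176466721823543120792972707565798443385345044505271659666670425795507750041876994671998961634564455612876099892089545879321434885704976225910630855687037896372639120048156781482337890849533058337845668405283841988314316514856917886086782032693339661328917738627795031634205912006511423098317354714105389696633399556444833538546036941359823302921314243471226214943616719582395218662792121775564618536714114839772502381690466268605241567409265882461805354842766352016571709878178007941973709256042820226713512585064635245941050969114015518651558076620507503307006784)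

noncomputable def t239 : Tre := Helper55.PC.toT t239n

theorem ok239 : chk K t239 r242 = true :=
  Helper55.PC.chkN_sound K t239n r242 (by decide +kernel)

noncomputable def t240 : Tre :=
  (.N [0,1,2,1,-1] 0 ⟨0,[(1,0)]⟩ ⟨0,[(0,0)]⟩ (.x (-1) ⟨3,[(13,1),(1,0),(1,4),(19,0),(7,1),(7,4),(13,
  4),(0,4)]⟩ ⟨2,[(1,0),(10,0),(1,0),(3,1),(1,0),(2,0),(0,6),(5,0),(13,1),(4,1),(28,0)]⟩))

theorem ok240 : chk K t240 l244 = true := by decide +kernel

noncomputable def t241 : Tre :=
  (.N [0,1,0,0,7] 0 ⟨0,[(1,0)]⟩ ⟨0,[(0,0)]⟩ (.x (-1) ⟨3,[(17,0),(6,23),(12,1),(1,0)]⟩ ⟨14,[(17,1),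
  (21,1),(7,9),(2,13),(0,6)]⟩))

theorem ok241 : chk K t241 l246 = true := by decide +kernel

noncomputable def t242 : Tre :=
  (.N [0,0,1,-2] 0 ⟨0,[(17,0)]⟩ ⟨0,[(32,0)]⟩ (.i 1 ⟨1,[(27,1),(17,2),(19,0)]⟩ ⟨0,[(0,0)]⟩))

theorem ok242 : chk K t242 l247 = true := by decide +kernel

noncomputable def t243 : Tre :=
  (.N [0,0,1,-2] 0 ⟨0,[(18,0)]⟩ ⟨0,[(33,0)]⟩ (.i 0 ⟨0,[(0,0)]⟩ ⟨0,[(21,0),(25,1)]⟩))

theorem ok243 : chk K t243 l248 = true := by decide +kernel

open Helper55.PC in
noncomputable def t244n : Helper55.PC.Ten :=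
  (r
  85654256397333333424213040251040409993629419020796341845002341663524336436362130916503859901110673293888627566443530041770029485857282653744475552697067687999522524571958601354330607427518391720510401785897985062181970871752853428651175377953035746537317321266603601746446475124493162851887407152669381455646481908774857958383220904255322287680863168411942535435719924531861702091474440672619436230191493342913024478990389140489787124138953035527202901049177930270949188453974699856996500778339311792805575985868542791462917630425247564781127580890702396764546639494633364955337874232670158592036829483172997155018472604646465566666134030828660108735615262839233826915099605459587066781504)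

noncomputable def t244 : Tre := Helper55.PC.toT t244n

theorem ok244 : chk K t244 r248 = true :=
  Helper55.PC.chkN_sound K t244n r248 (by decide +kernel)

noncomputable def t245 : Tre :=
  (.N [0,-1,0,0,8] (-1) ⟨0,[(1,0)]⟩ ⟨0,[(0,0)]⟩ (.x 0 ⟨4,[(18,0),(6,38),(1,1),(12,0),(11,0),(18,
  1)]⟩ ⟨4,[(18,0),(21,0),(7,4),(2,1),(0,0)]⟩))

theorem ok245 : chk K t245 l250 = true := by decide +kernel

noncomputable def t246 : Tre :=
  (.N [0,0,1,-2] 0 ⟨0,[(18,0)]⟩ ⟨0,[(33,0)]⟩ (.i 0 ⟨0,[(0,0)]⟩ ⟨0,[(21,0),(25,1)]⟩))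

theorem ok246 : chk K t246 l251 = true := by decide +kernel

noncomputable def t247 : Tre :=
  (.N [0,0,1,-2] 0 ⟨0,[(19,0)]⟩ ⟨0,[(34,0)]⟩ (.i 1 ⟨1,[(29,1),(17,2),(19,0)]⟩ ⟨0,[(0,0)]⟩))

theorem ok247 : chk K t247 l252 = true := by decide +kernel

open Helper55.PC in
noncomputable def t248n : Helper55.PC.Ten :=
  (r
  5772320903165526429941438544507206674863893266079917496241003819987200401359311631477367872470006830219389538630243382950877169350822898457928569903081534496637357977587991776179861607542292302066758220534357186035470034536454069102169605956615720320354802439774722176988574509630332483365263513960478072503533216325311873966690608148621251203072563059856423806675320947888262444998507386449999937108489971092710299253225914198123897391170799722228746716100625037026467342502361714456783493330751757856328631048041515357024221854578000399747340966378814319873334387678673406672250955855108450118308624767803891196284815469668880541733047682023790096105206981440)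

noncomputable def t248 : Tre := Helper55.PC.toT t248n

theorem ok248 : chk K t248 r252 = true :=
  Helper55.PC.chkN_sound K t248n r252 (by decide +kernel)

noncomputable def t249 : Tre :=
  (.N [0,0,1,-2] 0 ⟨0,[(17,0)]⟩ ⟨0,[(32,0)]⟩ (.i 1 ⟨1,[(27,1),(17,2),(19,0)]⟩ ⟨0,[(0,0)]⟩))

theorem ok249 : chk K t249 l253 = true := by decide +kernel

noncomputable def t250 : Tre :=
  (.N [0,0,1,-2] 0 ⟨0,[(18,0)]⟩ ⟨0,[(33,0)]⟩ (.i 0 ⟨0,[(0,0)]⟩ ⟨0,[(21,0),(25,1)]⟩))

theorem ok250 : chk K t250 l254 = true := by decide +kernel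

open Helper55.PC in
noncomputable def t251n : Helper55.PC.Ten :=
  (r
  88078627062461943765042587294609151297732186340684928576005524197224804128564550618264213447388872024906039074996754260345110481398779315969932942359359014589727014541427454580674504311490286061750317051446085868153686261603132097622334381157949132404132348945192755333116161129110725167507932504089387531834695883577781858062052549309145479301960168644227891052402410509810172959403618979145896814228430402430831978908819147517920120564906999886229287147121888799265868286969735321858756405659052822720598658256595823208974683387602103182205839380968865470127644660637856372613569546364070385472733796159209416569717977674783196912242608047253603848823616)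

noncomputable def t251 : Tre := Helper55.PC.toT t251n

theorem ok251 : chk K t251 r254 = true :=
  Helper55.PC.chkN_sound K t251n r254 (by decide +kernel)

noncomputable def t252 : Tre :=
  (.N [0,0,0,1,-2] 0 ⟨0,[(1,0)]⟩ ⟨0,[(0,0)]⟩ (.x 0 ⟨31,[(14,15),(3,2),(27,9),(7,2),(13,2),(0,12)]⟩
  ⟨17,[(13,8),(2,7),(6,26),(1,8),(12,7),(11,3),(7,0),(1,0)]⟩))

theorem ok252 : chk K t252 l256 = true := by decide +kernel

noncomputable def t253 : Tre :=
  (.N [0,0,1,-2] 0 ⟨0,[(16,0)]⟩ ⟨0,[(31,0)]⟩ (.i 1 ⟨1,[(26,1),(17,2),(19,0)]⟩ ⟨0,[(0,0)]⟩))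

theorem ok253 : chk K t253 l257 = true := by decide +kernel

open Helper55.PC in
noncomputable def t254n : Helper55.PC.Ten :=
  (r
  537657746966187890431970783966671024590580721317568028037026049752337596683162610714715854664202878533494644266017210194555421929655151761715210783028938742626578879150324191188944148181386435045183361706673201136765827574314394682540088744397199543224571739973780042509794917549793616341853692622440352105420110081003067374300365438278260241642796911969524590453726267106766241453912514794341083550398634869459388276655483773995208537748573769027199136394721092900161321009042980416201900252930092006644394164288036686155075157711857499199915971139994917950756036383027217984543646190377554440879726307534851704274751596796157324200560324297082705257905789795557778378497599740478860462281778496818919172337698017574414809238962387323327837658944)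

noncomputable def t254 : Tre := Helper55.PC.toT t254n

theorem ok254 : chk K t254 r257 = true :=
  Helper55.PC.chkN_sound K t254n r257 (by decide +kernel)

noncomputable def t255 : Tre :=
  (.N [0,0,1,-2] 0 ⟨0,[(15,0)]⟩ ⟨0,[(30,0)]⟩ (.i 1 ⟨1,[(25,1),(17,2),(19,0)]⟩ ⟨0,[(0,0)]⟩))

theorem ok255 : chk K t255 l258 = true := by decide +kernel

open Helper55.PC in
noncomputable def t256n : Helper55.PC.Ten :=
  (r
  1081100460121639929392091246986532867115067877408731363259236385457921166256144218637356870043053763598479068335567650250132104748130736246256473509407813806978702198435316699790510492000826461479658226184670547358040152876945450222590309399996195467375478274775396172742737800272843319092576782187817137428947151277010904369313027727236312909891850471650477369916167779988259398519187838681841441660488594091793085192730894737902424060563771854460843200225702845151771978546628901430173883086738419179428911212068485909250429980179282070677115665794081750815395167386641418180928001436118038266727013181901997775227455473026806671995190553784835709903286067008)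

noncomputable def t256 : Tre := Helper55.PC.toT t256n

theorem ok256 : chk K t256 r258 = true :=
  Helper55.PC.chkN_sound K t256n r258 (by decide +kernel)

noncomputable def t257 : Tre :=
  (.N [0,-1,2,0,2] (-1) ⟨0,[(1,0)]⟩ ⟨0,[(0,0)]⟩ (.x 0 ⟨3,[(11,0),(1,1),(17,1),(1,0),(15,1),(13,1),
  (0,5)]⟩ ⟨74,[(12,23),(7,125),(20,38),(3,66),(0,3),(6,15),(22,15)]⟩))

theorem ok257 : chk K t257 l260 = true := by decide +kernel

noncomputable def t258 : Tre :=
  (.N [0,1,2,1,-1] 0 ⟨0,[(2,0)]⟩ ⟨0,[(0,0)]⟩ (.x (-1) ⟨3,[(12,1),(1,0),(1,4),(19,0),(7,1),(7,4),(13,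
  4),(0,4)]⟩ ⟨2,[(2,0),(8,0),(1,0),(3,1),(1,0),(2,0),(0,6),(5,0),(13,1),(4,1),(28,0)]⟩))

theorem ok258 : chk K t258 l263 = true := by decide +kernel

noncomputable def t259 : Tre :=
  (.N [0,1,0,0,6] 0 ⟨0,[(0,0)]⟩ ⟨0,[(2,0)]⟩ (.x (-1) ⟨3,[(15,0),(6,19),(12,1),(1,0)]⟩ ⟨89,[(15,12),
  (21,12),(7,49),(2,75),(0,37)]⟩))

theorem ok259 : chk K t259 l264 = true := by decide +kernel

noncomputable def t260 : Tre :=
  (.N [0,-4,0,0,3] (-2) ⟨0,[(1,0)]⟩ ⟨0,[(0,0)]⟩ (.x 1 ⟨9,[(17,2),(6,21),(1,15),(12,2),(11,7),(18,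
  15)]⟩ ⟨8,[(37,10),(9,6)]⟩))

theorem ok260 : chk K t260 l266 = true := by decide +kernel

noncomputable def t261 : Tre :=
  (.N [0,0,1,-2] 0 ⟨0,[(17,0)]⟩ ⟨0,[(32,0)]⟩ (.i 1 ⟨1,[(27,1),(17,2),(19,0)]⟩ ⟨0,[(0,0)]⟩))

theorem ok261 : chk K t261 l267 = true := by decide +kernel

noncomputable def t262 : Tre :=
  (.N [0,0,1,-2] 0 ⟨0,[(18,0)]⟩ ⟨0,[(33,0)]⟩ (.i 0 ⟨0,[(0,0)]⟩ ⟨0,[(21,0),(25,1)]⟩))

theorem ok262 : chk K t262 l268 = true := by decide +kernel

open Helper55.PC in
noncomputable def t263n : Helper55.PC.Ten :=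
  (r
  72856932686356951200866606681416407026994510484704883915146100312916522679811081868018350166075679607933329485710976303409050487861847230090399105562759639212848679530277557765414148651355083814235265068921792479582879566661743054139983427016099190315976585610724080997872669892663285428825379194560232883278762241944387987909620279824375566570970386503084459850571800553831818032147820031785709375070105466398261250771781785911874570135699910770728941132574834389992144160959810576961021395307356203926062597732212440320190976577400215016938686344812587095585169794704103806161653424963605296242601426426355748422629533734905586496)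

noncomputable def t263 : Tre := Helper55.PC.toT t263n

theorem ok263 : chk K t263 r268 = true :=
  Helper55.PC.chkN_sound K t263n r268 (by decide +kernel)

noncomputable def t264 : Tre :=
  (.N [0,0,1,-2] 0 ⟨0,[(16,0)]⟩ ⟨0,[(31,0)]⟩ (.i 1 ⟨1,[(26,1),(17,2),(19,0)]⟩ ⟨0,[(0,0)]⟩))

theorem ok264 : chk K t264 l269 = true := by decide +kernel

noncomputable def t265 : Tre :=
  (.N [0,0,1,-2] 0 ⟨0,[(17,0)]⟩ ⟨0,[(32,0)]⟩ (.i 0 ⟨0,[(0,0)]⟩ ⟨0,[(20,0),(25,1)]⟩))

theorem ok265 : chk K t265 l270 = true := by decide +kernel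

open Helper55.PC in
noncomputable def t266n : Helper55.PC.Ten :=
  (r
  1111708567601878245007599429219940205505081193925311284825511813892351987618901980689115351158399401669722531922847312605683367753445026773785867527543283692161331876758302235629863869871230433078102833389473991432904781687615356785519448688630598624398264669460256618200538241133585400645510996817156246786952356244206344471045598731518285617093731724969717036346724672397702654780878092385706195606980639441625963434002316818170887504827806761689205350120295535674037018292652452325908031448634542762709844421397737086081875685758677970392499482254804116569749542807516237967697500355668067040303173640334203563611115175027520)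

noncomputable def t266 : Tre := Helper55.PC.toT t266n

theorem ok266 : chk K t266 r270 = true :=
  Helper55.PC.chkN_sound K t266n r270 (by decide +kernel)

noncomputable def t267 : Tre :=
  (.N [0,1,2,1,-1] 0 ⟨0,[(2,0)]⟩ ⟨0,[(0,0)]⟩ (.x (-1) ⟨3,[(12,1),(1,0),(1,4),(19,0),(7,1),(7,4),(13,
  4),(0,4)]⟩ ⟨2,[(2,0),(8,0),(1,0),(3,1),(1,0),(2,0),(0,6),(5,0),(13,1),(4,1),(28,0)]⟩))

theorem ok267 : chk K t267 l271 = true := by decide +kernel

noncomputable def t268 : Tre :=
  (.N [0,-4,0,0,3] (-2) ⟨0,[(0,0)]⟩ ⟨0,[(1,0)]⟩ (.x 1 ⟨9,[(16,2),(6,21),(1,15),(12,2),(11,7),(18,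
  15)]⟩ ⟨8,[(36,10),(9,6)]⟩))

theorem ok268 : chk K t268 l273 = true := by decide +kernel

noncomputable def t269 : Tre :=
  (.N [0,0,1,-2] 0 ⟨0,[(16,0)]⟩ ⟨0,[(31,0)]⟩ (.i 1 ⟨1,[(26,1),(17,2),(19,0)]⟩ ⟨0,[(0,0)]⟩))

theorem ok269 : chk K t269 l274 = true := by decide +kernel

noncomputable def t270 : Tre :=
  (.N [0,0,1,-2] 0 ⟨0,[(17,0)]⟩ ⟨0,[(32,0)]⟩ (.i 0 ⟨0,[(0,0)]⟩ ⟨0,[(20,0),(25,1)]⟩))

theorem ok270 : chk K t270 l275 = true := by decide +kernel

open Helper55.PC in
noncomputable def t271n : Helper55.PC.Ten :=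
  (r
  72856932686356692664448203758078117718246963442951020306559297254360705887871716602797991430947521829054491865521144433492991752664199622699883034063744815855062360563562273596851545900420446334750117765181626207498004025172002520402752054626224330929818641962911529179334736717767733649635922148484126520358221530535707785324642650167792465357664080535875249865768778371656609656611966150648299048753938917202579217438216037314331902207882185920269860707405266852937009964619621763291715196945571379101354083006202368586975167163178773495892916939804354286403355179795454409257871071019238687802772528474111857551634998064232801088)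

noncomputable def t271 : Tre := Helper55.PC.toT t271n

theorem ok271 : chk K t271 r275 = true :=
  Helper55.PC.chkN_sound K t271n r275 (by decide +kernel)

noncomputable def t272 : Tre :=
  (.N [0,0,1,-2] 0 ⟨0,[(15,0)]⟩ ⟨0,[(30,0)]⟩ (.i 1 ⟨1,[(25,1),(17,2),(19,0)]⟩ ⟨0,[(0,0)]⟩))

theorem ok272 : chk K t272 l276 = true := by decide +kernel

noncomputable def t273 : Tre :=
  (.N [0,0,1,-2] 0 ⟨0,[(16,0)]⟩ ⟨0,[(31,0)]⟩ (.i 0 ⟨0,[(0,0)]⟩ ⟨0,[(19,0),(25,1)]⟩))

theorem ok273 : chk K t273 l277 = true := by decide +kernel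

open Helper55.PC in
noncomputable def t274n : Helper55.PC.Ten :=
  (r
  20507403431102009178892185745039569735650276957031165457757061416113613032660586728325107280536052612937179966172772409048052836349746325277117579968861190705983844958661174082724651406140659868652873791313008717740397671522004229914788466323353021011686474071433608528059743684426153070797077538297426551224847149579452226424503783323435149108748060033263293879880129858232951514377894289836885910804638059897460948583282342552626865671256902648107902440593272137464955962516976882095600301324235265602526533672503220741408038453829852061727658250137748784470874578121101197477494327282349779682477961174577824865142163961669676051831143679664960)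

noncomputable def t274 : Tre := Helper55.PC.toT t274n

theorem ok274 : chk K t274 r277 = true :=
  Helper55.PC.chkN_sound K t274n r277 (by decide +kernel)

noncomputable def t275 : Tre :=
  (.N [0,1,0,0,6] 0 ⟨0,[(0,0)]⟩ ⟨0,[(1,0)]⟩ (.x (-1) ⟨3,[(14,0),(6,19),(12,1),(1,0)]⟩ ⟨89,[(14,12),
  (21,12),(7,49),(2,75),(0,37)]⟩))

theorem ok275 : chk K t275 l279 = true := by decide +kernel

noncomputable def t276 : Tre :=
  (.N [0,0,1,-2] 0 ⟨0,[(14,0)]⟩ ⟨0,[(29,0)]⟩ (.i 1 ⟨1,[(24,1),(17,2),(19,0)]⟩ ⟨0,[(0,0)]⟩))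

theorem ok276 : chk K t276 l280 = true := by decide +kernel

noncomputable def t277 : Tre :=
  (.N [0,0,1,-2] 0 ⟨0,[(15,0)]⟩ ⟨0,[(30,0)]⟩ (.i 0 ⟨0,[(0,0)]⟩ ⟨0,[(18,0),(25,1)]⟩))

theorem ok277 : chk K t277 l281 = true := by decide +kernel

open Helper55.PC in
noncomputable def t278n : Helper55.PC.Ten :=
  (r
  2673556388503035065515370591488212028673018851206372157203762732351703811016984927293215323558477902729540492918111873273756845342617270510721815987412064623324289237478418607859053941985310734792203760523181369455195046502855813345441750148096759594958463722862755827194145871485832466773992862275932819394623181044373550682820548519072179792266142728573155671135154129500469789463690614540265801565896770099968378264332160125208557281286037156447308612946276451988208532515829293983398737119948428716513668499355896990370624635496836184549827869473635284012409819909425744545753434737288496032583633232457965656897067141992224009618031396461969717004098705025148054147637034155566573758017448130852890211739404205522575727921452080702272)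

noncomputable def t278 : Tre := Helper55.PC.toT t278n

theorem ok278 : chk K t278 r281 = true :=
  Helper55.PC.chkN_sound K t278n r281 (by decide +kernel)

noncomputable def t279 : Tre :=
  (.N [0,3,0,0,5] 1 ⟨0,[(1,0)]⟩ ⟨0,[(0,0)]⟩ (.x (-2) ⟨3,[(15,0),(6,7),(12,5),(1,0)]⟩ ⟨89,[(15,6),
  (21,6),(7,19),(2,123),(0,61)]⟩))

theorem ok279 : chk K t279 l283 = true := by decide +kernel

noncomputable def t280 : Tre :=
  (.N [0,1,0,0,7] 0 ⟨0,[(1,0)]⟩ ⟨0,[(0,0)]⟩ (.x (-1) ⟨3,[(17,0),(6,23),(12,1),(1,0)]⟩ ⟨14,[(17,1),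
  (21,1),(7,9),(2,13),(0,6)]⟩))

theorem ok280 : chk K t280 l285 = true := by decide +kernel

noncomputable def t281 : Tre :=
  (.N [0,0,1,-2] 0 ⟨0,[(17,0)]⟩ ⟨0,[(32,0)]⟩ (.i 0 ⟨0,[(0,0)]⟩ ⟨0,[(20,0),(25,1)]⟩))

theorem ok281 : chk K t281 l286 = true := by decide +kernel

noncomputable def t282 : Tre :=
  (.N [0,0,1,-2] 0 ⟨0,[(18,0)]⟩ ⟨0,[(33,0)]⟩ (.i 1 ⟨1,[(28,1),(17,2),(19,0)]⟩ ⟨0,[(0,0)]⟩))

theorem ok282 : chk K t282 l287 = true := by decide +kernel

open Helper55.PC in
noncomputable def t283n : Helper55.PC.Ten :=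
  (r
  125183835969063632632598414098109931716737495338653624377730964118499239439580066050396922666022227550260699900554835777738772049067051066215043670838231475731954409310959089588219870257261321166235096319040998516443219252131600122679802543135135220691271840840074008048870583750886316927998342843417729368734870403585053922580004734207194235800895610173303188002170494289271389724547759187811549607894686015351809051696180337002881819170832161053283436163981861282030521594055824293931537904898097478620655812149121024729823733633639901454897105354705327584183978825155180757697011226667061415162723318370556149571450394058822329860177041685919948654444212544879858122883846538125861613013464209992758884510360371045654621924125101547328)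

noncomputable def t283 : Tre := Helper55.PC.toT t283n

theorem ok283 : chk K t283 r287 = true :=
  Helper55.PC.chkN_sound K t283n r287 (by decide +kernel)

noncomputable def t284 : Tre :=
  (.N [0,0,1,-2] 0 ⟨0,[(16,0)]⟩ ⟨0,[(31,0)]⟩ (.i 1 ⟨1,[(26,1),(17,2),(19,0)]⟩ ⟨0,[(0,0)]⟩))

theorem ok284 : chk K t284 l288 = true := by decide +kernel

noncomputable def t285 : Tre :=
  (.N [0,0,1,-2] 0 ⟨0,[(17,0)]⟩ ⟨0,[(32,0)]⟩ (.i 0 ⟨0,[(0,0)]⟩ ⟨0,[(20,0),(25,1)]⟩))

theorem ok285 : chk K t285 l289 = true := by decide +kernel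

open Helper55.PC in
noncomputable def t286n : Helper55.PC.Ten :=
  (r
  312918143174775420384528137026889811413108850438782193946504075992221825175883665852397595290407848548035145164311345338344846622890458249511536854329037963387035114661060094357881678209348689657474824133603692061300437273390111599959392823016439005303052338441838262767184058258368644349549575913664149083794040581896030324153369891731892840922973721841467690437612938377199571384918156770184692118309787770726271841277286954092949585467480098251294321877478045441274273751958963715172407511597697391019401324403821559081794148345919873875653336026738964442950507449008811688263162729424340895317692077405034449557203664608840802405481456448)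

noncomputable def t286 : Tre := Helper55.PC.toT t286n

theorem ok286 : chk K t286 r289 = true :=
  Helper55.PC.chkN_sound K t286n r289 (by decide +kernel)

noncomputable def t287 : Tre :=
  (.N [0,0,1,-2] 0 ⟨0,[(14,0)]⟩ ⟨0,[(29,0)]⟩ (.i 0 ⟨0,[(0,0)]⟩ ⟨0,[(17,0),(25,1)]⟩))

theorem ok287 : chk K t287 l290 = true := by decide +kernel

noncomputable def t288 : Tre :=
  (.N [0,0,1,-2] 0 ⟨0,[(15,0)]⟩ ⟨0,[(30,0)]⟩ (.i 1 ⟨1,[(25,1),(17,2),(19,0)]⟩ ⟨0,[(0,0)]⟩))

theorem ok288 : chk K t288 l291 = true := by decide +kernel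

open Helper55.PC in
noncomputable def t289n : Helper55.PC.Ten :=
  (r
  5772320903165444496577615185841287575104904499386411585366924833291188026406781302595094454885479806666746204279496471838580528482604342435885412559460422994763981827893655281468542125600813096431479703429254614100188170722384725378409943152704257389971208433985936942229276798502801424080066873041689762791019141658860461028989982152389718970037039559779197031279992321464186556858815664072249230049493320175519884452535030612746350464494526581007014935877744434416532412551160298768824682951955272833221448757546941151536316776287370170328933426209794953380154415187137152670774572849468944964716034044711648061050630630894885959780211114884671369824881091392)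

noncomputable def t289 : Tre := Helper55.PC.toT t289n

theorem ok289 : chk K t289 r291 = true :=
  Helper55.PC.chkN_sound K t289n r291 (by decide +kernel)

noncomputable def t290 : Tre :=
  (.N [0,1,2,1,-1] 0 ⟨0,[(1,0)]⟩ ⟨0,[(0,0)]⟩ (.x (-1) ⟨3,[(10,1),(1,0),(1,4),(19,0),(7,1),(7,4),(13,
  4),(0,4)]⟩ ⟨2,[(1,0),(7,0),(1,0),(3,1),(1,0),(2,0),(0,6),(5,0),(13,1),(4,1),(28,0)]⟩))

theorem ok290 : chk K t290 l293 = true := by decide +kernel

noncomputable def t291 : Tre :=
  (.N [0,0,1,-2] 0 ⟨0,[(12,0)]⟩ ⟨0,[(27,0)]⟩ (.i 1 ⟨1,[(22,1),(17,2),(19,0)]⟩ ⟨0,[(0,0)]⟩))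

theorem ok291 : chk K t291 l294 = true := by decide +kernel

open Helper55.PC in
noncomputable def t292n : Helper55.PC.Ten :=
  (r
  2309198950409354282121313073103400804020608272348529022667301361939881298059768033484837544913241192449434223610999236762871012148185879870765879086285455474782885873887454326597047145006599649627067029247256898307682404870410967917255862970802586184154774387377168983111321734904553039815370001121066698453351990697346678209876814041239353575386583820835180651812650938572579666486316774148141924371204945321029436023248738984748567779796503880051010281418080895588890068488905386085220766870325149628218758474902197187468263772909396788530797569385070127708113012956440360853008766898393001967306467230610856381180701249649268695590351428888572906044413611787338983063576720397910393736155610317970941920496677781896799599228398886352798638073953936236352)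

noncomputable def t292 : Tre := Helper55.PC.toT t292n

theorem ok292 : chk K t292 r294 = true :=
  Helper55.PC.chkN_sound K t292n r294 (by decide +kernel)

noncomputable def t293 : Tre :=
  (.N [0,0,1,-2] 0 ⟨0,[(11,0)]⟩ ⟨0,[(26,0)]⟩ (.i 1 ⟨1,[(21,1),(17,2),(19,0)]⟩ ⟨0,[(0,0)]⟩))

theorem ok293 : chk K t293 l295 = true := by decide +kernel

open Helper55.PC in
noncomputable def t294n : Helper55.PC.Ten :=
  (r
  1910119744843064252968561027583511442568392357846485636460928339187821166340356915749732179559053181130453618738680661738556012416297236488353542263362556463072149155899923073898615970937838108842718340292153272372337355234470283798753117636237142354811038928554689493364537175785447766925904915999377698714423525149770724899383388790698402423974017205338897787103824416071657213674975226667421815990589023614469735886951237370265281374386796632170246980049566249996248026970851919340640361730209638901456697255683522971044494615609831803588931348298461227025301888943274898407880454716691396091440323396000507599443727030554932715811942822116538699408505171403478024050744783783160280410089324827711916514762476409708003968839606080)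

noncomputable def t294 : Tre := Helper55.PC.toT t294n

theorem ok294 : chk K t294 r295 = true :=
  Helper55.PC.chkN_sound K t294n r295 (by decide +kernel)

noncomputable def t295 : Tre :=
  (.N [0,3,0,0,4] 1 ⟨0,[(1,0)]⟩ ⟨0,[(0,0)]⟩ (.x (-2) ⟨3,[(9,0),(6,3),(12,5),(1,0)]⟩ ⟨44,[(9,3),(21,
  3),(7,4),(2,57),(0,28)]⟩))

theorem ok295 : chk K t295 l297 = true := by decide +kernel

noncomputable def t296 : Tre :=
  (.N [0,1,1,1,2] 0 ⟨0,[(1,0)]⟩ ⟨0,[(0,0)]⟩ (.x (-1) ⟨3,[(9,1),(1,0),(1,3),(19,0),(15,3),(13,3),(0,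
  1)]⟩ ⟨13,[(8,6),(11,16),(20,2),(1,3),(0,2),(0,9),(29,3)]⟩))

theorem ok296 : chk K t296 l299 = true := by decide +kernel

noncomputable def t297 : Tre :=
  (.N [0,1,1,2,1] 0 ⟨0,[(1,0)]⟩ ⟨0,[(0,0)]⟩ (.x (-1) ⟨31,[(11,31),(1,7),(1,36),(19,7),(7,5),(7,36),
  (13,36),(0,26)]⟩ ⟨174,[(1,25),(4,8),(3,147),(7,36),(2,36),(0,322),(5,53),(7,16),(0,12),(5,27),(3,
  142),(16,1),(7,16),(3,53)]⟩))

theorem ok297 : chk K t297 l301 = true := by decide +kernel

noncomputable def t298 : Tre :=
  (.N [0,-1,2,2] (-1) ⟨0,[(1,0)]⟩ ⟨0,[(0,0)]⟩ (.x 0 ⟨31,[(13,31),(1,7),(1,34),(19,7),(7,9),(7,34),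
  (13,34),(0,60)]⟩ ⟨5,[(1,3),(10,2),(1,2),(1,8),(1,1),(4,8),(0,5),(19,1),(4,1),(28,5),(1,1),(2,
  3)]⟩))

theorem ok298 : chk K t298 l303 = true := by decide +kernel

noncomputable def t299 : Tre :=
  (.N [0,0,1,-2] 0 ⟨0,[(15,0)]⟩ ⟨0,[(30,0)]⟩ (.i 0 ⟨0,[(0,0)]⟩ ⟨0,[(18,0),(25,1)]⟩))

theorem ok299 : chk K t299 l304 = true := by decide +kernel

noncomputable def t300 : Tre :=
  (.N [0,1,2,1] 0 ⟨0,[(1,0)]⟩ ⟨0,[(0,0)]⟩ (.x (-1) ⟨15,[(16,7),(1,3),(1,20),(19,3),(7,5),(7,20),(13,
  20),(0,18)]⟩ ⟨92,[(1,32),(1,6),(7,6),(3,13),(5,17),(1,48),(2,61),(0,186),(5,48),(13,17),(4,59),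
  (28,64),(0,12),(3,15)]⟩))

theorem ok300 : chk K t300 l306 = true := by decide +kernel

noncomputable def t301 : Tre :=
  (.N [0,0,1,-2] 0 ⟨0,[(18,0)]⟩ ⟨0,[(33,0)]⟩ (.i 1 ⟨1,[(28,1),(17,2),(19,0)]⟩ ⟨0,[(0,0)]⟩))

theorem ok301 : chk K t301 l307 = true := by decide +kernel

open Helper55.PC in
noncomputable def t302n : Helper55.PC.Ten :=
  (r
  258839821350267666845148677106412965613561909507439421898613487498627693491407073928854937082061366307258148731631586643293881304540673355022625652674125757978203227423258862211981927786248646060371215733679908195635249047885877570706248170419954309519095909149830399257383598937338356745733208336864468095853095108439181018052816334429931676200154310185518673907038420376733780761401313047343276567652448525125743627181378427132738553899223336991226177585345597512255873673197091222323771154914547812704722949881298869923032192774617373823272826507622923995382659618900769125621824870092462776069475625338560867214144)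

noncomputable def t302 : Tre := Helper55.PC.toT t302n

theorem ok302 : chk K t302 r307 = true :=
  Helper55.PC.chkN_sound K t302n r307 (by decide +kernel)

noncomputable def t303 : Tre :=
  (.N [0,0,1,-2] 0 ⟨0,[(17,0)]⟩ ⟨0,[(32,0)]⟩ (.i 1 ⟨1,[(27,1),(17,2),(19,0)]⟩ ⟨0,[(0,0)]⟩))

theorem ok303 : chk K t303 l308 = true := by decide +kernel

open Helper55.PC in
noncomputable def t304n : Helper55.PC.Ten :=
  (r
  258839821350266748340592457702793579347000944175537462598677179775784138058943632982086854538454991232914466806357857675527893362780260665734496253210261939354321077619077169200392873153801440346571763268921826292117820858514069475698636450207145185955186578930560963751589265644393755817431359914454694467018882696285916130390197669849607462196259507037783522152412259190672726527853677293609267158531283481255123581113955785962998048942941270645619546852465633490651585335850231599034010327401706539780096979360324826120079502041975976717249417575984405152766304253521437547436921612106896527968734598168484522500928)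

noncomputable def t304 : Tre := Helper55.PC.toT t304n

theorem ok304 : chk K t304 r308 = true :=
  Helper55.PC.chkN_sound K t304n r308 (by decide +kernel)

noncomputable def t305 : Tre :=
  (.N [0,0,1,-2] 0 ⟨0,[(14,0)]⟩ ⟨0,[(29,0)]⟩ (.i 0 ⟨0,[(0,0)]⟩ ⟨0,[(17,0),(25,1)]⟩))

theorem ok305 : chk K t305 l309 = true := by decide +kernel

noncomputable def t306 : Tre :=
  (.N [0,0,1,-2] 0 ⟨0,[(15,0)]⟩ ⟨0,[(30,0)]⟩ (.i 1 ⟨1,[(25,1),(17,2),(19,0)]⟩ ⟨0,[(0,0)]⟩))

theorem ok306 : chk K t306 l310 = true := by decide +kernel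

open Helper55.PC in
noncomputable def t307n : Helper55.PC.Ten :=
  (r
  258839821350264911331480018895554806813879013511733543998804564330097027194016751088550689451242241084227102955810399739995917479259435287158237454282534302106556778010713783177214763888907028918972858339405662485082964479770453285683413009781526938795771182188877809347525408669451358910185726378248134730600990612126036403964791336074914840441228412443524508058598485698484902152141390694626201623917337680894623141070755264591759386159080630738468339398450646429426621762264386495713983148022569868915434026676537438882493707407110757721619283567769608131473011675778019104801923947137688738512463019317599240725312)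

noncomputable def t307 : Tre := Helper55.PC.toT t307n

theorem ok307 : chk K t307 r310 = true :=
  Helper55.PC.chkN_sound K t307n r310 (by decide +kernel)

noncomputable def t308 : Tre :=
  (.N [0,-3,0,0,8] (-2) ⟨0,[(1,0)]⟩ ⟨0,[(0,0)]⟩ (.x 1 ⟨9,[(14,0),(6,73),(1,11),(12,0),(11,5),(18,
  11)]⟩ ⟨35,[(14,8),(19,9),(1,8),(7,43)]⟩))

theorem ok308 : chk K t308 l312 = true := by decide +kernel

noncomputable def t309 : Tre :=
  (.N [0,-1,2,1,1] (-1) ⟨0,[(1,0)]⟩ ⟨0,[(0,0)]⟩ (.x 0 ⟨15,[(14,7),(1,3),(1,14),(19,3),(7,1),(7,14),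
  (13,14),(0,24)]⟩ ⟨362,[(1,83),(7,11),(3,27),(10,171),(0,581),(20,57),(3,290),(2,1),(5,1),(19,306),
  (0,171),(0,230),(2,75)]⟩))

theorem ok309 : chk K t309 l314 = true := by decide +kernel

noncomputable def t310 : Tre :=
  (.N [0,0,1,-2] 0 ⟨0,[(16,0)]⟩ ⟨0,[(31,0)]⟩ (.i 0 ⟨0,[(0,0)]⟩ ⟨0,[(19,0),(25,1)]⟩))

theorem ok310 : chk K t310 l315 = true := by decide +kernel

noncomputable def t311 : Tre :=
  (.N [0,0,1,-2] 0 ⟨0,[(17,0)]⟩ ⟨0,[(32,0)]⟩ (.i 1 ⟨1,[(27,1),(17,2),(19,0)]⟩ ⟨0,[(0,0)]⟩))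

theorem ok311 : chk K t311 l316 = true := by decide +kernel

open Helper55.PC in
noncomputable def t312n : Helper55.PC.Ten :=
  (r
  72856932686356692664818036193358001307981001125089203401470945195750486753497073086172154754429596751838326608568640346980399077547132493133658192355263567458713406665395939759919892159261177472955795029041447528309301515840515772815473468478909350079407775382511609767234151358817545195198727363467997135383830907765497498063532483448829504388791409483622422829164213043929955200991772731332793560738136042234430540197143556677253011323751075420710365676998255944539808333212809407564525393697237389010704641627102857715281090140864619489805847317851310498518903132186852261001668295440454208560143058284519820016208761159363601216)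

noncomputable def t312 : Tre := Helper55.PC.toT t312n

theorem ok312 : chk K t312 r316 = true :=
  Helper55.PC.chkN_sound K t312n r316 (by decide +kernel)

noncomputable def t313 : Tre :=
  (.N [0,0,1,-2] 0 ⟨0,[(15,0)]⟩ ⟨0,[(30,0)]⟩ (.i 1 ⟨1,[(25,1),(17,2),(19,0)]⟩ ⟨0,[(0,0)]⟩))

theorem ok313 : chk K t313 l317 = true := by decide +kernel

noncomputable def t314 : Tre :=
  (.N [0,0,1,-2] 0 ⟨0,[(16,0)]⟩ ⟨0,[(31,0)]⟩ (.i 0 ⟨0,[(0,0)]⟩ ⟨0,[(19,0),(25,1)]⟩))

theorem ok314 : chk K t314 l318 = true := by decide +kernel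

open Helper55.PC in
noncomputable def t315n : Helper55.PC.Ten :=
  (r
  24791929501112854965488430557688075398325083653155995792925464246770426262866487395917350018554125956259082623923548353035455456176122591137829610947280733929100182273835121106566942191428115882208143302394218344597337153637710215937784018665266392583409775367213632618914611326053324268913172484269328862029603221449131968825724226613083413600792246568103312282281776885899059126988834023508561965977096565649163573125104034173822871423942992383001798271887704668748642712760745972421061961728813802046058627151337445932423759749804506412582066188851207302324931888013317194049244261004859562470355157572398467101895718945541840735117544821518061102371514727364577993536)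

noncomputable def t315 : Tre := Helper55.PC.toT t315n

theorem ok315 : chk K t315 r318 = true :=
  Helper55.PC.chkN_sound K t315n r318 (by decide +kernel)

noncomputable def t316 : Tre :=
  (.N [0,-1,2,1,1] (-1) ⟨0,[(1,0)]⟩ ⟨0,[(0,0)]⟩ (.x 0 ⟨15,[(13,7),(1,3),(1,14),(19,3),(7,1),(7,14),
  (13,14),(0,24)]⟩ ⟨122,[(1,27),(6,3),(3,9),(1,1),(8,57),(0,197),(20,19),(3,98),(28,102),(0,57),(0,
  78),(2,23)]⟩))

theorem ok316 : chk K t316 l320 = true := by decide +kernel

noncomputable def t317 : Tre :=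
  (.N [0,0,1,-2] 0 ⟨0,[(15,0)]⟩ ⟨0,[(30,0)]⟩ (.i 0 ⟨0,[(0,0)]⟩ ⟨0,[(18,0),(25,1)]⟩))

theorem ok317 : chk K t317 l321 = true := by decide +kernel

noncomputable def t318 : Tre :=
  (.N [0,0,1,-2] 0 ⟨0,[(16,0)]⟩ ⟨0,[(31,0)]⟩ (.i 1 ⟨1,[(26,1),(17,2),(19,0)]⟩ ⟨0,[(0,0)]⟩))

theorem ok318 : chk K t318 l322 = true := by decide +kernel

open Helper55.PC in
noncomputable def t319n : Helper55.PC.Ten :=
  (r
  258839821350265829836036238299174193080439978843635503298740872052940582626480192035318771994848616158570784881084128707761905421019847976446366853746398120730438927814895476188803818521354234632772310804163744388600392669142261380691024729994336062359680305786393768224312313952875907100586844101254592346878267905156918859700235137759127005784332516534899439060083027087755913374834208123964737573925517466714044206206575526403932652596987493771185860699835648615639389044526777192541704960876075897497536837563152490682252873752733848601750996785914123114422252521126392019665256813838074007838774769907870877360960)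

noncomputable def t319 : Tre := Helper55.PC.toT t319n

theorem ok319 : chk K t319 r322 = true :=
  Helper55.PC.chkN_sound K t319n r322 (by decide +kernel)

noncomputable def t320 : Tre :=
  (.N [0,0,1,-2] 0 ⟨0,[(14,0)]⟩ ⟨0,[(29,0)]⟩ (.i 1 ⟨1,[(24,1),(17,2),(19,0)]⟩ ⟨0,[(0,0)]⟩))

theorem ok320 : chk K t320 l323 = true := by decide +kernel

noncomputable def t321 : Tre :=
  (.N [0,0,1,-2] 0 ⟨0,[(15,0)]⟩ ⟨0,[(30,0)]⟩ (.i 0 ⟨0,[(0,0)]⟩ ⟨0,[(18,0),(25,1)]⟩))

theorem ok321 : chk K t321 l324 = true := by decide +kernel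

open Helper55.PC in
noncomputable def t322n : Helper55.PC.Ten :=
  (r
  258839821350264911331480018895554806813879013511733543998804564330097027194016751088550689451242241084227102955810399739995917479259435287158237454282534302106556778010713783177214763888907028918972858339405662485082964479770453285683413009781526938904101521184400542613333023340954886205479008574448662195001272569444711847385105857729874684780777811049932022904913687906364124734437438949004869062905287967908214958666786977028670277510322327246721948124696357515622651406277788183193642535388825131399247798336110988064645195643112475731232493565706043089436476226870264506530074396316976001849571090077348956218176)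

noncomputable def t322 : Tre := Helper55.PC.toT t322n

theorem ok322 : chk K t322 r324 = true :=
  Helper55.PC.chkN_sound K t322n r324 (by decide +kernel)

noncomputable def t323 : Tre :=
  (.N [0,-1,2,0,2] (-1) ⟨0,[(1,0)]⟩ ⟨0,[(0,0)]⟩ (.x 0 ⟨3,[(12,0),(1,1),(17,1),(1,0),(15,1),(13,1),
  (0,5)]⟩ ⟨74,[(13,23),(7,125),(20,38),(3,66),(0,3),(6,15),(22,15)]⟩))

theorem ok323 : chk K t323 l326 = true := by decide +kernel

noncomputable def t324 : Tre :=
  (.N [0,0,1,-2] 0 ⟨0,[(12,0)]⟩ ⟨0,[(27,0)]⟩ (.i 1 ⟨1,[(22,1),(17,2),(19,0)]⟩ ⟨0,[(0,0)]⟩))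

theorem ok324 : chk K t324 l327 = true := by decide +kernel

open Helper55.PC in
noncomputable def t325n : Helper55.PC.Ten :=
  (r
  258839821350262155817811360684696648014196117516027666098995641161566360896626428271203358585521934568677829113350556319158941480944755695874887844153016249923235178364763769737923071888639049077213734619233106778041553307520499738649678833062386407299477715928326999797217315525241650346815268322449674518281786464107218525640162384084022654966134489743184558700602016298607275336269895300210558809147293162920426437450763118493158129694045702256906796328896698010625034710930835478292231819244748017121947725300287710867768409423106509500071913253020206091906919773391993007410844410639835722507910412488790006571840)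

noncomputable def t325 : Tre := Helper55.PC.toT t325n

theorem ok325 : chk K t325 r327 = true :=
  Helper55.PC.chkN_sound K t325n r327 (by decide +kernel)

noncomputable def t326 : Tre :=
  (.N [0,1,2,1,-1] 0 ⟨0,[(1,0)]⟩ ⟨0,[(0,0)]⟩ (.x (-1) ⟨3,[(11,1),(1,0),(1,4),(19,0),(7,1),(7,4),(13,
  4),(0,4)]⟩ ⟨2,[(1,0),(8,0),(1,0),(3,1),(1,0),(2,0),(0,6),(5,0),(13,1),(4,1),(28,0)]⟩))

theorem ok326 : chk K t326 l329 = true := by decide +kernel

noncomputable def t327 : Tre :=
  (.N [0,-3,0,0,8] (-2) ⟨0,[(1,0)]⟩ ⟨0,[(0,0)]⟩ (.x 1 ⟨9,[(15,0),(6,73),(1,11),(12,0),(11,5),(18,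
  11)]⟩ ⟨35,[(15,8),(19,9),(1,8),(7,43)]⟩))

theorem ok327 : chk K t327 l331 = true := by decide +kernel

noncomputable def t328 : Tre :=
  (.N [0,0,1,-2] 0 ⟨0,[(15,0)]⟩ ⟨0,[(30,0)]⟩ (.i 1 ⟨1,[(25,1),(17,2),(19,0)]⟩ ⟨0,[(0,0)]⟩))

theorem ok328 : chk K t328 l332 = true := by decide +kernel

noncomputable def t329 : Tre :=
  (.N [0,0,1,-2] 0 ⟨0,[(16,0)]⟩ ⟨0,[(31,0)]⟩ (.i 0 ⟨0,[(0,0)]⟩ ⟨0,[(19,0),(25,1)]⟩))

theorem ok329 : chk K t329 l333 = true := by decide +kernel

open Helper55.PC in
noncomputable def t330n : Helper55.PC.Ten :=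
  (r
  24791929501112854965488430557688075398325083653155995792941243794110725205070697181407028291916998737628618280539980291054796897230211267334804966268537495273759811749072231822792827692732745593751493737590628792183953246250811437194052785428495356670255179629224661364936359950892199395185225052830250600355857809217116523340825842786969424725171062674920751765241542629387146569708599015458901865956745727718736047921788462963617380304829504563129588894081985336616819932893177009643474141237024717338722380875544975062435468180677627129066349208007702709181722257531302723083855785210405705152401935863251869158767346440512151065341317675124983800400776833906011022144)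

noncomputable def t330 : Tre := Helper55.PC.toT t330n

theorem ok330 : chk K t330 r333 = true :=
  Helper55.PC.chkN_sound K t330n r333 (by decide +kernel)

noncomputable def t331 : Tre :=
  (.N [0,0,1,-2] 0 ⟨0,[(14,0)]⟩ ⟨0,[(29,0)]⟩ (.i 0 ⟨0,[(0,0)]⟩ ⟨0,[(17,0),(25,1)]⟩))

theorem ok331 : chk K t331 l334 = true := by decide +kernel

noncomputable def t332 : Tre :=
  (.N [0,0,1,-2] 0 ⟨0,[(15,0)]⟩ ⟨0,[(30,0)]⟩ (.i 1 ⟨1,[(25,1),(17,2),(19,0)]⟩ ⟨0,[(0,0)]⟩))

theorem ok332 : chk K t332 l335 = true := by decide +kernel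

open Helper55.PC in
noncomputable def t333n : Helper55.PC.Ten :=
  (r
  258839821350264911331480018895554806813879013511733543998804564330097027194016751088550689451242241084227102955810399739995917479259435287158237454282534302106556778010713783177214763888907028918972858339405662485082964479770453285683413009781526938863478031486325859979200371952944710715721675927406893027289962343221312779115840208146422629428841170249197442596093004087850025799357387233946267866517265239265092889533814619739796841671876410790589686584390185016428075172541128026057725512547315171733220949947677033165100506250304668121173262749822786006548926278154523939972848092735955262135245532792927952315200)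

noncomputable def t333 : Tre := Helper55.PC.toT t333n

theorem ok333 : chk K t333 r335 = true :=
  Helper55.PC.chkN_sound K t333n r335 (by decide +kernel)

noncomputable def t334 : Tre :=
  (.N [0,0,1,-2] 0 ⟨0,[(12,0)]⟩ ⟨0,[(27,0)]⟩ (.i 1 ⟨1,[(22,1),(17,2),(19,0)]⟩ ⟨0,[(0,0)]⟩))

theorem ok334 : chk K t334 l336 = true := by decide +kernel

open Helper55.PC in
noncomputable def t335n : Helper55.PC.Ten :=
  (r
  4774751940532987493352644000226664966115824823716650878240094211231209876429168059448940314406080754824641862139002000164183242288597979545307229672178367401543398486064371081065707431522383698469113643922019280297678121121720321411472190585381138168457637130498836479761221405821366181832425557132531889411361951542655804902426434935315221638794707746997711896223673630878963690268525420044561512353007555521045141805709523351945686263280853529081928826516628209561757574256240968910352960633020579491321026003078903715874729336242118007752992795530033491734460293683941002552774480545907724626690094793683644975747004960790558502298432)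

noncomputable def t335 : Tre := Helper55.PC.toT t335n

theorem ok335 : chk K t335 r336 = true :=
  Helper55.PC.chkN_sound K t335n r336 (by decide +kernel)

noncomputable def t336 : Tre :=
  (.N [0,0,1,-2] 0 ⟨0,[(8,0)]⟩ ⟨0,[(23,0)]⟩ (.i 1 ⟨1,[(18,1),(17,2),(19,0)]⟩ ⟨0,[(0,0)]⟩))

theorem ok336 : chk K t336 l337 = true := by decide +kernel

open Helper55.PC in
noncomputable def t337n : Helper55.PC.Ten :=
  (r
  3949582234958778103631385544894700667540775393500058424366003574679445482891428595904145990692102288266316672956761123132843046370491736788045221832816887996511562032797881043946706870449471876867320115449510027472854113070187326364595504276914414578850083467350306869111828282755287366687079703568653104177896920386806639669802625807329029393495854174471454822291158192056082256803811892647418466518283857969531830495614306392684546396186562334181012366666028092094420643595306611608552744386219771651598492358888742321427810224243926025860318411689340215715619759835196503578001901011585949781372435193665954624)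

noncomputable def t337 : Tre := Helper55.PC.toT t337n

theorem ok337 : chk K t337 r337 = true :=
  Helper55.PC.chkN_sound K t337n r337 (by decide +kernel)

open Helper55.PC in
noncomputable def t338n : Helper55.PC.Ten :=
  (q
  11369824398980889963799642246898527525325889677486989813477390840602612107556633739419018341176437268563393600323060078017185268093346106047860718891249565710
  (q
  11369824398980890154336052877371530453353907941614691634311981241023289870874029608266707211671314137936245795990041306520071173838457842107503745598604050446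
  (r
  12889114663667038824169236080510833117913424045463248592501943212289792999328292323717531668312738644669697892358319833660143413530360033413062892635633126657727675694498819978599597485936982689458689231947448998898851273815576835305215686753553186875000726989808125588844180876938410287235078267678056128651049812775741167485191693859930998503532022130592403313227115634062803751004846249448769324691873360781609)
  (r
  16495738528028217487112938480776215325313419844330869568861225368629363290232397356516646655983250694812194660764697348844378222119588501729219829300252829136102356619214623526186111856507782527728012651654653779305377740208362110640097893679893829023807621710418236331727322115868402169901227443293300236966208026169427673085626855108071084091609323811626576751575786015667339626566062248083051495436960856929284221044294210189343971670852583487273555079372545706125042118900798400618266354568728408377039403663218917630976175983011226531097961491363484418796130901235812917305377418689415888253120363019747089170284473053637457794408948744501471259942720))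
  (i 178732635319269635799618309261302728902180907 (i
  178122849317747314073091941676625001449652267 (n
  3666556048287190039407831949288647738892920726412469699119152191639173) (r
  19942174934428852620424551524239041335205619484061018577960556578018582350552395385299033400089141550485716883574940324298477828891286205787598571807626400774764426799098564076802432023192705219006538659784642385933059402163939742762078751059961100184487683869995752445789045546755219800806381602717013881697239831332322474542616579903875321094153501770095326134767195590706913553488004858022088289364686966544200045683172878524543038425862513106290607507157537508142321969354397634356640225984775303847169368586176255803705499505873436266064284272800004091819285544003769637696045097417455771834012483258378309885654609138712050999898670988027114254956240708350766515077331050304))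
  (i 178471303778386338199341929178023372037161003 (i
  178384180858630611673368321759904358314672171 (n
  158726287443356647155276909337481724845428509347375850816192995857913051642658024626949007559488353719837023145605)
  (r
  151332583630859300501641465651628281551153578912429196613281316445005221225715921905804177291483442424325584448539331849754297707045946249053093083433538586963782966995947048600444316526616708367943609004812182388167810423537081398766438326183883816495073319448862428575294759676638796124231423235892777664301110992045563362397985823266783100967389095136004550598684066385390231109177668915759638090700316445031647585823049175649428166179216593971044640788009415522624805708880402547617033474239099582101264135756582372782459146792303787695409842844725621365097968010701629815729740734076369136186540195396932280206858999020116599294350146061792431364062069055090688205030581058826373155701365760317812852312476644428049279738063134936676076541584955314842918720))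
  (q 16296847301214421511876900886637688326184971196464104631954514673340698918172788822515253263
  (r
  1910085742599586259956311293171936751338723252914624694703055136860360238482740289509688688808994652780708263792063092415870957598716971270485927455797364204918542591019399729168165425227917912211494241666281798489854469039763231213246387159756552305590486297349153908708167936688257997068425396483218360574852426303040658186746016601751970044607878088428034430261071349030041437221078145109375231003553088887031286239843724088649515658345730588585758897634376983320478189071208468625603740896139289223280730470473140841406470821426583634049301572530272726301962036908403389690502180049021852536602076744155386419895201971540082056345529638800447943688630441627981747366060520987775204567958306713210219076218335021525963234410258240)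
  (r
  321248517785775692564601425688560561223727260996246356725824617817764774506140805167720429061658014153382317100705536032126799931790808022408720536785365859265778102862806094907243352738125483055366781723547641455212451215683363656602095784983253288450266838810664648347729487365507475826778277606471772308140351227699646587737239588387775072175321572960107460419995338013216763037604414693213293087482594070794451413382554602566215585360891426696726125058089689093675468723403763796727331383508944028857425022311838356177784988849378282826332316148604429265345172887858979080075774456241996456452052376847322944736436307869322363560849984969202543258513386920006815119664737317039060007377806286229614137889333729285221663801256912381851397508727526703438107328264949892357521319162881550686190852921209449979957871765111155890113089149332427157858857565110009887355399781701361630850648102529953776895840308587571926427112857440)))))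

noncomputable def t338 : Tre := Helper55.PC.toT t338n

theorem ok338 : chk K t338 r0 = true :=
  Helper55.PC.chkN_sound K t338n r0 (by decide +kernel)

theorem cl0 : Clo K (Helper55.TR.GH 1 Helper55.TR.BrU [0,0,0,0,0,1]) r14 :=
  .w [n0,n0,n0,n0,n0,n0,n0,n0,n0,n0,n0,n0,n1,m2] (e' := [n1,n0,n0,n0,n0,n0,n0,n0,n0,n0,n0,n0,m1,n2]) (by decide +kernel) (.t
  t9 ok9) (.t t10 ok10)

theorem cl1 : Clo K (Helper55.TR.GH 1 Helper55.TR.BrU [0,0,0,0,0,1]) r13 :=
  .w [n0,n0,n0,n0,n0,n0,n0,n0,n0,n0,n0,n0,m1,n2] (e' := [n1,n0,n0,n0,n0,n0,n0,n0,n0,n0,n0,n0,n1,m2]) (by decide +kernel) (.t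
  t8 ok8) cl0

theorem cl2 : Clo K (Helper55.TR.GH 1 Helper55.TR.BrU [0,0,0,0,0,1]) l12 :=
  .i [n1,n0,m4,m4,n1,n0,n0,n0,n0,n0,m7] (e' := [n0,n0,n4,n4,m1,n0,n0,n0,n0,n0,n7]) (by decide +kernel)
  (by decide +kernel) (.t t7 ok7) cl1

theorem cl3 : Clo K (Helper55.TR.GH 1 Helper55.TR.BrU [0,0,0,0,0,1]) r18 :=
  .w [n0,n0,n0,n0,n0,n0,n0,n0,n0,n0,n0,n0,m1,n2] (e' := [n1,n0,n0,n0,n0,n0,n0,n0,n0,n0,n0,n0,n1,m2]) (by decide +kernel) (.t
  t13 ok13) (.t t14 ok14)

theorem cl4 : Clo K (Helper55.TR.GH 1 Helper55.TR.BrU [0,0,0,0,0,1]) r17 :=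
  .w [n0,n0,n0,n0,n0,n0,n0,n0,n0,n0,n0,n0,n1,m2] (e' := [n1,n0,n0,n0,n0,n0,n0,n0,n0,n0,n0,n0,m1,n2]) (by decide +kernel) (.t
  t12 ok12) cl3

theorem cl5 : Clo K (Helper55.TR.GH 1 Helper55.TR.BrU [0,0,0,0,0,1]) l16 :=
  .i [n1,n0,m1,m1,n0,n0,n0,n0,n0,n0,m4] (e' := [n0,n0,n1,n1,n0,n0,n0,n0,n0,n0,n4]) (by decide +kernel)
  (by decide +kernel) (.t t11 ok11) cl4

theorem cl6 : Clo K (Helper55.TR.GH 1 Helper55.TR.BrU [0,0,0,0,0,1]) r20 :=
  .w [n0,n0,n0,n0,n0,n0,n0,n0,n0,n0,n0,n0,n1,m2] (e' := [n1,n0,n0,n0,n0,n0,n0,n0,n0,n0,n0,n0,m1,n2]) (by decide +kernel) (.t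
  t16 ok16) (.t t17 ok17)

theorem cl7 : Clo K (Helper55.TR.GH 1 Helper55.TR.BrU [0,0,0,0,0,1]) r16 :=
  .w [n0,n0,n0,n0,n0,n0,n0,n0,n0,n0,n0,n0,m1,n2] (e' := [n1,n0,n0,n0,n0,n0,n0,n0,n0,n0,n0,n0,n1,m2]) (by decide +kernel) (.t
  t15 ok15) cl6

theorem cl8 : Clo K (Helper55.TR.GH 1 Helper55.TR.BrU [0,0,0,0,0,1]) r12 :=
  .i [n1,n0,n1,n1,n0,n0,n0,n0,n0,n0,n4] (e' := [n0,n0,m1,m1,n0,n0,n0,n0,n0,n0,m4]) (by decide +kernel)
  (by decide +kernel) cl5 cl7

theorem cl9 : Clo K (Helper55.TR.GH 1 Helper55.TR.BrU [0,0,0,0,0,1]) r11 :=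
  .i [n1,n0,n4,n4,m1,n0,n0,n0,n0,n0,n7] (e' := [n0,n0,m4,m4,n1,n0,n0,n0,n0,n0,m7]) (by decide +kernel)
  (by decide +kernel) cl2 cl8

theorem cl10 : Clo K (Helper55.TR.GH 1 Helper55.TR.BrU [0,0,0,0,0,1]) l10 :=
  .i [n1,n0,m3,m3,n1,n0,n0,m1,n0,n0,m1] (e' := [n0,n0,n3,n3,m1,n0,n0,n1,n0,n0,n1]) (by decide +kernel)
  (by decide +kernel) (.t t6 ok6) cl9

theorem cl11 : Clo K (Helper55.TR.GH 1 Helper55.TR.BrU [0,0,0,0,0,1]) r23 :=
  .w [n0,n0,n0,n0,n0,n0,n0,n0,n0,n0,n0,n0,n1,m2] (e' := [n1,n0,n0,n0,n0,n0,n0,n0,n0,n0,n0,n0,m1,n2]) (by decide +kernel) (.t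
  t19 ok19) (.t t20 ok20)

theorem cl12 : Clo K (Helper55.TR.GH 1 Helper55.TR.BrU [0,0,0,0,0,1]) l22 :=
  .i [n1,n0,n1,n1,m1,n0,n0,n0,n0,n0,m5] (e' := [n0,n0,m1,m1,n1,n0,n0,n0,n0,n0,n5]) (by decide +kernel)
  (by decide +kernel) (.t t18 ok18) cl11

theorem cl13 : Clo K (Helper55.TR.GH 1 Helper55.TR.BrU [0,0,0,0,0,1]) r22 :=
  .w [n0,n0,n0,n0,n0,n0,n0,n0,n0,n0,n0,n0,n1,m2] (e' := [n1,n0,n0,n0,n0,n0,n0,n0,n0,n0,n0,n0,m1,n2]) (by decide +kernel) (.t
  t21 ok21) (.t t22 ok22)

theorem cl14 : Clo K (Helper55.TR.GH 1 Helper55.TR.BrU [0,0,0,0,0,1]) r10 :=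
  .i [n1,n0,m1,m1,n1,n0,n0,n0,n0,n0,n5] (e' := [n0,n0,n1,n1,m1,n0,n0,n0,n0,n0,m5]) (by decide +kernel)
  (by decide +kernel) cl12 cl13

theorem cl15 : Clo K (Helper55.TR.GH 1 Helper55.TR.BrU [0,0,0,0,0,1]) r9 :=
  .i [n1,n0,n3,n3,m1,n0,n0,n1,n0,n0,n1] (e' := [n0,n0,m3,m3,n1,n0,n0,m1,n0,n0,m1]) (by decide +kernel)
  (by decide +kernel) cl10 cl14

theorem cl16 : Clo K (Helper55.TR.GH 1 Helper55.TR.BrU [0,0,0,0,0,1]) l8 :=
  .i [n1,n0,n2,n2,m1,n0,n0,n0,n0,n1,m2] (e' := [n0,n0,m2,m2,n1,n0,n0,n0,n0,m1,n2]) (by decide +kernel)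
  (by decide +kernel) (.t t5 ok5) cl15

theorem cl17 : Clo K (Helper55.TR.GH 1 Helper55.TR.BrU [0,0,0,0,0,1]) r34 :=
  .w [n0,n0,n0,n0,n0,n0,n0,n0,n0,n0,n0,n0,m1,n2] (e' := [n1,n0,n0,n0,n0,n0,n0,n0,n0,n0,n0,n0,n1,m2]) (by decide +kernel) (.t
  t28 ok28) (.t t29 ok29)

theorem cl18 : Clo K (Helper55.TR.GH 1 Helper55.TR.BrU [0,0,0,0,0,1]) r33 :=
  .w [n0,n0,n0,n0,n0,n0,n0,n0,n0,n0,n0,n0,n1,m2] (e' := [n1,n0,n0,n0,n0,n0,n0,n0,n0,n0,n0,n0,m1,n2]) (by decide +kernel) (.t
  t27 ok27) cl17

theorem cl19 : Clo K (Helper55.TR.GH 1 Helper55.TR.BrU [0,0,0,0,0,1]) l32 :=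
  .i [n1,n0,m1,m1,n0,n0,n0,m1,n0,m1,m2] (e' := [n0,n0,n1,n1,n0,n0,n0,n1,n0,n1,n2]) (by decide +kernel)
  (by decide +kernel) (.t t26 ok26) cl18

theorem cl20 : Clo K (Helper55.TR.GH 1 Helper55.TR.BrU [0,0,0,0,0,1]) r36 :=
  .w [n0,n0,n0,n0,n0,n0,n0,n0,n0,n0,n0,n0,m1,n2] (e' := [n1,n0,n0,n0,n0,n0,n0,n0,n0,n0,n0,n0,n1,m2]) (by decide +kernel) (.t
  t31 ok31) (.t t32 ok32)

theorem cl21 : Clo K (Helper55.TR.GH 1 Helper55.TR.BrU [0,0,0,0,0,1]) r32 :=
  .w [n0,n0,n0,n0,n0,n0,n0,n0,n0,n0,n0,n0,n1,m2] (e' := [n1,n0,n0,n0,n0,n0,n0,n0,n0,n0,n0,n0,m1,n2]) (by decide +kernel) (.t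
  t30 ok30) cl20

theorem cl22 : Clo K (Helper55.TR.GH 1 Helper55.TR.BrU [0,0,0,0,0,1]) r31 :=
  .i [n1,n0,n1,n1,n0,n0,n0,n1,n0,n1,n2] (e' := [n0,n0,m1,m1,n0,n0,n0,m1,n0,m1,m2]) (by decide +kernel)
  (by decide +kernel) cl19 cl21

theorem cl23 : Clo K (Helper55.TR.GH 1 Helper55.TR.BrU [0,0,0,0,0,1]) l30 :=
  .i [n1,n0,m3,m3,n1,n0,n0,m2] (e' := [n0,n0,n3,n3,m1,n0,n0,n2]) (by decide +kernel) (by decide +kernel) (.t
  t25 ok25) cl22

theorem cl24 : Clo K (Helper55.TR.GH 1 Helper55.TR.BrU [0,0,0,0,0,1]) r38 :=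
  .w [n0,n0,n0,n0,n0,n0,n0,n0,n0,n0,n0,n0,n1,m2] (e' := [n1,n0,n0,n0,n0,n0,n0,n0,n0,n0,n0,n0,m1,n2]) (by decide +kernel) (.t
  t34 ok34) (.t t35 ok35)

theorem cl25 : Clo K (Helper55.TR.GH 1 Helper55.TR.BrU [0,0,0,0,0,1]) r30 :=
  .w [n0,n0,n0,n0,n0,n0,n0,n0,n0,n0,n0,n0,m1,n2] (e' := [n1,n0,n0,n0,n0,n0,n0,n0,n0,n0,n0,n0,n1,m2]) (by decide +kernel) (.t
  t33 ok33) cl24

theorem cl26 : Clo K (Helper55.TR.GH 1 Helper55.TR.BrU [0,0,0,0,0,1]) r29 :=
  .i [n1,n0,n3,n3,m1,n0,n0,n2] (e' := [n0,n0,m3,m3,n1,n0,n0,m2]) (by decide +kernel) (by decide +kernel) cl23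
  cl25

theorem cl27 : Clo K (Helper55.TR.GH 1 Helper55.TR.BrU [0,0,0,0,0,1]) l28 :=
  .i [n1,n0,m1,m1,n0,n0,n0,m1,n0,m2,m1] (e' := [n0,n0,n1,n1,n0,n0,n0,n1,n0,n2,n1]) (by decide +kernel)
  (by decide +kernel) (.t t24 ok24) cl26

theorem cl28 : Clo K (Helper55.TR.GH 1 Helper55.TR.BrU [0,0,0,0,0,1]) r43 :=
  .w [n0,n0,n0,n0,n0,n0,n0,n0,n0,n0,n0,n0,n1,m2] (e' := [n1,n0,n0,n0,n0,n0,n0,n0,n0,n0,n0,n0,m1,n2]) (by decide +kernel) (.t
  t38 ok38) (.t t39 ok39)

theorem cl29 : Clo K (Helper55.TR.GH 1 Helper55.TR.BrU [0,0,0,0,0,1]) l42 :=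
  .i [n1,n0,n1,n1,m1,n0,n0,m2,n0,n0,m2] (e' := [n0,n0,m1,m1,n1,n0,n0,n2,n0,n0,n2]) (by decide +kernel)
  (by decide +kernel) (.t t37 ok37) cl28

theorem cl30 : Clo K (Helper55.TR.GH 1 Helper55.TR.BrU [0,0,0,0,0,1]) r53 :=
  .w [n0,n0,n0,n0,n0,n0,n0,n0,n0,n0,n0,n0,n1,m2] (e' := [n1,n0,n0,n0,n0,n0,n0,n0,n0,n0,n0,n0,m1,n2]) (by decide +kernel) (.t
  t45 ok45) (.t t46 ok46)

theorem cl31 : Clo K (Helper55.TR.GH 1 Helper55.TR.BrU [0,0,0,0,0,1]) r52 :=
  .w [n0,n0,n0,n0,n0,n0,n0,n0,n0,n0,n0,n0,m1,n2] (e' := [n1,n0,n0,n0,n0,n0,n0,n0,n0,n0,n0,n0,n1,m2]) (by decide +kernel) (.t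
  t44 ok44) cl30

theorem cl32 : Clo K (Helper55.TR.GH 1 Helper55.TR.BrU [0,0,0,0,0,1]) l51 :=
  .i [n1,n0,m1,m1,n0,n0,n0,m2,n0,m1] (e' := [n0,n0,n1,n1,n0,n0,n0,n2,n0,n1]) (by decide +kernel)
  (by decide +kernel) (.t t43 ok43) cl31

theorem cl33 : Clo K (Helper55.TR.GH 1 Helper55.TR.BrU [0,0,0,0,0,1]) r55 :=
  .w [n0,n0,n0,n0,n0,n0,n0,n0,n0,n0,n0,n0,n1,m2] (e' := [n1,n0,n0,n0,n0,n0,n0,n0,n0,n0,n0,n0,m1,n2]) (by decide +kernel) (.t
  t48 ok48) (.t t49 ok49)

theorem cl34 : Clo K (Helper55.TR.GH 1 Helper55.TR.BrU [0,0,0,0,0,1]) r51 :=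
  .w [n0,n0,n0,n0,n0,n0,n0,n0,n0,n0,n0,n0,m1,n2] (e' := [n1,n0,n0,n0,n0,n0,n0,n0,n0,n0,n0,n0,n1,m2]) (by decide +kernel) (.t
  t47 ok47) cl33

theorem cl35 : Clo K (Helper55.TR.GH 1 Helper55.TR.BrU [0,0,0,0,0,1]) r50 :=
  .i [n1,n0,n1,n1,n0,n0,n0,n2,n0,n1] (e' := [n0,n0,m1,m1,n0,n0,n0,m2,n0,m1]) (by decide +kernel)
  (by decide +kernel) cl32 cl34

theorem cl36 : Clo K (Helper55.TR.GH 1 Helper55.TR.BrU [0,0,0,0,0,1]) l49 :=
  .i [n1,n0,n1,n1,m1,n0,n0,m2,n0,m1,m1] (e' := [n0,n0,m1,m1,n1,n0,n0,n2,n0,n1,n1]) (by decide +kernel)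
  (by decide +kernel) (.t t42 ok42) cl35

theorem cl37 : Clo K (Helper55.TR.GH 1 Helper55.TR.BrU [0,0,0,0,0,1]) r57 :=
  .w [n0,n0,n0,n0,n0,n0,n0,n0,n0,n0,n0,n0,m1,n2] (e' := [n1,n0,n0,n0,n0,n0,n0,n0,n0,n0,n0,n0,n1,m2]) (by decide +kernel) (.t
  t51 ok51) (.t t52 ok52)

theorem cl38 : Clo K (Helper55.TR.GH 1 Helper55.TR.BrU [0,0,0,0,0,1]) r49 :=
  .w [n0,n0,n0,n0,n0,n0,n0,n0,n0,n0,n0,n0,n1,m2] (e' := [n1,n0,n0,n0,n0,n0,n0,n0,n0,n0,n0,n0,m1,n2]) (by decide +kernel) (.t
  t50 ok50) cl37

theorem cl39 : Clo K (Helper55.TR.GH 1 Helper55.TR.BrU [0,0,0,0,0,1]) r48 :=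
  .i [n1,n0,m1,m1,n1,n0,n0,n2,n0,n1,n1] (e' := [n0,n0,n1,n1,m1,n0,n0,m2,n0,m1,m1]) (by decide +kernel)
  (by decide +kernel) cl36 cl38

theorem cl40 : Clo K (Helper55.TR.GH 1 Helper55.TR.BrU [0,0,0,0,0,1]) l47 :=
  .i [n1,n0,n1,n1,m1,n0,n0,m2,n0,m2] (e' := [n0,n0,m1,m1,n1,n0,n0,n2,n0,n2]) (by decide +kernel)
  (by decide +kernel) (.t t41 ok41) cl39

theorem cl41 : Clo K (Helper55.TR.GH 1 Helper55.TR.BrU [0,0,0,0,0,1]) r59 :=
  .w [n0,n0,n0,n0,n0,n0,n0,n0,n0,n0,n0,n0,m1,n2] (e' := [n1,n0,n0,n0,n0,n0,n0,n0,n0,n0,n0,n0,n1,m2]) (by decide +kernel) (.t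
  t54 ok54) (.t t55 ok55)

theorem cl42 : Clo K (Helper55.TR.GH 1 Helper55.TR.BrU [0,0,0,0,0,1]) r47 :=
  .w [n0,n0,n0,n0,n0,n0,n0,n0,n0,n0,n0,n0,n1,m2] (e' := [n1,n0,n0,n0,n0,n0,n0,n0,n0,n0,n0,n0,m1,n2]) (by decide +kernel) (.t
  t53 ok53) cl41

theorem cl43 : Clo K (Helper55.TR.GH 1 Helper55.TR.BrU [0,0,0,0,0,1]) r46 :=
  .i [n1,n0,m1,m1,n1,n0,n0,n2,n0,n2] (e' := [n0,n0,n1,n1,m1,n0,n0,m2,n0,m2]) (by decide +kernel)
  (by decide +kernel) cl40 cl42

theorem cl44 : Clo K (Helper55.TR.GH 1 Helper55.TR.BrU [0,0,0,0,0,1]) l45 :=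
  .i [n1,n0,m4,m4,n1,n0,n0,n0,n0,n0,m7] (e' := [n0,n0,n4,n4,m1,n0,n0,n0,n0,n0,n7]) (by decide +kernel)
  (by decide +kernel) (.t t40 ok40) cl43

theorem cl45 : Clo K (Helper55.TR.GH 1 Helper55.TR.BrU [0,0,0,0,0,1]) r63 :=
  .w [n0,n0,n0,n0,n0,n0,n0,n0,n0,n0,n0,n0,n1,m2] (e' := [n1,n0,n0,n0,n0,n0,n0,n0,n0,n0,n0,n0,m1,n2]) (by decide +kernel) (.t
  t58 ok58) (.t t59 ok59)

theorem cl46 : Clo K (Helper55.TR.GH 1 Helper55.TR.BrU [0,0,0,0,0,1]) r62 :=
  .w [n0,n0,n0,n0,n0,n0,n0,n0,n0,n0,n0,n0,m1,n2] (e' := [n1,n0,n0,n0,n0,n0,n0,n0,n0,n0,n0,n0,n1,m2]) (by decide +kernel) (.t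
  t57 ok57) cl45

theorem cl47 : Clo K (Helper55.TR.GH 1 Helper55.TR.BrU [0,0,0,0,0,1]) l61 :=
  .i [n1,n0,m1,m1,n0,n0,n0,n0,n0,n0,m4] (e' := [n0,n0,n1,n1,n0,n0,n0,n0,n0,n0,n4]) (by decide +kernel)
  (by decide +kernel) (.t t56 ok56) cl46

theorem cl48 : Clo K (Helper55.TR.GH 1 Helper55.TR.BrU [0,0,0,0,0,1]) r65 :=
  .w [n0,n0,n0,n0,n0,n0,n0,n0,n0,n0,n0,n0,m1,n2] (e' := [n1,n0,n0,n0,n0,n0,n0,n0,n0,n0,n0,n0,n1,m2]) (by decide +kernel) (.t
  t61 ok61) (.t t62 ok62)

theorem cl49 : Clo K (Helper55.TR.GH 1 Helper55.TR.BrU [0,0,0,0,0,1]) r61 :=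
  .w [n0,n0,n0,n0,n0,n0,n0,n0,n0,n0,n0,n0,n1,m2] (e' := [n1,n0,n0,n0,n0,n0,n0,n0,n0,n0,n0,n0,m1,n2]) (by decide +kernel) (.t
  t60 ok60) cl48

theorem cl50 : Clo K (Helper55.TR.GH 1 Helper55.TR.BrU [0,0,0,0,0,1]) r45 :=
  .i [n1,n0,n1,n1,n0,n0,n0,n0,n0,n0,n4] (e' := [n0,n0,m1,m1,n0,n0,n0,n0,n0,n0,m4]) (by decide +kernel)
  (by decide +kernel) cl47 cl49

theorem cl51 : Clo K (Helper55.TR.GH 1 Helper55.TR.BrU [0,0,0,0,0,1]) r42 :=
  .i [n1,n0,n4,n4,m1,n0,n0,n0,n0,n0,n7] (e' := [n0,n0,m4,m4,n1,n0,n0,n0,n0,n0,m7]) (by decide +kernel)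
  (by decide +kernel) cl44 cl50

theorem cl52 : Clo K (Helper55.TR.GH 1 Helper55.TR.BrU [0,0,0,0,0,1]) r41 :=
  .i [n1,n0,m1,m1,n1,n0,n0,n2,n0,n0,n2] (e' := [n0,n0,n1,n1,m1,n0,n0,m2,n0,n0,m2]) (by decide +kernel)
  (by decide +kernel) cl29 cl51

theorem cl53 : Clo K (Helper55.TR.GH 1 Helper55.TR.BrU [0,0,0,0,0,1]) l40 :=
  .i [n1,n0,n1,n1,m1,n0,n0,n0,n0,n0,m5] (e' := [n0,n0,m1,m1,n1,n0,n0,n0,n0,n0,n5]) (by decide +kernel)
  (by decide +kernel) (.t t36 ok36) cl52

theorem cl54 : Clo K (Helper55.TR.GH 1 Helper55.TR.BrU [0,0,0,0,0,1]) r69 :=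
  .w [n0,n0,n0,n0,n0,n0,n0,n0,n0,n0,n0,n0,n1,m2] (e' := [n1,n0,n0,n0,n0,n0,n0,n0,n0,n0,n0,n0,m1,n2]) (by decide +kernel) (.t
  t65 ok65) (.t t66 ok66)

theorem cl55 : Clo K (Helper55.TR.GH 1 Helper55.TR.BrU [0,0,0,0,0,1]) r68 :=
  .w [n0,n0,n0,n0,n0,n0,n0,n0,n0,n0,n0,n0,m1,n2] (e' := [n1,n0,n0,n0,n0,n0,n0,n0,n0,n0,n0,n0,n1,m2]) (by decide +kernel) (.t
  t64 ok64) cl54

theorem cl56 : Clo K (Helper55.TR.GH 1 Helper55.TR.BrU [0,0,0,0,0,1]) l67 :=
  .i [n1,n0,m3,m3,n1,n0,n0,m1,n0,n0,m1] (e' := [n0,n0,n3,n3,m1,n0,n0,n1,n0,n0,n1]) (by decide +kernel)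
  (by decide +kernel) (.t t63 ok63) cl55

theorem cl57 : Clo K (Helper55.TR.GH 1 Helper55.TR.BrU [0,0,0,0,0,1]) r71 :=
  .w [n0,n0,n0,n0,n0,n0,n0,n0,n0,n0,n0,n0,n1,m2] (e' := [n1,n0,n0,n0,n0,n0,n0,n0,n0,n0,n0,n0,m1,n2]) (by decide +kernel) (.t
  t68 ok68) (.t t69 ok69)

theorem cl58 : Clo K (Helper55.TR.GH 1 Helper55.TR.BrU [0,0,0,0,0,1]) r67 :=
  .w [n0,n0,n0,n0,n0,n0,n0,n0,n0,n0,n0,n0,m1,n2] (e' := [n1,n0,n0,n0,n0,n0,n0,n0,n0,n0,n0,n0,n1,m2]) (by decide +kernel) (.t
  t67 ok67) cl57

theorem cl59 : Clo K (Helper55.TR.GH 1 Helper55.TR.BrU [0,0,0,0,0,1]) r40 :=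
  .i [n1,n0,n3,n3,m1,n0,n0,n1,n0,n0,n1] (e' := [n0,n0,m3,m3,n1,n0,n0,m1,n0,n0,m1]) (by decide +kernel)
  (by decide +kernel) cl56 cl58

theorem cl60 : Clo K (Helper55.TR.GH 1 Helper55.TR.BrU [0,0,0,0,0,1]) r28 :=
  .i [n1,n0,m1,m1,n1,n0,n0,n0,n0,n0,n5] (e' := [n0,n0,n1,n1,m1,n0,n0,n0,n0,n0,m5]) (by decide +kernel)
  (by decide +kernel) cl53 cl59

theorem cl61 : Clo K (Helper55.TR.GH 1 Helper55.TR.BrU [0,0,0,0,0,1]) r27 :=
  .i [n1,n0,n1,n1,n0,n0,n0,n1,n0,n2,n1] (e' := [n0,n0,m1,m1,n0,n0,n0,m1,n0,m2,m1]) (by decide +kernel)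
  (by decide +kernel) cl27 cl60

theorem cl62 : Clo K (Helper55.TR.GH 1 Helper55.TR.BrU [0,0,0,0,0,1]) l26 :=
  .i [n1,n0,m1,m1,n0,n0,n0,n0,n0,m2,m2] (e' := [n0,n0,n1,n1,n0,n0,n0,n0,n0,n2,n2]) (by decide +kernel)
  (by decide +kernel) (.t t23 ok23) cl61

theorem cl63 : Clo K (Helper55.TR.GH 1 Helper55.TR.BrU [0,0,0,0,0,1]) r73 :=
  .w [n0,n0,n0,n0,n0,n0,n0,n0,n0,n0,n0,n0,n1,m2] (e' := [n1,n0,n0,n0,n0,n0,n0,n0,n0,n0,n0,n0,m1,n2]) (by decide +kernel) (.t
  t71 ok71) (.t t72 ok72)

theorem cl64 : Clo K (Helper55.TR.GH 1 Helper55.TR.BrU [0,0,0,0,0,1]) r26 :=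
  .w [n0,n0,n0,n0,n0,n0,n0,n0,n0,n0,n0,n0,m1,n2] (e' := [n1,n0,n0,n0,n0,n0,n0,n0,n0,n0,n0,n0,n1,m2]) (by decide +kernel) (.t
  t70 ok70) cl63

theorem cl65 : Clo K (Helper55.TR.GH 1 Helper55.TR.BrU [0,0,0,0,0,1]) r8 :=
  .i [n1,n0,n1,n1,n0,n0,n0,n0,n0,n2,n2] (e' := [n0,n0,m1,m1,n0,n0,n0,n0,n0,m2,m2]) (by decide +kernel)
  (by decide +kernel) cl62 cl64

theorem cl66 : Clo K (Helper55.TR.GH 1 Helper55.TR.BrU [0,0,0,0,0,1]) r7 :=
  .i [n1,n0,m2,m2,n1,n0,n0,n0,n0,m1,n2] (e' := [n0,n0,n2,n2,m1,n0,n0,n0,n0,n1,m2]) (by decide +kernel)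
  (by decide +kernel) cl16 cl65

theorem cl67 : Clo K (Helper55.TR.GH 1 Helper55.TR.BrU [0,0,0,0,0,1]) l6 :=
  .i [n1,n0,n2,n2,m1,n0,n0,n0,n0,n0,m1] (e' := [n0,n0,m2,m2,n1,n0,n0,n0,n0,n0,n1]) (by decide +kernel)
  (by decide +kernel) (.t t4 ok4) cl66

theorem cl68 : Clo K (Helper55.TR.GH 1 Helper55.TR.BrU [0,0,0,0,0,1]) r79 :=
  .w [n0,n0,n0,n0,n0,n0,n0,n0,n0,n0,n0,n0,m1,n2] (e' := [n1,n0,n0,n0,n0,n0,n0,n0,n0,n0,n0,n0,n1,m2]) (by decide +kernel) (.t
  t76 ok76) (.t t77 ok77)

theorem cl69 : Clo K (Helper55.TR.GH 1 Helper55.TR.BrU [0,0,0,0,0,1]) r78 :=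
  .w [n0,n0,n0,n0,n0,n0,n0,n0,n0,n0,n0,n0,n1,m2] (e' := [n1,n0,n0,n0,n0,n0,n0,n0,n0,n0,n0,n0,m1,n2]) (by decide +kernel) (.t
  t75 ok75) cl68

theorem cl70 : Clo K (Helper55.TR.GH 1 Helper55.TR.BrU [0,0,0,0,0,1]) l77 :=
  .i [n1,n0,m3,m3,n1,n0,n0,n0,n0,n0,m4] (e' := [n0,n0,n3,n3,m1,n0,n0,n0,n0,n0,n4]) (by decide +kernel)
  (by decide +kernel) (.t t74 ok74) cl69

theorem cl71 : Clo K (Helper55.TR.GH 1 Helper55.TR.BrU [0,0,0,0,0,1]) r82 :=
  .w [n0,n0,n0,n0,n0,n0,n0,n0,n0,n0,n0,n0,n1,m2] (e' := [n1,n0,n0,n0,n0,n0,n0,n0,n0,n0,n0,n0,m1,n2]) (by decide +kernel) (.t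
  t79 ok79) (.t t80 ok80)

theorem cl72 : Clo K (Helper55.TR.GH 1 Helper55.TR.BrU [0,0,0,0,0,1]) l81 :=
  .i [n1,n0,m1,m1,n0,n0,n0,m1,n0,m1,m2] (e' := [n0,n0,n1,n1,n0,n0,n0,n1,n0,n1,n2]) (by decide +kernel)
  (by decide +kernel) (.t t78 ok78) cl71

theorem cl73 : Clo K (Helper55.TR.GH 1 Helper55.TR.BrU [0,0,0,0,0,1]) r87 :=
  .w [n0,n0,n0,n0,n0,n0,n0,n0,n0,n0,n0,n0,n1,m2] (e' := [n1,n0,n0,n0,n0,n0,n0,n0,n0,n0,n0,n0,m1,n2]) (by decide +kernel) (.t
  t83 ok83) (.t t84 ok84)

theorem cl74 : Clo K (Helper55.TR.GH 1 Helper55.TR.BrU [0,0,0,0,0,1]) l86 :=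
  .i [n1,n0,n1,n1,n0,n0,n0,n0,n0,n2,n2] (e' := [n0,n0,m1,m1,n0,n0,n0,n0,n0,m2,m2]) (by decide +kernel)
  (by decide +kernel) (.t t82 ok82) cl73

theorem cl75 : Clo K (Helper55.TR.GH 1 Helper55.TR.BrU [0,0,0,0,0,1]) r90 :=
  .w [n0,n0,n0,n0,n0,n0,n0,n0,n0,n0,n0,n0,n1,m2] (e' := [n1,n0,n0,n0,n0,n0,n0,n0,n0,n0,n0,n0,m1,n2]) (by decide +kernel) (.t
  t86 ok86) (.t t87 ok87)

theorem cl76 : Clo K (Helper55.TR.GH 1 Helper55.TR.BrU [0,0,0,0,0,1]) l89 :=
  .i [n1,n0,n1,n1,m1,n0,n0,m2,n0,n0,m2] (e' := [n0,n0,m1,m1,n1,n0,n0,n2,n0,n0,n2]) (by decide +kernel)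
  (by decide +kernel) (.t t85 ok85) cl75

theorem cl77 : Clo K (Helper55.TR.GH 1 Helper55.TR.BrU [0,0,0,0,0,1]) r89 :=
  .w [n0,n0,n0,n0,n0,n0,n0,n0,n0,n0,n0,n0,n1,m2] (e' := [n1,n0,n0,n0,n0,n0,n0,n0,n0,n0,n0,n0,m1,n2]) (by decide +kernel) (.t
  t88 ok88) (.t t89 ok89)

theorem cl78 : Clo K (Helper55.TR.GH 1 Helper55.TR.BrU [0,0,0,0,0,1]) r86 :=
  .i [n1,n0,m1,m1,n1,n0,n0,n2,n0,n0,n2] (e' := [n0,n0,n1,n1,m1,n0,n0,m2,n0,n0,m2]) (by decide +kernel)
  (by decide +kernel) cl76 cl77

theorem cl79 : Clo K (Helper55.TR.GH 1 Helper55.TR.BrU [0,0,0,0,0,1]) r85 :=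
  .i [n1,n0,m1,m1,n0,n0,n0,n0,n0,m2,m2] (e' := [n0,n0,n1,n1,n0,n0,n0,n0,n0,n2,n2]) (by decide +kernel)
  (by decide +kernel) cl74 cl78

theorem cl80 : Clo K (Helper55.TR.GH 1 Helper55.TR.BrU [0,0,0,0,0,1]) l84 :=
  .i [n1,n0,n1,n1,m1,n0,n0,m1,n0,m1,m2] (e' := [n0,n0,m1,m1,n1,n0,n0,n1,n0,n1,n2]) (by decide +kernel)
  (by decide +kernel) (.t t81 ok81) cl79

theorem cl81 : Clo K (Helper55.TR.GH 1 Helper55.TR.BrU [0,0,0,0,0,1]) r95 :=
  .w [n0,n0,n0,n0,n0,n0,n0,n0,n0,n0,n0,n0,m1,n2] (e' := [n1,n0,n0,n0,n0,n0,n0,n0,n0,n0,n0,n0,n1,m2]) (by decide +kernel) (.t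
  t92 ok92) (.t t93 ok93)

theorem cl82 : Clo K (Helper55.TR.GH 1 Helper55.TR.BrU [0,0,0,0,0,1]) r94 :=
  .w [n0,n0,n0,n0,n0,n0,n0,n0,n0,n0,n0,n0,n1,m2] (e' := [n1,n0,n0,n0,n0,n0,n0,n0,n0,n0,n0,n0,m1,n2]) (by decide +kernel) (.t
  t91 ok91) cl81

theorem cl83 : Clo K (Helper55.TR.GH 1 Helper55.TR.BrU [0,0,0,0,0,1]) l93 :=
  .i [n1,n0,m3,m3,n1,n0,n0,m1,n0,n0,m1] (e' := [n0,n0,n3,n3,m1,n0,n0,n1,n0,n0,n1]) (by decide +kernel)
  (by decide +kernel) (.t t90 ok90) cl82

theorem cl84 : Clo K (Helper55.TR.GH 1 Helper55.TR.BrU [0,0,0,0,0,1]) r93 :=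
  .w [n0,n0,n0,n0,n0,n0,n0,n0,n0,n0,n0,n0,n1,m2] (e' := [n1,n0,n0,n0,n0,n0,n0,n0,n0,n0,n0,n0,m1,n2]) (by decide +kernel) (.t
  t94 ok94) (.t t95 ok95)

theorem cl85 : Clo K (Helper55.TR.GH 1 Helper55.TR.BrU [0,0,0,0,0,1]) r84 :=
  .i [n1,n0,n3,n3,m1,n0,n0,n1,n0,n0,n1] (e' := [n0,n0,m3,m3,n1,n0,n0,m1,n0,n0,m1]) (by decide +kernel)
  (by decide +kernel) cl83 cl84

theorem cl86 : Clo K (Helper55.TR.GH 1 Helper55.TR.BrU [0,0,0,0,0,1]) r81 :=
  .i [n1,n0,m1,m1,n1,n0,n0,n1,n0,n1,n2] (e' := [n0,n0,n1,n1,m1,n0,n0,m1,n0,m1,m2]) (by decide +kernel)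
  (by decide +kernel) cl80 cl85

theorem cl87 : Clo K (Helper55.TR.GH 1 Helper55.TR.BrU [0,0,0,0,0,1]) r77 :=
  .i [n1,n0,n1,n1,n0,n0,n0,n1,n0,n1,n2] (e' := [n0,n0,m1,m1,n0,n0,n0,m1,n0,m1,m2]) (by decide +kernel)
  (by decide +kernel) cl72 cl86

theorem cl88 : Clo K (Helper55.TR.GH 1 Helper55.TR.BrU [0,0,0,0,0,1]) r76 :=
  .i [n1,n0,n3,n3,m1,n0,n0,n0,n0,n0,n4] (e' := [n0,n0,m3,m3,n1,n0,n0,n0,n0,n0,m4]) (by decide +kernel)
  (by decide +kernel) cl70 cl87

theorem cl89 : Clo K (Helper55.TR.GH 1 Helper55.TR.BrU [0,0,0,0,0,1]) l75 :=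
  .i [n1,n0,m1,m1,n0,n0,n0,m1,n0,m1,m1] (e' := [n0,n0,n1,n1,n0,n0,n0,n1,n0,n1,n1]) (by decide +kernel)
  (by decide +kernel) (.t t73 ok73) cl88

theorem cl90 : Clo K (Helper55.TR.GH 1 Helper55.TR.BrU [0,0,0,0,0,1]) r75 :=
  .w [n0,n0,n0,n0,n0,n0,n0,n0,n0,n0,n0,n0,n1,m2] (e' := [n1,n0,n0,n0,n0,n0,n0,n0,n0,n0,n0,n0,m1,n2]) (by decide +kernel) (.t
  t96 ok96) (.t t97 ok97)

theorem cl91 : Clo K (Helper55.TR.GH 1 Helper55.TR.BrU [0,0,0,0,0,1]) r6 :=
  .i [n1,n0,n1,n1,n0,n0,n0,n1,n0,n1,n1] (e' := [n0,n0,m1,m1,n0,n0,n0,m1,n0,m1,m1]) (by decide +kernel)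
  (by decide +kernel) cl89 cl90

theorem cl92 : Clo K (Helper55.TR.GH 1 Helper55.TR.BrU [0,0,0,0,0,1]) r5 :=
  .i [n1,n0,m2,m2,n1,n0,n0,n0,n0,n0,n1] (e' := [n0,n0,n2,n2,m1,n0,n0,n0,n0,n0,m1]) (by decide +kernel)
  (by decide +kernel) cl67 cl91

theorem cl93 : Clo K (Helper55.TR.GH 1 Helper55.TR.BrU [0,0,0,0,0,1]) r4 :=
  .i [n1,n0,n1,n1,m1,n0,n0,m1,n0,m2,m1] (e' := [n0,n0,m1,m1,n1,n0,n0,n1,n0,n2,n1]) (by decide +kernel)
  (by decide +kernel) (.t t3 ok3) cl92

theorem cl94 : Clo K (Helper55.TR.GH 1 Helper55.TR.BrU [0,0,0,0,0,1]) l3 :=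
  .i [n1,n0,n0,n0,n0,n0,n0,n0,n0,m1,n1] (e' := [n0,n0,n0,n0,n0,n0,n0,n0,n0,n1,m1]) (by decide +kernel)
  (by decide +kernel) (.t t2 ok2) cl93

theorem cl95 : Clo K (Helper55.TR.GH 1 Helper55.TR.BrU [0,0,0,0,0,1]) r105 :=
  .w [n0,n0,n0,n0,n0,n0,n0,n0,n0,n0,n0,n0,n1,m2] (e' := [n1,n0,n0,n0,n0,n0,n0,n0,n0,n0,n0,n0,m1,n2]) (by decide +kernel) (.t
  t101 ok101) (.t t102 ok102)

theorem cl96 : Clo K (Helper55.TR.GH 1 Helper55.TR.BrU [0,0,0,0,0,1]) l104 :=
  .i [n1,n0,n4,n4,m2,n0,n0,n0,n0,n0,m3] (e' := [n0,n0,m4,m4,n2,n0,n0,n0,n0,n0,n3]) (by decide +kernel)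
  (by decide +kernel) (.t t100 ok100) cl95

theorem cl97 : Clo K (Helper55.TR.GH 1 Helper55.TR.BrU [0,0,0,0,0,1]) r104 :=
  .w [n0,n0,n0,n0,n0,n0,n0,n0,n0,n0,n0,n0,m1,n2] (e' := [n1,n0,n0,n0,n0,n0,n0,n0,n0,n0,n0,n0,n1,m2]) (by decide +kernel) (.t
  t103 ok103) (.t t104 ok104)

theorem cl98 : Clo K (Helper55.TR.GH 1 Helper55.TR.BrU [0,0,0,0,0,1]) l103 :=
  .i [n1,n0,m1,m1,n1,n0,n0,n2,n0,n2] (e' := [n0,n0,n1,n1,m1,n0,n0,m2,n0,m2]) (by decide +kernel)
  (by decide +kernel) cl96 cl97

theorem cl99 : Clo K (Helper55.TR.GH 1 Helper55.TR.BrU [0,0,0,0,0,1]) l118 :=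
  .w [n0,n0,n0,n0,n0,n0,n0,n0,n0,n0,n0,n0,m1,n2] (e' := [n1,n0,n0,n0,n0,n0,n0,n0,n0,n0,n0,n0,n1,m2]) (by decide +kernel) (.t
  t110 ok110) (.t t111 ok111)

theorem cl100 : Clo K (Helper55.TR.GH 1 Helper55.TR.BrU [0,0,0,0,0,1]) r120 :=
  .w [n0,n0,n0,n0,n0,n0,n0,n0,n0,n0,n0,n0,n1,m2] (e' := [n1,n0,n0,n0,n0,n0,n0,n0,n0,n0,n0,n0,m1,n2]) (by decide +kernel) (.t
  t113 ok113) (.t t114 ok114)

theorem cl101 : Clo K (Helper55.TR.GH 1 Helper55.TR.BrU [0,0,0,0,0,1]) r118 :=
  .w [n0,n0,n0,n0,n0,n0,n0,n0,n0,n0,n0,n0,m1,n2] (e' := [n1,n0,n0,n0,n0,n0,n0,n0,n0,n0,n0,n0,n1,m2]) (by decide +kernel) (.t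
  t112 ok112) cl100

theorem cl102 : Clo K (Helper55.TR.GH 1 Helper55.TR.BrU [0,0,0,0,0,1]) r117 :=
  .i [n1,n0,m3,m3,n1,n0,n0,n0,n0,n0,m4] (e' := [n0,n0,n3,n3,m1,n0,n0,n0,n0,n0,n4]) (by decide +kernel)
  (by decide +kernel) cl99 cl101

theorem cl103 : Clo K (Helper55.TR.GH 1 Helper55.TR.BrU [0,0,0,0,0,1]) l116 :=
  .i [n1,n0,m1,m1,n0,n0,n0,m1,n0,m1,m2] (e' := [n0,n0,n1,n1,n0,n0,n0,n1,n0,n1,n2]) (by decide +kernel)
  (by decide +kernel) (.t t109 ok109) cl102

theorem cl104 : Clo K (Helper55.TR.GH 1 Helper55.TR.BrU [0,0,0,0,0,1]) r123 :=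
  .w [n0,n0,n0,n0,n0,n0,n0,n0,n0,n0,n0,n0,m1,n2] (e' := [n1,n0,n0,n0,n0,n0,n0,n0,n0,n0,n0,n0,n1,m2]) (by decide +kernel) (.t
  t116 ok116) (.t t117 ok117)

theorem cl105 : Clo K (Helper55.TR.GH 1 Helper55.TR.BrU [0,0,0,0,0,1]) l122 :=
  .i [n1,n0,n1,n1,m1,n0,n0,m2,n0,m2] (e' := [n0,n0,m1,m1,n1,n0,n0,n2,n0,n2]) (by decide +kernel)
  (by decide +kernel) (.t t115 ok115) cl104

theorem cl106 : Clo K (Helper55.TR.GH 1 Helper55.TR.BrU [0,0,0,0,0,1]) r122 :=
  .w [n0,n0,n0,n0,n0,n0,n0,n0,n0,n0,n0,n0,m1,n2] (e' := [n1,n0,n0,n0,n0,n0,n0,n0,n0,n0,n0,n0,n1,m2]) (by decide +kernel) (.t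
  t118 ok118) (.t t119 ok119)

theorem cl107 : Clo K (Helper55.TR.GH 1 Helper55.TR.BrU [0,0,0,0,0,1]) r116 :=
  .i [n1,n0,m1,m1,n1,n0,n0,n2,n0,n2] (e' := [n0,n0,n1,n1,m1,n0,n0,m2,n0,m2]) (by decide +kernel)
  (by decide +kernel) cl105 cl106

theorem cl108 : Clo K (Helper55.TR.GH 1 Helper55.TR.BrU [0,0,0,0,0,1]) r115 :=
  .i [n1,n0,n1,n1,n0,n0,n0,n1,n0,n1,n2] (e' := [n0,n0,m1,m1,n0,n0,n0,m1,n0,m1,m2]) (by decide +kernel)
  (by decide +kernel) cl103 cl107

theorem cl109 : Clo K (Helper55.TR.GH 1 Helper55.TR.BrU [0,0,0,0,0,1]) r114 :=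
  .i [n1,n0,n1,n1,n0,n0,n0,n0,n0,n0,n6] (e' := [n0,n0,m1,m1,n0,n0,n0,n0,n0,n0,m6]) (by decide +kernel)
  (by decide +kernel) (.t t108 ok108) cl108

theorem cl110 : Clo K (Helper55.TR.GH 1 Helper55.TR.BrU [0,0,0,0,0,1]) l113 :=
  .i [n1,n0,m1,m1,n0,n0,n0,n0,n0,n0,m5] (e' := [n0,n0,n1,n1,n0,n0,n0,n0,n0,n0,n5]) (by decide +kernel)
  (by decide +kernel) (.t t107 ok107) cl109

theorem cl111 : Clo K (Helper55.TR.GH 1 Helper55.TR.BrU [0,0,0,0,0,1]) r128 :=
  .w [n0,n0,n0,n0,n0,n0,n0,n0,n0,n0,n0,n0,n1,m2] (e' := [n1,n0,n0,n0,n0,n0,n0,n0,n0,n0,n0,n0,m1,n2]) (by decide +kernel) (.t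
  t122 ok122) (.t t123 ok123)

theorem cl112 : Clo K (Helper55.TR.GH 1 Helper55.TR.BrU [0,0,0,0,0,1]) r127 :=
  .w [n0,n0,n0,n0,n0,n0,n0,n0,n0,n0,n0,n0,m1,n2] (e' := [n1,n0,n0,n0,n0,n0,n0,n0,n0,n0,n0,n0,n1,m2]) (by decide +kernel) (.t
  t121 ok121) cl111

theorem cl113 : Clo K (Helper55.TR.GH 1 Helper55.TR.BrU [0,0,0,0,0,1]) l126 :=
  .i [n1,n0,m1,m1,n1,n0,n0,n2,n0,n2] (e' := [n0,n0,n1,n1,m1,n0,n0,m2,n0,m2]) (by decide +kernel)
  (by decide +kernel) (.t t120 ok120) cl112

theorem cl114 : Clo K (Helper55.TR.GH 1 Helper55.TR.BrU [0,0,0,0,0,1]) r130 :=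
  .w [n0,n0,n0,n0,n0,n0,n0,n0,n0,n0,n0,n0,m1,n2] (e' := [n1,n0,n0,n0,n0,n0,n0,n0,n0,n0,n0,n0,n1,m2]) (by decide +kernel) (.t
  t125 ok125) (.t t126 ok126)

theorem cl115 : Clo K (Helper55.TR.GH 1 Helper55.TR.BrU [0,0,0,0,0,1]) r126 :=
  .w [n0,n0,n0,n0,n0,n0,n0,n0,n0,n0,n0,n0,n1,m2] (e' := [n1,n0,n0,n0,n0,n0,n0,n0,n0,n0,n0,n0,m1,n2]) (by decide +kernel) (.t
  t124 ok124) cl114

theorem cl116 : Clo K (Helper55.TR.GH 1 Helper55.TR.BrU [0,0,0,0,0,1]) r113 :=
  .i [n1,n0,n1,n1,m1,n0,n0,m2,n0,m2] (e' := [n0,n0,m1,m1,n1,n0,n0,n2,n0,n2]) (by decide +kernel)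
  (by decide +kernel) cl113 cl115

theorem cl117 : Clo K (Helper55.TR.GH 1 Helper55.TR.BrU [0,0,0,0,0,1]) l112 :=
  .i [n1,n0,n1,n1,n0,n0,n0,n0,n0,n0,n5] (e' := [n0,n0,m1,m1,n0,n0,n0,n0,n0,n0,m5]) (by decide +kernel)
  (by decide +kernel) cl110 cl116

theorem cl118 : Clo K (Helper55.TR.GH 1 Helper55.TR.BrU [0,0,0,0,0,1]) r134 :=
  .w [n0,n0,n0,n0,n0,n0,n0,n0,n0,n0,n0,n0,n1,m2] (e' := [n1,n0,n0,n0,n0,n0,n0,n0,n0,n0,n0,n0,m1,n2]) (by decide +kernel) (.t
  t128 ok128) (.t t129 ok129)

theorem cl119 : Clo K (Helper55.TR.GH 1 Helper55.TR.BrU [0,0,0,0,0,1]) l133 :=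
  .i [n1,n0,n1,n1,n0,n0,n0,n2,n0,n1,n1] (e' := [n0,n0,m1,m1,n0,n0,n0,m2,n0,m1,m1]) (by decide +kernel)
  (by decide +kernel) (.t t127 ok127) cl118

theorem cl120 : Clo K (Helper55.TR.GH 1 Helper55.TR.BrU [0,0,0,0,0,1]) r139 :=
  .w [n0,n0,n0,n0,n0,n0,n0,n0,n0,n0,n0,n0,m1,n2] (e' := [n1,n0,n0,n0,n0,n0,n0,n0,n0,n0,n0,n0,n1,m2]) (by decide +kernel) (.t
  t133 ok133) (.t t134 ok134)

theorem cl121 : Clo K (Helper55.TR.GH 1 Helper55.TR.BrU [0,0,0,0,0,1]) r138 :=
  .w [n0,n0,n0,n0,n0,n0,n0,n0,n0,n0,n0,n0,n1,m2] (e' := [n1,n0,n0,n0,n0,n0,n0,n0,n0,n0,n0,n0,m1,n2]) (by decide +kernel) (.t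
  t132 ok132) cl120

theorem cl122 : Clo K (Helper55.TR.GH 1 Helper55.TR.BrU [0,0,0,0,0,1]) l137 :=
  .i [n1,n0,m1,m1,n0,n0,n0,m2,n0,m2] (e' := [n0,n0,n1,n1,n0,n0,n0,n2,n0,n2]) (by decide +kernel)
  (by decide +kernel) (.t t131 ok131) cl121

theorem cl123 : Clo K (Helper55.TR.GH 1 Helper55.TR.BrU [0,0,0,0,0,1]) r141 :=
  .w [n0,n0,n0,n0,n0,n0,n0,n0,n0,n0,n0,n0,n1,m2] (e' := [n1,n0,n0,n0,n0,n0,n0,n0,n0,n0,n0,n0,m1,n2]) (by decide +kernel) (.t
  t136 ok136) (.t t137 ok137)

theorem cl124 : Clo K (Helper55.TR.GH 1 Helper55.TR.BrU [0,0,0,0,0,1]) r137 :=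
  .w [n0,n0,n0,n0,n0,n0,n0,n0,n0,n0,n0,n0,m1,n2] (e' := [n1,n0,n0,n0,n0,n0,n0,n0,n0,n0,n0,n0,n1,m2]) (by decide +kernel) (.t
  t135 ok135) cl123

theorem cl125 : Clo K (Helper55.TR.GH 1 Helper55.TR.BrU [0,0,0,0,0,1]) r136 :=
  .i [n1,n0,n1,n1,n0,n0,n0,n2,n0,n2] (e' := [n0,n0,m1,m1,n0,n0,n0,m2,n0,m2]) (by decide +kernel)
  (by decide +kernel) cl122 cl124

theorem cl126 : Clo K (Helper55.TR.GH 1 Helper55.TR.BrU [0,0,0,0,0,1]) r133 :=
  .i [n1,n0,n1,n1,n0,n0,n0,n0,n0,n0,n7] (e' := [n0,n0,m1,m1,n0,n0,n0,n0,n0,n0,m7]) (by decide +kernel)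
  (by decide +kernel) (.t t130 ok130) cl125

theorem cl127 : Clo K (Helper55.TR.GH 1 Helper55.TR.BrU [0,0,0,0,0,1]) l132 :=
  .i [n1,n0,m1,m1,n0,n0,n0,m2,n0,m1,m1] (e' := [n0,n0,n1,n1,n0,n0,n0,n2,n0,n1,n1]) (by decide +kernel)
  (by decide +kernel) cl119 cl126

theorem cl128 : Clo K (Helper55.TR.GH 1 Helper55.TR.BrU [0,0,0,0,0,1]) r143 :=
  .w [n0,n0,n0,n0,n0,n0,n0,n0,n0,n0,n0,n0,m1,n2] (e' := [n1,n0,n0,n0,n0,n0,n0,n0,n0,n0,n0,n0,n1,m2]) (by decide +kernel) (.t
  t139 ok139) (.t t140 ok140)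

theorem cl129 : Clo K (Helper55.TR.GH 1 Helper55.TR.BrU [0,0,0,0,0,1]) r132 :=
  .w [n0,n0,n0,n0,n0,n0,n0,n0,n0,n0,n0,n0,n1,m2] (e' := [n1,n0,n0,n0,n0,n0,n0,n0,n0,n0,n0,n0,m1,n2]) (by decide +kernel) (.t
  t138 ok138) cl128

theorem cl130 : Clo K (Helper55.TR.GH 1 Helper55.TR.BrU [0,0,0,0,0,1]) r112 :=
  .i [n1,n0,m1,m1,n0,n0,n0,n0,n0,n0,m7] (e' := [n0,n0,n1,n1,n0,n0,n0,n0,n0,n0,n7]) (by decide +kernel)
  (by decide +kernel) cl127 cl129

theorem cl131 : Clo K (Helper55.TR.GH 1 Helper55.TR.BrU [0,0,0,0,0,1]) r111 :=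
  .i [n1,n0,m1,m1,n0,n0,n0,n0,n0,n0,m6] (e' := [n0,n0,n1,n1,n0,n0,n0,n0,n0,n0,n6]) (by decide +kernel)
  (by decide +kernel) cl117 cl130

theorem cl132 : Clo K (Helper55.TR.GH 1 Helper55.TR.BrU [0,0,0,0,0,1]) l110 :=
  .i [n1,n0,n1,n1,m1,n0,n0,m2,n0,m1,m1] (e' := [n0,n0,m1,m1,n1,n0,n0,n2,n0,n1,n1]) (by decide +kernel)
  (by decide +kernel) (.t t106 ok106) cl131

theorem cl133 : Clo K (Helper55.TR.GH 1 Helper55.TR.BrU [0,0,0,0,0,1]) r153 :=
  .w [n0,n0,n0,n0,n0,n0,n0,n0,n0,n0,n0,n0,n1,m2] (e' := [n1,n0,n0,n0,n0,n0,n0,n0,n0,n0,n0,n0,m1,n2]) (by decide +kernel) (.t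
  t146 ok146) (.t t147 ok147)

theorem cl134 : Clo K (Helper55.TR.GH 1 Helper55.TR.BrU [0,0,0,0,0,1]) r152 :=
  .w [n0,n0,n0,n0,n0,n0,n0,n0,n0,n0,n0,n0,m1,n2] (e' := [n1,n0,n0,n0,n0,n0,n0,n0,n0,n0,n0,n0,n1,m2]) (by decide +kernel) (.t
  t145 ok145) cl133

theorem cl135 : Clo K (Helper55.TR.GH 1 Helper55.TR.BrU [0,0,0,0,0,1]) l151 :=
  .i [n1,n0,n1,n1,m1,n0,n0,n0,n0,n0,m7] (e' := [n0,n0,m1,m1,n1,n0,n0,n0,n0,n0,n7]) (by decide +kernel)
  (by decide +kernel) (.t t144 ok144) cl134

theorem cl136 : Clo K (Helper55.TR.GH 1 Helper55.TR.BrU [0,0,0,0,0,1]) r156 :=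
  .w [n0,n0,n0,n0,n0,n0,n0,n0,n0,n0,n0,n0,m1,n2] (e' := [n1,n0,n0,n0,n0,n0,n0,n0,n0,n0,n0,n0,n1,m2]) (by decide +kernel) (.t
  t149 ok149) (.t t150 ok150)

theorem cl137 : Clo K (Helper55.TR.GH 1 Helper55.TR.BrU [0,0,0,0,0,1]) l155 :=
  .i [n1,n0,n3,n3,m1,n0,n0,n0,n0,n0,n4] (e' := [n0,n0,m3,m3,n1,n0,n0,n0,n0,n0,m4]) (by decide +kernel)
  (by decide +kernel) (.t t148 ok148) cl136

theorem cl138 : Clo K (Helper55.TR.GH 1 Helper55.TR.BrU [0,0,0,0,0,1]) r158 :=
  .w [n0,n0,n0,n0,n0,n0,n0,n0,n0,n0,n0,n0,n1,m2] (e' := [n1,n0,n0,n0,n0,n0,n0,n0,n0,n0,n0,n0,m1,n2]) (by decide +kernel) (.t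
  t152 ok152) (.t t153 ok153)

theorem cl139 : Clo K (Helper55.TR.GH 1 Helper55.TR.BrU [0,0,0,0,0,1]) r155 :=
  .w [n0,n0,n0,n0,n0,n0,n0,n0,n0,n0,n0,n0,m1,n2] (e' := [n1,n0,n0,n0,n0,n0,n0,n0,n0,n0,n0,n0,n1,m2]) (by decide +kernel) (.t
  t151 ok151) cl138

theorem cl140 : Clo K (Helper55.TR.GH 1 Helper55.TR.BrU [0,0,0,0,0,1]) r151 :=
  .i [n1,n0,m3,m3,n1,n0,n0,n0,n0,n0,m4] (e' := [n0,n0,n3,n3,m1,n0,n0,n0,n0,n0,n4]) (by decide +kernel)
  (by decide +kernel) cl137 cl139

theorem cl141 : Clo K (Helper55.TR.GH 1 Helper55.TR.BrU [0,0,0,0,0,1]) r150 :=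
  .i [n1,n0,m1,m1,n1,n0,n0,n0,n0,n0,n7] (e' := [n0,n0,n1,n1,m1,n0,n0,n0,n0,n0,m7]) (by decide +kernel)
  (by decide +kernel) cl135 cl140

theorem cl142 : Clo K (Helper55.TR.GH 1 Helper55.TR.BrU [0,0,0,0,0,1]) l149 :=
  .i [n1,n0,n3,n3,m2,n0,n0,n0,n0,n0,m8] (e' := [n0,n0,m3,m3,n2,n0,n0,n0,n0,n0,n8]) (by decide +kernel)
  (by decide +kernel) (.t t143 ok143) cl141

theorem cl143 : Clo K (Helper55.TR.GH 1 Helper55.TR.BrU [0,0,0,0,0,1]) r160 :=
  .w [n0,n0,n0,n0,n0,n0,n0,n0,n0,n0,n0,n0,n1,m2] (e' := [n1,n0,n0,n0,n0,n0,n0,n0,n0,n0,n0,n0,m1,n2]) (by decide +kernel) (.t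
  t155 ok155) (.t t156 ok156)

theorem cl144 : Clo K (Helper55.TR.GH 1 Helper55.TR.BrU [0,0,0,0,0,1]) r149 :=
  .w [n0,n0,n0,n0,n0,n0,n0,n0,n0,n0,n0,n0,m1,n2] (e' := [n1,n0,n0,n0,n0,n0,n0,n0,n0,n0,n0,n0,n1,m2]) (by decide +kernel) (.t
  t154 ok154) cl143

theorem cl145 : Clo K (Helper55.TR.GH 1 Helper55.TR.BrU [0,0,0,0,0,1]) r148 :=
  .i [n1,n0,m3,m3,n2,n0,n0,n0,n0,n0,n8] (e' := [n0,n0,n3,n3,m2,n0,n0,n0,n0,n0,m8]) (by decide +kernel)
  (by decide +kernel) cl142 cl144

theorem cl146 : Clo K (Helper55.TR.GH 1 Helper55.TR.BrU [0,0,0,0,0,1]) l147 :=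
  .i [n1,n0,n1,n1,m1,n0,n0,m2,n0,n0,m2] (e' := [n0,n0,m1,m1,n1,n0,n0,n2,n0,n0,n2]) (by decide +kernel)
  (by decide +kernel) (.t t142 ok142) cl145

theorem cl147 : Clo K (Helper55.TR.GH 1 Helper55.TR.BrU [0,0,0,0,0,1]) r162 :=
  .w [n0,n0,n0,n0,n0,n0,n0,n0,n0,n0,n0,n0,n1,m2] (e' := [n1,n0,n0,n0,n0,n0,n0,n0,n0,n0,n0,n0,m1,n2]) (by decide +kernel) (.t
  t158 ok158) (.t t159 ok159)

theorem cl148 : Clo K (Helper55.TR.GH 1 Helper55.TR.BrU [0,0,0,0,0,1]) r147 :=
  .w [n0,n0,n0,n0,n0,n0,n0,n0,n0,n0,n0,n0,m1,n2] (e' := [n1,n0,n0,n0,n0,n0,n0,n0,n0,n0,n0,n0,n1,m2]) (by decide +kernel) (.t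
  t157 ok157) cl147

theorem cl149 : Clo K (Helper55.TR.GH 1 Helper55.TR.BrU [0,0,0,0,0,1]) r146 :=
  .i [n1,n0,m1,m1,n1,n0,n0,n2,n0,n0,n2] (e' := [n0,n0,n1,n1,m1,n0,n0,m2,n0,n0,m2]) (by decide +kernel)
  (by decide +kernel) cl146 cl148

theorem cl150 : Clo K (Helper55.TR.GH 1 Helper55.TR.BrU [0,0,0,0,0,1]) l145 :=
  .i [n1,n0,m1,m1,n0,n0,n0,n0,n0,n0,m5] (e' := [n0,n0,n1,n1,n0,n0,n0,n0,n0,n0,n5]) (by decide +kernel)
  (by decide +kernel) (.t t141 ok141) cl149

theorem cl151 : Clo K (Helper55.TR.GH 1 Helper55.TR.BrU [0,0,0,0,0,1]) r166 :=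
  .w [n0,n0,n0,n0,n0,n0,n0,n0,n0,n0,n0,n0,m1,n2] (e' := [n1,n0,n0,n0,n0,n0,n0,n0,n0,n0,n0,n0,n1,m2]) (by decide +kernel) (.t
  t162 ok162) (.t t163 ok163)

theorem cl152 : Clo K (Helper55.TR.GH 1 Helper55.TR.BrU [0,0,0,0,0,1]) r165 :=
  .w [n0,n0,n0,n0,n0,n0,n0,n0,n0,n0,n0,n0,n1,m2] (e' := [n1,n0,n0,n0,n0,n0,n0,n0,n0,n0,n0,n0,m1,n2]) (by decide +kernel) (.t
  t161 ok161) cl151

theorem cl153 : Clo K (Helper55.TR.GH 1 Helper55.TR.BrU [0,0,0,0,0,1]) l164 :=
  .i [n1,n0,n1,n1,m1,n0,n0,m2,n0,n0,m2] (e' := [n0,n0,m1,m1,n1,n0,n0,n2,n0,n0,n2]) (by decide +kernel)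
  (by decide +kernel) (.t t160 ok160) cl152

theorem cl154 : Clo K (Helper55.TR.GH 1 Helper55.TR.BrU [0,0,0,0,0,1]) r168 :=
  .w [n0,n0,n0,n0,n0,n0,n0,n0,n0,n0,n0,n0,m1,n2] (e' := [n1,n0,n0,n0,n0,n0,n0,n0,n0,n0,n0,n0,n1,m2]) (by decide +kernel) (.t
  t165 ok165) (.t t166 ok166)

theorem cl155 : Clo K (Helper55.TR.GH 1 Helper55.TR.BrU [0,0,0,0,0,1]) r164 :=
  .w [n0,n0,n0,n0,n0,n0,n0,n0,n0,n0,n0,n0,n1,m2] (e' := [n1,n0,n0,n0,n0,n0,n0,n0,n0,n0,n0,n0,m1,n2]) (by decide +kernel) (.t
  t164 ok164) cl154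

theorem cl156 : Clo K (Helper55.TR.GH 1 Helper55.TR.BrU [0,0,0,0,0,1]) r145 :=
  .i [n1,n0,m1,m1,n1,n0,n0,n2,n0,n0,n2] (e' := [n0,n0,n1,n1,m1,n0,n0,m2,n0,n0,m2]) (by decide +kernel)
  (by decide +kernel) cl153 cl155

theorem cl157 : Clo K (Helper55.TR.GH 1 Helper55.TR.BrU [0,0,0,0,0,1]) r110 :=
  .i [n1,n0,n1,n1,n0,n0,n0,n0,n0,n0,n5] (e' := [n0,n0,m1,m1,n0,n0,n0,n0,n0,n0,m5]) (by decide +kernel)
  (by decide +kernel) cl150 cl156

theorem cl158 : Clo K (Helper55.TR.GH 1 Helper55.TR.BrU [0,0,0,0,0,1]) r109 :=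
  .i [n1,n0,m1,m1,n1,n0,n0,n2,n0,n1,n1] (e' := [n0,n0,n1,n1,m1,n0,n0,m2,n0,m1,m1]) (by decide +kernel)
  (by decide +kernel) cl132 cl157

theorem cl159 : Clo K (Helper55.TR.GH 1 Helper55.TR.BrU [0,0,0,0,0,1]) l108 :=
  .i [n1,n0,n1,n1,m1,n0,n0,n0,n0,n0,m6] (e' := [n0,n0,m1,m1,n1,n0,n0,n0,n0,n0,n6]) (by decide +kernel)
  (by decide +kernel) (.t t105 ok105) cl158

theorem cl160 : Clo K (Helper55.TR.GH 1 Helper55.TR.BrU [0,0,0,0,0,1]) r170 :=
  .w [n0,n0,n0,n0,n0,n0,n0,n0,n0,n0,n0,n0,m1,n2] (e' := [n1,n0,n0,n0,n0,n0,n0,n0,n0,n0,n0,n0,n1,m2]) (by decide +kernel) (.t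
  t168 ok168) (.t t169 ok169)

theorem cl161 : Clo K (Helper55.TR.GH 1 Helper55.TR.BrU [0,0,0,0,0,1]) r108 :=
  .w [n0,n0,n0,n0,n0,n0,n0,n0,n0,n0,n0,n0,n1,m2] (e' := [n1,n0,n0,n0,n0,n0,n0,n0,n0,n0,n0,n0,m1,n2]) (by decide +kernel) (.t
  t167 ok167) cl160

theorem cl162 : Clo K (Helper55.TR.GH 1 Helper55.TR.BrU [0,0,0,0,0,1]) r103 :=
  .i [n1,n0,m1,m1,n1,n0,n0,n0,n0,n0,n6] (e' := [n0,n0,n1,n1,m1,n0,n0,n0,n0,n0,m6]) (by decide +kernel)
  (by decide +kernel) cl159 cl161

theorem cl163 : Clo K (Helper55.TR.GH 1 Helper55.TR.BrU [0,0,0,0,0,1]) r102 :=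
  .i [n1,n0,m4,m4,n2,n0,n0,n0,n0,n0,n3] (e' := [n0,n0,n4,n4,m2,n0,n0,n0,n0,n0,m3]) (by decide +kernel)
  (by decide +kernel) cl98 cl162

theorem cl164 : Clo K (Helper55.TR.GH 1 Helper55.TR.BrU [0,0,0,0,0,1]) l101 :=
  .i [n1,n0,n3,n3,m2,n0,n0,n0,n0,n0,m7] (e' := [n0,n0,m3,m3,n2,n0,n0,n0,n0,n0,n7]) (by decide +kernel)
  (by decide +kernel) (.t t99 ok99) cl163

theorem cl165 : Clo K (Helper55.TR.GH 1 Helper55.TR.BrU [0,0,0,0,0,1]) r172 :=
  .w [n0,n0,n0,n0,n0,n0,n0,n0,n0,n0,n0,n0,m1,n2] (e' := [n1,n0,n0,n0,n0,n0,n0,n0,n0,n0,n0,n0,n1,m2]) (by decide +kernel) (.t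
  t171 ok171) (.t t172 ok172)

theorem cl166 : Clo K (Helper55.TR.GH 1 Helper55.TR.BrU [0,0,0,0,0,1]) r101 :=
  .w [n0,n0,n0,n0,n0,n0,n0,n0,n0,n0,n0,n0,n1,m2] (e' := [n1,n0,n0,n0,n0,n0,n0,n0,n0,n0,n0,n0,m1,n2]) (by decide +kernel) (.t
  t170 ok170) cl165

theorem cl167 : Clo K (Helper55.TR.GH 1 Helper55.TR.BrU [0,0,0,0,0,1]) r100 :=
  .i [n1,n0,m3,m3,n2,n0,n0,n0,n0,n0,n7] (e' := [n0,n0,n3,n3,m2,n0,n0,n0,n0,n0,m7]) (by decide +kernel)
  (by decide +kernel) cl164 cl166

theorem cl168 : Clo K (Helper55.TR.GH 1 Helper55.TR.BrU [0,0,0,0,0,1]) l99 :=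
  .i [n1,n0,n2,n2,m1,n0,n0,n0,n0,m2,n1] (e' := [n0,n0,m2,m2,n1,n0,n0,n0,n0,n2,m1]) (by decide +kernel)
  (by decide +kernel) (.t t98 ok98) cl167

theorem cl169 : Clo K (Helper55.TR.GH 1 Helper55.TR.BrU [0,0,0,0,0,1]) r178 :=
  .w [n0,n0,n0,n0,n0,n0,n0,n0,n0,n0,n0,n0,m1,n2] (e' := [n1,n0,n0,n0,n0,n0,n0,n0,n0,n0,n0,n0,n1,m2]) (by decide +kernel) (.t
  t176 ok176) (.t t177 ok177)

theorem cl170 : Clo K (Helper55.TR.GH 1 Helper55.TR.BrU [0,0,0,0,0,1]) r177 :=
  .w [n0,n0,n0,n0,n0,n0,n0,n0,n0,n0,n0,n0,n1,m2] (e' := [n1,n0,n0,n0,n0,n0,n0,n0,n0,n0,n0,n0,m1,n2]) (by decide +kernel) (.t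
  t175 ok175) cl169

theorem cl171 : Clo K (Helper55.TR.GH 1 Helper55.TR.BrU [0,0,0,0,0,1]) l176 :=
  .i [n1,n0,m1,m1,n0,n0,n0,m2,n0,m1,n1] (e' := [n0,n0,n1,n1,n0,n0,n0,n2,n0,n1,m1]) (by decide +kernel)
  (by decide +kernel) (.t t174 ok174) cl170

theorem cl172 : Clo K (Helper55.TR.GH 1 Helper55.TR.BrU [0,0,0,0,0,1]) r180 :=
  .w [n0,n0,n0,n0,n0,n0,n0,n0,n0,n0,n0,n0,m1,n2] (e' := [n1,n0,n0,n0,n0,n0,n0,n0,n0,n0,n0,n0,n1,m2]) (by decide +kernel) (.t
  t179 ok179) (.t t180 ok180)

theorem cl173 : Clo K (Helper55.TR.GH 1 Helper55.TR.BrU [0,0,0,0,0,1]) r176 :=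
  .w [n0,n0,n0,n0,n0,n0,n0,n0,n0,n0,n0,n0,n1,m2] (e' := [n1,n0,n0,n0,n0,n0,n0,n0,n0,n0,n0,n0,m1,n2]) (by decide +kernel) (.t
  t178 ok178) cl172

theorem cl174 : Clo K (Helper55.TR.GH 1 Helper55.TR.BrU [0,0,0,0,0,1]) r175 :=
  .i [n1,n0,n1,n1,n0,n0,n0,n2,n0,n1,m1] (e' := [n0,n0,m1,m1,n0,n0,n0,m2,n0,m1,n1]) (by decide +kernel)
  (by decide +kernel) cl171 cl173

theorem cl175 : Clo K (Helper55.TR.GH 1 Helper55.TR.BrU [0,0,0,0,0,1]) l174 :=
  .i [n1,n0,n1,n1,n0,n0,n0,n0,n0,n0,n5] (e' := [n0,n0,m1,m1,n0,n0,n0,n0,n0,n0,m5]) (by decide +kernel)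
  (by decide +kernel) (.t t173 ok173) cl174

theorem cl176 : Clo K (Helper55.TR.GH 1 Helper55.TR.BrU [0,0,0,0,0,1]) l188 :=
  .w [n0,n0,n0,n0,n0,n0,n0,n0,n0,n0,n0,n0,m1,n2] (e' := [n1,n0,n0,n0,n0,n0,n0,n0,n0,n0,n0,n0,n1,m2]) (by decide +kernel) (.t
  t184 ok184) (.t t185 ok185)

theorem cl177 : Clo K (Helper55.TR.GH 1 Helper55.TR.BrU [0,0,0,0,0,1]) r188 :=
  .w [n0,n0,n0,n0,n0,n0,n0,n0,n0,n0,n0,n0,n1,m2] (e' := [n1,n0,n0,n0,n0,n0,n0,n0,n0,n0,n0,n0,m1,n2]) (by decide +kernel) (.t
  t186 ok186) (.t t187 ok187)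

theorem cl178 : Clo K (Helper55.TR.GH 1 Helper55.TR.BrU [0,0,0,0,0,1]) r187 :=
  .i [n1,n0,n1,n1,n0,n0,n0,n2,n0,n0,n2] (e' := [n0,n0,m1,m1,n0,n0,n0,m2,n0,n0,m2]) (by decide +kernel)
  (by decide +kernel) cl176 cl177

theorem cl179 : Clo K (Helper55.TR.GH 1 Helper55.TR.BrU [0,0,0,0,0,1]) l186 :=
  .i [n1,n0,m1,m1,n0,n0,n0,m1,n0,m2,m1] (e' := [n0,n0,n1,n1,n0,n0,n0,n1,n0,n2,n1]) (by decide +kernel)
  (by decide +kernel) (.t t183 ok183) cl178

theorem cl180 : Clo K (Helper55.TR.GH 1 Helper55.TR.BrU [0,0,0,0,0,1]) r199 :=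
  .w [n0,n0,n0,n0,n0,n0,n0,n0,n0,n0,n0,n0,m1,n2] (e' := [n1,n0,n0,n0,n0,n0,n0,n0,n0,n0,n0,n0,n1,m2]) (by decide +kernel) (.t
  t193 ok193) (.t t194 ok194)

theorem cl181 : Clo K (Helper55.TR.GH 1 Helper55.TR.BrU [0,0,0,0,0,1]) r198 :=
  .w [n0,n0,n0,n0,n0,n0,n0,n0,n0,n0,n0,n0,n1,m2] (e' := [n1,n0,n0,n0,n0,n0,n0,n0,n0,n0,n0,n0,m1,n2]) (by decide +kernel) (.t
  t192 ok192) cl180

theorem cl182 : Clo K (Helper55.TR.GH 1 Helper55.TR.BrU [0,0,0,0,0,1]) l197 :=
  .i [n1,n0,n2,n2,m1,n0,n0,n0,n0,n0,m5] (e' := [n0,n0,m2,m2,n1,n0,n0,n0,n0,n0,n5]) (by decide +kernel)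
  (by decide +kernel) (.t t191 ok191) cl181

theorem cl183 : Clo K (Helper55.TR.GH 1 Helper55.TR.BrU [0,0,0,0,0,1]) l202 :=
  .w [n0,n0,n0,n0,n0,n0,n0,n0,n0,n0,n0,n0,m1,n2] (e' := [n1,n0,n0,n0,n0,n0,n0,n0,n0,n0,n0,n0,n1,m2]) (by decide +kernel) (.t
  t195 ok195) (.t t196 ok196)

theorem cl184 : Clo K (Helper55.TR.GH 1 Helper55.TR.BrU [0,0,0,0,0,1]) r204 :=
  .w [n0,n0,n0,n0,n0,n0,n0,n0,n0,n0,n0,n0,n1,m2] (e' := [n1,n0,n0,n0,n0,n0,n0,n0,n0,n0,n0,n0,m1,n2]) (by decide +kernel) (.t
  t198 ok198) (.t t199 ok199)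

theorem cl185 : Clo K (Helper55.TR.GH 1 Helper55.TR.BrU [0,0,0,0,0,1]) r202 :=
  .w [n0,n0,n0,n0,n0,n0,n0,n0,n0,n0,n0,n0,m1,n2] (e' := [n1,n0,n0,n0,n0,n0,n0,n0,n0,n0,n0,n0,n1,m2]) (by decide +kernel) (.t
  t197 ok197) cl184

theorem cl186 : Clo K (Helper55.TR.GH 1 Helper55.TR.BrU [0,0,0,0,0,1]) l201 :=
  .i [n1,n0,m2,m2,n1,n0,n0,n1,n0,n0,m2] (e' := [n0,n0,n2,n2,m1,n0,n0,m1,n0,n0,n2]) (by decide +kernel)
  (by decide +kernel) cl183 cl185

theorem cl187 : Clo K (Helper55.TR.GH 1 Helper55.TR.BrU [0,0,0,0,0,1]) r210 :=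
  .w [n0,n0,n0,n0,n0,n0,n0,n0,n0,n0,n0,n0,m1,n2] (e' := [n1,n0,n0,n0,n0,n0,n0,n0,n0,n0,n0,n0,n1,m2]) (by decide +kernel) (.t
  t203 ok203) (.t t204 ok204)

theorem cl188 : Clo K (Helper55.TR.GH 1 Helper55.TR.BrU [0,0,0,0,0,1]) r209 :=
  .w [n0,n0,n0,n0,n0,n0,n0,n0,n0,n0,n0,n0,n1,m2] (e' := [n1,n0,n0,n0,n0,n0,n0,n0,n0,n0,n0,n0,m1,n2]) (by decide +kernel) (.t
  t202 ok202) cl187

theorem cl189 : Clo K (Helper55.TR.GH 1 Helper55.TR.BrU [0,0,0,0,0,1]) l208 :=
  .i [n1,n0,n2,n2,m1,n0,n0,m1,n0,n0,n2] (e' := [n0,n0,m2,m2,n1,n0,n0,n1,n0,n0,m2]) (by decide +kernel)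
  (by decide +kernel) (.t t201 ok201) cl188

theorem cl190 : Clo K (Helper55.TR.GH 1 Helper55.TR.BrU [0,0,0,0,0,1]) r208 :=
  .w [n0,n0,n0,n0,n0,n0,n0,n0,n0,n0,n0,n0,m1,n2] (e' := [n1,n0,n0,n0,n0,n0,n0,n0,n0,n0,n0,n0,n1,m2]) (by decide +kernel) (.t
  t205 ok205) (.t t206 ok206)

theorem cl191 : Clo K (Helper55.TR.GH 1 Helper55.TR.BrU [0,0,0,0,0,1]) r207 :=
  .i [n1,n0,m2,m2,n1,n0,n0,n1,n0,n0,m2] (e' := [n0,n0,n2,n2,m1,n0,n0,m1,n0,n0,n2]) (by decide +kernel)
  (by decide +kernel) cl189 cl190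

theorem cl192 : Clo K (Helper55.TR.GH 1 Helper55.TR.BrU [0,0,0,0,0,1]) l206 :=
  .i [n1,n0,m3,m3,n1,n0,n0,n0,n0,n0,m7] (e' := [n0,n0,n3,n3,m1,n0,n0,n0,n0,n0,n7]) (by decide +kernel)
  (by decide +kernel) (.t t200 ok200) cl191

theorem cl193 : Clo K (Helper55.TR.GH 1 Helper55.TR.BrU [0,0,0,0,0,1]) r206 :=
  .w [n0,n0,n0,n0,n0,n0,n0,n0,n0,n0,n0,n0,m1,n2] (e' := [n1,n0,n0,n0,n0,n0,n0,n0,n0,n0,n0,n0,n1,m2]) (by decide +kernel) (.t
  t207 ok207) (.t t208 ok208)

theorem cl194 : Clo K (Helper55.TR.GH 1 Helper55.TR.BrU [0,0,0,0,0,1]) r201 :=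
  .i [n1,n0,n3,n3,m1,n0,n0,n0,n0,n0,n7] (e' := [n0,n0,m3,m3,n1,n0,n0,n0,n0,n0,m7]) (by decide +kernel)
  (by decide +kernel) cl192 cl193

theorem cl195 : Clo K (Helper55.TR.GH 1 Helper55.TR.BrU [0,0,0,0,0,1]) r197 :=
  .i [n1,n0,m4,m4,n2,n0,n0,n0,n0,n0,n5] (e' := [n0,n0,n4,n4,m2,n0,n0,n0,n0,n0,m5]) (by decide +kernel)
  (by decide +kernel) cl186 cl194

theorem cl196 : Clo K (Helper55.TR.GH 1 Helper55.TR.BrU [0,0,0,0,0,1]) r196 :=
  .i [n1,n0,m2,m2,n1,n0,n0,n0,n0,n0,n5] (e' := [n0,n0,n2,n2,m1,n0,n0,n0,n0,n0,m5]) (by decide +kernel)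
  (by decide +kernel) cl182 cl195

theorem cl197 : Clo K (Helper55.TR.GH 1 Helper55.TR.BrU [0,0,0,0,0,1]) l195 :=
  .i [n1,n0,n0,n0,n0,n0,n0,n0,n0,n1,m2] (e' := [n0,n0,n0,n0,n0,n0,n0,n0,n0,m1,n2]) (by decide +kernel)
  (by decide +kernel) (.t t190 ok190) cl196

theorem cl198 : Clo K (Helper55.TR.GH 1 Helper55.TR.BrU [0,0,0,0,0,1]) r195 :=
  .w [n0,n0,n0,n0,n0,n0,n0,n0,n0,n0,n0,n0,m1,n2] (e' := [n1,n0,n0,n0,n0,n0,n0,n0,n0,n0,n0,n0,n1,m2]) (by decide +kernel) (.t
  t209 ok209) (.t t210 ok210)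

theorem cl199 : Clo K (Helper55.TR.GH 1 Helper55.TR.BrU [0,0,0,0,0,1]) r194 :=
  .i [n1,n0,n0,n0,n0,n0,n0,n0,n0,m1,n2] (e' := [n0,n0,n0,n0,n0,n0,n0,n0,n0,n1,m2]) (by decide +kernel)
  (by decide +kernel) cl197 cl198

theorem cl200 : Clo K (Helper55.TR.GH 1 Helper55.TR.BrU [0,0,0,0,0,1]) l193 :=
  .i [n1,n0,n4,n4,m2,n0,n0,n0,n0,n0,m3] (e' := [n0,n0,m4,m4,n2,n0,n0,n0,n0,n0,n3]) (by decide +kernel)
  (by decide +kernel) (.t t189 ok189) cl199

theorem cl201 : Clo K (Helper55.TR.GH 1 Helper55.TR.BrU [0,0,0,0,0,1]) r217 :=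
  .w [n0,n0,n0,n0,n0,n0,n0,n0,n0,n0,n0,n0,m1,n2] (e' := [n1,n0,n0,n0,n0,n0,n0,n0,n0,n0,n0,n0,n1,m2]) (by decide +kernel) (.t
  t213 ok213) (.t t214 ok214)

theorem cl202 : Clo K (Helper55.TR.GH 1 Helper55.TR.BrU [0,0,0,0,0,1]) r216 :=
  .w [n0,n0,n0,n0,n0,n0,n0,n0,n0,n0,n0,n0,n1,m2] (e' := [n1,n0,n0,n0,n0,n0,n0,n0,n0,n0,n0,n0,m1,n2]) (by decide +kernel) (.t
  t212 ok212) cl201

theorem cl203 : Clo K (Helper55.TR.GH 1 Helper55.TR.BrU [0,0,0,0,0,1]) l215 :=
  .i [n1,n0,m1,m1,n0,n0,n0,n0,n0,n0,m6] (e' := [n0,n0,n1,n1,n0,n0,n0,n0,n0,n0,n6]) (by decide +kernel)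
  (by decide +kernel) (.t t211 ok211) cl202

theorem cl204 : Clo K (Helper55.TR.GH 1 Helper55.TR.BrU [0,0,0,0,0,1]) r219 :=
  .w [n0,n0,n0,n0,n0,n0,n0,n0,n0,n0,n0,n0,n1,m2] (e' := [n1,n0,n0,n0,n0,n0,n0,n0,n0,n0,n0,n0,m1,n2]) (by decide +kernel) (.t
  t216 ok216) (.t t217 ok217)

theorem cl205 : Clo K (Helper55.TR.GH 1 Helper55.TR.BrU [0,0,0,0,0,1]) r215 :=
  .w [n0,n0,n0,n0,n0,n0,n0,n0,n0,n0,n0,n0,m1,n2] (e' := [n1,n0,n0,n0,n0,n0,n0,n0,n0,n0,n0,n0,n1,m2]) (by decide +kernel) (.t
  t215 ok215) cl204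

theorem cl206 : Clo K (Helper55.TR.GH 1 Helper55.TR.BrU [0,0,0,0,0,1]) r193 :=
  .i [n1,n0,n1,n1,n0,n0,n0,n0,n0,n0,n6] (e' := [n0,n0,m1,m1,n0,n0,n0,n0,n0,n0,m6]) (by decide +kernel)
  (by decide +kernel) cl203 cl205

theorem cl207 : Clo K (Helper55.TR.GH 1 Helper55.TR.BrU [0,0,0,0,0,1]) r192 :=
  .i [n1,n0,m4,m4,n2,n0,n0,n0,n0,n0,n3] (e' := [n0,n0,n4,n4,m2,n0,n0,n0,n0,n0,m3]) (by decide +kernel)
  (by decide +kernel) cl200 cl206

theorem cl208 : Clo K (Helper55.TR.GH 1 Helper55.TR.BrU [0,0,0,0,0,1]) l191 :=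
  .i [n1,n0,n1,n1,m1,n0,n0,m2,n0,m1,m1] (e' := [n0,n0,m1,m1,n1,n0,n0,n2,n0,n1,n1]) (by decide +kernel)
  (by decide +kernel) (.t t188 ok188) cl207

theorem cl209 : Clo K (Helper55.TR.GH 1 Helper55.TR.BrU [0,0,0,0,0,1]) r227 :=
  .w [n0,n0,n0,n0,n0,n0,n0,n0,n0,n0,n0,n0,m1,n2] (e' := [n1,n0,n0,n0,n0,n0,n0,n0,n0,n0,n0,n0,n1,m2]) (by decide +kernel) (.t
  t222 ok222) (.t t223 ok223)

theorem cl210 : Clo K (Helper55.TR.GH 1 Helper55.TR.BrU [0,0,0,0,0,1]) r226 :=
  .w [n0,n0,n0,n0,n0,n0,n0,n0,n0,n0,n0,n0,n1,m2] (e' := [n1,n0,n0,n0,n0,n0,n0,n0,n0,n0,n0,n0,m1,n2]) (by decide +kernel) (.t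
  t221 ok221) cl209

theorem cl211 : Clo K (Helper55.TR.GH 1 Helper55.TR.BrU [0,0,0,0,0,1]) l225 :=
  .i [n1,n0,m1,m1,n0,n0,n0,n0,n0,n0,m7] (e' := [n0,n0,n1,n1,n0,n0,n0,n0,n0,n0,n7]) (by decide +kernel)
  (by decide +kernel) (.t t220 ok220) cl210

theorem cl212 : Clo K (Helper55.TR.GH 1 Helper55.TR.BrU [0,0,0,0,0,1]) l232 :=
  .w [n0,n0,n0,n0,n0,n0,n0,n0,n0,n0,n0,n0,m1,n2] (e' := [n1,n0,n0,n0,n0,n0,n0,n0,n0,n0,n0,n0,n1,m2]) (by decide +kernel) (.t
  t225 ok225) (.t t226 ok226)

theorem cl213 : Clo K (Helper55.TR.GH 1 Helper55.TR.BrU [0,0,0,0,0,1]) r232 :=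
  .w [n0,n0,n0,n0,n0,n0,n0,n0,n0,n0,n0,n0,m1,n2] (e' := [n1,n0,n0,n0,n0,n0,n0,n0,n0,n0,n0,n0,n1,m2]) (by decide +kernel) (.t
  t227 ok227) (.t t228 ok228)

theorem cl214 : Clo K (Helper55.TR.GH 1 Helper55.TR.BrU [0,0,0,0,0,1]) l231 :=
  .i [n1,n0,n1,n1,m1,n0,n0,n0,n0,n0,m8] (e' := [n0,n0,m1,m1,n1,n0,n0,n0,n0,n0,n8]) (by decide +kernel)
  (by decide +kernel) cl212 cl213

theorem cl215 : Clo K (Helper55.TR.GH 1 Helper55.TR.BrU [0,0,0,0,0,1]) r235 :=
  .w [n0,n0,n0,n0,n0,n0,n0,n0,n0,n0,n0,n0,n1,m2] (e' := [n1,n0,n0,n0,n0,n0,n0,n0,n0,n0,n0,n0,m1,n2]) (by decide +kernel) (.t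
  t230 ok230) (.t t231 ok231)

theorem cl216 : Clo K (Helper55.TR.GH 1 Helper55.TR.BrU [0,0,0,0,0,1]) r231 :=
  .w [n0,n0,n0,n0,n0,n0,n0,n0,n0,n0,n0,n0,m1,n2] (e' := [n1,n0,n0,n0,n0,n0,n0,n0,n0,n0,n0,n0,n1,m2]) (by decide +kernel) (.t
  t229 ok229) cl215

theorem cl217 : Clo K (Helper55.TR.GH 1 Helper55.TR.BrU [0,0,0,0,0,1]) r230 :=
  .i [n1,n0,m4,m4,n2,n0,n0,n0,n0,n0,n3] (e' := [n0,n0,n4,n4,m2,n0,n0,n0,n0,n0,m3]) (by decide +kernel)
  (by decide +kernel) cl214 cl216

theorem cl218 : Clo K (Helper55.TR.GH 1 Helper55.TR.BrU [0,0,0,0,0,1]) l229 :=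
  .i [n1,n0,m1,m1,n0,n0,n0,m2,n0,m1,n1] (e' := [n0,n0,n1,n1,n0,n0,n0,n2,n0,n1,m1]) (by decide +kernel)
  (by decide +kernel) (.t t224 ok224) cl217

theorem cl219 : Clo K (Helper55.TR.GH 1 Helper55.TR.BrU [0,0,0,0,0,1]) r238 :=
  .w [n0,n0,n0,n0,n0,n0,n0,n0,n0,n0,n0,n0,m1,n2] (e' := [n1,n0,n0,n0,n0,n0,n0,n0,n0,n0,n0,n0,n1,m2]) (by decide +kernel) (.t
  t233 ok233) (.t t234 ok234)

theorem cl220 : Clo K (Helper55.TR.GH 1 Helper55.TR.BrU [0,0,0,0,0,1]) l237 :=
  .i [n1,n0,n2,n2,m1,n0,n0,n0,n0,n0,m2] (e' := [n0,n0,m2,m2,n1,n0,n0,n0,n0,n0,n2]) (by decide +kernel)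
  (by decide +kernel) (.t t232 ok232) cl219

theorem cl221 : Clo K (Helper55.TR.GH 1 Helper55.TR.BrU [0,0,0,0,0,1]) r237 :=
  .w [n0,n0,n0,n0,n0,n0,n0,n0,n0,n0,n0,n0,m1,n2] (e' := [n1,n0,n0,n0,n0,n0,n0,n0,n0,n0,n0,n0,n1,m2]) (by decide +kernel) (.t
  t235 ok235) (.t t236 ok236)

theorem cl222 : Clo K (Helper55.TR.GH 1 Helper55.TR.BrU [0,0,0,0,0,1]) r229 :=
  .i [n1,n0,m2,m2,n1,n0,n0,n0,n0,n0,n2] (e' := [n0,n0,n2,n2,m1,n0,n0,n0,n0,n0,m2]) (by decide +kernel)
  (by decide +kernel) cl220 cl221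

theorem cl223 : Clo K (Helper55.TR.GH 1 Helper55.TR.BrU [0,0,0,0,0,1]) r225 :=
  .i [n1,n0,n1,n1,n0,n0,n0,n2,n0,n1,m1] (e' := [n0,n0,m1,m1,n0,n0,n0,m2,n0,m1,n1]) (by decide +kernel)
  (by decide +kernel) cl218 cl222

theorem cl224 : Clo K (Helper55.TR.GH 1 Helper55.TR.BrU [0,0,0,0,0,1]) r224 :=
  .i [n1,n0,n1,n1,n0,n0,n0,n0,n0,n0,n7] (e' := [n0,n0,m1,m1,n0,n0,n0,n0,n0,n0,m7]) (by decide +kernel)
  (by decide +kernel) cl211 cl223

theorem cl225 : Clo K (Helper55.TR.GH 1 Helper55.TR.BrU [0,0,0,0,0,1]) l223 :=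
  .i [n1,n0,m1,m1,n0,n0,n0,n0,n0,n0,m6] (e' := [n0,n0,n1,n1,n0,n0,n0,n0,n0,n0,n6]) (by decide +kernel)
  (by decide +kernel) (.t t219 ok219) cl224

theorem cl226 : Clo K (Helper55.TR.GH 1 Helper55.TR.BrU [0,0,0,0,0,1]) r241 :=
  .w [n0,n0,n0,n0,n0,n0,n0,n0,n0,n0,n0,n0,m1,n2] (e' := [n1,n0,n0,n0,n0,n0,n0,n0,n0,n0,n0,n0,n1,m2]) (by decide +kernel) (.t
  t238 ok238) (.t t239 ok239)

theorem cl227 : Clo K (Helper55.TR.GH 1 Helper55.TR.BrU [0,0,0,0,0,1]) r223 :=
  .w [n0,n0,n0,n0,n0,n0,n0,n0,n0,n0,n0,n0,n1,m2] (e' := [n1,n0,n0,n0,n0,n0,n0,n0,n0,n0,n0,n0,m1,n2]) (by decide +kernel) (.t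
  t237 ok237) cl226

theorem cl228 : Clo K (Helper55.TR.GH 1 Helper55.TR.BrU [0,0,0,0,0,1]) r222 :=
  .i [n1,n0,n1,n1,n0,n0,n0,n0,n0,n0,n6] (e' := [n0,n0,m1,m1,n0,n0,n0,n0,n0,n0,m6]) (by decide +kernel)
  (by decide +kernel) cl225 cl227

theorem cl229 : Clo K (Helper55.TR.GH 1 Helper55.TR.BrU [0,0,0,0,0,1]) l221 :=
  .i [n1,n0,n3,n3,m1,n0,n0,n0,n0,n0,n5] (e' := [n0,n0,m3,m3,n1,n0,n0,n0,n0,n0,m5]) (by decide +kernel)
  (by decide +kernel) (.t t218 ok218) cl228

theorem cl230 : Clo K (Helper55.TR.GH 1 Helper55.TR.BrU [0,0,0,0,0,1]) r247 :=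
  .w [n0,n0,n0,n0,n0,n0,n0,n0,n0,n0,n0,n0,n1,m2] (e' := [n1,n0,n0,n0,n0,n0,n0,n0,n0,n0,n0,n0,m1,n2]) (by decide +kernel) (.t
  t243 ok243) (.t t244 ok244)

theorem cl231 : Clo K (Helper55.TR.GH 1 Helper55.TR.BrU [0,0,0,0,0,1]) r246 :=
  .w [n0,n0,n0,n0,n0,n0,n0,n0,n0,n0,n0,n0,m1,n2] (e' := [n1,n0,n0,n0,n0,n0,n0,n0,n0,n0,n0,n0,n1,m2]) (by decide +kernel) (.t
  t242 ok242) cl230

theorem cl232 : Clo K (Helper55.TR.GH 1 Helper55.TR.BrU [0,0,0,0,0,1]) l245 :=
  .i [n1,n0,m1,m1,n0,n0,n0,n0,n0,n0,m7] (e' := [n0,n0,n1,n1,n0,n0,n0,n0,n0,n0,n7]) (by decide +kernel)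
  (by decide +kernel) (.t t241 ok241) cl231

theorem cl233 : Clo K (Helper55.TR.GH 1 Helper55.TR.BrU [0,0,0,0,0,1]) r251 :=
  .w [n0,n0,n0,n0,n0,n0,n0,n0,n0,n0,n0,n0,m1,n2] (e' := [n1,n0,n0,n0,n0,n0,n0,n0,n0,n0,n0,n0,n1,m2]) (by decide +kernel) (.t
  t247 ok247) (.t t248 ok248)

theorem cl234 : Clo K (Helper55.TR.GH 1 Helper55.TR.BrU [0,0,0,0,0,1]) r250 :=
  .w [n0,n0,n0,n0,n0,n0,n0,n0,n0,n0,n0,n0,n1,m2] (e' := [n1,n0,n0,n0,n0,n0,n0,n0,n0,n0,n0,n0,m1,n2]) (by decide +kernel) (.t
  t246 ok246) cl233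

theorem cl235 : Clo K (Helper55.TR.GH 1 Helper55.TR.BrU [0,0,0,0,0,1]) l249 :=
  .i [n1,n0,n1,n1,m1,n0,n0,n0,n0,n0,m8] (e' := [n0,n0,m1,m1,n1,n0,n0,n0,n0,n0,n8]) (by decide +kernel)
  (by decide +kernel) (.t t245 ok245) cl234

theorem cl236 : Clo K (Helper55.TR.GH 1 Helper55.TR.BrU [0,0,0,0,0,1]) r253 :=
  .w [n0,n0,n0,n0,n0,n0,n0,n0,n0,n0,n0,n0,n1,m2] (e' := [n1,n0,n0,n0,n0,n0,n0,n0,n0,n0,n0,n0,m1,n2]) (by decide +kernel) (.t
  t250 ok250) (.t t251 ok251)

theorem cl237 : Clo K (Helper55.TR.GH 1 Helper55.TR.BrU [0,0,0,0,0,1]) r249 :=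
  .w [n0,n0,n0,n0,n0,n0,n0,n0,n0,n0,n0,n0,m1,n2] (e' := [n1,n0,n0,n0,n0,n0,n0,n0,n0,n0,n0,n0,n1,m2]) (by decide +kernel) (.t
  t249 ok249) cl236

theorem cl238 : Clo K (Helper55.TR.GH 1 Helper55.TR.BrU [0,0,0,0,0,1]) r245 :=
  .i [n1,n0,m1,m1,n1,n0,n0,n0,n0,n0,n8] (e' := [n0,n0,n1,n1,m1,n0,n0,n0,n0,n0,m8]) (by decide +kernel)
  (by decide +kernel) cl235 cl237

theorem cl239 : Clo K (Helper55.TR.GH 1 Helper55.TR.BrU [0,0,0,0,0,1]) r244 :=
  .i [n1,n0,n1,n1,n0,n0,n0,n0,n0,n0,n7] (e' := [n0,n0,m1,m1,n0,n0,n0,n0,n0,n0,m7]) (by decide +kernel)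
  (by decide +kernel) cl232 cl238

theorem cl240 : Clo K (Helper55.TR.GH 1 Helper55.TR.BrU [0,0,0,0,0,1]) l243 :=
  .i [n1,n0,m1,m1,n0,n0,n0,m2,n0,m1,n1] (e' := [n0,n0,n1,n1,n0,n0,n0,n2,n0,n1,m1]) (by decide +kernel)
  (by decide +kernel) (.t t240 ok240) cl239

theorem cl241 : Clo K (Helper55.TR.GH 1 Helper55.TR.BrU [0,0,0,0,0,1]) r256 :=
  .w [n0,n0,n0,n0,n0,n0,n0,n0,n0,n0,n0,n0,m1,n2] (e' := [n1,n0,n0,n0,n0,n0,n0,n0,n0,n0,n0,n0,n1,m2]) (by decide +kernel) (.t
  t253 ok253) (.t t254 ok254)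

theorem cl242 : Clo K (Helper55.TR.GH 1 Helper55.TR.BrU [0,0,0,0,0,1]) l255 :=
  .i [n1,n0,n0,n0,n0,n0,n0,n0,n0,m1,n2] (e' := [n0,n0,n0,n0,n0,n0,n0,n0,n0,n1,m2]) (by decide +kernel)
  (by decide +kernel) (.t t252 ok252) cl241

theorem cl243 : Clo K (Helper55.TR.GH 1 Helper55.TR.BrU [0,0,0,0,0,1]) r255 :=
  .w [n0,n0,n0,n0,n0,n0,n0,n0,n0,n0,n0,n0,m1,n2] (e' := [n1,n0,n0,n0,n0,n0,n0,n0,n0,n0,n0,n0,n1,m2]) (by decide +kernel) (.t
  t255 ok255) (.t t256 ok256)

theorem cl244 : Clo K (Helper55.TR.GH 1 Helper55.TR.BrU [0,0,0,0,0,1]) r243 :=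
  .i [n1,n0,n0,n0,n0,n0,n0,n0,n0,n1,m2] (e' := [n0,n0,n0,n0,n0,n0,n0,n0,n0,m1,n2]) (by decide +kernel)
  (by decide +kernel) cl242 cl243

theorem cl245 : Clo K (Helper55.TR.GH 1 Helper55.TR.BrU [0,0,0,0,0,1]) r221 :=
  .i [n1,n0,n1,n1,n0,n0,n0,n2,n0,n1,m1] (e' := [n0,n0,m1,m1,n0,n0,n0,m2,n0,m1,n1]) (by decide +kernel)
  (by decide +kernel) cl240 cl244

theorem cl246 : Clo K (Helper55.TR.GH 1 Helper55.TR.BrU [0,0,0,0,0,1]) r191 :=
  .i [n1,n0,m3,m3,n1,n0,n0,n0,n0,n0,m5] (e' := [n0,n0,n3,n3,m1,n0,n0,n0,n0,n0,n5]) (by decide +kernel)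
  (by decide +kernel) cl229 cl245

theorem cl247 : Clo K (Helper55.TR.GH 1 Helper55.TR.BrU [0,0,0,0,0,1]) r186 :=
  .i [n1,n0,m1,m1,n1,n0,n0,n2,n0,n1,n1] (e' := [n0,n0,n1,n1,m1,n0,n0,m2,n0,m1,m1]) (by decide +kernel)
  (by decide +kernel) cl208 cl246

theorem cl248 : Clo K (Helper55.TR.GH 1 Helper55.TR.BrU [0,0,0,0,0,1]) r185 :=
  .i [n1,n0,n1,n1,n0,n0,n0,n1,n0,n2,n1] (e' := [n0,n0,m1,m1,n0,n0,n0,m1,n0,m2,m1]) (by decide +kernel)
  (by decide +kernel) cl179 cl247

theorem cl249 : Clo K (Helper55.TR.GH 1 Helper55.TR.BrU [0,0,0,0,0,1]) l184 :=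
  .i [n1,n0,m1,m1,n0,n0,n0,m1,n0,m1,m2] (e' := [n0,n0,n1,n1,n0,n0,n0,n1,n0,n1,n2]) (by decide +kernel)
  (by decide +kernel) (.t t182 ok182) cl248

theorem cl250 : Clo K (Helper55.TR.GH 1 Helper55.TR.BrU [0,0,0,0,0,1]) r267 :=
  .w [n0,n0,n0,n0,n0,n0,n0,n0,n0,n0,n0,n0,n1,m2] (e' := [n1,n0,n0,n0,n0,n0,n0,n0,n0,n0,n0,n0,m1,n2]) (by decide +kernel) (.t
  t262 ok262) (.t t263 ok263)

theorem cl251 : Clo K (Helper55.TR.GH 1 Helper55.TR.BrU [0,0,0,0,0,1]) r266 :=
  .w [n0,n0,n0,n0,n0,n0,n0,n0,n0,n0,n0,n0,m1,n2] (e' := [n1,n0,n0,n0,n0,n0,n0,n0,n0,n0,n0,n0,n1,m2]) (by decide +kernel) (.t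
  t261 ok261) cl250

theorem cl252 : Clo K (Helper55.TR.GH 1 Helper55.TR.BrU [0,0,0,0,0,1]) l265 :=
  .i [n1,n0,n4,n4,m2,n0,n0,n0,n0,n0,m3] (e' := [n0,n0,m4,m4,n2,n0,n0,n0,n0,n0,n3]) (by decide +kernel)
  (by decide +kernel) (.t t260 ok260) cl251

theorem cl253 : Clo K (Helper55.TR.GH 1 Helper55.TR.BrU [0,0,0,0,0,1]) r269 :=
  .w [n0,n0,n0,n0,n0,n0,n0,n0,n0,n0,n0,n0,n1,m2] (e' := [n1,n0,n0,n0,n0,n0,n0,n0,n0,n0,n0,n0,m1,n2]) (by decide +kernel) (.t
  t265 ok265) (.t t266 ok266)

theorem cl254 : Clo K (Helper55.TR.GH 1 Helper55.TR.BrU [0,0,0,0,0,1]) r265 :=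
  .w [n0,n0,n0,n0,n0,n0,n0,n0,n0,n0,n0,n0,m1,n2] (e' := [n1,n0,n0,n0,n0,n0,n0,n0,n0,n0,n0,n0,n1,m2]) (by decide +kernel) (.t
  t264 ok264) cl253

theorem cl255 : Clo K (Helper55.TR.GH 1 Helper55.TR.BrU [0,0,0,0,0,1]) r264 :=
  .i [n1,n0,m4,m4,n2,n0,n0,n0,n0,n0,n3] (e' := [n0,n0,n4,n4,m2,n0,n0,n0,n0,n0,m3]) (by decide +kernel)
  (by decide +kernel) cl252 cl254

theorem cl256 : Clo K (Helper55.TR.GH 1 Helper55.TR.BrU [0,0,0,0,0,1]) r263 :=
  .i [n1,n0,n1,n1,n0,n0,n0,n0,n0,n0,n6] (e' := [n0,n0,m1,m1,n0,n0,n0,n0,n0,n0,m6]) (by decide +kernel)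
  (by decide +kernel) (.t t259 ok259) cl255

theorem cl257 : Clo K (Helper55.TR.GH 1 Helper55.TR.BrU [0,0,0,0,0,1]) l262 :=
  .i [n1,n0,m1,m1,n0,n0,n0,m2,n0,m1,n1] (e' := [n0,n0,n1,n1,n0,n0,n0,n2,n0,n1,m1]) (by decide +kernel)
  (by decide +kernel) (.t t258 ok258) cl256

theorem cl258 : Clo K (Helper55.TR.GH 1 Helper55.TR.BrU [0,0,0,0,0,1]) r274 :=
  .w [n0,n0,n0,n0,n0,n0,n0,n0,n0,n0,n0,n0,n1,m2] (e' := [n1,n0,n0,n0,n0,n0,n0,n0,n0,n0,n0,n0,m1,n2]) (by decide +kernel) (.t
  t270 ok270) (.t t271 ok271)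

theorem cl259 : Clo K (Helper55.TR.GH 1 Helper55.TR.BrU [0,0,0,0,0,1]) r273 :=
  .w [n0,n0,n0,n0,n0,n0,n0,n0,n0,n0,n0,n0,m1,n2] (e' := [n1,n0,n0,n0,n0,n0,n0,n0,n0,n0,n0,n0,n1,m2]) (by decide +kernel) (.t
  t269 ok269) cl258

theorem cl260 : Clo K (Helper55.TR.GH 1 Helper55.TR.BrU [0,0,0,0,0,1]) l272 :=
  .i [n1,n0,m4,m4,n2,n0,n0,n0,n0,n0,n3] (e' := [n0,n0,n4,n4,m2,n0,n0,n0,n0,n0,m3]) (by decide +kernel)
  (by decide +kernel) (.t t268 ok268) cl259

theorem cl261 : Clo K (Helper55.TR.GH 1 Helper55.TR.BrU [0,0,0,0,0,1]) r276 :=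
  .w [n0,n0,n0,n0,n0,n0,n0,n0,n0,n0,n0,n0,n1,m2] (e' := [n1,n0,n0,n0,n0,n0,n0,n0,n0,n0,n0,n0,m1,n2]) (by decide +kernel) (.t
  t273 ok273) (.t t274 ok274)

theorem cl262 : Clo K (Helper55.TR.GH 1 Helper55.TR.BrU [0,0,0,0,0,1]) r272 :=
  .w [n0,n0,n0,n0,n0,n0,n0,n0,n0,n0,n0,n0,m1,n2] (e' := [n1,n0,n0,n0,n0,n0,n0,n0,n0,n0,n0,n0,n1,m2]) (by decide +kernel) (.t
  t272 ok272) cl261

theorem cl263 : Clo K (Helper55.TR.GH 1 Helper55.TR.BrU [0,0,0,0,0,1]) r271 :=
  .i [n1,n0,n4,n4,m2,n0,n0,n0,n0,n0,m3] (e' := [n0,n0,m4,m4,n2,n0,n0,n0,n0,n0,n3]) (by decide +kernel)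
  (by decide +kernel) cl260 cl262

theorem cl264 : Clo K (Helper55.TR.GH 1 Helper55.TR.BrU [0,0,0,0,0,1]) r262 :=
  .i [n1,n0,m1,m1,n0,n0,n0,m2,n0,m1,n1] (e' := [n0,n0,n1,n1,n0,n0,n0,n2,n0,n1,m1]) (by decide +kernel)
  (by decide +kernel) (.t t267 ok267) cl263

theorem cl265 : Clo K (Helper55.TR.GH 1 Helper55.TR.BrU [0,0,0,0,0,1]) l261 :=
  .i [n1,n0,m1,m1,n0,n0,n0,n0,n0,n0,m6] (e' := [n0,n0,n1,n1,n0,n0,n0,n0,n0,n0,n6]) (by decide +kernel)
  (by decide +kernel) cl257 cl264

theorem cl266 : Clo K (Helper55.TR.GH 1 Helper55.TR.BrU [0,0,0,0,0,1]) r280 :=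
  .w [n0,n0,n0,n0,n0,n0,n0,n0,n0,n0,n0,n0,n1,m2] (e' := [n1,n0,n0,n0,n0,n0,n0,n0,n0,n0,n0,n0,m1,n2]) (by decide +kernel) (.t
  t277 ok277) (.t t278 ok278)

theorem cl267 : Clo K (Helper55.TR.GH 1 Helper55.TR.BrU [0,0,0,0,0,1]) r279 :=
  .w [n0,n0,n0,n0,n0,n0,n0,n0,n0,n0,n0,n0,m1,n2] (e' := [n1,n0,n0,n0,n0,n0,n0,n0,n0,n0,n0,n0,n1,m2]) (by decide +kernel) (.t
  t276 ok276) cl266

theorem cl268 : Clo K (Helper55.TR.GH 1 Helper55.TR.BrU [0,0,0,0,0,1]) l278 :=
  .i [n1,n0,n1,n1,n0,n0,n0,n0,n0,n0,n6] (e' := [n0,n0,m1,m1,n0,n0,n0,n0,n0,n0,m6]) (by decide +kernel)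
  (by decide +kernel) (.t t275 ok275) cl267

theorem cl269 : Clo K (Helper55.TR.GH 1 Helper55.TR.BrU [0,0,0,0,0,1]) r286 :=
  .w [n0,n0,n0,n0,n0,n0,n0,n0,n0,n0,n0,n0,m1,n2] (e' := [n1,n0,n0,n0,n0,n0,n0,n0,n0,n0,n0,n0,n1,m2]) (by decide +kernel) (.t
  t282 ok282) (.t t283 ok283)

theorem cl270 : Clo K (Helper55.TR.GH 1 Helper55.TR.BrU [0,0,0,0,0,1]) r285 :=
  .w [n0,n0,n0,n0,n0,n0,n0,n0,n0,n0,n0,n0,n1,m2] (e' := [n1,n0,n0,n0,n0,n0,n0,n0,n0,n0,n0,n0,m1,n2]) (by decide +kernel) (.t
  t281 ok281) cl269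

theorem cl271 : Clo K (Helper55.TR.GH 1 Helper55.TR.BrU [0,0,0,0,0,1]) l284 :=
  .i [n1,n0,m1,m1,n0,n0,n0,n0,n0,n0,m7] (e' := [n0,n0,n1,n1,n0,n0,n0,n0,n0,n0,n7]) (by decide +kernel)
  (by decide +kernel) (.t t280 ok280) cl270

theorem cl272 : Clo K (Helper55.TR.GH 1 Helper55.TR.BrU [0,0,0,0,0,1]) r288 :=
  .w [n0,n0,n0,n0,n0,n0,n0,n0,n0,n0,n0,n0,n1,m2] (e' := [n1,n0,n0,n0,n0,n0,n0,n0,n0,n0,n0,n0,m1,n2]) (by decide +kernel) (.t
  t285 ok285) (.t t286 ok286)

theorem cl273 : Clo K (Helper55.TR.GH 1 Helper55.TR.BrU [0,0,0,0,0,1]) r284 :=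
  .w [n0,n0,n0,n0,n0,n0,n0,n0,n0,n0,n0,n0,m1,n2] (e' := [n1,n0,n0,n0,n0,n0,n0,n0,n0,n0,n0,n0,n1,m2]) (by decide +kernel) (.t
  t284 ok284) cl272

theorem cl274 : Clo K (Helper55.TR.GH 1 Helper55.TR.BrU [0,0,0,0,0,1]) r283 :=
  .i [n1,n0,n1,n1,n0,n0,n0,n0,n0,n0,n7] (e' := [n0,n0,m1,m1,n0,n0,n0,n0,n0,n0,m7]) (by decide +kernel)
  (by decide +kernel) cl271 cl273

theorem cl275 : Clo K (Helper55.TR.GH 1 Helper55.TR.BrU [0,0,0,0,0,1]) l282 :=
  .i [n1,n0,m3,m3,n1,n0,n0,n0,n0,n0,m5] (e' := [n0,n0,n3,n3,m1,n0,n0,n0,n0,n0,n5]) (by decide +kernel)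
  (by decide +kernel) (.t t279 ok279) cl274

theorem cl276 : Clo K (Helper55.TR.GH 1 Helper55.TR.BrU [0,0,0,0,0,1]) r290 :=
  .w [n0,n0,n0,n0,n0,n0,n0,n0,n0,n0,n0,n0,m1,n2] (e' := [n1,n0,n0,n0,n0,n0,n0,n0,n0,n0,n0,n0,n1,m2]) (by decide +kernel) (.t
  t288 ok288) (.t t289 ok289)

theorem cl277 : Clo K (Helper55.TR.GH 1 Helper55.TR.BrU [0,0,0,0,0,1]) r282 :=
  .w [n0,n0,n0,n0,n0,n0,n0,n0,n0,n0,n0,n0,n1,m2] (e' := [n1,n0,n0,n0,n0,n0,n0,n0,n0,n0,n0,n0,m1,n2]) (by decide +kernel) (.t
  t287 ok287) cl276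

theorem cl278 : Clo K (Helper55.TR.GH 1 Helper55.TR.BrU [0,0,0,0,0,1]) r278 :=
  .i [n1,n0,n3,n3,m1,n0,n0,n0,n0,n0,n5] (e' := [n0,n0,m3,m3,n1,n0,n0,n0,n0,n0,m5]) (by decide +kernel)
  (by decide +kernel) cl275 cl277

theorem cl279 : Clo K (Helper55.TR.GH 1 Helper55.TR.BrU [0,0,0,0,0,1]) r261 :=
  .i [n1,n0,m1,m1,n0,n0,n0,n0,n0,n0,m6] (e' := [n0,n0,n1,n1,n0,n0,n0,n0,n0,n0,n6]) (by decide +kernel)
  (by decide +kernel) cl268 cl278

theorem cl280 : Clo K (Helper55.TR.GH 1 Helper55.TR.BrU [0,0,0,0,0,1]) r260 :=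
  .i [n1,n0,n1,n1,n0,n0,n0,n2,n0,n1,m1] (e' := [n0,n0,m1,m1,n0,n0,n0,m2,n0,m1,n1]) (by decide +kernel)
  (by decide +kernel) cl265 cl279

theorem cl281 : Clo K (Helper55.TR.GH 1 Helper55.TR.BrU [0,0,0,0,0,1]) l259 :=
  .i [n1,n0,n1,n1,m1,n0,n0,m2,n0,n0,m2] (e' := [n0,n0,m1,m1,n1,n0,n0,n2,n0,n0,n2]) (by decide +kernel)
  (by decide +kernel) (.t t257 ok257) cl280

theorem cl282 : Clo K (Helper55.TR.GH 1 Helper55.TR.BrU [0,0,0,0,0,1]) r293 :=
  .w [n0,n0,n0,n0,n0,n0,n0,n0,n0,n0,n0,n0,m1,n2] (e' := [n1,n0,n0,n0,n0,n0,n0,n0,n0,n0,n0,n0,n1,m2]) (by decide +kernel) (.t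
  t291 ok291) (.t t292 ok292)

theorem cl283 : Clo K (Helper55.TR.GH 1 Helper55.TR.BrU [0,0,0,0,0,1]) l292 :=
  .i [n1,n0,m1,m1,n0,n0,n0,m2,n0,m1,n1] (e' := [n0,n0,n1,n1,n0,n0,n0,n2,n0,n1,m1]) (by decide +kernel)
  (by decide +kernel) (.t t290 ok290) cl282

theorem cl284 : Clo K (Helper55.TR.GH 1 Helper55.TR.BrU [0,0,0,0,0,1]) r292 :=
  .w [n0,n0,n0,n0,n0,n0,n0,n0,n0,n0,n0,n0,m1,n2] (e' := [n1,n0,n0,n0,n0,n0,n0,n0,n0,n0,n0,n0,n1,m2]) (by decide +kernel) (.t
  t293 ok293) (.t t294 ok294)

theorem cl285 : Clo K (Helper55.TR.GH 1 Helper55.TR.BrU [0,0,0,0,0,1]) r259 :=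
  .i [n1,n0,n1,n1,n0,n0,n0,n2,n0,n1,m1] (e' := [n0,n0,m1,m1,n0,n0,n0,m2,n0,m1,n1]) (by decide +kernel)
  (by decide +kernel) cl283 cl284

theorem cl286 : Clo K (Helper55.TR.GH 1 Helper55.TR.BrU [0,0,0,0,0,1]) r184 :=
  .i [n1,n0,m1,m1,n1,n0,n0,n2,n0,n0,n2] (e' := [n0,n0,n1,n1,m1,n0,n0,m2,n0,n0,m2]) (by decide +kernel)
  (by decide +kernel) cl281 cl285

theorem cl287 : Clo K (Helper55.TR.GH 1 Helper55.TR.BrU [0,0,0,0,0,1]) r183 :=
  .i [n1,n0,n1,n1,n0,n0,n0,n1,n0,n1,n2] (e' := [n0,n0,m1,m1,n0,n0,n0,m1,n0,m1,m2]) (by decide +kernel)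
  (by decide +kernel) cl249 cl286

theorem cl288 : Clo K (Helper55.TR.GH 1 Helper55.TR.BrU [0,0,0,0,0,1]) l182 :=
  .i [n1,n0,n1,n1,m1,n0,n0,n0,n0,n0,m7] (e' := [n0,n0,m1,m1,n1,n0,n0,n0,n0,n0,n7]) (by decide +kernel)
  (by decide +kernel) (.t t181 ok181) cl287

theorem cl289 : Clo K (Helper55.TR.GH 1 Helper55.TR.BrU [0,0,0,0,0,1]) r306 :=
  .w [n0,n0,n0,n0,n0,n0,n0,n0,n0,n0,n0,n0,m1,n2] (e' := [n1,n0,n0,n0,n0,n0,n0,n0,n0,n0,n0,n0,n1,m2]) (by decide +kernel) (.t
  t301 ok301) (.t t302 ok302)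

theorem cl290 : Clo K (Helper55.TR.GH 1 Helper55.TR.BrU [0,0,0,0,0,1]) l305 :=
  .i [n1,n0,m1,m1,n0,n0,n0,m2,n0,m1] (e' := [n0,n0,n1,n1,n0,n0,n0,n2,n0,n1]) (by decide +kernel)
  (by decide +kernel) (.t t300 ok300) cl289

theorem cl291 : Clo K (Helper55.TR.GH 1 Helper55.TR.BrU [0,0,0,0,0,1]) r305 :=
  .w [n0,n0,n0,n0,n0,n0,n0,n0,n0,n0,n0,n0,m1,n2] (e' := [n1,n0,n0,n0,n0,n0,n0,n0,n0,n0,n0,n0,n1,m2]) (by decide +kernel) (.t
  t303 ok303) (.t t304 ok304)

theorem cl292 : Clo K (Helper55.TR.GH 1 Helper55.TR.BrU [0,0,0,0,0,1]) r304 :=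
  .i [n1,n0,n1,n1,n0,n0,n0,n2,n0,n1] (e' := [n0,n0,m1,m1,n0,n0,n0,m2,n0,m1]) (by decide +kernel)
  (by decide +kernel) cl290 cl291

theorem cl293 : Clo K (Helper55.TR.GH 1 Helper55.TR.BrU [0,0,0,0,0,1]) r303 :=
  .w [n0,n0,n0,n0,n0,n0,n0,n0,n0,n0,n0,n0,n1,m2] (e' := [n1,n0,n0,n0,n0,n0,n0,n0,n0,n0,n0,n0,m1,n2]) (by decide +kernel) (.t
  t299 ok299) cl292

theorem cl294 : Clo K (Helper55.TR.GH 1 Helper55.TR.BrU [0,0,0,0,0,1]) l302 :=
  .i [n1,n0,n1,n1,m1,n0,n0,m2,n0,m2] (e' := [n0,n0,m1,m1,n1,n0,n0,n2,n0,n2]) (by decide +kernel)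
  (by decide +kernel) (.t t298 ok298) cl293

theorem cl295 : Clo K (Helper55.TR.GH 1 Helper55.TR.BrU [0,0,0,0,0,1]) r309 :=
  .w [n0,n0,n0,n0,n0,n0,n0,n0,n0,n0,n0,n0,m1,n2] (e' := [n1,n0,n0,n0,n0,n0,n0,n0,n0,n0,n0,n0,n1,m2]) (by decide +kernel) (.t
  t306 ok306) (.t t307 ok307)

theorem cl296 : Clo K (Helper55.TR.GH 1 Helper55.TR.BrU [0,0,0,0,0,1]) r302 :=
  .w [n0,n0,n0,n0,n0,n0,n0,n0,n0,n0,n0,n0,n1,m2] (e' := [n1,n0,n0,n0,n0,n0,n0,n0,n0,n0,n0,n0,m1,n2]) (by decide +kernel) (.t
  t305 ok305) cl295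

theorem cl297 : Clo K (Helper55.TR.GH 1 Helper55.TR.BrU [0,0,0,0,0,1]) r301 :=
  .i [n1,n0,m1,m1,n1,n0,n0,n2,n0,n2] (e' := [n0,n0,n1,n1,m1,n0,n0,m2,n0,m2]) (by decide +kernel)
  (by decide +kernel) cl294 cl296

theorem cl298 : Clo K (Helper55.TR.GH 1 Helper55.TR.BrU [0,0,0,0,0,1]) l300 :=
  .i [n1,n0,m1,m1,n0,n0,n0,m1,n0,m2,m1] (e' := [n0,n0,n1,n1,n0,n0,n0,n1,n0,n2,n1]) (by decide +kernel)
  (by decide +kernel) (.t t297 ok297) cl297

theorem cl299 : Clo K (Helper55.TR.GH 1 Helper55.TR.BrU [0,0,0,0,0,1]) r315 :=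
  .w [n0,n0,n0,n0,n0,n0,n0,n0,n0,n0,n0,n0,m1,n2] (e' := [n1,n0,n0,n0,n0,n0,n0,n0,n0,n0,n0,n0,n1,m2]) (by decide +kernel) (.t
  t311 ok311) (.t t312 ok312)

theorem cl300 : Clo K (Helper55.TR.GH 1 Helper55.TR.BrU [0,0,0,0,0,1]) r314 :=
  .w [n0,n0,n0,n0,n0,n0,n0,n0,n0,n0,n0,n0,n1,m2] (e' := [n1,n0,n0,n0,n0,n0,n0,n0,n0,n0,n0,n0,m1,n2]) (by decide +kernel) (.t
  t310 ok310) cl299

theorem cl301 : Clo K (Helper55.TR.GH 1 Helper55.TR.BrU [0,0,0,0,0,1]) l313 :=
  .i [n1,n0,n1,n1,m1,n0,n0,m2,n0,m1,m1] (e' := [n0,n0,m1,m1,n1,n0,n0,n2,n0,n1,n1]) (by decide +kernel)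
  (by decide +kernel) (.t t309 ok309) cl300

theorem cl302 : Clo K (Helper55.TR.GH 1 Helper55.TR.BrU [0,0,0,0,0,1]) r317 :=
  .w [n0,n0,n0,n0,n0,n0,n0,n0,n0,n0,n0,n0,n1,m2] (e' := [n1,n0,n0,n0,n0,n0,n0,n0,n0,n0,n0,n0,m1,n2]) (by decide +kernel) (.t
  t314 ok314) (.t t315 ok315)

theorem cl303 : Clo K (Helper55.TR.GH 1 Helper55.TR.BrU [0,0,0,0,0,1]) r313 :=
  .w [n0,n0,n0,n0,n0,n0,n0,n0,n0,n0,n0,n0,m1,n2] (e' := [n1,n0,n0,n0,n0,n0,n0,n0,n0,n0,n0,n0,n1,m2]) (by decide +kernel) (.t
  t313 ok313) cl302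

theorem cl304 : Clo K (Helper55.TR.GH 1 Helper55.TR.BrU [0,0,0,0,0,1]) r312 :=
  .i [n1,n0,m1,m1,n1,n0,n0,n2,n0,n1,n1] (e' := [n0,n0,n1,n1,m1,n0,n0,m2,n0,m1,m1]) (by decide +kernel)
  (by decide +kernel) cl301 cl303

theorem cl305 : Clo K (Helper55.TR.GH 1 Helper55.TR.BrU [0,0,0,0,0,1]) l311 :=
  .i [n1,n0,n3,n3,m2,n0,n0,n0,n0,n0,m8] (e' := [n0,n0,m3,m3,n2,n0,n0,n0,n0,n0,n8]) (by decide +kernel)
  (by decide +kernel) (.t t308 ok308) cl304

theorem cl306 : Clo K (Helper55.TR.GH 1 Helper55.TR.BrU [0,0,0,0,0,1]) r321 :=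
  .w [n0,n0,n0,n0,n0,n0,n0,n0,n0,n0,n0,n0,m1,n2] (e' := [n1,n0,n0,n0,n0,n0,n0,n0,n0,n0,n0,n0,n1,m2]) (by decide +kernel) (.t
  t318 ok318) (.t t319 ok319)

theorem cl307 : Clo K (Helper55.TR.GH 1 Helper55.TR.BrU [0,0,0,0,0,1]) r320 :=
  .w [n0,n0,n0,n0,n0,n0,n0,n0,n0,n0,n0,n0,n1,m2] (e' := [n1,n0,n0,n0,n0,n0,n0,n0,n0,n0,n0,n0,m1,n2]) (by decide +kernel) (.t
  t317 ok317) cl306

theorem cl308 : Clo K (Helper55.TR.GH 1 Helper55.TR.BrU [0,0,0,0,0,1]) l319 :=
  .i [n1,n0,n1,n1,m1,n0,n0,m2,n0,m1,m1] (e' := [n0,n0,m1,m1,n1,n0,n0,n2,n0,n1,n1]) (by decide +kernel)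
  (by decide +kernel) (.t t316 ok316) cl307

theorem cl309 : Clo K (Helper55.TR.GH 1 Helper55.TR.BrU [0,0,0,0,0,1]) r323 :=
  .w [n0,n0,n0,n0,n0,n0,n0,n0,n0,n0,n0,n0,n1,m2] (e' := [n1,n0,n0,n0,n0,n0,n0,n0,n0,n0,n0,n0,m1,n2]) (by decide +kernel) (.t
  t321 ok321) (.t t322 ok322)

theorem cl310 : Clo K (Helper55.TR.GH 1 Helper55.TR.BrU [0,0,0,0,0,1]) r319 :=
  .w [n0,n0,n0,n0,n0,n0,n0,n0,n0,n0,n0,n0,m1,n2] (e' := [n1,n0,n0,n0,n0,n0,n0,n0,n0,n0,n0,n0,n1,m2]) (by decide +kernel) (.t
  t320 ok320) cl309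

theorem cl311 : Clo K (Helper55.TR.GH 1 Helper55.TR.BrU [0,0,0,0,0,1]) r311 :=
  .i [n1,n0,m1,m1,n1,n0,n0,n2,n0,n1,n1] (e' := [n0,n0,n1,n1,m1,n0,n0,m2,n0,m1,m1]) (by decide +kernel)
  (by decide +kernel) cl308 cl310

theorem cl312 : Clo K (Helper55.TR.GH 1 Helper55.TR.BrU [0,0,0,0,0,1]) r300 :=
  .i [n1,n0,m3,m3,n2,n0,n0,n0,n0,n0,n8] (e' := [n0,n0,n3,n3,m2,n0,n0,n0,n0,n0,m8]) (by decide +kernel)
  (by decide +kernel) cl305 cl311

theorem cl313 : Clo K (Helper55.TR.GH 1 Helper55.TR.BrU [0,0,0,0,0,1]) r299 :=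
  .i [n1,n0,n1,n1,n0,n0,n0,n1,n0,n2,n1] (e' := [n0,n0,m1,m1,n0,n0,n0,m1,n0,m2,m1]) (by decide +kernel)
  (by decide +kernel) cl298 cl312

theorem cl314 : Clo K (Helper55.TR.GH 1 Helper55.TR.BrU [0,0,0,0,0,1]) l298 :=
  .i [n1,n0,m1,m1,n0,n0,n0,m1,n0,m1,m2] (e' := [n0,n0,n1,n1,n0,n0,n0,n1,n0,n1,n2]) (by decide +kernel)
  (by decide +kernel) (.t t296 ok296) cl313

theorem cl315 : Clo K (Helper55.TR.GH 1 Helper55.TR.BrU [0,0,0,0,0,1]) r326 :=
  .w [n0,n0,n0,n0,n0,n0,n0,n0,n0,n0,n0,n0,m1,n2] (e' := [n1,n0,n0,n0,n0,n0,n0,n0,n0,n0,n0,n0,n1,m2]) (by decide +kernel) (.t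
  t324 ok324) (.t t325 ok325)

theorem cl316 : Clo K (Helper55.TR.GH 1 Helper55.TR.BrU [0,0,0,0,0,1]) l325 :=
  .i [n1,n0,n1,n1,m1,n0,n0,m2,n0,n0,m2] (e' := [n0,n0,m1,m1,n1,n0,n0,n2,n0,n0,n2]) (by decide +kernel)
  (by decide +kernel) (.t t323 ok323) cl315

theorem cl317 : Clo K (Helper55.TR.GH 1 Helper55.TR.BrU [0,0,0,0,0,1]) r332 :=
  .w [n0,n0,n0,n0,n0,n0,n0,n0,n0,n0,n0,n0,n1,m2] (e' := [n1,n0,n0,n0,n0,n0,n0,n0,n0,n0,n0,n0,m1,n2]) (by decide +kernel) (.t
  t329 ok329) (.t t330 ok330)

theorem cl318 : Clo K (Helper55.TR.GH 1 Helper55.TR.BrU [0,0,0,0,0,1]) r331 :=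
  .w [n0,n0,n0,n0,n0,n0,n0,n0,n0,n0,n0,n0,m1,n2] (e' := [n1,n0,n0,n0,n0,n0,n0,n0,n0,n0,n0,n0,n1,m2]) (by decide +kernel) (.t
  t328 ok328) cl317

theorem cl319 : Clo K (Helper55.TR.GH 1 Helper55.TR.BrU [0,0,0,0,0,1]) l330 :=
  .i [n1,n0,n3,n3,m2,n0,n0,n0,n0,n0,m8] (e' := [n0,n0,m3,m3,n2,n0,n0,n0,n0,n0,n8]) (by decide +kernel)
  (by decide +kernel) (.t t327 ok327) cl318

theorem cl320 : Clo K (Helper55.TR.GH 1 Helper55.TR.BrU [0,0,0,0,0,1]) r334 :=
  .w [n0,n0,n0,n0,n0,n0,n0,n0,n0,n0,n0,n0,m1,n2] (e' := [n1,n0,n0,n0,n0,n0,n0,n0,n0,n0,n0,n0,n1,m2]) (by decide +kernel) (.t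
  t332 ok332) (.t t333 ok333)

theorem cl321 : Clo K (Helper55.TR.GH 1 Helper55.TR.BrU [0,0,0,0,0,1]) r330 :=
  .w [n0,n0,n0,n0,n0,n0,n0,n0,n0,n0,n0,n0,n1,m2] (e' := [n1,n0,n0,n0,n0,n0,n0,n0,n0,n0,n0,n0,m1,n2]) (by decide +kernel) (.t
  t331 ok331) cl320

theorem cl322 : Clo K (Helper55.TR.GH 1 Helper55.TR.BrU [0,0,0,0,0,1]) r329 :=
  .i [n1,n0,m3,m3,n2,n0,n0,n0,n0,n0,n8] (e' := [n0,n0,n3,n3,m2,n0,n0,n0,n0,n0,m8]) (by decide +kernel)
  (by decide +kernel) cl319 cl321

theorem cl323 : Clo K (Helper55.TR.GH 1 Helper55.TR.BrU [0,0,0,0,0,1]) l328 :=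
  .i [n1,n0,m1,m1,n0,n0,n0,m2,n0,m1,n1] (e' := [n0,n0,n1,n1,n0,n0,n0,n2,n0,n1,m1]) (by decide +kernel)
  (by decide +kernel) (.t t326 ok326) cl322

theorem cl324 : Clo K (Helper55.TR.GH 1 Helper55.TR.BrU [0,0,0,0,0,1]) r328 :=
  .w [n0,n0,n0,n0,n0,n0,n0,n0,n0,n0,n0,n0,m1,n2] (e' := [n1,n0,n0,n0,n0,n0,n0,n0,n0,n0,n0,n0,n1,m2]) (by decide +kernel) (.t
  t334 ok334) (.t t335 ok335)

theorem cl325 : Clo K (Helper55.TR.GH 1 Helper55.TR.BrU [0,0,0,0,0,1]) r325 :=
  .i [n1,n0,n1,n1,n0,n0,n0,n2,n0,n1,m1] (e' := [n0,n0,m1,m1,n0,n0,n0,m2,n0,m1,n1]) (by decide +kernel)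
  (by decide +kernel) cl323 cl324

theorem cl326 : Clo K (Helper55.TR.GH 1 Helper55.TR.BrU [0,0,0,0,0,1]) r298 :=
  .i [n1,n0,m1,m1,n1,n0,n0,n2,n0,n0,n2] (e' := [n0,n0,n1,n1,m1,n0,n0,m2,n0,n0,m2]) (by decide +kernel)
  (by decide +kernel) cl316 cl325

theorem cl327 : Clo K (Helper55.TR.GH 1 Helper55.TR.BrU [0,0,0,0,0,1]) r297 :=
  .i [n1,n0,n1,n1,n0,n0,n0,n1,n0,n1,n2] (e' := [n0,n0,m1,m1,n0,n0,n0,m1,n0,m1,m2]) (by decide +kernel)
  (by decide +kernel) cl314 cl326

theorem cl328 : Clo K (Helper55.TR.GH 1 Helper55.TR.BrU [0,0,0,0,0,1]) l296 :=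
  .i [n1,n0,m3,m3,n1,n0,n0,n0,n0,n0,m4] (e' := [n0,n0,n3,n3,m1,n0,n0,n0,n0,n0,n4]) (by decide +kernel)
  (by decide +kernel) (.t t295 ok295) cl327

theorem cl329 : Clo K (Helper55.TR.GH 1 Helper55.TR.BrU [0,0,0,0,0,1]) r296 :=
  .w [n0,n0,n0,n0,n0,n0,n0,n0,n0,n0,n0,n0,m1,n2] (e' := [n1,n0,n0,n0,n0,n0,n0,n0,n0,n0,n0,n0,n1,m2]) (by decide +kernel) (.t
  t336 ok336) (.t t337 ok337)

theorem cl330 : Clo K (Helper55.TR.GH 1 Helper55.TR.BrU [0,0,0,0,0,1]) r182 :=
  .i [n1,n0,n3,n3,m1,n0,n0,n0,n0,n0,n4] (e' := [n0,n0,m3,m3,n1,n0,n0,n0,n0,n0,m4]) (by decide +kernel)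
  (by decide +kernel) cl328 cl329

theorem cl331 : Clo K (Helper55.TR.GH 1 Helper55.TR.BrU [0,0,0,0,0,1]) r174 :=
  .i [n1,n0,m1,m1,n1,n0,n0,n0,n0,n0,n7] (e' := [n0,n0,n1,n1,m1,n0,n0,n0,n0,n0,m7]) (by decide +kernel)
  (by decide +kernel) cl288 cl330

theorem cl332 : Clo K (Helper55.TR.GH 1 Helper55.TR.BrU [0,0,0,0,0,1]) r99 :=
  .i [n1,n0,m1,m1,n0,n0,n0,n0,n0,n0,m5] (e' := [n0,n0,n1,n1,n0,n0,n0,n0,n0,n0,n5]) (by decide +kernel)
  (by decide +kernel) cl175 cl331

theorem cl333 : Clo K (Helper55.TR.GH 1 Helper55.TR.BrU [0,0,0,0,0,1]) r3 :=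
  .i [n1,n0,m2,m2,n1,n0,n0,n0,n0,n2,m1] (e' := [n0,n0,n2,n2,m1,n0,n0,n0,n0,m2,n1]) (by decide +kernel)
  (by decide +kernel) cl168 cl332

theorem cl334 : Clo K (Helper55.TR.GH 1 Helper55.TR.BrU [0,0,0,0,0,1]) r2 :=
  .i [n1,n0,n0,n0,n0,n0,n0,n0,n0,n1,m1] (e' := [n0,n0,n0,n0,n0,n0,n0,n0,n0,m1,n1]) (by decide +kernel)
  (by decide +kernel) cl94 cl333

theorem cl335 : Clo K (Helper55.TR.GH 1 Helper55.TR.BrU [0,0,0,0,0,1]) r1 :=
  .i [n0,n0,n0,n0,n0,n0,m1,n0,n2] (e' := [n1,n0,n0,n0,n0,n0,n1,n0,m2]) (by decide +kernel) (by decide +kernel) (.t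
  t1 ok1) cl334

theorem cl336 : Clo K (Helper55.TR.GH 1 Helper55.TR.BrU [0,0,0,0,0,1]) l0 :=
  .i [n0,n0,n0,n0,n0,n0,n1,n0,m2] (e' := [n1,n0,n0,n0,n0,n0,m1,n0,n2]) (by decide +kernel) (by decide +kernel) (.t
  t0 ok0) cl335

theorem cl337 : Clo K (Helper55.TR.GH 1 Helper55.TR.BrU [0,0,0,0,0,1]) base :=
  .i [n1,n0,n0,n0,n0,n0,n0,n1,n0,m2] (e' := [n0,n0,n0,n0,n0,n0,n0,m1,n0,n2]) (by decide +kernel) (by decide +kernel)
  cl336 (.t t338 ok338)

theorem g : Helper55.TR.GH 1 Helper55.TR.BrU [0,0,0,0,0,1] base :=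
  Helper55.TR.GH.of (Or.inr (Or.inr (Or.inl rfl))) cl337

end Helper55.CD.Dm1_1_c0u_27_1_3_1_1

namespace Helper55.CD.Dm1_1_c0u_27_1_3_1_2

open Helper25.KG Helper25.KW Helper55.KE Helper11.CT Helper55.TR.Nm

noncomputable def K : Cls :=
  Helper55.TR.KH 1 [0,0,0,0,0,1]

noncomputable def base : List Con :=
  [(false,[n0,n0,n0,n0,n0,n1,n0,n0,n0,n0,n0,m1,n0,n0,n1]),
  (false,[n0,n0,n0,n0,n0,n0,m1,m1,n0,n0,n0,n0,m1]),
  (true,[n0,n0,n0,n0,n1,n0,n0,n0,n0,n0,n2]),
  (false,[n0,n0,n0,n0,n0,m2,n0,n0,n0,n0,n0,n1,n0,m1]),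
  (false,[n0,n1,n0,n0,n0,n0,n1,n1,n0,n0,n0,n0,n1]),
  (false,[n0,n0,n0,n0,n0,n0,n0,n0,n0,n0,n0,n0,n0,n0,n1]),
  (false,[n0,n0,n0,n0,n0,n0,n0,n0,n0,n0,n0,n1,n0,n0,m1]),
  (true,[m1,n1]),
  (true,[n1,n0,n0,n0,n0,n0,n0,m1,n0,n2]),
  (false,[n0,n0,n0,n1,n0,n0,m1,m1,n1,n1,n0,n0,m1,n1]),
  (false,[n0,n0,n0,n0,n0,n0,n0,n0,n0,n0,n0,n0,n1]),
  (false,[n0,n0,n0,n0,n0,n0,n0,n0,n0,n0,n0,n1,m1]),
  (false,[n0,m1,n0,n0,n0,n0,m1,m1,n0,n0,n0,n1,m1]),
  (false,[n0,n0,n0,n0,n0,m1,n0,n0,n0,n0,n0,n1]),
  (true,[n1,n0,n0,n0,n0,n0,n0,n0,n0,n0,m1]),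
  (true,[n0,n0,n0,m1]),
  (true,[n0,m2,n0,n0,n1]),
  (true,[n0,n0,n0,n0,n0,n1]),
  (true,[n0,n0,n0,n0,n1,n0,n0,n0,n0,n0,m2]),
  (true,[n0,n0,m2,n0,n1]),
  (false,[n0,n0,n1,n0,n0,n0,m1,n0,n0,n0,n0,n0,m1]),
  (false,[n0,n0,n0,n0,n0,m1,n0,n0,n0,n0,n0,n0,n1]),
  (false,[n0,n0,n0,n1,n0,n0,m1,m1,n0,n0,n0,n0,m1]),
  (false,[n0,n0,n0,n0,n0,n0,n0,n0,n0,n0,n0,n1,n0,m1]),
  (false,[n0,n0,m2,n0,n1,n0,m1,n0,n1,n0,n0,n0,m1,n1]),
  (false,[n0,n0,n0,n2,n0,n0,m1,m1,n1,n1,n0,n0,m1,n1]),
  (false,[n0,n0,n0,n0,n0,n0,n0,n0,n0,n0,n0,n0,n0,n1]),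
  (false,[n0,n0,n0,n0,n0,m1,n0,n0,n0,n0,n0,n1,n0,m1]),
  (true,[n1,n1,n0,n0,n0,n0,n0,n0,n0,n1]),
  (false,[n0,n0,n0,n0,n0,n0,n0,n0,n1,n0,n0,m1,n0,n1]),
  (false,[n0,n0,m2,n0,n1,n0,n0,n0,n0,n0,n0,m1]),
  (false,[n0,n0,n0,n1,n0,m1,n0,n0,n0,n0,m1,n1,n0,n0,m1]),
  (true,[n1,m1,n1,n2,n0,n0,n0,n1]),
  (false,[n0,n0,n2,n0,m1,n0,n1,n0,n0,n0,n0,n0,n1]),
  (true,[n0,n1,n0,n1]),
  (false,[n0,n0,n2,n0,m1,n0,n1,n0,n0,n0,n0,m1,n1]),
  (false,[n0,n1,n0,n0,n0,m1,n0,n0,n0,n0,m1,n0,n0,n0,m1]),
  (false,[n0,n0,n1,n0,n0,n0,m2,n0,n0,n0,n0,n2,m2]),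
  (false,[n0,n0,n0,n0,n0,m2,n0,n0,n0,n0,n0,n0,n0,n1]),
  (false,[n0,n0,n0,n0,n1,n0,n0,n0,n0,n0,n0,m2]),
  (false,[n0,n1,n0,n2,n0,n0,n1,n1,m1,m1,n0,n0,n1,m1]),
  (false,[n0,n0,n0,n0,n0,n0,n1,n0,n0,n0,n0,m1,n1]),
  (true,[n0,m1,m2,m2,n1,n0,n0,n1,n0,m2]),
  (false,[n0,n0,n0,m1,n0,n1,n0,n0,m1,m1,n1,n0,n0,m1,n1]),
  (true,[n1,n0,m1,m1,n1,n0,n0,n2,n0,n0,n1]),
  (true,[n0,n0,n3,n3,m1,n0,n0,n1,n0,n1]),
  (false,[n0,n0,n0,n0,n0,n1,n0,n0,n0,n0,n0,m1,n1]),
  (true,[n1,m2,n1]),
  (false,[n0,n0,m2,n0,n1,n0,n0,n0,m1,n0,n0,n1,n0,m1]),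
  (true,[n1,m1,n2,n0,m1,n0,n0,m1]),
  (true,[n1,n1,n0,n0,n0,n0,n0,n1,n0,m2]),
  (false,[n0,n0,n0,n0,n0,m2,n0,n0,n0,n0,n0,n1]),
  (true,[n0,n0,m2,m2,n1,n0,n0,n0,n0,n1]),
  (false,[n0,n1,n0,n0,n0,n0,n0,n0,n1,n1,n0,m1,n0,n1]),
  (true,[n1,n0,n1,n1,n0,n0,n0,n2]),
  (false,[n0,n0,n1,n0,n0,n0,n1,n0,n0,n0,n0,n0,n1]),
  (true,[n1,n0,n2,n0,m1,n9]),
  (true,[n0,n0,n1,n0,n0,n0,n0,n1]),
  (false,[n0,n1,n0,m2,n0,n0,n0,n0,n2,n2,n0,m1,n0,n2]),
  (false,[n0,n0,n0,n2,n0,n0,n0,n0,m1,m1,n0,n0,n0,m1]),
  (false,[n0,n1,n0,n0,n0,n0,m1,m1,n0,n0,n0,n0,m1]),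
  (false,[n0,n0,n2,n0,m1,n0,n0,n0,n2,n0,n0,m1,n0,n2]),
  (false,[n0,n0,n0,n2,n0,n0,m1,m1,n0,n0,n0,n0,m1]),
  (false,[n0,n0,n0,n0,n0,n0,n1,n0,n0,n0,n0,n0,n1]),
  (true,[n0,n0,n0,m1,n0,n0,n0,m1]),
  (false,[n0,n0,n0,n0,n0,n0,n1,n0,m1,n0,n0,n0,n1,m1]),
  (true,[n0,n0,n2,n0,m1,n2,n1]),
  (true,[n0,m1,n1,n0,n0,n0,n0,m1]),
  (false,[n0,n0,m2,n0,n1,n0,n0,n0,m1,n0,n0,n0,n0,m1]),
  (true,[n1,m1,n1,n1,n0,n0,n0,n1,n0,n1]),
  (false,[n0,n0,n0,n1,n0,n0,n0,n0,m1,m1,n0,n0,n0,m1]),
  (false,[n0,n0,n0,n0,n0,n0,n0,n0,n1,n0,n0,n0,n0,n1]),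
  (true,[n0,n0,n1,n1,n0,n0,n0,n1,n0,n2]),
  (true,[n0,n0,n0,n0,n0,n0,n0,n0,n0,m1,m1]),
  (true,[n0,n0,n0,n0,n0,n0,n0,m1]),
  (true,[n0,m1,n0,m1,n0,n0,n0,n0,n0,m1])]

noncomputable def l0 : List Con := (true, [n1,n0,n0,n0,n0,n0,n0,n1,n0,m2]) :: base

noncomputable def r0 : List Con := (true, [n0,n0,n0,n0,n0,n0,n0,m1,n0,n2]) :: base

noncomputable def l1 : List Con := (true, [n0,n0,n0,n0,n0,n0,n1,n0,m2]) :: l0

noncomputable def r1 : List Con := (true, [n1,n0,n0,n0,n0,n0,m1,n0,n2]) :: l0

noncomputable def l2 : List Con := (true, [n1,n0,n3,n3,m2,n0,n0,n0,n0,n0,m7]) :: r1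

noncomputable def r2 : List Con := (true, [n0,n0,m3,m3,n2,n0,n0,n0,n0,n0,n7]) :: r1

noncomputable def l3 : List Con := (true, [n1,n0,n2,n2,m1,n0,n0,n0,n0,n0,m1]) :: l2

noncomputable def r3 : List Con := (true, [n0,n0,m2,m2,n1,n0,n0,n0,n0,n0,n1]) :: l2

noncomputable def l4 : List Con := (true, [n0,n0,n0,n0,n0,n0,m1,n0,n2]) :: l3

noncomputable def r4 : List Con := (true, [n1,n0,n0,n0,n0,n0,n1,n0,m2]) :: l3

noncomputable def l5 : List Con := (true, [n1,n0,m2,m2,n1,n0,n0,n0,n0,n0,n1]) :: r4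

noncomputable def r5 : List Con := (true, [n0,n0,n2,n2,m1,n0,n0,n0,n0,n0,m1]) :: r4

noncomputable def l6 : List Con := (true, [n1,n0,n1,n1,m1,n0,n0,m1,n0,m2,m1]) :: r5

noncomputable def r6 : List Con := (true, [n0,n0,m1,m1,n1,n0,n0,n1,n0,n2,n1]) :: r5

noncomputable def l7 : List Con := (true, [n1,n0,n1,n1,n0,n0,n0,n0,n0,n0,n5]) :: r6

noncomputable def r7 : List Con := (true, [n0,n0,m1,m1,n0,n0,n0,n0,n0,n0,m5]) :: r6

noncomputable def l8 : List Con := (true, [n1,n0,m1,m1,n0,n0,n0,n0,n0,n0,m5]) :: l7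

noncomputable def r8 : List Con := (true, [n0,n0,n1,n1,n0,n0,n0,n0,n0,n0,n5]) :: l7

noncomputable def l9 : List Con := (true, [n1,n0,m3,m3,n2,n0,n0,n0,n0,n0,n7]) :: r8

noncomputable def r9 : List Con := (true, [n0,n0,n3,n3,m2,n0,n0,n0,n0,n0,m7]) :: r8

noncomputable def l10 : List Con := (true, [n1,n0,n1,n1,m1,n0,n0,n0,n0,n0,m6]) :: r9

noncomputable def r10 : List Con := (true, [n0,n0,m1,m1,n1,n0,n0,n0,n0,n0,n6]) :: r9

noncomputable def l11 : List Con := (true, [n1,n0,m1,m1,n1,n0,n0,n0,n0,n0,n6]) :: l10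

noncomputable def r11 : List Con := (true, [n0,n0,n1,n1,m1,n0,n0,n0,n0,n0,m6]) :: l10

noncomputable def l12 : List Con := (false, [n0,n0,n0,n0,n0,n0,n0,n0,n0,n0,n0,n0,n1,m2]) :: r11

noncomputable def r12 : List Con := (true, [n1,n0,n0,n0,n0,n0,n0,n0,n0,n0,n0,n0,m1,n2]) :: r11

noncomputable def l13 : List Con := (false, [n0,n0,n0,n0,n0,n0,n0,n0,n0,n0,n0,n0,m1,n2]) :: r10

noncomputable def r13 : List Con := (true, [n1,n0,n0,n0,n0,n0,n0,n0,n0,n0,n0,n0,n1,m2]) :: r10

noncomputable def l14 : List Con := (false, [n0,n0,n0,n0,n0,n0,n0,n0,n0,n0,n0,n0,n1,m2]) :: r13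

noncomputable def r14 : List Con := (true, [n1,n0,n0,n0,n0,n0,n0,n0,n0,n0,n0,n0,m1,n2]) :: r13

noncomputable def l15 : List Con := (true, [n1,n0,m1,m1,n0,n0,n0,m1,n0,m1,m1]) :: r7

noncomputable def r15 : List Con := (true, [n0,n0,n1,n1,n0,n0,n0,n1,n0,n1,n1]) :: r7

noncomputable def l16 : List Con := (true, [n1,n0,n1,n1,n0,n0,n0,n1,n0,n1,n1]) :: l15

noncomputable def r16 : List Con := (true, [n0,n0,m1,m1,n0,n0,n0,m1,n0,m1,m1]) :: l15

noncomputable def l17 : List Con := (false, [n0,n0,n0,n0,n0,n0,n0,n0,n0,n0,n0,n0,m1,n2]) :: r16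

noncomputable def r17 : List Con := (true, [n1,n0,n0,n0,n0,n0,n0,n0,n0,n0,n0,n0,n1,m2]) :: r16

noncomputable def l18 : List Con := (true, [n1,n0,m3,m3,n1,n0,n0,m1,n0,n0,m1]) :: r15

noncomputable def r18 : List Con := (true, [n0,n0,n3,n3,m1,n0,n0,n1,n0,n0,n1]) :: r15

noncomputable def l19 : List Con := (true, [n1,n0,n3,n3,m1,n0,n0,n1,n0,n0,n1]) :: l18

noncomputable def r19 : List Con := (true, [n0,n0,m3,m3,n1,n0,n0,m1,n0,n0,m1]) :: l18

noncomputable def l20 : List Con := (true, [n1,n0,m1,m1,n1,n0,n0,n1,n0,n1,n2]) :: r19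

noncomputable def r20 : List Con := (true, [n0,n0,n1,n1,m1,n0,n0,m1,n0,m1,m2]) :: r19

noncomputable def l21 : List Con := (true, [n1,n0,n1,n1,m1,n0,n0,m1,n0,m1,m2]) :: l20

noncomputable def r21 : List Con := (true, [n0,n0,m1,m1,n1,n0,n0,n1,n0,n1,n2]) :: l20

noncomputable def l22 : List Con := (false, [n0,n0,n0,n0,n0,n0,n0,n0,n0,n0,n0,n0,m1,n2]) :: r21

noncomputable def r22 : List Con := (true, [n1,n0,n0,n0,n0,n0,n0,n0,n0,n0,n0,n0,n1,m2]) :: r21

noncomputable def l23 : List Con := (false, [n0,n0,n0,n0,n0,n0,n0,n0,n0,n0,n0,n0,n1,m2]) :: r20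

noncomputable def r23 : List Con := (true, [n1,n0,n0,n0,n0,n0,n0,n0,n0,n0,n0,n0,m1,n2]) :: r20

noncomputable def l24 : List Con := (true, [n1,n0,m1,m1,n0,n0,n0,n0,n0,m2,m2]) :: r18

noncomputable def r24 : List Con := (true, [n0,n0,n1,n1,n0,n0,n0,n0,n0,n2,n2]) :: r18

noncomputable def l25 : List Con := (false, [n0,n0,n0,n0,n0,n0,n0,n0,n0,n0,n0,n0,n1,m2]) :: l24

noncomputable def r25 : List Con := (true, [n1,n0,n0,n0,n0,n0,n0,n0,n0,n0,n0,n0,m1,n2]) :: l24

noncomputable def l26 : List Con := (true, [n1,n0,m1,m1,n1,n0,n0,n0,n0,n0,n5]) :: r24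

noncomputable def r26 : List Con := (true, [n0,n0,n1,n1,m1,n0,n0,n0,n0,n0,m5]) :: r24

noncomputable def l27 : List Con := (true, [n1,n0,n1,n1,m1,n0,n0,n0,n0,n0,m5]) :: l26

noncomputable def r27 : List Con := (true, [n0,n0,m1,m1,n1,n0,n0,n0,n0,n0,n5]) :: l26

noncomputable def l28 : List Con := (true, [n1,n0,m1,m1,n1,n0,n0,n2,n0,n1,n1]) :: r27

noncomputable def r28 : List Con := (true, [n0,n0,n1,n1,m1,n0,n0,m2,n0,m1,m1]) :: r27

noncomputable def l29 : List Con := (true, [n1,n0,n1,n1,m1,n0,n0,m2,n0,m1,m1]) :: l28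

noncomputable def r29 : List Con := (true, [n0,n0,m1,m1,n1,n0,n0,n2,n0,n1,n1]) :: l28

noncomputable def l30 : List Con := (false, [n0,n0,n0,n0,n0,n0,n0,n0,n0,n0,n0,n0,n1,m2]) :: r29

noncomputable def r30 : List Con := (true, [n1,n0,n0,n0,n0,n0,n0,n0,n0,n0,n0,n0,m1,n2]) :: r29

noncomputable def l31 : List Con := (false, [n0,n0,n0,n0,n0,n0,n0,n0,n0,n0,n0,n0,m1,n2]) :: r30

noncomputable def r31 : List Con := (true, [n1,n0,n0,n0,n0,n0,n0,n0,n0,n0,n0,n0,n1,m2]) :: r30

noncomputable def l32 : List Con := (false, [n0,n0,n0,n0,n0,n0,n0,n0,n0,n0,n0,n0,m1,n2]) :: r28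

noncomputable def r32 : List Con := (true, [n1,n0,n0,n0,n0,n0,n0,n0,n0,n0,n0,n0,n1,m2]) :: r28

noncomputable def l33 : List Con := (false, [n0,n0,n0,n0,n0,n0,n0,n0,n0,n0,n0,n0,n1,m2]) :: r32

noncomputable def r33 : List Con := (true, [n1,n0,n0,n0,n0,n0,n0,n0,n0,n0,n0,n0,m1,n2]) :: r32

noncomputable def l34 : List Con := (false, [n0,n0,n0,n0,n0,n0,n0,n0,n0,n0,n0,n0,m1,n2]) :: r26

noncomputable def r34 : List Con := (true, [n1,n0,n0,n0,n0,n0,n0,n0,n0,n0,n0,n0,n1,m2]) :: r26

noncomputable def l35 : List Con := (true, [n1,n0,n2,n2,m1,n0,n0,n0,n0,m2,n1]) :: r3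

noncomputable def r35 : List Con := (true, [n0,n0,m2,m2,n1,n0,n0,n0,n0,n2,m1]) :: r3

noncomputable def l36 : List Con := (true, [n1,n0,m2,m2,n1,n0,n0,n0,n0,n2,m1]) :: l35

noncomputable def r36 : List Con := (true, [n0,n0,n2,n2,m1,n0,n0,n0,n0,m2,n1]) :: l35

noncomputable def l37 : List Con := (true, [n0,n0,n0,n0,n0,n0,m1,n0,n2]) :: r36

noncomputable def r37 : List Con := (true, [n1,n0,n0,n0,n0,n0,n1,n0,m2]) :: r36

noncomputable def l38 : List Con := (true, [n1,n0,m3,m3,n2,n0,n0,n0,n0,n0,n7]) :: r37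

noncomputable def r38 : List Con := (true, [n0,n0,n3,n3,m2,n0,n0,n0,n0,n0,m7]) :: r37

noncomputable def l39 : List Con := (true, [n1,n0,n1,n1,n0,n0,n0,n2,n0,n1,m1]) :: r38

noncomputable def r39 : List Con := (true, [n0,n0,m1,m1,n0,n0,n0,m2,n0,m1,n1]) :: r38

noncomputable def l40 : List Con := (true, [n1,n0,m1,m1,n0,n0,n0,m2,n0,m1,n1]) :: l39

noncomputable def r40 : List Con := (true, [n0,n0,n1,n1,n0,n0,n0,n2,n0,n1,m1]) :: l39

noncomputable def l41 : List Con := (false, [n0,n0,n0,n0,n0,n0,n0,n0,n0,n0,n0,n0,m1,n2]) :: r40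

noncomputable def r41 : List Con := (true, [n1,n0,n0,n0,n0,n0,n0,n0,n0,n0,n0,n0,n1,m2]) :: r40

noncomputable def l42 : List Con := (false, [n0,n0,n0,n0,n0,n0,n0,n0,n0,n0,n0,n0,n1,m2]) :: r41

noncomputable def r42 : List Con := (true, [n1,n0,n0,n0,n0,n0,n0,n0,n0,n0,n0,n0,m1,n2]) :: r41

noncomputable def l43 : List Con := (false, [n0,n0,n0,n0,n0,n0,n0,n0,n0,n0,n0,n0,m1,n2]) :: r39

noncomputable def r43 : List Con := (true, [n1,n0,n0,n0,n0,n0,n0,n0,n0,n0,n0,n0,n1,m2]) :: r39

noncomputable def l44 : List Con := (false, [n0,n0,n0,n0,n0,n0,n0,n0,n0,n0,n0,n0,n1,m2]) :: r43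

noncomputable def r44 : List Con := (true, [n1,n0,n0,n0,n0,n0,n0,n0,n0,n0,n0,n0,m1,n2]) :: r43

noncomputable def l45 : List Con := (true, [n1,n0,n0,n0,n0,n0,n0,n0,n0,n1,m1]) :: r35

noncomputable def r45 : List Con := (true, [n0,n0,n0,n0,n0,n0,n0,n0,n0,m1,n1]) :: r35

noncomputable def l46 : List Con := (true, [n1,n0,n0,n0,n0,n0,n0,n0,n0,m1,n1]) :: l45

noncomputable def r46 : List Con := (true, [n0,n0,n0,n0,n0,n0,n0,n0,n0,n1,m1]) :: l45

noncomputable def l47 : List Con := (true, [n0,n0,n0,n0,n0,n0,m1,n0,n2]) :: r46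

noncomputable def r47 : List Con := (true, [n1,n0,n0,n0,n0,n0,n1,n0,m2]) :: r46

noncomputable def l48 : List Con := (true, [n1,n0,n1,n1,m1,n0,n0,m2,n0,m1,m1]) :: r47

noncomputable def r48 : List Con := (true, [n0,n0,m1,m1,n1,n0,n0,n2,n0,n1,n1]) :: r47

noncomputable def l49 : List Con := (true, [n1,n0,m3,m3,n1,n0,n0,m1,n0,n0,m1]) :: l48

noncomputable def r49 : List Con := (true, [n0,n0,n3,n3,m1,n0,n0,n1,n0,n0,n1]) :: l48

noncomputable def l50 : List Con := (false, [n0,n0,n0,n0,n0,n0,n0,n0,n0,n0,n0,n0,m1,n2]) :: l49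

noncomputable def r50 : List Con := (true, [n1,n0,n0,n0,n0,n0,n0,n0,n0,n0,n0,n0,n1,m2]) :: l49

noncomputable def l51 : List Con := (true, [n1,n0,m2,m2,n1,n0,n0,n0,n0,m1,n2]) :: r49

noncomputable def r51 : List Con := (true, [n0,n0,n2,n2,m1,n0,n0,n0,n0,n1,m2]) :: r49

noncomputable def l52 : List Con := (true, [n1,n0,n2,n2,m1,n0,n0,n0,n0,n1,m2]) :: l51

noncomputable def r52 : List Con := (true, [n0,n0,m2,m2,n1,n0,n0,n0,n0,m1,n2]) :: l51

noncomputable def l53 : List Con := (true, [n1,n0,m1,m1,n1,n0,n0,n2,n0,n1,n1]) :: r52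

noncomputable def r53 : List Con := (true, [n0,n0,n1,n1,m1,n0,n0,m2,n0,m1,m1]) :: r52

noncomputable def l54 : List Con := (true, [n1,n0,m3,m3,n2,n0,n0,n0,n0,n0,n7]) :: r53

noncomputable def r54 : List Con := (true, [n0,n0,n3,n3,m2,n0,n0,n0,n0,n0,m7]) :: r53

noncomputable def l55 : List Con := (true, [n1,n0,m1,m1,n1,n0,n0,n2,n0,n2]) :: r54

noncomputable def r55 : List Con := (true, [n0,n0,n1,n1,m1,n0,n0,m2,n0,m2]) :: r54

noncomputable def l56 : List Con := (true, [n1,n0,n1,n1,m1,n0,n0,m2,n0,m2]) :: l55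

noncomputable def r56 : List Con := (true, [n0,n0,m1,m1,n1,n0,n0,n2,n0,n2]) :: l55

noncomputable def l57 : List Con := (false, [n0,n0,n0,n0,n0,n0,n0,n0,n0,n0,n0,n0,n1,m2]) :: r56

noncomputable def r57 : List Con := (true, [n1,n0,n0,n0,n0,n0,n0,n0,n0,n0,n0,n0,m1,n2]) :: r56

noncomputable def l58 : List Con := (false, [n0,n0,n0,n0,n0,n0,n0,n0,n0,n0,n0,n0,m1,n2]) :: r57

noncomputable def r58 : List Con := (true, [n1,n0,n0,n0,n0,n0,n0,n0,n0,n0,n0,n0,n1,m2]) :: r57

noncomputable def l59 : List Con := (true, [n1,n0,n4,n4,m1,n0,n0,n0,n0,n0,n7]) :: r55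

noncomputable def r59 : List Con := (true, [n0,n0,m4,m4,n1,n0,n0,n0,n0,n0,m7]) :: r55

noncomputable def l60 : List Con := (true, [n1,n0,m4,m4,n1,n0,n0,n0,n0,n0,m7]) :: l59

noncomputable def r60 : List Con := (true, [n0,n0,n4,n4,m1,n0,n0,n0,n0,n0,n7]) :: l59

noncomputable def l61 : List Con := (false, [n0,n0,n0,n0,n0,n0,n0,n0,n0,n0,n0,n0,m1,n2]) :: r60

noncomputable def r61 : List Con := (true, [n1,n0,n0,n0,n0,n0,n0,n0,n0,n0,n0,n0,n1,m2]) :: r60

noncomputable def l62 : List Con := (false, [n0,n0,n0,n0,n0,n0,n0,n0,n0,n0,n0,n0,n1,m2]) :: r61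

noncomputable def r62 : List Con := (true, [n1,n0,n0,n0,n0,n0,n0,n0,n0,n0,n0,n0,m1,n2]) :: r61

noncomputable def l63 : List Con := (false, [n0,n0,n0,n0,n0,n0,n0,n0,n0,n0,n0,n0,m1,n2]) :: r59

noncomputable def r63 : List Con := (true, [n1,n0,n0,n0,n0,n0,n0,n0,n0,n0,n0,n0,n1,m2]) :: r59

noncomputable def l64 : List Con := (true, [n1,n0,m1,m1,n1,n0,n0,n2,n0,n1,n1]) :: r51

noncomputable def r64 : List Con := (true, [n0,n0,n1,n1,m1,n0,n0,m2,n0,m1,m1]) :: r51

noncomputable def l65 : List Con := (true, [n1,n0,m1,m1,n1,n0,n0,n0,n0,n0,n5]) :: r64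

noncomputable def r65 : List Con := (true, [n0,n0,n1,n1,m1,n0,n0,n0,n0,n0,m5]) :: r64

noncomputable def l66 : List Con := (true, [n1,n0,n1,n1,m1,n0,n0,n0,n0,n0,m5]) :: l65

noncomputable def r66 : List Con := (true, [n0,n0,m1,m1,n1,n0,n0,n0,n0,n0,n5]) :: l65

noncomputable def l67 : List Con := (false, [n0,n0,n0,n0,n0,n0,n0,n0,n0,n0,n0,n0,n1,m2]) :: r66

noncomputable def r67 : List Con := (true, [n1,n0,n0,n0,n0,n0,n0,n0,n0,n0,n0,n0,m1,n2]) :: r66

noncomputable def l68 : List Con := (false, [n0,n0,n0,n0,n0,n0,n0,n0,n0,n0,n0,n0,m1,n2]) :: r67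

noncomputable def r68 : List Con := (true, [n1,n0,n0,n0,n0,n0,n0,n0,n0,n0,n0,n0,n1,m2]) :: r67

noncomputable def l69 : List Con := (false, [n0,n0,n0,n0,n0,n0,n0,n0,n0,n0,n0,n0,m1,n2]) :: r65

noncomputable def r69 : List Con := (true, [n1,n0,n0,n0,n0,n0,n0,n0,n0,n0,n0,n0,n1,m2]) :: r65

noncomputable def l70 : List Con := (false, [n0,n0,n0,n0,n0,n0,n0,n0,n0,n0,n0,n0,n1,m2]) :: r48

noncomputable def r70 : List Con := (true, [n1,n0,n0,n0,n0,n0,n0,n0,n0,n0,n0,n0,m1,n2]) :: r48

noncomputable def l71 : List Con := (true, [n0,n0,n0,n0,n0,n0,m1,n0,n2]) :: r45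

noncomputable def r71 : List Con := (true, [n1,n0,n0,n0,n0,n0,n1,n0,m2]) :: r45

noncomputable def l72 : List Con := (true, [n1,n0,m3,m3,n2,n0,n0,n0,n0,n0,n7]) :: r71

noncomputable def r72 : List Con := (true, [n0,n0,n3,n3,m2,n0,n0,n0,n0,n0,m7]) :: r71

noncomputable def l73 : List Con := (false, [n0,n0,n0,n0,n0,n0,n0,n0,n0,n0,n0,n0,m1,n2]) :: r72

noncomputable def r73 : List Con := (true, [n1,n0,n0,n0,n0,n0,n0,n0,n0,n0,n0,n0,n1,m2]) :: r72

noncomputable def l74 : List Con := (false, [n0,n0,n0,n0,n0,n0,n0,n0,n0,n0,n0,n0,n1,m2]) :: r73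

noncomputable def r74 : List Con := (true, [n1,n0,n0,n0,n0,n0,n0,n0,n0,n0,n0,n0,m1,n2]) :: r73

noncomputable def l75 : List Con := (true, [n1,n0,m1,m1,n0,n0,n0,m2,n0,m1,n1]) :: r2

noncomputable def r75 : List Con := (true, [n0,n0,n1,n1,n0,n0,n0,n2,n0,n1,m1]) :: r2

noncomputable def l76 : List Con := (true, [n1,n0,n1,n1,n0,n0,n0,n1,n0,n1,n2]) :: l75

noncomputable def r76 : List Con := (true, [n0,n0,m1,m1,n0,n0,n0,m1,n0,m1,m2]) :: l75

noncomputable def l77 : List Con := (true, [n1,n0,n0,n0,n0,n0,n0,n0,n0,n1,m2]) :: l76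

noncomputable def r77 : List Con := (true, [n0,n0,n0,n0,n0,n0,n0,n0,n0,m1,n2]) :: l76

noncomputable def l78 : List Con := (true, [n1,n0,m1,m1,n0,n0,n0,m1,n0,m1,m2]) :: l77

noncomputable def r78 : List Con := (true, [n0,n0,n1,n1,n0,n0,n0,n1,n0,n1,n2]) :: l77

noncomputable def l79 : List Con := (true, [n1,n0,n0,n0,n0,n0,n0,n0,n0,m1,n2]) :: r78

noncomputable def r79 : List Con := (true, [n0,n0,n0,n0,n0,n0,n0,n0,n0,n1,m2]) :: r78

noncomputable def l80 : List Con := (false, [n0,n0,n0,n0,n0,n0,n0,n0,n0,n0,n0,n0,m1,n2]) :: r79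

noncomputable def r80 : List Con := (true, [n1,n0,n0,n0,n0,n0,n0,n0,n0,n0,n0,n0,n1,m2]) :: r79

noncomputable def l81 : List Con := (true, [n1,n0,m1,m1,n0,n0,n0,m1,n0,m2,m1]) :: r77

noncomputable def r81 : List Con := (true, [n0,n0,n1,n1,n0,n0,n0,n1,n0,n2,n1]) :: r77

noncomputable def l82 : List Con := (false, [n0,n0,n0,n0,n0,n0,n0,n0,n0,n0,n0,n0,m1,n2]) :: l81

noncomputable def r82 : List Con := (true, [n1,n0,n0,n0,n0,n0,n0,n0,n0,n0,n0,n0,n1,m2]) :: l81

noncomputable def l83 : List Con := (true, [n1,n0,n1,n1,n0,n0,n0,n2,n0,n0,n2]) :: r81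

noncomputable def r83 : List Con := (true, [n0,n0,m1,m1,n0,n0,n0,m2,n0,n0,m2]) :: r81

noncomputable def l84 : List Con := (false, [n0,n0,n0,n0,n0,n0,n0,n0,n0,n0,n0,n0,m1,n2]) :: l83

noncomputable def r84 : List Con := (true, [n1,n0,n0,n0,n0,n0,n0,n0,n0,n0,n0,n0,n1,m2]) :: l83

noncomputable def l85 : List Con := (true, [n1,n0,n1,n1,n0,n0,n0,n2,n0,n1,m1]) :: r83

noncomputable def r85 : List Con := (true, [n0,n0,m1,m1,n0,n0,n0,m2,n0,m1,n1]) :: r83

noncomputable def l86 : List Con := (false, [n0,n0,n0,n0,n0,n0,n0,n0,n0,n0,n0,n0,m1,n2]) :: r85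

noncomputable def r86 : List Con := (true, [n1,n0,n0,n0,n0,n0,n0,n0,n0,n0,n0,n0,n1,m2]) :: r85

noncomputable def l87 : List Con := (true, [n1,n0,n1,n1,n0,n0,n0,n2,n0,n1,m1]) :: r76

noncomputable def r87 : List Con := (true, [n0,n0,m1,m1,n0,n0,n0,m2,n0,m1,n1]) :: r76

noncomputable def l88 : List Con := (true, [n1,n0,n1,n1,n0,n0,n0,n0,n0,n0,n6]) :: r87

noncomputable def r88 : List Con := (true, [n0,n0,m1,m1,n0,n0,n0,n0,n0,n0,m6]) :: r87

noncomputable def l89 : List Con := (true, [n1,n0,m1,m1,n0,n0,n0,n0,n0,n0,m6]) :: l88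

noncomputable def r89 : List Con := (true, [n0,n0,n1,n1,n0,n0,n0,n0,n0,n0,n6]) :: l88

noncomputable def l90 : List Con := (true, [n1,n0,m1,m1,n1,n0,n0,n2,n0,n0,n2]) :: r89

noncomputable def r90 : List Con := (true, [n0,n0,n1,n1,m1,n0,n0,m2,n0,n0,m2]) :: r89

noncomputable def l91 : List Con := (true, [n1,n0,n1,n1,m1,n0,n0,m2,n0,n0,m2]) :: l90

noncomputable def r91 : List Con := (true, [n0,n0,m1,m1,n1,n0,n0,n2,n0,n0,n2]) :: l90

noncomputable def l92 : List Con := (true, [n0,n0,n0,n0,n0,n0,m1,n0,n2]) :: r91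

noncomputable def r92 : List Con := (true, [n1,n0,n0,n0,n0,n0,n1,n0,m2]) :: r91

noncomputable def l93 : List Con := (false, [n0,n0,n0,n0,n0,n0,n0,n0,n0,n0,n0,n0,m1,n2]) :: r92

noncomputable def r93 : List Con := (true, [n1,n0,n0,n0,n0,n0,n0,n0,n0,n0,n0,n0,n1,m2]) :: r92

noncomputable def l94 : List Con := (false, [n0,n0,n0,n0,n0,n0,n0,n0,n0,n0,n0,n0,n1,m2]) :: r93

noncomputable def r94 : List Con := (true, [n1,n0,n0,n0,n0,n0,n0,n0,n0,n0,n0,n0,m1,n2]) :: r93

noncomputable def l95 : List Con := (false, [n0,n0,n0,n0,n0,n0,n0,n0,n0,n0,n0,n0,m1,n2]) :: r90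

noncomputable def r95 : List Con := (true, [n1,n0,n0,n0,n0,n0,n0,n0,n0,n0,n0,n0,n1,m2]) :: r90

noncomputable def l96 : List Con := (true, [n1,n0,m1,m1,n1,n0,n0,n0,n0,n0,n7]) :: r88

noncomputable def r96 : List Con := (true, [n0,n0,n1,n1,m1,n0,n0,n0,n0,n0,m7]) :: r88

noncomputable def l97 : List Con := (true, [n1,n0,n1,n1,m1,n0,n0,n0,n0,n0,m7]) :: l96

noncomputable def r97 : List Con := (true, [n0,n0,m1,m1,n1,n0,n0,n0,n0,n0,n7]) :: l96

noncomputable def l98 : List Con := (true, [n0,n0,n0,n0,n0,n0,m1,n0,n2]) :: r97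

noncomputable def r98 : List Con := (true, [n1,n0,n0,n0,n0,n0,n1,n0,m2]) :: r97

noncomputable def l99 : List Con := (true, [n1,n0,m4,m4,n2,n0,n0,n0,n0,n0,n3]) :: r98

noncomputable def r99 : List Con := (true, [n0,n0,n4,n4,m2,n0,n0,n0,n0,n0,m3]) :: r98

noncomputable def l100 : List Con := (true, [n1,n0,n4,n4,m2,n0,n0,n0,n0,n0,m3]) :: l99

noncomputable def r100 : List Con := (true, [n0,n0,m4,m4,n2,n0,n0,n0,n0,n0,n3]) :: l99

noncomputable def l101 : List Con := (false, [n0,n0,n0,n0,n0,n0,n0,n0,n0,n0,n0,n0,m1,n2]) :: r100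

noncomputable def r101 : List Con := (true, [n1,n0,n0,n0,n0,n0,n0,n0,n0,n0,n0,n0,n1,m2]) :: r100

noncomputable def l102 : List Con := (false, [n0,n0,n0,n0,n0,n0,n0,n0,n0,n0,n0,n0,m1,n2]) :: r99

noncomputable def r102 : List Con := (true, [n1,n0,n0,n0,n0,n0,n0,n0,n0,n0,n0,n0,n1,m2]) :: r99

noncomputable def l103 : List Con := (true, [n0,n0,n0,n0,n0,n0,m1,n0,n2]) :: r96

noncomputable def r103 : List Con := (true, [n1,n0,n0,n0,n0,n0,n1,n0,m2]) :: r96

noncomputable def l104 : List Con := (true, [n1,n0,m4,m4,n2,n0,n0,n0,n0,n0,n3]) :: r103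

noncomputable def r104 : List Con := (true, [n0,n0,n4,n4,m2,n0,n0,n0,n0,n0,m3]) :: r103

noncomputable def l105 : List Con := (true, [n1,n0,n4,n4,m2,n0,n0,n0,n0,n0,m3]) :: l104

noncomputable def r105 : List Con := (true, [n0,n0,m4,m4,n2,n0,n0,n0,n0,n0,n3]) :: l104

noncomputable def l106 : List Con := (false, [n0,n0,n0,n0,n0,n0,n0,n0,n0,n0,n0,n0,m1,n2]) :: r105

noncomputable def r106 : List Con := (true, [n1,n0,n0,n0,n0,n0,n0,n0,n0,n0,n0,n0,n1,m2]) :: r105

noncomputable def l107 : List Con := (true, [n1,n0,n3,n3,m1,n0,n0,n0,n0,n0,n4]) :: r104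

noncomputable def r107 : List Con := (true, [n0,n0,m3,m3,n1,n0,n0,n0,n0,n0,m4]) :: r104

noncomputable def l108 : List Con := (true, [n1,n0,m3,m3,n1,n0,n0,n0,n0,n0,m4]) :: l107

noncomputable def r108 : List Con := (true, [n0,n0,n3,n3,m1,n0,n0,n0,n0,n0,n4]) :: l107

noncomputable def l109 : List Con := (false, [n0,n0,n0,n0,n0,n0,n0,n0,n0,n0,n0,n0,m1,n2]) :: r108

noncomputable def r109 : List Con := (true, [n1,n0,n0,n0,n0,n0,n0,n0,n0,n0,n0,n0,n1,m2]) :: r108

noncomputable def l110 : List Con := (true, [n1,n0,m3,m3,n2,n0,n0,n0,n0,n0,n8]) :: r107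

noncomputable def r110 : List Con := (true, [n0,n0,n3,n3,m2,n0,n0,n0,n0,n0,m8]) :: r107

noncomputable def l111 : List Con := (true, [n1,n0,n3,n3,m2,n0,n0,n0,n0,n0,m8]) :: l110

noncomputable def r111 : List Con := (true, [n0,n0,m3,m3,n2,n0,n0,n0,n0,n0,n8]) :: l110

noncomputable def l112 : List Con := (false, [n0,n0,n0,n0,n0,n0,n0,n0,n0,n0,n0,n0,m1,n2]) :: r111

noncomputable def r112 : List Con := (true, [n1,n0,n0,n0,n0,n0,n0,n0,n0,n0,n0,n0,n1,m2]) :: r111

noncomputable def l113 : List Con := (true, [n1,n0,n1,n1,n0,n0,n0,n0,n0,n0,n5]) :: r110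

noncomputable def r113 : List Con := (true, [n0,n0,m1,m1,n0,n0,n0,n0,n0,n0,m5]) :: r110

noncomputable def l114 : List Con := (true, [n1,n0,m1,m1,n0,n0,n0,n0,n0,n0,m5]) :: l113

noncomputable def r114 : List Con := (true, [n0,n0,n1,n1,n0,n0,n0,n0,n0,n0,n5]) :: l113

noncomputable def l115 : List Con := (false, [n0,n0,n0,n0,n0,n0,n0,n0,n0,n0,n0,n0,m1,n2]) :: r114

noncomputable def r115 : List Con := (true, [n1,n0,n0,n0,n0,n0,n0,n0,n0,n0,n0,n0,n1,m2]) :: r114

noncomputable def l116 : List Con := (false, [n0,n0,n0,n0,n0,n0,n0,n0,n0,n0,n0,n0,m1,n2]) :: r113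

noncomputable def r116 : List Con := (true, [n1,n0,n0,n0,n0,n0,n0,n0,n0,n0,n0,n0,n1,m2]) :: r113

noncomputable def l117 : List Con := (true, [n0,n0,n0,n0,n0,n0,m1,n0,n2]) :: r75

noncomputable def r117 : List Con := (true, [n1,n0,n0,n0,n0,n0,n1,n0,m2]) :: r75

noncomputable def l118 : List Con := (true, [n1,n0,n2,n2,m1,n0,n0,n0,n0,m2,n1]) :: r117

noncomputable def r118 : List Con := (true, [n0,n0,m2,m2,n1,n0,n0,n0,n0,n2,m1]) :: r117

noncomputable def l119 : List Con := (true, [n1,n0,m1,m1,n1,n0,n0,n2,n0,n2]) :: l118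

noncomputable def r119 : List Con := (true, [n0,n0,n1,n1,m1,n0,n0,m2,n0,m2]) :: l118

noncomputable def l120 : List Con := (true, [n1,n0,m1,m1,n0,n0,n0,m2,n0,m1]) :: l119

noncomputable def r120 : List Con := (true, [n0,n0,n1,n1,n0,n0,n0,n2,n0,n1]) :: l119

noncomputable def l121 : List Con := (true, [n1,n0,n1,n1,m1,n0,n0,m2,n0,m2]) :: l120

noncomputable def r121 : List Con := (true, [n0,n0,m1,m1,n1,n0,n0,n2,n0,n2]) :: l120

noncomputable def l122 : List Con := (true, [n1,n0,n1,n1,n0,n0,n0,n2,n0,n1]) :: r121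

noncomputable def r122 : List Con := (true, [n0,n0,m1,m1,n0,n0,n0,m2,n0,m1]) :: r121

noncomputable def l123 : List Con := (true, [n1,n0,m2,m2,n1,n0,n0,n0,n0,n2,m1]) :: r122

noncomputable def r123 : List Con := (true, [n0,n0,n2,n2,m1,n0,n0,n0,n0,m2,n1]) :: r122

noncomputable def l124 : List Con := (true, [n1,n0,n2,n2,m1,n0,n0,m1,n0,n0,n2]) :: r123

noncomputable def r124 : List Con := (true, [n0,n0,m2,m2,n1,n0,n0,n1,n0,n0,m2]) :: r123

noncomputable def l125 : List Con := (false, [n0,n0,n0,n0,n0,n0,n0,n0,n0,n0,n0,n0,m1,n2]) :: l124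

noncomputable def r125 : List Con := (true, [n1,n0,n0,n0,n0,n0,n0,n0,n0,n0,n0,n0,n1,m2]) :: l124

noncomputable def l126 : List Con := (false, [n0,n0,n0,n0,n0,n0,n0,n0,n0,n0,n0,n0,n1,m2]) :: r124

noncomputable def r126 : List Con := (true, [n1,n0,n0,n0,n0,n0,n0,n0,n0,n0,n0,n0,m1,n2]) :: r124

noncomputable def l127 : List Con := (true, [n0,n1,n0,n0,n0,n0,n0,n0,n0,n1]) :: r126

noncomputable def r127 : List Con := (true, [n1,m1,n0,n0,n0,n0,n0,n0,n0,m1]) :: r126

noncomputable def l128 : List Con := (false, [n0,m1,n0,n1,n0,n0,m1,m1,n0,n0,n0,n1,m1]) :: l127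

noncomputable def r128 : List Con := (false, [n0,n1,n0,m1,n0,n0,n1,n1,n0,n0,n0,m1,n1]) :: l127

noncomputable def l129 : List Con := (false, [n0,n0,n0,n0,n0,n0,n0,n0,n0,n0,n0,n0,m1,n2]) :: r128

noncomputable def r129 : List Con := (true, [n1,n0,n0,n0,n0,n0,n0,n0,n0,n0,n0,n0,n1,m2]) :: r128

noncomputable def l130 : List Con := (false, [n0,n0,n0,n0,n0,n0,n0,n0,n0,n0,n0,n0,m1,n2]) :: r127

noncomputable def r130 : List Con := (true, [n1,n0,n0,n0,n0,n0,n0,n0,n0,n0,n0,n0,n1,m2]) :: r127

noncomputable def l131 : List Con := (true, [n1,n0,m3,m3,n1,n0,n0,m2]) :: r120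

noncomputable def r131 : List Con := (true, [n0,n0,n3,n3,m1,n0,n0,n2]) :: r120

noncomputable def l132 : List Con := (true, [n1,n0,n3,n3,m1,n0,n0,n2]) :: l131

noncomputable def r132 : List Con := (true, [n0,n0,m3,m3,n1,n0,n0,m2]) :: l131

noncomputable def l133 : List Con := (true, [n1,n0,m2,m2,n1,n0,n0,n0,n0,n2,m1]) :: r132

noncomputable def r133 : List Con := (true, [n0,n0,n2,n2,m1,n0,n0,n0,n0,m2,n1]) :: r132

noncomputable def l134 : List Con := (false, [n0,n0,n0,n0,n0,n0,n0,n0,n0,n0,n0,n0,m1,n2]) :: r133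

noncomputable def r134 : List Con := (true, [n1,n0,n0,n0,n0,n0,n0,n0,n0,n0,n0,n0,n1,m2]) :: r133

noncomputable def l135 : List Con := (false, [n0,n0,n0,n0,n0,n0,n0,n0,n0,n0,n0,n0,n1,m2]) :: r134

noncomputable def r135 : List Con := (true, [n1,n0,n0,n0,n0,n0,n0,n0,n0,n0,n0,n0,m1,n2]) :: r134

noncomputable def l136 : List Con := (true, [n1,n0,n1,n1,n0,n0,n0,n2,n0,n0,n2]) :: r131

noncomputable def r136 : List Con := (true, [n0,n0,m1,m1,n0,n0,n0,m2,n0,n0,m2]) :: r131

noncomputable def l137 : List Con := (true, [n1,n0,m1,m1,n0,n0,n0,m2,n0,n0,m2]) :: l136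

noncomputable def r137 : List Con := (true, [n0,n0,n1,n1,n0,n0,n0,n2,n0,n0,n2]) :: l136

noncomputable def l138 : List Con := (true, [n1,n0,n0,n0,n0,n0,n0,n0,n0,n1,m2]) :: r137

noncomputable def r138 : List Con := (true, [n0,n0,n0,n0,n0,n0,n0,n0,n0,m1,n2]) :: r137

noncomputable def l139 : List Con := (true, [n1,n0,n0,n0,n0,n0,n0,n0,n0,m1,n2]) :: l138

noncomputable def r139 : List Con := (true, [n0,n0,n0,n0,n0,n0,n0,n0,n0,n1,m2]) :: l138

noncomputable def l140 : List Con := (true, [n1,n0,m3,m3,n1,n0,n0,n0,n0,n0,m7]) :: r139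

noncomputable def r140 : List Con := (true, [n0,n0,n3,n3,m1,n0,n0,n0,n0,n0,n7]) :: r139

noncomputable def l141 : List Con := (true, [n1,n0,n3,n3,m1,n0,n0,n0,n0,n0,n7]) :: l140

noncomputable def r141 : List Con := (true, [n0,n0,m3,m3,n1,n0,n0,n0,n0,n0,m7]) :: l140

noncomputable def l142 : List Con := (true, [n1,n0,m2,m2,n1,n0,n0,n0,n0,n2,m1]) :: r141

noncomputable def r142 : List Con := (true, [n0,n0,n2,n2,m1,n0,n0,n0,n0,m2,n1]) :: r141

noncomputable def l143 : List Con := (true, [n1,n0,n1,n1,n0,n0,n0,n2,n0,n2]) :: r142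

noncomputable def r143 : List Con := (true, [n0,n0,m1,m1,n0,n0,n0,m2,n0,m2]) :: r142

noncomputable def l144 : List Con := (true, [n1,n0,m1,m1,n0,n0,n0,m2,n0,m2]) :: l143

noncomputable def r144 : List Con := (true, [n0,n0,n1,n1,n0,n0,n0,n2,n0,n2]) :: l143

noncomputable def l145 : List Con := (false, [n0,n0,n0,n0,n0,n0,n0,n0,n0,n0,n0,n0,m1,n2]) :: r144

noncomputable def r145 : List Con := (true, [n1,n0,n0,n0,n0,n0,n0,n0,n0,n0,n0,n0,n1,m2]) :: r144

noncomputable def l146 : List Con := (false, [n0,n0,n0,n0,n0,n0,n0,n0,n0,n0,n0,n0,n1,m2]) :: r145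

noncomputable def r146 : List Con := (true, [n1,n0,n0,n0,n0,n0,n0,n0,n0,n0,n0,n0,m1,n2]) :: r145

noncomputable def l147 : List Con := (true, [n1,n0,n4,n4,m2,n0,n0,n0,n0,n0,m3]) :: r143

noncomputable def r147 : List Con := (true, [n0,n0,m4,m4,n2,n0,n0,n0,n0,n0,n3]) :: r143

noncomputable def l148 : List Con := (false, [n0,n0,n0,n0,n0,n0,n0,n0,n0,n0,n0,n0,m1,n2]) :: l147

noncomputable def r148 : List Con := (true, [n1,n0,n0,n0,n0,n0,n0,n0,n0,n0,n0,n0,n1,m2]) :: l147

noncomputable def l149 : List Con := (false, [n0,n0,n0,n0,n0,n0,n0,n0,n0,n0,n0,n0,m1,n2]) :: r147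

noncomputable def r149 : List Con := (true, [n1,n0,n0,n0,n0,n0,n0,n0,n0,n0,n0,n0,n1,m2]) :: r147

noncomputable def l150 : List Con := (false, [n0,n0,n0,n0,n0,n0,n0,n0,n0,n0,n0,n0,n1,m2]) :: r149

noncomputable def r150 : List Con := (true, [n1,n0,n0,n0,n0,n0,n0,n0,n0,n0,n0,n0,m1,n2]) :: r149

noncomputable def l151 : List Con := (false, [n0,n0,n0,n0,n0,n0,n0,n0,n0,n0,n0,n0,m1,n2]) :: r140

noncomputable def r151 : List Con := (true, [n1,n0,n0,n0,n0,n0,n0,n0,n0,n0,n0,n0,n1,m2]) :: r140

noncomputable def l152 : List Con := (true, [n1,n0,n1,n1,n0,n0,n0,n2,n0,n1,n1]) :: r138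

noncomputable def r152 : List Con := (true, [n0,n0,m1,m1,n0,n0,n0,m2,n0,m1,m1]) :: r138

noncomputable def l153 : List Con := (true, [n1,n0,m1,m1,n0,n0,n0,m2,n0,m1,m1]) :: l152

noncomputable def r153 : List Con := (true, [n0,n0,n1,n1,n0,n0,n0,n2,n0,n1,n1]) :: l152

noncomputable def l154 : List Con := (false, [n0,n0,n0,n0,n0,n0,n0,n0,n0,n0,n0,n0,m1,n2]) :: r153

noncomputable def r154 : List Con := (true, [n1,n0,n0,n0,n0,n0,n0,n0,n0,n0,n0,n0,n1,m2]) :: r153

noncomputable def l155 : List Con := (false, [n0,n0,n0,n0,n0,n0,n0,n0,n0,n0,n0,n0,m1,n2]) :: r152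

noncomputable def r155 : List Con := (true, [n1,n0,n0,n0,n0,n0,n0,n0,n0,n0,n0,n0,n1,m2]) :: r152

noncomputable def l156 : List Con := (true, [n1,n0,m2,m2,n1,n0,n0,n0,n0,n2,m1]) :: r136

noncomputable def r156 : List Con := (true, [n0,n0,n2,n2,m1,n0,n0,n0,n0,m2,n1]) :: r136

noncomputable def l157 : List Con := (true, [n1,n0,m1,m1,n1,n0,n0,n0,n0,n0,n8]) :: r156

noncomputable def r157 : List Con := (true, [n0,n0,n1,n1,m1,n0,n0,n0,n0,n0,m8]) :: r156

noncomputable def l158 : List Con := (true, [n1,n0,n1,n1,m1,n0,n0,n0,n0,n0,m8]) :: l157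

noncomputable def r158 : List Con := (true, [n0,n0,m1,m1,n1,n0,n0,n0,n0,n0,n8]) :: l157

noncomputable def l159 : List Con := (false, [n0,n0,n0,n0,n0,n0,n0,n0,n0,n0,n0,n0,m1,n2]) :: r158

noncomputable def r159 : List Con := (true, [n1,n0,n0,n0,n0,n0,n0,n0,n0,n0,n0,n0,n1,m2]) :: r158

noncomputable def l160 : List Con := (false, [n0,n0,n0,n0,n0,n0,n0,n0,n0,n0,n0,n0,m1,n2]) :: r157

noncomputable def r160 : List Con := (true, [n1,n0,n0,n0,n0,n0,n0,n0,n0,n0,n0,n0,n1,m2]) :: r157

noncomputable def l161 : List Con := (true, [n1,n0,m2,m2,n1,n0,n0,n0,n0,n2,m1]) :: r119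

noncomputable def r161 : List Con := (true, [n0,n0,n2,n2,m1,n0,n0,n0,n0,m2,n1]) :: r119

noncomputable def l162 : List Con := (true, [n1,n0,n1,n1,m1,n0,n0,n0,n0,n0,m6]) :: r161

noncomputable def r162 : List Con := (true, [n0,n0,m1,m1,n1,n0,n0,n0,n0,n0,n6]) :: r161

noncomputable def l163 : List Con := (true, [n1,n0,m1,m1,n1,n0,n0,n0,n0,n0,n6]) :: l162

noncomputable def r163 : List Con := (true, [n0,n0,n1,n1,m1,n0,n0,n0,n0,n0,m6]) :: l162

noncomputable def l164 : List Con := (false, [n0,n0,n0,n0,n0,n0,n0,n0,n0,n0,n0,n0,m1,n2]) :: r163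

noncomputable def r164 : List Con := (true, [n1,n0,n0,n0,n0,n0,n0,n0,n0,n0,n0,n0,n1,m2]) :: r163

noncomputable def l165 : List Con := (false, [n0,n0,n0,n0,n0,n0,n0,n0,n0,n0,n0,n0,n1,m2]) :: r164

noncomputable def r165 : List Con := (true, [n1,n0,n0,n0,n0,n0,n0,n0,n0,n0,n0,n0,m1,n2]) :: r164

noncomputable def l166 : List Con := (true, [n1,n0,n3,n3,m1,n0,n0,n0,n0,n0,n5]) :: r162

noncomputable def r166 : List Con := (true, [n0,n0,m3,m3,n1,n0,n0,n0,n0,n0,m5]) :: r162

noncomputable def l167 : List Con := (true, [n1,n0,m3,m3,n1,n0,n0,n0,n0,n0,m5]) :: l166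

noncomputable def r167 : List Con := (true, [n0,n0,n3,n3,m1,n0,n0,n0,n0,n0,n5]) :: l166

noncomputable def l168 : List Con := (true, [n1,n0,n1,n1,m1,n0,n0,m2,n0,m1,m1]) :: r167

noncomputable def r168 : List Con := (true, [n0,n0,m1,m1,n1,n0,n0,n2,n0,n1,n1]) :: r167

noncomputable def l169 : List Con := (true, [n1,n0,m1,m1,n1,n0,n0,n2,n0,n1,n1]) :: l168

noncomputable def r169 : List Con := (true, [n0,n0,n1,n1,m1,n0,n0,m2,n0,m1,m1]) :: l168

noncomputable def l170 : List Con := (true, [n1,n0,n1,n1,m1,n0,n0,n0,n0,n0,m8]) :: r169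

noncomputable def r170 : List Con := (true, [n0,n0,m1,m1,n1,n0,n0,n0,n0,n0,n8]) :: r169

noncomputable def l171 : List Con := (true, [n1,n0,m1,m1,n1,n0,n0,n0,n0,n0,n8]) :: l170

noncomputable def r171 : List Con := (true, [n0,n0,n1,n1,m1,n0,n0,n0,n0,n0,m8]) :: l170

noncomputable def l172 : List Con := (false, [n0,n0,n0,n0,n0,n0,n0,n0,n0,n0,n0,n0,m1,n2]) :: r171

noncomputable def r172 : List Con := (true, [n1,n0,n0,n0,n0,n0,n0,n0,n0,n0,n0,n0,n1,m2]) :: r171

noncomputable def l173 : List Con := (true, [n1,n0,n1,n1,n0,n0,n0,n0,n0,n0,n7]) :: r170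

noncomputable def r173 : List Con := (true, [n0,n0,m1,m1,n0,n0,n0,n0,n0,n0,m7]) :: r170

noncomputable def l174 : List Con := (true, [n1,n0,m1,m1,n0,n0,n0,n0,n0,n0,m7]) :: l173

noncomputable def r174 : List Con := (true, [n0,n0,n1,n1,n0,n0,n0,n0,n0,n0,n7]) :: l173

noncomputable def l175 : List Con := (true, [n1,n0,n1,n1,n0,n0,n0,n0,n0,n0,n8]) :: r174

noncomputable def r175 : List Con := (true, [n0,n0,m1,m1,n0,n0,n0,n0,n0,n0,m8]) :: r174

noncomputable def l176 : List Con := (true, [n1,n0,m1,m1,n0,n0,n0,n0,n0,n0,m8]) :: l175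

noncomputable def r176 : List Con := (true, [n0,n0,n1,n1,n0,n0,n0,n0,n0,n0,n8]) :: l175

noncomputable def l177 : List Con := (false, [n0,n0,n0,n0,n0,n0,n0,n0,n0,n0,n0,n0,m1,n2]) :: r176

noncomputable def r177 : List Con := (true, [n1,n0,n0,n0,n0,n0,n0,n0,n0,n0,n0,n0,n1,m2]) :: r176

noncomputable def l178 : List Con := (false, [n0,n0,n0,n0,n0,n0,n0,n0,n0,n0,n0,n0,m1,n2]) :: r175

noncomputable def r178 : List Con := (true, [n1,n0,n0,n0,n0,n0,n0,n0,n0,n0,n0,n0,n1,m2]) :: r175

noncomputable def l179 : List Con := (false, [n0,n0,n0,n0,n0,n0,n0,n0,n0,n0,n0,n0,n1,m2]) :: r178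

noncomputable def r179 : List Con := (true, [n1,n0,n0,n0,n0,n0,n0,n0,n0,n0,n0,n0,m1,n2]) :: r178

noncomputable def l180 : List Con := (false, [n0,n0,n0,n0,n0,n0,n0,n0,n0,n0,n0,n0,m1,n2]) :: r173

noncomputable def r180 : List Con := (true, [n1,n0,n0,n0,n0,n0,n0,n0,n0,n0,n0,n0,n1,m2]) :: r173

noncomputable def l181 : List Con := (false, [n0,n0,n0,n0,n0,n0,n0,n0,n0,n0,n0,n0,n1,m2]) :: r180

noncomputable def r181 : List Con := (true, [n1,n0,n0,n0,n0,n0,n0,n0,n0,n0,n0,n0,m1,n2]) :: r180

noncomputable def l182 : List Con := (true, [n1,n0,m1,m1,n0,n0,n0,m1,n0,m2,m1]) :: r168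

noncomputable def r182 : List Con := (true, [n0,n0,n1,n1,n0,n0,n0,n1,n0,n2,n1]) :: r168

noncomputable def l183 : List Con := (true, [n1,n0,n1,n1,n0,n0,n0,n1,n0,n2,n1]) :: l182

noncomputable def r183 : List Con := (true, [n0,n0,m1,m1,n0,n0,n0,m1,n0,m2,m1]) :: l182

noncomputable def l184 : List Con := (true, [n1,n0,m2,m2,n1,n0,n0,n0,n0,n0,n2]) :: r183

noncomputable def r184 : List Con := (true, [n0,n0,n2,n2,m1,n0,n0,n0,n0,n0,m2]) :: r183

noncomputable def l185 : List Con := (true, [n1,n0,n2,n2,m1,n0,n0,n0,n0,n0,m2]) :: l184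

noncomputable def r185 : List Con := (true, [n0,n0,m2,m2,n1,n0,n0,n0,n0,n0,n2]) :: l184

noncomputable def l186 : List Con := (false, [n0,n0,n0,n0,n0,n0,n0,n0,n0,n0,n0,n0,m1,n2]) :: r185

noncomputable def r186 : List Con := (true, [n1,n0,n0,n0,n0,n0,n0,n0,n0,n0,n0,n0,n1,m2]) :: r185

noncomputable def l187 : List Con := (false, [n0,n0,n0,n0,n0,n0,n0,n0,n0,n0,n0,n0,n1,m2]) :: r186

noncomputable def r187 : List Con := (true, [n1,n0,n0,n0,n0,n0,n0,n0,n0,n0,n0,n0,m1,n2]) :: r186

noncomputable def l188 : List Con := (true, [n1,n0,m4,m4,n2,n0,n0,n0,n0,n0,n3]) :: r184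

noncomputable def r188 : List Con := (true, [n0,n0,n4,n4,m2,n0,n0,n0,n0,n0,m3]) :: r184

noncomputable def l189 : List Con := (true, [n1,n0,n4,n4,m2,n0,n0,n0,n0,n0,m3]) :: l188

noncomputable def r189 : List Con := (true, [n0,n0,m4,m4,n2,n0,n0,n0,n0,n0,n3]) :: l188

noncomputable def l190 : List Con := (false, [n0,n0,n0,n0,n0,n0,n0,n0,n0,n0,n0,n0,m1,n2]) :: r189

noncomputable def r190 : List Con := (true, [n1,n0,n0,n0,n0,n0,n0,n0,n0,n0,n0,n0,n1,m2]) :: r189

noncomputable def l191 : List Con := (false, [n0,n0,n0,n0,n0,n0,n0,n0,n0,n0,n0,n0,n1,m2]) :: r190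

noncomputable def r191 : List Con := (true, [n1,n0,n0,n0,n0,n0,n0,n0,n0,n0,n0,n0,m1,n2]) :: r190

noncomputable def l192 : List Con := (true, [n1,n0,m1,m1,n1,n0,n0,n0,n0,n0,n8]) :: r188

noncomputable def r192 : List Con := (true, [n0,n0,n1,n1,m1,n0,n0,n0,n0,n0,m8]) :: r188

noncomputable def l193 : List Con := (true, [n1,n0,n1,n1,m1,n0,n0,n0,n0,n0,m8]) :: l192

noncomputable def r193 : List Con := (true, [n0,n0,m1,m1,n1,n0,n0,n0,n0,n0,n8]) :: l192

noncomputable def l194 : List Con := (false, [n0,n0,n0,n0,n0,n0,n0,n0,n0,n0,n0,n0,m1,n2]) :: r193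

noncomputable def r194 : List Con := (true, [n1,n0,n0,n0,n0,n0,n0,n0,n0,n0,n0,n0,n1,m2]) :: r193

noncomputable def l195 : List Con := (false, [n0,n0,n0,n0,n0,n0,n0,n0,n0,n0,n0,n0,m1,n2]) :: r192

noncomputable def r195 : List Con := (true, [n1,n0,n0,n0,n0,n0,n0,n0,n0,n0,n0,n0,n1,m2]) :: r192

noncomputable def l196 : List Con := (true, [n1,n0,n0,n0,n0,n0,n0,n0,n0,n1,m2]) :: r182

noncomputable def r196 : List Con := (true, [n0,n0,n0,n0,n0,n0,n0,n0,n0,m1,n2]) :: r182

noncomputable def l197 : List Con := (true, [n1,n0,n0,n0,n0,n0,n0,n0,n0,m1,n2]) :: l196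

noncomputable def r197 : List Con := (true, [n0,n0,n0,n0,n0,n0,n0,n0,n0,n1,m2]) :: l196

noncomputable def l198 : List Con := (true, [n1,n0,n1,n1,n0,n0,n0,n0,n0,n0,n8]) :: r197

noncomputable def r198 : List Con := (true, [n0,n0,m1,m1,n0,n0,n0,n0,n0,n0,m8]) :: r197

noncomputable def l199 : List Con := (true, [n1,n0,m1,m1,n0,n0,n0,n0,n0,n0,m8]) :: l198

noncomputable def r199 : List Con := (true, [n0,n0,n1,n1,n0,n0,n0,n0,n0,n0,n8]) :: l198

noncomputable def l200 : List Con := (true, [n1,n0,n2,n2,m1,n0,n0,n0,n0,n0,m2]) :: r199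

noncomputable def r200 : List Con := (true, [n0,n0,m2,m2,n1,n0,n0,n0,n0,n0,n2]) :: r199

noncomputable def l201 : List Con := (true, [n1,n0,m2,m2,n1,n0,n0,n0,n0,n0,n2]) :: l200

noncomputable def r201 : List Con := (true, [n0,n0,n2,n2,m1,n0,n0,n0,n0,n0,m2]) :: l200

noncomputable def l202 : List Con := (false, [n0,n0,n0,n0,n0,n0,n0,n0,n0,n0,n0,n0,n1,m2]) :: r201

noncomputable def r202 : List Con := (true, [n1,n0,n0,n0,n0,n0,n0,n0,n0,n0,n0,n0,m1,n2]) :: r201

noncomputable def l203 : List Con := (false, [n0,n0,n0,n0,n0,n0,n0,n0,n0,n0,n0,n0,m1,n2]) :: r202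

noncomputable def r203 : List Con := (true, [n1,n0,n0,n0,n0,n0,n0,n0,n0,n0,n0,n0,n1,m2]) :: r202

noncomputable def l204 : List Con := (false, [n0,n0,n0,n0,n0,n0,n0,n0,n0,n0,n0,n0,m1,n2]) :: r200

noncomputable def r204 : List Con := (true, [n1,n0,n0,n0,n0,n0,n0,n0,n0,n0,n0,n0,n1,m2]) :: r200

noncomputable def l205 : List Con := (false, [n0,n0,n0,n0,n0,n0,n0,n0,n0,n0,n0,n0,m1,n2]) :: r198

noncomputable def r205 : List Con := (true, [n1,n0,n0,n0,n0,n0,n0,n0,n0,n0,n0,n0,n1,m2]) :: r198

noncomputable def l206 : List Con := (true, [n1,n0,n1,n1,n0,n0,n0,n2,n0,n0,n2]) :: r196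

noncomputable def r206 : List Con := (true, [n0,n0,m1,m1,n0,n0,n0,m2,n0,n0,m2]) :: r196

noncomputable def l207 : List Con := (true, [n1,n0,m1,m1,n0,n0,n0,m2,n0,n0,m2]) :: l206

noncomputable def r207 : List Con := (true, [n0,n0,n1,n1,n0,n0,n0,n2,n0,n0,n2]) :: l206

noncomputable def l208 : List Con := (false, [n0,n0,n0,n0,n0,n0,n0,n0,n0,n0,n0,n0,m1,n2]) :: r207

noncomputable def r208 : List Con := (true, [n1,n0,n0,n0,n0,n0,n0,n0,n0,n0,n0,n0,n1,m2]) :: r207

noncomputable def l209 : List Con := (false, [n0,n0,n0,n0,n0,n0,n0,n0,n0,n0,n0,n0,m1,n2]) :: r206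

noncomputable def r209 : List Con := (true, [n1,n0,n0,n0,n0,n0,n0,n0,n0,n0,n0,n0,n1,m2]) :: r206

noncomputable def l210 : List Con := (true, [n1,n0,n1,n1,m1,n0,n0,n0,n0,n0,m7]) :: r166

noncomputable def r210 : List Con := (true, [n0,n0,m1,m1,n1,n0,n0,n0,n0,n0,n7]) :: r166

noncomputable def l211 : List Con := (true, [n1,n0,m1,m1,n1,n0,n0,n2,n0,n0,n2]) :: l210

noncomputable def r211 : List Con := (true, [n0,n0,n1,n1,m1,n0,n0,m2,n0,n0,m2]) :: l210

noncomputable def l212 : List Con := (true, [n1,n0,n1,n1,m1,n0,n0,m2,n0,n0,m2]) :: l211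

noncomputable def r212 : List Con := (true, [n0,n0,m1,m1,n1,n0,n0,n2,n0,n0,n2]) :: l211

noncomputable def l213 : List Con := (true, [n1,n0,m1,m1,n1,n0,n0,n0,n0,n0,n7]) :: r212

noncomputable def r213 : List Con := (true, [n0,n0,n1,n1,m1,n0,n0,n0,n0,n0,m7]) :: r212

noncomputable def l214 : List Con := (true, [n1,n0,m1,m1,n0,n0,n0,m1,n0,m2,m1]) :: r213

noncomputable def r214 : List Con := (true, [n0,n0,n1,n1,n0,n0,n0,n1,n0,n2,n1]) :: r213

noncomputable def l215 : List Con := (true, [n1,n0,n1,n1,n0,n0,n0,n1,n0,n2,n1]) :: l214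

noncomputable def r215 : List Con := (true, [n0,n0,m1,m1,n0,n0,n0,m1,n0,m2,m1]) :: l214

noncomputable def l216 : List Con := (true, [n1,n0,n1,n1,n0,n0,n0,n1,n0,n1,n2]) :: r215

noncomputable def r216 : List Con := (true, [n0,n0,m1,m1,n0,n0,n0,m1,n0,m1,m2]) :: r215

noncomputable def l217 : List Con := (true, [n1,n0,m1,m1,n0,n0,n0,m1,n0,m1,m2]) :: l216

noncomputable def r217 : List Con := (true, [n0,n0,n1,n1,n0,n0,n0,n1,n0,n1,n2]) :: l216

noncomputable def l218 : List Con := (true, [n1,n0,m1,m1,n1,n0,n0,n2,n0,n1,n1]) :: r217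

noncomputable def r218 : List Con := (true, [n0,n0,n1,n1,m1,n0,n0,m2,n0,m1,m1]) :: r217

noncomputable def l219 : List Con := (true, [n1,n0,n1,n1,m1,n0,n0,m2,n0,m1,m1]) :: l218

noncomputable def r219 : List Con := (true, [n0,n0,m1,m1,n1,n0,n0,n2,n0,n1,n1]) :: l218

noncomputable def l220 : List Con := (true, [n1,n0,m3,m3,n2,n0,n0,n0,n0,n0,n8]) :: r219

noncomputable def r220 : List Con := (true, [n0,n0,n3,n3,m2,n0,n0,n0,n0,n0,m8]) :: r219

noncomputable def l221 : List Con := (true, [n1,n0,n3,n3,m2,n0,n0,n0,n0,n0,m8]) :: l220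

noncomputable def r221 : List Con := (true, [n0,n0,m3,m3,n2,n0,n0,n0,n0,n0,n8]) :: l220

noncomputable def l222 : List Con := (false, [n0,n0,n0,n0,n0,n0,n0,n0,n0,n0,n0,n0,m1,n2]) :: r221

noncomputable def r222 : List Con := (true, [n1,n0,n0,n0,n0,n0,n0,n0,n0,n0,n0,n0,n1,m2]) :: r221

noncomputable def l223 : List Con := (false, [n0,n0,n0,n0,n0,n0,n0,n0,n0,n0,n0,n0,n1,m2]) :: r220

noncomputable def r223 : List Con := (true, [n1,n0,n0,n0,n0,n0,n0,n0,n0,n0,n0,n0,m1,n2]) :: r220

noncomputable def l224 : List Con := (false, [n0,n0,n0,n0,n0,n0,n0,n0,n0,n0,n0,n0,m1,n2]) :: r218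

noncomputable def r224 : List Con := (true, [n1,n0,n0,n0,n0,n0,n0,n0,n0,n0,n0,n0,n1,m2]) :: r218

noncomputable def l225 : List Con := (false, [n0,n0,n0,n0,n0,n0,n0,n0,n0,n0,n0,n0,n1,m2]) :: r224

noncomputable def r225 : List Con := (true, [n1,n0,n0,n0,n0,n0,n0,n0,n0,n0,n0,n0,m1,n2]) :: r224

noncomputable def l226 : List Con := (true, [n1,n0,m3,m3,n2,n0,n0,n0,n0,n0,n8]) :: r216

noncomputable def r226 : List Con := (true, [n0,n0,n3,n3,m2,n0,n0,n0,n0,n0,m8]) :: r216

noncomputable def l227 : List Con := (true, [n1,n0,n3,n3,m2,n0,n0,n0,n0,n0,m8]) :: l226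

noncomputable def r227 : List Con := (true, [n0,n0,m3,m3,n2,n0,n0,n0,n0,n0,n8]) :: l226

noncomputable def l228 : List Con := (false, [n0,n0,n0,n0,n0,n0,n0,n0,n0,n0,n0,n0,m1,n2]) :: r227

noncomputable def r228 : List Con := (true, [n1,n0,n0,n0,n0,n0,n0,n0,n0,n0,n0,n0,n1,m2]) :: r227

noncomputable def l229 : List Con := (false, [n0,n0,n0,n0,n0,n0,n0,n0,n0,n0,n0,n0,n1,m2]) :: r228

noncomputable def r229 : List Con := (true, [n1,n0,n0,n0,n0,n0,n0,n0,n0,n0,n0,n0,m1,n2]) :: r228

noncomputable def l230 : List Con := (false, [n0,n0,n0,n0,n0,n0,n0,n0,n0,n0,n0,n0,m1,n2]) :: r226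

noncomputable def r230 : List Con := (true, [n1,n0,n0,n0,n0,n0,n0,n0,n0,n0,n0,n0,n1,m2]) :: r226

noncomputable def l231 : List Con := (false, [n0,n0,n0,n0,n0,n0,n0,n0,n0,n0,n0,n0,n1,m2]) :: r230

noncomputable def r231 : List Con := (true, [n1,n0,n0,n0,n0,n0,n0,n0,n0,n0,n0,n0,m1,n2]) :: r230

noncomputable def l232 : List Con := (true, [n1,n0,m3,m3,n2,n0,n0,n0,n0,n0,n8]) :: r214

noncomputable def r232 : List Con := (true, [n0,n0,n3,n3,m2,n0,n0,n0,n0,n0,m8]) :: r214

noncomputable def l233 : List Con := (true, [n1,n0,n3,n3,m2,n0,n0,n0,n0,n0,m8]) :: l232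

noncomputable def r233 : List Con := (true, [n0,n0,m3,m3,n2,n0,n0,n0,n0,n0,n8]) :: l232

noncomputable def l234 : List Con := (false, [n0,n0,n0,n0,n0,n0,n0,n0,n0,n0,n0,n0,m1,n2]) :: r233

noncomputable def r234 : List Con := (true, [n1,n0,n0,n0,n0,n0,n0,n0,n0,n0,n0,n0,n1,m2]) :: r233

noncomputable def l235 : List Con := (false, [n0,n0,n0,n0,n0,n0,n0,n0,n0,n0,n0,n0,n1,m2]) :: r234

noncomputable def r235 : List Con := (true, [n1,n0,n0,n0,n0,n0,n0,n0,n0,n0,n0,n0,m1,n2]) :: r234

noncomputable def l236 : List Con := (false, [n0,n0,n0,n0,n0,n0,n0,n0,n0,n0,n0,n0,n1,m2]) :: r232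

noncomputable def r236 : List Con := (true, [n1,n0,n0,n0,n0,n0,n0,n0,n0,n0,n0,n0,m1,n2]) :: r232

noncomputable def l237 : List Con := (false, [n0,n0,n0,n0,n0,n0,n0,n0,n0,n0,n0,n0,m1,n2]) :: r236

noncomputable def r237 : List Con := (true, [n1,n0,n0,n0,n0,n0,n0,n0,n0,n0,n0,n0,n1,m2]) :: r236

noncomputable def l238 : List Con := (true, [n1,n0,n3,n3,m1,n0,n0,n0,n0,n0,n4]) :: r211

noncomputable def r238 : List Con := (true, [n0,n0,m3,m3,n1,n0,n0,n0,n0,n0,m4]) :: r211

noncomputable def l239 : List Con := (true, [n1,n0,m3,m3,n1,n0,n0,n0,n0,n0,m4]) :: l238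

noncomputable def r239 : List Con := (true, [n0,n0,n3,n3,m1,n0,n0,n0,n0,n0,n4]) :: l238

noncomputable def l240 : List Con := (false, [n0,n0,n0,n0,n0,n0,n0,n0,n0,n0,n0,n0,m1,n2]) :: r239

noncomputable def r240 : List Con := (true, [n1,n0,n0,n0,n0,n0,n0,n0,n0,n0,n0,n0,n1,m2]) :: r239

noncomputable def l241 : List Con := (false, [n0,n0,n0,n0,n0,n0,n0,n0,n0,n0,n0,n0,m1,n2]) :: r238

noncomputable def r241 : List Con := (true, [n1,n0,n0,n0,n0,n0,n0,n0,n0,n0,n0,n0,n1,m2]) :: r238

noncomputable def l242 : List Con := (true, [n1,n0,n1,n1,n0,n0,n0,n0,n0,n0,n6]) :: r210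

noncomputable def r242 : List Con := (true, [n0,n0,m1,m1,n0,n0,n0,n0,n0,n0,m6]) :: r210

noncomputable def l243 : List Con := (true, [n1,n0,m1,m1,n0,n0,n0,m1,n0,m1,m2]) :: l242

noncomputable def r243 : List Con := (true, [n0,n0,n1,n1,n0,n0,n0,n1,n0,n1,n2]) :: l242

noncomputable def l244 : List Con := (true, [n1,n0,n1,n1,n0,n0,n0,n1,n0,n1,n2]) :: l243

noncomputable def r244 : List Con := (true, [n0,n0,m1,m1,n0,n0,n0,m1,n0,m1,m2]) :: l243

noncomputable def l245 : List Con := (true, [n1,n0,m1,m1,n0,n0,n0,n0,n0,n0,m6]) :: r244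

noncomputable def r245 : List Con := (true, [n0,n0,n1,n1,n0,n0,n0,n0,n0,n0,n6]) :: r244

noncomputable def l246 : List Con := (true, [n1,n0,m1,m1,n1,n0,n0,n2,n0,n0,n2]) :: r245

noncomputable def r246 : List Con := (true, [n0,n0,n1,n1,m1,n0,n0,m2,n0,n0,m2]) :: r245

noncomputable def l247 : List Con := (true, [n1,n0,n1,n1,m1,n0,n0,m2,n0,n0,m2]) :: l246

noncomputable def r247 : List Con := (true, [n0,n0,m1,m1,n1,n0,n0,n2,n0,n0,n2]) :: l246

noncomputable def l248 : List Con := (true, [n1,n0,m4,m4,n2,n0,n0,n0,n0,n0,n3]) :: r247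

noncomputable def r248 : List Con := (true, [n0,n0,n4,n4,m2,n0,n0,n0,n0,n0,m3]) :: r247

noncomputable def l249 : List Con := (true, [n1,n0,n4,n4,m2,n0,n0,n0,n0,n0,m3]) :: l248

noncomputable def r249 : List Con := (true, [n0,n0,m4,m4,n2,n0,n0,n0,n0,n0,n3]) :: l248

noncomputable def l250 : List Con := (false, [n0,n0,n0,n0,n0,n0,n0,n0,n0,n0,n0,n0,m1,n2]) :: r249

noncomputable def r250 : List Con := (true, [n1,n0,n0,n0,n0,n0,n0,n0,n0,n0,n0,n0,n1,m2]) :: r249

noncomputable def l251 : List Con := (false, [n0,n0,n0,n0,n0,n0,n0,n0,n0,n0,n0,n0,n1,m2]) :: r250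

noncomputable def r251 : List Con := (true, [n1,n0,n0,n0,n0,n0,n0,n0,n0,n0,n0,n0,m1,n2]) :: r250

noncomputable def l252 : List Con := (false, [n0,n0,n0,n0,n0,n0,n0,n0,n0,n0,n0,n0,n1,m2]) :: r248

noncomputable def r252 : List Con := (true, [n1,n0,n0,n0,n0,n0,n0,n0,n0,n0,n0,n0,m1,n2]) :: r248

noncomputable def l253 : List Con := (false, [n0,n0,n0,n0,n0,n0,n0,n0,n0,n0,n0,n0,m1,n2]) :: r252

noncomputable def r253 : List Con := (true, [n1,n0,n0,n0,n0,n0,n0,n0,n0,n0,n0,n0,n1,m2]) :: r252

noncomputable def l254 : List Con := (false, [n0,n0,n0,n0,n0,n0,n0,n0,n0,n0,n0,n0,m1,n2]) :: r246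

noncomputable def r254 : List Con := (true, [n1,n0,n0,n0,n0,n0,n0,n0,n0,n0,n0,n0,n1,m2]) :: r246

noncomputable def l255 : List Con := (false, [n0,n0,n0,n0,n0,n0,n0,n0,n0,n0,n0,n0,n1,m2]) :: r254

noncomputable def r255 : List Con := (true, [n1,n0,n0,n0,n0,n0,n0,n0,n0,n0,n0,n0,m1,n2]) :: r254

noncomputable def l256 : List Con := (true, [n1,n0,m1,m1,n0,n0,n0,n0,n0,n0,m6]) :: r243

noncomputable def r256 : List Con := (true, [n0,n0,n1,n1,n0,n0,n0,n0,n0,n0,n6]) :: r243

noncomputable def l257 : List Con := (true, [n1,n0,m1,m1,n0,n0,n0,m1,n0,m2,m1]) :: r256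

noncomputable def r257 : List Con := (true, [n0,n0,n1,n1,n0,n0,n0,n1,n0,n2,n1]) :: r256

noncomputable def l258 : List Con := (true, [n1,n0,m1,m1,n1,n0,n0,n2,n0,n1,n1]) :: l257

noncomputable def r258 : List Con := (true, [n0,n0,n1,n1,m1,n0,n0,m2,n0,m1,m1]) :: l257

noncomputable def l259 : List Con := (false, [n0,n0,n0,n0,n0,n0,n0,n0,n0,n0,n0,n0,m1,n2]) :: l258

noncomputable def r259 : List Con := (true, [n1,n0,n0,n0,n0,n0,n0,n0,n0,n0,n0,n0,n1,m2]) :: l258

noncomputable def l260 : List Con := (true, [n1,n0,m1,m1,n1,n0,n0,n0,n0,n0,n8]) :: r258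

noncomputable def r260 : List Con := (true, [n0,n0,n1,n1,m1,n0,n0,n0,n0,n0,m8]) :: r258

noncomputable def l261 : List Con := (true, [n1,n0,n1,n1,m1,n0,n0,n0,n0,n0,m8]) :: l260

noncomputable def r261 : List Con := (true, [n0,n0,m1,m1,n1,n0,n0,n0,n0,n0,n8]) :: l260

noncomputable def l262 : List Con := (false, [n0,n0,n0,n0,n0,n0,n0,n0,n0,n0,n0,n0,m1,n2]) :: r261

noncomputable def r262 : List Con := (true, [n1,n0,n0,n0,n0,n0,n0,n0,n0,n0,n0,n0,n1,m2]) :: r261

noncomputable def l263 : List Con := (false, [n0,n0,n0,n0,n0,n0,n0,n0,n0,n0,n0,n0,n1,m2]) :: r262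

noncomputable def r263 : List Con := (true, [n1,n0,n0,n0,n0,n0,n0,n0,n0,n0,n0,n0,m1,n2]) :: r262

noncomputable def l264 : List Con := (true, [n1,n0,m4,m4,n2,n0,n0,n0,n0,n0,n3]) :: r260

noncomputable def r264 : List Con := (true, [n0,n0,n4,n4,m2,n0,n0,n0,n0,n0,m3]) :: r260

noncomputable def l265 : List Con := (false, [n0,n0,n0,n0,n0,n0,n0,n0,n0,n0,n0,n0,m1,n2]) :: l264

noncomputable def r265 : List Con := (true, [n1,n0,n0,n0,n0,n0,n0,n0,n0,n0,n0,n0,n1,m2]) :: l264

noncomputable def l266 : List Con := (false, [n0,n0,n0,n0,n0,n0,n0,n0,n0,n0,n0,n0,m1,n2]) :: r264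

noncomputable def r266 : List Con := (true, [n1,n0,n0,n0,n0,n0,n0,n0,n0,n0,n0,n0,n1,m2]) :: r264

noncomputable def l267 : List Con := (false, [n0,n0,n0,n0,n0,n0,n0,n0,n0,n0,n0,n0,m1,n2]) :: r257

noncomputable def r267 : List Con := (true, [n1,n0,n0,n0,n0,n0,n0,n0,n0,n0,n0,n0,n1,m2]) :: r257

noncomputable def l268 : List Con := (true, [n1,n0,m1,m1,n0,n0,n0,m1,n0,m1,m2]) :: r242

noncomputable def r268 : List Con := (true, [n0,n0,n1,n1,n0,n0,n0,n1,n0,n1,n2]) :: r242

noncomputable def l269 : List Con := (false, [n0,n0,n0,n0,n0,n0,n0,n0,n0,n0,n0,n0,m1,n2]) :: l268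

noncomputable def r269 : List Con := (true, [n1,n0,n0,n0,n0,n0,n0,n0,n0,n0,n0,n0,n1,m2]) :: l268

noncomputable def l270 : List Con := (true, [n1,n0,m1,m1,n1,n0,n0,n2,n0,n1,n1]) :: r268

noncomputable def r270 : List Con := (true, [n0,n0,n1,n1,m1,n0,n0,m2,n0,m1,m1]) :: r268

noncomputable def l271 : List Con := (true, [n1,n0,n1,n1,m1,n0,n0,m2,n0,m1,m1]) :: l270

noncomputable def r271 : List Con := (true, [n0,n0,m1,m1,n1,n0,n0,n2,n0,n1,n1]) :: l270

noncomputable def l272 : List Con := (true, [n1,n0,m4,m4,n2,n0,n0,n0,n0,n0,n3]) :: r271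

noncomputable def r272 : List Con := (true, [n0,n0,n4,n4,m2,n0,n0,n0,n0,n0,m3]) :: r271

noncomputable def l273 : List Con := (true, [n1,n0,n4,n4,m2,n0,n0,n0,n0,n0,m3]) :: l272

noncomputable def r273 : List Con := (true, [n0,n0,m4,m4,n2,n0,n0,n0,n0,n0,n3]) :: l272

noncomputable def l274 : List Con := (false, [n0,n0,n0,n0,n0,n0,n0,n0,n0,n0,n0,n0,m1,n2]) :: r273

noncomputable def r274 : List Con := (true, [n1,n0,n0,n0,n0,n0,n0,n0,n0,n0,n0,n0,n1,m2]) :: r273

noncomputable def l275 : List Con := (true, [n1,n0,n1,n1,n0,n0,n0,n1,n0,n2,n1]) :: r272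

noncomputable def r275 : List Con := (true, [n0,n0,m1,m1,n0,n0,n0,m1,n0,m2,m1]) :: r272

noncomputable def l276 : List Con := (true, [n1,n0,m1,m1,n0,n0,n0,m1,n0,m2,m1]) :: l275

noncomputable def r276 : List Con := (true, [n0,n0,n1,n1,n0,n0,n0,n1,n0,n2,n1]) :: l275

noncomputable def l277 : List Con := (false, [n0,n0,n0,n0,n0,n0,n0,n0,n0,n0,n0,n0,m1,n2]) :: r276

noncomputable def r277 : List Con := (true, [n1,n0,n0,n0,n0,n0,n0,n0,n0,n0,n0,n0,n1,m2]) :: r276

noncomputable def l278 : List Con := (false, [n0,n0,n0,n0,n0,n0,n0,n0,n0,n0,n0,n0,m1,n2]) :: r275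

noncomputable def r278 : List Con := (true, [n1,n0,n0,n0,n0,n0,n0,n0,n0,n0,n0,n0,n1,m2]) :: r275

noncomputable def l279 : List Con := (false, [n0,n0,n0,n0,n0,n0,n0,n0,n0,n0,n0,n0,m1,n2]) :: r270

noncomputable def r279 : List Con := (true, [n1,n0,n0,n0,n0,n0,n0,n0,n0,n0,n0,n0,n1,m2]) :: r270

noncomputable def l280 : List Con := (true, [n1,n0,m3,m3,n1,n0,n0,m2]) :: r118

noncomputable def r280 : List Con := (true, [n0,n0,n3,n3,m1,n0,n0,n2]) :: r118

noncomputable def l281 : List Con := (true, [n1,n0,n0,n0,n0,n0,n0,n0,n0,n1,m1]) :: l280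

noncomputable def r281 : List Con := (true, [n0,n0,n0,n0,n0,n0,n0,n0,n0,m1,n1]) :: l280

noncomputable def l282 : List Con := (true, [n1,n0,n0,n0,n0,n0,n0,n0,n0,m1,n1]) :: l281

noncomputable def r282 : List Con := (true, [n0,n0,n0,n0,n0,n0,n0,n0,n0,n1,m1]) :: l281

noncomputable def l283 : List Con := (true, [n1,n0,n3,n3,m1,n0,n0,n2]) :: r282

noncomputable def r283 : List Con := (true, [n0,n0,m3,m3,n1,n0,n0,m2]) :: r282

noncomputable def l284 : List Con := (true, [n1,n0,n1,n1,n0,n0,n0,n1,n0,n1,n2]) :: r283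

noncomputable def r284 : List Con := (true, [n0,n0,m1,m1,n0,n0,n0,m1,n0,m1,m2]) :: r283

noncomputable def l285 : List Con := (true, [n1,n0,m1,m1,n0,n0,n0,m1,n0,m1,m2]) :: l284

noncomputable def r285 : List Con := (true, [n0,n0,n1,n1,n0,n0,n0,n1,n0,n1,n2]) :: l284

noncomputable def l286 : List Con := (true, [n1,n0,n1,n1,n0,n0,n0,n0,n0,n0,n5]) :: r285

noncomputable def r286 : List Con := (true, [n0,n0,m1,m1,n0,n0,n0,n0,n0,n0,m5]) :: r285

noncomputable def l287 : List Con := (true, [n1,n0,m1,m1,n0,n0,n0,n0,n0,n0,m5]) :: l286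

noncomputable def r287 : List Con := (true, [n0,n0,n1,n1,n0,n0,n0,n0,n0,n0,n5]) :: l286

noncomputable def l288 : List Con := (false, [n0,n0,n0,n0,n0,n0,n0,n0,n0,n0,n0,n0,n1,m2]) :: r287

noncomputable def r288 : List Con := (true, [n1,n0,n0,n0,n0,n0,n0,n0,n0,n0,n0,n0,m1,n2]) :: r287

noncomputable def l289 : List Con := (false, [n0,n0,n0,n0,n0,n0,n0,n0,n0,n0,n0,n0,m1,n2]) :: r288

noncomputable def r289 : List Con := (true, [n1,n0,n0,n0,n0,n0,n0,n0,n0,n0,n0,n0,n1,m2]) :: r288

noncomputable def l290 : List Con := (false, [n0,n0,n0,n0,n0,n0,n0,n0,n0,n0,n0,n0,m1,n2]) :: r286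

noncomputable def r290 : List Con := (true, [n1,n0,n0,n0,n0,n0,n0,n0,n0,n0,n0,n0,n1,m2]) :: r286

noncomputable def l291 : List Con := (true, [n1,n0,n1,n1,n0,n0,n0,n1,n0,n2,n1]) :: r284

noncomputable def r291 : List Con := (true, [n0,n0,m1,m1,n0,n0,n0,m1,n0,m2,m1]) :: r284

noncomputable def l292 : List Con := (true, [n1,n0,m1,m1,n0,n0,n0,m1,n0,m2,m1]) :: l291

noncomputable def r292 : List Con := (true, [n0,n0,n1,n1,n0,n0,n0,n1,n0,n2,n1]) :: l291

noncomputable def l293 : List Con := (true, [n1,n0,m1,m1,n1,n0,n0,n0,n0,n0,n6]) :: r292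

noncomputable def r293 : List Con := (true, [n0,n0,n1,n1,m1,n0,n0,n0,n0,n0,m6]) :: r292

noncomputable def l294 : List Con := (true, [n1,n0,n1,n1,m1,n0,n0,n0,n0,n0,m6]) :: l293

noncomputable def r294 : List Con := (true, [n0,n0,m1,m1,n1,n0,n0,n0,n0,n0,n6]) :: l293

noncomputable def l295 : List Con := (false, [n0,n0,n0,n0,n0,n0,n0,n0,n0,n0,n0,n0,m1,n2]) :: r294

noncomputable def r295 : List Con := (true, [n1,n0,n0,n0,n0,n0,n0,n0,n0,n0,n0,n0,n1,m2]) :: r294

noncomputable def l296 : List Con := (false, [n0,n0,n0,n0,n0,n0,n0,n0,n0,n0,n0,n0,n1,m2]) :: r295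

noncomputable def r296 : List Con := (true, [n1,n0,n0,n0,n0,n0,n0,n0,n0,n0,n0,n0,m1,n2]) :: r295

noncomputable def l297 : List Con := (false, [n0,n0,n0,n0,n0,n0,n0,n0,n0,n0,n0,n0,n1,m2]) :: r293

noncomputable def r297 : List Con := (true, [n1,n0,n0,n0,n0,n0,n0,n0,n0,n0,n0,n0,m1,n2]) :: r293

noncomputable def l298 : List Con := (false, [n0,n0,n0,n0,n0,n0,n0,n0,n0,n0,n0,n0,m1,n2]) :: r297

noncomputable def r298 : List Con := (true, [n1,n0,n0,n0,n0,n0,n0,n0,n0,n0,n0,n0,n1,m2]) :: r297

noncomputable def l299 : List Con := (false, [n0,n0,n0,n0,n0,n0,n0,n0,n0,n0,n0,n0,m1,n2]) :: r291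

noncomputable def r299 : List Con := (true, [n1,n0,n0,n0,n0,n0,n0,n0,n0,n0,n0,n0,n1,m2]) :: r291

noncomputable def l300 : List Con := (false, [n0,n0,n0,n0,n0,n0,n0,n0,n0,n0,n0,n0,n1,m2]) :: r281

noncomputable def r300 : List Con := (true, [n1,n0,n0,n0,n0,n0,n0,n0,n0,n0,n0,n0,m1,n2]) :: r281

noncomputable def l301 : List Con := (true, [n0,n1,n0,n0,n0,n0,n0,n0,n0,n1]) :: r300

noncomputable def r301 : List Con := (true, [n1,m1,n0,n0,n0,n0,n0,n0,n0,m1]) :: r300

noncomputable def l302 : List Con := (false, [n0,m1,n0,n1,n0,n0,m1,m1,n0,n0,n0,n1,m1]) :: l301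

noncomputable def r302 : List Con := (false, [n0,n1,n0,m1,n0,n0,n1,n1,n0,n0,n0,m1,n1]) :: l301

noncomputable def l303 : List Con := (true, [n1,n0,n3,n3,m1,n0,n0,n2]) :: r302

noncomputable def r303 : List Con := (true, [n0,n0,m3,m3,n1,n0,n0,m2]) :: r302

noncomputable def l304 : List Con := (false, [n0,n0,n0,n0,n0,n0,n0,n0,n0,n0,n0,n0,m1,n2]) :: r303

noncomputable def r304 : List Con := (true, [n1,n0,n0,n0,n0,n0,n0,n0,n0,n0,n0,n0,n1,m2]) :: r303

noncomputable def l305 : List Con := (false, [n0,n0,n0,n0,n0,n0,n0,n0,n0,n0,n0,n0,m1,n2]) :: r301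

noncomputable def r305 : List Con := (true, [n1,n0,n0,n0,n0,n0,n0,n0,n0,n0,n0,n0,n1,m2]) :: r301

noncomputable def l306 : List Con := (true, [n1,n0,n1,n1,n0,n0,n0,n2,n0,n1,n1]) :: r280

noncomputable def r306 : List Con := (true, [n0,n0,m1,m1,n0,n0,n0,m2,n0,m1,m1]) :: r280

noncomputable def l307 : List Con := (true, [n1,n0,m1,m1,n0,n0,n0,m2,n0,m1,m1]) :: l306

noncomputable def r307 : List Con := (true, [n0,n0,n1,n1,n0,n0,n0,n2,n0,n1,n1]) :: l306

noncomputable def l308 : List Con := (false, [n0,n0,n0,n0,n0,n0,n0,n0,n0,n0,n0,n0,n1,m2]) :: r307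

noncomputable def r308 : List Con := (true, [n1,n0,n0,n0,n0,n0,n0,n0,n0,n0,n0,n0,m1,n2]) :: r307

noncomputable def l309 : List Con := (true, [n1,n0,n0,n0,n0,n0,n0,n0,n0,n1,m1]) :: r306

noncomputable def r309 : List Con := (true, [n0,n0,n0,n0,n0,n0,n0,n0,n0,m1,n1]) :: r306

noncomputable def l310 : List Con := (true, [n1,n0,n0,n0,n0,n0,n0,n0,n0,m1,n1]) :: l309

noncomputable def r310 : List Con := (true, [n0,n0,n0,n0,n0,n0,n0,n0,n0,n1,m1]) :: l309

noncomputable def l311 : List Con := (true, [n1,n0,m1,m1,n0,n0,n0,n0,n0,n0,m5]) :: r310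

noncomputable def r311 : List Con := (true, [n0,n0,n1,n1,n0,n0,n0,n0,n0,n0,n5]) :: r310

noncomputable def l312 : List Con := (true, [n1,n0,n2,n2,m1,n0,n0,n0,n0,n1,m2]) :: l311

noncomputable def r312 : List Con := (true, [n0,n0,m2,m2,n1,n0,n0,n0,n0,m1,n2]) :: l311

noncomputable def l313 : List Con := (true, [n1,n0,m2,m2,n1,n0,n0,n0,n0,m1,n2]) :: l312

noncomputable def r313 : List Con := (true, [n0,n0,n2,n2,m1,n0,n0,n0,n0,n1,m2]) :: l312

noncomputable def l314 : List Con := (true, [n1,n0,n1,n1,n0,n0,n0,n0,n0,n0,n5]) :: r313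

noncomputable def r314 : List Con := (true, [n0,n0,m1,m1,n0,n0,n0,n0,n0,n0,m5]) :: r313

noncomputable def l315 : List Con := (true, [n1,n0,m1,m1,n1,n0,n0,n0,n0,n0,n6]) :: r314

noncomputable def r315 : List Con := (true, [n0,n0,n1,n1,m1,n0,n0,n0,n0,n0,m6]) :: r314

noncomputable def l316 : List Con := (true, [n1,n0,n1,n1,m1,n0,n0,n0,n0,n0,m6]) :: l315

noncomputable def r316 : List Con := (true, [n0,n0,m1,m1,n1,n0,n0,n0,n0,n0,n6]) :: l315

noncomputable def l317 : List Con := (false, [n0,n0,n0,n0,n0,n0,n0,n0,n0,n0,n0,n0,m1,n2]) :: r316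

noncomputable def r317 : List Con := (true, [n1,n0,n0,n0,n0,n0,n0,n0,n0,n0,n0,n0,n1,m2]) :: r316

noncomputable def l318 : List Con := (false, [n0,n0,n0,n0,n0,n0,n0,n0,n0,n0,n0,n0,m1,n2]) :: r315

noncomputable def r318 : List Con := (true, [n1,n0,n0,n0,n0,n0,n0,n0,n0,n0,n0,n0,n1,m2]) :: r315

noncomputable def l319 : List Con := (false, [n0,n0,n0,n0,n0,n0,n0,n0,n0,n0,n0,n0,n1,m2]) :: r318

noncomputable def r319 : List Con := (true, [n1,n0,n0,n0,n0,n0,n0,n0,n0,n0,n0,n0,m1,n2]) :: r318

noncomputable def l320 : List Con := (true, [n1,n0,n1,n1,n0,n0,n0,n0,n0,n0,n5]) :: r312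

noncomputable def r320 : List Con := (true, [n0,n0,m1,m1,n0,n0,n0,n0,n0,n0,m5]) :: r312

noncomputable def l321 : List Con := (true, [n1,n0,m1,m1,n1,n0,n0,n0,n0,n0,n6]) :: r320

noncomputable def r321 : List Con := (true, [n0,n0,n1,n1,m1,n0,n0,n0,n0,n0,m6]) :: r320

noncomputable def l322 : List Con := (true, [n1,n0,n1,n1,m1,n0,n0,n0,n0,n0,m6]) :: l321

noncomputable def r322 : List Con := (true, [n0,n0,m1,m1,n1,n0,n0,n0,n0,n0,n6]) :: l321

noncomputable def l323 : List Con := (false, [n0,n0,n0,n0,n0,n0,n0,n0,n0,n0,n0,n0,m1,n2]) :: r322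

noncomputable def r323 : List Con := (true, [n1,n0,n0,n0,n0,n0,n0,n0,n0,n0,n0,n0,n1,m2]) :: r322

noncomputable def l324 : List Con := (false, [n0,n0,n0,n0,n0,n0,n0,n0,n0,n0,n0,n0,n1,m2]) :: r323

noncomputable def r324 : List Con := (true, [n1,n0,n0,n0,n0,n0,n0,n0,n0,n0,n0,n0,m1,n2]) :: r323

noncomputable def l325 : List Con := (false, [n0,n0,n0,n0,n0,n0,n0,n0,n0,n0,n0,n0,m1,n2]) :: r321

noncomputable def r325 : List Con := (true, [n1,n0,n0,n0,n0,n0,n0,n0,n0,n0,n0,n0,n1,m2]) :: r321

noncomputable def l326 : List Con := (true, [n1,n0,m2,m2,n1,n0,n0,n0,n0,n0,n1]) :: r311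

noncomputable def r326 : List Con := (true, [n0,n0,n2,n2,m1,n0,n0,n0,n0,n0,m1]) :: r311

noncomputable def l327 : List Con := (true, [n1,n0,n2,n2,m1,n0,n0,n0,n0,n0,m1]) :: l326

noncomputable def r327 : List Con := (true, [n0,n0,m2,m2,n1,n0,n0,n0,n0,n0,n1]) :: l326

noncomputable def l328 : List Con := (true, [n1,n0,n1,n1,n0,n0,n0,n2,n0,n2]) :: r327

noncomputable def r328 : List Con := (true, [n0,n0,m1,m1,n0,n0,n0,m2,n0,m2]) :: r327

noncomputable def l329 : List Con := (true, [n1,n0,m1,m1,n0,n0,n0,m2,n0,m2]) :: l328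

noncomputable def r329 : List Con := (true, [n0,n0,n1,n1,n0,n0,n0,n2,n0,n2]) :: l328

noncomputable def l330 : List Con := (false, [n0,n0,n0,n0,n0,n0,n0,n0,n0,n0,n0,n0,n1,m2]) :: r329

noncomputable def r330 : List Con := (true, [n1,n0,n0,n0,n0,n0,n0,n0,n0,n0,n0,n0,m1,n2]) :: r329

noncomputable def l331 : List Con := (false, [n0,n0,n0,n0,n0,n0,n0,n0,n0,n0,n0,n0,m1,n2]) :: r330

noncomputable def r331 : List Con := (true, [n1,n0,n0,n0,n0,n0,n0,n0,n0,n0,n0,n0,n1,m2]) :: r330

noncomputable def l332 : List Con := (true, [n1,n0,n3,n3,m1,n0,n0,n0,n0,n0,n4]) :: r328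

noncomputable def r332 : List Con := (true, [n0,n0,m3,m3,n1,n0,n0,n0,n0,n0,m4]) :: r328

noncomputable def l333 : List Con := (true, [n1,n0,m3,m3,n1,n0,n0,n0,n0,n0,m4]) :: l332

noncomputable def r333 : List Con := (true, [n0,n0,n3,n3,m1,n0,n0,n0,n0,n0,n4]) :: l332

noncomputable def l334 : List Con := (true, [n1,n0,n2,n2,m1,n0,n0,n0,n0,n1,m2]) :: r333

noncomputable def r334 : List Con := (true, [n0,n0,m2,m2,n1,n0,n0,n0,n0,m1,n2]) :: r333

noncomputable def l335 : List Con := (true, [n1,n0,m2,m2,n1,n0,n0,n0,n0,m1,n2]) :: l334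

noncomputable def r335 : List Con := (true, [n0,n0,n2,n2,m1,n0,n0,n0,n0,n1,m2]) :: l334

noncomputable def l336 : List Con := (false, [n0,n0,n0,n0,n0,n0,n0,n0,n0,n0,n0,n0,m1,n2]) :: r335

noncomputable def r336 : List Con := (true, [n1,n0,n0,n0,n0,n0,n0,n0,n0,n0,n0,n0,n1,m2]) :: r335

noncomputable def l337 : List Con := (false, [n0,n0,n0,n0,n0,n0,n0,n0,n0,n0,n0,n0,n1,m2]) :: r336

noncomputable def r337 : List Con := (true, [n1,n0,n0,n0,n0,n0,n0,n0,n0,n0,n0,n0,m1,n2]) :: r336

noncomputable def l338 : List Con := (true, [n1,n0,m1,m1,n1,n0,n0,n0,n0,n0,n7]) :: r334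

noncomputable def r338 : List Con := (true, [n0,n0,n1,n1,m1,n0,n0,n0,n0,n0,m7]) :: r334

noncomputable def l339 : List Con := (true, [n1,n0,n1,n1,m1,n0,n0,n0,n0,n0,m7]) :: l338

noncomputable def r339 : List Con := (true, [n0,n0,m1,m1,n1,n0,n0,n0,n0,n0,n7]) :: l338

noncomputable def l340 : List Con := (false, [n0,n0,n0,n0,n0,n0,n0,n0,n0,n0,n0,n0,m1,n2]) :: r339

noncomputable def r340 : List Con := (true, [n1,n0,n0,n0,n0,n0,n0,n0,n0,n0,n0,n0,n1,m2]) :: r339

noncomputable def l341 : List Con := (false, [n0,n0,n0,n0,n0,n0,n0,n0,n0,n0,n0,n0,n1,m2]) :: r340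

noncomputable def r341 : List Con := (true, [n1,n0,n0,n0,n0,n0,n0,n0,n0,n0,n0,n0,m1,n2]) :: r340

noncomputable def l342 : List Con := (false, [n0,n0,n0,n0,n0,n0,n0,n0,n0,n0,n0,n0,m1,n2]) :: r338

noncomputable def r342 : List Con := (true, [n1,n0,n0,n0,n0,n0,n0,n0,n0,n0,n0,n0,n1,m2]) :: r338

noncomputable def l343 : List Con := (false, [n0,n0,n0,n0,n0,n0,n0,n0,n0,n0,n0,n0,n1,m2]) :: r342

noncomputable def r343 : List Con := (true, [n1,n0,n0,n0,n0,n0,n0,n0,n0,n0,n0,n0,m1,n2]) :: r342

noncomputable def l344 : List Con := (false, [n0,n0,n0,n0,n0,n0,n0,n0,n0,n0,n0,n0,m1,n2]) :: r332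

noncomputable def r344 : List Con := (true, [n1,n0,n0,n0,n0,n0,n0,n0,n0,n0,n0,n0,n1,m2]) :: r332

noncomputable def l345 : List Con := (false, [n0,n0,n0,n0,n0,n0,n0,n0,n0,n0,n0,n0,n1,m2]) :: r326

noncomputable def r345 : List Con := (true, [n1,n0,n0,n0,n0,n0,n0,n0,n0,n0,n0,n0,m1,n2]) :: r326

noncomputable def l346 : List Con := (true, [n1,n0,n1,n1,n0,n0,n0,n2,n0,n0,n2]) :: r309

noncomputable def r346 : List Con := (true, [n0,n0,m1,m1,n0,n0,n0,m2,n0,n0,m2]) :: r309

noncomputable def l347 : List Con := (true, [n1,n0,m1,m1,n0,n0,n0,m2,n0,n0,m2]) :: l346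

noncomputable def r347 : List Con := (true, [n0,n0,n1,n1,n0,n0,n0,n2,n0,n0,n2]) :: l346

noncomputable def l348 : List Con := (false, [n0,n0,n0,n0,n0,n0,n0,n0,n0,n0,n0,n0,m1,n2]) :: r347

noncomputable def r348 : List Con := (true, [n1,n0,n0,n0,n0,n0,n0,n0,n0,n0,n0,n0,n1,m2]) :: r347

noncomputable def l349 : List Con := (true, [n1,n0,m1,m1,n1,n0,n0,n0,n0,n0,n7]) :: r346

noncomputable def r349 : List Con := (true, [n0,n0,n1,n1,m1,n0,n0,n0,n0,n0,m7]) :: r346

noncomputable def l350 : List Con := (true, [n1,n0,n1,n1,m1,n0,n0,n0,n0,n0,m7]) :: l349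

noncomputable def r350 : List Con := (true, [n0,n0,m1,m1,n1,n0,n0,n0,n0,n0,n7]) :: l349

noncomputable def l351 : List Con := (false, [n0,n0,n0,n0,n0,n0,n0,n0,n0,n0,n0,n0,m1,n2]) :: r350

noncomputable def r351 : List Con := (true, [n1,n0,n0,n0,n0,n0,n0,n0,n0,n0,n0,n0,n1,m2]) :: r350

noncomputable def l352 : List Con := (false, [n0,n0,n0,n0,n0,n0,n0,n0,n0,n0,n0,n0,m1,n2]) :: r349

noncomputable def r352 : List Con := (true, [n1,n0,n0,n0,n0,n0,n0,n0,n0,n0,n0,n0,n1,m2]) :: r349

noncomputable def t0 : Tre :=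
  (.N [0,0,1,-2] 0 ⟨0,[(1,0)]⟩ ⟨0,[(10,0)]⟩ (.x 0 ⟨0,[(0,0)]⟩ ⟨55,[(4,2),(7,55),(7,2),(4,111),(0,
  39),(12,7),(1,45),(21,35)]⟩))

theorem ok0 : chk K t0 l1 = true := by decide +kernel

noncomputable def t1 : Tre :=
  (.N [0,0,1,-2] 0 ⟨0,[(4,0)]⟩ ⟨0,[(13,0)]⟩ (.x (-1) ⟨4,[(16,3),(14,8),(10,1),(0,0),(0,3),(25,7),(0,
  0),(1,1)]⟩ ⟨0,[(0,0)]⟩))

theorem ok1 : chk K t1 l4 = true := by decide +kernel

noncomputable def t2 : Tre :=
  (.N [0,-2,0,0,1] (-1) ⟨0,[(0,0)]⟩ ⟨0,[(2,0)]⟩ (.x 0 ⟨29,[(8,12),(15,12),(16,15),(1,7),(18,9)]⟩ ⟨1,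
  [(9,0),(26,1),(7,0),(12,0)]⟩))

theorem ok2 : chk K t2 l5 = true := by decide +kernel

noncomputable def t3 : Tre :=
  (.N [0,-1,1,2,1] (-1) ⟨0,[(15,0),(35,0)]⟩ ⟨0,[(0,0)]⟩ (.x 0 ⟨3,[(5,3),(3,0),(8,3),(6,0),(11,1),
  (10,1),(21,1),(2,3)]⟩ ⟨60,[(2,32),(1,0),(3,21),(18,29),(0,51),(15,20),(0,55),(5,6),(1,41),(7,3),
  (13,55)]⟩))

theorem ok3 : chk K t3 l6 = true := by decide +kernel

noncomputable def t4 : Tre :=
  (.N [0,1,0,0,5] 0 ⟨0,[(1,0)]⟩ ⟨0,[(0,0)]⟩ (.x (-1) ⟨35,[(11,8),(15,8),(0,33),(36,15)]⟩ ⟨2,[(12,2),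
  (16,0),(14,0),(2,2),(0,0)]⟩))

theorem ok4 : chk K t4 l8 = true := by decide +kernel

noncomputable def t5 : Tre :=
  (.N [0,-3,0,0,7] (-2) ⟨0,[(0,0)]⟩ ⟨0,[(7,0)]⟩ (.x 1 ⟨89,[(12,18),(15,18),(16,27),(1,13),(18,99)]⟩
  ⟨1,[(13,4),(26,2),(7,4),(0,0)]⟩))

theorem ok5 : chk K t5 l9 = true := by decide +kernel

noncomputable def t6 : Tre :=
  (.N [0,-1,0,0,6] (-1) ⟨0,[(0,0)]⟩ ⟨0,[(1,0)]⟩ (.x 0 ⟨35,[(14,8),(15,8),(0,9),(36,27)]⟩ ⟨11,[(15,
  20),(16,1),(9,8),(4,1),(2,20),(0,4)]⟩))

theorem ok6 : chk K t6 l11 = true := by decide +kernel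

noncomputable def t7 : Tre :=
  (.N [0,0,1,-2] 0 ⟨0,[(12,0)]⟩ ⟨0,[(21,0)]⟩ (.i 0 ⟨0,[(0,0)]⟩ ⟨0,[(24,0),(14,1)]⟩))

theorem ok7 : chk K t7 l12 = true := by decide +kernel

open Helper55.PC in
noncomputable def t8n : Helper55.PC.Ten :=
  (r
  20003329420050136801225757583532230059087579125786440484699528760284500100274008289047166969425332432356457953228671530377710236211203416777309658430743447210260331103877079380358449218693115616747288814412776478534036548323177544305208577573006511528312466285273310141070090753788684445669077125577789349664710064072820979843979954228016059611259116949848681017194258298406342570434256983678589996614789160288385671179174509965704666929478911943352085294904759859548345382311178347887267182170291732977169601710666103038316256677649383323855191528999259770290302301066138619365463880615360139370202633724965435738198672848412151202771185705792)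

noncomputable def t8 : Tre := Helper55.PC.toT t8n

theorem ok8 : chk K t8 r12 = true :=
  Helper55.PC.chkN_sound K t8n r12 (by decide +kernel)

noncomputable def t9 : Tre :=
  (.N [0,0,1,-2] 0 ⟨0,[(11,0)]⟩ ⟨0,[(20,0)]⟩ (.i 1 ⟨1,[(15,0),(19,2),(22,1)]⟩ ⟨0,[(0,0)]⟩))

theorem ok9 : chk K t9 l13 = true := by decide +kernel

noncomputable def t10 : Tre :=
  (.N [0,0,1,-2] 0 ⟨0,[(12,0)]⟩ ⟨0,[(21,0)]⟩ (.i 0 ⟨0,[(0,0)]⟩ ⟨0,[(24,0),(14,1)]⟩))

theorem ok10 : chk K t10 l14 = true := by decide +kernel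

open Helper55.PC in
noncomputable def t11n : Helper55.PC.Ten :=
  (r
  4657388064090660028445082611772642041260008270380664631116378400981989191865466491012490942554530535711359518467530087403131958783974615167405205657894870571087963425260007363995851338859381321725220635637524746138139985604502242776612016469695838018851440789330538168814458411483714023635528007098813605808366732005441957266308391380982619637200054596662135374357383802688059657380924902578143173643064221900944752291560232988938401263286999150223357187940668627772474730320594327829912816286565425603421684146315305347934892227499299503425543536243315737364497112906716675903157574967534583032730240792657678867859478666737090831168)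

noncomputable def t11 : Tre := Helper55.PC.toT t11n

theorem ok11 : chk K t11 r14 = true :=
  Helper55.PC.chkN_sound K t11n r14 (by decide +kernel)

noncomputable def t12 : Tre :=
  (.N [0,1,1,1,1] 0 ⟨0,[(0,0)]⟩ ⟨0,[(1,0)]⟩ (.x (-1) ⟨3,[(8,1),(3,0),(8,5),(6,0),(11,1),(10,3),(21,
  1)]⟩ ⟨7,[(5,3),(5,1),(13,0),(4,3),(0,5),(15,2),(8,5),(7,0)]⟩))

theorem ok12 : chk K t12 l16 = true := by decide +kernel

noncomputable def t13 : Tre :=
  (.N [0,0,1,-2] 0 ⟨0,[(10,0)]⟩ ⟨0,[(19,0)]⟩ (.i 1 ⟨1,[(14,0),(19,2),(22,1)]⟩ ⟨0,[(0,0)]⟩))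

theorem ok13 : chk K t13 l17 = true := by decide +kernel

open Helper55.PC in
noncomputable def t14n : Helper55.PC.Ten :=
  (r
  539288694329996966190751050071244775149628312094861393149910450524236482393404427176869307200318319247596090977217457902658453454668154884929818532914531999083947826077081972678836907040627248276210151219258357596222028248625926316534513576571065509972013790493265086149192830201346554171674440492830251316762725796093561702941180187187676234261225325309346299428971508316564218298649995280633301349589357861265595055455370117700218270997728393359357739692841039826011423641470767539616313127635128651988833143905941837896123428907999865721793774172603110845378511846234382451225884254098938595768931257539725733194895813709658714603783585077192261703861343602882771701654191549393442316505034548875672003289920)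

noncomputable def t14 : Tre := Helper55.PC.toT t14n

theorem ok14 : chk K t14 r17 = true :=
  Helper55.PC.chkN_sound K t14n r17 (by decide +kernel)

noncomputable def t15 : Tre :=
  (.N [0,3,1,0,1] 1 ⟨0,[(0,0)]⟩ ⟨0,[(1,0)]⟩ (.x (-2) ⟨3,[(13,0),(8,3),(6,0),(11,5),(10,1),(9,3),(11,
  1)]⟩ ⟨7,[(21,0),(9,0),(14,6),(1,6),(8,6),(9,0)]⟩))

theorem ok15 : chk K t15 l19 = true := by decide +kernel

noncomputable def t16 : Tre :=
  (.N [0,-1,1,1,2] (-1) ⟨0,[(1,0)]⟩ ⟨0,[(0,0)]⟩ (.x 0 ⟨3,[(11,1),(3,0),(15,0),(0,3),(46,5)]⟩ ⟨0,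
  [(33,0),(0,0),(16,0),(29,0)]⟩))

theorem ok16 : chk K t16 l21 = true := by decide +kernel

noncomputable def t17 : Tre :=
  (.N [0,0,1,-2] 0 ⟨0,[(13,0)]⟩ ⟨0,[(22,0)]⟩ (.i 1 ⟨1,[(17,0),(19,2),(22,1)]⟩ ⟨0,[(0,0)]⟩))

theorem ok17 : chk K t17 l22 = true := by decide +kernel

open Helper55.PC in
noncomputable def t18n : Helper55.PC.Ten :=
  (r
  103863224507963626517463344240831307563066060930897391894030043839197658645301155008926484637517511119441905598377875743476994355991406165665837924529647670723722402235845721606741812918082562447368296975459474297612242181782043804829896630171912516955786694269488448740530825565421246070306806714924382625987082186753351791700577819476912628206906954870129384511962216588514244957891484631077310055620857770962761590956292976636302071747039608467033319170224423612662123254729434584397921875848064045659279808043724720307091502586296061893548114447365927281987247453673845292488015707657547469193850328294719559124006393036620117881161274274464834496668347098984921337633710912)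

noncomputable def t18 : Tre := Helper55.PC.toT t18n

theorem ok18 : chk K t18 r22 = true :=
  Helper55.PC.chkN_sound K t18n r22 (by decide +kernel)

noncomputable def t19 : Tre :=
  (.N [0,0,1,-2] 0 ⟨0,[(12,0)]⟩ ⟨0,[(21,0)]⟩ (.i 0 ⟨0,[(0,0)]⟩ ⟨0,[(24,0),(14,1)]⟩))

theorem ok19 : chk K t19 l23 = true := by decide +kernel

open Helper55.PC in
noncomputable def t20n : Helper55.PC.Ten :=
  (r
  1915938321168642581197586866196178192228616924931497952420900628400049198586726863685768018501725226638493225589739549188074459649894580618648289850497055391213144493227028161516342765408473123604028398838208657556787077538869148836713408904194629867340623677849875291985751251396868515799900576698119698833923315965068224544746590265513975784068498473304043021169690615787345136110400188560423440812855039393255513474687420317318834595870552599082083944750716273508113014070943179666896507475973786944684404450816814249221913827916035375568128872962819992137204349341703765995996280327658254523995161856937851445705882002726423154474486391734092275387950506758258715388416209112498332616930632512)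

noncomputable def t20 : Tre := Helper55.PC.toT t20n

theorem ok20 : chk K t20 r23 = true :=
  Helper55.PC.chkN_sound K t20n r23 (by decide +kernel)

noncomputable def t21 : Tre :=
  (.N [0,0,1,-2] 0 ⟨0,[(11,0)]⟩ ⟨0,[(20,0)]⟩ (.i 0 ⟨0,[(0,0)]⟩ ⟨0,[(23,0),(14,1)]⟩))

theorem ok21 : chk K t21 l25 = true := by decide +kernel

open Helper55.PC in
noncomputable def t22n : Helper55.PC.Ten :=
  (r
  85913645670229979472443503437879801291108624257292406039624848633523534285667853382091830622713322090995277454077033854725061791889988186188958018099710491206374500794128819818117225585404716145286015646515481783928557239754460382093047969023738265885818086417444208153090650272894638553929122584932071406841971592359258113097191339981757263420116342827948748173074236902666685667717495641419356773910972723765865522372959852889079868586296248180991509339435064184774359791023206299429114764464766320568914516103099307531604744230075562015471004196974092720832019985666373535317103960162355426869218954982925749070425925305731882927960444119760362545984)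

noncomputable def t22 : Tre := Helper55.PC.toT t22n

theorem ok22 : chk K t22 r25 = true :=
  Helper55.PC.chkN_sound K t22n r25 (by decide +kernel)

noncomputable def t23 : Tre :=
  (.N [0,-1,0,0,5] (-1) ⟨0,[(1,0)]⟩ ⟨0,[(0,0)]⟩ (.x 0 ⟨11,[(15,2),(15,2),(0,1),(36,7)]⟩ ⟨1,[(16,2),
  (26,0),(7,2),(0,0)]⟩))

theorem ok23 : chk K t23 l27 = true := by decide +kernel

noncomputable def t24 : Tre :=
  (.N [0,-1,2,1,1] (-1) ⟨0,[(1,0)]⟩ ⟨0,[(0,0)]⟩ (.x 0 ⟨3,[(13,1),(3,0),(8,5),(6,0),(11,1),(10,3),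
  (21,1),(2,3)]⟩ ⟨11,[(1,4),(5,0),(8,8),(18,1),(0,11),(0,0),(14,5),(0,11),(7,11),(21,6),(1,4)]⟩))

theorem ok24 : chk K t24 l29 = true := by decide +kernel

noncomputable def t25 : Tre :=
  (.N [0,0,1,-2] 0 ⟨0,[(15,0)]⟩ ⟨0,[(24,0)]⟩ (.i 0 ⟨0,[(0,0)]⟩ ⟨0,[(27,0),(14,1)]⟩))

theorem ok25 : chk K t25 l30 = true := by decide +kernel

noncomputable def t26 : Tre :=
  (.N [0,0,1,-2] 0 ⟨0,[(16,0)]⟩ ⟨0,[(25,0)]⟩ (.i 1 ⟨1,[(20,0),(19,2),(22,1)]⟩ ⟨0,[(0,0)]⟩))

theorem ok26 : chk K t26 l31 = true := by decide +kernel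

open Helper55.PC in
noncomputable def t27n : Helper55.PC.Ten :=
  (r
  20003329420050141242841251398090227687513375530141666011819892722724971330971992030576699691964609357469451859564075952953876989532741057409208230557239433816402997724510467785746536642786888947759940784543983726177333166988431745698988024449277021310903110952661431713085561691969898570892871016941122553618679151802434765598461402588678227298600153099284300968310742250091884645041533965467877573258804516447543317940346417030502025817154960831659902300433012255329075779046989064662904807548762756605643662137733665408724273900708208345013740317739324636240217305186227355177851356767042758020491471564177042086930307532371046296033698259776)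

noncomputable def t27 : Tre := Helper55.PC.toT t27n

theorem ok27 : chk K t27 r31 = true :=
  Helper55.PC.chkN_sound K t27n r31 (by decide +kernel)

noncomputable def t28 : Tre :=
  (.N [0,0,1,-2] 0 ⟨0,[(14,0)]⟩ ⟨0,[(23,0)]⟩ (.i 1 ⟨1,[(18,0),(19,2),(22,1)]⟩ ⟨0,[(0,0)]⟩))

theorem ok28 : chk K t28 l32 = true := by decide +kernel

noncomputable def t29 : Tre :=
  (.N [0,0,1,-2] 0 ⟨0,[(15,0)]⟩ ⟨0,[(24,0)]⟩ (.i 0 ⟨0,[(0,0)]⟩ ⟨0,[(27,0),(14,1)]⟩))

theorem ok29 : chk K t29 l33 = true := by decide +kernel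

open Helper55.PC in
noncomputable def t30n : Helper55.PC.Ten :=
  (r
  85913645670229998549035647066576419604644321956858387454092963577893597595859455845460349909137215698090126857290813149306453715415798747925672811836685756199818713441455567135478299150897379746159999052570182222590721067090840435183068572814488702076800252500286122932313636711145703048276707471881257691234878772351907680720704701270001056669714989904461560897557780708198462570663714258778955043332167841810553437218118591238999334918379753783677603159546392101448513740152767070421084024277932693686417528280364440526036082731942296125695828145101694179412799923164507317814942381476616582139611587877209810815191381517175744948170041556594405417792)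

noncomputable def t30 : Tre := Helper55.PC.toT t30n

theorem ok30 : chk K t30 r33 = true :=
  Helper55.PC.chkN_sound K t30n r33 (by decide +kernel)

noncomputable def t31 : Tre :=
  (.N [0,0,1,-2] 0 ⟨0,[(12,0)]⟩ ⟨0,[(21,0)]⟩ (.i 1 ⟨1,[(16,0),(19,2),(22,1)]⟩ ⟨0,[(0,0)]⟩))

theorem ok31 : chk K t31 l34 = true := by decide +kernel

open Helper55.PC in
noncomputable def t32n : Helper55.PC.Ten :=
  (r
  368996298433769783116232223777911181160323400727778021263154381063387900174065926142696907960368575107111599227359098520608733546997919137672223985074515149670265468473526483739992867245576317071381295477333130992046507934026217368827501147467424363291260223491399286188198516863653461205509975884961250405667320550005296506033593815160767207440293096218334347984954199498084552137926474352126913183861993174204960678509932413764323798592296289679524274223663590729011830132922505064023924420006677068615860000451846207130522838263898223514095798266858449951515881267433005043119816055503075948076732131410815244311467456045246503268376051970694540391117832332096)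

noncomputable def t32 : Tre := Helper55.PC.toT t32n

theorem ok32 : chk K t32 r34 = true :=
  Helper55.PC.chkN_sound K t32n r34 (by decide +kernel)

noncomputable def t33 : Tre :=
  (.N [0,-2,0,2,-1] (-1) ⟨0,[(0,0)]⟩ ⟨0,[(1,0)]⟩ (.x 1 ⟨1,[(4,1),(12,0),(23,0),(30,0)]⟩ ⟨9,[(32,14),
  (10,3),(0,4),(0,7),(8,7),(16,7),(2,3)]⟩))

theorem ok33 : chk K t33 l36 = true := by decide +kernel

noncomputable def t34 : Tre :=
  (.N [0,0,1,-2] 0 ⟨0,[(6,0)]⟩ ⟨0,[(15,0)]⟩ (.x (-1) ⟨4,[(18,3),(14,8),(10,1),(0,0),(0,3),(25,7),(0,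
  0),(1,1)]⟩ ⟨0,[(0,0)]⟩))

theorem ok34 : chk K t34 l37 = true := by decide +kernel

noncomputable def t35 : Tre :=
  (.N [0,-3,0,0,7] (-2) ⟨0,[(0,0)]⟩ ⟨0,[(5,0)]⟩ (.x 1 ⟨89,[(10,18),(15,18),(16,27),(1,13),(18,99)]⟩
  ⟨1,[(11,4),(26,2),(7,4),(0,0)]⟩))

theorem ok35 : chk K t35 l38 = true := by decide +kernel

noncomputable def t36 : Tre :=
  (.N [0,1,2,1,-1] 0 ⟨0,[(1,0)]⟩ ⟨0,[(0,0)]⟩ (.x (-1) ⟨3,[(12,0),(0,3),(7,7),(6,0),(11,3),(10,5),
  (19,1),(1,1)]⟩ ⟨2,[(1,0),(1,0),(5,0),(1,0),(4,0),(5,1),(15,1),(8,1),(0,0),(4,0),(2,6)]⟩))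

theorem ok36 : chk K t36 l40 = true := by decide +kernel

noncomputable def t37 : Tre :=
  (.N [0,0,1,-2] 0 ⟨0,[(10,0)]⟩ ⟨0,[(19,0)]⟩ (.i 1 ⟨1,[(14,0),(19,2),(22,1)]⟩ ⟨0,[(0,0)]⟩))

theorem ok37 : chk K t37 l41 = true := by decide +kernel

noncomputable def t38 : Tre :=
  (.N [0,0,1,-2] 0 ⟨0,[(11,0)]⟩ ⟨0,[(20,0)]⟩ (.i 0 ⟨0,[(0,0)]⟩ ⟨0,[(23,0),(14,1)]⟩))

theorem ok38 : chk K t38 l42 = true := by decide +kernel

open Helper55.PC in
noncomputable def t39n : Helper55.PC.Ten :=
  (r
  24182541414155535163909093396702720082237789594472360830706313705566652352017509988368744833202572996557746640353676159325127088989959647386466965086085849623346657453032609286514446869273781308321260704842386149457026018334984812373158741169810604778597018696674504791447892213750347611182466402958509293647455217381917490843791868640018673956086808209400043513410976073889609158156143607140960813251348126641522870193792825572408386693139609516493273951832405392154240755868782628157692394798787905356774957189224850450893378621986573915690091830880452972658746413311986161539649750909259087613672268664729784248595443276190820643724099362399940238164186833491338048)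

noncomputable def t39 : Tre := Helper55.PC.toT t39n

theorem ok39 : chk K t39 r42 = true :=
  Helper55.PC.chkN_sound K t39n r42 (by decide +kernel)

noncomputable def t40 : Tre :=
  (.N [0,0,1,-2] 0 ⟨0,[(9,0)]⟩ ⟨0,[(18,0)]⟩ (.i 1 ⟨1,[(13,0),(19,2),(22,1)]⟩ ⟨0,[(0,0)]⟩))

theorem ok40 : chk K t40 l43 = true := by decide +kernel

noncomputable def t41 : Tre :=
  (.N [0,0,1,-2] 0 ⟨0,[(10,0)]⟩ ⟨0,[(19,0)]⟩ (.i 0 ⟨0,[(0,0)]⟩ ⟨0,[(22,0),(14,1)]⟩))

theorem ok41 : chk K t41 l44 = true := by decide +kernel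

open Helper55.PC in
noncomputable def t42n : Helper55.PC.Ten :=
  (r
  35342823871610681176275908793718046493709788600427244086655027138733692151043226184570466999164844586662076655184173524769360197882598262870506690080534750855989639005330352317754583585122765338973040073947655400943250652721598750769652129228632500025728866083490313441916373721727119678910067352327725560045273239223504757835726282033200379896144206447811285513383365786977091653655511433168824814752400106773097296979398027781684299065409367072479960788426097690303943089624074872691371586332931783514234900341120912457983087488526071346959163866156656494774908146189785311912469039668472048813492408305171987666462959153530169535382837421598034719261439055146618549246800408637098643365638023542010821366671221568)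

noncomputable def t42 : Tre := Helper55.PC.toT t42n

theorem ok42 : chk K t42 r44 = true :=
  Helper55.PC.chkN_sound K t42n r44 (by decide +kernel)

noncomputable def t43 : Tre :=
  (.N [0,0,0,1,-1] 0 ⟨0,[(1,0)]⟩ ⟨0,[(0,0)]⟩ (.x 0 ⟨3,[(5,0),(4,1),(7,0),(18,0),(10,0),(19,0)]⟩
  ⟨179,[(9,28),(15,28),(7,179),(10,63),(1,89),(8,51),(7,19),(8,127)]⟩))

theorem ok43 : chk K t43 l46 = true := by decide +kernel

noncomputable def t44 : Tre :=
  (.N [0,0,1,-2] 0 ⟨0,[(7,0)]⟩ ⟨0,[(16,0)]⟩ (.x (-1) ⟨4,[(19,3),(14,8),(10,1),(0,0),(0,3),(25,7),(0,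
  0),(1,1)]⟩ ⟨0,[(0,0)]⟩))

theorem ok44 : chk K t44 l47 = true := by decide +kernel

noncomputable def t45 : Tre :=
  (.N [0,0,1,-2] 0 ⟨0,[(10,0)]⟩ ⟨0,[(19,0)]⟩ (.i 1 ⟨1,[(14,0),(19,2),(22,1)]⟩ ⟨0,[(0,0)]⟩))

theorem ok45 : chk K t45 l50 = true := by decide +kernel

open Helper55.PC in
noncomputable def t46n : Helper55.PC.Ten :=
  (r
  8228892430572463473369614411487499620813420289533407488249366005313667028707953295545491137700169666253602462420920683329138999247255781325223061110146057114928403107865630686627760422372852299136507434375890466250946475961699315132667748665940330657531948707477799776446423835727844243890551198344059493388744997986995965038591639467947655993687619295055832685530694480375603666847935328130677999024395775912026731820264564450329457401120108057372292087002348601432500032366205966625465943978835326742971136518527728873374266881956159074204568900400780537686566288095500494994164295335390223235952951190093794390577028683014871574512407485282274244685364624008231493036953174066675550153380139917960815424)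

noncomputable def t46 : Tre := Helper55.PC.toT t46n

theorem ok46 : chk K t46 r50 = true :=
  Helper55.PC.chkN_sound K t46n r50 (by decide +kernel)

noncomputable def t47 : Tre :=
  (.N [0,2,0,1,-2] 1 ⟨0,[(0,0)]⟩ ⟨0,[(1,0)]⟩ (.x (-1) ⟨1,[(15,1),(26,2),(20,1),(9,0)]⟩ ⟨89,[(4,44),
  (9,30),(7,44),(7,30),(1,44),(14,21),(1,10),(18,39)]⟩))

theorem ok47 : chk K t47 l52 = true := by decide +kernel

noncomputable def t48 : Tre :=
  (.N [0,-1,2,1,1] (-1) ⟨0,[(0,0)]⟩ ⟨0,[(4,0)]⟩ (.x 0 ⟨3,[(11,1),(3,0),(8,5),(6,0),(11,1),(10,3),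
  (21,1),(2,3)]⟩ ⟨272,[(0,111),(4,1),(4,15),(3,223),(18,41),(0,277),(15,134),(0,268),(3,11),(3,269),
  (13,11),(7,180),(1,87)]⟩))

theorem ok48 : chk K t48 l53 = true := by decide +kernel

noncomputable def t49 : Tre :=
  (.N [0,-3,0,0,7] (-2) ⟨0,[(0,0)]⟩ ⟨0,[(11,0)]⟩ (.x 1 ⟨89,[(16,18),(15,18),(16,27),(1,13),(18,
  99)]⟩ ⟨1,[(17,4),(26,2),(7,4),(0,0)]⟩))

theorem ok49 : chk K t49 l54 = true := by decide +kernel

noncomputable def t50 : Tre :=
  (.N [0,-1,2,2] (-1) ⟨0,[(1,0)]⟩ ⟨0,[(0,0)]⟩ (.x 0 ⟨3,[(14,3),(3,0),(8,9),(6,0),(22,9),(24,1)]⟩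
  ⟨67,[(1,55),(6,36),(4,1),(1,16),(1,128),(4,13),(3,130),(13,15),(12,13),(0,61),(4,13),(2,41),(23,
  63)]⟩))

theorem ok50 : chk K t50 l56 = true := by decide +kernel

noncomputable def t51 : Tre :=
  (.N [0,0,1,-2] 0 ⟨0,[(16,0)]⟩ ⟨0,[(25,0)]⟩ (.i 0 ⟨0,[(0,0)]⟩ ⟨0,[(28,0),(14,1)]⟩))

theorem ok51 : chk K t51 l57 = true := by decide +kernel

noncomputable def t52 : Tre :=
  (.N [0,0,1,-2] 0 ⟨0,[(17,0)]⟩ ⟨0,[(26,0)]⟩ (.i 1 ⟨1,[(21,0),(19,2),(22,1)]⟩ ⟨0,[(0,0)]⟩))

theorem ok52 : chk K t52 l58 = true := by decide +kernel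

open Helper55.PC in
noncomputable def t53n : Helper55.PC.Ten :=
  (r
  85913645670230008087331768692592864506844073959580452932449020059562260060338484080656048871012307531898734789905567516600079573203072020049466474166963383551524450646664617756805938406879081589268287335788512900823793226084178797445063017493698935097498203880324300852737370882581923222610665050107724850774032193202602802035976173547542608770633956136252532303509835200271235219063498214637072279848210020210810245914824816399492890357680302902855018304219106551587795430454396994810446242915054528038039149455773396596706127416262721167642849743842738924475494626215025682069788998585694167161388797762458253973530392528229370970398163993395944760128)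

noncomputable def t53 : Tre := Helper55.PC.toT t53n

theorem ok53 : chk K t53 r58 = true :=
  Helper55.PC.chkN_sound K t53n r58 (by decide +kernel)

noncomputable def t54 : Tre :=
  (.N [0,4,0,0,7] 1 ⟨0,[(1,0)]⟩ ⟨0,[(0,0)]⟩ (.x (-2) ⟨2,[(36,6),(36,0)]⟩ ⟨5,[(19,0),(0,0),(14,0),(1,
  7),(14,7),(2,0),(12,6)]⟩))

theorem ok54 : chk K t54 l60 = true := by decide +kernel

noncomputable def t55 : Tre :=
  (.N [0,0,1,-2] 0 ⟨0,[(17,0)]⟩ ⟨0,[(26,0)]⟩ (.i 1 ⟨1,[(21,0),(19,2),(22,1)]⟩ ⟨0,[(0,0)]⟩))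

theorem ok55 : chk K t55 l61 = true := by decide +kernel

noncomputable def t56 : Tre :=
  (.N [0,0,1,-2] 0 ⟨0,[(18,0)]⟩ ⟨0,[(27,0)]⟩ (.i 0 ⟨0,[(0,0)]⟩ ⟨0,[(30,0),(14,1)]⟩))

theorem ok56 : chk K t56 l62 = true := by decide +kernel

open Helper55.PC in
noncomputable def t57n : Helper55.PC.Ten :=
  (r
  1310938196872406202033748463682313508794452117859146395288470321342548065797841411736866899946264515658944413311039334031460673140711053462652130599131613858821435150418006393609709749106779256965862215154683385926680500822977748383997092182378603882356707311459894938764295101572168692054581620164224665670860482645441025780408072494686973402104152909405027803823354977027198573175666674808168249818861399456691155398377047132051320226248546895415657389894093752370005668587090582638727912427154981446999799037028189180984353596893901898877466395153543784039521081228512130334039235949628434611961567232464824742420544043659065736835604573755548480)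

noncomputable def t57 : Tre := Helper55.PC.toT t57n

theorem ok57 : chk K t57 r62 = true :=
  Helper55.PC.chkN_sound K t57n r62 (by decide +kernel)

noncomputable def t58 : Tre :=
  (.N [0,0,1,-2] 0 ⟨0,[(16,0)]⟩ ⟨0,[(25,0)]⟩ (.i 1 ⟨1,[(20,0),(19,2),(22,1)]⟩ ⟨0,[(0,0)]⟩))

theorem ok58 : chk K t58 l63 = true := by decide +kernel

open Helper55.PC in
noncomputable def t59n : Helper55.PC.Ten :=
  (r
  71066102052164628030230969560524961534308719789913010730754440986524141055194738818682999286185245394285474300135141018035919156992022670558442932107804608750713726173884401161274026694241130647282719303689416045303431244123409948111897479737872186501792387916270947355829239872016649637993343229074582502280193091213742251073769098512030619129288477719465394354649701344369118459768081658297613502202562971417185783609870009847494613999617110764033996360763403812776892026772251444023100376850013011468071235382202528359687116520432555130473352107946867361510912607441363238108453858070102291754483976267029649405428051520791360)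

noncomputable def t59 : Tre := Helper55.PC.toT t59n

theorem ok59 : chk K t59 r63 = true :=
  Helper55.PC.chkN_sound K t59n r63 (by decide +kernel)

noncomputable def t60 : Tre :=
  (.N [0,-1,2,1,1] (-1) ⟨0,[(0,0)]⟩ ⟨0,[(3,0)]⟩ (.x 0 ⟨3,[(10,1),(3,0),(8,5),(6,0),(11,1),(10,3),
  (21,1),(2,3)]⟩ ⟨272,[(0,111),(3,1),(4,15),(3,223),(18,41),(0,277),(15,134),(0,268),(3,11),(3,269),
  (13,11),(7,180),(1,87)]⟩))

theorem ok60 : chk K t60 l64 = true := by decide +kernel

noncomputable def t61 : Tre :=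
  (.N [0,-1,0,0,5] (-1) ⟨0,[(1,0)]⟩ ⟨0,[(0,0)]⟩ (.x 0 ⟨11,[(16,2),(15,2),(0,1),(36,7)]⟩ ⟨1,[(17,2),
  (26,0),(7,2),(0,0)]⟩))

theorem ok61 : chk K t61 l66 = true := by decide +kernel

noncomputable def t62 : Tre :=
  (.N [0,0,1,-2] 0 ⟨0,[(14,0)]⟩ ⟨0,[(23,0)]⟩ (.i 0 ⟨0,[(0,0)]⟩ ⟨0,[(26,0),(14,1)]⟩))

theorem ok62 : chk K t62 l67 = true := by decide +kernel

noncomputable def t63 : Tre :=
  (.N [0,0,1,-2] 0 ⟨0,[(15,0)]⟩ ⟨0,[(24,0)]⟩ (.i 1 ⟨1,[(19,0),(19,2),(22,1)]⟩ ⟨0,[(0,0)]⟩))

theorem ok63 : chk K t63 l68 = true := by decide +kernel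

open Helper55.PC in
noncomputable def t64n : Helper55.PC.Ten :=
  (r
  368996298433769844566235556489144056886720612516801497018625979910772150242000587868608232924460912999794904512555301637517983789448546664058512565634927015907250615359847271484011696170808815061849977514179917390787739376213381530265687293163623650381344364813669550850785671695777224902410429596176699401837521598248285207852615475346224864353771894538418115608943400639088561433221190293086530577336938793801431709108827398411318922359142602795741630723825486891611294243327640333397809123348320685387210359142093874191513323055026085599785911659404893118636844252636204329339054753373759626770833343692416392362157933282098317318403070889062929325028534395712)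

noncomputable def t64 : Tre := Helper55.PC.toT t64n

theorem ok64 : chk K t64 r68 = true :=
  Helper55.PC.chkN_sound K t64n r68 (by decide +kernel)

noncomputable def t65 : Tre :=
  (.N [0,0,1,-2] 0 ⟨0,[(13,0)]⟩ ⟨0,[(22,0)]⟩ (.i 1 ⟨1,[(17,0),(19,2),(22,1)]⟩ ⟨0,[(0,0)]⟩))

theorem ok65 : chk K t65 l69 = true := by decide +kernel

open Helper55.PC in
noncomputable def t66n : Helper55.PC.Ten :=
  (r
  20003329420050137911631287217333738821967947591554184992674886250009021559817472235078686422944628640022216771717234290289102752034493240725164105189502469971099145232832312945404444492795189699440095678881513584878811881049066243218897200677819046140842919967370376375708335861002574656869308861654816056896709875964746890656465051140778660057492109342110162379473284253042119801423982599771406815952975013100135006505030825559797956981131201689128795914335295842855073641776597839635755185797608394293164041121910417501333079066872634232064018749230905628107135824470539957310097872167150880365572090407125978214058951347764983222804683170624)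

noncomputable def t66 : Tre := Helper55.PC.toT t66n

theorem ok66 : chk K t66 r69 = true :=
  Helper55.PC.chkN_sound K t66n r69 (by decide +kernel)

noncomputable def t67 : Tre :=
  (.N [0,0,1,-2] 0 ⟨0,[(9,0)]⟩ ⟨0,[(18,0)]⟩ (.i 0 ⟨0,[(0,0)]⟩ ⟨0,[(21,0),(14,1)]⟩))

theorem ok67 : chk K t67 l70 = true := by decide +kernel

open Helper55.PC in
noncomputable def t68n : Helper55.PC.Ten :=
  (r
  2316227305249877472992509054060740253768232192743101612610601632132672043207800756698162865885667082049136681484386397212548375872154134525122602244533411601513128806884866915568530128863126909349994121926435445461201529667350305739812628915583333208471377851081283645353581479042070127066615965778674297839013900330650855336383333823095242666471079734685211731183688485698839200088184600694660384191131664685490854789065954417031095252810209519227026835208750828704733885064211604301030923913027711042399680887280071250946985493348318803024653976808985978639384352625781868326827514305510255322074310254617670932277421008200662446711713760251622312483884303530882451984415821591760887216089995104701124585696387446088512)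

noncomputable def t68 : Tre := Helper55.PC.toT t68n

theorem ok68 : chk K t68 r70 = true :=
  Helper55.PC.chkN_sound K t68n r70 (by decide +kernel)

noncomputable def t69 : Tre :=
  (.N [0,0,1,-2] 0 ⟨0,[(6,0)]⟩ ⟨0,[(15,0)]⟩ (.x (-1) ⟨4,[(18,3),(14,8),(10,1),(0,0),(0,3),(25,7),(0,
  0),(1,1)]⟩ ⟨0,[(0,0)]⟩))

theorem ok69 : chk K t69 l71 = true := by decide +kernel

noncomputable def t70 : Tre :=
  (.N [0,-3,0,0,7] (-2) ⟨0,[(0,0)]⟩ ⟨0,[(5,0)]⟩ (.x 1 ⟨89,[(10,18),(15,18),(16,27),(1,13),(18,99)]⟩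
  ⟨1,[(11,4),(26,2),(7,4),(0,0)]⟩))

theorem ok70 : chk K t70 l72 = true := by decide +kernel

noncomputable def t71 : Tre :=
  (.N [0,0,1,-2] 0 ⟨0,[(8,0)]⟩ ⟨0,[(17,0)]⟩ (.i 1 ⟨1,[(12,0),(19,2),(22,1)]⟩ ⟨0,[(0,0)]⟩))

theorem ok71 : chk K t71 l73 = true := by decide +kernel

noncomputable def t72 : Tre :=
  (.N [0,0,1,-2] 0 ⟨0,[(9,0)]⟩ ⟨0,[(18,0)]⟩ (.i 0 ⟨0,[(0,0)]⟩ ⟨0,[(21,0),(14,1)]⟩))

theorem ok72 : chk K t72 l74 = true := by decide +kernel

open Helper55.PC in
noncomputable def t73n : Helper55.PC.Ten :=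
  (r
  103863224507963603455277346115519379385551973601159300329842879388511191646296240233036033869128758949019510189072116672273853510171904525970883265533509652371409516699696139346223194089659626968268440120788644330163659704660393793779400298006196028077482540657027582805502818402161935653019396691681668335366638892933602109967150827759435392883072923576500094753843314928548910378376357472221327468781077102445439435516022783522796733841960692831539110985457170465556214267643145096521485405902500124414880478305101320507107909392638412132761434736771625467631697361678158794081031873941071773375973441948397749137871849140337928594797037288007490697795306662549057812272784192)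

noncomputable def t73 : Tre := Helper55.PC.toT t73n

theorem ok73 : chk K t73 r74 = true :=
  Helper55.PC.chkN_sound K t73n r74 (by decide +kernel)

noncomputable def t74 : Tre :=
  (.N [0,1,1,1,2] 0 ⟨0,[(2,0)]⟩ ⟨0,[(0,0)]⟩ (.x (-1) ⟨3,[(5,1),(3,0),(8,3),(6,0),(11,3),(32,3),(2,
  1)]⟩ ⟨3,[(27,0),(15,0),(0,1),(0,3),(4,0),(2,3),(2,0),(2,0),(12,0),(4,1),(1,0)]⟩))

theorem ok74 : chk K t74 l78 = true := by decide +kernel

noncomputable def t75 : Tre :=
  (.N [0,0,0,1,-2] 0 ⟨0,[(2,0)]⟩ ⟨0,[(0,0)]⟩ (.x 0 ⟨1,[(11,1),(26,0),(30,0)]⟩ ⟨179,[(10,30),(15,30),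
  (7,179),(10,55),(1,89),(8,67),(7,39),(8,111)]⟩))

theorem ok75 : chk K t75 l79 = true := by decide +kernel

noncomputable def t76 : Tre :=
  (.N [0,0,1,-2] 0 ⟨0,[(8,0)]⟩ ⟨0,[(17,0)]⟩ (.i 1 ⟨1,[(12,0),(19,2),(22,1)]⟩ ⟨0,[(0,0)]⟩))

theorem ok76 : chk K t76 l80 = true := by decide +kernel

open Helper55.PC in
noncomputable def t77n : Helper55.PC.Ten :=
  (r
  23140954776692738423750070714901961222942940622430551544302095620804353474091688942428341215993712832195047297129935908464894196610787753800821080107424119355634780624733312864660752620557303386085229494073291499806224556133623496758394509393397395548198537318679621489487619564757586435562203062511175189287302139960675006677410486292301398983059953931740274221758696171803835328392193925372637770308686874530263965164370218414372564840194117704852935215754908471416931708712754521574719028009584673721826985061481062337061796900403910636525671705435212253882323162992218386048444517427315569196481339287002617703810505396104729073987846682189988909695493159314866683137598303812915571427793887012499374687538876057623837649330508160057795012353837937257107704536896)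

noncomputable def t77 : Tre := Helper55.PC.toT t77n

theorem ok77 : chk K t77 r80 = true :=
  Helper55.PC.chkN_sound K t77n r80 (by decide +kernel)

noncomputable def t78 : Tre :=
  (.N [0,0,1,-2] 0 ⟨0,[(7,0)]⟩ ⟨0,[(16,0)]⟩ (.i 1 ⟨1,[(11,0),(19,2),(22,1)]⟩ ⟨0,[(0,0)]⟩))

theorem ok78 : chk K t78 l82 = true := by decide +kernel

open Helper55.PC in
noncomputable def t79n : Helper55.PC.Ten :=
  (r
  68005079912582161851691501558892901806018549958149883542654870317221159290960801613027449943681998707145728950667240405897313154922975876017886872481870698661391010541117225198188358173560588061670329409002684612030586439951316034084536160936349812534649625453244583588806214957518166441297464035739631779426195636898819226054048100536112321726156410266156786611910452893753200350443274934431772378222096099366684646518446852141878857043687884998479630894233856978119615239842759906729259912232413756982558235580111579577536821514755853962634905245545010894682492212424847730584973903060091750192871761149221632458572010451923873063630276054259227385391804582509122627109621988380669016769663147781839787221147546148979121348416)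

noncomputable def t79 : Tre := Helper55.PC.toT t79n

theorem ok79 : chk K t79 r82 = true :=
  Helper55.PC.chkN_sound K t79n r82 (by decide +kernel)

noncomputable def t80 : Tre :=
  (.N [0,0,1,-2] 0 ⟨0,[(8,0)]⟩ ⟨0,[(17,0)]⟩ (.i 1 ⟨1,[(12,0),(19,2),(22,1)]⟩ ⟨0,[(0,0)]⟩))

theorem ok80 : chk K t80 l84 = true := by decide +kernel

open Helper55.PC in
noncomputable def t81n : Helper55.PC.Ten :=
  (s
  40442531489548144904174795299951033516773467997732388869911620129115759190906116737238414529396906860766381241087691464709540132164874354482971058874310169129129817355564923360878541118253372195641715680129927113060180538111886899534585905057890248002658711177464714018264421681789584952637616338114445897769493447917233449050031470883488735518034057204652265917671923100580824500529347040866263719186747060576837938595773056888159896829402548766468762764164382417619253838915301280052136611497038170550268590146032246802689708663315863340293054697238743113773099504633973484497740696498569227193807836381323077906102565159192392100029137601)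

noncomputable def t81 : Tre := Helper55.PC.toT t81n

theorem ok81 : chk K t81 r84 = true :=
  Helper55.PC.chkN_sound K t81n r84 (by decide +kernel)

noncomputable def t82 : Tre :=
  (.N [0,1,2,1,-1] 0 ⟨0,[(0,0)]⟩ ⟨0,[(5,0)]⟩ (.x (-1) ⟨3,[(11,0),(0,3),(7,7),(6,0),(11,2),(10,7),
  (19,0),(9,1)]⟩ ⟨40,[(0,18),(9,18),(4,18),(5,18),(15,14),(7,3),(0,21),(0,40),(4,22),(2,81),(5,6),
  (3,6),(13,17)]⟩))

theorem ok82 : chk K t82 l85 = true := by decide +kernel

noncomputable def t83 : Tre :=
  (.N [0,0,1,-2] 0 ⟨0,[(9,0)]⟩ ⟨0,[(18,0)]⟩ (.i 1 ⟨1,[(13,0),(19,2),(22,1)]⟩ ⟨0,[(0,0)]⟩))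

theorem ok83 : chk K t83 l86 = true := by decide +kernel

open Helper55.PC in
noncomputable def t84n : Helper55.PC.Ten :=
  (r
  1254475039368338346079396511166795625956285080492921276334182991428651312865422254167744390281111687686595617482989680711454926684444700172284184055646403053205126354296182660880085396845754503754822118698148600869453518561545322818942990306167922235018273534096219521098277636181256043902526902917600608284127321366928091013306460382169418208199438158894990311577936916477440754509224937598049592065457664016684328397761742429610311962243395701658335463809537442221048145878668942633251503384192595909598292585940601875933395898157629821211170111642036244174105771955268066483991712420079357579728998738369906821015166365786558147016801083761151315610709446602368895634110704466142008253844910694175959271538821314454618062057915235490401584701248)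

noncomputable def t84 : Tre := Helper55.PC.toT t84n

theorem ok84 : chk K t84 r86 = true :=
  Helper55.PC.chkN_sound K t84n r86 (by decide +kernel)

noncomputable def t85 : Tre :=
  (.N [0,1,2,1,-1] 0 ⟨0,[(0,0)]⟩ ⟨0,[(2,0)]⟩ (.x (-1) ⟨3,[(8,0),(0,3),(7,7),(6,0),(11,2),(10,7),(19,
  0),(9,1)]⟩ ⟨40,[(0,18),(6,18),(4,18),(5,18),(15,14),(7,3),(0,21),(0,40),(4,22),(2,81),(5,6),(3,6),
  (13,17)]⟩))

theorem ok85 : chk K t85 l87 = true := by decide +kernel

noncomputable def t86 : Tre :=
  (.N [0,1,0,0,6] 0 ⟨0,[(1,0)]⟩ ⟨0,[(0,0)]⟩ (.x (-1) ⟨35,[(10,8),(15,8),(0,37),(36,19)]⟩ ⟨3,[(11,4),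
  (16,1),(9,0),(4,1),(2,4),(0,0)]⟩))

theorem ok86 : chk K t86 l89 = true := by decide +kernel

noncomputable def t87 : Tre :=
  (.N [0,-1,2,0,2] (-1) ⟨0,[(1,0)]⟩ ⟨0,[(0,0)]⟩ (.x 0 ⟨3,[(12,0),(8,1),(6,0),(0,1),(10,1),(32,1),(2,
  5)]⟩ ⟨32,[(5,2),(2,10),(2,38),(18,13),(0,54),(8,1),(6,0),(0,21),(5,5),(7,2),(1,14),(13,21)]⟩))

theorem ok87 : chk K t87 l91 = true := by decide +kernel

noncomputable def t88 : Tre :=
  (.N [0,0,1,-2] 0 ⟨0,[(10,0)]⟩ ⟨0,[(19,0)]⟩ (.x (-1) ⟨4,[(22,3),(14,8),(10,1),(0,0),(0,3),(25,7),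
  (0,0),(1,1)]⟩ ⟨0,[(0,0)]⟩))

theorem ok88 : chk K t88 l92 = true := by decide +kernel

noncomputable def t89 : Tre :=
  (.N [0,0,1,-2] 0 ⟨0,[(11,0)]⟩ ⟨0,[(20,0)]⟩ (.i 1 ⟨1,[(15,0),(19,2),(22,1)]⟩ ⟨0,[(0,0)]⟩))

theorem ok89 : chk K t89 l93 = true := by decide +kernel

noncomputable def t90 : Tre :=
  (.N [0,0,1,-2] 0 ⟨0,[(12,0)]⟩ ⟨0,[(21,0)]⟩ (.i 0 ⟨0,[(0,0)]⟩ ⟨0,[(24,0),(14,1)]⟩))

theorem ok90 : chk K t90 l94 = true := by decide +kernel

open Helper55.PC in
noncomputable def t91n : Helper55.PC.Ten :=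
  (r
  241603894251432113990884405851054100722294116467838969673808232516174459583724533793361970739142531881201041354243463234396477155927073738725985160194402282413753203563717691900234722458654042468327040123483096273754038941330340272621175401131346961368460354227959176952188119641678780021651458746321571031700814058661427765902939051265577025396801008881153850138597455921017350318205359447387017894755643674891581180319872293858037487957207220327310548526415552597591177184248557398235083147031738396170664829443446591582644895063402782792506495747470485989492206870298829166685636567122620858295939728958900667580828594256930871300855417367649376905542501696127158542500318558203828538373414516513266590455979840)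

noncomputable def t91 : Tre := Helper55.PC.toT t91n

theorem ok91 : chk K t91 r94 = true :=
  Helper55.PC.chkN_sound K t91n r94 (by decide +kernel)

noncomputable def t92 : Tre :=
  (.N [0,0,1,-2] 0 ⟨0,[(9,0)]⟩ ⟨0,[(18,0)]⟩ (.i 1 ⟨1,[(13,0),(19,2),(22,1)]⟩ ⟨0,[(0,0)]⟩))

theorem ok92 : chk K t92 l95 = true := by decide +kernel

open Helper55.PC in
noncomputable def t93n : Helper55.PC.Ten :=
  (r
  13097330527012549060791080972928265944586294787631121483610624728734333784132315097247278021440351987033487120103460722880060627427283217375235109387100308524730252313310544507064888008183226787331755212089421509428103379357632473189954457877469963724879568661335974536608636429362309267408587441781327767109858307821971334610215147032099059075126238543311252632380873426808896724427377872096504032005268699474092123623817554576439015120628416257374484075042725842484304459355369128530335909045488043786275944830298604743394682187483693217659299853284261623942564505080312659752318525253272832001389898837321590471275695126345108635396033205135189979212162891978385554240273447085617403870338880)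

noncomputable def t93 : Tre := Helper55.PC.toT t93n

theorem ok93 : chk K t93 r95 = true :=
  Helper55.PC.chkN_sound K t93n r95 (by decide +kernel)

noncomputable def t94 : Tre :=
  (.N [0,-1,0,0,7] (-1) ⟨0,[(1,0)]⟩ ⟨0,[(0,0)]⟩ (.x 0 ⟨35,[(11,8),(15,8),(0,13),(36,31)]⟩ ⟨2,[(12,
  5),(16,0),(9,2),(4,0),(2,5),(0,0)]⟩))

theorem ok94 : chk K t94 l97 = true := by decide +kernel

noncomputable def t95 : Tre :=
  (.N [0,0,1,-2] 0 ⟨0,[(9,0)]⟩ ⟨0,[(18,0)]⟩ (.x (-1) ⟨4,[(21,3),(14,8),(10,1),(0,0),(0,3),(25,7),(0,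
  0),(1,1)]⟩ ⟨0,[(0,0)]⟩))

theorem ok95 : chk K t95 l98 = true := by decide +kernel

noncomputable def t96 : Tre :=
  (.N [0,-4,0,0,3] (-2) ⟨0,[(1,0)]⟩ ⟨0,[(0,0)]⟩ (.x 1 ⟨44,[(14,16),(15,16),(16,43),(1,21),(18,34)]⟩
  ⟨1,[(15,2),(26,3),(7,2),(12,0)]⟩))

theorem ok96 : chk K t96 l100 = true := by decide +kernel

noncomputable def t97 : Tre :=
  (.N [0,0,1,-2] 0 ⟨0,[(12,0)]⟩ ⟨0,[(21,0)]⟩ (.i 1 ⟨1,[(16,0),(19,2),(22,1)]⟩ ⟨0,[(0,0)]⟩))

theorem ok97 : chk K t97 l101 = true := by decide +kernel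

open Helper55.PC in
noncomputable def t98n : Helper55.PC.Ten :=
  (r
  2607840107207179504503675974883065816416691660697718033245186672986357075224968819916697225999130358338184898493131620717908120067908456813693646128478167854337175983924110229126445251762376001907819901813113043003029389530541670697410571441888234464720319540539098514539965124665919191543111686436124512567514057763280369906892576828496397562091789150190575138405347722839083711585455793995133740873190298899176313417754992619245489742224314863065585526379705743651269374557186637566618542028433002803471282336449119232169176416333718967620114643078222431289181872605461492201746604309040382109312003307720518848389311661822475658913501564781045640237093507321140454591502554415951433172752855000684279295238904597817444648062497858368)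

noncomputable def t98 : Tre := Helper55.PC.toT t98n

theorem ok98 : chk K t98 r101 = true :=
  Helper55.PC.chkN_sound K t98n r101 (by decide +kernel)

noncomputable def t99 : Tre :=
  (.N [0,0,1,-2] 0 ⟨0,[(11,0)]⟩ ⟨0,[(20,0)]⟩ (.i 1 ⟨1,[(15,0),(19,2),(22,1)]⟩ ⟨0,[(0,0)]⟩))

theorem ok99 : chk K t99 l102 = true := by decide +kernel

open Helper55.PC in
noncomputable def t100n : Helper55.PC.Ten :=
  (r
  20003329420050135690822119916534582458983789611641256772640159091667513049053021034972281217063762536692653698188420716481047048259218289878024235609421568602965240247938215266012898328054413856473891496852999309026394731391766067289841640315888394459002023121944769501614560657039182734109213422297725547150657112540837934217469747248832484351726840026420407805522390197204834396984401031487990086974871120475611143640744735516060185386311936201265716898247155589343739111434203277766043273066144186737199773845870546130379133838534014861457563044199108740968646613221386861735552595809500950371068417686192160510269961322126304381011704947520)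

noncomputable def t100 : Tre := Helper55.PC.toT t100n

theorem ok100 : chk K t100 r102 = true :=
  Helper55.PC.chkN_sound K t100n r102 (by decide +kernel)

noncomputable def t101 : Tre :=
  (.N [0,0,1,-2] 0 ⟨0,[(8,0)]⟩ ⟨0,[(17,0)]⟩ (.x (-1) ⟨4,[(20,3),(14,8),(10,1),(0,0),(0,3),(25,7),(0,
  0),(1,1)]⟩ ⟨0,[(0,0)]⟩))

theorem ok101 : chk K t101 l103 = true := by decide +kernel

noncomputable def t102 : Tre :=
  (.N [0,-4,0,0,3] (-2) ⟨0,[(1,0)]⟩ ⟨0,[(0,0)]⟩ (.x 1 ⟨44,[(13,16),(15,16),(16,43),(1,21),(18,34)]⟩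
  ⟨1,[(14,2),(26,3),(7,2),(12,0)]⟩))

theorem ok102 : chk K t102 l105 = true := by decide +kernel

noncomputable def t103 : Tre :=
  (.N [0,0,1,-2] 0 ⟨0,[(11,0)]⟩ ⟨0,[(20,0)]⟩ (.i 1 ⟨1,[(15,0),(19,2),(22,1)]⟩ ⟨0,[(0,0)]⟩))

theorem ok103 : chk K t103 l106 = true := by decide +kernel

open Helper55.PC in
noncomputable def t104n : Helper55.PC.Ten :=
  (r
  29234898699472694013092383656460996015702775233058863716651582939269146573578435046906526943422575369301121861358653338618555115593465107529707199127635849468525454238487058863668766267129744458529511195452658595454887010342041598251690804366413379126943638045400992493595529294856009131835811862135444619721560781791435023367379727394015470265131426839053068141920647192919368395539574315605415072662500029637074350124845172441108722572634378780072549618065096250934575879464231278781299928951773280652292263543970700422978505265701154205080874485598253987459634957375676876654700206041437712812857303857378700568387489531610907360033519774211946967697928859852510009578320546193946863477568)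

noncomputable def t104 : Tre := Helper55.PC.toT t104n

theorem ok104 : chk K t104 r106 = true :=
  Helper55.PC.chkN_sound K t104n r106 (by decide +kernel)

noncomputable def t105 : Tre :=
  (.N [0,3,0,0,4] 1 ⟨0,[(1,0)]⟩ ⟨0,[(0,0)]⟩ (.x (-2) ⟨35,[(14,8),(15,8),(0,57),(36,3)]⟩ ⟨19,[(14,0),
  (15,0),(1,9),(14,21),(1,5),(13,9)]⟩))

theorem ok105 : chk K t105 l108 = true := by decide +kernel

noncomputable def t106 : Tre :=
  (.N [0,0,1,-2] 0 ⟨0,[(12,0)]⟩ ⟨0,[(21,0)]⟩ (.i 1 ⟨1,[(16,0),(19,2),(22,1)]⟩ ⟨0,[(0,0)]⟩))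

theorem ok106 : chk K t106 l109 = true := by decide +kernel

open Helper55.PC in
noncomputable def t107n : Helper55.PC.Ten :=
  (r
  1310938196872405765405151038641390364572150530953994145888740424431721098441119989117037355972947518827129753412885025492136842634983602677159455360547233471793564407694153077724018173028507452749063103325184271501998211872095126832053210395400633777935192675054700642910193127616408218359158190640453965468798223940173941460808623825054679152334451554743840736623477873392138802549420187498486647490678244177836633188725607703849822257141176667089138830105637136511048884256498770113858334467350174932162858399294866693218501877340590766768175925258800721238412998123029344889207121358477049886379763582274415139923995008470163105279115012216202048)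

noncomputable def t107 : Tre := Helper55.PC.toT t107n

theorem ok107 : chk K t107 r109 = true :=
  Helper55.PC.chkN_sound K t107n r109 (by decide +kernel)

noncomputable def t108 : Tre :=
  (.N [0,-3,0,0,8] (-2) ⟨0,[(1,0)]⟩ ⟨0,[(0,0)]⟩ (.x 1 ⟨8,[(15,1),(15,1),(16,1),(1,0),(18,10)]⟩ ⟨11,
  [(16,32),(16,1),(9,20),(4,1),(2,32),(0,4)]⟩))

theorem ok108 : chk K t108 l111 = true := by decide +kernel

noncomputable def t109 : Tre :=
  (.N [0,0,1,-2] 0 ⟨0,[(13,0)]⟩ ⟨0,[(22,0)]⟩ (.i 1 ⟨1,[(17,0),(19,2),(22,1)]⟩ ⟨0,[(0,0)]⟩))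

theorem ok109 : chk K t109 l112 = true := by decide +kernel

open Helper55.PC in
noncomputable def t110n : Helper55.PC.Ten :=
  (r
  20003329420050137911630197736799476787058224481120356934364277931947768521265852295838451782131402734079202315630418507202622221929954419648293930183354278006182449447179688030868136780911138495069826372593754951463942970064549192238725502366236100094429810805885722640989209402164082155520551688669024058459333684861008942755956766230700581296622655110490559298456232562286223005759409688952952939123056255818213840667016227303445164112054279026380414440514407430069677624009633586389586269689888741366291309878104053956744884832790594128630501062046979940438062777535575787009397728265541756487029162292091496214695026439374097392579318653760)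

noncomputable def t110 : Tre := Helper55.PC.toT t110n

theorem ok110 : chk K t110 r112 = true :=
  Helper55.PC.chkN_sound K t110n r112 (by decide +kernel)

noncomputable def t111 : Tre :=
  (.N [0,1,0,0,5] 0 ⟨0,[(1,0)]⟩ ⟨0,[(0,0)]⟩ (.x (-1) ⟨35,[(16,8),(15,8),(0,33),(36,15)]⟩ ⟨2,[(17,2),
  (16,0),(14,0),(2,2),(0,0)]⟩))

theorem ok111 : chk K t111 l114 = true := by decide +kernel

noncomputable def t112 : Tre :=
  (.N [0,0,1,-2] 0 ⟨0,[(14,0)]⟩ ⟨0,[(23,0)]⟩ (.i 1 ⟨1,[(18,0),(19,2),(22,1)]⟩ ⟨0,[(0,0)]⟩))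

theorem ok112 : chk K t112 l115 = true := by decide +kernel

open Helper55.PC in
noncomputable def t113n : Helper55.PC.Ten :=
  (r
  1310938196872405910948007539127699726462388980282877978822649968125646701181524388315686395360390923990848481821002697339470148200923307663926296611636231771251884549208845560948823603670061942032253321616346990067334619231034314630368632911180979799394087550038609810551749381071217916526701150535292220592884372169124879171240365868158055595450072792072864716170534834850255376451557427326395358165913576329556692402741658102615962236436505942443919432363177136537062655649611514932093065815239194414255847474714618220352284408807433247301426781804375312202251082161107220522281671446000778445267506682834647466466994009149742295179040974872781632)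

noncomputable def t113 : Tre := Helper55.PC.toT t113n

theorem ok113 : chk K t113 r115 = true :=
  Helper55.PC.chkN_sound K t113n r115 (by decide +kernel)

noncomputable def t114 : Tre :=
  (.N [0,0,1,-2] 0 ⟨0,[(13,0)]⟩ ⟨0,[(22,0)]⟩ (.i 1 ⟨1,[(17,0),(19,2),(22,1)]⟩ ⟨0,[(0,0)]⟩))

theorem ok114 : chk K t114 l116 = true := by decide +kernel

open Helper55.PC in
noncomputable def t115n : Helper55.PC.Ten :=
  (r
  1310938196872405838176553297779862314890042445288526792282943012481060842755897495374040068713436996706051023437739411040610632093435291634494514088592837348976609250968537603302668489747607099038781942096137198727484797975533169712074452462069334748720516846185515010288426496656119436791580390959357395508119710674069668421962143366482697939719340088856778945927764820362830463354811637910338289124868481703070970845716439182876636497406345738308600496898779630488494662658639662448363736449799674746657771859399935307119653163370730014197967206802762711818611850058259623174688951554140136374334999209097948122435198892330671878350389126734553920)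

noncomputable def t115 : Tre := Helper55.PC.toT t115n

theorem ok115 : chk K t115 r116 = true :=
  Helper55.PC.chkN_sound K t115n r116 (by decide +kernel)

noncomputable def t116 : Tre :=
  (.N [0,0,1,-2] 0 ⟨0,[(4,0)]⟩ ⟨0,[(13,0)]⟩ (.x (-1) ⟨4,[(16,3),(14,8),(10,1),(0,0),(0,3),(25,7),(0,
  0),(1,1)]⟩ ⟨0,[(0,0)]⟩))

theorem ok116 : chk K t116 l117 = true := by decide +kernel

noncomputable def t117 : Tre :=
  (.N [0,-1,2,2] (-1) ⟨0,[(2,0)]⟩ ⟨0,[(0,0)]⟩ (.x 0 ⟨3,[(7,3),(3,0),(8,9),(6,0),(22,9),(24,1)]⟩ ⟨13,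
  [(2,11),(1,8),(3,6),(1,28),(8,30),(1,1),(11,1),(3,1),(8,1),(0,9),(7,5),(23,11)]⟩))

theorem ok117 : chk K t117 l121 = true := by decide +kernel

noncomputable def t118 : Tre :=
  (.N [0,1,2,1] 0 ⟨0,[(0,0)]⟩ ⟨0,[(2,0)]⟩ (.x (-1) ⟨3,[(8,0),(3,0),(0,1),(7,8),(6,0),(11,1),(10,8),
  (29,1)]⟩ ⟨25,[(0,11),(2,6),(1,12),(3,12),(1,50),(13,4),(5,50),(15,6),(8,13),(9,6)]⟩))

theorem ok118 : chk K t118 l122 = true := by decide +kernel

noncomputable def t119 : Tre :=
  (.N [0,-2,0,2,-1] (-1) ⟨0,[(0,0)]⟩ ⟨0,[(5,0)]⟩ (.x 1 ⟨1,[(9,1),(12,0),(23,0),(30,0)]⟩ ⟨143,[(6,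
  107),(6,18),(7,107),(7,18),(5,43),(12,31),(0,71),(0,89),(8,115)]⟩))

theorem ok119 : chk K t119 l123 = true := by decide +kernel

noncomputable def t120 : Tre :=
  (.N [0,0,1,-2] 0 ⟨0,[(12,0)]⟩ ⟨0,[(21,0)]⟩ (.i 1 ⟨1,[(16,0),(19,2),(22,1)]⟩ ⟨0,[(0,0)]⟩))

theorem ok120 : chk K t120 l125 = true := by decide +kernel

open Helper55.PC in
noncomputable def t121n : Helper55.PC.Ten :=
  (r
  13097373351418038701600324446523427273234868336929884834075065619329767988634174272249333559126517924879680354172543611924112946938638602304042447560040969119643299942336372401128577921343143979223223661039393394770722101779528094622984496481106544153437933464554485368773211919707217139667305496458655602149265175770764770905056730562435736289270405627979341932755888440016883347131458892220255881758609826460276787938289516777775026915766834565869889156698762658953880425980343069851568842544833168728488043698928690636239773663848424283664832133451420431547676343974641491145982693948084060133069660629176665189198840473635064568621281542922328148797235283964085986233093256971686823629971264)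

noncomputable def t121 : Tre := Helper55.PC.toT t121n

theorem ok121 : chk K t121 r125 = true :=
  Helper55.PC.chkN_sound K t121n r125 (by decide +kernel)

noncomputable def t122 : Tre :=
  (.N [0,0,1,-2] 0 ⟨0,[(12,0)]⟩ ⟨0,[(21,0)]⟩ (.i 0 ⟨0,[(0,0)]⟩ ⟨0,[(24,0),(14,1)]⟩))

theorem ok122 : chk K t122 l126 = true := by decide +kernel

open Helper55.PC in
noncomputable def t123n : Helper55.PC.Ten :=
  (r
  3576789786868327039737974324109160161580230988863925069851987486767324988639070307205760608226281600515247632503855242239432269826490528393688011665209186260285438757213443150570271008029583617840649541044354803989772953393952967365057213580282277662555110685274526753782675292420011588779479184840337938483029991561303684960373748936276765527072316655196155871622275723019144327743688738897778729365318452732232332763071394391103385795097837383133217153926572714021171989668522834728388122030912425292368915887844496990439622873654596373667320556920278269403061509521159495354261804403074044264712231747829233682804821772191389430207212593046680660604837985862466605376068648611725611865762828659528548995778803161573714305658063250945867800270559300138171996320815640393456791321105791423866424520348730194538522233299990152681844457353402131201)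

noncomputable def t123 : Tre := Helper55.PC.toT t123n

theorem ok123 : chk K t123 l128 = true :=
  Helper55.PC.chkN_sound K t123n l128 (by decide +kernel)

noncomputable def t124 : Tre :=
  (.N [0,0,1,-2] 0 ⟨0,[(15,0)]⟩ ⟨0,[(24,0)]⟩ (.i 1 ⟨1,[(19,0),(19,2),(22,1)]⟩ ⟨0,[(0,0)]⟩))

theorem ok124 : chk K t124 l129 = true := by decide +kernel

open Helper55.PC in
noncomputable def t125n : Helper55.PC.Ten :=
  (r
  1584827034118097504403000752790441665951644886038559180378239056578149052430775119077189007346929295957876988516411851258425475041289530556983359858186958329231375032223406736709236690023239455054453408089136703858585329071193975313437564759291630582011869700994794805927843206201347092934673544476768090761669855092489183759105032740785526794567119211646701550918109437969578889454938037758735636724431820203895704576918822689986221532824404448266424921539872932313490697137612757986397998475653872665001348752842254450811537777476717271047865376740424896878235857253971692983019998748278771491421645887753865605843627109475322100537624785800899667390800484331687271211840)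

noncomputable def t125 : Tre := Helper55.PC.toT t125n

theorem ok125 : chk K t125 r129 = true :=
  Helper55.PC.chkN_sound K t125n r129 (by decide +kernel)

noncomputable def t126 : Tre :=
  (.N [0,0,1,-2] 0 ⟨0,[(14,0)]⟩ ⟨0,[(23,0)]⟩ (.i 1 ⟨1,[(18,0),(19,2),(22,1)]⟩ ⟨0,[(0,0)]⟩))

theorem ok126 : chk K t126 l130 = true := by decide +kernel

open Helper55.PC in
noncomputable def t127n : Helper55.PC.Ten :=
  (r
  13097401901021698462139820095586868159000584036462393734384692879726724124968747055584037250917295216777142510218598871286814493279542192256580673008612443328787320843167231906780546025203150967658119983735599882103088058744746353477757495918126862034887957548084112283489459032219918717864732857322738401039659361063268393180127630381121745663886854732400249296195024875673870544793946649078409773573689521727269835289554008584660865311436825147989078188656820725484854787955158206144842261877444566532641887130305047448028474015852837401232035619750402288455842068700704605893774451253580274341102749476609234213188176254943782526542930752316389080155473050200313976356621272403996489382387520)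

noncomputable def t127 : Tre := Helper55.PC.toT t127n

theorem ok127 : chk K t127 r130 = true :=
  Helper55.PC.chkN_sound K t127n r130 (by decide +kernel)

noncomputable def t128 : Tre :=
  (.N [0,3,2] 1 ⟨0,[(0,0)]⟩ ⟨0,[(1,0)]⟩ (.x (-2) ⟨3,[(12,0),(8,7),(6,0),(11,5),(10,7),(9,5)]⟩ ⟨12,
  [(0,7),(10,15),(13,23),(5,15),(15,4),(8,9),(9,4)]⟩))

theorem ok128 : chk K t128 l132 = true := by decide +kernel

noncomputable def t129 : Tre :=
  (.N [0,-2,0,2,-1] (-1) ⟨0,[(0,0)]⟩ ⟨0,[(5,0)]⟩ (.x 1 ⟨1,[(9,1),(12,0),(23,0),(30,0)]⟩ ⟨143,[(6,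
  107),(6,18),(7,107),(7,18),(5,43),(12,31),(0,71),(0,89),(8,115)]⟩))

theorem ok129 : chk K t129 l133 = true := by decide +kernel

noncomputable def t130 : Tre :=
  (.N [0,0,1,-2] 0 ⟨0,[(11,0)]⟩ ⟨0,[(20,0)]⟩ (.i 1 ⟨1,[(15,0),(19,2),(22,1)]⟩ ⟨0,[(0,0)]⟩))

theorem ok130 : chk K t130 l134 = true := by decide +kernel

noncomputable def t131 : Tre :=
  (.N [0,0,1,-2] 0 ⟨0,[(12,0)]⟩ ⟨0,[(21,0)]⟩ (.i 0 ⟨0,[(0,0)]⟩ ⟨0,[(24,0),(14,1)]⟩))

theorem ok131 : chk K t131 l135 = true := by decide +kernel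

open Helper55.PC in
noncomputable def t132n : Helper55.PC.Ten :=
  (r
  710010032073059483810982086677167893025065865135919166333057854161121910741036922939589104632723279898216131360101622872462809307456913513608790105865725183443618569729243187240558098311915475486586640853601760254654273117003556088822037600106070293372802903001541353479171813216175256495365732995503053400214063913797031285952544470357044879538228724588342173499820242334439293247912404844714728338717874452291326670379981583145756146641030722481472300139092442047162122604155930869182747574594281322282573587512566078677203089934014284503502124508871245823872866337979240709301226088055733229662151751966420788517595763576443860366870482360811407529056644043673328190512960)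

noncomputable def t132 : Tre := Helper55.PC.toT t132n

theorem ok132 : chk K t132 r135 = true :=
  Helper55.PC.chkN_sound K t132n r135 (by decide +kernel)

noncomputable def t133 : Tre :=
  (.N [0,1,2,0,2] 0 ⟨0,[(1,0)]⟩ ⟨0,[(0,0)]⟩ (.x (-1) ⟨3,[(13,0),(8,5),(6,0),(11,3),(10,1),(21,3),(2,
  1)]⟩ ⟨3,[(3,1),(6,0),(1,4),(13,1),(4,0),(0,5),(15,0),(8,1)]⟩))

theorem ok133 : chk K t133 l137 = true := by decide +kernel

noncomputable def t134 : Tre :=
  (.N [0,0,0,1,-2] 0 ⟨0,[(1,0)]⟩ ⟨0,[(0,0)]⟩ (.x 0 ⟨1,[(16,1),(26,0),(30,0)]⟩ ⟨647,[(8,323),(6,214),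
  (7,323),(7,214),(5,99),(12,111),(1,161),(8,99),(7,143)]⟩))

theorem ok134 : chk K t134 l139 = true := by decide +kernel

noncomputable def t135 : Tre :=
  (.N [0,3,0,0,7] 1 ⟨0,[(0,0)]⟩ ⟨0,[(1,0)]⟩ (.x (-2) ⟨35,[(17,8),(15,8),(0,69),(36,15)]⟩ ⟨0,[(18,0),
  (16,0),(14,0),(2,0)]⟩))

theorem ok135 : chk K t135 l141 = true := by decide +kernel

noncomputable def t136 : Tre :=
  (.N [0,-2,0,2,-1] (-1) ⟨0,[(0,0)]⟩ ⟨0,[(10,0)]⟩ (.x 1 ⟨1,[(14,1),(12,0),(23,0),(30,0)]⟩ ⟨143,[(11,
  107),(6,18),(7,107),(7,18),(5,43),(12,31),(0,71),(0,89),(8,115)]⟩))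

theorem ok136 : chk K t136 l142 = true := by decide +kernel

noncomputable def t137 : Tre :=
  (.N [0,1,2,2] 0 ⟨0,[(1,0)]⟩ ⟨0,[(0,0)]⟩ (.x (-1) ⟨3,[(16,2),(3,0),(0,1),(7,10),(6,0),(11,1),(10,
  10),(29,1)]⟩ ⟨23,[(1,19),(1,1),(9,16),(3,12),(1,52),(4,13),(3,32),(10,5),(15,5),(0,13),(4,13),(2,
  25),(9,1)]⟩))

theorem ok137 : chk K t137 l144 = true := by decide +kernel

noncomputable def t138 : Tre :=
  (.N [0,0,1,-2] 0 ⟨0,[(18,0)]⟩ ⟨0,[(27,0)]⟩ (.i 1 ⟨1,[(22,0),(19,2),(22,1)]⟩ ⟨0,[(0,0)]⟩))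

theorem ok138 : chk K t138 l145 = true := by decide +kernel

noncomputable def t139 : Tre :=
  (.N [0,0,1,-2] 0 ⟨0,[(19,0)]⟩ ⟨0,[(28,0)]⟩ (.i 0 ⟨0,[(0,0)]⟩ ⟨0,[(31,0),(14,1)]⟩))

theorem ok139 : chk K t139 l146 = true := by decide +kernel

open Helper55.PC in
noncomputable def t140n : Helper55.PC.Ten :=
  (r
  85913645670230017625629786993067103981363558570893593384262965471795061089313068030616755703208277025707521769908671590710967061644327722195323653562414708815957421266804247226976665138652681764902591951333598470638467333452819678039605572398377337583949820697764532669137737885292618778280779672627943400504494127347112796841952782752038368723635649613171973263549538792157293477495402733486632064131656464678826477623160426826161679012718438554450621036853577491868253230950976188619079351915266302041622571776019420451507243135951580932274057131962714646921843716110438485703852345236780261740505891153791981441178388231744064908625604069688554562368)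

noncomputable def t140 : Tre := Helper55.PC.toT t140n

theorem ok140 : chk K t140 r146 = true :=
  Helper55.PC.chkN_sound K t140n r146 (by decide +kernel)

noncomputable def t141 : Tre :=
  (.N [0,0,1,-2] 0 ⟨0,[(18,0)]⟩ ⟨0,[(27,0)]⟩ (.i 1 ⟨1,[(22,0),(19,2),(22,1)]⟩ ⟨0,[(0,0)]⟩))

theorem ok141 : chk K t141 l148 = true := by decide +kernel

open Helper55.PC in
noncomputable def t142n : Helper55.PC.Ten :=
  (r
  305226584168245597284686230868301915147868275337923418073539282472085115273721904617252492697844777836915780153949362250004940160188728652144578127198319495266676395051508086499623766711105827137550480455952553582723834863913619682013702742678066294552245677463913897503367451589287076191481371140521002722001518061605829165337656096271633591973358524427400079635345547173528231466776979049307054419817386947903691233265522286964190576008827864791417445396381226561058594115682272240580009472971827118920918441663917205807535944490732097570890429784636208170632456473119498826613527945234817109730345611919639992973644516441177738522665792)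

noncomputable def t142 : Tre := Helper55.PC.toT t142n

theorem ok142 : chk K t142 r148 = true :=
  Helper55.PC.chkN_sound K t142n r148 (by decide +kernel)

noncomputable def t143 : Tre :=
  (.N [0,0,1,-2] 0 ⟨0,[(18,0)]⟩ ⟨0,[(27,0)]⟩ (.i 1 ⟨1,[(22,0),(19,2),(22,1)]⟩ ⟨0,[(0,0)]⟩))

theorem ok143 : chk K t143 l149 = true := by decide +kernel

noncomputable def t144 : Tre :=
  (.N [0,0,1,-2] 0 ⟨0,[(19,0)]⟩ ⟨0,[(28,0)]⟩ (.i 0 ⟨0,[(0,0)]⟩ ⟨0,[(31,0),(14,1)]⟩))

theorem ok144 : chk K t144 l150 = true := by decide +kernel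

open Helper55.PC in
noncomputable def t145n : Helper55.PC.Ten :=
  (r
  5387987990863990506961819727030217581211376865705998033956645429406088422960082590124886564810040867229301057502134594353149581555461164164966143721175303661745258895751559136139999401975186324541317687497222305742332792280477957553244934752293862139908206506042550480197207992210879637383811480912403119296727718017367276310695148786108315344491238627022251947047162983786751369701629290388272008684604688178103127093487578240115253076119046989322594024012500661587646939564204387493414748591787766648150504835893320220237038558915529294630742574627128004148212269918061568544054394043169298897620340758887093237763321357036140450535471345977249987888941136459813416289525217623142390227160946296618748827921529874492541362439680538091249652418459633737536)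

noncomputable def t145 : Tre := Helper55.PC.toT t145n

theorem ok145 : chk K t145 r150 = true :=
  Helper55.PC.chkN_sound K t145n r150 (by decide +kernel)

noncomputable def t146 : Tre :=
  (.N [0,0,1,-2] 0 ⟨0,[(14,0)]⟩ ⟨0,[(23,0)]⟩ (.i 1 ⟨1,[(18,0),(19,2),(22,1)]⟩ ⟨0,[(0,0)]⟩))

theorem ok146 : chk K t146 l151 = true := by decide +kernel

open Helper55.PC in
noncomputable def t147n : Helper55.PC.Ten :=
  (r
  19141874323124092784872298910251416101161058581530488903505001224445397465104525926563981515841231830115024645489372770904931722170005778884373582442688466317725895710272086270267004197912350949714836196718637908167468867105578002654263566055211261800139785775314096395112740439781896253681304129602835033267741239256249987570613144036410402303133941530700017661878078784657232960699526022116067551367813217728592915624672805556240261179558235351517056750080698138484121940545519401015933784776212816301274491460008209778210873342069102277257538252883668122139888124535790456676930380714388428449664427572771238249290777181847216091833818889699718445363191948308533596428093887490312261487146409766281778729623417499767224792743825060869201728)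

noncomputable def t147 : Tre := Helper55.PC.toT t147n

theorem ok147 : chk K t147 r151 = true :=
  Helper55.PC.chkN_sound K t147n r151 (by decide +kernel)

noncomputable def t148 : Tre :=
  (.N [0,1,2,1,1] 0 ⟨0,[(1,0)]⟩ ⟨0,[(0,0)]⟩ (.x (-1) ⟨3,[(12,1),(3,0),(8,9),(6,0),(11,1),(10,7),(21,
  1)]⟩ ⟨25,[(6,15),(0,4),(1,12),(3,12),(1,54),(13,10),(5,54),(15,4),(8,9),(9,4)]⟩))

theorem ok148 : chk K t148 l153 = true := by decide +kernel

noncomputable def t149 : Tre :=
  (.N [0,0,1,-2] 0 ⟨0,[(14,0)]⟩ ⟨0,[(23,0)]⟩ (.i 1 ⟨1,[(18,0),(19,2),(22,1)]⟩ ⟨0,[(0,0)]⟩))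

theorem ok149 : chk K t149 l154 = true := by decide +kernel

open Helper55.PC in
noncomputable def t150n : Helper55.PC.Ten :=
  (q
  184184545860531782744913703485980848875017210666544330939920881403612377385837595466997743520305849511169571617145526109073722236742776836241883151
  (k
  32277523341422252788672094510661065454822933966185318201725471361777722656595115754970676957819881339309727376566548286927595952472201533436566197053384214833097568422314766660814214595412138470691141014302775064433965628766763255644391241806204868020761615309833192)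
  (r
  4456819776857816551126453942633976060731883501816030132542725929529695732797731409045567011276923479561176738051313762964334241339132204328355475815667869587963724017016875521552250861294699702220703089210258520951155637711946281008023647698068159505796365173536548530490566085875143482302202750173379360614627066335364160075340561651021555254038749708855665768060513432081409993865845787778692520342329259581956755485491099726276959252217068569321240524486157153236922370210475173334814537633750947113337033932077684702892109406349111815044966619508584900254673255856507275116872025329325102470836769894999308429296134493830873942312480143281657499873578900969975604523819407980833657960561245642596064744055948685968535668251713344))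

noncomputable def t150 : Tre := Helper55.PC.toT t150n

theorem ok150 : chk K t150 r154 = true :=
  Helper55.PC.chkN_sound K t150n r154 (by decide +kernel)

noncomputable def t151 : Tre :=
  (.N [0,0,1,-2] 0 ⟨0,[(13,0)]⟩ ⟨0,[(22,0)]⟩ (.i 1 ⟨1,[(17,0),(19,2),(22,1)]⟩ ⟨0,[(0,0)]⟩))

theorem ok151 : chk K t151 l155 = true := by decide +kernel

open Helper55.PC in
noncomputable def t152n : Helper55.PC.Ten :=
  (q
  22846086837361455965334654336850523742031579407537219253945732803949315223875959400450248523463493673106132558890365948902705981021260725523728559633210389430287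
  (k
  2564966655533548610610632967003763215525998717888884412460584261462270037265366905859325041557605622911129574619790166148832700184411995176147627887323968031513064380507891439281834374694563019327715393529911626655593983263250507143419109543429091586834637386072875757285197275895309521340433384)
  (r
  1254481875640260544749390981382236805605691132185452573139667291120249388491975562736148375897743955489900641144659898338320789825602644846905494143680762917632205834510872384663342372403726510831987266600411361106400312138212624624438247180388788342144720464125989979920036201343635738740943772863267728359916380238530111527409588686128641091661101518379820230983832005334395838628294951620526018964212783328987885700456691594475331780973267938703990266406250023487422893471553080593767875305643472579667217483026109897160670086209370456227286783865865793494321219183402401193214457855808291884759104181946986711968084611817113858534239889716353782613009503843081701398020010927388366626490603396660949986097388898022564902437145315293864673959744))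

noncomputable def t152 : Tre := Helper55.PC.toT t152n

theorem ok152 : chk K t152 r155 = true :=
  Helper55.PC.chkN_sound K t152n r155 (by decide +kernel)

noncomputable def t153 : Tre :=
  (.N [0,-2,0,2,-1] (-1) ⟨0,[(0,0)]⟩ ⟨0,[(5,0)]⟩ (.x 1 ⟨1,[(9,1),(12,0),(23,0),(30,0)]⟩ ⟨143,[(6,
  107),(6,18),(7,107),(7,18),(5,43),(12,31),(0,71),(0,89),(8,115)]⟩))

theorem ok153 : chk K t153 l156 = true := by decide +kernel

noncomputable def t154 : Tre :=
  (.N [0,-1,0,0,8] (-1) ⟨0,[(1,0)]⟩ ⟨0,[(0,0)]⟩ (.x 0 ⟨3,[(15,0),(15,0),(0,1),(36,3)]⟩ ⟨3,[(16,8),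
  (16,1),(9,4),(4,1),(2,8),(0,0)]⟩))

theorem ok154 : chk K t154 l158 = true := by decide +kernel

noncomputable def t155 : Tre :=
  (.N [0,0,1,-2] 0 ⟨0,[(13,0)]⟩ ⟨0,[(22,0)]⟩ (.i 1 ⟨1,[(17,0),(19,2),(22,1)]⟩ ⟨0,[(0,0)]⟩))

theorem ok155 : chk K t155 l159 = true := by decide +kernel

open Helper55.PC in
noncomputable def t156n : Helper55.PC.Ten :=
  (r
  120155361575283026572981565618618049341099810295674717725965046043210312226479140984228395024168401878140548304286818896426598150044443078948400980226649798389700565111074599631910233591528984275980383572359375349480242583335204914917450228760631530098094644464564561829519748800875865547037868561908002455922175387804173650132642571974251456472799481379349172817837144366922097642074809790339095612273384812890607103947755359571239539815279197373932557486994098588500089197271710422110299197792882959316312348909570413115463528232550376538628778324017915181312264004988066781761648266936436324334977810972807815969619790388190415691821093559815894652770162174631916622566366521067930201635541710190912445036904124241299799828355168605843715797995044275732098869823002306570101834708608021333341921088)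

noncomputable def t156 : Tre := Helper55.PC.toT t156n

theorem ok156 : chk K t156 r159 = true :=
  Helper55.PC.chkN_sound K t156n r159 (by decide +kernel)

noncomputable def t157 : Tre :=
  (.N [0,0,1,-2] 0 ⟨0,[(12,0)]⟩ ⟨0,[(21,0)]⟩ (.i 1 ⟨1,[(16,0),(19,2),(22,1)]⟩ ⟨0,[(0,0)]⟩))

theorem ok157 : chk K t157 l160 = true := by decide +kernel

open Helper55.PC in
noncomputable def t158n : Helper55.PC.Ten :=
  (r
  1584827034118097240477204149281698133510315636892212071191871022407833308972532264013882777345633698011056043568214113443906187300190483443889133006321963406130430255074211794980472894852068788328284004457156384703758763281261621981857035975055933994018141946842043786896882274748753323631859781198321291084896870468831153126530008966245822457032933385206164675383435873252289680462277695664052145191500992440219891550529553330398077619377385961175096206144664216119340218330277219981263092365880100953525513212638474504616650024180673269971818223768249942217259967001408095594772663824582263669315274379583038076454137137157152705201846800138361305068380221016181779473216)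

noncomputable def t158 : Tre := Helper55.PC.toT t158n

theorem ok158 : chk K t158 r160 = true :=
  Helper55.PC.chkN_sound K t158n r160 (by decide +kernel)

noncomputable def t159 : Tre :=
  (.N [0,-2,0,2,-1] (-1) ⟨0,[(0,0)]⟩ ⟨0,[(2,0)]⟩ (.x 1 ⟨1,[(6,1),(12,0),(23,0),(30,0)]⟩ ⟨143,[(3,
  107),(6,18),(7,107),(7,18),(5,43),(12,31),(0,71),(0,89),(8,115)]⟩))

theorem ok159 : chk K t159 l161 = true := by decide +kernel

noncomputable def t160 : Tre :=
  (.N [0,-1,0,0,6] (-1) ⟨0,[(0,0)]⟩ ⟨0,[(1,0)]⟩ (.x 0 ⟨35,[(12,8),(15,8),(0,9),(36,27)]⟩ ⟨11,[(13,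
  20),(16,1),(9,8),(4,1),(2,20),(0,4)]⟩))

theorem ok160 : chk K t160 l163 = true := by decide +kernel

noncomputable def t161 : Tre :=
  (.N [0,0,1,-2] 0 ⟨0,[(10,0)]⟩ ⟨0,[(19,0)]⟩ (.i 1 ⟨1,[(14,0),(19,2),(22,1)]⟩ ⟨0,[(0,0)]⟩))

theorem ok161 : chk K t161 l164 = true := by decide +kernel

noncomputable def t162 : Tre :=
  (.N [0,0,1,-2] 0 ⟨0,[(11,0)]⟩ ⟨0,[(20,0)]⟩ (.i 0 ⟨0,[(0,0)]⟩ ⟨0,[(23,0),(14,1)]⟩))

theorem ok162 : chk K t162 l165 = true := by decide +kernel

open Helper55.PC in
noncomputable def t163n : Helper55.PC.Ten :=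
  (r
  85913645670229979472443212659438749463548994605819982545148224515506318482182621331597595134712201145080829312437461356329147464972626729919817229740472933460383838278127172791658438555942660842333492562362751128165050555524282719188772064895285439387453832465669984152232617232736633088295726281378603375713291112992750865153866926065028831939387394624371098914251729598693638973240432243679338686043672339042099922252141892301121891834914020859691910187184363122190351261463899175523364947006690393289749684031115764951925161033074907272571046663002455318112992722518442693958627922399859078638045347514112951175974309512970059149363394460550384853824)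

noncomputable def t163 : Tre := Helper55.PC.toT t163n

theorem ok163 : chk K t163 r165 = true :=
  Helper55.PC.chkN_sound K t163n r165 (by decide +kernel)

noncomputable def t164 : Tre :=
  (.N [0,3,0,0,5] 1 ⟨0,[(1,0)]⟩ ⟨0,[(0,0)]⟩ (.x (-2) ⟨35,[(13,8),(15,8),(0,61),(36,7)]⟩ ⟨0,[(31,0),
  (14,0),(15,0)]⟩))

theorem ok164 : chk K t164 l167 = true := by decide +kernel

noncomputable def t165 : Tre :=
  (.N [0,-1,2,1,1] (-1) ⟨0,[(0,0)]⟩ ⟨0,[(1,0)]⟩ (.x 0 ⟨3,[(11,1),(3,0),(8,5),(6,0),(11,1),(10,3),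
  (21,1),(2,3)]⟩ ⟨32,[(0,7),(7,1),(0,7),(4,31),(18,1),(0,37),(15,14),(0,28),(3,3),(3,29),(13,3),(7,
  20),(1,7)]⟩))

theorem ok165 : chk K t165 l169 = true := by decide +kernel

noncomputable def t166 : Tre :=
  (.N [0,-1,0,0,8] (-1) ⟨0,[(0,0)]⟩ ⟨0,[(1,0)]⟩ (.x 0 ⟨3,[(17,0),(15,0),(0,1),(36,3)]⟩ ⟨3,[(18,8),
  (16,1),(9,4),(4,1),(2,8),(0,0)]⟩))

theorem ok166 : chk K t166 l171 = true := by decide +kernel

noncomputable def t167 : Tre :=
  (.N [0,0,1,-2] 0 ⟨0,[(15,0)]⟩ ⟨0,[(24,0)]⟩ (.i 1 ⟨1,[(19,0),(19,2),(22,1)]⟩ ⟨0,[(0,0)]⟩))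

theorem ok167 : chk K t167 l172 = true := by decide +kernel

open Helper55.PC in
noncomputable def t168n : Helper55.PC.Ten :=
  (r
  170907409265929744468855641439739649280360477392790964921944009294646177106452895957314441927471217740055134866749046142755789305596062918446333577906889330074566141732757376634424971251256390187260409242906458464827528602490160861970505464050172789247349936356390357060684188766545342195913187975011673184437443657864961105335251542850605938074217250728256704421945828604714243345787314113928705191406690094664437191568751514841007310380976106668524058856708003288033766024571970345824886877654117291477595050041080409197519047128901375167101809668023265331354658438280219928342604082366199013349764383080218690787564129187291698117681237493478458767288265012772749933469259019343791388199496222645159658347607811688121298099828334837113664)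

noncomputable def t168 : Tre := Helper55.PC.toT t168n

theorem ok168 : chk K t168 r172 = true :=
  Helper55.PC.chkN_sound K t168n r172 (by decide +kernel)

noncomputable def t169 : Tre :=
  (.N [0,1,0,0,7] 0 ⟨0,[(1,0)]⟩ ⟨0,[(0,0)]⟩ (.x (-1) ⟨11,[(18,2),(15,2),(0,13),(36,7)]⟩ ⟨5,[(19,8),
  (16,3),(9,2),(4,3),(2,8),(0,0)]⟩))

theorem ok169 : chk K t169 l174 = true := by decide +kernel

noncomputable def t170 : Tre :=
  (.N [0,1,0,0,8] 0 ⟨0,[(1,0)]⟩ ⟨0,[(0,0)]⟩ (.x (-1) ⟨35,[(20,8),(15,8),(0,45),(36,27)]⟩ ⟨11,[(21,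
  20),(16,9),(9,8),(4,9),(2,20),(0,0)]⟩))

theorem ok170 : chk K t170 l176 = true := by decide +kernel

noncomputable def t171 : Tre :=
  (.N [0,0,1,-2] 0 ⟨0,[(18,0)]⟩ ⟨0,[(27,0)]⟩ (.i 1 ⟨1,[(22,0),(19,2),(22,1)]⟩ ⟨0,[(0,0)]⟩))

theorem ok171 : chk K t171 l177 = true := by decide +kernel

open Helper55.PC in
noncomputable def t172n : Helper55.PC.Ten :=
  (r
  15833856356720867168987268161154577497827208133128268785541534017723885029561640730363186391102361252728974496323281139157573265500664306202970243102595940957910048175869134800296236664288629345934199079073414591304438801251556701497993799300929246312763309155694744531843647285945610778079527760217549398504979864505291216105758648278179216213139956421237462386023535215971572729931567849193752116558564980038560491785622079155053636979391081891825634484019638543681040524917625541797604393792729936111570346572927659928106215956828939197873838152815362384012022774438847383681512424674786997147671927973313810948099626265908985709765501228611911147794709843781740114490369135214921850508893705069890811004898743967552)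

noncomputable def t172 : Tre := Helper55.PC.toT t172n

theorem ok172 : chk K t172 r177 = true :=
  Helper55.PC.chkN_sound K t172n r177 (by decide +kernel)

noncomputable def t173 : Tre :=
  (.N [0,0,1,-2] 0 ⟨0,[(17,0)]⟩ ⟨0,[(26,0)]⟩ (.i 1 ⟨1,[(21,0),(19,2),(22,1)]⟩ ⟨0,[(0,0)]⟩))

theorem ok173 : chk K t173 l178 = true := by decide +kernel

noncomputable def t174 : Tre :=
  (.N [0,0,1,-2] 0 ⟨0,[(18,0)]⟩ ⟨0,[(27,0)]⟩ (.i 0 ⟨0,[(0,0)]⟩ ⟨0,[(30,0),(14,1)]⟩))

theorem ok174 : chk K t174 l179 = true := by decide +kernel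

open Helper55.PC in
noncomputable def t175n : Helper55.PC.Ten :=
  (r
  46531521747642365423369921706302501269653567524751360215870515317019738794038945884941287794346035139120915488674371591348512048586700433017872940519013671682441117794412101291661376238921677244236642597159732488281411651814372766256221585422603854056650124809308164085118338266044145466942390533216644124324752692638678039365823510237189981715589692180287496441932678540677394404397082257417253079639016792596721130569301537092440632866240890539918401971497264748189533279601014840069951567190687210298022266591822049454045709683403482308111129096827687363189062113387482494904977282572476097431617751478311586541204886983190865316183150545291668513266666796597909659111519444800)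

noncomputable def t175 : Tre := Helper55.PC.toT t175n

theorem ok175 : chk K t175 r179 = true :=
  Helper55.PC.chkN_sound K t175n r179 (by decide +kernel)

noncomputable def t176 : Tre :=
  (.N [0,0,1,-2] 0 ⟨0,[(15,0)]⟩ ⟨0,[(24,0)]⟩ (.i 1 ⟨1,[(19,0),(19,2),(22,1)]⟩ ⟨0,[(0,0)]⟩))

theorem ok176 : chk K t176 l180 = true := by decide +kernel

noncomputable def t177 : Tre :=
  (.N [0,0,1,-2] 0 ⟨0,[(16,0)]⟩ ⟨0,[(25,0)]⟩ (.i 0 ⟨0,[(0,0)]⟩ ⟨0,[(28,0),(14,1)]⟩))

theorem ok177 : chk K t177 l181 = true := by decide +kernel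

open Helper55.PC in
noncomputable def t178n : Helper55.PC.Ten :=
  (r
  32915569722289864856531770530327707916121611920828967452726020082609062378523253471015248951662511566694667242361350864027224710636826699776988508065933047144634707619082047816594716527203176310860698060125951596470611807840054828867991602116994140444029404410726221430148731014519783368072599499935464925215842934868195483415301689052098339095272914617184845658671402098341150071401095976805697492354346037110131277405173117589220454160510891422480465641631001776061497215967055978770618993351349080273175850822090520847735207608702863697139917956514731416530219103735024098679460545095076336720204586699254150905585535977544039292751882057048939839476770513437702370312348194014989787962577306067765830464)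

noncomputable def t178 : Tre := Helper55.PC.toT t178n

theorem ok178 : chk K t178 r181 = true :=
  Helper55.PC.chkN_sound K t178n r181 (by decide +kernel)

noncomputable def t179 : Tre :=
  (.N [0,1,1,2,1] 0 ⟨0,[(0,0)]⟩ ⟨0,[(1,0)]⟩ (.x (-1) ⟨3,[(12,3),(3,0),(8,7),(6,0),(11,1),(10,5),(21,
  1)]⟩ ⟨10,[(2,1),(6,8),(0,1),(4,5),(19,5),(14,1),(0,6),(0,3),(4,1),(2,13),(2,1),(20,1)]⟩))

theorem ok179 : chk K t179 l183 = true := by decide +kernel

noncomputable def t180 : Tre :=
  (.N [0,-2,0,0,2] (-1) ⟨0,[(1,0)]⟩ ⟨0,[(0,0)]⟩ (.x 0 ⟨8,[(18,3),(15,3),(16,3),(1,1),(18,3)]⟩ ⟨0,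
  [(19,0),(26,0),(7,0)]⟩))

theorem ok180 : chk K t180 l185 = true := by decide +kernel

noncomputable def t181 : Tre :=
  (.N [0,0,1,-2] 0 ⟨0,[(16,0)]⟩ ⟨0,[(25,0)]⟩ (.i 1 ⟨1,[(20,0),(19,2),(22,1)]⟩ ⟨0,[(0,0)]⟩))

theorem ok181 : chk K t181 l186 = true := by decide +kernel

noncomputable def t182 : Tre :=
  (.N [0,0,1,-2] 0 ⟨0,[(17,0)]⟩ ⟨0,[(26,0)]⟩ (.i 0 ⟨0,[(0,0)]⟩ ⟨0,[(29,0),(14,1)]⟩))

theorem ok182 : chk K t182 l187 = true := by decide +kernel

open Helper55.PC in
noncomputable def t183n : Helper55.PC.Ten :=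
  (r
  1037686479227739514114790099382300052673423525392842971636776119982805157263570387014028762790563133169648822207579760733903694981908405936262554007889284114741204906987756859730334653106613190431684567461119352928639879222453706154116920278430414716256932228808869040652098229518086172128074509688977828157195262288271952431726653553259725860955744677569998247696909326797254658548211301573952771741948743471526166379777893286538454370592524709372256547725482423266034109488108078223474580015207420325018503295665193579985260624848163700682460546538405182698101386214987427130041542887866232379054434842844806218523779640670882060908590176349181167289941361436113545997999638934453879893691028787080041858003241145458777920)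

noncomputable def t183 : Tre := Helper55.PC.toT t183n

theorem ok183 : chk K t183 r187 = true :=
  Helper55.PC.chkN_sound K t183n r187 (by decide +kernel)

noncomputable def t184 : Tre :=
  (.N [0,-4,0,0,3] (-2) ⟨0,[(1,0)]⟩ ⟨0,[(0,0)]⟩ (.x 1 ⟨44,[(19,16),(15,16),(16,43),(1,21),(18,34)]⟩
  ⟨1,[(20,2),(26,3),(7,2),(12,0)]⟩))

theorem ok184 : chk K t184 l189 = true := by decide +kernel

noncomputable def t185 : Tre :=
  (.N [0,0,1,-2] 0 ⟨0,[(17,0)]⟩ ⟨0,[(26,0)]⟩ (.i 1 ⟨1,[(21,0),(19,2),(22,1)]⟩ ⟨0,[(0,0)]⟩))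

theorem ok185 : chk K t185 l190 = true := by decide +kernel

noncomputable def t186 : Tre :=
  (.N [0,0,1,-2] 0 ⟨0,[(18,0)]⟩ ⟨0,[(27,0)]⟩ (.i 0 ⟨0,[(0,0)]⟩ ⟨0,[(30,0),(14,1)]⟩))

theorem ok186 : chk K t186 l191 = true := by decide +kernel

open Helper55.PC in
noncomputable def t187n : Helper55.PC.Ten :=
  (r
  13097459000229017983218811393713750673729817789630694195832032000732812602925806683648591905531416637111268770051882155765231483438488769762295518571307156075091101082191344554154255453071688927709245353187695503457254130491463448503649795118248602748993619358819379267886658251774446517771378041224771714734046094908933539650851295403062503134080103566555814917472646749570970597861049056731776203214177653153849949105255581731445605261754718252087958481434472175730121303074618636950584267515462577262936621039858677441723713662115079969388408276626716486185267947761406619330601628153754840610616646563489204261877956535376850356358372614826121756088211377443835893950218986809616463900729152)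

noncomputable def t187 : Tre := Helper55.PC.toT t187n

theorem ok187 : chk K t187 r191 = true :=
  Helper55.PC.chkN_sound K t187n r191 (by decide +kernel)

noncomputable def t188 : Tre :=
  (.N [0,-1,0,0,8] (-1) ⟨0,[(1,0)]⟩ ⟨0,[(0,0)]⟩ (.x 0 ⟨3,[(20,0),(15,0),(0,1),(36,3)]⟩ ⟨3,[(21,8),
  (16,1),(9,4),(4,1),(2,8),(0,0)]⟩))

theorem ok188 : chk K t188 l193 = true := by decide +kernel

noncomputable def t189 : Tre :=
  (.N [0,0,1,-2] 0 ⟨0,[(18,0)]⟩ ⟨0,[(27,0)]⟩ (.i 1 ⟨1,[(22,0),(19,2),(22,1)]⟩ ⟨0,[(0,0)]⟩))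

theorem ok189 : chk K t189 l194 = true := by decide +kernel

open Helper55.PC in
noncomputable def t190n : Helper55.PC.Ten :=
  (r
  27227121125415624466815811979181549775978940186560345175719544921453341947172590630163127681522326385117036562054904868358777399106987851668991608580200938076753279763295454948603613356306899242056432064751135090593117611995442089955391750374245116018428091304250602285659606753421855649827812716512484891237576973713431457652235443520322628127378604895621425704157594083923153343298207172498509595178278726172359029327581466987414582130559915853445889668075546404418279395429555215006873712234668677006436777002824798865008727007487675932318700844547607879687252502221204794943873538324914449688064356791447580851639319879042119475584580511250994140982652814276279134537549250569024)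

noncomputable def t190 : Tre := Helper55.PC.toT t190n

theorem ok190 : chk K t190 r194 = true :=
  Helper55.PC.chkN_sound K t190n r194 (by decide +kernel)

noncomputable def t191 : Tre :=
  (.N [0,0,1,-2] 0 ⟨0,[(17,0)]⟩ ⟨0,[(26,0)]⟩ (.i 1 ⟨1,[(21,0),(19,2),(22,1)]⟩ ⟨0,[(0,0)]⟩))

theorem ok191 : chk K t191 l195 = true := by decide +kernel

open Helper55.PC in
noncomputable def t192n : Helper55.PC.Ten :=
  (r
  502251735264432780207839345300763930146481977694383197669021556081592871506081922582137522649711168585790286534392144739121764460965568023832172607205259095748192919025621622211820011575287544423934864829649037112767615565687905207283953421599217642304816373572537200591432585309256896364752244993604460619654757825891678866845374592768713063471238653967826109504021508836145962176837782021964230165420010241924293911094523754584757120806546342736131567979221524252034954667754244076208855828491501937737013466570196357453857562217717301941034356667583849431598321494684573226209264909462000436410127785097419260311115949964993618915408480667108803792461917814738890288718403416945561102144814799135552)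

noncomputable def t192 : Tre := Helper55.PC.toT t192n

theorem ok192 : chk K t192 r195 = true :=
  Helper55.PC.chkN_sound K t192n r195 (by decide +kernel)

noncomputable def t193 : Tre :=
  (.N [0,0,0,1,-2] 0 ⟨0,[(1,0)]⟩ ⟨0,[(0,0)]⟩ (.x 0 ⟨1,[(18,1),(26,0),(30,0)]⟩ ⟨647,[(10,323),(6,
  214),(7,323),(7,214),(5,99),(12,111),(1,161),(8,99),(7,143)]⟩))

theorem ok193 : chk K t193 l197 = true := by decide +kernel

noncomputable def t194 : Tre :=
  (.N [0,1,0,0,8] 0 ⟨0,[(1,0)]⟩ ⟨0,[(0,0)]⟩ (.x (-1) ⟨35,[(19,8),(15,8),(0,45),(36,27)]⟩ ⟨11,[(20,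
  20),(16,9),(9,8),(4,9),(2,20),(0,0)]⟩))

theorem ok194 : chk K t194 l199 = true := by decide +kernel

noncomputable def t195 : Tre :=
  (.N [0,-2,0,0,2] (-1) ⟨0,[(0,0)]⟩ ⟨0,[(1,0)]⟩ (.x 0 ⟨8,[(21,3),(15,3),(16,3),(1,1),(18,3)]⟩ ⟨0,
  [(22,0),(26,0),(7,0)]⟩))

theorem ok195 : chk K t195 l201 = true := by decide +kernel

noncomputable def t196 : Tre :=
  (.N [0,0,1,-2] 0 ⟨0,[(19,0)]⟩ ⟨0,[(28,0)]⟩ (.i 0 ⟨0,[(0,0)]⟩ ⟨0,[(31,0),(14,1)]⟩))

theorem ok196 : chk K t196 l202 = true := by decide +kernel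

noncomputable def t197 : Tre :=
  (.N [0,0,1,-2] 0 ⟨0,[(20,0)]⟩ ⟨0,[(29,0)]⟩ (.i 1 ⟨1,[(24,0),(19,2),(22,1)]⟩ ⟨0,[(0,0)]⟩))

theorem ok197 : chk K t197 l203 = true := by decide +kernel

open Helper55.PC in
noncomputable def t198n : Helper55.PC.Ten :=
  (r
  19141999499001574449972295313122043169936811759364971523468861237568624073919264353336921094359938662700265794847130398704719668162865876415069391347403588685827821389444471049221219680956448774240283885107734981337415313820995950596644929190117481724834110013567368137710486536922743523738939213374319820804447923467377901719825995288451278383651817552462923167164361304181102272515463132877810399917143261980542707273375488533066440060856258095646664411467339452078507054042362275326880437588107543896556107689159039307917393299690179879605586321950858493075612470517700317500289373092730362152937161721825571845613125381715134493834456210732732509538172241639321403601502982546592487271669856212222516290955289846093856257769302534692036416)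

noncomputable def t198 : Tre := Helper55.PC.toT t198n

theorem ok198 : chk K t198 r203 = true :=
  Helper55.PC.chkN_sound K t198n r203 (by decide +kernel)

noncomputable def t199 : Tre :=
  (.N [0,0,1,-2] 0 ⟨0,[(18,0)]⟩ ⟨0,[(27,0)]⟩ (.i 1 ⟨1,[(22,0),(19,2),(22,1)]⟩ ⟨0,[(0,0)]⟩))

theorem ok199 : chk K t199 l204 = true := by decide +kernel

open Helper55.PC in
noncomputable def t200n : Helper55.PC.Ten :=
  (r
  68005895221677834291560422192540967953865369990771128606998526255795570557962576679560599474219522328798761672412052931345990530142256725145448125331647094989139067558628750270190749722993245452171520715669976082497268373174447356394391485115146373472574913691694225867644884623279145646750235493122164725863678149060757787071556616510847713543626860753481767401953881182828138592388463551318958607499315448865291910777897224512107367872968877317660547559881610562522083527238184030164752545506436431382619947305239940378331810420162407956840702917340266361572508679034700402019861451314683302847946178475210345596428918994230915801357069204684594066993670358481700808759011633220059418733124719663677534021915780579513363357504)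

noncomputable def t200 : Tre := Helper55.PC.toT t200n

theorem ok200 : chk K t200 r204 = true :=
  Helper55.PC.chkN_sound K t200n r204 (by decide +kernel)

noncomputable def t201 : Tre :=
  (.N [0,0,1,-2] 0 ⟨0,[(16,0)]⟩ ⟨0,[(25,0)]⟩ (.i 1 ⟨1,[(20,0),(19,2),(22,1)]⟩ ⟨0,[(0,0)]⟩))

theorem ok201 : chk K t201 l205 = true := by decide +kernel

open Helper55.PC in
noncomputable def t202n : Helper55.PC.Ten :=
  (r
  1037685348261420277442830592555173769762847801184821972678824731824623014585425708066987585421687356901304374418887571049191184629659228808015403831378663119474240832020583735144690127002377683156726676819176893494616411538416614963552417708717131988669323768646662791883738249426266349155603115785600644124171773138058387586025603185961944591667071834518507932940347904409968156306268792313949936808228858905923632073930897691664899818938970270648917112254530111970429258738839025822312907254495258277866288601298783902208905174590205093589314471382209092261216073621208678373427297876805948086973773780471711164332968598035211910089660289366728025644940235912101186997396057530863143783641456957544382627481521649596260160)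

noncomputable def t202 : Tre := Helper55.PC.toT t202n

theorem ok202 : chk K t202 r205 = true :=
  Helper55.PC.chkN_sound K t202n r205 (by decide +kernel)

noncomputable def t203 : Tre :=
  (.N [0,1,2,0,2] 0 ⟨0,[(1,0)]⟩ ⟨0,[(0,0)]⟩ (.x (-1) ⟨3,[(18,0),(8,5),(6,0),(11,3),(10,1),(21,3),(2,
  1)]⟩ ⟨15,[(1,2),(10,5),(2,2),(1,20),(13,8),(4,2),(0,23),(15,3),(8,7)]⟩))

theorem ok203 : chk K t203 l207 = true := by decide +kernel

noncomputable def t204 : Tre :=
  (.N [0,0,1,-2] 0 ⟨0,[(16,0)]⟩ ⟨0,[(25,0)]⟩ (.i 1 ⟨1,[(20,0),(19,2),(22,1)]⟩ ⟨0,[(0,0)]⟩))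

theorem ok204 : chk K t204 l208 = true := by decide +kernel

open Helper55.PC in
noncomputable def t205n : Helper55.PC.Ten :=
  (q
  85234226150897708827612607048649559549727711944554991858451837077571286020631651331897613142307328893966000804287990067705044567041982687284566302230500396630031
  (k
  2113403843205614921754143253389620486612634212343835685017172730322438864856141837062363002789864521330220639263414958851691912338879350491014072381880772030728462350588828760812588199521600671189688559883091928109136444096280513185354351486542106989017808772740513104872)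
  (r
  68005821102669136797026883953118419993973504644558714903704240926759018419064261985462905795480593641431685177374059702763565368164891265843357804462320427187594614425121884070082767162669865345440616828742074655480183516072885770072296889239286536046368520050754465704085019798992107439122198697416714503722809860455509732070267383580803407064966358697889616340080055972268258028711480228878239240093585006847767576870414744943370179505733975975545684663032237842298422126368340742199859451238450837234518924421885250285606023377243224179398043018381421849596650990184955234939780296689437816013415288345025409603073896260283491837234416377484964404157504599939052348901756150628465339618736318754139864436499210244687462162240))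

noncomputable def t205 : Tre := Helper55.PC.toT t205n

theorem ok205 : chk K t205 r208 = true :=
  Helper55.PC.chkN_sound K t205n r208 (by decide +kernel)

noncomputable def t206 : Tre :=
  (.N [0,0,1,-2] 0 ⟨0,[(15,0)]⟩ ⟨0,[(24,0)]⟩ (.i 1 ⟨1,[(19,0),(19,2),(22,1)]⟩ ⟨0,[(0,0)]⟩))

theorem ok206 : chk K t206 l209 = true := by decide +kernel

open Helper55.PC in
noncomputable def t207n : Helper55.PC.Ten :=
  (q
  79089454580969373589828142821595521870330315090268076946327905346340241467581419608395918456953181956727158794670272172521761320580414922591847714675060900233231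
  (k
  3097838387721856987532523385322956248752358778487689212221867280550239777969864885841781500005800711162876216148861853788698402573414037082365316712363871262563162910939523731329592054386552577051853973610685741871015048205390211884821951001305727793958476467905773004615019104044979153673626562379064574230748713812968)
  (r
  353106026425574428714951977165423793388014676497729519430494729711921662313018351906328208767634221866073347134672152204522061794266643683070624256446563291648097554111572237986659941819266560372775212590108176910089113648293508080028278082992209364053971381803581806945501088664367161990566721429938079275665948265669789496476806676410039842820762259574147941695701397177725781726533806127402296400420848989181250863298850369144739165423883263864666427488097668889159833228276998596830670866188152707964814408891542989452580305180911693585558191250644311588765622363078915961109902857150584884640722154013939757801054990955879718610253581564853702483640610075333318669792806191014815241741375811281911816966608082543508987003302495561692605960351673820528271168))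

noncomputable def t207 : Tre := Helper55.PC.toT t207n

theorem ok207 : chk K t207 r209 = true :=
  Helper55.PC.chkN_sound K t207n r209 (by decide +kernel)

noncomputable def t208 : Tre :=
  (.N [0,-1,2,0,2] (-1) ⟨0,[(1,0)]⟩ ⟨0,[(0,0)]⟩ (.x 0 ⟨3,[(15,0),(8,1),(6,0),(0,1),(10,1),(32,1),(2,
  5)]⟩ ⟨7,[(3,0),(10,7),(1,1),(16,1),(0,15),(0,5),(7,1),(7,1),(5,4),(9,1)]⟩))

theorem ok208 : chk K t208 l212 = true := by decide +kernel

noncomputable def t209 : Tre :=
  (.N [0,-1,0,0,7] (-1) ⟨0,[(0,0)]⟩ ⟨0,[(3,0)]⟩ (.x 0 ⟨35,[(16,8),(15,8),(0,13),(36,31)]⟩ ⟨2,[(17,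
  5),(16,0),(9,2),(4,0),(2,5),(0,0)]⟩))

theorem ok209 : chk K t209 l213 = true := by decide +kernel

noncomputable def t210 : Tre :=
  (.N [0,1,1,2,1] 0 ⟨0,[(0,0)]⟩ ⟨0,[(1,0)]⟩ (.x (-1) ⟨3,[(14,3),(3,0),(8,7),(6,0),(11,1),(10,5),(21,
  1)]⟩ ⟨124,[(2,1),(0,21),(7,108),(0,31),(4,87),(4,1),(14,85),(14,19),(0,72),(0,31),(4,21),(2,147),
  (2,19),(20,9)]⟩))

theorem ok210 : chk K t210 l215 = true := by decide +kernel

noncomputable def t211 : Tre :=
  (.N [0,1,1,1,2] 0 ⟨0,[(1,0)]⟩ ⟨0,[(0,0)]⟩ (.x (-1) ⟨3,[(16,1),(3,0),(8,3),(6,0),(11,3),(32,3),(2,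
  1)]⟩ ⟨91,[(4,5),(0,20),(7,45),(5,71),(18,42),(0,114),(13,14),(1,18),(8,22),(7,14)]⟩))

theorem ok211 : chk K t211 l217 = true := by decide +kernel

noncomputable def t212 : Tre :=
  (.N [0,-1,2,1,1] (-1) ⟨0,[(1,0)]⟩ ⟨0,[(0,0)]⟩ (.x 0 ⟨3,[(18,1),(3,0),(8,5),(6,0),(11,1),(10,3),
  (21,1),(2,3)]⟩ ⟨15,[(1,5),(8,0),(5,0),(4,12),(18,1),(0,15),(0,0),(14,7),(0,15),(7,15),(21,8),(1,
  6)]⟩))

theorem ok212 : chk K t212 l219 = true := by decide +kernel

noncomputable def t213 : Tre :=
  (.N [0,-3,0,0,8] (-2) ⟨0,[(1,0)]⟩ ⟨0,[(0,0)]⟩ (.x 1 ⟨8,[(24,1),(15,1),(16,1),(1,0),(18,10)]⟩ ⟨11,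
  [(25,32),(16,1),(9,20),(4,1),(2,32),(0,4)]⟩))

theorem ok213 : chk K t213 l221 = true := by decide +kernel

noncomputable def t214 : Tre :=
  (.N [0,0,1,-2] 0 ⟨0,[(22,0)]⟩ ⟨0,[(31,0)]⟩ (.i 1 ⟨1,[(26,0),(19,2),(22,1)]⟩ ⟨0,[(0,0)]⟩))

theorem ok214 : chk K t214 l222 = true := by decide +kernel

open Helper55.PC in
noncomputable def t215n : Helper55.PC.Ten :=
  (r
  16546366282777081173824542266777007155346168302914809940283127436668593385164602573717921623853370735880017372460273615014391441250060122156257756833931853877578536402649215443914868210096508656672113374259127101803015071774220683228958724080515540149390224571894262316283741696428019348021965484397817220164670085968369921244716204987071278037161814164967619908519930678072516919041303132312658913191455988198176328801300707029436888516994173991516208898005427893898205661294871564910483639326763257324509668220041536328462115569099725415646802097907571756522023844522872203104027568070011301048668519335252833241146176)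

noncomputable def t215 : Tre := Helper55.PC.toT t215n

theorem ok215 : chk K t215 r222 = true :=
  Helper55.PC.chkN_sound K t215n r222 (by decide +kernel)

noncomputable def t216 : Tre :=
  (.N [0,0,1,-2] 0 ⟨0,[(21,0)]⟩ ⟨0,[(30,0)]⟩ (.i 0 ⟨0,[(0,0)]⟩ ⟨0,[(33,0),(14,1)]⟩))

theorem ok216 : chk K t216 l223 = true := by decide +kernel

open Helper55.PC in
noncomputable def t217n : Helper55.PC.Ten :=
  (r
  16546366282777080255319986047373387769079607360769222722428965764455500362320003818271450555100205720655867725230240764340743067724877494839748513518431645605708041015446725384829070135968768511727730439838481682056364199892963881683379265916305302742149141922676815982439869980681085377514592134529305756620375518394393873985435825807688112424565415016150098031172272649622113240029148188115530185554835629961700520277974675951929539288882451345090283575323918828102848674268109163692347111605725635143708266764060033874254727203104481209073969917493776491064066108769490182361718117895499008264282778538224573860815680)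

noncomputable def t217 : Tre := Helper55.PC.toT t217n

theorem ok217 : chk K t217 r223 = true :=
  Helper55.PC.chkN_sound K t217n r223 (by decide +kernel)

noncomputable def t218 : Tre :=
  (.N [0,0,1,-2] 0 ⟨0,[(19,0)]⟩ ⟨0,[(28,0)]⟩ (.i 1 ⟨1,[(23,0),(19,2),(22,1)]⟩ ⟨0,[(0,0)]⟩))

theorem ok218 : chk K t218 l224 = true := by decide +kernel

noncomputable def t219 : Tre :=
  (.N [0,0,1,-2] 0 ⟨0,[(20,0)]⟩ ⟨0,[(29,0)]⟩ (.i 0 ⟨0,[(0,0)]⟩ ⟨0,[(32,0),(14,1)]⟩))

theorem ok219 : chk K t219 l225 = true := by decide +kernel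

open Helper55.PC in
noncomputable def t220n : Helper55.PC.Ten :=
  (r
  71066102052164643810019639899313061280876842850118439824773241961788106827357234541186112265731418336209998706102870070400563142922810349191365185504497806679105692650216764624595260397637706386342770253172789561703096166945602614323501347690335581096413401746337514665244262671011431279866914348576666000889340475692233538372199517200286715641598326984217275768954943301345217860123859818265438176024150508916748629614281181012919440645575477741813909683107502355278871272282435535818587629519194752838459169592075910131250390087452887308519123580258261909393539102021457143031624636982004632647027989679523919223661509248033600)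

noncomputable def t220 : Tre := Helper55.PC.toT t220n

theorem ok220 : chk K t220 r225 = true :=
  Helper55.PC.chkN_sound K t220n r225 (by decide +kernel)

noncomputable def t221 : Tre :=
  (.N [0,-3,0,0,8] (-2) ⟨0,[(1,0)]⟩ ⟨0,[(0,0)]⟩ (.x 1 ⟨8,[(21,1),(15,1),(16,1),(1,0),(18,10)]⟩ ⟨11,
  [(22,32),(16,1),(9,20),(4,1),(2,32),(0,4)]⟩))

theorem ok221 : chk K t221 l227 = true := by decide +kernel

noncomputable def t222 : Tre :=
  (.N [0,0,1,-2] 0 ⟨0,[(19,0)]⟩ ⟨0,[(28,0)]⟩ (.i 1 ⟨1,[(23,0),(19,2),(22,1)]⟩ ⟨0,[(0,0)]⟩))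

theorem ok222 : chk K t222 l228 = true := by decide +kernel

noncomputable def t223 : Tre :=
  (.N [0,0,1,-2] 0 ⟨0,[(20,0)]⟩ ⟨0,[(29,0)]⟩ (.i 0 ⟨0,[(0,0)]⟩ ⟨0,[(32,0),(14,1)]⟩))

theorem ok223 : chk K t223 l229 = true := by decide +kernel

open Helper55.PC in
noncomputable def t224n : Helper55.PC.Ten :=
  (r
  71066102052164643810022461678063035899712824614640246914723216758921823017034424860640153564367837270830180358420347088062418572782570602802867927583387633212086849801837396855535344211090849625633166985859553862271082102901248746784067101785827745704797143512823239114620756626109381278111171544307715230476172822316731250812463992134105234398961948910128535969039145559738330950521216698772435767019223794950350270916082829725372784242979626293213623771286546135118031684930868546067258243246360913632853080787173985461121011760666930556570490449912272530014905930755723330232753192409758331554643427068002361005289624465318720)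

noncomputable def t224 : Tre := Helper55.PC.toT t224n

theorem ok224 : chk K t224 r229 = true :=
  Helper55.PC.chkN_sound K t224n r229 (by decide +kernel)

noncomputable def t225 : Tre :=
  (.N [0,0,1,-2] 0 ⟨0,[(18,0)]⟩ ⟨0,[(27,0)]⟩ (.i 1 ⟨1,[(22,0),(19,2),(22,1)]⟩ ⟨0,[(0,0)]⟩))

theorem ok225 : chk K t225 l230 = true := by decide +kernel

noncomputable def t226 : Tre :=
  (.N [0,0,1,-2] 0 ⟨0,[(19,0)]⟩ ⟨0,[(28,0)]⟩ (.i 0 ⟨0,[(0,0)]⟩ ⟨0,[(31,0),(14,1)]⟩))

theorem ok226 : chk K t226 l231 = true := by decide +kernel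

open Helper55.PC in
noncomputable def t227n : Helper55.PC.Ten :=
  (r
  71066102052164639865072609709981115392830372065212194653373990282136200351233901996301217146826407099330933861839941987751591809628558732439601744582717802270233238214863212891056650011199278737420345810935604776679038066685718656307675321505652413763917118180315541911125079246245586212125456374972718653042134301149603297760368412000130126265660935037302634965856042627511656345539081498510498895626474284616916649987116187908765448507051033891227868913335797673735359783710009410285092550796181537262823374344408963667633664342731996104129583758133823434583613715816452675202028548434326614104291628423723753659574098673804096)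

noncomputable def t227 : Tre := Helper55.PC.toT t227n

theorem ok227 : chk K t227 r231 = true :=
  Helper55.PC.chkN_sound K t227n r231 (by decide +kernel)

noncomputable def t228 : Tre :=
  (.N [0,-3,0,0,8] (-2) ⟨0,[(1,0)]⟩ ⟨0,[(0,0)]⟩ (.x 1 ⟨8,[(19,1),(15,1),(16,1),(1,0),(18,10)]⟩ ⟨11,
  [(20,32),(16,1),(9,20),(4,1),(2,32),(0,4)]⟩))

theorem ok228 : chk K t228 l233 = true := by decide +kernel

noncomputable def t229 : Tre :=
  (.N [0,0,1,-2] 0 ⟨0,[(17,0)]⟩ ⟨0,[(26,0)]⟩ (.i 1 ⟨1,[(21,0),(19,2),(22,1)]⟩ ⟨0,[(0,0)]⟩))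

theorem ok229 : chk K t229 l234 = true := by decide +kernel

noncomputable def t230 : Tre :=
  (.N [0,0,1,-2] 0 ⟨0,[(18,0)]⟩ ⟨0,[(27,0)]⟩ (.i 0 ⟨0,[(0,0)]⟩ ⟨0,[(30,0),(14,1)]⟩))

theorem ok230 : chk K t230 l235 = true := by decide +kernel

open Helper55.PC in
noncomputable def t231n : Helper55.PC.Ten :=
  (r
  71066102052164635920125579520649169504783901280305949481974738602484293875110569451416322027921395862451869017577013905102620476334307115687838303660937797861360783779509661157518039624760851088497921368698419991654979966425834698291849295320969246431420834614293570672255208692706452048665720219482220728641657645452327841256016531961690169010145823334156125967753646811763207531156036773534071584495230660023995226827554572880543360053738036101488724215250097805335754092616963950885494085219200660485998730494702895540280144939003774498825570468688561293346478601446905220676832796017612349369274503499463908032057684944757568)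

noncomputable def t231 : Tre := Helper55.PC.toT t231n

theorem ok231 : chk K t231 r235 = true :=
  Helper55.PC.chkN_sound K t231n r235 (by decide +kernel)

noncomputable def t232 : Tre :=
  (.N [0,0,1,-2] 0 ⟨0,[(16,0)]⟩ ⟨0,[(25,0)]⟩ (.i 0 ⟨0,[(0,0)]⟩ ⟨0,[(28,0),(14,1)]⟩))

theorem ok232 : chk K t232 l236 = true := by decide +kernel

noncomputable def t233 : Tre :=
  (.N [0,0,1,-2] 0 ⟨0,[(17,0)]⟩ ⟨0,[(26,0)]⟩ (.i 1 ⟨1,[(21,0),(19,2),(22,1)]⟩ ⟨0,[(0,0)]⟩))

theorem ok233 : chk K t233 l237 = true := by decide +kernel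

open Helper55.PC in
noncomputable def t234n : Helper55.PC.Ten :=
  (r
  71066102052164631975178549331317223616737430495399704310575486922832387398987236906531426909016384625572804173314085822453649143040055498936074862739157793452488329344156109423979429238322423439575496926461235206630921866165950740276023269136286079098924551048271597918136025267940606980924262245878273380794451470909697578173364123736884338560597042540131515519322032945533721408889543644559357701855150453424090831200554910712021830285440091540646502751816947735451678195331643961933083543870902372583274325288094632558115162300468035056171486438899742944274357210344553411656793267543684574751904369235407955186759825396867904)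

noncomputable def t234 : Tre := Helper55.PC.toT t234n

theorem ok234 : chk K t234 r237 = true :=
  Helper55.PC.chkN_sound K t234n r237 (by decide +kernel)

noncomputable def t235 : Tre :=
  (.N [0,3,0,0,4] 1 ⟨0,[(1,0)]⟩ ⟨0,[(0,0)]⟩ (.x (-2) ⟨35,[(16,8),(15,8),(0,57),(36,3)]⟩ ⟨19,[(16,0),
  (15,0),(1,9),(14,21),(1,5),(13,9)]⟩))

theorem ok235 : chk K t235 l239 = true := by decide +kernel

noncomputable def t236 : Tre :=
  (.N [0,0,1,-2] 0 ⟨0,[(14,0)]⟩ ⟨0,[(23,0)]⟩ (.i 1 ⟨1,[(18,0),(19,2),(22,1)]⟩ ⟨0,[(0,0)]⟩))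

theorem ok236 : chk K t236 l240 = true := by decide +kernel

open Helper55.PC in
noncomputable def t237n : Helper55.PC.Ten :=
  (r
  305226584168245529511013892276142660170418438567936398475535002490989918352081744884048251635139523577347041703530603299108431255092513443939014362764773851807746302665127672614215385520478347739297486502740437956161517921108111091759917390095320390109391863894266124240072204145907186108085269885434205031809900663173272546408417376166277251434424165828419234058901666745332763722679066314177026183166361900928207371548763304904985570847991545409556994723516033892604098699853470236207254421283229431164473343412112859237617636315269998146991027909675388792446542138971432365498018325406127399633279419474558333285458571539167404257190720)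

noncomputable def t237 : Tre := Helper55.PC.toT t237n

theorem ok237 : chk K t237 r240 = true :=
  Helper55.PC.chkN_sound K t237n r240 (by decide +kernel)

noncomputable def t238 : Tre :=
  (.N [0,0,1,-2] 0 ⟨0,[(13,0)]⟩ ⟨0,[(22,0)]⟩ (.i 1 ⟨1,[(17,0),(19,2),(22,1)]⟩ ⟨0,[(0,0)]⟩))

theorem ok238 : chk K t238 l241 = true := by decide +kernel

open Helper55.PC in
noncomputable def t239n : Helper55.PC.Ten :=
  (r
  56252851517649407664549858925338309561550660421202007725329001596646786506392326233248458762666403657396035117800252493013838406771118105036726031852946223218310120239415372444106395468549291061570244760913969449186626567516377338272687526441666074585244528048902682527579732410538150463525823040768940564492685650587555138680276337695983240655463965684605881325457553132734393453607318132086413882581576305447230500816343972689161258734768168819053340834469509036603987133314121518082369256867903329270899219197588872449214446255877077664332500768045337709944675397736795683439262851499812669893241778271089638907722169374645955853211266871925841696984310381604633837400073568764010615083841252906786624)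

noncomputable def t239 : Tre := Helper55.PC.toT t239n

theorem ok239 : chk K t239 r241 = true :=
  Helper55.PC.chkN_sound K t239n r241 (by decide +kernel)

noncomputable def t240 : Tre :=
  (.N [0,1,1,1,2] 0 ⟨0,[(0,0)]⟩ ⟨0,[(1,0)]⟩ (.x (-1) ⟨3,[(12,1),(3,0),(8,3),(6,0),(11,3),(32,3),(2,
  1)]⟩ ⟨22,[(9,9),(0,2),(4,14),(18,9),(0,24),(14,2),(0,3),(0,2),(4,2),(0,2),(1,7),(2,2),(4,2)]⟩))

theorem ok240 : chk K t240 l244 = true := by decide +kernel

noncomputable def t241 : Tre :=
  (.N [0,1,0,0,6] 0 ⟨0,[(3,0)]⟩ ⟨0,[(0,0)]⟩ (.x (-1) ⟨35,[(17,8),(15,8),(0,37),(36,19)]⟩ ⟨3,[(18,4),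
  (16,1),(9,0),(4,1),(2,4),(0,0)]⟩))

theorem ok241 : chk K t241 l245 = true := by decide +kernel

noncomputable def t242 : Tre :=
  (.N [0,-1,2,0,2] (-1) ⟨0,[(1,0)]⟩ ⟨0,[(0,0)]⟩ (.x 0 ⟨3,[(19,0),(8,1),(6,0),(0,1),(10,1),(32,1),(2,
  5)]⟩ ⟨7,[(7,0),(10,7),(1,1),(16,1),(0,15),(0,5),(7,1),(7,1),(5,4),(9,1)]⟩))

theorem ok242 : chk K t242 l247 = true := by decide +kernel

noncomputable def t243 : Tre :=
  (.N [0,-4,0,0,3] (-2) ⟨0,[(1,0)]⟩ ⟨0,[(0,0)]⟩ (.x 1 ⟨44,[(21,16),(15,16),(16,43),(1,21),(18,34)]⟩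
  ⟨1,[(22,2),(26,3),(7,2),(12,0)]⟩))

theorem ok243 : chk K t243 l249 = true := by decide +kernel

noncomputable def t244 : Tre :=
  (.N [0,0,1,-2] 0 ⟨0,[(19,0)]⟩ ⟨0,[(28,0)]⟩ (.i 1 ⟨1,[(23,0),(19,2),(22,1)]⟩ ⟨0,[(0,0)]⟩))

theorem ok244 : chk K t244 l250 = true := by decide +kernel

noncomputable def t245 : Tre :=
  (.N [0,0,1,-2] 0 ⟨0,[(20,0)]⟩ ⟨0,[(29,0)]⟩ (.i 0 ⟨0,[(0,0)]⟩ ⟨0,[(32,0),(14,1)]⟩))

theorem ok245 : chk K t245 l251 = true := by decide +kernel

open Helper55.PC in
noncomputable def t246n : Helper55.PC.Ten :=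
  (r
  6339308136472391777117416361704387138934569781468170012863691489730252486468044024659738989226314358584192519151395280998824375059806350727524684462022975774591658205408562493636784150314631684749427477916015725205864959344247491835957599707934991912618646450103695218996152607021201268455987291318089719465197463451300067835798225744615710660009990957168403216981464175911314570256226799545556603115351587027424644683977317606420697435961548531070725184203002767221418753948427064061855327872909968673342588193946614677424529389950453249140209741900954367949503914902768669250047031682576288498864366335864694204574280043621788179586150320981066380296186772427701269832512)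

noncomputable def t246 : Tre := Helper55.PC.toT t246n

theorem ok246 : chk K t246 r251 = true :=
  Helper55.PC.chkN_sound K t246n r251 (by decide +kernel)

noncomputable def t247 : Tre :=
  (.N [0,0,1,-2] 0 ⟨0,[(18,0)]⟩ ⟨0,[(27,0)]⟩ (.i 0 ⟨0,[(0,0)]⟩ ⟨0,[(30,0),(14,1)]⟩))

theorem ok247 : chk K t247 l252 = true := by decide +kernel

noncomputable def t248 : Tre :=
  (.N [0,0,1,-2] 0 ⟨0,[(19,0)]⟩ ⟨0,[(28,0)]⟩ (.i 1 ⟨1,[(23,0),(19,2),(22,1)]⟩ ⟨0,[(0,0)]⟩))

theorem ok248 : chk K t248 l253 = true := by decide +kernel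

open Helper55.PC in
noncomputable def t249n : Helper55.PC.Ten :=
  (r
  96730165656622183612310519316022410601301813713905485335610345193886544535504661575192557871377004446572319004461390259325368620313680000232272318769193464544773301219565518780399777600823923336563029296515886062289935766412860152779536665965095439447048392402061243908812587720143749608505683560771109238909773641889537510384526508571234748958046428748383268870085790961697296154126249633136409137011098207577639088984644256839281984098003024750442492646032557233898511459878299846841007169697650242341914694680272474543435807347155708177303432898167814993945645922870294615679418600687842003327061006275677129010488074232764235214109212679967867691950618901265785664)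

noncomputable def t249 : Tre := Helper55.PC.toT t249n

theorem ok249 : chk K t249 r253 = true :=
  Helper55.PC.chkN_sound K t249n r253 (by decide +kernel)

noncomputable def t250 : Tre :=
  (.N [0,0,1,-2] 0 ⟨0,[(16,0)]⟩ ⟨0,[(25,0)]⟩ (.i 1 ⟨1,[(20,0),(19,2),(22,1)]⟩ ⟨0,[(0,0)]⟩))

theorem ok250 : chk K t250 l254 = true := by decide +kernel

noncomputable def t251 : Tre :=
  (.N [0,0,1,-2] 0 ⟨0,[(17,0)]⟩ ⟨0,[(26,0)]⟩ (.i 0 ⟨0,[(0,0)]⟩ ⟨0,[(29,0),(14,1)]⟩))

theorem ok251 : chk K t251 l255 = true := by decide +kernel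

open Helper55.PC in
noncomputable def t252n : Helper55.PC.Ten :=
  (r
  502251735264432780207847654354370147360653051879991404819048746721620971366627509123330678885261973660537448770537646138885051896780484437550127701975515949848833834198394623431568531875234670433402848361384490209130522220184713697228446305310752598062254103575416883415263249492971831012344311585273162934024173692693532284019955681803871387015609835702318579917647361162265027737470909759182963019325242057162093897254185531546985331401655361697582790752790754753651154198623748944173003941460731093807985521290172861743309349838934168844916621027343899783395741568253704823249649404081187776309404034277557293991436975770830563755618181358220857414651474678879240955292043467622467711757831377265472)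

noncomputable def t252 : Tre := Helper55.PC.toT t252n

theorem ok252 : chk K t252 r255 = true :=
  Helper55.PC.chkN_sound K t252n r255 (by decide +kernel)

noncomputable def t253 : Tre :=
  (.N [0,1,0,0,6] 0 ⟨0,[(2,0)]⟩ ⟨0,[(0,0)]⟩ (.x (-1) ⟨35,[(16,8),(15,8),(0,37),(36,19)]⟩ ⟨3,[(17,4),
  (16,1),(9,0),(4,1),(2,4),(0,0)]⟩))

theorem ok253 : chk K t253 l256 = true := by decide +kernel

noncomputable def t254 : Tre :=
  (.N [0,0,1,-2] 0 ⟨0,[(16,0)]⟩ ⟨0,[(25,0)]⟩ (.i 1 ⟨1,[(20,0),(19,2),(22,1)]⟩ ⟨0,[(0,0)]⟩))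

theorem ok254 : chk K t254 l259 = true := by decide +kernel

open Helper55.PC in
noncomputable def t255n : Helper55.PC.Ten :=
  (r
  3852501111751672733295205488048795518941436212409727312542460014068664260834534943646295340754748025100457884683740542559065484587646992017302038284474966333096113179137115214821546307558757947193226199229544558203761903559542537400646988895329923440749904203623463068514707788924848755987929632935890382310371882857055656871468858956713677418753826101494345005632281388119724080101494525313153990420610140234539517831655847322607805260449146395348179319382529594615113303243080637352595845720879104257865056893507281256981083355441586695448012338756901139468567171245611084278452399261230672413652117585404736)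

noncomputable def t255 : Tre := Helper55.PC.toT t255n

theorem ok255 : chk K t255 r259 = true :=
  Helper55.PC.chkN_sound K t255n r259 (by decide +kernel)

noncomputable def t256 : Tre :=
  (.N [0,-1,0,0,8] (-1) ⟨0,[(1,0)]⟩ ⟨0,[(0,0)]⟩ (.x 0 ⟨3,[(20,0),(15,0),(0,1),(36,3)]⟩ ⟨3,[(21,8),
  (16,1),(9,4),(4,1),(2,8),(0,0)]⟩))

theorem ok256 : chk K t256 l261 = true := by decide +kernel

noncomputable def t257 : Tre :=
  (.N [0,0,1,-2] 0 ⟨0,[(18,0)]⟩ ⟨0,[(27,0)]⟩ (.i 1 ⟨1,[(22,0),(19,2),(22,1)]⟩ ⟨0,[(0,0)]⟩))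

theorem ok257 : chk K t257 l262 = true := by decide +kernel

noncomputable def t258 : Tre :=
  (.N [0,0,1,-2] 0 ⟨0,[(19,0)]⟩ ⟨0,[(28,0)]⟩ (.i 0 ⟨0,[(0,0)]⟩ ⟨0,[(31,0),(14,1)]⟩))

theorem ok258 : chk K t258 l263 = true := by decide +kernel

open Helper55.PC in
noncomputable def t259n : Helper55.PC.Ten :=
  (r
  502251735264432835968771529690158300719188695532246179598621816137803524676189008968893630489421725156834947624033317108104389364876120636918337007981725260865444834664826616428113605394535838264769780347664101509656530191762292292601027769338840875958009054512344244322388072805686507178647314016511917805830729774027914703118474930054847096446136782006228999643294167902273371995325911118337942275585674853321134969705476509999162018253776894328050007584555084022605252174022115065438529880227495602969937917431666448524027094943594346838242949608505687716242277283860519552977063264682188656366880510377534168777870355775343169254020171172576319732383916295763834519706036778942177507007040600679232)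

noncomputable def t259 : Tre := Helper55.PC.toT t259n

theorem ok259 : chk K t259 r263 = true :=
  Helper55.PC.chkN_sound K t259n r263 (by decide +kernel)

noncomputable def t260 : Tre :=
  (.N [0,0,1,-2] 0 ⟨0,[(18,0)]⟩ ⟨0,[(27,0)]⟩ (.i 1 ⟨1,[(22,0),(19,2),(22,1)]⟩ ⟨0,[(0,0)]⟩))

theorem ok260 : chk K t260 l265 = true := by decide +kernel

open Helper55.PC in
noncomputable def t261n : Helper55.PC.Ten :=
  (r
  502251735264432808088319978339271995557634702011322305860647573561476181727005990142163965423462733751703403558483011448000021306388126429714601910894735284836348450912366118391768458949712086570668023108939051038441818124925098926229230505069437695286919409311262976653117914110792408536225610688969125744069044622607614474942612711098438913851821449049949019137372587333028937835868598834642883058894010356560245242603998450258180121816141687498322213133583983152858914315071587427458305565944221817226030271032239828881291929770267875318050915554104590758827577929946258780738241566276001872847158236018894189214807375912492673058720729903939935289086749964728929943578548069570165824419976815321920)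

noncomputable def t261 : Tre := Helper55.PC.toT t261n

theorem ok261 : chk K t261 r265 = true :=
  Helper55.PC.chkN_sound K t261n r265 (by decide +kernel)

noncomputable def t262 : Tre :=
  (.N [0,0,1,-2] 0 ⟨0,[(18,0)]⟩ ⟨0,[(27,0)]⟩ (.i 1 ⟨1,[(22,0),(19,2),(22,1)]⟩ ⟨0,[(0,0)]⟩))

theorem ok262 : chk K t262 l266 = true := by decide +kernel

open Helper55.PC in
noncomputable def t263n : Helper55.PC.Ten :=
  (r
  305226584168245597284697907833386129000038786470585397609617733217753509663753178600857618764328218321844824717331744107405459407553180496411926067246381488530503422250508178475928278006369890272604937736064909457144636505911264361298910740924962321980285661186901436761503891132187464044209029596430604972681558886789823550054517454714528451693558034572180215148524678388186854930684158949126566305003936578172642207566692909791345184946688532759982993660984120323248803162770905569016891222878827491852377789800592534913172895376700787603382341320605904270419863254303328217939786177822457888050175440056211613748831497502734836637639488)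

noncomputable def t263 : Tre := Helper55.PC.toT t263n

theorem ok263 : chk K t263 r266 = true :=
  Helper55.PC.chkN_sound K t263n r266 (by decide +kernel)

noncomputable def t264 : Tre :=
  (.N [0,0,1,-2] 0 ⟨0,[(15,0)]⟩ ⟨0,[(24,0)]⟩ (.i 1 ⟨1,[(19,0),(19,2),(22,1)]⟩ ⟨0,[(0,0)]⟩))

theorem ok264 : chk K t264 l267 = true := by decide +kernel

open Helper55.PC in
noncomputable def t265n : Helper55.PC.Ten :=
  (r
  16546366282777074744293281665365676219778256129424300936395190115644427042570010927146358677810003224979684016427221879288338409462868714490271413976896182216612897486133738023574089536919069860689412990354986888323749082098337829691948243392090743465913355094489493978398464166166734394155033480633386038647794869945281081240952325746092105952513931057272617952155635419439154663962321339202554899244958554939714760205364833072313478788959659049422656948367212842774109784763353775751214610071594045563666202699986217155391403277481472173811399554079689656352240545822668922892745861301584577973055061097332017968980800)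

noncomputable def t265 : Tre := Helper55.PC.toT t265n

theorem ok265 : chk K t265 r267 = true :=
  Helper55.PC.chkN_sound K t265n r267 (by decide +kernel)

noncomputable def t266 : Tre :=
  (.N [0,0,1,-2] 0 ⟨0,[(13,0)]⟩ ⟨0,[(22,0)]⟩ (.i 1 ⟨1,[(17,0),(19,2),(22,1)]⟩ ⟨0,[(0,0)]⟩))

theorem ok266 : chk K t266 l269 = true := by decide +kernel

open Helper55.PC in
noncomputable def t267n : Helper55.PC.Ten :=
  (r
  1037681955362462567426952072073794749737419316652953221191254129944428574550537958700158881361614746616365683096733565932425516216992751167795238722619573823076074476728108547768314495927253659503999839337390576251109576375784361714299192191437995153673173729179587994688432299006553377488729610425387989305885523197217353333925949039263009216619605082910420319979548089920135014613070640014261882228437030822442884222262320271457867334847920722663674078838911491923010769472037588922238675105888906147141559978456978094420962959073707873023988269611296287367145609203748867457335866394962309955974997763683720656230326092125401833547309209696161347230189987508604866508936577742871235801752456591362715814079058544907542336)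

noncomputable def t267 : Tre := Helper55.PC.toT t267n

theorem ok267 : chk K t267 r269 = true :=
  Helper55.PC.chkN_sound K t267n r269 (by decide +kernel)

noncomputable def t268 : Tre :=
  (.N [0,-1,2,1,1] (-1) ⟨0,[(1,0)]⟩ ⟨0,[(0,0)]⟩ (.x 0 ⟨3,[(13,1),(3,0),(8,5),(6,0),(11,1),(10,3),
  (21,1),(2,3)]⟩ ⟨15,[(1,5),(3,0),(5,0),(4,12),(18,1),(0,15),(0,0),(14,7),(0,15),(7,15),(21,8),(1,
  6)]⟩))

theorem ok268 : chk K t268 l271 = true := by decide +kernel

noncomputable def t269 : Tre :=
  (.N [0,-4,0,0,3] (-2) ⟨0,[(1,0)]⟩ ⟨0,[(0,0)]⟩ (.x 1 ⟨44,[(19,16),(15,16),(16,43),(1,21),(18,34)]⟩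
  ⟨1,[(20,2),(26,3),(7,2),(12,0)]⟩))

theorem ok269 : chk K t269 l273 = true := by decide +kernel

noncomputable def t270 : Tre :=
  (.N [0,0,1,-2] 0 ⟨0,[(17,0)]⟩ ⟨0,[(26,0)]⟩ (.i 1 ⟨1,[(21,0),(19,2),(22,1)]⟩ ⟨0,[(0,0)]⟩))

theorem ok270 : chk K t270 l274 = true := by decide +kernel

open Helper55.PC in
noncomputable def t271n : Helper55.PC.Ten :=
  (r
  4657388064090661321125239755306751689260966117016516860654975571034493417908939386150711864056869372351630117977551257558868155981866837088731428951568266621590119543167297042716539298708824247051721489852090323192276718974646002861189862383504922286001067335755990300324240621580117765369063485249857108760603054830305225305508287443589873561436326036461392915413137192768616953904202016884069574178404721796987745126892255724140183373323448116338575844685455002212360834507767662424015626192920749958313705561935030303547745791503391214747389250208537483142475985399340059796106620579953284719689444989984638580553636167088653738816)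

noncomputable def t271 : Tre := Helper55.PC.toT t271n

theorem ok271 : chk K t271 r274 = true :=
  Helper55.PC.chkN_sound K t271n r274 (by decide +kernel)

noncomputable def t272 : Tre :=
  (.N [0,1,1,2,1] 0 ⟨0,[(1,0)]⟩ ⟨0,[(0,0)]⟩ (.x (-1) ⟨3,[(16,3),(3,0),(8,7),(6,0),(11,1),(10,5),(21,
  1)]⟩ ⟨10,[(3,1),(9,8),(0,1),(4,5),(19,5),(14,1),(0,6),(0,3),(4,1),(2,13),(2,1),(20,1)]⟩))

theorem ok272 : chk K t272 l276 = true := by decide +kernel

noncomputable def t273 : Tre :=
  (.N [0,0,1,-2] 0 ⟨0,[(18,0)]⟩ ⟨0,[(27,0)]⟩ (.i 1 ⟨1,[(22,0),(19,2),(22,1)]⟩ ⟨0,[(0,0)]⟩))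

theorem ok273 : chk K t273 l277 = true := by decide +kernel

open Helper55.PC in
noncomputable def t274n : Helper55.PC.Ten :=
  (r
  1084382660708078551027292461552380140633317554922805294442874595781825659966133094349011860454787544154500707893438290893880450464933857099193846298339320577338800001200900275522313469321106803010101778921332784291266787478997781391654870667388736815262479655337241994357700199091885749309332285938226424806604756226492679849937813163063290539489751751883205665741536577206965462644655116736448389827230041153913466131176248868904680174872079357615704281983173486371819740210512782006190107649891056738165746040068880577826037639628801446952971725568772379901594482525533290885778524412147764894910957371346151445310050935616)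

noncomputable def t274 : Tre := Helper55.PC.toT t274n

theorem ok274 : chk K t274 r277 = true :=
  Helper55.PC.chkN_sound K t274n r277 (by decide +kernel)

noncomputable def t275 : Tre :=
  (.N [0,0,1,-2] 0 ⟨0,[(17,0)]⟩ ⟨0,[(26,0)]⟩ (.i 1 ⟨1,[(21,0),(19,2),(22,1)]⟩ ⟨0,[(0,0)]⟩))

theorem ok275 : chk K t275 l278 = true := by decide +kernel

open Helper55.PC in
noncomputable def t276n : Helper55.PC.Ten :=
  (r
  1084382660708078490832177865157544540534952217018352090533584256431668395620989470312071932492980121716770836612570857992132230657587488435379096528414698928033495215505197887010066606735071224871026698931141366062750275939387735645563775297139054696541528062838127431422908222328694684618161066081243657531765867445964585616753614233163235397902634137266007518149328517953642849305967525094539102501062248813355959214520477960550660857105206870447621338935525004756304994536642881341718771678751454381402778527372319069606458548789184806389060928237876446300315030133546183530608519300364606729384700534200136813848037696320)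

noncomputable def t276 : Tre := Helper55.PC.toT t276n

theorem ok276 : chk K t276 r278 = true :=
  Helper55.PC.chkN_sound K t276n r278 (by decide +kernel)

noncomputable def t277 : Tre :=
  (.N [0,0,1,-2] 0 ⟨0,[(14,0)]⟩ ⟨0,[(23,0)]⟩ (.i 1 ⟨1,[(18,0),(19,2),(22,1)]⟩ ⟨0,[(0,0)]⟩))

theorem ok277 : chk K t277 l279 = true := by decide +kernel

open Helper55.PC in
noncomputable def t278n : Helper55.PC.Ten :=
  (r
  368996298433769824082898263815307649682422553792163015862012630657282839564683924352590670477748539748872440404319745051173867197509313511496505978570445730415048506100835101209766378958851517297847581704667856725779815482722023442588613070135909381352449271550019837463197326129718260986894788806499067376713364474604577146422535185476047855550020866383716914998291130121968531130178563855797150435674987294097968620885819728496399898482088782693167864535916072931559409909766144520532291014228444627786107182671112699706890276666055031208799965894268375558334703720843781822952290483252424727187707690951558058340253732806233226833265949022630485287592983274304)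

noncomputable def t278 : Tre := Helper55.PC.toT t278n

theorem ok278 : chk K t278 r279 = true :=
  Helper55.PC.chkN_sound K t278n r279 (by decide +kernel)

noncomputable def t279 : Tre :=
  (.N [0,0,0,1,-1] 0 ⟨0,[(1,0)]⟩ ⟨0,[(0,0)]⟩ (.x 0 ⟨3,[(7,0),(4,1),(7,0),(18,0),(10,0),(19,0)]⟩
  ⟨647,[(4,323),(6,210),(7,323),(7,210),(5,67),(12,127),(1,161),(8,67),(7,71)]⟩))

theorem ok279 : chk K t279 l282 = true := by decide +kernel

noncomputable def t280 : Tre :=
  (.N [0,3,2] 1 ⟨0,[(0,0)]⟩ ⟨0,[(3,0)]⟩ (.x (-2) ⟨3,[(12,0),(8,7),(6,0),(11,5),(10,7),(9,5)]⟩ ⟨12,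
  [(0,7),(10,15),(13,23),(5,15),(15,4),(8,9),(9,4)]⟩))

theorem ok280 : chk K t280 l283 = true := by decide +kernel

noncomputable def t281 : Tre :=
  (.N [0,1,1,1,2] 0 ⟨0,[(1,0)]⟩ ⟨0,[(0,0)]⟩ (.x (-1) ⟨3,[(10,1),(3,0),(8,3),(6,0),(11,3),(32,3),(2,
  1)]⟩ ⟨22,[(7,9),(0,2),(4,14),(18,9),(0,24),(14,2),(0,3),(0,2),(4,2),(0,2),(1,7),(2,2),(4,2)]⟩))

theorem ok281 : chk K t281 l285 = true := by decide +kernel

noncomputable def t282 : Tre :=
  (.N [0,1,0,0,5] 0 ⟨0,[(1,0)]⟩ ⟨0,[(0,0)]⟩ (.x (-1) ⟨35,[(16,8),(15,8),(0,33),(36,15)]⟩ ⟨2,[(17,2),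
  (16,0),(14,0),(2,2),(0,0)]⟩))

theorem ok282 : chk K t282 l287 = true := by decide +kernel

noncomputable def t283 : Tre :=
  (.N [0,0,1,-2] 0 ⟨0,[(14,0)]⟩ ⟨0,[(23,0)]⟩ (.i 0 ⟨0,[(0,0)]⟩ ⟨0,[(26,0),(14,1)]⟩))

theorem ok283 : chk K t283 l288 = true := by decide +kernel

noncomputable def t284 : Tre :=
  (.N [0,0,1,-2] 0 ⟨0,[(15,0)]⟩ ⟨0,[(24,0)]⟩ (.i 1 ⟨1,[(19,0),(19,2),(22,1)]⟩ ⟨0,[(0,0)]⟩))

theorem ok284 : chk K t284 l289 = true := by decide +kernel

open Helper55.PC in
noncomputable def t285n : Helper55.PC.Ten :=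
  (r
  4657388064090660804053228323236817258417048765821998456911085681689514117848692464361918115482237929105611073435435261666475657443409490875603941998879168824875510131712471134125764400579055007374610600345445878063805355950205558915075446033314076688618919729242053232155781178970459072838690987693588605981915494920504417157740058477938241940806691689317474075680106826844588077836410162366821657689834084820447159308077721053300613668477739904054289115449321718567543217977461147923050784326044200317341656603562258909708113218509167148817843482573818364649277236936219161332616575254057679013820325686549925008777368721577233097536)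

noncomputable def t285 : Tre := Helper55.PC.toT t285n

theorem ok285 : chk K t285 r289 = true :=
  Helper55.PC.chkN_sound K t285n r289 (by decide +kernel)

noncomputable def t286 : Tre :=
  (.N [0,0,1,-2] 0 ⟨0,[(13,0)]⟩ ⟨0,[(22,0)]⟩ (.i 1 ⟨1,[(17,0),(19,2),(22,1)]⟩ ⟨0,[(0,0)]⟩))

theorem ok286 : chk K t286 l290 = true := by decide +kernel

open Helper55.PC in
noncomputable def t287n : Helper55.PC.Ten :=
  (r
  1584827034118097328452460437941471615497258968162781682716517788955799235435009277883736884312611835717264179315518258924132552825970004052955406944531368056729312573714094462299432590371435831894938015285732169515465828988850594081674730636587987143739940093386888317975030640639325277522238446072521708424801691860224266986204322688403677949423722691754125380021458108203953700362954124450864514089222810581877182025546493520359664888750386437970445535928032792069891422478903687552442541219954583920990333482158808773121865520659749032548098918515073671818600863253648391849309166935321678542588038337194931905710383584545768128748204982566895588789502163863834976330560)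

noncomputable def t287 : Tre := Helper55.PC.toT t287n

theorem ok287 : chk K t287 r290 = true :=
  Helper55.PC.chkN_sound K t287n r290 (by decide +kernel)

noncomputable def t288 : Tre :=
  (.N [0,1,1,2,1] 0 ⟨0,[(1,0)]⟩ ⟨0,[(0,0)]⟩ (.x (-1) ⟨3,[(11,3),(3,0),(8,7),(6,0),(11,1),(10,5),(21,
  1)]⟩ ⟨1,[(8,1),(5,1),(13,0),(5,1),(15,0),(8,1),(7,0)]⟩))

theorem ok288 : chk K t288 l292 = true := by decide +kernel

noncomputable def t289 : Tre :=
  (.N [0,-1,0,0,6] (-1) ⟨0,[(1,0)]⟩ ⟨0,[(0,0)]⟩ (.x 0 ⟨35,[(17,8),(15,8),(0,9),(36,27)]⟩ ⟨11,[(18,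
  20),(16,1),(9,8),(4,1),(2,20),(0,4)]⟩))

theorem ok289 : chk K t289 l294 = true := by decide +kernel

noncomputable def t290 : Tre :=
  (.N [0,0,1,-2] 0 ⟨0,[(15,0)]⟩ ⟨0,[(24,0)]⟩ (.i 1 ⟨1,[(19,0),(19,2),(22,1)]⟩ ⟨0,[(0,0)]⟩))

theorem ok290 : chk K t290 l295 = true := by decide +kernel

noncomputable def t291 : Tre :=
  (.N [0,0,1,-2] 0 ⟨0,[(16,0)]⟩ ⟨0,[(25,0)]⟩ (.i 0 ⟨0,[(0,0)]⟩ ⟨0,[(28,0),(14,1)]⟩))

theorem ok291 : chk K t291 l296 = true := by decide +kernel

open Helper55.PC in
noncomputable def t292n : Helper55.PC.Ten :=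
  (r
  6806780281353905361000907622705630425065866341354751444770581800769501047242002580944020624449231867748896303183585442090547194624893497214035100690225116097239713510790719577592023793710420033764828656567310972653512827040354605690266738962208693660292958599766625445945828747982232469533994090348716909218104035423711032089254313372912897870814556278828036682407793757491272534767665264631838527474127246272459373024728325242059015818044947069303213294997099635586215671127842554496899753714901841841502108581239594643450501774611531445695376429086426456967503007625765744480058379998513846923243717323026174123150991420704187333321820471140834083642677908005277627982979803652928)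

noncomputable def t292 : Tre := Helper55.PC.toT t292n

theorem ok292 : chk K t292 r296 = true :=
  Helper55.PC.chkN_sound K t292n r296 (by decide +kernel)

noncomputable def t293 : Tre :=
  (.N [0,0,1,-2] 0 ⟨0,[(14,0)]⟩ ⟨0,[(23,0)]⟩ (.i 0 ⟨0,[(0,0)]⟩ ⟨0,[(26,0),(14,1)]⟩))

theorem ok293 : chk K t293 l297 = true := by decide +kernel

noncomputable def t294 : Tre :=
  (.N [0,0,1,-2] 0 ⟨0,[(15,0)]⟩ ⟨0,[(24,0)]⟩ (.i 1 ⟨1,[(19,0),(19,2),(22,1)]⟩ ⟨0,[(0,0)]⟩))

theorem ok294 : chk K t294 l298 = true := by decide +kernel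

open Helper55.PC in
noncomputable def t295n : Helper55.PC.Ten :=
  (r
  446089152518809516975718692379213071262751712047353136930801205047960985885492118839204259587746275067118852236887520994719962225622976477986447594202276223822634946674328051708915765436818299610111539587692004782508270879698950081928570499095355845119288194316184733582961783830307413785439496776787198986717599326114456142830517785613855727887939111795226137751462417070290474003260085748939364380884675172349861180571661066096822444737226514004386316512717654573447456222950340414001072695454737406000912075820207110421245231876520582547607154963166242460279636418016807295784524656956639778339504095609428323107987552386785129145064376983526478324195249495065952241915392258522489664)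

noncomputable def t295 : Tre := Helper55.PC.toT t295n

theorem ok295 : chk K t295 r298 = true :=
  Helper55.PC.chkN_sound K t295n r298 (by decide +kernel)

noncomputable def t296 : Tre :=
  (.N [0,0,1,-2] 0 ⟨0,[(12,0)]⟩ ⟨0,[(21,0)]⟩ (.i 1 ⟨1,[(16,0),(19,2),(22,1)]⟩ ⟨0,[(0,0)]⟩))

theorem ok296 : chk K t296 l299 = true := by decide +kernel

open Helper55.PC in
noncomputable def t297n : Helper55.PC.Ten :=
  (r
  103863224507963620751913903455540740492843118669618652855614492651020173933786342815613387090865296960641887377605581647591066732870877150896441622510966527501722615217181146885218547741886181387049251374301092287125601273521336043014733982417355465030234090625039147460418700606640692735946836216964026464886410709273629100261741666945372938830327608974304196218194886915517071334547673927961468030526008686840877202496699900647392910011392098166690923379257349491251660960783062487736024571229474083056428631508758293872833960695182506972171332950448728787253695991384375839860404337219530254523834803626373048741773292583880484461061126614154893699250426752893238074501505856)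

noncomputable def t297 : Tre := Helper55.PC.toT t297n

theorem ok297 : chk K t297 r299 = true :=
  Helper55.PC.chkN_sound K t297n r299 (by decide +kernel)

noncomputable def t298 : Tre :=
  (.N [0,0,1,-2] 0 ⟨0,[(8,0)]⟩ ⟨0,[(17,0)]⟩ (.i 0 ⟨0,[(0,0)]⟩ ⟨0,[(20,0),(14,1)]⟩))

theorem ok298 : chk K t298 l300 = true := by decide +kernel

open Helper55.PC in
noncomputable def t299n : Helper55.PC.Ten :=
  (r
  54577480878728134761464688627128888694588834034691949783490208874494926860638956714262812424690231149898584957704297107230689561840804327055022680790808638665765771708319444530050065061404060972298737681764398450757840141942598625025739477663788005846094212398204217466879393688330275908340356310937125336828885866613920270217151616119449908894266815868426349722653062334658906691525288440304168140518810767432773179667829388018174627390947663855026168578977600019321872322158635808126694906923118827163734154284984131831046841114335429169403678920260314011000864752156197235590594860040478655093096165086334796307168686193849389958688922446368799605956102867114990891417551840577659128228331910690421572340692731447251394240417973352708502781166148735964905975013868674810756606024963562670402286859331154262629378524367505233860499905716993)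

noncomputable def t299 : Tre := Helper55.PC.toT t299n

theorem ok299 : chk K t299 l302 = true :=
  Helper55.PC.chkN_sound K t299n l302 (by decide +kernel)

noncomputable def t300 : Tre :=
  (.N [0,3,2] 1 ⟨0,[(0,0)]⟩ ⟨0,[(5,0)]⟩ (.x (-2) ⟨3,[(3,2),(10,0),(0,5),(7,4),(6,0),(11,5),(10,4),
  (21,2)]⟩ ⟨12,[(0,7),(12,15),(13,23),(5,15),(15,4),(8,9),(9,4)]⟩))

theorem ok300 : chk K t300 l303 = true := by decide +kernel

noncomputable def t301 : Tre :=
  (.N [0,0,1,-2] 0 ⟨0,[(12,0)]⟩ ⟨0,[(21,0)]⟩ (.i 1 ⟨1,[(16,0),(19,2),(22,1)]⟩ ⟨0,[(0,0)]⟩))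

theorem ok301 : chk K t301 l304 = true := by decide +kernel

open Helper55.PC in
noncomputable def t302n : Helper55.PC.Ten :=
  (r
  96730165656622146025219842284490112674276454997825112990675952891837967498028970151779602366374150813223689214890433147168780428237167327568346282943120717538052632497733109629880076572790451119140558753193250417072231058625135351154243011107467781847459985294130394737013022436086457176125803077529242452479309190017375193648702863808462246030774770583801206930499718126022611141504703201540800374026994775150080320194837431010106187694450186752232554344741225258784664252768036681630998709020160464464244234815769403897874958022318440481474044450247927522848275246649377261952826093402572387692672320756376143050400852517512171609594115446764823235048408048772326208)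

noncomputable def t302 : Tre := Helper55.PC.toT t302n

theorem ok302 : chk K t302 r304 = true :=
  Helper55.PC.chkN_sound K t302n r304 (by decide +kernel)

noncomputable def t303 : Tre :=
  (.N [0,0,1,-2] 0 ⟨0,[(10,0)]⟩ ⟨0,[(19,0)]⟩ (.i 1 ⟨1,[(14,0),(19,2),(22,1)]⟩ ⟨0,[(0,0)]⟩))

theorem ok303 : chk K t303 l305 = true := by decide +kernel

open Helper55.PC in
noncomputable def t304n : Helper55.PC.Ten :=
  (r
  1310938196872405619862268547050398272054684771292552197785643881511688550360874976406502808325875479286285900579595940567648165701248716770814042801502229431620491845428308747526138694974023564651470135758004445820283480800434435816670164535307580808976724326799874410228817672096571547777600280176439996373702586139141773833912293421880256968208840446013454378028879016549483229567795301536653579980174633962851309339286691168631074604978843948090895324694915921121685909784215787867307508047578855433442977250157707887272427669931579898796910604758859989384514304117031328451482258070545519725504786997648176162570728013722381431965013219117114176)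

noncomputable def t304 : Tre := Helper55.PC.toT t304n

theorem ok304 : chk K t304 r305 = true :=
  Helper55.PC.chkN_sound K t304n r305 (by decide +kernel)

noncomputable def t305 : Tre :=
  (.N [0,1,2,1,1] 0 ⟨0,[(1,0)]⟩ ⟨0,[(0,0)]⟩ (.x (-1) ⟨3,[(7,1),(3,0),(8,9),(6,0),(11,1),(10,7),(21,
  1)]⟩ ⟨77,[(1,25),(0,18),(0,25),(0,38),(3,38),(1,128),(13,30),(5,128),(15,32),(8,65),(9,6)]⟩))

theorem ok305 : chk K t305 l307 = true := by decide +kernel

noncomputable def t306 : Tre :=
  (.N [0,0,1,-2] 0 ⟨0,[(9,0)]⟩ ⟨0,[(18,0)]⟩ (.i 0 ⟨0,[(0,0)]⟩ ⟨0,[(21,0),(14,1)]⟩))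

theorem ok306 : chk K t306 l308 = true := by decide +kernel

open Helper55.PC in
noncomputable def t307n : Helper55.PC.Ten :=
  (r
  4657388064090659252836851183187174114797684465088195453605353473114109746972965035545114271137584172346920096808775429481278362581671901406666619825449591937209359296910369072590673184061732959783499222325936095658199744397322844115677842764025567066496916831117205958640748627432593963673904737442645640652993898236940374374563289168053652126471201712401024672748883986382967575371510618383165531438798942785596684622273299792046551307477148301723615377756963165576311478619732234890523368618947613978422633960988657211096245710338673431295112141577020449032979172282885209013693623876285506835308605199181868581952749023353595241280)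

noncomputable def t307 : Tre := Helper55.PC.toT t307n

theorem ok307 : chk K t307 r308 = true :=
  Helper55.PC.chkN_sound K t307n r308 (by decide +kernel)

noncomputable def t308 : Tre :=
  (.N [0,0,0,1,-1] 0 ⟨0,[(1,0)]⟩ ⟨0,[(0,0)]⟩ (.x 0 ⟨3,[(8,0),(4,1),(7,0),(18,0),(10,0),(19,0)]⟩
  ⟨647,[(5,323),(6,210),(7,323),(7,210),(5,67),(12,127),(1,161),(8,67),(7,71)]⟩))

theorem ok308 : chk K t308 l310 = true := by decide +kernel

noncomputable def t309 : Tre :=
  (.N [0,2,0,1,-2] 1 ⟨0,[(1,0)]⟩ ⟨0,[(0,0)]⟩ (.x (-1) ⟨1,[(16,1),(26,2),(20,1),(9,0)]⟩ ⟨89,[(8,44),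
  (6,30),(7,44),(7,30),(1,44),(14,21),(1,10),(18,39)]⟩))

theorem ok309 : chk K t309 l313 = true := by decide +kernel

noncomputable def t310 : Tre :=
  (.N [0,1,0,0,5] 0 ⟨0,[(0,0)]⟩ ⟨0,[(3,0)]⟩ (.x (-1) ⟨35,[(16,8),(15,8),(0,33),(36,15)]⟩ ⟨2,[(17,2),
  (16,0),(14,0),(2,2),(0,0)]⟩))

theorem ok310 : chk K t310 l314 = true := by decide +kernel

noncomputable def t311 : Tre :=
  (.N [0,-1,0,0,6] (-1) ⟨0,[(1,0)]⟩ ⟨0,[(0,0)]⟩ (.x 0 ⟨35,[(18,8),(15,8),(0,9),(36,27)]⟩ ⟨11,[(19,
  20),(16,1),(9,8),(4,1),(2,20),(0,4)]⟩))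

theorem ok311 : chk K t311 l316 = true := by decide +kernel

noncomputable def t312 : Tre :=
  (.N [0,0,1,-2] 0 ⟨0,[(16,0)]⟩ ⟨0,[(25,0)]⟩ (.i 1 ⟨1,[(20,0),(19,2),(22,1)]⟩ ⟨0,[(0,0)]⟩))

theorem ok312 : chk K t312 l317 = true := by decide +kernel

open Helper55.PC in
noncomputable def t313n : Helper55.PC.Ten :=
  (r
  1310938196872406056490835574973437212591124579158602821125365816957018679052585602839599954034884948269407904650520504799044442732156629500149920028268739637651815528151920237969043929849206012375536880544401932707417176120581072313442220735189543557751450720522570697517667124480968365432620204694693866673388474294204970697892797406450949284403485078890174510933792582338495306714702693753369997020845560845844562622597266264851847709187425496183088088738203055044665593447466135762222914867289537853707567815730522283623469405926181404827401099074393612896223898320807776476923909333092616625257347054427706327942370133883753600947533859673875264)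

noncomputable def t313 : Tre := Helper55.PC.toT t313n

theorem ok313 : chk K t313 r317 = true :=
  Helper55.PC.chkN_sound K t313n r317 (by decide +kernel)

noncomputable def t314 : Tre :=
  (.N [0,0,1,-2] 0 ⟨0,[(15,0)]⟩ ⟨0,[(24,0)]⟩ (.i 1 ⟨1,[(19,0),(19,2),(22,1)]⟩ ⟨0,[(0,0)]⟩))

theorem ok314 : chk K t314 l318 = true := by decide +kernel

noncomputable def t315 : Tre :=
  (.N [0,0,1,-2] 0 ⟨0,[(16,0)]⟩ ⟨0,[(25,0)]⟩ (.i 0 ⟨0,[(0,0)]⟩ ⟨0,[(28,0),(14,1)]⟩))

theorem ok315 : chk K t315 l319 = true := by decide +kernel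

open Helper55.PC in
noncomputable def t316n : Helper55.PC.Ten :=
  (r
  20003329420050141242841185186604149147421241150653228076807945288470259942851097860587420982016685288950495699774378265980333556799670945341482817940820894316004389814974608975288960668665715977699373206034206532495044235964888102491899884756734007563847081285645525022387890514302708181369010334038118061639471714448061471875240058787883510158998995936599618537901095552287643983745263030483480642690476133581268632190719503064158429962963378113764681985197967643466816735519518460488957199639838530274989764857209290152396163866152431909457433075167161073597870950200772720050115184102722233651704525433775087307599131686971034768939170407232)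

noncomputable def t316 : Tre := Helper55.PC.toT t316n

theorem ok316 : chk K t316 r319 = true :=
  Helper55.PC.chkN_sound K t316n r319 (by decide +kernel)

noncomputable def t317 : Tre :=
  (.N [0,1,0,0,5] 0 ⟨0,[(0,0)]⟩ ⟨0,[(2,0)]⟩ (.x (-1) ⟨35,[(15,8),(15,8),(0,33),(36,15)]⟩ ⟨2,[(16,2),
  (16,0),(14,0),(2,2),(0,0)]⟩))

theorem ok317 : chk K t317 l320 = true := by decide +kernel

noncomputable def t318 : Tre :=
  (.N [0,-1,0,0,6] (-1) ⟨0,[(1,0)]⟩ ⟨0,[(0,0)]⟩ (.x 0 ⟨35,[(17,8),(15,8),(0,9),(36,27)]⟩ ⟨11,[(18,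
  20),(16,1),(9,8),(4,1),(2,20),(0,4)]⟩))

theorem ok318 : chk K t318 l322 = true := by decide +kernel

noncomputable def t319 : Tre :=
  (.N [0,0,1,-2] 0 ⟨0,[(15,0)]⟩ ⟨0,[(24,0)]⟩ (.i 1 ⟨1,[(19,0),(19,2),(22,1)]⟩ ⟨0,[(0,0)]⟩))

theorem ok319 : chk K t319 l323 = true := by decide +kernel

noncomputable def t320 : Tre :=
  (.N [0,0,1,-2] 0 ⟨0,[(16,0)]⟩ ⟨0,[(25,0)]⟩ (.i 0 ⟨0,[(0,0)]⟩ ⟨0,[(28,0),(14,1)]⟩))

theorem ok320 : chk K t320 l324 = true := by decide +kernel

open Helper55.PC in
noncomputable def t321n : Helper55.PC.Ten :=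
  (r
  1310938196872406056490835574973437212591124579158602821125365816957018679052585602839599954034884948269407904650520504799044442732156629500149920028268739637651815528151920237969043929849206012375536880544401932707417176120581072313442220735189543557751450720522570697517667124480968365432620204694693866673388474294191387919862210934644248963075127451275461991210483333608306182137360934211661449904938665733344785219853902909679795717196693117401418519017757248683680974311928592578850098865545196151771019079082409423002126593016464816474520610042656902825376132082308769537444357733406257939140835149514536262345673321229418274083149686805635904)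

noncomputable def t321 : Tre := Helper55.PC.toT t321n

theorem ok321 : chk K t321 r324 = true :=
  Helper55.PC.chkN_sound K t321n r324 (by decide +kernel)

noncomputable def t322 : Tre :=
  (.N [0,0,1,-2] 0 ⟨0,[(14,0)]⟩ ⟨0,[(23,0)]⟩ (.i 1 ⟨1,[(18,0),(19,2),(22,1)]⟩ ⟨0,[(0,0)]⟩))

theorem ok322 : chk K t322 l325 = true := by decide +kernel

open Helper55.PC in
noncomputable def t323n : Helper55.PC.Ten :=
  (r
  20003329420050139022033438291976625925219116374489749548831640479634504713294704135796084509188718274015282466158511457251793915302825231113564735250635274759105845206508603270939769426238177557601098690119098547050144596095508886188654882124330021362307605225311881915818380001424008141666579062995628376988753161945718776617548910329085990874570015624538618136594578349939455732858884609317554232313357497827492513508330774175793469337454348738297717652104540662127108956687807913022265764239783381395909277686150074688052483103455425741133432729053551992103213812895916058413380972595171371299939387754698432126136707422811879804410907599680)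

noncomputable def t323 : Tre := Helper55.PC.toT t323n

theorem ok323 : chk K t323 r325 = true :=
  Helper55.PC.chkN_sound K t323n r325 (by decide +kernel)

noncomputable def t324 : Tre :=
  (.N [0,-2,0,0,1] (-1) ⟨0,[(1,0)]⟩ ⟨0,[(0,0)]⟩ (.x 0 ⟨29,[(15,12),(15,12),(16,15),(1,7),(18,9)]⟩
  ⟨1,[(16,0),(26,1),(7,0),(12,0)]⟩))

theorem ok324 : chk K t324 l327 = true := by decide +kernel

noncomputable def t325 : Tre :=
  (.N [0,1,2,2] 0 ⟨0,[(1,0)]⟩ ⟨0,[(0,0)]⟩ (.x (-1) ⟨3,[(13,2),(3,0),(0,1),(7,10),(6,0),(11,1),(10,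
  10),(29,1)]⟩ ⟨7,[(1,5),(7,1),(0,6),(3,6),(1,18),(4,1),(3,2),(10,13),(15,1),(0,1),(4,1),(2,5),(9,
  1)]⟩))

theorem ok325 : chk K t325 l329 = true := by decide +kernel

noncomputable def t326 : Tre :=
  (.N [0,0,1,-2] 0 ⟨0,[(15,0)]⟩ ⟨0,[(24,0)]⟩ (.i 0 ⟨0,[(0,0)]⟩ ⟨0,[(27,0),(14,1)]⟩))

theorem ok326 : chk K t326 l330 = true := by decide +kernel

noncomputable def t327 : Tre :=
  (.N [0,0,1,-2] 0 ⟨0,[(16,0)]⟩ ⟨0,[(25,0)]⟩ (.i 1 ⟨1,[(20,0),(19,2),(22,1)]⟩ ⟨0,[(0,0)]⟩))

theorem ok327 : chk K t327 l331 = true := by decide +kernel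

open Helper55.PC in
noncomputable def t328n : Helper55.PC.Ten :=
  (r
  71066102052164628030231886195753107668091770556357040040519162380745733986298268413047466262916578546149776903473606655275070245871661491436446132667080904978299843447078995099483744911213755781839819257192340019829109628466212031112015778394944904261687002309770608377581479883858642538897210325365521928367379289078590675824224212983039468543994253304962702389808987986896199780753132398870890144888024321944598847520865488349192058045898959684849490106650243966453073453062444809972494921989245512479869316672039964714999362239734518812178517330515458172632693092949204598777950595889983634779012821147901799531170483149218624)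

noncomputable def t328 : Tre := Helper55.PC.toT t328n

theorem ok328 : chk K t328 r331 = true :=
  Helper55.PC.chkN_sound K t328n r331 (by decide +kernel)

noncomputable def t329 : Tre :=
  (.N [0,3,0,0,4] 1 ⟨0,[(1,0)]⟩ ⟨0,[(0,0)]⟩ (.x (-2) ⟨35,[(18,8),(15,8),(0,57),(36,3)]⟩ ⟨19,[(18,0),
  (15,0),(1,9),(14,21),(1,5),(13,9)]⟩))

theorem ok329 : chk K t329 l333 = true := by decide +kernel

noncomputable def t330 : Tre :=
  (.N [0,2,0,1,-2] 1 ⟨0,[(1,0)]⟩ ⟨0,[(0,0)]⟩ (.x (-1) ⟨1,[(21,1),(26,2),(20,1),(9,0)]⟩ ⟨89,[(13,44),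
  (6,30),(7,44),(7,30),(1,44),(14,21),(1,10),(18,39)]⟩))

theorem ok330 : chk K t330 l335 = true := by decide +kernel

noncomputable def t331 : Tre :=
  (.N [0,0,1,-2] 0 ⟨0,[(18,0)]⟩ ⟨0,[(27,0)]⟩ (.i 1 ⟨1,[(22,0),(19,2),(22,1)]⟩ ⟨0,[(0,0)]⟩))

theorem ok331 : chk K t331 l336 = true := by decide +kernel

noncomputable def t332 : Tre :=
  (.N [0,0,1,-2] 0 ⟨0,[(19,0)]⟩ ⟨0,[(28,0)]⟩ (.i 0 ⟨0,[(0,0)]⟩ ⟨0,[(31,0),(14,1)]⟩))

theorem ok332 : chk K t332 l337 = true := by decide +kernel

open Helper55.PC in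
noncomputable def t333n : Helper55.PC.Ten :=
  (r
  71066102052164639865072976763748945332231182911179102653563157798247744416787577979279102269865935983427878077924487889193081874180272610370242739380613174684072350776634131807939587793251489424027256423099671478664761429236027667760438545878723412197794771873468888240313443460498617893467216387090339758627149658268475353635039988432019599061861322871237075388163373230731284380269747453408995211032451381074212358706023155810249506808480920042306008636547472949069592481053838762532952260371651679295816208156808196535033539279219813798627112757516786715237913491727963334492600590828550237083184780127520036026711657664488256)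

noncomputable def t333 : Tre := Helper55.PC.toT t333n

theorem ok333 : chk K t333 r337 = true :=
  Helper55.PC.chkN_sound K t333n r337 (by decide +kernel)

noncomputable def t334 : Tre :=
  (.N [0,-1,0,0,7] (-1) ⟨0,[(1,0)]⟩ ⟨0,[(0,0)]⟩ (.x 0 ⟨35,[(21,8),(15,8),(0,13),(36,31)]⟩ ⟨2,[(22,
  5),(16,0),(9,2),(4,0),(2,5),(0,0)]⟩))

theorem ok334 : chk K t334 l339 = true := by decide +kernel

noncomputable def t335 : Tre :=
  (.N [0,0,1,-2] 0 ⟨0,[(19,0)]⟩ ⟨0,[(28,0)]⟩ (.i 1 ⟨1,[(23,0),(19,2),(22,1)]⟩ ⟨0,[(0,0)]⟩))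

theorem ok335 : chk K t335 l340 = true := by decide +kernel

noncomputable def t336 : Tre :=
  (.N [0,0,1,-2] 0 ⟨0,[(20,0)]⟩ ⟨0,[(29,0)]⟩ (.i 0 ⟨0,[(0,0)]⟩ ⟨0,[(32,0),(14,1)]⟩))

theorem ok336 : chk K t336 l341 = true := by decide +kernel

open Helper55.PC in
noncomputable def t337n : Helper55.PC.Ten :=
  (r
  16546366282777079336816062762383773151111061118385891146596046726097899797749225248952270923616596209990455742217573592537617770228168490821464527592879715178790019156706840655598929582057400349382527548926154083356458358963895332599797607847315671434146303558005820595461287464331476970257212549435505771133749975450136909466994607506779805028648861536489654242782185019361556842337084754113676307986493857127567417073894203360653347040855971580694431022030869123011017572115201691869712040336560466683696006102604759537974275165620428740416533038479131488580184454999591580789565586857165432028998146364503481559294784)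

noncomputable def t337 : Tre := Helper55.PC.toT t337n

theorem ok337 : chk K t337 r341 = true :=
  Helper55.PC.chkN_sound K t337n r341 (by decide +kernel)

noncomputable def t338 : Tre :=
  (.N [0,0,1,-2] 0 ⟨0,[(18,0)]⟩ ⟨0,[(27,0)]⟩ (.i 1 ⟨1,[(22,0),(19,2),(22,1)]⟩ ⟨0,[(0,0)]⟩))

theorem ok338 : chk K t338 l342 = true := by decide +kernel

noncomputable def t339 : Tre :=
  (.N [0,0,1,-2] 0 ⟨0,[(19,0)]⟩ ⟨0,[(28,0)]⟩ (.i 0 ⟨0,[(0,0)]⟩ ⟨0,[(31,0),(14,1)]⟩))

theorem ok339 : chk K t339 l343 = true := by decide +kernel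

open Helper55.PC in
noncomputable def t340n : Helper55.PC.Ten :=
  (r
  16546366282777078418310959069931168419362786903786264046459262677991703249697475223634183004001606251911231800430567909309892420233290784612820190233321202612498856796099369369433165479742803011095909500284975273223771115121438090633703057160303791099645844146081713323826045229365902575173605862954483417840220309973246782372016023000720357171637285484240354617713369454049562282365619518059374656369197634715570152873648813176096525249475250182777867759516398002255181174584008806730891521373831616501539778247524422654442444247473116482944584400156285653131833681654563754208722840172640202092044604321067290128032576)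

noncomputable def t340 : Tre := Helper55.PC.toT t340n

theorem ok340 : chk K t340 r343 = true :=
  Helper55.PC.chkN_sound K t340n r343 (by decide +kernel)

noncomputable def t341 : Tre :=
  (.N [0,0,1,-2] 0 ⟨0,[(15,0)]⟩ ⟨0,[(24,0)]⟩ (.i 1 ⟨1,[(19,0),(19,2),(22,1)]⟩ ⟨0,[(0,0)]⟩))

theorem ok341 : chk K t341 l344 = true := by decide +kernel

open Helper55.PC in
noncomputable def t342n : Helper55.PC.Ten :=
  (r
  252477512859757610233958956791941694248909654772641867900281894652346670179882004592458734841814596553234370843496864024812993809951634664881547326100821752132044211841038733226351872280260042332374872740654075102770926545691018266601716426169691798569154499204300177558640000083650400248407618097975065199571787390162651320134175056207737100008644946994949405461409266333816319764858262177172425101362497829580414455463222214903713373879713180769955616086201987137040065297037850728676867287975513293290239670697208004439254148332845267880310971849555171714904668445227051106656906039833563640146093456496276022080)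

noncomputable def t342 : Tre := Helper55.PC.toT t342n

theorem ok342 : chk K t342 r344 = true :=
  Helper55.PC.chkN_sound K t342n r344 (by decide +kernel)

noncomputable def t343 : Tre :=
  (.N [0,0,1,-2] 0 ⟨0,[(12,0)]⟩ ⟨0,[(21,0)]⟩ (.i 0 ⟨0,[(0,0)]⟩ ⟨0,[(24,0),(14,1)]⟩))

theorem ok343 : chk K t343 l345 = true := by decide +kernel

open Helper55.PC in
noncomputable def t344n : Helper55.PC.Ten :=
  (r
  16546366282777071988779065534105832715496860308743095784954935479431633808553756083420327239726714901070658588855061318873712376838588843947235365736152226203517796338290030449116797311173062771637754075732643307526665048516596501625947818242777587184154277120822918934964400453512888344088941371916789173241223001195404733730431261752153413539486904677694435898990674683256956663020488656739123533134340644442646326340259281236938575107033912774414084064530934958518086824698701165869000613163774450482274260772548456800809176533687979566638186257719194897576358994916206011575315824766369476560646466588624879838569280)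

noncomputable def t344 : Tre := Helper55.PC.toT t344n

theorem ok344 : chk K t344 r345 = true :=
  Helper55.PC.chkN_sound K t344n r345 (by decide +kernel)

noncomputable def t345 : Tre :=
  (.N [0,1,2,0,2] 0 ⟨0,[(1,0)]⟩ ⟨0,[(0,0)]⟩ (.x (-1) ⟨3,[(13,0),(8,5),(6,0),(11,3),(10,1),(21,3),(2,
  1)]⟩ ⟨61,[(1,8),(2,8),(2,17),(4,80),(13,23),(4,8),(0,92),(14,5),(0,16),(4,8),(0,5),(2,30),(11,
  2)]⟩))

theorem ok345 : chk K t345 l347 = true := by decide +kernel

noncomputable def t346 : Tre :=
  (.N [0,0,1,-2] 0 ⟨0,[(11,0)]⟩ ⟨0,[(20,0)]⟩ (.i 1 ⟨1,[(15,0),(19,2),(22,1)]⟩ ⟨0,[(0,0)]⟩))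

theorem ok346 : chk K t346 l348 = true := by decide +kernel

open Helper55.PC in
noncomputable def t347n : Helper55.PC.Ten :=
  (r
  85913645670229979472442075458667552033983845939451372058577975544744300957150085219722504029425589957057826397916035570118526917571808114988639151834469605939405007342156832710204466658721558125229556945213316762230947455489818219789386993936216363100696258424239649367312125778845815042698399978229578472564991707687488548607154296072601594819581073022382818406990139595757984521644403994029219887922356649607950268013751524806414726847126720099994958701065982191212782600156429290989377153816787285128083912248496578363048881276584429987111436654485426302494148076477189827731448568208052866803979930060872036086161453140489625920550967178540144141120)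

noncomputable def t347 : Tre := Helper55.PC.toT t347n

theorem ok347 : chk K t347 r348 = true :=
  Helper55.PC.chkN_sound K t347n r348 (by decide +kernel)

noncomputable def t348 : Tre :=
  (.N [0,-1,0,0,7] (-1) ⟨0,[(1,0)]⟩ ⟨0,[(0,0)]⟩ (.x 0 ⟨35,[(14,8),(15,8),(0,13),(36,31)]⟩ ⟨2,[(15,
  5),(16,0),(9,2),(4,0),(2,5),(0,0)]⟩))

theorem ok348 : chk K t348 l350 = true := by decide +kernel

noncomputable def t349 : Tre :=
  (.N [0,0,1,-2] 0 ⟨0,[(12,0)]⟩ ⟨0,[(21,0)]⟩ (.i 1 ⟨1,[(16,0),(19,2),(22,1)]⟩ ⟨0,[(0,0)]⟩))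

theorem ok349 : chk K t349 l351 = true := by decide +kernel

open Helper55.PC in
noncomputable def t350n : Helper55.PC.Ten :=
  (r
  85913645670229984241590397309978220901593931785017127184898177000714671640584961272779936885086751796737679352425652853989505935772922131741512571092810069313123410636266508999249857011530685066949056411919063537621697038631525141981402174744827550034271934887241433710121520066072159649491869266641491783770265639008323968105027214241577398723708410341554854967743829510500831891121947044564178127271623071454413238937454998005664719216928208013337234621421188258914876874992955626460649032476150706011111549005013248955033221883816153778371532423707601918701610171764748182115022506205470673331927793403181019885942927897039803413501562063023727977280)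

noncomputable def t350 : Tre := Helper55.PC.toT t350n

theorem ok350 : chk K t350 r351 = true :=
  Helper55.PC.chkN_sound K t350n r351 (by decide +kernel)

noncomputable def t351 : Tre :=
  (.N [0,0,1,-2] 0 ⟨0,[(11,0)]⟩ ⟨0,[(20,0)]⟩ (.i 1 ⟨1,[(15,0),(19,2),(22,1)]⟩ ⟨0,[(0,0)]⟩))

theorem ok351 : chk K t351 l352 = true := by decide +kernel

open Helper55.PC in
noncomputable def t352n : Helper55.PC.Ten :=
  (r
  24182541414155535163909082143086433777899202078457596423302060522246278826776403206623797510249587072164817582284581806950996621375898125670214627776723376569432260968584849500243982727182685355778157400413514465344872325693415867218331432712640634640063932535269265349929006686121515250543029666626631261314302409061336322597556715626185851260073293282516008669788852503353409934413680431423524502552415859152832028601261485439865262162172865533204196331330830191723285952199524538870222671337778824362845255746107371092012670657753619223781674115870730087899779655355757532624807905526992858671891597952734331591176846672253369794762350882008415710716216084512645952)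

noncomputable def t352 : Tre := Helper55.PC.toT t352n

theorem ok352 : chk K t352 r352 = true :=
  Helper55.PC.chkN_sound K t352n r352 (by decide +kernel)

open Helper55.PC in
noncomputable def t353n : Helper55.PC.Ten :=
  (i 178471298461474355059678437562812723101827115 (r
  241600997691655468047465661109490003689783005107944586257728390753932112182517159283193640045110996656502784136713499269557789764234564529964816037444682809362297944305000747848031187621016161142864348471039115484354034586082807560872158162663439556937275446648293676945935032878750412589933571716267029082803296179860539886971874648497893352625261519139502419165128242741183755608149546476949271044319052141810186203361125733398524217304690307495455008788539515684752034540779479737181417324751155702749479833510899638698798207233050579063192110699686273191814785732354048298273311978514432575990595232299885910279563803192338871543014580616607082182686278297525785520520321194905566346100328372776388721526464320)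
  (r
  446089152518809170296060185861430636316285365948818246415776265990927759708208398217240577045123873699168391781454802134792478379119584992998111802180805946548373838040046077582786720360924152707848778422975956883756920715911201694929810400215190404421722041783597420291611010815023742222895402353077501518342061873278186218862278365136758969402224700913916351475693848825373432145157713869380808118599329305512573955958878670975419718914985397075981329225686952911433865324386677133781638297623839372880426409896225729150290571289216937623229152895589960639043834576140529274134100144839091211753921879942581974373414657167094586869106582541785415034578473691707598532279874027381859136))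

noncomputable def t353 : Tre := Helper55.PC.toT t353n

theorem ok353 : chk K t353 r0 = true :=
  Helper55.PC.chkN_sound K t353n r0 (by decide +kernel)

theorem cl0 : Clo K (Helper55.TR.GH 1 Helper55.TR.BrU [0,0,0,0,0,1]) r11 :=
  .w [n0,n0,n0,n0,n0,n0,n0,n0,n0,n0,n0,n0,n1,m2] (e' := [n1,n0,n0,n0,n0,n0,n0,n0,n0,n0,n0,n0,m1,n2]) (by decide +kernel) (.t
  t7 ok7) (.t t8 ok8)

theorem cl1 : Clo K (Helper55.TR.GH 1 Helper55.TR.BrU [0,0,0,0,0,1]) l10 :=
  .i [n1,n0,m1,m1,n1,n0,n0,n0,n0,n0,n6] (e' := [n0,n0,n1,n1,m1,n0,n0,n0,n0,n0,m6]) (by decide +kernel)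
  (by decide +kernel) (.t t6 ok6) cl0

theorem cl2 : Clo K (Helper55.TR.GH 1 Helper55.TR.BrU [0,0,0,0,0,1]) r13 :=
  .w [n0,n0,n0,n0,n0,n0,n0,n0,n0,n0,n0,n0,n1,m2] (e' := [n1,n0,n0,n0,n0,n0,n0,n0,n0,n0,n0,n0,m1,n2]) (by decide +kernel) (.t
  t10 ok10) (.t t11 ok11)

theorem cl3 : Clo K (Helper55.TR.GH 1 Helper55.TR.BrU [0,0,0,0,0,1]) r10 :=
  .w [n0,n0,n0,n0,n0,n0,n0,n0,n0,n0,n0,n0,m1,n2] (e' := [n1,n0,n0,n0,n0,n0,n0,n0,n0,n0,n0,n0,n1,m2]) (by decide +kernel) (.t
  t9 ok9) cl2

theorem cl4 : Clo K (Helper55.TR.GH 1 Helper55.TR.BrU [0,0,0,0,0,1]) r9 :=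
  .i [n1,n0,n1,n1,m1,n0,n0,n0,n0,n0,m6] (e' := [n0,n0,m1,m1,n1,n0,n0,n0,n0,n0,n6]) (by decide +kernel)
  (by decide +kernel) cl1 cl3

theorem cl5 : Clo K (Helper55.TR.GH 1 Helper55.TR.BrU [0,0,0,0,0,1]) r8 :=
  .i [n1,n0,m3,m3,n2,n0,n0,n0,n0,n0,n7] (e' := [n0,n0,n3,n3,m2,n0,n0,n0,n0,n0,m7]) (by decide +kernel)
  (by decide +kernel) (.t t5 ok5) cl4

theorem cl6 : Clo K (Helper55.TR.GH 1 Helper55.TR.BrU [0,0,0,0,0,1]) l7 :=
  .i [n1,n0,m1,m1,n0,n0,n0,n0,n0,n0,m5] (e' := [n0,n0,n1,n1,n0,n0,n0,n0,n0,n0,n5]) (by decide +kernel)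
  (by decide +kernel) (.t t4 ok4) cl5

theorem cl7 : Clo K (Helper55.TR.GH 1 Helper55.TR.BrU [0,0,0,0,0,1]) r16 :=
  .w [n0,n0,n0,n0,n0,n0,n0,n0,n0,n0,n0,n0,m1,n2] (e' := [n1,n0,n0,n0,n0,n0,n0,n0,n0,n0,n0,n0,n1,m2]) (by decide +kernel) (.t
  t13 ok13) (.t t14 ok14)

theorem cl8 : Clo K (Helper55.TR.GH 1 Helper55.TR.BrU [0,0,0,0,0,1]) l15 :=
  .i [n1,n0,n1,n1,n0,n0,n0,n1,n0,n1,n1] (e' := [n0,n0,m1,m1,n0,n0,n0,m1,n0,m1,m1]) (by decide +kernel)
  (by decide +kernel) (.t t12 ok12) cl7

theorem cl9 : Clo K (Helper55.TR.GH 1 Helper55.TR.BrU [0,0,0,0,0,1]) r21 :=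
  .w [n0,n0,n0,n0,n0,n0,n0,n0,n0,n0,n0,n0,m1,n2] (e' := [n1,n0,n0,n0,n0,n0,n0,n0,n0,n0,n0,n0,n1,m2]) (by decide +kernel) (.t
  t17 ok17) (.t t18 ok18)

theorem cl10 : Clo K (Helper55.TR.GH 1 Helper55.TR.BrU [0,0,0,0,0,1]) l20 :=
  .i [n1,n0,n1,n1,m1,n0,n0,m1,n0,m1,m2] (e' := [n0,n0,m1,m1,n1,n0,n0,n1,n0,n1,n2]) (by decide +kernel)
  (by decide +kernel) (.t t16 ok16) cl9

theorem cl11 : Clo K (Helper55.TR.GH 1 Helper55.TR.BrU [0,0,0,0,0,1]) r20 :=
  .w [n0,n0,n0,n0,n0,n0,n0,n0,n0,n0,n0,n0,n1,m2] (e' := [n1,n0,n0,n0,n0,n0,n0,n0,n0,n0,n0,n0,m1,n2]) (by decide +kernel) (.t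
  t19 ok19) (.t t20 ok20)

theorem cl12 : Clo K (Helper55.TR.GH 1 Helper55.TR.BrU [0,0,0,0,0,1]) r19 :=
  .i [n1,n0,m1,m1,n1,n0,n0,n1,n0,n1,n2] (e' := [n0,n0,n1,n1,m1,n0,n0,m1,n0,m1,m2]) (by decide +kernel)
  (by decide +kernel) cl10 cl11

theorem cl13 : Clo K (Helper55.TR.GH 1 Helper55.TR.BrU [0,0,0,0,0,1]) l18 :=
  .i [n1,n0,n3,n3,m1,n0,n0,n1,n0,n0,n1] (e' := [n0,n0,m3,m3,n1,n0,n0,m1,n0,n0,m1]) (by decide +kernel)
  (by decide +kernel) (.t t15 ok15) cl12

theorem cl14 : Clo K (Helper55.TR.GH 1 Helper55.TR.BrU [0,0,0,0,0,1]) l24 :=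
  .w [n0,n0,n0,n0,n0,n0,n0,n0,n0,n0,n0,n0,n1,m2] (e' := [n1,n0,n0,n0,n0,n0,n0,n0,n0,n0,n0,n0,m1,n2]) (by decide +kernel) (.t
  t21 ok21) (.t t22 ok22)

theorem cl15 : Clo K (Helper55.TR.GH 1 Helper55.TR.BrU [0,0,0,0,0,1]) r30 :=
  .w [n0,n0,n0,n0,n0,n0,n0,n0,n0,n0,n0,n0,m1,n2] (e' := [n1,n0,n0,n0,n0,n0,n0,n0,n0,n0,n0,n0,n1,m2]) (by decide +kernel) (.t
  t26 ok26) (.t t27 ok27)

theorem cl16 : Clo K (Helper55.TR.GH 1 Helper55.TR.BrU [0,0,0,0,0,1]) r29 :=
  .w [n0,n0,n0,n0,n0,n0,n0,n0,n0,n0,n0,n0,n1,m2] (e' := [n1,n0,n0,n0,n0,n0,n0,n0,n0,n0,n0,n0,m1,n2]) (by decide +kernel) (.t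
  t25 ok25) cl15

theorem cl17 : Clo K (Helper55.TR.GH 1 Helper55.TR.BrU [0,0,0,0,0,1]) l28 :=
  .i [n1,n0,n1,n1,m1,n0,n0,m2,n0,m1,m1] (e' := [n0,n0,m1,m1,n1,n0,n0,n2,n0,n1,n1]) (by decide +kernel)
  (by decide +kernel) (.t t24 ok24) cl16

theorem cl18 : Clo K (Helper55.TR.GH 1 Helper55.TR.BrU [0,0,0,0,0,1]) r32 :=
  .w [n0,n0,n0,n0,n0,n0,n0,n0,n0,n0,n0,n0,n1,m2] (e' := [n1,n0,n0,n0,n0,n0,n0,n0,n0,n0,n0,n0,m1,n2]) (by decide +kernel) (.t
  t29 ok29) (.t t30 ok30)

theorem cl19 : Clo K (Helper55.TR.GH 1 Helper55.TR.BrU [0,0,0,0,0,1]) r28 :=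
  .w [n0,n0,n0,n0,n0,n0,n0,n0,n0,n0,n0,n0,m1,n2] (e' := [n1,n0,n0,n0,n0,n0,n0,n0,n0,n0,n0,n0,n1,m2]) (by decide +kernel) (.t
  t28 ok28) cl18

theorem cl20 : Clo K (Helper55.TR.GH 1 Helper55.TR.BrU [0,0,0,0,0,1]) r27 :=
  .i [n1,n0,m1,m1,n1,n0,n0,n2,n0,n1,n1] (e' := [n0,n0,n1,n1,m1,n0,n0,m2,n0,m1,m1]) (by decide +kernel)
  (by decide +kernel) cl17 cl19

theorem cl21 : Clo K (Helper55.TR.GH 1 Helper55.TR.BrU [0,0,0,0,0,1]) l26 :=
  .i [n1,n0,n1,n1,m1,n0,n0,n0,n0,n0,m5] (e' := [n0,n0,m1,m1,n1,n0,n0,n0,n0,n0,n5]) (by decide +kernel)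
  (by decide +kernel) (.t t23 ok23) cl20

theorem cl22 : Clo K (Helper55.TR.GH 1 Helper55.TR.BrU [0,0,0,0,0,1]) r26 :=
  .w [n0,n0,n0,n0,n0,n0,n0,n0,n0,n0,n0,n0,m1,n2] (e' := [n1,n0,n0,n0,n0,n0,n0,n0,n0,n0,n0,n0,n1,m2]) (by decide +kernel) (.t
  t31 ok31) (.t t32 ok32)

theorem cl23 : Clo K (Helper55.TR.GH 1 Helper55.TR.BrU [0,0,0,0,0,1]) r24 :=
  .i [n1,n0,m1,m1,n1,n0,n0,n0,n0,n0,n5] (e' := [n0,n0,n1,n1,m1,n0,n0,n0,n0,n0,m5]) (by decide +kernel)
  (by decide +kernel) cl21 cl22

theorem cl24 : Clo K (Helper55.TR.GH 1 Helper55.TR.BrU [0,0,0,0,0,1]) r18 :=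
  .i [n1,n0,m1,m1,n0,n0,n0,n0,n0,m2,m2] (e' := [n0,n0,n1,n1,n0,n0,n0,n0,n0,n2,n2]) (by decide +kernel)
  (by decide +kernel) cl14 cl23

theorem cl25 : Clo K (Helper55.TR.GH 1 Helper55.TR.BrU [0,0,0,0,0,1]) r15 :=
  .i [n1,n0,m3,m3,n1,n0,n0,m1,n0,n0,m1] (e' := [n0,n0,n3,n3,m1,n0,n0,n1,n0,n0,n1]) (by decide +kernel)
  (by decide +kernel) cl13 cl24

theorem cl26 : Clo K (Helper55.TR.GH 1 Helper55.TR.BrU [0,0,0,0,0,1]) r7 :=
  .i [n1,n0,m1,m1,n0,n0,n0,m1,n0,m1,m1] (e' := [n0,n0,n1,n1,n0,n0,n0,n1,n0,n1,n1]) (by decide +kernel)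
  (by decide +kernel) cl8 cl25

theorem cl27 : Clo K (Helper55.TR.GH 1 Helper55.TR.BrU [0,0,0,0,0,1]) r6 :=
  .i [n1,n0,n1,n1,n0,n0,n0,n0,n0,n0,n5] (e' := [n0,n0,m1,m1,n0,n0,n0,n0,n0,n0,m5]) (by decide +kernel)
  (by decide +kernel) cl6 cl26

theorem cl28 : Clo K (Helper55.TR.GH 1 Helper55.TR.BrU [0,0,0,0,0,1]) r5 :=
  .i [n1,n0,n1,n1,m1,n0,n0,m1,n0,m2,m1] (e' := [n0,n0,m1,m1,n1,n0,n0,n1,n0,n2,n1]) (by decide +kernel)
  (by decide +kernel) (.t t3 ok3) cl27

theorem cl29 : Clo K (Helper55.TR.GH 1 Helper55.TR.BrU [0,0,0,0,0,1]) r4 :=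
  .i [n1,n0,m2,m2,n1,n0,n0,n0,n0,n0,n1] (e' := [n0,n0,n2,n2,m1,n0,n0,n0,n0,n0,m1]) (by decide +kernel)
  (by decide +kernel) (.t t2 ok2) cl28

theorem cl30 : Clo K (Helper55.TR.GH 1 Helper55.TR.BrU [0,0,0,0,0,1]) l3 :=
  .i [n0,n0,n0,n0,n0,n0,m1,n0,n2] (e' := [n1,n0,n0,n0,n0,n0,n1,n0,m2]) (by decide +kernel) (by decide +kernel) (.t
  t1 ok1) cl29

theorem cl31 : Clo K (Helper55.TR.GH 1 Helper55.TR.BrU [0,0,0,0,0,1]) r41 :=
  .w [n0,n0,n0,n0,n0,n0,n0,n0,n0,n0,n0,n0,n1,m2] (e' := [n1,n0,n0,n0,n0,n0,n0,n0,n0,n0,n0,n0,m1,n2]) (by decide +kernel) (.t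
  t38 ok38) (.t t39 ok39)

theorem cl32 : Clo K (Helper55.TR.GH 1 Helper55.TR.BrU [0,0,0,0,0,1]) r40 :=
  .w [n0,n0,n0,n0,n0,n0,n0,n0,n0,n0,n0,n0,m1,n2] (e' := [n1,n0,n0,n0,n0,n0,n0,n0,n0,n0,n0,n0,n1,m2]) (by decide +kernel) (.t
  t37 ok37) cl31

theorem cl33 : Clo K (Helper55.TR.GH 1 Helper55.TR.BrU [0,0,0,0,0,1]) l39 :=
  .i [n1,n0,m1,m1,n0,n0,n0,m2,n0,m1,n1] (e' := [n0,n0,n1,n1,n0,n0,n0,n2,n0,n1,m1]) (by decide +kernel)
  (by decide +kernel) (.t t36 ok36) cl32

theorem cl34 : Clo K (Helper55.TR.GH 1 Helper55.TR.BrU [0,0,0,0,0,1]) r43 :=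
  .w [n0,n0,n0,n0,n0,n0,n0,n0,n0,n0,n0,n0,n1,m2] (e' := [n1,n0,n0,n0,n0,n0,n0,n0,n0,n0,n0,n0,m1,n2]) (by decide +kernel) (.t
  t41 ok41) (.t t42 ok42)

theorem cl35 : Clo K (Helper55.TR.GH 1 Helper55.TR.BrU [0,0,0,0,0,1]) r39 :=
  .w [n0,n0,n0,n0,n0,n0,n0,n0,n0,n0,n0,n0,m1,n2] (e' := [n1,n0,n0,n0,n0,n0,n0,n0,n0,n0,n0,n0,n1,m2]) (by decide +kernel) (.t
  t40 ok40) cl34

theorem cl36 : Clo K (Helper55.TR.GH 1 Helper55.TR.BrU [0,0,0,0,0,1]) r38 :=
  .i [n1,n0,n1,n1,n0,n0,n0,n2,n0,n1,m1] (e' := [n0,n0,m1,m1,n0,n0,n0,m2,n0,m1,n1]) (by decide +kernel)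
  (by decide +kernel) cl33 cl35

theorem cl37 : Clo K (Helper55.TR.GH 1 Helper55.TR.BrU [0,0,0,0,0,1]) r37 :=
  .i [n1,n0,m3,m3,n2,n0,n0,n0,n0,n0,n7] (e' := [n0,n0,n3,n3,m2,n0,n0,n0,n0,n0,m7]) (by decide +kernel)
  (by decide +kernel) (.t t35 ok35) cl36

theorem cl38 : Clo K (Helper55.TR.GH 1 Helper55.TR.BrU [0,0,0,0,0,1]) r36 :=
  .i [n0,n0,n0,n0,n0,n0,m1,n0,n2] (e' := [n1,n0,n0,n0,n0,n0,n1,n0,m2]) (by decide +kernel) (by decide +kernel) (.t
  t34 ok34) cl37

theorem cl39 : Clo K (Helper55.TR.GH 1 Helper55.TR.BrU [0,0,0,0,0,1]) l35 :=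
  .i [n1,n0,m2,m2,n1,n0,n0,n0,n0,n2,m1] (e' := [n0,n0,n2,n2,m1,n0,n0,n0,n0,m2,n1]) (by decide +kernel)
  (by decide +kernel) (.t t33 ok33) cl38

theorem cl40 : Clo K (Helper55.TR.GH 1 Helper55.TR.BrU [0,0,0,0,0,1]) l49 :=
  .w [n0,n0,n0,n0,n0,n0,n0,n0,n0,n0,n0,n0,m1,n2] (e' := [n1,n0,n0,n0,n0,n0,n0,n0,n0,n0,n0,n0,n1,m2]) (by decide +kernel) (.t
  t45 ok45) (.t t46 ok46)

theorem cl41 : Clo K (Helper55.TR.GH 1 Helper55.TR.BrU [0,0,0,0,0,1]) r57 :=
  .w [n0,n0,n0,n0,n0,n0,n0,n0,n0,n0,n0,n0,m1,n2] (e' := [n1,n0,n0,n0,n0,n0,n0,n0,n0,n0,n0,n0,n1,m2]) (by decide +kernel) (.t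
  t52 ok52) (.t t53 ok53)

theorem cl42 : Clo K (Helper55.TR.GH 1 Helper55.TR.BrU [0,0,0,0,0,1]) r56 :=
  .w [n0,n0,n0,n0,n0,n0,n0,n0,n0,n0,n0,n0,n1,m2] (e' := [n1,n0,n0,n0,n0,n0,n0,n0,n0,n0,n0,n0,m1,n2]) (by decide +kernel) (.t
  t51 ok51) cl41

theorem cl43 : Clo K (Helper55.TR.GH 1 Helper55.TR.BrU [0,0,0,0,0,1]) l55 :=
  .i [n1,n0,n1,n1,m1,n0,n0,m2,n0,m2] (e' := [n0,n0,m1,m1,n1,n0,n0,n2,n0,n2]) (by decide +kernel)
  (by decide +kernel) (.t t50 ok50) cl42

theorem cl44 : Clo K (Helper55.TR.GH 1 Helper55.TR.BrU [0,0,0,0,0,1]) r61 :=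
  .w [n0,n0,n0,n0,n0,n0,n0,n0,n0,n0,n0,n0,n1,m2] (e' := [n1,n0,n0,n0,n0,n0,n0,n0,n0,n0,n0,n0,m1,n2]) (by decide +kernel) (.t
  t56 ok56) (.t t57 ok57)

theorem cl45 : Clo K (Helper55.TR.GH 1 Helper55.TR.BrU [0,0,0,0,0,1]) r60 :=
  .w [n0,n0,n0,n0,n0,n0,n0,n0,n0,n0,n0,n0,m1,n2] (e' := [n1,n0,n0,n0,n0,n0,n0,n0,n0,n0,n0,n0,n1,m2]) (by decide +kernel) (.t
  t55 ok55) cl44

theorem cl46 : Clo K (Helper55.TR.GH 1 Helper55.TR.BrU [0,0,0,0,0,1]) l59 :=
  .i [n1,n0,m4,m4,n1,n0,n0,n0,n0,n0,m7] (e' := [n0,n0,n4,n4,m1,n0,n0,n0,n0,n0,n7]) (by decide +kernel)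
  (by decide +kernel) (.t t54 ok54) cl45

theorem cl47 : Clo K (Helper55.TR.GH 1 Helper55.TR.BrU [0,0,0,0,0,1]) r59 :=
  .w [n0,n0,n0,n0,n0,n0,n0,n0,n0,n0,n0,n0,m1,n2] (e' := [n1,n0,n0,n0,n0,n0,n0,n0,n0,n0,n0,n0,n1,m2]) (by decide +kernel) (.t
  t58 ok58) (.t t59 ok59)

theorem cl48 : Clo K (Helper55.TR.GH 1 Helper55.TR.BrU [0,0,0,0,0,1]) r55 :=
  .i [n1,n0,n4,n4,m1,n0,n0,n0,n0,n0,n7] (e' := [n0,n0,m4,m4,n1,n0,n0,n0,n0,n0,m7]) (by decide +kernel)
  (by decide +kernel) cl46 cl47

theorem cl49 : Clo K (Helper55.TR.GH 1 Helper55.TR.BrU [0,0,0,0,0,1]) r54 :=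
  .i [n1,n0,m1,m1,n1,n0,n0,n2,n0,n2] (e' := [n0,n0,n1,n1,m1,n0,n0,m2,n0,m2]) (by decide +kernel)
  (by decide +kernel) cl43 cl48

theorem cl50 : Clo K (Helper55.TR.GH 1 Helper55.TR.BrU [0,0,0,0,0,1]) r53 :=
  .i [n1,n0,m3,m3,n2,n0,n0,n0,n0,n0,n7] (e' := [n0,n0,n3,n3,m2,n0,n0,n0,n0,n0,m7]) (by decide +kernel)
  (by decide +kernel) (.t t49 ok49) cl49

theorem cl51 : Clo K (Helper55.TR.GH 1 Helper55.TR.BrU [0,0,0,0,0,1]) r52 :=
  .i [n1,n0,m1,m1,n1,n0,n0,n2,n0,n1,n1] (e' := [n0,n0,n1,n1,m1,n0,n0,m2,n0,m1,m1]) (by decide +kernel)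
  (by decide +kernel) (.t t48 ok48) cl50

theorem cl52 : Clo K (Helper55.TR.GH 1 Helper55.TR.BrU [0,0,0,0,0,1]) l51 :=
  .i [n1,n0,n2,n2,m1,n0,n0,n0,n0,n1,m2] (e' := [n0,n0,m2,m2,n1,n0,n0,n0,n0,m1,n2]) (by decide +kernel)
  (by decide +kernel) (.t t47 ok47) cl51

theorem cl53 : Clo K (Helper55.TR.GH 1 Helper55.TR.BrU [0,0,0,0,0,1]) r67 :=
  .w [n0,n0,n0,n0,n0,n0,n0,n0,n0,n0,n0,n0,m1,n2] (e' := [n1,n0,n0,n0,n0,n0,n0,n0,n0,n0,n0,n0,n1,m2]) (by decide +kernel) (.t
  t63 ok63) (.t t64 ok64)

theorem cl54 : Clo K (Helper55.TR.GH 1 Helper55.TR.BrU [0,0,0,0,0,1]) r66 :=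
  .w [n0,n0,n0,n0,n0,n0,n0,n0,n0,n0,n0,n0,n1,m2] (e' := [n1,n0,n0,n0,n0,n0,n0,n0,n0,n0,n0,n0,m1,n2]) (by decide +kernel) (.t
  t62 ok62) cl53

theorem cl55 : Clo K (Helper55.TR.GH 1 Helper55.TR.BrU [0,0,0,0,0,1]) l65 :=
  .i [n1,n0,n1,n1,m1,n0,n0,n0,n0,n0,m5] (e' := [n0,n0,m1,m1,n1,n0,n0,n0,n0,n0,n5]) (by decide +kernel)
  (by decide +kernel) (.t t61 ok61) cl54

theorem cl56 : Clo K (Helper55.TR.GH 1 Helper55.TR.BrU [0,0,0,0,0,1]) r65 :=
  .w [n0,n0,n0,n0,n0,n0,n0,n0,n0,n0,n0,n0,m1,n2] (e' := [n1,n0,n0,n0,n0,n0,n0,n0,n0,n0,n0,n0,n1,m2]) (by decide +kernel) (.t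
  t65 ok65) (.t t66 ok66)

theorem cl57 : Clo K (Helper55.TR.GH 1 Helper55.TR.BrU [0,0,0,0,0,1]) r64 :=
  .i [n1,n0,m1,m1,n1,n0,n0,n0,n0,n0,n5] (e' := [n0,n0,n1,n1,m1,n0,n0,n0,n0,n0,m5]) (by decide +kernel)
  (by decide +kernel) cl55 cl56

theorem cl58 : Clo K (Helper55.TR.GH 1 Helper55.TR.BrU [0,0,0,0,0,1]) r51 :=
  .i [n1,n0,m1,m1,n1,n0,n0,n2,n0,n1,n1] (e' := [n0,n0,n1,n1,m1,n0,n0,m2,n0,m1,m1]) (by decide +kernel)
  (by decide +kernel) (.t t60 ok60) cl57

theorem cl59 : Clo K (Helper55.TR.GH 1 Helper55.TR.BrU [0,0,0,0,0,1]) r49 :=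
  .i [n1,n0,m2,m2,n1,n0,n0,n0,n0,m1,n2] (e' := [n0,n0,n2,n2,m1,n0,n0,n0,n0,n1,m2]) (by decide +kernel)
  (by decide +kernel) cl52 cl58

theorem cl60 : Clo K (Helper55.TR.GH 1 Helper55.TR.BrU [0,0,0,0,0,1]) l48 :=
  .i [n1,n0,m3,m3,n1,n0,n0,m1,n0,n0,m1] (e' := [n0,n0,n3,n3,m1,n0,n0,n1,n0,n0,n1]) (by decide +kernel)
  (by decide +kernel) cl40 cl59

theorem cl61 : Clo K (Helper55.TR.GH 1 Helper55.TR.BrU [0,0,0,0,0,1]) r48 :=
  .w [n0,n0,n0,n0,n0,n0,n0,n0,n0,n0,n0,n0,n1,m2] (e' := [n1,n0,n0,n0,n0,n0,n0,n0,n0,n0,n0,n0,m1,n2]) (by decide +kernel) (.t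
  t67 ok67) (.t t68 ok68)

theorem cl62 : Clo K (Helper55.TR.GH 1 Helper55.TR.BrU [0,0,0,0,0,1]) r47 :=
  .i [n1,n0,n1,n1,m1,n0,n0,m2,n0,m1,m1] (e' := [n0,n0,m1,m1,n1,n0,n0,n2,n0,n1,n1]) (by decide +kernel)
  (by decide +kernel) cl60 cl61

theorem cl63 : Clo K (Helper55.TR.GH 1 Helper55.TR.BrU [0,0,0,0,0,1]) r46 :=
  .i [n0,n0,n0,n0,n0,n0,m1,n0,n2] (e' := [n1,n0,n0,n0,n0,n0,n1,n0,m2]) (by decide +kernel) (by decide +kernel) (.t
  t44 ok44) cl62

theorem cl64 : Clo K (Helper55.TR.GH 1 Helper55.TR.BrU [0,0,0,0,0,1]) l45 :=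
  .i [n1,n0,n0,n0,n0,n0,n0,n0,n0,m1,n1] (e' := [n0,n0,n0,n0,n0,n0,n0,n0,n0,n1,m1]) (by decide +kernel)
  (by decide +kernel) (.t t43 ok43) cl63

theorem cl65 : Clo K (Helper55.TR.GH 1 Helper55.TR.BrU [0,0,0,0,0,1]) r73 :=
  .w [n0,n0,n0,n0,n0,n0,n0,n0,n0,n0,n0,n0,n1,m2] (e' := [n1,n0,n0,n0,n0,n0,n0,n0,n0,n0,n0,n0,m1,n2]) (by decide +kernel) (.t
  t72 ok72) (.t t73 ok73)

theorem cl66 : Clo K (Helper55.TR.GH 1 Helper55.TR.BrU [0,0,0,0,0,1]) r72 :=
  .w [n0,n0,n0,n0,n0,n0,n0,n0,n0,n0,n0,n0,m1,n2] (e' := [n1,n0,n0,n0,n0,n0,n0,n0,n0,n0,n0,n0,n1,m2]) (by decide +kernel) (.t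
  t71 ok71) cl65

theorem cl67 : Clo K (Helper55.TR.GH 1 Helper55.TR.BrU [0,0,0,0,0,1]) r71 :=
  .i [n1,n0,m3,m3,n2,n0,n0,n0,n0,n0,n7] (e' := [n0,n0,n3,n3,m2,n0,n0,n0,n0,n0,m7]) (by decide +kernel)
  (by decide +kernel) (.t t70 ok70) cl66

theorem cl68 : Clo K (Helper55.TR.GH 1 Helper55.TR.BrU [0,0,0,0,0,1]) r45 :=
  .i [n0,n0,n0,n0,n0,n0,m1,n0,n2] (e' := [n1,n0,n0,n0,n0,n0,n1,n0,m2]) (by decide +kernel) (by decide +kernel) (.t
  t69 ok69) cl67

theorem cl69 : Clo K (Helper55.TR.GH 1 Helper55.TR.BrU [0,0,0,0,0,1]) r35 :=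
  .i [n1,n0,n0,n0,n0,n0,n0,n0,n0,n1,m1] (e' := [n0,n0,n0,n0,n0,n0,n0,n0,n0,m1,n1]) (by decide +kernel)
  (by decide +kernel) cl64 cl68

theorem cl70 : Clo K (Helper55.TR.GH 1 Helper55.TR.BrU [0,0,0,0,0,1]) r3 :=
  .i [n1,n0,n2,n2,m1,n0,n0,n0,n0,m2,n1] (e' := [n0,n0,m2,m2,n1,n0,n0,n0,n0,n2,m1]) (by decide +kernel)
  (by decide +kernel) cl39 cl69

theorem cl71 : Clo K (Helper55.TR.GH 1 Helper55.TR.BrU [0,0,0,0,0,1]) l2 :=
  .i [n1,n0,n2,n2,m1,n0,n0,n0,n0,n0,m1] (e' := [n0,n0,m2,m2,n1,n0,n0,n0,n0,n0,n1]) (by decide +kernel)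
  (by decide +kernel) cl30 cl70

theorem cl72 : Clo K (Helper55.TR.GH 1 Helper55.TR.BrU [0,0,0,0,0,1]) r79 :=
  .w [n0,n0,n0,n0,n0,n0,n0,n0,n0,n0,n0,n0,m1,n2] (e' := [n1,n0,n0,n0,n0,n0,n0,n0,n0,n0,n0,n0,n1,m2]) (by decide +kernel) (.t
  t76 ok76) (.t t77 ok77)

theorem cl73 : Clo K (Helper55.TR.GH 1 Helper55.TR.BrU [0,0,0,0,0,1]) r78 :=
  .i [n1,n0,n0,n0,n0,n0,n0,n0,n0,m1,n2] (e' := [n0,n0,n0,n0,n0,n0,n0,n0,n0,n1,m2]) (by decide +kernel)
  (by decide +kernel) (.t t75 ok75) cl72

theorem cl74 : Clo K (Helper55.TR.GH 1 Helper55.TR.BrU [0,0,0,0,0,1]) l77 :=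
  .i [n1,n0,m1,m1,n0,n0,n0,m1,n0,m1,m2] (e' := [n0,n0,n1,n1,n0,n0,n0,n1,n0,n1,n2]) (by decide +kernel)
  (by decide +kernel) (.t t74 ok74) cl73

theorem cl75 : Clo K (Helper55.TR.GH 1 Helper55.TR.BrU [0,0,0,0,0,1]) l81 :=
  .w [n0,n0,n0,n0,n0,n0,n0,n0,n0,n0,n0,n0,m1,n2] (e' := [n1,n0,n0,n0,n0,n0,n0,n0,n0,n0,n0,n0,n1,m2]) (by decide +kernel) (.t
  t78 ok78) (.t t79 ok79)

theorem cl76 : Clo K (Helper55.TR.GH 1 Helper55.TR.BrU [0,0,0,0,0,1]) l83 :=
  .w [n0,n0,n0,n0,n0,n0,n0,n0,n0,n0,n0,n0,m1,n2] (e' := [n1,n0,n0,n0,n0,n0,n0,n0,n0,n0,n0,n0,n1,m2]) (by decide +kernel) (.t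
  t80 ok80) (.t t81 ok81)

theorem cl77 : Clo K (Helper55.TR.GH 1 Helper55.TR.BrU [0,0,0,0,0,1]) r85 :=
  .w [n0,n0,n0,n0,n0,n0,n0,n0,n0,n0,n0,n0,m1,n2] (e' := [n1,n0,n0,n0,n0,n0,n0,n0,n0,n0,n0,n0,n1,m2]) (by decide +kernel) (.t
  t83 ok83) (.t t84 ok84)

theorem cl78 : Clo K (Helper55.TR.GH 1 Helper55.TR.BrU [0,0,0,0,0,1]) r83 :=
  .i [n1,n0,n1,n1,n0,n0,n0,n2,n0,n1,m1] (e' := [n0,n0,m1,m1,n0,n0,n0,m2,n0,m1,n1]) (by decide +kernel)
  (by decide +kernel) (.t t82 ok82) cl77

theorem cl79 : Clo K (Helper55.TR.GH 1 Helper55.TR.BrU [0,0,0,0,0,1]) r81 :=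
  .i [n1,n0,n1,n1,n0,n0,n0,n2,n0,n0,n2] (e' := [n0,n0,m1,m1,n0,n0,n0,m2,n0,n0,m2]) (by decide +kernel)
  (by decide +kernel) cl76 cl78

theorem cl80 : Clo K (Helper55.TR.GH 1 Helper55.TR.BrU [0,0,0,0,0,1]) r77 :=
  .i [n1,n0,m1,m1,n0,n0,n0,m1,n0,m2,m1] (e' := [n0,n0,n1,n1,n0,n0,n0,n1,n0,n2,n1]) (by decide +kernel)
  (by decide +kernel) cl75 cl79

theorem cl81 : Clo K (Helper55.TR.GH 1 Helper55.TR.BrU [0,0,0,0,0,1]) l76 :=
  .i [n1,n0,n0,n0,n0,n0,n0,n0,n0,n1,m2] (e' := [n0,n0,n0,n0,n0,n0,n0,n0,n0,m1,n2]) (by decide +kernel)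
  (by decide +kernel) cl74 cl80

theorem cl82 : Clo K (Helper55.TR.GH 1 Helper55.TR.BrU [0,0,0,0,0,1]) r93 :=
  .w [n0,n0,n0,n0,n0,n0,n0,n0,n0,n0,n0,n0,n1,m2] (e' := [n1,n0,n0,n0,n0,n0,n0,n0,n0,n0,n0,n0,m1,n2]) (by decide +kernel) (.t
  t90 ok90) (.t t91 ok91)

theorem cl83 : Clo K (Helper55.TR.GH 1 Helper55.TR.BrU [0,0,0,0,0,1]) r92 :=
  .w [n0,n0,n0,n0,n0,n0,n0,n0,n0,n0,n0,n0,m1,n2] (e' := [n1,n0,n0,n0,n0,n0,n0,n0,n0,n0,n0,n0,n1,m2]) (by decide +kernel) (.t
  t89 ok89) cl82

theorem cl84 : Clo K (Helper55.TR.GH 1 Helper55.TR.BrU [0,0,0,0,0,1]) r91 :=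
  .i [n0,n0,n0,n0,n0,n0,m1,n0,n2] (e' := [n1,n0,n0,n0,n0,n0,n1,n0,m2]) (by decide +kernel) (by decide +kernel) (.t
  t88 ok88) cl83

theorem cl85 : Clo K (Helper55.TR.GH 1 Helper55.TR.BrU [0,0,0,0,0,1]) l90 :=
  .i [n1,n0,n1,n1,m1,n0,n0,m2,n0,n0,m2] (e' := [n0,n0,m1,m1,n1,n0,n0,n2,n0,n0,n2]) (by decide +kernel)
  (by decide +kernel) (.t t87 ok87) cl84

theorem cl86 : Clo K (Helper55.TR.GH 1 Helper55.TR.BrU [0,0,0,0,0,1]) r90 :=
  .w [n0,n0,n0,n0,n0,n0,n0,n0,n0,n0,n0,n0,m1,n2] (e' := [n1,n0,n0,n0,n0,n0,n0,n0,n0,n0,n0,n0,n1,m2]) (by decide +kernel) (.t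
  t92 ok92) (.t t93 ok93)

theorem cl87 : Clo K (Helper55.TR.GH 1 Helper55.TR.BrU [0,0,0,0,0,1]) r89 :=
  .i [n1,n0,m1,m1,n1,n0,n0,n2,n0,n0,n2] (e' := [n0,n0,n1,n1,m1,n0,n0,m2,n0,n0,m2]) (by decide +kernel)
  (by decide +kernel) cl85 cl86

theorem cl88 : Clo K (Helper55.TR.GH 1 Helper55.TR.BrU [0,0,0,0,0,1]) l88 :=
  .i [n1,n0,m1,m1,n0,n0,n0,n0,n0,n0,m6] (e' := [n0,n0,n1,n1,n0,n0,n0,n0,n0,n0,n6]) (by decide +kernel)
  (by decide +kernel) (.t t86 ok86) cl87

theorem cl89 : Clo K (Helper55.TR.GH 1 Helper55.TR.BrU [0,0,0,0,0,1]) r100 :=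
  .w [n0,n0,n0,n0,n0,n0,n0,n0,n0,n0,n0,n0,m1,n2] (e' := [n1,n0,n0,n0,n0,n0,n0,n0,n0,n0,n0,n0,n1,m2]) (by decide +kernel) (.t
  t97 ok97) (.t t98 ok98)

theorem cl90 : Clo K (Helper55.TR.GH 1 Helper55.TR.BrU [0,0,0,0,0,1]) l99 :=
  .i [n1,n0,n4,n4,m2,n0,n0,n0,n0,n0,m3] (e' := [n0,n0,m4,m4,n2,n0,n0,n0,n0,n0,n3]) (by decide +kernel)
  (by decide +kernel) (.t t96 ok96) cl89

theorem cl91 : Clo K (Helper55.TR.GH 1 Helper55.TR.BrU [0,0,0,0,0,1]) r99 :=
  .w [n0,n0,n0,n0,n0,n0,n0,n0,n0,n0,n0,n0,m1,n2] (e' := [n1,n0,n0,n0,n0,n0,n0,n0,n0,n0,n0,n0,n1,m2]) (by decide +kernel) (.t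
  t99 ok99) (.t t100 ok100)

theorem cl92 : Clo K (Helper55.TR.GH 1 Helper55.TR.BrU [0,0,0,0,0,1]) r98 :=
  .i [n1,n0,m4,m4,n2,n0,n0,n0,n0,n0,n3] (e' := [n0,n0,n4,n4,m2,n0,n0,n0,n0,n0,m3]) (by decide +kernel)
  (by decide +kernel) cl90 cl91

theorem cl93 : Clo K (Helper55.TR.GH 1 Helper55.TR.BrU [0,0,0,0,0,1]) r97 :=
  .i [n0,n0,n0,n0,n0,n0,m1,n0,n2] (e' := [n1,n0,n0,n0,n0,n0,n1,n0,m2]) (by decide +kernel) (by decide +kernel) (.t
  t95 ok95) cl92

theorem cl94 : Clo K (Helper55.TR.GH 1 Helper55.TR.BrU [0,0,0,0,0,1]) l96 :=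
  .i [n1,n0,n1,n1,m1,n0,n0,n0,n0,n0,m7] (e' := [n0,n0,m1,m1,n1,n0,n0,n0,n0,n0,n7]) (by decide +kernel)
  (by decide +kernel) (.t t94 ok94) cl93

theorem cl95 : Clo K (Helper55.TR.GH 1 Helper55.TR.BrU [0,0,0,0,0,1]) r105 :=
  .w [n0,n0,n0,n0,n0,n0,n0,n0,n0,n0,n0,n0,m1,n2] (e' := [n1,n0,n0,n0,n0,n0,n0,n0,n0,n0,n0,n0,n1,m2]) (by decide +kernel) (.t
  t103 ok103) (.t t104 ok104)

theorem cl96 : Clo K (Helper55.TR.GH 1 Helper55.TR.BrU [0,0,0,0,0,1]) l104 :=
  .i [n1,n0,n4,n4,m2,n0,n0,n0,n0,n0,m3] (e' := [n0,n0,m4,m4,n2,n0,n0,n0,n0,n0,n3]) (by decide +kernel)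
  (by decide +kernel) (.t t102 ok102) cl95

theorem cl97 : Clo K (Helper55.TR.GH 1 Helper55.TR.BrU [0,0,0,0,0,1]) r108 :=
  .w [n0,n0,n0,n0,n0,n0,n0,n0,n0,n0,n0,n0,m1,n2] (e' := [n1,n0,n0,n0,n0,n0,n0,n0,n0,n0,n0,n0,n1,m2]) (by decide +kernel) (.t
  t106 ok106) (.t t107 ok107)

theorem cl98 : Clo K (Helper55.TR.GH 1 Helper55.TR.BrU [0,0,0,0,0,1]) l107 :=
  .i [n1,n0,m3,m3,n1,n0,n0,n0,n0,n0,m4] (e' := [n0,n0,n3,n3,m1,n0,n0,n0,n0,n0,n4]) (by decide +kernel)
  (by decide +kernel) (.t t105 ok105) cl97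

theorem cl99 : Clo K (Helper55.TR.GH 1 Helper55.TR.BrU [0,0,0,0,0,1]) r111 :=
  .w [n0,n0,n0,n0,n0,n0,n0,n0,n0,n0,n0,n0,m1,n2] (e' := [n1,n0,n0,n0,n0,n0,n0,n0,n0,n0,n0,n0,n1,m2]) (by decide +kernel) (.t
  t109 ok109) (.t t110 ok110)

theorem cl100 : Clo K (Helper55.TR.GH 1 Helper55.TR.BrU [0,0,0,0,0,1]) l110 :=
  .i [n1,n0,n3,n3,m2,n0,n0,n0,n0,n0,m8] (e' := [n0,n0,m3,m3,n2,n0,n0,n0,n0,n0,n8]) (by decide +kernel)
  (by decide +kernel) (.t t108 ok108) cl99

theorem cl101 : Clo K (Helper55.TR.GH 1 Helper55.TR.BrU [0,0,0,0,0,1]) r114 :=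
  .w [n0,n0,n0,n0,n0,n0,n0,n0,n0,n0,n0,n0,m1,n2] (e' := [n1,n0,n0,n0,n0,n0,n0,n0,n0,n0,n0,n0,n1,m2]) (by decide +kernel) (.t
  t112 ok112) (.t t113 ok113)

theorem cl102 : Clo K (Helper55.TR.GH 1 Helper55.TR.BrU [0,0,0,0,0,1]) l113 :=
  .i [n1,n0,m1,m1,n0,n0,n0,n0,n0,n0,m5] (e' := [n0,n0,n1,n1,n0,n0,n0,n0,n0,n0,n5]) (by decide +kernel)
  (by decide +kernel) (.t t111 ok111) cl101

theorem cl103 : Clo K (Helper55.TR.GH 1 Helper55.TR.BrU [0,0,0,0,0,1]) r113 :=
  .w [n0,n0,n0,n0,n0,n0,n0,n0,n0,n0,n0,n0,m1,n2] (e' := [n1,n0,n0,n0,n0,n0,n0,n0,n0,n0,n0,n0,n1,m2]) (by decide +kernel) (.t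
  t114 ok114) (.t t115 ok115)

theorem cl104 : Clo K (Helper55.TR.GH 1 Helper55.TR.BrU [0,0,0,0,0,1]) r110 :=
  .i [n1,n0,n1,n1,n0,n0,n0,n0,n0,n0,n5] (e' := [n0,n0,m1,m1,n0,n0,n0,n0,n0,n0,m5]) (by decide +kernel)
  (by decide +kernel) cl102 cl103

theorem cl105 : Clo K (Helper55.TR.GH 1 Helper55.TR.BrU [0,0,0,0,0,1]) r107 :=
  .i [n1,n0,m3,m3,n2,n0,n0,n0,n0,n0,n8] (e' := [n0,n0,n3,n3,m2,n0,n0,n0,n0,n0,m8]) (by decide +kernel)
  (by decide +kernel) cl100 cl104

theorem cl106 : Clo K (Helper55.TR.GH 1 Helper55.TR.BrU [0,0,0,0,0,1]) r104 :=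
  .i [n1,n0,n3,n3,m1,n0,n0,n0,n0,n0,n4] (e' := [n0,n0,m3,m3,n1,n0,n0,n0,n0,n0,m4]) (by decide +kernel)
  (by decide +kernel) cl98 cl105

theorem cl107 : Clo K (Helper55.TR.GH 1 Helper55.TR.BrU [0,0,0,0,0,1]) r103 :=
  .i [n1,n0,m4,m4,n2,n0,n0,n0,n0,n0,n3] (e' := [n0,n0,n4,n4,m2,n0,n0,n0,n0,n0,m3]) (by decide +kernel)
  (by decide +kernel) cl96 cl106

theorem cl108 : Clo K (Helper55.TR.GH 1 Helper55.TR.BrU [0,0,0,0,0,1]) r96 :=
  .i [n0,n0,n0,n0,n0,n0,m1,n0,n2] (e' := [n1,n0,n0,n0,n0,n0,n1,n0,m2]) (by decide +kernel) (by decide +kernel) (.t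
  t101 ok101) cl107

theorem cl109 : Clo K (Helper55.TR.GH 1 Helper55.TR.BrU [0,0,0,0,0,1]) r88 :=
  .i [n1,n0,m1,m1,n1,n0,n0,n0,n0,n0,n7] (e' := [n0,n0,n1,n1,m1,n0,n0,n0,n0,n0,m7]) (by decide +kernel)
  (by decide +kernel) cl94 cl108

theorem cl110 : Clo K (Helper55.TR.GH 1 Helper55.TR.BrU [0,0,0,0,0,1]) r87 :=
  .i [n1,n0,n1,n1,n0,n0,n0,n0,n0,n0,n6] (e' := [n0,n0,m1,m1,n0,n0,n0,n0,n0,n0,m6]) (by decide +kernel)
  (by decide +kernel) cl88 cl109

theorem cl111 : Clo K (Helper55.TR.GH 1 Helper55.TR.BrU [0,0,0,0,0,1]) r76 :=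
  .i [n1,n0,n1,n1,n0,n0,n0,n2,n0,n1,m1] (e' := [n0,n0,m1,m1,n0,n0,n0,m2,n0,m1,n1]) (by decide +kernel)
  (by decide +kernel) (.t t85 ok85) cl110

theorem cl112 : Clo K (Helper55.TR.GH 1 Helper55.TR.BrU [0,0,0,0,0,1]) l75 :=
  .i [n1,n0,n1,n1,n0,n0,n0,n1,n0,n1,n2] (e' := [n0,n0,m1,m1,n0,n0,n0,m1,n0,m1,m2]) (by decide +kernel)
  (by decide +kernel) cl81 cl111

theorem cl113 : Clo K (Helper55.TR.GH 1 Helper55.TR.BrU [0,0,0,0,0,1]) l124 :=
  .w [n0,n0,n0,n0,n0,n0,n0,n0,n0,n0,n0,n0,m1,n2] (e' := [n1,n0,n0,n0,n0,n0,n0,n0,n0,n0,n0,n0,n1,m2]) (by decide +kernel) (.t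
  t120 ok120) (.t t121 ok121)

theorem cl114 : Clo K (Helper55.TR.GH 1 Helper55.TR.BrU [0,0,0,0,0,1]) r128 :=
  .w [n0,n0,n0,n0,n0,n0,n0,n0,n0,n0,n0,n0,m1,n2] (e' := [n1,n0,n0,n0,n0,n0,n0,n0,n0,n0,n0,n0,n1,m2]) (by decide +kernel) (.t
  t124 ok124) (.t t125 ok125)

theorem cl115 : Clo K (Helper55.TR.GH 1 Helper55.TR.BrU [0,0,0,0,0,1]) l127 :=
  .q [n0,m1,n0,n1,n0,n0,m1,m1,n0,n0,n0,n1,m1] (e' := [n0,n1,n0,m1,n0,n0,n1,n1,n0,n0,n0,m1,n1]) (.p false [0,0,1] [1]
  (⟨0,[(24,0)]⟩,⟨0,[(25,0)]⟩) .k 1 (⟨0,[]⟩,⟨0,[]⟩) .k .k) (by decide +kernel) (by decide +kernel)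
  (.t t123 ok123) cl114

theorem cl116 : Clo K (Helper55.TR.GH 1 Helper55.TR.BrU [0,0,0,0,0,1]) r127 :=
  .w [n0,n0,n0,n0,n0,n0,n0,n0,n0,n0,n0,n0,m1,n2] (e' := [n1,n0,n0,n0,n0,n0,n0,n0,n0,n0,n0,n0,n1,m2]) (by decide +kernel) (.t
  t126 ok126) (.t t127 ok127)

theorem cl117 : Clo K (Helper55.TR.GH 1 Helper55.TR.BrU [0,0,0,0,0,1]) r126 :=
  .i [n0,n1,n0,n0,n0,n0,n0,n0,n0,n1] (e' := [n1,m1,n0,n0,n0,n0,n0,n0,n0,m1]) (by decide +kernel) (by decide +kernel)
  cl115 cl116

theorem cl118 : Clo K (Helper55.TR.GH 1 Helper55.TR.BrU [0,0,0,0,0,1]) r124 :=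
  .w [n0,n0,n0,n0,n0,n0,n0,n0,n0,n0,n0,n0,n1,m2] (e' := [n1,n0,n0,n0,n0,n0,n0,n0,n0,n0,n0,n0,m1,n2]) (by decide +kernel) (.t
  t122 ok122) cl117

theorem cl119 : Clo K (Helper55.TR.GH 1 Helper55.TR.BrU [0,0,0,0,0,1]) r123 :=
  .i [n1,n0,n2,n2,m1,n0,n0,m1,n0,n0,n2] (e' := [n0,n0,m2,m2,n1,n0,n0,n1,n0,n0,m2]) (by decide +kernel)
  (by decide +kernel) cl113 cl118

theorem cl120 : Clo K (Helper55.TR.GH 1 Helper55.TR.BrU [0,0,0,0,0,1]) r122 :=
  .i [n1,n0,m2,m2,n1,n0,n0,n0,n0,n2,m1] (e' := [n0,n0,n2,n2,m1,n0,n0,n0,n0,m2,n1]) (by decide +kernel)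
  (by decide +kernel) (.t t119 ok119) cl119

theorem cl121 : Clo K (Helper55.TR.GH 1 Helper55.TR.BrU [0,0,0,0,0,1]) r121 :=
  .i [n1,n0,n1,n1,n0,n0,n0,n2,n0,n1] (e' := [n0,n0,m1,m1,n0,n0,n0,m2,n0,m1]) (by decide +kernel)
  (by decide +kernel) (.t t118 ok118) cl120

theorem cl122 : Clo K (Helper55.TR.GH 1 Helper55.TR.BrU [0,0,0,0,0,1]) l120 :=
  .i [n1,n0,n1,n1,m1,n0,n0,m2,n0,m2] (e' := [n0,n0,m1,m1,n1,n0,n0,n2,n0,n2]) (by decide +kernel)
  (by decide +kernel) (.t t117 ok117) cl121

theorem cl123 : Clo K (Helper55.TR.GH 1 Helper55.TR.BrU [0,0,0,0,0,1]) r134 :=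
  .w [n0,n0,n0,n0,n0,n0,n0,n0,n0,n0,n0,n0,n1,m2] (e' := [n1,n0,n0,n0,n0,n0,n0,n0,n0,n0,n0,n0,m1,n2]) (by decide +kernel) (.t
  t131 ok131) (.t t132 ok132)

theorem cl124 : Clo K (Helper55.TR.GH 1 Helper55.TR.BrU [0,0,0,0,0,1]) r133 :=
  .w [n0,n0,n0,n0,n0,n0,n0,n0,n0,n0,n0,n0,m1,n2] (e' := [n1,n0,n0,n0,n0,n0,n0,n0,n0,n0,n0,n0,n1,m2]) (by decide +kernel) (.t
  t130 ok130) cl123

theorem cl125 : Clo K (Helper55.TR.GH 1 Helper55.TR.BrU [0,0,0,0,0,1]) r132 :=
  .i [n1,n0,m2,m2,n1,n0,n0,n0,n0,n2,m1] (e' := [n0,n0,n2,n2,m1,n0,n0,n0,n0,m2,n1]) (by decide +kernel)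
  (by decide +kernel) (.t t129 ok129) cl124

theorem cl126 : Clo K (Helper55.TR.GH 1 Helper55.TR.BrU [0,0,0,0,0,1]) l131 :=
  .i [n1,n0,n3,n3,m1,n0,n0,n2] (e' := [n0,n0,m3,m3,n1,n0,n0,m2]) (by decide +kernel) (by decide +kernel) (.t
  t128 ok128) cl125

theorem cl127 : Clo K (Helper55.TR.GH 1 Helper55.TR.BrU [0,0,0,0,0,1]) r145 :=
  .w [n0,n0,n0,n0,n0,n0,n0,n0,n0,n0,n0,n0,n1,m2] (e' := [n1,n0,n0,n0,n0,n0,n0,n0,n0,n0,n0,n0,m1,n2]) (by decide +kernel) (.t
  t139 ok139) (.t t140 ok140)

theorem cl128 : Clo K (Helper55.TR.GH 1 Helper55.TR.BrU [0,0,0,0,0,1]) r144 :=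
  .w [n0,n0,n0,n0,n0,n0,n0,n0,n0,n0,n0,n0,m1,n2] (e' := [n1,n0,n0,n0,n0,n0,n0,n0,n0,n0,n0,n0,n1,m2]) (by decide +kernel) (.t
  t138 ok138) cl127

theorem cl129 : Clo K (Helper55.TR.GH 1 Helper55.TR.BrU [0,0,0,0,0,1]) l143 :=
  .i [n1,n0,m1,m1,n0,n0,n0,m2,n0,m2] (e' := [n0,n0,n1,n1,n0,n0,n0,n2,n0,n2]) (by decide +kernel)
  (by decide +kernel) (.t t137 ok137) cl128

theorem cl130 : Clo K (Helper55.TR.GH 1 Helper55.TR.BrU [0,0,0,0,0,1]) l147 :=
  .w [n0,n0,n0,n0,n0,n0,n0,n0,n0,n0,n0,n0,m1,n2] (e' := [n1,n0,n0,n0,n0,n0,n0,n0,n0,n0,n0,n0,n1,m2]) (by decide +kernel) (.t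
  t141 ok141) (.t t142 ok142)

theorem cl131 : Clo K (Helper55.TR.GH 1 Helper55.TR.BrU [0,0,0,0,0,1]) r149 :=
  .w [n0,n0,n0,n0,n0,n0,n0,n0,n0,n0,n0,n0,n1,m2] (e' := [n1,n0,n0,n0,n0,n0,n0,n0,n0,n0,n0,n0,m1,n2]) (by decide +kernel) (.t
  t144 ok144) (.t t145 ok145)

theorem cl132 : Clo K (Helper55.TR.GH 1 Helper55.TR.BrU [0,0,0,0,0,1]) r147 :=
  .w [n0,n0,n0,n0,n0,n0,n0,n0,n0,n0,n0,n0,m1,n2] (e' := [n1,n0,n0,n0,n0,n0,n0,n0,n0,n0,n0,n0,n1,m2]) (by decide +kernel) (.t
  t143 ok143) cl131

theorem cl133 : Clo K (Helper55.TR.GH 1 Helper55.TR.BrU [0,0,0,0,0,1]) r143 :=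
  .i [n1,n0,n4,n4,m2,n0,n0,n0,n0,n0,m3] (e' := [n0,n0,m4,m4,n2,n0,n0,n0,n0,n0,n3]) (by decide +kernel)
  (by decide +kernel) cl130 cl132

theorem cl134 : Clo K (Helper55.TR.GH 1 Helper55.TR.BrU [0,0,0,0,0,1]) r142 :=
  .i [n1,n0,n1,n1,n0,n0,n0,n2,n0,n2] (e' := [n0,n0,m1,m1,n0,n0,n0,m2,n0,m2]) (by decide +kernel)
  (by decide +kernel) cl129 cl133

theorem cl135 : Clo K (Helper55.TR.GH 1 Helper55.TR.BrU [0,0,0,0,0,1]) r141 :=
  .i [n1,n0,m2,m2,n1,n0,n0,n0,n0,n2,m1] (e' := [n0,n0,n2,n2,m1,n0,n0,n0,n0,m2,n1]) (by decide +kernel)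
  (by decide +kernel) (.t t136 ok136) cl134

theorem cl136 : Clo K (Helper55.TR.GH 1 Helper55.TR.BrU [0,0,0,0,0,1]) l140 :=
  .i [n1,n0,n3,n3,m1,n0,n0,n0,n0,n0,n7] (e' := [n0,n0,m3,m3,n1,n0,n0,n0,n0,n0,m7]) (by decide +kernel)
  (by decide +kernel) (.t t135 ok135) cl135

theorem cl137 : Clo K (Helper55.TR.GH 1 Helper55.TR.BrU [0,0,0,0,0,1]) r140 :=
  .w [n0,n0,n0,n0,n0,n0,n0,n0,n0,n0,n0,n0,m1,n2] (e' := [n1,n0,n0,n0,n0,n0,n0,n0,n0,n0,n0,n0,n1,m2]) (by decide +kernel) (.t
  t146 ok146) (.t t147 ok147)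

theorem cl138 : Clo K (Helper55.TR.GH 1 Helper55.TR.BrU [0,0,0,0,0,1]) r139 :=
  .i [n1,n0,m3,m3,n1,n0,n0,n0,n0,n0,m7] (e' := [n0,n0,n3,n3,m1,n0,n0,n0,n0,n0,n7]) (by decide +kernel)
  (by decide +kernel) cl136 cl137

theorem cl139 : Clo K (Helper55.TR.GH 1 Helper55.TR.BrU [0,0,0,0,0,1]) l138 :=
  .i [n1,n0,n0,n0,n0,n0,n0,n0,n0,m1,n2] (e' := [n0,n0,n0,n0,n0,n0,n0,n0,n0,n1,m2]) (by decide +kernel)
  (by decide +kernel) (.t t134 ok134) cl138

theorem cl140 : Clo K (Helper55.TR.GH 1 Helper55.TR.BrU [0,0,0,0,0,1]) r153 :=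
  .w [n0,n0,n0,n0,n0,n0,n0,n0,n0,n0,n0,n0,m1,n2] (e' := [n1,n0,n0,n0,n0,n0,n0,n0,n0,n0,n0,n0,n1,m2]) (by decide +kernel) (.t
  t149 ok149) (.t t150 ok150)

theorem cl141 : Clo K (Helper55.TR.GH 1 Helper55.TR.BrU [0,0,0,0,0,1]) l152 :=
  .i [n1,n0,m1,m1,n0,n0,n0,m2,n0,m1,m1] (e' := [n0,n0,n1,n1,n0,n0,n0,n2,n0,n1,n1]) (by decide +kernel)
  (by decide +kernel) (.t t148 ok148) cl140

theorem cl142 : Clo K (Helper55.TR.GH 1 Helper55.TR.BrU [0,0,0,0,0,1]) r152 :=
  .w [n0,n0,n0,n0,n0,n0,n0,n0,n0,n0,n0,n0,m1,n2] (e' := [n1,n0,n0,n0,n0,n0,n0,n0,n0,n0,n0,n0,n1,m2]) (by decide +kernel) (.t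
  t151 ok151) (.t t152 ok152)

theorem cl143 : Clo K (Helper55.TR.GH 1 Helper55.TR.BrU [0,0,0,0,0,1]) r138 :=
  .i [n1,n0,n1,n1,n0,n0,n0,n2,n0,n1,n1] (e' := [n0,n0,m1,m1,n0,n0,n0,m2,n0,m1,m1]) (by decide +kernel)
  (by decide +kernel) cl141 cl142

theorem cl144 : Clo K (Helper55.TR.GH 1 Helper55.TR.BrU [0,0,0,0,0,1]) r137 :=
  .i [n1,n0,n0,n0,n0,n0,n0,n0,n0,n1,m2] (e' := [n0,n0,n0,n0,n0,n0,n0,n0,n0,m1,n2]) (by decide +kernel)
  (by decide +kernel) cl139 cl143

theorem cl145 : Clo K (Helper55.TR.GH 1 Helper55.TR.BrU [0,0,0,0,0,1]) l136 :=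
  .i [n1,n0,m1,m1,n0,n0,n0,m2,n0,n0,m2] (e' := [n0,n0,n1,n1,n0,n0,n0,n2,n0,n0,n2]) (by decide +kernel)
  (by decide +kernel) (.t t133 ok133) cl144

theorem cl146 : Clo K (Helper55.TR.GH 1 Helper55.TR.BrU [0,0,0,0,0,1]) r158 :=
  .w [n0,n0,n0,n0,n0,n0,n0,n0,n0,n0,n0,n0,m1,n2] (e' := [n1,n0,n0,n0,n0,n0,n0,n0,n0,n0,n0,n0,n1,m2]) (by decide +kernel) (.t
  t155 ok155) (.t t156 ok156)

theorem cl147 : Clo K (Helper55.TR.GH 1 Helper55.TR.BrU [0,0,0,0,0,1]) l157 :=
  .i [n1,n0,n1,n1,m1,n0,n0,n0,n0,n0,m8] (e' := [n0,n0,m1,m1,n1,n0,n0,n0,n0,n0,n8]) (by decide +kernel)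
  (by decide +kernel) (.t t154 ok154) cl146

theorem cl148 : Clo K (Helper55.TR.GH 1 Helper55.TR.BrU [0,0,0,0,0,1]) r157 :=
  .w [n0,n0,n0,n0,n0,n0,n0,n0,n0,n0,n0,n0,m1,n2] (e' := [n1,n0,n0,n0,n0,n0,n0,n0,n0,n0,n0,n0,n1,m2]) (by decide +kernel) (.t
  t157 ok157) (.t t158 ok158)

theorem cl149 : Clo K (Helper55.TR.GH 1 Helper55.TR.BrU [0,0,0,0,0,1]) r156 :=
  .i [n1,n0,m1,m1,n1,n0,n0,n0,n0,n0,n8] (e' := [n0,n0,n1,n1,m1,n0,n0,n0,n0,n0,m8]) (by decide +kernel)
  (by decide +kernel) cl147 cl148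

theorem cl150 : Clo K (Helper55.TR.GH 1 Helper55.TR.BrU [0,0,0,0,0,1]) r136 :=
  .i [n1,n0,m2,m2,n1,n0,n0,n0,n0,n2,m1] (e' := [n0,n0,n2,n2,m1,n0,n0,n0,n0,m2,n1]) (by decide +kernel)
  (by decide +kernel) (.t t153 ok153) cl149

theorem cl151 : Clo K (Helper55.TR.GH 1 Helper55.TR.BrU [0,0,0,0,0,1]) r131 :=
  .i [n1,n0,n1,n1,n0,n0,n0,n2,n0,n0,n2] (e' := [n0,n0,m1,m1,n0,n0,n0,m2,n0,n0,m2]) (by decide +kernel)
  (by decide +kernel) cl145 cl150

theorem cl152 : Clo K (Helper55.TR.GH 1 Helper55.TR.BrU [0,0,0,0,0,1]) r120 :=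
  .i [n1,n0,m3,m3,n1,n0,n0,m2] (e' := [n0,n0,n3,n3,m1,n0,n0,n2]) (by decide +kernel) (by decide +kernel) cl126
  cl151

theorem cl153 : Clo K (Helper55.TR.GH 1 Helper55.TR.BrU [0,0,0,0,0,1]) l119 :=
  .i [n1,n0,m1,m1,n0,n0,n0,m2,n0,m1] (e' := [n0,n0,n1,n1,n0,n0,n0,n2,n0,n1]) (by decide +kernel)
  (by decide +kernel) cl122 cl152

theorem cl154 : Clo K (Helper55.TR.GH 1 Helper55.TR.BrU [0,0,0,0,0,1]) r164 :=
  .w [n0,n0,n0,n0,n0,n0,n0,n0,n0,n0,n0,n0,n1,m2] (e' := [n1,n0,n0,n0,n0,n0,n0,n0,n0,n0,n0,n0,m1,n2]) (by decide +kernel) (.t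
  t162 ok162) (.t t163 ok163)

theorem cl155 : Clo K (Helper55.TR.GH 1 Helper55.TR.BrU [0,0,0,0,0,1]) r163 :=
  .w [n0,n0,n0,n0,n0,n0,n0,n0,n0,n0,n0,n0,m1,n2] (e' := [n1,n0,n0,n0,n0,n0,n0,n0,n0,n0,n0,n0,n1,m2]) (by decide +kernel) (.t
  t161 ok161) cl154

theorem cl156 : Clo K (Helper55.TR.GH 1 Helper55.TR.BrU [0,0,0,0,0,1]) l162 :=
  .i [n1,n0,m1,m1,n1,n0,n0,n0,n0,n0,n6] (e' := [n0,n0,n1,n1,m1,n0,n0,n0,n0,n0,m6]) (by decide +kernel)
  (by decide +kernel) (.t t160 ok160) cl155

theorem cl157 : Clo K (Helper55.TR.GH 1 Helper55.TR.BrU [0,0,0,0,0,1]) r171 :=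
  .w [n0,n0,n0,n0,n0,n0,n0,n0,n0,n0,n0,n0,m1,n2] (e' := [n1,n0,n0,n0,n0,n0,n0,n0,n0,n0,n0,n0,n1,m2]) (by decide +kernel) (.t
  t167 ok167) (.t t168 ok168)

theorem cl158 : Clo K (Helper55.TR.GH 1 Helper55.TR.BrU [0,0,0,0,0,1]) l170 :=
  .i [n1,n0,m1,m1,n1,n0,n0,n0,n0,n0,n8] (e' := [n0,n0,n1,n1,m1,n0,n0,n0,n0,n0,m8]) (by decide +kernel)
  (by decide +kernel) (.t t166 ok166) cl157

theorem cl159 : Clo K (Helper55.TR.GH 1 Helper55.TR.BrU [0,0,0,0,0,1]) r176 :=
  .w [n0,n0,n0,n0,n0,n0,n0,n0,n0,n0,n0,n0,m1,n2] (e' := [n1,n0,n0,n0,n0,n0,n0,n0,n0,n0,n0,n0,n1,m2]) (by decide +kernel) (.t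
  t171 ok171) (.t t172 ok172)

theorem cl160 : Clo K (Helper55.TR.GH 1 Helper55.TR.BrU [0,0,0,0,0,1]) l175 :=
  .i [n1,n0,m1,m1,n0,n0,n0,n0,n0,n0,m8] (e' := [n0,n0,n1,n1,n0,n0,n0,n0,n0,n0,n8]) (by decide +kernel)
  (by decide +kernel) (.t t170 ok170) cl159

theorem cl161 : Clo K (Helper55.TR.GH 1 Helper55.TR.BrU [0,0,0,0,0,1]) r178 :=
  .w [n0,n0,n0,n0,n0,n0,n0,n0,n0,n0,n0,n0,n1,m2] (e' := [n1,n0,n0,n0,n0,n0,n0,n0,n0,n0,n0,n0,m1,n2]) (by decide +kernel) (.t
  t174 ok174) (.t t175 ok175)

theorem cl162 : Clo K (Helper55.TR.GH 1 Helper55.TR.BrU [0,0,0,0,0,1]) r175 :=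
  .w [n0,n0,n0,n0,n0,n0,n0,n0,n0,n0,n0,n0,m1,n2] (e' := [n1,n0,n0,n0,n0,n0,n0,n0,n0,n0,n0,n0,n1,m2]) (by decide +kernel) (.t
  t173 ok173) cl161

theorem cl163 : Clo K (Helper55.TR.GH 1 Helper55.TR.BrU [0,0,0,0,0,1]) r174 :=
  .i [n1,n0,n1,n1,n0,n0,n0,n0,n0,n0,n8] (e' := [n0,n0,m1,m1,n0,n0,n0,n0,n0,n0,m8]) (by decide +kernel)
  (by decide +kernel) cl160 cl162

theorem cl164 : Clo K (Helper55.TR.GH 1 Helper55.TR.BrU [0,0,0,0,0,1]) l173 :=
  .i [n1,n0,m1,m1,n0,n0,n0,n0,n0,n0,m7] (e' := [n0,n0,n1,n1,n0,n0,n0,n0,n0,n0,n7]) (by decide +kernel)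
  (by decide +kernel) (.t t169 ok169) cl163

theorem cl165 : Clo K (Helper55.TR.GH 1 Helper55.TR.BrU [0,0,0,0,0,1]) r180 :=
  .w [n0,n0,n0,n0,n0,n0,n0,n0,n0,n0,n0,n0,n1,m2] (e' := [n1,n0,n0,n0,n0,n0,n0,n0,n0,n0,n0,n0,m1,n2]) (by decide +kernel) (.t
  t177 ok177) (.t t178 ok178)

theorem cl166 : Clo K (Helper55.TR.GH 1 Helper55.TR.BrU [0,0,0,0,0,1]) r173 :=
  .w [n0,n0,n0,n0,n0,n0,n0,n0,n0,n0,n0,n0,m1,n2] (e' := [n1,n0,n0,n0,n0,n0,n0,n0,n0,n0,n0,n0,n1,m2]) (by decide +kernel) (.t
  t176 ok176) cl165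

theorem cl167 : Clo K (Helper55.TR.GH 1 Helper55.TR.BrU [0,0,0,0,0,1]) r170 :=
  .i [n1,n0,n1,n1,n0,n0,n0,n0,n0,n0,n7] (e' := [n0,n0,m1,m1,n0,n0,n0,n0,n0,n0,m7]) (by decide +kernel)
  (by decide +kernel) cl164 cl166

theorem cl168 : Clo K (Helper55.TR.GH 1 Helper55.TR.BrU [0,0,0,0,0,1]) r169 :=
  .i [n1,n0,n1,n1,m1,n0,n0,n0,n0,n0,m8] (e' := [n0,n0,m1,m1,n1,n0,n0,n0,n0,n0,n8]) (by decide +kernel)
  (by decide +kernel) cl158 cl167

theorem cl169 : Clo K (Helper55.TR.GH 1 Helper55.TR.BrU [0,0,0,0,0,1]) l168 :=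
  .i [n1,n0,m1,m1,n1,n0,n0,n2,n0,n1,n1] (e' := [n0,n0,n1,n1,m1,n0,n0,m2,n0,m1,m1]) (by decide +kernel)
  (by decide +kernel) (.t t165 ok165) cl168

theorem cl170 : Clo K (Helper55.TR.GH 1 Helper55.TR.BrU [0,0,0,0,0,1]) r186 :=
  .w [n0,n0,n0,n0,n0,n0,n0,n0,n0,n0,n0,n0,n1,m2] (e' := [n1,n0,n0,n0,n0,n0,n0,n0,n0,n0,n0,n0,m1,n2]) (by decide +kernel) (.t
  t182 ok182) (.t t183 ok183)

theorem cl171 : Clo K (Helper55.TR.GH 1 Helper55.TR.BrU [0,0,0,0,0,1]) r185 :=
  .w [n0,n0,n0,n0,n0,n0,n0,n0,n0,n0,n0,n0,m1,n2] (e' := [n1,n0,n0,n0,n0,n0,n0,n0,n0,n0,n0,n0,n1,m2]) (by decide +kernel) (.t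
  t181 ok181) cl170

theorem cl172 : Clo K (Helper55.TR.GH 1 Helper55.TR.BrU [0,0,0,0,0,1]) l184 :=
  .i [n1,n0,n2,n2,m1,n0,n0,n0,n0,n0,m2] (e' := [n0,n0,m2,m2,n1,n0,n0,n0,n0,n0,n2]) (by decide +kernel)
  (by decide +kernel) (.t t180 ok180) cl171

theorem cl173 : Clo K (Helper55.TR.GH 1 Helper55.TR.BrU [0,0,0,0,0,1]) r190 :=
  .w [n0,n0,n0,n0,n0,n0,n0,n0,n0,n0,n0,n0,n1,m2] (e' := [n1,n0,n0,n0,n0,n0,n0,n0,n0,n0,n0,n0,m1,n2]) (by decide +kernel) (.t
  t186 ok186) (.t t187 ok187)

theorem cl174 : Clo K (Helper55.TR.GH 1 Helper55.TR.BrU [0,0,0,0,0,1]) r189 :=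
  .w [n0,n0,n0,n0,n0,n0,n0,n0,n0,n0,n0,n0,m1,n2] (e' := [n1,n0,n0,n0,n0,n0,n0,n0,n0,n0,n0,n0,n1,m2]) (by decide +kernel) (.t
  t185 ok185) cl173

theorem cl175 : Clo K (Helper55.TR.GH 1 Helper55.TR.BrU [0,0,0,0,0,1]) l188 :=
  .i [n1,n0,n4,n4,m2,n0,n0,n0,n0,n0,m3] (e' := [n0,n0,m4,m4,n2,n0,n0,n0,n0,n0,n3]) (by decide +kernel)
  (by decide +kernel) (.t t184 ok184) cl174

theorem cl176 : Clo K (Helper55.TR.GH 1 Helper55.TR.BrU [0,0,0,0,0,1]) r193 :=
  .w [n0,n0,n0,n0,n0,n0,n0,n0,n0,n0,n0,n0,m1,n2] (e' := [n1,n0,n0,n0,n0,n0,n0,n0,n0,n0,n0,n0,n1,m2]) (by decide +kernel) (.t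
  t189 ok189) (.t t190 ok190)

theorem cl177 : Clo K (Helper55.TR.GH 1 Helper55.TR.BrU [0,0,0,0,0,1]) l192 :=
  .i [n1,n0,n1,n1,m1,n0,n0,n0,n0,n0,m8] (e' := [n0,n0,m1,m1,n1,n0,n0,n0,n0,n0,n8]) (by decide +kernel)
  (by decide +kernel) (.t t188 ok188) cl176

theorem cl178 : Clo K (Helper55.TR.GH 1 Helper55.TR.BrU [0,0,0,0,0,1]) r192 :=
  .w [n0,n0,n0,n0,n0,n0,n0,n0,n0,n0,n0,n0,m1,n2] (e' := [n1,n0,n0,n0,n0,n0,n0,n0,n0,n0,n0,n0,n1,m2]) (by decide +kernel) (.t
  t191 ok191) (.t t192 ok192)

theorem cl179 : Clo K (Helper55.TR.GH 1 Helper55.TR.BrU [0,0,0,0,0,1]) r188 :=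
  .i [n1,n0,m1,m1,n1,n0,n0,n0,n0,n0,n8] (e' := [n0,n0,n1,n1,m1,n0,n0,n0,n0,n0,m8]) (by decide +kernel)
  (by decide +kernel) cl177 cl178

theorem cl180 : Clo K (Helper55.TR.GH 1 Helper55.TR.BrU [0,0,0,0,0,1]) r184 :=
  .i [n1,n0,m4,m4,n2,n0,n0,n0,n0,n0,n3] (e' := [n0,n0,n4,n4,m2,n0,n0,n0,n0,n0,m3]) (by decide +kernel)
  (by decide +kernel) cl175 cl179

theorem cl181 : Clo K (Helper55.TR.GH 1 Helper55.TR.BrU [0,0,0,0,0,1]) r183 :=
  .i [n1,n0,m2,m2,n1,n0,n0,n0,n0,n0,n2] (e' := [n0,n0,n2,n2,m1,n0,n0,n0,n0,n0,m2]) (by decide +kernel)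
  (by decide +kernel) cl172 cl180

theorem cl182 : Clo K (Helper55.TR.GH 1 Helper55.TR.BrU [0,0,0,0,0,1]) l182 :=
  .i [n1,n0,n1,n1,n0,n0,n0,n1,n0,n2,n1] (e' := [n0,n0,m1,m1,n0,n0,n0,m1,n0,m2,m1]) (by decide +kernel)
  (by decide +kernel) (.t t179 ok179) cl181

theorem cl183 : Clo K (Helper55.TR.GH 1 Helper55.TR.BrU [0,0,0,0,0,1]) r202 :=
  .w [n0,n0,n0,n0,n0,n0,n0,n0,n0,n0,n0,n0,m1,n2] (e' := [n1,n0,n0,n0,n0,n0,n0,n0,n0,n0,n0,n0,n1,m2]) (by decide +kernel) (.t
  t197 ok197) (.t t198 ok198)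

theorem cl184 : Clo K (Helper55.TR.GH 1 Helper55.TR.BrU [0,0,0,0,0,1]) r201 :=
  .w [n0,n0,n0,n0,n0,n0,n0,n0,n0,n0,n0,n0,n1,m2] (e' := [n1,n0,n0,n0,n0,n0,n0,n0,n0,n0,n0,n0,m1,n2]) (by decide +kernel) (.t
  t196 ok196) cl183

theorem cl185 : Clo K (Helper55.TR.GH 1 Helper55.TR.BrU [0,0,0,0,0,1]) l200 :=
  .i [n1,n0,m2,m2,n1,n0,n0,n0,n0,n0,n2] (e' := [n0,n0,n2,n2,m1,n0,n0,n0,n0,n0,m2]) (by decide +kernel)
  (by decide +kernel) (.t t195 ok195) cl184

theorem cl186 : Clo K (Helper55.TR.GH 1 Helper55.TR.BrU [0,0,0,0,0,1]) r200 :=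
  .w [n0,n0,n0,n0,n0,n0,n0,n0,n0,n0,n0,n0,m1,n2] (e' := [n1,n0,n0,n0,n0,n0,n0,n0,n0,n0,n0,n0,n1,m2]) (by decide +kernel) (.t
  t199 ok199) (.t t200 ok200)

theorem cl187 : Clo K (Helper55.TR.GH 1 Helper55.TR.BrU [0,0,0,0,0,1]) r199 :=
  .i [n1,n0,n2,n2,m1,n0,n0,n0,n0,n0,m2] (e' := [n0,n0,m2,m2,n1,n0,n0,n0,n0,n0,n2]) (by decide +kernel)
  (by decide +kernel) cl185 cl186

theorem cl188 : Clo K (Helper55.TR.GH 1 Helper55.TR.BrU [0,0,0,0,0,1]) l198 :=
  .i [n1,n0,m1,m1,n0,n0,n0,n0,n0,n0,m8] (e' := [n0,n0,n1,n1,n0,n0,n0,n0,n0,n0,n8]) (by decide +kernel)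
  (by decide +kernel) (.t t194 ok194) cl187

theorem cl189 : Clo K (Helper55.TR.GH 1 Helper55.TR.BrU [0,0,0,0,0,1]) r198 :=
  .w [n0,n0,n0,n0,n0,n0,n0,n0,n0,n0,n0,n0,m1,n2] (e' := [n1,n0,n0,n0,n0,n0,n0,n0,n0,n0,n0,n0,n1,m2]) (by decide +kernel) (.t
  t201 ok201) (.t t202 ok202)

theorem cl190 : Clo K (Helper55.TR.GH 1 Helper55.TR.BrU [0,0,0,0,0,1]) r197 :=
  .i [n1,n0,n1,n1,n0,n0,n0,n0,n0,n0,n8] (e' := [n0,n0,m1,m1,n0,n0,n0,n0,n0,n0,m8]) (by decide +kernel)
  (by decide +kernel) cl188 cl189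

theorem cl191 : Clo K (Helper55.TR.GH 1 Helper55.TR.BrU [0,0,0,0,0,1]) l196 :=
  .i [n1,n0,n0,n0,n0,n0,n0,n0,n0,m1,n2] (e' := [n0,n0,n0,n0,n0,n0,n0,n0,n0,n1,m2]) (by decide +kernel)
  (by decide +kernel) (.t t193 ok193) cl190

theorem cl192 : Clo K (Helper55.TR.GH 1 Helper55.TR.BrU [0,0,0,0,0,1]) r207 :=
  .w [n0,n0,n0,n0,n0,n0,n0,n0,n0,n0,n0,n0,m1,n2] (e' := [n1,n0,n0,n0,n0,n0,n0,n0,n0,n0,n0,n0,n1,m2]) (by decide +kernel) (.t
  t204 ok204) (.t t205 ok205)

theorem cl193 : Clo K (Helper55.TR.GH 1 Helper55.TR.BrU [0,0,0,0,0,1]) l206 :=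
  .i [n1,n0,m1,m1,n0,n0,n0,m2,n0,n0,m2] (e' := [n0,n0,n1,n1,n0,n0,n0,n2,n0,n0,n2]) (by decide +kernel)
  (by decide +kernel) (.t t203 ok203) cl192

theorem cl194 : Clo K (Helper55.TR.GH 1 Helper55.TR.BrU [0,0,0,0,0,1]) r206 :=
  .w [n0,n0,n0,n0,n0,n0,n0,n0,n0,n0,n0,n0,m1,n2] (e' := [n1,n0,n0,n0,n0,n0,n0,n0,n0,n0,n0,n0,n1,m2]) (by decide +kernel) (.t
  t206 ok206) (.t t207 ok207)

theorem cl195 : Clo K (Helper55.TR.GH 1 Helper55.TR.BrU [0,0,0,0,0,1]) r196 :=
  .i [n1,n0,n1,n1,n0,n0,n0,n2,n0,n0,n2] (e' := [n0,n0,m1,m1,n0,n0,n0,m2,n0,n0,m2]) (by decide +kernel)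
  (by decide +kernel) cl193 cl194

theorem cl196 : Clo K (Helper55.TR.GH 1 Helper55.TR.BrU [0,0,0,0,0,1]) r182 :=
  .i [n1,n0,n0,n0,n0,n0,n0,n0,n0,n1,m2] (e' := [n0,n0,n0,n0,n0,n0,n0,n0,n0,m1,n2]) (by decide +kernel)
  (by decide +kernel) cl191 cl195

theorem cl197 : Clo K (Helper55.TR.GH 1 Helper55.TR.BrU [0,0,0,0,0,1]) r168 :=
  .i [n1,n0,m1,m1,n0,n0,n0,m1,n0,m2,m1] (e' := [n0,n0,n1,n1,n0,n0,n0,n1,n0,n2,n1]) (by decide +kernel)
  (by decide +kernel) cl182 cl196

theorem cl198 : Clo K (Helper55.TR.GH 1 Helper55.TR.BrU [0,0,0,0,0,1]) r167 :=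
  .i [n1,n0,n1,n1,m1,n0,n0,m2,n0,m1,m1] (e' := [n0,n0,m1,m1,n1,n0,n0,n2,n0,n1,n1]) (by decide +kernel)
  (by decide +kernel) cl169 cl197

theorem cl199 : Clo K (Helper55.TR.GH 1 Helper55.TR.BrU [0,0,0,0,0,1]) l166 :=
  .i [n1,n0,m3,m3,n1,n0,n0,n0,n0,n0,m5] (e' := [n0,n0,n3,n3,m1,n0,n0,n0,n0,n0,n5]) (by decide +kernel)
  (by decide +kernel) (.t t164 ok164) cl198

theorem cl200 : Clo K (Helper55.TR.GH 1 Helper55.TR.BrU [0,0,0,0,0,1]) r221 :=
  .w [n0,n0,n0,n0,n0,n0,n0,n0,n0,n0,n0,n0,m1,n2] (e' := [n1,n0,n0,n0,n0,n0,n0,n0,n0,n0,n0,n0,n1,m2]) (by decide +kernel) (.t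
  t214 ok214) (.t t215 ok215)

theorem cl201 : Clo K (Helper55.TR.GH 1 Helper55.TR.BrU [0,0,0,0,0,1]) l220 :=
  .i [n1,n0,n3,n3,m2,n0,n0,n0,n0,n0,m8] (e' := [n0,n0,m3,m3,n2,n0,n0,n0,n0,n0,n8]) (by decide +kernel)
  (by decide +kernel) (.t t213 ok213) cl200

theorem cl202 : Clo K (Helper55.TR.GH 1 Helper55.TR.BrU [0,0,0,0,0,1]) r220 :=
  .w [n0,n0,n0,n0,n0,n0,n0,n0,n0,n0,n0,n0,n1,m2] (e' := [n1,n0,n0,n0,n0,n0,n0,n0,n0,n0,n0,n0,m1,n2]) (by decide +kernel) (.t
  t216 ok216) (.t t217 ok217)

theorem cl203 : Clo K (Helper55.TR.GH 1 Helper55.TR.BrU [0,0,0,0,0,1]) r219 :=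
  .i [n1,n0,m3,m3,n2,n0,n0,n0,n0,n0,n8] (e' := [n0,n0,n3,n3,m2,n0,n0,n0,n0,n0,m8]) (by decide +kernel)
  (by decide +kernel) cl201 cl202

theorem cl204 : Clo K (Helper55.TR.GH 1 Helper55.TR.BrU [0,0,0,0,0,1]) l218 :=
  .i [n1,n0,n1,n1,m1,n0,n0,m2,n0,m1,m1] (e' := [n0,n0,m1,m1,n1,n0,n0,n2,n0,n1,n1]) (by decide +kernel)
  (by decide +kernel) (.t t212 ok212) cl203

theorem cl205 : Clo K (Helper55.TR.GH 1 Helper55.TR.BrU [0,0,0,0,0,1]) r224 :=
  .w [n0,n0,n0,n0,n0,n0,n0,n0,n0,n0,n0,n0,n1,m2] (e' := [n1,n0,n0,n0,n0,n0,n0,n0,n0,n0,n0,n0,m1,n2]) (by decide +kernel) (.t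
  t219 ok219) (.t t220 ok220)

theorem cl206 : Clo K (Helper55.TR.GH 1 Helper55.TR.BrU [0,0,0,0,0,1]) r218 :=
  .w [n0,n0,n0,n0,n0,n0,n0,n0,n0,n0,n0,n0,m1,n2] (e' := [n1,n0,n0,n0,n0,n0,n0,n0,n0,n0,n0,n0,n1,m2]) (by decide +kernel) (.t
  t218 ok218) cl205

theorem cl207 : Clo K (Helper55.TR.GH 1 Helper55.TR.BrU [0,0,0,0,0,1]) r217 :=
  .i [n1,n0,m1,m1,n1,n0,n0,n2,n0,n1,n1] (e' := [n0,n0,n1,n1,m1,n0,n0,m2,n0,m1,m1]) (by decide +kernel)
  (by decide +kernel) cl204 cl206

theorem cl208 : Clo K (Helper55.TR.GH 1 Helper55.TR.BrU [0,0,0,0,0,1]) l216 :=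
  .i [n1,n0,m1,m1,n0,n0,n0,m1,n0,m1,m2] (e' := [n0,n0,n1,n1,n0,n0,n0,n1,n0,n1,n2]) (by decide +kernel)
  (by decide +kernel) (.t t211 ok211) cl207

theorem cl209 : Clo K (Helper55.TR.GH 1 Helper55.TR.BrU [0,0,0,0,0,1]) r228 :=
  .w [n0,n0,n0,n0,n0,n0,n0,n0,n0,n0,n0,n0,n1,m2] (e' := [n1,n0,n0,n0,n0,n0,n0,n0,n0,n0,n0,n0,m1,n2]) (by decide +kernel) (.t
  t223 ok223) (.t t224 ok224)

theorem cl210 : Clo K (Helper55.TR.GH 1 Helper55.TR.BrU [0,0,0,0,0,1]) r227 :=
  .w [n0,n0,n0,n0,n0,n0,n0,n0,n0,n0,n0,n0,m1,n2] (e' := [n1,n0,n0,n0,n0,n0,n0,n0,n0,n0,n0,n0,n1,m2]) (by decide +kernel) (.t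
  t222 ok222) cl209

theorem cl211 : Clo K (Helper55.TR.GH 1 Helper55.TR.BrU [0,0,0,0,0,1]) l226 :=
  .i [n1,n0,n3,n3,m2,n0,n0,n0,n0,n0,m8] (e' := [n0,n0,m3,m3,n2,n0,n0,n0,n0,n0,n8]) (by decide +kernel)
  (by decide +kernel) (.t t221 ok221) cl210

theorem cl212 : Clo K (Helper55.TR.GH 1 Helper55.TR.BrU [0,0,0,0,0,1]) r230 :=
  .w [n0,n0,n0,n0,n0,n0,n0,n0,n0,n0,n0,n0,n1,m2] (e' := [n1,n0,n0,n0,n0,n0,n0,n0,n0,n0,n0,n0,m1,n2]) (by decide +kernel) (.t
  t226 ok226) (.t t227 ok227)

theorem cl213 : Clo K (Helper55.TR.GH 1 Helper55.TR.BrU [0,0,0,0,0,1]) r226 :=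
  .w [n0,n0,n0,n0,n0,n0,n0,n0,n0,n0,n0,n0,m1,n2] (e' := [n1,n0,n0,n0,n0,n0,n0,n0,n0,n0,n0,n0,n1,m2]) (by decide +kernel) (.t
  t225 ok225) cl212

theorem cl214 : Clo K (Helper55.TR.GH 1 Helper55.TR.BrU [0,0,0,0,0,1]) r216 :=
  .i [n1,n0,m3,m3,n2,n0,n0,n0,n0,n0,n8] (e' := [n0,n0,n3,n3,m2,n0,n0,n0,n0,n0,m8]) (by decide +kernel)
  (by decide +kernel) cl211 cl213

theorem cl215 : Clo K (Helper55.TR.GH 1 Helper55.TR.BrU [0,0,0,0,0,1]) r215 :=
  .i [n1,n0,n1,n1,n0,n0,n0,n1,n0,n1,n2] (e' := [n0,n0,m1,m1,n0,n0,n0,m1,n0,m1,m2]) (by decide +kernel)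
  (by decide +kernel) cl208 cl214

theorem cl216 : Clo K (Helper55.TR.GH 1 Helper55.TR.BrU [0,0,0,0,0,1]) l214 :=
  .i [n1,n0,n1,n1,n0,n0,n0,n1,n0,n2,n1] (e' := [n0,n0,m1,m1,n0,n0,n0,m1,n0,m2,m1]) (by decide +kernel)
  (by decide +kernel) (.t t210 ok210) cl215

theorem cl217 : Clo K (Helper55.TR.GH 1 Helper55.TR.BrU [0,0,0,0,0,1]) r234 :=
  .w [n0,n0,n0,n0,n0,n0,n0,n0,n0,n0,n0,n0,n1,m2] (e' := [n1,n0,n0,n0,n0,n0,n0,n0,n0,n0,n0,n0,m1,n2]) (by decide +kernel) (.t
  t230 ok230) (.t t231 ok231)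

theorem cl218 : Clo K (Helper55.TR.GH 1 Helper55.TR.BrU [0,0,0,0,0,1]) r233 :=
  .w [n0,n0,n0,n0,n0,n0,n0,n0,n0,n0,n0,n0,m1,n2] (e' := [n1,n0,n0,n0,n0,n0,n0,n0,n0,n0,n0,n0,n1,m2]) (by decide +kernel) (.t
  t229 ok229) cl217

theorem cl219 : Clo K (Helper55.TR.GH 1 Helper55.TR.BrU [0,0,0,0,0,1]) l232 :=
  .i [n1,n0,n3,n3,m2,n0,n0,n0,n0,n0,m8] (e' := [n0,n0,m3,m3,n2,n0,n0,n0,n0,n0,n8]) (by decide +kernel)
  (by decide +kernel) (.t t228 ok228) cl218

theorem cl220 : Clo K (Helper55.TR.GH 1 Helper55.TR.BrU [0,0,0,0,0,1]) r236 :=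
  .w [n0,n0,n0,n0,n0,n0,n0,n0,n0,n0,n0,n0,m1,n2] (e' := [n1,n0,n0,n0,n0,n0,n0,n0,n0,n0,n0,n0,n1,m2]) (by decide +kernel) (.t
  t233 ok233) (.t t234 ok234)

theorem cl221 : Clo K (Helper55.TR.GH 1 Helper55.TR.BrU [0,0,0,0,0,1]) r232 :=
  .w [n0,n0,n0,n0,n0,n0,n0,n0,n0,n0,n0,n0,n1,m2] (e' := [n1,n0,n0,n0,n0,n0,n0,n0,n0,n0,n0,n0,m1,n2]) (by decide +kernel) (.t
  t232 ok232) cl220

theorem cl222 : Clo K (Helper55.TR.GH 1 Helper55.TR.BrU [0,0,0,0,0,1]) r214 :=
  .i [n1,n0,m3,m3,n2,n0,n0,n0,n0,n0,n8] (e' := [n0,n0,n3,n3,m2,n0,n0,n0,n0,n0,m8]) (by decide +kernel)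
  (by decide +kernel) cl219 cl221

theorem cl223 : Clo K (Helper55.TR.GH 1 Helper55.TR.BrU [0,0,0,0,0,1]) r213 :=
  .i [n1,n0,m1,m1,n0,n0,n0,m1,n0,m2,m1] (e' := [n0,n0,n1,n1,n0,n0,n0,n1,n0,n2,n1]) (by decide +kernel)
  (by decide +kernel) cl216 cl222

theorem cl224 : Clo K (Helper55.TR.GH 1 Helper55.TR.BrU [0,0,0,0,0,1]) r212 :=
  .i [n1,n0,m1,m1,n1,n0,n0,n0,n0,n0,n7] (e' := [n0,n0,n1,n1,m1,n0,n0,n0,n0,n0,m7]) (by decide +kernel)
  (by decide +kernel) (.t t209 ok209) cl223

theorem cl225 : Clo K (Helper55.TR.GH 1 Helper55.TR.BrU [0,0,0,0,0,1]) l211 :=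
  .i [n1,n0,n1,n1,m1,n0,n0,m2,n0,n0,m2] (e' := [n0,n0,m1,m1,n1,n0,n0,n2,n0,n0,n2]) (by decide +kernel)
  (by decide +kernel) (.t t208 ok208) cl224

theorem cl226 : Clo K (Helper55.TR.GH 1 Helper55.TR.BrU [0,0,0,0,0,1]) r239 :=
  .w [n0,n0,n0,n0,n0,n0,n0,n0,n0,n0,n0,n0,m1,n2] (e' := [n1,n0,n0,n0,n0,n0,n0,n0,n0,n0,n0,n0,n1,m2]) (by decide +kernel) (.t
  t236 ok236) (.t t237 ok237)

theorem cl227 : Clo K (Helper55.TR.GH 1 Helper55.TR.BrU [0,0,0,0,0,1]) l238 :=
  .i [n1,n0,m3,m3,n1,n0,n0,n0,n0,n0,m4] (e' := [n0,n0,n3,n3,m1,n0,n0,n0,n0,n0,n4]) (by decide +kernel)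
  (by decide +kernel) (.t t235 ok235) cl226

theorem cl228 : Clo K (Helper55.TR.GH 1 Helper55.TR.BrU [0,0,0,0,0,1]) r238 :=
  .w [n0,n0,n0,n0,n0,n0,n0,n0,n0,n0,n0,n0,m1,n2] (e' := [n1,n0,n0,n0,n0,n0,n0,n0,n0,n0,n0,n0,n1,m2]) (by decide +kernel) (.t
  t238 ok238) (.t t239 ok239)

theorem cl229 : Clo K (Helper55.TR.GH 1 Helper55.TR.BrU [0,0,0,0,0,1]) r211 :=
  .i [n1,n0,n3,n3,m1,n0,n0,n0,n0,n0,n4] (e' := [n0,n0,m3,m3,n1,n0,n0,n0,n0,n0,m4]) (by decide +kernel)
  (by decide +kernel) cl227 cl228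

theorem cl230 : Clo K (Helper55.TR.GH 1 Helper55.TR.BrU [0,0,0,0,0,1]) l210 :=
  .i [n1,n0,m1,m1,n1,n0,n0,n2,n0,n0,n2] (e' := [n0,n0,n1,n1,m1,n0,n0,m2,n0,n0,m2]) (by decide +kernel)
  (by decide +kernel) cl225 cl229

theorem cl231 : Clo K (Helper55.TR.GH 1 Helper55.TR.BrU [0,0,0,0,0,1]) r250 :=
  .w [n0,n0,n0,n0,n0,n0,n0,n0,n0,n0,n0,n0,n1,m2] (e' := [n1,n0,n0,n0,n0,n0,n0,n0,n0,n0,n0,n0,m1,n2]) (by decide +kernel) (.t
  t245 ok245) (.t t246 ok246)

theorem cl232 : Clo K (Helper55.TR.GH 1 Helper55.TR.BrU [0,0,0,0,0,1]) r249 :=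
  .w [n0,n0,n0,n0,n0,n0,n0,n0,n0,n0,n0,n0,m1,n2] (e' := [n1,n0,n0,n0,n0,n0,n0,n0,n0,n0,n0,n0,n1,m2]) (by decide +kernel) (.t
  t244 ok244) cl231

theorem cl233 : Clo K (Helper55.TR.GH 1 Helper55.TR.BrU [0,0,0,0,0,1]) l248 :=
  .i [n1,n0,n4,n4,m2,n0,n0,n0,n0,n0,m3] (e' := [n0,n0,m4,m4,n2,n0,n0,n0,n0,n0,n3]) (by decide +kernel)
  (by decide +kernel) (.t t243 ok243) cl232

theorem cl234 : Clo K (Helper55.TR.GH 1 Helper55.TR.BrU [0,0,0,0,0,1]) r252 :=
  .w [n0,n0,n0,n0,n0,n0,n0,n0,n0,n0,n0,n0,m1,n2] (e' := [n1,n0,n0,n0,n0,n0,n0,n0,n0,n0,n0,n0,n1,m2]) (by decide +kernel) (.t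
  t248 ok248) (.t t249 ok249)

theorem cl235 : Clo K (Helper55.TR.GH 1 Helper55.TR.BrU [0,0,0,0,0,1]) r248 :=
  .w [n0,n0,n0,n0,n0,n0,n0,n0,n0,n0,n0,n0,n1,m2] (e' := [n1,n0,n0,n0,n0,n0,n0,n0,n0,n0,n0,n0,m1,n2]) (by decide +kernel) (.t
  t247 ok247) cl234

theorem cl236 : Clo K (Helper55.TR.GH 1 Helper55.TR.BrU [0,0,0,0,0,1]) r247 :=
  .i [n1,n0,m4,m4,n2,n0,n0,n0,n0,n0,n3] (e' := [n0,n0,n4,n4,m2,n0,n0,n0,n0,n0,m3]) (by decide +kernel)
  (by decide +kernel) cl233 cl235

theorem cl237 : Clo K (Helper55.TR.GH 1 Helper55.TR.BrU [0,0,0,0,0,1]) l246 :=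
  .i [n1,n0,n1,n1,m1,n0,n0,m2,n0,n0,m2] (e' := [n0,n0,m1,m1,n1,n0,n0,n2,n0,n0,n2]) (by decide +kernel)
  (by decide +kernel) (.t t242 ok242) cl236

theorem cl238 : Clo K (Helper55.TR.GH 1 Helper55.TR.BrU [0,0,0,0,0,1]) r254 :=
  .w [n0,n0,n0,n0,n0,n0,n0,n0,n0,n0,n0,n0,n1,m2] (e' := [n1,n0,n0,n0,n0,n0,n0,n0,n0,n0,n0,n0,m1,n2]) (by decide +kernel) (.t
  t251 ok251) (.t t252 ok252)

theorem cl239 : Clo K (Helper55.TR.GH 1 Helper55.TR.BrU [0,0,0,0,0,1]) r246 :=
  .w [n0,n0,n0,n0,n0,n0,n0,n0,n0,n0,n0,n0,m1,n2] (e' := [n1,n0,n0,n0,n0,n0,n0,n0,n0,n0,n0,n0,n1,m2]) (by decide +kernel) (.t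
  t250 ok250) cl238

theorem cl240 : Clo K (Helper55.TR.GH 1 Helper55.TR.BrU [0,0,0,0,0,1]) r245 :=
  .i [n1,n0,m1,m1,n1,n0,n0,n2,n0,n0,n2] (e' := [n0,n0,n1,n1,m1,n0,n0,m2,n0,n0,m2]) (by decide +kernel)
  (by decide +kernel) cl237 cl239

theorem cl241 : Clo K (Helper55.TR.GH 1 Helper55.TR.BrU [0,0,0,0,0,1]) r244 :=
  .i [n1,n0,m1,m1,n0,n0,n0,n0,n0,n0,m6] (e' := [n0,n0,n1,n1,n0,n0,n0,n0,n0,n0,n6]) (by decide +kernel)
  (by decide +kernel) (.t t241 ok241) cl240

theorem cl242 : Clo K (Helper55.TR.GH 1 Helper55.TR.BrU [0,0,0,0,0,1]) l243 :=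
  .i [n1,n0,n1,n1,n0,n0,n0,n1,n0,n1,n2] (e' := [n0,n0,m1,m1,n0,n0,n0,m1,n0,m1,m2]) (by decide +kernel)
  (by decide +kernel) (.t t240 ok240) cl241

theorem cl243 : Clo K (Helper55.TR.GH 1 Helper55.TR.BrU [0,0,0,0,0,1]) l258 :=
  .w [n0,n0,n0,n0,n0,n0,n0,n0,n0,n0,n0,n0,m1,n2] (e' := [n1,n0,n0,n0,n0,n0,n0,n0,n0,n0,n0,n0,n1,m2]) (by decide +kernel) (.t
  t254 ok254) (.t t255 ok255)

theorem cl244 : Clo K (Helper55.TR.GH 1 Helper55.TR.BrU [0,0,0,0,0,1]) r262 :=
  .w [n0,n0,n0,n0,n0,n0,n0,n0,n0,n0,n0,n0,n1,m2] (e' := [n1,n0,n0,n0,n0,n0,n0,n0,n0,n0,n0,n0,m1,n2]) (by decide +kernel) (.t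
  t258 ok258) (.t t259 ok259)

theorem cl245 : Clo K (Helper55.TR.GH 1 Helper55.TR.BrU [0,0,0,0,0,1]) r261 :=
  .w [n0,n0,n0,n0,n0,n0,n0,n0,n0,n0,n0,n0,m1,n2] (e' := [n1,n0,n0,n0,n0,n0,n0,n0,n0,n0,n0,n0,n1,m2]) (by decide +kernel) (.t
  t257 ok257) cl244

theorem cl246 : Clo K (Helper55.TR.GH 1 Helper55.TR.BrU [0,0,0,0,0,1]) l260 :=
  .i [n1,n0,n1,n1,m1,n0,n0,n0,n0,n0,m8] (e' := [n0,n0,m1,m1,n1,n0,n0,n0,n0,n0,n8]) (by decide +kernel)
  (by decide +kernel) (.t t256 ok256) cl245

theorem cl247 : Clo K (Helper55.TR.GH 1 Helper55.TR.BrU [0,0,0,0,0,1]) l264 :=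
  .w [n0,n0,n0,n0,n0,n0,n0,n0,n0,n0,n0,n0,m1,n2] (e' := [n1,n0,n0,n0,n0,n0,n0,n0,n0,n0,n0,n0,n1,m2]) (by decide +kernel) (.t
  t260 ok260) (.t t261 ok261)

theorem cl248 : Clo K (Helper55.TR.GH 1 Helper55.TR.BrU [0,0,0,0,0,1]) r264 :=
  .w [n0,n0,n0,n0,n0,n0,n0,n0,n0,n0,n0,n0,m1,n2] (e' := [n1,n0,n0,n0,n0,n0,n0,n0,n0,n0,n0,n0,n1,m2]) (by decide +kernel) (.t
  t262 ok262) (.t t263 ok263)

theorem cl249 : Clo K (Helper55.TR.GH 1 Helper55.TR.BrU [0,0,0,0,0,1]) r260 :=
  .i [n1,n0,m4,m4,n2,n0,n0,n0,n0,n0,n3] (e' := [n0,n0,n4,n4,m2,n0,n0,n0,n0,n0,m3]) (by decide +kernel)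
  (by decide +kernel) cl247 cl248

theorem cl250 : Clo K (Helper55.TR.GH 1 Helper55.TR.BrU [0,0,0,0,0,1]) r258 :=
  .i [n1,n0,m1,m1,n1,n0,n0,n0,n0,n0,n8] (e' := [n0,n0,n1,n1,m1,n0,n0,n0,n0,n0,m8]) (by decide +kernel)
  (by decide +kernel) cl246 cl249

theorem cl251 : Clo K (Helper55.TR.GH 1 Helper55.TR.BrU [0,0,0,0,0,1]) l257 :=
  .i [n1,n0,m1,m1,n1,n0,n0,n2,n0,n1,n1] (e' := [n0,n0,n1,n1,m1,n0,n0,m2,n0,m1,m1]) (by decide +kernel)
  (by decide +kernel) cl243 cl250

theorem cl252 : Clo K (Helper55.TR.GH 1 Helper55.TR.BrU [0,0,0,0,0,1]) r257 :=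
  .w [n0,n0,n0,n0,n0,n0,n0,n0,n0,n0,n0,n0,m1,n2] (e' := [n1,n0,n0,n0,n0,n0,n0,n0,n0,n0,n0,n0,n1,m2]) (by decide +kernel) (.t
  t264 ok264) (.t t265 ok265)

theorem cl253 : Clo K (Helper55.TR.GH 1 Helper55.TR.BrU [0,0,0,0,0,1]) r256 :=
  .i [n1,n0,m1,m1,n0,n0,n0,m1,n0,m2,m1] (e' := [n0,n0,n1,n1,n0,n0,n0,n1,n0,n2,n1]) (by decide +kernel)
  (by decide +kernel) cl251 cl252

theorem cl254 : Clo K (Helper55.TR.GH 1 Helper55.TR.BrU [0,0,0,0,0,1]) r243 :=
  .i [n1,n0,m1,m1,n0,n0,n0,n0,n0,n0,m6] (e' := [n0,n0,n1,n1,n0,n0,n0,n0,n0,n0,n6]) (by decide +kernel)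
  (by decide +kernel) (.t t253 ok253) cl253

theorem cl255 : Clo K (Helper55.TR.GH 1 Helper55.TR.BrU [0,0,0,0,0,1]) l242 :=
  .i [n1,n0,m1,m1,n0,n0,n0,m1,n0,m1,m2] (e' := [n0,n0,n1,n1,n0,n0,n0,n1,n0,n1,n2]) (by decide +kernel)
  (by decide +kernel) cl242 cl254

theorem cl256 : Clo K (Helper55.TR.GH 1 Helper55.TR.BrU [0,0,0,0,0,1]) l268 :=
  .w [n0,n0,n0,n0,n0,n0,n0,n0,n0,n0,n0,n0,m1,n2] (e' := [n1,n0,n0,n0,n0,n0,n0,n0,n0,n0,n0,n0,n1,m2]) (by decide +kernel) (.t
  t266 ok266) (.t t267 ok267)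

theorem cl257 : Clo K (Helper55.TR.GH 1 Helper55.TR.BrU [0,0,0,0,0,1]) r273 :=
  .w [n0,n0,n0,n0,n0,n0,n0,n0,n0,n0,n0,n0,m1,n2] (e' := [n1,n0,n0,n0,n0,n0,n0,n0,n0,n0,n0,n0,n1,m2]) (by decide +kernel) (.t
  t270 ok270) (.t t271 ok271)

theorem cl258 : Clo K (Helper55.TR.GH 1 Helper55.TR.BrU [0,0,0,0,0,1]) l272 :=
  .i [n1,n0,n4,n4,m2,n0,n0,n0,n0,n0,m3] (e' := [n0,n0,m4,m4,n2,n0,n0,n0,n0,n0,n3]) (by decide +kernel)
  (by decide +kernel) (.t t269 ok269) cl257

theorem cl259 : Clo K (Helper55.TR.GH 1 Helper55.TR.BrU [0,0,0,0,0,1]) r276 :=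
  .w [n0,n0,n0,n0,n0,n0,n0,n0,n0,n0,n0,n0,m1,n2] (e' := [n1,n0,n0,n0,n0,n0,n0,n0,n0,n0,n0,n0,n1,m2]) (by decide +kernel) (.t
  t273 ok273) (.t t274 ok274)

theorem cl260 : Clo K (Helper55.TR.GH 1 Helper55.TR.BrU [0,0,0,0,0,1]) l275 :=
  .i [n1,n0,m1,m1,n0,n0,n0,m1,n0,m2,m1] (e' := [n0,n0,n1,n1,n0,n0,n0,n1,n0,n2,n1]) (by decide +kernel)
  (by decide +kernel) (.t t272 ok272) cl259

theorem cl261 : Clo K (Helper55.TR.GH 1 Helper55.TR.BrU [0,0,0,0,0,1]) r275 :=
  .w [n0,n0,n0,n0,n0,n0,n0,n0,n0,n0,n0,n0,m1,n2] (e' := [n1,n0,n0,n0,n0,n0,n0,n0,n0,n0,n0,n0,n1,m2]) (by decide +kernel) (.t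
  t275 ok275) (.t t276 ok276)

theorem cl262 : Clo K (Helper55.TR.GH 1 Helper55.TR.BrU [0,0,0,0,0,1]) r272 :=
  .i [n1,n0,n1,n1,n0,n0,n0,n1,n0,n2,n1] (e' := [n0,n0,m1,m1,n0,n0,n0,m1,n0,m2,m1]) (by decide +kernel)
  (by decide +kernel) cl260 cl261

theorem cl263 : Clo K (Helper55.TR.GH 1 Helper55.TR.BrU [0,0,0,0,0,1]) r271 :=
  .i [n1,n0,m4,m4,n2,n0,n0,n0,n0,n0,n3] (e' := [n0,n0,n4,n4,m2,n0,n0,n0,n0,n0,m3]) (by decide +kernel)
  (by decide +kernel) cl258 cl262

theorem cl264 : Clo K (Helper55.TR.GH 1 Helper55.TR.BrU [0,0,0,0,0,1]) l270 :=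
  .i [n1,n0,n1,n1,m1,n0,n0,m2,n0,m1,m1] (e' := [n0,n0,m1,m1,n1,n0,n0,n2,n0,n1,n1]) (by decide +kernel)
  (by decide +kernel) (.t t268 ok268) cl263

theorem cl265 : Clo K (Helper55.TR.GH 1 Helper55.TR.BrU [0,0,0,0,0,1]) r270 :=
  .w [n0,n0,n0,n0,n0,n0,n0,n0,n0,n0,n0,n0,m1,n2] (e' := [n1,n0,n0,n0,n0,n0,n0,n0,n0,n0,n0,n0,n1,m2]) (by decide +kernel) (.t
  t277 ok277) (.t t278 ok278)

theorem cl266 : Clo K (Helper55.TR.GH 1 Helper55.TR.BrU [0,0,0,0,0,1]) r268 :=
  .i [n1,n0,m1,m1,n1,n0,n0,n2,n0,n1,n1] (e' := [n0,n0,n1,n1,m1,n0,n0,m2,n0,m1,m1]) (by decide +kernel)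
  (by decide +kernel) cl264 cl265

theorem cl267 : Clo K (Helper55.TR.GH 1 Helper55.TR.BrU [0,0,0,0,0,1]) r242 :=
  .i [n1,n0,m1,m1,n0,n0,n0,m1,n0,m1,m2] (e' := [n0,n0,n1,n1,n0,n0,n0,n1,n0,n1,n2]) (by decide +kernel)
  (by decide +kernel) cl256 cl266

theorem cl268 : Clo K (Helper55.TR.GH 1 Helper55.TR.BrU [0,0,0,0,0,1]) r210 :=
  .i [n1,n0,n1,n1,n0,n0,n0,n0,n0,n0,n6] (e' := [n0,n0,m1,m1,n0,n0,n0,n0,n0,n0,m6]) (by decide +kernel)
  (by decide +kernel) cl255 cl267

theorem cl269 : Clo K (Helper55.TR.GH 1 Helper55.TR.BrU [0,0,0,0,0,1]) r166 :=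
  .i [n1,n0,n1,n1,m1,n0,n0,n0,n0,n0,m7] (e' := [n0,n0,m1,m1,n1,n0,n0,n0,n0,n0,n7]) (by decide +kernel)
  (by decide +kernel) cl230 cl268

theorem cl270 : Clo K (Helper55.TR.GH 1 Helper55.TR.BrU [0,0,0,0,0,1]) r162 :=
  .i [n1,n0,n3,n3,m1,n0,n0,n0,n0,n0,n5] (e' := [n0,n0,m3,m3,n1,n0,n0,n0,n0,n0,m5]) (by decide +kernel)
  (by decide +kernel) cl199 cl269

theorem cl271 : Clo K (Helper55.TR.GH 1 Helper55.TR.BrU [0,0,0,0,0,1]) r161 :=
  .i [n1,n0,n1,n1,m1,n0,n0,n0,n0,n0,m6] (e' := [n0,n0,m1,m1,n1,n0,n0,n0,n0,n0,n6]) (by decide +kernel)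
  (by decide +kernel) cl156 cl270

theorem cl272 : Clo K (Helper55.TR.GH 1 Helper55.TR.BrU [0,0,0,0,0,1]) r119 :=
  .i [n1,n0,m2,m2,n1,n0,n0,n0,n0,n2,m1] (e' := [n0,n0,n2,n2,m1,n0,n0,n0,n0,m2,n1]) (by decide +kernel)
  (by decide +kernel) (.t t159 ok159) cl271

theorem cl273 : Clo K (Helper55.TR.GH 1 Helper55.TR.BrU [0,0,0,0,0,1]) l118 :=
  .i [n1,n0,m1,m1,n1,n0,n0,n2,n0,n2] (e' := [n0,n0,n1,n1,m1,n0,n0,m2,n0,m2]) (by decide +kernel)
  (by decide +kernel) cl153 cl272

theorem cl274 : Clo K (Helper55.TR.GH 1 Helper55.TR.BrU [0,0,0,0,0,1]) r288 :=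
  .w [n0,n0,n0,n0,n0,n0,n0,n0,n0,n0,n0,n0,m1,n2] (e' := [n1,n0,n0,n0,n0,n0,n0,n0,n0,n0,n0,n0,n1,m2]) (by decide +kernel) (.t
  t284 ok284) (.t t285 ok285)

theorem cl275 : Clo K (Helper55.TR.GH 1 Helper55.TR.BrU [0,0,0,0,0,1]) r287 :=
  .w [n0,n0,n0,n0,n0,n0,n0,n0,n0,n0,n0,n0,n1,m2] (e' := [n1,n0,n0,n0,n0,n0,n0,n0,n0,n0,n0,n0,m1,n2]) (by decide +kernel) (.t
  t283 ok283) cl274

theorem cl276 : Clo K (Helper55.TR.GH 1 Helper55.TR.BrU [0,0,0,0,0,1]) l286 :=
  .i [n1,n0,m1,m1,n0,n0,n0,n0,n0,n0,m5] (e' := [n0,n0,n1,n1,n0,n0,n0,n0,n0,n0,n5]) (by decide +kernel)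
  (by decide +kernel) (.t t282 ok282) cl275

theorem cl277 : Clo K (Helper55.TR.GH 1 Helper55.TR.BrU [0,0,0,0,0,1]) r286 :=
  .w [n0,n0,n0,n0,n0,n0,n0,n0,n0,n0,n0,n0,m1,n2] (e' := [n1,n0,n0,n0,n0,n0,n0,n0,n0,n0,n0,n0,n1,m2]) (by decide +kernel) (.t
  t286 ok286) (.t t287 ok287)

theorem cl278 : Clo K (Helper55.TR.GH 1 Helper55.TR.BrU [0,0,0,0,0,1]) r285 :=
  .i [n1,n0,n1,n1,n0,n0,n0,n0,n0,n0,n5] (e' := [n0,n0,m1,m1,n0,n0,n0,n0,n0,n0,m5]) (by decide +kernel)
  (by decide +kernel) cl276 cl277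

theorem cl279 : Clo K (Helper55.TR.GH 1 Helper55.TR.BrU [0,0,0,0,0,1]) l284 :=
  .i [n1,n0,m1,m1,n0,n0,n0,m1,n0,m1,m2] (e' := [n0,n0,n1,n1,n0,n0,n0,n1,n0,n1,n2]) (by decide +kernel)
  (by decide +kernel) (.t t281 ok281) cl278

theorem cl280 : Clo K (Helper55.TR.GH 1 Helper55.TR.BrU [0,0,0,0,0,1]) r295 :=
  .w [n0,n0,n0,n0,n0,n0,n0,n0,n0,n0,n0,n0,n1,m2] (e' := [n1,n0,n0,n0,n0,n0,n0,n0,n0,n0,n0,n0,m1,n2]) (by decide +kernel) (.t
  t291 ok291) (.t t292 ok292)

theorem cl281 : Clo K (Helper55.TR.GH 1 Helper55.TR.BrU [0,0,0,0,0,1]) r294 :=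
  .w [n0,n0,n0,n0,n0,n0,n0,n0,n0,n0,n0,n0,m1,n2] (e' := [n1,n0,n0,n0,n0,n0,n0,n0,n0,n0,n0,n0,n1,m2]) (by decide +kernel) (.t
  t290 ok290) cl280

theorem cl282 : Clo K (Helper55.TR.GH 1 Helper55.TR.BrU [0,0,0,0,0,1]) l293 :=
  .i [n1,n0,n1,n1,m1,n0,n0,n0,n0,n0,m6] (e' := [n0,n0,m1,m1,n1,n0,n0,n0,n0,n0,n6]) (by decide +kernel)
  (by decide +kernel) (.t t289 ok289) cl281

theorem cl283 : Clo K (Helper55.TR.GH 1 Helper55.TR.BrU [0,0,0,0,0,1]) r297 :=
  .w [n0,n0,n0,n0,n0,n0,n0,n0,n0,n0,n0,n0,m1,n2] (e' := [n1,n0,n0,n0,n0,n0,n0,n0,n0,n0,n0,n0,n1,m2]) (by decide +kernel) (.t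
  t294 ok294) (.t t295 ok295)

theorem cl284 : Clo K (Helper55.TR.GH 1 Helper55.TR.BrU [0,0,0,0,0,1]) r293 :=
  .w [n0,n0,n0,n0,n0,n0,n0,n0,n0,n0,n0,n0,n1,m2] (e' := [n1,n0,n0,n0,n0,n0,n0,n0,n0,n0,n0,n0,m1,n2]) (by decide +kernel) (.t
  t293 ok293) cl283

theorem cl285 : Clo K (Helper55.TR.GH 1 Helper55.TR.BrU [0,0,0,0,0,1]) r292 :=
  .i [n1,n0,m1,m1,n1,n0,n0,n0,n0,n0,n6] (e' := [n0,n0,n1,n1,m1,n0,n0,n0,n0,n0,m6]) (by decide +kernel)
  (by decide +kernel) cl282 cl284

theorem cl286 : Clo K (Helper55.TR.GH 1 Helper55.TR.BrU [0,0,0,0,0,1]) l291 :=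
  .i [n1,n0,m1,m1,n0,n0,n0,m1,n0,m2,m1] (e' := [n0,n0,n1,n1,n0,n0,n0,n1,n0,n2,n1]) (by decide +kernel)
  (by decide +kernel) (.t t288 ok288) cl285

theorem cl287 : Clo K (Helper55.TR.GH 1 Helper55.TR.BrU [0,0,0,0,0,1]) r291 :=
  .w [n0,n0,n0,n0,n0,n0,n0,n0,n0,n0,n0,n0,m1,n2] (e' := [n1,n0,n0,n0,n0,n0,n0,n0,n0,n0,n0,n0,n1,m2]) (by decide +kernel) (.t
  t296 ok296) (.t t297 ok297)

theorem cl288 : Clo K (Helper55.TR.GH 1 Helper55.TR.BrU [0,0,0,0,0,1]) r284 :=
  .i [n1,n0,n1,n1,n0,n0,n0,n1,n0,n2,n1] (e' := [n0,n0,m1,m1,n0,n0,n0,m1,n0,m2,m1]) (by decide +kernel)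
  (by decide +kernel) cl286 cl287

theorem cl289 : Clo K (Helper55.TR.GH 1 Helper55.TR.BrU [0,0,0,0,0,1]) r283 :=
  .i [n1,n0,n1,n1,n0,n0,n0,n1,n0,n1,n2] (e' := [n0,n0,m1,m1,n0,n0,n0,m1,n0,m1,m2]) (by decide +kernel)
  (by decide +kernel) cl279 cl288

theorem cl290 : Clo K (Helper55.TR.GH 1 Helper55.TR.BrU [0,0,0,0,0,1]) r282 :=
  .i [n1,n0,n3,n3,m1,n0,n0,n2] (e' := [n0,n0,m3,m3,n1,n0,n0,m2]) (by decide +kernel) (by decide +kernel) (.t
  t280 ok280) cl289

theorem cl291 : Clo K (Helper55.TR.GH 1 Helper55.TR.BrU [0,0,0,0,0,1]) l281 :=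
  .i [n1,n0,n0,n0,n0,n0,n0,n0,n0,m1,n1] (e' := [n0,n0,n0,n0,n0,n0,n0,n0,n0,n1,m1]) (by decide +kernel)
  (by decide +kernel) (.t t279 ok279) cl290

theorem cl292 : Clo K (Helper55.TR.GH 1 Helper55.TR.BrU [0,0,0,0,0,1]) r303 :=
  .w [n0,n0,n0,n0,n0,n0,n0,n0,n0,n0,n0,n0,m1,n2] (e' := [n1,n0,n0,n0,n0,n0,n0,n0,n0,n0,n0,n0,n1,m2]) (by decide +kernel) (.t
  t301 ok301) (.t t302 ok302)

theorem cl293 : Clo K (Helper55.TR.GH 1 Helper55.TR.BrU [0,0,0,0,0,1]) r302 :=
  .i [n1,n0,n3,n3,m1,n0,n0,n2] (e' := [n0,n0,m3,m3,n1,n0,n0,m2]) (by decide +kernel) (by decide +kernel) (.t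
  t300 ok300) cl292

theorem cl294 : Clo K (Helper55.TR.GH 1 Helper55.TR.BrU [0,0,0,0,0,1]) l301 :=
  .q [n0,m1,n0,n1,n0,n0,m1,m1,n0,n0,n0,n1,m1] (e' := [n0,n1,n0,m1,n0,n0,n1,n1,n0,n0,n0,m1,n1]) (.p false [0,0,1] [1]
  (⟨0,[(20,0)]⟩,⟨0,[(21,0)]⟩) .k 1 (⟨0,[]⟩,⟨0,[]⟩) .k .k) (by decide +kernel) (by decide +kernel)
  (.t t299 ok299) cl293

theorem cl295 : Clo K (Helper55.TR.GH 1 Helper55.TR.BrU [0,0,0,0,0,1]) r301 :=
  .w [n0,n0,n0,n0,n0,n0,n0,n0,n0,n0,n0,n0,m1,n2] (e' := [n1,n0,n0,n0,n0,n0,n0,n0,n0,n0,n0,n0,n1,m2]) (by decide +kernel) (.t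
  t303 ok303) (.t t304 ok304)

theorem cl296 : Clo K (Helper55.TR.GH 1 Helper55.TR.BrU [0,0,0,0,0,1]) r300 :=
  .i [n0,n1,n0,n0,n0,n0,n0,n0,n0,n1] (e' := [n1,m1,n0,n0,n0,n0,n0,n0,n0,m1]) (by decide +kernel) (by decide +kernel)
  cl294 cl295

theorem cl297 : Clo K (Helper55.TR.GH 1 Helper55.TR.BrU [0,0,0,0,0,1]) r281 :=
  .w [n0,n0,n0,n0,n0,n0,n0,n0,n0,n0,n0,n0,n1,m2] (e' := [n1,n0,n0,n0,n0,n0,n0,n0,n0,n0,n0,n0,m1,n2]) (by decide +kernel) (.t
  t298 ok298) cl296

theorem cl298 : Clo K (Helper55.TR.GH 1 Helper55.TR.BrU [0,0,0,0,0,1]) l280 :=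
  .i [n1,n0,n0,n0,n0,n0,n0,n0,n0,n1,m1] (e' := [n0,n0,n0,n0,n0,n0,n0,n0,n0,m1,n1]) (by decide +kernel)
  (by decide +kernel) cl291 cl297

theorem cl299 : Clo K (Helper55.TR.GH 1 Helper55.TR.BrU [0,0,0,0,0,1]) r307 :=
  .w [n0,n0,n0,n0,n0,n0,n0,n0,n0,n0,n0,n0,n1,m2] (e' := [n1,n0,n0,n0,n0,n0,n0,n0,n0,n0,n0,n0,m1,n2]) (by decide +kernel) (.t
  t306 ok306) (.t t307 ok307)

theorem cl300 : Clo K (Helper55.TR.GH 1 Helper55.TR.BrU [0,0,0,0,0,1]) l306 :=
  .i [n1,n0,m1,m1,n0,n0,n0,m2,n0,m1,m1] (e' := [n0,n0,n1,n1,n0,n0,n0,n2,n0,n1,n1]) (by decide +kernel)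
  (by decide +kernel) (.t t305 ok305) cl299

theorem cl301 : Clo K (Helper55.TR.GH 1 Helper55.TR.BrU [0,0,0,0,0,1]) r316 :=
  .w [n0,n0,n0,n0,n0,n0,n0,n0,n0,n0,n0,n0,m1,n2] (e' := [n1,n0,n0,n0,n0,n0,n0,n0,n0,n0,n0,n0,n1,m2]) (by decide +kernel) (.t
  t312 ok312) (.t t313 ok313)

theorem cl302 : Clo K (Helper55.TR.GH 1 Helper55.TR.BrU [0,0,0,0,0,1]) l315 :=
  .i [n1,n0,n1,n1,m1,n0,n0,n0,n0,n0,m6] (e' := [n0,n0,m1,m1,n1,n0,n0,n0,n0,n0,n6]) (by decide +kernel)
  (by decide +kernel) (.t t311 ok311) cl301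

theorem cl303 : Clo K (Helper55.TR.GH 1 Helper55.TR.BrU [0,0,0,0,0,1]) r318 :=
  .w [n0,n0,n0,n0,n0,n0,n0,n0,n0,n0,n0,n0,n1,m2] (e' := [n1,n0,n0,n0,n0,n0,n0,n0,n0,n0,n0,n0,m1,n2]) (by decide +kernel) (.t
  t315 ok315) (.t t316 ok316)

theorem cl304 : Clo K (Helper55.TR.GH 1 Helper55.TR.BrU [0,0,0,0,0,1]) r315 :=
  .w [n0,n0,n0,n0,n0,n0,n0,n0,n0,n0,n0,n0,m1,n2] (e' := [n1,n0,n0,n0,n0,n0,n0,n0,n0,n0,n0,n0,n1,m2]) (by decide +kernel) (.t
  t314 ok314) cl303

theorem cl305 : Clo K (Helper55.TR.GH 1 Helper55.TR.BrU [0,0,0,0,0,1]) r314 :=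
  .i [n1,n0,m1,m1,n1,n0,n0,n0,n0,n0,n6] (e' := [n0,n0,n1,n1,m1,n0,n0,n0,n0,n0,m6]) (by decide +kernel)
  (by decide +kernel) cl302 cl304

theorem cl306 : Clo K (Helper55.TR.GH 1 Helper55.TR.BrU [0,0,0,0,0,1]) r313 :=
  .i [n1,n0,n1,n1,n0,n0,n0,n0,n0,n0,n5] (e' := [n0,n0,m1,m1,n0,n0,n0,n0,n0,n0,m5]) (by decide +kernel)
  (by decide +kernel) (.t t310 ok310) cl305

theorem cl307 : Clo K (Helper55.TR.GH 1 Helper55.TR.BrU [0,0,0,0,0,1]) l312 :=
  .i [n1,n0,m2,m2,n1,n0,n0,n0,n0,m1,n2] (e' := [n0,n0,n2,n2,m1,n0,n0,n0,n0,n1,m2]) (by decide +kernel)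
  (by decide +kernel) (.t t309 ok309) cl306

theorem cl308 : Clo K (Helper55.TR.GH 1 Helper55.TR.BrU [0,0,0,0,0,1]) r323 :=
  .w [n0,n0,n0,n0,n0,n0,n0,n0,n0,n0,n0,n0,n1,m2] (e' := [n1,n0,n0,n0,n0,n0,n0,n0,n0,n0,n0,n0,m1,n2]) (by decide +kernel) (.t
  t320 ok320) (.t t321 ok321)

theorem cl309 : Clo K (Helper55.TR.GH 1 Helper55.TR.BrU [0,0,0,0,0,1]) r322 :=
  .w [n0,n0,n0,n0,n0,n0,n0,n0,n0,n0,n0,n0,m1,n2] (e' := [n1,n0,n0,n0,n0,n0,n0,n0,n0,n0,n0,n0,n1,m2]) (by decide +kernel) (.t
  t319 ok319) cl308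

theorem cl310 : Clo K (Helper55.TR.GH 1 Helper55.TR.BrU [0,0,0,0,0,1]) l321 :=
  .i [n1,n0,n1,n1,m1,n0,n0,n0,n0,n0,m6] (e' := [n0,n0,m1,m1,n1,n0,n0,n0,n0,n0,n6]) (by decide +kernel)
  (by decide +kernel) (.t t318 ok318) cl309

theorem cl311 : Clo K (Helper55.TR.GH 1 Helper55.TR.BrU [0,0,0,0,0,1]) r321 :=
  .w [n0,n0,n0,n0,n0,n0,n0,n0,n0,n0,n0,n0,m1,n2] (e' := [n1,n0,n0,n0,n0,n0,n0,n0,n0,n0,n0,n0,n1,m2]) (by decide +kernel) (.t
  t322 ok322) (.t t323 ok323)

theorem cl312 : Clo K (Helper55.TR.GH 1 Helper55.TR.BrU [0,0,0,0,0,1]) r320 :=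
  .i [n1,n0,m1,m1,n1,n0,n0,n0,n0,n0,n6] (e' := [n0,n0,n1,n1,m1,n0,n0,n0,n0,n0,m6]) (by decide +kernel)
  (by decide +kernel) cl310 cl311

theorem cl313 : Clo K (Helper55.TR.GH 1 Helper55.TR.BrU [0,0,0,0,0,1]) r312 :=
  .i [n1,n0,n1,n1,n0,n0,n0,n0,n0,n0,n5] (e' := [n0,n0,m1,m1,n0,n0,n0,n0,n0,n0,m5]) (by decide +kernel)
  (by decide +kernel) (.t t317 ok317) cl312

theorem cl314 : Clo K (Helper55.TR.GH 1 Helper55.TR.BrU [0,0,0,0,0,1]) l311 :=
  .i [n1,n0,n2,n2,m1,n0,n0,n0,n0,n1,m2] (e' := [n0,n0,m2,m2,n1,n0,n0,n0,n0,m1,n2]) (by decide +kernel)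
  (by decide +kernel) cl307 cl313

theorem cl315 : Clo K (Helper55.TR.GH 1 Helper55.TR.BrU [0,0,0,0,0,1]) r330 :=
  .w [n0,n0,n0,n0,n0,n0,n0,n0,n0,n0,n0,n0,m1,n2] (e' := [n1,n0,n0,n0,n0,n0,n0,n0,n0,n0,n0,n0,n1,m2]) (by decide +kernel) (.t
  t327 ok327) (.t t328 ok328)

theorem cl316 : Clo K (Helper55.TR.GH 1 Helper55.TR.BrU [0,0,0,0,0,1]) r329 :=
  .w [n0,n0,n0,n0,n0,n0,n0,n0,n0,n0,n0,n0,n1,m2] (e' := [n1,n0,n0,n0,n0,n0,n0,n0,n0,n0,n0,n0,m1,n2]) (by decide +kernel) (.t
  t326 ok326) cl315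

theorem cl317 : Clo K (Helper55.TR.GH 1 Helper55.TR.BrU [0,0,0,0,0,1]) l328 :=
  .i [n1,n0,m1,m1,n0,n0,n0,m2,n0,m2] (e' := [n0,n0,n1,n1,n0,n0,n0,n2,n0,n2]) (by decide +kernel)
  (by decide +kernel) (.t t325 ok325) cl316

theorem cl318 : Clo K (Helper55.TR.GH 1 Helper55.TR.BrU [0,0,0,0,0,1]) r336 :=
  .w [n0,n0,n0,n0,n0,n0,n0,n0,n0,n0,n0,n0,n1,m2] (e' := [n1,n0,n0,n0,n0,n0,n0,n0,n0,n0,n0,n0,m1,n2]) (by decide +kernel) (.t
  t332 ok332) (.t t333 ok333)

theorem cl319 : Clo K (Helper55.TR.GH 1 Helper55.TR.BrU [0,0,0,0,0,1]) r335 :=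
  .w [n0,n0,n0,n0,n0,n0,n0,n0,n0,n0,n0,n0,m1,n2] (e' := [n1,n0,n0,n0,n0,n0,n0,n0,n0,n0,n0,n0,n1,m2]) (by decide +kernel) (.t
  t331 ok331) cl318

theorem cl320 : Clo K (Helper55.TR.GH 1 Helper55.TR.BrU [0,0,0,0,0,1]) l334 :=
  .i [n1,n0,m2,m2,n1,n0,n0,n0,n0,m1,n2] (e' := [n0,n0,n2,n2,m1,n0,n0,n0,n0,n1,m2]) (by decide +kernel)
  (by decide +kernel) (.t t330 ok330) cl319

theorem cl321 : Clo K (Helper55.TR.GH 1 Helper55.TR.BrU [0,0,0,0,0,1]) r340 :=
  .w [n0,n0,n0,n0,n0,n0,n0,n0,n0,n0,n0,n0,n1,m2] (e' := [n1,n0,n0,n0,n0,n0,n0,n0,n0,n0,n0,n0,m1,n2]) (by decide +kernel) (.t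
  t336 ok336) (.t t337 ok337)

theorem cl322 : Clo K (Helper55.TR.GH 1 Helper55.TR.BrU [0,0,0,0,0,1]) r339 :=
  .w [n0,n0,n0,n0,n0,n0,n0,n0,n0,n0,n0,n0,m1,n2] (e' := [n1,n0,n0,n0,n0,n0,n0,n0,n0,n0,n0,n0,n1,m2]) (by decide +kernel) (.t
  t335 ok335) cl321

theorem cl323 : Clo K (Helper55.TR.GH 1 Helper55.TR.BrU [0,0,0,0,0,1]) l338 :=
  .i [n1,n0,n1,n1,m1,n0,n0,n0,n0,n0,m7] (e' := [n0,n0,m1,m1,n1,n0,n0,n0,n0,n0,n7]) (by decide +kernel)
  (by decide +kernel) (.t t334 ok334) cl322

theorem cl324 : Clo K (Helper55.TR.GH 1 Helper55.TR.BrU [0,0,0,0,0,1]) r342 :=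
  .w [n0,n0,n0,n0,n0,n0,n0,n0,n0,n0,n0,n0,n1,m2] (e' := [n1,n0,n0,n0,n0,n0,n0,n0,n0,n0,n0,n0,m1,n2]) (by decide +kernel) (.t
  t339 ok339) (.t t340 ok340)

theorem cl325 : Clo K (Helper55.TR.GH 1 Helper55.TR.BrU [0,0,0,0,0,1]) r338 :=
  .w [n0,n0,n0,n0,n0,n0,n0,n0,n0,n0,n0,n0,m1,n2] (e' := [n1,n0,n0,n0,n0,n0,n0,n0,n0,n0,n0,n0,n1,m2]) (by decide +kernel) (.t
  t338 ok338) cl324

theorem cl326 : Clo K (Helper55.TR.GH 1 Helper55.TR.BrU [0,0,0,0,0,1]) r334 :=
  .i [n1,n0,m1,m1,n1,n0,n0,n0,n0,n0,n7] (e' := [n0,n0,n1,n1,m1,n0,n0,n0,n0,n0,m7]) (by decide +kernel)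
  (by decide +kernel) cl323 cl325

theorem cl327 : Clo K (Helper55.TR.GH 1 Helper55.TR.BrU [0,0,0,0,0,1]) r333 :=
  .i [n1,n0,n2,n2,m1,n0,n0,n0,n0,n1,m2] (e' := [n0,n0,m2,m2,n1,n0,n0,n0,n0,m1,n2]) (by decide +kernel)
  (by decide +kernel) cl320 cl326

theorem cl328 : Clo K (Helper55.TR.GH 1 Helper55.TR.BrU [0,0,0,0,0,1]) l332 :=
  .i [n1,n0,m3,m3,n1,n0,n0,n0,n0,n0,m4] (e' := [n0,n0,n3,n3,m1,n0,n0,n0,n0,n0,n4]) (by decide +kernel)
  (by decide +kernel) (.t t329 ok329) cl327

theorem cl329 : Clo K (Helper55.TR.GH 1 Helper55.TR.BrU [0,0,0,0,0,1]) r332 :=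
  .w [n0,n0,n0,n0,n0,n0,n0,n0,n0,n0,n0,n0,m1,n2] (e' := [n1,n0,n0,n0,n0,n0,n0,n0,n0,n0,n0,n0,n1,m2]) (by decide +kernel) (.t
  t341 ok341) (.t t342 ok342)

theorem cl330 : Clo K (Helper55.TR.GH 1 Helper55.TR.BrU [0,0,0,0,0,1]) r328 :=
  .i [n1,n0,n3,n3,m1,n0,n0,n0,n0,n0,n4] (e' := [n0,n0,m3,m3,n1,n0,n0,n0,n0,n0,m4]) (by decide +kernel)
  (by decide +kernel) cl328 cl329

theorem cl331 : Clo K (Helper55.TR.GH 1 Helper55.TR.BrU [0,0,0,0,0,1]) r327 :=
  .i [n1,n0,n1,n1,n0,n0,n0,n2,n0,n2] (e' := [n0,n0,m1,m1,n0,n0,n0,m2,n0,m2]) (by decide +kernel)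
  (by decide +kernel) cl317 cl330

theorem cl332 : Clo K (Helper55.TR.GH 1 Helper55.TR.BrU [0,0,0,0,0,1]) l326 :=
  .i [n1,n0,n2,n2,m1,n0,n0,n0,n0,n0,m1] (e' := [n0,n0,m2,m2,n1,n0,n0,n0,n0,n0,n1]) (by decide +kernel)
  (by decide +kernel) (.t t324 ok324) cl331

theorem cl333 : Clo K (Helper55.TR.GH 1 Helper55.TR.BrU [0,0,0,0,0,1]) r326 :=
  .w [n0,n0,n0,n0,n0,n0,n0,n0,n0,n0,n0,n0,n1,m2] (e' := [n1,n0,n0,n0,n0,n0,n0,n0,n0,n0,n0,n0,m1,n2]) (by decide +kernel) (.t
  t343 ok343) (.t t344 ok344)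

theorem cl334 : Clo K (Helper55.TR.GH 1 Helper55.TR.BrU [0,0,0,0,0,1]) r311 :=
  .i [n1,n0,m2,m2,n1,n0,n0,n0,n0,n0,n1] (e' := [n0,n0,n2,n2,m1,n0,n0,n0,n0,n0,m1]) (by decide +kernel)
  (by decide +kernel) cl332 cl333

theorem cl335 : Clo K (Helper55.TR.GH 1 Helper55.TR.BrU [0,0,0,0,0,1]) r310 :=
  .i [n1,n0,m1,m1,n0,n0,n0,n0,n0,n0,m5] (e' := [n0,n0,n1,n1,n0,n0,n0,n0,n0,n0,n5]) (by decide +kernel)
  (by decide +kernel) cl314 cl334

theorem cl336 : Clo K (Helper55.TR.GH 1 Helper55.TR.BrU [0,0,0,0,0,1]) l309 :=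
  .i [n1,n0,n0,n0,n0,n0,n0,n0,n0,m1,n1] (e' := [n0,n0,n0,n0,n0,n0,n0,n0,n0,n1,m1]) (by decide +kernel)
  (by decide +kernel) (.t t308 ok308) cl335

theorem cl337 : Clo K (Helper55.TR.GH 1 Helper55.TR.BrU [0,0,0,0,0,1]) r347 :=
  .w [n0,n0,n0,n0,n0,n0,n0,n0,n0,n0,n0,n0,m1,n2] (e' := [n1,n0,n0,n0,n0,n0,n0,n0,n0,n0,n0,n0,n1,m2]) (by decide +kernel) (.t
  t346 ok346) (.t t347 ok347)

theorem cl338 : Clo K (Helper55.TR.GH 1 Helper55.TR.BrU [0,0,0,0,0,1]) l346 :=
  .i [n1,n0,m1,m1,n0,n0,n0,m2,n0,n0,m2] (e' := [n0,n0,n1,n1,n0,n0,n0,n2,n0,n0,n2]) (by decide +kernel)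
  (by decide +kernel) (.t t345 ok345) cl337

theorem cl339 : Clo K (Helper55.TR.GH 1 Helper55.TR.BrU [0,0,0,0,0,1]) r350 :=
  .w [n0,n0,n0,n0,n0,n0,n0,n0,n0,n0,n0,n0,m1,n2] (e' := [n1,n0,n0,n0,n0,n0,n0,n0,n0,n0,n0,n0,n1,m2]) (by decide +kernel) (.t
  t349 ok349) (.t t350 ok350)

theorem cl340 : Clo K (Helper55.TR.GH 1 Helper55.TR.BrU [0,0,0,0,0,1]) l349 :=
  .i [n1,n0,n1,n1,m1,n0,n0,n0,n0,n0,m7] (e' := [n0,n0,m1,m1,n1,n0,n0,n0,n0,n0,n7]) (by decide +kernel)
  (by decide +kernel) (.t t348 ok348) cl339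

theorem cl341 : Clo K (Helper55.TR.GH 1 Helper55.TR.BrU [0,0,0,0,0,1]) r349 :=
  .w [n0,n0,n0,n0,n0,n0,n0,n0,n0,n0,n0,n0,m1,n2] (e' := [n1,n0,n0,n0,n0,n0,n0,n0,n0,n0,n0,n0,n1,m2]) (by decide +kernel) (.t
  t351 ok351) (.t t352 ok352)

theorem cl342 : Clo K (Helper55.TR.GH 1 Helper55.TR.BrU [0,0,0,0,0,1]) r346 :=
  .i [n1,n0,m1,m1,n1,n0,n0,n0,n0,n0,n7] (e' := [n0,n0,n1,n1,m1,n0,n0,n0,n0,n0,m7]) (by decide +kernel)
  (by decide +kernel) cl340 cl341

theorem cl343 : Clo K (Helper55.TR.GH 1 Helper55.TR.BrU [0,0,0,0,0,1]) r309 :=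
  .i [n1,n0,n1,n1,n0,n0,n0,n2,n0,n0,n2] (e' := [n0,n0,m1,m1,n0,n0,n0,m2,n0,n0,m2]) (by decide +kernel)
  (by decide +kernel) cl338 cl342

theorem cl344 : Clo K (Helper55.TR.GH 1 Helper55.TR.BrU [0,0,0,0,0,1]) r306 :=
  .i [n1,n0,n0,n0,n0,n0,n0,n0,n0,n1,m1] (e' := [n0,n0,n0,n0,n0,n0,n0,n0,n0,m1,n1]) (by decide +kernel)
  (by decide +kernel) cl336 cl343

theorem cl345 : Clo K (Helper55.TR.GH 1 Helper55.TR.BrU [0,0,0,0,0,1]) r280 :=
  .i [n1,n0,n1,n1,n0,n0,n0,n2,n0,n1,n1] (e' := [n0,n0,m1,m1,n0,n0,n0,m2,n0,m1,m1]) (by decide +kernel)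
  (by decide +kernel) cl300 cl344

theorem cl346 : Clo K (Helper55.TR.GH 1 Helper55.TR.BrU [0,0,0,0,0,1]) r118 :=
  .i [n1,n0,m3,m3,n1,n0,n0,m2] (e' := [n0,n0,n3,n3,m1,n0,n0,n2]) (by decide +kernel) (by decide +kernel) cl298
  cl345

theorem cl347 : Clo K (Helper55.TR.GH 1 Helper55.TR.BrU [0,0,0,0,0,1]) r117 :=
  .i [n1,n0,n2,n2,m1,n0,n0,n0,n0,m2,n1] (e' := [n0,n0,m2,m2,n1,n0,n0,n0,n0,n2,m1]) (by decide +kernel)
  (by decide +kernel) cl273 cl346

theorem cl348 : Clo K (Helper55.TR.GH 1 Helper55.TR.BrU [0,0,0,0,0,1]) r75 :=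
  .i [n0,n0,n0,n0,n0,n0,m1,n0,n2] (e' := [n1,n0,n0,n0,n0,n0,n1,n0,m2]) (by decide +kernel) (by decide +kernel) (.t
  t116 ok116) cl347

theorem cl349 : Clo K (Helper55.TR.GH 1 Helper55.TR.BrU [0,0,0,0,0,1]) r2 :=
  .i [n1,n0,m1,m1,n0,n0,n0,m2,n0,m1,n1] (e' := [n0,n0,n1,n1,n0,n0,n0,n2,n0,n1,m1]) (by decide +kernel)
  (by decide +kernel) cl112 cl348

theorem cl350 : Clo K (Helper55.TR.GH 1 Helper55.TR.BrU [0,0,0,0,0,1]) r1 :=
  .i [n1,n0,n3,n3,m2,n0,n0,n0,n0,n0,m7] (e' := [n0,n0,m3,m3,n2,n0,n0,n0,n0,n0,n7]) (by decide +kernel)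
  (by decide +kernel) cl71 cl349

theorem cl351 : Clo K (Helper55.TR.GH 1 Helper55.TR.BrU [0,0,0,0,0,1]) l0 :=
  .i [n0,n0,n0,n0,n0,n0,n1,n0,m2] (e' := [n1,n0,n0,n0,n0,n0,m1,n0,n2]) (by decide +kernel) (by decide +kernel) (.t
  t0 ok0) cl350

theorem cl352 : Clo K (Helper55.TR.GH 1 Helper55.TR.BrU [0,0,0,0,0,1]) base :=
  .i [n1,n0,n0,n0,n0,n0,n0,n1,n0,m2] (e' := [n0,n0,n0,n0,n0,n0,n0,m1,n0,n2]) (by decide +kernel) (by decide +kernel)
  cl351 (.t t353 ok353)

theorem g : Helper55.TR.GH 1 Helper55.TR.BrU [0,0,0,0,0,1] base :=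
  Helper55.TR.GH.of (Or.inr (Or.inr (Or.inl rfl))) cl352

end Helper55.CD.Dm1_1_c0u_27_1_3_1_2

namespace Helper55.CD.Dm1_1_c0u_27_1_3_1

open Helper25.KG Helper25.KW Helper55.KE Helper11.CT Helper55.TR.Nm

noncomputable def K : Cls :=
  Helper55.TR.KH 1 [0,0,0,0,0,1]

noncomputable def base : List Con :=
  [(false,[n0,n0,n0,n0,n0,n0,n0,n0,n0,n0,n0,n1,n0,m1]),
  (true,[n0,n0,n0,m1]),
  (true,[n0,n1,n0,n1]),
  (false,[n0,n0,n0,n0,n0,m1,n0,n0,n0,n0,n0,n0,n0,n1]),
  (false,[n0,n0,n0,n0,n0,n0,n0,n0,n0,n0,n0,n0,n0,n1]),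
  (true,[n0,n0,n0,n0,n1,n0,n0,n0,n0,n0,n2]),
  (false,[n0,n0,n0,n0,n0,n0,n1,n0,m1,n0,n0,n0,n1,m1]),
  (false,[n0,m1,n0,n0,n0,n0,m1,m1,n0,n0,n0,n1,m1]),
  (false,[n0,n0,n0,n0,n0,m2,n0,n0,n0,n0,n0,n0,n0,n1]),
  (true,[n0,n0,m2,m2,n1,n0,n0,n0,n0,n1]),
  (true,[m1,n1]),
  (true,[n1,n1,n0,n0,n0,n0,n0,n0,n0,n1]),
  (false,[n0,n0,n0,n0,n0,n1,n0,n0,n0,n0,n0,m1,n0,n0,n1]),
  (true,[n1,m1,n1,n2,n0,n0,n0,n1]),
  (true,[n0,m1,n0,m1,n0,n0,n0,n0,n0,m1]),
  (true,[n0,n0,n0,n0,n0,n1]),
  (false,[n0,n1,n0,n2,n0,n0,n1,n1,m1,m1,n0,n0,n1,m1]),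
  (false,[n0,n0,n0,n0,n0,m1,n0,n0,n0,n0,n0,n1,n0,m1]),
  (false,[n0,n0,n0,n0,n0,n0,n0,n0,n0,n0,n0,n1,n0,n0,m1]),
  (false,[n0,n0,n0,n0,n0,m1,n0,n0,n0,n0,n0,n1]),
  (true,[n0,m2,n0,n0,n1]),
  (true,[n0,n0,n0,n0,n0,n0,n0,m1]),
  (true,[n0,n0,n0,n0,n1,n0,n0,n0,n0,n0,m2]),
  (false,[n0,n0,n0,n2,n0,n0,m1,m1,n1,n1,n0,n0,m1,n1]),
  (false,[n0,n0,n2,n0,m1,n0,n0,n0,n2,n0,n0,m1,n0,n2]),
  (false,[n0,n0,n1,n0,n0,n0,m2,n0,n0,n0,n0,n2,m2]),
  (false,[n0,n0,n0,n2,n0,n0,n0,n0,m1,m1,n0,n0,n0,m1]),
  (true,[n0,n0,n1,n1,n0,n0,n0,n1,n0,n2]),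
  (true,[n0,n0,n0,m1,n0,n0,n0,m1]),
  (true,[n0,m1,n1,n0,n0,n0,n0,m1]),
  (true,[n1,n1,n0,n0,n0,n0,n0,n1,n0,m2]),
  (false,[n0,n0,n0,n0,n0,m2,n0,n0,n0,n0,n0,n1,n0,m1]),
  (false,[n0,n0,n0,n0,n0,n1,n0,n0,n0,n0,n0,m1,n1]),
  (false,[n0,n0,n0,n0,n0,n0,n0,n0,n0,n0,n0,n1,m1]),
  (true,[n0,n0,n3,n3,m1,n0,n0,n1,n0,n1]),
  (false,[n0,n0,m2,n0,n1,n0,n0,n0,m1,n0,n0,n1,n0,m1]),
  (false,[n0,n1,n0,m2,n0,n0,n0,n0,n2,n2,n0,m1,n0,n2]),
  (false,[n0,n0,n0,n0,n1,n0,n0,n0,n0,n0,n0,m2]),
  (false,[n0,n0,n0,m1,n0,n1,n0,n0,m1,m1,n1,n0,n0,m1,n1]),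
  (false,[n0,n1,n0,n0,n0,m1,n0,n0,n0,n0,m1,n0,n0,n0,m1]),
  (true,[n1,m1,n2,n0,m1,n0,n0,m1]),
  (false,[n0,n0,m2,n0,n1,n0,n0,n0,n0,n0,n0,m1]),
  (false,[n0,n0,n0,n0,n0,n0,n0,n0,n1,n0,n0,n0,n0,n1]),
  (false,[n0,n0,n0,n1,n0,m1,n0,n0,n0,n0,m1,n1,n0,n0,m1]),
  (true,[n1,n0,n0,n0,n0,n0,n0,n0,n0,n0,m1]),
  (false,[n0,n0,m2,n0,n1,n0,n0,n0,m1,n0,n0,n0,n0,m1]),
  (false,[n0,n0,m2,n0,n1,n0,m1,n0,n1,n0,n0,n0,m1,n1]),
  (false,[n0,n0,n0,n2,n0,n0,m1,m1,n0,n0,n0,n0,m1]),
  (false,[n0,n1,n0,n0,n0,n0,m1,m1,n0,n0,n0,n0,m1]),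
  (true,[n1,m2,n1]),
  (true,[n0,n0,m2,n0,n1]),
  (false,[n0,n0,n2,n0,m1,n0,n1,n0,n0,n0,n0,m1,n1]),
  (false,[n0,n0,n0,n0,n0,m2,n0,n0,n0,n0,n0,n1]),
  (false,[n0,n0,n0,n0,n0,n0,n1,n0,n0,n0,n0,n0,n1]),
  (false,[n0,n0,n1,n0,n0,n0,n1,n0,n0,n0,n0,n0,n1]),
  (true,[n1,n0,m1,m1,n1,n0,n0,n2,n0,n0,n1]),
  (true,[n1,n0,n1,n1,n0,n0,n0,n2]),
  (false,[n0,n0,n2,n0,m1,n0,n1,n0,n0,n0,n0,n0,n1]),
  (false,[n0,n0,n0,n1,n0,n0,m1,m1,n0,n0,n0,n0,m1]),
  (false,[n0,n0,n0,n0,n0,n0,m1,m1,n0,n0,n0,n0,m1]),
  (false,[n0,n0,n0,n0,n0,n0,n1,n0,n0,n0,n0,m1,n1]),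
  (false,[n0,n1,n0,n0,n0,n0,n1,n1,n0,n0,n0,n0,n1]),
  (false,[n0,n0,n1,n0,n0,n0,m1,n0,n0,n0,n0,n0,m1]),
  (true,[n0,n0,n0,n0,n0,n0,n0,n0,n0,m1,m1]),
  (false,[n0,n0,n0,n1,n0,n0,m1,m1,n1,n1,n0,n0,m1,n1]),
  (true,[n1,m1,n1,n1,n0,n0,n0,n1,n0,n1]),
  (false,[n0,n0,n0,n0,n0,n0,n0,n0,n1,n0,n0,m1,n0,n1]),
  (false,[n0,n1,n0,n0,n0,n0,n0,n0,n1,n1,n0,m1,n0,n1]),
  (true,[n0,n0,n2,n0,m1,n2,n1]),
  (true,[n0,m1,n1,n1,n0,n0,n0,n1]),
  (true,[n0,n0,n1,n0,n0,n0,n0,n1]),
  (false,[n0,n0,n0,n0,n0,m1,n0,n0,n0,n0,n0,n0,n1])]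

noncomputable def l0 : List Con := (true, [n1,n1,n2,n2,m1,n0,n0,m1,n0,n2]) :: base

noncomputable def r0 : List Con := (true, [n0,m1,m2,m2,n1,n0,n0,n1,n0,m2]) :: base

noncomputable def l1 : List Con := (true, [n1,n0,n0,n0,n0,n0,n0,m1,n0,n2]) :: r0

noncomputable def r1 : List Con := (true, [n0,n0,n0,n0,n0,n0,n0,n1,n0,m2]) :: r0

noncomputable def l2 : List Con := (true, [n0,n0,m2,n0,n1,m9]) :: l1

noncomputable def r2 : List Con := (true, [n1,n0,n2,n0,m1,n9]) :: l1

open Helper55.PC in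
noncomputable def t0n : Helper55.PC.Ten :=
  (q
  468336988117751071231770705599993217394247051865770534549210136465796634180412283957008098372759412164677383096190562221152314206464379788412822622790039171120627726
  (q
  15096318036274283160037450094658675556973804558929493562008509052286196075747180192797350337903846012905334469163103395558661635932037356527939169451735756529847983276046
  (q
  30192167735560448569003668418611751120730214870807121353482468894435926354860179973310743667709319266398504260942325867063053486885658736678166100290776384048621879951374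
  (r
  3008808342663650034250214756683803433417480962279285472609366482704383887815649822979308205584886998384267673673707871340883350905146508653025744613771234694373848244582278584207019899900721769281144071989331425552950540868972641557951434561572124199229381417581591495560162328653670014219092035300061716607976887492801886503651841176780680445729253733867667569613257249121063863785444644633400253358345)
  (r
  862962806174619831486480266703699275113224573013611092364086828565600792387670890723970624471141450628367862887603773979161947119639575052332701482329340134085410529189826963223655747993246489788686198978953998055587484036675535715497543386210931930549097827655832193209441321361798768148510997020548499609008130741162882149085469758510785131794648466895199291931184576777997018449247854947917587799819807246607533596428012232618695351324993414194557568261621846037356235837055471938274128962438226014260627585992803928734204457542977900096695931131832584921566713199697693982140702740621649957058207753659736361))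
  (q
  30192167735560448569003668418611751120730214870807121353482468894435926354860179973310743667709319266398504260942325867063053486885658736678166100290776384048621879951374
  (r
  80914922206029339179221387006567739798699071389220180388136446261951577361954587986348935878648056977082913280797250684023396395905018884640354039746263667831026544760062134125288315853246142074659821492931846011663523615439682392623038951855480613824920563663620682277967182764211675308841818230619116921095970950748168479809929285548315721895078950536417410598732767599612659457427905914198628885734113442443009416297284693168522258192022756889069423447979585580572969)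
  (r
  1043258017751592654154667453255830974489015093403599721475832583967485560526570485204906747938931809660901092080823855402457711140529810491198683144771437550637742010531974452739341892357492425109498944393352112621552693516202585655694235934908758516375303938111447388399018466009178290528350769831605008964024763711177863214336388536536944337585266262520026857818535725883419494300530077186787262958652232582085308019793117092487561721637842341195455775846419980194618906489242027198733253488272495036503805300606443320989693619939584658984582544558342001718316007885679991589689674413487641431333728481733844633948187359078737883947305)))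
  (q
  4249234250061541660617061361999503756433682784406431230178648967408397984552190677531132577646300297723023783245558480744189311396821168929827048956058960531628138412427378506168664078
  (r
  2481595861162093299532980293189924678605396833286824260643401598194997445211194106667237064229519858849720611591843346529059148474648593696281490596503350698290987922782980912833776177605713051364540342267472913046254932845486279188900745790054431120168488006956762464613835030867449537156832681390581881990615260636256401260380482721018626053545108446903074858864301918940046121)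
  (r
  507146706471871841848279798322471431737507592462213670780338790141618630665024032099538560956325304221541710924343799046832326911685740058655141679547315688934036931836259629554188351485061992003346835368800423345056754511791054203771364523634791822880350513361599584924673651832564710372949887594782152731734152849244556685282783984522655609092385174354157917097685186527352483964312777368454868037201530188206288857715624662089263263091673606201819455553980135987653986688298797966820125207127952427442748707369311199122884517516522944820487745643913647065962785326417800489294901293562734441733103564433320653542840376439300932265252279888493750708005987161438716481003328)))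

noncomputable def t0 : Tre := Helper55.PC.toT t0n

theorem ok0 : chk K t0 r1 = true :=
  Helper55.PC.chkN_sound K t0n r1 (by decide +kernel)

theorem cl0 : Clo K (Helper55.TR.GH 1 Helper55.TR.BrU [0,0,0,0,0,1]) l1 :=
  .i [n0,n0,m2,n0,n1,m9] (e' := [n1,n0,n2,n0,m1,n9]) (by decide +kernel) (by decide +kernel) (.h (Helper55.TR.GH.sub Helper55.CD.Dm1_1_c0u_27_1_3_1_1.g 503296044031941055690024980637647527908105110280415362196589394272557577326508614860890984765208947611261177466816244005826309175122574469001372210408374214451093652035068577242672711172950456917386050071924854852911338894338 (by decide +kernel)))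
  (.h (Helper55.TR.GH.sub Helper55.CD.Dm1_1_c0u_27_1_3_1_2.g 142426975473723820609525096956164071402485541243361605939735311134056061975015713115912217573451886213895416817224098698287342046979399332236462111610874460065729859042662816178459260020356289571504674118876035005560205806231593 (by decide +kernel)))

theorem cl1 : Clo K (Helper55.TR.GH 1 Helper55.TR.BrU [0,0,0,0,0,1]) r0 :=
  .i [n1,n0,n0,n0,n0,n0,n0,m1,n0,n2] (e' := [n0,n0,n0,n0,n0,n0,n0,n1,n0,m2]) (by decide +kernel) (by decide +kernel)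
  cl0 (.t t0 ok0)

theorem cl2 : Clo K (Helper55.TR.GH 1 Helper55.TR.BrU [0,0,0,0,0,1]) base :=
  .i [n1,n1,n2,n2,m1,n0,n0,m1,n0,n2] (e' := [n0,m1,m2,m2,n1,n0,n0,n1,n0,m2]) (by decide +kernel)
  (by decide +kernel) (.h (Helper55.TR.GH.sub Helper55.CD.Dm1_1_c0u_27_1_3_1_0.g 145098135550349281701126064615694961072393485462488062126203210143829998112418797826754857383705430162627456602726573916285468839386910243010572784994561930940167466198215331102552037654124559698914606367513902882790429427730 (by decide +kernel))) cl1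

theorem g : Helper55.TR.GH 1 Helper55.TR.BrU [0,0,0,0,0,1] base :=
  Helper55.TR.GH.of (Or.inr (Or.inr (Or.inl rfl))) cl2

end Helper55.CD.Dm1_1_c0u_27_1_3_1
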