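import Pool.Agent.Helper55.CE.H_m1_1_c0u_3_b1
import Pool.Agent.Helper55.CE.H_m1_1_c0u_3_b3
import Pool.Agent.Helper55.CE.H_m1_1_c0u_3_b2
import Pool.Agent.Helper55.CE.H_m1_1_c0u_3_b0
import Pool.Agent.Helper55.TR.Num
import Pool.Agent.Helper81.PC.Sound
import Pool.Agent.Helper55.TR.Enc2

set_option autoImplicit false
set_option linter.all false

namespace Helper55.CD.Dm1_1_c0u_3_0

open Helper25.KG Helper25.KW Helper55.KE Helper11.CT Helper55.TR.Nm

noncomputable def K : Cls :=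
  Helper55.TR.KH 1 [0,0,0,0,0,1]

noncomputable def base : List Con :=
  [(true,[n0,m2,n0,n0,n1]),
  (true,[n0,n0,n0,n0,n1,n0,n0,n0,n0,n0,m2]),
  (true,[n0,n0,n0,n0,n1,n0,n0,n0,n0,n0,n2]),
  (false,[n0,n1,n0,n0,n0,n0,n1,n1,n0,n0,n0,n0,n1]),
  (true,[n0,n0,m2,n0,n1]),
  (true,[n0,n0,n0,m1]),
  (false,[n0,n0,n0,n0,n1,n0,n0,n0,n0,n0,n0,m2]),
  (false,[n0,n0,n1,n0,n0,n0,m2,n0,n0,n0,n0,n1,m2]),
  (false,[n0,n0,n0,n1,n0,n0,n0,n0,m1,m1,n0,n0,n0,m1]),
  (true,[n1,n1,n0,n0,n0,n0,n0,n0,n0,n1]),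
  (true,[n0,n0,n1,n0,n0,n0,n0,n1]),
  (false,[n0,n0,n0,n0,n0,n0,n0,n0,n1,n0,n0,n0,n0,n1]),
  (false,[n0,n1,n2,n0,m1,n0,n2,n1,n0,n0,n0,m1,n2]),
  (true,[n0,n0,n1,n1,m1,n0,n0,m2]),
  (true,[n0,m1,n0,m1,n0,n0,n0,n0,n0,m1]),
  (false,[n0,n0,m2,n0,n1,n0,n0,n0,n0,n0,n0,m1]),
  (false,[n0,n0,n0,n0,n0,n0,n0,n0,n0,n0,n0,n0,n0,n1]),
  (true,[n1,m1,n2,n0,m1,n0,n0,m1]),
  (true,[n1,n0,n2,n2,m1,n0,n0,m1]),
  (false,[n0,n0,n0,n0,n0,n0,n0,n0,n0,n0,n0,n1,m1]),
  (false,[n0,n0,n0,n0,n0,n0,n0,n0,n0,n0,n0,n0,n1]),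
  (false,[n0,n0,n0,n2,n0,n0,m1,m1,n0,n0,n0,n0,m1]),
  (false,[n0,n0,n0,n0,n0,n0,m1,m1,n0,n0,n0,n0,m1]),
  (false,[n0,m1,n0,n0,n0,n0,m1,m1,n0,n0,n0,n1,m1]),
  (false,[n0,n0,n0,n0,n0,n0,n0,n0,n0,n0,n0,n1,n0,m1]),
  (true,[m1,n1]),
  (true,[n1,m1,n1,n2,n0,n0,n0,n1]),
  (false,[n0,n0,n2,n0,m1,n0,n1,n0,n0,n0,n0,n0,n1]),
  (false,[n0,n0,n0,n0,n0,n0,n1,n0,n0,n0,n0,n0,n1]),
  (true,[n1,m2,n1]),
  (true,[n0,n0,n1,n1,n0,n0,n0,n1]),
  (false,[n0,n1,n0,n0,n0,n0,m1,m1,n0,n0,n0,n0,m1]),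
  (true,[n0,m1,n2,n1,m1,n0,n0,m1]),
  (false,[n0,n0,n0,n0,n0,m2,n0,n0,n0,n0,n0,n0,n1]),
  (true,[n0,m1,n1,n1,n0,n0,n0,n1]),
  (false,[n0,m1,n0,m1,n0,n0,m1,m1,n0,n0,n0,n0,m1]),
  (false,[n0,n0,n0,n1,n0,n0,m1,m1,n0,n0,n0,n0,m1]),
  (false,[n0,n0,n0,n0,n0,n0,n1,n0,n0,n0,n0,m1,n1]),
  (false,[n0,m1,m1,n1,n1,n0,m1,n0,n0,n0,n0,n0,m1]),
  (true,[n0,n0,n0,m1,n0,n0,n0,m1]),
  (true,[n0,m1,n1,n0,n0,n0,n0,m1]),
  (false,[n0,n0,n1,n0,n0,n0,n1,n0,n0,n0,n0,n0,n1]),
  (true,[n0,n1,n0,n1]),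
  (false,[n0,n1,n0,n0,n0,n0,n0,n0,n1,n1,n0,m1,n0,n1]),
  (true,[n1,n0,n2,n0,m1,n2,n1]),
  (false,[n0,n0,n0,n0,n0,m2,n0,n0,n0,n0,n0,n1]),
  (false,[n0,n0,n0,n0,n0,m1,n0,n0,n0,n0,n0,n0,n1]),
  (false,[n0,n0,n0,n0,n0,m1,n0,n0,n0,n0,n0,n1]),
  (true,[n0,n0,n0,n0,n0,n1]),
  (false,[n0,n0,n0,n0,n0,m2,n0,n0,n0,n0,n0,n1,m1]),
  (false,[n0,n0,n0,n0,n0,m1,n0,n0,n0,n0,n0,n1,m1]),
  (true,[n0,n0,n0,n0,n0,n0,n0,m1])]

noncomputable def l0 : List Con := (false, [n0,n0,m2,n0,n1,n0,m1,n0,n0,n0,n0,n1,m1]) :: base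

noncomputable def r0 : List Con := (false, [n0,n0,n2,n0,m1,n0,n1,n0,n0,n0,n0,m1,n1]) :: base

noncomputable def l1 : List Con := (false, [n0,n0,n0,m2,n0,n0,n0,n0,n1,n1,n0,n0,n0,n1]) :: r0

noncomputable def r1 : List Con := (false, [n0,n0,n0,n2,n0,n0,n0,n0,m1,m1,n0,n0,n0,m1]) :: r0

noncomputable def l2 : List Con := (true, [n0,n0,n2,n2,m1,n0,n0,n0,n0,m1]) :: l1

noncomputable def r2 : List Con := (true, [n1,n0,m2,m2,n1,n0,n0,n0,n0,n1]) :: l1

noncomputable def l3 : List Con := (false, [n0,n0,n0,n0,n0,m1,n0,n0,n0,n0,n0,n0,n0,n1]) :: r2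

noncomputable def r3 : List Con := (false, [n0,n0,n0,n0,n0,n1,n0,n0,n0,n0,n0,n0,n0,m1]) :: r2

noncomputable def l4 : List Con := (false, [n0,n0,m2,n0,n1,n0,n0,n0,m1,n0,n0,n0,n0,m1]) :: l3

noncomputable def r4 : List Con := (false, [n0,n0,n2,n0,m1,n0,n0,n0,n1,n0,n0,n0,n0,n1]) :: l3

noncomputable def l5 : List Con := (false, [n0,n0,n0,n0,n0,n0,n0,n0,n0,n0,n0,m1,n1,n1]) :: r1

noncomputable def r5 : List Con := (false, [n0,n0,n0,n0,n0,n0,n0,n0,n0,n0,n0,n1,m1,m1]) :: r1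

noncomputable def l6 : List Con := (false, [n0,n0,n0,n0,n0,m1,n0,n0,n0,n0,n0,n1,m1,m1]) :: r5

noncomputable def r6 : List Con := (false, [n0,n0,n0,n0,n0,n1,n0,n0,n0,n0,n0,m1,n1,n1]) :: r5

noncomputable def l7 : List Con := (true, [n1,n0,m1,n0,n0,n0,n0,m1,n0,m2]) :: r6

noncomputable def r7 : List Con := (true, [n0,n0,n1,n0,n0,n0,n0,n1,n0,n2]) :: r6

noncomputable def l8 : List Con := (true, [n1,m1,m2,m1,n1,n0,n0,m1,n0,n2]) :: l7

noncomputable def r8 : List Con := (true, [n0,n1,n2,n1,m1,n0,n0,n1,n0,m2]) :: l7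

open Helper55.PC in
noncomputable def t0n : Helper55.PC.Ten :=
  (r
  502472894309503925098628226674985099149753477694563398220933862909431155969258941065822472061922885198159196841632817253251679604585126236598625009769680254619375517745596815160150787061990783459229932976009575286732307912451210501637904570332195443088980377308191568611997364032886255546576804942782045032785662739831884096522472210695454864041940133146423935608592886689117987923006747395127069107256369029323226136884986412430649017734189039562180404918606648555609100674631410371062248013001397457290386470992539320860642842201012398342779432987695114879494191801530446755571079509793769365518518227977882864822480764580304755887533607632662408306369400146336242280986825066346879543537112911406899619646790308715591540738334699139816643762997621175878690514935639342530462336405525475621342778061810099074883777)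

noncomputable def t0 : Tre := Helper55.PC.toT t0n

theorem ok0 : chk K t0 l0 = true :=
  Helper55.PC.chkN_sound K t0n l0 (by decide +kernel)

open Helper55.PC in
noncomputable def t1n : Helper55.PC.Ten :=
  (r
  77547506500634700735359630493962488111362386264877901226035517628399643829881079533088711395502815788591718165420386139183357109134739012877255726945871091821804184913564750670864053392266095873766484252789452921916837876474733149434495456807522833237704955789654614763173949743227236827607613143720238602804161565551353442339730976669652188840304655577174522772572903575904905)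

noncomputable def t1 : Tre := Helper55.PC.toT t1n

theorem ok1 : chk K t1 l2 = true :=
  Helper55.PC.chkN_sound K t1n l2 (by decide +kernel)

open Helper55.PC in
noncomputable def t2n : Helper55.PC.Ten :=
  (q
  119745612889209489878984817533468351665921138036599617054218001985986965607060331730319466862985526789588749445290963183397645242064307488589740224869613028150930802508969822569172889883246606
  (r
  39159614153616941198996604162031904822482118876476053719250314618878602271292080463229715468685987743856897217399465482059739558437385266444603598926494296489898215437270451331977396141406159794889663122610531366051806095717576732623851006812343826918529828794349671468493344910095945002839063592257236801881742657747796273582982712260028944296452930337303995235675281348351062459179179726160073510368704905691863763652251240009271972395300620405608539507766065002091461375884296299106535709499229520491364694715534869994986596445566915766245252772482442599016634752959483597032980576739616)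
  (r
  597528292138930377181955019562254407081331159614197597034459223872338138027581099654344465416007538417909061892326123315036954957339902863051283258652140856974275809337282598924833615482007394586602327158010024609161023605012600684922675319235311094061628911821686346577017403305839440200089360338628832137284544437086302934964054977101638672435156864987962258031463389342731530365542151495717366676365736735367185758985805641950157147675790702896713034195625228347308082643609451765003000518051232830658177151729898509360071595440404610055950007833718553334913984540035072194028773664))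

noncomputable def t2 : Tre := Helper55.PC.toT t2n

theorem ok2 : chk K t2 r3 = true :=
  Helper55.PC.chkN_sound K t2n r3 (by decide +kernel)

theorem cl0 : Clo K (Helper55.TR.GH 1 Helper55.TR.BrU [0,0,0,0,0,1]) l3 :=
  .q [n0,n0,m2,n0,n1,n0,n0,n0,m1,n0,n0,n0,n0,m1] (e' := [n0,n0,n2,n0,m1,n0,n0,n0,n1,n0,n0,n0,n0,n1]) (.p false [0,0,0,1] []
  (⟨0,[(20,0)]⟩,⟨0,[(28,0)]⟩) .k 0 (⟨0,[]⟩,⟨0,[]⟩) .k .k) (by decide +kernel) (by decide +kernel)
  (.h (Helper55.TR.GH.sub Helper55.CD.Dm1_1_c0u_3_0_0.g 60847499064050957365818662591224345790267390882306305190554334719509395261927669808553341963480061912120508810948312976846505807457993356555832682629412038346615686283264514859044 (by decide +kernel))) (.h (Helper55.TR.GH.sub Helper55.CD.Dm1_1_c0u_3_0_1.g 332606191025794291626931609866854100515899168148349950151991287872356891567820470431240410388285008201970672299550501926364073101441814334289556664230393152832196312324163689793538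 (by decide +kernel)))

theorem cl1 : Clo K (Helper55.TR.GH 1 Helper55.TR.BrU [0,0,0,0,0,1]) r2 :=
  .q [n0,n0,n0,n0,n0,m1,n0,n0,n0,n0,n0,n0,n0,n1] (e' := [n0,n0,n0,n0,n0,n1,n0,n0,n0,n0,n0,n0,n0,m1]) (.ed false [1,-1,0,1]
  .k) (by decide +kernel) (by decide +kernel) cl0 (.t t2 ok2)

theorem cl2 : Clo K (Helper55.TR.GH 1 Helper55.TR.BrU [0,0,0,0,0,1]) l1 :=
  .i [n0,n0,n2,n2,m1,n0,n0,n0,n0,m1] (e' := [n1,n0,m2,m2,n1,n0,n0,n0,n0,n1]) (by decide +kernel)
  (by decide +kernel) (.t t1 ok1) cl1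

theorem cl3 : Clo K (Helper55.TR.GH 1 Helper55.TR.BrU [0,0,0,0,0,1]) l7 :=
  .i [n1,m1,m2,m1,n1,n0,n0,m1,n0,n2] (e' := [n0,n1,n2,n1,m1,n0,n0,n1,n0,m2]) (by decide +kernel)
  (by decide +kernel) (.h (Helper55.TR.GH.sub Helper55.CD.Dm1_1_c0u_3_0_4.g 100345794043908229942178260094451811707856365683317482489107428069477446159410753212304330277428693629204386827394753423814428675 (by decide +kernel))) (.h (Helper55.TR.GH.sub Helper55.CD.Dm1_1_c0u_3_0_5.g 70793068481924364012025904070601353498087082329698532147547525337623538649571442758076456524360350267808801827878561292368314339358150226947505166182496487785793798162897805114364965 (by decide +kernel)))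

theorem cl4 : Clo K (Helper55.TR.GH 1 Helper55.TR.BrU [0,0,0,0,0,1]) r6 :=
  .i [n1,n0,m1,n0,n0,n0,n0,m1,n0,m2] (e' := [n0,n0,n1,n0,n0,n0,n0,n1,n0,n2]) (by decide +kernel) (by decide +kernel)
  cl3 (.h (Helper55.TR.GH.sub Helper55.CD.Dm1_1_c0u_3_0_6.g 183126569072357313742452945406474144028661663719646958813036000672672782163018820513097976866325137968913552612683441405246201511459955043993603 (by decide +kernel)))

theorem cl5 : Clo K (Helper55.TR.GH 1 Helper55.TR.BrU [0,0,0,0,0,1]) r5 :=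
  .q [n0,n0,n0,n0,n0,m1,n0,n0,n0,n0,n0,n1,m1,m1] (e' := [n0,n0,n0,n0,n0,n1,n0,n0,n0,n0,n0,m1,n1,n1]) (.p false [0,0,1,1]
  [1] (⟨0,[(19,0),(3,0)]⟩,⟨0,[(0,0)]⟩) .k 1 (⟨0,[]⟩,⟨0,[]⟩) .k (.r (-1) ⟨1,[(3,0),(3,0),(4,1),(0,
  1)]⟩ ⟨2,[(1,1),(12,1),(2,0),(10,0),(13,2)]⟩)) (by decide +kernel) (by decide +kernel) (.h
  (Helper55.TR.GH.sub Helper55.CD.Dm1_1_c0u_3_0_3.g 271757070712132331308959522759607634084542107403001697903874045110861546629754818814016077740047463563606745702615603230191776039264590312251565293862656007 (by decide +kernel))) cl4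

theorem cl6 : Clo K (Helper55.TR.GH 1 Helper55.TR.BrU [0,0,0,0,0,1]) r1 :=
  .q [n0,n0,n0,n0,n0,n0,n0,n0,n0,n0,n0,m1,n1,n1] (e' := [n0,n0,n0,n0,n0,n0,n0,n0,n0,n0,n0,n1,m1,m1]) (.ed false [0,0,1,1]
  (.r (-1) ⟨1,[(2,0),(3,0),(4,1),(0,1)]⟩ ⟨2,[(0,1),(12,1),(2,0),(10,0),(13,2)]⟩))
  (by decide +kernel) (by decide +kernel) (.h (Helper55.TR.GH.sub Helper55.CD.Dm1_1_c0u_3_0_2.g 64235027106129316470713161660908647119775782994457476296392022925201629374930061734440532025787772743553472624192570829296345464534930665538170728920676048011180346717236 (by decide +kernel))) cl5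

theorem cl7 : Clo K (Helper55.TR.GH 1 Helper55.TR.BrU [0,0,0,0,0,1]) r0 :=
  .q [n0,n0,n0,m2,n0,n0,n0,n0,n1,n1,n0,n0,n0,n1] (e' := [n0,n0,n0,n2,n0,n0,n0,n0,m1,m1,n0,n0,n0,m1]) (.p true [0,0,0,1] []
  (⟨0,[(17,0)]⟩,⟨0,[(25,0)]⟩) .k 0 (⟨0,[]⟩,⟨0,[]⟩) .k .k) (by decide +kernel) (by decide +kernel)
  cl2 cl6

theorem cl8 : Clo K (Helper55.TR.GH 1 Helper55.TR.BrU [0,0,0,0,0,1]) base :=
  .q [n0,n0,m2,n0,n1,n0,m1,n0,n0,n0,n0,n1,m1] (e' := [n0,n0,n2,n0,m1,n0,n1,n0,n0,n0,n0,m1,n1]) (.p false [0,0,1] [1] (⟨0,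
  [(20,0)]⟩,⟨0,[(19,0)]⟩) .k 1 (⟨0,[]⟩,⟨0,[]⟩) .k .k) (by decide +kernel) (by decide +kernel) (.t
  t0 ok0) cl7

theorem g : Helper55.TR.GH 1 Helper55.TR.BrU [0,0,0,0,0,1] base :=
  Helper55.TR.GH.of (Or.inr (Or.inr (Or.inl rfl))) cl8

end Helper55.CD.Dm1_1_c0u_3_0

namespace Helper55.CD.Dm1_1_c0u_3

open Helper25.KG Helper25.KW Helper55.KE Helper11.CT Helper55.TR.Nm

noncomputable def K : Cls :=
  Helper55.TR.KT 1

noncomputable def base : List Con :=
  [(true,[n1,n1,n0,n0,n0,n0,n0,n0,n0,n1]),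
  (false,[n0,n0,n0,n0,n0,n0,n0,n0,n1,n0,n0,n0,n1]),
  (false,[n0,n0,n0,n0,n1,n0,n0,n0,n0,n0,m2]),
  (true,[n0,m2,n0,n0,n1]),
  (true,[n0,n0,m2,n0,n1]),
  (false,[n0,n0,n1,n0,n0,n0,m1,n0,n0,n0,n0,m1]),
  (true,[n0,n0,n0,m1]),
  (false,[n0,n0,n2,n0,m1,n0,n1,n0,n0,n0,n0,n1]),
  (false,[n0,n0,n0,n1,n0,n0,n0,n0,m1,m1,n0,n0,m1]),
  (false,[n0,n0,n0,n0,n0,n0,n0,n0,n0,n0,n1,n0,m1]),
  (false,[n0,n0,n0,n0,n0,n0,n0,n0,n0,n0,n0,n0,n1]),
  (false,[n0,n0,n1,n0,n0,n0,n1,n0,n0,n0,n0,n1]),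
  (true,[n1,m2,n1]),
  (true,[n0,n1,n0,n1]),
  (true,[m1,n1]),
  (true,[n1,m1,n1,n2,n0,n0,n0,n1]),
  (false,[n0,n0,n0,n2,n0,n0,m1,m1,n0,n0,n0,m1]),
  (false,[n0,n0,n1,n0,n0,n0,m2,n0,n0,n0,n1,m2]),
  (false,[n0,n0,n0,n0,n0,n0,n1,n0,n0,n0,n0,n1]),
  (false,[n0,n0,m2,n0,n1,n0,n0,n0,n0,n0,m1]),
  (true,[n0,m1,n0,m1,n0,n0,n0,n0,n0,m1]),
  (false,[n0,n1,n2,n0,m1,n0,n2,n1,n0,n0,m1,n2]),
  (true,[n0,n0,n1,n1,m1,n0,n0,m2]),
  (true,[n0,m1,n2,n1,m1,n0,n0,m1]),
  (false,[n0,n0,n0,n0,n0,m2,n0,n0,n0,n0,n0,n1]),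
  (true,[n0,m1,n1,n1,n0,n0,n0,n1]),
  (false,[n0,n0,n0,n0,n0,m2,n0,n0,n0,n0,n1,m1]),
  (true,[n1,m1,n2,n0,m1,n0,n0,m1]),
  (true,[n1,n0,n2,n2,m1,n0,n0,m1]),
  (true,[n1,n0,n2,n0,m1,n2,n1]),
  (false,[n0,m1,n0,m1,n0,n0,m1,m1,n0,n0,n0,m1]),
  (false,[n0,n0,n0,n0,n0,m1,n0,n0,n0,n0,n1,m1]),
  (false,[n0,n0,n0,n0,n0,m2,n0,n0,n0,n0,n1]),
  (false,[n0,n0,n0,n1,n0,n0,m1,m1,n0,n0,n0,m1]),
  (true,[n0,n0,n1,n1,n0,n0,n0,n1]),
  (false,[n0,n0,n0,n0,n0,n0,m1,m1,n0,n0,n0,m1]),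
  (false,[n0,n0,n0,n0,n0,n0,n1,n0,n0,n0,m1,n1]),
  (true,[n0,n0,n1,n0,n0,n0,n0,n1]),
  (false,[n0,n0,n0,n0,n0,m1,n0,n0,n0,n0,n0,n1]),
  (true,[n0,n0,n0,n0,n0,n0,n0,m1]),
  (false,[n0,m1,m1,n1,n1,n0,m1,n0,n0,n0,n0,m1]),
  (true,[n0,n0,n0,m1,n0,n0,n0,m1]),
  (true,[n0,m1,n1,n0,n0,n0,n0,m1]),
  (false,[n0,m1,n0,n0,n0,n0,m1,m1,n0,n0,n1,m1])]

noncomputable def l0 : List Con := (false, [n0,m1,n0,n0,n0,n0,n0,n0,m1,m1,n1,n0,m1]) :: base

noncomputable def r0 : List Con := (false, [n0,n1,n0,n0,n0,n0,n0,n0,n1,n1,m1,n0,n1]) :: base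

open Helper55.PC in
noncomputable def t0n : Helper55.PC.Ten :=
  (r
  947797514829867669941337196584471020686745521298270850853883909992611785568368716434690941972625097885031136396316563576040428622461161364057501682052760696937023580213817443339872235576858607089174751562462138799513814116114520028121147695976849918517936807903453028359362414075785918834893254442580299731577274076272834891015572436167264232276536596487184496301541058021167978612444191908385061391758279373764179649330695929284584189459430367021403813358274183716994)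

noncomputable def t0 : Tre := Helper55.PC.toT t0n

theorem ok0 : chk K t0 l0 = true :=
  Helper55.PC.chkN_sound K t0n l0 (by decide +kernel)

theorem cl0 : Clo K (Helper55.TR.GT 1 Helper55.TR.BrU) base :=
  .q [n0,m1,n0,n0,n0,n0,n0,n0,m1,m1,n1,n0,m1] (e' := [n0,n1,n0,n0,n0,n0,n0,n0,n1,n1,m1,n0,n1]) (.p false [0,0,0,1] [1]
  (⟨0,[(10,0)]⟩,⟨0,[(9,0)]⟩) .k 1 (⟨0,[]⟩,⟨0,[]⟩) .k .k) (by decide +kernel) (by decide +kernel)
  (.t t0 ok0) (.h (Helper55.TR.GT.lJ Helper55.CD.Dm1_1_c0u_3_0.g 221418856947855867616980807922320955109437565514642527387127809978659629668093947396142968723552924692012913716194538979147679700533835575670439936958401542 (by decide +kernel)))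

theorem g : Helper55.TR.GT 1 Helper55.TR.BrU base :=
  Helper55.TR.GT.of cl0

end Helper55.CD.Dm1_1_c0u_3
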