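import Pool.Agent.Helper55.CE.H_m1_1_c0u_5_b0
import Pool.Agent.Helper55.CE.H_m1_1_c0u_5_b1
import Pool.Agent.Helper55.CE.H_m1_1_c0u_5_b7
import Pool.Agent.Helper55.CE.H_m1_1_c0u_5_b4
import Pool.Agent.Helper55.CE.H_m1_1_c0u_5_b3
import Pool.Agent.Helper55.CE.H_m1_1_c0u_5_b6
import Pool.Agent.Helper55.CE.H_m1_1_c0u_5_b5
import Pool.Agent.Helper55.TR.Num
import Pool.Agent.Helper81.PC.Sound
import Pool.Agent.Helper55.TR.Enc2

set_option autoImplicit false
set_option linter.all false

namespace Helper55.CD.Dm1_1_c0u_5_0

open Helper25.KG Helper25.KW Helper55.KE Helper11.CT Helper55.TR.Nm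

noncomputable def K : Cls :=
  Helper55.TR.KT 1

noncomputable def base : List Con :=
  [(true,[n0,n0,n0,m1]),
  (false,[n0,n0,n0,n0,n0,n0,n0,n0,n0,n0,n1,m1]),
  (true,[n0,m2,n0,n0,n1]),
  (true,[m1,n1]),
  (true,[n1,n1,n0,n0,n0,n0,n0,n0,n0,n1]),
  (true,[n0,n1,n0,n1]),
  (false,[n0,m1,n0,n0,n0,n0,m1,m1,n0,n0,n1,m1]),
  (false,[n0,n1,n0,n0,n0,n0,n0,n0,n1,n1,m1,n0,n1]),
  (false,[n0,n0,n1,n0,n0,n0,m1,n0,n0,n0,n0,m1]),
  (false,[n0,n0,n0,n0,n0,n0,n0,n0,n0,n0,n1,n0,m1]),
  (false,[n0,n0,n0,n0,n0,n0,n0,n0,n0,n0,n0,n0,n1]),
  (false,[n0,n0,n0,n0,n0,m1,n0,n0,n0,n0,n1,n0,m1]),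
  (false,[n0,n0,n0,n0,n0,n0,n0,n0,n0,n0,n0,n1]),
  (true,[n0,m1,n0,m1,n0,n0,n0,n0,n0,m1]),
  (false,[n0,n1,n0,n0,n0,n0,n1,n1,n0,n0,n0,n1]),
  (false,[n0,n0,n0,n0,n0,n0,m1,m1,n0,n0,n0,m1]),
  (false,[n0,n0,n0,n0,n0,n0,n0,n0,n1,n0,m1,n0,n1]),
  (true,[n0,n0,n0,n0,n0,n1]),
  (false,[n0,n0,n0,n1,n0,n0,n0,n0,m1,m1,n0,n0,m1]),
  (false,[n0,n0,n0,n0,n0,m1,n0,n0,n0,n0,n1]),
  (true,[n0,m1,n1,n0,n0,n0,n0,m1]),
  (false,[n0,n0,n0,n0,n1,n0,n0,n0,n0,n0,m2]),
  (false,[n0,n0,n0,n0,n0,n0,n0,n0,n1,n0,n0,n0,n1]),
  (true,[n0,n0,n0,n0,n0,n0,n0,m1]),
  (false,[n0,n0,n0,n0,n0,m2,n0,n0,n0,n0,n0,n1]),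
  (false,[n0,n0,n0,n0,n0,m1,n0,n0,n0,n0,n0,n1]),
  (true,[n0,n0,m2,n0,n1]),
  (false,[n0,n0,n0,n1,n0,n0,m1,m1,n0,n0,n0,m1]),
  (false,[n0,n0,n0,n0,n0,n0,n1,n0,n0,n0,n0,n1]),
  (false,[n0,n0,n0,n0,n0,m2,n0,n0,n0,n0,n1]),
  (true,[n1,n0,m1,m1,n1,n0,n0,n2]),
  (true,[n1,m1,n2,n2,m1,n0,n0,m1]),
  (false,[n0,n0,n1,n0,n0,n0,n1,n0,n0,n0,n0,n1]),
  (false,[n0,n0,n1,n0,n0,n0,m2,n0,n0,n0,n1,m2]),
  (false,[n0,n1,n0,n0,n0,n0,m1,m1,n0,n0,n0,m1]),
  (true,[n0,n0,n0,m1,n0,n0,n0,m1]),
  (false,[n0,m1,n0,m1,n0,n0,m1,m1,n0,n0,n0,m1]),
  (true,[n0,n0,n1,n1,n0,n0,n0,n1]),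
  (false,[n0,n0,n0,n0,n0,n0,n1,n0,n0,n0,m1,n1]),
  (false,[n0,n0,n2,n0,m1,n0,n1,n0,n0,n0,n0,n1]),
  (false,[n0,n0,m2,n0,n1,n0,n0,n0,n0,n0,m1]),
  (false,[n0,n0,n0,n2,n0,n0,m1,m1,n0,n0,n0,m1]),
  (true,[n1,m1,n1,n2,n0,n0,n0,n1]),
  (false,[n0,n0,n0,n0,n0,m2,n0,n0,n0,n0,n1,m1]),
  (true,[n1,n0,n2,n2,m1,n0,n0,m1]),
  (true,[n1,m1,n2,n0,m1,n0,n0,m1]),
  (true,[n1,n0,n2,n0,m1,n2,n1]),
  (true,[n1,m1,n1,n1,n0,n0,n0,n1]),
  (true,[n0,n0,m2,n0,n1,m2,m1,n0,n1]),
  (true,[n1,m2,n1]),
  (true,[n0,m1,n1,n1,n0,n0,n0,n1]),
  (true,[n0,n0,n1,n0,n0,n0,n0,n1]),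
  (true,[n0,m1,n2,n1,m1,n0,n0,m1]),
  (true,[n0,n0,m1,m1,n1,n0,n0,n2]),
  (false,[n0,n0,n0,n0,n0,m1,n0,n0,n0,n0,n1,m1]),
  (false,[n0,m1,m1,n1,n1,n0,m1,n0,n0,n0,n0,m1])]

noncomputable def l0 : List Con := (false, [n0,n0,m2,n0,n1,n0,m1,n0,n0,n0,n1,m1]) :: base

noncomputable def r0 : List Con := (false, [n0,n0,n2,n0,m1,n0,n1,n0,n0,n0,m1,n1]) :: base

noncomputable def l1 : List Con := (true, [n1,n0,m2,m2,n1,n0,n0,n1,n0,m1]) :: r0

noncomputable def r1 : List Con := (true, [n0,n0,n2,n2,m1,n0,n0,m1,n0,n1]) :: r0

noncomputable def l2 : List Con := (false, [n0,n0,n2,n0,m1,n0,n0,n0,n1,n0,n0,n0,n1]) :: r1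

noncomputable def r2 : List Con := (false, [n0,n0,m2,n0,n1,n0,n0,n0,m1,n0,n0,n0,m1]) :: r1

noncomputable def l3 : List Con := (false, [n0,n0,n0,n0,n0,n0,n0,n0,n0,n0,n1,m1,m1]) :: l2

noncomputable def r3 : List Con := (false, [n0,n0,n0,n0,n0,n0,n0,n0,n0,n0,m1,n1,n1]) :: l2

noncomputable def l4 : List Con := (true, [n0,n1,n1,n0,m1,n0,n0,m1,n0,m1]) :: l3

noncomputable def r4 : List Con := (true, [n1,m1,m1,n0,n1,n0,n0,n1,n0,n1]) :: l3

noncomputable def l5 : List Con := (true, [n1,n1,n2,n2,m1]) :: r4

noncomputable def r5 : List Con := (true, [n0,m1,m2,m2,n1]) :: r4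

noncomputable def l6 : List Con := (false, [n0,n0,n0,n0,n0,m1,n0,n0,n0,n0,n1,m1,m1]) :: l5

noncomputable def r6 : List Con := (false, [n0,n0,n0,n0,n0,n1,n0,n0,n0,n0,m1,n1,n1]) :: l5

noncomputable def l7 : List Con := (true, [n1,n1,m1,n0,n0,n0,n0,m1,n0,m1]) :: l6

noncomputable def r7 : List Con := (true, [n0,m1,n1,n0,n0,n0,n0,n1,n0,n1]) :: l6

noncomputable def l8 : List Con := (false, [n0,n0,n0,n0,n0,n1,n0,n0,n0,n0,n0,n0,m1]) :: r7

noncomputable def r8 : List Con := (false, [n0,n0,n0,n0,n0,m1,n0,n0,n0,n0,n0,n0,n1]) :: r7

noncomputable def l9 : List Con := (true, [n1,m1,n0,n0,n0,n0,n0,m1,n0,n1]) :: r8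

noncomputable def r9 : List Con := (true, [n0,n1,n0,n0,n0,n0,n0,n1,n0,m1]) :: r8

noncomputable def l10 : List Con := (false, [n0,n1,m2,m1,n1,n0,n1,n1,m1,n0,n0,n1,m1]) :: l9

noncomputable def r10 : List Con := (false, [n0,m1,n2,n1,m1,n0,m1,m1,n1,n0,n0,m1,n1]) :: l9

noncomputable def l11 : List Con := (false, [n0,n0,n0,n0,n0,n2,n0,n0,n0,n0,n0,n0,m1]) :: l10

noncomputable def r11 : List Con := (false, [n0,n0,n0,n0,n0,m2,n0,n0,n0,n0,n0,n0,n1]) :: l10

noncomputable def l12 : List Con := (true, [n0,n0,n2,n2,m1,n0,n0,n0,n0,m1]) :: r11

noncomputable def r12 : List Con := (true, [n1,n0,m2,m2,n1,n0,n0,n0,n0,n1]) :: r11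

noncomputable def l13 : List Con := (false, [n0,n0,m2,n0,n1,n0,n0,n0,m1,n0,n1,n0,m1]) :: l12

noncomputable def r13 : List Con := (false, [n0,n0,n2,n0,m1,n0,n0,n0,n1,n0,m1,n0,n1]) :: l12

noncomputable def l14 : List Con := (false, [n0,n0,n0,m2,n0,n0,n0,n0,n1,n1,n0,n0,n1]) :: r13

noncomputable def r14 : List Con := (false, [n0,n0,n0,n2,n0,n0,n0,n0,m1,m1,n0,n0,m1]) :: r13

noncomputable def l15 : List Con := (true, [n0,n0,n2,n0,m1,n2,n0,n0,n1]) :: r12

noncomputable def r15 : List Con := (true, [n1,n0,m2,n0,n1,m2,n0,n0,m1]) :: r12

noncomputable def l16 : List Con := (false, [n0,n0,n0,n0,n0,n0,n0,n0,n0,n0,n0,n1,m1]) :: r10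

noncomputable def r16 : List Con := (false, [n0,n0,n0,n0,n0,n0,n0,n0,n0,n0,n0,m1,n1]) :: r10

noncomputable def l17 : List Con := (false, [n0,m1,n0,n0,n0,n0,m1,m1,n1,n1,n1,m1,n1]) :: l16

noncomputable def r17 : List Con := (false, [n0,n1,n0,n0,n0,n0,n1,n1,m1,m1,m1,n1,m1]) :: l16

noncomputable def l18 : List Con := (false, [n0,n0,n0,n0,n0,n1,n0,n0,n0,n0,n0,m1,n1]) :: r17

noncomputable def r18 : List Con := (false, [n0,n0,n0,n0,n0,m1,n0,n0,n0,n0,n0,n1,m1]) :: r17

noncomputable def l19 : List Con := (false, [n0,n0,n0,n0,n0,n2,n0,n0,n0,n0,n0,n0,m1]) :: r18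

noncomputable def r19 : List Con := (false, [n0,n0,n0,n0,n0,m2,n0,n0,n0,n0,n0,n0,n1]) :: r18

noncomputable def l20 : List Con := (false, [n0,n0,n0,n0,n0,n1,n0,n0,n0,n0,n0,n1,m1]) :: r16

noncomputable def r20 : List Con := (false, [n0,n0,n0,n0,n0,m1,n0,n0,n0,n0,n0,m1,n1]) :: r16

noncomputable def l21 : List Con := (false, [n0,n0,n0,m2,n0,n0,n0,n0,n1,n1,n0,n0,n1]) :: r20

noncomputable def r21 : List Con := (false, [n0,n0,n0,n2,n0,n0,n0,n0,m1,m1,n0,n0,m1]) :: r20

noncomputable def l22 : List Con := (false, [n0,n0,n0,m2,n0,n0,n0,n0,n1,n1,n0,n0,n1]) :: r9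

noncomputable def r22 : List Con := (false, [n0,n0,n0,n2,n0,n0,n0,n0,m1,m1,n0,n0,m1]) :: r9

noncomputable def l23 : List Con := (false, [n0,n1,m2,m1,n1,n0,n1,n1,m1,n0,n0,n1,m1]) :: r22

noncomputable def r23 : List Con := (false, [n0,m1,n2,n1,m1,n0,m1,m1,n1,n0,n0,m1,n1]) :: r22

noncomputable def l24 : List Con := (false, [n0,n0,n0,n0,n0,n2,n0,n0,n0,n0,n0,n0,m1]) :: l23

noncomputable def r24 : List Con := (false, [n0,n0,n0,n0,n0,m2,n0,n0,n0,n0,n0,n0,n1]) :: l23

noncomputable def l25 : List Con := (false, [n0,n0,m2,n0,n1,n0,n0,n0,m1,n0,n1,n0,m1]) :: r24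

noncomputable def r25 : List Con := (false, [n0,n0,n2,n0,m1,n0,n0,n0,n1,n0,m1,n0,n1]) :: r24

noncomputable def l26 : List Con := (false, [n0,n0,m2,n0,n1,n0,n1,n0,m1,n0,n0,n1,m1]) :: r23

noncomputable def r26 : List Con := (false, [n0,n0,n2,n0,m1,n0,m1,n0,n1,n0,n0,m1,n1]) :: r23

noncomputable def l27 : List Con := (false, [n0,n0,n0,n0,n0,n0,n0,n0,n0,n0,n0,n1,m1]) :: l26

noncomputable def r27 : List Con := (false, [n0,n0,n0,n0,n0,n0,n0,n0,n0,n0,n0,m1,n1]) :: l26

noncomputable def l28 : List Con := (false, [n0,n0,n0,n0,n0,n2,n0,n0,n0,n0,n0,n0,m1]) :: l27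

noncomputable def r28 : List Con := (false, [n0,n0,n0,n0,n0,m2,n0,n0,n0,n0,n0,n0,n1]) :: l27

noncomputable def l29 : List Con := (true, [n0,n1,m1,m1,n0,n0,n0,m1,n0,m1]) :: r28

noncomputable def r29 : List Con := (true, [n1,m1,n1,n1,n0,n0,n0,n1,n0,n1]) :: r28

noncomputable def l30 : List Con := (false, [n0,n0,m2,n0,n1,n0,n0,n0,m1,n0,n1,n0,m1]) :: r29

noncomputable def r30 : List Con := (false, [n0,n0,n2,n0,m1,n0,n0,n0,n1,n0,m1,n0,n1]) :: r29

noncomputable def l31 : List Con := (false, [n0,n0,n0,n0,n0,n0,n1,n0,m1,n0,n0,n1,m1]) :: r30

noncomputable def r31 : List Con := (false, [n0,n0,n0,n0,n0,n0,m1,n0,n1,n0,n0,m1,n1]) :: r30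

noncomputable def l32 : List Con := (false, [n0,n0,n0,n0,n0,n0,m1,n0,n1,n0,n1,m1,n1]) :: l31

noncomputable def r32 : List Con := (false, [n0,n0,n0,n0,n0,n0,n1,n0,m1,n0,m1,n1,m1]) :: l31

noncomputable def l33 : List Con := (false, [n0,n0,m2,n0,n1,n0,n0,n0,m1,n0,n1,n0,m1]) :: r27

noncomputable def r33 : List Con := (false, [n0,n0,n2,n0,m1,n0,n0,n0,n1,n0,m1,n0,n1]) :: r27

noncomputable def l34 : List Con := (true, [n0,n1,m1,m1,n0,n0,n0,m1,n0,m1]) :: r33

noncomputable def r34 : List Con := (true, [n1,m1,n1,n1,n0,n0,n0,n1,n0,n1]) :: r33

noncomputable def l35 : List Con := (true, [n0,n1,m1,n0,n0,n0,n0,m1,n0,m1]) :: r6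

noncomputable def r35 : List Con := (true, [n1,m1,n1,n0,n0,n0,n0,n1,n0,n1]) :: r6

noncomputable def l36 : List Con := (true, [n1,m1,n0,n0,n0,n0,n0,n0,n0,m1]) :: r35

noncomputable def r36 : List Con := (true, [n0,n1,n0,n0,n0,n0,n0,n0,n0,n1]) :: r35

noncomputable def l37 : List Con := (false, [n0,n0,n0,m2,n0,n0,n0,n0,n1,n1,n0,n0,n1]) :: l36

noncomputable def r37 : List Con := (false, [n0,n0,n0,n2,n0,n0,n0,n0,m1,m1,n0,n0,m1]) :: l36

noncomputable def l38 : List Con := (false, [n0,m1,n2,n0,m1,n0,m1,m1,n1,n0,n0,m1,n1]) :: r37

noncomputable def r38 : List Con := (false, [n0,n1,m2,n0,n1,n0,n1,n1,m1,n0,n0,n1,m1]) :: r37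

noncomputable def l39 : List Con := (false, [n0,n0,n0,n0,n0,n2,n0,n0,n0,n0,n0,n0,m1]) :: l38

noncomputable def r39 : List Con := (false, [n0,n0,n0,n0,n0,m2,n0,n0,n0,n0,n0,n0,n1]) :: l38

noncomputable def l40 : List Con := (false, [n0,n0,m2,n0,n1,n0,n0,n0,m1,n0,n1,n0,m1]) :: r39

noncomputable def r40 : List Con := (false, [n0,n0,n2,n0,m1,n0,n0,n0,n1,n0,m1,n0,n1]) :: r39

noncomputable def l41 : List Con := (false, [n0,n0,n0,n0,n0,n0,n0,n0,n0,n0,n0,m1,n1]) :: r40

noncomputable def r41 : List Con := (false, [n0,n0,n0,n0,n0,n0,n0,n0,n0,n0,n0,n1,m1]) :: r40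

noncomputable def l42 : List Con := (false, [n0,m1,n0,n0,n0,n0,n0,m1,m1,n0,n1,n0,m1]) :: l41

noncomputable def r42 : List Con := (false, [n0,n1,n0,n0,n0,n0,n0,n1,n1,n0,m1,n0,n1]) :: l41

noncomputable def l43 : List Con := (false, [n0,n0,n0,n0,n0,n1,n0,n0,n0,n0,n0,n1,m1]) :: l42

noncomputable def r43 : List Con := (false, [n0,n0,n0,n0,n0,m1,n0,n0,n0,n0,n0,m1,n1]) :: l42

noncomputable def l44 : List Con := (false, [n0,n0,n0,n0,n0,n0,m1,n0,n1,n0,n0,m1,n1]) :: r43

noncomputable def r44 : List Con := (false, [n0,n0,n0,n0,n0,n0,n1,n0,m1,n0,n0,n1,m1]) :: r43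

noncomputable def l45 : List Con := (false, [n0,m1,n0,n0,n0,n0,m1,m1,n1,n1,n1,m1,n1]) :: r41

noncomputable def r45 : List Con := (false, [n0,n1,n0,n0,n0,n0,n1,n1,m1,m1,m1,n1,m1]) :: r41

noncomputable def l46 : List Con := (false, [n0,m1,n0,m1,n0,n0,m1,m1,n1,n1,n1,m1,n1]) :: r45

noncomputable def r46 : List Con := (false, [n0,n1,n0,n1,n0,n0,n1,n1,m1,m1,m1,n1,m1]) :: r45

noncomputable def l47 : List Con := (false, [n0,n0,n0,n0,n0,n0,m1,n0,n1,n0,n1,m1,n1]) :: l46

noncomputable def r47 : List Con := (false, [n0,n0,n0,n0,n0,n0,n1,n0,m1,n0,m1,n1,m1]) :: l46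

noncomputable def l48 : List Con := (false, [n0,n0,m2,n0,n1,n0,m1,n0,n1,n0,n0,m1,n1]) :: r36

noncomputable def r48 : List Con := (false, [n0,n0,n2,n0,m1,n0,n1,n0,m1,n0,n0,n1,m1]) :: r36

noncomputable def l49 : List Con := (false, [n0,m1,n0,n1,n0,n0,m1,m1,n0,n0,n1,m1]) :: l48

noncomputable def r49 : List Con := (false, [n0,n1,n0,m1,n0,n0,n1,n1,n0,n0,m1,n1]) :: l48

noncomputable def l50 : List Con := (false, [n0,n0,n0,m2,n0,n0,n0,n0,n1,n1,n0,n0,n1]) :: r49

noncomputable def r50 : List Con := (false, [n0,n0,n0,n2,n0,n0,n0,n0,m1,m1,n0,n0,m1]) :: r49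

noncomputable def l51 : List Con := (true, [n0,n0,n2,n2,m1,n0,n0,n0,n0,m1]) :: l50

noncomputable def r51 : List Con := (true, [n1,n0,m2,m2,n1,n0,n0,n0,n0,n1]) :: l50

noncomputable def l52 : List Con := (true, [n0,n0,n2,n0,m1,n2,n0,n0,n1]) :: r51

noncomputable def r52 : List Con := (true, [n1,n0,m2,n0,n1,m2,n0,n0,m1]) :: r51

noncomputable def l53 : List Con := (true, [n0,n0,m2,n0,n1,m2,n0,n0,m1]) :: r52

noncomputable def r53 : List Con := (true, [n1,n0,n2,n0,m1,n2,n0,n0,n1]) :: r52

noncomputable def l54 : List Con := (true, [n1,n0,m4,m4,n2,n0,n0,n1]) :: r53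

noncomputable def r54 : List Con := (true, [n0,n0,n4,n4,m2,n0,n0,m1]) :: r53

noncomputable def l55 : List Con := (false, [n0,n0,n0,n0,n0,n0,n0,n0,n0,n0,n0,m1,n1]) :: r54

noncomputable def r55 : List Con := (false, [n0,n0,n0,n0,n0,n0,n0,n0,n0,n0,n0,n1,m1]) :: r54

noncomputable def l56 : List Con := (false, [n0,n0,n0,n0,n0,n1,n0,n0,n0,n0,n0,n1,m1]) :: l55

noncomputable def r56 : List Con := (false, [n0,n0,n0,n0,n0,m1,n0,n0,n0,n0,n0,m1,n1]) :: l55

noncomputable def l57 : List Con := (false, [n0,n0,n0,n0,n0,n2,n0,n0,n0,n0,n0,n0,m1]) :: r48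

noncomputable def r57 : List Con := (false, [n0,n0,n0,n0,n0,m2,n0,n0,n0,n0,n0,n0,n1]) :: r48

noncomputable def l58 : List Con := (true, [n0,n1,m1,m1,n0,n0,n0,m1,n0,m1]) :: r3

noncomputable def r58 : List Con := (true, [n1,m1,n1,n1,n0,n0,n0,n1,n0,n1]) :: r3

noncomputable def l59 : List Con := (true, [n1,n0,m1,m1,n0,n0,n0,m1,n0,m2]) :: r58

noncomputable def r59 : List Con := (true, [n0,n0,n1,n1,n0,n0,n0,n1,n0,n2]) :: r58

noncomputable def l60 : List Con := (false, [n0,n0,n0,n0,n0,n0,n0,n0,n0,n0,n0,m1,n1]) :: r59

noncomputable def r60 : List Con := (false, [n0,n0,n0,n0,n0,n0,n0,n0,n0,n0,n0,n1,m1]) :: r59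

noncomputable def l61 : List Con := (false, [n0,n0,n0,n0,n0,n1,n0,n0,n0,n0,n0,n1,m1]) :: l60

noncomputable def r61 : List Con := (false, [n0,n0,n0,n0,n0,m1,n0,n0,n0,n0,n0,m1,n1]) :: l60

noncomputable def l62 : List Con := (false, [n0,n0,n0,n0,n0,n2,n0,n0,n0,n0,m1,n0,n1]) :: r61

noncomputable def r62 : List Con := (false, [n0,n0,n0,n0,n0,m2,n0,n0,n0,n0,n1,n0,m1]) :: r61

noncomputable def l63 : List Con := (true, [n0,n0,n2,n2,m1,n0,n0,n0,n0,m1]) :: r62

noncomputable def r63 : List Con := (true, [n1,n0,m2,m2,n1,n0,n0,n0,n0,n1]) :: r62

noncomputable def l64 : List Con := (false, [n0,m1,n0,m2,n0,n0,m1,m1,n1,n1,n0,m1,n1]) :: l63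

noncomputable def r64 : List Con := (false, [n0,n1,n0,n2,n0,n0,n1,n1,m1,m1,n0,n1,m1]) :: l63

noncomputable def l65 : List Con := (false, [n0,n0,m2,n0,n1,n0,n0,n0,m1,n0,n1,n0,m1]) :: r64

noncomputable def r65 : List Con := (false, [n0,n0,n2,n0,m1,n0,n0,n0,n1,n0,m1,n0,n1]) :: r64

noncomputable def l66 : List Con := (true, [n0,n0,m2,n0,n1,m2,n0,n0,m1]) :: r63

noncomputable def r66 : List Con := (true, [n1,n0,n2,n0,m1,n2,n0,n0,n1]) :: r63

noncomputable def l67 : List Con := (true, [n0,n0,n0,m1,n0,n0,n0,m1,n0,n2]) :: r60

noncomputable def r67 : List Con := (true, [n1,n0,n0,n1,n0,n0,n0,n1,n0,m2]) :: r60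

noncomputable def l68 : List Con := (false, [n0,n0,m2,n0,n1,n0,m1,n0,n1,n0,n0,m1,n1]) :: l67

noncomputable def r68 : List Con := (false, [n0,n0,n2,n0,m1,n0,n1,n0,m1,n0,n0,n1,m1]) :: l67

noncomputable def l69 : List Con := (false, [n0,m1,n0,n0,n0,n0,m1,m1,n1,n1,n1,m1,n1]) :: l68

noncomputable def r69 : List Con := (false, [n0,n1,n0,n0,n0,n0,n1,n1,m1,m1,m1,n1,m1]) :: l68

noncomputable def l70 : List Con := (true, [n0,n1,n0,n0,n0,n0,n0,n0,n0,n1]) :: r69

noncomputable def r70 : List Con := (true, [n1,m1,n0,n0,n0,n0,n0,n0,n0,m1]) :: r69

noncomputable def l71 : List Con := (false, [n0,m1,n0,n1,n0,n0,m1,m1,n0,n0,n1,m1]) :: l70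

noncomputable def r71 : List Con := (false, [n0,n1,n0,m1,n0,n0,n1,n1,n0,n0,m1,n1]) :: l70

noncomputable def l72 : List Con := (false, [n0,n1,n0,m2,n0,n0,n1,n1,n1,n1,m1,n1,n1]) :: r71

noncomputable def r72 : List Con := (false, [n0,m1,n0,n2,n0,n0,m1,m1,m1,m1,n1,m1,m1]) :: r71

noncomputable def l73 : List Con := (true, [n0,n0,n2,n0,m1,n2,n0,n0,n1]) :: l72

noncomputable def r73 : List Con := (true, [n1,n0,m2,n0,n1,m2,n0,n0,m1]) :: l72

noncomputable def l74 : List Con := (false, [n0,n0,n0,n0,n0,n0,m1,n0,n1,n0,n1,m1,n1]) :: r72

noncomputable def r74 : List Con := (false, [n0,n0,n0,n0,n0,n0,n1,n0,m1,n0,m1,n1,m1]) :: r72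

noncomputable def l75 : List Con := (false, [n0,n0,n0,m2,n0,n0,n0,n0,n1,n1,n0,n0,n1]) :: r74

noncomputable def r75 : List Con := (false, [n0,n0,n0,n2,n0,n0,n0,n0,m1,m1,n0,n0,m1]) :: r74

noncomputable def l76 : List Con := (true, [n0,n0,n2,n2,m1,n0,n0,n0,n0,m1]) :: l75

noncomputable def r76 : List Con := (true, [n1,n0,m2,m2,n1,n0,n0,n0,n0,n1]) :: l75

noncomputable def l77 : List Con := (true, [n0,n0,m2,m2,n1,n0,n0,n0,n0,n1]) :: r76

noncomputable def r77 : List Con := (true, [n1,n0,n2,n2,m1,n0,n0,n0,n0,m1]) :: r76

noncomputable def l78 : List Con := (true, [n0,n0,n2,n0,m1,n2,n0,n0,n1]) :: r77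

noncomputable def r78 : List Con := (true, [n1,n0,m2,n0,n1,m2,n0,n0,m1]) :: r77

noncomputable def l79 : List Con := (true, [n0,n0,n0,n0,n0,n0,n0,n1,n0,m2]) :: r75

noncomputable def r79 : List Con := (true, [n1,n0,n0,n0,n0,n0,n0,m1,n0,n2]) :: r75

noncomputable def l80 : List Con := (false, [n0,n0,n0,m1,n0,n0,n1,n1,m2,m2,n0,n1,m2]) :: l79

noncomputable def r80 : List Con := (false, [n0,n0,n0,n1,n0,n0,m1,m1,n2,n2,n0,m1,n2]) :: l79

noncomputable def l81 : List Con := (false, [n0,n0,m2,n0,n1,n0,n0,n0,m1,n0,n1,n0,m1]) :: r79

noncomputable def r81 : List Con := (false, [n0,n0,n2,n0,m1,n0,n0,n0,n1,n0,m1,n0,n1]) :: r79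

noncomputable def l82 : List Con := (false, [n0,n0,m2,n0,n1,n0,n0,n0,m1,n0,n1,n0,m1]) :: r70

noncomputable def r82 : List Con := (false, [n0,n0,n2,n0,m1,n0,n0,n0,n1,n0,m1,n0,n1]) :: r70

noncomputable def l83 : List Con := (true, [n0,n0,n2,n2,m1,n0,n0,n0,n0,m1]) :: l82

noncomputable def r83 : List Con := (true, [n1,n0,m2,m2,n1,n0,n0,n0,n0,n1]) :: l82

noncomputable def l84 : List Con := (false, [n0,m1,n0,n0,n0,n0,m1,m1,n1,n1,n1,m1,n1]) :: r67

noncomputable def r84 : List Con := (false, [n0,n1,n0,n0,n0,n0,n1,n1,m1,m1,m1,n1,m1]) :: r67

noncomputable def l85 : List Con := (false, [n0,n0,n0,n0,n0,n0,m1,n0,n1,n0,n1,m1,n1]) :: r84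

noncomputable def r85 : List Con := (false, [n0,n0,n0,n0,n0,n0,n1,n0,m1,n0,m1,n1,m1]) :: r84

noncomputable def l86 : List Con := (false, [n0,n0,n0,n0,n0,n1,n0,n0,n0,n0,n0,n0,m1]) :: r2

noncomputable def r86 : List Con := (false, [n0,n0,n0,n0,n0,m1,n0,n0,n0,n0,n0,n0,n1]) :: r2

noncomputable def l87 : List Con := (true, [n0,n0,m2,m2,n1,n0,n0,n0,n0,n1]) :: r86

noncomputable def r87 : List Con := (true, [n1,n0,n2,n2,m1,n0,n0,n0,n0,m1]) :: r86

noncomputable def l88 : List Con := (false, [n0,n0,n0,n0,n0,n2,n0,n0,n0,n0,n0,n0,m1]) :: l87

noncomputable def r88 : List Con := (false, [n0,n0,n0,n0,n0,m2,n0,n0,n0,n0,n0,n0,n1]) :: l87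

noncomputable def l89 : List Con := (false, [n0,m1,n0,m2,n0,n0,m1,m1,n1,n1,n0,m1,n1]) :: r88

noncomputable def r89 : List Con := (false, [n0,n1,n0,n2,n0,n0,n1,n1,m1,m1,n0,n1,m1]) :: r88

noncomputable def l90 : List Con := (false, [n0,n0,n0,m2,n0,n0,n0,n0,n1,n1,n0,n0,n1]) :: r89

noncomputable def r90 : List Con := (false, [n0,n0,n0,n2,n0,n0,n0,n0,m1,m1,n0,n0,m1]) :: r89

noncomputable def l91 : List Con := (true, [n0,n1,n2,n1,m1,n0,n0,n0,n0,m1]) :: l90

noncomputable def r91 : List Con := (true, [n1,m1,m2,m1,n1,n0,n0,n0,n0,n1]) :: l90

noncomputable def l92 : List Con := (false, [n0,n0,n0,n0,n0,n0,n0,n0,n0,n0,n0,n1,m1]) :: r91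

noncomputable def r92 : List Con := (false, [n0,n0,n0,n0,n0,n0,n0,n0,n0,n0,n0,m1,n1]) :: r91

noncomputable def l93 : List Con := (false, [n0,n0,n0,n0,n0,n1,n0,n0,n0,n0,n0,m1,n1]) :: l92

noncomputable def r93 : List Con := (false, [n0,n0,n0,n0,n0,m1,n0,n0,n0,n0,n0,n1,m1]) :: l92

noncomputable def l94 : List Con := (false, [n0,m1,n0,n1,n0,n0,m1,m1,n0,n0,n1,m1]) :: r93

noncomputable def r94 : List Con := (false, [n0,n1,n0,m1,n0,n0,n1,n1,n0,n0,m1,n1]) :: r93

noncomputable def l95 : List Con := (false, [n0,n0,n0,n0,n0,n0,n0,n0,n0,n0,n1,m1,m1]) :: r90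

noncomputable def r95 : List Con := (false, [n0,n0,n0,n0,n0,n0,n0,n0,n0,n0,m1,n1,n1]) :: r90

noncomputable def l96 : List Con := (true, [n0,n1,m1,m1,n0,n0,n0,m1,n0,m1]) :: r95

noncomputable def r96 : List Con := (true, [n1,m1,n1,n1,n0,n0,n0,n1,n0,n1]) :: r95

noncomputable def l97 : List Con := (false, [n0,n0,n1,n0,n0,n0,m2,n0,m1,n0,n2,m2,m1]) :: l96

noncomputable def r97 : List Con := (false, [n0,n0,m1,n0,n0,n0,n2,n0,n1,n0,m2,n2,n1]) :: l96

noncomputable def l98 : List Con := (false, [n0,m1,n0,n1,n0,n0,m1,m1,n0,n0,n1,m1]) :: r97

noncomputable def r98 : List Con := (false, [n0,n1,n0,m1,n0,n0,n1,n1,n0,n0,m1,n1]) :: r97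

noncomputable def l99 : List Con := (true, [n0,n0,n2,n2,m1,n0,n0,n0,n0,m1]) :: r87

noncomputable def r99 : List Con := (true, [n1,n0,m2,m2,n1,n0,n0,n0,n0,n1]) :: r87

noncomputable def l100 : List Con := (false, [n0,n0,n0,n0,n0,n2,n0,n0,n0,n0,n0,n0,m1]) :: l99

noncomputable def r100 : List Con := (false, [n0,n0,n0,n0,n0,m2,n0,n0,n0,n0,n0,n0,n1]) :: l99

noncomputable def l101 : List Con := (false, [n0,n0,n0,n0,n0,n0,n0,n0,n0,n0,m1,n1,n1]) :: r100

noncomputable def r101 : List Con := (false, [n0,n0,n0,n0,n0,n0,n0,n0,n0,n0,n1,m1,m1]) :: r100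

noncomputable def l102 : List Con := (true, [n1,n1,m1,n0,n0,n0,n0,m1,n0,m1]) :: l101

noncomputable def r102 : List Con := (true, [n0,m1,n1,n0,n0,n0,n0,n1,n0,n1]) :: l101

noncomputable def l103 : List Con := (true, [n1,n0,m1,m1,n0,n0,n0,m1,n0,m2]) :: r102

noncomputable def r103 : List Con := (true, [n0,n0,n1,n1,n0,n0,n0,n1,n0,n2]) :: r102

noncomputable def l104 : List Con := (false, [n0,n0,n0,n0,n0,n0,n0,n0,n0,n0,n0,n1,m1]) :: r103

noncomputable def r104 : List Con := (false, [n0,n0,n0,n0,n0,n0,n0,n0,n0,n0,n0,m1,n1]) :: r103

noncomputable def l105 : List Con := (false, [n0,n0,n0,n0,n0,n1,n0,n0,n0,n0,n0,n1,m1]) :: r104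

noncomputable def r105 : List Con := (false, [n0,n0,n0,n0,n0,m1,n0,n0,n0,n0,n0,m1,n1]) :: r104

noncomputable def l106 : List Con := (false, [n0,n0,n0,n0,n0,n1,n0,n0,n0,n0,m1,n1,n1]) :: r101

noncomputable def r106 : List Con := (false, [n0,n0,n0,n0,n0,m1,n0,n0,n0,n0,n1,m1,m1]) :: r101

noncomputable def l107 : List Con := (true, [n0,n0,m1,m1,n0,n0,n0,m2,n0,m1]) :: r106

noncomputable def r107 : List Con := (true, [n1,n0,n1,n1,n0,n0,n0,n2,n0,n1]) :: r106

noncomputable def l108 : List Con := (true, [n0,n1,m1,m1,n0,n0,n0,m1,n0,m1]) :: l107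

noncomputable def r108 : List Con := (true, [n1,m1,n1,n1,n0,n0,n0,n1,n0,n1]) :: l107

open Helper55.PC in
noncomputable def t0n : Helper55.PC.Ten :=
  (r
  870369529126265077236666322314030493117752842760605391895361890878813048243689711652340060149196266429407656452796525349290352106067567621526174553643487716519804007344903819730065249737851227453482303746466002172236719472015142446341702445053159644867939350637722933911920760912619494124332312179432975167878421438483278580953564432261758348127346885442095069085594769413300712249219531329958396054744190966733490207764178781977709783263011873658978609470836289666118993340788322988990362588330614629620899218371806146109236384069286616655141899216584403034223847494372211791754161672571364505760169729721255288497020900743082817053628546556591495954042477614195977416209538898504822932487910808764305924973441426747492056751931477599500273850386021851910788595693537238724229942731885133311324335055412657953650718873099361312993)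

noncomputable def t0 : Tre := Helper55.PC.toT t0n

theorem ok0 : chk K t0 l0 = true :=
  Helper55.PC.chkN_sound K t0n l0 (by decide +kernel)

noncomputable def t1 : Tre :=
  (.N [0,-2,1,-1] (-1) ⟨0,[(0,0)]⟩ ⟨0,[(6,0),(26,0)]⟩ (.x 0 ⟨25,[(4,14),(1,25),(5,25),(7,25),(2,0),
  (8,9),(1,7),(0,1),(0,3),(0,15),(10,25)]⟩ ⟨0,[(50,0)]⟩))

theorem ok1 : chk K t1 l1 = true := by decide +kernel

open Helper55.PC in
noncomputable def t2n : Helper55.PC.Ten :=
  (r
  15086274745020808907835367457062900530559839381965129601321844872616040379092132828426866143729517422876365516766732831783615684376329994417446416141095390478938475852128180833352551734447538744994024631685670888976342297351704109166695936041794404178183645657343176389266194532707105016523816664510549481432992674607744558354467546305207538886426409316121470413451747132853485426000571166187491861633848577941125525072890433409540186586229583043712966786651479454290263972026960840016729768661295294888794176973863625969408115746036249197158068921109177528811007466310159300795051367342173090167193141883442606929275145949555930249481367014970011365184074613058882391497028818197203114617217994690516190320961849560752592873620597841560426630965713196541100467021408451006843363889590896520164286721)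

noncomputable def t2 : Tre := Helper55.PC.toT t2n

theorem ok2 : chk K t2 l4 = true :=
  Helper55.PC.chkN_sound K t2n l4 (by decide +kernel)

open Helper55.PC in
noncomputable def t3n : Helper55.PC.Ten :=
  (r
  6326945830524310791823141369828988273886238166794159966407057221270154510420687156411102423031576734443834601043946887576750005212571935402633059809466541029352161106620655116292536756549963277140548964905065013252854573699402881546297650283201794438077954205607981298471004245940712447654489838456554860202822649920750512130359285763124971951765311357847138767016494836239930877079408481464538883351081098726572201019826474707586555284682947746393696946613728996569152918118030857996619770419343332865796436706892822444803469744777315044414713079966021353031004290541964607791179499470183100819322244521008230039649554025615260022614143652471702285747683285032140741042577864137991222778992411206141395279925499795131081830165817137057246526364141483057251323117218920559986355837580057338032690139842453277604729022382400535146266321678732587294090070359080182561)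

noncomputable def t3 : Tre := Helper55.PC.toT t3n

theorem ok3 : chk K t3 l7 = true :=
  Helper55.PC.chkN_sound K t3n l7 (by decide +kernel)

open Helper55.PC in
noncomputable def t4n : Helper55.PC.Ten :=
  (q 16283290163986725045613794372294490260827196781882261425266751944715153833997 (r
  2861434466996389390141317224109535413391256943049558498757440943148031957951442266859789578204336090751407236314302431740244868397534895643597790170922780855059085864418843568886103841902718332955765655014694084890217015356495602701840945627312839804047859746162710210908137591493078169326515353526709829189319024481552769050705214581573747645132912917173769668743359074554861753023141851483595401)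
  (q
  1527022742831148294830838095768569623929169920633860316630637034479300997134602988730017664201633778382701610213435808070783489365512575713796470760168775774250335947782880936268267533
  (q 118572908851270846535678947422519528993330458551341556432775172234588304839933965 (s
  95643581498848056077206590606713174958903351750779098519581093168474153322615885387455981101363908588390193291780228062507160530812758056162273409744171202789785071100583810754101949087360298800261962647788784311924124277348973696553170249820232505135974811970240504802012520898740898678619648919736390796803750087742232832412252778792292682373134236902377643624020361009474206203793753871999596375809408747104988075096499738491694018364168972895573763444085800514670663177037728252850748514269700235773730043582677705171580418599202756137446323887184620868577418730623992449)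
  (q
  47719460713473384213463690492767800747786750556218676642280123489418455963332206519584291990668039701666927649023967193138751269113324290329801245507912050799599513974086286664925197
  (r
  1433834798436496624257073673738735594260371117669386325076203779089399502623520356568979384395571902486201642344131414313172999111353841723673806442417828137430184085334394573918568589267285767246167854242944181104638128277797148110409860372493711980268029158231237479491352076796105477810559845482103319505637168412090553983041645988586347246236416274165538457776120638273430347718061223518754516381879275445044370245659509583650866693157348452705295830466991313519458130972427014196551304891341306660781906695600509836231916860796639177531846660561923557497540460875843468185898083523301662384766342833192159205486145620421817954364485709144023296)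
  (r
  9000326771718851333130776402913173308825494033554587871786889824791248516986790025729523557573744138859862555449515380723246658542347897463464026360778264976787660392890366772558820742108512856922619428257051624323767678136973074357904344966357484464667754424496370350527134116280291810691511488644979363424883968022942351940796456950767196181997660320962036200851121729313891792249869933214439670304184409666270946313778828831940368373717679526567149056236555317663860395668274029545809548345689978129222454741665501738575775572526072298007729748300627523882172076392576052528079719624193391207008252045120239578993320069138662336776985728713249028022973457623676366334182933594188758853313127750561980672)))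
  (q
  1527022742831148294830838095768569623929172969216428984591800493070345793980616798678358571945023484873062845001954463901765532032058357021778366886498566719675096606797573820185182221
  (r
  3588420576833441062244370831378439773819785037003541431882628699514255443314500393346179883607337274256742777983014871738904538317632341800289191755521719568689501381655933851785009997301112625825841595583279907732341608454933594897898548977673163407893053440838145785901826453950866182732680695578412296268408066060364279496035467479825182434860983816376509907018223976784818354854835585536358376061347533427058485397132527520082186729409438902819423367648078421055536229819370420182921833838805262624)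
  (r
  215370198951811118452310367460566665811575546344440468723410887186971083524505245560931391389357651047642487089904071849282376785030647480236760275688267534108350706341087804363026818941027495774453451409535174014165241405294923286989182862168004858757357348520126609686347710415409218606388603087217462318075764969956882571615780749284450935627631569384529551379725675723425086985511596421115748665060937935590801601866486778029853389505924977109775094025583740526246016211948392963656462257538313502718299074462415186754413334967815674694245544790404580488756192844633798287572418873794848))))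

noncomputable def t4 : Tre := Helper55.PC.toT t4n

theorem ok4 : chk K t4 l8 = true :=
  Helper55.PC.chkN_sound K t4n l8 (by decide +kernel)

open Helper55.PC in
noncomputable def t5n : Helper55.PC.Ten :=
  (q 7589158269608970185740058898602658249432586335777628100322581110362486018217738253 (r
  7075998889886270513715490013566894456212780883978281034435518813469296937621315421711752961370585253421221149228255310644835679446695138605542351825338867978704367914620101221929202097352398977582329237334768874458646467366126014124847370839842136025717808260772447011466914351291450575627678922167593935571654107624045966747501021554598076735225167100870085343334951932513497886250748065161621995120860118909719005238353358402309365054325673854352329901251211960453195479617427978385567126516802097127297252481927062064503296753885938410539848274209187992721267676668160)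
  (r
  1133817790113574696143481494974548375995591774962173839929124490623755667905380701269944782717836418270328693835848014427619631441560171696538404625509475225980357952481829506414012517152465605294699674987048273840923529979900706088199258808101626956638351593771711085984040808597489475119335258673879509567281545679032093011270636892838837827793318790976610390641520691385659365862056200151297735481775337013503502021850571147278887790559944242202096077995632972778519442739248846504210815083097738428199274265290313441206858349014785689283980442145254666791118073807203704538357883918938190169895813452919263280824519328744863837269872295575695895482267390198407456))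

noncomputable def t5 : Tre := Helper55.PC.toT t5n

theorem ok5 : chk K t5 l11 = true :=
  Helper55.PC.chkN_sound K t5n l11 (by decide +kernel)

open Helper55.PC in
noncomputable def t6n : Helper55.PC.Ten :=
  (s
  923476448582292583445283053842123900760295909438314155976665539385202285258352705894776252157222797017332570056209301259598510356699394565670044112146574929934707458363019062394590027752779926430515378431955447167418390470229709027342558299671764386709071048885867817884035685304281732548550450022942695917098523985807711033568389629164727653089016313063882723158906899236885458174158976398634312885025396528481605383641549075985170944237549204007879217603878414419597619864267610142428588328026366422818174287217281)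

noncomputable def t6 : Tre := Helper55.PC.toT t6n

theorem ok6 : chk K t6 l13 = true :=
  Helper55.PC.chkN_sound K t6n l13 (by decide +kernel)

open Helper55.PC in
noncomputable def t7n : Helper55.PC.Ten :=
  (r
  30591764254518227555258277062419655640752238822975691007217549251187151727819869825905246637414019552861798678956517822413507593855012903652290041093140915015710484413862055397800773052812319013925495275612057911425438054660891978221030988162664585744012049384831453016049420069679822091193036054701335966455278909457735854375019967732815656919305)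

noncomputable def t7 : Tre := Helper55.PC.toT t7n

theorem ok7 : chk K t7 l14 = true :=
  Helper55.PC.chkN_sound K t7n l14 (by decide +kernel)

open Helper55.PC in
noncomputable def t8n : Helper55.PC.Ten :=
  (r
  2538972411603438539576484821927370579996242194642917230868214257399090072991100211074544163636636680021260981520038866509357259679434952362878548453680813910240331570350107799381824931292811319316447132788773397511294048661207308127890599947387073526549407682719024427941853764326863304073895641569582010569001941567742599191385031675441502787031965361621373878018313)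

noncomputable def t8 : Tre := Helper55.PC.toT t8n

theorem ok8 : chk K t8 l15 = true :=
  Helper55.PC.chkN_sound K t8n l15 (by decide +kernel)

open Helper55.PC in
noncomputable def t9n : Helper55.PC.Ten :=
  (i 2660078623947370023663116930647195657 (q
  133823452204857307664078008380940020723354604888228111084725353384190588553996936866655760356875725420065821310985336430602953489920364220696260701177976343097044446870775334084673549
  (r
  5639926291756656108909966860006868953486105673659747173505463217508650885574684585876762091287145953989258926784259819423843128265398588274083980303043105109578270718779972779151877012251667839187788825048572122170080642086349546811433849712615231605225656418224289180648771441559879573788932789046474682452702768515936531508751923940534213209445149314738250213830669858214820667223090418166498997595361484616910382314652544601585128803173890997780420737210333140709887090530721572947313660225981000418980699736947219598838272104315918951516779328807158175864722556485809597812522179711805558682962581763686951280374955205910869686430024136217485878938232524801192421213234353577971837522489659966121405868264495455211653442819273648450576673)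
  (q 21711044349513416706138960988509457938474741058213461951056511097436710764557 (r
  8554357758145472538405726141983613894423117059602944255117408023114483462093754391697133091994794283462554652688058303607027109008939926878522967111114203002930149752085236335341685090658790153780813661486664668886579005581690529133026562030304419062540570594470766470913697171683147253598493644442918031259224670489056625469090301667822625208902598514164852018076743421072307613511797769494176619277773710976604984296443701042571930840254549974828747225195800743035100197494618940121110730663797906047931390381931047893417381276695086870044870107436868417685743361078374301139674340774306373888)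
  (s
  265378705342339834727130121716821446365621407872501287804103499325424144957574359662054055199238550508271386417775770204170894336809576102046823548843266627007277292524621011257769355573069998705913252691266554127666933320903532535402936918375585427873281306226022334127631820928122611381135715033437706074203627533125362447898405670088881173716363304477510751997249595490917129039572915569535758398273072217088550754090077781809416384742353850522635435204090864083691279425482438494473949081006976240282054874379143204866744575005327909145201603823749898020159115756161)))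
  (s
  17391858830616341116076096812666731672226644259855463414981606735208055581235076427306195910061217450525907525489568959648297633378086637337014797650087603296872914049674946507633744424562512020909207406961550046743561668834592972740023430472628187421496931720826523531703486550184413453274468786515739519099803379004080891234490951079844311056923742471790319168223960182772480086737851403331448967583240197463521805927609880928445895176752562379293723791329718702532102260400402015139982225785670835558735008200413958782438193742921614445684707572891191585047507941754667649))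

noncomputable def t9 : Tre := Helper55.PC.toT t9n

theorem ok9 : chk K t9 l17 = true :=
  Helper55.PC.chkN_sound K t9n l17 (by decide +kernel)

open Helper55.PC in
noncomputable def t10n : Helper55.PC.Ten :=
  (r
  11746299659221757204284734527036823927452041018395654724938443333330917240826438014529963003829125927380071084240676953480147974705657022204677576750044315760391978518549837031058719807473956583406634027646675921112684253279945280260448565249941248594174960981379271518977701059491234410163378270999330268770878988116126395697426788278621021631050518710490284139139264629183682801347576954247974350926290940740682683854937238313007294256796356081303795955068457369489265434431708283114021419282409504559231486152112368476406998434842831741157817762728343136051572943063558524115575383261523000095559657615883270936842467201167717015170973199842417582368)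

noncomputable def t10 : Tre := Helper55.PC.toT t10n

theorem ok10 : chk K t10 l18 = true :=
  Helper55.PC.chkN_sound K t10n l18 (by decide +kernel)

open Helper55.PC in
noncomputable def t11n : Helper55.PC.Ten :=
  (r
  19543604563424480307703614529662681891380301137317845116904962329617412497835154235969892882113479014714190973452924942067468156253364252625664029148437300105146784085259127357916832640547570415349448284923915587805827533024995009734006978089586393621953560970376221569951206073961359474077082709106971588340454855492926381878641926443903128826992761487466505077404179400543627475738947916205031861629483853357795072540463750335330339309214666062410983576382933931392317738720891551394216082375784223559208831983003082086229306988388587785839872782962155710099998876994581117769496449932116388018822591830478723373239984646799267894268670173859779671381598038105867587918708010840082547516863477830427861280)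

noncomputable def t11 : Tre := Helper55.PC.toT t11n

theorem ok11 : chk K t11 l19 = true :=
  Helper55.PC.chkN_sound K t11n l19 (by decide +kernel)

open Helper55.PC in
noncomputable def t12n : Helper55.PC.Ten :=
  (r
  165147531949177150322797163602467203446363767008537546607563581776125429257768721411991699743409571793048805986435780976142856869590542253851652234944206015777988242586553367091836749769941692277031015924867028520723117866187471118433553685760224483124881611505573136702082115673583263285179075741268197670439864522909161776236302172064494218376575346492298873696133682329657584523792610648275798097214285013381406933192520948626212144128018020971815064390094979486783527393850766050451616396805006919034508134203337606621469714658279343386940529529194421055228101147047563891799095982144728937850970996483637159978782247191648652946792096076669184)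

noncomputable def t12 : Tre := Helper55.PC.toT t12n

theorem ok12 : chk K t12 l20 = true :=
  Helper55.PC.chkN_sound K t12n l20 (by decide +kernel)

open Helper55.PC in
noncomputable def t13n : Helper55.PC.Ten :=
  (r
  8610816131078366224574027538911573739193923703368900476417755147419780746668873276132243392208465439887270124136310054357370839368103303687411065774124610533593664612835527729221770919955881335080168577825207390212289728784724491768653965033285002494152810046302289965445689551453746249027780818156777161544783667179623658593759789079641938683839672179627401481)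

noncomputable def t13 : Tre := Helper55.PC.toT t13n

theorem ok13 : chk K t13 l21 = true :=
  Helper55.PC.chkN_sound K t13n l21 (by decide +kernel)

open Helper55.PC in
noncomputable def t14n : Helper55.PC.Ten :=
  (r
  36983173674850438047937431105966903792117485834829579114761931520893475956679094913083641048921516654412709628796291074768159938277328042771378538487181316115767503049915148408822980556829901438531932168554396579600301495267178579287268120282442009989552052875266794245200790536510763286885524277446362654135736455551013188468754306803622541187821106171239380351317188873)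

noncomputable def t14 : Tre := Helper55.PC.toT t14n

theorem ok14 : chk K t14 l22 = true :=
  Helper55.PC.chkN_sound K t14n l22 (by decide +kernel)

open Helper55.PC in
noncomputable def t15n : Helper55.PC.Ten :=
  (q 7589187217631292994762248366668807754917093163089131329035802245044728548305272845 (r
  5370976848150212367082857815310391210426940147752620124079801018095698307363475965111838637585917856113930816956241731418702642029279598818754168376351476590087106270467924236741476298661202230106945329302038737333075352295716975609239430340148249237513066618219627250937624241582265357350826685949885567979497585952989487674884815734120421308308459262329759779547585526604550778906743416214262097761440100665610885545860424093141406878141526768913740598865047477381033602929667623567399142275314384110365159048662029680552390889280331502604664487814955719669701136498426968650650944529804356278412569759636177653745423767018049133527789810122515276032)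
  (r
  1370701601206701696586160772165551998800221607736378405930970699423766355695721452106516173011513758894750228446057287145060099154642806365191176978598887559224585007196036356793057442712315611178081045603053404888295164803165085991428831886575504621259446509014268219568686463112359944152604384230250607413382394274852611135438645253100990038135584545751493609960479461208912564416014679321401356577802092761761211406898472679518665027576256312630993961035953997570400193853495508502001870093183917459561512048113522869354700387794024577493888506274193824575585064504389960202980095804644316934443599923341679837871243878104243158514007618758842294774686977715205253064191988683768772944160))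

noncomputable def t15 : Tre := Helper55.PC.toT t15n

theorem ok15 : chk K t15 l24 = true :=
  Helper55.PC.chkN_sound K t15n l24 (by decide +kernel)

open Helper55.PC in
noncomputable def t16n : Helper55.PC.Ten :=
  (s
  442244532040645002129566548990358479454692937904388933493462118631171048115796314407110086666940583588726498422504228456678463798766213076895210659551107144264161429484009443901813453874599640969711065745942613126242520351296499939272022672664527085743671910286090399161974413329415722367770799315410999748849464367174902229712770645275846950419365411766611950964337219346796151949230390031540160165928006457704768988495041748205648751417551418184582463894928654944417030066279417421001160173953362560851327125817705370530900800004820618587447410430852839576397461586561)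

noncomputable def t16 : Tre := Helper55.PC.toT t16n

theorem ok16 : chk K t16 l25 = true :=
  Helper55.PC.chkN_sound K t16n l25 (by decide +kernel)

open Helper55.PC in
noncomputable def t17n : Helper55.PC.Ten :=
  (r
  3763962836376594813026278081135482525745743716856267358097594823182141563557789262168429302253128637641420439520554391779900718062901702683212350044116325564864005498945736149570921458217110840714916058261272218778309912433555694044735824083361300463720409234634079766921309449054221013211591563768088331628045722300827803463421722484412489627758792614367270629325473144549898631697276986105477695965566049878620321356902555146737643502823492893347466502215513198187750136779935771942077043829544121773248197119213853648544708607980635562779312801495176812200337065741410918631116499870837170473729857118791090682147209017049449916348052283389926840223888371935363842957600)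

noncomputable def t17 : Tre := Helper55.PC.toT t17n

theorem ok17 : chk K t17 l28 = true :=
  Helper55.PC.chkN_sound K t17n l28 (by decide +kernel)

open Helper55.PC in
noncomputable def t18n : Helper55.PC.Ten :=
  (r
  57062078914261715231434612701026297819878593085460140317452424865385445344227807955347871306204835641906133601763194185278125894646367573479104590878384272278722709712609448720800917043237715643086282207666574660950859776687004285646539377231384565573129775193833766329157480265355122226986468340292687024148279418159658863538599297721438988814406170989615475146515321771040540781941699472592597919942951806988378304647009661242108563388670809193956309475431162442204676293392629952295776471735725267197502628231030865400864098539497207890167318383733122226913335020555842077583526746048406669381186293608315725494577160932278207032976285936706638245572518583218949273188458821864658279337733491377413834524141474474124029639366265758600747444339376459481966876306315387678412165264212322496742427414491319655000463968771693990482027297)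

noncomputable def t18 : Tre := Helper55.PC.toT t18n

theorem ok18 : chk K t18 l29 = true :=
  Helper55.PC.chkN_sound K t18n l29 (by decide +kernel)

open Helper55.PC in
noncomputable def t19n : Helper55.PC.Ten :=
  (s
  4617253637409717588172537749398201847146246352760885010602060969528401649618377961589738776159276876847330523530999300336164987402609057706061350866242638926045492476269319262840138076005230949017475644342632490924681783582561760589277601187123589556352519506155122979014209628322568818362177150609563502331761273522274540815665575642595841570601728359335174433287520205901482083894589576142999801624820408086127138139120908319184407025487247729268512031961746238236116093733876284621864688985396541107731973194908289)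

noncomputable def t19 : Tre := Helper55.PC.toT t19n

theorem ok19 : chk K t19 l30 = true :=
  Helper55.PC.chkN_sound K t19n l30 (by decide +kernel)

open Helper55.PC in
noncomputable def t20n : Helper55.PC.Ten :=
  (s
  5567197525321288560150947627679587665543933821143956102469992327364874594519374028428586383192192036914110840113518018966278426723629954514248130828748887039877312911662385213553585590482213975389878821466742078081788434418746137061220563204409251142946734722546630148785852130854692150611043736848247872149084627202661517840064190955757559832122336680832016837700072495952347543735522186632852850337259678052184297966570398994054377582232635113453916543135160708183123756178560054317155300024462737308758114051384703706087159093324995972760498273942282951386464897)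

noncomputable def t20 : Tre := Helper55.PC.toT t20n

theorem ok20 : chk K t20 l32 = true :=
  Helper55.PC.chkN_sound K t20n l32 (by decide +kernel)

open Helper55.PC in
noncomputable def t21n : Helper55.PC.Ten :=
  (r
  560612829638057797344103637802958561576096929085721303171499520585455232893808080129105212516357932468219052465393003711068629952698067864186934234074458094839107919748660966853930367440151550062401546632951643184712704968966074809791839311325928718886223236744009929375082385460052170785054581765051081690049465184849405131982800383687616997327956767233826267277495265301678868155044604783185739401887234725912761440867583513603774138471904618143166611787480553496077888721340112379653657240116517640634455099848877992849559829032854621400043412224641376333528746773950816023034547273694084010877217)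

noncomputable def t21 : Tre := Helper55.PC.toT t21n

theorem ok21 : chk K t21 r31 = true :=
  Helper55.PC.chkN_sound K t21n r31 (by decide +kernel)

open Helper55.PC in
noncomputable def t22n : Helper55.PC.Ten :=
  (s
  5581912879320733962120002341125185371151472318039270405713218262679920811496303790572392798717707639576333402106308449460115944575656265180014720894388213901122736640133643379770542116659250860702054949128678155553091694561731829832212118528324864453571637686914137810136895319119493567472772869733610937092492940904980036124667854294676126345078444716051635797868290532679026628473201903486428996438081377768047656611422728816518841385130681239639141037439000538108835641138323680800239641380701694276973538672468691464398514679813715788417)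

noncomputable def t22 : Tre := Helper55.PC.toT t22n

theorem ok22 : chk K t22 l33 = true :=
  Helper55.PC.chkN_sound K t22n l33 (by decide +kernel)

open Helper55.PC in
noncomputable def t23n : Helper55.PC.Ten :=
  (r
  57062078914261715231434612701026297819878593085460140317452424865385445344227807955347871306204835641906133601763194185278125894646367573479104590878384272278722709712609448720800917043237715643086282207666574660950859776687004285646539377231384565573129775193833766329157480265355122226986468340292687024148279418159658863538599297721438988814406170989615475146515321771040540781941699472592597919942951806988378304647009661242108563388670809193956309475431162442204676293392629952295776471735725267197502628231030865400864098539497207890167318383733122226913335020555842077583526746048406669381186293608315725494577160932278207032976285936706638245572518583218949273188458821864658279337733491377413834524141474474124029639366265758600747444339376459481966876306315387678412165264212322496742427414491319655000463968771693990482027297)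

noncomputable def t23 : Tre := Helper55.PC.toT t23n

theorem ok23 : chk K t23 l34 = true :=
  Helper55.PC.chkN_sound K t23n l34 (by decide +kernel)

open Helper55.PC in
noncomputable def t24n : Helper55.PC.Ten :=
  (r
  120593567681026648033231845531936207824229275856730264909865020614519445483999415218307798629655093270361271457847791600414626421292025785176057892313729872481412961186791678050742049660778407510070496951950369578631109773757805267875729632525666779440940115123892038000946860617011196603009776871726745171602055855396933180097670079373126800888200067024534349930611579879307910015058041771598537810668871473440449934044655105599702774912837227837239101384405603693415015773999016831854762393176597360733366359944811828930962301782732202192639517117796377488921581803405762697936309515582599040982702948510995668846118277383677121542362940180346979274743065861960061479464440934940986673733921)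

noncomputable def t24 : Tre := Helper55.PC.toT t24n

theorem ok24 : chk K t24 r26 = true :=
  Helper55.PC.chkN_sound K t24n r26 (by decide +kernel)

open Helper55.PC in
noncomputable def t25n : Helper55.PC.Ten :=
  (r
  5416976180473796696338510038618186156442586175719761617312868812323929012015160430880999495209723125143312679454163083474250044837321801551974865315656863879904269712482771736537549324861723853569532945992282231469193312988342325397517062532464404547248533413466495961470858732358227877161221636666747160378249333279832503060472145579744228016056213936056233725561342569341755423495985689847658259210733759998322101607094593319896552969621950673934256131667461789127018843985102848875480884029739001776181798520628014512016777145000678761787200792904178214210699729682858559349728698094396031768705997769693927601983440622991368221354304747637367216658900603482509419296)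

noncomputable def t25 : Tre := Helper55.PC.toT t25n

theorem ok25 : chk K t25 l35 = true :=
  Helper55.PC.chkN_sound K t25n l35 (by decide +kernel)

open Helper55.PC in
noncomputable def t26n : Helper55.PC.Ten :=
  (q
  37483432471876649796199121899697384973501369743275506892535296773707426613075779520762356048715170609485683213904797799072475732801992857179138151091714554930327282170183538573325
  (r
  198105696552551140384803811262762356929822542677750975241267792077440366451642224034037677620607820743772403449388257154507077695830482251135914150230529853190180291288492431085085516774265469407843867582917681883070798721140067709068991562947901939719700409278315610653947820854701673207091790598713770886513774722166058949117393549781586495012798272268193352679153877359652309394701066349198793818316082666207110334656583405392749852138687808453935450008003815183680408928318114821080346595678257470335991785420252750655186522584061795652710406753167784304631982196172633266590710238421042617059454005651391824014025015839684142969772029152535578715904462870473223692576)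
  (r
  557096419271299449363661503945994785651702383196510775684566866218458340173697691752093707786187836185699389814124193559125798786410897751523802130807373808681706412100406056472447347913956745672614712487304917461718445749366662989595711671462702416657557689076464861485945002562839774312095810783927897309633369141525188487578567814014031737185700045446009367302018077316494837664794784815854681657152818778495131461770017101117962417930242644677497366014246890098052272273215791038240706426171206327686868189843456784906375206230004716569475836676479686886531428792951300446877209519672784111147490798528792695590783130095067422003458221493977748089642551766733349807490825157868572389858902276438479854521513876676536480397779232))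

noncomputable def t26 : Tre := Helper55.PC.toT t26n

theorem ok26 : chk K t26 l39 = true :=
  Helper55.PC.chkN_sound K t26n l39 (by decide +kernel)

open Helper55.PC in
noncomputable def t27n : Helper55.PC.Ten :=
  (s
  194947170790705564174942064145678375794667572318414331818793764199522245578624394813219960114104125700113162246884345764466136826586085602243699098768055179852764203317898348202313206384748510174479334428500588091576092986091371962560118031081201205840383375772271276195319800169397190121477877083040835302921467098878823902160908669899033144325122038682058905881476505954368801922659633144883475698999783685016980484054975470273112374611690040434426689187021817744274139181530592178200604621401662355403958807293589990500216078977)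

noncomputable def t27 : Tre := Helper55.PC.toT t27n

theorem ok27 : chk K t27 l40 = true :=
  Helper55.PC.chkN_sound K t27n l40 (by decide +kernel)

open Helper55.PC in
noncomputable def t28n : Helper55.PC.Ten :=
  (r
  81935220031946348148590814511475644328200593827628443518052373893879044768136169907670912635457340163906580677651238321948968229770888775070983186771125559335438503242649558013217295041224289196398557625355359391853102545615203736378351409656506889746631191644763940644739573473023838552958678713942694535521660781569796992519126219789036497907898449097887425101906723772343659810708067212156151282456135280679847568827020027438838071776991230169472110171279695102530932822394915414660218072462413893200386419689415275584327307547676577886960550968711754630930815068280721912576512515578687697823169672085686140577767009151028037928291313538310400)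

noncomputable def t28 : Tre := Helper55.PC.toT t28n

theorem ok28 : chk K t28 l43 = true :=
  Helper55.PC.chkN_sound K t28n l43 (by decide +kernel)

open Helper55.PC in
noncomputable def t29n : Helper55.PC.Ten :=
  (r
  9737340579033301685027900127503755532103934947895752199092390923505623662615195902882140131554895711840807858085163946715766603405322511913943037053236079660818788130383852198313842914965117713911966782856502138486473806684578529418238563310124845480496523845824669334857542958171389657036276432030519190579155302093039494451653209749201041475426677534285812649520621142861622722915011173050401188630515995004824991548747246217469256143097457529700359136889038054949399102806047640530181570114733888947252023527835056284058925338263948619067383485013952697311045538083271459491068641051531335066572718126714980848852071784851209319066432286993897940936338407001868364901785889)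

noncomputable def t29 : Tre := Helper55.PC.toT t29n

theorem ok29 : chk K t29 l44 = true :=
  Helper55.PC.chkN_sound K t29n l44 (by decide +kernel)

open Helper55.PC in
noncomputable def t30n : Helper55.PC.Ten :=
  (r
  33944071654471893844442054508248353177516172650918537392207705276052704886500470880925832442328459455356913471600785423503216547389245424945344323204203251656289634182107035892297894468466868464047966303105528174236393394825813732402329614625862203540210539566059674083028703592278347623905686791776839240825913751908177230977934812905653194181747557252860055938671921813397215587175860742938861794534869836320016371878481859282632922713978796647526273449374210802715614018138362153445222849703231431712230576026522799080231719958704665257100838897217822857150636770586145389707488473972154352867410589411464752466944939050370890272982941910162643599870273818195350214714581697082089181612570663527154721057)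

noncomputable def t30 : Tre := Helper55.PC.toT t30n

theorem ok30 : chk K t30 r42 = true :=
  Helper55.PC.chkN_sound K t30n r42 (by decide +kernel)

open Helper55.PC in
noncomputable def t31n : Helper55.PC.Ten :=
  (q
  17873493419588398836230812978600208746672396324305806946305409547747871700649380483938892961120974909291965327300069420968307641807271902990393065250733957783096553849880589
  (r
  11836225600248775308034506278250385236722600024248568177912414261112730949094952398216346995644967599585591007335139150396865442521696901666108174718719265646520290318234696189205667795955822989472369315239564568530086583565387726880619066624131690243527760826562523003304723161338594918752613084240888701810985220674112515964894386861892355219284156320165071801857211092286019010172026918102086119138004937539812889771514965705264099336127137444782711006073955464993335839394115064798691496757456436448325552788373605932217111166153420656424988263417862145540659193036372539340415709478728651495247413676043690114)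
  (r
  6818252514828011677271392025726249708811562571832169286881329046320956115319002138083424962224018599653008726585237941464206153365958934650282433777843217539467516944024082969105110868290282993414262964318312174943901239964923460170616148299263541594056724110838520250139297277889152592669669461414560025210340225473429658626750444179235177316174632290341928189411995326962299385439019369485249902861271952700346441505452993959792313177920353511868974228955613464867372919353681533210515880772043282649055473267939477229375426015002183263459391416944607499326967173982002610628724653014741382069326319092235528458607202849871770584645034454233023827786885724788765526552650085366287555474101374946372700263297819705004467036811502523539240969775537827186919193452833))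

noncomputable def t31 : Tre := Helper55.PC.toT t31n

theorem ok31 : chk K t31 l45 = true :=
  Helper55.PC.chkN_sound K t31n l45 (by decide +kernel)

open Helper55.PC in
noncomputable def t32n : Helper55.PC.Ten :=
  (r
  38773160634830900608484124422757114409051690289005545673801300185232649969939871033080743571857906003349922850851958862334694741131587294272143618579299548557053270405305673966573433440417045648836188680512993072953333938570511368193411504793700911263915521171448386946754719999681871664600506360173843125439249959035802290541897013104624777618352700839698776877470726704357514)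

noncomputable def t32 : Tre := Helper55.PC.toT t32n

theorem ok32 : chk K t32 l47 = true :=
  Helper55.PC.chkN_sound K t32n l47 (by decide +kernel)

noncomputable def t33 : Tre :=
  (.K ⟨1,[0,-1,0,1],(-1),0,(⟨0,[(4,0),(49,0)]⟩,⟨0,[(20,0),(7,0)]⟩),.k,(.r (-2) ⟨6,[(13,3),(1,6),(21,
  4),(3,4),(1,0),(1,0),(0,8)]⟩ ⟨0,[(1,0),(6,0)]⟩),.k,(.r (-1) ⟨1,[(13,0),(1,1),(21,0),(8,1)]⟩ ⟨5,
  [(1,1),(0,3),(5,0),(16,3),(6,0),(0,0),(10,1),(3,1)]⟩),.k,[⟨0,[(0,0)]⟩,⟨0,[(8,0)]⟩,⟨0,[(0,0),(18,
  0),(11,0)]⟩,⟨0,[(14,0),(14,0)]⟩,⟨0,[(11,0),(3,0),(17,0)]⟩]⟩)

theorem ok33 : chk K t33 r38 = true := by decide +kernel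

open Helper55.PC in
noncomputable def t34n : Helper55.PC.Ten :=
  (r
  114693610833687486158289041394605656788149194803149689768710866093151060900015307584573509297450857247568472111238949959448314767571584200022844271429013568159998807336891060147609644871754357741500712831237560450238344482565606250953552736484285593102849816585926128513795873051517615973620122058288683076010871328578268993801349272757408400012203570044323950570695757043510361366457513687431536178871088113506986738318348083791493424519429320464192243396300817354210139099636679627873532447726522318677674908301510952367877643831476007679005819699076068864338862199917760029483188238796207330817485361204495847208880870633111744545184255907272918201031312015829767771256277287429866252270207338789484559442892086782632101469862478737925004549432065)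

noncomputable def t34 : Tre := Helper55.PC.toT t34n

theorem ok34 : chk K t34 l49 = true :=
  Helper55.PC.chkN_sound K t34n l49 (by decide +kernel)

open Helper55.PC in
noncomputable def t35n : Helper55.PC.Ten :=
  (r
  3560806779770547707073569058609859948558204272126108240934537805551456669185558325395920200404111791248271335658662363421434713750284630141770468131596807134104763251172005942964551574203933731982161067364260631170549051735937196735998944184806119588745909511958895917762663365057695031251122743158593833247723084851124782496923636736265)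

noncomputable def t35 : Tre := Helper55.PC.toT t35n

theorem ok35 : chk K t35 l51 = true :=
  Helper55.PC.chkN_sound K t35n l51 (by decide +kernel)

open Helper55.PC in
noncomputable def t36n : Helper55.PC.Ten :=
  (r
  2004525419049867290578448853344044759538757340827175185966182566077025220670815511328743310103951170856454590846598727757082259548175023344659350747196402823762705142516366011541645712640674135159771873654746211392850857158410050482545946241881462785781668451368007679826694989124161120898461297258128150491627917849784718259190353618537312067577454857)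

noncomputable def t36 : Tre := Helper55.PC.toT t36n

theorem ok36 : chk K t36 l52 = true :=
  Helper55.PC.chkN_sound K t36n l52 (by decide +kernel)

open Helper55.PC in
noncomputable def t37n : Helper55.PC.Ten :=
  (r
  197051864363347062090425399663883865540413637784500788961598656197151071264807981073913456493112637458454972224366926595472874825765059369573815058201023275647475872192643550375466234905005609430702205419752790632461325784251064445082210802500226598009103325914951186277271203200799392895791022538367339855255441341995114127819248436815104697439522207834377)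

noncomputable def t37 : Tre := Helper55.PC.toT t37n

theorem ok37 : chk K t37 l53 = true :=
  Helper55.PC.chkN_sound K t37n l53 (by decide +kernel)

open Helper55.PC in
noncomputable def t38n : Helper55.PC.Ten :=
  (r
  1128438880469827630933060566202660522920112914979713476132024272932490633089684333691765689403965635149511350104673423105158012162026080863984140202088058652221037254278296909667565054619845169191011263515241850886873017953540518590313482519101673500847372723358567620147035290327608535629205996563809460272033960208539550887950904512125661985364968207718714834166025)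

noncomputable def t38 : Tre := Helper55.PC.toT t38n

theorem ok38 : chk K t38 l54 = true :=
  Helper55.PC.chkN_sound K t38n l54 (by decide +kernel)

open Helper55.PC in
noncomputable def t39n : Helper55.PC.Ten :=
  (r
  84294868872506184806381012200091819824235884285803638064928156453339708992777253090796781425238657172802116519407814485313125152127142969387462211071514793858132204274107479229794607185969807177193479290401102139804115257382784313019942874046945851276304532329680192988990238358881797491135787553831929512206232563654244576905023235350080122640638134524147442681828868080894335210097492129304856768818081536630905154870144126942129189318250200403639322121533235258127174825533869626669154872787849324489036749786262731432987117250863469861989426648338360340099433730130733085873540952275698964186272033098991545819632781007002655359489368961991492055955837483695294585340088426323255552)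

noncomputable def t39 : Tre := Helper55.PC.toT t39n

theorem ok39 : chk K t39 l56 = true :=
  Helper55.PC.chkN_sound K t39n l56 (by decide +kernel)

open Helper55.PC in
noncomputable def t40n : Helper55.PC.Ten :=
  (q 7589129321586647376717869430536508743948079508466124871609359975680225895944159245 (q
  7589158269608970185740058898602658249432586335777628100322581110362486018217738253 (r
  4841594911114131463695260767982005836129093702272205550926016017547580712296440213883274887683381664455962528106290174498029850251191404493238296904534208560798795378583238592325492913128299787184143353531341330657003584247097376898101713668429336745523789357830551607853771325214479262730329807814765915526266161902403131943522179317432616112922984669703901781345119026511482537000760936638471535051335857590313913051835919504872253208455320130664142273797825838629978912631543818951240510640919362913538418600561025999104)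
  (r
  659858738262917482855541449132931983964224677084161027415630974211664698050255780047874719933920651030069033543521850515022763159259126994689200957394398224903581501940267969657431582081808396469851534270745170835851589501832030601462935736375302600227561983208261785329788054181146547010292462187429545206870837973021030475700588191977617197008826146652276465273049942920206566036886871962576997471355167379306625410650277091316416774037533135611394648543326059222749800932511390824752778444389022607226674041109417162482944429163883297539566083803488912796461833250385975663197225725994071373748095834580425772417440065236890758656576299367059969808785696))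
  (r
  1561316713611452689614292216712304337575437660915180096141749155151428585889380801264602738834360446603699871264087115714834361065815084218055772003812777252409200601812520013881604188703482109651182743134312215041481680007068971824806969819124948167325643739285944894853513699433833937082296367456903784379905922144021676148125427579306452399150542229995720175393286433505306627614897628295887431398483139878497710110666933751857811426618011762697084600443092750765495430585165020159816152781979507123562166445444373130527950681773304238399546861824136909779921532580608906002394424504877913727033265612448604190250740566406215532889019785469571954617853982165502196451576882291999498528))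

noncomputable def t40 : Tre := Helper55.PC.toT t40n

theorem ok40 : chk K t40 l57 = true :=
  Helper55.PC.chkN_sound K t40n l57 (by decide +kernel)

open Helper55.PC in
noncomputable def t41n : Helper55.PC.Ten :=
  (r
  10375938913020306723890731542138334702948497792110775553941397104956673392444886538513902433965378044413044994096586971799688777333023956018438279030690976211029708857757175217674555529014666705361700516183333868682060060065630181691330814454223449398128283250720350729030435448241311773185875419351945793707552826171633310972718650139431598653999500452960001890872682126152253156347943322132120501264216524284423869555337)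

noncomputable def t41 : Tre := Helper55.PC.toT t41n

theorem ok41 : chk K t41 r5 = true :=
  Helper55.PC.chkN_sound K t41n r5 (by decide +kernel)

open Helper55.PC in
noncomputable def t42n : Helper55.PC.Ten :=
  (r
  4693606835320126518540266827500623007862804126341167966332597675237676670030082041202426025674545186199883905217824308289839573359349752555098394844953646879318380365243793487958196932742171726319980178461310846867580822921403528786020534046426672221037952389489060508760386062181973717172948938789756530876292887765924784801975320616863365442739423681714201716549124967578741955143049035244414687366581424339851942714066110341634762214462106559507320535814647325533281354783443957840441758992493645199556505531222546224678496432053190955963222395882040768239868773185324233864580797765934314847963979941078132672904046754371367753895982224686549227106927386584092367177294410502556683782375960928753323646379230326647581619188613393959988161096642632355740269968444744183131112391449628312807122990461184104914454537264412365190967183219647144635405504909088072280103540672552125287268028241421601)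

noncomputable def t42 : Tre := Helper55.PC.toT t42n

theorem ok42 : chk K t42 l58 = true :=
  Helper55.PC.chkN_sound K t42n l58 (by decide +kernel)

noncomputable def t43 : Tre :=
  (.N [0,1,1,2] 0 ⟨0,[(1,0),(8,0)]⟩ ⟨0,[(0,0)]⟩ (.x (-1) ⟨3,[(15,7),(6,0),(4,1),(0,6),(15,2),(1,2),
  (2,2),(2,0)]⟩ ⟨77,[(1,15),(0,5),(5,1),(1,139),(5,149),(1,110),(5,155),(11,51),(2,5),(2,119),(2,
  14),(6,38)]⟩))

theorem ok43 : chk K t43 l59 = true := by decide +kernel

open Helper55.PC in
noncomputable def t44n : Helper55.PC.Ten :=
  (q 7589042477519678949651301026338060227494559026531615106241534057225063120542498829 (r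
  1250232238820364157811167109056183373446560325036007345262262657941753630271260608099445175612521636792584608676353641607685847075883629628425425715636322672995823896542142822222901507529359664151095231715801677240242656500064086456416590265815204673097696885868857132903490663240250780697697511628721353766407378311797021765428127986784191837279399759939649949127441495513852410120572161915359807635827893918068468925045867113059258481122571717128601771432821096867286064367247315892180279650355076549409479483181541643023126960464627406631649531733194181687945750848306250905062044413846642546683558108763241552710340091557354938978560385280)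
  (r
  83317500798115674261210695139806994471357567626660284227279636214353846433583449911962324623775923531651080314121640192179017361898020078898288104019341463350141371228102235937831710152747839854084883168528992209656453596394095719532782439488222707867193581607107172135962992412146120467464739799555867033524337222411659259348526253022032137563232037772326708167082364045514779582069270570524133535092066818405232412693391425642568310363839674852013508383487701772237323412907105317659139859964624117683198567070855816690109189835322448657943073209932241668708240773296953426968043428352295850029703069589303210181239108076846025631765072632573630322289865755146379376205494925457288863708049023476049387809))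

noncomputable def t44 : Tre := Helper55.PC.toT t44n

theorem ok44 : chk K t44 l61 = true :=
  Helper55.PC.chkN_sound K t44n l61 (by decide +kernel)

open Helper55.PC in
noncomputable def t45n : Helper55.PC.Ten :=
  (r
  5674797675484468421916941550027946838217074584074328970938354225080942996210900665391529211032846459395220655651773906999647394401937242836591559052923768170191597564673493539161315206698173798170580789968556025457525875692602648245681721397366946328175633335708656079025402970467558684331765381524075331991238259753765591646914090751620166931181867182355878712185981918475651647076104064468952392928814733781230293841971439565567081716946116810222282267649331141100012127782907220144238782431045357327283476962739399018290491233876064947552203874122008641596849158619242326296073727158919410980464558681543935663896128523140864130634983680083702061869126737798659788230227810671779700832959198883297336470711949224943897471206205834912512)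

noncomputable def t45 : Tre := Helper55.PC.toT t45n

theorem ok45 : chk K t45 l62 = true :=
  Helper55.PC.chkN_sound K t45n l62 (by decide +kernel)

open Helper55.PC in
noncomputable def t46n : Helper55.PC.Ten :=
  (r
  536420740761646967171815055281761403778401954022025406849015309438155373751175483947370960947874443612481234492294426650661307850778199817142896206720482851640789604959867547544822011042952200352123908808286700946058252486543997666801104056017433075034139246958548442134631274520638310073794190073955578680516922585984285797088135663683335814614657745561777427939468337841953974267577293087187209)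

noncomputable def t46 : Tre := Helper55.PC.toT t46n

theorem ok46 : chk K t46 l64 = true :=
  Helper55.PC.chkN_sound K t46n l64 (by decide +kernel)

open Helper55.PC in
noncomputable def t47n : Helper55.PC.Ten :=
  (s
  41187797295248281369285731428901258172903446544711795883285241124931809589676384488205671429810399545628905719615130113140562135911803059099570286417355986970888044033871744975888370283098753234254038376629089800140036160245094081628178275210962341634312861108539503625894683765561458652461440597619914237361221934484813913942846072213100003082879312862162215277889019081902953167331561323888825831137406564386130143630111988210947627297052604101714835226063612478548383764426028541662752007473662856062954352056302618217636402385407374321709385738471930331777)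

noncomputable def t47 : Tre := Helper55.PC.toT t47n

theorem ok47 : chk K t47 l65 = true :=
  Helper55.PC.chkN_sound K t47n l65 (by decide +kernel)

open Helper55.PC in
noncomputable def t48n : Helper55.PC.Ten :=
  (r
  7269875145298703494737168766374477460427836126865471658721707251074894874797709440363341475633562905073892671259899963373984567955408509695653392313648440264795824415576127791427032239002311843487747621759966107823061900429497018491972552948590018399810701582951792206695045229998022482388322188622311654445661115568345612734351347852875650861747753607406550897008548535083273)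

noncomputable def t48 : Tre := Helper55.PC.toT t48n

theorem ok48 : chk K t48 l66 = true :=
  Helper55.PC.chkN_sound K t48n l66 (by decide +kernel)

open Helper55.PC in
noncomputable def t49n : Helper55.PC.Ten :=
  (r
  447037092521569117793656521873934439598504984362086367048441907396581895992411689947562668275854975830215746512410199999769368318188343210988427899224506238065016660679041648447366017753002526008153031669700062448982080003764998241763936345225758324014590488498028015450404611811029468058981826987437438361583374211413027912578282974462182440423640246300423443530300045736870754182446478936797319533106462881900302201558169622625095069786510406417779156478803386717397472246118915861377170275000634668333370648114620549253274272911018925502785057756108790861064285076989855902136466424131175895050306454057651975534149075034971920277220885745386319695621985570042505513784974951515187390533199603027019497416994495867920673)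

noncomputable def t49 : Tre := Helper55.PC.toT t49n

theorem ok49 : chk K t49 l69 = true :=
  Helper55.PC.chkN_sound K t49n l69 (by decide +kernel)

open Helper55.PC in
noncomputable def t50n : Helper55.PC.Ten :=
  (r
  114693610828346811708512211917183267430903658718555545519620273778590433045371192270187704771177606105921558026042521604263096156200049661593725121722368695112350626659077787172282526354295797440031662936744518380769250235939397660661856006349765407805424041132548458839911031398157780233184968601611504651182444278782617649763903711145917200126287704075743219348449176832750491377928409830206592620140363437999146823606624060779576284234243633680915481269033133523888142376675286911998815571852265175310496160640475707602361622631222447671581884919259627683462013937471609964840585046470212231627095748576188379490163081809526221366526703792385094130807609176203759762080286493271727394720969238387197884653612279436052603322514641426843240132518657)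

noncomputable def t50 : Tre := Helper55.PC.toT t50n

theorem ok50 : chk K t50 l71 = true :=
  Helper55.PC.chkN_sound K t50n l71 (by decide +kernel)

open Helper55.PC in
noncomputable def t51n : Helper55.PC.Ten :=
  (r
  7421418381799833659221788797504886315335494666113474610937463273565091242201858116693751780086196270873689978845863498143925423140938637442712503369044406255314025603552788389939955556501856153407128325649182492399745548494848641501125024274881964098944819034428183429440092563244161950988234648732923312372017040002014868058978236962938090541754040822405426107863217761623840569738875520087283689336284978444771593)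

noncomputable def t51 : Tre := Helper55.PC.toT t51n

theorem ok51 : chk K t51 l73 = true :=
  Helper55.PC.chkN_sound K t51n l73 (by decide +kernel)

open Helper55.PC in
noncomputable def t52n : Helper55.PC.Ten :=
  (q
  2122943898652916014557582221897170435593768509434774472830412967230995319136459127385968876786021465564682609143255374280298527543492493344804026758951276529413200674829
  (s
  815904848776427049159333006911672387761768342741435208328609883363346842201421867298738681462909891097726141565170900264255300370041420042220804573351969230176825421411270630937645831084620113388299402290788870708834843773042336780506693672500576640613991738037951083180482863615741422522239927755873382167023775204377632163153545127245405415509183513141747048409816204270189340315056436014627830650092902962866813904959276417784716049299744461105287919102476037906306868726201721929716062733981823904847678004363424414482978703832390397517981678498927771690403785048712871263195255276161)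
  (r
  123151326891975519021324271179158657708832752451344010002882194810404134189060004968107242979552384246274186218824430650300231082591647341230130840950450644577557854540080331904435452438102972792603103984917351962046240750213628552548649312140180469558536291797179383991260302007009153746359246323750399952213870275445755678069830384781840910903725694258200498597499682832809024135788001581776626102802013763724216651853573451922574857452062053950021992105969193672440556315535867903750069550316983273039013580528420613605454242198132443147211898037024437295008439463232407521664686396894863691251316505510198027573438579912942783511338286882858380299620255763093816576392655167382076974606009388966840537291357414799273258792662667386471256413745189256176385))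

noncomputable def t52 : Tre := Helper55.PC.toT t52n

theorem ok52 : chk K t52 l74 = true :=
  Helper55.PC.chkN_sound K t52n l74 (by decide +kernel)

open Helper55.PC in
noncomputable def t53n : Helper55.PC.Ten :=
  (r
  15293548623769132095747186520832318150107744218466174301320376348364572842325773651665447649926249713880929608646997770457236676013417550167963801130021625346679939273835829366603498867853394061369321329781411915117181698506014820201198907190909492273144182207777337933586020529850394229889945212818563606225451460294959519627873244884682454343945)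

noncomputable def t53 : Tre := Helper55.PC.toT t53n

theorem ok53 : chk K t53 l76 = true :=
  Helper55.PC.chkN_sound K t53n l76 (by decide +kernel)

open Helper55.PC in
noncomputable def t54n : Helper55.PC.Ten :=
  (r
  36976967342812446370979173369707964419951585750641114112334585024106226660750255210598898866340588692902311045645076828637851007471364083728416519220149824602139904474854100681191091190975178076204919082107704338505489783820126511800811034236473529136745227910043035175151031648267675403211791236656168568151055848843920976002664111748032407771882545210516666573635461385)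

noncomputable def t54 : Tre := Helper55.PC.toT t54n

theorem ok54 : chk K t54 l77 = true :=
  Helper55.PC.chkN_sound K t54n l77 (by decide +kernel)

noncomputable def t55 : Tre :=
  (.N [0,-2,0,1] (-1) ⟨0,[(2,0)]⟩ ⟨0,[(1,0)]⟩ (.x 1 ⟨0,[(0,0)]⟩ ⟨9,[(2,5),(2,6),(2,2),(13,3),(5,9),
  (10,6),(4,4),(2,9),(0,1),(1,3)]⟩))

theorem ok55 : chk K t55 l78 = true := by decide +kernel

open Helper55.PC in
noncomputable def t56n : Helper55.PC.Ten :=
  (q
  429062960307279014196104476018656558440801775497470183475382235798186792038656649049545935512421262189920960704074546296775546176302254482665227445317271565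
  (r
  1240760079166034906945827651924467437488884255310706904335873358621714161663603586535615839715555574956589091497102222313518777855220689568784444578159658956650288127493495783247761757883563755503019422044459603578376866574133486017646779209058615986160906707383989771153349731145575546741472433489061360559968282577972664439121491872881157977644429955130879353866167540060005161)
  (r
  61971563830379300679729111891741302248698930888137391725240381481375970129629033082695376796711772419879375794796284799483126804979026969494063731296167219521862787332814065459629273793982106496173896788369564101986355662892921508089782336619112953711912902624494823384616460776299573804405966438504739096491021320162791054784736135799847529903970515590694889928271223758421879729530455921003979853693982447266907896819741935891056895815825016305981071011116172089438084728463460038232315006096675851114396136683329482924809))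

noncomputable def t56 : Tre := Helper55.PC.toT t56n

theorem ok56 : chk K t56 l80 = true :=
  Helper55.PC.chkN_sound K t56n l80 (by decide +kernel)

open Helper55.PC in
noncomputable def t57n : Helper55.PC.Ten :=
  (s
  34232254312181335442542973545299040723543165002340314059863366687914075826835799743087053816817424097124835522569652501461765694875092903721596487812805998232789974249356295193372944080313821096292918884146149787219615676244919139606781479170358100068350780960018623056113463187126024361525092897395907081850035217476779945663693381865638229437679375236241939560183329786330668680051403001258838000047471634577237177229324832486946482999626605572377920528140339777686775954997260981277482000197658154468844784533124272529505476199737946313467779686501120390384525158071891954097980033)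

noncomputable def t57 : Tre := Helper55.PC.toT t57n

theorem ok57 : chk K t57 l81 = true :=
  Helper55.PC.chkN_sound K t57n l81 (by decide +kernel)

open Helper55.PC in
noncomputable def t58n : Helper55.PC.Ten :=
  (s
  60218077336437726183795955440601317899185972439953647264183094533433874636914807770389495175398273734294648729760829298477542973795127132290517399037531226082936316721160671113934816083602057599060903467617812526368274241164085082900995768770685580597267815537035262368244031798012405025121310478072831502615845119111077627114959895793780932889365470559460245619062254404644965684942530792457015184029011623299625992179426545483986770959727629242232674903577538828375824991457162180378142872857364025173812348223041638303980116217580239172563667502562997519850242138388331200058064356467496540437134688912001)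

noncomputable def t58 : Tre := Helper55.PC.toT t58n

theorem ok58 : chk K t58 l83 = true :=
  Helper55.PC.chkN_sound K t58n l83 (by decide +kernel)

open Helper55.PC in
noncomputable def t59n : Helper55.PC.Ten :=
  (r
  42050720572530207926215820385972344341859363124737211794753594588018085633164161818846440156017856488036687275164014358300639849958794582263942432054182190506785972271420617462783686438847740713207943423952393045965425724313673542127011177820009688501784858978169130588026285780971242838065576241899814514832751422905627529736302032619511375251961050680896871533790501352905004855760136602815724076473295942554345856648597509399212527055300429106104860556095760024769349061778069852420623023435468184915274853510344578963723203964785519837984459328290818900063887660200750974374664631379012475969666)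

noncomputable def t59 : Tre := Helper55.PC.toT t59n

theorem ok59 : chk K t59 l84 = true :=
  Helper55.PC.chkN_sound K t59n l84 (by decide +kernel)

open Helper55.PC in
noncomputable def t60n : Helper55.PC.Ten :=
  (q
  54044026601702198364416094960469102161726724414874852984609475350002945699961181666307426921448344461534853559202282012237593512458520207806141219707323208656093197
  (s
  157135160594172192353038012488528399618886873298065133063586910986782755136116613619349359653195712489269070158321360968528220929970253089741267475777187489915147801407925293981943704879574939212481418523823886269658976423420889474937831271161829120224593257135179712527134624247833278375984058598565800560374614483097101757089657034986441542964474079402055330919027044828774199950146515592875153048781712260289650860094757557670189247971506469968404684591284546501918531975461722976559986849119272674996690704839011558096504139148587046640472402229723777)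
  (r
  4071535263365546256958391190153327630814365973478012004665751407725404152913865863423403670193213759374828945690232533006133395698287374465527229112511478627283289592567367523744832014991081618197973735819411989877032973854993928641019094286708135570161376472796188326870284884905042610886337031624693198403503556489849298924705005955530761300364746696235779187695030135258057915671794724345269166818103807331992202109067810984226574231906620578433722861478330263284109012894690509554741738354680996430342360483416271747683357846666311868802279702993556807915000491435632717655983465515264351999048912033375295689517296768077435581087542892160439376480145059895553132570902552609677179673995125505))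

noncomputable def t60 : Tre := Helper55.PC.toT t60n

theorem ok60 : chk K t60 l85 = true :=
  Helper55.PC.chkN_sound K t60n l85 (by decide +kernel)

open Helper55.PC in
noncomputable def t61n : Helper55.PC.Ten :=
  (r
  975267757484827291257685772750540290335209508526416405682371681994114492068936720840416008349715030775336727299632259635360897176045358395128415633818930264285137554944293528720594711087123076602028704657598433431000301371956145796655016164958761766376606235576264316909245187953199131348262048171015728767052585487551488370058117268696583198838929326539483572401545011361287014834089486106400839562568003109320237693855178110228609043061433901937584419436984869141401192112416)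

noncomputable def t61 : Tre := Helper55.PC.toT t61n

theorem ok61 : chk K t61 l86 = true :=
  Helper55.PC.chkN_sound K t61n l86 (by decide +kernel)

open Helper55.PC in
noncomputable def t62n : Helper55.PC.Ten :=
  (r
  111778052060446515666059475746285227422091994661659975386900714662618677187866827504495101016452328601864141258549106870604708236485076908218054889662827323321019331524439456652740728490631438227610467426002957101906620644797180067927273497511258444851528239038773625936723818642406161713251643718770704379312140580547408452250155264915408951504120600620513916824883707406363090688728975133278873625680776811150585543868573216487620128354093678166782461324010280120150811264880781585245564102868399672040419828079811007751267042172290174947619558923610633588691095790735732994638528422933192045688806579822219278879222646336430266376480)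

noncomputable def t62 : Tre := Helper55.PC.toT t62n

theorem ok62 : chk K t62 l88 = true :=
  Helper55.PC.chkN_sound K t62n l88 (by decide +kernel)

open Helper55.PC in
noncomputable def t63n : Helper55.PC.Ten :=
  (r
  1503323575430895487133622132765820010022737786525053226926730551792165632444895038644891952017843595469657994394985861283582062422515772945080297172073028620652812904881304176546381487662845457558430350856430559186306398476469643339513306450974098158866929363327395961041770324090468996785078962139947491032458111727555392635030714811118526164370807878655426927851903670943539033239046698647627088967781310599993318551205226751559051555381037217308065862338993879872713095871006818852259324523167334891991897188261309827836659216177002217916513949301509698353533041443288790727481656166080390403133800802708536126112602513496467096275552430183950526010205941677954722327009016682823054061990585063241709415516421350192887594264815088833887182699375092001)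

noncomputable def t63 : Tre := Helper55.PC.toT t63n

theorem ok63 : chk K t63 l89 = true :=
  Helper55.PC.chkN_sound K t63n l89 (by decide +kernel)

open Helper55.PC in
noncomputable def t64n : Helper55.PC.Ten :=
  (r
  2436402860503814465397480801813466978626720280813864000489975745788518346356253475303938737312512031651836475562604639357402757295615249856965132268188567252123382180142245256520127575448450350818345880648025962119120220556166257970456547758311052056243414540550990460399064451552016343337)

noncomputable def t64 : Tre := Helper55.PC.toT t64n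

theorem ok64 : chk K t64 l91 = true :=
  Helper55.PC.chkN_sound K t64n l91 (by decide +kernel)

open Helper55.PC in
noncomputable def t65n : Helper55.PC.Ten :=
  (r
  30659272659507706666590348687264947391653922917036520212672556605167169236840116334021181549055180735122887621381129308487004102149082266834362616921190685746143735235871222668279467952841762329581989456568583925047141329517249536264600596794626673240223016352117739755989224023968719021501066136824919996145940369340244008482600168965471640774396702999261483191731430531795459611372778575394077782540711532977803982886418171801498299892926424491731185625948714479901235361073891886257249765526091815856336805319284830516197293288449698494696410749275944832000390999331026058310739303508690879652128)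

noncomputable def t65 : Tre := Helper55.PC.toT t65n

theorem ok65 : chk K t65 l93 = true :=
  Helper55.PC.chkN_sound K t65n l93 (by decide +kernel)

open Helper55.PC in
noncomputable def t66n : Helper55.PC.Ten :=
  (r
  193301995413860300670871282846089142995366529110948338836821659523572464747816193417431660257563682294982662988965897988750960742268784189746111263854975231801925130623448145331301280923630443869641634225418902692736277515239727830608069617815680166031492678667890925651479173170751784995368827045162239214709650762479408516400053209926583283806253105729785667580489724947985413355539872420806201712806838724186321520192387005243091869772169680614154670101653475246707589012823104755205429914652375278316230911510024563336810016327912904790096844852586821585449664196345407339058367051772122670842257653940863470656763844647283287986612782596357744674268455206002802762523523038568581787682532224003057427442194161607911282493620440412243160525453282342559866791632613422764345327605631161738509181366938308987069185)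

noncomputable def t66 : Tre := Helper55.PC.toT t66n

theorem ok66 : chk K t66 l94 = true :=
  Helper55.PC.chkN_sound K t66n l94 (by decide +kernel)

open Helper55.PC in
noncomputable def t67n : Helper55.PC.Ten :=
  (r
  1817642388194221761372826462401415908985169051632997271867576799859525932960460562471443613095326702443082664686507156787622599034278537637760536768234971975082048552311563409550372335981776895031839003949829896657042311479569964809037802520540918178704960563918376696082366147382953640143527681305466019800014504490484572576888135767939526493336671054284314255604009336942127564125165732839352275769352239101561361178021982379814812631640134350324533780828140556346664801034885272977035262319620224869519238262339450806302573669615832781465733900417394013512409296028010885329326370585133989452497241796282731051504598572283192266806574322384833429555812550234718041081102438696572860710846245356529058526831091635241587425998571510178019632029093716206339344265981578062865697)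

noncomputable def t67 : Tre := Helper55.PC.toT t67n

theorem ok67 : chk K t67 l97 = true :=
  Helper55.PC.chkN_sound K t67n l97 (by decide +kernel)

open Helper55.PC in
noncomputable def t68n : Helper55.PC.Ten :=
  (r
  202687505165728577240015831358942305786974344439814284823511362265487293041901412154581567489130301560979594752299378135358050859666443411103183827081163464373187910773774869881198857553148348631844531766258649667879924985132867147181735708560572613307791753238857829937323383256700215781578953998084734093350971029648799534415958253143899896191398477510064911232980013675326957848140215289944451078279452021579397661031285210381738883530571071299066866462720130095409359258735604898600049595633172218820940078362498194956018826635462575334126450870082078240793171818074915983624451594318483950248607179888479905125671860114178981573276243395947813598872761498527534138350749318568795678444535422644580700865251656371997635449763046966231044829548416462109264299302577884531569712374122797404250329792881548172754044069153)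

noncomputable def t68 : Tre := Helper55.PC.toT t68n

theorem ok68 : chk K t68 l98 = true :=
  Helper55.PC.chkN_sound K t68n l98 (by decide +kernel)

open Helper55.PC in
noncomputable def t69n : Helper55.PC.Ten :=
  (r
  34700386068916649292852584456618507955743903558485088196518285793290601283685010284105861583520958410222028000625161194251235796572002146511428262049828522412086716233954516012816399343277151290946055630171100015994844808038815336230930521460662999993562543711670035716623769032799260197779944868627046973238639476628895780215939315851397206261496456177465860847470562469722990960865623646590585067127149008190729278485672611027741132586905135394631899553870088854623931906512521753927122353380306292908483169967399758137973698917892364526964079650735232493231195847295496198171476865722587762089903897167464453064766053933344)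

noncomputable def t69 : Tre := Helper55.PC.toT t69n

theorem ok69 : chk K t69 l100 = true :=
  Helper55.PC.chkN_sound K t69n l100 (by decide +kernel)

open Helper55.PC in
noncomputable def t70n : Helper55.PC.Ten :=
  (r
  7806714613117518960421516230929079350489275134244995075243481936090530858513022457339173113603866421695727414812448813939359350368327415178510850527356078302055286236678911737771719963347665563890793732635545426782842092890814469185993451094625420970862516792842778499687198941591578878004413362616496967313622712468195193808694205229215163187060084313122323288705218928366863353658137826139028727075916876063238351293233645210303322063273188487053471904042450903830697303792065381170771835704077590686136856440232887730550573788711794439479837326515650293328304744833072711587559714858532623312686165011196427755507280070765061294676469236166291039774064437376680158790912567167653638489133384462672433285473323323568889028045751735227238893229696459722866625312832042873606949345961249)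

noncomputable def t70 : Tre := Helper55.PC.toT t70n

theorem ok70 : chk K t70 l102 = true :=
  Helper55.PC.chkN_sound K t70n l102 (by decide +kernel)

open Helper55.PC in
noncomputable def t71n : Helper55.PC.Ten :=
  (i 21791364087535311558876782588643248308266 (n
  190384764643024624540762679021274931595094761847582286374128172983927152490560159310131150244103669469622785221397862643544452)
  (r
  2197394813913991514902044095079220018308384223504180252208075749925258398241333502857909038148392778048076786265539320645307000521591539978166595167470578701490431563459250358849274039551507208516019622267563155633064926204583232118345706079488131655935030660474530162708897764928220809543845854465426880820234412790395572857594246613705543740169920222255259230685602406314258119126387150200401027211717213652713117610733188033369385524588423901165277034442861981391582008729033229720438278161367542935583903909799848757929641804300102365712348966117156394520676078750931181814587238993489226748465326777258024067321353112584538626329603209425358445744968361460444080600788339344933126891308776502538308162747123829903751693006042043338866507201331925532566927383103778410437934600506084110190836983073))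

noncomputable def t71 : Tre := Helper55.PC.toT t71n

theorem ok71 : chk K t71 l103 = true :=
  Helper55.PC.chkN_sound K t71n l103 (by decide +kernel)

open Helper55.PC in
noncomputable def t72n : Helper55.PC.Ten :=
  (r
  12317779459142022486245349708418292886128541912290678509190528759459900471847607243651297497598093584646381150294943051530070333835865393547357039721284096300376318079680309852574744528613505786452640604054256707419398483082334486982050084862053764216555389929013506751759315994414952522810303006672315607245881716362596080376616450821627262529155844195663476307047195489680135781749248212742123642642094473520624760868176846864219480000223980520036206907172926287061160592441894410008243154383554065568919326832079376640906640416267407264395140164627409800366810233308979456)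

noncomputable def t72 : Tre := Helper55.PC.toT t72n

theorem ok72 : chk K t72 l105 = true :=
  Helper55.PC.chkN_sound K t72n l105 (by decide +kernel)

open Helper55.PC in
noncomputable def t73n : Helper55.PC.Ten :=
  (r
  109869329716557126116913029519578946298006573654129119435864687865644221506845851717672553539194158908461117151699155769137434096341460150502437414887637202755520531329428898416932919535277545284800827943748778037966076644508696717466926939238795238740716885908062167851140707163356289539916597314108228593629878905602779283718673767009440667425205249116462502304663312593869538568547938480572292679125960955875314305125143105498640000471477720789392940529347328160867160876440017597564641015456290700358616961508529263205208626002555519859138481086373270309568193551639596773327854115946320094758125883912798653893081184920473642745126795426587434927162880100259889258069515840512550467806821292450593)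

noncomputable def t73 : Tre := Helper55.PC.toT t73n

theorem ok73 : chk K t73 l108 = true :=
  Helper55.PC.chkN_sound K t73n l108 (by decide +kernel)

theorem cl0 : Clo K (Helper55.TR.GT 1 Helper55.TR.BrU) r13 :=
  .q [n0,n0,n0,m2,n0,n0,n0,n0,n1,n1,n0,n0,n1] (e' := [n0,n0,n0,n2,n0,n0,n0,n0,m1,m1,n0,n0,m1]) (.p true [0,0,0,1] [] (⟨0,
  [(24,0)]⟩,⟨0,[(23,0)]⟩) .k 0 (⟨0,[]⟩,⟨0,[]⟩) .k .k) (by decide +kernel) (by decide +kernel) (.t
  t7 ok7) (.h (Helper55.TR.GT.lJ Helper55.CD.Dm1_1_c0u_5_0_0.g 467644442316906088403630834174711775387737734067382969677821263873039349331848816701438280562062729842292203315959785494832950765605095018931101853410730838023190590081113814649562423350723816232761194571649025 (by decide +kernel)))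

theorem cl1 : Clo K (Helper55.TR.GT 1 Helper55.TR.BrU) l12 :=
  .q [n0,n0,m2,n0,n1,n0,n0,n0,m1,n0,n1,n0,m1] (e' := [n0,n0,n2,n0,m1,n0,n0,n0,n1,n0,m1,n0,n1]) (.p false [0,0,0,1] [1]
  (⟨0,[(23,0)]⟩,⟨0,[(22,0)]⟩) .k 1 (⟨0,[]⟩,⟨0,[]⟩) .k .k) (by decide +kernel) (by decide +kernel)
  (.t t6 ok6) cl0

theorem cl2 : Clo K (Helper55.TR.GT 1 Helper55.TR.BrU) r12 :=
  .i [n0,n0,n2,n0,m1,n2,n0,n0,n1] (e' := [n1,n0,m2,n0,n1,m2,n0,n0,m1]) (by decide +kernel) (by decide +kernel)
  (.t t8 ok8) (.h (Helper55.TR.GT.sub Helper55.CD.Dm1_1_c0u_5_0_1.g 407071012473717741230647753955436063316165245649137046937135067380718014228518661292441911723266832933873463237484738359710181146614137272717200740149001947821436023300175282833578882818292516013507591 (by decide +kernel)))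

theorem cl3 : Clo K (Helper55.TR.GT 1 Helper55.TR.BrU) r11 :=
  .i [n0,n0,n2,n2,m1,n0,n0,n0,n0,m1] (e' := [n1,n0,m2,m2,n1,n0,n0,n0,n0,n1]) (by decide +kernel)
  (by decide +kernel) cl1 cl2

theorem cl4 : Clo K (Helper55.TR.GT 1 Helper55.TR.BrU) l10 :=
  .q [n0,n0,n0,n0,n0,n2,n0,n0,n0,n0,n0,n0,m1] (e' := [n0,n0,n0,n0,n0,m2,n0,n0,n0,n0,n0,n0,n1]) (.p false [0,0,0,1] [] (⟨0,
  [(21,0)]⟩,⟨0,[(20,0)]⟩) .k 0 (⟨0,[]⟩,⟨0,[]⟩) .k .k) (by decide +kernel) (by decide +kernel) (.t
  t5 ok5) cl3

theorem cl5 : Clo K (Helper55.TR.GT 1 Helper55.TR.BrU) r18 :=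
  .q [n0,n0,n0,n0,n0,n2,n0,n0,n0,n0,n0,n0,m1] (e' := [n0,n0,n0,n0,n0,m2,n0,n0,n0,n0,n0,n0,n1]) (.p false [0,0,0,1] [] (⟨0,
  [(24,0)]⟩,⟨0,[(23,0)]⟩) .k 0 (⟨0,[]⟩,⟨0,[]⟩) .k .k) (by decide +kernel) (by decide +kernel) (.t
  t11 ok11) (.h (Helper55.TR.GT.lJ Helper55.CD.Dm1_1_c0u_5_0_2.g 451932108916656206230258110440789380051294195065624766051213405141639131857008422782501253964685719987522938885749094987390889384871127943079225333808171147593268806397493790869112498950048982004433299720193 (by decide +kernel)))

theorem cl6 : Clo K (Helper55.TR.GT 1 Helper55.TR.BrU) r17 :=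
  .q [n0,n0,n0,n0,n0,n1,n0,n0,n0,n0,n0,m1,n1] (e' := [n0,n0,n0,n0,n0,m1,n0,n0,n0,n0,n0,n1,m1]) (.p true [1,0,-1,1] [1] (⟨0,
  [(14,0),(8,0)]⟩,⟨0,[(1,0)]⟩) .k 1 (⟨0,[]⟩,⟨0,[]⟩) .k (.r 0 ⟨1,[(3,0),(13,0),(18,0)]⟩ ⟨24,[(15,4),
  (10,2),(4,21),(2,0),(0,21),(7,18),(1,16),(0,1),(0,12)]⟩)) (by decide +kernel) (by decide +kernel)
  (.t t10 ok10) cl5

theorem cl7 : Clo K (Helper55.TR.GT 1 Helper55.TR.BrU) l16 :=
  .q [n0,m1,n0,n0,n0,n0,m1,m1,n1,n1,n1,m1,n1] (e' := [n0,n1,n0,n0,n0,n0,n1,n1,m1,m1,m1,n1,m1]) (.p true [1,0,-1,1] []
  (⟨0,[(13,0),(8,0)]⟩,⟨0,[(0,0)]⟩) .k 0 (⟨0,[]⟩,⟨0,[]⟩) .k (.r 0 ⟨1,[(2,0),(13,0),(18,0)]⟩ ⟨24,[(14,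
  4),(10,2),(4,21),(2,0),(0,21),(7,18),(1,16),(0,1),(0,12)]⟩)) (by decide +kernel)
  (by decide +kernel) (.t t9 ok9) cl6

theorem cl8 : Clo K (Helper55.TR.GT 1 Helper55.TR.BrU) r20 :=
  .q [n0,n0,n0,m2,n0,n0,n0,n0,n1,n1,n0,n0,n1] (e' := [n0,n0,n0,n2,n0,n0,n0,n0,m1,m1,n0,n0,m1]) (.p true [0,0,0,1] [] (⟨0,
  [(23,0)]⟩,⟨0,[(22,0)]⟩) .k 0 (⟨0,[]⟩,⟨0,[]⟩) .k .k) (by decide +kernel) (by decide +kernel) (.t
  t13 ok13) (.h (Helper55.TR.GT.lJ Helper55.CD.Dm1_1_c0u_5_0_3.g 75134673230672898654515294377189277971291269291393799818258686259433618176761278223779981999597155713839318542213424206940627944021701927951378129190428763914271085359598937808946151916016127445000 (by decide +kernel)))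

theorem cl9 : Clo K (Helper55.TR.GT 1 Helper55.TR.BrU) r16 :=
  .q [n0,n0,n0,n0,n0,n1,n0,n0,n0,n0,n0,n1,m1] (e' := [n0,n0,n0,n0,n0,m1,n0,n0,n0,n0,n0,m1,n1]) (.p false [0,0,-1,1] [] (⟨0,
  [(0,0)]⟩,⟨0,[(21,0),(2,0)]⟩) .k 0 (⟨0,[]⟩,⟨0,[]⟩) .k (.r 0 ⟨1,[(2,0),(13,0),(18,0)]⟩ ⟨24,[(14,4),
  (10,2),(4,21),(2,0),(0,21),(7,18),(1,16),(0,1),(0,12)]⟩)) (by decide +kernel) (by decide +kernel)
  (.t t12 ok12) cl8

theorem cl10 : Clo K (Helper55.TR.GT 1 Helper55.TR.BrU) r10 :=
  .q [n0,n0,n0,n0,n0,n0,n0,n0,n0,n0,n0,n1,m1] (e' := [n0,n0,n0,n0,n0,n0,n0,n0,n0,n0,n0,m1,n1]) (.ed true [1,0,-1,1] (.r 0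
  ⟨1,[(1,0),(13,0),(18,0)]⟩ ⟨24,[(13,4),(10,2),(4,21),(2,0),(0,21),(7,18),(1,16),(0,1),(0,12)]⟩))
  (by decide +kernel) (by decide +kernel) cl7 cl9

theorem cl11 : Clo K (Helper55.TR.GT 1 Helper55.TR.BrU) l9 :=
  .q [n0,n1,m2,m1,n1,n0,n1,n1,m1,n0,n0,n1,m1] (e' := [n0,m1,n2,n1,m1,n0,m1,m1,n1,n0,n0,m1,n1]) (.p true [0,0,1] [0,0,
  0,1] (⟨0,[(22,0)]⟩,⟨0,[(11,0)]⟩) .k 2 (⟨0,[(20,0)]⟩,⟨0,[(19,0)]⟩) .k (.r (-1) ⟨24,[(12,4),(10,2),
  (4,21),(2,0),(0,21),(7,18),(1,16),(0,1),(0,12)]⟩ ⟨1,[(0,0),(13,0),(18,0)]⟩)) (by decide +kernel)
  (by decide +kernel) cl4 cl10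

theorem cl12 : Clo K (Helper55.TR.GT 1 Helper55.TR.BrU) r24 :=
  .q [n0,n0,m2,n0,n1,n0,n0,n0,m1,n0,n1,n0,m1] (e' := [n0,n0,n2,n0,m1,n0,n0,n0,n1,n0,m1,n0,n1]) (.p false [0,0,0,1] [1]
  (⟨0,[(23,0)]⟩,⟨0,[(22,0)]⟩) .k 1 (⟨0,[]⟩,⟨0,[]⟩) .k .k) (by decide +kernel) (by decide +kernel)
  (.t t16 ok16) (.h (Helper55.TR.GT.lJ Helper55.CD.Dm1_1_c0u_5_0_4.g 446543299002562334436533880394139916834750108716247770555954306968059595604640365745630250010343828466962755318191623266451282573414353650571434457076357659432613897401936564884230238224181821875358602893324 (by decide +kernel)))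

theorem cl13 : Clo K (Helper55.TR.GT 1 Helper55.TR.BrU) l23 :=
  .q [n0,n0,n0,n0,n0,n2,n0,n0,n0,n0,n0,n0,m1] (e' := [n0,n0,n0,n0,n0,m2,n0,n0,n0,n0,n0,n0,n1]) (.p false [0,0,0,1] [] (⟨0,
  [(22,0)]⟩,⟨0,[(21,0)]⟩) .k 0 (⟨0,[]⟩,⟨0,[]⟩) .k .k) (by decide +kernel) (by decide +kernel) (.t
  t15 ok15) cl12

theorem cl14 : Clo K (Helper55.TR.GT 1 Helper55.TR.BrU) l31 :=
  .q [n0,n0,n0,n0,n0,n0,m1,n0,n1,n0,n1,m1,n1] (e' := [n0,n0,n0,n0,n0,n0,n1,n0,m1,n0,m1,n1,m1]) (.p true [1,0,-1,1] []
  (⟨0,[(19,0),(8,0)]⟩,⟨0,[(4,0)]⟩) .k 0 (⟨0,[]⟩,⟨0,[]⟩) .k (.r 0 ⟨3,[(5,0),(10,0),(5,1),(1,0),(0,0),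
  (20,1),(7,1)]⟩ ⟨11,[(8,11),(11,8),(2,1),(20,0),(3,1),(1,3),(1,3)]⟩)) (by decide +kernel)
  (by decide +kernel) (.t t20 ok20) (.h (Helper55.TR.GT.lJ Helper55.CD.Dm1_1_c0u_5_0_5.g 426549458799864480705167640526954936196852110338701356090585667954242929374113495800881402870206702468147515520762239432553186241042356363520264724196673298483130561268895691003815985973609777429641787856656386 (by decide +kernel)))

theorem cl15 : Clo K (Helper55.TR.GT 1 Helper55.TR.BrU) r30 :=
  .q [n0,n0,n0,n0,n0,n0,n1,n0,m1,n0,n0,n1,m1] (e' := [n0,n0,n0,n0,n0,n0,m1,n0,n1,n0,n0,m1,n1]) (.p false [1,0,-1,1] [1]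
  (⟨0,[(18,0),(8,0)]⟩,⟨0,[(3,0)]⟩) .k 1 (⟨0,[]⟩,⟨0,[]⟩) .k (.r 0 ⟨3,[(4,0),(10,0),(5,1),(1,0),(0,0),
  (20,1),(7,1)]⟩ ⟨11,[(7,11),(11,8),(2,1),(20,0),(3,1),(1,3),(1,3)]⟩)) (by decide +kernel)
  (by decide +kernel) cl14 (.t t21 ok21)

theorem cl16 : Clo K (Helper55.TR.GT 1 Helper55.TR.BrU) r29 :=
  .q [n0,n0,m2,n0,n1,n0,n0,n0,m1,n0,n1,n0,m1] (e' := [n0,n0,n2,n0,m1,n0,n0,n0,n1,n0,m1,n0,n1]) (.p false [0,0,0,1] [1]
  (⟨0,[(26,0)]⟩,⟨0,[(25,0)]⟩) .k 1 (⟨0,[]⟩,⟨0,[]⟩) .k .k) (by decide +kernel) (by decide +kernel)
  (.t t19 ok19) cl15

theorem cl17 : Clo K (Helper55.TR.GT 1 Helper55.TR.BrU) r28 :=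
  .i [n0,n1,m1,m1,n0,n0,n0,m1,n0,m1] (e' := [n1,m1,n1,n1,n0,n0,n0,n1,n0,n1]) (by decide +kernel)
  (by decide +kernel) (.t t18 ok18) cl16

theorem cl18 : Clo K (Helper55.TR.GT 1 Helper55.TR.BrU) l27 :=
  .q [n0,n0,n0,n0,n0,n2,n0,n0,n0,n0,n0,n0,m1] (e' := [n0,n0,n0,n0,n0,m2,n0,n0,n0,n0,n0,n0,n1]) (.p false [0,0,0,1] [] (⟨0,
  [(24,0)]⟩,⟨0,[(23,0)]⟩) .k 0 (⟨0,[]⟩,⟨0,[]⟩) .k .k) (by decide +kernel) (by decide +kernel) (.t
  t17 ok17) cl17

theorem cl19 : Clo K (Helper55.TR.GT 1 Helper55.TR.BrU) r33 :=
  .i [n0,n1,m1,m1,n0,n0,n0,m1,n0,m1] (e' := [n1,m1,n1,n1,n0,n0,n0,n1,n0,n1]) (by decide +kernel)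
  (by decide +kernel) (.t t23 ok23) (.h (Helper55.TR.GT.lJ Helper55.CD.Dm1_1_c0u_5_0_6.g 86692618744912009919678618690697327578014963331231824924929636115951336927262727815016183518915176308850336846824922730307331482073658851250542345229210861450840772051072449128810632285222091310347364473251989374978 (by decide +kernel)))

theorem cl20 : Clo K (Helper55.TR.GT 1 Helper55.TR.BrU) r27 :=
  .q [n0,n0,m2,n0,n1,n0,n0,n0,m1,n0,n1,n0,m1] (e' := [n0,n0,n2,n0,m1,n0,n0,n0,n1,n0,m1,n0,n1]) (.p false [0,0,0,1] [1]
  (⟨0,[(24,0)]⟩,⟨0,[(23,0)]⟩) .k 1 (⟨0,[]⟩,⟨0,[]⟩) .k .k) (by decide +kernel) (by decide +kernel)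
  (.t t22 ok22) cl19

theorem cl21 : Clo K (Helper55.TR.GT 1 Helper55.TR.BrU) l26 :=
  .q [n0,n0,n0,n0,n0,n0,n0,n0,n0,n0,n0,n1,m1] (e' := [n0,n0,n0,n0,n0,n0,n0,n0,n0,n0,n0,m1,n1]) (.ed true [1,0,-1,1] (.r 0
  ⟨3,[(0,0),(10,0),(5,1),(1,0),(0,0),(20,1),(7,1)]⟩ ⟨11,[(3,11),(11,8),(2,1),(20,0),(3,1),(1,3),(1,
  3)]⟩)) (by decide +kernel) (by decide +kernel) cl18 cl20

theorem cl22 : Clo K (Helper55.TR.GT 1 Helper55.TR.BrU) r23 :=
  .q [n0,n0,m2,n0,n1,n0,n1,n0,m1,n0,n0,n1,m1] (e' := [n0,n0,n2,n0,m1,n0,m1,n0,n1,n0,n0,m1,n1]) (.p true [0,0,1] [0,0,0,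
  1] (⟨0,[(24,0)]⟩,⟨0,[(13,0)]⟩) .k 2 (⟨0,[(22,0)]⟩,⟨0,[(21,0)]⟩) .k (.r (-1) ⟨11,[(2,11),(11,8),(2,
  1),(20,0),(3,1),(1,3),(1,3)]⟩ ⟨2,[(10,0),(5,1),(21,0),(1,1),(7,1)]⟩)) (by decide +kernel)
  (by decide +kernel) cl21 (.t t24 ok24)

theorem cl23 : Clo K (Helper55.TR.GT 1 Helper55.TR.BrU) r22 :=
  .q [n0,n1,m2,m1,n1,n0,n1,n1,m1,n0,n0,n1,m1] (e' := [n0,m1,n2,n1,m1,n0,m1,m1,n1,n0,n0,m1,n1]) (.p true [0,0,1] [0,0,
  0,1] (⟨0,[(23,0)]⟩,⟨0,[(12,0)]⟩) .k 2 (⟨0,[(21,0)]⟩,⟨0,[(20,0)]⟩) .k (.r (-1) ⟨11,[(1,11),(11,8),
  (2,1),(20,0),(3,1),(1,3),(1,3)]⟩ ⟨2,[(9,0),(5,1),(21,0),(1,1),(7,1)]⟩)) (by decide +kernel)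
  (by decide +kernel) cl13 cl22

theorem cl24 : Clo K (Helper55.TR.GT 1 Helper55.TR.BrU) r9 :=
  .q [n0,n0,n0,m2,n0,n0,n0,n0,n1,n1,n0,n0,n1] (e' := [n0,n0,n0,n2,n0,n0,n0,n0,m1,m1,n0,n0,m1]) (.p true [0,0,0,1] [] (⟨0,
  [(20,0)]⟩,⟨0,[(19,0)]⟩) .k 0 (⟨0,[]⟩,⟨0,[]⟩) .k .k) (by decide +kernel) (by decide +kernel) (.t
  t14 ok14) cl23

theorem cl25 : Clo K (Helper55.TR.GT 1 Helper55.TR.BrU) r8 :=
  .i [n1,m1,n0,n0,n0,n0,n0,m1,n0,n1] (e' := [n0,n1,n0,n0,n0,n0,n0,n1,n0,m1]) (by decide +kernel) (by decide +kernel)
  cl11 cl24

theorem cl26 : Clo K (Helper55.TR.GT 1 Helper55.TR.BrU) r7 :=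
  .q [n0,n0,n0,n0,n0,n1,n0,n0,n0,n0,n0,n0,m1] (e' := [n0,n0,n0,n0,n0,m1,n0,n0,n0,n0,n0,n0,n1]) (.ed true [1,-1,0,1] .k)
  (by decide +kernel) (by decide +kernel) (.t t4 ok4) cl25

theorem cl27 : Clo K (Helper55.TR.GT 1 Helper55.TR.BrU) l6 :=
  .i [n1,n1,m1,n0,n0,n0,n0,m1,n0,m1] (e' := [n0,m1,n1,n0,n0,n0,n0,n1,n0,n1]) (by decide +kernel)
  (by decide +kernel) (.t t3 ok3) cl26

theorem cl28 : Clo K (Helper55.TR.GT 1 Helper55.TR.BrU) r43 :=
  .q [n0,n0,n0,n0,n0,n0,m1,n0,n1,n0,n0,m1,n1] (e' := [n0,n0,n0,n0,n0,n0,n1,n0,m1,n0,n0,n1,m1]) (.p true [0,0,-1,1] [] (⟨0,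
  [(2,0)]⟩,⟨0,[(25,0),(2,0)]⟩) .k 0 (⟨0,[]⟩,⟨0,[]⟩) .k (.r 0 ⟨0,[(1,0),(21,0)]⟩ ⟨49,[(6,21),(0,27),
  (10,4),(18,0),(0,21),(7,43),(1,41),(0,1),(0,37)]⟩)) (by decide +kernel) (by decide +kernel) (.t
  t29 ok29) (.h (Helper55.TR.GT.lb Helper55.CD.Dm1_1_c0u_5_0_8.g 291390669732152141796570701314681385291378641557453128114103579962578020264792015018330940624546465458548870830390639666757241777403538185272817388891560869756490027783424675118821084977971589852576752861227 (by decide +kernel)))

theorem cl29 : Clo K (Helper55.TR.GT 1 Helper55.TR.BrU) l42 :=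
  .q [n0,n0,n0,n0,n0,n1,n0,n0,n0,n0,n0,n1,m1] (e' := [n0,n0,n0,n0,n0,m1,n0,n0,n0,n0,n0,m1,n1]) (.p false [0,0,-1,1] [] (⟨0,
  [(1,0)]⟩,⟨0,[(24,0),(2,0)]⟩) .k 0 (⟨0,[]⟩,⟨0,[]⟩) .k (.r 0 ⟨0,[(0,0),(21,0)]⟩ ⟨49,[(5,21),(0,27),
  (10,4),(18,0),(0,21),(7,43),(1,41),(0,1),(0,37)]⟩)) (by decide +kernel) (by decide +kernel) (.t
  t28 ok28) cl28

theorem cl30 : Clo K (Helper55.TR.GT 1 Helper55.TR.BrU) l41 :=
  .q [n0,m1,n0,n0,n0,n0,n0,m1,m1,n0,n1,n0,m1] (e' := [n0,n1,n0,n0,n0,n0,n0,n1,n1,n0,m1,n0,n1]) (.p false [0,0,0,1] [1]
  (⟨0,[(24,0)]⟩,⟨0,[(23,0)]⟩) .k 1 (⟨0,[]⟩,⟨0,[]⟩) .k .k) (by decide +kernel) (by decide +kernel)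
  cl29 (.t t30 ok30)

theorem cl31 : Clo K (Helper55.TR.GT 1 Helper55.TR.BrU) l46 :=
  .q [n0,n0,n0,n0,n0,n0,m1,n0,n1,n0,n1,m1,n1] (e' := [n0,n0,n0,n0,n0,n0,n1,n0,m1,n0,m1,n1,m1]) (.p true [1,0,-1,1] []
  (⟨0,[(17,0),(8,0)]⟩,⟨0,[(2,0)]⟩) .k 0 (⟨0,[]⟩,⟨0,[]⟩) .k (.r 0 ⟨2,[(14,0),(5,1),(21,0),(1,1),(7,
  1)]⟩ ⟨49,[(6,21),(0,27),(10,4),(18,0),(0,21),(7,43),(1,41),(0,1),(0,37)]⟩)) (by decide +kernel)
  (by decide +kernel) (.t t32 ok32) (.h (Helper55.TR.GT.lJ Helper55.CD.Dm1_1_c0u_5_0_9.g 347955223528932535733267325728525551183605752566090263783969274987260286606316638310204851526671531023621604732080070928492512122381465077293402759550088436853300716010062442903056984996357399605918054778154052004890625 (by decide +kernel)))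

theorem cl32 : Clo K (Helper55.TR.GT 1 Helper55.TR.BrU) r45 :=
  .q [n0,m1,n0,m1,n0,n0,m1,m1,n1,n1,n1,m1,n1] (e' := [n0,n1,n0,n1,n0,n0,n1,n1,m1,m1,m1,n1,m1]) (.p true [1,0,-1,1]
  [] (⟨0,[(16,0),(8,0)]⟩,⟨0,[(1,0)]⟩) .k 0 (⟨0,[]⟩,⟨0,[]⟩) .k (.r 0 ⟨2,[(13,0),(5,1),(21,0),(1,1),
  (7,1)]⟩ ⟨49,[(5,21),(0,27),(10,4),(18,0),(0,21),(7,43),(1,41),(0,1),(0,37)]⟩))
  (by decide +kernel) (by decide +kernel) cl31 (.h (Helper55.TR.GT.lJ Helper55.CD.Dm1_1_c0u_5_0_10.g 78463864294820072848110354616715189324320739800626640482523179214435638746081138391830445377725887133054721726300242040147485695554130343228358150642857224844730559568142099868078543797324662677737326594 (by decide +kernel)))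

theorem cl33 : Clo K (Helper55.TR.GT 1 Helper55.TR.BrU) r41 :=
  .q [n0,m1,n0,n0,n0,n0,m1,m1,n1,n1,n1,m1,n1] (e' := [n0,n1,n0,n0,n0,n0,n1,n1,m1,m1,m1,n1,m1]) (.p true [1,0,-1,1] []
  (⟨0,[(15,0),(8,0)]⟩,⟨0,[(0,0)]⟩) .k 0 (⟨0,[]⟩,⟨0,[]⟩) .k (.r 0 ⟨2,[(12,0),(5,1),(21,0),(1,1),(7,
  1)]⟩ ⟨49,[(4,21),(0,27),(10,4),(18,0),(0,21),(7,43),(1,41),(0,1),(0,37)]⟩)) (by decide +kernel)
  (by decide +kernel) (.t t31 ok31) cl32

theorem cl34 : Clo K (Helper55.TR.GT 1 Helper55.TR.BrU) r40 :=
  .q [n0,n0,n0,n0,n0,n0,n0,n0,n0,n0,n0,m1,n1] (e' := [n0,n0,n0,n0,n0,n0,n0,n0,n0,n0,n0,n1,m1]) (.ed false [1,0,-1,1] (.r 0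
  ⟨2,[(11,0),(5,1),(21,0),(1,1),(7,1)]⟩ ⟨49,[(3,21),(0,27),(10,4),(18,0),(0,21),(7,43),(1,41),(0,1),
  (0,37)]⟩)) (by decide +kernel) (by decide +kernel) cl30 cl33

theorem cl35 : Clo K (Helper55.TR.GT 1 Helper55.TR.BrU) r39 :=
  .q [n0,n0,m2,n0,n1,n0,n0,n0,m1,n0,n1,n0,m1] (e' := [n0,n0,n2,n0,m1,n0,n0,n0,n1,n0,m1,n0,n1]) (.p false [0,0,0,1] [1]
  (⟨0,[(22,0)]⟩,⟨0,[(21,0)]⟩) .k 1 (⟨0,[]⟩,⟨0,[]⟩) .k .k) (by decide +kernel) (by decide +kernel)
  (.t t27 ok27) cl34

theorem cl36 : Clo K (Helper55.TR.GT 1 Helper55.TR.BrU) l38 :=
  .q [n0,n0,n0,n0,n0,n2,n0,n0,n0,n0,n0,n0,m1] (e' := [n0,n0,n0,n0,n0,m2,n0,n0,n0,n0,n0,n0,n1]) (.p false [0,0,0,1] [] (⟨0,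
  [(21,0)]⟩,⟨0,[(20,0)]⟩) .k 0 (⟨0,[]⟩,⟨0,[]⟩) .k .k) (by decide +kernel) (by decide +kernel) (.t
  t26 ok26) cl35

theorem cl37 : Clo K (Helper55.TR.GT 1 Helper55.TR.BrU) r37 :=
  .q [n0,m1,n2,n0,m1,n0,m1,m1,n1,n0,n0,m1,n1] (e' := [n0,n1,m2,n0,n1,n0,n1,n1,m1,n0,n0,n1,m1]) (.p false [0,0,1] [0,0,
  0,1] (⟨0,[(22,0)]⟩,⟨0,[(11,0)]⟩) .k 2 (⟨0,[(20,0)]⟩,⟨0,[(19,0)]⟩) .k (.r (-1) ⟨49,[(0,21),(0,27),
  (10,4),(18,0),(0,21),(7,43),(1,41),(0,1),(0,37)]⟩ ⟨2,[(8,0),(5,1),(21,0),(1,1),(7,1)]⟩))
  (by decide +kernel) (by decide +kernel) cl36 (.t t33 ok33)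

theorem cl38 : Clo K (Helper55.TR.GT 1 Helper55.TR.BrU) l36 :=
  .q [n0,n0,n0,m2,n0,n0,n0,n0,n1,n1,n0,n0,n1] (e' := [n0,n0,n0,n2,n0,n0,n0,n0,m1,m1,n0,n0,m1]) (.p true [0,0,0,1] [] (⟨0,
  [(19,0)]⟩,⟨0,[(18,0)]⟩) .k 0 (⟨0,[]⟩,⟨0,[]⟩) .k .k) (by decide +kernel) (by decide +kernel) (.h
  (Helper55.TR.GT.lb Helper55.CD.Dm1_1_c0u_5_0_7.g 268333160718897234485191558768601292566480477264755710537267718432328306731849063854720269341833760549169051253269095514571511886590345685008424176551184973593002566455090220694743332454281577964240900 (by decide +kernel))) cl37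

theorem cl39 : Clo K (Helper55.TR.GT 1 Helper55.TR.BrU) l55 :=
  .q [n0,n0,n0,n0,n0,n1,n0,n0,n0,n0,n0,n1,m1] (e' := [n0,n0,n0,n0,n0,m1,n0,n0,n0,n0,n0,m1,n1]) (.p false [0,0,-1,1] [] (⟨0,
  [(0,0)]⟩,⟨0,[(26,0),(2,0)]⟩) .k 0 (⟨0,[]⟩,⟨0,[]⟩) .k (.r 0 ⟨1,[(4,0),(10,0),(24,0)]⟩ ⟨20,[(7,11),
  (22,8),(0,8),(3,11),(2,3),(8,4),(1,18),(0,7),(3,1)]⟩)) (by decide +kernel) (by decide +kernel)
  (.t t39 ok39) (.h (Helper55.TR.GT.lJ Helper55.CD.Dm1_1_c0u_5_0_11.g 447194213272723407477056730490409699007997371616112621789385298160626294646384435474774611236305313866744926600628246797593344772362930522254627832237198391791399805955349287266353246462005298909066277672547519514 (by decide +kernel)))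

theorem cl40 : Clo K (Helper55.TR.GT 1 Helper55.TR.BrU) r54 :=
  .q [n0,n0,n0,n0,n0,n0,n0,n0,n0,n0,n0,m1,n1] (e' := [n0,n0,n0,n0,n0,n0,n0,n0,n0,n0,n0,n1,m1]) (.ed false [1,0,-1,1] (.r 0
  ⟨1,[(3,0),(10,0),(24,0)]⟩ ⟨20,[(6,11),(22,8),(0,8),(3,11),(2,3),(8,4),(1,18),(0,7),(3,1)]⟩))
  (by decide +kernel) (by decide +kernel) cl39 (.h (Helper55.TR.GT.lJ Helper55.CD.Dm1_1_c0u_5_0_12.g 339857581398217578428075589605992244354547091004182721529812013755503621755726766201852706890939239906974824290928840585665746360686139068966530507681020495860444136321728160025913052720407695821988506870180299687939 (by decide +kernel)))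

theorem cl41 : Clo K (Helper55.TR.GT 1 Helper55.TR.BrU) r53 :=
  .i [n1,n0,m4,m4,n2,n0,n0,n1] (e' := [n0,n0,n4,n4,m2,n0,n0,m1]) (by decide +kernel) (by decide +kernel) (.t
  t38 ok38) cl40

theorem cl42 : Clo K (Helper55.TR.GT 1 Helper55.TR.BrU) r52 :=
  .i [n0,n0,m2,n0,n1,m2,n0,n0,m1] (e' := [n1,n0,n2,n0,m1,n2,n0,n0,n1]) (by decide +kernel) (by decide +kernel)
  (.t t37 ok37) cl41

theorem cl43 : Clo K (Helper55.TR.GT 1 Helper55.TR.BrU) r51 :=
  .i [n0,n0,n2,n0,m1,n2,n0,n0,n1] (e' := [n1,n0,m2,n0,n1,m2,n0,n0,m1]) (by decide +kernel) (by decide +kernel)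
  (.t t36 ok36) cl42

theorem cl44 : Clo K (Helper55.TR.GT 1 Helper55.TR.BrU) l50 :=
  .i [n0,n0,n2,n2,m1,n0,n0,n0,n0,m1] (e' := [n1,n0,m2,m2,n1,n0,n0,n0,n0,n1]) (by decide +kernel)
  (by decide +kernel) (.t t35 ok35) cl43

theorem cl45 : Clo K (Helper55.TR.GT 1 Helper55.TR.BrU) r49 :=
  .q [n0,n0,n0,m2,n0,n0,n0,n0,n1,n1,n0,n0,n1] (e' := [n0,n0,n0,n2,n0,n0,n0,n0,m1,m1,n0,n0,m1]) (.p true [0,0,0,1] [] (⟨0,
  [(21,0)]⟩,⟨0,[(20,0)]⟩) .k 0 (⟨0,[]⟩,⟨0,[]⟩) .k .k) (by decide +kernel) (by decide +kernel) cl44
  (.h (Helper55.TR.GT.lJ Helper55.CD.Dm1_1_c0u_5_0_13.g 75048000464764451176785886291711856679867261034987670214070804915117443829509379089874493487823588790690558831002956431965761491628265341666256079028329596934340686685744252620717440002428007133186 (by decide +kernel)))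

theorem cl46 : Clo K (Helper55.TR.GT 1 Helper55.TR.BrU) l48 :=
  .q [n0,m1,n0,n1,n0,n0,m1,m1,n0,n0,n1,m1] (e' := [n0,n1,n0,m1,n0,n0,n1,n1,n0,n0,m1,n1]) (.p false [0,0,1] [1] (⟨0,
  [(22,0)]⟩,⟨0,[(11,0)]⟩) .k 1 (⟨0,[]⟩,⟨0,[]⟩) .k .k) (by decide +kernel) (by decide +kernel) (.t
  t34 ok34) cl45

theorem cl47 : Clo K (Helper55.TR.GT 1 Helper55.TR.BrU) r48 :=
  .q [n0,n0,n0,n0,n0,n2,n0,n0,n0,n0,n0,n0,m1] (e' := [n0,n0,n0,n0,n0,m2,n0,n0,n0,n0,n0,n0,n1]) (.p false [0,0,0,1] [] (⟨0,
  [(20,0)]⟩,⟨0,[(19,0)]⟩) .k 0 (⟨0,[]⟩,⟨0,[]⟩) .k .k) (by decide +kernel) (by decide +kernel) (.t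
  t40 ok40) (.h (Helper55.TR.GT.lJ Helper55.CD.Dm1_1_c0u_5_0_14.g 272766648733283808943878737786615228154719311404445108148903949971660026809280371218780577132735176955044986020341009434913154133008174617176565632827242209103885839807513602453480321473028740979101698 (by decide +kernel)))

theorem cl48 : Clo K (Helper55.TR.GT 1 Helper55.TR.BrU) r36 :=
  .q [n0,n0,m2,n0,n1,n0,m1,n0,n1,n0,n0,m1,n1] (e' := [n0,n0,n2,n0,m1,n0,n1,n0,m1,n0,n0,n1,m1]) (.p false [0,0,1] [0,0,0,
  1] (⟨0,[(21,0)]⟩,⟨0,[(10,0)]⟩) .k 2 (⟨0,[(19,0)]⟩,⟨0,[(18,0)]⟩) .k (.r (-1) ⟨24,[(11,4),(10,2),(4,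
  21),(2,0),(0,21),(7,18),(1,16),(0,1),(0,12)]⟩ ⟨2,[(7,0),(5,1),(21,0),(1,1),(7,1)]⟩))
  (by decide +kernel) (by decide +kernel) cl46 cl47

theorem cl49 : Clo K (Helper55.TR.GT 1 Helper55.TR.BrU) r35 :=
  .i [n1,m1,n0,n0,n0,n0,n0,n0,n0,m1] (e' := [n0,n1,n0,n0,n0,n0,n0,n0,n0,n1]) (by decide +kernel) (by decide +kernel)
  cl38 cl48

theorem cl50 : Clo K (Helper55.TR.GT 1 Helper55.TR.BrU) r6 :=
  .i [n0,n1,m1,n0,n0,n0,n0,m1,n0,m1] (e' := [n1,m1,n1,n0,n0,n0,n0,n1,n0,n1]) (by decide +kernel)
  (by decide +kernel) (.t t25 ok25) cl49

theorem cl51 : Clo K (Helper55.TR.GT 1 Helper55.TR.BrU) l5 :=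
  .q [n0,n0,n0,n0,n0,m1,n0,n0,n0,n0,n1,m1,m1] (e' := [n0,n0,n0,n0,n0,n1,n0,n0,n0,n0,m1,n1,n1]) (.p false [0,0,1,1] [1]
  (⟨0,[(16,0),(1,0)]⟩,⟨0,[(2,0)]⟩) .k 1 (⟨0,[]⟩,⟨0,[]⟩) .k (.r (-1) ⟨35,[(8,20),(1,35),(0,5),(15,0),
  (8,13),(1,3),(0,1),(3,7)]⟩ ⟨1,[(9,0),(9,0),(4,0),(3,0),(0,1)]⟩)) (by decide +kernel)
  (by decide +kernel) cl27 cl50

theorem cl52 : Clo K (Helper55.TR.GT 1 Helper55.TR.BrU) r4 :=
  .i [n1,n1,n2,n2,m1] (e' := [n0,m1,m2,m2,n1]) (by decide +kernel) (by decide +kernel) cl51 (.t t41 ok41)

theorem cl53 : Clo K (Helper55.TR.GT 1 Helper55.TR.BrU) l3 :=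
  .i [n0,n1,n1,n0,m1,n0,n0,m1,n0,m1] (e' := [n1,m1,m1,n0,n1,n0,n0,n1,n0,n1]) (by decide +kernel)
  (by decide +kernel) (.t t2 ok2) cl52

theorem cl54 : Clo K (Helper55.TR.GT 1 Helper55.TR.BrU) r64 :=
  .q [n0,n0,m2,n0,n1,n0,n0,n0,m1,n0,n1,n0,m1] (e' := [n0,n0,n2,n0,m1,n0,n0,n0,n1,n0,m1,n0,n1]) (.p false [0,0,0,1] [1]
  (⟨0,[(21,0)]⟩,⟨0,[(20,0)]⟩) .k 1 (⟨0,[]⟩,⟨0,[]⟩) .k .k) (by decide +kernel) (by decide +kernel)
  (.t t47 ok47) (.h (Helper55.TR.GT.lJ Helper55.CD.Dm1_1_c0u_5_0_15.g 277859208464789163568839250466681435882741333500247215794734922394620821856067996621672553260318664088266147697545333935223382853463035002950738516703332055706653878959807614032949106712590287714127880 (by decide +kernel)))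

theorem cl55 : Clo K (Helper55.TR.GT 1 Helper55.TR.BrU) l63 :=
  .q [n0,m1,n0,m2,n0,n0,m1,m1,n1,n1,n0,m1,n1] (e' := [n0,n1,n0,n2,n0,n0,n1,n1,m1,m1,n0,n1,m1]) (.p true [0,0,-1,1] []
  (⟨0,[(3,0)]⟩,⟨0,[(19,0),(2,0)]⟩) .k 0 (⟨0,[]⟩,⟨0,[]⟩) .k (.r 0 ⟨2,[(8,0),(5,1),(21,0),(1,1),(7,
  1)]⟩ ⟨24,[(12,4),(10,2),(4,21),(2,0),(0,21),(7,18),(1,16),(0,1),(0,12)]⟩)) (by decide +kernel)
  (by decide +kernel) (.t t46 ok46) cl54

theorem cl56 : Clo K (Helper55.TR.GT 1 Helper55.TR.BrU) r63 :=
  .i [n0,n0,m2,n0,n1,m2,n0,n0,m1] (e' := [n1,n0,n2,n0,m1,n2,n0,n0,n1]) (by decide +kernel) (by decide +kernel)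
  (.t t48 ok48) (.h (Helper55.TR.GT.lJ Helper55.CD.Dm1_1_c0u_5_0_16.g 266697827599964909877757694841447318363032297779446010043696313690500401559520092950240712337575796374285022379803649434848748504408243758954121900569093796627897969655313715976001152601243584039955 (by decide +kernel)))

theorem cl57 : Clo K (Helper55.TR.GT 1 Helper55.TR.BrU) r62 :=
  .i [n0,n0,n2,n2,m1,n0,n0,n0,n0,m1] (e' := [n1,n0,m2,m2,n1,n0,n0,n0,n0,n1]) (by decide +kernel)
  (by decide +kernel) cl55 cl56

theorem cl58 : Clo K (Helper55.TR.GT 1 Helper55.TR.BrU) r61 :=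
  .q [n0,n0,n0,n0,n0,n2,n0,n0,n0,n0,m1,n0,n1] (e' := [n0,n0,n0,n0,n0,m2,n0,n0,n0,n0,n1,n0,m1]) (.p true [0,0,0,1] [1] (⟨0,
  [(18,0)]⟩,⟨0,[(17,0)]⟩) .k 1 (⟨0,[]⟩,⟨0,[]⟩) .k .k) (by decide +kernel) (by decide +kernel) (.t
  t45 ok45) cl57

theorem cl59 : Clo K (Helper55.TR.GT 1 Helper55.TR.BrU) l60 :=
  .q [n0,n0,n0,n0,n0,n1,n0,n0,n0,n0,n0,n1,m1] (e' := [n0,n0,n0,n0,n0,m1,n0,n0,n0,n0,n0,m1,n1]) (.p false [0,0,-1,1] [] (⟨0,
  [(0,0)]⟩,⟨0,[(16,0),(2,0)]⟩) .k 0 (⟨0,[]⟩,⟨0,[]⟩) .k (.r 0 ⟨2,[(5,0),(5,1),(21,0),(1,1),(7,1)]⟩
  ⟨24,[(9,4),(10,2),(4,21),(2,0),(0,21),(7,18),(1,16),(0,1),(0,12)]⟩)) (by decide +kernel)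
  (by decide +kernel) (.t t44 ok44) cl58

theorem cl60 : Clo K (Helper55.TR.GT 1 Helper55.TR.BrU) l72 :=
  .i [n0,n0,n2,n0,m1,n2,n0,n0,n1] (e' := [n1,n0,m2,n0,n1,m2,n0,n0,m1]) (by decide +kernel) (by decide +kernel)
  (.t t51 ok51) (.h (Helper55.TR.GT.lJ Helper55.CD.Dm1_1_c0u_5_0_17.g 454911697187727806860327897377146443387811461490646789400869037639791183259976329020635758314504037881735463632508853062436069831219606176639550060558793120363871153515148278112361833271728572848971796 (by decide +kernel)))

theorem cl61 : Clo K (Helper55.TR.GT 1 Helper55.TR.BrU) r77 :=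
  .i [n0,n0,n2,n0,m1,n2,n0,n0,n1] (e' := [n1,n0,m2,n0,n1,m2,n0,n0,m1]) (by decide +kernel) (by decide +kernel)
  (.t t55 ok55) (.h (Helper55.TR.GT.lJ Helper55.CD.Dm1_1_c0u_5_0_18.g 337157652787924472477294040423074640973631590008580302142827837182176585468473496003553012906665273995769492323422011068214909007330452142798154041698609994295090862237322213193542639532000138524448804806569493523 (by decide +kernel)))

theorem cl62 : Clo K (Helper55.TR.GT 1 Helper55.TR.BrU) r76 :=
  .i [n0,n0,m2,m2,n1,n0,n0,n0,n0,n1] (e' := [n1,n0,n2,n2,m1,n0,n0,n0,n0,m1]) (by decide +kernel)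
  (by decide +kernel) (.t t54 ok54) cl61

theorem cl63 : Clo K (Helper55.TR.GT 1 Helper55.TR.BrU) l75 :=
  .i [n0,n0,n2,n2,m1,n0,n0,n0,n0,m1] (e' := [n1,n0,m2,m2,n1,n0,n0,n0,n0,n1]) (by decide +kernel)
  (by decide +kernel) (.t t53 ok53) cl62

theorem cl64 : Clo K (Helper55.TR.GT 1 Helper55.TR.BrU) l79 :=
  .q [n0,n0,n0,m1,n0,n0,n1,n1,m2,m2,n0,n1,m2] (e' := [n0,n0,n0,n1,n0,n0,m1,m1,n2,n2,n0,m1,n2]) (.p false [0,0,0,1] [0,
  0,1,-1] (⟨0,[(26,0)]⟩,⟨0,[(25,0)]⟩) .k 2 (⟨0,[(9,0)]⟩,⟨0,[(17,0),(8,0)]⟩) .k (.r (-1) ⟨5,[(8,3),
  (9,4),(1,3),(0,3),(20,0),(5,1),(1,1)]⟩ ⟨0,[(0,0)]⟩)) (by decide +kernel) (by decide +kernel) (.t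
  t56 ok56) (.h (Helper55.TR.GT.lJ Helper55.CD.Dm1_1_c0u_5_0_19.g 478199198858892395319056452898413388533590909425670536868781468862651958258117404885065256263134925952673913408318915873938205271424737151146981697250719973491386152918124484386365226382668534258096371784501249 (by decide +kernel)))

theorem cl65 : Clo K (Helper55.TR.GT 1 Helper55.TR.BrU) r79 :=
  .q [n0,n0,m2,n0,n1,n0,n0,n0,m1,n0,n1,n0,m1] (e' := [n0,n0,n2,n0,m1,n0,n0,n0,n1,n0,m1,n0,n1]) (.p false [0,0,0,1] [1]
  (⟨0,[(26,0)]⟩,⟨0,[(25,0)]⟩) .k 1 (⟨0,[]⟩,⟨0,[]⟩) .k .k) (by decide +kernel) (by decide +kernel)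
  (.t t57 ok57) (.h (Helper55.TR.GT.lb Helper55.CD.Dm1_1_c0u_5_0_20.g 301517912700449382952929075892911516667800073231391363316397991304627242036130871289912896063613073048900800545990726151096091596605534791824675337858835545299716436854235836272687075513973343235 (by decide +kernel)))

theorem cl66 : Clo K (Helper55.TR.GT 1 Helper55.TR.BrU) r75 :=
  .i [n0,n0,n0,n0,n0,n0,n0,n1,n0,m2] (e' := [n1,n0,n0,n0,n0,n0,n0,m1,n0,n2]) (by decide +kernel) (by decide +kernel)
  cl64 cl65

theorem cl67 : Clo K (Helper55.TR.GT 1 Helper55.TR.BrU) r74 :=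
  .q [n0,n0,n0,m2,n0,n0,n0,n0,n1,n1,n0,n0,n1] (e' := [n0,n0,n0,n2,n0,n0,n0,n0,m1,m1,n0,n0,m1]) (.p true [0,0,0,1] [] (⟨0,
  [(24,0)]⟩,⟨0,[(23,0)]⟩) .k 0 (⟨0,[]⟩,⟨0,[]⟩) .k .k) (by decide +kernel) (by decide +kernel) cl63
  cl66

theorem cl68 : Clo K (Helper55.TR.GT 1 Helper55.TR.BrU) r72 :=
  .q [n0,n0,n0,n0,n0,n0,m1,n0,n1,n0,n1,m1,n1] (e' := [n0,n0,n0,n0,n0,n0,n1,n0,m1,n0,m1,n1,m1]) (.p true [1,0,-1,1] []
  (⟨0,[(14,0),(8,0)]⟩,⟨0,[(6,0)]⟩) .k 0 (⟨0,[]⟩,⟨0,[]⟩) .k (.r 0 ⟨3,[(5,1),(30,0),(4,0),(12,0)]⟩
  ⟨17,[(0,2),(2,9),(0,12),(10,0),(10,4),(16,3),(1,19),(0,6),(3,2)]⟩)) (by decide +kernel)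
  (by decide +kernel) (.t t52 ok52) cl67

theorem cl69 : Clo K (Helper55.TR.GT 1 Helper55.TR.BrU) r71 :=
  .q [n0,n1,n0,m2,n0,n0,n1,n1,n1,n1,m1,n1,n1] (e' := [n0,m1,n0,n2,n0,n0,m1,m1,m1,m1,n1,m1,m1]) (.p true [-1,0,1,1]
  [] (⟨0,[(8,0)]⟩,⟨0,[(13,0),(7,0)]⟩) .k 0 (⟨0,[]⟩,⟨0,[]⟩) .k (.r (-1) ⟨59,[(6,7),(7,30),(1,43),(0,
  17),(15,2),(8,25),(1,11),(0,5)]⟩ ⟨1,[(15,0),(9,0),(4,0),(3,0),(0,1)]⟩)) (by decide +kernel)
  (by decide +kernel) cl60 cl68

theorem cl70 : Clo K (Helper55.TR.GT 1 Helper55.TR.BrU) l70 :=
  .q [n0,m1,n0,n1,n0,n0,m1,m1,n0,n0,n1,m1] (e' := [n0,n1,n0,m1,n0,n0,n1,n1,n0,n0,m1,n1]) (.p false [0,0,1] [1] (⟨0,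
  [(23,0)]⟩,⟨0,[(12,0)]⟩) .k 1 (⟨0,[]⟩,⟨0,[]⟩) .k .k) (by decide +kernel) (by decide +kernel) (.t
  t50 ok50) cl69

theorem cl71 : Clo K (Helper55.TR.GT 1 Helper55.TR.BrU) l82 :=
  .i [n0,n0,n2,n2,m1,n0,n0,n0,n0,m1] (e' := [n1,n0,m2,m2,n1,n0,n0,n0,n0,n1]) (by decide +kernel)
  (by decide +kernel) (.t t58 ok58) (.h (Helper55.TR.GT.lJ Helper55.CD.Dm1_1_c0u_5_0_21.g 460811190940402264377804567333553512419271957703628070461056342950552603278030830080906681161253017924751072495446404180397751577125309696637513723651110075714030112282687375346279684566024861296028027908 (by decide +kernel)))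

theorem cl72 : Clo K (Helper55.TR.GT 1 Helper55.TR.BrU) r70 :=
  .q [n0,n0,m2,n0,n1,n0,n0,n0,m1,n0,n1,n0,m1] (e' := [n0,n0,n2,n0,m1,n0,n0,n0,n1,n0,m1,n0,n1]) (.p false [0,0,0,1] [1]
  (⟨0,[(21,0)]⟩,⟨0,[(20,0)]⟩) .k 1 (⟨0,[]⟩,⟨0,[]⟩) .k .k) (by decide +kernel) (by decide +kernel)
  cl71 (.h (Helper55.TR.GT.l1 Helper55.CD.Dm1_1_c0u_5_0_22.g 284456199309915273641898915531834320492499079383076014896774230643085786781566867301742513314281797861208947179648365810277967723504940919455596603346831141747688480121591776936124130509341434444142084099 (by decide +kernel)))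

theorem cl73 : Clo K (Helper55.TR.GT 1 Helper55.TR.BrU) r69 :=
  .i [n0,n1,n0,n0,n0,n0,n0,n0,n0,n1] (e' := [n1,m1,n0,n0,n0,n0,n0,n0,n0,m1]) (by decide +kernel) (by decide +kernel)
  cl70 cl72

theorem cl74 : Clo K (Helper55.TR.GT 1 Helper55.TR.BrU) l68 :=
  .q [n0,m1,n0,n0,n0,n0,m1,m1,n1,n1,n1,m1,n1] (e' := [n0,n1,n0,n0,n0,n0,n1,n1,m1,m1,m1,n1,m1]) (.p true [1,0,-1,1] []
  (⟨0,[(10,0),(8,0)]⟩,⟨0,[(2,0)]⟩) .k 0 (⟨0,[]⟩,⟨0,[]⟩) .k (.r 0 ⟨3,[(1,1),(30,0),(4,0),(12,0)]⟩
  ⟨20,[(0,9),(21,6),(0,6),(3,13),(2,3),(0,3),(7,6),(1,18),(0,7)]⟩)) (by decide +kernel)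
  (by decide +kernel) (.t t49 ok49) cl73

theorem cl75 : Clo K (Helper55.TR.GT 1 Helper55.TR.BrU) l67 :=
  .q [n0,n0,m2,n0,n1,n0,m1,n0,n1,n0,n0,m1,n1] (e' := [n0,n0,n2,n0,m1,n0,n1,n0,m1,n0,n0,n1,m1]) (.p true [1,0,-1,1] [1]
  (⟨0,[(9,0),(8,0)]⟩,⟨0,[(1,0)]⟩) .k 1 (⟨0,[]⟩,⟨0,[]⟩) .k (.r 0 ⟨3,[(0,1),(30,0),(4,0),(12,0)]⟩ ⟨24,
  [(10,4),(10,2),(4,21),(2,0),(0,21),(7,18),(1,16),(0,1),(0,12)]⟩)) (by decide +kernel)
  (by decide +kernel) cl74 (.h (Helper55.TR.GT.lJ Helper55.CD.Dm1_1_c0u_5_0_23.g 69923325384928874157918329322024417862040126020971358919905425430104741685789176808742331896866577160635377438786466492141352830501508732141903014196178691942448892424433502109316813961218 (by decide +kernel)))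

theorem cl76 : Clo K (Helper55.TR.GT 1 Helper55.TR.BrU) r84 :=
  .q [n0,n0,n0,n0,n0,n0,m1,n0,n1,n0,n1,m1,n1] (e' := [n0,n0,n0,n0,n0,n0,n1,n0,m1,n0,m1,n1,m1]) (.p true [1,0,-1,1] []
  (⟨0,[(10,0),(8,0)]⟩,⟨0,[(2,0)]⟩) .k 0 (⟨0,[]⟩,⟨0,[]⟩) .k (.r 0 ⟨2,[(7,0),(5,1),(21,0),(1,1),(7,
  1)]⟩ ⟨23,[(1,11),(9,8),(2,1),(20,0),(3,13),(1,15),(1,15)]⟩)) (by decide +kernel)
  (by decide +kernel) (.t t60 ok60) (.h (Helper55.TR.GT.lJ Helper55.CD.Dm1_1_c0u_5_0_24.g 255884678369396251073965091787816864222048099593648797804521794260059453842337922557162525083935243750243791924799609844648716448712784840877954108995988566203543304841660465005175464780891161606 (by decide +kernel)))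

theorem cl77 : Clo K (Helper55.TR.GT 1 Helper55.TR.BrU) r67 :=
  .q [n0,m1,n0,n0,n0,n0,m1,m1,n1,n1,n1,m1,n1] (e' := [n0,n1,n0,n0,n0,n0,n1,n1,m1,m1,m1,n1,m1]) (.p true [1,0,-1,1] []
  (⟨0,[(9,0),(8,0)]⟩,⟨0,[(1,0)]⟩) .k 0 (⟨0,[]⟩,⟨0,[]⟩) .k (.r 0 ⟨2,[(6,0),(5,1),(21,0),(1,1),(7,
  1)]⟩ ⟨23,[(0,11),(9,8),(2,1),(20,0),(3,13),(1,15),(1,15)]⟩)) (by decide +kernel)
  (by decide +kernel) (.t t59 ok59) cl76

theorem cl78 : Clo K (Helper55.TR.GT 1 Helper55.TR.BrU) r60 :=
  .i [n0,n0,n0,m1,n0,n0,n0,m1,n0,n2] (e' := [n1,n0,n0,n1,n0,n0,n0,n1,n0,m2]) (by decide +kernel) (by decide +kernel)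
  cl75 cl77

theorem cl79 : Clo K (Helper55.TR.GT 1 Helper55.TR.BrU) r59 :=
  .q [n0,n0,n0,n0,n0,n0,n0,n0,n0,n0,n0,m1,n1] (e' := [n0,n0,n0,n0,n0,n0,n0,n0,n0,n0,n0,n1,m1]) (.ed false [1,0,-1,1] (.r 0
  ⟨2,[(4,0),(5,1),(21,0),(1,1),(7,1)]⟩ ⟨24,[(8,4),(10,2),(4,21),(2,0),(0,21),(7,18),(1,16),(0,1),(0,
  12)]⟩)) (by decide +kernel) (by decide +kernel) cl59 cl78

theorem cl80 : Clo K (Helper55.TR.GT 1 Helper55.TR.BrU) r58 :=
  .i [n1,n0,m1,m1,n0,n0,n0,m1,n0,m2] (e' := [n0,n0,n1,n1,n0,n0,n0,n1,n0,n2]) (by decide +kernel)
  (by decide +kernel) (.t t43 ok43) cl79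

theorem cl81 : Clo K (Helper55.TR.GT 1 Helper55.TR.BrU) r3 :=
  .i [n0,n1,m1,m1,n0,n0,n0,m1,n0,m1] (e' := [n1,m1,n1,n1,n0,n0,n0,n1,n0,n1]) (by decide +kernel)
  (by decide +kernel) (.t t42 ok42) cl80

theorem cl82 : Clo K (Helper55.TR.GT 1 Helper55.TR.BrU) l2 :=
  .q [n0,n0,n0,n0,n0,n0,n0,n0,n0,n0,n1,m1,m1] (e' := [n0,n0,n0,n0,n0,n0,n0,n0,n0,n0,m1,n1,n1]) (.ed true [0,0,1,1] (.r
  (-1) ⟨35,[(5,20),(1,35),(0,5),(15,0),(8,13),(1,3),(0,1),(3,7)]⟩ ⟨1,[(6,0),(9,0),(4,0),(3,0),(0,
  1)]⟩)) (by decide +kernel) (by decide +kernel) cl53 cl81

theorem cl83 : Clo K (Helper55.TR.GT 1 Helper55.TR.BrU) r93 :=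
  .q [n0,m1,n0,n1,n0,n0,m1,m1,n0,n0,n1,m1] (e' := [n0,n1,n0,m1,n0,n0,n1,n1,n0,n0,m1,n1]) (.p false [0,0,1] [1] (⟨0,
  [(23,0)]⟩,⟨0,[(12,0)]⟩) .k 1 (⟨0,[]⟩,⟨0,[]⟩) .k .k) (by decide +kernel) (by decide +kernel) (.t
  t66 ok66) (.h (Helper55.TR.GT.lJ Helper55.CD.Dm1_1_c0u_5_0_25.g 76643427207688163320627763699641791511961479386884616322320939323780179274264680572673542831994323029767440817569883900690389353958364026061992568472839131078005216780618295070505981889843715469476867 (by decide +kernel)))

theorem cl84 : Clo K (Helper55.TR.GT 1 Helper55.TR.BrU) l92 :=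
  .q [n0,n0,n0,n0,n0,n1,n0,n0,n0,n0,n0,m1,n1] (e' := [n0,n0,n0,n0,n0,m1,n0,n0,n0,n0,n0,n1,m1]) (.p true [1,0,-1,1] [1] (⟨0,
  [(11,0),(8,0)]⟩,⟨0,[(0,0)]⟩) .k 1 (⟨0,[]⟩,⟨0,[]⟩) .k (.r 0 ⟨1,[(5,0),(2,0),(24,0)]⟩ ⟨41,[(3,21),
  (8,14),(10,19),(7,2),(0,21),(7,23),(1,17),(0,5),(0,27)]⟩)) (by decide +kernel)
  (by decide +kernel) (.t t65 ok65) cl83

theorem cl85 : Clo K (Helper55.TR.GT 1 Helper55.TR.BrU) r91 :=
  .q [n0,n0,n0,n0,n0,n0,n0,n0,n0,n0,n0,n1,m1] (e' := [n0,n0,n0,n0,n0,n0,n0,n0,n0,n0,n0,m1,n1]) (.ed true [1,0,-1,1] (.r 0
  ⟨1,[(4,0),(2,0),(24,0)]⟩ ⟨41,[(2,21),(8,14),(10,19),(7,2),(0,21),(7,23),(1,17),(0,5),(0,27)]⟩))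
  (by decide +kernel) (by decide +kernel) cl84 (.h (Helper55.TR.GT.lJ Helper55.CD.Dm1_1_c0u_5_0_26.g 262044160116599660722393130748044662243000874398242968323274230326308440062194441856780452090250978491922169721568318456010086791945252486063770903451247399114062610602638457243136210102586328525860 (by decide +kernel)))

theorem cl86 : Clo K (Helper55.TR.GT 1 Helper55.TR.BrU) l90 :=
  .i [n0,n1,n2,n1,m1,n0,n0,n0,n0,m1] (e' := [n1,m1,m2,m1,n1,n0,n0,n0,n0,n1]) (by decide +kernel)
  (by decide +kernel) (.t t64 ok64) cl85

theorem cl87 : Clo K (Helper55.TR.GT 1 Helper55.TR.BrU) r97 :=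
  .q [n0,m1,n0,n1,n0,n0,m1,m1,n0,n0,n1,m1] (e' := [n0,n1,n0,m1,n0,n0,n1,n1,n0,n0,m1,n1]) (.p false [0,0,1] [1] (⟨0,
  [(23,0)]⟩,⟨0,[(12,0)]⟩) .k 1 (⟨0,[]⟩,⟨0,[]⟩) .k .k) (by decide +kernel) (by decide +kernel) (.t
  t68 ok68) (.h (Helper55.TR.GT.lJ Helper55.CD.Dm1_1_c0u_5_0_28.g 159110843833253140995889829209006416906864142851593458220625907161078698647429227448633149026324643445774897692439460635497321285453061476383357416223902526836589942019533945931485459963162375750659 (by decide +kernel)))

theorem cl88 : Clo K (Helper55.TR.GT 1 Helper55.TR.BrU) l96 :=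
  .q [n0,n0,n1,n0,n0,n0,m2,n0,m1,n0,n2,m2,m1] (e' := [n0,n0,m1,n0,n0,n0,n2,n0,n1,n0,m2,n2,n1]) (.p false [0,0,1] [2,0,
  -1,-1] (⟨0,[(22,0)]⟩,⟨0,[(11,0)]⟩) .k 2 (⟨0,[(11,0),(7,0)]⟩,⟨0,[(1,0)]⟩) .k (.r (-1) ⟨2,[(12,0),
  (1,2),(25,1),(6,0),(9,0)]⟩ ⟨3,[(0,3),(11,0),(17,1),(7,0),(12,0),(2,0)]⟩)) (by decide +kernel)
  (by decide +kernel) (.t t67 ok67) cl87

theorem cl89 : Clo K (Helper55.TR.GT 1 Helper55.TR.BrU) r95 :=
  .i [n0,n1,m1,m1,n0,n0,n0,m1,n0,m1] (e' := [n1,m1,n1,n1,n0,n0,n0,n1,n0,n1]) (by decide +kernel)
  (by decide +kernel) cl88 (.h (Helper55.TR.GT.lb Helper55.CD.Dm1_1_c0u_5_0_29.g 49120544543881269320315244085697827826508919478459242136597349295229171156809371631919462111561703665212551877222400483382158818963034815465549119638956007498611135909891 (by decide +kernel)))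

theorem cl90 : Clo K (Helper55.TR.GT 1 Helper55.TR.BrU) r90 :=
  .q [n0,n0,n0,n0,n0,n0,n0,n0,n0,n0,n1,m1,m1] (e' := [n0,n0,n0,n0,n0,n0,n0,n0,n0,n0,m1,n1,n1]) (.ed true [0,0,1,1] (.r
  (-1) ⟨35,[(10,20),(1,35),(0,5),(15,0),(8,13),(1,3),(0,1),(3,7)]⟩ ⟨2,[(1,0),(19,1),(8,0),(0,2),(10,
  0)]⟩)) (by decide +kernel) (by decide +kernel) (.h (Helper55.TR.GT.sub Helper55.CD.Dm1_1_c0u_5_0_27.g 243456399995939729560562882218213205510714996743540011639053363472409026995600903203584785440625680617094175174181641849852669234107715747135192934665383810719507715750230980823096 (by decide +kernel))) cl89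

theorem cl91 : Clo K (Helper55.TR.GT 1 Helper55.TR.BrU) r89 :=
  .q [n0,n0,n0,m2,n0,n0,n0,n0,n1,n1,n0,n0,n1] (e' := [n0,n0,n0,n2,n0,n0,n0,n0,m1,m1,n0,n0,m1]) (.p true [0,0,0,1] [] (⟨0,
  [(17,0)]⟩,⟨0,[(16,0)]⟩) .k 0 (⟨0,[]⟩,⟨0,[]⟩) .k .k) (by decide +kernel) (by decide +kernel) cl86
  cl90

theorem cl92 : Clo K (Helper55.TR.GT 1 Helper55.TR.BrU) r88 :=
  .q [n0,m1,n0,m2,n0,n0,m1,m1,n1,n1,n0,m1,n1] (e' := [n0,n1,n0,n2,n0,n0,n1,n1,m1,m1,n0,n1,m1]) (.p false [0,0,1] [0,0,
  0,1] (⟨0,[(18,0)]⟩,⟨0,[(7,0)]⟩) .k 2 (⟨0,[(16,0)]⟩,⟨0,[(15,0)]⟩) .k (.r (-1) ⟨24,[(8,4),(10,2),(4,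
  21),(2,0),(0,21),(7,18),(1,16),(0,1),(0,12)]⟩ ⟨1,[(1,0),(2,0),(24,0)]⟩)) (by decide +kernel)
  (by decide +kernel) (.t t63 ok63) cl91

theorem cl93 : Clo K (Helper55.TR.GT 1 Helper55.TR.BrU) l87 :=
  .q [n0,n0,n0,n0,n0,n2,n0,n0,n0,n0,n0,n0,m1] (e' := [n0,n0,n0,n0,n0,m2,n0,n0,n0,n0,n0,n0,n1]) (.p false [0,0,0,1] [] (⟨0,
  [(15,0)]⟩,⟨0,[(14,0)]⟩) .k 0 (⟨0,[]⟩,⟨0,[]⟩) .k .k) (by decide +kernel) (by decide +kernel) (.t
  t62 ok62) cl92

theorem cl94 : Clo K (Helper55.TR.GT 1 Helper55.TR.BrU) r104 :=
  .q [n0,n0,n0,n0,n0,n1,n0,n0,n0,n0,n0,n1,m1] (e' := [n0,n0,n0,n0,n0,m1,n0,n0,n0,n0,n0,m1,n1]) (.p false [0,0,-1,1] [] (⟨0,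
  [(0,0)]⟩,⟨0,[(20,0),(2,0)]⟩) .k 0 (⟨0,[]⟩,⟨0,[]⟩) .k (.r 0 ⟨2,[(9,0),(5,1),(21,0),(1,1),(7,1)]⟩
  ⟨24,[(13,4),(10,2),(4,21),(2,0),(0,21),(7,18),(1,16),(0,1),(0,12)]⟩)) (by decide +kernel)
  (by decide +kernel) (.t t72 ok72) (.h (Helper55.TR.GT.lJ Helper55.CD.Dm1_1_c0u_5_0_31.g 392644187179484163614117579525861637775856484551820768535630921125511610956858350648749708806645134875570632455220363901942539230613274053350400193717668285738757540310131474485709536486941446357685251 (by decide +kernel)))

theorem cl95 : Clo K (Helper55.TR.GT 1 Helper55.TR.BrU) r103 :=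
  .q [n0,n0,n0,n0,n0,n0,n0,n0,n0,n0,n0,n1,m1] (e' := [n0,n0,n0,n0,n0,n0,n0,n0,n0,n0,n0,m1,n1]) (.ed true [1,0,-1,1] (.r 0
  ⟨2,[(8,0),(5,1),(21,0),(1,1),(7,1)]⟩ ⟨24,[(12,4),(10,2),(4,21),(2,0),(0,21),(7,18),(1,16),(0,1),
  (0,12)]⟩)) (by decide +kernel) (by decide +kernel) (.h (Helper55.TR.GT.lb Helper55.CD.Dm1_1_c0u_5_0_30.g 76951880375494315795293729068394710614220745545533422033591744476713759217055268696648208319897912014723377838064890837210217201966695333886820096543264192093512979364903807039575594386961948100028452 (by decide +kernel))) cl94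

theorem cl96 : Clo K (Helper55.TR.GT 1 Helper55.TR.BrU) r102 :=
  .i [n1,n0,m1,m1,n0,n0,n0,m1,n0,m2] (e' := [n0,n0,n1,n1,n0,n0,n0,n1,n0,n2]) (by decide +kernel)
  (by decide +kernel) (.t t71 ok71) cl95

theorem cl97 : Clo K (Helper55.TR.GT 1 Helper55.TR.BrU) l101 :=
  .i [n1,n1,m1,n0,n0,n0,n0,m1,n0,m1] (e' := [n0,m1,n1,n0,n0,n0,n0,n1,n0,n1]) (by decide +kernel)
  (by decide +kernel) (.t t70 ok70) cl96

theorem cl98 : Clo K (Helper55.TR.GT 1 Helper55.TR.BrU) l107 :=
  .i [n0,n1,m1,m1,n0,n0,n0,m1,n0,m1] (e' := [n1,m1,n1,n1,n0,n0,n0,n1,n0,n1]) (by decide +kernel)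
  (by decide +kernel) (.t t73 ok73) (.h (Helper55.TR.GT.lb Helper55.CD.Dm1_1_c0u_5_0_33.g 74883462859633464111945202083172982556575255267996920660498602210015898390554401596010501959133885344087844162312605763970548836926911615061219598263524975316966531020159836249300213289597163018302 (by decide +kernel)))

theorem cl99 : Clo K (Helper55.TR.GT 1 Helper55.TR.BrU) r106 :=
  .i [n0,n0,m1,m1,n0,n0,n0,m2,n0,m1] (e' := [n1,n0,n1,n1,n0,n0,n0,n2,n0,n1]) (by decide +kernel)
  (by decide +kernel) cl98 (.h (Helper55.TR.GT.lJ Helper55.CD.Dm1_1_c0u_5_0_34.g 339994934812278025927348823595997757298015470374449776373127050892557606349703643967896237771473616528181555077481747869681599416477879956091519065407452815059068311288431638579314226179 (by decide +kernel)))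

theorem cl100 : Clo K (Helper55.TR.GT 1 Helper55.TR.BrU) r101 :=
  .q [n0,n0,n0,n0,n0,n1,n0,n0,n0,n0,m1,n1,n1] (e' := [n0,n0,n0,n0,n0,m1,n0,n0,n0,n0,n1,m1,m1]) (.p true [0,0,1,1] [1] (⟨0,
  [(18,0),(1,0)]⟩,⟨0,[(0,0)]⟩) .k 1 (⟨0,[]⟩,⟨0,[]⟩) .k (.r (-1) ⟨35,[(10,20),(1,35),(0,5),(15,0),(8,
  13),(1,3),(0,1),(3,7)]⟩ ⟨1,[(11,0),(9,0),(4,0),(3,0),(0,1)]⟩)) (by decide +kernel)
  (by decide +kernel) (.h (Helper55.TR.GT.sub Helper55.CD.Dm1_1_c0u_5_0_32.g 229684221037606517399245876804493231717758917287558029962519617408619219763703543814495718411694050675331020073877482366391213442606905219503154716773416901358996828135800506692016283666 (by decide +kernel))) cl99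

theorem cl101 : Clo K (Helper55.TR.GT 1 Helper55.TR.BrU) r100 :=
  .q [n0,n0,n0,n0,n0,n0,n0,n0,n0,n0,m1,n1,n1] (e' := [n0,n0,n0,n0,n0,n0,n0,n0,n0,n0,n1,m1,m1]) (.ed false [0,0,1,1] (.r
  (-1) ⟨35,[(9,20),(1,35),(0,5),(15,0),(8,13),(1,3),(0,1),(3,7)]⟩ ⟨1,[(10,0),(9,0),(4,0),(3,0),(0,
  1)]⟩)) (by decide +kernel) (by decide +kernel) cl97 cl100

theorem cl102 : Clo K (Helper55.TR.GT 1 Helper55.TR.BrU) l99 :=
  .q [n0,n0,n0,n0,n0,n2,n0,n0,n0,n0,n0,n0,m1] (e' := [n0,n0,n0,n0,n0,m2,n0,n0,n0,n0,n0,n0,n1]) (.p false [0,0,0,1] [] (⟨0,
  [(16,0)]⟩,⟨0,[(15,0)]⟩) .k 0 (⟨0,[]⟩,⟨0,[]⟩) .k .k) (by decide +kernel) (by decide +kernel) (.t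
  t69 ok69) cl101

theorem cl103 : Clo K (Helper55.TR.GT 1 Helper55.TR.BrU) r87 :=
  .i [n0,n0,n2,n2,m1,n0,n0,n0,n0,m1] (e' := [n1,n0,m2,m2,n1,n0,n0,n0,n0,n1]) (by decide +kernel)
  (by decide +kernel) cl102 (.h (Helper55.TR.GT.lb Helper55.CD.Dm1_1_c0u_5_0_35.g 387968965304522919495795900744776545591973388168389386311256349329303675179188584955850064589260651384336952645623238828510459475721592803168744900346516107698083489634617099981595484970024962 (by decide +kernel)))

theorem cl104 : Clo K (Helper55.TR.GT 1 Helper55.TR.BrU) r86 :=
  .i [n0,n0,m2,m2,n1,n0,n0,n0,n0,n1] (e' := [n1,n0,n2,n2,m1,n0,n0,n0,n0,m1]) (by decide +kernel)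
  (by decide +kernel) cl93 cl103

theorem cl105 : Clo K (Helper55.TR.GT 1 Helper55.TR.BrU) r2 :=
  .q [n0,n0,n0,n0,n0,n1,n0,n0,n0,n0,n0,n0,m1] (e' := [n0,n0,n0,n0,n0,m1,n0,n0,n0,n0,n0,n0,n1]) (.ed true [1,-1,0,1] .k)
  (by decide +kernel) (by decide +kernel) (.t t61 ok61) cl104

theorem cl106 : Clo K (Helper55.TR.GT 1 Helper55.TR.BrU) r1 :=
  .q [n0,n0,n2,n0,m1,n0,n0,n0,n1,n0,n0,n0,n1] (e' := [n0,n0,m2,n0,n1,n0,n0,n0,m1,n0,n0,n0,m1]) (.p true [0,0,0,1] [] (⟨0,
  [(12,0)]⟩,⟨0,[(11,0)]⟩) .k 0 (⟨0,[]⟩,⟨0,[]⟩) .k .k) (by decide +kernel) (by decide +kernel) cl82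
  cl105

theorem cl107 : Clo K (Helper55.TR.GT 1 Helper55.TR.BrU) r0 :=
  .i [n1,n0,m2,m2,n1,n0,n0,n1,n0,m1] (e' := [n0,n0,n2,n2,m1,n0,n0,m1,n0,n1]) (by decide +kernel)
  (by decide +kernel) (.t t1 ok1) cl106

theorem cl108 : Clo K (Helper55.TR.GT 1 Helper55.TR.BrU) base :=
  .q [n0,n0,m2,n0,n1,n0,m1,n0,n0,n0,n1,m1] (e' := [n0,n0,n2,n0,m1,n0,n1,n0,n0,n0,m1,n1]) (.p false [0,0,1] [1] (⟨0,
  [(12,0)]⟩,⟨0,[(1,0)]⟩) .k 1 (⟨0,[]⟩,⟨0,[]⟩) .k .k) (by decide +kernel) (by decide +kernel) (.t t0
  ok0) cl107

theorem g : Helper55.TR.GT 1 Helper55.TR.BrU base :=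
  Helper55.TR.GT.of cl108

end Helper55.CD.Dm1_1_c0u_5_0

namespace Helper55.CD.Dm1_1_c0u_5_1

open Helper25.KG Helper25.KW Helper55.KE Helper11.CT Helper55.TR.Nm

noncomputable def K : Cls :=
  Helper55.TR.KT 1

noncomputable def base : List Con :=
  [(false,[n0,n0,n0,n0,n0,n0,n0,n0,n0,n0,n1,n0,m1]),
  (false,[n0,n0,n0,n0,n0,n0,n0,n0,n1,n0,n0,n0,n1]),
  (false,[n0,n0,n0,n0,n0,n0,n0,n0,n0,n0,n0,n0,n1]),
  (true,[n0,n1,n0,n1]),
  (true,[n0,n0,n0,m1]),
  (false,[n0,n0,n0,n0,n0,m1,n0,n0,n0,n0,n1,n0,m1]),
  (true,[n0,n0,n0,n0,n0,n1]),
  (false,[n0,n0,n1,n0,n0,n0,n1,n0,n0,n0,n0,n1]),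
  (false,[n0,n0,n0,n0,n0,m1,n0,n0,n0,n0,n1]),
  (false,[n0,n0,n0,n0,n0,m2,n0,n0,n0,n0,n1]),
  (false,[n0,n0,n0,n0,n0,n0,n1,n0,n0,n0,n0,n1]),
  (true,[n1,n1,n0,n0,n0,n0,n0,n0,n0,n1]),
  (true,[m1,n1]),
  (false,[n0,n0,n0,n0,n0,n0,n1,n0,n0,n0,m1,n1]),
  (false,[n0,n0,n0,n0,n0,m1,n0,n0,n0,n0,n0,n1]),
  (true,[n0,m1,n0,m1,n0,n0,n0,n0,n0,m1]),
  (false,[n0,n1,n0,n0,n0,n0,n1,n1,n0,n0,n0,n1]),
  (false,[n0,n0,n0,n1,n0,n0,m1,m1,n0,n0,n0,m1]),
  (false,[n0,n0,n0,n0,n0,n0,n0,n0,n0,n0,n1,m1]),
  (true,[n1,m1,n2,n0,m1,n0,n0,m1]),
  (false,[n0,n0,n0,n0,n0,n0,m1,m1,n0,n0,n0,m1]),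
  (false,[n0,n0,n0,n1,n0,n0,n0,n0,m1,m1,n0,n0,m1]),
  (false,[n0,m1,n0,n0,n0,n0,m1,m1,n0,n0,n1,m1]),
  (false,[n0,n0,n0,n0,n0,n0,n0,n0,n0,n0,n0,n1]),
  (true,[n0,m2,n0,n0,n1]),
  (true,[n0,n0,m2,n0,n1]),
  (false,[n0,n0,n0,n0,n0,n0,n0,n0,n1,n0,m1,n0,n1]),
  (true,[n0,n0,n0,n0,n0,n0,n0,m1]),
  (true,[n0,n0,n1,n0,n0,n0,n0,n1]),
  (true,[n1,n0,m1,m1,n1,n0,n0,n2]),
  (true,[n0,m1,n2,n1,m1,n0,n0,m1]),
  (false,[n0,n0,n0,n2,n0,n0,m1,m1,n0,n0,n0,m1]),
  (true,[n0,m1,n1,n0,n0,n0,n0,m1]),
  (false,[n0,m1,n0,m1,n0,n0,m1,m1,n0,n0,n0,m1]),
  (false,[n0,n0,n0,n0,n0,m2,n0,n0,n0,n0,n0,n1]),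
  (true,[n1,n0,n2,n2,m1,n0,n0,m1]),
  (false,[n0,n0,n2,n0,m1,n0,n1,n0,n0,n0,n0,n1]),
  (false,[n0,n0,n1,n0,n0,n0,m2,n0,n0,n0,n1,m2]),
  (false,[n0,n1,n0,n0,n0,n0,n0,n0,n1,n1,m1,n0,n1]),
  (true,[n1,m1,n2,n2,m1,n0,n0,m1]),
  (false,[n0,n0,n0,n0,n1,n0,n0,n0,n0,n0,m2]),
  (false,[n0,n1,n0,n0,n0,n0,m1,m1,n0,n0,n0,m1]),
  (true,[n0,n0,n0,m1,n0,n0,n0,m1]),
  (true,[n1,n0,n2,n0,m1,n2,n1,n0,m1]),
  (true,[n0,n0,n1,n1,n0,n0,n0,n1]),
  (false,[n0,n0,n1,n0,n0,n0,m1,n0,n0,n0,n0,m1]),
  (false,[n0,n0,m2,n0,n1,n0,n0,n0,n0,n0,m1]),
  (false,[n0,n0,n0,n0,n0,m2,n0,n0,n0,n0,n1,m1]),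
  (true,[n1,m1,n1,n2,n0,n0,n0,n1]),
  (true,[n1,m1,n1,n1,n0,n0,n0,n1]),
  (true,[n1,m2,n1]),
  (true,[n0,m1,n1,n1,n0,n0,n0,n1]),
  (true,[n1,n0,n2,n0,m1,n2,n1]),
  (false,[n0,m1,m1,n1,n1,n0,m1,n0,n0,n0,n0,m1]),
  (true,[n0,n0,m1,m1,n1,n0,n0,n2]),
  (false,[n0,n0,n0,n0,n0,m1,n0,n0,n0,n0,n1,m1])]

noncomputable def l0 : List Con := (false, [n0,n0,n0,n0,n0,m1,n0,n0,n0,n0,n0,n0,n1]) :: base

noncomputable def r0 : List Con := (false, [n0,n0,n0,n0,n0,n1,n0,n0,n0,n0,n0,n0,m1]) :: base

noncomputable def l1 : List Con := (false, [n0,n0,n0,n0,n0,n0,n0,n0,n0,n0,n0,m1,n1]) :: l0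

noncomputable def r1 : List Con := (false, [n0,n0,n0,n0,n0,n0,n0,n0,n0,n0,n0,n1,m1]) :: l0

noncomputable def l2 : List Con := (false, [n0,m1,n0,m1,n0,n0,n0,n0,m1,m1,n1,n0,m1]) :: l1

noncomputable def r2 : List Con := (false, [n0,n1,n0,n1,n0,n0,n0,n0,n1,n1,m1,n0,n1]) :: l1

noncomputable def l3 : List Con := (false, [n0,n0,n0,n0,n0,n1,n0,n0,n0,n0,n0,n1,m1]) :: r2

noncomputable def r3 : List Con := (false, [n0,n0,n0,n0,n0,m1,n0,n0,n0,n0,n0,m1,n1]) :: r2

noncomputable def l4 : List Con := (false, [n0,n0,m2,n0,n1,n0,m1,n0,n1,n0,n0,m1,n1]) :: r3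

noncomputable def r4 : List Con := (false, [n0,n0,n2,n0,m1,n0,n1,n0,m1,n0,n0,n1,m1]) :: r3

noncomputable def l5 : List Con := (false, [n0,n0,n0,n0,n0,n2,n0,n0,n0,n0,m1,n0,n1]) :: l4

noncomputable def r5 : List Con := (false, [n0,n0,n0,n0,n0,m2,n0,n0,n0,n0,n1,n0,m1]) :: l4

noncomputable def l6 : List Con := (true, [n0,n0,n2,n2,m1,n0,n0,n0,n0,m1]) :: r5

noncomputable def r6 : List Con := (true, [n1,n0,m2,m2,n1,n0,n0,n0,n0,n1]) :: r5

noncomputable def l7 : List Con := (false, [n0,n0,n0,n2,n0,n0,n0,n0,m1,m1,n0,n0,m1]) :: l6

noncomputable def r7 : List Con := (false, [n0,n0,n0,m2,n0,n0,n0,n0,n1,n1,n0,n0,n1]) :: l6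

noncomputable def l8 : List Con := (false, [n0,n0,m2,n0,n1,n0,m1,n0,n0,n0,n1,m1]) :: l7

noncomputable def r8 : List Con := (false, [n0,n0,n2,n0,m1,n0,n1,n0,n0,n0,m1,n1]) :: l7

noncomputable def l9 : List Con := (true, [n0,n1,n0,n0,n0,n0,n0,n0,n0,n1]) :: r8

noncomputable def r9 : List Con := (true, [n1,m1,n0,n0,n0,n0,n0,n0,n0,m1]) :: r8

noncomputable def l10 : List Con := (false, [n0,m1,n0,n1,n0,n0,m1,m1,n0,n0,n1,m1]) :: l9

noncomputable def r10 : List Con := (false, [n0,n1,n0,m1,n0,n0,n1,n1,n0,n0,m1,n1]) :: l9

noncomputable def l11 : List Con := (true, [n0,n1,m1,n0,n0,n0,n0,m1,n0,m1]) :: r9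

noncomputable def r11 : List Con := (true, [n1,m1,n1,n0,n0,n0,n0,n1,n0,n1]) :: r9

noncomputable def l12 : List Con := (false, [n0,n0,n2,n0,m1,n0,n0,n0,n1,n0,n0,n0,n1]) :: r11

noncomputable def r12 : List Con := (false, [n0,n0,m2,n0,n1,n0,n0,n0,m1,n0,n0,n0,m1]) :: r11

noncomputable def l13 : List Con := (false, [n0,n0,m2,n0,n1,n0,n0,n0,m1,n0,n1,n0,m1]) :: l12

noncomputable def r13 : List Con := (false, [n0,n0,n2,n0,m1,n0,n0,n0,n1,n0,m1,n0,n1]) :: l12

noncomputable def l14 : List Con := (true, [n0,n1,n0,n0,n0,n0,n0,n0,n0,n1]) :: r6

noncomputable def r14 : List Con := (true, [n1,m1,n0,n0,n0,n0,n0,n0,n0,m1]) :: r6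

noncomputable def l15 : List Con := (false, [n0,m1,n0,n1,n0,n0,m1,m1,n0,n0,n1,m1]) :: l14

noncomputable def r15 : List Con := (false, [n0,n1,n0,m1,n0,n0,n1,n1,n0,n0,m1,n1]) :: l14

noncomputable def l16 : List Con := (true, [n0,n0,n2,n0,m1,n2,n0,n0,n1]) :: r15

noncomputable def r16 : List Con := (true, [n1,n0,m2,n0,n1,m2,n0,n0,m1]) :: r15

noncomputable def l17 : List Con := (false, [n0,n0,n0,n1,n0,n0,m1,m1,n1,n1,m1,m1,n1]) :: r16

noncomputable def r17 : List Con := (false, [n0,n0,n0,m1,n0,n0,n1,n1,m1,m1,n1,n1,m1]) :: r16

noncomputable def l18 : List Con := (false, [n0,n0,n0,m2,n0,n0,n1,n1,m1,m1,n1,n1,m1]) :: l17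

noncomputable def r18 : List Con := (false, [n0,n0,n0,n2,n0,n0,m1,m1,n1,n1,m1,m1,n1]) :: l17

noncomputable def l19 : List Con := (false, [n0,m1,n0,m2,n0,n0,m1,m1,n1,n1,n0,m1,n1]) :: r18

noncomputable def r19 : List Con := (false, [n0,n1,n0,n2,n0,n0,n1,n1,m1,m1,n0,n1,m1]) :: r18

noncomputable def l20 : List Con := (true, [n0,n0,m2,m2,n1,n0,n0,n0,n0,n1]) :: l19

noncomputable def r20 : List Con := (true, [n1,n0,n2,n2,m1,n0,n0,n0,n0,m1]) :: l19

noncomputable def l21 : List Con := (true, [n1,n1,m1,n0,n0,n0,n0,m1,n0,m1]) :: r19

noncomputable def r21 : List Con := (true, [n0,m1,n1,n0,n0,n0,n0,n1,n0,n1]) :: r19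

noncomputable def l22 : List Con := (false, [n0,n0,n0,m1,n0,n0,m1,m1,n2,n2,m1,m1,n2]) :: l21

noncomputable def r22 : List Con := (false, [n0,n0,n0,n1,n0,n0,n1,n1,m2,m2,n1,n1,m2]) :: l21

noncomputable def l23 : List Con := (false, [n0,n0,n0,n0,n0,n0,n0,n0,n0,n0,m1,n1,n1]) :: l22

noncomputable def r23 : List Con := (false, [n0,n0,n0,n0,n0,n0,n0,n0,n0,n0,n1,m1,m1]) :: l22

noncomputable def l24 : List Con := (false, [n0,n0,n1,n0,n0,n0,m2,n0,m1,n0,n2,m2,m1]) :: l23

noncomputable def r24 : List Con := (false, [n0,n0,m1,n0,n0,n0,n2,n0,n1,n0,m2,n2,n1]) :: l23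

noncomputable def l25 : List Con := (true, [n0,n1,n0,m1,n0,n0,n0,n1,n0,m1]) :: r17

noncomputable def r25 : List Con := (true, [n1,m1,n0,n1,n0,n0,n0,m1,n0,n1]) :: r17

noncomputable def l26 : List Con := (true, [n1,n0,m3,m3,n1,n0,n0,m1,n0,n1]) :: r25

noncomputable def r26 : List Con := (true, [n0,n0,n3,n3,m1,n0,n0,n1,n0,m1]) :: r25

noncomputable def l27 : List Con := (true, [n1,n0,n3,n3,m1,n0,n0,n1,n0,m1]) :: l26

noncomputable def r27 : List Con := (true, [n0,n0,m3,m3,n1,n0,n0,m1,n0,n1]) :: l26

noncomputable def l28 : List Con := (false, [n0,n0,n0,m1,n0,n0,m1,m1,n2,n2,m1,m1,n2]) :: r26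

noncomputable def r28 : List Con := (false, [n0,n0,n0,n1,n0,n0,n1,n1,m2,m2,n1,n1,m2]) :: r26

noncomputable def l29 : List Con := (true, [n0,n1,n0,n0,n0,n0,n0,n1,n0,m2]) :: l28

noncomputable def r29 : List Con := (true, [n1,m1,n0,n0,n0,n0,n0,m1,n0,n2]) :: l28

noncomputable def l30 : List Con := (false, [n0,n0,n2,n0,m1,n0,n0,n0,n1,n0,n0,n0,n1]) :: r14

noncomputable def r30 : List Con := (false, [n0,n0,m2,n0,n1,n0,n0,n0,m1,n0,n0,n0,m1]) :: r14

noncomputable def l31 : List Con := (true, [n0,n0,m2,n0,n1,m2,n0,n0,m1]) :: l30

noncomputable def r31 : List Con := (true, [n1,n0,n2,n0,m1,n2,n0,n0,n1]) :: l30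

noncomputable def l32 : List Con := (true, [n0,n0,n2,n0,m1,n2,n0,n0,n1]) :: r31

noncomputable def r32 : List Con := (true, [n1,n0,m2,n0,n1,m2,n0,n0,m1]) :: r31

noncomputable def l33 : List Con := (false, [n0,n0,n0,m1,n0,n0,n1,n1,m1,m1,n1,n1,m1]) :: r32

noncomputable def r33 : List Con := (false, [n0,n0,n0,n1,n0,n0,m1,m1,n1,n1,m1,m1,n1]) :: r32

noncomputable def l34 : List Con := (true, [n0,n1,n0,m1,n0,n0,n0,n1,n0,m1]) :: l33

noncomputable def r34 : List Con := (true, [n1,m1,n0,n1,n0,n0,n0,m1,n0,n1]) :: l33

noncomputable def l35 : List Con := (false, [n0,n0,n0,m1,n0,n0,m1,m1,n2,n2,m1,m1,n2]) :: r34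

noncomputable def r35 : List Con := (false, [n0,n0,n0,n1,n0,n0,n1,n1,m2,m2,n1,n1,m2]) :: r34

noncomputable def l36 : List Con := (true, [n0,n0,n2,n2,m1,n0,n0,m1,n0,n1]) :: r33

noncomputable def r36 : List Con := (true, [n1,n0,m2,m2,n1,n0,n0,n1,n0,m1]) :: r33

noncomputable def l37 : List Con := (false, [n0,n0,n0,m2,n0,n0,n1,n1,m1,m1,n1,n1,m1]) :: l36

noncomputable def r37 : List Con := (false, [n0,n0,n0,n2,n0,n0,m1,m1,n1,n1,m1,m1,n1]) :: l36

noncomputable def l38 : List Con := (false, [n0,n0,n0,m1,n0,n0,n1,n1,m2,m2,n1,n1,m2]) :: r37

noncomputable def r38 : List Con := (false, [n0,n0,n0,n1,n0,n0,m1,m1,n2,n2,m1,m1,n2]) :: r37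

noncomputable def l39 : List Con := (false, [n0,n0,n0,m2,n0,n0,n1,n1,m2,m2,n1,n1,m2]) :: r38

noncomputable def r39 : List Con := (false, [n0,n0,n0,n2,n0,n0,m1,m1,n2,n2,m1,m1,n2]) :: r38

noncomputable def l40 : List Con := (true, [n1,n0,n0,n0,n0,n0,n0,n1,n0,m2]) :: r36

noncomputable def r40 : List Con := (true, [n0,n0,n0,n0,n0,n0,n0,m1,n0,n2]) :: r36

noncomputable def l41 : List Con := (false, [n0,n0,n0,n0,n0,n0,n0,n0,n0,n0,m1,n1,n1]) :: l40

noncomputable def r41 : List Con := (false, [n0,n0,n0,n0,n0,n0,n0,n0,n0,n0,n1,m1,m1]) :: l40

noncomputable def l42 : List Con := (true, [n0,n0,m1,m1,n0,n0,n0,m2,n0,m1]) :: l41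

noncomputable def r42 : List Con := (true, [n1,n0,n1,n1,n0,n0,n0,n2,n0,n1]) :: l41

noncomputable def l43 : List Con := (true, [n0,n1,m1,m1,n0,n0,n0,m1,n0,m1]) :: l42

noncomputable def r43 : List Con := (true, [n1,m1,n1,n1,n0,n0,n0,n1,n0,n1]) :: l42

noncomputable def l44 : List Con := (true, [n0,n0,n0,n0,n0,n0,n1,n0,m2]) :: r43

noncomputable def r44 : List Con := (true, [n1,n0,n0,n0,n0,n0,m1,n0,n2]) :: r43

noncomputable def l45 : List Con := (true, [n1,n0,m3,m3,n1,n0,n0,m1,n0,m1]) :: r44

noncomputable def r45 : List Con := (true, [n0,n0,n3,n3,m1,n0,n0,n1,n0,n1]) :: r44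

noncomputable def l46 : List Con := (false, [n0,n0,n0,n0,n0,n0,n0,n0,n0,n0,n1,n1,m2]) :: r45

noncomputable def r46 : List Con := (true, [n1,n0,n0,n0,n0,n0,n0,n0,n0,n0,m1,m1,n2]) :: r45

noncomputable def l47 : List Con := (false, [n0,n0,n0,n0,n0,n0,n0,n0,n0,n0,m1,m1,n2]) :: r46

noncomputable def r47 : List Con := (true, [n1,n0,n0,n0,n0,n0,n0,n0,n0,n0,n1,n1,m2]) :: r46

noncomputable def l48 : List Con := (true, [n0,n0,n0,n0,n0,n0,n1,n0,m2]) :: r42

noncomputable def r48 : List Con := (true, [n1,n0,n0,n0,n0,n0,m1,n0,n2]) :: r42

noncomputable def l49 : List Con := (true, [n1,n0,m3,m3,n1,n0,n0,m2]) :: r48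

noncomputable def r49 : List Con := (true, [n0,n0,n3,n3,m1,n0,n0,n2]) :: r48

noncomputable def l50 : List Con := (false, [n0,n0,n0,n0,n0,n0,n0,n0,n0,n0,n1,n1,m2]) :: r49

noncomputable def r50 : List Con := (true, [n1,n0,n0,n0,n0,n0,n0,n0,n0,n0,m1,m1,n2]) :: r49

noncomputable def l51 : List Con := (false, [n0,n0,n0,n0,n0,n0,n0,n0,n0,n0,m1,m1,n2]) :: r50

noncomputable def r51 : List Con := (true, [n1,n0,n0,n0,n0,n0,n0,n0,n0,n0,n1,n1,m2]) :: r50

noncomputable def l52 : List Con := (true, [n0,n1,m1,n0,n0,n0,n0,m1,n0,m1]) :: r41

noncomputable def r52 : List Con := (true, [n1,m1,n1,n0,n0,n0,n0,n1,n0,n1]) :: r41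

noncomputable def l53 : List Con := (false, [n0,n0,n0,n0,n0,n0,n0,n0,n0,n0,n1,n1,m2]) :: r52

noncomputable def r53 : List Con := (true, [n1,n0,n0,n0,n0,n0,n0,n0,n0,n0,m1,m1,n2]) :: r52

noncomputable def l54 : List Con := (false, [n0,m1,n0,m2,n0,n0,m1,m1,n1,n1,n0,m1,n1]) :: r30

noncomputable def r54 : List Con := (false, [n0,n1,n0,n2,n0,n0,n1,n1,m1,m1,n0,n1,m1]) :: r30

noncomputable def l55 : List Con := (false, [n0,n0,m2,n0,n1,n0,m1,n0,n0,n0,n1,m1]) :: r54

noncomputable def r55 : List Con := (false, [n0,n0,n2,n0,m1,n0,n1,n0,n0,n0,m1,n1]) :: r54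

noncomputable def l56 : List Con := (true, [n1,n1,n2,n2,m1,n0,n0,n0,n0,m1]) :: l55

noncomputable def r56 : List Con := (true, [n0,m1,m2,m2,n1,n0,n0,n0,n0,n1]) :: l55

noncomputable def l57 : List Con := (true, [n0,n0,m2,m2,n1,n0,n0,n0,n0,n1]) :: r55

noncomputable def r57 : List Con := (true, [n1,n0,n2,n2,m1,n0,n0,n0,n0,m1]) :: r55

noncomputable def l58 : List Con := (false, [n0,n0,n0,m2,n0,n0,n0,n0,n1,n1,n0,n0,n1]) :: l57

noncomputable def r58 : List Con := (false, [n0,n0,n0,n2,n0,n0,n0,n0,m1,m1,n0,n0,m1]) :: l57

noncomputable def l59 : List Con := (true, [n0,n1,n2,n1,m1,n0,n0,n0,n0,m1]) :: l58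

noncomputable def r59 : List Con := (true, [n1,m1,m2,m1,n1,n0,n0,n0,n0,n1]) :: l58

noncomputable def l60 : List Con := (false, [n0,n0,n0,n0,n0,n0,n0,n0,n0,n0,m1,n1,n1]) :: r58

noncomputable def r60 : List Con := (false, [n0,n0,n0,n0,n0,n0,n0,n0,n0,n0,n1,m1,m1]) :: r58

noncomputable def l61 : List Con := (true, [n1,n1,m1,n0,n0,n0,n0,m1,n0,m1]) :: l60

noncomputable def r61 : List Con := (true, [n0,m1,n1,n0,n0,n0,n0,n1,n0,n1]) :: l60

noncomputable def l62 : List Con := (false, [n0,n0,n1,n0,n0,n0,m2,n0,m1,n0,n2,m2,m1]) :: l61

noncomputable def r62 : List Con := (false, [n0,n0,m1,n0,n0,n0,n2,n0,n1,n0,m2,n2,n1]) :: l61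

noncomputable def l63 : List Con := (false, [n0,m1,n0,n1,n0,n0,m1,m1,n0,n0,n1,m1]) :: r62

noncomputable def r63 : List Con := (false, [n0,n1,n0,m1,n0,n0,n1,n1,n0,n0,m1,n1]) :: r62

noncomputable def l64 : List Con := (true, [n1,n0,n1,n1,n0,n0,n0,n1,n0,n2]) :: r61

noncomputable def r64 : List Con := (true, [n0,n0,m1,m1,n0,n0,n0,m1,n0,m2]) :: r61

noncomputable def l65 : List Con := (true, [n1,n0,m1,m1,n0,n0,n0,m1,n0,m2]) :: l64

noncomputable def r65 : List Con := (true, [n0,n0,n1,n1,n0,n0,n0,n1,n0,n2]) :: l64

noncomputable def l66 : List Con := (false, [n0,n0,n1,n0,n0,n0,m2,n0,m1,n0,n2,m2,m1]) :: r64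

noncomputable def r66 : List Con := (false, [n0,n0,m1,n0,n0,n0,n2,n0,n1,n0,m2,n2,n1]) :: r64

noncomputable def l67 : List Con := (true, [n0,n1,m1,n0,n0,n0,n0,m1,n0,m1]) :: r60

noncomputable def r67 : List Con := (true, [n1,m1,n1,n0,n0,n0,n0,n1,n0,n1]) :: r60

noncomputable def l68 : List Con := (false, [n0,n0,n0,n0,n0,n1,n0,n0,n0,n0,m1,n1,n1]) :: l67

noncomputable def r68 : List Con := (false, [n0,n0,n0,n0,n0,m1,n0,n0,n0,n0,n1,m1,m1]) :: l67

noncomputable def l69 : List Con := (false, [n0,n0,n1,n0,n0,n0,m2,n0,m1,n0,n1,m2,m1]) :: l68

noncomputable def r69 : List Con := (false, [n0,n0,m1,n0,n0,n0,n2,n0,n1,n0,m1,n2,n1]) :: l68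

noncomputable def l70 : List Con := (false, [n0,m1,n0,n1,n0,n0,m1,m1,n0,n0,n1,m1]) :: r69

noncomputable def r70 : List Con := (false, [n0,n1,n0,m1,n0,n0,n1,n1,n0,n0,m1,n1]) :: r69

noncomputable def l71 : List Con := (false, [n0,n0,n1,n0,n0,n0,m2,n0,m1,n0,n1,m2,m1]) :: r68

noncomputable def r71 : List Con := (false, [n0,n0,m1,n0,n0,n0,n2,n0,n1,n0,m1,n2,n1]) :: r68

noncomputable def l72 : List Con := (false, [n0,m1,n0,n1,n0,n0,m1,m1,n0,n0,n1,m1]) :: r71

noncomputable def r72 : List Con := (false, [n0,n1,n0,m1,n0,n0,n1,n1,n0,n0,m1,n1]) :: r71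

noncomputable def l73 : List Con := (false, [n0,n0,n0,n0,n0,n2,n0,n0,n0,n0,m1,n0,n1]) :: r4

noncomputable def r73 : List Con := (false, [n0,n0,n0,n0,n0,m2,n0,n0,n0,n0,n1,n0,m1]) :: r4

noncomputable def l74 : List Con := (true, [n1,n0,m2,m2,n1,n0,n0,n0,n0,n1]) :: r73

noncomputable def r74 : List Con := (true, [n0,n0,n2,n2,m1,n0,n0,n0,n0,m1]) :: r73

noncomputable def l75 : List Con := (false, [n0,n1,n2,n1,m1,n0,n0,n0,n1,n0,m1,n0,n1]) :: l74

noncomputable def r75 : List Con := (false, [n0,m1,m2,m1,n1,n0,n0,n0,m1,n0,n1,n0,m1]) :: l74

noncomputable def l76 : List Con := (true, [n0,n0,n2,n0,m1,n2,n0,n0,n1]) :: l75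

noncomputable def r76 : List Con := (true, [n1,n0,m2,n0,n1,m2,n0,n0,m1]) :: l75

noncomputable def l77 : List Con := (false, [n0,n0,n0,m1,n0,n0,m1,m1,n2,n2,m1,m1,n2]) :: r76

noncomputable def r77 : List Con := (false, [n0,n0,n0,n1,n0,n0,n1,n1,m2,m2,n1,n1,m2]) :: r76

noncomputable def l78 : List Con := (false, [n0,n1,n0,m2,n0,n0,n2,n2,m1,m1,n0,n2,m1]) :: l77

noncomputable def r78 : List Con := (false, [n0,m1,n0,n2,n0,n0,m2,m2,n1,n1,n0,m2,n1]) :: l77

noncomputable def l79 : List Con := (false, [n0,n0,n0,n0,n0,n0,n1,n1,m2,m2,n1,n1,m2]) :: l78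

noncomputable def r79 : List Con := (false, [n0,n0,n0,n0,n0,n0,m1,m1,n2,n2,m1,m1,n2]) :: l78

noncomputable def l80 : List Con := (true, [n0,n1,n0,n0,n0,n0,n0,n1,n0,m2]) :: l79

noncomputable def r80 : List Con := (true, [n1,m1,n0,n0,n0,n0,n0,m1,n0,n2]) :: l79

noncomputable def l81 : List Con := (false, [n0,n0,n0,m2,n0,n0,n1,n1,m1,m1,n0,n1,m1]) :: r80

noncomputable def r81 : List Con := (false, [n0,n0,n0,n2,n0,n0,m1,m1,n1,n1,n0,m1,n1]) :: r80

noncomputable def l82 : List Con := (false, [n0,m1,n0,n1,n0,n0,m1,m1,n0,n0,n1,m1]) :: r81

noncomputable def r82 : List Con := (false, [n0,n1,n0,m1,n0,n0,n1,n1,n0,n0,m1,n1]) :: r81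

noncomputable def l83 : List Con := (false, [n0,n0,n0,m2,n0,n0,n0,n0,n1,n1,n0,n0,n1]) :: r82

noncomputable def r83 : List Con := (false, [n0,n0,n0,n2,n0,n0,n0,n0,m1,m1,n0,n0,m1]) :: r82

noncomputable def l84 : List Con := (true, [n0,n0,m2,m2,n1,n0,n0,n0,n0,n1]) :: l83

noncomputable def r84 : List Con := (true, [n1,n0,n2,n2,m1,n0,n0,n0,n0,m1]) :: l83

noncomputable def l85 : List Con := (true, [n0,n1,n0,m1,n0,n0,n0,n1,n0,m2]) :: r79

noncomputable def r85 : List Con := (true, [n1,m1,n0,n1,n0,n0,n0,m1,n0,n2]) :: r79

noncomputable def l86 : List Con := (false, [n0,m1,m2,n0,n1,n0,m1,m1,m1,n0,n1,m1,m1]) :: r85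

noncomputable def r86 : List Con := (false, [n0,n1,n2,n0,m1,n0,n1,n1,n1,n0,m1,n1,n1]) :: r85

noncomputable def l87 : List Con := (false, [n0,n0,n0,n1,n0,n0,m1,m1,n1,n1,m1,m1,n1]) :: r78

noncomputable def r87 : List Con := (false, [n0,n0,n0,m1,n0,n0,n1,n1,m1,m1,n1,n1,m1]) :: r78

noncomputable def l88 : List Con := (false, [n0,n0,m2,n0,n1,n0,n0,n0,m1,n0,n0,n0,m1]) :: r87

noncomputable def r88 : List Con := (false, [n0,n0,n2,n0,m1,n0,n0,n0,n1,n0,n0,n0,n1]) :: r87

noncomputable def l89 : List Con := (true, [n0,n0,m2,n0,n1,m2,n0,n0,m1]) :: r88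

noncomputable def r89 : List Con := (true, [n1,n0,n2,n0,m1,n2,n0,n0,n1]) :: r88

noncomputable def l90 : List Con := (true, [n0,n1,n0,n0,n0,n0,n0,n1,n0,m2]) :: r89

noncomputable def r90 : List Con := (true, [n1,m1,n0,n0,n0,n0,n0,m1,n0,n2]) :: r89

noncomputable def l91 : List Con := (false, [n0,n0,n0,n0,n0,n0,n0,n0,n0,n0,m1,n1,n1]) :: r77

noncomputable def r91 : List Con := (false, [n0,n0,n0,n0,n0,n0,n0,n0,n0,n0,n1,m1,m1]) :: r77

noncomputable def l92 : List Con := (true, [n1,n1,m1,n0,n0,n0,n0,m1,n0,m1]) :: l91

noncomputable def r92 : List Con := (true, [n0,m1,n1,n0,n0,n0,n0,n1,n0,n1]) :: l91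

noncomputable def l93 : List Con := (true, [n0,n1,m1,m1,n0,n0,n0,m1,n0,m1]) :: r92

noncomputable def r93 : List Con := (true, [n1,m1,n1,n1,n0,n0,n0,n1,n0,n1]) :: r92

noncomputable def l94 : List Con := (true, [n0,n0,m2,n0,n1,m2,n0,n0,m1]) :: r93

noncomputable def r94 : List Con := (true, [n1,n0,n2,n0,m1,n2,n0,n0,n1]) :: r93

noncomputable def l95 : List Con := (true, [n0,n0,m2,m2,n1,n0,n0,n0,n0,n1]) :: l94

noncomputable def r95 : List Con := (true, [n1,n0,n2,n2,m1,n0,n0,n0,n0,m1]) :: l94

noncomputable def l96 : List Con := (true, [n0,n0,n2,n1,m1,n0,n0,n0,n0,m1]) :: l95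

noncomputable def r96 : List Con := (true, [n1,n0,m2,m1,n1,n0,n0,n0,n0,n1]) :: l95

noncomputable def l97 : List Con := (false, [n0,n0,n0,m2,n0,n0,n0,n0,n1,n1,n0,n0,n1]) :: l96

noncomputable def r97 : List Con := (false, [n0,n0,n0,n2,n0,n0,n0,n0,m1,m1,n0,n0,m1]) :: l96

noncomputable def l98 : List Con := (true, [n0,n1,n0,m1,n0,n0,n0,n1,n0,m1]) :: r94

noncomputable def r98 : List Con := (true, [n1,m1,n0,n1,n0,n0,n0,m1,n0,n1]) :: r94

noncomputable def l99 : List Con := (true, [n0,n1,n0,m1,n0,n0,n0,n1,n0,m1]) :: r91

noncomputable def r99 : List Con := (true, [n1,m1,n0,n1,n0,n0,n0,m1,n0,n1]) :: r91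

noncomputable def l100 : List Con := (false, [n0,n0,n0,m1,n0,n0,n1,n1,m1,m1,n1,n1,m1]) :: l99

noncomputable def r100 : List Con := (false, [n0,n0,n0,n1,n0,n0,m1,m1,n1,n1,m1,m1,n1]) :: l99

noncomputable def l101 : List Con := (false, [n0,n0,n0,m2,n0,n0,n1,n1,m1,m1,n1,n1,m1]) :: r100

noncomputable def r101 : List Con := (false, [n0,n0,n0,n2,n0,n0,m1,m1,n1,n1,m1,m1,n1]) :: r100

noncomputable def l102 : List Con := (false, [n0,n0,n0,n0,n0,n1,n0,n0,n0,n0,m1,n1,n1]) :: r99

noncomputable def r102 : List Con := (false, [n0,n0,n0,n0,n0,m1,n0,n0,n0,n0,n1,m1,m1]) :: r99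

noncomputable def l103 : List Con := (true, [n0,n1,m1,n0,n0,n0,n0,m1,n0,m1]) :: l102

noncomputable def r103 : List Con := (true, [n1,m1,n1,n0,n0,n0,n0,n1,n0,n1]) :: l102

noncomputable def l104 : List Con := (false, [n0,n0,n1,n0,n0,n0,m2,n0,m1,n0,n1,m2,m1]) :: l103

noncomputable def r104 : List Con := (false, [n0,n0,m1,n0,n0,n0,n2,n0,n1,n0,m1,n2,n1]) :: l103

noncomputable def l105 : List Con := (false, [n0,n1,n0,m2,n0,n0,n2,n2,m1,m1,n0,n2,m1]) :: r103

noncomputable def r105 : List Con := (false, [n0,m1,n0,n2,n0,n0,m2,m2,n1,n1,n0,m2,n1]) :: r103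

noncomputable def l106 : List Con := (false, [n0,m1,n0,n1,n0,n0,m2,m2,n1,n1,n0,m2,n1]) :: l105

noncomputable def r106 : List Con := (false, [n0,n1,n0,m1,n0,n0,n2,n2,m1,m1,n0,n2,m1]) :: l105

noncomputable def l107 : List Con := (false, [n0,m1,n0,n1,n0,n0,m1,m1,n0,n0,n1,m1]) :: l106

noncomputable def r107 : List Con := (false, [n0,n1,n0,m1,n0,n0,n1,n1,n0,n0,m1,n1]) :: l106

noncomputable def l108 : List Con := (true, [n1,n1,m1,n0,n0,n0,n0,m1,n0,m1]) :: r102

noncomputable def r108 : List Con := (true, [n0,m1,n1,n0,n0,n0,n0,n1,n0,n1]) :: r102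

noncomputable def l109 : List Con := (false, [n0,n0,n1,n0,n0,n0,m2,n0,m1,n0,n1,m2,m1]) :: l108

noncomputable def r109 : List Con := (false, [n0,n0,m1,n0,n0,n0,n2,n0,n1,n0,m1,n2,n1]) :: l108

noncomputable def l110 : List Con := (true, [n1,n0,n2,n2,m1,n0,n0,n0,n0,m1]) :: r108

noncomputable def r110 : List Con := (true, [n0,n0,m2,m2,n1,n0,n0,n0,n0,n1]) :: r108

noncomputable def l111 : List Con := (true, [n0,n0,m2,n0,n1,m2,n0,n0,m1]) :: l110

noncomputable def r111 : List Con := (true, [n1,n0,n2,n0,m1,n2,n0,n0,n1]) :: l110

noncomputable def l112 : List Con := (true, [n1,n0,m1,m1,n0,n0,n0,m1,n0,m2]) :: r110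

noncomputable def r112 : List Con := (true, [n0,n0,n1,n1,n0,n0,n0,n1,n0,n2]) :: r110

noncomputable def l113 : List Con := (true, [n1,n0,n1,n1,n0,n0,n0,n1,n0,n2]) :: l112

noncomputable def r113 : List Con := (true, [n0,n0,m1,m1,n0,n0,n0,m1,n0,m2]) :: l112

noncomputable def l114 : List Con := (false, [n0,n0,n1,n0,n0,n0,m2,n0,m1,n0,n1,m2,m1]) :: r113

noncomputable def r114 : List Con := (false, [n0,n0,m1,n0,n0,n0,n2,n0,n1,n0,m1,n2,n1]) :: r113

noncomputable def l115 : List Con := (false, [n0,n0,n0,n1,n0,n0,m1,m1,n1,n1,m1,m1,n1]) :: r112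

noncomputable def r115 : List Con := (false, [n0,n0,n0,m1,n0,n0,n1,n1,m1,m1,n1,n1,m1]) :: r112

noncomputable def l116 : List Con := (false, [n0,n0,n0,m2,n0,n0,n1,n1,m1,m1,n1,n1,m1]) :: l115

noncomputable def r116 : List Con := (false, [n0,n0,n0,n2,n0,n0,m1,m1,n1,n1,m1,m1,n1]) :: l115

noncomputable def l117 : List Con := (true, [n0,n0,n2,n2,m1,n0,n0,m1,n0,n1]) :: l116

noncomputable def r117 : List Con := (true, [n1,n0,m2,m2,n1,n0,n0,n1,n0,m1]) :: l116

noncomputable def l118 : List Con := (true, [n1,n1,m2,m1,n1,n0,n0,n1,n0,m1]) :: l117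

noncomputable def r118 : List Con := (true, [n0,m1,n2,n1,m1,n0,n0,m1,n0,n1]) :: l117

noncomputable def l119 : List Con := (true, [n1,n0,n3,n3,m1,n0,n0,n1,n0,n1]) :: r115

noncomputable def r119 : List Con := (true, [n0,n0,m3,m3,n1,n0,n0,m1,n0,m1]) :: r115

noncomputable def l120 : List Con := (true, [n1,n0,m3,m3,n1,n0,n0,m1,n0,m1]) :: l119

noncomputable def r120 : List Con := (true, [n0,n0,n3,n3,m1,n0,n0,n1,n0,n1]) :: l119

noncomputable def l121 : List Con := (true, [n0,n1,n2,n1,m1,n0,n0,n0,n0,m1]) :: r75

noncomputable def r121 : List Con := (true, [n1,m1,m2,m1,n1,n0,n0,n0,n0,n1]) :: r75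

noncomputable def l122 : List Con := (false, [n0,n0,n0,m2,n0,n0,n0,n0,n1,n1,n0,n0,n1]) :: l121

noncomputable def r122 : List Con := (false, [n0,n0,n0,n2,n0,n0,n0,n0,m1,m1,n0,n0,m1]) :: l121

noncomputable def l123 : List Con := (false, [n0,n0,n0,n0,n0,n0,n0,n0,n0,n0,m1,n1,n1]) :: r122

noncomputable def r123 : List Con := (false, [n0,n0,n0,n0,n0,n0,n0,n0,n0,n0,n1,m1,m1]) :: r122

noncomputable def l124 : List Con := (false, [n0,n0,n0,n1,n0,n0,m1,m1,n1,n1,m1,m1,n1]) :: r123

noncomputable def r124 : List Con := (false, [n0,n0,n0,m1,n0,n0,n1,n1,m1,m1,n1,n1,m1]) :: r123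

noncomputable def l125 : List Con := (false, [n0,n0,n0,m2,n0,n0,n1,n1,m1,m1,n1,n1,m1]) :: l124

noncomputable def r125 : List Con := (false, [n0,n0,n0,n2,n0,n0,m1,m1,n1,n1,m1,m1,n1]) :: l124

noncomputable def l126 : List Con := (true, [n0,n0,n2,n2,m1,n0,n0,m1,n0,n1]) :: l125

noncomputable def r126 : List Con := (true, [n1,n0,m2,m2,n1,n0,n0,n1,n0,m1]) :: l125

noncomputable def l127 : List Con := (true, [n1,n1,m2,m1,n1,n0,n0,n1,n0,m1]) :: l126

noncomputable def r127 : List Con := (true, [n0,m1,n2,n1,m1,n0,n0,m1,n0,n1]) :: l126

noncomputable def l128 : List Con := (true, [n0,n1,m1,n0,n0,n0,n0,m1,n0,m1]) :: r124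

noncomputable def r128 : List Con := (true, [n1,m1,n1,n0,n0,n0,n0,n1,n0,n1]) :: r124

noncomputable def l129 : List Con := (false, [n0,n0,n0,n0,n0,n1,n0,n0,n0,n0,m1,n1,n1]) :: l128

noncomputable def r129 : List Con := (false, [n0,n0,n0,n0,n0,m1,n0,n0,n0,n0,n1,m1,m1]) :: l128

noncomputable def l130 : List Con := (false, [n0,n0,n1,n0,n0,n0,m2,n0,m1,n0,n1,m2,m1]) :: l129

noncomputable def r130 : List Con := (false, [n0,n0,m1,n0,n0,n0,n2,n0,n1,n0,m1,n2,n1]) :: l129

noncomputable def l131 : List Con := (false, [n0,n0,n1,n0,n0,n0,m2,n0,m1,n0,n1,m2,m1]) :: r129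

noncomputable def r131 : List Con := (false, [n0,n0,m1,n0,n0,n0,n2,n0,n1,n0,m1,n2,n1]) :: r129

noncomputable def l132 : List Con := (false, [n0,m1,n0,m2,n0,n0,m1,m1,n1,n1,n0,m1,n1]) :: r121

noncomputable def r132 : List Con := (false, [n0,n1,n0,n2,n0,n0,n1,n1,m1,m1,n0,n1,m1]) :: r121

noncomputable def l133 : List Con := (false, [n0,n0,n2,n0,m1,n0,n0,n0,n1,n0,n0,n0,n1]) :: r74

noncomputable def r133 : List Con := (false, [n0,n0,m2,n0,n1,n0,n0,n0,m1,n0,n0,n0,m1]) :: r74

noncomputable def l134 : List Con := (false, [n0,n0,m2,n0,n1,n0,n0,n0,m1,n0,n1,n0,m1]) :: l133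

noncomputable def r134 : List Con := (false, [n0,n0,n2,n0,m1,n0,n0,n0,n1,n0,m1,n0,n1]) :: l133

noncomputable def l135 : List Con := (false, [n0,n0,n0,n0,n0,n0,n0,n0,n0,n0,m1,n1,n1]) :: r133

noncomputable def r135 : List Con := (false, [n0,n0,n0,n0,n0,n0,n0,n0,n0,n0,n1,m1,m1]) :: r133

noncomputable def l136 : List Con := (true, [n0,n1,m1,n0,n0,n0,n0,m1,n0,m1]) :: r135

noncomputable def r136 : List Con := (true, [n1,m1,n1,n0,n0,n0,n0,n1,n0,n1]) :: r135

noncomputable def l137 : List Con := (false, [n0,n0,n0,n0,n0,n1,n0,n0,n0,n0,n0,m1,n1]) :: r1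

noncomputable def r137 : List Con := (false, [n0,n0,n0,n0,n0,m1,n0,n0,n0,n0,n0,n1,m1]) :: r1

noncomputable def l138 : List Con := (false, [n0,n0,m2,n0,n1,n0,n0,n0,m1,n0,n0,n0,m1]) :: r137

noncomputable def r138 : List Con := (false, [n0,n0,n2,n0,m1,n0,n0,n0,n1,n0,n0,n0,n1]) :: r137

noncomputable def l139 : List Con := (false, [n0,n0,n2,n0,m1,n0,n1,n0,n0,n0,m1,n1]) :: l138

noncomputable def r139 : List Con := (false, [n0,n0,m2,n0,n1,n0,m1,n0,n0,n0,n1,m1]) :: l138

noncomputable def l140 : List Con := (true, [n0,m1,n0,n0,n0,n0,n0,m1,n0,n1]) :: l139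

noncomputable def r140 : List Con := (true, [n1,n1,n0,n0,n0,n0,n0,n1,n0,m1]) :: l139

noncomputable def l141 : List Con := (false, [n0,n0,n0,n0,n0,n2,n0,n0,n0,n0,n0,n0,m1]) :: l140

noncomputable def r141 : List Con := (false, [n0,n0,n0,n0,n0,m2,n0,n0,n0,n0,n0,n0,n1]) :: l140

noncomputable def l142 : List Con := (true, [n0,n0,m2,m2,n1,n0,n0,n0,n0,n1]) :: l141

noncomputable def r142 : List Con := (true, [n1,n0,n2,n2,m1,n0,n0,n0,n0,m1]) :: l141

noncomputable def l143 : List Con := (false, [n0,n0,n0,n0,n0,n0,n0,n0,n0,n0,m1,n1,n1]) :: r141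

noncomputable def r143 : List Con := (false, [n0,n0,n0,n0,n0,n0,n0,n0,n0,n0,n1,m1,m1]) :: r141

noncomputable def l144 : List Con := (true, [n0,n1,m1,m1,n0,n0,n0,m1,n0,m1]) :: l143

noncomputable def r144 : List Con := (true, [n1,m1,n1,n1,n0,n0,n0,n1,n0,n1]) :: l143

noncomputable def l145 : List Con := (false, [n0,n0,n1,n0,n0,n0,m2,n0,m1,n0,n2,m2,m1]) :: l144

noncomputable def r145 : List Con := (false, [n0,n0,m1,n0,n0,n0,n2,n0,n1,n0,m2,n2,n1]) :: l144

noncomputable def l146 : List Con := (true, [n1,n0,m1,m1,n0,n0,n0,m1,n0,m2]) :: r144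

noncomputable def r146 : List Con := (true, [n0,n0,n1,n1,n0,n0,n0,n1,n0,n2]) :: r144

noncomputable def l147 : List Con := (false, [n0,m1,n0,m2,n0,n0,m1,m1,n1,n1,n0,m1,n1]) :: r146

noncomputable def r147 : List Con := (false, [n0,n1,n0,n2,n0,n0,n1,n1,m1,m1,n0,n1,m1]) :: r146

noncomputable def l148 : List Con := (false, [n0,n0,n0,m2,n0,n0,n0,n0,n1,n1,n0,n0,n1]) :: r143

noncomputable def r148 : List Con := (false, [n0,n0,n0,n2,n0,n0,n0,n0,m1,m1,n0,n0,m1]) :: r143

noncomputable def l149 : List Con := (true, [n0,n1,n2,n1,m1,n0,n0,n0,n0,m1]) :: l148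

noncomputable def r149 : List Con := (true, [n1,m1,m2,m1,n1,n0,n0,n0,n0,n1]) :: l148

noncomputable def l150 : List Con := (false, [n0,m1,n0,n1,n0,n0,m1,m1,n0,n0,n1,m1]) :: r149

noncomputable def r150 : List Con := (false, [n0,n1,n0,m1,n0,n0,n1,n1,n0,n0,m1,n1]) :: r149

noncomputable def l151 : List Con := (false, [n0,n0,n0,m1,n0,n0,m1,m1,n2,n2,n0,m1,n2]) :: r148

noncomputable def r151 : List Con := (false, [n0,n0,n0,n1,n0,n0,n1,n1,m2,m2,n0,n1,m2]) :: r148

noncomputable def l152 : List Con := (true, [n0,n1,n0,m1,n0,n0,n0,n1,n0,m1]) :: r151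

noncomputable def r152 : List Con := (true, [n1,m1,n0,n1,n0,n0,n0,m1,n0,n1]) :: r151

noncomputable def l153 : List Con := (true, [n0,n1,m1,n0,n0,n0,n0,m1,n0,m1]) :: l152

noncomputable def r153 : List Con := (true, [n1,m1,n1,n0,n0,n0,n0,n1,n0,n1]) :: l152

noncomputable def l154 : List Con := (false, [n0,n0,n0,m2,n0,n0,n1,n1,m1,m1,n0,n1,m1]) :: r153

noncomputable def r154 : List Con := (false, [n0,n0,n0,n2,n0,n0,m1,m1,n1,n1,n0,m1,n1]) :: r153

noncomputable def l155 : List Con := (false, [n0,n0,n0,n1,n0,n0,m1,m1,n1,n1,n0,m1,n1]) :: l154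

noncomputable def r155 : List Con := (false, [n0,n0,n0,m1,n0,n0,n1,n1,m1,m1,n0,n1,m1]) :: l154

noncomputable def l156 : List Con := (true, [n0,n0,n2,n0,m1,n2,n1,n0,m1]) :: l155

noncomputable def r156 : List Con := (true, [n1,n0,m2,n0,n1,m2,m1,n0,n1]) :: l155

noncomputable def l157 : List Con := (false, [n0,n0,n0,m2,n0,n0,m1,m1,n2,n2,n0,m1,n2]) :: r154

noncomputable def r157 : List Con := (false, [n0,n0,n0,n2,n0,n0,n1,n1,m2,m2,n0,n1,m2]) :: r154

noncomputable def l158 : List Con := (true, [n0,n1,n2,n1,m1,n0,n0,n1,n0,m2]) :: l157

noncomputable def r158 : List Con := (true, [n1,m1,m2,m1,n1,n0,n0,m1,n0,n2]) :: l157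

noncomputable def l159 : List Con := (true, [n1,n0,m4,m4,n2,n0,n0,n1]) :: r152

noncomputable def r159 : List Con := (true, [n0,n0,n4,n4,m2,n0,n0,m1]) :: r152

noncomputable def l160 : List Con := (true, [n0,n1,m1,n0,n0,n0,n0,m1,n0,m1]) :: l159

noncomputable def r160 : List Con := (true, [n1,m1,n1,n0,n0,n0,n0,n1,n0,n1]) :: l159

noncomputable def l161 : List Con := (false, [n0,n0,n0,n0,n0,n1,n0,n0,n0,n0,m1,n1,n1]) :: l160

noncomputable def r161 : List Con := (false, [n0,n0,n0,n0,n0,m1,n0,n0,n0,n0,n1,m1,m1]) :: l160

noncomputable def l162 : List Con := (false, [n0,n0,n1,n0,n0,n0,m2,n0,m1,n0,n1,m2,m1]) :: l161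

noncomputable def r162 : List Con := (false, [n0,n0,m1,n0,n0,n0,n2,n0,n1,n0,m1,n2,n1]) :: l161

noncomputable def l163 : List Con := (false, [n0,m1,n0,n1,n0,n0,m1,m1,n0,n0,n1,m1]) :: r161

noncomputable def r163 : List Con := (false, [n0,n1,n0,m1,n0,n0,n1,n1,n0,n0,m1,n1]) :: r161

noncomputable def l164 : List Con := (true, [n1,n0,n4,n4,m2,n0,n0,m1]) :: r160

noncomputable def r164 : List Con := (true, [n0,n0,m4,m4,n2,n0,n0,n1]) :: r160

noncomputable def l165 : List Con := (false, [n0,n0,n0,m2,n0,n0,n1,n1,m1,m1,n0,n1,m1]) :: r164

noncomputable def r165 : List Con := (false, [n0,n0,n0,n2,n0,n0,m1,m1,n1,n1,n0,m1,n1]) :: r164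

noncomputable def l166 : List Con := (false, [n0,n0,n0,n1,n0,n0,m1,m1,n1,n1,n0,m1,n1]) :: l165

noncomputable def r166 : List Con := (false, [n0,n0,n0,m1,n0,n0,n1,n1,m1,m1,n0,n1,m1]) :: l165

noncomputable def l167 : List Con := (true, [n0,n0,n2,n0,m1,n2,n1,n0,m1]) :: l166

noncomputable def r167 : List Con := (true, [n1,n0,m2,n0,n1,m2,m1,n0,n1]) :: l166

noncomputable def l168 : List Con := (false, [n0,n0,n0,m2,n0,n0,n1,n1,m1,m1,n0,n1,m1]) :: r159

noncomputable def r168 : List Con := (false, [n0,n0,n0,n2,n0,n0,m1,m1,n1,n1,n0,m1,n1]) :: r159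

noncomputable def l169 : List Con := (false, [n0,n0,n0,n0,n0,m1,n0,n0,n0,n0,n1,m1,m1]) :: r140

noncomputable def r169 : List Con := (false, [n0,n0,n0,n0,n0,n1,n0,n0,n0,n0,m1,n1,n1]) :: r140

noncomputable def l170 : List Con := (true, [n0,n0,n1,n1,m1,n0,n0,m2,n0,m1]) :: l169

noncomputable def r170 : List Con := (true, [n1,n0,m1,m1,n1,n0,n0,n2,n0,n1]) :: l169

noncomputable def l171 : List Con := (true, [n0,n0,n2,n2,m1,n0,n0,n0,n0,m1]) :: l170

noncomputable def r171 : List Con := (true, [n1,n0,m2,m2,n1,n0,n0,n0,n0,n1]) :: l170

noncomputable def l172 : List Con := (false, [n0,n0,n0,n0,n0,n2,n0,n0,n0,n0,n0,n0,m1]) :: l171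

noncomputable def r172 : List Con := (false, [n0,n0,n0,n0,n0,m2,n0,n0,n0,n0,n0,n0,n1]) :: l171

noncomputable def l173 : List Con := (true, [n0,n1,m1,m1,n0,n0,n0,m1,n0,m1]) :: r172

noncomputable def r173 : List Con := (true, [n1,m1,n1,n1,n0,n0,n0,n1,n0,n1]) :: r172

noncomputable def l174 : List Con := (true, [n1,n0,m1,m1,n0,n0,n0,m2]) :: r173

noncomputable def r174 : List Con := (true, [n0,n0,n1,n1,n0,n0,n0,n2]) :: r173

noncomputable def l175 : List Con := (false, [n0,n0,n0,n1,n0,n0,m1,m1,n1,n1,n0,m1,n1]) :: r174

noncomputable def r175 : List Con := (false, [n0,n0,n0,m1,n0,n0,n1,n1,m1,m1,n0,n1,m1]) :: r174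

noncomputable def l176 : List Con := (false, [n0,n0,n0,m2,n0,n0,n1,n1,m1,m1,n0,n1,m1]) :: l175

noncomputable def r176 : List Con := (false, [n0,n0,n0,n2,n0,n0,m1,m1,n1,n1,n0,m1,n1]) :: l175

noncomputable def l177 : List Con := (true, [n1,n1,n0,n1,n0,n0,n0,n1,n0,m1]) :: r176

noncomputable def r177 : List Con := (true, [n0,m1,n0,m1,n0,n0,n0,m1,n0,n1]) :: r176

noncomputable def l178 : List Con := (false, [n0,m1,n0,n1,n0,n0,m1,m1,n0,n0,n1,m1]) :: l177

noncomputable def r178 : List Con := (false, [n0,n1,n0,m1,n0,n0,n1,n1,n0,n0,m1,n1]) :: l177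

noncomputable def l179 : List Con := (true, [n1,n0,m1,m1,n0,n0,n0,m1,n0,m2]) :: r177

noncomputable def r179 : List Con := (true, [n0,n0,n1,n1,n0,n0,n0,n1,n0,n2]) :: r177

noncomputable def l180 : List Con := (true, [n1,m1,n0,n0,n0,n0,n0,m1,n0,n1]) :: r179

noncomputable def r180 : List Con := (true, [n0,n1,n0,n0,n0,n0,n0,n1,n0,m1]) :: r179

noncomputable def l181 : List Con := (true, [n1,n0,n0,n0,n0,n0,n0,n1,n0,m2]) :: l180

noncomputable def r181 : List Con := (true, [n0,n0,n0,n0,n0,n0,n0,m1,n0,n2]) :: l180

noncomputable def l182 : List Con := (false, [n0,m1,n0,m1,n0,n0,n0,n0,m1,m1,n1,n0,m1]) :: r181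

noncomputable def r182 : List Con := (false, [n0,n1,n0,n1,n0,n0,n0,n0,n1,n1,m1,n0,n1]) :: r181

noncomputable def l183 : List Con := (false, [n0,n0,n2,n0,m1,n0,n1,n0,m2,n0,n0,n1,m2]) :: l182

noncomputable def r183 : List Con := (false, [n0,n0,m2,n0,n1,n0,m1,n0,n2,n0,n0,m1,n2]) :: l182

noncomputable def l184 : List Con := (false, [n0,m1,n0,n1,n0,n0,m1,m1,n0,n0,n1,m1]) :: r180

noncomputable def r184 : List Con := (false, [n0,n1,n0,m1,n0,n0,n1,n1,n0,n0,m1,n1]) :: r180

noncomputable def l185 : List Con := (true, [n0,n0,n2,n2,m1,n0,n0,n0,n0,m1]) :: r170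

noncomputable def r185 : List Con := (true, [n1,n0,m2,m2,n1,n0,n0,n0,n0,n1]) :: r170

noncomputable def l186 : List Con := (false, [n0,n0,n0,n0,n0,n2,n0,n0,n0,n0,n0,n0,m1]) :: l185

noncomputable def r186 : List Con := (false, [n0,n0,n0,n0,n0,m2,n0,n0,n0,n0,n0,n0,n1]) :: l185

noncomputable def l187 : List Con := (true, [n1,n0,n1,n1,m1,n0,n0,m2,n0,m1]) :: r186

noncomputable def r187 : List Con := (true, [n0,n0,m1,m1,n1,n0,n0,n2,n0,n1]) :: r186

noncomputable def l188 : List Con := (true, [n0,n0,m2,n0,n1,m2,n0,n0,m1]) :: r185

noncomputable def r188 : List Con := (true, [n1,n0,n2,n0,m1,n2,n0,n0,n1]) :: r185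

noncomputable def l189 : List Con := (true, [n1,n0,m1,m1,n0,n0,n0,m2]) :: r188

noncomputable def r189 : List Con := (true, [n0,n0,n1,n1,n0,n0,n0,n2]) :: r188

noncomputable def l190 : List Con := (true, [n1,n0,n0,n0,n0,n0,n0,n1,n0,m2]) :: r189

noncomputable def r190 : List Con := (true, [n0,n0,n0,n0,n0,n0,n0,m1,n0,n2]) :: r189

noncomputable def l191 : List Con := (true, [n0,n0,n0,n0,n0,n0,n1,n0,m2]) :: l190

noncomputable def r191 : List Con := (true, [n1,n0,n0,n0,n0,n0,m1,n0,n2]) :: l190

noncomputable def l192 : List Con := (false, [n0,n0,n0,n0,n0,n0,n0,n0,n0,n0,n0,n1,m2]) :: r191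

noncomputable def r192 : List Con := (true, [n1,n0,n0,n0,n0,n0,n0,n0,n0,n0,n0,m1,n2]) :: r191

noncomputable def l193 : List Con := (true, [n1,n0,m1,n0,n0,n0,n0,m1,n0,m2]) :: r169

noncomputable def r193 : List Con := (true, [n0,n0,n1,n0,n0,n0,n0,n1,n0,n2]) :: r169

noncomputable def l194 : List Con := (false, [n0,n0,n0,n0,n0,n0,n0,n0,n0,n0,n1,m1,m1]) :: l193

noncomputable def r194 : List Con := (false, [n0,n0,n0,n0,n0,n0,n0,n0,n0,n0,m1,n1,n1]) :: l193

noncomputable def l195 : List Con := (true, [n0,n1,m1,n0,n0,n0,n0,m1,n0,m1]) :: l194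

noncomputable def r195 : List Con := (true, [n1,m1,n1,n0,n0,n0,n0,n1,n0,n1]) :: l194

noncomputable def l196 : List Con := (true, [n1,n0,n0,n0,n0,n0,n0,m1,n0,n2]) :: r195

noncomputable def r196 : List Con := (true, [n0,n0,n0,n0,n0,n0,n0,n1,n0,m2]) :: r195

noncomputable def l197 : List Con := (true, [n0,n0,n0,n0,n0,n0,n1,n0,m2]) :: l196

noncomputable def r197 : List Con := (true, [n1,n0,n0,n0,n0,n0,m1,n0,n2]) :: l196

noncomputable def l198 : List Con := (true, [n0,n0,n2,n2,m1,n0,n0,n0,n0,m1]) :: r197

noncomputable def r198 : List Con := (true, [n1,n0,m2,m2,n1,n0,n0,n0,n0,n1]) :: r197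

noncomputable def l199 : List Con := (false, [n0,n0,n0,n0,n0,n0,n0,n0,n0,n0,n0,m1,n2]) :: r198

noncomputable def r199 : List Con := (true, [n1,n0,n0,n0,n0,n0,n0,n0,n0,n0,n0,n1,m2]) :: r198

noncomputable def l200 : List Con := (false, [n0,n0,n0,n0,n0,n0,n0,n0,n0,n0,n0,n1,m2]) :: r199

noncomputable def r200 : List Con := (true, [n1,n0,n0,n0,n0,n0,n0,n0,n0,n0,n0,m1,n2]) :: r199

noncomputable def l201 : List Con := (true, [n0,n0,n2,n0,m1,n2,n1,n0,m1]) :: r196

noncomputable def r201 : List Con := (true, [n1,n0,m2,n0,n1,m2,m1,n0,n1]) :: r196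

noncomputable def l202 : List Con := (false, [n0,m1,n0,m1,n0,n0,n0,n0,m1,m1,n1,n0,m1]) :: l201

noncomputable def r202 : List Con := (false, [n0,n1,n0,n1,n0,n0,n0,n0,n1,n1,m1,n0,n1]) :: l201

noncomputable def l203 : List Con := (false, [n0,n0,n0,n0,n0,n2,n0,n0,n0,n0,n0,n0,m1]) :: r202

noncomputable def r203 : List Con := (false, [n0,n0,n0,n0,n0,m2,n0,n0,n0,n0,n0,n0,n1]) :: r202

noncomputable def l204 : List Con := (false, [n0,m1,n0,n1,n0,n0,m1,m1,n0,n0,n1,m1]) :: r203

noncomputable def r204 : List Con := (false, [n0,n1,n0,m1,n0,n0,n1,n1,n0,n0,m1,n1]) :: r203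

noncomputable def l205 : List Con := (false, [n0,n0,n0,m2,n0,n0,n1,n1,m1,m1,n0,n1,m1]) :: r204

noncomputable def r205 : List Con := (false, [n0,n0,n0,n2,n0,n0,m1,m1,n1,n1,n0,m1,n1]) :: r204

noncomputable def l206 : List Con := (false, [n0,m1,n0,n1,n0,n0,m1,m1,n0,n0,n1,m1]) :: r201

noncomputable def r206 : List Con := (false, [n0,n1,n0,m1,n0,n0,n1,n1,n0,n0,m1,n1]) :: r201

noncomputable def l207 : List Con := (true, [n0,n1,n0,n0,n0,n0,n0,n1,n0,m1]) :: r193

noncomputable def r207 : List Con := (true, [n1,m1,n0,n0,n0,n0,n0,m1,n0,n1]) :: r193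

noncomputable def l208 : List Con := (false, [n0,n0,n0,n0,n0,n2,n0,n0,n0,n0,n0,n0,m1]) :: l207

noncomputable def r208 : List Con := (false, [n0,n0,n0,n0,n0,m2,n0,n0,n0,n0,n0,n0,n1]) :: l207

noncomputable def l209 : List Con := (false, [n0,m1,n0,n1,n0,n0,m1,m1,n0,n0,n1,m1]) :: r208

noncomputable def r209 : List Con := (false, [n0,n1,n0,m1,n0,n0,n1,n1,n0,n0,m1,n1]) :: r208

noncomputable def l210 : List Con := (false, [n0,n0,n0,n1,n0,n0,m1,m1,n1,n1,n0,m1,n1]) :: r209

noncomputable def r210 : List Con := (false, [n0,n0,n0,m1,n0,n0,n1,n1,m1,m1,n0,n1,m1]) :: r209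

noncomputable def l211 : List Con := (false, [n0,n0,n0,m2,n0,n0,n1,n1,m1,m1,n0,n1,m1]) :: l210

noncomputable def r211 : List Con := (false, [n0,n0,n0,n2,n0,n0,m1,m1,n1,n1,n0,m1,n1]) :: l210

noncomputable def l212 : List Con := (true, [n0,n0,n2,n0,m1,n2,n1,n0,m1]) :: l211

noncomputable def r212 : List Con := (true, [n1,n0,m2,n0,n1,m2,m1,n0,n1]) :: l211

noncomputable def l213 : List Con := (false, [n0,n0,n0,n0,n0,n0,n0,n0,n0,n0,n1,m1,m1]) :: r211

noncomputable def r213 : List Con := (false, [n0,n0,n0,n0,n0,n0,n0,n0,n0,n0,m1,n1,n1]) :: r211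

noncomputable def l214 : List Con := (true, [n0,n1,m1,n0,n0,n0,n0,m1,n0,m1]) :: l213

noncomputable def r214 : List Con := (true, [n1,m1,n1,n0,n0,n0,n0,n1,n0,n1]) :: l213

noncomputable def l215 : List Con := (true, [n1,n0,n1,n1,n0,n0,n0,n1,n0,n2]) :: r214

noncomputable def r215 : List Con := (true, [n0,n0,m1,m1,n0,n0,n0,m1,n0,m2]) :: r214

noncomputable def l216 : List Con := (true, [n1,n0,m1,m1,n0,n0,n0,m1,n0,m2]) :: l215

noncomputable def r216 : List Con := (true, [n0,n0,n1,n1,n0,n0,n0,n1,n0,n2]) :: l215

noncomputable def l217 : List Con := (true, [n1,n0,m1,m1,n0,n0,n0,m2,n0,m1]) :: r216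

noncomputable def r217 : List Con := (true, [n0,n0,n1,n1,n0,n0,n0,n2,n0,n1]) :: r216

noncomputable def l218 : List Con := (true, [n1,n0,n1,n1,n0,n0,n0,n2,n0,n1]) :: l217

noncomputable def r218 : List Con := (true, [n0,n0,m1,m1,n0,n0,n0,m2,n0,m1]) :: l217

noncomputable def l219 : List Con := (false, [n0,n0,n0,m1,n0,n0,n1,n1,m2,m2,n0,n1,m2]) :: r215

noncomputable def r219 : List Con := (false, [n0,n0,n0,n1,n0,n0,m1,m1,n2,n2,n0,m1,n2]) :: r215

noncomputable def l220 : List Con := (false, [n0,n0,n0,n0,n0,n0,m1,m1,n2,n2,n0,m1,n2]) :: l219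

noncomputable def r220 : List Con := (false, [n0,n0,n0,n0,n0,n0,n1,n1,m2,m2,n0,n1,m2]) :: l219

noncomputable def l221 : List Con := (true, [n0,n0,m1,m1,n0,n0,n0,m2,n0,m1]) :: r213

noncomputable def r221 : List Con := (true, [n1,n0,n1,n1,n0,n0,n0,n2,n0,n1]) :: r213

noncomputable def l222 : List Con := (true, [n0,n1,m1,m1,n0,n0,n0,m1,n0,m1]) :: l221

noncomputable def r222 : List Con := (true, [n1,m1,n1,n1,n0,n0,n0,n1,n0,n1]) :: l221

noncomputable def l223 : List Con := (true, [n1,n0,n0,n0,n0,n0,n0,n1,n0,m2]) :: r207

noncomputable def r223 : List Con := (true, [n0,n0,n0,n0,n0,n0,n0,m1,n0,n2]) :: r207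

noncomputable def l224 : List Con := (true, [n0,n0,n0,n0,n0,n0,n1,n0,m2]) :: l223

noncomputable def r224 : List Con := (true, [n1,n0,n0,n0,n0,n0,m1,n0,n2]) :: l223

noncomputable def l225 : List Con := (true, [n0,n0,n2,n2,m1,n0,n0,n0,n0,m1]) :: r224

noncomputable def r225 : List Con := (true, [n1,n0,m2,m2,n1,n0,n0,n0,n0,n1]) :: r224

noncomputable def l226 : List Con := (true, [n1,n0,m3,m3,n1,n0,n0,m1,n0,m1]) :: r225

noncomputable def r226 : List Con := (true, [n0,n0,n3,n3,m1,n0,n0,n1,n0,n1]) :: r225

noncomputable def l227 : List Con := (true, [n1,n0,n3,n3,m1,n0,n0,n1,n0,n1]) :: l226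

noncomputable def r227 : List Con := (true, [n0,n0,m3,m3,n1,n0,n0,m1,n0,m1]) :: l226

noncomputable def l228 : List Con := (false, [n0,n0,n0,n0,n0,n0,n0,n0,n0,n0,n0,m1,n2]) :: r227

noncomputable def r228 : List Con := (true, [n1,n0,n0,n0,n0,n0,n0,n0,n0,n0,n0,n1,m2]) :: r227

noncomputable def l229 : List Con := (false, [n0,n0,n0,n0,n0,n0,n0,n0,n0,n0,n0,n1,m2]) :: r228

noncomputable def r229 : List Con := (true, [n1,n0,n0,n0,n0,n0,n0,n0,n0,n0,n0,m1,n2]) :: r228

noncomputable def l230 : List Con := (false, [n0,n0,n0,n0,n0,n0,n0,n0,n0,n0,n0,m1,n2]) :: r226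

noncomputable def r230 : List Con := (true, [n1,n0,n0,n0,n0,n0,n0,n0,n0,n0,n0,n1,m2]) :: r226

noncomputable def l231 : List Con := (false, [n0,n0,n0,n0,n0,n0,n1,n1,m2,m2,n0,n1,m2]) :: r223

noncomputable def r231 : List Con := (false, [n0,n0,n0,n0,n0,n0,m1,m1,n2,n2,n0,m1,n2]) :: r223

noncomputable def l232 : List Con := (false, [n0,n0,n0,m1,n0,n0,m1,m1,n2,n2,n0,m1,n2]) :: l231

noncomputable def r232 : List Con := (false, [n0,n0,n0,n1,n0,n0,n1,n1,m2,m2,n0,n1,m2]) :: l231

noncomputable def l233 : List Con := (false, [n0,n0,n0,m2,n0,n0,m1,m1,n2,n2,n0,m1,n2]) :: r232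

noncomputable def r233 : List Con := (false, [n0,n0,n0,n2,n0,n0,n1,n1,m2,m2,n0,n1,m2]) :: r232

noncomputable def l234 : List Con := (true, [n0,n0,n2,n2,m1,n0,n0,m1,n0,n1]) :: r139

noncomputable def r234 : List Con := (true, [n1,n0,m2,m2,n1,n0,n0,n1,n0,m1]) :: r139

noncomputable def l235 : List Con := (false, [n0,n0,n0,m2,n0,n0,n0,n0,n1,n1,n0,n0,n1]) :: r234

noncomputable def r235 : List Con := (false, [n0,n0,n0,n2,n0,n0,n0,n0,m1,m1,n0,n0,m1]) :: r234

noncomputable def l236 : List Con := (true, [n0,n0,n2,n2,m1,n0,n0,n0,n0,m1]) :: r235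

noncomputable def r236 : List Con := (true, [n1,n0,m2,m2,n1,n0,n0,n0,n0,n1]) :: r235

noncomputable def l237 : List Con := (true, [n1,n0,n2,n2,m1,n0,n0,n0,n0,m1]) :: r236

noncomputable def r237 : List Con := (true, [n0,n0,m2,m2,n1,n0,n0,n0,n0,n1]) :: r236

noncomputable def l238 : List Con := (true, [n0,n0,m2,n0,n1,m2,n0,n0,m1]) :: l237

noncomputable def r238 : List Con := (true, [n1,n0,n2,n0,m1,n2,n0,n0,n1]) :: l237

noncomputable def l239 : List Con := (false, [n0,n0,n0,n0,n0,n0,n1,n0,m1,n0,m1,n1,m1]) :: r238

noncomputable def r239 : List Con := (false, [n0,n0,n0,n0,n0,n0,m1,n0,n1,n0,n1,m1,n1]) :: r238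

noncomputable def l240 : List Con := (false, [n0,n0,n0,n0,n0,m1,n0,n0,n0,n0,n1,m1,m1]) :: l239

noncomputable def r240 : List Con := (false, [n0,n0,n0,n0,n0,n1,n0,n0,n0,n0,m1,n1,n1]) :: l239

noncomputable def l241 : List Con := (true, [n0,n1,m1,m1,n0,n0,n0,m1,n0,m1]) :: l240

noncomputable def r241 : List Con := (true, [n1,m1,n1,n1,n0,n0,n0,n1,n0,n1]) :: l240

noncomputable def l242 : List Con := (true, [n1,n0,m3,m3,n1,n0,n0,m1,n0,m1]) :: r241

noncomputable def r242 : List Con := (true, [n0,n0,n3,n3,m1,n0,n0,n1,n0,n1]) :: r241

noncomputable def l243 : List Con := (false, [n0,n0,n0,n0,n0,n0,n0,n0,n0,n0,n0,m1,n2]) :: r242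

noncomputable def r243 : List Con := (true, [n1,n0,n0,n0,n0,n0,n0,n0,n0,n0,n0,n1,m2]) :: r242

noncomputable def l244 : List Con := (false, [n0,n0,n0,n0,n0,n0,n0,n0,n0,n0,n0,n1,m2]) :: r243

noncomputable def r244 : List Con := (true, [n1,n0,n0,n0,n0,n0,n0,n0,n0,n0,n0,m1,n2]) :: r243

noncomputable def l245 : List Con := (true, [n0,n1,m1,n0,n0,n0,n0,m1,n0,m1]) :: r240

noncomputable def r245 : List Con := (true, [n1,m1,n1,n0,n0,n0,n0,n1,n0,n1]) :: r240

noncomputable def l246 : List Con := (true, [n1,n0,n3,n3,m1,n0,n0,n1,n0,n1]) :: r245

noncomputable def r246 : List Con := (true, [n0,n0,m3,m3,n1,n0,n0,m1,n0,m1]) :: r245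

noncomputable def l247 : List Con := (true, [n1,n0,m3,m3,n1,n0,n0,m1,n0,m1]) :: l246

noncomputable def r247 : List Con := (true, [n0,n0,n3,n3,m1,n0,n0,n1,n0,n1]) :: l246

noncomputable def l248 : List Con := (true, [n1,n0,n3,n3,m1,n0,n0,n2]) :: r247

noncomputable def r248 : List Con := (true, [n0,n0,m3,m3,n1,n0,n0,m2]) :: r247

noncomputable def l249 : List Con := (true, [n1,n0,m3,m3,n1,n0,n0,m2]) :: l248

noncomputable def r249 : List Con := (true, [n0,n0,n3,n3,m1,n0,n0,n2]) :: l248

noncomputable def l250 : List Con := (false, [n0,n0,n0,n0,n0,n0,n0,n0,n0,n0,n0,m1,n2]) :: r249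

noncomputable def r250 : List Con := (true, [n1,n0,n0,n0,n0,n0,n0,n0,n0,n0,n0,n1,m2]) :: r249

noncomputable def l251 : List Con := (false, [n0,n0,n0,n0,n0,n0,n0,n0,n0,n0,n0,m1,n2]) :: r248

noncomputable def r251 : List Con := (true, [n1,n0,n0,n0,n0,n0,n0,n0,n0,n0,n0,n1,m2]) :: r248

noncomputable def l252 : List Con := (false, [n0,n0,n0,n0,n0,n0,n0,n0,n0,n0,n0,m1,n2]) :: r246

noncomputable def r252 : List Con := (true, [n1,n0,n0,n0,n0,n0,n0,n0,n0,n0,n0,n1,m2]) :: r246

noncomputable def l253 : List Con := (false, [n0,n0,n0,n0,n0,n2,n0,n0,n0,n0,n0,n0,m1]) :: r237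

noncomputable def r253 : List Con := (false, [n0,n0,n0,n0,n0,m2,n0,n0,n0,n0,n0,n0,n1]) :: r237

noncomputable def l254 : List Con := (false, [n0,n0,n0,n0,n0,n0,n1,n1,m2,m2,n0,n1,m2]) :: r253

noncomputable def r254 : List Con := (false, [n0,n0,n0,n0,n0,n0,m1,m1,n2,n2,n0,m1,n2]) :: r253

noncomputable def l255 : List Con := (true, [n0,n1,n2,n1,m1,n0,n0,n0,n0,m1]) :: l254

noncomputable def r255 : List Con := (true, [n1,m1,m2,m1,n1,n0,n0,n0,n0,n1]) :: l254

noncomputable def l256 : List Con := (true, [n1,n0,n3,n3,m1,n0,n0,n1,n0,m1]) :: r255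

noncomputable def r256 : List Con := (true, [n0,n0,m3,m3,n1,n0,n0,m1,n0,n1]) :: r255

noncomputable def l257 : List Con := (true, [n1,n0,m3,m3,n1,n0,n0,m1,n0,n1]) :: l256

noncomputable def r257 : List Con := (true, [n0,n0,n3,n3,m1,n0,n0,n1,n0,m1]) :: l256

noncomputable def l258 : List Con := (false, [n0,n0,n0,n0,n0,m1,n0,n0,n0,n0,n1,m1,m1]) :: r256

noncomputable def r258 : List Con := (false, [n0,n0,n0,n0,n0,n1,n0,n0,n0,n0,m1,n1,n1]) :: r256

open Helper55.PC in
noncomputable def t0n : Helper55.PC.Ten :=
  (r
  265766582376380252980125345074764147098049444082820886615541098295062085569540517842549215718994857906897478390652884928830655475914069711833399943901318130217343368052365646991983238000447323072142941184862738139373196434542422373600066152575438674878037134184079324281559761003589207804614551499111642645666768738263886364050891016490313496361640739044484605548527880605847968892001196253443513941445835381969046185349290701009662916563277672290129880209296091216619493800316303384455898474861497860711590294526740979870651985868469564399513957957852685044531356848226120186127924850817553533932018410113772489388307467186456582031658507959226835783666710977610172017032146840455857138023078767156933971393783879852898549099873549875556235483378871934502877430842798611378472789314896667425)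

noncomputable def t0 : Tre := Helper55.PC.toT t0n

theorem ok0 : chk K t0 l2 = true :=
  Helper55.PC.chkN_sound K t0n l2 (by decide +kernel)

open Helper55.PC in
noncomputable def t1n : Helper55.PC.Ten :=
  (r
  100601279699544573328680830646350566594369795814524632857195611183316521124995977958207122936304193761278984613391383361748476449226795957288913985945338571645003117890561828280060819728241385470437403865865094652566208827753895865843822591249791261633537727227761259430155320966115729192711269549450347497284623026150949245526395392633266701752507772210576780813136843752679200167628535815750666348559856780745537436574523208990829147695563807031377348931663633757049919555118779126281222249233015966876419334758814478964022857058741545974047978151273058748070764070208010658145110950569712900977531822303725281793360080106961408558217520245278802494938211876255515287808)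

noncomputable def t1 : Tre := Helper55.PC.toT t1n

theorem ok1 : chk K t1 l3 = true :=
  Helper55.PC.chkN_sound K t1n l3 (by decide +kernel)

open Helper55.PC in
noncomputable def t2n : Helper55.PC.Ten :=
  (r
  395969865664577475128711713508864205553141379077590339440261042782209969009231206027082556739290783392687396816287607402951124904157690876926590270570615861038933468514860389292970255115811382965516967808508878968261315672708677877069846415611223427999103861087265070336781110281639771080983145500415154306718675776396562016727597336914687158522174239877109080202905281723061338386858216923222761194072976467879236112384130241931953973711866589069408192480191818324889297322658454214811326262893092278932187454272884276289489571567546683283691728683083614161031874413803691660453203834115736763224411875875946676022849764111560797800969151978531211316873373947565092553027925270478579208782528496681185977295426305701231795449521684567488353049790969734384707787789405660164145599729589276407363660132115200)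

noncomputable def t2 : Tre := Helper55.PC.toT t2n

theorem ok2 : chk K t2 l5 = true :=
  Helper55.PC.chkN_sound K t2n l5 (by decide +kernel)

open Helper55.PC in
noncomputable def t3n : Helper55.PC.Ten :=
  (r
  133995917182954865021328968156344515231565931063826786475903650491204306880819623770550361024157042334219932988994885470382696234491135822600170862207335953313105626194329349192356048110161282743370677056002741165469422954732381846174018948433693926686847251641021564981441145390019197520704170506489420175691114595740558599748861487434437939975810814169735469188544030990023082884555723941868370677222864898049702140076755753498099915425551067570592737729822643263192915833863908566048445143895371742206806402768093033874774609066395722309243177762635502202769351716509832402887597937866218681586307889613263058891712088471277270295750161803319583935362737065938997079663003120527216224023292962082752419803476377854201405490648719176062438299673314207092504924664131599519152070881)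

noncomputable def t3 : Tre := Helper55.PC.toT t3n

theorem ok3 : chk K t3 l8 = true :=
  Helper55.PC.chkN_sound K t3n l8 (by decide +kernel)

open Helper55.PC in
noncomputable def t4n : Helper55.PC.Ten :=
  (r
  14835029773401287950848990125014286885197274247016597674299459889754899805825236098303718849092963872975984136900615723139402723288383494884638922752506895162832004593670640794642040730479113985793424404301169632243833620360303327599401703566155236432850014877731766071587144396841156395827577152258658589023801505273506362708937292935403417749233364365464311655046046422727707500823777299740486100920016283547152409498637931698532548615289723621819537208993966128466462703788573331725097495705811001443780759913543135183010508338154831900842544939137849951478387645528133812835354155739413426677591853950021267648074986785335066731341985152383283602957011502728065677040035470262933642360024073006301933778296651490946824139566014748953531923249880085382102999752503088797919545966210687705857)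

noncomputable def t4 : Tre := Helper55.PC.toT t4n

theorem ok4 : chk K t4 l10 = true :=
  Helper55.PC.chkN_sound K t4n l10 (by decide +kernel)

open Helper55.PC in
noncomputable def t5n : Helper55.PC.Ten :=
  (q
  390421046024689722186862420626356460912839780244366870146684586384266813795503210898019205425618125962757567717276185148428054101429290556063757
  (r
  432883721827241380335710000807277100283016588957216616979269952908906166446241971986273765741047290454201663019858927373727172567485659844190215275397939803562295020833156890672897592205614082341431581256669442088506689821067269746602904535343473655888089274962831813688101197915911174309831257754161493256387392599396822622460858273614740281148261726259055790892122772714078361555047079972931824405256691142689944893818041259281816374736695877632570025207599998542989953267258604896127086242815310313980687654941262609582584490917349265211517814485775926843051472567360657397681902118843461862303993065847336955113261196385570950636000845070889908731317495903725996365069698606122326145857043632999602621640637555166625224579280950350234779567518547346048589192906425093637002268919887578367126192912344780060663986428944304686445569777171031327277058084169526468125886928297409522497005966255684918668882965121738017)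
  (q
  2075834338078594864240147661635637137214428337261583874369289499239591248287971679055385226411792244760002008609398703211931118172873541618667697889180754391017146553996165463015437
  (r
  1778111633365790794976530961182231019764969191500708858267492489109527975326140381990978651044932701258458024179302551700671383069702966372002197028975377696678304589635352852267193514425801875633872013835329524624239313079950885788975597790599033236438641077135113872881685582881764937123284380008887846887027341362256095619039320583041112197161373479336351550503536191042606693283661310120695413746896290264561949450649381407589940549646242403794366710977749837980463975981457833039280873129093191275018793672907487635542935641255082657198827890068591614468587893629987777852006930953140125587098642748195441741368071773303433486745681607651586317835059533183830316222476102675739966659773261947680)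
  (r
  1421009257922472575102506382858245511419638500126195351754721222683616698259195572132492933221601650244827097038819874407213769810863829773710030684235121392499565072325321981926879532373367790685268008004553070603969724437945845562685289739919116220920191081146742378073406117230706776616810431154141455650062269957342543859027802913208602897412350967012064448376113864844276394526473983397249888896538117469119320251202537487889761717506525212904037450860533876346955142675631132414432263881211310737189089744810382300673734566763493628447613827599851047151473591488402076317220826487013233319412470564869197736070187723352686152097657603790240189688628292881938158401497579751105495481183969492978198664049156165582389030356548097727026617090482695809705120717302903994748701753526489586918544582841098226196566205034152839468709091567839486753)))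

noncomputable def t5 : Tre := Helper55.PC.toT t5n

theorem ok5 : chk K t5 l11 = true :=
  Helper55.PC.chkN_sound K t5n l11 (by decide +kernel)

open Helper55.PC in
noncomputable def t6n : Helper55.PC.Ten :=
  (s
  12776025421899870955282387967273657298202455486544317649047172327849353912659644386112411386418452880154378719003969696017281661626066028275223087459651937910403790676914744154224213498258686157090451655215712754500971059367344883426243232914046797074190229720597019392020831104931861801214625686032905505240228664261214663996194169366218574321367047040809405051220979305945053786691972221516888175649880230017184975500222269913601555677747435712062902617540332234354457519706163648926622992516193695112828320889919377602421110699197057)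

noncomputable def t6 : Tre := Helper55.PC.toT t6n

theorem ok6 : chk K t6 l13 = true :=
  Helper55.PC.chkN_sound K t6n l13 (by decide +kernel)

open Helper55.PC in
noncomputable def t7n : Helper55.PC.Ten :=
  (r
  10408249860744530583708502064781721029110194871482508560185854527282529886000582225698552213197092265291005172447673912637332166401484780572277289761232083930340902252962384780000537122651847727097901117535038405379195969843490722842685129576547855085633162246757181371847012679388613574810922559632954718513043153449370869057220865606567448740311795949824035369571232432400472280932617)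

noncomputable def t7 : Tre := Helper55.PC.toT t7n

theorem ok7 : chk K t7 r7 = true :=
  Helper55.PC.chkN_sound K t7n r7 (by decide +kernel)

open Helper55.PC in
noncomputable def t8n : Helper55.PC.Ten :=
  (r
  4175689659970014859879364822482553388932980294339018195173652949791561944260231172959472685583663134681667729506339771387389886148650274161869747810776438273353458124825701063601088530670099503499240869206802556038127807201046435035051464193643734760406454031230677512581693400982079071083905650453666810313734540579365592171749478806905043279026187272963964127379888350783709385941124109273905379244705880748172873840726332306952756677010603254507213041210172631139361711484275525560310228957246183270143061540113494331148041183026138735881673252454445876092407455764751422777154297616549444190327845611022038308296329204636473274593291879467549849407567594168159507229132379670078244677720477257918287532067920913462711302891907667880169304859228561385441801271989310745676078333322599059458586887382639361)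

noncomputable def t8 : Tre := Helper55.PC.toT t8n

theorem ok8 : chk K t8 l15 = true :=
  Helper55.PC.chkN_sound K t8n l15 (by decide +kernel)

open Helper55.PC in
noncomputable def t9n : Helper55.PC.Ten :=
  (r
  49802776728098057643556578379662970252933421135125768737858673665952041318957057831629936675933864771245516199962383017639397568880615126969046388033546463659720364348222853867257554183437675200100865823661246524551215450626539072784453307000864328245932695601047568561700259723248086182015137507175699870938460093462862207082188556703596144385060077552625768973800472653401049050743853904676889305353)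

noncomputable def t9 : Tre := Helper55.PC.toT t9n

theorem ok9 : chk K t9 l16 = true :=
  Helper55.PC.chkN_sound K t9n l16 (by decide +kernel)

open Helper55.PC in
noncomputable def t10n : Helper55.PC.Ten :=
  (r
  34073906745328550725814902308784727473882198836892943181201063654038286546458888589383512270093570165548978123908693289300069025197544259867627478542150102670257975561874594383624501969250741140011375395831529252640878361835639203723637556760765937028719370677091637709668044910029746279043384327853204587228792236766927619064698656192548526484720587931705815481229760162055935399926717000073738747149517760909482062011326123213742914064829987830342057309590447738179768905822615546376095819541434930799823718612982671482711955336864521)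

noncomputable def t10 : Tre := Helper55.PC.toT t10n

theorem ok10 : chk K t10 l18 = true :=
  Helper55.PC.chkN_sound K t10n l18 (by decide +kernel)

open Helper55.PC in
noncomputable def t11n : Helper55.PC.Ten :=
  (q 12664787374056846438604419063580666140825887293692962131839626649100219449357 (r
  2805776947350469936290386584877602970722088073541892540276340544803256882211166259450331743472558182205525622175117688374971021956458474858240884801615314905981028001222954774423966354009730937331118270401212614840249790205283574557301923518174864343133696185914702934463410180618097479288405488808962451921629309989780825650912214607961026686637623136038438403846394750192443521067495907162443909860495596716775004898303354889860991172007002568886590809452666253086300041802272000564225263562168785956434122855599634371422505805014250712633546897136524624925325245660977892546081386705931162174016396767736836490188527373405496830905672834529520392456555799905263807124624040008497129379870101364876283892773458135209099153822136867862371098913)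
  (r
  120529487565282306151223179314063504250556651390111096294094736022161373135679841696024874087382745136057619710638687966555950343274382081827033881365118443246326490822151229466226433237383185422344280434570513734463535167394229128751098469722018630987811337685345800442150685589168171346484486170019985336676218207972428642388491020444559013422326901016774320393))

noncomputable def t11 : Tre := Helper55.PC.toT t11n

theorem ok11 : chk K t11 l20 = true :=
  Helper55.PC.chkN_sound K t11n l20 (by decide +kernel)

open Helper55.PC in
noncomputable def t12n : Helper55.PC.Ten :=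
  (r
  4519516934661005752004970047592547637514460045573330323218688409863778108406643362515741037802949542098346006740902835654959519577119621822192579152983204092684622597847326478868205940047184262774704216573173269221995530899350158272026827315983709306234758896128318554660611260995460473411024895225240631564101515002614746492599286497822535866023952536154603304104644481807888352989548121598970369865344033115394961858059288742893948095892099651356724450647011517778058983541540921293638815200681976059911955132848727450764988423595848794525489482631834092460670395080334261986398562935847431083781133966011917614207545263126666195807557201625835115595670123726838892149478716445498901416908867528801011388150644490963993452540592304249067535492527252603247399192829690760862904286944508351647887378035605755763273264828901694296641357033522725714298950643068183841)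

noncomputable def t12 : Tre := Helper55.PC.toT t12n

theorem ok12 : chk K t12 l24 = true :=
  Helper55.PC.chkN_sound K t12n l24 (by decide +kernel)

open Helper55.PC in
noncomputable def t13n : Helper55.PC.Ten :=
  (r
  1993998757607675466026834037962816243068036766743198148266770837435146129979497837686660372066407881291813851017999634656382118617918904486951129674831308232280994751600200094442312484166896350695308057280602720507729988376282195846773472052524988226444716859721056131023934903503191236657849456166125869846949243044153943194479446578192554)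

noncomputable def t13 : Tre := Helper55.PC.toT t13n

theorem ok13 : chk K t13 l25 = true :=
  Helper55.PC.chkN_sound K t13n l25 (by decide +kernel)

noncomputable def t14 : Tre :=
  (.N [0,3,1,-1] 1 ⟨0,[(0,0)]⟩ ⟨0,[(1,0)]⟩ (.x (-2) ⟨1,[(4,1),(16,1),(10,0),(27,1),(0,0)]⟩ ⟨1,[(0,
  0),(4,0),(8,1),(5,3),(16,2),(2,0),(6,1),(3,0),(0,0),(13,0)]⟩))

theorem ok14 : chk K t14 l27 = true := by decide +kernel

open Helper55.PC in
noncomputable def t15n : Helper55.PC.Ten :=
  (r
  6442394646250411089887003441814218300745550360702228517134408248058854986623156641203943628138844388999533605250062261179492672724762843480819405504050420244428467987214689933343120672599452725928808070410984415314781474428769632277035169540834864034377458811779925012989937437848264608945115793314790512662512855972064998492648752287211831051982410833680198461593707363674938461911138558367831022931643459707177)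

noncomputable def t15 : Tre := Helper55.PC.toT t15n

theorem ok15 : chk K t15 l29 = true :=
  Helper55.PC.chkN_sound K t15n l29 (by decide +kernel)

open Helper55.PC in
noncomputable def t16n : Helper55.PC.Ten :=
  (r
  5204045508399812200716414047917230798854147011480016228381786305087533959246730727224079090574213184265225985536921154746387183821564256266006625075177313807842553967878970517908431610604814635060481411567610149078501044149299955134234843043294400307201759909105643525900695036016350602949249036969916310711157978801012855309238705324080995271003549239140719009105007146242138242818313)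

noncomputable def t16 : Tre := Helper55.PC.toT t16n

theorem ok16 : chk K t16 l31 = true :=
  Helper55.PC.chkN_sound K t16n l31 (by decide +kernel)

open Helper55.PC in
noncomputable def t17n : Helper55.PC.Ten :=
  (r
  1464830939142228636968415370207402840078651280680527425181325572874932732247670675578628257644643381126431841082222901560680592715628269322606089471393620664697022214170260911881773387607981489287105584507649290887691874618639501338518767439130678027631644366352030936458889597226148223492909994065222002603560659652321605871644299746034474133455515395037272891620717968694914068321740518687007580425)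

noncomputable def t17 : Tre := Helper55.PC.toT t17n

theorem ok17 : chk K t17 l32 = true :=
  Helper55.PC.chkN_sound K t17n l32 (by decide +kernel)

open Helper55.PC in
noncomputable def t18n : Helper55.PC.Ten :=
  (r
  1993999626918734462438284190089056982646211627247929648007231995738691636603832532658185773492417587284277147677566780333781158053700008512003352103220363765129839050967380188042744277192191020444322836719760176934538323330736091000731823915634477909021766321295097323812773062430001242201680607110380140516944225540043508145047270890692778)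

noncomputable def t18 : Tre := Helper55.PC.toT t18n

theorem ok18 : chk K t18 l34 = true :=
  Helper55.PC.chkN_sound K t18n l34 (by decide +kernel)

open Helper55.PC in
noncomputable def t19n : Helper55.PC.Ten :=
  (r
  1021071819459453717352577446420417341234660985049233478994676811080216693670871764212446543426411928743011274087532946140878556476887643533951193504685808283484810351096223673794107771674798814538857421082915284131331478461592013132276502549283092195666927330111520379189241844678034542272917315395357148578972883434986350053455845864873102648235228887552975820361145772001288411350765509750134002929380846373002193207180776387364573782745385)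

noncomputable def t19 : Tre := Helper55.PC.toT t19n

theorem ok19 : chk K t19 l35 = true :=
  Helper55.PC.chkN_sound K t19n l35 (by decide +kernel)

open Helper55.PC in
noncomputable def t20n : Helper55.PC.Ten :=
  (r
  34073906745328550727661827013364262773080661009373458234565897031039501749316662838978015265104791817668975205380274704608176796503265915247651228031397513155857376745742387109219024543263966986544549239041842507614940607518506308787940278209824207925489572075632069737701045780398462354870353222481085376648876905343034262440051888787457627541356592029558170334320085644745752719012873523537819585872136220478171522103408592748618440091353938252688051346523400034273765877771888724512383681366094503799636329378689262740136269158556425)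

noncomputable def t20 : Tre := Helper55.PC.toT t20n

theorem ok20 : chk K t20 l37 = true :=
  Helper55.PC.chkN_sound K t20n l37 (by decide +kernel)

open Helper55.PC in
noncomputable def t21n : Helper55.PC.Ten :=
  (q
  46738405478273208713405651422255577552317587070077507049572313857765176833325971518443118639940535094950517334981786377327694616325569666790230366245061950114546274229420045
  (r
  5329024257494836264050159428767800431713583561206383295668572548264113071577121829548693519917293950687072270589198573331652519502782997942781782223512474729210421300030888549543351033449555706030676869398405424339967153357380560875570500633099008733015018143772045085218272674142564285227250740370327015088655355830713013331151370810957863533257960688271685483669428784067372321668866825)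
  (r
  422208800308341296432689319524407021499476098133190065231691630886875357893434793346518858119622600395264244796759935175969651129237709097078405787574156834806241993921169730105124518632961524909975736852047836529324032608370583744573402017186113636772305222911557080260738524909496331715845653194927050105639765253465187852140448436166037295115186036918713463840060615670494538714561457304213794112808591855351767849))

noncomputable def t21 : Tre := Helper55.PC.toT t21n

theorem ok21 : chk K t21 l38 = true :=
  Helper55.PC.chkN_sound K t21n l38 (by decide +kernel)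

open Helper55.PC in
noncomputable def t22n : Helper55.PC.Ten :=
  (r
  123975278399363403787951411680114011139781495233166441453804265930475144627202837648576466520771950964333257341703207147086742403864515282575829230137430994143768582605666458070758839987770092948039604052982333678890845133486121186257800578846262037985772957620967355137956212945935140333922338642690827135510214492539020796095064907160083164371371782699792970674145779855664445986477145263908241530085620767118836689423082357687659686411348968383068740535327530452429849448238543789859102658696483564095973145489497332638505)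

noncomputable def t22 : Tre := Helper55.PC.toT t22n

theorem ok22 : chk K t22 l39 = true :=
  Helper55.PC.chkN_sound K t22n l39 (by decide +kernel)

open Helper55.PC in
noncomputable def t23n : Helper55.PC.Ten :=
  (r
  1537911919865711426635267899186704851775534416422909764125729190037491271204432892202372133992836130735982517230329811469766688396937652980477661781073157820624917345887492323190312395604513802287913989840369096077514031785736159463310016924250020671826941062690730449655005413677259088541316793779384187799699570314153893010088609745901601221850170393675538583108328116198041656944044264252976161180074237622255308275215172038333712702474106842842695204414735600711359239830115414003049433087382779738799569828284735874357504081442985421127920756991170043140935195896524940837731339235796989881581425160566299840885239838615442168024866910533244354961016385996978092862606207212893247420597670500202957054600033974011175739916868916926975419639717824550067925009462852437703762116286821916917789705031065053591065801223885650377695749836483222578269485662230510700346343599048773160491030478182506308897)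

noncomputable def t23 : Tre := Helper55.PC.toT t23n

theorem ok23 : chk K t23 l43 = true :=
  Helper55.PC.chkN_sound K t23n l43 (by decide +kernel)

noncomputable def t24 : Tre :=
  (.N [0,0,1,-2] 0 ⟨0,[(4,0)]⟩ ⟨0,[(11,0),(17,0),(27,0)]⟩ (.x 0 ⟨0,[(0,0)]⟩ ⟨5,[(8,4),(4,6),(4,6),
  (6,2),(15,0),(10,4),(2,0),(2,3)]⟩))

theorem ok24 : chk K t24 l44 = true := by decide +kernel

noncomputable def t25 : Tre :=
  (.N [0,3,1,1] 1 ⟨0,[(2,0),(2,0),(24,1),(27,0)]⟩ ⟨0,[(0,0)]⟩ (.x (-2) ⟨1,[(1,0),(24,1),(2,0),(14,
  0),(20,2),(0,2)]⟩ ⟨66,[(2,8),(1,53),(4,40),(2,26),(12,10),(4,17),(9,53),(1,66),(9,8),(3,55),(2,0),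
  (2,53)]⟩))

theorem ok25 : chk K t25 l45 = true := by decide +kernel

noncomputable def t26 : Tre :=
  (.N [0,0,1,-2] 0 ⟨0,[(6,0)]⟩ ⟨0,[(13,0),(17,0),(27,0)]⟩ (.i 1 ⟨0,[(0,0)]⟩ ⟨0,[(18,0),(3,0)]⟩))

theorem ok26 : chk K t26 l46 = true := by decide +kernel

noncomputable def t27 : Tre :=
  (.N [0,0,1,-2] 0 ⟨0,[(7,0)]⟩ ⟨0,[(14,0),(17,0),(27,0)]⟩ (.i 2 ⟨0,[(21,1),(22,0)]⟩ ⟨0,[(0,0)]⟩))

theorem ok27 : chk K t27 l47 = true := by decide +kernel

noncomputable def t28 : Tre :=
  (.N [0,0,1,-2] 0 ⟨0,[(3,0)]⟩ ⟨0,[(10,0),(17,0),(27,0)]⟩ (.x 0 ⟨0,[(0,0)]⟩ ⟨5,[(7,4),(4,6),(4,6),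
  (6,2),(15,0),(10,4),(2,0),(2,3)]⟩))

theorem ok28 : chk K t28 l48 = true := by decide +kernel

noncomputable def t29 : Tre :=
  (.N [0,3,2] 1 ⟨0,[(2,0),(1,0),(24,0),(27,0)]⟩ ⟨0,[(0,0)]⟩ (.x (-2) ⟨1,[(25,1),(2,1),(7,0),(27,3),
  (0,2)]⟩ ⟨14,[(2,3),(0,10),(0,0),(0,1),(2,13),(15,10),(4,10),(9,10),(1,21),(9,10),(3,10),(5,2)]⟩))

theorem ok29 : chk K t29 l49 = true := by decide +kernel

noncomputable def t30 : Tre :=
  (.N [0,0,1,-2] 0 ⟨0,[(5,0)]⟩ ⟨0,[(12,0),(17,0),(27,0)]⟩ (.i 1 ⟨0,[(0,0)]⟩ ⟨0,[(17,0),(3,0)]⟩))

theorem ok30 : chk K t30 l50 = true := by decide +kernel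

noncomputable def t31 : Tre :=
  (.N [0,0,1,-2] 0 ⟨0,[(6,0)]⟩ ⟨0,[(13,0),(17,0),(27,0)]⟩ (.i 2 ⟨0,[(20,1),(22,0)]⟩ ⟨0,[(0,0)]⟩))

theorem ok31 : chk K t31 l51 = true := by decide +kernel

open Helper55.PC in
noncomputable def t32n : Helper55.PC.Ten :=
  (q
  148451262519461029565831632915085589197382175817773715024084683450616227592800714839304315725771950561324565505225829852680896724128154753896776928998098862093
  (r
  2149605063733046702445187620098310286017170961313183369082681900944568929582939195839169638611765532553902656983586544315750442103078081012688297237879097503872230848292797527658999717162717348580180538605396351959601355453958930365797337346372545850840040803677001468317301083849363264774593576940007911376820496047938444418381261082053404710468574193262712384993142414816337327880802020880419138120824393067888374169753964248272542449282878122150374535196361284162019103935920952142694857983496077450226664193626260233533458478233579550186853970884418496391510787549440033106132921603412417356866927873398318826075041108770173107455755331285280107706398196494026845924434294703764423133081916957020090667178676155018126112)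
  (r
  31689565385682159659803856653700267535957469218981028136018219670436482254787976735733110851204015680538938515603291354514700713146421132861292151371581237390155905106625740075198038769000625709324438812869227521830469786687274833636549399177204345706014828659778274991137768524546137671214452233713571138545400956582025595951135032177098904257127245583224345085950964333960058830265509452429188453511794467417164086611605443507076642020987967537366855981763960643295966730334189125343384905399498225373125284739424582734099194302493799180512396786516985544570810876878762321541249782719968344853636043268070304575577730868174438504118781839555643375044922844409065373509624446863386635749063648196250812263629636402648650067667373556874287275166059143000987299558892318227973048623769790336789079617727843098308774134726449235577865756496087187864937359875432967834991315293879013255947041))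

noncomputable def t32 : Tre := Helper55.PC.toT t32n

theorem ok32 : chk K t32 l52 = true :=
  Helper55.PC.chkN_sound K t32n l52 (by decide +kernel)

noncomputable def t33 : Tre :=
  (.N [0,0,1,-2] 0 ⟨0,[(3,0)]⟩ ⟨0,[(10,0),(17,0),(27,0)]⟩ (.i 1 ⟨0,[(0,0)]⟩ ⟨0,[(15,0),(3,0)]⟩))

theorem ok33 : chk K t33 l53 = true := by decide +kernel

open Helper55.PC in
noncomputable def t34n : Helper55.PC.Ten :=
  (r
  341073142302879421184317018385497706039530885936739791153034566883962565677088586081657183728104603279519138055989193932886420390922651586107784033757465055932199354921527103855542479997926437874837685036858348694189990314251476758287953057266291451414517915434272226890894546725205412922579037702783620731427900766305082707248159027539754919290973205704006409068569411657882279047818649865)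

noncomputable def t34 : Tre := Helper55.PC.toT t34n

theorem ok34 : chk K t34 r40 = true :=
  Helper55.PC.chkN_sound K t34n r40 (by decide +kernel)

open Helper55.PC in
noncomputable def t35n : Helper55.PC.Ten :=
  (r
  1614218429408749027064676475701616531112608017368652903179701964301560099875080424785700165226046625503578492501847725647795998669871689487631981274929133030449087078028582496751398300586003008019466075318422036822105500533015347181742099879194486657194095336735442998415215748770485870344628567473734910759705643642163782725465956833035862879993344955903379585259790531640943652158533685171421828545366117198587456162066401970532357351528260422352285453010358871757798167456350037631860762084529091377655134866731404169928420082429216412094864806935681836525483959391404123952076403483079388514639188311642059093973630955679881582012075357038788317222551362043225176695307493934872364179563700708836329684618213878827313275983922061984263325328070994009564373281)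

noncomputable def t35 : Tre := Helper55.PC.toT t35n

theorem ok35 : chk K t35 l54 = true :=
  Helper55.PC.chkN_sound K t35n l54 (by decide +kernel)

open Helper55.PC in
noncomputable def t36n : Helper55.PC.Ten :=
  (r
  841108143276268026145908567288744166010418180358213991048558016501241130731802109033009162237484652790132497742653787772627976044184421511217098908479500896630398566038239920944473765353702507042023031708848665281122887032533703280410916253346467012764676202629378653997318003977256553557578718504975172984666150061976393251225872496691159910431350305026355836064847217540958900318697078470033000653749363514350374153095537253812716406354458750101779096334782337347594455427966745004836050936503341368795970189111147033051533947858490397723086435155641752060083225181158245821164101649793223026628969487312798162408977547135499229010286955885889387523384572420729026330070144471082509368545865580883373217813891193813838114299541825731402982055412387615742520544746069269695531931314832200317265367961318121080482784527180556152573608583393)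

noncomputable def t36 : Tre := Helper55.PC.toT t36n

theorem ok36 : chk K t36 l56 = true :=
  Helper55.PC.chkN_sound K t36n l56 (by decide +kernel)

open Helper55.PC in
noncomputable def t37n : Helper55.PC.Ten :=
  (r
  275504088127861526760347247794045300171278447633500254770679165604233676783724327815265841203822435022388817158400338938219071325031375159399851211039600582133590027990167451240224309772207913473473211643301664898669770503608548093702130559657761637174336331804000070600880389524857262403286394654677207430903440246290787567771365985595044655129129363570652603049)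

noncomputable def t37 : Tre := Helper55.PC.toT t37n

theorem ok37 : chk K t37 l59 = true :=
  Helper55.PC.chkN_sound K t37n l59 (by decide +kernel)

open Helper55.PC in
noncomputable def t38n : Helper55.PC.Ten :=
  (r
  720000587083458409963196926487903799046352675691102579139843023014559522084028249824162794375539428426384601959931365118111235988960369669848148973888223399094186861951399610390353906834288727928806916287524568990645334678314232549646085323055430183752430045133226212731306177862445083189983227501050317057395602488498669148455015011054514955533683634887989210522670783109065866202068040807889487454310514831688340079161151937007782908363170097336499153782797252111402206091286440062284761899741294041725931266665834180727969194832233714554427125024271580994287171783517268357570727552263541593938941777901694427478665684928463896908960038440602027265075791908155308973132905843784083945335885635161294020685379590968909348982009866858559129830337008881595731262346475768703610774568126490070970491901584673)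

noncomputable def t38 : Tre := Helper55.PC.toT t38n

theorem ok38 : chk K t38 l62 = true :=
  Helper55.PC.chkN_sound K t38n l62 (by decide +kernel)

open Helper55.PC in
noncomputable def t39n : Helper55.PC.Ten :=
  (r
  2770250543779758172449158482186926685731119286108936643654598497585676656796890208879092221622963319016400526109121701316699579101332127488519995927021300964117703166355602160392608913305440703815948119382829695321155117893948471934568246214362144888155896197624260726958248167572819979949820011252243783549937872869057840810061752429108693418718863495672632237582373031801440570251616635708337297687009130359135255374212650678495896955612500241056339172711480171869367909346283955948025083052881755985264713432253201074918941771732038558553385860144695683938323642628493309887771709076240358650876323367684257900215127058216517663012567506012674494973114458147528300548052334619050518069611203391165493890010800169172652637115437979398255814151973196035105951693057432906687848463785468079919160098080133531335918774978746728326721873488608686096663735400008252287405080690050355579290985216190659083012773299682551073)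

noncomputable def t39 : Tre := Helper55.PC.toT t39n

theorem ok39 : chk K t39 l63 = true :=
  Helper55.PC.chkN_sound K t39n l63 (by decide +kernel)

noncomputable def t40 : Tre :=
  (.N [0,1,1,2] 0 ⟨0,[(1,0)]⟩ ⟨0,[(0,0)]⟩ (.x (-1) ⟨3,[(17,7),(0,6),(11,2),(12,0),(13,1),(5,2),(0,
  2),(4,0)]⟩ ⟨1,[(3,1),(4,1),(31,0),(10,0),(2,1),(5,1)]⟩))

theorem ok40 : chk K t40 l65 = true := by decide +kernel

open Helper55.PC in
noncomputable def t41n : Helper55.PC.Ten :=
  (r
  13281666562849184360560612385999963874568148946617228854067520699148041040233758584157140571382083271162584272876038936046954741848511356212222836978523001698837956253651027147483930827815261652159032692527465843677373809035947417775327353092546324658388451537847484360989841946596202929843294248892994985941589710004118399940807945516005580168738822208580632298278493170948845395206019819823310249802584714165436034952343527792979530709025484687766035316814255048772867261797360695646363000661214240608068690693725274718650346765320685789208353521691933764067120491894738629695878130414687558724859726587238469913012430900576567652828337401585856617074461869449637445216414296135625613248576847563543926137818961410993684940472739472463050952683730556290498626585546789884171479241125405749822437478907291061981525679118492961)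

noncomputable def t41 : Tre := Helper55.PC.toT t41n

theorem ok41 : chk K t41 l66 = true :=
  Helper55.PC.chkN_sound K t41n l66 (by decide +kernel)

open Helper55.PC in
noncomputable def t42n : Helper55.PC.Ten :=
  (r
  54555726249536717943237896189600500066461012586771953847730137979268787850001298705851301122676566686251276863517388387795725022954047777659915785213128017849062887360631211696872262508689848136443192938274076450918380407810809689829969034592711042295711133328506883759502549110609721902373253655085312193277335999474956043508888605446266988611283608750664032618097494776915236155110769527284714355646928799985377311493442784321505813333906374931839526235759280761753319900043686315677885979211983452313101969164075395331743009927630063378100240333531569902516331122924144347211767663515025364424257433248544)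

noncomputable def t42 : Tre := Helper55.PC.toT t42n

theorem ok42 : chk K t42 l69 = true :=
  Helper55.PC.chkN_sound K t42n l69 (by decide +kernel)

open Helper55.PC in
noncomputable def t43n : Helper55.PC.Ten :=
  (r
  42099673877571127840135306852401890727297325028015081932950961361168779235702396290868177299635783435811672237170631468448472238275812776603141488839778271511666229123191955522007765439260335972482242785200744474906734290982227165955260489860910491600651965708822145039448586369717841226786534024510055961840647660232703108044023040481163419084441847999552131705220703475883753749478560535677917371649105000963079051557709748777048775184678810896955568576108720226147248920170800629408843159910517996440888466391029310538556065612674217767733392253574499694789099231038029279437324337578022534937561998765395352543808778070890581958085177804376139198473842860168379498785473213532002619626451961358437521410429662875052942112)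

noncomputable def t43 : Tre := Helper55.PC.toT t43n

theorem ok43 : chk K t43 l70 = true :=
  Helper55.PC.chkN_sound K t43n l70 (by decide +kernel)

open Helper55.PC in
noncomputable def t44n : Helper55.PC.Ten :=
  (r
  52708162796698062346657498966992110460627845000075431196118727809968814335312368715752374015384584948940828952635363091780526127203522986406602469384807775594836214968578703923816331816832295533489897611598781228569584791012679723860919604018839328199862929684940369294788694949528061356120153020840156329187875779789364178422184634647060723779574067117375251622325134976378419650695353188009930986408034430306642493641407443381591046205244481956683713163476319164453585644181370345497821713322862610738573347046640572777067069984119765091032848832613105245479408355906349796186488050029067656899261885715704924258731364014018642012895664315883997763576028116980671939125347197079252791976097164050203545480341794889798141180666308203492262748820300634503324391276770394562634529)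

noncomputable def t44 : Tre := Helper55.PC.toT t44n

theorem ok44 : chk K t44 l71 = true :=
  Helper55.PC.chkN_sound K t44n l71 (by decide +kernel)

open Helper55.PC in
noncomputable def t45n : Helper55.PC.Ten :=
  (r
  24718219205591743749024692152080525806060374921503803187103050759752109724729537272066468259624358609047332943617424891787854665250749474787921204194443089240759642024020677932095067029612881349398755466714859479686054606174411117371718833360338850092530683709854526604081543330915283258646293653830975963270416847555824197047019416480080465080129309768098741391042601328672720569569517586894179045525016862004986940850132835243057387057567442314751008968684550580367892426582243239550466790142827273302174631015101621670720353460043122636694442123081775692216974671441099433625318368610043843541956627441637370859220839593564308874106971832072775288893415767232104603018249899861974132322363963866154185702542443937729014264402694597660245280810129236605768563398520400433577987991319279931266963038869624100850868799471053853958945)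

noncomputable def t45 : Tre := Helper55.PC.toT t45n

theorem ok45 : chk K t45 l72 = true :=
  Helper55.PC.chkN_sound K t45n l72 (by decide +kernel)

noncomputable def t46 : Tre :=
  (.N [0,-2,0,1] (-1) ⟨0,[(5,0)]⟩ ⟨0,[(0,0)]⟩ (.x 0 ⟨6,[(12,6),(0,6),(4,3),(0,0),(15,4),(13,2),(2,
  4),(11,4)]⟩ ⟨1,[(3,1),(4,0),(2,0),(34,0)]⟩))

theorem ok46 : chk K t46 r57 = true := by decide +kernel

open Helper55.PC in
noncomputable def t47n : Helper55.PC.Ten :=
  (r
  10537648661582239933411945400195036294945387555248775462228638075287166787519646908417805267400553881533325915456669805347919793717337800226709105374149693278579244348351918581667578003331820791524827949257425113819189970966550046036699582478302611557597827311012287050247578265693693227867951802774411063847875649113809165946581898265695391368394787037195005087750956985364853662565949487631072525564799260156015668604328139295601221354721718218260579617994132624084119551771093636832756565491871242127466060879848368306026975221910195789898954856427469674382847034962639890802260759527069020936974448740377355967601459960006533083745484526370724607956438408190005589069129051598957110359973159680)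

noncomputable def t47 : Tre := Helper55.PC.toT t47n

theorem ok47 : chk K t47 l73 = true :=
  Helper55.PC.chkN_sound K t47n l73 (by decide +kernel)

open Helper55.PC in
noncomputable def t48n : Helper55.PC.Ten :=
  (r
  3945782488275374434962880891820720565215263816739697580879709168897816765207860034367315289499847164411383219008565469498960795077333846058504746259744352814487172040131190587936887893431473835760764690259898799813796130625963392399412060763200963651511564962152622185832975287420907875025255503760228666350873968009855855073390432023030529941327142586168577383237679963773750063882214421867197784313070936879973214906837736104201)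

noncomputable def t48 : Tre := Helper55.PC.toT t48n

theorem ok48 : chk K t48 l76 = true :=
  Helper55.PC.chkN_sound K t48n l76 (by decide +kernel)

open Helper55.PC in
noncomputable def t49n : Helper55.PC.Ten :=
  (r
  13223926770611478654970091856952385622029352110267400665092191763819586183054862954713912900766503737782322032282912821813989030816859042306193710422138314574711358880360342555736801282894096755993092579722343551520892267758600038880601327195033926029211259797803669914853694097331448118338493628394908293835796570212106464795566052681680754371956678430225774944553)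

noncomputable def t49 : Tre := Helper55.PC.toT t49n

theorem ok49 : chk K t49 l80 = true :=
  Helper55.PC.chkN_sound K t49n l80 (by decide +kernel)

open Helper55.PC in
noncomputable def t50n : Helper55.PC.Ten :=
  (r
  54130486153977008100407248759786557332533135327268391098619732616373454776342497787904158559387282766474528718645479460214330519949162654286246788279420785856669472993030273029382502062033332096053676228637553009143247502493712648311031569739692949217466090502831141108151959949730281288867504675957923335351191051436900594589611869615942042623626064086356537361776690484230901844324570877153787621008736644157702103032438407332143924854329986140796006101489734050697107283340990146622091112530363417912133456900544772917565432959280124929673045967953985420160996255342402626932423970417124149132879840635670284716561172304692970108007326562443911633851445197053689049279111707301999200321403927331038130649212142532594530551797466733645417295563474969390916067842987962642539851908186437838693394313354234292905740078513155639061458612804293133584899530782768798886623081615341323778918443339253262050049)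

noncomputable def t50 : Tre := Helper55.PC.toT t50n

theorem ok50 : chk K t50 l81 = true :=
  Helper55.PC.chkN_sound K t50n l81 (by decide +kernel)

open Helper55.PC in
noncomputable def t51n : Helper55.PC.Ten :=
  (r
  23454016824658599614951099194156585512383937121444850977174111030766650280061170712430684356593722649120504694304132844146186038475755088574088771527821632504843014911255613305109465280158950947675130371797945632613192195796433283967090535585666698268365607998276261548101897414995027332456350043790872832190623570440738625224433511618674536717067601637252288323501368163750798801857356525253385744185362942955963984758791247695790641470729501978595730998645008281382267261898251414516107412968586375483769057552295328209857234982995963716483101312012183909307244358664183729915622052605153051047329143990167803322153253904472277897181922646993728315357026086019779317428024894074559739631234498868145662489194896490805526015606226571480864951891074568838356864752962037413482648241790868306681118622647478986810637818564512820848458157005485272373115216255501710243759337340881767372095470399966660843281353362783265221670743266588955007554186981382550608182301646055188149082637847779106135868791775199765249)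

noncomputable def t51 : Tre := Helper55.PC.toT t51n

theorem ok51 : chk K t51 l82 = true :=
  Helper55.PC.chkN_sound K t51n l82 (by decide +kernel)

open Helper55.PC in
noncomputable def t52n : Helper55.PC.Ten :=
  (q 15378664466820192268867050265096805313340947747120653996321003109337415155725 (r
  158814865849349443967010565755675567990918448313821681690132873665468487167930838850185413221113930359958715064666477137912507591128949598179733182581124854493304905693659937763986703208856253639821239893972687012440133776742981932859494905548260563555644400918294105972153020746835972726085260510009450248902741767303690481021438935096661622360879398990194335166426308286561394985)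
  (r
  191995394009584208577477055333138191058231196036423666769987549091154442257108615901412542621979188515366980215413703017992850499182251878097893092510224808263284028899403249009127432150636378352155352290357929674845557894324152698458685655065823885968630476446946995764460778951454129904002522463099543828315055542223462344642782797057686475275812370390835675293460446446391499354015193826703836981764361))

noncomputable def t52 : Tre := Helper55.PC.toT t52n

theorem ok52 : chk K t52 l84 = true :=
  Helper55.PC.chkN_sound K t52n l84 (by decide +kernel)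

open Helper55.PC in
noncomputable def t53n : Helper55.PC.Ten :=
  (r
  8955231436236816674940850854355388353098836799640705804504433579596389688223940210211601988453305602706610179899287550090229115405235739864324441976419888415365734992196635482663161683077535348180997040240767633385325690421808011983307430424033021454966269941561382935089084183601110444824981234776094171747505307790327626666332050724838758587152117804476160084860478217)

noncomputable def t53 : Tre := Helper55.PC.toT t53n

theorem ok53 : chk K t53 l85 = true :=
  Helper55.PC.chkN_sound K t53n l85 (by decide +kernel)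

open Helper55.PC in
noncomputable def t54n : Helper55.PC.Ten :=
  (r
  38541548744514588565547303061927508183566221926077397159917003598375857541253568357643312807447440367702467938986426904863343563403763839810304015084352691098005938268890144156836945000032598631717689216870104257533062343718818475616181443907325757891749094760278802954571911948744096426702508337396028706446369478336757699891689044375824324355711148216128992900284814650394810050790039287698566881173602046619089064755515047429911603955877278949008808557337002999278781170343783363449398171917486245005469596998132062219077037707784133668916694637146663840710484880326784485545000003500185570303436464723025145966390723191493804280660097886479413304511131523800829671026577549260076752890270705126499612707882757805041463374141254505268957319722680983903025865821829654146609177666305203637673420320175251545768121460219038470854251866932856822403329091363391901230161454007583028292671407159973767654178382992644728729025779556308418664526527098851726356330176903896764408141948030163771128536367984034373316596453511043365170350806913347625736433909966466367845818625)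

noncomputable def t54 : Tre := Helper55.PC.toT t54n

theorem ok54 : chk K t54 l86 = true :=
  Helper55.PC.chkN_sound K t54n l86 (by decide +kernel)

open Helper55.PC in
noncomputable def t55n : Helper55.PC.Ten :=
  (r
  116054092884394336583156738049844032090150625648216124346435365499544699973282545504375272541069663022775301280660379966234528529478630098714432801450145361815446103547674851804586651259818673998077746433722945223522310801097833144261337174019167573866822994223374962226360718938776100670032318360254173437459481276077479790659274371932275745149264020073394532846529391282406222706444737805748994620319447500221889905583441846569)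

noncomputable def t55 : Tre := Helper55.PC.toT t55n

theorem ok55 : chk K t55 l88 = true :=
  Helper55.PC.chkN_sound K t55n l88 (by decide +kernel)

open Helper55.PC in
noncomputable def t56n : Helper55.PC.Ten :=
  (r
  1410542141949721942581341224015314351337243187262090054668818224510647141160346747896884305292289355177579116504636120210101583238127188376444312807984046508948679582111335667043110617701389398293818846567246375499690149641019540955929651105407432236855841557253874089102874000885238648721598058239098183531227233503447351817426645250606790221380211306434678646645001)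

noncomputable def t56 : Tre := Helper55.PC.toT t56n

theorem ok56 : chk K t56 l89 = true :=
  Helper55.PC.chkN_sound K t56n l89 (by decide +kernel)

open Helper55.PC in
noncomputable def t57n : Helper55.PC.Ten :=
  (r
  406562333442176639792573251433121977234505346089584015086974933545480558780409590449080230790232124586414858693961144456341175672223749237698860952253421046181959043410673580397550256273954355831432367025708963415607582352035551830683199012079734418806841712033991470591348257881696500179527969175584458698542003081702493470311576781923617707508357462789355946883947664031461371289897)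

noncomputable def t57 : Tre := Helper55.PC.toT t57n

theorem ok57 : chk K t57 l90 = true :=
  Helper55.PC.chkN_sound K t57n l90 (by decide +kernel)

open Helper55.PC in
noncomputable def t58n : Helper55.PC.Ten :=
  (r
  19411177428087188550277034221369123242389976147154919260761361205883695390172865859849839233844796026089041209581227172589082908120272116871666710961812892868085680889593915942589040446509202588429735124533765716929475228300274232915983595985384421845734466226805027833796905463066389039028257114086288681474529507647693316880618335782845948055900653611501565835925814352371585826390156383421912729497279915038546774819719271883924494025946038212781559681232938268874009891974943542578980200191154546161164731312303493824861221081870789111258374689688551240255755653550118451425408580978628360682445902592965151494683473530442717918686097038536542413564287483395268049629469064071039564343394293318693731708684618380559170751906556957941741512999422362552995407243211240978329164927131826914579717881566087005937185889417588743997647556091494735425920545931436571907545900321)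

noncomputable def t58 : Tre := Helper55.PC.toT t58n

theorem ok58 : chk K t58 l92 = true :=
  Helper55.PC.chkN_sound K t58n l92 (by decide +kernel)

open Helper55.PC in
noncomputable def t59n : Helper55.PC.Ten :=
  (r
  358073022185291961433500259426796027917012574939757767163230000677639699062376241112996607179055931368887866686699551008655485874140534908820078640249282486636106931560360068003703895891107115824163790257659286806793706325019954510558321266470880738568748703022747345658668953440480722557126480478252139989298456048153209167539906428612005734328667716262128540222744703043891292122329034871383991293380161774942354942180144020520320228173396604566410203103760288944520981351008982284942731671453855950425787503577645882509099065896992816395780710699076536631473544752794963872579818799307869534824512432357909739160281405585730961485199847553939447100911730439198243443909640521392456736527065516879076965967296112459568111437164990998555660939426045904188327277076639162046362037808784588545364690172468443586058164220225403191146962707975245784353077593767624919553262438395050155127334511905)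

noncomputable def t59 : Tre := Helper55.PC.toT t59n

theorem ok59 : chk K t59 l93 = true :=
  Helper55.PC.chkN_sound K t59n l93 (by decide +kernel)

open Helper55.PC in
noncomputable def t60n : Helper55.PC.Ten :=
  (s
  775996744363828092855211353765272104332450118228121217923295220451316867087222218666352726478597202336278458576841505961331910770999590950089506286457309091051956061665014481880930054688492615494860242012944796850087557991915009255790843881706359260184659522164226978608063242833705669156032465416594093783154605456998886150725639956637623495019726219033608348228734486469589046998028905381287651312587469502981418614430207273724552870676571791283631265239666779855274541685018301948271497675673072784071061631194135855667287251897291958452258012916900326493017131746022743709144224339998701215900390621991387417019009)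

noncomputable def t60 : Tre := Helper55.PC.toT t60n

theorem ok60 : chk K t60 l97 = true :=
  Helper55.PC.chkN_sound K t60n l97 (by decide +kernel)

noncomputable def t61 : Tre :=
  (.N [0,-2,0,1] (-1) ⟨0,[(8,0)]⟩ ⟨0,[(0,0)]⟩ (.x 0 ⟨6,[(15,6),(0,6),(4,3),(0,0),(15,4),(13,2),(2,
  4),(11,4)]⟩ ⟨0,[(1,0)]⟩))

theorem ok61 : chk K t61 r95 = true := by decide +kernel

open Helper55.PC in
noncomputable def t62n : Helper55.PC.Ten :=
  (r
  4910478385041216638979262555225085623869318414470048314212375042025906528333834085305926447461694588311568023358270234743189665444182165925088332349177958430986270177677192301088068885970206319191573151955684267943393484512452046039927911437920006905382017874198936970826021490145112491006052108710346752866811078214960107694721676594194369260641614941545705334187505524215127565703297954596285410228441190025446043383071295571335299697831706599310516394)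

noncomputable def t62 : Tre := Helper55.PC.toT t62n

theorem ok62 : chk K t62 l98 = true :=
  Helper55.PC.chkN_sound K t62n l98 (by decide +kernel)

open Helper55.PC in
noncomputable def t63n : Helper55.PC.Ten :=
  (r
  2410597633283996340875364677414057354135743583955517348996415804107420799846010757341684377572402861547569572310065812798155006231508339377140534525056358425721448649965618642535124545205625846988081978899268170742230924611415172068203545188861558066950657948412266519520669883856557309304312168110864361972691791149622772397315247790490792696256207099471323226282)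

noncomputable def t63 : Tre := Helper55.PC.toT t63n

theorem ok63 : chk K t63 l100 = true :=
  Helper55.PC.chkN_sound K t63n l100 (by decide +kernel)

open Helper55.PC in
noncomputable def t64n : Helper55.PC.Ten :=
  (r
  5428286521666441774022194521196704419996061058588524384830921141216810204308371521225626794123617410572336182623257258460726739382513322168461570623694274116721443763763868167376164504252274994667030356483831698826637483005045270552548173742098403633303545004963105773041907582451505055895357928340399945102770006191885590162801647576576907467514174779590566754973294104925808675608323690644584324750564635822753055489250624884878648533956062696086657380444007931905703316038409)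

noncomputable def t64 : Tre := Helper55.PC.toT t64n

theorem ok64 : chk K t64 l101 = true :=
  Helper55.PC.chkN_sound K t64n l101 (by decide +kernel)

open Helper55.PC in
noncomputable def t65n : Helper55.PC.Ten :=
  (r
  1318607247257091217681325629267695944942532748457430074348434973257458618997756722358091273316802895732265894419211602386450621050010165496373820358825579095711420203100679709095610934810456608544147869751443638903202403118310467202919473202819228624592992241993270920688964406215801101047704993978994071319209334303557554094660260352013606869174711224193592999460203008658766819476711904248159461460371429360223905772681681002527599735536300218756821223745171541635408432300659352202978428836726404117941633374127349741973892245466459769123575473918580096386036698354837037882231020098000551481273542408667304839088427190985504)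

noncomputable def t65 : Tre := Helper55.PC.toT t65n

theorem ok65 : chk K t65 l104 = true :=
  Helper55.PC.chkN_sound K t65n l104 (by decide +kernel)

open Helper55.PC in
noncomputable def t66n : Helper55.PC.Ten :=
  (r
  244871361245531722986923441909005864142697892994283008757371930330052630221319837486283578643644603955069096705266266250932448182506086780640171521699614816369393637583222307094044854701120176165669844195190142425260824171159494686564373140303449952700729758199556411004550171961099981898004755651570671049052383807835079153174878890328503743223822762045117369881932061000667671268341953304957343041525954888795550354055118168094022908998667503632572957544518684375089258902989078857665550491832687794223946616076430854483914062665895752065165332162715943926681614281194503389266986193797106411970548398367580084495953618024400659963383863779323907844105954928514714588022169136962327636789868297527260937956509024152939019686571155953060481833180896481378360651112340194471169898693433956061549431125076011380430293493328516946815659612968644479109790445450580709822458641343731191031277167551986324110707893428197456902175524605530980531502301426297348865)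

noncomputable def t66 : Tre := Helper55.PC.toT t66n

theorem ok66 : chk K t66 l107 = true :=
  Helper55.PC.chkN_sound K t66n l107 (by decide +kernel)

open Helper55.PC in
noncomputable def t67n : Helper55.PC.Ten :=
  (r
  148812326381015488495000345395029867779946006462099258299369709498501330509191857739000707687673782146277791927450462288058228833482632642521226654963681665349529486724666956328437505204134945457331527054669228965889278527513169275519494221848644305324965172770036736183754826428208226989620913120741992540067864274349445095531793417882215396145336114082117617017167390117821208039095621791818663878081696938734735967957096003286224355658922425467175634221573717815365179422099374470644234708371644043552507440707935064886887434261830382021081137522418014355563271152945128493621789999774872554445535192883387613013248367513203618425709381496409704158953843544592664223689533921689587498132731059632205272315704549341792230180466593963626073881354180208801217575568361528078890966356876629767148423786523898040373777742611218028446768043994306663736979829318382051740305505611567787609451930369)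

noncomputable def t67 : Tre := Helper55.PC.toT t67n

theorem ok67 : chk K t67 r106 = true :=
  Helper55.PC.chkN_sound K t67n r106 (by decide +kernel)

open Helper55.PC in
noncomputable def t68n : Helper55.PC.Ten :=
  (r
  83489704921457046600977546119373818293990931108309787389298694126188992702242199939753787998174397298637949921223992414732560049310610301247230238100631570725121047737719952777331540059940467997938169334929313508138900586034895823799575026526700970672997182814310040032344828879904853933448312444636498822173203462784493431440620824380410919558917770591281228021556793850769908823310976090651186140797995480107889259852794627906311604466737743541947912244383372193400074583918059011799520180013401343324129379079505048485315358290681176909820310841959347864592512516221855269903962153358321550872709054300891849129209206121494215690114893294415981854639323491150508477984267678606337798903227246271407637995970271241442005424120016557557619062938175339129694146831352681843054377847097933190757193884449)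

noncomputable def t68 : Tre := Helper55.PC.toT t68n

theorem ok68 : chk K t68 l109 = true :=
  Helper55.PC.chkN_sound K t68n l109 (by decide +kernel)

noncomputable def t69 : Tre :=
  (.N [0,-2,0,1] (-1) ⟨0,[(9,0)]⟩ ⟨0,[(1,0)]⟩ (.x 0 ⟨6,[(16,6),(0,6),(4,3),(0,0),(15,4),(13,2),(2,
  4),(11,4)]⟩ ⟨0,[(0,0)]⟩))

theorem ok69 : chk K t69 l111 = true := by decide +kernel

noncomputable def t70 : Tre :=
  (.N [0,1,1,2] 0 ⟨0,[(0,0)]⟩ ⟨0,[(1,0)]⟩ (.x (-1) ⟨1,[(4,1),(12,1),(0,3),(8,0),(2,0),(26,0),(5,
  0)]⟩ ⟨15,[(0,1),(7,5),(0,2),(9,11),(8,10),(9,14),(1,29),(5,5),(3,13),(3,7),(5,13),(2,4)]⟩))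

theorem ok70 : chk K t70 l113 = true := by decide +kernel

open Helper55.PC in
noncomputable def t71n : Helper55.PC.Ten :=
  (r
  1540113219503956295297240177240199455023819464036676783576823157201681482600857111060720672186308987616014107782338287825931205207193860982916944021317228610307525962771621810202060440953881364795945538935236328413829411376243340801366827198592156934694598528740005048674858678292354825465598611083410852511728012443149549046939400141364836657423345916579294006571365992602217493133448710185255658102340161978103595384819453788469861081314062972393771271016579737709850650511945347241409028196087623338389360418509982368611831695582990496518066626079198094816104311685744614921324883270193684717027214338492530324718935214480911655151897056619278101449439239736687977921258839082921670910948202065423803746817349103861162118032484914712499199302976337694162281185819915956295150717366304687582042150013386042720991026357025)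

noncomputable def t71 : Tre := Helper55.PC.toT t71n

theorem ok71 : chk K t71 l114 = true :=
  Helper55.PC.chkN_sound K t71n l114 (by decide +kernel)

open Helper55.PC in
noncomputable def t72n : Helper55.PC.Ten :=
  (r
  6880330698378809543422599946814236930866145597973478669407001042011169328984416959445296374556008140045211506820164637932436504095140213736884970864951075044257821911715980826379215103998940779487550615196237394045798137627040413142130310860041271150814653812299696678776095649796964787052678132831966079350231877286656168675568152443656064067659709970969207104343423586114213039206866648232150737453016751510859472186113022248116363715469343966613088724862692510619726097310423302730974395516474098052227721)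

noncomputable def t72 : Tre := Helper55.PC.toT t72n

theorem ok72 : chk K t72 l118 = true :=
  Helper55.PC.chkN_sound K t72n l118 (by decide +kernel)

noncomputable def t73 : Tre :=
  (.N [0,-2,1,-1] (-1) ⟨0,[(0,0)]⟩ ⟨0,[(30,0),(27,0)]⟩ (.x 1 ⟨0,[(14,0),(0,0),(9,2)]⟩ ⟨3,[(19,3),(0,
  3),(23,4),(8,3),(2,1),(2,2)]⟩))

theorem ok73 : chk K t73 r117 = true := by decide +kernel

noncomputable def t74 : Tre :=
  (.N [0,3,1,1] 1 ⟨0,[(1,0)]⟩ ⟨0,[(0,0)]⟩ (.x (-2) ⟨2,[(6,0),(6,1),(6,2),(5,2),(17,0),(20,4),(0,
  1)]⟩ ⟨11,[(1,0),(9,4),(4,0),(4,0),(3,13),(4,4),(9,6),(1,22),(5,4),(3,10),(3,5),(5,10)]⟩))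

theorem ok74 : chk K t74 l120 = true := by decide +kernel

open Helper55.PC in
noncomputable def t75n : Helper55.PC.Ten :=
  (r
  108692070000261073264210907581634955465879120050544731303038117633433383174174908054048801559668772751622735786582426399208560369053312715254617023732906173924082807243768312081369103704504005402860166499988872214470363785834571909655045219512532689048048142135480030695217644224978863004878321525246529220736242026428748393257115945)

noncomputable def t75 : Tre := Helper55.PC.toT t75n

theorem ok75 : chk K t75 l122 = true :=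
  Helper55.PC.chkN_sound K t75n l122 (by decide +kernel)

open Helper55.PC in
noncomputable def t76n : Helper55.PC.Ten :=
  (r
  104985514806805565542946952680476251078358006253068643046768490638223595938706230119316847275648530623233351599650493571020848333986120173823592952997081597760157162491093985168449540601724876767274582582341505943672658508892533428612809172087078116817357593772860438854699551124514359394309615990148623866725216092482900373330294746711977874725360946485133065386179043914925101198867336543530018344304694792796458343515807932387502397072598092973756109710311485641579510533652849388184332496322248827529)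

noncomputable def t76 : Tre := Helper55.PC.toT t76n

theorem ok76 : chk K t76 l127 = true :=
  Helper55.PC.chkN_sound K t76n l127 (by decide +kernel)

noncomputable def t77 : Tre :=
  (.N [0,-2,1,-1] (-1) ⟨0,[(0,0)]⟩ ⟨0,[(25,0),(27,0)]⟩ (.x 1 ⟨0,[(9,0),(0,0),(9,2)]⟩ ⟨3,[(14,3),(0,
  3),(23,4),(8,3),(2,1),(2,2)]⟩))

theorem ok77 : chk K t77 r126 = true := by decide +kernel

open Helper55.PC in
noncomputable def t78n : Helper55.PC.Ten :=
  (r
  20120349842179736601765517484425809877167323685648471221308697027800504816545383947697029095435695294031989424195922166252545631480413973310262567311103275255750202539215749938104439672864565055168459790124115897103178255254840367950698542301911586775650221918154687394788804834829945238158938904722539364909278466055504406017586428779008773916482767369013748609858029893768170208654483041783929875062823138774703343345819758154995666925111260506214598818674460512530623078677613303467185415355225684732010264753927775751922528076009917700158874020723502649056089652025817605919331292566101443568265802422751934260681909024)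

noncomputable def t78 : Tre := Helper55.PC.toT t78n

theorem ok78 : chk K t78 l130 = true :=
  Helper55.PC.chkN_sound K t78n l130 (by decide +kernel)

open Helper55.PC in
noncomputable def t79n : Helper55.PC.Ten :=
  (r
  245354191217481233667000680785294227879963592061915848990942694401834973413964774132998491053133982989658102780526213401130775009333230292111980239556206883622903404884771806638502093445588483801800231810671930727568806131140750300249795775407312651332875925794603362787916963911533509540512102565774074792899557845357223476546388127158512066063619259171375198955726853035181015310672882322170298108272259881275392083600327300712434505371208467104395847276691640227677898632104201199309472930768387041877645769074092364633127778552597938000931195892682003642604202652422414024942625457037418756058706394553551681852142906088094309215296710607544648818440961244165947519000597645671413992038499836698204625133016349431702190966896377567596335922205901364514319508257)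

noncomputable def t79 : Tre := Helper55.PC.toT t79n

theorem ok79 : chk K t79 l131 = true :=
  Helper55.PC.chkN_sound K t79n l131 (by decide +kernel)

open Helper55.PC in
noncomputable def t80n : Helper55.PC.Ten :=
  (r
  4485817883685107302652999836916565566657149109591065264456999051559068957785360514606279805876675727180896255925750795375516613259510934316139008211951453143110758198104574306713168848295291091483754934524095259959058203571393392205525646077489323301572074412440530169734161460661483577584589330916150222626041189489938116207310818980311226518668927174681773583117313770901649809236462959652315064473050101435570426289956182253396350576778398489876860758523092737264834435667269014697892949708457698057333106542978067506408461854264543991484462590725988475425382425840881645216716012130638745003072038018481562841953854110124925506662022087764377621947668767230113968085192800702604335304777515621209711567180847202804655464107108448972066542162417056678781048580006159524813507732225989615651405467399504185417183085010005639470013871284513)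

noncomputable def t80 : Tre := Helper55.PC.toT t80n

theorem ok80 : chk K t80 l132 = true :=
  Helper55.PC.chkN_sound K t80n l132 (by decide +kernel)

open Helper55.PC in
noncomputable def t81n : Helper55.PC.Ten :=
  (s
  9589781415222346109609165443182843268611323687182398276176054341949441411295992352363293043225605129338371831496500316116581787311602103433932429155976707060149608893897252783615631177076503740535406761150439460593959348872803027236366227747673602958173470057632950167047535267103277920779667944797959450366571985932916413254118351616185803394847757619555393736306823163238838487225890577318476343451775884945264686581639934205646601054224760738883573386780510616925634163950586297996722213063936959482843684810845571103175203867620576532591522349697)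

noncomputable def t81 : Tre := Helper55.PC.toT t81n

theorem ok81 : chk K t81 l134 = true :=
  Helper55.PC.chkN_sound K t81n l134 (by decide +kernel)

open Helper55.PC in
noncomputable def t82n : Helper55.PC.Ten :=
  (q
  2075834338078594864240147661622543374990936549558028307159756395868081112193482453423423561085993376371240520880577574688201018830773456080506854296362501559087583280607858446696461
  (r
  5663375003098991999945777484211240143260649260661290791217475860764976389580690047446680264389182295386030111378682954050984590227745577974449886648810403797529814283756274026488837717314731491646112955063679885288904912888359782272694752411002496794716712796405378527351256107080349077926426011466326492129671110298698400495590550410569402466393280691404491214388707132234161158222246089820965295306392785906956024178915149596356448846373607387883251031373437493112775793879694591988030757599446870860891503124363230984689751469141006123868339660935627942286486536455449842912573188055498512670133927763820641219203396392912564669653792)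
  (r
  296615016706208380314459795382199877371377039687386313267132929603105719561446058262581536400395088991967064276110553182305051358278479308508821619210250859447496528552575548795147575451054517871633170023403840465893742806554075524676772106195385740269472926253179388539210160558625700028788233606237971468938427689209011173288664897657172784568593793013120028438465444568846301870410299800437492181964024867570435117801057073559139892360389719365588826942603555613748655244783964971467080309773167850078802509464895290992975543320319349144222324863282023454432607259984534817106199935267621778495288510322194569028513808323000364612081817739643363518742016966793127052688652257821004724350895964281520014578747500179025139635640347139923247728530068484740243102191422187486569723349181217))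

noncomputable def t82 : Tre := Helper55.PC.toT t82n

theorem ok82 : chk K t82 l136 = true :=
  Helper55.PC.chkN_sound K t82n l136 (by decide +kernel)

open Helper55.PC in
noncomputable def t83n : Helper55.PC.Ten :=
  (q 2713904700591245060974771324688155841603998964378863799560171175453176758285 (r
  1186582739798538758552150232153317469099902227299734521544328164024103302389970696984688163202750796931501119608337370521569011312757180778215833852164319269535755911970037188751108960000029273941757728712576403509697949442357304211215908955404688732438962550145326032726093572206829500735128996243527134958873035250846989169188284771593764767554279926380399091114382205613206653599576615237837988029775101288583934590546413558203151455750262807912288386955636964345110290237404599523113816504670633521444803668520020239376743095337124423942091248650629122031888812300275972125006665025889357353541254718406337837355721023645774791834408708114219247220444576905599818024210893751987805460914941920388322071352485079656702240)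
  (r
  31990207381130089835375343989311249207370749943167604533764954760838385114147545810374051321123836140439996172349401850152603792847570611749383337658342421469210280087414131820291379002130613669353493294378294724249021946087621859041776595719118394281275857979121584902537778259922028945308422805790489848991568629607490811451462343231774620785324486297370641199045056832385427171829096953858342741096049262262610206846715755697964677671193016703858673250079871276945464286255914445199322903579501420962134605265090452956537379091230464906514849905019404156697298241365400059036454607179592755169877656289809449862876121239059767045998920986123090210573677450212615313040778548578641023121205042948069595964204177330907390849201696010856140066541536949331738919175620553535701789802582778144))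

noncomputable def t83 : Tre := Helper55.PC.toT t83n

theorem ok83 : chk K t83 l137 = true :=
  Helper55.PC.chkN_sound K t83n l137 (by decide +kernel)

open Helper55.PC in
noncomputable def t84n : Helper55.PC.Ten :=
  (r
  2749247846619357572138517152923417513334233557553040973731068128455209889410263796509662056439583307563959808543335250875956689713122146738995231525294865342707229341401184377232351053979292022633804673891996872358359272910078736503999895480557939188152642209166875918023165676749045699243053735361328284871806294879196193010966895788359169376002827993016374982344288345436442841557686507839782863932328733814725019697031770749813895494155891342973048960849041932740508556219121813614344771187404143945048202198434346671251727065054879005712752692550184171004342629982937923901761137372485356219028462656614514312484799052535787127835442610188101632647456)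

noncomputable def t84 : Tre := Helper55.PC.toT t84n

theorem ok84 : chk K t84 l142 = true :=
  Helper55.PC.chkN_sound K t84n l142 (by decide +kernel)

open Helper55.PC in
noncomputable def t85n : Helper55.PC.Ten :=
  (r
  9087685038181071062804844539823185907851711655494454948891724785784255601594209393834247507393772194345165595647672871684728871975306208597959913243829148621439190105568694801960628322386148781159997852913648589794440187398958964890292640043725472318301813492546410040273155020891830136194433665552713589887071187692667847972610962196894087028220364507600517043785111143887746681133745845169177386165717740072431505037331602360254608395959664675047371067193413325827194593969249856463758040704309778674199314172280764296114716552579822845252918629793931107076063867525569378917881965398495200851709642488874183616696599455711281504298513245455661912846298407920637864084805405642391144293459884111763097834882967231751206881008455838093337950845647528031670925206182349776889121)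

noncomputable def t85 : Tre := Helper55.PC.toT t85n

theorem ok85 : chk K t85 l145 = true :=
  Helper55.PC.chkN_sound K t85n l145 (by decide +kernel)

noncomputable def t86 : Tre :=
  (.N [0,1,1,2] 0 ⟨0,[(1,0),(19,0)]⟩ ⟨0,[(0,0)]⟩ (.x (-1) ⟨3,[(10,7),(0,6),(11,2),(12,0),(13,1),(5,
  2),(0,2),(4,0)]⟩ ⟨1,[(2,1),(3,1),(26,0),(10,0),(2,1),(5,1)]⟩))

theorem ok86 : chk K t86 l146 = true := by decide +kernel

open Helper55.PC in
noncomputable def t87n : Helper55.PC.Ten :=
  (r
  895217456317223284040589048502989895779840930402194779753266085716636666152458350304631158741940255882792811667506919470563367803135791960704584819632252253092172129662964218849016334439491834855616523538245862261577734686434262478627627498761188711617257205426798302354973004323776310736848249640746796997118055611657302830496388369386865778770033621277283708335626269603317876796962022210516694881295600497755388928641438472105783106170639273566198782991394066251514192974542212465890963349413265289258066465009803534797678889259053790055855784062291961282421845827503541580039824035617456682529141265303309081389917286150771039393435756177670786253337880888432317669447622148338833334249918559184869342631609438158651039816209120470454933547634622594088723185870952649362401340104896667937)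

noncomputable def t87 : Tre := Helper55.PC.toT t87n

theorem ok87 : chk K t87 l147 = true :=
  Helper55.PC.chkN_sound K t87n l147 (by decide +kernel)

open Helper55.PC in
noncomputable def t88n : Helper55.PC.Ten :=
  (r
  193031722770855418641854319570469908007922598998262426766319573402932241442437369149096835160673685963071313400108821950137728298918164333401373715064776058793369109392433063742296989476676244965585167792894834307455855071769520015033578161325538165199569730181888214363548016104457503483585734355306778305111169179945)

noncomputable def t88 : Tre := Helper55.PC.toT t88n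

theorem ok88 : chk K t88 l149 = true :=
  Helper55.PC.chkN_sound K t88n l149 (by decide +kernel)

open Helper55.PC in
noncomputable def t89n : Helper55.PC.Ten :=
  (r
  721013666098974104469953231676369685727251920263387209078050621788901362888295547258852398151641141753081215131409493299403289944294216715412986415760645193531419234877939772469804489490475047839130791128078881338421136526392774353914205800481361143891224731073559768857101762143875206366810577589184399786931558874172153788880335602008855658565306646210473945955832860257025571526503524698206860265935388063075947797027636935390562854170896360192791632726276673790992482185948554998401172107426959317426947706143827140078095717164986950256110133617731471818788063832777775848825796159787866727616010102452387681010581770450224172137772557905876529998991660421754480509099034430627792819868994642050226723162836499278490053691758643073307266837703049966288753311403321598721)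

noncomputable def t89 : Tre := Helper55.PC.toT t89n

theorem ok89 : chk K t89 l150 = true :=
  Helper55.PC.chkN_sound K t89n l150 (by decide +kernel)

open Helper55.PC in
noncomputable def t90n : Helper55.PC.Ten :=
  (q
  483328862049884899873817579774599483205034253559427411653339564178768174879295932861718833022102159367214327792654793927732571469075265929972979509038023153031487925911565
  (r
  71481842105687496088925894764625245265268291609470688980490115353331696599028301643301424044396122863854381280144642424213559484054626588783290837421144166875010495390967243039223052650383240964812343548227647190324783266161659874599256181605258664498826040227829580652478809964963942583551200511081333834255744049829994835098682764092268213475310199269412661048363445091661727990481402766075057434758984630775374318153765939189421209227090974195552067302752362671216533833492717697551817257793530599488875962411300565361654004424897732019229589076696199907898866318705984407976372072648938475870424275886880)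
  (r
  296615016709843165920543546533222628268537263070785728056217988331951303988320028995867324854007651595337805115064314175478345431126786601258656719252588679001378064979018120723483299665836575842194832576305722050963078489645865114348988416677215394212810754660044138015932269438985845934465202355020560746843576108750711555113514362306913874019367738216185679468598530589766290699388834090315884252061398264825261644604764430731307179034334445942340159841530441675180639057565765175427303085293129867030887126377666103039152528890003654925584501141133195658984321109648666871580926035996279593076669995468351852739037679336184242360112652558342757158937983565020555638234854918423143715544745289882948979954968588142718787818142878321997979089327473433939824294198391433797032690421867297))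

noncomputable def t90 : Tre := Helper55.PC.toT t90n

theorem ok90 : chk K t90 l153 = true :=
  Helper55.PC.chkN_sound K t90n l153 (by decide +kernel)

open Helper55.PC in
noncomputable def t91n : Helper55.PC.Ten :=
  (r
  5456837243344066671533454420281076931274808108749706098477097120902905810017200413255539156100390048992170608698515635400283092243308303663266644372508512088339416012884267074760028185799221883629928248183275117313449529881904541152534692780277482879560902372761504761526502134750126404636153270913425189649438654821075413310613820127251644274127607008246175299264319020224258276037439004873)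

noncomputable def t91 : Tre := Helper55.PC.toT t91n

theorem ok91 : chk K t91 l156 = true :=
  Helper55.PC.chkN_sound K t91n l156 (by decide +kernel)

open Helper55.PC in
noncomputable def t92n : Helper55.PC.Ten :=
  (r
  15034261756523424208483343005899137683297470566609408295919031820416843432632701514356418564840383170010390016636853510617663491216501986980338998299003805604836106152846039290571485217008087305493630347918708740665322663206815254338130323918829865621911158093564300943120359375730048791167288474049966680675852101312555221408094617840667601833453445290)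

noncomputable def t92 : Tre := Helper55.PC.toT t92n

theorem ok92 : chk K t92 r155 = true :=
  Helper55.PC.chkN_sound K t92n r155 (by decide +kernel)

open Helper55.PC in
noncomputable def t93n : Helper55.PC.Ten :=
  (r
  2778985850676075212124405245254523427363530340908996642850024214908238828913860913216191852023530420718855726932984954781924728307906446329978219404584183516102034092426879806234635252437655276514061948539562634535594929981566803430159144388569303571298347881448517899349513195940516712499945484395524509318906461891801845205971279696249002554591698055147280599786150472448332967170771978025244821160947045753589811606840657948490491274884303035967526495659830179579757823422357801)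

noncomputable def t93 : Tre := Helper55.PC.toT t93n

theorem ok93 : chk K t93 l158 = true :=
  Helper55.PC.chkN_sound K t93n l158 (by decide +kernel)

open Helper55.PC in
noncomputable def t94n : Helper55.PC.Ten :=
  (r
  20120349842179736600272992255663908509844104486985893354238872951421720768048204782167267274636725648021390058450588543587794636092190322769692564372137602187095383493041974312587114265328871842572260930461999839363141012627502565924596908262586860065882796473774204565781937592178744597857993032141329669015507205899042793405946732869755338160036608247814758160805943217298723216090829590600504962162823377949853934592630738514313722329589074334851467799636459563219583329664628858101524509579270391488214534857046949741031973415667706512813799081880118477612009987813188542482560062672559588096351192608539227389477790496)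

noncomputable def t94 : Tre := Helper55.PC.toT t94n

theorem ok94 : chk K t94 l162 = true :=
  Helper55.PC.chkN_sound K t94n l162 (by decide +kernel)

open Helper55.PC in
noncomputable def t95n : Helper55.PC.Ten :=
  (r
  4525985972800872063153953239646655405646236478836093764510862306501962614467920322379123250667956042761381482106548860725462167562607648227489661494951095922918408021502073110250883505337969351273387928555863625047891607105161298414896678312677189711197617267054513109546978345749478281495284389284443454950361544027843553000722405816829277633952113479661732563385211115333760028682126386498491951027913214204857817893450947584792778233683757479391400412884519142207705736997943152676311537018367861957576336104404635945248910658572403619506152903893336214756774528105832712641552762771973864906748052427115244659411509039213510379574756946168586505418251074784094680909579384195349746294476809415766727965934038074379241193468993273681034848618991764212395775229021305063977290310433)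

noncomputable def t95 : Tre := Helper55.PC.toT t95n

theorem ok95 : chk K t95 l163 = true :=
  Helper55.PC.chkN_sound K t95n l163 (by decide +kernel)

open Helper55.PC in
noncomputable def t96n : Helper55.PC.Ten :=
  (i 39609241422143334527900188679 (n
  3239523983279316095683910574025430465920283209764907884620931) (q
  36104942498994426032945463696918481599185546040896226485407439799190019374717568875688614214941167542973402932231408290458130484309853939577563154215384350051139597
  (r
  292084369641200744276679164240294405507128463851040821783477030479175660875637152571560113793504392669874517781885990341952498282045889071933723034013518664987485083472627218631339928772208717116941976988344427670665950884481620145499972235398370954320750569944945532378023059047504002057570844259081736060649183552364910412659584020993603911708771509425891337115197156946156865907939923026508748995721601139629711812979451787731004843637777751942395147547192800633535837328234154781362908380642614624534905580240497259794918913306348161787745087888377060525304761257172816380100265952588039734858002968652901055708981793102078300234397880412963513583750663844446624430024007374712787849620448741949819294714789016530219585761137798685441)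
  (r
  2132851230150010162733033041331766043424870950753785280189936555125619383161376434260517533432585070730193106280928173674832510862771423391919416099129948738346381679036962558683574404932266654932530341895202768938243166216398339061196998292878717070155086326591729342665590417185404592523893203651771711945769306601792766104771331075177058429798029533691208938652530438429541890873966033675079838376949138458737968799807595785217082351850931263159176601212853789794509872292820913706232182926375425431704995035545571577691995088981687659714209373542162064478788424647146895522740534750546268660297278304633039139205609313021242433677693546818560571353162576730025133797432293050934257386888807058794323002072673685149902740864964849085571770308800147491185600361646592393232176356571803737275203885464182799528491583093690687218679958074959724831960202940691978388503875590013753851175638556614402570570472282045109225009428039875382652372204473555163911159457369941800638406301413157636527552630974637778215314993177345)))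

noncomputable def t96 : Tre := Helper55.PC.toT t96n

theorem ok96 : chk K t96 l164 = true :=
  Helper55.PC.chkN_sound K t96n l164 (by decide +kernel)

open Helper55.PC in
noncomputable def t97n : Helper55.PC.Ten :=
  (r
  192310318672393821706477368309335474302025104513823379911214321477644701706346521286844237154309228834466297654921962945892329253078810545993436851417431959537538320994395544252615438529831390992691018333781521064131920270460139964686979587643261301412462864076123323807791073177214603265653046914255199501054929530274828068497501372249969323938278185362519292940212198784824521387069347788287349566516334391995585310761614140648765195573194309913878133363113843832819527319207293976657985449618155018460226516760940282154174005516057496767761071137910139389196655423415555230125973571914348790142835662976160540920061339389272366022752934613492054288009648357729790836459916598763153638120860019654233224869676815082967258899899771386214874604840797565070556323555189034471705598942651331226135803182663015715877617837191801591061686895639820414913436351856221478506816315199547385414148865)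

noncomputable def t97 : Tre := Helper55.PC.toT t97n

theorem ok97 : chk K t97 l167 = true :=
  Helper55.PC.chkN_sound K t97n l167 (by decide +kernel)

open Helper55.PC in
noncomputable def t98n : Helper55.PC.Ten :=
  (r
  292084369641200744855738337728892647181244966069924000663674050627617819137967065613996947425876978129827730548418394770314630385701748187635462118347088742889096181958563145021545720096098060308290256480474187594456660768204820173836862542879887088503122890846558099656526289075200838587019378317501360163180992716033462985196251551405530065643029473497459506152628905165616156996312649551116869624924820611155956739610562584208836568887888926884142061381933091539478803200871851804218581548571130259878301499450343547274322396253185619001329116423226710897373215094235764674593197263891636176832864898976827585953724860675351835208446975646624868690531937888598609141743164111643759727652528764155224162202032680870496284430530035065601)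

noncomputable def t98 : Tre := Helper55.PC.toT t98n

theorem ok98 : chk K t98 r166 = true :=
  Helper55.PC.chkN_sound K t98n r166 (by decide +kernel)

open Helper55.PC in
noncomputable def t99n : Helper55.PC.Ten :=
  (q
  28793050002205605122053672510661011946094015746518501151394756184345992461062639252742529125994550463837845885646861095323459903307216827204560315860036245147222029
  (r
  62408201541751755388288304266799695606252726175344320664053439390436909410205269130876293864451086803971634477919094832749101510492017460970549295449739047669956111984969856400770848953780409686191588550083927056579045140741457658989002032525462229843934107134041432250252179799389551467480860294705290413460075038382350321646219522999861256929622432233691790899148422366564318392665129900105264075741827722331825569362388092208579054037178734442461404310241396054720746818180777790500611814839352494012350176697859553113093352093671852790025756155285445209150706351059006596138005075032216474955262149108012998103804138123244188530550059857668933758510090512291983810324830517709555951572206943759210686201553991110449202834423682509343130048434180692230017543220999652854018412139857586425157701528327052679253181973816586751419123527585088060729032529112139236355906782345743938752370982665650758458113232585777305871105)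
  (r
  68006191782533614122701148739027298111418157283691262636715731394937444932655393862503470362161784874040427565808042266392304344384245199174714695534635116334489881312957601848620383332255863480860681734037065553218622728280917118344578427255028938030648889661253423509246368963777585593649323833941199896750390353731540939577596057303802091780461568532505663517021206940989226872740448774243461679344685768126091346739363277256561252811125088942055549211605434813561044442426907257860446066519398168975583661618814108984392308606827211782532086348896655700187395250302238532269090002557615267729585703854454179957618524330352519914687033535955146670642157359664389431119935150025205489853861884038037610515245964600927051850497))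

noncomputable def t99 : Tre := Helper55.PC.toT t99n

theorem ok99 : chk K t99 l168 = true :=
  Helper55.PC.chkN_sound K t99n l168 (by decide +kernel)

open Helper55.PC in
noncomputable def t100n : Helper55.PC.Ten :=
  (r
  184920334483220823375676533506353632164570519368385015446395634534209334909001544155251462273046512086575973699240727160866119985267940396105992700945761865178282447714731700709698120945224722409153169413136204376258982522126230014152582125659807342946510987542769011087493019874343263798196916948724811105406344026873191767915384028065622435730164801109947388770679881074518886026509577102789569605882895849337707788504264420053888222441133655476828715612199350034386939240339190606083336876684462451053161220667375930422443781602977017330719673105150475918335148856382985195686650657063648000753263495063265568)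

noncomputable def t100 : Tre := Helper55.PC.toT t100n

theorem ok100 : chk K t100 l172 = true :=
  Helper55.PC.chkN_sound K t100n l172 (by decide +kernel)

open Helper55.PC in
noncomputable def t101n : Helper55.PC.Ten :=
  (r
  6614735909623057106680285403103446153486153071650950672052444776085112154454682664055114273623707768662441457586004220757168647853303797709713120803508184171588444559432977923413627554658506235764645562213832751025613378055757662145697498686229427402564736900221303391319025281897116937359089835557188044101382581122921378981213091269662630076774596553078244643286608931110562659924309068441245690858222138839125294927433144050215239585455994852208691669899935475872693095207886309140684679322383014848842394331502081612053803787973654747096973362616332893039063627858815637424005416878761580695497983203819779127144052928439296956940147238968243871396795194477396747189040029189043783060767354092446283179053752939466879330387738995473258888933473982333792521051761675053137649826946394769223722594377927997117445261237964209136417)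

noncomputable def t101 : Tre := Helper55.PC.toT t101n

theorem ok101 : chk K t101 l173 = true :=
  Helper55.PC.chkN_sound K t101n l173 (by decide +kernel)

noncomputable def t102 : Tre :=
  (.N [0,1,2] 0 ⟨0,[(1,0),(4,0)]⟩ ⟨0,[(0,0)]⟩ (.x (-1) ⟨3,[(22,6),(7,3),(21,1),(5,2),(0,2),(4,0)]⟩
  ⟨6,[(1,1),(4,2),(3,0),(7,4),(14,2),(1,13),(9,4),(3,4),(0,3),(4,0),(2,0)]⟩))

theorem ok102 : chk K t102 l174 = true := by decide +kernel

open Helper55.PC in
noncomputable def t103n : Helper55.PC.Ten :=
  (r
  430145337645575995264084081728804834144033350807800064726496082697220276664076869780276958872090823782166432018397579263211036779096715572021108376738235318288295024777263333291325567587754951113712477796478232767131030812116162072242282669107109348720145836793392050286505769256411732200747657818012893143534832934721579049015762463907671750209651110779803183161307912713468259458684348452606865143915047955260918218332890097824472990286899363290912317260797647127873057560000608369991545316530311159095561)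

noncomputable def t103 : Tre := Helper55.PC.toT t103n

theorem ok103 : chk K t103 l176 = true :=
  Helper55.PC.chkN_sound K t103n l176 (by decide +kernel)

open Helper55.PC in
noncomputable def t104n : Helper55.PC.Ten :=
  (r
  12343325956600020275942117156592187125030364293651503437573718337145669747158307820726543712446381749353629591215501968865988195163706957331745369372621084308465201760050566023248730789882703717604722988379458342394564362326325052133998470164508195866499753205337861552663537288886385471837250711570514726943382699367765557234083250519632111246994957850653457098293032039631039278771517687112858737377502517009615769493507483090707511907614008207370451739706282825082661730442622820836506896889413424796571364091560262224299230987512764608693379243428924311818828405516270182217923910063158646438551043812867973469215166141702776633387051724108303575098791800399713859303260838243616775034950241989853176097)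

noncomputable def t104 : Tre := Helper55.PC.toT t104n

theorem ok104 : chk K t104 l178 = true :=
  Helper55.PC.chkN_sound K t104n l178 (by decide +kernel)

noncomputable def t105 : Tre :=
  (.N [0,1,1,2] 0 ⟨0,[(5,0),(21,0)]⟩ ⟨0,[(0,0)]⟩ (.x (-1) ⟨1,[(9,1),(6,1),(0,3),(8,0),(2,0),(26,0),
  (5,0)]⟩ ⟨13,[(4,3),(1,8),(3,1),(1,5),(5,2),(8,7),(9,5),(1,29),(9,9),(3,9),(5,15),(2,9)]⟩))

theorem ok105 : chk K t105 l179 = true := by decide +kernel

noncomputable def t106 : Tre :=
  (.N [0,0,1,-2] 0 ⟨0,[(0,0)]⟩ ⟨0,[(1,0),(27,0)]⟩ (.x 0 ⟨0,[(8,0),(5,0),(46,0)]⟩ ⟨3,[(16,3),(1,3),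
  (0,7),(23,0),(11,1),(2,2)]⟩))

theorem ok106 : chk K t106 l181 = true := by decide +kernel

open Helper55.PC in
noncomputable def t107n : Helper55.PC.Ten :=
  (r
  994342091762769574643961470143383780896040529003464519829136638314647993496427675279251405307556386685544096291684881142543571830206609697046503504244355407043205028167136720641614804645308235395352664714307393222337963045584394084944140475113732856951673743042106310291761833170716969268598548720910937865533340579478718803714517396455222990951538234725696066263943443929359666605894741174637291275482557982220651505497972668140453942485254332296805989629959843690729438552304128637808948793295318112294380118337318929853857419227886133199073595891405919195349962231252217305481412669293844249764111670991746314873571608231502690133046711840173522790598945352354887488936083975533159398047694015823883982000087530579910315254976625287815127884840545940119172457687535594602310847889238853354710012409576690808474597896508963482472012279214276523882429728279012416154216702241)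

noncomputable def t107 : Tre := Helper55.PC.toT t107n

theorem ok107 : chk K t107 l183 = true :=
  Helper55.PC.chkN_sound K t107n l183 (by decide +kernel)

open Helper55.PC in
noncomputable def t108n : Helper55.PC.Ten :=
  (r
  51161001504804868419108323519396743608541708118043959587617063412576298527893848536878870357046586979482440715857711323840531171914014907276549781468271312695614086409471508597750380788346791307713364839191852490597258516904503986728968313414540788088586113397816329906995634590966035893979232163567181143210539784567093161315048193381227205521453057358731514068058016936810462691833796549853366781312828976749339638036464224348807777217433240835330609435451008201577144973229830243205168005088958172729104362400401950822035057653752850875035977302653069693930129714078083394428212963447535305390258438120355460727137157706492894098508054869303047554423848460796283687801987029411171427148065)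

noncomputable def t108 : Tre := Helper55.PC.toT t108n

theorem ok108 : chk K t108 l184 = true :=
  Helper55.PC.chkN_sound K t108n l184 (by decide +kernel)

open Helper55.PC in
noncomputable def t109n : Helper55.PC.Ten :=
  (r
  73955063115893233490386442736772792293339284526927373791631560521186255024318961402528527570852277754616825395218145144220609692164363782305507655335454136569119805996956912267592232178052052542162658288379973818909140874137555093246952440065813209353487058175179500195331580143204738919087779570559639186556344620311058153497552701359939369168185558248000346093865672905)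

noncomputable def t109 : Tre := Helper55.PC.toT t109n

theorem ok109 : chk K t109 r175 = true :=
  Helper55.PC.chkN_sound K t109n r175 (by decide +kernel)

open Helper55.PC in
noncomputable def t110n : Helper55.PC.Ten :=
  (r
  433503332567744425422578565877154723391534789108120340454369988071034555476901286242810855410741771882245893963305061813333800371531338559918965868503961560285411770475091977039976060130914052543449301288228517991423091686585605076083637592478199487585453033356850993807517410095867395608182351680086763677276051652748764053116369931708516568624077796300645766891687986677415661709779422231295073715672920397313858828860192656150891453295586847330007040598134647565176677624910046802395577620929716329825003148264792202686013696472735107575597652245840504277354848433170762809632060698495527493554417887870658948340094093518492316880424318214106339758374921091053844893633643270556592570777513184164073043423848092106590411295830526356102212720251296762870794077497126131776945415596878362092915812921233527834850120583491137403336008481)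

noncomputable def t110 : Tre := Helper55.PC.toT t110n

theorem ok110 : chk K t110 r171 = true :=
  Helper55.PC.chkN_sound K t110n r171 (by decide +kernel)

open Helper55.PC in
noncomputable def t111n : Helper55.PC.Ten :=
  (r
  2821660377246411489497017418004663576729896840948257681982355263278340681594872194751761814469093507180419520557262072156770629658019110048004039015896024554111975825725276194911165175555797155901385031328372259159225197175998382784310640345150868880409408379253677537345779722203724118014479323610196550386350160697701525153580293410698803837432989729294191438884144832057994968638950088854867224018677073898619399699113101062357478375693165628186199187491866467209148879596935616194715371014945398576823190364345782531131332659364599781565021972389887274967444581538138760434714150538175344201974447071520)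

noncomputable def t111 : Tre := Helper55.PC.toT t111n

theorem ok111 : chk K t111 l186 = true :=
  Helper55.PC.chkN_sound K t111n l186 (by decide +kernel)

noncomputable def t112 : Tre :=
  (.N [0,-1,2,1] (-1) ⟨0,[(3,0)]⟩ ⟨0,[(0,0)]⟩ (.x 0 ⟨0,[(4,0),(7,0),(5,0),(38,0),(5,0)]⟩ ⟨9,[(1,4),
  (1,9),(9,4),(18,9),(1,19),(7,3),(1,7),(7,7)]⟩))

theorem ok112 : chk K t112 l187 = true := by decide +kernel

noncomputable def t113 : Tre :=
  (.N [0,-2,0,1] (-1) ⟨0,[(1,0)]⟩ ⟨0,[(4,0),(44,0)]⟩ (.x 0 ⟨1,[(8,0),(1,0),(0,1),(4,1),(0,0),(29,0),
  (2,0),(11,0)]⟩ ⟨0,[(0,0)]⟩))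

theorem ok113 : chk K t113 l188 = true := by decide +kernel

noncomputable def t114 : Tre :=
  (.N [0,1,2] 0 ⟨0,[(3,0),(1,0),(44,0)]⟩ ⟨0,[(0,0)]⟩ (.x (-1) ⟨3,[(21,6),(7,3),(21,1),(5,2),(0,2),
  (4,0)]⟩ ⟨11,[(1,2),(1,3),(1,2),(26,5),(1,26),(2,0),(4,2),(1,7),(3,7),(0,4),(4,2),(2,1)]⟩))

theorem ok114 : chk K t114 l189 = true := by decide +kernel

noncomputable def t115 : Tre :=
  (.N [0,0,1,-2] 0 ⟨0,[(1,0)]⟩ ⟨0,[(4,0),(19,0),(27,0)]⟩ (.x 0 ⟨0,[(0,0)]⟩ ⟨3,[(11,3),(1,3),(0,7),
  (23,0),(11,1),(2,2)]⟩))

theorem ok115 : chk K t115 l191 = true := by decide +kernel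

noncomputable def t116 : Tre :=
  (.N [0,0,1,-2] 0 ⟨0,[(2,0)]⟩ ⟨0,[(5,0),(19,0),(27,0)]⟩ (.i 0 ⟨0,[(0,0)]⟩ ⟨0,[(16,1),(15,0)]⟩))

theorem ok116 : chk K t116 l192 = true := by decide +kernel

open Helper55.PC in
noncomputable def t117n : Helper55.PC.Ten :=
  (q
  6892925976987285351714628043577835601253934237950057708872280839184794970739590140993181973914024587907976975965300271571545983780831504106914971661
  (q
  6892925976987285351720043414074165356255070004389937798197454185346356636454685685982938629781176808680606079812822929206279615960121358077561012237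
  (r
  62306067587582550437908790522792658468233410551500610612925455873195818057811467597920482294225601320922808166690517160362979632757865289911580450691239323171825016755686215866510073951292117356676511856103941877867425706367740779097216720058986101130740655266393764181337241518853369059323410852958623162003790686045151565197207309099772296481882323687086798898894401648015151571614856261523987972472176983731561922727515107837568360713)
  (q
  46527970894730588992675234524173668204123866147858398595018711819410447454642478476417167200047995593114614160433669746293579001425428493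
  (r
  45788541255598573660276896094605219321653605270218132714986156416510712378078366682731829594708726596425830905114911727456332312266884926155209762192012480714144735525153192251395343615321176711046255384042037470235328035985839781934191373674910677505197299326863620419656131913444813464545536427426153856231179717615669873708994026338235582313831714854045237156750842551474615332623987845571551529)
  (q
  46527970900145959491526679443357005147106208298190838243607624324632899717235063453090043919023123842801816453098043163303211823853076493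
  (r
  19750401319841967404329720674434156482424776871067087099084567431175831025157205958314807149850008501975072871737941800812919185635665680364825990264725576173363686651181040263386536360392360438417181653532778164772883185219784686568244157596422186273568897515676659525835947458295892123646361824503079858990154712438280990035748625315785957762762208186890445402809230827185332345915690914574756510378462116272648778640023677128447125802419391810894385030750598341417)
  (r
  783979791392992841239119312694372714555801978184659179420817372689955914622097855939326570452138381674056065521549269577691766328792783171559008560833753576094940608553637656303100608341127332541166122412146531333210983498633782785598578303332512031088154377729148059224581084215887307957950756935061336477946463850795068402518949798253153960428677597092884827062597306519964407291593844886622035233225953550547022728378975403427794900965138633))))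
  (q 28951445578888901503964568611216044153645427638217914969319717166183102677004 (q
  40557961420737846601836884251747278286210015757082505576499138883464713117159923072615191136195641572741010971444155901094538766605832622607968632845
  (r
  97094826554800407677866712986057935320992577137596361539464700491791718371731427808915592283493523832649764560120291445144152268573829462812584586177116820285095387577364581414172707149513611861010554212436985480105264483844221374456970827786175186263450665733463277084930971150412267500648881673706884339686187372361709486328589524172144496550888269632306464190068190570976401918124430355582984538371427950233687563946432494870495751727300745938669157457536853199209395434455635328582908257096495678960144098666247218674100072829280784917532413050077199399390065817154594639070859564171043369000751196007808135008905478171953970689534298729987645463820208039761052577328948639741875593346145625374435654090450979804111794435093344340705424502707753155117487789287441433293368822309329255686370497261720909893144421121)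
  (q
  46527970900145959491526679443357005147106208298190838243607624324632899717235063452994251256419530967013810152439376555154997175052795917
  (r
  28498949670436315100405005268851525948812349733490595623895319974126115650665288271778751890682250995238277054848418742976402356101182434724964631306387102538244948853787718412633013408058682497570992077332937438359259286276966504210904596867275531050708900570504025075675274269551638424397028240013675389700048880929023233144006870568368538052179823069305106781255951310548451098075300118495256469840169)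
  (r
  1463616705748339375455010847873382201559739279202071399689833594693865842238095322443229766617424619532268485718264675960961065692169942324327893645103745833779981830004366106368315386798047661058086228803820530599250643448115831260395143986997352997364426009754301506433462680243409304621499739694398875879348006865839040779584978408182678251767005874692507716973147624518698420937481)))
  (q
  46527970894730588992675234524173668204123866147858398595018711819410447454642478476417167200047995593114614160433669746293579001425428493
  (q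
  46527970900145959491526679443357005147106208298190838243607624324632899717235063453090043919023123842801816453098043163303247008225165325
  (q
  46527970905561329990378124362540342090088550448523277892196536829855351979827648429762920637998252081855194858711252111346778534140051469
  (q
  46527970910976700489229569281723679033070892598855717540785449335077804242420233406340004694369787466388214737768123389174280412094136333
  (r
  134556317664313087899332387577570739249718520695399966629834364199603333752767421523101028955948625271538355127135603435759987962806722861657533400104258961761515069642183344611422487573943074050078433245182256461926657892039038006303623011138059440078123827358970757326308616061195557540290691333700188160695249099809220940082425553364737065663650391501579049)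
  (r
  5017348889147808526240415481591894484282768678366332867753065161991469559177676156549032371060079541908694131192209325026856125777918940136566781062328908945153835079015352568965020971875903789893511742797903992416460504275484132867831552166447384688569817208394007581447444066908130042658501156105449907620183010744005718347968821181437095841053439340746865316247274534550875194285028705998375588967573623079341111916785275037808240710317158819959869780163755953383859102445437419703709303338476964677307048863251474445493827474198577725405939929310425849569129760299773174108856510996816169))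
  (r
  5777607059934340854785102872987087923578137292356841828343043283840855238103917612020620082307934142422584925139749732298249969731620993709849648770302029598306467944903995809041718585097434523398428466166891182904609812364175877063730953317260073951079200099768421027330515215167750694079287782809758007276216238989480353654778504259497541552581261385875612444108530441))
  (r
  4408065297152353830849789422176282861883087972509323914496881700325614507901091563746351871404120114612174712120698677586763500422828039225643932866147751287304935888730513907075182777702900376931119201048378034589729348268461452814353359249310155374749975805568363903817360273727705914256522254211769013566028320171702105496707572775216793171718593199554806685993))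
  (r
  49100354743319444940056935771769683259213778191878012261238972599381274655915983387542543816750862137194704798550431929555846719361216055567319494395577487819715874194689617400947318592602046249224718097361090294006682885789847240843639852198002550859996705597245109304824506778754715135955246428822353727470096939484318028485195376405891589328319286900549207004781271959698525843367852138833744736381535965352367765591397021977951242734254313937975058378455872492780552382957122449076006258507231703742450656492445809426179552822332120546953744694911785))))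

noncomputable def t117 : Tre := Helper55.PC.toT t117n

theorem ok117 : chk K t117 r190 = true :=
  Helper55.PC.chkN_sound K t117n r190 (by decide +kernel)

open Helper55.PC in
noncomputable def t118n : Helper55.PC.Ten :=
  (r
  104470829274971039950027118136776344223387390906246662020866158573010521275371336478701962337640854771625849411181518630328432923572721039884617829344323044858537241925864218140445856735565792511104503873941909151113097151305634310051704654375558116248003502025200963975783323079685749225843922264766214245987859863317867928589362453736287478344054312214953104405399271436113324365157935442290616773942382349132154985380210709120765341081028062102837310079073658508905438206459146228040079696362922979605108011883211206010280668747543506350506013809367728392793250756015247901527473951670414155901548981416545984917911326640347303665760405493022839831012128)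

noncomputable def t118 : Tre := Helper55.PC.toT t118n

theorem ok118 : chk K t118 l195 = true :=
  Helper55.PC.chkN_sound K t118n l195 (by decide +kernel)

noncomputable def t119 : Tre :=
  (.N [0,0,1,-2] 0 ⟨0,[(2,0),(1,0),(1,0)]⟩ ⟨0,[(1,0)]⟩ (.x 0 ⟨0,[(0,0)]⟩ ⟨3,[(10,3),(1,3),(0,7),(23,
  0),(11,1),(2,2)]⟩))

theorem ok119 : chk K t119 l197 = true := by decide +kernel

open Helper55.PC in
noncomputable def t120n : Helper55.PC.Ten :=
  (r
  18178377679063173749632376679150969366101246821576288330852200435952802905851170854041184809036244827744809696108319957702599284231097913607503319034186995477173637800204396312429679216102918209160776630812482423853969269868493769467889794926195192095187006390085023806081434412225412702134720458549206940486519308704882775210698296708377659619084013344560281782069346012127723589823731787729327157678331775768505558712581827183548879683216521942831541414929786788646010220509243081800050404775227502725192970136173684057408375072729811628429648247679616787477592216841598839565437123183136396433764227219821500293408)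

noncomputable def t120 : Tre := Helper55.PC.toT t120n

theorem ok120 : chk K t120 l198 = true :=
  Helper55.PC.chkN_sound K t120n l198 (by decide +kernel)

noncomputable def t121 : Tre :=
  (.N [0,0,1,-2] 0 ⟨0,[(4,0),(1,0),(1,0)]⟩ ⟨0,[(3,0)]⟩ (.i 1 ⟨0,[(12,0),(1,0)]⟩ ⟨0,[(0,0)]⟩))

theorem ok121 : chk K t121 l199 = true := by decide +kernel

noncomputable def t122 : Tre :=
  (.N [0,0,1,-2] 0 ⟨0,[(5,0),(1,0),(1,0)]⟩ ⟨0,[(4,0)]⟩ (.i 0 ⟨0,[(0,0)]⟩ ⟨0,[(17,1),(15,0)]⟩))

theorem ok122 : chk K t122 l200 = true := by decide +kernel

open Helper55.PC in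
noncomputable def t123n : Helper55.PC.Ten :=
  (q
  46518388180024001298898377255569486344300344926399336752488614913336577289656073608728142313036289609446417257460535402888932811599904781
  (q
  69777227357483421798998467504554878183194750260451663167241822043959643840989459890127062772455494810310055041661461444044847663760670733
  (q 13569413071644628382025391917570023199046818057730149942387571982271760433165 (r
  15894699926156852147975076420710016374210949119807367144533026730233860764068153479431141793798126444378709824820303190155321980473270134277423004134458940233383256128777795517195291928586897001322949259133694833260733543779380973527458777347130134628137979228941047689363507494282866742608972353802663850912294700597309698608380733945718425654673570146880471021146817090239343608742937880254411346499233102601572039703644319762296319354965791239524696168172212805776535941344648930100307261775567370594020613565284736852082843204655210185772822618910141129398141560172755493961686924863186421928498873192723632801788964270141587516164940915491188250502651737739231134954284138419159053091188187400738492654691045763710062923027288409239200513)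
  (r
  42843723290598300311771616130871007629865885232393822084904241041004629782680756478145000828311276287391151327321326082698326927104703011182952261552945313306633940565070822485714224215497161158833023218660523388586905417971512500604857265580513631821491583400729693069444084979897300722684483689031541658579406015962195596639121394735958617548440560817053795216036491714437574626109864553812299804471173596486934587472663417056872016491982186730505709537490954842696287090444860243023815206964033671887847451188971540102058409497436012629388892992408761000633207365929))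
  (r
  10658047830108744933866056707411601189684419731659688538582417006697150180256816624069479241802604638163243845660643410056446988569517995544786354157911949980155890705085193779972679760718699486371510676808382781438348735264100242022588650886647807164456778125083729783145874302559510207760462693674374028518581380076310852102703577974907396148729277721454246736767797176493156333342958377))
  (r
  596408525982853563624564260237080425840862643409591896431889970550478672041558134269153041913085375640386489920356165124209050202019224833932780798767341130774565974342811389919252918194773126854567991139916338469108535800670472957864310951457206182702287441913069786393361063850532363932432102067434729600765922247090116392760023097689089608844343143979312720670144660763332516216791121073820062513332181400203755884158816242028328031736575672657047457819397729092360158763031215924030733726008105019203476062449935508009825342123720050474262740997442640420843897494602245280870983895276212634063550758066404212339290258026723514642960521773461358575243077566505453670603974933984706666653938909129282021850565430054812422545730655335944242178302721))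

noncomputable def t123 : Tre := Helper55.PC.toT t123n

theorem ok123 : chk K t123 l202 = true :=
  Helper55.PC.chkN_sound K t123n l202 (by decide +kernel)

open Helper55.PC in
noncomputable def t124n : Helper55.PC.Ten :=
  (r
  315596727476876745405110257378809822014935904838430588287051132494673274222960199054198851065721891119132269646249164247895182799843082878285473637956075689126930378684296502666708025052840757441858455800877906861902511780345645891698991735699754841723820341677618207724007123838432525599286096002876301430425529610694122404341854110458795177118866595734176557025277750278795900963222347707591590004681943630555144206384398172798655752858106595713409548884910855344679850989165367734899923172518054433086212427699322338570222555308262675216985265517368424586935606259670202998190046277087134667385272801059590627616)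

noncomputable def t124 : Tre := Helper55.PC.toT t124n

theorem ok124 : chk K t124 l203 = true :=
  Helper55.PC.chkN_sound K t124n l203 (by decide +kernel)

open Helper55.PC in
noncomputable def t125n : Helper55.PC.Ten :=
  (r
  1752687132687729603703126651385792764797484202924436476888286228493847028169481977996856085533930308613484796550794368742461661064458459784905321407718757296177086548713256981102166732715381585502302706499838185978701184060594716127354076430844216133739842662868676039966005906413478991202677845265470539234997182958484586084363632709338979718611729444059891689293054861373987216637997017283413383699846182131360468684838043855472329525843239309476698428085049632575022678064056535005576445135184195544121735659541649889291000373926723387855847938038612792141603414915213400604298469392332644881169859270073704017057945356623157614413944807769281881451220830205910180449116752805883490241555728564032553199870721)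

noncomputable def t125 : Tre := Helper55.PC.toT t125n

theorem ok125 : chk K t125 l204 = true :=
  Helper55.PC.chkN_sound K t125n l204 (by decide +kernel)

open Helper55.PC in
noncomputable def t126n : Helper55.PC.Ten :=
  (r
  6597414721344035008498920233718871039732081561600474693722983566856424917745113715694737566493667594029858032589594984218690195377809354873008622089220053710280778938861692199150576466335735172682129449062256706295291468929743552811208585215969334642237535296063010327203501126046046449755504180791737857317569175882639475182528688109012947606208801153496494722463264453124979034245329316726790776202206295349797065)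

noncomputable def t126 : Tre := Helper55.PC.toT t126n

theorem ok126 : chk K t126 l205 = true :=
  Helper55.PC.chkN_sound K t126n l205 (by decide +kernel)

open Helper55.PC in
noncomputable def t127n : Helper55.PC.Ten :=
  (r
  1752687132687729603695817952848894014755963920828318104867891267171097135036614100792854665718001500628551378917078454156318591544863445965398593494432904084235614956192438492536651933968162827826438258988196832055785018541211406511006318537019236267931609935795237492806359147818103742883302987743721035384873920929505295985403026328377980834563882390835285851440343583360040670513709264910340374591037601737668559371046323176306077670387475593917954681103114100043942298897618379967388886241430280305471389371795172475959006155826201178751141475763415062628986901995612121185958544954180141485175756060977511558946380738021000324783173952846365236275660963012435061705508316733707033112604064241126530275353345)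

noncomputable def t127 : Tre := Helper55.PC.toT t127n

theorem ok127 : chk K t127 l206 = true :=
  Helper55.PC.chkN_sound K t127n l206 (by decide +kernel)

open Helper55.PC in
noncomputable def t128n : Helper55.PC.Ten :=
  (r
  1272130923927121988789581584252709710155067974284092917984670411696021036617174538576701677150430080254276612396351282062571662807155274063003021649760873548751822980787968681348052759193659578557597934093720952576923416615134723655747456401632642023241888308920249196512171106579268324060303326755164476119515253777048649878135358094666966572482556402092219663639282451380682393698867915922305694698368446079560594293074918884538868056603021312202284501834516126394422711153604952875903526928010443369053616898590724840452262877822486164424857046456907181834692046827434216089313414749178809700373365777918074909172195741156552817485550635442710266210913311068703387239389118833932352488371787275541452170556523490260611718685559779453334741649234569922612912106727438183865478753276760804991010031853166219999259004770365801022937745074398948635467263850929672222094169711846689)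

noncomputable def t128 : Tre := Helper55.PC.toT t128n

theorem ok128 : chk K t128 r194 = true :=
  Helper55.PC.chkN_sound K t128n r194 (by decide +kernel)

open Helper55.PC in
noncomputable def t129n : Helper55.PC.Ten :=
  (r
  12118939040692359880748337299872391637537293557326480372294984304833942972596325197758559831526376216105843012353440295214522039354519741799202337649181449596323918493432656737710776054266247407806262110659294290002508678570064610207503622187241134027342544079602909910629942550484960136278633149559299774794578840642645103533145607740909260159673727219414175480433835737949297074409182253644317515508508074853646219491941639196301851153242387478289390698177334695310990430245511058379829223563171588685598929001754091600609617983958202665732866062727155838339693779149168759601962165034530709086704211348286685307168)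

noncomputable def t129 : Tre := Helper55.PC.toT t129n

theorem ok129 : chk K t129 l208 = true :=
  Helper55.PC.chkN_sound K t129n l208 (by decide +kernel)

open Helper55.PC in
noncomputable def t130n : Helper55.PC.Ten :=
  (r
  390328317652273941555484009808790225365001776857166721661429357686741505233472755323397119183753100835820731890403648084374951727558260238693435951344954187746720347986923199306317472000751696306898112484476336764796442879351497746024918761297778771312557196322459012812415018848028605885789021210985019394802816483439028873158348196031262737334111457840785661471133156745649752828391019452596283573576377187197029939009293773807438088674678032480130068451118399947223263943221551335034915903188598291033846162396691771418327310683033542472097886431495219552301013261665731740764262076023466519032769430825487222499312834007035103964759667195377519389629695009287927323198428733306560801)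

noncomputable def t130 : Tre := Helper55.PC.toT t130n

theorem ok130 : chk K t130 l209 = true :=
  Helper55.PC.chkN_sound K t130n l209 (by decide +kernel)

open Helper55.PC in
noncomputable def t131n : Helper55.PC.Ten :=
  (r
  50331208244141433573037836748374676122517765280222196484411072715567032681897478981024414356770100715714932295436885647765595718733615128556339444948226589008175893589145788472556881852364180452134000358613311636833789568163770063831684824519824118641628745307927257051011696789634094133634593533814480508956406302527418662453024173103668572680935656493473900026214184428989277649223893229472507221609389236425)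

noncomputable def t131 : Tre := Helper55.PC.toT t131n

theorem ok131 : chk K t131 l212 = true :=
  Helper55.PC.chkN_sound K t131n l212 (by decide +kernel)

open Helper55.PC in
noncomputable def t132n : Helper55.PC.Ten :=
  (r
  3325169339330212821187034912529267742608206676493028414446744484794154224494541256317496399379868868485767893898872499238130910391897636912690312195746244483310159676731381941448652406459955720678166841265747880002605241573009268231599387566661277056586946875647126030105195204273241770096336003264816950217895984301498010881285535997268156438322077586895552638584942976342148428841838508021613632072279413865099724801525713957174578365922343123745435263605349400394262529328847094979882414050285553415022058474238340109964730077067929575629763998998752130073376958090523259152661149131146481548542264397058891253272515684567021712709471459897412546599033180675069784887253303792553240125803511292534441195024486161436114199751243696157698564896)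

noncomputable def t132 : Tre := Helper55.PC.toT t132n

theorem ok132 : chk K t132 l214 = true :=
  Helper55.PC.chkN_sound K t132n l214 (by decide +kernel)

noncomputable def t133 : Tre :=
  (.N [0,1,1,2] 0 ⟨0,[(1,0)]⟩ ⟨0,[(0,0)]⟩ (.x (-1) ⟨1,[(3,1),(14,3),(3,1),(4,0),(2,0),(26,0),(5,
  0)]⟩ ⟨0,[(10,0),(2,0),(37,0),(2,0),(5,0)]⟩))

theorem ok133 : chk K t133 l216 = true := by decide +kernel

noncomputable def t134 : Tre :=
  (.N [0,1,2,1] 0 ⟨0,[(0,0)]⟩ ⟨0,[(1,0)]⟩ (.x (-1) ⟨3,[(5,3),(14,3),(8,6),(29,1),(5,2),(0,2),(4,
  0)]⟩ ⟨7,[(0,1),(9,1),(1,5),(2,1),(14,3),(9,3),(1,10),(9,5),(0,0),(2,5),(5,1)]⟩))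

theorem ok134 : chk K t134 l218 = true := by decide +kernel

open Helper55.PC in
noncomputable def t135n : Helper55.PC.Ten :=
  (q
  1293439861232812600371944906163480859301864041842316370196804629032841012056697083805794978591232152298186248749657223897502814044670725777316013276160194150268941
  (r
  698475167148003312444022157208977935884433352058751603325763943599691106178952741648339704773704998340399721909671393838020377183928935663718459140565390261597146697398235783197126922965213715584849446269725247486526088736358886410245691060761900253916126597439361059185992061492898632053407308746622540981613082916437793010538268721379346410000039175442379151562181989850435784437643417494313)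
  (r
  10657885240906531673185777511109558150581667862400571980999646156892895597876962694967117654835949071906272632483362849094677006110989116316134430001455291018405271058178624539755752371417453507418541769941749355837066657389047017607770714919608108579666097577129368158206956192367538751713747516089044152579400128156655558450745076307269031273801779628769379638909028982849638966732530441))

noncomputable def t135 : Tre := Helper55.PC.toT t135n

theorem ok135 : chk K t135 l220 = true :=
  Helper55.PC.chkN_sound K t135n l220 (by decide +kernel)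

open Helper55.PC in
noncomputable def t136n : Helper55.PC.Ten :=
  (r
  26051564875295558298214291347991098248953806386781064945040476716420745247743828544874956835276936637014449374321805740461727035866446270963754603346160094775379762478397560604122106483228341804299207404720737520362749578550242689224754990171480835798436885147726213767557777207208325176329825827723992898009999983028871915065697405557421525153610502709038269246439226762337170944365159776402690731038633895887532180017057307670205383465609830438366349369528928442484441553936822927056631634110895583237960360756579714188938482958741986370713937271014352311372501719014447100485545616465530283779732352084647021461178304700713)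

noncomputable def t136 : Tre := Helper55.PC.toT t136n

theorem ok136 : chk K t136 r219 = true :=
  Helper55.PC.chkN_sound K t136n r219 (by decide +kernel)

open Helper55.PC in
noncomputable def t137n : Helper55.PC.Ten :=
  (r
  296191061829943672960186661695321842096529287032265589226805636881974690305652457552764893945294641674311406268792919051121502298071333601844444747760018147538481708866303622438182923883047125714575424248331820325814369295641939656251107420986039559500889286157925263435154462913561097963368318346711809191390564970759824836023397587097268144275062139409369956613125337566446901606673088957397906845128440085724294605710773035704921071812361377730950199261928009525845695308914579950980366330424750632863138438282333910328750005010429811034173609989686630541012337753380851930740353211944089918912738765225454104503349713043338224880382212887778241789052575792386350385307000546598871586333369076795427781159772396766843684937264022462314134923071733377390918716186486164237573005213692225110410316649442451900874593359177880111436245147145142900963975473927524208878881)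

noncomputable def t137 : Tre := Helper55.PC.toT t137n

theorem ok137 : chk K t137 l222 = true :=
  Helper55.PC.chkN_sound K t137n l222 (by decide +kernel)

open Helper55.PC in
noncomputable def t138n : Helper55.PC.Ten :=
  (r
  17219004946735974748243215199739853397604752573828739270198263452871711978138234150922747369238891853036119633339739465168976309084173458747044757141156429577802867386763756844670374342593776282428500057658526762654785246966065952690468000790225015455945732932002845325429933809944423025382688018167943827993817534397597203614262816765496570651388729531134910665)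

noncomputable def t138 : Tre := Helper55.PC.toT t138n

theorem ok138 : chk K t138 r210 = true :=
  Helper55.PC.chkN_sound K t138n r210 (by decide +kernel)

noncomputable def t139 : Tre :=
  (.N [0,0,1,-2] 0 ⟨0,[(1,0)]⟩ ⟨0,[(2,0),(19,0)]⟩ (.x 0 ⟨0,[(0,0)]⟩ ⟨3,[(9,3),(1,3),(0,7),(23,0),
  (11,1),(2,2)]⟩))

theorem ok139 : chk K t139 l224 = true := by decide +kernel

open Helper55.PC in
noncomputable def t140n : Helper55.PC.Ten :=
  (r
  298072909456788098620393933691202804108801139272095017203384382962431586565539260552710789644961394191426813665385088028604622992617932837261511546469202750236364642744907679161551704142711873279265345992279800046570073565670055230047748418691121522811681872880966173019688947680333559606657718321777080953344213226592441918280179052677031931520215554693098803357317760064414955768122325775899732264903953229740792367242002916425673477951156290233332357680953215528488960176750843924480130791121760077815177735012695805125254996444914195015419873366290961946667542342267967635256683577489413997067218083728392994123378485879990529548576)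

noncomputable def t140 : Tre := Helper55.PC.toT t140n

theorem ok140 : chk K t140 l225 = true :=
  Helper55.PC.chkN_sound K t140n l225 (by decide +kernel)

noncomputable def t141 : Tre :=
  (.N [0,3,1,1] 1 ⟨0,[(0,0)]⟩ ⟨0,[(1,0)]⟩ (.x (-2) ⟨1,[(3,0),(17,1),(2,0),(14,0),(20,2),(0,2)]⟩ ⟨0,
  [(7,0),(4,0),(38,0),(5,0)]⟩))

theorem ok141 : chk K t141 l227 = true := by decide +kernel

noncomputable def t142 : Tre :=
  (.N [0,0,1,-2] 0 ⟨0,[(5,0)]⟩ ⟨0,[(6,0),(19,0)]⟩ (.i 1 ⟨0,[(13,0),(1,0)]⟩ ⟨0,[(0,0)]⟩))

theorem ok142 : chk K t142 l228 = true := by decide +kernel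

noncomputable def t143 : Tre :=
  (.N [0,0,1,-2] 0 ⟨0,[(6,0)]⟩ ⟨0,[(7,0),(19,0)]⟩ (.i 0 ⟨0,[(0,0)]⟩ ⟨0,[(18,1),(15,0)]⟩))

theorem ok143 : chk K t143 l229 = true := by decide +kernel

noncomputable def t144 : Tre :=
  (.N [0,0,1,-2] 0 ⟨0,[(4,0)]⟩ ⟨0,[(5,0),(19,0)]⟩ (.i 1 ⟨0,[(12,0),(1,0)]⟩ ⟨0,[(0,0)]⟩))

theorem ok144 : chk K t144 l230 = true := by decide +kernel

open Helper55.PC in
noncomputable def t145n : Helper55.PC.Ten :=
  (r
  31326444498141564866027705375670202075178290435291334919373403865860755800367111937300145043453470553460384342349099163452621330742129415339800393742508990042589767892800190122433210795705440401892613853358862503529719413121960868872207195329743219017878995552894599390958412176664625418970743999000314811841924285205755104962182635104179147986182441)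

noncomputable def t145 : Tre := Helper55.PC.toT t145n

theorem ok145 : chk K t145 l232 = true :=
  Helper55.PC.chkN_sound K t145n l232 (by decide +kernel)

open Helper55.PC in
noncomputable def t146n : Helper55.PC.Ten :=
  (r
  28863922863557052333084649880516826274029234671033493502823974843580584276024029201012875284539339508816457251234415530900516239788127969974405323441466052666793250908774358999989170834796394932810461322740592835495651681390926559057402674988471627548230670015047701143150690119586888404060884927240477276595146950660023373078365259476500541109032205729080229979272010899539198071884818802458567769826680418321482013421445929094061486292698113200668732506791790401447096302262135701262101826384558552225850712662825)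

noncomputable def t146 : Tre := Helper55.PC.toT t146n

theorem ok146 : chk K t146 l233 = true :=
  Helper55.PC.chkN_sound K t146n l233 (by decide +kernel)

open Helper55.PC in
noncomputable def t147n : Helper55.PC.Ten :=
  (q
  46527970878484477501164356559762150714348556829679462216302180930362667840362105102046196767270660937159850949458316558105762788056104973
  (r
  29998936550721028212152082152465368740117336866536458732884367673613386011806137723056186139141544606296977037976541178041860394585066745703539066225405397622988035268940271022324231451976526314851658287323655429505861740652730515375598182466823896692840394458630244417004099532824161057183717569939747909230528701540063422037791940947065235487790872410553876306657197588812778799265808459567995623318281)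
  (q
  46527970883899848000015801478945487657330898980011901864891093435585120102954690078719073486245789176213229355071525506149276721784946701
  (r
  2053009867108114403681313291349061821977742799788305690528721212732569771716231034449216031401776974631040865234249489078690313809433754610509466556843169441957981246401008363084047750875266042456848610375100751834696170273582476629470753826792175767443425195710916695772024540634795090807909215951300419828726613472258931116132575672949116675665948844841)
  (i 21775413351427436243373408211136315523114 (q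
  28951556006830501575002583854998657928839621773164750406000400815941413109772 (r
  2796524415402520565149007971235040968534553951480014475880012669137240444704908020908124925093117644981029267658726227163541242541337164294373839340589110460037561787431212221513403192338222703023645239019668102768583213280409350066759407874782993554119320393015362438788024361019455370134643062871467315192584493627558429963824500229824603899173459411627921425170940187917665163266385868345127845716973762428862497088715718591164346157101305656007701882962452137414438292069543117651006543142168984227464021376438839189563377378534364400169504506304009502760117752349178009786450567622757450195683645037393020641363487943668478988821714222276015261031507340659765493343914004600083293903286013776988949468787640348264740224537675772846843454228523597474246149061583806920245822682858119828225209963319394556299940049724161)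
  (r
  21549349391511919943744938766927512760558249961398492720137485637615269605467048441433232356980019300749631542483737433520359967554890133420113399595875369815259164860379535841316364256632209709868709535603213952099306042994778099287940190419887355111395154959521344314647277366063138598811965962868040255630759438044652556600908892301759310944997378135286978797224135308476362958176802103725594909400645537003445580079810186322946532159568107895988049851427420402050766453410851227845197781834867746314504023408303698913379180494285878504519891778732296387573767743856103471627444986109121443008356649))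
  (q
  46527970894730588997718691317312161543295583280676781162068918446030024628139860032064826924196045675587633940400272340168559958826287117
  (r
  102546817987277541410439455655774774039854892413042741924202316687446924511548944417244629128071919438863161516469557705379183994513797590668069381981124244142675284845863744003155793127428989696788592243586995830130824286144248793285876813426584925047523741554748298037717600736602270567220566579800076785393104709843218010784085202229478647601396821828720889887075811356911895371973472271492884397386463849865460752322031620653678706295190017203988248636421528941485724653706984795578519893758976297)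
  (r
  951607947225363438431170793759436508700538160508061917329720787365083906251331128471160841407408257850852932325584977995025562317640442192445888273803421553672956565073732135190674759671060318373452487920992388982855418197504371242518554156634113628219386057619043675255235083321405311475603525998424109951579481997391817766926482803850106692727239603101767046880494105018932687839421152153156807893526891026517321267365474539379015099631506887834149677648725019052854190877746142644837386957041064374407492448274581199416706518276667032007698232162454706567506589819082762180527064129291424143072987663224656506727433607510015583148039819470143021542153866682740875399557454181597462865398456530761827457741561933756873690981761211740141658565805846882775440317367752336607470373190145744107966233043143024644424462690835107578729799249490989165586836397236993)))))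

noncomputable def t147 : Tre := Helper55.PC.toT t147n

theorem ok147 : chk K t147 r231 = true :=
  Helper55.PC.chkN_sound K t147n r231 (by decide +kernel)

open Helper55.PC in
noncomputable def t148n : Helper55.PC.Ten :=
  (r
  207320908886392245631932689391263233036931965368205495006001982979537541338670924991475589354699523687072088270963918146733999668305484102305226753297915835893231951323708970334782729640116314579948252426608628342745540689139931783894869783789220995074389278540753863778704332407198719889961769155486740097910940339702460938540399292953941221314520853743574030764772450463096748841113611953282132357775223274167439482436553653375348798883001247272669471381798567745348213703762432414989599700381849069026875118538162807402752804496126475174420103263111558269759403817357349362910389784636547386382761683140926166608591046282095243562136960992583715718709022195557512165301621565486114362351545148819651291269357335100649767273997540599407080813263421601189723227239246672814393617747361525237320891710015754265304706446999252569297637725970214160283050975451075050201313)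

noncomputable def t148 : Tre := Helper55.PC.toT t148n

theorem ok148 : chk K t148 l234 = true :=
  Helper55.PC.chkN_sound K t148n l234 (by decide +kernel)

open Helper55.PC in
noncomputable def t149n : Helper55.PC.Ten :=
  (r
  1102428294779468793922195580531286384163732402415048305711949342987774254869862867462299398121950021272433024519888833240150658190306044769571852016364706009934059006772536880145684140890257135283887825655226551204042970104779757518299960190300564632505973388757291033689923469874979489316564811514482320909964739782036683753443393308524863693741110603934885770108946442721759515262200814131163912299917942451019984660412773439959883959026032469459803757323482440849404841019093991289092584963094197555816319660344703438289729214979327462043908603202098026058467989289906847330024710309293612176773007213726281084879552122530556254414996269469678190794382364609420586968424414625040640673425026451400411510032605688605584225688464708454551472716344463974073565747987075169301052364504477493065892861464705791062293576374914589841720865630100119777)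

noncomputable def t149 : Tre := Helper55.PC.toT t149n

theorem ok149 : chk K t149 l235 = true :=
  Helper55.PC.chkN_sound K t149n l235 (by decide +kernel)

open Helper55.PC in
noncomputable def t150n : Helper55.PC.Ten :=
  (q
  66685490658854274276524713295330181630654022840355744660356432176127221451640891621112669237869282154369380708053656209504645835129459350299017091790032318595519086605
  (r
  28402395688272512568036260521982046224955931884135451813084731107590190571103084339333182175068354810145157712004651410545885723591711547449586897437506375413532112434878705751620141616330817301723823587043198525290167294129244061484734597654003647510130440600994443855898244706153508163823951383182712709778275282351239449641829944136380733954213329644564073547211300557413289874656669507676207784482978014531408474593425809641056596848259499773237935065621619507986294898366235717376868132663599318181264296709774781822155392189385362180902055443704303553425056384304781546727572051432626306454770664774415360169615673039839917484641976904158174860248251627839539069949256622434214098174322431802415574465374091399843291726994413942044116808921342953936289880066012041961697)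
  (r
  146807039071662645706767805561727170302210632587319403966709716359352104536832881525644730958873899302594875070325089891534580710146757412653707172692736559745350277556459889287014255437369880027249419345987474845734946808797658046395517155451550261988452207830725995867139821242529331023175982543187585820188312369676351332710243909460909218441927977701263263383173876433409121825237151697707845549565830971305037067083642604785714896953355384079619285596959412090274673942503979317085711115049))

noncomputable def t150 : Tre := Helper55.PC.toT t150n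

theorem ok150 : chk K t150 l236 = true :=
  Helper55.PC.chkN_sound K t150n l236 (by decide +kernel)

noncomputable def t151 : Tre :=
  (.N [0,-2,0,1] (-1) ⟨0,[(2,0)]⟩ ⟨0,[(1,0)]⟩ (.x 0 ⟨1,[(8,0),(1,0),(0,1),(4,1),(0,0),(29,0),(2,0),
  (11,0)]⟩ ⟨0,[(0,0)]⟩))

theorem ok151 : chk K t151 l238 = true := by decide +kernel

open Helper55.PC in
noncomputable def t152n : Helper55.PC.Ten :=
  (r
  28410074403855985257537720443104301613616985598308769811543355796527537685768343156130288258222072231915444416928934098438842802230903158230125887566194055526376905678891772376138173873128871772133383567118394148944815873691518892475416123125106078881728057888830740741219722010332541477409054624523401405855457630433523135180190917539108228267353836767257756463686428290428944334770728886507097586517612705523712633928136759958341860710737417356362623325966998088858728671414771979520838842029737241001455123743369164728425057058090579930957172404082894047277821207374938344533633109361131853173463018820731901225134475469938443899833484253527930622082186550217118679739597937204811207873662756271111835186042649331493451088620095066479972893303098515774867485149939758828110664878932235899248567156893890581681433978595225640769513057952545)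

noncomputable def t152 : Tre := Helper55.PC.toT t152n

theorem ok152 : chk K t152 l241 = true :=
  Helper55.PC.chkN_sound K t152n l241 (by decide +kernel)

noncomputable def t153 : Tre :=
  (.N [0,3,1,1] 1 ⟨0,[(1,0),(3,0),(19,0)]⟩ ⟨0,[(0,0)]⟩ (.x (-2) ⟨1,[(2,0),(8,0),(3,1),(5,1),(17,0),
  (20,2),(0,1)]⟩ ⟨3,[(1,0),(2,0),(2,2),(0,1),(16,0),(11,8),(9,2),(3,2),(0,2),(4,4)]⟩))

theorem ok153 : chk K t153 l242 = true := by decide +kernel

noncomputable def t154 : Tre :=
  (.N [0,0,1,-2] 0 ⟨0,[(6,0),(2,0)]⟩ ⟨0,[(7,0),(18,0),(27,0)]⟩ (.i 1 ⟨0,[(13,0),(1,0)]⟩ ⟨0,[(0,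
  0)]⟩))

theorem ok154 : chk K t154 l243 = true := by decide +kernel

noncomputable def t155 : Tre :=
  (.N [0,0,1,-2] 0 ⟨0,[(7,0),(2,0)]⟩ ⟨0,[(8,0),(18,0),(27,0)]⟩ (.i 0 ⟨0,[(0,0)]⟩ ⟨0,[(18,1),(15,
  0)]⟩))

theorem ok155 : chk K t155 l244 = true := by decide +kernel

open Helper55.PC in
noncomputable def t156n : Helper55.PC.Ten :=
  (r
  20120349841933177411115730837175696606609431249755678215898472742337262945372328468128014456308622176435352193064947245869255034336043818152876930026871858116351884727284199844987905714055057377479202411015443484643729406494653712741007077233149694447804788955900746005866463614307499886975464827136826450750231528105586380674494403317517516245165186151321232584479804706937235872070389241538043792835171842974309436546137980459647933525298084102790249075244323801033718696884825210168178248941807465026612427033390049800431685902365472587042885871149107078329736834070091898710111486355156960544963977155669493840567083808)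

noncomputable def t156 : Tre := Helper55.PC.toT t156n

theorem ok156 : chk K t156 l245 = true :=
  Helper55.PC.chkN_sound K t156n l245 (by decide +kernel)

noncomputable def t157 : Tre :=
  (.N [0,3,1,1] 1 ⟨0,[(1,0)]⟩ ⟨0,[(0,0)]⟩ (.x (-2) ⟨0,[(16,0),(3,0),(1,0),(38,1),(0,0)]⟩ ⟨0,[(3,0),
  (9,0),(38,0),(5,0)]⟩))

theorem ok157 : chk K t157 l247 = true := by decide +kernel

noncomputable def t158 : Tre :=
  (.N [0,3,2] 1 ⟨0,[(1,0)]⟩ ⟨0,[(0,0)]⟩ (.x (-2) ⟨1,[(24,1),(2,1),(7,0),(27,3),(0,2)]⟩ ⟨12,[(1,2),
  (3,10),(1,9),(3,2),(0,0),(2,4),(12,8),(9,5),(1,13),(9,8),(3,9),(5,3)]⟩))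

theorem ok158 : chk K t158 l249 = true := by decide +kernel

noncomputable def t159 : Tre :=
  (.N [0,0,1,-2] 0 ⟨0,[(9,0),(2,0)]⟩ ⟨0,[(10,0),(18,0),(27,0)]⟩ (.i 1 ⟨0,[(16,0),(1,0)]⟩ ⟨0,[(0,
  0)]⟩))

theorem ok159 : chk K t159 l250 = true := by decide +kernel

noncomputable def t160 : Tre :=
  (.N [0,0,1,-2] 0 ⟨0,[(8,0),(2,0)]⟩ ⟨0,[(9,0),(18,0),(27,0)]⟩ (.i 1 ⟨0,[(15,0),(1,0)]⟩ ⟨0,[(0,
  0)]⟩))

theorem ok160 : chk K t160 l251 = true := by decide +kernel

noncomputable def t161 : Tre :=
  (.N [0,0,1,-2] 0 ⟨0,[(6,0),(2,0)]⟩ ⟨0,[(7,0),(18,0),(27,0)]⟩ (.i 1 ⟨0,[(13,0),(1,0)]⟩ ⟨0,[(0,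
  0)]⟩))

theorem ok161 : chk K t161 l252 = true := by decide +kernel

open Helper55.PC in
noncomputable def t162n : Helper55.PC.Ten :=
  (r
  630531431635385263655402530753305186599280891102091091886139171622450637722367950003786908775009510214880874150149141219322114927939749952138076375063256548582707230093270345942815599037204981724385766069070564424787894804516749837126125312616552667870680633791851640728171893526290930990337466088913642886172398111071089503295714590402200992362408929158182422751006115032256411564290403466214562441001469877341947025178107151555361586911807011580902697416477955381876031916165780795852142421678307418921)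

noncomputable def t162 : Tre := Helper55.PC.toT t162n

theorem ok162 : chk K t162 r239 = true :=
  Helper55.PC.chkN_sound K t162n r239 (by decide +kernel)

open Helper55.PC in
noncomputable def t163n : Helper55.PC.Ten :=
  (r
  4123861261337363597286047051856217869238215407597669277406794056785208065078133888348100884163873828660088745900858177761397622368895454050642821554359263458786469676298530211902839472483896514751041101985788775071495652174870317139882579633805747932893415072195476132334803617228285080833204531615356760946771226953108545931146286692876812893729795753416347240673262690244747425034654034516612832876351569718336781732298961216857246407105701143569121025879557837657336935907438078355878696359205167387811349595004083153630463343235683303779016699442287520474688166613456638778665015574198014554537293907542877716602967261189743541792243603470092123496736)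

noncomputable def t163 : Tre := Helper55.PC.toT t163n

theorem ok163 : chk K t163 l253 = true :=
  Helper55.PC.chkN_sound K t163n l253 (by decide +kernel)

open Helper55.PC in
noncomputable def t164n : Helper55.PC.Ten :=
  (r
  1186139389542243065819430396321011403957789547643432583919806700228238186169048668049686668057600378543195075568501196816526818557110696236594815033866082215145323085583478912455859814822982547038877022822455555218672204124876855748140836801392548077195215851792225735955686532640541519091617214493546497539922688827708210646264295178892129113731876589742679539643329249692326740308760838254894662850632575852928783263048991079848368885208511280340267044094784122252869375673283022712592488729653556512949164735970196476101503852303606494335039484084945313778295155256649346561419041137995443110940164106518969850022972324237053746399761243148596893114438124998511086421581750358297694191672471213352661673973237559826571489)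

noncomputable def t164 : Tre := Helper55.PC.toT t164n

theorem ok164 : chk K t164 l255 = true :=
  Helper55.PC.chkN_sound K t164n l255 (by decide +kernel)

noncomputable def t165 : Tre :=
  (.N [0,3,1,-1] 1 ⟨0,[(1,0)]⟩ ⟨0,[(0,0)]⟩ (.x (-2) ⟨11,[(4,9),(5,9),(10,9),(17,6),(14,0),(2,1),(2,
  7),(0,9)]⟩ ⟨0,[(12,0),(7,0),(16,0),(2,0),(10,0),(14,0)]⟩))

theorem ok165 : chk K t165 l257 = true := by decide +kernel

open Helper55.PC in
noncomputable def t166n : Helper55.PC.Ten :=
  (q
  8091497066474063257179507671069181460257314890083425544333907082085069741572022012183932415399199989991720420842576316534372046347388998914611288574748405662768168255488013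
  (r
  3251847590834301489199484692466036155240380545522122069060577418379777139307466305235385298812748900613893975305947527775044818203171883233496663218775484976229485620815476163940525115712872334503783380621517235166643675354508441099303723515138174547552384066570476869118018631864292062418499267481495320063316160221744575788314552145942398371520783441225231124783972761737555328007752517745104637651667629900518797356152420254197103096193231045607921053693972666886982708606263407456442768208741122834139993765263331178598194899992603925437477612895765971221801711621380189058965323347908887181153278879259741388128722257557613511848829482423571252712017049275691488493772195398502246301835621168219826582891661432128247487627658901362762968641715013378871642710170598728283683684804649888988793420215187100140995348715507529381059072893340368622048089172835614667898496888490989609767674625)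
  (r
  121475427074613712019086921038916859447901981090061642981139484673130555239180826622203263426810016995876478023455779572261577186611259209513873303886682467439187019289593689236581341311668018413620127260614041052206491004243727711831784251576958908161261364535657304466876299862555535871736487658704322432601800637131345703459940205089595747508125047270161893126757193259651799339119144222918063151485161452155752965653303532150369517196922257704621162660544402679931689))

noncomputable def t166 : Tre := Helper55.PC.toT t166n

theorem ok166 : chk K t166 r254 = true :=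
  Helper55.PC.chkN_sound K t166n r254 (by decide +kernel)

open Helper55.PC in
noncomputable def t167n : Helper55.PC.Ten :=
  (r
  91214145277943427310432396626470026036568705223429029195954506363566243184577406047981919927750132451650409466097685510341924991595959261526458446720983876531735460731144627591749020530550950807719232418664587754743587789299091287147927118521376330395861772412697990432027190154693559054734342242400094772153337202044427459138801183697587460589883386223550488969089688673760544265117729978893626461299069415284064675134873704091733135584619127335698984330034830074978317234211635287265704946979471539421144622567953492864527997528129971250394779602295832915408004063520)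

noncomputable def t167 : Tre := Helper55.PC.toT t167n

theorem ok167 : chk K t167 r0 = true :=
  Helper55.PC.chkN_sound K t167n r0 (by decide +kernel)

theorem cl0 : Clo K (Helper55.TR.GT 1 Helper55.TR.BrU) l9 :=
  .q [n0,m1,n0,n1,n0,n0,m1,m1,n0,n0,n1,m1] (e' := [n0,n1,n0,m1,n0,n0,n1,n1,n0,n0,m1,n1]) (.p false [0,0,1] [1] (⟨0,
  [(33,0)]⟩,⟨0,[(28,0)]⟩) .k 1 (⟨0,[]⟩,⟨0,[]⟩) .k .k) (by decide +kernel) (by decide +kernel) (.t
  t4 ok4) (.h (Helper55.TR.GT.lJ Helper55.CD.Dm1_1_c0u_5_1_0.g 76965932674596049321704406966551390536701937713048488908886243327969334485178323038087165454416363360228118623950653583801096975211481767026559493761660194630892680342796076872144736755828994360779777 (by decide +kernel)))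

theorem cl1 : Clo K (Helper55.TR.GT 1 Helper55.TR.BrU) l12 :=
  .q [n0,n0,m2,n0,n1,n0,n0,n0,m1,n0,n1,n0,m1] (e' := [n0,n0,n2,n0,m1,n0,n0,n0,n1,n0,m1,n0,n1]) (.p false [0,0,0,1] [1]
  (⟨0,[(14,0)]⟩,⟨0,[(12,0)]⟩) .k 1 (⟨0,[]⟩,⟨0,[]⟩) .k .k) (by decide +kernel) (by decide +kernel)
  (.t t6 ok6) (.h (Helper55.TR.GT.lJ Helper55.CD.Dm1_1_c0u_5_1_1.g 359225477582208714686803258651367087792846703583003078647623479319369136354012534712613863257426785895755048684800182021714905047305389800652076496617763817985760017271110067186059041059499776211498004 (by decide +kernel)))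

theorem cl2 : Clo K (Helper55.TR.GT 1 Helper55.TR.BrU) r11 :=
  .q [n0,n0,n2,n0,m1,n0,n0,n0,n1,n0,n0,n0,n1] (e' := [n0,n0,m2,n0,n1,n0,n0,n0,m1,n0,n0,n0,m1]) (.p true [0,0,0,1] [] (⟨0,
  [(13,0)]⟩,⟨0,[(11,0)]⟩) .k 0 (⟨0,[]⟩,⟨0,[]⟩) .k .k) (by decide +kernel) (by decide +kernel) cl1
  (.h (Helper55.TR.GT.l1 Helper55.CD.Dm1_1_c0u_5_1_2.g 186049867342717076530768072807937983885985001475679944806626175939072251487504988250595717205371254659697609334973897374650480492061524086430039660054824092946773980791763402779624203407611341572133207674882 (by decide +kernel)))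

theorem cl3 : Clo K (Helper55.TR.GT 1 Helper55.TR.BrU) r9 :=
  .i [n0,n1,m1,n0,n0,n0,n0,m1,n0,m1] (e' := [n1,m1,n1,n0,n0,n0,n0,n1,n0,n1]) (by decide +kernel)
  (by decide +kernel) (.t t5 ok5) cl2

theorem cl4 : Clo K (Helper55.TR.GT 1 Helper55.TR.BrU) r8 :=
  .i [n0,n1,n0,n0,n0,n0,n0,n0,n0,n1] (e' := [n1,m1,n0,n0,n0,n0,n0,n0,n0,m1]) (by decide +kernel) (by decide +kernel)
  cl0 cl3

theorem cl5 : Clo K (Helper55.TR.GT 1 Helper55.TR.BrU) l7 :=
  .q [n0,n0,m2,n0,n1,n0,m1,n0,n0,n0,n1,m1] (e' := [n0,n0,n2,n0,m1,n0,n1,n0,n0,n0,m1,n1]) (.p false [0,0,1] [1] (⟨0,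
  [(31,0)]⟩,⟨0,[(26,0)]⟩) .k 1 (⟨0,[]⟩,⟨0,[]⟩) .k .k) (by decide +kernel) (by decide +kernel) (.t
  t3 ok3) cl4

theorem cl6 : Clo K (Helper55.TR.GT 1 Helper55.TR.BrU) l6 :=
  .q [n0,n0,n0,n2,n0,n0,n0,n0,m1,m1,n0,n0,m1] (e' := [n0,n0,n0,m2,n0,n0,n0,n0,n1,n1,n0,n0,n1]) (.p false [0,0,0,1] [] (⟨0,
  [(9,0)]⟩,⟨0,[(7,0)]⟩) .k 0 (⟨0,[]⟩,⟨0,[]⟩) .k .k) (by decide +kernel) (by decide +kernel) cl5 (.t
  t7 ok7)

theorem cl7 : Clo K (Helper55.TR.GT 1 Helper55.TR.BrU) l19 :=
  .i [n0,n0,m2,m2,n1,n0,n0,n0,n0,n1] (e' := [n1,n0,n2,n2,m1,n0,n0,n0,n0,m1]) (by decide +kernel)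
  (by decide +kernel) (.t t11 ok11) (.h (Helper55.TR.GT.lJ Helper55.CD.Dm1_1_c0u_5_1_3.g 100784005382378828475813966883417455388902916498226805979648952770630979645465148108541012639230556291671987951641460311850104664290682430912116974561561935197463042246065579281362512374264759298 (by decide +kernel)))

theorem cl8 : Clo K (Helper55.TR.GT 1 Helper55.TR.BrU) l23 :=
  .q [n0,n0,n1,n0,n0,n0,m2,n0,m1,n0,n2,m2,m1] (e' := [n0,n0,m1,n0,n0,n0,n2,n0,n1,n0,m2,n2,n1]) (.p false [0,0,1] [2,0,
  -1,-1] (⟨0,[(39,0)]⟩,⟨0,[(34,0)]⟩) .k 2 (⟨0,[(16,0),(17,0)]⟩,⟨0,[(0,0)]⟩) .k (.r (-1) ⟨2,[(27,2),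
  (12,0),(4,1),(14,0),(4,0)]⟩ ⟨0,[(2,0),(45,0)]⟩)) (by decide +kernel) (by decide +kernel) (.t t12
  ok12) (.h (Helper55.TR.GT.lJ Helper55.CD.Dm1_1_c0u_5_1_4.g 404162629803989612288100978469717434896367437178066211849396279591125810998958735360081026367269595610109363089267270109229009602974533048570741894133372250259003273901263945294795984614489342024154764553797159150594 (by decide +kernel)))

theorem cl9 : Clo K (Helper55.TR.GT 1 Helper55.TR.BrU) l22 :=
  .q [n0,n0,n0,n0,n0,n0,n0,n0,n0,n0,m1,n1,n1] (e' := [n0,n0,n0,n0,n0,n0,n0,n0,n0,n0,n1,m1,m1]) (.ed false [0,0,1,1] (.r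
  (-1) ⟨35,[(18,5),(3,3),(3,35),(12,20),(4,13),(7,1),(2,0),(3,7)]⟩ ⟨25,[(1,17),(20,3),(7,7),(8,2),
  (7,3),(2,3),(1,1),(2,0)]⟩)) (by decide +kernel) (by decide +kernel) cl8 (.h (Helper55.TR.GT.lJ Helper55.CD.Dm1_1_c0u_5_1_5.g 318296463776042746857856007040299708292963843234037398201948119638993914864609257825195277148703609484007666156640691856712893514042700424161181391158654074388052036114290954932979364293901868254150917479589501480962 (by decide +kernel)))

theorem cl10 : Clo K (Helper55.TR.GT 1 Helper55.TR.BrU) l21 :=
  .q [n0,n0,n0,m1,n0,n0,m1,m1,n2,n2,m1,m1,n2] (e' := [n0,n0,n0,n1,n0,n0,n1,n1,m2,m2,n1,n1,m2]) (.p true [0,0,0,1] [1,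
  0,1,-1] (⟨0,[(16,0)]⟩,⟨0,[(14,0)]⟩) .k 2 (⟨0,[(14,0),(22,0)]⟩,⟨0,[(12,0)]⟩) .k (.r 0 ⟨0,[(2,0),(4,
  0),(0,0),(11,1),(27,0),(8,0)]⟩ ⟨34,[(0,20),(0,21),(13,21),(5,17),(7,26),(8,7),(4,16),(7,19),(2,
  9)]⟩)) (by decide +kernel) (by decide +kernel) cl9 (.h (Helper55.TR.GT.lJ Helper55.CD.Dm1_1_c0u_5_1_6.g 349554905819669392788355045999345718016696648429586139190076448072307983498445576437095204362867095505463335402785898520359554189099304915638965909166405562859694232666924356247468081202647118717681666 (by decide +kernel)))

theorem cl11 : Clo K (Helper55.TR.GT 1 Helper55.TR.BrU) r19 :=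
  .i [n1,n1,m1,n0,n0,n0,n0,m1,n0,m1] (e' := [n0,m1,n1,n0,n0,n0,n0,n1,n0,n1]) (by decide +kernel)
  (by decide +kernel) cl10 (.h (Helper55.TR.GT.lJ Helper55.CD.Dm1_1_c0u_5_1_7.g 78654993327263158603587262318691036721022611057339103419103579619157003172059510259482257885809948940811616781528519808670074678085425272114977778797819241148295845168209138109488625600533579267265529857 (by decide +kernel)))

theorem cl12 : Clo K (Helper55.TR.GT 1 Helper55.TR.BrU) r18 :=
  .q [n0,m1,n0,m2,n0,n0,m1,m1,n1,n1,n0,m1,n1] (e' := [n0,n1,n0,n2,n0,n0,n1,n1,m1,m1,n0,n1,m1]) (.p true [0,0,-1,1] []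
  (⟨0,[(10,0)]⟩,⟨0,[(12,0),(22,0)]⟩) .k 0 (⟨0,[]⟩,⟨0,[]⟩) .k (.r 0 ⟨1,[(5,0),(17,0),(15,0),(11,0)]⟩
  ⟨20,[(7,11),(11,18),(7,8),(0,8),(4,11),(7,4),(7,7),(2,3),(3,1)]⟩)) (by decide +kernel)
  (by decide +kernel) cl7 cl11

theorem cl13 : Clo K (Helper55.TR.GT 1 Helper55.TR.BrU) l17 :=
  .q [n0,n0,n0,m2,n0,n0,n1,n1,m1,m1,n1,n1,m1] (e' := [n0,n0,n0,n2,n0,n0,m1,m1,n1,n1,m1,m1,n1]) (.p false [0,0,-1,1]
  [1] (⟨0,[(9,0)]⟩,⟨0,[(11,0),(22,0)]⟩) .k 1 (⟨0,[]⟩,⟨0,[]⟩) .k (.r 0 ⟨1,[(4,0),(17,0),(15,0),(11,
  0)]⟩ ⟨20,[(6,11),(11,18),(7,8),(0,8),(4,11),(7,4),(7,7),(2,3),(3,1)]⟩)) (by decide +kernel)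
  (by decide +kernel) (.t t10 ok10) cl12

theorem cl14 : Clo K (Helper55.TR.GT 1 Helper55.TR.BrU) l26 :=
  .i [n1,n0,n3,n3,m1,n0,n0,n1,n0,m1] (e' := [n0,n0,m3,m3,n1,n0,n0,m1,n0,n1]) (by decide +kernel)
  (by decide +kernel) (.t t14 ok14) (.h (Helper55.TR.GT.lJ Helper55.CD.Dm1_1_c0u_5_1_8.g 352973420571829755769357698518159868831980186346315412895414825855211641061740822300304632900420710402280712866641352599095194032279238932342633861395866969715457166721979038769273436882838631174006387714 (by decide +kernel)))

theorem cl15 : Clo K (Helper55.TR.GT 1 Helper55.TR.BrU) l28 :=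
  .i [n0,n1,n0,n0,n0,n0,n0,n1,n0,m2] (e' := [n1,m1,n0,n0,n0,n0,n0,m1,n0,n2]) (by decide +kernel) (by decide +kernel)
  (.t t15 ok15) (.h (Helper55.TR.GT.lb Helper55.CD.Dm1_1_c0u_5_1_9.g 446148015566546380457463867407593935204391647714245405141667551437309209745456500493473506422936121693299049984540036135014007609928249612353378839577155573883622058116193531867431629567929554548050362413 (by decide +kernel)))

theorem cl16 : Clo K (Helper55.TR.GT 1 Helper55.TR.BrU) r26 :=
  .q [n0,n0,n0,m1,n0,n0,m1,m1,n2,n2,m1,m1,n2] (e' := [n0,n0,n0,n1,n0,n0,n1,n1,m2,m2,n1,n1,m2]) (.p true [0,0,0,1] [1,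
  0,1,-1] (⟨0,[(15,0)]⟩,⟨0,[(13,0)]⟩) .k 2 (⟨0,[(13,0),(22,0)]⟩,⟨0,[(11,0)]⟩) .k (.r 0 ⟨1,[(1,1),(2,
  0),(0,1),(1,0),(1,0),(9,4),(26,0),(0,0)]⟩ ⟨1,[(0,0),(1,1),(5,1),(11,0),(7,0),(24,0),(0,0)]⟩))
  (by decide +kernel) (by decide +kernel) cl15 (.h (Helper55.TR.GT.lb Helper55.CD.Dm1_1_c0u_5_1_10.g 84532364009699864367790748908406223149986422432850313095930076550295657396117948940167374310505904852865797643512584530030707408321801422662364112285849855525029854913149497435169777244045997003173426179908567044 (by decide +kernel)))

theorem cl17 : Clo K (Helper55.TR.GT 1 Helper55.TR.BrU) r25 :=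
  .i [n1,n0,m3,m3,n1,n0,n0,m1,n0,n1] (e' := [n0,n0,n3,n3,m1,n0,n0,n1,n0,m1]) (by decide +kernel)
  (by decide +kernel) cl14 cl16

theorem cl18 : Clo K (Helper55.TR.GT 1 Helper55.TR.BrU) r17 :=
  .i [n0,n1,n0,m1,n0,n0,n0,n1,n0,m1] (e' := [n1,m1,n0,n1,n0,n0,n0,m1,n0,n1]) (by decide +kernel)
  (by decide +kernel) (.t t13 ok13) cl17

theorem cl19 : Clo K (Helper55.TR.GT 1 Helper55.TR.BrU) r16 :=
  .q [n0,n0,n0,n1,n0,n0,m1,m1,n1,n1,m1,m1,n1] (e' := [n0,n0,n0,m1,n0,n0,n1,n1,m1,m1,n1,n1,m1]) (.p true [0,0,-1,1]
  [1] (⟨0,[(8,0)]⟩,⟨0,[(10,0),(22,0)]⟩) .k 1 (⟨0,[]⟩,⟨0,[]⟩) .k (.r 0 ⟨1,[(3,0),(17,0),(15,0),(11,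
  0)]⟩ ⟨20,[(5,11),(11,18),(7,8),(0,8),(4,11),(7,4),(7,7),(2,3),(3,1)]⟩)) (by decide +kernel)
  (by decide +kernel) cl13 cl18

theorem cl20 : Clo K (Helper55.TR.GT 1 Helper55.TR.BrU) r15 :=
  .i [n0,n0,n2,n0,m1,n2,n0,n0,n1] (e' := [n1,n0,m2,n0,n1,m2,n0,n0,m1]) (by decide +kernel) (by decide +kernel)
  (.t t9 ok9) cl19

theorem cl21 : Clo K (Helper55.TR.GT 1 Helper55.TR.BrU) l14 :=
  .q [n0,m1,n0,n1,n0,n0,m1,m1,n0,n0,n1,m1] (e' := [n0,n1,n0,m1,n0,n0,n1,n1,n0,n0,m1,n1]) (.p false [0,0,1] [1] (⟨0,
  [(31,0)]⟩,⟨0,[(26,0)]⟩) .k 1 (⟨0,[]⟩,⟨0,[]⟩) .k .k) (by decide +kernel) (by decide +kernel) (.t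
  t8 ok8) cl20

theorem cl22 : Clo K (Helper55.TR.GT 1 Helper55.TR.BrU) r34 :=
  .q [n0,n0,n0,m1,n0,n0,m1,m1,n2,n2,m1,m1,n2] (e' := [n0,n0,n0,n1,n0,n0,n1,n1,m2,m2,n1,n1,m2]) (.p true [0,0,0,1] [1,
  0,1,-1] (⟨0,[(15,0)]⟩,⟨0,[(13,0)]⟩) .k 2 (⟨0,[(13,0),(22,0)]⟩,⟨0,[(11,0)]⟩) .k (.r 0 ⟨0,[(0,0),(2,
  0),(2,0),(2,0),(9,0),(4,0),(9,0),(12,0)]⟩ ⟨6,[(1,6),(3,6),(2,1),(5,4),(1,6),(3,0),(29,2),(2,
  4)]⟩)) (by decide +kernel) (by decide +kernel) (.t t19 ok19) (.h (Helper55.TR.GT.lJ Helper55.CD.Dm1_1_c0u_5_1_11.g 361263586180567251243355613447282333039715325526914802138318492064410411212405756381426565872454962455105126266948143540983388281833650500881089024134045085542274121751924382501527543591890565198016736702466 (by decide +kernel)))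

theorem cl23 : Clo K (Helper55.TR.GT 1 Helper55.TR.BrU) l33 :=
  .i [n0,n1,n0,m1,n0,n0,n0,n1,n0,m1] (e' := [n1,m1,n0,n1,n0,n0,n0,m1,n0,n1]) (by decide +kernel)
  (by decide +kernel) (.t t18 ok18) cl22

theorem cl24 : Clo K (Helper55.TR.GT 1 Helper55.TR.BrU) r38 :=
  .q [n0,n0,n0,m2,n0,n0,n1,n1,m2,m2,n1,n1,m2] (e' := [n0,n0,n0,n2,n0,n0,m1,m1,n2,n2,m1,m1,n2]) (.p false [0,0,0,1] [1,
  0,1,-1] (⟨0,[(17,0)]⟩,⟨0,[(15,0)]⟩) .k 2 (⟨0,[(15,0),(22,0)]⟩,⟨0,[(13,0)]⟩) .k (.r 0 ⟨0,[(2,0),(5,
  0)]⟩ ⟨11,[(7,18),(2,4),(11,10),(4,16),(3,1),(4,4),(7,4),(7,3),(2,1)]⟩)) (by decide +kernel)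
  (by decide +kernel) (.t t22 ok22) (.h (Helper55.TR.GT.lJ Helper55.CD.Dm1_1_c0u_5_1_12.g 408320001263729902384980277217014279466120709546335875934079023059887091323294195621357463744871763846947455330611618657381568799898498500531524430819960844248557242693044431661012958376528690016069122896176039519603714 (by decide +kernel)))

theorem cl25 : Clo K (Helper55.TR.GT 1 Helper55.TR.BrU) r37 :=
  .q [n0,n0,n0,m1,n0,n0,n1,n1,m2,m2,n1,n1,m2] (e' := [n0,n0,n0,n1,n0,n0,m1,m1,n2,n2,m1,m1,n2]) (.p false [0,0,0,1] [1,
  0,1,-1] (⟨0,[(16,0)]⟩,⟨0,[(14,0)]⟩) .k 2 (⟨0,[(14,0),(22,0)]⟩,⟨0,[(12,0)]⟩) .k (.r 0 ⟨0,[(1,0),(5,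
  0)]⟩ ⟨11,[(6,18),(2,4),(11,10),(4,16),(3,1),(4,4),(7,4),(7,3),(2,1)]⟩)) (by decide +kernel)
  (by decide +kernel) (.t t21 ok21) cl24

theorem cl26 : Clo K (Helper55.TR.GT 1 Helper55.TR.BrU) l36 :=
  .q [n0,n0,n0,m2,n0,n0,n1,n1,m1,m1,n1,n1,m1] (e' := [n0,n0,n0,n2,n0,n0,m1,m1,n1,n1,m1,m1,n1]) (.p false [0,0,-1,1]
  [1] (⟨0,[(11,0)]⟩,⟨0,[(13,0),(22,0)]⟩) .k 1 (⟨0,[]⟩,⟨0,[]⟩) .k (.r 0 ⟨1,[(0,0),(5,0),(33,0)]⟩ ⟨11,
  [(5,6),(2,4),(11,10),(4,4),(3,1),(4,4),(7,4),(7,3),(2,1)]⟩)) (by decide +kernel)
  (by decide +kernel) (.t t20 ok20) cl25

theorem cl27 : Clo K (Helper55.TR.GT 1 Helper55.TR.BrU) r46 :=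
  .w [n0,n0,n0,n0,n0,n0,n0,n0,n0,n0,m1,m1,n2] (e' := [n1,n0,n0,n0,n0,n0,n0,n0,n0,n0,n1,n1,m2]) (by decide +kernel) (.t t27
  ok27) (.h (Helper55.TR.GT.lJ Helper55.CD.Dm1_1_c0u_5_1_13.g 436081415005033289812960349437350134947474927255882575198518023804162290933890817403715956926271176174929066230693376779768916811221821610020992123754588484602794313535928610491854428608750927544666666335391293039969282 (by decide +kernel)))

theorem cl28 : Clo K (Helper55.TR.GT 1 Helper55.TR.BrU) r45 :=
  .w [n0,n0,n0,n0,n0,n0,n0,n0,n0,n0,n1,n1,m2] (e' := [n1,n0,n0,n0,n0,n0,n0,n0,n0,n0,m1,m1,n2]) (by decide +kernel) (.t t26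
  ok26) cl27

theorem cl29 : Clo K (Helper55.TR.GT 1 Helper55.TR.BrU) r44 :=
  .i [n1,n0,m3,m3,n1,n0,n0,m1,n0,m1] (e' := [n0,n0,n3,n3,m1,n0,n0,n1,n0,n1]) (by decide +kernel)
  (by decide +kernel) (.t t25 ok25) cl28

theorem cl30 : Clo K (Helper55.TR.GT 1 Helper55.TR.BrU) r43 :=
  .i [n0,n0,n0,n0,n0,n0,n1,n0,m2] (e' := [n1,n0,n0,n0,n0,n0,m1,n0,n2]) (by decide +kernel) (by decide +kernel) (.t
  t24 ok24) cl29

theorem cl31 : Clo K (Helper55.TR.GT 1 Helper55.TR.BrU) l42 :=
  .i [n0,n1,m1,m1,n0,n0,n0,m1,n0,m1] (e' := [n1,m1,n1,n1,n0,n0,n0,n1,n0,n1]) (by decide +kernel)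
  (by decide +kernel) (.t t23 ok23) cl30

theorem cl32 : Clo K (Helper55.TR.GT 1 Helper55.TR.BrU) r50 :=
  .w [n0,n0,n0,n0,n0,n0,n0,n0,n0,n0,m1,m1,n2] (e' := [n1,n0,n0,n0,n0,n0,n0,n0,n0,n0,n1,n1,m2]) (by decide +kernel) (.t t31
  ok31) (.h (Helper55.TR.GT.lJ Helper55.CD.Dm1_1_c0u_5_1_14.g 510449301572087912837948541982156428199920151265618457489459163016261615061525164051651549312482437445000946318828670123057714088403929017794027309400292181444131218515659760209496685409611301207515813256360887298 (by decide +kernel)))

theorem cl33 : Clo K (Helper55.TR.GT 1 Helper55.TR.BrU) r49 :=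
  .w [n0,n0,n0,n0,n0,n0,n0,n0,n0,n0,n1,n1,m2] (e' := [n1,n0,n0,n0,n0,n0,n0,n0,n0,n0,m1,m1,n2]) (by decide +kernel) (.t t30
  ok30) cl32

theorem cl34 : Clo K (Helper55.TR.GT 1 Helper55.TR.BrU) r48 :=
  .i [n1,n0,m3,m3,n1,n0,n0,m2] (e' := [n0,n0,n3,n3,m1,n0,n0,n2]) (by decide +kernel) (by decide +kernel) (.t
  t29 ok29) cl33

theorem cl35 : Clo K (Helper55.TR.GT 1 Helper55.TR.BrU) r42 :=
  .i [n0,n0,n0,n0,n0,n0,n1,n0,m2] (e' := [n1,n0,n0,n0,n0,n0,m1,n0,n2]) (by decide +kernel) (by decide +kernel) (.t
  t28 ok28) cl34

theorem cl36 : Clo K (Helper55.TR.GT 1 Helper55.TR.BrU) l41 :=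
  .i [n0,n0,m1,m1,n0,n0,n0,m2,n0,m1] (e' := [n1,n0,n1,n1,n0,n0,n0,n2,n0,n1]) (by decide +kernel)
  (by decide +kernel) cl31 cl35

theorem cl37 : Clo K (Helper55.TR.GT 1 Helper55.TR.BrU) r52 :=
  .w [n0,n0,n0,n0,n0,n0,n0,n0,n0,n0,n1,n1,m2] (e' := [n1,n0,n0,n0,n0,n0,n0,n0,n0,n0,m1,m1,n2]) (by decide +kernel) (.t t33
  ok33) (.h (Helper55.TR.GT.lb Helper55.CD.Dm1_1_c0u_5_1_15.g 449884512708210205821521719886995447127287439242241031336096938328408643928065031151803990456149353220195578324046593031226033483928309075273661395195069298963262118536164876781406372867628358407601172 (by decide +kernel)))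

theorem cl38 : Clo K (Helper55.TR.GT 1 Helper55.TR.BrU) r41 :=
  .i [n0,n1,m1,n0,n0,n0,n0,m1,n0,m1] (e' := [n1,m1,n1,n0,n0,n0,n0,n1,n0,n1]) (by decide +kernel)
  (by decide +kernel) (.t t32 ok32) cl37

theorem cl39 : Clo K (Helper55.TR.GT 1 Helper55.TR.BrU) l40 :=
  .q [n0,n0,n0,n0,n0,n0,n0,n0,n0,n0,m1,n1,n1] (e' := [n0,n0,n0,n0,n0,n0,n0,n0,n0,n0,n1,m1,m1]) (.ed false [0,0,1,1] (.r
  (-1) ⟨35,[(17,5),(3,3),(3,35),(12,20),(4,13),(7,1),(2,0),(3,7)]⟩ ⟨1,[(0,0),(40,2)]⟩))
  (by decide +kernel) (by decide +kernel) cl36 cl38

theorem cl40 : Clo K (Helper55.TR.GT 1 Helper55.TR.BrU) r36 :=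
  .i [n1,n0,n0,n0,n0,n0,n0,n1,n0,m2] (e' := [n0,n0,n0,n0,n0,n0,n0,m1,n0,n2]) (by decide +kernel) (by decide +kernel)
  cl39 (.t t34 ok34)

theorem cl41 : Clo K (Helper55.TR.GT 1 Helper55.TR.BrU) r33 :=
  .i [n0,n0,n2,n2,m1,n0,n0,m1,n0,n1] (e' := [n1,n0,m2,m2,n1,n0,n0,n1,n0,m1]) (by decide +kernel)
  (by decide +kernel) cl26 cl40

theorem cl42 : Clo K (Helper55.TR.GT 1 Helper55.TR.BrU) r32 :=
  .q [n0,n0,n0,m1,n0,n0,n1,n1,m1,m1,n1,n1,m1] (e' := [n0,n0,n0,n1,n0,n0,m1,m1,n1,n1,m1,m1,n1]) (.p false [0,0,-1,1]
  [1] (⟨0,[(9,0)]⟩,⟨0,[(11,0),(22,0)]⟩) .k 1 (⟨0,[]⟩,⟨0,[]⟩) .k (.r 0 ⟨1,[(4,0),(17,0),(15,0),(11,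
  0)]⟩ ⟨11,[(3,6),(2,4),(11,10),(4,4),(3,1),(4,4),(7,4),(7,3),(2,1)]⟩)) (by decide +kernel)
  (by decide +kernel) cl23 cl41

theorem cl43 : Clo K (Helper55.TR.GT 1 Helper55.TR.BrU) r31 :=
  .i [n0,n0,n2,n0,m1,n2,n0,n0,n1] (e' := [n1,n0,m2,n0,n1,m2,n0,n0,m1]) (by decide +kernel) (by decide +kernel)
  (.t t17 ok17) cl42

theorem cl44 : Clo K (Helper55.TR.GT 1 Helper55.TR.BrU) l30 :=
  .i [n0,n0,m2,n0,n1,m2,n0,n0,m1] (e' := [n1,n0,n2,n0,m1,n2,n0,n0,n1]) (by decide +kernel) (by decide +kernel)
  (.t t16 ok16) cl43

theorem cl45 : Clo K (Helper55.TR.GT 1 Helper55.TR.BrU) l55 :=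
  .i [n1,n1,n2,n2,m1,n0,n0,n0,n0,m1] (e' := [n0,m1,m2,m2,n1,n0,n0,n0,n0,n1]) (by decide +kernel)
  (by decide +kernel) (.t t36 ok36) (.h (Helper55.TR.GT.lJ Helper55.CD.Dm1_1_c0u_5_1_16.g 431437041460126036831251936647920855721920454651540515206296518432177972304083437688029706999802970179786209139616577248572401982715777390286238810775478701404735125130854690777341187991336244130298732547 (by decide +kernel)))

theorem cl46 : Clo K (Helper55.TR.GT 1 Helper55.TR.BrU) l58 :=
  .i [n0,n1,n2,n1,m1,n0,n0,n0,n0,m1] (e' := [n1,m1,m2,m1,n1,n0,n0,n0,n0,n1]) (by decide +kernel)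
  (by decide +kernel) (.t t37 ok37) (.h (Helper55.TR.GT.lJ Helper55.CD.Dm1_1_c0u_5_1_17.g 76881554612878870452952757349479760458587644053816017590010265004022872206150661537125858643515385175191915544843890018798840109975419266117954898169501431417996002609702287780443964114178241825124355 (by decide +kernel)))

theorem cl47 : Clo K (Helper55.TR.GT 1 Helper55.TR.BrU) r62 :=
  .q [n0,m1,n0,n1,n0,n0,m1,m1,n0,n0,n1,m1] (e' := [n0,n1,n0,m1,n0,n0,n1,n1,n0,n0,m1,n1]) (.p false [0,0,1] [1] (⟨0,
  [(39,0)]⟩,⟨0,[(34,0)]⟩) .k 1 (⟨0,[]⟩,⟨0,[]⟩) .k .k) (by decide +kernel) (by decide +kernel) (.t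
  t39 ok39) (.h (Helper55.TR.GT.lJ Helper55.CD.Dm1_1_c0u_5_1_18.g 351294382577436898159892111075120572689254254251715179990427138563378434323399204886344165906436978851480534169887724765069783804219747159112212040309055046535148282190510404002965454365422700316652010996739 (by decide +kernel)))

theorem cl48 : Clo K (Helper55.TR.GT 1 Helper55.TR.BrU) l61 :=
  .q [n0,n0,n1,n0,n0,n0,m2,n0,m1,n0,n2,m2,m1] (e' := [n0,n0,m1,n0,n0,n0,n2,n0,n1,n0,m2,n2,n1]) (.p false [0,0,1] [2,0,
  -1,-1] (⟨0,[(38,0)]⟩,⟨0,[(33,0)]⟩) .k 2 (⟨0,[(15,0),(17,0)]⟩,⟨0,[(1,0)]⟩) .k (.r (-1) ⟨2,[(26,2),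
  (12,0),(4,1),(14,0),(4,0)]⟩ ⟨0,[(0,0),(46,0)]⟩)) (by decide +kernel) (by decide +kernel) (.t t38
  ok38) cl47

theorem cl49 : Clo K (Helper55.TR.GT 1 Helper55.TR.BrU) l64 :=
  .i [n1,n0,m1,m1,n0,n0,n0,m1,n0,m2] (e' := [n0,n0,n1,n1,n0,n0,n0,n1,n0,n2]) (by decide +kernel)
  (by decide +kernel) (.t t40 ok40) (.h (Helper55.TR.GT.lb Helper55.CD.Dm1_1_c0u_5_1_19.g 517408495951299915354846401140041316235114240461146437175500700794074960667765651314463584672662004756913790910017187278751546678066694817712996589018160851806145898250864253500991604326035256516304782100267897196547 (by decide +kernel)))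

theorem cl50 : Clo K (Helper55.TR.GT 1 Helper55.TR.BrU) r64 :=
  .q [n0,n0,n1,n0,n0,n0,m2,n0,m1,n0,n2,m2,m1] (e' := [n0,n0,m1,n0,n0,n0,n2,n0,n1,n0,m2,n2,n1]) (.p false [0,0,1] [2,0,
  -1,-1] (⟨0,[(39,0)]⟩,⟨0,[(34,0)]⟩) .k 2 (⟨0,[(16,0),(17,0)]⟩,⟨0,[(2,0)]⟩) .k (.r (-1) ⟨8,[(1,0),
  (25,7),(12,2),(4,5),(14,3),(3,0)]⟩ ⟨7,[(0,3),(22,2),(19,7),(3,1),(0,0),(8,0)]⟩))
  (by decide +kernel) (by decide +kernel) (.t t41 ok41) (.h (Helper55.TR.GT.lJ Helper55.CD.Dm1_1_c0u_5_1_20.g 385544865281736833821452297923664409003561548083619049690709965125785608436635758236254207331503047918662308898217355932788533340766578479114590295606582061225695244329419999561200205516606614231569411940025350 (by decide +kernel)))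

theorem cl51 : Clo K (Helper55.TR.GT 1 Helper55.TR.BrU) r61 :=
  .i [n1,n0,n1,n1,n0,n0,n0,n1,n0,n2] (e' := [n0,n0,m1,m1,n0,n0,n0,m1,n0,m2]) (by decide +kernel)
  (by decide +kernel) cl49 cl50

theorem cl52 : Clo K (Helper55.TR.GT 1 Helper55.TR.BrU) l60 :=
  .i [n1,n1,m1,n0,n0,n0,n0,m1,n0,m1] (e' := [n0,m1,n1,n0,n0,n0,n0,n1,n0,n1]) (by decide +kernel)
  (by decide +kernel) cl48 cl51

theorem cl53 : Clo K (Helper55.TR.GT 1 Helper55.TR.BrU) r69 :=
  .q [n0,m1,n0,n1,n0,n0,m1,m1,n0,n0,n1,m1] (e' := [n0,n1,n0,m1,n0,n0,n1,n1,n0,n0,m1,n1]) (.p false [0,0,1] [1] (⟨0,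
  [(40,0)]⟩,⟨0,[(35,0)]⟩) .k 1 (⟨0,[]⟩,⟨0,[]⟩) .k .k) (by decide +kernel) (by decide +kernel) (.t
  t43 ok43) (.h (Helper55.TR.GT.lJ Helper55.CD.Dm1_1_c0u_5_1_21.g 498415131482364234650444951500253628241429020369403151038473240102805051865092186378791930655960062562585600204099665268403948959552048693672436867626106504788874296804257277738520950671779206690349275582302209 (by decide +kernel)))

theorem cl54 : Clo K (Helper55.TR.GT 1 Helper55.TR.BrU) l68 :=
  .q [n0,n0,n1,n0,n0,n0,m2,n0,m1,n0,n1,m2,m1] (e' := [n0,n0,m1,n0,n0,n0,n2,n0,n1,n0,m1,n2,n1]) (.p false [0,0,1] [1,0,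
  -1,-1] (⟨0,[(39,0)]⟩,⟨0,[(34,0)]⟩) .k 2 (⟨0,[(2,0)]⟩,⟨0,[(18,0),(20,0)]⟩) .k (.r (-1) ⟨2,[(27,2),
  (12,0),(4,1),(14,0),(4,0)]⟩ ⟨0,[(1,0),(46,0)]⟩)) (by decide +kernel) (by decide +kernel) (.t t42
  ok42) cl53

theorem cl55 : Clo K (Helper55.TR.GT 1 Helper55.TR.BrU) r71 :=
  .q [n0,m1,n0,n1,n0,n0,m1,m1,n0,n0,n1,m1] (e' := [n0,n1,n0,m1,n0,n0,n1,n1,n0,n0,m1,n1]) (.p false [0,0,1] [1] (⟨0,
  [(40,0)]⟩,⟨0,[(35,0)]⟩) .k 1 (⟨0,[]⟩,⟨0,[]⟩) .k .k) (by decide +kernel) (by decide +kernel) (.t
  t45 ok45) (.h (Helper55.TR.GT.lJ Helper55.CD.Dm1_1_c0u_5_1_22.g 82275275671894986603538271890857770385073428332304771592866979599367521123516207339507558801318290035335263158717361626466932679846601783977286078997316961682666920875928853608899243937515131064936958010601474 (by decide +kernel)))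

theorem cl56 : Clo K (Helper55.TR.GT 1 Helper55.TR.BrU) r68 :=
  .q [n0,n0,n1,n0,n0,n0,m2,n0,m1,n0,n1,m2,m1] (e' := [n0,n0,m1,n0,n0,n0,n2,n0,n1,n0,m1,n2,n1]) (.p false [0,0,1] [1,0,
  -1,-1] (⟨0,[(39,0)]⟩,⟨0,[(34,0)]⟩) .k 2 (⟨0,[(2,0)]⟩,⟨0,[(18,0),(20,0)]⟩) .k (.r (-1) ⟨2,[(27,2),
  (12,0),(4,1),(14,0),(4,0)]⟩ ⟨0,[(1,0),(46,0)]⟩)) (by decide +kernel) (by decide +kernel) (.t t44
  ok44) cl55

theorem cl57 : Clo K (Helper55.TR.GT 1 Helper55.TR.BrU) l67 :=
  .q [n0,n0,n0,n0,n0,n1,n0,n0,n0,n0,m1,n1,n1] (e' := [n0,n0,n0,n0,n0,m1,n0,n0,n0,n0,n1,m1,m1]) (.p true [0,0,1,1] [1] (⟨0,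
  [(17,0),(20,0)]⟩,⟨0,[(1,0)]⟩) .k 1 (⟨0,[]⟩,⟨0,[]⟩) .k (.r (-1) ⟨35,[(18,5),(3,3),(3,35),(12,20),
  (4,13),(7,1),(2,0),(3,7)]⟩ ⟨5,[(0,3),(6,1),(14,0),(24,1),(12,0)]⟩)) (by decide +kernel)
  (by decide +kernel) cl54 cl56

theorem cl58 : Clo K (Helper55.TR.GT 1 Helper55.TR.BrU) r60 :=
  .i [n0,n1,m1,n0,n0,n0,n0,m1,n0,m1] (e' := [n1,m1,n1,n0,n0,n0,n0,n1,n0,n1]) (by decide +kernel)
  (by decide +kernel) cl57 (.h (Helper55.TR.GT.sub Helper55.CD.Dm1_1_c0u_5_1_23.g 397333530018800666772273246004438437315531374091271876184451469272005497228451776585176216265504149170804438756661629265097485677907908671581413007369879389928227030806519382934782731330549516342 (by decide +kernel)))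

theorem cl59 : Clo K (Helper55.TR.GT 1 Helper55.TR.BrU) r58 :=
  .q [n0,n0,n0,n0,n0,n0,n0,n0,n0,n0,m1,n1,n1] (e' := [n0,n0,n0,n0,n0,n0,n0,n0,n0,n0,n1,m1,m1]) (.ed false [0,0,1,1] (.r
  (-1) ⟨35,[(16,5),(3,3),(3,35),(12,20),(4,13),(7,1),(2,0),(3,7)]⟩ ⟨2,[(3,0),(1,1),(8,0),(25,0),(13,
  0),(0,1)]⟩)) (by decide +kernel) (by decide +kernel) cl52 cl58

theorem cl60 : Clo K (Helper55.TR.GT 1 Helper55.TR.BrU) l57 :=
  .q [n0,n0,n0,m2,n0,n0,n0,n0,n1,n1,n0,n0,n1] (e' := [n0,n0,n0,n2,n0,n0,n0,n0,m1,m1,n0,n0,m1]) (.p true [0,0,0,1] [] (⟨0,
  [(14,0)]⟩,⟨0,[(12,0)]⟩) .k 0 (⟨0,[]⟩,⟨0,[]⟩) .k .k) (by decide +kernel) (by decide +kernel) cl46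
  cl59

theorem cl61 : Clo K (Helper55.TR.GT 1 Helper55.TR.BrU) r55 :=
  .i [n0,n0,m2,m2,n1,n0,n0,n0,n0,n1] (e' := [n1,n0,n2,n2,m1,n0,n0,n0,n0,m1]) (by decide +kernel)
  (by decide +kernel) cl60 (.t t46 ok46)

theorem cl62 : Clo K (Helper55.TR.GT 1 Helper55.TR.BrU) r54 :=
  .q [n0,n0,m2,n0,n1,n0,m1,n0,n0,n0,n1,m1] (e' := [n0,n0,n2,n0,m1,n0,n1,n0,n0,n0,m1,n1]) (.p false [0,0,1] [1] (⟨0,
  [(33,0)]⟩,⟨0,[(28,0)]⟩) .k 1 (⟨0,[]⟩,⟨0,[]⟩) .k .k) (by decide +kernel) (by decide +kernel) cl45
  cl61

theorem cl63 : Clo K (Helper55.TR.GT 1 Helper55.TR.BrU) r30 :=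
  .q [n0,m1,n0,m2,n0,n0,m1,m1,n1,n1,n0,m1,n1] (e' := [n0,n1,n0,n2,n0,n0,n1,n1,m1,m1,n0,n1,m1]) (.p true [0,0,-1,1] []
  (⟨0,[(7,0)]⟩,⟨0,[(9,0),(22,0)]⟩) .k 0 (⟨0,[]⟩,⟨0,[]⟩) .k (.r 0 ⟨1,[(2,0),(17,0),(15,0),(11,0)]⟩
  ⟨11,[(1,6),(2,4),(11,10),(4,4),(3,1),(4,4),(7,4),(7,3),(2,1)]⟩)) (by decide +kernel)
  (by decide +kernel) (.t t35 ok35) cl62

theorem cl64 : Clo K (Helper55.TR.GT 1 Helper55.TR.BrU) r14 :=
  .q [n0,n0,n2,n0,m1,n0,n0,n0,n1,n0,n0,n0,n1] (e' := [n0,n0,m2,n0,n1,n0,n0,n0,m1,n0,n0,n0,m1]) (.p true [0,0,0,1] [] (⟨0,
  [(10,0)]⟩,⟨0,[(8,0)]⟩) .k 0 (⟨0,[]⟩,⟨0,[]⟩) .k .k) (by decide +kernel) (by decide +kernel) cl44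
  cl63

theorem cl65 : Clo K (Helper55.TR.GT 1 Helper55.TR.BrU) r6 :=
  .i [n0,n1,n0,n0,n0,n0,n0,n0,n0,n1] (e' := [n1,m1,n0,n0,n0,n0,n0,n0,n0,m1]) (by decide +kernel) (by decide +kernel)
  cl21 cl64

theorem cl66 : Clo K (Helper55.TR.GT 1 Helper55.TR.BrU) r5 :=
  .i [n0,n0,n2,n2,m1,n0,n0,n0,n0,m1] (e' := [n1,n0,m2,m2,n1,n0,n0,n0,n0,n1]) (by decide +kernel)
  (by decide +kernel) cl6 cl65

theorem cl67 : Clo K (Helper55.TR.GT 1 Helper55.TR.BrU) l4 :=
  .q [n0,n0,n0,n0,n0,n2,n0,n0,n0,n0,m1,n0,n1] (e' := [n0,n0,n0,n0,n0,m2,n0,n0,n0,n0,n1,n0,m1]) (.p true [0,0,0,1] [1] (⟨0,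
  [(7,0)]⟩,⟨0,[(5,0)]⟩) .k 1 (⟨0,[]⟩,⟨0,[]⟩) .k .k) (by decide +kernel) (by decide +kernel) (.t t2
  ok2) cl66

theorem cl68 : Clo K (Helper55.TR.GT 1 Helper55.TR.BrU) l83 :=
  .i [n0,n0,m2,m2,n1,n0,n0,n0,n0,n1] (e' := [n1,n0,n2,n2,m1,n0,n0,n0,n0,m1]) (by decide +kernel)
  (by decide +kernel) (.t t52 ok52) (.h (Helper55.TR.GT.lJ Helper55.CD.Dm1_1_c0u_5_1_24.g 466609297250593073369201669112854596575574864619924234861956179631677179213704211444460167042971983735910605938772589547256303016734415510839016135783485297575957190013594270359030266708357807923912824061954 (by decide +kernel)))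

theorem cl69 : Clo K (Helper55.TR.GT 1 Helper55.TR.BrU) r82 :=
  .q [n0,n0,n0,m2,n0,n0,n0,n0,n1,n1,n0,n0,n1] (e' := [n0,n0,n0,n2,n0,n0,n0,n0,m1,m1,n0,n0,m1]) (.p true [0,0,0,1] [] (⟨0,
  [(17,0)]⟩,⟨0,[(15,0)]⟩) .k 0 (⟨0,[]⟩,⟨0,[]⟩) .k .k) (by decide +kernel) (by decide +kernel) cl68
  (.h (Helper55.TR.GT.lJ Helper55.CD.Dm1_1_c0u_5_1_25.g 84542577627776095004727208221457316211770242123638768448888990748960687195885690129388430552802505725677073671584212728477469171763823215906620271338429998880071484089080837317031797849131507995186721784224296962 (by decide +kernel)))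

theorem cl70 : Clo K (Helper55.TR.GT 1 Helper55.TR.BrU) r81 :=
  .q [n0,m1,n0,n1,n0,n0,m1,m1,n0,n0,n1,m1] (e' := [n0,n1,n0,m1,n0,n0,n1,n1,n0,n0,m1,n1]) (.p false [0,0,1] [1] (⟨0,
  [(37,0)]⟩,⟨0,[(32,0)]⟩) .k 1 (⟨0,[]⟩,⟨0,[]⟩) .k .k) (by decide +kernel) (by decide +kernel) (.t
  t51 ok51) cl69

theorem cl71 : Clo K (Helper55.TR.GT 1 Helper55.TR.BrU) r80 :=
  .q [n0,n0,n0,m2,n0,n0,n1,n1,m1,m1,n0,n1,m1] (e' := [n0,n0,n0,n2,n0,n0,m1,m1,n1,n1,n0,m1,n1]) (.p false [0,0,-1,1] []
  (⟨0,[(11,0)]⟩,⟨0,[(13,0),(22,0)]⟩) .k 0 (⟨0,[]⟩,⟨0,[]⟩) .k (.r 0 ⟨2,[(0,0),(23,0),(15,1)]⟩ ⟨13,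
  [(1,6),(12,13),(1,4),(3,1),(16,3),(4,4),(7,2),(2,4),(0,2)]⟩)) (by decide +kernel)
  (by decide +kernel) (.t t50 ok50) cl70

theorem cl72 : Clo K (Helper55.TR.GT 1 Helper55.TR.BrU) l79 :=
  .i [n0,n1,n0,n0,n0,n0,n0,n1,n0,m2] (e' := [n1,m1,n0,n0,n0,n0,n0,m1,n0,n2]) (by decide +kernel) (by decide +kernel)
  (.t t49 ok49) cl71

theorem cl73 : Clo K (Helper55.TR.GT 1 Helper55.TR.BrU) r85 :=
  .q [n0,m1,m2,n0,n1,n0,m1,m1,m1,n0,n1,m1,m1] (e' := [n0,n1,n2,n0,m1,n0,n1,n1,n1,n0,m1,n1,n1]) (.p false [0,0,1] [1,
  0,0,-1] (⟨0,[(36,0)]⟩,⟨0,[(31,0)]⟩) .k 2 (⟨0,[(13,0)]⟩,⟨0,[(15,0)]⟩) .k (.r (-1) ⟨35,[(16,5),(3,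
  3),(3,35),(12,20),(4,13),(7,1),(2,0),(3,7)]⟩ ⟨8,[(2,0),(11,5),(13,2),(5,4),(5,8),(13,1)]⟩))
  (by decide +kernel) (by decide +kernel) (.t t54 ok54) (.h (Helper55.TR.GT.lJ Helper55.CD.Dm1_1_c0u_5_1_26.g 336452919582029429317040720289994923907507467569105708545546558677340226097019999181731240709579591879429423303434030952470586704036579205084152420845998894373740199449586735430979015420173294239746 (by decide +kernel)))

theorem cl74 : Clo K (Helper55.TR.GT 1 Helper55.TR.BrU) r79 :=
  .i [n0,n1,n0,m1,n0,n0,n0,n1,n0,m2] (e' := [n1,m1,n0,n1,n0,n0,n0,m1,n0,n2]) (by decide +kernel)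
  (by decide +kernel) (.t t53 ok53) cl73

theorem cl75 : Clo K (Helper55.TR.GT 1 Helper55.TR.BrU) l78 :=
  .q [n0,n0,n0,n0,n0,n0,n1,n1,m2,m2,n1,n1,m2] (e' := [n0,n0,n0,n0,n0,n0,m1,m1,n2,n2,m1,m1,n2]) (.p false [0,0,0,1] [1,
  0,1,-1] (⟨0,[(13,0)]⟩,⟨0,[(11,0)]⟩) .k 2 (⟨0,[(11,0),(22,0)]⟩,⟨0,[(9,0)]⟩) .k (.x (-1) ⟨3,[(11,7),
  (0,4),(21,3),(2,2),(10,1),(2,2),(5,0)]⟩ ⟨0,[(2,0),(3,0),(0,0),(9,2)]⟩)) (by decide +kernel)
  (by decide +kernel) cl72 cl74

theorem cl76 : Clo K (Helper55.TR.GT 1 Helper55.TR.BrU) r89 :=
  .i [n0,n1,n0,n0,n0,n0,n0,n1,n0,m2] (e' := [n1,m1,n0,n0,n0,n0,n0,m1,n0,n2]) (by decide +kernel) (by decide +kernel)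
  (.t t57 ok57) (.h (Helper55.TR.GT.lb Helper55.CD.Dm1_1_c0u_5_1_28.g 411587868337658061858477956587728807351964999876682228148100560808711870630150376532489663659958454881422241744936223797367295849812367174127243946781048736529491288593838629301110634838802906054672779331 (by decide +kernel)))

theorem cl77 : Clo K (Helper55.TR.GT 1 Helper55.TR.BrU) r88 :=
  .i [n0,n0,m2,n0,n1,m2,n0,n0,m1] (e' := [n1,n0,n2,n0,m1,n2,n0,n0,n1]) (by decide +kernel) (by decide +kernel)
  (.t t56 ok56) cl76

theorem cl78 : Clo K (Helper55.TR.GT 1 Helper55.TR.BrU) r87 :=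
  .q [n0,n0,m2,n0,n1,n0,n0,n0,m1,n0,n0,n0,m1] (e' := [n0,n0,n2,n0,m1,n0,n0,n0,n1,n0,n0,n0,n1]) (.p false [0,0,0,1] [] (⟨0,
  [(14,0)]⟩,⟨0,[(12,0)]⟩) .k 0 (⟨0,[]⟩,⟨0,[]⟩) .k .k) (by decide +kernel) (by decide +kernel) (.t
  t55 ok55) cl77

theorem cl79 : Clo K (Helper55.TR.GT 1 Helper55.TR.BrU) r78 :=
  .q [n0,n0,n0,n1,n0,n0,m1,m1,n1,n1,m1,m1,n1] (e' := [n0,n0,n0,m1,n0,n0,n1,n1,m1,m1,n1,n1,m1]) (.p true [0,0,-1,1]
  [1] (⟨0,[(9,0)]⟩,⟨0,[(11,0),(22,0)]⟩) .k 1 (⟨0,[]⟩,⟨0,[]⟩) .k (.r 0 ⟨2,[(0,0),(3,0),(1,0),(14,0),
  (0,0),(15,0)]⟩ ⟨24,[(12,21),(5,16),(7,2),(5,21),(2,4),(4,18),(7,1),(2,0),(0,12)]⟩))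
  (by decide +kernel) (by decide +kernel) (.h (Helper55.TR.GT.sub Helper55.CD.Dm1_1_c0u_5_1_27.g 306577563895787436903120736461159845665263630431361159810474421534967560364464511993810181774677306889372933762348760984240301190851010580087792987178521966505346833393818114699344301285225454318477322 (by decide +kernel))) cl78

theorem cl80 : Clo K (Helper55.TR.GT 1 Helper55.TR.BrU) l77 :=
  .q [n0,n1,n0,m2,n0,n0,n2,n2,m1,m1,n0,n2,m1] (e' := [n0,m1,n0,n2,n0,n0,m2,m2,n1,n1,n0,m2,n1]) (.p true [0,0,1] [0,0,
  -1,1] (⟨0,[(33,0)]⟩,⟨0,[(28,0)]⟩) .k 2 (⟨0,[(8,0)]⟩,⟨0,[(10,0),(22,0)]⟩) .k (.r (-1) ⟨41,[(2,2),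
  (8,35),(5,21),(7,2),(5,38),(7,40),(7,10),(2,3),(3,1)]⟩ ⟨1,[(3,0),(17,0),(15,2),(11,0)]⟩))
  (by decide +kernel) (by decide +kernel) cl75 cl79

theorem cl81 : Clo K (Helper55.TR.GT 1 Helper55.TR.BrU) l96 :=
  .q [n0,n0,n0,m2,n0,n0,n0,n0,n1,n1,n0,n0,n1] (e' := [n0,n0,n0,n2,n0,n0,n0,n0,m1,m1,n0,n0,m1]) (.p true [0,0,0,1] [] (⟨0,
  [(18,0)]⟩,⟨0,[(16,0)]⟩) .k 0 (⟨0,[]⟩,⟨0,[]⟩) .k .k) (by decide +kernel) (by decide +kernel) (.t
  t60 ok60) (.h (Helper55.TR.GT.lJ Helper55.CD.Dm1_1_c0u_5_1_29.g 385735764794313594200616445252095853220027588532762880683073210406642607349376911889273401436452864026237143878876346985848225811015868879660143939992084324001942470773688577263839934266105370706903533820616706 (by decide +kernel)))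

theorem cl82 : Clo K (Helper55.TR.GT 1 Helper55.TR.BrU) l95 :=
  .i [n0,n0,n2,n1,m1,n0,n0,n0,n0,m1] (e' := [n1,n0,m2,m1,n1,n0,n0,n0,n0,n1]) (by decide +kernel)
  (by decide +kernel) cl81 (.h (Helper55.TR.GT.lJ Helper55.CD.Dm1_1_c0u_5_1_30.g 444263507228099375726513658349990428694214321846507294145675377229832339515138581505526729637454263176226371544290174553873949511275103601704841080550560337915518075284804002462191378623485038300162 (by decide +kernel)))

theorem cl83 : Clo K (Helper55.TR.GT 1 Helper55.TR.BrU) l94 :=
  .i [n0,n0,m2,m2,n1,n0,n0,n0,n0,n1] (e' := [n1,n0,n2,n2,m1,n0,n0,n0,n0,m1]) (by decide +kernel)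
  (by decide +kernel) cl82 (.t t61 ok61)

theorem cl84 : Clo K (Helper55.TR.GT 1 Helper55.TR.BrU) r94 :=
  .i [n0,n1,n0,m1,n0,n0,n0,n1,n0,m1] (e' := [n1,m1,n0,n1,n0,n0,n0,m1,n0,n1]) (by decide +kernel)
  (by decide +kernel) (.t t62 ok62) (.h (Helper55.TR.GT.lJ Helper55.CD.Dm1_1_c0u_5_1_31.g 472956982306229461183078928774288344363761519868200497132430355814823596038626290094111858372494382085554059689428503368409963233656192779942038699083975447627983797759047260790122688823463488448734672780788739 (by decide +kernel)))

theorem cl85 : Clo K (Helper55.TR.GT 1 Helper55.TR.BrU) r93 :=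
  .i [n0,n0,m2,n0,n1,m2,n0,n0,m1] (e' := [n1,n0,n2,n0,m1,n2,n0,n0,n1]) (by decide +kernel) (by decide +kernel)
  cl83 cl84

theorem cl86 : Clo K (Helper55.TR.GT 1 Helper55.TR.BrU) r92 :=
  .i [n0,n1,m1,m1,n0,n0,n0,m1,n0,m1] (e' := [n1,m1,n1,n1,n0,n0,n0,n1,n0,n1]) (by decide +kernel)
  (by decide +kernel) (.t t59 ok59) cl85

theorem cl87 : Clo K (Helper55.TR.GT 1 Helper55.TR.BrU) l91 :=
  .i [n1,n1,m1,n0,n0,n0,n0,m1,n0,m1] (e' := [n0,m1,n1,n0,n0,n0,n0,n1,n0,n1]) (by decide +kernel)
  (by decide +kernel) (.t t58 ok58) cl86

theorem cl88 : Clo K (Helper55.TR.GT 1 Helper55.TR.BrU) r100 :=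
  .q [n0,n0,n0,m2,n0,n0,n1,n1,m1,m1,n1,n1,m1] (e' := [n0,n0,n0,n2,n0,n0,m1,m1,n1,n1,m1,m1,n1]) (.p false [0,0,-1,1]
  [1] (⟨0,[(11,0)]⟩,⟨0,[(13,0),(22,0)]⟩) .k 1 (⟨0,[]⟩,⟨0,[]⟩) .k (.r 0 ⟨1,[(6,0),(17,0),(15,0),(11,
  0)]⟩ ⟨0,[(1,0),(14,0),(20,0)]⟩)) (by decide +kernel) (by decide +kernel) (.t t64 ok64) (.h
  (Helper55.TR.GT.lJ Helper55.CD.Dm1_1_c0u_5_1_32.g 361464291730476950349432507311065437755621812335439051820208431855506541279735772987091380229682080365315022602933325978604450377583297884704571080774702671083637366592567175636900422601533860549671105114112 (by decide +kernel)))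

theorem cl89 : Clo K (Helper55.TR.GT 1 Helper55.TR.BrU) l99 :=
  .q [n0,n0,n0,m1,n0,n0,n1,n1,m1,m1,n1,n1,m1] (e' := [n0,n0,n0,n1,n0,n0,m1,m1,n1,n1,m1,m1,n1]) (.p false [0,0,-1,1]
  [1] (⟨0,[(10,0)]⟩,⟨0,[(12,0),(22,0)]⟩) .k 1 (⟨0,[]⟩,⟨0,[]⟩) .k (.r 0 ⟨1,[(5,0),(17,0),(15,0),(11,
  0)]⟩ ⟨0,[(0,0),(14,0),(20,0)]⟩)) (by decide +kernel) (by decide +kernel) (.t t63 ok63) cl88

theorem cl90 : Clo K (Helper55.TR.GT 1 Helper55.TR.BrU) l103 :=
  .q [n0,n0,n1,n0,n0,n0,m2,n0,m1,n0,n1,m2,m1] (e' := [n0,n0,m1,n0,n0,n0,n2,n0,n1,n0,m1,n2,n1]) (.p false [0,0,1] [1,0,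
  -1,-1] (⟨0,[(37,0)]⟩,⟨0,[(32,0)]⟩) .k 2 (⟨0,[(3,0)]⟩,⟨0,[(16,0),(20,0)]⟩) .k (.r (-1) ⟨2,[(25,2),
  (12,0),(4,1),(14,0),(4,0)]⟩ ⟨0,[(0,0),(45,0)]⟩)) (by decide +kernel) (by decide +kernel) (.t t65
  ok65) (.h (Helper55.TR.GT.lJ Helper55.CD.Dm1_1_c0u_5_1_33.g 80621004103666408145413422054300859177960457217948913336239572578537592740988116762461907906360958370593187258307402542338936178174151034245901517527777193622333332821022649393081846057481022625746878727171 (by decide +kernel)))

theorem cl91 : Clo K (Helper55.TR.GT 1 Helper55.TR.BrU) l106 :=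
  .q [n0,m1,n0,n1,n0,n0,m1,m1,n0,n0,n1,m1] (e' := [n0,n1,n0,m1,n0,n0,n1,n1,n0,n0,m1,n1]) (.p false [0,0,1] [1] (⟨0,
  [(39,0)]⟩,⟨0,[(34,0)]⟩) .k 1 (⟨0,[]⟩,⟨0,[]⟩) .k .k) (by decide +kernel) (by decide +kernel) (.t
  t66 ok66) (.h (Helper55.TR.GT.lJ Helper55.CD.Dm1_1_c0u_5_1_34.g 513117704708562268417044099632611144866077174098729586335349926488883399085647491097680507434878861964138678898019677956942560031874630439871924924326309430619026291001504742604271625115642925503459650441753636204709935 (by decide +kernel)))

theorem cl92 : Clo K (Helper55.TR.GT 1 Helper55.TR.BrU) l105 :=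
  .q [n0,m1,n0,n1,n0,n0,m2,m2,n1,n1,n0,m2,n1] (e' := [n0,n1,n0,m1,n0,n0,n2,n2,m1,m1,n0,n2,m1]) (.p false [0,0,1] [0,0,
  -1,1] (⟨0,[(38,0)]⟩,⟨0,[(33,0)]⟩) .k 2 (⟨0,[(13,0)]⟩,⟨0,[(15,0),(22,0)]⟩) .k (.r (-1) ⟨19,[(5,9),
  (1,1),(8,17),(5,1),(16,0),(4,13),(7,5),(2,6),(3,1)]⟩ ⟨1,[(3,0),(22,0),(15,1),(14,0)]⟩))
  (by decide +kernel) (by decide +kernel) cl91 (.t t67 ok67)

theorem cl93 : Clo K (Helper55.TR.GT 1 Helper55.TR.BrU) r103 :=
  .q [n0,n1,n0,m2,n0,n0,n2,n2,m1,m1,n0,n2,m1] (e' := [n0,m1,n0,n2,n0,n0,m2,m2,n1,n1,n0,m2,n1]) (.p true [0,0,1] [0,0,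
  -1,1] (⟨0,[(37,0)]⟩,⟨0,[(32,0)]⟩) .k 2 (⟨0,[(12,0)]⟩,⟨0,[(14,0),(22,0)]⟩) .k (.r (-1) ⟨19,[(4,9),
  (1,1),(8,17),(5,1),(16,0),(4,13),(7,5),(2,6),(3,1)]⟩ ⟨1,[(2,0),(22,0),(15,1),(14,0)]⟩))
  (by decide +kernel) (by decide +kernel) cl92 (.h (Helper55.TR.GT.sub Helper55.CD.Dm1_1_c0u_5_1_35.g 271114421489618619570225235365929482595572717824123145585555589362983478172545669818909373926492782119232616132396866537641710493490921247728785881257151680641588592091744036523340099329593386887134403624975 (by decide +kernel)))

theorem cl94 : Clo K (Helper55.TR.GT 1 Helper55.TR.BrU) l102 :=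
  .i [n0,n1,m1,n0,n0,n0,n0,m1,n0,m1] (e' := [n1,m1,n1,n0,n0,n0,n0,n1,n0,n1]) (by decide +kernel)
  (by decide +kernel) cl90 cl93

theorem cl95 : Clo K (Helper55.TR.GT 1 Helper55.TR.BrU) l108 :=
  .q [n0,n0,n1,n0,n0,n0,m2,n0,m1,n0,n1,m2,m1] (e' := [n0,n0,m1,n0,n0,n0,n2,n0,n1,n0,m1,n2,n1]) (.p false [0,0,1] [1,0,
  -1,-1] (⟨0,[(37,0)]⟩,⟨0,[(32,0)]⟩) .k 2 (⟨0,[(3,0)]⟩,⟨0,[(16,0),(20,0)]⟩) .k (.r (-1) ⟨2,[(25,2),
  (12,0),(4,1),(14,0),(4,0)]⟩ ⟨0,[(0,0),(45,0)]⟩)) (by decide +kernel) (by decide +kernel) (.t t68
  ok68) (.h (Helper55.TR.GT.lJ Helper55.CD.Dm1_1_c0u_5_1_36.g 80547788953373663445691767720058368197875955175958985096713927687190969635281481246566807712944484837394927303368804993575016521290177014459164538279743906900571836307934899702579570403937778231892396477440 (by decide +kernel)))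

theorem cl96 : Clo K (Helper55.TR.GT 1 Helper55.TR.BrU) l110 :=
  .i [n0,n0,m2,n0,n1,m2,n0,n0,m1] (e' := [n1,n0,n2,n0,m1,n2,n0,n0,n1]) (by decide +kernel) (by decide +kernel)
  (.t t69 ok69) (.h (Helper55.TR.GT.lJ Helper55.CD.Dm1_1_c0u_5_1_37.g 389553577494551463423568273519575351740053075021267568457066047350229438063201799555769734426922705465718046096176627945277850970128384481000603567094479683109516623426606534477672778608963097484861215442435312641 (by decide +kernel)))

theorem cl97 : Clo K (Helper55.TR.GT 1 Helper55.TR.BrU) r113 :=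
  .q [n0,n0,n1,n0,n0,n0,m2,n0,m1,n0,n1,m2,m1] (e' := [n0,n0,m1,n0,n0,n0,n2,n0,n1,n0,m1,n2,n1]) (.p false [0,0,1] [1,0,
  -1,-1] (⟨0,[(40,0)]⟩,⟨0,[(35,0)]⟩) .k 2 (⟨0,[(6,0)]⟩,⟨0,[(19,0),(20,0)]⟩) .k (.r (-1) ⟨8,[(3,0),
  (24,7),(12,2),(4,5),(14,3),(3,0)]⟩ ⟨7,[(0,3),(23,2),(19,7),(3,1),(0,0),(8,0)]⟩))
  (by decide +kernel) (by decide +kernel) (.t t71 ok71) (.h (Helper55.TR.GT.lJ Helper55.CD.Dm1_1_c0u_5_1_38.g 321356662562107992518900469910713687520619645298158308710590752323193073087509989711042482066532087085716781265706464498659295018167148688679079505262116083706808749447308988099863901724611854404658630171614560260 (by decide +kernel)))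

theorem cl98 : Clo K (Helper55.TR.GT 1 Helper55.TR.BrU) l112 :=
  .i [n1,n0,n1,n1,n0,n0,n0,n1,n0,n2] (e' := [n0,n0,m1,m1,n0,n0,n0,m1,n0,m2]) (by decide +kernel)
  (by decide +kernel) (.t t70 ok70) cl97

theorem cl99 : Clo K (Helper55.TR.GT 1 Helper55.TR.BrU) l117 :=
  .i [n1,n1,m2,m1,n1,n0,n0,n1,n0,m1] (e' := [n0,m1,n2,n1,m1,n0,n0,m1,n0,n1]) (by decide +kernel)
  (by decide +kernel) (.t t72 ok72) (.h (Helper55.TR.GT.lJ Helper55.CD.Dm1_1_c0u_5_1_39.g 92949844061585778532596251207763191926566240051967772696556634351888280887264840924314271165027135109018664942016300460774074632794396541717204026515723461336890234514527563063742439048145767237191910806096135161459701215235 (by decide +kernel)))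

theorem cl100 : Clo K (Helper55.TR.GT 1 Helper55.TR.BrU) l116 :=
  .i [n0,n0,n2,n2,m1,n0,n0,m1,n0,n1] (e' := [n1,n0,m2,m2,n1,n0,n0,n1,n0,m1]) (by decide +kernel)
  (by decide +kernel) cl99 (.t t73 ok73)

theorem cl101 : Clo K (Helper55.TR.GT 1 Helper55.TR.BrU) l115 :=
  .q [n0,n0,n0,m2,n0,n0,n1,n1,m1,m1,n1,n1,m1] (e' := [n0,n0,n0,n2,n0,n0,m1,m1,n1,n1,m1,m1,n1]) (.p false [0,0,-1,1]
  [1] (⟨0,[(15,0)]⟩,⟨0,[(17,0),(22,0)]⟩) .k 1 (⟨0,[]⟩,⟨0,[]⟩) .k (.r 0 ⟨1,[(5,0),(22,0),(30,0)]⟩
  ⟨44,[(7,21),(10,43),(5,12),(7,0),(8,8),(4,20),(7,7),(2,14),(0,18)]⟩)) (by decide +kernel)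
  (by decide +kernel) cl100 (.h (Helper55.TR.GT.lJ Helper55.CD.Dm1_1_c0u_5_1_40.g 70661928409922291093506698756214937929119322737178086244834233190924894396392223407271988128532605943289802274772326527256870935698548020144082287664873125902264285997879585591387709512161340303296774057050 (by decide +kernel)))

theorem cl102 : Clo K (Helper55.TR.GT 1 Helper55.TR.BrU) l119 :=
  .i [n1,n0,m3,m3,n1,n0,n0,m1,n0,m1] (e' := [n0,n0,n3,n3,m1,n0,n0,n1,n0,n1]) (by decide +kernel)
  (by decide +kernel) (.t t74 ok74) (.h (Helper55.TR.GT.lJ Helper55.CD.Dm1_1_c0u_5_1_41.g 502763150300853385331427784390057368370686601639341687353216039798454626656877436379678518508081796717963483395865599962202842549210186007025968456084440619747289646643567660096426413007512428949214809072304248306464196618 (by decide +kernel)))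

theorem cl103 : Clo K (Helper55.TR.GT 1 Helper55.TR.BrU) r115 :=
  .i [n1,n0,n3,n3,m1,n0,n0,n1,n0,n1] (e' := [n0,n0,m3,m3,n1,n0,n0,m1,n0,m1]) (by decide +kernel)
  (by decide +kernel) cl102 (.h (Helper55.TR.GT.lJ Helper55.CD.Dm1_1_c0u_5_1_42.g 536651371605996296966198662517598806946791329732790915134833950869637845619667459442354183336577150966517998809893143843473514460172681530052596670249266827796066868027635421863800886135403485263570866675975655291418072065 (by decide +kernel)))

theorem cl104 : Clo K (Helper55.TR.GT 1 Helper55.TR.BrU) r112 :=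
  .q [n0,n0,n0,n1,n0,n0,m1,m1,n1,n1,m1,m1,n1] (e' := [n0,n0,n0,m1,n0,n0,n1,n1,m1,m1,n1,n1,m1]) (.p true [0,0,-1,1]
  [1] (⟨0,[(14,0)]⟩,⟨0,[(16,0),(22,0)]⟩) .k 1 (⟨0,[]⟩,⟨0,[]⟩) .k (.r 0 ⟨1,[(4,0),(22,0),(30,0)]⟩
  ⟨44,[(6,21),(10,43),(5,12),(7,0),(8,8),(4,20),(7,7),(2,14),(0,18)]⟩)) (by decide +kernel)
  (by decide +kernel) cl101 cl103

theorem cl105 : Clo K (Helper55.TR.GT 1 Helper55.TR.BrU) r110 :=
  .i [n1,n0,m1,m1,n0,n0,n0,m1,n0,m2] (e' := [n0,n0,n1,n1,n0,n0,n0,n1,n0,n2]) (by decide +kernel)
  (by decide +kernel) cl98 cl104

theorem cl106 : Clo K (Helper55.TR.GT 1 Helper55.TR.BrU) r108 :=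
  .i [n1,n0,n2,n2,m1,n0,n0,n0,n0,m1] (e' := [n0,n0,m2,m2,n1,n0,n0,n0,n0,n1]) (by decide +kernel)
  (by decide +kernel) cl96 cl105

theorem cl107 : Clo K (Helper55.TR.GT 1 Helper55.TR.BrU) r102 :=
  .i [n1,n1,m1,n0,n0,n0,n0,m1,n0,m1] (e' := [n0,m1,n1,n0,n0,n0,n0,n1,n0,n1]) (by decide +kernel)
  (by decide +kernel) cl95 cl106

theorem cl108 : Clo K (Helper55.TR.GT 1 Helper55.TR.BrU) r99 :=
  .q [n0,n0,n0,n0,n0,n1,n0,n0,n0,n0,m1,n1,n1] (e' := [n0,n0,n0,n0,n0,m1,n0,n0,n0,n0,n1,m1,m1]) (.p true [0,0,1,1] [1] (⟨0,
  [(14,0),(20,0)]⟩,⟨0,[(1,0)]⟩) .k 1 (⟨0,[]⟩,⟨0,[]⟩) .k (.r (-1) ⟨35,[(15,5),(3,3),(3,35),(12,20),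
  (4,13),(7,1),(2,0),(3,7)]⟩ ⟨2,[(2,0),(10,0),(13,0),(10,0),(0,2),(13,0)]⟩)) (by decide +kernel)
  (by decide +kernel) cl94 cl107

theorem cl109 : Clo K (Helper55.TR.GT 1 Helper55.TR.BrU) r91 :=
  .i [n0,n1,n0,m1,n0,n0,n0,n1,n0,m1] (e' := [n1,m1,n0,n1,n0,n0,n0,m1,n0,n1]) (by decide +kernel)
  (by decide +kernel) cl89 cl108

theorem cl110 : Clo K (Helper55.TR.GT 1 Helper55.TR.BrU) r77 :=
  .q [n0,n0,n0,n0,n0,n0,n0,n0,n0,n0,m1,n1,n1] (e' := [n0,n0,n0,n0,n0,n0,n0,n0,n0,n0,n1,m1,m1]) (.ed false [0,0,1,1] (.r
  (-1) ⟨35,[(13,5),(3,3),(3,35),(12,20),(4,13),(7,1),(2,0),(3,7)]⟩ ⟨2,[(0,0),(10,0),(13,0),(10,0),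
  (0,2),(13,0)]⟩)) (by decide +kernel) (by decide +kernel) cl87 cl109

theorem cl111 : Clo K (Helper55.TR.GT 1 Helper55.TR.BrU) r76 :=
  .q [n0,n0,n0,m1,n0,n0,m1,m1,n2,n2,m1,m1,n2] (e' := [n0,n0,n0,n1,n0,n0,n1,n1,m2,m2,n1,n1,m2]) (.p true [0,0,0,1] [1,
  0,1,-1] (⟨0,[(11,0)]⟩,⟨0,[(9,0)]⟩) .k 2 (⟨0,[(9,0),(22,0)]⟩,⟨0,[(7,0)]⟩) .k (.x (-1) ⟨3,[(9,7),(0,
  4),(21,3),(2,2),(10,1),(2,2),(5,0)]⟩ ⟨0,[(0,0),(3,0),(0,0),(9,2)]⟩)) (by decide +kernel)
  (by decide +kernel) cl80 cl110

theorem cl112 : Clo K (Helper55.TR.GT 1 Helper55.TR.BrU) l75 :=
  .i [n0,n0,n2,n0,m1,n2,n0,n0,n1] (e' := [n1,n0,m2,n0,n1,m2,n0,n0,m1]) (by decide +kernel) (by decide +kernel)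
  (.t t48 ok48) cl111

theorem cl113 : Clo K (Helper55.TR.GT 1 Helper55.TR.BrU) l126 :=
  .i [n1,n1,m2,m1,n1,n0,n0,n1,n0,m1] (e' := [n0,m1,n2,n1,m1,n0,n0,m1,n0,n1]) (by decide +kernel)
  (by decide +kernel) (.t t76 ok76) (.h (Helper55.TR.GT.lJ Helper55.CD.Dm1_1_c0u_5_1_44.g 84537506048858790535667562207334899554377324941423445981381231751729301407899199260449205536928297809864229923367926843845648439135596235110236933174965680806501647908237493941309365064962616490434066809572297729 (by decide +kernel)))

theorem cl114 : Clo K (Helper55.TR.GT 1 Helper55.TR.BrU) l125 :=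
  .i [n0,n0,n2,n2,m1,n0,n0,m1,n0,n1] (e' := [n1,n0,m2,m2,n1,n0,n0,n1,n0,m1]) (by decide +kernel)
  (by decide +kernel) cl113 (.t t77 ok77)

theorem cl115 : Clo K (Helper55.TR.GT 1 Helper55.TR.BrU) l124 :=
  .q [n0,n0,n0,m2,n0,n0,n1,n1,m1,m1,n1,n1,m1] (e' := [n0,n0,n0,n2,n0,n0,m1,m1,n1,n1,m1,m1,n1]) (.p false [0,0,-1,1]
  [1] (⟨0,[(10,0)]⟩,⟨0,[(12,0),(22,0)]⟩) .k 1 (⟨0,[]⟩,⟨0,[]⟩) .k (.r 0 ⟨1,[(5,0),(17,0),(15,0),(11,
  0)]⟩ ⟨5,[(3,4),(15,1),(7,0),(8,2),(0,3),(3,3),(11,1)]⟩)) (by decide +kernel) (by decide +kernel)
  cl114 (.h (Helper55.TR.GT.lJ Helper55.CD.Dm1_1_c0u_5_1_45.g 82546194022556690726680752032154716927609954199587832188492946958354545228541481318903160889031686915014531272437181031682891201416405628082779234278970385216390768610141004458631002869072599127028669520808978 (by decide +kernel)))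

theorem cl116 : Clo K (Helper55.TR.GT 1 Helper55.TR.BrU) l129 :=
  .q [n0,n0,n1,n0,n0,n0,m2,n0,m1,n0,n1,m2,m1] (e' := [n0,n0,m1,n0,n0,n0,n2,n0,n1,n0,m1,n2,n1]) (.p false [0,0,1] [1,0,
  -1,-1] (⟨0,[(37,0)]⟩,⟨0,[(32,0)]⟩) .k 2 (⟨0,[(3,0)]⟩,⟨0,[(16,0),(20,0)]⟩) .k (.r (-1) ⟨2,[(25,2),
  (12,0),(4,1),(14,0),(4,0)]⟩ ⟨0,[(1,0),(44,0)]⟩)) (by decide +kernel) (by decide +kernel) (.t t78
  ok78) (.h (Helper55.TR.GT.lJ Helper55.CD.Dm1_1_c0u_5_1_46.g 215839511162168575478935578394978585476958304794472738803842395549941394509197383341820312624259627816267457693370544096290073460133583643493447356688780276177076757903940513995303808854209539210697260645896094222337 (by decide +kernel)))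

theorem cl117 : Clo K (Helper55.TR.GT 1 Helper55.TR.BrU) r129 :=
  .q [n0,n0,n1,n0,n0,n0,m2,n0,m1,n0,n1,m2,m1] (e' := [n0,n0,m1,n0,n0,n0,n2,n0,n1,n0,m1,n2,n1]) (.p false [0,0,1] [1,0,
  -1,-1] (⟨0,[(37,0)]⟩,⟨0,[(32,0)]⟩) .k 2 (⟨0,[(3,0)]⟩,⟨0,[(16,0),(20,0)]⟩) .k (.r (-1) ⟨2,[(25,2),
  (12,0),(4,1),(14,0),(4,0)]⟩ ⟨0,[(1,0),(44,0)]⟩)) (by decide +kernel) (by decide +kernel) (.t t79
  ok79) (.h (Helper55.TR.GT.lJ Helper55.CD.Dm1_1_c0u_5_1_47.g 284484428016692083483422034077114693987259571781685736507634350377204309515126529225247809722961264360934704285427935021383585459778495051006308859668490583936890572444691736862361917498503971541632166825786607635 (by decide +kernel)))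

theorem cl118 : Clo K (Helper55.TR.GT 1 Helper55.TR.BrU) l128 :=
  .q [n0,n0,n0,n0,n0,n1,n0,n0,n0,n0,m1,n1,n1] (e' := [n0,n0,n0,n0,n0,m1,n0,n0,n0,n0,n1,m1,m1]) (.p true [0,0,1,1] [1] (⟨0,
  [(15,0),(20,0)]⟩,⟨0,[(2,0)]⟩) .k 1 (⟨0,[]⟩,⟨0,[]⟩) .k (.r (-1) ⟨35,[(16,5),(3,3),(3,35),(12,20),
  (4,13),(7,1),(2,0),(3,7)]⟩ ⟨5,[(0,3),(3,0),(23,0),(8,0),(7,1)]⟩)) (by decide +kernel)
  (by decide +kernel) cl116 cl117

theorem cl119 : Clo K (Helper55.TR.GT 1 Helper55.TR.BrU) r124 :=
  .i [n0,n1,m1,n0,n0,n0,n0,m1,n0,m1] (e' := [n1,m1,n1,n0,n0,n0,n0,n1,n0,n1]) (by decide +kernel)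
  (by decide +kernel) cl118 (.h (Helper55.TR.GT.sub Helper55.CD.Dm1_1_c0u_5_1_48.g 411349842505961373620795542351573215248779108952619193396010692432097141166908078646808674794488443708779490037094742619954622532225356617161153769651448490800802371877836788160433520979421471705140 (by decide +kernel)))

theorem cl120 : Clo K (Helper55.TR.GT 1 Helper55.TR.BrU) r123 :=
  .q [n0,n0,n0,n1,n0,n0,m1,m1,n1,n1,m1,m1,n1] (e' := [n0,n0,n0,m1,n0,n0,n1,n1,m1,m1,n1,n1,m1]) (.p true [0,0,-1,1]
  [1] (⟨0,[(9,0)]⟩,⟨0,[(11,0),(22,0)]⟩) .k 1 (⟨0,[]⟩,⟨0,[]⟩) .k (.r 0 ⟨1,[(4,0),(17,0),(15,0),(11,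
  0)]⟩ ⟨5,[(2,4),(15,1),(7,0),(8,2),(0,3),(3,3),(11,1)]⟩)) (by decide +kernel) (by decide +kernel)
  cl115 cl119

theorem cl121 : Clo K (Helper55.TR.GT 1 Helper55.TR.BrU) r122 :=
  .q [n0,n0,n0,n0,n0,n0,n0,n0,n0,n0,m1,n1,n1] (e' := [n0,n0,n0,n0,n0,n0,n0,n0,n0,n0,n1,m1,m1]) (.ed false [0,0,1,1] (.r
  (-1) ⟨35,[(13,5),(3,3),(3,35),(12,20),(4,13),(7,1),(2,0),(3,7)]⟩ ⟨1,[(1,0),(23,0),(9,0),(1,1)]⟩))
  (by decide +kernel) (by decide +kernel) (.h (Helper55.TR.GT.lb Helper55.CD.Dm1_1_c0u_5_1_43.g 436383718407445386862111593694473851527610852876499252986128841801903679803562349116721068527950142072136047131846030752802284651920030518745367587815483290616538998303636628828843338459541261774745504776 (by decide +kernel))) cl120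

theorem cl122 : Clo K (Helper55.TR.GT 1 Helper55.TR.BrU) l121 :=
  .q [n0,n0,n0,m2,n0,n0,n0,n0,n1,n1,n0,n0,n1] (e' := [n0,n0,n0,n2,n0,n0,n0,n0,m1,m1,n0,n0,m1]) (.p true [0,0,0,1] [] (⟨0,
  [(11,0)]⟩,⟨0,[(9,0)]⟩) .k 0 (⟨0,[]⟩,⟨0,[]⟩) .k .k) (by decide +kernel) (by decide +kernel) (.t
  t75 ok75) cl121

theorem cl123 : Clo K (Helper55.TR.GT 1 Helper55.TR.BrU) r121 :=
  .q [n0,m1,n0,m2,n0,n0,m1,m1,n1,n1,n0,m1,n1] (e' := [n0,n1,n0,n2,n0,n0,n1,n1,m1,m1,n0,n1,m1]) (.p true [0,0,-1,1] []
  (⟨0,[(7,0)]⟩,⟨0,[(9,0),(22,0)]⟩) .k 0 (⟨0,[]⟩,⟨0,[]⟩) .k (.r 0 ⟨1,[(2,0),(17,0),(15,0),(11,0)]⟩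
  ⟨24,[(10,21),(5,16),(7,2),(5,21),(2,4),(4,18),(7,1),(2,0),(0,12)]⟩)) (by decide +kernel)
  (by decide +kernel) (.t t80 ok80) (.h (Helper55.TR.GT.lJ Helper55.CD.Dm1_1_c0u_5_1_49.g 76914445568100848970369072047564424513197327797203962877975694304053126854367468907140025163893647850028926241625972647523095798412808057621426229743006195634064787076036421690146390052049470862919683 (by decide +kernel)))

theorem cl124 : Clo K (Helper55.TR.GT 1 Helper55.TR.BrU) r75 :=
  .i [n0,n1,n2,n1,m1,n0,n0,n0,n0,m1] (e' := [n1,m1,m2,m1,n1,n0,n0,n0,n0,n1]) (by decide +kernel)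
  (by decide +kernel) cl122 cl123

theorem cl125 : Clo K (Helper55.TR.GT 1 Helper55.TR.BrU) l74 :=
  .q [n0,n1,n2,n1,m1,n0,n0,n0,n1,n0,m1,n0,n1] (e' := [n0,m1,m2,m1,n1,n0,n0,n0,m1,n0,n1,n0,m1]) (.p true [0,0,0,1] [1]
  (⟨0,[(9,0)]⟩,⟨0,[(7,0)]⟩) .k 1 (⟨0,[]⟩,⟨0,[]⟩) .k .k) (by decide +kernel) (by decide +kernel)
  cl112 cl124

theorem cl126 : Clo K (Helper55.TR.GT 1 Helper55.TR.BrU) l133 :=
  .q [n0,n0,m2,n0,n1,n0,n0,n0,m1,n0,n1,n0,m1] (e' := [n0,n0,n2,n0,m1,n0,n0,n0,n1,n0,m1,n0,n1]) (.p false [0,0,0,1] [1]
  (⟨0,[(10,0)]⟩,⟨0,[(8,0)]⟩) .k 1 (⟨0,[]⟩,⟨0,[]⟩) .k .k) (by decide +kernel) (by decide +kernel)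
  (.t t81 ok81) (.h (Helper55.TR.GT.lJ Helper55.CD.Dm1_1_c0u_5_1_50.g 298745388486228478660303158852047792730392217351234019729903186908504864913837569725487316577872422659331479328259001462089373963277984505596018916997921090561023087457535156292636141762379780 (by decide +kernel)))

theorem cl127 : Clo K (Helper55.TR.GT 1 Helper55.TR.BrU) r135 :=
  .i [n0,n1,m1,n0,n0,n0,n0,m1,n0,m1] (e' := [n1,m1,n1,n0,n0,n0,n0,n1,n0,n1]) (by decide +kernel)
  (by decide +kernel) (.t t82 ok82) (.h (Helper55.TR.GT.l1 Helper55.CD.Dm1_1_c0u_5_1_52.g 76914340631723084951087591413754070108633143939336924723992798175993340891237239996558887486149296848719923675827220932969914838778501648216962044871371982233705455533260944293279111819265065510503428 (by decide +kernel)))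

theorem cl128 : Clo K (Helper55.TR.GT 1 Helper55.TR.BrU) r133 :=
  .q [n0,n0,n0,n0,n0,n0,n0,n0,n0,n0,m1,n1,n1] (e' := [n0,n0,n0,n0,n0,n0,n0,n0,n0,n0,n1,m1,m1]) (.ed false [0,0,1,1] (.r
  (-1) ⟨35,[(11,5),(3,3),(3,35),(12,20),(4,13),(7,1),(2,0),(3,7)]⟩ ⟨1,[(9,0),(10,0),(2,0),(5,0),(5,
  1)]⟩)) (by decide +kernel) (by decide +kernel) (.h (Helper55.TR.GT.lb Helper55.CD.Dm1_1_c0u_5_1_51.g 313093312843079042206140229857342995266326397582139461821379307258755406128305165808329829696416894550507699014955886400686691283181279769611733853969344680677510792968835411978459328129166026477571 (by decide +kernel))) cl127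

theorem cl129 : Clo K (Helper55.TR.GT 1 Helper55.TR.BrU) r74 :=
  .q [n0,n0,n2,n0,m1,n0,n0,n0,n1,n0,n0,n0,n1] (e' := [n0,n0,m2,n0,n1,n0,n0,n0,m1,n0,n0,n0,m1]) (.p true [0,0,0,1] [] (⟨0,
  [(9,0)]⟩,⟨0,[(7,0)]⟩) .k 0 (⟨0,[]⟩,⟨0,[]⟩) .k .k) (by decide +kernel) (by decide +kernel) cl126
  cl128

theorem cl130 : Clo K (Helper55.TR.GT 1 Helper55.TR.BrU) r73 :=
  .i [n1,n0,m2,m2,n1,n0,n0,n0,n0,n1] (e' := [n0,n0,n2,n2,m1,n0,n0,n0,n0,m1]) (by decide +kernel)
  (by decide +kernel) cl125 cl129

theorem cl131 : Clo K (Helper55.TR.GT 1 Helper55.TR.BrU) r4 :=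
  .q [n0,n0,n0,n0,n0,n2,n0,n0,n0,n0,m1,n0,n1] (e' := [n0,n0,n0,n0,n0,m2,n0,n0,n0,n0,n1,n0,m1]) (.p true [0,0,0,1] [1] (⟨0,
  [(7,0)]⟩,⟨0,[(5,0)]⟩) .k 1 (⟨0,[]⟩,⟨0,[]⟩) .k .k) (by decide +kernel) (by decide +kernel) (.t t47
  ok47) cl130

theorem cl132 : Clo K (Helper55.TR.GT 1 Helper55.TR.BrU) r3 :=
  .q [n0,n0,m2,n0,n1,n0,m1,n0,n1,n0,n0,m1,n1] (e' := [n0,n0,n2,n0,m1,n0,n1,n0,m1,n0,n0,n1,m1]) (.p true [0,0,-1,1] []
  (⟨0,[(2,0)]⟩,⟨0,[(4,0),(22,0)]⟩) .k 0 (⟨0,[]⟩,⟨0,[]⟩) .k (.r 0 ⟨3,[(14,2),(0,3),(10,0),(10,1),(5,
  0),(6,0)]⟩ ⟨24,[(5,21),(5,16),(7,2),(5,21),(2,4),(4,18),(7,1),(2,0),(0,12)]⟩))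
  (by decide +kernel) (by decide +kernel) cl67 cl131

theorem cl133 : Clo K (Helper55.TR.GT 1 Helper55.TR.BrU) r2 :=
  .q [n0,n0,n0,n0,n0,n1,n0,n0,n0,n0,n0,n1,m1] (e' := [n0,n0,n0,n0,n0,m1,n0,n0,n0,n0,n0,m1,n1]) (.p false [0,0,-1,1] [] (⟨0,
  [(1,0)]⟩,⟨0,[(3,0),(22,0)]⟩) .k 0 (⟨0,[]⟩,⟨0,[]⟩) .k (.r 0 ⟨3,[(13,2),(0,3),(10,0),(10,1),(5,0),
  (6,0)]⟩ ⟨24,[(4,21),(5,16),(7,2),(5,21),(2,4),(4,18),(7,1),(2,0),(0,12)]⟩)) (by decide +kernel)
  (by decide +kernel) (.t t1 ok1) cl132

theorem cl134 : Clo K (Helper55.TR.GT 1 Helper55.TR.BrU) l1 :=
  .q [n0,m1,n0,m1,n0,n0,n0,n0,m1,m1,n1,n0,m1] (e' := [n0,n1,n0,n1,n0,n0,n0,n0,n1,n1,m1,n0,n1]) (.p false [0,0,0,1] [1]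
  (⟨0,[(4,0)]⟩,⟨0,[(2,0)]⟩) .k 1 (⟨0,[]⟩,⟨0,[]⟩) .k .k) (by decide +kernel) (by decide +kernel) (.t
  t0 ok0) cl133

theorem cl135 : Clo K (Helper55.TR.GT 1 Helper55.TR.BrU) l141 :=
  .i [n0,n0,m2,m2,n1,n0,n0,n0,n0,n1] (e' := [n1,n0,n2,n2,m1,n0,n0,n0,n0,m1]) (by decide +kernel)
  (by decide +kernel) (.t t84 ok84) (.h (Helper55.TR.GT.lJ Helper55.CD.Dm1_1_c0u_5_1_53.g 280511718392713129726684571226040666965016017460944142240039393409422335827481081120179994133918835324606588786082758915363253128464629113885382646017496231927044574763119637518411105282 (by decide +kernel)))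

theorem cl136 : Clo K (Helper55.TR.GT 1 Helper55.TR.BrU) l144 :=
  .q [n0,n0,n1,n0,n0,n0,m2,n0,m1,n0,n2,m2,m1] (e' := [n0,n0,m1,n0,n0,n0,n2,n0,n1,n0,m2,n2,n1]) (.p false [0,0,1] [2,0,
  -1,-1] (⟨0,[(32,0)]⟩,⟨0,[(27,0)]⟩) .k 2 (⟨0,[(9,0),(17,0)]⟩,⟨0,[(1,0)]⟩) .k (.r (-1) ⟨2,[(20,2),
  (12,0),(4,1),(14,0),(4,0)]⟩ ⟨3,[(0,3),(18,0),(13,0),(6,0),(0,1),(2,0)]⟩)) (by decide +kernel)
  (by decide +kernel) (.t t85 ok85) (.h (Helper55.TR.GT.l1 Helper55.CD.Dm1_1_c0u_5_1_54.g 446543317736947193832594281052239238615881479047209777978967377811261881166680308753629454075629559681750436099405382152225774876539535370075186942634438088784516518209299628248509136934290247462239900534785 (by decide +kernel)))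

theorem cl137 : Clo K (Helper55.TR.GT 1 Helper55.TR.BrU) r146 :=
  .q [n0,m1,n0,m2,n0,n0,m1,m1,n1,n1,n0,m1,n1] (e' := [n0,n1,n0,n2,n0,n0,n1,n1,m1,m1,n0,n1,m1]) (.p true [1,0,-1,1]
  [1] (⟨0,[(12,0),(15,0)]⟩,⟨0,[(8,0)]⟩) .k 1 (⟨0,[]⟩,⟨0,[]⟩) .k (.r 0 ⟨1,[(4,0),(16,0),(15,0)]⟩ ⟨24,
  [(11,21),(5,16),(7,2),(5,21),(2,4),(4,18),(7,1),(2,0),(0,12)]⟩)) (by decide +kernel)
  (by decide +kernel) (.t t87 ok87) (.h (Helper55.TR.GT.sub Helper55.CD.Dm1_1_c0u_5_1_55.g 392730433122284714105683229866970714664530861409542279252732232244000723832828140948953760050391772675035173664766958814950264736097377024818994197836962164743016773239694499543990342172263928825873 (by decide +kernel)))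

theorem cl138 : Clo K (Helper55.TR.GT 1 Helper55.TR.BrU) r144 :=
  .i [n1,n0,m1,m1,n0,n0,n0,m1,n0,m2] (e' := [n0,n0,n1,n1,n0,n0,n0,n1,n0,n2]) (by decide +kernel)
  (by decide +kernel) (.t t86 ok86) cl137

theorem cl139 : Clo K (Helper55.TR.GT 1 Helper55.TR.BrU) l143 :=
  .i [n0,n1,m1,m1,n0,n0,n0,m1,n0,m1] (e' := [n1,m1,n1,n1,n0,n0,n0,n1,n0,n1]) (by decide +kernel)
  (by decide +kernel) cl136 cl138

theorem cl140 : Clo K (Helper55.TR.GT 1 Helper55.TR.BrU) r149 :=
  .q [n0,m1,n0,n1,n0,n0,m1,m1,n0,n0,n1,m1] (e' := [n0,n1,n0,m1,n0,n0,n1,n1,n0,n0,m1,n1]) (.p false [0,0,1] [1] (⟨0,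
  [(33,0)]⟩,⟨0,[(28,0)]⟩) .k 1 (⟨0,[]⟩,⟨0,[]⟩) .k .k) (by decide +kernel) (by decide +kernel) (.t
  t89 ok89) (.h (Helper55.TR.GT.lJ Helper55.CD.Dm1_1_c0u_5_1_56.g 76867662266380964889667472909560058534036053251767607417676993861226849237820943664751345091548739539903089440025663808833804010837951095366407142325264292726789202579084879955782042701790669518670849 (by decide +kernel)))

theorem cl141 : Clo K (Helper55.TR.GT 1 Helper55.TR.BrU) l148 :=
  .i [n0,n1,n2,n1,m1,n0,n0,n0,n0,m1] (e' := [n1,m1,m2,m1,n1,n0,n0,n0,n0,n1]) (by decide +kernel)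
  (by decide +kernel) (.t t88 ok88) cl140

theorem cl142 : Clo K (Helper55.TR.GT 1 Helper55.TR.BrU) l155 :=
  .i [n0,n0,n2,n0,m1,n2,n1,n0,m1] (e' := [n1,n0,m2,n0,n1,m2,m1,n0,n1]) (by decide +kernel) (by decide +kernel)
  (.t t91 ok91) (.h (Helper55.TR.GT.lJ Helper55.CD.Dm1_1_c0u_5_1_58.g 173666865284390311772586124123085192205906958832035144187361935635452548914141440994767246624090753975672196616551369059539755426751302637995661339325283713681854415796195873608615030909731914595316927857682296835 (by decide +kernel)))

theorem cl143 : Clo K (Helper55.TR.GT 1 Helper55.TR.BrU) l154 :=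
  .q [n0,n0,n0,n1,n0,n0,m1,m1,n1,n1,n0,m1,n1] (e' := [n0,n0,n0,m1,n0,n0,n1,n1,m1,m1,n0,n1,m1]) (.p true [1,0,-1,1] [1]
  (⟨0,[(15,0),(15,0)]⟩,⟨0,[(11,0)]⟩) .k 1 (⟨0,[]⟩,⟨0,[]⟩) .k (.r 0 ⟨1,[(7,0),(16,0),(15,0)]⟩ ⟨0,[(2,
  0),(13,0),(20,0)]⟩)) (by decide +kernel) (by decide +kernel) cl142 (.t t92 ok92)

theorem cl144 : Clo K (Helper55.TR.GT 1 Helper55.TR.BrU) l157 :=
  .i [n0,n1,n2,n1,m1,n0,n0,n1,n0,m2] (e' := [n1,m1,m2,m1,n1,n0,n0,m1,n0,n2]) (by decide +kernel)
  (by decide +kernel) (.t t93 ok93) (.h (Helper55.TR.GT.lJ Helper55.CD.Dm1_1_c0u_5_1_59.g 455941030597553776054351511841299608877792048082868420716224916392037015821708914094270235727702788101109915678557267324954456411404176696978275168291530448835734692783531222663840462775883791581879205890 (by decide +kernel)))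

theorem cl145 : Clo K (Helper55.TR.GT 1 Helper55.TR.BrU) r154 :=
  .q [n0,n0,n0,m2,n0,n0,m1,m1,n2,n2,n0,m1,n2] (e' := [n0,n0,n0,n2,n0,n0,n1,n1,m2,m2,n0,n1,m2]) (.p true [0,0,0,1] [0,0,
  1,-1] (⟨0,[(15,0)]⟩,⟨0,[(13,0)]⟩) .k 2 (⟨0,[(11,0)]⟩,⟨0,[(15,0),(15,0)]⟩) .k (.r 0 ⟨0,[(7,0),(16,
  0)]⟩ ⟨1,[(2,1),(0,0),(10,1),(1,0),(20,1),(16,0)]⟩)) (by decide +kernel) (by decide +kernel) cl144
  (.h (Helper55.TR.GT.lJ Helper55.CD.Dm1_1_c0u_5_1_60.g 328749858230313904035794455887918155088765428211622163560117241630157348488142661958524244387432573739605007396488544771644870513181420955391791617047729080290793020050755297307910127224967135236 (by decide +kernel)))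

theorem cl146 : Clo K (Helper55.TR.GT 1 Helper55.TR.BrU) r153 :=
  .q [n0,n0,n0,m2,n0,n0,n1,n1,m1,m1,n0,n1,m1] (e' := [n0,n0,n0,n2,n0,n0,m1,m1,n1,n1,n0,m1,n1]) (.p false [1,0,-1,1]
  [1] (⟨0,[(14,0),(15,0)]⟩,⟨0,[(10,0)]⟩) .k 1 (⟨0,[]⟩,⟨0,[]⟩) .k (.r 0 ⟨1,[(6,0),(16,0),(15,0)]⟩ ⟨0,
  [(1,0),(13,0),(20,0)]⟩)) (by decide +kernel) (by decide +kernel) cl143 cl145

theorem cl147 : Clo K (Helper55.TR.GT 1 Helper55.TR.BrU) l152 :=
  .i [n0,n1,m1,n0,n0,n0,n0,m1,n0,m1] (e' := [n1,m1,n1,n0,n0,n0,n0,n1,n0,n1]) (by decide +kernel)
  (by decide +kernel) (.t t90 ok90) cl146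

theorem cl148 : Clo K (Helper55.TR.GT 1 Helper55.TR.BrU) l161 :=
  .q [n0,n0,n1,n0,n0,n0,m2,n0,m1,n0,n1,m2,m1] (e' := [n0,n0,m1,n0,n0,n0,n2,n0,n1,n0,m1,n2,n1]) (.p false [0,0,1] [1,0,
  -1,-1] (⟨0,[(37,0)]⟩,⟨0,[(32,0)]⟩) .k 2 (⟨0,[(6,0)]⟩,⟨0,[(16,0),(20,0)]⟩) .k (.r (-1) ⟨2,[(25,2),
  (12,0),(4,1),(14,0),(4,0)]⟩ ⟨0,[(1,0),(44,0)]⟩)) (by decide +kernel) (by decide +kernel) (.t t94
  ok94) (.h (Helper55.TR.GT.lJ Helper55.CD.Dm1_1_c0u_5_1_61.g 384165030613226105938552457843926834120579991394212612062847607154252477254856491729649485441097852149836951769932173808691974991023734100984753189698788319299733642335088831004937635837461072725917945006164807683 (by decide +kernel)))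

theorem cl149 : Clo K (Helper55.TR.GT 1 Helper55.TR.BrU) r161 :=
  .q [n0,m1,n0,n1,n0,n0,m1,m1,n0,n0,n1,m1] (e' := [n0,n1,n0,m1,n0,n0,n1,n1,n0,n0,m1,n1]) (.p false [0,0,1] [1] (⟨0,
  [(37,0)]⟩,⟨0,[(32,0)]⟩) .k 1 (⟨0,[]⟩,⟨0,[]⟩) .k .k) (by decide +kernel) (by decide +kernel) (.t
  t95 ok95) (.h (Helper55.TR.GT.lJ Helper55.CD.Dm1_1_c0u_5_1_62.g 384118422818868283933089684476163521436943864166875551511709760096645414860790479027574878977815385715238626138987047620065603231896906772839272862261507921275109044488739224259746562191131727028452514882016776195 (by decide +kernel)))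

theorem cl150 : Clo K (Helper55.TR.GT 1 Helper55.TR.BrU) l160 :=
  .q [n0,n0,n0,n0,n0,n1,n0,n0,n0,n0,m1,n1,n1] (e' := [n0,n0,n0,n0,n0,m1,n0,n0,n0,n0,n1,m1,m1]) (.p true [0,0,1,1] [1] (⟨0,
  [(15,0),(20,0)]⟩,⟨0,[(5,0)]⟩) .k 1 (⟨0,[]⟩,⟨0,[]⟩) .k (.r (-1) ⟨35,[(16,5),(3,3),(3,35),(12,20),
  (4,13),(7,1),(2,0),(3,7)]⟩ ⟨25,[(0,17),(19,3),(7,7),(8,2),(7,3),(2,3),(1,1),(2,0)]⟩))
  (by decide +kernel) (by decide +kernel) cl148 cl149

theorem cl151 : Clo K (Helper55.TR.GT 1 Helper55.TR.BrU) l166 :=
  .i [n0,n0,n2,n0,m1,n2,n1,n0,m1] (e' := [n1,n0,m2,n0,n1,m2,m1,n0,n1]) (by decide +kernel) (by decide +kernel)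
  (.t t97 ok97) (.h (Helper55.TR.GT.lJ Helper55.CD.Dm1_1_c0u_5_1_63.g 489675703711634382013048624315789074463605384599184234312072638840682430652773147355643093156773551642848550936935633440794666019877969872109228302888987814593863104525684480943574337629068917643738724003919954946 (by decide +kernel)))

theorem cl152 : Clo K (Helper55.TR.GT 1 Helper55.TR.BrU) l165 :=
  .q [n0,n0,n0,n1,n0,n0,m1,m1,n1,n1,n0,m1,n1] (e' := [n0,n0,n0,m1,n0,n0,n1,n1,m1,m1,n0,n1,m1]) (.p true [1,0,-1,1] [1]
  (⟨0,[(17,0),(15,0)]⟩,⟨0,[(13,0)]⟩) .k 1 (⟨0,[]⟩,⟨0,[]⟩) .k (.r 0 ⟨1,[(9,0),(16,0),(15,0)]⟩ ⟨45,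
  [(3,8),(1,22),(10,45),(1,19),(3,20),(16,9),(4,6),(7,21),(2,10)]⟩)) (by decide +kernel)
  (by decide +kernel) cl151 (.t t98 ok98)

theorem cl153 : Clo K (Helper55.TR.GT 1 Helper55.TR.BrU) r164 :=
  .q [n0,n0,n0,m2,n0,n0,n1,n1,m1,m1,n0,n1,m1] (e' := [n0,n0,n0,n2,n0,n0,m1,m1,n1,n1,n0,m1,n1]) (.p false [1,0,-1,1]
  [1] (⟨0,[(16,0),(15,0)]⟩,⟨0,[(12,0)]⟩) .k 1 (⟨0,[]⟩,⟨0,[]⟩) .k (.r 0 ⟨1,[(8,0),(16,0),(15,0)]⟩
  ⟨45,[(2,8),(1,22),(10,45),(1,19),(3,20),(16,9),(4,6),(7,21),(2,10)]⟩)) (by decide +kernel)
  (by decide +kernel) cl152 (.h (Helper55.TR.GT.lJ Helper55.CD.Dm1_1_c0u_5_1_64.g 80366525505542761349212401370793199595478439568852469509713434856780210275780056605737118041266776735187253871339821483312562106487251929493850937433706846850652583470413377372227040165246798480476484959233 (by decide +kernel)))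

theorem cl154 : Clo K (Helper55.TR.GT 1 Helper55.TR.BrU) r160 :=
  .i [n1,n0,n4,n4,m2,n0,n0,m1] (e' := [n0,n0,m4,m4,n2,n0,n0,n1]) (by decide +kernel) (by decide +kernel) (.t
  t96 ok96) cl153

theorem cl155 : Clo K (Helper55.TR.GT 1 Helper55.TR.BrU) l159 :=
  .i [n0,n1,m1,n0,n0,n0,n0,m1,n0,m1] (e' := [n1,m1,n1,n0,n0,n0,n0,n1,n0,n1]) (by decide +kernel)
  (by decide +kernel) cl150 cl154

theorem cl156 : Clo K (Helper55.TR.GT 1 Helper55.TR.BrU) r159 :=
  .q [n0,n0,n0,m2,n0,n0,n1,n1,m1,m1,n0,n1,m1] (e' := [n0,n0,n0,n2,n0,n0,m1,m1,n1,n1,n0,m1,n1]) (.p false [1,0,-1,1]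
  [1] (⟨0,[(14,0),(15,0)]⟩,⟨0,[(10,0)]⟩) .k 1 (⟨0,[]⟩,⟨0,[]⟩) .k (.r 0 ⟨1,[(6,0),(16,0),(15,0)]⟩
  ⟨13,[(2,6),(10,13),(1,0),(3,5),(16,4),(4,7),(7,1),(2,0),(0,8)]⟩)) (by decide +kernel)
  (by decide +kernel) (.t t99 ok99) (.h (Helper55.TR.GT.lJ Helper55.CD.Dm1_1_c0u_5_1_65.g 351603026204541641142094402446934933662794228173681422399141721538154901927634883399195693414319431068622563810075035156929760292597469506629834297027586249936333393936885317836051568196821866895992037576789 (by decide +kernel)))

theorem cl157 : Clo K (Helper55.TR.GT 1 Helper55.TR.BrU) r152 :=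
  .i [n1,n0,m4,m4,n2,n0,n0,n1] (e' := [n0,n0,n4,n4,m2,n0,n0,m1]) (by decide +kernel) (by decide +kernel) cl155
  cl156

theorem cl158 : Clo K (Helper55.TR.GT 1 Helper55.TR.BrU) r151 :=
  .i [n0,n1,n0,m1,n0,n0,n0,n1,n0,m1] (e' := [n1,m1,n0,n1,n0,n0,n0,m1,n0,n1]) (by decide +kernel)
  (by decide +kernel) cl147 cl157

theorem cl159 : Clo K (Helper55.TR.GT 1 Helper55.TR.BrU) r148 :=
  .q [n0,n0,n0,m1,n0,n0,m1,m1,n2,n2,n0,m1,n2] (e' := [n0,n0,n0,n1,n0,n0,n1,n1,m2,m2,n0,n1,m2]) (.p true [0,0,0,1] [0,0,
  1,-1] (⟨0,[(11,0)]⟩,⟨0,[(9,0)]⟩) .k 2 (⟨0,[(7,0)]⟩,⟨0,[(11,0),(15,0)]⟩) .k (.r 0 ⟨0,[(3,0),(16,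
  0)]⟩ ⟨49,[(10,71),(5,41),(7,27),(5,71),(2,4),(4,43),(7,1),(2,0),(0,37)]⟩)) (by decide +kernel)
  (by decide +kernel) (.h (Helper55.TR.GT.sub Helper55.CD.Dm1_1_c0u_5_1_57.g 187430007766086831207711610049741706092975722595740612158778740234455515227569519146906260212084190462354762691142890610225202073204606023084089767274494226569825112802852697300053616427480917041 (by decide +kernel))) cl158

theorem cl160 : Clo K (Helper55.TR.GT 1 Helper55.TR.BrU) r143 :=
  .q [n0,n0,n0,m2,n0,n0,n0,n0,n1,n1,n0,n0,n1] (e' := [n0,n0,n0,n2,n0,n0,n0,n0,m1,m1,n0,n0,m1]) (.p true [0,0,0,1] [] (⟨0,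
  [(10,0)]⟩,⟨0,[(8,0)]⟩) .k 0 (⟨0,[]⟩,⟨0,[]⟩) .k .k) (by decide +kernel) (by decide +kernel) cl141
  cl159

theorem cl161 : Clo K (Helper55.TR.GT 1 Helper55.TR.BrU) r141 :=
  .q [n0,n0,n0,n0,n0,n0,n0,n0,n0,n0,m1,n1,n1] (e' := [n0,n0,n0,n0,n0,n0,n0,n0,n0,n0,n1,m1,m1]) (.ed false [0,0,1,1] (.r
  (-1) ⟨35,[(10,5),(3,3),(3,35),(12,20),(4,13),(7,1),(2,0),(3,7)]⟩ ⟨1,[(8,0),(10,0),(2,0),(5,0),(5,
  1)]⟩)) (by decide +kernel) (by decide +kernel) cl139 cl160

theorem cl162 : Clo K (Helper55.TR.GT 1 Helper55.TR.BrU) l140 :=
  .q [n0,n0,n0,n0,n0,n2,n0,n0,n0,n0,n0,n0,m1] (e' := [n0,n0,n0,n0,n0,m2,n0,n0,n0,n0,n0,n0,n1]) (.p false [0,0,0,1] [] (⟨0,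
  [(8,0)]⟩,⟨0,[(6,0)]⟩) .k 0 (⟨0,[]⟩,⟨0,[]⟩) .k .k) (by decide +kernel) (by decide +kernel) cl135
  cl161

theorem cl163 : Clo K (Helper55.TR.GT 1 Helper55.TR.BrU) l177 :=
  .q [n0,m1,n0,n1,n0,n0,m1,m1,n0,n0,n1,m1] (e' := [n0,n1,n0,m1,n0,n0,n1,n1,n0,n0,m1,n1]) (.p false [0,0,1] [1] (⟨0,
  [(38,0)]⟩,⟨0,[(33,0)]⟩) .k 1 (⟨0,[]⟩,⟨0,[]⟩) .k .k) (by decide +kernel) (by decide +kernel) (.t
  t104 ok104) (.h (Helper55.TR.GT.lJ Helper55.CD.Dm1_1_c0u_5_1_66.g 176036602499089713325540416949358842417141425585792867282310217081483342645581148912323907799454839043925054581004695421773910343708239660796299992986406561530477455504706860954038435317222100953539830363139 (by decide +kernel)))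

theorem cl164 : Clo K (Helper55.TR.GT 1 Helper55.TR.BrU) l182 :=
  .q [n0,n0,n2,n0,m1,n0,n1,n0,m2,n0,n0,n1,m2] (e' := [n0,n0,m2,n0,n1,n0,m1,n0,n2,n0,n0,m1,n2]) (.p false [0,0,0,1] [0,0,
  1,-1] (⟨0,[(21,0)]⟩,⟨0,[(19,0)]⟩) .k 2 (⟨0,[(17,0)]⟩,⟨0,[(21,0),(15,0)]⟩) .k (.r 0 ⟨0,[(1,0)]⟩ ⟨4,
  [(11,0),(1,8),(12,0),(16,4),(0,0),(15,0),(0,0)]⟩)) (by decide +kernel) (by decide +kernel) (.t
  t107 ok107) (.h (Helper55.TR.GT.lJ Helper55.CD.Dm1_1_c0u_5_1_67.g 197802742118071973961147980545636252942837317039369715190398695836914446417771231760367670975351171481045324751537376822752414206579800637124292290297609828091154973073806178098650412349387163187736841579509126539780292649 (by decide +kernel)))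

theorem cl165 : Clo K (Helper55.TR.GT 1 Helper55.TR.BrU) r181 :=
  .q [n0,m1,n0,m1,n0,n0,n0,n0,m1,m1,n1,n0,m1] (e' := [n0,n1,n0,n1,n0,n0,n0,n0,n1,n1,m1,n0,n1]) (.p false [0,0,0,1] [1]
  (⟨0,[(20,0)]⟩,⟨0,[(18,0)]⟩) .k 1 (⟨0,[]⟩,⟨0,[]⟩) .k .k) (by decide +kernel) (by decide +kernel)
  cl164 (.h (Helper55.TR.GT.lJ Helper55.CD.Dm1_1_c0u_5_1_68.g 436206507168743456147771075254540405083535313416153039894360064328071598410917867628310236166074417003730969317423913605731608182493876961705959598811362923854620483056821049923059098420155296400260740099 (by decide +kernel)))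

theorem cl166 : Clo K (Helper55.TR.GT 1 Helper55.TR.BrU) l180 :=
  .i [n1,n0,n0,n0,n0,n0,n0,n1,n0,m2] (e' := [n0,n0,n0,n0,n0,n0,n0,m1,n0,n2]) (by decide +kernel) (by decide +kernel)
  (.t t106 ok106) cl165

theorem cl167 : Clo K (Helper55.TR.GT 1 Helper55.TR.BrU) r180 :=
  .q [n0,m1,n0,n1,n0,n0,m1,m1,n0,n0,n1,m1] (e' := [n0,n1,n0,m1,n0,n0,n1,n1,n0,n0,m1,n1]) (.p false [0,0,1] [1] (⟨0,
  [(40,0)]⟩,⟨0,[(35,0)]⟩) .k 1 (⟨0,[]⟩,⟨0,[]⟩) .k .k) (by decide +kernel) (by decide +kernel) (.t
  t108 ok108) (.h (Helper55.TR.GT.lJ Helper55.CD.Dm1_1_c0u_5_1_69.g 364042575581490881192247096321957944845147057808952574738693468708133722263044004182126463567770991396766647480820759613735288026342704087518397720863597354131681187164526920507961433577474530180382740 (by decide +kernel)))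

theorem cl168 : Clo K (Helper55.TR.GT 1 Helper55.TR.BrU) r179 :=
  .i [n1,m1,n0,n0,n0,n0,n0,m1,n0,n1] (e' := [n0,n1,n0,n0,n0,n0,n0,n1,n0,m1]) (by decide +kernel) (by decide +kernel)
  cl166 cl167

theorem cl169 : Clo K (Helper55.TR.GT 1 Helper55.TR.BrU) r177 :=
  .i [n1,n0,m1,m1,n0,n0,n0,m1,n0,m2] (e' := [n0,n0,n1,n1,n0,n0,n0,n1,n0,n2]) (by decide +kernel)
  (by decide +kernel) (.t t105 ok105) cl168

theorem cl170 : Clo K (Helper55.TR.GT 1 Helper55.TR.BrU) r176 :=
  .i [n1,n1,n0,n1,n0,n0,n0,n1,n0,m1] (e' := [n0,m1,n0,m1,n0,n0,n0,m1,n0,n1]) (by decide +kernel)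
  (by decide +kernel) cl163 cl169

theorem cl171 : Clo K (Helper55.TR.GT 1 Helper55.TR.BrU) l175 :=
  .q [n0,n0,n0,m2,n0,n0,n1,n1,m1,m1,n0,n1,m1] (e' := [n0,n0,n0,n2,n0,n0,m1,m1,n1,n1,n0,m1,n1]) (.p false [1,0,-1,1]
  [1] (⟨0,[(15,0),(15,0)]⟩,⟨0,[(11,0)]⟩) .k 1 (⟨0,[]⟩,⟨0,[]⟩) .k (.r 0 ⟨2,[(0,0),(8,0),(13,1),(0,1),
  (7,0),(13,0)]⟩ ⟨11,[(7,11),(8,1),(3,3),(16,8),(0,0),(3,1),(11,3)]⟩)) (by decide +kernel)
  (by decide +kernel) (.t t103 ok103) cl170

theorem cl172 : Clo K (Helper55.TR.GT 1 Helper55.TR.BrU) r174 :=
  .q [n0,n0,n0,n1,n0,n0,m1,m1,n1,n1,n0,m1,n1] (e' := [n0,n0,n0,m1,n0,n0,n1,n1,m1,m1,n0,n1,m1]) (.p true [1,0,-1,1] [1]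
  (⟨0,[(14,0),(15,0)]⟩,⟨0,[(10,0)]⟩) .k 1 (⟨0,[]⟩,⟨0,[]⟩) .k (.r 0 ⟨3,[(22,2),(0,3),(10,0),(10,1),
  (5,0),(6,0)]⟩ ⟨11,[(6,11),(8,1),(3,3),(16,8),(0,0),(3,1),(11,3)]⟩)) (by decide +kernel)
  (by decide +kernel) cl171 (.t t109 ok109)

theorem cl173 : Clo K (Helper55.TR.GT 1 Helper55.TR.BrU) r173 :=
  .i [n1,n0,m1,m1,n0,n0,n0,m2] (e' := [n0,n0,n1,n1,n0,n0,n0,n2]) (by decide +kernel) (by decide +kernel) (.t
  t102 ok102) cl172

theorem cl174 : Clo K (Helper55.TR.GT 1 Helper55.TR.BrU) r172 :=
  .i [n0,n1,m1,m1,n0,n0,n0,m1,n0,m1] (e' := [n1,m1,n1,n1,n0,n0,n0,n1,n0,n1]) (by decide +kernel)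
  (by decide +kernel) (.t t101 ok101) cl173

theorem cl175 : Clo K (Helper55.TR.GT 1 Helper55.TR.BrU) l171 :=
  .q [n0,n0,n0,n0,n0,n2,n0,n0,n0,n0,n0,n0,m1] (e' := [n0,n0,n0,n0,n0,m2,n0,n0,n0,n0,n0,n0,n1]) (.p false [0,0,0,1] [] (⟨0,
  [(11,0)]⟩,⟨0,[(9,0)]⟩) .k 0 (⟨0,[]⟩,⟨0,[]⟩) .k .k) (by decide +kernel) (by decide +kernel) (.t
  t100 ok100) cl174

theorem cl176 : Clo K (Helper55.TR.GT 1 Helper55.TR.BrU) l170 :=
  .i [n0,n0,n2,n2,m1,n0,n0,n0,n0,m1] (e' := [n1,n0,m2,m2,n1,n0,n0,n0,n0,n1]) (by decide +kernel)
  (by decide +kernel) cl175 (.t t110 ok110)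

theorem cl177 : Clo K (Helper55.TR.GT 1 Helper55.TR.BrU) r186 :=
  .i [n1,n0,n1,n1,m1,n0,n0,m2,n0,m1] (e' := [n0,n0,m1,m1,n1,n0,n0,n2,n0,n1]) (by decide +kernel)
  (by decide +kernel) (.t t112 ok112) (.h (Helper55.TR.GT.lJ Helper55.CD.Dm1_1_c0u_5_1_70.g 420611792923861738834528762439900343425424806557374632363948504737592466891828684477939736282298843770731335716404221234901150678543610823958315926920040060404412211435387281490902744112450928401420 (by decide +kernel)))

theorem cl178 : Clo K (Helper55.TR.GT 1 Helper55.TR.BrU) l185 :=
  .q [n0,n0,n0,n0,n0,n2,n0,n0,n0,n0,n0,n0,m1] (e' := [n0,n0,n0,n0,n0,m2,n0,n0,n0,n0,n0,n0,n1]) (.p false [0,0,0,1] [] (⟨0,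
  [(11,0)]⟩,⟨0,[(9,0)]⟩) .k 0 (⟨0,[]⟩,⟨0,[]⟩) .k .k) (by decide +kernel) (by decide +kernel) (.t
  t111 ok111) cl177

theorem cl179 : Clo K (Helper55.TR.GT 1 Helper55.TR.BrU) r191 :=
  .w [n0,n0,n0,n0,n0,n0,n0,n0,n0,n0,n0,n1,m2] (e' := [n1,n0,n0,n0,n0,n0,n0,n0,n0,n0,n0,m1,n2]) (by decide +kernel) (.t t116
  ok116) (.h (Helper55.TR.GT.lJ Helper55.CD.Dm1_1_c0u_5_1_71.g 344882702152460838744596636952428174394447017915040907400979428968605439337481829396895726190524613161635049064331424966152786531001655145908343454628544555620889191438221412327915985424896625086563331 (by decide +kernel)))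

theorem cl180 : Clo K (Helper55.TR.GT 1 Helper55.TR.BrU) l190 :=
  .i [n0,n0,n0,n0,n0,n0,n1,n0,m2] (e' := [n1,n0,n0,n0,n0,n0,m1,n0,n2]) (by decide +kernel) (by decide +kernel) (.t
  t115 ok115) cl179

theorem cl181 : Clo K (Helper55.TR.GT 1 Helper55.TR.BrU) r189 :=
  .i [n1,n0,n0,n0,n0,n0,n0,n1,n0,m2] (e' := [n0,n0,n0,n0,n0,n0,n0,m1,n0,n2]) (by decide +kernel) (by decide +kernel)
  cl180 (.t t117 ok117)

theorem cl182 : Clo K (Helper55.TR.GT 1 Helper55.TR.BrU) r188 :=
  .i [n1,n0,m1,m1,n0,n0,n0,m2] (e' := [n0,n0,n1,n1,n0,n0,n0,n2]) (by decide +kernel) (by decide +kernel) (.t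
  t114 ok114) cl181

theorem cl183 : Clo K (Helper55.TR.GT 1 Helper55.TR.BrU) r185 :=
  .i [n0,n0,m2,n0,n1,m2,n0,n0,m1] (e' := [n1,n0,n2,n0,m1,n2,n0,n0,n1]) (by decide +kernel) (by decide +kernel)
  (.t t113 ok113) cl182

theorem cl184 : Clo K (Helper55.TR.GT 1 Helper55.TR.BrU) r170 :=
  .i [n0,n0,n2,n2,m1,n0,n0,n0,n0,m1] (e' := [n1,n0,m2,m2,n1,n0,n0,n0,n0,n1]) (by decide +kernel)
  (by decide +kernel) cl178 cl183

theorem cl185 : Clo K (Helper55.TR.GT 1 Helper55.TR.BrU) l169 :=
  .i [n0,n0,n1,n1,m1,n0,n0,m2,n0,m1] (e' := [n1,n0,m1,m1,n1,n0,n0,n2,n0,n1]) (by decide +kernel)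
  (by decide +kernel) cl176 cl184

theorem cl186 : Clo K (Helper55.TR.GT 1 Helper55.TR.BrU) r199 :=
  .w [n0,n0,n0,n0,n0,n0,n0,n0,n0,n0,n0,n1,m2] (e' := [n1,n0,n0,n0,n0,n0,n0,n0,n0,n0,n0,m1,n2]) (by decide +kernel) (.t t122
  ok122) (.h (Helper55.TR.GT.lJ Helper55.CD.Dm1_1_c0u_5_1_72.g 333468211189168355055953322350599159188551631746593700286282559271132908879555181388295446388290182049998671059770020097352405387972061415323561156423003593949341459096844551394757497782060233748 (by decide +kernel)))

theorem cl187 : Clo K (Helper55.TR.GT 1 Helper55.TR.BrU) r198 :=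
  .w [n0,n0,n0,n0,n0,n0,n0,n0,n0,n0,n0,m1,n2] (e' := [n1,n0,n0,n0,n0,n0,n0,n0,n0,n0,n0,n1,m2]) (by decide +kernel) (.t t121
  ok121) cl186

theorem cl188 : Clo K (Helper55.TR.GT 1 Helper55.TR.BrU) r197 :=
  .i [n0,n0,n2,n2,m1,n0,n0,n0,n0,m1] (e' := [n1,n0,m2,m2,n1,n0,n0,n0,n0,n1]) (by decide +kernel)
  (by decide +kernel) (.t t120 ok120) cl187

theorem cl189 : Clo K (Helper55.TR.GT 1 Helper55.TR.BrU) l196 :=
  .i [n0,n0,n0,n0,n0,n0,n1,n0,m2] (e' := [n1,n0,n0,n0,n0,n0,m1,n0,n2]) (by decide +kernel) (by decide +kernel) (.t
  t119 ok119) cl188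

theorem cl190 : Clo K (Helper55.TR.GT 1 Helper55.TR.BrU) r204 :=
  .q [n0,n0,n0,m2,n0,n0,n1,n1,m1,m1,n0,n1,m1] (e' := [n0,n0,n0,n2,n0,n0,m1,m1,n1,n1,n0,m1,n1]) (.p false [1,0,-1,1]
  [1] (⟨0,[(17,0),(15,0)]⟩,⟨0,[(13,0)]⟩) .k 1 (⟨0,[]⟩,⟨0,[]⟩) .k (.r 0 ⟨3,[(25,2),(0,3),(10,0),(10,
  1),(5,0),(6,0)]⟩ ⟨39,[(7,11),(1,15),(8,17),(3,19),(16,16),(4,17),(7,9),(2,4)]⟩))
  (by decide +kernel) (by decide +kernel) (.t t126 ok126) (.h (Helper55.TR.GT.lJ Helper55.CD.Dm1_1_c0u_5_1_73.g 399091940653307094105903337510216072915938282731118650299020161940950228811389651180904367543250381763048512434809715904633697947397236492658860094640891040905342999511855650270534595237348207613370508526460789066754 (by decide +kernel)))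

theorem cl191 : Clo K (Helper55.TR.GT 1 Helper55.TR.BrU) r203 :=
  .q [n0,m1,n0,n1,n0,n0,m1,m1,n0,n0,n1,m1] (e' := [n0,n1,n0,m1,n0,n0,n1,n1,n0,n0,m1,n1]) (.p false [0,0,1] [1] (⟨0,
  [(37,0)]⟩,⟨0,[(32,0)]⟩) .k 1 (⟨0,[]⟩,⟨0,[]⟩) .k .k) (by decide +kernel) (by decide +kernel) (.t
  t125 ok125) cl190

theorem cl192 : Clo K (Helper55.TR.GT 1 Helper55.TR.BrU) r202 :=
  .q [n0,n0,n0,n0,n0,n2,n0,n0,n0,n0,n0,n0,m1] (e' := [n0,n0,n0,n0,n0,m2,n0,n0,n0,n0,n0,n0,n1]) (.p false [0,0,0,1] [] (⟨0,
  [(15,0)]⟩,⟨0,[(13,0)]⟩) .k 0 (⟨0,[]⟩,⟨0,[]⟩) .k .k) (by decide +kernel) (by decide +kernel) (.t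
  t124 ok124) cl191

theorem cl193 : Clo K (Helper55.TR.GT 1 Helper55.TR.BrU) l201 :=
  .q [n0,m1,n0,m1,n0,n0,n0,n0,m1,m1,n1,n0,m1] (e' := [n0,n1,n0,n1,n0,n0,n0,n0,n1,n1,m1,n0,n1]) (.p false [0,0,0,1] [1]
  (⟨0,[(14,0)]⟩,⟨0,[(12,0)]⟩) .k 1 (⟨0,[]⟩,⟨0,[]⟩) .k .k) (by decide +kernel) (by decide +kernel)
  (.t t123 ok123) cl192

theorem cl194 : Clo K (Helper55.TR.GT 1 Helper55.TR.BrU) r201 :=
  .q [n0,m1,n0,n1,n0,n0,m1,m1,n0,n0,n1,m1] (e' := [n0,n1,n0,m1,n0,n0,n1,n1,n0,n0,m1,n1]) (.p false [0,0,1] [1] (⟨0,
  [(35,0)]⟩,⟨0,[(30,0)]⟩) .k 1 (⟨0,[]⟩,⟨0,[]⟩) .k .k) (by decide +kernel) (by decide +kernel) (.t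
  t127 ok127) (.h (Helper55.TR.GT.lJ Helper55.CD.Dm1_1_c0u_5_1_74.g 78813030900117944003357043068537219899728839519264620851741205380192940172846143354431045836475490118612395470604340859646427364639199042545385716539159237972863182929569845636339887807490488407582314519 (by decide +kernel)))

theorem cl195 : Clo K (Helper55.TR.GT 1 Helper55.TR.BrU) r196 :=
  .i [n0,n0,n2,n0,m1,n2,n1,n0,m1] (e' := [n1,n0,m2,n0,n1,m2,m1,n0,n1]) (by decide +kernel) (by decide +kernel)
  cl193 cl194

theorem cl196 : Clo K (Helper55.TR.GT 1 Helper55.TR.BrU) r195 :=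
  .i [n1,n0,n0,n0,n0,n0,n0,m1,n0,n2] (e' := [n0,n0,n0,n0,n0,n0,n0,n1,n0,m2]) (by decide +kernel) (by decide +kernel)
  cl189 cl195

theorem cl197 : Clo K (Helper55.TR.GT 1 Helper55.TR.BrU) l194 :=
  .i [n0,n1,m1,n0,n0,n0,n0,m1,n0,m1] (e' := [n1,m1,n1,n0,n0,n0,n0,n1,n0,n1]) (by decide +kernel)
  (by decide +kernel) (.t t118 ok118) cl196

theorem cl198 : Clo K (Helper55.TR.GT 1 Helper55.TR.BrU) l193 :=
  .q [n0,n0,n0,n0,n0,n0,n0,n0,n0,n0,n1,m1,m1] (e' := [n0,n0,n0,n0,n0,n0,n0,n0,n0,n0,m1,n1,n1]) (.ed true [0,0,1,1] (.r
  (-1) ⟨35,[(11,5),(3,3),(3,35),(12,20),(4,13),(7,1),(2,0),(3,7)]⟩ ⟨3,[(0,1),(14,0),(24,0),(8,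
  0)]⟩)) (by decide +kernel) (by decide +kernel) cl197 (.t t128 ok128)

theorem cl199 : Clo K (Helper55.TR.GT 1 Helper55.TR.BrU) l211 :=
  .i [n0,n0,n2,n0,m1,n2,n1,n0,m1] (e' := [n1,n0,m2,n0,n1,m2,m1,n0,n1]) (by decide +kernel) (by decide +kernel)
  (.t t131 ok131) (.h (Helper55.TR.GT.lJ Helper55.CD.Dm1_1_c0u_5_1_75.g 416547225885042200630370391243257331045064999067279728827757283219885094770376073505828751403621681744795614874463502796359572889940725519340340935956469897282576070030375765731802640828951889610026449373185 (by decide +kernel)))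

theorem cl200 : Clo K (Helper55.TR.GT 1 Helper55.TR.BrU) l217 :=
  .i [n1,n0,n1,n1,n0,n0,n0,n2,n0,n1] (e' := [n0,n0,m1,m1,n0,n0,n0,m2,n0,m1]) (by decide +kernel)
  (by decide +kernel) (.t t134 ok134) (.h (Helper55.TR.GT.lJ Helper55.CD.Dm1_1_c0u_5_1_76.g 174077773343262016194043203646059540616229843834715540468396742327139626041372251608759697820291027159198507118798170391866079568670136796011886723171032773593531942553654356672588742137491517554788807594604494852 (by decide +kernel)))

theorem cl201 : Clo K (Helper55.TR.GT 1 Helper55.TR.BrU) r216 :=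
  .i [n1,n0,m1,m1,n0,n0,n0,m2,n0,m1] (e' := [n0,n0,n1,n1,n0,n0,n0,n2,n0,n1]) (by decide +kernel)
  (by decide +kernel) cl200 (.h (Helper55.TR.GT.lJ Helper55.CD.Dm1_1_c0u_5_1_77.g 475612814532332824681042376808208307516867090310349261940334523759959999829656059496044543612171840376355406178272821870989522047912870381050599876462385026990671428812665178726902770556339893231610233859 (by decide +kernel)))

theorem cl202 : Clo K (Helper55.TR.GT 1 Helper55.TR.BrU) l215 :=
  .i [n1,n0,m1,m1,n0,n0,n0,m1,n0,m2] (e' := [n0,n0,n1,n1,n0,n0,n0,n1,n0,n2]) (by decide +kernel)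
  (by decide +kernel) (.t t133 ok133) cl201

theorem cl203 : Clo K (Helper55.TR.GT 1 Helper55.TR.BrU) l219 :=
  .q [n0,n0,n0,n0,n0,n0,m1,m1,n2,n2,n0,m1,n2] (e' := [n0,n0,n0,n0,n0,n0,n1,n1,m2,m2,n0,n1,m2]) (.p true [0,0,0,1] [0,0,
  1,-1] (⟨0,[(19,0)]⟩,⟨0,[(17,0)]⟩) .k 2 (⟨0,[(15,0)]⟩,⟨0,[(19,0),(15,0)]⟩) .k (.x (-1) ⟨3,[(15,3),
  (1,3),(0,7),(23,0),(11,1),(2,2)]⟩ ⟨0,[(7,0),(5,0),(46,0)]⟩)) (by decide +kernel)
  (by decide +kernel) (.t t135 ok135) (.h (Helper55.TR.GT.lJ Helper55.CD.Dm1_1_c0u_5_1_78.g 373552200019258333738584826240351125669794037233211537878216291468055646081814844999489022733462932416070663081477683530201434909687459354596550272004175230424340075710980823903699337011175209409958757387066148867 (by decide +kernel)))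

theorem cl204 : Clo K (Helper55.TR.GT 1 Helper55.TR.BrU) r215 :=
  .q [n0,n0,n0,m1,n0,n0,n1,n1,m2,m2,n0,n1,m2] (e' := [n0,n0,n0,n1,n0,n0,m1,m1,n2,n2,n0,m1,n2]) (.p false [0,0,0,1] [0,
  0,1,-1] (⟨0,[(18,0)]⟩,⟨0,[(16,0)]⟩) .k 2 (⟨0,[(14,0)]⟩,⟨0,[(18,0),(15,0)]⟩) .k (.x (-1) ⟨3,[(14,
  3),(1,3),(0,7),(23,0),(11,1),(2,2)]⟩ ⟨0,[(6,0),(5,0),(46,0)]⟩)) (by decide +kernel)
  (by decide +kernel) cl203 (.t t136 ok136)

theorem cl205 : Clo K (Helper55.TR.GT 1 Helper55.TR.BrU) r214 :=
  .i [n1,n0,n1,n1,n0,n0,n0,n1,n0,n2] (e' := [n0,n0,m1,m1,n0,n0,n0,m1,n0,m2]) (by decide +kernel)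
  (by decide +kernel) cl202 cl204

theorem cl206 : Clo K (Helper55.TR.GT 1 Helper55.TR.BrU) l213 :=
  .i [n0,n1,m1,n0,n0,n0,n0,m1,n0,m1] (e' := [n1,m1,n1,n0,n0,n0,n0,n1,n0,n1]) (by decide +kernel)
  (by decide +kernel) (.t t132 ok132) cl205

theorem cl207 : Clo K (Helper55.TR.GT 1 Helper55.TR.BrU) l221 :=
  .i [n0,n1,m1,m1,n0,n0,n0,m1,n0,m1] (e' := [n1,m1,n1,n1,n0,n0,n0,n1,n0,n1]) (by decide +kernel)
  (by decide +kernel) (.t t137 ok137) (.h (Helper55.TR.GT.lJ Helper55.CD.Dm1_1_c0u_5_1_79.g 445264270263116135927106611657456968507020168976365934664401033133078782733428867906003590725693621230219446449282093887633756383186680452964851388762669209218260812882926602246860010554002356750524418 (by decide +kernel)))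

theorem cl208 : Clo K (Helper55.TR.GT 1 Helper55.TR.BrU) r213 :=
  .i [n0,n0,m1,m1,n0,n0,n0,m2,n0,m1] (e' := [n1,n0,n1,n1,n0,n0,n0,n2,n0,n1]) (by decide +kernel)
  (by decide +kernel) cl207 (.h (Helper55.TR.GT.lJ Helper55.CD.Dm1_1_c0u_5_1_80.g 79842840314121104770914109650344091106621881321331438304227256692875811834424431396690243068162237591974945020215219333677753184975185365142858499082330622839467150508601540458928142470511542147073 (by decide +kernel)))

theorem cl209 : Clo K (Helper55.TR.GT 1 Helper55.TR.BrU) r211 :=
  .q [n0,n0,n0,n0,n0,n0,n0,n0,n0,n0,n1,m1,m1] (e' := [n0,n0,n0,n0,n0,n0,n0,n0,n0,n0,m1,n1,n1]) (.ed true [0,0,1,1] (.r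
  (-1) ⟨23,[(5,3),(10,9),(3,3),(3,15),(12,12),(4,9),(7,1),(2,0)]⟩ ⟨2,[(4,0),(9,0),(13,0),(5,0),(5,
  3)]⟩)) (by decide +kernel) (by decide +kernel) cl206 cl208

theorem cl210 : Clo K (Helper55.TR.GT 1 Helper55.TR.BrU) l210 :=
  .q [n0,n0,n0,m2,n0,n0,n1,n1,m1,m1,n0,n1,m1] (e' := [n0,n0,n0,n2,n0,n0,m1,m1,n1,n1,n0,m1,n1]) (.p false [1,0,-1,1]
  [1] (⟨0,[(14,0),(15,0)]⟩,⟨0,[(10,0)]⟩) .k 1 (⟨0,[]⟩,⟨0,[]⟩) .k (.r 0 ⟨2,[(0,0),(7,0),(13,1),(0,1),
  (7,0),(13,0)]⟩ ⟨11,[(3,11),(11,1),(3,3),(16,8),(0,0),(3,1),(11,3)]⟩)) (by decide +kernel)
  (by decide +kernel) cl199 cl209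

theorem cl211 : Clo K (Helper55.TR.GT 1 Helper55.TR.BrU) r209 :=
  .q [n0,n0,n0,n1,n0,n0,m1,m1,n1,n1,n0,m1,n1] (e' := [n0,n0,n0,m1,n0,n0,n1,n1,m1,m1,n0,n1,m1]) (.p true [1,0,-1,1] [1]
  (⟨0,[(13,0),(15,0)]⟩,⟨0,[(9,0)]⟩) .k 1 (⟨0,[]⟩,⟨0,[]⟩) .k (.r 0 ⟨3,[(21,2),(0,3),(10,0),(10,1),(5,
  0),(6,0)]⟩ ⟨11,[(2,11),(11,1),(3,3),(16,8),(0,0),(3,1),(11,3)]⟩)) (by decide +kernel)
  (by decide +kernel) cl210 (.t t138 ok138)

theorem cl212 : Clo K (Helper55.TR.GT 1 Helper55.TR.BrU) r208 :=
  .q [n0,m1,n0,n1,n0,n0,m1,m1,n0,n0,n1,m1] (e' := [n0,n1,n0,m1,n0,n0,n1,n1,n0,n0,m1,n1]) (.p false [0,0,1] [1] (⟨0,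
  [(33,0)]⟩,⟨0,[(28,0)]⟩) .k 1 (⟨0,[]⟩,⟨0,[]⟩) .k .k) (by decide +kernel) (by decide +kernel) (.t
  t130 ok130) cl211

theorem cl213 : Clo K (Helper55.TR.GT 1 Helper55.TR.BrU) l207 :=
  .q [n0,n0,n0,n0,n0,n2,n0,n0,n0,n0,n0,n0,m1] (e' := [n0,n0,n0,n0,n0,m2,n0,n0,n0,n0,n0,n0,n1]) (.p false [0,0,0,1] [] (⟨0,
  [(11,0)]⟩,⟨0,[(9,0)]⟩) .k 0 (⟨0,[]⟩,⟨0,[]⟩) .k .k) (by decide +kernel) (by decide +kernel) (.t
  t129 ok129) cl212

theorem cl214 : Clo K (Helper55.TR.GT 1 Helper55.TR.BrU) r228 :=
  .w [n0,n0,n0,n0,n0,n0,n0,n0,n0,n0,n0,n1,m2] (e' := [n1,n0,n0,n0,n0,n0,n0,n0,n0,n0,n0,m1,n2]) (by decide +kernel) (.t t143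
  ok143) (.h (Helper55.TR.GT.lJ Helper55.CD.Dm1_1_c0u_5_1_81.g 72334461123922333806002776034754420950729524848801208727590565430888563823459438301036033071128112746393146239064030561870758307572611528054297066384807340234772703210965715752581117972 (by decide +kernel)))

theorem cl215 : Clo K (Helper55.TR.GT 1 Helper55.TR.BrU) r227 :=
  .w [n0,n0,n0,n0,n0,n0,n0,n0,n0,n0,n0,m1,n2] (e' := [n1,n0,n0,n0,n0,n0,n0,n0,n0,n0,n0,n1,m2]) (by decide +kernel) (.t t142
  ok142) cl214

theorem cl216 : Clo K (Helper55.TR.GT 1 Helper55.TR.BrU) l226 :=
  .i [n1,n0,n3,n3,m1,n0,n0,n1,n0,n1] (e' := [n0,n0,m3,m3,n1,n0,n0,m1,n0,m1]) (by decide +kernel)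
  (by decide +kernel) (.t t141 ok141) cl215

theorem cl217 : Clo K (Helper55.TR.GT 1 Helper55.TR.BrU) r226 :=
  .w [n0,n0,n0,n0,n0,n0,n0,n0,n0,n0,n0,m1,n2] (e' := [n1,n0,n0,n0,n0,n0,n0,n0,n0,n0,n0,n1,m2]) (by decide +kernel) (.t t144
  ok144) (.h (Helper55.TR.GT.lJ Helper55.CD.Dm1_1_c0u_5_1_82.g 344877952549270968329330935099295971352083550635587241934165784926010516602753321072990676233648011165549271268980298028487959773326827307885744476079365393777623886455982298359237104871491045475486721 (by decide +kernel)))

theorem cl218 : Clo K (Helper55.TR.GT 1 Helper55.TR.BrU) r225 :=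
  .i [n1,n0,m3,m3,n1,n0,n0,m1,n0,m1] (e' := [n0,n0,n3,n3,m1,n0,n0,n1,n0,n1]) (by decide +kernel)
  (by decide +kernel) cl216 cl217

theorem cl219 : Clo K (Helper55.TR.GT 1 Helper55.TR.BrU) r224 :=
  .i [n0,n0,n2,n2,m1,n0,n0,n0,n0,m1] (e' := [n1,n0,m2,m2,n1,n0,n0,n0,n0,n1]) (by decide +kernel)
  (by decide +kernel) (.t t140 ok140) cl218

theorem cl220 : Clo K (Helper55.TR.GT 1 Helper55.TR.BrU) l223 :=
  .i [n0,n0,n0,n0,n0,n0,n1,n0,m2] (e' := [n1,n0,n0,n0,n0,n0,m1,n0,n2]) (by decide +kernel) (by decide +kernel) (.t
  t139 ok139) cl219

theorem cl221 : Clo K (Helper55.TR.GT 1 Helper55.TR.BrU) r232 :=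
  .q [n0,n0,n0,m2,n0,n0,m1,m1,n2,n2,n0,m1,n2] (e' := [n0,n0,n0,n2,n0,n0,n1,n1,m2,m2,n0,n1,m2]) (.p true [0,0,0,1] [0,0,
  1,-1] (⟨0,[(14,0)]⟩,⟨0,[(12,0)]⟩) .k 2 (⟨0,[(10,0)]⟩,⟨0,[(14,0),(15,0)]⟩) .k (.r 0 ⟨0,[(2,0)]⟩ ⟨0,
  [(6,1),(29,0),(2,0)]⟩)) (by decide +kernel) (by decide +kernel) (.t t146 ok146) (.h (Helper55.TR.GT.lb Helper55.CD.Dm1_1_c0u_5_1_83.g 445875258193879065822263125435839378379749078972324006632089587060895790367982624848529737622692985468324282125265904417840424993997999019179744970257413863041952882564477345162144229998928493436368588802 (by decide +kernel)))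

theorem cl222 : Clo K (Helper55.TR.GT 1 Helper55.TR.BrU) l231 :=
  .q [n0,n0,n0,m1,n0,n0,m1,m1,n2,n2,n0,m1,n2] (e' := [n0,n0,n0,n1,n0,n0,n1,n1,m2,m2,n0,n1,m2]) (.p true [0,0,0,1] [0,0,
  1,-1] (⟨0,[(13,0)]⟩,⟨0,[(11,0)]⟩) .k 2 (⟨0,[(9,0)]⟩,⟨0,[(13,0),(15,0)]⟩) .k (.r 0 ⟨0,[(1,0)]⟩ ⟨0,
  [(5,1),(29,0),(2,0)]⟩)) (by decide +kernel) (by decide +kernel) (.t t145 ok145) cl221

theorem cl223 : Clo K (Helper55.TR.GT 1 Helper55.TR.BrU) r223 :=
  .q [n0,n0,n0,n0,n0,n0,n1,n1,m2,m2,n0,n1,m2] (e' := [n0,n0,n0,n0,n0,n0,m1,m1,n2,n2,n0,m1,n2]) (.p false [0,0,0,1] [0,0,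
  1,-1] (⟨0,[(12,0)]⟩,⟨0,[(10,0)]⟩) .k 2 (⟨0,[(8,0)]⟩,⟨0,[(12,0),(15,0)]⟩) .k (.r 0 ⟨0,[(0,0)]⟩ ⟨0,
  [(4,1),(29,0),(2,0)]⟩)) (by decide +kernel) (by decide +kernel) cl222 (.t t147 ok147)

theorem cl224 : Clo K (Helper55.TR.GT 1 Helper55.TR.BrU) r207 :=
  .i [n1,n0,n0,n0,n0,n0,n0,n1,n0,m2] (e' := [n0,n0,n0,n0,n0,n0,n0,m1,n0,n2]) (by decide +kernel) (by decide +kernel)
  cl220 cl223

theorem cl225 : Clo K (Helper55.TR.GT 1 Helper55.TR.BrU) r193 :=
  .i [n0,n1,n0,n0,n0,n0,n0,n1,n0,m1] (e' := [n1,m1,n0,n0,n0,n0,n0,m1,n0,n1]) (by decide +kernel) (by decide +kernel)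
  cl213 cl224

theorem cl226 : Clo K (Helper55.TR.GT 1 Helper55.TR.BrU) r169 :=
  .i [n1,n0,m1,n0,n0,n0,n0,m1,n0,m2] (e' := [n0,n0,n1,n0,n0,n0,n0,n1,n0,n2]) (by decide +kernel) (by decide +kernel)
  cl198 cl225

theorem cl227 : Clo K (Helper55.TR.GT 1 Helper55.TR.BrU) r140 :=
  .q [n0,n0,n0,n0,n0,m1,n0,n0,n0,n0,n1,m1,m1] (e' := [n0,n0,n0,n0,n0,n1,n0,n0,n0,n0,m1,n1,n1]) (.p false [0,0,1] [1,0,0,
  -1] (⟨0,[(29,0)]⟩,⟨0,[(24,0)]⟩) .k 2 (⟨0,[(6,0)]⟩,⟨0,[(8,0)]⟩) .k (.r (-1) ⟨35,[(9,5),(3,3),(3,
  35),(12,20),(4,13),(7,1),(2,0),(3,7)]⟩ ⟨2,[(0,0),(6,0),(13,0),(5,0),(5,3)]⟩)) (by decide +kernel)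
  (by decide +kernel) cl185 cl226

theorem cl228 : Clo K (Helper55.TR.GT 1 Helper55.TR.BrU) l139 :=
  .i [n0,m1,n0,n0,n0,n0,n0,m1,n0,n1] (e' := [n1,n1,n0,n0,n0,n0,n0,n1,n0,m1]) (by decide +kernel) (by decide +kernel)
  cl162 cl227

theorem cl229 : Clo K (Helper55.TR.GT 1 Helper55.TR.BrU) r243 :=
  .w [n0,n0,n0,n0,n0,n0,n0,n0,n0,n0,n0,n1,m2] (e' := [n1,n0,n0,n0,n0,n0,n0,n0,n0,n0,n0,m1,n2]) (by decide +kernel) (.t t155
  ok155) (.h (Helper55.TR.GT.lb Helper55.CD.Dm1_1_c0u_5_1_84.g 59374175163766959459687625612239695726793572641393274972516905310814722210089205254272769865644001679991176221638177797354088548737407679494190068622299020863728535651500329442305100847530384386 (by decide +kernel)))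

theorem cl230 : Clo K (Helper55.TR.GT 1 Helper55.TR.BrU) r242 :=
  .w [n0,n0,n0,n0,n0,n0,n0,n0,n0,n0,n0,m1,n2] (e' := [n1,n0,n0,n0,n0,n0,n0,n0,n0,n0,n0,n1,m2]) (by decide +kernel) (.t t154
  ok154) cl229

theorem cl231 : Clo K (Helper55.TR.GT 1 Helper55.TR.BrU) r241 :=
  .i [n1,n0,m3,m3,n1,n0,n0,m1,n0,m1] (e' := [n0,n0,n3,n3,m1,n0,n0,n1,n0,n1]) (by decide +kernel)
  (by decide +kernel) (.t t153 ok153) cl230

theorem cl232 : Clo K (Helper55.TR.GT 1 Helper55.TR.BrU) l240 :=
  .i [n0,n1,m1,m1,n0,n0,n0,m1,n0,m1] (e' := [n1,m1,n1,n1,n0,n0,n0,n1,n0,n1]) (by decide +kernel)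
  (by decide +kernel) (.t t152 ok152) cl231

theorem cl233 : Clo K (Helper55.TR.GT 1 Helper55.TR.BrU) r249 :=
  .w [n0,n0,n0,n0,n0,n0,n0,n0,n0,n0,n0,m1,n2] (e' := [n1,n0,n0,n0,n0,n0,n0,n0,n0,n0,n0,n1,m2]) (by decide +kernel) (.t t159
  ok159) (.h (Helper55.TR.GT.lJ Helper55.CD.Dm1_1_c0u_5_1_85.g 67051867907264471919533700756444436658907476456495642090754957356851970994396767984620256734000537638799233701244993799044241291582360658768104619612190806043926673878220557645860267594076039313096752 (by decide +kernel)))

theorem cl234 : Clo K (Helper55.TR.GT 1 Helper55.TR.BrU) l248 :=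
  .i [n1,n0,m3,m3,n1,n0,n0,m2] (e' := [n0,n0,n3,n3,m1,n0,n0,n2]) (by decide +kernel) (by decide +kernel) (.t
  t158 ok158) cl233

theorem cl235 : Clo K (Helper55.TR.GT 1 Helper55.TR.BrU) r248 :=
  .w [n0,n0,n0,n0,n0,n0,n0,n0,n0,n0,n0,m1,n2] (e' := [n1,n0,n0,n0,n0,n0,n0,n0,n0,n0,n0,n1,m2]) (by decide +kernel) (.t t160
  ok160) (.h (Helper55.TR.GT.lJ Helper55.CD.Dm1_1_c0u_5_1_86.g 367875705587741023942648933316934699269711260885802677068681092377214122656357379405647215933101880345057945135599430580485519402840817657840579517664040425466627395145920116586521499689416513865162686466 (by decide +kernel)))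

theorem cl236 : Clo K (Helper55.TR.GT 1 Helper55.TR.BrU) r247 :=
  .i [n1,n0,n3,n3,m1,n0,n0,n2] (e' := [n0,n0,m3,m3,n1,n0,n0,m2]) (by decide +kernel) (by decide +kernel) cl234
  cl235

theorem cl237 : Clo K (Helper55.TR.GT 1 Helper55.TR.BrU) l246 :=
  .i [n1,n0,m3,m3,n1,n0,n0,m1,n0,m1] (e' := [n0,n0,n3,n3,m1,n0,n0,n1,n0,n1]) (by decide +kernel)
  (by decide +kernel) (.t t157 ok157) cl236

theorem cl238 : Clo K (Helper55.TR.GT 1 Helper55.TR.BrU) r246 :=
  .w [n0,n0,n0,n0,n0,n0,n0,n0,n0,n0,n0,m1,n2] (e' := [n1,n0,n0,n0,n0,n0,n0,n0,n0,n0,n0,n1,m2]) (by decide +kernel) (.t t161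
  ok161) (.h (Helper55.TR.GT.lJ Helper55.CD.Dm1_1_c0u_5_1_87.g 393563841216147604205345658218810048640864348839422363603393022765215388310028164894845542258308153520442415299984307712730127682055215917869554814685214671330010964366338958148205649404518991422998415597282445493250 (by decide +kernel)))

theorem cl239 : Clo K (Helper55.TR.GT 1 Helper55.TR.BrU) r245 :=
  .i [n1,n0,n3,n3,m1,n0,n0,n1,n0,n1] (e' := [n0,n0,m3,m3,n1,n0,n0,m1,n0,m1]) (by decide +kernel)
  (by decide +kernel) cl237 cl238

theorem cl240 : Clo K (Helper55.TR.GT 1 Helper55.TR.BrU) r240 :=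
  .i [n0,n1,m1,n0,n0,n0,n0,m1,n0,m1] (e' := [n1,m1,n1,n0,n0,n0,n0,n1,n0,n1]) (by decide +kernel)
  (by decide +kernel) (.t t156 ok156) cl239

theorem cl241 : Clo K (Helper55.TR.GT 1 Helper55.TR.BrU) l239 :=
  .q [n0,n0,n0,n0,n0,m1,n0,n0,n0,n0,n1,m1,m1] (e' := [n0,n0,n0,n0,n0,n1,n0,n0,n0,n0,m1,n1,n1]) (.p false [0,0,1,1] [1]
  (⟨0,[(13,0),(20,0)]⟩,⟨0,[(1,0),(5,0),(50,0)]⟩) .k 1 (⟨0,[]⟩,⟨0,[]⟩) .k (.r (-1) ⟨29,[(6,2),(11,4),
  (3,29),(12,14),(4,9),(7,0),(2,1),(3,9)]⟩ ⟨1,[(2,0),(2,0),(32,2)]⟩)) (by decide +kernel)
  (by decide +kernel) cl232 cl240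

theorem cl242 : Clo K (Helper55.TR.GT 1 Helper55.TR.BrU) r238 :=
  .q [n0,n0,n0,n0,n0,n0,n1,n0,m1,n0,m1,n1,m1] (e' := [n0,n0,n0,n0,n0,n0,m1,n0,n1,n0,n1,m1,n1]) (.p false [1,0,-1,1] []
  (⟨0,[(12,0),(15,0)]⟩,⟨0,[(8,0)]⟩) .k 0 (⟨0,[]⟩,⟨0,[]⟩) .k (.r 0 ⟨1,[(2,0),(18,0),(15,0),(11,0)]⟩
  ⟨24,[(1,9),(2,14),(0,11),(11,19),(29,3),(2,7),(3,9)]⟩)) (by decide +kernel) (by decide +kernel)
  cl241 (.t t162 ok162)

theorem cl243 : Clo K (Helper55.TR.GT 1 Helper55.TR.BrU) l237 :=
  .i [n0,n0,m2,n0,n1,m2,n0,n0,m1] (e' := [n1,n0,n2,n0,m1,n2,n0,n0,n1]) (by decide +kernel) (by decide +kernel)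
  (.t t151 ok151) cl242

theorem cl244 : Clo K (Helper55.TR.GT 1 Helper55.TR.BrU) l256 :=
  .i [n1,n0,m3,m3,n1,n0,n0,m1,n0,n1] (e' := [n0,n0,n3,n3,m1,n0,n0,n1,n0,m1]) (by decide +kernel)
  (by decide +kernel) (.t t165 ok165) (.h (Helper55.TR.GT.lb Helper55.CD.Dm1_1_c0u_5_1_88.g 75162021076032261621816363276218520908846213585414104706587323268094521703913852953951236313127391098581103643407590098912204803783057000411366331275107066085402211814922421808204217406984426622979 (by decide +kernel)))

theorem cl245 : Clo K (Helper55.TR.GT 1 Helper55.TR.BrU) r256 :=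
  .q [n0,n0,n0,n0,n0,m1,n0,n0,n0,n0,n1,m1,m1] (e' := [n0,n0,n0,n0,n0,n1,n0,n0,n0,n0,m1,n1,n1]) (.p false [0,0,1] [1,0,0,
  -1] (⟨0,[(36,0)]⟩,⟨0,[(31,0)]⟩) .k 2 (⟨0,[(13,0)]⟩,⟨0,[(15,0)]⟩) .k (.r (-1) ⟨29,[(8,2),(11,4),(3,
  29),(12,14),(4,9),(7,0),(2,1),(3,9)]⟩ ⟨6,[(2,1),(3,0),(7,4),(13,1),(11,6),(13,1)]⟩))
  (by decide +kernel) (by decide +kernel) (.h (Helper55.TR.GT.lJ Helper55.CD.Dm1_1_c0u_5_1_89.g 361625945311711460304393023986335783099670540924406593559063244158242023847317658249413883197261043174085599504050909213903560061569939704016970326733594784454718912609984403203420658250090678580554605003779 (by decide +kernel))) (.h (Helper55.TR.GT.lb Helper55.CD.Dm1_1_c0u_5_1_90.g 191157349292224359325881571556321005096949684855000278128671226219789207791689781081549100631512514572507857647719258732894518840175832492166940210970029307010938390899643581055444924949096033181082058764 (by decide +kernel)))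

theorem cl246 : Clo K (Helper55.TR.GT 1 Helper55.TR.BrU) r255 :=
  .i [n1,n0,n3,n3,m1,n0,n0,n1,n0,m1] (e' := [n0,n0,m3,m3,n1,n0,n0,m1,n0,n1]) (by decide +kernel)
  (by decide +kernel) cl244 cl245

theorem cl247 : Clo K (Helper55.TR.GT 1 Helper55.TR.BrU) l254 :=
  .i [n0,n1,n2,n1,m1,n0,n0,n0,n0,m1] (e' := [n1,m1,m2,m1,n1,n0,n0,n0,n0,n1]) (by decide +kernel)
  (by decide +kernel) (.t t164 ok164) cl246

theorem cl248 : Clo K (Helper55.TR.GT 1 Helper55.TR.BrU) r253 :=
  .q [n0,n0,n0,n0,n0,n0,n1,n1,m2,m2,n0,n1,m2] (e' := [n0,n0,n0,n0,n0,n0,m1,m1,n2,n2,n0,m1,n2]) (.p false [0,0,0,1] [0,0,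
  1,-1] (⟨0,[(12,0)]⟩,⟨0,[(10,0)]⟩) .k 2 (⟨0,[(8,0)]⟩,⟨0,[(12,0),(15,0)]⟩) .k (.r 0 ⟨0,[(1,0),(19,
  0),(27,0)]⟩ ⟨8,[(3,0),(0,6),(6,10),(5,7),(13,9),(15,3),(2,1),(3,1)]⟩)) (by decide +kernel)
  (by decide +kernel) cl247 (.t t166 ok166)

theorem cl249 : Clo K (Helper55.TR.GT 1 Helper55.TR.BrU) r237 :=
  .q [n0,n0,n0,n0,n0,n2,n0,n0,n0,n0,n0,n0,m1] (e' := [n0,n0,n0,n0,n0,m2,n0,n0,n0,n0,n0,n0,n1]) (.p false [0,0,0,1] [] (⟨0,
  [(11,0)]⟩,⟨0,[(9,0)]⟩) .k 0 (⟨0,[]⟩,⟨0,[]⟩) .k .k) (by decide +kernel) (by decide +kernel) (.t
  t163 ok163) cl248

theorem cl250 : Clo K (Helper55.TR.GT 1 Helper55.TR.BrU) r236 :=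
  .i [n1,n0,n2,n2,m1,n0,n0,n0,n0,m1] (e' := [n0,n0,m2,m2,n1,n0,n0,n0,n0,n1]) (by decide +kernel)
  (by decide +kernel) cl243 cl249

theorem cl251 : Clo K (Helper55.TR.GT 1 Helper55.TR.BrU) r235 :=
  .i [n0,n0,n2,n2,m1,n0,n0,n0,n0,m1] (e' := [n1,n0,m2,m2,n1,n0,n0,n0,n0,n1]) (by decide +kernel)
  (by decide +kernel) (.t t150 ok150) cl250

theorem cl252 : Clo K (Helper55.TR.GT 1 Helper55.TR.BrU) r234 :=
  .q [n0,n0,n0,m2,n0,n0,n0,n0,n1,n1,n0,n0,n1] (e' := [n0,n0,n0,n2,n0,n0,n0,n0,m1,m1,n0,n0,m1]) (.p true [0,0,0,1] [] (⟨0,
  [(8,0)]⟩,⟨0,[(6,0)]⟩) .k 0 (⟨0,[]⟩,⟨0,[]⟩) .k .k) (by decide +kernel) (by decide +kernel) (.t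
  t149 ok149) cl251

theorem cl253 : Clo K (Helper55.TR.GT 1 Helper55.TR.BrU) r139 :=
  .i [n0,n0,n2,n2,m1,n0,n0,m1,n0,n1] (e' := [n1,n0,m2,m2,n1,n0,n0,n1,n0,m1]) (by decide +kernel)
  (by decide +kernel) (.t t148 ok148) cl252

theorem cl254 : Clo K (Helper55.TR.GT 1 Helper55.TR.BrU) l138 :=
  .q [n0,n0,n2,n0,m1,n0,n1,n0,n0,n0,m1,n1] (e' := [n0,n0,m2,n0,n1,n0,m1,n0,n0,n0,n1,m1]) (.p true [0,0,1] [1] (⟨0,[(27,
  0)]⟩,⟨0,[(22,0)]⟩) .k 1 (⟨0,[]⟩,⟨0,[]⟩) .k .k) (by decide +kernel) (by decide +kernel) cl228 cl253

theorem cl255 : Clo K (Helper55.TR.GT 1 Helper55.TR.BrU) r137 :=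
  .q [n0,n0,m2,n0,n1,n0,n0,n0,m1,n0,n0,n0,m1] (e' := [n0,n0,n2,n0,m1,n0,n0,n0,n1,n0,n0,n0,n1]) (.p false [0,0,0,1] [] (⟨0,
  [(5,0)]⟩,⟨0,[(3,0)]⟩) .k 0 (⟨0,[]⟩,⟨0,[]⟩) .k .k) (by decide +kernel) (by decide +kernel) cl254
  (.h (Helper55.TR.GT.lJ Helper55.CD.Dm1_1_c0u_5_1_91.g 239661772778528272082458510901827530247459475009490230297322726311175807481962958318062153036322660967825196217472391463395642821513720558018139709433591405828219894556029971 (by decide +kernel)))

theorem cl256 : Clo K (Helper55.TR.GT 1 Helper55.TR.BrU) r1 :=
  .q [n0,n0,n0,n0,n0,n1,n0,n0,n0,n0,n0,m1,n1] (e' := [n0,n0,n0,n0,n0,m1,n0,n0,n0,n0,n0,n1,m1]) (.p true [1,0,-1,1] [1] (⟨0,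
  [(4,0),(15,0)]⟩,⟨0,[(0,0)]⟩) .k 1 (⟨0,[]⟩,⟨0,[]⟩) .k (.r 0 ⟨3,[(12,2),(0,3),(10,0),(10,1),(5,0),
  (6,0)]⟩ ⟨24,[(3,21),(5,16),(7,2),(5,21),(2,4),(4,18),(7,1),(2,0),(0,12)]⟩)) (by decide +kernel)
  (by decide +kernel) (.t t83 ok83) cl255

theorem cl257 : Clo K (Helper55.TR.GT 1 Helper55.TR.BrU) l0 :=
  .q [n0,n0,n0,n0,n0,n0,n0,n0,n0,n0,n0,m1,n1] (e' := [n0,n0,n0,n0,n0,n0,n0,n0,n0,n0,n0,n1,m1]) (.ed false [1,0,-1,1] (.r 0
  ⟨3,[(11,2),(0,3),(10,0),(10,1),(5,0),(6,0)]⟩ ⟨24,[(2,21),(5,16),(7,2),(5,21),(2,4),(4,18),(7,1),
  (2,0),(0,12)]⟩)) (by decide +kernel) (by decide +kernel) cl134 cl256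

theorem cl258 : Clo K (Helper55.TR.GT 1 Helper55.TR.BrU) base :=
  .q [n0,n0,n0,n0,n0,m1,n0,n0,n0,n0,n0,n0,n1] (e' := [n0,n0,n0,n0,n0,n1,n0,n0,n0,n0,n0,n0,m1]) (.ed false [1,-1,0,1] .k)
  (by decide +kernel) (by decide +kernel) cl257 (.t t167 ok167)

theorem g : Helper55.TR.GT 1 Helper55.TR.BrU base :=
  Helper55.TR.GT.of cl258

end Helper55.CD.Dm1_1_c0u_5_1

namespace Helper55.CD.Dm1_1_c0u_5

open Helper25.KG Helper25.KW Helper55.KE Helper11.CT Helper55.TR.Nm

noncomputable def K : Cls :=
  Helper55.TR.KT 1

noncomputable def base : List Con :=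
  [(false,[n0,n0,n0,n0,n0,n0,n0,n0,n1,n0,n0,n0,n1]),
  (true,[n0,m2,n0,n0,n1]),
  (true,[n1,n1,n0,n0,n0,n0,n0,n0,n0,n1]),
  (false,[n0,n0,n0,n0,n1,n0,n0,n0,n0,n0,m2]),
  (true,[n0,n1,n0,n1]),
  (true,[n0,n0,m2,n0,n1]),
  (false,[n0,n0,n0,n1,n0,n0,n0,n0,m1,m1,n0,n0,m1]),
  (true,[n0,m1,n0,m1,n0,n0,n0,n0,n0,m1]),
  (false,[n0,n0,n0,n0,n0,n0,n0,n0,n0,n0,n1,n0,m1]),
  (false,[n0,n0,n0,n0,n0,n0,n0,n0,n0,n0,n0,n0,n1]),
  (false,[n0,n0,n1,n0,n0,n0,m1,n0,n0,n0,n0,m1]),
  (true,[n0,n0,n0,m1]),
  (true,[m1,n1]),
  (false,[n0,n0,n2,n0,m1,n0,n1,n0,n0,n0,n0,n1]),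
  (false,[n0,n0,n1,n0,n0,n0,n1,n0,n0,n0,n0,n1]),
  (true,[n1,m2,n1]),
  (true,[n1,n0,m1,m1,n1,n0,n0,n2]),
  (false,[n0,n1,n0,n0,n0,n0,m1,m1,n0,n0,n0,m1]),
  (true,[n1,m1,n1,n2,n0,n0,n0,n1]),
  (false,[n0,n0,n0,n2,n0,n0,m1,m1,n0,n0,n0,m1]),
  (false,[n0,n0,n0,n0,n0,n0,n1,n0,n0,n0,n0,n1]),
  (false,[n0,n0,m2,n0,n1,n0,n0,n0,n0,n0,m1]),
  (false,[n0,n0,n0,n0,n0,n0,n0,n0,n0,n0,n1,m1]),
  (false,[n0,n0,n0,n0,n0,n0,n0,n0,n0,n0,n0,n1]),
  (true,[n1,m1,n2,n2,m1,n0,n0,m1]),
  (true,[n0,n0,m1,m1,n1,n0,n0,n2]),
  (true,[n0,m1,n2,n1,m1,n0,n0,m1]),
  (false,[n0,n0,n0,n0,n0,m2,n0,n0,n0,n0,n0,n1]),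
  (true,[n0,m1,n1,n1,n0,n0,n0,n1]),
  (false,[n0,n0,n0,n0,n0,m2,n0,n0,n0,n0,n1,m1]),
  (true,[n1,m1,n2,n0,m1,n0,n0,m1]),
  (true,[n1,n0,n2,n2,m1,n0,n0,m1]),
  (true,[n1,n0,n2,n0,m1,n2,n1]),
  (true,[n1,m1,n1,n1,n0,n0,n0,n1]),
  (false,[n0,n0,n1,n0,n0,n0,m2,n0,n0,n0,n1,m2]),
  (false,[n0,m1,n0,m1,n0,n0,m1,m1,n0,n0,n0,m1]),
  (false,[n0,n0,n0,n0,n0,m1,n0,n0,n0,n0,n1,m1]),
  (false,[n0,n0,n0,n0,n0,m2,n0,n0,n0,n0,n1]),
  (false,[n0,n0,n0,n1,n0,n0,m1,m1,n0,n0,n0,m1]),
  (true,[n0,n0,n1,n1,n0,n0,n0,n1]),
  (false,[n0,n0,n0,n0,n0,n0,m1,m1,n0,n0,n0,m1]),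
  (false,[n0,n0,n0,n0,n0,n0,n1,n0,n0,n0,m1,n1]),
  (true,[n0,n0,n1,n0,n0,n0,n0,n1]),
  (false,[n0,n0,n0,n0,n0,m1,n0,n0,n0,n0,n0,n1]),
  (true,[n0,n0,n0,n0,n0,n0,n0,m1]),
  (false,[n0,m1,m1,n1,n1,n0,m1,n0,n0,n0,n0,m1]),
  (true,[n0,n0,n0,m1,n0,n0,n0,m1]),
  (true,[n0,m1,n1,n0,n0,n0,n0,m1]),
  (false,[n0,m1,n0,n0,n0,n0,m1,m1,n0,n0,n1,m1])]

noncomputable def l0 : List Con := (false, [n0,m1,n0,n0,n0,n0,n0,n0,m1,m1,n1,n0,m1]) :: base

noncomputable def r0 : List Con := (false, [n0,n1,n0,n0,n0,n0,n0,n0,n1,n1,m1,n0,n1]) :: base

noncomputable def l1 : List Con := (false, [n0,n0,n0,n0,n0,n0,n0,n0,n1,n0,m1,n0,n1]) :: r0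

noncomputable def r1 : List Con := (false, [n0,n0,n0,n0,n0,n0,n0,n0,m1,n0,n1,n0,m1]) :: r0

noncomputable def l2 : List Con := (true, [n0,n0,m2,n0,n1,m2,m1,n0,n1]) :: l1

noncomputable def r2 : List Con := (true, [n1,n0,n2,n0,m1,n2,n1,n0,m1]) :: l1

open Helper55.PC in
noncomputable def t0n : Helper55.PC.Ten :=
  (r
  62114226107052489099318933907673205406375844879724929192907593804379838167792593911693326591521633096299446273062967988223103739557015198814650147980763807649257818137652720361542901352987749437616677035534424265648980681307869325417830437101649307122829883481697360743248981441975184817030410524642097781360134829350761235019090159890022458816709153416221278084205705529904488545616838877598284634090732680899620388558573838970639095665837136321112679436898984469241028738)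

noncomputable def t0 : Tre := Helper55.PC.toT t0n

theorem ok0 : chk K t0 l0 = true :=
  Helper55.PC.chkN_sound K t0n l0 (by decide +kernel)

open Helper55.PC in
noncomputable def t1n : Helper55.PC.Ten :=
  (r
  2215895486820572351184492476117773888124121771091768781057604187593101607497805943655814575685919642184804041536553018169229156114131908404877483100803514592072308193172407987994844454044773068923059287967883792269178851303747977093569184280737285432415075063755922693821849738)

noncomputable def t1 : Tre := Helper55.PC.toT t1n

theorem ok1 : chk K t1 r1 = true :=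
  Helper55.PC.chkN_sound K t1n r1 (by decide +kernel)

theorem cl0 : Clo K (Helper55.TR.GT 1 Helper55.TR.BrU) l1 :=
  .i [n0,n0,m2,n0,n1,m2,m1,n0,n1] (e' := [n1,n0,n2,n0,m1,n2,n1,n0,m1]) (by decide +kernel) (by decide +kernel)
  (.h (Helper55.TR.GT.sub Helper55.CD.Dm1_1_c0u_5_0.g 258205435541555955436772358806251452779881235507431975059939175676998406062757962332449161480650582902853404492293771611125900277190382187030562369023650854184429824036 (by decide +kernel))) (.h (Helper55.TR.GT.sub Helper55.CD.Dm1_1_c0u_5_1.g 224996323791831359911026310349608058243761130647007154897301352759378234436063865356141717105134857603541125899561780771610489871737112532732884326213684905693252962320 (by decide +kernel)))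

theorem cl1 : Clo K (Helper55.TR.GT 1 Helper55.TR.BrU) r0 :=
  .q [n0,n0,n0,n0,n0,n0,n0,n0,n1,n0,m1,n0,n1] (e' := [n0,n0,n0,n0,n0,n0,n0,n0,m1,n0,n1,n0,m1]) (.p true [0,0,0,1] [1] (⟨0,
  [(10,0)]⟩,⟨0,[(9,0)]⟩) .k 1 (⟨0,[]⟩,⟨0,[]⟩) .k .k) (by decide +kernel) (by decide +kernel) cl0
  (.t t1 ok1)

theorem cl2 : Clo K (Helper55.TR.GT 1 Helper55.TR.BrU) base :=
  .q [n0,m1,n0,n0,n0,n0,n0,n0,m1,m1,n1,n0,m1] (e' := [n0,n1,n0,n0,n0,n0,n0,n0,n1,n1,m1,n0,n1]) (.p false [0,0,0,1] [1]
  (⟨0,[(9,0)]⟩,⟨0,[(8,0)]⟩) .k 1 (⟨0,[]⟩,⟨0,[]⟩) .k .k) (by decide +kernel) (by decide +kernel) (.t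
  t0 ok0) cl1

theorem g : Helper55.TR.GT 1 Helper55.TR.BrU base :=
  Helper55.TR.GT.of cl2

end Helper55.CD.Dm1_1_c0u_5
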