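import Pool.Agent.Helper55.CE.H_m1_1_c0u_95_b0
import Pool.Agent.Helper55.CE.H_m1_1_c0u_95_b1
import Pool.Agent.Helper55.TR.Num
import Pool.Agent.Helper81.PC.Sound
import Pool.Agent.Helper55.TR.Enc2

set_option autoImplicit false
set_option linter.all false

namespace Helper55.CD.Dm1_1_c0u_95

open Helper25.KG Helper25.KW Helper55.KE Helper11.CT Helper55.TR.Nm

noncomputable def K : Cls :=
  Helper55.TR.KT 1

noncomputable def base : List Con :=
  [(false,[n0,n0,n0,n0,n0,n0,n0,n0,n0,n0,n0,n0,n1]),
  (false,[n0,n0,n0,n0,n0,n0,n0,n0,n0,n0,n1,n0,m1]),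
  (true,[n0,m2,n0,n0,n1]),
  (true,[m1,n1]),
  (false,[n0,m1,n0,n0,n0,n0,m1,m1,n0,n0,n1,m1]),
  (false,[n0,n0,n1,n0,n0,n0,n1,n0,n0,n0,n0,n1]),
  (true,[n0,n0,n0,m1]),
  (false,[n0,n0,n0,n0,n0,n0,n0,n0,n0,n0,n0,n1]),
  (false,[n0,n0,n0,n0,n0,n0,n0,n0,n0,n0,n1,m1]),
  (false,[n0,n1,n0,n0,n0,n0,n1,n1,n0,n0,n0,n1]),
  (true,[n1,n1,n0,n0,n0,n0,n0,n0,n0,n1]),
  (false,[n0,n0,n0,n0,n0,n0,m1,m1,n0,n0,n0,m1]),
  (false,[n0,n0,n0,n0,n0,m1,n0,n0,n0,n0,n1,n0,m1]),
  (false,[n0,n0,n0,n0,n0,n0,n0,n0,n1,n0,n0,n0,n1]),
  (true,[n0,n0,n1,n0,n0,n0,n0,n1]),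
  (false,[n0,n0,n0,n0,n0,n0,n1,n0,n0,n0,m1,n1]),
  (true,[n0,n1,n0,n1]),
  (true,[n0,n0,n0,n0,n0,n0,n0,m1]),
  (false,[n0,n0,n0,n0,n1,n0,n0,n0,n0,n0,m2]),
  (false,[n0,n0,n1,n0,n0,n0,m1,n0,n0,n0,n0,m1]),
  (false,[n0,n0,m2,n0,n1,n0,m2,n0,n0,n0,n1,m2]),
  (true,[n0,n0,m1,m2,n1,n0,n0,n2]),
  (true,[n0,m1,n0,m1,n0,n0,n0,n0,n0,m1]),
  (false,[n0,n0,n0,n1,n0,n0,n0,n0,m1,m1,n0,n0,m1]),
  (true,[n0,n0,m2,n0,n1]),
  (true,[n0,n0,n3,n3,m1]),
  (false,[n0,n0,n0,n0,n0,n0,n1,n0,n0,n0,n0,n1]),
  (false,[n0,n1,n0,n0,n0,n0,m1,m1,n0,n0,n0,m1]),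
  (true,[n0,m1,n1,n0,n0,n0,n0,m1]),
  (false,[n0,n0,n0,n2,n0,n0,m1,m1,n0,n0,n0,m1]),
  (false,[n0,m1,n0,m1,n0,n0,m1,m1,n0,n0,n0,m1]),
  (true,[n0,n0,n1,n1,n0,n0,n0,n1]),
  (true,[n1,m2,n1]),
  (true,[n0,n0,n0,m1,n0,n0,n0,m1]),
  (true,[n1,m1,n1,n1,n0,n0,n0,n1]),
  (true,[n1,m1,m2,m1,n1,n0,n0,n1]),
  (true,[n0,m1,m2,m2,n1]),
  (false,[n0,n0,m2,n0,n1,n0,n0,n0,n0,n0,m1]),
  (true,[n0,m1,m2,m2,n1,n0,n0,n1]),
  (false,[n0,n0,m2,n0,n1,n0,m1,n0,n0,n0,n0,m1]),
  (false,[n0,m1,m1,n1,n1,n0,m1,n0,n0,n0,n0,m1]),
  (true,[n0,n0,n0,n0,n0,n1]),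
  (false,[n0,n0,n0,n0,n0,m1,n0,n0,n0,n0,n1,m1]),
  (false,[n0,n0,n0,n0,n0,m2,n0,n0,n0,n0,n0,n1]),
  (false,[n0,n0,n0,n0,n0,m1,n0,n0,n0,n0,n0,n1]),
  (false,[n0,n0,n0,n1,n0,n0,m1,m1,n0,n0,n0,m1]),
  (false,[n0,n0,n0,n0,n0,m1,n0,n0,n0,n0,n1]),
  (true,[n1,n0,n3,n3,m1]),
  (false,[n0,n0,n0,n0,n0,m2,n0,n0,n0,n0,n1])]

noncomputable def l0 : List Con := (false, [n0,m1,n0,n0,n0,n0,n0,n0,m1,m1,n1,n0,m1]) :: base

noncomputable def r0 : List Con := (false, [n0,n1,n0,n0,n0,n0,n0,n0,n1,n1,m1,n0,n1]) :: base

noncomputable def l1 : List Con := (false, [n0,n0,n0,n0,n0,n0,n0,n0,m1,n0,n1,n0,m1]) :: r0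

noncomputable def r1 : List Con := (false, [n0,n0,n0,n0,n0,n0,n0,n0,n1,n0,m1,n0,n1]) :: r0

noncomputable def l2 : List Con := (false, [n0,n0,n0,n0,n0,n2,n0,n0,n0,n0,m1,n0,n1]) :: r1

noncomputable def r2 : List Con := (false, [n0,n0,n0,n0,n0,m2,n0,n0,n0,n0,n1,n0,m1]) :: r1

noncomputable def l3 : List Con := (false, [n0,n0,n0,n0,n0,n0,m1,n0,n1,n0,n0,m1,n1]) :: r2

noncomputable def r3 : List Con := (false, [n0,n0,n0,n0,n0,n0,n1,n0,m1,n0,n0,n1,m1]) :: r2

noncomputable def l4 : List Con := (false, [n0,n0,n0,n0,n0,n1,n0,n0,n0,n0,n0,n0,m1]) :: r3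

noncomputable def r4 : List Con := (false, [n0,n0,n0,n0,n0,m1,n0,n0,n0,n0,n0,n0,n1]) :: r3

noncomputable def l5 : List Con := (false, [n0,n0,n0,n0,n0,m2,n0,n0,n0,n0,n0,n0,n1]) :: r4

noncomputable def r5 : List Con := (false, [n0,n0,n0,n0,n0,n2,n0,n0,n0,n0,n0,n0,m1]) :: r4

noncomputable def l6 : List Con := (false, [n0,m1,n0,m2,n0,n0,m1,m1,n1,n1,n0,m1,n1]) :: l5

noncomputable def r6 : List Con := (false, [n0,n1,n0,n2,n0,n0,n1,n1,m1,m1,n0,n1,m1]) :: l5

noncomputable def l7 : List Con := (true, [n0,n1,n0,n0,n0,n0,n0,n1,n0,m1]) :: r6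

noncomputable def r7 : List Con := (true, [n1,m1,n0,n0,n0,n0,n0,m1,n0,n1]) :: r6

noncomputable def l8 : List Con := (false, [n0,n0,n0,n0,n0,n0,n0,n0,n0,n0,n0,n1,m1]) :: l7

noncomputable def r8 : List Con := (false, [n0,n0,n0,n0,n0,n0,n0,n0,n0,n0,n0,m1,n1]) :: l7

noncomputable def l9 : List Con := (false, [n0,n0,n0,n0,n0,n0,m1,n0,n1,n0,n1,m1,n1]) :: l8

noncomputable def r9 : List Con := (false, [n0,n0,n0,n0,n0,n0,n1,n0,m1,n0,m1,n1,m1]) :: l8

noncomputable def l10 : List Con := (false, [n0,n0,n0,n0,n0,n1,n0,n0,n0,n0,n0,m1,n1]) :: r9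

noncomputable def r10 : List Con := (false, [n0,n0,n0,n0,n0,m1,n0,n0,n0,n0,n0,n1,m1]) :: r9

noncomputable def l11 : List Con := (true, [n0,n1,m1,m1,n0,n0,n0,m1,n0,m1]) :: r10

noncomputable def r11 : List Con := (true, [n1,m1,n1,n1,n0,n0,n0,n1,n0,n1]) :: r10

noncomputable def l12 : List Con := (false, [n0,n0,n0,n0,n0,n0,n0,n0,n0,n0,m1,n1,n1]) :: l11

noncomputable def r12 : List Con := (false, [n0,n0,n0,n0,n0,n0,n0,n0,n0,n0,n1,m1,m1]) :: l11

noncomputable def l13 : List Con := (true, [n0,n1,m1,n0,n0,n0,n0,m1,n0,m1]) :: r12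

noncomputable def r13 : List Con := (true, [n1,m1,n1,n0,n0,n0,n0,n1,n0,n1]) :: r12

noncomputable def l14 : List Con := (false, [n0,n0,n0,m1,n0,n0,n1,n1,m1,m1,n0,n1,m1]) :: r13

noncomputable def r14 : List Con := (false, [n0,n0,n0,n1,n0,n0,m1,m1,n1,n1,n0,m1,n1]) :: r13

noncomputable def l15 : List Con := (false, [n0,n0,n0,m2,n0,n0,n1,n1,m1,m1,n0,n1,m1]) :: r14

noncomputable def r15 : List Con := (false, [n0,n0,n0,n2,n0,n0,m1,m1,n1,n1,n0,m1,n1]) :: r14

noncomputable def l16 : List Con := (true, [n1,n0,m1,m1,n0,n0,n0,m1,n0,m2]) :: r11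

noncomputable def r16 : List Con := (true, [n0,n0,n1,n1,n0,n0,n0,n1,n0,n2]) :: r11

noncomputable def l17 : List Con := (false, [n0,n0,n0,m1,n0,n0,n1,n1,m1,m1,n0,n1,m1]) :: r16

noncomputable def r17 : List Con := (false, [n0,n0,n0,n1,n0,n0,m1,m1,n1,n1,n0,m1,n1]) :: r16

noncomputable def l18 : List Con := (false, [n0,n0,n0,m2,n0,n0,n1,n1,m1,m1,n0,n1,m1]) :: r17

noncomputable def r18 : List Con := (false, [n0,n0,n0,n2,n0,n0,m1,m1,n1,n1,n0,m1,n1]) :: r17

noncomputable def l19 : List Con := (true, [n1,n0,n0,n0,n0,n0,n0,n1,n0,m2]) :: r18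

noncomputable def r19 : List Con := (true, [n0,n0,n0,n0,n0,n0,n0,m1,n0,n2]) :: r18

noncomputable def l20 : List Con := (true, [n1,n0,n0,n0,n0,n0,n0,m1,n0,n2]) :: l19

noncomputable def r20 : List Con := (true, [n0,n0,n0,n0,n0,n0,n0,n1,n0,m2]) :: l19

noncomputable def l21 : List Con := (true, [n0,n0,n0,n0,n0,n0,n1,n0,m2]) :: l20

noncomputable def r21 : List Con := (true, [n1,n0,n0,n0,n0,n0,m1,n0,n2]) :: l20

noncomputable def l22 : List Con := (true, [n0,n0,n0,n0,n0,n0,m1,n0,n2]) :: r21

noncomputable def r22 : List Con := (true, [n1,n0,n0,n0,n0,n0,n1,n0,m2]) :: r21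

noncomputable def l23 : List Con := (false, [n0,m1,n0,m1,n0,n0,n0,n0,m1,m1,n1,n0,m1]) :: r22

noncomputable def r23 : List Con := (false, [n0,n1,n0,n1,n0,n0,n0,n0,n1,n1,m1,n0,n1]) :: r22

noncomputable def l24 : List Con := (false, [n0,n0,n0,m2,n0,n0,n0,n0,n1,n1,n0,n0,n1]) :: l23

noncomputable def r24 : List Con := (false, [n0,n0,n0,n2,n0,n0,n0,n0,m1,m1,n0,n0,m1]) :: l23

noncomputable def l25 : List Con := (false, [n0,n0,n0,n0,n0,n0,n0,n0,n0,n0,n0,n1,m2]) :: r24

noncomputable def r25 : List Con := (true, [n1,n0,n0,n0,n0,n0,n0,n0,n0,n0,n0,m1,n2]) :: r24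

noncomputable def l26 : List Con := (false, [n0,n0,n0,n0,n0,n0,n0,n0,n0,n0,n0,m1,n2]) :: r25

noncomputable def r26 : List Con := (true, [n1,n0,n0,n0,n0,n0,n0,n0,n0,n0,n0,n1,m2]) :: r25

noncomputable def l27 : List Con := (false, [n0,n0,n0,n0,n0,n0,n0,n0,n0,n0,n0,m1,n2]) :: r23

noncomputable def r27 : List Con := (true, [n1,n0,n0,n0,n0,n0,n0,n0,n0,n0,n0,n1,m2]) :: r23

noncomputable def l28 : List Con := (false, [n0,m1,n0,m1,n0,n0,n0,n0,m1,m1,n1,n0,m1]) :: r8

noncomputable def r28 : List Con := (false, [n0,n1,n0,n1,n0,n0,n0,n0,n1,n1,m1,n0,n1]) :: r8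

noncomputable def l29 : List Con := (false, [n0,n0,n0,n0,n0,n1,n0,n0,n0,n0,n0,n1,m1]) :: r28

noncomputable def r29 : List Con := (false, [n0,n0,n0,n0,n0,m1,n0,n0,n0,n0,n0,m1,n1]) :: r28

noncomputable def l30 : List Con := (false, [n0,n0,n0,n0,n0,n0,n0,n0,n0,n0,m1,n1,n1]) :: r29

noncomputable def r30 : List Con := (false, [n0,n0,n0,n0,n0,n0,n0,n0,n0,n0,n1,m1,m1]) :: r29

noncomputable def l31 : List Con := (true, [n1,n1,m1,n0,n0,n0,n0,m1,n0,m1]) :: l30

noncomputable def r31 : List Con := (true, [n0,m1,n1,n0,n0,n0,n0,n1,n0,n1]) :: l30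

noncomputable def l32 : List Con := (false, [n0,n0,n0,m1,n0,n0,n1,n1,m1,m1,n1,n1,m1]) :: r31

noncomputable def r32 : List Con := (false, [n0,n0,n0,n1,n0,n0,m1,m1,n1,n1,m1,m1,n1]) :: r31

noncomputable def l33 : List Con := (false, [n0,n0,n0,m1,n0,n0,n1,n1,m1,m1,n1,n1,m1]) :: r30

noncomputable def r33 : List Con := (false, [n0,n0,n0,n1,n0,n0,m1,m1,n1,n1,m1,m1,n1]) :: r30

noncomputable def l34 : List Con := (false, [n0,n0,n0,m2,n0,n0,n0,n0,n1,n1,n0,n0,n1]) :: r7

noncomputable def r34 : List Con := (false, [n0,n0,n0,n2,n0,n0,n0,n0,m1,m1,n0,n0,m1]) :: r7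

noncomputable def l35 : List Con := (false, [n0,n0,n0,n1,n0,n0,m1,m1,n1,n1,n0,m1,n1]) :: l34

noncomputable def r35 : List Con := (false, [n0,n0,n0,m1,n0,n0,n1,n1,m1,m1,n0,n1,m1]) :: l34

noncomputable def l36 : List Con := (false, [n0,n0,n0,n0,n0,n0,n0,n0,n0,n0,n0,n1,m1]) :: l35

noncomputable def r36 : List Con := (false, [n0,n0,n0,n0,n0,n0,n0,n0,n0,n0,n0,m1,n1]) :: l35

noncomputable def l37 : List Con := (false, [n0,m1,n0,n1,n0,n0,m1,m1,n0,n0,n1,m1]) :: l36

noncomputable def r37 : List Con := (false, [n0,n1,n0,m1,n0,n0,n1,n1,n0,n0,m1,n1]) :: l36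

noncomputable def l38 : List Con := (false, [n0,n0,n0,m2,n0,n0,n1,n1,m1,m1,n0,n1,m1]) :: r37

noncomputable def r38 : List Con := (false, [n0,n0,n0,n2,n0,n0,m1,m1,n1,n1,n0,m1,n1]) :: r37

noncomputable def l39 : List Con := (false, [n0,m1,n0,m1,n0,n0,n0,n0,m1,m1,n1,n0,m1]) :: r36

noncomputable def r39 : List Con := (false, [n0,n1,n0,n1,n0,n0,n0,n0,n1,n1,m1,n0,n1]) :: r36

noncomputable def l40 : List Con := (false, [n0,n0,n0,n0,n0,m1,n0,n0,n0,n0,n0,m1,n1]) :: r39

noncomputable def r40 : List Con := (false, [n0,n0,n0,n0,n0,n1,n0,n0,n0,n0,n0,n1,m1]) :: r39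

noncomputable def l41 : List Con := (false, [n0,n0,n0,n0,n0,n0,n0,n0,n0,n0,m1,n1,n1]) :: l40

noncomputable def r41 : List Con := (false, [n0,n0,n0,n0,n0,n0,n0,n0,n0,n0,n1,m1,m1]) :: l40

noncomputable def l42 : List Con := (true, [n1,n1,m1,n0,n0,n0,n0,m1,n0,m1]) :: l41

noncomputable def r42 : List Con := (true, [n0,m1,n1,n0,n0,n0,n0,n1,n0,n1]) :: l41

noncomputable def l43 : List Con := (false, [n0,n0,n1,n0,n0,n0,m2,n0,m1,n0,n2,m2,m1]) :: l42

noncomputable def r43 : List Con := (false, [n0,n0,m1,n0,n0,n0,n2,n0,n1,n0,m2,n2,n1]) :: l42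

noncomputable def l44 : List Con := (true, [n1,n0,n0,n0,n0,n0,n0,n1,n0,m2]) :: r42

noncomputable def r44 : List Con := (true, [n0,n0,n0,n0,n0,n0,n0,m1,n0,n2]) :: r42

noncomputable def l45 : List Con := (false, [n0,n0,n0,n0,n0,n0,n0,n0,n0,n0,n1,n1,m2]) :: l44

noncomputable def r45 : List Con := (true, [n1,n0,n0,n0,n0,n0,n0,n0,n0,n0,m1,m1,n2]) :: l44

noncomputable def l46 : List Con := (true, [n0,n0,n0,n0,n0,n0,n1,n0,m2]) :: r45

noncomputable def r46 : List Con := (true, [n1,n0,n0,n0,n0,n0,m1,n0,n2]) :: r45

noncomputable def l47 : List Con := (true, [n0,n0,n0,n0,n0,n0,m1,n0,n2]) :: r46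

noncomputable def r47 : List Con := (true, [n1,n0,n0,n0,n0,n0,n1,n0,m2]) :: r46

noncomputable def l48 : List Con := (false, [n0,n0,n0,n0,n0,n0,n0,n0,n0,n0,m1,m1,n2]) :: r47

noncomputable def r48 : List Con := (true, [n1,n0,n0,n0,n0,n0,n0,n0,n0,n0,n1,n1,m2]) :: r47

noncomputable def l49 : List Con := (false, [n0,n0,n0,n0,n0,n1,n0,n0,n0,n0,m1,n1,n1]) :: r41

noncomputable def r49 : List Con := (false, [n0,n0,n0,n0,n0,m1,n0,n0,n0,n0,n1,m1,m1]) :: r41

noncomputable def l50 : List Con := (false, [n0,n0,n1,n0,n0,n0,m2,n0,m1,n0,n1,m2,m1]) :: l49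

noncomputable def r50 : List Con := (false, [n0,n0,m1,n0,n0,n0,n2,n0,n1,n0,m1,n2,n1]) :: l49

noncomputable def l51 : List Con := (true, [n0,n1,m1,n0,n0,n0,n0,m1,n0,m1]) :: l50

noncomputable def r51 : List Con := (true, [n1,m1,n1,n0,n0,n0,n0,n1,n0,n1]) :: l50

noncomputable def l52 : List Con := (true, [n0,n0,n0,n0,n0,n0,n1,n0,m2]) :: r51

noncomputable def r52 : List Con := (true, [n1,n0,n0,n0,n0,n0,m1,n0,n2]) :: r51

noncomputable def l53 : List Con := (true, [n1,n0,n0,n0,n0,n0,n0,n1,n0,m2]) :: r52

noncomputable def r53 : List Con := (true, [n0,n0,n0,n0,n0,n0,n0,m1,n0,n2]) :: r52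

noncomputable def l54 : List Con := (true, [n0,n0,n0,n0,n0,n0,m1,n0,n2]) :: l53

noncomputable def r54 : List Con := (true, [n1,n0,n0,n0,n0,n0,n1,n0,m2]) :: l53

noncomputable def l55 : List Con := (false, [n0,n0,n0,n0,n0,n0,n0,n0,n0,n0,n1,n1,m2]) :: r54

noncomputable def r55 : List Con := (true, [n1,n0,n0,n0,n0,n0,n0,n0,n0,n0,m1,m1,n2]) :: r54

noncomputable def l56 : List Con := (true, [n0,n0,m1,m1,n0,n0,n0,m2,n0,m1]) :: r49

noncomputable def r56 : List Con := (true, [n1,n0,n1,n1,n0,n0,n0,n2,n0,n1]) :: r49

noncomputable def l57 : List Con := (false, [n0,n0,n1,n0,n0,n0,m2,n0,m1,n0,n1,m2,m1]) :: l56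

noncomputable def r57 : List Con := (false, [n0,n0,m1,n0,n0,n0,n2,n0,n1,n0,m1,n2,n1]) :: l56

noncomputable def l58 : List Con := (true, [n0,n1,m1,m1,n0,n0,n0,m1,n0,m1]) :: l57

noncomputable def r58 : List Con := (true, [n1,m1,n1,n1,n0,n0,n0,n1,n0,n1]) :: l57

noncomputable def l59 : List Con := (false, [n0,n0,n0,n0,n0,n0,n0,n0,n0,n0,m1,n1,n1]) :: r34

noncomputable def r59 : List Con := (false, [n0,n0,n0,n0,n0,n0,n0,n0,n0,n0,n1,m1,m1]) :: r34

noncomputable def l60 : List Con := (true, [n1,n1,m1,n0,n0,n0,n0,m1,n0,m1]) :: l59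

noncomputable def r60 : List Con := (true, [n0,m1,n1,n0,n0,n0,n0,n1,n0,n1]) :: l59

noncomputable def l61 : List Con := (false, [n0,n0,n1,n0,n0,n0,m2,n0,m1,n0,n2,m2,m1]) :: l60

noncomputable def r61 : List Con := (false, [n0,n0,m1,n0,n0,n0,n2,n0,n1,n0,m2,n2,n1]) :: l60

noncomputable def l62 : List Con := (false, [n0,n0,n0,n0,n0,m1,n0,n0,n0,n0,n1,m1,m1]) :: r59

noncomputable def r62 : List Con := (false, [n0,n0,n0,n0,n0,n1,n0,n0,n0,n0,m1,n1,n1]) :: r59

noncomputable def l63 : List Con := (true, [n1,n1,m1,n0,n0,n0,n0,m1,n0,m1]) :: l62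

noncomputable def r63 : List Con := (true, [n0,m1,n1,n0,n0,n0,n0,n1,n0,n1]) :: l62

noncomputable def l64 : List Con := (false, [n0,n0,n1,n0,n0,n0,m2,n0,m1,n0,n1,m2,m1]) :: l63

noncomputable def r64 : List Con := (false, [n0,n0,m1,n0,n0,n0,n2,n0,n1,n0,m1,n2,n1]) :: l63

noncomputable def l65 : List Con := (false, [n0,m1,n0,m1,n0,n0,n0,n0,m1,m1,n1,n0,m1]) :: r64

noncomputable def r65 : List Con := (false, [n0,n1,n0,n1,n0,n0,n0,n0,n1,n1,m1,n0,n1]) :: r64

noncomputable def l66 : List Con := (false, [n0,n0,n0,n0,n0,n0,n0,n0,n0,n0,n0,m1,n1]) :: r63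

noncomputable def r66 : List Con := (false, [n0,n0,n0,n0,n0,n0,n0,n0,n0,n0,n0,n1,m1]) :: r63

noncomputable def l67 : List Con := (false, [n0,m1,n0,m1,n0,n0,n0,n0,m1,m1,n1,n0,m1]) :: l66

noncomputable def r67 : List Con := (false, [n0,n1,n0,n1,n0,n0,n0,n0,n1,n1,m1,n0,n1]) :: l66

noncomputable def l68 : List Con := (false, [n0,n0,n0,n0,n0,n1,n0,n0,n0,n0,n0,n1,m1]) :: r67

noncomputable def r68 : List Con := (false, [n0,n0,n0,n0,n0,m1,n0,n0,n0,n0,n0,m1,n1]) :: r67

noncomputable def l69 : List Con := (false, [n0,n0,n0,n0,n0,n0,m1,n0,n1,n0,n1,m1,n1]) :: r66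

noncomputable def r69 : List Con := (false, [n0,n0,n0,n0,n0,n0,n1,n0,m1,n0,m1,n1,m1]) :: r66

noncomputable def l70 : List Con := (false, [n0,n0,n0,n0,n0,n1,n0,n0,n0,n0,n0,m1,n1]) :: r69

noncomputable def r70 : List Con := (false, [n0,n0,n0,n0,n0,m1,n0,n0,n0,n0,n0,n1,m1]) :: r69

noncomputable def l71 : List Con := (false, [n0,n0,n0,n0,n0,n0,n0,n0,n0,n0,n0,m1,n1]) :: r62

noncomputable def r71 : List Con := (false, [n0,n0,n0,n0,n0,n0,n0,n0,n0,n0,n0,n1,m1]) :: r62

noncomputable def l72 : List Con := (false, [n0,m1,n0,m1,n0,n0,n0,n0,m1,m1,n1,n0,m1]) :: l71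

noncomputable def r72 : List Con := (false, [n0,n1,n0,n1,n0,n0,n0,n0,n1,n1,m1,n0,n1]) :: l71

noncomputable def l73 : List Con := (false, [n0,n0,n0,n0,n0,n1,n0,n0,n0,n0,n0,n1,m1]) :: r72

noncomputable def r73 : List Con := (false, [n0,n0,n0,n0,n0,m1,n0,n0,n0,n0,n0,m1,n1]) :: r72

noncomputable def l74 : List Con := (true, [n0,n1,m1,n0,n0,n0,n0,m1,n0,m1]) :: r73

noncomputable def r74 : List Con := (true, [n1,m1,n1,n0,n0,n0,n0,n1,n0,n1]) :: r73

noncomputable def l75 : List Con := (false, [n0,n0,n1,n0,n0,n0,m2,n0,m1,n0,n1,m2,m1]) :: l74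

noncomputable def r75 : List Con := (false, [n0,n0,m1,n0,n0,n0,n2,n0,n1,n0,m1,n2,n1]) :: l74

noncomputable def l76 : List Con := (false, [n0,n0,n0,n0,n0,n1,n0,n0,n0,n0,n0,m1,n1]) :: r71

noncomputable def r76 : List Con := (false, [n0,n0,n0,n0,n0,m1,n0,n0,n0,n0,n0,n1,m1]) :: r71

noncomputable def l77 : List Con := (false, [n0,n0,n0,n0,n0,n0,m1,n0,n1,n0,n1,m1,n1]) :: r76

noncomputable def r77 : List Con := (false, [n0,n0,n0,n0,n0,n0,n1,n0,m1,n0,m1,n1,m1]) :: r76

open Helper55.PC in
noncomputable def t0n : Helper55.PC.Ten :=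
  (r
  784031629112563186521521264403923951349783971380402360098556647341766468323598687434038256361728394325757685122029663808313637749152677446163386641559549368889281020394556853237403699990308874622185486284605294718417099714076842595900494856984493778445711592257796029563343836328711925080178807529072227055644979285816186070530738731027491216478338139152200392620730026055657846396056763765588197275448438533984695698557620396747928520356028546)

noncomputable def t0 : Tre := Helper55.PC.toT t0n

theorem ok0 : chk K t0 l0 = true :=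
  Helper55.PC.chkN_sound K t0n l0 (by decide +kernel)

open Helper55.PC in
noncomputable def t1n : Helper55.PC.Ten :=
  (r
  7872442206819966258419439828276358686731895160237529695649543291426170235596658565576855729679905563449459190123787978666833889351037370262698546705398097637936818722465879592051001413101325218134085068082693581085118895496568886980044197456539477631204449345674)

noncomputable def t1 : Tre := Helper55.PC.toT t1n

theorem ok1 : chk K t1 l1 = true :=
  Helper55.PC.chkN_sound K t1n l1 (by decide +kernel)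

open Helper55.PC in
noncomputable def t2n : Helper55.PC.Ten :=
  (q
  3514843442458649075666644940347255682759861455713652116740219703686008262768158312974640133824849660257631742664316594488724030089087145510013098606985719447565
  (r
  5253186319612455708162089502438346555583407062635728328333846382419056191855728531884689572056667114093804236861867527271657904990841061746632082859235230773402622012019294955893461118672629252463989063472857165013419694924162409389378244458326006938856091090449683597861692306906911806116192798707429525885874530234394943633264035939584763817705507705041366213668878499983397074465506681849630549069724311154443659059247711748153248749625160579654405425478198948482516771255213495498004598388562720836141378309014503351950291948749722445175534841094001904052599116227452875340755541636619489107206003164908894381094628503132187518706669130852918118647873147833773735506697131288983912047360)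
  (q 4523156094503061447793935005474542958459238025144435915976394446429376348173 (k
  15382432765999112928282574674855312969766494665814558563137962941906602947182381651906912331512159229275059068254147866475317278117078547986234863589993927894481554648547463009603651550105137154369140222833644456826046121861854279426209963043117054241155353632)
  (q
  3514843442867822901653662674098904394863311349743137280100367582098230114971112457417347372916637101093596436118651210698754883164035440284142643588578534359053
  (r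
  48836675147606805394024716449996177207321949082861241625320492646962284049812088070933660222625352726345308339772636438630801765813499829203084363082788435385192911837517386674200925049853924569384839636101058278833975128646696815124872130293946868493053959621296080639820224854184899447485557288595177312471318483695079229523786596329143256117059315258437994305188323570793726999584604550383845176049421405593225198853628118073877005345394912101083154962951693202026824272018925321516055429212643620640042832476727354718451035717028078305705169740876257590323564758425996041215131415094935227004195762220906376624854429191266007128262058753)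
  (r
  26387646024122301435155600599847695140247379583220433917941310176828344935639423435052653865175546919885925096406281693543016667631622769422954828369234988758432756790135379403673608781799263173051597836792859001745274236500252580467793968756909502088001897463902079248475616215418746655147624442685355710013991282653746493945389405442476691183154957494628260346141337962637452402263666957479618484599804060638651177))))

noncomputable def t2 : Tre := Helper55.PC.toT t2n

theorem ok2 : chk K t2 l2 = true :=
  Helper55.PC.chkN_sound K t2n l2 (by decide +kernel)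

open Helper55.PC in
noncomputable def t3n : Helper55.PC.Ten :=
  (q
  1736162922676744595766145913268074282370460095939210091247503271173282763507182653269148625930719744909330687302172685
  (r
  10624775104488616707328529222973292525320497728695508597180803694903422194903696545114594102340359107162930016580934989928133254584272219914746477269196003172236364194687832997062668443960942213748579746784049328707040612959827661522064132801204514685647108627710690653102368627915752707768438786265062732009812971192658947053742554608820399097224724907852294527502129552728964567818526095013097910169748641982586005799989632634794266535719379854039111593768881910723232873232273488137215120483435038970989735873432176814714184350412989481905288005726686136324249988999272379083945806420606877106682260759240632469584702763508449420033)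
  (r
  629556687334234849965204550840524762481532019461223386623041275454250091000854572679392111359178732665364708801231282780700832574688415885180779622916880169973231225544100423513111436544564948428480017491401979204670828602245940043148785013786036962988699949252762579274848615533391327233052652482266735618409886364385144900669975137176762399812449933076643737153731888980428584465602601951009822594204914033603261777354058944025974012193164610599179534603584349356867217004994001302713434981282645430648199040692620579435839756524822921674830474161827956820402156691308866320787588020453973919279336448736089584141446434935110182306586913))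

noncomputable def t3 : Tre := Helper55.PC.toT t3n

theorem ok3 : chk K t3 l3 = true :=
  Helper55.PC.chkN_sound K t3n l3 (by decide +kernel)

open Helper55.PC in
noncomputable def t4n : Helper55.PC.Ten :=
  (r
  2279859459606007221704140001970973985654809583625216425263115429531884188575917675024169603060709751464363840896952270926672102232146088165127853047765278765402618331464831021787324773017205873286544939727353595378799738749669784072100459485817293824731627556916417832034456945595794384670575535059821202509364049333260233641211641197439220215920250892239836811371202735870398766467440077745760603470284499707179626123175453515417522743035723727421841696)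

noncomputable def t4 : Tre := Helper55.PC.toT t4n

theorem ok4 : chk K t4 l4 = true :=
  Helper55.PC.chkN_sound K t4n l4 (by decide +kernel)

open Helper55.PC in
noncomputable def t5n : Helper55.PC.Ten :=
  (r
  855695407624260335389989049640156647423131032623412196460122782475672634293016684615450269851714241228735537065686731744567835108637416191770045852512993025360686144826137094380315049141362090719320645561190977564447170543238104246009213725124418342209499192307960907383663295844497071452859438294671401833774773600602776692405168547092766413020247015519559855439887301232073061712321609793219038984668791752365569530837766473556082320133527671429785527137961942388424704034877009793370767485356144419936954458107701946156047201147492288861346824458947071725823154832785418021745246773526326606556863492196490911260840844028608103885952379271902280214680701735345152760429654021013117833374529608330465309577077047060868341883971297569)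

noncomputable def t5 : Tre := Helper55.PC.toT t5n

theorem ok5 : chk K t5 l6 = true :=
  Helper55.PC.chkN_sound K t5n l6 (by decide +kernel)

open Helper55.PC in
noncomputable def t6n : Helper55.PC.Ten :=
  (s
  15561069674165728685001623552637957549481466631941594560255676665185062937911496527917259755800218478176174621971621298544914749867442906519997731520085011076897356803705739069211793308783558715363911537944360711607082839803360721358394012888799330609903609276469250441558278758514926460871730022347614851048394313031660604258376039512359095395484611891009541274493359842408859866321032993886566626094274043330885908461603811570196932530384128818173092753618994418524877882368447567700879730030011955181712772111212846845503569961092867366462933245820047973389410799861502497856160385)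

noncomputable def t6 : Tre := Helper55.PC.toT t6n

theorem ok6 : chk K t6 l9 = true :=
  Helper55.PC.chkN_sound K t6n l9 (by decide +kernel)

open Helper55.PC in
noncomputable def t7n : Helper55.PC.Ten :=
  (r
  3751512087189025407269626527678868686474596474980774138528732624186028695115139699366944685505200457861040133812331144113862951053554765176011583498521664517402727316922324889467561885785993802038445707680868066909054738724077780739074250023654457090199425874101638909426061462339194694396398459919842729373980744628538102930219444782334804113863142550131330190788612103217744789498668999276206829588204567144511881074959048225909805935288380129657425961446292011745304048768120418800226357517851953572939570902475040)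

noncomputable def t7 : Tre := Helper55.PC.toT t7n

theorem ok7 : chk K t7 l10 = true :=
  Helper55.PC.chkN_sound K t7n l10 (by decide +kernel)

open Helper55.PC in
noncomputable def t8n : Helper55.PC.Ten :=
  (r
  12436453374497701500556629343819554183071145652169058415345069298224648316936068079623412701480541305414459017734172523095331338327051201036092123468726497484596769411599522260545963419118369404708954257158223788952306714625493514618435526510486700081157043065458932917160781830690561146563582753623969357014425737797199776716893721165163460434351818614747340374629671776110609513582924211351869268721969110148267752678791730028557669196674098818292507894558533046714989742149289566899013902201303905461488257891788961900421154032606526573142812335295463878525343911412234156551668277594542629685832264546811858267348902506675628027444444995956870351526370478257359517798391784636386769797764372344645932988579634697074859157759265)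

noncomputable def t8 : Tre := Helper55.PC.toT t8n

theorem ok8 : chk K t8 l12 = true :=
  Helper55.PC.chkN_sound K t8n l12 (by decide +kernel)

open Helper55.PC in
noncomputable def t9n : Helper55.PC.Ten :=
  (q
  1716225605953601469661769065535704819143256342427344276018986276632297932589860713039307796917225819112288990395694161359322764007436892098714695524195368973
  (r
  42251405808388714090842904514712393478510534795321888726764502548380442835062808926626190993334017948374496349946280234990637700478137612918826637443827157673577639048444897380514691803982355186305992079433700569207419208584979928485997749309362854275134343279693555030949576216466623709468858197414549728974785413706253964942319129778052674140797986799758549811798752440419734277988162014510449137920031246957312153066201412434645854446864222030091608158170149284921661063903676619595873107703152491936267932887577965313703801506805250034453585643346822235530649027360628684779218013863052560258299601696)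
  (r
  6659160613874039210659359479934257436655632743310410964142941268547047827964185372554946881736226973870214545642778461969280590892767715504715501465945301375145282231007974782738441510483562557453437922648987858264798829551760417463158294682314354117184457152407309924253544158969238555753827173565516691464360905776665656358665701969739309666571433480891347974593429861073681406749908103758267422203215831090101127295374941160937974879314168964851507063963554488109843352133229073855167751755734341303267181534792827383662750977917720801392814505396702102440926602334607386926367949888442247034966546196968247570188527222673508613178503421537680039469880620595752587447590478151122352787871028473227309050802167621624609))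

noncomputable def t9 : Tre := Helper55.PC.toT t9n

theorem ok9 : chk K t9 l13 = true :=
  Helper55.PC.chkN_sound K t9n l13 (by decide +kernel)

open Helper55.PC in
noncomputable def t10n : Helper55.PC.Ten :=
  (r
  17235557163000697343636942769480035952240253471363794658899775610574793341191260899981801867568078377750651198856305593216009724761765730294346160155865565930950463920075016211304529533288357521581490250806742399829858665136719026643903150862050757389565204029297519150772351264614836209344302952321246981769409819400285370538047329141217752358685498336743268553)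

noncomputable def t10 : Tre := Helper55.PC.toT t10n

theorem ok10 : chk K t10 l14 = true :=
  Helper55.PC.chkN_sound K t10n l14 (by decide +kernel)

open Helper55.PC in
noncomputable def t11n : Helper55.PC.Ten :=
  (r
  117150902227050691961469942314085232976334556101500818603320504219200774526017496436058794199533698559666940108661494693277266089116595498119884584054861143026285124264826091964609664301391588914298123366175010272722372644350832945989366432409217630897972079535998227321392189779104371873249458929015727598828589985747775840092476354740793398684881396508540905233647862780407648510433062158913137166879064202932411060552964405943623385064045609503357422318653859753298103955980785639660130875736189056010252413636041686351373839984377037983986066315945595005851942941047623341749991660187917850883609357923858915354914922085050809597791323336834188463827018472346492025373665898138981161182272001013920933476621781308670348710283305729)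

noncomputable def t11 : Tre := Helper55.PC.toT t11n

theorem ok11 : chk K t11 l15 = true :=
  Helper55.PC.chkN_sound K t11n l15 (by decide +kernel)

noncomputable def t12 : Tre :=
  (.N [0,1,1,2] 0 ⟨0,[(1,0),(21,0)]⟩ ⟨0,[(0,0)]⟩ (.x (-1) ⟨1,[(11,2),(2,3),(11,0),(4,0),(7,1),(10,
  0),(4,1)]⟩ ⟨2,[(1,1),(11,5),(5,5),(0,2),(2,3),(8,0),(3,5),(6,1),(10,2)]⟩))

theorem ok12 : chk K t12 l16 = true := by decide +kernel

open Helper55.PC in
noncomputable def t13n : Helper55.PC.Ten :=
  (r
  262993731124888570306960186301880380799587039939739099013209154940593800852320221388376361261446495730902576498075917143943792598794864167337372590327048160995940697859825159969659239662648320981436548964742437445154307452997194042307351076372001831341644156117072754397147480662247000449720053552660495136260585265372731114474372737023893307776525277077705)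

noncomputable def t13 : Tre := Helper55.PC.toT t13n

theorem ok13 : chk K t13 l17 = true :=
  Helper55.PC.chkN_sound K t13n l17 (by decide +kernel)

open Helper55.PC in
noncomputable def t14n : Helper55.PC.Ten :=
  (r
  117150824507637027977441942921144491403008866506848761180196140002172434823429805150535861092406818511832980100175317399308888643420489215509155062243198083771593163321894411355240690416747601431884162119889052808959745334812114723017098027649500745020220138063015116833836530491428467972585482046841320656269252077906936333655257103007787587357590916686155424958270713481224943041816641629954768298236883730235636977982098801789670141526349845660909838655824548509058929517171589831415011430236940160074508470095650137946332610313779647988400017739908075159966133651812665386499110144493561816200384686369249560498760409564624320486280744328020401818740414950516451949087397737778088959402434853550412351299373523880620615764514431745)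

noncomputable def t14 : Tre := Helper55.PC.toT t14n

theorem ok14 : chk K t14 l18 = true :=
  Helper55.PC.chkN_sound K t14n l18 (by decide +kernel)

noncomputable def t15 : Tre :=
  (.N [0,0,1,-2] 0 ⟨0,[(2,0)]⟩ ⟨0,[(1,0)]⟩ (.x 0 ⟨0,[(0,0)]⟩ ⟨5,[(9,5),(9,5),(3,0),(7,11),(4,3),(0,
  2),(0,1)]⟩))

theorem ok15 : chk K t15 l21 = true := by decide +kernel

noncomputable def t16 : Tre :=
  (.N [0,0,1,-2] 0 ⟨0,[(3,0)]⟩ ⟨0,[(2,0)]⟩ (.x (-1) ⟨31,[(12,1),(2,61),(3,63),(1,4),(5,31),(1,1),(7,
  18),(0,13),(0,5),(0,1),(5,5)]⟩ ⟨0,[(0,0)]⟩))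

theorem ok16 : chk K t16 l22 = true := by decide +kernel

noncomputable def t17 : Tre :=
  (.N [0,0,1,-2] 0 ⟨0,[(5,0)]⟩ ⟨0,[(4,0)]⟩ (.i 1 ⟨0,[(12,0),(9,0)]⟩ ⟨0,[(0,0),(1,0),(2,0),(0,0)]⟩))

theorem ok17 : chk K t17 l24 = true := by decide +kernel

noncomputable def t18 : Tre :=
  (.N [0,0,1,-2] 0 ⟨0,[(6,0)]⟩ ⟨0,[(5,0)]⟩ (.i 0 ⟨0,[(0,0)]⟩ ⟨0,[(22,1),(7,0)]⟩))

theorem ok18 : chk K t18 l25 = true := by decide +kernel

noncomputable def t19 : Tre :=
  (.N [0,0,1,-2] 0 ⟨0,[(7,0)]⟩ ⟨0,[(6,0)]⟩ (.i 1 ⟨0,[(14,0),(9,0)]⟩ ⟨0,[(0,0)]⟩))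

theorem ok19 : chk K t19 l26 = true := by decide +kernel

noncomputable def t20 : Tre :=
  (.N [0,0,1,-2] 0 ⟨0,[(5,0)]⟩ ⟨0,[(4,0)]⟩ (.i 1 ⟨0,[(12,0),(9,0)]⟩ ⟨0,[(0,0)]⟩))

theorem ok20 : chk K t20 l27 = true := by decide +kernel

open Helper55.PC in
noncomputable def t21n : Helper55.PC.Ten :=
  (r
  2749394637886651049319708949008796751401997117000901049596361165416222228302755004013758732625823927256401262361000387646986689596592909715033337936059754006404069442446792874195019738101270826803071781314419015310267323915150718005678238921911405618632923302380540564696365204174727139639635516623208146387225698931727906637410747306853887518528382831269106276483357688344455727578573128601585148827536142308814253371113161568328225101484638122001752574127858198121399369676242146793777356682486078904501352949315233513826995650836326628120185135522950244225457550818969469405199116197374572439550800436339377026245311501136635617741056633447640763999009)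

noncomputable def t21 : Tre := Helper55.PC.toT t21n

theorem ok21 : chk K t21 l28 = true :=
  Helper55.PC.chkN_sound K t21n l28 (by decide +kernel)

open Helper55.PC in
noncomputable def t22n : Helper55.PC.Ten :=
  (r
  2572803477991387815639417128861601954769436852295462390789190699036191250301204382042613460022917083420457943140006418805315321700423238987563347625017756409497758127064409830204961062508044697957962855202044575555234364428872562034876864611546834101217284394395726847009118330668972916907508504357814622653397084150483605681469897606200339550773966318194275304206680442331697941377447411675657870943306842114306395417758099707180177625460077681214181236626056201598049717797123340196075366010824885085680118301741769080076687659084714336285080872472551680)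

noncomputable def t22 : Tre := Helper55.PC.toT t22n

theorem ok22 : chk K t22 l29 = true :=
  Helper55.PC.chkN_sound K t22n l29 (by decide +kernel)

open Helper55.PC in
noncomputable def t23n : Helper55.PC.Ten :=
  (r
  53414160521696468372060848827698924941590567417318697357020657190728535382341855324812081548769935687132249206700555008316252788398596260567536985941374385464969388370073111158268152344049319517937756230345852672412761915988801527463867120135623228657223314319824409045319631473374770842710089836073227206900550514902418426586977769772337017135532666953937590598978449588471374499772793098284809582691014990073814838561914201553591908472545836341650963680346090443029515011804203622208349292709387277113741732811240067417618836057033888592370874258216022702435107398579083434446723922070260837269863928614440241593429808858860518735356848740050551009811989498948143105251389814474057028496405745735439947842605783736120473834906157670212897)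

noncomputable def t23 : Tre := Helper55.PC.toT t23n

theorem ok23 : chk K t23 l31 = true :=
  Helper55.PC.chkN_sound K t23n l31 (by decide +kernel)

open Helper55.PC in
noncomputable def t24n : Helper55.PC.Ten :=
  (r
  610745473520790063628061588079164966463773106510174440472792047631460018143596533894240310897750771796663163359560526148636185072577959589714360252654727823903648715432368614487108796698102234166158826974065841083961363720834359254178098018790682023763887508474464005335960326623124497505021739808852809602052445095421853790236549273631770138443538602)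

noncomputable def t24 : Tre := Helper55.PC.toT t24n

theorem ok24 : chk K t24 l32 = true :=
  Helper55.PC.chkN_sound K t24n l32 (by decide +kernel)

open Helper55.PC in
noncomputable def t25n : Helper55.PC.Ten :=
  (r
  2623130808650475251221735591512678315539939216068451202001263755209915738258460583491511907900556202806720295508147042992015159232757790551388237907062692015202557356081099359046364817084109690413357974494388015796014020651531816257313392395022083138540392268054874134803547437394556432746301468136393834948204908447044122346844179472145193889791453336233599146)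

noncomputable def t25 : Tre := Helper55.PC.toT t25n

theorem ok25 : chk K t25 l33 = true :=
  Helper55.PC.chkN_sound K t25n l33 (by decide +kernel)

open Helper55.PC in
noncomputable def t26n : Helper55.PC.Ten :=
  (r
  5493084747045944534579210791195980582784311734935041434664613474999243962873371227457683554447113699055506904704454664446561396415114796472813800594682580440161866521970406285565210723122935424973277179491683135015224677311544853865387967198571955564635686932833021158340318807277015230539879955830245628560599863812070521528441003904145372158208190685698924692938375698740955250746780335276428885041818286886358678820908519424315099311378329747820688518757864513787434854929418363738587444081436425814101284618264970422507191894428464697640221316235231370287080913332376048494329722472217585444985567701941598198463161179912382182749553052046273264840364280365958968836506923591045321476622959348460005742147457214292509594645494990692704340874411570358384958043825327965198650857214845214713485992705)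

noncomputable def t26 : Tre := Helper55.PC.toT t26n

theorem ok26 : chk K t26 l37 = true :=
  Helper55.PC.chkN_sound K t26n l37 (by decide +kernel)

open Helper55.PC in
noncomputable def t27n : Helper55.PC.Ten :=
  (r
  32974981847780978536473134570080673518035493985556170212913343841495206267982733654272330084647249477276396642839421157590692697037639829396355104107877339845128207503727302939084050964626748093183756012734857654212741131020780225499536918268809253956225538909026834264428781992516672710137093908575208533808595107170570304078512366624909148209726527791858521621708757657000795347895874498834691036379076807281355387638761390308304777696160773611838846765675653112996292593769249841082041579350357468547156698356559463056087168896187421151790617425196100269430496742839582301439031748116686025266324053953201158628596708651101645497219943611708421980936800802767402267909873759868326791285318780171021520965520672308946561503770207465915429008171777)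

noncomputable def t27 : Tre := Helper55.PC.toT t27n

theorem ok27 : chk K t27 l38 = true :=
  Helper55.PC.chkN_sound K t27n l38 (by decide +kernel)

open Helper55.PC in
noncomputable def t28n : Helper55.PC.Ten :=
  (r
  263339688915119242451513396313197332545539539696736140648414676279372490657485986822328530513527595228692562021836193320353947255014419366358466460434784867048183322507311050684094115463242574302239323436211999013221482495355712359398492896759290340180024644823264075343666665135049726314775374468613829813715914979287799258673555237704894421928173536846549995744261331609988465678583259240971500148582799895126752962160883630949508731232520443187969771364988314066136437840122908097529859903524472600263199427525285017614177600641978422382408085900258770224524826371915538405054653109024418360490757589304918203249480439412665964148583945895699446652116532627102066022843054741606531826739203066717438485281)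

noncomputable def t28 : Tre := Helper55.PC.toT t28n

theorem ok28 : chk K t28 l39 = true :=
  Helper55.PC.chkN_sound K t28n l39 (by decide +kernel)

open Helper55.PC in
noncomputable def t29n : Helper55.PC.Ten :=
  (r
  3500550423949899751288303187575453066457148577697240990241925514633235898045697943332050049888868409128462436828384477301744497130545373826591749529807235214892909207230772340512063304812909337200521194531660738252861621813929076794176083558817523740413262057867910654256214896881663442773404732274416557269463071519108825756078054304611403886910806759243883588245739131857971463166613609505511903973316611942552923039652173494615299832471044989588697813423764997781107878788430192289573796485447057209321475050893178967508739759141021183994214375895714469240832030669876325403722016555242737258165179276387263626833425787741519274086130727918434373019011296798510541182954468212419391034279285623923661912669544942664174003491067158892195357985)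

noncomputable def t29 : Tre := Helper55.PC.toT t29n

theorem ok29 : chk K t29 l43 = true :=
  Helper55.PC.chkN_sound K t29n l43 (by decide +kernel)

noncomputable def t30 : Tre :=
  (.N [0,0,1,-2] 0 ⟨0,[(1,0)]⟩ ⟨0,[(9,0),(17,0)]⟩ (.i 1 ⟨0,[(0,0)]⟩ ⟨0,[(6,0),(10,0)]⟩))

theorem ok30 : chk K t30 l45 = true := by decide +kernel

noncomputable def t31 : Tre :=
  (.N [0,0,1,-2] 0 ⟨0,[(2,0)]⟩ ⟨0,[(10,0),(17,0)]⟩ (.x 0 ⟨0,[(0,0)]⟩ ⟨3,[(16,2),(2,7),(5,3),(5,4),
  (4,2),(0,1),(0,0)]⟩))

theorem ok31 : chk K t31 l46 = true := by decide +kernel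

noncomputable def t32 : Tre :=
  (.N [0,0,1,-2] 0 ⟨0,[(3,0)]⟩ ⟨0,[(11,0),(17,0)]⟩ (.x (-1) ⟨1,[(2,1),(12,3),(8,2),(13,0),(0,1)]⟩
  ⟨0,[(0,0)]⟩))

theorem ok32 : chk K t32 l47 = true := by decide +kernel

noncomputable def t33 : Tre :=
  (.N [0,0,1,-2] 0 ⟨0,[(4,0)]⟩ ⟨0,[(12,0),(17,0)]⟩ (.i 2 ⟨0,[(21,1),(5,0)]⟩ ⟨0,[(0,0)]⟩))

theorem ok33 : chk K t33 l48 = true := by decide +kernel

open Helper55.PC in
noncomputable def t34n : Helper55.PC.Ten :=
  (r
  451712265594928479241465329915071998567782040239735375147209053539994953410836273929570445605454079812832573087244083490862909730440436558493501109490148670129417517204818345295452249028720110356740866309344112367814032988571294074470633627732886628770537786230968267184545374307629676578908388280662323835478752518680038128639866710744839866500547965363652454522820149696208465948935980793015089011941900579960320456194363023725578318401744263099149664490160804213851540110222661866026463207168363984171028105966163535494023001674346052065089975983285024)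

noncomputable def t34 : Tre := Helper55.PC.toT t34n

theorem ok34 : chk K t34 l51 = true :=
  Helper55.PC.chkN_sound K t34n l51 (by decide +kernel)

noncomputable def t35 : Tre :=
  (.N [0,0,1,-2] 0 ⟨0,[(1,0)]⟩ ⟨0,[(12,0),(17,0)]⟩ (.x (-1) ⟨9,[(4,5),(4,9),(6,13),(3,9),(4,7),(12,
  2),(5,6)]⟩ ⟨0,[(0,0)]⟩))

theorem ok35 : chk K t35 l54 = true := by decide +kernel

noncomputable def t36 : Tre :=
  (.N [0,0,1,-2] 0 ⟨0,[(2,0)]⟩ ⟨0,[(13,0),(17,0)]⟩ (.i 1 ⟨0,[(0,0)]⟩ ⟨0,[(10,0),(10,0)]⟩))

theorem ok36 : chk K t36 l55 = true := by decide +kernel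

open Helper55.PC in
noncomputable def t37n : Helper55.PC.Ten :=
  (r
  5508328555840606390664277841936159836210753490003651869465189492616994336317895171489311504416666502686261059130974356786613924257157091172279027487755356735759504345958380163352220891244247510632823047197682896185983601974011331360454169359058111359852527659969528370711209697839268751956153115085611151630514329259016043451756058900473004104142683769406648795018893127005535184287900427246862262448906485637395414697071087028943238959047996020829509713707564075514862838762407938759361870464162876836942926033273512540060341033985532358819276171283556896985350663473567487033471227709155429666588704257781660153537848297619502819814934991633229785728522699179868110384605290210538368558257939233)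

noncomputable def t37 : Tre := Helper55.PC.toT t37n

theorem ok37 : chk K t37 l58 = true :=
  Helper55.PC.chkN_sound K t37n l58 (by decide +kernel)

open Helper55.PC in
noncomputable def t38n : Helper55.PC.Ten :=
  (r
  32473345289664859457494633166179950418610037341370800831552602445458823243678459496813728605560638046856213440762924229063993087191581384051760248041234332776443827712515424684075369628133238905602032334118437105152414248207797505797711111175584286251364424254452923023136912120410265109561640974452813725895129030296486461982045633957227298548610243296699095498031184933206544823670384442880396542604400520956070333366987667971144471257992144592272695911748067654368082528323868089080870309074151093087242219820911955789226240)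

noncomputable def t38 : Tre := Helper55.PC.toT t38n

theorem ok38 : chk K t38 r40 = true :=
  Helper55.PC.chkN_sound K t38n r40 (by decide +kernel)

open Helper55.PC in
noncomputable def t39n : Helper55.PC.Ten :=
  (r
  900877648026593868369993335334412243903655988088485159192979734381927146665568129918201771595691631258223366513687124235865034295423800731460688744288223816366117477348566703886599384276175729579287681855173410955653487369511194235930464068574704727414650789643520171146362519212279374199389905302068010952838385345461020684796648205258605641750664966121488280511470648852735189088890833765752800156273386683484645546502694062288077698645264061741127623569207971410116393933250473557380721143756390270828636951659227086416872823220581481181590251024745108354144424322096196785036787781304958022984486339743038814209444846375802634878781975431619799383370113793)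

noncomputable def t39 : Tre := Helper55.PC.toT t39n

theorem ok39 : chk K t39 r35 = true :=
  Helper55.PC.chkN_sound K t39n r35 (by decide +kernel)

open Helper55.PC in
noncomputable def t40n : Helper55.PC.Ten :=
  (r
  3500550423949899751212405322669218124835454583743213269668488051828463317433308380219176002834379190150534411369749523358586340373023593050860728368208071627676766306383829346851358716905697638514342940239165973290815283638134393565479077382026888207074059191997693398891438978312594119239994447375912019382769850006700838105253758703832278608155716981396314504135828893061130018239828779044578100477801146542685460763097288464052580536887970807254350364995973851045209767692393408587246508964695072316798982929881810368063711833977295163788146810146623095998003919185779336730871957818914154218542702755835824628414715281152323425009232919279036170037562704234512392794289506443854785598757723883748211200731781158219347853218465678134964135201)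

noncomputable def t40 : Tre := Helper55.PC.toT t40n

theorem ok40 : chk K t40 l61 = true :=
  Helper55.PC.chkN_sound K t40n l61 (by decide +kernel)

open Helper55.PC in
noncomputable def t41n : Helper55.PC.Ten :=
  (r
  101610727138354759519904982957501131946578221864906072407423231982823531219718919738816912441288652872128238938797487855362059155171378977800592618910022794927388345550714104743270204374365447460465711036385274165128806459375817258038233668372765648408492823466004928062304311557837895964376199064980730870028804456943829411388716453418480883248883111258468882661797645373213380878446630645198059220642696549893852902788105389430994457452530173304280823327863965696716932256574699624406973815057465296769274916712328889831654624411754668480582868634184653151800656769081078345919414695918095579270924546821591858481262204904627805165917318070369972293279404381071080095091849522595258540781789710664232759717495841569)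

noncomputable def t41 : Tre := Helper55.PC.toT t41n

theorem ok41 : chk K t41 l64 = true :=
  Helper55.PC.chkN_sound K t41n l64 (by decide +kernel)

open Helper55.PC in
noncomputable def t42n : Helper55.PC.Ten :=
  (r
  129688433798131837211689270833301756947273620467412162972987295336526561837566918952695776577661639882921834064737807371360416138376775190626353079218554540460710124694785646680060115852154832092588743330967886901967803297733650939085014877487956871487578289406666433430436647937700866361021504098526483698781457988421910160229058734439082464463489574159236775814651243962386670044212494612912060304743238713683502425908889030132358649414062863353906421566292529395810524196843187628276489906093036415919474024290902883306786723517150265030826433518375416621391227140189194281715474417752617202030087154684520223368033926060576481710173067800420460667538922283949079672962266925761052102382665183282228936436177839894289796728679132129319649996203225951144319827884842813266688889553877136384912171292630261633679425146325825384925942036491792072341047713020829745883514861789985)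

noncomputable def t42 : Tre := Helper55.PC.toT t42n

theorem ok42 : chk K t42 l65 = true :=
  Helper55.PC.chkN_sound K t42n l65 (by decide +kernel)

open Helper55.PC in
noncomputable def t43n : Helper55.PC.Ten :=
  (r
  4018244764940202537206098058775538931313494897250183075992282414660646885305888645571538278269792276821236194625443103971567390986806668181528362303404960586966255522136753085091261592213917382756498582664467176897943219235769786212088124582647053705508868919643918216844256418616430939740364293478278857220570332188895723271925374527638479538212445447254478730232826335661169108281885190497930009699629544585346996708409965886069051676534285342062057344387985162356263425127672875742989829848056194900997717739218703532675743052007575449504612594048140288849623635255815057664392487273667279681220161834720183524973728771493428544154434630390759330743654558639048895033468938336100940317601176975319841)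

noncomputable def t43 : Tre := Helper55.PC.toT t43n

theorem ok43 : chk K t43 l67 = true :=
  Helper55.PC.chkN_sound K t43n l67 (by decide +kernel)

open Helper55.PC in
noncomputable def t44n : Helper55.PC.Ten :=
  (r
  36561736436502028136085240565454146739064154384478176665570143860789359316953153830017544431701022445612043863401768270323590701875516413204021337820900474169038119578099932214686355726788255809585848936682076017009408573711081614285396768336102551859227191276145334847636448880176804927552469958144754240015271880715870104634017161234320520568459981143754224835137913480999385836162999738989903833254564311241655294406300691830348873242806441772069469088545476095132769892787690572114577778602901170223996705588706852229862751261089507057920)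

noncomputable def t44 : Tre := Helper55.PC.toT t44n

theorem ok44 : chk K t44 l68 = true :=
  Helper55.PC.chkN_sound K t44n l68 (by decide +kernel)

open Helper55.PC in
noncomputable def t45n : Helper55.PC.Ten :=
  (r
  61454071468191298863435488145638048088829241858726110435084859696523446923296327488502835686100887417866373914575141602192114435693083327686174838895290326098976540428006804828732611426821830614488070865499225912110272842434661414858115308989222692121043538433002013560571494077643266947298756435775406723905513945223506629424568386372319908782631652252457297838553897974693488162789228669693931817786361528195583206280499223656709541240621660606903930255916664540031397951757825073619863516437202869068663229391118692709197810428909543533159858428538747865384953499903240659887246159154790753074026228660197535174062123968333942387714700345630850)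

noncomputable def t45 : Tre := Helper55.PC.toT t45n

theorem ok45 : chk K t45 l69 = true :=
  Helper55.PC.chkN_sound K t45n l69 (by decide +kernel)

open Helper55.PC in
noncomputable def t46n : Helper55.PC.Ten :=
  (r
  23548623032818345364740799705340936642022470487510726257099130384164116052845293211976341446328791076533745963341821394714512198090379451702073885744106149097219272199049512727661473872336419170995172750533505249026451684812566893625474402187629988269129071335480052863440401647594648967141005356100614388017420279597987394794560467169931261914776486488764503637265195143479777911717813006831020273238606342726674356935947795067665373981491668042552406706654681266228822651206413457045582363032002746868918680382117686081900546118698212634562686752168538475177338840296464672)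

noncomputable def t46 : Tre := Helper55.PC.toT t46n

theorem ok46 : chk K t46 l70 = true :=
  Helper55.PC.chkN_sound K t46n l70 (by decide +kernel)

open Helper55.PC in
noncomputable def t47n : Helper55.PC.Ten :=
  (r
  935570514979816102982561145561232954911369470499458846853437593094633664017743344307307152828586364070505072150768257767755975945657420517959062799830029824611450529669670041365909858602687634563056232916463485904055602246806428335809193738173867886832902056088087527916010122045670405867441103876443850713635071053682320059731976225765486924576534435976926231134493268866747099237977294619244794216251807920757290625648194698135599042142157074073421636199907319722099582931591594193014443125548039685966712464947057075800448067730788334779331438099763058198782855497889376743856029536280038330033989370264903528353102491495654383476912726678241690778372623970815932900641482144405048752087841)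

noncomputable def t47 : Tre := Helper55.PC.toT t47n

theorem ok47 : chk K t47 l72 = true :=
  Helper55.PC.chkN_sound K t47n l72 (by decide +kernel)

open Helper55.PC in
noncomputable def t48n : Helper55.PC.Ten :=
  (r
  32473345289664859457508071107000354991836608417850003211000484911995744237992963276345224975851534289183766388771901755221604217178027547616863250688269390501094533730385324525252461164998329929673214965159730621935660158837720269927642758286759733788391924073999596501234523486512930672060939271435956152530760036626414817242167585020804579173035739940484784339787453007906526179851712851653036333293147533133414694741027710706809336519527502639363194321114465117656982000188523592286287372803817354449627042028070820831305984)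

noncomputable def t48 : Tre := Helper55.PC.toT t48n

theorem ok48 : chk K t48 l73 = true :=
  Helper55.PC.chkN_sound K t48n l73 (by decide +kernel)

open Helper55.PC in
noncomputable def t49n : Helper55.PC.Ten :=
  (r
  6892582177587215956612465882706588613854618399024723735972161911540278214843334801187506934642967278081575327233000546167857214218937296837757639868887550520468266703077924731817131837637619386765867515390179729670926791878982170617040845386257960859733359115822670569710337334177065725358526859200112176246459567771979227113395667838943582400307926601978686216126275468519438273019878910669354832696331376240763146662290301152158698335860294295546208970246345689564575059468652466274593096798479562114025495623689484735302020438140279213100820603680)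

noncomputable def t49 : Tre := Helper55.PC.toT t49n

theorem ok49 : chk K t49 l75 = true :=
  Helper55.PC.chkN_sound K t49n l75 (by decide +kernel)

open Helper55.PC in
noncomputable def t50n : Helper55.PC.Ten :=
  (r
  332854523880861950054608964377312501819428944123396379076018496001354129831359578732212223274330768559940919719770872673717560668107451289067940121639549233136217809609370694825550788107709046542916517794154716664012143570610477590362613173628887727695286874773643158410949266721239500659129835837753996519308626777494563273556834308438203484312932847897442850272379791899819990187434530065237026257989655776120263220540069564646951360901354749826229648996501332931913937058339693015544208156543429779838819378061818944651516504673545866200345044613291787187228906816900190313159803610943753320349750678815632609211976976873665177669535416026145056)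

noncomputable def t50 : Tre := Helper55.PC.toT t50n

theorem ok50 : chk K t50 l76 = true :=
  Helper55.PC.chkN_sound K t50n l76 (by decide +kernel)

open Helper55.PC in
noncomputable def t51n : Helper55.PC.Ten :=
  (r
  61454071468191298863435488145638048088829241858726110435084859696523446923296327488502835686100887417866373914575141602192114435693083327686174838895290326098976540428006804828732611426821830614488070865499225912110272842434661414858115308989222692121043538433002013560571494077643266947298756435775406723905513945223506629424568386372319908782631652252457297838553897974693488162789228669693931817786361528195583206280499223656709541240621660606903930255916664540031397951757825073619863516437202869068663229391118692709197810428909543533159858428538747865384953499903240659887246159154790753074774517498510957468182410602684679293778537807634562)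

noncomputable def t51 : Tre := Helper55.PC.toT t51n

theorem ok51 : chk K t51 l77 = true :=
  Helper55.PC.chkN_sound K t51n l77 (by decide +kernel)

open Helper55.PC in
noncomputable def t52n : Helper55.PC.Ten :=
  (r
  3804007526369995268366614858187218275365175261287017525966041668745210452213542202504834201297926686928470205727439164511724036787518301922355281898242402753689383757331109786568506375377777072229911626163220986919333552320823018487627847640438899938649814245734995199073340672252328505058233815541840315826105687638878137537577502762436076057973199307646537394929005925240419793809999789820227763143220973847116163099416979781157542454593504362864419853490131299235014016710221837686165706906246838016458182718140989806221949523438712005201608964057768949555481746491040032)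

noncomputable def t52 : Tre := Helper55.PC.toT t52n

theorem ok52 : chk K t52 r5 = true :=
  Helper55.PC.chkN_sound K t52n r5 (by decide +kernel)

theorem cl0 : Clo K (Helper55.TR.GT 1 Helper55.TR.BrU) r14 :=
  .q [n0,n0,n0,m2,n0,n0,n1,n1,m1,m1,n0,n1,m1] (e' := [n0,n0,n0,n2,n0,n0,m1,m1,n1,n1,n0,m1,n1]) (.p false [1,0,-1,1]
  [1] (⟨0,[(15,0),(7,0)]⟩,⟨0,[(6,0)]⟩) .k 1 (⟨0,[]⟩,⟨0,[]⟩) .k (.r 0 ⟨1,[(0,0),(10,0),(13,0),(15,0),
  (3,0)]⟩ ⟨5,[(7,5),(9,2),(2,3),(12,0),(1,1)]⟩)) (by decide +kernel) (by decide +kernel) (.t t11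
  ok11) (.h (Helper55.TR.GT.lJ Helper55.CD.Dm1_1_c0u_95_0.g 324071531103968203226104160309904861789420463513171726382420757843927413523892741349954771350285732762823354290763282910820865348225142887795635712452451818622647824176466811482477535889395297282 (by decide +kernel)))

theorem cl1 : Clo K (Helper55.TR.GT 1 Helper55.TR.BrU) r13 :=
  .q [n0,n0,n0,m1,n0,n0,n1,n1,m1,m1,n0,n1,m1] (e' := [n0,n0,n0,n1,n0,n0,m1,m1,n1,n1,n0,m1,n1]) (.p false [1,0,-1,1]
  [1] (⟨0,[(14,0),(7,0)]⟩,⟨0,[(5,0)]⟩) .k 1 (⟨0,[]⟩,⟨0,[]⟩) .k (.r 0 ⟨0,[(18,0),(5,0),(4,0)]⟩ ⟨5,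
  [(6,5),(9,2),(2,3),(12,0),(1,1)]⟩)) (by decide +kernel) (by decide +kernel) (.t t10 ok10) cl0

theorem cl2 : Clo K (Helper55.TR.GT 1 Helper55.TR.BrU) r12 :=
  .i [n0,n1,m1,n0,n0,n0,n0,m1,n0,m1] (e' := [n1,m1,n1,n0,n0,n0,n0,n1,n0,n1]) (by decide +kernel)
  (by decide +kernel) (.t t9 ok9) cl1

theorem cl3 : Clo K (Helper55.TR.GT 1 Helper55.TR.BrU) l11 :=
  .q [n0,n0,n0,n0,n0,n0,n0,n0,n0,n0,m1,n1,n1] (e' := [n0,n0,n0,n0,n0,n0,n0,n0,n0,n0,n1,m1,m1]) (.ed false [0,0,1,1] (.r
  (-1) ⟨2,[(14,1),(7,2),(5,0),(4,0),(9,0)]⟩ ⟨12,[(0,9),(13,2),(19,2),(2,2),(0,1),(1,0),(0,1)]⟩))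
  (by decide +kernel) (by decide +kernel) (.t t8 ok8) cl2

theorem cl4 : Clo K (Helper55.TR.GT 1 Helper55.TR.BrU) r25 :=
  .w [n0,n0,n0,n0,n0,n0,n0,n0,n0,n0,n0,m1,n2] (e' := [n1,n0,n0,n0,n0,n0,n0,n0,n0,n0,n0,n1,m2]) (by decide +kernel) (.t t19
  ok19) (.h (Helper55.TR.GT.lJ Helper55.CD.Dm1_1_c0u_95_1.g 426146640382894321304075077096643353503444699823607197271237428147130783942586908545911511576055445120565639733862342274394512663372299439838121397128863367911837840049410409869297674660887300721910786 (by decide +kernel)))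

theorem cl5 : Clo K (Helper55.TR.GT 1 Helper55.TR.BrU) r24 :=
  .w [n0,n0,n0,n0,n0,n0,n0,n0,n0,n0,n0,n1,m2] (e' := [n1,n0,n0,n0,n0,n0,n0,n0,n0,n0,n0,m1,n2]) (by decide +kernel) (.t t18
  ok18) cl4

theorem cl6 : Clo K (Helper55.TR.GT 1 Helper55.TR.BrU) l23 :=
  .q [n0,n0,n0,m2,n0,n0,n0,n0,n1,n1,n0,n0,n1] (e' := [n0,n0,n0,n2,n0,n0,n0,n0,m1,m1,n0,n0,m1]) (.p true [0,0,0,1] [] (⟨0,
  [(20,0)]⟩,⟨0,[(21,0)]⟩) .k 0 (⟨0,[]⟩,⟨0,[]⟩) .k .k) (by decide +kernel) (by decide +kernel) (.t
  t17 ok17) cl5

theorem cl7 : Clo K (Helper55.TR.GT 1 Helper55.TR.BrU) r23 :=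
  .w [n0,n0,n0,n0,n0,n0,n0,n0,n0,n0,n0,m1,n2] (e' := [n1,n0,n0,n0,n0,n0,n0,n0,n0,n0,n0,n1,m2]) (by decide +kernel) (.t t20
  ok20) (.h (Helper55.TR.GT.lJ Helper55.CD.Dm1_1_c0u_95_2.g 378559773387114933161868486238918927651344819042492209056749565402667530698429078686700487425022392722300611944176880941966776146203775829919490562762400668924638330708369138183325216919336144393293 (by decide +kernel)))

theorem cl8 : Clo K (Helper55.TR.GT 1 Helper55.TR.BrU) r22 :=
  .q [n0,m1,n0,m1,n0,n0,n0,n0,m1,m1,n1,n0,m1] (e' := [n0,n1,n0,n1,n0,n0,n0,n0,n1,n1,m1,n0,n1]) (.p false [0,0,0,1] [1]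
  (⟨0,[(19,0)]⟩,⟨0,[(20,0)]⟩) .k 1 (⟨0,[]⟩,⟨0,[]⟩) .k .k) (by decide +kernel) (by decide +kernel)
  cl6 cl7

theorem cl9 : Clo K (Helper55.TR.GT 1 Helper55.TR.BrU) r21 :=
  .i [n0,n0,n0,n0,n0,n0,m1,n0,n2] (e' := [n1,n0,n0,n0,n0,n0,n1,n0,m2]) (by decide +kernel) (by decide +kernel) (.t
  t16 ok16) cl8

theorem cl10 : Clo K (Helper55.TR.GT 1 Helper55.TR.BrU) l20 :=
  .i [n0,n0,n0,n0,n0,n0,n1,n0,m2] (e' := [n1,n0,n0,n0,n0,n0,m1,n0,n2]) (by decide +kernel) (by decide +kernel) (.t
  t15 ok15) cl9

theorem cl11 : Clo K (Helper55.TR.GT 1 Helper55.TR.BrU) l19 :=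
  .i [n1,n0,n0,n0,n0,n0,n0,m1,n0,n2] (e' := [n0,n0,n0,n0,n0,n0,n0,n1,n0,m2]) (by decide +kernel) (by decide +kernel)
  cl10 (.h (Helper55.TR.GT.lJ Helper55.CD.Dm1_1_c0u_95_3.g 369687208834595791705368566986409657048145851131671301104160870986892470814259021219801449079826818773643941463568660521898112645607051988673436934180949249554674733696621116343900126662959831060 (by decide +kernel)))

theorem cl12 : Clo K (Helper55.TR.GT 1 Helper55.TR.BrU) r18 :=
  .i [n1,n0,n0,n0,n0,n0,n0,n1,n0,m2] (e' := [n0,n0,n0,n0,n0,n0,n0,m1,n0,n2]) (by decide +kernel) (by decide +kernel)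
  cl11 (.h (Helper55.TR.GT.lb Helper55.CD.Dm1_1_c0u_95_4.g 73936342277702560833914441056740514661181328182998976781221938660209840293713837796700022130817007796238196785389085754158362678314858678099606090319661059 (by decide +kernel)))

theorem cl13 : Clo K (Helper55.TR.GT 1 Helper55.TR.BrU) r17 :=
  .q [n0,n0,n0,m2,n0,n0,n1,n1,m1,m1,n0,n1,m1] (e' := [n0,n0,n0,n2,n0,n0,m1,m1,n1,n1,n0,m1,n1]) (.p false [1,0,-1,1]
  [1] (⟨0,[(14,0),(7,0)]⟩,⟨0,[(5,0)]⟩) .k 1 (⟨0,[]⟩,⟨0,[]⟩) .k (.r 0 ⟨1,[(0,0),(9,0),(13,0),(15,0),
  (3,0)]⟩ ⟨5,[(6,5),(9,2),(2,3),(12,0),(1,1)]⟩)) (by decide +kernel) (by decide +kernel) (.t t14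
  ok14) cl12

theorem cl14 : Clo K (Helper55.TR.GT 1 Helper55.TR.BrU) r16 :=
  .q [n0,n0,n0,m1,n0,n0,n1,n1,m1,m1,n0,n1,m1] (e' := [n0,n0,n0,n1,n0,n0,m1,m1,n1,n1,n0,m1,n1]) (.p false [1,0,-1,1]
  [1] (⟨0,[(13,0),(7,0)]⟩,⟨0,[(4,0)]⟩) .k 1 (⟨0,[]⟩,⟨0,[]⟩) .k (.r 0 ⟨0,[(17,0),(5,0),(4,0)]⟩ ⟨5,
  [(5,5),(9,2),(2,3),(12,0),(1,1)]⟩)) (by decide +kernel) (by decide +kernel) (.t t13 ok13) cl13

theorem cl15 : Clo K (Helper55.TR.GT 1 Helper55.TR.BrU) r11 :=
  .i [n1,n0,m1,m1,n0,n0,n0,m1,n0,m2] (e' := [n0,n0,n1,n1,n0,n0,n0,n1,n0,n2]) (by decide +kernel)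
  (by decide +kernel) (.t t12 ok12) cl14

theorem cl16 : Clo K (Helper55.TR.GT 1 Helper55.TR.BrU) r10 :=
  .i [n0,n1,m1,m1,n0,n0,n0,m1,n0,m1] (e' := [n1,m1,n1,n1,n0,n0,n0,n1,n0,n1]) (by decide +kernel)
  (by decide +kernel) cl3 cl15

theorem cl17 : Clo K (Helper55.TR.GT 1 Helper55.TR.BrU) r9 :=
  .q [n0,n0,n0,n0,n0,n1,n0,n0,n0,n0,n0,m1,n1] (e' := [n0,n0,n0,n0,n0,m1,n0,n0,n0,n0,n0,n1,m1]) (.p true [1,0,-1,1] [1] (⟨0,
  [(10,0),(7,0)]⟩,⟨0,[(1,0)]⟩) .k 1 (⟨0,[]⟩,⟨0,[]⟩) .k (.r 0 ⟨0,[(14,0),(5,0),(4,0)]⟩ ⟨5,[(2,5),(9,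
  2),(2,3),(12,0),(1,1)]⟩)) (by decide +kernel) (by decide +kernel) (.t t7 ok7) cl16

theorem cl18 : Clo K (Helper55.TR.GT 1 Helper55.TR.BrU) l8 :=
  .q [n0,n0,n0,n0,n0,n0,m1,n0,n1,n0,n1,m1,n1] (e' := [n0,n0,n0,n0,n0,n0,n1,n0,m1,n0,m1,n1,m1]) (.p true [1,0,-1,1] []
  (⟨0,[(9,0),(7,0)]⟩,⟨0,[(0,0)]⟩) .k 0 (⟨0,[]⟩,⟨0,[]⟩) .k (.r 0 ⟨0,[(13,0),(5,0),(4,0)]⟩ ⟨5,[(1,5),
  (9,2),(2,3),(12,0),(1,1)]⟩)) (by decide +kernel) (by decide +kernel) (.t t6 ok6) cl17

theorem cl19 : Clo K (Helper55.TR.GT 1 Helper55.TR.BrU) r31 :=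
  .q [n0,n0,n0,m1,n0,n0,n1,n1,m1,m1,n1,n1,m1] (e' := [n0,n0,n0,n1,n0,n0,m1,m1,n1,n1,m1,m1,n1]) (.p false [0,0,-1,1]
  [1] (⟨0,[(4,0)]⟩,⟨0,[(14,0),(5,0)]⟩) .k 1 (⟨0,[]⟩,⟨0,[]⟩) .k (.r 0 ⟨1,[(3,0),(5,0),(7,0),(5,0),
  (15,0),(3,0)]⟩ ⟨5,[(5,5),(9,2),(2,3),(12,0),(1,1)]⟩)) (by decide +kernel) (by decide +kernel) (.t
  t24 ok24) (.h (Helper55.TR.GT.l1 Helper55.CD.Dm1_1_c0u_95_5.g 421362583904069366603699741327717171389180729293564126683482923788989061997961059767294564183372413418785014112157169993664952308877533568705469204154809403512143852849370701573143298517086261743717378 (by decide +kernel)))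

theorem cl20 : Clo K (Helper55.TR.GT 1 Helper55.TR.BrU) l30 :=
  .i [n1,n1,m1,n0,n0,n0,n0,m1,n0,m1] (e' := [n0,m1,n1,n0,n0,n0,n0,n1,n0,n1]) (by decide +kernel)
  (by decide +kernel) (.t t23 ok23) cl19

theorem cl21 : Clo K (Helper55.TR.GT 1 Helper55.TR.BrU) r30 :=
  .q [n0,n0,n0,m1,n0,n0,n1,n1,m1,m1,n1,n1,m1] (e' := [n0,n0,n0,n1,n0,n0,m1,m1,n1,n1,m1,m1,n1]) (.p false [0,0,-1,1]
  [1] (⟨0,[(3,0)]⟩,⟨0,[(13,0),(5,0)]⟩) .k 1 (⟨0,[]⟩,⟨0,[]⟩) .k (.r 0 ⟨1,[(2,0),(5,0),(7,0),(5,0),
  (15,0),(3,0)]⟩ ⟨5,[(4,5),(9,2),(2,3),(12,0),(1,1)]⟩)) (by decide +kernel) (by decide +kernel) (.t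
  t25 ok25) (.h (Helper55.TR.GT.lJ Helper55.CD.Dm1_1_c0u_95_6.g 292339578608591433568369264655290757039002601134367823578725827393635833289517863179880872723486686889614491701711786748486836299108003904291186860476463056838780640006471853035925031318003386413 (by decide +kernel)))

theorem cl22 : Clo K (Helper55.TR.GT 1 Helper55.TR.BrU) r29 :=
  .q [n0,n0,n0,n0,n0,n0,n0,n0,n0,n0,m1,n1,n1] (e' := [n0,n0,n0,n0,n0,n0,n0,n0,n0,n0,n1,m1,m1]) (.ed false [0,0,1,1] (.r
  (-1) ⟨2,[(13,1),(7,2),(5,0),(4,0),(9,0)]⟩ ⟨2,[(4,0),(19,0),(3,2),(4,1),(4,0)]⟩))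
  (by decide +kernel) (by decide +kernel) cl20 cl21

theorem cl23 : Clo K (Helper55.TR.GT 1 Helper55.TR.BrU) r28 :=
  .q [n0,n0,n0,n0,n0,n1,n0,n0,n0,n0,n0,n1,m1] (e' := [n0,n0,n0,n0,n0,m1,n0,n0,n0,n0,n0,m1,n1]) (.p false [0,0,-1,1] [] (⟨0,
  [(1,0)]⟩,⟨0,[(11,0),(5,0)]⟩) .k 0 (⟨0,[]⟩,⟨0,[]⟩) .k (.r 0 ⟨1,[(0,0),(5,0),(7,0),(5,0),(15,0),(3,
  0)]⟩ ⟨5,[(2,5),(9,2),(2,3),(12,0),(1,1)]⟩)) (by decide +kernel) (by decide +kernel) (.t t22 ok22)
  cl22

theorem cl24 : Clo K (Helper55.TR.GT 1 Helper55.TR.BrU) r8 :=
  .q [n0,m1,n0,m1,n0,n0,n0,n0,m1,m1,n1,n0,m1] (e' := [n0,n1,n0,n1,n0,n0,n0,n0,n1,n1,m1,n0,n1]) (.p false [0,0,0,1] [1]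
  (⟨0,[(9,0)]⟩,⟨0,[(10,0)]⟩) .k 1 (⟨0,[]⟩,⟨0,[]⟩) .k .k) (by decide +kernel) (by decide +kernel)
  (.t t21 ok21) cl23

theorem cl25 : Clo K (Helper55.TR.GT 1 Helper55.TR.BrU) l7 :=
  .q [n0,n0,n0,n0,n0,n0,n0,n0,n0,n0,n0,n1,m1] (e' := [n0,n0,n0,n0,n0,n0,n0,n0,n0,n0,n0,m1,n1]) (.ed true [1,0,-1,1] (.r 0
  ⟨0,[(12,0),(5,0),(4,0)]⟩ ⟨5,[(0,5),(9,2),(2,3),(12,0),(1,1)]⟩)) (by decide +kernel)
  (by decide +kernel) cl18 cl24

theorem cl26 : Clo K (Helper55.TR.GT 1 Helper55.TR.BrU) r37 :=
  .q [n0,n0,n0,m2,n0,n0,n1,n1,m1,m1,n0,n1,m1] (e' := [n0,n0,n0,n2,n0,n0,m1,m1,n1,n1,n0,m1,n1]) (.p false [1,0,-1,1]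
  [1] (⟨0,[(12,0),(7,0)]⟩,⟨0,[(1,0)]⟩) .k 1 (⟨0,[]⟩,⟨0,[]⟩) .k (.r 0 ⟨1,[(4,0),(17,0),(6,0)]⟩ ⟨11,
  [(5,7),(8,5),(2,2),(7,7),(5,2),(1,5),(0,3),(4,7)]⟩)) (by decide +kernel) (by decide +kernel) (.t
  t27 ok27) (.h (Helper55.TR.GT.l1 Helper55.CD.Dm1_1_c0u_95_7.g 387986356671144648815492372395087699300647793190030930207578345389580069044660061499576698928588221172911908729371635242997671843861333448257445490286754661202355545322727513217420222856691738 (by decide +kernel)))

theorem cl27 : Clo K (Helper55.TR.GT 1 Helper55.TR.BrU) l36 :=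
  .q [n0,m1,n0,n1,n0,n0,m1,m1,n0,n0,n1,m1] (e' := [n0,n1,n0,m1,n0,n0,n1,n1,n0,n0,m1,n1]) (.p false [0,0,1] [1] (⟨0,
  [(18,0)]⟩,⟨0,[(19,0)]⟩) .k 1 (⟨0,[]⟩,⟨0,[]⟩) .k .k) (by decide +kernel) (by decide +kernel) (.t
  t26 ok26) cl26

theorem cl28 : Clo K (Helper55.TR.GT 1 Helper55.TR.BrU) l42 :=
  .q [n0,n0,n1,n0,n0,n0,m2,n0,m1,n0,n2,m2,m1] (e' := [n0,n0,m1,n0,n0,n0,n2,n0,n1,n0,m2,n2,n1]) (.p false [0,0,1] [2,0,
  -1,-1] (⟨0,[(22,0)]⟩,⟨0,[(23,0)]⟩) .k 2 (⟨0,[(16,0),(6,0)]⟩,⟨0,[(1,0)]⟩) .k (.r (-1) ⟨2,[(17,0),
  (7,2),(10,0),(9,2),(3,0)]⟩ ⟨0,[(0,0),(42,0)]⟩)) (by decide +kernel) (by decide +kernel) (.t t29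
  ok29) (.h (Helper55.TR.GT.lJ Helper55.CD.Dm1_1_c0u_95_8.g 72538026224765368848974209929409054151639281826375444564143971967116993184565830853664680044155579515677059495069209420244960064082760879298346470461850008211537262101517110904247825411 (by decide +kernel)))

theorem cl29 : Clo K (Helper55.TR.GT 1 Helper55.TR.BrU) r47 :=
  .w [n0,n0,n0,n0,n0,n0,n0,n0,n0,n0,m1,m1,n2] (e' := [n1,n0,n0,n0,n0,n0,n0,n0,n0,n0,n1,n1,m2]) (by decide +kernel) (.t t33
  ok33) (.h (Helper55.TR.GT.lb Helper55.CD.Dm1_1_c0u_95_9.g 281045490855509568364859897594447662644395030988640370488110921893207739003911243824910670806292990658102007819951415717717635192585898578831889583559028965906733472285379624503874220839666691 (by decide +kernel)))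

theorem cl30 : Clo K (Helper55.TR.GT 1 Helper55.TR.BrU) r46 :=
  .i [n0,n0,n0,n0,n0,n0,m1,n0,n2] (e' := [n1,n0,n0,n0,n0,n0,n1,n0,m2]) (by decide +kernel) (by decide +kernel) (.t
  t32 ok32) cl29

theorem cl31 : Clo K (Helper55.TR.GT 1 Helper55.TR.BrU) r45 :=
  .i [n0,n0,n0,n0,n0,n0,n1,n0,m2] (e' := [n1,n0,n0,n0,n0,n0,m1,n0,n2]) (by decide +kernel) (by decide +kernel) (.t
  t31 ok31) cl30

theorem cl32 : Clo K (Helper55.TR.GT 1 Helper55.TR.BrU) l44 :=
  .w [n0,n0,n0,n0,n0,n0,n0,n0,n0,n0,n1,n1,m2] (e' := [n1,n0,n0,n0,n0,n0,n0,n0,n0,n0,m1,m1,n2]) (by decide +kernel) (.t t30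
  ok30) cl31

theorem cl33 : Clo K (Helper55.TR.GT 1 Helper55.TR.BrU) r42 :=
  .i [n1,n0,n0,n0,n0,n0,n0,n1,n0,m2] (e' := [n0,n0,n0,n0,n0,n0,n0,m1,n0,n2]) (by decide +kernel) (by decide +kernel)
  cl32 (.h (Helper55.TR.GT.lb Helper55.CD.Dm1_1_c0u_95_10.g 328632168585580751834175156899054252577426527312862247745661472409595930034133024128820022805255285962128622461136106306927640613762223098967261804080409244573260620306197109155699821911782129723906203696 (by decide +kernel)))

theorem cl34 : Clo K (Helper55.TR.GT 1 Helper55.TR.BrU) l41 :=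
  .i [n1,n1,m1,n0,n0,n0,n0,m1,n0,m1] (e' := [n0,m1,n1,n0,n0,n0,n0,n1,n0,n1]) (by decide +kernel)
  (by decide +kernel) cl28 cl33

theorem cl35 : Clo K (Helper55.TR.GT 1 Helper55.TR.BrU) r54 :=
  .w [n0,n0,n0,n0,n0,n0,n0,n0,n0,n0,n1,n1,m2] (e' := [n1,n0,n0,n0,n0,n0,n0,n0,n0,n0,m1,m1,n2]) (by decide +kernel) (.t t36
  ok36) (.h (Helper55.TR.GT.lJ Helper55.CD.Dm1_1_c0u_95_12.g 426508032134526291392985257140931806115505614885157240034182182525763454059558421235672334673905829408913878498304796713557212871827161918626342387943695038853397888151312775517041372024213580647358985537918601239 (by decide +kernel)))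

theorem cl36 : Clo K (Helper55.TR.GT 1 Helper55.TR.BrU) l53 :=
  .i [n0,n0,n0,n0,n0,n0,m1,n0,n2] (e' := [n1,n0,n0,n0,n0,n0,n1,n0,m2]) (by decide +kernel) (by decide +kernel) (.t
  t35 ok35) cl35

theorem cl37 : Clo K (Helper55.TR.GT 1 Helper55.TR.BrU) r52 :=
  .i [n1,n0,n0,n0,n0,n0,n0,n1,n0,m2] (e' := [n0,n0,n0,n0,n0,n0,n0,m1,n0,n2]) (by decide +kernel) (by decide +kernel)
  cl36 (.h (Helper55.TR.GT.lJ Helper55.CD.Dm1_1_c0u_95_13.g 81684595786023337224076979339821685538212807695870990087101036015923261970489693170909288160065627918299133498084835836153644891176303028345509594912620124324089014362153877928297275369915216726859779 (by decide +kernel)))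

theorem cl38 : Clo K (Helper55.TR.GT 1 Helper55.TR.BrU) r51 :=
  .i [n0,n0,n0,n0,n0,n0,n1,n0,m2] (e' := [n1,n0,n0,n0,n0,n0,m1,n0,n2]) (by decide +kernel) (by decide +kernel) (.h
  (Helper55.TR.GT.lJ Helper55.CD.Dm1_1_c0u_95_11.g 152257811862930347812231560312095367877915730108888635888228373473315672493812725241912221298663600403343992465938545819408631721166075768908165550320157989453292634356074620421858810634689600444792053764 (by decide +kernel))) cl37

theorem cl39 : Clo K (Helper55.TR.GT 1 Helper55.TR.BrU) l50 :=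
  .i [n0,n1,m1,n0,n0,n0,n0,m1,n0,m1] (e' := [n1,m1,n1,n0,n0,n0,n0,n1,n0,n1]) (by decide +kernel)
  (by decide +kernel) (.t t34 ok34) cl38

theorem cl40 : Clo K (Helper55.TR.GT 1 Helper55.TR.BrU) l49 :=
  .q [n0,n0,n1,n0,n0,n0,m2,n0,m1,n0,n1,m2,m1] (e' := [n0,n0,m1,n0,n0,n0,n2,n0,n1,n0,m1,n2,n1]) (.p false [0,0,1] [1,0,
  -1,-1] (⟨0,[(22,0)]⟩,⟨0,[(23,0)]⟩) .k 2 (⟨0,[(1,0)]⟩,⟨0,[(15,0),(6,0)]⟩) .k (.r (-1) ⟨2,[(17,0),
  (7,2),(10,0),(9,2),(3,0)]⟩ ⟨2,[(8,0),(19,0),(3,5),(4,1),(4,0)]⟩)) (by decide +kernel)
  (by decide +kernel) cl39 (.h (Helper55.TR.GT.lJ Helper55.CD.Dm1_1_c0u_95_14.g 126270463070091679373839587393780786616669427927323764310513895811076799948534001054945988611658351959200700936139944796628902367448623804464703619851004796711986335007823507936990801929631416983554 (by decide +kernel)))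

theorem cl41 : Clo K (Helper55.TR.GT 1 Helper55.TR.BrU) l57 :=
  .i [n0,n1,m1,m1,n0,n0,n0,m1,n0,m1] (e' := [n1,m1,n1,n1,n0,n0,n0,n1,n0,n1]) (by decide +kernel)
  (by decide +kernel) (.t t37 ok37) (.h (Helper55.TR.GT.lJ Helper55.CD.Dm1_1_c0u_95_15.g 297748850640707410650272768662051807082608185642303234416633511935234757550286851841241781508344386376682304097578345562571869078208014761991394918450518947567181045238541685823020993556 (by decide +kernel)))

theorem cl42 : Clo K (Helper55.TR.GT 1 Helper55.TR.BrU) l56 :=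
  .q [n0,n0,n1,n0,n0,n0,m2,n0,m1,n0,n1,m2,m1] (e' := [n0,n0,m1,n0,n0,n0,n2,n0,n1,n0,m1,n2,n1]) (.p false [0,0,1] [1,0,
  -1,-1] (⟨0,[(23,0)]⟩,⟨0,[(24,0)]⟩) .k 2 (⟨0,[(2,0)]⟩,⟨0,[(16,0),(6,0)]⟩) .k (.r (-1) ⟨2,[(18,0),
  (7,2),(10,0),(9,2),(3,0)]⟩ ⟨8,[(0,7),(8,0),(8,1),(2,1),(7,0),(11,1),(1,2)]⟩)) (by decide +kernel)
  (by decide +kernel) cl41 (.h (Helper55.TR.GT.lb Helper55.CD.Dm1_1_c0u_95_16.g 295300364044267642206492785529651429196741954315598565643860030906321169812082925510799776460846795308338586443623901115405423978530790812578840428326811600899 (by decide +kernel)))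

theorem cl43 : Clo K (Helper55.TR.GT 1 Helper55.TR.BrU) r49 :=
  .i [n0,n0,m1,m1,n0,n0,n0,m2,n0,m1] (e' := [n1,n0,n1,n1,n0,n0,n0,n2,n0,n1]) (by decide +kernel)
  (by decide +kernel) cl42 (.h (Helper55.TR.GT.lJ Helper55.CD.Dm1_1_c0u_95_17.g 338740810166081124096914478749183070219786145578999707201986548401064018454237272362516766898313486431895606387984014443545217937935365223014251127275142552068553344979071419189319779368317954 (by decide +kernel)))

theorem cl44 : Clo K (Helper55.TR.GT 1 Helper55.TR.BrU) r41 :=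
  .q [n0,n0,n0,n0,n0,n1,n0,n0,n0,n0,m1,n1,n1] (e' := [n0,n0,n0,n0,n0,m1,n0,n0,n0,n0,n1,m1,m1]) (.p true [0,0,1,1] [1] (⟨0,
  [(14,0),(6,0)]⟩,⟨0,[(0,0)]⟩) .k 1 (⟨0,[]⟩,⟨0,[]⟩) .k (.r (-1) ⟨2,[(16,1),(7,2),(5,0),(4,0),(9,
  0)]⟩ ⟨2,[(7,0),(19,0),(3,2),(4,1),(4,0)]⟩)) (by decide +kernel) (by decide +kernel) cl40 cl43

theorem cl45 : Clo K (Helper55.TR.GT 1 Helper55.TR.BrU) l40 :=
  .q [n0,n0,n0,n0,n0,n0,n0,n0,n0,n0,m1,n1,n1] (e' := [n0,n0,n0,n0,n0,n0,n0,n0,n0,n0,n1,m1,m1]) (.ed false [0,0,1,1] (.r
  (-1) ⟨2,[(15,1),(7,2),(5,0),(4,0),(9,0)]⟩ ⟨2,[(6,0),(19,0),(3,2),(4,1),(4,0)]⟩))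
  (by decide +kernel) (by decide +kernel) cl34 cl44

theorem cl46 : Clo K (Helper55.TR.GT 1 Helper55.TR.BrU) r39 :=
  .q [n0,n0,n0,n0,n0,m1,n0,n0,n0,n0,n0,m1,n1] (e' := [n0,n0,n0,n0,n0,n1,n0,n0,n0,n0,n0,n1,m1]) (.p true [0,0,-1,1] [] (⟨0,
  [(1,0)]⟩,⟨0,[(13,0),(5,0)]⟩) .k 0 (⟨0,[]⟩,⟨0,[]⟩) .k (.r 0 ⟨1,[(4,0),(17,0),(6,0)]⟩ ⟨11,[(5,7),(8,
  5),(2,2),(7,7),(5,2),(1,5),(0,3),(4,7)]⟩)) (by decide +kernel) (by decide +kernel) cl45 (.t t38
  ok38)

theorem cl47 : Clo K (Helper55.TR.GT 1 Helper55.TR.BrU) r36 :=
  .q [n0,m1,n0,m1,n0,n0,n0,n0,m1,m1,n1,n0,m1] (e' := [n0,n1,n0,n1,n0,n0,n0,n0,n1,n1,m1,n0,n1]) (.p false [0,0,0,1] [1]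
  (⟨0,[(11,0)]⟩,⟨0,[(12,0)]⟩) .k 1 (⟨0,[]⟩,⟨0,[]⟩) .k .k) (by decide +kernel) (by decide +kernel)
  (.t t28 ok28) cl46

theorem cl48 : Clo K (Helper55.TR.GT 1 Helper55.TR.BrU) l35 :=
  .q [n0,n0,n0,n0,n0,n0,n0,n0,n0,n0,n0,n1,m1] (e' := [n0,n0,n0,n0,n0,n0,n0,n0,n0,n0,n0,m1,n1]) (.ed true [1,0,-1,1] (.r 0
  ⟨1,[(2,0),(17,0),(6,0)]⟩ ⟨11,[(3,7),(8,5),(2,2),(7,7),(5,2),(1,5),(0,3),(4,7)]⟩))
  (by decide +kernel) (by decide +kernel) cl27 cl47

theorem cl49 : Clo K (Helper55.TR.GT 1 Helper55.TR.BrU) l34 :=
  .q [n0,n0,n0,n1,n0,n0,m1,m1,n1,n1,n0,m1,n1] (e' := [n0,n0,n0,m1,n0,n0,n1,n1,m1,m1,n0,n1,m1]) (.p false [0,0,1] [0,0,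
  0,1] (⟨0,[(16,0)]⟩,⟨0,[(17,0)]⟩) .k 2 (⟨0,[(9,0)]⟩,⟨0,[(10,0)]⟩) .k (.r (-1) ⟨11,[(2,7),(8,5),(2,
  2),(7,7),(5,2),(1,5),(0,3),(4,7)]⟩ ⟨1,[(1,0),(17,0),(6,0)]⟩)) (by decide +kernel)
  (by decide +kernel) cl48 (.t t39 ok39)

theorem cl50 : Clo K (Helper55.TR.GT 1 Helper55.TR.BrU) l60 :=
  .q [n0,n0,n1,n0,n0,n0,m2,n0,m1,n0,n2,m2,m1] (e' := [n0,n0,m1,n0,n0,n0,n2,n0,n1,n0,m2,n2,n1]) (.p false [0,0,1] [2,0,
  -1,-1] (⟨0,[(18,0)]⟩,⟨0,[(19,0)]⟩) .k 2 (⟨0,[(12,0),(6,0)]⟩,⟨0,[(1,0)]⟩) .k (.r (-1) ⟨2,[(13,0),
  (7,2),(10,0),(9,2),(3,0)]⟩ ⟨0,[(0,0),(38,0)]⟩)) (by decide +kernel) (by decide +kernel) (.t t40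
  ok40) (.h (Helper55.TR.GT.lJ Helper55.CD.Dm1_1_c0u_95_18.g 332030399334439013018101848662776470639542546656785686555412564990786972094995634631146343148751053211240383080627469516956668386521813363098889392885451300520349950737077728363677778 (by decide +kernel)))

theorem cl51 : Clo K (Helper55.TR.GT 1 Helper55.TR.BrU) l59 :=
  .i [n1,n1,m1,n0,n0,n0,n0,m1,n0,m1] (e' := [n0,m1,n1,n0,n0,n0,n0,n1,n0,n1]) (by decide +kernel)
  (by decide +kernel) cl50 (.h (Helper55.TR.GT.lJ Helper55.CD.Dm1_1_c0u_95_19.g 326633139160924212921754983818023487053812124846714996183911075951439942949981998031455472151834629607436014258933675039905270231413488628666141975360070146941588667919196421022775441885227 (by decide +kernel)))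

theorem cl52 : Clo K (Helper55.TR.GT 1 Helper55.TR.BrU) r64 :=
  .q [n0,m1,n0,m1,n0,n0,n0,n0,m1,m1,n1,n0,m1] (e' := [n0,n1,n0,n1,n0,n0,n0,n0,n1,n1,m1,n0,n1]) (.p false [0,0,0,1] [1]
  (⟨0,[(13,0)]⟩,⟨0,[(14,0)]⟩) .k 1 (⟨0,[]⟩,⟨0,[]⟩) .k .k) (by decide +kernel) (by decide +kernel)
  (.t t42 ok42) (.h (Helper55.TR.GT.lJ Helper55.CD.Dm1_1_c0u_95_20.g 74342646573227723382434379570085981214883814710810448499131234060799570706082903721898991781701070439467576724309406784951206930903388032482382677222505651032689059028211552057463993807875 (by decide +kernel)))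

theorem cl53 : Clo K (Helper55.TR.GT 1 Helper55.TR.BrU) l63 :=
  .q [n0,n0,n1,n0,n0,n0,m2,n0,m1,n0,n1,m2,m1] (e' := [n0,n0,m1,n0,n0,n0,n2,n0,n1,n0,m1,n2,n1]) (.p false [0,0,1] [1,0,
  -1,-1] (⟨0,[(19,0)]⟩,⟨0,[(20,0)]⟩) .k 2 (⟨0,[(2,0)]⟩,⟨0,[(12,0),(6,0)]⟩) .k (.r (-1) ⟨2,[(14,0),
  (7,2),(10,0),(9,2),(3,0)]⟩ ⟨0,[(0,0),(39,0)]⟩)) (by decide +kernel) (by decide +kernel) (.t t41
  ok41) cl52

theorem cl54 : Clo K (Helper55.TR.GT 1 Helper55.TR.BrU) r67 :=
  .q [n0,n0,n0,n0,n0,n1,n0,n0,n0,n0,n0,n1,m1] (e' := [n0,n0,n0,n0,n0,m1,n0,n0,n0,n0,n0,m1,n1]) (.p false [0,0,-1,1] [] (⟨0,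
  [(1,0)]⟩,⟨0,[(15,0),(5,0)]⟩) .k 0 (⟨0,[]⟩,⟨0,[]⟩) .k (.r 0 ⟨1,[(6,0),(17,0),(6,0)]⟩ ⟨11,[(7,7),(8,
  5),(2,2),(7,7),(5,2),(1,5),(0,3),(4,7)]⟩)) (by decide +kernel) (by decide +kernel) (.t t44 ok44)
  (.h (Helper55.TR.GT.lJ Helper55.CD.Dm1_1_c0u_95_21.g 306051775970119237392035183020302483218131164819675675403976047980712899121869063998834874035740227780030251396034278430633523503413507715867082381947176869957586929886083432949042118676 (by decide +kernel)))

theorem cl55 : Clo K (Helper55.TR.GT 1 Helper55.TR.BrU) l66 :=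
  .q [n0,m1,n0,m1,n0,n0,n0,n0,m1,m1,n1,n0,m1] (e' := [n0,n1,n0,n1,n0,n0,n0,n0,n1,n1,m1,n0,n1]) (.p false [0,0,0,1] [1]
  (⟨0,[(13,0)]⟩,⟨0,[(14,0)]⟩) .k 1 (⟨0,[]⟩,⟨0,[]⟩) .k .k) (by decide +kernel) (by decide +kernel)
  (.t t43 ok43) cl54

theorem cl56 : Clo K (Helper55.TR.GT 1 Helper55.TR.BrU) r69 :=
  .q [n0,n0,n0,n0,n0,n1,n0,n0,n0,n0,n0,m1,n1] (e' := [n0,n0,n0,n0,n0,m1,n0,n0,n0,n0,n0,n1,m1]) (.p true [1,0,-1,1] [1] (⟨0,
  [(14,0),(7,0)]⟩,⟨0,[(1,0)]⟩) .k 1 (⟨0,[]⟩,⟨0,[]⟩) .k (.r 0 ⟨1,[(6,0),(17,0),(6,0)]⟩ ⟨11,[(7,7),(8,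
  5),(2,2),(7,7),(5,2),(1,5),(0,3),(4,7)]⟩)) (by decide +kernel) (by decide +kernel) (.t t46 ok46)
  (.h (Helper55.TR.GT.lJ Helper55.CD.Dm1_1_c0u_95_22.g 369461994983456447617893331849735297773854561850130735634800118089880412894991178514677521046227508727081252759627759241371277004186543008655350896269260105169321928746998167234379418619578835555331 (by decide +kernel)))

theorem cl57 : Clo K (Helper55.TR.GT 1 Helper55.TR.BrU) r66 :=
  .q [n0,n0,n0,n0,n0,n0,m1,n0,n1,n0,n1,m1,n1] (e' := [n0,n0,n0,n0,n0,n0,n1,n0,m1,n0,m1,n1,m1]) (.p true [1,0,-1,1] []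
  (⟨0,[(13,0),(7,0)]⟩,⟨0,[(0,0)]⟩) .k 0 (⟨0,[]⟩,⟨0,[]⟩) .k (.r 0 ⟨1,[(5,0),(17,0),(6,0)]⟩ ⟨11,[(6,
  7),(8,5),(2,2),(7,7),(5,2),(1,5),(0,3),(4,7)]⟩)) (by decide +kernel) (by decide +kernel) (.t t45
  ok45) cl56

theorem cl58 : Clo K (Helper55.TR.GT 1 Helper55.TR.BrU) r63 :=
  .q [n0,n0,n0,n0,n0,n0,n0,n0,n0,n0,n0,m1,n1] (e' := [n0,n0,n0,n0,n0,n0,n0,n0,n0,n0,n0,n1,m1]) (.ed false [1,0,-1,1] (.r 0
  ⟨1,[(4,0),(17,0),(6,0)]⟩ ⟨11,[(5,7),(8,5),(2,2),(7,7),(5,2),(1,5),(0,3),(4,7)]⟩))
  (by decide +kernel) (by decide +kernel) cl55 cl57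

theorem cl59 : Clo K (Helper55.TR.GT 1 Helper55.TR.BrU) l62 :=
  .i [n1,n1,m1,n0,n0,n0,n0,m1,n0,m1] (e' := [n0,m1,n1,n0,n0,n0,n0,n1,n0,n1]) (by decide +kernel)
  (by decide +kernel) cl53 cl58

theorem cl60 : Clo K (Helper55.TR.GT 1 Helper55.TR.BrU) l74 :=
  .q [n0,n0,n1,n0,n0,n0,m2,n0,m1,n0,n1,m2,m1] (e' := [n0,n0,m1,n0,n0,n0,n2,n0,n1,n0,m1,n2,n1]) (.p false [0,0,1] [1,0,
  -1,-1] (⟨0,[(22,0)]⟩,⟨0,[(23,0)]⟩) .k 2 (⟨0,[(5,0)]⟩,⟨0,[(15,0),(6,0)]⟩) .k (.r (-1) ⟨2,[(17,0),
  (7,2),(10,0),(9,2),(3,0)]⟩ ⟨0,[(0,0),(42,0)]⟩)) (by decide +kernel) (by decide +kernel) (.t t49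
  ok49) (.h (Helper55.TR.GT.lJ Helper55.CD.Dm1_1_c0u_95_23.g 153244419203515041954448623696701035855646928203156383832544525778840669302654192411654950082168097397803265060773617873786008519382582326103375617387054634576721714469281775620137858542319304896942136 (by decide +kernel)))

theorem cl61 : Clo K (Helper55.TR.GT 1 Helper55.TR.BrU) r73 :=
  .i [n0,n1,m1,n0,n0,n0,n0,m1,n0,m1] (e' := [n1,m1,n1,n0,n0,n0,n0,n1,n0,n1]) (by decide +kernel)
  (by decide +kernel) cl60 (.h (Helper55.TR.GT.lJ Helper55.CD.Dm1_1_c0u_95_24.g 336721881007489586023978593578119387418219766517980292684463331224830335368605802990305509299634179895203179290691301922709365015423373579920789351585294889356201681795534941929457112536226537147394 (by decide +kernel)))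

theorem cl62 : Clo K (Helper55.TR.GT 1 Helper55.TR.BrU) r72 :=
  .q [n0,n0,n0,n0,n0,n1,n0,n0,n0,n0,n0,n1,m1] (e' := [n0,n0,n0,n0,n0,m1,n0,n0,n0,n0,n0,m1,n1]) (.p false [0,0,-1,1] [] (⟨0,
  [(1,0)]⟩,⟨0,[(14,0),(5,0)]⟩) .k 0 (⟨0,[]⟩,⟨0,[]⟩) .k (.r 0 ⟨1,[(5,0),(17,0),(6,0)]⟩ ⟨11,[(6,7),(8,
  5),(2,2),(7,7),(5,2),(1,5),(0,3),(4,7)]⟩)) (by decide +kernel) (by decide +kernel) (.t t48 ok48)
  cl61

theorem cl63 : Clo K (Helper55.TR.GT 1 Helper55.TR.BrU) l71 :=
  .q [n0,m1,n0,m1,n0,n0,n0,n0,m1,m1,n1,n0,m1] (e' := [n0,n1,n0,n1,n0,n0,n0,n0,n1,n1,m1,n0,n1]) (.p false [0,0,0,1] [1]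
  (⟨0,[(12,0)]⟩,⟨0,[(13,0)]⟩) .k 1 (⟨0,[]⟩,⟨0,[]⟩) .k .k) (by decide +kernel) (by decide +kernel)
  (.t t47 ok47) cl62

theorem cl64 : Clo K (Helper55.TR.GT 1 Helper55.TR.BrU) r76 :=
  .q [n0,n0,n0,n0,n0,n0,m1,n0,n1,n0,n1,m1,n1] (e' := [n0,n0,n0,n0,n0,n0,n1,n0,m1,n0,m1,n1,m1]) (.p true [1,0,-1,1] []
  (⟨0,[(13,0),(7,0)]⟩,⟨0,[(1,0)]⟩) .k 0 (⟨0,[]⟩,⟨0,[]⟩) .k (.r 0 ⟨1,[(5,0),(17,0),(6,0)]⟩ ⟨11,[(6,
  7),(8,5),(2,2),(7,7),(5,2),(1,5),(0,3),(4,7)]⟩)) (by decide +kernel) (by decide +kernel) (.t t51
  ok51) (.h (Helper55.TR.GT.l1 Helper55.CD.Dm1_1_c0u_95_25.g 118965167355782543445178660160179280158768455144534648581026380684801545022974006957095294504303173918281889668192102542362 (by decide +kernel)))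

theorem cl65 : Clo K (Helper55.TR.GT 1 Helper55.TR.BrU) r71 :=
  .q [n0,n0,n0,n0,n0,n1,n0,n0,n0,n0,n0,m1,n1] (e' := [n0,n0,n0,n0,n0,m1,n0,n0,n0,n0,n0,n1,m1]) (.p true [1,0,-1,1] [1] (⟨0,
  [(12,0),(7,0)]⟩,⟨0,[(0,0)]⟩) .k 1 (⟨0,[]⟩,⟨0,[]⟩) .k (.r 0 ⟨1,[(4,0),(17,0),(6,0)]⟩ ⟨11,[(5,7),(8,
  5),(2,2),(7,7),(5,2),(1,5),(0,3),(4,7)]⟩)) (by decide +kernel) (by decide +kernel) (.t t50 ok50)
  cl64

theorem cl66 : Clo K (Helper55.TR.GT 1 Helper55.TR.BrU) r62 :=
  .q [n0,n0,n0,n0,n0,n0,n0,n0,n0,n0,n0,m1,n1] (e' := [n0,n0,n0,n0,n0,n0,n0,n0,n0,n0,n0,n1,m1]) (.ed false [1,0,-1,1] (.r 0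
  ⟨1,[(3,0),(17,0),(6,0)]⟩ ⟨11,[(4,7),(8,5),(2,2),(7,7),(5,2),(1,5),(0,3),(4,7)]⟩))
  (by decide +kernel) (by decide +kernel) cl63 cl65

theorem cl67 : Clo K (Helper55.TR.GT 1 Helper55.TR.BrU) r59 :=
  .q [n0,n0,n0,n0,n0,m1,n0,n0,n0,n0,n1,m1,m1] (e' := [n0,n0,n0,n0,n0,n1,n0,n0,n0,n0,m1,n1,n1]) (.p false [0,0,1,1] [1]
  (⟨0,[(10,0),(6,0)]⟩,⟨0,[(0,0)]⟩) .k 1 (⟨0,[]⟩,⟨0,[]⟩) .k (.r (-1) ⟨2,[(12,1),(7,2),(5,0),(4,0),(9,
  0)]⟩ ⟨2,[(3,0),(19,0),(3,2),(4,1),(4,0)]⟩)) (by decide +kernel) (by decide +kernel) cl59 cl66

theorem cl68 : Clo K (Helper55.TR.GT 1 Helper55.TR.BrU) r34 :=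
  .q [n0,n0,n0,n0,n0,n0,n0,n0,n0,n0,m1,n1,n1] (e' := [n0,n0,n0,n0,n0,n0,n0,n0,n0,n0,n1,m1,m1]) (.ed false [0,0,1,1] (.r
  (-1) ⟨2,[(11,1),(7,2),(5,0),(4,0),(9,0)]⟩ ⟨2,[(2,0),(19,0),(3,2),(4,1),(4,0)]⟩))
  (by decide +kernel) (by decide +kernel) cl51 cl67

theorem cl69 : Clo K (Helper55.TR.GT 1 Helper55.TR.BrU) r7 :=
  .q [n0,n0,n0,m2,n0,n0,n0,n0,n1,n1,n0,n0,n1] (e' := [n0,n0,n0,n2,n0,n0,n0,n0,m1,m1,n0,n0,m1]) (.p true [0,0,0,1] [] (⟨0,
  [(8,0)]⟩,⟨0,[(9,0)]⟩) .k 0 (⟨0,[]⟩,⟨0,[]⟩) .k .k) (by decide +kernel) (by decide +kernel) cl49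
  cl68

theorem cl70 : Clo K (Helper55.TR.GT 1 Helper55.TR.BrU) r6 :=
  .i [n0,n1,n0,n0,n0,n0,n0,n1,n0,m1] (e' := [n1,m1,n0,n0,n0,n0,n0,m1,n0,n1]) (by decide +kernel) (by decide +kernel)
  cl25 cl69

theorem cl71 : Clo K (Helper55.TR.GT 1 Helper55.TR.BrU) l5 :=
  .q [n0,m1,n0,m2,n0,n0,m1,m1,n1,n1,n0,m1,n1] (e' := [n0,n1,n0,n2,n0,n0,n1,n1,m1,m1,n0,n1,m1]) (.p false [0,0,1] [0,0,
  0,1] (⟨0,[(13,0)]⟩,⟨0,[(14,0)]⟩) .k 2 (⟨0,[(6,0)]⟩,⟨0,[(7,0)]⟩) .k (.r (-1) ⟨11,[(11,10),(7,11),
  (4,1),(0,2),(0,3),(0,5),(1,11)]⟩ ⟨0,[(10,0),(5,0),(4,0)]⟩)) (by decide +kernel)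
  (by decide +kernel) (.t t5 ok5) cl70

theorem cl72 : Clo K (Helper55.TR.GT 1 Helper55.TR.BrU) r4 :=
  .q [n0,n0,n0,n0,n0,m2,n0,n0,n0,n0,n0,n0,n1] (e' := [n0,n0,n0,n0,n0,n2,n0,n0,n0,n0,n0,n0,m1]) (.p true [0,0,0,1] [] (⟨0,
  [(5,0)]⟩,⟨0,[(6,0)]⟩) .k 0 (⟨0,[]⟩,⟨0,[]⟩) .k .k) (by decide +kernel) (by decide +kernel) cl71
  (.t t52 ok52)

theorem cl73 : Clo K (Helper55.TR.GT 1 Helper55.TR.BrU) r3 :=
  .q [n0,n0,n0,n0,n0,n1,n0,n0,n0,n0,n0,n0,m1] (e' := [n0,n0,n0,n0,n0,m1,n0,n0,n0,n0,n0,n0,n1]) (.ed true [1,-1,0,1] .k)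
  (by decide +kernel) (by decide +kernel) (.t t4 ok4) cl72

theorem cl74 : Clo K (Helper55.TR.GT 1 Helper55.TR.BrU) r2 :=
  .q [n0,n0,n0,n0,n0,n0,m1,n0,n1,n0,n0,m1,n1] (e' := [n0,n0,n0,n0,n0,n0,n1,n0,m1,n0,n0,n1,m1]) (.p false [0,0,1] [0,0,0,
  1] (⟨0,[(10,0)]⟩,⟨0,[(11,0)]⟩) .k 2 (⟨0,[(3,0)]⟩,⟨0,[(4,0)]⟩) .k (.r (-1) ⟨11,[(8,10),(7,11),(4,
  1),(0,2),(0,3),(0,5),(1,11)]⟩ ⟨0,[(7,0),(5,0),(4,0)]⟩)) (by decide +kernel) (by decide +kernel)
  (.t t3 ok3) cl73

theorem cl75 : Clo K (Helper55.TR.GT 1 Helper55.TR.BrU) r1 :=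
  .q [n0,n0,n0,n0,n0,n2,n0,n0,n0,n0,m1,n0,n1] (e' := [n0,n0,n0,n0,n0,m2,n0,n0,n0,n0,n1,n0,m1]) (.p true [0,0,0,1] [1] (⟨0,
  [(2,0)]⟩,⟨0,[(3,0)]⟩) .k 1 (⟨0,[]⟩,⟨0,[]⟩) .k .k) (by decide +kernel) (by decide +kernel) (.t t2
  ok2) cl74

theorem cl76 : Clo K (Helper55.TR.GT 1 Helper55.TR.BrU) r0 :=
  .q [n0,n0,n0,n0,n0,n0,n0,n0,m1,n0,n1,n0,m1] (e' := [n0,n0,n0,n0,n0,n0,n0,n0,n1,n0,m1,n0,n1]) (.p false [0,0,0,1] [1] (⟨0,
  [(1,0)]⟩,⟨0,[(2,0)]⟩) .k 1 (⟨0,[]⟩,⟨0,[]⟩) .k .k) (by decide +kernel) (by decide +kernel) (.t t1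
  ok1) cl75

theorem cl77 : Clo K (Helper55.TR.GT 1 Helper55.TR.BrU) base :=
  .q [n0,m1,n0,n0,n0,n0,n0,n0,m1,m1,n1,n0,m1] (e' := [n0,n1,n0,n0,n0,n0,n0,n0,n1,n1,m1,n0,n1]) (.p false [0,0,0,1] [1]
  (⟨0,[(0,0)]⟩,⟨0,[(1,0)]⟩) .k 1 (⟨0,[]⟩,⟨0,[]⟩) .k .k) (by decide +kernel) (by decide +kernel) (.t
  t0 ok0) cl76

theorem g : Helper55.TR.GT 1 Helper55.TR.BrU base :=
  Helper55.TR.GT.of cl77

end Helper55.CD.Dm1_1_c0u_95
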