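import Pool.Agent.Helper55.CE.H_m1_1_c6u_59_b1
import Pool.Agent.Helper55.CE.H_m1_1_c6u_59_b2
import Pool.Agent.Helper55.TR.Num
import Pool.Agent.Helper81.PC.Sound
import Pool.Agent.Helper55.TR.Enc2

set_option autoImplicit false
set_option linter.all false

namespace Helper55.CD.Dm1_1_c6u_59

open Helper25.KG Helper25.KW Helper55.KE Helper11.CT Helper55.TR.Nm

noncomputable def K : Cls :=
  Helper55.TR.KT 1

noncomputable def base : List Con :=
  [(true,[n0,m2,n0,n0,n1]),
  (true,[n1,n1,n0,n0,n0,n0,n0,n0,n0,n1]),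
  (true,[n0,n0,m2,n0,n1]),
  (false,[n0,n0,n1,n0,n0,n0,m1,n0,n0,n0,n0,m1]),
  (true,[n0,n0,n0,m1]),
  (false,[n0,n0,n0,n1,n0,n0,n0,n0,m1,m1,n0,n0,m1]),
  (false,[n0,n0,n0,n0,n0,n0,n0,n0,n1,n0,n0,n0,n1]),
  (false,[n0,n1,n0,n0,n0,n0,n1,n1,n0,n0,n0,n1]),
  (true,[m1,n1]),
  (true,[n0,m1,n0,m1,n0,n0,n0,n0,n0,m1]),
  (false,[n0,n0,n1,n0,n0,n0,n1,n0,n0,n0,n0,n1]),
  (false,[n0,n0,n0,n0,n0,n0,n0,n0,n0,n0,n0,n0,n1]),
  (false,[n0,n0,n0,n0,n0,n0,n0,n0,n0,n0,n1,n0,m1]),
  (true,[n0,n1,n0,n1]),
  (true,[n1,m1,n0,n0,n0,n0,n0,n1]),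
  (false,[n0,n0,n0,n0,n1,n0,n0,n0,n0,n0,m2]),
  (false,[n0,m1,n0,n1,n0,n0,m1,m1,n0,n0,n1,m1]),
  (true,[n0,m1,n1,n0,n0,n0,n0,m1]),
  (false,[n0,n0,n0,n0,n0,n0,n0,n0,n0,n0,n0,n1]),
  (false,[n0,n0,n0,n0,n0,n0,n0,n0,n0,n0,n1,m1]),
  (true,[n1,m1,n1,n1,n0,n0,n0,m1]),
  (true,[n1,n0,n0,n1,n0,n0,n0,n1]),
  (false,[n0,n1,n0,n0,n0,n0,m1,m1,n0,n0,n0,m1]),
  (false,[n0,m1,n0,n0,n0,n0,m1,m1,n0,n0,n1,m1]),
  (true,[n0,n0,n2,n2,m1,n0,n0,n1]),
  (false,[n0,m1,n0,m1,n0,n0,m1,m1,n0,n0,n0,m1]),
  (false,[n0,n0,m2,n0,n1,n0,n0,n0,n0,n0,m1]),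
  (false,[n0,n0,n1,n0,n0,n0,n1,n0,n0,n0,m1,n1]),
  (false,[n0,n0,n0,n0,n0,m1,n0,n0,n0,n0,n0,n1]),
  (false,[n0,n0,n0,n0,n0,n0,m1,m1,n0,n0,n0,m1]),
  (true,[n0,n0,n0,n0,n0,n1]),
  (false,[n0,n0,n0,n0,n0,m2,n0,n0,n0,n0,n1,m1]),
  (true,[n1,m2,n1]),
  (true,[n1,m1,n2,n2,m1,n0,n0,n1]),
  (false,[n0,n0,n0,n1,n0,n0,m1,m1,n0,n0,n0,m1]),
  (false,[n0,n0,n0,n0,n0,m1,n0,n0,n0,n0,n1,n0,m1]),
  (false,[n0,n0,n0,n0,n0,m1,n0,n0,n0,n0,n1]),
  (false,[n0,n0,n0,n0,n0,m1,n0,n0,n0,n0,n1,m1]),
  (true,[n1,n0,n2,n2,m1,n0,n0,n1]),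
  (false,[n0,n0,n0,n2,n0,n0,m1,m1,n0,n0,n0,m1]),
  (false,[n0,n0,n0,n0,n0,m2,n0,n0,n0,n0,n1])]

noncomputable def l0 : List Con := (false, [n0,m1,n0,n0,n0,n0,n0,n0,m1,m1,n1,n0,m1]) :: base

noncomputable def r0 : List Con := (false, [n0,n1,n0,n0,n0,n0,n0,n0,n1,n1,m1,n0,n1]) :: base

noncomputable def l1 : List Con := (true, [n1,n0,m2,m2,n1,n0,n0,m1,n0,m1]) :: r0

noncomputable def r1 : List Con := (true, [n0,n0,n2,n2,m1,n0,n0,n1,n0,n1]) :: r0

noncomputable def l2 : List Con := (false, [n0,n0,n0,n0,n0,n0,n0,n0,n0,n0,n0,n1,m1]) :: r1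

noncomputable def r2 : List Con := (false, [n0,n0,n0,n0,n0,n0,n0,n0,n0,n0,n0,m1,n1]) :: r1

noncomputable def l3 : List Con := (false, [n0,n0,n0,n0,n0,n0,n0,n0,n1,n0,m1,n0,n1]) :: l2

noncomputable def r3 : List Con := (false, [n0,n0,n0,n0,n0,n0,n0,n0,m1,n0,n1,n0,m1]) :: l2

noncomputable def l4 : List Con := (false, [n0,n0,m1,n0,n1,n0,n1,n0,m1,n0,n0,n1,m1]) :: l3

noncomputable def r4 : List Con := (false, [n0,n0,n1,n0,m1,n0,m1,n0,n1,n0,n0,m1,n1]) :: l3

noncomputable def l5 : List Con := (false, [n0,n0,n0,n0,n0,n1,n0,n0,n0,n0,n0,n0,m1]) :: l4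

noncomputable def r5 : List Con := (false, [n0,n0,n0,n0,n0,m1,n0,n0,n0,n0,n0,n0,n1]) :: l4

noncomputable def l6 : List Con := (false, [n0,n0,m1,n0,n0,n0,m1,n0,n1,n0,n0,m1,n1]) :: r5

noncomputable def r6 : List Con := (false, [n0,n0,n1,n0,n0,n0,n1,n0,m1,n0,n0,n1,m1]) :: r5

noncomputable def l7 : List Con := (false, [n0,n1,m1,n0,n0,n0,n0,n1,n1,n0,n0,n0,n1]) :: r6

noncomputable def r7 : List Con := (false, [n0,m1,n1,n0,n0,n0,n0,m1,m1,n0,n0,n0,m1]) :: r6

noncomputable def l8 : List Con := (false, [n0,n0,n0,n0,n0,n1,n0,n0,n0,n0,n0,m1,n1]) :: r7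

noncomputable def r8 : List Con := (false, [n0,n0,n0,n0,n0,m1,n0,n0,n0,n0,n0,n1,m1]) :: r7

noncomputable def l9 : List Con := (false, [n0,n0,n0,n0,n0,n0,n0,n0,n1,n0,m1,n0,n1]) :: r2

noncomputable def r9 : List Con := (false, [n0,n0,n0,n0,n0,n0,n0,n0,m1,n0,n1,n0,m1]) :: r2

noncomputable def l10 : List Con := (false, [n0,m1,n0,m1,n0,n0,n0,n0,m1,m1,n1,n0,m1]) :: l9

noncomputable def r10 : List Con := (false, [n0,n1,n0,n1,n0,n0,n0,n0,n1,n1,m1,n0,n1]) :: l9

noncomputable def l11 : List Con := (false, [n0,n0,m1,n0,n0,n0,m1,n0,n1,n0,n0,m1,n1]) :: r10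

noncomputable def r11 : List Con := (false, [n0,n0,n1,n0,n0,n0,n1,n0,m1,n0,n0,n1,m1]) :: r10

noncomputable def l12 : List Con := (false, [n0,n0,n0,n0,n0,n2,n0,n0,n0,n0,m1,n0,n1]) :: r11

noncomputable def r12 : List Con := (false, [n0,n0,n0,n0,n0,m2,n0,n0,n0,n0,n1,n0,m1]) :: r11

noncomputable def l13 : List Con := (false, [n0,n0,n0,n0,n0,n1,n0,n0,n0,n0,n0,n1,m1]) :: r12

noncomputable def r13 : List Con := (false, [n0,n0,n0,n0,n0,m1,n0,n0,n0,n0,n0,m1,n1]) :: r12

noncomputable def l14 : List Con := (false, [n0,n0,n0,m1,n0,n0,m1,m1,n2,n2,m1,m1,n2]) :: r13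

noncomputable def r14 : List Con := (false, [n0,n0,n0,n1,n0,n0,n1,n1,m2,m2,n1,n1,m2]) :: r13

noncomputable def l15 : List Con := (false, [n0,n0,n0,n0,n0,n0,n1,n1,m2,m2,n1,n1,m2]) :: l14

noncomputable def r15 : List Con := (false, [n0,n0,n0,n0,n0,n0,m1,m1,n2,n2,m1,m1,n2]) :: l14

noncomputable def l16 : List Con := (true, [n0,n1,n1,n0,m1,n0,n0,n1,n0,m2]) :: l15

noncomputable def r16 : List Con := (true, [n1,m1,m1,n0,n1,n0,n0,m1,n0,n2]) :: l15

noncomputable def l17 : List Con := (true, [n0,n0,m1,m1,n1,n0,n0,m1,n0,n2]) :: l16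

noncomputable def r17 : List Con := (true, [n1,n0,n1,n1,m1,n0,n0,n1,n0,m2]) :: l16

noncomputable def l18 : List Con := (true, [n0,n0,n1,n0,m1,n1,m1,n0,n2]) :: r17

noncomputable def r18 : List Con := (true, [n1,n0,m1,n0,n1,m1,n1,n0,m2]) :: r17

open Helper55.PC in
noncomputable def t0n : Helper55.PC.Ten :=
  (r
  11962947331221574114488908559219377945501802118561185356539087309065418754828505217389325930473424330812834202331394916174751271556364618558207848524858645493954339503551845337411915001718982180546772255475777986477715551661894959282169439029222438148748873106724534709111910761056784799302998795046901408088806561418597297624591129079820772553542795075195181723192922697049224881065012256504967118019021432279380891695329993334450706210946)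

noncomputable def t0 : Tre := Helper55.PC.toT t0n

theorem ok0 : chk K t0 l0 = true :=
  Helper55.PC.chkN_sound K t0n l0 (by decide +kernel)

noncomputable def t1 : Tre :=
  (.N [0,2,1,1] 1 ⟨0,[(3,0),(31,0)]⟩ ⟨0,[(0,0)]⟩ (.x (-2) ⟨1,[(4,0),(3,1),(3,1),(1,1),(2,0),(10,1),
  (4,1)]⟩ ⟨0,[(3,0),(2,1),(0,0),(5,0),(6,0),(5,0),(0,0),(4,1)]⟩))

theorem ok1 : chk K t1 l1 = true := by decide +kernel

open Helper55.PC in
noncomputable def t2n : Helper55.PC.Ten :=
  (r
  27789349560909746585419721284621102323166493363888809704737763845210289741974652877911051340981699339362547621525644680130248764410166227737989769995904561046477200495385046442605803937754029916708960038747046241623089879536286530744521303686789715595779693971824038736054300805165989363439585232582703206490286346661504583660878186075729754986054121722566232809080422155757842165470289925396964279998544321949187258380106405258863279545364216508505373675203523878088058627384680736)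

noncomputable def t2 : Tre := Helper55.PC.toT t2n

theorem ok2 : chk K t2 l5 = true :=
  Helper55.PC.chkN_sound K t2n l5 (by decide +kernel)

open Helper55.PC in
noncomputable def t3n : Helper55.PC.Ten :=
  (r
  18370315396038062045953278631062380712313341733283894524766390704809229626938411035884903340126790246670069434532885142763507782020316051998425788509191167797937548571510784992146544689977875864696572785391262892022469240920471596347725764526589603021650887091615285295052159380154248544019654464291946524966230605373741074333374288617390686137812985236995282561637762148198660696125924613676514484793054418281079086591570917773490538292941240386580159140657964955617245918258286136985191950362180450442959751784962078854530481125742579536264056357318280747920260067714546070296525736599492464054573998369)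

noncomputable def t3 : Tre := Helper55.PC.toT t3n

theorem ok3 : chk K t3 l6 = true :=
  Helper55.PC.chkN_sound K t3n l6 (by decide +kernel)

noncomputable def t4 : Tre :=
  (.K ⟨1,[0,0,1,-1],0,0,(⟨0,[(5,0)]⟩,⟨0,[(19,0),(7,0)]⟩),.k,(.r (-1) ⟨0,[(10,0),(0,0),(3,0),(1,0)]⟩
  ⟨0,[(1,0),(5,0),(16,0)]⟩),(.r 0 ⟨7,[(0,0),(7,1),(2,4),(1,5),(0,4),(0,4),(1,1),(14,1)]⟩ ⟨0,[(3,0),
  (5,0),(4,0),(18,0)]⟩),.k,.k,[⟨0,[(0,0)]⟩,⟨0,[(1,0)]⟩,⟨0,[(11,0),(2,0)]⟩,⟨1,[(7,0),(1,0),(4,0),(15,
  0),(0,0)]⟩,⟨0,[(12,0),(0,0),(1,0)]⟩]⟩)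

theorem ok4 : chk K t4 l7 = true := by decide +kernel

open Helper55.PC in
noncomputable def t5n : Helper55.PC.Ten :=
  (r
  28182265414253080207676804540692649830436186770277394875673142824473572567292784805503220881421414788472337144139328236632039358948745810909359672603891564736952269319859088191126932277183111029545952272629331410685371368937414549505932390501294627142538035362046076672190414050776879762897311436328981633960362094674834021295032253543471220294178032213612864691394321331603644168038671244661051217160712994991767516657320498150786269184859425636005042953396565184497528616653434890810102374727125802006388416800)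

noncomputable def t5 : Tre := Helper55.PC.toT t5n

theorem ok5 : chk K t5 l8 = true :=
  Helper55.PC.chkN_sound K t5n l8 (by decide +kernel)

open Helper55.PC in
noncomputable def t6n : Helper55.PC.Ten :=
  (r
  2501055848830691877136074596485869895131194190030990237483330167032395511351852269773814399207459122486287994501389567742638935881544392557923069814915079990800070607602079223343075126998494850971625043937792508831330422734582614941053059467252419220473957783810768871616662623961507586537226470835681961511618088943473972834778597884579555860228624062616792355903768510362781138749482209173120729936538278365273381215040577083029088343374122246112129255936653173721965893921995878610567791103011169100147446997865139409716221319862978517879403187430523305189036778323189430489136327149439672153341895658447007691978458573150618322015971189505)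

noncomputable def t6 : Tre := Helper55.PC.toT t6n

theorem ok6 : chk K t6 r4 = true :=
  Helper55.PC.chkN_sound K t6n r4 (by decide +kernel)

open Helper55.PC in
noncomputable def t7n : Helper55.PC.Ten :=
  (r
  5498725492828276921631078204740026570536621226376766165291725165393619778342384972135178663765612394343129119109274104376982325617150237719149080204309349223874256506720123468089226979778179757044411699139402353433443746434156586921651884451222889193610)

noncomputable def t7 : Tre := Helper55.PC.toT t7n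

theorem ok7 : chk K t7 r3 = true :=
  Helper55.PC.chkN_sound K t7n r3 (by decide +kernel)

open Helper55.PC in
noncomputable def t8n : Helper55.PC.Ten :=
  (r
  71009347518981041123417183794728991032914119705083090584449683038906202845329007103139180289503313997786014636067813057356833268588234394683221223037261946060848281642939240672109870009726539380389300283818297308598141453723077582517804563947153640425091117621046255740630082599675636154268205069274838496395270184860299763203077989626648021364815510429891955667892603170989478851093138450961076617295816226090844119798894034577755737468079095125448710684750825162264146895956960371232082515940822424635104376888409151981445617010811755629804533070397161386830614154417160502188968852233785580638872719496221303585)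

noncomputable def t8 : Tre := Helper55.PC.toT t8n

theorem ok8 : chk K t8 l10 = true :=
  Helper55.PC.chkN_sound K t8n l10 (by decide +kernel)

open Helper55.PC in
noncomputable def t9n : Helper55.PC.Ten :=
  (r
  504961045229133814359076082110110069253878836589309871005395085993582345140591635482409092251322364508700703063555963637110926046813159441260472724489538459415470460534045879477407937944540556720237832665848530736097500584269880463200517104492958513962616695183777494130402676930692886865014550469081533062222418220233988866001769638096959255054263471636229017747716420435209533844432566114849182255713084968294832590798865646232662427344606083074029987956966806805417004098305659018341646459778013800421879613380509552309637099742383894704765778190912787569702319478813625100033236096075891403442248894508639199521)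

noncomputable def t9 : Tre := Helper55.PC.toT t9n

theorem ok9 : chk K t9 l11 = true :=
  Helper55.PC.chkN_sound K t9n l11 (by decide +kernel)

open Helper55.PC in
noncomputable def t10n : Helper55.PC.Ten :=
  (r
  9149752943574377755653987316886575583044528100051884398367056207287715200785257565458404409714923175706975461773744942424187119291652902040604612320046463525134488475825452633496890263215354314247324650779728968644051494780969785933416601244131009940261493758869287124458636213998614465824596808041073382263961892512182495556953727846435810568494839986343549634669625906959923684280384699835538966148332654437079981360842277978349025234360211474864231338024351660620779077783241931606247265535854896940120841803939452098457877829113277266830923191600466208124323978602673201488550594600702409785763551120712448)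

noncomputable def t10 : Tre := Helper55.PC.toT t10n

theorem ok10 : chk K t10 l12 = true :=
  Helper55.PC.chkN_sound K t10n l12 (by decide +kernel)

open Helper55.PC in
noncomputable def t11n : Helper55.PC.Ten :=
  (r
  25856664053508987247850647679857649081408465952591497156473558204838239394734172721086107231953357292707659530672350840395082491077334467365851248393920010811982838898662173136152521274139718800910904589126972210824632615425245213759966396436643421724617684149804442041218849577506190107479160451985603658597119257205974200424874322199655074992509280940076101560920856624537890948480061894371213945778933946017618373004554060280073883957152005549761799610786309419134434515766425425498835530680102669157018917312143616)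

noncomputable def t11 : Tre := Helper55.PC.toT t11n

theorem ok11 : chk K t11 l13 = true :=
  Helper55.PC.chkN_sound K t11n l13 (by decide +kernel)

open Helper55.PC in
noncomputable def t12n : Helper55.PC.Ten :=
  (q
  1843036300245751022274314391269914609592429481911082983209959309111210476665871599458391894657497709663744092967839940674240687174565566716915733972375618765442908173
  (r
  14584730710348832477841975929126887753384108318821980729490146890862707750372038066409151337955623628756512189611184438429214286306080118941229431093138073749030519006354512189345895658570824845642003603284139037520095211491764489562741898252939608214599040376417985589229576133176603972251864711858743807142436358992926507504188875765719337)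
  (r
  62640941348992654865604995900502924063745340288279825268371128064005390522403460975135677651540641817896122235336896897739701417081710032083021321805514465241283967285403049628628557020894423674922498357676523391831996036436547941887987002303119810062473841939605426333313313827025229826653904990574449489147605060917872977550932745099924628784292105))

noncomputable def t12 : Tre := Helper55.PC.toT t12n

theorem ok12 : chk K t12 l17 = true :=
  Helper55.PC.chkN_sound K t12n l17 (by decide +kernel)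

open Helper55.PC in
noncomputable def t13n : Helper55.PC.Ten :=
  (r
  325250362982038949434358883719010323859728551029630239755485706761710549396416263891644467596840651718492254934061488161634792549730801657230591365992044658467551643124089027287260104469026372066707503151473469416253345654046223616453302278995444434314969503333727409742480417918225102716316322481772402301714155971166139089665913420899789321164708863152228680444662388401186764235017)

noncomputable def t13 : Tre := Helper55.PC.toT t13n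

theorem ok13 : chk K t13 l18 = true :=
  Helper55.PC.chkN_sound K t13n l18 (by decide +kernel)

open Helper55.PC in
noncomputable def t14n : Helper55.PC.Ten :=
  (r
  369013221271545811288078685415262598478528526415957635755134264475561220843998351776355574701756810092168688104669737624087421161706704898680269136917421397713034511525943014359900425770876811977652155119336891733229759367930940691247499515190293516776540233866)

noncomputable def t14 : Tre := Helper55.PC.toT t14n

theorem ok14 : chk K t14 r9 = true :=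
  Helper55.PC.chkN_sound K t14n r9 (by decide +kernel)

theorem cl0 : Clo K (Helper55.TR.GT 1 Helper55.TR.BrU) r7 :=
  .q [n0,n0,n0,n0,n0,n1,n0,n0,n0,n0,n0,m1,n1] (e' := [n0,n0,n0,n0,n0,m1,n0,n0,n0,n0,n0,n1,m1]) (.p true [1,0,-1,1] [1] (⟨0,
  [(19,0),(7,0)]⟩,⟨0,[(5,0)]⟩) .k 1 (⟨0,[]⟩,⟨0,[]⟩) .k (.r (-1) ⟨1,[(3,0),(4,0),(0,1),(4,0),(10,0),
  (4,0)]⟩ ⟨0,[(16,0),(0,0),(11,0)]⟩)) (by decide +kernel) (by decide +kernel) (.t t5 ok5) (.h
  (Helper55.TR.GT.lJ Helper55.CD.Dm1_1_c6u_59_0.g 204771315852611018300579031101876022889152430910444159724993683827370726148860378107967986080793636947677312322745613116686220974242518752100480976899 (by decide +kernel)))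

theorem cl1 : Clo K (Helper55.TR.GT 1 Helper55.TR.BrU) r6 :=
  .q [n0,n1,m1,n0,n0,n0,n0,n1,n1,n0,n0,n0,n1] (e' := [n0,m1,n1,n0,n0,n0,n0,m1,m1,n0,n0,n0,m1]) (.p true [0,0,0,1] [] (⟨0,
  [(18,0)]⟩,⟨0,[(19,0)]⟩) .k 0 (⟨0,[]⟩,⟨0,[]⟩) .k .k) (by decide +kernel) (by decide +kernel) (.t
  t4 ok4) cl0

theorem cl2 : Clo K (Helper55.TR.GT 1 Helper55.TR.BrU) r5 :=
  .q [n0,n0,m1,n0,n0,n0,m1,n0,n1,n0,n0,m1,n1] (e' := [n0,n0,n1,n0,n0,n0,n1,n0,m1,n0,n0,n1,m1]) (.p true [1,0,-1,1] [1]
  (⟨0,[(17,0),(7,0)]⟩,⟨0,[(3,0)]⟩) .k 1 (⟨0,[]⟩,⟨0,[]⟩) .k (.r (-1) ⟨1,[(1,0),(4,0),(0,1),(4,0),(10,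
  0),(4,0)]⟩ ⟨0,[(14,0),(0,0),(11,0)]⟩)) (by decide +kernel) (by decide +kernel) (.t t3 ok3) cl1

theorem cl3 : Clo K (Helper55.TR.GT 1 Helper55.TR.BrU) l4 :=
  .q [n0,n0,n0,n0,n0,n1,n0,n0,n0,n0,n0,n0,m1] (e' := [n0,n0,n0,n0,n0,m1,n0,n0,n0,n0,n0,n0,n1]) (.ed true [1,-1,0,1] .k)
  (by decide +kernel) (by decide +kernel) (.t t2 ok2) cl2

theorem cl4 : Clo K (Helper55.TR.GT 1 Helper55.TR.BrU) l3 :=
  .q [n0,n0,m1,n0,n1,n0,n1,n0,m1,n0,n0,n1,m1] (e' := [n0,n0,n1,n0,m1,n0,m1,n0,n1,n0,n0,m1,n1]) (.p false [1,0,-1,1] [1]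
  (⟨0,[(15,0),(7,0)]⟩,⟨0,[(1,0)]⟩) .k 1 (⟨0,[]⟩,⟨0,[]⟩) .k (.r (-1) ⟨1,[(4,0),(0,1),(0,0),(7,0),(6,
  0),(4,0)]⟩ ⟨0,[(12,0),(0,0),(11,0)]⟩)) (by decide +kernel) (by decide +kernel) cl3 (.t t6 ok6)

theorem cl5 : Clo K (Helper55.TR.GT 1 Helper55.TR.BrU) l2 :=
  .q [n0,n0,n0,n0,n0,n0,n0,n0,n1,n0,m1,n0,n1] (e' := [n0,n0,n0,n0,n0,n0,n0,n0,m1,n0,n1,n0,m1]) (.p true [0,0,0,1] [1] (⟨0,
  [(14,0)]⟩,⟨0,[(15,0)]⟩) .k 1 (⟨0,[]⟩,⟨0,[]⟩) .k .k) (by decide +kernel) (by decide +kernel) cl4
  (.t t7 ok7)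

theorem cl6 : Clo K (Helper55.TR.GT 1 Helper55.TR.BrU) r17 :=
  .i [n0,n0,n1,n0,m1,n1,m1,n0,n2] (e' := [n1,n0,m1,n0,n1,m1,n1,n0,m2]) (by decide +kernel) (by decide +kernel)
  (.t t13 ok13) (.h (Helper55.TR.GT.lb Helper55.CD.Dm1_1_c6u_59_1.g 117273178930253531093793199085811798552379417375725975962489782778064376617824190034293978545866210470774313743194447156405684629951036620501137558996086827764972243656708 (by decide +kernel)))

theorem cl7 : Clo K (Helper55.TR.GT 1 Helper55.TR.BrU) l16 :=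
  .i [n0,n0,m1,m1,n1,n0,n0,m1,n0,n2] (e' := [n1,n0,n1,n1,m1,n0,n0,n1,n0,m2]) (by decide +kernel)
  (by decide +kernel) (.t t12 ok12) cl6

theorem cl8 : Clo K (Helper55.TR.GT 1 Helper55.TR.BrU) l15 :=
  .i [n0,n1,n1,n0,m1,n0,n0,n1,n0,m2] (e' := [n1,m1,m1,n0,n1,n0,n0,m1,n0,n2]) (by decide +kernel)
  (by decide +kernel) cl7 (.h (Helper55.TR.GT.lJ Helper55.CD.Dm1_1_c6u_59_2.g 250719246526108455912443336841233955822392458771323668947086955526771949183723542309477817521234965118754662706158970461935532483983481612429415509888215800478023286786 (by decide +kernel)))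

theorem cl9 : Clo K (Helper55.TR.GT 1 Helper55.TR.BrU) l14 :=
  .q [n0,n0,n0,n0,n0,n0,n1,n1,m2,m2,n1,n1,m2] (e' := [n0,n0,n0,n0,n0,n0,m1,m1,n2,n2,m1,m1,n2]) (.p false [0,0,0,1] [1,
  0,1,-1] (⟨0,[(20,0)]⟩,⟨0,[(21,0)]⟩) .k 2 (⟨0,[(21,0),(5,0)]⟩,⟨0,[(6,0)]⟩) .k (.r (-1) ⟨1,[(9,0),
  (0,3),(0,0),(14,1)]⟩ ⟨1,[(14,0),(0,0),(1,2),(0,2),(11,1)]⟩)) (by decide +kernel)
  (by decide +kernel) cl8 (.h (Helper55.TR.GT.lb Helper55.CD.Dm1_1_c6u_59_3.g 81616825691810808003629744950905365432514583500301559592473364752459786470729368349358189594 (by decide +kernel)))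

theorem cl10 : Clo K (Helper55.TR.GT 1 Helper55.TR.BrU) r13 :=
  .q [n0,n0,n0,m1,n0,n0,m1,m1,n2,n2,m1,m1,n2] (e' := [n0,n0,n0,n1,n0,n0,n1,n1,m2,m2,n1,n1,m2]) (.p true [0,0,0,1] [1,
  0,1,-1] (⟨0,[(19,0)]⟩,⟨0,[(20,0)]⟩) .k 2 (⟨0,[(20,0),(5,0)]⟩,⟨0,[(5,0)]⟩) .k (.r (-1) ⟨1,[(8,0),
  (0,3),(0,0),(14,1)]⟩ ⟨1,[(13,0),(0,0),(1,2),(0,2),(11,1)]⟩)) (by decide +kernel)
  (by decide +kernel) cl9 (.h (Helper55.TR.GT.l1 Helper55.CD.Dm1_1_c6u_59_4.g 115425329138577443438999880417582396403693767597798239263051434357578351893155514316318610893659581842462725281420953392773782219337199153214797241160310842245276674 (by decide +kernel)))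

theorem cl11 : Clo K (Helper55.TR.GT 1 Helper55.TR.BrU) r12 :=
  .q [n0,n0,n0,n0,n0,n1,n0,n0,n0,n0,n0,n1,m1] (e' := [n0,n0,n0,n0,n0,m1,n0,n0,n0,n0,n0,m1,n1]) (.p false [0,0,-1,1] [] (⟨0,
  [(4,0)]⟩,⟨0,[(19,0),(5,0)]⟩) .k 0 (⟨0,[]⟩,⟨0,[]⟩) .k (.r (-1) ⟨1,[(7,0),(0,1),(0,0),(7,0),(6,0),
  (4,0)]⟩ ⟨0,[(15,0),(0,0),(11,0)]⟩)) (by decide +kernel) (by decide +kernel) (.t t11 ok11) cl10

theorem cl12 : Clo K (Helper55.TR.GT 1 Helper55.TR.BrU) r11 :=
  .q [n0,n0,n0,n0,n0,n2,n0,n0,n0,n0,m1,n0,n1] (e' := [n0,n0,n0,n0,n0,m2,n0,n0,n0,n0,n1,n0,m1]) (.p true [0,0,0,1] [1] (⟨0,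
  [(17,0)]⟩,⟨0,[(18,0)]⟩) .k 1 (⟨0,[]⟩,⟨0,[]⟩) .k .k) (by decide +kernel) (by decide +kernel) (.t
  t10 ok10) cl11

theorem cl13 : Clo K (Helper55.TR.GT 1 Helper55.TR.BrU) r10 :=
  .q [n0,n0,m1,n0,n0,n0,m1,n0,n1,n0,n0,m1,n1] (e' := [n0,n0,n1,n0,n0,n0,n1,n0,m1,n0,n0,n1,m1]) (.p true [0,0,-1,1] []
  (⟨0,[(2,0)]⟩,⟨0,[(17,0),(5,0)]⟩) .k 0 (⟨0,[]⟩,⟨0,[]⟩) .k (.r (-1) ⟨1,[(5,0),(0,1),(0,0),(7,0),(6,
  0),(4,0)]⟩ ⟨0,[(13,0),(0,0),(11,0)]⟩)) (by decide +kernel) (by decide +kernel) (.t t9 ok9) cl12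

theorem cl14 : Clo K (Helper55.TR.GT 1 Helper55.TR.BrU) l9 :=
  .q [n0,m1,n0,m1,n0,n0,n0,n0,m1,m1,n1,n0,m1] (e' := [n0,n1,n0,n1,n0,n0,n0,n0,n1,n1,m1,n0,n1]) (.p false [0,0,0,1] [1]
  (⟨0,[(15,0)]⟩,⟨0,[(16,0)]⟩) .k 1 (⟨0,[]⟩,⟨0,[]⟩) .k .k) (by decide +kernel) (by decide +kernel)
  (.t t8 ok8) cl13

theorem cl15 : Clo K (Helper55.TR.GT 1 Helper55.TR.BrU) r2 :=
  .q [n0,n0,n0,n0,n0,n0,n0,n0,n1,n0,m1,n0,n1] (e' := [n0,n0,n0,n0,n0,n0,n0,n0,m1,n0,n1,n0,m1]) (.p true [0,0,0,1] [1] (⟨0,
  [(14,0)]⟩,⟨0,[(15,0)]⟩) .k 1 (⟨0,[]⟩,⟨0,[]⟩) .k .k) (by decide +kernel) (by decide +kernel) cl14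
  (.t t14 ok14)

theorem cl16 : Clo K (Helper55.TR.GT 1 Helper55.TR.BrU) r1 :=
  .q [n0,n0,n0,n0,n0,n0,n0,n0,n0,n0,n0,n1,m1] (e' := [n0,n0,n0,n0,n0,n0,n0,n0,n0,n0,n0,m1,n1]) (.ed true [1,0,-1,1] (.r
  (-1) ⟨1,[(2,0),(0,1),(0,0),(7,0),(6,0),(4,0)]⟩ ⟨0,[(10,0),(0,0),(11,0)]⟩)) (by decide +kernel)
  (by decide +kernel) cl5 cl15

theorem cl17 : Clo K (Helper55.TR.GT 1 Helper55.TR.BrU) r0 :=
  .i [n1,n0,m2,m2,n1,n0,n0,m1,n0,m1] (e' := [n0,n0,n2,n2,m1,n0,n0,n1,n0,n1]) (by decide +kernel)
  (by decide +kernel) (.t t1 ok1) cl16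

theorem cl18 : Clo K (Helper55.TR.GT 1 Helper55.TR.BrU) base :=
  .q [n0,m1,n0,n0,n0,n0,n0,n0,m1,m1,n1,n0,m1] (e' := [n0,n1,n0,n0,n0,n0,n0,n0,n1,n1,m1,n0,n1]) (.p false [0,0,0,1] [1]
  (⟨0,[(11,0)]⟩,⟨0,[(12,0)]⟩) .k 1 (⟨0,[]⟩,⟨0,[]⟩) .k .k) (by decide +kernel) (by decide +kernel)
  (.t t0 ok0) cl17

theorem g : Helper55.TR.GT 1 Helper55.TR.BrU base :=
  Helper55.TR.GT.of cl18

end Helper55.CD.Dm1_1_c6u_59
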