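import Pool.Agent.Helper55.CE.H_m1_1_c6u_60_b0
import Pool.Agent.Helper55.CE.H_m1_1_c6u_60_b1
import Pool.Agent.Helper55.TR.Num
import Pool.Agent.Helper81.PC.Sound
import Pool.Agent.Helper55.TR.Enc2

set_option autoImplicit false
set_option linter.all false

namespace Helper55.CD.Dm1_1_c6u_60

open Helper25.KG Helper25.KW Helper55.KE Helper11.CT Helper55.TR.Nm

noncomputable def K : Cls :=
  Helper55.TR.KT 1

noncomputable def base : List Con :=
  [(true,[n0,n0,n0,m1]),
  (true,[n0,m2,n0,n0,n1]),
  (false,[n0,n0,n0,n0,n0,n0,n0,n0,n0,n0,n0,n1]),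
  (true,[m1,n1]),
  (true,[n0,n1,n0,n1]),
  (false,[n0,n0,n1,n0,n0,n0,m1,n0,n0,n0,n0,m1]),
  (false,[n0,n0,n1,n0,n0,n0,n1,n0,n0,n0,m1,n1]),
  (false,[n0,n0,n0,n0,n0,m1,n0,n0,n0,n0,n0,n1]),
  (false,[n0,n0,n0,n0,n0,n0,n0,n0,n0,n0,n1,m1]),
  (true,[n1,n1,n0,n0,n0,n0,n0,n0,n0,n1]),
  (true,[n0,n0,m2,n0,n1]),
  (false,[n0,n0,m2,n0,n1,n0,n0,n0,n0,n0,m1]),
  (false,[n0,n0,n0,n0,n0,m2,n0,n0,n0,n0,n1,m1]),
  (false,[n0,n0,m2,n0,n1,n0,n1,n0,n0,n0,m1,n1]),
  (false,[n0,n0,n0,n0,n0,m1,n0,n0,n0,n0,n1,m1]),
  (false,[n0,n0,n0,n0,n0,n0,n0,n0,n0,n0,n0,n0,n1]),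
  (false,[n0,n1,n0,n0,n0,n0,n1,n1,n0,n0,n0,n1]),
  (false,[n0,n0,n0,n0,n0,n0,m1,m1,n0,n0,n0,m1]),
  (false,[n0,n0,n0,n0,n0,n0,n0,n0,n1,n0,n0,n0,n1]),
  (false,[n0,n0,n0,n0,n0,n0,n0,n0,n0,n0,n1,n0,m1]),
  (false,[n0,m1,n0,n0,n0,n0,m1,m1,n0,n0,n1,m1]),
  (true,[n0,m1,n1,n0,n0,n0,n0,m1]),
  (true,[n0,m1,m2,m1,n1,n0,n0,m1]),
  (false,[n0,n1,n0,n1,n0,n0,n1,n1,n0,n0,n0,n1]),
  (false,[n0,n0,n2,n0,m1,n0,m2,n0,n0,n0,n1,m2]),
  (false,[n0,n0,n1,n0,n0,n0,n1,n0,n0,n0,n0,n1]),
  (false,[n0,n0,n0,n1,n0,n0,n0,n0,m1,m1,n0,n0,m1]),
  (true,[n0,m1,n0,m1,n0,n0,n0,n0,n0,m1]),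
  (true,[n0,n0,m2,m2,n1,n0,n0,m2]),
  (false,[n0,n0,n0,n0,n1,n0,n0,n0,n0,n0,m2]),
  (false,[n0,n1,n0,m1,n0,n0,n1,n1,n0,n0,m1,n1]),
  (true,[n1,m1,n1,n1,n0,n0,n0,m1]),
  (true,[n1,n0,n0,n1,n0,n0,n0,n1]),
  (true,[n1,m1,n0,n0,n0,n0,n0,n1]),
  (false,[n0,n1,n0,n0,n0,n0,m1,m1,n0,n0,n0,m1]),
  (true,[n1,m1,n0,n1,n0,n0,n0,n1]),
  (true,[n0,n0,n0,n0,n0,n1]),
  (true,[n1,m2,n1]),
  (false,[n0,n0,m2,n0,n1,n0,n1,n0,n0,n0,n0,n1]),
  (false,[n0,n0,n0,n2,n0,n0,m1,m1,n0,n0,n0,m1]),
  (false,[n0,n0,n0,n0,n0,m1,n0,n0,n0,n0,n1,n0,m1]),
  (false,[n0,n0,n0,n0,n0,m2,n0,n0,n0,n0,n1]),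
  (false,[n0,n0,n0,n0,n0,m1,n0,n0,n0,n0,n1]),
  (false,[n0,n0,n0,n1,n0,n0,m1,m1,n0,n0,n0,m1])]

noncomputable def l0 : List Con := (false, [n0,m1,n0,n0,n0,n0,n0,n0,m1,m1,n1,n0,m1]) :: base

noncomputable def r0 : List Con := (false, [n0,n1,n0,n0,n0,n0,n0,n0,n1,n1,m1,n0,n1]) :: base

noncomputable def l1 : List Con := (false, [n0,n0,n0,n0,n0,n0,n0,n0,n0,n0,n1,m1,m1]) :: r0

noncomputable def r1 : List Con := (false, [n0,n0,n0,n0,n0,n0,n0,n0,n0,n0,m1,n1,n1]) :: r0

noncomputable def l2 : List Con := (false, [n0,n1,n0,n0,n0,n0,n1,n1,n1,n1,n0,n1,n1]) :: l1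

noncomputable def r2 : List Con := (false, [n0,m1,n0,n0,n0,n0,m1,m1,m1,m1,n0,m1,m1]) :: l1

noncomputable def l3 : List Con := (false, [n0,n0,n0,n0,n0,n0,n0,n0,n1,n0,m1,n0,n1]) :: r2

noncomputable def r3 : List Con := (false, [n0,n0,n0,n0,n0,n0,n0,n0,m1,n0,n1,n0,m1]) :: r2

noncomputable def l4 : List Con := (false, [n0,n0,n0,n0,n0,m1,n0,n0,n0,n0,n0,n0,n1]) :: l3

noncomputable def r4 : List Con := (false, [n0,n0,n0,n0,n0,n1,n0,n0,n0,n0,n0,n0,m1]) :: l3

noncomputable def l5 : List Con := (true, [n0,n0,m1,n0,n0,m1,m2,n0,n1]) :: l4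

noncomputable def r5 : List Con := (true, [n1,n0,n1,n0,n0,n1,n2,n0,m1]) :: l4

noncomputable def l6 : List Con := (false, [n0,n0,n0,n0,n0,n2,n0,n0,n0,n0,m1,n0,n1]) :: l5

noncomputable def r6 : List Con := (false, [n0,n0,n0,n0,n0,m2,n0,n0,n0,n0,n1,n0,m1]) :: l5

noncomputable def l7 : List Con := (false, [n0,n0,n0,n0,n0,n0,n1,n1,m1,m1,n1,n1,m1]) :: l6

noncomputable def r7 : List Con := (false, [n0,n0,n0,n0,n0,n0,m1,m1,n1,n1,m1,m1,n1]) :: l6

noncomputable def l8 : List Con := (false, [n0,n0,n0,n0,n0,n1,n0,n0,n0,n0,n0,n1,m1]) :: r7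

noncomputable def r8 : List Con := (false, [n0,n0,n0,n0,n0,m1,n0,n0,n0,n0,n0,m1,n1]) :: r7

noncomputable def l9 : List Con := (false, [n0,n0,n2,n0,m1,n0,m1,n0,n1,n0,n0,m1,n1]) :: r8

noncomputable def r9 : List Con := (false, [n0,n0,m2,n0,n1,n0,n1,n0,m1,n0,n0,n1,m1]) :: r8

noncomputable def l10 : List Con := (false, [n0,n0,n0,m2,n0,n0,n0,n0,n1,n1,n0,n0,n1]) :: r9

noncomputable def r10 : List Con := (false, [n0,n0,n0,n2,n0,n0,n0,n0,m1,m1,n0,n0,m1]) :: r9

noncomputable def l11 : List Con := (false, [n0,n0,n0,m2,n0,n0,n0,n0,n1,n1,n0,n0,n1]) :: r6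

noncomputable def r11 : List Con := (false, [n0,n0,n0,n2,n0,n0,n0,n0,m1,m1,n0,n0,m1]) :: r6

noncomputable def l12 : List Con := (false, [n0,n0,m2,n0,n1,n0,n1,n0,m1,n0,n0,n1,m1]) :: r11

noncomputable def r12 : List Con := (false, [n0,n0,n2,n0,m1,n0,m1,n0,n1,n0,n0,m1,n1]) :: r11

noncomputable def l13 : List Con := (false, [n0,n0,n0,n0,n0,n2,n0,n0,n0,n0,n0,n0,m1]) :: l12

noncomputable def r13 : List Con := (false, [n0,n0,n0,n0,n0,m2,n0,n0,n0,n0,n0,n0,n1]) :: l12

noncomputable def l14 : List Con := (true, [n0,n0,n1,n0,n0,n1,n1,n0,m1]) :: r13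

noncomputable def r14 : List Con := (true, [n1,n0,m1,n0,n0,m1,m1,n0,n1]) :: r13

noncomputable def l15 : List Con := (false, [n0,n0,n0,m1,n0,n0,n1,n1,m1,m1,n0,n1,m1]) :: l14

noncomputable def r15 : List Con := (false, [n0,n0,n0,n1,n0,n0,m1,m1,n1,n1,n0,m1,n1]) :: l14

noncomputable def l16 : List Con := (true, [n0,n1,m1,n0,n0,n0,n0,n0,n0,m2]) :: r15

noncomputable def r16 : List Con := (true, [n1,m1,n1,n0,n0,n0,n0,n0,n0,n2]) :: r15

noncomputable def l17 : List Con := (false, [n0,n0,n1,n0,n0,n0,n1,n0,m1,n0,n0,n1,m1]) :: r16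

noncomputable def r17 : List Con := (false, [n0,n0,m1,n0,n0,n0,m1,n0,n1,n0,n0,m1,n1]) :: r16

noncomputable def l18 : List Con := (false, [n0,n0,n0,m2,n0,n0,n1,n1,m1,m1,n0,n1,m1]) :: l17

noncomputable def r18 : List Con := (false, [n0,n0,n0,n2,n0,n0,m1,m1,n1,n1,n0,m1,n1]) :: l17

noncomputable def l19 : List Con := (false, [n0,n0,m1,n0,n0,n0,m2,n0,m1,n0,n1,m2,m1]) :: r18

noncomputable def r19 : List Con := (false, [n0,n0,n1,n0,n0,n0,n2,n0,n1,n0,m1,n2,n1]) :: r18

noncomputable def l20 : List Con := (true, [n0,n1,n0,n0,n0,n0,n0,m1,n0,m1]) :: l19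

noncomputable def r20 : List Con := (true, [n1,m1,n0,n0,n0,n0,n0,n1,n0,n1]) :: l19

noncomputable def l21 : List Con := (false, [n0,n0,n0,n0,n0,n0,n0,n0,n0,n0,n0,m1,n1]) :: r20

noncomputable def r21 : List Con := (false, [n0,n0,n0,n0,n0,n0,n0,n0,n0,n0,n0,n1,m1]) :: r20

noncomputable def l22 : List Con := (false, [n0,n0,n0,m1,n0,n0,n1,n1,m1,m1,n1,n1,m1]) :: l21

noncomputable def r22 : List Con := (false, [n0,n0,n0,n1,n0,n0,m1,m1,n1,n1,m1,m1,n1]) :: l21

noncomputable def l23 : List Con := (true, [n1,n1,m1,n0,n0,n0,n0,n1,n0,m1]) :: l22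

noncomputable def r23 : List Con := (true, [n0,m1,n1,n0,n0,n0,n0,m1,n0,n1]) :: l22

noncomputable def l24 : List Con := (false, [n0,m1,n0,m2,n0,n0,n0,n0,m1,m1,n1,n0,m1]) :: r23

noncomputable def r24 : List Con := (false, [n0,n1,n0,n2,n0,n0,n0,n0,n1,n1,m1,n0,n1]) :: r23

noncomputable def l25 : List Con := (false, [n0,n0,n0,n0,n0,n1,n0,n0,n0,n0,n0,n1,m1]) :: r24

noncomputable def r25 : List Con := (false, [n0,n0,n0,n0,n0,m1,n0,n0,n0,n0,n0,m1,n1]) :: r24

noncomputable def l26 : List Con := (true, [n1,n0,m1,m1,n0,n0,n0,n1,n0,m2]) :: r25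

noncomputable def r26 : List Con := (true, [n0,n0,n1,n1,n0,n0,n0,m1,n0,n2]) :: r25

noncomputable def l27 : List Con := (true, [n1,n0,n0,n0,n0,n0,n0,m1,n0,m2]) :: l26

noncomputable def r27 : List Con := (true, [n0,n0,n0,n0,n0,n0,n0,n1,n0,n2]) :: l26

noncomputable def l28 : List Con := (true, [n1,n0,n1,n1,n0,n0,n0,m1,n0,n2]) :: r27

noncomputable def r28 : List Con := (true, [n0,n0,m1,m1,n0,n0,n0,n1,n0,m2]) :: r27

noncomputable def l29 : List Con := (true, [n0,n0,n1,n0,n0,n1,n1,n0,m2]) :: l28

noncomputable def r29 : List Con := (true, [n1,n0,m1,n0,n0,m1,m1,n0,n2]) :: l28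

noncomputable def l30 : List Con := (true, [n0,n1,m1,m1,n0,n0,n0,n1,n0,m1]) :: r29

noncomputable def r30 : List Con := (true, [n1,m1,n1,n1,n0,n0,n0,m1,n0,n1]) :: r29

noncomputable def l31 : List Con := (false, [n0,n0,n0,n0,n0,n0,n1,n1,m1,m1,n1,n1,m1]) :: r26

noncomputable def r31 : List Con := (false, [n0,n0,n0,n0,n0,n0,m1,m1,n1,n1,m1,m1,n1]) :: r26

noncomputable def l32 : List Con := (false, [n0,n0,n0,n0,n0,n2,n0,n0,n0,n0,n0,m1]) :: l31

noncomputable def r32 : List Con := (false, [n0,n0,n0,n0,n0,m2,n0,n0,n0,n0,n0,n1]) :: l31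

noncomputable def l33 : List Con := (true, [n1,n0,m1,m1,n0,n0,n0,n2,n0,m1]) :: r19

noncomputable def r33 : List Con := (true, [n0,n0,n1,n1,n0,n0,n0,m2,n0,n1]) :: r19

noncomputable def l34 : List Con := (true, [n1,n0,n1,n1,n0,n0,n0,m2,n0,n1]) :: l33

noncomputable def r34 : List Con := (true, [n0,n0,m1,m1,n0,n0,n0,n2,n0,m1]) :: l33

noncomputable def l35 : List Con := (false, [n0,n0,n0,n0,n0,n1,n0,n0,n0,n0,m1,n1,n1]) :: r33

noncomputable def r35 : List Con := (false, [n0,n0,n0,n0,n0,m1,n0,n0,n0,n0,n1,m1,m1]) :: r33

noncomputable def l36 : List Con := (false, [n0,n0,n2,n0,m1,n0,m2,n0,m1,n0,n1,m2,m1]) :: l35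

noncomputable def r36 : List Con := (false, [n0,n0,m2,n0,n1,n0,n2,n0,n1,n0,m1,n2,n1]) :: l35

noncomputable def l37 : List Con := (true, [n0,n1,n0,n0,n0,n0,n0,m1,n0,m1]) :: l36

noncomputable def r37 : List Con := (true, [n1,m1,n0,n0,n0,n0,n0,n1,n0,n1]) :: l36

noncomputable def l38 : List Con := (false, [n0,n0,n0,n0,n0,n1,n0,n0,n0,n0,n0,n1,m1]) :: r36

noncomputable def r38 : List Con := (false, [n0,n0,n0,n0,n0,m1,n0,n0,n0,n0,n0,m1,n1]) :: r36

noncomputable def l39 : List Con := (false, [n0,n0,n0,n0,n0,n0,n0,n0,n0,n0,n0,m1,n1]) :: l38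

noncomputable def r39 : List Con := (false, [n0,n0,n0,n0,n0,n0,n0,n0,n0,n0,n0,n1,m1]) :: l38

noncomputable def l40 : List Con := (false, [n0,n0,n0,n0,n0,n1,n0,n0,n0,n0,n0,m1,n1]) :: r39

noncomputable def r40 : List Con := (false, [n0,n0,n0,n0,n0,m1,n0,n0,n0,n0,n0,n1,m1]) :: r39

noncomputable def l41 : List Con := (false, [n0,n0,n0,n0,n0,n0,n1,n1,m1,m1,n1,n1,m1]) :: r38

noncomputable def r41 : List Con := (false, [n0,n0,n0,n0,n0,n0,m1,m1,n1,n1,m1,m1,n1]) :: r38

noncomputable def l42 : List Con := (false, [n0,n0,n0,n0,n0,n2,n0,n0,n0,n0,n0,m1]) :: l41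

noncomputable def r42 : List Con := (false, [n0,n0,n0,n0,n0,m2,n0,n0,n0,n0,n0,n1]) :: l41

noncomputable def l43 : List Con := (false, [n0,m1,n0,m2,n0,n0,n0,n0,m1,m1,n1,n0,m1]) :: r42

noncomputable def r43 : List Con := (false, [n0,n1,n0,n2,n0,n0,n0,n0,n1,n1,m1,n0,n1]) :: r42

noncomputable def l44 : List Con := (false, [n0,n0,n2,n0,m1,n0,m2,n0,m1,n0,n1,m2,m1]) :: r35

noncomputable def r44 : List Con := (false, [n0,n0,m2,n0,n1,n0,n2,n0,n1,n0,m1,n2,n1]) :: r35

noncomputable def l45 : List Con := (true, [n1,n1,n0,n0,n0,n0,n0,m1,n0,m1]) :: l44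

noncomputable def r45 : List Con := (true, [n0,m1,n0,n0,n0,n0,n0,n1,n0,n1]) :: l44

noncomputable def l46 : List Con := (false, [n0,n0,n0,n0,n0,n0,n0,n0,n0,n0,n0,m1,n1]) :: r44

noncomputable def r46 : List Con := (false, [n0,n0,n0,n0,n0,n0,n0,n0,n0,n0,n0,n1,m1]) :: r44

noncomputable def l47 : List Con := (false, [n0,n0,n0,n0,n0,n0,n1,n1,m1,m1,n1,n1,m1]) :: l46

noncomputable def r47 : List Con := (false, [n0,n0,n0,n0,n0,n0,m1,m1,n1,n1,m1,m1,n1]) :: l46

noncomputable def l48 : List Con := (false, [n0,n0,n0,n0,n0,n2,n0,n0,n0,n0,n0,m1]) :: l47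

noncomputable def r48 : List Con := (false, [n0,n0,n0,n0,n0,m2,n0,n0,n0,n0,n0,n1]) :: l47

noncomputable def l49 : List Con := (true, [n0,n0,n1,n1,n0,n0,n0,m2,n0,m1]) :: r14

noncomputable def r49 : List Con := (true, [n1,n0,m1,m1,n0,n0,n0,n2,n0,n1]) :: r14

noncomputable def l50 : List Con := (true, [n0,n1,n0,n0,n0,n0,n0,m1,n0,m1]) :: l49

noncomputable def r50 : List Con := (true, [n1,m1,n0,n0,n0,n0,n0,n1,n0,n1]) :: l49

noncomputable def l51 : List Con := (false, [n0,n0,m1,n0,n0,n0,m1,n0,n1,n0,n0,m1,n1]) :: r50

noncomputable def r51 : List Con := (false, [n0,n0,n1,n0,n0,n0,n1,n0,m1,n0,n0,n1,m1]) :: r50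

noncomputable def l52 : List Con := (true, [n1,n0,n0,n0,n0,n0,n0,m1,n0,m2]) :: l51

noncomputable def r52 : List Con := (true, [n0,n0,n0,n0,n0,n0,n0,n1,n0,n2]) :: l51

noncomputable def l53 : List Con := (true, [n0,n1,n0,n0,n0,n0,n0,n0,n0,n1]) :: r52

noncomputable def r53 : List Con := (true, [n1,m1,n0,n0,n0,n0,n0,n0,n0,m1]) :: r52

noncomputable def l54 : List Con := (false, [n0,n0,n0,n0,n0,n0,n0,n0,n0,n0,n0,m1,n1]) :: r53

noncomputable def r54 : List Con := (false, [n0,n0,n0,n0,n0,n0,n0,n0,n0,n0,n0,n1,m1]) :: r53

noncomputable def l55 : List Con := (false, [n0,n0,n1,n0,n0,n0,n1,n0,m1,n0,n1,n1,m1]) :: l54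

noncomputable def r55 : List Con := (false, [n0,n0,m1,n0,n0,n0,m1,n0,n1,n0,m1,m1,n1]) :: l54

noncomputable def l56 : List Con := (false, [n0,n0,n0,n0,n0,n1,n0,n0,n0,n0,n0,m1,n1]) :: r54

noncomputable def r56 : List Con := (false, [n0,n0,n0,n0,n0,m1,n0,n0,n0,n0,n0,n1,m1]) :: r54

noncomputable def l57 : List Con := (false, [n0,n0,n0,n0,n0,n2,n0,n0,n0,n0,m1,n0,n1]) :: r5

noncomputable def r57 : List Con := (false, [n0,n0,n0,n0,n0,m2,n0,n0,n0,n0,n1,n0,m1]) :: r5

noncomputable def l58 : List Con := (false, [n0,m1,n0,m1,n0,n0,n0,n0,m1,m1,n1,n0,m1]) :: r57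

noncomputable def r58 : List Con := (false, [n0,n1,n0,n1,n0,n0,n0,n0,n1,n1,m1,n0,n1]) :: r57

noncomputable def l59 : List Con := (false, [n0,n0,n2,n0,m1,n0,m1,n0,n1,n0,n0,m1,n1]) :: r58

noncomputable def r59 : List Con := (false, [n0,n0,m2,n0,n1,n0,n1,n0,m1,n0,n0,n1,m1]) :: r58

noncomputable def l60 : List Con := (false, [n0,n0,n0,n0,n0,n2,n0,n0,n0,n0,n0,n0,m1]) :: r59

noncomputable def r60 : List Con := (false, [n0,n0,n0,n0,n0,m2,n0,n0,n0,n0,n0,n0,n1]) :: r59

noncomputable def l61 : List Con := (false, [n0,n0,n0,m2,n0,n0,n1,n1,m1,m1,n0,n1,m1]) :: r60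

noncomputable def r61 : List Con := (false, [n0,n0,n0,n2,n0,n0,m1,m1,n1,n1,n0,m1,n1]) :: r60

noncomputable def l62 : List Con := (false, [n0,m1,n0,m2,n0,n0,n0,n0,m1,m1,n1,n0,m1]) :: r61

noncomputable def r62 : List Con := (false, [n0,n1,n0,n2,n0,n0,n0,n0,n1,n1,m1,n0,n1]) :: r61

noncomputable def l63 : List Con := (false, [n0,n0,n0,n0,n0,n0,n0,n0,n0,n0,n0,m1,n1]) :: l62

noncomputable def r63 : List Con := (false, [n0,n0,n0,n0,n0,n0,n0,n0,n0,n0,n0,n1,m1]) :: l62

noncomputable def l64 : List Con := (false, [n0,n0,n0,n0,n0,n1,n0,n0,n0,n0,n0,m1,n1]) :: r63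

noncomputable def r64 : List Con := (false, [n0,n0,n0,n0,n0,m1,n0,n0,n0,n0,n0,n1,m1]) :: r63

noncomputable def l65 : List Con := (false, [n0,n0,n0,m2,n0,n0,n0,n0,n1,n1,n0,n0,n1]) :: r64

noncomputable def r65 : List Con := (false, [n0,n0,n0,n2,n0,n0,n0,n0,m1,m1,n0,n0,m1]) :: r64

noncomputable def l66 : List Con := (false, [n0,n0,n0,n0,n0,n1,n0,n0,n0,n0,m1,n1,n1]) :: r65

noncomputable def r66 : List Con := (false, [n0,n0,n0,n0,n0,m1,n0,n0,n0,n0,n1,m1,m1]) :: r65

noncomputable def l67 : List Con := (true, [n1,n0,m3,m3,n1,n0,n0,n1,n0,n1]) :: l66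

noncomputable def r67 : List Con := (true, [n0,n0,n3,n3,m1,n0,n0,m1,n0,m1]) :: l66

noncomputable def l68 : List Con := (false, [n0,n0,n2,n0,m1,n0,m2,n0,m1,n0,n1,m2,m1]) :: r67

noncomputable def r68 : List Con := (false, [n0,n0,m2,n0,n1,n0,n2,n0,n1,n0,m1,n2,n1]) :: r67

noncomputable def l69 : List Con := (true, [n0,n1,n0,n0,n0,n0,n0,m1,n0,m1]) :: l68

noncomputable def r69 : List Con := (true, [n1,m1,n0,n0,n0,n0,n0,n1,n0,n1]) :: l68

noncomputable def l70 : List Con := (false, [n0,n0,n0,n0,n0,n0,n0,n0,n0,n0,n0,m1,n1]) :: r62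

noncomputable def r70 : List Con := (false, [n0,n0,n0,n0,n0,n0,n0,n0,n0,n0,n0,n1,m1]) :: r62

noncomputable def l71 : List Con := (false, [n0,n0,n0,n0,n0,n1,n0,n0,n0,n0,n0,n1,m1]) :: l70

noncomputable def r71 : List Con := (false, [n0,n0,n0,n0,n0,m1,n0,n0,n0,n0,n0,m1,n1]) :: l70

noncomputable def l72 : List Con := (false, [n0,n0,n0,m2,n0,n0,n0,n0,n1,n1,n0,n0,n1]) :: r71

noncomputable def r72 : List Con := (false, [n0,n0,n0,n2,n0,n0,n0,n0,m1,m1,n0,n0,m1]) :: r71

noncomputable def l73 : List Con := (false, [n0,n0,n0,n0,n0,m1,n0,n0,n0,n0,n1,m1,m1]) :: r72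

noncomputable def r73 : List Con := (false, [n0,n0,n0,n0,n0,n1,n0,n0,n0,n0,m1,n1,n1]) :: r72

noncomputable def l74 : List Con := (false, [n0,n0,n0,n0,n0,n0,n1,n1,m1,m1,n1,n1,m1]) :: l73

noncomputable def r74 : List Con := (false, [n0,n0,n0,n0,n0,n0,m1,m1,n1,n1,m1,m1,n1]) :: l73

noncomputable def l75 : List Con := (false, [n0,n0,n0,n0,n0,n2,n0,n0,n0,n0,n0,m1]) :: l74

noncomputable def r75 : List Con := (false, [n0,n0,n0,n0,n0,m2,n0,n0,n0,n0,n0,n1]) :: l74

noncomputable def l76 : List Con := (true, [n0,n0,m2,m2,n1,n0,n0,m1,n0,n2]) :: r74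

noncomputable def r76 : List Con := (true, [n1,n0,n2,n2,m1,n0,n0,n1,n0,m2]) :: r74

noncomputable def l77 : List Con := (false, [n0,n0,m2,n0,n1,n0,n1,n0,m2,n0,n1,n1,m2]) :: l76

noncomputable def r77 : List Con := (false, [n0,n0,n2,n0,m1,n0,m1,n0,n2,n0,m1,m1,n2]) :: l76

noncomputable def l78 : List Con := (false, [n0,n0,n0,m2,n0,n0,m1,m1,n2,n2,m1,m1,n2]) :: l77

noncomputable def r78 : List Con := (false, [n0,n0,n0,n2,n0,n0,n1,n1,m2,m2,n1,n1,m2]) :: l77

noncomputable def l79 : List Con := (false, [n0,n0,n0,n1,n0,n0,n1,n1,m2,m2,n1,n1,m2]) :: l78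

noncomputable def r79 : List Con := (false, [n0,n0,n0,m1,n0,n0,m1,m1,n2,n2,m1,m1,n2]) :: l78

noncomputable def l80 : List Con := (true, [n0,n1,n2,n1,m1,n0,n0,n1,n0,m2]) :: l79

noncomputable def r80 : List Con := (true, [n1,m1,m2,m1,n1,n0,n0,m1,n0,n2]) :: l79

noncomputable def l81 : List Con := (false, [n0,n1,n0,m2,n0,n0,n1,n1,n1,n1,m1,n1,n1]) :: r1

noncomputable def r81 : List Con := (false, [n0,m1,n0,n2,n0,n0,m1,m1,m1,m1,n1,m1,m1]) :: r1

noncomputable def l82 : List Con := (false, [n0,n0,n2,n0,m1,n0,m1,n0,n1,n0,n0,m1,n1]) :: r81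

noncomputable def r82 : List Con := (false, [n0,n0,m2,n0,n1,n0,n1,n0,m1,n0,n0,n1,m1]) :: r81

noncomputable def l83 : List Con := (false, [n0,n0,n0,n0,n0,n0,n0,n0,n1,n0,m1,n0,n1]) :: r82

noncomputable def r83 : List Con := (false, [n0,n0,n0,n0,n0,n0,n0,n0,m1,n0,n1,n0,m1]) :: r82

open Helper55.PC in
noncomputable def t0n : Helper55.PC.Ten :=
  (r
  62119280874476107165605286134922860100510334800936391138140488015001231383259511428635382809397629524839283375685197261955251020705696821319435658333799968081463767114650369534358454127479257600068057008140145189421694454352856884279922195305554054689214894837555580035174713898622351822388962205590271588390272046844376364357953249753191705439544993488271327220039385883492847831483073218808500481487841769543776936663585812758506564348290306509416150208108393930737082498)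

noncomputable def t0 : Tre := Helper55.PC.toT t0n

theorem ok0 : chk K t0 l0 = true :=
  Helper55.PC.chkN_sound K t0n l0 (by decide +kernel)

open Helper55.PC in
noncomputable def t1n : Helper55.PC.Ten :=
  (k
  1219409628369480331402258758746615970171111947258249776518845739234741881188857944413869080081698526914237933727488934338227381851738893437984203159296507821292395649697775727754797064326419418956063568773938368284834647569246924282838138748374952383737930731254994806860097148066334868512)

noncomputable def t1 : Tre := Helper55.PC.toT t1n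

theorem ok1 : chk K t1 l2 = true :=
  Helper55.PC.chkN_sound K t1n l2 (by decide +kernel)

open Helper55.PC in
noncomputable def t2n : Helper55.PC.Ten :=
  (r
  28616272592426050204114454151110735614914958400982183318970898169962777120448931620567957488744455511844503167553746179876028319518069117755629970675558734977716253098748284738027014429000811884205035208410970764562941143424707930876842005050713513432026761410064205841206480277163785916723538377340987785284164315039873665021477868627747956009380301412725939091056787324134421558652409911043258099828679476559663501247370323982639820152290914002555178123521152242077406286590521364522192421781277991618660005459824890041515978039426298990941914319529451124311259775798264327330486328398418601315759996241444531755895365839797697883923232)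

noncomputable def t2 : Tre := Helper55.PC.toT t2n

theorem ok2 : chk K t2 l7 = true :=
  Helper55.PC.chkN_sound K t2n l7 (by decide +kernel)

open Helper55.PC in
noncomputable def t3n : Helper55.PC.Ten :=
  (r
  22212414985112122375632928152276894895539249275071225729452211596427449280400733757603040139584539706293102812701480917117630874079931630971334199536081450204460145044549029009783136633003121078067781941898945009628740235787411411795186996743276552852777513520930132971168882068113280479641925866252485870751872233609779570052319961141146305804247595694281300679788022822412843037315242412417129699553104266897133107374335782749725046149450028322825743402352074140248427391848823082423194222022789235977035497832780633374894843815283578843250365034557548671348575112490164045028886835702988252053027948073333934135068841729597696)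

noncomputable def t3 : Tre := Helper55.PC.toT t3n

theorem ok3 : chk K t3 l8 = true :=
  Helper55.PC.chkN_sound K t3n l8 (by decide +kernel)

open Helper55.PC in
noncomputable def t4n : Helper55.PC.Ten :=
  (r
  19977389067782746622983985376048679112701956327160104800131665752572653313247646845997094053947262566642696730229439661428089710087082294327304333509898185277345700974746346062227242674018329332279586146329905488001912917812036832944986321197109579868371515091117849580801210099645294161997075709988691138270020736583489608314501607943031276617837565375109642971093850602594805895318529643781775417454866176672198853553174478098106588014177737377541400126477940408552608175271038403274883621520157551759752472974969597778139524045193137325531191949641060016401335508958168450001996484217470793780480589195437979273136778959315911382134547198867910022737511263503531548397547679432647972546155452277048425265520806258286881)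

noncomputable def t4 : Tre := Helper55.PC.toT t4n

theorem ok4 : chk K t4 l9 = true :=
  Helper55.PC.chkN_sound K t4n l9 (by decide +kernel)

open Helper55.PC in
noncomputable def t5n : Helper55.PC.Ten :=
  (r
  317360570639089492087368239158614051551937592235649567251710893529055920922155981065268443113109040492525996316295315868513932446953245856667875381558245477975946123329052737939413905514581736822480541693617739451017462491018040323250355493824408040882919477381154490154860563679833939904155316429249410388863128825060106149665370485057200413699575574918679286264167155242918479217580391538805508596687315400297397576749144027249465600804314967590581640558597756989815045031760478326998356337827236128779592322437134803593536108994797869118804507576438661437356363073010689526533378471426007541950461627794775504425994635873157804645110488767112274932716196617779033407718822800493707416258832478404942703741417783891363836992196032409222260328803421504137787037458721)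

noncomputable def t5 : Tre := Helper55.PC.toT t5n

theorem ok5 : chk K t5 l10 = true :=
  Helper55.PC.chkN_sound K t5n l10 (by decide +kernel)

open Helper55.PC in
noncomputable def t6n : Helper55.PC.Ten :=
  (r
  1463565444667960857920847053518010575354880155844369720257417437029576957959410676545960662464061016455321474407947758862819997996632362504052231074903648893251297327746052147327177189174239662002093126484735073617402685099538474678783070900249179905171077096406895602016274415036646956757860712806976653913651440034222285652590025497235298936417105025468197005751829619731637755472372415504415803137729574152329967198756236704935644320773494356101312874821933174300563277148155586271855779998350184466730098482765221030568609646202865138123584914166000856126499566083535939602679000855588839378237003269497647156983904824511282477248962396311774389128783880307477609355114366085987137558258895128261103978694109349897506971907720462243300031905573431921289416530213599312334303737422113)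

noncomputable def t6 : Tre := Helper55.PC.toT t6n

theorem ok6 : chk K t6 l11 = true :=
  Helper55.PC.chkN_sound K t6n l11 (by decide +kernel)

open Helper55.PC in
noncomputable def t7n : Helper55.PC.Ten :=
  (r
  320791761001221659742172504708405983171203295700793370202154555485303498552708088652874333754810904929282339181388249450864163737893059950615446815128735967714036443970249237690319616477619755230645361112792706529077461113561894046129508871713884235730130948188649970623735885854993008605367151598693973729569738157706313677506787457342494856849942023272664314453484547570956033977411246509190580459553259975328750816885296233391916698358965592783022538836108124699187139619334602954400105057391075871107138038382045629937359113838854540144061522440243248771697045595942494334793476084833968416)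

noncomputable def t7 : Tre := Helper55.PC.toT t7n

theorem ok7 : chk K t7 l13 = true :=
  Helper55.PC.chkN_sound K t7n l13 (by decide +kernel)

open Helper55.PC in
noncomputable def t8n : Helper55.PC.Ten :=
  (k
  18590547639442679005582732621044159309617577886516982759623426009481073731952214381839697989199247996632867289217879281030149887387455179624961862361691180457646692009880746966198116238533471934566647555763538941939248794266757027675223169335816465196863374060510495949640932420258848)

noncomputable def t8 : Tre := Helper55.PC.toT t8n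

theorem ok8 : chk K t8 l15 = true :=
  Helper55.PC.chkN_sound K t8n l15 (by decide +kernel)

open Helper55.PC in
noncomputable def t9n : Helper55.PC.Ten :=
  (r
  7421167897668801383919206342192014263867278264490702202120709365976706298187978620487945370566560481887637534126898220394752549266451701577845284629382097350419312063388412334493692713904494889663499466076829554083234974085326630140963362300519582673350671958417790956141368447917995479205903218938733301954957750523989104018526622772662215298318687688117503023193360551784131656437059938863056646908695120629838869380909761940379047214257264942277374825521210007913363762481285683306916010839339226215084315981360146390757277198911588538655800062317556358810876933820644905940633417300331329584032582201612988426279592401316103542124781560319055712723678708147876959472890330928063928844355661782929741443593150429367391111984754192550098911922320512086893396307719475148951793693832085176061916480161851001661038849)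

noncomputable def t9 : Tre := Helper55.PC.toT t9n

theorem ok9 : chk K t9 l16 = true :=
  Helper55.PC.chkN_sound K t9n l16 (by decide +kernel)

open Helper55.PC in
noncomputable def t10n : Helper55.PC.Ten :=
  (r
  1956002411058987208256990981010915239998268619744032366607981164094199763038333811213206485335564682696212228457614336825060884154777426019983676632003770606001608739585438464106814399285875501494272825468648242993512981279551431045475307136500168210584589128848879129691646917279201128718151802828876434036586560718190213811184076800934733773988109443460889853410095358401027443773902746553393189990685543080701760154830680305161702320037309617420823022047369050494512343462371651447237665023953602729260587809138368129908410816907412964668087910498185673346283158738613674955908895737550724776001615360271848160089217420157590056317817207938928957628663265495289399294942997307448422652085369099455750111110528902615590389599252505345)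

noncomputable def t10 : Tre := Helper55.PC.toT t10n

theorem ok10 : chk K t10 l18 = true :=
  Helper55.PC.chkN_sound K t10n l18 (by decide +kernel)

open Helper55.PC in
noncomputable def t11n : Helper55.PC.Ten :=
  (r
  32713181558587702918578784355430391520719738154910861315458841634000374735553357223058017286407681221824328100015918830819070687265240017500732154817427772404081203998768228772407985201681627284927443379365726138031027300832588448922177901224597756081029704184003681424163103677957501131524231337601834829388043588797994736466626869843064023342002350292998336618961888628811871826617924768951916366524710312934831191201145350155473878944920886789517992416069819687652289434136013910277987644472504794566348007282464174611460841848629370754259341906986927711800385913117297661316472620053532564347147543966845657255429865282294935395593829754343479501300599973655739129033603164498404958875534155959264150217128543093766725981975678037286553658552905842404475109438236531524116737)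

noncomputable def t11 : Tre := Helper55.PC.toT t11n

theorem ok11 : chk K t11 l20 = true :=
  Helper55.PC.chkN_sound K t11n l20 (by decide +kernel)

open Helper55.PC in
noncomputable def t12n : Helper55.PC.Ten :=
  (s
  8741777943250262645263266641605632954568730057129782531181962062577772371003770694683402249195887754218695333337187329428864762379677116533032587408725060976390042496097502395153326804195820826254808315177152227217124880865679751039705573322324757413149660523937928848434049302557828539910175070818047439246755554284625193455651492477939890460265667708912629343357828945682424482017692832314548307410068225910496124755376198834815721356672873504013222919755056792932160842681910182281857)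

noncomputable def t12 : Tre := Helper55.PC.toT t12n

theorem ok12 : chk K t12 l23 = true :=
  Helper55.PC.chkN_sound K t12n l23 (by decide +kernel)

open Helper55.PC in
noncomputable def t13n : Helper55.PC.Ten :=
  (r
  2421284394762610328100095552794592858247174514354327203718569106545888759696033153773721738179515087547027658979425591313960382773375954152078036386607101809121472790789625199954823081190260442927247746570847798060432469351814971620937875957838410476135021414562405266231128037573730483102384453651118675924889206716597801899248330466426053350298900921369039540157526499915500965967405514744436017959319021388894900796125845806842904273286318675377554602260210415670991714713806565263804718168736106548957089604968581433578135354640707816324505515418671949719614859803212019766503965406035170615186951456960949360834830205801633913483678067462537997937151482483160690167746294716852788582918320105376413651400456601261656468688844512917313026473599874829508158241)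

noncomputable def t13 : Tre := Helper55.PC.toT t13n

theorem ok13 : chk K t13 l24 = true :=
  Helper55.PC.chkN_sound K t13n l24 (by decide +kernel)

open Helper55.PC in
noncomputable def t14n : Helper55.PC.Ten :=
  (r
  2662839315916872449934577732696954131737121117171794904667134871473034151290767438535504912787439247710499310799670138742670586032315516738527859773833924368140744888939003850728958213670914502860440586749935546673548394766158135385275544174774859507898368909098421398128410693292330808979550862874089875523698262808635350370336604204192046201459918186226140334689867550453154089665172762700946118836716032576646202731260595357968153824654313923255253895953469013482119534421593493381342942475316317828635856442777092097814014435666334749655073045557238989203088758296896848512199428556327214095033203908929526563075076925238141353857087683635716352)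

noncomputable def t14 : Tre := Helper55.PC.toT t14n

theorem ok14 : chk K t14 l25 = true :=
  Helper55.PC.chkN_sound K t14n l25 (by decide +kernel)

noncomputable def t15 : Tre :=
  (.N [0,0,1,2] 0 ⟨0,[(7,0),(25,0)]⟩ ⟨0,[(0,0)]⟩ (.x (-1) ⟨2,[(22,2),(7,1),(11,5),(0,2),(9,1),(8,
  0)]⟩ ⟨2,[(8,1),(2,0),(1,0),(2,0),(2,0),(1,1),(4,3),(6,0),(5,3),(14,1)]⟩))

theorem ok15 : chk K t15 l27 = true := by decide +kernel

noncomputable def t16 : Tre :=
  (.N [0,-1,1,-2] 0 ⟨0,[(3,0)]⟩ ⟨0,[(1,0)]⟩ (.x 0 ⟨0,[(0,0)]⟩ ⟨3,[(19,0),(0,1),(15,0),(7,5),(0,4),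
  (9,2)]⟩))

theorem ok16 : chk K t16 l29 = true := by decide +kernel

open Helper55.PC in
noncomputable def t17n : Helper55.PC.Ten :=
  (s
  2460591743654470172764746649057095839984469172260511985380560246830076942996051762985251508004220640018799595490989113325524278070479105962164170668431329180605131061913934535553150971159218537318319270556521048663820114332190812042596237366615496132217574445929342792627196491155010705189619457969119772125632825527773076582742674562355315134913031190238860379717526843922697950136119707982079733789548005182961870222262731133591642628771417602431401189189730279968670170402263284444400306240965575297)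

noncomputable def t17 : Tre := Helper55.PC.toT t17n

theorem ok17 : chk K t17 l30 = true :=
  Helper55.PC.chkN_sound K t17n l30 (by decide +kernel)

open Helper55.PC in
noncomputable def t18n : Helper55.PC.Ten :=
  (s
  45389906161554074307365178279455374474886948133356214103724924506996980071481849158434337493518331660033020376512201726583842116077975277181487207172482550762476900952757850751674707801653794595616915435776138873913874669606595448663376565117451229012740116673896826510835587860204236936251780478015319229639049104638646238917080633058113375285304105846086303745732702220892098996502830520982520074688565202523054736139530443002598146040574712997160172513140920507963949372421091688151049504198017521877141122792452784769)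

noncomputable def t18 : Tre := Helper55.PC.toT t18n

theorem ok18 : chk K t18 r28 = true :=
  Helper55.PC.chkN_sound K t18n r28 (by decide +kernel)

open Helper55.PC in
noncomputable def t19n : Helper55.PC.Ten :=
  (r
  13644642832925517356937791320181124933553253309040191298770476618276915503716429319363273368536922222151238865412718408938666410440062366767744542635541758412459360530189676742920340243349171335710902506091999491844540910492904244994426369052744811683531017673391289700085889249277314375939350503091519647417370568896327755362906755938676840380749393674172495637402891022979030857726161726743406182615260663064011015076426126512499188517786669700104250411679446628949794087083314441216314750994051009732260912625817596852462241252897117254295903051274781180155341326407923440686543526867328795959358160833154143427262302840697905344)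

noncomputable def t19 : Tre := Helper55.PC.toT t19n

theorem ok19 : chk K t19 l32 = true :=
  Helper55.PC.chkN_sound K t19n l32 (by decide +kernel)

noncomputable def t20 : Tre :=
  (.N [0,-1,2,-1] 0 ⟨0,[(1,0)]⟩ ⟨0,[(0,0)]⟩ (.x (-1) ⟨3,[(7,3),(11,0),(6,3),(14,1),(1,1),(2,0),(0,
  1)]⟩ ⟨0,[(12,0)]⟩))

theorem ok20 : chk K t20 l34 = true := by decide +kernel

open Helper55.PC in
noncomputable def t21n : Helper55.PC.Ten :=
  (r
  6873811708307070927829813656666043197557946062936277753771235171253890011083865084393662561413869771145719616954802885175528240021953912525767812946434694713791372538982955883123494576628283773896484244910687829592296330170789117318243684927999690893507923219924565894396788251382680530514761260212669740333788135071183928640635039332295994314673508593952213822403245849516882662997293194059069573236542074449362037538277882312316998703792953207210307733533216806858769808912958988437813697443930862646650668294156031577973937866397670486541435691924150306851799646963472972357496167712170353891426693814035697168614879254356393430510928289120424577213216)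

noncomputable def t21 : Tre := Helper55.PC.toT t21n

theorem ok21 : chk K t21 l37 = true :=
  Helper55.PC.chkN_sound K t21n l37 (by decide +kernel)

open Helper55.PC in
noncomputable def t22n : Helper55.PC.Ten :=
  (r
  424214777483264194730159680847018479171287743364131737565446670220838828742734066946459043179482080542572356630749956842854349232558471020065507782075970443790893843225402268882830850276692211478794881032245315488827227964149309535306905252334963362331775654457832882356624447083356535032103116514769100601865456494485899596035643432978579841286264666613207620627540519596956752777427863716531173158654773385451095516882040436026180300889223094344018785416297420270290307869946070398761859859961455200397236302408864580982348710909084411056941846464306627386549923643218654191678451030434048)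

noncomputable def t22 : Tre := Helper55.PC.toT t22n

theorem ok22 : chk K t22 l39 = true :=
  Helper55.PC.chkN_sound K t22n l39 (by decide +kernel)

open Helper55.PC in
noncomputable def t23n : Helper55.PC.Ten :=
  (r
  2855310636986213488933619384026147275777252805551704292394723796227443710695965838921216153525283318144354216611767152831600511119357730601309291473044930217136324534654779655621453909765454298196992006564210695736436099720649967160406659674222266961134849311343957919154081824125588540870962536191122348350414395060175913934753602588735209931922218133119315851442289546562949968155485779269962962856933225130313891362740723627961462693897139352875673813866874366541489375155100552334573064132751753461166656412871977262595108441666586059138442585376456702403013999971980846035415845314848)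

noncomputable def t23 : Tre := Helper55.PC.toT t23n

theorem ok23 : chk K t23 l40 = true :=
  Helper55.PC.chkN_sound K t23n l40 (by decide +kernel)

open Helper55.PC in
noncomputable def t24n : Helper55.PC.Ten :=
  (r
  96951018394520374976108031929150532029192949401718672730937907824790174502071253121059306154417889762523245193118729647161776178461058682493388020401096551204515296738237382797383532864474982731618151123931838119988526446132022319616998210429321426723803428026854704763149064339138430974223060932752020339156052716532756941589936387522224143741151730144522391775238853747189492520403888346831672747640394812206893482626236589847527277702413440651756023464097558779438260071674673255047366842758305990364377135432435001637215665434511054112826037314918682083480746458647622041492477781810560618013441861187286504038592)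

noncomputable def t24 : Tre := Helper55.PC.toT t24n

theorem ok24 : chk K t24 l42 = true :=
  Helper55.PC.chkN_sound K t24n l42 (by decide +kernel)

open Helper55.PC in
noncomputable def t25n : Helper55.PC.Ten :=
  (r
  65426196464159223322584150842775570025572035355808671175281235618258371643801152588687811596500362256057771503654020531960141541858596889180565224411734869581809110110519448799586169953063295155988942224366867061409668530750900427481728409838060315566901207807174098580084272462356739905885517862502470491924214143605953435379507210735804386387143123506042654835038723483850172390956894859984205982532763592653877342710661289593102652355877247406139950294840932877455535291189910287231533580087911496140747884118082590694362348847538124827580294505129347161408534881489716488500091855671018562736410670396559750273851543059679538693301148615855705302969647179412666465145486510027703580502259489050246484086040009908532852346713172913503622287030404263229475249427236280868791009)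

noncomputable def t25 : Tre := Helper55.PC.toT t25n

theorem ok25 : chk K t25 l43 = true :=
  Helper55.PC.chkN_sound K t25n l43 (by decide +kernel)

open Helper55.PC in
noncomputable def t26n : Helper55.PC.Ten :=
  (r
  2369597194066302071880385261055895062045902824059535726582758483601064290178114486747932472769966525255619246682638514916072362748039271886476491714862694624334708734939901865755902230696535285054376812991757209731746756899053678514862959313766357433778139529439339695364847442482259554292626715263927729824048531016403625012461429001661893154454369900891265388953025804965695234038556801171778337872284155513468651584670835504090677908402194603698117514376161390054869637982663447048634046146903097059367119438510653819366505639020683273933854084573296133394861941581808271590145950748530682711035607676404372956389149327634128378936391601086997691329039378171399000034681931973856879339040849753225707226747462456547125388389403949469445654685309893267955698821201341138572083958668862532500494277541234389110803922876615537852568509734768607777326806721509091446629153)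

noncomputable def t26 : Tre := Helper55.PC.toT t26n

theorem ok26 : chk K t26 l45 = true :=
  Helper55.PC.chkN_sound K t26n l45 (by decide +kernel)

open Helper55.PC in
noncomputable def t27n : Helper55.PC.Ten :=
  (r
  1479355139076543807618835936418922913043105307033060802168852353283541481049671220719288729162870632362720416154765772204006594519974650306600769354264778918525929210483358502157341504890060161310091417296323213500801489961731297601577731482381003215390066955976176525316605595995154281222886061595947575975891917671703444543303472709994875240190913851082189815906452469001766805067354237477144089313439666761574466901137182101317895146533133128075740841059707489228694680130990117856566364259402173611289816926603338448978587039489301326725258805361115484188756475343348408831559712717192031917855232706210422976)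

noncomputable def t27 : Tre := Helper55.PC.toT t27n

theorem ok27 : chk K t27 l48 = true :=
  Helper55.PC.chkN_sound K t27n l48 (by decide +kernel)

open Helper55.PC in
noncomputable def t28n : Helper55.PC.Ten :=
  (q
  2773346616885553865522665616630096759258553707464016202380789030112761819713194870888899211292732042902363626908421344524838764557
  (s
  7977715313428744625652632080492487255919243388029011328463481470648177321522918406301376140951954610005598685938872663559570123455946872534921254860762453582262755231237522035422110800158678373126240869928154275384281809434675747413380920951544127381942904735916869406961911941983402926103557978127881273769148473553042894377088554851361685321985521243001274090292538831196789378989439802501131450559219353007435304883204182920787435155996165438681244789322038163738050099598423121440843509473708584902780305317894780244952077522890872102447672003207827733553597743840978407522945)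
  (r
  6526567163396338895889792127765076872117340859602166735887625478750351556170910634819541102668835926172362085839222675145035152437209343757905188775426026126894267864118986368370007309255223084099581198370166466918418561601980457541667147264237761868591979551117575030328475147396932396841726237668540194832503073586955755790788403488201217302463554291936527793780881657320429508089314012804189559835367611847822672006545954711723263340904540813218868029750065850077031636205714628282819254853301392328106693585935671142286633249710518228045121099411427292587651905049846422023163400167712))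

noncomputable def t28 : Tre := Helper55.PC.toT t28n

theorem ok28 : chk K t28 r17 = true :=
  Helper55.PC.chkN_sound K t28n r17 (by decide +kernel)

open Helper55.PC in
noncomputable def t29n : Helper55.PC.Ten :=
  (r
  486353659341622567496529106841895846796805948341662659518182809008649423958047366873633844027082174153702437796600565845114524656514588785488089294095439967766714325184260466137407188572349506618074881126119855507265756639112596839100189780324387866815486180157888027904892320249039228727646252580178309057063121644063435263541154025508805575204613112163157171550176131927712864431039011820858322897273803890110559770649516862807688686793677153176380894647006741220346928243259824545579101790760199701497750111369382720516488736448560194364365793317805813156836764742752243154992925261334358971618213236253124975720475888264814173049666859029805830512908882383528948960918221025347094312126248647298501433632287120292678802917159303489321073038576033089648916314076683834807835742417616672890089828542709528460685799596289)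

noncomputable def t29 : Tre := Helper55.PC.toT t29n

theorem ok29 : chk K t29 l50 = true :=
  Helper55.PC.chkN_sound K t29n l50 (by decide +kernel)

noncomputable def t30 : Tre :=
  (.N [0,0,1,2] 0 ⟨0,[(2,0),(21,0)]⟩ ⟨0,[(0,0)]⟩ (.x (-1) ⟨2,[(13,2),(7,1),(11,5),(0,2),(9,1),(8,
  0)]⟩ ⟨1,[(2,0),(3,0),(5,1),(4,1),(6,1),(5,3),(8,0),(1,0),(3,0)]⟩))

theorem ok30 : chk K t30 l52 = true := by decide +kernel

open Helper55.PC in
noncomputable def t31n : Helper55.PC.Ten :=
  (r
  65270744554845364080695383146044526407576169428468538530983550943555507076808640206742022983593452743310315505020340563861240443077624329639776313864237544898087436989595328237405385432084906276514361244931869357067119752931980180646860992140071692576833977795769668931191216354305620981777982632885212203849890110374531763987784433663361739921272002990753985856156223668559763113138089828584645993757710827127622237027241502602750892074137021215467401894117478688027759774877865483574573209870894643874227318690628635029861246229263385860765581303870240632556996897351763509730595066618625)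

noncomputable def t31 : Tre := Helper55.PC.toT t31n

theorem ok31 : chk K t31 l53 = true :=
  Helper55.PC.chkN_sound K t31n l53 (by decide +kernel)

open Helper55.PC in
noncomputable def t32n : Helper55.PC.Ten :=
  (s
  7977732703164800678351864039114462194590081906550263671379484902505991811393670764758634872147807495230665597784282467962953218029913833749891399306518907170465501916725891276029790725571818254401991468733489546421338240693633814437200847220943144775634165130493379226167586111256599030501067382208108606105794152126685140034324078993312066009795204842339097994425113780138175688831396962565915466295728398462337882783657172275114042411115034950830058281659246412407677823746179976322643159508588000831211736006642240331100833298449205087031670529578153990185926234677430149186177)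

noncomputable def t32 : Tre := Helper55.PC.toT t32n

theorem ok32 : chk K t32 l55 = true :=
  Helper55.PC.chkN_sound K t32n l55 (by decide +kernel)

open Helper55.PC in
noncomputable def t33n : Helper55.PC.Ten :=
  (r
  63459365614889863852341426137066213403749015957965602905583875884002083411907222103066937303817092840111057790142866982892864016395005876266918761550510685556981981087898764042274274384498099711954250936878088023430939163571854265536937877661202819938139624432344863610887179198337989477762733879212163015041010434556442743354693255890876470896889488052121538028437788280296257146861673343332081445515988325006124429049316679644977662092514652264876965453347934121676974404631850737516995413094702067969239125693764204302704928)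

noncomputable def t33 : Tre := Helper55.PC.toT t33n

theorem ok33 : chk K t33 l56 = true :=
  Helper55.PC.chkN_sound K t33n l56 (by decide +kernel)

open Helper55.PC in
noncomputable def t34n : Helper55.PC.Ten :=
  (s
  34264001471858107629025546892931588744349249761162046996408886152461479536670665406883543876126176009224623626272703965527682944891139138971142993803198553033721126053918487733346474426971796471235574676684159606790511356307306665779586103306920329588927319980581185551340151353061544580124898886725473610552852837497987235006024335431209656139848990174143094691064854838494639099887553437571527018807599851904645796446971957467682119209446595435656390529997794062088544319509298572802770885288659494028476713395331937700275365256354083680051176638959507860273370960657732765320308199522945)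

noncomputable def t34 : Tre := Helper55.PC.toT t34n

theorem ok34 : chk K t34 r51 = true :=
  Helper55.PC.chkN_sound K t34n r51 (by decide +kernel)

open Helper55.PC in
noncomputable def t35n : Helper55.PC.Ten :=
  (r
  1309238169946210082682849857729496851013719805608154608499471088736575301686893895932610323552182860345174486140804335083171518287050342728942820875283000152484866666621397954548154340698997943890999568336880297948536901326952492972744431115617626616249731494362621662421388890301278519402178484611058867646901692620578891511377315791658539149497898546570977482593076520208423569084916093993332855590971490699149885056028464616038643626632685987718934812057259346341888112346969675672658846077032871240494851656074415403759633189626395019500894035826776698410141457975523584899727035320407044652243388455781445898880830187108989663883353439504903112801136027518320145858837525511200418897425964486477958858690776498892160901409)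

noncomputable def t35 : Tre := Helper55.PC.toT t35n

theorem ok35 : chk K t35 r12 = true :=
  Helper55.PC.chkN_sound K t35n r12 (by decide +kernel)

open Helper55.PC in
noncomputable def t36n : Helper55.PC.Ten :=
  (r
  83645245785153250324723845315988785335146397469201737285634800570192799812510356312133898294947035348659728958002868851254811186067345550111136468504772063849292191615499455037257053955653335178703359892145908292732828166759367820575731901589776676264138575254380757670117814788088225875494001584551272870862537489839453848211941308620729590285676595249070860550452291170682183599033221758439538148999961630314179117075925792592705828524029020598944326529126237315539475154081276422851369457266369206403986090576484191724491778551099659494492930562081814117351435264115853869222844562040911298309505166362422750642318368517772556208905798411414697528718052575642719024430450562929255168)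

noncomputable def t36 : Tre := Helper55.PC.toT t36n

theorem ok36 : chk K t36 l57 = true :=
  Helper55.PC.chkN_sound K t36n l57 (by decide +kernel)

open Helper55.PC in
noncomputable def t37n : Helper55.PC.Ten :=
  (q
  3144571091339751737442840499187390153557282157394986253441724761964138188312294176167318668259515116631119826951160534580537500523583753771783948203412762127817808384603266123694093
  (k
  283669244887557919372020759869617670182796207805819882466864500444494435416936634353426934938682890413974340106046113501296925326558298918071369555232946446830489737636190442152257215195174694673142595771151177969590249387848193381972190169010244410207620464153984598865383296032)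
  (r
  228409027037909925836926523039078120845494533420036367296890617165346820583142114772126993991591998434871435208442799936551858503865072008271957324398142612176863190665479423716949269534680307434682587501694104399016075546795362133839457844572046454471304858150903958782007398754037071507468796766350244137560615541486543474854529908112488076527759562585544745593528679616571874527582486267784184463616089077606681256592166780152004276452856644536377040246331897632219934090466287505699346464347992252908861936005957684692292984181220578539401413594562174982854176059107289863805487576067936471187084801144952524153523604100079843937754518164158472731994505952523992761956082128312179892449))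

noncomputable def t37 : Tre := Helper55.PC.toT t37n

theorem ok37 : chk K t37 l58 = true :=
  Helper55.PC.chkN_sound K t37n l58 (by decide +kernel)

open Helper55.PC in
noncomputable def t38n : Helper55.PC.Ten :=
  (r
  85802232705594823978703248276160305628035141180336020422621337271440198971352278363839550164315855935581355123723752904010728622460131261083996708882546697993248221863699936349267842872049529250840514309693209444284879608976453604094030056062947740136226311951456252920868628217988127884278629803967085459560630299514770944508862974440471214922122037930063560776414231074168905782532884692845505620791099907296475892527992009817070669376676061252840953002305014429434349635173508994082544325783737732948197585421579253680223059222416671944913171355319651262804752747359962667237330275580115612118762390484695811589456646256837121584283416765238681005017797668379527689512429287751105148432774450351857644346225246237775142393749793)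

noncomputable def t38 : Tre := Helper55.PC.toT t38n

theorem ok38 : chk K t38 l59 = true :=
  Helper55.PC.chkN_sound K t38n l59 (by decide +kernel)

open Helper55.PC in
noncomputable def t39n : Helper55.PC.Ten :=
  (r
  320791761001221659742172504708405983171203295700793370202154555485303498552708088652874333754810904929282339181388249450864163737893059950615446815128735967714036443970249237690319616477619755230645361112792706529077461113561894046129508871713884235730130948188649970623735885854993008605367151603844119897905510548514611245101325527285907518145942834793662674142795147036659906509062930244098256106920422620662599568124132840507382316524933573040767016125893171404937291014466534735491945562467673564719545553128380214373878088561705565510000221290308472918270360991097999321386879099248828704)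

noncomputable def t39 : Tre := Helper55.PC.toT t39n

theorem ok39 : chk K t39 l60 = true :=
  Helper55.PC.chkN_sound K t39n l60 (by decide +kernel)

open Helper55.PC in
noncomputable def t40n : Helper55.PC.Ten :=
  (r
  1718710296507878431627520324453845129647699980621692949436011963713666688390231474250886126126240864903164285886897934999910179705345915138388265239589407056053878010407092972290201140760256687836812666653773581481660513596338887366608854332431733226091539158448203866232654273793960253047866638911374353044788649221650420903286991900536916183791359385403466331564015897801285886175661427147812647098333572653321961214439993791494316826705618547005895073465457751400766411273771960910021901363011193005099604441637672114172244408958379440676365594629528982231784076683098105479948454952305270575607997375430818453155196500486871957723971489384552776070950579980229277709235043115313384147067913164967122007369330740372773196266905921124239224669417673659180405602751250279674202535420151487786459352145917444269269596540054155448273153653515462194007281142921010641290157330464746752186624762625)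

noncomputable def t40 : Tre := Helper55.PC.toT t40n

theorem ok40 : chk K t40 l61 = true :=
  Helper55.PC.chkN_sound K t40n l61 (by decide +kernel)

open Helper55.PC in
noncomputable def t41n : Helper55.PC.Ten :=
  (r
  2421284394010954284122016728670015214814464869237578308513933529463597233806855022443398067371911968112477041893136909731542503854289377863155841758123648938850021881688518261436277842034990894279925957665261897813000024295476698894719333204892086019832344499942178342371119301760495807541082909855016172978543535306140498539546709330732787311427412312478216546890292510995305945053465618889749634290419396180554167886748555610144773099730280548578601866634085166394143674044318687742195965033735313965218804899350462269933797604288016934309080719643829260834861310102381385147527615325289306506733682390176934829645364317471447353129225797839525020045455343004567782694226495700026995949289748342612713015059314196870610407958641214475807686539558268644962870049)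

noncomputable def t41 : Tre := Helper55.PC.toT t41n

theorem ok41 : chk K t41 l63 = true :=
  Helper55.PC.chkN_sound K t41n l63 (by decide +kernel)

open Helper55.PC in
noncomputable def t42n : Helper55.PC.Ten :=
  (r
  1174606666119581608176308990915788767894197457867914413106222182139660776634611331857446291840711525152219281188811774595880111962192023388702809676504985338853599871100804173612563846662229329482361099398331583476514255529884247106486364624156822878727332274517756621640511307246157586037034154016890064466515926476581658877852431789244187428119095145410751280017718653430982704716513819989813920731388955046589810495500212372226089029546249027773965950355776605481764368428196578601000370396971225071709058465840992370536340769383534074710117874829536555911302915646163270478903604080545635746330371844441273571795025257860260102007784671047370678560)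

noncomputable def t42 : Tre := Helper55.PC.toT t42n

theorem ok42 : chk K t42 l64 = true :=
  Helper55.PC.chkN_sound K t42n l64 (by decide +kernel)

open Helper55.PC in
noncomputable def t43n : Helper55.PC.Ten :=
  (r
  7077377221745305803399447836355964668546369226946700702136033453452906053392293950844924029201013153486860546657545110395473814841337313847873657527896655018121448167104936375235378464885085815759669537352659453950467429329424474298441037334823592073463679189744295921821265183816796025582175828068550750278377458485560393992145441759505386967918100497457466772976567486806586555073056047732043297165335860322393416137241657214619349518510339338868131236702128401768066457508096352342742440541486584125947017700184683184097922384026376410797551576254309985607769534499504571900146385043149671914816731422233333097846493635823108737027184971815348575154790678282132604476993729179772660635185785832443256912706695801816456785764648895341558546796439721202486566536737230168132706172614985159369274371835175903521)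

noncomputable def t43 : Tre := Helper55.PC.toT t43n

theorem ok43 : chk K t43 l65 = true :=
  Helper55.PC.chkN_sound K t43n l65 (by decide +kernel)

open Helper55.PC in
noncomputable def t44n : Helper55.PC.Ten :=
  (r
  755099301555978226402767224652726448758397751932315280444238597480518419629476294229266465318884173554178636860184129439429797951518606935683276182587916962157794597616951708597650278763820084906969746189622892587207283289407825648439295001923018687504793708664698125002455461459412272450472891609176192731140697293720081341706741427599631895979874368595058969796689681535278487140085282407963991462582277683701521629157067014954574722441392883256294056071237483814589986698306008131350136590648451982386518428806893665354687374699524815877061924624907191566534096823324221893213935895811666690505146867212824137204949104687813025605543676288578626336)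

noncomputable def t44 : Tre := Helper55.PC.toT t44n

theorem ok44 : chk K t44 l69 = true :=
  Helper55.PC.chkN_sound K t44n l69 (by decide +kernel)

open Helper55.PC in
noncomputable def t45n : Helper55.PC.Ten :=
  (r
  5560454336120296502831460779527683153556373438035146087606499867532827298978287662826644092256068155899437421940430663106289639832290701259982148463718252894956840239104356461668799549049913288937593134655802223031791567830895294872758377535890709894567049868397413388902851411611140135910894989541156175796037707872125965449448397979266747942779187661223882807594682501845678915926750138084759641988173251473371402923973407855871262646064667790309594123887178716131357642364388126727757395981379235205308155885163369104338112372565615305908035840)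

noncomputable def t45 : Tre := Helper55.PC.toT t45n

theorem ok45 : chk K t45 l71 = true :=
  Helper55.PC.chkN_sound K t45n l71 (by decide +kernel)

open Helper55.PC in
noncomputable def t46n : Helper55.PC.Ten :=
  (r
  20798542356999857473854773312988175702564808473617898734996007423700561034647160982990217161212527216327681840944287858451110090981584810726640400542472209918553451438592939225967919599749653930271119426914407581425983290626294359768511263823210776388046389117078552579026988485762985193804941155520795362193550918000295071805774680066451768196374570340411868975226732846681417856050346145935032784362118998433681876605425329473860986248243165868455510723828389620235333850014089693436834801332348427849841349722318066905058554933136473227134409731130927014981634401824212616439140029270853599650055227460567985483159037381020892724336915018987346495830801951590897429936134890798299488591696367195621274592070658241722459559983872061524337555586868935485916553719740899617)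

noncomputable def t46 : Tre := Helper55.PC.toT t46n

theorem ok46 : chk K t46 l72 = true :=
  Helper55.PC.chkN_sound K t46n l72 (by decide +kernel)

open Helper55.PC in
noncomputable def t47n : Helper55.PC.Ten :=
  (r
  1012215861532275214990733503051959086532506409542067997222908558601310853676712879007884469257146187231911186656932410754878428223893860124196485829445021317896796969638225962456476034086730597590404757870529827582374229764693330595285007369280155723102498464610570974282464305828188165121409611756332893865514746435133935054933560042025727138986187923272981800294783418001711040099694511456259994945124569074950597425539699133493396263161153455353939300397654925138631137432312973247954120464792618069401406147653803928871761765771176163988700580240142966616481984)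

noncomputable def t47 : Tre := Helper55.PC.toT t47n

theorem ok47 : chk K t47 l75 = true :=
  Helper55.PC.chkN_sound K t47n l75 (by decide +kernel)

open Helper55.PC in
noncomputable def t48n : Helper55.PC.Ten :=
  (r
  301293652354826064160102039080173532642009942669334420274406916477512466820804334141224459510733869751906856019714025873941478837344955226031231423535994480702623131439206249370057338689690994209434767451093410528339435540702220655417206162906130943488952807309554841364587718666865589315253495711858741404922996315638682552946754869346383527961184348301622927670822151374543550603768294682668140318616211664094480166219436355146858921377629008641468522970734889)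

noncomputable def t48 : Tre := Helper55.PC.toT t48n

theorem ok48 : chk K t48 l80 = true :=
  Helper55.PC.chkN_sound K t48n l80 (by decide +kernel)

open Helper55.PC in
noncomputable def t49n : Helper55.PC.Ten :=
  (r
  10256502705897038057661772588305278358573138884678630927362790253292049651450709402238798949027730392881628640368401169359933145493916486164522020677214088506695227326557089515654495070805863454791654255619203796773750084215256991731105143095446110322022526617978969416386716173702073606430458891947788469417335738087722510657131325789281659667418380646482802407752108322481448115102533070863161808207576553971754628329921412415805617566074621934949198039506825971999415188416514593085830805264601708793369870610047309078933689891207691567351273473840494546100500877942509771518081684898687565878478917926606742766550531787499070311701899748403599094886188704492691356250978423620888080078742420292669505244171423722779052553577336699347220671235211811493751583015042981205294909637303351330110538583809446842620290793847987483805610183537319476899599942728488293816575451441457906992242997488759043445864936926118941188891808716212924354842993076171133917176147850030203467772732193)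

noncomputable def t49 : Tre := Helper55.PC.toT t49n

theorem ok49 : chk K t49 r76 = true :=
  Helper55.PC.chkN_sound K t49n r76 (by decide +kernel)

open Helper55.PC in
noncomputable def t50n : Helper55.PC.Ten :=
  (r
  53971186095735254975607144819497698910707657735845701068882412028085131345534379285158546805982971067699564643185964867407917883149855132933037256159361790314179772000000942424745359585579690676060765223363908771930246899199007486746771435975370708870835327218658782699946867316434063783123113419727774571897471196142640752467707087534256009387585400570486098452612224539312186943752174641547094817732975836873098728506118348866675422461068140585041518339387030052987096653053098448726963979034912)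

noncomputable def t50 : Tre := Helper55.PC.toT t50n

theorem ok50 : chk K t50 r4 = true :=
  Helper55.PC.chkN_sound K t50n r4 (by decide +kernel)

open Helper55.PC in
noncomputable def t51n : Helper55.PC.Ten :=
  (r
  101433581803319227747794786653805183761277095423653106220222807572052687924083908371116410152576356487298204179641425046509733723788255506504834743970172799783775586095093253688179200039868541551182527600200907845928365389435494453115568828663663585391362974265061195145354)

noncomputable def t51 : Tre := Helper55.PC.toT t51n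

theorem ok51 : chk K t51 r3 = true :=
  Helper55.PC.chkN_sound K t51n r3 (by decide +kernel)

open Helper55.PC in
noncomputable def t52n : Helper55.PC.Ten :=
  (r
  5051413601910080005445940890677621330031341194445466032971298830140506997205907584088847111423198043896756465159091431768395324862776372098983834952456723012848087143199017866509522922740133247502249159079557364121548067807513781946254932428250166968921679123945114581137545535349875479041944588769556025202416766393442528395061691823530073205699681946715831899495253102072254619135517931393903851874167690878931769517380657506415409102704916022928416126564643174218508080996475728965810450138885533198459617063222124062486327633375565839109383065089890326592704076449385698961144239202278403063365349805252781241040566496349516530782973074181819019908818809042448105721937606826748381175746469453677965792223770574594679326476101538702223329398415731195468929176564673918920158318292620894779585546588206853211367870764368951825401547972756291731337765121)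

noncomputable def t52 : Tre := Helper55.PC.toT t52n

theorem ok52 : chk K t52 l81 = true :=
  Helper55.PC.chkN_sound K t52n l81 (by decide +kernel)

open Helper55.PC in
noncomputable def t53n : Helper55.PC.Ten :=
  (r
  22872662845028623753136844987613100249882524339081982091127537406835961955971591865197762127051020028429965882717100987622925881036633230407384928896005458884672212298608565978442487392981500343794481371858502292682340872188424616886141277516350654743313300891595828187082030466360544930058746891699269823692461871642832013320326066917651511696515491713705913126590143894352705249912153923091899701283198893845561210332689154545578907697284931522688706225854951836196313205550850072560647916991294999268767029305952935495255579549542782575217481586200868763687531393671565623583225485963063937096127169129403841106880665809784121303629106795717120084567997326256233690553727358761316351083385686997455320788019771313758497)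

noncomputable def t53 : Tre := Helper55.PC.toT t53n

theorem ok53 : chk K t53 l82 = true :=
  Helper55.PC.chkN_sound K t53n l82 (by decide +kernel)

open Helper55.PC in
noncomputable def t54n : Helper55.PC.Ten :=
  (r
  2063666272028723228729109434106703617377357715347232589257428584246403749022442812107162522454554019921593715832840252151540959645440796759737969985615613127959470733624719123708089065573127541941201100823992379930614065202881171339160379330210314653188880487997005962)

noncomputable def t54 : Tre := Helper55.PC.toT t54n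

theorem ok54 : chk K t54 r83 = true :=
  Helper55.PC.chkN_sound K t54n r83 (by decide +kernel)

theorem cl0 : Clo K (Helper55.TR.GT 1 Helper55.TR.BrU) r9 :=
  .q [n0,n0,n0,m2,n0,n0,n0,n0,n1,n1,n0,n0,n1] (e' := [n0,n0,n0,n2,n0,n0,n0,n0,m1,m1,n0,n0,m1]) (.p true [0,0,0,1] [] (⟨0,
  [(25,0)]⟩,⟨0,[(29,0)]⟩) .k 0 (⟨0,[]⟩,⟨0,[]⟩) .k .k) (by decide +kernel) (by decide +kernel) (.t
  t5 ok5) (.h (Helper55.TR.GT.lb Helper55.CD.Dm1_1_c6u_60_0.g 197295322075715799293711708530647945636303614086150564829219341153859396398432768189673528697839843861142681565908078142585769126126595515262873050701573214338862458611958787 (by decide +kernel)))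

theorem cl1 : Clo K (Helper55.TR.GT 1 Helper55.TR.BrU) r8 :=
  .q [n0,n0,n2,n0,m1,n0,m1,n0,n1,n0,n0,m1,n1] (e' := [n0,n0,m2,n0,n1,n0,n1,n0,m1,n0,n0,n1,m1]) (.p true [0,0,-1,1] []
  (⟨2,[(0,1),(1,0),(14,0)]⟩,⟨0,[(11,0),(16,0)]⟩) .k 0 (⟨0,[]⟩,⟨0,[]⟩) .k (.r (-1) ⟨11,[(10,8),(2,3),
  (4,11),(15,3),(2,2),(2,1),(2,3)]⟩ ⟨2,[(20,0),(4,1),(1,0),(5,0),(1,0),(0,1),(4,0)]⟩))
  (by decide +kernel) (by decide +kernel) (.t t4 ok4) cl0

theorem cl2 : Clo K (Helper55.TR.GT 1 Helper55.TR.BrU) r7 :=
  .q [n0,n0,n0,n0,n0,n1,n0,n0,n0,n0,n0,n1,m1] (e' := [n0,n0,n0,n0,n0,m1,n0,n0,n0,n0,n0,m1,n1]) (.p false [0,0,-1,1] [] (⟨0,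
  [(1,0),(18,0)]⟩,⟨0,[(10,0),(16,0)]⟩) .k 0 (⟨0,[]⟩,⟨0,[]⟩) .k (.r (-1) ⟨11,[(9,8),(2,3),(4,11),(15,
  3),(2,2),(2,1),(2,3)]⟩ ⟨2,[(19,0),(4,1),(1,0),(5,0),(1,0),(0,1),(4,0)]⟩)) (by decide +kernel)
  (by decide +kernel) (.t t3 ok3) cl1

theorem cl3 : Clo K (Helper55.TR.GT 1 Helper55.TR.BrU) l6 :=
  .q [n0,n0,n0,n0,n0,n0,n1,n1,m1,m1,n1,n1,m1] (e' := [n0,n0,n0,n0,n0,n0,m1,m1,n1,n1,m1,m1,n1]) (.p false [0,0,-1,1]
  [1] (⟨0,[(0,0),(18,0)]⟩,⟨0,[(9,0),(16,0)]⟩) .k 1 (⟨0,[]⟩,⟨0,[]⟩) .k (.r (-1) ⟨11,[(8,8),(2,3),(4,
  11),(15,3),(2,2),(2,1),(2,3)]⟩ ⟨2,[(18,0),(4,1),(1,0),(5,0),(1,0),(0,1),(4,0)]⟩))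
  (by decide +kernel) (by decide +kernel) (.t t2 ok2) cl2

theorem cl4 : Clo K (Helper55.TR.GT 1 Helper55.TR.BrU) r29 :=
  .i [n0,n1,m1,m1,n0,n0,n0,n1,n0,m1] (e' := [n1,m1,n1,n1,n0,n0,n0,m1,n0,n1]) (by decide +kernel)
  (by decide +kernel) (.t t17 ok17) (.h (Helper55.TR.GT.lb Helper55.CD.Dm1_1_c6u_60_1.g 354334117066639909178490549167677469470951044152306330865878275007273380424654469462812388079084417270645848358866821254689780306816467152091556198922972269250104398264334219994400093671386025631416323 (by decide +kernel)))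

theorem cl5 : Clo K (Helper55.TR.GT 1 Helper55.TR.BrU) l28 :=
  .i [n0,n0,n1,n0,n0,n1,n1,n0,m2] (e' := [n1,n0,m1,n0,n0,m1,m1,n0,n2]) (by decide +kernel) (by decide +kernel)
  (.t t16 ok16) cl4

theorem cl6 : Clo K (Helper55.TR.GT 1 Helper55.TR.BrU) r27 :=
  .i [n1,n0,n1,n1,n0,n0,n0,m1,n0,n2] (e' := [n0,n0,m1,m1,n0,n0,n0,n1,n0,m2]) (by decide +kernel)
  (by decide +kernel) cl5 (.t t18 ok18)

theorem cl7 : Clo K (Helper55.TR.GT 1 Helper55.TR.BrU) l26 :=
  .i [n1,n0,n0,n0,n0,n0,n0,m1,n0,m2] (e' := [n0,n0,n0,n0,n0,n0,n0,n1,n0,n2]) (by decide +kernel) (by decide +kernel)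
  (.t t15 ok15) cl6

theorem cl8 : Clo K (Helper55.TR.GT 1 Helper55.TR.BrU) l31 :=
  .q [n0,n0,n0,n0,n0,n2,n0,n0,n0,n0,n0,m1] (e' := [n0,n0,n0,n0,n0,m2,n0,n0,n0,n0,n0,n1]) (.p false [0,0,1] [] (⟨0,[(26,
  0)]⟩,⟨0,[(32,0)]⟩) .k 0 (⟨0,[]⟩,⟨0,[]⟩) .k .k) (by decide +kernel) (by decide +kernel) (.t t19
  ok19) (.h (Helper55.TR.GT.lb Helper55.CD.Dm1_1_c6u_60_2.g 336717545802024804158106063803308282516582690053058666360666568270387329437501798781102482646933422215325375880635046438164423312389212876393170080482658577354584447968208996456832261491367005440000 (by decide +kernel)))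

theorem cl9 : Clo K (Helper55.TR.GT 1 Helper55.TR.BrU) r26 :=
  .q [n0,n0,n0,n0,n0,n0,n1,n1,m1,m1,n1,n1,m1] (e' := [n0,n0,n0,n0,n0,n0,m1,m1,n1,n1,m1,m1,n1]) (.p false [0,0,-1,1]
  [1] (⟨0,[(5,0)]⟩,⟨0,[(25,0),(16,0)]⟩) .k 1 (⟨0,[]⟩,⟨0,[]⟩) .k (.r (-1) ⟨3,[(0,1),(23,2),(1,5),(24,
  0)]⟩ ⟨12,[(7,2),(7,3),(12,2),(10,5),(1,6),(8,8),(2,2),(1,3)]⟩)) (by decide +kernel)
  (by decide +kernel) cl8 (.h (Helper55.TR.GT.lb Helper55.CD.Dm1_1_c6u_60_3.g 466839262230716836102465618045411723749436830883948056435634672843862550896725245298796121678362373099823963490880675040215097207596676244294130140666663897523159337359305216875412200745872922243849334555659 (by decide +kernel)))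

theorem cl10 : Clo K (Helper55.TR.GT 1 Helper55.TR.BrU) r25 :=
  .i [n1,n0,m1,m1,n0,n0,n0,n1,n0,m2] (e' := [n0,n0,n1,n1,n0,n0,n0,m1,n0,n2]) (by decide +kernel)
  (by decide +kernel) cl7 cl9

theorem cl11 : Clo K (Helper55.TR.GT 1 Helper55.TR.BrU) r24 :=
  .q [n0,n0,n0,n0,n0,n1,n0,n0,n0,n0,n0,n1,m1] (e' := [n0,n0,n0,n0,n0,m1,n0,n0,n0,n0,n0,m1,n1]) (.p false [0,0,-1,1] [] (⟨0,
  [(3,0)]⟩,⟨0,[(23,0),(16,0)]⟩) .k 0 (⟨0,[]⟩,⟨0,[]⟩) .k (.r (-1) ⟨7,[(6,0),(0,0),(14,5),(2,1),(4,6),
  (15,2),(2,1),(5,2)]⟩ ⟨12,[(5,2),(7,3),(12,2),(10,5),(1,6),(8,8),(2,2),(1,3)]⟩))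
  (by decide +kernel) (by decide +kernel) (.t t14 ok14) cl10

theorem cl12 : Clo K (Helper55.TR.GT 1 Helper55.TR.BrU) r23 :=
  .q [n0,m1,n0,m2,n0,n0,n0,n0,m1,m1,n1,n0,m1] (e' := [n0,n1,n0,n2,n0,n0,n0,n0,n1,n1,m1,n0,n1]) (.p false [0,0,0,1] [1]
  (⟨0,[(35,0)]⟩,⟨0,[(39,0)]⟩) .k 1 (⟨0,[]⟩,⟨0,[]⟩) .k .k) (by decide +kernel) (by decide +kernel)
  (.t t13 ok13) cl11

theorem cl13 : Clo K (Helper55.TR.GT 1 Helper55.TR.BrU) l22 :=
  .i [n1,n1,m1,n0,n0,n0,n0,n1,n0,m1] (e' := [n0,m1,n1,n0,n0,n0,n0,m1,n0,n1]) (by decide +kernel)
  (by decide +kernel) (.t t12 ok12) cl12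

theorem cl14 : Clo K (Helper55.TR.GT 1 Helper55.TR.BrU) l21 :=
  .q [n0,n0,n0,m1,n0,n0,n1,n1,m1,m1,n1,n1,m1] (e' := [n0,n0,n0,n1,n0,n0,m1,m1,n1,n1,m1,m1,n1]) (.p false [0,0,-1,1]
  [1] (⟨0,[(0,0)]⟩,⟨0,[(20,0),(16,0)]⟩) .k 1 (⟨0,[]⟩,⟨0,[]⟩) .k (.r (-1) ⟨7,[(3,0),(0,0),(14,5),(2,
  1),(4,6),(15,2),(2,1),(5,2)]⟩ ⟨12,[(2,2),(7,3),(12,2),(10,5),(1,6),(8,8),(2,2),(1,3)]⟩))
  (by decide +kernel) (by decide +kernel) cl13 (.h (Helper55.TR.GT.lb Helper55.CD.Dm1_1_c6u_60_4.g 269988309646375518108261999818888065191457456880759231942034305251244723747693237659979673410559741852369894786493944540479577651856482676260148578334330168073202032307641725526155221533699 (by decide +kernel)))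

theorem cl15 : Clo K (Helper55.TR.GT 1 Helper55.TR.BrU) r20 :=
  .q [n0,n0,n0,n0,n0,n0,n0,n0,n0,n0,n0,m1,n1] (e' := [n0,n0,n0,n0,n0,n0,n0,n0,n0,n0,n0,n1,m1]) (.ed false [1,0,-1,1] (.r
  (-1) ⟨7,[(2,0),(0,0),(14,5),(2,1),(4,6),(15,2),(2,1),(5,2)]⟩ ⟨12,[(1,2),(7,3),(12,2),(10,5),(1,6),
  (8,8),(2,2),(1,3)]⟩)) (by decide +kernel) (by decide +kernel) cl14 (.h (Helper55.TR.GT.lJ Helper55.CD.Dm1_1_c6u_60_5.g 258602306041469244527583941019696351755217193709153590266684457788007636060487681791429475220691763674513693763684777972710015623201251902666169055130179096216090414061390582156768068287596588 (by decide +kernel)))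

theorem cl16 : Clo K (Helper55.TR.GT 1 Helper55.TR.BrU) l19 :=
  .i [n0,n1,n0,n0,n0,n0,n0,m1,n0,m1] (e' := [n1,m1,n0,n0,n0,n0,n0,n1,n0,n1]) (by decide +kernel) (by decide +kernel)
  (.t t11 ok11) cl15

theorem cl17 : Clo K (Helper55.TR.GT 1 Helper55.TR.BrU) l33 :=
  .i [n1,n0,n1,n1,n0,n0,n0,m2,n0,n1] (e' := [n0,n0,m1,m1,n0,n0,n0,n2,n0,m1]) (by decide +kernel)
  (by decide +kernel) (.t t20 ok20) (.h (Helper55.TR.GT.l1 Helper55.CD.Dm1_1_c6u_60_6.g 217040545705443771847742777268259879431177787856351116649453436127306680093309302069080010657015561020167095408847194849439005113336679330133657642738891131287095006726443504080319950850 (by decide +kernel)))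

theorem cl18 : Clo K (Helper55.TR.GT 1 Helper55.TR.BrU) l36 :=
  .i [n0,n1,n0,n0,n0,n0,n0,m1,n0,m1] (e' := [n1,m1,n0,n0,n0,n0,n0,n1,n0,n1]) (by decide +kernel) (by decide +kernel)
  (.t t21 ok21) (.h (Helper55.TR.GT.lb Helper55.CD.Dm1_1_c6u_60_7.g 232378106240310309289689832077104920256558922239601288127604009104917617152965952820676082754500927699076400479776221947991893914415989555456600118191625429612124702723 (by decide +kernel)))

theorem cl19 : Clo K (Helper55.TR.GT 1 Helper55.TR.BrU) r39 :=
  .q [n0,n0,n0,n0,n0,n1,n0,n0,n0,n0,n0,m1,n1] (e' := [n0,n0,n0,n0,n0,m1,n0,n0,n0,n0,n0,n1,m1]) (.p true [1,0,-1,1] [1] (⟨0,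
  [(29,0),(6,0)]⟩,⟨0,[(0,0)]⟩) .k 1 (⟨0,[]⟩,⟨0,[]⟩) .k (.r (-1) ⟨5,[(4,1),(17,4),(1,5),(5,3),(18,
  0)]⟩ ⟨7,[(13,1),(18,2),(4,5),(1,1),(5,2),(2,5),(4,1)]⟩)) (by decide +kernel) (by decide +kernel)
  (.t t23 ok23) (.h (Helper55.TR.GT.lb Helper55.CD.Dm1_1_c6u_60_8.g 259556498401573897643623253428167689056476259844163302292901620216806334352488636747262859701852136740669720011157023799309628386311470957791991561117715344449397049398492851678654496771 (by decide +kernel)))

theorem cl20 : Clo K (Helper55.TR.GT 1 Helper55.TR.BrU) l38 :=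
  .q [n0,n0,n0,n0,n0,n0,n0,n0,n0,n0,n0,m1,n1] (e' := [n0,n0,n0,n0,n0,n0,n0,n0,n0,n0,n0,n1,m1]) (.ed false [1,0,-1,1] (.r
  (-1) ⟨5,[(3,1),(17,4),(1,5),(5,3),(18,0)]⟩ ⟨7,[(12,1),(18,2),(4,5),(1,1),(5,2),(2,5),(4,1)]⟩))
  (by decide +kernel) (by decide +kernel) (.t t22 ok22) cl19

theorem cl21 : Clo K (Helper55.TR.GT 1 Helper55.TR.BrU) r42 :=
  .q [n0,m1,n0,m2,n0,n0,n0,n0,m1,m1,n1,n0,m1] (e' := [n0,n1,n0,n2,n0,n0,n0,n0,n1,n1,m1,n0,n1]) (.p false [0,0,0,1] [1]
  (⟨0,[(37,0)]⟩,⟨0,[(41,0)]⟩) .k 1 (⟨0,[]⟩,⟨0,[]⟩) .k .k) (by decide +kernel) (by decide +kernel)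
  (.t t25 ok25) (.h (Helper55.TR.GT.lJ Helper55.CD.Dm1_1_c6u_60_9.g 78798524414744274903384185574544290142713326387949896903783965241172606490918884831562688770506993123980756881820314730828697972332586093441224792037923720266819068924053758706090016354892534385470391316 (by decide +kernel)))

theorem cl22 : Clo K (Helper55.TR.GT 1 Helper55.TR.BrU) l41 :=
  .q [n0,n0,n0,n0,n0,n2,n0,n0,n0,n0,n0,m1] (e' := [n0,n0,n0,n0,n0,m2,n0,n0,n0,n0,n0,n1]) (.p false [0,0,1] [] (⟨0,[(23,
  0)]⟩,⟨0,[(29,0)]⟩) .k 0 (⟨0,[]⟩,⟨0,[]⟩) .k .k) (by decide +kernel) (by decide +kernel) (.t t24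
  ok24) cl21

theorem cl23 : Clo K (Helper55.TR.GT 1 Helper55.TR.BrU) r38 :=
  .q [n0,n0,n0,n0,n0,n0,n1,n1,m1,m1,n1,n1,m1] (e' := [n0,n0,n0,n0,n0,n0,m1,m1,n1,n1,m1,m1,n1]) (.p false [0,0,-1,1]
  [1] (⟨0,[(0,0),(55,0)]⟩,⟨0,[(22,0),(16,0)]⟩) .k 1 (⟨0,[]⟩,⟨0,[]⟩) .k (.r (-1) ⟨5,[(3,1),(17,4),(1,
  5),(5,3),(18,0)]⟩ ⟨7,[(12,1),(18,2),(4,5),(1,1),(5,2),(2,5),(4,1)]⟩)) (by decide +kernel)
  (by decide +kernel) cl22 (.h (Helper55.TR.GT.lb Helper55.CD.Dm1_1_c6u_60_10.g 73271092970517445823692085486615191867154323779032613739903850213852286619300599385505652797433972414245581158318018410062816552591346716372542408810895759454518898001203524195967573151912605699 (by decide +kernel)))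

theorem cl24 : Clo K (Helper55.TR.GT 1 Helper55.TR.BrU) r36 :=
  .q [n0,n0,n0,n0,n0,n1,n0,n0,n0,n0,n0,n1,m1] (e' := [n0,n0,n0,n0,n0,m1,n0,n0,n0,n0,n0,m1,n1]) (.p true [0,0,1] [0,0,0,1]
  (⟨0,[(21,0)]⟩,⟨0,[(27,0)]⟩) .k 2 (⟨0,[(34,0)]⟩,⟨0,[(38,0)]⟩) .k (.r 0 ⟨7,[(11,1),(18,2),(4,5),(1,
  1),(5,2),(2,5),(4,1)]⟩ ⟨5,[(2,1),(17,4),(1,5),(5,3),(18,0)]⟩)) (by decide +kernel)
  (by decide +kernel) cl20 cl23

theorem cl25 : Clo K (Helper55.TR.GT 1 Helper55.TR.BrU) l35 :=
  .q [n0,n0,n2,n0,m1,n0,m2,n0,m1,n0,n1,m2,m1] (e' := [n0,n0,m2,n0,n1,n0,n2,n0,n1,n0,m1,n2,n1]) (.p false [0,0,1] [1,0,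
  -1,-1] (⟨0,[(20,0)]⟩,⟨0,[(26,0)]⟩) .k 2 (⟨0,[(16,0)]⟩,⟨0,[(20,0),(12,0)]⟩) .k (.r 0 ⟨4,[(27,4),(0,
  0),(5,0),(7,0),(5,0),(1,0),(0,6)]⟩ ⟨0,[(10,0),(12,0),(12,0),(6,0),(2,0)]⟩)) (by decide +kernel)
  (by decide +kernel) cl18 cl24

theorem cl26 : Clo K (Helper55.TR.GT 1 Helper55.TR.BrU) l44 :=
  .i [n1,n1,n0,n0,n0,n0,n0,m1,n0,m1] (e' := [n0,m1,n0,n0,n0,n0,n0,n1,n0,n1]) (by decide +kernel) (by decide +kernel)
  (.t t26 ok26) (.h (Helper55.TR.GT.lb Helper55.CD.Dm1_1_c6u_60_11.g 265381882843127068180160513152553067222143030543065288476795243515466580660363937342554593484495925307323501729534974261522391601520689920892325150888896444396129545880344723459 (by decide +kernel)))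

theorem cl27 : Clo K (Helper55.TR.GT 1 Helper55.TR.BrU) l47 :=
  .q [n0,n0,n0,n0,n0,n2,n0,n0,n0,n0,n0,m1] (e' := [n0,n0,n0,n0,n0,m2,n0,n0,n0,n0,n0,n1]) (.p false [0,0,1] [] (⟨0,[(23,
  0)]⟩,⟨0,[(29,0)]⟩) .k 0 (⟨0,[]⟩,⟨0,[]⟩) .k .k) (by decide +kernel) (by decide +kernel) (.t t27
  ok27) (.h (Helper55.TR.GT.lb Helper55.CD.Dm1_1_c6u_60_12.g 61144272305743487055649329715317673241521869326240958238127374477496075816090282312875445329352432478745902817603394489111898873803196455944327069890158142948444039765771965957131 (by decide +kernel)))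

theorem cl28 : Clo K (Helper55.TR.GT 1 Helper55.TR.BrU) l46 :=
  .q [n0,n0,n0,n0,n0,n0,n1,n1,m1,m1,n1,n1,m1] (e' := [n0,n0,n0,n0,n0,n0,m1,m1,n1,n1,m1,m1,n1]) (.p false [0,0,-1,1]
  [1] (⟨0,[(0,0)]⟩,⟨0,[(22,0),(16,0)]⟩) .k 1 (⟨0,[]⟩,⟨0,[]⟩) .k (.r (-1) ⟨5,[(3,1),(17,4),(1,5),(5,
  3),(18,0)]⟩ ⟨7,[(12,1),(18,2),(4,5),(1,1),(5,2),(2,5),(4,1)]⟩)) (by decide +kernel)
  (by decide +kernel) cl27 (.h (Helper55.TR.GT.lb Helper55.CD.Dm1_1_c6u_60_13.g 401256890460777912046161311414471434315544849689131290504994490617924922821960047931862598759224622882279403529023044858325988649574276446730217258704758364772909562569483622222228483502769155 (by decide +kernel)))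

theorem cl29 : Clo K (Helper55.TR.GT 1 Helper55.TR.BrU) r44 :=
  .q [n0,n0,n0,n0,n0,n0,n0,n0,n0,n0,n0,m1,n1] (e' := [n0,n0,n0,n0,n0,n0,n0,n0,n0,n0,n0,n1,m1]) (.ed false [1,0,-1,1] (.r
  (-1) ⟨5,[(2,1),(17,4),(1,5),(5,3),(18,0)]⟩ ⟨7,[(11,1),(18,2),(4,5),(1,1),(5,2),(2,5),(4,1)]⟩))
  (by decide +kernel) (by decide +kernel) cl28 (.h (Helper55.TR.GT.lb Helper55.CD.Dm1_1_c6u_60_14.g 268042419850162370574634184520798849482189414743345509410686039355443088524540779780134641725349975408643248257534311003763912699731523696134223605905686064987700641309004249326052966412 (by decide +kernel)))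

theorem cl30 : Clo K (Helper55.TR.GT 1 Helper55.TR.BrU) r35 :=
  .q [n0,n0,n2,n0,m1,n0,m2,n0,m1,n0,n1,m2,m1] (e' := [n0,n0,m2,n0,n1,n0,n2,n0,n1,n0,m1,n2,n1]) (.p false [0,0,1] [1,0,
  -1,-1] (⟨0,[(20,0)]⟩,⟨0,[(26,0)]⟩) .k 2 (⟨0,[(16,0)]⟩,⟨0,[(20,0),(12,0)]⟩) .k (.r 0 ⟨4,[(27,4),(0,
  0),(5,0),(7,0),(5,0),(1,0),(0,6)]⟩ ⟨0,[(10,0),(12,0),(12,0),(6,0),(2,0)]⟩)) (by decide +kernel)
  (by decide +kernel) cl26 cl29

theorem cl31 : Clo K (Helper55.TR.GT 1 Helper55.TR.BrU) r33 :=
  .q [n0,n0,n0,n0,n0,n1,n0,n0,n0,n0,m1,n1,n1] (e' := [n0,n0,n0,n0,n0,m1,n0,n0,n0,n0,n1,m1,m1]) (.p true [0,0,1,1] [1] (⟨0,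
  [(19,0),(12,0)]⟩,⟨0,[(15,0)]⟩) .k 1 (⟨0,[]⟩,⟨0,[]⟩) .k (.r 0 ⟨0,[(17,0),(8,0),(25,0)]⟩ ⟨1,[(18,0),
  (1,1),(1,0),(12,1),(6,0),(0,1),(1,0)]⟩)) (by decide +kernel) (by decide +kernel) cl25 cl30

theorem cl32 : Clo K (Helper55.TR.GT 1 Helper55.TR.BrU) r19 :=
  .i [n1,n0,m1,m1,n0,n0,n0,n2,n0,m1] (e' := [n0,n0,n1,n1,n0,n0,n0,m2,n0,n1]) (by decide +kernel)
  (by decide +kernel) cl17 cl31

theorem cl33 : Clo K (Helper55.TR.GT 1 Helper55.TR.BrU) r18 :=
  .q [n0,n0,m1,n0,n0,n0,m2,n0,m1,n0,n1,m2,m1] (e' := [n0,n0,n1,n0,n0,n0,n2,n0,n1,n0,m1,n2,n1]) (.p false [0,0,1] [1,0,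
  -1,-1] (⟨0,[(17,0)]⟩,⟨0,[(23,0)]⟩) .k 2 (⟨0,[(13,0)]⟩,⟨0,[(17,0),(12,0)]⟩) .k (.r 0 ⟨4,[(24,4),(0,
  0),(5,0),(7,0),(5,0),(1,0),(0,6)]⟩ ⟨0,[(7,0),(12,0),(12,0),(6,0),(2,0)]⟩)) (by decide +kernel)
  (by decide +kernel) cl16 cl32

theorem cl34 : Clo K (Helper55.TR.GT 1 Helper55.TR.BrU) l17 :=
  .q [n0,n0,n0,m2,n0,n0,n1,n1,m1,m1,n0,n1,m1] (e' := [n0,n0,n0,n2,n0,n0,m1,m1,n1,n1,n0,m1,n1]) (.p true [0,0,1] [0,0,0,
  1] (⟨0,[(16,0)]⟩,⟨0,[(22,0)]⟩) .k 2 (⟨0,[(29,0)]⟩,⟨0,[(33,0)]⟩) .k (.r 0 ⟨7,[(6,1),(18,2),(4,5),
  (1,1),(5,2),(2,5),(4,1)]⟩ ⟨11,[(15,8),(2,3),(4,11),(15,3),(2,2),(2,1),(2,3)]⟩))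
  (by decide +kernel) (by decide +kernel) (.t t10 ok10) cl33

theorem cl35 : Clo K (Helper55.TR.GT 1 Helper55.TR.BrU) r16 :=
  .q [n0,n0,n1,n0,n0,n0,n1,n0,m1,n0,n0,n1,m1] (e' := [n0,n0,m1,n0,n0,n0,m1,n0,n1,n0,n0,m1,n1]) (.p true [0,0,1] [0,0,0,
  1] (⟨0,[(15,0)]⟩,⟨0,[(21,0)]⟩) .k 2 (⟨0,[(28,0)]⟩,⟨0,[(32,0)]⟩) .k (.r 0 ⟨7,[(5,1),(18,2),(4,5),
  (1,1),(5,2),(2,5),(4,1)]⟩ ⟨11,[(14,8),(2,3),(4,11),(15,3),(2,2),(2,1),(2,3)]⟩))
  (by decide +kernel) (by decide +kernel) cl34 (.t t28 ok28)

theorem cl36 : Clo K (Helper55.TR.GT 1 Helper55.TR.BrU) r15 :=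
  .i [n0,n1,m1,n0,n0,n0,n0,n0,n0,m2] (e' := [n1,m1,n1,n0,n0,n0,n0,n0,n0,n2]) (by decide +kernel) (by decide +kernel)
  (.t t9 ok9) cl35

theorem cl37 : Clo K (Helper55.TR.GT 1 Helper55.TR.BrU) l14 :=
  .q [n0,n0,n0,m1,n0,n0,n1,n1,m1,m1,n0,n1,m1] (e' := [n0,n0,n0,n1,n0,n0,m1,m1,n1,n1,n0,m1,n1]) (.p true [0,0,1] [0,0,0,
  1] (⟨0,[(13,0)]⟩,⟨0,[(19,0)]⟩) .k 2 (⟨0,[(26,0)]⟩,⟨0,[(30,0)]⟩) .k (.r 0 ⟨7,[(3,1),(18,2),(4,5),
  (1,1),(5,2),(2,5),(4,1)]⟩ ⟨11,[(12,8),(2,3),(4,11),(15,3),(2,2),(2,1),(2,3)]⟩))
  (by decide +kernel) (by decide +kernel) (.t t8 ok8) cl36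

theorem cl38 : Clo K (Helper55.TR.GT 1 Helper55.TR.BrU) l54 :=
  .q [n0,n0,n1,n0,n0,n0,n1,n0,m1,n0,n1,n1,m1] (e' := [n0,n0,m1,n0,n0,n0,m1,n0,n1,n0,m1,m1,n1]) (.p false [0,0,-1,1] [1]
  (⟨0,[(0,0)]⟩,⟨0,[(19,0),(16,0)]⟩) .k 1 (⟨0,[]⟩,⟨0,[]⟩) .k (.r (-1) ⟨5,[(5,1),(12,4),(1,1),(5,7),
  (18,0)]⟩ ⟨2,[(3,0),(18,0),(10,1),(9,0),(0,1),(4,0)]⟩)) (by decide +kernel) (by decide +kernel)
  (.t t32 ok32) (.h (Helper55.TR.GT.lb Helper55.CD.Dm1_1_c6u_60_15.g 83252140697591332165743507798543778111317646784811009581885659902415320093075051011801972347435943920772141559928591569502064656549504397698047708202734265152933980014595 (by decide +kernel)))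

theorem cl39 : Clo K (Helper55.TR.GT 1 Helper55.TR.BrU) r54 :=
  .q [n0,n0,n0,n0,n0,n1,n0,n0,n0,n0,n0,m1,n1] (e' := [n0,n0,n0,n0,n0,m1,n0,n0,n0,n0,n0,n1,m1]) (.p true [1,0,-1,1] [1] (⟨0,
  [(25,0),(6,0)]⟩,⟨0,[(0,0)]⟩) .k 1 (⟨0,[]⟩,⟨0,[]⟩) .k (.r (-1) ⟨5,[(5,1),(12,4),(1,1),(5,7),(18,
  0)]⟩ ⟨2,[(3,0),(18,0),(10,1),(9,0),(0,1),(4,0)]⟩)) (by decide +kernel) (by decide +kernel) (.t
  t33 ok33) (.h (Helper55.TR.GT.lb Helper55.CD.Dm1_1_c6u_60_16.g 85231322290847842013775439390552031906174581764628240143517677024656538219962391584689152032150730493599502575691283779100658461606661873338910696263093257138489091993634819 (by decide +kernel)))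

theorem cl40 : Clo K (Helper55.TR.GT 1 Helper55.TR.BrU) r53 :=
  .q [n0,n0,n0,n0,n0,n0,n0,n0,n0,n0,n0,m1,n1] (e' := [n0,n0,n0,n0,n0,n0,n0,n0,n0,n0,n0,n1,m1]) (.ed false [1,0,-1,1] (.r
  (-1) ⟨5,[(4,1),(12,4),(1,1),(5,7),(18,0)]⟩ ⟨2,[(2,0),(18,0),(10,1),(9,0),(0,1),(4,0)]⟩))
  (by decide +kernel) (by decide +kernel) cl38 cl39

theorem cl41 : Clo K (Helper55.TR.GT 1 Helper55.TR.BrU) r52 :=
  .i [n0,n1,n0,n0,n0,n0,n0,n0,n0,n1] (e' := [n1,m1,n0,n0,n0,n0,n0,n0,n0,m1]) (by decide +kernel) (by decide +kernel)
  (.t t31 ok31) cl40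

theorem cl42 : Clo K (Helper55.TR.GT 1 Helper55.TR.BrU) l51 :=
  .i [n1,n0,n0,n0,n0,n0,n0,m1,n0,m2] (e' := [n0,n0,n0,n0,n0,n0,n0,n1,n0,n2]) (by decide +kernel) (by decide +kernel)
  (.t t30 ok30) cl41

theorem cl43 : Clo K (Helper55.TR.GT 1 Helper55.TR.BrU) r50 :=
  .q [n0,n0,m1,n0,n0,n0,m1,n0,n1,n0,n0,m1,n1] (e' := [n0,n0,n1,n0,n0,n0,n1,n0,m1,n0,n0,n1,m1]) (.p false [0,0,1] [0,0,0,
  1] (⟨0,[(15,0)]⟩,⟨0,[(21,0)]⟩) .k 2 (⟨0,[(28,0)]⟩,⟨0,[(32,0)]⟩) .k (.r 0 ⟨7,[(5,1),(18,2),(4,5),
  (1,1),(5,2),(2,5),(4,1)]⟩ ⟨5,[(1,1),(12,4),(1,1),(5,7),(18,0)]⟩)) (by decide +kernel)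
  (by decide +kernel) cl42 (.t t34 ok34)

theorem cl44 : Clo K (Helper55.TR.GT 1 Helper55.TR.BrU) l49 :=
  .i [n0,n1,n0,n0,n0,n0,n0,m1,n0,m1] (e' := [n1,m1,n0,n0,n0,n0,n0,n1,n0,n1]) (by decide +kernel) (by decide +kernel)
  (.t t29 ok29) cl43

theorem cl45 : Clo K (Helper55.TR.GT 1 Helper55.TR.BrU) r14 :=
  .i [n0,n0,n1,n1,n0,n0,n0,m2,n0,m1] (e' := [n1,n0,m1,m1,n0,n0,n0,n2,n0,n1]) (by decide +kernel)
  (by decide +kernel) cl44 (.h (Helper55.TR.GT.lb Helper55.CD.Dm1_1_c6u_60_17.g 123801343580007008369451558699666755524971114261316320857575472814322567880351061150263147912863165242382915525027365797379508911868069446926374035358680840454930104442683395 (by decide +kernel)))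

theorem cl46 : Clo K (Helper55.TR.GT 1 Helper55.TR.BrU) r13 :=
  .i [n0,n0,n1,n0,n0,n1,n1,n0,m1] (e' := [n1,n0,m1,n0,n0,m1,m1,n0,n1]) (by decide +kernel) (by decide +kernel)
  cl37 cl45

theorem cl47 : Clo K (Helper55.TR.GT 1 Helper55.TR.BrU) l12 :=
  .q [n0,n0,n0,n0,n0,n2,n0,n0,n0,n0,n0,n0,m1] (e' := [n0,n0,n0,n0,n0,m2,n0,n0,n0,n0,n0,n0,n1]) (.p false [0,0,0,1] [] (⟨0,
  [(24,0)]⟩,⟨0,[(28,0)]⟩) .k 0 (⟨0,[]⟩,⟨0,[]⟩) .k .k) (by decide +kernel) (by decide +kernel) (.t
  t7 ok7) cl46

theorem cl48 : Clo K (Helper55.TR.GT 1 Helper55.TR.BrU) r11 :=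
  .q [n0,n0,m2,n0,n1,n0,n1,n0,m1,n0,n0,n1,m1] (e' := [n0,n0,n2,n0,m1,n0,m1,n0,n1,n0,n0,m1,n1]) (.p true [0,0,1] [0,0,0,
  1] (⟨0,[(10,0)]⟩,⟨0,[(16,0)]⟩) .k 2 (⟨0,[(23,0)]⟩,⟨0,[(27,0)]⟩) .k (.r 0 ⟨7,[(0,1),(18,2),(4,5),
  (1,1),(5,2),(2,5),(4,1)]⟩ ⟨11,[(9,8),(2,3),(4,11),(15,3),(2,2),(2,1),(2,3)]⟩))
  (by decide +kernel) (by decide +kernel) cl47 (.t t35 ok35)

theorem cl49 : Clo K (Helper55.TR.GT 1 Helper55.TR.BrU) r6 :=
  .q [n0,n0,n0,m2,n0,n0,n0,n0,n1,n1,n0,n0,n1] (e' := [n0,n0,n0,n2,n0,n0,n0,n0,m1,m1,n0,n0,m1]) (.p true [0,0,0,1] [] (⟨0,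
  [(22,0)]⟩,⟨0,[(26,0)]⟩) .k 0 (⟨0,[]⟩,⟨0,[]⟩) .k .k) (by decide +kernel) (by decide +kernel) (.t
  t6 ok6) cl48

theorem cl50 : Clo K (Helper55.TR.GT 1 Helper55.TR.BrU) l5 :=
  .q [n0,n0,n0,n0,n0,n2,n0,n0,n0,n0,m1,n0,n1] (e' := [n0,n0,n0,n0,n0,m2,n0,n0,n0,n0,n1,n0,m1]) (.p true [0,0,0,1] [1] (⟨0,
  [(21,0)]⟩,⟨0,[(25,0)]⟩) .k 1 (⟨0,[]⟩,⟨0,[]⟩) .k .k) (by decide +kernel) (by decide +kernel) cl3
  cl49

theorem cl51 : Clo K (Helper55.TR.GT 1 Helper55.TR.BrU) l68 :=
  .i [n0,n1,n0,n0,n0,n0,n0,m1,n0,m1] (e' := [n1,m1,n0,n0,n0,n0,n0,n1,n0,n1]) (by decide +kernel) (by decide +kernel)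
  (.t t44 ok44) (.h (Helper55.TR.GT.lb Helper55.CD.Dm1_1_c6u_60_19.g 309774707045001285825204773801238153855703164668711443311457265723099565066902492790879179288034424412580556554585326560882941465521478485805032155375632332261654648588291 (by decide +kernel)))

theorem cl52 : Clo K (Helper55.TR.GT 1 Helper55.TR.BrU) r67 :=
  .q [n0,n0,n2,n0,m1,n0,m2,n0,m1,n0,n1,m2,m1] (e' := [n0,n0,m2,n0,n1,n0,n2,n0,n1,n0,m1,n2,n1]) (.p false [0,0,1] [1,0,
  -1,-1] (⟨0,[(19,0)]⟩,⟨0,[(25,0)]⟩) .k 2 (⟨0,[(15,0)]⟩,⟨0,[(19,0),(12,0)]⟩) .k (.r 0 ⟨4,[(26,4),(0,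
  0),(5,0),(7,0),(5,0),(1,0),(0,6)]⟩ ⟨3,[(0,2),(17,0),(3,2),(4,1),(5,2),(10,0),(0,3)]⟩))
  (by decide +kernel) (by decide +kernel) cl51 (.h (Helper55.TR.GT.lb Helper55.CD.Dm1_1_c6u_60_20.g 304149228395301205853317031762115765843055877870411477065664631310436259058554152509536846069963074213956477149693157167171067906565618382653898751020674294937982455275996724613194 (by decide +kernel)))

theorem cl53 : Clo K (Helper55.TR.GT 1 Helper55.TR.BrU) l66 :=
  .i [n1,n0,m3,m3,n1,n0,n0,n1,n0,n1] (e' := [n0,n0,n3,n3,m1,n0,n0,m1,n0,m1]) (by decide +kernel)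
  (by decide +kernel) (.h (Helper55.TR.GT.lb Helper55.CD.Dm1_1_c6u_60_18.g 231299647030532721808989983870146658465963547729085169083840653621524861562997820258374469110612179298876213991234504187687608540410847894146064854252021566157891595183304530198531 (by decide +kernel))) cl52

theorem cl54 : Clo K (Helper55.TR.GT 1 Helper55.TR.BrU) r65 :=
  .q [n0,n0,n0,n0,n0,n1,n0,n0,n0,n0,m1,n1,n1] (e' := [n0,n0,n0,n0,n0,m1,n0,n0,n0,n0,n1,m1,m1]) (.p true [0,0,1,1] [1] (⟨0,
  [(17,0),(12,0)]⟩,⟨0,[(13,0)]⟩) .k 1 (⟨0,[]⟩,⟨0,[]⟩) .k (.r 0 ⟨0,[(15,0),(8,0),(25,0)]⟩ ⟨1,[(16,0),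
  (1,1),(1,0),(12,1),(6,0),(0,1),(1,0)]⟩)) (by decide +kernel) (by decide +kernel) cl53 (.h
  (Helper55.TR.GT.lb Helper55.CD.Dm1_1_c6u_60_21.g 77513720428787095232320536696382113867955604158483376735065878358848087185641752905214131025091032458525149781270009897134184334329911186469062797965546208357092204230019075 (by decide +kernel)))

theorem cl55 : Clo K (Helper55.TR.GT 1 Helper55.TR.BrU) r64 :=
  .q [n0,n0,n0,m2,n0,n0,n0,n0,n1,n1,n0,n0,n1] (e' := [n0,n0,n0,n2,n0,n0,n0,n0,m1,m1,n0,n0,m1]) (.p true [0,0,0,1] [] (⟨0,
  [(29,0)]⟩,⟨0,[(33,0)]⟩) .k 0 (⟨0,[]⟩,⟨0,[]⟩) .k .k) (by decide +kernel) (by decide +kernel) (.t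
  t43 ok43) cl54

theorem cl56 : Clo K (Helper55.TR.GT 1 Helper55.TR.BrU) r63 :=
  .q [n0,n0,n0,n0,n0,n1,n0,n0,n0,n0,n0,m1,n1] (e' := [n0,n0,n0,n0,n0,m1,n0,n0,n0,n0,n0,n1,m1]) (.p true [1,0,-1,1] [1] (⟨0,
  [(21,0),(6,0)]⟩,⟨0,[(0,0)]⟩) .k 1 (⟨0,[]⟩,⟨0,[]⟩) .k (.r (-1) ⟨11,[(14,8),(2,3),(4,11),(15,3),(2,
  2),(2,1),(2,3)]⟩ ⟨2,[(24,0),(4,1),(1,0),(5,0),(1,0),(0,1),(4,0)]⟩)) (by decide +kernel)
  (by decide +kernel) (.t t42 ok42) cl55

theorem cl57 : Clo K (Helper55.TR.GT 1 Helper55.TR.BrU) l62 :=
  .q [n0,n0,n0,n0,n0,n0,n0,n0,n0,n0,n0,m1,n1] (e' := [n0,n0,n0,n0,n0,n0,n0,n0,n0,n0,n0,n1,m1]) (.ed false [1,0,-1,1] (.r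
  (-1) ⟨11,[(13,8),(2,3),(4,11),(15,3),(2,2),(2,1),(2,3)]⟩ ⟨2,[(23,0),(4,1),(1,0),(5,0),(1,0),(0,1),
  (4,0)]⟩)) (by decide +kernel) (by decide +kernel) (.t t41 ok41) cl56

theorem cl58 : Clo K (Helper55.TR.GT 1 Helper55.TR.BrU) l74 :=
  .q [n0,n0,n0,n0,n0,n2,n0,n0,n0,n0,n0,m1] (e' := [n0,n0,n0,n0,n0,m2,n0,n0,n0,n0,n0,n1]) (.p false [0,0,1] [] (⟨0,[(19,
  0)]⟩,⟨0,[(25,0)]⟩) .k 0 (⟨0,[]⟩,⟨0,[]⟩) .k .k) (by decide +kernel) (by decide +kernel) (.t t47
  ok47) (.h (Helper55.TR.GT.lb Helper55.CD.Dm1_1_c6u_60_22.g 54432014956240468434654494658151686055962999933385254139624324804836288343110876848857975237809674342888065294064343102063470578219697027830097004897244227378138711739860995 (by decide +kernel)))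

theorem cl59 : Clo K (Helper55.TR.GT 1 Helper55.TR.BrU) l79 :=
  .i [n0,n1,n2,n1,m1,n0,n0,n1,n0,m2] (e' := [n1,m1,m2,m1,n1,n0,n0,m1,n0,n2]) (by decide +kernel)
  (by decide +kernel) (.t t48 ok48) (.h (Helper55.TR.GT.lb Helper55.CD.Dm1_1_c6u_60_23.g 276441820534119729099800638744014906755841556180282333086077845504345152350871300894796330681046145722123608135097346718109909435791453396058338023637671799006406089601855566256058409295020035 (by decide +kernel)))

theorem cl60 : Clo K (Helper55.TR.GT 1 Helper55.TR.BrU) l78 :=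
  .q [n0,n0,n0,n1,n0,n0,n1,n1,m2,m2,n1,n1,m2] (e' := [n0,n0,n0,m1,n0,n0,m1,m1,n2,n2,m1,m1,n2]) (.p false [0,0,0,1] [1,
  0,1,-1] (⟨0,[(35,0)]⟩,⟨0,[(39,0)]⟩) .k 2 (⟨0,[(22,0),(16,0)]⟩,⟨0,[(7,0)]⟩) .k (.r (-1) ⟨35,[(1,1),
  (0,9),(6,3),(11,22),(7,47),(15,11),(3,0),(1,11),(2,9)]⟩ ⟨1,[(31,0),(4,1),(1,1),(5,0),(1,1),(0,
  1)]⟩)) (by decide +kernel) (by decide +kernel) cl59 (.h (Helper55.TR.GT.lb Helper55.CD.Dm1_1_c6u_60_24.g 253302951957148201862975958249826755793795405361443218104533365300410993879616331229729495747964207448586521860682556483038462154588099676784577979901433775778544274888157577270525955 (by decide +kernel)))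

theorem cl61 : Clo K (Helper55.TR.GT 1 Helper55.TR.BrU) l77 :=
  .q [n0,n0,n0,m2,n0,n0,m1,m1,n2,n2,m1,m1,n2] (e' := [n0,n0,n0,n2,n0,n0,n1,n1,m2,m2,n1,n1,m2]) (.p true [0,0,0,1] [1,
  0,1,-1] (⟨0,[(34,0)]⟩,⟨0,[(38,0)]⟩) .k 2 (⟨0,[(21,0),(16,0)]⟩,⟨0,[(6,0)]⟩) .k (.r (-1) ⟨35,[(0,1),
  (0,9),(6,3),(11,22),(7,47),(15,11),(3,0),(1,11),(2,9)]⟩ ⟨1,[(30,0),(4,1),(1,1),(5,0),(1,1),(0,
  1)]⟩)) (by decide +kernel) (by decide +kernel) cl60 (.h (Helper55.TR.GT.lb Helper55.CD.Dm1_1_c6u_60_25.g 264764293332301620660284945753697273208206297924188227742724276210624928025332208836998366677009600293121837345929683049857028310734451046502405496658327432664523712323811246364241983081218572292 (by decide +kernel)))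

theorem cl62 : Clo K (Helper55.TR.GT 1 Helper55.TR.BrU) l76 :=
  .q [n0,n0,m2,n0,n1,n0,n1,n0,m2,n0,n1,n1,m2] (e' := [n0,n0,n2,n0,m1,n0,m1,n0,n2,n0,m1,m1,n2]) (.p false [0,0,0,1] [1,
  0,1,-1] (⟨0,[(33,0)]⟩,⟨0,[(37,0)]⟩) .k 2 (⟨0,[(20,0),(16,0)]⟩,⟨0,[(5,0)]⟩) .k (.r (-1) ⟨8,[(0,2),
  (18,5),(2,1),(4,11),(15,1),(5,3),(2,1)]⟩ ⟨1,[(29,0),(4,1),(1,1),(5,0),(1,1),(0,1)]⟩))
  (by decide +kernel) (by decide +kernel) cl61 (.h (Helper55.TR.GT.lb Helper55.CD.Dm1_1_c6u_60_26.g 210876134217665303548445366866451789985583726327960414180958784586911098714052521814918271227792995796323081999873135392071654294051213250175151562592172589976819161490364120992771 (by decide +kernel)))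

theorem cl63 : Clo K (Helper55.TR.GT 1 Helper55.TR.BrU) r74 :=
  .i [n0,n0,m2,m2,n1,n0,n0,m1,n0,n2] (e' := [n1,n0,n2,n2,m1,n0,n0,n1,n0,m2]) (by decide +kernel)
  (by decide +kernel) cl62 (.t t49 ok49)

theorem cl64 : Clo K (Helper55.TR.GT 1 Helper55.TR.BrU) l73 :=
  .q [n0,n0,n0,n0,n0,n0,n1,n1,m1,m1,n1,n1,m1] (e' := [n0,n0,n0,n0,n0,n0,m1,m1,n1,n1,m1,m1,n1]) (.p false [0,0,-1,1]
  [1] (⟨0,[(3,0)]⟩,⟨0,[(18,0),(16,0)]⟩) .k 1 (⟨0,[]⟩,⟨0,[]⟩) .k (.r (-1) ⟨11,[(17,8),(2,3),(4,11),
  (15,3),(2,2),(2,1),(2,3)]⟩ ⟨2,[(27,0),(4,1),(1,0),(5,0),(1,0),(0,1),(4,0)]⟩)) (by decide +kernel)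
  (by decide +kernel) cl58 cl63

theorem cl65 : Clo K (Helper55.TR.GT 1 Helper55.TR.BrU) r72 :=
  .q [n0,n0,n0,n0,n0,m1,n0,n0,n0,n0,n1,m1,m1] (e' := [n0,n0,n0,n0,n0,n1,n0,n0,n0,n0,m1,n1,n1]) (.p false [0,0,1,1] [1]
  (⟨0,[(17,0),(12,0)]⟩,⟨0,[(13,0)]⟩) .k 1 (⟨0,[]⟩,⟨0,[]⟩) .k (.r 0 ⟨0,[(15,0),(8,0),(25,0)]⟩ ⟨1,
  [(16,0),(1,1),(1,0),(12,1),(6,0),(0,1),(1,0)]⟩)) (by decide +kernel) (by decide +kernel) cl64 (.h
  (Helper55.TR.GT.l1 Helper55.CD.Dm1_1_c6u_60_27.g 227144438106331977806678226533478037969241627210092767527128195916162798326473912667732819100954520719661169409575133568066154563065230192302847686330596753623659816511126483502082 (by decide +kernel)))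

theorem cl66 : Clo K (Helper55.TR.GT 1 Helper55.TR.BrU) r71 :=
  .q [n0,n0,n0,m2,n0,n0,n0,n0,n1,n1,n0,n0,n1] (e' := [n0,n0,n0,n2,n0,n0,n0,n0,m1,m1,n0,n0,m1]) (.p true [0,0,0,1] [] (⟨0,
  [(29,0)]⟩,⟨0,[(33,0)]⟩) .k 0 (⟨0,[]⟩,⟨0,[]⟩) .k .k) (by decide +kernel) (by decide +kernel) (.t
  t46 ok46) cl65

theorem cl67 : Clo K (Helper55.TR.GT 1 Helper55.TR.BrU) l70 :=
  .q [n0,n0,n0,n0,n0,n1,n0,n0,n0,n0,n0,n1,m1] (e' := [n0,n0,n0,n0,n0,m1,n0,n0,n0,n0,n0,m1,n1]) (.p false [0,0,-1,1] [] (⟨0,
  [(0,0)]⟩,⟨0,[(15,0),(16,0)]⟩) .k 0 (⟨0,[]⟩,⟨0,[]⟩) .k (.r (-1) ⟨11,[(14,8),(2,3),(4,11),(15,3),(2,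
  2),(2,1),(2,3)]⟩ ⟨2,[(24,0),(4,1),(1,0),(5,0),(1,0),(0,1),(4,0)]⟩)) (by decide +kernel)
  (by decide +kernel) (.t t45 ok45) cl66

theorem cl68 : Clo K (Helper55.TR.GT 1 Helper55.TR.BrU) r62 :=
  .q [n0,n0,n0,n0,n0,n0,n0,n0,n0,n0,n0,m1,n1] (e' := [n0,n0,n0,n0,n0,n0,n0,n0,n0,n0,n0,n1,m1]) (.ed false [1,0,-1,1] (.r
  (-1) ⟨11,[(13,8),(2,3),(4,11),(15,3),(2,2),(2,1),(2,3)]⟩ ⟨2,[(23,0),(4,1),(1,0),(5,0),(1,0),(0,1),
  (4,0)]⟩)) (by decide +kernel) (by decide +kernel) cl67 (.h (Helper55.TR.GT.lJ Helper55.CD.Dm1_1_c6u_60_28.g 209968245276039000620296594066276957283093168552337074968766700953506573004655898863698978417518296740755788025251419187378704856123116792451497893918652893081429732674660993025 (by decide +kernel)))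

theorem cl69 : Clo K (Helper55.TR.GT 1 Helper55.TR.BrU) r61 :=
  .q [n0,m1,n0,m2,n0,n0,n0,n0,m1,m1,n1,n0,m1] (e' := [n0,n1,n0,n2,n0,n0,n0,n0,n1,n1,m1,n0,n1]) (.p false [0,0,0,1] [1]
  (⟨0,[(26,0)]⟩,⟨0,[(30,0)]⟩) .k 1 (⟨0,[]⟩,⟨0,[]⟩) .k .k) (by decide +kernel) (by decide +kernel)
  cl57 cl68

theorem cl70 : Clo K (Helper55.TR.GT 1 Helper55.TR.BrU) r60 :=
  .q [n0,n0,n0,m2,n0,n0,n1,n1,m1,m1,n0,n1,m1] (e' := [n0,n0,n0,n2,n0,n0,m1,m1,n1,n1,n0,m1,n1]) (.p true [0,0,1] [0,0,0,
  1] (⟨0,[(12,0)]⟩,⟨0,[(18,0)]⟩) .k 2 (⟨0,[(25,0)]⟩,⟨0,[(29,0)]⟩) .k (.r 0 ⟨2,[(21,0),(4,1),(1,0),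
  (5,0),(1,0),(0,1),(4,0)]⟩ ⟨11,[(11,8),(2,3),(4,11),(15,3),(2,2),(2,1),(2,3)]⟩))
  (by decide +kernel) (by decide +kernel) (.t t40 ok40) cl69

theorem cl71 : Clo K (Helper55.TR.GT 1 Helper55.TR.BrU) r59 :=
  .q [n0,n0,n0,n0,n0,n2,n0,n0,n0,n0,n0,n0,m1] (e' := [n0,n0,n0,n0,n0,m2,n0,n0,n0,n0,n0,n0,n1]) (.p false [0,0,0,1] [] (⟨0,
  [(24,0)]⟩,⟨0,[(28,0)]⟩) .k 0 (⟨0,[]⟩,⟨0,[]⟩) .k .k) (by decide +kernel) (by decide +kernel) (.t
  t39 ok39) cl70

theorem cl72 : Clo K (Helper55.TR.GT 1 Helper55.TR.BrU) r58 :=
  .q [n0,n0,n2,n0,m1,n0,m1,n0,n1,n0,n0,m1,n1] (e' := [n0,n0,m2,n0,n1,n0,n1,n0,m1,n0,n0,n1,m1]) (.p false [0,0,1] [0,0,0,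
  1] (⟨0,[(10,0)]⟩,⟨0,[(16,0)]⟩) .k 2 (⟨0,[(23,0)]⟩,⟨0,[(27,0)]⟩) .k (.r 0 ⟨2,[(19,0),(4,1),(1,0),
  (5,0),(1,0),(0,1),(4,0)]⟩ ⟨11,[(9,8),(2,3),(4,11),(15,3),(2,2),(2,1),(2,3)]⟩))
  (by decide +kernel) (by decide +kernel) (.t t38 ok38) cl71

theorem cl73 : Clo K (Helper55.TR.GT 1 Helper55.TR.BrU) r57 :=
  .q [n0,m1,n0,m1,n0,n0,n0,n0,m1,m1,n1,n0,m1] (e' := [n0,n1,n0,n1,n0,n0,n0,n0,n1,n1,m1,n0,n1]) (.p false [0,0,0,1] [1]
  (⟨0,[(22,0)]⟩,⟨0,[(26,0)]⟩) .k 1 (⟨0,[]⟩,⟨0,[]⟩) .k .k) (by decide +kernel) (by decide +kernel)
  (.t t37 ok37) cl72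

theorem cl74 : Clo K (Helper55.TR.GT 1 Helper55.TR.BrU) r5 :=
  .q [n0,n0,n0,n0,n0,n2,n0,n0,n0,n0,m1,n0,n1] (e' := [n0,n0,n0,n0,n0,m2,n0,n0,n0,n0,n1,n0,m1]) (.p true [0,0,0,1] [1] (⟨0,
  [(21,0)]⟩,⟨0,[(25,0)]⟩) .k 1 (⟨0,[]⟩,⟨0,[]⟩) .k .k) (by decide +kernel) (by decide +kernel) (.t
  t36 ok36) cl73

theorem cl75 : Clo K (Helper55.TR.GT 1 Helper55.TR.BrU) l4 :=
  .i [n0,n0,m1,n0,n0,m1,m2,n0,n1] (e' := [n1,n0,n1,n0,n0,n1,n2,n0,m1]) (by decide +kernel) (by decide +kernel)
  cl50 cl74

theorem cl76 : Clo K (Helper55.TR.GT 1 Helper55.TR.BrU) l3 :=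
  .q [n0,n0,n0,n0,n0,m1,n0,n0,n0,n0,n0,n0,n1] (e' := [n0,n0,n0,n0,n0,n1,n0,n0,n0,n0,n0,n0,m1]) (.ed false [1,-1,0,1] .k)
  (by decide +kernel) (by decide +kernel) cl75 (.t t50 ok50)

theorem cl77 : Clo K (Helper55.TR.GT 1 Helper55.TR.BrU) r2 :=
  .q [n0,n0,n0,n0,n0,n0,n0,n0,n1,n0,m1,n0,n1] (e' := [n0,n0,n0,n0,n0,n0,n0,n0,m1,n0,n1,n0,m1]) (.p true [0,0,0,1] [1] (⟨0,
  [(18,0)]⟩,⟨0,[(22,0)]⟩) .k 1 (⟨0,[]⟩,⟨0,[]⟩) .k .k) (by decide +kernel) (by decide +kernel) cl76
  (.t t51 ok51)

theorem cl78 : Clo K (Helper55.TR.GT 1 Helper55.TR.BrU) l1 :=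
  .q [n0,n1,n0,n0,n0,n0,n1,n1,n1,n1,n0,n1,n1] (e' := [n0,m1,n0,n0,n0,n0,m1,m1,m1,m1,n0,m1,m1]) (.p true [0,0,1,1] []
  (⟨0,[(4,0),(12,0)]⟩,⟨0,[(0,0)]⟩) .k 0 (⟨0,[]⟩,⟨0,[]⟩) .k (.r 0 ⟨0,[(2,0),(8,0),(25,0)]⟩ ⟨1,[(3,0),
  (1,1),(1,0),(12,1),(6,0),(0,1),(1,0)]⟩)) (by decide +kernel) (by decide +kernel) (.t t1 ok1) cl77

theorem cl79 : Clo K (Helper55.TR.GT 1 Helper55.TR.BrU) r82 :=
  .q [n0,n0,n0,n0,n0,n0,n0,n0,n1,n0,m1,n0,n1] (e' := [n0,n0,n0,n0,n0,n0,n0,n0,m1,n0,n1,n0,m1]) (.p true [0,0,0,1] [1] (⟨0,
  [(19,0)]⟩,⟨0,[(23,0)]⟩) .k 1 (⟨0,[]⟩,⟨0,[]⟩) .k .k) (by decide +kernel) (by decide +kernel) (.h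
  (Helper55.TR.GT.lb Helper55.CD.Dm1_1_c6u_60_29.g 254047936877659981034587194401128789419153016047110015505304667169909895214159196469178314034481055036771090961876694414013467272693292712949608863180143988737 (by decide +kernel))) (.t t54 ok54)

theorem cl80 : Clo K (Helper55.TR.GT 1 Helper55.TR.BrU) r81 :=
  .q [n0,n0,n2,n0,m1,n0,m1,n0,n1,n0,n0,m1,n1] (e' := [n0,n0,m2,n0,n1,n0,n1,n0,m1,n0,n0,n1,m1]) (.p false [0,0,1] [0,0,0,
  1] (⟨0,[(5,0)]⟩,⟨0,[(11,0)]⟩) .k 2 (⟨0,[(18,0)]⟩,⟨0,[(22,0)]⟩) .k (.r 0 ⟨2,[(14,0),(4,1),(1,0),(5,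
  0),(1,0),(0,1),(4,0)]⟩ ⟨11,[(4,8),(2,3),(4,11),(15,3),(2,2),(2,1),(2,3)]⟩)) (by decide +kernel)
  (by decide +kernel) (.t t53 ok53) cl79

theorem cl81 : Clo K (Helper55.TR.GT 1 Helper55.TR.BrU) r1 :=
  .q [n0,n1,n0,m2,n0,n0,n1,n1,n1,n1,m1,n1,n1] (e' := [n0,m1,n0,n2,n0,n0,m1,m1,m1,m1,n1,m1,m1]) (.p true [-1,0,1,1]
  [] (⟨0,[(0,0)]⟩,⟨0,[(10,0),(10,0)]⟩) .k 0 (⟨0,[]⟩,⟨0,[]⟩) .k (.r 0 ⟨0,[(2,0),(8,0),(25,0)]⟩ ⟨1,
  [(3,0),(1,1),(1,0),(12,1),(6,0),(0,1),(1,0)]⟩)) (by decide +kernel) (by decide +kernel) (.t t52
  ok52) cl80

theorem cl82 : Clo K (Helper55.TR.GT 1 Helper55.TR.BrU) r0 :=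
  .q [n0,n0,n0,n0,n0,n0,n0,n0,n0,n0,n1,m1,m1] (e' := [n0,n0,n0,n0,n0,n0,n0,n0,n0,n0,m1,n1,n1]) (.ed true [0,0,1,1] (.r 0
  ⟨0,[(1,0),(8,0),(25,0)]⟩ ⟨1,[(2,0),(1,1),(1,0),(12,1),(6,0),(0,1),(1,0)]⟩)) (by decide +kernel)
  (by decide +kernel) cl78 cl81

theorem cl83 : Clo K (Helper55.TR.GT 1 Helper55.TR.BrU) base :=
  .q [n0,m1,n0,n0,n0,n0,n0,n0,m1,m1,n1,n0,m1] (e' := [n0,n1,n0,n0,n0,n0,n0,n0,n1,n1,m1,n0,n1]) (.p false [0,0,0,1] [1]
  (⟨0,[(15,0)]⟩,⟨0,[(19,0)]⟩) .k 1 (⟨0,[]⟩,⟨0,[]⟩) .k .k) (by decide +kernel) (by decide +kernel)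
  (.t t0 ok0) cl82

theorem g : Helper55.TR.GT 1 Helper55.TR.BrU base :=
  Helper55.TR.GT.of cl83

end Helper55.CD.Dm1_1_c6u_60
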