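import Pool.Agent.Helper55.CE.H_m1_1_c6u_87_b0
import Pool.Agent.Helper55.TR.Num
import Pool.Agent.Helper81.PC.Sound
import Pool.Agent.Helper55.TR.Enc2

set_option autoImplicit false
set_option linter.all false

namespace Helper55.CD.Dm1_1_c6u_87

open Helper25.KG Helper25.KW Helper55.KE Helper11.CT Helper55.TR.Nm

noncomputable def K : Cls :=
  Helper55.TR.KT 1

noncomputable def base : List Con :=
  [(false,[n0,n0,n1,n0,n0,n0,m1,n0,n0,n0,n0,m1]),
  (true,[n0,m2,n0,n0,n1]),
  (true,[n1,n1,n0,n0,n0,n0,n0,n0,n0,n1]),
  (false,[n0,n1,n0,n0,n0,n0,n1,n1,n0,n0,n0,n1]),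
  (false,[n0,n0,n0,n1,n0,n0,n0,n0,m1,m1,n0,n0,m1]),
  (false,[n0,n0,n0,n0,n0,n0,n0,n0,n1,n0,n0,n0,n1]),
  (true,[n0,n0,m2,m2,n1,n0,n0,m2]),
  (true,[n0,n0,m2,n0,n1]),
  (false,[n0,n0,n1,n0,n0,n0,n1,n0,n0,n0,n0,n1]),
  (true,[m1,n1]),
  (true,[n1,n0,n0,n1,n0,n0,n0,n1]),
  (true,[n0,m1,n0,m1,n0,n0,n0,n0,n0,m1]),
  (true,[n0,n0,n0,m1]),
  (true,[n0,n1,n0,n1]),
  (true,[n1,m1,n1,n1,n0,n0,n0,m1]),
  (true,[n1,m1,n0,n0,n0,n0,n0,n1]),
  (false,[n0,n0,n0,n0,n0,n0,n0,n0,n0,n0,n1,m1]),
  (false,[n0,n0,n0,n0,n0,n0,n0,n0,n0,n0,n0,n1]),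
  (false,[n0,m1,n0,n0,n0,n0,m1,m1,n0,n0,n1,m1]),
  (false,[n0,n0,n0,n0,n0,n0,n0,n0,n0,n0,n0,n0,n1]),
  (false,[n0,n0,n0,n0,n1,n0,n0,n0,n0,n0,m2]),
  (false,[n0,n1,n0,n0,n0,n0,m1,m1,n0,n0,n0,m1]),
  (false,[n0,n0,n0,n0,n0,n0,n0,n0,n0,n0,n1,n0,m1]),
  (false,[n0,n0,n1,n0,n0,n0,n1,n0,n0,n0,m1,n1]),
  (false,[n0,m1,n0,m1,n0,n0,m1,m1,n0,n0,n0,m1]),
  (true,[n0,m1,n1,n0,n0,n0,n0,m1]),
  (false,[n0,n1,m2,n0,n1,n0,n2,n1,n0,n0,m1,n2]),
  (true,[n1,m2,n1]),
  (false,[n0,n0,n0,n0,n0,n0,m1,m1,n0,n0,n0,m1]),
  (false,[n0,n1,n0,m1,n0,n0,n1,n1,n0,n0,m1,n1]),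
  (true,[n0,n0,n0,n0,n0,n1]),
  (false,[n0,n0,n0,n0,n0,m1,n0,n0,n0,n0,n1,n0,m1]),
  (false,[n0,n0,m2,n0,n1,n0,n0,n0,n0,n0,m1]),
  (false,[n0,n0,n0,n2,n0,n0,m1,m1,n0,n0,n0,m1]),
  (true,[n1,m1,n0,n1,n0,n0,n0,n1]),
  (false,[n0,n0,n0,n0,n0,m2,n0,n0,n0,n0,n1,m1]),
  (false,[n0,n0,n0,n0,n0,m1,n0,n0,n0,n0,n1,m1]),
  (false,[n0,n0,n0,n0,n0,m1,n0,n0,n0,n0,n0,n1]),
  (false,[n0,n0,m2,n0,n1,n0,n1,n0,n0,n0,m1,n1]),
  (false,[n0,n0,n0,n0,n0,m1,n0,n0,n0,n0,n1]),
  (false,[n0,n0,n0,n0,n0,m2,n0,n0,n0,n0,n1]),
  (false,[n0,n0,n0,n1,n0,n0,m1,m1,n0,n0,n0,m1])]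

noncomputable def l0 : List Con := (false, [n0,m1,n0,n0,n0,n0,n0,n0,m1,m1,n1,n0,m1]) :: base

noncomputable def r0 : List Con := (false, [n0,n1,n0,n0,n0,n0,n0,n0,n1,n1,m1,n0,n1]) :: base

noncomputable def l1 : List Con := (false, [n0,n0,n0,n0,n0,n0,n0,n0,m1,n0,n1,n0,m1]) :: r0

noncomputable def r1 : List Con := (false, [n0,n0,n0,n0,n0,n0,n0,n0,n1,n0,m1,n0,n1]) :: r0

noncomputable def l2 : List Con := (false, [n0,n0,n0,n0,n0,n1,n0,n0,n0,n0,n0,n0,m1]) :: r1

noncomputable def r2 : List Con := (false, [n0,n0,n0,n0,n0,m1,n0,n0,n0,n0,n0,n0,n1]) :: r1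

noncomputable def l3 : List Con := (false, [n0,n0,n0,n0,n0,n0,n0,n0,n0,n0,n0,m1,n1]) :: r2

noncomputable def r3 : List Con := (false, [n0,n0,n0,n0,n0,n0,n0,n0,n0,n0,n0,n1,m1]) :: r2

noncomputable def l4 : List Con := (false, [n0,n0,n0,n0,n0,n1,n0,n0,n0,n0,n0,n1,m1]) :: l3

noncomputable def r4 : List Con := (false, [n0,n0,n0,n0,n0,m1,n0,n0,n0,n0,n0,m1,n1]) :: l3

noncomputable def l5 : List Con := (false, [n0,n1,n0,m2,n0,n0,n1,n1,n1,n1,m1,n1,n1]) :: r4

noncomputable def r5 : List Con := (false, [n0,m1,n0,n2,n0,n0,m1,m1,m1,m1,n1,m1,m1]) :: r4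

noncomputable def l6 : List Con := (false, [n0,n0,n0,n0,n0,n0,n1,n1,m1,m1,n1,n1,m1]) :: r5

noncomputable def r6 : List Con := (false, [n0,n0,n0,n0,n0,n0,m1,m1,n1,n1,m1,m1,n1]) :: r5

noncomputable def l7 : List Con := (true, [n0,n0,n1,n0,n0,n1,n1,n0,m1]) :: r6

noncomputable def r7 : List Con := (true, [n1,n0,m1,n0,n0,m1,m1,n0,n1]) :: r6

noncomputable def l8 : List Con := (false, [n0,m1,n0,m1,n0,n0,n0,n0,m1,m1,n1,n0,m1]) :: l7

noncomputable def r8 : List Con := (false, [n0,n1,n0,n1,n0,n0,n0,n0,n1,n1,m1,n0,n1]) :: l7

noncomputable def l9 : List Con := (false, [n0,n0,m1,n0,n0,n0,m1,n0,n1,n0,n0,m1,n1]) :: r8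

noncomputable def r9 : List Con := (false, [n0,n0,n1,n0,n0,n0,n1,n0,m1,n0,n0,n1,m1]) :: r8

noncomputable def l10 : List Con := (false, [n0,n0,n0,n0,n0,n2,n0,n0,n0,n0,m1,n0,n1]) :: r9

noncomputable def r10 : List Con := (false, [n0,n0,n0,n0,n0,m2,n0,n0,n0,n0,n1,n0,m1]) :: r9

noncomputable def l11 : List Con := (false, [n0,n0,n0,n0,n0,n0,n0,n0,n0,n0,n1,m1,m1]) :: r10

noncomputable def r11 : List Con := (false, [n0,n0,n0,n0,n0,n0,n0,n0,n0,n0,m1,n1,n1]) :: r10

noncomputable def l12 : List Con := (false, [n0,n0,m1,n0,n0,n0,m2,n0,m1,n0,n1,m2,m1]) :: l11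

noncomputable def r12 : List Con := (false, [n0,n0,n1,n0,n0,n0,n2,n0,n1,n0,m1,n2,n1]) :: l11

noncomputable def l13 : List Con := (true, [n0,n0,n1,n0,n0,n0,n0,m2,n0,m1]) :: l12

noncomputable def r13 : List Con := (true, [n1,n0,m1,n0,n0,n0,n0,n2,n0,n1]) :: l12

noncomputable def l14 : List Con := (true, [n0,n0,n1,n1,n0,n0,n0,m2,n0,m1]) :: l13

noncomputable def r14 : List Con := (true, [n1,n0,m1,m1,n0,n0,n0,n2,n0,n1]) :: l13

noncomputable def l15 : List Con := (true, [n0,n1,n0,n0,n0,n0,n0,m1,n0,m1]) :: l14

noncomputable def r15 : List Con := (true, [n1,m1,n0,n0,n0,n0,n0,n1,n0,n1]) :: l14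

noncomputable def l16 : List Con := (false, [n0,n0,n0,m1,n0,n0,n1,n1,m1,m1,n1,n1,m1]) :: r15

noncomputable def r16 : List Con := (false, [n0,n0,n0,n1,n0,n0,m1,m1,n1,n1,m1,m1,n1]) :: r15

noncomputable def l17 : List Con := (true, [n0,n1,m1,m1,n0,n0,n0,n1,n0,m1]) :: l16

noncomputable def r17 : List Con := (true, [n1,m1,n1,n1,n0,n0,n0,m1,n0,n1]) :: l16

noncomputable def l18 : List Con := (false, [n0,n0,n0,m2,n0,n0,n1,n1,m1,m1,n0,n1,m1]) :: r16

noncomputable def r18 : List Con := (false, [n0,n0,n0,n2,n0,n0,m1,m1,n1,n1,n0,m1,n1]) :: r16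

noncomputable def l19 : List Con := (false, [n0,n0,n0,m2,n0,n0,n1,n1,m1,m1,n0,n1,m1]) :: r11

noncomputable def r19 : List Con := (false, [n0,n0,n0,n2,n0,n0,m1,m1,n1,n1,n0,m1,n1]) :: r11

noncomputable def l20 : List Con := (false, [n0,n0,n0,n0,n0,n0,n0,n0,n0,n0,n1,m1,m1]) :: r7

noncomputable def r20 : List Con := (false, [n0,n0,n0,n0,n0,n0,n0,n0,n0,n0,m1,n1,n1]) :: r7

noncomputable def l21 : List Con := (true, [n0,n0,n1,n0,n0,n0,n0,m2,n0,m1]) :: l20

noncomputable def r21 : List Con := (true, [n1,n0,m1,n0,n0,n0,n0,n2,n0,n1]) :: l20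

noncomputable def l22 : List Con := (true, [n0,n0,n1,n1,n0,n0,n0,m2,n0,m1]) :: l21

noncomputable def r22 : List Con := (true, [n1,n0,m1,m1,n0,n0,n0,n2,n0,n1]) :: l21

noncomputable def l23 : List Con := (true, [n0,n1,n0,n0,n0,n0,n0,m1,n0,m1]) :: l22

noncomputable def r23 : List Con := (true, [n1,m1,n0,n0,n0,n0,n0,n1,n0,n1]) :: l22

noncomputable def l24 : List Con := (false, [n0,n0,n1,n0,n0,n0,n1,n0,m1,n0,n1,n1,m1]) :: r23

noncomputable def r24 : List Con := (false, [n0,n0,m1,n0,n0,n0,m1,n0,n1,n0,m1,m1,n1]) :: r23

noncomputable def l25 : List Con := (true, [n0,n1,n0,n0,n0,n0,n0,n0,n0,n1]) :: r24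

noncomputable def r25 : List Con := (true, [n1,m1,n0,n0,n0,n0,n0,n0,n0,m1]) :: r24

noncomputable def l26 : List Con := (false, [n0,n0,n0,n0,n0,n2,n0,n0,n0,n0,m1,n0,n1]) :: r25

noncomputable def r26 : List Con := (false, [n0,n0,n0,n0,n0,m2,n0,n0,n0,n0,n1,n0,m1]) :: r25

noncomputable def l27 : List Con := (true, [n1,n0,n0,n0,n0,n0,n0,m1,n0,m2]) :: r26

noncomputable def r27 : List Con := (true, [n0,n0,n0,n0,n0,n0,n0,n1,n0,n2]) :: r26

noncomputable def l28 : List Con := (false, [n0,n0,m2,n0,n1,n0,n1,n0,m1,n0,n0,n1,m1]) :: r22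

noncomputable def r28 : List Con := (false, [n0,n0,n2,n0,m1,n0,m1,n0,n1,n0,n0,m1,n1]) :: r22

noncomputable def l29 : List Con := (false, [n0,m1,n0,m2,n0,n0,m1,m1,n1,n1,n0,m1,n1]) :: l28

noncomputable def r29 : List Con := (false, [n0,n1,n0,n2,n0,n0,n1,n1,m1,m1,n0,n1,m1]) :: l28

noncomputable def l30 : List Con := (false, [n0,m1,n0,m2,n0,n0,m1,m1,n1,n1,n0,m1,n1]) :: r21

noncomputable def r30 : List Con := (false, [n0,n1,n0,n2,n0,n0,n1,n1,m1,m1,n0,n1,m1]) :: r21

noncomputable def l31 : List Con := (false, [n0,n0,n0,n0,n0,n1,n0,n0,n0,n0,n1,m1,m1]) :: r20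

noncomputable def r31 : List Con := (false, [n0,n0,n0,n0,n0,m1,n0,n0,n0,n0,m1,n1,n1]) :: r20

noncomputable def l32 : List Con := (true, [n0,n1,n0,n0,n0,n0,n0,m1,n0,m1]) :: l31

noncomputable def r32 : List Con := (true, [n1,m1,n0,n0,n0,n0,n0,n1,n0,n1]) :: l31

noncomputable def l33 : List Con := (true, [n0,n0,n1,n0,n0,n0,n0,m2,n0,m1]) :: r31

noncomputable def r33 : List Con := (true, [n1,n0,m1,n0,n0,n0,n0,n2,n0,n1]) :: r31

noncomputable def l34 : List Con := (true, [n0,n0,n1,n1,n0,n0,n0,m2,n0,m1]) :: l33

noncomputable def r34 : List Con := (true, [n1,n0,m1,m1,n0,n0,n0,n2,n0,n1]) :: l33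

noncomputable def l35 : List Con := (true, [n0,n1,n0,n0,n0,n0,n0,m1,n0,m1]) :: l34

noncomputable def r35 : List Con := (true, [n1,m1,n0,n0,n0,n0,n0,n1,n0,n1]) :: l34

noncomputable def l36 : List Con := (false, [n0,n0,n1,n0,n0,n0,n1,n0,m1,n0,n1,n1,m1]) :: r35

noncomputable def r36 : List Con := (false, [n0,n0,m1,n0,n0,n0,m1,n0,n1,n0,m1,m1,n1]) :: r35

noncomputable def l37 : List Con := (false, [n0,n0,n0,n0,n0,n2,n0,n0,n0,n0,m1,n0,n1]) :: r36

noncomputable def r37 : List Con := (false, [n0,n0,n0,n0,n0,m2,n0,n0,n0,n0,n1,n0,m1]) :: r36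

noncomputable def l38 : List Con := (true, [n1,n0,n1,n1,n0,n0,n0,m2,n0,m1]) :: r34

noncomputable def r38 : List Con := (true, [n0,n0,m1,m1,n0,n0,n0,n2,n0,n1]) :: r34

noncomputable def l39 : List Con := (true, [n0,n1,n0,n0,n0,n0,n0,n0,n0,n1]) :: r38

noncomputable def r39 : List Con := (true, [n1,m1,n0,n0,n0,n0,n0,n0,n0,m1]) :: r38

noncomputable def l40 : List Con := (false, [n0,n0,m2,n0,n1,n0,n1,n0,m1,n0,n0,n1,m1]) :: r39

noncomputable def r40 : List Con := (false, [n0,n0,n2,n0,m1,n0,m1,n0,n1,n0,n0,m1,n1]) :: r39

noncomputable def l41 : List Con := (false, [n0,m1,n0,m2,n0,n0,m1,m1,n1,n1,n0,m1,n1]) :: l40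

noncomputable def r41 : List Con := (false, [n0,n1,n0,n2,n0,n0,n1,n1,m1,m1,n0,n1,m1]) :: l40

noncomputable def l42 : List Con := (false, [n0,m1,n0,m1,n0,n0,n0,n0,m1,m1,n1,n0,m1]) :: r41

noncomputable def r42 : List Con := (false, [n0,n1,n0,n1,n0,n0,n0,n0,n1,n1,m1,n0,n1]) :: r41

noncomputable def l43 : List Con := (false, [n0,n1,n0,m1,n0,n0,n0,n0,n2,n2,m1,n0,n2]) :: l42

noncomputable def r43 : List Con := (false, [n0,m1,n0,n1,n0,n0,n0,n0,m2,m2,n1,n0,m2]) :: l42

noncomputable def l44 : List Con := (true, [n0,n0,m1,n0,n0,m1,m1,n0,n1]) :: r42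

noncomputable def r44 : List Con := (true, [n1,n0,n1,n0,n0,n1,n1,n0,m1]) :: r42

noncomputable def l45 : List Con := (false, [n0,n0,n0,n0,n0,n2,n0,n0,n0,n0,m1,n0,n1]) :: l44

noncomputable def r45 : List Con := (false, [n0,n0,n0,n0,n0,m2,n0,n0,n0,n0,n1,n0,m1]) :: l44

noncomputable def l46 : List Con := (true, [n0,n1,n0,n0,n0,n0,n0,m1,n0,m1]) :: r3

noncomputable def r46 : List Con := (true, [n1,m1,n0,n0,n0,n0,n0,n1,n0,n1]) :: r3

noncomputable def l47 : List Con := (false, [n0,n0,n0,n0,n0,n0,n0,n0,n0,n0,n1,m1,m1]) :: l46

noncomputable def r47 : List Con := (false, [n0,n0,n0,n0,n0,n0,n0,n0,n0,n0,m1,n1,n1]) :: l46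

noncomputable def l48 : List Con := (true, [n1,n1,m1,n0,n0,n0,n0,n1,n0,m1]) :: l47

noncomputable def r48 : List Con := (true, [n0,m1,n1,n0,n0,n0,n0,m1,n0,n1]) :: l47

noncomputable def l49 : List Con := (false, [n0,m1,n0,m1,n0,n0,n0,n0,m1,m1,n1,n0,m1]) :: r48

noncomputable def r49 : List Con := (false, [n0,n1,n0,n1,n0,n0,n0,n0,n1,n1,m1,n0,n1]) :: r48

noncomputable def l50 : List Con := (false, [n0,n0,m1,n0,n0,n0,m2,n0,m1,n0,n1,m2,m1]) :: r49

noncomputable def r50 : List Con := (false, [n0,n0,n1,n0,n0,n0,n2,n0,n1,n0,m1,n2,n1]) :: r49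

noncomputable def l51 : List Con := (false, [n0,n0,n0,m2,n0,n0,n1,n1,m1,m1,n0,n1,m1]) :: r50

noncomputable def r51 : List Con := (false, [n0,n0,n0,n2,n0,n0,m1,m1,n1,n1,n0,m1,n1]) :: r50

noncomputable def l52 : List Con := (false, [n0,n0,n2,n0,m1,n0,m1,n0,n1,n0,n0,m1,n1]) :: r51

noncomputable def r52 : List Con := (false, [n0,n0,m2,n0,n1,n0,n1,n0,m1,n0,n0,n1,m1]) :: r51

noncomputable def l53 : List Con := (false, [n0,m1,n0,m2,n0,n0,m1,m1,n1,n1,n0,m1,n1]) :: l52

noncomputable def r53 : List Con := (false, [n0,n1,n0,n2,n0,n0,n1,n1,m1,m1,n0,n1,m1]) :: l52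

noncomputable def l54 : List Con := (false, [n0,n0,n0,n0,n0,n2,n0,n0,n0,n0,n0,n0,m1]) :: r53

noncomputable def r54 : List Con := (false, [n0,n0,n0,n0,n0,m2,n0,n0,n0,n0,n0,n0,n1]) :: r53

noncomputable def l55 : List Con := (false, [n0,n0,n0,n0,n0,n2,n0,n0,n0,n0,n0,n0,m1]) :: r52

noncomputable def r55 : List Con := (false, [n0,n0,n0,n0,n0,m2,n0,n0,n0,n0,n0,n0,n1]) :: r52

noncomputable def l56 : List Con := (false, [n0,n1,n0,m2,n0,n0,n1,n1,n1,n1,m1,n1,n1]) :: r47

noncomputable def r56 : List Con := (false, [n0,m1,n0,n2,n0,n0,m1,m1,m1,m1,n1,m1,m1]) :: r47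

noncomputable def l57 : List Con := (false, [n0,n0,n0,n0,n0,n1,n0,n0,n0,n0,n1,m1,m1]) :: r56

noncomputable def r57 : List Con := (false, [n0,n0,n0,n0,n0,m1,n0,n0,n0,n0,m1,n1,n1]) :: r56

noncomputable def l58 : List Con := (false, [n0,n0,m1,n0,n0,n0,m2,n0,m1,n0,n2,m2,m1]) :: l57

noncomputable def r58 : List Con := (false, [n0,n0,n1,n0,n0,n0,n2,n0,n1,n0,m2,n2,n1]) :: l57

noncomputable def l59 : List Con := (false, [n0,n0,n0,n0,n0,n1,n0,n0,n0,n0,n0,m1,n1]) :: r58

noncomputable def r59 : List Con := (false, [n0,n0,n0,n0,n0,m1,n0,n0,n0,n0,n0,n1,m1]) :: r58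

noncomputable def l60 : List Con := (false, [n0,n0,n0,m1,n0,n0,n1,n1,m1,m1,n0,n1,m1]) :: r59

noncomputable def r60 : List Con := (false, [n0,n0,n0,n1,n0,n0,m1,m1,n1,n1,n0,m1,n1]) :: r59

noncomputable def l61 : List Con := (false, [n0,m1,n0,m2,n0,n0,m1,m1,n1,n1,n0,m1,n1]) :: r60

noncomputable def r61 : List Con := (false, [n0,n1,n0,n2,n0,n0,n1,n1,m1,m1,n0,n1,m1]) :: r60

noncomputable def l62 : List Con := (false, [n0,n0,m1,n0,n0,n0,m2,n0,m1,n0,n2,m2,m1]) :: r57

noncomputable def r62 : List Con := (false, [n0,n0,n1,n0,n0,n0,n2,n0,n1,n0,m2,n2,n1]) :: r57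

noncomputable def l63 : List Con := (false, [n0,n0,n0,n0,n0,n0,n1,n1,m2,m2,n0,n1,m2]) :: r46

noncomputable def r63 : List Con := (false, [n0,n0,n0,n0,n0,n0,m1,m1,n2,n2,n0,m1,n2]) :: r46

noncomputable def l64 : List Con := (true, [n1,n0,m1,m1,n0,n0,n0,n2,n0,n1]) :: r63

noncomputable def r64 : List Con := (true, [n0,n0,n1,n1,n0,n0,n0,m2,n0,m1]) :: r63

noncomputable def l65 : List Con := (true, [n0,n0,m1,m1,n0,n0,n0,n1,n0,m2]) :: l64

noncomputable def r65 : List Con := (true, [n1,n0,n1,n1,n0,n0,n0,m1,n0,n2]) :: l64

noncomputable def l66 : List Con := (false, [n0,n0,m1,n0,n0,n0,m1,n0,n2,n0,n0,m1,n2]) :: l65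

noncomputable def r66 : List Con := (false, [n0,n0,n1,n0,n0,n0,n1,n0,m2,n0,n0,n1,m2]) :: l65

noncomputable def l67 : List Con := (false, [n0,n0,n0,m1,n0,n0,n1,n1,m2,m2,n0,n1,m2]) :: l66

noncomputable def r67 : List Con := (false, [n0,n0,n0,n1,n0,n0,m1,m1,n2,n2,n0,m1,n2]) :: l66

noncomputable def l68 : List Con := (true, [n1,n0,n1,n1,n0,n0,n0,m2,n0,m1]) :: r67

noncomputable def r68 : List Con := (true, [n0,n0,m1,m1,n0,n0,n0,n2,n0,n1]) :: r67

noncomputable def l69 : List Con := (true, [n0,n0,n1,n1,n0,n0,n0,m1,n0,n1]) :: r68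

noncomputable def r69 : List Con := (true, [n1,n0,m1,m1,n0,n0,n0,n1,n0,m1]) :: r68

noncomputable def l70 : List Con := (false, [n0,n0,n0,m2,n0,n0,n1,n1,m2,m2,n0,n1,m2]) :: l69

noncomputable def r70 : List Con := (false, [n0,n0,n0,n2,n0,n0,m1,m1,n2,n2,n0,m1,n2]) :: l69

noncomputable def l71 : List Con := (false, [n0,n0,n0,n0,n0,n2,n0,n0,n0,n0,n0,n0,m1]) :: r70

noncomputable def r71 : List Con := (false, [n0,n0,n0,n0,n0,m2,n0,n0,n0,n0,n0,n0,n1]) :: r70

noncomputable def l72 : List Con := (false, [n0,n0,m1,n0,n0,n0,m1,n0,n1,n0,n0,m1,n1]) :: r71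

noncomputable def r72 : List Con := (false, [n0,n0,n1,n0,n0,n0,n1,n0,m1,n0,n0,n1,m1]) :: r71

noncomputable def l73 : List Con := (true, [n0,n1,n0,n0,n0,n0,n0,n0,n0,n1]) :: l72

noncomputable def r73 : List Con := (true, [n1,m1,n0,n0,n0,n0,n0,n0,n0,m1]) :: l72

noncomputable def l74 : List Con := (false, [n0,m1,n1,n0,n0,n0,n0,m1,m1,n0,n0,n0,m1]) :: r72

noncomputable def r74 : List Con := (false, [n0,n1,m1,n0,n0,n0,n0,n1,n1,n0,n0,n0,n1]) :: r72

noncomputable def l75 : List Con := (false, [n0,m1,n0,m2,n0,n0,m1,m1,n1,n1,n0,m1,n1]) :: l74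

noncomputable def r75 : List Con := (false, [n0,n1,n0,n2,n0,n0,n1,n1,m1,m1,n0,n1,m1]) :: l74

noncomputable def l76 : List Con := (false, [n0,n0,n0,m2,n0,n0,n1,n1,m1,m1,n0,n1,m1]) :: r65

noncomputable def r76 : List Con := (false, [n0,n0,n0,n2,n0,n0,m1,m1,n1,n1,n0,m1,n1]) :: r65

noncomputable def l77 : List Con := (true, [n1,n0,m1,m1,n0,n0,n0,n1,n0,m2]) :: r76

noncomputable def r77 : List Con := (true, [n0,n0,n1,n1,n0,n0,n0,m1,n0,n2]) :: r76

noncomputable def l78 : List Con := (true, [n0,n0,m1,n0,n0,m1,m1,n0,n2]) :: l77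

noncomputable def r78 : List Con := (true, [n1,n0,n1,n0,n0,n1,n1,n0,m2]) :: l77

noncomputable def l79 : List Con := (false, [n0,n0,n0,n0,n0,n2,n0,n0,n0,n0,n0,n0,m1]) :: r78

noncomputable def r79 : List Con := (false, [n0,n0,n0,n0,n0,m2,n0,n0,n0,n0,n0,n0,n1]) :: r78

noncomputable def l80 : List Con := (true, [n0,n0,n1,n0,n0,n1,n1,n0,m2]) :: r79

noncomputable def r80 : List Con := (true, [n1,n0,m1,n0,n0,m1,m1,n0,n2]) :: r79

noncomputable def l81 : List Con := (false, [n0,n0,n0,m1,n0,n0,n1,n1,m2,m2,n0,n1,m2]) :: r77

noncomputable def r81 : List Con := (false, [n0,n0,n0,n1,n0,n0,m1,m1,n2,n2,n0,m1,n2]) :: r77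

noncomputable def l82 : List Con := (true, [n1,n1,m1,n0,n0,n0,n0,n1,n0,m2]) :: l81

noncomputable def r82 : List Con := (true, [n0,m1,n1,n0,n0,n0,n0,m1,n0,n2]) :: l81

noncomputable def l83 : List Con := (true, [n0,n1,m1,m1,n0,n0,n0,n1,n0,m2]) :: r82

noncomputable def r83 : List Con := (true, [n1,m1,n1,n1,n0,n0,n0,m1,n0,n2]) :: r82

noncomputable def l84 : List Con := (false, [n0,n0,n0,n0,n0,n2,n0,n0,n0,n0,n0,n0,m1]) :: r83

noncomputable def r84 : List Con := (false, [n0,n0,n0,n0,n0,m2,n0,n0,n0,n0,n0,n0,n1]) :: r83

noncomputable def l85 : List Con := (false, [n0,m1,n0,m2,n0,n0,m1,m1,n1,n1,n0,m1,n1]) :: r84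

noncomputable def r85 : List Con := (false, [n0,n1,n0,n2,n0,n0,n1,n1,m1,m1,n0,n1,m1]) :: r84

noncomputable def l86 : List Con := (false, [n0,n0,m1,n0,n0,n0,m1,n0,n2,n0,n0,m1,n2]) :: r81

noncomputable def r86 : List Con := (false, [n0,n0,n1,n0,n0,n0,n1,n0,m2,n0,n0,n1,m2]) :: r81

noncomputable def l87 : List Con := (false, [n0,n0,n0,m2,n0,n0,n1,n1,m2,m2,n0,n1,m2]) :: l86

noncomputable def r87 : List Con := (false, [n0,n0,n0,n2,n0,n0,m1,m1,n2,n2,n0,m1,n2]) :: l86

noncomputable def l88 : List Con := (false, [n0,n0,n0,n0,n0,n1,n0,n0,n0,n0,n0,m1,n1]) :: r87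

noncomputable def r88 : List Con := (false, [n0,n0,n0,n0,n0,m1,n0,n0,n0,n0,n0,n1,m1]) :: r87

noncomputable def l89 : List Con := (true, [n1,n1,m1,m1,n0,n0,n0,n1,n0,m2]) :: r86

noncomputable def r89 : List Con := (true, [n0,m1,n1,n1,n0,n0,n0,m1,n0,n2]) :: r86

noncomputable def l90 : List Con := (false, [n0,n0,n0,m2,n0,n0,n1,n1,m2,m2,n0,n1,m2]) :: l89

noncomputable def r90 : List Con := (false, [n0,n0,n0,n2,n0,n0,m1,m1,n2,n2,n0,m1,n2]) :: l89

noncomputable def l91 : List Con := (false, [n0,n0,n0,n0,n0,n1,n0,n0,n0,n0,n0,m1,n1]) :: r90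

noncomputable def r91 : List Con := (false, [n0,n0,n0,n0,n0,m1,n0,n0,n0,n0,n0,n1,m1]) :: r90

noncomputable def l92 : List Con := (false, [n0,n0,n0,n0,n0,n1,n0,n0,n0,n0,n0,m1,n1]) :: r89

noncomputable def r92 : List Con := (false, [n0,n0,n0,n0,n0,m1,n0,n0,n0,n0,n0,n1,m1]) :: r89

noncomputable def l93 : List Con := (false, [n0,n0,n1,n0,n0,n0,n1,n0,m1,n0,n0,n1,m1]) :: r64

noncomputable def r93 : List Con := (false, [n0,n0,m1,n0,n0,n0,m1,n0,n1,n0,n0,m1,n1]) :: r64

noncomputable def l94 : List Con := (false, [n0,n0,n0,m2,n0,n0,n1,n1,m1,m1,n0,n1,m1]) :: l93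

noncomputable def r94 : List Con := (false, [n0,n0,n0,n2,n0,n0,m1,m1,n1,n1,n0,m1,n1]) :: l93

noncomputable def l95 : List Con := (false, [n0,m1,n1,n0,n0,n0,n0,m1,m1,n0,n0,n0,m1]) :: r94

noncomputable def r95 : List Con := (false, [n0,n1,m1,n0,n0,n0,n0,n1,n1,n0,n0,n0,n1]) :: r94

noncomputable def l96 : List Con := (false, [n0,n0,n0,n0,n0,n1,n0,n0,n0,n0,n0,m1,n1]) :: l95

noncomputable def r96 : List Con := (false, [n0,n0,n0,n0,n0,m1,n0,n0,n0,n0,n0,n1,m1]) :: l95

noncomputable def l97 : List Con := (false, [n0,n0,m2,n0,n1,n0,n1,n0,m1,n0,n0,n1,m1]) :: r96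

noncomputable def r97 : List Con := (false, [n0,n0,n2,n0,m1,n0,m1,n0,n1,n0,n0,m1,n1]) :: r96

noncomputable def l98 : List Con := (false, [n0,n0,n0,n0,n0,n2,n0,n0,n0,n0,n0,n0,m1]) :: l97

noncomputable def r98 : List Con := (false, [n0,n0,n0,n0,n0,m2,n0,n0,n0,n0,n0,n0,n1]) :: l97

noncomputable def l99 : List Con := (true, [n1,n0,n3,n3,m1,n0,n0,n0,n0,m1]) :: r93

noncomputable def r99 : List Con := (true, [n0,n0,m3,m3,n1,n0,n0,n0,n0,n1]) :: r93

noncomputable def l100 : List Con := (true, [n1,n0,m3,m3,n1,n0,n0,n0,n0,n1]) :: l99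

noncomputable def r100 : List Con := (true, [n0,n0,n3,n3,m1,n0,n0,n0,n0,m1]) :: l99

noncomputable def l101 : List Con := (true, [n0,n0,n3,n0,m1,n3,n0,n0,n1]) :: l100

noncomputable def r101 : List Con := (true, [n1,n0,m3,n0,n1,m3,n0,n0,m1]) :: l100

noncomputable def l102 : List Con := (false, [n0,n0,n0,n0,n0,m1,n0,n0,n0,n0,n0,n1,m1]) :: r101

noncomputable def r102 : List Con := (false, [n0,n0,n0,n0,n0,n1,n0,n0,n0,n0,n0,m1,n1]) :: r101

noncomputable def l103 : List Con := (true, [n0,n1,n0,n0,n0,n0,n0,n0,n0,n1]) :: l102

noncomputable def r103 : List Con := (true, [n1,m1,n0,n0,n0,n0,n0,n0,n0,m1]) :: l102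

noncomputable def l104 : List Con := (false, [n0,n0,n0,n0,n0,n1,n0,n0,n0,n0,n0,m1,n1]) :: r100

noncomputable def r104 : List Con := (false, [n0,n0,n0,n0,n0,m1,n0,n0,n0,n0,n0,n1,m1]) :: r100

noncomputable def l105 : List Con := (false, [n0,n0,n2,n0,m1,n0,m1,n0,n1,n0,n0,m1,n1]) :: r104

noncomputable def r105 : List Con := (false, [n0,n0,m2,n0,n1,n0,n1,n0,m1,n0,n0,n1,m1]) :: r104

noncomputable def l106 : List Con := (false, [n0,n0,n0,n0,n0,n2,n0,n0,n0,n0,n0,n0,m1]) :: r105

noncomputable def r106 : List Con := (false, [n0,n0,n0,n0,n0,m2,n0,n0,n0,n0,n0,n0,n1]) :: r105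

noncomputable def l107 : List Con := (false, [n0,n0,n0,m1,n0,n0,n1,n1,m2,m2,n0,n1,m2]) :: r99

noncomputable def r107 : List Con := (false, [n0,n0,n0,n1,n0,n0,m1,m1,n2,n2,n0,m1,n2]) :: r99

noncomputable def l108 : List Con := (false, [n0,n0,n0,m2,n0,n0,n1,n1,m2,m2,n0,n1,m2]) :: r107

noncomputable def r108 : List Con := (false, [n0,n0,n0,n2,n0,n0,m1,m1,n2,n2,n0,m1,n2]) :: r107

noncomputable def l109 : List Con := (false, [n0,n0,m2,n0,n1,n0,n1,n0,m1,n0,n0,n1,m1]) :: r108

noncomputable def r109 : List Con := (false, [n0,n0,n2,n0,m1,n0,m1,n0,n1,n0,n0,m1,n1]) :: r108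

noncomputable def l110 : List Con := (false, [n0,n0,n0,n0,n0,n2,n0,n0,n0,n0,n0,n0,m1]) :: l109

noncomputable def r110 : List Con := (false, [n0,n0,n0,n0,n0,m2,n0,n0,n0,n0,n0,n0,n1]) :: l109

noncomputable def l111 : List Con := (false, [n0,n0,n0,n0,n0,m1,n0,n0,n0,n0,n0,n1,m1]) :: r110

noncomputable def r111 : List Con := (false, [n0,n0,n0,n0,n0,n1,n0,n0,n0,n0,n0,m1,n1]) :: r110

noncomputable def l112 : List Con := (true, [n0,n1,n0,n0,n0,n0,n0,n0,n0,n1]) :: l111

noncomputable def r112 : List Con := (true, [n1,m1,n0,n0,n0,n0,n0,n0,n0,m1]) :: l111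

open Helper55.PC in
noncomputable def t0n : Helper55.PC.Ten :=
  (r
  3367287446962275742654099634407207996645113710584596667406791037541823906113952245992346820185955021096173394539705750122738138100328344290832384965894836392292886310580420656275246847546313597044028131137696189445891905551510867691357005856538746026569553584686060068988599049742028698531556044585706654011522564656641978733287052292759370711437433411884469347939711819027445089668506392552265068148021657359075391175566598526347787728353239850190921858)

noncomputable def t0 : Tre := Helper55.PC.toT t0n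

theorem ok0 : chk K t0 l0 = true :=
  Helper55.PC.chkN_sound K t0n l0 (by decide +kernel)

open Helper55.PC in
noncomputable def t1n : Helper55.PC.Ten :=
  (r
  1832945786141665382552895871147506438232411599545972752324412705265845396757277387227006209221308466784123436792497444080955384375925372966371764726260525000444495829885868834163065803045625542591977314371342262518150636615632323724215745335081172230282)

noncomputable def t1 : Tre := Helper55.PC.toT t1n

theorem ok1 : chk K t1 l1 = true :=
  Helper55.PC.chkN_sound K t1n l1 (by decide +kernel)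

open Helper55.PC in
noncomputable def t2n : Helper55.PC.Ten :=
  (r
  228445096521071513638894355073592219649029406468087439150926420827024744483599236995322447064140094380680543560887312474211264442829189460823395316537736831639612030664994684914084694108513338957775497688127476451373660700233818447711362636562558244994106455158149767438003873612174326225371307159055144503921972904469342598234718408459391907074229006759777802419106711790576592914690242152640812715970391156697775763831030332203529988016485683756374738183563686632698218339900244138513185392354318186979616)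

noncomputable def t2 : Tre := Helper55.PC.toT t2n

theorem ok2 : chk K t2 l2 = true :=
  Helper55.PC.chkN_sound K t2n l2 (by decide +kernel)

open Helper55.PC in
noncomputable def t3n : Helper55.PC.Ten :=
  (r
  27373621109956895009399312201073568433705588028307509372831764222253414392280090665617069582529029051521346882249044753916978924687479164936400157553402605133834468587235862614831554087433881413646826587850711458157236555251332766005857259962272022934686179798642524257873066741317820973919932526292855611214618837506899754162782665912725481933826105265405716978106540382093552746927749653474214248903629725682852631929936290120388273569054403610934618326073549021933773640258809027522932371467439808809335232598679125138003194790339707702812062614709701705025157446435809187117133636493580706048)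

noncomputable def t3 : Tre := Helper55.PC.toT t3n

theorem ok3 : chk K t3 l4 = true :=
  Helper55.PC.chkN_sound K t3n l4 (by decide +kernel)

open Helper55.PC in
noncomputable def t4n : Helper55.PC.Ten :=
  (r
  9521094308140641978852734945866046905174942939769962337645151708531855322544861649656589170176263309621672377881546916691150593801059777144088620335412158296973245059851195406241764736814681175549232958440294385240599289953761767764985718499660650074039537256035667166133433236469614614385519123471672181002941902497161199488073086670369254523836103329674634674307598119549975551041390850716744002337852149947260039236939286933139132818546588983068083354558127053623975960325308019973829475935536307764589034383752215736143668047220339402364204996796529687736601023531028024480545968979132700733274413973782310137011390096770708594700678778620803942384380084071122015667888251019882989275996644568446648423494322296267541166797285899907872753184175620477779198178621837757191004284714836497686323457)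

noncomputable def t4 : Tre := Helper55.PC.toT t4n

theorem ok4 : chk K t4 l5 = true :=
  Helper55.PC.chkN_sound K t4n l5 (by decide +kernel)

open Helper55.PC in
noncomputable def t5n : Helper55.PC.Ten :=
  (r
  9789563565257534959618890640820478158148756990584548455650168146403301025365711212394408752701000094654607202453985023364971750192546289079720322173136888532507041487121922802707858655157037534824327897458630063045961308346989267740890586159965690156155006070129511850003786761107011147303109788567157997818664331345789808639215619216326513329549868669797636089428958500566227906551578244336184924847071518704498185965903055792765575317141787681490050508946022525401387399941776999586228531549206058285309382581924631164297278284354643382315794896493370716723223647347651772851359083406113)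

noncomputable def t5 : Tre := Helper55.PC.toT t5n

theorem ok5 : chk K t5 l6 = true :=
  Helper55.PC.chkN_sound K t5n l6 (by decide +kernel)

open Helper55.PC in
noncomputable def t6n : Helper55.PC.Ten :=
  (r
  3438107640081278129374346359507391355420887472199821260733735245185989521251177343374123336986383127575431137409073806594665173255107360078502925876602217595676694336371486140228692488040226594332904758469052265374539466776338004372203733881869531819949360821466275033833295980332896320051695582438572451022108622041643434372107558485034765605818838425979561557653615286380917498083934588889179642858824542563319244874151147048503572323884266346876804832708092980117693221397163811842941038951776455882833844688612648501143000086742456166822084388648932316856201663578505153356262112532875039737851995278045496771192442212832074513556532110113)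

noncomputable def t6 : Tre := Helper55.PC.toT t6n

theorem ok6 : chk K t6 l8 = true :=
  Helper55.PC.chkN_sound K t6n l8 (by decide +kernel)

open Helper55.PC in
noncomputable def t7n : Helper55.PC.Ten :=
  (s
  5051859151238321389028178450464993735555614859754399878388356395173183629655455941812427683489739050922380274817844988854300192231785533414284100330858143231689577490569417087530919375420012305295516062203924859243953519650762396077757158827056714202653039875598825851033257251061416293766680675209386186194976327630224147786230468209926255482659309725733938677436889458754841549595206756196545997467181335974579540970327776942372113358823788900490924275082346056739397304694473677530205175070701096959440180032766589332614571955089452378650212642529134629118270676593743087045996326761368335352637424257)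

noncomputable def t7 : Tre := Helper55.PC.toT t7n

theorem ok7 : chk K t7 l9 = true :=
  Helper55.PC.chkN_sound K t7n l9 (by decide +kernel)

open Helper55.PC in
noncomputable def t8n : Helper55.PC.Ten :=
  (r
  8567011548442755603275521287841946636540177072759838396671239134306935931102746008930161129297397785185119987871895306693280961979893809398167713618918057036684332068027943706670409946841428829860644684505300921381957505415855706482170571737639174552720151910737217225033746740419457267869385046765447859411668676331852956456647728409369063848867574328824025254060349133782726574775109764330367261076707861662926207876978447267441260964438783660937353542578960668843539319736770038385537346091464570541260942048987499392559175075907798111667026254486452970971904)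

noncomputable def t8 : Tre := Helper55.PC.toT t8n

theorem ok8 : chk K t8 l10 = true :=
  Helper55.PC.chkN_sound K t8n l10 (by decide +kernel)

open Helper55.PC in
noncomputable def t9n : Helper55.PC.Ten :=
  (r
  77493317275585509564488872775955502814551152924095319440820732812888333535707135222960312744849846902131810669821062445069175141370246771982337894188061222543961586125977924462416044532784480859632864271033011530378847305880305831952010458743113349386591677337807782080096922466932079507255184675659866662436090143576011454847920981407185635329656060543597625791089264995492280163965327231403292338619732276558155166958115918680413311533922920467269206088315713421612353802242964301126820638155166320813443586091194301602580623625256464448687606854696449579000856491740275086832158454908130115072153547385297125605831798040052650706243644474217992310709609939076647277577365517149145794482237129815268778852568339757011884900738020846841837042680064442759773954305)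

noncomputable def t9 : Tre := Helper55.PC.toT t9n

theorem ok9 : chk K t9 l15 = true :=
  Helper55.PC.chkN_sound K t9n l15 (by decide +kernel)

open Helper55.PC in
noncomputable def t10n : Helper55.PC.Ten :=
  (r
  28101509555259756578263020245543179570528139742409635068195806202472112570127931886699136458121823702752809565017041084932852383963835257266737411393056212546046786712076169791625714520733195685750228731397900910285679010165613323825446606080341332921309203227050802815135361681907924249069510826)

noncomputable def t10 : Tre := Helper55.PC.toT t10n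

theorem ok10 : chk K t10 l17 = true :=
  Helper55.PC.chkN_sound K t10n l17 (by decide +kernel)

open Helper55.PC in
noncomputable def t11n : Helper55.PC.Ten :=
  (r
  555454591212034468634445850632660215495212137440304815967908495335048351053500948537312906253146486928778401746503981742598143071080338851058929508115992627663269408221257898138949410803750274704410933492659463677496959246644209264810512209089559112122743020749600462333342047656808465056627033607468064444769507713311331916059050178991342105453743853834562730009354399452934278609550447048036578067634421406760419770208697346767810831365625652018633042084335863726822575823642962348640291854826434554649854135699128646309186709558312597974468964154592815736313767351565137663429770501552334385001687999700994537605964617245723264643758505239477175136132864534049934949045398112998207496468433600553700580493096903439012217037299637798822657)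

noncomputable def t11 : Tre := Helper55.PC.toT t11n

theorem ok11 : chk K t11 l18 = true :=
  Helper55.PC.chkN_sound K t11n l18 (by decide +kernel)

open Helper55.PC in
noncomputable def t12n : Helper55.PC.Ten :=
  (r
  1973365333603980879603561726327567721175439301856048102354789394073382129775458292902994254956980065030178676407986546448342984966193518270717715033603750375023654091266561421714900742362435775672702979560573807743491829128886638210436120938530958169835605752324680023698093507744006262646064317260915421540306629840644826316792628289667355880460069035714437867195694134898066457441911560940850473564961690122338109338895711589235244231877915749566945012355468828326628974272341514564269182452844976522125205883351593046015055007848906861463520241167553206755555093926449919139118729892743356404467733716876251048081957348842996362383170409635307051347179531064988339152198137396346404666124904899028498995118791741378132173569)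

noncomputable def t12 : Tre := Helper55.PC.toT t12n

theorem ok12 : chk K t12 l19 = true :=
  Helper55.PC.chkN_sound K t12n l19 (by decide +kernel)

open Helper55.PC in
noncomputable def t13n : Helper55.PC.Ten :=
  (r
  2380273577035160494700462042310612122866259699638709362811264545973315906811911262859865015089259880242652924237863406320337201443554443620620287705792558050239263160266316063867288917162828647291536071965450801964190199135064035443934391215395843137979331322875567750696474572346581788479219860186224733301555035167048992073004256558395066155195846834677318719906796264001407289199614576585864836124554111679667669425993532039556224896208107985295953179930264299563805312547301727149370434673256868075395618756550601975681511507396018060725407201692974804123797952250481735615654350891393021469947350119869534261044197623926237883829434893236787475648122463401839453585192878444998018400479879407631572348979075829910310978970138592030426718461365171217054839258808223216927370465319152659500638465)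

noncomputable def t13 : Tre := Helper55.PC.toT t13n

theorem ok13 : chk K t13 l23 = true :=
  Helper55.PC.chkN_sound K t13n l23 (by decide +kernel)

open Helper55.PC in
noncomputable def t14n : Helper55.PC.Ten :=
  (s
  804810944143134031202275035857160324784130081809953406278484283590667156499076907291011499290208891641409242387692603631382984520212007256602381963291716981442208895318886112470541460685674987658031546209173248843599845013992053802500514987542735306896602856096695799951410221660496633586603391778026811047356448862118208797305590003786099609261673307844357409261888496496999517443977092937476318984724563539914247424883888749201978471862353355777027454307137790693735659474934190762941651269477360692896212625397712145967913497178590764923355777)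

noncomputable def t14 : Tre := Helper55.PC.toT t14n

theorem ok14 : chk K t14 l24 = true :=
  Helper55.PC.chkN_sound K t14n l24 (by decide +kernel)

open Helper55.PC in
noncomputable def t15n : Helper55.PC.Ten :=
  (r
  625120904932896941470036895887823473031381852322179707908503685234439528028874411409799390627015633726941567403285541786103837127965762383925075395109808947587093193911272672408903031879166923806780304100135252808846209848858364758340513358995453873025499141828853086635530686002030031766667541789709229588133591200859141145267889023812215789717442464401045199439601050131855130542923113482246333018996297416750746431776022435521983034215918046032201109763205743229699668652129829961101434842345744475750358153404225570550897314068660757354290208332113413683225842780515702999454397767613930900104708715809305191504217040533725295062175982369)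

noncomputable def t15 : Tre := Helper55.PC.toT t15n

theorem ok15 : chk K t15 l25 = true :=
  Helper55.PC.chkN_sound K t15n l25 (by decide +kernel)

open Helper55.PC in
noncomputable def t16n : Helper55.PC.Ten :=
  (r
  22653149652953490781646898494830852468239499691863397970797305349568713397935330970948584790728606467362396590393936435264755087717744626518960104092590069674610177442118950400534356053640442241049452405683991105007365771517783734622018945334256216186642677150055901388261493478744315601471253498213116582254658576920075702658563353741747458237273269718524174383346868177643460503328193450653816318865234209516771875534667106308140180405214600999242818178225010373262961899946692774795446376569247616150423286616412777979859430841451340494905368855565324935488883049611603899834565775058239259383522419844981541740521997876735617785299211437686723138070023678019402186679727954210317056)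

noncomputable def t16 : Tre := Helper55.PC.toT t16n

theorem ok16 : chk K t16 l26 = true :=
  Helper55.PC.chkN_sound K t16n l26 (by decide +kernel)

noncomputable def t17 : Tre :=
  (.N [0,0,1,2] 0 ⟨0,[(4,0),(13,0)]⟩ ⟨0,[(0,0)]⟩ (.x (-1) ⟨13,[(6,1),(0,13),(6,1),(0,1),(1,2),(3,
  23),(14,6),(1,13),(0,5),(2,3)]⟩ ⟨1,[(4,1),(13,1),(1,3),(7,2),(4,1),(1,3),(1,0),(2,0)]⟩))

theorem ok17 : chk K t17 l27 = true := by decide +kernel

open Helper55.PC in
noncomputable def t18n : Helper55.PC.Ten :=
  (r
  43644250602362313601326519229775356802706648266025905833784684965981311108054871217065361880712882021447599627049295673464243307662672496858968210599791182370606172177677205012083879654118515874895203839878197180602864585090664072123628274513418797907604731103902342994629046131876076720976373045424767691981683781926589662227249645621434179370207317750838020594882624325366036376188432762396311752321174366769685431660126661262251877393960056794151886694858687020475153795672761901093759424225370966549933035683738694637257523577168300914584331874908133750401396284079046321357442795690992250126226068431073171318229103257447455565650539837639696068946203823189307638910055735337201710814833238740270150499931223058908422917704679174694244888296881622976119056103596077921004526702164807769036981137830150660385)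

noncomputable def t18 : Tre := Helper55.PC.toT t18n

theorem ok18 : chk K t18 l29 = true :=
  Helper55.PC.chkN_sound K t18n l29 (by decide +kernel)

open Helper55.PC in
noncomputable def t19n : Helper55.PC.Ten :=
  (r
  49319177874362571569280280629577437527698422284378762491063427114979977090754704408028538976101794534430936755007066108466664606645277428600278812442412161299224223430300664911174588844092189426678840308930622335662981938780201764819779580310195352477618388542920601842082609466754418282087021479846667247130863210657859238235905787064302291958047365978745589600201175880228470431427153980674690721423150874419712920025314975082695403613892280406850305185552975248036004564836284712552907283820234352968949572329)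

noncomputable def t19 : Tre := Helper55.PC.toT t19n

theorem ok19 : chk K t19 r28 = true :=
  Helper55.PC.chkN_sound K t19n r28 (by decide +kernel)

open Helper55.PC in
noncomputable def t20n : Helper55.PC.Ten :=
  (r
  3037392754776200253411089254058651208973962275147720405250044373467836726105364551776409973270502710097412925792837833999510786115100416681607612821765080260535630406443940359117120950702639544877539727185053214907532339413708222945900370135217298204985251110166296439927051744601491915282000723864706841233142661840364759703432208238965836421905162715361930719930373370202682679131645104092961779154088531988899565671265017774672198195314997699700394003930536559898655040189587692798255814005870180143490181760933398228854688137626700254417898242391571651183729350859319042690220947685607371053572683722687381886101599545932997528610071787651591368334008195108454380469709783832353852016459233024425068381511981477223942598048705907932507210154357603307104042788938842641808350038372032138118090409738488120013933802544810612548538837754145)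

noncomputable def t20 : Tre := Helper55.PC.toT t20n

theorem ok20 : chk K t20 l30 = true :=
  Helper55.PC.chkN_sound K t20n l30 (by decide +kernel)

open Helper55.PC in
noncomputable def t21n : Helper55.PC.Ten :=
  (r
  40008347146404570515095701449941210973370763323905444871153475836385677922569433100879524513542848660153962624232296240403898580416616968276076281572942385272937891171127426796070416123935674286806737271779610691032328961572547578608330497847121975095898579766688144059693507440270745066499502874018150643712317831031848989562982681526902599446826304138138643971621630964539198664636792285420639040688719013241621742075566863314467955016819896206070114333903383728802812233436850192588440286610966767218612440126389913947475849257241694009902413050206287463857494460756427322711308292630004006955130488378229956347710518702900472244592872005376)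

noncomputable def t21 : Tre := Helper55.PC.toT t21n

theorem ok21 : chk K t21 l32 = true :=
  Helper55.PC.chkN_sound K t21n l32 (by decide +kernel)

open Helper55.PC in
noncomputable def t22n : Helper55.PC.Ten :=
  (r
  603959995238987949765745017467737862415126116438085196244218614077520007548754667539359332175354775996371891472266731262710538757528194009710264215971476019060311954741949351860675565700628491361423230822249604648674943748522868865553575270652400282689948116139941628274361846125446468937397742405555532988943718698710599492604466315966202933258289913497578230756111191706319674410948685315732875604933904969108004836444943682244946368348477110270327822662030604723291825540006770394205597855372690643157197856096108545349124598652832668948422485751147983098721346050812174094931679940130259308000053027398141726052061374365324668592730787243434308936797393187024258000232233038576638198093546941629526251670107132284323817827266637341237251405023243649793111949765886393621207990603659532582195031625133841981185)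

noncomputable def t22 : Tre := Helper55.PC.toT t22n

theorem ok22 : chk K t22 l35 = true :=
  Helper55.PC.chkN_sound K t22n l35 (by decide +kernel)

open Helper55.PC in
noncomputable def t23n : Helper55.PC.Ten :=
  (s
  12280457466485298806942454027524658158033015738953462398147405024198067654986499761640820668971163273309183929441881700905484192973370448904381063692838683840833099682197828022473708480787680331461287882082658713910496306002561690436185354740129025499534021878982060833686246158569655370370040348491952241610895010264991563264349291855048784660296661464441587757235319994043350231597374049841599557965714356910021507286090803143538454300957422357617550556547048528591794292450600346038927367412026886577672433227593264077724388111260966716033)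

noncomputable def t23 : Tre := Helper55.PC.toT t23n

theorem ok23 : chk K t23 l36 = true :=
  Helper55.PC.chkN_sound K t23n l36 (by decide +kernel)

open Helper55.PC in
noncomputable def t24n : Helper55.PC.Ten :=
  (r
  6376294770988085384993987342571659030348079546048228669020890671083854277648197311987961802931326384960960446575325419771782798865631249017556907170329182323644404238909597487831375775682391044427372009218949970414284625940025206426587771423944272982049979486155475701905468393330009642550331073734683625131792840497280974091571005412877260347162382524897040777083359341835525936334370515301403814586400165628469448471709266062850562238217536622592854655024565633688915538245685975706775521910283455822152242309442593618653282386185829209074125286969260125723222242388070802364109269833590956549012880585577682481325521114418653227151662559979278384332274426934196861715815226529838247336553637733120)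

noncomputable def t24 : Tre := Helper55.PC.toT t24n

theorem ok24 : chk K t24 l37 = true :=
  Helper55.PC.chkN_sound K t24n l37 (by decide +kernel)

noncomputable def t25 : Tre :=
  (.N [0,-1,2,1] 0 ⟨0,[(1,0)]⟩ ⟨0,[(0,0)]⟩ (.x (-1) ⟨23,[(0,1),(10,1),(0,1),(1,3),(3,19),(0,0),(9,
  47),(3,12),(1,23),(0,35),(2,5),(3,23)]⟩ ⟨1,[(1,1),(1,0),(3,0),(2,0),(6,0),(12,2),(3,1),(2,0)]⟩))

theorem ok25 : chk K t25 l38 = true := by decide +kernel

open Helper55.PC in
noncomputable def t26n : Helper55.PC.Ten :=
  (r
  114459705450576364879836602504575897846227878679333474431184881578914456960606115035760655218225985210099080491712706699451822634941581655867355616041662341948025106679637203547624772003275800557791925052059448835214733036724168654540375698450598269999986620404692834674364937853924628927327343945979475517644762209949296005061268795598716172557921422173233534777444325087623394640771902364393057918944701763297135921219273602340393230507091749425796852698947865016860952522655724402537733133319783086807064910106012274669018831465707391509679459284463698171185072726625324786133479512880767091209211180420630507538205651900110925621109505)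

noncomputable def t26 : Tre := Helper55.PC.toT t26n

theorem ok26 : chk K t26 l39 = true :=
  Helper55.PC.chkN_sound K t26n l39 (by decide +kernel)

open Helper55.PC in
noncomputable def t27n : Helper55.PC.Ten :=
  (r
  187450628995574437260593386500054733573156462801435666236187681424402737618550847556851663001857593704914760093877301243795578020190682727056470925237193113752288225611549043793728412682377814009952332326487495668969169454677860140043544807769824506074448705414818243434239494831416018540924796078613852631742987196178167579966875844494039498255699638917731293061749801652388029304784389699128044738785646111773235006466987582845141106261687431275067888838549948348243652458591948921567676273430318322297724317302726518659993871643703833787939312630010019443395075184378519531929496812776817938961191443079727894050503753171500996629765829269579061574636074398952053065872411093000854725493622126522110601814003758847630634298580634167159568797207213487047437712431735663687159363209887065378307697554218369456239561400609)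

noncomputable def t27 : Tre := Helper55.PC.toT t27n

theorem ok27 : chk K t27 l41 = true :=
  Helper55.PC.chkN_sound K t27n l41 (by decide +kernel)

open Helper55.PC in
noncomputable def t28n : Helper55.PC.Ten :=
  (r
  1083162365969566671692664389133225776510052423384939084181041379690568113990166071092379554556198361259085305836028864059609929615623089855426709015349907016929510117697883541200801714063378080804410872839560982307395601520032472082937203288696237388281541955962170159892726084669404612912188394844105203000981995724727904560571146414330916031127704167161796380642440733497764546675444299644112477264584508734824959670043957781220731218330783048147015810397403150901919224193698268935770107346731891332323498833556468448472904067146054609844162644853779170537834376303322855061896659406449624351469736146881195419709471399886791020261488744431619254660152889075980078725418569407672486555960814016525297994887833405439602196807295667424410122347030561567439651409011718898722472895645035888041902108440250392937200958094875820241469953711894718146988941491025620025590903849959709600897686410386659845863845968226474516737)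

noncomputable def t28 : Tre := Helper55.PC.toT t28n

theorem ok28 : chk K t28 l43 = true :=
  Helper55.PC.chkN_sound K t28n l43 (by decide +kernel)

open Helper55.PC in
noncomputable def t29n : Helper55.PC.Ten :=
  (r
  1228032586141885464226377957829447430910437810776937741828772740963447832620836211877564912139403757518504830912707965395223654423289767120581050488922706523879278960787046481697011481884660776747875011529539770402145009900446582212669241892146195189689556476796681577050292306652102235172293469426931337589511763328590219779802441553136374574974546235230191395818391510726054526560428335802474251676725044478028358247811119004197658891563198609075711929864232008847337158656046844412552283745767103908930324713734750901855171775747308494866512514585708386016053823073402697626881036859980185116164702286728889959839782594824517081511596462011430504911744730023584512)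

noncomputable def t29 : Tre := Helper55.PC.toT t29n

theorem ok29 : chk K t29 l45 = true :=
  Helper55.PC.chkN_sound K t29n l45 (by decide +kernel)

open Helper55.PC in
noncomputable def t30n : Helper55.PC.Ten :=
  (r
  2803482907612310081971569942656815433311087980203029756144334965845428103133285751809678594189845170707670867868686960325866565696092927203602518838713002088111039516360334595169260899443619532323809338635771163969005081862686647572893878354171087165504340961308471172629238206841298776544942513181424977508038446006153979337657455179931599784719253632983722342399524509447120248978305207476286437411047173042249917521963416746088251935902350642689831305013399249652582400599753648311963511549075753)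

noncomputable def t30 : Tre := Helper55.PC.toT t30n

theorem ok30 : chk K t30 r40 = true :=
  Helper55.PC.chkN_sound K t30n r40 (by decide +kernel)

open Helper55.PC in
noncomputable def t31n : Helper55.PC.Ten :=
  (r
  10223197168898950966849665192290172947612708258531886401243794782318920941260033165603906364149705742147123130488494828267416807294544071774854117288070283910524280112216901251250023836598130803471705225235883544623341300091650072625126286062523177288826113653400207856397946372209793205120443689259943076525186314429983926816529056067897220130600664012585982943038768608819139654071245194031467359238369818572536695671720823417093758817130869437066664108296659394094625480014536265245798058566209721145380943848728113027563431826785829868758286326929118349060164347672424603158540166601550351630811174718164352944960399625725560708707861435757514278142681688076759389551609592717367822811580030384104644435952830779622643543765047259595679661109320906948614282273002167069237830117885197187811676735390097665)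

noncomputable def t31 : Tre := Helper55.PC.toT t31n

theorem ok31 : chk K t31 l48 = true :=
  Helper55.PC.chkN_sound K t31n l48 (by decide +kernel)

open Helper55.PC in
noncomputable def t32n : Helper55.PC.Ten :=
  (q 27138798533355111699967404191192358507948711678490707356783472058371519414285 (r
  121312084780534457384515480104012586484760192922102633078139102597668644368294520113458685373657392186833900454309580008278640637183565966222300467812951122152750807403206214917456095888433508581072668810016894764507387796400108702529109198407526794189938430101549502959628674730664327138037875280594485204818017291623921127877608502693984023812109939212066454151852407652979079174076400498809888153742008857456771555621629057203801210625694833209789217245588576864022716404123676346840879362459990898493034369999102112792976526169545182317764702090964731041746859052666898126744329094808532952952563270529107534898229025158705968462631632393537562018427093591315619861465462644446709357893778531538923803799193481990255394980118111853478167628153142860267789921912968355448443532638050208982258350942092435925965418230876900520918029910178230037223018838306967547628232961)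
  (i 21775413351585892568401936868731217379338 (r
  6138895034798281440337144645612677497767536455845543968449187019477473750716290310358283835712951484387173292089911328796898416825134367517025053170793539885426953013741598683389880976898608789831578245001376537649964526585260975388572931945449106153792132528998961697057489137440987406655542023673509193175130008274616734659515864721897488441380671330533429852030770607994403117960706416810)
  (r
  608572179449574373225882758113659160414959712564486817502923050973034007117839595080283266092208417954963680904516113786658001231914907011714750694058306492414375778651174594387114662384834854974001170990553915886424172479082778314392640729414701507216171373081863127374918478720952733370969620517186813785668876760693751625423572003332959361780264379819591463626797040867414446972425903062419534712698805276081033576803127124223842829254631562983835930545558134936157450747387294460044570522710511932483651709386601312801793829558741168345002802924784149510039141093878573226817860501344493040577184336666095069969110911805840102358473268821856006530002032491975464299275009)))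

noncomputable def t32 : Tre := Helper55.PC.toT t32n

theorem ok32 : chk K t32 l49 = true :=
  Helper55.PC.chkN_sound K t32n l49 (by decide +kernel)

open Helper55.PC in
noncomputable def t33n : Helper55.PC.Ten :=
  (r
  39029761673006947681632845041763638571395946629970829895504139901712983627992088104370436597641538080446201000137402283960137257531767764342849000026933782533967800989953555168037278823667518521662338999417628645174488118667845372976186568956715143819931119580674806421474629957570140194844860621075033260537358445062974000848294244321225516979766059211891930178316994079104940235802944278783407571830860883604403897425883836802881669655935266143756004236339477707660710167249415448133697225634965498998231161703494086094422296565650747529739473005921303303448260711372579260537401406070236893878778984662534710444748747491979868284537571909715720399919823395439892350640383568110359755597764118355382119764525014407629317128564260038549233652382964747839473157276381031747984573690814721)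

noncomputable def t33 : Tre := Helper55.PC.toT t33n

theorem ok33 : chk K t33 l50 = true :=
  Helper55.PC.chkN_sound K t33n l50 (by decide +kernel)

open Helper55.PC in
noncomputable def t34n : Helper55.PC.Ten :=
  (r
  189010515615902441488601898914960374582299833755557773627298680925460280818910151222603584427373864777043185083632600442997830188456145405129496086515260360653814546554566842014519996396841979937999148539564641360772343474299885177491223147179869064195994540093422271600428544772957255699965986797673483751952149658881041084971223619632226589374726996744789678803276893596225234132100192262034597653023683393447223871388010720567995736000087116115877483051766239296418227312885364695928375818749136582944207985298637655892787016321306564653574290066123440074271646172536448676136793875269035694618488406842000774431311321073575947182281375426298522541844713077695395448505341499768247413724876789287513950617589626449256430653452437768581050582552743232013125105630237526285607681)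

noncomputable def t34 : Tre := Helper55.PC.toT t34n

theorem ok34 : chk K t34 l51 = true :=
  Helper55.PC.chkN_sound K t34n l51 (by decide +kernel)

open Helper55.PC in
noncomputable def t35n : Helper55.PC.Ten :=
  (r
  121704534247059403731511556243631576931891371633708540594583667252617073713427705253135145568257549908753084167099073669119055068764591120133901426313393835230455570474686898132298339681883514754997448337805697963357445869224249692317475461582978521730411858862435110651574084260215456168441721445947665272427324927235021569090575533097524803048641156151668878125494635761822847451089389806767523782974799224387231114883179923224929001)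

noncomputable def t35 : Tre := Helper55.PC.toT t35n

theorem ok35 : chk K t35 l53 = true :=
  Helper55.PC.chkN_sound K t35n l53 (by decide +kernel)

open Helper55.PC in
noncomputable def t36n : Helper55.PC.Ten :=
  (r
  1284777738657076702514389111135045962818632664213912984030166834553975672898378477654523443715716521516365963325498104078152141385119885776257648980537953554750276918240860482656432614921330610251473307570995004513068271788593828225828888734851992886347584065103399245478537050191237612860173708434755126915369854680358497617587703096957458492760120978994983760328059382348119965133102135461735154057358986626728406849773363942808226794092069585312003587986107296459989685156536049739375776731701317565057264552865076189718445203459205232965833023361318122288565362984991907061946744776110564591651882931403970377156529541069020517760369844915679423923390843894736563528373857738203801339644474631595108541417998145282336)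

noncomputable def t36 : Tre := Helper55.PC.toT t36n

theorem ok36 : chk K t36 l54 = true :=
  Helper55.PC.chkN_sound K t36n l54 (by decide +kernel)

open Helper55.PC in
noncomputable def t37n : Helper55.PC.Ten :=
  (r
  91460863560264406721533265140760398592317400917350568955568636461632426282199774410959953923527290218840720266905360855256414830423632618993878064465999054108352137767934504930631227442742157389783775524270887638141915800919181239109793553393921238158727974737410954474278995969953358973390886278611018835246719885015209823922517326046926487200036964545840489978868956635003637859503848604005969153374919281185944503486997457902176681734506069605844626973969669316336624370455466272750832767773715544358449518422335628308563286902843074943377696)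

noncomputable def t37 : Tre := Helper55.PC.toT t37n

theorem ok37 : chk K t37 l55 = true :=
  Helper55.PC.chkN_sound K t37n l55 (by decide +kernel)

open Helper55.PC in
noncomputable def t38n : Helper55.PC.Ten :=
  (r
  2216802516053580208416097917847026784703194226383374094202745278722078192070109865795296622799501061487139922205337116187428731777730727075946446711457357436217297683273344886918986352517367435226192963478192080946790701795810006960252952528078813252699927151504364409586474728950628163593697750677330117502535300694744274510224531827996352424492672578047669985326883123781219140745352340887405040640639088606175514614012704580654217101842994478444534913521305193290519618043849860004507427623774601761059721300063504642635384565998460013213804405793043755176565677763227482588758485411921904098989986022038529066905336921826421382644162059673095720543857662781931615808625489080454305904153352199700856152897141413053201740858772429214430893650956632063315964422892085867666264688202866945)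

noncomputable def t38 : Tre := Helper55.PC.toT t38n

theorem ok38 : chk K t38 l56 = true :=
  Helper55.PC.chkN_sound K t38n l56 (by decide +kernel)

open Helper55.PC in
noncomputable def t39n : Helper55.PC.Ten :=
  (r
  1934166337384646522886519077936873571955229912178188095725288797791153173805538415604249808119568705499584055401484775389304806279571873064681844457508341846463969557394966173080187527034831866394062059786543246702238440653092209084272860984350309106463429956822057426312025034146227840306073858478809855054655848290991193382234626155273457383142132076469711247542369493093110186964758472752491993571843026651817107121777966785538060169380002085522022872750786579351369253311328684730479321554862504613023746677439299072924939592622618206185269342131111005668745938999543611282469358335255593752469248)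

noncomputable def t39 : Tre := Helper55.PC.toT t39n

theorem ok39 : chk K t39 l58 = true :=
  Helper55.PC.chkN_sound K t39n l58 (by decide +kernel)

open Helper55.PC in
noncomputable def t40n : Helper55.PC.Ten :=
  (r
  337425880945113637805229845473788425157791682285912160266269170056288784718377181013032704086872990372098092471232195862397705671521960664331887363495219149568219089892582328883470139148474377855658611274688550473113752867699318639969668200490642153186295206913204685922361190316847393165241197730487469739734455342187234976150107140513736663775878226409985163858345314206310123095931668023312550886897137021521541090266432920787728988151365942031234144397724515126096402311387833690016765148116531344252654303780521615311580757396283491421217364017649967224856864)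

noncomputable def t40 : Tre := Helper55.PC.toT t40n

theorem ok40 : chk K t40 l59 = true :=
  Helper55.PC.chkN_sound K t40n l59 (by decide +kernel)

open Helper55.PC in
noncomputable def t41n : Helper55.PC.Ten :=
  (r
  2613797608042079500327761606260246578821130291397296606532516096099430324264218219014949725097100092426108561268967382236509556622410707466920949798796456221249147536567274129048787215215356466178578414798843004515126614005153783203773454845823045948674287015797762457326450228221206350908490640644623056454704517023022059618915383878258514345422463399007200189023985644044878247536230790473950521380568259563720295955686759113488759641638236995071675411475757302071286102347812714568773659715343535122544876608975404580228826195299371920993139697639184871604947187831048356386629882833046826587911660158463730023903682732886439860564997221417298041064630661942625697237828381782057729)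

noncomputable def t41 : Tre := Helper55.PC.toT t41n

theorem ok41 : chk K t41 l60 = true :=
  Helper55.PC.chkN_sound K t41n l60 (by decide +kernel)

open Helper55.PC in
noncomputable def t42n : Helper55.PC.Ten :=
  (q
  64020513329180863256499628830198640714186479600620389382496651848348282313434453799532320509827243771570038636822698823672898431127318366912525
  (r
  30790368520575765771622720378901453191517848848114835030378612400071639719808231793486876861658379839072390312693228493601103617648490184021986975594726205759539375662195601103244911420704729771206435635955439028299714071844038693489871974646709779807764267859194012562835304267319354641607341496241379522525354216367499310900029647116007319797073218879680521520236731963070540074776407939187884556532591791664446173779360525265082332317258398377009971475254971206073799065644993787573355403570329919503163277374120856558417355255709013725137428405573518880920488518689955502322876430143145225748253490751913766970289448481816651126906174301480946495142639137196873538452466462988265234712413672760592102220215852195998318291206853599459144348673321545752865)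
  (r
  1122423444314832012205310451339495085569590674511938461396444975036105684609443875519955625096571118220378803877399744018701499381617393991866527764028402759635207045085309532129375088388541547468633082975972926754826547586557479364516808686925932935832406843312892105769984007446302239431978514391968247985030637137625976202569562031078525634060685716968634297440791167956411829116799103406774447563905765947870825552379532627968149388495838294568608489))

noncomputable def t42 : Tre := Helper55.PC.toT t42n

theorem ok42 : chk K t42 l61 = true :=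
  Helper55.PC.chkN_sound K t42n l61 (by decide +kernel)

open Helper55.PC in
noncomputable def t43n : Helper55.PC.Ten :=
  (r
  125403958277861219917535734002701495541718672518482487751792092118201258592096005681584763840121453625267483375015638733407068073348369161986521846058153528208989630621403921439991032644859378852343429012727920512746980857565386777768190607316014054632606980577868336916330069844510189026267968088639243316294220778219760798651225722929905800882966440039940770097545082028459826545518034897988804134519154974636971302880489982650130574908910343555483177823235135151588759565746818450698169763351596480727553584523104077470619130522622597432353670928493536014032561903028208882879321846747524552624015044855200053150453804804765045921529118882343057385871119118523203109604501777391069341201163075700295059452484136268250873186366136556386188678925272517173543281344197919603695361)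

noncomputable def t43 : Tre := Helper55.PC.toT t43n

theorem ok43 : chk K t43 l62 = true :=
  Helper55.PC.chkN_sound K t43n l62 (by decide +kernel)

open Helper55.PC in
noncomputable def t44n : Helper55.PC.Ten :=
  (r
  1698339497684650496635143413334096563810815309454053253791713132461240397124234743824242177024004183889387122581092920848645817222401151179937747629718368558813017838715831590860340529015160817524506005720776583211107727736558300487485440576651504530014297785995733957163638846545801276361153926110168391462123376738840876541027113)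

noncomputable def t44 : Tre := Helper55.PC.toT t44n

theorem ok44 : chk K t44 l67 = true :=
  Helper55.PC.chkN_sound K t44n l67 (by decide +kernel)

noncomputable def t45 : Tre :=
  (.N [0,-1,2,1] 0 ⟨0,[(4,0)]⟩ ⟨0,[(0,0)]⟩ (.x (-1) ⟨53,[(0,3),(1,3),(2,1),(6,6),(3,41),(0,1),(9,
  107),(3,30),(1,53),(0,85),(2,13),(3,53)]⟩ ⟨0,[(4,0),(3,0),(6,0),(12,1),(10,1)]⟩))

theorem ok45 : chk K t45 l68 = true := by decide +kernel

open Helper55.PC in
noncomputable def t46n : Helper55.PC.Ten :=
  (r
  16338395171839200279185040440698313104251174310720519780710914399279732741465187289454562274363679632123067564200934472544100205278947187334113648234089012471587168884436943830933121445544338483720541469318312367133835876707597859876380653203909333015068968630866363826773387231866577429317990565184985430297288172871527505242966603657223168374167642446925935069950932537768779572951228288384776471237775939794089959422245154831053889758028585)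

noncomputable def t46 : Tre := Helper55.PC.toT t46n

theorem ok46 : chk K t46 l70 = true :=
  Helper55.PC.chkN_sound K t46n l70 (by decide +kernel)

open Helper55.PC in
noncomputable def t47n : Helper55.PC.Ten :=
  (q
  12986495309718181795167151539021260141207290962153240831449501430100389355651940301156727752554835300849367965945954422815146043268008523730698502157
  (r
  90964562941305457162161474965158311906712443717371290085915957390768996763640577659075366239514307578453988321599198256397565937774367518375339993647250037990779165785981352057830098955203829808125811352968230026429109792829664701532947886218908004973621784373754136879206918392738221463414829487910737041950645244435454977908694095688121506455106344199485304738419955167500370445485284914303284026104628193433727988883898336659298445469468847526435874887749053556494711749676184675456329902313491337006251416852804783313764535804938488984118355579529737109704747817060693668291637475081987805094361017052139812367288537653323227424)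
  (r
  22332351750826676628142137857649285493379439281879393568397653110193277204083576095073138262825242212390927160428298306219416304661634085885981413483401268549950032708956318366819783239839614384312591566285846149872118243297695031971142168559072804452510872739844604781897528109583246781795749606444094916060466582792566527877111839736715629116154384022333134350044886560446653695404433184691486186877255129018229283566633385632706669684092177083512915747125725088439653564256235413999715503280908865762302672575458253286253638875240149036980065159451910254992345917516287930794770973383097316674462432950485409918593876564767414454259809482377096067818481557368172817913596800737232651365619405064398901244141105898367700317072107536983639826333176592489857183594602465889251221792))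

noncomputable def t47 : Tre := Helper55.PC.toT t47n

theorem ok47 : chk K t47 l71 = true :=
  Helper55.PC.chkN_sound K t47n l71 (by decide +kernel)

open Helper55.PC in
noncomputable def t48n : Helper55.PC.Ten :=
  (r
  2826824148724719528889901836039314553668009687178654418397893640528691806857679198319400990106922418104643954198301352001979298506636455264472235937729589767053302399019856754634054969627891882260532515786220684205213657984398645404936247628031952239924194372949216531735162921508103787563440917050095999083674619447824440871675716396843464111939270606529612515542861221077147611442582040682076653318675611671185004975098546587674463542074118737559777907692644787307926840314924296974582932116032412678218346034166497943747610235136405694921085944475820976081658040146898702909932101036679939124661416494716878443081814934979692130358463133129122561)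

noncomputable def t48 : Tre := Helper55.PC.toT t48n

theorem ok48 : chk K t48 l73 = true :=
  Helper55.PC.chkN_sound K t48n l73 (by decide +kernel)

open Helper55.PC in
noncomputable def t49n : Helper55.PC.Ten :=
  (r
  648467460740671208653525505880309719985895304393013910315249761451040347095751987213805219852314963644189968827592536614625061428333761392423648713937369630419601636166408033790177361978728174427249532699038586954536661061094685677139848377622123165141675883340556405876324463197035414525383824869060537885795769464404074694054182192188062863701418489420619733303175502662611551703276077555531815550365868436272151245610107038051486742055444104002467000834683490501009888098643094256600466119815238055546078780056385049856660133729641823825055077039319297012204089683602709882522245617989017034159721087546310759156427902124757293132810587400961749713034616959039942428460319499793895633070419647565153661486050443677019669734508318739836234193528983444676190893710900651201519860524509768996612331129553949309800504615201)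

noncomputable def t49 : Tre := Helper55.PC.toT t49n

theorem ok49 : chk K t49 l75 = true :=
  Helper55.PC.chkN_sound K t49n l75 (by decide +kernel)

noncomputable def t50 : Tre :=
  (.K ⟨1,[0,0,1,-1],0,0,(⟨0,[(12,0)]⟩,⟨0,[(32,0),(2,0)]⟩),.k,(.r (-1) ⟨37,[(8,19),(0,1),(6,29),(0,
  14),(1,29),(2,7),(0,14)]⟩ ⟨0,[(4,0)]⟩),(.r 0 ⟨11,[(8,5),(7,6),(7,6),(1,9),(2,3),(0,3)]⟩ ⟨1,[(17,
  0),(0,1),(3,0)]⟩),.k,.k,[⟨0,[(0,0)]⟩,⟨0,[(1,0)]⟩,⟨0,[(16,0),(4,0)]⟩,⟨1,[(10,0),(14,0),(11,0)]⟩,⟨1,
  [(1,0),(6,0),(9,0),(0,0),(0,0)]⟩]⟩)

theorem ok50 : chk K t50 r74 = true := by decide +kernel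

noncomputable def t51 : Tre :=
  (.N [0,-1,1,-1] 0 ⟨0,[(0,0)]⟩ ⟨0,[(14,0),(11,0)]⟩ (.x (-1) ⟨3,[(12,1),(0,2),(0,3),(1,3),(1,0),(1,
  1),(7,3),(2,3),(3,1),(5,1),(0,3)]⟩ ⟨2,[(0,2),(1,1),(5,2),(7,0),(19,0),(4,0),(3,0),(1,0),(1,0)]⟩))

theorem ok51 : chk K t51 r69 = true := by decide +kernel

open Helper55.PC in
noncomputable def t52n : Helper55.PC.Ten :=
  (r
  3396031307368040819316480673425338181397735820140073628678684089990581906896220693519306809401158897254311851346331808811115594280023238891760685478894958444876230580612018450869570105911099451615075373528696133195885617461778805203103496714716886599461976190545795540686663854414682372186973453597561453430887229932811797641044745)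

noncomputable def t52 : Tre := Helper55.PC.toT t52n

theorem ok52 : chk K t52 r66 = true :=
  Helper55.PC.chkN_sound K t52n r66 (by decide +kernel)

open Helper55.PC in
noncomputable def t53n : Helper55.PC.Ten :=
  (r
  3486626562604045000301799715504532181906497742391197193481081150101429500680367628359098945382374079082821587378126880085923233598761727715721509075652387951325896053738926843435292464169276509269784663296616009930606882515492759924984327692106786988961636807406372968187792686853307139030314076190310231703689212478170413857091442205675128263228986772763108265936179734395429772933214737796859198838884181305806360000501949285491805561450064954234472680493226355399420884154939758034517571683537929621361800985077080188617301174166819382512467819397467896814460684668796649254929664183091170892787075082868386489089876542735243258530624653120304534066543498982825977624034235021719415333080816644964758451204281448911435792838167011962448919226312712747101533165947451372911799120602153776362808065)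

noncomputable def t53 : Tre := Helper55.PC.toT t53n

theorem ok53 : chk K t53 l76 = true :=
  Helper55.PC.chkN_sound K t53n l76 (by decide +kernel)

noncomputable def t54 : Tre :=
  (.N [0,-1,1,-2] 0 ⟨0,[(1,0)]⟩ ⟨0,[(3,0)]⟩ (.x (-1) ⟨9,[(3,7),(0,3),(6,7),(0,4),(2,19),(1,4),(1,7),
  (3,3),(3,9),(2,19),(9,9),(0,9)]⟩ ⟨0,[(0,0)]⟩))

theorem ok54 : chk K t54 l78 = true := by decide +kernel

open Helper55.PC in
noncomputable def t55n : Helper55.PC.Ten :=
  (r
  334766859984519619533857378573074536786995864190111035389947346812929599585683018018903780078870913247741882392334781662261793354887865991341922226306627433846114711286828124572510088520178971974132695319695138952769370563165221037450210983959001234321119159947334493599634632047900507192674396701990981869947202973821584930878491559735076686514518603078348027727665028189558299832790004258392772855683663277909925901867556328006771682077600148434540176438006675048118443178698362083826256683603856653027242076513684843456300425446371382589215335702456733692415925469571050385000720455718987484269781710976768527448238122231758022027036724247129673223665380555055867030279604772027811348583818856027933584604841359171872)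

noncomputable def t55 : Tre := Helper55.PC.toT t55n

theorem ok55 : chk K t55 l79 = true :=
  Helper55.PC.chkN_sound K t55n l79 (by decide +kernel)

noncomputable def t56 : Tre :=
  (.N [0,-1,1,-2] 0 ⟨0,[(3,0)]⟩ ⟨0,[(5,0)]⟩ (.x 0 ⟨0,[(0,0)]⟩ ⟨21,[(3,9),(0,3),(2,7),(1,21),(3,9),
  (4,23),(1,10),(2,1),(9,10),(10,21)]⟩))

theorem ok56 : chk K t56 l80 = true := by decide +kernel

open Helper55.PC in
noncomputable def t57n : Helper55.PC.Ten :=
  (r
  197664483565094786545316928227678232617344443346838539919948335094036009861468832721740459346093057284887892643784617569630941060614997206037012702921121390449856422908941251349310294914121579129988064535910938937437409222080300909019776271342573123207518577734084813177145428106194731594893306108681952590959511238615817)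

noncomputable def t57 : Tre := Helper55.PC.toT t57n

theorem ok57 : chk K t57 l82 = true :=
  Helper55.PC.chkN_sound K t57n l82 (by decide +kernel)

open Helper55.PC in
noncomputable def t58n : Helper55.PC.Ten :=
  (r
  1404469195380341205853390240300314177066195568153720056177419939876939462828830837669484393779955314320056435059607829445011492215059741879336300229902621512805027640544573227242048733771273839871418591672018375768068959361640311171004385290064669384489075000326635973091065940210037539184599660627765764873)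

noncomputable def t58 : Tre := Helper55.PC.toT t58n

theorem ok58 : chk K t58 l83 = true :=
  Helper55.PC.chkN_sound K t58n l83 (by decide +kernel)

open Helper55.PC in
noncomputable def t59n : Helper55.PC.Ten :=
  (r
  334770586466607568102396866271181851040608513090431015483869067205472372586113466528393258615697234340141474570748877464625288402092840822279179306528307852602821903596967249966135614412761632818750357517502838906273046774122706147884956134834656170828576896503981953719523098830293074348671734951714919687539914512372828001539583557787484117307734764197543850085344992355322894749736055440753026994086773508300285277863057770666955621663292592327913417838156881796220363090434064333522024815245414325067950730103882315046748754606432514925411088335052146212362178871624146286866166216330625683817763194313444448448358015295010015188616453367123539905398005343772413243475732092959581398797640101100351793264418739183904)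

noncomputable def t59 : Tre := Helper55.PC.toT t59n

theorem ok59 : chk K t59 l84 = true :=
  Helper55.PC.chkN_sound K t59n l84 (by decide +kernel)

open Helper55.PC in
noncomputable def t60n : Helper55.PC.Ten :=
  (r
  273958723384919117990774159354012046682260956837758396490966532228818641631518581304817829039494369664339012106888059563505290776419874303436624229929890529382848666693385736002537785028018003044164921226478565222638211990041325356460171244449283607356920862678622114620448903687905716467333123559444417328140195708667254693899039751182725824951638684549000365342515808039963118619879782837040700298799674042818080793573400818554775447940652213903799948283310626383980513022983598648289720551245596115728558450028390968042724458049767617974816945616844038773745005496055003204553847037925239452374542422246964526473940353081933006746273856459597093305993931456309221002488316025061567488847675357066263825288753998199436512239403715255061673312302025002182239229677474888796842410977529776017836224566737861154524317883802481678214377000765210156154453956139484700729633)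

noncomputable def t60 : Tre := Helper55.PC.toT t60n

theorem ok60 : chk K t60 l85 = true :=
  Helper55.PC.chkN_sound K t60n l85 (by decide +kernel)

open Helper55.PC in
noncomputable def t61n : Helper55.PC.Ten :=
  (r
  364363945397343268504381581372495227031441873789442288946803370596383240809114433659359969305468125290647267589646052091976531326647387461969244661877933588621561452220871920188732342919233560575873049481377744866890023882320524568128213643861126296399255051182837606154492231055044040157739729042438845624539493057722673588626787676412985644929932976933854087482252946584044799383945710698115258057543764767083544208767153292271205719121660792249869876159514698175122991189357391766313)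

noncomputable def t61 : Tre := Helper55.PC.toT t61n

theorem ok61 : chk K t61 l87 = true :=
  Helper55.PC.chkN_sound K t61n l87 (by decide +kernel)

open Helper55.PC in
noncomputable def t62n : Helper55.PC.Ten :=
  (r
  6173131682474654591448676055043166876199668403096550450297428911520829493403678466893487071107854260979278233637189895140127270816409750191828185352195425433223136244516102412591656794647232490892751012227299340470210606412026413796059453835853957395593575510083532503536465226409825941719566732443596665311987068367364397665240450602611036403128851397575734225653821236818395828727331547803868243475250197817551541966728795720260469294962801113347792195185795772213178947505572755236792051900168444183191808622045265397489625707533366343474283614095704117525401537766925271834912)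

noncomputable def t62 : Tre := Helper55.PC.toT t62n

theorem ok62 : chk K t62 l88 = true :=
  Helper55.PC.chkN_sound K t62n l88 (by decide +kernel)

open Helper55.PC in
noncomputable def t63n : Helper55.PC.Ten :=
  (r
  16335653777160601510192184776787829764781747079802399755279161985460352984205822911747761060353642228818351451457005304831233333101031194374900014738610145592066818919085582495570723229052019875866283435752420136283290948258862996097626165990338911087436263080296811896625023108231707540885678884909026260997601875766697296465298517830355487499653124927827805799755071238655441155307407293987233753446552763667351124207895189873886448792625929)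

noncomputable def t63 : Tre := Helper55.PC.toT t63n

theorem ok63 : chk K t63 l90 = true :=
  Helper55.PC.chkN_sound K t63n l90 (by decide +kernel)

open Helper55.PC in
noncomputable def t64n : Helper55.PC.Ten :=
  (r
  32053213810499873297393333551438136054080009261930021936496278266699009141531047737063622115564536112058042948438528281649224233637412481207189737920483211016099221031352218558345047897619718843823054163810666503631700513359604157220730965851010911272908898309342460606630430350745798397407918098387300233857516244523831039080525263885408779232846286342358529540042353637497360874639709366189559932032350212188667289684489033261803373353433941237367849923313372851621922770135575363681914113708173303852585849620420150525336747945970989919503702737273239307044349180934642018543328666925107078946664162571313750304)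

noncomputable def t64 : Tre := Helper55.PC.toT t64n

theorem ok64 : chk K t64 l91 = true :=
  Helper55.PC.chkN_sound K t64n l91 (by decide +kernel)

open Helper55.PC in
noncomputable def t65n : Helper55.PC.Ten :=
  (r
  78563085119087900557382317359304989572703354477390188237714743970723708209353663638139887686042038307644012748143966330672950498518763981111964239376072258400626745509148176249839493042154248077214298544389303819251461362850573950626755540750553737168214235333873150773491077452608792175650538153915213466844934435288849095798825048236090688118853839843370712834154405519525408875430576091976532369029587186926108236098358798949049788077758111351273348972230610668858139291478196887680672232950857251685635138019704839528997075581633659302566716913754400)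

noncomputable def t65 : Tre := Helper55.PC.toT t65n

theorem ok65 : chk K t65 l92 = true :=
  Helper55.PC.chkN_sound K t65n l92 (by decide +kernel)

open Helper55.PC in
noncomputable def t66n : Helper55.PC.Ten :=
  (r
  671499850181507503319738672003793407068735216443258599517791472515866394720467414437289880381432789931291672646043440667444814433733189474558012019036425911739851034304791828828522009202989217710701360160489576175755205400496857184464780745095260227018834791983203521509122469403175723256849082305722217367588108457448503760562492075048625940755418448604624738607284252833519816523173721594740637151298880927305953110328680722383197588428250601458849744195721473013838502697197079729510483204769702815629692865882500693459603431148472232975325972290718834937450892512706459530218454076690708854568379803059853581095702816487714155334820718993033852679273250861299612369279310330606583400415886985832647095098127494618314140450559068143783487288709705174117939143425)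

noncomputable def t66 : Tre := Helper55.PC.toT t66n

theorem ok66 : chk K t66 l94 = true :=
  Helper55.PC.chkN_sound K t66n l94 (by decide +kernel)

open Helper55.PC in
noncomputable def t67n : Helper55.PC.Ten :=
  (r
  41188427065823246157480212056908104658036772646032399956235974648227833911359329602343728641382464799752555515788698886254244534823351679630983650616032967551926466347781267263240286821347670891893914126860715211522774298047084128472058517609717747434014752870167143948951009576677814526118414563911377349830831936387513781781134048129513558268695336887386741295357181578000117656552693972087639991848574672186881348679551576688677033618495306122682360619565794399299291333708820312365545044986886912965766409679515761639767914006551262533580007617575737106720)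

noncomputable def t67 : Tre := Helper55.PC.toT t67n

theorem ok67 : chk K t67 l96 = true :=
  Helper55.PC.chkN_sound K t67n l96 (by decide +kernel)

open Helper55.PC in
noncomputable def t68n : Helper55.PC.Ten :=
  (r
  31122614104064963729387618950493202304218065977539898434422640379175421292366198460389483057978766479235459144510992796638295114255809522693575875200060143789884380526157358621505447051927934184441896478573216067135311210996427164739875334040682621561680005126158598867369507746485504039564295033549321134040416022439392427511914247978009287773946596009307125362001045206264797371211956536466755681712802098575494929618382232156805780760162763792420921521515488129327360019983117253106829988680267254751379340849368409002113242426742043604491319841563103547299298289942325371655676192)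

noncomputable def t68 : Tre := Helper55.PC.toT t68n

theorem ok68 : chk K t68 l98 = true :=
  Helper55.PC.chkN_sound K t68n l98 (by decide +kernel)

open Helper55.PC in
noncomputable def t69n : Helper55.PC.Ten :=
  (r
  34586603775363572736142368803818271208629784681445797141794325763793325116022787845175188517851696492007100366609516325642597398098789682753184534312972604042934084418628827793457614358122712076967403359294473365621036295731814883357611109936863730256694666047061295724482191865867087269176921651687801162932482815774807240478568301859506875138223407494408344017543023034522674156319034599712136397214059589453659041440041)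

noncomputable def t69 : Tre := Helper55.PC.toT t69n

theorem ok69 : chk K t69 r97 = true :=
  Helper55.PC.chkN_sound K t69n r97 (by decide +kernel)

noncomputable def t70 : Tre :=
  (.K ⟨1,[0,0,1,-1],0,0,(⟨0,[(6,0)]⟩,⟨0,[(26,0),(2,0)]⟩),.k,(.r (-1) ⟨0,[(10,0),(2,0),(3,0),(3,0)]⟩
  ⟨2,[(1,0),(0,2),(1,0),(46,0)]⟩),(.r 0 ⟨4,[(3,1),(6,2),(2,2),(6,5),(0,2)]⟩ ⟨1,[(11,0),(0,1),(3,
  0)]⟩),.k,.k,[⟨0,[(0,0)]⟩,⟨0,[(2,0)]⟩,⟨0,[(10,0),(4,0)]⟩,⟨1,[(4,0),(14,0),(11,0)]⟩,⟨0,[(13,0),(0,
  0),(7,0)]⟩]⟩)

theorem ok70 : chk K t70 r95 = true := by decide +kernel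

noncomputable def t71 : Tre :=
  (.N [0,-3,0,1] (-1) ⟨0,[(1,0)]⟩ ⟨0,[(2,0)]⟩ (.x 1 ⟨0,[(0,0)]⟩ ⟨2,[(1,0),(6,2),(3,0),(0,1),(1,2),
  (2,1),(12,0),(11,0),(7,2)]⟩))

theorem ok71 : chk K t71 l101 = true := by decide +kernel

open Helper55.PC in
noncomputable def t72n : Helper55.PC.Ten :=
  (r
  7501231256263429787927036326952860466450647498031438367015562034105260478144404349846594604937651272309676802229092910568823779568926475307264438595763645683797260797731313894564133479072816005845002800771324682663285938269319433210887939934342139419334041019511698637438028584542326383439303690024957934971769426733666746125802748779594531705163527562352284373929316998848855605224352000667566542013464471701193446877425825901855726824885886036788159730446233626600141265167129487648719092905256568911710899985110282536484757789001821141288581856051239477746317387018649418952815687956046274382262838635976408913350899413998580681618068087553)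

noncomputable def t72 : Tre := Helper55.PC.toT t72n

theorem ok72 : chk K t72 l103 = true :=
  Helper55.PC.chkN_sound K t72n l103 (by decide +kernel)

open Helper55.PC in
noncomputable def t73n : Helper55.PC.Ten :=
  (r
  26105668976879666692926618766942068429907241338611316734889899062031602340854889070295158199807665218763530008210650989586866268063449751320473308682504277417755943881227878455502871851108378667163462634763707221687745624918048906461187724223957263622252241972397501081877039525699481301259888686020454785730957908528295903683077478270272623901165756076747718185783129079604426283300435683476943545870009022618926223915886308037192184295311685165072922094365151454020636958998412640034539833463754474255657088016641031107904345461650142840826151992439013728983679952710935807014780657213728)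

noncomputable def t73 : Tre := Helper55.PC.toT t73n

theorem ok73 : chk K t73 r102 = true :=
  Helper55.PC.chkN_sound K t73n r102 (by decide +kernel)

open Helper55.PC in
noncomputable def t74n : Helper55.PC.Ten :=
  (r
  4558661390131925606026485062313812230675616380296192068888551767302001536856146832504192129339755774880546573432127172004868613610328140361381487132654788788198642886642517206458964670338476933189480704400485579672178171651421604695432506491978197873418470297747136828542389175090906755122761758959859686214951484912545349887543716409027240026656311800001911498400457072508307207909446640434794394383084723035928226071225990471003433062229699378248586141204287393422482971969922233758953588636459848143030668539394015359401832085419536742537726110545630590533089488380217923477792)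

noncomputable def t74 : Tre := Helper55.PC.toT t74n

theorem ok74 : chk K t74 l104 = true :=
  Helper55.PC.chkN_sound K t74n l104 (by decide +kernel)

open Helper55.PC in
noncomputable def t75n : Helper55.PC.Ten :=
  (r
  3159273627963065621503939400333886322879979399422111381075288352836451972339205080372128364200296471414135407954389652172131182002052736858461921450054413213269594354849041314686727068805091951033950759541504638837561564740056892521431339968462002520238430528533525118692019371848234149033128019271687527289787225096557345400868817584095549938904467810683480004173669859831119078286983821015674566108451801346922104545510454577410553172885767071417390683245969739096809)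

noncomputable def t75 : Tre := Helper55.PC.toT t75n

theorem ok75 : chk K t75 l105 = true :=
  Helper55.PC.chkN_sound K t75n l105 (by decide +kernel)

open Helper55.PC in
noncomputable def t76n : Helper55.PC.Ten :=
  (r
  24763164470873119985214681018483140178981618216124341436147673480661321271948151819367451971785205519733213127241506048452626451471549010208073506293861032860003344258786215303115511426920951278303794368560670064155302149616515437008728714492063467160860223859824239764943961246636894101691608776006081828814073296212396195732631124019171142149630596257134682193260534553048769214698745121775593868473161631275591867494751796598491571787133304591062280067693071372752601688728978002108376834882159270083037502629772469624524076065842983096201158877103412861063739181899301896154114342076228818889604306518423576652623298751970391252565587480034337070601046445380514079008)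

noncomputable def t76 : Tre := Helper55.PC.toT t76n

theorem ok76 : chk K t76 l106 = true :=
  Helper55.PC.chkN_sound K t76n l106 (by decide +kernel)

open Helper55.PC in
noncomputable def t77n : Helper55.PC.Ten :=
  (r
  134556317726953551246538554441064902403750038807863522339830307774319758806124028961228870805302150480646619336191213803901311963528687916419866868507236448908533125964610865669169540830799311300852493036875050572839082359267023941100835252490526546038239454834000732955982146438412897322693322794311601599226033528595442358071409117062464481366535495194256169)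

noncomputable def t77 : Tre := Helper55.PC.toT t77n

theorem ok77 : chk K t77 l107 = true :=
  Helper55.PC.chkN_sound K t77n l107 (by decide +kernel)

open Helper55.PC in
noncomputable def t78n : Helper55.PC.Ten :=
  (r
  1891856910851471864305096076200642751349759418907653432691403949975090355754183535165045907573782991305731485431254408320637798991969099872179419338480625578860770418068224033768981812552097083099216990013538023908407771818479223249436802270059794421285803429246566515101595973884487576780020219302869594191032457657377653502268034302387674355771846429275076299327235089287752327490969064632114918256823220174024057112317851488235258807066820788702412828839118906599655897137099302442639973217605814110886565449990136617)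

noncomputable def t78 : Tre := Helper55.PC.toT t78n

theorem ok78 : chk K t78 l108 = true :=
  Helper55.PC.chkN_sound K t78n l108 (by decide +kernel)

open Helper55.PC in
noncomputable def t79n : Helper55.PC.Ten :=
  (r
  4061946455948982008143554321488555661149600896520703952656395582909774471220267501501876039924419449920670711977182730153477401618717930003780491180235726149280227224400415820963219472671085259312485442127077600081828619435655821048783646414267626575685163614148179466003998272395450615887872585330133748123837332456066455593741012636524628939517793437343965131621903019754819295101982384689128174203112396633142501093610035091480794048706170995697510902155870315626751513290945418081949587213934642874790996629600702869596206525492924891983177159290509356484106325507637963110097759488717550682931431148117166987096868388658640769471286496044880917341828655586992416)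

noncomputable def t79 : Tre := Helper55.PC.toT t79n

theorem ok79 : chk K t79 l110 = true :=
  Helper55.PC.chkN_sound K t79n l110 (by decide +kernel)

open Helper55.PC in
noncomputable def t80n : Helper55.PC.Ten :=
  (r
  22044137415728505487444252564052982853673160994176153276704357188616235946822114580192158899605523023377029537510110127392411757584035290799956005204537449959034817585543188217991988546039206617985300762410442280647502758320270409792004832296124081082002151530760726710697033871197686035328108668707406454670659447096813246468925650899524787638867986524600873569189708871291716497528212691630840517729840781105901896114622687342398708565509692096777075348223634836229049598181102571468564809251395133387682719078526645520387465559875583865779246868772679950813425625435959505854507235772075335922141635329)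

noncomputable def t80 : Tre := Helper55.PC.toT t80n

theorem ok80 : chk K t80 l112 = true :=
  Helper55.PC.chkN_sound K t80n l112 (by decide +kernel)

open Helper55.PC in
noncomputable def t81n : Helper55.PC.Ten :=
  (r
  6238293637376938357554920843538998664334634274092782905411292171511397871586090361210281457619811732792605624706684908580551252432324214976808003301893033618686100354152496974413267457199924049470486415879418575452721699377466945757601270739135204933254142574599373428736250958011469596488711838908599699494440742444776428267692511702777279319269053898866611803308374565929944318511597562108138292067136797786540347906574172095678907137655502465587887424423539973328899148288763477292516078930469934144004691874774314090258645131552)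

noncomputable def t81 : Tre := Helper55.PC.toT t81n

theorem ok81 : chk K t81 r111 = true :=
  Helper55.PC.chkN_sound K t81n r111 (by decide +kernel)

open Helper55.PC in
noncomputable def t82n : Helper55.PC.Ten :=
  (r
  735575712277336423635468678626671042963857622682608519931158133266592760040878263968400825947009445815053465036111154176445908007609998667463145103606011506962899039586703674270808383635460512891340852810641476096909695048532841875134140868842234916749867640935426413968988762200802589051543457185145226469898125496599105326664958672088529707584633766486327179412107126036627573098128901000908178579750517415149749493906919668126429093035683227629129557615337)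

noncomputable def t82 : Tre := Helper55.PC.toT t82n

theorem ok82 : chk K t82 r109 = true :=
  Helper55.PC.chkN_sound K t82n r109 (by decide +kernel)

theorem cl0 : Clo K (Helper55.TR.GT 1 Helper55.TR.BrU) l16 :=
  .i [n0,n1,m1,m1,n0,n0,n0,n1,n0,m1] (e' := [n1,m1,n1,n1,n0,n0,n0,m1,n0,n1]) (by decide +kernel)
  (by decide +kernel) (.t t10 ok10) (.h (Helper55.TR.GT.lJ Helper55.CD.Dm1_1_c6u_87_0.g 256867172106603993805034703965668610747542093152781335646654296277056639219934929402990859803388903494119137594400068195587577140245244198840182557815481828033505942962245448930448945200201 (by decide +kernel)))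

theorem cl1 : Clo K (Helper55.TR.GT 1 Helper55.TR.BrU) r16 :=
  .q [n0,n0,n0,m2,n0,n0,n1,n1,m1,m1,n0,n1,m1] (e' := [n0,n0,n0,n2,n0,n0,m1,m1,n1,n1,n0,m1,n1]) (.p false [0,0,-1,1] []
  (⟨0,[(13,0)]⟩,⟨0,[(34,0),(4,0)]⟩) .k 0 (⟨0,[]⟩,⟨0,[]⟩) .k (.r (-1) ⟨5,[(2,1),(15,4),(0,7),(3,0),
  (2,1)]⟩ ⟨8,[(4,1),(10,1),(1,1),(2,5),(0,2),(0,2),(4,2),(0,5)]⟩)) (by decide +kernel)
  (by decide +kernel) (.t t11 ok11) (.h (Helper55.TR.GT.lJ Helper55.CD.Dm1_1_c6u_87_1.g 257041385206082303297308180807073144698618537122027545655023147662403588740893468858881475561439657016070116089017264535036998492649644017449953760904124016149516247765751709143145300103171 (by decide +kernel)))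

theorem cl2 : Clo K (Helper55.TR.GT 1 Helper55.TR.BrU) r15 :=
  .q [n0,n0,n0,m1,n0,n0,n1,n1,m1,m1,n1,n1,m1] (e' := [n0,n0,n0,n1,n0,n0,m1,m1,n1,n1,m1,m1,n1]) (.p false [0,0,-1,1]
  [1] (⟨0,[(12,0)]⟩,⟨0,[(33,0),(4,0)]⟩) .k 1 (⟨0,[]⟩,⟨0,[]⟩) .k (.r (-1) ⟨5,[(1,1),(15,4),(0,7),(3,
  0),(2,1)]⟩ ⟨8,[(3,1),(10,1),(1,1),(2,5),(0,2),(0,2),(4,2),(0,5)]⟩)) (by decide +kernel)
  (by decide +kernel) cl0 cl1

theorem cl3 : Clo K (Helper55.TR.GT 1 Helper55.TR.BrU) l14 :=
  .i [n0,n1,n0,n0,n0,n0,n0,m1,n0,m1] (e' := [n1,m1,n0,n0,n0,n0,n0,n1,n0,n1]) (by decide +kernel) (by decide +kernel)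
  (.t t9 ok9) cl2

theorem cl4 : Clo K (Helper55.TR.GT 1 Helper55.TR.BrU) l13 :=
  .i [n0,n0,n1,n1,n0,n0,n0,m2,n0,m1] (e' := [n1,n0,m1,m1,n0,n0,n0,n2,n0,n1]) (by decide +kernel)
  (by decide +kernel) cl3 (.h (Helper55.TR.GT.lJ Helper55.CD.Dm1_1_c6u_87_2.g 227219727063925562817591552851621989457810113518651556907748831008657701027116909923853015693401464442801851172468781128759281990628222033849104662373300959595738882931460579266563 (by decide +kernel)))

theorem cl5 : Clo K (Helper55.TR.GT 1 Helper55.TR.BrU) l12 :=
  .i [n0,n0,n1,n0,n0,n0,n0,m2,n0,m1] (e' := [n1,n0,m1,n0,n0,n0,n0,n2,n0,n1]) (by decide +kernel) (by decide +kernel)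
  cl4 (.h (Helper55.TR.GT.lJ Helper55.CD.Dm1_1_c6u_87_3.g 139398968302821436351911854148823118621092674664243082583419860795351170381938026743803061344923881564391661480695148782894514091976015443040137009217930946479465818176359445 (by decide +kernel)))

theorem cl6 : Clo K (Helper55.TR.GT 1 Helper55.TR.BrU) l11 :=
  .q [n0,n0,m1,n0,n0,n0,m2,n0,m1,n0,n1,m2,m1] (e' := [n0,n0,n1,n0,n0,n0,n2,n0,n1,n0,m1,n2,n1]) (.p false [0,0,1] [1,0,
  -1,-1] (⟨0,[(29,0)]⟩,⟨0,[(28,0)]⟩) .k 2 (⟨0,[(0,0)]⟩,⟨0,[(29,0),(1,0)]⟩) .k (.r 0 ⟨0,[(14,0),(6,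
  0),(5,1)]⟩ ⟨1,[(13,0),(2,1),(0,1),(0,0),(1,1),(12,1)]⟩)) (by decide +kernel) (by decide +kernel)
  cl5 (.h (Helper55.TR.GT.lb Helper55.CD.Dm1_1_c6u_87_4.g 126089195119674374916939376794989783125214637930892098272688645726534124485497165189753788688623189044753216601005111169184112844087819718536659895386853964995625987 (by decide +kernel)))

theorem cl7 : Clo K (Helper55.TR.GT 1 Helper55.TR.BrU) r11 :=
  .q [n0,n0,n0,m2,n0,n0,n1,n1,m1,m1,n0,n1,m1] (e' := [n0,n0,n0,n2,n0,n0,m1,m1,n1,n1,n0,m1,n1]) (.p false [0,0,-1,1] []
  (⟨0,[(8,0)]⟩,⟨0,[(29,0),(4,0)]⟩) .k 0 (⟨0,[]⟩,⟨0,[]⟩) .k (.r (-1) ⟨11,[(13,8),(0,11),(3,2),(1,3),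
  (4,3),(0,1),(6,3)]⟩ ⟨0,[(21,0),(0,0),(0,0)]⟩)) (by decide +kernel) (by decide +kernel) (.t t12
  ok12) (.h (Helper55.TR.GT.lJ Helper55.CD.Dm1_1_c6u_87_5.g 107144431413204717242567096558955070808297635317318029077098567500725247963564654307597564043739441044480402738893975114790738141770295227640978210141670125673017089504551378945 (by decide +kernel)))

theorem cl8 : Clo K (Helper55.TR.GT 1 Helper55.TR.BrU) r10 :=
  .q [n0,n0,n0,n0,n0,n0,n0,n0,n0,n0,n1,m1,m1] (e' := [n0,n0,n0,n0,n0,n0,n0,n0,n0,n0,m1,n1,n1]) (.ed true [0,0,1,1] (.r 0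
  ⟨1,[(0,0),(5,0),(6,1),(21,0),(4,0),(0,3),(3,1),(2,0)]⟩ ⟨1,[(11,0),(0,0),(2,1),(0,1),(0,0),(1,0),
  (0,1)]⟩)) (by decide +kernel) (by decide +kernel) cl6 cl7

theorem cl9 : Clo K (Helper55.TR.GT 1 Helper55.TR.BrU) r9 :=
  .q [n0,n0,n0,n0,n0,n2,n0,n0,n0,n0,m1,n0,n1] (e' := [n0,n0,n0,n0,n0,m2,n0,n0,n0,n0,n1,n0,m1]) (.p true [0,0,0,1] [1] (⟨0,
  [(29,0)]⟩,⟨0,[(32,0)]⟩) .k 1 (⟨0,[]⟩,⟨0,[]⟩) .k .k) (by decide +kernel) (by decide +kernel) (.t
  t8 ok8) cl8

theorem cl10 : Clo K (Helper55.TR.GT 1 Helper55.TR.BrU) r8 :=
  .q [n0,n0,m1,n0,n0,n0,m1,n0,n1,n0,n0,m1,n1] (e' := [n0,n0,n1,n0,n0,n0,n1,n0,m1,n0,n0,n1,m1]) (.p true [0,0,-1,1] []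
  (⟨0,[(5,0)]⟩,⟨0,[(26,0),(4,0)]⟩) .k 0 (⟨0,[]⟩,⟨0,[]⟩) .k (.r (-1) ⟨11,[(10,8),(0,11),(3,2),(1,3),
  (4,3),(0,1),(6,3)]⟩ ⟨0,[(18,0),(0,0),(0,0)]⟩)) (by decide +kernel) (by decide +kernel) (.t t7
  ok7) cl9

theorem cl11 : Clo K (Helper55.TR.GT 1 Helper55.TR.BrU) l7 :=
  .q [n0,m1,n0,m1,n0,n0,n0,n0,m1,m1,n1,n0,m1] (e' := [n0,n1,n0,n1,n0,n0,n0,n0,n1,n1,m1,n0,n1]) (.p false [0,0,0,1] [1]
  (⟨0,[(27,0)]⟩,⟨0,[(30,0)]⟩) .k 1 (⟨0,[]⟩,⟨0,[]⟩) .k .k) (by decide +kernel) (by decide +kernel)
  (.t t6 ok6) cl10

theorem cl12 : Clo K (Helper55.TR.GT 1 Helper55.TR.BrU) r26 :=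
  .i [n1,n0,n0,n0,n0,n0,n0,m1,n0,m2] (e' := [n0,n0,n0,n0,n0,n0,n0,n1,n0,n2]) (by decide +kernel) (by decide +kernel)
  (.t t17 ok17) (.h (Helper55.TR.GT.lJ Helper55.CD.Dm1_1_c6u_87_6.g 259052439405768720596459582408132969467020585307049787068022696629014640736753326290822732088297445545436647765766598039861313925258244638432030801601189996556275166308469762 (by decide +kernel)))

theorem cl13 : Clo K (Helper55.TR.GT 1 Helper55.TR.BrU) r25 :=
  .q [n0,n0,n0,n0,n0,n2,n0,n0,n0,n0,m1,n0,n1] (e' := [n0,n0,n0,n0,n0,m2,n0,n0,n0,n0,n1,n0,m1]) (.p true [0,0,0,1] [1] (⟨0,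
  [(33,0)]⟩,⟨0,[(36,0)]⟩) .k 1 (⟨0,[]⟩,⟨0,[]⟩) .k .k) (by decide +kernel) (by decide +kernel) (.t
  t16 ok16) cl12

theorem cl14 : Clo K (Helper55.TR.GT 1 Helper55.TR.BrU) r24 :=
  .i [n0,n1,n0,n0,n0,n0,n0,n0,n0,n1] (e' := [n1,m1,n0,n0,n0,n0,n0,n0,n0,m1]) (by decide +kernel) (by decide +kernel)
  (.t t15 ok15) cl13

theorem cl15 : Clo K (Helper55.TR.GT 1 Helper55.TR.BrU) r23 :=
  .q [n0,n0,n1,n0,n0,n0,n1,n0,m1,n0,n1,n1,m1] (e' := [n0,n0,m1,n0,n0,n0,m1,n0,n1,n0,m1,m1,n1]) (.p false [0,0,-1,1] [1]
  (⟨0,[(8,0)]⟩,⟨0,[(29,0),(4,0)]⟩) .k 1 (⟨0,[]⟩,⟨0,[]⟩) .k (.r (-1) ⟨5,[(2,1),(10,4),(0,7),(3,0),(6,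
  1)]⟩ ⟨0,[(21,0),(0,0),(0,0)]⟩)) (by decide +kernel) (by decide +kernel) (.t t14 ok14) cl14

theorem cl16 : Clo K (Helper55.TR.GT 1 Helper55.TR.BrU) l22 :=
  .i [n0,n1,n0,n0,n0,n0,n0,m1,n0,m1] (e' := [n1,m1,n0,n0,n0,n0,n0,n1,n0,n1]) (by decide +kernel) (by decide +kernel)
  (.t t13 ok13) cl15

theorem cl17 : Clo K (Helper55.TR.GT 1 Helper55.TR.BrU) l28 :=
  .q [n0,m1,n0,m2,n0,n0,m1,m1,n1,n1,n0,m1,n1] (e' := [n0,n1,n0,n2,n0,n0,n1,n1,m1,m1,n0,n1,m1]) (.p true [0,0,-1,1] []
  (⟨0,[(8,0)]⟩,⟨0,[(29,0),(4,0)]⟩) .k 0 (⟨0,[]⟩,⟨0,[]⟩) .k (.r (-1) ⟨5,[(2,1),(10,4),(0,7),(3,0),(6,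
  1)]⟩ ⟨0,[(21,0),(0,0),(0,0)]⟩)) (by decide +kernel) (by decide +kernel) (.t t18 ok18) (.h (Helper55.TR.GT.lb Helper55.CD.Dm1_1_c6u_87_7.g 265347158555895338126506217057549212905396375415025133720137101018498499707250665549406208703671585940715209129120228654222233118895041787738857251709000862246332395219900716051 (by decide +kernel)))

theorem cl18 : Clo K (Helper55.TR.GT 1 Helper55.TR.BrU) r22 :=
  .q [n0,n0,m2,n0,n1,n0,n1,n0,m1,n0,n0,n1,m1] (e' := [n0,n0,n2,n0,m1,n0,m1,n0,n1,n0,n0,m1,n1]) (.p false [0,0,-1,1] []
  (⟨0,[(7,0)]⟩,⟨0,[(28,0),(4,0)]⟩) .k 0 (⟨0,[]⟩,⟨0,[]⟩) .k (.r (-1) ⟨5,[(1,1),(10,4),(0,7),(3,0),(6,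
  1)]⟩ ⟨0,[(20,0),(0,0),(0,0)]⟩)) (by decide +kernel) (by decide +kernel) cl17 (.t t19 ok19)

theorem cl19 : Clo K (Helper55.TR.GT 1 Helper55.TR.BrU) l21 :=
  .i [n0,n0,n1,n1,n0,n0,n0,m2,n0,m1] (e' := [n1,n0,m1,m1,n0,n0,n0,n2,n0,n1]) (by decide +kernel)
  (by decide +kernel) cl16 cl18

theorem cl20 : Clo K (Helper55.TR.GT 1 Helper55.TR.BrU) r21 :=
  .q [n0,m1,n0,m2,n0,n0,m1,m1,n1,n1,n0,m1,n1] (e' := [n0,n1,n0,n2,n0,n0,n1,n1,m1,m1,n0,n1,m1]) (.p true [0,0,-1,1] []
  (⟨0,[(6,0)]⟩,⟨0,[(27,0),(4,0)]⟩) .k 0 (⟨0,[]⟩,⟨0,[]⟩) .k (.r (-1) ⟨11,[(11,8),(0,11),(3,2),(1,3),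
  (4,3),(0,1),(6,3)]⟩ ⟨0,[(19,0),(0,0),(0,0)]⟩)) (by decide +kernel) (by decide +kernel) (.t t20
  ok20) (.h (Helper55.TR.GT.lb Helper55.CD.Dm1_1_c6u_87_8.g 75810390940626242351354298230364225924203505221011050617836957025689595539947213888514749302933789935110341975126705356345243045254854208171205563460819132828616707 (by decide +kernel)))

theorem cl21 : Clo K (Helper55.TR.GT 1 Helper55.TR.BrU) l20 :=
  .i [n0,n0,n1,n0,n0,n0,n0,m2,n0,m1] (e' := [n1,n0,m1,n0,n0,n0,n0,n2,n0,n1]) (by decide +kernel) (by decide +kernel)
  cl19 cl20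

theorem cl22 : Clo K (Helper55.TR.GT 1 Helper55.TR.BrU) l31 :=
  .i [n0,n1,n0,n0,n0,n0,n0,m1,n0,m1] (e' := [n1,m1,n0,n0,n0,n0,n0,n1,n0,n1]) (by decide +kernel) (by decide +kernel)
  (.t t21 ok21) (.h (Helper55.TR.GT.lJ Helper55.CD.Dm1_1_c6u_87_9.g 275691000981751399863838644772167722290473225198470701530911000488406688297264502964159015269636212391858127517251216930927530913284620299555763084679283347353114314277924 (by decide +kernel)))

theorem cl23 : Clo K (Helper55.TR.GT 1 Helper55.TR.BrU) r36 :=
  .q [n0,n0,n0,n0,n0,n2,n0,n0,n0,n0,m1,n0,n1] (e' := [n0,n0,n0,n0,n0,m2,n0,n0,n0,n0,n1,n0,m1]) (.p true [0,0,0,1] [1] (⟨0,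
  [(33,0)]⟩,⟨0,[(36,0)]⟩) .k 1 (⟨0,[]⟩,⟨0,[]⟩) .k .k) (by decide +kernel) (by decide +kernel) (.t
  t24 ok24) (.h (Helper55.TR.GT.lJ Helper55.CD.Dm1_1_c6u_87_10.g 87269641987051997717526643756266042503374471236143698014325296298812823211826545124006298794286244890649909410529047294006669693545518502390048518714358657132088128596836317059353601 (by decide +kernel)))

theorem cl24 : Clo K (Helper55.TR.GT 1 Helper55.TR.BrU) r35 :=
  .q [n0,n0,n1,n0,n0,n0,n1,n0,m1,n0,n1,n1,m1] (e' := [n0,n0,m1,n0,n0,n0,m1,n0,n1,n0,m1,m1,n1]) (.p false [0,0,-1,1] [1]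
  (⟨0,[(9,0)]⟩,⟨0,[(30,0),(4,0)]⟩) .k 1 (⟨0,[]⟩,⟨0,[]⟩) .k (.r (-1) ⟨5,[(1,1),(12,4),(0,7),(3,0),(2,
  1)]⟩ ⟨0,[(22,0),(0,0),(0,0)]⟩)) (by decide +kernel) (by decide +kernel) (.t t23 ok23) cl23

theorem cl25 : Clo K (Helper55.TR.GT 1 Helper55.TR.BrU) l34 :=
  .i [n0,n1,n0,n0,n0,n0,n0,m1,n0,m1] (e' := [n1,m1,n0,n0,n0,n0,n0,n1,n0,n1]) (by decide +kernel) (by decide +kernel)
  (.t t22 ok22) cl24

theorem cl26 : Clo K (Helper55.TR.GT 1 Helper55.TR.BrU) l42 :=
  .q [n0,n1,n0,m1,n0,n0,n0,n0,n2,n2,m1,n0,n2] (e' := [n0,m1,n0,n1,n0,n0,n0,n0,m2,m2,n1,n0,m2]) (.p true [0,0,0,1] [1,0,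
  0,-1] (⟨0,[(36,0)]⟩,⟨0,[(39,0)]⟩) .k 2 (⟨0,[(39,0)]⟩,⟨0,[(36,0)]⟩) .k (.r (-1) ⟨0,[(18,0),(0,1)]⟩
  ⟨2,[(1,1),(20,1),(5,3),(9,1)]⟩)) (by decide +kernel) (by decide +kernel) (.t t28 ok28) (.h
  (Helper55.TR.GT.lJ Helper55.CD.Dm1_1_c6u_87_11.g 257049688560943498084834894895611722002259662138474407673233504783687490944979373639636851734267448102259881087890974980952862069133790743444739862794112220011449636038950718957617699369986 (by decide +kernel)))

theorem cl27 : Clo K (Helper55.TR.GT 1 Helper55.TR.BrU) l44 :=
  .q [n0,n0,n0,n0,n0,n2,n0,n0,n0,n0,m1,n0,n1] (e' := [n0,n0,n0,n0,n0,m2,n0,n0,n0,n0,n1,n0,m1]) (.p true [0,0,0,1] [1] (⟨0,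
  [(37,0)]⟩,⟨0,[(40,0)]⟩) .k 1 (⟨0,[]⟩,⟨0,[]⟩) .k .k) (by decide +kernel) (by decide +kernel) (.t
  t29 ok29) (.h (Helper55.TR.GT.lJ Helper55.CD.Dm1_1_c6u_87_12.g 313291871622789040798706063756087863473818727179570278196781947336012169079981141808706036661800316802084633015997204297923745123070129410958660561029306365015188123629387778 (by decide +kernel)))

theorem cl28 : Clo K (Helper55.TR.GT 1 Helper55.TR.BrU) r42 :=
  .i [n0,n0,m1,n0,n0,m1,m1,n0,n1] (e' := [n1,n0,n1,n0,n0,n1,n1,n0,m1]) (by decide +kernel) (by decide +kernel)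
  cl27 (.h (Helper55.TR.GT.lJ Helper55.CD.Dm1_1_c6u_87_13.g 135561032655491780144418425211630055439303221171572723101779704941436891527051135093683182627188437745587828135313729464239788250234860979385634793000859181144649558172634114 (by decide +kernel)))

theorem cl29 : Clo K (Helper55.TR.GT 1 Helper55.TR.BrU) r41 :=
  .q [n0,m1,n0,m1,n0,n0,n0,n0,m1,m1,n1,n0,m1] (e' := [n0,n1,n0,n1,n0,n0,n0,n0,n1,n1,m1,n0,n1]) (.p false [0,0,0,1] [1]
  (⟨0,[(35,0)]⟩,⟨0,[(38,0)]⟩) .k 1 (⟨0,[]⟩,⟨0,[]⟩) .k .k) (by decide +kernel) (by decide +kernel)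
  cl26 cl28

theorem cl30 : Clo K (Helper55.TR.GT 1 Helper55.TR.BrU) l40 :=
  .q [n0,m1,n0,m2,n0,n0,m1,m1,n1,n1,n0,m1,n1] (e' := [n0,n1,n0,n2,n0,n0,n1,n1,m1,m1,n0,n1,m1]) (.p true [0,0,-1,1] []
  (⟨0,[(11,0)]⟩,⟨0,[(32,0),(4,0)]⟩) .k 0 (⟨0,[]⟩,⟨0,[]⟩) .k (.r (-1) ⟨5,[(4,1),(11,4),(0,7),(3,0),
  (6,1)]⟩ ⟨0,[(24,0),(0,0),(0,0)]⟩)) (by decide +kernel) (by decide +kernel) (.t t27 ok27) cl29

theorem cl31 : Clo K (Helper55.TR.GT 1 Helper55.TR.BrU) r39 :=
  .q [n0,n0,m2,n0,n1,n0,n1,n0,m1,n0,n0,n1,m1] (e' := [n0,n0,n2,n0,m1,n0,m1,n0,n1,n0,n0,m1,n1]) (.p false [0,0,-1,1] []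
  (⟨0,[(10,0)]⟩,⟨0,[(31,0),(4,0)]⟩) .k 0 (⟨0,[]⟩,⟨0,[]⟩) .k (.r (-1) ⟨5,[(3,1),(11,4),(0,7),(3,0),
  (6,1)]⟩ ⟨0,[(23,0),(0,0),(0,0)]⟩)) (by decide +kernel) (by decide +kernel) cl30 (.t t30 ok30)

theorem cl32 : Clo K (Helper55.TR.GT 1 Helper55.TR.BrU) r38 :=
  .i [n0,n1,n0,n0,n0,n0,n0,n0,n0,n1] (e' := [n1,m1,n0,n0,n0,n0,n0,n0,n0,m1]) (by decide +kernel) (by decide +kernel)
  (.t t26 ok26) cl31

theorem cl33 : Clo K (Helper55.TR.GT 1 Helper55.TR.BrU) r34 :=
  .i [n1,n0,n1,n1,n0,n0,n0,m2,n0,m1] (e' := [n0,n0,m1,m1,n0,n0,n0,n2,n0,n1]) (by decide +kernel)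
  (by decide +kernel) (.t t25 ok25) cl32

theorem cl34 : Clo K (Helper55.TR.GT 1 Helper55.TR.BrU) l33 :=
  .i [n0,n0,n1,n1,n0,n0,n0,m2,n0,m1] (e' := [n1,n0,m1,m1,n0,n0,n0,n2,n0,n1]) (by decide +kernel)
  (by decide +kernel) cl25 cl33

theorem cl35 : Clo K (Helper55.TR.GT 1 Helper55.TR.BrU) r31 :=
  .i [n0,n0,n1,n0,n0,n0,n0,m2,n0,m1] (e' := [n1,n0,m1,n0,n0,n0,n0,n2,n0,n1]) (by decide +kernel) (by decide +kernel)
  cl34 (.h (Helper55.TR.GT.lJ Helper55.CD.Dm1_1_c6u_87_14.g 196349503386749562278854281305108352300228992648547215361149366439475294577168344624172368636265947513035647589775445422192501990919966436039170577031001869294498919485443 (by decide +kernel)))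

theorem cl36 : Clo K (Helper55.TR.GT 1 Helper55.TR.BrU) r20 :=
  .q [n0,n0,n0,n0,n0,n1,n0,n0,n0,n0,n1,m1,m1] (e' := [n0,n0,n0,n0,n0,m1,n0,n0,n0,n0,m1,n1,n1]) (.p false [-1,0,1,1] []
  (⟨0,[(0,0)]⟩,⟨0,[(25,0),(5,0)]⟩) .k 0 (⟨0,[]⟩,⟨0,[]⟩) .k (.r 0 ⟨1,[(0,0),(3,0),(6,1),(21,0),(4,0),
  (0,2),(0,1),(2,1)]⟩ ⟨1,[(9,0),(0,0),(2,1),(0,1),(0,0),(1,0),(0,1)]⟩)) (by decide +kernel)
  (by decide +kernel) cl22 cl35

theorem cl37 : Clo K (Helper55.TR.GT 1 Helper55.TR.BrU) r7 :=
  .q [n0,n0,n0,n0,n0,n0,n0,n0,n0,n0,n1,m1,m1] (e' := [n0,n0,n0,n0,n0,n0,n0,n0,n0,n0,m1,n1,n1]) (.ed true [0,0,1,1] (.r 0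
  ⟨1,[(3,0),(6,1),(21,0),(4,0),(0,2),(0,0),(2,1),(2,0)]⟩ ⟨1,[(8,0),(0,0),(2,1),(0,1),(0,0),(1,0),(0,
  1)]⟩)) (by decide +kernel) (by decide +kernel) cl21 cl36

theorem cl38 : Clo K (Helper55.TR.GT 1 Helper55.TR.BrU) r6 :=
  .i [n0,n0,n1,n0,n0,n1,n1,n0,m1] (e' := [n1,n0,m1,n0,n0,m1,m1,n0,n1]) (by decide +kernel) (by decide +kernel)
  cl11 cl37

theorem cl39 : Clo K (Helper55.TR.GT 1 Helper55.TR.BrU) r5 :=
  .q [n0,n0,n0,n0,n0,n0,n1,n1,m1,m1,n1,n1,m1] (e' := [n0,n0,n0,n0,n0,n0,m1,m1,n1,n1,m1,m1,n1]) (.p false [0,0,-1,1]
  [1] (⟨0,[(2,0)]⟩,⟨0,[(23,0),(4,0)]⟩) .k 1 (⟨0,[]⟩,⟨0,[]⟩) .k (.r (-1) ⟨11,[(7,8),(0,11),(3,2),(1,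
  3),(4,3),(0,1),(6,3)]⟩ ⟨0,[(15,0),(0,0),(0,0)]⟩)) (by decide +kernel) (by decide +kernel) (.t t5
  ok5) cl38

theorem cl40 : Clo K (Helper55.TR.GT 1 Helper55.TR.BrU) r4 :=
  .q [n0,n1,n0,m2,n0,n0,n1,n1,n1,n1,m1,n1,n1] (e' := [n0,m1,n0,n2,n0,n0,m1,m1,m1,m1,n1,m1,m1]) (.p true [0,0,1] [1,0,
  0,-1] (⟨0,[(22,0)]⟩,⟨0,[(21,0)]⟩) .k 2 (⟨0,[(27,0)]⟩,⟨0,[(24,0)]⟩) .k (.r 0 ⟨1,[(0,0),(6,1),(21,
  0),(4,0),(0,2),(0,0),(2,1),(2,0)]⟩ ⟨1,[(5,0),(0,0),(2,1),(0,1),(0,0),(1,0),(0,1)]⟩))
  (by decide +kernel) (by decide +kernel) (.t t4 ok4) cl39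

theorem cl41 : Clo K (Helper55.TR.GT 1 Helper55.TR.BrU) l3 :=
  .q [n0,n0,n0,n0,n0,n1,n0,n0,n0,n0,n0,n1,m1] (e' := [n0,n0,n0,n0,n0,m1,n0,n0,n0,n0,n0,m1,n1]) (.p false [0,0,-1,1] [] (⟨0,
  [(0,0)]⟩,⟨0,[(21,0),(4,0)]⟩) .k 0 (⟨0,[]⟩,⟨0,[]⟩) .k (.r (-1) ⟨11,[(5,8),(0,11),(3,2),(1,3),(4,3),
  (0,1),(6,3)]⟩ ⟨0,[(13,0),(0,0),(0,0)]⟩)) (by decide +kernel) (by decide +kernel) (.t t3 ok3) cl40

theorem cl42 : Clo K (Helper55.TR.GT 1 Helper55.TR.BrU) r53 :=
  .q [n0,n0,n0,n0,n0,n2,n0,n0,n0,n0,n0,n0,m1] (e' := [n0,n0,n0,n0,n0,m2,n0,n0,n0,n0,n0,n0,n1]) (.p false [0,0,0,1] [] (⟨0,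
  [(31,0)]⟩,⟨0,[(34,0)]⟩) .k 0 (⟨0,[]⟩,⟨0,[]⟩) .k .k) (by decide +kernel) (by decide +kernel) (.t
  t36 ok36) (.h (Helper55.TR.GT.lb Helper55.CD.Dm1_1_c6u_87_15.g 241780650456348346465589049234593256666979800859022052111236312241440987045957739142290960064694324207613059899104212957338521023146720983414725176372301785752962305412096 (by decide +kernel)))

theorem cl43 : Clo K (Helper55.TR.GT 1 Helper55.TR.BrU) l52 :=
  .q [n0,m1,n0,m2,n0,n0,m1,m1,n1,n1,n0,m1,n1] (e' := [n0,n1,n0,n2,n0,n0,n1,n1,m1,m1,n0,n1,m1]) (.p true [1,0,-1,1]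
  [1] (⟨0,[(27,0),(2,0)]⟩,⟨0,[(7,0)]⟩) .k 1 (⟨0,[]⟩,⟨0,[]⟩) .k (.r (-1) ⟨11,[(4,1),(7,8),(0,9),(3,
  2),(1,3),(4,5),(7,3)]⟩ ⟨0,[(20,0),(0,0),(0,0)]⟩)) (by decide +kernel) (by decide +kernel) (.t t35
  ok35) cl42

theorem cl44 : Clo K (Helper55.TR.GT 1 Helper55.TR.BrU) r52 :=
  .q [n0,n0,n0,n0,n0,n2,n0,n0,n0,n0,n0,n0,m1] (e' := [n0,n0,n0,n0,n0,m2,n0,n0,n0,n0,n0,n0,n1]) (.p false [0,0,0,1] [] (⟨0,
  [(30,0)]⟩,⟨0,[(33,0)]⟩) .k 0 (⟨0,[]⟩,⟨0,[]⟩) .k .k) (by decide +kernel) (by decide +kernel) (.t
  t37 ok37) (.h (Helper55.TR.GT.lJ Helper55.CD.Dm1_1_c6u_87_16.g 305581784501625032548090314985001825074269997006387644884942667904043832024198314707237349423669925459980689060590371184221942415736518067281611900037944958920369681181237269 (by decide +kernel)))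

theorem cl45 : Clo K (Helper55.TR.GT 1 Helper55.TR.BrU) r51 :=
  .q [n0,n0,n2,n0,m1,n0,m1,n0,n1,n0,n0,m1,n1] (e' := [n0,n0,m2,n0,n1,n0,n1,n0,m1,n0,n0,n1,m1]) (.p true [1,0,-1,1] [1]
  (⟨0,[(26,0),(2,0)]⟩,⟨0,[(6,0)]⟩) .k 1 (⟨0,[]⟩,⟨0,[]⟩) .k (.r (-1) ⟨11,[(3,1),(7,8),(0,9),(3,2),(1,
  3),(4,5),(7,3)]⟩ ⟨0,[(19,0),(0,0),(0,0)]⟩)) (by decide +kernel) (by decide +kernel) cl43 cl44

theorem cl46 : Clo K (Helper55.TR.GT 1 Helper55.TR.BrU) r50 :=
  .q [n0,n0,n0,m2,n0,n0,n1,n1,m1,m1,n0,n1,m1] (e' := [n0,n0,n0,n2,n0,n0,m1,m1,n1,n1,n0,m1,n1]) (.p false [1,0,-1,1]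
  [1] (⟨0,[(25,0),(2,0)]⟩,⟨0,[(5,0)]⟩) .k 1 (⟨0,[]⟩,⟨0,[]⟩) .k (.r (-1) ⟨11,[(2,1),(7,8),(0,9),(3,
  2),(1,3),(4,5),(7,3)]⟩ ⟨0,[(18,0),(0,0),(0,0)]⟩)) (by decide +kernel) (by decide +kernel) (.t t34
  ok34) cl45

theorem cl47 : Clo K (Helper55.TR.GT 1 Helper55.TR.BrU) r49 :=
  .q [n0,n0,m1,n0,n0,n0,m2,n0,m1,n0,n1,m2,m1] (e' := [n0,n0,n1,n0,n0,n0,n2,n0,n1,n0,m1,n2,n1]) (.p false [0,0,1] [1,0,
  -1,-1] (⟨0,[(25,0)]⟩,⟨0,[(24,0)]⟩) .k 2 (⟨0,[(2,0)]⟩,⟨0,[(25,0),(1,0)]⟩) .k (.r 0 ⟨0,[(10,0),(6,
  0),(5,1)]⟩ ⟨11,[(3,11),(5,8),(4,2),(1,3),(4,3),(0,1),(6,3)]⟩)) (by decide +kernel)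
  (by decide +kernel) (.t t33 ok33) cl46

theorem cl48 : Clo K (Helper55.TR.GT 1 Helper55.TR.BrU) r48 :=
  .q [n0,m1,n0,m1,n0,n0,n0,n0,m1,m1,n1,n0,m1] (e' := [n0,n1,n0,n1,n0,n0,n0,n0,n1,n1,m1,n0,n1]) (.p false [0,0,0,1] [1]
  (⟨0,[(26,0)]⟩,⟨0,[(29,0)]⟩) .k 1 (⟨0,[]⟩,⟨0,[]⟩) .k .k) (by decide +kernel) (by decide +kernel)
  (.t t32 ok32) cl47

theorem cl49 : Clo K (Helper55.TR.GT 1 Helper55.TR.BrU) l47 :=
  .i [n1,n1,m1,n0,n0,n0,n0,n1,n0,m1] (e' := [n0,m1,n1,n0,n0,n0,n0,m1,n0,n1]) (by decide +kernel)
  (by decide +kernel) (.t t31 ok31) cl48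

theorem cl50 : Clo K (Helper55.TR.GT 1 Helper55.TR.BrU) r60 :=
  .q [n0,m1,n0,m2,n0,n0,m1,m1,n1,n1,n0,m1,n1] (e' := [n0,n1,n0,n2,n0,n0,n1,n1,m1,m1,n0,n1,m1]) (.p true [1,0,-1,1]
  [1] (⟨0,[(27,0),(2,0)]⟩,⟨0,[(7,0)]⟩) .k 1 (⟨0,[]⟩,⟨0,[]⟩) .k (.r (-1) ⟨11,[(12,8),(0,11),(3,2),(1,
  3),(4,3),(0,1),(6,3)]⟩ ⟨0,[(20,0),(0,0),(0,0)]⟩)) (by decide +kernel) (by decide +kernel) (.t t42
  ok42) (.h (Helper55.TR.GT.lJ Helper55.CD.Dm1_1_c6u_87_17.g 255339029952620241111084950312308016193300040251194375127066628200338266443967439967418427915735536699229671340291036631258985348080427646716990277135670244450701866296163378 (by decide +kernel)))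

theorem cl51 : Clo K (Helper55.TR.GT 1 Helper55.TR.BrU) r59 :=
  .q [n0,n0,n0,m1,n0,n0,n1,n1,m1,m1,n0,n1,m1] (e' := [n0,n0,n0,n1,n0,n0,m1,m1,n1,n1,n0,m1,n1]) (.p false [1,0,-1,1]
  [1] (⟨0,[(26,0),(2,0)]⟩,⟨0,[(6,0)]⟩) .k 1 (⟨0,[]⟩,⟨0,[]⟩) .k (.r (-1) ⟨11,[(11,8),(0,11),(3,2),(1,
  3),(4,3),(0,1),(6,3)]⟩ ⟨0,[(19,0),(0,0),(0,0)]⟩)) (by decide +kernel) (by decide +kernel) (.t t41
  ok41) cl50

theorem cl52 : Clo K (Helper55.TR.GT 1 Helper55.TR.BrU) r58 :=
  .q [n0,n0,n0,n0,n0,n1,n0,n0,n0,n0,n0,m1,n1] (e' := [n0,n0,n0,n0,n0,m1,n0,n0,n0,n0,n0,n1,m1]) (.p true [1,0,-1,1] [1] (⟨0,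
  [(25,0),(2,0)]⟩,⟨0,[(5,0)]⟩) .k 1 (⟨0,[]⟩,⟨0,[]⟩) .k (.r (-1) ⟨11,[(10,8),(0,11),(3,2),(1,3),(4,
  3),(0,1),(6,3)]⟩ ⟨0,[(18,0),(0,0),(0,0)]⟩)) (by decide +kernel) (by decide +kernel) (.t t40 ok40)
  cl51

theorem cl53 : Clo K (Helper55.TR.GT 1 Helper55.TR.BrU) l57 :=
  .q [n0,n0,m1,n0,n0,n0,m2,n0,m1,n0,n2,m2,m1] (e' := [n0,n0,n1,n0,n0,n0,n2,n0,n1,n0,m2,n2,n1]) (.p false [0,0,1] [2,0,
  -1,-1] (⟨0,[(25,0)]⟩,⟨0,[(24,0)]⟩) .k 2 (⟨0,[(0,0),(46,0)]⟩,⟨0,[(2,0)]⟩) .k (.r 0 ⟨0,[(10,0),(6,
  0),(5,1)]⟩ ⟨11,[(3,11),(5,8),(4,2),(1,3),(4,3),(0,1),(6,3)]⟩)) (by decide +kernel)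
  (by decide +kernel) (.t t39 ok39) cl52

theorem cl54 : Clo K (Helper55.TR.GT 1 Helper55.TR.BrU) r57 :=
  .q [n0,n0,m1,n0,n0,n0,m2,n0,m1,n0,n2,m2,m1] (e' := [n0,n0,n1,n0,n0,n0,n2,n0,n1,n0,m2,n2,n1]) (.p false [0,0,1] [2,0,
  -1,-1] (⟨0,[(25,0)]⟩,⟨0,[(24,0)]⟩) .k 2 (⟨0,[(24,0),(5,0)]⟩,⟨0,[(2,0)]⟩) .k (.r 0 ⟨0,[(10,0),(6,
  0),(5,1)]⟩ ⟨11,[(3,11),(5,8),(4,2),(1,3),(4,3),(0,1),(6,3)]⟩)) (by decide +kernel)
  (by decide +kernel) (.t t43 ok43) (.h (Helper55.TR.GT.lJ Helper55.CD.Dm1_1_c6u_87_18.g 262838737924795469411663377325951244880096141069696899096421490226229553587818931334887773386330017809202636511613206180992142919632920650582676341742688609895454721 (by decide +kernel)))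

theorem cl55 : Clo K (Helper55.TR.GT 1 Helper55.TR.BrU) r56 :=
  .q [n0,n0,n0,n0,n0,n1,n0,n0,n0,n0,n1,m1,m1] (e' := [n0,n0,n0,n0,n0,m1,n0,n0,n0,n0,m1,n1,n1]) (.p false [-1,0,1,1] []
  (⟨0,[(1,0)]⟩,⟨0,[(23,0),(5,0)]⟩) .k 0 (⟨0,[]⟩,⟨0,[]⟩) .k (.r 0 ⟨1,[(1,0),(1,0),(5,1),(21,0),(4,0),
  (0,3),(3,1),(0,1)]⟩ ⟨0,[(2,0),(5,0),(7,0)]⟩)) (by decide +kernel) (by decide +kernel) cl53 cl54

theorem cl56 : Clo K (Helper55.TR.GT 1 Helper55.TR.BrU) r47 :=
  .q [n0,n1,n0,m2,n0,n0,n1,n1,n1,n1,m1,n1,n1] (e' := [n0,m1,n0,n2,n0,n0,m1,m1,m1,m1,n1,m1,m1]) (.p true [-1,0,1,1]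
  [] (⟨0,[(0,0)]⟩,⟨0,[(22,0),(5,0)]⟩) .k 0 (⟨0,[]⟩,⟨0,[]⟩) .k (.r 0 ⟨1,[(0,0),(1,0),(5,1),(21,0),(4,
  0),(0,3),(3,1),(0,1)]⟩ ⟨0,[(1,0),(5,0),(7,0)]⟩)) (by decide +kernel) (by decide +kernel) (.t t38
  ok38) cl55

theorem cl57 : Clo K (Helper55.TR.GT 1 Helper55.TR.BrU) l46 :=
  .q [n0,n0,n0,n0,n0,n0,n0,n0,n0,n0,n1,m1,m1] (e' := [n0,n0,n0,n0,n0,n0,n0,n0,n0,n0,m1,n1,n1]) (.ed true [0,0,1,1] (.r 0
  ⟨1,[(1,0),(0,0),(4,1),(21,0),(4,0),(0,2),(3,1),(0,0)]⟩ ⟨0,[(0,0),(5,0),(7,0)]⟩))
  (by decide +kernel) (by decide +kernel) cl49 cl56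

theorem cl58 : Clo K (Helper55.TR.GT 1 Helper55.TR.BrU) l72 :=
  .i [n0,n1,n0,n0,n0,n0,n0,n0,n0,n1] (e' := [n1,m1,n0,n0,n0,n0,n0,n0,n0,m1]) (by decide +kernel) (by decide +kernel)
  (.t t48 ok48) (.h (Helper55.TR.GT.l1 Helper55.CD.Dm1_1_c6u_87_20.g 83188344329411299670658146361737594743167197490358807007143591982572367247709470230600515664756849199153649405588419134519403775302937797446234047879920036681875726549654718534 (by decide +kernel)))

theorem cl59 : Clo K (Helper55.TR.GT 1 Helper55.TR.BrU) l74 :=
  .q [n0,m1,n0,m2,n0,n0,m1,m1,n1,n1,n0,m1,n1] (e' := [n0,n1,n0,n2,n0,n0,n1,n1,m1,m1,n0,n1,m1]) (.p true [1,0,-1,1]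
  [1] (⟨0,[(32,0),(2,0)]⟩,⟨0,[(12,0)]⟩) .k 1 (⟨0,[]⟩,⟨0,[]⟩) .k (.r (-1) ⟨3,[(4,1),(12,2),(0,1),(3,
  0),(2,3)]⟩ ⟨3,[(8,1),(7,0),(7,0),(1,1)]⟩)) (by decide +kernel) (by decide +kernel) (.t t49 ok49)
  (.h (Helper55.TR.GT.lb Helper55.CD.Dm1_1_c6u_87_21.g 85171034873648896811999848486196631803197905718383516080310282758378398148238345912479486468736467566476513731886433716855414176339557031228996465889816815590195647497633812 (by decide +kernel)))

theorem cl60 : Clo K (Helper55.TR.GT 1 Helper55.TR.BrU) r72 :=
  .q [n0,m1,n1,n0,n0,n0,n0,m1,m1,n0,n0,n0,m1] (e' := [n0,n1,m1,n0,n0,n0,n0,n1,n1,n0,n0,n0,n1]) (.p false [0,0,0,1] []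
  (⟨0,[(34,0)]⟩,⟨0,[(37,0)]⟩) .k 0 (⟨0,[]⟩,⟨0,[]⟩) .k .k) (by decide +kernel) (by decide +kernel)
  cl59 (.t t50 ok50)

theorem cl61 : Clo K (Helper55.TR.GT 1 Helper55.TR.BrU) r71 :=
  .q [n0,n0,m1,n0,n0,n0,m1,n0,n1,n0,n0,m1,n1] (e' := [n0,n0,n1,n0,n0,n0,n1,n0,m1,n0,n0,n1,m1]) (.p true [1,0,-1,1] [1]
  (⟨0,[(30,0),(2,0)]⟩,⟨0,[(10,0)]⟩) .k 1 (⟨0,[]⟩,⟨0,[]⟩) .k (.r (-1) ⟨3,[(2,1),(12,2),(0,1),(3,0),
  (2,3)]⟩ ⟨3,[(6,1),(7,0),(7,0),(1,1)]⟩)) (by decide +kernel) (by decide +kernel) cl58 cl60

theorem cl62 : Clo K (Helper55.TR.GT 1 Helper55.TR.BrU) r70 :=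
  .q [n0,n0,n0,n0,n0,n2,n0,n0,n0,n0,n0,n0,m1] (e' := [n0,n0,n0,n0,n0,m2,n0,n0,n0,n0,n0,n0,n1]) (.p false [0,0,0,1] [] (⟨0,
  [(32,0)]⟩,⟨0,[(35,0)]⟩) .k 0 (⟨0,[]⟩,⟨0,[]⟩) .k .k) (by decide +kernel) (by decide +kernel) (.t
  t47 ok47) cl61

theorem cl63 : Clo K (Helper55.TR.GT 1 Helper55.TR.BrU) l69 :=
  .q [n0,n0,n0,m2,n0,n0,n1,n1,m2,m2,n0,n1,m2] (e' := [n0,n0,n0,n2,n0,n0,m1,m1,n2,n2,n0,m1,n2]) (.p false [0,0,0,1] [0,
  0,1,-1] (⟨0,[(31,0)]⟩,⟨0,[(34,0)]⟩) .k 2 (⟨0,[(8,0)]⟩,⟨0,[(28,0),(2,0)]⟩) .k (.r (-1) ⟨3,[(0,1),
  (12,2),(0,5),(3,0)]⟩ ⟨2,[(4,2),(7,0),(7,0),(1,0),(2,0),(0,0)]⟩)) (by decide +kernel)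
  (by decide +kernel) (.t t46 ok46) cl62

theorem cl64 : Clo K (Helper55.TR.GT 1 Helper55.TR.BrU) r68 :=
  .i [n0,n0,n1,n1,n0,n0,n0,m1,n0,n1] (e' := [n1,n0,m1,m1,n0,n0,n0,n1,n0,m1]) (by decide +kernel)
  (by decide +kernel) cl63 (.t t51 ok51)

theorem cl65 : Clo K (Helper55.TR.GT 1 Helper55.TR.BrU) r67 :=
  .i [n1,n0,n1,n1,n0,n0,n0,m2,n0,m1] (e' := [n0,n0,m1,m1,n0,n0,n0,n2,n0,n1]) (by decide +kernel)
  (by decide +kernel) (.t t45 ok45) cl64

theorem cl66 : Clo K (Helper55.TR.GT 1 Helper55.TR.BrU) l66 :=
  .q [n0,n0,n0,m1,n0,n0,n1,n1,m2,m2,n0,n1,m2] (e' := [n0,n0,n0,n1,n0,n0,m1,m1,n2,n2,n0,m1,n2]) (.p false [0,0,0,1] [0,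
  0,1,-1] (⟨0,[(28,0)]⟩,⟨0,[(31,0)]⟩) .k 2 (⟨0,[(5,0)]⟩,⟨0,[(25,0),(2,0)]⟩) .k (.r (-1) ⟨3,[(10,2),
  (0,7),(3,0),(7,1)]⟩ ⟨2,[(1,2),(7,0),(7,0),(1,0),(2,0),(0,0)]⟩)) (by decide +kernel)
  (by decide +kernel) (.t t44 ok44) cl65

theorem cl67 : Clo K (Helper55.TR.GT 1 Helper55.TR.BrU) l65 :=
  .q [n0,n0,m1,n0,n0,n0,m1,n0,n2,n0,n0,m1,n2] (e' := [n0,n0,n1,n0,n0,n0,n1,n0,m2,n0,n0,n1,m2]) (.p true [0,0,0,1] [0,0,1,
  -1] (⟨0,[(27,0)]⟩,⟨0,[(30,0)]⟩) .k 2 (⟨0,[(4,0)]⟩,⟨0,[(24,0),(2,0)]⟩) .k (.r (-1) ⟨3,[(9,2),(0,7),
  (3,0),(7,1)]⟩ ⟨2,[(0,2),(7,0),(7,0),(1,0),(2,0),(0,0)]⟩)) (by decide +kernel) (by decide +kernel)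
  cl66 (.t t52 ok52)

theorem cl68 : Clo K (Helper55.TR.GT 1 Helper55.TR.BrU) r79 :=
  .i [n0,n0,n1,n0,n0,n1,n1,n0,m2] (e' := [n1,n0,m1,n0,n0,m1,m1,n0,n2]) (by decide +kernel) (by decide +kernel)
  (.t t56 ok56) (.h (Helper55.TR.GT.lJ Helper55.CD.Dm1_1_c6u_87_22.g 139365160920106569244315864606583062837724448637601104364629185584792396340618114605840809677901853061848846746560599193262553297004237086410845463365553237213534249417772033 (by decide +kernel)))

theorem cl69 : Clo K (Helper55.TR.GT 1 Helper55.TR.BrU) r78 :=
  .q [n0,n0,n0,n0,n0,n2,n0,n0,n0,n0,n0,n0,m1] (e' := [n0,n0,n0,n0,n0,m2,n0,n0,n0,n0,n0,n0,n1]) (.p false [0,0,0,1] [] (⟨0,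
  [(30,0)]⟩,⟨0,[(33,0)]⟩) .k 0 (⟨0,[]⟩,⟨0,[]⟩) .k .k) (by decide +kernel) (by decide +kernel) (.t
  t55 ok55) cl68

theorem cl70 : Clo K (Helper55.TR.GT 1 Helper55.TR.BrU) l77 :=
  .i [n0,n0,m1,n0,n0,m1,m1,n0,n2] (e' := [n1,n0,n1,n0,n0,n1,n1,n0,m2]) (by decide +kernel) (by decide +kernel)
  (.t t54 ok54) cl69

theorem cl71 : Clo K (Helper55.TR.GT 1 Helper55.TR.BrU) r84 :=
  .q [n0,m1,n0,m2,n0,n0,m1,m1,n1,n1,n0,m1,n1] (e' := [n0,n1,n0,n2,n0,n0,n1,n1,m1,m1,n0,n1,m1]) (.p true [1,0,-1,1]
  [1] (⟨0,[(30,0),(2,0)]⟩,⟨0,[(10,0)]⟩) .k 1 (⟨0,[]⟩,⟨0,[]⟩) .k (.r (-1) ⟨3,[(6,1),(8,2),(4,0),(2,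
  5)]⟩ ⟨12,[(3,4),(3,0),(6,0),(4,9),(4,9),(0,3),(9,3)]⟩)) (by decide +kernel) (by decide +kernel)
  (.t t60 ok60) (.h (Helper55.TR.GT.lJ Helper55.CD.Dm1_1_c6u_87_23.g 81445990103311149095850026356421707905366083719105709997152648869555564307168417762910207238577699285080648267563211036554168561573177876824496192979478825592241886686365765 (by decide +kernel)))

theorem cl72 : Clo K (Helper55.TR.GT 1 Helper55.TR.BrU) r83 :=
  .q [n0,n0,n0,n0,n0,n2,n0,n0,n0,n0,n0,n0,m1] (e' := [n0,n0,n0,n0,n0,m2,n0,n0,n0,n0,n0,n0,n1]) (.p false [0,0,0,1] [] (⟨0,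
  [(32,0)]⟩,⟨0,[(35,0)]⟩) .k 0 (⟨0,[]⟩,⟨0,[]⟩) .k .k) (by decide +kernel) (by decide +kernel) (.t
  t59 ok59) cl71

theorem cl73 : Clo K (Helper55.TR.GT 1 Helper55.TR.BrU) r82 :=
  .i [n0,n1,m1,m1,n0,n0,n0,n1,n0,m2] (e' := [n1,m1,n1,n1,n0,n0,n0,m1,n0,n2]) (by decide +kernel)
  (by decide +kernel) (.t t58 ok58) cl72

theorem cl74 : Clo K (Helper55.TR.GT 1 Helper55.TR.BrU) l81 :=
  .i [n1,n1,m1,n0,n0,n0,n0,n1,n0,m2] (e' := [n0,m1,n1,n0,n0,n0,n0,m1,n0,n2]) (by decide +kernel)
  (by decide +kernel) (.t t57 ok57) cl73

theorem cl75 : Clo K (Helper55.TR.GT 1 Helper55.TR.BrU) r87 :=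
  .q [n0,n0,n0,n0,n0,n1,n0,n0,n0,n0,n0,m1,n1] (e' := [n0,n0,n0,n0,n0,m1,n0,n0,n0,n0,n0,n1,m1]) (.p true [1,0,-1,1] [1] (⟨0,
  [(29,0),(2,0)]⟩,⟨0,[(9,0)]⟩) .k 1 (⟨0,[]⟩,⟨0,[]⟩) .k (.r (-1) ⟨3,[(5,1),(8,2),(4,0),(2,5)]⟩ ⟨19,
  [(1,4),(4,1),(6,6),(2,11),(0,9),(5,3),(0,11)]⟩)) (by decide +kernel) (by decide +kernel) (.t t62
  ok62) (.h (Helper55.TR.GT.lJ Helper55.CD.Dm1_1_c6u_87_24.g 81442241914119605781639821914437483399408812222364461059111220943776397393550075909811031358344687397651363788864513632185815403274779245430362965077089268115082838717500474 (by decide +kernel)))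

theorem cl76 : Clo K (Helper55.TR.GT 1 Helper55.TR.BrU) l86 :=
  .q [n0,n0,n0,m2,n0,n0,n1,n1,m2,m2,n0,n1,m2] (e' := [n0,n0,n0,n2,n0,n0,m1,m1,n2,n2,n0,m1,n2]) (.p false [0,0,0,1] [0,
  0,1,-1] (⟨0,[(31,0)]⟩,⟨0,[(34,0)]⟩) .k 2 (⟨0,[(8,0)]⟩,⟨0,[(28,0),(2,0)]⟩) .k (.r (-1) ⟨3,[(4,1),
  (8,2),(0,3),(3,0),(2,1)]⟩ ⟨1,[(0,0),(11,0),(2,1),(0,1),(6,1)]⟩)) (by decide +kernel)
  (by decide +kernel) (.t t61 ok61) cl75

theorem cl77 : Clo K (Helper55.TR.GT 1 Helper55.TR.BrU) r90 :=
  .q [n0,n0,n0,n0,n0,n1,n0,n0,n0,n0,n0,m1,n1] (e' := [n0,n0,n0,n0,n0,m1,n0,n0,n0,n0,n0,n1,m1]) (.p true [1,0,-1,1] [1] (⟨0,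
  [(30,0),(2,0)]⟩,⟨0,[(10,0)]⟩) .k 1 (⟨0,[]⟩,⟨0,[]⟩) .k (.r (-1) ⟨3,[(6,1),(8,2),(4,0),(2,5)]⟩ ⟨7,
  [(1,3),(12,0),(7,0),(1,3),(16,1)]⟩)) (by decide +kernel) (by decide +kernel) (.t t64 ok64) (.h
  (Helper55.TR.GT.lb Helper55.CD.Dm1_1_c6u_87_25.g 79389614631121552552168367941411579256596858079991981596145331540007866403743231993132090933466909954390060571186688367199481101623993883403356189102579563601912144074754 (by decide +kernel)))

theorem cl78 : Clo K (Helper55.TR.GT 1 Helper55.TR.BrU) l89 :=
  .q [n0,n0,n0,m2,n0,n0,n1,n1,m2,m2,n0,n1,m2] (e' := [n0,n0,n0,n2,n0,n0,m1,m1,n2,n2,n0,m1,n2]) (.p false [0,0,0,1] [0,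
  0,1,-1] (⟨0,[(32,0)]⟩,⟨0,[(35,0)]⟩) .k 2 (⟨0,[(9,0)]⟩,⟨0,[(29,0),(2,0)]⟩) .k (.r (-1) ⟨3,[(5,1),
  (8,2),(0,3),(3,0),(2,1)]⟩ ⟨7,[(0,7),(12,0),(7,0),(1,3),(3,3),(12,1)]⟩)) (by decide +kernel)
  (by decide +kernel) (.t t63 ok63) cl77

theorem cl79 : Clo K (Helper55.TR.GT 1 Helper55.TR.BrU) r89 :=
  .q [n0,n0,n0,n0,n0,n1,n0,n0,n0,n0,n0,m1,n1] (e' := [n0,n0,n0,n0,n0,m1,n0,n0,n0,n0,n0,n1,m1]) (.p true [1,0,-1,1] [1] (⟨0,
  [(29,0),(2,0)]⟩,⟨0,[(9,0)]⟩) .k 1 (⟨0,[]⟩,⟨0,[]⟩) .k (.r (-1) ⟨3,[(5,1),(8,2),(4,0),(2,5)]⟩ ⟨0,
  [(22,0),(0,0),(0,0)]⟩)) (by decide +kernel) (by decide +kernel) (.t t65 ok65) (.h (Helper55.TR.GT.lb Helper55.CD.Dm1_1_c6u_87_26.g 79386015496433936145731120088103212358034344163756471404924668690667508412397755675095185624854809299196755457270291537636208925090884325754893278873117598803639015624706 (by decide +kernel)))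

theorem cl80 : Clo K (Helper55.TR.GT 1 Helper55.TR.BrU) r86 :=
  .i [n1,n1,m1,m1,n0,n0,n0,n1,n0,m2] (e' := [n0,m1,n1,n1,n0,n0,n0,m1,n0,n2]) (by decide +kernel)
  (by decide +kernel) cl78 cl79

theorem cl81 : Clo K (Helper55.TR.GT 1 Helper55.TR.BrU) r81 :=
  .q [n0,n0,m1,n0,n0,n0,m1,n0,n2,n0,n0,m1,n2] (e' := [n0,n0,n1,n0,n0,n0,n1,n0,m2,n0,n0,n1,m2]) (.p true [0,0,0,1] [0,0,1,
  -1] (⟨0,[(30,0)]⟩,⟨0,[(33,0)]⟩) .k 2 (⟨0,[(7,0)]⟩,⟨0,[(27,0),(2,0)]⟩) .k (.r (-1) ⟨3,[(3,1),(8,2),
  (0,3),(3,0),(2,1)]⟩ ⟨1,[(15,0),(0,0),(3,2),(0,1),(0,2)]⟩)) (by decide +kernel)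
  (by decide +kernel) cl76 cl80

theorem cl82 : Clo K (Helper55.TR.GT 1 Helper55.TR.BrU) r77 :=
  .q [n0,n0,n0,m1,n0,n0,n1,n1,m2,m2,n0,n1,m2] (e' := [n0,n0,n0,n1,n0,n0,m1,m1,n2,n2,n0,m1,n2]) (.p false [0,0,0,1] [0,
  0,1,-1] (⟨0,[(29,0)]⟩,⟨0,[(32,0)]⟩) .k 2 (⟨0,[(6,0)]⟩,⟨0,[(26,0),(2,0)]⟩) .k (.r (-1) ⟨3,[(2,1),
  (8,2),(0,3),(3,0),(2,1)]⟩ ⟨1,[(14,0),(0,0),(3,2),(0,1),(0,2)]⟩)) (by decide +kernel)
  (by decide +kernel) cl74 cl81

theorem cl83 : Clo K (Helper55.TR.GT 1 Helper55.TR.BrU) r76 :=
  .i [n1,n0,m1,m1,n0,n0,n0,n1,n0,m2] (e' := [n0,n0,n1,n1,n0,n0,n0,m1,n0,n2]) (by decide +kernel)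
  (by decide +kernel) cl70 cl82

theorem cl84 : Clo K (Helper55.TR.GT 1 Helper55.TR.BrU) r65 :=
  .q [n0,n0,n0,m2,n0,n0,n1,n1,m1,m1,n0,n1,m1] (e' := [n0,n0,n0,n2,n0,n0,m1,m1,n1,n1,n0,m1,n1]) (.p false [1,0,-1,1]
  [1] (⟨0,[(24,0),(2,0)]⟩,⟨0,[(4,0)]⟩) .k 1 (⟨0,[]⟩,⟨0,[]⟩) .k (.r (-1) ⟨3,[(0,1),(8,2),(4,0),(2,
  5)]⟩ ⟨0,[(17,0),(0,0),(0,0)]⟩)) (by decide +kernel) (by decide +kernel) (.t t53 ok53) cl83

theorem cl85 : Clo K (Helper55.TR.GT 1 Helper55.TR.BrU) l64 :=
  .i [n0,n0,m1,m1,n0,n0,n0,n1,n0,m2] (e' := [n1,n0,n1,n1,n0,n0,n0,m1,n0,n2]) (by decide +kernel)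
  (by decide +kernel) cl67 cl84

theorem cl86 : Clo K (Helper55.TR.GT 1 Helper55.TR.BrU) l97 :=
  .q [n0,n0,n0,n0,n0,n2,n0,n0,n0,n0,n0,n0,m1] (e' := [n0,n0,n0,n0,n0,m2,n0,n0,n0,n0,n0,n0,n1]) (.p false [0,0,0,1] [] (⟨0,
  [(31,0)]⟩,⟨0,[(34,0)]⟩) .k 0 (⟨0,[]⟩,⟨0,[]⟩) .k .k) (by decide +kernel) (by decide +kernel) (.t
  t68 ok68) (.h (Helper55.TR.GT.l1 Helper55.CD.Dm1_1_c6u_87_27.g 142767900573524054437603248669266388266346793460439400344233406231263901372778757923073744679650471834452030821254194291148488854150082492839990473595133335487274310973951840258 (by decide +kernel)))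

theorem cl87 : Clo K (Helper55.TR.GT 1 Helper55.TR.BrU) r96 :=
  .q [n0,n0,m2,n0,n1,n0,n1,n0,m1,n0,n0,n1,m1] (e' := [n0,n0,n2,n0,m1,n0,m1,n0,n1,n0,n0,m1,n1]) (.p false [1,0,-1,1] [1]
  (⟨0,[(27,0),(2,0)]⟩,⟨0,[(7,0)]⟩) .k 1 (⟨0,[]⟩,⟨0,[]⟩) .k (.r (-1) ⟨5,[(4,1),(7,4),(0,7),(3,0),(2,
  1)]⟩ ⟨0,[(20,0),(0,0),(0,0)]⟩)) (by decide +kernel) (by decide +kernel) cl86 (.t t69 ok69)

theorem cl88 : Clo K (Helper55.TR.GT 1 Helper55.TR.BrU) l95 :=
  .q [n0,n0,n0,n0,n0,n1,n0,n0,n0,n0,n0,m1,n1] (e' := [n0,n0,n0,n0,n0,m1,n0,n0,n0,n0,n0,n1,m1]) (.p true [1,0,-1,1] [1] (⟨0,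
  [(26,0),(2,0)]⟩,⟨0,[(6,0)]⟩) .k 1 (⟨0,[]⟩,⟨0,[]⟩) .k (.r (-1) ⟨5,[(3,1),(7,4),(0,7),(3,0),(2,1)]⟩
  ⟨0,[(19,0),(0,0),(0,0)]⟩)) (by decide +kernel) (by decide +kernel) (.t t67 ok67) cl87

theorem cl89 : Clo K (Helper55.TR.GT 1 Helper55.TR.BrU) r94 :=
  .q [n0,m1,n1,n0,n0,n0,n0,m1,m1,n0,n0,n0,m1] (e' := [n0,n1,m1,n0,n0,n0,n0,n1,n1,n0,n0,n0,n1]) (.p false [0,0,0,1] []
  (⟨0,[(28,0)]⟩,⟨0,[(31,0)]⟩) .k 0 (⟨0,[]⟩,⟨0,[]⟩) .k .k) (by decide +kernel) (by decide +kernel)
  cl88 (.t t70 ok70)

theorem cl90 : Clo K (Helper55.TR.GT 1 Helper55.TR.BrU) l93 :=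
  .q [n0,n0,n0,m2,n0,n0,n1,n1,m1,m1,n0,n1,m1] (e' := [n0,n0,n0,n2,n0,n0,m1,m1,n1,n1,n0,m1,n1]) (.p false [1,0,-1,1]
  [1] (⟨0,[(24,0),(2,0)]⟩,⟨0,[(4,0)]⟩) .k 1 (⟨0,[]⟩,⟨0,[]⟩) .k (.r (-1) ⟨5,[(1,1),(7,4),(0,7),(3,0),
  (2,1)]⟩ ⟨0,[(17,0),(0,0),(0,0)]⟩)) (by decide +kernel) (by decide +kernel) (.t t66 ok66) cl89

theorem cl91 : Clo K (Helper55.TR.GT 1 Helper55.TR.BrU) l102 :=
  .i [n0,n1,n0,n0,n0,n0,n0,n0,n0,n1] (e' := [n1,m1,n0,n0,n0,n0,n0,n0,n0,m1]) (by decide +kernel) (by decide +kernel)
  (.t t72 ok72) (.h (Helper55.TR.GT.lb Helper55.CD.Dm1_1_c6u_87_28.g 258973153233854274281556270399387419065544629746607802692321663955617191276815415425828148422504825201887697239627093663313307300000455805730390334456335156039256598953118740 (by decide +kernel)))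

theorem cl92 : Clo K (Helper55.TR.GT 1 Helper55.TR.BrU) r101 :=
  .q [n0,n0,n0,n0,n0,m1,n0,n0,n0,n0,n0,n1,m1] (e' := [n0,n0,n0,n0,n0,n1,n0,n0,n0,n0,n0,m1,n1]) (.p false [1,0,-1,1] [1]
  (⟨0,[(27,0),(2,0)]⟩,⟨0,[(7,0)]⟩) .k 1 (⟨0,[]⟩,⟨0,[]⟩) .k (.r (-1) ⟨5,[(4,1),(7,4),(0,7),(3,0),(2,
  1)]⟩ ⟨2,[(3,0),(7,0),(2,1),(0,0),(5,0),(0,1)]⟩)) (by decide +kernel) (by decide +kernel) cl91 (.t
  t73 ok73)

theorem cl93 : Clo K (Helper55.TR.GT 1 Helper55.TR.BrU) l100 :=
  .i [n0,n0,n3,n0,m1,n3,n0,n0,n1] (e' := [n1,n0,m3,n0,n1,m3,n0,n0,m1]) (by decide +kernel) (by decide +kernel)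
  (.t t71 ok71) cl92

theorem cl94 : Clo K (Helper55.TR.GT 1 Helper55.TR.BrU) r105 :=
  .q [n0,n0,n0,n0,n0,n2,n0,n0,n0,n0,n0,n0,m1] (e' := [n0,n0,n0,n0,n0,m2,n0,n0,n0,n0,n0,n0,n1]) (.p false [0,0,0,1] [] (⟨0,
  [(31,0)]⟩,⟨0,[(34,0)]⟩) .k 0 (⟨0,[]⟩,⟨0,[]⟩) .k .k) (by decide +kernel) (by decide +kernel) (.t
  t76 ok76) (.h (Helper55.TR.GT.lJ Helper55.CD.Dm1_1_c6u_87_29.g 283331229163384842955760525719352682099334750731509713464227243641241215796104562707169396978679907370218020384696338524138834130805047959958067145451631494957913363973123 (by decide +kernel)))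

theorem cl95 : Clo K (Helper55.TR.GT 1 Helper55.TR.BrU) r104 :=
  .q [n0,n0,n2,n0,m1,n0,m1,n0,n1,n0,n0,m1,n1] (e' := [n0,n0,m2,n0,n1,n0,n1,n0,m1,n0,n0,n1,m1]) (.p true [1,0,-1,1] [1]
  (⟨0,[(27,0),(2,0)]⟩,⟨0,[(7,0)]⟩) .k 1 (⟨0,[]⟩,⟨0,[]⟩) .k (.r (-1) ⟨5,[(4,1),(7,4),(0,7),(3,0),(2,
  1)]⟩ ⟨2,[(3,0),(7,0),(2,1),(0,0),(5,0),(0,1)]⟩)) (by decide +kernel) (by decide +kernel) (.t t75
  ok75) cl94

theorem cl96 : Clo K (Helper55.TR.GT 1 Helper55.TR.BrU) r100 :=
  .q [n0,n0,n0,n0,n0,n1,n0,n0,n0,n0,n0,m1,n1] (e' := [n0,n0,n0,n0,n0,m1,n0,n0,n0,n0,n0,n1,m1]) (.p true [1,0,-1,1] [1] (⟨0,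
  [(26,0),(2,0)]⟩,⟨0,[(6,0)]⟩) .k 1 (⟨0,[]⟩,⟨0,[]⟩) .k (.r (-1) ⟨5,[(3,1),(7,4),(0,7),(3,0),(2,1)]⟩
  ⟨2,[(2,0),(7,0),(2,1),(0,0),(5,0),(0,1)]⟩)) (by decide +kernel) (by decide +kernel) (.t t74 ok74)
  cl95

theorem cl97 : Clo K (Helper55.TR.GT 1 Helper55.TR.BrU) l99 :=
  .i [n1,n0,m3,m3,n1,n0,n0,n0,n0,n1] (e' := [n0,n0,n3,n3,m1,n0,n0,n0,n0,m1]) (by decide +kernel)
  (by decide +kernel) cl93 cl96

theorem cl98 : Clo K (Helper55.TR.GT 1 Helper55.TR.BrU) l111 :=
  .i [n0,n1,n0,n0,n0,n0,n0,n0,n0,n1] (e' := [n1,m1,n0,n0,n0,n0,n0,n0,n0,m1]) (by decide +kernel) (by decide +kernel)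
  (.t t80 ok80) (.h (Helper55.TR.GT.lJ Helper55.CD.Dm1_1_c6u_87_30.g 143248432049525767679014717500608380170944831671097852401557543238878797876956354215034185560499938196534513152010479049746428916820124156448976709993560836819426209769195573 (by decide +kernel)))

theorem cl99 : Clo K (Helper55.TR.GT 1 Helper55.TR.BrU) r110 :=
  .q [n0,n0,n0,n0,n0,m1,n0,n0,n0,n0,n0,n1,m1] (e' := [n0,n0,n0,n0,n0,n1,n0,n0,n0,n0,n0,m1,n1]) (.p false [1,0,-1,1] [1]
  (⟨0,[(29,0),(2,0)]⟩,⟨0,[(9,0)]⟩) .k 1 (⟨0,[]⟩,⟨0,[]⟩) .k (.r (-1) ⟨5,[(6,1),(7,4),(0,7),(3,0),(2,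
  1)]⟩ ⟨2,[(5,0),(7,0),(2,1),(0,0),(5,0),(0,1)]⟩)) (by decide +kernel) (by decide +kernel) cl98 (.t
  t81 ok81)

theorem cl100 : Clo K (Helper55.TR.GT 1 Helper55.TR.BrU) l109 :=
  .q [n0,n0,n0,n0,n0,n2,n0,n0,n0,n0,n0,n0,m1] (e' := [n0,n0,n0,n0,n0,m2,n0,n0,n0,n0,n0,n0,n1]) (.p false [0,0,0,1] [] (⟨0,
  [(31,0)]⟩,⟨0,[(34,0)]⟩) .k 0 (⟨0,[]⟩,⟨0,[]⟩) .k .k) (by decide +kernel) (by decide +kernel) (.t
  t79 ok79) cl99

theorem cl101 : Clo K (Helper55.TR.GT 1 Helper55.TR.BrU) r108 :=
  .q [n0,n0,m2,n0,n1,n0,n1,n0,m1,n0,n0,n1,m1] (e' := [n0,n0,n2,n0,m1,n0,m1,n0,n1,n0,n0,m1,n1]) (.p false [1,0,-1,1] [1]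
  (⟨0,[(27,0),(2,0)]⟩,⟨0,[(7,0)]⟩) .k 1 (⟨0,[]⟩,⟨0,[]⟩) .k (.r (-1) ⟨5,[(4,1),(7,4),(0,7),(3,0),(2,
  1)]⟩ ⟨2,[(3,0),(7,0),(2,1),(0,0),(5,0),(0,1)]⟩)) (by decide +kernel) (by decide +kernel) cl100
  (.t t82 ok82)

theorem cl102 : Clo K (Helper55.TR.GT 1 Helper55.TR.BrU) r107 :=
  .q [n0,n0,n0,m2,n0,n0,n1,n1,m2,m2,n0,n1,m2] (e' := [n0,n0,n0,n2,n0,n0,m1,m1,n2,n2,n0,m1,n2]) (.p false [0,0,0,1] [0,
  0,1,-1] (⟨0,[(29,0)]⟩,⟨0,[(32,0)]⟩) .k 2 (⟨0,[(6,0)]⟩,⟨0,[(26,0),(2,0)]⟩) .k (.r (-1) ⟨3,[(11,2),
  (0,7),(3,0),(7,1)]⟩ ⟨1,[(2,0),(7,0),(2,1),(0,1),(0,0),(5,1)]⟩)) (by decide +kernel)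
  (by decide +kernel) (.t t78 ok78) cl101

theorem cl103 : Clo K (Helper55.TR.GT 1 Helper55.TR.BrU) r99 :=
  .q [n0,n0,n0,m1,n0,n0,n1,n1,m2,m2,n0,n1,m2] (e' := [n0,n0,n0,n1,n0,n0,m1,m1,n2,n2,n0,m1,n2]) (.p false [0,0,0,1] [0,
  0,1,-1] (⟨0,[(28,0)]⟩,⟨0,[(31,0)]⟩) .k 2 (⟨0,[(5,0)]⟩,⟨0,[(25,0),(2,0)]⟩) .k (.r (-1) ⟨3,[(10,2),
  (0,7),(3,0),(7,1)]⟩ ⟨1,[(1,0),(7,0),(2,1),(0,1),(0,0),(5,1)]⟩)) (by decide +kernel)
  (by decide +kernel) (.t t77 ok77) cl102

theorem cl104 : Clo K (Helper55.TR.GT 1 Helper55.TR.BrU) r93 :=
  .i [n1,n0,n3,n3,m1,n0,n0,n0,n0,m1] (e' := [n0,n0,m3,m3,n1,n0,n0,n0,n0,n1]) (by decide +kernel)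
  (by decide +kernel) cl97 cl103

theorem cl105 : Clo K (Helper55.TR.GT 1 Helper55.TR.BrU) r64 :=
  .q [n0,n0,n1,n0,n0,n0,n1,n0,m1,n0,n0,n1,m1] (e' := [n0,n0,m1,n0,n0,n0,m1,n0,n1,n0,n0,m1,n1]) (.p false [1,0,-1,1] [1]
  (⟨0,[(23,0),(2,0)]⟩,⟨0,[(3,0)]⟩) .k 1 (⟨0,[]⟩,⟨0,[]⟩) .k (.r (-1) ⟨5,[(0,1),(7,4),(0,7),(3,0),(2,
  1)]⟩ ⟨0,[(16,0),(0,0),(0,0)]⟩)) (by decide +kernel) (by decide +kernel) cl90 cl104

theorem cl106 : Clo K (Helper55.TR.GT 1 Helper55.TR.BrU) r63 :=
  .i [n1,n0,m1,m1,n0,n0,n0,n2,n0,n1] (e' := [n0,n0,n1,n1,n0,n0,n0,m2,n0,m1]) (by decide +kernel)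
  (by decide +kernel) cl85 cl105

theorem cl107 : Clo K (Helper55.TR.GT 1 Helper55.TR.BrU) r46 :=
  .q [n0,n0,n0,n0,n0,n0,n1,n1,m2,m2,n0,n1,m2] (e' := [n0,n0,n0,n0,n0,n0,m1,m1,n2,n2,n0,m1,n2]) (.p false [0,0,0,1] [0,0,
  1,-1] (⟨0,[(24,0)]⟩,⟨0,[(27,0)]⟩) .k 2 (⟨0,[(1,0)]⟩,⟨0,[(21,0),(2,0)]⟩) .k (.r (-1) ⟨3,[(6,2),(0,
  7),(3,0),(7,1)]⟩ ⟨1,[(9,0),(0,0),(3,2),(0,1),(0,2)]⟩)) (by decide +kernel) (by decide +kernel)
  (.h (Helper55.TR.GT.lb Helper55.CD.Dm1_1_c6u_87_19.g 83867633615287783319378677520366464953309666937499663902840208503201970921544464020223933581680419999525639077977095839209055614962471393043646970531459075 (by decide +kernel))) cl106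

theorem cl108 : Clo K (Helper55.TR.GT 1 Helper55.TR.BrU) r3 :=
  .i [n0,n1,n0,n0,n0,n0,n0,m1,n0,m1] (e' := [n1,m1,n0,n0,n0,n0,n0,n1,n0,n1]) (by decide +kernel) (by decide +kernel)
  cl57 cl107

theorem cl109 : Clo K (Helper55.TR.GT 1 Helper55.TR.BrU) r2 :=
  .q [n0,n0,n0,n0,n0,n0,n0,n0,n0,n0,n0,m1,n1] (e' := [n0,n0,n0,n0,n0,n0,n0,n0,n0,n0,n0,n1,m1]) (.ed false [1,0,-1,1] (.r
  (-1) ⟨11,[(4,8),(0,11),(3,2),(1,3),(4,3),(0,1),(6,3)]⟩ ⟨0,[(12,0),(0,0),(0,0)]⟩))
  (by decide +kernel) (by decide +kernel) cl41 cl108

theorem cl110 : Clo K (Helper55.TR.GT 1 Helper55.TR.BrU) r1 :=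
  .q [n0,n0,n0,n0,n0,n1,n0,n0,n0,n0,n0,n0,m1] (e' := [n0,n0,n0,n0,n0,m1,n0,n0,n0,n0,n0,n0,n1]) (.ed true [1,-1,0,1] .k)
  (by decide +kernel) (by decide +kernel) (.t t2 ok2) cl109

theorem cl111 : Clo K (Helper55.TR.GT 1 Helper55.TR.BrU) r0 :=
  .q [n0,n0,n0,n0,n0,n0,n0,n0,m1,n0,n1,n0,m1] (e' := [n0,n0,n0,n0,n0,n0,n0,n0,n1,n0,m1,n0,n1]) (.p false [0,0,0,1] [1] (⟨0,
  [(20,0)]⟩,⟨0,[(23,0)]⟩) .k 1 (⟨0,[]⟩,⟨0,[]⟩) .k .k) (by decide +kernel) (by decide +kernel) (.t
  t1 ok1) cl110

theorem cl112 : Clo K (Helper55.TR.GT 1 Helper55.TR.BrU) base :=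
  .q [n0,m1,n0,n0,n0,n0,n0,n0,m1,m1,n1,n0,m1] (e' := [n0,n1,n0,n0,n0,n0,n0,n0,n1,n1,m1,n0,n1]) (.p false [0,0,0,1] [1]
  (⟨0,[(19,0)]⟩,⟨0,[(22,0)]⟩) .k 1 (⟨0,[]⟩,⟨0,[]⟩) .k .k) (by decide +kernel) (by decide +kernel)
  (.t t0 ok0) cl111

theorem g : Helper55.TR.GT 1 Helper55.TR.BrU base :=
  Helper55.TR.GT.of cl112

end Helper55.CD.Dm1_1_c6u_87
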