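import Pool.Agent.Helper55.CE.S_m1_1_c0u_0
import Pool.Agent.Helper55.CE.H_m1_1_c0u_3
import Pool.Agent.Helper55.CE.H_m1_1_c0u_5
import Pool.Agent.Helper55.CE.H_m1_1_c0u_6
import Pool.Agent.Helper55.CE.H_m1_1_c0u_8
import Pool.Agent.Helper55.CE.H_m1_1_c0u_9
import Pool.Agent.Helper55.CE.H_m1_1_c0u_14
import Pool.Agent.Helper55.CE.H_m1_1_c0u_16
import Pool.Agent.Helper55.CE.S_m1_1_c0u_1
import Pool.Agent.Helper55.CE.H_m1_1_c0u_24
import Pool.Agent.Helper55.CE.H_m1_1_c0u_27
import Pool.Agent.Helper55.CE.H_m1_1_c0u_37
import Pool.Agent.Helper55.CE.H_m1_1_c0u_51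
import Pool.Agent.Helper55.CE.S_m1_1_c0u_2
import Pool.Agent.Helper55.CE.H_m1_1_c0u_53
import Pool.Agent.Helper55.CE.H_m1_1_c0u_65
import Pool.Agent.Helper55.CE.H_m1_1_c0u_66
import Pool.Agent.Helper55.CE.H_m1_1_c0u_67
import Pool.Agent.Helper55.CE.H_m1_1_c0u_68
import Pool.Agent.Helper55.CE.S_m1_1_c0u_4
import Pool.Agent.Helper55.CE.S_m1_1_c0u_3
import Pool.Agent.Helper55.CE.H_m1_1_c0u_82
import Pool.Agent.Helper55.CE.H_m1_1_c0u_84
import Pool.Agent.Helper55.CE.H_m1_1_c0u_88
import Pool.Agent.Helper55.CE.H_m1_1_c0u_89
import Pool.Agent.Helper55.CE.H_m1_1_c0u_95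
import Pool.Agent.Helper55.CE.H_m1_1_c0u_98
import Pool.Agent.Helper55.CE.H_m1_1_c0u_99
import Pool.Agent.Helper55.CE.H_m1_1_c0u_100
import Pool.Agent.Helper55.CE.H_m1_1_c0u_101
import Pool.Agent.Helper55.CE.H_m1_1_c0u_104
import Pool.Agent.Helper55.CE.H_m1_1_c0u_105
import Pool.Agent.Helper55.CE.H_m1_1_c0u_106
import Pool.Agent.Helper55.CE.S_m1_1_c0v_0
import Pool.Agent.Helper55.CE.S_m1_1_c0v_1
import Pool.Agent.Helper55.CE.H_m1_1_c0v_65
import Pool.Agent.Helper55.CE.S_m1_1_c0v_2
import Pool.Agent.Helper55.CE.H_m1_1_c0v_98
import Pool.Agent.Helper55.CE.S_m1_1_c0v_3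
import Pool.Agent.Helper55.TR.Num
import Pool.Agent.Helper81.PC.Sound
import Pool.Agent.Helper55.TR.Enc2

set_option autoImplicit false
set_option linter.all false

namespace Helper55.CD.Dm1_1_c0u

open Helper25.KG Helper25.KW Helper55.KE Helper11.CT Helper55.TR.Nm

noncomputable def K : Cls :=
  Helper55.TR.KK 1

noncomputable def base : List Con :=
  [(true,[n0,m2,n0,n0,n1]),
  (false,[n0,n0,n0,n0,n1,n0,n0,n0,m2]),
  (false,[n0,n1,n0,n0,n0,n0,n1,n1,n0,n1]),
  (false,[n0,n0,n1,n0,n0,n0,n1,n0,n0,n1]),
  (false,[n0,n0,n0,n0,n0,n0,n0,n0,n1,m1]),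
  (false,[n0,n0,n1,n0,n0,n0,m1,n0,n0,m1]),
  (false,[n0,n0,n0,n0,n0,n0,n1,n0,m1,n1]),
  (true,[n0,n0,m2,n0,n1]),
  (false,[n0,m1,n0,n0,n0,n0,m1,m1,n1,m1]),
  (false,[n0,n0,n0,n0,n0,n0,n0,n0,n0,n1]),
  (true,[n0,n1,n0,n1]),
  (true,[n0,n0,n0,m1]),
  (false,[n0,n0,m2,n0,n1,n0,n0,n0,m1]),
  (false,[n0,n1,n0,n0,n0,n0,m1,m1,n0,m1]),
  (true,[n0,n0,n1,n0,n0,n0,n0,n1]),
  (true,[n0,n0,n0,n0,n0,n1]),
  (true,[m1,n1]),
  (true,[n1,n0,n1,n1,n0,n0,n0,n1]),
  (false,[n0,n0,n0,n0,n0,n0,n1,n0,n0,n1]),
  (true,[n0,m1,n1,n0,n0,n0,n0,m1]),
  (false,[n0,n0,n0,n0,n0,n0,m1,m1,n0,m1]),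
  (false,[n0,m1,m1,n1,n1,n0,m1,n0,n0,m1]),
  (true,[n1,m2,n1]),
  (false,[n0,n0,n0,n0,n0,m1,n0,n0,n0,n1]),
  (true,[n0,n0,n0,m1,n0,n0,n0,m1]),
  (false,[n0,n0,n0,n1,n0,n0,m1,m1,n0,m1]),
  (true,[n0,n0,n0,n0,n0,n0,n0,m1]),
  (false,[n0,n0,n0,n0,n0,m1,n0,n0,n1]),
  (true,[n0,n0,n1,n1,n0,n0,n0,n1])]

noncomputable def l0 : List Con := (false, [n0,n0,n2,n0,m1,n0,n1,n0,n0,n1]) :: base

noncomputable def r0 : List Con := (false, [n0,n0,m2,n0,n1,n0,m1,n0,n0,m1]) :: base

noncomputable def l1 : List Con := (false, [n0,n0,n0,n0,n0,n2,n0,n0,m1]) :: l0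

noncomputable def r1 : List Con := (false, [n0,n0,n0,n0,n0,m2,n0,n0,n1]) :: l0

noncomputable def l2 : List Con := (false, [n0,n0,n0,n0,n0,m1,n0,n0,n1,m1]) :: r1

noncomputable def r2 : List Con := (false, [n0,n0,n0,n0,n0,n1,n0,n0,m1,n1]) :: r1

noncomputable def l3 : List Con := (false, [n0,n1,n0,n1,n0,n0,n1,n1,n0,n1]) :: l2

noncomputable def r3 : List Con := (false, [n0,m1,n0,m1,n0,n0,m1,m1,n0,m1]) :: l2

noncomputable def l4 : List Con := (false, [n0,n0,n1,n0,n0,n0,m2,n0,n1,m2]) :: r3

noncomputable def r4 : List Con := (false, [n0,n0,m1,n0,n0,n0,n2,n0,m1,n2]) :: r3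

noncomputable def l5 : List Con := (true, [n0,n1,m1,m1,n0,n0,n0,m1]) :: l4

noncomputable def r5 : List Con := (true, [n1,m1,n1,n1,n0,n0,n0,n1]) :: l4

noncomputable def l6 : List Con := (true, [n0,n0,m2,n0,n1,m2,m1]) :: r5

noncomputable def r6 : List Con := (true, [n1,n0,n2,n0,m1,n2,n1]) :: r5

noncomputable def l7 : List Con := (false, [n0,n0,n0,m2,n0,n0,n1,n1,n0,n1]) :: l6

noncomputable def r7 : List Con := (false, [n0,n0,n0,n2,n0,n0,m1,m1,n0,m1]) :: l6

noncomputable def l8 : List Con := (true, [n0,n1,m2,m2,n1,n0,n0,n1]) :: r7

noncomputable def r8 : List Con := (true, [n1,m1,n2,n2,m1,n0,n0,m1]) :: r7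

noncomputable def l9 : List Con := (true, [n1,n0,m1,m1,n1,n0,n0,n2]) :: r8

noncomputable def r9 : List Con := (true, [n0,n0,n1,n1,m1,n0,n0,m2]) :: r8

noncomputable def l10 : List Con := (true, [n1,n0,n1,n1,m1,n0,n0,m2]) :: l9

noncomputable def r10 : List Con := (true, [n0,n0,m1,m1,n1,n0,n0,n2]) :: l9

noncomputable def l11 : List Con := (true, [n0,n0,m2,m2,n1,n0,n0,n1]) :: r6

noncomputable def r11 : List Con := (true, [n1,n0,n2,n2,m1,n0,n0,m1]) :: r6

noncomputable def l12 : List Con := (false, [n0,n0,n0,m2,n0,n0,n1,n1,n0,n1]) :: r11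

noncomputable def r12 : List Con := (false, [n0,n0,n0,n2,n0,n0,m1,m1,n0,m1]) :: r11

noncomputable def l13 : List Con := (true, [n0,n0,n2,n0,m1,n2,n1]) :: l12

noncomputable def r13 : List Con := (true, [n1,n0,m2,n0,n1,m2,m1]) :: l12

noncomputable def l14 : List Con := (true, [n0,n0,n2,n2,m1,n0,n0,m1]) :: r13

noncomputable def r14 : List Con := (true, [n1,n0,m2,m2,n1,n0,n0,n1]) :: r13

noncomputable def l15 : List Con := (true, [n0,n1,m2,n0,n1,n0,n0,n1]) :: r12

noncomputable def r15 : List Con := (true, [n1,m1,n2,n0,m1,n0,n0,m1]) :: r12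

noncomputable def l16 : List Con := (false, [n0,n0,n0,n0,n0,m2,n0,n0,n1,m1]) :: r15

noncomputable def r16 : List Con := (false, [n0,n0,n0,n0,n0,n2,n0,n0,m1,n1]) :: r15

noncomputable def l17 : List Con := (true, [n1,n1,m1,m1,n0,n0,n0,m1]) :: l16

noncomputable def r17 : List Con := (true, [n0,m1,n1,n1,n0,n0,n0,n1]) :: l16

noncomputable def l18 : List Con := (true, [n0,n1,m1,m2,n0,n0,n0,m1]) :: r17

noncomputable def r18 : List Con := (true, [n1,m1,n1,n2,n0,n0,n0,n1]) :: r17

noncomputable def l19 : List Con := (false, [n0,n0,n0,n0,n0,m2,n0,n0,n0,n1]) :: r18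

noncomputable def r19 : List Con := (false, [n0,n0,n0,n0,n0,n2,n0,n0,n0,m1]) :: r18

noncomputable def l20 : List Con := (true, [n1,n1,m2,m1,n1,n0,n0,n1]) :: l19

noncomputable def r20 : List Con := (true, [n0,m1,n2,n1,m1,n0,n0,m1]) :: l19

noncomputable def l21 : List Con := (false, [n0,n0,m2,n0,n1,n0,m1,n0,n1,m1]) :: l20

noncomputable def r21 : List Con := (false, [n0,n0,n2,n0,m1,n0,n1,n0,m1,n1]) :: l20

noncomputable def l22 : List Con := (true, [n0,n0,n1,n1,m1,n0,n0,m2]) :: r20

noncomputable def r22 : List Con := (true, [n1,n0,m1,m1,n1,n0,n0,n2]) :: r20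

noncomputable def l23 : List Con := (false, [n0,m1,m2,n0,n1,n0,m2,m1,n1,m2]) :: l22

noncomputable def r23 : List Con := (false, [n0,n1,n2,n0,m1,n0,n2,n1,m1,n2]) :: l22

noncomputable def l24 : List Con := (true, [n1,n0,n1,n1,m1,n0,n0,m2]) :: r22

noncomputable def r24 : List Con := (true, [n0,n0,m1,m1,n1,n0,n0,n2]) :: r22

noncomputable def l25 : List Con := (true, [n0,n1,m2,m2,n1,n0,n0,n1]) :: r24

noncomputable def r25 : List Con := (true, [n1,m1,n2,n2,m1,n0,n0,m1]) :: r24

noncomputable def l26 : List Con := (false, [n0,n0,m2,n0,n1,n0,m1,n0,n1,m1]) :: l25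

noncomputable def r26 : List Con := (false, [n0,n0,n2,n0,m1,n0,n1,n0,m1,n1]) :: l25

noncomputable def l27 : List Con := (false, [n0,n0,n0,n0,n0,m2,n0,n0,n0,n1]) :: r16

noncomputable def r27 : List Con := (false, [n0,n0,n0,n0,n0,n2,n0,n0,n0,m1]) :: r16

noncomputable def l28 : List Con := (true, [n0,n1,m2,m2,n1,n0,n0,n1]) :: l27

noncomputable def r28 : List Con := (true, [n1,m1,n2,n2,m1,n0,n0,m1]) :: l27

noncomputable def l29 : List Con := (false, [n0,n0,m2,n0,n1,n0,m1,n0,n1,m1]) :: l28

noncomputable def r29 : List Con := (false, [n0,n0,n2,n0,m1,n0,n1,n0,m1,n1]) :: l28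

noncomputable def l30 : List Con := (true, [n1,n0,m1,m1,n1,n0,n0,n2]) :: r28

noncomputable def r30 : List Con := (true, [n0,n0,n1,n1,m1,n0,n0,m2]) :: r28

noncomputable def l31 : List Con := (true, [n1,n0,n1,n1,m1,n0,n0,m2]) :: l30

noncomputable def r31 : List Con := (true, [n0,n0,m1,m1,n1,n0,n0,n2]) :: l30

noncomputable def l32 : List Con := (false, [n0,m1,m2,n0,n1,n0,m2,m1,n1,m2]) :: r30

noncomputable def r32 : List Con := (false, [n0,n1,n2,n0,m1,n0,n2,n1,m1,n2]) :: r30

noncomputable def l33 : List Con := (false, [n0,n0,n0,m2,n0,n0,n1,n1,n0,n1]) :: r4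

noncomputable def r33 : List Con := (false, [n0,n0,n0,n2,n0,n0,m1,m1,n0,m1]) :: r4

noncomputable def l34 : List Con := (true, [n0,n0,n2,n2,m1,n0,n0,m1]) :: l33

noncomputable def r34 : List Con := (true, [n1,n0,m2,m2,n1,n0,n0,n1]) :: l33

noncomputable def l35 : List Con := (true, [n0,n0,n2,n0,m1,n2,n1]) :: r34

noncomputable def r35 : List Con := (true, [n1,n0,m2,n0,n1,m2,m1]) :: r34

noncomputable def l36 : List Con := (true, [n0,n0,m2,n0,n1,m2,m1]) :: r35

noncomputable def r36 : List Con := (true, [n1,n0,n2,n0,m1,n2,n1]) :: r35

noncomputable def l37 : List Con := (true, [n0,n0,m2,m2,n1,n0,n0,n1]) :: r36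

noncomputable def r37 : List Con := (true, [n1,n0,n2,n2,m1,n0,n0,m1]) :: r36

noncomputable def l38 : List Con := (true, [n0,n1,n1,n0,m1,n0,n0,m1]) :: r33

noncomputable def r38 : List Con := (true, [n1,m1,m1,n0,n1,n0,n0,n1]) :: r33

noncomputable def l39 : List Con := (false, [n0,n0,m1,n0,n1,n0,m2,n0,n1,m2]) :: l38

noncomputable def r39 : List Con := (false, [n0,n0,n1,n0,m1,n0,n2,n0,m1,n2]) :: l38

noncomputable def l40 : List Con := (true, [n0,n0,n1,n1,m1,n0,n0,m2]) :: r38

noncomputable def r40 : List Con := (true, [n1,n0,m1,m1,n1,n0,n0,n2]) :: r38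

noncomputable def l41 : List Con := (false, [n0,n0,m1,n0,n1,n0,m2,n0,n1,m2]) :: l40

noncomputable def r41 : List Con := (false, [n0,n0,n1,n0,m1,n0,n2,n0,m1,n2]) :: l40

noncomputable def l42 : List Con := (true, [n0,n1,m1,m1,n0,n0,n0,m1]) :: l41

noncomputable def r42 : List Con := (true, [n1,m1,n1,n1,n0,n0,n0,n1]) :: l41

noncomputable def l43 : List Con := (false, [n0,m1,n0,n1,n0,n0,m1,m1,n1,m1]) :: l42

noncomputable def r43 : List Con := (false, [n0,n1,n0,m1,n0,n0,n1,n1,m1,n1]) :: l42

noncomputable def l44 : List Con := (false, [n0,n0,n0,n0,n0,m2,n0,n0,n0,n1]) :: r42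

noncomputable def r44 : List Con := (false, [n0,n0,n0,n0,n0,n2,n0,n0,n0,m1]) :: r42

noncomputable def l45 : List Con := (false, [n0,m1,m2,n0,n1,n0,m2,m1,n1,m2]) :: l44

noncomputable def r45 : List Con := (false, [n0,n1,n2,n0,m1,n0,n2,n1,m1,n2]) :: l44

noncomputable def l46 : List Con := (false, [n0,m1,m2,n0,n1,n0,m2,m1,n1,m2]) :: r44

noncomputable def r46 : List Con := (false, [n0,n1,n2,n0,m1,n0,n2,n1,m1,n2]) :: r44

noncomputable def l47 : List Con := (true, [n1,n0,n1,n1,m1,n0,n0,m2]) :: r40

noncomputable def r47 : List Con := (true, [n0,n0,m1,m1,n1,n0,n0,n2]) :: r40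

noncomputable def l48 : List Con := (false, [n0,n0,n0,n0,n0,n2,n0,n0,n0,m1]) :: r47

noncomputable def r48 : List Con := (false, [n0,n0,n0,n0,n0,m2,n0,n0,n0,n1]) :: r47

noncomputable def l49 : List Con := (true, [n0,n1,m1,n0,n0,n0,n0,m1]) :: l48

noncomputable def r49 : List Con := (true, [n1,m1,n1,n0,n0,n0,n0,n1]) :: l48

noncomputable def l50 : List Con := (false, [n0,n0,m2,n0,n1,n0,m1,n0,n1,m1]) :: l49

noncomputable def r50 : List Con := (false, [n0,n0,n2,n0,m1,n0,n1,n0,m1,n1]) :: l49

noncomputable def l51 : List Con := (true, [n0,n1,m2,m1,n1,n0,n0,n1]) :: r49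

noncomputable def r51 : List Con := (true, [n1,m1,n2,n1,m1,n0,n0,m1]) :: r49

noncomputable def l52 : List Con := (false, [n0,n0,m2,n0,n1,n0,m1,n0,n1,m1]) :: l51

noncomputable def r52 : List Con := (false, [n0,n0,n2,n0,m1,n0,n1,n0,m1,n1]) :: l51

noncomputable def l53 : List Con := (true, [n0,n1,m1,m1,n0,n0,n0,m1]) :: l52

noncomputable def r53 : List Con := (true, [n1,m1,n1,n1,n0,n0,n0,n1]) :: l52

noncomputable def l54 : List Con := (true, [n1,m1,n2,n1,m1,n0,n0,m1]) :: r48

noncomputable def r54 : List Con := (true, [n0,n1,m2,m1,n1,n0,n0,n1]) :: r48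

noncomputable def l55 : List Con := (false, [n0,n0,m2,n0,n1,n0,m1,n0,n1,m1]) :: l54

noncomputable def r55 : List Con := (false, [n0,n0,n2,n0,m1,n0,n1,n0,m1,n1]) :: l54

noncomputable def l56 : List Con := (true, [n0,n1,m2,m2,n1,n0,n0,n1]) :: l55

noncomputable def r56 : List Con := (true, [n1,m1,n2,n2,m1,n0,n0,m1]) :: l55

noncomputable def l57 : List Con := (false, [n0,n0,m2,n0,n1,n0,m1,n0,n1,m1]) :: r54

noncomputable def r57 : List Con := (false, [n0,n0,n2,n0,m1,n0,n1,n0,m1,n1]) :: r54

noncomputable def l58 : List Con := (false, [n0,n0,n1,n0,n0,n0,m2,n0,n2,m2]) :: r2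

noncomputable def r58 : List Con := (false, [n0,n0,m1,n0,n0,n0,n2,n0,m2,n2]) :: r2

noncomputable def l59 : List Con := (true, [n1,n1,m1,m1,n0,n0,n0,m1]) :: l58

noncomputable def r59 : List Con := (true, [n0,m1,n1,n1,n0,n0,n0,n1]) :: l58

noncomputable def l60 : List Con := (true, [n0,n0,n2,n0,m1,n2,n1]) :: r59

noncomputable def r60 : List Con := (true, [n1,n0,m2,n0,n1,m2,m1]) :: r59

noncomputable def l61 : List Con := (false, [n0,n0,n0,m2,n0,n0,n1,n1,n0,n1]) :: l60

noncomputable def r61 : List Con := (false, [n0,n0,n0,n2,n0,n0,m1,m1,n0,m1]) :: l60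

noncomputable def l62 : List Con := (true, [n0,n1,m2,n0,n1,n0,n0,n1]) :: r61

noncomputable def r62 : List Con := (true, [n1,m1,n2,n0,m1,n0,n0,m1]) :: r61

noncomputable def l63 : List Con := (true, [n0,n1,m1,m2,n0,n0,n0,m1]) :: r62

noncomputable def r63 : List Con := (true, [n1,m1,n1,n2,n0,n0,n0,n1]) :: r62

noncomputable def l64 : List Con := (true, [n0,n0,m1,m1,n0,n0,n0,m2]) :: r63

noncomputable def r64 : List Con := (true, [n1,n0,n1,n1,n0,n0,n0,n2]) :: r63

noncomputable def l65 : List Con := (false, [n0,m1,n0,n0,n0,n0,m2,m1,n2,m2]) :: l64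

noncomputable def r65 : List Con := (false, [n0,n1,n0,n0,n0,n0,n2,n1,m2,n2]) :: l64

noncomputable def l66 : List Con := (true, [n1,n0,m1,m1,n0,n0,n0,m2]) :: r64

noncomputable def r66 : List Con := (true, [n0,n0,n1,n1,n0,n0,n0,n2]) :: r64

noncomputable def l67 : List Con := (false, [n0,n0,m2,n0,n1,n0,m1,n0,n1,m1]) :: r66

noncomputable def r67 : List Con := (false, [n0,n0,n2,n0,m1,n0,n1,n0,m1,n1]) :: r66

noncomputable def l68 : List Con := (false, [n0,n0,n0,n0,n0,m2,n0,n0,n0,n1]) :: l67

noncomputable def r68 : List Con := (false, [n0,n0,n0,n0,n0,n2,n0,n0,n0,m1]) :: l67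

noncomputable def l69 : List Con := (true, [n0,n1,m2,m2,n1,n0,n0,n1]) :: l68

noncomputable def r69 : List Con := (true, [n1,m1,n2,n2,m1,n0,n0,m1]) :: l68

noncomputable def l70 : List Con := (true, [n1,n0,n2,n2,m1,n0,n0,m1]) :: r60

noncomputable def r70 : List Con := (true, [n0,n0,m2,m2,n1,n0,n0,n1]) :: r60

noncomputable def l71 : List Con := (false, [n0,m1,n0,m1,n0,n0,n0,n0,n1]) :: l70

noncomputable def r71 : List Con := (false, [n0,n1,n0,n1,n0,n0,n0,n0,m1]) :: l70

noncomputable def l72 : List Con := (true, [n0,n1,m1,m2,n0,n0,n0,m1]) :: l71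

noncomputable def r72 : List Con := (true, [n1,m1,n1,n2,n0,n0,n0,n1]) :: l71

noncomputable def l73 : List Con := (true, [n0,n0,m1,m1,n0,n0,n0,m2]) :: r72

noncomputable def r73 : List Con := (true, [n1,n0,n1,n1,n0,n0,n0,n2]) :: r72

noncomputable def l74 : List Con := (false, [n0,m1,n0,n0,n0,n0,m2,m1,n2,m2]) :: l73

noncomputable def r74 : List Con := (false, [n0,n1,n0,n0,n0,n0,n2,n1,m2,n2]) :: l73

noncomputable def l75 : List Con := (false, [n0,n0,n0,n0,n0,n0,m1,n0,n2,m1]) :: r74

noncomputable def r75 : List Con := (false, [n0,n0,n0,n0,n0,n0,n1,n0,m2,n1]) :: r74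

noncomputable def l76 : List Con := (true, [n1,n0,m2,m2,n1,n0,n0,n1]) :: r75

noncomputable def r76 : List Con := (true, [n0,n0,n2,n2,m1,n0,n0,m1]) :: r75

noncomputable def l77 : List Con := (true, [n0,n0,m2,n0,n1,m2,m1]) :: l76

noncomputable def r77 : List Con := (true, [n1,n0,n2,n0,m1,n2,n1]) :: l76

noncomputable def l78 : List Con := (false, [n0,n0,n0,m2,n0,n0,n1,n1,n0,n1]) :: r76

noncomputable def r78 : List Con := (false, [n0,n0,n0,n2,n0,n0,m1,m1,n0,m1]) :: r76

noncomputable def l79 : List Con := (true, [n0,n1,m2,m2,n1,n0,n0,n1]) :: r78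

noncomputable def r79 : List Con := (true, [n1,m1,n2,n2,m1,n0,n0,m1]) :: r78

noncomputable def l80 : List Con := (true, [n0,n0,n1,n1,m1,n0,n0,m2]) :: r79

noncomputable def r80 : List Con := (true, [n1,n0,m1,m1,n1,n0,n0,n2]) :: r79

noncomputable def l81 : List Con := (true, [n1,n0,m1,m1,n0,n0,n0,m2]) :: r73

noncomputable def r81 : List Con := (true, [n0,n0,n1,n1,n0,n0,n0,n2]) :: r73

noncomputable def l82 : List Con := (false, [n0,n0,n0,m2,n0,n0,n1,n1,n0,n1]) :: r81

noncomputable def r82 : List Con := (false, [n0,n0,n0,n2,n0,n0,m1,m1,n0,m1]) :: r81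

noncomputable def l83 : List Con := (true, [n0,n0,m2,n0,n1,m2,m1]) :: l82

noncomputable def r83 : List Con := (true, [n1,n0,n2,n0,m1,n2,n1]) :: l82

noncomputable def l84 : List Con := (true, [n0,n1,m2,m2,n1,n0,n0,n1]) :: r82

noncomputable def r84 : List Con := (true, [n1,m1,n2,n2,m1,n0,n0,m1]) :: r82

noncomputable def l85 : List Con := (false, [n0,n0,n0,n2,n0,n0,m1,m1,n0,m1]) :: r71

noncomputable def r85 : List Con := (false, [n0,n0,n0,m2,n0,n0,n1,n1,n0,n1]) :: r71

noncomputable def l86 : List Con := (true, [n0,n1,m2,m2,n1,n0,n0,n1]) :: l85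

noncomputable def r86 : List Con := (true, [n1,m1,n2,n2,m1,n0,n0,m1]) :: l85

noncomputable def l87 : List Con := (true, [n0,n0,n1,n1,m1,n0,n0,m2]) :: r86

noncomputable def r87 : List Con := (true, [n1,n0,m1,m1,n1,n0,n0,n2]) :: r86

noncomputable def l88 : List Con := (true, [n1,n0,n1,n1,m1,n0,n0,m2]) :: r87

noncomputable def r88 : List Con := (true, [n0,n0,m1,m1,n1,n0,n0,n2]) :: r87

noncomputable def l89 : List Con := (true, [n0,n1,m1,m2,n0,n0,n0,m1]) :: r88

noncomputable def r89 : List Con := (true, [n1,m1,n1,n2,n0,n0,n0,n1]) :: r88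

noncomputable def l90 : List Con := (true, [n0,n0,m1,m1,n0,n0,n0,m2]) :: r89

noncomputable def r90 : List Con := (true, [n1,n0,n1,n1,n0,n0,n0,n2]) :: r89

noncomputable def l91 : List Con := (false, [n0,m1,n0,n0,n0,n0,m2,m1,n2,m2]) :: l90

noncomputable def r91 : List Con := (false, [n0,n1,n0,n0,n0,n0,n2,n1,m2,n2]) :: l90

noncomputable def l92 : List Con := (true, [n1,n0,m1,m1,n0,n0,n0,m2]) :: r90

noncomputable def r92 : List Con := (true, [n0,n0,n1,n1,n0,n0,n0,n2]) :: r90

noncomputable def l93 : List Con := (true, [n0,n0,m2,n0,n1,m2,m1]) :: r85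

noncomputable def r93 : List Con := (true, [n1,n0,n2,n0,m1,n2,n1]) :: r85

noncomputable def l94 : List Con := (true, [n0,n0,n2,n2,m1,n0,n0,m1]) :: r93

noncomputable def r94 : List Con := (true, [n1,n0,m2,m2,n1,n0,n0,n1]) :: r93

noncomputable def l95 : List Con := (true, [n0,n1,m1,m2,n0,n0,n0,m1]) :: r94

noncomputable def r95 : List Con := (true, [n1,m1,n1,n2,n0,n0,n0,n1]) :: r94

noncomputable def l96 : List Con := (true, [n1,n0,n3,n3,m1,n0,n0,n1]) :: r95

noncomputable def r96 : List Con := (true, [n0,n0,m3,m3,n1,n0,n0,m1]) :: r95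

noncomputable def l97 : List Con := (true, [n1,n0,m3,m3,n1,n0,n0,m1]) :: l96

noncomputable def r97 : List Con := (true, [n0,n0,n3,n3,m1,n0,n0,n1]) :: l96

noncomputable def l98 : List Con := (false, [n0,n0,n0,m2,n0,n0,n1,n1,n0,n1]) :: r58

noncomputable def r98 : List Con := (false, [n0,n0,n0,n2,n0,n0,m1,m1,n0,m1]) :: r58

noncomputable def l99 : List Con := (true, [n0,n0,n2,n2,m1,n0,n0,m1]) :: l98

noncomputable def r99 : List Con := (true, [n1,n0,m2,m2,n1,n0,n0,n1]) :: l98

noncomputable def l100 : List Con := (true, [n0,n0,n2,n0,m1,n2,n1]) :: r99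

noncomputable def r100 : List Con := (true, [n1,n0,m2,n0,n1,m2,m1]) :: r99

noncomputable def l101 : List Con := (true, [n0,n0,m2,n0,n1,m2,m1]) :: r100

noncomputable def r101 : List Con := (true, [n1,n0,n2,n0,m1,n2,n1]) :: r100

noncomputable def l102 : List Con := (true, [n0,n0,m2,m2,n1,n0,n0,n1]) :: r101

noncomputable def r102 : List Con := (true, [n1,n0,n2,n2,m1,n0,n0,m1]) :: r101

noncomputable def l103 : List Con := (false, [n0,n0,n0,n0,n0,m2,n0,n0,n1]) :: r0

noncomputable def r103 : List Con := (false, [n0,n0,n0,n0,n0,n2,n0,n0,m1]) :: r0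

noncomputable def l104 : List Con := (false, [n0,n0,n0,m2,n0,n0,n1,n1,n0,n1]) :: l103

noncomputable def r104 : List Con := (false, [n0,n0,n0,n2,n0,n0,m1,m1,n0,m1]) :: l103

noncomputable def l105 : List Con := (false, [n0,n0,n0,n0,n0,n1,n0,n0,m1,n1]) :: r104

noncomputable def r105 : List Con := (false, [n0,n0,n0,n0,n0,m1,n0,n0,n1,m1]) :: r104

noncomputable def l106 : List Con := (true, [n1,n1,n2,n2,m1]) :: l105

noncomputable def r106 : List Con := (true, [n0,m1,m2,m2,n1]) :: l105

noncomputable def l107 : List Con := (true, [n0,n0,m1,m2,n0,n0,n0,m1]) :: r106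

noncomputable def r107 : List Con := (true, [n1,n0,n1,n2,n0,n0,n0,n1]) :: r106

noncomputable def l108 : List Con := (false, [n0,n0,n1,n0,n0,n0,m2,n0,n2,m2]) :: l107

noncomputable def r108 : List Con := (false, [n0,n0,m1,n0,n0,n0,n2,n0,m2,n2]) :: l107

noncomputable def l109 : List Con := (false, [n0,m1,n0,m1,n0,n0,n0,n0,n1]) :: r108

noncomputable def r109 : List Con := (false, [n0,n1,n0,n1,n0,n0,n0,n0,m1]) :: r108

noncomputable def l110 : List Con := (true, [n1,n0,m2,m2,n1,n0,n0,n1]) :: r109

noncomputable def r110 : List Con := (true, [n0,n0,n2,n2,m1,n0,n0,m1]) :: r109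

noncomputable def l111 : List Con := (true, [n1,n0,n2,n2,m1,n0,n0,m1]) :: l110

noncomputable def r111 : List Con := (true, [n0,n0,m2,m2,n1,n0,n0,n1]) :: l110

noncomputable def l112 : List Con := (true, [n0,n0,m3,m3,n1]) :: r111

noncomputable def r112 : List Con := (true, [n1,n0,n3,n3,m1]) :: r111

noncomputable def l113 : List Con := (true, [n1,n0,m3,m3,n1]) :: r112

noncomputable def r113 : List Con := (true, [n0,n0,n3,n3,m1]) :: r112

noncomputable def l114 : List Con := (true, [n0,n0,n1,n1,m1,n0,n0,m2]) :: r110

noncomputable def r114 : List Con := (true, [n1,n0,m1,m1,n1,n0,n0,n2]) :: r110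

noncomputable def l115 : List Con := (true, [n1,n0,n1,n1,m1,n0,n0,m2]) :: r114

noncomputable def r115 : List Con := (true, [n0,n0,m1,m1,n1,n0,n0,n2]) :: r114

noncomputable def l116 : List Con := (true, [n1,n1,m1,m1,n0,n0,n0,m1]) :: r107

noncomputable def r116 : List Con := (true, [n0,m1,n1,n1,n0,n0,n0,n1]) :: r107

noncomputable def l117 : List Con := (false, [n0,n0,n1,n0,n0,n0,m2,n0,n2,m2]) :: l116

noncomputable def r117 : List Con := (false, [n0,n0,m1,n0,n0,n0,n2,n0,m2,n2]) :: l116

noncomputable def l118 : List Con := (true, [n1,n0,m3,m3,n1]) :: r117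

noncomputable def r118 : List Con := (true, [n0,n0,n3,n3,m1]) :: r117

noncomputable def l119 : List Con := (true, [n1,n0,n3,n3,m1]) :: l118

noncomputable def r119 : List Con := (true, [n0,n0,m3,m3,n1]) :: l118

noncomputable def l120 : List Con := (false, [n0,n0,n0,n0,n0,m2,n0,n0,n0,n1]) :: r118

noncomputable def r120 : List Con := (false, [n0,n0,n0,n0,n0,n2,n0,n0,n0,m1]) :: r118

noncomputable def l121 : List Con := (true, [n0,n0,n1,n1,m1,n0,n0,m2]) :: l120

noncomputable def r121 : List Con := (true, [n1,n0,m1,m1,n1,n0,n0,n2]) :: l120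

noncomputable def l122 : List Con := (true, [n1,n0,n1,n1,m1,n0,n0,m2]) :: r121

noncomputable def r122 : List Con := (true, [n0,n0,m1,m1,n1,n0,n0,n2]) :: r121

noncomputable def l123 : List Con := (false, [n0,m1,n0,n2,n0,n0,m1,m1,n1,m1]) :: r122

noncomputable def r123 : List Con := (false, [n0,n1,n0,m2,n0,n0,n1,n1,m1,n1]) :: r122

noncomputable def l124 : List Con := (true, [n0,n0,n2,n1,m1,n0,n0,m1]) :: l123

noncomputable def r124 : List Con := (true, [n1,n0,m2,m1,n1,n0,n0,n1]) :: l123

noncomputable def l125 : List Con := (false, [n0,m1,n0,n1,n0,n0,m1,m1,n1,m1]) :: r123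

noncomputable def r125 : List Con := (false, [n0,n1,n0,m1,n0,n0,n1,n1,m1,n1]) :: r123

noncomputable def l126 : List Con := (true, [n0,n0,n2,n1,m1,n0,n0,m1]) :: l125

noncomputable def r126 : List Con := (true, [n1,n0,m2,m1,n1,n0,n0,n1]) :: l125

noncomputable def l127 : List Con := (true, [n1,n0,m2,m2,n1,n0,n0,n1]) :: r125

noncomputable def r127 : List Con := (true, [n0,n0,n2,n2,m1,n0,n0,m1]) :: r125

noncomputable def l128 : List Con := (true, [n1,n0,n2,n2,m1,n0,n0,m1]) :: l127

noncomputable def r128 : List Con := (true, [n0,n0,m2,m2,n1,n0,n0,n1]) :: l127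

noncomputable def l129 : List Con := (true, [n0,n0,n1,n1,m1,n0,n0,m2]) :: r120

noncomputable def r129 : List Con := (true, [n1,n0,m1,m1,n1,n0,n0,n2]) :: r120

noncomputable def l130 : List Con := (true, [n0,n0,m1,m1,n0,n0,n0,m2]) :: r116

noncomputable def r130 : List Con := (true, [n1,n0,n1,n1,n0,n0,n0,n2]) :: r116

noncomputable def l131 : List Con := (false, [n0,m1,n0,n0,n0,n0,m2,m1,n2,m2]) :: l130

noncomputable def r131 : List Con := (false, [n0,n1,n0,n0,n0,n0,n2,n1,m2,n2]) :: l130

noncomputable def l132 : List Con := (false, [n0,n0,n0,n0,n0,n0,m1,n0,n2,m1]) :: r131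

noncomputable def r132 : List Con := (false, [n0,n0,n0,n0,n0,n0,n1,n0,m2,n1]) :: r131

noncomputable def l133 : List Con := (true, [n0,n1,m1,m2,n0,n0,n0,m1]) :: r132

noncomputable def r133 : List Con := (true, [n1,m1,n1,n2,n0,n0,n0,n1]) :: r132

noncomputable def l134 : List Con := (false, [n0,n0,n1,n0,n0,n0,m2,n0,n2,m2]) :: l133

noncomputable def r134 : List Con := (false, [n0,n0,m1,n0,n0,n0,n2,n0,m2,n2]) :: l133

noncomputable def l135 : List Con := (true, [n1,n0,m2,m2,n1,n0,n0,n1]) :: r134

noncomputable def r135 : List Con := (true, [n0,n0,n2,n2,m1,n0,n0,m1]) :: r134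

noncomputable def l136 : List Con := (true, [n1,n0,n2,n2,m1,n0,n0,m1]) :: l135

noncomputable def r136 : List Con := (true, [n0,n0,m2,m2,n1,n0,n0,n1]) :: l135

noncomputable def l137 : List Con := (true, [n0,n0,m2,n0,n1,m2,m1]) :: l136

noncomputable def r137 : List Con := (true, [n1,n0,n2,n0,m1,n2,n1]) :: l136

noncomputable def l138 : List Con := (true, [n0,n0,n2,n0,m1,n2,n1]) :: r137

noncomputable def r138 : List Con := (true, [n1,n0,m2,n0,n1,m2,m1]) :: r137

noncomputable def l139 : List Con := (false, [n0,n0,n0,n0,n0,m2,n0,n0,n0,n1]) :: r133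

noncomputable def r139 : List Con := (false, [n0,n0,n0,n0,n0,n2,n0,n0,n0,m1]) :: r133

noncomputable def l140 : List Con := (false, [n0,m1,n0,n2,n0,n0,m1,m1,n1,m1]) :: l139

noncomputable def r140 : List Con := (false, [n0,n1,n0,m2,n0,n0,n1,n1,m1,n1]) :: l139

noncomputable def l141 : List Con := (true, [n0,n0,n2,n1,m1,n0,n0,m1]) :: l140

noncomputable def r141 : List Con := (true, [n1,n0,m2,m1,n1,n0,n0,n1]) :: l140

noncomputable def l142 : List Con := (false, [n0,n0,m2,n0,n1,n0,m2,n0,n1,m2]) :: r140

noncomputable def r142 : List Con := (false, [n0,n0,n2,n0,m1,n0,n2,n0,m1,n2]) :: r140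

noncomputable def l143 : List Con := (true, [n0,n1,n2,n1,m1,n0,n0,m1]) :: l142

noncomputable def r143 : List Con := (true, [n1,m1,m2,m1,n1,n0,n0,n1]) :: l142

noncomputable def l144 : List Con := (true, [n0,n0,m3,m3,n1]) :: r143

noncomputable def r144 : List Con := (true, [n1,n0,n3,n3,m1]) :: r143

noncomputable def l145 : List Con := (true, [n1,n0,m3,m3,n1]) :: r144

noncomputable def r145 : List Con := (true, [n0,n0,n3,n3,m1]) :: r144

noncomputable def l146 : List Con := (true, [n0,n1,n2,n1,m1]) :: r142

noncomputable def r146 : List Con := (true, [n1,m1,m2,m1,n1]) :: r142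

noncomputable def l147 : List Con := (false, [n0,m1,n0,n1,n0,n0,m1,m1,n1,m1]) :: r146

noncomputable def r147 : List Con := (false, [n0,n1,n0,m1,n0,n0,n1,n1,m1,n1]) :: r146

noncomputable def l148 : List Con := (true, [n0,n0,n2,n1,m1,n0,n0,m1]) :: l147

noncomputable def r148 : List Con := (true, [n1,n0,m2,m1,n1,n0,n0,n1]) :: l147

noncomputable def l149 : List Con := (true, [n1,n0,n3,n3,m1,n0,n0,n1]) :: r147

noncomputable def r149 : List Con := (true, [n0,n0,m3,m3,n1,n0,n0,m1]) :: r147

noncomputable def l150 : List Con := (true, [n1,n0,m3,m3,n1,n0,n0,m1]) :: l149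

noncomputable def r150 : List Con := (true, [n0,n0,n3,n3,m1,n0,n0,n1]) :: l149

noncomputable def l151 : List Con := (true, [n1,n0,m2,m2,n1,n0,n0,n1]) :: r149

noncomputable def r151 : List Con := (true, [n0,n0,n2,n2,m1,n0,n0,m1]) :: r149

noncomputable def l152 : List Con := (true, [n1,n0,n2,n2,m1,n0,n0,m1]) :: l151

noncomputable def r152 : List Con := (true, [n0,n0,m2,m2,n1,n0,n0,n1]) :: l151

noncomputable def l153 : List Con := (true, [n1,n0,m2,m2,n1,n0,n0,n1]) :: r139

noncomputable def r153 : List Con := (true, [n0,n0,n2,n2,m1,n0,n0,m1]) :: r139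

noncomputable def l154 : List Con := (true, [n0,n0,n2,n0,m1,n2,n1]) :: l153

noncomputable def r154 : List Con := (true, [n1,n0,m2,n0,n1,m2,m1]) :: l153

noncomputable def l155 : List Con := (true, [n1,n0,n2,n2,m1,n0,n0,m1]) :: l154

noncomputable def r155 : List Con := (true, [n0,n0,m2,m2,n1,n0,n0,n1]) :: l154

noncomputable def l156 : List Con := (true, [n1,n0,m1,m1,n0,n0,n0,m2]) :: r130

noncomputable def r156 : List Con := (true, [n0,n0,n1,n1,n0,n0,n0,n2]) :: r130

noncomputable def l157 : List Con := (false, [n0,n0,n0,n0,n0,n2,n0,n0,n0,m1]) :: r156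

noncomputable def r157 : List Con := (false, [n0,n0,n0,n0,n0,m2,n0,n0,n0,n1]) :: r156

noncomputable def l158 : List Con := (true, [n0,n1,m1,m2,n0,n0,n0,m1]) :: l157

noncomputable def r158 : List Con := (true, [n1,m1,n1,n2,n0,n0,n0,n1]) :: l157

noncomputable def l159 : List Con := (true, [n0,n0,m2,m2,n1,n0,n0,n1]) :: r158

noncomputable def r159 : List Con := (true, [n1,n0,n2,n2,m1,n0,n0,m1]) :: r158

noncomputable def l160 : List Con := (true, [n0,n1,n2,n1,m1]) :: l159

noncomputable def r160 : List Con := (true, [n1,m1,m2,m1,n1]) :: l159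

noncomputable def l161 : List Con := (false, [n0,n0,m2,n0,n1,n0,m2,n0,n1,m2]) :: r160

noncomputable def r161 : List Con := (false, [n0,n0,n2,n0,m1,n0,n2,n0,m1,n2]) :: r160

noncomputable def l162 : List Con := (true, [n0,n1,n2,n1,m1,n0,n0,m1]) :: l161

noncomputable def r162 : List Con := (true, [n1,m1,m2,m1,n1,n0,n0,n1]) :: l161

noncomputable def l163 : List Con := (true, [n0,n0,n2,n0,m1,n2,n1]) :: r159

noncomputable def r163 : List Con := (true, [n1,n0,m2,n0,n1,m2,m1]) :: r159

noncomputable def l164 : List Con := (true, [n1,n0,m2,m2,n1,n0,n0,n1]) :: l163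

noncomputable def r164 : List Con := (true, [n0,n0,n2,n2,m1,n0,n0,m1]) :: l163

noncomputable def l165 : List Con := (false, [n0,n0,m2,n0,n1,n0,m2,n0,n1,m2]) :: r164

noncomputable def r165 : List Con := (false, [n0,n0,n2,n0,m1,n0,n2,n0,m1,n2]) :: r164

noncomputable def l166 : List Con := (true, [n0,n1,n2,n1,m1]) :: r165

noncomputable def r166 : List Con := (true, [n1,m1,m2,m1,n1]) :: r165

noncomputable def l167 : List Con := (true, [n0,n1,n2,n1,m1]) :: r157

noncomputable def r167 : List Con := (true, [n1,m1,m2,m1,n1]) :: r157

noncomputable def l168 : List Con := (false, [n0,n0,m2,n0,n1,n0,m2,n0,n1,m2]) :: r167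

noncomputable def r168 : List Con := (false, [n0,n0,n2,n0,m1,n0,n2,n0,m1,n2]) :: r167

noncomputable def l169 : List Con := (true, [n1,n1,n2,n2,m1,n0,n0,m1]) :: l168

noncomputable def r169 : List Con := (true, [n0,m1,m2,m2,n1,n0,n0,n1]) :: l168

noncomputable def l170 : List Con := (false, [n0,m1,n0,n2,n0,n0,m1,m1,n1,m1]) :: r168

noncomputable def r170 : List Con := (false, [n0,n1,n0,m2,n0,n0,n1,n1,m1,n1]) :: r168

noncomputable def l171 : List Con := (true, [n0,n0,n2,n1,m1,n0,n0,m1]) :: l170

noncomputable def r171 : List Con := (true, [n1,n0,m2,m1,n1,n0,n0,n1]) :: l170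

noncomputable def l172 : List Con := (true, [n1,n0,n3,n3,m1,n0,n0,n1]) :: r171

noncomputable def r172 : List Con := (true, [n0,n0,m3,m3,n1,n0,n0,m1]) :: r171

noncomputable def l173 : List Con := (true, [n1,n0,m3,m3,n1,n0,n0,m1]) :: l172

noncomputable def r173 : List Con := (true, [n0,n0,n3,n3,m1,n0,n0,n1]) :: l172

noncomputable def l174 : List Con := (false, [n0,m1,n0,n1,n0,n0,m1,m1,n1,m1]) :: r170

noncomputable def r174 : List Con := (false, [n0,n1,n0,m1,n0,n0,n1,n1,m1,n1]) :: r170

noncomputable def l175 : List Con := (true, [n0,n0,n2,n1,m1,n0,n0,m1]) :: l174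

noncomputable def r175 : List Con := (true, [n1,n0,m2,m1,n1,n0,n0,n1]) :: l174

noncomputable def l176 : List Con := (true, [n1,n0,n2,n2,m1,n0,n0,m1]) :: r174

noncomputable def r176 : List Con := (true, [n0,n0,m2,m2,n1,n0,n0,n1]) :: r174

noncomputable def l177 : List Con := (true, [n1,n0,m2,m2,n1,n0,n0,n1]) :: l176

noncomputable def r177 : List Con := (true, [n0,n0,n2,n2,m1,n0,n0,m1]) :: l176

noncomputable def l178 : List Con := (true, [n0,n1,m1,m2,n0,n0,n0,m1]) :: r176

noncomputable def r178 : List Con := (true, [n1,m1,n1,n2,n0,n0,n0,n1]) :: r176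

noncomputable def l179 : List Con := (true, [n1,n0,n3,n3,m1,n0,n0,n1]) :: r178

noncomputable def r179 : List Con := (true, [n0,n0,m3,m3,n1,n0,n0,m1]) :: r178

noncomputable def l180 : List Con := (true, [n1,n0,m3,m3,n1,n0,n0,m1]) :: l179

noncomputable def r180 : List Con := (true, [n0,n0,n3,n3,m1,n0,n0,n1]) :: l179

noncomputable def l181 : List Con := (false, [n0,n1,n0,n1,n0,n0,n1,n1,n0,n1]) :: r105

noncomputable def r181 : List Con := (false, [n0,m1,n0,m1,n0,n0,m1,m1,n0,m1]) :: r105

noncomputable def l182 : List Con := (true, [n1,n0,n1,n2,m1,n0,n0,m2]) :: r181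

noncomputable def r182 : List Con := (true, [n0,n0,m1,m2,n1,n0,n0,n2]) :: r181

noncomputable def l183 : List Con := (true, [n1,n1,n2,n2,m1]) :: r182

noncomputable def r183 : List Con := (true, [n0,m1,m2,m2,n1]) :: r182

noncomputable def l184 : List Con := (true, [n0,n1,m1,m1,n0,n0,n0,m1]) :: r183

noncomputable def r184 : List Con := (true, [n1,m1,n1,n1,n0,n0,n0,n1]) :: r183

noncomputable def l185 : List Con := (false, [n0,n0,n1,n0,n0,n0,m2,n0,n1,m2]) :: l184

noncomputable def r185 : List Con := (false, [n0,n0,m1,n0,n0,n0,n2,n0,m1,n2]) :: l184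

noncomputable def l186 : List Con := (true, [n1,n0,n2,n2,m1,n0,n0,m1]) :: r185

noncomputable def r186 : List Con := (true, [n0,n0,m2,m2,n1,n0,n0,n1]) :: r185

noncomputable def l187 : List Con := (true, [n0,n0,n1,n0,m1,n0,n0,m2]) :: l186

noncomputable def r187 : List Con := (true, [n1,n0,m1,n0,n1,n0,n0,n2]) :: l186

noncomputable def l188 : List Con := (false, [n0,m1,n0,n1,n0,n0,m1,m1,n1,m1]) :: l187

noncomputable def r188 : List Con := (false, [n0,n1,n0,m1,n0,n0,n1,n1,m1,n1]) :: l187

noncomputable def l189 : List Con := (false, [n0,n0,n0,n0,n0,m2,n0,n0,n0,n1]) :: r188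

noncomputable def r189 : List Con := (false, [n0,n0,n0,n0,n0,n2,n0,n0,n0,m1]) :: r188

noncomputable def l190 : List Con := (true, [n0,n0,n1,n1,m1,n0,n0,m2]) :: l189

noncomputable def r190 : List Con := (true, [n1,n0,m1,m1,n1,n0,n0,n2]) :: l189

noncomputable def l191 : List Con := (true, [n1,n0,m2,m2,n1,n0,n0,n1]) :: r190

noncomputable def r191 : List Con := (true, [n0,n0,n2,n2,m1,n0,n0,m1]) :: r190

noncomputable def l192 : List Con := (true, [n1,n0,n1,n1,m1,n0,n0,m2]) :: r191

noncomputable def r192 : List Con := (true, [n0,n0,m1,m1,n1,n0,n0,n2]) :: r191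

noncomputable def l193 : List Con := (true, [n1,n0,m1,m1,n1,n0,n0,n2]) :: r189

noncomputable def r193 : List Con := (true, [n0,n0,n1,n1,m1,n0,n0,m2]) :: r189

noncomputable def l194 : List Con := (true, [n1,n0,n1,n1,m1,n0,n0,m2]) :: l193

noncomputable def r194 : List Con := (true, [n0,n0,m1,m1,n1,n0,n0,n2]) :: l193

noncomputable def l195 : List Con := (true, [n0,n0,n2,n0,m1,n2,n1]) :: r194

noncomputable def r195 : List Con := (true, [n1,n0,m2,n0,n1,m2,m1]) :: r194

noncomputable def l196 : List Con := (true, [n1,n0,m2,m2,n1,n0,n0,n1]) :: l195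

noncomputable def r196 : List Con := (true, [n0,n0,n2,n2,m1,n0,n0,m1]) :: l195

noncomputable def l197 : List Con := (true, [n0,n0,m2,n0,n1,m2,m1]) :: r187

noncomputable def r197 : List Con := (true, [n1,n0,n2,n0,m1,n2,n1]) :: r187

noncomputable def l198 : List Con := (true, [n1,n0,m2,m2,n1,n0,n0,n1]) :: l197

noncomputable def r198 : List Con := (true, [n0,n0,n2,n2,m1,n0,n0,m1]) :: l197

noncomputable def l199 : List Con := (false, [n0,m1,n0,n2,n0,n0,m1,m1,n1,m1]) :: r198

noncomputable def r199 : List Con := (false, [n0,n1,n0,m2,n0,n0,n1,n1,m1,n1]) :: r198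

noncomputable def l200 : List Con := (false, [n0,n0,n0,n0,n0,m2,n0,n0,n0,n1]) :: l199

noncomputable def r200 : List Con := (false, [n0,n0,n0,n0,n0,n2,n0,n0,n0,m1]) :: l199

noncomputable def l201 : List Con := (false, [n0,m1,n0,n1,n0,n0,m1,m1,n1,m1]) :: r199

noncomputable def r201 : List Con := (false, [n0,n1,n0,m1,n0,n0,n1,n1,m1,n1]) :: r199

noncomputable def l202 : List Con := (false, [n0,n0,n0,n0,n0,m2,n0,n0,n0,n1]) :: l201

noncomputable def r202 : List Con := (false, [n0,n0,n0,n0,n0,n2,n0,n0,n0,m1]) :: l201

noncomputable def l203 : List Con := (true, [n1,n0,m2,m2,n1,n0,n0,n1]) :: r197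

noncomputable def r203 : List Con := (true, [n0,n0,n2,n2,m1,n0,n0,m1]) :: r197

noncomputable def l204 : List Con := (true, [n0,n0,n2,n0,m1,n2,n1]) :: l203

noncomputable def r204 : List Con := (true, [n1,n0,m2,n0,n1,m2,m1]) :: l203

noncomputable def l205 : List Con := (true, [n1,n0,n3,n3,m1]) :: r186

noncomputable def r205 : List Con := (true, [n0,n0,m3,m3,n1]) :: r186

noncomputable def l206 : List Con := (true, [n1,n0,m3,m3,n1]) :: l205

noncomputable def r206 : List Con := (true, [n0,n0,n3,n3,m1]) :: l205

noncomputable def l207 : List Con := (true, [n1,n0,n4,n4,m1,n0,n0,n1]) :: r205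

noncomputable def r207 : List Con := (true, [n0,n0,m4,m4,n1,n0,n0,m1]) :: r205

noncomputable def l208 : List Con := (true, [n1,n0,m4,m4,n1,n0,n0,m1]) :: l207

noncomputable def r208 : List Con := (true, [n0,n0,n4,n4,m1,n0,n0,n1]) :: l207

noncomputable def l209 : List Con := (false, [n0,n0,n0,n0,n0,n2,n0,n0,n0,m1]) :: r184

noncomputable def r209 : List Con := (false, [n0,n0,n0,n0,n0,m2,n0,n0,n0,n1]) :: r184

noncomputable def l210 : List Con := (false, [n0,n0,n0,n0,n0,m2,n0,n0,n1,m1]) :: l209

noncomputable def r210 : List Con := (false, [n0,n0,n0,n0,n0,n2,n0,n0,m1,n1]) :: l209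

noncomputable def l211 : List Con := (true, [n0,n1,m1,m2,n0,n0,n0,m1]) :: l210

noncomputable def r211 : List Con := (true, [n1,m1,n1,n2,n0,n0,n0,n1]) :: l210

noncomputable def l212 : List Con := (false, [n0,n0,n1,n0,n0,n0,m2,n0,n1,m2]) :: l211

noncomputable def r212 : List Con := (false, [n0,n0,m1,n0,n0,n0,n2,n0,m1,n2]) :: l211

noncomputable def l213 : List Con := (true, [n0,n0,n2,n2,m1,n0,n0,m1]) :: r211

noncomputable def r213 : List Con := (true, [n1,n0,m2,m2,n1,n0,n0,n1]) :: r211

noncomputable def l214 : List Con := (false, [n0,n0,m2,n0,n1,n0,m2,n0,n1,m2]) :: l213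

noncomputable def r214 : List Con := (false, [n0,n0,n2,n0,m1,n0,n2,n0,m1,n2]) :: l213

noncomputable def l215 : List Con := (true, [n0,n0,n2,n0,m1,n2,n1]) :: r213

noncomputable def r215 : List Con := (true, [n1,n0,m2,n0,n1,m2,m1]) :: r213

noncomputable def l216 : List Con := (true, [n1,n0,n2,n2,m1,n0,n0,m1]) :: l215

noncomputable def r216 : List Con := (true, [n0,n0,m2,m2,n1,n0,n0,n1]) :: l215

noncomputable def l217 : List Con := (true, [n0,n1,n2,n1,m1,n0,n0,m1]) :: r216

noncomputable def r217 : List Con := (true, [n1,m1,m2,m1,n1,n0,n0,n1]) :: r216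

noncomputable def l218 : List Con := (false, [n0,n0,m2,n0,n1,n0,m2,n0,n1,m2]) :: l217

noncomputable def r218 : List Con := (false, [n0,n0,n2,n0,m1,n0,n2,n0,m1,n2]) :: l217

noncomputable def l219 : List Con := (true, [n1,n0,n3,n3,m1]) :: r217

noncomputable def r219 : List Con := (true, [n0,n0,m3,m3,n1]) :: r217

noncomputable def l220 : List Con := (true, [n1,n0,m3,m3,n1]) :: l219

noncomputable def r220 : List Con := (true, [n0,n0,n3,n3,m1]) :: l219

noncomputable def l221 : List Con := (true, [n0,n0,m2,m2,n1,n0,n0,n1]) :: r215

noncomputable def r221 : List Con := (true, [n1,n0,n2,n2,m1,n0,n0,m1]) :: r215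

noncomputable def l222 : List Con := (true, [n0,n1,n2,n1,m1,n0,n0,m1]) :: l221

noncomputable def r222 : List Con := (true, [n1,m1,m2,m1,n1,n0,n0,n1]) :: l221

noncomputable def l223 : List Con := (false, [n0,n0,m2,n0,n1,n0,m2,n0,n1,m2]) :: l222

noncomputable def r223 : List Con := (false, [n0,n0,n2,n0,m1,n0,n2,n0,m1,n2]) :: l222

noncomputable def l224 : List Con := (true, [n0,n0,m2,n0,n1,m2,m1]) :: r221

noncomputable def r224 : List Con := (true, [n1,n0,n2,n0,m1,n2,n1]) :: r221

noncomputable def l225 : List Con := (true, [n0,n0,m2,m2,n1,n0,n0,n1]) :: r210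

noncomputable def r225 : List Con := (true, [n1,n0,n2,n2,m1,n0,n0,m1]) :: r210

noncomputable def l226 : List Con := (true, [n0,n1,n2,n1,m1]) :: l225

noncomputable def r226 : List Con := (true, [n1,m1,m2,m1,n1]) :: l225

noncomputable def l227 : List Con := (true, [n0,n1,n2,n1,m1,n0,n0,m1]) :: r226

noncomputable def r227 : List Con := (true, [n1,m1,m2,m1,n1,n0,n0,n1]) :: r226

noncomputable def l228 : List Con := (false, [n0,n0,m2,n0,n1,n0,m2,n0,n1,m2]) :: l227

noncomputable def r228 : List Con := (false, [n0,n0,n2,n0,m1,n0,n2,n0,m1,n2]) :: l227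

noncomputable def l229 : List Con := (true, [n1,n0,m2,m2,n1,n0,n0,n1]) :: r225

noncomputable def r229 : List Con := (true, [n0,n0,n2,n2,m1,n0,n0,m1]) :: r225

noncomputable def l230 : List Con := (true, [n0,n0,n2,n0,m1,n2,n1]) :: l229

noncomputable def r230 : List Con := (true, [n1,n0,m2,n0,n1,m2,m1]) :: l229

noncomputable def l231 : List Con := (false, [n0,n0,m2,n0,n1,n0,m2,n0,n1,m2]) :: r229

noncomputable def r231 : List Con := (false, [n0,n0,n2,n0,m1,n0,n2,n0,m1,n2]) :: r229

noncomputable def l232 : List Con := (true, [n0,n1,n2,n1,m1]) :: r231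

noncomputable def r232 : List Con := (true, [n1,m1,m2,m1,n1]) :: r231

noncomputable def l233 : List Con := (false, [n0,n0,m2,n0,n1,n0,m2,n0,n1,m2]) :: r209

noncomputable def r233 : List Con := (false, [n0,n0,n2,n0,m1,n0,n2,n0,m1,n2]) :: r209

noncomputable def l234 : List Con := (true, [n1,n1,n2,n2,m1,n0,n0,m1]) :: l233

noncomputable def r234 : List Con := (true, [n0,m1,m2,m2,n1,n0,n0,n1]) :: l233

noncomputable def l235 : List Con := (true, [n1,n0,n3,n3,m1]) :: r234

noncomputable def r235 : List Con := (true, [n0,n0,m3,m3,n1]) :: r234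

noncomputable def l236 : List Con := (true, [n1,n0,m3,m3,n1]) :: l235

noncomputable def r236 : List Con := (true, [n0,n0,n3,n3,m1]) :: l235

noncomputable def l237 : List Con := (true, [n0,n1,n2,n1,m1,n0,n0,m1]) :: r236

noncomputable def r237 : List Con := (true, [n1,m1,m2,m1,n1,n0,n0,n1]) :: r236

noncomputable def l238 : List Con := (false, [n0,n0,n0,n0,n0,m2,n0,n0,n1,m1]) :: r235

noncomputable def r238 : List Con := (false, [n0,n0,n0,n0,n0,n2,n0,n0,m1,n1]) :: r235

noncomputable def l239 : List Con := (true, [n0,n1,m1,m2,n0,n0,n0,m1]) :: l238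

noncomputable def r239 : List Con := (true, [n1,m1,n1,n2,n0,n0,n0,n1]) :: l238

noncomputable def l240 : List Con := (true, [n0,n0,m3,n0,n1,m3,m2]) :: l239

noncomputable def r240 : List Con := (true, [n1,n0,n3,n0,m1,n3,n2]) :: l239

noncomputable def l241 : List Con := (true, [n0,n0,m1,m1,n0,n0,n0,m2]) :: l240

noncomputable def r241 : List Con := (true, [n1,n0,n1,n1,n0,n0,n0,n2]) :: l240

noncomputable def l242 : List Con := (false, [n0,n0,n1,n0,n0,n0,m2,n0,n1,m2]) :: l241

noncomputable def r242 : List Con := (false, [n0,n0,m1,n0,n0,n0,n2,n0,m1,n2]) :: l241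

noncomputable def l243 : List Con := (false, [n0,n0,n1,n0,n0,n0,m2,n0,n1,m2]) :: r240

noncomputable def r243 : List Con := (false, [n0,n0,m1,n0,n0,n0,n2,n0,m1,n2]) :: r240

noncomputable def l244 : List Con := (false, [n0,m1,n0,n2,n0,n0,m1,m1,n1,m1]) :: r233

noncomputable def r244 : List Con := (false, [n0,n1,n0,m2,n0,n0,n1,n1,m1,n1]) :: r233

noncomputable def l245 : List Con := (true, [n0,n0,n2,n1,m1,n0,n0,m1]) :: l244

noncomputable def r245 : List Con := (true, [n1,n0,m2,m1,n1,n0,n0,n1]) :: l244

noncomputable def l246 : List Con := (true, [n0,n1,n2,n1,m1]) :: r244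

noncomputable def r246 : List Con := (true, [n1,m1,m2,m1,n1]) :: r244

noncomputable def l247 : List Con := (false, [n0,m1,n0,n1,n0,n0,m1,m1,n1,m1]) :: r246

noncomputable def r247 : List Con := (false, [n0,n1,n0,m1,n0,n0,n1,n1,m1,n1]) :: r246

noncomputable def l248 : List Con := (true, [n0,n0,n2,n1,m1,n0,n0,m1]) :: l247

noncomputable def r248 : List Con := (true, [n1,n0,m2,m1,n1,n0,n0,n1]) :: l247

noncomputable def l249 : List Con := (false, [n0,n0,n0,n0,n0,m2,n0,n0,n1,m1]) :: r247

noncomputable def r249 : List Con := (false, [n0,n0,n0,n0,n0,n2,n0,n0,m1,n1]) :: r247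

noncomputable def l250 : List Con := (true, [n0,n1,m1,m2,n0,n0,n0,m1]) :: l249

noncomputable def r250 : List Con := (true, [n1,m1,n1,n2,n0,n0,n0,n1]) :: l249

noncomputable def l251 : List Con := (true, [n1,n0,m2,m2,n1,n0,n0,n1]) :: l250

noncomputable def r251 : List Con := (true, [n0,n0,n2,n2,m1,n0,n0,m1]) :: l250

noncomputable def l252 : List Con := (true, [n1,n0,n2,n2,m1,n0,n0,m1]) :: l251

noncomputable def r252 : List Con := (true, [n0,n0,m2,m2,n1,n0,n0,n1]) :: l251

noncomputable def l253 : List Con := (true, [n0,n0,m1,m1,n0,n0,n0,m2]) :: r252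

noncomputable def r253 : List Con := (true, [n1,n0,n1,n1,n0,n0,n0,n2]) :: r252

noncomputable def l254 : List Con := (false, [n0,n0,n1,n0,n0,n0,m2,n0,n1,m2]) :: l253

noncomputable def r254 : List Con := (false, [n0,n0,m1,n0,n0,n0,n2,n0,m1,n2]) :: l253

noncomputable def l255 : List Con := (false, [n0,n0,n1,n0,n0,n0,m2,n0,n1,m2]) :: r251

noncomputable def r255 : List Con := (false, [n0,n0,m1,n0,n0,n0,n2,n0,m1,n2]) :: r251

noncomputable def l256 : List Con := (true, [n1,n0,n2,n2,m1,n0,n0,m1]) :: r250

noncomputable def r256 : List Con := (true, [n0,n0,m2,m2,n1,n0,n0,n1]) :: r250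

noncomputable def l257 : List Con := (true, [n1,n0,m2,m2,n1,n0,n0,n1]) :: l256

noncomputable def r257 : List Con := (true, [n0,n0,n2,n2,m1,n0,n0,m1]) :: l256

noncomputable def l258 : List Con := (true, [n1,n0,m3,m3,n1,n0,n0,m1]) :: r257

noncomputable def r258 : List Con := (true, [n0,n0,n3,n3,m1,n0,n0,n1]) :: r257

noncomputable def l259 : List Con := (true, [n1,n0,n3,n3,m1,n0,n0,n1]) :: l258

noncomputable def r259 : List Con := (true, [n0,n0,m3,m3,n1,n0,n0,m1]) :: l258

noncomputable def l260 : List Con := (true, [n1,n0,n2,n2,m1,n0,n0,m1]) :: r249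

noncomputable def r260 : List Con := (true, [n0,n0,m2,m2,n1,n0,n0,n1]) :: r249

noncomputable def l261 : List Con := (true, [n1,n0,m2,m2,n1,n0,n0,n1]) :: l260

noncomputable def r261 : List Con := (true, [n0,n0,n2,n2,m1,n0,n0,m1]) :: l260

open Helper55.PC in
noncomputable def t0n : Helper55.PC.Ten :=
  (r
  5504819856743021346171809878019941137633427248008701930634441288888976543978070224830973135129802079544519740230577309037273374031184775994546546970836465426209568936608548192456134792620489156442497545626885351520859479611183878027877368328702427532910250319981149400866880367670630948455057882670603981773272698129378409649981476519811633269270407199591666111725024806742298876232509593144214226261302305408)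

noncomputable def t0 : Tre := Helper55.PC.toT t0n

theorem ok0 : chk K t0 l1 = true :=
  Helper55.PC.chkN_sound K t0n l1 (by decide +kernel)

noncomputable def t1 : Tre :=
  (.K ⟨0,[0,1,1],0,0,(⟨0,[(13,0),(5,0)]⟩,⟨0,[(1,0)]⟩),.k,.k,(.r 0 ⟨1,[(14,0),(6,2),(1,0)]⟩ ⟨0,[(11,
  0),(3,0),(12,0)]⟩),.k,.k,[⟨0,[(15,0)]⟩,⟨0,[(22,0)]⟩,⟨1,[(7,0),(1,2)]⟩,⟨0,[(15,0),(1,0)]⟩,⟨0,[(0,
  0)]⟩]⟩)

theorem ok1 : chk K t1 l3 = true := by decide +kernel

open Helper55.PC in
noncomputable def t2n : Helper55.PC.Ten :=
  (r
  780250529659083604931934295172770947034504306446532610711521394421893256505625550124182143702371102348743551670381652953785021080124211576887769980901779007687067407916366791783298790451498277979275516407126573694889010119295600180011019256512123341408832157559022152873362832325958507541875114117620313222556256941551762387813774698159319452717693544669148529956961063265653324753560057139096354678120368597152914513687433445841707247920681798378951020062258503196999052414601651250586529287612951151746121129688434473766392872412316855397667989228601572538983137)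

noncomputable def t2 : Tre := Helper55.PC.toT t2n

theorem ok2 : chk K t2 l5 = true :=
  Helper55.PC.chkN_sound K t2n l5 (by decide +kernel)

open Helper55.PC in
noncomputable def t3n : Helper55.PC.Ten :=
  (r
  1811433603238446533440622669358427010787407746774344847965733419634268239195234056991357499629601033721717360948520372078241989362517035663605401252686980379543856223514401801191749162539117425725624996973279765003330271157571057111430399240054130856506263855632553546827063662073873626247172363485987253357080861773274532687087462490800315466199539067392743364888550791464782150826790468584774392952186223673218334845059643607206867979760880550157894194460770892414163867616925079754675133574978757386868822078588962262648785827253637523787468420599415533090303322787406465)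

noncomputable def t3 : Tre := Helper55.PC.toT t3n

theorem ok3 : chk K t3 l7 = true :=
  Helper55.PC.chkN_sound K t3n l7 (by decide +kernel)

open Helper55.PC in
noncomputable def t4n : Helper55.PC.Ten :=
  (s
  57847645368880032109719927063477401836417576970291154213842106114148102981318489734220899052294633331211808000356038336001838743704840340481731023179589189585105251997228309076607293648910903963998881320443621961240237282868599799316434900011556841914559464258463626039773747178974108415365085345768222132969455466317713225782748511855664518806758975578983921914736564299634656365405019224182942794460140323868663204713586639781394653444709414544046461253250449921)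

noncomputable def t4 : Tre := Helper55.PC.toT t4n

theorem ok4 : chk K t4 l8 = true :=
  Helper55.PC.chkN_sound K t4n l8 (by decide +kernel)

noncomputable def t5 : Tre :=
  (.N [0,-1,2] (-1) ⟨0,[(1,0)]⟩ ⟨0,[(0,0)]⟩ (.x 0 ⟨2,[(10,0),(1,0),(1,0),(0,5),(1,3),(8,2)]⟩ ⟨1,[(4,
  0),(1,0),(9,0),(3,2),(2,0)]⟩))

theorem ok5 : chk K t5 l10 = true := by decide +kernel

open Helper55.PC in
noncomputable def t6n : Helper55.PC.Ten :=
  (q
  961963335785550362759641905817955184332518638306389362589972009316588574046921030646805003297288266188654401945610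
  (r
  75897864906234714114718454656734085696626641970772607071679798490162236228230869884064180638824821017159193788320327456276118626641023171136503254223314168829599397131409022519907106291840313634370571299812823389422316108573539284680814964871814534074634910128927957251800327841669490355961237772296484386804452330893896364842815476892857804905017604336990932543551962783876696831163720113516093917693466643303980361323580823582403951502903572594778071476211144739230814010381473541518110365869276417659497754598558163958502236102782144019910570959278491172008516640691296573826667485657730144398991052985494770547282714387843120766578301644964854926121931848771015292721560814338003333987255899433327402156450889296591446209)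
  (r
  189568470211694977703172879400741336973294568349749673936995580078332990244367155811452058258851640876619163749532686003010935098446847719015527115386894197288657377503545825391994954944766992036576798433451586283753109377230820160561177747849285050340754382160797621702597300507479695810089440085720041770232484892630622377830592817957469293204974877493147991682610216833781906316816792130804567225272767358375062970794735199470089853786550413112861082738778423049179468383862378432214091677573871973662929172179647438632899667189876405528562331623747437891209509796057313017333840721352278818583332397584176761940275069662176956707287944648877720348286834593299873850483890881438690750623492346022558396934752298766569349697023790337579410964536352961))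

noncomputable def t6 : Tre := Helper55.PC.toT t6n

theorem ok6 : chk K t6 r9 = true :=
  Helper55.PC.chkN_sound K t6n r9 (by decide +kernel)

open Helper55.PC in
noncomputable def t7n : Helper55.PC.Ten :=
  (r
  526667910685952464558119553674660979258368393524416886309306882923153811442068589439400799419863067031708392475402239246549676242550663336131694073828898563547474301390692607737890954851970834274918674993015832342402161407580748301154418699062722152692122875138891974397985670202444907210032182802613280969)

noncomputable def t7 : Tre := Helper55.PC.toT t7n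

theorem ok7 : chk K t7 l11 = true :=
  Helper55.PC.chkN_sound K t7n l11 (by decide +kernel)

open Helper55.PC in
noncomputable def t8n : Helper55.PC.Ten :=
  (r
  157868189592103352171279355100180382474994675094709017085578824502070032749044552004212295262226193384086076428227794387637511283253621503948073250549417889656125500405218704449396828623432527087363506359560754287942765778269763924372898686904217439660380894782097634432335079141903104010892789032404130122754265546063847273003396268415783087298106362188656773128809504886938651956247575246403147400982548164618410586573127500149660367545344439756443842469023170082301527834063142534056359694503194428516991529076504800974369534573913630160523252953780034349134407165645555878230794090731611966639170177)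

noncomputable def t8 : Tre := Helper55.PC.toT t8n

theorem ok8 : chk K t8 l13 = true :=
  Helper55.PC.chkN_sound K t8n l13 (by decide +kernel)

open Helper55.PC in
noncomputable def t9n : Helper55.PC.Ten :=
  (r
  165044006437567493934979889502213536107044774915281118340393776966267607516924208277148185139515379224708966385227430989599755016038548859980066540000164115731034928526165570940529218524052213922721874877917701182884529371519220486999354423625583620408840071839977561882282914121634665266895187583871490911023527330451828932852861943633417847775757485311817828693417517917550841020889352111900712568323149508176635620198364956508503467063438395085460304126055699577868287732278858998183138129765851537102280724307914810474184819840716677953477201438161013769677761159489329396826978819372645501200228993)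

noncomputable def t9 : Tre := Helper55.PC.toT t9n

theorem ok9 : chk K t9 l14 = true :=
  Helper55.PC.chkN_sound K t9n l14 (by decide +kernel)

noncomputable def t10 : Tre :=
  (.K ⟨1,[0,-1,1],(-1),0,(⟨0,[(33,0)]⟩,⟨0,[(14,0),(10,0)]⟩),.k,(.r (-2) ⟨10,[(0,13),(4,1),(4,6),(0,
  0),(1,3),(7,18),(12,2)]⟩ ⟨0,[(1,0),(7,0)]⟩),.k,.k,.k,[⟨0,[(0,0)]⟩,⟨0,[(9,0)]⟩,⟨12,[(0,4),(4,5),(4,
  4),(0,2),(1,3),(9,4)]⟩,⟨2,[(1,0),(18,0),(2,1)]⟩,⟨0,[(12,0),(8,0)]⟩]⟩)

theorem ok10 : chk K t10 l15 = true := by decide +kernel

open Helper55.PC in
noncomputable def t11n : Helper55.PC.Ten :=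
  (r
  40182938004376037304099824994132705008861758326490907744408240552834798568609246170643717644476646664746534762178423228594588476425297880190038987128529664170042281239109711961465566206234444711587816224184570699856746371262178325496981978930128009533354166650202475112185219128525191932304648390942490583818282216450236615897603040675026267051139206295891201022253501820183615630890948748085025418944817391761391425325076688962026103410342408256374093287806548443916331438548069630064926849681081743768885612635871959639034028201435911865241716944456594149759978417700063194900305744326952385201035409256148786480582876580272990370581443967621776648672770212422728665319526050823753023422894012989432545)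

noncomputable def t11 : Tre := Helper55.PC.toT t11n

theorem ok11 : chk K t11 l17 = true :=
  Helper55.PC.chkN_sound K t11n l17 (by decide +kernel)

open Helper55.PC in
noncomputable def t12n : Helper55.PC.Ten :=
  (i 324399716250948976594437980422152 (r
  120921868546338368902309585321345360335641267002998864982338820139012143958856106335882719291246335398723800280031781101989835081847459221977651972916923220686535431848040347444201881357566326036350184016903192313495562547697350025293661668811133831958631121229277417734626662031456222882858654397241303989750342583947690052940453890042211118167299167164768942931360323189755597893759666136950556283297492967334332585513576193502280001589221115680789531234436076581182424459066041835835476253211589056272816643114049331740925397969068695184391943906198259384647118019601118635529250742534214287420925021131073231755212586353017716549813919412660096251507359958513214177)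
  (r
  2230614761989052739637960819575053238554590312462036349236951201571519623937221046800933287071014520558956566515954475121122201614592236591023799826310355615864209573333389560990226648110370733262929800032543442434844457760136426391439985262973830482754853425988036836885095162962450626224445462046130745659942297621142652080626400165305162331165079673241313544533111600305498824722359516858288823248093572310969387755079408430457661431586460820858645580473888702881188333527774335684937545653375517183312970514374032377327030325757989872528662961441397666748029937015513474035667298276200934054436027689711628920350036331666792820881732640967959266369036153028636995835005747867296719585))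

noncomputable def t12 : Tre := Helper55.PC.toT t12n

theorem ok12 : chk K t12 l18 = true :=
  Helper55.PC.chkN_sound K t12n l18 (by decide +kernel)

open Helper55.PC in
noncomputable def t13n : Helper55.PC.Ten :=
  (s
  331272081387293997078841303126578011239708346189453455980147713760564878200135951064805595047578767955498378544508178443018830759908930248783895020909705106678827588105389831467704538928489173050383345146324529790359232185593449994044661199364287747804087830541759566945671329066623934965137001271233313416502161893200066158879783494101724678197760721770449312865084192346406264670627171338361939613759866686759535161071193966050030464166473504717467057293238322684876554753)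

noncomputable def t13 : Tre := Helper55.PC.toT t13n

theorem ok13 : chk K t13 l21 = true :=
  Helper55.PC.chkN_sound K t13n l21 (by decide +kernel)

open Helper55.PC in
noncomputable def t14n : Helper55.PC.Ten :=
  (r
  4974042474494999880911132838727415544424318190222907210476831947737333223048499283007178295336710440423644167740886942115905881253958595809182636401289720190401544093900848089034621419377859518788738174097148707033032904910625420083462332352701542693766703939222148469390397823130897464465582538693061619286381522778250250647847962988795801455447896389417250881360094027789271162629065739350294016365849643745431599596627096896266939390845014485814590803045428640139433850779905972549129263864259120562404203848947628863358792080473797634406754509625655260485027467713706620616669234344028012142888829861007489161201522555949718528064594000555618809408675801544533285231436906451463476193357488602718750570663445665526860697297089)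

noncomputable def t14 : Tre := Helper55.PC.toT t14n

theorem ok14 : chk K t14 l23 = true :=
  Helper55.PC.chkN_sound K t14n l23 (by decide +kernel)

noncomputable def t15 : Tre :=
  (.N [0,-1,2] (-1) ⟨0,[(1,0)]⟩ ⟨0,[(0,0)]⟩ (.x 0 ⟨1,[(10,0),(7,0),(2,2),(1,0),(11,1)]⟩ ⟨1,[(3,0),
  (8,1),(13,2),(2,1)]⟩))

theorem ok15 : chk K t15 l24 = true := by decide +kernel

open Helper55.PC in
noncomputable def t16n : Helper55.PC.Ten :=
  (s
  376779642466968113170288083261633132161725379629010191364712049629898597493492583832073765872327510036842541017045261712971653172993547599769615250750456240422343061364006592660358087293807858195884817197625721181842688575537613571526370127199026889234791219264549927544055652310650835232844525001346178312890283151189922485771453863272247852229720925922016256205935714325686503323542510314583204081683693695749824745838793410976632492604246327296513)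

noncomputable def t16 : Tre := Helper55.PC.toT t16n

theorem ok16 : chk K t16 l26 = true :=
  Helper55.PC.chkN_sound K t16n l26 (by decide +kernel)

open Helper55.PC in
noncomputable def t17n : Helper55.PC.Ten :=
  (s
  47850572457796395746548463156783815828206511352986568874357197149158460024157167375436265892841277630696776369705459725781008463616060384735014876569079746320128892237226643917605495974737736074196695765178131644924988550254197579274652075847916301398952517684786059065851180441515911998087495027189026255698665842744127073958966510850824620968053631005644348197980189762629023146467537104949530817410048982933192167369657394685023179768321)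

noncomputable def t17 : Tre := Helper55.PC.toT t17n

theorem ok17 : chk K t17 l29 = true :=
  Helper55.PC.chkN_sound K t17n l29 (by decide +kernel)

noncomputable def t18 : Tre :=
  (.N [0,-1,2] (-1) ⟨0,[(1,0)]⟩ ⟨0,[(0,0)]⟩ (.x 0 ⟨1,[(8,0),(7,0),(2,2),(1,0),(11,1)]⟩ ⟨1,[(3,0),(6,
  1),(13,2),(2,1)]⟩))

theorem ok18 : chk K t18 l31 = true := by decide +kernel

open Helper55.PC in
noncomputable def t19n : Helper55.PC.Ten :=
  (r
  4974042474494999328681484773946185376354243822161029843308140160300360004202504494148636166316012978959355083769931012443677180561506041276657598692701364597489227658119515088443996924059330298472754177106679877554915820003811087996977371899025890075214552396736232590883865235084042605753958899449830545413093760898292558486198866819327243824133268870365925160045453150907608625146510166669682439071938065441091148641219110490680844488299247778310866401139767460879651040231104086837924455668438475312646997983413565398658349647616575875097162680125303108430055829102488219983920153121870443127856336846721515048980495518430854980590640726054108468091395457316715238315276935762442555569680110992614553572804046179297631272689857)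

noncomputable def t19 : Tre := Helper55.PC.toT t19n

theorem ok19 : chk K t19 l32 = true :=
  Helper55.PC.chkN_sound K t19n l32 (by decide +kernel)

open Helper55.PC in
noncomputable def t20n : Helper55.PC.Ten :=
  (r
  31744302030585456378799339731708383555254986424230205202739212454640611178568932969450164965903068860577746889840086126176356357731586190837457166564925390163296185487251135698651578814989542493101178060151926607993339958983090535964949477510725712528281190783023808611909871888048068627963329815913243313346606196022900440986007146051408746684852199344955388552079924275833412113081039602691902576238297826773957106412704796470233880706545997131328086283744142667946905001318570595104326834487833228601520316299889808859833673730338642500472607941571940941969590330785346829961498060566291073)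

noncomputable def t20 : Tre := Helper55.PC.toT t20n

theorem ok20 : chk K t20 l34 = true :=
  Helper55.PC.chkN_sound K t20n l34 (by decide +kernel)

open Helper55.PC in
noncomputable def t21n : Helper55.PC.Ten :=
  (r
  3238485478085797406156165664963726342080583324772900238245682198708316216568078277712863077639558895282752148172866309722139764834155822577767485043053540952529452542177318236472964291341878794637405435934368104214400431427700509361063531549602625805993473463444692756813907460039513381386924144823296611229928689364240179401)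

noncomputable def t21 : Tre := Helper55.PC.toT t21n

theorem ok21 : chk K t21 l35 = true :=
  Helper55.PC.chkN_sound K t21n l35 (by decide +kernel)

open Helper55.PC in
noncomputable def t22n : Helper55.PC.Ten :=
  (r
  17258029688151603242657772373004183606108414529280033865412503008969083957508335425836190662598724960318068010950648895591217279929249537714692215850080649962303417451719054251429563992783788882509300403345950091774269500264129704226285780215142878823142153600951732577319069895277947965986147266890511483150537)

noncomputable def t22 : Tre := Helper55.PC.toT t22n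

theorem ok22 : chk K t22 l36 = true :=
  Helper55.PC.chkN_sound K t22n l36 (by decide +kernel)

open Helper55.PC in
noncomputable def t23n : Helper55.PC.Ten :=
  (r
  81750242911876875055608767724875955898398832157374942407224557478766035608127775774567376975785146383502480130273265199479665637287166433935331231940800389874912952224018864058148063408129043158219437275923628701977201678786761037034069822853401150182752375330666289271204522843360660245975933129)

noncomputable def t23 : Tre := Helper55.PC.toT t23n

theorem ok23 : chk K t23 l37 = true :=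
  Helper55.PC.chkN_sound K t23n l37 (by decide +kernel)

open Helper55.PC in
noncomputable def t24n : Helper55.PC.Ten :=
  (r
  1421351662369661426674556372638899388285870070194482598101018836750421735946828931541286710379983013083942804573603142527310201966832079030777621145061745221709459283721195032538369363864258780324982739224769232598244015704379839384335823109206441384839570374733405117028815244398235368277724260797729255712415885859201627837579969991295137050837575154154807460043407396081055343721702719255649071354764651568507294656552968940074953005698819176837238936275564316694984891843285793261635995011094700796322058148637387434191071506984664341700766874503304454771767084960633968770629851230386469503583739054466237848730376240580272321)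

noncomputable def t24 : Tre := Helper55.PC.toT t24n

theorem ok24 : chk K t24 l39 = true :=
  Helper55.PC.chkN_sound K t24n l39 (by decide +kernel)

open Helper55.PC in
noncomputable def t25n : Helper55.PC.Ten :=
  (r
  216364592266339004829057023599427120222925028598335535982949447625596370709429912677302514144447648539538339111975531259117911374143039602521486983772825119527204518690392659491022933768397282497366416188314638964087904918994933330867594029836547779355139628350330640640975247614573367129361474316262427382037820288011672700544176137298107315586115543536363519968952809346421873458012577385373831061274729086548846976723128669053783844595009287234875944928485122094240520193137166676625338294441581102088207814161767571490051658539609846614183576224434843220922346501796706667999293862838018785)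

noncomputable def t25 : Tre := Helper55.PC.toT t25n

theorem ok25 : chk K t25 l43 = true :=
  Helper55.PC.chkN_sound K t25n l43 (by decide +kernel)

open Helper55.PC in
noncomputable def t26n : Helper55.PC.Ten :=
  (r
  394084245522143267682780527994153092967724132402576449846462657077899520647285961584133650359637151716195884468944213060769374636524622880620578688214151802457000830311886710511725678841824461362568391514360788366355074595029367945085909950182081301326326168210588818230288269650846254984171099189163685352424196346040633336629297537740160615759301588311683930084382616220754177777725140193934392022539543399682231828843977490869262374007062462427739466056622931356801403248082410782775975937028949206799766970007263049359735443912008057374962561556174828913684197783061477896524420617455933600579827125487546845354191943321777954329882739127565485319745944993536665107113534443502028614350181115969142196912261729585890659102135410977136154760933088726606017)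

noncomputable def t26 : Tre := Helper55.PC.toT t26n

theorem ok26 : chk K t26 l45 = true :=
  Helper55.PC.chkN_sound K t26n l45 (by decide +kernel)

open Helper55.PC in
noncomputable def t27n : Helper55.PC.Ten :=
  (r
  2500407235344049237409033146407704221907280645067883343369964244842498169733202688477802600210991783952978148859570170376168927755382738006001256111086896690209091874476231465309230249130616424479249634700449124756196902664000359168837825149007329028709402590197613080439148616732094732278846304761212491351530374002489075769713203599680526843871224735130113153432451860015303364274055734070289883446448277249971658480542245142873363330489786998416568095858769114723296574842019712850038023474844157945395412582469369209217765643324969082403078561120368786163255241988305014017229220517905024369441369106548366899565580215271053126876407783616)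

noncomputable def t27 : Tre := Helper55.PC.toT t27n

theorem ok27 : chk K t27 l46 = true :=
  Helper55.PC.chkN_sound K t27n l46 (by decide +kernel)

noncomputable def t28 : Tre :=
  (.N [0,-1,2] (-1) ⟨0,[(1,0)]⟩ ⟨0,[(0,0)]⟩ (.x 0 ⟨6,[(4,3),(3,4),(1,4),(1,0),(0,13),(10,6)]⟩ ⟨4,
  [(1,4),(1,3),(1,2),(12,4),(3,2),(9,4)]⟩))

theorem ok28 : chk K t28 l47 = true := by decide +kernel

open Helper55.PC in
noncomputable def t29n : Helper55.PC.Ten :=
  (r
  1971494854797626570067519889117485630144249011718331865989187838770305226349485977699431621631738274205024213636748827713499571550034147612199845820116771220892222699315595292746162724560346369594390324508122036938382190512354225073455719801014917613689028292148851013399653278012099128690762470657132527096351787996135442742009598519730576210050566205462783325705039154525356236366136861865701743697372980759085019214590407226286322865903630345823227509255019109121391904396078762838748579654444315803153134439144167453208864108717795116318448234509529156137301959445068541343774441281319330016)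

noncomputable def t29 : Tre := Helper55.PC.toT t29n

theorem ok29 : chk K t29 l50 = true :=
  Helper55.PC.chkN_sound K t29n l50 (by decide +kernel)

open Helper55.PC in
noncomputable def t30n : Helper55.PC.Ten :=
  (r
  145975194527638362510625248813575285798326464611471453374861021293304648434640219352032617726180479486072981531312445726750781375556202818551520236015375775278841177248685324876567880868173116376544453408616338694336288523309460302754048292669516222296549367811976421656369185433958352268499799351646340893677978390424049315358534078397214371921095507976950928277821435637737453534279833742958083255986144063736455965548367563922771082586380157086133804356605964046713482428519047117853436549361244845504529016919728205396976633441131665445407517611006746630934451970272)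

noncomputable def t30 : Tre := Helper55.PC.toT t30n

theorem ok30 : chk K t30 l53 = true :=
  Helper55.PC.chkN_sound K t30n l53 (by decide +kernel)

open Helper55.PC in
noncomputable def t31n : Helper55.PC.Ten :=
  (s
  2244838317639984660401210652072018465348427527830776693976265272607483578283377350191009690379180897362816021101411383258426879014034073024362968669233772257366908655667154357069671731374766103968375189044702337271313561036476513004770975896620987651910404808832767250213156708177856553310061041009015256126303380823548774325452097362843797081055247845519329368263189673729307450794719173228224226640023111789599798713572517291496763877516280279893803521)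

noncomputable def t31 : Tre := Helper55.PC.toT t31n

theorem ok31 : chk K t31 l56 = true :=
  Helper55.PC.chkN_sound K t31n l56 (by decide +kernel)

open Helper55.PC in
noncomputable def t32n : Helper55.PC.Ten :=
  (s
  860047897190458470415627240613836358110694329229221987030254397549504351921672836083691928820397939043723299652680012469893465906538641695208769668130557805472955721029159643459138256291148425031411915603300570511980110791004751311086103397835566221887576458980103489538715355430064932917856709265761475020320456629664455004513716881259973856405424839053080128870116492437846667788195034913558959172927338061760381537533042779403295198237573613618223160132066130263049162720189287532373724859924543922242049)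

noncomputable def t32 : Tre := Helper55.PC.toT t32n

theorem ok32 : chk K t32 l57 = true :=
  Helper55.PC.chkN_sound K t32n l57 (by decide +kernel)

open Helper55.PC in
noncomputable def t33n : Helper55.PC.Ten :=
  (r
  33237228701263303338117286694240474724124142428299308218743408104721399634355918592005990236185134472159055794767498500455897203110003527381250689407341844339449300802064577666436683810406748180030443162482134934681535096875469188651860192357848388447466996102533596336300342777643210829491913458001741308267455309511105987976005009464338396779296567475858501104984064685403971813938405995440289052285908659738381378140746249598906810206903805473624267878272169580806203658582234006087831110708168204949857638615871034983666727936042869303656737392535097606664527032824809572374421307423771663920789949943737453002396048510086686876516962094262553904390576673364862704244617897185)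

noncomputable def t33 : Tre := Helper55.PC.toT t33n

theorem ok33 : chk K t33 l59 = true :=
  Helper55.PC.chkN_sound K t33n l59 (by decide +kernel)

open Helper55.PC in
noncomputable def t34n : Helper55.PC.Ten :=
  (r
  8935226674755041230365382026313209182041392630031135827096366980535434502970411099965549762777770726374004319770728902071474968077035658376189195730551562272610916952469612458680196078435788644244337517362432196920769522626078977149240014073143875790669881311241789129101465633798136159192475704044120178716843158058362590912615363948204360411070167690420143996696824123719548027967986726943982022977757233687893820842609692437057747090913546155511644349809864248058892935355925120614344840321769874383231365149431625641632092632714483713882759475183106135750821405253676828181871659613151285218692071940737)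

noncomputable def t34 : Tre := Helper55.PC.toT t34n

theorem ok34 : chk K t34 l61 = true :=
  Helper55.PC.chkN_sound K t34n l61 (by decide +kernel)

noncomputable def t35 : Tre :=
  (.K ⟨1,[0,-1,1],(-1),0,(⟨0,[(31,0)]⟩,⟨1,[(0,0),(1,0),(9,0),(3,0)]⟩),.k,(.x 1 ⟨0,[(2,0)]⟩ ⟨3,[(4,
  1),(1,1),(2,2),(5,4),(15,3)]⟩),.k,.k,.k,[⟨0,[(0,0)]⟩,⟨0,[(7,0)]⟩,⟨6,[(0,1),(3,2),(3,1),(0,2),(1,
  0),(9,1)]⟩,⟨2,[(1,0),(16,0),(2,1)]⟩,⟨0,[(10,0),(8,0)]⟩]⟩)

theorem ok35 : chk K t35 l62 = true := by decide +kernel

open Helper55.PC in
noncomputable def t36n : Helper55.PC.Ten :=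
  (i 324399716250948976594437980422152 (r
  507167600160225451029554715478346599874192323977845290691374001354086054214958998297805787420678066574606803727521863890517128282546628050622134615126735270947297355720414133539067228000439980600590945782065395969046009422737148242474862671155021080482139447217468022996036329011734265913314803730987092727702895885414850040875937309720815539391713893083265043516637029005450033607031193792762388438283634541672172999090328582362153933869055293970947804876541569599242787616789206406901950372753301453998554869131293665347016439325608972748063526861742670210629869834855151885301102922085936173573893920022016927802063686694258424713868975012256941412615534921012647946872033)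
  (r
  142754988443498753042598266956813673602249768691242247917867143339734421918379661831044826761221930358043244368284699887844353015898073666191248629804490744395749201176589580574816369548149731510872476903517717726517188282939073528183744972370876095944469195066188625056979521148391839413561450419739906528157630746109515857073054875152161024042313706139082109194136131466604839441143115798409812832158045428943367760849358814246348977172403613274500390415003950914495941844854833602087736656925862268572557953283302596815158091272276948549792566349912570027135300698937576297209435740241910185369140401853858267567964772883873506217580126431356117188384674212497030441359023379998050084065))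

noncomputable def t36 : Tre := Helper55.PC.toT t36n

theorem ok36 : chk K t36 l63 = true :=
  Helper55.PC.chkN_sound K t36n l63 (by decide +kernel)

open Helper55.PC in
noncomputable def t37n : Helper55.PC.Ten :=
  (r
  3866995958206720015559566958803707934231340457570460066616588094906605916740041179272619520608317967861588888079744989832554350185198313440638409174425436491897232394193895961781927907058414869980173800973040993953799149931610320582055559621827578843399370875717002450564078836711660957405540962877931596841854596146701526120726718720840279912009160450933255284840290501121496017032005335760989356260114893049537696376498097181351930093088385165716953218790394096525536721385493141330087723969493516373223157736955584)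

noncomputable def t37 : Tre := Helper55.PC.toT t37n

theorem ok37 : chk K t37 l65 = true :=
  Helper55.PC.chkN_sound K t37n l65 (by decide +kernel)

noncomputable def t38 : Tre :=
  (.N [0,1,2] 0 ⟨0,[(1,0)]⟩ ⟨0,[(0,0)]⟩ (.x (-1) ⟨1,[(9,0),(2,0),(2,3),(1,1),(5,0),(5,1)]⟩ ⟨3,[(1,
  0),(5,2),(0,5),(13,0),(8,1),(2,1)]⟩))

theorem ok38 : chk K t38 l66 = true := by decide +kernel

open Helper55.PC in
noncomputable def t39n : Helper55.PC.Ten :=
  (s
  11224131645627733071562686195376965523506478657594988053037059553835496316431947048105098406363794767994812290692162414907423762368461203217677199347545723767536967257874869473352383667196808075794403904950055466226281147453412437154550287204086207661308508047610124844456913917186536885581444752819256275028766603634178972659928201456471715502685476346885999063998040862346514683768818369884348864935090250847193836768788241898961612351390352636411642369)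

noncomputable def t39 : Tre := Helper55.PC.toT t39n

theorem ok39 : chk K t39 l69 = true :=
  Helper55.PC.chkN_sound K t39n l69 (by decide +kernel)

open Helper55.PC in
noncomputable def t40n : Helper55.PC.Ten :=
  (r
  33237634415533088794561775605719233160308883001029516820348590863137386846096426048357198114758273111258556350222997997634323855921981358216707909191024947041365186977395649299388835502340431371540944964952668659635052948236623645704915163725516066413431893674559399675266994170024896144396474741280457394076686576613824621769217884516491020098525001443845456020127817687458934998427068548696599985945609930755464010606560386826617318585434936166585129793792655324935802169711325550062237609353197727912356607335292323116785713754028214189455603285932856440627852106054924251137539734767129847488300580146853304682905604913106722051465403815720611257826641608365377069872752354529)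

noncomputable def t40 : Tre := Helper55.PC.toT t40n

theorem ok40 : chk K t40 l72 = true :=
  Helper55.PC.chkN_sound K t40n l72 (by decide +kernel)

open Helper55.PC in
noncomputable def t41n : Helper55.PC.Ten :=
  (r
  3866995958206720015559566958803707934231340457570460066616588094906605916740041179272619520608317967861588888079744989832554350185198313440638409174425436491897232394193895961781927907058414869980173800973040993953799149931610320582055559621827578843399370875717002450564078836711660957405540962877931596841854596146701526120726718720840279912009160450933255284840290501121496017032005335760989356260114893049537696376498097181351930093088385165716953218790394096525536721385493141330087723969493516373223157736955584)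

noncomputable def t41 : Tre := Helper55.PC.toT t41n

theorem ok41 : chk K t41 l74 = true :=
  Helper55.PC.chkN_sound K t41n l74 (by decide +kernel)

open Helper55.PC in
noncomputable def t42n : Helper55.PC.Ten :=
  (r
  247893823658176908752045593396511485322053916373446970704016676748264502124544336689872454357705355509680981731130232682186982100600609114617889070622116872698272572733350171398794312718271936471855607028520000636869017376684477002532361440552739039357671572925846519701796235633377387659939846422142031480425080060039422391981765919919955139646864517001854355469733182687882637640778848468369079283617876593612268642920479372554015443676476898563660167126601837340834782020232690671587649966891750089681982947602318815420096)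

noncomputable def t42 : Tre := Helper55.PC.toT t42n

theorem ok42 : chk K t42 l75 = true :=
  Helper55.PC.chkN_sound K t42n l75 (by decide +kernel)

noncomputable def t43 : Tre :=
  (.N [0,-2,1] (-1) ⟨0,[(1,0)]⟩ ⟨0,[(7,0)]⟩ (.x 0 ⟨7,[(10,0),(2,4),(1,4),(1,4),(0,7),(10,15)]⟩ ⟨0,
  [(0,0)]⟩))

theorem ok43 : chk K t43 l77 = true := by decide +kernel

open Helper55.PC in
noncomputable def t44n : Helper55.PC.Ten :=
  (r
  367097363670466850445647639179031827444594811072389456302412114879522315312637018481115554055685175495057565206912487897427082989236387592882986707592929038709089254027637921336151156432972364747883160277210058300807907054479683210918007865033821924380083000585759312555450038067648313933086695302306331259632394478937271733283220432289520778346455847068756425716979666650594512586258705193075829846766011654897503623946807295597748239151005158993473595779284157981784142570859423960109017704589831754514514328389157718807490054053973171735922241986731998463965012193)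

noncomputable def t44 : Tre := Helper55.PC.toT t44n

theorem ok44 : chk K t44 l78 = true :=
  Helper55.PC.chkN_sound K t44n l78 (by decide +kernel)

open Helper55.PC in
noncomputable def t45n : Helper55.PC.Ten :=
  (s
  5054810813360898980302704213933567411571845340587649454478681918974418206672624252688306342614835338696964551653644745859440349594862201725583934165358129273195412802217739872822702550312697740509389503505709904487371209188534110194106846277574669577515424828137740000172093517156006946833241421353934752359513663228024190548632568252634126981600170540281346046581778104165852155507438012044483170821482149943826847814701648419805435812921158167477965990936325508825601)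

noncomputable def t45 : Tre := Helper55.PC.toT t45n

theorem ok45 : chk K t45 l79 = true :=
  Helper55.PC.chkN_sound K t45n l79 (by decide +kernel)

open Helper55.PC in
noncomputable def t46n : Helper55.PC.Ten :=
  (q
  2974804186093741305842622822662946185807079856478311096480796066799962152645759395092667981351774201186263090831488509149194
  (r
  43033319423018840435823128931140989168089591275788473303575376380306895434480144017773858580234518215034648821329872374244154451161945460751478080873947575255605252993988328780404052772709200372650385638499273350460089617603179715578865344766043089433942186123502896386359046205881583378497161822087308262731162081357067983200354998489764213661937072314482426698152912030513624332971796220310165036931958840651626570979856011513246667871265771884144960281600550486829855891950959188968041858302337707764011383032871139736539596273757849004948365535079974548195188591243254074926825240462508342857968785874949744827042819402846048654816121329097461826468753832531187390119773231664924033984210095702433959088544725408548116678002136155618497952924056674497)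
  (r
  10187460918589164709097499072372063740740722610783111991608925186345989888372616262207731674905582213006459701288812567325139589147427520745771064457786945038208525189529485998731292028068921516207432926705915849364235925440777291784518116150397592157169554288048928599076595520363119010354089486540802855182859569049047594204087143192658178555205563260785218684505875036966849040439808676818651588953252199843037374422883846634595941742903283912646333223930785207777964151741949294398994042642863823426346670265886212070185373161772503584685867450227136358610256389930451552228746727177671240727060935631943352739271869024639431012504771453639129818077018132240053807897195233660336147100698799737825159824050809822752617962306003137))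

noncomputable def t46 : Tre := Helper55.PC.toT t46n

theorem ok46 : chk K t46 l80 = true :=
  Helper55.PC.chkN_sound K t46n l80 (by decide +kernel)

noncomputable def t47 : Tre :=
  (.N [0,1,2] 0 ⟨0,[(1,0)]⟩ ⟨0,[(0,0)]⟩ (.x (-1) ⟨1,[(9,0),(2,0),(2,3),(1,1),(5,0),(5,1)]⟩ ⟨5,[(1,
  0),(3,1),(1,4),(0,9),(1,1),(11,0),(8,1)]⟩))

theorem ok47 : chk K t47 l81 = true := by decide +kernel

open Helper55.PC in
noncomputable def t48n : Helper55.PC.Ten :=
  (r
  6771751117762584072427859524335859487342282528335752332061459237808231458413671651090199496568409538597517120567941737759258697803123835236258402977514990940863687690213570273954879969644631869875156329004394165877517625672645534601928181547612310183854648106141574529574148982838894878183051525057135019330620256622900056386915803980039477590619886846063124004908256412671873931404308653281421622774191443435576541875932044187630287843305889091883479745370707967520084877620300777698800167567459638624753833453547588981285897844250387655320783946857661376605395416506896566826046333153)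

noncomputable def t48 : Tre := Helper55.PC.toT t48n

theorem ok48 : chk K t48 l83 = true :=
  Helper55.PC.chkN_sound K t48n l83 (by decide +kernel)

open Helper55.PC in
noncomputable def t49n : Helper55.PC.Ten :=
  (s
  57847792527570640016898257237359293355455774518546854369436169117998794151387039286510548815572057865099766182139211555783260486320861083731613618138351396591431402321641641629143064902678996107460547306844690646317588566557527952382936357789298198229840728695901757950090600479718440189463666345084720718263510684081913838204162984807808163209725594318638566673922848677247436965887379449213229495665509949095462217820363727252748477759684118374834544604060058113)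

noncomputable def t49 : Tre := Helper55.PC.toT t49n

theorem ok49 : chk K t49 l84 = true :=
  Helper55.PC.chkN_sound K t49n l84 (by decide +kernel)

open Helper55.PC in
noncomputable def t50n : Helper55.PC.Ten :=
  (s
  28924043391049578703530184095284965606691071872516516695715317838001939754551943018637524475419203988227826911270190962696985644136132967935082343534490330837619390173863538585851072722937763634467375121088417666208785902172487373685647552481076409208454683427145785041410161990952678832397083682916566371768180584872701495032424788785097938171784467801456870583634781244264173819035243043726505723066063992221887505886751901762887671215647595566514534516826046977)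

noncomputable def t50 : Tre := Helper55.PC.toT t50n

theorem ok50 : chk K t50 l86 = true :=
  Helper55.PC.chkN_sound K t50n l86 (by decide +kernel)

open Helper55.PC in
noncomputable def t51n : Helper55.PC.Ten :=
  (q
  971582966204592052012662367935857754597686736611574164482906043782421155683512039430203095446610125998776878235658
  (r
  25826705114539181190858704682624817100723429750563127639794458987368246197573168096381891143945670658773757501003257984888776992607415221791058144062336115465581770262932991601192374755765751440643775107599915334160727524326119675795521447291031306253571738238529367125793348272443320794548434338200529461175838776670922206761498457149455351775202913794642882938879638006661819752977549178359465964054107913038293269524088802951754730581185576931112370339720973880793061753085059389163649689543494624226964961071338524853514371635535378657362347314059056288611115587414150345627984797615745427400548427331883028523987538510681346727241699476101424662768978476356554000149611295941017902774048281408694884823078452074942324161988841791112120935700333103730666496193)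
  (r
  2867515324800603316136972831924500718275849221494886697359280807698414741323617500507166537462219769612210881482534904791868218052867254877319099892561398780829245502649988275558480136245646629038708847462503121089851569322245897346440776935544538675057509288284486572871669254944891519870659167088995856087269766062079055794680595865377488405135712698605045938145494408666471119729380361629559844208401370618280584757623936366981663876030085248066681729274191926942483178045385406578410744469418432241128188328212225345114603528470074841389562583311605466165059413656830819155290603007486331397700838498205524432063678615002813094155584486634408040982997629571535478202192037957042270632642269284815383629218926801227138345763863291914414172397761))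

noncomputable def t51 : Tre := Helper55.PC.toT t51n

theorem ok51 : chk K t51 l87 = true :=
  Helper55.PC.chkN_sound K t51n l87 (by decide +kernel)

noncomputable def t52 : Tre :=
  (.N [0,-1,2] (-1) ⟨0,[(1,0)]⟩ ⟨0,[(0,0)]⟩ (.x 0 ⟨2,[(11,0),(1,0),(1,0),(0,5),(1,3),(8,2)]⟩ ⟨5,[(6,
  4),(1,2),(0,3),(3,0),(3,0),(3,2)]⟩))

theorem ok52 : chk K t52 l88 = true := by decide +kernel

open Helper55.PC in
noncomputable def t53n : Helper55.PC.Ten :=
  (r
  33238040129802874251006264517197991596493623573759725421953773621553374057836933504708405993331411750358056905678497494812750508733959189052165128974708049743263107279222382714325641790166382672107923966803184239849644696816297176964190670791287500024924879425041685539060042643429799765643344742350404417715828431891380670209447027444415758080524656002746013301531400323274997754860955957822961781220691260688494573605630282470289971107011053431252328160223271659600092667048447269920035649356262884408452611566394983662382585767959993103313422889142798650229303838040879176857060647094425438144448132689752282422976846419349234807095926597199144761157995515242542905247099774177)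

noncomputable def t53 : Tre := Helper55.PC.toT t53n

theorem ok53 : chk K t53 l89 = true :=
  Helper55.PC.chkN_sound K t53n l89 (by decide +kernel)

open Helper55.PC in
noncomputable def t54n : Helper55.PC.Ten :=
  (r
  16608621174262048796932509652095518675893352408721594320809353483104609969598780536973252018603725086359060950708384506729054775759235587777944215906960709954810088407342202955960443856972004587124546274100869557657461743175825305657535691577348825134545399010285641336134776779037803317229079746103635148993061688357321924132436293441709482523287045409943299847440063328021351030535168424088663185262108634886823787742790972056057079937220505275669718474274497099841087949774181054366122142697557092527673332228900643425509056)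

noncomputable def t54 : Tre := Helper55.PC.toT t54n

theorem ok54 : chk K t54 l91 = true :=
  Helper55.PC.chkN_sound K t54n l91 (by decide +kernel)

noncomputable def t55 : Tre :=
  (.N [0,1,2] 0 ⟨0,[(1,0)]⟩ ⟨0,[(0,0)]⟩ (.x (-1) ⟨1,[(13,0),(2,0),(2,3),(1,1),(5,0),(5,1)]⟩ ⟨5,[(1,
  0),(7,1),(1,4),(0,9),(1,1),(11,0),(8,1)]⟩))

theorem ok55 : chk K t55 l92 = true := by decide +kernel

open Helper55.PC in
noncomputable def t56n : Helper55.PC.Ten :=
  (r
  1619267451627312459687314831620293312607298156507149452513521436050810156193853314257807283274290106626432598886463186100621930346771904836792236154429584506004469947364662894993634056286772090845957867345209596805232839076715342826150315357942985111773408080081382076351747944604007484934158760213893611115930993368937275593)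

noncomputable def t56 : Tre := Helper55.PC.toT t56n

theorem ok56 : chk K t56 l93 = true :=
  Helper55.PC.chkN_sound K t56n l93 (by decide +kernel)

open Helper55.PC in
noncomputable def t57n : Helper55.PC.Ten :=
  (r
  49415366792080648905682885369500495643086782372192069695038490273293798365010865772075845669588017869613054545753299314951394996145019775627191479864622623160324354395807543601860678299715146146900136972258961474667974155009636099722792087201705485716347725013681485049190138729737686867213277150806777702418085302771913)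

noncomputable def t57 : Tre := Helper55.PC.toT t57n

theorem ok57 : chk K t57 l94 = true :=
  Helper55.PC.chkN_sound K t57n l94 (by decide +kernel)

open Helper55.PC in
noncomputable def t58n : Helper55.PC.Ten :=
  (i 324399716250948976594437980422152 (r
  2178288197946761166913946551399087577267806114529917365253162508062121922254401274164570095178967400471465617370546011820048417340388749413722693892486466747973499452448330453369560394604916456473483310906711310917607567790241864408731846914541732357258418086909171924831639149567797877387468333803482563116703687147754553053556424284132845638239464543494165024361966264162321168769302747745746572124855287072578136171130234596038219665980110988609787803877561102753979513906836101713401652568083263276022432289714906619903359073635617305881454269167911796441984701931071259059772194880091952952964111627732585706247480065191543791298564582189756603731367019643528328899925487627527393)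
  (r
  9355676571444113561018197684551064188605100295574825497344819732700149992447308064597558280693272252075079807794944634430337389613528978658278143881248314805129137118096824018875318489096279432374524696874778313886227615615430553040283854416875896500454479619774899995373066591180188311368640070687848901178201181071259552726776756777078307480116232062785678333004297476989047125951515797794385452628075409589263765802897069998003971939947631643344171998225559690780406543415084782563191230264159788914800548706974125080833091288264591692606365272396359576519781366672832266809557795313757129249016310831995574071359287950598629258776101290517432008495739285503598931036852816885232136707892449))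

noncomputable def t58 : Tre := Helper55.PC.toT t58n

theorem ok58 : chk K t58 l95 = true :=
  Helper55.PC.chkN_sound K t58n l95 (by decide +kernel)

noncomputable def t59 : Tre :=
  (.N [0,3,1] 1 ⟨0,[(1,0)]⟩ ⟨0,[(0,0)]⟩ (.x (-2) ⟨1,[(12,2),(2,0),(2,1),(7,2),(5,1)]⟩ ⟨5,[(1,0),(2,
  3),(5,4),(0,9),(1,0),(11,2),(8,0)]⟩))

theorem ok59 : chk K t59 l97 = true := by decide +kernel

open Helper55.PC in
noncomputable def t60n : Helper55.PC.Ten :=
  (r
  8096090133800600110249830227976997783603725902054168764115940926848861304191024247740617063835366143069148751417417453689679354943121436723730012319158932900276178399007581914177544306327692129105843163508633041849571666482454898475566121187991264009165345641452093057836287068555441508695549448249471855095100591333773680841)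

noncomputable def t60 : Tre := Helper55.PC.toT t60n

theorem ok60 : chk K t60 r70 = true :=
  Helper55.PC.chkN_sound K t60n r70 (by decide +kernel)

open Helper55.PC in
noncomputable def t61n : Helper55.PC.Ten :=
  (r
  458885985957546385508284521009328812890239660093600847070828104695578039971074442293530409220172750016766786274861715283849635057272252253639877369360650708630401297834039916533855959117660877210564387511716173898589176140670838703346773904292312237813200528492793103076284964601324103759913850810689262310382147451825457954497726216208458214985149642239686039165629492821279475967212533849033567783405980206625739349566712935700562894234067458741692207438406611825222236998919080102368381242171527279080506443784003796718722998524179803823794907868249388974372110225498358106914580849281)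

noncomputable def t61 : Tre := Helper55.PC.toT t61n

theorem ok61 : chk K t61 l99 = true :=
  Helper55.PC.chkN_sound K t61n l99 (by decide +kernel)

open Helper55.PC in
noncomputable def t62n : Helper55.PC.Ten :=
  (r
  3238485478085797405980609694759773628618999309849207157816228765427560832207654726634081438434782580854940829946142417470132511135466920270127416164741426776615115623945974640064239699953004990060642309800474910658953086535080269529120081979584129510682348840865577914802350348478914201447204566904065529386208455943307141321)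

noncomputable def t62 : Tre := Helper55.PC.toT t62n

theorem ok62 : chk K t62 l100 = true :=
  Helper55.PC.chkN_sound K t62n l100 (by decide +kernel)

open Helper55.PC in
noncomputable def t63n : Helper55.PC.Ten :=
  (r
  17258029688151603242034072276265507634026038356317788159929981716542119747484042277162975863776735973431461392102103087641401222375684200130815699835013062530621868949225315469405352534632837456781813269091447200800362473129823033766608743309648193530100961920486480568086794173731677716144544248144424176722121)

noncomputable def t63 : Tre := Helper55.PC.toT t63n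

theorem ok63 : chk K t63 l101 = true :=
  Helper55.PC.chkN_sound K t63n l101 (by decide +kernel)

open Helper55.PC in
noncomputable def t64n : Helper55.PC.Ten :=
  (r
  81750242911876875053392939859723266073693327136224037933316709547667860007957236744630945916409251327187525362471862802404258707658941232027581190767925986032772904855638524062626564285816292786237898569602699946080647269756788763329169868425173920383126795817854289445628205396901701286070329545)

noncomputable def t64 : Tre := Helper55.PC.toT t64n

theorem ok64 : chk K t64 l102 = true :=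
  Helper55.PC.chkN_sound K t64n l102 (by decide +kernel)

open Helper55.PC in
noncomputable def t65n : Helper55.PC.Ten :=
  (r
  3381775416417840528677826682421280885612769862125956393402775880005962268289842186961502243366488590827779761189661050441403778598244241790721346164386177066218360483461852740984027666005792407968226060215824686720626582792785195045579345011221429508949893800092829850571235136729130240423852440583236911695385907649812283503411287713350792535763086471754639184889537556134455134274362160426971004375086870968034468017759880989036875288399796675883489199562981688853948380280558246242651553069460285828125689635457)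

noncomputable def t65 : Tre := Helper55.PC.toT t65n

theorem ok65 : chk K t65 l104 = true :=
  Helper55.PC.chkN_sound K t65n l104 (by decide +kernel)

open Helper55.PC in
noncomputable def t66n : Helper55.PC.Ten :=
  (r
  13943200930575148935523707970721398354297791963536265057444295942247458775481279173793444031144788409146815071172024452822206756084646028228492004837358235515521627583518607205022565769192283060685802090394006404268857725971034541516569170129826787224384833489916047580355897965443824220596796472517945958232677660313515995901355628555273178525720664638989401172245337343448508563374252870859151418653056063202988019661927476857669936810870180607872634285908136640899830230304770554392543004950653559425)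

noncomputable def t66 : Tre := Helper55.PC.toT t66n

theorem ok66 : chk K t66 l106 = true :=
  Helper55.PC.chkN_sound K t66n l106 (by decide +kernel)

open Helper55.PC in
noncomputable def t67n : Helper55.PC.Ten :=
  (r
  1526188009091386691421388677530623435971307948774670585364899946119884834490632346225091703067576135247787650634023354926372914890418714687892339781466863528046211723872439800347913558626046119946125053586770974013316964188852099718222962561433628665723898267808973262425036532386726439378746530141005245858512219822361584860155649873619602224590943994983896666132707658436825300153384983638214397987016748667773303333505564935663496310801581748093186857366497856750249592693475675410822133095434742004173205166713616596420032578276428881928863989973308348531163038526386848792075402458086950585715419612081177172162483828628910343471228129)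

noncomputable def t67 : Tre := Helper55.PC.toT t67n

theorem ok67 : chk K t67 l108 = true :=
  Helper55.PC.chkN_sound K t67n l108 (by decide +kernel)

open Helper55.PC in
noncomputable def t68n : Helper55.PC.Ten :=
  (r
  23494231275151198448281741159110489564345263158821941454521437350477932400748140399870294842850740736653396125017645367395613059542749948943978224170814947478506565854296419989059401002141434718948777464299836796439402351523997345045264858801575125720112624931575898410315075265297005440616582915319433979036917330288936517408134049491495796502415342134412363093622369818388436912648618972820343895495508258180125231803138726565777333060431490654008927340745811286705675518787888767108049455816034550666255133629253552460018245435809343065963762798400666251750197159105)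

noncomputable def t68 : Tre := Helper55.PC.toT t68n

theorem ok68 : chk K t68 l109 = true :=
  Helper55.PC.chkN_sound K t68n l109 (by decide +kernel)

noncomputable def t69 : Tre :=
  (.N [0,3] 1 ⟨0,[(1,0)]⟩ ⟨0,[(0,0)]⟩ (.x (-2) ⟨1,[(10,2),(2,0),(5,1),(4,0)]⟩ ⟨1,[(1,1),(4,2),(19,
  2),(0,5)]⟩))

theorem ok69 : chk K t69 l113 = true := by decide +kernel

open Helper55.PC in
noncomputable def t70n : Helper55.PC.Ten :=
  (q 719909813558421884557707254542979736321463466759322366271160330 (r
  2189892194921635464603628183909091817800498355760859496370017813611056384158275583258841183063479012835443915945337372748564240724959788055826042052022565055058734701761905309400260361476501231842417392127411553832742199902973643973408874113568331317838844833114423752366645430338273010595629635845957086804413068121332932228852861465790200609750583146453566129910294157816692462526333027699442986176892036051533507721819080553917817219844531697941779220830823709801931706550733806501272841361953242596335520947702699815758684977525365838288528280467883683447535846861411584187359413755855644647616)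
  (r
  80360235491523693556705677214701667285590665364838479562974751214284902177463633042145515685729256233835517171070329172699963835236786405206018636206038421907635361784037086299336532277958165251196226019568434477433340691560400084640721111951790570960400785323990221801794567876067261554717703260240156954697195596348155578197857011490400416844287328761814741354782867233462229879535876297924206917634450344991738761765914561872420163772466092561212878669646658895176302565688930817133517492711260285380202166992996409455649191977565854648236451310273015659982036506843724305233536471358593910113006353741499758938932681872248681894001915492221350547012461066055800576147386855733630298290708789150343361))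

noncomputable def t70 : Tre := Helper55.PC.toT t70n

theorem ok70 : chk K t70 l114 = true :=
  Helper55.PC.chkN_sound K t70n l114 (by decide +kernel)

noncomputable def t71 : Tre :=
  (.N [0,-1,2] (-1) ⟨0,[(1,0)]⟩ ⟨0,[(0,0)]⟩ (.x 0 ⟨1,[(14,0),(0,3),(0,0),(0,3),(8,1)]⟩ ⟨0,[(10,0),
  (5,0),(3,0),(13,0)]⟩))

theorem ok71 : chk K t71 l115 = true := by decide +kernel

open Helper55.PC in
noncomputable def t72n : Helper55.PC.Ten :=
  (r
  613124264652034196120944301014850004024073909307879820054074742285389390613875706685707214914262973674958176350943132647063166450758482439137161241353163384921940255235874780521408503161840931926312328255515770673269209680131557479799642311266118074778911669877306392547640047272876886685850025060680846678751966759244581676667932648920448003846911738990284360724193469851551490669074033270840714883892959185649166502052917727774248832023180115404402713672622315100809624843692885764780893236729718309392364094380755954494833625994628221959804541480944227245405658888575062058976279682209509500158840870048963473559127892240340646892961080065017751167502749901996387823211781343742575268069585446113)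

noncomputable def t72 : Tre := Helper55.PC.toT t72n

theorem ok72 : chk K t72 l117 = true :=
  Helper55.PC.chkN_sound K t72n l117 (by decide +kernel)

noncomputable def t73 : Tre :=
  (.N [0,3] 1 ⟨0,[(0,0)]⟩ ⟨0,[(1,0)]⟩ (.x (-2) ⟨1,[(8,2),(2,0),(5,1),(4,0)]⟩ ⟨0,[(0,0),(20,2),(3,
  2)]⟩))

theorem ok73 : chk K t73 l119 = true := by decide +kernel

open Helper55.PC in
noncomputable def t74n : Helper55.PC.Ten :=
  (r
  345144583334952749035176805134676031388284999784861178045340928939089942878765492145359979543262169434727674892993501112727812285704713795068878189581829675140633037058927776739684655168791907643358198966419451898998508269068110828118479202556998280331694169327757923746766742739135282331843583747038375401992746772549478529753218116234246587218413087927642542717200346569681568157191477883166470780755098076853692092743616675436690331983415139649004138543056733280109504049168733453217900311111045998036888173343608715927269745100388819377386586755273484033596582168335733321475237513973219121078209453769132829477794941120462855072351788868669521919553525783213761735133126274592102105042477880876405481058066625)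

noncomputable def t74 : Tre := Helper55.PC.toT t74n

theorem ok74 : chk K t74 l121 = true :=
  Helper55.PC.chkN_sound K t74n l121 (by decide +kernel)

noncomputable def t75 : Tre :=
  (.N [0,-1,2] (-1) ⟨0,[(1,0)]⟩ ⟨0,[(0,0)]⟩ (.x 0 ⟨1,[(15,0),(0,3),(0,0),(0,3),(8,1)]⟩ ⟨1,[(2,0),(8,
  1),(5,1),(3,2)]⟩))

theorem ok75 : chk K t75 l122 = true := by decide +kernel

open Helper55.PC in
noncomputable def t76n : Helper55.PC.Ten :=
  (s
  183179559485225494374901485852570229618605113434452293912588907226949887623090166995465505753246308679013395254970513801503135035547159683195781317966912359246826437954376389488255896269205187193511394396978636849424556958918868824626977615658300143625953448734273738321313868622205016784339808464726420005874859675695491939578020470316653942529308110308537594941846130498230068979621515200977321252078294103600673559289660555211910847618884157160449828213379136582302621409615995426299182628531776694212803691009)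

noncomputable def t76 : Tre := Helper55.PC.toT t76n

theorem ok76 : chk K t76 l124 = true :=
  Helper55.PC.chkN_sound K t76n l124 (by decide +kernel)

open Helper55.PC in
noncomputable def t77n : Helper55.PC.Ten :=
  (s
  5741320302210348752668845465911948899312976211313382345376686906190240337847959965223854843818497067015731693419215251847754113207830096964246712779538509458329718919005408859452215789989053651290802911035749593714487667598186038302587187954833241182462991489438144482749158729063056284697615165128107857355120486011506739284069788539903577598074168124645393973935732870601539399688568713042315385687060033372103802106564213177507238177905168424308881463111694280473105027177961582330747064355028473881)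

noncomputable def t77 : Tre := Helper55.PC.toT t77n

theorem ok77 : chk K t77 l126 = true :=
  Helper55.PC.chkN_sound K t77n l126 (by decide +kernel)

noncomputable def t78 : Tre :=
  (.N [0,-2,1] (-1) ⟨0,[(1,0)]⟩ ⟨0,[(0,0)]⟩ (.x 0 ⟨13,[(3,5),(3,3),(9,3),(1,8),(0,13),(0,0),(9,27),
  (3,5)]⟩ ⟨0,[(6,0),(8,0)]⟩))

theorem ok78 : chk K t78 l128 = true := by decide +kernel

open Helper55.PC in
noncomputable def t79n : Helper55.PC.Ten :=
  (r
  143516774886384301808263376660666241371373460243143687954105487432814191192196748624451415773248160585183652475393630060449906080150964670026615510310575267721995579678248442316577642825721299559314653960567160474647259523868647827936905401158671751648551440054996141780063224007355166471591420551935885584603357003239115470014393583197056202071808853177451274023291282584588326703533362311859702625381042940415731798944031077628517835122131859416318894457056058168216090052577295689305577262114151778496917907910108018615362499321978925613303254257331556523847568594053693805220389007802091870773567680)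

noncomputable def t79 : Tre := Helper55.PC.toT t79n

theorem ok79 : chk K t79 l129 = true :=
  Helper55.PC.chkN_sound K t79n l129 (by decide +kernel)

open Helper55.PC in
noncomputable def t80n : Helper55.PC.Ten :=
  (r
  71333484775108593822116797299810860288567059105689436836218818148397309181288220769273412984135204710950738228283920673036018244561601797757383906789783477965979486600511546546702159394003459712614168148674507763421165156694195303269136993074364265562837708939118479463576610555404226394227083206675261843795843626860919015843285084876662861729047120490377310307986115188640111860607025544205998285006849923960390670372936012500204446293116328708658318514477527458576890037378980448319274118810754673274192990565756026497573999570869952)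

noncomputable def t80 : Tre := Helper55.PC.toT t80n

theorem ok80 : chk K t80 l131 = true :=
  Helper55.PC.chkN_sound K t80n l131 (by decide +kernel)

open Helper55.PC in
noncomputable def t81n : Helper55.PC.Ten :=
  (r
  69775908175918916259400115611639845497113904851674767331877557172007722610342112448311786725029605968457059588685891282805790231120338775380509408659413060668664043444927124051973360673344176904904918027398465934893689441222398788337756065531740386572353244851868955788166890184595058672814813482669992263752193488028246998167978064301725262097007502570839569254893633574069348575548095241278448614579921064309456099682791213082541926818331972752570213192496885720581860401648734155532929013376530484757013589413020310372684514895076286144)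

noncomputable def t81 : Tre := Helper55.PC.toT t81n

theorem ok81 : chk K t81 l132 = true :=
  Helper55.PC.chkN_sound K t81n l132 (by decide +kernel)

open Helper55.PC in
noncomputable def t82n : Helper55.PC.Ten :=
  (r
  355348758387478713271289516951396988298493606720912859321081477565126675842530421236419688097827856234960518201077106113049380953003437991840302590972991419226065962471431055161698995238769156466807332648685715186240537425117156405671761210072984757918127002703008303035369698323547802805942812450473880803904759300142291572844487032643257467180311242403133864199964144213096914577219728088298658227665349746613735913376541591379993766482539873288755284618655659750146091161186620996137319764465318174322797327493797622229397220147687460853173307042358870908947836877219343826760346661017716451931847523243683434434595303464887521)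

noncomputable def t82 : Tre := Helper55.PC.toT t82n

theorem ok82 : chk K t82 l134 = true :=
  Helper55.PC.chkN_sound K t82n l134 (by decide +kernel)

noncomputable def t83 : Tre :=
  (.N [0,-2,1] (-1) ⟨0,[(2,0)]⟩ ⟨0,[(1,0)]⟩ (.x 0 ⟨3,[(6,1),(11,2),(0,3),(0,2),(9,7),(3,1)]⟩ ⟨0,[(0,
  0)]⟩))

theorem ok83 : chk K t83 l137 = true := by decide +kernel

noncomputable def t84 : Tre :=
  (.N [0,-2,1] (-1) ⟨0,[(3,0)]⟩ ⟨0,[(2,0)]⟩ (.x 1 ⟨0,[(0,0)]⟩ ⟨1,[(14,1),(0,1),(0,0),(0,0),(7,1),(6,
  1)]⟩))

theorem ok84 : chk K t84 l138 = true := by decide +kernel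

open Helper55.PC in
noncomputable def t85n : Helper55.PC.Ten :=
  (s
  538316343614619793551099652148716962085495592854033817419665345525198672012000958161002802140870395399332176994795498100911671671490246000795578629422907978658337471158157741177210981418470414985338927454645357355108992878313692307873464734174125012002042526977414479256526163647765670104828644329906400172144781369735020985293568833062443268029962100682031237587393216410092337012734609657979461189482892642376686203102539841079958357183641718332883689767519207637199618561)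

noncomputable def t85 : Tre := Helper55.PC.toT t85n

theorem ok85 : chk K t85 l141 = true :=
  Helper55.PC.chkN_sound K t85n l141 (by decide +kernel)

open Helper55.PC in
noncomputable def t86n : Helper55.PC.Ten :=
  (r
  584155384571093416150168710933196449377879521164152803786993048020482167639364141884331402498777967265858848544243613207250819117013112633991461225475656427889091592160055890022223707947971737115219587147205069940155524993143351268987413003452081476251647977320370586333518582937093569829168921176762848740663088560177530778937313371925746579426654515940105239538598117939587884847985439370150629781690260288313713464202457080425663451142357711315268143063315249348204950994802263092320867467433918955290848420511784756276736757513951828617417396345013582856325376166356137392755505945602875553866238619481667601079765958505029428659557595133390636247599474726658853437308878000882123962716378687445496085975219347508144958014433438458049)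

noncomputable def t86 : Tre := Helper55.PC.toT t86n

theorem ok86 : chk K t86 l143 = true :=
  Helper55.PC.chkN_sound K t86n l143 (by decide +kernel)

noncomputable def t87 : Tre :=
  (.N [0,3] 1 ⟨0,[(1,0)]⟩ ⟨0,[(0,0)]⟩ (.x (-2) ⟨1,[(15,2),(2,0),(5,1),(4,0)]⟩ ⟨1,[(1,1),(2,2),(20,
  2),(6,5)]⟩))

theorem ok87 : chk K t87 l145 = true := by decide +kernel

open Helper55.PC in
noncomputable def t88n : Helper55.PC.Ten :=
  (r
  92883151936150776940884785778569355045005644230282181987961922711644764520171812681426982601417738950561119400438269570594172433301250647975818128985316973080435805951572152308560691705700520264484378414948669506921781840261370794425680959913062882181791416729000578000523712634404954020127452818148772668739441597913481922084630408093354616602795145700859435693147404454189026890062543649596201000828063102247215092390636982338136391478136709559873090047992179253068836906381534666436541124639728806160753281)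

noncomputable def t88 : Tre := Helper55.PC.toT t88n

theorem ok88 : chk K t88 l146 = true :=
  Helper55.PC.chkN_sound K t88n l146 (by decide +kernel)

open Helper55.PC in
noncomputable def t89n : Helper55.PC.Ten :=
  (s
  13193646708072517169088514098280655299802638725771371673761269477882900897543755453103522456276686324686441044206100975782423569702080745980294449265288364673921728903985920805439700001070626692340302948962580670500455035337549029937514805063191732057966601687015756920463281628466798551517460989328240669937635120309711999181623522169806129750840302923861427712861314777062734022102911031737792252292068295359338521)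

noncomputable def t89 : Tre := Helper55.PC.toT t89n

theorem ok89 : chk K t89 l148 = true :=
  Helper55.PC.chkN_sound K t89n l148 (by decide +kernel)

noncomputable def t90 : Tre :=
  (.N [0,3,1] 1 ⟨0,[(1,0)]⟩ ⟨0,[(0,0)]⟩ (.x (-2) ⟨1,[(16,2),(2,0),(2,1),(7,2),(5,1)]⟩ ⟨1,[(1,1),(3,
  2),(8,0),(11,3),(0,0),(3,0),(1,4)]⟩))

theorem ok90 : chk K t90 l150 = true := by decide +kernel

noncomputable def t91 : Tre :=
  (.N [0,-2,1] (-1) ⟨0,[(1,0)]⟩ ⟨0,[(0,0)]⟩ (.x 0 ⟨5,[(5,1),(14,1),(1,4),(0,5),(0,2),(9,11)]⟩ ⟨0,
  [(7,0),(10,0)]⟩))

theorem ok91 : chk K t91 l152 = true := by decide +kernel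

noncomputable def t92 : Tre :=
  (.N [0,-2,1] (-1) ⟨0,[(2,0)]⟩ ⟨0,[(0,0)]⟩ (.x 1 ⟨0,[(1,0)]⟩ ⟨1,[(13,1),(0,1),(0,0),(0,0),(7,1),(6,
  1)]⟩))

theorem ok92 : chk K t92 l155 = true := by decide +kernel

noncomputable def t93 : Tre :=
  (.N [0,1,2] 0 ⟨0,[(1,0)]⟩ ⟨0,[(0,0)]⟩ (.x (-1) ⟨1,[(7,0),(2,0),(2,3),(1,1),(5,0),(5,1)]⟩ ⟨0,[(1,
  0),(3,0),(11,0),(0,0),(1,0),(1,0)]⟩))

theorem ok93 : chk K t93 l156 = true := by decide +kernel

open Helper55.PC in
noncomputable def t94n : Helper55.PC.Ten :=
  (r
  7924517934957755369641975391090433191802779308394007015765070851169317267756002011853309041605083840739982030957651181085015245908160503165237082053287268342309486541647242919286894645757386384854844537064361473338940397622713862679388622175115910365647058281842220040525990957898723748114389438543688319384614622670375832710128769003365975116249775065061488762431163590543496836999026441685008503184311235765736760853827835508180756880955760871914768788268816270157040686916217337437574558187569378282897032049108575961009451621301914952260857849514419454434146477470131514626625025080359984189891236755994186126006838212707528311064685081925661540773594175307194795025633)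

noncomputable def t94 : Tre := Helper55.PC.toT t94n

theorem ok94 : chk K t94 l158 = true :=
  Helper55.PC.chkN_sound K t94n l158 (by decide +kernel)

open Helper55.PC in
noncomputable def t95n : Helper55.PC.Ten :=
  (r
  1085509539876297912514029623595687925854518315467176428505761695626243139177012761341459569561937108130802116472052645046288075011006753604716272802833341615830584426256912617724454386673584682637614800638128166590749080329120239282118144089135119622407400221695326359387129752946036345489261098203020064921730494339837530918611178829548558151675969472877029094545817941252043768322552965864235553862643960382975951960251886967252081454565923524855770884237616359621227189603394177)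

noncomputable def t95 : Tre := Helper55.PC.toT t95n

theorem ok95 : chk K t95 l160 = true :=
  Helper55.PC.chkN_sound K t95n l160 (by decide +kernel)

open Helper55.PC in
noncomputable def t96n : Helper55.PC.Ten :=
  (r
  3706380880311250794796931201887125654404997281848413482080163748607656249012795234233985846968113879067139924976006462868097174238762835370601898623369126182507188180685378857938724429416552147144876261090097741917205699805288135321949145362654558862499514743547297434424243376998645431466104354363415944454289005464375670396809225376516434596476930715727216621378045771710251235453148988878154067110683715851097655610949159941396316625307446896928098516065189140385313728104101547293409342523724784300815775279154409808741391753356338264868427637894696174906305193266758845349843518367766033893849549120520818648605778112)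

noncomputable def t96 : Tre := Helper55.PC.toT t96n

theorem ok96 : chk K t96 l162 = true :=
  Helper55.PC.chkN_sound K t96n l162 (by decide +kernel)

noncomputable def t97 : Tre :=
  (.N [0,-2,1] (-1) ⟨0,[(0,0)]⟩ ⟨0,[(2,0)]⟩ (.x 1 ⟨0,[(1,0)]⟩ ⟨1,[(12,1),(0,1),(0,0),(0,0),(7,1),(6,
  1)]⟩))

theorem ok97 : chk K t97 l164 = true := by decide +kernel

open Helper55.PC in
noncomputable def t98n : Helper55.PC.Ten :=
  (r
  8002232484038264139622517023226996435113030198588171770090236298000821821804135248262725227701268810941381489237350912108348330258678647623503025517187127670560499236881813362767044673938718247991920018460226385148782480291544333963268473402539986974043847180938940946685414843573339205654385154799397027204259712580932598639015404702743397250786675170654844599468649116908307248414707062051280447506873510534579322609963300691374828979566509147221493538613309231123712138847011699701707512741208163719840348981322444330584021331483125783191744)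

noncomputable def t98 : Tre := Helper55.PC.toT t98n

theorem ok98 : chk K t98 l165 = true :=
  Helper55.PC.chkN_sound K t98n l165 (by decide +kernel)

open Helper55.PC in
noncomputable def t99n : Helper55.PC.Ten :=
  (r
  1215770525649035296921707071229798033338084609687832492255225023286824296213951266545323672597489106792650275691932493293559628799348076362327452995173413688699059962353232640952581681525566247950528040613745948269986971393227791339112484036095435393785194768527019415330635411084874355413562963429404799841418110866842074251883550420556828800733099970211573033616121921935040546240057604879336622876960823699289232252695792503723952165143718821800906343880568747371930859215774337)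

noncomputable def t99 : Tre := Helper55.PC.toT t99n

theorem ok99 : chk K t99 l166 = true :=
  Helper55.PC.chkN_sound K t99n l166 (by decide +kernel)

open Helper55.PC in
noncomputable def t100n : Helper55.PC.Ten :=
  (r
  281100300498083633573557462319005646478633923904412886908860577243586124200322797997942845162392353906615585515127382187471941918111493120404540645297863100741679082989192613063105149516555514662476906937223409370711806002642722957609301948378890925886436885110971350419726040832896269178454006078703109624815097514461438883427501056766251106082605672240763488514978438077283750684658210232679438877263547110496512245987112623809229507763688306591969910973322825823914860613253193057105277084289)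

noncomputable def t100 : Tre := Helper55.PC.toT t100n

theorem ok100 : chk K t100 l167 = true :=
  Helper55.PC.chkN_sound K t100n l167 (by decide +kernel)

open Helper55.PC in
noncomputable def t101n : Helper55.PC.Ten :=
  (r
  1471439110442852903352920434556847122954113004827837524863591326496400822848628870609348755009686450134819758611610667871083002580464118968738833783811285266880843220490013451542175311722615682646017480060716577623131146678983729372736721998538572254486346279402447218213780359566172764429979237766688391809831440519295744130145404029760005615931485136224069721254512484168828518180891021755749047895845871255856724949960980106629310342683730412768253358021657965259232493285228682025069165038226435402115244011625822005376208431655035945969754051477229708301908034805400302831314577664286842659337974010583382671636896076186563531870296081454464386792210540136946308730693594721315213464923225710785)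

noncomputable def t101 : Tre := Helper55.PC.toT t101n

theorem ok101 : chk K t101 l169 = true :=
  Helper55.PC.chkN_sound K t101n l169 (by decide +kernel)

open Helper55.PC in
noncomputable def t102n : Helper55.PC.Ten :=
  (s
  125336541006655298173212811698183151980704236643825675276928353943145499923386759289248165943456039773862686881840224459228531295558117151901196415234786894087032688646889994826726445021383912159620853554406504723974758099287154422230076393631631673327525085615342905789073601530002251891382119575826044212601926090749926581247419697628827072456355200624485022579254236791951998306074450991118563838130583706419724473821444586130025072225893380445168816338706104833)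

noncomputable def t102 : Tre := Helper55.PC.toT t102n

theorem ok102 : chk K t102 l171 = true :=
  Helper55.PC.chkN_sound K t102n l171 (by decide +kernel)

noncomputable def t103 : Tre :=
  (.N [0,3,1] 1 ⟨0,[(1,0)]⟩ ⟨0,[(0,0)]⟩ (.x (-2) ⟨1,[(14,2),(2,0),(2,1),(7,2),(5,1)]⟩ ⟨1,[(1,1),(10,
  0),(11,0),(0,0),(1,5),(1,0),(1,4)]⟩))

theorem ok103 : chk K t103 l173 = true := by decide +kernel

open Helper55.PC in
noncomputable def t104n : Helper55.PC.Ten :=
  (s
  11544444021359887365103644117569641349948512397567378813113797494076271220209858144309834260658287939728464623701868600099261602782187510417704207963280485771294332152040441050039527432651531696775196742312600891712097813580053390892711928720398791392055931823211946353051691377879638661334138618349863321862564045961815951543405360076015597166677306335602941442461777784959526787210712982526548059742179437720639513)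

noncomputable def t104 : Tre := Helper55.PC.toT t104n

theorem ok104 : chk K t104 l175 = true :=
  Helper55.PC.chkN_sound K t104n l175 (by decide +kernel)

noncomputable def t105 : Tre :=
  (.N [0,-2,1] (-1) ⟨0,[(0,0)]⟩ ⟨0,[(1,0)]⟩ (.x 0 ⟨5,[(4,1),(12,1),(1,4),(0,5),(0,2),(9,11)]⟩ ⟨0,
  [(6,0),(8,0)]⟩))

theorem ok105 : chk K t105 l177 = true := by decide +kernel

open Helper55.PC in
noncomputable def t106n : Helper55.PC.Ten :=
  (r
  7924638847232409715286833546185640416942141099030251015247816605416025187654862053149657756011422223078814974858622014289364613027973846458197189127674712508221454662496274878912489574740809783739376491508660417445784245882396135779951499633505764709967277284366866984027164012118501685203197808118130273480409047905709007909801983354624588711170307982841007600806506990539537201270307376910231944952562957499578820046018150503808469927872730717694615986088085773177956228564906897471020255453467070878218364837753661068516505526441318292157066328496801893875910733552700822452016228093337542279493402659772880127116820610264645326306455894414621773139927299060291117769953)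

noncomputable def t106 : Tre := Helper55.PC.toT t106n

theorem ok106 : chk K t106 l178 = true :=
  Helper55.PC.chkN_sound K t106n l178 (by decide +kernel)

noncomputable def t107 : Tre :=
  (.N [0,3,1] 1 ⟨0,[(1,0)]⟩ ⟨0,[(0,0)]⟩ (.x (-2) ⟨1,[(16,2),(2,0),(2,1),(7,2),(5,1)]⟩ ⟨1,[(1,1),(3,
  2),(8,0),(11,3),(0,0),(3,0),(1,4)]⟩))

theorem ok107 : chk K t107 l180 = true := by decide +kernel

noncomputable def t108 : Tre :=
  (.K ⟨0,[0,1,1],0,0,(⟨0,[(14,0),(5,0)]⟩,⟨0,[(1,0)]⟩),.k,.k,(.r 0 ⟨5,[(2,1),(5,2),(1,0),(11,7)]⟩ ⟨0,
  [(12,0),(3,0),(12,0)]⟩),.k,.k,[⟨0,[(16,0)]⟩,⟨0,[(23,0)]⟩,⟨1,[(8,0),(1,2)]⟩,⟨0,[(16,0),(1,0)]⟩,⟨0,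
  [(0,0)]⟩]⟩)

theorem ok108 : chk K t108 l181 = true := by decide +kernel

open Helper55.PC in
noncomputable def t109n : Helper55.PC.Ten :=
  (q
  3966337077511278910374214480905786319553833302439637784755874218668470565228016906290781229029810450364141851684999780237322
  (r
  219620999664958572312843062797900103327273678173746622283843116717982817737396055729327300752122899505712851351189506661025485196736225887221921976366250761470702280486046736073076798945960616330597850156360758884400885693762158792892562041837043444423682338870299449347199185744790791321465822117083369408580303599814407826010857979468577991303295998754837365451386086703096838536473473507565479938501998392294262836754026861602055517253129938148423573916982642945436353949888101442962225811778327169875627674552828924280220219101052195335962745125584953860916306530634114540257)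
  (q 565643761237723089627590353442680609581661236374045857729871882 (r
  100461873813599757144864109888577019092174891644271096513736417737645109575912618366117419386473581912697910269238437408830675790793031326043379619826061343806678183859898684110115592482451335483821297418029532203819603668988430208021006984931326456879666712461868242843585472344574664087317540774491127523136794429711168683432016691334567226110013122575387384669788670062149944176468316388523738886161020541782997026618594764883706976222854318932785217337020428333336486835806780752754940650699058837533037838488162956640219897302855058031155689671029751398058374286469395724252486041778619952650772672)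
  (r
  199848096883084103867242840514621814626059800658578687876989560995519815711437899446762478399968179074368615338255763411650091698197046182973803651036082460337734166110055031467303290599775159195264207507792959371809873131009941820238583711065778681370034343990656607209380036226060754909257772823067421894588595540064816200033273427658009237621478064141011952281345575815190205970406788440832138417359535074790523954155602658594915705112783270568164619684320945810861357954754145969841916518510957004624346137590393487819532749705341461485344710646061162499785484350784357629017522179551852833552578017544967216851036014996648807949227190525352645799060353899788050492313892639016259150017)))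

noncomputable def t109 : Tre := Helper55.PC.toT t109n

theorem ok109 : chk K t109 l182 = true :=
  Helper55.PC.chkN_sound K t109n l182 (by decide +kernel)

open Helper55.PC in
noncomputable def t110n : Helper55.PC.Ten :=
  (r
  5302815638366052180343089835926709618931088195482771576643458993099947925739643095035004651021390479084049925012868841184324860736966165909242824956079729070804967024327246678831661428130796805770098827267463955377656494845551804610811471007918330702405312691624955904372431364234843269424379146470648763102484930508387873912602738820383131619118640638647105124347793866682773918217981421964552200088591333289712458149189950967858341112128571307684846026072233794863503032822774033707180964141178063892418642230543748400791535546951561634433)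

noncomputable def t110 : Tre := Helper55.PC.toT t110n

theorem ok110 : chk K t110 l183 = true :=
  Helper55.PC.chkN_sound K t110n l183 (by decide +kernel)

open Helper55.PC in
noncomputable def t111n : Helper55.PC.Ten :=
  (r
  17400168253110025680469560867143109674719413394063288531235557395605840896285491270409618023353150554632454826173871321749823725917088450900468442915341671580257816121863012031000403645033646565246059106736644109558909548675596431013602733156594611342226150935944237815742264481061535981892996294326322500663372098929841298337416819067889877679993021586674307039817498896860836632731793631115695167986664881791788592749732613606541190552148976353502749113619680725279022123704405421059938905820720656314116983634875785837876734291998251577848647495149572660638164305777995133844854074498623010091341776167649)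

noncomputable def t111 : Tre := Helper55.PC.toT t111n

theorem ok111 : chk K t111 l185 = true :=
  Helper55.PC.chkN_sound K t111n l185 (by decide +kernel)

open Helper55.PC in
noncomputable def t112n : Helper55.PC.Ten :=
  (r
  73625055574538351754975598343776533096717770013069571656773406413138972270142307168122319832624586047153183738632924464053898157361264621872711142210027476264085156897430178617721446660546235446876596313273547001170432655813990194135152351310608476130694951311628375595280453308475237475830497008612345027619058079941833714131981795027977516361548296610558064551497174210430061824378198144355381672330108612141583168377042732153117287311761006072687898321232621483643996833155124688100501236183171547746551056608651945538366536034869121281843493096383147620363478011816333143835314829516930571609990951302618381976989940710937207521)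

noncomputable def t112 : Tre := Helper55.PC.toT t112n

theorem ok112 : chk K t112 l188 = true :=
  Helper55.PC.chkN_sound K t112n l188 (by decide +kernel)

open Helper55.PC in
noncomputable def t113n : Helper55.PC.Ten :=
  (r
  10006068810085240180578073913911840193753867997711399726533451689574670871297974371115239699817090837487567540232281204687131026434066695954998427298029671577538866859452069836946578272025899709983068467875938508527920888904161844985264650848269688114732321905285310902989246461123036869693599849782375257967850865384079155432457048442672826767737071210038819185943108515674278268115489238020693565331507721367798995667378332595899667191881721852698246290311578102416840319794862709832764379971631952379899952622783211369654707807576585267006090716280463875535679950635291345731028183755568357599806216462542885937726615026561851569673691292124089154473404159826668474023600084112900360277424005539795858644633934317501633987142294835311259219369305786015937)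

noncomputable def t113 : Tre := Helper55.PC.toT t113n

theorem ok113 : chk K t113 l190 = true :=
  Helper55.PC.chkN_sound K t113n l190 (by decide +kernel)

noncomputable def t114 : Tre :=
  (.N [0,-2,1] (-1) ⟨0,[(0,0)]⟩ ⟨0,[(5,0)]⟩ (.x 0 ⟨5,[(3,1),(0,0),(0,0),(10,1),(1,3),(0,5),(9,2),(0,
  11),(3,1)]⟩ ⟨0,[(2,0),(11,0)]⟩))

theorem ok114 : chk K t114 l191 = true := by decide +kernel

noncomputable def t115 : Tre :=
  (.N [0,-1,2] (-1) ⟨0,[(2,0)]⟩ ⟨0,[(0,0)]⟩ (.x 0 ⟨12,[(4,3),(0,0),(0,1),(10,2),(1,5),(0,25),(1,15),
  (8,12),(6,1)]⟩ ⟨1,[(3,0),(11,1),(5,1),(3,2)]⟩))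

theorem ok115 : chk K t115 l192 = true := by decide +kernel

noncomputable def t116 : Tre :=
  (.N [0,-1,2] (-1) ⟨0,[(1,0)]⟩ ⟨0,[(0,0)]⟩ (.x 0 ⟨0,[(2,0),(8,0),(6,0),(2,0)]⟩ ⟨0,[(14,0),(5,0),(3,
  0),(13,0)]⟩))

theorem ok116 : chk K t116 l194 = true := by decide +kernel

noncomputable def t117 : Tre :=
  (.N [0,-2,1] (-1) ⟨0,[(0,0)]⟩ ⟨0,[(7,0)]⟩ (.x 1 ⟨0,[(1,0)]⟩ ⟨9,[(11,1),(3,9),(0,5),(0,3),(0,4),(5,
  2),(1,9),(0,3),(2,3)]⟩))

theorem ok117 : chk K t117 l196 = true := by decide +kernel

open Helper55.PC in
noncomputable def t118n : Helper55.PC.Ten :=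
  (r
  76751135951420079750464114906064461067224973402591397007157670227473622431969481115834942327351690369074875225376588366472502347779051649516852150272175652994901474003591965995279353011453023537807299602844460772508251762282783958640563768943390570898579318935238964830736942832148961577484718556870389978644859209224452884882802113408441534986961435029727590710467108303321409155320412657955551236466003313536123395682728857897994716626936696235336412731334143659095684381012005024257260242967006874884084658697962176074734920532453244586287254779508883902149933213315514701777929771646348112360638378807356216365562318300933734883316820070622408519321077376868544)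

noncomputable def t118 : Tre := Helper55.PC.toT t118n

theorem ok118 : chk K t118 r193 = true :=
  Helper55.PC.chkN_sound K t118n r193 (by decide +kernel)

noncomputable def t119 : Tre :=
  (.N [0,-2,1] (-1) ⟨0,[(0,0)]⟩ ⟨0,[(3,0)]⟩ (.x 0 ⟨0,[(16,0),(0,0),(0,0),(0,0),(8,1)]⟩ ⟨0,[(1,0)]⟩))

theorem ok119 : chk K t119 l198 = true := by decide +kernel

open Helper55.PC in
noncomputable def t120n : Helper55.PC.Ten :=
  (s
  8845904454298440195661004909453549205058273706056117226459985711887320684942831134298519715372141391929808311648503970412283861663372282374493733831009927703717073344190671483855917302713362359292099201286874800336098835048145382906292390458313646465248438014492571705960923070162801581161860102018975568633583295870804242399348912387973504853249769528665293666244235687638070778204680241516738334703113279070144561000307471939362640658430404904323596736926417010295297)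

noncomputable def t120 : Tre := Helper55.PC.toT t120n

theorem ok120 : chk K t120 l200 = true :=
  Helper55.PC.chkN_sound K t120n l200 (by decide +kernel)

open Helper55.PC in
noncomputable def t121n : Helper55.PC.Ten :=
  (s
  21854211411951615975005338330630626127388190832042490449878799249372701349973541624159724555460712381398420013682650557788534925891144276795215749628251656164378031397583597073511696363813036235513863273634074072247693443135701037215092205740410903584949768539315140681282237729959437925391268245178648164431467151329093294641042195894669650365091789366345166097126431219110694594247118779269366869844756342666017383589250889023507371954750084124648252058411001572659266230926783601711129)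

noncomputable def t121 : Tre := Helper55.PC.toT t121n

theorem ok121 : chk K t121 l202 = true :=
  Helper55.PC.chkN_sound K t121n l202 (by decide +kernel)

noncomputable def t122 : Tre :=
  (.N [0,-2,1] (-1) ⟨0,[(1,0)]⟩ ⟨0,[(4,0)]⟩ (.x 1 ⟨0,[(0,0)]⟩ ⟨5,[(3,1),(8,5),(0,1),(0,1),(0,2),(5,
  2),(1,5),(3,3)]⟩))

theorem ok122 : chk K t122 l204 = true := by decide +kernel

noncomputable def t123 : Tre :=
  (.N [0,3] 1 ⟨0,[(1,0)]⟩ ⟨0,[(0,0)]⟩ (.x (-2) ⟨1,[(10,2),(2,0),(5,1),(4,0)]⟩ ⟨0,[(1,0),(21,2),(3,
  2)]⟩))

theorem ok123 : chk K t123 l206 = true := by decide +kernel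

noncomputable def t124 : Tre :=
  (.N [0,4,1] 1 ⟨0,[(1,0)]⟩ ⟨0,[(0,0)]⟩ (.x (-2) ⟨3,[(4,1),(4,3),(1,5),(2,0),(5,0),(4,5)]⟩ ⟨1,[(1,
  1),(3,0),(2,0),(9,0),(3,1),(1,5),(3,7)]⟩))

theorem ok124 : chk K t124 l208 = true := by decide +kernel

open Helper55.PC in
noncomputable def t125n : Helper55.PC.Ten :=
  (i 324399716250948976594437980422152 (r
  100023920069724266440948439211031444259233019701885476495660085116522717063784952789419788074317622323743600356885178587073937609313953577315850988465611060336988690067159076881488859691416194957893253116206683797205628957625478425613336611576589465452253450802131581960534818215863281939561249413744457759487729052435916138364617804008965820354015985317264773965311204185272490388934457836477560910781712792335307288572621652622401629140723463601909710356354126595895661029299352062344860312507289879096634592126558019255309616154262393685167905387007197517686085477537682817824294841691321627534867992970028613154544466183379246188543247901409)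
  (r
  28154230572134155164153535636021188724067714050485242500627611746831002437551228073244227311661547873695058350710179132774943972782758665324710294838907550092705737143768074081766232566200087954647391875442789219409020358312571351294106966231779854085181722435665444024797392605312192570443966052413885601379054203929605988215576793258720591081559751395347575274923702215341189832096499839229341538853202727727730917577147443952327223470573353472074166660867732537604356276893525057813694666188566159319073198349224379784619754512001290701956308164271216109060786869598169016881604456050302530443485727206247910464610498744122974663452316740078687448312046305))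

noncomputable def t125 : Tre := Helper55.PC.toT t125n

theorem ok125 : chk K t125 l212 = true :=
  Helper55.PC.chkN_sound K t125n l212 (by decide +kernel)

open Helper55.PC in
noncomputable def t126n : Helper55.PC.Ten :=
  (r
  27436235627242323222928528893051095632368810048349007510641687363994840550015852757114826193011532171518800399423889591872365882319661816694813035862538722872951941880008360391376514034696330069913568831697035337862704811913620623874722108283849133862416819500028639762557362464327699226785938940685242161355010429424822933701151148429436861380159589339739941161049909621407589245369815009556787696353750593875217182030698602676090844237203649572205284554277387909250140178890271900583878586148358045499150548802594656024325786411454494893924544)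

noncomputable def t126 : Tre := Helper55.PC.toT t126n

theorem ok126 : chk K t126 l214 = true :=
  Helper55.PC.chkN_sound K t126n l214 (by decide +kernel)

noncomputable def t127 : Tre :=
  (.N [0,-2,1] (-1) ⟨0,[(2,0)]⟩ ⟨0,[(0,0)]⟩ (.x 1 ⟨0,[(1,0)]⟩ ⟨9,[(8,1),(3,9),(0,5),(0,3),(0,4),(5,
  2),(1,9),(0,3),(2,3)]⟩))

theorem ok127 : chk K t127 l216 = true := by decide +kernel

open Helper55.PC in
noncomputable def t128n : Helper55.PC.Ten :=
  (r
  3284834952411961592391411229894664060620401375035138430944741970980774627295448926440331893695908772169618462577377109303604411683574335729160729633160493861847082075461360019654895495507340897790716104282018640723209497580800551166288798769544024582737831345945353321227906018791788486642944672488413858909853165614875025893007802181700757458686634216583335536864264869596106622129562842001207127446185531556409859932222489887184005381030451260184319767014048523500026039317955255790023949218656183363483230215048152089694794821877227400642367462583609848554260044949325337192597027147051583660224)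

noncomputable def t128 : Tre := Helper55.PC.toT t128n

theorem ok128 : chk K t128 l218 = true :=
  Helper55.PC.chkN_sound K t128n l218 (by decide +kernel)

noncomputable def t129 : Tre :=
  (.N [0,3] 1 ⟨0,[(1,0)]⟩ ⟨0,[(0,0)]⟩ (.x (-2) ⟨1,[(15,2),(2,0),(5,1),(4,0)]⟩ ⟨0,[(4,0),(17,0),(3,
  0),(5,0)]⟩))

theorem ok129 : chk K t129 l220 = true := by decide +kernel

open Helper55.PC in
noncomputable def t130n : Helper55.PC.Ten :=
  (r
  764810236266805229799684889124395339894201926662386029713028569468477421276143036419603017553665855007622964348964651418757720776734486159207469232650588700046549103097375486897047491629454516291319416901566703040900057549774775087434984457107266546864488941138925338449866049641694055554211296254865326664842005263752077215585811571614061821877638394148865606837036290577637642186498931143713911866346730747355581245436912841904909671524178995793759768599189939792274040942535562391864124037943823114848516465874424225114005343491937412491959018422669111158190226252115736459207827513536)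

noncomputable def t130 : Tre := Helper55.PC.toT t130n

theorem ok130 : chk K t130 l223 = true :=
  Helper55.PC.chkN_sound K t130n l223 (by decide +kernel)

noncomputable def t131 : Tre :=
  (.N [0,-2,1] (-1) ⟨0,[(3,0)]⟩ ⟨0,[(1,0)]⟩ (.x 0 ⟨1,[(6,1),(11,2),(1,0)]⟩ ⟨0,[(0,0)]⟩))

theorem ok131 : chk K t131 l224 = true := by decide +kernel

open Helper55.PC in
noncomputable def t132n : Helper55.PC.Ten :=
  (r
  242630301808329636939988426798407738879322124969592412760467405059852036685851385110290662055268754703287280027337290047087365070947420687808157001295227121688296988869953331321249847624206398626252883956137811728256244287572102231553278119318546509232212544358900466259570583763153237409356220757049126460032607531505073234646602962832500627149428758173616420451056934656312726216042685622190714026080128947388370481754388990046322949915447238959180717517976911063278209)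

noncomputable def t132 : Tre := Helper55.PC.toT t132n

theorem ok132 : chk K t132 l226 = true :=
  Helper55.PC.chkN_sound K t132n l226 (by decide +kernel)

open Helper55.PC in
noncomputable def t133n : Helper55.PC.Ten :=
  (r
  10114070825393919179498012605285190320953358984728776536378011943641627687708985742111856305408867624590705204284859068300250860033256220489786233044579290367346282995087926641049296209988003193125293144429107284651568715917227441691890308097776005303708237076055481605513205480844476372135455687158941819006515376870212841766491108959148103331701446341365806994770297108608234457163612889181390993022009605577216542879438103559412783711010496327675015310561093729861999120066478144917281549173704084501300589512470709216908152712904196101463119348255348339501288721158946514816196800)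

noncomputable def t133 : Tre := Helper55.PC.toT t133n

theorem ok133 : chk K t133 l228 = true :=
  Helper55.PC.chkN_sound K t133n l228 (by decide +kernel)

noncomputable def t134 : Tre :=
  (.N [0,-2,1] (-1) ⟨0,[(1,0)]⟩ ⟨0,[(2,0)]⟩ (.x 1 ⟨0,[(0,0)]⟩ ⟨9,[(7,1),(3,9),(0,5),(0,3),(0,4),(5,
  2),(1,9),(0,3),(2,3)]⟩))

theorem ok134 : chk K t134 l230 = true := by decide +kernel

open Helper55.PC in
noncomputable def t135n : Helper55.PC.Ten :=
  (r
  27436235627242323222928528893051095632368810048349007510641687363994840550015852757114826193011532171518800399416284102952822322187088395874062495782601931489087762852180823507688474640315741636601449317900221206115784065373535993729253653865302797296543868110600652855596353764183927376633963646045977038668164928843975867632735744678488359230726099305120898637433292651327195308935720010902439315845086582957491793562048747607415228327259635773643810281928216286935097906984499544152117300826123323210779412470622531390080813967740057110175936)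

noncomputable def t135 : Tre := Helper55.PC.toT t135n

theorem ok135 : chk K t135 l231 = true :=
  Helper55.PC.chkN_sound K t135n l231 (by decide +kernel)

open Helper55.PC in
noncomputable def t136n : Helper55.PC.Ten :=
  (r
  20825080360781216573641307243228723281251160523303962512108407557302973373173728059722861513138513823661332575915787519256481827866837052160327839068531831355763566986809929174320222362045744493959991963774348056654098158612985332272094524058034325830199755886018783536876259504497033332426606483923182765034803703058760410559517195813990164272219486273384389164732738249015931590524317548139773432724349191830977346893587954364963216199784593921805150759646059554956904266336345619687881456930775681)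

noncomputable def t136 : Tre := Helper55.PC.toT t136n

theorem ok136 : chk K t136 l232 = true :=
  Helper55.PC.chkN_sound K t136n l232 (by decide +kernel)

open Helper55.PC in
noncomputable def t137n : Helper55.PC.Ten :=
  (r
  54984704388209381402205188086528736725997363059947024776343913145881039555787551934787535264911433155413973498285526369857727766914566904966048836449578305831448382374035478339398244062016023443815078710410455739102794442008626629531897678336159659173713401285736996918808634109947884408581658413127875791943292843948009950608752193541561232310912189879060223957406106103747430495417246741779209643141911241331582060144513666435115201757059918945703533868334576043097043547464621269553447920506098294444103306987030278530332616524780945484454388088186385559009896182429881607131882471961747902715021594621504022806013678752435862542927138168258386205597889)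

noncomputable def t137 : Tre := Helper55.PC.toT t137n

theorem ok137 : chk K t137 l234 = true :=
  Helper55.PC.chkN_sound K t137n l234 (by decide +kernel)

noncomputable def t138 : Tre :=
  (.N [0,3] 1 ⟨0,[(1,0)]⟩ ⟨0,[(0,0)]⟩ (.x (-2) ⟨1,[(11,2),(2,0),(5,1),(4,0)]⟩ ⟨0,[(1,0),(22,2),(3,
  2)]⟩))

theorem ok138 : chk K t138 l236 = true := by decide +kernel

open Helper55.PC in
noncomputable def t139n : Helper55.PC.Ten :=
  (i 324399716250948832532032905150472 (r
  1524716657430086673622962398363714064407232760837446487870271816529883931956918335717819189940771915197995827072137091949740301207494571335688288120687737436865138348631153137203780446703356762328559567321858677020544175409557203716550595338608295547889064482502599409143629800680563333412607350026397284461773846620983567277403044145573032821926886377478092771338111469323434133943342420991361860624253587154159572921105507153019725410662253386071868275589878114220972689508316688679755835399526987903597660441475784671653619215661659267996727030481667676039799966181894850009578800428754639998040813832702626998227293667726287106862724005615312673764619117430877124567177320465162433)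
  (r
  34002317677303666350238464120500847218627624354969597459083174035127213710142552407881148539047746606631150485795030500656767717879858063767814709824110860338544122862611185600370050251293779478367039119590053961211571993335422373300965849112612293164024927146120673928366658867635317231640464748938274361198330785074632569194554632934881137741501816674563235928062518611344671166021564378726318508797254591677632178866064385884552846123672683975786302575735644661020709140650344903204747193171569622590155829321619193217548455819248227387128700121256241550986504366527695584565175315256735162165815196783463304146526747669058125011813534146985524932858531251513898853073989510413798733429418093560436957162595034115026698625217))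

noncomputable def t139 : Tre := Helper55.PC.toT t139n

theorem ok139 : chk K t139 l237 = true :=
  Helper55.PC.chkN_sound K t139n l237 (by decide +kernel)

open Helper55.PC in
noncomputable def t140n : Helper55.PC.Ten :=
  (r
  100025140971694649281082073099687960984506381058735087030866328612377846512301663559671596187727049976735936970242381686839780927374262632341343980670104309363333754506140569919460641914341216258998302759167192905736063691213809414537199513539585107807733566538977522830479821130183332864858234941416144670960603814218015719683471184912222383125004307671003266434662853365222177295502928753215064523571002557879280353866750846316765880709201516348839958486830543895645080355763737168586950635716375975779757348909590123241780828170022314343729501433532394449409216820875120905618053733424307195968437765521423252394591470191265716173940176184033)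

noncomputable def t140 : Tre := Helper55.PC.toT t140n

theorem ok140 : chk K t140 l242 = true :=
  Helper55.PC.chkN_sound K t140n l242 (by decide +kernel)

open Helper55.PC in
noncomputable def t141n : Helper55.PC.Ten :=
  (r
  28154488312149414792114603753451479305767966698941070587692492772496132566642646028009722920528331071797519149126993609066001629129795525707039203166526563092643199167443893385991513582648066352253397740161950945357933561132869250598987601008382421681570247695251600018713494911974917534240913595158366946978127171707154139658468725022064054666969346225338114638273178057036888648486924345891993374199381069870274389745503381350281710168708389768992204575639272982015531686738076771011862602763050620139491292195638511465024512202465967240510596132025592539884115569466881234255559723872553222321056647578540900960851542521277683024766524539111441907916202721)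

noncomputable def t141 : Tre := Helper55.PC.toT t141n

theorem ok141 : chk K t141 r241 = true :=
  Helper55.PC.chkN_sound K t141n r241 (by decide +kernel)

open Helper55.PC in
noncomputable def t142n : Helper55.PC.Ten :=
  (i 324399716250948976594437980422152 (r
  100025140971694649281082073099687960984506381058735087030866328612377846512301663559671596187727049976735936970234064131263980518292165484113640145527535592488086378852510967080701902600827883616918670882006437375840494865936063259662599096760487232087262695099650758644346200907600712036006575291519286165940040243416979142619942278107054862218344959875724321234621917198588981812465228126280330753129637122070050478976789839922052671114667606843108252482027658576654116209309012667279734574843773677489342709522737667678161455887693861109358978469379833403161560641211741005084102652693274215880400750917091244646413845874785140798296344486625)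
  (r
  28154574225487834668101626459261576166334717581759679950047453114384509276339785346264888123484140747137902845301399939248648845318290179836352395513262639494746227788650945648587391919425657415896916540129615766533373031982779342994670820717063845107489511415075272746536548971314543634699471292421894228147896111973544553939368699701027476413507415387964631539646792072355581841464491549845679399197976482028640903459292661530859050499106953291511739865764399843694700103769052311189958119797679999416103008907615168345842641986912893637990259447003978667085842513019716795863036971542519963740293974318174473145789417370581740251897189799294072734755840737))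

noncomputable def t142 : Tre := Helper55.PC.toT t142n

theorem ok142 : chk K t142 l243 = true :=
  Helper55.PC.chkN_sound K t142n l243 (by decide +kernel)

open Helper55.PC in
noncomputable def t143n : Helper55.PC.Ten :=
  (s
  455498640243201624450083864801566733587380474915566576313358449663276964933568521459715206532334465851817054929730725450069617891052036661691102627707923688289533518457956542055252949717464597136508074763579397678289671203007833226015579640477133877898136877250812270529105077235892633742639782023843512776199229159819372740957359051445307541799218847232388523425084833980468107067060320919102775382515318859559880333683632304132713459347720124655251768396151016700131672577)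

noncomputable def t143 : Tre := Helper55.PC.toT t143n

theorem ok143 : chk K t143 l245 = true :=
  Helper55.PC.chkN_sound K t143n l245 (by decide +kernel)

open Helper55.PC in
noncomputable def t144n : Helper55.PC.Ten :=
  (r
  19223152982555344864464876981435143792166222065767722808342193712591431281453107744783148654852809608093320650303905457024090481922655525052799464819315288878615923737310989617169234710178829247490591740903582447709469953303639573398305658403250421464330638747576749950865682004394808579270625615559065304611267876674950213587274302669557380053493978263652807193731166802317722109371879747274773352437624392941266222074319536254245963261793074935041757017010558898363414202458160628428829030310732417)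

noncomputable def t144 : Tre := Helper55.PC.toT t144n

theorem ok144 : chk K t144 l246 = true :=
  Helper55.PC.chkN_sound K t144n l246 (by decide +kernel)

open Helper55.PC in
noncomputable def t145n : Helper55.PC.Ten :=
  (s
  12959494595645350182945864619156948916228063726526118333184018124281591829352908375475270749266025307761213250892831572822324826704986051608558548910935625213283307047489420942463171590121808126031427120088478113341996306404098496698429013644250699033516348506582524805521375415183118670232449444925801991525333262074139536939715590451165969927362643037924652196369054669017814589712857220920610584365900060217634445115408629394813786789913)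

noncomputable def t145 : Tre := Helper55.PC.toT t145n

theorem ok145 : chk K t145 l248 = true :=
  Helper55.PC.chkN_sound K t145n l248 (by decide +kernel)

noncomputable def t146 : Tre :=
  (.N [0,-2,1] (-1) ⟨0,[(1,0)]⟩ ⟨0,[(0,0)]⟩ (.x 0 ⟨5,[(7,1),(10,1),(1,4),(0,5),(0,2),(9,11)]⟩ ⟨0,
  [(8,0),(7,0)]⟩))

theorem ok146 : chk K t146 l252 = true := by decide +kernel

open Helper55.PC in
noncomputable def t147n : Helper55.PC.Ten :=
  (r
  1845149437274664102794079231730107671345117223151003151548899249236296512027627617175156721542459371281404729268591101624155458023489891823509940230763955291662243412505824932425427756586417344206083292277565868812415663476489653233270054407623130185630704802143215171418913520682369806984195190973542514451217987950825386351658691225414864345276797911950514271966414377855696879621540289084430314017624350669531402157839951316100285248064083764788648216895423841730791171099921090154793990196201729606040983603839189072097398373723693686483453658676324628422484766139927723223406827268300979781646400822881408252038630396402079675692513999692132396147241568166625)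

noncomputable def t147 : Tre := Helper55.PC.toT t147n

theorem ok147 : chk K t147 l254 = true :=
  Helper55.PC.chkN_sound K t147n l254 (by decide +kernel)

open Helper55.PC in
noncomputable def t148n : Helper55.PC.Ten :=
  (r
  120923344526253583093032138288800541146547135269739087028394692986162371361565304082529400573234217928232187107143576556005356794113157196064275693317942905334334811393412087452032010990146062718860593528417311727253061234400421982893968637918604812784105148701263075509508221844488608448096011535645656305106453554238290393763602266576782266231648634966926536384481652385655583618084431461937089485794096115064915885903423330249749257465776899724523376855302424170530601127940966984680280779699700914122923238337404989866060062897036646152409381368823380455930485351200886788504460624319435261989703365271438255084557251408546411937509346746923138707512511589124924129)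

noncomputable def t148 : Tre := Helper55.PC.toT t148n

theorem ok148 : chk K t148 r253 = true :=
  Helper55.PC.chkN_sound K t148n r253 (by decide +kernel)

open Helper55.PC in
noncomputable def t149n : Helper55.PC.Ten :=
  (r
  2230635182256868158412338896558937542191408746083805916720451513377760521402106578693857850102058478172135893775411066113343997067617871716453574159479457040877545084250983255843175787721404470036464361595628485103028181945817833413551637119496028524693327781907587216115159035122005278230743015773841078561538340286048946237838453100832143868546271975847268296746156166827567537203285968420172242809654675522389648910679414515476709087841735434307775681826968545641835117333888563881445033814620134077022928404787802463959283791112149269822308092371283594185599729948716351002820258067705888775004849746898724489111629300261265350077196510239586440887319609786573900673247241926424126177)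

noncomputable def t149 : Tre := Helper55.PC.toT t149n

theorem ok149 : chk K t149 l255 = true :=
  Helper55.PC.chkN_sound K t149n l255 (by decide +kernel)

noncomputable def t150 : Tre :=
  (.N [0,-2,1] (-1) ⟨0,[(0,0)]⟩ ⟨0,[(1,0)]⟩ (.x 0 ⟨5,[(7,1),(10,1),(1,4),(0,5),(0,2),(9,11)]⟩ ⟨0,
  [(8,0),(7,0)]⟩))

theorem ok150 : chk K t150 l257 = true := by decide +kernel

noncomputable def t151 : Tre :=
  (.N [0,3,1] 1 ⟨0,[(0,0)]⟩ ⟨0,[(1,0)]⟩ (.x (-2) ⟨1,[(5,1),(11,0),(2,0),(5,1),(4,0),(5,1)]⟩ ⟨3,[(0,
  3),(7,4),(5,1),(12,4),(0,3),(3,1),(1,11)]⟩))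

theorem ok151 : chk K t151 l259 = true := by decide +kernel

noncomputable def t152 : Tre :=
  (.N [0,-2,1] (-1) ⟨0,[(0,0)]⟩ ⟨0,[(1,0)]⟩ (.x 0 ⟨5,[(6,1),(10,1),(1,4),(0,5),(0,2),(9,11)]⟩ ⟨0,
  [(7,0),(7,0)]⟩))

theorem ok152 : chk K t152 l261 = true := by decide +kernel

open Helper55.PC in
noncomputable def t153n : Helper55.PC.Ten :=
  (r
  27258547638861589048980975529635245456228122406701874207380389304341981628045362410071556957409589126565732939190827660243205766010537697302959682514070042066963037008784253717873623563643826459964849442706710541199244068673530500549496476992641010770617598933738534416625032425013812912071414096270111058187638052856959306292050738629361787504612049890641790803197218476165851207241461249817303016943068776393010733271733807327737537152)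

noncomputable def t153 : Tre := Helper55.PC.toT t153n

theorem ok153 : chk K t153 r103 = true :=
  Helper55.PC.chkN_sound K t153n r103 (by decide +kernel)

theorem cl0 : Clo K (Helper55.TR.GK 1 Helper55.TR.BrU) l9 :=
  .i [n1,n0,n1,n1,m1,n0,n0,m2] (e' := [n0,n0,m1,m1,n1,n0,n0,n2]) (by decide +kernel) (by decide +kernel) (.t t5
  ok5) (.h (Helper55.TR.GK.t (L := (r10).map (fun c => Helper11.CT.insC 8 (Helper11.CT.insC 8 c))) (Helper55.TR.GT.lb Helper55.CD.Dm1_1_c0u_0.g 29851444918980254660905254272132978227038973694294988786965129664887984641924585242802107069183113055722502 (by decide +kernel)) 153973331739855531773805282196032739639247742665639658000551160232396324334151202907209575019313522088029313795836894230 (by decide +kernel)))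

theorem cl1 : Clo K (Helper55.TR.GK 1 Helper55.TR.BrU) r8 :=
  .i [n1,n0,m1,m1,n1,n0,n0,n2] (e' := [n0,n0,n1,n1,m1,n0,n0,m2]) (by decide +kernel) (by decide +kernel) cl0
  (.t t6 ok6)

theorem cl2 : Clo K (Helper55.TR.GK 1 Helper55.TR.BrU) r7 :=
  .i [n0,n1,m2,m2,n1,n0,n0,n1] (e' := [n1,m1,n2,n2,m1,n0,n0,m1]) (by decide +kernel) (by decide +kernel) (.t
  t4 ok4) cl1

theorem cl3 : Clo K (Helper55.TR.GK 1 Helper55.TR.BrU) l6 :=
  .q [n0,n0,n0,m2,n0,n0,n1,n1,n0,n1] (e' := [n0,n0,n0,n2,n0,n0,m1,m1,n0,m1]) (.p true [0,0,1] [] (⟨0,[(16,0)]⟩,⟨0,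
  [(11,0)]⟩) .k 0 (⟨0,[]⟩,⟨0,[]⟩) .k .k) (by decide +kernel) (by decide +kernel) (.t t3 ok3) cl2

theorem cl4 : Clo K (Helper55.TR.GK 1 Helper55.TR.BrU) r13 :=
  .i [n0,n0,n2,n2,m1,n0,n0,m1] (e' := [n1,n0,m2,m2,n1,n0,n0,n1]) (by decide +kernel) (by decide +kernel) (.t t9
  ok9) (.h (Helper55.TR.GK.t (L := (r14).map (fun c => Helper11.CT.insC 8 (Helper11.CT.insC 8 c))) (Helper55.TR.GT.l1 Helper55.CD.Dm1_1_c0u_1.g 150352552551247451559936097656795667460035729220019754544594063750714494414013644148010850528437041336589603542403075 (by decide +kernel)) 153973331739855531773805282196032739639247742665639658000551160232396324334151202907209575019313522088029313795836894230 (by decide +kernel)))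

theorem cl5 : Clo K (Helper55.TR.GK 1 Helper55.TR.BrU) l12 :=
  .i [n0,n0,n2,n0,m1,n2,n1] (e' := [n1,n0,m2,n0,n1,m2,m1]) (by decide +kernel) (by decide +kernel) (.t t8
  ok8) cl4

theorem cl6 : Clo K (Helper55.TR.GK 1 Helper55.TR.BrU) l20 :=
  .q [n0,n0,m2,n0,n1,n0,m1,n0,n1,m1] (e' := [n0,n0,n2,n0,m1,n0,n1,n0,m1,n1]) (.p false [0,0,1] [1] (⟨0,[(24,0)]⟩,
  ⟨0,[(19,0)]⟩) .k 1 (⟨0,[]⟩,⟨0,[]⟩) .k .k) (by decide +kernel) (by decide +kernel) (.t t13 ok13)
  (.h (Helper55.TR.GK.u Helper55.CD.Dm1_1_c0u_2.g 160977433098417194287979827104696324969458366927270794405604878392662289560283626782438984593341306159749233995788929033674473605123 (by decide +kernel)))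

theorem cl7 : Clo K (Helper55.TR.GK 1 Helper55.TR.BrU) l22 :=
  .q [n0,m1,m2,n0,n1,n0,m2,m1,n1,m2] (e' := [n0,n1,n2,n0,m1,n0,n2,n1,m1,n2]) (.p false [0,0,1] [1,0,-1] (⟨0,[(25,
  0)]⟩,⟨0,[(20,0)]⟩) .k 2 (⟨0,[(20,0)]⟩,⟨0,[(25,0)]⟩) .k (.r (-1) ⟨0,[(23,0),(6,1)]⟩ ⟨0,[(42,1)]⟩))
  (by decide +kernel) (by decide +kernel) (.t t14 ok14) (.h (Helper55.TR.GK.t Helper55.CD.Dm1_1_c0u_3.g 130472688109275053163319661529914070110958312460919949179978928830726605250615806787577432500022205973964648741850090808875411326995 (by decide +kernel)))

theorem cl8 : Clo K (Helper55.TR.GK 1 Helper55.TR.BrU) l25 :=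
  .q [n0,n0,m2,n0,n1,n0,m1,n0,n1,m1] (e' := [n0,n0,n2,n0,m1,n0,n1,n0,m1,n1]) (.p false [0,0,1] [1] (⟨0,[(27,0)]⟩,
  ⟨0,[(22,0)]⟩) .k 1 (⟨0,[]⟩,⟨0,[]⟩) .k .k) (by decide +kernel) (by decide +kernel) (.t t16 ok16)
  (.h (Helper55.TR.GK.u Helper55.CD.Dm1_1_c0u_4.g 158574009241227738313624603347963289696280279793611370271535459556038562987691193890797709866271501842531043417654275619581235306351598398099459 (by decide +kernel)))

theorem cl9 : Clo K (Helper55.TR.GK 1 Helper55.TR.BrU) r24 :=
  .i [n0,n1,m2,m2,n1,n0,n0,n1] (e' := [n1,m1,n2,n2,m1,n0,n0,m1]) (by decide +kernel) (by decide +kernel) cl8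
  (.h (Helper55.TR.GK.t Helper55.CD.Dm1_1_c0u_5.g 150023987500665790223796504926281791384890491562598544048765028879719981479818197969612831871562692473749664994504534299472231589284590342743525394 (by decide +kernel)))

theorem cl10 : Clo K (Helper55.TR.GK 1 Helper55.TR.BrU) r22 :=
  .i [n1,n0,n1,n1,m1,n0,n0,m2] (e' := [n0,n0,m1,m1,n1,n0,n0,n2]) (by decide +kernel) (by decide +kernel) (.t
  t15 ok15) cl9

theorem cl11 : Clo K (Helper55.TR.GK 1 Helper55.TR.BrU) r20 :=
  .i [n0,n0,n1,n1,m1,n0,n0,m2] (e' := [n1,n0,m1,m1,n1,n0,n0,n2]) (by decide +kernel) (by decide +kernel) cl7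
  cl10

theorem cl12 : Clo K (Helper55.TR.GK 1 Helper55.TR.BrU) l19 :=
  .i [n1,n1,m2,m1,n1,n0,n0,n1] (e' := [n0,m1,n2,n1,m1,n0,n0,m1]) (by decide +kernel) (by decide +kernel) cl6
  cl11

theorem cl13 : Clo K (Helper55.TR.GK 1 Helper55.TR.BrU) r18 :=
  .q [n0,n0,n0,n0,n0,m2,n0,n0,n0,n1] (e' := [n0,n0,n0,n0,n0,n2,n0,n0,n0,m1]) (.p true [0,0,1] [] (⟨0,[(22,0)]⟩,⟨0,
  [(17,0)]⟩) .k 0 (⟨0,[]⟩,⟨0,[]⟩) .k .k) (by decide +kernel) (by decide +kernel) cl12 (.h (Helper55.TR.GK.t Helper55.CD.Dm1_1_c0u_6.g 103191545917318589052860201690872453777580199133381105305088496445464090605223332692453017308447883127331680772644836837796962390169059155630882825 (by decide +kernel)))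

theorem cl14 : Clo K (Helper55.TR.GK 1 Helper55.TR.BrU) r17 :=
  .i [n0,n1,m1,m2,n0,n0,n0,m1] (e' := [n1,m1,n1,n2,n0,n0,n0,n1]) (by decide +kernel) (by decide +kernel) (.t
  t12 ok12) cl13

theorem cl15 : Clo K (Helper55.TR.GK 1 Helper55.TR.BrU) l16 :=
  .i [n1,n1,m1,m1,n0,n0,n0,m1] (e' := [n0,m1,n1,n1,n0,n0,n0,n1]) (by decide +kernel) (by decide +kernel) (.t
  t11 ok11) cl14

theorem cl16 : Clo K (Helper55.TR.GK 1 Helper55.TR.BrU) l28 :=
  .q [n0,n0,m2,n0,n1,n0,m1,n0,n1,m1] (e' := [n0,n0,n2,n0,m1,n0,n1,n0,m1,n1]) (.p false [0,0,1] [1] (⟨0,[(22,0)]⟩,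
  ⟨0,[(17,0)]⟩) .k 1 (⟨0,[]⟩,⟨0,[]⟩) .k .k) (by decide +kernel) (by decide +kernel) (.t t17 ok17)
  (.h (Helper55.TR.GK.sub Helper55.CD.Dm1_1_c0u_7.g 136990479438047880695099350155421076857537696693673314586682392451890120905569436568209071122325322858419721372133262123010 (by decide +kernel)))

theorem cl17 : Clo K (Helper55.TR.GK 1 Helper55.TR.BrU) l30 :=
  .i [n1,n0,n1,n1,m1,n0,n0,m2] (e' := [n0,n0,m1,m1,n1,n0,n0,n2]) (by decide +kernel) (by decide +kernel) (.t
  t18 ok18) (.h (Helper55.TR.GK.t Helper55.CD.Dm1_1_c0u_8.g 96081253200453554527201584132747734392414427320737329155874422564263414495931232190279712319378928930675346274590879496899494960250767990235247688706 (by decide +kernel)))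

theorem cl18 : Clo K (Helper55.TR.GK 1 Helper55.TR.BrU) r30 :=
  .q [n0,m1,m2,n0,n1,n0,m2,m1,n1,m2] (e' := [n0,n1,n2,n0,m1,n0,n2,n1,m1,n2]) (.p false [0,0,1] [1,0,-1] (⟨0,[(23,
  0)]⟩,⟨0,[(18,0)]⟩) .k 2 (⟨0,[(18,0)]⟩,⟨0,[(23,0)]⟩) .k (.r (-1) ⟨0,[(21,0),(6,1)]⟩ ⟨0,[(40,1)]⟩))
  (by decide +kernel) (by decide +kernel) (.t t19 ok19) (.h (Helper55.TR.GK.t (L := (r32).map (fun c => Helper11.CT.insC 8 (Helper11.CT.insC 8 c))) (Helper55.TR.GT.lb Helper55.CD.Dm1_1_c0u_9.g 224708470667995716745461900554664554913621930450610681329117877921813170541842461864880904930289021562376503193684677521619136219358662389776312640799262726 (by decide +kernel)) 180396988720093117717095696828907801659517992922700179818974084898736639255115457538875788014776833586601156327275776174115105299478 (by decide +kernel)))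

theorem cl19 : Clo K (Helper55.TR.GK 1 Helper55.TR.BrU) r28 :=
  .i [n1,n0,m1,m1,n1,n0,n0,n2] (e' := [n0,n0,n1,n1,m1,n0,n0,m2]) (by decide +kernel) (by decide +kernel) cl17
  cl18

theorem cl20 : Clo K (Helper55.TR.GK 1 Helper55.TR.BrU) l27 :=
  .i [n0,n1,m2,m2,n1,n0,n0,n1] (e' := [n1,m1,n2,n2,m1,n0,n0,m1]) (by decide +kernel) (by decide +kernel) cl16
  cl19

theorem cl21 : Clo K (Helper55.TR.GK 1 Helper55.TR.BrU) r16 :=
  .q [n0,n0,n0,n0,n0,m2,n0,n0,n0,n1] (e' := [n0,n0,n0,n0,n0,n2,n0,n0,n0,m1]) (.p true [0,0,1] [] (⟨0,[(20,0)]⟩,⟨0,
  [(15,0)]⟩) .k 0 (⟨0,[]⟩,⟨0,[]⟩) .k .k) (by decide +kernel) (by decide +kernel) cl20 (.h (Helper55.TR.GK.t (L := (r27).map (fun c => Helper11.CT.insC 8 (Helper11.CT.insC 8 c))) (Helper55.TR.GT.lb Helper55.CD.Dm1_1_c0u_10.g 154977913920251317504931593597892798707870916687789021009575873676746313834426284886558630112075144175237516486730161588227 (by decide +kernel)) 160253465773128188090440793946382768948081006898077497453501431265752548889378305269945221478387859071114025976106181483542 (by decide +kernel)))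

theorem cl22 : Clo K (Helper55.TR.GK 1 Helper55.TR.BrU) r15 :=
  .q [n0,n0,n0,n0,n0,m2,n0,n0,n1,m1] (e' := [n0,n0,n0,n0,n0,n2,n0,n0,m1,n1]) (.p false [0,0,1] [1] (⟨0,[(19,0)]⟩,⟨0,
  [(14,0)]⟩) .k 1 (⟨0,[]⟩,⟨0,[]⟩) .k .k) (by decide +kernel) (by decide +kernel) cl15 cl21

theorem cl23 : Clo K (Helper55.TR.GK 1 Helper55.TR.BrU) r12 :=
  .i [n0,n1,m2,n0,n1,n0,n0,n1] (e' := [n1,m1,n2,n0,m1,n0,n0,m1]) (by decide +kernel) (by decide +kernel) (.t
  t10 ok10) cl22

theorem cl24 : Clo K (Helper55.TR.GK 1 Helper55.TR.BrU) r11 :=
  .q [n0,n0,n0,m2,n0,n0,n1,n1,n0,n1] (e' := [n0,n0,n0,n2,n0,n0,m1,m1,n0,m1]) (.p true [0,0,1] [] (⟨0,[(17,0)]⟩,⟨0,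
  [(12,0)]⟩) .k 0 (⟨0,[]⟩,⟨0,[]⟩) .k .k) (by decide +kernel) (by decide +kernel) cl5 cl23

theorem cl25 : Clo K (Helper55.TR.GK 1 Helper55.TR.BrU) r6 :=
  .i [n0,n0,m2,m2,n1,n0,n0,n1] (e' := [n1,n0,n2,n2,m1,n0,n0,m1]) (by decide +kernel) (by decide +kernel) (.t t7
  ok7) cl24

theorem cl26 : Clo K (Helper55.TR.GK 1 Helper55.TR.BrU) r5 :=
  .i [n0,n0,m2,n0,n1,m2,m1] (e' := [n1,n0,n2,n0,m1,n2,n1]) (by decide +kernel) (by decide +kernel) cl3 cl25

theorem cl27 : Clo K (Helper55.TR.GK 1 Helper55.TR.BrU) l4 :=
  .i [n0,n1,m1,m1,n0,n0,n0,m1] (e' := [n1,m1,n1,n1,n0,n0,n0,n1]) (by decide +kernel) (by decide +kernel) (.t t2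
  ok2) cl26

theorem cl28 : Clo K (Helper55.TR.GK 1 Helper55.TR.BrU) r36 :=
  .i [n0,n0,m2,m2,n1,n0,n0,n1] (e' := [n1,n0,n2,n2,m1,n0,n0,m1]) (by decide +kernel) (by decide +kernel) (.t
  t23 ok23) (.h (Helper55.TR.GK.t (L := (r37).map (fun c => Helper11.CT.insC 8 (Helper11.CT.insC 8 c))) (Helper55.TR.GT.l1 Helper55.CD.Dm1_1_c0u_11.g 31296715201187964613352644264760655035792659215556318886387470219891449944324103547092021844174638122883426028550 (by decide +kernel)) 147899549131484929067909645072071344216440553742554208881022782221026538226092680248279560242811426320238121679084566 (by decide +kernel)))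

theorem cl29 : Clo K (Helper55.TR.GK 1 Helper55.TR.BrU) r35 :=
  .i [n0,n0,m2,n0,n1,m2,m1] (e' := [n1,n0,n2,n0,m1,n2,n1]) (by decide +kernel) (by decide +kernel) (.t t22
  ok22) cl28

theorem cl30 : Clo K (Helper55.TR.GK 1 Helper55.TR.BrU) r34 :=
  .i [n0,n0,n2,n0,m1,n2,n1] (e' := [n1,n0,m2,n0,n1,m2,m1]) (by decide +kernel) (by decide +kernel) (.t t21
  ok21) cl29

theorem cl31 : Clo K (Helper55.TR.GK 1 Helper55.TR.BrU) l33 :=
  .i [n0,n0,n2,n2,m1,n0,n0,m1] (e' := [n1,n0,m2,m2,n1,n0,n0,n1]) (by decide +kernel) (by decide +kernel) (.t
  t20 ok20) cl30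

theorem cl32 : Clo K (Helper55.TR.GK 1 Helper55.TR.BrU) l38 :=
  .q [n0,n0,m1,n0,n1,n0,m2,n0,n1,m2] (e' := [n0,n0,n1,n0,m1,n0,n2,n0,m1,n2]) (.p false [0,0,1] [1,0,-1] (⟨0,[(16,
  0)]⟩,⟨0,[(11,0)]⟩) .k 2 (⟨0,[(11,0)]⟩,⟨0,[(16,0)]⟩) .k (.r (-1) ⟨0,[(14,0),(6,1)]⟩ ⟨0,[(33,1)]⟩))
  (by decide +kernel) (by decide +kernel) (.t t24 ok24) (.h (Helper55.TR.GK.u Helper55.CD.Dm1_1_c0u_12.g 32144917266512008589364901988975370710727218421582360030506849559632036609701232707652555896416025593251843 (by decide +kernel)))

theorem cl33 : Clo K (Helper55.TR.GK 1 Helper55.TR.BrU) l42 :=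
  .q [n0,m1,n0,n1,n0,n0,m1,m1,n1,m1] (e' := [n0,n1,n0,m1,n0,n0,n1,n1,m1,n1]) (.p false [0,0,1] [1] (⟨0,[(19,0)]⟩,
  ⟨0,[(14,0)]⟩) .k 1 (⟨0,[]⟩,⟨0,[]⟩) .k .k) (by decide +kernel) (by decide +kernel) (.t t25 ok25)
  (.h (Helper55.TR.GK.u Helper55.CD.Dm1_1_c0u_13.g 126669047482189926009824310092087768061366084903372838814026863210623804307127930616301078565592588460083680514904165451779 (by decide +kernel)))

theorem cl34 : Clo K (Helper55.TR.GK 1 Helper55.TR.BrU) l44 :=
  .q [n0,m1,m2,n0,n1,n0,m2,m1,n1,m2] (e' := [n0,n1,n2,n0,m1,n0,n2,n1,m1,n2]) (.p false [0,0,1] [1,0,-1] (⟨0,[(20,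
  0)]⟩,⟨0,[(15,0)]⟩) .k 2 (⟨0,[(15,0)]⟩,⟨0,[(20,0)]⟩) .k (.r (-1) ⟨6,[(2,1),(1,3),(7,0),(0,3),(11,
  5)]⟩ ⟨0,[(37,1)]⟩)) (by decide +kernel) (by decide +kernel) (.t t26 ok26) (.h (Helper55.TR.GK.t Helper55.CD.Dm1_1_c0u_14.g 68567077922284530651194416841414345803278075561179398857246450715135705401676075430599197240614927407325035558809368162596458010087927070779 (by decide +kernel)))

theorem cl35 : Clo K (Helper55.TR.GK 1 Helper55.TR.BrU) r44 :=
  .q [n0,m1,m2,n0,n1,n0,m2,m1,n1,m2] (e' := [n0,n1,n2,n0,m1,n0,n2,n1,m1,n2]) (.p false [0,0,1] [1,0,-1] (⟨0,[(20,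
  0)]⟩,⟨0,[(15,0)]⟩) .k 2 (⟨0,[(15,0)]⟩,⟨0,[(20,0)]⟩) .k (.r (-1) ⟨6,[(2,1),(1,3),(7,0),(0,3),(11,
  5)]⟩ ⟨0,[(37,1)]⟩)) (by decide +kernel) (by decide +kernel) (.t t27 ok27) (.h (Helper55.TR.GK.t (L := (r46).map (fun c => Helper11.CT.insC 8 (Helper11.CT.insC 8 c))) (Helper55.TR.GT.lJ Helper55.CD.Dm1_1_c0u_15.g 51331100490546396003804994057311365032149966728005226795702006610766543235337586649944400761781632241722201530175771612853173608814035346260958906369 (by decide +kernel)) 160253465773128188090440793946382768948081006898077497453501431265752548889378305269945221478387859071114025976106181483542 (by decide +kernel)))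

theorem cl36 : Clo K (Helper55.TR.GK 1 Helper55.TR.BrU) r42 :=
  .q [n0,n0,n0,n0,n0,m2,n0,n0,n0,n1] (e' := [n0,n0,n0,n0,n0,n2,n0,n0,n0,m1]) (.p true [0,0,1] [] (⟨0,[(19,0)]⟩,⟨0,
  [(14,0)]⟩) .k 0 (⟨0,[]⟩,⟨0,[]⟩) .k .k) (by decide +kernel) (by decide +kernel) cl34 cl35

theorem cl37 : Clo K (Helper55.TR.GK 1 Helper55.TR.BrU) l41 :=
  .i [n0,n1,m1,m1,n0,n0,n0,m1] (e' := [n1,m1,n1,n1,n0,n0,n0,n1]) (by decide +kernel) (by decide +kernel) cl33
  cl36

theorem cl38 : Clo K (Helper55.TR.GK 1 Helper55.TR.BrU) l40 :=
  .q [n0,n0,m1,n0,n1,n0,m2,n0,n1,m2] (e' := [n0,n0,n1,n0,m1,n0,n2,n0,m1,n2]) (.p false [0,0,1] [1,0,-1] (⟨0,[(17,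
  0)]⟩,⟨0,[(12,0)]⟩) .k 2 (⟨0,[(12,0)]⟩,⟨0,[(17,0)]⟩) .k (.r (-1) ⟨0,[(1,0),(8,0),(2,0)]⟩ ⟨0,[(34,
  1)]⟩)) (by decide +kernel) (by decide +kernel) cl37 (.h (Helper55.TR.GK.t Helper55.CD.Dm1_1_c0u_16.g 149073548944886725248350808708785790815441058355459905438487558943677184934683868055193044913082160071767650124658218320388967426 (by decide +kernel)))

theorem cl39 : Clo K (Helper55.TR.GK 1 Helper55.TR.BrU) l49 :=
  .q [n0,n0,m2,n0,n1,n0,m1,n0,n1,m1] (e' := [n0,n0,n2,n0,m1,n0,n1,n0,m1,n1]) (.p false [0,0,1] [1] (⟨0,[(20,0)]⟩,
  ⟨0,[(15,0)]⟩) .k 1 (⟨0,[]⟩,⟨0,[]⟩) .k .k) (by decide +kernel) (by decide +kernel) (.t t29 ok29)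
  (.h (Helper55.TR.GK.x1 Helper55.CD.Dm1_1_c0u_17.g 34501554236871439738950843184252279647843155727648199557751977385419283403945242428528971366537464761865643387857208433708034 (by decide +kernel)))

theorem cl40 : Clo K (Helper55.TR.GK 1 Helper55.TR.BrU) l52 :=
  .i [n0,n1,m1,m1,n0,n0,n0,m1] (e' := [n1,m1,n1,n1,n0,n0,n0,n1]) (by decide +kernel) (by decide +kernel) (.t
  t30 ok30) (.h (Helper55.TR.GK.x1 Helper55.CD.Dm1_1_c0u_18.g 152503725493130614245663535197837887764691141819138511265510951370829885112629017995787594524916079366244733000143792983902828711615154585865218 (by decide +kernel)))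

theorem cl41 : Clo K (Helper55.TR.GK 1 Helper55.TR.BrU) l51 :=
  .q [n0,n0,m2,n0,n1,n0,m1,n0,n1,m1] (e' := [n0,n0,n2,n0,m1,n0,n1,n0,m1,n1]) (.p false [0,0,1] [1] (⟨0,[(21,0)]⟩,
  ⟨0,[(16,0)]⟩) .k 1 (⟨0,[]⟩,⟨0,[]⟩) .k .k) (by decide +kernel) (by decide +kernel) cl40 (.h
  (Helper55.TR.GK.u Helper55.CD.Dm1_1_c0u_19.g 135505930422149420386528282682713902173693510300423283010688237891335229714331304062506043410957976378454929040889756630069020675 (by decide +kernel)))

theorem cl42 : Clo K (Helper55.TR.GK 1 Helper55.TR.BrU) r49 :=
  .i [n0,n1,m2,m1,n1,n0,n0,n1] (e' := [n1,m1,n2,n1,m1,n0,n0,m1]) (by decide +kernel) (by decide +kernel) cl41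
  (.h (Helper55.TR.GK.t (L := (r51).map (fun c => Helper11.CT.insC 8 (Helper11.CT.insC 8 c))) (Helper55.TR.GT.lJ Helper55.CD.Dm1_1_c0u_20.g 199984015634753171844298800710317559920881929291827047645334025950498110931619386581688858841733096222478329297347198378792077054632851073688152064 (by decide +kernel)) 160253465773128188090440793946382768948081006898077497453501431265752548889378305269945221478387859071114025976106181483542 (by decide +kernel)))

theorem cl43 : Clo K (Helper55.TR.GK 1 Helper55.TR.BrU) l48 :=
  .i [n0,n1,m1,n0,n0,n0,n0,m1] (e' := [n1,m1,n1,n0,n0,n0,n0,n1]) (by decide +kernel) (by decide +kernel) cl39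
  cl42

theorem cl44 : Clo K (Helper55.TR.GK 1 Helper55.TR.BrU) l55 :=
  .i [n0,n1,m2,m2,n1,n0,n0,n1] (e' := [n1,m1,n2,n2,m1,n0,n0,m1]) (by decide +kernel) (by decide +kernel) (.t
  t31 ok31) (.h (Helper55.TR.GK.x1 Helper55.CD.Dm1_1_c0u_21.g 145949360777174806432744554356168076119276113813464878635292093038271466488755043287297950924907588700332629055593911013454304796709249616898 (by decide +kernel)))

theorem cl45 : Clo K (Helper55.TR.GK 1 Helper55.TR.BrU) l54 :=
  .q [n0,n0,m2,n0,n1,n0,m1,n0,n1,m1] (e' := [n0,n0,n2,n0,m1,n0,n1,n0,m1,n1]) (.p false [0,0,1] [1] (⟨0,[(20,0)]⟩,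
  ⟨0,[(15,0)]⟩) .k 1 (⟨0,[]⟩,⟨0,[]⟩) .k .k) (by decide +kernel) (by decide +kernel) cl44 (.h
  (Helper55.TR.GK.t (L := (r55).map (fun c => Helper11.CT.insC 8 (Helper11.CT.insC 8 c))) (Helper55.TR.GT.lb Helper55.CD.Dm1_1_c0u_22.g 175013132348295612338109585576645569633420216553442967316082863859310627227301290226510368463851413038973827925162125380395500569575862778359447555 (by decide +kernel)) 160253465773128188090440793946382768948081006898077497453501431265752548889378305269945221478387859071114025976106181483542 (by decide +kernel)))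

theorem cl46 : Clo K (Helper55.TR.GK 1 Helper55.TR.BrU) r54 :=
  .q [n0,n0,m2,n0,n1,n0,m1,n0,n1,m1] (e' := [n0,n0,n2,n0,m1,n0,n1,n0,m1,n1]) (.p false [0,0,1] [1] (⟨0,[(20,0)]⟩,
  ⟨0,[(15,0)]⟩) .k 1 (⟨0,[]⟩,⟨0,[]⟩) .k .k) (by decide +kernel) (by decide +kernel) (.t t32 ok32)
  (.h (Helper55.TR.GK.u Helper55.CD.Dm1_1_c0u_23.g 129683312477232450345640783176190950058975606193191021381265548732041122743014196291162691360238488084723897041501703802718211 (by decide +kernel)))

theorem cl47 : Clo K (Helper55.TR.GK 1 Helper55.TR.BrU) r48 :=
  .i [n1,m1,n2,n1,m1,n0,n0,m1] (e' := [n0,n1,m2,m1,n1,n0,n0,n1]) (by decide +kernel) (by decide +kernel) cl45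
  cl46

theorem cl48 : Clo K (Helper55.TR.GK 1 Helper55.TR.BrU) r47 :=
  .q [n0,n0,n0,n0,n0,n2,n0,n0,n0,m1] (e' := [n0,n0,n0,n0,n0,m2,n0,n0,n0,n1]) (.p false [0,0,1] [] (⟨0,[(18,0)]⟩,⟨0,
  [(13,0)]⟩) .k 0 (⟨0,[]⟩,⟨0,[]⟩) .k .k) (by decide +kernel) (by decide +kernel) cl43 cl47

theorem cl49 : Clo K (Helper55.TR.GK 1 Helper55.TR.BrU) r40 :=
  .i [n1,n0,n1,n1,m1,n0,n0,m2] (e' := [n0,n0,m1,m1,n1,n0,n0,n2]) (by decide +kernel) (by decide +kernel) (.t
  t28 ok28) cl48

theorem cl50 : Clo K (Helper55.TR.GK 1 Helper55.TR.BrU) r38 :=
  .i [n0,n0,n1,n1,m1,n0,n0,m2] (e' := [n1,n0,m1,m1,n1,n0,n0,n2]) (by decide +kernel) (by decide +kernel) cl38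
  cl49

theorem cl51 : Clo K (Helper55.TR.GK 1 Helper55.TR.BrU) r33 :=
  .i [n0,n1,n1,n0,m1,n0,n0,m1] (e' := [n1,m1,m1,n0,n1,n0,n0,n1]) (by decide +kernel) (by decide +kernel) cl32
  cl50

theorem cl52 : Clo K (Helper55.TR.GK 1 Helper55.TR.BrU) r4 :=
  .q [n0,n0,n0,m2,n0,n0,n1,n1,n0,n1] (e' := [n0,n0,n0,n2,n0,n0,m1,m1,n0,m1]) (.p true [0,0,1] [] (⟨0,[(14,0)]⟩,⟨0,
  [(9,0)]⟩) .k 0 (⟨0,[]⟩,⟨0,[]⟩) .k .k) (by decide +kernel) (by decide +kernel) cl31 cl51

theorem cl53 : Clo K (Helper55.TR.GK 1 Helper55.TR.BrU) r3 :=
  .q [n0,n0,n1,n0,n0,n0,m2,n0,n1,m2] (e' := [n0,n0,m1,n0,n0,n0,n2,n0,m1,n2]) (.p false [0,0,1] [1,0,-1] (⟨0,[(13,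
  0)]⟩,⟨0,[(8,0)]⟩) .k 2 (⟨0,[(8,0)]⟩,⟨0,[(13,0)]⟩) .k (.r (-1) ⟨0,[(11,0),(6,1)]⟩ ⟨0,[(30,1)]⟩))
  (by decide +kernel) (by decide +kernel) cl27 cl52

theorem cl54 : Clo K (Helper55.TR.GK 1 Helper55.TR.BrU) l2 :=
  .q [n0,n1,n0,n1,n0,n0,n1,n1,n0,n1] (e' := [n0,m1,n0,m1,n0,n0,m1,m1,n0,m1]) (.p true [0,0,1] [] (⟨0,[(12,0)]⟩,⟨0,
  [(7,0)]⟩) .k 0 (⟨0,[]⟩,⟨0,[]⟩) .k .k) (by decide +kernel) (by decide +kernel) (.t t1 ok1) cl53

theorem cl55 : Clo K (Helper55.TR.GK 1 Helper55.TR.BrU) l64 :=
  .q [n0,m1,n0,n0,n0,n0,m2,m1,n2,m2] (e' := [n0,n1,n0,n0,n0,n0,n2,n1,m2,n2]) (.p false [0,0,1] [2,-1,-1] (⟨0,[(19,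
  0)]⟩,⟨0,[(14,0)]⟩) .k 2 (⟨0,[(14,0),(22,0)]⟩,⟨0,[(7,0)]⟩) .k (.r (-1) ⟨0,[(17,0),(6,1)]⟩ ⟨5,[(0,
  3),(2,1),(9,2),(9,0),(5,0)]⟩)) (by decide +kernel) (by decide +kernel) (.t t37 ok37) (.h (Helper55.TR.GK.t Helper55.CD.Dm1_1_c0u_24.g 171698688346030553917127930261499859089016437823622991513124264700817849369566304779107468459570839249037408031836766651369484138719479852 (by decide +kernel)))

theorem cl56 : Clo K (Helper55.TR.GK 1 Helper55.TR.BrU) l68 :=
  .i [n0,n1,m2,m2,n1,n0,n0,n1] (e' := [n1,m1,n2,n2,m1,n0,n0,m1]) (by decide +kernel) (by decide +kernel) (.t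
  t39 ok39) (.h (Helper55.TR.GK.sub Helper55.CD.Dm1_1_c0u_25.g 83540956122618585277220818376172143760778029932595293548884894474395015023841707809778008351767 (by decide +kernel)))

theorem cl57 : Clo K (Helper55.TR.GK 1 Helper55.TR.BrU) l67 :=
  .q [n0,n0,n0,n0,n0,m2,n0,n0,n0,n1] (e' := [n0,n0,n0,n0,n0,n2,n0,n0,n0,m1]) (.p true [0,0,1] [] (⟨0,[(21,0)]⟩,⟨0,
  [(16,0)]⟩) .k 0 (⟨0,[]⟩,⟨0,[]⟩) .k .k) (by decide +kernel) (by decide +kernel) cl56 (.h (Helper55.TR.GK.t (L := (r68).map (fun c => Helper11.CT.insC 8 (Helper11.CT.insC 8 c))) (Helper55.TR.GT.lb Helper55.CD.Dm1_1_c0u_26.g 166738474557168731211209878351954361892289603698903731362021294424726469612508081488171054380461085090416619921596078332319771 (by decide +kernel)) 166746357600915775123973098418204684805706061113896944757184997840416011940439837453217626252286639640664099456281992474156054 (by decide +kernel)))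

theorem cl58 : Clo K (Helper55.TR.GK 1 Helper55.TR.BrU) r66 :=
  .q [n0,n0,m2,n0,n1,n0,m1,n0,n1,m1] (e' := [n0,n0,n2,n0,m1,n0,n1,n0,m1,n1]) (.p false [0,0,1] [1] (⟨0,[(20,0)]⟩,
  ⟨0,[(15,0)]⟩) .k 1 (⟨0,[]⟩,⟨0,[]⟩) .k .k) (by decide +kernel) (by decide +kernel) cl57 (.h
  (Helper55.TR.GK.t (L := (r67).map (fun c => Helper11.CT.insC 8 (Helper11.CT.insC 8 c))) (Helper55.TR.GT.lJ Helper55.CD.Dm1_1_c0u_27.g 180057091227610472872690580755799446933306966556392007480865254592080145438163242920057503662838620203632183712076963907909964883331245914720259 (by decide +kernel)) 160253465773128188090440793946382768948081006898077497453501431265752548889378305269945221478387859071114025976106181483542 (by decide +kernel)))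

theorem cl59 : Clo K (Helper55.TR.GK 1 Helper55.TR.BrU) r64 :=
  .i [n1,n0,m1,m1,n0,n0,n0,m2] (e' := [n0,n0,n1,n1,n0,n0,n0,n2]) (by decide +kernel) (by decide +kernel) (.t t38
  ok38) cl58

theorem cl60 : Clo K (Helper55.TR.GK 1 Helper55.TR.BrU) r63 :=
  .i [n0,n0,m1,m1,n0,n0,n0,m2] (e' := [n1,n0,n1,n1,n0,n0,n0,n2]) (by decide +kernel) (by decide +kernel) cl55
  cl59

theorem cl61 : Clo K (Helper55.TR.GK 1 Helper55.TR.BrU) r62 :=
  .i [n0,n1,m1,m2,n0,n0,n0,m1] (e' := [n1,m1,n1,n2,n0,n0,n0,n1]) (by decide +kernel) (by decide +kernel) (.t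
  t36 ok36) cl60

theorem cl62 : Clo K (Helper55.TR.GK 1 Helper55.TR.BrU) r61 :=
  .i [n0,n1,m2,n0,n1,n0,n0,n1] (e' := [n1,m1,n2,n0,m1,n0,n0,m1]) (by decide +kernel) (by decide +kernel) (.t
  t35 ok35) cl61

theorem cl63 : Clo K (Helper55.TR.GK 1 Helper55.TR.BrU) l60 :=
  .q [n0,n0,n0,m2,n0,n0,n1,n1,n0,n1] (e' := [n0,n0,n0,n2,n0,n0,m1,m1,n0,m1]) (.p true [0,0,1] [] (⟨0,[(15,0)]⟩,⟨0,
  [(10,0)]⟩) .k 0 (⟨0,[]⟩,⟨0,[]⟩) .k .k) (by decide +kernel) (by decide +kernel) (.t t34 ok34) cl62

theorem cl64 : Clo K (Helper55.TR.GK 1 Helper55.TR.BrU) l76 :=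
  .i [n0,n0,m2,n0,n1,m2,m1] (e' := [n1,n0,n2,n0,m1,n2,n1]) (by decide +kernel) (by decide +kernel) (.t t43
  ok43) (.h (Helper55.TR.GK.sub Helper55.CD.Dm1_1_c0u_28.g 116993171687596189667944274359468105217109330636986363742500597038762432795155621039053349295291772260327449 (by decide +kernel)))

theorem cl65 : Clo K (Helper55.TR.GK 1 Helper55.TR.BrU) r79 :=
  .i [n0,n0,n1,n1,m1,n0,n0,m2] (e' := [n1,n0,m1,m1,n1,n0,n0,n2]) (by decide +kernel) (by decide +kernel) (.t
  t46 ok46) (.h (Helper55.TR.GK.sub Helper55.CD.Dm1_1_c0u_29.g 26571539284674908801663123716028975512148975673405502887024193739800924552590348853738104980723217392185830829058 (by decide +kernel)))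

theorem cl66 : Clo K (Helper55.TR.GK 1 Helper55.TR.BrU) r78 :=
  .i [n0,n1,m2,m2,n1,n0,n0,n1] (e' := [n1,m1,n2,n2,m1,n0,n0,m1]) (by decide +kernel) (by decide +kernel) (.t
  t45 ok45) cl65

theorem cl67 : Clo K (Helper55.TR.GK 1 Helper55.TR.BrU) r76 :=
  .q [n0,n0,n0,m2,n0,n0,n1,n1,n0,n1] (e' := [n0,n0,n0,n2,n0,n0,m1,m1,n0,m1]) (.p true [0,0,1] [] (⟨0,[(22,0)]⟩,⟨0,
  [(17,0)]⟩) .k 0 (⟨0,[]⟩,⟨0,[]⟩) .k .k) (by decide +kernel) (by decide +kernel) (.t t44 ok44) cl66

theorem cl68 : Clo K (Helper55.TR.GK 1 Helper55.TR.BrU) r75 :=
  .i [n1,n0,m2,m2,n1,n0,n0,n1] (e' := [n0,n0,n2,n2,m1,n0,n0,m1]) (by decide +kernel) (by decide +kernel) cl64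
  cl67

theorem cl69 : Clo K (Helper55.TR.GK 1 Helper55.TR.BrU) r74 :=
  .q [n0,n0,n0,n0,n0,n0,m1,n0,n2,m1] (e' := [n0,n0,n0,n0,n0,n0,n1,n0,m2,n1]) (.p false [-1,1,1] [1] (⟨0,[(8,0)]⟩,⟨0,
  [(15,0),(22,0)]⟩) .k 1 (⟨0,[]⟩,⟨0,[]⟩) .k .k) (by decide +kernel) (by decide +kernel) (.t t42
  ok42) cl68

theorem cl70 : Clo K (Helper55.TR.GK 1 Helper55.TR.BrU) l73 :=
  .q [n0,m1,n0,n0,n0,n0,m2,m1,n2,m2] (e' := [n0,n1,n0,n0,n0,n0,n2,n1,m2,n2]) (.p false [0,0,1] [2,-1,-1] (⟨0,[(19,
  0)]⟩,⟨0,[(14,0)]⟩) .k 2 (⟨0,[(14,0),(22,0)]⟩,⟨0,[(7,0)]⟩) .k (.r (-1) ⟨0,[(17,0),(6,1)]⟩ ⟨2,[(0,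
  1),(19,1),(8,1)]⟩)) (by decide +kernel) (by decide +kernel) (.t t41 ok41) cl69

theorem cl71 : Clo K (Helper55.TR.GK 1 Helper55.TR.BrU) l82 :=
  .i [n0,n0,m2,n0,n1,m2,m1] (e' := [n1,n0,n2,n0,m1,n2,n1]) (by decide +kernel) (by decide +kernel) (.t t48
  ok48) (.h (Helper55.TR.GK.t (L := (r83).map (fun c => Helper11.CT.insC 8 (Helper11.CT.insC 8 c))) (Helper55.TR.GT.lb Helper55.CD.Dm1_1_c0u_30.g 84266318943664161334910504097629614574562133542381122490551018478617 (by decide +kernel)) 166746357600915775123973098418204684805706061113896944757184997840416011940439837453217626252286639640664099456281992474156054 (by decide +kernel)))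

theorem cl72 : Clo K (Helper55.TR.GK 1 Helper55.TR.BrU) r82 :=
  .i [n0,n1,m2,m2,n1,n0,n0,n1] (e' := [n1,m1,n2,n2,m1,n0,n0,m1]) (by decide +kernel) (by decide +kernel) (.t
  t49 ok49) (.h (Helper55.TR.GK.t (L := (r84).map (fun c => Helper11.CT.insC 8 (Helper11.CT.insC 8 c))) (Helper55.TR.GT.l1 Helper55.CD.Dm1_1_c0u_31.g 54353113225530792596755697554751473730751988232595211251272931351 (by decide +kernel)) 166746357600915775123973098418204684805706061113896944757184997840416011940439837453217626252286639640664099456281992474156054 (by decide +kernel)))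

theorem cl73 : Clo K (Helper55.TR.GK 1 Helper55.TR.BrU) r81 :=
  .q [n0,n0,n0,m2,n0,n0,n1,n1,n0,n1] (e' := [n0,n0,n0,n2,n0,n0,m1,m1,n0,m1]) (.p true [0,0,1] [] (⟨0,[(20,0)]⟩,⟨0,
  [(15,0)]⟩) .k 0 (⟨0,[]⟩,⟨0,[]⟩) .k .k) (by decide +kernel) (by decide +kernel) cl71 cl72

theorem cl74 : Clo K (Helper55.TR.GK 1 Helper55.TR.BrU) r73 :=
  .i [n1,n0,m1,m1,n0,n0,n0,m2] (e' := [n0,n0,n1,n1,n0,n0,n0,n2]) (by decide +kernel) (by decide +kernel) (.t t47
  ok47) cl73

theorem cl75 : Clo K (Helper55.TR.GK 1 Helper55.TR.BrU) r72 :=
  .i [n0,n0,m1,m1,n0,n0,n0,m2] (e' := [n1,n0,n1,n1,n0,n0,n0,n2]) (by decide +kernel) (by decide +kernel) cl70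
  cl74

theorem cl76 : Clo K (Helper55.TR.GK 1 Helper55.TR.BrU) l71 :=
  .i [n0,n1,m1,m2,n0,n0,n0,m1] (e' := [n1,m1,n1,n2,n0,n0,n0,n1]) (by decide +kernel) (by decide +kernel) (.t
  t40 ok40) cl75

theorem cl77 : Clo K (Helper55.TR.GK 1 Helper55.TR.BrU) l90 :=
  .q [n0,m1,n0,n0,n0,n0,m2,m1,n2,m2] (e' := [n0,n1,n0,n0,n0,n0,n2,n1,m2,n2]) (.p false [0,0,1] [2,-1,-1] (⟨0,[(23,
  0)]⟩,⟨0,[(18,0)]⟩) .k 2 (⟨0,[(18,0),(22,0)]⟩,⟨0,[(11,0)]⟩) .k (.r (-1) ⟨20,[(3,15),(6,1),(3,2),(0,
  1),(1,3),(6,5),(6,9)]⟩ ⟨0,[(40,1)]⟩)) (by decide +kernel) (by decide +kernel) (.t t54 ok54) (.h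
  (Helper55.TR.GK.sub Helper55.CD.Dm1_1_c0u_32.g 122144981272208531024259967214304107088374218900572163217389522583276603623694230695363059945311400308020104194 (by decide +kernel)))

theorem cl78 : Clo K (Helper55.TR.GK 1 Helper55.TR.BrU) r90 :=
  .i [n1,n0,m1,m1,n0,n0,n0,m2] (e' := [n0,n0,n1,n1,n0,n0,n0,n2]) (by decide +kernel) (by decide +kernel) (.t t55
  ok55) (.h (Helper55.TR.GK.sub Helper55.CD.Dm1_1_c0u_33.g 118220566294555780305329216268715765088251646458058635933903314912071508763577273957881052600209514532 (by decide +kernel)))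

theorem cl79 : Clo K (Helper55.TR.GK 1 Helper55.TR.BrU) r89 :=
  .i [n0,n0,m1,m1,n0,n0,n0,m2] (e' := [n1,n0,n1,n1,n0,n0,n0,n2]) (by decide +kernel) (by decide +kernel) cl77
  cl78

theorem cl80 : Clo K (Helper55.TR.GK 1 Helper55.TR.BrU) r88 :=
  .i [n0,n1,m1,m2,n0,n0,n0,m1] (e' := [n1,m1,n1,n2,n0,n0,n0,n1]) (by decide +kernel) (by decide +kernel) (.t
  t53 ok53) cl79

theorem cl81 : Clo K (Helper55.TR.GK 1 Helper55.TR.BrU) r87 :=
  .i [n1,n0,n1,n1,m1,n0,n0,m2] (e' := [n0,n0,m1,m1,n1,n0,n0,n2]) (by decide +kernel) (by decide +kernel) (.t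
  t52 ok52) cl80

theorem cl82 : Clo K (Helper55.TR.GK 1 Helper55.TR.BrU) r86 :=
  .i [n0,n0,n1,n1,m1,n0,n0,m2] (e' := [n1,n0,m1,m1,n1,n0,n0,n2]) (by decide +kernel) (by decide +kernel) (.t
  t51 ok51) cl81

theorem cl83 : Clo K (Helper55.TR.GK 1 Helper55.TR.BrU) l85 :=
  .i [n0,n1,m2,m2,n1,n0,n0,n1] (e' := [n1,m1,n2,n2,m1,n0,n0,m1]) (by decide +kernel) (by decide +kernel) (.t
  t50 ok50) cl82

theorem cl84 : Clo K (Helper55.TR.GK 1 Helper55.TR.BrU) l96 :=
  .i [n1,n0,m3,m3,n1,n0,n0,m1] (e' := [n0,n0,n3,n3,m1,n0,n0,n1]) (by decide +kernel) (by decide +kernel) (.t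
  t59 ok59) (.h (Helper55.TR.GK.t (L := (r97).map (fun c => Helper11.CT.insC 8 (Helper11.CT.insC 8 c))) (Helper55.TR.GT.lb Helper55.CD.Dm1_1_c0u_34.g 21195255939060339729176456509316214860382693377328930770378235226613652233371149076900831713707741597233946088904177320200195 (by decide +kernel)) 173458602240151844498774859607360936149583023272102432892912158786254247749792041277451618007761010270727614784544005231785040918 (by decide +kernel)))

theorem cl85 : Clo K (Helper55.TR.GK 1 Helper55.TR.BrU) r95 :=
  .i [n1,n0,n3,n3,m1,n0,n0,n1] (e' := [n0,n0,m3,m3,n1,n0,n0,m1]) (by decide +kernel) (by decide +kernel) cl84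
  (.h (Helper55.TR.GK.t (L := (r96).map (fun c => Helper11.CT.insC 8 (Helper11.CT.insC 8 c))) (Helper55.TR.GT.lJ Helper55.CD.Dm1_1_c0u_35.g 29827008137457053059300109055800336457258651708565778584791967214941211882445079479813539130558026038632593438977563032265164803 (by decide +kernel)) 166746357600915775123973098418204684805706061113896944757184997840416011940439837453217626252286639640664099456281992474156054 (by decide +kernel)))

theorem cl86 : Clo K (Helper55.TR.GK 1 Helper55.TR.BrU) r94 :=
  .i [n0,n1,m1,m2,n0,n0,n0,m1] (e' := [n1,m1,n1,n2,n0,n0,n0,n1]) (by decide +kernel) (by decide +kernel) (.t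
  t58 ok58) cl85

theorem cl87 : Clo K (Helper55.TR.GK 1 Helper55.TR.BrU) r93 :=
  .i [n0,n0,n2,n2,m1,n0,n0,m1] (e' := [n1,n0,m2,m2,n1,n0,n0,n1]) (by decide +kernel) (by decide +kernel) (.t
  t57 ok57) cl86

theorem cl88 : Clo K (Helper55.TR.GK 1 Helper55.TR.BrU) r85 :=
  .i [n0,n0,m2,n0,n1,m2,m1] (e' := [n1,n0,n2,n0,m1,n2,n1]) (by decide +kernel) (by decide +kernel) (.t t56
  ok56) cl87

theorem cl89 : Clo K (Helper55.TR.GK 1 Helper55.TR.BrU) r71 :=
  .q [n0,n0,n0,n2,n0,n0,m1,m1,n0,m1] (e' := [n0,n0,n0,m2,n0,n0,n1,n1,n0,n1]) (.p false [0,0,1] [] (⟨0,[(17,0)]⟩,⟨0,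
  [(12,0)]⟩) .k 0 (⟨0,[]⟩,⟨0,[]⟩) .k .k) (by decide +kernel) (by decide +kernel) cl83 cl88

theorem cl90 : Clo K (Helper55.TR.GK 1 Helper55.TR.BrU) l70 :=
  .q [n0,m1,n0,m1,n0,n0,n0,n0,n1] (e' := [n0,n1,n0,n1,n0,n0,n0,n0,m1]) (.pp false [-1,1]) (by decide +kernel)
  (by decide +kernel) cl76 cl89

theorem cl91 : Clo K (Helper55.TR.GK 1 Helper55.TR.BrU) r60 :=
  .i [n1,n0,n2,n2,m1,n0,n0,m1] (e' := [n0,n0,m2,m2,n1,n0,n0,n1]) (by decide +kernel) (by decide +kernel) cl90
  (.t t60 ok60)

theorem cl92 : Clo K (Helper55.TR.GK 1 Helper55.TR.BrU) r59 :=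
  .i [n0,n0,n2,n0,m1,n2,n1] (e' := [n1,n0,m2,n0,n1,m2,m1]) (by decide +kernel) (by decide +kernel) cl63 cl91

theorem cl93 : Clo K (Helper55.TR.GK 1 Helper55.TR.BrU) l58 :=
  .i [n1,n1,m1,m1,n0,n0,n0,m1] (e' := [n0,m1,n1,n1,n0,n0,n0,n1]) (by decide +kernel) (by decide +kernel) (.t
  t33 ok33) cl92

theorem cl94 : Clo K (Helper55.TR.GK 1 Helper55.TR.BrU) r101 :=
  .i [n0,n0,m2,m2,n1,n0,n0,n1] (e' := [n1,n0,n2,n2,m1,n0,n0,m1]) (by decide +kernel) (by decide +kernel) (.t
  t64 ok64) (.h (Helper55.TR.GK.t (L := (r102).map (fun c => Helper11.CT.insC 8 (Helper11.CT.insC 8 c))) (Helper55.TR.GT.lb Helper55.CD.Dm1_1_c0u_36.g 16864921021081591022455932815645838869552038775974295121571547202183415258922301943796729811915181779754949806083 (by decide +kernel)) 142025895005632021863244696532792447391531478308783876216681955105081582978140455476061786992992667213266715434006 (by decide +kernel)))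

theorem cl95 : Clo K (Helper55.TR.GK 1 Helper55.TR.BrU) r100 :=
  .i [n0,n0,m2,n0,n1,m2,m1] (e' := [n1,n0,n2,n0,m1,n2,n1]) (by decide +kernel) (by decide +kernel) (.t t63
  ok63) cl94

theorem cl96 : Clo K (Helper55.TR.GK 1 Helper55.TR.BrU) r99 :=
  .i [n0,n0,n2,n0,m1,n2,n1] (e' := [n1,n0,m2,n0,n1,m2,m1]) (by decide +kernel) (by decide +kernel) (.t t62
  ok62) cl95

theorem cl97 : Clo K (Helper55.TR.GK 1 Helper55.TR.BrU) l98 :=
  .i [n0,n0,n2,n2,m1,n0,n0,m1] (e' := [n1,n0,m2,m2,n1,n0,n0,n1]) (by decide +kernel) (by decide +kernel) (.t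
  t61 ok61) cl96

theorem cl98 : Clo K (Helper55.TR.GK 1 Helper55.TR.BrU) r58 :=
  .q [n0,n0,n0,m2,n0,n0,n1,n1,n0,n1] (e' := [n0,n0,n0,n2,n0,n0,m1,m1,n0,m1]) (.p true [0,0,1] [] (⟨0,[(13,0)]⟩,⟨0,
  [(8,0)]⟩) .k 0 (⟨0,[]⟩,⟨0,[]⟩) .k .k) (by decide +kernel) (by decide +kernel) cl97 (.h (Helper55.TR.GK.sub Helper55.CD.Dm1_1_c0u_37.g 85405343243951365533538075597511057089192039107524421996937681701532433290946051262121772361605718018 (by decide +kernel)))

theorem cl99 : Clo K (Helper55.TR.GK 1 Helper55.TR.BrU) r2 :=
  .q [n0,n0,n1,n0,n0,n0,m2,n0,n2,m2] (e' := [n0,n0,m1,n0,n0,n0,n2,n0,m2,n2]) (.p false [0,0,1] [2,-1,-1] (⟨0,[(12,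
  0)]⟩,⟨0,[(7,0)]⟩) .k 2 (⟨0,[(7,0),(22,0)]⟩,⟨0,[(0,0)]⟩) .k (.r (-1) ⟨0,[(10,0),(6,1)]⟩ ⟨0,[(29,
  1)]⟩)) (by decide +kernel) (by decide +kernel) cl93 cl98

theorem cl100 : Clo K (Helper55.TR.GK 1 Helper55.TR.BrU) r1 :=
  .q [n0,n0,n0,n0,n0,m1,n0,n0,n1,m1] (e' := [n0,n0,n0,n0,n0,n1,n0,n0,m1,n1]) (.ed true [0,1,1] .k)
  (by decide +kernel) (by decide +kernel) cl54 cl99

theorem cl101 : Clo K (Helper55.TR.GK 1 Helper55.TR.BrU) l0 :=
  .q [n0,n0,n0,n0,n0,n2,n0,n0,m1] (e' := [n0,n0,n0,n0,n0,m2,n0,n0,n1]) (.pp true [-1,1]) (by decide +kernel)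
  (by decide +kernel) (.t t0 ok0) cl100

theorem cl102 : Clo K (Helper55.TR.GK 1 Helper55.TR.BrU) r112 :=
  .i [n1,n0,m3,m3,n1] (e' := [n0,n0,n3,n3,m1]) (by decide +kernel) (by decide +kernel) (.t t69 ok69) (.h
  (Helper55.TR.GK.u Helper55.CD.Dm1_1_c0u_40.g 136264515526613837532400207434680148539324859402715225167627696106060494907717876266889692713599874176179728088346656771 (by decide +kernel)))

theorem cl103 : Clo K (Helper55.TR.GK 1 Helper55.TR.BrU) r111 :=
  .i [n0,n0,m3,m3,n1] (e' := [n1,n0,n3,n3,m1]) (by decide +kernel) (by decide +kernel) (.h (Helper55.TR.GK.t (L := (l112).map (fun c => Helper11.CT.insC 8 (Helper11.CT.insC 8 c))) (Helper55.TR.GT.l1 Helper55.CD.Dm1_1_c0u_39.g 176878279201970768832733813901327868517963012798194908133734604536462540743928691342232880823710542807306217986683180338533581156538352543459396503471122 (by decide +kernel)) 153973331739855531773805282196032739639247742665639658000551160232396324334151202907209575019313522088029313795836894230 (by decide +kernel))) cl102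

theorem cl104 : Clo K (Helper55.TR.GK 1 Helper55.TR.BrU) l110 :=
  .i [n1,n0,n2,n2,m1,n0,n0,m1] (e' := [n0,n0,m2,m2,n1,n0,n0,n1]) (by decide +kernel) (by decide +kernel) (.h
  (Helper55.TR.GK.u Helper55.CD.Dm1_1_c0u_38.g 88395979218476778208111325218168565364838131111861652007404129928994159625258961453246000545698715735843377721494209539 (by decide +kernel))) cl103

theorem cl105 : Clo K (Helper55.TR.GK 1 Helper55.TR.BrU) r114 :=
  .i [n1,n0,n1,n1,m1,n0,n0,m2] (e' := [n0,n0,m1,m1,n1,n0,n0,n2]) (by decide +kernel) (by decide +kernel) (.t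
  t71 ok71) (.h (Helper55.TR.GK.u Helper55.CD.Dm1_1_c0u_41.g 141347415298567490864311589900028955017686169910691897296626222180884801133645169157441389508515338072043042394756613123 (by decide +kernel)))

theorem cl106 : Clo K (Helper55.TR.GK 1 Helper55.TR.BrU) r110 :=
  .i [n0,n0,n1,n1,m1,n0,n0,m2] (e' := [n1,n0,m1,m1,n1,n0,n0,n2]) (by decide +kernel) (by decide +kernel) (.t
  t70 ok70) cl105

theorem cl107 : Clo K (Helper55.TR.GK 1 Helper55.TR.BrU) r109 :=
  .i [n1,n0,m2,m2,n1,n0,n0,n1] (e' := [n0,n0,n2,n2,m1,n0,n0,m1]) (by decide +kernel) (by decide +kernel) cl104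
  cl106

theorem cl108 : Clo K (Helper55.TR.GK 1 Helper55.TR.BrU) r108 :=
  .q [n0,m1,n0,m1,n0,n0,n0,n0,n1] (e' := [n0,n1,n0,n1,n0,n0,n0,n0,m1]) (.pp false [-1,1]) (by decide +kernel)
  (by decide +kernel) (.t t68 ok68) cl107

theorem cl109 : Clo K (Helper55.TR.GK 1 Helper55.TR.BrU) l107 :=
  .q [n0,n0,n1,n0,n0,n0,m2,n0,n2,m2] (e' := [n0,n0,m1,n0,n0,n0,n2,n0,m2,n2]) (.p false [0,0,1] [2,-1,-1] (⟨0,[(15,
  0)]⟩,⟨0,[(10,0)]⟩) .k 2 (⟨0,[(10,0),(22,0)]⟩,⟨0,[(2,0)]⟩) .k (.r (-1) ⟨2,[(5,1),(0,0),(1,1),(11,
  3)]⟩ ⟨0,[(32,1)]⟩)) (by decide +kernel) (by decide +kernel) (.t t67 ok67) cl108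

theorem cl110 : Clo K (Helper55.TR.GK 1 Helper55.TR.BrU) l118 :=
  .i [n1,n0,n3,n3,m1] (e' := [n0,n0,m3,m3,n1]) (by decide +kernel) (by decide +kernel) (.t t73 ok73) (.h
  (Helper55.TR.GK.t (L := (r119).map (fun c => Helper11.CT.insC 8 (Helper11.CT.insC 8 c))) (Helper55.TR.GT.lJ Helper55.CD.Dm1_1_c0u_42.g 175836872620284490267264788597186218444281305529056443726546453221435797655400686049331957938070527818498176446295362005421100423231470308354 (by decide +kernel)) 147899549131484929067909645072071344216440553742554208881022782221026538226092680248279560242811426320238121679084566 (by decide +kernel)))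

theorem cl111 : Clo K (Helper55.TR.GK 1 Helper55.TR.BrU) l123 :=
  .i [n0,n0,n2,n1,m1,n0,n0,m1] (e' := [n1,n0,m2,m1,n1,n0,n0,n1]) (by decide +kernel) (by decide +kernel) (.t
  t76 ok76) (.h (Helper55.TR.GK.u Helper55.CD.Dm1_1_c0u_43.g 127306305806722549073833085764724936603550011785051715182541838996618057564143328388142887670725444383416139022068325722801309699 (by decide +kernel)))

theorem cl112 : Clo K (Helper55.TR.GK 1 Helper55.TR.BrU) l125 :=
  .i [n0,n0,n2,n1,m1,n0,n0,m1] (e' := [n1,n0,m2,m1,n1,n0,n0,n1]) (by decide +kernel) (by decide +kernel) (.t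
  t77 ok77) (.h (Helper55.TR.GK.u Helper55.CD.Dm1_1_c0u_44.g 144341412175844318103891194176307355832948262890904968784223236696351701026382395257326677997666915862527097749521013293537490372611 (by decide +kernel)))

theorem cl113 : Clo K (Helper55.TR.GK 1 Helper55.TR.BrU) l127 :=
  .i [n1,n0,n2,n2,m1,n0,n0,m1] (e' := [n0,n0,m2,m2,n1,n0,n0,n1]) (by decide +kernel) (by decide +kernel) (.t
  t78 ok78) (.h (Helper55.TR.GK.u Helper55.CD.Dm1_1_c0u_45.g 47297999344618552298216757474793832309889975261676166238389498052838909418907633880110144805030543697821712285744985974951629555715 (by decide +kernel)))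

theorem cl114 : Clo K (Helper55.TR.GK 1 Helper55.TR.BrU) r125 :=
  .i [n1,n0,m2,m2,n1,n0,n0,n1] (e' := [n0,n0,n2,n2,m1,n0,n0,m1]) (by decide +kernel) (by decide +kernel) cl113
  (.h (Helper55.TR.GK.u Helper55.CD.Dm1_1_c0u_46.g 158202084782298240439274092156037749751922275225970328970106442456850604587995006699827634215567994548680677337124609948684620138499 (by decide +kernel)))

theorem cl115 : Clo K (Helper55.TR.GK 1 Helper55.TR.BrU) r123 :=
  .q [n0,m1,n0,n1,n0,n0,m1,m1,n1,m1] (e' := [n0,n1,n0,m1,n0,n0,n1,n1,m1,n1]) (.p false [0,0,1] [1] (⟨0,[(22,0)]⟩,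
  ⟨0,[(17,0)]⟩) .k 1 (⟨0,[]⟩,⟨0,[]⟩) .k .k) (by decide +kernel) (by decide +kernel) cl112 cl114

theorem cl116 : Clo K (Helper55.TR.GK 1 Helper55.TR.BrU) r122 :=
  .q [n0,m1,n0,n2,n0,n0,m1,m1,n1,m1] (e' := [n0,n1,n0,m2,n0,n0,n1,n1,m1,n1]) (.p false [0,0,1] [1] (⟨0,[(21,0)]⟩,
  ⟨0,[(16,0)]⟩) .k 1 (⟨0,[]⟩,⟨0,[]⟩) .k .k) (by decide +kernel) (by decide +kernel) cl111 cl115

theorem cl117 : Clo K (Helper55.TR.GK 1 Helper55.TR.BrU) r121 :=
  .i [n1,n0,n1,n1,m1,n0,n0,m2] (e' := [n0,n0,m1,m1,n1,n0,n0,n2]) (by decide +kernel) (by decide +kernel) (.t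
  t75 ok75) cl116

theorem cl118 : Clo K (Helper55.TR.GK 1 Helper55.TR.BrU) l120 :=
  .i [n0,n0,n1,n1,m1,n0,n0,m2] (e' := [n1,n0,m1,m1,n1,n0,n0,n2]) (by decide +kernel) (by decide +kernel) (.t
  t74 ok74) cl117

theorem cl119 : Clo K (Helper55.TR.GK 1 Helper55.TR.BrU) r120 :=
  .i [n0,n0,n1,n1,m1,n0,n0,m2] (e' := [n1,n0,m1,m1,n1,n0,n0,n2]) (by decide +kernel) (by decide +kernel) (.t
  t79 ok79) (.h (Helper55.TR.GK.x1 Helper55.CD.Dm1_1_c0u_47.g 51599524282651219545166947605062593650364402596559910531811141721288874608776762546950010825120432485414554503659835158593275907 (by decide +kernel)))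

theorem cl120 : Clo K (Helper55.TR.GK 1 Helper55.TR.BrU) r118 :=
  .q [n0,n0,n0,n0,n0,m2,n0,n0,n0,n1] (e' := [n0,n0,n0,n0,n0,n2,n0,n0,n0,m1]) (.p true [0,0,1] [] (⟨0,[(18,0)]⟩,⟨0,
  [(13,0)]⟩) .k 0 (⟨0,[]⟩,⟨0,[]⟩) .k .k) (by decide +kernel) (by decide +kernel) cl118 cl119

theorem cl121 : Clo K (Helper55.TR.GK 1 Helper55.TR.BrU) r117 :=
  .i [n1,n0,m3,m3,n1] (e' := [n0,n0,n3,n3,m1]) (by decide +kernel) (by decide +kernel) cl110 cl120

theorem cl122 : Clo K (Helper55.TR.GK 1 Helper55.TR.BrU) l116 :=
  .q [n0,n0,n1,n0,n0,n0,m2,n0,n2,m2] (e' := [n0,n0,m1,n0,n0,n0,n2,n0,m2,n2]) (.p false [0,0,1] [2,-1,-1] (⟨0,[(16,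
  0)]⟩,⟨0,[(11,0)]⟩) .k 2 (⟨0,[(11,0),(22,0)]⟩,⟨0,[(3,0)]⟩) .k (.r (-1) ⟨2,[(6,1),(0,0),(1,1),(11,
  3)]⟩ ⟨0,[(33,1)]⟩)) (by decide +kernel) (by decide +kernel) (.t t72 ok72) cl121

theorem cl123 : Clo K (Helper55.TR.GK 1 Helper55.TR.BrU) r137 :=
  .i [n0,n0,n2,n0,m1,n2,n1] (e' := [n1,n0,m2,n0,n1,m2,m1]) (by decide +kernel) (by decide +kernel) (.t t84
  ok84) (.h (Helper55.TR.GK.u Helper55.CD.Dm1_1_c0u_48.g 166517272423548546394739991607093175374370955423007592571556306912469920408018007565678982957374675725796185411177808957282939045891 (by decide +kernel)))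

theorem cl124 : Clo K (Helper55.TR.GK 1 Helper55.TR.BrU) l136 :=
  .i [n0,n0,m2,n0,n1,m2,m1] (e' := [n1,n0,n2,n0,m1,n2,n1]) (by decide +kernel) (by decide +kernel) (.t t83
  ok83) cl123

theorem cl125 : Clo K (Helper55.TR.GK 1 Helper55.TR.BrU) l135 :=
  .i [n1,n0,n2,n2,m1,n0,n0,m1] (e' := [n0,n0,m2,m2,n1,n0,n0,n1]) (by decide +kernel) (by decide +kernel) cl124
  (.h (Helper55.TR.GK.t (L := (r136).map (fun c => Helper11.CT.insC 8 (Helper11.CT.insC 8 c))) (Helper55.TR.GT.lJ Helper55.CD.Dm1_1_c0u_49.g 107287247492049059170489574501647512155361933936752396908274320022853631819330636977339333627426902263411770549835398687748578461176069883907 (by decide +kernel)) 173458602240151844498774859607360936149583023272102432892912158786254247749792041277451618007761010270727614784544005231785040918 (by decide +kernel)))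

theorem cl126 : Clo K (Helper55.TR.GK 1 Helper55.TR.BrU) r134 :=
  .i [n1,n0,m2,m2,n1,n0,n0,n1] (e' := [n0,n0,n2,n2,m1,n0,n0,m1]) (by decide +kernel) (by decide +kernel) cl125
  (.h (Helper55.TR.GK.u Helper55.CD.Dm1_1_c0u_50.g 103042804228160853775008199330524366889478396969124585271687416610066828300653559432443218116561662355608014046842499849140570115 (by decide +kernel)))

theorem cl127 : Clo K (Helper55.TR.GK 1 Helper55.TR.BrU) l133 :=
  .q [n0,n0,n1,n0,n0,n0,m2,n0,n2,m2] (e' := [n0,n0,m1,n0,n0,n0,n2,n0,m2,n2]) (.p false [0,0,1] [2,-1,-1] (⟨0,[(20,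
  0)]⟩,⟨0,[(15,0)]⟩) .k 2 (⟨0,[(15,0),(22,0)]⟩,⟨0,[(7,0)]⟩) .k (.r (-1) ⟨2,[(10,1),(0,0),(1,1),(11,
  3)]⟩ ⟨5,[(3,3),(4,1),(5,2),(9,0),(5,0)]⟩)) (by decide +kernel) (by decide +kernel) (.t t82 ok82)
  cl126

theorem cl128 : Clo K (Helper55.TR.GK 1 Helper55.TR.BrU) l140 :=
  .i [n0,n0,n2,n1,m1,n0,n0,m1] (e' := [n1,n0,m2,m1,n1,n0,n0,n1]) (by decide +kernel) (by decide +kernel) (.t
  t85 ok85) (.h (Helper55.TR.GK.t Helper55.CD.Dm1_1_c0u_51.g 183084830963422505001376435236623940811833621311372498429012874828144953406260514838790303515947288973457364367619426235895503247157868836703234 (by decide +kernel)))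

theorem cl129 : Clo K (Helper55.TR.GK 1 Helper55.TR.BrU) r144 :=
  .i [n1,n0,m3,m3,n1] (e' := [n0,n0,n3,n3,m1]) (by decide +kernel) (by decide +kernel) (.t t87 ok87) (.h
  (Helper55.TR.GK.sub Helper55.CD.Dm1_1_c0u_53.g 116490590294826314784916054204250277623553825784221740830568633820817796340733503614951910771049783065650675718365905511523346 (by decide +kernel)))

theorem cl130 : Clo K (Helper55.TR.GK 1 Helper55.TR.BrU) r143 :=
  .i [n0,n0,m3,m3,n1] (e' := [n1,n0,n3,n3,m1]) (by decide +kernel) (by decide +kernel) (.h (Helper55.TR.GK.t (L := (l144).map (fun c => Helper11.CT.insC 8 (Helper11.CT.insC 8 c))) (Helper55.TR.GT.lb Helper55.CD.Dm1_1_c0u_52.g 144322177646044759816373730861481979530862041742270771528133718443920584856239211503404871588026053733896246865248220052371772959716354148229697962930192305358849 (by decide +kernel)) 187568505596181244587464639917955076814707681295121887596140666061157303105990517565072506050156946079720688757942774774663504587676694 (by decide +kernel))) cl129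

theorem cl131 : Clo K (Helper55.TR.GK 1 Helper55.TR.BrU) l142 :=
  .i [n0,n1,n2,n1,m1,n0,n0,m1] (e' := [n1,m1,m2,m1,n1,n0,n0,n1]) (by decide +kernel) (by decide +kernel) (.t
  t86 ok86) cl130

theorem cl132 : Clo K (Helper55.TR.GK 1 Helper55.TR.BrU) l147 :=
  .i [n0,n0,n2,n1,m1,n0,n0,m1] (e' := [n1,n0,m2,m1,n1,n0,n0,n1]) (by decide +kernel) (by decide +kernel) (.t
  t89 ok89) (.h (Helper55.TR.GK.t (L := (r148).map (fun c => Helper11.CT.insC 8 (Helper11.CT.insC 8 c))) (Helper55.TR.GT.lJ Helper55.CD.Dm1_1_c0u_54.g 111699649188153930038419118129773401603984409768126749815276155449320827477330538738537099882208440741512295736030584686092695310392735946254466359653766651317325826 (by decide +kernel)) 194980346616818827911806245153903170283590592345496362043035514046472486517496633968984274097338792516364076479237278460961936741056404502 (by decide +kernel)))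

theorem cl133 : Clo K (Helper55.TR.GK 1 Helper55.TR.BrU) l149 :=
  .i [n1,n0,m3,m3,n1,n0,n0,m1] (e' := [n0,n0,n3,n3,m1,n0,n0,n1]) (by decide +kernel) (by decide +kernel) (.t
  t90 ok90) (.h (Helper55.TR.GK.sub Helper55.CD.Dm1_1_c0u_55.g 122151947541044611940246840588334101558090269503357169295339141675740595895592145459904820282857145061227247358835610658897427194894 (by decide +kernel)))

theorem cl134 : Clo K (Helper55.TR.GK 1 Helper55.TR.BrU) l151 :=
  .i [n1,n0,n2,n2,m1,n0,n0,m1] (e' := [n0,n0,m2,m2,n1,n0,n0,n1]) (by decide +kernel) (by decide +kernel) (.t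
  t91 ok91) (.h (Helper55.TR.GK.t (L := (r152).map (fun c => Helper11.CT.insC 8 (Helper11.CT.insC 8 c))) (Helper55.TR.GT.lJ Helper55.CD.Dm1_1_c0u_56.g 243380586659935740682020199547352214132058137683918754686786520739679568631408424261692524771124770748125122388174905233704796441008912138018522871662295250193512151048 (by decide +kernel)) 210554837154636543893481615953480922991690195396543864197307913256217925691817404067934979910580255565099050059898586550108110536161198501551126 (by decide +kernel)))

theorem cl135 : Clo K (Helper55.TR.GK 1 Helper55.TR.BrU) r149 :=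
  .i [n1,n0,m2,m2,n1,n0,n0,n1] (e' := [n0,n0,n2,n2,m1,n0,n0,m1]) (by decide +kernel) (by decide +kernel) cl134
  (.h (Helper55.TR.GK.t (L := (r151).map (fun c => Helper11.CT.insC 8 (Helper11.CT.insC 8 c))) (Helper55.TR.GT.lb Helper55.CD.Dm1_1_c0u_57.g 62804892921742750579070853426310764618617362343987855690222416617387866119526846718144155134126450392370321723316886168244946542424751821928880131836767717941686830080 (by decide +kernel)) 202639916547223614838833867808584030114734611501862821056125937711431572126165993422166325247300477181024427694429343285932487459155839310870 (by decide +kernel)))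

theorem cl136 : Clo K (Helper55.TR.GK 1 Helper55.TR.BrU) r147 :=
  .i [n1,n0,n3,n3,m1,n0,n0,n1] (e' := [n0,n0,m3,m3,n1,n0,n0,m1]) (by decide +kernel) (by decide +kernel) cl133
  cl135

theorem cl137 : Clo K (Helper55.TR.GK 1 Helper55.TR.BrU) r146 :=
  .q [n0,m1,n0,n1,n0,n0,m1,m1,n1,m1] (e' := [n0,n1,n0,m1,n0,n0,n1,n1,m1,n1]) (.p false [0,0,1] [1] (⟨0,[(24,0)]⟩,
  ⟨0,[(19,0)]⟩) .k 1 (⟨0,[]⟩,⟨0,[]⟩) .k .k) (by decide +kernel) (by decide +kernel) cl132 cl136

theorem cl138 : Clo K (Helper55.TR.GK 1 Helper55.TR.BrU) r142 :=
  .i [n0,n1,n2,n1,m1] (e' := [n1,m1,m2,m1,n1]) (by decide +kernel) (by decide +kernel) (.t t88 ok88) cl137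

theorem cl139 : Clo K (Helper55.TR.GK 1 Helper55.TR.BrU) r140 :=
  .q [n0,n0,m2,n0,n1,n0,m2,n0,n1,m2] (e' := [n0,n0,n2,n0,m1,n0,n2,n0,m1,n2]) (.p false [0,0,1] [1,0,-1] (⟨0,[(22,
  0)]⟩,⟨0,[(17,0)]⟩) .k 2 (⟨0,[(17,0)]⟩,⟨0,[(22,0)]⟩) .k (.r (-1) ⟨2,[(12,1),(0,0),(1,1),(11,3)]⟩
  ⟨5,[(5,3),(4,1),(5,2),(9,0),(5,0)]⟩)) (by decide +kernel) (by decide +kernel) cl131 cl138

theorem cl140 : Clo K (Helper55.TR.GK 1 Helper55.TR.BrU) l139 :=
  .q [n0,m1,n0,n2,n0,n0,m1,m1,n1,m1] (e' := [n0,n1,n0,m2,n0,n0,n1,n1,m1,n1]) (.p false [0,0,1] [1] (⟨0,[(21,0)]⟩,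
  ⟨0,[(16,0)]⟩) .k 1 (⟨0,[]⟩,⟨0,[]⟩) .k .k) (by decide +kernel) (by decide +kernel) cl128 cl139

theorem cl141 : Clo K (Helper55.TR.GK 1 Helper55.TR.BrU) l154 :=
  .i [n1,n0,n2,n2,m1,n0,n0,m1] (e' := [n0,n0,m2,m2,n1,n0,n0,n1]) (by decide +kernel) (by decide +kernel) (.t
  t92 ok92) (.h (Helper55.TR.GK.t (L := (r155).map (fun c => Helper11.CT.insC 8 (Helper11.CT.insC 8 c))) (Helper55.TR.GT.lb Helper55.CD.Dm1_1_c0u_58.g 198297984056674644027433633175631029432676038310499426379129098575416648036996213228749485212803780237275477091808314858248410428623978659601433 (by decide +kernel)) 180396988720093117717095696828907801659517992922700179818974084898736639255115457538875788014776833586601156327275776174115105299478 (by decide +kernel)))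

theorem cl142 : Clo K (Helper55.TR.GK 1 Helper55.TR.BrU) l153 :=
  .i [n0,n0,n2,n0,m1,n2,n1] (e' := [n1,n0,m2,n0,n1,m2,m1]) (by decide +kernel) (by decide +kernel) cl141 (.h
  (Helper55.TR.GK.t (L := (r154).map (fun c => Helper11.CT.insC 8 (Helper11.CT.insC 8 c))) (Helper55.TR.GT.lb Helper55.CD.Dm1_1_c0u_59.g 24006137303914979180574923570506875975512541941428811948463027267297636353317841596754393988069990230935326911978867932083723722932349831171 (by decide +kernel)) 173458602240151844498774859607360936149583023272102432892912158786254247749792041277451618007761010270727614784544005231785040918 (by decide +kernel)))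

theorem cl143 : Clo K (Helper55.TR.GK 1 Helper55.TR.BrU) r139 :=
  .i [n1,n0,m2,m2,n1,n0,n0,n1] (e' := [n0,n0,n2,n2,m1,n0,n0,m1]) (by decide +kernel) (by decide +kernel) cl142
  (.h (Helper55.TR.GK.t (L := (r153).map (fun c => Helper11.CT.insC 8 (Helper11.CT.insC 8 c))) (Helper55.TR.GT.lb Helper55.CD.Dm1_1_c0u_60.g 62705929822809737377302229804352300156192957600280632286439413616405890651380033038314519867670741729692365899946012289514624402868337117187 (by decide +kernel)) 166746357600915775123973098418204684805706061113896944757184997840416011940439837453217626252286639640664099456281992474156054 (by decide +kernel)))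

theorem cl144 : Clo K (Helper55.TR.GK 1 Helper55.TR.BrU) r133 :=
  .q [n0,n0,n0,n0,n0,m2,n0,n0,n0,n1] (e' := [n0,n0,n0,n0,n0,n2,n0,n0,n0,m1]) (.p true [0,0,1] [] (⟨0,[(20,0)]⟩,⟨0,
  [(15,0)]⟩) .k 0 (⟨0,[]⟩,⟨0,[]⟩) .k .k) (by decide +kernel) (by decide +kernel) cl140 cl143

theorem cl145 : Clo K (Helper55.TR.GK 1 Helper55.TR.BrU) r132 :=
  .i [n0,n1,m1,m2,n0,n0,n0,m1] (e' := [n1,m1,n1,n2,n0,n0,n0,n1]) (by decide +kernel) (by decide +kernel) cl127
  cl144

theorem cl146 : Clo K (Helper55.TR.GK 1 Helper55.TR.BrU) r131 :=
  .q [n0,n0,n0,n0,n0,n0,m1,n0,n2,m1] (e' := [n0,n0,n0,n0,n0,n0,n1,n0,m2,n1]) (.p false [-1,1,1] [1] (⟨0,[(5,0)]⟩,⟨0,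
  [(13,0),(22,0)]⟩) .k 1 (⟨0,[]⟩,⟨0,[]⟩) .k .k) (by decide +kernel) (by decide +kernel) (.t t81
  ok81) cl145

theorem cl147 : Clo K (Helper55.TR.GK 1 Helper55.TR.BrU) l130 :=
  .q [n0,m1,n0,n0,n0,n0,m2,m1,n2,m2] (e' := [n0,n1,n0,n0,n0,n0,n2,n1,m2,n2]) (.p false [0,0,1] [2,-1,-1] (⟨0,[(17,
  0)]⟩,⟨0,[(12,0)]⟩) .k 2 (⟨0,[(12,0),(22,0)]⟩,⟨0,[(4,0)]⟩) .k (.r (-1) ⟨2,[(7,1),(0,0),(1,1),(11,
  3)]⟩ ⟨5,[(0,3),(4,1),(5,2),(9,0),(5,0)]⟩)) (by decide +kernel) (by decide +kernel) (.t t80 ok80)
  cl146

theorem cl148 : Clo K (Helper55.TR.GK 1 Helper55.TR.BrU) l161 :=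
  .i [n0,n1,n2,n1,m1,n0,n0,m1] (e' := [n1,m1,m2,m1,n1,n0,n0,n1]) (by decide +kernel) (by decide +kernel) (.t
  t96 ok96) (.h (Helper55.TR.GK.t (L := (r162).map (fun c => Helper11.CT.insC 8 (Helper11.CT.insC 8 c))) (Helper55.TR.GT.lb Helper55.CD.Dm1_1_c0u_61.g 29251825030428346376871937869513817587852171744004193817622938024434667855910466847236603901551140640224483310007833943083011 (by decide +kernel)) 180396988720093117717095696828907801659517992922700179818974084898736639255115457538875788014776833586601156327275776174115105299478 (by decide +kernel)))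

theorem cl149 : Clo K (Helper55.TR.GK 1 Helper55.TR.BrU) r160 :=
  .q [n0,n0,m2,n0,n1,n0,m2,n0,n1,m2] (e' := [n0,n0,n2,n0,m1,n0,n2,n0,m1,n2]) (.p false [0,0,1] [1,0,-1] (⟨0,[(22,
  0)]⟩,⟨0,[(17,0)]⟩) .k 2 (⟨0,[(17,0)]⟩,⟨0,[(22,0)]⟩) .k (.r (-1) ⟨18,[(1,3),(3,7),(6,5),(0,8),(1,
  17),(2,11)]⟩ ⟨0,[(39,1)]⟩)) (by decide +kernel) (by decide +kernel) cl148 (.h (Helper55.TR.GK.t (L := (r161).map (fun c => Helper11.CT.insC 8 (Helper11.CT.insC 8 c))) (Helper55.TR.GT.l1 Helper55.CD.Dm1_1_c0u_62.g 21783144741374879059239318161719683261807267698163788629272451116850786036241177897359382419967976129860074891758329334440418329 (by decide +kernel)) 173458602240151844498774859607360936149583023272102432892912158786254247749792041277451618007761010270727614784544005231785040918 (by decide +kernel)))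

theorem cl150 : Clo K (Helper55.TR.GK 1 Helper55.TR.BrU) l159 :=
  .i [n0,n1,n2,n1,m1] (e' := [n1,m1,m2,m1,n1]) (by decide +kernel) (by decide +kernel) (.t t95 ok95) cl149

theorem cl151 : Clo K (Helper55.TR.GK 1 Helper55.TR.BrU) r165 :=
  .i [n0,n1,n2,n1,m1] (e' := [n1,m1,m2,m1,n1]) (by decide +kernel) (by decide +kernel) (.t t99 ok99) (.h
  (Helper55.TR.GK.t (L := (r166).map (fun c => Helper11.CT.insC 8 (Helper11.CT.insC 8 c))) (Helper55.TR.GT.lb Helper55.CD.Dm1_1_c0u_63.g 143018712912018162407161553728356422575444492596028124182889915122136851205079847707079170844572860396702184841686863383347466842268507310083 (by decide +kernel)) 187568505596181244587464639917955076814707681295121887596140666061157303105990517565072506050156946079720688757942774774663504587676694 (by decide +kernel)))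

theorem cl152 : Clo K (Helper55.TR.GK 1 Helper55.TR.BrU) r164 :=
  .q [n0,n0,m2,n0,n1,n0,m2,n0,n1,m2] (e' := [n0,n0,n2,n0,m1,n0,n2,n0,m1,n2]) (.p false [0,0,1] [1,0,-1] (⟨0,[(23,
  0)]⟩,⟨0,[(18,0)]⟩) .k 2 (⟨0,[(18,0)]⟩,⟨0,[(23,0)]⟩) .k (.r (-1) ⟨2,[(13,1),(0,0),(1,1),(11,3)]⟩
  ⟨0,[(40,1)]⟩)) (by decide +kernel) (by decide +kernel) (.t t98 ok98) cl151

theorem cl153 : Clo K (Helper55.TR.GK 1 Helper55.TR.BrU) l163 :=
  .i [n1,n0,m2,m2,n1,n0,n0,n1] (e' := [n0,n0,n2,n2,m1,n0,n0,m1]) (by decide +kernel) (by decide +kernel) (.t
  t97 ok97) cl152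

theorem cl154 : Clo K (Helper55.TR.GK 1 Helper55.TR.BrU) r159 :=
  .i [n0,n0,n2,n0,m1,n2,n1] (e' := [n1,n0,m2,n0,n1,m2,m1]) (by decide +kernel) (by decide +kernel) cl153 (.h
  (Helper55.TR.GK.t (L := (r163).map (fun c => Helper11.CT.insC 8 (Helper11.CT.insC 8 c))) (Helper55.TR.GT.lb Helper55.CD.Dm1_1_c0u_64.g 27245285281158141098639195904374281852517318278476577789080547636004902896646447178332703988895123720591222124840963 (by decide +kernel)) 166746357600915775123973098418204684805706061113896944757184997840416011940439837453217626252286639640664099456281992474156054 (by decide +kernel)))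

theorem cl155 : Clo K (Helper55.TR.GK 1 Helper55.TR.BrU) r158 :=
  .i [n0,n0,m2,m2,n1,n0,n0,n1] (e' := [n1,n0,n2,n2,m1,n0,n0,m1]) (by decide +kernel) (by decide +kernel) cl150
  cl154

theorem cl156 : Clo K (Helper55.TR.GK 1 Helper55.TR.BrU) l157 :=
  .i [n0,n1,m1,m2,n0,n0,n0,m1] (e' := [n1,m1,n1,n2,n0,n0,n0,n1]) (by decide +kernel) (by decide +kernel) (.t
  t94 ok94) cl155

theorem cl157 : Clo K (Helper55.TR.GK 1 Helper55.TR.BrU) l168 :=
  .i [n1,n1,n2,n2,m1,n0,n0,m1] (e' := [n0,m1,m2,m2,n1,n0,n0,n1]) (by decide +kernel) (by decide +kernel) (.t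
  t101 ok101) (.h (Helper55.TR.GK.t (L := (r169).map (fun c => Helper11.CT.insC 8 (Helper11.CT.insC 8 c))) (Helper55.TR.GT.l1 Helper55.CD.Dm1_1_c0u_65.g 187494124716532628362508906164578907007251248331375936821006786401493633865109176735394922047556777578389290362872760865248425417459400973562700823 (by decide +kernel)) 166746357600915775123973098418204684805706061113896944757184997840416011940439837453217626252286639640664099456281992474156054 (by decide +kernel)))

theorem cl158 : Clo K (Helper55.TR.GK 1 Helper55.TR.BrU) l172 :=
  .i [n1,n0,m3,m3,n1,n0,n0,m1] (e' := [n0,n0,n3,n3,m1,n0,n0,n1]) (by decide +kernel) (by decide +kernel) (.t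
  t103 ok103) (.h (Helper55.TR.GK.t Helper55.CD.Dm1_1_c0u_66.g 73720186605236149677434780821035796687799330621278898644407928887319267480677648057544118150065360862984733668343317093022831459505841037693788636162 (by decide +kernel)))

theorem cl159 : Clo K (Helper55.TR.GK 1 Helper55.TR.BrU) r171 :=
  .i [n1,n0,n3,n3,m1,n0,n0,n1] (e' := [n0,n0,m3,m3,n1,n0,n0,m1]) (by decide +kernel) (by decide +kernel) cl158
  (.h (Helper55.TR.GK.t Helper55.CD.Dm1_1_c0u_67.g 177002472973126904534244128805172698723136968545688396487621187180349885094900984196609616647340791442589934638539768254340800829237748572362767 (by decide +kernel)))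

theorem cl160 : Clo K (Helper55.TR.GK 1 Helper55.TR.BrU) l170 :=
  .i [n0,n0,n2,n1,m1,n0,n0,m1] (e' := [n1,n0,m2,m1,n1,n0,n0,n1]) (by decide +kernel) (by decide +kernel) (.t
  t102 ok102) cl159

theorem cl161 : Clo K (Helper55.TR.GK 1 Helper55.TR.BrU) l174 :=
  .i [n0,n0,n2,n1,m1,n0,n0,m1] (e' := [n1,n0,m2,m1,n1,n0,n0,n1]) (by decide +kernel) (by decide +kernel) (.t
  t104 ok104) (.h (Helper55.TR.GK.sub Helper55.CD.Dm1_1_c0u_68.g 89788453362390030335108681946115671764907288934487412820448335612376531579384553444420616536029423633 (by decide +kernel)))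

theorem cl162 : Clo K (Helper55.TR.GK 1 Helper55.TR.BrU) l176 :=
  .i [n1,n0,m2,m2,n1,n0,n0,n1] (e' := [n0,n0,n2,n2,m1,n0,n0,m1]) (by decide +kernel) (by decide +kernel) (.t
  t105 ok105) (.h (Helper55.TR.GK.t (L := (r177).map (fun c => Helper11.CT.insC 8 (Helper11.CT.insC 8 c))) (Helper55.TR.GT.l1 Helper55.CD.Dm1_1_c0u_69.g 173004434029523587877167946500701578170818942408069431232587073655714000338442670430673780511954533633236072457070139806444910317086631182739704612222359244057346052 (by decide +kernel)) 187568505596181244587464639917955076814707681295121887596140666061157303105990517565072506050156946079720688757942774774663504587676694 (by decide +kernel)))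

theorem cl163 : Clo K (Helper55.TR.GK 1 Helper55.TR.BrU) l179 :=
  .i [n1,n0,m3,m3,n1,n0,n0,m1] (e' := [n0,n0,n3,n3,m1,n0,n0,n1]) (by decide +kernel) (by decide +kernel) (.t
  t107 ok107) (.h (Helper55.TR.GK.t Helper55.CD.Dm1_1_c0u_70.g 204681946904987628846575103345678755711525984637262620683559693935837430067700869303867124215050838919999942273348915135301317751471662297662416474176755712 (by decide +kernel)))

theorem cl164 : Clo K (Helper55.TR.GK 1 Helper55.TR.BrU) r178 :=
  .i [n1,n0,n3,n3,m1,n0,n0,n1] (e' := [n0,n0,m3,m3,n1,n0,n0,m1]) (by decide +kernel) (by decide +kernel) cl163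
  (.h (Helper55.TR.GK.t Helper55.CD.Dm1_1_c0u_71.g 206428310812787807899829845745324801032270457481357857012823298859900068401347829669994379914546290600576887327471056446146272396381641823555524042443778 (by decide +kernel)))

theorem cl165 : Clo K (Helper55.TR.GK 1 Helper55.TR.BrU) r176 :=
  .i [n0,n1,m1,m2,n0,n0,n0,m1] (e' := [n1,m1,n1,n2,n0,n0,n0,n1]) (by decide +kernel) (by decide +kernel) (.t
  t106 ok106) cl164

theorem cl166 : Clo K (Helper55.TR.GK 1 Helper55.TR.BrU) r174 :=
  .i [n1,n0,n2,n2,m1,n0,n0,m1] (e' := [n0,n0,m2,m2,n1,n0,n0,n1]) (by decide +kernel) (by decide +kernel) cl162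
  cl165

theorem cl167 : Clo K (Helper55.TR.GK 1 Helper55.TR.BrU) r170 :=
  .q [n0,m1,n0,n1,n0,n0,m1,m1,n1,m1] (e' := [n0,n1,n0,m1,n0,n0,n1,n1,m1,n1]) (.p false [0,0,1] [1] (⟨0,[(22,0)]⟩,
  ⟨0,[(17,0)]⟩) .k 1 (⟨0,[]⟩,⟨0,[]⟩) .k .k) (by decide +kernel) (by decide +kernel) cl161 cl166

theorem cl168 : Clo K (Helper55.TR.GK 1 Helper55.TR.BrU) r168 :=
  .q [n0,m1,n0,n2,n0,n0,m1,m1,n1,m1] (e' := [n0,n1,n0,m2,n0,n0,n1,n1,m1,n1]) (.p false [0,0,1] [1] (⟨0,[(21,0)]⟩,
  ⟨0,[(16,0)]⟩) .k 1 (⟨0,[]⟩,⟨0,[]⟩) .k .k) (by decide +kernel) (by decide +kernel) cl160 cl167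

theorem cl169 : Clo K (Helper55.TR.GK 1 Helper55.TR.BrU) r167 :=
  .q [n0,n0,m2,n0,n1,n0,m2,n0,n1,m2] (e' := [n0,n0,n2,n0,m1,n0,n2,n0,m1,n2]) (.p false [0,0,1] [1,0,-1] (⟨0,[(20,
  0)]⟩,⟨0,[(15,0)]⟩) .k 2 (⟨0,[(15,0)]⟩,⟨0,[(20,0)]⟩) .k (.r (-1) ⟨2,[(10,1),(0,0),(1,1),(11,3)]⟩
  ⟨0,[(37,1)]⟩)) (by decide +kernel) (by decide +kernel) cl157 cl168

theorem cl170 : Clo K (Helper55.TR.GK 1 Helper55.TR.BrU) r157 :=
  .i [n0,n1,n2,n1,m1] (e' := [n1,m1,m2,m1,n1]) (by decide +kernel) (by decide +kernel) (.t t100 ok100)
  cl169

theorem cl171 : Clo K (Helper55.TR.GK 1 Helper55.TR.BrU) r156 :=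
  .q [n0,n0,n0,n0,n0,n2,n0,n0,n0,m1] (e' := [n0,n0,n0,n0,n0,m2,n0,n0,n0,n1]) (.p false [0,0,1] [] (⟨0,[(18,0)]⟩,⟨0,
  [(13,0)]⟩) .k 0 (⟨0,[]⟩,⟨0,[]⟩) .k .k) (by decide +kernel) (by decide +kernel) cl156 cl170

theorem cl172 : Clo K (Helper55.TR.GK 1 Helper55.TR.BrU) r130 :=
  .i [n1,n0,m1,m1,n0,n0,n0,m2] (e' := [n0,n0,n1,n1,n0,n0,n0,n2]) (by decide +kernel) (by decide +kernel) (.t t93
  ok93) cl171

theorem cl173 : Clo K (Helper55.TR.GK 1 Helper55.TR.BrU) r116 :=
  .i [n0,n0,m1,m1,n0,n0,n0,m2] (e' := [n1,n0,n1,n1,n0,n0,n0,n2]) (by decide +kernel) (by decide +kernel) cl147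
  cl172

theorem cl174 : Clo K (Helper55.TR.GK 1 Helper55.TR.BrU) r107 :=
  .i [n1,n1,m1,m1,n0,n0,n0,m1] (e' := [n0,m1,n1,n1,n0,n0,n0,n1]) (by decide +kernel) (by decide +kernel) cl122
  cl173

theorem cl175 : Clo K (Helper55.TR.GK 1 Helper55.TR.BrU) r106 :=
  .i [n0,n0,m1,m2,n0,n0,n0,m1] (e' := [n1,n0,n1,n2,n0,n0,n0,n1]) (by decide +kernel) (by decide +kernel) cl109
  cl174

theorem cl176 : Clo K (Helper55.TR.GK 1 Helper55.TR.BrU) l105 :=
  .i [n1,n1,n2,n2,m1] (e' := [n0,m1,m2,m2,n1]) (by decide +kernel) (by decide +kernel) (.t t66 ok66) cl175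

theorem cl177 : Clo K (Helper55.TR.GK 1 Helper55.TR.BrU) r191 :=
  .i [n1,n0,n1,n1,m1,n0,n0,m2] (e' := [n0,n0,m1,m1,n1,n0,n0,n2]) (by decide +kernel) (by decide +kernel) (.t
  t115 ok115) (.h (Helper55.TR.GK.u Helper55.CD.Dm1_1_c0u_72.g 86012488396531482027576766539482774602787088904125598216065207718094303049791833741361438012960877354809336523490868908137025373187 (by decide +kernel)))

theorem cl178 : Clo K (Helper55.TR.GK 1 Helper55.TR.BrU) r190 :=
  .i [n1,n0,m2,m2,n1,n0,n0,n1] (e' := [n0,n0,n2,n2,m1,n0,n0,m1]) (by decide +kernel) (by decide +kernel) (.t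
  t114 ok114) cl177

theorem cl179 : Clo K (Helper55.TR.GK 1 Helper55.TR.BrU) l189 :=
  .i [n0,n0,n1,n1,m1,n0,n0,m2] (e' := [n1,n0,m1,m1,n1,n0,n0,n2]) (by decide +kernel) (by decide +kernel) (.t
  t113 ok113) cl178

theorem cl180 : Clo K (Helper55.TR.GK 1 Helper55.TR.BrU) l195 :=
  .i [n1,n0,m2,m2,n1,n0,n0,n1] (e' := [n0,n0,n2,n2,m1,n0,n0,m1]) (by decide +kernel) (by decide +kernel) (.t
  t117 ok117) (.h (Helper55.TR.GK.u Helper55.CD.Dm1_1_c0u_73.g 174560710028790518572261878256909788424950665998184947860064826739503595433279786382750418672596876250149517061662038424721859675379730435 (by decide +kernel)))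

theorem cl181 : Clo K (Helper55.TR.GK 1 Helper55.TR.BrU) r194 :=
  .i [n0,n0,n2,n0,m1,n2,n1] (e' := [n1,n0,m2,n0,n1,m2,m1]) (by decide +kernel) (by decide +kernel) cl180 (.h
  (Helper55.TR.GK.u Helper55.CD.Dm1_1_c0u_74.g 170499823684642329233183206378638025214456875147736386997448289308240933026269723881894602716695818852516239403917422432480880725329923 (by decide +kernel)))

theorem cl182 : Clo K (Helper55.TR.GK 1 Helper55.TR.BrU) l193 :=
  .i [n1,n0,n1,n1,m1,n0,n0,m2] (e' := [n0,n0,m1,m1,n1,n0,n0,n2]) (by decide +kernel) (by decide +kernel) (.t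
  t116 ok116) cl181

theorem cl183 : Clo K (Helper55.TR.GK 1 Helper55.TR.BrU) r189 :=
  .i [n1,n0,m1,m1,n1,n0,n0,n2] (e' := [n0,n0,n1,n1,m1,n0,n0,m2]) (by decide +kernel) (by decide +kernel) cl182
  (.t t118 ok118)

theorem cl184 : Clo K (Helper55.TR.GK 1 Helper55.TR.BrU) r188 :=
  .q [n0,n0,n0,n0,n0,m2,n0,n0,n0,n1] (e' := [n0,n0,n0,n0,n0,n2,n0,n0,n0,m1]) (.p true [0,0,1] [] (⟨0,[(21,0)]⟩,⟨0,
  [(16,0)]⟩) .k 0 (⟨0,[]⟩,⟨0,[]⟩) .k .k) (by decide +kernel) (by decide +kernel) cl179 cl183

theorem cl185 : Clo K (Helper55.TR.GK 1 Helper55.TR.BrU) l187 :=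
  .q [n0,m1,n0,n1,n0,n0,m1,m1,n1,m1] (e' := [n0,n1,n0,m1,n0,n0,n1,n1,m1,n1]) (.p false [0,0,1] [1] (⟨0,[(20,0)]⟩,
  ⟨0,[(15,0)]⟩) .k 1 (⟨0,[]⟩,⟨0,[]⟩) .k .k) (by decide +kernel) (by decide +kernel) (.t t112 ok112)
  cl184

theorem cl186 : Clo K (Helper55.TR.GK 1 Helper55.TR.BrU) l199 :=
  .q [n0,n0,n0,n0,n0,m2,n0,n0,n0,n1] (e' := [n0,n0,n0,n0,n0,n2,n0,n0,n0,m1]) (.p true [0,0,1] [] (⟨0,[(23,0)]⟩,⟨0,
  [(18,0)]⟩) .k 0 (⟨0,[]⟩,⟨0,[]⟩) .k .k) (by decide +kernel) (by decide +kernel) (.t t120 ok120)
  (.h (Helper55.TR.GK.x1 Helper55.CD.Dm1_1_c0u_75.g 93200078273538449853415972188280174476871916158265642516447761426517764900014233921448687415310035220056569445409939856037652650934667267 (by decide +kernel)))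

theorem cl187 : Clo K (Helper55.TR.GK 1 Helper55.TR.BrU) l201 :=
  .q [n0,n0,n0,n0,n0,m2,n0,n0,n0,n1] (e' := [n0,n0,n0,n0,n0,n2,n0,n0,n0,m1]) (.p true [0,0,1] [] (⟨0,[(24,0)]⟩,⟨0,
  [(19,0)]⟩) .k 0 (⟨0,[]⟩,⟨0,[]⟩) .k .k) (by decide +kernel) (by decide +kernel) (.t t121 ok121)
  (.h (Helper55.TR.GK.u Helper55.CD.Dm1_1_c0u_76.g 169279211810776703532935631142669382300661572412529494022303341020860391507899235189196809905921873871105180125524697933069544327171 (by decide +kernel)))

theorem cl188 : Clo K (Helper55.TR.GK 1 Helper55.TR.BrU) r199 :=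
  .q [n0,m1,n0,n1,n0,n0,m1,m1,n1,m1] (e' := [n0,n1,n0,m1,n0,n0,n1,n1,m1,n1]) (.p false [0,0,1] [1] (⟨0,[(23,0)]⟩,
  ⟨0,[(18,0)]⟩) .k 1 (⟨0,[]⟩,⟨0,[]⟩) .k .k) (by decide +kernel) (by decide +kernel) cl187 (.h
  (Helper55.TR.GK.u Helper55.CD.Dm1_1_c0u_77.g 49589874165250341994552256649663792365680775392533700317311251203655056299209380769415528995491171550332363661716049908168148350159291395 (by decide +kernel)))

theorem cl189 : Clo K (Helper55.TR.GK 1 Helper55.TR.BrU) r198 :=
  .q [n0,m1,n0,n2,n0,n0,m1,m1,n1,m1] (e' := [n0,n1,n0,m2,n0,n0,n1,n1,m1,n1]) (.p false [0,0,1] [1] (⟨0,[(22,0)]⟩,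
  ⟨0,[(17,0)]⟩) .k 1 (⟨0,[]⟩,⟨0,[]⟩) .k .k) (by decide +kernel) (by decide +kernel) cl186 cl188

theorem cl190 : Clo K (Helper55.TR.GK 1 Helper55.TR.BrU) l197 :=
  .i [n1,n0,m2,m2,n1,n0,n0,n1] (e' := [n0,n0,n2,n2,m1,n0,n0,m1]) (by decide +kernel) (by decide +kernel) (.t
  t119 ok119) cl189

theorem cl191 : Clo K (Helper55.TR.GK 1 Helper55.TR.BrU) l203 :=
  .i [n0,n0,n2,n0,m1,n2,n1] (e' := [n1,n0,m2,n0,n1,m2,m1]) (by decide +kernel) (by decide +kernel) (.t t122
  ok122) (.h (Helper55.TR.GK.u Helper55.CD.Dm1_1_c0u_78.g 149022454802917255651273148960396103805244942915421488660524501113281837764331927232082348598757205258016176381332098974399277783586880620547 (by decide +kernel)))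

theorem cl192 : Clo K (Helper55.TR.GK 1 Helper55.TR.BrU) r197 :=
  .i [n1,n0,m2,m2,n1,n0,n0,n1] (e' := [n0,n0,n2,n2,m1,n0,n0,m1]) (by decide +kernel) (by decide +kernel) cl191
  (.h (Helper55.TR.GK.u Helper55.CD.Dm1_1_c0u_79.g 139276879610209840296485196172738330051183410269253518665229472311113250137110973083458625816318403635672301054652465682291058073929731 (by decide +kernel)))

theorem cl193 : Clo K (Helper55.TR.GK 1 Helper55.TR.BrU) r187 :=
  .i [n0,n0,m2,n0,n1,m2,m1] (e' := [n1,n0,n2,n0,m1,n2,n1]) (by decide +kernel) (by decide +kernel) cl190 cl192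

theorem cl194 : Clo K (Helper55.TR.GK 1 Helper55.TR.BrU) l186 :=
  .i [n0,n0,n1,n0,m1,n0,n0,m2] (e' := [n1,n0,m1,n0,n1,n0,n0,n2]) (by decide +kernel) (by decide +kernel) cl185
  cl193

theorem cl195 : Clo K (Helper55.TR.GK 1 Helper55.TR.BrU) l205 :=
  .i [n1,n0,m3,m3,n1] (e' := [n0,n0,n3,n3,m1]) (by decide +kernel) (by decide +kernel) (.t t123 ok123) (.h
  (Helper55.TR.GK.u Helper55.CD.Dm1_1_c0u_80.g 136012572448118205732236318367873429067505343370262085873228763336606086366092884674323469300138101375900532421956467016515212806147 (by decide +kernel)))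

theorem cl196 : Clo K (Helper55.TR.GK 1 Helper55.TR.BrU) l207 :=
  .i [n1,n0,m4,m4,n1,n0,n0,m1] (e' := [n0,n0,n4,n4,m1,n0,n0,n1]) (by decide +kernel) (by decide +kernel) (.t
  t124 ok124) (.h (Helper55.TR.GK.u Helper55.CD.Dm1_1_c0u_81.g 139279665725787518277338923335219141008004511157120997432502722417774121005850328368941704747421369198726903431955633464357964252973059 (by decide +kernel)))

theorem cl197 : Clo K (Helper55.TR.GK 1 Helper55.TR.BrU) r205 :=
  .i [n1,n0,n4,n4,m1,n0,n0,n1] (e' := [n0,n0,m4,m4,n1,n0,n0,m1]) (by decide +kernel) (by decide +kernel) cl196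
  (.h (Helper55.TR.GK.t (L := (r207).map (fun c => Helper11.CT.insC 8 (Helper11.CT.insC 8 c))) (Helper55.TR.GT.lJ Helper55.CD.Dm1_1_c0u_82.g 190594440865940894074357256255241047636851380766422165952371023951026087036338548281907366173352407615804703047670387125388396368201351414577911831 (by decide +kernel)) 160253465773128188090440793946382768948081006898077497453501431265752548889378305269945221478387859071114025976106181483542 (by decide +kernel)))

theorem cl198 : Clo K (Helper55.TR.GK 1 Helper55.TR.BrU) r186 :=
  .i [n1,n0,n3,n3,m1] (e' := [n0,n0,m3,m3,n1]) (by decide +kernel) (by decide +kernel) cl195 cl197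

theorem cl199 : Clo K (Helper55.TR.GK 1 Helper55.TR.BrU) r185 :=
  .i [n1,n0,n2,n2,m1,n0,n0,m1] (e' := [n0,n0,m2,m2,n1,n0,n0,n1]) (by decide +kernel) (by decide +kernel) cl194
  cl198

theorem cl200 : Clo K (Helper55.TR.GK 1 Helper55.TR.BrU) l184 :=
  .q [n0,n0,n1,n0,n0,n0,m2,n0,n1,m2] (e' := [n0,n0,m1,n0,n0,n0,n2,n0,m1,n2]) (.p false [0,0,1] [1,0,-1] (⟨0,[(17,
  0)]⟩,⟨0,[(12,0)]⟩) .k 2 (⟨0,[(12,0)]⟩,⟨0,[(17,0)]⟩) .k (.r (-1) ⟨2,[(2,1),(5,0),(9,1),(6,1)]⟩ ⟨0,
  [(34,1)]⟩)) (by decide +kernel) (by decide +kernel) (.t t111 ok111) cl199

theorem cl201 : Clo K (Helper55.TR.GK 1 Helper55.TR.BrU) l211 :=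
  .q [n0,n0,n1,n0,n0,n0,m2,n0,n1,m2] (e' := [n0,n0,m1,n0,n0,n0,n2,n0,m1,n2]) (.p false [0,0,1] [1,0,-1] (⟨0,[(20,
  0)]⟩,⟨0,[(15,0)]⟩) .k 2 (⟨0,[(15,0)]⟩,⟨0,[(20,0)]⟩) .k (.r (-1) ⟨2,[(5,1),(5,0),(9,1),(6,1)]⟩ ⟨0,
  [(37,1)]⟩)) (by decide +kernel) (by decide +kernel) (.t t125 ok125) (.h (Helper55.TR.GK.x1 Helper55.CD.Dm1_1_c0u_83.g 155348097165548085170952202650801310070044112180568034916962696333279558491008954571328370119231881236175736662631962826261729904643 (by decide +kernel)))

theorem cl202 : Clo K (Helper55.TR.GK 1 Helper55.TR.BrU) l213 :=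
  .q [n0,n0,m2,n0,n1,n0,m2,n0,n1,m2] (e' := [n0,n0,n2,n0,m1,n0,n2,n0,m1,n2]) (.p false [0,0,1] [1,0,-1] (⟨0,[(21,
  0)]⟩,⟨0,[(16,0)]⟩) .k 2 (⟨0,[(16,0)]⟩,⟨0,[(21,0)]⟩) .k (.r (-1) ⟨2,[(6,1),(5,0),(9,1),(6,1)]⟩ ⟨0,
  [(38,1)]⟩)) (by decide +kernel) (by decide +kernel) (.t t126 ok126) (.h (Helper55.TR.GK.t Helper55.CD.Dm1_1_c0u_84.g 74439963145675107377901112045104233819442498752690027765856107252158546610700886826391236475600244906497975558174463598059578337050715245570 (by decide +kernel)))

theorem cl203 : Clo K (Helper55.TR.GK 1 Helper55.TR.BrU) l217 :=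
  .q [n0,n0,m2,n0,n1,n0,m2,n0,n1,m2] (e' := [n0,n0,n2,n0,m1,n0,n2,n0,m1,n2]) (.p false [0,0,1] [1,0,-1] (⟨0,[(24,
  0)]⟩,⟨0,[(19,0)]⟩) .k 2 (⟨0,[(19,0)]⟩,⟨0,[(24,0)]⟩) .k (.r (-1) ⟨2,[(9,1),(5,0),(9,1),(6,1)]⟩ ⟨0,
  [(41,1)]⟩)) (by decide +kernel) (by decide +kernel) (.t t128 ok128) (.h (Helper55.TR.GK.t (L := (r218).map (fun c => Helper11.CT.insC 8 (Helper11.CT.insC 8 c))) (Helper55.TR.GT.l1 Helper55.CD.Dm1_1_c0u_85.g 178892705631919511880430555022691336770531642255883493862234921628545091712398849653852208889832841074898658092160149867384588416845827 (by decide +kernel)) 187568505596181244587464639917955076814707681295121887596140666061157303105990517565072506050156946079720688757942774774663504587676694 (by decide +kernel)))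

theorem cl204 : Clo K (Helper55.TR.GK 1 Helper55.TR.BrU) l219 :=
  .i [n1,n0,m3,m3,n1] (e' := [n0,n0,n3,n3,m1]) (by decide +kernel) (by decide +kernel) (.t t129 ok129) (.h
  (Helper55.TR.GK.t (L := (r220).map (fun c => Helper11.CT.insC 8 (Helper11.CT.insC 8 c))) (Helper55.TR.GT.l1 Helper55.CD.Dm1_1_c0u_86.g 48187628167011872899998922454178925420832547901873651165965016848234357230427161 (by decide +kernel)) 194980346616818827911806245153903170283590592345496362043035514046472486517496633968984274097338792516364076479237278460961936741056404502 (by decide +kernel)))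

theorem cl205 : Clo K (Helper55.TR.GK 1 Helper55.TR.BrU) r217 :=
  .i [n1,n0,n3,n3,m1] (e' := [n0,n0,m3,m3,n1]) (by decide +kernel) (by decide +kernel) cl204 (.h (Helper55.TR.GK.x1 Helper55.CD.Dm1_1_c0u_87.g 183090671881915919560921381181780185133036085403137435633394966519150259873127227526070027370208398300230586554202648130462547843536672084986882 (by decide +kernel)))

theorem cl206 : Clo K (Helper55.TR.GK 1 Helper55.TR.BrU) r216 :=
  .i [n0,n1,n2,n1,m1,n0,n0,m1] (e' := [n1,m1,m2,m1,n1,n0,n0,n1]) (by decide +kernel) (by decide +kernel) cl203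
  cl205

theorem cl207 : Clo K (Helper55.TR.GK 1 Helper55.TR.BrU) l215 :=
  .i [n1,n0,n2,n2,m1,n0,n0,m1] (e' := [n0,n0,m2,m2,n1,n0,n0,n1]) (by decide +kernel) (by decide +kernel) (.t
  t127 ok127) cl206

theorem cl208 : Clo K (Helper55.TR.GK 1 Helper55.TR.BrU) l222 :=
  .q [n0,n0,m2,n0,n1,n0,m2,n0,n1,m2] (e' := [n0,n0,n2,n0,m1,n0,n2,n0,m1,n2]) (.p false [0,0,1] [1,0,-1] (⟨0,[(24,
  0)]⟩,⟨0,[(19,0)]⟩) .k 2 (⟨0,[(19,0)]⟩,⟨0,[(24,0)]⟩) .k (.r (-1) ⟨2,[(9,1),(5,0),(9,1),(6,1)]⟩ ⟨0,
  [(41,1)]⟩)) (by decide +kernel) (by decide +kernel) (.t t130 ok130) (.h (Helper55.TR.GK.t Helper55.CD.Dm1_1_c0u_88.g 144230689464390994119201725274018915162582234772253326008664216229908607655744920203712513065553743607468991906259777134862750373620162113140173366643714 (by decide +kernel)))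

theorem cl209 : Clo K (Helper55.TR.GK 1 Helper55.TR.BrU) l221 :=
  .i [n0,n1,n2,n1,m1,n0,n0,m1] (e' := [n1,m1,m2,m1,n1,n0,n0,n1]) (by decide +kernel) (by decide +kernel) cl208
  (.h (Helper55.TR.GK.t Helper55.CD.Dm1_1_c0u_89.g 152014057607037403089347399368198933559607953352258079875969653241005043827161309688980069634495508145613263832256865998931186923616135556108 (by decide +kernel)))

theorem cl210 : Clo K (Helper55.TR.GK 1 Helper55.TR.BrU) r221 :=
  .i [n0,n0,m2,n0,n1,m2,m1] (e' := [n1,n0,n2,n0,m1,n2,n1]) (by decide +kernel) (by decide +kernel) (.t t131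
  ok131) (.h (Helper55.TR.GK.t (L := (r224).map (fun c => Helper11.CT.insC 8 (Helper11.CT.insC 8 c))) (Helper55.TR.GT.lb Helper55.CD.Dm1_1_c0u_90.g 48447017443238777579320096315084363375031373279557885280734509181696967259249504386813897719908366113190443095454207307707256673404931 (by decide +kernel)) 180396988720093117717095696828907801659517992922700179818974084898736639255115457538875788014776833586601156327275776174115105299478 (by decide +kernel)))

theorem cl211 : Clo K (Helper55.TR.GK 1 Helper55.TR.BrU) r215 :=
  .i [n0,n0,m2,m2,n1,n0,n0,n1] (e' := [n1,n0,n2,n2,m1,n0,n0,m1]) (by decide +kernel) (by decide +kernel) cl209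
  cl210

theorem cl212 : Clo K (Helper55.TR.GK 1 Helper55.TR.BrU) r213 :=
  .i [n0,n0,n2,n0,m1,n2,n1] (e' := [n1,n0,m2,n0,n1,m2,m1]) (by decide +kernel) (by decide +kernel) cl207 cl211

theorem cl213 : Clo K (Helper55.TR.GK 1 Helper55.TR.BrU) r211 :=
  .i [n0,n0,n2,n2,m1,n0,n0,m1] (e' := [n1,n0,m2,m2,n1,n0,n0,n1]) (by decide +kernel) (by decide +kernel) cl202
  cl212

theorem cl214 : Clo K (Helper55.TR.GK 1 Helper55.TR.BrU) l210 :=
  .i [n0,n1,m1,m2,n0,n0,n0,m1] (e' := [n1,m1,n1,n2,n0,n0,n0,n1]) (by decide +kernel) (by decide +kernel) cl201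
  cl213

theorem cl215 : Clo K (Helper55.TR.GK 1 Helper55.TR.BrU) l227 :=
  .q [n0,n0,m2,n0,n1,n0,m2,n0,n1,m2] (e' := [n0,n0,n2,n0,m1,n0,n2,n0,m1,n2]) (.p false [0,0,1] [1,0,-1] (⟨0,[(22,
  0)]⟩,⟨0,[(17,0)]⟩) .k 2 (⟨0,[(17,0)]⟩,⟨0,[(22,0)]⟩) .k (.r (-1) ⟨2,[(7,1),(5,0),(9,1),(6,1)]⟩ ⟨0,
  [(39,1)]⟩)) (by decide +kernel) (by decide +kernel) (.t t133 ok133) (.h (Helper55.TR.GK.t (L := (r228).map (fun c => Helper11.CT.insC 8 (Helper11.CT.insC 8 c))) (Helper55.TR.GT.lb Helper55.CD.Dm1_1_c0u_91.g 24421586522605074084701315799943983889439981056610645068475513169675031533211198525741148220095865410734716036325292971441083338998766190464023 (by decide +kernel)) 173458602240151844498774859607360936149583023272102432892912158786254247749792041277451618007761010270727614784544005231785040918 (by decide +kernel)))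

theorem cl216 : Clo K (Helper55.TR.GK 1 Helper55.TR.BrU) r226 :=
  .i [n0,n1,n2,n1,m1,n0,n0,m1] (e' := [n1,m1,m2,m1,n1,n0,n0,n1]) (by decide +kernel) (by decide +kernel) cl215
  (.h (Helper55.TR.GK.t (L := (r227).map (fun c => Helper11.CT.insC 8 (Helper11.CT.insC 8 c))) (Helper55.TR.GT.lJ Helper55.CD.Dm1_1_c0u_92.g 203118003125800236988509372160287123633990304202784618064000006689988371229077834582747625265799690268334096255842591384605526591463044131386837051 (by decide +kernel)) 166746357600915775123973098418204684805706061113896944757184997840416011940439837453217626252286639640664099456281992474156054 (by decide +kernel)))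

theorem cl217 : Clo K (Helper55.TR.GK 1 Helper55.TR.BrU) l225 :=
  .i [n0,n1,n2,n1,m1] (e' := [n1,m1,m2,m1,n1]) (by decide +kernel) (by decide +kernel) (.t t132 ok132)
  cl216

theorem cl218 : Clo K (Helper55.TR.GK 1 Helper55.TR.BrU) l229 :=
  .i [n0,n0,n2,n0,m1,n2,n1] (e' := [n1,n0,m2,n0,n1,m2,m1]) (by decide +kernel) (by decide +kernel) (.t t134
  ok134) (.h (Helper55.TR.GK.t (L := (r230).map (fun c => Helper11.CT.insC 8 (Helper11.CT.insC 8 c))) (Helper55.TR.GT.lb Helper55.CD.Dm1_1_c0u_93.g 23849120284504105128926673499545225582595137248107756073617077485736401126914171903773905857953004261264261383207818337362654216346075663383 (by decide +kernel)) 166746357600915775123973098418204684805706061113896944757184997840416011940439837453217626252286639640664099456281992474156054 (by decide +kernel)))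

theorem cl219 : Clo K (Helper55.TR.GK 1 Helper55.TR.BrU) r231 :=
  .i [n0,n1,n2,n1,m1] (e' := [n1,m1,m2,m1,n1]) (by decide +kernel) (by decide +kernel) (.t t136 ok136)
  (.h (Helper55.TR.GK.t (L := (r232).map (fun c => Helper11.CT.insC 8 (Helper11.CT.insC 8 c))) (Helper55.TR.GT.lb Helper55.CD.Dm1_1_c0u_94.g 171970175878136483285772881074452888556609231834125298865412410862678035350147766607441492264522860766156211254329707551787011 (by decide +kernel)) 173458602240151844498774859607360936149583023272102432892912158786254247749792041277451618007761010270727614784544005231785040918 (by decide +kernel)))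

theorem cl220 : Clo K (Helper55.TR.GK 1 Helper55.TR.BrU) r229 :=
  .q [n0,n0,m2,n0,n1,n0,m2,n0,n1,m2] (e' := [n0,n0,n2,n0,m1,n0,n2,n0,m1,n2]) (.p false [0,0,1] [1,0,-1] (⟨0,[(21,
  0)]⟩,⟨0,[(16,0)]⟩) .k 2 (⟨0,[(16,0)]⟩,⟨0,[(21,0)]⟩) .k (.r (-1) ⟨2,[(6,1),(5,0),(9,1),(6,1)]⟩ ⟨0,
  [(38,1)]⟩)) (by decide +kernel) (by decide +kernel) (.t t135 ok135) cl219

theorem cl221 : Clo K (Helper55.TR.GK 1 Helper55.TR.BrU) r225 :=
  .i [n1,n0,m2,m2,n1,n0,n0,n1] (e' := [n0,n0,n2,n2,m1,n0,n0,m1]) (by decide +kernel) (by decide +kernel) cl218
  cl220

theorem cl222 : Clo K (Helper55.TR.GK 1 Helper55.TR.BrU) r210 :=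
  .i [n0,n0,m2,m2,n1,n0,n0,n1] (e' := [n1,n0,n2,n2,m1,n0,n0,m1]) (by decide +kernel) (by decide +kernel) cl217
  cl221

theorem cl223 : Clo K (Helper55.TR.GK 1 Helper55.TR.BrU) l209 :=
  .q [n0,n0,n0,n0,n0,m2,n0,n0,n1,m1] (e' := [n0,n0,n0,n0,n0,n2,n0,n0,m1,n1]) (.p false [0,0,1] [1] (⟨0,[(18,0)]⟩,⟨0,
  [(13,0)]⟩) .k 1 (⟨0,[]⟩,⟨0,[]⟩) .k .k) (by decide +kernel) (by decide +kernel) cl214 cl222

theorem cl224 : Clo K (Helper55.TR.GK 1 Helper55.TR.BrU) r236 :=
  .i [n0,n1,n2,n1,m1,n0,n0,m1] (e' := [n1,m1,m2,m1,n1,n0,n0,n1]) (by decide +kernel) (by decide +kernel) (.t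
  t139 ok139) (.h (Helper55.TR.GK.t Helper55.CD.Dm1_1_c0u_95.g 106212637709827907227644555648186993020341662707480661338162795366529575720128439068288947838658708079733456126355906881287461763292124244168687631 (by decide +kernel)))

theorem cl225 : Clo K (Helper55.TR.GK 1 Helper55.TR.BrU) l235 :=
  .i [n1,n0,m3,m3,n1] (e' := [n0,n0,n3,n3,m1]) (by decide +kernel) (by decide +kernel) (.t t138 ok138)
  cl224

theorem cl226 : Clo K (Helper55.TR.GK 1 Helper55.TR.BrU) l241 :=
  .q [n0,n0,n1,n0,n0,n0,m2,n0,n1,m2] (e' := [n0,n0,m1,n0,n0,n0,n2,n0,m1,n2]) (.p false [0,0,1] [1,0,-1] (⟨0,[(25,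
  0)]⟩,⟨0,[(20,0)]⟩) .k 2 (⟨0,[(20,0)]⟩,⟨0,[(25,0)]⟩) .k (.r (-1) ⟨2,[(10,1),(5,0),(9,1),(6,1)]⟩ ⟨5,
  [(0,3),(12,1),(5,2),(9,0),(5,0)]⟩)) (by decide +kernel) (by decide +kernel) (.t t140 ok140) (.h
  (Helper55.TR.GK.t (L := (r242).map (fun c => Helper11.CT.insC 8 (Helper11.CT.insC 8 c))) (Helper55.TR.GT.lb Helper55.CD.Dm1_1_c0u_96.g 103341962022690402598654268894027168348716603737913313364432425662991317105324838291849220132365366575251894397783281952853140788897754459612584180724407566530646134787 (by decide +kernel)) 194980346616818827911806245153903170283590592345496362043035514046472486517496633968984274097338792516364076479237278460961936741056404502 (by decide +kernel)))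

theorem cl227 : Clo K (Helper55.TR.GK 1 Helper55.TR.BrU) l240 :=
  .i [n0,n0,m1,m1,n0,n0,n0,m2] (e' := [n1,n0,n1,n1,n0,n0,n0,n2]) (by decide +kernel) (by decide +kernel) cl226
  (.t t141 ok141)

theorem cl228 : Clo K (Helper55.TR.GK 1 Helper55.TR.BrU) r240 :=
  .q [n0,n0,n1,n0,n0,n0,m2,n0,n1,m2] (e' := [n0,n0,m1,n0,n0,n0,n2,n0,m1,n2]) (.p false [0,0,1] [1,0,-1] (⟨0,[(24,
  0)]⟩,⟨0,[(19,0)]⟩) .k 2 (⟨0,[(19,0)]⟩,⟨0,[(24,0)]⟩) .k (.r (-1) ⟨2,[(9,1),(5,0),(9,1),(6,1)]⟩ ⟨0,
  [(41,1)]⟩)) (by decide +kernel) (by decide +kernel) (.t t142 ok142) (.h (Helper55.TR.GK.t (L := (r243).map (fun c => Helper11.CT.insC 8 (Helper11.CT.insC 8 c))) (Helper55.TR.GT.l1 Helper55.CD.Dm1_1_c0u_97.g 151242895372521064749651798092825312537493512869167375367083604565134080216422902071173910833524377939556843324723392837006141138318813328582254480578985277183070570497 (by decide +kernel)) 187568505596181244587464639917955076814707681295121887596140666061157303105990517565072506050156946079720688757942774774663504587676694 (by decide +kernel)))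

theorem cl229 : Clo K (Helper55.TR.GK 1 Helper55.TR.BrU) l239 :=
  .i [n0,n0,m3,n0,n1,m3,m2] (e' := [n1,n0,n3,n0,m1,n3,n2]) (by decide +kernel) (by decide +kernel) cl227 cl228

theorem cl230 : Clo K (Helper55.TR.GK 1 Helper55.TR.BrU) l238 :=
  .i [n0,n1,m1,m2,n0,n0,n0,m1] (e' := [n1,m1,n1,n2,n0,n0,n0,n1]) (by decide +kernel) (by decide +kernel) cl229
  (.h (Helper55.TR.GK.t Helper55.CD.Dm1_1_c0u_98.g 106319498707728304324488285601770357011030643994738848057744765739294643503497137770427663428898457647059927953667619697263526606957353284889749513 (by decide +kernel)))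

theorem cl231 : Clo K (Helper55.TR.GK 1 Helper55.TR.BrU) r235 :=
  .q [n0,n0,n0,n0,n0,m2,n0,n0,n1,m1] (e' := [n0,n0,n0,n0,n0,n2,n0,n0,m1,n1]) (.p false [0,0,1] [1] (⟨0,[(21,0)]⟩,⟨0,
  [(16,0)]⟩) .k 1 (⟨0,[]⟩,⟨0,[]⟩) .k .k) (by decide +kernel) (by decide +kernel) cl230 (.h (Helper55.TR.GK.t Helper55.CD.Dm1_1_c0u_99.g 183013219972994178274432157011965187684087277581085606826355146635979767471087595885790469387937892792977575042717821693791919811719934676838409 (by decide +kernel)))

theorem cl232 : Clo K (Helper55.TR.GK 1 Helper55.TR.BrU) r234 :=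
  .i [n1,n0,n3,n3,m1] (e' := [n0,n0,m3,m3,n1]) (by decide +kernel) (by decide +kernel) cl225 cl231

theorem cl233 : Clo K (Helper55.TR.GK 1 Helper55.TR.BrU) l233 :=
  .i [n1,n1,n2,n2,m1,n0,n0,m1] (e' := [n0,m1,m2,m2,n1,n0,n0,n1]) (by decide +kernel) (by decide +kernel) (.t
  t137 ok137) cl232

theorem cl234 : Clo K (Helper55.TR.GK 1 Helper55.TR.BrU) l244 :=
  .i [n0,n0,n2,n1,m1,n0,n0,m1] (e' := [n1,n0,m2,m1,n1,n0,n0,n1]) (by decide +kernel) (by decide +kernel) (.t
  t143 ok143) (.h (Helper55.TR.GK.t Helper55.CD.Dm1_1_c0u_100.g 175743837249627299864518505252346524938101745496891818419906960203366642573030624466590782443807028256577905841898224977254007508635140237354 (by decide +kernel)))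

theorem cl235 : Clo K (Helper55.TR.GK 1 Helper55.TR.BrU) l247 :=
  .i [n0,n0,n2,n1,m1,n0,n0,m1] (e' := [n1,n0,m2,m1,n1,n0,n0,n1]) (by decide +kernel) (by decide +kernel) (.t
  t145 ok145) (.h (Helper55.TR.GK.t Helper55.CD.Dm1_1_c0u_101.g 106221911468375726333611904691636503075268639465564259731340939744377287477508243709203166541124460880805896697663286950192249401224863049620447247 (by decide +kernel)))

theorem cl236 : Clo K (Helper55.TR.GK 1 Helper55.TR.BrU) l253 :=
  .q [n0,n0,n1,n0,n0,n0,m2,n0,n1,m2] (e' := [n0,n0,m1,n0,n0,n0,n2,n0,m1,n2]) (.p false [0,0,1] [1,0,-1] (⟨0,[(27,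
  0)]⟩,⟨0,[(22,0)]⟩) .k 2 (⟨0,[(22,0)]⟩,⟨0,[(27,0)]⟩) .k (.r (-1) ⟨2,[(12,1),(5,0),(9,1),(6,1)]⟩ ⟨5,
  [(0,3),(14,1),(5,2),(9,0),(5,0)]⟩)) (by decide +kernel) (by decide +kernel) (.t t147 ok147) (.h
  (Helper55.TR.GK.u Helper55.CD.Dm1_1_c0u_102.g 134319421297734989650802252315469328573828226705339352951995971435585273661976263793454668005160358986801302734339920437881838812620674037711875 (by decide +kernel)))

theorem cl237 : Clo K (Helper55.TR.GK 1 Helper55.TR.BrU) r252 :=
  .i [n0,n0,m1,m1,n0,n0,n0,m2] (e' := [n1,n0,n1,n1,n0,n0,n0,n2]) (by decide +kernel) (by decide +kernel) cl236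
  (.t t148 ok148)

theorem cl238 : Clo K (Helper55.TR.GK 1 Helper55.TR.BrU) l251 :=
  .i [n1,n0,n2,n2,m1,n0,n0,m1] (e' := [n0,n0,m2,m2,n1,n0,n0,n1]) (by decide +kernel) (by decide +kernel) (.t
  t146 ok146) cl237

theorem cl239 : Clo K (Helper55.TR.GK 1 Helper55.TR.BrU) r251 :=
  .q [n0,n0,n1,n0,n0,n0,m2,n0,n1,m2] (e' := [n0,n0,m1,n0,n0,n0,n2,n0,m1,n2]) (.p false [0,0,1] [1,0,-1] (⟨0,[(25,
  0)]⟩,⟨0,[(20,0)]⟩) .k 2 (⟨0,[(20,0)]⟩,⟨0,[(25,0)]⟩) .k (.r (-1) ⟨2,[(10,1),(5,0),(9,1),(6,1)]⟩ ⟨0,
  [(42,1)]⟩)) (by decide +kernel) (by decide +kernel) (.t t149 ok149) (.h (Helper55.TR.GK.u Helper55.CD.Dm1_1_c0u_103.g 97715529576030711868838295624611510049273291846843783051938003356965117390255041561185837972197526400621018836399347030950946799961853317350403 (by decide +kernel)))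

theorem cl240 : Clo K (Helper55.TR.GK 1 Helper55.TR.BrU) l250 :=
  .i [n1,n0,m2,m2,n1,n0,n0,n1] (e' := [n0,n0,n2,n2,m1,n0,n0,m1]) (by decide +kernel) (by decide +kernel) cl238
  cl239

theorem cl241 : Clo K (Helper55.TR.GK 1 Helper55.TR.BrU) l258 :=
  .i [n1,n0,n3,n3,m1,n0,n0,n1] (e' := [n0,n0,m3,m3,n1,n0,n0,m1]) (by decide +kernel) (by decide +kernel) (.t
  t151 ok151) (.h (Helper55.TR.GK.t (L := (r259).map (fun c => Helper11.CT.insC 8 (Helper11.CT.insC 8 c))) (Helper55.TR.GT.l1 Helper55.CD.Dm1_1_c0u_104.g 136601436958760424697487434856477265035716073147214174102957199284779528021796431594710759157058391914099568927375229070335474981736504959994554592906876054778915323938 (by decide +kernel)) 210554837154636543893481615953480922991690195396543864197307913256217925691817404067934979910580255565099050059898586550108110536161198501551126 (by decide +kernel)))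

theorem cl242 : Clo K (Helper55.TR.GK 1 Helper55.TR.BrU) r257 :=
  .i [n1,n0,m3,m3,n1,n0,n0,m1] (e' := [n0,n0,n3,n3,m1,n0,n0,n1]) (by decide +kernel) (by decide +kernel) cl241
  (.h (Helper55.TR.GK.t (L := (r258).map (fun c => Helper11.CT.insC 8 (Helper11.CT.insC 8 c))) (Helper55.TR.GT.lb Helper55.CD.Dm1_1_c0u_105.g 241566541076053028846481698642375493894400254219544444583287302049836600591392575615774634464544077478937463247444110156928981409942751262690369417195292675 (by decide +kernel)) 202639916547223614838833867808584030114734611501862821056125937711431572126165993422166325247300477181024427694429343285932487459155839310870 (by decide +kernel)))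

theorem cl243 : Clo K (Helper55.TR.GK 1 Helper55.TR.BrU) l256 :=
  .i [n1,n0,m2,m2,n1,n0,n0,n1] (e' := [n0,n0,n2,n2,m1,n0,n0,m1]) (by decide +kernel) (by decide +kernel) (.t
  t150 ok150) cl242

theorem cl244 : Clo K (Helper55.TR.GK 1 Helper55.TR.BrU) r250 :=
  .i [n1,n0,n2,n2,m1,n0,n0,m1] (e' := [n0,n0,m2,m2,n1,n0,n0,n1]) (by decide +kernel) (by decide +kernel) cl243
  (.h (Helper55.TR.GK.t (L := (r256).map (fun c => Helper11.CT.insC 8 (Helper11.CT.insC 8 c))) (Helper55.TR.GT.lJ Helper55.CD.Dm1_1_c0u_106.g 122591941066862939988121531658444422915425655352008459727061392209062279781535131825596687951376702290673631341046691221992645420368436911533772733067904064572937226 (by decide +kernel)) 187568505596181244587464639917955076814707681295121887596140666061157303105990517565072506050156946079720688757942774774663504587676694 (by decide +kernel)))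

theorem cl245 : Clo K (Helper55.TR.GK 1 Helper55.TR.BrU) l249 :=
  .i [n0,n1,m1,m2,n0,n0,n0,m1] (e' := [n1,m1,n1,n2,n0,n0,n0,n1]) (by decide +kernel) (by decide +kernel) cl240
  cl244

theorem cl246 : Clo K (Helper55.TR.GK 1 Helper55.TR.BrU) l260 :=
  .i [n1,n0,m2,m2,n1,n0,n0,n1] (e' := [n0,n0,n2,n2,m1,n0,n0,m1]) (by decide +kernel) (by decide +kernel) (.t
  t152 ok152) (.h (Helper55.TR.GK.t (L := (r261).map (fun c => Helper11.CT.insC 8 (Helper11.CT.insC 8 c))) (Helper55.TR.GT.lb Helper55.CD.Dm1_1_c0u_107.g 140687217084280936421007324559029956076956305148207966305369681241759902752640780992228372311573153752254043793022801423285556587352360651727818563585283241031683 (by decide +kernel)) 187568505596181244587464639917955076814707681295121887596140666061157303105990517565072506050156946079720688757942774774663504587676694 (by decide +kernel)))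

theorem cl247 : Clo K (Helper55.TR.GK 1 Helper55.TR.BrU) r249 :=
  .i [n1,n0,n2,n2,m1,n0,n0,m1] (e' := [n0,n0,m2,m2,n1,n0,n0,n1]) (by decide +kernel) (by decide +kernel) cl246
  (.h (Helper55.TR.GK.t (L := (r260).map (fun c => Helper11.CT.insC 8 (Helper11.CT.insC 8 c))) (Helper55.TR.GT.lb Helper55.CD.Dm1_1_c0u_108.g 137237800390723883560555692358775731239621365000650956279814561351144546715810831435098073794097397061031846121723692712273518013566219417273632810310382366239745 (by decide +kernel)) 180396988720093117717095696828907801659517992922700179818974084898736639255115457538875788014776833586601156327275776174115105299478 (by decide +kernel)))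

theorem cl248 : Clo K (Helper55.TR.GK 1 Helper55.TR.BrU) r247 :=
  .q [n0,n0,n0,n0,n0,m2,n0,n0,n1,m1] (e' := [n0,n0,n0,n0,n0,n2,n0,n0,m1,n1]) (.p false [0,0,1] [1] (⟨0,[(22,0)]⟩,⟨0,
  [(17,0)]⟩) .k 1 (⟨0,[]⟩,⟨0,[]⟩) .k .k) (by decide +kernel) (by decide +kernel) cl245 cl247

theorem cl249 : Clo K (Helper55.TR.GK 1 Helper55.TR.BrU) r246 :=
  .q [n0,m1,n0,n1,n0,n0,m1,m1,n1,m1] (e' := [n0,n1,n0,m1,n0,n0,n1,n1,m1,n1]) (.p false [0,0,1] [1] (⟨0,[(21,0)]⟩,
  ⟨0,[(16,0)]⟩) .k 1 (⟨0,[]⟩,⟨0,[]⟩) .k .k) (by decide +kernel) (by decide +kernel) cl235 cl248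

theorem cl250 : Clo K (Helper55.TR.GK 1 Helper55.TR.BrU) r244 :=
  .i [n0,n1,n2,n1,m1] (e' := [n1,m1,m2,m1,n1]) (by decide +kernel) (by decide +kernel) (.t t144 ok144)
  cl249

theorem cl251 : Clo K (Helper55.TR.GK 1 Helper55.TR.BrU) r233 :=
  .q [n0,m1,n0,n2,n0,n0,m1,m1,n1,m1] (e' := [n0,n1,n0,m2,n0,n0,n1,n1,m1,n1]) (.p false [0,0,1] [1] (⟨0,[(19,0)]⟩,
  ⟨0,[(14,0)]⟩) .k 1 (⟨0,[]⟩,⟨0,[]⟩) .k .k) (by decide +kernel) (by decide +kernel) cl234 cl250

theorem cl252 : Clo K (Helper55.TR.GK 1 Helper55.TR.BrU) r209 :=
  .q [n0,n0,m2,n0,n1,n0,m2,n0,n1,m2] (e' := [n0,n0,n2,n0,m1,n0,n2,n0,m1,n2]) (.p false [0,0,1] [1,0,-1] (⟨0,[(18,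
  0)]⟩,⟨0,[(13,0)]⟩) .k 2 (⟨0,[(13,0)]⟩,⟨0,[(18,0)]⟩) .k (.r (-1) ⟨2,[(3,1),(5,0),(9,1),(6,1)]⟩ ⟨0,
  [(35,1)]⟩)) (by decide +kernel) (by decide +kernel) cl233 cl251

theorem cl253 : Clo K (Helper55.TR.GK 1 Helper55.TR.BrU) r184 :=
  .q [n0,n0,n0,n0,n0,n2,n0,n0,n0,m1] (e' := [n0,n0,n0,n0,n0,m2,n0,n0,n0,n1]) (.p false [0,0,1] [] (⟨0,[(17,0)]⟩,⟨0,
  [(12,0)]⟩) .k 0 (⟨0,[]⟩,⟨0,[]⟩) .k .k) (by decide +kernel) (by decide +kernel) cl223 cl252

theorem cl254 : Clo K (Helper55.TR.GK 1 Helper55.TR.BrU) r183 :=
  .i [n0,n1,m1,m1,n0,n0,n0,m1] (e' := [n1,m1,n1,n1,n0,n0,n0,n1]) (by decide +kernel) (by decide +kernel) cl200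
  cl253

theorem cl255 : Clo K (Helper55.TR.GK 1 Helper55.TR.BrU) r182 :=
  .i [n1,n1,n2,n2,m1] (e' := [n0,m1,m2,m2,n1]) (by decide +kernel) (by decide +kernel) (.t t110 ok110)
  cl254

theorem cl256 : Clo K (Helper55.TR.GK 1 Helper55.TR.BrU) r181 :=
  .i [n1,n0,n1,n2,m1,n0,n0,m2] (e' := [n0,n0,m1,m2,n1,n0,n0,n2]) (by decide +kernel) (by decide +kernel) (.t
  t109 ok109) cl255

theorem cl257 : Clo K (Helper55.TR.GK 1 Helper55.TR.BrU) r105 :=
  .q [n0,n1,n0,n1,n0,n0,n1,n1,n0,n1] (e' := [n0,m1,n0,m1,n0,n0,m1,m1,n0,m1]) (.p true [0,0,1] [] (⟨0,[(13,0)]⟩,⟨0,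
  [(8,0)]⟩) .k 0 (⟨0,[]⟩,⟨0,[]⟩) .k .k) (by decide +kernel) (by decide +kernel) (.t t108 ok108)
  cl256

theorem cl258 : Clo K (Helper55.TR.GK 1 Helper55.TR.BrU) r104 :=
  .q [n0,n0,n0,n0,n0,n1,n0,n0,m1,n1] (e' := [n0,n0,n0,n0,n0,m1,n0,n0,n1,m1]) (.ed false [0,1,1] .k)
  (by decide +kernel) (by decide +kernel) cl176 cl257

theorem cl259 : Clo K (Helper55.TR.GK 1 Helper55.TR.BrU) l103 :=
  .q [n0,n0,n0,m2,n0,n0,n1,n1,n0,n1] (e' := [n0,n0,n0,n2,n0,n0,m1,m1,n0,m1]) (.p true [0,0,1] [] (⟨0,[(11,0)]⟩,⟨0,
  [(6,0)]⟩) .k 0 (⟨0,[]⟩,⟨0,[]⟩) .k .k) (by decide +kernel) (by decide +kernel) (.t t65 ok65) cl258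

theorem cl260 : Clo K (Helper55.TR.GK 1 Helper55.TR.BrU) r0 :=
  .q [n0,n0,n0,n0,n0,m2,n0,n0,n1] (e' := [n0,n0,n0,n0,n0,n2,n0,n0,m1]) (.pp false [-1,1]) (by decide +kernel)
  (by decide +kernel) cl259 (.t t153 ok153)

theorem cl261 : Clo K (Helper55.TR.GK 1 Helper55.TR.BrU) base :=
  .q [n0,n0,n2,n0,m1,n0,n1,n0,n0,n1] (e' := [n0,n0,m2,n0,n1,n0,m1,n0,n0,m1]) (.p true [0,0,1] [] (⟨0,[(9,0)]⟩,⟨0,
  [(4,0)]⟩) .k 0 (⟨0,[]⟩,⟨0,[]⟩) .k .k) (by decide +kernel) (by decide +kernel) cl101 cl260

theorem g : Helper55.TR.GK 1 Helper55.TR.BrU base :=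
  Helper55.TR.GK.of cl261

end Helper55.CD.Dm1_1_c0u

namespace Helper55.CD.Dm1_1_c0u

open Helper55.TR.Nm

noncomputable def bk : List Helper11.CT.Con :=
  [(false,[n0,n0,n0,n0,n0,n0,n1,n0,m1,n1]),
  (false,[n0,m1,n0,n0,n0,n0,m1,m1,n1,m1]),
  (true,[n0,n0,n0,m1]),
  (false,[n0,n0,m2,n0,n1,n0,n0,n0,m1]),
  (true,[n0,n0,n1,n0,n0,n0,n0,n1]),
  (true,[n1,n0,n1,n1,n0,n0,n0,n1]),
  (false,[n0,n0,n0,n0,n0,n0,n1,n0,n0,n1]),
  (true,[n0,m1,n1,n0,n0,n0,n0,m1]),
  (false,[n0,n0,n0,n0,n0,n0,m1,m1,n0,m1]),
  (false,[n0,m1,m1,n1,n1,n0,m1,n0,n0,m1]),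
  (true,[n1,m2,n1]),
  (false,[n0,n0,n0,n0,n0,m1,n0,n0,n0,n1]),
  (true,[n0,n0,n0,m1,n0,n0,n0,m1]),
  (false,[n0,n0,n0,n1,n0,n0,m1,m1,n0,m1]),
  (true,[n0,n0,n0,n0,n0,n0,n0,m1]),
  (true,[n0,n0,n1,n1,n0,n0,n0,n1])]

theorem gk : Helper55.TR.GK 1 Helper55.TR.BrU bk :=
  Helper55.TR.GK.sub g 58293400508138516377709824035076834392470911896852988234852384625547847003232043802626 (by decide +kernel)

end Helper55.CD.Dm1_1_c0u

namespace Helper55.CD

open Helper25.KG Helper25.KW Helper55.KE Helper11.CT Helper55.TR.Nm

theorem l_Dm1_1_c0u {p a b c J l q : ℤ} {D dl : ℝ} {Cl : ℤ → ℤ → ℤ → ℤ → ℝ → Prop}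
    (W : World p a b c J 1 l q D dl Cl) (hc : -a < c) (hb2 : 2 * a ≤ b) (hA : Aux p a b 1 D Cl)
    {N X R : ℤ} {I : ℝ} (hK : KGF p a b 1 D (P1 l p) Cl N X R I)
    (hM : KMin p a b 1 (P1 l p) Cl N (a + (1 : ℤ) * (X + (1 : ℤ) * I + R)))
    {Nu Xu Ru : ℤ} {Iu : ℝ} (hT : KCl p l Cl Nu Xu Ru Iu)
    (t0 : 0 < Iu)
    (t1 : 0 < D - Iu)
    (t2 : 0 < -(J : ℝ) + D - Iu)
    (t3 : 0 < (Xu : ℝ) + Iu)
    (t4 : 1 ≤ 1 + (a : ℝ) + (Ru : ℝ))
    (t5 : 1 ≤ -(a : ℝ) - (c : ℝ) - (Ru : ℝ))
    (t6 : 0 < (c : ℝ) - (Xu : ℝ) - (Ru : ℝ) - Iu)
    (hV : ∀ {N R : ℤ} {I : ℝ}, VFac p D Cl N R I → False)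
    (hW : ∀ {N R : ℤ} {I : ℝ}, WFac p D Cl N R I → False)
    (h0 : 1 ≤ -(c : ℝ))
    (h1 : 1 ≤ 1 - 2 * (a : ℝ) + (b : ℝ))
    (h2 : 0 < -(a : ℝ) - (X : ℝ) - (R : ℝ) + D - I)
    (h3 : 1 ≤ -(a : ℝ) + (b : ℝ) - (R : ℝ))
    (h4 : 0 < -2 * (b : ℝ) + (p : ℝ) - D)
    (h5 : 1 ≤ -(c : ℝ) - (R : ℝ))
    (h6 : 0 < (X : ℝ) + I)
    (h7 : 0 < -(a : ℝ) - (b : ℝ) + (c : ℝ) + (p : ℝ) - (X : ℝ) - I)
    (h8 : 1 ≤ -(R : ℝ))
    (h9 : 0 < -(J : ℝ) + I)
    (h10 : 1 ≤ (b : ℝ) + (R : ℝ))
    (h11 : 0 < (X : ℝ) - D + I)
    (h12 : 0 < -(X : ℝ) - (R : ℝ) - I)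
    (h13 : 1 ≤ 1 + (b : ℝ) + (c : ℝ) + (R : ℝ))
    (h14 : 1 ≤ (b : ℝ) + (c : ℝ) + (R : ℝ))
    (h15 : 0 < (c : ℝ) - (X : ℝ) - (R : ℝ) - I) : False := by
  refine Helper55.CD.Dm1_1_c0u.gk (Helper55.TR.DC.mB W hc hb2 hA hK hM hT t0 t1 t2 t3 t4 t5 t6) (Helper55.TR.brU hV hW) ?_
  simp only [Helper55.CD.Dm1_1_c0u.bk, List.forall_mem_cons, List.not_mem_nil, false_imp_iff, implies_true,
    and_true, hld, xv, evg_cons, evg_nil, n0c, n1c, m1c, m2c, List.map_cons, List.map_nil, List.cons_append,
    List.nil_append, if_true, if_false, Bool.false_eq_true]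
  push_cast
  exact ⟨by linarith only [h11], by linarith only [h2], by linarith only [h0], by linarith only [h4], by linarith only [h10], by linarith only [h13], by linarith only [h6], by linarith only [h3], by linarith only [h12], by linarith only [h7], by linarith only [h1], by linarith only [h9], by linarith only [h5], by linarith only [h15], by linarith only [h8], by linarith only [h14]⟩

end Helper55.CD

namespace Helper55.CD.Dm1_1_c0v

open Helper25.KG Helper25.KW Helper55.KE Helper11.CT Helper55.TR.Nm

noncomputable def K : Cls :=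
  Helper55.TR.KK 1

noncomputable def base : List Con :=
  [(true,[n0,m2,n0,n0,n1]),
  (false,[n0,n0,n0,n0,n1,n0,n0,n0,m2]),
  (false,[n0,n1,n0,n0,n0,n0,n1,n1,n0,n1]),
  (false,[n0,n0,n1,n0,n0,n0,n1,n0,n0,n1]),
  (false,[n0,n0,n0,n0,n0,n0,n0,n0,n1,m1]),
  (false,[n0,n0,n1,n0,n0,n0,m1,n0,n0,m1]),
  (false,[n0,n0,n0,n0,n0,n0,n1,n0,m1,n1]),
  (true,[n0,n0,m2,n0,n1]),
  (false,[n0,m1,n0,n0,n0,n0,m1,m1,n1,m1]),
  (false,[n0,n0,n0,n0,n0,n0,n0,n0,n0,n1]),
  (true,[n0,n1,n0,n1]),
  (true,[n0,n0,n0,m1]),
  (false,[n0,n0,m2,n0,n1,n0,n0,n0,m1]),
  (false,[n0,n1,n0,n0,n0,n0,m1,m1,n0,m1]),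
  (true,[n0,n0,n1,n0,n0,n0,n0,n1]),
  (true,[n0,n0,n0,n0,n0,n1]),
  (true,[m1,n1]),
  (true,[n1,n0,n1,n1,n0,n0,n0,n1]),
  (false,[n0,n0,n0,n0,n0,n0,n1,n0,n0,n1]),
  (true,[n0,m1,n1,n0,n0,n0,n0,m1]),
  (false,[n0,n0,n0,n0,n0,n0,m1,m1,n0,m1]),
  (false,[n0,m1,m1,n1,n1,n0,m1,n0,n0,m1]),
  (true,[n1,m2,n1]),
  (false,[n0,n0,n0,n0,n0,m1,n0,n0,n0,n1]),
  (true,[n0,n0,n0,m1,n0,n0,n0,m1]),
  (false,[n0,n0,n0,n1,n0,n0,m1,m1,n0,m1]),
  (true,[n0,n0,n0,n0,n0,n0,n0,m1]),
  (false,[n0,n0,n0,n0,n0,m1,n0,n0,n1]),
  (true,[n0,n0,n1,n1,n0,n0,n0,n1])]

noncomputable def l0 : List Con := (false, [n0,n0,n2,n0,m1,n0,n1,n0,n0,n1]) :: base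

noncomputable def r0 : List Con := (false, [n0,n0,m2,n0,n1,n0,m1,n0,n0,m1]) :: base

noncomputable def l1 : List Con := (false, [n0,n0,n0,n0,n0,n2,n0,n0,m1]) :: l0

noncomputable def r1 : List Con := (false, [n0,n0,n0,n0,n0,m2,n0,n0,n1]) :: l0

noncomputable def l2 : List Con := (false, [n0,n0,n0,n0,n0,m1,n0,n0,n1,m1]) :: r1

noncomputable def r2 : List Con := (false, [n0,n0,n0,n0,n0,n1,n0,n0,m1,n1]) :: r1

noncomputable def l3 : List Con := (false, [n0,n1,n0,n1,n0,n0,n1,n1,n0,n1]) :: l2

noncomputable def r3 : List Con := (false, [n0,m1,n0,m1,n0,n0,m1,m1,n0,m1]) :: l2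

noncomputable def l4 : List Con := (false, [n0,n0,n1,n0,n0,n0,m2,n0,n1,m2]) :: r3

noncomputable def r4 : List Con := (false, [n0,n0,m1,n0,n0,n0,n2,n0,m1,n2]) :: r3

noncomputable def l5 : List Con := (true, [n0,n1,m1,m1,n0,n0,n0,m1]) :: l4

noncomputable def r5 : List Con := (true, [n1,m1,n1,n1,n0,n0,n0,n1]) :: l4

noncomputable def l6 : List Con := (true, [n0,n0,m2,n0,n1,m2,m1]) :: r5

noncomputable def r6 : List Con := (true, [n1,n0,n2,n0,m1,n2,n1]) :: r5

noncomputable def l7 : List Con := (false, [n0,n0,n0,m2,n0,n0,n1,n1,n0,n1]) :: l6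

noncomputable def r7 : List Con := (false, [n0,n0,n0,n2,n0,n0,m1,m1,n0,m1]) :: l6

noncomputable def l8 : List Con := (true, [n0,n1,m2,m2,n1,n0,n0,n1]) :: r7

noncomputable def r8 : List Con := (true, [n1,m1,n2,n2,m1,n0,n0,m1]) :: r7

noncomputable def l9 : List Con := (true, [n1,n0,m1,m1,n1,n0,n0,n2]) :: r8

noncomputable def r9 : List Con := (true, [n0,n0,n1,n1,m1,n0,n0,m2]) :: r8

noncomputable def l10 : List Con := (true, [n1,n0,n1,n1,m1,n0,n0,m2]) :: l9

noncomputable def r10 : List Con := (true, [n0,n0,m1,m1,n1,n0,n0,n2]) :: l9

noncomputable def l11 : List Con := (true, [n0,n0,m2,m2,n1,n0,n0,n1]) :: r6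

noncomputable def r11 : List Con := (true, [n1,n0,n2,n2,m1,n0,n0,m1]) :: r6

noncomputable def l12 : List Con := (false, [n0,n0,n0,m2,n0,n0,n1,n1,n0,n1]) :: r11

noncomputable def r12 : List Con := (false, [n0,n0,n0,n2,n0,n0,m1,m1,n0,m1]) :: r11

noncomputable def l13 : List Con := (true, [n0,n0,n2,n0,m1,n2,n1]) :: l12

noncomputable def r13 : List Con := (true, [n1,n0,m2,n0,n1,m2,m1]) :: l12

noncomputable def l14 : List Con := (true, [n0,n0,n2,n2,m1,n0,n0,m1]) :: r13

noncomputable def r14 : List Con := (true, [n1,n0,m2,m2,n1,n0,n0,n1]) :: r13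

noncomputable def l15 : List Con := (true, [n0,n1,m2,n0,n1,n0,n0,n1]) :: r12

noncomputable def r15 : List Con := (true, [n1,m1,n2,n0,m1,n0,n0,m1]) :: r12

noncomputable def l16 : List Con := (false, [n0,n0,n0,n0,n0,m2,n0,n0,n1,m1]) :: r15

noncomputable def r16 : List Con := (false, [n0,n0,n0,n0,n0,n2,n0,n0,m1,n1]) :: r15

noncomputable def l17 : List Con := (true, [n1,n1,m1,m1,n0,n0,n0,m1]) :: l16

noncomputable def r17 : List Con := (true, [n0,m1,n1,n1,n0,n0,n0,n1]) :: l16

noncomputable def l18 : List Con := (true, [n0,n1,m1,m2,n0,n0,n0,m1]) :: r17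

noncomputable def r18 : List Con := (true, [n1,m1,n1,n2,n0,n0,n0,n1]) :: r17

noncomputable def l19 : List Con := (false, [n0,n0,n0,n0,n0,m2,n0,n0,n0,n1]) :: r18

noncomputable def r19 : List Con := (false, [n0,n0,n0,n0,n0,n2,n0,n0,n0,m1]) :: r18

noncomputable def l20 : List Con := (true, [n1,n1,m2,m1,n1,n0,n0,n1]) :: l19

noncomputable def r20 : List Con := (true, [n0,m1,n2,n1,m1,n0,n0,m1]) :: l19

noncomputable def l21 : List Con := (false, [n0,n0,m2,n0,n1,n0,m1,n0,n1,m1]) :: l20

noncomputable def r21 : List Con := (false, [n0,n0,n2,n0,m1,n0,n1,n0,m1,n1]) :: l20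

noncomputable def l22 : List Con := (true, [n0,n0,n1,n1,m1,n0,n0,m2]) :: r20

noncomputable def r22 : List Con := (true, [n1,n0,m1,m1,n1,n0,n0,n2]) :: r20

noncomputable def l23 : List Con := (false, [n0,m1,m2,n0,n1,n0,m2,m1,n1,m2]) :: l22

noncomputable def r23 : List Con := (false, [n0,n1,n2,n0,m1,n0,n2,n1,m1,n2]) :: l22

noncomputable def l24 : List Con := (true, [n1,n0,n1,n1,m1,n0,n0,m2]) :: r22

noncomputable def r24 : List Con := (true, [n0,n0,m1,m1,n1,n0,n0,n2]) :: r22

noncomputable def l25 : List Con := (true, [n0,n1,m2,m2,n1,n0,n0,n1]) :: r24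

noncomputable def r25 : List Con := (true, [n1,m1,n2,n2,m1,n0,n0,m1]) :: r24

noncomputable def l26 : List Con := (false, [n0,n0,m2,n0,n1,n0,m1,n0,n1,m1]) :: l25

noncomputable def r26 : List Con := (false, [n0,n0,n2,n0,m1,n0,n1,n0,m1,n1]) :: l25

noncomputable def l27 : List Con := (false, [n0,n0,n0,n0,n0,m2,n0,n0,n0,n1]) :: r16

noncomputable def r27 : List Con := (false, [n0,n0,n0,n0,n0,n2,n0,n0,n0,m1]) :: r16

noncomputable def l28 : List Con := (true, [n0,n1,m2,m2,n1,n0,n0,n1]) :: l27

noncomputable def r28 : List Con := (true, [n1,m1,n2,n2,m1,n0,n0,m1]) :: l27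

noncomputable def l29 : List Con := (false, [n0,n0,m2,n0,n1,n0,m1,n0,n1,m1]) :: l28

noncomputable def r29 : List Con := (false, [n0,n0,n2,n0,m1,n0,n1,n0,m1,n1]) :: l28

noncomputable def l30 : List Con := (true, [n1,n0,m1,m1,n1,n0,n0,n2]) :: r28

noncomputable def r30 : List Con := (true, [n0,n0,n1,n1,m1,n0,n0,m2]) :: r28

noncomputable def l31 : List Con := (true, [n1,n0,n1,n1,m1,n0,n0,m2]) :: l30

noncomputable def r31 : List Con := (true, [n0,n0,m1,m1,n1,n0,n0,n2]) :: l30

noncomputable def l32 : List Con := (false, [n0,m1,m2,n0,n1,n0,m2,m1,n1,m2]) :: r30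

noncomputable def r32 : List Con := (false, [n0,n1,n2,n0,m1,n0,n2,n1,m1,n2]) :: r30

noncomputable def l33 : List Con := (false, [n0,n0,n0,m2,n0,n0,n1,n1,n0,n1]) :: r4

noncomputable def r33 : List Con := (false, [n0,n0,n0,n2,n0,n0,m1,m1,n0,m1]) :: r4

noncomputable def l34 : List Con := (true, [n0,n0,n2,n2,m1,n0,n0,m1]) :: l33

noncomputable def r34 : List Con := (true, [n1,n0,m2,m2,n1,n0,n0,n1]) :: l33

noncomputable def l35 : List Con := (true, [n0,n0,n2,n0,m1,n2,n1]) :: r34

noncomputable def r35 : List Con := (true, [n1,n0,m2,n0,n1,m2,m1]) :: r34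

noncomputable def l36 : List Con := (true, [n0,n0,m2,n0,n1,m2,m1]) :: r35

noncomputable def r36 : List Con := (true, [n1,n0,n2,n0,m1,n2,n1]) :: r35

noncomputable def l37 : List Con := (true, [n0,n0,m2,m2,n1,n0,n0,n1]) :: r36

noncomputable def r37 : List Con := (true, [n1,n0,n2,n2,m1,n0,n0,m1]) :: r36

noncomputable def l38 : List Con := (true, [n0,n1,n1,n0,m1,n0,n0,m1]) :: r33

noncomputable def r38 : List Con := (true, [n1,m1,m1,n0,n1,n0,n0,n1]) :: r33

noncomputable def l39 : List Con := (false, [n0,n0,m1,n0,n1,n0,m2,n0,n1,m2]) :: l38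

noncomputable def r39 : List Con := (false, [n0,n0,n1,n0,m1,n0,n2,n0,m1,n2]) :: l38

noncomputable def l40 : List Con := (true, [n0,n0,n1,n1,m1,n0,n0,m2]) :: r38

noncomputable def r40 : List Con := (true, [n1,n0,m1,m1,n1,n0,n0,n2]) :: r38

noncomputable def l41 : List Con := (false, [n0,n0,m1,n0,n1,n0,m2,n0,n1,m2]) :: l40

noncomputable def r41 : List Con := (false, [n0,n0,n1,n0,m1,n0,n2,n0,m1,n2]) :: l40

noncomputable def l42 : List Con := (true, [n0,n1,m1,m1,n0,n0,n0,m1]) :: l41

noncomputable def r42 : List Con := (true, [n1,m1,n1,n1,n0,n0,n0,n1]) :: l41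

noncomputable def l43 : List Con := (false, [n0,m1,n0,n1,n0,n0,m1,m1,n1,m1]) :: l42

noncomputable def r43 : List Con := (false, [n0,n1,n0,m1,n0,n0,n1,n1,m1,n1]) :: l42

noncomputable def l44 : List Con := (false, [n0,n0,n0,n0,n0,m2,n0,n0,n0,n1]) :: r42

noncomputable def r44 : List Con := (false, [n0,n0,n0,n0,n0,n2,n0,n0,n0,m1]) :: r42

noncomputable def l45 : List Con := (false, [n0,m1,m2,n0,n1,n0,m2,m1,n1,m2]) :: l44

noncomputable def r45 : List Con := (false, [n0,n1,n2,n0,m1,n0,n2,n1,m1,n2]) :: l44

noncomputable def l46 : List Con := (false, [n0,m1,m2,n0,n1,n0,m2,m1,n1,m2]) :: r44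

noncomputable def r46 : List Con := (false, [n0,n1,n2,n0,m1,n0,n2,n1,m1,n2]) :: r44

noncomputable def l47 : List Con := (true, [n1,n0,n1,n1,m1,n0,n0,m2]) :: r40

noncomputable def r47 : List Con := (true, [n0,n0,m1,m1,n1,n0,n0,n2]) :: r40

noncomputable def l48 : List Con := (false, [n0,n0,n0,n0,n0,n2,n0,n0,n0,m1]) :: r47

noncomputable def r48 : List Con := (false, [n0,n0,n0,n0,n0,m2,n0,n0,n0,n1]) :: r47

noncomputable def l49 : List Con := (true, [n0,n1,m1,n0,n0,n0,n0,m1]) :: l48

noncomputable def r49 : List Con := (true, [n1,m1,n1,n0,n0,n0,n0,n1]) :: l48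

noncomputable def l50 : List Con := (false, [n0,n0,m2,n0,n1,n0,m1,n0,n1,m1]) :: l49

noncomputable def r50 : List Con := (false, [n0,n0,n2,n0,m1,n0,n1,n0,m1,n1]) :: l49

noncomputable def l51 : List Con := (true, [n0,n1,m2,m1,n1,n0,n0,n1]) :: r49

noncomputable def r51 : List Con := (true, [n1,m1,n2,n1,m1,n0,n0,m1]) :: r49

noncomputable def l52 : List Con := (false, [n0,n0,m2,n0,n1,n0,m1,n0,n1,m1]) :: l51

noncomputable def r52 : List Con := (false, [n0,n0,n2,n0,m1,n0,n1,n0,m1,n1]) :: l51

noncomputable def l53 : List Con := (true, [n0,n1,m1,m1,n0,n0,n0,m1]) :: l52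

noncomputable def r53 : List Con := (true, [n1,m1,n1,n1,n0,n0,n0,n1]) :: l52

noncomputable def l54 : List Con := (true, [n1,m1,n2,n1,m1,n0,n0,m1]) :: r48

noncomputable def r54 : List Con := (true, [n0,n1,m2,m1,n1,n0,n0,n1]) :: r48

noncomputable def l55 : List Con := (false, [n0,n0,m2,n0,n1,n0,m1,n0,n1,m1]) :: l54

noncomputable def r55 : List Con := (false, [n0,n0,n2,n0,m1,n0,n1,n0,m1,n1]) :: l54

noncomputable def l56 : List Con := (true, [n0,n1,m2,m2,n1,n0,n0,n1]) :: l55

noncomputable def r56 : List Con := (true, [n1,m1,n2,n2,m1,n0,n0,m1]) :: l55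

noncomputable def l57 : List Con := (false, [n0,n0,m2,n0,n1,n0,m1,n0,n1,m1]) :: r54

noncomputable def r57 : List Con := (false, [n0,n0,n2,n0,m1,n0,n1,n0,m1,n1]) :: r54

noncomputable def l58 : List Con := (false, [n0,n0,n1,n0,n0,n0,m2,n0,n2,m2]) :: r2

noncomputable def r58 : List Con := (false, [n0,n0,m1,n0,n0,n0,n2,n0,m2,n2]) :: r2

noncomputable def l59 : List Con := (true, [n1,n1,m1,m1,n0,n0,n0,m1]) :: l58

noncomputable def r59 : List Con := (true, [n0,m1,n1,n1,n0,n0,n0,n1]) :: l58

noncomputable def l60 : List Con := (true, [n0,n0,n2,n0,m1,n2,n1]) :: r59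

noncomputable def r60 : List Con := (true, [n1,n0,m2,n0,n1,m2,m1]) :: r59

noncomputable def l61 : List Con := (false, [n0,n0,n0,m2,n0,n0,n1,n1,n0,n1]) :: l60

noncomputable def r61 : List Con := (false, [n0,n0,n0,n2,n0,n0,m1,m1,n0,m1]) :: l60

noncomputable def l62 : List Con := (true, [n0,n1,m2,n0,n1,n0,n0,n1]) :: r61

noncomputable def r62 : List Con := (true, [n1,m1,n2,n0,m1,n0,n0,m1]) :: r61

noncomputable def l63 : List Con := (true, [n0,n1,m1,m2,n0,n0,n0,m1]) :: r62

noncomputable def r63 : List Con := (true, [n1,m1,n1,n2,n0,n0,n0,n1]) :: r62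

noncomputable def l64 : List Con := (true, [n0,n0,m1,m1,n0,n0,n0,m2]) :: r63

noncomputable def r64 : List Con := (true, [n1,n0,n1,n1,n0,n0,n0,n2]) :: r63

noncomputable def l65 : List Con := (false, [n0,m1,n0,n0,n0,n0,m2,m1,n2,m2]) :: l64

noncomputable def r65 : List Con := (false, [n0,n1,n0,n0,n0,n0,n2,n1,m2,n2]) :: l64

noncomputable def l66 : List Con := (true, [n1,n0,m1,m1,n0,n0,n0,m2]) :: r64

noncomputable def r66 : List Con := (true, [n0,n0,n1,n1,n0,n0,n0,n2]) :: r64

noncomputable def l67 : List Con := (false, [n0,n0,m2,n0,n1,n0,m1,n0,n1,m1]) :: r66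

noncomputable def r67 : List Con := (false, [n0,n0,n2,n0,m1,n0,n1,n0,m1,n1]) :: r66

noncomputable def l68 : List Con := (false, [n0,n0,n0,n0,n0,m2,n0,n0,n0,n1]) :: l67

noncomputable def r68 : List Con := (false, [n0,n0,n0,n0,n0,n2,n0,n0,n0,m1]) :: l67

noncomputable def l69 : List Con := (true, [n0,n1,m2,m2,n1,n0,n0,n1]) :: l68

noncomputable def r69 : List Con := (true, [n1,m1,n2,n2,m1,n0,n0,m1]) :: l68

noncomputable def l70 : List Con := (true, [n1,n0,n2,n2,m1,n0,n0,m1]) :: r60

noncomputable def r70 : List Con := (true, [n0,n0,m2,m2,n1,n0,n0,n1]) :: r60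

noncomputable def l71 : List Con := (false, [n0,m1,n0,m1,n0,n0,n0,n0,n1]) :: l70

noncomputable def r71 : List Con := (false, [n0,n1,n0,n1,n0,n0,n0,n0,m1]) :: l70

noncomputable def l72 : List Con := (true, [n0,n1,m1,m2,n0,n0,n0,m1]) :: l71

noncomputable def r72 : List Con := (true, [n1,m1,n1,n2,n0,n0,n0,n1]) :: l71

noncomputable def l73 : List Con := (true, [n0,n0,m1,m1,n0,n0,n0,m2]) :: r72

noncomputable def r73 : List Con := (true, [n1,n0,n1,n1,n0,n0,n0,n2]) :: r72

noncomputable def l74 : List Con := (false, [n0,m1,n0,n0,n0,n0,m2,m1,n2,m2]) :: l73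

noncomputable def r74 : List Con := (false, [n0,n1,n0,n0,n0,n0,n2,n1,m2,n2]) :: l73

noncomputable def l75 : List Con := (false, [n0,n0,n0,n0,n0,n0,m1,n0,n2,m1]) :: r74

noncomputable def r75 : List Con := (false, [n0,n0,n0,n0,n0,n0,n1,n0,m2,n1]) :: r74

noncomputable def l76 : List Con := (true, [n1,n0,m2,m2,n1,n0,n0,n1]) :: r75

noncomputable def r76 : List Con := (true, [n0,n0,n2,n2,m1,n0,n0,m1]) :: r75

noncomputable def l77 : List Con := (true, [n0,n0,m2,n0,n1,m2,m1]) :: l76

noncomputable def r77 : List Con := (true, [n1,n0,n2,n0,m1,n2,n1]) :: l76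

noncomputable def l78 : List Con := (false, [n0,n0,n0,m2,n0,n0,n1,n1,n0,n1]) :: r76

noncomputable def r78 : List Con := (false, [n0,n0,n0,n2,n0,n0,m1,m1,n0,m1]) :: r76

noncomputable def l79 : List Con := (true, [n0,n1,m2,m2,n1,n0,n0,n1]) :: r78

noncomputable def r79 : List Con := (true, [n1,m1,n2,n2,m1,n0,n0,m1]) :: r78

noncomputable def l80 : List Con := (true, [n0,n0,n1,n1,m1,n0,n0,m2]) :: r79

noncomputable def r80 : List Con := (true, [n1,n0,m1,m1,n1,n0,n0,n2]) :: r79

noncomputable def l81 : List Con := (true, [n1,n0,m1,m1,n0,n0,n0,m2]) :: r73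

noncomputable def r81 : List Con := (true, [n0,n0,n1,n1,n0,n0,n0,n2]) :: r73

noncomputable def l82 : List Con := (false, [n0,n0,n0,m2,n0,n0,n1,n1,n0,n1]) :: r81

noncomputable def r82 : List Con := (false, [n0,n0,n0,n2,n0,n0,m1,m1,n0,m1]) :: r81

noncomputable def l83 : List Con := (true, [n0,n0,m2,n0,n1,m2,m1]) :: l82

noncomputable def r83 : List Con := (true, [n1,n0,n2,n0,m1,n2,n1]) :: l82

noncomputable def l84 : List Con := (true, [n0,n1,m2,m2,n1,n0,n0,n1]) :: r82

noncomputable def r84 : List Con := (true, [n1,m1,n2,n2,m1,n0,n0,m1]) :: r82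

noncomputable def l85 : List Con := (false, [n0,n0,n0,n2,n0,n0,m1,m1,n0,m1]) :: r71

noncomputable def r85 : List Con := (false, [n0,n0,n0,m2,n0,n0,n1,n1,n0,n1]) :: r71

noncomputable def l86 : List Con := (true, [n0,n1,m2,m2,n1,n0,n0,n1]) :: l85

noncomputable def r86 : List Con := (true, [n1,m1,n2,n2,m1,n0,n0,m1]) :: l85

noncomputable def l87 : List Con := (true, [n0,n0,n1,n1,m1,n0,n0,m2]) :: r86

noncomputable def r87 : List Con := (true, [n1,n0,m1,m1,n1,n0,n0,n2]) :: r86

noncomputable def l88 : List Con := (true, [n1,n0,n1,n1,m1,n0,n0,m2]) :: r87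

noncomputable def r88 : List Con := (true, [n0,n0,m1,m1,n1,n0,n0,n2]) :: r87

noncomputable def l89 : List Con := (true, [n0,n1,m1,m2,n0,n0,n0,m1]) :: r88

noncomputable def r89 : List Con := (true, [n1,m1,n1,n2,n0,n0,n0,n1]) :: r88

noncomputable def l90 : List Con := (true, [n0,n0,m1,m1,n0,n0,n0,m2]) :: r89

noncomputable def r90 : List Con := (true, [n1,n0,n1,n1,n0,n0,n0,n2]) :: r89

noncomputable def l91 : List Con := (false, [n0,m1,n0,n0,n0,n0,m2,m1,n2,m2]) :: l90

noncomputable def r91 : List Con := (false, [n0,n1,n0,n0,n0,n0,n2,n1,m2,n2]) :: l90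

noncomputable def l92 : List Con := (true, [n1,n0,m1,m1,n0,n0,n0,m2]) :: r90

noncomputable def r92 : List Con := (true, [n0,n0,n1,n1,n0,n0,n0,n2]) :: r90

noncomputable def l93 : List Con := (true, [n0,n0,m2,n0,n1,m2,m1]) :: r85

noncomputable def r93 : List Con := (true, [n1,n0,n2,n0,m1,n2,n1]) :: r85

noncomputable def l94 : List Con := (true, [n0,n0,n2,n2,m1,n0,n0,m1]) :: r93

noncomputable def r94 : List Con := (true, [n1,n0,m2,m2,n1,n0,n0,n1]) :: r93

noncomputable def l95 : List Con := (true, [n0,n1,m1,m2,n0,n0,n0,m1]) :: r94

noncomputable def r95 : List Con := (true, [n1,m1,n1,n2,n0,n0,n0,n1]) :: r94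

noncomputable def l96 : List Con := (true, [n1,n0,n3,n3,m1,n0,n0,n1]) :: r95

noncomputable def r96 : List Con := (true, [n0,n0,m3,m3,n1,n0,n0,m1]) :: r95

noncomputable def l97 : List Con := (true, [n1,n0,m3,m3,n1,n0,n0,m1]) :: l96

noncomputable def r97 : List Con := (true, [n0,n0,n3,n3,m1,n0,n0,n1]) :: l96

noncomputable def l98 : List Con := (false, [n0,n0,n0,m2,n0,n0,n1,n1,n0,n1]) :: r58

noncomputable def r98 : List Con := (false, [n0,n0,n0,n2,n0,n0,m1,m1,n0,m1]) :: r58

noncomputable def l99 : List Con := (true, [n0,n0,n2,n2,m1,n0,n0,m1]) :: l98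

noncomputable def r99 : List Con := (true, [n1,n0,m2,m2,n1,n0,n0,n1]) :: l98

noncomputable def l100 : List Con := (true, [n0,n0,n2,n0,m1,n2,n1]) :: r99

noncomputable def r100 : List Con := (true, [n1,n0,m2,n0,n1,m2,m1]) :: r99

noncomputable def l101 : List Con := (true, [n0,n0,m2,n0,n1,m2,m1]) :: r100

noncomputable def r101 : List Con := (true, [n1,n0,n2,n0,m1,n2,n1]) :: r100

noncomputable def l102 : List Con := (true, [n0,n0,m2,m2,n1,n0,n0,n1]) :: r101

noncomputable def r102 : List Con := (true, [n1,n0,n2,n2,m1,n0,n0,m1]) :: r101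

noncomputable def l103 : List Con := (false, [n0,n0,n0,n0,n0,m2,n0,n0,n1]) :: r0

noncomputable def r103 : List Con := (false, [n0,n0,n0,n0,n0,n2,n0,n0,m1]) :: r0

noncomputable def l104 : List Con := (false, [n0,n0,n0,m2,n0,n0,n1,n1,n0,n1]) :: l103

noncomputable def r104 : List Con := (false, [n0,n0,n0,n2,n0,n0,m1,m1,n0,m1]) :: l103

noncomputable def l105 : List Con := (false, [n0,n0,n0,n0,n0,n1,n0,n0,m1,n1]) :: r104

noncomputable def r105 : List Con := (false, [n0,n0,n0,n0,n0,m1,n0,n0,n1,m1]) :: r104

noncomputable def l106 : List Con := (true, [n1,n1,n2,n2,m1]) :: l105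

noncomputable def r106 : List Con := (true, [n0,m1,m2,m2,n1]) :: l105

noncomputable def l107 : List Con := (true, [n0,n0,m1,m2,n0,n0,n0,m1]) :: r106

noncomputable def r107 : List Con := (true, [n1,n0,n1,n2,n0,n0,n0,n1]) :: r106

noncomputable def l108 : List Con := (false, [n0,n0,n1,n0,n0,n0,m2,n0,n2,m2]) :: l107

noncomputable def r108 : List Con := (false, [n0,n0,m1,n0,n0,n0,n2,n0,m2,n2]) :: l107

noncomputable def l109 : List Con := (false, [n0,m1,n0,m1,n0,n0,n0,n0,n1]) :: r108

noncomputable def r109 : List Con := (false, [n0,n1,n0,n1,n0,n0,n0,n0,m1]) :: r108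

noncomputable def l110 : List Con := (true, [n1,n0,m2,m2,n1,n0,n0,n1]) :: r109

noncomputable def r110 : List Con := (true, [n0,n0,n2,n2,m1,n0,n0,m1]) :: r109

noncomputable def l111 : List Con := (true, [n1,n0,n2,n2,m1,n0,n0,m1]) :: l110

noncomputable def r111 : List Con := (true, [n0,n0,m2,m2,n1,n0,n0,n1]) :: l110

noncomputable def l112 : List Con := (true, [n0,n0,m3,m3,n1]) :: r111

noncomputable def r112 : List Con := (true, [n1,n0,n3,n3,m1]) :: r111

noncomputable def l113 : List Con := (true, [n1,n0,m3,m3,n1]) :: r112

noncomputable def r113 : List Con := (true, [n0,n0,n3,n3,m1]) :: r112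

noncomputable def l114 : List Con := (true, [n0,n0,n1,n1,m1,n0,n0,m2]) :: r110

noncomputable def r114 : List Con := (true, [n1,n0,m1,m1,n1,n0,n0,n2]) :: r110

noncomputable def l115 : List Con := (true, [n1,n0,n1,n1,m1,n0,n0,m2]) :: r114

noncomputable def r115 : List Con := (true, [n0,n0,m1,m1,n1,n0,n0,n2]) :: r114

noncomputable def l116 : List Con := (true, [n1,n1,m1,m1,n0,n0,n0,m1]) :: r107

noncomputable def r116 : List Con := (true, [n0,m1,n1,n1,n0,n0,n0,n1]) :: r107

noncomputable def l117 : List Con := (false, [n0,n0,n1,n0,n0,n0,m2,n0,n2,m2]) :: l116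

noncomputable def r117 : List Con := (false, [n0,n0,m1,n0,n0,n0,n2,n0,m2,n2]) :: l116

noncomputable def l118 : List Con := (true, [n1,n0,m3,m3,n1]) :: r117

noncomputable def r118 : List Con := (true, [n0,n0,n3,n3,m1]) :: r117

noncomputable def l119 : List Con := (true, [n1,n0,n3,n3,m1]) :: l118

noncomputable def r119 : List Con := (true, [n0,n0,m3,m3,n1]) :: l118

noncomputable def l120 : List Con := (false, [n0,n0,n0,n0,n0,m2,n0,n0,n0,n1]) :: r118

noncomputable def r120 : List Con := (false, [n0,n0,n0,n0,n0,n2,n0,n0,n0,m1]) :: r118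

noncomputable def l121 : List Con := (true, [n0,n0,n1,n1,m1,n0,n0,m2]) :: l120

noncomputable def r121 : List Con := (true, [n1,n0,m1,m1,n1,n0,n0,n2]) :: l120

noncomputable def l122 : List Con := (true, [n1,n0,n1,n1,m1,n0,n0,m2]) :: r121

noncomputable def r122 : List Con := (true, [n0,n0,m1,m1,n1,n0,n0,n2]) :: r121

noncomputable def l123 : List Con := (false, [n0,m1,n0,n2,n0,n0,m1,m1,n1,m1]) :: r122

noncomputable def r123 : List Con := (false, [n0,n1,n0,m2,n0,n0,n1,n1,m1,n1]) :: r122

noncomputable def l124 : List Con := (true, [n0,n0,n2,n1,m1,n0,n0,m1]) :: l123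

noncomputable def r124 : List Con := (true, [n1,n0,m2,m1,n1,n0,n0,n1]) :: l123

noncomputable def l125 : List Con := (false, [n0,m1,n0,n1,n0,n0,m1,m1,n1,m1]) :: r123

noncomputable def r125 : List Con := (false, [n0,n1,n0,m1,n0,n0,n1,n1,m1,n1]) :: r123

noncomputable def l126 : List Con := (true, [n0,n0,n2,n1,m1,n0,n0,m1]) :: l125

noncomputable def r126 : List Con := (true, [n1,n0,m2,m1,n1,n0,n0,n1]) :: l125

noncomputable def l127 : List Con := (true, [n1,n0,m2,m2,n1,n0,n0,n1]) :: r125

noncomputable def r127 : List Con := (true, [n0,n0,n2,n2,m1,n0,n0,m1]) :: r125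

noncomputable def l128 : List Con := (true, [n1,n0,n2,n2,m1,n0,n0,m1]) :: l127

noncomputable def r128 : List Con := (true, [n0,n0,m2,m2,n1,n0,n0,n1]) :: l127

noncomputable def l129 : List Con := (true, [n0,n0,n1,n1,m1,n0,n0,m2]) :: r120

noncomputable def r129 : List Con := (true, [n1,n0,m1,m1,n1,n0,n0,n2]) :: r120

noncomputable def l130 : List Con := (true, [n0,n0,m1,m1,n0,n0,n0,m2]) :: r116

noncomputable def r130 : List Con := (true, [n1,n0,n1,n1,n0,n0,n0,n2]) :: r116

noncomputable def l131 : List Con := (false, [n0,m1,n0,n0,n0,n0,m2,m1,n2,m2]) :: l130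

noncomputable def r131 : List Con := (false, [n0,n1,n0,n0,n0,n0,n2,n1,m2,n2]) :: l130

noncomputable def l132 : List Con := (false, [n0,n0,n0,n0,n0,n0,m1,n0,n2,m1]) :: r131

noncomputable def r132 : List Con := (false, [n0,n0,n0,n0,n0,n0,n1,n0,m2,n1]) :: r131

noncomputable def l133 : List Con := (true, [n0,n1,m1,m2,n0,n0,n0,m1]) :: r132

noncomputable def r133 : List Con := (true, [n1,m1,n1,n2,n0,n0,n0,n1]) :: r132

noncomputable def l134 : List Con := (false, [n0,n0,n1,n0,n0,n0,m2,n0,n2,m2]) :: l133

noncomputable def r134 : List Con := (false, [n0,n0,m1,n0,n0,n0,n2,n0,m2,n2]) :: l133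

noncomputable def l135 : List Con := (true, [n1,n0,m2,m2,n1,n0,n0,n1]) :: r134

noncomputable def r135 : List Con := (true, [n0,n0,n2,n2,m1,n0,n0,m1]) :: r134

noncomputable def l136 : List Con := (true, [n1,n0,n2,n2,m1,n0,n0,m1]) :: l135

noncomputable def r136 : List Con := (true, [n0,n0,m2,m2,n1,n0,n0,n1]) :: l135

noncomputable def l137 : List Con := (true, [n0,n0,m2,n0,n1,m2,m1]) :: l136

noncomputable def r137 : List Con := (true, [n1,n0,n2,n0,m1,n2,n1]) :: l136

noncomputable def l138 : List Con := (true, [n0,n0,n2,n0,m1,n2,n1]) :: r137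

noncomputable def r138 : List Con := (true, [n1,n0,m2,n0,n1,m2,m1]) :: r137

noncomputable def l139 : List Con := (false, [n0,n0,n0,n0,n0,m2,n0,n0,n0,n1]) :: r133

noncomputable def r139 : List Con := (false, [n0,n0,n0,n0,n0,n2,n0,n0,n0,m1]) :: r133

noncomputable def l140 : List Con := (false, [n0,m1,n0,n2,n0,n0,m1,m1,n1,m1]) :: l139

noncomputable def r140 : List Con := (false, [n0,n1,n0,m2,n0,n0,n1,n1,m1,n1]) :: l139

noncomputable def l141 : List Con := (true, [n0,n0,n2,n1,m1,n0,n0,m1]) :: l140

noncomputable def r141 : List Con := (true, [n1,n0,m2,m1,n1,n0,n0,n1]) :: l140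

noncomputable def l142 : List Con := (false, [n0,n0,m2,n0,n1,n0,m2,n0,n1,m2]) :: r140

noncomputable def r142 : List Con := (false, [n0,n0,n2,n0,m1,n0,n2,n0,m1,n2]) :: r140

noncomputable def l143 : List Con := (true, [n0,n1,n2,n1,m1,n0,n0,m1]) :: l142

noncomputable def r143 : List Con := (true, [n1,m1,m2,m1,n1,n0,n0,n1]) :: l142

noncomputable def l144 : List Con := (true, [n0,n0,m3,m3,n1]) :: r143

noncomputable def r144 : List Con := (true, [n1,n0,n3,n3,m1]) :: r143

noncomputable def l145 : List Con := (true, [n1,n0,m3,m3,n1]) :: r144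

noncomputable def r145 : List Con := (true, [n0,n0,n3,n3,m1]) :: r144

noncomputable def l146 : List Con := (true, [n0,n1,n2,n1,m1]) :: r142

noncomputable def r146 : List Con := (true, [n1,m1,m2,m1,n1]) :: r142

noncomputable def l147 : List Con := (false, [n0,m1,n0,n1,n0,n0,m1,m1,n1,m1]) :: r146

noncomputable def r147 : List Con := (false, [n0,n1,n0,m1,n0,n0,n1,n1,m1,n1]) :: r146

noncomputable def l148 : List Con := (true, [n0,n0,n2,n1,m1,n0,n0,m1]) :: l147

noncomputable def r148 : List Con := (true, [n1,n0,m2,m1,n1,n0,n0,n1]) :: l147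

noncomputable def l149 : List Con := (true, [n1,n0,n3,n3,m1,n0,n0,n1]) :: r147

noncomputable def r149 : List Con := (true, [n0,n0,m3,m3,n1,n0,n0,m1]) :: r147

noncomputable def l150 : List Con := (true, [n1,n0,m3,m3,n1,n0,n0,m1]) :: l149

noncomputable def r150 : List Con := (true, [n0,n0,n3,n3,m1,n0,n0,n1]) :: l149

noncomputable def l151 : List Con := (true, [n1,n0,m2,m2,n1,n0,n0,n1]) :: r149

noncomputable def r151 : List Con := (true, [n0,n0,n2,n2,m1,n0,n0,m1]) :: r149

noncomputable def l152 : List Con := (true, [n1,n0,n2,n2,m1,n0,n0,m1]) :: l151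

noncomputable def r152 : List Con := (true, [n0,n0,m2,m2,n1,n0,n0,n1]) :: l151

noncomputable def l153 : List Con := (true, [n1,n0,m2,m2,n1,n0,n0,n1]) :: r139

noncomputable def r153 : List Con := (true, [n0,n0,n2,n2,m1,n0,n0,m1]) :: r139

noncomputable def l154 : List Con := (true, [n0,n0,n2,n0,m1,n2,n1]) :: l153

noncomputable def r154 : List Con := (true, [n1,n0,m2,n0,n1,m2,m1]) :: l153

noncomputable def l155 : List Con := (true, [n1,n0,n2,n2,m1,n0,n0,m1]) :: l154

noncomputable def r155 : List Con := (true, [n0,n0,m2,m2,n1,n0,n0,n1]) :: l154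

noncomputable def l156 : List Con := (true, [n1,n0,m1,m1,n0,n0,n0,m2]) :: r130

noncomputable def r156 : List Con := (true, [n0,n0,n1,n1,n0,n0,n0,n2]) :: r130

noncomputable def l157 : List Con := (false, [n0,n0,n0,n0,n0,n2,n0,n0,n0,m1]) :: r156

noncomputable def r157 : List Con := (false, [n0,n0,n0,n0,n0,m2,n0,n0,n0,n1]) :: r156

noncomputable def l158 : List Con := (true, [n0,n1,m1,m2,n0,n0,n0,m1]) :: l157

noncomputable def r158 : List Con := (true, [n1,m1,n1,n2,n0,n0,n0,n1]) :: l157

noncomputable def l159 : List Con := (true, [n0,n0,m2,m2,n1,n0,n0,n1]) :: r158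

noncomputable def r159 : List Con := (true, [n1,n0,n2,n2,m1,n0,n0,m1]) :: r158

noncomputable def l160 : List Con := (true, [n0,n1,n2,n1,m1]) :: l159

noncomputable def r160 : List Con := (true, [n1,m1,m2,m1,n1]) :: l159

noncomputable def l161 : List Con := (false, [n0,n0,m2,n0,n1,n0,m2,n0,n1,m2]) :: r160

noncomputable def r161 : List Con := (false, [n0,n0,n2,n0,m1,n0,n2,n0,m1,n2]) :: r160

noncomputable def l162 : List Con := (true, [n0,n1,n2,n1,m1,n0,n0,m1]) :: l161

noncomputable def r162 : List Con := (true, [n1,m1,m2,m1,n1,n0,n0,n1]) :: l161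

noncomputable def l163 : List Con := (true, [n0,n0,n2,n0,m1,n2,n1]) :: r159

noncomputable def r163 : List Con := (true, [n1,n0,m2,n0,n1,m2,m1]) :: r159

noncomputable def l164 : List Con := (true, [n1,n0,m2,m2,n1,n0,n0,n1]) :: l163

noncomputable def r164 : List Con := (true, [n0,n0,n2,n2,m1,n0,n0,m1]) :: l163

noncomputable def l165 : List Con := (false, [n0,n0,m2,n0,n1,n0,m2,n0,n1,m2]) :: r164

noncomputable def r165 : List Con := (false, [n0,n0,n2,n0,m1,n0,n2,n0,m1,n2]) :: r164

noncomputable def l166 : List Con := (true, [n0,n1,n2,n1,m1]) :: r165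

noncomputable def r166 : List Con := (true, [n1,m1,m2,m1,n1]) :: r165

noncomputable def l167 : List Con := (true, [n0,n1,n2,n1,m1]) :: r157

noncomputable def r167 : List Con := (true, [n1,m1,m2,m1,n1]) :: r157

noncomputable def l168 : List Con := (false, [n0,n0,m2,n0,n1,n0,m2,n0,n1,m2]) :: r167

noncomputable def r168 : List Con := (false, [n0,n0,n2,n0,m1,n0,n2,n0,m1,n2]) :: r167

noncomputable def l169 : List Con := (true, [n1,n1,n2,n2,m1,n0,n0,m1]) :: l168

noncomputable def r169 : List Con := (true, [n0,m1,m2,m2,n1,n0,n0,n1]) :: l168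

noncomputable def l170 : List Con := (false, [n0,m1,n0,n2,n0,n0,m1,m1,n1,m1]) :: r168

noncomputable def r170 : List Con := (false, [n0,n1,n0,m2,n0,n0,n1,n1,m1,n1]) :: r168

noncomputable def l171 : List Con := (true, [n0,n0,n2,n1,m1,n0,n0,m1]) :: l170

noncomputable def r171 : List Con := (true, [n1,n0,m2,m1,n1,n0,n0,n1]) :: l170

noncomputable def l172 : List Con := (true, [n1,n0,n3,n3,m1,n0,n0,n1]) :: r171

noncomputable def r172 : List Con := (true, [n0,n0,m3,m3,n1,n0,n0,m1]) :: r171

noncomputable def l173 : List Con := (true, [n1,n0,m3,m3,n1,n0,n0,m1]) :: l172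

noncomputable def r173 : List Con := (true, [n0,n0,n3,n3,m1,n0,n0,n1]) :: l172

noncomputable def l174 : List Con := (false, [n0,m1,n0,n1,n0,n0,m1,m1,n1,m1]) :: r170

noncomputable def r174 : List Con := (false, [n0,n1,n0,m1,n0,n0,n1,n1,m1,n1]) :: r170

noncomputable def l175 : List Con := (true, [n0,n0,n2,n1,m1,n0,n0,m1]) :: l174

noncomputable def r175 : List Con := (true, [n1,n0,m2,m1,n1,n0,n0,n1]) :: l174

noncomputable def l176 : List Con := (true, [n1,n0,n2,n2,m1,n0,n0,m1]) :: r174

noncomputable def r176 : List Con := (true, [n0,n0,m2,m2,n1,n0,n0,n1]) :: r174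

noncomputable def l177 : List Con := (true, [n1,n0,m2,m2,n1,n0,n0,n1]) :: l176

noncomputable def r177 : List Con := (true, [n0,n0,n2,n2,m1,n0,n0,m1]) :: l176

noncomputable def l178 : List Con := (true, [n0,n1,m1,m2,n0,n0,n0,m1]) :: r176

noncomputable def r178 : List Con := (true, [n1,m1,n1,n2,n0,n0,n0,n1]) :: r176

noncomputable def l179 : List Con := (true, [n1,n0,n3,n3,m1,n0,n0,n1]) :: r178

noncomputable def r179 : List Con := (true, [n0,n0,m3,m3,n1,n0,n0,m1]) :: r178

noncomputable def l180 : List Con := (true, [n1,n0,m3,m3,n1,n0,n0,m1]) :: l179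

noncomputable def r180 : List Con := (true, [n0,n0,n3,n3,m1,n0,n0,n1]) :: l179

noncomputable def l181 : List Con := (false, [n0,n1,n0,n1,n0,n0,n1,n1,n0,n1]) :: r105

noncomputable def r181 : List Con := (false, [n0,m1,n0,m1,n0,n0,m1,m1,n0,m1]) :: r105

noncomputable def l182 : List Con := (true, [n1,n0,n1,n2,m1,n0,n0,m2]) :: r181

noncomputable def r182 : List Con := (true, [n0,n0,m1,m2,n1,n0,n0,n2]) :: r181

noncomputable def l183 : List Con := (true, [n1,n1,n2,n2,m1]) :: r182

noncomputable def r183 : List Con := (true, [n0,m1,m2,m2,n1]) :: r182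

noncomputable def l184 : List Con := (true, [n0,n1,m1,m1,n0,n0,n0,m1]) :: r183

noncomputable def r184 : List Con := (true, [n1,m1,n1,n1,n0,n0,n0,n1]) :: r183

noncomputable def l185 : List Con := (false, [n0,n0,n1,n0,n0,n0,m2,n0,n1,m2]) :: l184

noncomputable def r185 : List Con := (false, [n0,n0,m1,n0,n0,n0,n2,n0,m1,n2]) :: l184

noncomputable def l186 : List Con := (true, [n1,n0,n2,n2,m1,n0,n0,m1]) :: r185

noncomputable def r186 : List Con := (true, [n0,n0,m2,m2,n1,n0,n0,n1]) :: r185

noncomputable def l187 : List Con := (true, [n0,n0,n1,n0,m1,n0,n0,m2]) :: l186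

noncomputable def r187 : List Con := (true, [n1,n0,m1,n0,n1,n0,n0,n2]) :: l186

noncomputable def l188 : List Con := (false, [n0,m1,n0,n1,n0,n0,m1,m1,n1,m1]) :: l187

noncomputable def r188 : List Con := (false, [n0,n1,n0,m1,n0,n0,n1,n1,m1,n1]) :: l187

noncomputable def l189 : List Con := (false, [n0,n0,n0,n0,n0,m2,n0,n0,n0,n1]) :: r188

noncomputable def r189 : List Con := (false, [n0,n0,n0,n0,n0,n2,n0,n0,n0,m1]) :: r188

noncomputable def l190 : List Con := (true, [n0,n0,n1,n1,m1,n0,n0,m2]) :: l189

noncomputable def r190 : List Con := (true, [n1,n0,m1,m1,n1,n0,n0,n2]) :: l189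

noncomputable def l191 : List Con := (true, [n1,n0,m2,m2,n1,n0,n0,n1]) :: r190

noncomputable def r191 : List Con := (true, [n0,n0,n2,n2,m1,n0,n0,m1]) :: r190

noncomputable def l192 : List Con := (true, [n1,n0,n1,n1,m1,n0,n0,m2]) :: r191

noncomputable def r192 : List Con := (true, [n0,n0,m1,m1,n1,n0,n0,n2]) :: r191

noncomputable def l193 : List Con := (true, [n1,n0,m1,m1,n1,n0,n0,n2]) :: r189

noncomputable def r193 : List Con := (true, [n0,n0,n1,n1,m1,n0,n0,m2]) :: r189

noncomputable def l194 : List Con := (true, [n1,n0,n1,n1,m1,n0,n0,m2]) :: l193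

noncomputable def r194 : List Con := (true, [n0,n0,m1,m1,n1,n0,n0,n2]) :: l193

noncomputable def l195 : List Con := (true, [n0,n0,n2,n0,m1,n2,n1]) :: r194

noncomputable def r195 : List Con := (true, [n1,n0,m2,n0,n1,m2,m1]) :: r194

noncomputable def l196 : List Con := (true, [n1,n0,m2,m2,n1,n0,n0,n1]) :: l195

noncomputable def r196 : List Con := (true, [n0,n0,n2,n2,m1,n0,n0,m1]) :: l195

noncomputable def l197 : List Con := (true, [n0,n0,m2,n0,n1,m2,m1]) :: r187

noncomputable def r197 : List Con := (true, [n1,n0,n2,n0,m1,n2,n1]) :: r187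

noncomputable def l198 : List Con := (true, [n1,n0,m2,m2,n1,n0,n0,n1]) :: l197

noncomputable def r198 : List Con := (true, [n0,n0,n2,n2,m1,n0,n0,m1]) :: l197

noncomputable def l199 : List Con := (false, [n0,m1,n0,n2,n0,n0,m1,m1,n1,m1]) :: r198

noncomputable def r199 : List Con := (false, [n0,n1,n0,m2,n0,n0,n1,n1,m1,n1]) :: r198

noncomputable def l200 : List Con := (false, [n0,n0,n0,n0,n0,m2,n0,n0,n0,n1]) :: l199

noncomputable def r200 : List Con := (false, [n0,n0,n0,n0,n0,n2,n0,n0,n0,m1]) :: l199

noncomputable def l201 : List Con := (false, [n0,m1,n0,n1,n0,n0,m1,m1,n1,m1]) :: r199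

noncomputable def r201 : List Con := (false, [n0,n1,n0,m1,n0,n0,n1,n1,m1,n1]) :: r199

noncomputable def l202 : List Con := (false, [n0,n0,n0,n0,n0,m2,n0,n0,n0,n1]) :: l201

noncomputable def r202 : List Con := (false, [n0,n0,n0,n0,n0,n2,n0,n0,n0,m1]) :: l201

noncomputable def l203 : List Con := (true, [n1,n0,m2,m2,n1,n0,n0,n1]) :: r197

noncomputable def r203 : List Con := (true, [n0,n0,n2,n2,m1,n0,n0,m1]) :: r197

noncomputable def l204 : List Con := (true, [n0,n0,n2,n0,m1,n2,n1]) :: l203

noncomputable def r204 : List Con := (true, [n1,n0,m2,n0,n1,m2,m1]) :: l203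

noncomputable def l205 : List Con := (true, [n1,n0,n3,n3,m1]) :: r186

noncomputable def r205 : List Con := (true, [n0,n0,m3,m3,n1]) :: r186

noncomputable def l206 : List Con := (true, [n1,n0,m3,m3,n1]) :: l205

noncomputable def r206 : List Con := (true, [n0,n0,n3,n3,m1]) :: l205

noncomputable def l207 : List Con := (true, [n1,n0,n4,n4,m1,n0,n0,n1]) :: r205

noncomputable def r207 : List Con := (true, [n0,n0,m4,m4,n1,n0,n0,m1]) :: r205

noncomputable def l208 : List Con := (true, [n1,n0,m4,m4,n1,n0,n0,m1]) :: l207

noncomputable def r208 : List Con := (true, [n0,n0,n4,n4,m1,n0,n0,n1]) :: l207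

noncomputable def l209 : List Con := (false, [n0,n0,n0,n0,n0,n2,n0,n0,n0,m1]) :: r184

noncomputable def r209 : List Con := (false, [n0,n0,n0,n0,n0,m2,n0,n0,n0,n1]) :: r184

noncomputable def l210 : List Con := (false, [n0,n0,n0,n0,n0,m2,n0,n0,n1,m1]) :: l209

noncomputable def r210 : List Con := (false, [n0,n0,n0,n0,n0,n2,n0,n0,m1,n1]) :: l209

noncomputable def l211 : List Con := (true, [n0,n1,m1,m2,n0,n0,n0,m1]) :: l210

noncomputable def r211 : List Con := (true, [n1,m1,n1,n2,n0,n0,n0,n1]) :: l210

noncomputable def l212 : List Con := (false, [n0,n0,n1,n0,n0,n0,m2,n0,n1,m2]) :: l211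

noncomputable def r212 : List Con := (false, [n0,n0,m1,n0,n0,n0,n2,n0,m1,n2]) :: l211

noncomputable def l213 : List Con := (true, [n0,n0,n2,n2,m1,n0,n0,m1]) :: r211

noncomputable def r213 : List Con := (true, [n1,n0,m2,m2,n1,n0,n0,n1]) :: r211

noncomputable def l214 : List Con := (false, [n0,n0,m2,n0,n1,n0,m2,n0,n1,m2]) :: l213

noncomputable def r214 : List Con := (false, [n0,n0,n2,n0,m1,n0,n2,n0,m1,n2]) :: l213

noncomputable def l215 : List Con := (true, [n0,n0,n2,n0,m1,n2,n1]) :: r213

noncomputable def r215 : List Con := (true, [n1,n0,m2,n0,n1,m2,m1]) :: r213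

noncomputable def l216 : List Con := (true, [n1,n0,n2,n2,m1,n0,n0,m1]) :: l215

noncomputable def r216 : List Con := (true, [n0,n0,m2,m2,n1,n0,n0,n1]) :: l215

noncomputable def l217 : List Con := (true, [n0,n1,n2,n1,m1,n0,n0,m1]) :: r216

noncomputable def r217 : List Con := (true, [n1,m1,m2,m1,n1,n0,n0,n1]) :: r216

noncomputable def l218 : List Con := (false, [n0,n0,m2,n0,n1,n0,m2,n0,n1,m2]) :: l217

noncomputable def r218 : List Con := (false, [n0,n0,n2,n0,m1,n0,n2,n0,m1,n2]) :: l217

noncomputable def l219 : List Con := (true, [n1,n0,n3,n3,m1]) :: r217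

noncomputable def r219 : List Con := (true, [n0,n0,m3,m3,n1]) :: r217

noncomputable def l220 : List Con := (true, [n1,n0,m3,m3,n1]) :: l219

noncomputable def r220 : List Con := (true, [n0,n0,n3,n3,m1]) :: l219

noncomputable def l221 : List Con := (true, [n0,n0,m2,m2,n1,n0,n0,n1]) :: r215

noncomputable def r221 : List Con := (true, [n1,n0,n2,n2,m1,n0,n0,m1]) :: r215

noncomputable def l222 : List Con := (true, [n0,n1,n2,n1,m1,n0,n0,m1]) :: l221

noncomputable def r222 : List Con := (true, [n1,m1,m2,m1,n1,n0,n0,n1]) :: l221

noncomputable def l223 : List Con := (false, [n0,n0,m2,n0,n1,n0,m2,n0,n1,m2]) :: l222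

noncomputable def r223 : List Con := (false, [n0,n0,n2,n0,m1,n0,n2,n0,m1,n2]) :: l222

noncomputable def l224 : List Con := (true, [n0,n0,m2,n0,n1,m2,m1]) :: r221

noncomputable def r224 : List Con := (true, [n1,n0,n2,n0,m1,n2,n1]) :: r221

noncomputable def l225 : List Con := (true, [n0,n0,m2,m2,n1,n0,n0,n1]) :: r210

noncomputable def r225 : List Con := (true, [n1,n0,n2,n2,m1,n0,n0,m1]) :: r210

noncomputable def l226 : List Con := (true, [n0,n1,n2,n1,m1]) :: l225

noncomputable def r226 : List Con := (true, [n1,m1,m2,m1,n1]) :: l225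

noncomputable def l227 : List Con := (true, [n0,n1,n2,n1,m1,n0,n0,m1]) :: r226

noncomputable def r227 : List Con := (true, [n1,m1,m2,m1,n1,n0,n0,n1]) :: r226

noncomputable def l228 : List Con := (false, [n0,n0,m2,n0,n1,n0,m2,n0,n1,m2]) :: l227

noncomputable def r228 : List Con := (false, [n0,n0,n2,n0,m1,n0,n2,n0,m1,n2]) :: l227

noncomputable def l229 : List Con := (true, [n1,n0,m2,m2,n1,n0,n0,n1]) :: r225

noncomputable def r229 : List Con := (true, [n0,n0,n2,n2,m1,n0,n0,m1]) :: r225

noncomputable def l230 : List Con := (true, [n0,n0,n2,n0,m1,n2,n1]) :: l229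

noncomputable def r230 : List Con := (true, [n1,n0,m2,n0,n1,m2,m1]) :: l229

noncomputable def l231 : List Con := (false, [n0,n0,m2,n0,n1,n0,m2,n0,n1,m2]) :: r229

noncomputable def r231 : List Con := (false, [n0,n0,n2,n0,m1,n0,n2,n0,m1,n2]) :: r229

noncomputable def l232 : List Con := (true, [n0,n1,n2,n1,m1]) :: r231

noncomputable def r232 : List Con := (true, [n1,m1,m2,m1,n1]) :: r231

noncomputable def l233 : List Con := (false, [n0,n0,m2,n0,n1,n0,m2,n0,n1,m2]) :: r209

noncomputable def r233 : List Con := (false, [n0,n0,n2,n0,m1,n0,n2,n0,m1,n2]) :: r209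

noncomputable def l234 : List Con := (true, [n1,n1,n2,n2,m1,n0,n0,m1]) :: l233

noncomputable def r234 : List Con := (true, [n0,m1,m2,m2,n1,n0,n0,n1]) :: l233

noncomputable def l235 : List Con := (true, [n1,n0,n3,n3,m1]) :: r234

noncomputable def r235 : List Con := (true, [n0,n0,m3,m3,n1]) :: r234

noncomputable def l236 : List Con := (true, [n1,n0,m3,m3,n1]) :: l235

noncomputable def r236 : List Con := (true, [n0,n0,n3,n3,m1]) :: l235

noncomputable def l237 : List Con := (true, [n0,n1,n2,n1,m1,n0,n0,m1]) :: r236

noncomputable def r237 : List Con := (true, [n1,m1,m2,m1,n1,n0,n0,n1]) :: r236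

noncomputable def l238 : List Con := (false, [n0,n0,n0,n0,n0,m2,n0,n0,n1,m1]) :: r235

noncomputable def r238 : List Con := (false, [n0,n0,n0,n0,n0,n2,n0,n0,m1,n1]) :: r235

noncomputable def l239 : List Con := (true, [n0,n1,m1,m2,n0,n0,n0,m1]) :: l238

noncomputable def r239 : List Con := (true, [n1,m1,n1,n2,n0,n0,n0,n1]) :: l238

noncomputable def l240 : List Con := (true, [n0,n0,m3,n0,n1,m3,m2]) :: l239

noncomputable def r240 : List Con := (true, [n1,n0,n3,n0,m1,n3,n2]) :: l239

noncomputable def l241 : List Con := (true, [n0,n0,m1,m1,n0,n0,n0,m2]) :: l240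

noncomputable def r241 : List Con := (true, [n1,n0,n1,n1,n0,n0,n0,n2]) :: l240

noncomputable def l242 : List Con := (false, [n0,n0,n1,n0,n0,n0,m2,n0,n1,m2]) :: l241

noncomputable def r242 : List Con := (false, [n0,n0,m1,n0,n0,n0,n2,n0,m1,n2]) :: l241

noncomputable def l243 : List Con := (false, [n0,n0,n1,n0,n0,n0,m2,n0,n1,m2]) :: r240

noncomputable def r243 : List Con := (false, [n0,n0,m1,n0,n0,n0,n2,n0,m1,n2]) :: r240

noncomputable def l244 : List Con := (false, [n0,m1,n0,n2,n0,n0,m1,m1,n1,m1]) :: r233

noncomputable def r244 : List Con := (false, [n0,n1,n0,m2,n0,n0,n1,n1,m1,n1]) :: r233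

noncomputable def l245 : List Con := (true, [n0,n0,n2,n1,m1,n0,n0,m1]) :: l244

noncomputable def r245 : List Con := (true, [n1,n0,m2,m1,n1,n0,n0,n1]) :: l244

noncomputable def l246 : List Con := (true, [n0,n1,n2,n1,m1]) :: r244

noncomputable def r246 : List Con := (true, [n1,m1,m2,m1,n1]) :: r244

noncomputable def l247 : List Con := (false, [n0,m1,n0,n1,n0,n0,m1,m1,n1,m1]) :: r246

noncomputable def r247 : List Con := (false, [n0,n1,n0,m1,n0,n0,n1,n1,m1,n1]) :: r246

noncomputable def l248 : List Con := (true, [n0,n0,n2,n1,m1,n0,n0,m1]) :: l247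

noncomputable def r248 : List Con := (true, [n1,n0,m2,m1,n1,n0,n0,n1]) :: l247

noncomputable def l249 : List Con := (false, [n0,n0,n0,n0,n0,m2,n0,n0,n1,m1]) :: r247

noncomputable def r249 : List Con := (false, [n0,n0,n0,n0,n0,n2,n0,n0,m1,n1]) :: r247

noncomputable def l250 : List Con := (true, [n0,n1,m1,m2,n0,n0,n0,m1]) :: l249

noncomputable def r250 : List Con := (true, [n1,m1,n1,n2,n0,n0,n0,n1]) :: l249

noncomputable def l251 : List Con := (true, [n1,n0,m2,m2,n1,n0,n0,n1]) :: l250

noncomputable def r251 : List Con := (true, [n0,n0,n2,n2,m1,n0,n0,m1]) :: l250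

noncomputable def l252 : List Con := (true, [n1,n0,n2,n2,m1,n0,n0,m1]) :: l251

noncomputable def r252 : List Con := (true, [n0,n0,m2,m2,n1,n0,n0,n1]) :: l251

noncomputable def l253 : List Con := (true, [n0,n0,m1,m1,n0,n0,n0,m2]) :: r252

noncomputable def r253 : List Con := (true, [n1,n0,n1,n1,n0,n0,n0,n2]) :: r252

noncomputable def l254 : List Con := (false, [n0,n0,n1,n0,n0,n0,m2,n0,n1,m2]) :: l253

noncomputable def r254 : List Con := (false, [n0,n0,m1,n0,n0,n0,n2,n0,m1,n2]) :: l253

noncomputable def l255 : List Con := (false, [n0,n0,n1,n0,n0,n0,m2,n0,n1,m2]) :: r251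

noncomputable def r255 : List Con := (false, [n0,n0,m1,n0,n0,n0,n2,n0,m1,n2]) :: r251

noncomputable def l256 : List Con := (true, [n1,n0,n2,n2,m1,n0,n0,m1]) :: r250

noncomputable def r256 : List Con := (true, [n0,n0,m2,m2,n1,n0,n0,n1]) :: r250

noncomputable def l257 : List Con := (true, [n1,n0,m2,m2,n1,n0,n0,n1]) :: l256

noncomputable def r257 : List Con := (true, [n0,n0,n2,n2,m1,n0,n0,m1]) :: l256

noncomputable def l258 : List Con := (true, [n1,n0,m3,m3,n1,n0,n0,m1]) :: r257

noncomputable def r258 : List Con := (true, [n0,n0,n3,n3,m1,n0,n0,n1]) :: r257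

noncomputable def l259 : List Con := (true, [n1,n0,n3,n3,m1,n0,n0,n1]) :: l258

noncomputable def r259 : List Con := (true, [n0,n0,m3,m3,n1,n0,n0,m1]) :: l258

noncomputable def l260 : List Con := (true, [n1,n0,n2,n2,m1,n0,n0,m1]) :: r249

noncomputable def r260 : List Con := (true, [n0,n0,m2,m2,n1,n0,n0,n1]) :: r249

noncomputable def l261 : List Con := (true, [n1,n0,m2,m2,n1,n0,n0,n1]) :: l260

noncomputable def r261 : List Con := (true, [n0,n0,n2,n2,m1,n0,n0,m1]) :: l260

open Helper55.PC in
noncomputable def t0n : Helper55.PC.Ten :=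
  (r
  5504819856743021346171809878019941137633427248008701930634441288888976543978070224830973135129802079544519740230577309037273374031184775994546546970836465426209568936608548192456134792620489156442497545626885351520859479611183878027877368328702427532910250319981149400866880367670630948455057882670603981773272698129378409649981476519811633269270407199591666111725024806742298876232509593144214226261302305408)

noncomputable def t0 : Tre := Helper55.PC.toT t0n

theorem ok0 : chk K t0 l1 = true :=
  Helper55.PC.chkN_sound K t0n l1 (by decide +kernel)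

noncomputable def t1 : Tre :=
  (.K ⟨0,[0,1,1],0,0,(⟨0,[(13,0),(5,0)]⟩,⟨0,[(1,0)]⟩),.k,.k,(.r 0 ⟨1,[(14,0),(6,2),(1,0)]⟩ ⟨0,[(11,
  0),(3,0),(12,0)]⟩),.k,.k,[⟨0,[(15,0)]⟩,⟨0,[(22,0)]⟩,⟨1,[(7,0),(1,2)]⟩,⟨0,[(15,0),(1,0)]⟩,⟨0,[(0,
  0)]⟩]⟩)

theorem ok1 : chk K t1 l3 = true := by decide +kernel

open Helper55.PC in
noncomputable def t2n : Helper55.PC.Ten :=
  (r
  780250529659083604931934295172770947034504306446532610711521394421893256505625550124182143702371102348743551670381652953785021080124211576887769980901779007687067407916366791783298790451498277979275516407126573694889010119295600180011019256512123341408832157559022152873362832325958507541875114117620313222556256941551762387813774698159319452717693544669148529956961063265653324753560057139096354678120368597152914513687433445841707247920681798378951020062258503196999052414601651250586529287612951151746121129688434473766392872412316855397667989228601572538983137)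

noncomputable def t2 : Tre := Helper55.PC.toT t2n

theorem ok2 : chk K t2 l5 = true :=
  Helper55.PC.chkN_sound K t2n l5 (by decide +kernel)

open Helper55.PC in
noncomputable def t3n : Helper55.PC.Ten :=
  (r
  1811433603238446533440622669358427010787407746774344847965733419634268239195234056991357499629601033721717360948520372078241989362517035663605401252686980379543856223514401801191749162539117425725624996973279765003330271157571057111430399240054130856506263855632553546827063662073873626247172363485987253357080861773274532687087462490800315466199539067392743364888550791464782150826790468584774392952186223673218334845059643607206867979760880550157894194460770892414163867616925079754675133574978757386868822078588962262648785827253637523787468420599415533090303322787406465)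

noncomputable def t3 : Tre := Helper55.PC.toT t3n

theorem ok3 : chk K t3 l7 = true :=
  Helper55.PC.chkN_sound K t3n l7 (by decide +kernel)

open Helper55.PC in
noncomputable def t4n : Helper55.PC.Ten :=
  (s
  57847645368880032109719927063477401836417576970291154213842106114148102981318489734220899052294633331211808000356038336001838743704840340481731023179589189585105251997228309076607293648910903963998881320443621961240237282868599799316434900011556841914559464258463626039773747178974108415365085345768222132969455466317713225782748511855664518806758975578983921914736564299634656365405019224182942794460140323868663204713586639781394653444709414544046461253250449921)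

noncomputable def t4 : Tre := Helper55.PC.toT t4n

theorem ok4 : chk K t4 l8 = true :=
  Helper55.PC.chkN_sound K t4n l8 (by decide +kernel)

noncomputable def t5 : Tre :=
  (.N [0,-1,2] (-1) ⟨0,[(1,0)]⟩ ⟨0,[(0,0)]⟩ (.x 0 ⟨2,[(10,0),(1,0),(1,0),(0,5),(1,3),(8,2)]⟩ ⟨1,[(4,
  0),(1,0),(9,0),(3,2),(2,0)]⟩))

theorem ok5 : chk K t5 l10 = true := by decide +kernel

open Helper55.PC in
noncomputable def t6n : Helper55.PC.Ten :=
  (q
  961963335785550362759641905817955184332518638306389362589972009316588574046921030646805003297288266188654401945610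
  (r
  75897864906234714114718454656734085696626641970772607071679798490162236228230869884064180638824821017159193788320327456276118626641023171136503254223314168829599397131409022519907106291840313634370571299812823389422316108573539284680814964871814534074634910128927957251800327841669490355961237772296484386804452330893896364842815476892857804905017604336990932543551962783876696831163720113516093917693466643303980361323580823582403951502903572594778071476211144739230814010381473541518110365869276417659497754598558163958502236102782144019910570959278491172008516640691296573826667485657730144398991052985494770547282714387843120766578301644964854926121931848771015292721560814338003333987255899433327402156450889296591446209)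
  (r
  189568470211694977703172879400741336973294568349749673936995580078332990244367155811452058258851640876619163749532686003010935098446847719015527115386894197288657377503545825391994954944766992036576798433451586283753109377230820160561177747849285050340754382160797621702597300507479695810089440085720041770232484892630622377830592817957469293204974877493147991682610216833781906316816792130804567225272767358375062970794735199470089853786550413112861082738778423049179468383862378432214091677573871973662929172179647438632899667189876405528562331623747437891209509796057313017333840721352278818583332397584176761940275069662176956707287944648877720348286834593299873850483890881438690750623492346022558396934752298766569349697023790337579410964536352961))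

noncomputable def t6 : Tre := Helper55.PC.toT t6n

theorem ok6 : chk K t6 r9 = true :=
  Helper55.PC.chkN_sound K t6n r9 (by decide +kernel)

open Helper55.PC in
noncomputable def t7n : Helper55.PC.Ten :=
  (r
  526667910685952464558119553674660979258368393524416886309306882923153811442068589439400799419863067031708392475402239246549676242550663336131694073828898563547474301390692607737890954851970834274918674993015832342402161407580748301154418699062722152692122875138891974397985670202444907210032182802613280969)

noncomputable def t7 : Tre := Helper55.PC.toT t7n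

theorem ok7 : chk K t7 l11 = true :=
  Helper55.PC.chkN_sound K t7n l11 (by decide +kernel)

open Helper55.PC in
noncomputable def t8n : Helper55.PC.Ten :=
  (r
  157868189592103352171279355100180382474994675094709017085578824502070032749044552004212295262226193384086076428227794387637511283253621503948073250549417889656125500405218704449396828623432527087363506359560754287942765778269763924372898686904217439660380894782097634432335079141903104010892789032404130122754265546063847273003396268415783087298106362188656773128809504886938651956247575246403147400982548164618410586573127500149660367545344439756443842469023170082301527834063142534056359694503194428516991529076504800974369534573913630160523252953780034349134407165645555878230794090731611966639170177)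

noncomputable def t8 : Tre := Helper55.PC.toT t8n

theorem ok8 : chk K t8 l13 = true :=
  Helper55.PC.chkN_sound K t8n l13 (by decide +kernel)

open Helper55.PC in
noncomputable def t9n : Helper55.PC.Ten :=
  (r
  165044006437567493934979889502213536107044774915281118340393776966267607516924208277148185139515379224708966385227430989599755016038548859980066540000164115731034928526165570940529218524052213922721874877917701182884529371519220486999354423625583620408840071839977561882282914121634665266895187583871490911023527330451828932852861943633417847775757485311817828693417517917550841020889352111900712568323149508176635620198364956508503467063438395085460304126055699577868287732278858998183138129765851537102280724307914810474184819840716677953477201438161013769677761159489329396826978819372645501200228993)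

noncomputable def t9 : Tre := Helper55.PC.toT t9n

theorem ok9 : chk K t9 l14 = true :=
  Helper55.PC.chkN_sound K t9n l14 (by decide +kernel)

noncomputable def t10 : Tre :=
  (.K ⟨1,[0,-1,1],(-1),0,(⟨0,[(33,0)]⟩,⟨0,[(14,0),(10,0)]⟩),.k,(.r (-2) ⟨10,[(0,13),(4,1),(4,6),(0,
  0),(1,3),(7,18),(12,2)]⟩ ⟨0,[(1,0),(7,0)]⟩),.k,.k,.k,[⟨0,[(0,0)]⟩,⟨0,[(9,0)]⟩,⟨12,[(0,4),(4,5),(4,
  4),(0,2),(1,3),(9,4)]⟩,⟨2,[(1,0),(18,0),(2,1)]⟩,⟨0,[(12,0),(8,0)]⟩]⟩)

theorem ok10 : chk K t10 l15 = true := by decide +kernel

open Helper55.PC in
noncomputable def t11n : Helper55.PC.Ten :=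
  (r
  40182938004376037304099824994132705008861758326490907744408240552834798568609246170643717644476646664746534762178423228594588476425297880190038987128529664170042281239109711961465566206234444711587816224184570699856746371262178325496981978930128009533354166650202475112185219128525191932304648390942490583818282216450236615897603040675026267051139206295891201022253501820183615630890948748085025418944817391761391425325076688962026103410342408256374093287806548443916331438548069630064926849681081743768885612635871959639034028201435911865241716944456594149759978417700063194900305744326952385201035409256148786480582876580272990370581443967621776648672770212422728665319526050823753023422894012989432545)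

noncomputable def t11 : Tre := Helper55.PC.toT t11n

theorem ok11 : chk K t11 l17 = true :=
  Helper55.PC.chkN_sound K t11n l17 (by decide +kernel)

open Helper55.PC in
noncomputable def t12n : Helper55.PC.Ten :=
  (i 324399716250948976594437980422152 (r
  120921868546338368902309585321345360335641267002998864982338820139012143958856106335882719291246335398723800280031781101989835081847459221977651972916923220686535431848040347444201881357566326036350184016903192313495562547697350025293661668811133831958631121229277417734626662031456222882858654397241303989750342583947690052940453890042211118167299167164768942931360323189755597893759666136950556283297492967334332585513576193502280001589221115680789531234436076581182424459066041835835476253211589056272816643114049331740925397969068695184391943906198259384647118019601118635529250742534214287420925021131073231755212586353017716549813919412660096251507359958513214177)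
  (r
  2230614761989052739637960819575053238554590312462036349236951201571519623937221046800933287071014520558956566515954475121122201614592236591023799826310355615864209573333389560990226648110370733262929800032543442434844457760136426391439985262973830482754853425988036836885095162962450626224445462046130745659942297621142652080626400165305162331165079673241313544533111600305498824722359516858288823248093572310969387755079408430457661431586460820858645580473888702881188333527774335684937545653375517183312970514374032377327030325757989872528662961441397666748029937015513474035667298276200934054436027689711628920350036331666792820881732640967959266369036153028636995835005747867296719585))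

noncomputable def t12 : Tre := Helper55.PC.toT t12n

theorem ok12 : chk K t12 l18 = true :=
  Helper55.PC.chkN_sound K t12n l18 (by decide +kernel)

open Helper55.PC in
noncomputable def t13n : Helper55.PC.Ten :=
  (s
  331272081387293997078841303126578011239708346189453455980147713760564878200135951064805595047578767955498378544508178443018830759908930248783895020909705106678827588105389831467704538928489173050383345146324529790359232185593449994044661199364287747804087830541759566945671329066623934965137001271233313416502161893200066158879783494101724678197760721770449312865084192346406264670627171338361939613759866686759535161071193966050030464166473504717467057293238322684876554753)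

noncomputable def t13 : Tre := Helper55.PC.toT t13n

theorem ok13 : chk K t13 l21 = true :=
  Helper55.PC.chkN_sound K t13n l21 (by decide +kernel)

open Helper55.PC in
noncomputable def t14n : Helper55.PC.Ten :=
  (r
  4974042474494999880911132838727415544424318190222907210476831947737333223048499283007178295336710440423644167740886942115905881253958595809182636401289720190401544093900848089034621419377859518788738174097148707033032904910625420083462332352701542693766703939222148469390397823130897464465582538693061619286381522778250250647847962988795801455447896389417250881360094027789271162629065739350294016365849643745431599596627096896266939390845014485814590803045428640139433850779905972549129263864259120562404203848947628863358792080473797634406754509625655260485027467713706620616669234344028012142888829861007489161201522555949718528064594000555618809408675801544533285231436906451463476193357488602718750570663445665526860697297089)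

noncomputable def t14 : Tre := Helper55.PC.toT t14n

theorem ok14 : chk K t14 l23 = true :=
  Helper55.PC.chkN_sound K t14n l23 (by decide +kernel)

noncomputable def t15 : Tre :=
  (.N [0,-1,2] (-1) ⟨0,[(1,0)]⟩ ⟨0,[(0,0)]⟩ (.x 0 ⟨1,[(10,0),(7,0),(2,2),(1,0),(11,1)]⟩ ⟨1,[(3,0),
  (8,1),(13,2),(2,1)]⟩))

theorem ok15 : chk K t15 l24 = true := by decide +kernel

open Helper55.PC in
noncomputable def t16n : Helper55.PC.Ten :=
  (s
  376779642466968113170288083261633132161725379629010191364712049629898597493492583832073765872327510036842541017045261712971653172993547599769615250750456240422343061364006592660358087293807858195884817197625721181842688575537613571526370127199026889234791219264549927544055652310650835232844525001346178312890283151189922485771453863272247852229720925922016256205935714325686503323542510314583204081683693695749824745838793410976632492604246327296513)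

noncomputable def t16 : Tre := Helper55.PC.toT t16n

theorem ok16 : chk K t16 l26 = true :=
  Helper55.PC.chkN_sound K t16n l26 (by decide +kernel)

open Helper55.PC in
noncomputable def t17n : Helper55.PC.Ten :=
  (s
  47850572457796395746548463156783815828206511352986568874357197149158460024157167375436265892841277630696776369705459725781008463616060384735014876569079746320128892237226643917605495974737736074196695765178131644924988550254197579274652075847916301398952517684786059065851180441515911998087495027189026255698665842744127073958966510850824620968053631005644348197980189762629023146467537104949530817410048982933192167369657394685023179768321)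

noncomputable def t17 : Tre := Helper55.PC.toT t17n

theorem ok17 : chk K t17 l29 = true :=
  Helper55.PC.chkN_sound K t17n l29 (by decide +kernel)

noncomputable def t18 : Tre :=
  (.N [0,-1,2] (-1) ⟨0,[(1,0)]⟩ ⟨0,[(0,0)]⟩ (.x 0 ⟨1,[(8,0),(7,0),(2,2),(1,0),(11,1)]⟩ ⟨1,[(3,0),(6,
  1),(13,2),(2,1)]⟩))

theorem ok18 : chk K t18 l31 = true := by decide +kernel

open Helper55.PC in
noncomputable def t19n : Helper55.PC.Ten :=
  (r
  4974042474494999328681484773946185376354243822161029843308140160300360004202504494148636166316012978959355083769931012443677180561506041276657598692701364597489227658119515088443996924059330298472754177106679877554915820003811087996977371899025890075214552396736232590883865235084042605753958899449830545413093760898292558486198866819327243824133268870365925160045453150907608625146510166669682439071938065441091148641219110490680844488299247778310866401139767460879651040231104086837924455668438475312646997983413565398658349647616575875097162680125303108430055829102488219983920153121870443127856336846721515048980495518430854980590640726054108468091395457316715238315276935762442555569680110992614553572804046179297631272689857)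

noncomputable def t19 : Tre := Helper55.PC.toT t19n

theorem ok19 : chk K t19 l32 = true :=
  Helper55.PC.chkN_sound K t19n l32 (by decide +kernel)

open Helper55.PC in
noncomputable def t20n : Helper55.PC.Ten :=
  (r
  31744302030585456378799339731708383555254986424230205202739212454640611178568932969450164965903068860577746889840086126176356357731586190837457166564925390163296185487251135698651578814989542493101178060151926607993339958983090535964949477510725712528281190783023808611909871888048068627963329815913243313346606196022900440986007146051408746684852199344955388552079924275833412113081039602691902576238297826773957106412704796470233880706545997131328086283744142667946905001318570595104326834487833228601520316299889808859833673730338642500472607941571940941969590330785346829961498060566291073)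

noncomputable def t20 : Tre := Helper55.PC.toT t20n

theorem ok20 : chk K t20 l34 = true :=
  Helper55.PC.chkN_sound K t20n l34 (by decide +kernel)

open Helper55.PC in
noncomputable def t21n : Helper55.PC.Ten :=
  (r
  3238485478085797406156165664963726342080583324772900238245682198708316216568078277712863077639558895282752148172866309722139764834155822577767485043053540952529452542177318236472964291341878794637405435934368104214400431427700509361063531549602625805993473463444692756813907460039513381386924144823296611229928689364240179401)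

noncomputable def t21 : Tre := Helper55.PC.toT t21n

theorem ok21 : chk K t21 l35 = true :=
  Helper55.PC.chkN_sound K t21n l35 (by decide +kernel)

open Helper55.PC in
noncomputable def t22n : Helper55.PC.Ten :=
  (r
  17258029688151603242657772373004183606108414529280033865412503008969083957508335425836190662598724960318068010950648895591217279929249537714692215850080649962303417451719054251429563992783788882509300403345950091774269500264129704226285780215142878823142153600951732577319069895277947965986147266890511483150537)

noncomputable def t22 : Tre := Helper55.PC.toT t22n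

theorem ok22 : chk K t22 l36 = true :=
  Helper55.PC.chkN_sound K t22n l36 (by decide +kernel)

open Helper55.PC in
noncomputable def t23n : Helper55.PC.Ten :=
  (r
  81750242911876875055608767724875955898398832157374942407224557478766035608127775774567376975785146383502480130273265199479665637287166433935331231940800389874912952224018864058148063408129043158219437275923628701977201678786761037034069822853401150182752375330666289271204522843360660245975933129)

noncomputable def t23 : Tre := Helper55.PC.toT t23n

theorem ok23 : chk K t23 l37 = true :=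
  Helper55.PC.chkN_sound K t23n l37 (by decide +kernel)

open Helper55.PC in
noncomputable def t24n : Helper55.PC.Ten :=
  (r
  1421351662369661426674556372638899388285870070194482598101018836750421735946828931541286710379983013083942804573603142527310201966832079030777621145061745221709459283721195032538369363864258780324982739224769232598244015704379839384335823109206441384839570374733405117028815244398235368277724260797729255712415885859201627837579969991295137050837575154154807460043407396081055343721702719255649071354764651568507294656552968940074953005698819176837238936275564316694984891843285793261635995011094700796322058148637387434191071506984664341700766874503304454771767084960633968770629851230386469503583739054466237848730376240580272321)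

noncomputable def t24 : Tre := Helper55.PC.toT t24n

theorem ok24 : chk K t24 l39 = true :=
  Helper55.PC.chkN_sound K t24n l39 (by decide +kernel)

open Helper55.PC in
noncomputable def t25n : Helper55.PC.Ten :=
  (r
  216364592266339004829057023599427120222925028598335535982949447625596370709429912677302514144447648539538339111975531259117911374143039602521486983772825119527204518690392659491022933768397282497366416188314638964087904918994933330867594029836547779355139628350330640640975247614573367129361474316262427382037820288011672700544176137298107315586115543536363519968952809346421873458012577385373831061274729086548846976723128669053783844595009287234875944928485122094240520193137166676625338294441581102088207814161767571490051658539609846614183576224434843220922346501796706667999293862838018785)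

noncomputable def t25 : Tre := Helper55.PC.toT t25n

theorem ok25 : chk K t25 l43 = true :=
  Helper55.PC.chkN_sound K t25n l43 (by decide +kernel)

open Helper55.PC in
noncomputable def t26n : Helper55.PC.Ten :=
  (r
  394084245522143267682780527994153092967724132402576449846462657077899520647285961584133650359637151716195884468944213060769374636524622880620578688214151802457000830311886710511725678841824461362568391514360788366355074595029367945085909950182081301326326168210588818230288269650846254984171099189163685352424196346040633336629297537740160615759301588311683930084382616220754177777725140193934392022539543399682231828843977490869262374007062462427739466056622931356801403248082410782775975937028949206799766970007263049359735443912008057374962561556174828913684197783061477896524420617455933600579827125487546845354191943321777954329882739127565485319745944993536665107113534443502028614350181115969142196912261729585890659102135410977136154760933088726606017)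

noncomputable def t26 : Tre := Helper55.PC.toT t26n

theorem ok26 : chk K t26 l45 = true :=
  Helper55.PC.chkN_sound K t26n l45 (by decide +kernel)

open Helper55.PC in
noncomputable def t27n : Helper55.PC.Ten :=
  (r
  2500407235344049237409033146407704221907280645067883343369964244842498169733202688477802600210991783952978148859570170376168927755382738006001256111086896690209091874476231465309230249130616424479249634700449124756196902664000359168837825149007329028709402590197613080439148616732094732278846304761212491351530374002489075769713203599680526843871224735130113153432451860015303364274055734070289883446448277249971658480542245142873363330489786998416568095858769114723296574842019712850038023474844157945395412582469369209217765643324969082403078561120368786163255241988305014017229220517905024369441369106548366899565580215271053126876407783616)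

noncomputable def t27 : Tre := Helper55.PC.toT t27n

theorem ok27 : chk K t27 l46 = true :=
  Helper55.PC.chkN_sound K t27n l46 (by decide +kernel)

noncomputable def t28 : Tre :=
  (.N [0,-1,2] (-1) ⟨0,[(1,0)]⟩ ⟨0,[(0,0)]⟩ (.x 0 ⟨6,[(4,3),(3,4),(1,4),(1,0),(0,13),(10,6)]⟩ ⟨4,
  [(1,4),(1,3),(1,2),(12,4),(3,2),(9,4)]⟩))

theorem ok28 : chk K t28 l47 = true := by decide +kernel

open Helper55.PC in
noncomputable def t29n : Helper55.PC.Ten :=
  (r
  1971494854797626570067519889117485630144249011718331865989187838770305226349485977699431621631738274205024213636748827713499571550034147612199845820116771220892222699315595292746162724560346369594390324508122036938382190512354225073455719801014917613689028292148851013399653278012099128690762470657132527096351787996135442742009598519730576210050566205462783325705039154525356236366136861865701743697372980759085019214590407226286322865903630345823227509255019109121391904396078762838748579654444315803153134439144167453208864108717795116318448234509529156137301959445068541343774441281319330016)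

noncomputable def t29 : Tre := Helper55.PC.toT t29n

theorem ok29 : chk K t29 l50 = true :=
  Helper55.PC.chkN_sound K t29n l50 (by decide +kernel)

open Helper55.PC in
noncomputable def t30n : Helper55.PC.Ten :=
  (r
  145975194527638362510625248813575285798326464611471453374861021293304648434640219352032617726180479486072981531312445726750781375556202818551520236015375775278841177248685324876567880868173116376544453408616338694336288523309460302754048292669516222296549367811976421656369185433958352268499799351646340893677978390424049315358534078397214371921095507976950928277821435637737453534279833742958083255986144063736455965548367563922771082586380157086133804356605964046713482428519047117853436549361244845504529016919728205396976633441131665445407517611006746630934451970272)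

noncomputable def t30 : Tre := Helper55.PC.toT t30n

theorem ok30 : chk K t30 l53 = true :=
  Helper55.PC.chkN_sound K t30n l53 (by decide +kernel)

open Helper55.PC in
noncomputable def t31n : Helper55.PC.Ten :=
  (s
  2244838317639984660401210652072018465348427527830776693976265272607483578283377350191009690379180897362816021101411383258426879014034073024362968669233772257366908655667154357069671731374766103968375189044702337271313561036476513004770975896620987651910404808832767250213156708177856553310061041009015256126303380823548774325452097362843797081055247845519329368263189673729307450794719173228224226640023111789599798713572517291496763877516280279893803521)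

noncomputable def t31 : Tre := Helper55.PC.toT t31n

theorem ok31 : chk K t31 l56 = true :=
  Helper55.PC.chkN_sound K t31n l56 (by decide +kernel)

open Helper55.PC in
noncomputable def t32n : Helper55.PC.Ten :=
  (s
  860047897190458470415627240613836358110694329229221987030254397549504351921672836083691928820397939043723299652680012469893465906538641695208769668130557805472955721029159643459138256291148425031411915603300570511980110791004751311086103397835566221887576458980103489538715355430064932917856709265761475020320456629664455004513716881259973856405424839053080128870116492437846667788195034913558959172927338061760381537533042779403295198237573613618223160132066130263049162720189287532373724859924543922242049)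

noncomputable def t32 : Tre := Helper55.PC.toT t32n

theorem ok32 : chk K t32 l57 = true :=
  Helper55.PC.chkN_sound K t32n l57 (by decide +kernel)

open Helper55.PC in
noncomputable def t33n : Helper55.PC.Ten :=
  (r
  33237228701263303338117286694240474724124142428299308218743408104721399634355918592005990236185134472159055794767498500455897203110003527381250689407341844339449300802064577666436683810406748180030443162482134934681535096875469188651860192357848388447466996102533596336300342777643210829491913458001741308267455309511105987976005009464338396779296567475858501104984064685403971813938405995440289052285908659738381378140746249598906810206903805473624267878272169580806203658582234006087831110708168204949857638615871034983666727936042869303656737392535097606664527032824809572374421307423771663920789949943737453002396048510086686876516962094262553904390576673364862704244617897185)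

noncomputable def t33 : Tre := Helper55.PC.toT t33n

theorem ok33 : chk K t33 l59 = true :=
  Helper55.PC.chkN_sound K t33n l59 (by decide +kernel)

open Helper55.PC in
noncomputable def t34n : Helper55.PC.Ten :=
  (r
  8935226674755041230365382026313209182041392630031135827096366980535434502970411099965549762777770726374004319770728902071474968077035658376189195730551562272610916952469612458680196078435788644244337517362432196920769522626078977149240014073143875790669881311241789129101465633798136159192475704044120178716843158058362590912615363948204360411070167690420143996696824123719548027967986726943982022977757233687893820842609692437057747090913546155511644349809864248058892935355925120614344840321769874383231365149431625641632092632714483713882759475183106135750821405253676828181871659613151285218692071940737)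

noncomputable def t34 : Tre := Helper55.PC.toT t34n

theorem ok34 : chk K t34 l61 = true :=
  Helper55.PC.chkN_sound K t34n l61 (by decide +kernel)

noncomputable def t35 : Tre :=
  (.K ⟨1,[0,-1,1],(-1),0,(⟨0,[(31,0)]⟩,⟨1,[(0,0),(1,0),(9,0),(3,0)]⟩),.k,(.x 1 ⟨0,[(2,0)]⟩ ⟨3,[(4,
  1),(1,1),(2,2),(5,4),(15,3)]⟩),.k,.k,.k,[⟨0,[(0,0)]⟩,⟨0,[(7,0)]⟩,⟨6,[(0,1),(3,2),(3,1),(0,2),(1,
  0),(9,1)]⟩,⟨2,[(1,0),(16,0),(2,1)]⟩,⟨0,[(10,0),(8,0)]⟩]⟩)

theorem ok35 : chk K t35 l62 = true := by decide +kernel

open Helper55.PC in
noncomputable def t36n : Helper55.PC.Ten :=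
  (i 324399716250948976594437980422152 (r
  507167600160225451029554715478346599874192323977845290691374001354086054214958998297805787420678066574606803727521863890517128282546628050622134615126735270947297355720414133539067228000439980600590945782065395969046009422737148242474862671155021080482139447217468022996036329011734265913314803730987092727702895885414850040875937309720815539391713893083265043516637029005450033607031193792762388438283634541672172999090328582362153933869055293970947804876541569599242787616789206406901950372753301453998554869131293665347016439325608972748063526861742670210629869834855151885301102922085936173573893920022016927802063686694258424713868975012256941412615534921012647946872033)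
  (r
  142754988443498753042598266956813673602249768691242247917867143339734421918379661831044826761221930358043244368284699887844353015898073666191248629804490744395749201176589580574816369548149731510872476903517717726517188282939073528183744972370876095944469195066188625056979521148391839413561450419739906528157630746109515857073054875152161024042313706139082109194136131466604839441143115798409812832158045428943367760849358814246348977172403613274500390415003950914495941844854833602087736656925862268572557953283302596815158091272276948549792566349912570027135300698937576297209435740241910185369140401853858267567964772883873506217580126431356117188384674212497030441359023379998050084065))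

noncomputable def t36 : Tre := Helper55.PC.toT t36n

theorem ok36 : chk K t36 l63 = true :=
  Helper55.PC.chkN_sound K t36n l63 (by decide +kernel)

open Helper55.PC in
noncomputable def t37n : Helper55.PC.Ten :=
  (r
  3866995958206720015559566958803707934231340457570460066616588094906605916740041179272619520608317967861588888079744989832554350185198313440638409174425436491897232394193895961781927907058414869980173800973040993953799149931610320582055559621827578843399370875717002450564078836711660957405540962877931596841854596146701526120726718720840279912009160450933255284840290501121496017032005335760989356260114893049537696376498097181351930093088385165716953218790394096525536721385493141330087723969493516373223157736955584)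

noncomputable def t37 : Tre := Helper55.PC.toT t37n

theorem ok37 : chk K t37 l65 = true :=
  Helper55.PC.chkN_sound K t37n l65 (by decide +kernel)

noncomputable def t38 : Tre :=
  (.N [0,1,2] 0 ⟨0,[(1,0)]⟩ ⟨0,[(0,0)]⟩ (.x (-1) ⟨1,[(9,0),(2,0),(2,3),(1,1),(5,0),(5,1)]⟩ ⟨3,[(1,
  0),(5,2),(0,5),(13,0),(8,1),(2,1)]⟩))

theorem ok38 : chk K t38 l66 = true := by decide +kernel

open Helper55.PC in
noncomputable def t39n : Helper55.PC.Ten :=
  (s
  11224131645627733071562686195376965523506478657594988053037059553835496316431947048105098406363794767994812290692162414907423762368461203217677199347545723767536967257874869473352383667196808075794403904950055466226281147453412437154550287204086207661308508047610124844456913917186536885581444752819256275028766603634178972659928201456471715502685476346885999063998040862346514683768818369884348864935090250847193836768788241898961612351390352636411642369)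

noncomputable def t39 : Tre := Helper55.PC.toT t39n

theorem ok39 : chk K t39 l69 = true :=
  Helper55.PC.chkN_sound K t39n l69 (by decide +kernel)

open Helper55.PC in
noncomputable def t40n : Helper55.PC.Ten :=
  (r
  33237634415533088794561775605719233160308883001029516820348590863137386846096426048357198114758273111258556350222997997634323855921981358216707909191024947041365186977395649299388835502340431371540944964952668659635052948236623645704915163725516066413431893674559399675266994170024896144396474741280457394076686576613824621769217884516491020098525001443845456020127817687458934998427068548696599985945609930755464010606560386826617318585434936166585129793792655324935802169711325550062237609353197727912356607335292323116785713754028214189455603285932856440627852106054924251137539734767129847488300580146853304682905604913106722051465403815720611257826641608365377069872752354529)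

noncomputable def t40 : Tre := Helper55.PC.toT t40n

theorem ok40 : chk K t40 l72 = true :=
  Helper55.PC.chkN_sound K t40n l72 (by decide +kernel)

open Helper55.PC in
noncomputable def t41n : Helper55.PC.Ten :=
  (r
  3866995958206720015559566958803707934231340457570460066616588094906605916740041179272619520608317967861588888079744989832554350185198313440638409174425436491897232394193895961781927907058414869980173800973040993953799149931610320582055559621827578843399370875717002450564078836711660957405540962877931596841854596146701526120726718720840279912009160450933255284840290501121496017032005335760989356260114893049537696376498097181351930093088385165716953218790394096525536721385493141330087723969493516373223157736955584)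

noncomputable def t41 : Tre := Helper55.PC.toT t41n

theorem ok41 : chk K t41 l74 = true :=
  Helper55.PC.chkN_sound K t41n l74 (by decide +kernel)

open Helper55.PC in
noncomputable def t42n : Helper55.PC.Ten :=
  (r
  247893823658176908752045593396511485322053916373446970704016676748264502124544336689872454357705355509680981731130232682186982100600609114617889070622116872698272572733350171398794312718271936471855607028520000636869017376684477002532361440552739039357671572925846519701796235633377387659939846422142031480425080060039422391981765919919955139646864517001854355469733182687882637640778848468369079283617876593612268642920479372554015443676476898563660167126601837340834782020232690671587649966891750089681982947602318815420096)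

noncomputable def t42 : Tre := Helper55.PC.toT t42n

theorem ok42 : chk K t42 l75 = true :=
  Helper55.PC.chkN_sound K t42n l75 (by decide +kernel)

noncomputable def t43 : Tre :=
  (.N [0,-2,1] (-1) ⟨0,[(1,0)]⟩ ⟨0,[(7,0)]⟩ (.x 0 ⟨7,[(10,0),(2,4),(1,4),(1,4),(0,7),(10,15)]⟩ ⟨0,
  [(0,0)]⟩))

theorem ok43 : chk K t43 l77 = true := by decide +kernel

open Helper55.PC in
noncomputable def t44n : Helper55.PC.Ten :=
  (r
  367097363670466850445647639179031827444594811072389456302412114879522315312637018481115554055685175495057565206912487897427082989236387592882986707592929038709089254027637921336151156432972364747883160277210058300807907054479683210918007865033821924380083000585759312555450038067648313933086695302306331259632394478937271733283220432289520778346455847068756425716979666650594512586258705193075829846766011654897503623946807295597748239151005158993473595779284157981784142570859423960109017704589831754514514328389157718807490054053973171735922241986731998463965012193)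

noncomputable def t44 : Tre := Helper55.PC.toT t44n

theorem ok44 : chk K t44 l78 = true :=
  Helper55.PC.chkN_sound K t44n l78 (by decide +kernel)

open Helper55.PC in
noncomputable def t45n : Helper55.PC.Ten :=
  (s
  5054810813360898980302704213933567411571845340587649454478681918974418206672624252688306342614835338696964551653644745859440349594862201725583934165358129273195412802217739872822702550312697740509389503505709904487371209188534110194106846277574669577515424828137740000172093517156006946833241421353934752359513663228024190548632568252634126981600170540281346046581778104165852155507438012044483170821482149943826847814701648419805435812921158167477965990936325508825601)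

noncomputable def t45 : Tre := Helper55.PC.toT t45n

theorem ok45 : chk K t45 l79 = true :=
  Helper55.PC.chkN_sound K t45n l79 (by decide +kernel)

open Helper55.PC in
noncomputable def t46n : Helper55.PC.Ten :=
  (q
  2974804186093741305842622822662946185807079856478311096480796066799962152645759395092667981351774201186263090831488509149194
  (r
  43033319423018840435823128931140989168089591275788473303575376380306895434480144017773858580234518215034648821329872374244154451161945460751478080873947575255605252993988328780404052772709200372650385638499273350460089617603179715578865344766043089433942186123502896386359046205881583378497161822087308262731162081357067983200354998489764213661937072314482426698152912030513624332971796220310165036931958840651626570979856011513246667871265771884144960281600550486829855891950959188968041858302337707764011383032871139736539596273757849004948365535079974548195188591243254074926825240462508342857968785874949744827042819402846048654816121329097461826468753832531187390119773231664924033984210095702433959088544725408548116678002136155618497952924056674497)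
  (r
  10187460918589164709097499072372063740740722610783111991608925186345989888372616262207731674905582213006459701288812567325139589147427520745771064457786945038208525189529485998731292028068921516207432926705915849364235925440777291784518116150397592157169554288048928599076595520363119010354089486540802855182859569049047594204087143192658178555205563260785218684505875036966849040439808676818651588953252199843037374422883846634595941742903283912646333223930785207777964151741949294398994042642863823426346670265886212070185373161772503584685867450227136358610256389930451552228746727177671240727060935631943352739271869024639431012504771453639129818077018132240053807897195233660336147100698799737825159824050809822752617962306003137))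

noncomputable def t46 : Tre := Helper55.PC.toT t46n

theorem ok46 : chk K t46 l80 = true :=
  Helper55.PC.chkN_sound K t46n l80 (by decide +kernel)

noncomputable def t47 : Tre :=
  (.N [0,1,2] 0 ⟨0,[(1,0)]⟩ ⟨0,[(0,0)]⟩ (.x (-1) ⟨1,[(9,0),(2,0),(2,3),(1,1),(5,0),(5,1)]⟩ ⟨5,[(1,
  0),(3,1),(1,4),(0,9),(1,1),(11,0),(8,1)]⟩))

theorem ok47 : chk K t47 l81 = true := by decide +kernel

open Helper55.PC in
noncomputable def t48n : Helper55.PC.Ten :=
  (r
  6771751117762584072427859524335859487342282528335752332061459237808231458413671651090199496568409538597517120567941737759258697803123835236258402977514990940863687690213570273954879969644631869875156329004394165877517625672645534601928181547612310183854648106141574529574148982838894878183051525057135019330620256622900056386915803980039477590619886846063124004908256412671873931404308653281421622774191443435576541875932044187630287843305889091883479745370707967520084877620300777698800167567459638624753833453547588981285897844250387655320783946857661376605395416506896566826046333153)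

noncomputable def t48 : Tre := Helper55.PC.toT t48n

theorem ok48 : chk K t48 l83 = true :=
  Helper55.PC.chkN_sound K t48n l83 (by decide +kernel)

open Helper55.PC in
noncomputable def t49n : Helper55.PC.Ten :=
  (s
  57847792527570640016898257237359293355455774518546854369436169117998794151387039286510548815572057865099766182139211555783260486320861083731613618138351396591431402321641641629143064902678996107460547306844690646317588566557527952382936357789298198229840728695901757950090600479718440189463666345084720718263510684081913838204162984807808163209725594318638566673922848677247436965887379449213229495665509949095462217820363727252748477759684118374834544604060058113)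

noncomputable def t49 : Tre := Helper55.PC.toT t49n

theorem ok49 : chk K t49 l84 = true :=
  Helper55.PC.chkN_sound K t49n l84 (by decide +kernel)

open Helper55.PC in
noncomputable def t50n : Helper55.PC.Ten :=
  (s
  28924043391049578703530184095284965606691071872516516695715317838001939754551943018637524475419203988227826911270190962696985644136132967935082343534490330837619390173863538585851072722937763634467375121088417666208785902172487373685647552481076409208454683427145785041410161990952678832397083682916566371768180584872701495032424788785097938171784467801456870583634781244264173819035243043726505723066063992221887505886751901762887671215647595566514534516826046977)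

noncomputable def t50 : Tre := Helper55.PC.toT t50n

theorem ok50 : chk K t50 l86 = true :=
  Helper55.PC.chkN_sound K t50n l86 (by decide +kernel)

open Helper55.PC in
noncomputable def t51n : Helper55.PC.Ten :=
  (q
  971582966204592052012662367935857754597686736611574164482906043782421155683512039430203095446610125998776878235658
  (r
  25826705114539181190858704682624817100723429750563127639794458987368246197573168096381891143945670658773757501003257984888776992607415221791058144062336115465581770262932991601192374755765751440643775107599915334160727524326119675795521447291031306253571738238529367125793348272443320794548434338200529461175838776670922206761498457149455351775202913794642882938879638006661819752977549178359465964054107913038293269524088802951754730581185576931112370339720973880793061753085059389163649689543494624226964961071338524853514371635535378657362347314059056288611115587414150345627984797615745427400548427331883028523987538510681346727241699476101424662768978476356554000149611295941017902774048281408694884823078452074942324161988841791112120935700333103730666496193)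
  (r
  2867515324800603316136972831924500718275849221494886697359280807698414741323617500507166537462219769612210881482534904791868218052867254877319099892561398780829245502649988275558480136245646629038708847462503121089851569322245897346440776935544538675057509288284486572871669254944891519870659167088995856087269766062079055794680595865377488405135712698605045938145494408666471119729380361629559844208401370618280584757623936366981663876030085248066681729274191926942483178045385406578410744469418432241128188328212225345114603528470074841389562583311605466165059413656830819155290603007486331397700838498205524432063678615002813094155584486634408040982997629571535478202192037957042270632642269284815383629218926801227138345763863291914414172397761))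

noncomputable def t51 : Tre := Helper55.PC.toT t51n

theorem ok51 : chk K t51 l87 = true :=
  Helper55.PC.chkN_sound K t51n l87 (by decide +kernel)

noncomputable def t52 : Tre :=
  (.N [0,-1,2] (-1) ⟨0,[(1,0)]⟩ ⟨0,[(0,0)]⟩ (.x 0 ⟨2,[(11,0),(1,0),(1,0),(0,5),(1,3),(8,2)]⟩ ⟨5,[(6,
  4),(1,2),(0,3),(3,0),(3,0),(3,2)]⟩))

theorem ok52 : chk K t52 l88 = true := by decide +kernel

open Helper55.PC in
noncomputable def t53n : Helper55.PC.Ten :=
  (r
  33238040129802874251006264517197991596493623573759725421953773621553374057836933504708405993331411750358056905678497494812750508733959189052165128974708049743263107279222382714325641790166382672107923966803184239849644696816297176964190670791287500024924879425041685539060042643429799765643344742350404417715828431891380670209447027444415758080524656002746013301531400323274997754860955957822961781220691260688494573605630282470289971107011053431252328160223271659600092667048447269920035649356262884408452611566394983662382585767959993103313422889142798650229303838040879176857060647094425438144448132689752282422976846419349234807095926597199144761157995515242542905247099774177)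

noncomputable def t53 : Tre := Helper55.PC.toT t53n

theorem ok53 : chk K t53 l89 = true :=
  Helper55.PC.chkN_sound K t53n l89 (by decide +kernel)

open Helper55.PC in
noncomputable def t54n : Helper55.PC.Ten :=
  (r
  16608621174262048796932509652095518675893352408721594320809353483104609969598780536973252018603725086359060950708384506729054775759235587777944215906960709954810088407342202955960443856972004587124546274100869557657461743175825305657535691577348825134545399010285641336134776779037803317229079746103635148993061688357321924132436293441709482523287045409943299847440063328021351030535168424088663185262108634886823787742790972056057079937220505275669718474274497099841087949774181054366122142697557092527673332228900643425509056)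

noncomputable def t54 : Tre := Helper55.PC.toT t54n

theorem ok54 : chk K t54 l91 = true :=
  Helper55.PC.chkN_sound K t54n l91 (by decide +kernel)

noncomputable def t55 : Tre :=
  (.N [0,1,2] 0 ⟨0,[(1,0)]⟩ ⟨0,[(0,0)]⟩ (.x (-1) ⟨1,[(13,0),(2,0),(2,3),(1,1),(5,0),(5,1)]⟩ ⟨5,[(1,
  0),(7,1),(1,4),(0,9),(1,1),(11,0),(8,1)]⟩))

theorem ok55 : chk K t55 l92 = true := by decide +kernel

open Helper55.PC in
noncomputable def t56n : Helper55.PC.Ten :=
  (r
  1619267451627312459687314831620293312607298156507149452513521436050810156193853314257807283274290106626432598886463186100621930346771904836792236154429584506004469947364662894993634056286772090845957867345209596805232839076715342826150315357942985111773408080081382076351747944604007484934158760213893611115930993368937275593)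

noncomputable def t56 : Tre := Helper55.PC.toT t56n

theorem ok56 : chk K t56 l93 = true :=
  Helper55.PC.chkN_sound K t56n l93 (by decide +kernel)

open Helper55.PC in
noncomputable def t57n : Helper55.PC.Ten :=
  (r
  49415366792080648905682885369500495643086782372192069695038490273293798365010865772075845669588017869613054545753299314951394996145019775627191479864622623160324354395807543601860678299715146146900136972258961474667974155009636099722792087201705485716347725013681485049190138729737686867213277150806777702418085302771913)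

noncomputable def t57 : Tre := Helper55.PC.toT t57n

theorem ok57 : chk K t57 l94 = true :=
  Helper55.PC.chkN_sound K t57n l94 (by decide +kernel)

open Helper55.PC in
noncomputable def t58n : Helper55.PC.Ten :=
  (i 324399716250948976594437980422152 (r
  2178288197946761166913946551399087577267806114529917365253162508062121922254401274164570095178967400471465617370546011820048417340388749413722693892486466747973499452448330453369560394604916456473483310906711310917607567790241864408731846914541732357258418086909171924831639149567797877387468333803482563116703687147754553053556424284132845638239464543494165024361966264162321168769302747745746572124855287072578136171130234596038219665980110988609787803877561102753979513906836101713401652568083263276022432289714906619903359073635617305881454269167911796441984701931071259059772194880091952952964111627732585706247480065191543791298564582189756603731367019643528328899925487627527393)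
  (r
  9355676571444113561018197684551064188605100295574825497344819732700149992447308064597558280693272252075079807794944634430337389613528978658278143881248314805129137118096824018875318489096279432374524696874778313886227615615430553040283854416875896500454479619774899995373066591180188311368640070687848901178201181071259552726776756777078307480116232062785678333004297476989047125951515797794385452628075409589263765802897069998003971939947631643344171998225559690780406543415084782563191230264159788914800548706974125080833091288264591692606365272396359576519781366672832266809557795313757129249016310831995574071359287950598629258776101290517432008495739285503598931036852816885232136707892449))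

noncomputable def t58 : Tre := Helper55.PC.toT t58n

theorem ok58 : chk K t58 l95 = true :=
  Helper55.PC.chkN_sound K t58n l95 (by decide +kernel)

noncomputable def t59 : Tre :=
  (.N [0,3,1] 1 ⟨0,[(1,0)]⟩ ⟨0,[(0,0)]⟩ (.x (-2) ⟨1,[(12,2),(2,0),(2,1),(7,2),(5,1)]⟩ ⟨5,[(1,0),(2,
  3),(5,4),(0,9),(1,0),(11,2),(8,0)]⟩))

theorem ok59 : chk K t59 l97 = true := by decide +kernel

open Helper55.PC in
noncomputable def t60n : Helper55.PC.Ten :=
  (r
  8096090133800600110249830227976997783603725902054168764115940926848861304191024247740617063835366143069148751417417453689679354943121436723730012319158932900276178399007581914177544306327692129105843163508633041849571666482454898475566121187991264009165345641452093057836287068555441508695549448249471855095100591333773680841)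

noncomputable def t60 : Tre := Helper55.PC.toT t60n

theorem ok60 : chk K t60 r70 = true :=
  Helper55.PC.chkN_sound K t60n r70 (by decide +kernel)

open Helper55.PC in
noncomputable def t61n : Helper55.PC.Ten :=
  (r
  458885985957546385508284521009328812890239660093600847070828104695578039971074442293530409220172750016766786274861715283849635057272252253639877369360650708630401297834039916533855959117660877210564387511716173898589176140670838703346773904292312237813200528492793103076284964601324103759913850810689262310382147451825457954497726216208458214985149642239686039165629492821279475967212533849033567783405980206625739349566712935700562894234067458741692207438406611825222236998919080102368381242171527279080506443784003796718722998524179803823794907868249388974372110225498358106914580849281)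

noncomputable def t61 : Tre := Helper55.PC.toT t61n

theorem ok61 : chk K t61 l99 = true :=
  Helper55.PC.chkN_sound K t61n l99 (by decide +kernel)

open Helper55.PC in
noncomputable def t62n : Helper55.PC.Ten :=
  (r
  3238485478085797405980609694759773628618999309849207157816228765427560832207654726634081438434782580854940829946142417470132511135466920270127416164741426776615115623945974640064239699953004990060642309800474910658953086535080269529120081979584129510682348840865577914802350348478914201447204566904065529386208455943307141321)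

noncomputable def t62 : Tre := Helper55.PC.toT t62n

theorem ok62 : chk K t62 l100 = true :=
  Helper55.PC.chkN_sound K t62n l100 (by decide +kernel)

open Helper55.PC in
noncomputable def t63n : Helper55.PC.Ten :=
  (r
  17258029688151603242034072276265507634026038356317788159929981716542119747484042277162975863776735973431461392102103087641401222375684200130815699835013062530621868949225315469405352534632837456781813269091447200800362473129823033766608743309648193530100961920486480568086794173731677716144544248144424176722121)

noncomputable def t63 : Tre := Helper55.PC.toT t63n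

theorem ok63 : chk K t63 l101 = true :=
  Helper55.PC.chkN_sound K t63n l101 (by decide +kernel)

open Helper55.PC in
noncomputable def t64n : Helper55.PC.Ten :=
  (r
  81750242911876875053392939859723266073693327136224037933316709547667860007957236744630945916409251327187525362471862802404258707658941232027581190767925986032772904855638524062626564285816292786237898569602699946080647269756788763329169868425173920383126795817854289445628205396901701286070329545)

noncomputable def t64 : Tre := Helper55.PC.toT t64n

theorem ok64 : chk K t64 l102 = true :=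
  Helper55.PC.chkN_sound K t64n l102 (by decide +kernel)

open Helper55.PC in
noncomputable def t65n : Helper55.PC.Ten :=
  (r
  3381775416417840528677826682421280885612769862125956393402775880005962268289842186961502243366488590827779761189661050441403778598244241790721346164386177066218360483461852740984027666005792407968226060215824686720626582792785195045579345011221429508949893800092829850571235136729130240423852440583236911695385907649812283503411287713350792535763086471754639184889537556134455134274362160426971004375086870968034468017759880989036875288399796675883489199562981688853948380280558246242651553069460285828125689635457)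

noncomputable def t65 : Tre := Helper55.PC.toT t65n

theorem ok65 : chk K t65 l104 = true :=
  Helper55.PC.chkN_sound K t65n l104 (by decide +kernel)

open Helper55.PC in
noncomputable def t66n : Helper55.PC.Ten :=
  (r
  13943200930575148935523707970721398354297791963536265057444295942247458775481279173793444031144788409146815071172024452822206756084646028228492004837358235515521627583518607205022565769192283060685802090394006404268857725971034541516569170129826787224384833489916047580355897965443824220596796472517945958232677660313515995901355628555273178525720664638989401172245337343448508563374252870859151418653056063202988019661927476857669936810870180607872634285908136640899830230304770554392543004950653559425)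

noncomputable def t66 : Tre := Helper55.PC.toT t66n

theorem ok66 : chk K t66 l106 = true :=
  Helper55.PC.chkN_sound K t66n l106 (by decide +kernel)

open Helper55.PC in
noncomputable def t67n : Helper55.PC.Ten :=
  (r
  1526188009091386691421388677530623435971307948774670585364899946119884834490632346225091703067576135247787650634023354926372914890418714687892339781466863528046211723872439800347913558626046119946125053586770974013316964188852099718222962561433628665723898267808973262425036532386726439378746530141005245858512219822361584860155649873619602224590943994983896666132707658436825300153384983638214397987016748667773303333505564935663496310801581748093186857366497856750249592693475675410822133095434742004173205166713616596420032578276428881928863989973308348531163038526386848792075402458086950585715419612081177172162483828628910343471228129)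

noncomputable def t67 : Tre := Helper55.PC.toT t67n

theorem ok67 : chk K t67 l108 = true :=
  Helper55.PC.chkN_sound K t67n l108 (by decide +kernel)

open Helper55.PC in
noncomputable def t68n : Helper55.PC.Ten :=
  (r
  23494231275151198448281741159110489564345263158821941454521437350477932400748140399870294842850740736653396125017645367395613059542749948943978224170814947478506565854296419989059401002141434718948777464299836796439402351523997345045264858801575125720112624931575898410315075265297005440616582915319433979036917330288936517408134049491495796502415342134412363093622369818388436912648618972820343895495508258180125231803138726565777333060431490654008927340745811286705675518787888767108049455816034550666255133629253552460018245435809343065963762798400666251750197159105)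

noncomputable def t68 : Tre := Helper55.PC.toT t68n

theorem ok68 : chk K t68 l109 = true :=
  Helper55.PC.chkN_sound K t68n l109 (by decide +kernel)

noncomputable def t69 : Tre :=
  (.N [0,3] 1 ⟨0,[(1,0)]⟩ ⟨0,[(0,0)]⟩ (.x (-2) ⟨1,[(10,2),(2,0),(5,1),(4,0)]⟩ ⟨1,[(1,1),(4,2),(19,
  2),(0,5)]⟩))

theorem ok69 : chk K t69 l113 = true := by decide +kernel

open Helper55.PC in
noncomputable def t70n : Helper55.PC.Ten :=
  (q 719909813558421884557707254542979736321463466759322366271160330 (r
  2189892194921635464603628183909091817800498355760859496370017813611056384158275583258841183063479012835443915945337372748564240724959788055826042052022565055058734701761905309400260361476501231842417392127411553832742199902973643973408874113568331317838844833114423752366645430338273010595629635845957086804413068121332932228852861465790200609750583146453566129910294157816692462526333027699442986176892036051533507721819080553917817219844531697941779220830823709801931706550733806501272841361953242596335520947702699815758684977525365838288528280467883683447535846861411584187359413755855644647616)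
  (r
  80360235491523693556705677214701667285590665364838479562974751214284902177463633042145515685729256233835517171070329172699963835236786405206018636206038421907635361784037086299336532277958165251196226019568434477433340691560400084640721111951790570960400785323990221801794567876067261554717703260240156954697195596348155578197857011490400416844287328761814741354782867233462229879535876297924206917634450344991738761765914561872420163772466092561212878669646658895176302565688930817133517492711260285380202166992996409455649191977565854648236451310273015659982036506843724305233536471358593910113006353741499758938932681872248681894001915492221350547012461066055800576147386855733630298290708789150343361))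

noncomputable def t70 : Tre := Helper55.PC.toT t70n

theorem ok70 : chk K t70 l114 = true :=
  Helper55.PC.chkN_sound K t70n l114 (by decide +kernel)

noncomputable def t71 : Tre :=
  (.N [0,-1,2] (-1) ⟨0,[(1,0)]⟩ ⟨0,[(0,0)]⟩ (.x 0 ⟨1,[(14,0),(0,3),(0,0),(0,3),(8,1)]⟩ ⟨0,[(10,0),
  (5,0),(3,0),(13,0)]⟩))

theorem ok71 : chk K t71 l115 = true := by decide +kernel

open Helper55.PC in
noncomputable def t72n : Helper55.PC.Ten :=
  (r
  613124264652034196120944301014850004024073909307879820054074742285389390613875706685707214914262973674958176350943132647063166450758482439137161241353163384921940255235874780521408503161840931926312328255515770673269209680131557479799642311266118074778911669877306392547640047272876886685850025060680846678751966759244581676667932648920448003846911738990284360724193469851551490669074033270840714883892959185649166502052917727774248832023180115404402713672622315100809624843692885764780893236729718309392364094380755954494833625994628221959804541480944227245405658888575062058976279682209509500158840870048963473559127892240340646892961080065017751167502749901996387823211781343742575268069585446113)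

noncomputable def t72 : Tre := Helper55.PC.toT t72n

theorem ok72 : chk K t72 l117 = true :=
  Helper55.PC.chkN_sound K t72n l117 (by decide +kernel)

noncomputable def t73 : Tre :=
  (.N [0,3] 1 ⟨0,[(0,0)]⟩ ⟨0,[(1,0)]⟩ (.x (-2) ⟨1,[(8,2),(2,0),(5,1),(4,0)]⟩ ⟨0,[(0,0),(20,2),(3,
  2)]⟩))

theorem ok73 : chk K t73 l119 = true := by decide +kernel

open Helper55.PC in
noncomputable def t74n : Helper55.PC.Ten :=
  (r
  345144583334952749035176805134676031388284999784861178045340928939089942878765492145359979543262169434727674892993501112727812285704713795068878189581829675140633037058927776739684655168791907643358198966419451898998508269068110828118479202556998280331694169327757923746766742739135282331843583747038375401992746772549478529753218116234246587218413087927642542717200346569681568157191477883166470780755098076853692092743616675436690331983415139649004138543056733280109504049168733453217900311111045998036888173343608715927269745100388819377386586755273484033596582168335733321475237513973219121078209453769132829477794941120462855072351788868669521919553525783213761735133126274592102105042477880876405481058066625)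

noncomputable def t74 : Tre := Helper55.PC.toT t74n

theorem ok74 : chk K t74 l121 = true :=
  Helper55.PC.chkN_sound K t74n l121 (by decide +kernel)

noncomputable def t75 : Tre :=
  (.N [0,-1,2] (-1) ⟨0,[(1,0)]⟩ ⟨0,[(0,0)]⟩ (.x 0 ⟨1,[(15,0),(0,3),(0,0),(0,3),(8,1)]⟩ ⟨1,[(2,0),(8,
  1),(5,1),(3,2)]⟩))

theorem ok75 : chk K t75 l122 = true := by decide +kernel

open Helper55.PC in
noncomputable def t76n : Helper55.PC.Ten :=
  (s
  183179559485225494374901485852570229618605113434452293912588907226949887623090166995465505753246308679013395254970513801503135035547159683195781317966912359246826437954376389488255896269205187193511394396978636849424556958918868824626977615658300143625953448734273738321313868622205016784339808464726420005874859675695491939578020470316653942529308110308537594941846130498230068979621515200977321252078294103600673559289660555211910847618884157160449828213379136582302621409615995426299182628531776694212803691009)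

noncomputable def t76 : Tre := Helper55.PC.toT t76n

theorem ok76 : chk K t76 l124 = true :=
  Helper55.PC.chkN_sound K t76n l124 (by decide +kernel)

open Helper55.PC in
noncomputable def t77n : Helper55.PC.Ten :=
  (s
  5741320302210348752668845465911948899312976211313382345376686906190240337847959965223854843818497067015731693419215251847754113207830096964246712779538509458329718919005408859452215789989053651290802911035749593714487667598186038302587187954833241182462991489438144482749158729063056284697615165128107857355120486011506739284069788539903577598074168124645393973935732870601539399688568713042315385687060033372103802106564213177507238177905168424308881463111694280473105027177961582330747064355028473881)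

noncomputable def t77 : Tre := Helper55.PC.toT t77n

theorem ok77 : chk K t77 l126 = true :=
  Helper55.PC.chkN_sound K t77n l126 (by decide +kernel)

noncomputable def t78 : Tre :=
  (.N [0,-2,1] (-1) ⟨0,[(1,0)]⟩ ⟨0,[(0,0)]⟩ (.x 0 ⟨13,[(3,5),(3,3),(9,3),(1,8),(0,13),(0,0),(9,27),
  (3,5)]⟩ ⟨0,[(6,0),(8,0)]⟩))

theorem ok78 : chk K t78 l128 = true := by decide +kernel

open Helper55.PC in
noncomputable def t79n : Helper55.PC.Ten :=
  (r
  143516774886384301808263376660666241371373460243143687954105487432814191192196748624451415773248160585183652475393630060449906080150964670026615510310575267721995579678248442316577642825721299559314653960567160474647259523868647827936905401158671751648551440054996141780063224007355166471591420551935885584603357003239115470014393583197056202071808853177451274023291282584588326703533362311859702625381042940415731798944031077628517835122131859416318894457056058168216090052577295689305577262114151778496917907910108018615362499321978925613303254257331556523847568594053693805220389007802091870773567680)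

noncomputable def t79 : Tre := Helper55.PC.toT t79n

theorem ok79 : chk K t79 l129 = true :=
  Helper55.PC.chkN_sound K t79n l129 (by decide +kernel)

open Helper55.PC in
noncomputable def t80n : Helper55.PC.Ten :=
  (r
  71333484775108593822116797299810860288567059105689436836218818148397309181288220769273412984135204710950738228283920673036018244561601797757383906789783477965979486600511546546702159394003459712614168148674507763421165156694195303269136993074364265562837708939118479463576610555404226394227083206675261843795843626860919015843285084876662861729047120490377310307986115188640111860607025544205998285006849923960390670372936012500204446293116328708658318514477527458576890037378980448319274118810754673274192990565756026497573999570869952)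

noncomputable def t80 : Tre := Helper55.PC.toT t80n

theorem ok80 : chk K t80 l131 = true :=
  Helper55.PC.chkN_sound K t80n l131 (by decide +kernel)

open Helper55.PC in
noncomputable def t81n : Helper55.PC.Ten :=
  (r
  69775908175918916259400115611639845497113904851674767331877557172007722610342112448311786725029605968457059588685891282805790231120338775380509408659413060668664043444927124051973360673344176904904918027398465934893689441222398788337756065531740386572353244851868955788166890184595058672814813482669992263752193488028246998167978064301725262097007502570839569254893633574069348575548095241278448614579921064309456099682791213082541926818331972752570213192496885720581860401648734155532929013376530484757013589413020310372684514895076286144)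

noncomputable def t81 : Tre := Helper55.PC.toT t81n

theorem ok81 : chk K t81 l132 = true :=
  Helper55.PC.chkN_sound K t81n l132 (by decide +kernel)

open Helper55.PC in
noncomputable def t82n : Helper55.PC.Ten :=
  (r
  355348758387478713271289516951396988298493606720912859321081477565126675842530421236419688097827856234960518201077106113049380953003437991840302590972991419226065962471431055161698995238769156466807332648685715186240537425117156405671761210072984757918127002703008303035369698323547802805942812450473880803904759300142291572844487032643257467180311242403133864199964144213096914577219728088298658227665349746613735913376541591379993766482539873288755284618655659750146091161186620996137319764465318174322797327493797622229397220147687460853173307042358870908947836877219343826760346661017716451931847523243683434434595303464887521)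

noncomputable def t82 : Tre := Helper55.PC.toT t82n

theorem ok82 : chk K t82 l134 = true :=
  Helper55.PC.chkN_sound K t82n l134 (by decide +kernel)

noncomputable def t83 : Tre :=
  (.N [0,-2,1] (-1) ⟨0,[(2,0)]⟩ ⟨0,[(1,0)]⟩ (.x 0 ⟨3,[(6,1),(11,2),(0,3),(0,2),(9,7),(3,1)]⟩ ⟨0,[(0,
  0)]⟩))

theorem ok83 : chk K t83 l137 = true := by decide +kernel

noncomputable def t84 : Tre :=
  (.N [0,-2,1] (-1) ⟨0,[(3,0)]⟩ ⟨0,[(2,0)]⟩ (.x 1 ⟨0,[(0,0)]⟩ ⟨1,[(14,1),(0,1),(0,0),(0,0),(7,1),(6,
  1)]⟩))

theorem ok84 : chk K t84 l138 = true := by decide +kernel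

open Helper55.PC in
noncomputable def t85n : Helper55.PC.Ten :=
  (s
  538316343614619793551099652148716962085495592854033817419665345525198672012000958161002802140870395399332176994795498100911671671490246000795578629422907978658337471158157741177210981418470414985338927454645357355108992878313692307873464734174125012002042526977414479256526163647765670104828644329906400172144781369735020985293568833062443268029962100682031237587393216410092337012734609657979461189482892642376686203102539841079958357183641718332883689767519207637199618561)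

noncomputable def t85 : Tre := Helper55.PC.toT t85n

theorem ok85 : chk K t85 l141 = true :=
  Helper55.PC.chkN_sound K t85n l141 (by decide +kernel)

open Helper55.PC in
noncomputable def t86n : Helper55.PC.Ten :=
  (r
  584155384571093416150168710933196449377879521164152803786993048020482167639364141884331402498777967265858848544243613207250819117013112633991461225475656427889091592160055890022223707947971737115219587147205069940155524993143351268987413003452081476251647977320370586333518582937093569829168921176762848740663088560177530778937313371925746579426654515940105239538598117939587884847985439370150629781690260288313713464202457080425663451142357711315268143063315249348204950994802263092320867467433918955290848420511784756276736757513951828617417396345013582856325376166356137392755505945602875553866238619481667601079765958505029428659557595133390636247599474726658853437308878000882123962716378687445496085975219347508144958014433438458049)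

noncomputable def t86 : Tre := Helper55.PC.toT t86n

theorem ok86 : chk K t86 l143 = true :=
  Helper55.PC.chkN_sound K t86n l143 (by decide +kernel)

noncomputable def t87 : Tre :=
  (.N [0,3] 1 ⟨0,[(1,0)]⟩ ⟨0,[(0,0)]⟩ (.x (-2) ⟨1,[(15,2),(2,0),(5,1),(4,0)]⟩ ⟨1,[(1,1),(2,2),(20,
  2),(6,5)]⟩))

theorem ok87 : chk K t87 l145 = true := by decide +kernel

open Helper55.PC in
noncomputable def t88n : Helper55.PC.Ten :=
  (r
  92883151936150776940884785778569355045005644230282181987961922711644764520171812681426982601417738950561119400438269570594172433301250647975818128985316973080435805951572152308560691705700520264484378414948669506921781840261370794425680959913062882181791416729000578000523712634404954020127452818148772668739441597913481922084630408093354616602795145700859435693147404454189026890062543649596201000828063102247215092390636982338136391478136709559873090047992179253068836906381534666436541124639728806160753281)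

noncomputable def t88 : Tre := Helper55.PC.toT t88n

theorem ok88 : chk K t88 l146 = true :=
  Helper55.PC.chkN_sound K t88n l146 (by decide +kernel)

open Helper55.PC in
noncomputable def t89n : Helper55.PC.Ten :=
  (s
  13193646708072517169088514098280655299802638725771371673761269477882900897543755453103522456276686324686441044206100975782423569702080745980294449265288364673921728903985920805439700001070626692340302948962580670500455035337549029937514805063191732057966601687015756920463281628466798551517460989328240669937635120309711999181623522169806129750840302923861427712861314777062734022102911031737792252292068295359338521)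

noncomputable def t89 : Tre := Helper55.PC.toT t89n

theorem ok89 : chk K t89 l148 = true :=
  Helper55.PC.chkN_sound K t89n l148 (by decide +kernel)

noncomputable def t90 : Tre :=
  (.N [0,3,1] 1 ⟨0,[(1,0)]⟩ ⟨0,[(0,0)]⟩ (.x (-2) ⟨1,[(16,2),(2,0),(2,1),(7,2),(5,1)]⟩ ⟨1,[(1,1),(3,
  2),(8,0),(11,3),(0,0),(3,0),(1,4)]⟩))

theorem ok90 : chk K t90 l150 = true := by decide +kernel

noncomputable def t91 : Tre :=
  (.N [0,-2,1] (-1) ⟨0,[(1,0)]⟩ ⟨0,[(0,0)]⟩ (.x 0 ⟨5,[(5,1),(14,1),(1,4),(0,5),(0,2),(9,11)]⟩ ⟨0,
  [(7,0),(10,0)]⟩))

theorem ok91 : chk K t91 l152 = true := by decide +kernel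

noncomputable def t92 : Tre :=
  (.N [0,-2,1] (-1) ⟨0,[(2,0)]⟩ ⟨0,[(0,0)]⟩ (.x 1 ⟨0,[(1,0)]⟩ ⟨1,[(13,1),(0,1),(0,0),(0,0),(7,1),(6,
  1)]⟩))

theorem ok92 : chk K t92 l155 = true := by decide +kernel

noncomputable def t93 : Tre :=
  (.N [0,1,2] 0 ⟨0,[(1,0)]⟩ ⟨0,[(0,0)]⟩ (.x (-1) ⟨1,[(7,0),(2,0),(2,3),(1,1),(5,0),(5,1)]⟩ ⟨0,[(1,
  0),(3,0),(11,0),(0,0),(1,0),(1,0)]⟩))

theorem ok93 : chk K t93 l156 = true := by decide +kernel

open Helper55.PC in
noncomputable def t94n : Helper55.PC.Ten :=
  (r
  7924517934957755369641975391090433191802779308394007015765070851169317267756002011853309041605083840739982030957651181085015245908160503165237082053287268342309486541647242919286894645757386384854844537064361473338940397622713862679388622175115910365647058281842220040525990957898723748114389438543688319384614622670375832710128769003365975116249775065061488762431163590543496836999026441685008503184311235765736760853827835508180756880955760871914768788268816270157040686916217337437574558187569378282897032049108575961009451621301914952260857849514419454434146477470131514626625025080359984189891236755994186126006838212707528311064685081925661540773594175307194795025633)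

noncomputable def t94 : Tre := Helper55.PC.toT t94n

theorem ok94 : chk K t94 l158 = true :=
  Helper55.PC.chkN_sound K t94n l158 (by decide +kernel)

open Helper55.PC in
noncomputable def t95n : Helper55.PC.Ten :=
  (r
  1085509539876297912514029623595687925854518315467176428505761695626243139177012761341459569561937108130802116472052645046288075011006753604716272802833341615830584426256912617724454386673584682637614800638128166590749080329120239282118144089135119622407400221695326359387129752946036345489261098203020064921730494339837530918611178829548558151675969472877029094545817941252043768322552965864235553862643960382975951960251886967252081454565923524855770884237616359621227189603394177)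

noncomputable def t95 : Tre := Helper55.PC.toT t95n

theorem ok95 : chk K t95 l160 = true :=
  Helper55.PC.chkN_sound K t95n l160 (by decide +kernel)

open Helper55.PC in
noncomputable def t96n : Helper55.PC.Ten :=
  (r
  3706380880311250794796931201887125654404997281848413482080163748607656249012795234233985846968113879067139924976006462868097174238762835370601898623369126182507188180685378857938724429416552147144876261090097741917205699805288135321949145362654558862499514743547297434424243376998645431466104354363415944454289005464375670396809225376516434596476930715727216621378045771710251235453148988878154067110683715851097655610949159941396316625307446896928098516065189140385313728104101547293409342523724784300815775279154409808741391753356338264868427637894696174906305193266758845349843518367766033893849549120520818648605778112)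

noncomputable def t96 : Tre := Helper55.PC.toT t96n

theorem ok96 : chk K t96 l162 = true :=
  Helper55.PC.chkN_sound K t96n l162 (by decide +kernel)

noncomputable def t97 : Tre :=
  (.N [0,-2,1] (-1) ⟨0,[(0,0)]⟩ ⟨0,[(2,0)]⟩ (.x 1 ⟨0,[(1,0)]⟩ ⟨1,[(12,1),(0,1),(0,0),(0,0),(7,1),(6,
  1)]⟩))

theorem ok97 : chk K t97 l164 = true := by decide +kernel

open Helper55.PC in
noncomputable def t98n : Helper55.PC.Ten :=
  (r
  8002232484038264139622517023226996435113030198588171770090236298000821821804135248262725227701268810941381489237350912108348330258678647623503025517187127670560499236881813362767044673938718247991920018460226385148782480291544333963268473402539986974043847180938940946685414843573339205654385154799397027204259712580932598639015404702743397250786675170654844599468649116908307248414707062051280447506873510534579322609963300691374828979566509147221493538613309231123712138847011699701707512741208163719840348981322444330584021331483125783191744)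

noncomputable def t98 : Tre := Helper55.PC.toT t98n

theorem ok98 : chk K t98 l165 = true :=
  Helper55.PC.chkN_sound K t98n l165 (by decide +kernel)

open Helper55.PC in
noncomputable def t99n : Helper55.PC.Ten :=
  (r
  1215770525649035296921707071229798033338084609687832492255225023286824296213951266545323672597489106792650275691932493293559628799348076362327452995173413688699059962353232640952581681525566247950528040613745948269986971393227791339112484036095435393785194768527019415330635411084874355413562963429404799841418110866842074251883550420556828800733099970211573033616121921935040546240057604879336622876960823699289232252695792503723952165143718821800906343880568747371930859215774337)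

noncomputable def t99 : Tre := Helper55.PC.toT t99n

theorem ok99 : chk K t99 l166 = true :=
  Helper55.PC.chkN_sound K t99n l166 (by decide +kernel)

open Helper55.PC in
noncomputable def t100n : Helper55.PC.Ten :=
  (r
  281100300498083633573557462319005646478633923904412886908860577243586124200322797997942845162392353906615585515127382187471941918111493120404540645297863100741679082989192613063105149516555514662476906937223409370711806002642722957609301948378890925886436885110971350419726040832896269178454006078703109624815097514461438883427501056766251106082605672240763488514978438077283750684658210232679438877263547110496512245987112623809229507763688306591969910973322825823914860613253193057105277084289)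

noncomputable def t100 : Tre := Helper55.PC.toT t100n

theorem ok100 : chk K t100 l167 = true :=
  Helper55.PC.chkN_sound K t100n l167 (by decide +kernel)

open Helper55.PC in
noncomputable def t101n : Helper55.PC.Ten :=
  (r
  1471439110442852903352920434556847122954113004827837524863591326496400822848628870609348755009686450134819758611610667871083002580464118968738833783811285266880843220490013451542175311722615682646017480060716577623131146678983729372736721998538572254486346279402447218213780359566172764429979237766688391809831440519295744130145404029760005615931485136224069721254512484168828518180891021755749047895845871255856724949960980106629310342683730412768253358021657965259232493285228682025069165038226435402115244011625822005376208431655035945969754051477229708301908034805400302831314577664286842659337974010583382671636896076186563531870296081454464386792210540136946308730693594721315213464923225710785)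

noncomputable def t101 : Tre := Helper55.PC.toT t101n

theorem ok101 : chk K t101 l169 = true :=
  Helper55.PC.chkN_sound K t101n l169 (by decide +kernel)

open Helper55.PC in
noncomputable def t102n : Helper55.PC.Ten :=
  (s
  125336541006655298173212811698183151980704236643825675276928353943145499923386759289248165943456039773862686881840224459228531295558117151901196415234786894087032688646889994826726445021383912159620853554406504723974758099287154422230076393631631673327525085615342905789073601530002251891382119575826044212601926090749926581247419697628827072456355200624485022579254236791951998306074450991118563838130583706419724473821444586130025072225893380445168816338706104833)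

noncomputable def t102 : Tre := Helper55.PC.toT t102n

theorem ok102 : chk K t102 l171 = true :=
  Helper55.PC.chkN_sound K t102n l171 (by decide +kernel)

noncomputable def t103 : Tre :=
  (.N [0,3,1] 1 ⟨0,[(1,0)]⟩ ⟨0,[(0,0)]⟩ (.x (-2) ⟨1,[(14,2),(2,0),(2,1),(7,2),(5,1)]⟩ ⟨1,[(1,1),(10,
  0),(11,0),(0,0),(1,5),(1,0),(1,4)]⟩))

theorem ok103 : chk K t103 l173 = true := by decide +kernel

open Helper55.PC in
noncomputable def t104n : Helper55.PC.Ten :=
  (s
  11544444021359887365103644117569641349948512397567378813113797494076271220209858144309834260658287939728464623701868600099261602782187510417704207963280485771294332152040441050039527432651531696775196742312600891712097813580053390892711928720398791392055931823211946353051691377879638661334138618349863321862564045961815951543405360076015597166677306335602941442461777784959526787210712982526548059742179437720639513)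

noncomputable def t104 : Tre := Helper55.PC.toT t104n

theorem ok104 : chk K t104 l175 = true :=
  Helper55.PC.chkN_sound K t104n l175 (by decide +kernel)

noncomputable def t105 : Tre :=
  (.N [0,-2,1] (-1) ⟨0,[(0,0)]⟩ ⟨0,[(1,0)]⟩ (.x 0 ⟨5,[(4,1),(12,1),(1,4),(0,5),(0,2),(9,11)]⟩ ⟨0,
  [(6,0),(8,0)]⟩))

theorem ok105 : chk K t105 l177 = true := by decide +kernel

open Helper55.PC in
noncomputable def t106n : Helper55.PC.Ten :=
  (r
  7924638847232409715286833546185640416942141099030251015247816605416025187654862053149657756011422223078814974858622014289364613027973846458197189127674712508221454662496274878912489574740809783739376491508660417445784245882396135779951499633505764709967277284366866984027164012118501685203197808118130273480409047905709007909801983354624588711170307982841007600806506990539537201270307376910231944952562957499578820046018150503808469927872730717694615986088085773177956228564906897471020255453467070878218364837753661068516505526441318292157066328496801893875910733552700822452016228093337542279493402659772880127116820610264645326306455894414621773139927299060291117769953)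

noncomputable def t106 : Tre := Helper55.PC.toT t106n

theorem ok106 : chk K t106 l178 = true :=
  Helper55.PC.chkN_sound K t106n l178 (by decide +kernel)

noncomputable def t107 : Tre :=
  (.N [0,3,1] 1 ⟨0,[(1,0)]⟩ ⟨0,[(0,0)]⟩ (.x (-2) ⟨1,[(16,2),(2,0),(2,1),(7,2),(5,1)]⟩ ⟨1,[(1,1),(3,
  2),(8,0),(11,3),(0,0),(3,0),(1,4)]⟩))

theorem ok107 : chk K t107 l180 = true := by decide +kernel

noncomputable def t108 : Tre :=
  (.K ⟨0,[0,1,1],0,0,(⟨0,[(14,0),(5,0)]⟩,⟨0,[(1,0)]⟩),.k,.k,(.r 0 ⟨5,[(2,1),(5,2),(1,0),(11,7)]⟩ ⟨0,
  [(12,0),(3,0),(12,0)]⟩),.k,.k,[⟨0,[(16,0)]⟩,⟨0,[(23,0)]⟩,⟨1,[(8,0),(1,2)]⟩,⟨0,[(16,0),(1,0)]⟩,⟨0,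
  [(0,0)]⟩]⟩)

theorem ok108 : chk K t108 l181 = true := by decide +kernel

open Helper55.PC in
noncomputable def t109n : Helper55.PC.Ten :=
  (q
  3966337077511278910374214480905786319553833302439637784755874218668470565228016906290781229029810450364141851684999780237322
  (r
  219620999664958572312843062797900103327273678173746622283843116717982817737396055729327300752122899505712851351189506661025485196736225887221921976366250761470702280486046736073076798945960616330597850156360758884400885693762158792892562041837043444423682338870299449347199185744790791321465822117083369408580303599814407826010857979468577991303295998754837365451386086703096838536473473507565479938501998392294262836754026861602055517253129938148423573916982642945436353949888101442962225811778327169875627674552828924280220219101052195335962745125584953860916306530634114540257)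
  (q 565643761237723089627590353442680609581661236374045857729871882 (r
  100461873813599757144864109888577019092174891644271096513736417737645109575912618366117419386473581912697910269238437408830675790793031326043379619826061343806678183859898684110115592482451335483821297418029532203819603668988430208021006984931326456879666712461868242843585472344574664087317540774491127523136794429711168683432016691334567226110013122575387384669788670062149944176468316388523738886161020541782997026618594764883706976222854318932785217337020428333336486835806780752754940650699058837533037838488162956640219897302855058031155689671029751398058374286469395724252486041778619952650772672)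
  (r
  199848096883084103867242840514621814626059800658578687876989560995519815711437899446762478399968179074368615338255763411650091698197046182973803651036082460337734166110055031467303290599775159195264207507792959371809873131009941820238583711065778681370034343990656607209380036226060754909257772823067421894588595540064816200033273427658009237621478064141011952281345575815190205970406788440832138417359535074790523954155602658594915705112783270568164619684320945810861357954754145969841916518510957004624346137590393487819532749705341461485344710646061162499785484350784357629017522179551852833552578017544967216851036014996648807949227190525352645799060353899788050492313892639016259150017)))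

noncomputable def t109 : Tre := Helper55.PC.toT t109n

theorem ok109 : chk K t109 l182 = true :=
  Helper55.PC.chkN_sound K t109n l182 (by decide +kernel)

open Helper55.PC in
noncomputable def t110n : Helper55.PC.Ten :=
  (r
  5302815638366052180343089835926709618931088195482771576643458993099947925739643095035004651021390479084049925012868841184324860736966165909242824956079729070804967024327246678831661428130796805770098827267463955377656494845551804610811471007918330702405312691624955904372431364234843269424379146470648763102484930508387873912602738820383131619118640638647105124347793866682773918217981421964552200088591333289712458149189950967858341112128571307684846026072233794863503032822774033707180964141178063892418642230543748400791535546951561634433)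

noncomputable def t110 : Tre := Helper55.PC.toT t110n

theorem ok110 : chk K t110 l183 = true :=
  Helper55.PC.chkN_sound K t110n l183 (by decide +kernel)

open Helper55.PC in
noncomputable def t111n : Helper55.PC.Ten :=
  (r
  17400168253110025680469560867143109674719413394063288531235557395605840896285491270409618023353150554632454826173871321749823725917088450900468442915341671580257816121863012031000403645033646565246059106736644109558909548675596431013602733156594611342226150935944237815742264481061535981892996294326322500663372098929841298337416819067889877679993021586674307039817498896860836632731793631115695167986664881791788592749732613606541190552148976353502749113619680725279022123704405421059938905820720656314116983634875785837876734291998251577848647495149572660638164305777995133844854074498623010091341776167649)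

noncomputable def t111 : Tre := Helper55.PC.toT t111n

theorem ok111 : chk K t111 l185 = true :=
  Helper55.PC.chkN_sound K t111n l185 (by decide +kernel)

open Helper55.PC in
noncomputable def t112n : Helper55.PC.Ten :=
  (r
  73625055574538351754975598343776533096717770013069571656773406413138972270142307168122319832624586047153183738632924464053898157361264621872711142210027476264085156897430178617721446660546235446876596313273547001170432655813990194135152351310608476130694951311628375595280453308475237475830497008612345027619058079941833714131981795027977516361548296610558064551497174210430061824378198144355381672330108612141583168377042732153117287311761006072687898321232621483643996833155124688100501236183171547746551056608651945538366536034869121281843493096383147620363478011816333143835314829516930571609990951302618381976989940710937207521)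

noncomputable def t112 : Tre := Helper55.PC.toT t112n

theorem ok112 : chk K t112 l188 = true :=
  Helper55.PC.chkN_sound K t112n l188 (by decide +kernel)

open Helper55.PC in
noncomputable def t113n : Helper55.PC.Ten :=
  (r
  10006068810085240180578073913911840193753867997711399726533451689574670871297974371115239699817090837487567540232281204687131026434066695954998427298029671577538866859452069836946578272025899709983068467875938508527920888904161844985264650848269688114732321905285310902989246461123036869693599849782375257967850865384079155432457048442672826767737071210038819185943108515674278268115489238020693565331507721367798995667378332595899667191881721852698246290311578102416840319794862709832764379971631952379899952622783211369654707807576585267006090716280463875535679950635291345731028183755568357599806216462542885937726615026561851569673691292124089154473404159826668474023600084112900360277424005539795858644633934317501633987142294835311259219369305786015937)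

noncomputable def t113 : Tre := Helper55.PC.toT t113n

theorem ok113 : chk K t113 l190 = true :=
  Helper55.PC.chkN_sound K t113n l190 (by decide +kernel)

noncomputable def t114 : Tre :=
  (.N [0,-2,1] (-1) ⟨0,[(0,0)]⟩ ⟨0,[(5,0)]⟩ (.x 0 ⟨5,[(3,1),(0,0),(0,0),(10,1),(1,3),(0,5),(9,2),(0,
  11),(3,1)]⟩ ⟨0,[(2,0),(11,0)]⟩))

theorem ok114 : chk K t114 l191 = true := by decide +kernel

noncomputable def t115 : Tre :=
  (.N [0,-1,2] (-1) ⟨0,[(2,0)]⟩ ⟨0,[(0,0)]⟩ (.x 0 ⟨12,[(4,3),(0,0),(0,1),(10,2),(1,5),(0,25),(1,15),
  (8,12),(6,1)]⟩ ⟨1,[(3,0),(11,1),(5,1),(3,2)]⟩))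

theorem ok115 : chk K t115 l192 = true := by decide +kernel

noncomputable def t116 : Tre :=
  (.N [0,-1,2] (-1) ⟨0,[(1,0)]⟩ ⟨0,[(0,0)]⟩ (.x 0 ⟨0,[(2,0),(8,0),(6,0),(2,0)]⟩ ⟨0,[(14,0),(5,0),(3,
  0),(13,0)]⟩))

theorem ok116 : chk K t116 l194 = true := by decide +kernel

noncomputable def t117 : Tre :=
  (.N [0,-2,1] (-1) ⟨0,[(0,0)]⟩ ⟨0,[(7,0)]⟩ (.x 1 ⟨0,[(1,0)]⟩ ⟨9,[(11,1),(3,9),(0,5),(0,3),(0,4),(5,
  2),(1,9),(0,3),(2,3)]⟩))

theorem ok117 : chk K t117 l196 = true := by decide +kernel

open Helper55.PC in
noncomputable def t118n : Helper55.PC.Ten :=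
  (r
  76751135951420079750464114906064461067224973402591397007157670227473622431969481115834942327351690369074875225376588366472502347779051649516852150272175652994901474003591965995279353011453023537807299602844460772508251762282783958640563768943390570898579318935238964830736942832148961577484718556870389978644859209224452884882802113408441534986961435029727590710467108303321409155320412657955551236466003313536123395682728857897994716626936696235336412731334143659095684381012005024257260242967006874884084658697962176074734920532453244586287254779508883902149933213315514701777929771646348112360638378807356216365562318300933734883316820070622408519321077376868544)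

noncomputable def t118 : Tre := Helper55.PC.toT t118n

theorem ok118 : chk K t118 r193 = true :=
  Helper55.PC.chkN_sound K t118n r193 (by decide +kernel)

noncomputable def t119 : Tre :=
  (.N [0,-2,1] (-1) ⟨0,[(0,0)]⟩ ⟨0,[(3,0)]⟩ (.x 0 ⟨0,[(16,0),(0,0),(0,0),(0,0),(8,1)]⟩ ⟨0,[(1,0)]⟩))

theorem ok119 : chk K t119 l198 = true := by decide +kernel

open Helper55.PC in
noncomputable def t120n : Helper55.PC.Ten :=
  (s
  8845904454298440195661004909453549205058273706056117226459985711887320684942831134298519715372141391929808311648503970412283861663372282374493733831009927703717073344190671483855917302713362359292099201286874800336098835048145382906292390458313646465248438014492571705960923070162801581161860102018975568633583295870804242399348912387973504853249769528665293666244235687638070778204680241516738334703113279070144561000307471939362640658430404904323596736926417010295297)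

noncomputable def t120 : Tre := Helper55.PC.toT t120n

theorem ok120 : chk K t120 l200 = true :=
  Helper55.PC.chkN_sound K t120n l200 (by decide +kernel)

open Helper55.PC in
noncomputable def t121n : Helper55.PC.Ten :=
  (s
  21854211411951615975005338330630626127388190832042490449878799249372701349973541624159724555460712381398420013682650557788534925891144276795215749628251656164378031397583597073511696363813036235513863273634074072247693443135701037215092205740410903584949768539315140681282237729959437925391268245178648164431467151329093294641042195894669650365091789366345166097126431219110694594247118779269366869844756342666017383589250889023507371954750084124648252058411001572659266230926783601711129)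

noncomputable def t121 : Tre := Helper55.PC.toT t121n

theorem ok121 : chk K t121 l202 = true :=
  Helper55.PC.chkN_sound K t121n l202 (by decide +kernel)

noncomputable def t122 : Tre :=
  (.N [0,-2,1] (-1) ⟨0,[(1,0)]⟩ ⟨0,[(4,0)]⟩ (.x 1 ⟨0,[(0,0)]⟩ ⟨5,[(3,1),(8,5),(0,1),(0,1),(0,2),(5,
  2),(1,5),(3,3)]⟩))

theorem ok122 : chk K t122 l204 = true := by decide +kernel

noncomputable def t123 : Tre :=
  (.N [0,3] 1 ⟨0,[(1,0)]⟩ ⟨0,[(0,0)]⟩ (.x (-2) ⟨1,[(10,2),(2,0),(5,1),(4,0)]⟩ ⟨0,[(1,0),(21,2),(3,
  2)]⟩))

theorem ok123 : chk K t123 l206 = true := by decide +kernel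

noncomputable def t124 : Tre :=
  (.N [0,4,1] 1 ⟨0,[(1,0)]⟩ ⟨0,[(0,0)]⟩ (.x (-2) ⟨3,[(4,1),(4,3),(1,5),(2,0),(5,0),(4,5)]⟩ ⟨1,[(1,
  1),(3,0),(2,0),(9,0),(3,1),(1,5),(3,7)]⟩))

theorem ok124 : chk K t124 l208 = true := by decide +kernel

open Helper55.PC in
noncomputable def t125n : Helper55.PC.Ten :=
  (i 324399716250948976594437980422152 (r
  100023920069724266440948439211031444259233019701885476495660085116522717063784952789419788074317622323743600356885178587073937609313953577315850988465611060336988690067159076881488859691416194957893253116206683797205628957625478425613336611576589465452253450802131581960534818215863281939561249413744457759487729052435916138364617804008965820354015985317264773965311204185272490388934457836477560910781712792335307288572621652622401629140723463601909710356354126595895661029299352062344860312507289879096634592126558019255309616154262393685167905387007197517686085477537682817824294841691321627534867992970028613154544466183379246188543247901409)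
  (r
  28154230572134155164153535636021188724067714050485242500627611746831002437551228073244227311661547873695058350710179132774943972782758665324710294838907550092705737143768074081766232566200087954647391875442789219409020358312571351294106966231779854085181722435665444024797392605312192570443966052413885601379054203929605988215576793258720591081559751395347575274923702215341189832096499839229341538853202727727730917577147443952327223470573353472074166660867732537604356276893525057813694666188566159319073198349224379784619754512001290701956308164271216109060786869598169016881604456050302530443485727206247910464610498744122974663452316740078687448312046305))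

noncomputable def t125 : Tre := Helper55.PC.toT t125n

theorem ok125 : chk K t125 l212 = true :=
  Helper55.PC.chkN_sound K t125n l212 (by decide +kernel)

open Helper55.PC in
noncomputable def t126n : Helper55.PC.Ten :=
  (r
  27436235627242323222928528893051095632368810048349007510641687363994840550015852757114826193011532171518800399423889591872365882319661816694813035862538722872951941880008360391376514034696330069913568831697035337862704811913620623874722108283849133862416819500028639762557362464327699226785938940685242161355010429424822933701151148429436861380159589339739941161049909621407589245369815009556787696353750593875217182030698602676090844237203649572205284554277387909250140178890271900583878586148358045499150548802594656024325786411454494893924544)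

noncomputable def t126 : Tre := Helper55.PC.toT t126n

theorem ok126 : chk K t126 l214 = true :=
  Helper55.PC.chkN_sound K t126n l214 (by decide +kernel)

noncomputable def t127 : Tre :=
  (.N [0,-2,1] (-1) ⟨0,[(2,0)]⟩ ⟨0,[(0,0)]⟩ (.x 1 ⟨0,[(1,0)]⟩ ⟨9,[(8,1),(3,9),(0,5),(0,3),(0,4),(5,
  2),(1,9),(0,3),(2,3)]⟩))

theorem ok127 : chk K t127 l216 = true := by decide +kernel

open Helper55.PC in
noncomputable def t128n : Helper55.PC.Ten :=
  (r
  3284834952411961592391411229894664060620401375035138430944741970980774627295448926440331893695908772169618462577377109303604411683574335729160729633160493861847082075461360019654895495507340897790716104282018640723209497580800551166288798769544024582737831345945353321227906018791788486642944672488413858909853165614875025893007802181700757458686634216583335536864264869596106622129562842001207127446185531556409859932222489887184005381030451260184319767014048523500026039317955255790023949218656183363483230215048152089694794821877227400642367462583609848554260044949325337192597027147051583660224)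

noncomputable def t128 : Tre := Helper55.PC.toT t128n

theorem ok128 : chk K t128 l218 = true :=
  Helper55.PC.chkN_sound K t128n l218 (by decide +kernel)

noncomputable def t129 : Tre :=
  (.N [0,3] 1 ⟨0,[(1,0)]⟩ ⟨0,[(0,0)]⟩ (.x (-2) ⟨1,[(15,2),(2,0),(5,1),(4,0)]⟩ ⟨0,[(4,0),(17,0),(3,
  0),(5,0)]⟩))

theorem ok129 : chk K t129 l220 = true := by decide +kernel

open Helper55.PC in
noncomputable def t130n : Helper55.PC.Ten :=
  (r
  764810236266805229799684889124395339894201926662386029713028569468477421276143036419603017553665855007622964348964651418757720776734486159207469232650588700046549103097375486897047491629454516291319416901566703040900057549774775087434984457107266546864488941138925338449866049641694055554211296254865326664842005263752077215585811571614061821877638394148865606837036290577637642186498931143713911866346730747355581245436912841904909671524178995793759768599189939792274040942535562391864124037943823114848516465874424225114005343491937412491959018422669111158190226252115736459207827513536)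

noncomputable def t130 : Tre := Helper55.PC.toT t130n

theorem ok130 : chk K t130 l223 = true :=
  Helper55.PC.chkN_sound K t130n l223 (by decide +kernel)

noncomputable def t131 : Tre :=
  (.N [0,-2,1] (-1) ⟨0,[(3,0)]⟩ ⟨0,[(1,0)]⟩ (.x 0 ⟨1,[(6,1),(11,2),(1,0)]⟩ ⟨0,[(0,0)]⟩))

theorem ok131 : chk K t131 l224 = true := by decide +kernel

open Helper55.PC in
noncomputable def t132n : Helper55.PC.Ten :=
  (r
  242630301808329636939988426798407738879322124969592412760467405059852036685851385110290662055268754703287280027337290047087365070947420687808157001295227121688296988869953331321249847624206398626252883956137811728256244287572102231553278119318546509232212544358900466259570583763153237409356220757049126460032607531505073234646602962832500627149428758173616420451056934656312726216042685622190714026080128947388370481754388990046322949915447238959180717517976911063278209)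

noncomputable def t132 : Tre := Helper55.PC.toT t132n

theorem ok132 : chk K t132 l226 = true :=
  Helper55.PC.chkN_sound K t132n l226 (by decide +kernel)

open Helper55.PC in
noncomputable def t133n : Helper55.PC.Ten :=
  (r
  10114070825393919179498012605285190320953358984728776536378011943641627687708985742111856305408867624590705204284859068300250860033256220489786233044579290367346282995087926641049296209988003193125293144429107284651568715917227441691890308097776005303708237076055481605513205480844476372135455687158941819006515376870212841766491108959148103331701446341365806994770297108608234457163612889181390993022009605577216542879438103559412783711010496327675015310561093729861999120066478144917281549173704084501300589512470709216908152712904196101463119348255348339501288721158946514816196800)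

noncomputable def t133 : Tre := Helper55.PC.toT t133n

theorem ok133 : chk K t133 l228 = true :=
  Helper55.PC.chkN_sound K t133n l228 (by decide +kernel)

noncomputable def t134 : Tre :=
  (.N [0,-2,1] (-1) ⟨0,[(1,0)]⟩ ⟨0,[(2,0)]⟩ (.x 1 ⟨0,[(0,0)]⟩ ⟨9,[(7,1),(3,9),(0,5),(0,3),(0,4),(5,
  2),(1,9),(0,3),(2,3)]⟩))

theorem ok134 : chk K t134 l230 = true := by decide +kernel

open Helper55.PC in
noncomputable def t135n : Helper55.PC.Ten :=
  (r
  27436235627242323222928528893051095632368810048349007510641687363994840550015852757114826193011532171518800399416284102952822322187088395874062495782601931489087762852180823507688474640315741636601449317900221206115784065373535993729253653865302797296543868110600652855596353764183927376633963646045977038668164928843975867632735744678488359230726099305120898637433292651327195308935720010902439315845086582957491793562048747607415228327259635773643810281928216286935097906984499544152117300826123323210779412470622531390080813967740057110175936)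

noncomputable def t135 : Tre := Helper55.PC.toT t135n

theorem ok135 : chk K t135 l231 = true :=
  Helper55.PC.chkN_sound K t135n l231 (by decide +kernel)

open Helper55.PC in
noncomputable def t136n : Helper55.PC.Ten :=
  (r
  20825080360781216573641307243228723281251160523303962512108407557302973373173728059722861513138513823661332575915787519256481827866837052160327839068531831355763566986809929174320222362045744493959991963774348056654098158612985332272094524058034325830199755886018783536876259504497033332426606483923182765034803703058760410559517195813990164272219486273384389164732738249015931590524317548139773432724349191830977346893587954364963216199784593921805150759646059554956904266336345619687881456930775681)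

noncomputable def t136 : Tre := Helper55.PC.toT t136n

theorem ok136 : chk K t136 l232 = true :=
  Helper55.PC.chkN_sound K t136n l232 (by decide +kernel)

open Helper55.PC in
noncomputable def t137n : Helper55.PC.Ten :=
  (r
  54984704388209381402205188086528736725997363059947024776343913145881039555787551934787535264911433155413973498285526369857727766914566904966048836449578305831448382374035478339398244062016023443815078710410455739102794442008626629531897678336159659173713401285736996918808634109947884408581658413127875791943292843948009950608752193541561232310912189879060223957406106103747430495417246741779209643141911241331582060144513666435115201757059918945703533868334576043097043547464621269553447920506098294444103306987030278530332616524780945484454388088186385559009896182429881607131882471961747902715021594621504022806013678752435862542927138168258386205597889)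

noncomputable def t137 : Tre := Helper55.PC.toT t137n

theorem ok137 : chk K t137 l234 = true :=
  Helper55.PC.chkN_sound K t137n l234 (by decide +kernel)

noncomputable def t138 : Tre :=
  (.N [0,3] 1 ⟨0,[(1,0)]⟩ ⟨0,[(0,0)]⟩ (.x (-2) ⟨1,[(11,2),(2,0),(5,1),(4,0)]⟩ ⟨0,[(1,0),(22,2),(3,
  2)]⟩))

theorem ok138 : chk K t138 l236 = true := by decide +kernel

open Helper55.PC in
noncomputable def t139n : Helper55.PC.Ten :=
  (i 324399716250948832532032905150472 (r
  1524716657430086673622962398363714064407232760837446487870271816529883931956918335717819189940771915197995827072137091949740301207494571335688288120687737436865138348631153137203780446703356762328559567321858677020544175409557203716550595338608295547889064482502599409143629800680563333412607350026397284461773846620983567277403044145573032821926886377478092771338111469323434133943342420991361860624253587154159572921105507153019725410662253386071868275589878114220972689508316688679755835399526987903597660441475784671653619215661659267996727030481667676039799966181894850009578800428754639998040813832702626998227293667726287106862724005615312673764619117430877124567177320465162433)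
  (r
  34002317677303666350238464120500847218627624354969597459083174035127213710142552407881148539047746606631150485795030500656767717879858063767814709824110860338544122862611185600370050251293779478367039119590053961211571993335422373300965849112612293164024927146120673928366658867635317231640464748938274361198330785074632569194554632934881137741501816674563235928062518611344671166021564378726318508797254591677632178866064385884552846123672683975786302575735644661020709140650344903204747193171569622590155829321619193217548455819248227387128700121256241550986504366527695584565175315256735162165815196783463304146526747669058125011813534146985524932858531251513898853073989510413798733429418093560436957162595034115026698625217))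

noncomputable def t139 : Tre := Helper55.PC.toT t139n

theorem ok139 : chk K t139 l237 = true :=
  Helper55.PC.chkN_sound K t139n l237 (by decide +kernel)

open Helper55.PC in
noncomputable def t140n : Helper55.PC.Ten :=
  (r
  100025140971694649281082073099687960984506381058735087030866328612377846512301663559671596187727049976735936970242381686839780927374262632341343980670104309363333754506140569919460641914341216258998302759167192905736063691213809414537199513539585107807733566538977522830479821130183332864858234941416144670960603814218015719683471184912222383125004307671003266434662853365222177295502928753215064523571002557879280353866750846316765880709201516348839958486830543895645080355763737168586950635716375975779757348909590123241780828170022314343729501433532394449409216820875120905618053733424307195968437765521423252394591470191265716173940176184033)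

noncomputable def t140 : Tre := Helper55.PC.toT t140n

theorem ok140 : chk K t140 l242 = true :=
  Helper55.PC.chkN_sound K t140n l242 (by decide +kernel)

open Helper55.PC in
noncomputable def t141n : Helper55.PC.Ten :=
  (r
  28154488312149414792114603753451479305767966698941070587692492772496132566642646028009722920528331071797519149126993609066001629129795525707039203166526563092643199167443893385991513582648066352253397740161950945357933561132869250598987601008382421681570247695251600018713494911974917534240913595158366946978127171707154139658468725022064054666969346225338114638273178057036888648486924345891993374199381069870274389745503381350281710168708389768992204575639272982015531686738076771011862602763050620139491292195638511465024512202465967240510596132025592539884115569466881234255559723872553222321056647578540900960851542521277683024766524539111441907916202721)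

noncomputable def t141 : Tre := Helper55.PC.toT t141n

theorem ok141 : chk K t141 r241 = true :=
  Helper55.PC.chkN_sound K t141n r241 (by decide +kernel)

open Helper55.PC in
noncomputable def t142n : Helper55.PC.Ten :=
  (i 324399716250948976594437980422152 (r
  100025140971694649281082073099687960984506381058735087030866328612377846512301663559671596187727049976735936970234064131263980518292165484113640145527535592488086378852510967080701902600827883616918670882006437375840494865936063259662599096760487232087262695099650758644346200907600712036006575291519286165940040243416979142619942278107054862218344959875724321234621917198588981812465228126280330753129637122070050478976789839922052671114667606843108252482027658576654116209309012667279734574843773677489342709522737667678161455887693861109358978469379833403161560641211741005084102652693274215880400750917091244646413845874785140798296344486625)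
  (r
  28154574225487834668101626459261576166334717581759679950047453114384509276339785346264888123484140747137902845301399939248648845318290179836352395513262639494746227788650945648587391919425657415896916540129615766533373031982779342994670820717063845107489511415075272746536548971314543634699471292421894228147896111973544553939368699701027476413507415387964631539646792072355581841464491549845679399197976482028640903459292661530859050499106953291511739865764399843694700103769052311189958119797679999416103008907615168345842641986912893637990259447003978667085842513019716795863036971542519963740293974318174473145789417370581740251897189799294072734755840737))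

noncomputable def t142 : Tre := Helper55.PC.toT t142n

theorem ok142 : chk K t142 l243 = true :=
  Helper55.PC.chkN_sound K t142n l243 (by decide +kernel)

open Helper55.PC in
noncomputable def t143n : Helper55.PC.Ten :=
  (s
  455498640243201624450083864801566733587380474915566576313358449663276964933568521459715206532334465851817054929730725450069617891052036661691102627707923688289533518457956542055252949717464597136508074763579397678289671203007833226015579640477133877898136877250812270529105077235892633742639782023843512776199229159819372740957359051445307541799218847232388523425084833980468107067060320919102775382515318859559880333683632304132713459347720124655251768396151016700131672577)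

noncomputable def t143 : Tre := Helper55.PC.toT t143n

theorem ok143 : chk K t143 l245 = true :=
  Helper55.PC.chkN_sound K t143n l245 (by decide +kernel)

open Helper55.PC in
noncomputable def t144n : Helper55.PC.Ten :=
  (r
  19223152982555344864464876981435143792166222065767722808342193712591431281453107744783148654852809608093320650303905457024090481922655525052799464819315288878615923737310989617169234710178829247490591740903582447709469953303639573398305658403250421464330638747576749950865682004394808579270625615559065304611267876674950213587274302669557380053493978263652807193731166802317722109371879747274773352437624392941266222074319536254245963261793074935041757017010558898363414202458160628428829030310732417)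

noncomputable def t144 : Tre := Helper55.PC.toT t144n

theorem ok144 : chk K t144 l246 = true :=
  Helper55.PC.chkN_sound K t144n l246 (by decide +kernel)

open Helper55.PC in
noncomputable def t145n : Helper55.PC.Ten :=
  (s
  12959494595645350182945864619156948916228063726526118333184018124281591829352908375475270749266025307761213250892831572822324826704986051608558548910935625213283307047489420942463171590121808126031427120088478113341996306404098496698429013644250699033516348506582524805521375415183118670232449444925801991525333262074139536939715590451165969927362643037924652196369054669017814589712857220920610584365900060217634445115408629394813786789913)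

noncomputable def t145 : Tre := Helper55.PC.toT t145n

theorem ok145 : chk K t145 l248 = true :=
  Helper55.PC.chkN_sound K t145n l248 (by decide +kernel)

noncomputable def t146 : Tre :=
  (.N [0,-2,1] (-1) ⟨0,[(1,0)]⟩ ⟨0,[(0,0)]⟩ (.x 0 ⟨5,[(7,1),(10,1),(1,4),(0,5),(0,2),(9,11)]⟩ ⟨0,
  [(8,0),(7,0)]⟩))

theorem ok146 : chk K t146 l252 = true := by decide +kernel

open Helper55.PC in
noncomputable def t147n : Helper55.PC.Ten :=
  (r
  1845149437274664102794079231730107671345117223151003151548899249236296512027627617175156721542459371281404729268591101624155458023489891823509940230763955291662243412505824932425427756586417344206083292277565868812415663476489653233270054407623130185630704802143215171418913520682369806984195190973542514451217987950825386351658691225414864345276797911950514271966414377855696879621540289084430314017624350669531402157839951316100285248064083764788648216895423841730791171099921090154793990196201729606040983603839189072097398373723693686483453658676324628422484766139927723223406827268300979781646400822881408252038630396402079675692513999692132396147241568166625)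

noncomputable def t147 : Tre := Helper55.PC.toT t147n

theorem ok147 : chk K t147 l254 = true :=
  Helper55.PC.chkN_sound K t147n l254 (by decide +kernel)

open Helper55.PC in
noncomputable def t148n : Helper55.PC.Ten :=
  (r
  120923344526253583093032138288800541146547135269739087028394692986162371361565304082529400573234217928232187107143576556005356794113157196064275693317942905334334811393412087452032010990146062718860593528417311727253061234400421982893968637918604812784105148701263075509508221844488608448096011535645656305106453554238290393763602266576782266231648634966926536384481652385655583618084431461937089485794096115064915885903423330249749257465776899724523376855302424170530601127940966984680280779699700914122923238337404989866060062897036646152409381368823380455930485351200886788504460624319435261989703365271438255084557251408546411937509346746923138707512511589124924129)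

noncomputable def t148 : Tre := Helper55.PC.toT t148n

theorem ok148 : chk K t148 r253 = true :=
  Helper55.PC.chkN_sound K t148n r253 (by decide +kernel)

open Helper55.PC in
noncomputable def t149n : Helper55.PC.Ten :=
  (r
  2230635182256868158412338896558937542191408746083805916720451513377760521402106578693857850102058478172135893775411066113343997067617871716453574159479457040877545084250983255843175787721404470036464361595628485103028181945817833413551637119496028524693327781907587216115159035122005278230743015773841078561538340286048946237838453100832143868546271975847268296746156166827567537203285968420172242809654675522389648910679414515476709087841735434307775681826968545641835117333888563881445033814620134077022928404787802463959283791112149269822308092371283594185599729948716351002820258067705888775004849746898724489111629300261265350077196510239586440887319609786573900673247241926424126177)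

noncomputable def t149 : Tre := Helper55.PC.toT t149n

theorem ok149 : chk K t149 l255 = true :=
  Helper55.PC.chkN_sound K t149n l255 (by decide +kernel)

noncomputable def t150 : Tre :=
  (.N [0,-2,1] (-1) ⟨0,[(0,0)]⟩ ⟨0,[(1,0)]⟩ (.x 0 ⟨5,[(7,1),(10,1),(1,4),(0,5),(0,2),(9,11)]⟩ ⟨0,
  [(8,0),(7,0)]⟩))

theorem ok150 : chk K t150 l257 = true := by decide +kernel

noncomputable def t151 : Tre :=
  (.N [0,3,1] 1 ⟨0,[(0,0)]⟩ ⟨0,[(1,0)]⟩ (.x (-2) ⟨1,[(5,1),(11,0),(2,0),(5,1),(4,0),(5,1)]⟩ ⟨3,[(0,
  3),(7,4),(5,1),(12,4),(0,3),(3,1),(1,11)]⟩))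

theorem ok151 : chk K t151 l259 = true := by decide +kernel

noncomputable def t152 : Tre :=
  (.N [0,-2,1] (-1) ⟨0,[(0,0)]⟩ ⟨0,[(1,0)]⟩ (.x 0 ⟨5,[(6,1),(10,1),(1,4),(0,5),(0,2),(9,11)]⟩ ⟨0,
  [(7,0),(7,0)]⟩))

theorem ok152 : chk K t152 l261 = true := by decide +kernel

open Helper55.PC in
noncomputable def t153n : Helper55.PC.Ten :=
  (r
  27258547638861589048980975529635245456228122406701874207380389304341981628045362410071556957409589126565732939190827660243205766010537697302959682514070042066963037008784253717873623563643826459964849442706710541199244068673530500549496476992641010770617598933738534416625032425013812912071414096270111058187638052856959306292050738629361787504612049890641790803197218476165851207241461249817303016943068776393010733271733807327737537152)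

noncomputable def t153 : Tre := Helper55.PC.toT t153n

theorem ok153 : chk K t153 r103 = true :=
  Helper55.PC.chkN_sound K t153n r103 (by decide +kernel)

theorem cl0 : Clo K (Helper55.TR.GK 1 Helper55.TR.BrV) l9 :=
  .i [n1,n0,n1,n1,m1,n0,n0,m2] (e' := [n0,n0,m1,m1,n1,n0,n0,n2]) (by decide +kernel) (by decide +kernel) (.t t5
  ok5) (.h (Helper55.TR.GK.v Helper55.CD.Dm1_1_c0v_0.g 116472413600195232576055215624435399453197085476857894872083563303399063708462790010634405651174878474911299376160738972273666 (by decide +kernel)))

theorem cl1 : Clo K (Helper55.TR.GK 1 Helper55.TR.BrV) r8 :=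
  .i [n1,n0,m1,m1,n1,n0,n0,n2] (e' := [n0,n0,n1,n1,m1,n0,n0,m2]) (by decide +kernel) (by decide +kernel) cl0
  (.t t6 ok6)

theorem cl2 : Clo K (Helper55.TR.GK 1 Helper55.TR.BrV) r7 :=
  .i [n0,n1,m2,m2,n1,n0,n0,n1] (e' := [n1,m1,n2,n2,m1,n0,n0,m1]) (by decide +kernel) (by decide +kernel) (.t
  t4 ok4) cl1

theorem cl3 : Clo K (Helper55.TR.GK 1 Helper55.TR.BrV) l6 :=
  .q [n0,n0,n0,m2,n0,n0,n1,n1,n0,n1] (e' := [n0,n0,n0,n2,n0,n0,m1,m1,n0,m1]) (.p true [0,0,1] [] (⟨0,[(16,0)]⟩,⟨0,
  [(11,0)]⟩) .k 0 (⟨0,[]⟩,⟨0,[]⟩) .k .k) (by decide +kernel) (by decide +kernel) (.t t3 ok3) cl2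

theorem cl4 : Clo K (Helper55.TR.GK 1 Helper55.TR.BrV) r13 :=
  .i [n0,n0,n2,n2,m1,n0,n0,m1] (e' := [n1,n0,m2,m2,n1,n0,n0,n1]) (by decide +kernel) (by decide +kernel) (.t t9
  ok9) (.h (Helper55.TR.GK.v Helper55.CD.Dm1_1_c0v_1.g 143623705442856697266246729452682409115934706457251430374402647118882059802924568049041605016150474579411547545904767662663142402 (by decide +kernel)))

theorem cl5 : Clo K (Helper55.TR.GK 1 Helper55.TR.BrV) l12 :=
  .i [n0,n0,n2,n0,m1,n2,n1] (e' := [n1,n0,m2,n0,n1,m2,m1]) (by decide +kernel) (by decide +kernel) (.t t8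
  ok8) cl4

theorem cl6 : Clo K (Helper55.TR.GK 1 Helper55.TR.BrV) l20 :=
  .q [n0,n0,m2,n0,n1,n0,m1,n0,n1,m1] (e' := [n0,n0,n2,n0,m1,n0,n1,n0,m1,n1]) (.p false [0,0,1] [1] (⟨0,[(24,0)]⟩,
  ⟨0,[(19,0)]⟩) .k 1 (⟨0,[]⟩,⟨0,[]⟩) .k .k) (by decide +kernel) (by decide +kernel) (.t t13 ok13)
  (.h (Helper55.TR.GK.v Helper55.CD.Dm1_1_c0v_2.g 39904419442311277661553975361564972435737809199198862524308974672765938027286815886117885239320606053326758025626431448777643676142594 (by decide +kernel)))

theorem cl7 : Clo K (Helper55.TR.GK 1 Helper55.TR.BrV) l22 :=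
  .q [n0,m1,m2,n0,n1,n0,m2,m1,n1,m2] (e' := [n0,n1,n2,n0,m1,n0,n2,n1,m1,n2]) (.p false [0,0,1] [1,0,-1] (⟨0,[(25,
  0)]⟩,⟨0,[(20,0)]⟩) .k 2 (⟨0,[(20,0)]⟩,⟨0,[(25,0)]⟩) .k (.r (-1) ⟨0,[(23,0),(6,1)]⟩ ⟨0,[(42,1)]⟩))
  (by decide +kernel) (by decide +kernel) (.t t14 ok14) (.h (Helper55.TR.GK.v Helper55.CD.Dm1_1_c0v_3.g 177394239814500279184687457901206660867861550708872177917271932044087194671510940051965575948340608781958689480676368176087867104536038402 (by decide +kernel)))

theorem cl8 : Clo K (Helper55.TR.GK 1 Helper55.TR.BrV) l25 :=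
  .q [n0,n0,m2,n0,n1,n0,m1,n0,n1,m1] (e' := [n0,n0,n2,n0,m1,n0,n1,n0,m1,n1]) (.p false [0,0,1] [1] (⟨0,[(27,0)]⟩,
  ⟨0,[(22,0)]⟩) .k 1 (⟨0,[]⟩,⟨0,[]⟩) .k .k) (by decide +kernel) (by decide +kernel) (.t t16 ok16)
  (.h (Helper55.TR.GK.v (L := (r26).map (Helper11.CT.insC 8)) (Helper55.TR.GV.e Helper55.CD.Dm1_1_c0v_4.g 208002224891751594284910331278892810689934457583118732212762789447631038055717034520125183015267805130107432771379585012463119096288761216153669343239 (Or.inl rfl) (by decide +kernel)) 201400149323797856997934410001008294529084335740634857889803054137081938187947123657024991338546554769908941757489769474168380402204341359890451 (by decide +kernel)))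

theorem cl9 : Clo K (Helper55.TR.GK 1 Helper55.TR.BrV) r24 :=
  .i [n0,n1,m2,m2,n1,n0,n0,n1] (e' := [n1,m1,n2,n2,m1,n0,n0,m1]) (by decide +kernel) (by decide +kernel) cl8
  (.h (Helper55.TR.GK.v Helper55.CD.Dm1_1_c0v_5.g 162982399036155540789482729701164405093591609841990194898163243790119404209746892186513037142237434414416800139243987610737629640703085570 (by decide +kernel)))

theorem cl10 : Clo K (Helper55.TR.GK 1 Helper55.TR.BrV) r22 :=
  .i [n1,n0,n1,n1,m1,n0,n0,m2] (e' := [n0,n0,m1,m1,n1,n0,n0,n2]) (by decide +kernel) (by decide +kernel) (.t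
  t15 ok15) cl9

theorem cl11 : Clo K (Helper55.TR.GK 1 Helper55.TR.BrV) r20 :=
  .i [n0,n0,n1,n1,m1,n0,n0,m2] (e' := [n1,n0,m1,m1,n1,n0,n0,n2]) (by decide +kernel) (by decide +kernel) cl7
  cl10

theorem cl12 : Clo K (Helper55.TR.GK 1 Helper55.TR.BrV) l19 :=
  .i [n1,n1,m2,m1,n1,n0,n0,n1] (e' := [n0,m1,n2,n1,m1,n0,n0,m1]) (by decide +kernel) (by decide +kernel) cl6
  cl11

theorem cl13 : Clo K (Helper55.TR.GK 1 Helper55.TR.BrV) r18 :=
  .q [n0,n0,n0,n0,n0,m2,n0,n0,n0,n1] (e' := [n0,n0,n0,n0,n0,n2,n0,n0,n0,m1]) (.p true [0,0,1] [] (⟨0,[(22,0)]⟩,⟨0,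
  [(17,0)]⟩) .k 0 (⟨0,[]⟩,⟨0,[]⟩) .k .k) (by decide +kernel) (by decide +kernel) cl12 (.h (Helper55.TR.GK.v Helper55.CD.Dm1_1_c0v_6.g 144336012771411598060144424639951092044639583984821846981766794542395170806223949742067627598877628989438278578908133454832791981058 (by decide +kernel)))

theorem cl14 : Clo K (Helper55.TR.GK 1 Helper55.TR.BrV) r17 :=
  .i [n0,n1,m1,m2,n0,n0,n0,m1] (e' := [n1,m1,n1,n2,n0,n0,n0,n1]) (by decide +kernel) (by decide +kernel) (.t
  t12 ok12) cl13

theorem cl15 : Clo K (Helper55.TR.GK 1 Helper55.TR.BrV) l16 :=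
  .i [n1,n1,m1,m1,n0,n0,n0,m1] (e' := [n0,m1,n1,n1,n0,n0,n0,n1]) (by decide +kernel) (by decide +kernel) (.t
  t11 ok11) cl14

theorem cl16 : Clo K (Helper55.TR.GK 1 Helper55.TR.BrV) l28 :=
  .q [n0,n0,m2,n0,n1,n0,m1,n0,n1,m1] (e' := [n0,n0,n2,n0,m1,n0,n1,n0,m1,n1]) (.p false [0,0,1] [1] (⟨0,[(22,0)]⟩,
  ⟨0,[(17,0)]⟩) .k 1 (⟨0,[]⟩,⟨0,[]⟩) .k .k) (by decide +kernel) (by decide +kernel) (.t t17 ok17)
  (.h (Helper55.TR.GK.v Helper55.CD.Dm1_1_c0v_7.g 171681738935002272630480507188654394013386743376568828227347896826081067542526738253068539900083683805361371875288309783336675710856072194 (by decide +kernel)))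

theorem cl17 : Clo K (Helper55.TR.GK 1 Helper55.TR.BrV) l30 :=
  .i [n1,n0,n1,n1,m1,n0,n0,m2] (e' := [n0,n0,m1,m1,n1,n0,n0,n2]) (by decide +kernel) (by decide +kernel) (.t
  t18 ok18) (.h (Helper55.TR.GK.v Helper55.CD.Dm1_1_c0v_8.g 142957718160363573022307375925886012408656754631122087377882016548253701064044484943469263564527763826511362823985840843327179192600018029570 (by decide +kernel)))

theorem cl18 : Clo K (Helper55.TR.GK 1 Helper55.TR.BrV) r30 :=
  .q [n0,m1,m2,n0,n1,n0,m2,m1,n1,m2] (e' := [n0,n1,n2,n0,m1,n0,n2,n1,m1,n2]) (.p false [0,0,1] [1,0,-1] (⟨0,[(23,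
  0)]⟩,⟨0,[(18,0)]⟩) .k 2 (⟨0,[(18,0)]⟩,⟨0,[(23,0)]⟩) .k (.r (-1) ⟨0,[(21,0),(6,1)]⟩ ⟨0,[(40,1)]⟩))
  (by decide +kernel) (by decide +kernel) (.t t19 ok19) (.h (Helper55.TR.GK.v Helper55.CD.Dm1_1_c0v_9.g 154257367680033372901148083287616569717930908551996424340471169259847363083469503218392253629851667096790888978075818260962682982314805251 (by decide +kernel)))

theorem cl19 : Clo K (Helper55.TR.GK 1 Helper55.TR.BrV) r28 :=
  .i [n1,n0,m1,m1,n1,n0,n0,n2] (e' := [n0,n0,n1,n1,m1,n0,n0,m2]) (by decide +kernel) (by decide +kernel) cl17
  cl18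

theorem cl20 : Clo K (Helper55.TR.GK 1 Helper55.TR.BrV) l27 :=
  .i [n0,n1,m2,m2,n1,n0,n0,n1] (e' := [n1,m1,n2,n2,m1,n0,n0,m1]) (by decide +kernel) (by decide +kernel) cl16
  cl19

theorem cl21 : Clo K (Helper55.TR.GK 1 Helper55.TR.BrV) r16 :=
  .q [n0,n0,n0,n0,n0,m2,n0,n0,n0,n1] (e' := [n0,n0,n0,n0,n0,n2,n0,n0,n0,m1]) (.p true [0,0,1] [] (⟨0,[(20,0)]⟩,⟨0,
  [(15,0)]⟩) .k 0 (⟨0,[]⟩,⟨0,[]⟩) .k .k) (by decide +kernel) (by decide +kernel) cl20 (.h (Helper55.TR.GK.v Helper55.CD.Dm1_1_c0v_10.g 135527086792777887967471435589899093428697341881288521628572208627481187849866015410893011572280142070988502833167677213203499011 (by decide +kernel)))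

theorem cl22 : Clo K (Helper55.TR.GK 1 Helper55.TR.BrV) r15 :=
  .q [n0,n0,n0,n0,n0,m2,n0,n0,n1,m1] (e' := [n0,n0,n0,n0,n0,n2,n0,n0,m1,n1]) (.p false [0,0,1] [1] (⟨0,[(19,0)]⟩,⟨0,
  [(14,0)]⟩) .k 1 (⟨0,[]⟩,⟨0,[]⟩) .k .k) (by decide +kernel) (by decide +kernel) cl15 cl21

theorem cl23 : Clo K (Helper55.TR.GK 1 Helper55.TR.BrV) r12 :=
  .i [n0,n1,m2,n0,n1,n0,n0,n1] (e' := [n1,m1,n2,n0,m1,n0,n0,m1]) (by decide +kernel) (by decide +kernel) (.t
  t10 ok10) cl22

theorem cl24 : Clo K (Helper55.TR.GK 1 Helper55.TR.BrV) r11 :=
  .q [n0,n0,n0,m2,n0,n0,n1,n1,n0,n1] (e' := [n0,n0,n0,n2,n0,n0,m1,m1,n0,m1]) (.p true [0,0,1] [] (⟨0,[(17,0)]⟩,⟨0,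
  [(12,0)]⟩) .k 0 (⟨0,[]⟩,⟨0,[]⟩) .k .k) (by decide +kernel) (by decide +kernel) cl5 cl23

theorem cl25 : Clo K (Helper55.TR.GK 1 Helper55.TR.BrV) r6 :=
  .i [n0,n0,m2,m2,n1,n0,n0,n1] (e' := [n1,n0,n2,n2,m1,n0,n0,m1]) (by decide +kernel) (by decide +kernel) (.t t7
  ok7) cl24

theorem cl26 : Clo K (Helper55.TR.GK 1 Helper55.TR.BrV) r5 :=
  .i [n0,n0,m2,n0,n1,m2,m1] (e' := [n1,n0,n2,n0,m1,n2,n1]) (by decide +kernel) (by decide +kernel) cl3 cl25

theorem cl27 : Clo K (Helper55.TR.GK 1 Helper55.TR.BrV) l4 :=
  .i [n0,n1,m1,m1,n0,n0,n0,m1] (e' := [n1,m1,n1,n1,n0,n0,n0,n1]) (by decide +kernel) (by decide +kernel) (.t t2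
  ok2) cl26

theorem cl28 : Clo K (Helper55.TR.GK 1 Helper55.TR.BrV) r36 :=
  .i [n0,n0,m2,m2,n1,n0,n0,n1] (e' := [n1,n0,n2,n2,m1,n0,n0,m1]) (by decide +kernel) (by decide +kernel) (.t
  t23 ok23) (.h (Helper55.TR.GK.v Helper55.CD.Dm1_1_c0v_11.g 40465910899744344017433441595232833428172631413531466846808147402711715520119646681296604193379872212680289507068610563 (by decide +kernel)))

theorem cl29 : Clo K (Helper55.TR.GK 1 Helper55.TR.BrV) r35 :=
  .i [n0,n0,m2,n0,n1,m2,m1] (e' := [n1,n0,n2,n0,m1,n2,n1]) (by decide +kernel) (by decide +kernel) (.t t22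
  ok22) cl28

theorem cl30 : Clo K (Helper55.TR.GK 1 Helper55.TR.BrV) r34 :=
  .i [n0,n0,n2,n0,m1,n2,n1] (e' := [n1,n0,m2,n0,n1,m2,m1]) (by decide +kernel) (by decide +kernel) (.t t21
  ok21) cl29

theorem cl31 : Clo K (Helper55.TR.GK 1 Helper55.TR.BrV) l33 :=
  .i [n0,n0,n2,n2,m1,n0,n0,m1] (e' := [n1,n0,m2,m2,n1,n0,n0,n1]) (by decide +kernel) (by decide +kernel) (.t
  t20 ok20) cl30

theorem cl32 : Clo K (Helper55.TR.GK 1 Helper55.TR.BrV) l38 :=
  .q [n0,n0,m1,n0,n1,n0,m2,n0,n1,m2] (e' := [n0,n0,n1,n0,m1,n0,n2,n0,m1,n2]) (.p false [0,0,1] [1,0,-1] (⟨0,[(16,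
  0)]⟩,⟨0,[(11,0)]⟩) .k 2 (⟨0,[(11,0)]⟩,⟨0,[(16,0)]⟩) .k (.r (-1) ⟨0,[(14,0),(6,1)]⟩ ⟨0,[(33,1)]⟩))
  (by decide +kernel) (by decide +kernel) (.t t24 ok24) (.h (Helper55.TR.GK.v Helper55.CD.Dm1_1_c0v_12.g 27221005295235683182531371434354823971631783184197670945506960796689886857186387472001432292354 (by decide +kernel)))

theorem cl33 : Clo K (Helper55.TR.GK 1 Helper55.TR.BrV) l42 :=
  .q [n0,m1,n0,n1,n0,n0,m1,m1,n1,m1] (e' := [n0,n1,n0,m1,n0,n0,n1,n1,m1,n1]) (.p false [0,0,1] [1] (⟨0,[(19,0)]⟩,
  ⟨0,[(14,0)]⟩) .k 1 (⟨0,[]⟩,⟨0,[]⟩) .k .k) (by decide +kernel) (by decide +kernel) (.t t25 ok25)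
  (.h (Helper55.TR.GK.v Helper55.CD.Dm1_1_c0v_13.g 33690380153053659618171858143653798063263620428619634803450326057472541681917131426365688889898064032045679724107410704387 (by decide +kernel)))

theorem cl34 : Clo K (Helper55.TR.GK 1 Helper55.TR.BrV) l44 :=
  .q [n0,m1,m2,n0,n1,n0,m2,m1,n1,m2] (e' := [n0,n1,n2,n0,m1,n0,n2,n1,m1,n2]) (.p false [0,0,1] [1,0,-1] (⟨0,[(20,
  0)]⟩,⟨0,[(15,0)]⟩) .k 2 (⟨0,[(15,0)]⟩,⟨0,[(20,0)]⟩) .k (.r (-1) ⟨6,[(2,1),(1,3),(7,0),(0,3),(11,
  5)]⟩ ⟨0,[(37,1)]⟩)) (by decide +kernel) (by decide +kernel) (.t t26 ok26) (.h (Helper55.TR.GK.v Helper55.CD.Dm1_1_c0v_14.g 142932735690705491901512439218812065565115737337684222589067059327169438507189139389360161432547484311868345299273529974328322 (by decide +kernel)))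

theorem cl35 : Clo K (Helper55.TR.GK 1 Helper55.TR.BrV) r44 :=
  .q [n0,m1,m2,n0,n1,n0,m2,m1,n1,m2] (e' := [n0,n1,n2,n0,m1,n0,n2,n1,m1,n2]) (.p false [0,0,1] [1,0,-1] (⟨0,[(20,
  0)]⟩,⟨0,[(15,0)]⟩) .k 2 (⟨0,[(15,0)]⟩,⟨0,[(20,0)]⟩) .k (.r (-1) ⟨6,[(2,1),(1,3),(7,0),(0,3),(11,
  5)]⟩ ⟨0,[(37,1)]⟩)) (by decide +kernel) (by decide +kernel) (.t t27 ok27) (.h (Helper55.TR.GK.v Helper55.CD.Dm1_1_c0v_15.g 142883672987399560677244312107289624838038796229916977174722351848728165913070591541048896819427244131734779321600142023329795 (by decide +kernel)))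

theorem cl36 : Clo K (Helper55.TR.GK 1 Helper55.TR.BrV) r42 :=
  .q [n0,n0,n0,n0,n0,m2,n0,n0,n0,n1] (e' := [n0,n0,n0,n0,n0,n2,n0,n0,n0,m1]) (.p true [0,0,1] [] (⟨0,[(19,0)]⟩,⟨0,
  [(14,0)]⟩) .k 0 (⟨0,[]⟩,⟨0,[]⟩) .k .k) (by decide +kernel) (by decide +kernel) cl34 cl35

theorem cl37 : Clo K (Helper55.TR.GK 1 Helper55.TR.BrV) l41 :=
  .i [n0,n1,m1,m1,n0,n0,n0,m1] (e' := [n1,m1,n1,n1,n0,n0,n0,n1]) (by decide +kernel) (by decide +kernel) cl33
  cl36

theorem cl38 : Clo K (Helper55.TR.GK 1 Helper55.TR.BrV) l40 :=
  .q [n0,n0,m1,n0,n1,n0,m2,n0,n1,m2] (e' := [n0,n0,n1,n0,m1,n0,n2,n0,m1,n2]) (.p false [0,0,1] [1,0,-1] (⟨0,[(17,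
  0)]⟩,⟨0,[(12,0)]⟩) .k 2 (⟨0,[(12,0)]⟩,⟨0,[(17,0)]⟩) .k (.r (-1) ⟨0,[(1,0),(8,0),(2,0)]⟩ ⟨0,[(34,
  1)]⟩)) (by decide +kernel) (by decide +kernel) cl37 (.h (Helper55.TR.GK.v Helper55.CD.Dm1_1_c0v_16.g 37693705778073228875832024555405219144517706161913400157579564889324395824713389301438744725182844576558222338 (by decide +kernel)))

theorem cl39 : Clo K (Helper55.TR.GK 1 Helper55.TR.BrV) l49 :=
  .q [n0,n0,m2,n0,n1,n0,m1,n0,n1,m1] (e' := [n0,n0,n2,n0,m1,n0,n1,n0,m1,n1]) (.p false [0,0,1] [1] (⟨0,[(20,0)]⟩,
  ⟨0,[(15,0)]⟩) .k 1 (⟨0,[]⟩,⟨0,[]⟩) .k .k) (by decide +kernel) (by decide +kernel) (.t t29 ok29)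
  (.h (Helper55.TR.GK.v Helper55.CD.Dm1_1_c0v_17.g 32144126611807076145853518549768487447518507246990543283006274394020743690245610810778904669065731798851856819555330 (by decide +kernel)))

theorem cl40 : Clo K (Helper55.TR.GK 1 Helper55.TR.BrV) l52 :=
  .i [n0,n1,m1,m1,n0,n0,n0,m1] (e' := [n1,m1,n1,n1,n0,n0,n0,n1]) (by decide +kernel) (by decide +kernel) (.t
  t30 ok30) (.h (Helper55.TR.GK.v Helper55.CD.Dm1_1_c0v_18.g 133604002836679420653979064810765958804736040726048089897730383392988403413252187655159281972031522011015744695189681705579255750986754 (by decide +kernel)))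

theorem cl41 : Clo K (Helper55.TR.GK 1 Helper55.TR.BrV) l51 :=
  .q [n0,n0,m2,n0,n1,n0,m1,n0,n1,m1] (e' := [n0,n0,n2,n0,m1,n0,n1,n0,m1,n1]) (.p false [0,0,1] [1] (⟨0,[(21,0)]⟩,
  ⟨0,[(16,0)]⟩) .k 1 (⟨0,[]⟩,⟨0,[]⟩) .k .k) (by decide +kernel) (by decide +kernel) cl40 (.h
  (Helper55.TR.GK.v Helper55.CD.Dm1_1_c0v_19.g 116521442149899803924419665921349620506293139675664976229156752057001678193297591741017173825565933700099 (by decide +kernel)))

theorem cl42 : Clo K (Helper55.TR.GK 1 Helper55.TR.BrV) r49 :=
  .i [n0,n1,m2,m1,n1,n0,n0,n1] (e' := [n1,m1,n2,n1,m1,n0,n0,m1]) (by decide +kernel) (by decide +kernel) cl41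
  (.h (Helper55.TR.GK.v Helper55.CD.Dm1_1_c0v_20.g 147301755356184775176368824963608245526921798656971756419853760117508638497829608960152625714880415993673757005349004512258 (by decide +kernel)))

theorem cl43 : Clo K (Helper55.TR.GK 1 Helper55.TR.BrV) l48 :=
  .i [n0,n1,m1,n0,n0,n0,n0,m1] (e' := [n1,m1,n1,n0,n0,n0,n0,n1]) (by decide +kernel) (by decide +kernel) cl39
  cl42

theorem cl44 : Clo K (Helper55.TR.GK 1 Helper55.TR.BrV) l55 :=
  .i [n0,n1,m2,m2,n1,n0,n0,n1] (e' := [n1,m1,n2,n2,m1,n0,n0,m1]) (by decide +kernel) (by decide +kernel) (.t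
  t31 ok31) (.h (Helper55.TR.GK.v Helper55.CD.Dm1_1_c0v_21.g 153483841435700710207930108732440525903839616991981016463296550820956528393616771001245435996381177927137171049055035101023234 (by decide +kernel)))

theorem cl45 : Clo K (Helper55.TR.GK 1 Helper55.TR.BrV) l54 :=
  .q [n0,n0,m2,n0,n1,n0,m1,n0,n1,m1] (e' := [n0,n0,n2,n0,m1,n0,n1,n0,m1,n1]) (.p false [0,0,1] [1] (⟨0,[(20,0)]⟩,
  ⟨0,[(15,0)]⟩) .k 1 (⟨0,[]⟩,⟨0,[]⟩) .k .k) (by decide +kernel) (by decide +kernel) cl44 (.h
  (Helper55.TR.GK.v Helper55.CD.Dm1_1_c0v_22.g 113601046319222804149972662567179429531382265744050509670172999949273511053195980498657585436729191347326541047035595778 (by decide +kernel)))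

theorem cl46 : Clo K (Helper55.TR.GK 1 Helper55.TR.BrV) r54 :=
  .q [n0,n0,m2,n0,n1,n0,m1,n0,n1,m1] (e' := [n0,n0,n2,n0,m1,n0,n1,n0,m1,n1]) (.p false [0,0,1] [1] (⟨0,[(20,0)]⟩,
  ⟨0,[(15,0)]⟩) .k 1 (⟨0,[]⟩,⟨0,[]⟩) .k .k) (by decide +kernel) (by decide +kernel) (.t t32 ok32)
  (.h (Helper55.TR.GK.v Helper55.CD.Dm1_1_c0v_23.g 119116665174872798635690701911939629355077897274889767897796343744576587081926286811455034452126687161555105957755847137299458 (by decide +kernel)))

theorem cl47 : Clo K (Helper55.TR.GK 1 Helper55.TR.BrV) r48 :=
  .i [n1,m1,n2,n1,m1,n0,n0,m1] (e' := [n0,n1,m2,m1,n1,n0,n0,n1]) (by decide +kernel) (by decide +kernel) cl45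
  cl46

theorem cl48 : Clo K (Helper55.TR.GK 1 Helper55.TR.BrV) r47 :=
  .q [n0,n0,n0,n0,n0,n2,n0,n0,n0,m1] (e' := [n0,n0,n0,n0,n0,m2,n0,n0,n0,n1]) (.p false [0,0,1] [] (⟨0,[(18,0)]⟩,⟨0,
  [(13,0)]⟩) .k 0 (⟨0,[]⟩,⟨0,[]⟩) .k .k) (by decide +kernel) (by decide +kernel) cl43 cl47

theorem cl49 : Clo K (Helper55.TR.GK 1 Helper55.TR.BrV) r40 :=
  .i [n1,n0,n1,n1,m1,n0,n0,m2] (e' := [n0,n0,m1,m1,n1,n0,n0,n2]) (by decide +kernel) (by decide +kernel) (.t
  t28 ok28) cl48

theorem cl50 : Clo K (Helper55.TR.GK 1 Helper55.TR.BrV) r38 :=
  .i [n0,n0,n1,n1,m1,n0,n0,m2] (e' := [n1,n0,m1,m1,n1,n0,n0,n2]) (by decide +kernel) (by decide +kernel) cl38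
  cl49

theorem cl51 : Clo K (Helper55.TR.GK 1 Helper55.TR.BrV) r33 :=
  .i [n0,n1,n1,n0,m1,n0,n0,m1] (e' := [n1,m1,m1,n0,n1,n0,n0,n1]) (by decide +kernel) (by decide +kernel) cl32
  cl50

theorem cl52 : Clo K (Helper55.TR.GK 1 Helper55.TR.BrV) r4 :=
  .q [n0,n0,n0,m2,n0,n0,n1,n1,n0,n1] (e' := [n0,n0,n0,n2,n0,n0,m1,m1,n0,m1]) (.p true [0,0,1] [] (⟨0,[(14,0)]⟩,⟨0,
  [(9,0)]⟩) .k 0 (⟨0,[]⟩,⟨0,[]⟩) .k .k) (by decide +kernel) (by decide +kernel) cl31 cl51

theorem cl53 : Clo K (Helper55.TR.GK 1 Helper55.TR.BrV) r3 :=
  .q [n0,n0,n1,n0,n0,n0,m2,n0,n1,m2] (e' := [n0,n0,m1,n0,n0,n0,n2,n0,m1,n2]) (.p false [0,0,1] [1,0,-1] (⟨0,[(13,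
  0)]⟩,⟨0,[(8,0)]⟩) .k 2 (⟨0,[(8,0)]⟩,⟨0,[(13,0)]⟩) .k (.r (-1) ⟨0,[(11,0),(6,1)]⟩ ⟨0,[(30,1)]⟩))
  (by decide +kernel) (by decide +kernel) cl27 cl52

theorem cl54 : Clo K (Helper55.TR.GK 1 Helper55.TR.BrV) l2 :=
  .q [n0,n1,n0,n1,n0,n0,n1,n1,n0,n1] (e' := [n0,m1,n0,m1,n0,n0,m1,m1,n0,m1]) (.p true [0,0,1] [] (⟨0,[(12,0)]⟩,⟨0,
  [(7,0)]⟩) .k 0 (⟨0,[]⟩,⟨0,[]⟩) .k .k) (by decide +kernel) (by decide +kernel) (.t t1 ok1) cl53

theorem cl55 : Clo K (Helper55.TR.GK 1 Helper55.TR.BrV) l64 :=
  .q [n0,m1,n0,n0,n0,n0,m2,m1,n2,m2] (e' := [n0,n1,n0,n0,n0,n0,n2,n1,m2,n2]) (.p false [0,0,1] [2,-1,-1] (⟨0,[(19,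
  0)]⟩,⟨0,[(14,0)]⟩) .k 2 (⟨0,[(14,0),(22,0)]⟩,⟨0,[(7,0)]⟩) .k (.r (-1) ⟨0,[(17,0),(6,1)]⟩ ⟨5,[(0,
  3),(2,1),(9,2),(9,0),(5,0)]⟩)) (by decide +kernel) (by decide +kernel) (.t t37 ok37) (.h (Helper55.TR.GK.sub Helper55.CD.Dm1_1_c0v_24.g 115482590948787391104190089611657075449470680336595856006200392277995574621404324497860504143546982632103109214210 (by decide +kernel)))

theorem cl56 : Clo K (Helper55.TR.GK 1 Helper55.TR.BrV) l68 :=
  .i [n0,n1,m2,m2,n1,n0,n0,n1] (e' := [n1,m1,n2,n2,m1,n0,n0,m1]) (by decide +kernel) (by decide +kernel) (.t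
  t39 ok39) (.h (Helper55.TR.GK.v Helper55.CD.Dm1_1_c0v_25.g 146257460871968480222204308680480717399862524512898318708126550114852283254001825933454222911488028723929884768249926473126817794 (by decide +kernel)))

theorem cl57 : Clo K (Helper55.TR.GK 1 Helper55.TR.BrV) l67 :=
  .q [n0,n0,n0,n0,n0,m2,n0,n0,n0,n1] (e' := [n0,n0,n0,n0,n0,n2,n0,n0,n0,m1]) (.p true [0,0,1] [] (⟨0,[(21,0)]⟩,⟨0,
  [(16,0)]⟩) .k 0 (⟨0,[]⟩,⟨0,[]⟩) .k .k) (by decide +kernel) (by decide +kernel) cl56 (.h (Helper55.TR.GK.v Helper55.CD.Dm1_1_c0v_26.g 143629084289624990674774692477547142683239957264887365784293305667908296821402436907583866492164938761622228362428532294429966338 (by decide +kernel)))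

theorem cl58 : Clo K (Helper55.TR.GK 1 Helper55.TR.BrV) r66 :=
  .q [n0,n0,m2,n0,n1,n0,m1,n0,n1,m1] (e' := [n0,n0,n2,n0,m1,n0,n1,n0,m1,n1]) (.p false [0,0,1] [1] (⟨0,[(20,0)]⟩,
  ⟨0,[(15,0)]⟩) .k 1 (⟨0,[]⟩,⟨0,[]⟩) .k .k) (by decide +kernel) (by decide +kernel) cl57 (.h
  (Helper55.TR.GK.v Helper55.CD.Dm1_1_c0v_27.g 40480761300516909111256609073988009117518903697800170598622300246786135523272555709595594818704203015898618635680222210 (by decide +kernel)))

theorem cl59 : Clo K (Helper55.TR.GK 1 Helper55.TR.BrV) r64 :=
  .i [n1,n0,m1,m1,n0,n0,n0,m2] (e' := [n0,n0,n1,n1,n0,n0,n0,n2]) (by decide +kernel) (by decide +kernel) (.t t38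
  ok38) cl58

theorem cl60 : Clo K (Helper55.TR.GK 1 Helper55.TR.BrV) r63 :=
  .i [n0,n0,m1,m1,n0,n0,n0,m2] (e' := [n1,n0,n1,n1,n0,n0,n0,n2]) (by decide +kernel) (by decide +kernel) cl55
  cl59

theorem cl61 : Clo K (Helper55.TR.GK 1 Helper55.TR.BrV) r62 :=
  .i [n0,n1,m1,m2,n0,n0,n0,m1] (e' := [n1,m1,n1,n2,n0,n0,n0,n1]) (by decide +kernel) (by decide +kernel) (.t
  t36 ok36) cl60

theorem cl62 : Clo K (Helper55.TR.GK 1 Helper55.TR.BrV) r61 :=
  .i [n0,n1,m2,n0,n1,n0,n0,n1] (e' := [n1,m1,n2,n0,m1,n0,n0,m1]) (by decide +kernel) (by decide +kernel) (.t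
  t35 ok35) cl61

theorem cl63 : Clo K (Helper55.TR.GK 1 Helper55.TR.BrV) l60 :=
  .q [n0,n0,n0,m2,n0,n0,n1,n1,n0,n1] (e' := [n0,n0,n0,n2,n0,n0,m1,m1,n0,m1]) (.p true [0,0,1] [] (⟨0,[(15,0)]⟩,⟨0,
  [(10,0)]⟩) .k 0 (⟨0,[]⟩,⟨0,[]⟩) .k .k) (by decide +kernel) (by decide +kernel) (.t t34 ok34) cl62

theorem cl64 : Clo K (Helper55.TR.GK 1 Helper55.TR.BrV) l76 :=
  .i [n0,n0,m2,n0,n1,m2,m1] (e' := [n1,n0,n2,n0,m1,n2,n1]) (by decide +kernel) (by decide +kernel) (.t t43
  ok43) (.h (Helper55.TR.GK.sub Helper55.CD.Dm1_1_c0v_28.g 116993171687596189667944274359468105217109330636986363742500597038762432795155621039053349295291772260327449 (by decide +kernel)))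

theorem cl65 : Clo K (Helper55.TR.GK 1 Helper55.TR.BrV) r79 :=
  .i [n0,n0,n1,n1,m1,n0,n0,m2] (e' := [n1,n0,m1,m1,n1,n0,n0,n2]) (by decide +kernel) (by decide +kernel) (.t
  t46 ok46) (.h (Helper55.TR.GK.sub Helper55.CD.Dm1_1_c0v_29.g 26571539284674908801663123716028975512148975673405502887024193739800924552590348853738104980723217392185830829058 (by decide +kernel)))

theorem cl66 : Clo K (Helper55.TR.GK 1 Helper55.TR.BrV) r78 :=
  .i [n0,n1,m2,m2,n1,n0,n0,n1] (e' := [n1,m1,n2,n2,m1,n0,n0,m1]) (by decide +kernel) (by decide +kernel) (.t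
  t45 ok45) cl65

theorem cl67 : Clo K (Helper55.TR.GK 1 Helper55.TR.BrV) r76 :=
  .q [n0,n0,n0,m2,n0,n0,n1,n1,n0,n1] (e' := [n0,n0,n0,n2,n0,n0,m1,m1,n0,m1]) (.p true [0,0,1] [] (⟨0,[(22,0)]⟩,⟨0,
  [(17,0)]⟩) .k 0 (⟨0,[]⟩,⟨0,[]⟩) .k .k) (by decide +kernel) (by decide +kernel) (.t t44 ok44) cl66

theorem cl68 : Clo K (Helper55.TR.GK 1 Helper55.TR.BrV) r75 :=
  .i [n1,n0,m2,m2,n1,n0,n0,n1] (e' := [n0,n0,n2,n2,m1,n0,n0,m1]) (by decide +kernel) (by decide +kernel) cl64
  cl67

theorem cl69 : Clo K (Helper55.TR.GK 1 Helper55.TR.BrV) r74 :=
  .q [n0,n0,n0,n0,n0,n0,m1,n0,n2,m1] (e' := [n0,n0,n0,n0,n0,n0,n1,n0,m2,n1]) (.p false [-1,1,1] [1] (⟨0,[(8,0)]⟩,⟨0,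
  [(15,0),(22,0)]⟩) .k 1 (⟨0,[]⟩,⟨0,[]⟩) .k .k) (by decide +kernel) (by decide +kernel) (.t t42
  ok42) cl68

theorem cl70 : Clo K (Helper55.TR.GK 1 Helper55.TR.BrV) l73 :=
  .q [n0,m1,n0,n0,n0,n0,m2,m1,n2,m2] (e' := [n0,n1,n0,n0,n0,n0,n2,n1,m2,n2]) (.p false [0,0,1] [2,-1,-1] (⟨0,[(19,
  0)]⟩,⟨0,[(14,0)]⟩) .k 2 (⟨0,[(14,0),(22,0)]⟩,⟨0,[(7,0)]⟩) .k (.r (-1) ⟨0,[(17,0),(6,1)]⟩ ⟨2,[(0,
  1),(19,1),(8,1)]⟩)) (by decide +kernel) (by decide +kernel) (.t t41 ok41) cl69

theorem cl71 : Clo K (Helper55.TR.GK 1 Helper55.TR.BrV) l82 :=
  .i [n0,n0,m2,n0,n1,m2,m1] (e' := [n1,n0,n2,n0,m1,n2,n1]) (by decide +kernel) (by decide +kernel) (.t t48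
  ok48) (.h (Helper55.TR.GK.v Helper55.CD.Dm1_1_c0v_30.g 42374864385804992579827655506793068226414192240426357444768952528537353562835191831240140317643245912994957836746784850840578 (by decide +kernel)))

theorem cl72 : Clo K (Helper55.TR.GK 1 Helper55.TR.BrV) r82 :=
  .i [n0,n1,m2,m2,n1,n0,n0,n1] (e' := [n1,m1,n2,n2,m1,n0,n0,m1]) (by decide +kernel) (by decide +kernel) (.t
  t49 ok49) (.h (Helper55.TR.GK.v Helper55.CD.Dm1_1_c0v_31.g 140262800322120829896763453287562942517021646618604309970688004290257544714518950290944674355525800740306422809258941922412547 (by decide +kernel)))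

theorem cl73 : Clo K (Helper55.TR.GK 1 Helper55.TR.BrV) r81 :=
  .q [n0,n0,n0,m2,n0,n0,n1,n1,n0,n1] (e' := [n0,n0,n0,n2,n0,n0,m1,m1,n0,m1]) (.p true [0,0,1] [] (⟨0,[(20,0)]⟩,⟨0,
  [(15,0)]⟩) .k 0 (⟨0,[]⟩,⟨0,[]⟩) .k .k) (by decide +kernel) (by decide +kernel) cl71 cl72

theorem cl74 : Clo K (Helper55.TR.GK 1 Helper55.TR.BrV) r73 :=
  .i [n1,n0,m1,m1,n0,n0,n0,m2] (e' := [n0,n0,n1,n1,n0,n0,n0,n2]) (by decide +kernel) (by decide +kernel) (.t t47
  ok47) cl73

theorem cl75 : Clo K (Helper55.TR.GK 1 Helper55.TR.BrV) r72 :=
  .i [n0,n0,m1,m1,n0,n0,n0,m2] (e' := [n1,n0,n1,n1,n0,n0,n0,n2]) (by decide +kernel) (by decide +kernel) cl70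
  cl74

theorem cl76 : Clo K (Helper55.TR.GK 1 Helper55.TR.BrV) l71 :=
  .i [n0,n1,m1,m2,n0,n0,n0,m1] (e' := [n1,m1,n1,n2,n0,n0,n0,n1]) (by decide +kernel) (by decide +kernel) (.t
  t40 ok40) cl75

theorem cl77 : Clo K (Helper55.TR.GK 1 Helper55.TR.BrV) l90 :=
  .q [n0,m1,n0,n0,n0,n0,m2,m1,n2,m2] (e' := [n0,n1,n0,n0,n0,n0,n2,n1,m2,n2]) (.p false [0,0,1] [2,-1,-1] (⟨0,[(23,
  0)]⟩,⟨0,[(18,0)]⟩) .k 2 (⟨0,[(18,0),(22,0)]⟩,⟨0,[(11,0)]⟩) .k (.r (-1) ⟨20,[(3,15),(6,1),(3,2),(0,
  1),(1,3),(6,5),(6,9)]⟩ ⟨0,[(40,1)]⟩)) (by decide +kernel) (by decide +kernel) (.t t54 ok54) (.h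
  (Helper55.TR.GK.sub Helper55.CD.Dm1_1_c0v_32.g 122144981272208531024259967214304107088374218900572163217389522583276603623694230695363059945311400308020104194 (by decide +kernel)))

theorem cl78 : Clo K (Helper55.TR.GK 1 Helper55.TR.BrV) r90 :=
  .i [n1,n0,m1,m1,n0,n0,n0,m2] (e' := [n0,n0,n1,n1,n0,n0,n0,n2]) (by decide +kernel) (by decide +kernel) (.t t55
  ok55) (.h (Helper55.TR.GK.v Helper55.CD.Dm1_1_c0v_33.g 37307262335681968516377148735362074563325021871769116188789394482424296742637266264722188723176866819 (by decide +kernel)))

theorem cl79 : Clo K (Helper55.TR.GK 1 Helper55.TR.BrV) r89 :=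
  .i [n0,n0,m1,m1,n0,n0,n0,m2] (e' := [n1,n0,n1,n1,n0,n0,n0,n2]) (by decide +kernel) (by decide +kernel) cl77
  cl78

theorem cl80 : Clo K (Helper55.TR.GK 1 Helper55.TR.BrV) r88 :=
  .i [n0,n1,m1,m2,n0,n0,n0,m1] (e' := [n1,m1,n1,n2,n0,n0,n0,n1]) (by decide +kernel) (by decide +kernel) (.t
  t53 ok53) cl79

theorem cl81 : Clo K (Helper55.TR.GK 1 Helper55.TR.BrV) r87 :=
  .i [n1,n0,n1,n1,m1,n0,n0,m2] (e' := [n0,n0,m1,m1,n1,n0,n0,n2]) (by decide +kernel) (by decide +kernel) (.t
  t52 ok52) cl80

theorem cl82 : Clo K (Helper55.TR.GK 1 Helper55.TR.BrV) r86 :=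
  .i [n0,n0,n1,n1,m1,n0,n0,m2] (e' := [n1,n0,m1,m1,n1,n0,n0,n2]) (by decide +kernel) (by decide +kernel) (.t
  t51 ok51) cl81

theorem cl83 : Clo K (Helper55.TR.GK 1 Helper55.TR.BrV) l85 :=
  .i [n0,n1,m2,m2,n1,n0,n0,n1] (e' := [n1,m1,n2,n2,m1,n0,n0,m1]) (by decide +kernel) (by decide +kernel) (.t
  t50 ok50) cl82

theorem cl84 : Clo K (Helper55.TR.GK 1 Helper55.TR.BrV) l96 :=
  .i [n1,n0,m3,m3,n1,n0,n0,m1] (e' := [n0,n0,n3,n3,m1,n0,n0,n1]) (by decide +kernel) (by decide +kernel) (.t
  t59 ok59) (.h (Helper55.TR.GK.v Helper55.CD.Dm1_1_c0v_34.g 42439430704907101393400491407722822338780244274543776947416568293557491596992792628889348629840217750159041504844142248724483 (by decide +kernel)))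

theorem cl85 : Clo K (Helper55.TR.GK 1 Helper55.TR.BrV) r95 :=
  .i [n1,n0,n3,n3,m1,n0,n0,n1] (e' := [n0,n0,m3,m3,n1,n0,n0,m1]) (by decide +kernel) (by decide +kernel) cl84
  (.h (Helper55.TR.GK.v Helper55.CD.Dm1_1_c0v_35.g 34609062955889862831768653757041001966250381301669640815388158415093527580582548192763305988600737368646950669256707 (by decide +kernel)))

theorem cl86 : Clo K (Helper55.TR.GK 1 Helper55.TR.BrV) r94 :=
  .i [n0,n1,m1,m2,n0,n0,n0,m1] (e' := [n1,m1,n1,n2,n0,n0,n0,n1]) (by decide +kernel) (by decide +kernel) (.t
  t58 ok58) cl85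

theorem cl87 : Clo K (Helper55.TR.GK 1 Helper55.TR.BrV) r93 :=
  .i [n0,n0,n2,n2,m1,n0,n0,m1] (e' := [n1,n0,m2,m2,n1,n0,n0,n1]) (by decide +kernel) (by decide +kernel) (.t
  t57 ok57) cl86

theorem cl88 : Clo K (Helper55.TR.GK 1 Helper55.TR.BrV) r85 :=
  .i [n0,n0,m2,n0,n1,m2,m1] (e' := [n1,n0,n2,n0,m1,n2,n1]) (by decide +kernel) (by decide +kernel) (.t t56
  ok56) cl87

theorem cl89 : Clo K (Helper55.TR.GK 1 Helper55.TR.BrV) r71 :=
  .q [n0,n0,n0,n2,n0,n0,m1,m1,n0,m1] (e' := [n0,n0,n0,m2,n0,n0,n1,n1,n0,n1]) (.p false [0,0,1] [] (⟨0,[(17,0)]⟩,⟨0,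
  [(12,0)]⟩) .k 0 (⟨0,[]⟩,⟨0,[]⟩) .k .k) (by decide +kernel) (by decide +kernel) cl83 cl88

theorem cl90 : Clo K (Helper55.TR.GK 1 Helper55.TR.BrV) l70 :=
  .q [n0,m1,n0,m1,n0,n0,n0,n0,n1] (e' := [n0,n1,n0,n1,n0,n0,n0,n0,m1]) (.pp false [-1,1]) (by decide +kernel)
  (by decide +kernel) cl76 cl89

theorem cl91 : Clo K (Helper55.TR.GK 1 Helper55.TR.BrV) r60 :=
  .i [n1,n0,n2,n2,m1,n0,n0,m1] (e' := [n0,n0,m2,m2,n1,n0,n0,n1]) (by decide +kernel) (by decide +kernel) cl90
  (.t t60 ok60)

theorem cl92 : Clo K (Helper55.TR.GK 1 Helper55.TR.BrV) r59 :=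
  .i [n0,n0,n2,n0,m1,n2,n1] (e' := [n1,n0,m2,n0,n1,m2,m1]) (by decide +kernel) (by decide +kernel) cl63 cl91

theorem cl93 : Clo K (Helper55.TR.GK 1 Helper55.TR.BrV) l58 :=
  .i [n1,n1,m1,m1,n0,n0,n0,m1] (e' := [n0,m1,n1,n1,n0,n0,n0,n1]) (by decide +kernel) (by decide +kernel) (.t
  t33 ok33) cl92

theorem cl94 : Clo K (Helper55.TR.GK 1 Helper55.TR.BrV) r101 :=
  .i [n0,n0,m2,m2,n1,n0,n0,n1] (e' := [n1,n0,n2,n2,m1,n0,n0,m1]) (by decide +kernel) (by decide +kernel) (.t
  t64 ok64) (.h (Helper55.TR.GK.v Helper55.CD.Dm1_1_c0v_36.g 118646929589066006503671879790696078570473707459762325193505045210976736199120826480334916160640797853379470052861938690 (by decide +kernel)))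

theorem cl95 : Clo K (Helper55.TR.GK 1 Helper55.TR.BrV) r100 :=
  .i [n0,n0,m2,n0,n1,m2,m1] (e' := [n1,n0,n2,n0,m1,n2,n1]) (by decide +kernel) (by decide +kernel) (.t t63
  ok63) cl94

theorem cl96 : Clo K (Helper55.TR.GK 1 Helper55.TR.BrV) r99 :=
  .i [n0,n0,n2,n0,m1,n2,n1] (e' := [n1,n0,m2,n0,n1,m2,m1]) (by decide +kernel) (by decide +kernel) (.t t62
  ok62) cl95

theorem cl97 : Clo K (Helper55.TR.GK 1 Helper55.TR.BrV) l98 :=
  .i [n0,n0,n2,n2,m1,n0,n0,m1] (e' := [n1,n0,m2,m2,n1,n0,n0,n1]) (by decide +kernel) (by decide +kernel) (.t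
  t61 ok61) cl96

theorem cl98 : Clo K (Helper55.TR.GK 1 Helper55.TR.BrV) r58 :=
  .q [n0,n0,n0,m2,n0,n0,n1,n1,n0,n1] (e' := [n0,n0,n0,n2,n0,n0,m1,m1,n0,m1]) (.p true [0,0,1] [] (⟨0,[(13,0)]⟩,⟨0,
  [(8,0)]⟩) .k 0 (⟨0,[]⟩,⟨0,[]⟩) .k .k) (by decide +kernel) (by decide +kernel) cl97 (.h (Helper55.TR.GK.sub Helper55.CD.Dm1_1_c0v_37.g 85405343243951365533538075597511057089192039107524421996937681701532433290946051262121772361605718018 (by decide +kernel)))

theorem cl99 : Clo K (Helper55.TR.GK 1 Helper55.TR.BrV) r2 :=
  .q [n0,n0,n1,n0,n0,n0,m2,n0,n2,m2] (e' := [n0,n0,m1,n0,n0,n0,n2,n0,m2,n2]) (.p false [0,0,1] [2,-1,-1] (⟨0,[(12,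
  0)]⟩,⟨0,[(7,0)]⟩) .k 2 (⟨0,[(7,0),(22,0)]⟩,⟨0,[(0,0)]⟩) .k (.r (-1) ⟨0,[(10,0),(6,1)]⟩ ⟨0,[(29,
  1)]⟩)) (by decide +kernel) (by decide +kernel) cl93 cl98

theorem cl100 : Clo K (Helper55.TR.GK 1 Helper55.TR.BrV) r1 :=
  .q [n0,n0,n0,n0,n0,m1,n0,n0,n1,m1] (e' := [n0,n0,n0,n0,n0,n1,n0,n0,m1,n1]) (.ed true [0,1,1] .k)
  (by decide +kernel) (by decide +kernel) cl54 cl99

theorem cl101 : Clo K (Helper55.TR.GK 1 Helper55.TR.BrV) l0 :=
  .q [n0,n0,n0,n0,n0,n2,n0,n0,m1] (e' := [n0,n0,n0,n0,n0,m2,n0,n0,n1]) (.pp true [-1,1]) (by decide +kernel)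
  (by decide +kernel) (.t t0 ok0) cl100

theorem cl102 : Clo K (Helper55.TR.GK 1 Helper55.TR.BrV) r112 :=
  .i [n1,n0,m3,m3,n1] (e' := [n0,n0,n3,n3,m1]) (by decide +kernel) (by decide +kernel) (.t t69 ok69) (.h
  (Helper55.TR.GK.v Helper55.CD.Dm1_1_c0v_40.g 93336085175360217521076408547578739167675714361696056541396629569745959991776382167998032734004782470185477376392039426 (by decide +kernel)))

theorem cl103 : Clo K (Helper55.TR.GK 1 Helper55.TR.BrV) r111 :=
  .i [n0,n0,m3,m3,n1] (e' := [n1,n0,n3,n3,m1]) (by decide +kernel) (by decide +kernel) (.h (Helper55.TR.GK.t (L := (l112).map (fun c => Helper11.CT.insC 8 (Helper11.CT.insC 8 c))) (Helper55.TR.GT.l0 Helper55.CD.Dm1_1_c0v_39.g 175929282743001707065484859884045454904006722799032848670695556721393801592806096128816004373515840667737537257687879036988505828783172368233472720947 (by decide +kernel)) 153973331739855531773805282196032739639247742665639658000551160232396324334151202907209575019313522088029313795836894230 (by decide +kernel))) cl102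

theorem cl104 : Clo K (Helper55.TR.GK 1 Helper55.TR.BrV) l110 :=
  .i [n1,n0,n2,n2,m1,n0,n0,m1] (e' := [n0,n0,m2,m2,n1,n0,n0,n1]) (by decide +kernel) (by decide +kernel) (.h
  (Helper55.TR.GK.v Helper55.CD.Dm1_1_c0v_38.g 135562363649114178006017148055629212126817059740938848065354679632476054262329205100338117652803205605708779797611523 (by decide +kernel))) cl103

theorem cl105 : Clo K (Helper55.TR.GK 1 Helper55.TR.BrV) r114 :=
  .i [n1,n0,n1,n1,m1,n0,n0,m2] (e' := [n0,n0,m1,m1,n1,n0,n0,n2]) (by decide +kernel) (by decide +kernel) (.t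
  t71 ok71) (.h (Helper55.TR.GK.v Helper55.CD.Dm1_1_c0v_41.g 41982584914894397249985396037459097331478685858786256335951754208300185786135889096697251996076292214935285510702083 (by decide +kernel)))

theorem cl106 : Clo K (Helper55.TR.GK 1 Helper55.TR.BrV) r110 :=
  .i [n0,n0,n1,n1,m1,n0,n0,m2] (e' := [n1,n0,m1,m1,n1,n0,n0,n2]) (by decide +kernel) (by decide +kernel) (.t
  t70 ok70) cl105

theorem cl107 : Clo K (Helper55.TR.GK 1 Helper55.TR.BrV) r109 :=
  .i [n1,n0,m2,m2,n1,n0,n0,n1] (e' := [n0,n0,n2,n2,m1,n0,n0,m1]) (by decide +kernel) (by decide +kernel) cl104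
  cl106

theorem cl108 : Clo K (Helper55.TR.GK 1 Helper55.TR.BrV) r108 :=
  .q [n0,m1,n0,m1,n0,n0,n0,n0,n1] (e' := [n0,n1,n0,n1,n0,n0,n0,n0,m1]) (.pp false [-1,1]) (by decide +kernel)
  (by decide +kernel) (.t t68 ok68) cl107

theorem cl109 : Clo K (Helper55.TR.GK 1 Helper55.TR.BrV) l107 :=
  .q [n0,n0,n1,n0,n0,n0,m2,n0,n2,m2] (e' := [n0,n0,m1,n0,n0,n0,n2,n0,m2,n2]) (.p false [0,0,1] [2,-1,-1] (⟨0,[(15,
  0)]⟩,⟨0,[(10,0)]⟩) .k 2 (⟨0,[(10,0),(22,0)]⟩,⟨0,[(2,0)]⟩) .k (.r (-1) ⟨2,[(5,1),(0,0),(1,1),(11,
  3)]⟩ ⟨0,[(32,1)]⟩)) (by decide +kernel) (by decide +kernel) (.t t67 ok67) cl108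

theorem cl110 : Clo K (Helper55.TR.GK 1 Helper55.TR.BrV) l118 :=
  .i [n1,n0,n3,n3,m1] (e' := [n0,n0,m3,m3,n1]) (by decide +kernel) (by decide +kernel) (.t t73 ok73) (.h
  (Helper55.TR.GK.t (L := (r119).map (fun c => Helper11.CT.insC 8 (Helper11.CT.insC 8 c))) (Helper55.TR.GT.l0 Helper55.CD.Dm1_1_c0v_42.g 175836855460248004872234085443308631232553750914558396441166487254073564017424039513487524414920658775486151294520347183927885868217361523715 (by decide +kernel)) 147899549131484929067909645072071344216440553742554208881022782221026538226092680248279560242811426320238121679084566 (by decide +kernel)))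

theorem cl111 : Clo K (Helper55.TR.GK 1 Helper55.TR.BrV) l123 :=
  .i [n0,n0,n2,n1,m1,n0,n0,m1] (e' := [n1,n0,m2,m1,n1,n0,n0,n1]) (by decide +kernel) (by decide +kernel) (.t
  t76 ok76) (.h (Helper55.TR.GK.v Helper55.CD.Dm1_1_c0v_43.g 158180325482191060537854670622250375422279327236615550238434766629841608371352662246020662302306009196064513157430280456445298215938 (by decide +kernel)))

theorem cl112 : Clo K (Helper55.TR.GK 1 Helper55.TR.BrV) l125 :=
  .i [n0,n0,n2,n1,m1,n0,n0,m1] (e' := [n1,n0,m2,m1,n1,n0,n0,n1]) (by decide +kernel) (by decide +kernel) (.t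
  t77 ok77) (.h (Helper55.TR.GK.v Helper55.CD.Dm1_1_c0v_44.g 137528197592890548880975522635809001653126306788399714545729997794551099950947296025519803254055653373922767851222740532988930 (by decide +kernel)))

theorem cl113 : Clo K (Helper55.TR.GK 1 Helper55.TR.BrV) l127 :=
  .i [n1,n0,n2,n2,m1,n0,n0,m1] (e' := [n0,n0,m2,m2,n1,n0,n0,n1]) (by decide +kernel) (by decide +kernel) (.t
  t78 ok78) (.h (Helper55.TR.GK.v Helper55.CD.Dm1_1_c0v_45.g 36204599754746370355062820319487706886237868381227587515734840791727354103688505590899173375161288953278059616873188223722400516099 (by decide +kernel)))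

theorem cl114 : Clo K (Helper55.TR.GK 1 Helper55.TR.BrV) r125 :=
  .i [n1,n0,m2,m2,n1,n0,n0,n1] (e' := [n0,n0,n2,n2,m1,n0,n0,m1]) (by decide +kernel) (by decide +kernel) cl113
  (.h (Helper55.TR.GK.v Helper55.CD.Dm1_1_c0v_46.g 33715644250960217244189299255104004814590663498644445293499907728799342195777840525234132049408256879555739176703710201859 (by decide +kernel)))

theorem cl115 : Clo K (Helper55.TR.GK 1 Helper55.TR.BrV) r123 :=
  .q [n0,m1,n0,n1,n0,n0,m1,m1,n1,m1] (e' := [n0,n1,n0,m1,n0,n0,n1,n1,m1,n1]) (.p false [0,0,1] [1] (⟨0,[(22,0)]⟩,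
  ⟨0,[(17,0)]⟩) .k 1 (⟨0,[]⟩,⟨0,[]⟩) .k .k) (by decide +kernel) (by decide +kernel) cl112 cl114

theorem cl116 : Clo K (Helper55.TR.GK 1 Helper55.TR.BrV) r122 :=
  .q [n0,m1,n0,n2,n0,n0,m1,m1,n1,m1] (e' := [n0,n1,n0,m2,n0,n0,n1,n1,m1,n1]) (.p false [0,0,1] [1] (⟨0,[(21,0)]⟩,
  ⟨0,[(16,0)]⟩) .k 1 (⟨0,[]⟩,⟨0,[]⟩) .k .k) (by decide +kernel) (by decide +kernel) cl111 cl115

theorem cl117 : Clo K (Helper55.TR.GK 1 Helper55.TR.BrV) r121 :=
  .i [n1,n0,n1,n1,m1,n0,n0,m2] (e' := [n0,n0,m1,m1,n1,n0,n0,n2]) (by decide +kernel) (by decide +kernel) (.t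
  t75 ok75) cl116

theorem cl118 : Clo K (Helper55.TR.GK 1 Helper55.TR.BrV) l120 :=
  .i [n0,n0,n1,n1,m1,n0,n0,m2] (e' := [n1,n0,m1,m1,n1,n0,n0,n2]) (by decide +kernel) (by decide +kernel) (.t
  t74 ok74) cl117

theorem cl119 : Clo K (Helper55.TR.GK 1 Helper55.TR.BrV) r120 :=
  .i [n0,n0,n1,n1,m1,n0,n0,m2] (e' := [n1,n0,m1,m1,n1,n0,n0,n2]) (by decide +kernel) (by decide +kernel) (.t
  t79 ok79) (.h (Helper55.TR.GK.v Helper55.CD.Dm1_1_c0v_47.g 145481418871719640796339748398919309743125190697578753717263934761703632836747166076337235314207178369068655197487730697178114 (by decide +kernel)))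

theorem cl120 : Clo K (Helper55.TR.GK 1 Helper55.TR.BrV) r118 :=
  .q [n0,n0,n0,n0,n0,m2,n0,n0,n0,n1] (e' := [n0,n0,n0,n0,n0,n2,n0,n0,n0,m1]) (.p true [0,0,1] [] (⟨0,[(18,0)]⟩,⟨0,
  [(13,0)]⟩) .k 0 (⟨0,[]⟩,⟨0,[]⟩) .k .k) (by decide +kernel) (by decide +kernel) cl118 cl119

theorem cl121 : Clo K (Helper55.TR.GK 1 Helper55.TR.BrV) r117 :=
  .i [n1,n0,m3,m3,n1] (e' := [n0,n0,n3,n3,m1]) (by decide +kernel) (by decide +kernel) cl110 cl120

theorem cl122 : Clo K (Helper55.TR.GK 1 Helper55.TR.BrV) l116 :=
  .q [n0,n0,n1,n0,n0,n0,m2,n0,n2,m2] (e' := [n0,n0,m1,n0,n0,n0,n2,n0,m2,n2]) (.p false [0,0,1] [2,-1,-1] (⟨0,[(16,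
  0)]⟩,⟨0,[(11,0)]⟩) .k 2 (⟨0,[(11,0),(22,0)]⟩,⟨0,[(3,0)]⟩) .k (.r (-1) ⟨2,[(6,1),(0,0),(1,1),(11,
  3)]⟩ ⟨0,[(33,1)]⟩)) (by decide +kernel) (by decide +kernel) (.t t72 ok72) cl121

theorem cl123 : Clo K (Helper55.TR.GK 1 Helper55.TR.BrV) r137 :=
  .i [n0,n0,n2,n0,m1,n2,n1] (e' := [n1,n0,m2,n0,n1,m2,m1]) (by decide +kernel) (by decide +kernel) (.t t84
  ok84) (.h (Helper55.TR.GK.v Helper55.CD.Dm1_1_c0v_48.g 47186984264871596872446560437270161607958628948578668920572629800342675287373336330272721853548513565931435519565341058919209896962 (by decide +kernel)))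

theorem cl124 : Clo K (Helper55.TR.GK 1 Helper55.TR.BrV) l136 :=
  .i [n0,n0,m2,n0,n1,m2,m1] (e' := [n1,n0,n2,n0,m1,n2,n1]) (by decide +kernel) (by decide +kernel) (.t t83
  ok83) cl123

theorem cl125 : Clo K (Helper55.TR.GK 1 Helper55.TR.BrV) l135 :=
  .i [n1,n0,n2,n2,m1,n0,n0,m1] (e' := [n0,n0,m2,m2,n1,n0,n0,n1]) (by decide +kernel) (by decide +kernel) cl124
  (.h (Helper55.TR.GK.t (L := (r136).map (fun c => Helper11.CT.insC 8 (Helper11.CT.insC 8 c))) (Helper55.TR.GT.l0 Helper55.CD.Dm1_1_c0v_49.g 32083137781326967631178254056410221325919101145393149928237513062060701563573814445485611457578571531697393318772441389274829957677189123 (by decide +kernel)) 173458602240151844498774859607360936149583023272102432892912158786254247749792041277451618007761010270727614784544005231785040918 (by decide +kernel)))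

theorem cl126 : Clo K (Helper55.TR.GK 1 Helper55.TR.BrV) r134 :=
  .i [n1,n0,m2,m2,n1,n0,n0,n1] (e' := [n0,n0,n2,n2,m1,n0,n0,m1]) (by decide +kernel) (by decide +kernel) cl125
  (.h (Helper55.TR.GK.v Helper55.CD.Dm1_1_c0v_50.g 150764729875974948000526574549903017894879144326234288260907079811716276165085865858315661979015759033191680923072109621544963 (by decide +kernel)))

theorem cl127 : Clo K (Helper55.TR.GK 1 Helper55.TR.BrV) l133 :=
  .q [n0,n0,n1,n0,n0,n0,m2,n0,n2,m2] (e' := [n0,n0,m1,n0,n0,n0,n2,n0,m2,n2]) (.p false [0,0,1] [2,-1,-1] (⟨0,[(20,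
  0)]⟩,⟨0,[(15,0)]⟩) .k 2 (⟨0,[(15,0),(22,0)]⟩,⟨0,[(7,0)]⟩) .k (.r (-1) ⟨2,[(10,1),(0,0),(1,1),(11,
  3)]⟩ ⟨5,[(3,3),(4,1),(5,2),(9,0),(5,0)]⟩)) (by decide +kernel) (by decide +kernel) (.t t82 ok82)
  cl126

theorem cl128 : Clo K (Helper55.TR.GK 1 Helper55.TR.BrV) l140 :=
  .i [n0,n0,n2,n1,m1,n0,n0,m1] (e' := [n1,n0,m2,m1,n1,n0,n0,n1]) (by decide +kernel) (by decide +kernel) (.t
  t85 ok85) (.h (Helper55.TR.GK.sub Helper55.CD.Dm1_1_c0v_51.g 106457632748328677521479358417211420336394038412703458816018582847858226835161670030085796701211 (by decide +kernel)))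

theorem cl129 : Clo K (Helper55.TR.GK 1 Helper55.TR.BrV) r144 :=
  .i [n1,n0,m3,m3,n1] (e' := [n0,n0,n3,n3,m1]) (by decide +kernel) (by decide +kernel) (.t t87 ok87) (.h
  (Helper55.TR.GK.v Helper55.CD.Dm1_1_c0v_53.g 174509598714161439835160968059571045577785928008381829004534768295197677126750478807394762984024387733232461122800068770567838659994717186 (by decide +kernel)))

theorem cl130 : Clo K (Helper55.TR.GK 1 Helper55.TR.BrV) r143 :=
  .i [n0,n0,m3,m3,n1] (e' := [n1,n0,n3,n3,m1]) (by decide +kernel) (by decide +kernel) (.h (Helper55.TR.GK.t (L := (l144).map (fun c => Helper11.CT.insC 8 (Helper11.CT.insC 8 c))) (Helper55.TR.GT.l0 Helper55.CD.Dm1_1_c0v_52.g 140829107101275360965606612314183401943545723456590500000647518941395391192073573151188826424823188392341276606289176969761588148087084763239024042387372507137 (by decide +kernel)) 187568505596181244587464639917955076814707681295121887596140666061157303105990517565072506050156946079720688757942774774663504587676694 (by decide +kernel))) cl129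

theorem cl131 : Clo K (Helper55.TR.GK 1 Helper55.TR.BrV) l142 :=
  .i [n0,n1,n2,n1,m1,n0,n0,m1] (e' := [n1,m1,m2,m1,n1,n0,n0,n1]) (by decide +kernel) (by decide +kernel) (.t
  t86 ok86) cl130

theorem cl132 : Clo K (Helper55.TR.GK 1 Helper55.TR.BrV) l147 :=
  .i [n0,n0,n2,n1,m1,n0,n0,m1] (e' := [n1,n0,m2,m1,n1,n0,n0,n1]) (by decide +kernel) (by decide +kernel) (.t
  t89 ok89) (.h (Helper55.TR.GK.v Helper55.CD.Dm1_1_c0v_54.g 178799592111054380432707689243176654526281064734696359224663625308141464069449569077984229327102600630822177619943985446015415963260897201154 (by decide +kernel)))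

theorem cl133 : Clo K (Helper55.TR.GK 1 Helper55.TR.BrV) l149 :=
  .i [n1,n0,m3,m3,n1,n0,n0,m1] (e' := [n0,n0,n3,n3,m1,n0,n0,n1]) (by decide +kernel) (by decide +kernel) (.t
  t90 ok90) (.h (Helper55.TR.GK.v Helper55.CD.Dm1_1_c0v_55.g 174626014699086818093832097089258830099330642296924305526802690567261933719010711904621939781649920473494953243238820355429683083429808131 (by decide +kernel)))

theorem cl134 : Clo K (Helper55.TR.GK 1 Helper55.TR.BrV) l151 :=
  .i [n1,n0,n2,n2,m1,n0,n0,m1] (e' := [n0,n0,m2,m2,n1,n0,n0,n1]) (by decide +kernel) (by decide +kernel) (.t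
  t91 ok91) (.h (Helper55.TR.GK.v Helper55.CD.Dm1_1_c0v_56.g 98923922272180304809920719090001986833447515420565559552252521923350318229966705850530975142383644006751531960670884906687184932852206594 (by decide +kernel)))

theorem cl135 : Clo K (Helper55.TR.GK 1 Helper55.TR.BrV) r149 :=
  .i [n1,n0,m2,m2,n1,n0,n0,n1] (e' := [n0,n0,n2,n2,m1,n0,n0,m1]) (by decide +kernel) (by decide +kernel) cl134
  (.h (Helper55.TR.GK.v Helper55.CD.Dm1_1_c0v_57.g 181700995966287153404703994490061128421906978192189938037877350265114688843891613436469618131581868427397885292896560563785138575727909669890 (by decide +kernel)))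

theorem cl136 : Clo K (Helper55.TR.GK 1 Helper55.TR.BrV) r147 :=
  .i [n1,n0,n3,n3,m1,n0,n0,n1] (e' := [n0,n0,m3,m3,n1,n0,n0,m1]) (by decide +kernel) (by decide +kernel) cl133
  cl135

theorem cl137 : Clo K (Helper55.TR.GK 1 Helper55.TR.BrV) r146 :=
  .q [n0,m1,n0,n1,n0,n0,m1,m1,n1,m1] (e' := [n0,n1,n0,m1,n0,n0,n1,n1,m1,n1]) (.p false [0,0,1] [1] (⟨0,[(24,0)]⟩,
  ⟨0,[(19,0)]⟩) .k 1 (⟨0,[]⟩,⟨0,[]⟩) .k .k) (by decide +kernel) (by decide +kernel) cl132 cl136

theorem cl138 : Clo K (Helper55.TR.GK 1 Helper55.TR.BrV) r142 :=
  .i [n0,n1,n2,n1,m1] (e' := [n1,m1,m2,m1,n1]) (by decide +kernel) (by decide +kernel) (.t t88 ok88) cl137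

theorem cl139 : Clo K (Helper55.TR.GK 1 Helper55.TR.BrV) r140 :=
  .q [n0,n0,m2,n0,n1,n0,m2,n0,n1,m2] (e' := [n0,n0,n2,n0,m1,n0,n2,n0,m1,n2]) (.p false [0,0,1] [1,0,-1] (⟨0,[(22,
  0)]⟩,⟨0,[(17,0)]⟩) .k 2 (⟨0,[(17,0)]⟩,⟨0,[(22,0)]⟩) .k (.r (-1) ⟨2,[(12,1),(0,0),(1,1),(11,3)]⟩
  ⟨5,[(5,3),(4,1),(5,2),(9,0),(5,0)]⟩)) (by decide +kernel) (by decide +kernel) cl131 cl138

theorem cl140 : Clo K (Helper55.TR.GK 1 Helper55.TR.BrV) l139 :=
  .q [n0,m1,n0,n2,n0,n0,m1,m1,n1,m1] (e' := [n0,n1,n0,m2,n0,n0,n1,n1,m1,n1]) (.p false [0,0,1] [1] (⟨0,[(21,0)]⟩,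
  ⟨0,[(16,0)]⟩) .k 1 (⟨0,[]⟩,⟨0,[]⟩) .k .k) (by decide +kernel) (by decide +kernel) cl128 cl139

theorem cl141 : Clo K (Helper55.TR.GK 1 Helper55.TR.BrV) l154 :=
  .i [n1,n0,n2,n2,m1,n0,n0,m1] (e' := [n0,n0,m2,m2,n1,n0,n0,n1]) (by decide +kernel) (by decide +kernel) (.t
  t92 ok92) (.h (Helper55.TR.GK.v Helper55.CD.Dm1_1_c0v_58.g 171698724317597404424519648642764530565795685973030196742244715964290760086284157029737169758471822990413498468383115380550550632105257986 (by decide +kernel)))

theorem cl142 : Clo K (Helper55.TR.GK 1 Helper55.TR.BrV) l153 :=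
  .i [n0,n0,n2,n0,m1,n2,n1] (e' := [n1,n0,m2,n0,n1,m2,m1]) (by decide +kernel) (by decide +kernel) cl141 (.h
  (Helper55.TR.GK.t (L := (r154).map (fun c => Helper11.CT.insC 8 (Helper11.CT.insC 8 c))) (Helper55.TR.GT.l0 Helper55.CD.Dm1_1_c0v_59.g 27783653551926892216367353806075784589409872012822725616473565702325115052201550851412068780772905818962471338516759995038112438295 (by decide +kernel)) 173458602240151844498774859607360936149583023272102432892912158786254247749792041277451618007761010270727614784544005231785040918 (by decide +kernel)))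

theorem cl143 : Clo K (Helper55.TR.GK 1 Helper55.TR.BrV) r139 :=
  .i [n1,n0,m2,m2,n1,n0,n0,n1] (e' := [n0,n0,n2,n2,m1,n0,n0,m1]) (by decide +kernel) (by decide +kernel) cl142
  (.h (Helper55.TR.GK.v Helper55.CD.Dm1_1_c0v_60.g 159156940220604733904238060642822523720868966155311215016239227862947745262430304652401912624658244334514914168362440097063121368124418 (by decide +kernel)))

theorem cl144 : Clo K (Helper55.TR.GK 1 Helper55.TR.BrV) r133 :=
  .q [n0,n0,n0,n0,n0,m2,n0,n0,n0,n1] (e' := [n0,n0,n0,n0,n0,n2,n0,n0,n0,m1]) (.p true [0,0,1] [] (⟨0,[(20,0)]⟩,⟨0,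
  [(15,0)]⟩) .k 0 (⟨0,[]⟩,⟨0,[]⟩) .k .k) (by decide +kernel) (by decide +kernel) cl140 cl143

theorem cl145 : Clo K (Helper55.TR.GK 1 Helper55.TR.BrV) r132 :=
  .i [n0,n1,m1,m2,n0,n0,n0,m1] (e' := [n1,m1,n1,n2,n0,n0,n0,n1]) (by decide +kernel) (by decide +kernel) cl127
  cl144

theorem cl146 : Clo K (Helper55.TR.GK 1 Helper55.TR.BrV) r131 :=
  .q [n0,n0,n0,n0,n0,n0,m1,n0,n2,m1] (e' := [n0,n0,n0,n0,n0,n0,n1,n0,m2,n1]) (.p false [-1,1,1] [1] (⟨0,[(5,0)]⟩,⟨0,
  [(13,0),(22,0)]⟩) .k 1 (⟨0,[]⟩,⟨0,[]⟩) .k .k) (by decide +kernel) (by decide +kernel) (.t t81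
  ok81) cl145

theorem cl147 : Clo K (Helper55.TR.GK 1 Helper55.TR.BrV) l130 :=
  .q [n0,m1,n0,n0,n0,n0,m2,m1,n2,m2] (e' := [n0,n1,n0,n0,n0,n0,n2,n1,m2,n2]) (.p false [0,0,1] [2,-1,-1] (⟨0,[(17,
  0)]⟩,⟨0,[(12,0)]⟩) .k 2 (⟨0,[(12,0),(22,0)]⟩,⟨0,[(4,0)]⟩) .k (.r (-1) ⟨2,[(7,1),(0,0),(1,1),(11,
  3)]⟩ ⟨5,[(0,3),(4,1),(5,2),(9,0),(5,0)]⟩)) (by decide +kernel) (by decide +kernel) (.t t80 ok80)
  cl146

theorem cl148 : Clo K (Helper55.TR.GK 1 Helper55.TR.BrV) l161 :=
  .i [n0,n1,n2,n1,m1,n0,n0,m1] (e' := [n1,m1,m2,m1,n1,n0,n0,n1]) (by decide +kernel) (by decide +kernel) (.t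
  t96 ok96) (.h (Helper55.TR.GK.t (L := (r162).map (fun c => Helper11.CT.insC 8 (Helper11.CT.insC 8 c))) (Helper55.TR.GT.l0 Helper55.CD.Dm1_1_c0v_61.g 25175278392177442925691970297419868659645060971074649543753680533464204899965525565025175921600411356127081013512880934268120083240950821655940098 (by decide +kernel)) 180396988720093117717095696828907801659517992922700179818974084898736639255115457538875788014776833586601156327275776174115105299478 (by decide +kernel)))

theorem cl149 : Clo K (Helper55.TR.GK 1 Helper55.TR.BrV) r160 :=
  .q [n0,n0,m2,n0,n1,n0,m2,n0,n1,m2] (e' := [n0,n0,n2,n0,m1,n0,n2,n0,m1,n2]) (.p false [0,0,1] [1,0,-1] (⟨0,[(22,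
  0)]⟩,⟨0,[(17,0)]⟩) .k 2 (⟨0,[(17,0)]⟩,⟨0,[(22,0)]⟩) .k (.r (-1) ⟨18,[(1,3),(3,7),(6,5),(0,8),(1,
  17),(2,11)]⟩ ⟨0,[(39,1)]⟩)) (by decide +kernel) (by decide +kernel) cl148 (.h (Helper55.TR.GK.v Helper55.CD.Dm1_1_c0v_62.g 110879226361119882513468134895176545452277816589067576984048534583859171720367920994252713242783708289349088637886301845856868281355266 (by decide +kernel)))

theorem cl150 : Clo K (Helper55.TR.GK 1 Helper55.TR.BrV) l159 :=
  .i [n0,n1,n2,n1,m1] (e' := [n1,m1,m2,m1,n1]) (by decide +kernel) (by decide +kernel) (.t t95 ok95) cl149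

theorem cl151 : Clo K (Helper55.TR.GK 1 Helper55.TR.BrV) r165 :=
  .i [n0,n1,n2,n1,m1] (e' := [n1,m1,m2,m1,n1]) (by decide +kernel) (by decide +kernel) (.t t99 ok99) (.h
  (Helper55.TR.GK.v Helper55.CD.Dm1_1_c0v_63.g 46685358384344698170812996259815006157188310577033127465614120213675906256146357805680435228838602165388923423021059759342297288937572355 (by decide +kernel)))

theorem cl152 : Clo K (Helper55.TR.GK 1 Helper55.TR.BrV) r164 :=
  .q [n0,n0,m2,n0,n1,n0,m2,n0,n1,m2] (e' := [n0,n0,n2,n0,m1,n0,n2,n0,m1,n2]) (.p false [0,0,1] [1,0,-1] (⟨0,[(23,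
  0)]⟩,⟨0,[(18,0)]⟩) .k 2 (⟨0,[(18,0)]⟩,⟨0,[(23,0)]⟩) .k (.r (-1) ⟨2,[(13,1),(0,0),(1,1),(11,3)]⟩
  ⟨0,[(40,1)]⟩)) (by decide +kernel) (by decide +kernel) (.t t98 ok98) cl151

theorem cl153 : Clo K (Helper55.TR.GK 1 Helper55.TR.BrV) l163 :=
  .i [n1,n0,m2,m2,n1,n0,n0,n1] (e' := [n0,n0,n2,n2,m1,n0,n0,m1]) (by decide +kernel) (by decide +kernel) (.t
  t97 ok97) cl152

theorem cl154 : Clo K (Helper55.TR.GK 1 Helper55.TR.BrV) r159 :=
  .i [n0,n0,n2,n0,m1,n2,n1] (e' := [n1,n0,m2,n0,n1,m2,m1]) (by decide +kernel) (by decide +kernel) cl153 (.h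
  (Helper55.TR.GK.v Helper55.CD.Dm1_1_c0v_64.g 138737049224742151969622238984431039822386830419497578188545166260640204741774841967715245534923156375921483538859297794 (by decide +kernel)))

theorem cl155 : Clo K (Helper55.TR.GK 1 Helper55.TR.BrV) r158 :=
  .i [n0,n0,m2,m2,n1,n0,n0,n1] (e' := [n1,n0,n2,n2,m1,n0,n0,m1]) (by decide +kernel) (by decide +kernel) cl150
  cl154

theorem cl156 : Clo K (Helper55.TR.GK 1 Helper55.TR.BrV) l157 :=
  .i [n0,n1,m1,m2,n0,n0,n0,m1] (e' := [n1,m1,n1,n2,n0,n0,n0,n1]) (by decide +kernel) (by decide +kernel) (.t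
  t94 ok94) cl155

theorem cl157 : Clo K (Helper55.TR.GK 1 Helper55.TR.BrV) l168 :=
  .i [n1,n1,n2,n2,m1,n0,n0,m1] (e' := [n0,m1,m2,m2,n1,n0,n0,n1]) (by decide +kernel) (by decide +kernel) (.t
  t101 ok101) (.h (Helper55.TR.GK.sub Helper55.CD.Dm1_1_c0v_65.g 124412922801871629521480490496940749954715714129259241233973665411860041568683924098678945901648669725424734466215848582328334 (by decide +kernel)))

theorem cl158 : Clo K (Helper55.TR.GK 1 Helper55.TR.BrV) l172 :=
  .i [n1,n0,m3,m3,n1,n0,n0,m1] (e' := [n0,n0,n3,n3,m1,n0,n0,n1]) (by decide +kernel) (by decide +kernel) (.t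
  t103 ok103) (.h (Helper55.TR.GK.v Helper55.CD.Dm1_1_c0v_66.g 155337353689049806063483642578227175812435577390498073173124844338269996611209072756508710031933095807870164573183466584917740096514 (by decide +kernel)))

theorem cl159 : Clo K (Helper55.TR.GK 1 Helper55.TR.BrV) r171 :=
  .i [n1,n0,n3,n3,m1,n0,n0,n1] (e' := [n0,n0,m3,m3,n1,n0,n0,m1]) (by decide +kernel) (by decide +kernel) cl158
  (.h (Helper55.TR.GK.v Helper55.CD.Dm1_1_c0v_67.g 116461881470196011542145102940292410964112244961684149594435867696795854993226122821147305339763094217047338566591775677369941628603599874 (by decide +kernel)))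

theorem cl160 : Clo K (Helper55.TR.GK 1 Helper55.TR.BrV) l170 :=
  .i [n0,n0,n2,n1,m1,n0,n0,m1] (e' := [n1,n0,m2,m1,n1,n0,n0,n1]) (by decide +kernel) (by decide +kernel) (.t
  t102 ok102) cl159

theorem cl161 : Clo K (Helper55.TR.GK 1 Helper55.TR.BrV) l174 :=
  .i [n0,n0,n2,n1,m1,n0,n0,m1] (e' := [n1,n0,m2,m1,n1,n0,n0,n1]) (by decide +kernel) (by decide +kernel) (.t
  t104 ok104) (.h (Helper55.TR.GK.v Helper55.CD.Dm1_1_c0v_68.g 113635243701066119554465350364942842387848980222032949278648357817813421919634364609209734104362274505801126001642088570728252329430018 (by decide +kernel)))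

theorem cl162 : Clo K (Helper55.TR.GK 1 Helper55.TR.BrV) l176 :=
  .i [n1,n0,m2,m2,n1,n0,n0,n1] (e' := [n0,n0,n2,n2,m1,n0,n0,m1]) (by decide +kernel) (by decide +kernel) (.t
  t105 ok105) (.h (Helper55.TR.GK.v Helper55.CD.Dm1_1_c0v_69.g 166730833754603881838625957393785449365103926272730490931292990885778671135555003154162331754845870606440210241459012284450819 (by decide +kernel)))

theorem cl163 : Clo K (Helper55.TR.GK 1 Helper55.TR.BrV) l179 :=
  .i [n1,n0,m3,m3,n1,n0,n0,m1] (e' := [n0,n0,n3,n3,m1,n0,n0,n1]) (by decide +kernel) (by decide +kernel) (.t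
  t107 ok107) (.h (Helper55.TR.GK.v Helper55.CD.Dm1_1_c0v_70.g 37051258394065319629396604940915818582921004145168230624800619603723938195729232227445504659574228980555173832813692607072424036447235 (by decide +kernel)))

theorem cl164 : Clo K (Helper55.TR.GK 1 Helper55.TR.BrV) r178 :=
  .i [n1,n0,n3,n3,m1,n0,n0,n1] (e' := [n0,n0,m3,m3,n1,n0,n0,m1]) (by decide +kernel) (by decide +kernel) cl163
  (.h (Helper55.TR.GK.v Helper55.CD.Dm1_1_c0v_71.g 135495485228896142393254454220926108325507629783037865905088042572290248423156203500587407652118671474423192913987847000504184835 (by decide +kernel)))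

theorem cl165 : Clo K (Helper55.TR.GK 1 Helper55.TR.BrV) r176 :=
  .i [n0,n1,m1,m2,n0,n0,n0,m1] (e' := [n1,m1,n1,n2,n0,n0,n0,n1]) (by decide +kernel) (by decide +kernel) (.t
  t106 ok106) cl164

theorem cl166 : Clo K (Helper55.TR.GK 1 Helper55.TR.BrV) r174 :=
  .i [n1,n0,n2,n2,m1,n0,n0,m1] (e' := [n0,n0,m2,m2,n1,n0,n0,n1]) (by decide +kernel) (by decide +kernel) cl162
  cl165

theorem cl167 : Clo K (Helper55.TR.GK 1 Helper55.TR.BrV) r170 :=
  .q [n0,m1,n0,n1,n0,n0,m1,m1,n1,m1] (e' := [n0,n1,n0,m1,n0,n0,n1,n1,m1,n1]) (.p false [0,0,1] [1] (⟨0,[(22,0)]⟩,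
  ⟨0,[(17,0)]⟩) .k 1 (⟨0,[]⟩,⟨0,[]⟩) .k .k) (by decide +kernel) (by decide +kernel) cl161 cl166

theorem cl168 : Clo K (Helper55.TR.GK 1 Helper55.TR.BrV) r168 :=
  .q [n0,m1,n0,n2,n0,n0,m1,m1,n1,m1] (e' := [n0,n1,n0,m2,n0,n0,n1,n1,m1,n1]) (.p false [0,0,1] [1] (⟨0,[(21,0)]⟩,
  ⟨0,[(16,0)]⟩) .k 1 (⟨0,[]⟩,⟨0,[]⟩) .k .k) (by decide +kernel) (by decide +kernel) cl160 cl167

theorem cl169 : Clo K (Helper55.TR.GK 1 Helper55.TR.BrV) r167 :=
  .q [n0,n0,m2,n0,n1,n0,m2,n0,n1,m2] (e' := [n0,n0,n2,n0,m1,n0,n2,n0,m1,n2]) (.p false [0,0,1] [1,0,-1] (⟨0,[(20,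
  0)]⟩,⟨0,[(15,0)]⟩) .k 2 (⟨0,[(15,0)]⟩,⟨0,[(20,0)]⟩) .k (.r (-1) ⟨2,[(10,1),(0,0),(1,1),(11,3)]⟩
  ⟨0,[(37,1)]⟩)) (by decide +kernel) (by decide +kernel) cl157 cl168

theorem cl170 : Clo K (Helper55.TR.GK 1 Helper55.TR.BrV) r157 :=
  .i [n0,n1,n2,n1,m1] (e' := [n1,m1,m2,m1,n1]) (by decide +kernel) (by decide +kernel) (.t t100 ok100)
  cl169

theorem cl171 : Clo K (Helper55.TR.GK 1 Helper55.TR.BrV) r156 :=
  .q [n0,n0,n0,n0,n0,n2,n0,n0,n0,m1] (e' := [n0,n0,n0,n0,n0,m2,n0,n0,n0,n1]) (.p false [0,0,1] [] (⟨0,[(18,0)]⟩,⟨0,
  [(13,0)]⟩) .k 0 (⟨0,[]⟩,⟨0,[]⟩) .k .k) (by decide +kernel) (by decide +kernel) cl156 cl170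

theorem cl172 : Clo K (Helper55.TR.GK 1 Helper55.TR.BrV) r130 :=
  .i [n1,n0,m1,m1,n0,n0,n0,m2] (e' := [n0,n0,n1,n1,n0,n0,n0,n2]) (by decide +kernel) (by decide +kernel) (.t t93
  ok93) cl171

theorem cl173 : Clo K (Helper55.TR.GK 1 Helper55.TR.BrV) r116 :=
  .i [n0,n0,m1,m1,n0,n0,n0,m2] (e' := [n1,n0,n1,n1,n0,n0,n0,n2]) (by decide +kernel) (by decide +kernel) cl147
  cl172

theorem cl174 : Clo K (Helper55.TR.GK 1 Helper55.TR.BrV) r107 :=
  .i [n1,n1,m1,m1,n0,n0,n0,m1] (e' := [n0,m1,n1,n1,n0,n0,n0,n1]) (by decide +kernel) (by decide +kernel) cl122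
  cl173

theorem cl175 : Clo K (Helper55.TR.GK 1 Helper55.TR.BrV) r106 :=
  .i [n0,n0,m1,m2,n0,n0,n0,m1] (e' := [n1,n0,n1,n2,n0,n0,n0,n1]) (by decide +kernel) (by decide +kernel) cl109
  cl174

theorem cl176 : Clo K (Helper55.TR.GK 1 Helper55.TR.BrV) l105 :=
  .i [n1,n1,n2,n2,m1] (e' := [n0,m1,m2,m2,n1]) (by decide +kernel) (by decide +kernel) (.t t66 ok66) cl175

theorem cl177 : Clo K (Helper55.TR.GK 1 Helper55.TR.BrV) r191 :=
  .i [n1,n0,n1,n1,m1,n0,n0,m2] (e' := [n0,n0,m1,m1,n1,n0,n0,n2]) (by decide +kernel) (by decide +kernel) (.t
  t115 ok115) (.h (Helper55.TR.GK.v Helper55.CD.Dm1_1_c0v_72.g 164818739795604229186459977509084498960546006258281882270579595496343207724074281625468797587736728438311262521942277719718737235412995 (by decide +kernel)))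

theorem cl178 : Clo K (Helper55.TR.GK 1 Helper55.TR.BrV) r190 :=
  .i [n1,n0,m2,m2,n1,n0,n0,n1] (e' := [n0,n0,n2,n2,m1,n0,n0,m1]) (by decide +kernel) (by decide +kernel) (.t
  t114 ok114) cl177

theorem cl179 : Clo K (Helper55.TR.GK 1 Helper55.TR.BrV) l189 :=
  .i [n0,n0,n1,n1,m1,n0,n0,m2] (e' := [n1,n0,m1,m1,n1,n0,n0,n2]) (by decide +kernel) (by decide +kernel) (.t
  t113 ok113) cl178

theorem cl180 : Clo K (Helper55.TR.GK 1 Helper55.TR.BrV) l195 :=
  .i [n1,n0,m2,m2,n1,n0,n0,n1] (e' := [n0,n0,n2,n2,m1,n0,n0,m1]) (by decide +kernel) (by decide +kernel) (.t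
  t117 ok117) (.h (Helper55.TR.GK.v Helper55.CD.Dm1_1_c0v_73.g 166398237361294753140149805502443429742233301123146355948498263551781858351355328626607800122510459349336034035434111321951630788611 (by decide +kernel)))

theorem cl181 : Clo K (Helper55.TR.GK 1 Helper55.TR.BrV) r194 :=
  .i [n0,n0,n2,n0,m1,n2,n1] (e' := [n1,n0,m2,n0,n1,m2,m1]) (by decide +kernel) (by decide +kernel) cl180 (.h
  (Helper55.TR.GK.v Helper55.CD.Dm1_1_c0v_74.g 176996480877843224766484061160184214748577621171886070756680503644774387894758829532877493569223696201044524285467496661627464214455318709535747 (by decide +kernel)))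

theorem cl182 : Clo K (Helper55.TR.GK 1 Helper55.TR.BrV) l193 :=
  .i [n1,n0,n1,n1,m1,n0,n0,m2] (e' := [n0,n0,m1,m1,n1,n0,n0,n2]) (by decide +kernel) (by decide +kernel) (.t
  t116 ok116) cl181

theorem cl183 : Clo K (Helper55.TR.GK 1 Helper55.TR.BrV) r189 :=
  .i [n1,n0,m1,m1,n1,n0,n0,n2] (e' := [n0,n0,n1,n1,m1,n0,n0,m2]) (by decide +kernel) (by decide +kernel) cl182
  (.t t118 ok118)

theorem cl184 : Clo K (Helper55.TR.GK 1 Helper55.TR.BrV) r188 :=
  .q [n0,n0,n0,n0,n0,m2,n0,n0,n0,n1] (e' := [n0,n0,n0,n0,n0,n2,n0,n0,n0,m1]) (.p true [0,0,1] [] (⟨0,[(21,0)]⟩,⟨0,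
  [(16,0)]⟩) .k 0 (⟨0,[]⟩,⟨0,[]⟩) .k .k) (by decide +kernel) (by decide +kernel) cl179 cl183

theorem cl185 : Clo K (Helper55.TR.GK 1 Helper55.TR.BrV) l187 :=
  .q [n0,m1,n0,n1,n0,n0,m1,m1,n1,m1] (e' := [n0,n1,n0,m1,n0,n0,n1,n1,m1,n1]) (.p false [0,0,1] [1] (⟨0,[(20,0)]⟩,
  ⟨0,[(15,0)]⟩) .k 1 (⟨0,[]⟩,⟨0,[]⟩) .k .k) (by decide +kernel) (by decide +kernel) (.t t112 ok112)
  cl184

theorem cl186 : Clo K (Helper55.TR.GK 1 Helper55.TR.BrV) l199 :=
  .q [n0,n0,n0,n0,n0,m2,n0,n0,n0,n1] (e' := [n0,n0,n0,n0,n0,n2,n0,n0,n0,m1]) (.p true [0,0,1] [] (⟨0,[(23,0)]⟩,⟨0,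
  [(18,0)]⟩) .k 0 (⟨0,[]⟩,⟨0,[]⟩) .k .k) (by decide +kernel) (by decide +kernel) (.t t120 ok120)
  (.h (Helper55.TR.GK.v Helper55.CD.Dm1_1_c0v_75.g 31397733322810327115445338112480728285535748658126434510102563024898359296304575879808204317291602182869054088061073135534254400210947 (by decide +kernel)))

theorem cl187 : Clo K (Helper55.TR.GK 1 Helper55.TR.BrV) l201 :=
  .q [n0,n0,n0,n0,n0,m2,n0,n0,n0,n1] (e' := [n0,n0,n0,n0,n0,n2,n0,n0,n0,m1]) (.p true [0,0,1] [] (⟨0,[(24,0)]⟩,⟨0,
  [(19,0)]⟩) .k 0 (⟨0,[]⟩,⟨0,[]⟩) .k .k) (by decide +kernel) (by decide +kernel) (.t t121 ok121)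
  (.h (Helper55.TR.GK.v Helper55.CD.Dm1_1_c0v_76.g 175805013694478829084431620095112220622553480604655224952692468326664128777879804992232043366103101291160017051185263962820684584546878884866 (by decide +kernel)))

theorem cl188 : Clo K (Helper55.TR.GK 1 Helper55.TR.BrV) r199 :=
  .q [n0,m1,n0,n1,n0,n0,m1,m1,n1,m1] (e' := [n0,n1,n0,m1,n0,n0,n1,n1,m1,n1]) (.p false [0,0,1] [1] (⟨0,[(23,0)]⟩,
  ⟨0,[(18,0)]⟩) .k 1 (⟨0,[]⟩,⟨0,[]⟩) .k .k) (by decide +kernel) (by decide +kernel) cl187 (.h
  (Helper55.TR.GK.v Helper55.CD.Dm1_1_c0v_77.g 85237552570713924799094129606866869112646760317040010250082025043658993893430156191062208316938408106071939141344628367510121222242307 (by decide +kernel)))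

theorem cl189 : Clo K (Helper55.TR.GK 1 Helper55.TR.BrV) r198 :=
  .q [n0,m1,n0,n2,n0,n0,m1,m1,n1,m1] (e' := [n0,n1,n0,m2,n0,n0,n1,n1,m1,n1]) (.p false [0,0,1] [1] (⟨0,[(22,0)]⟩,
  ⟨0,[(17,0)]⟩) .k 1 (⟨0,[]⟩,⟨0,[]⟩) .k .k) (by decide +kernel) (by decide +kernel) cl186 cl188

theorem cl190 : Clo K (Helper55.TR.GK 1 Helper55.TR.BrV) l197 :=
  .i [n1,n0,m2,m2,n1,n0,n0,n1] (e' := [n0,n0,n2,n2,m1,n0,n0,m1]) (by decide +kernel) (by decide +kernel) (.t
  t119 ok119) cl189

theorem cl191 : Clo K (Helper55.TR.GK 1 Helper55.TR.BrV) l203 :=
  .i [n0,n0,n2,n0,m1,n2,n1] (e' := [n1,n0,m2,n0,n1,m2,m1]) (by decide +kernel) (by decide +kernel) (.t t122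
  ok122) (.h (Helper55.TR.GK.v Helper55.CD.Dm1_1_c0v_78.g 55384703917828933688017997999314122099195392535217213623051894933399203634120744662053486890201152942747704912530964005572315815036849154 (by decide +kernel)))

theorem cl192 : Clo K (Helper55.TR.GK 1 Helper55.TR.BrV) r197 :=
  .i [n1,n0,m2,m2,n1,n0,n0,n1] (e' := [n0,n0,n2,n2,m1,n0,n0,m1]) (by decide +kernel) (by decide +kernel) cl191
  (.h (Helper55.TR.GK.v Helper55.CD.Dm1_1_c0v_79.g 139279652282542962472151073425425295179280248741331094220999961655187202935880619962146954754413049487229292292934760774325666420099075 (by decide +kernel)))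

theorem cl193 : Clo K (Helper55.TR.GK 1 Helper55.TR.BrV) r187 :=
  .i [n0,n0,m2,n0,n1,m2,m1] (e' := [n1,n0,n2,n0,m1,n2,n1]) (by decide +kernel) (by decide +kernel) cl190 cl192

theorem cl194 : Clo K (Helper55.TR.GK 1 Helper55.TR.BrV) l186 :=
  .i [n0,n0,n1,n0,m1,n0,n0,m2] (e' := [n1,n0,m1,n0,n1,n0,n0,n2]) (by decide +kernel) (by decide +kernel) cl185
  cl193

theorem cl195 : Clo K (Helper55.TR.GK 1 Helper55.TR.BrV) l205 :=
  .i [n1,n0,m3,m3,n1] (e' := [n0,n0,n3,n3,m1]) (by decide +kernel) (by decide +kernel) (.t t123 ok123) (.h
  (Helper55.TR.GK.v Helper55.CD.Dm1_1_c0v_80.g 133220970110980629740948905447663277906413624257751870862700323843102433435140394432881995795818429707466349837761049175516784888834 (by decide +kernel)))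

theorem cl196 : Clo K (Helper55.TR.GK 1 Helper55.TR.BrV) l207 :=
  .i [n1,n0,m4,m4,n1,n0,n0,m1] (e' := [n0,n0,n4,n4,m1,n0,n0,n1]) (by decide +kernel) (by decide +kernel) (.t
  t124 ok124) (.h (Helper55.TR.GK.v Helper55.CD.Dm1_1_c0v_81.g 156292677607356602737676471936307076428770123805430638826436769667096574253766374376521560218276442822514197024804102474729289342257155 (by decide +kernel)))

theorem cl197 : Clo K (Helper55.TR.GK 1 Helper55.TR.BrV) r205 :=
  .i [n1,n0,n4,n4,m1,n0,n0,n1] (e' := [n0,n0,m4,m4,n1,n0,n0,m1]) (by decide +kernel) (by decide +kernel) cl196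
  (.h (Helper55.TR.GK.t (L := (r207).map (fun c => Helper11.CT.insC 8 (Helper11.CT.insC 8 c))) (Helper55.TR.GT.l0 Helper55.CD.Dm1_1_c0v_82.g 23013015331169757772672938389603826526818362562422774187147986012192157477287083826951324399218705209807134110742463936314387672413059128350066848301059 (by decide +kernel)) 160253465773128188090440793946382768948081006898077497453501431265752548889378305269945221478387859071114025976106181483542 (by decide +kernel)))

theorem cl198 : Clo K (Helper55.TR.GK 1 Helper55.TR.BrV) r186 :=
  .i [n1,n0,n3,n3,m1] (e' := [n0,n0,m3,m3,n1]) (by decide +kernel) (by decide +kernel) cl195 cl197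

theorem cl199 : Clo K (Helper55.TR.GK 1 Helper55.TR.BrV) r185 :=
  .i [n1,n0,n2,n2,m1,n0,n0,m1] (e' := [n0,n0,m2,m2,n1,n0,n0,n1]) (by decide +kernel) (by decide +kernel) cl194
  cl198

theorem cl200 : Clo K (Helper55.TR.GK 1 Helper55.TR.BrV) l184 :=
  .q [n0,n0,n1,n0,n0,n0,m2,n0,n1,m2] (e' := [n0,n0,m1,n0,n0,n0,n2,n0,m1,n2]) (.p false [0,0,1] [1,0,-1] (⟨0,[(17,
  0)]⟩,⟨0,[(12,0)]⟩) .k 2 (⟨0,[(12,0)]⟩,⟨0,[(17,0)]⟩) .k (.r (-1) ⟨2,[(2,1),(5,0),(9,1),(6,1)]⟩ ⟨0,
  [(34,1)]⟩)) (by decide +kernel) (by decide +kernel) (.t t111 ok111) cl199

theorem cl201 : Clo K (Helper55.TR.GK 1 Helper55.TR.BrV) l211 :=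
  .q [n0,n0,n1,n0,n0,n0,m2,n0,n1,m2] (e' := [n0,n0,m1,n0,n0,n0,n2,n0,m1,n2]) (.p false [0,0,1] [1,0,-1] (⟨0,[(20,
  0)]⟩,⟨0,[(15,0)]⟩) .k 2 (⟨0,[(15,0)]⟩,⟨0,[(20,0)]⟩) .k (.r (-1) ⟨2,[(5,1),(5,0),(9,1),(6,1)]⟩ ⟨0,
  [(37,1)]⟩)) (by decide +kernel) (by decide +kernel) (.t t125 ok125) (.h (Helper55.TR.GK.v Helper55.CD.Dm1_1_c0v_83.g 71533521498485469712418158661258766471029583720863887038878565093633763127052387944436216547296264196956360757252330316892161 (by decide +kernel)))

theorem cl202 : Clo K (Helper55.TR.GK 1 Helper55.TR.BrV) l213 :=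
  .q [n0,n0,m2,n0,n1,n0,m2,n0,n1,m2] (e' := [n0,n0,n2,n0,m1,n0,n2,n0,m1,n2]) (.p false [0,0,1] [1,0,-1] (⟨0,[(21,
  0)]⟩,⟨0,[(16,0)]⟩) .k 2 (⟨0,[(16,0)]⟩,⟨0,[(21,0)]⟩) .k (.r (-1) ⟨2,[(6,1),(5,0),(9,1),(6,1)]⟩ ⟨0,
  [(38,1)]⟩)) (by decide +kernel) (by decide +kernel) (.t t126 ok126) (.h (Helper55.TR.GK.v Helper55.CD.Dm1_1_c0v_84.g 77770270690183977154496949262011791505935472394264766811696847141730994951564975455420204838954414630043675820360097062135706683395 (by decide +kernel)))

theorem cl203 : Clo K (Helper55.TR.GK 1 Helper55.TR.BrV) l217 :=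
  .q [n0,n0,m2,n0,n1,n0,m2,n0,n1,m2] (e' := [n0,n0,n2,n0,m1,n0,n2,n0,m1,n2]) (.p false [0,0,1] [1,0,-1] (⟨0,[(24,
  0)]⟩,⟨0,[(19,0)]⟩) .k 2 (⟨0,[(19,0)]⟩,⟨0,[(24,0)]⟩) .k (.r (-1) ⟨2,[(9,1),(5,0),(9,1),(6,1)]⟩ ⟨0,
  [(41,1)]⟩)) (by decide +kernel) (by decide +kernel) (.t t128 ok128) (.h (Helper55.TR.GK.v Helper55.CD.Dm1_1_c0v_85.g 92352298797759783256726146637151157076608666533512713521355809563908002492766693077610000497172011124615607945686234395134688778479756905474 (by decide +kernel)))

theorem cl204 : Clo K (Helper55.TR.GK 1 Helper55.TR.BrV) l219 :=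
  .i [n1,n0,m3,m3,n1] (e' := [n0,n0,n3,n3,m1]) (by decide +kernel) (by decide +kernel) (.t t129 ok129) (.h
  (Helper55.TR.GK.v Helper55.CD.Dm1_1_c0v_86.g 148949645888727332729023199737494352695612991563764247122378936855978228914234324068040321352359005201147974038734201375351999979568322579458 (by decide +kernel)))

theorem cl205 : Clo K (Helper55.TR.GK 1 Helper55.TR.BrV) r217 :=
  .i [n1,n0,n3,n3,m1] (e' := [n0,n0,m3,m3,n1]) (by decide +kernel) (by decide +kernel) cl204 (.h (Helper55.TR.GK.v Helper55.CD.Dm1_1_c0v_87.g 142548444565986503233316648200674766305417229063047376184141168779066045313765229689481153289518021905351510563119753345416661056739085314 (by decide +kernel)))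

theorem cl206 : Clo K (Helper55.TR.GK 1 Helper55.TR.BrV) r216 :=
  .i [n0,n1,n2,n1,m1,n0,n0,m1] (e' := [n1,m1,m2,m1,n1,n0,n0,n1]) (by decide +kernel) (by decide +kernel) cl203
  cl205

theorem cl207 : Clo K (Helper55.TR.GK 1 Helper55.TR.BrV) l215 :=
  .i [n1,n0,n2,n2,m1,n0,n0,m1] (e' := [n0,n0,m2,m2,n1,n0,n0,n1]) (by decide +kernel) (by decide +kernel) (.t
  t127 ok127) cl206

theorem cl208 : Clo K (Helper55.TR.GK 1 Helper55.TR.BrV) l222 :=
  .q [n0,n0,m2,n0,n1,n0,m2,n0,n1,m2] (e' := [n0,n0,n2,n0,m1,n0,n2,n0,m1,n2]) (.p false [0,0,1] [1,0,-1] (⟨0,[(24,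
  0)]⟩,⟨0,[(19,0)]⟩) .k 2 (⟨0,[(19,0)]⟩,⟨0,[(24,0)]⟩) .k (.r (-1) ⟨2,[(9,1),(5,0),(9,1),(6,1)]⟩ ⟨0,
  [(41,1)]⟩)) (by decide +kernel) (by decide +kernel) (.t t130 ok130) (.h (Helper55.TR.GK.v Helper55.CD.Dm1_1_c0v_88.g 64010132760703059493074323595169780815617976033390450019722252275679702304137757654041612388224936399295581630358947004833780487240551426 (by decide +kernel)))

theorem cl209 : Clo K (Helper55.TR.GK 1 Helper55.TR.BrV) l221 :=
  .i [n0,n1,n2,n1,m1,n0,n0,m1] (e' := [n1,m1,m2,m1,n1,n0,n0,n1]) (by decide +kernel) (by decide +kernel) cl208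
  (.h (Helper55.TR.GK.v Helper55.CD.Dm1_1_c0v_89.g 148442696697684391181720374257361324977887063745716810468485168068074460243639899828019299593902350979853988033777045691342775646814211074 (by decide +kernel)))

theorem cl210 : Clo K (Helper55.TR.GK 1 Helper55.TR.BrV) r221 :=
  .i [n0,n0,m2,n0,n1,m2,m1] (e' := [n1,n0,n2,n0,m1,n2,n1]) (by decide +kernel) (by decide +kernel) (.t t131
  ok131) (.h (Helper55.TR.GK.v Helper55.CD.Dm1_1_c0v_90.g 175711944350307941429786614258125442780825163110814858217165524338152678578179172385486173978740653637270700258785209440675172078683566377986 (by decide +kernel)))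

theorem cl211 : Clo K (Helper55.TR.GK 1 Helper55.TR.BrV) r215 :=
  .i [n0,n0,m2,m2,n1,n0,n0,n1] (e' := [n1,n0,n2,n2,m1,n0,n0,m1]) (by decide +kernel) (by decide +kernel) cl209
  cl210

theorem cl212 : Clo K (Helper55.TR.GK 1 Helper55.TR.BrV) r213 :=
  .i [n0,n0,n2,n0,m1,n2,n1] (e' := [n1,n0,m2,n0,n1,m2,m1]) (by decide +kernel) (by decide +kernel) cl207 cl211

theorem cl213 : Clo K (Helper55.TR.GK 1 Helper55.TR.BrV) r211 :=
  .i [n0,n0,n2,n2,m1,n0,n0,m1] (e' := [n1,n0,m2,m2,n1,n0,n0,n1]) (by decide +kernel) (by decide +kernel) cl202
  cl212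

theorem cl214 : Clo K (Helper55.TR.GK 1 Helper55.TR.BrV) l210 :=
  .i [n0,n1,m1,m2,n0,n0,n0,m1] (e' := [n1,m1,n1,n2,n0,n0,n0,n1]) (by decide +kernel) (by decide +kernel) cl201
  cl213

theorem cl215 : Clo K (Helper55.TR.GK 1 Helper55.TR.BrV) l227 :=
  .q [n0,n0,m2,n0,n1,n0,m2,n0,n1,m2] (e' := [n0,n0,n2,n0,m1,n0,n2,n0,m1,n2]) (.p false [0,0,1] [1,0,-1] (⟨0,[(22,
  0)]⟩,⟨0,[(17,0)]⟩) .k 2 (⟨0,[(17,0)]⟩,⟨0,[(22,0)]⟩) .k (.r (-1) ⟨2,[(7,1),(5,0),(9,1),(6,1)]⟩ ⟨0,
  [(39,1)]⟩)) (by decide +kernel) (by decide +kernel) (.t t133 ok133) (.h (Helper55.TR.GK.v Helper55.CD.Dm1_1_c0v_91.g 164721661256758348856514463076232302743896899503471288124379126125845451140748025632393835331400753252694441919572723235862384099724290 (by decide +kernel)))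

theorem cl216 : Clo K (Helper55.TR.GK 1 Helper55.TR.BrV) r226 :=
  .i [n0,n1,n2,n1,m1,n0,n0,m1] (e' := [n1,m1,m2,m1,n1,n0,n0,n1]) (by decide +kernel) (by decide +kernel) cl215
  (.h (Helper55.TR.GK.v Helper55.CD.Dm1_1_c0v_92.g 142517226977633991708570457763824592124435391344427089972508762527314121805106335601318971398422204230978198341141744558551074815227201554 (by decide +kernel)))

theorem cl217 : Clo K (Helper55.TR.GK 1 Helper55.TR.BrV) l225 :=
  .i [n0,n1,n2,n1,m1] (e' := [n1,m1,m2,m1,n1]) (by decide +kernel) (by decide +kernel) (.t t132 ok132)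
  cl216

theorem cl218 : Clo K (Helper55.TR.GK 1 Helper55.TR.BrV) l229 :=
  .i [n0,n0,n2,n0,m1,n2,n1] (e' := [n1,n0,m2,n0,n1,m2,m1]) (by decide +kernel) (by decide +kernel) (.t t134
  ok134) (.h (Helper55.TR.GK.v Helper55.CD.Dm1_1_c0v_93.g 161887911543288398371207945600959697331836556406171179379039980978938988066593187860336307667428281327893650315910984556195197418998786 (by decide +kernel)))

theorem cl219 : Clo K (Helper55.TR.GK 1 Helper55.TR.BrV) r231 :=
  .i [n0,n1,n2,n1,m1] (e' := [n1,m1,m2,m1,n1]) (by decide +kernel) (by decide +kernel) (.t t136 ok136)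
  (.h (Helper55.TR.GK.v Helper55.CD.Dm1_1_c0v_94.g 47276308861394927233686674638781119671814634304381875922453222991008632418710860088868787908201090509338513280665608344903688915970 (by decide +kernel)))

theorem cl220 : Clo K (Helper55.TR.GK 1 Helper55.TR.BrV) r229 :=
  .q [n0,n0,m2,n0,n1,n0,m2,n0,n1,m2] (e' := [n0,n0,n2,n0,m1,n0,n2,n0,m1,n2]) (.p false [0,0,1] [1,0,-1] (⟨0,[(21,
  0)]⟩,⟨0,[(16,0)]⟩) .k 2 (⟨0,[(16,0)]⟩,⟨0,[(21,0)]⟩) .k (.r (-1) ⟨2,[(6,1),(5,0),(9,1),(6,1)]⟩ ⟨0,
  [(38,1)]⟩)) (by decide +kernel) (by decide +kernel) (.t t135 ok135) cl219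

theorem cl221 : Clo K (Helper55.TR.GK 1 Helper55.TR.BrV) r225 :=
  .i [n1,n0,m2,m2,n1,n0,n0,n1] (e' := [n0,n0,n2,n2,m1,n0,n0,m1]) (by decide +kernel) (by decide +kernel) cl218
  cl220

theorem cl222 : Clo K (Helper55.TR.GK 1 Helper55.TR.BrV) r210 :=
  .i [n0,n0,m2,m2,n1,n0,n0,n1] (e' := [n1,n0,n2,n2,m1,n0,n0,m1]) (by decide +kernel) (by decide +kernel) cl217
  cl221

theorem cl223 : Clo K (Helper55.TR.GK 1 Helper55.TR.BrV) l209 :=
  .q [n0,n0,n0,n0,n0,m2,n0,n0,n1,m1] (e' := [n0,n0,n0,n0,n0,n2,n0,n0,m1,n1]) (.p false [0,0,1] [1] (⟨0,[(18,0)]⟩,⟨0,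
  [(13,0)]⟩) .k 1 (⟨0,[]⟩,⟨0,[]⟩) .k .k) (by decide +kernel) (by decide +kernel) cl214 cl222

theorem cl224 : Clo K (Helper55.TR.GK 1 Helper55.TR.BrV) r236 :=
  .i [n0,n1,n2,n1,m1,n0,n0,m1] (e' := [n1,m1,m2,m1,n1,n0,n0,n1]) (by decide +kernel) (by decide +kernel) (.t
  t139 ok139) (.h (Helper55.TR.GK.v Helper55.CD.Dm1_1_c0v_95.g 48422060660614904448072879789877676850182920813790230214936995419836293316822550291213880226663900283341154911221710568832150872787970 (by decide +kernel)))

theorem cl225 : Clo K (Helper55.TR.GK 1 Helper55.TR.BrV) l235 :=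
  .i [n1,n0,m3,m3,n1] (e' := [n0,n0,n3,n3,m1]) (by decide +kernel) (by decide +kernel) (.t t138 ok138)
  cl224

theorem cl226 : Clo K (Helper55.TR.GK 1 Helper55.TR.BrV) l241 :=
  .q [n0,n0,n1,n0,n0,n0,m2,n0,n1,m2] (e' := [n0,n0,m1,n0,n0,n0,n2,n0,m1,n2]) (.p false [0,0,1] [1,0,-1] (⟨0,[(25,
  0)]⟩,⟨0,[(20,0)]⟩) .k 2 (⟨0,[(20,0)]⟩,⟨0,[(25,0)]⟩) .k (.r (-1) ⟨2,[(10,1),(5,0),(9,1),(6,1)]⟩ ⟨5,
  [(0,3),(12,1),(5,2),(9,0),(5,0)]⟩)) (by decide +kernel) (by decide +kernel) (.t t140 ok140) (.h
  (Helper55.TR.GK.t (L := (r242).map (fun c => Helper11.CT.insC 8 (Helper11.CT.insC 8 c))) (Helper55.TR.GT.l0 Helper55.CD.Dm1_1_c0v_96.g 228001565552955580496367499992889894937690832755231719497551019719394344009718705734995541537560628782006066871493525897075603798658158188796277373585590275 (by decide +kernel)) 194980346616818827911806245153903170283590592345496362043035514046472486517496633968984274097338792516364076479237278460961936741056404502 (by decide +kernel)))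

theorem cl227 : Clo K (Helper55.TR.GK 1 Helper55.TR.BrV) l240 :=
  .i [n0,n0,m1,m1,n0,n0,n0,m2] (e' := [n1,n0,n1,n1,n0,n0,n0,n2]) (by decide +kernel) (by decide +kernel) cl226
  (.t t141 ok141)

theorem cl228 : Clo K (Helper55.TR.GK 1 Helper55.TR.BrV) r240 :=
  .q [n0,n0,n1,n0,n0,n0,m2,n0,n1,m2] (e' := [n0,n0,m1,n0,n0,n0,n2,n0,m1,n2]) (.p false [0,0,1] [1,0,-1] (⟨0,[(24,
  0)]⟩,⟨0,[(19,0)]⟩) .k 2 (⟨0,[(19,0)]⟩,⟨0,[(24,0)]⟩) .k (.r (-1) ⟨2,[(9,1),(5,0),(9,1),(6,1)]⟩ ⟨0,
  [(41,1)]⟩)) (by decide +kernel) (by decide +kernel) (.t t142 ok142) (.h (Helper55.TR.GK.v Helper55.CD.Dm1_1_c0v_97.g 92360946954252018640930714787372822246902891506969863563746612253722552329039978071674349078316330377580410450310703374189848672840130235394 (by decide +kernel)))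

theorem cl229 : Clo K (Helper55.TR.GK 1 Helper55.TR.BrV) l239 :=
  .i [n0,n0,m3,n0,n1,m3,m2] (e' := [n1,n0,n3,n0,m1,n3,n2]) (by decide +kernel) (by decide +kernel) cl227 cl228

theorem cl230 : Clo K (Helper55.TR.GK 1 Helper55.TR.BrV) l238 :=
  .i [n0,n1,m1,m2,n0,n0,n0,m1] (e' := [n1,m1,n1,n2,n0,n0,n0,n1]) (by decide +kernel) (by decide +kernel) cl229
  (.h (Helper55.TR.GK.sub Helper55.CD.Dm1_1_c0v_98.g 134951082052302485322843261534577223493265123275272483754018999231376585409592713441107581709254912087128232875222926324936708 (by decide +kernel)))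

theorem cl231 : Clo K (Helper55.TR.GK 1 Helper55.TR.BrV) r235 :=
  .q [n0,n0,n0,n0,n0,m2,n0,n0,n1,m1] (e' := [n0,n0,n0,n0,n0,n2,n0,n0,m1,n1]) (.p false [0,0,1] [1] (⟨0,[(21,0)]⟩,⟨0,
  [(16,0)]⟩) .k 1 (⟨0,[]⟩,⟨0,[]⟩) .k .k) (by decide +kernel) (by decide +kernel) cl230 (.h (Helper55.TR.GK.t (L := (r238).map (fun c => Helper11.CT.insC 8 (Helper11.CT.insC 8 c))) (Helper55.TR.GT.l0 Helper55.CD.Dm1_1_c0v_99.g 93969326652453811388460898597655972010169458361728050127137754032504196175000269555727313544909116313185102677056985241135616506474467392613699101891020810 (by decide +kernel)) 166746357600915775123973098418204684805706061113896944757184997840416011940439837453217626252286639640664099456281992474156054 (by decide +kernel)))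

theorem cl232 : Clo K (Helper55.TR.GK 1 Helper55.TR.BrV) r234 :=
  .i [n1,n0,n3,n3,m1] (e' := [n0,n0,m3,m3,n1]) (by decide +kernel) (by decide +kernel) cl225 cl231

theorem cl233 : Clo K (Helper55.TR.GK 1 Helper55.TR.BrV) l233 :=
  .i [n1,n1,n2,n2,m1,n0,n0,m1] (e' := [n0,m1,m2,m2,n1,n0,n0,n1]) (by decide +kernel) (by decide +kernel) (.t
  t137 ok137) cl232

theorem cl234 : Clo K (Helper55.TR.GK 1 Helper55.TR.BrV) l244 :=
  .i [n0,n0,n2,n1,m1,n0,n0,m1] (e' := [n1,n0,m2,m1,n1,n0,n0,n1]) (by decide +kernel) (by decide +kernel) (.t
  t143 ok143) (.h (Helper55.TR.GK.v Helper55.CD.Dm1_1_c0v_100.g 73165708321172666469946431224467062598429041038348580306499797115549673818573305431555987380737430586997419909843662808269457411 (by decide +kernel)))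

theorem cl235 : Clo K (Helper55.TR.GK 1 Helper55.TR.BrV) l247 :=
  .i [n0,n0,n2,n1,m1,n0,n0,m1] (e' := [n1,n0,m2,m1,n1,n0,n0,n1]) (by decide +kernel) (by decide +kernel) (.t
  t145 ok145) (.h (Helper55.TR.GK.v Helper55.CD.Dm1_1_c0v_101.g 136682670418976976393632721558758803811878186074199931016785845161907638413411064910472122090655540315743639648195032678280064159245667330 (by decide +kernel)))

theorem cl236 : Clo K (Helper55.TR.GK 1 Helper55.TR.BrV) l253 :=
  .q [n0,n0,n1,n0,n0,n0,m2,n0,n1,m2] (e' := [n0,n0,m1,n0,n0,n0,n2,n0,m1,n2]) (.p false [0,0,1] [1,0,-1] (⟨0,[(27,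
  0)]⟩,⟨0,[(22,0)]⟩) .k 2 (⟨0,[(22,0)]⟩,⟨0,[(27,0)]⟩) .k (.r (-1) ⟨2,[(12,1),(5,0),(9,1),(6,1)]⟩ ⟨5,
  [(0,3),(14,1),(5,2),(9,0),(5,0)]⟩)) (by decide +kernel) (by decide +kernel) (.t t147 ok147) (.h
  (Helper55.TR.GK.v Helper55.CD.Dm1_1_c0v_102.g 170911337752410124818732474400292934104644000616789165315740744869312384396338416115680241843410838563019603731809747038491097294980735319410691 (by decide +kernel)))

theorem cl237 : Clo K (Helper55.TR.GK 1 Helper55.TR.BrV) r252 :=
  .i [n0,n0,m1,m1,n0,n0,n0,m2] (e' := [n1,n0,n1,n1,n0,n0,n0,n2]) (by decide +kernel) (by decide +kernel) cl236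
  (.t t148 ok148)

theorem cl238 : Clo K (Helper55.TR.GK 1 Helper55.TR.BrV) l251 :=
  .i [n1,n0,n2,n2,m1,n0,n0,m1] (e' := [n0,n0,m2,m2,n1,n0,n0,n1]) (by decide +kernel) (by decide +kernel) (.t
  t146 ok146) cl237

theorem cl239 : Clo K (Helper55.TR.GK 1 Helper55.TR.BrV) r251 :=
  .q [n0,n0,n1,n0,n0,n0,m2,n0,n1,m2] (e' := [n0,n0,m1,n0,n0,n0,n2,n0,m1,n2]) (.p false [0,0,1] [1,0,-1] (⟨0,[(25,
  0)]⟩,⟨0,[(20,0)]⟩) .k 2 (⟨0,[(20,0)]⟩,⟨0,[(25,0)]⟩) .k (.r (-1) ⟨2,[(10,1),(5,0),(9,1),(6,1)]⟩ ⟨0,
  [(42,1)]⟩)) (by decide +kernel) (by decide +kernel) (.t t149 ok149) (.h (Helper55.TR.GK.v Helper55.CD.Dm1_1_c0v_103.g 168024595527824825502337317666592525320818657246193097159251579886338059953814492372967555171456496964244823320964414208780274690 (by decide +kernel)))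

theorem cl240 : Clo K (Helper55.TR.GK 1 Helper55.TR.BrV) l250 :=
  .i [n1,n0,m2,m2,n1,n0,n0,n1] (e' := [n0,n0,n2,n2,m1,n0,n0,m1]) (by decide +kernel) (by decide +kernel) cl238
  cl239

theorem cl241 : Clo K (Helper55.TR.GK 1 Helper55.TR.BrV) l258 :=
  .i [n1,n0,n3,n3,m1,n0,n0,n1] (e' := [n0,n0,m3,m3,n1,n0,n0,m1]) (by decide +kernel) (by decide +kernel) (.t
  t151 ok151) (.h (Helper55.TR.GK.v Helper55.CD.Dm1_1_c0v_104.g 50791649135779296184585244380587348451443111253650743334933888486666549115564343353116224322784342549014339220615828876180109886040038180867 (by decide +kernel)))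

theorem cl242 : Clo K (Helper55.TR.GK 1 Helper55.TR.BrV) r257 :=
  .i [n1,n0,m3,m3,n1,n0,n0,m1] (e' := [n0,n0,n3,n3,m1,n0,n0,n1]) (by decide +kernel) (by decide +kernel) cl241
  (.h (Helper55.TR.GK.v Helper55.CD.Dm1_1_c0v_105.g 172821990999928803572129780595719138905955915621065447235184318047974750272476607775481706218739880378479524272721111542819647572164733832194 (by decide +kernel)))

theorem cl243 : Clo K (Helper55.TR.GK 1 Helper55.TR.BrV) l256 :=
  .i [n1,n0,m2,m2,n1,n0,n0,n1] (e' := [n0,n0,n2,n2,m1,n0,n0,m1]) (by decide +kernel) (by decide +kernel) (.t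
  t150 ok150) cl242

theorem cl244 : Clo K (Helper55.TR.GK 1 Helper55.TR.BrV) r250 :=
  .i [n1,n0,n2,n2,m1,n0,n0,m1] (e' := [n0,n0,m2,m2,n1,n0,n0,n1]) (by decide +kernel) (by decide +kernel) cl243
  (.h (Helper55.TR.GK.v Helper55.CD.Dm1_1_c0v_106.g 181683580217945598212713131894481276197695596793885599008735580320075652990928930131454772633779459634116260238906272496911175100629901118466 (by decide +kernel)))

theorem cl245 : Clo K (Helper55.TR.GK 1 Helper55.TR.BrV) l249 :=
  .i [n0,n1,m1,m2,n0,n0,n0,m1] (e' := [n1,m1,n1,n2,n0,n0,n0,n1]) (by decide +kernel) (by decide +kernel) cl240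
  cl244

theorem cl246 : Clo K (Helper55.TR.GK 1 Helper55.TR.BrV) l260 :=
  .i [n1,n0,m2,m2,n1,n0,n0,n1] (e' := [n0,n0,n2,n2,m1,n0,n0,m1]) (by decide +kernel) (by decide +kernel) (.t
  t152 ok152) (.h (Helper55.TR.GK.v Helper55.CD.Dm1_1_c0v_107.g 19910698277915682769981111644400748611307551004865518363657498709310947548510245421899759762497040846998845292009996805309518346978307 (by decide +kernel)))

theorem cl247 : Clo K (Helper55.TR.GK 1 Helper55.TR.BrV) r249 :=
  .i [n1,n0,n2,n2,m1,n0,n0,m1] (e' := [n0,n0,m2,m2,n1,n0,n0,n1]) (by decide +kernel) (by decide +kernel) cl246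
  (.h (Helper55.TR.GK.v Helper55.CD.Dm1_1_c0v_108.g 178686069051555795903752089014894504744377453878286884130097215391931160935880550797350193911424585152737383475805195239148348188078666419201 (by decide +kernel)))

theorem cl248 : Clo K (Helper55.TR.GK 1 Helper55.TR.BrV) r247 :=
  .q [n0,n0,n0,n0,n0,m2,n0,n0,n1,m1] (e' := [n0,n0,n0,n0,n0,n2,n0,n0,m1,n1]) (.p false [0,0,1] [1] (⟨0,[(22,0)]⟩,⟨0,
  [(17,0)]⟩) .k 1 (⟨0,[]⟩,⟨0,[]⟩) .k .k) (by decide +kernel) (by decide +kernel) cl245 cl247

theorem cl249 : Clo K (Helper55.TR.GK 1 Helper55.TR.BrV) r246 :=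
  .q [n0,m1,n0,n1,n0,n0,m1,m1,n1,m1] (e' := [n0,n1,n0,m1,n0,n0,n1,n1,m1,n1]) (.p false [0,0,1] [1] (⟨0,[(21,0)]⟩,
  ⟨0,[(16,0)]⟩) .k 1 (⟨0,[]⟩,⟨0,[]⟩) .k .k) (by decide +kernel) (by decide +kernel) cl235 cl248

theorem cl250 : Clo K (Helper55.TR.GK 1 Helper55.TR.BrV) r244 :=
  .i [n0,n1,n2,n1,m1] (e' := [n1,m1,m2,m1,n1]) (by decide +kernel) (by decide +kernel) (.t t144 ok144)
  cl249

theorem cl251 : Clo K (Helper55.TR.GK 1 Helper55.TR.BrV) r233 :=
  .q [n0,m1,n0,n2,n0,n0,m1,m1,n1,m1] (e' := [n0,n1,n0,m2,n0,n0,n1,n1,m1,n1]) (.p false [0,0,1] [1] (⟨0,[(19,0)]⟩,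
  ⟨0,[(14,0)]⟩) .k 1 (⟨0,[]⟩,⟨0,[]⟩) .k .k) (by decide +kernel) (by decide +kernel) cl234 cl250

theorem cl252 : Clo K (Helper55.TR.GK 1 Helper55.TR.BrV) r209 :=
  .q [n0,n0,m2,n0,n1,n0,m2,n0,n1,m2] (e' := [n0,n0,n2,n0,m1,n0,n2,n0,m1,n2]) (.p false [0,0,1] [1,0,-1] (⟨0,[(18,
  0)]⟩,⟨0,[(13,0)]⟩) .k 2 (⟨0,[(13,0)]⟩,⟨0,[(18,0)]⟩) .k (.r (-1) ⟨2,[(3,1),(5,0),(9,1),(6,1)]⟩ ⟨0,
  [(35,1)]⟩)) (by decide +kernel) (by decide +kernel) cl233 cl251

theorem cl253 : Clo K (Helper55.TR.GK 1 Helper55.TR.BrV) r184 :=
  .q [n0,n0,n0,n0,n0,n2,n0,n0,n0,m1] (e' := [n0,n0,n0,n0,n0,m2,n0,n0,n0,n1]) (.p false [0,0,1] [] (⟨0,[(17,0)]⟩,⟨0,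
  [(12,0)]⟩) .k 0 (⟨0,[]⟩,⟨0,[]⟩) .k .k) (by decide +kernel) (by decide +kernel) cl223 cl252

theorem cl254 : Clo K (Helper55.TR.GK 1 Helper55.TR.BrV) r183 :=
  .i [n0,n1,m1,m1,n0,n0,n0,m1] (e' := [n1,m1,n1,n1,n0,n0,n0,n1]) (by decide +kernel) (by decide +kernel) cl200
  cl253

theorem cl255 : Clo K (Helper55.TR.GK 1 Helper55.TR.BrV) r182 :=
  .i [n1,n1,n2,n2,m1] (e' := [n0,m1,m2,m2,n1]) (by decide +kernel) (by decide +kernel) (.t t110 ok110)
  cl254

theorem cl256 : Clo K (Helper55.TR.GK 1 Helper55.TR.BrV) r181 :=
  .i [n1,n0,n1,n2,m1,n0,n0,m2] (e' := [n0,n0,m1,m2,n1,n0,n0,n2]) (by decide +kernel) (by decide +kernel) (.t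
  t109 ok109) cl255

theorem cl257 : Clo K (Helper55.TR.GK 1 Helper55.TR.BrV) r105 :=
  .q [n0,n1,n0,n1,n0,n0,n1,n1,n0,n1] (e' := [n0,m1,n0,m1,n0,n0,m1,m1,n0,m1]) (.p true [0,0,1] [] (⟨0,[(13,0)]⟩,⟨0,
  [(8,0)]⟩) .k 0 (⟨0,[]⟩,⟨0,[]⟩) .k .k) (by decide +kernel) (by decide +kernel) (.t t108 ok108)
  cl256

theorem cl258 : Clo K (Helper55.TR.GK 1 Helper55.TR.BrV) r104 :=
  .q [n0,n0,n0,n0,n0,n1,n0,n0,m1,n1] (e' := [n0,n0,n0,n0,n0,m1,n0,n0,n1,m1]) (.ed false [0,1,1] .k)
  (by decide +kernel) (by decide +kernel) cl176 cl257

theorem cl259 : Clo K (Helper55.TR.GK 1 Helper55.TR.BrV) l103 :=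
  .q [n0,n0,n0,m2,n0,n0,n1,n1,n0,n1] (e' := [n0,n0,n0,n2,n0,n0,m1,m1,n0,m1]) (.p true [0,0,1] [] (⟨0,[(11,0)]⟩,⟨0,
  [(6,0)]⟩) .k 0 (⟨0,[]⟩,⟨0,[]⟩) .k .k) (by decide +kernel) (by decide +kernel) (.t t65 ok65) cl258

theorem cl260 : Clo K (Helper55.TR.GK 1 Helper55.TR.BrV) r0 :=
  .q [n0,n0,n0,n0,n0,m2,n0,n0,n1] (e' := [n0,n0,n0,n0,n0,n2,n0,n0,m1]) (.pp false [-1,1]) (by decide +kernel)
  (by decide +kernel) cl259 (.t t153 ok153)

theorem cl261 : Clo K (Helper55.TR.GK 1 Helper55.TR.BrV) base :=
  .q [n0,n0,n2,n0,m1,n0,n1,n0,n0,n1] (e' := [n0,n0,m2,n0,n1,n0,m1,n0,n0,m1]) (.p true [0,0,1] [] (⟨0,[(9,0)]⟩,⟨0,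
  [(4,0)]⟩) .k 0 (⟨0,[]⟩,⟨0,[]⟩) .k .k) (by decide +kernel) (by decide +kernel) cl101 cl260

theorem g : Helper55.TR.GK 1 Helper55.TR.BrV base :=
  Helper55.TR.GK.of cl261

end Helper55.CD.Dm1_1_c0v

namespace Helper55.CD.Dm1_1_c0v

open Helper55.TR.Nm

noncomputable def bk : List Helper11.CT.Con :=
  [(false,[n0,n0,n0,n0,n0,n0,n1,n0,m1,n1]),
  (false,[n0,m1,n0,n0,n0,n0,m1,m1,n1,m1]),
  (true,[n0,n0,n0,m1]),
  (false,[n0,n0,m2,n0,n1,n0,n0,n0,m1]),
  (true,[n0,n0,n1,n0,n0,n0,n0,n1]),
  (true,[n1,n0,n1,n1,n0,n0,n0,n1]),
  (false,[n0,n0,n0,n0,n0,n0,n1,n0,n0,n1]),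
  (true,[n0,m1,n1,n0,n0,n0,n0,m1]),
  (false,[n0,n0,n0,n0,n0,n0,m1,m1,n0,m1]),
  (false,[n0,m1,m1,n1,n1,n0,m1,n0,n0,m1]),
  (true,[n1,m2,n1]),
  (false,[n0,n0,n0,n0,n0,m1,n0,n0,n0,n1]),
  (true,[n0,n0,n0,m1,n0,n0,n0,m1]),
  (false,[n0,n0,n0,n1,n0,n0,m1,m1,n0,m1]),
  (true,[n0,n0,n0,n0,n0,n0,n0,m1]),
  (true,[n0,n0,n1,n1,n0,n0,n0,n1])]

theorem gk : Helper55.TR.GK 1 Helper55.TR.BrV bk :=
  Helper55.TR.GK.sub g 58293400508138516377709824035076834392470911896852988234852384625547847003232043802626 (by decide +kernel)

end Helper55.CD.Dm1_1_c0v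

namespace Helper55.CD

open Helper25.KG Helper25.KW Helper55.KE Helper11.CT Helper55.TR.Nm

theorem l_Dm1_1_c0v {p a b c J l q : ℤ} {D dl : ℝ} {Cl : ℤ → ℤ → ℤ → ℤ → ℝ → Prop}
    (W : World p a b c J 1 l q D dl Cl) (hc : -a < c) (hb2 : 2 * a ≤ b) (hA : Aux p a b 1 D Cl)
    {N X R : ℤ} {I : ℝ} (hK : KGF p a b 1 D (P1 l p) Cl N X R I)
    (hM : KMin p a b 1 (P1 l p) Cl N (a + (1 : ℤ) * (X + (1 : ℤ) * I + R)))
    {Nu Xu Ru : ℤ} {Iu : ℝ} (hT : KCl p l Cl Nu Xu Ru Iu)
    (t0 : 0 < Iu)
    (t1 : 0 < D - Iu)
    (t2 : 0 < -(J : ℝ) + D - Iu)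
    (t3 : 0 < (Xu : ℝ) + Iu)
    (t4 : 1 ≤ 1 + (a : ℝ) + (Ru : ℝ))
    (t5 : 1 ≤ -(a : ℝ) - (c : ℝ) - (Ru : ℝ))
    (t6 : 0 < (c : ℝ) - (Xu : ℝ) - (Ru : ℝ) - Iu)
    {Nv Rv : ℤ} {Iv : ℝ} (hv : VFac p D Cl Nv Rv Iv)
    (h0 : 1 ≤ -(c : ℝ))
    (h1 : 1 ≤ 1 - 2 * (a : ℝ) + (b : ℝ))
    (h2 : 0 < -(a : ℝ) - (X : ℝ) - (R : ℝ) + D - I)
    (h3 : 1 ≤ -(a : ℝ) + (b : ℝ) - (R : ℝ))
    (h4 : 0 < -2 * (b : ℝ) + (p : ℝ) - D)
    (h5 : 1 ≤ -(c : ℝ) - (R : ℝ))
    (h6 : 0 < (X : ℝ) + I)
    (h7 : 0 < -(a : ℝ) - (b : ℝ) + (c : ℝ) + (p : ℝ) - (X : ℝ) - I)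
    (h8 : 1 ≤ -(R : ℝ))
    (h9 : 0 < -(J : ℝ) + I)
    (h10 : 1 ≤ (b : ℝ) + (R : ℝ))
    (h11 : 0 < (X : ℝ) - D + I)
    (h12 : 0 < -(X : ℝ) - (R : ℝ) - I)
    (h13 : 1 ≤ 1 + (b : ℝ) + (c : ℝ) + (R : ℝ))
    (h14 : 1 ≤ (b : ℝ) + (c : ℝ) + (R : ℝ))
    (h15 : 0 < (c : ℝ) - (X : ℝ) - (R : ℝ) - I) : False := by
  refine Helper55.CD.Dm1_1_c0v.gk (Helper55.TR.DC.mB W hc hb2 hA hK hM hT t0 t1 t2 t3 t4 t5 t6) (Helper55.TR.brV hv) ?_
  simp only [Helper55.CD.Dm1_1_c0v.bk, List.forall_mem_cons, List.not_mem_nil, false_imp_iff, implies_true,
    and_true, hld, xv, evg_cons, evg_nil, n0c, n1c, m1c, m2c, List.map_cons, List.map_nil, List.cons_append,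
    List.nil_append, if_true, if_false, Bool.false_eq_true]
  push_cast
  exact ⟨by linarith only [h11], by linarith only [h2], by linarith only [h0], by linarith only [h4], by linarith only [h10], by linarith only [h13], by linarith only [h6], by linarith only [h3], by linarith only [h12], by linarith only [h7], by linarith only [h1], by linarith only [h9], by linarith only [h5], by linarith only [h15], by linarith only [h8], by linarith only [h14]⟩

end Helper55.CD
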